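import Mathlib
import Pool.Agent.Lib.MP_9cfc0a_nt.An3
import Pool.Agent.Lib.MP_9cfc0a_nt.NewPart

section

set_option autoImplicit false

namespace Pool.Agent.MC

open Complex MeasureTheory Set Filter Topology Asymptotics Metric

/-- zero-free condition -/
def ZF (d : ℕ) [NeZero d] (θ : ℝ) : Prop :=
  ∀ χ : DirichletCharacter ℂ d, ∀ s : ℂ, θ < s.re → s.re < 1 → χ.LFunction s ≠ 0

lemma FF_ne_zero (d : ℕ) [NeZero d] (θ : ℝ) (hZ : ZF d θ) (χ : DirichletCharacter ℂ d) (s : ℂ)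
    (hs : θ < s.re) : FF d χ s ≠ 0 := by
  by_cases h : χ = 1
  · subst h
    by_cases hs1 : s = 1
    · rw [FF_one, hs1]
      exact DirichletCharacter.LFunctionTrivChar₁_apply_one_ne_zero d
    · rw [FF_one_apply d s hs1]
      refine mul_ne_zero (sub_ne_zero.mpr hs1) ?_
      rcases lt_or_ge s.re 1 with h1 | h1
      · exact hZ 1 s hs h1
      · exact DirichletCharacter.LFunction_ne_zero_of_one_le_re 1 (.inr hs1) h1
  · rw [FF_of_ne d χ h]
    rcases lt_or_ge s.re 1 with h1 | h1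
    · exact hZ χ s hs h1
    · exact DirichletCharacter.LFunction_ne_zero_of_one_le_re χ (.inl h) h1

lemma logDeriv_FF_bound (d : ℕ) [NeZero d] (θ : ℝ) (hθ : 1 / 2 ≤ θ) (hθ1 : θ < 1) (hZ : ZF d θ)
    (ε κ : ℝ) (hε : 0 < ε) (hκ : 0 < κ) :
    ∃ C : ℝ, 0 ≤ C ∧ ∀ χ : DirichletCharacter ℂ d, ∀ s : ℂ, θ + ε ≤ s.re → s.re ≤ 2 →
      ‖deriv (FF d χ) s / FF d χ s‖ ≤ C * (|s.im| + 6) ^ κ := by
  have hdR : (1 : ℝ) ≤ d := by exact_mod_cast Nat.one_le_iff_ne_zero.mpr (NeZero.ne d)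
  set K : ℝ := 3 * (4 * d + 3) with hK
  have hK1 : 1 < K := by rw [hK]; linarith
  have hlogK : 0 < Real.log K := Real.log_pos hK1
  refine ⟨8 * (Real.log K + 2 / κ) * 2 / ε ^ 2, by positivity, fun χ s hs1 hs2 => ?_⟩
  set T : ℝ := |s.im| + 6 with hT
  have hT6 : 6 ≤ T := by rw [hT]; linarith [abs_nonneg s.im]
  have hT1 : 1 < T := by linarith
  set s0 : ℂ := ⟨2, s.im⟩ with hs0
  set R : ℝ := 2 - θ with hR
  have hR1 : R ≤ 2 := by rw [hR]; linarith
  have hR0 : 0 < R := by rw [hR]; linarith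
  have hs0n : ‖s0‖ ≤ 2 + |s.im| := by
    have := Complex.norm_le_abs_re_add_abs_im s0
    rw [hs0] at this ⊢
    simpa using this
  have hball : ∀ z ∈ ball s0 R, θ < z.re ∧ ‖z‖ + 1 ≤ T := by
    intro z hz
    rw [mem_ball, dist_eq_norm] at hz
    constructor
    · have h1 := (Complex.abs_re_le_norm (z - s0)).trans_lt hz
      rw [Complex.sub_re, abs_lt] at h1
      have h2 : s0.re = 2 := rfl
      rw [h2] at h1
      linarith [h1.1]
    · have h1 : ‖z‖ ≤ ‖z - s0‖ + ‖s0‖ := by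
        calc ‖z‖ = ‖(z - s0) + s0‖ := by rw [sub_add_cancel]
          _ ≤ _ := norm_add_le _ _
      rw [hT]
      linarith
  set M : ℝ := Real.log (K * T ^ 2) with hM
  have hM0 : 0 < M := Real.log_pos (by nlinarith)
  have hexpM : Real.exp M = K * T ^ 2 := Real.exp_log (by positivity)
  have hεR : ε ≤ R := by rw [hR]; linarith
  have hlow := FF_lower d χ s0 rfl
  have hdist : dist s s0 ≤ R - ε := by
    rw [dist_eq_norm]
    have h1 : s - s0 = ((s.re - 2 : ℝ) : ℂ) := by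
      apply Complex.ext
      · simp [hs0]
      · simp [hs0]
    rw [h1, Complex.norm_real, Real.norm_eq_abs, abs_of_nonpos (by linarith)]
    rw [hR]
    linarith
  have key := logDeriv_bound (FF d χ) s0 R M ε hM0 hε hεR (FF_differentiable d χ).differentiableOn
    (fun z hz => FF_ne_zero d θ hZ χ z (hball z hz).1) (fun z hz => by
      obtain ⟨h1, h2⟩ := hball z hz
      have h3 := FF_bound d χ z (by linarith)
      rw [hexpM]
      calc ‖FF d χ z‖ ≤ (4 * d + 3) * (‖z‖ + 1) ^ 2 := h3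
        _ ≤ (4 * d + 3) * T ^ 2 := by gcongr
        _ = K * T ^ 2 * (1 / 3) := by rw [hK]; ring
        _ ≤ K * T ^ 2 * ‖FF d χ s0‖ := by gcongr) s hdist
  refine key.trans ?_
  have hTκ : 1 ≤ T ^ κ := Real.one_le_rpow hT1.le hκ.le
  have hM2 : M ≤ (Real.log K + 2 / κ) * T ^ κ := by
    rw [hM, Real.log_mul (by positivity) (by positivity), Real.log_pow]
    have h1 := Real.log_le_rpow_div (show 0 ≤ T by linarith) hκ
    have h2 : Real.log K ≤ Real.log K * T ^ κ := by nlinarith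
    have h3 : 2 * Real.log T ≤ 2 / κ * T ^ κ := by
      calc 2 * Real.log T ≤ 2 * (T ^ κ / κ) := by gcongr
        _ = 2 / κ * T ^ κ := by ring
    push_cast
    linarith
  calc 8 * M * R / ε ^ 2 ≤ 8 * ((Real.log K + 2 / κ) * T ^ κ) * 2 / ε ^ 2 := by gcongr
    _ = 8 * (Real.log K + 2 / κ) * 2 / ε ^ 2 * T ^ κ := by ring

/-- the Dirichlet series of the error term -/
noncomputable def HA (d : ℕ) [NeZero d] (a : ZMod d) (s : ℂ) : ℂ :=
  ArithmeticFunction.vonMangoldt.LFunctionResidueClassAux a s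

lemma HA_eq (d : ℕ) [NeZero d] (a : ZMod d) (s : ℂ) :
    HA d a s = ((d.totient : ℂ)⁻¹) * (-(deriv (FF d 1) s / FF d 1 s) -
      ∑ χ ∈ ({1}ᶜ : Finset (DirichletCharacter ℂ d)), χ a⁻¹ * (deriv (FF d χ) s / FF d χ s)) := by
  unfold HA
  rw [ArithmeticFunction.vonMangoldt.LFunctionResidueClassAux, FF_one, neg_div]
  congr 2
  refine Finset.sum_congr (by ext; simp) fun χ hχ => ?_
  have h1 : χ ≠ 1 := by simpa using hχ
  rw [FF_of_ne d χ h1, mul_div_assoc]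

lemma HA_differentiableOn (d : ℕ) [NeZero d] (θ : ℝ) (hZ : ZF d θ) (a : ZMod d) :
    DifferentiableOn ℂ (HA d a) {s | θ < s.re} := by
  have h0 : HA d a = fun s => ((d.totient : ℂ)⁻¹) * (-(deriv (FF d 1) s / FF d 1 s) -
      ∑ χ ∈ ({1}ᶜ : Finset (DirichletCharacter ℂ d)), χ a⁻¹ * (deriv (FF d χ) s / FF d χ s)) := by
    ext s; exact HA_eq d a s
  rw [h0]
  have h1 : ∀ χ : DirichletCharacter ℂ d,
      DifferentiableOn ℂ (fun s => deriv (FF d χ) s / FF d χ s) {s | θ < s.re} := by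
    intro χ
    refine DifferentiableOn.div ?_ (FF_differentiable d χ).differentiableOn
      (fun s hs => FF_ne_zero d θ hZ χ s hs)
    exact ((FF_differentiable d χ).differentiableOn.deriv isOpen_univ).mono (subset_univ _)
  refine DifferentiableOn.const_mul (DifferentiableOn.sub (h1 1).neg ?_) _
  refine DifferentiableOn.fun_sum fun χ _ => ?_
  exact (h1 χ).const_mul _

lemma HA_bound (d : ℕ) [NeZero d] (θ : ℝ) (hθ : 1 / 2 ≤ θ) (hθ1 : θ < 1) (hZ : ZF d θ)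
    (ε κ : ℝ) (hε : 0 < ε) (hκ : 0 < κ) :
    ∃ C : ℝ, 0 ≤ C ∧ ∀ a : ZMod d, ∀ s : ℂ, θ + ε ≤ s.re → s.re ≤ 2 →
      ‖HA d a s‖ ≤ C * (|s.im| + 6) ^ κ := by
  obtain ⟨C, hC, h⟩ := logDeriv_FF_bound d θ hθ hθ1 hZ ε κ hε hκ
  set N : ℝ := ((({1}ᶜ : Finset (DirichletCharacter ℂ d)).card : ℕ) : ℝ) with hN
  have hN0 : 0 ≤ N := Nat.cast_nonneg _
  refine ⟨(1 + N) * C, by positivity, fun a s h1 h2 => ?_⟩
  rw [HA_eq, norm_mul, norm_inv, Complex.norm_natCast]
  have hφ : (1 : ℝ) ≤ d.totient := by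
    exact_mod_cast Nat.totient_pos.mpr (Nat.pos_of_ne_zero (NeZero.ne d))
  have hT : 0 ≤ (|s.im| + 6) ^ κ := by positivity
  have hinv : ((d.totient : ℝ))⁻¹ ≤ 1 := inv_le_one_of_one_le₀ hφ
  have h3 : ‖-(deriv (FF d 1) s / FF d 1 s) -
      ∑ χ ∈ ({1}ᶜ : Finset (DirichletCharacter ℂ d)), χ a⁻¹ * (deriv (FF d χ) s / FF d χ s)‖
      ≤ (1 + N) * C * (|s.im| + 6) ^ κ := by
    calc _ ≤ ‖-(deriv (FF d 1) s / FF d 1 s)‖ +
          ‖∑ χ ∈ ({1}ᶜ : Finset (DirichletCharacter ℂ d)), χ a⁻¹ * (deriv (FF d χ) s / FF d χ s)‖ :=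
            norm_sub_le _ _
      _ ≤ C * (|s.im| + 6) ^ κ + ∑ _χ ∈ ({1}ᶜ : Finset (DirichletCharacter ℂ d)),
            C * (|s.im| + 6) ^ κ := by
          rw [norm_neg]
          refine add_le_add (h 1 s h1 h2) ((norm_sum_le _ _).trans (Finset.sum_le_sum fun χ _ => ?_))
          rw [norm_mul]
          calc ‖χ a⁻¹‖ * ‖deriv (FF d χ) s / FF d χ s‖ ≤ 1 * (C * (|s.im| + 6) ^ κ) := by
                gcongr
                · exact χ.norm_le_one _
                · exact h χ s h1 h2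
            _ = _ := one_mul _
      _ = (1 + N) * C * (|s.im| + 6) ^ κ := by
          rw [Finset.sum_const, nsmul_eq_mul, hN]
          ring
  calc _ ≤ 1 * ((1 + N) * C * (|s.im| + 6) ^ κ) := by gcongr
    _ = _ := one_mul _

end Pool.Agent.MC
end

section

set_option autoImplicit false

namespace Pool.Agent.MC

open Finset MeasureTheory Real

lemma chain_aux (U : ℕ → ℕ → ℂ) (h0 : ∀ v, U v 0 = 0)
    (hadd : ∀ v H₁ H₂, U v (H₁ + H₂) = U v H₁ + U (v + H₁) H₂) :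
    ∀ K v x : ℕ, x < 2 ^ K → ∃ m : ℕ → ℝ, (∀ k, 0 ≤ m k) ∧ ‖U v x‖ ≤ ∑ k ∈ range K, m k ∧
      ∀ k, k < K → m k ^ 2 ≤ ∑ j ∈ range (2 ^ (K - k)), ‖U (v + j * 2 ^ k) (2 ^ k)‖ ^ 2 := by
  intro K
  induction K with
  | zero =>
    intro v x hx
    have : x = 0 := by simpa using hx
    subst this
    exact ⟨fun _ => 0, fun _ => le_rfl, by simp [h0], fun k hk => absurd hk (Nat.not_lt_zero k)⟩
  | succ K ih =>
    intro v x hx
    by_cases hxK : x < 2 ^ K
    · obtain ⟨m, hm0, hm1, hm2⟩ := ih v x hxK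
      refine ⟨fun k => if k < K then m k else 0, ?_, ?_, ?_⟩
      · intro k
        simp only
        split_ifs
        · exact hm0 k
        · exact le_rfl
      · rw [Finset.sum_range_succ]
        simp only [lt_irrefl, if_false, add_zero]
        refine hm1.trans (le_of_eq ?_)
        refine Finset.sum_congr rfl fun k hk => ?_
        rw [Finset.mem_range] at hk
        rw [if_pos hk]
      · intro k hk
        simp only
        split_ifs with h
        · refine (hm2 k h).trans ?_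
          refine Finset.sum_le_sum_of_subset_of_nonneg ?_ (fun _ _ _ => by positivity)
          intro j hj
          rw [Finset.mem_range] at hj ⊢
          refine lt_of_lt_of_le hj ?_
          exact Nat.pow_le_pow_right (by norm_num) (by omega)
        · rw [zero_pow two_ne_zero]
          exact Finset.sum_nonneg fun _ _ => by positivity
    · have hxK' : 2 ^ K ≤ x := Nat.le_of_not_lt hxK
      have hx2 : x - 2 ^ K < 2 ^ K := by
        have : 2 ^ (K + 1) = 2 ^ K + 2 ^ K := by ring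
        omega
      obtain ⟨m, hm0, hm1, hm2⟩ := ih (v + 2 ^ K) (x - 2 ^ K) hx2
      refine ⟨fun k => if k < K then m k else ‖U v (2 ^ K)‖, ?_, ?_, ?_⟩
      · intro k
        simp only
        split_ifs
        · exact hm0 k
        · exact norm_nonneg _
      · rw [Finset.sum_range_succ]
        simp only [lt_irrefl, if_false]
        have h1 : U v x = U v (2 ^ K) + U (v + 2 ^ K) (x - 2 ^ K) := by
          rw [← hadd, Nat.add_sub_cancel' hxK']
        have h2 : ∑ k ∈ range K, (if k < K then m k else ‖U v (2 ^ K)‖) = ∑ k ∈ range K, m k := by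
          refine Finset.sum_congr rfl fun k hk => ?_
          rw [Finset.mem_range] at hk
          rw [if_pos hk]
        rw [h2, h1]
        refine (norm_add_le _ _).trans ?_
        linarith
      · intro k hk
        simp only
        split_ifs with h
        · refine (hm2 k h).trans ?_
          have h3 : 2 ^ (K + 1 - k) = 2 ^ (K - k) + 2 ^ (K - k) := by
            have : K + 1 - k = (K - k) + 1 := by omega
            rw [this, pow_succ]
            ring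
          rw [h3, Finset.sum_range_add]
          have h4 : ∀ j : ℕ, v + 2 ^ K + j * 2 ^ k = v + (2 ^ (K - k) + j) * 2 ^ k := by
            intro j
            have : 2 ^ K = 2 ^ (K - k) * 2 ^ k := by
              rw [← pow_add]
              congr 1
              omega
            rw [this]
            ring
          simp_rw [h4]
          have h5 : 0 ≤ ∑ j ∈ range (2 ^ (K - k)), ‖U (v + j * 2 ^ k) (2 ^ k)‖ ^ 2 :=
            Finset.sum_nonneg fun _ _ => by positivity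
          linarith
        · have hkK : k = K := by omega
          subst hkK
          have h3 : k + 1 - k = 1 := by omega
          rw [h3]
          have h4 : (0 : ℕ) ∈ range (2 ^ 1) := by simp
          have h5 := Finset.single_le_sum (f := fun j => ‖U (v + j * 2 ^ k) (2 ^ k)‖ ^ 2)
            (fun _ _ => by positivity) h4
          simpa using h5

/-- Chaining: a maximal inequality over initial segments. -/
lemma chain (U : ℕ → ℕ → ℂ) (h0 : ∀ v, U v 0 = 0)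
    (hadd : ∀ v H₁ H₂, U v (H₁ + H₂) = U v H₁ + U (v + H₁) H₂) (K v x : ℕ) (hx : x < 2 ^ K) :
    ‖U v x‖ ^ 2 ≤ K * ∑ k ∈ range K, ∑ j ∈ range (2 ^ (K - k)), ‖U (v + j * 2 ^ k) (2 ^ k)‖ ^ 2 := by
  obtain ⟨m, hm0, hm1, hm2⟩ := chain_aux U h0 hadd K v x hx
  have h1 : ‖U v x‖ ^ 2 ≤ (∑ k ∈ range K, m k) ^ 2 := by
    apply pow_le_pow_left₀ (norm_nonneg _) hm1
  have h2 : (∑ k ∈ range K, m k) ^ 2 ≤ K * ∑ k ∈ range K, m k ^ 2 := by
    have := sq_sum_le_card_mul_sum_sq (s := range K) (f := m)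
    rwa [Finset.card_range] at this
  refine h1.trans (h2.trans ?_)
  gcongr with k hk
  exact hm2 k (Finset.mem_range.mp hk)

lemma Zc_zero (u : ℕ → ℂ) (v d c : ℕ) : Zc u v 0 d c = 0 := by
  unfold Zc
  simp

lemma Zc_add (u : ℕ → ℂ) (v H₁ H₂ d c : ℕ) :
    Zc u v (H₁ + H₂) d c = Zc u v H₁ d c + Zc u (v + H₁) H₂ d c := by
  unfold Zc
  rw [← Finset.sum_Ioc_consecutive _ (Nat.le_add_right v H₁)
    (show v + H₁ ≤ v + (H₁ + H₂) by omega), ← add_assoc]

lemma newQ_zero (u : ℕ → ℂ) (v q c : ℕ) : newQ u v 0 q c = 0 := by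
  unfold newQ
  simp [Zc_zero]

lemma newQ_add (u : ℕ → ℂ) (v H₁ H₂ q c : ℕ) :
    newQ u v (H₁ + H₂) q c = newQ u v H₁ q c + newQ u (v + H₁) H₂ q c := by
  unfold newQ
  rw [← Finset.sum_add_distrib]
  refine Finset.sum_congr rfl fun x _ => ?_
  rw [Zc_add]
  ring

lemma sum_dyadic (g : ℕ → ℝ) (k J : ℕ) :
    ∑ j ∈ range J, ∑ n ∈ Ioc (j * 2 ^ k) (j * 2 ^ k + 2 ^ k), g n = ∑ n ∈ Ioc 0 (J * 2 ^ k), g n := by
  induction J with
  | zero => simp
  | succ J ih =>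
    rw [Finset.sum_range_succ, ih, Finset.sum_Ioc_consecutive _ (Nat.zero_le _) (Nat.le_add_right _ _)]
    congr 2
    ring

/-- The maximal large sieve for the new parts. -/
theorem maximal_large_sieve (u : ℕ → ℂ) (K Q : ℕ) (hQ : 1 ≤ Q) (x : ℕ → ℕ → ℕ)
    (hx : ∀ q c, x q c < 2 ^ K) :
    ∑ q ∈ Icc 1 Q, (1 / (q : ℝ)) * ∑ c ∈ range q, ‖newQ u 0 (x q c) q c‖ ^ 2
      ≤ (K : ℝ) ^ 2 * (π ^ 2 / 4 * ((Q : ℝ) ^ 2 + 2 ^ K)) * ∑ n ∈ Ioc 0 (2 ^ K), ‖u n‖ ^ 2 := by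
  have h1 : ∑ q ∈ Icc 1 Q, (1 / (q : ℝ)) * ∑ c ∈ range q, ‖newQ u 0 (x q c) q c‖ ^ 2
      ≤ ∑ q ∈ Icc 1 Q, (1 / (q : ℝ)) * ∑ c ∈ range q, (K * ∑ k ∈ range K,
        ∑ j ∈ range (2 ^ (K - k)), ‖newQ u (0 + j * 2 ^ k) (2 ^ k) q c‖ ^ 2) := by
    gcongr with q _ c _
    exact chain (fun v H => newQ u v H q c) (fun v => newQ_zero u v q c)
      (fun v H₁ H₂ => newQ_add u v H₁ H₂ q c) K 0 (x q c) (hx q c)
  refine h1.trans ?_
  have h2 : ∑ q ∈ Icc 1 Q, (1 / (q : ℝ)) * ∑ c ∈ range q, (K * ∑ k ∈ range K,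
        ∑ j ∈ range (2 ^ (K - k)), ‖newQ u (0 + j * 2 ^ k) (2 ^ k) q c‖ ^ 2)
      = K * ∑ k ∈ range K, ∑ j ∈ range (2 ^ (K - k)), ∑ q ∈ Icc 1 Q, (1 / (q : ℝ)) *
        ∑ c ∈ range q, ‖newQ u (0 + j * 2 ^ k) (2 ^ k) q c‖ ^ 2 := by
    have h3 : ∀ q : ℕ, (1 / (q : ℝ)) * ∑ c ∈ range q, (K * ∑ k ∈ range K,
        ∑ j ∈ range (2 ^ (K - k)), ‖newQ u (0 + j * 2 ^ k) (2 ^ k) q c‖ ^ 2)
        = K * ∑ k ∈ range K, ∑ j ∈ range (2 ^ (K - k)), (1 / (q : ℝ)) *
          ∑ c ∈ range q, ‖newQ u (0 + j * 2 ^ k) (2 ^ k) q c‖ ^ 2 := by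
      intro q
      rw [← Finset.mul_sum, Finset.sum_comm (s := range q) (t := range K), mul_left_comm,
        Finset.mul_sum (s := range K)]
      congr 1
      refine Finset.sum_congr rfl fun k _ => ?_
      rw [Finset.sum_comm (s := range q), Finset.mul_sum]
    rw [Finset.sum_congr rfl (fun q _ => h3 q), ← Finset.mul_sum, Finset.sum_comm]
    congr 1
    refine Finset.sum_congr rfl fun k _ => ?_
    rw [Finset.sum_comm]
  rw [h2]
  have h4 : ∀ k ∈ range K, ∑ j ∈ range (2 ^ (K - k)), ∑ q ∈ Icc 1 Q, (1 / (q : ℝ)) *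
        ∑ c ∈ range q, ‖newQ u (0 + j * 2 ^ k) (2 ^ k) q c‖ ^ 2
      ≤ (π ^ 2 / 4 * ((Q : ℝ) ^ 2 + 2 ^ K)) * ∑ n ∈ Ioc 0 (2 ^ K), ‖u n‖ ^ 2 := by
    intro k hk
    rw [Finset.mem_range] at hk
    have h5 : ∀ j ∈ range (2 ^ (K - k)), ∑ q ∈ Icc 1 Q, (1 / (q : ℝ)) *
        ∑ c ∈ range q, ‖newQ u (0 + j * 2 ^ k) (2 ^ k) q c‖ ^ 2
        ≤ (π ^ 2 / 4 * ((Q : ℝ) ^ 2 + 2 ^ K)) *
          ∑ n ∈ Ioc (j * 2 ^ k) (j * 2 ^ k + 2 ^ k), ‖u n‖ ^ 2 := by
      intro j _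
      rw [zero_add]
      refine (large_sieve_new u (j * 2 ^ k) (2 ^ k) Q hQ).trans ?_
      have h6 : (2 : ℝ) * ((2 ^ k : ℕ) : ℝ) ≤ 2 ^ K := by
        push_cast
        rw [← pow_succ']
        exact pow_le_pow_right₀ (by norm_num) (by omega)
      have h7 : 0 ≤ ∑ n ∈ Ioc (j * 2 ^ k) (j * 2 ^ k + 2 ^ k), ‖u n‖ ^ 2 :=
        Finset.sum_nonneg fun _ _ => by positivity
      gcongr
    refine (Finset.sum_le_sum h5).trans (le_of_eq ?_)
    rw [← Finset.mul_sum, sum_dyadic]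
    congr 3
    rw [← pow_add]
    congr 1
    omega
  have h8 := Finset.sum_le_sum h4
  rw [Finset.sum_const, Finset.card_range, nsmul_eq_mul] at h8
  calc (K : ℝ) * ∑ k ∈ range K, ∑ j ∈ range (2 ^ (K - k)), ∑ q ∈ Icc 1 Q, (1 / (q : ℝ)) *
        ∑ c ∈ range q, ‖newQ u (0 + j * 2 ^ k) (2 ^ k) q c‖ ^ 2
      ≤ K * (K * ((π ^ 2 / 4 * ((Q : ℝ) ^ 2 + 2 ^ K)) * ∑ n ∈ Ioc 0 (2 ^ K), ‖u n‖ ^ 2)) := by
        gcongr
    _ = _ := by ring

end Pool.Agent.MC
end
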