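import Mathlib
import Pool.Agent.Lib.MP_9cfc0a_nt.An6
import Pool.Agent.Lib.MP_9cfc0a_nt.WeakType2

section

set_option autoImplicit false

namespace Pool.Agent.MC

open Complex MeasureTheory Set Filter Topology Asymptotics

lemma integrable_T (r : ℝ) (hr : 1 < r) : Integrable (fun y : ℝ => (|y| + 6) ^ (-r)) := by
  have h1 : Integrable (fun y : ℝ => (1 + ‖y‖) ^ (-r)) :=
    integrable_one_add_norm (by simpa using hr)
  refine h1.mono' ?_ (ae_of_all _ fun y => ?_)
  · apply Continuous.aestronglyMeasurable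
    refine Continuous.rpow_const (by fun_prop) fun y => Or.inl ?_
    positivity
  · rw [Real.norm_of_nonneg (by positivity), Real.norm_eq_abs]
    apply Real.rpow_le_rpow_of_nonpos (by positivity) (by linarith) (by linarith)

/-- shifting the line of integration -/
lemma contour_shift (G : ℂ → ℂ) (σ1 σ2 : ℝ) (h12 : σ1 ≤ σ2)
    (hG : DifferentiableOn ℂ G {s | σ1 ≤ s.re ∧ s.re ≤ σ2}) (B : ℝ → ℝ)
    (hB : Tendsto B atTop (𝓝 0))
    (hbound : ∀ s : ℂ, σ1 ≤ s.re → s.re ≤ σ2 → ‖G s‖ ≤ B |s.im|)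
    (h1 : Integrable (fun y : ℝ => G (σ1 + y * I)))
    (h2 : Integrable (fun y : ℝ => G (σ2 + y * I))) :
    ∫ y : ℝ, G (σ1 + y * I) = ∫ y : ℝ, G (σ2 + y * I) := by
  have ht1 : Tendsto (fun T : ℝ => ∫ y in (-T)..T, G (σ1 + y * I)) atTop
      (𝓝 (∫ y : ℝ, G (σ1 + y * I))) :=
    intervalIntegral_tendsto_integral h1 tendsto_neg_atTop_atBot tendsto_id
  have ht2 : Tendsto (fun T : ℝ => ∫ y in (-T)..T, G (σ2 + y * I)) atTop
      (𝓝 (∫ y : ℝ, G (σ2 + y * I))) :=
    intervalIntegral_tendsto_integral h2 tendsto_neg_atTop_atBot tendsto_id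
  have hd : Tendsto (fun T : ℝ => (∫ y in (-T)..T, G (σ2 + y * I)) - ∫ y in (-T)..T, G (σ1 + y * I))
      atTop (𝓝 0) := by
    rw [tendsto_zero_iff_norm_tendsto_zero]
    have h3 : Tendsto (fun T : ℝ => 2 * (B T * |σ2 - σ1|)) atTop (𝓝 0) := by
      have := (hB.mul_const |σ2 - σ1|).const_mul 2
      rwa [zero_mul, mul_zero] at this
    refine squeeze_zero' (Eventually.of_forall fun T => norm_nonneg _) ?_ h3
    filter_upwards [eventually_ge_atTop 0] with T hT
    have hrect := Complex.integral_boundary_rect_eq_zero_of_differentiableOn G (⟨σ1, -T⟩ : ℂ) (⟨σ2, T⟩ : ℂ) (by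
      refine hG.mono fun s hs => ?_
      have h4 := hs.1
      simp only [mem_preimage] at h4
      rw [uIcc_of_le h12] at h4
      exact h4)
    simp only at hrect
    have hbot : ‖∫ x in σ1..σ2, G (x + ((-T : ℝ) : ℂ) * I)‖ ≤ B T * |σ2 - σ1| := by
      refine intervalIntegral.norm_integral_le_of_norm_le_const fun x hx => ?_
      rw [uIoc_of_le h12] at hx
      have h5 := hbound ((x : ℂ) + ((-T : ℝ) : ℂ) * I) (by simpa using hx.1.le) (by simpa using hx.2)
      have h6 : |((x : ℂ) + ((-T : ℝ) : ℂ) * I).im| = T := by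
        simp [abs_of_nonneg hT]
      rwa [h6] at h5
    have htop : ‖∫ x in σ1..σ2, G (x + (T : ℂ) * I)‖ ≤ B T * |σ2 - σ1| := by
      refine intervalIntegral.norm_integral_le_of_norm_le_const fun x hx => ?_
      rw [uIoc_of_le h12] at hx
      have h5 := hbound ((x : ℂ) + (T : ℂ) * I) (by simpa using hx.1.le) (by simpa using hx.2)
      have h6 : |((x : ℂ) + (T : ℂ) * I).im| = T := by
        simp [abs_of_nonneg hT]
      rwa [h6] at h5
    have h7 : I * ((∫ y in (-T)..T, G (σ2 + y * I)) - ∫ y in (-T)..T, G (σ1 + y * I))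
        = (∫ x in σ1..σ2, G (x + (T : ℂ) * I)) - ∫ x in σ1..σ2, G (x + ((-T : ℝ) : ℂ) * I) := by
      have h8 : (∫ x in σ1..σ2, G (x + ((-T : ℝ) : ℂ) * I)) - (∫ x in σ1..σ2, G (x + (T : ℂ) * I))
          + I * (∫ y in (-T)..T, G (σ2 + y * I)) - I * (∫ y in (-T)..T, G (σ1 + y * I)) = 0 := hrect
      linear_combination h8
    have h9 : ‖(∫ y in (-T)..T, G (σ2 + y * I)) - ∫ y in (-T)..T, G (σ1 + y * I)‖
        = ‖I * ((∫ y in (-T)..T, G (σ2 + y * I)) - ∫ y in (-T)..T, G (σ1 + y * I))‖ := by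
      rw [norm_mul, Complex.norm_I, one_mul]
    rw [h9, h7]
    refine (norm_sub_le _ _).trans ?_
    linarith
  have h3 := tendsto_nhds_unique (ht2.sub ht1) hd
  exact (sub_eq_zero.mp h3).symm

/-- the kernel -/
noncomputable def Phi (d : ℕ) [NeZero d] (a : ZMod d) (s : ℂ) : ℂ :=
  (HA d a s - (d.totient : ℂ)⁻¹) / (s * (s + 1))

lemma Phi_differentiableOn (d : ℕ) [NeZero d] (θ : ℝ) (hθ : 1 / 2 ≤ θ) (hZ : ZF d θ) (a : ZMod d) :
    DifferentiableOn ℂ (Phi d a) {s | θ < s.re} := by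
  unfold Phi
  refine DifferentiableOn.div ((HA_differentiableOn d θ hZ a).sub_const _) (by fun_prop) ?_
  intro s hs
  have hs' : θ < s.re := hs
  refine mul_ne_zero ?_ ?_
  · intro h
    rw [h] at hs'
    simp at hs'
    linarith
  · intro h
    have h2 : s = -1 := by linear_combination h
    rw [h2] at hs'
    simp at hs'
    linarith

lemma T_le (s : ℂ) (hs : 1 / 2 ≤ s.re) : |s.im| + 6 ≤ 13 * ‖s‖ ∧ |s.im| + 6 ≤ 13 * ‖s + 1‖ := by
  constructor
  · have h1 := Complex.abs_im_le_norm s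
    have h2 := (le_abs_self s.re).trans (Complex.abs_re_le_norm s)
    linarith
  · have h1 := Complex.abs_im_le_norm (s + 1)
    have h2 := (le_abs_self (s + 1).re).trans (Complex.abs_re_le_norm (s + 1))
    simp at h1 h2
    linarith

lemma Phi_bound (d : ℕ) [NeZero d] (θ : ℝ) (hθ : 1 / 2 ≤ θ) (hθ1 : θ < 1) (hZ : ZF d θ)
    (ε κ : ℝ) (hε : 0 < ε) (hκ : 0 < κ) :
    ∃ C : ℝ, 0 ≤ C ∧ ∀ a : ZMod d, ∀ s : ℂ, θ + ε ≤ s.re → s.re ≤ 2 →
      ‖Phi d a s‖ ≤ C * (|s.im| + 6) ^ (κ - 2) := by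
  obtain ⟨C, hC, h⟩ := HA_bound d θ hθ hθ1 hZ ε κ hε hκ
  refine ⟨169 * (C + 1), by positivity, fun a s h1 h2 => ?_⟩
  set T : ℝ := |s.im| + 6 with hT
  have hT6 : 6 ≤ T := by rw [hT]; linarith [abs_nonneg s.im]
  have hT0 : 0 < T := by linarith
  obtain ⟨h3, h4⟩ := T_le s (by linarith)
  rw [← hT] at h3 h4
  have hTκ : 1 ≤ T ^ κ := Real.one_le_rpow (by linarith) hκ.le
  have hφ : (1 : ℝ) ≤ d.totient := by
    exact_mod_cast Nat.totient_pos.mpr (Nat.pos_of_ne_zero (NeZero.ne d))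
  have hnum : ‖HA d a s - (d.totient : ℂ)⁻¹‖ ≤ (C + 1) * T ^ κ := by
    refine (norm_sub_le _ _).trans ?_
    rw [norm_inv, Complex.norm_natCast]
    have hinv : ((d.totient : ℝ))⁻¹ ≤ 1 := inv_le_one_of_one_le₀ hφ
    have := h a s h1 h2
    nlinarith
  unfold Phi
  rw [norm_div, norm_mul]
  have hs0 : 0 < ‖s‖ := by linarith
  have hs1 : 0 < ‖s + 1‖ := by linarith
  rw [div_le_iff₀ (by positivity)]
  have h5 : T ^ (κ - 2) * T ^ 2 = T ^ κ := by
    rw [← Real.rpow_natCast, ← Real.rpow_add hT0]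
    congr 1
    push_cast
    ring
  have h6 : T ^ 2 ≤ 169 * (‖s‖ * ‖s + 1‖) := by
    calc T ^ 2 = T * T := by ring
      _ ≤ (13 * ‖s‖) * (13 * ‖s + 1‖) := by gcongr
      _ = 169 * (‖s‖ * ‖s + 1‖) := by ring
  calc ‖HA d a s - (d.totient : ℂ)⁻¹‖ ≤ (C + 1) * T ^ κ := hnum
    _ = (C + 1) * T ^ (κ - 2) * T ^ 2 := by rw [← h5]; ring
    _ ≤ (C + 1) * T ^ (κ - 2) * (169 * (‖s‖ * ‖s + 1‖)) := by gcongr
    _ = 169 * (C + 1) * T ^ (κ - 2) * (‖s‖ * ‖s + 1‖) := by ring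

/-- primitive of the error term -/
noncomputable def FP (d a : ℕ) (x : ℝ) : ℂ := ∫ t in (1 : ℝ)..x, EC d a t

lemma EC_intervalIntegrable (d a : ℕ) (hd : 0 < d) (x y : ℝ) :
    IntervalIntegrable (EC d a) volume x y := by
  have h1 : IntervalIntegrable (fun t : ℝ => 7 * |t|) volume x y :=
    Continuous.intervalIntegrable (by fun_prop) x y
  refine h1.mono_fun (EC_measurable d a).aestronglyMeasurable (ae_of_all _ fun t => ?_)
  simp only
  exact (EC_bound d a hd t).trans (Real.le_norm_self _)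

lemma FP_continuous (d a : ℕ) (hd : 0 < d) : Continuous (FP d a) :=
  intervalIntegral.continuous_primitive (EC_intervalIntegrable d a hd) 1

lemma FP_bound (d a : ℕ) (hd : 0 < d) (x : ℝ) (hx : 1 < x) : ‖FP d a x‖ ≤ 7 * x ^ (2 : ℝ) := by
  have h1 : ‖FP d a x‖ ≤ (7 * x) * |x - 1| := by
    refine intervalIntegral.norm_integral_le_of_norm_le_const fun t ht => ?_
    rw [uIoc_of_le hx.le] at ht
    refine (EC_bound d a hd t).trans ?_
    rw [abs_of_pos (by linarith [ht.1])]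
    gcongr
    exact ht.2
  refine h1.trans ?_
  rw [abs_of_pos (by linarith)]
  have : x ^ (2 : ℝ) = x ^ 2 := by norm_cast
  rw [this]
  nlinarith

lemma MT_FP (d : ℕ) [NeZero d] (a : ℕ) (ha : Nat.Coprime a d) (w : ℂ) (hw : 2 < w.re) :
    MT (FP d a) w = Phi d (a : ZMod d) (w - 1) := by
  have hd : 0 < d := Nat.pos_of_ne_zero (NeZero.ne d)
  have h1 := MT_primitive (EC d a) 7 (EC_measurable d a) (EC_bound d a hd)
    (fun t ht => EC_right_cont d a t ht) w hw
  have h2 := HA_eq_MT d a ha (w - 1) (by simp; linarith)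
  have h3 : MT (FP d a) w = (1 / w) * MT (EC d a) (w - 1) := h1
  have hw0 : w ≠ 0 := by
    intro h; rw [h] at hw; simp at hw; linarith
  have hw1 : w - 1 ≠ 0 := by
    intro h
    have : w = 1 := by linear_combination h
    rw [this] at hw; norm_num at hw
  rw [h3]
  unfold Phi
  rw [h2, sub_add_cancel, add_sub_cancel_right]
  field_simp

/-- Inversion formula on the line `Re s = 2`. -/
lemma FP_inversion (d : ℕ) [NeZero d] (a : ℕ) (ha : Nat.Coprime a d) (θ : ℝ) (hθ : 1 / 2 ≤ θ)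
    (hθ1 : θ < 1) (hZ : ZF d θ) (x : ℝ) (hx : 1 < x) :
    FP d a x = ((1 / (2 * Real.pi) : ℝ) : ℂ) *
      ∫ y : ℝ, (x : ℂ) ^ ((((2 : ℝ) : ℂ) + y * I) + 1) * Phi d (a : ZMod d) (((2 : ℝ) : ℂ) + y * I) := by
  have hd : 0 < d := Nat.pos_of_ne_zero (NeZero.ne d)
  have hx0 : 0 < x := by linarith
  set g : ℝ → ℂ := indicator (Ioi 1) (FP d a) with hg
  have hmel : ∀ y : ℝ, mellin g (((-3 : ℝ) : ℂ) + y * I) = Phi d (a : ZMod d) (((2 : ℝ) : ℂ) + (-y : ℝ) * I) := by
    intro y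
    have h1 := MT_eq_mellin (FP d a) (((3 : ℝ) : ℂ) + (-y : ℝ) * I)
    have h2 : -((((3 : ℝ) : ℂ)) + (-y : ℝ) * I) = ((-3 : ℝ) : ℂ) + y * I := by
      push_cast; ring
    rw [h2] at h1
    rw [hg, ← h1, MT_FP d a ha _ (by simp; norm_num)]
    congr 1
    push_cast
    ring
  have hvert : Integrable (fun y : ℝ => Phi d (a : ZMod d) (((2 : ℝ) : ℂ) + y * I)) := by
    obtain ⟨C, hC, h⟩ := Phi_bound d θ hθ hθ1 hZ (1 - θ) (1 / 2) (by linarith) (by norm_num)
    have h1 := (integrable_T (3 / 2) (by norm_num)).const_mul C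
    refine h1.mono' ?_ (ae_of_all _ fun y => ?_)
    · apply Continuous.aestronglyMeasurable
      have h2 := (Phi_differentiableOn d θ hθ hZ (a : ZMod d)).continuousOn
      refine h2.comp_continuous (by fun_prop) fun y => ?_
      simp
      linarith
    · have h2 := h (a : ZMod d) (((2 : ℝ) : ℂ) + y * I) (by simp) (by simp)
      have h3 : (((2 : ℝ) : ℂ) + y * I).im = y := by simp
      rw [h3] at h2
      norm_num at h2 ⊢
      exact h2
  have hinv := mellinInv_mellin_eq (-3) g hx0 ?_ ?_ ?_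
  · have h1 : g x = FP d a x := indicator_of_mem (mem_Ioi.mpr hx) _
    rw [h1] at hinv
    rw [← hinv]
    unfold mellinInv
    rw [Complex.real_smul]
    congr 1
    rw [← integral_neg_eq_self (fun y : ℝ => (x : ℂ) ^ ((((2 : ℝ) : ℂ) + y * I) + 1) *
      Phi d (a : ZMod d) (((2 : ℝ) : ℂ) + y * I))]
    congr 1
    ext y
    rw [hmel y, smul_eq_mul]
    congr 2
    push_cast
    ring
  · -- Mellin convergence
    unfold MellinConvergent
    have h1 := MT_integrable (FP d a) 7 2 (FP_continuous d a hd).measurable (FP_bound d a hd)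
      (3 : ℂ) (by norm_num)
    rw [← integrable_indicator_iff measurableSet_Ioi] at h1 ⊢
    refine h1.congr (ae_of_all _ fun t => ?_)
    by_cases ht : (1 : ℝ) < t
    · have h0 : (0 : ℝ) < t := by linarith
      rw [indicator_of_mem (mem_Ioi.mpr ht), indicator_of_mem (mem_Ioi.mpr h0), hg,
        indicator_of_mem (mem_Ioi.mpr ht), smul_eq_mul, mul_comm]
      congr 2
      push_cast
      ring
    · rw [indicator_of_notMem (by simpa using ht)]
      by_cases h0 : (0 : ℝ) < t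
      · rw [indicator_of_mem (mem_Ioi.mpr h0), hg, indicator_of_notMem (by simpa using ht), smul_zero]
      · rw [indicator_of_notMem (by simpa using h0)]
  · -- vertical integrability
    unfold VerticalIntegrable
    have h1 : (fun y : ℝ => mellin g (((-3 : ℝ) : ℂ) + y * I))
        = fun y : ℝ => Phi d (a : ZMod d) (((2 : ℝ) : ℂ) + (-y : ℝ) * I) := by
      ext y
      exact hmel y
    rw [h1]
    exact hvert.comp_neg
  · -- continuity
    have h1 : ContinuousAt (FP d a) x := (FP_continuous d a hd).continuousAt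
    refine h1.congr ?_
    filter_upwards [Ioi_mem_nhds hx] with t ht
    rw [hg, indicator_of_mem ht]

end Pool.Agent.MC
end

section

set_option autoImplicit false

namespace Pool.Agent.MC

open Finset MeasureTheory Real

/-- the exceptional pairs -/
def excSet (X lam : ℝ) : Set (ℕ × ℕ) :=
  {p | 1 ≤ p.2 ∧ p.2 ≤ p.1 ∧ Nat.Coprime p.2 p.1 ∧ (p.1 : ℝ) ≤ Real.sqrt X ∧
    ∃ x : ℝ, (p.1 : ℝ) ^ 2 ≤ x ∧ x ≤ X ∧ lam * Real.sqrt (x / p.1) < |errNew x p.1 p.2|}

lemma sum_pow_two_mul_cube_le (M : ℕ) :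
    ∑ K ∈ Icc 1 M, 216 * (K : ℝ) ^ 3 * 2 ^ K ≤ 216 * (M : ℝ) ^ 3 * 2 ^ (M + 1) := by
  induction M with
  | zero => simp
  | succ M ih =>
    rw [Finset.sum_Icc_succ_top (by omega)]
    have h1 : (M : ℝ) ^ 3 ≤ ((M + 1 : ℕ) : ℝ) ^ 3 := by
      apply pow_le_pow_left₀ (by positivity)
      push_cast; linarith
    have h2 : (0 : ℝ) < 2 ^ (M + 1) := by positivity
    have h3 : (2 : ℝ) ^ (M + 1 + 1) = 2 * 2 ^ (M + 1) := by ring
    rw [h3]
    nlinarith

lemma excSet_finite (X lam : ℝ) : (excSet X lam).Finite := by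
  refine Set.Finite.subset (Finset.finite_toSet ((Icc 1 ⌊Real.sqrt X⌋₊) ×ˢ (Icc 1 ⌊Real.sqrt X⌋₊))) ?_
  rintro ⟨q, a⟩ ⟨h1, h2, _, h4, _⟩
  simp only at h1 h2 h4
  have h5 : q ≤ ⌊Real.sqrt X⌋₊ := Nat.le_floor h4
  rw [Finset.mem_coe, Finset.mem_product, Finset.mem_Icc, Finset.mem_Icc]
  exact ⟨⟨by omega, h5⟩, ⟨h1, by omega⟩⟩

lemma log_div_bound (X : ℝ) (hX : 2 ≤ X) :
    ((Nat.log 2 ⌊X⌋₊ + 1 : ℕ) : ℝ) ≤ 3 * Real.log X ∧ (2 : ℝ) ^ (Nat.log 2 ⌊X⌋₊ + 1 + 1) ≤ 4 * X := by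
  have hfl : 2 ≤ ⌊X⌋₊ := Nat.le_floor (by exact_mod_cast hX)
  have h1 : 2 ^ Nat.log 2 ⌊X⌋₊ ≤ ⌊X⌋₊ := Nat.pow_log_le_self 2 (by omega)
  have h2 : ((2 : ℝ)) ^ Nat.log 2 ⌊X⌋₊ ≤ X := by
    have h3 : ((2 ^ Nat.log 2 ⌊X⌋₊ : ℕ) : ℝ) ≤ (⌊X⌋₊ : ℝ) := by exact_mod_cast h1
    have h4 : (⌊X⌋₊ : ℝ) ≤ X := Nat.floor_le (by linarith)
    push_cast at h3
    linarith
  refine ⟨?_, ?_⟩
  · have h3 : (Nat.log 2 ⌊X⌋₊ : ℝ) * Real.log 2 ≤ Real.log X := by
      rw [← Real.log_pow]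
      exact Real.log_le_log (by positivity) h2
    have h4 := Real.log_two_gt_d9
    have h5 : Real.log 2 ≤ Real.log X := Real.log_le_log (by norm_num) hX
    push_cast
    nlinarith
  · calc (2 : ℝ) ^ (Nat.log 2 ⌊X⌋₊ + 1 + 1) = 4 * 2 ^ Nat.log 2 ⌊X⌋₊ := by ring
      _ ≤ 4 * X := by linarith

theorem excSet_bound : ∀ X : ℝ, 2 ≤ X → ∀ lam : ℝ, 0 < lam →
    ((excSet X lam).ncard : ℝ) ≤ 24000 * X * (Real.log X) ^ 3 / lam ^ 2 := by
  classical
  intro X hX lam hlam
  have hX0 : 0 < X := by linarith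
  have hfin := excSet_finite X lam
  set KX : ℕ := Nat.log 2 ⌊X⌋₊ + 1 with hKX
  set M : ℕ := ⌊3 * Real.sqrt X / lam⌋₊ with hM
  -- the two parts
  set small : Finset (ℕ × ℕ) := (Icc 1 M) ×ˢ (Icc 1 M) with hsmall
  set big : Finset ((_ : ℕ) × ℕ) := (Icc 1 KX).biUnion
    (fun K => badPairs uL K (Nat.sqrt (2 ^ K)) (lam ^ 2 / 8 * 2 ^ K)) with hbig
  set S : Finset (ℕ × ℕ) := hfin.toFinset with hS
  have hcard : (excSet X lam).ncard = S.card := Set.ncard_eq_toFinset_card _ hfin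
  rw [hcard]
  set φ : ℕ × ℕ → ((_ : ℕ) × ℕ) := fun p => ⟨p.1, p.2 % p.1⟩ with hφ
  have hmem : ∀ p ∈ S, p ∈ small ∨ φ p ∈ big := by
    rintro ⟨q, a⟩ hp
    rw [hS, Set.Finite.mem_toFinset] at hp
    obtain ⟨ha1, haq, _, hqX, x, hx1, hx2, hx3⟩ := hp
    simp only at ha1 haq hqX hx1 hx2 hx3
    have hq1 : 1 ≤ q := by omega
    have hqR : (1 : ℝ) ≤ q := by exact_mod_cast hq1
    by_cases hsm : lam * q ≤ 3 * Real.sqrt X
    · left
      have hqM : q ≤ M := by
        rw [hM]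
        apply Nat.le_floor
        rw [le_div_iff₀ hlam]
        linarith
      rw [hsmall, Finset.mem_product, Finset.mem_Icc, Finset.mem_Icc]
      exact ⟨⟨hq1, hqM⟩, ⟨ha1, by omega⟩⟩
    · right
      push Not at hsm
      have hx0 : 0 < x := by nlinarith
      have h1 := norm_newQ_lower X x lam hlam q a (by omega) hx0 hx2 hsm hx3
      -- the dyadic block
      set k : ℕ := ⌊x⌋₊ with hk
      have hqk : q ^ 2 ≤ k := by
        rw [hk]
        apply Nat.le_floor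
        push_cast
        exact hx1
      have hk1 : 1 ≤ k := le_trans (Nat.one_le_pow _ _ (by omega)) hqk
      set K : ℕ := Nat.log 2 k + 1 with hK
      have hk2 : 2 ^ Nat.log 2 k ≤ k := Nat.pow_log_le_self 2 (by omega)
      have hk3 : k < 2 ^ K := Nat.lt_pow_succ_log_self (by norm_num) k
      have hKKX : K ≤ KX := by
        rw [hK, hKX]
        have : k ≤ ⌊X⌋₊ := Nat.floor_mono hx2
        have := Nat.log_mono_right (b := 2) this
        omega
      rw [hbig, Finset.mem_biUnion]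
      refine ⟨K, Finset.mem_Icc.mpr ⟨by omega, hKKX⟩, ?_⟩
      unfold badPairs
      rw [Finset.mem_filter, Finset.mem_sigma, Finset.mem_Icc, Finset.mem_range]
      simp only [hφ]
      refine ⟨⟨⟨hq1, ?_⟩, Nat.mod_lt _ (by omega)⟩, k, hk3, ?_⟩
      · rw [Nat.le_sqrt']
        omega
      · rw [newQ_mod]
        refine lt_of_le_of_lt ?_ h1
        have h2 : (2 : ℝ) ^ K ≤ 2 * x := by
          have h3 : ((2 ^ Nat.log 2 k : ℕ) : ℝ) ≤ k := by exact_mod_cast hk2
          have h4 : (k : ℝ) ≤ x := Nat.floor_le hx0.le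
          rw [hK, pow_succ]
          push_cast at h3
          linarith
        calc lam ^ 2 / 8 * 2 ^ K * (q : ℝ) ≤ lam ^ 2 / 8 * (2 * x) * q := by gcongr
          _ = lam ^ 2 / 4 * x * q := by ring
  -- counting
  have hcount : S.card ≤ small.card + big.card := by
    have h1 : S = S.filter (fun p => p ∈ small) ∪ S.filter (fun p => p ∉ small) := by
      rw [Finset.filter_union_filter_not_eq]
    have h2 : (S.filter (fun p => p ∈ small)).card ≤ small.card :=
      Finset.card_le_card (fun p hp => (Finset.mem_filter.mp hp).2)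
    have h3 : (S.filter (fun p => p ∉ small)).card ≤ big.card := by
      apply Finset.card_le_card_of_injOn φ
      · intro p hp
        rw [Finset.mem_coe, Finset.mem_filter] at hp
        rcases hmem p hp.1 with h | h
        · exact absurd h hp.2
        · exact h
      · rintro ⟨q, a⟩ hp ⟨q', a'⟩ hp' h
        rw [Finset.mem_coe, Finset.mem_filter] at hp hp'
        have e1 := hp.1
        have e2 := hp'.1
        rw [hS, Set.Finite.mem_toFinset] at e1 e2
        obtain ⟨ha1, haq, _⟩ := e1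
        obtain ⟨ha1', haq', _⟩ := e2
        simp only at ha1 haq ha1' haq'
        simp only [hφ, Sigma.mk.injEq, heq_eq_eq] at h
        obtain ⟨hqq, haa⟩ := h
        subst hqq
        congr 1
        rcases Nat.lt_or_ge a q with h5 | h5
        · rcases Nat.lt_or_ge a' q with h6 | h6
          · rwa [Nat.mod_eq_of_lt h5, Nat.mod_eq_of_lt h6] at haa
          · have : a' = q := by omega
            rw [Nat.mod_eq_of_lt h5, this, Nat.mod_self] at haa
            omega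
        · have h7 : a = q := by omega
          rcases Nat.lt_or_ge a' q with h6 | h6
          · rw [h7, Nat.mod_self, Nat.mod_eq_of_lt h6] at haa
            omega
          · omega
    calc S.card = (S.filter (fun p => p ∈ small) ∪ S.filter (fun p => p ∉ small)).card := by rw [← h1]
      _ ≤ _ := Finset.card_union_le _ _
      _ ≤ _ := add_le_add h2 h3
  have hsmallc : (small.card : ℝ) ≤ 9 * X / lam ^ 2 := by
    rw [hsmall, Finset.card_product, Nat.card_Icc, Nat.add_sub_cancel]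
    have h1 : (M : ℝ) ≤ 3 * Real.sqrt X / lam := Nat.floor_le (by positivity)
    push_cast
    calc (M : ℝ) * M ≤ (3 * Real.sqrt X / lam) * (3 * Real.sqrt X / lam) := by gcongr
      _ = 9 * (Real.sqrt X * Real.sqrt X) / lam ^ 2 := by ring
      _ = 9 * X / lam ^ 2 := by rw [Real.mul_self_sqrt hX0.le]
  have hbigc : (big.card : ℝ) ≤ 23328 * X * (Real.log X) ^ 3 / lam ^ 2 := by
    have h1 : (big.card : ℝ) ≤ ∑ K ∈ Icc 1 KX,
        ((badPairs uL K (Nat.sqrt (2 ^ K)) (lam ^ 2 / 8 * 2 ^ K)).card : ℝ) := by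
      rw [hbig]
      have := Finset.card_biUnion_le (s := Icc 1 KX)
        (t := fun K => badPairs uL K (Nat.sqrt (2 ^ K)) (lam ^ 2 / 8 * 2 ^ K))
      exact_mod_cast this
    have h2 : ∑ K ∈ Icc 1 KX,
        ((badPairs uL K (Nat.sqrt (2 ^ K)) (lam ^ 2 / 8 * 2 ^ K)).card : ℝ)
        ≤ (∑ K ∈ Icc 1 KX, 216 * (K : ℝ) ^ 3 * 2 ^ K) / lam ^ 2 := by
      rw [Finset.sum_div]
      exact Finset.sum_le_sum fun K _ => card_badPairs_bound K lam hlam
    have h3 := sum_pow_two_mul_cube_le KX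
    obtain ⟨h4, h5⟩ := log_div_bound X hX
    rw [← hKX] at h4 h5
    have hlog : 0 ≤ Real.log X := Real.log_nonneg (by linarith)
    have h6 : 216 * (KX : ℝ) ^ 3 * 2 ^ (KX + 1) ≤ 216 * (3 * Real.log X) ^ 3 * (4 * X) := by
      gcongr
    calc (big.card : ℝ) ≤ (∑ K ∈ Icc 1 KX, 216 * (K : ℝ) ^ 3 * 2 ^ K) / lam ^ 2 := h1.trans h2
      _ ≤ (216 * (3 * Real.log X) ^ 3 * (4 * X)) / lam ^ 2 := by
          apply div_le_div_of_nonneg_right _ (by positivity)
          exact h3.trans h6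
      _ = 23328 * X * (Real.log X) ^ 3 / lam ^ 2 := by ring
  have h1 : (S.card : ℝ) ≤ small.card + big.card := by exact_mod_cast hcount
  have hlog : 0.69 ≤ Real.log X := by
    have h2 := Real.log_two_gt_d9
    have h3 : Real.log 2 ≤ Real.log X := Real.log_le_log (by norm_num) hX
    linarith
  have h2 : 9 * X / lam ^ 2 ≤ 672 * X * (Real.log X) ^ 3 / lam ^ 2 := by
    apply div_le_div_of_nonneg_right _ (by positivity)
    have h3 : (0.69 : ℝ) ^ 3 ≤ (Real.log X) ^ 3 := by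
      apply pow_le_pow_left₀ (by norm_num) hlog
    have h4 : (9 : ℝ) ≤ 672 * (Real.log X) ^ 3 := by
      have : (9 : ℝ) ≤ 672 * (0.69) ^ 3 := by norm_num
      linarith
    nlinarith
  calc (S.card : ℝ) ≤ 9 * X / lam ^ 2 + 23328 * X * (Real.log X) ^ 3 / lam ^ 2 := by linarith
    _ ≤ 672 * X * (Real.log X) ^ 3 / lam ^ 2 + 23328 * X * (Real.log X) ^ 3 / lam ^ 2 := by linarith
    _ = 24000 * X * (Real.log X) ^ 3 / lam ^ 2 := by ring

end Pool.Agent.MC
end
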