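import Mathlib
import Pool.Agent.Lib.MP_9cfc0a_nt.C2Base
import Pool.Agent.Lib.MP_9cfc0a_nt.ZDBasic

section

set_option autoImplicit false

namespace Pool.Agent.MC.C2

open Pool.Agent.MC Pool.Agent.MC.C1 MeasureTheory Real Complex
open scoped FourierTransform SchwartzMap ContDiff

/-- The Fourier transform of a Schwartz function tested against an integrable function. -/
lemma H1_selfadj (φ : 𝓢(ℝ, ℂ)) (g : ℝ → ℂ) (hg : Integrable g) :
    ∫ x, (𝓕 φ) x • g x = ∫ x, φ x • (𝓕 g) x := by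
  simpa using! VectorFourier.integral_fourierIntegral_smul_eq_flip (L := innerₗ ℝ)
    Real.continuous_fourierChar continuous_inner φ.integrable hg

lemma H1_continuous (g : ℝ → ℂ) (hg : Integrable g) : Continuous (𝓕 g) :=
  VectorFourier.fourierIntegral_continuous (L := innerₗ ℝ)
    Real.continuous_fourierChar continuous_inner hg

/-- The `L2` Fourier transform is the classical one. -/
lemma H1_ae (g : ℝ → ℂ) (h1 : Integrable g) (h2 : MemLp g 2) :
    ∀ᵐ x : ℝ, (𝓕 (h2.toLp g) : Lp ℂ 2 (volume : Measure ℝ)) x = (𝓕 g) x := by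
  refine ae_eq_of_integral_contDiff_smul_eq ((Lp.memLp _).locallyIntegrable (by norm_num))
    (H1_continuous g h1).locallyIntegrable ?_
  intro φ hφ hc
  have hg₁ : HasCompactSupport (Complex.ofRealCLM ∘ φ) := hc.comp_left rfl
  have hg₂ : ContDiff ℝ ∞ (Complex.ofRealCLM ∘ φ) := by fun_prop
  set ψ : 𝓢(ℝ, ℂ) := hg₁.toSchwartzMap hg₂ with hψ
  have hψx : ∀ x, ψ x = ((φ x : ℝ) : ℂ) := fun x => rfl
  have e1 := congrArg (fun T : 𝓢'(ℝ, ℂ) => T ψ)
    (MeasureTheory.Lp.fourier_toTemperedDistribution_eq (h2.toLp g))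
  simp only [TemperedDistribution.fourier_apply, Lp.toTemperedDistribution_apply] at e1
  have e2 : ∫ x, (𝓕 ψ) x • (h2.toLp g) x = ∫ x, (𝓕 ψ) x • g x := by
    refine integral_congr_ae ?_
    filter_upwards [h2.coeFn_toLp] with x hx
    rw [hx]
  rw [e2, H1_selfadj ψ g h1] at e1
  simpa [hψx] using e1.symm

/-- H1. Plancherel for integrable, square integrable functions. -/
lemma plancherel_real (g : ℝ → ℂ) (h1 : Integrable g) (h2 : Integrable (fun u => ‖g u‖ ^ 2)) :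
    Integrable (fun t : ℝ => ‖∫ u : ℝ, g u * Complex.exp (-((t : ℂ) * u * I))‖ ^ 2) ∧
    ∫ t : ℝ, ‖∫ u : ℝ, g u * Complex.exp (-((t : ℂ) * u * I))‖ ^ 2
      = (2 * π) * ∫ u : ℝ, ‖g u‖ ^ 2 := by
  have hm : MemLp g 2 := (memLp_two_iff_integrable_sq_norm h1.1).2 h2
  have hae := H1_ae g h1 hm
  have hF : ∀ t : ℝ, ∫ u : ℝ, g u * Complex.exp (-((t : ℂ) * u * I)) = (𝓕 g) (t / (2 * π)) := by
    intro t
    rw [Real.fourier_real_eq_integral_exp_smul]
    refine integral_congr_ae (ae_of_all _ fun u => ?_)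
    simp only [smul_eq_mul]
    rw [mul_comm]
    congr 2
    push_cast
    field_simp
  simp only [hF]
  have hmF : MemLp (𝓕 g) 2 := by
    refine (memLp_congr_ae hae).1 (Lp.memLp _)
  have hI : Integrable (fun x : ℝ => ‖(𝓕 g) x‖ ^ 2) :=
    (memLp_two_iff_integrable_sq_norm hmF.1).1 hmF
  have hpi : (2 * π) ≠ 0 := by positivity
  refine ⟨hI.comp_div hpi, ?_⟩
  rw [Measure.integral_comp_div (fun x : ℝ => ‖(𝓕 g : ℝ → ℂ) x‖ ^ 2) (2 * π), abs_of_pos (by positivity),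
    smul_eq_mul]
  congr 1
  have key : ∀ f : Lp ℂ 2 (volume : Measure ℝ), ‖f‖ ^ 2 = ∫ x, ‖f x‖ ^ 2 := by
    intro f
    have h := MeasureTheory.L2.inner_def (𝕜 := ℂ) f f
    simp only [inner_self_eq_norm_sq_to_K] at h
    have h' : ((‖f‖ ^ 2 : ℝ) : ℂ) = ((∫ x, ‖f x‖ ^ 2 : ℝ) : ℂ) := by
      rw [← integral_complex_ofReal]
      push_cast
      exact h
    exact_mod_cast h'
  have e1 := key (𝓕 (hm.toLp g) : Lp ℂ 2 (volume : Measure ℝ))
  have e2 := key (hm.toLp g)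
  rw [MeasureTheory.Lp.norm_fourier_eq, e2] at e1
  have e3 : ∫ x, ‖(𝓕 (hm.toLp g) : Lp ℂ 2 (volume : Measure ℝ)) x‖ ^ 2 =
      ∫ x, ‖(𝓕 g) x‖ ^ 2 := by
    refine integral_congr_ae ?_
    filter_upwards [hae] with x hx
    rw [hx]
  have e4 : ∫ x, ‖(hm.toLp g) x‖ ^ 2 = ∫ x, ‖g x‖ ^ 2 := by
    refine integral_congr_ae ?_
    filter_upwards [hm.coeFn_toLp] with x hx
    rw [hx]
  rw [e3, e4] at e1
  exact e1.symm

end Pool.Agent.MC.C2
end

section

set_option autoImplicit false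

namespace Pool.Agent.MC.C2

open Pool.Agent.MC Pool.Agent.MC.C1 MeasureTheory Real Complex

-- This file uses the skeleton lemma H1 (plancherel_real).
lemma H3_cpow (u : ℝ) (s : ℂ) :
    |Real.exp u| • ((Real.exp u : ℝ) : ℂ) ^ (-(s + 1)) = Complex.exp (-(s * u)) := by
  have h1 : ((Real.exp u : ℝ) : ℂ) ≠ 0 := by
    exact_mod_cast (Real.exp_pos u).ne'
  rw [Complex.cpow_def_of_ne_zero h1, ← Complex.ofReal_log (Real.exp_pos u).le, Real.log_exp,
    abs_of_pos (Real.exp_pos u), Complex.real_smul, Complex.ofReal_exp, ← Complex.exp_add]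
  congr 1
  ring

lemma H3_image : Real.exp '' Set.Ioi 0 = Set.Ioi (1 : ℝ) := by
  ext x
  simp only [Set.mem_image, Set.mem_Ioi]
  constructor
  · rintro ⟨u, hu, rfl⟩
    exact Real.one_lt_exp_iff.mpr hu
  · intro hx
    exact ⟨Real.log x, Real.log_pos hx, Real.exp_log (by linarith)⟩

lemma H3_mellin (f : ℝ → ℂ) (hf : Measurable f) (C a : ℝ)
    (hb : ∀ t : ℝ, 1 < t → ‖f t‖ ≤ C * t ^ a) (h0 : ∀ t : ℝ, t ≤ 1 → f t = 0) (s : ℂ)
    (hs : a < s.re) :
    Integrable (fun u : ℝ => f (Real.exp u) * Complex.exp (-(s * u))) ∧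
      ∫ u : ℝ, f (Real.exp u) * Complex.exp (-(s * u)) = MT f s := by
  have hint := MT_integrable f C a hf hb s hs
  have hfun : (fun u : ℝ => |Real.exp u| • (f (Real.exp u) *
      ((Real.exp u : ℝ) : ℂ) ^ (-(s + 1)))) =
      fun u : ℝ => f (Real.exp u) * Complex.exp (-(s * u)) := by
    ext u
    rw [← H3_cpow u s, ← mul_smul_comm]
  have hzero : ∀ u : ℝ, u ≤ 0 → f (Real.exp u) * Complex.exp (-(s * u)) = 0 := by
    intro u hu
    rw [h0 _ (Real.exp_le_one_iff.mpr hu), zero_mul]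
  have hderiv : ∀ x ∈ Set.Ioi (0 : ℝ), HasDerivWithinAt Real.exp (Real.exp x) (Set.Ioi 0) x :=
    fun x _ => (Real.hasDerivAt_exp x).hasDerivWithinAt
  have hinj : Set.InjOn Real.exp (Set.Ioi 0) := Real.exp_injective.injOn
  constructor
  · have h1 := (integrableOn_image_iff_integrableOn_abs_deriv_smul measurableSet_Ioi hderiv hinj
      (fun t : ℝ => f t * (t : ℂ) ^ (-(s + 1)))).mp (by rw [H3_image]; exact hint)
    rw [hfun] at h1
    have h2 : IntegrableOn (fun u : ℝ => f (Real.exp u) * Complex.exp (-(s * u))) (Set.Iic 0) := by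
      have h4 : IntegrableOn (fun _ : ℝ => (0 : ℂ)) (Set.Iic 0) := integrableOn_zero
      refine h4.congr_fun (fun t ht => ?_) measurableSet_Iic
      exact (hzero t ht).symm
    rw [← integrableOn_univ, ← Set.Iic_union_Ioi (a := (0 : ℝ))]
    exact h2.union h1
  · have h1 := integral_image_eq_integral_abs_deriv_smul measurableSet_Ioi hderiv hinj
      (fun t : ℝ => f t * (t : ℂ) ^ (-(s + 1)))
    rw [hfun, H3_image] at h1
    unfold MT
    rw [h1, ← setIntegral_univ]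
    refine setIntegral_eq_of_subset_of_forall_sdiff_eq_zero MeasurableSet.univ
      (Set.subset_univ _) ?_
    intro u hu
    exact hzero u (not_lt.mp hu.2)

lemma H3_exp_bound (z : ℂ) (hz : Real.exp z.re ≤ 8) : ‖Complex.exp z - 1‖ ≤ 9 ∧
    ‖Complex.exp z - 1‖ ≤ 9 * ‖z‖ := by
  have h1 : ‖Complex.exp z - 1‖ ≤ 9 := by
    refine (norm_sub_le _ _).trans ?_
    rw [Complex.norm_exp, norm_one]
    linarith
  refine ⟨h1, ?_⟩
  rcases le_total ‖z‖ 1 with h | h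
  · have h2 := Complex.norm_exp_sub_one_le h
    have h3 := norm_nonneg z
    linarith
  · linarith

lemma H3_pt (σ δ t : ℝ) (hσ0 : 0 ≤ σ) (hσ : σ ≤ 2) (hδ0 : 0 < δ) (hδ1 : δ ≤ 1) (M : ℂ) :
    ‖(Complex.exp (((σ : ℂ) + t * I) * δ) - 1) * M‖ ^ 2
      ≤ 81 * (‖((σ : ℂ) + t * I) * M‖ ^ 2 * wt δ t) := by
  set s : ℂ := (σ : ℂ) + t * I with hs
  have hre : s.re = σ := by simp [hs]
  have him : s.im = t := by simp [hs]
  have hexp : Real.exp (s * δ).re ≤ 8 := by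
    have h1 : (s * (δ : ℂ)).re = σ * δ := by
      rw [Complex.re_mul_ofReal, hre]
    rw [h1]
    have h2 : σ * δ ≤ 2 := by nlinarith
    have h3 : Real.exp (σ * δ) ≤ Real.exp 2 := Real.exp_le_exp.mpr h2
    have h4 : Real.exp 2 = Real.exp 1 * Real.exp 1 := by
      rw [← Real.exp_add]; norm_num
    have h5 := Real.exp_one_lt_d9
    have h6 := Real.exp_pos 1
    nlinarith
  obtain ⟨hb1, hb2⟩ := H3_exp_bound (s * δ) hexp
  have hm : 0 < max (1 / δ) |t| := lt_of_lt_of_le (by positivity) (le_max_left _ _)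
  have key : ‖Complex.exp (s * δ) - 1‖ * max (1 / δ) |t| ≤ 9 * ‖s‖ := by
    rcases le_total (1 / δ) |t| with h | h
    · rw [max_eq_right h]
      have h1 : |t| ≤ ‖s‖ := by
        rw [← him]
        exact Complex.abs_im_le_norm s
      exact mul_le_mul hb1 h1 (abs_nonneg _) (by norm_num)
    · rw [max_eq_left h]
      rw [norm_mul, Complex.norm_real, Real.norm_of_nonneg hδ0.le] at hb2
      calc ‖Complex.exp (s * δ) - 1‖ * (1 / δ) ≤ 9 * (‖s‖ * δ) * (1 / δ) :=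
            mul_le_mul_of_nonneg_right hb2 (by positivity)
        _ = 9 * ‖s‖ := by field_simp
  unfold wt
  rw [norm_mul, norm_mul, mul_pow, mul_pow, mul_one_div, mul_div_assoc', le_div_iff₀ (by positivity)]
  have h1 := pow_le_pow_left₀ (by positivity) key 2
  calc ‖Complex.exp (s * δ) - 1‖ ^ 2 * ‖M‖ ^ 2 * max (1 / δ) |t| ^ 2
      = (‖Complex.exp (s * δ) - 1‖ * max (1 / δ) |t|) ^ 2 * ‖M‖ ^ 2 := by ring
    _ ≤ (9 * ‖s‖) ^ 2 * ‖M‖ ^ 2 := mul_le_mul_of_nonneg_right h1 (by positivity)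
    _ = 81 * (‖s‖ ^ 2 * ‖M‖ ^ 2) := by ring

/-- H3. Increments and the Mellin transform (uses H1). -/
lemma incr_le (f : ℝ → ℂ) (hf : Measurable f) (C a σ : ℝ) (ha : 0 ≤ a) (haσ : a < σ)
    (hσ : σ ≤ 2) (hb : ∀ t : ℝ, 1 < t → ‖f t‖ ≤ C * t ^ a) (h0 : ∀ t : ℝ, t ≤ 1 → f t = 0)
    (δ : ℝ) (hδ0 : 0 < δ) (hδ1 : δ ≤ 1)
    (hI : Integrable (fun t : ℝ =>
      ‖((σ : ℂ) + t * I) * MT f ((σ : ℂ) + t * I)‖ ^ 2 * wt δ t)) (X : ℝ) (hX : 1 ≤ X) :
    ∫ u in (Real.log X - 1)..(Real.log X), ‖f (Real.exp (u + δ)) - f (Real.exp u)‖ ^ 2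
      ≤ 100 * X ^ (2 * σ) *
        ∫ t : ℝ, ‖((σ : ℂ) + t * I) * MT f ((σ : ℂ) + t * I)‖ ^ 2 * wt δ t := by
  have hσ0 : 0 ≤ σ := by linarith
  have hX0 : 0 < X := by linarith
  have hC : 0 ≤ C := by
    have h1 := hb 2 (by norm_num)
    by_contra hneg
    push Not at hneg
    have h2 : C * (2 : ℝ) ^ a < 0 := mul_neg_of_neg_of_pos hneg (by positivity)
    linarith [norm_nonneg (f 2)]
  -- the functions
  set k : ℂ → ℝ → ℂ := fun s u => f (Real.exp u) * Complex.exp (-(s * u)) with hk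
  set g : ℝ → ℂ := fun u => (f (Real.exp (u + δ)) - f (Real.exp u)) *
    Complex.exp (-((σ : ℂ) * u)) with hg
  have hk_int : ∀ t : ℝ, Integrable (k ((σ : ℂ) + t * I)) ∧
      ∫ u : ℝ, k ((σ : ℂ) + t * I) u = MT f ((σ : ℂ) + t * I) := by
    intro t
    exact H3_mellin f hf C a hb h0 _ (by simpa using haσ)
  have hgk : ∀ t u : ℝ, g u * Complex.exp (-((t : ℂ) * u * I)) =
      Complex.exp (((σ : ℂ) + t * I) * δ) * k ((σ : ℂ) + t * I) (u + δ) -
        k ((σ : ℂ) + t * I) u := by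
    intro t u
    simp only [hg, hk]
    have h1 : Complex.exp (-((σ : ℂ) * u)) * Complex.exp (-((t : ℂ) * u * I)) =
        Complex.exp (-(((σ : ℂ) + t * I) * u)) := by
      rw [← Complex.exp_add]
      congr 1
      ring
    have h2 : Complex.exp (((σ : ℂ) + t * I) * δ) *
        Complex.exp (-(((σ : ℂ) + t * I) * ((u + δ : ℝ) : ℂ))) =
        Complex.exp (-(((σ : ℂ) + t * I) * u)) := by
      rw [← Complex.exp_add]
      congr 1
      push_cast
      ring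
    rw [mul_assoc, h1]
    calc (f (Real.exp (u + δ)) - f (Real.exp u)) * Complex.exp (-(((σ : ℂ) + t * I) * u))
        = f (Real.exp (u + δ)) * Complex.exp (-(((σ : ℂ) + t * I) * u)) -
          f (Real.exp u) * Complex.exp (-(((σ : ℂ) + t * I) * u)) := by ring
      _ = f (Real.exp (u + δ)) * (Complex.exp (((σ : ℂ) + t * I) * δ) *
            Complex.exp (-(((σ : ℂ) + t * I) * ((u + δ : ℝ) : ℂ)))) -
          f (Real.exp u) * Complex.exp (-(((σ : ℂ) + t * I) * u)) := by rw [h2]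
      _ = _ := by ring
  have hg_int : Integrable g := by
    have h1 : g = fun u => Complex.exp (((σ : ℂ) + (0 : ℝ) * I) * δ) *
        k ((σ : ℂ) + (0 : ℝ) * I) (u + δ) - k ((σ : ℂ) + (0 : ℝ) * I) u := by
      ext u
      rw [← hgk 0 u]
      simp
    rw [h1]
    exact (((hk_int 0).1.comp_add_right δ).const_mul _).sub (hk_int 0).1
  have hk_bd : ∀ u : ℝ, ‖f (Real.exp u)‖ * Real.exp (-(σ * u)) ≤ C := by
    intro u
    rcases le_or_gt u 0 with h | h
    · rw [h0 _ (Real.exp_le_one_iff.mpr h), norm_zero, zero_mul]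
      exact hC
    · have h1 := hb (Real.exp u) (Real.one_lt_exp_iff.mpr h)
      have h2 : Real.exp u ^ a = Real.exp (a * u) := by
        rw [← Real.exp_mul, mul_comm]
      rw [h2] at h1
      calc ‖f (Real.exp u)‖ * Real.exp (-(σ * u)) ≤ C * Real.exp (a * u) * Real.exp (-(σ * u)) :=
            mul_le_mul_of_nonneg_right h1 (Real.exp_pos _).le
        _ = C * Real.exp (-((σ - a) * u)) := by
            rw [mul_assoc, ← Real.exp_add]
            congr 2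
            ring
        _ ≤ C * 1 := by
            refine mul_le_mul_of_nonneg_left (Real.exp_le_one_iff.mpr ?_) hC
            have : 0 ≤ (σ - a) * u := mul_nonneg (by linarith) h.le
            linarith
        _ = C := mul_one C
  have hg_norm : ∀ u : ℝ, ‖g u‖ = ‖f (Real.exp (u + δ)) - f (Real.exp u)‖ *
      Real.exp (-(σ * u)) := by
    intro u
    simp only [hg]
    rw [norm_mul, Complex.norm_exp]
    congr 2
    simp
  have hg_bd : ∀ u : ℝ, ‖g u‖ ≤ C * Real.exp (σ * δ) + C := by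
    intro u
    rw [hg_norm]
    have h1 := hk_bd u
    have h2 := hk_bd (u + δ)
    have h3 : Real.exp (-(σ * u)) = Real.exp (-(σ * (u + δ))) * Real.exp (σ * δ) := by
      rw [← Real.exp_add]
      congr 1
      ring
    have h4 : ‖f (Real.exp (u + δ))‖ * Real.exp (-(σ * u)) ≤ C * Real.exp (σ * δ) := by
      rw [h3, ← mul_assoc]
      exact mul_le_mul_of_nonneg_right h2 (Real.exp_pos _).le
    calc ‖f (Real.exp (u + δ)) - f (Real.exp u)‖ * Real.exp (-(σ * u))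
        ≤ (‖f (Real.exp (u + δ))‖ + ‖f (Real.exp u)‖) * Real.exp (-(σ * u)) :=
          mul_le_mul_of_nonneg_right (norm_sub_le _ _) (Real.exp_pos _).le
      _ = ‖f (Real.exp (u + δ))‖ * Real.exp (-(σ * u)) +
          ‖f (Real.exp u)‖ * Real.exp (-(σ * u)) := by ring
      _ ≤ _ := add_le_add h4 h1
  have hg_sq : Integrable (fun u => ‖g u‖ ^ 2) := by
    refine (hg_int.norm.const_mul (C * Real.exp (σ * δ) + C)).mono'
      (hg_int.aestronglyMeasurable.norm.pow 2) (Filter.Eventually.of_forall fun u => ?_)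
    rw [Real.norm_of_nonneg (by positivity), sq]
    exact mul_le_mul_of_nonneg_right (hg_bd u) (norm_nonneg _)
  obtain ⟨hP1, hP2⟩ := plancherel_real g hg_int hg_sq
  have hhat : ∀ t : ℝ, ∫ u : ℝ, g u * Complex.exp (-((t : ℂ) * u * I)) =
      (Complex.exp (((σ : ℂ) + t * I) * δ) - 1) * MT f ((σ : ℂ) + t * I) := by
    intro t
    obtain ⟨h1, h2⟩ := hk_int t
    calc ∫ u : ℝ, g u * Complex.exp (-((t : ℂ) * u * I))
        = ∫ u : ℝ, (Complex.exp (((σ : ℂ) + t * I) * δ) * k ((σ : ℂ) + t * I) (u + δ) -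
          k ((σ : ℂ) + t * I) u) := integral_congr_ae (Filter.Eventually.of_forall (hgk t))
      _ = Complex.exp (((σ : ℂ) + t * I) * δ) * MT f ((σ : ℂ) + t * I) -
          MT f ((σ : ℂ) + t * I) := by
          rw [integral_sub ((h1.comp_add_right δ).const_mul _) h1, integral_const_mul,
            integral_add_right_eq_self (k ((σ : ℂ) + t * I)) δ, h2]
      _ = _ := by ring
  simp only [hhat] at hP1 hP2
  -- the bound of the transform
  have hT : ∫ t : ℝ, ‖(Complex.exp (((σ : ℂ) + t * I) * δ) - 1) * MT f ((σ : ℂ) + t * I)‖ ^ 2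
      ≤ 81 * ∫ t : ℝ, ‖((σ : ℂ) + t * I) * MT f ((σ : ℂ) + t * I)‖ ^ 2 * wt δ t := by
    rw [← integral_const_mul]
    exact integral_mono hP1 (hI.const_mul 81) fun t => H3_pt σ δ t hσ0 hσ hδ0 hδ1 _
  -- the window
  have hW : ∫ u in (Real.log X - 1)..(Real.log X), ‖f (Real.exp (u + δ)) - f (Real.exp u)‖ ^ 2
      ≤ X ^ (2 * σ) * ∫ u : ℝ, ‖g u‖ ^ 2 := by
    rw [intervalIntegral.integral_of_le (by linarith)]
    have h1 : ∫ u in Set.Ioc (Real.log X - 1) (Real.log X),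
        ‖f (Real.exp (u + δ)) - f (Real.exp u)‖ ^ 2 ≤
        ∫ u in Set.Ioc (Real.log X - 1) (Real.log X), X ^ (2 * σ) * ‖g u‖ ^ 2 := by
      refine integral_mono_of_nonneg (Filter.Eventually.of_forall fun u => by positivity)
        ((hg_sq.const_mul _).restrict) ?_
      filter_upwards [ae_restrict_mem measurableSet_Ioc] with u hu
      rw [hg_norm, mul_pow]
      have h2 : X ^ (2 * σ) = Real.exp (2 * σ * Real.log X) := by
        rw [Real.rpow_def_of_pos hX0, mul_comm]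
      have h3 : 1 ≤ X ^ (2 * σ) * Real.exp (-(σ * u)) ^ 2 := by
        rw [h2, ← Real.exp_nat_mul, ← Real.exp_add]
        rw [Real.one_le_exp_iff]
        have h4 : σ * u ≤ σ * Real.log X := mul_le_mul_of_nonneg_left hu.2 hσ0
        push_cast
        linarith
      calc ‖f (Real.exp (u + δ)) - f (Real.exp u)‖ ^ 2
          = ‖f (Real.exp (u + δ)) - f (Real.exp u)‖ ^ 2 * 1 := (mul_one _).symm
        _ ≤ ‖f (Real.exp (u + δ)) - f (Real.exp u)‖ ^ 2 *
            (X ^ (2 * σ) * Real.exp (-(σ * u)) ^ 2) := mul_le_mul_of_nonneg_left h3 (by positivity)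
        _ = _ := by ring
    refine h1.trans ?_
    rw [integral_const_mul]
    refine mul_le_mul_of_nonneg_left ?_ (by positivity)
    exact setIntegral_le_integral hg_sq (Filter.Eventually.of_forall fun u => by positivity)
  refine hW.trans ?_
  have hI0 : 0 ≤ ∫ t : ℝ, ‖((σ : ℂ) + t * I) * MT f ((σ : ℂ) + t * I)‖ ^ 2 * wt δ t := by
    refine integral_nonneg fun t => ?_
    have : 0 ≤ wt δ t := by unfold wt; positivity
    positivity
  have hg0 : 0 ≤ ∫ u : ℝ, ‖g u‖ ^ 2 := integral_nonneg fun u => by positivity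
  have hle : ∫ u : ℝ, ‖g u‖ ^ 2 ≤
      100 * ∫ t : ℝ, ‖((σ : ℂ) + t * I) * MT f ((σ : ℂ) + t * I)‖ ^ 2 * wt δ t := by
    have h1 : (2 * π) * ∫ u : ℝ, ‖g u‖ ^ 2 ≤
        81 * ∫ t : ℝ, ‖((σ : ℂ) + t * I) * MT f ((σ : ℂ) + t * I)‖ ^ 2 * wt δ t := by
      rw [← hP2]
      exact hT
    have h2 := Real.pi_gt_three
    nlinarith
  calc X ^ (2 * σ) * ∫ u : ℝ, ‖g u‖ ^ 2 ≤ X ^ (2 * σ) * (100 *
        ∫ t : ℝ, ‖((σ : ℂ) + t * I) * MT f ((σ : ℂ) + t * I)‖ ^ 2 * wt δ t) :=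
        mul_le_mul_of_nonneg_left hle (by positivity)
    _ = _ := by ring

end Pool.Agent.MC.C2
end

section

set_option autoImplicit false

namespace Pool.Agent.EM

open Complex Metric Set MeasureTheory

/-- Lower bound for a Taylor coefficient of the logarithmic derivative, centre `ρ₀ + 3/2`. -/
lemma ZD_coeff_lower (A : ℕ) (η : ℝ) (hη : 0 < η) (hη1 : η ≤ 1) :
    ∃ (L : ℕ) (X₁ : ℝ), ∀ (q : ℕ) [NeZero q] (X : ℝ), (q : ℝ) ≤ X → X₁ ≤ X →
      ∀ χ : DirichletCharacter ℂ q,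
      ∀ ρ₀ : ℂ, MC.FF q χ ρ₀ = 0 → 1 / 2 ≤ ρ₀.re → |ρ₀.im| ≤ X ^ A →
      ∃ k : ℕ, 12 * (A + 1) * Real.log X ≤ k ∧
        ((k : ℝ) + 2) ≤ L * (12 * (A + 1) * Real.log X + 3) ∧
        (1 / 2) * X ^ (-(η / 2)) * (2 / 3 : ℝ) ^ (k + 2)
          ≤ ‖iteratedDeriv (k + 1) (logDeriv (MC.FF q χ)) (ρ₀ + 3 / 2)
              / ((k + 1).factorial : ℂ)‖ := by
  obtain ⟨C, hC1, hloc⟩ := local_zeros
  have hA0 : (0 : ℝ) ≤ A := Nat.cast_nonneg A
  set D : ℝ := 12 * (A + 1) with hD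
  have hD12 : 12 ≤ D := by rw [hD]; linarith
  obtain ⟨L, m₀, htur⟩ := turan_window (η / (4 * D)) (C * (2 * A + 2)) (by positivity)
    (by nlinarith)
  have hev := (((((evX_logC 1).and (evX_logC (4 / η))).and (evX_logC m₀)).and
    (evX_log (4 * C * (2 * A + 2)) (1 / 2) (by norm_num))).and (Filter.eventually_ge_atTop 3000))
  obtain ⟨X₁, hX₁⟩ := Filter.eventually_atTop.mp hev
  refine ⟨L, X₁, fun q _ X hqX hX χ ρ₀ hρ₀ hre1 him => ?_⟩
  obtain ⟨⟨⟨⟨hlog1, hlogη⟩, hlogm⟩, hlogC⟩, hX3000⟩ := hX₁ X hX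
  have hq0 : (0 : ℝ) < X := by linarith
  have hX1 : (1 : ℝ) ≤ X := by linarith
  have hXA1 : (1 : ℝ) ≤ X ^ A := one_le_pow₀ hX1
  have hre2 : ρ₀.re < 1 := by
    by_contra hge
    exact ZD_FF_ne q χ ρ₀ (not_lt.mp hge) hρ₀
  set ℓ : ℝ := Real.log X with hℓ
  set s₀ : ℂ := ρ₀ + 3 / 2 with hs₀
  have hs₀re : s₀.re = ρ₀.re + 3 / 2 := by rw [hs₀]; simp
  have hs₀im : s₀.im = ρ₀.im := by rw [hs₀]; simp
  have hs₀n : ‖s₀‖ ≤ X ^ A + 5 / 2 := by
    calc ‖s₀‖ ≤ |s₀.re| + |s₀.im| := Complex.norm_le_abs_re_add_abs_im s₀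
      _ ≤ 5 / 2 + X ^ A := by
          rw [hs₀re, hs₀im, abs_of_nonneg (by linarith)]
          linarith
      _ = _ := by ring
  -- local zeros
  have hexpT : Real.exp ((2 * A + 2) * ℓ) = X ^ (2 * A + 2) := by
    rw [hℓ]
    rw [show ((2 : ℝ) * A + 2) * Real.log X = ((2 * A + 2 : ℕ) : ℝ) * Real.log X by push_cast; ring]
    rw [Real.exp_nat_mul, Real.exp_log hq0]
  have hana : AnalyticOnNhd ℂ (MC.FF q χ) (closedBall s₀ (39 / 20)) :=
    ((MC.FF_differentiable q χ).differentiableOn.analyticOnNhd isOpen_univ).mono (subset_univ _)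
  have hbd : ∀ z ∈ closedBall s₀ (39 / 20), ‖MC.FF q χ z‖ ≤ Real.exp ((2 * A + 2) * ℓ) := by
    intro z hz
    rw [mem_closedBall, dist_eq_norm] at hz
    have hre := Complex.abs_re_le_norm (z - s₀)
    rw [Complex.sub_re, hs₀re, abs_le] at hre
    have h3 := FF_growth q χ z (by linarith)
    have h4 : ‖z‖ + 1 ≤ 7 * X ^ A := by
      calc ‖z‖ + 1 = ‖(z - s₀) + s₀‖ + 1 := by ring_nf
        _ ≤ ‖z - s₀‖ + ‖s₀‖ + 1 := by gcongr; exact norm_add_le _ _
        _ ≤ 39 / 20 + (X ^ A + 5 / 2) + 1 := by gcongr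
        _ ≤ 7 * X ^ A := by linarith
    have h5 : (40 * (q : ℝ) + 21) ≤ 61 * X := by linarith
    rw [hexpT]
    calc ‖MC.FF q χ z‖ ≤ (40 * q + 21) * (‖z‖ + 1) ^ 2 := h3
      _ ≤ (61 * X) * (7 * X ^ A) ^ 2 := by gcongr
      _ = 2989 * (X * (X ^ A) ^ 2) := by ring
      _ ≤ X * (X * (X ^ A) ^ 2) := by
          have : 0 ≤ X * (X ^ A) ^ 2 := by positivity
          nlinarith
      _ = X ^ (2 * A + 2) := by ring
  have hlow : Real.exp (-((2 * A + 2) * ℓ)) ≤ ‖MC.FF q χ s₀‖ := by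
    refine le_trans ?_ (ZD_FF_lower q χ s₀ (by linarith))
    rw [Real.exp_neg, hexpT, inv_le_comm₀ (by positivity) (by norm_num)]
    have h1 : X ≤ X ^ (2 * A + 2) := by
      calc X = X ^ 1 := (pow_one X).symm
        _ ≤ X ^ (2 * A + 2) := pow_le_pow_right₀ hX1 (by omega)
    norm_num
    linarith
  obtain ⟨n, ρ, hn, hρz, hρcov, hρco⟩ := hloc (MC.FF q χ) s₀ ((2 * A + 2) * ℓ) (by nlinarith) hana
    hbd hlow
  have hρre : ∀ j, (ρ j).re < 1 := by
    intro j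
    by_contra hge
    exact ZD_FF_ne q χ (ρ j) (not_lt.mp hge) (hρz j)
  have hsρ : ∀ j, s₀ - ρ j ≠ 0 := by
    intro j h
    have h1 := congrArg Complex.re h
    rw [Complex.sub_re, hs₀re, Complex.zero_re] at h1
    linarith [hρre j]
  have hdist0 : ‖s₀ - ρ₀‖ ≤ 3 / 2 := by
    rw [hs₀]
    rw [add_sub_cancel_left]
    norm_num
  obtain ⟨j₁, hj₁⟩ := hρcov ρ₀ (by
    rw [mem_closedBall, dist_eq_norm, ← norm_neg, neg_sub]; linarith) hρ₀
  have : Nonempty (Fin n) := ⟨j₁⟩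
  obtain ⟨js, hjs⟩ := Finite.exists_min (fun j => ‖s₀ - ρ j‖)
  have hr32 : ‖s₀ - ρ js‖ ≤ 3 / 2 := by
    have := hjs j₁
    rw [hj₁] at this
    linarith
  have hr0 : 0 < ‖s₀ - ρ js‖ := norm_pos_iff.mpr (hsρ js)
  -- the power sum lemma
  set m : ℕ := ⌈D * ℓ⌉₊ + 2 with hm
  have hmR1 : D * ℓ + 2 ≤ m := by
    rw [hm]; push_cast
    linarith [Nat.le_ceil (D * ℓ)]
  have hmR2 : (m : ℝ) ≤ D * ℓ + 3 := by
    rw [hm]; push_cast
    have h1 := Nat.ceil_lt_add_one (show 0 ≤ D * ℓ by positivity)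
    linarith
  have hmm₀ : m₀ ≤ m := by
    have h1 : (m₀ : ℝ) ≤ m := by nlinarith
    exact_mod_cast h1
  have hcard : (Fintype.card (Fin n) : ℝ) ≤ C * (2 * A + 2) * m := by
    rw [Fintype.card_fin]
    refine hn.trans ?_
    rw [← mul_assoc]
    gcongr
    nlinarith
  obtain ⟨k', hk1, hk2, hk3⟩ := htur m hmm₀ (Fin n) (fun j => (s₀ - ρ j) / (s₀ - ρ js)) hcard
    (by
      intro j
      rw [norm_div, one_le_div hr0]
      exact hjs j)
    ⟨js, div_self (hsρ js)⟩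
  obtain ⟨k, rfl⟩ : ∃ k, k' = k + 2 := ⟨k' - 2, by omega⟩
  refine ⟨k, ?_, ?_, ?_⟩
  · have h1 : (m : ℝ) ≤ k + 2 := by exact_mod_cast hk1
    linarith
  · have h1 : ((k : ℝ) + 2) ≤ L * m := by exact_mod_cast hk2
    refine h1.trans ?_
    gcongr
  have hsum : ∑ j, ((s₀ - ρ j)⁻¹) ^ (k + 1 + 1)
      = ((s₀ - ρ js)⁻¹) ^ (k + 2) * ∑ j, ((fun j => (s₀ - ρ j) / (s₀ - ρ js)) j)⁻¹ ^ (k + 2) := by
    rw [Finset.mul_sum]
    refine Finset.sum_congr rfl fun j _ => ?_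
    simp only
    rw [← mul_pow, inv_div]
    congr 1
    field_simp [hsρ j, hsρ js]
  have hmain : X ^ (-(η / 2)) * (2 / 3 : ℝ) ^ (k + 2)
      ≤ ‖(-1 : ℂ) ^ (k + 1) * ∑ j, ((s₀ - ρ j)⁻¹) ^ (k + 1 + 1)‖ := by
    rw [norm_mul, norm_pow, norm_neg, norm_one, one_pow, one_mul, hsum, norm_mul, mul_comm]
    gcongr
    · rw [norm_pow, norm_inv]
      gcongr
      rw [le_inv_comm₀ (by norm_num) hr0]
      norm_num
      linarith
    · refine le_trans ?_ hk3
      rw [Real.rpow_def_of_pos hq0, Real.exp_le_exp, ← hℓ]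
      have h1 : 4 ≤ η * ℓ := by
        rw [div_le_iff₀ hη] at hlogη; linarith
      have h2 : η / (4 * D) * m ≤ η / (4 * D) * (D * ℓ + 3) := by gcongr
      have h3 : η / (4 * D) * (D * ℓ + 3) = η * ℓ / 4 + 3 * η / (4 * D) := by
        field_simp
      have h4 : 3 * η / (4 * D) ≤ 1 := by
        rw [div_le_one (by positivity)]
        nlinarith
      linarith
  have herr : C * ((2 * A + 2) * ℓ) * (10 / 17 : ℝ) ^ (k + 1)
      ≤ (1 / 2) * X ^ (-(η / 2)) * (2 / 3 : ℝ) ^ (k + 2) := by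
    have h1 : 4 * C * (2 * A + 2) * ℓ ≤ X ^ (1 / 2 : ℝ) := hlogC
    have h2 : X ^ (1 / 2 : ℝ) * X ^ (η / 2) ≤ X := by
      rw [← Real.rpow_add hq0]
      calc X ^ (1 / 2 + η / 2) ≤ X ^ (1 : ℝ) := by
            apply Real.rpow_le_rpow_of_exponent_le <;> linarith
        _ = X := Real.rpow_one _
    have h3 : X ≤ (17 / 15 : ℝ) ^ (k + 2) := by
      have h4 := exp_le_pow (17 / 15) (2 / 17) (by norm_num) (by
        have := Real.one_sub_inv_le_log_of_pos (show (0 : ℝ) < 17 / 15 by norm_num)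
        norm_num at this ⊢
        linarith) (12 * ℓ) (k + 2) (by norm_num) (by
          have h1 : (m : ℝ) ≤ k + 2 := by exact_mod_cast hk1
          push_cast
          nlinarith)
      refine le_trans ?_ h4
      rw [show (2 / 17 : ℝ) * (12 * ℓ) = ℓ + 7 / 17 * ℓ by ring, Real.exp_add, hℓ, Real.exp_log hq0]
      have h5 : 1 ≤ Real.exp (7 / 17 * Real.log X) := by
        exact Real.one_le_exp (by linarith)
      nlinarith
    have h5 : (2 / 3 : ℝ) ^ (k + 2) = (17 / 15) ^ (k + 2) * (10 / 17) ^ (k + 2) := by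
      rw [← mul_pow]; norm_num
    have h6 : X ^ (-(η / 2)) * X ^ (η / 2) = 1 := by
      rw [← Real.rpow_add hq0]; simp
    have h7 : 4 * C * (2 * A + 2) * ℓ * X ^ (η / 2) ≤ (17 / 15 : ℝ) ^ (k + 2) := by
      calc 4 * C * (2 * A + 2) * ℓ * X ^ (η / 2) ≤ X ^ (1 / 2 : ℝ) * X ^ (η / 2) := by gcongr
        _ ≤ X := h2
        _ ≤ _ := h3
    have h8 : (10 / 17 : ℝ) ^ (k + 1) = (17 / 10) * (10 / 17) ^ (k + 2) := by
      rw [pow_succ (10 / 17 : ℝ) (k + 1)]; ring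
    rw [h5, h8]
    have hpos : 0 ≤ C * (2 * A + 2) * ℓ := by positivity
    have h9 : C * ((2 * A + 2) * ℓ) * (17 / 10) ≤ 1 / 2 * X ^ (-(η / 2)) * (17 / 15) ^ (k + 2) := by
      calc C * ((2 * A + 2) * ℓ) * (17 / 10) ≤ 1 / 2 * (4 * C * (2 * A + 2) * ℓ) := by nlinarith
        _ = 1 / 2 * (X ^ (-(η / 2)) * X ^ (η / 2)) * (4 * C * (2 * A + 2) * ℓ) := by rw [h6]; ring
        _ = 1 / 2 * X ^ (-(η / 2)) * (4 * C * (2 * A + 2) * ℓ * X ^ (η / 2)) := by ring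
        _ ≤ _ := by gcongr
    calc C * ((2 * A + 2) * ℓ) * (17 / 10 * (10 / 17) ^ (k + 2))
        = C * ((2 * A + 2) * ℓ) * (17 / 10) * (10 / 17) ^ (k + 2) := by ring
      _ ≤ 1 / 2 * X ^ (-(η / 2)) * (17 / 15) ^ (k + 2) * (10 / 17) ^ (k + 2) := by gcongr
      _ = _ := by ring
  have h1 := hρco (k + 1)
  set a : ℂ := iteratedDeriv (k + 1) (logDeriv (MC.FF q χ)) s₀ / ((k + 1).factorial : ℂ) with ha
  set b : ℂ := (-1 : ℂ) ^ (k + 1) * ∑ j, ((s₀ - ρ j)⁻¹) ^ (k + 1 + 1) with hb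
  have h2 : ‖b‖ ≤ ‖a‖ + ‖a - b‖ := by
    calc ‖b‖ = ‖a - (a - b)‖ := by congr 1; ring
      _ ≤ _ := norm_sub_le _ _
  linarith

end Pool.Agent.EM
end
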