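import Mathlib
import Pool.Agent.Lib.MP_9cfc0a_nt.C2Base

section

set_option autoImplicit false

namespace Pool.Agent.MC.C2

open Pool.Agent.MC Pool.Agent.MC.C1 MeasureTheory Real Complex

lemma H11_local (κ : ℝ) (hκ : 0 < κ) (p a : ℕ) (hp : 2 ≤ p) :
    ((a : ℝ) + 1) ≤ (if p < ⌈(2 : ℝ) ^ (1 / κ)⌉₊ then 1 + 2 / κ else 1) * ((p : ℝ) ^ a) ^ κ := by
  have hp2 : (2 : ℝ) ≤ p := by exact_mod_cast hp
  have hp0 : (0 : ℝ) ≤ p := by linarith
  have e1 : ((p : ℝ) ^ a) ^ κ = ((p : ℝ) ^ κ) ^ a := by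
    rw [← Real.rpow_natCast, ← Real.rpow_natCast, ← Real.rpow_mul hp0, ← Real.rpow_mul hp0,
      mul_comm]
  rw [e1]
  split_ifs with h
  · have h1 : 1 + κ / 2 ≤ (p : ℝ) ^ κ := by
      have h2 : (2 : ℝ) ^ κ ≤ (p : ℝ) ^ κ := Real.rpow_le_rpow (by norm_num) hp2 hκ.le
      have h3 : 1 + κ / 2 ≤ (2 : ℝ) ^ κ := by
        rw [Real.rpow_def_of_pos (by norm_num)]
        have h4 := Real.add_one_le_exp (Real.log 2 * κ)
        have h5 := Real.log_two_gt_d9
        nlinarith
      linarith
    have h2 : 1 + (a : ℝ) * (κ / 2) ≤ ((p : ℝ) ^ κ) ^ a := by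
      have h3 := one_add_mul_le_pow (show (-2 : ℝ) ≤ κ / 2 by linarith) a
      exact h3.trans (pow_le_pow_left₀ (by positivity) h1 a)
    have h3 : (a : ℝ) + 1 ≤ (1 + 2 / κ) * (1 + (a : ℝ) * (κ / 2)) := by
      have h4 : (1 + 2 / κ) * (1 + (a : ℝ) * (κ / 2)) =
          (a : ℝ) + 1 + (2 / κ + (a : ℝ) * (κ / 2)) := by
        field_simp
        ring
      rw [h4]
      have : 0 ≤ 2 / κ + (a : ℝ) * (κ / 2) := by positivity
      linarith
    refine h3.trans ?_
    exact mul_le_mul_of_nonneg_left h2 (by positivity)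
  · rw [one_mul]
    rw [not_lt] at h
    have h1 : (2 : ℝ) ^ (1 / κ) ≤ p := (Nat.le_ceil _).trans (by exact_mod_cast h)
    have h2 : (2 : ℝ) ≤ (p : ℝ) ^ κ := by
      have h3 := Real.rpow_le_rpow (by positivity) h1 hκ.le
      rw [← Real.rpow_mul (by norm_num), one_div_mul_cancel hκ.ne', Real.rpow_one] at h3
      exact h3
    have h3 := one_add_mul_le_pow (show (-2 : ℝ) ≤ 1 by norm_num) a
    have h4 : ((1 : ℝ) + 1) ^ a ≤ ((p : ℝ) ^ κ) ^ a :=
      pow_le_pow_left₀ (by norm_num) (by linarith) a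
    linarith

/-- H11. The divisor bound. -/
lemma divisor_bound (κ : ℝ) (hκ : 0 < κ) : ∃ C : ℝ, 0 ≤ C ∧ ∀ n : ℕ, 1 ≤ n →
    (n.divisors.card : ℝ) ≤ C * (n : ℝ) ^ κ := by
  set P0 : ℕ := ⌈(2 : ℝ) ^ (1 / κ)⌉₊ with hP0
  have hK : (1 : ℝ) ≤ 1 + 2 / κ := by
    have : 0 ≤ 2 / κ := by positivity
    linarith
  refine ⟨(1 + 2 / κ) ^ P0, by positivity, fun n hn => ?_⟩
  have hn0 : n ≠ 0 := by omega
  rw [Nat.card_divisors hn0]
  push_cast
  have h1 : ∏ p ∈ n.primeFactors, ((n.factorization p : ℝ) + 1) ≤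
      ∏ p ∈ n.primeFactors, ((if p < P0 then 1 + 2 / κ else 1) *
        ((p : ℝ) ^ (n.factorization p)) ^ κ) := by
    refine Finset.prod_le_prod (fun p _ => by positivity) fun p hp => ?_
    exact H11_local κ hκ p _ (Nat.prime_of_mem_primeFactors hp).two_le
  refine h1.trans ?_
  rw [Finset.prod_mul_distrib, Real.finsetProd_rpow _ _ (fun p _ => by positivity)]
  have h2 : ∏ p ∈ n.primeFactors, ((p : ℝ) ^ (n.factorization p)) = n := by
    have h3 := Nat.prod_factorization_pow_eq_self hn0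
    have h4 : ∏ p ∈ n.primeFactors, p ^ (n.factorization p) = n := h3
    exact_mod_cast congrArg (fun t : ℕ => (t : ℝ)) h4
  rw [h2]
  refine mul_le_mul_of_nonneg_right ?_ (by positivity)
  rw [Finset.prod_ite, Finset.prod_const, Finset.prod_const_one, mul_one]
  refine pow_le_pow_right₀ hK ?_
  have h5 : n.primeFactors.filter (fun p => p < P0) ⊆ Finset.range P0 := by
    intro p hp
    exact Finset.mem_range.mpr (Finset.mem_filter.mp hp).2
  exact (Finset.card_le_card h5).trans_eq (Finset.card_range _)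

end Pool.Agent.MC.C2
end

section

set_option autoImplicit false

namespace Pool.Agent.MC.C2

open Pool.Agent.MC Pool.Agent.MC.C1 MeasureTheory Real Complex

lemma H9a_vv_contDiff : ContDiff ℝ 1 vv := by
  unfold vv
  exact Real.smoothTransition.contDiff.comp (contDiff_const.sub contDiff_id)

lemma H9a_vv_zero (x : ℝ) (hx : 2 ≤ x) : vv x = 0 :=
  Real.smoothTransition.zero_of_nonpos (by linarith)

lemma H9a_dvv_zero (x : ℝ) (hx : 2 < x) : deriv vv x = 0 := by
  have h1 : vv =ᶠ[nhds x] fun _ => (0 : ℝ) := by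
    filter_upwards [lt_mem_nhds hx] with y hy
    exact H9a_vv_zero y hy.le
  rw [h1.deriv_eq, deriv_const]

/-- the derivative of `vv (t / U) t ^ (-s)` -/
noncomputable def H9a_dp (s : ℂ) (U t : ℝ) : ℂ :=
  ((deriv vv (t / U) / U : ℝ) : ℂ) * (t : ℂ) ^ (-s) +
    ((vv (t / U) : ℝ) : ℂ) * (-s * (t : ℂ) ^ (-s - 1))

lemma H9a_cpow (s : ℂ) (t : ℝ) (ht : 0 < t) :
    HasDerivAt (fun y : ℝ => (y : ℂ) ^ (-s)) (-s * (t : ℂ) ^ (-s - 1)) t := by
  have h1 : HasDerivAt (fun z : ℂ => z ^ (-s)) (-s * (t : ℂ) ^ (-s - 1) * 1) (t : ℂ) :=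
    (hasDerivAt_id (t : ℂ)).cpow_const (Complex.ofReal_mem_slitPlane.2 ht)
  rw [mul_one] at h1
  exact h1.comp_ofReal

lemma H9a_phi (s : ℂ) (U : ℝ) (t : ℝ) (ht : 0 < t) :
    HasDerivAt (fun y : ℝ => ((vv (y / U) : ℝ) : ℂ) * (y : ℂ) ^ (-s)) (H9a_dp s U t) t := by
  have h1 : HasDerivAt vv (deriv vv (t / U)) (t / U) :=
    ((H9a_vv_contDiff.differentiable (by norm_num)) _).hasDerivAt
  have h2 : HasDerivAt (fun y : ℝ => y / U) (1 / U) t := (hasDerivAt_id t).div_const U
  have h3 : HasDerivAt (fun y : ℝ => vv (y / U)) (deriv vv (t / U) * (1 / U)) t :=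
    HasDerivAt.comp (h₂ := vv) (h := fun y : ℝ => y / U) t h1 h2
  have h4 := h3.ofReal_comp.mul (H9a_cpow s t ht)
  have h5 : deriv vv (t / U) * (1 / U) = deriv vv (t / U) / U := by ring
  rw [h5] at h4
  exact h4

lemma H9a_gg (s : ℂ) (U : ℝ) (t : ℝ) (ht : 0 < t) :
    deriv (gg s U) t = -s * (t : ℂ) ^ (-s - 1) - H9a_dp s U t := by
  have h1 := (H9a_cpow s t ht).sub (H9a_phi s U t ht)
  have h2 : gg s U = fun y : ℝ => (y : ℂ) ^ (-s) - ((vv (y / U) : ℝ) : ℂ) * (y : ℂ) ^ (-s) := by
    funext y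
    unfold gg
    push_cast
    ring
  rw [h2]
  exact h1.deriv

lemma H9a_dp_cont (s : ℂ) (U : ℝ) : ContinuousOn (H9a_dp s U) (Set.Ioi 0) := by
  unfold H9a_dp
  have h1 : Continuous (deriv vv) := H9a_vv_contDiff.continuous_deriv (le_refl 1)
  have h2 : Continuous vv := H9a_vv_contDiff.continuous
  refine ContinuousOn.add ?_ ?_
  · refine ContinuousOn.mul ?_ (continuousOn_cpow_Ioi _)
    exact (Complex.continuous_ofReal.comp
      ((h1.comp (continuous_id.div_const U)).div_const U)).continuousOn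
  · refine ContinuousOn.mul ?_ (continuousOn_const.mul (continuousOn_cpow_Ioi _))
    exact (Complex.continuous_ofReal.comp (h2.comp (continuous_id.div_const U))).continuousOn

lemma H9a_dp_zero (s : ℂ) (U : ℝ) (hU : 1 ≤ U) (t : ℝ) (ht : 2 * U < t) : H9a_dp s U t = 0 := by
  have h1 : 2 < t / U := by
    rw [lt_div_iff₀ (by linarith)]
    exact ht
  unfold H9a_dp
  rw [H9a_dvv_zero _ h1, H9a_vv_zero _ h1.le]
  simp

/-- H9a. Abel summation. -/
lemma approx_abel (r : ℕ) [NeZero r] (χ : DirichletCharacter ℂ r) (hχ : χ ≠ 1) (s : ℂ)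
    (hs : 0 < s.re) (U : ℝ) (hU : 1 ≤ U) (N : ℕ) (hN : 2 * U ≤ N) :
    χ.LFunction s - ∑ n ∈ Finset.Icc 1 N, χ n * ((vv (n / U) : ℝ) : ℂ) * (n : ℂ) ^ (-s)
      = - ∫ t in Set.Ioi (0 : ℝ), SumC (fun n => χ n) t * deriv (gg s U) t := by
  have hN1 : (1 : ℝ) ≤ N := by linarith
  have hRC : ∀ t, RC r χ t = SumC (fun n => χ n) t := by
    intro t
    unfold RC
    rw [densC_eq_zero r χ hχ, zero_mul, sub_zero]
  have hSb : ∀ t : ℝ, 1 < t → ‖SumC (fun n => χ n) t‖ ≤ 2 * r + 1 := by
    intro t ht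
    have := RC_bound r χ t ht
    rw [hRC, Real.rpow_zero, mul_one] at this
    exact this
  -- the L-function
  have hL : χ.LFunction s = s * ∫ t in Set.Ioi (1 : ℝ),
      SumC (fun n => χ n) t * (t : ℂ) ^ (-(s + 1)) := by
    rw [← FF_of_ne r χ hχ, FF_eq_MT r χ hχ s hs]
    unfold MT
    simp only [hRC]
  have hLint : IntegrableOn (fun t : ℝ => SumC (fun n => χ n) t * (t : ℂ) ^ (-(s + 1)))
      (Set.Ioi 1) := by
    have := MT_integrable (RC r χ) _ 0 (RC_measurable r χ) (RC_bound r χ) s hs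
    simp only [hRC] at this
    exact this
  -- the derivative of phi
  have hPint : IntegrableOn (H9a_dp s U) (Set.Icc 1 (N : ℝ)) :=
    ContinuousOn.integrableOn_compact isCompact_Icc
      ((H9a_dp_cont s U).mono fun t ht => lt_of_lt_of_le one_pos ht.1)
  have hSPint : IntegrableOn (fun t => SumC (fun n => χ n) t * H9a_dp s U t)
      (Set.Ioi 1) := by
    have h1 : IntegrableOn (fun t => SumC (fun n => χ n) t * H9a_dp s U t)
        (Set.Ioc 1 (N : ℝ)) := by
      refine Integrable.bdd_mul (c := 2 * r + 1) (hPint.mono_set Set.Ioc_subset_Icc_self)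
        (SumC_measurable _).aestronglyMeasurable ?_
      refine (ae_restrict_iff' measurableSet_Ioc).mpr (ae_of_all _ fun t ht => ?_)
      exact hSb t ht.1
    refine h1.of_forall_sdiff_eq_zero measurableSet_Ioi ?_
    intro t ht
    have h2 : (N : ℝ) < t := by
      by_contra hcon
      exact ht.2 ⟨ht.1, not_lt.1 hcon⟩
    rw [H9a_dp_zero s U hU t (by linarith), mul_zero]
  -- Abel summation
  have hsum : ∑ n ∈ Finset.Icc 1 N, χ n * ((vv (n / U) : ℝ) : ℂ) * (n : ℂ) ^ (-s) =
      - ∫ t in Set.Ioi (1 : ℝ), SumC (fun n => χ n) t * H9a_dp s U t := by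
    let c : ℕ → ℂ := fun k => if k = 0 then 0 else χ k
    have hc0 : c 0 = 0 := by simp [c]
    have hcS : ∀ m : ℕ, ∑ k ∈ Finset.Icc 0 m, c k = ∑ k ∈ Finset.Icc 1 m, χ k := by
      intro m
      rw [← Finset.sum_subset (Finset.Icc_subset_Icc_left (zero_le_one))]
      · refine Finset.sum_congr rfl fun k hk => ?_
        have hk1 := (Finset.mem_Icc.1 hk).1
        simp only [c]
        rw [if_neg (by omega)]
      · intro k hk hk'
        have hk0 : k = 0 := by
          rw [Finset.mem_Icc] at hk hk'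
          omega
        rw [hk0, hc0]
    have hd : ∀ t ∈ Set.Icc 1 (N : ℝ),
        deriv (fun y : ℝ => ((vv (y / U) : ℝ) : ℂ) * (y : ℂ) ^ (-s)) t = H9a_dp s U t :=
      fun t ht => (H9a_phi s U t (lt_of_lt_of_le one_pos ht.1)).deriv
    have hab := sum_mul_eq_sub_integral_mul₀' c
      (f := fun y : ℝ => ((vv (y / U) : ℝ) : ℂ) * (y : ℂ) ^ (-s)) hc0 N
      (fun t ht => (H9a_phi s U t (lt_of_lt_of_le one_pos ht.1)).differentiableAt)
      (hPint.congr_fun (fun t ht => (hd t ht).symm) measurableSet_Icc)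
    have hvN : vv ((N : ℝ) / U) = 0 := H9a_vv_zero _ (by
      rw [le_div_iff₀ (by linarith)]
      exact hN)
    rw [hvN] at hab
    simp only [Complex.ofReal_zero, zero_mul, zero_sub] at hab
    have e1 : ∑ n ∈ Finset.Icc 1 N, χ n * ((vv (n / U) : ℝ) : ℂ) * (n : ℂ) ^ (-s) =
        ∑ k ∈ Finset.Icc 0 N, ((vv ((k : ℝ) / U) : ℝ) : ℂ) * ((k : ℝ) : ℂ) ^ (-s) * c k := by
      rw [← Finset.sum_subset (Finset.Icc_subset_Icc_left (zero_le_one))]
      · refine Finset.sum_congr rfl fun k hk => ?_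
        have hk1 := (Finset.mem_Icc.1 hk).1
        simp only [c]
        rw [if_neg (by omega)]
        push_cast
        ring
      · intro k hk hk'
        have hk0 : k = 0 := by
          rw [Finset.mem_Icc] at hk hk'
          omega
        rw [hk0, hc0, mul_zero]
    rw [e1, hab]
    congr 1
    have e2 : ∫ t in Set.Ioc (1 : ℝ) N,
        deriv (fun y : ℝ => ((vv (y / U) : ℝ) : ℂ) * (y : ℂ) ^ (-s)) t *
          ∑ k ∈ Finset.Icc 0 ⌊t⌋₊, c k =
        ∫ t in Set.Ioc (1 : ℝ) N, SumC (fun n => χ n) t * H9a_dp s U t := by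
      refine setIntegral_congr_fun measurableSet_Ioc fun t ht => ?_
      rw [hd t ⟨ht.1.le, ht.2⟩, hcS]
      unfold SumC
      ring
    rw [e2]
    refine (setIntegral_eq_of_subset_of_forall_sdiff_eq_zero measurableSet_Ioi
      (fun t ht => ht.1) ?_).symm
    intro t ht
    have h2 : (N : ℝ) < t := by
      by_contra hcon
      exact ht.2 ⟨ht.1, not_lt.1 hcon⟩
    rw [H9a_dp_zero s U hU t (by linarith), mul_zero]
  -- the right hand side
  have hR : ∫ t in Set.Ioi (0 : ℝ), SumC (fun n => χ n) t * deriv (gg s U) t =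
      ∫ t in Set.Ioi (1 : ℝ), SumC (fun n => χ n) t * deriv (gg s U) t := by
    rw [← integral_Ici_eq_integral_Ioi (x := (1 : ℝ))]
    refine setIntegral_eq_of_subset_of_forall_sdiff_eq_zero measurableSet_Ioi
      (fun t ht => Set.mem_Ioi.2 (lt_of_lt_of_le one_pos (Set.mem_Ici.1 ht))) ?_
    intro t ht
    have h2 : t < 1 := by
      by_contra hcon
      exact ht.2 (not_lt.1 hcon)
    have h3 : SumC (fun n => χ n) t = 0 := by
      unfold SumC
      rw [Nat.floor_eq_zero.2 h2]
      simp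
    rw [h3, zero_mul]
  have hR2 : ∫ t in Set.Ioi (1 : ℝ), SumC (fun n => χ n) t * deriv (gg s U) t =
      (-s) * (∫ t in Set.Ioi (1 : ℝ), SumC (fun n => χ n) t * (t : ℂ) ^ (-(s + 1))) -
        ∫ t in Set.Ioi (1 : ℝ), SumC (fun n => χ n) t * H9a_dp s U t := by
    rw [← integral_const_mul, ← integral_sub (hLint.const_mul (-s)) hSPint]
    refine setIntegral_congr_fun measurableSet_Ioi fun t ht => ?_
    rw [H9a_gg s U t (lt_trans one_pos ht)]
    have e3 : -(s + 1) = -s - 1 := by ring
    rw [e3]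
    ring
  rw [hR, hR2, hL, hsum]
  ring

end Pool.Agent.MC.C2
end

section

set_option autoImplicit false

/-! Task H9b: `ibp_periodic`. Uses no other lemma of the skeleton. -/

namespace Pool.Agent.MC.C2

open Pool.Agent.MC Pool.Agent.MC.C1 MeasureTheory Real Complex

lemma H9b_bdd_intervalIntegrable {h : ℝ → ℂ} {B : ℝ} (hh : Measurable h) (hB : ∀ t, ‖h t‖ ≤ B)
    (a b : ℝ) : IntervalIntegrable h volume a b := by
  rw [intervalIntegrable_iff]
  refine Measure.integrableOn_of_bounded (M := B) ?_ hh.aestronglyMeasurable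
    (Filter.Eventually.of_forall hB)
  simp

lemma H9b_ibp {h G : ℝ → ℂ} {B : ℝ} (hh : Measurable h) (hB : ∀ t, ‖h t‖ ≤ B)
    (hG : ContDiff ℝ 1 G) (T : ℝ) (hT : 0 ≤ T) :
    ∫ t in (0 : ℝ)..T, h t * G t
      = G T * (∫ t in (0 : ℝ)..T, h t) - ∫ u in (0 : ℝ)..T, (∫ t in (0 : ℝ)..u, h t) * deriv G u := by
  have hG' : Continuous (deriv G) := hG.continuous_deriv le_rfl
  have hGc : Continuous G := hG.continuous
  have hder : ∀ t, G T - G t = ∫ u in t..T, deriv G u := by
    intro t
    rw [intervalIntegral.integral_deriv_eq_sub]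
    · intro x _
      exact (hG.differentiable one_ne_zero) x
    · exact hG'.intervalIntegrable _ _
  -- swap
  set μ : Measure ℝ := volume.restrict (Set.Ioc 0 T) with hμ
  let F : ℝ → ℝ → ℂ := fun t u => if t < u then h t * deriv G u else 0
  have hF1 : ∀ t ∈ Set.Ioc 0 T, ∫ u, F t u ∂μ = h t * ∫ u in t..T, deriv G u := by
    intro t ht
    have e1 : ∫ u, F t u ∂μ = ∫ u in Set.Ioc t T, h t * deriv G u := by
      have e2 : (fun u => F t u) = Set.indicator (Set.Ioi t) (fun u => h t * deriv G u) := by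
        funext u
        simp only [F, Set.indicator, Set.mem_Ioi]
      rw [e2, integral_indicator measurableSet_Ioi, hμ,
        Measure.restrict_restrict measurableSet_Ioi]
      congr 2
      ext u
      simp only [Set.mem_inter_iff, Set.mem_Ioi, Set.mem_Ioc]
      constructor
      · rintro ⟨a, b, c⟩
        exact ⟨a, c⟩
      · rintro ⟨a, b⟩
        exact ⟨a, lt_trans ht.1 a, b⟩
    rw [e1, integral_const_mul, intervalIntegral.integral_of_le ht.2]
  have hF2 : ∀ u ∈ Set.Ioc 0 T, ∫ t, F t u ∂μ = (∫ t in (0 : ℝ)..u, h t) * deriv G u := by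
    intro u hu
    have e1 : ∫ t, F t u ∂μ = ∫ t in Set.Ioo 0 u, h t * deriv G u := by
      have e2 : (fun t => F t u) = Set.indicator (Set.Iio u) (fun t => h t * deriv G u) := by
        funext t
        simp only [F, Set.indicator, Set.mem_Iio]
      rw [e2, integral_indicator measurableSet_Iio, hμ,
        Measure.restrict_restrict measurableSet_Iio]
      congr 2
      ext t
      simp only [Set.mem_inter_iff, Set.mem_Iio, Set.mem_Ioc, Set.mem_Ioo]
      constructor
      · rintro ⟨a, b, c⟩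
        exact ⟨b, a⟩
      · rintro ⟨a, b⟩
        exact ⟨b, a, (le_of_lt b).trans hu.2⟩
    rw [e1, integral_mul_const, ← integral_Ioc_eq_integral_Ioo,
      intervalIntegral.integral_of_le hu.1.le]
  have hFint : Integrable (Function.uncurry F) (μ.prod μ) := by
    obtain ⟨D, hD⟩ := (isCompact_Icc (a := (0 : ℝ)) (b := T)).exists_bound_of_continuousOn
      hG'.continuousOn
    have hmeas : Measurable (Function.uncurry F) := by
      have : Function.uncurry F = Set.indicator {p : ℝ × ℝ | p.1 < p.2}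
          (fun p => h p.1 * deriv G p.2) := by
        funext p
        simp only [Function.uncurry, F, Set.indicator, Set.mem_ofPred_eq]
      rw [this]
      refine Measurable.indicator ?_ (measurableSet_lt measurable_fst measurable_snd)
      exact (hh.comp measurable_fst).mul (hG'.measurable.comp measurable_snd)
    have : IsFiniteMeasure μ := by
      rw [hμ]
      exact ⟨by simp⟩
    refine Integrable.of_bound (C := B * |D|) hmeas.aestronglyMeasurable ?_
    have hae : ∀ᵐ p ∂(μ.prod μ), p.2 ∈ Set.Ioc 0 T := by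
      have := (Measure.quasiMeasurePreserving_snd (μ := μ) (ν := μ)).ae
        (show ∀ᵐ u ∂μ, u ∈ Set.Ioc 0 T from ae_restrict_mem measurableSet_Ioc)
      exact this
    filter_upwards [hae] with p hp
    have hB0 : 0 ≤ B := (norm_nonneg _).trans (hB 0)
    simp only [Function.uncurry, F]
    split_ifs
    · rw [norm_mul]
      have := hD p.2 ⟨hp.1.le, hp.2⟩
      gcongr
      · exact hB _
      · exact this.trans (le_abs_self D)
    · rw [norm_zero]
      positivity
  have hswap := integral_integral_swap (μ := μ) (ν := μ) (f := F) hFint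
  have h1 : ∫ t in (0 : ℝ)..T, h t * (G T - G t)
      = ∫ u in (0 : ℝ)..T, (∫ t in (0 : ℝ)..u, h t) * deriv G u := by
    rw [intervalIntegral.integral_of_le hT, intervalIntegral.integral_of_le hT]
    calc ∫ t in Set.Ioc 0 T, h t * (G T - G t) = ∫ t, ∫ u, F t u ∂μ ∂μ := by
          refine setIntegral_congr_fun measurableSet_Ioc ?_
          intro t ht
          simp only
          rw [hF1 t ht, ← hder t]
      _ = ∫ u, ∫ t, F t u ∂μ ∂μ := hswap
      _ = ∫ u in Set.Ioc 0 T, (∫ t in (0 : ℝ)..u, h t) * deriv G u := by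
          refine setIntegral_congr_fun measurableSet_Ioc ?_
          intro u hu
          simp only
          rw [hF2 u hu]
  have h2 : ∫ t in (0 : ℝ)..T, h t * (G T - G t)
      = G T * (∫ t in (0 : ℝ)..T, h t) - ∫ t in (0 : ℝ)..T, h t * G t := by
    have i1 : IntervalIntegrable (fun t => h t * G T) volume 0 T :=
      (H9b_bdd_intervalIntegrable hh hB 0 T).mul_const _
    have i2 : IntervalIntegrable (fun t => h t * G t) volume 0 T :=
      (H9b_bdd_intervalIntegrable hh hB 0 T).mul_continuousOn hGc.continuousOn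
    rw [show (fun t => h t * (G T - G t)) = fun t => h t * G T - h t * G t from by
      funext t; ring]
    rw [intervalIntegral.integral_sub i1 i2, intervalIntegral.integral_mul_const, mul_comm]
  rw [← h1, h2]
  ring

/-- H9b. Repeated integration by parts against a periodic function. -/
lemma ibp_periodic (f : ℝ → ℂ) (r : ℝ) (hr : 0 < r) (M : ℝ) (hf : Measurable f)
    (hper : ∀ t : ℝ, 0 ≤ t → f (t + r) = f t) (hM : ∀ t, ‖f t‖ ≤ M) (g : ℝ → ℂ)
    (hg : ∀ n : ℕ, ContDiff ℝ n g) (hg0 : ∀ t : ℝ, t ≤ 1 → g t = 0) (k : ℕ)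
    (hlim : ∀ j : ℕ, j ≤ k → Filter.Tendsto (iteratedDeriv j g) Filter.atTop (nhds 0))
    (hint : ∀ j : ℕ, 1 ≤ j → j ≤ k + 1 → Integrable (iteratedDeriv j g)) :
    ‖∫ t in Set.Ioi (0 : ℝ), f t * deriv g t‖
      ≤ (2 * r) ^ k * M * ∫ t in Set.Ioi (0 : ℝ), ‖iteratedDeriv (k + 1) g t‖ := by
  induction k generalizing f M g with
  | zero =>
    have h1 := hint 1 le_rfl (by norm_num)
    rw [iteratedDeriv_one] at h1
    rw [zero_add, iteratedDeriv_one, pow_zero, one_mul, ← integral_const_mul]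
    refine norm_integral_le_of_norm_le (h1.norm.integrableOn.const_mul M) ?_
    refine Filter.Eventually.of_forall fun t => ?_
    rw [norm_mul]
    exact mul_le_mul_of_nonneg_right (hM t) (norm_nonneg _)
  | succ k ih =>
    have hM0 : 0 ≤ M := (norm_nonneg _).trans (hM 0)
    set m : ℂ := (1 / r : ℝ) * ∫ t in (0 : ℝ)..r, f t with hm
    have hmM : ‖m‖ ≤ M := by
      rw [hm, norm_mul, Complex.norm_real, Real.norm_of_nonneg (by positivity)]
      have : ‖∫ t in (0 : ℝ)..r, f t‖ ≤ M * |r - 0| :=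
        intervalIntegral.norm_integral_le_of_norm_le_const fun t _ => hM t
      rw [sub_zero, abs_of_pos hr] at this
      calc 1 / r * ‖∫ t in (0 : ℝ)..r, f t‖ ≤ 1 / r * (M * r) := by gcongr
        _ = M := by field_simp
    let h : ℝ → ℂ := fun t => f t - m
    have hh : Measurable h := hf.sub_const m
    have hhB : ∀ t, ‖h t‖ ≤ 2 * M := fun t => by
      calc ‖f t - m‖ ≤ ‖f t‖ + ‖m‖ := norm_sub_le _ _
        _ ≤ 2 * M := by linarith [hM t, hmM]
    have hii : ∀ a b : ℝ, IntervalIntegrable h volume a b := H9b_bdd_intervalIntegrable hh hhB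
    let P : ℝ → ℂ := fun t => ∫ x in (0 : ℝ)..t, h x
    have hPc : Continuous P := intervalIntegral.continuous_primitive hii 0
    have hPr : P r = 0 := by
      change ∫ x in (0 : ℝ)..r, (f x - m) = 0
      rw [intervalIntegral.integral_sub (H9b_bdd_intervalIntegrable hf hM 0 r)
        intervalIntegrable_const, intervalIntegral.integral_const, hm, sub_zero,
        Complex.real_smul, ← mul_assoc]
      have : ((r : ℝ) : ℂ) * ((1 / r : ℝ) : ℂ) = 1 := by
        rw [← Complex.ofReal_mul]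
        have : r * (1 / r) = 1 := by field_simp
        rw [this, Complex.ofReal_one]
      rw [this, one_mul, sub_self]
    have hPper : ∀ t : ℝ, 0 ≤ t → P (t + r) = P t := by
      intro t ht
      have e1 : P (t + r) = P r + ∫ x in r..(t + r), h x :=
        (intervalIntegral.integral_add_adjacent_intervals (hii 0 r) (hii r (t + r))).symm
      have e2 : ∫ x in r..(t + r), h x = ∫ x in (0 : ℝ)..t, h (x + r) := by
        rw [intervalIntegral.integral_comp_add_right, zero_add]
      have e3 : ∫ x in (0 : ℝ)..t, h (x + r) = P t := by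
        refine intervalIntegral.integral_congr ?_
        intro x hx
        rw [Set.uIcc_of_le ht] at hx
        change f (x + r) - m = f x - m
        rw [hper x hx.1]
      rw [e1, hPr, e2, e3, zero_add]
    have hPn : ∀ n : ℕ, ∀ t : ℝ, 0 ≤ t → P (t + n * r) = P t := by
      intro n
      induction n with
      | zero => intro t _; simp
      | succ n ihn =>
        intro t ht
        rw [Nat.cast_succ, show t + ((n : ℝ) + 1) * r = (t + n * r) + r by ring,
          hPper _ (by positivity), ihn t ht]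
    have hPB : ∀ t : ℝ, 0 ≤ t → ‖P t‖ ≤ 2 * r * M := by
      intro t ht
      have hfl : (⌊t / r⌋₊ : ℝ) ≤ t / r := Nat.floor_le (by positivity)
      have hfl2 : t / r < ⌊t / r⌋₊ + 1 := Nat.lt_floor_add_one _
      have h0 : 0 ≤ t - ⌊t / r⌋₊ * r := by
        have := mul_le_mul_of_nonneg_right hfl hr.le
        rw [div_mul_cancel₀ _ hr.ne'] at this
        linarith
      have h1 : t - ⌊t / r⌋₊ * r ≤ r := by
        have := mul_lt_mul_of_pos_right hfl2 hr
        rw [div_mul_cancel₀ _ hr.ne'] at this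
        linarith
      have e := hPn ⌊t / r⌋₊ (t - ⌊t / r⌋₊ * r) h0
      rw [sub_add_cancel] at e
      rw [e]
      have := intervalIntegral.norm_integral_le_of_norm_le_const
        (a := 0) (b := t - ⌊t / r⌋₊ * r) (C := 2 * M) (f := h) (fun x _ => hhB x)
      rw [sub_zero, abs_of_nonneg h0] at this
      calc ‖P (t - ⌊t / r⌋₊ * r)‖ ≤ 2 * M * (t - ⌊t / r⌋₊ * r) := this
        _ ≤ 2 * M * r := by gcongr
        _ = 2 * r * M := by ring
    let F : ℝ → ℂ := Set.indicator (Set.Ici 0) P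
    have hF : Measurable F := hPc.measurable.indicator measurableSet_Ici
    have hFper : ∀ t : ℝ, 0 ≤ t → F (t + r) = F t := by
      intro t ht
      simp only [F]
      rw [Set.indicator_of_mem (show t + r ∈ Set.Ici (0 : ℝ) by simp only [Set.mem_Ici]; linarith),
        Set.indicator_of_mem (show t ∈ Set.Ici (0 : ℝ) from ht), hPper t ht]
    have hFM : ∀ t, ‖F t‖ ≤ 2 * r * M := by
      intro t
      by_cases ht : 0 ≤ t
      · simp only [F]
        rw [Set.indicator_of_mem (show t ∈ Set.Ici (0 : ℝ) from ht)]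
        exact hPB t ht
      · simp only [F]
        rw [Set.indicator_of_notMem (show t ∉ Set.Ici (0 : ℝ) from ht), norm_zero]
        positivity
    have hgd : Differentiable ℝ g := (hg 1).differentiable (by norm_num)
    have hg' : ∀ n : ℕ, ContDiff ℝ n (deriv g) := by
      intro n
      have := hg (n + 1)
      rw [Nat.cast_succ] at this
      exact (contDiff_succ_iff_deriv.1 this).2.2
    have hg0' : ∀ t : ℝ, t ≤ 1 → deriv g t = 0 := by
      intro t ht
      have a1 : HasDerivWithinAt g (deriv g t) (Set.Iic 1) t := (hgd t).hasDerivAt.hasDerivWithinAt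
      have a2 : HasDerivWithinAt g 0 (Set.Iic 1) t := by
        refine (hasDerivWithinAt_const t (Set.Iic 1) (0 : ℂ)).congr (fun x hx => hg0 x hx)
          (hg0 t ht)
      exact UniqueDiffWithinAt.eq_deriv _ (uniqueDiffOn_Iic (1 : ℝ) t ht) a1 a2
    have hlim' : ∀ j : ℕ, j ≤ k →
        Filter.Tendsto (iteratedDeriv j (deriv g)) Filter.atTop (nhds 0) := by
      intro j hj
      rw [← iteratedDeriv_succ']
      exact hlim (j + 1) (by omega)
    have hint' : ∀ j : ℕ, 1 ≤ j → j ≤ k + 1 → Integrable (iteratedDeriv j (deriv g)) := by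
      intro j h1 hj
      rw [← iteratedDeriv_succ']
      exact hint (j + 1) (by omega) (by omega)
    have IH := ih F (2 * r * M) hF hFper hFM (deriv g) hg' hg0' hlim' hint'
    rw [← iteratedDeriv_succ'] at IH
    -- the integration by parts
    have hgi : Integrable (deriv g) := by
      have := hint 1 le_rfl (by omega)
      rwa [iteratedDeriv_one] at this
    have hgi2 : Integrable (deriv (deriv g)) := by
      have := hint 2 (by norm_num) (by omega)
      rwa [iteratedDeriv_succ', iteratedDeriv_one] at this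
    have hz : ∫ t in Set.Ioi (0 : ℝ), deriv g t = 0 := by
      have := integral_Ioi_of_hasDerivAt_of_tendsto (f := g) (f' := deriv g) (a := 0) (m := 0)
        (hgd.continuous.continuousWithinAt) (fun x _ => (hgd x).hasDerivAt)
        hgi.integrableOn (by
          have := hlim 0 (by omega)
          rwa [iteratedDeriv_zero] at this)
      rw [this, hg0 0 (by norm_num), sub_zero]
    have hhg : Integrable (fun t => h t * deriv g t) := by
      refine Integrable.bdd_mul (c := 2 * M) hgi hh.aestronglyMeasurable ?_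
      exact Filter.Eventually.of_forall hhB
    have hfg : Integrable (fun t => f t * deriv g t) := by
      refine Integrable.bdd_mul (c := M) hgi hf.aestronglyMeasurable ?_
      exact Filter.Eventually.of_forall hM
    have hFg : Integrable (fun t => F t * deriv (deriv g) t) := by
      refine Integrable.bdd_mul (c := 2 * r * M) hgi2 hF.aestronglyMeasurable ?_
      exact Filter.Eventually.of_forall hFM
    have e1 : ∫ t in Set.Ioi (0 : ℝ), f t * deriv g t = ∫ t in Set.Ioi (0 : ℝ), h t * deriv g t := by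
      have : (fun t => f t * deriv g t) = fun t => h t * deriv g t + m * deriv g t := by
        funext t
        simp only [h]
        ring
      rw [this, integral_add hhg.integrableOn (hgi.const_mul m).integrableOn,
        integral_const_mul, hz, mul_zero, add_zero]
    have e2 : ∫ t in Set.Ioi (0 : ℝ), h t * deriv g t
        = - ∫ t in Set.Ioi (0 : ℝ), F t * deriv (deriv g) t := by
      have t1 : Filter.Tendsto (fun T => ∫ t in (0 : ℝ)..T, h t * deriv g t) Filter.atTop
          (nhds (∫ t in Set.Ioi (0 : ℝ), h t * deriv g t)) :=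
        intervalIntegral_tendsto_integral_Ioi 0 hhg.integrableOn Filter.tendsto_id
      have t2 : Filter.Tendsto (fun T => ∫ t in (0 : ℝ)..T, F t * deriv (deriv g) t) Filter.atTop
          (nhds (∫ t in Set.Ioi (0 : ℝ), F t * deriv (deriv g) t)) :=
        intervalIntegral_tendsto_integral_Ioi 0 hFg.integrableOn Filter.tendsto_id
      have t3 : Filter.Tendsto (fun T => deriv g T * F T) Filter.atTop (nhds 0) := by
        have l0 : Filter.Tendsto (deriv g) Filter.atTop (nhds 0) := by
          have := hlim 1 (by omega)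
          rwa [iteratedDeriv_one] at this
        refine squeeze_zero_norm (a := fun T => ‖deriv g T‖ * (2 * r * M)) ?_ ?_
        · intro T
          rw [norm_mul]
          exact mul_le_mul_of_nonneg_left (hFM T) (norm_nonneg _)
        · have := (l0.norm).mul_const (2 * r * M)
          simpa using this
      have t4 : Filter.Tendsto (fun T => deriv g T * F T
          - ∫ t in (0 : ℝ)..T, F t * deriv (deriv g) t) Filter.atTop
          (nhds (0 - ∫ t in Set.Ioi (0 : ℝ), F t * deriv (deriv g) t)) := t3.sub t2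
      have t5 : (fun T => deriv g T * F T - ∫ t in (0 : ℝ)..T, F t * deriv (deriv g) t)
          =ᶠ[Filter.atTop] (fun T => ∫ t in (0 : ℝ)..T, h t * deriv g t) := by
        filter_upwards [Filter.eventually_ge_atTop (0 : ℝ)] with T hT
        have e := H9b_ibp hh hhB (G := deriv g) (by exact_mod_cast hg' 1) T hT
        rw [e]
        have f1 : F T = ∫ t in (0 : ℝ)..T, h t := by
          simp only [F]
          rw [Set.indicator_of_mem (show T ∈ Set.Ici (0 : ℝ) from hT)]
        rw [f1]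
        congr 1
        refine intervalIntegral.integral_congr ?_
        intro u hu
        rw [Set.uIcc_of_le hT] at hu
        simp only [F]
        rw [Set.indicator_of_mem (show u ∈ Set.Ici (0 : ℝ) from hu.1)]
      have := tendsto_nhds_unique (t4.congr' t5) t1
      rw [← this, zero_sub]
    rw [e1, e2, norm_neg]
    calc ‖∫ t in Set.Ioi (0 : ℝ), F t * deriv (deriv g) t‖
        ≤ (2 * r) ^ k * (2 * r * M) * ∫ t in Set.Ioi (0 : ℝ), ‖iteratedDeriv (k + 1 + 1) g t‖ := IH
      _ = (2 * r) ^ (k + 1) * M * ∫ t in Set.Ioi (0 : ℝ), ‖iteratedDeriv (k + 1 + 1) g t‖ := by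
          ring

end Pool.Agent.MC.C2
end

section

set_option autoImplicit false

/-! Task H9c: `gg_bound`, `gg_smooth`. Uses no other lemma of the skeleton. -/

namespace Pool.Agent.MC.C2

open Pool.Agent.MC Pool.Agent.MC.C1 MeasureTheory Real Complex

/-- The complement of the cutoff, complex valued. -/
noncomputable def H9c_W (x : ℝ) : ℂ := ((1 - vv x : ℝ) : ℂ)

lemma H9c_W_smooth (n : ℕ) : ContDiff ℝ n H9c_W := by
  have h1 : ContDiff ℝ n (fun x : ℝ => 1 - vv x) := by
    unfold vv
    refine contDiff_const.sub ?_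
    have : ContDiff ℝ ((n : ℕ∞) : WithTop ℕ∞) (fun x : ℝ => Real.smoothTransition (2 - x)) :=
      Real.smoothTransition.contDiff.comp (contDiff_const.sub contDiff_id)
    exact this
  exact Complex.ofRealCLM.contDiff.comp h1

lemma H9c_W_zero {x : ℝ} (hx : x ≤ 1) : H9c_W x = 0 := by
  unfold H9c_W vv
  rw [Real.smoothTransition.one_of_one_le (by linarith), sub_self, Complex.ofReal_zero]

lemma H9c_W_one {x : ℝ} (hx : 2 ≤ x) : H9c_W x = 1 := by
  unfold H9c_W vv
  rw [Real.smoothTransition.zero_of_nonpos (by linarith), sub_zero, Complex.ofReal_one]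

lemma H9c_W_norm (x : ℝ) : ‖H9c_W x‖ ≤ 1 := by
  unfold H9c_W vv
  rw [Complex.norm_real, Real.norm_eq_abs, abs_le]
  have h1 := Real.smoothTransition.nonneg (2 - x)
  have h2 := Real.smoothTransition.le_one (2 - x)
  constructor <;> linarith

lemma H9c_W_bound (i : ℕ) : ∃ C : ℝ, 0 ≤ C ∧ ∀ x : ℝ, 0 < x →
    ‖iteratedDeriv i H9c_W x‖ ≤ C * (x ^ i)⁻¹ := by
  rcases Nat.eq_zero_or_pos i with h0 | hi
  · subst h0
    refine ⟨1, zero_le_one, fun x _ => ?_⟩
    rw [iteratedDeriv_zero, pow_zero, inv_one, mul_one]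
    exact H9c_W_norm x
  · have hc : Continuous (iteratedDeriv i H9c_W) :=
      (H9c_W_smooth i).continuous_iteratedDeriv i le_rfl
    obtain ⟨D, hD⟩ := (isCompact_Icc (a := (0 : ℝ)) (b := 2)).exists_bound_of_continuousOn
      hc.continuousOn
    have hD0 : 0 ≤ D := (norm_nonneg _).trans (hD 0 ⟨le_rfl, by norm_num⟩)
    refine ⟨D * 2 ^ i, by positivity, fun x hx => ?_⟩
    rcases le_or_gt x 2 with h2 | h2
    · calc ‖iteratedDeriv i H9c_W x‖ ≤ D := hD x ⟨hx.le, h2⟩
        _ = D * 2 ^ i * ((2 : ℝ) ^ i)⁻¹ := by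
            field_simp
        _ ≤ D * 2 ^ i * (x ^ i)⁻¹ := by gcongr
    · have e : H9c_W =ᶠ[nhds x] fun _ => (1 : ℂ) := by
        filter_upwards [lt_mem_nhds h2] with y hy
        exact H9c_W_one hy.le
      rw [e.iteratedDeriv_eq i, iteratedDeriv_const, if_neg (by omega), norm_zero]
      positivity

lemma H9c_cpow_contDiffAt (s : ℂ) (n : ℕ) {t : ℝ} (ht : 0 < t) :
    ContDiffAt ℝ n (fun x : ℝ => (x : ℂ) ^ (-s)) t := by
  have e : (fun x : ℝ => (x : ℂ) ^ (-s)) =ᶠ[nhds t]
      fun x : ℝ => Complex.exp (((Real.log x : ℝ) : ℂ) * (-s)) := by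
    filter_upwards [lt_mem_nhds ht] with x hx
    rw [Complex.cpow_def_of_ne_zero (by exact_mod_cast hx.ne'), Complex.ofReal_log hx.le]
  refine ContDiffAt.congr_of_eventuallyEq ?_ e
  have h1 : ContDiffAt ℝ n Real.log t := (Real.contDiffAt_log (n := n)).2 ht.ne'
  have h2 : ContDiffAt ℝ n (fun x : ℝ => ((Real.log x : ℝ) : ℂ)) t :=
    (Complex.ofRealCLM.contDiff (n := n)).contDiffAt.comp t h1
  exact (h2.mul contDiffAt_const).cexp

lemma H9c_cpow_iter (s : ℂ) (hs : 0 < s.re) (m : ℕ) : ∀ t : ℝ, 0 < t →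
    iteratedDeriv m (fun x : ℝ => (x : ℂ) ^ (-s)) t
      = (∏ l ∈ Finset.range m, (-s - l)) * (t : ℂ) ^ (-s - m) := by
  induction m with
  | zero =>
    intro t _
    simp
  | succ m ih =>
    intro t ht
    rw [iteratedDeriv_succ]
    have e : iteratedDeriv m (fun x : ℝ => (x : ℂ) ^ (-s)) =ᶠ[nhds t]
        fun x : ℝ => (∏ l ∈ Finset.range m, (-s - l)) * (x : ℂ) ^ (-s - m) := by
      filter_upwards [lt_mem_nhds ht] with x hx
      exact ih x hx
    have hne : (-s - m : ℂ) ≠ 0 := by
      intro h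
      have := congrArg Complex.re h
      simp only [Complex.sub_re, Complex.neg_re, Complex.natCast_re, Complex.zero_re] at this
      have hm : (0 : ℝ) ≤ m := Nat.cast_nonneg m
      linarith
    have hd := (hasDerivAt_ofReal_cpow_const ht.ne' hne).const_mul
      (∏ l ∈ Finset.range m, (-s - (l : ℂ)))
    rw [e.deriv_eq, hd.deriv, Finset.prod_range_succ, Nat.cast_succ]
    rw [show (-s - m - 1 : ℂ) = -s - (m + 1) by ring]
    ring

lemma H9c_prod_bound (s : ℂ) (m : ℕ) :
    ‖∏ l ∈ Finset.range m, (-s - (l : ℂ))‖ ≤ (m.factorial : ℝ) * (‖s‖ + 1) ^ m := by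
  induction m with
  | zero => simp
  | succ m ih =>
    rw [Finset.prod_range_succ, norm_mul]
    have h1 : ‖-s - (m : ℂ)‖ ≤ (m + 1) * (‖s‖ + 1) := by
      calc ‖-s - (m : ℂ)‖ ≤ ‖-s‖ + ‖(m : ℂ)‖ := norm_sub_le _ _
        _ = ‖s‖ + m := by rw [norm_neg, Complex.norm_natCast]
        _ ≤ (m + 1) * (‖s‖ + 1) := by nlinarith [norm_nonneg s, (Nat.cast_nonneg m : (0 : ℝ) ≤ m)]
    calc ‖∏ l ∈ Finset.range m, (-s - (l : ℂ))‖ * ‖-s - (m : ℂ)‖
        ≤ ((m.factorial : ℝ) * (‖s‖ + 1) ^ m) * ((m + 1) * (‖s‖ + 1)) := by gcongr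
      _ = ((m + 1).factorial : ℝ) * (‖s‖ + 1) ^ (m + 1) := by
          rw [Nat.factorial_succ]
          push_cast
          ring

lemma H9c_gg_zero {s : ℂ} {U t : ℝ} (hU : 1 ≤ U) (ht : t ≤ U) : gg s U t = 0 := by
  have h1 : t / U ≤ 1 := (div_le_one (by linarith)).2 ht
  have h2 := H9c_W_zero h1
  unfold H9c_W at h2
  unfold gg
  rw [h2, zero_mul]

/-- H9c'. `gg` is smooth. -/
lemma gg_smooth (s : ℂ) (U : ℝ) (hU : 1 ≤ U) (n : ℕ) : ContDiff ℝ n (gg s U) := by
  rw [contDiff_iff_contDiffAt]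
  intro t
  rcases lt_or_ge t U with ht | ht
  · have e : gg s U =ᶠ[nhds t] fun _ => (0 : ℂ) := by
      filter_upwards [gt_mem_nhds ht] with x hx
      exact H9c_gg_zero hU hx.le
    exact contDiffAt_const.congr_of_eventuallyEq e
  · have ht0 : 0 < t := by linarith
    have h1 : ContDiffAt ℝ n (fun x : ℝ => H9c_W (x / U)) t :=
      (H9c_W_smooth n).contDiffAt.comp t (contDiffAt_id.div_const U)
    exact h1.mul (H9c_cpow_contDiffAt s n ht0)

/-- H9c. Bounds for the derivatives of `gg`. -/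
lemma gg_bound (j : ℕ) : ∃ C : ℝ, 0 ≤ C ∧ ∀ s : ℂ, 0 < s.re → s.re ≤ 2 → ∀ U : ℝ, 1 ≤ U →
    (∀ t : ℝ, t ≤ U → iteratedDeriv j (gg s U) t = 0) ∧
    (∀ t : ℝ, U < t → ‖iteratedDeriv j (gg s U) t‖
      ≤ C * (‖s‖ + 1) ^ j * t ^ (-s.re - (j : ℝ))) := by
  choose D hD0 hD using H9c_W_bound
  refine ⟨∑ i ∈ Finset.range (j + 1), (j.choose i : ℝ) * D i * ((j - i).factorial : ℝ), ?_, ?_⟩
  · refine Finset.sum_nonneg fun i _ => ?_
    have := hD0 i
    positivity
  · intro s hs hs2 U hU
    have hU0 : 0 < U := by linarith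
    have hzero : ∀ t : ℝ, t < U → iteratedDeriv j (gg s U) t = 0 := by
      intro t ht
      have e : gg s U =ᶠ[nhds t] fun _ => (0 : ℂ) := by
        filter_upwards [gt_mem_nhds ht] with x hx
        exact H9c_gg_zero hU hx.le
      rw [e.iteratedDeriv_eq j, iteratedDeriv_const]
      split_ifs <;> rfl
    refine ⟨?_, ?_⟩
    · have hc : Continuous (iteratedDeriv j (gg s U)) :=
        (gg_smooth s U hU j).continuous_iteratedDeriv j le_rfl
      have hcl : IsClosed {t : ℝ | iteratedDeriv j (gg s U) t = 0} :=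
        isClosed_eq hc continuous_const
      have hsub : closure (Set.Iio U) ⊆ {t : ℝ | iteratedDeriv j (gg s U) t = 0} :=
        closure_minimal (fun t ht => hzero t ht) hcl
      rw [closure_Iio] at hsub
      intro t ht
      exact hsub ht
    · intro t ht
      have ht0 : 0 < t := by linarith
      have h1 : ContDiffAt ℝ j (fun x : ℝ => H9c_W (U⁻¹ * x)) t :=
        (H9c_W_smooth j).contDiffAt.comp t (contDiffAt_const.mul contDiffAt_id)
      have h2 := H9c_cpow_contDiffAt s j ht0
      have e : gg s U = (fun x : ℝ => H9c_W (U⁻¹ * x)) * (fun x : ℝ => (x : ℂ) ^ (-s)) := by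
        funext x
        simp only [Pi.mul_apply]
        unfold gg H9c_W
        rw [div_eq_inv_mul]
      rw [e, iteratedDeriv_mul h1 h2, Finset.sum_mul, Finset.sum_mul]
      refine norm_sum_le_of_le _ fun i hi => ?_
      have hij : i ≤ j := by
        have := Finset.mem_range.1 hi
        omega
      have e1 : iteratedDeriv i (fun x : ℝ => H9c_W (U⁻¹ * x)) t
          = (U⁻¹) ^ i • iteratedDeriv i H9c_W (U⁻¹ * t) := by
        rw [iteratedDeriv_comp_const_smul (H9c_W_smooth i)]
      have b1 : ‖iteratedDeriv i (fun x : ℝ => H9c_W (U⁻¹ * x)) t‖ ≤ D i * (t ^ i)⁻¹ := by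
        rw [e1, norm_smul, Real.norm_of_nonneg (by positivity)]
        calc (U⁻¹) ^ i * ‖iteratedDeriv i H9c_W (U⁻¹ * t)‖
            ≤ (U⁻¹) ^ i * (D i * ((U⁻¹ * t) ^ i)⁻¹) := by
              gcongr
              exact hD i _ (by positivity)
          _ = D i * (t ^ i)⁻¹ := by
              rw [mul_pow]
              field_simp
      have b2 : ‖iteratedDeriv (j - i) (fun x : ℝ => (x : ℂ) ^ (-s)) t‖
          ≤ ((j - i).factorial : ℝ) * (‖s‖ + 1) ^ (j - i) * t ^ (-s.re - ((j - i : ℕ) : ℝ)) := by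
        rw [H9c_cpow_iter s hs (j - i) t ht0, norm_mul,
          Complex.norm_cpow_eq_rpow_re_of_pos ht0]
        have : (-s - ((j - i : ℕ) : ℂ)).re = -s.re - ((j - i : ℕ) : ℝ) := by
          simp only [Complex.sub_re, Complex.neg_re, Complex.natCast_re]
        rw [this]
        gcongr
        exact H9c_prod_bound s (j - i)
      rw [norm_mul, norm_mul, Complex.norm_natCast]
      have hs1 : (1 : ℝ) ≤ ‖s‖ + 1 := by linarith [norm_nonneg s]
      have hDi := hD0 i
      calc (j.choose i : ℝ) * ‖iteratedDeriv i (fun x : ℝ => H9c_W (U⁻¹ * x)) t‖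
            * ‖iteratedDeriv (j - i) (fun x : ℝ => (x : ℂ) ^ (-s)) t‖
          ≤ (j.choose i : ℝ) * (D i * (t ^ i)⁻¹)
            * (((j - i).factorial : ℝ) * (‖s‖ + 1) ^ (j - i)
              * t ^ (-s.re - ((j - i : ℕ) : ℝ))) := by gcongr
        _ ≤ (j.choose i : ℝ) * (D i * (t ^ i)⁻¹)
            * (((j - i).factorial : ℝ) * (‖s‖ + 1) ^ j
              * t ^ (-s.re - ((j - i : ℕ) : ℝ))) := by
            gcongr
            omega
        _ = (j.choose i : ℝ) * D i * ((j - i).factorial : ℝ) * (‖s‖ + 1) ^ j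
            * ((t ^ i)⁻¹ * t ^ (-s.re - ((j - i : ℕ) : ℝ))) := by ring
        _ = (j.choose i : ℝ) * D i * ((j - i).factorial : ℝ) * (‖s‖ + 1) ^ j
            * t ^ (-s.re - (j : ℝ)) := by
            congr 1
            rw [← Real.rpow_natCast t i, ← Real.rpow_neg ht0.le, ← Real.rpow_add ht0]
            congr 1
            rw [Nat.cast_sub hij]
            ring

end Pool.Agent.MC.C2
end
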