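import Mathlib
import Pool.Agent.Lib.MP_9cfc0a_nt.SO.Defs
import Pool.Agent.Lib.MP_9cfc0a_nt.EMZeros
import Pool.Agent.Lib.MP_9cfc0a_nt.An1

section

set_option autoImplicit false

namespace Pool.Agent.SO

open Finset Complex MeasureTheory
open scoped ContDiff

lemma MoG2_core (P V : ℝ → ℝ) (hP : ∀ x, 1 / 8 ≤ x → P x = 0) (hV : ∀ x, 3 / 4 ≤ x → V x = 0)
    (r : ℕ) [NeZero r] (hr : 2 ≤ r) (χ : DirichletCharacter ℂ r) (a b t t0 : ℝ) :
    (∑ m ∈ Icc 1 r, (V (Real.log m / Real.log r) : ℂ) * χ m * (m : ℂ) ^ (-(pt r a t))) *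
      (∑ d ∈ Icc 1 r, (ArithmeticFunction.moebius d : ℂ) * (P (Real.log d / Real.log r) : ℂ) *
        χ d * (d : ℂ) ^ (-(pt r b t0))) = ∑ n ∈ Icc 1 ⌊(r : ℝ) ^ (7 / 8 : ℝ)⌋₊,
      (((n : ℂ) ^ (-(1 / 2 : ℂ))) * aco P V (Real.log r) a b t t0 n) * χ (n : ZMod r) := by
  have hr1 : (1 : ℝ) < r := by exact_mod_cast (by omega : 1 < r)
  have hr0 : (0 : ℝ) < r := by linarith
  have hl : 0 < Real.log r := Real.log_pos hr1
  set l := Real.log r with hldef
  set N := ⌊(r : ℝ) ^ (7 / 8 : ℝ)⌋₊ with hN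
  have hNr : N ≤ r := by
    have h1 : (r : ℝ) ^ (7 / 8 : ℝ) ≤ (r : ℝ) ^ (1 : ℝ) :=
      Real.rpow_le_rpow_of_exponent_le hr1.le (by norm_num)
    rw [Real.rpow_one] at h1
    have h2 : N ≤ ⌊(r : ℝ)⌋₊ := Nat.floor_le_floor h1
    rwa [Nat.floor_natCast] at h2
  set F : ℕ × ℕ → ℂ := fun p =>
    ((V (Real.log p.2 / l) : ℂ) * χ p.2 * (p.2 : ℂ) ^ (-(pt r a t))) *
      ((ArithmeticFunction.moebius p.1 : ℂ) * (P (Real.log p.1 / l) : ℂ) *
        χ p.1 * (p.1 : ℂ) ^ (-(pt r b t0))) with hF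
  -- the left side
  have hL : (∑ m ∈ Icc 1 r, (V (Real.log m / l) : ℂ) * χ m * (m : ℂ) ^ (-(pt r a t))) *
      (∑ d ∈ Icc 1 r, (ArithmeticFunction.moebius d : ℂ) * (P (Real.log d / l) : ℂ) *
        χ d * (d : ℂ) ^ (-(pt r b t0))) = ∑ p ∈ Icc 1 r ×ˢ Icc 1 r, F p := by
    rw [sum_mul_sum, sum_comm, ← sum_product']
  rw [hL]
  -- truncation
  set T := (Icc 1 r ×ˢ Icc 1 r).filter (fun p => p.1 * p.2 ∈ Icc 1 N) with hT
  have hvan : ∀ p ∈ Icc 1 r ×ˢ Icc 1 r, p ∉ T → F p = 0 := by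
    intro p hp hpT
    rw [mem_product, mem_Icc, mem_Icc] at hp
    have hnot : ¬ p.1 * p.2 ≤ N := by
      intro hle
      apply hpT
      rw [hT, mem_filter, mem_product, mem_Icc, mem_Icc, mem_Icc]
      exact ⟨hp, Nat.mul_pos hp.1.1 hp.2.1, hle⟩
    by_cases h1 : 1 / 8 ≤ Real.log p.1 / l
    · simp only [hF]
      rw [hP _ h1]
      simp
    · by_cases h2 : 3 / 4 ≤ Real.log p.2 / l
      · simp only [hF]
        rw [hV _ h2]
        simp
      · exfalso
        push Not at h1 h2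
        apply hnot
        rw [hN]
        apply Nat.le_floor
        rw [div_lt_iff₀ hl] at h1 h2
        have hp1 : (0 : ℝ) < p.1 := by exact_mod_cast hp.1.1
        have hp2 : (0 : ℝ) < p.2 := by exact_mod_cast hp.2.1
        have h3 : Real.log ((p.1 : ℝ) * p.2) ≤ 7 / 8 * l := by
          rw [Real.log_mul hp1.ne' hp2.ne']
          linarith
        have h4 := Real.exp_le_exp.mpr h3
        rw [Real.exp_log (by positivity)] at h4
        rw [Real.rpow_def_of_pos hr0, mul_comm (Real.log (r : ℝ))]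
        push_cast
        exact h4
  rw [← sum_subset (filter_subset _ _) hvan]
  -- fibres
  rw [← sum_fiberwise_of_maps_to (g := fun p : ℕ × ℕ => p.1 * p.2) (t := Icc 1 N)
    (fun p hp => (mem_filter.1 hp).2)]
  refine sum_congr rfl (fun n hn => ?_)
  rw [mem_Icc] at hn
  have hfib : T.filter (fun p => p.1 * p.2 = n) = n.divisorsAntidiagonal := by
    ext p
    rw [mem_filter, hT, mem_filter, mem_product, Nat.mem_divisorsAntidiagonal, mem_Icc, mem_Icc,
      mem_Icc]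
    constructor
    · rintro ⟨_, h2⟩
      exact ⟨h2, by omega⟩
    · rintro ⟨h1, h2⟩
      have hp1 : p.1 ≠ 0 := by
        rintro h0
        rw [h0, zero_mul] at h1
        omega
      have hp2 : p.2 ≠ 0 := by
        rintro h0
        rw [h0, mul_zero] at h1
        omega
      have h3 : p.1 ≤ n := Nat.le_of_dvd (by omega) ⟨p.2, h1.symm⟩
      have h4 : p.2 ≤ n := Nat.le_of_dvd (by omega) ⟨p.1, by rw [mul_comm]; exact h1.symm⟩
      refine ⟨⟨⟨⟨by omega, by omega⟩, ⟨by omega, by omega⟩⟩, ?_⟩, h1⟩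
      omega
  rw [hfib, aco, mul_sum, sum_mul,
    ← Nat.sum_divisorsAntidiagonal (fun d m => (n : ℂ) ^ (-(1 / 2 : ℂ)) *
      ((ArithmeticFunction.moebius d : ℂ) * (P (Real.log d / l) : ℂ) *
        (V (Real.log m / l) : ℂ) * (d : ℂ) ^ (-((b / l : ℝ) + (t0 : ℂ) * I)) *
        (m : ℂ) ^ (-((a / l : ℝ) + (t : ℂ) * I))) * χ (n : ZMod r))]
  refine sum_congr rfl (fun p hp => ?_)
  rw [Nat.mem_divisorsAntidiagonal] at hp
  have hp1 : p.1 ≠ 0 := by
    rintro h0
    rw [h0, zero_mul] at hp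
    exact hp.2 hp.1.symm
  have hp2 : p.2 ≠ 0 := by
    rintro h0
    rw [h0, mul_zero] at hp
    exact hp.2 hp.1.symm
  have hc1 : (p.1 : ℂ) ≠ 0 := by exact_mod_cast hp1
  have hc2 : (p.2 : ℂ) ≠ 0 := by exact_mod_cast hp2
  have e1 : (n : ℂ) ^ (-(1 / 2 : ℂ)) = (p.1 : ℂ) ^ (-(1 / 2 : ℂ)) * (p.2 : ℂ) ^ (-(1 / 2 : ℂ)) := by
    rw [← hp.1]
    push_cast
    rw [Complex.natCast_mul_natCast_cpow]
  have e2 : χ (n : ZMod r) = χ (p.1 : ZMod r) * χ (p.2 : ZMod r) := by
    rw [← hp.1]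
    push_cast
    rw [map_mul]
  have e3 : (p.2 : ℂ) ^ (-(pt r a t)) = (p.2 : ℂ) ^ (-(1 / 2 : ℂ)) *
      (p.2 : ℂ) ^ (-((a / l : ℝ) + (t : ℂ) * I)) := by
    rw [← Complex.cpow_add _ _ hc2]
    congr 1
    unfold pt
    rw [Complex.ofReal_div, hldef]
    ring
  have e4 : (p.1 : ℂ) ^ (-(pt r b t0)) = (p.1 : ℂ) ^ (-(1 / 2 : ℂ)) *
      (p.1 : ℂ) ^ (-((b / l : ℝ) + (t0 : ℂ) * I)) := by
    rw [← Complex.cpow_add _ _ hc1]
    congr 1
    unfold pt
    rw [Complex.ofReal_div, hldef]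
    ring
  simp only [hF]
  rw [e1, e2, e3, e4]
  ring

lemma MoG2_stp_zero {a b x : ℝ} (hab : a < b) (hx : b ≤ x) : stp a b x = 0 := by
  unfold stp
  apply Real.smoothTransition.zero_of_nonpos
  exact div_nonpos_of_nonpos_of_nonneg (by linarith) (by linarith)

lemma MoG2_deriv (r : ℕ) [NeZero r] (χ : DirichletCharacter ℂ r) (s : ℂ) :
    deriv (DD r χ) s = ∑ m ∈ Icc 1 r, (gc (Real.log m / Real.log r) : ℂ) * χ m *
      ((m : ℂ) ^ (-s) * Complex.log m * (-1)) := by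
  have h : HasDerivAt (DD r χ) (∑ m ∈ Icc 1 r, (gc (Real.log m / Real.log r) : ℂ) * χ m *
      ((m : ℂ) ^ (-s) * Complex.log m * (-1))) s := by
    have h1 : DD r χ = fun s => ∑ m ∈ Icc 1 r, (gc (Real.log m / Real.log r) : ℂ) * χ m *
        (m : ℂ) ^ (-s) := rfl
    rw [h1]
    refine HasDerivAt.fun_sum (fun m hm => ?_)
    have hm0 : (m : ℂ) ≠ 0 := by
      have := (mem_Icc.1 hm).1
      exact_mod_cast (by omega : m ≠ 0)
    have h2 := ((hasDerivAt_id s).neg).const_cpow (c := (m : ℂ)) (Or.inl hm0)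
    exact h2.const_mul _
  exact h.deriv

/-- MoG2 (derivative version).
PROOF. `deriv (DD r χ) s = - ∑ gc(log m/l) log m χ(m) m^{-s}` and `log m = l * (log m / l)`; the rest as in `product`. -/
lemma product_deriv (P V : ℝ → ℝ) (hP : ∀ x, 0 ≤ x → P x = stp (1 / 16) (1 / 8) x)
    (hV : ∀ x, 0 ≤ x → V x = x * gc x)
    (r : ℕ) [NeZero r] (hr : 2 ≤ r) (χ : DirichletCharacter ℂ r) (a b t t0 : ℝ) :
    deriv (DD r χ) (pt r a t) * MM r χ (pt r b t0) = ∑ n ∈ Icc 1 ⌊(r : ℝ) ^ (7 / 8 : ℝ)⌋₊,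
      (-(Real.log r : ℂ) * ((n : ℂ) ^ (-(1 / 2 : ℂ))) * aco P V (Real.log r) a b t t0 n) * χ (n : ZMod r) := by
  have hr1 : (1 : ℝ) < r := by exact_mod_cast (by omega : 1 < r)
  have hl : 0 < Real.log r := Real.log_pos hr1
  have hlc : ((Real.log r : ℝ) : ℂ) ≠ 0 := by exact_mod_cast hl.ne'
  have hnn : ∀ m : ℕ, 0 ≤ Real.log m / Real.log r := fun m =>
    div_nonneg (Real.log_natCast_nonneg m) hl.le
  have hcore := MoG2_core P V (fun x hx => by
      rw [hP x (by linarith)]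
      exact MoG2_stp_zero (by norm_num) hx) (fun x hx => by
      rw [hV x (by linarith)]
      have : gc x = 0 := MoG2_stp_zero (by norm_num) hx
      rw [this, mul_zero]) r hr χ a b t t0
  have hR : ∑ n ∈ Icc 1 ⌊(r : ℝ) ^ (7 / 8 : ℝ)⌋₊,
      (-(Real.log r : ℂ) * ((n : ℂ) ^ (-(1 / 2 : ℂ))) * aco P V (Real.log r) a b t t0 n) *
        χ (n : ZMod r) = -(Real.log r : ℂ) * ∑ n ∈ Icc 1 ⌊(r : ℝ) ^ (7 / 8 : ℝ)⌋₊,
      (((n : ℂ) ^ (-(1 / 2 : ℂ))) * aco P V (Real.log r) a b t t0 n) * χ (n : ZMod r) := by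
    rw [mul_sum]
    refine sum_congr rfl (fun n _ => ?_)
    ring
  rw [hR, ← hcore, MoG2_deriv, ← mul_assoc]
  congr 1
  · rw [mul_sum]
    refine sum_congr rfl (fun m _ => ?_)
    rw [hV _ (hnn m), ← Complex.natCast_log, Complex.ofReal_mul, Complex.ofReal_div]
    field_simp
  · unfold MM
    refine sum_congr rfl (fun m _ => ?_)
    rw [hP _ (hnn m)]

end Pool.Agent.SO
end

section

set_option autoImplicit false

namespace Pool.Agent.SO

open Finset Complex MeasureTheory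
open scoped ContDiff

lemma MoI3_stp (a b x : ℝ) (hab : a < b) (hx : x ≤ a) : stp a b x = 1 := by
  unfold stp
  apply Real.smoothTransition.one_of_one_le
  rw [le_div_iff₀ (by linarith)]
  linarith

lemma MoI3_log (l : ℝ) (hl : 0 < l) (n : ℕ) (hn : 1 ≤ n) (h : Real.log n ≤ l / 16) (d : ℕ) (hd : d ∣ n) :
    0 ≤ Real.log d / l ∧ Real.log d / l ≤ 1 / 16 := by
  have hd0 : 0 < d := Nat.pos_of_dvd_of_pos hd (by omega)
  have h1 : (1 : ℝ) ≤ d := by exact_mod_cast hd0
  have h2 : Real.log d ≤ Real.log n := Real.log_le_log (by positivity) (by exact_mod_cast Nat.le_of_dvd (by omega) hd)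
  constructor
  · exact div_nonneg (Real.log_nonneg h1) hl.le
  · rw [div_le_iff₀ hl]; linarith

/-- MoI3. Small `n`, `V = x gc x`: `aco = Λ(n)/l`. -/
lemma aco_small_log (P V : ℝ → ℝ) (hP : ∀ x, 0 ≤ x → P x = stp (1 / 16) (1 / 8) x)
    (hV : ∀ x, 0 ≤ x → V x = x * gc x) (l : ℝ) (hl : 0 < l) (n : ℕ) (hn : 1 ≤ n) (h : Real.log n ≤ l / 16) :
    aco P V l 0 0 0 0 n = ((ArithmeticFunction.vonMangoldt n / l : ℝ) : ℂ) := by
  have e1 : aco P V l 0 0 0 0 n = ((∑ d ∈ n.divisors, (ArithmeticFunction.moebius d : ℝ) *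
      (Real.log (n / d : ℕ) / l) : ℝ) : ℂ) := by
    unfold aco
    push_cast
    refine Finset.sum_congr rfl ?_
    intro d hd
    have hdn := Nat.dvd_of_mem_divisors hd
    obtain ⟨h1, h2⟩ := MoI3_log l hl n hn h d hdn
    obtain ⟨h3, h4⟩ := MoI3_log l hl n hn h (n / d) (Nat.div_dvd_of_dvd hdn)
    have e2 : P (Real.log d / l) = 1 := by
      rw [hP _ h1]; exact MoI3_stp _ _ _ (by norm_num) h2
    have e3 : V (Real.log (n / d : ℕ) / l) = Real.log (n / d : ℕ) / l := by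
      rw [hV _ h3]
      have : gc (Real.log (n / d : ℕ) / l) = 1 := by
        unfold gc; exact MoI3_stp _ _ _ (by norm_num) (by linarith)
      rw [this, mul_one]
    rw [e2, e3]
    simp
  rw [e1]
  congr 1
  have h6 := congrArg (fun f : ArithmeticFunction ℝ => f n) ArithmeticFunction.moebius_mul_log_eq_vonMangoldt
  simp only [ArithmeticFunction.mul_apply, ArithmeticFunction.log_apply] at h6
  rw [← h6, Nat.sum_divisorsAntidiagonal (fun x y => ((ArithmeticFunction.moebius : ArithmeticFunction ℝ) x : ℝ) *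
    Real.log (y : ℝ)), Finset.sum_div]
  refine Finset.sum_congr rfl ?_
  intro d _
  rw [ArithmeticFunction.intCoe_apply]
  ring

end Pool.Agent.SO
end

section

set_option autoImplicit false

namespace Pool.Agent.SO

open Finset Complex MeasureTheory
open scoped ContDiff

/-- The weight. -/
noncomputable def WW (l : ℝ) (A : ℕ) (t0 t : ℝ) : ℝ := (1 + |t|) ^ A * (1 + l * |t - t0|) ^ A

lemma MoG7_int : Integrable (fun w : ℝ => 1 / (1 + |w|) ^ 4) ∧
    ∫ w : ℝ, 1 / (1 + |w|) ^ 4 ≤ 2 := by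
  constructor
  · have h := integrable_one_add_norm (E := ℝ) (μ := volume) (r := 4) (by norm_num)
    refine h.congr (Filter.Eventually.of_forall fun w => ?_)
    have h0 : (0 : ℝ) ≤ 1 + |w| := by positivity
    simp only [Real.norm_eq_abs]
    rw [Real.rpow_neg h0, one_div]
    norm_num
  · have h1 : ∫ w : ℝ, 1 / (1 + |w|) ^ 4 = 2 * ∫ w in Set.Ioi (0 : ℝ), 1 / (1 + w) ^ 4 :=
      integral_comp_abs (f := fun w => 1 / (1 + w) ^ 4)
    have h2 : ∫ w in Set.Ioi (0 : ℝ), 1 / (1 + w) ^ 4 = 0 - (-(1 / 3) * (1 / (1 + 0) ^ 3)) := by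
      refine integral_Ioi_of_hasDerivAt_of_nonneg' (g := fun w => -(1 / 3) * (1 / (1 + w) ^ 3))
        ?_ ?_ ?_
      · intro x hx
        have hx0 : (0 : ℝ) ≤ x := hx
        have hx1 : (1 + x) ≠ 0 := by positivity
        have e1 : HasDerivAt (fun w : ℝ => (1 + w) ^ 3) (3 * (1 + x) ^ 2 * 1) x := by
          have := ((hasDerivAt_id x).const_add 1).fun_pow 3
          simpa using this
        have e2 := ((e1.fun_inv (pow_ne_zero 3 hx1)).const_mul (-(1 / 3)))
        have e3 : (fun w : ℝ => -(1 / 3) * (1 / (1 + w) ^ 3)) =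
            fun w => -(1 / 3) * ((1 + w) ^ 3)⁻¹ := by
          funext w; rw [one_div ((1 + w) ^ 3)]
        rw [e3]
        refine e2.congr_deriv ?_
        field_simp
      · intro x hx
        have hx0 : (0 : ℝ) < x := hx
        positivity
      · have e1 : Filter.Tendsto (fun w : ℝ => (1 + w) ^ 3) Filter.atTop Filter.atTop := by
          refine (Filter.tendsto_pow_atTop (by norm_num)).comp ?_
          exact Filter.tendsto_atTop_add_const_left _ 1 Filter.tendsto_id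
        have e2 := (Filter.Tendsto.inv_tendsto_atTop e1).const_mul (-(1 / 3))
        rw [mul_zero] at e2
        refine e2.congr (fun w => ?_)
        rw [one_div ((1 + w) ^ 3)]
        rfl
    rw [h1, h2]
    norm_num

/-- MoG7 (the weight is stable). `WW(t - w/l) ≤ (1+|w|)^{2A} WW(t)` for `l ≥ 1`, and
`∫ WW(t - w/l)/(1+|w|)^{2A+4} dw ≤ 2 WW(t)` (integrable).
PROOF. `1 + |t - w/l| ≤ (1+|t|)(1+|w|)` and `1 + l|t - w/l - t0| ≤ 1 + l|t-t0| + |w| ≤ (1+l|t-t0|)(1+|w|)`. The integral is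
`≤ WW(t) ∫ (1+|w|)^{-4} ≤ 2 WW(t)`. -/
lemma WW_stable (l : ℝ) (hl : 1 ≤ l) (A : ℕ) (t0 t : ℝ) :
    (∀ w : ℝ, WW l A t0 (t - w / l) ≤ (1 + |w|) ^ (2 * A) * WW l A t0 t) ∧
    Integrable (fun w : ℝ => WW l A t0 (t - w / l) / (1 + |w|) ^ (2 * A + 4)) ∧
    ∫ w : ℝ, WW l A t0 (t - w / l) / (1 + |w|) ^ (2 * A + 4) ≤ 2 * WW l A t0 t := by
  have hl0 : 0 < l := by linarith
  have hW0 : ∀ s, 0 ≤ WW l A t0 s := by
    intro s
    unfold WW
    positivity
  have h1 : ∀ w : ℝ, WW l A t0 (t - w / l) ≤ (1 + |w|) ^ (2 * A) * WW l A t0 t := by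
    intro w
    have a1 : 1 + |t - w / l| ≤ (1 + |t|) * (1 + |w|) := by
      have b1 : |t - w / l| ≤ |t| + |w / l| := abs_sub _ _
      have b2 : |w / l| ≤ |w| := by
        rw [abs_div, abs_of_pos hl0]
        exact div_le_self (abs_nonneg _) hl
      nlinarith [mul_nonneg (abs_nonneg t) (abs_nonneg w)]
    have a2 : 1 + l * |t - w / l - t0| ≤ (1 + l * |t - t0|) * (1 + |w|) := by
      have b1 : |t - w / l - t0| ≤ |t - t0| + |w / l| := by
        have : t - w / l - t0 = (t - t0) - w / l := by ring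
        rw [this]
        exact abs_sub _ _
      have b2 : l * |w / l| = |w| := by
        rw [abs_div, abs_of_pos hl0]
        field_simp
      have b3 : l * |t - w / l - t0| ≤ l * |t - t0| + |w| := by
        calc l * |t - w / l - t0| ≤ l * (|t - t0| + |w / l|) :=
              mul_le_mul_of_nonneg_left b1 hl0.le
          _ = l * |t - t0| + |w| := by rw [mul_add, b2]
      nlinarith [mul_nonneg (mul_nonneg hl0.le (abs_nonneg (t - t0))) (abs_nonneg w)]
    unfold WW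
    calc (1 + |t - w / l|) ^ A * (1 + l * |t - w / l - t0|) ^ A
        ≤ ((1 + |t|) * (1 + |w|)) ^ A * ((1 + l * |t - t0|) * (1 + |w|)) ^ A := by
          gcongr
      _ = (1 + |w|) ^ (2 * A) * ((1 + |t|) ^ A * (1 + l * |t - t0|) ^ A) := by
          rw [mul_pow, mul_pow, two_mul, pow_add]; ring
  have hcont : Continuous (fun w : ℝ => WW l A t0 (t - w / l) / (1 + |w|) ^ (2 * A + 4)) := by
    unfold WW
    refine Continuous.div (by fun_prop) (by fun_prop) (fun w => ?_)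
    positivity
  have h2 : ∀ w : ℝ, WW l A t0 (t - w / l) / (1 + |w|) ^ (2 * A + 4) ≤
      WW l A t0 t * (1 / (1 + |w|) ^ 4) := by
    intro w
    have hp : (0 : ℝ) < 1 + |w| := by positivity
    rw [div_le_iff₀ (by positivity), pow_add]
    have e : WW l A t0 t * (1 / (1 + |w|) ^ 4) * ((1 + |w|) ^ (2 * A) * (1 + |w|) ^ 4) =
        (1 + |w|) ^ (2 * A) * WW l A t0 t := by
      field_simp
    rw [e]
    exact h1 w
  have hint : Integrable (fun w : ℝ => WW l A t0 t * (1 / (1 + |w|) ^ 4)) :=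
    MoG7_int.1.const_mul _
  have hI : Integrable (fun w : ℝ => WW l A t0 (t - w / l) / (1 + |w|) ^ (2 * A + 4)) := by
    refine hint.mono' hcont.aestronglyMeasurable (Filter.Eventually.of_forall fun w => ?_)
    rw [Real.norm_eq_abs, abs_of_nonneg (div_nonneg (hW0 _) (by positivity))]
    exact h2 w
  refine ⟨h1, hI, ?_⟩
  calc ∫ w : ℝ, WW l A t0 (t - w / l) / (1 + |w|) ^ (2 * A + 4)
      ≤ ∫ w : ℝ, WW l A t0 t * (1 / (1 + |w|) ^ 4) := integral_mono hI hint h2
    _ = WW l A t0 t * ∫ w : ℝ, 1 / (1 + |w|) ^ 4 := integral_const_mul _ _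
    _ ≤ WW l A t0 t * 2 := mul_le_mul_of_nonneg_left MoG7_int.2 (hW0 _)
    _ = 2 * WW l A t0 t := mul_comm _ _

end Pool.Agent.SO
end

section

set_option autoImplicit false

namespace Pool.Agent.SO

open Finset Complex MeasureTheory
open scoped ContDiff

/-- MoG8 (contraction principle).
PROOF. Let `S = sup_t Q(t)/WW(t)` (`≤ B₀`, `WW ≥ 1`). Then `Q(t - w/l) ≤ S WW(t - w/l)`, so by `WW_stable`
`Q(t) ≤ E WW(t) + (1/4) S · 2 WW(t)`, hence `S ≤ E + S/2`, `S ≤ 2E`. -/
lemma contraction (l : ℝ) (hl : 1 ≤ l) (A : ℕ) (t0 : ℝ) (Q : ℝ → ℝ) (hQ : Continuous Q) (hQ0 : ∀ t, 0 ≤ Q t)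
    (B₀ E : ℝ) (hB : ∀ t, Q t ≤ B₀ * WW l A t0 t) (hE : 0 ≤ E) (ε : ℝ) (hε0 : 0 ≤ ε) (hε : ε ≤ 1 / 4)
    (h : ∀ t, Q t ≤ E * WW l A t0 t + ε * ∫ w : ℝ, Q (t - w / l) / (1 + |w|) ^ (2 * A + 4)) (t : ℝ) :
    Q t ≤ 2 * E * WW l A t0 t := by
  have hl0 : 0 < l := by linarith
  have hW1 : ∀ s, 1 ≤ WW l A t0 s := by
    intro s
    unfold WW
    have h1 : (1 : ℝ) ≤ (1 + |s|) ^ A := one_le_pow₀ (by linarith [abs_nonneg s])
    have h2 : (1 : ℝ) ≤ (1 + l * |s - t0|) ^ A := by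
      refine one_le_pow₀ ?_
      have := mul_nonneg hl0.le (abs_nonneg (s - t0))
      linarith
    nlinarith
  have hW0 : ∀ s, 0 < WW l A t0 s := fun s => by linarith [hW1 s]
  set S : ℝ := sSup (Set.range fun s => Q s / WW l A t0 s) with hS
  have hbdd : BddAbove (Set.range fun s => Q s / WW l A t0 s) := by
    refine ⟨B₀, ?_⟩
    rintro _ ⟨s, rfl⟩
    simp only
    rw [div_le_iff₀ (hW0 s)]
    exact hB s
  have hle : ∀ s, Q s / WW l A t0 s ≤ S := fun s => le_csSup hbdd ⟨s, rfl⟩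
  have hQS : ∀ s, Q s ≤ S * WW l A t0 s := by
    intro s
    rw [← div_le_iff₀ (hW0 s)]
    exact hle s
  have hS0 : 0 ≤ S := (div_nonneg (hQ0 0) (hW0 0).le).trans (hle 0)
  have key : ∀ s, Q s / WW l A t0 s ≤ E + S / 2 := by
    intro s
    rw [div_le_iff₀ (hW0 s)]
    obtain ⟨-, hI, hI2⟩ := WW_stable l hl A t0 s
    have hcont : Continuous (fun w : ℝ => Q (s - w / l) / (1 + |w|) ^ (2 * A + 4)) := by
      refine Continuous.div (by fun_prop) (by fun_prop) (fun w => ?_)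
      positivity
    have hpt : ∀ w : ℝ, Q (s - w / l) / (1 + |w|) ^ (2 * A + 4) ≤
        S * (WW l A t0 (s - w / l) / (1 + |w|) ^ (2 * A + 4)) := by
      intro w
      rw [← mul_div_assoc]
      exact div_le_div_of_nonneg_right (hQS _) (by positivity)
    have hint : Integrable (fun w : ℝ =>
        S * (WW l A t0 (s - w / l) / (1 + |w|) ^ (2 * A + 4))) := hI.const_mul _
    have hQI : Integrable (fun w : ℝ => Q (s - w / l) / (1 + |w|) ^ (2 * A + 4)) := by
      refine hint.mono' hcont.aestronglyMeasurable (Filter.Eventually.of_forall fun w => ?_)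
      rw [Real.norm_eq_abs, abs_of_nonneg (div_nonneg (hQ0 _) (by positivity))]
      exact hpt w
    have h3 : ∫ w : ℝ, Q (s - w / l) / (1 + |w|) ^ (2 * A + 4) ≤ S * (2 * WW l A t0 s) := by
      calc ∫ w : ℝ, Q (s - w / l) / (1 + |w|) ^ (2 * A + 4)
          ≤ ∫ w : ℝ, S * (WW l A t0 (s - w / l) / (1 + |w|) ^ (2 * A + 4)) :=
            integral_mono hQI hint hpt
        _ = S * ∫ w : ℝ, WW l A t0 (s - w / l) / (1 + |w|) ^ (2 * A + 4) :=
            integral_const_mul _ _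
        _ ≤ S * (2 * WW l A t0 s) := mul_le_mul_of_nonneg_left hI2 hS0
    have h4 : 0 ≤ S * (2 * WW l A t0 s) :=
      mul_nonneg hS0 (mul_nonneg (by norm_num) (hW0 s).le)
    have h5 : ε * ∫ w : ℝ, Q (s - w / l) / (1 + |w|) ^ (2 * A + 4) ≤
        1 / 4 * (S * (2 * WW l A t0 s)) := by
      calc ε * ∫ w : ℝ, Q (s - w / l) / (1 + |w|) ^ (2 * A + 4)
          ≤ ε * (S * (2 * WW l A t0 s)) := mul_le_mul_of_nonneg_left h3 hε0
        _ ≤ 1 / 4 * (S * (2 * WW l A t0 s)) := mul_le_mul_of_nonneg_right hε h4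
    have h6 := h s
    calc Q s ≤ E * WW l A t0 s + 1 / 4 * (S * (2 * WW l A t0 s)) := by linarith
      _ = (E + S / 2) * WW l A t0 s := by ring
  have hS2 : S ≤ E + S / 2 := by
    refine csSup_le (Set.range_nonempty _) ?_
    rintro _ ⟨s, rfl⟩
    exact key s
  have hS3 : S ≤ 2 * E := by linarith
  calc Q t ≤ S * WW l A t0 t := hQS t
    _ ≤ 2 * E * WW l A t0 t := mul_le_mul_of_nonneg_right hS3 (hW0 t).le

end Pool.Agent.SO
end

section

set_option autoImplicit false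

namespace Pool.Agent.SO

open Finset Complex MeasureTheory
open scoped ContDiff

/-- MoE1. Facts on `gc`. -/
lemma gc_facts : ContDiff ℝ ∞ gc ∧ (∀ x, x ≤ 5 / 8 → gc x = 1) ∧ (∀ x, 3 / 4 ≤ x → gc x = 0) ∧
    (∀ x, 0 ≤ gc x ∧ gc x ≤ 1) ∧ (∀ x, x < 5 / 8 → deriv gc x = 0) ∧ (∀ x, 3 / 4 < x → deriv gc x = 0) := by
  have h1 : ∀ x, x ≤ 5 / 8 → gc x = 1 := by
    intro x hx
    unfold gc stp
    apply Real.smoothTransition.one_of_one_le
    rw [le_div_iff₀ (by norm_num)]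
    linarith
  have h2 : ∀ x, 3 / 4 ≤ x → gc x = 0 := by
    intro x hx
    unfold gc stp
    apply Real.smoothTransition.zero_of_nonpos
    exact div_nonpos_of_nonpos_of_nonneg (by linarith) (by norm_num)
  refine ⟨?_, h1, h2, ?_, ?_, ?_⟩
  · have e : gc = fun x => Real.smoothTransition ((3 / 4 - x) / (3 / 4 - 5 / 8)) := by ext x; rfl
    rw [e]
    have h3 : ContDiff ℝ ∞ (fun x : ℝ => (3 / 4 - x) / (3 / 4 - 5 / 8)) := by fun_prop
    exact Real.smoothTransition.contDiff.comp h3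
  · intro x
    unfold gc stp
    exact ⟨Real.smoothTransition.nonneg _, Real.smoothTransition.le_one _⟩
  · intro x hx
    have he : gc =ᶠ[nhds x] (fun _ => (1 : ℝ)) := by
      filter_upwards [Iio_mem_nhds hx] with y hy using h1 y (le_of_lt hy)
    rw [he.deriv_eq]; simp
  · intro x hx
    have he : gc =ᶠ[nhds x] (fun _ => (0 : ℝ)) := by
      filter_upwards [Ioi_mem_nhds hx] with y hy using h2 y (le_of_lt hy)
    rw [he.deriv_eq]; simp

end Pool.Agent.SO
end

section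

set_option autoImplicit false

namespace Pool.Agent.SO

open Finset Complex MeasureTheory
open scoped ContDiff

/-- MoE3. `Hf` is continuous (indeed entire). -/
lemma Hf_continuous : Continuous Hf := by
  obtain ⟨hc, _, _, _, h5, h6⟩ := gc_facts
  have hd : Continuous (deriv gc) := hc.continuous_deriv (by exact_mod_cast le_top)
  have e : Hf = fun z : ℂ => ∫ y in (Set.Icc (5 / 8 : ℝ) (3 / 4)), ((-(deriv gc y) : ℝ) : ℂ) * Complex.exp (-(z * y)) := by
    ext z
    unfold Hf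
    rw [setIntegral_eq_integral_of_forall_compl_eq_zero]
    intro y hy
    have : y < 5 / 8 ∨ 3 / 4 < y := by
      by_contra hcon
      push Not at hcon
      exact hy ⟨hcon.1, hcon.2⟩
    rcases this with h | h
    · rw [h5 y h]; simp
    · rw [h6 y h]; simp
  rw [e]
  refine continuous_parametric_integral_of_continuous ?_ isCompact_Icc
  fun_prop

end Pool.Agent.SO
end

section

set_option autoImplicit false

namespace Pool.Agent.SO

open Finset Complex MeasureTheory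
open scoped ContDiff

lemma MoE2_supp (h : ℝ → ℂ) (hz : ∀ y, y ∉ Set.Icc (5 / 8 : ℝ) (3 / 4) → h y = 0) :
    HasCompactSupport h :=
  HasCompactSupport.intro isCompact_Icc hz

lemma MoE2_deriv (h : ℝ → ℂ) (hz : ∀ y, y ∉ Set.Icc (5 / 8 : ℝ) (3 / 4) → h y = 0) :
    ∀ y, y ∉ Set.Icc (5 / 8 : ℝ) (3 / 4) → deriv h y = 0 := by
  intro y hy
  have h1 : h =ᶠ[nhds y] fun _ => 0 := by
    filter_upwards [(isClosed_Icc.isOpen_compl).mem_nhds (Set.mem_compl hy)] with w hw
    exact hz w hw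
  rw [h1.deriv_eq]
  simp

lemma MoE2_bound (h : ℝ → ℂ) (hc : Continuous h)
    (hz : ∀ y, y ∉ Set.Icc (5 / 8 : ℝ) (3 / 4) → h y = 0) :
    ∃ M : ℝ, 0 ≤ M ∧ ∀ z : ℂ, 0 ≤ z.re →
      ‖∫ y : ℝ, h y * Complex.exp (-(z * y))‖ ≤ M * Real.exp (-(5 / 8 * z.re)) := by
  obtain ⟨C, hC⟩ := (isCompact_Icc (a := (5 / 8 : ℝ)) (b := 3 / 4)).exists_bound_of_continuousOn
    hc.continuousOn
  have hC0 : 0 ≤ C := (norm_nonneg _).trans (hC (5 / 8) ⟨le_rfl, by norm_num⟩)
  refine ⟨C * (volume.real (Set.Icc (5 / 8 : ℝ) (3 / 4))), by positivity, ?_⟩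
  intro z hzr
  have h1 : ∀ y, y ∉ Set.Icc (5 / 8 : ℝ) (3 / 4) → h y * Complex.exp (-(z * y)) = 0 := by
    intro y hy
    rw [hz y hy, zero_mul]
  rw [← setIntegral_eq_integral_of_forall_compl_eq_zero h1]
  have h2 : ∀ y ∈ Set.Icc (5 / 8 : ℝ) (3 / 4),
      ‖h y * Complex.exp (-(z * y))‖ ≤ C * Real.exp (-(5 / 8 * z.re)) := by
    intro y hy
    rw [norm_mul, Complex.norm_exp]
    apply mul_le_mul (hC y hy) _ (Real.exp_pos _).le hC0
    apply Real.exp_le_exp.2
    have h3 : (-(z * (y : ℂ))).re = -(z.re * y) := by simp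
    rw [h3]
    nlinarith [hy.1]
  have h3 := norm_setIntegral_le_of_norm_le_const
    (measure_Icc_lt_top (a := (5 / 8 : ℝ)) (b := 3 / 4) (μ := volume)) h2
  refine h3.trans (le_of_eq ?_)
  ring

lemma MoE2_step (h : ℝ → ℂ) (hs : ContDiff ℝ ∞ h)
    (hz : ∀ y, y ∉ Set.Icc (5 / 8 : ℝ) (3 / 4) → h y = 0) (z : ℂ) :
    z * ∫ y : ℝ, h y * Complex.exp (-(z * y)) = ∫ y : ℝ, deriv h y * Complex.exp (-(z * y)) := by
  have hsupp := MoE2_supp h hz
  have hd := (contDiff_infty_iff_deriv.1 hs)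
  have hexp : Continuous fun y : ℝ => Complex.exp (-(z * y)) := by fun_prop
  have hu : ∀ y, HasDerivAt h (deriv h y) y := fun y => (hd.1 y).hasDerivAt
  have hv : ∀ y : ℝ, HasDerivAt (fun y : ℝ => Complex.exp (-(z * y)))
      (Complex.exp (-(z * y)) * (-z)) y := by
    intro y
    have h1 : HasDerivAt (fun y : ℝ => -(z * (y : ℂ))) (-z) y := by
      have h2 := ((Complex.ofRealCLM.hasDerivAt (x := y)).const_mul z).fun_neg
      simpa using h2
    exact h1.cexp
  have hint1 : Integrable (fun y : ℝ => h y * (Complex.exp (-(z * y)) * (-z))) :=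
    (hs.continuous.mul (hexp.mul continuous_const)).integrable_of_hasCompactSupport
      (hsupp.mul_right)
  have hint2 : Integrable (fun y : ℝ => deriv h y * Complex.exp (-(z * y))) :=
    (hd.2.continuous.mul hexp).integrable_of_hasCompactSupport
      ((MoE2_supp _ (MoE2_deriv h hz)).mul_right)
  have hint3 : Integrable (fun y : ℝ => h y * Complex.exp (-(z * y))) :=
    (hs.continuous.mul hexp).integrable_of_hasCompactSupport (hsupp.mul_right)
  have key := integral_mul_deriv_eq_deriv_mul_of_integrable (fun y _ => hu y) (fun y _ => hv y)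
    hint1 hint2 hint3
  have h3 : ∫ y : ℝ, h y * (Complex.exp (-(z * y)) * (-z)) =
      -(z * ∫ y : ℝ, h y * Complex.exp (-(z * y))) := by
    rw [← integral_const_mul, ← integral_neg]
    congr 1
    funext y
    ring
  rw [h3] at key
  exact neg_injective key

lemma MoE2_gen (k : ℕ) : ∀ (h : ℝ → ℂ), ContDiff ℝ ∞ h →
    (∀ y, y ∉ Set.Icc (5 / 8 : ℝ) (3 / 4) → h y = 0) →
    ∃ M : ℝ, 0 ≤ M ∧ ∀ z : ℂ, 0 ≤ z.re →
      ‖z‖ ^ k * ‖∫ y : ℝ, h y * Complex.exp (-(z * y))‖ ≤ M * Real.exp (-(5 / 8 * z.re)) := by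
  induction k with
  | zero =>
    intro h hs hz
    obtain ⟨M, hM0, hM⟩ := MoE2_bound h hs.continuous hz
    exact ⟨M, hM0, fun z hzr => by simpa using hM z hzr⟩
  | succ k ih =>
    intro h hs hz
    obtain ⟨M, hM0, hM⟩ := ih (deriv h) (contDiff_infty_iff_deriv.1 hs).2 (MoE2_deriv h hz)
    refine ⟨M, hM0, fun z hzr => ?_⟩
    have h1 := hM z hzr
    rw [← MoE2_step h hs hz z, norm_mul] at h1
    rw [pow_succ, mul_assoc]
    exact h1

/-- MoE2. `|Hf(z)| ≤ C_k e^{-5 Re z/8} (1 + |Im z|)^{-k}` for `Re z ≥ 0`.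
PROOF. `η = -gc'` is smooth, supported in `[5/8, 3/4]`. Integration by parts `k` times (no boundary terms):
`z^k Hf(z) = ∫ η^{(k)}(y) e^{-zy} dy`, so `|z|^k |Hf(z)| ≤ e^{-5 Re z/8} sup|η^{(k)}|`, also for `k = 0`, and
`(1+|Im z|)^k ≤ 2^k (1 + |z|^k)`. -/
lemma Hf_bound (k : ℕ) : ∃ C : ℝ, 0 ≤ C ∧ ∀ z : ℂ, 0 ≤ z.re →
    ‖Hf z‖ ≤ C * Real.exp (-(5 / 8 * z.re)) / (1 + |z.im|) ^ k := by
  obtain ⟨hgs, -, -, -, hlo, hhi⟩ := gc_facts
  set h : ℝ → ℂ := fun y => ((-(deriv gc y) : ℝ) : ℂ) with hh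
  have hs : ContDiff ℝ ∞ h := by
    have h1 : ContDiff ℝ ∞ (fun y => -(deriv gc y)) := (contDiff_infty_iff_deriv.1 hgs).2.neg
    exact Complex.ofRealCLM.contDiff.comp h1
  have hz : ∀ y, y ∉ Set.Icc (5 / 8 : ℝ) (3 / 4) → h y = 0 := by
    intro y hy
    simp only [hh]
    rcases lt_or_ge y (5 / 8) with h1 | h1
    · rw [hlo y h1]; simp
    · have h2 : 3 / 4 < y := by
        by_contra h3
        exact hy ⟨h1, not_lt.1 h3⟩
      rw [hhi y h2]; simp
  obtain ⟨M0, hM0, hb0⟩ := MoE2_gen 0 h hs hz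
  obtain ⟨M1, hM1, hb1⟩ := MoE2_gen k h hs hz
  refine ⟨2 ^ k * (M0 + M1), by positivity, ?_⟩
  intro z hzr
  have h0 := hb0 z hzr
  have h1 := hb1 z hzr
  have hHf : Hf z = ∫ y : ℝ, h y * Complex.exp (-(z * y)) := rfl
  rw [← hHf] at h0 h1
  rw [pow_zero, one_mul] at h0
  rw [le_div_iff₀ (by positivity)]
  have h2 : (1 + |z.im|) ^ k ≤ 2 ^ k * (1 + ‖z‖ ^ k) := by
    have h3 : |z.im| ≤ ‖z‖ := Complex.abs_im_le_norm z
    rcases le_total ‖z‖ 1 with h4 | h4
    · have h5 : (1 + |z.im|) ^ k ≤ 2 ^ k :=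
        pow_le_pow_left₀ (by positivity) (by linarith) k
      have h6 : (2 : ℝ) ^ k ≤ 2 ^ k * (1 + ‖z‖ ^ k) := by
        have : (0 : ℝ) ≤ ‖z‖ ^ k := by positivity
        have : (0 : ℝ) < 2 ^ k := by positivity
        nlinarith
      linarith
    · have h5 : (1 + |z.im|) ^ k ≤ (2 * ‖z‖) ^ k :=
        pow_le_pow_left₀ (by positivity) (by linarith) k
      rw [mul_pow] at h5
      have : (0 : ℝ) < 2 ^ k := by positivity
      nlinarith
  have hE : 0 < Real.exp (-(5 / 8 * z.re)) := Real.exp_pos _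
  calc ‖Hf z‖ * (1 + |z.im|) ^ k ≤ ‖Hf z‖ * (2 ^ k * (1 + ‖z‖ ^ k)) :=
        mul_le_mul_of_nonneg_left h2 (norm_nonneg _)
    _ = 2 ^ k * (‖Hf z‖ + ‖z‖ ^ k * ‖Hf z‖) := by ring
    _ ≤ 2 ^ k * (M0 * Real.exp (-(5 / 8 * z.re)) + M1 * Real.exp (-(5 / 8 * z.re))) := by
        apply mul_le_mul_of_nonneg_left _ (by positivity)
        linarith
    _ = 2 ^ k * (M0 + M1) * Real.exp (-(5 / 8 * z.re)) := by ring

end Pool.Agent.SO
end

section

set_option autoImplicit false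

namespace Pool.Agent.SO

open Finset Complex MeasureTheory
open scoped ContDiff FourierTransform

/-- the damped cut-off, with an arbitrary complex exponent -/
lemma MoE4_int (z : ℂ) (hz : 0 < z.re) :
    Integrable (fun y : ℝ => (1 - (gc y : ℂ)) * Complex.exp (-(z * y))) := by
  obtain ⟨hs, h1, h0, hb, -, -⟩ := gc_facts
  have hmaj : Integrable (Set.indicator (Set.Ioi (0 : ℝ)) fun y : ℝ => Real.exp (-z.re * y)) := by
    rw [integrable_indicator_iff measurableSet_Ioi]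
    exact exp_neg_integrableOn_Ioi 0 hz
  refine hmaj.mono' ?_ (Filter.Eventually.of_forall fun y => ?_)
  · refine Continuous.aestronglyMeasurable ?_
    refine (continuous_const.sub (Complex.continuous_ofReal.comp hs.continuous)).mul ?_
    exact Complex.continuous_exp.comp (continuous_const.mul Complex.continuous_ofReal).neg
  · by_cases hy : y ≤ 0
    · have : gc y = 1 := h1 y (by linarith)
      rw [this]
      simp only [Complex.ofReal_one, sub_self, zero_mul, norm_zero]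
      exact Set.indicator_nonneg (fun _ _ => (Real.exp_pos _).le) _
    · rw [not_le] at hy
      rw [Set.indicator_of_mem (Set.mem_Ioi.2 hy), norm_mul, Complex.norm_exp]
      have h2 : ‖(1 - (gc y : ℂ))‖ ≤ 1 := by
        have e : (1 - (gc y : ℂ)) = ((1 - gc y : ℝ) : ℂ) := by push_cast; rfl
        rw [e, Complex.norm_real, Real.norm_of_nonneg (by linarith [(hb y).2])]
        linarith [(hb y).1]
      have h3 : (-(z * y)).re = -z.re * y := by simp
      rw [h3]
      exact mul_le_of_le_one_left (Real.exp_pos _).le h2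

/-- the Laplace transform of `1 - gc` -/
lemma MoE4_laplace (z : ℂ) (hz : 0 < z.re) :
    ∫ y : ℝ, (1 - (gc y : ℂ)) * Complex.exp (-(z * y)) = Hf z / z := by
  obtain ⟨hs, h1, h0, hb, hd1, hd2⟩ := gc_facts
  have hz0 : z ≠ 0 := fun h => by rw [h] at hz; simp at hz
  have hdiff : Differentiable ℝ gc := hs.differentiable (by simp)
  have hu : ∀ x : ℝ, HasDerivAt (fun y : ℝ => (1 - (gc y : ℂ))) (((-(deriv gc x) : ℝ)) : ℂ) x := by
    intro x
    have h2 := ((hdiff x).hasDerivAt).ofReal_comp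
    have h3 := h2.const_sub 1
    rw [Complex.ofReal_neg]
    exact h3
  have hv : ∀ x : ℝ, HasDerivAt (fun y : ℝ => -(Complex.exp (-(z * y)) / z))
      (Complex.exp (-(z * x))) x := by
    intro x
    have h2 : HasDerivAt (fun y : ℝ => -(z * (y : ℂ))) (-(z * 1)) x :=
      ((Complex.ofRealCLM.hasDerivAt (x := x)).const_mul z).neg
    have h3 := (h2.cexp.div_const z).neg
    have e : -(Complex.exp (-(z * (x : ℂ))) * -(z * 1) / z) = Complex.exp (-(z * x)) := by
      field_simp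
    rw [e] at h3
    exact h3
  have i1 := MoE4_int z hz
  have hdc : Continuous (deriv gc) := hs.continuous_deriv (by simp)
  have hcs : HasCompactSupport (fun y : ℝ => ((-(deriv gc y) : ℝ) : ℂ)) := by
    refine HasCompactSupport.intro (K := Set.Icc (5 / 8) (3 / 4)) isCompact_Icc fun y hy => ?_
    rw [Set.mem_Icc, not_and_or, not_le, not_le] at hy
    rcases hy with hy | hy
    · rw [hd1 y hy]; simp
    · rw [hd2 y hy]; simp
  have hec : Continuous (fun y : ℝ => Complex.exp (-(z * y))) :=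
    Complex.continuous_exp.comp (continuous_const.mul Complex.continuous_ofReal).neg
  have i2 : Integrable (fun y : ℝ => ((-(deriv gc y) : ℝ) : ℂ) * -(Complex.exp (-(z * y)) / z)) := by
    refine Continuous.integrable_of_hasCompactSupport ?_ hcs.mul_right
    exact (Complex.continuous_ofReal.comp hdc.neg).mul (hec.div_const z).neg
  have i3 : Integrable (fun y : ℝ => (1 - (gc y : ℂ)) * -(Complex.exp (-(z * y)) / z)) := by
    have h2 := i1.mul_const (-(1 / z))
    refine h2.congr (Filter.Eventually.of_forall fun y => ?_)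
    dsimp only
    ring
  have h4 := integral_mul_deriv_eq_deriv_mul_of_integrable (fun x _ => hu x) (fun x _ => hv x)
    i1 i2 i3
  rw [h4]
  have h5 : (fun x : ℝ => ((-(deriv gc x) : ℝ) : ℂ) * -(Complex.exp (-(z * x)) / z)) =
      fun x : ℝ => (((-(deriv gc x) : ℝ) : ℂ) * Complex.exp (-(z * x))) * (-(1 / z)) := by
    funext x
    ring
  rw [h5, integral_mul_const]
  unfold Hf
  ring

/-- MoE4 (inverse Laplace transform). For `c > 0` and real `x`:
`(1/2π) ∫ Hf(c+iw)/(c+iw) e^{(c+iw)x} dw = 1 - gc x`.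
PROOF. Let `G(y) = (1 - gc y) e^{-cy}`: continuous, zero for `y ≤ 5/8`, `e^{-cy}` for `y ≥ 3/4`: integrable. Its Fourier
transform is `∫ G(y) e^{-iwy} dy = Hf(c+iw)/(c+iw)` (integrate by parts: `(1-gc)' = η`, boundary terms vanish), which is
integrable by `Hf_bound 2` and `|c+iw| ≥ c`. Fourier inversion (`MeasureTheory.Integrable.fourierInv_fourier_eq` /
`Continuous.fourierInv_fourier_eq`, rescaled by `2π`) at `x`, multiply by `e^{cx}`. -/
lemma laplace_inv (c : ℝ) (hc : 0 < c) (x : ℝ) :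
    (1 / (2 * Real.pi) : ℂ) * ∫ w : ℝ, Hf (c + w * I) / (c + w * I) * Complex.exp ((c + w * I) * x)
      = 1 - (gc x : ℂ) := by
  obtain ⟨hs, -, -, -, -, -⟩ := gc_facts
  set G : ℝ → ℂ := fun y => (1 - (gc y : ℂ)) * Complex.exp (-((c : ℂ) * y)) with hG
  have hGc : Continuous G := by
    refine (continuous_const.sub (Complex.continuous_ofReal.comp hs.continuous)).mul ?_
    exact Complex.continuous_exp.comp (continuous_const.mul Complex.continuous_ofReal).neg
  have hGi : Integrable G := MoE4_int (c : ℂ) (by simpa using hc)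
  have hFG : ∀ ξ : ℝ, 𝓕 G ξ = Hf (c + (2 * Real.pi * ξ : ℝ) * I) / (c + (2 * Real.pi * ξ : ℝ) * I) := by
    intro ξ
    rw [Real.fourier_real_eq_integral_exp_smul, ← MoE4_laplace _ (by simpa using hc)]
    refine integral_congr_ae (Filter.Eventually.of_forall fun y => ?_)
    dsimp only
    rw [smul_eq_mul, hG]
    dsimp only
    rw [mul_left_comm, ← Complex.exp_add]
    congr 2
    push_cast
    ring
  have hFc : Continuous (𝓕 G) :=
    VectorFourier.fourierIntegral_continuous Real.continuous_fourierChar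
      (by exact continuous_inner) hGi
  obtain ⟨C, hC, hCb⟩ := Hf_bound 2
  have hFi : Integrable (𝓕 G) := by
    have hmaj : Integrable (fun ξ : ℝ => C / c * (1 + ξ ^ 2)⁻¹) :=
      integrable_inv_one_add_sq.const_mul _
    refine hmaj.mono' hFc.aestronglyMeasurable (Filter.Eventually.of_forall fun ξ => ?_)
    rw [hFG, norm_div]
    have h1 := hCb (c + (2 * Real.pi * ξ : ℝ) * I) (by simpa using hc.le)
    have h2 : c ≤ ‖(c : ℂ) + (2 * Real.pi * ξ : ℝ) * I‖ := by
      have := Complex.re_le_norm ((c : ℂ) + (2 * Real.pi * ξ : ℝ) * I)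
      simpa using this
    have h3 : ((c : ℂ) + (2 * Real.pi * ξ : ℝ) * I).re = c := by simp
    have h4 : ((c : ℂ) + (2 * Real.pi * ξ : ℝ) * I).im = 2 * Real.pi * ξ := by simp
    rw [h3, h4] at h1
    have h5 : Real.exp (-(5 / 8 * c)) ≤ 1 := Real.exp_le_one_iff.2 (by linarith)
    have h6 : 1 + ξ ^ 2 ≤ (1 + |2 * Real.pi * ξ|) ^ 2 := by
      have hpi := Real.pi_gt_three
      have h7 : |ξ| ≤ |2 * Real.pi * ξ| := by
        rw [abs_mul, abs_of_pos (by positivity : (0 : ℝ) < 2 * Real.pi)]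
        nlinarith [abs_nonneg ξ]
      have h8 : ξ ^ 2 = |ξ| ^ 2 := (sq_abs ξ).symm
      rw [h8]
      nlinarith [abs_nonneg ξ, abs_nonneg (2 * Real.pi * ξ)]
    have h9 : ‖Hf (c + (2 * Real.pi * ξ : ℝ) * I)‖ ≤ C / (1 + ξ ^ 2) := by
      refine h1.trans ?_
      refine div_le_div₀ hC ?_ (by positivity) h6
      exact mul_le_of_le_one_right hC h5
    calc ‖Hf (c + (2 * Real.pi * ξ : ℝ) * I)‖ / ‖(c : ℂ) + (2 * Real.pi * ξ : ℝ) * I‖
        ≤ (C / (1 + ξ ^ 2)) / c := div_le_div₀ (by positivity) h9 hc h2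
      _ = C / c * (1 + ξ ^ 2)⁻¹ := by ring
  have hinv := congrFun (hGc.fourierInv_fourier_eq hGi hFi) x
  rw [Real.fourierInv_eq'] at hinv
  -- change of variables
  have hcv := Measure.integral_comp_mul_left
    (fun w : ℝ => Hf (c + w * I) / (c + w * I) * Complex.exp ((c + w * I) * x)) (2 * Real.pi)
  have hpos : (0 : ℝ) < 2 * Real.pi := by positivity
  rw [abs_of_pos (inv_pos.2 hpos), Complex.real_smul] at hcv
  have h10 : ∫ ξ : ℝ, Hf (c + (2 * Real.pi * ξ : ℝ) * I) / (c + (2 * Real.pi * ξ : ℝ) * I) *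
      Complex.exp ((c + (2 * Real.pi * ξ : ℝ) * I) * x) =
      Complex.exp ((c : ℂ) * x) * ∫ v : ℝ, Complex.exp ((↑(2 * Real.pi * inner ℝ v x) * I)) • 𝓕 G v := by
    rw [← integral_const_mul]
    refine integral_congr_ae (Filter.Eventually.of_forall fun ξ => ?_)
    dsimp only
    rw [hFG, smul_eq_mul, ← mul_assoc, ← Complex.exp_add, mul_comm]
    congr 2
    rw [RCLike.inner_apply]
    push_cast
    simp only [conj_trivial]
    ring
  have h11 : (1 / (2 * Real.pi) : ℂ) = (((2 * Real.pi)⁻¹ : ℝ) : ℂ) := by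
    push_cast
    rw [one_div]
  rw [h11, ← hcv, h10, hinv, hG]
  dsimp only
  rw [mul_left_comm, ← Complex.exp_add]
  simp

end Pool.Agent.SO
end

section

set_option autoImplicit false

namespace Pool.Agent.SO

open Finset Complex MeasureTheory
open scoped ContDiff

lemma MoE5_int : Integrable (fun w : ℝ => 1 / (1 + |w|) ^ 2) := by
  have h := integrable_one_add_norm (E := ℝ) (μ := volume) (r := 2) (by simp)
  refine h.congr (Filter.Eventually.of_forall fun w => ?_)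
  have h1 : (0 : ℝ) < 1 + |w| := by positivity
  show (1 + ‖w‖) ^ (-2 : ℝ) = 1 / (1 + |w|) ^ 2
  rw [Real.norm_eq_abs, Real.rpow_neg h1.le, one_div]
  congr 1
  exact_mod_cast Real.rpow_natCast (1 + |w|) 2

lemma MoE5_ne (c : ℝ) (hc : 0 < c) (w : ℝ) : (c : ℂ) + w * I ≠ 0 := by
  intro h
  have h1 : ((c : ℂ) + w * I).re = c := by simp
  rw [h] at h1
  simp at h1
  linarith

lemma MoE5_cont (c : ℝ) (hc : 0 < c) :
    Continuous fun w : ℝ => Hf (c + w * I) / (c + w * I) := by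
  apply Continuous.div
  · exact Hf_continuous.comp (by fun_prop)
  · fun_prop
  · exact MoE5_ne c hc

lemma MoE5_Hint (c : ℝ) (hc : 0 < c) :
    Integrable fun w : ℝ => Hf (c + w * I) / (c + w * I) := by
  obtain ⟨C, hC0, hC⟩ := Hf_bound 2
  refine Integrable.mono' (MoE5_int.const_mul (C / c)) (MoE5_cont c hc).aestronglyMeasurable
    (Filter.Eventually.of_forall fun w => ?_)
  have h1 := hC (c + w * I) (by simp; exact hc.le)
  have hre : ((c : ℂ) + w * I).re = c := by simp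
  have him : ((c : ℂ) + w * I).im = w := by simp
  rw [hre, him] at h1
  have h2 : Real.exp (-(5 / 8 * c)) ≤ 1 := by
    rw [Real.exp_le_one_iff]
    linarith
  have h3 : c ≤ ‖(c : ℂ) + w * I‖ := by
    have := Complex.abs_re_le_norm ((c : ℂ) + w * I)
    rw [hre, abs_of_pos hc] at this
    exact this
  have hpos : (0 : ℝ) < (1 + |w|) ^ 2 := by positivity
  have h4 : ‖Hf (c + w * I)‖ ≤ C / (1 + |w|) ^ 2 := by
    refine h1.trans ?_
    apply div_le_div_of_nonneg_right _ hpos.le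
    exact mul_le_of_le_one_right hC0 h2
  rw [norm_div]
  calc ‖Hf (c + w * I)‖ / ‖(c : ℂ) + w * I‖ ≤ (C / (1 + |w|) ^ 2) / c :=
        div_le_div₀ (by positivity) h4 hc h3
    _ = C / c * (1 / (1 + |w|) ^ 2) := by ring

/-- MoE5 (the identity for large `Re s`). If `Re s - c / log r > 1`:
`L(s) = DD(s) + (1/2π) ∫ Hf(c+iw)/(c+iw) L(s - (c+iw)/log r) dw`.
PROOF. `L(s) = ∑_{m≥1} χ(m) m^{-s}` (`LFunction_eq_LSeries`, absolutely convergent). `DD(s) = ∑_m gc(log m/l) χ(m) m^{-s}`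
over all `m ≥ 1` (terms `m > r`, indeed `log m ≥ 3l/4`, vanish). So
`L - DD = ∑ χ(m) m^{-s} (1 - gc(log m/l))`, insert `laplace_inv` with `x = log m/l` (`l = log r > 0`):
`e^{(c+iw) log m/l} = m^{(c+iw)/l}`. Exchange sum and integral (`∑ m^{-Re s + c/l} < ∞`, `∫ |Hf/(c+iw)| < ∞`:
`integral_tsum` / `hasSum_integral_of_summable_integral_norm`). -/
lemma split_large (r : ℕ) [NeZero r] (hr : 2 ≤ r) (χ : DirichletCharacter ℂ r) (s : ℂ) (c : ℝ) (hc : 0 < c)
    (hs : 1 < s.re - c / Real.log r) :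
    χ.LFunction s = DD r χ s + (1 / (2 * Real.pi) : ℂ) * ∫ w : ℝ, Hf (c + w * I) / (c + w * I) *
      χ.LFunction (s - (c + w * I) / (Real.log r : ℂ)) := by
  have hl : 0 < Real.log r := Real.log_pos (by exact_mod_cast (by omega : 1 < r))
  set l := Real.log r with hldef
  set H : ℝ → ℂ := fun w => Hf (c + w * I) / (c + w * I) with hH
  have hHint : Integrable H := MoE5_Hint c hc
  have hHc : Continuous H := MoE5_cont c hc
  have hlne : (l : ℂ) ≠ 0 := by exact_mod_cast hl.ne'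
  have hre : ∀ w : ℝ, (s - (c + w * I) / (l : ℂ)).re = s.re - c / l := by
    intro w
    rw [Complex.sub_re, Complex.div_ofReal_re]
    simp
  set a : ℕ → ℝ → ℂ := fun n w => H w * LSeries.term (fun n => χ n) (s - (c + w * I) / (l : ℂ)) n
    with ha
  have ha_eq : ∀ n w, a n w = LSeries.term (fun n => χ n) s n *
      (H w * Complex.exp ((c + w * I) * ((Real.log n / l : ℝ) : ℂ))) := by
    intro n w
    simp only [ha]
    rcases Nat.eq_zero_or_pos n with h0 | h0
    · rw [h0, LSeries.term_zero, LSeries.term_zero, mul_zero, zero_mul]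
    · have hn0 : (n : ℂ) ≠ 0 := by exact_mod_cast h0.ne'
      rw [LSeries.term_of_ne_zero h0.ne', LSeries.term_of_ne_zero h0.ne',
        Complex.cpow_sub _ _ hn0]
      have h1 : (n : ℂ) ^ ((c + w * I) / (l : ℂ)) =
          Complex.exp ((c + w * I) * ((Real.log n / l : ℝ) : ℂ)) := by
        rw [Complex.cpow_def_of_ne_zero hn0, ← Complex.natCast_log]
        congr 1
        push_cast
        field_simp
      rw [h1]
      have h2 : (n : ℂ) ^ s ≠ 0 := by
        rw [Complex.cpow_def_of_ne_zero hn0]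
        exact Complex.exp_ne_zero _
      have h3 := Complex.exp_ne_zero ((c + w * I) * ((Real.log n / l : ℝ) : ℂ))
      field_simp
  have hexpint : ∀ x : ℝ, Integrable fun w : ℝ => H w * Complex.exp ((c + w * I) * (x : ℂ)) := by
    intro x
    refine Integrable.mono' (hHint.norm.mul_const (Real.exp (c * x)))
      (hHc.mul (by fun_prop)).aestronglyMeasurable (Filter.Eventually.of_forall fun w => ?_)
    rw [norm_mul, Complex.norm_exp]
    apply mul_le_mul_of_nonneg_left _ (norm_nonneg _)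
    apply Real.exp_le_exp.2
    simp
  have ha_int : ∀ n, Integrable (a n) := by
    intro n
    have h1 : a n = fun w => LSeries.term (fun n => χ n) s n *
      (H w * Complex.exp ((c + w * I) * ((Real.log n / l : ℝ) : ℂ))) := funext (ha_eq n)
    rw [h1]
    exact (hexpint _).const_mul _
  have hnorm : ∀ n w, ‖a n w‖ ≤ ‖H w‖ * (n : ℝ) ^ (-(s.re - c / l)) := by
    intro n w
    simp only [ha]
    rw [norm_mul]
    apply mul_le_mul_of_nonneg_left _ (norm_nonneg _)
    rcases Nat.eq_zero_or_pos n with h0 | h0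
    · rw [h0, LSeries.term_zero, norm_zero]
      exact Real.rpow_nonneg (Nat.cast_nonneg 0) _
    · rw [LSeries.term_of_ne_zero h0.ne', norm_div, Complex.norm_natCast_cpow_of_pos h0, hre,
        Real.rpow_neg (Nat.cast_nonneg n), ← one_div]
      apply div_le_div_of_nonneg_right (χ.norm_le_one _) (by positivity)
  have hsum : Summable fun n => ∫ w, ‖a n w‖ := by
    have h1 : Summable fun n : ℕ => (∫ w, ‖H w‖) * (n : ℝ) ^ (-(s.re - c / l)) :=
      (Real.summable_nat_rpow.2 (by linarith)).mul_left _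
    refine Summable.of_nonneg_of_le (fun n => integral_nonneg fun w => norm_nonneg _) (fun n => ?_) h1
    rw [← integral_mul_const]
    exact integral_mono (ha_int n).norm (hHint.norm.mul_const _) (hnorm n)
  have hHS := hasSum_integral_of_summable_integral_norm ha_int hsum
  have hinner : ∀ w : ℝ, ∑' n, a n w = H w * χ.LFunction (s - (c + w * I) / (l : ℂ)) := by
    intro w
    simp only [ha]
    rw [tsum_mul_left, DirichletCharacter.LFunction_eq_LSeries χ (by rw [hre]; exact hs)]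
    rfl
  have hval : ∀ n, ∫ w, a n w = LSeries.term (fun n => χ n) s n *
      ((2 * Real.pi : ℂ) * (1 - (gc (Real.log n / l) : ℂ))) := by
    intro n
    have h1 : ∫ w, a n w = ∫ w, LSeries.term (fun n => χ n) s n *
      (H w * Complex.exp ((c + w * I) * ((Real.log n / l : ℝ) : ℂ))) := by
      congr 1
      exact funext (ha_eq n)
    rw [h1, integral_const_mul]
    congr 1
    have h2 := laplace_inv c hc (Real.log n / l)
    have hpi : (2 * Real.pi : ℂ) ≠ 0 := by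
      have := Real.pi_ne_zero
      exact_mod_cast (by positivity : (2 * Real.pi : ℝ) ≠ 0)
    rw [← h2, ← mul_assoc, mul_one_div_cancel hpi, one_mul]
  have hI : ∫ w : ℝ, H w * χ.LFunction (s - (c + w * I) / (l : ℂ)) =
      ∑' n, LSeries.term (fun n => χ n) s n * ((2 * Real.pi : ℂ) * (1 - (gc (Real.log n / l) : ℂ))) := by
    have h1 : ∫ w : ℝ, H w * χ.LFunction (s - (c + w * I) / (l : ℂ)) = ∫ w, ∑' n, a n w := by
      congr 1
      funext w
      exact (hinner w).symm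
    rw [h1, ← hHS.tsum_eq]
    exact tsum_congr hval
  have hcl : 0 < c / l := by positivity
  have hsre : 1 < s.re := by linarith
  have hLsum : Summable fun n => LSeries.term (fun n => χ n) s n :=
    DirichletCharacter.LSeriesSummable_of_one_lt_re χ hsre
  have hLs : χ.LFunction s = ∑' n, LSeries.term (fun n => χ n) s n := by
    rw [DirichletCharacter.LFunction_eq_LSeries χ hsre]
    rfl
  -- the finite part
  obtain ⟨-, -, hgc0, -, -, -⟩ := gc_facts
  have hfin : ∀ n ∉ Icc 1 r, LSeries.term (fun n => χ n) s n * (gc (Real.log n / l) : ℂ) = 0 := by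
    intro n hn
    rcases Nat.eq_zero_or_pos n with h0 | h0
    · rw [h0, LSeries.term_zero, zero_mul]
    · have h1 : r < n := by
        by_contra h2
        exact hn (Finset.mem_Icc.2 ⟨h0, not_lt.1 h2⟩)
      have h2 : 3 / 4 ≤ Real.log n / l := by
        have h3 : l ≤ Real.log n := by
          rw [hldef]
          apply Real.log_le_log
          · exact_mod_cast (by omega : 0 < r)
          · exact_mod_cast h1.le
        rw [le_div_iff₀ hl]
        linarith
      rw [hgc0 _ h2]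
      simp
  have hDD : ∑' n, LSeries.term (fun n => χ n) s n * (gc (Real.log n / l) : ℂ) = DD r χ s := by
    rw [tsum_eq_sum hfin]
    unfold DD
    apply Finset.sum_congr rfl
    intro n hn
    have h0 : 0 < n := (Finset.mem_Icc.1 hn).1
    rw [LSeries.term_of_ne_zero h0.ne', Complex.cpow_neg]
    ring
  have hDsum : Summable fun n => LSeries.term (fun n => χ n) s n * (gc (Real.log n / l) : ℂ) :=
    summable_of_ne_finset_zero hfin
  have hsplit : (1 / (2 * Real.pi) : ℂ) * ∑' n, LSeries.term (fun n => χ n) s n *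
      ((2 * Real.pi : ℂ) * (1 - (gc (Real.log n / l) : ℂ))) =
      ∑' n, (LSeries.term (fun n => χ n) s n -
        LSeries.term (fun n => χ n) s n * (gc (Real.log n / l) : ℂ)) := by
    rw [← tsum_mul_left]
    apply tsum_congr
    intro n
    have hpi : (Real.pi : ℂ) ≠ 0 := by exact_mod_cast Real.pi_ne_zero
    field_simp
  rw [hI, hsplit, hLsum.tsum_sub hDsum, hDD, hLs]
  ring

end Pool.Agent.SO
end

section

set_option autoImplicit false

namespace Pool.Agent.SO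

open Finset Complex MeasureTheory
open scoped ContDiff

/-- MoH1. Primitive characters mod `r ≥ 2` are not principal.
PROOF. `mem_filter`; `χ = 1` has conductor `1` (`DirichletCharacter.conductor_one`), primitive means conductor `= r`. -/
lemma prim_ne_one (r : ℕ) [NeZero r] (hr : 2 ≤ r) (χ : DirichletCharacter ℂ r) (h : χ ∈ prim r) :
    χ.IsPrimitive ∧ χ ≠ 1 := by
  classical
  have h1 : χ.IsPrimitive := by
    unfold prim at h
    exact (Finset.mem_filter.mp h).2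
  refine ⟨h1, fun h2 => ?_⟩
  have h3 : χ.conductor = r := h1
  rw [h2, DirichletCharacter.conductor_one] at h3
  omega

end Pool.Agent.SO
end

section

set_option autoImplicit false

namespace Pool.Agent.SO

open Complex

lemma F1a_star (r : ℕ) [NeZero r] (χ : DirichletCharacter ℂ r) (c : ZMod r) :
    (starRingEnd ℂ) (χ c) = χ⁻¹ c := by
  have := MulChar.star_apply' χ c
  rw [RCLike.star_def] at this
  exact this

lemma F1a_series (r : ℕ) [NeZero r] (χ : DirichletCharacter ℂ r) (s : ℂ) :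
    LSeries (fun n : ℕ => χ⁻¹ n) s = (starRingEnd ℂ) (LSeries (fun n : ℕ => χ n) ((starRingEnd ℂ) s)) := by
  unfold LSeries
  rw [Complex.conj_tsum]
  congr 1
  ext n
  unfold LSeries.term
  split_ifs with h
  · simp
  · rw [map_div₀, F1a_star]
    congr 1
    have harg : ((n : ℂ)).arg ≠ Real.pi := by
      rw [Complex.natCast_arg]; exact Real.pi_pos.ne
    have h2 := Complex.conj_cpow (n : ℂ) s harg
    rw [Complex.conj_natCast] at h2
    exact h2

/-- F1. Complex conjugation. -/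
theorem LFunction_conj (r : ℕ) [NeZero r] (χ : DirichletCharacter ℂ r) (hχ : χ ≠ 1) (s : ℂ) :
    χ⁻¹.LFunction s = (starRingEnd ℂ) (χ.LFunction ((starRingEnd ℂ) s)) := by
  have hχ' : χ⁻¹ ≠ 1 := fun h => hχ (inv_eq_one.mp h)
  have hd1 : Differentiable ℂ χ⁻¹.LFunction := DirichletCharacter.differentiable_LFunction hχ'
  have hd2 : Differentiable ℂ (fun s : ℂ => (starRingEnd ℂ) (χ.LFunction ((starRingEnd ℂ) s))) := by
    intro z
    have h1 : DifferentiableAt ℂ χ.LFunction ((starRingEnd ℂ) z) := DirichletCharacter.differentiable_LFunction hχ _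
    have h2 := h1.conj_conj
    rw [Complex.conj_conj] at h2
    exact h2
  have ha1 : AnalyticOnNhd ℂ χ⁻¹.LFunction Set.univ := fun z _ => hd1.analyticAt z
  have ha2 : AnalyticOnNhd ℂ (fun s : ℂ => (starRingEnd ℂ) (χ.LFunction ((starRingEnd ℂ) s))) Set.univ :=
    fun z _ => hd2.analyticAt z
  have hev : χ⁻¹.LFunction =ᶠ[nhds (2 : ℂ)] (fun s : ℂ => (starRingEnd ℂ) (χ.LFunction ((starRingEnd ℂ) s))) := by
    have hopen : IsOpen {z : ℂ | 1 < z.re} := isOpen_lt continuous_const Complex.continuous_re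
    filter_upwards [hopen.mem_nhds (by norm_num : (2 : ℂ) ∈ {z : ℂ | 1 < z.re})] with z hz
    have hz' : 1 < ((starRingEnd ℂ) z).re := by rw [Complex.conj_re]; exact hz
    rw [DirichletCharacter.LFunction_eq_LSeries _ hz, DirichletCharacter.LFunction_eq_LSeries _ hz']
    exact F1a_series r χ z
  have := ha1.eq_of_eventuallyEq ha2 hev
  exact congrFun this s

end Pool.Agent.SO
end

section

set_option autoImplicit false

namespace Pool.Agent.SO

open Complex

/-- One factor: weighted arithmetic-geometric mean inequality. -/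
theorem F2a_factor (W : ℂ) (a δ : ℝ) (ha : 0 < a) (haW : a ≤ W.re) (hδ : 0 ≤ δ) (hδ1 : δ ≤ 1) :
    ‖W‖ ^ (1 - δ) * ‖W + 1‖ ^ δ ≤ ‖W + (δ : ℂ)‖ * Real.exp (1 / (8 * a ^ 2)) := by
  have hu : 0 < W.re := ha.trans_le haW
  have n1 : ‖W‖ ^ 2 = W.re ^ 2 + W.im ^ 2 := by
    rw [Complex.sq_norm, Complex.normSq_apply]; ring
  have n2 : ‖W + 1‖ ^ 2 = (W.re + 1) ^ 2 + W.im ^ 2 := by
    rw [Complex.sq_norm, Complex.normSq_apply]
    simp only [Complex.add_re, Complex.add_im, Complex.one_re, Complex.one_im]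
    ring
  have n3 : ‖W + (δ : ℂ)‖ ^ 2 = (W.re + δ) ^ 2 + W.im ^ 2 := by
    rw [Complex.sq_norm, Complex.normSq_apply]
    simp only [Complex.add_re, Complex.add_im, Complex.ofReal_re, Complex.ofReal_im]
    ring
  have hmg := Real.geom_mean_le_arith_mean2_weighted (sub_nonneg.2 hδ1) hδ
    (sq_nonneg ‖W‖) (sq_nonneg ‖W + 1‖) (by ring)
  have hsq : (‖W‖ ^ (1 - δ) * ‖W + 1‖ ^ δ) ^ 2 = (‖W‖ ^ 2) ^ (1 - δ) * (‖W + 1‖ ^ 2) ^ δ := by
    rw [mul_pow, ← Real.rpow_natCast, ← Real.rpow_natCast, ← Real.rpow_natCast, ← Real.rpow_natCast,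
      ← Real.rpow_mul (norm_nonneg _), ← Real.rpow_mul (norm_nonneg _),
      ← Real.rpow_mul (norm_nonneg _), ← Real.rpow_mul (norm_nonneg _)]
    congr 2 <;> ring
  have hexp : 1 / (4 * a ^ 2) + 1 ≤ Real.exp (1 / (8 * a ^ 2)) ^ 2 := by
    rw [← Real.exp_nat_mul]
    have e : ((2 : ℕ) : ℝ) * (1 / (8 * a ^ 2)) = 1 / (4 * a ^ 2) := by
      push_cast
      field_simp
      ring
    rw [e]
    exact Real.add_one_le_exp _
  have ha2 : a ^ 2 ≤ (W.re + δ) ^ 2 + W.im ^ 2 := by nlinarith [sq_nonneg W.im]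
  have hquot : 1 / 4 ≤ ((W.re + δ) ^ 2 + W.im ^ 2) * (1 / (4 * a ^ 2)) := by
    rw [mul_one_div, le_div_iff₀ (by positivity)]
    linarith
  refine le_of_sq_le_sq ?_ (by positivity)
  rw [hsq, mul_pow, n3]
  refine hmg.trans ?_
  rw [n1, n2]
  have hδδ : δ * (1 - δ) ≤ 1 / 4 := by nlinarith [sq_nonneg (δ - 1 / 2)]
  have hpos : 0 ≤ (W.re + δ) ^ 2 + W.im ^ 2 := by positivity
  calc (1 - δ) * (W.re ^ 2 + W.im ^ 2) + δ * ((W.re + 1) ^ 2 + W.im ^ 2)
      = ((W.re + δ) ^ 2 + W.im ^ 2) + δ * (1 - δ) := by ring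
    _ ≤ ((W.re + δ) ^ 2 + W.im ^ 2) + ((W.re + δ) ^ 2 + W.im ^ 2) * (1 / (4 * a ^ 2)) := by linarith
    _ = ((W.re + δ) ^ 2 + W.im ^ 2) * (1 / (4 * a ^ 2) + 1) := by ring
    _ ≤ _ := mul_le_mul_of_nonneg_left hexp hpos

/-- Product over `j < n`. -/
theorem F2a_prod (w : ℂ) (a δ : ℝ) (ha : 0 < a) (haw : a ≤ w.re) (hδ : 0 ≤ δ) (hδ1 : δ ≤ 1) (n : ℕ) :
    (∏ j ∈ Finset.range n, ‖w + j‖) * ‖w + n‖ ^ δ ≤
      ‖w‖ ^ δ * (∏ j ∈ Finset.range n, ‖w + (δ : ℂ) + j‖) *
        Real.exp (∑ j ∈ Finset.range n, 1 / (8 * (a + j) ^ 2)) := by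
  induction n with
  | zero => simp
  | succ n ih =>
    have haj : 0 < a + n := by positivity
    have hre : a + n ≤ (w + (n : ℂ)).re := by
      simp only [Complex.add_re, Complex.natCast_re]
      linarith
    have hf := F2a_factor (w + n) (a + n) δ haj hre hδ hδ1
    have hpos : 0 < ‖w + (n : ℂ)‖ := by
      rw [norm_pos_iff]
      intro h0
      rw [h0, Complex.zero_re] at hre
      linarith
    have e1 : w + (n : ℂ) + 1 = w + ((n + 1 : ℕ) : ℂ) := by push_cast; ring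
    have e2 : w + (n : ℂ) + (δ : ℂ) = w + (δ : ℂ) + n := by ring
    rw [e1, e2] at hf
    rw [Finset.prod_range_succ, Finset.prod_range_succ, Finset.sum_range_succ, Real.exp_add]
    have e3 : ‖w + (n : ℂ)‖ = ‖w + (n : ℂ)‖ ^ δ * ‖w + (n : ℂ)‖ ^ (1 - δ) := by
      rw [← Real.rpow_add hpos]
      simp
    calc (∏ j ∈ Finset.range n, ‖w + (j : ℂ)‖) * ‖w + (n : ℂ)‖ * ‖w + ((n + 1 : ℕ) : ℂ)‖ ^ δ
        = ((∏ j ∈ Finset.range n, ‖w + (j : ℂ)‖) * ‖w + (n : ℂ)‖ ^ δ) *
            (‖w + (n : ℂ)‖ ^ (1 - δ) * ‖w + ((n + 1 : ℕ) : ℂ)‖ ^ δ) := by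
          conv_lhs => rw [e3]
          ring
      _ ≤ (‖w‖ ^ δ * (∏ j ∈ Finset.range n, ‖w + (δ : ℂ) + j‖) *
            Real.exp (∑ j ∈ Finset.range n, 1 / (8 * (a + j) ^ 2))) *
            (‖w + (δ : ℂ) + n‖ * Real.exp (1 / (8 * (a + n) ^ 2))) :=
          mul_le_mul ih hf (by positivity) (by positivity)
      _ = _ := by ring

theorem F2a_sum (n : ℕ) :
    ∑ j ∈ Finset.range (n + 2), 1 / (8 * ((1 / 8 : ℝ) + j) ^ 2) ≤ 8 + (1 / 8) * (2 - 1 / ((n : ℝ) + 1)) := by
  induction n with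
  | zero =>
    rw [Finset.sum_range_succ, Finset.sum_range_succ, Finset.sum_range_zero]
    norm_num
  | succ n ih =>
    rw [Finset.sum_range_succ]
    have h1 : 1 / (8 * ((1 / 8 : ℝ) + ((n + 2 : ℕ) : ℝ)) ^ 2) ≤
        (1 / 8) * (1 / ((n : ℝ) + 1) - 1 / (((n + 1 : ℕ) : ℝ) + 1)) := by
      have e : (1 / 8 : ℝ) * (1 / ((n : ℝ) + 1) - 1 / (((n + 1 : ℕ) : ℝ) + 1)) =
          1 / (8 * (((n : ℝ) + 1) * ((n : ℝ) + 2))) := by
        push_cast
        field_simp
        ring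
      rw [e]
      refine one_div_le_one_div_of_le (by positivity) ?_
      push_cast
      nlinarith [(Nat.cast_nonneg n : (0 : ℝ) ≤ n)]
    linarith

/-- The Gamma function: `|Γ(w + δ)| ≤ e^9 |w|^δ |Γ(w)|`. -/
theorem F2a_Gamma (w : ℂ) (δ : ℝ) (haw : 1 / 8 ≤ w.re) (hδ : 0 ≤ δ) (hδ1 : δ ≤ 1) :
    ‖Gamma (w + δ)‖ ≤ Real.exp 9 * ‖w‖ ^ δ * ‖Gamma w‖ := by
  have t1 : Filter.Tendsto (fun n => ‖GammaSeq (w + δ) n‖) Filter.atTop (nhds ‖Gamma (w + δ)‖) :=
    (GammaSeq_tendsto_Gamma _).norm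
  have t2 : Filter.Tendsto (fun n => Real.exp 9 * ‖w‖ ^ δ * ‖GammaSeq w n‖) Filter.atTop
      (nhds (Real.exp 9 * ‖w‖ ^ δ * ‖Gamma w‖)) :=
    (GammaSeq_tendsto_Gamma _).norm.const_mul _
  refine le_of_tendsto_of_tendsto t1 t2 ?_
  filter_upwards [Filter.eventually_ge_atTop 1] with n hn
  obtain ⟨k, rfl⟩ := Nat.exists_eq_add_of_le' hn
  have hn0 : (0 : ℝ) < ((k + 1 : ℕ) : ℝ) := by positivity
  unfold GammaSeq
  rw [norm_div, norm_div, norm_mul, norm_mul, Complex.norm_natCast_cpow_of_pos (by omega),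
    Complex.norm_natCast_cpow_of_pos (by omega), norm_prod, norm_prod]
  have hre : (w + (δ : ℂ)).re = w.re + δ := by simp
  rw [hre, Real.rpow_add hn0]
  have hP := F2a_prod w (1 / 8) δ (by norm_num) haw hδ hδ1 (k + 1 + 1)
  have hS := F2a_sum k
  have hS9 : ∑ j ∈ Finset.range (k + 2), 1 / (8 * ((1 / 8 : ℝ) + j) ^ 2) ≤ 9 := by
    refine hS.trans ?_
    have : 0 ≤ 1 / ((k : ℝ) + 1) := by positivity
    linarith
  have hE := Real.exp_le_exp.2 hS9
  have hnorm : ((k + 1 : ℕ) : ℝ) ^ δ ≤ ‖w + ((k + 1 + 1 : ℕ) : ℂ)‖ ^ δ := by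
    refine Real.rpow_le_rpow hn0.le ?_ hδ
    refine le_trans ?_ (Complex.re_le_norm _)
    simp only [Complex.add_re, Complex.natCast_re]
    push_cast
    linarith
  have hpos1 : ∀ j : ℕ, 0 < ‖w + (j : ℂ)‖ := by
    intro j
    rw [norm_pos_iff]
    intro h0
    have := congrArg Complex.re h0
    simp only [Complex.add_re, Complex.natCast_re, Complex.zero_re] at this
    have hj : (0 : ℝ) ≤ j := Nat.cast_nonneg j
    linarith
  have hpos2 : ∀ j : ℕ, 0 < ‖w + (δ : ℂ) + (j : ℂ)‖ := by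
    intro j
    rw [norm_pos_iff]
    intro h0
    have := congrArg Complex.re h0
    simp only [Complex.add_re, Complex.natCast_re, Complex.zero_re, Complex.ofReal_re] at this
    have hj : (0 : ℝ) ≤ j := Nat.cast_nonneg j
    linarith
  have q1 : 0 < ∏ j ∈ Finset.range (k + 1 + 1), ‖w + (j : ℂ)‖ := Finset.prod_pos fun j _ => hpos1 j
  have q2 : 0 < ∏ j ∈ Finset.range (k + 1 + 1), ‖w + (δ : ℂ) + (j : ℂ)‖ :=
    Finset.prod_pos fun j _ => hpos2 j
  have key : ((k + 1 : ℕ) : ℝ) ^ δ * (∏ j ∈ Finset.range (k + 1 + 1), ‖w + (j : ℂ)‖) ≤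
      Real.exp 9 * ‖w‖ ^ δ * ∏ j ∈ Finset.range (k + 1 + 1), ‖w + (δ : ℂ) + (j : ℂ)‖ := by
    calc ((k + 1 : ℕ) : ℝ) ^ δ * (∏ j ∈ Finset.range (k + 1 + 1), ‖w + (j : ℂ)‖)
        ≤ (∏ j ∈ Finset.range (k + 1 + 1), ‖w + (j : ℂ)‖) * ‖w + ((k + 1 + 1 : ℕ) : ℂ)‖ ^ δ := by
          rw [mul_comm]
          exact mul_le_mul_of_nonneg_left hnorm q1.le
      _ ≤ ‖w‖ ^ δ * (∏ j ∈ Finset.range (k + 1 + 1), ‖w + (δ : ℂ) + j‖) *
            Real.exp (∑ j ∈ Finset.range (k + 1 + 1), 1 / (8 * (1 / 8 + (j : ℝ)) ^ 2)) := hP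
      _ ≤ ‖w‖ ^ δ * (∏ j ∈ Finset.range (k + 1 + 1), ‖w + (δ : ℂ) + j‖) * Real.exp 9 :=
          mul_le_mul_of_nonneg_left hE (by positivity)
      _ = _ := by ring
  rw [← mul_div_assoc, div_le_div_iff₀ q2 q1]
  have hc : 0 ≤ ((k + 1 : ℕ) : ℝ) ^ w.re * ‖(((k + 1).factorial : ℕ) : ℂ)‖ := by positivity
  have := mul_le_mul_of_nonneg_left key hc
  calc _ = ((k + 1 : ℕ) : ℝ) ^ w.re * ‖(((k + 1).factorial : ℕ) : ℂ)‖ *
        (((k + 1 : ℕ) : ℝ) ^ δ * (∏ j ∈ Finset.range (k + 1 + 1), ‖w + (j : ℂ)‖)) := by ring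
    _ ≤ _ := this
    _ = _ := by ring

/-- F2. The Gamma ratio, upper bound.

PROOF. Let `κ ∈ {0, 1}` and `Q s = Gammaℝ (1 - s + κ) / Gammaℝ (s + κ)`, holomorphic for
`re s < 1` (`1/Gammaℝ` is entire: `differentiable_Gammaℝ_inv`; `Gammaℝ` is holomorphic where
the argument has positive real part). On `re s = 1/2`: `‖Q s‖ = 1`
(`Gammaℝ (conj z) = conj (Gammaℝ z)`). On `re s = -1/2`, `s = -1/2 + τ I`:
`Gammaℝ (z + 2) = Gammaℝ z * z / 2 / π` (`Gammaℝ_add_two`, `z = -1/2 + κ - τ I ≠ 0`) gives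
`‖Q s‖ = ‖-1/2 + κ - τ I‖/(2π) ≤ 1 + |τ|`. Fix `τ₀`; let
`F s = Q s * exp ((s - τ₀ I)^2)`. On the strip `-1/2 ≤ re s ≤ 1/2`, `F` is bounded:
`‖Gammaℝ (1 - s + κ)‖ ≤ π^(..) Γ((1 - re s + κ)/2)` is bounded (`‖Γ z‖ ≤ Γ(re z)` for `re z > 0`,
from the integral; `re z ∈ [1/4, 5/4]`, continuity of the real Gamma function), and for
`w = (s + κ)/2`, `re w ∈ [-1/4, 3/4]`: `1/Γ(w) = Γ(1 - w) sin(π w)/π`
(`Complex.Gamma_mul_Gamma_one_sub`), so `‖1/Γ(w)‖ ≤ Γ(1 - re w) exp (π |im w|)/π`; and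
`‖exp ((s - τ₀I)^2)‖ ≤ exp (1/4 - (im s - τ₀)^2)`. Hadamard's three lines theorem
(`Complex.HadamardThreeLines.norm_le_interp_of_mem_verticalClosedStrip'`) with the bounds
`e^(1/4)` on `re s = 1/2` and `sup (1 + |τ|) e^(1/4 - (τ - τ₀)^2) ≤ 3 (1 + |τ₀|)` on
`re s = -1/2` gives `‖Q (1/2 - x + τ₀ I)‖ ≤ (3)^(1-x) (3 (1+|τ₀|))^x ≤ 3 (1 + |τ₀|)^x` for
`0 ≤ x ≤ 1`; finally `‖Gammaℝ (1/2 + x - τ₀ I + κ)‖ = ‖Gammaℝ (1/2 + x + κ + τ₀ I)‖`. -/
theorem gamma_upper : ∃ C : ℝ, 1 ≤ C ∧ ∀ κ : ℝ, (κ = 0 ∨ κ = 1) → ∀ x τ : ℝ, 0 ≤ x → x ≤ 1 / 4 →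
    ‖Gammaℝ (1 / 2 + (x : ℂ) + (κ : ℂ) + (τ : ℂ) * I)‖ ≤
      C * (1 + |τ|) ^ x * ‖Gammaℝ (1 / 2 - (x : ℂ) + (κ : ℂ) + (τ : ℂ) * I)‖ := by
  refine ⟨Real.exp 9, Real.one_le_exp (by norm_num), fun κ hκ x τ hx hx4 => ?_⟩
  have hκ0 : 0 ≤ κ := by rcases hκ with h | h <;> rw [h]; norm_num
  have hκ1 : κ ≤ 1 := by rcases hκ with h | h <;> rw [h]; norm_num
  set w : ℂ := (1 / 2 - (x : ℂ) + (κ : ℂ) + (τ : ℂ) * I) / 2 with hw
  have e1 : (1 / 2 + (x : ℂ) + (κ : ℂ) + (τ : ℂ) * I) / 2 = w + (x : ℂ) := by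
    rw [hw]
    ring
  have hwre : w.re = (1 / 2 - x + κ) / 2 := by
    have : w = (((1 / 2 - x + κ) / 2 : ℝ) : ℂ) + ((τ / 2 : ℝ) : ℂ) * I := by
      rw [hw]
      push_cast
      ring
    rw [this]
    simp
  have hwn : ‖w‖ ≤ 1 + |τ| := by
    have : w = (((1 / 2 - x + κ) / 2 : ℝ) : ℂ) + ((τ / 2 : ℝ) : ℂ) * I := by
      rw [hw]
      push_cast
      ring
    rw [this]
    refine (norm_add_le _ _).trans ?_
    have e3 : |τ / 2| = |τ| / 2 := by rw [abs_div, abs_two]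
    rw [norm_mul, Complex.norm_I, mul_one, Complex.norm_real, Complex.norm_real,
      Real.norm_eq_abs, Real.norm_eq_abs, e3,
      abs_of_nonneg (by linarith : 0 ≤ (1 / 2 - x + κ) / 2)]
    have := abs_nonneg τ
    linarith
  have hG := F2a_Gamma w x (by rw [hwre]; linarith) hx (by linarith)
  have hG2 : ‖Gamma (w + (x : ℂ))‖ ≤ Real.exp 9 * (1 + |τ|) ^ x * ‖Gamma w‖ := by
    refine hG.trans ?_
    refine mul_le_mul_of_nonneg_right ?_ (norm_nonneg _)
    exact mul_le_mul_of_nonneg_left (Real.rpow_le_rpow (norm_nonneg _) hwn hx) (Real.exp_pos _).le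
  rw [Gammaℝ_def, Gammaℝ_def, e1, ← hw, norm_mul, norm_mul]
  have hpi : ∀ z : ℂ, ‖(Real.pi : ℂ) ^ z‖ = Real.pi ^ z.re := fun z =>
    Complex.norm_cpow_eq_rpow_re_of_pos Real.pi_pos z
  rw [hpi, hpi]
  have hr1 : (-(1 / 2 + (x : ℂ) + (κ : ℂ) + (τ : ℂ) * I) / 2).re = -(w.re + x) := by
    rw [neg_div, e1]
    simp
  have hr2 : (-(1 / 2 - (x : ℂ) + (κ : ℂ) + (τ : ℂ) * I) / 2).re = -w.re := by
    rw [neg_div, ← hw]
    simp
  rw [hr1, hr2]
  have hpp : Real.pi ^ (-(w.re + x)) ≤ Real.pi ^ (-w.re) :=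
    Real.rpow_le_rpow_of_exponent_le (by linarith [Real.pi_gt_three]) (by linarith)
  calc Real.pi ^ (-(w.re + x)) * ‖Gamma (w + (x : ℂ))‖
      ≤ Real.pi ^ (-w.re) * (Real.exp 9 * (1 + |τ|) ^ x * ‖Gamma w‖) :=
        mul_le_mul hpp hG2 (norm_nonneg _) (by positivity)
    _ = _ := by ring

end Pool.Agent.SO
end

section

set_option autoImplicit false

namespace Pool.Agent.SO

open Complex

lemma F2b_one (κ : ℝ) (hκ : 0 ≤ κ) : ∀ᶠ x : ℝ in nhds 0, ∀ τ ∈ Set.Icc (-1 : ℝ) 1,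
    0 < ‖(Gammaℝ (1 / 2 - (x : ℂ) + (κ : ℂ) + (τ : ℂ) * I))⁻¹‖ -
      7 / 10 * ‖(Gammaℝ (1 / 2 + (x : ℂ) + (κ : ℂ) + (τ : ℂ) * I))⁻¹‖ := by
  have hc : Continuous (fun s : ℂ => (Gammaℝ s)⁻¹) := differentiable_Gammaℝ_inv.continuous
  have hF : Continuous (fun z : ℝ × ℝ =>
      ‖(Gammaℝ (1 / 2 - (z.1 : ℂ) + (κ : ℂ) + (z.2 : ℂ) * I))⁻¹‖ -
        7 / 10 * ‖(Gammaℝ (1 / 2 + (z.1 : ℂ) + (κ : ℂ) + (z.2 : ℂ) * I))⁻¹‖) := by
    have h1 : Continuous (fun z : ℝ × ℝ =>
        (Gammaℝ (1 / 2 - (z.1 : ℂ) + (κ : ℂ) + (z.2 : ℂ) * I))⁻¹) :=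
      hc.comp (by fun_prop : Continuous (fun z : ℝ × ℝ =>
        (1 / 2 - (z.1 : ℂ) + (κ : ℂ) + (z.2 : ℂ) * I : ℂ)))
    have h2 : Continuous (fun z : ℝ × ℝ =>
        (Gammaℝ (1 / 2 + (z.1 : ℂ) + (κ : ℂ) + (z.2 : ℂ) * I))⁻¹) :=
      hc.comp (by fun_prop : Continuous (fun z : ℝ × ℝ =>
        (1 / 2 + (z.1 : ℂ) + (κ : ℂ) + (z.2 : ℂ) * I : ℂ)))
    exact h1.norm.sub (continuous_const.mul h2.norm)
  refine IsCompact.eventually_forall_of_forall_eventually isCompact_Icc (fun τ _ => ?_)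
  refine hF.continuousAt.eventually (lt_mem_nhds ?_)
  simp only [Complex.ofReal_zero, sub_zero, add_zero]
  have hne : Gammaℝ (1 / 2 + (κ : ℂ) + (τ : ℂ) * I) ≠ 0 := by
    apply Gammaℝ_ne_zero_of_re_pos
    have : (1 / 2 + (κ : ℂ) + (τ : ℂ) * I).re = 1 / 2 + κ := by
      rw [Complex.add_re, Complex.add_re, Complex.ofReal_re]
      have e1 : (1 / 2 : ℂ).re = 1 / 2 := by norm_num
      have e2 : ((τ : ℂ) * I).re = 0 := by simp
      rw [e1, e2]
      ring
    rw [this]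
    linarith
  have hp : 0 < ‖(Gammaℝ (1 / 2 + (κ : ℂ) + (τ : ℂ) * I))⁻¹‖ := norm_pos_iff.2 (inv_ne_zero hne)
  linarith

/-- F2'. The Gamma ratio near `x = 0`, lower bound.

PROOF. The function `g(x, τ) = ‖Gammaℝ (1/2 + x + κ + τ I)‖ / ‖Gammaℝ (1/2 - x + κ + τ I)‖` is
continuous on the compact set `[0, 1/4] × [-1, 1]` (both arguments have positive real part,
`Gammaℝ` is continuous and nonzero there), hence uniformly continuous, and `g(0, τ) = 1`. So there
is `δ > 0` with `g(x, τ) ≥ 7/10` for `0 ≤ x ≤ δ`, `|τ| ≤ 1` (both `κ`). -/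
theorem gamma_lower : ∃ δ : ℝ, 0 < δ ∧ δ ≤ 1 / 4 ∧ ∀ κ : ℝ, (κ = 0 ∨ κ = 1) → ∀ x τ : ℝ, 0 ≤ x →
    x ≤ δ → |τ| ≤ 1 →
    7 / 10 * ‖Gammaℝ (1 / 2 - (x : ℂ) + (κ : ℂ) + (τ : ℂ) * I)‖ ≤
      ‖Gammaℝ (1 / 2 + (x : ℂ) + (κ : ℂ) + (τ : ℂ) * I)‖ := by
  have h := (F2b_one 0 le_rfl).and (F2b_one 1 zero_le_one)
  rw [Metric.eventually_nhds_iff] at h
  obtain ⟨ε, hε, h⟩ := h
  refine ⟨min (ε / 2) (1 / 4), lt_min (by linarith) (by norm_num), min_le_right _ _, ?_⟩
  intro κ hκ x τ hx0 hx hτ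
  have hxε : x ≤ ε / 2 := hx.trans (min_le_left _ _)
  have hx4 : x ≤ 1 / 4 := hx.trans (min_le_right _ _)
  have hd : dist x 0 < ε := by
    rw [Real.dist_eq, sub_zero, abs_of_nonneg hx0]
    linarith
  have hτ' : τ ∈ Set.Icc (-1 : ℝ) 1 := abs_le.1 hτ
  have hκ0 : 0 ≤ κ := by
    rcases hκ with h0 | h0 <;> rw [h0] <;> norm_num
  have key : 0 < ‖(Gammaℝ (1 / 2 - (x : ℂ) + (κ : ℂ) + (τ : ℂ) * I))⁻¹‖ -
      7 / 10 * ‖(Gammaℝ (1 / 2 + (x : ℂ) + (κ : ℂ) + (τ : ℂ) * I))⁻¹‖ := by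
    rcases hκ with h0 | h0
    · rw [h0]
      exact (h hd).1 τ hτ'
    · rw [h0]
      exact (h hd).2 τ hτ'
  have hre1 : (1 / 2 - (x : ℂ) + (κ : ℂ) + (τ : ℂ) * I).re = 1 / 2 - x + κ := by
    rw [Complex.add_re, Complex.add_re, Complex.sub_re, Complex.ofReal_re, Complex.ofReal_re]
    have e1 : (1 / 2 : ℂ).re = 1 / 2 := by norm_num
    have e2 : ((τ : ℂ) * I).re = 0 := by simp
    rw [e1, e2]
    ring
  have hre2 : (1 / 2 + (x : ℂ) + (κ : ℂ) + (τ : ℂ) * I).re = 1 / 2 + x + κ := by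
    rw [Complex.add_re, Complex.add_re, Complex.add_re, Complex.ofReal_re, Complex.ofReal_re]
    have e1 : (1 / 2 : ℂ).re = 1 / 2 := by norm_num
    have e2 : ((τ : ℂ) * I).re = 0 := by simp
    rw [e1, e2]
    ring
  have hp1 : 0 < ‖Gammaℝ (1 / 2 - (x : ℂ) + (κ : ℂ) + (τ : ℂ) * I)‖ :=
    norm_pos_iff.2 (Gammaℝ_ne_zero_of_re_pos (by rw [hre1]; linarith))
  have hp2 : 0 < ‖Gammaℝ (1 / 2 + (x : ℂ) + (κ : ℂ) + (τ : ℂ) * I)‖ :=
    norm_pos_iff.2 (Gammaℝ_ne_zero_of_re_pos (by rw [hre2]; linarith))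
  rw [norm_inv, norm_inv] at key
  set A := ‖Gammaℝ (1 / 2 - (x : ℂ) + (κ : ℂ) + (τ : ℂ) * I)‖ with hA
  set B := ‖Gammaℝ (1 / 2 + (x : ℂ) + (κ : ℂ) + (τ : ℂ) * I)‖ with hB
  have h1 : 7 / 10 * B⁻¹ ≤ A⁻¹ := by linarith
  calc 7 / 10 * A = (7 / 10 * B⁻¹) * (A * B) := by field_simp
    _ ≤ A⁻¹ * (A * B) := mul_le_mul_of_nonneg_right h1 (by positivity)
    _ = B := by field_simp

end Pool.Agent.SO
end

section

set_option autoImplicit false

namespace Pool.Agent.SO

open Finset Complex MeasureTheory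
open scoped ContDiff

lemma MoJ3_cs (u : ℝ → ℝ) (hu : Continuous u) :
    (∫ θ in (0 : ℝ)..(2 * Real.pi), u θ) ^ 2 ≤ 2 * Real.pi * ∫ θ in (0 : ℝ)..(2 * Real.pi), u θ ^ 2 := by
  have hpi : (0 : ℝ) < 2 * Real.pi := by positivity
  set M : ℝ := (∫ θ in (0 : ℝ)..(2 * Real.pi), u θ) / (2 * Real.pi) with hM
  have h1 : 0 ≤ ∫ θ in (0 : ℝ)..(2 * Real.pi), (u θ - M) ^ 2 :=
    intervalIntegral.integral_nonneg hpi.le (fun θ _ => sq_nonneg _)
  have h2 : ∫ θ in (0 : ℝ)..(2 * Real.pi), (u θ - M) ^ 2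
      = (∫ θ in (0 : ℝ)..(2 * Real.pi), u θ ^ 2) - 2 * M * (∫ θ in (0 : ℝ)..(2 * Real.pi), u θ)
        + M ^ 2 * (2 * Real.pi) := by
    have e : ∀ θ, (u θ - M) ^ 2 = u θ ^ 2 - 2 * M * u θ + M ^ 2 := fun θ => by ring
    simp only [e]
    rw [intervalIntegral.integral_add, intervalIntegral.integral_sub, intervalIntegral.integral_const_mul,
      intervalIntegral.integral_const]
    · simp only [smul_eq_mul]; ring
    · exact (hu.pow 2).intervalIntegrable _ _
    · exact (continuous_const.mul hu).intervalIntegrable _ _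
    · exact ((hu.pow 2).sub (continuous_const.mul hu)).intervalIntegrable _ _
    · exact continuous_const.intervalIntegrable _ _
  have h3 : ∫ θ in (0 : ℝ)..(2 * Real.pi), u θ = M * (2 * Real.pi) := by
    rw [hM]; field_simp
  rw [h3] at h2 ⊢
  rw [h2] at h1
  nlinarith

/-- MoJ3 (Cauchy in mean square). -/
lemma cauchy_sq (f : ℂ → ℂ) (hf : Differentiable ℂ f) (s : ℂ) (ρ : ℝ) (hρ : 0 < ρ) :
    ‖deriv f s‖ ^ 2 ≤ 1 / (2 * Real.pi * ρ ^ 2) *
      ∫ θ in (0 : ℝ)..(2 * Real.pi), ‖f (s + (ρ : ℂ) * Complex.exp ((θ : ℂ) * I))‖ ^ 2 := by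
  have hpi : (0 : ℝ) < 2 * Real.pi := by positivity
  have h1 : ∮ z in C(s, ρ), (1 / (z - s) ^ 2) • f z = (2 * Real.pi * I : ℂ) • deriv f s :=
    DifferentiableOn.deriv_eq_smul_circleIntegral hρ hf.differentiableOn
  have h3 : ‖∮ z in C(s, ρ), (1 / (z - s) ^ 2) • f z‖ ≤
      1 / ρ * ∫ θ in (0 : ℝ)..(2 * Real.pi), ‖f (s + (ρ : ℂ) * Complex.exp ((θ : ℂ) * I))‖ := by
    rw [circleIntegral]
    refine (intervalIntegral.norm_integral_le_integral_norm hpi.le).trans ?_
    rw [← intervalIntegral.integral_const_mul]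
    refine le_of_eq ?_
    refine intervalIntegral.integral_congr ?_
    intro θ _
    have e1 : circleMap s ρ θ = s + (ρ : ℂ) * Complex.exp ((θ : ℂ) * I) := rfl
    simp only [norm_smul, deriv_circleMap, norm_mul, norm_circleMap_zero, Complex.norm_I, mul_one,
      circleMap_sub_center, norm_div, norm_one, norm_pow, abs_of_pos hρ]
    rw [e1]
    field_simp
  have h2 : ‖deriv f s‖ ≤ 1 / (2 * Real.pi * ρ) *
      ∫ θ in (0 : ℝ)..(2 * Real.pi), ‖f (s + (ρ : ℂ) * Complex.exp ((θ : ℂ) * I))‖ := by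
    rw [h1, norm_smul] at h3
    have h4 : ‖(2 * Real.pi * I : ℂ)‖ = 2 * Real.pi := by
      rw [norm_mul, norm_mul, Complex.norm_I, Complex.norm_ofNat, Complex.norm_real,
        Real.norm_of_nonneg Real.pi_pos.le, mul_one]
    rw [h4] at h3
    generalize (∫ θ in (0 : ℝ)..(2 * Real.pi), ‖f (s + (ρ : ℂ) * Complex.exp ((θ : ℂ) * I))‖) = T at h3 ⊢
    have e2 : 1 / (2 * Real.pi * ρ) * T = (1 / ρ * T) / (2 * Real.pi) := by field_simp
    rw [e2, le_div_iff₀ hpi]
    linarith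
  have hcont : Continuous (fun θ : ℝ => ‖f (s + (ρ : ℂ) * Complex.exp ((θ : ℂ) * I))‖) := by
    have := hf.continuous
    fun_prop
  have h5 := MoJ3_cs _ hcont
  have h6 : 0 ≤ ∫ θ in (0 : ℝ)..(2 * Real.pi), ‖f (s + (ρ : ℂ) * Complex.exp ((θ : ℂ) * I))‖ :=
    intervalIntegral.integral_nonneg hpi.le (fun θ _ => norm_nonneg _)
  calc ‖deriv f s‖ ^ 2 ≤ (1 / (2 * Real.pi * ρ) *
      ∫ θ in (0 : ℝ)..(2 * Real.pi), ‖f (s + (ρ : ℂ) * Complex.exp ((θ : ℂ) * I))‖) ^ 2 := by gcongr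
    _ = (1 / (2 * Real.pi * ρ)) ^ 2 *
      (∫ θ in (0 : ℝ)..(2 * Real.pi), ‖f (s + (ρ : ℂ) * Complex.exp ((θ : ℂ) * I))‖) ^ 2 := by ring
    _ ≤ (1 / (2 * Real.pi * ρ)) ^ 2 * (2 * Real.pi *
      ∫ θ in (0 : ℝ)..(2 * Real.pi), ‖f (s + (ρ : ℂ) * Complex.exp ((θ : ℂ) * I))‖ ^ 2) := by gcongr
    _ = _ := by
      generalize (∫ θ in (0 : ℝ)..(2 * Real.pi), ‖f (s + (ρ : ℂ) * Complex.exp ((θ : ℂ) * I))‖ ^ 2) = T
      field_simp

end Pool.Agent.SO
end

section

set_option autoImplicit false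

namespace Pool.Agent.SO

open Complex MeasureTheory

/-- Q3b. Pure counting: if each `j < J` is bad for at most `δ` elements of `T`, at most `2 δ`
elements of `T` have more than `J/2` bad `j`'s.

PROOF. Double counting of the pairs `(x, j)`, `j < J`, `P x j`: with
`T' = {x ∈ T | J < 2 #{j < J | P x j}}`,
`#T' * J/2 ≤ ∑_{x ∈ T} #{j | P x j} = ∑_{j < J} #{x ∈ T | P x j} ≤ J δ`
(`Finset.sum_card_bipartiteAbove_eq_sum_card_bipartiteBelow`), `J > 0`. -/
theorem half_grid {ι : Type} [DecidableEq ι] (T : Finset ι) (J : ℕ) (hJ : 0 < J)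
    (P : ι → ℕ → Prop) [∀ x j, Decidable (P x j)] (δ : ℝ)
    (h : ∀ j < J, (((T.filter (fun x => P x j)).card : ℕ) : ℝ) ≤ δ) :
    (((T.filter (fun x => J < 2 * ((Finset.range J).filter (fun j => P x j)).card)).card : ℕ) : ℝ)
      ≤ 2 * δ := by
  have hdc : ∑ x ∈ T, ((Finset.range J).filter (fun j => P x j)).card =
      ∑ j ∈ Finset.range J, (T.filter (fun x => P x j)).card :=
    Finset.sum_card_bipartiteAbove_eq_sum_card_bipartiteBelow P
  have h1 : (∑ j ∈ Finset.range J, (((T.filter (fun x => P x j)).card : ℕ) : ℝ)) ≤ J * δ := by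
    have := Finset.sum_le_card_nsmul (Finset.range J)
      (fun j => (((T.filter (fun x => P x j)).card : ℕ) : ℝ)) δ
      (fun j hj => h j (Finset.mem_range.1 hj))
    rw [Finset.card_range, nsmul_eq_mul] at this
    exact this
  have h2 : ((T.filter (fun x => J < 2 * ((Finset.range J).filter (fun j => P x j)).card)).card *
      J : ℕ) ≤ 2 * ∑ x ∈ T, ((Finset.range J).filter (fun j => P x j)).card := by
    calc (T.filter (fun x => J < 2 * ((Finset.range J).filter (fun j => P x j)).card)).card * J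
        = ∑ x ∈ T.filter (fun x => J < 2 * ((Finset.range J).filter (fun j => P x j)).card), J := by
          rw [Finset.sum_const, smul_eq_mul]
      _ ≤ ∑ x ∈ T.filter (fun x => J < 2 * ((Finset.range J).filter (fun j => P x j)).card),
            2 * ((Finset.range J).filter (fun j => P x j)).card :=
          Finset.sum_le_sum fun x hx => (Finset.mem_filter.1 hx).2.le
      _ ≤ ∑ x ∈ T, 2 * ((Finset.range J).filter (fun j => P x j)).card :=
          Finset.sum_le_sum_of_subset (Finset.filter_subset _ _)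
      _ = 2 * ∑ x ∈ T, ((Finset.range J).filter (fun j => P x j)).card := by
          rw [Finset.mul_sum]
  rw [hdc] at h2
  have h3 : (((T.filter (fun x => J < 2 * ((Finset.range J).filter
      (fun j => P x j)).card)).card : ℕ) : ℝ) * J ≤
      2 * ∑ j ∈ Finset.range J, (((T.filter (fun x => P x j)).card : ℕ) : ℝ) := by
    exact_mod_cast h2
  have hJ' : (0 : ℝ) < J := by exact_mod_cast hJ
  refine le_of_mul_le_mul_right ?_ hJ'
  calc _ ≤ _ := h3
    _ ≤ 2 * (J * δ) := by linarith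
    _ = 2 * δ * J := by ring

end Pool.Agent.SO
end

section

set_option autoImplicit false

namespace Pool.Agent.SO

open Complex Metric Set

/-- L0. Lower bound from a bound of the logarithmic derivative.

PROOF. Fix `w` in the ball and let `k u = (g (u w))⁻¹` for `u ∈ [0, 1]` (`u w` is in the ball). `k` is
continuous and has the derivative `-w g'(u w)/(g (u w))² = -w (g'/g)(u w) k u`, of norm at most
`L ‖w‖ ‖k u‖`. Gronwall (`norm_le_gronwallBound_of_norm_deriv_right_le` with `δ = ‖k 0‖`,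
`K = L ‖w‖`, `ε = 0`, and `gronwallBound_ε0`) gives `‖k 1‖ ≤ ‖k 0‖ exp (L ‖w‖)`, which is the
claim. -/
theorem lower_of_logDeriv (g : ℂ → ℂ) (ρ L : ℝ) (hL : 0 ≤ L)
    (hg : DifferentiableOn ℂ g (ball (0 : ℂ) ρ)) (h0 : ∀ w ∈ ball (0 : ℂ) ρ, g w ≠ 0)
    (hd : ∀ w ∈ ball (0 : ℂ) ρ, ‖deriv g w / g w‖ ≤ L) :
    ∀ w ∈ ball (0 : ℂ) ρ, Real.exp (-(L * ‖w‖)) * ‖g 0‖ ≤ ‖g w‖ := by
  intro w hw
  have hmem : ∀ u ∈ Icc (0 : ℝ) 1, (u : ℂ) * w ∈ ball (0 : ℂ) ρ := by
    intro u hu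
    rw [mem_ball_zero_iff] at hw ⊢
    rw [norm_mul, Complex.norm_real, Real.norm_eq_abs, abs_of_nonneg hu.1]
    calc u * ‖w‖ ≤ 1 * ‖w‖ := mul_le_mul_of_nonneg_right hu.2 (norm_nonneg _)
      _ < ρ := by rwa [one_mul]
  have hder : ∀ u ∈ Icc (0 : ℝ) 1, HasDerivAt (fun u : ℝ => (g ((u : ℂ) * w))⁻¹)
      (-(deriv g ((u : ℂ) * w) * w) / (g ((u : ℂ) * w)) ^ 2) u := by
    intro u hu
    have h1 : HasDerivAt g (deriv g ((u : ℂ) * w)) ((u : ℂ) * w) :=
      (hg.differentiableAt (isOpen_ball.mem_nhds (hmem u hu))).hasDerivAt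
    have h2 : HasDerivAt (fun u : ℝ => (u : ℂ) * w) w u := by
      have := (Complex.ofRealCLM.hasDerivAt (x := u)).mul_const w
      simpa using this
    have h3 : HasDerivAt (fun u : ℝ => g ((u : ℂ) * w)) (deriv g ((u : ℂ) * w) * w) u :=
      HasDerivAt.comp u h1 h2
    exact h3.fun_inv (h0 _ (hmem u hu))
  have hcont : ContinuousOn (fun u : ℝ => (g ((u : ℂ) * w))⁻¹) (Icc 0 1) :=
    fun u hu => (hder u hu).continuousAt.continuousWithinAt
  have hgr := norm_le_gronwallBound_of_norm_deriv_right_le (f := fun u : ℝ => (g ((u : ℂ) * w))⁻¹)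
    (f' := fun u : ℝ => -(deriv g ((u : ℂ) * w) * w) / (g ((u : ℂ) * w)) ^ 2)
    (δ := ‖(g 0)⁻¹‖) (K := L * ‖w‖) (ε := 0) (a := 0) (b := 1) hcont
    (fun u hu => (hder u ⟨hu.1, hu.2.le⟩).hasDerivWithinAt) (by simp) (fun u hu => by
      have hu' : u ∈ Icc (0 : ℝ) 1 := ⟨hu.1, hu.2.le⟩
      have hne := h0 _ (hmem u hu')
      have hb := hd _ (hmem u hu')
      have e : -(deriv g ((u : ℂ) * w) * w) / (g ((u : ℂ) * w)) ^ 2 =
          -w * (deriv g ((u : ℂ) * w) / g ((u : ℂ) * w)) * (g ((u : ℂ) * w))⁻¹ := by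
        field_simp
      rw [e, norm_mul, norm_mul, norm_neg, add_zero]
      refine mul_le_mul_of_nonneg_right ?_ (norm_nonneg _)
      rw [mul_comm]
      exact mul_le_mul_of_nonneg_right hb (norm_nonneg _)) 1 ⟨zero_le_one, le_rfl⟩
  rw [gronwallBound_ε0] at hgr
  simp only [Complex.ofReal_one, one_mul, sub_zero, mul_one, norm_inv] at hgr
  have hw0 : 0 < ‖g w‖ := norm_pos_iff.2 (h0 w hw)
  have h00 : 0 < ‖g 0‖ := by
    have : (0 : ℂ) ∈ ball (0 : ℂ) ρ := by
      have := hmem 0 ⟨le_rfl, zero_le_one⟩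
      simpa using this
    exact norm_pos_iff.2 (h0 0 this)
  rw [Real.exp_neg]
  have h5 : 1 ≤ ‖g 0‖⁻¹ * Real.exp (L * ‖w‖) * ‖g w‖ := by
    calc (1 : ℝ) = ‖g w‖⁻¹ * ‖g w‖ := (inv_mul_cancel₀ hw0.ne').symm
      _ ≤ _ := mul_le_mul_of_nonneg_right hgr hw0.le
  calc (Real.exp (L * ‖w‖))⁻¹ * ‖g 0‖ = (Real.exp (L * ‖w‖))⁻¹ * ‖g 0‖ * 1 := by ring
    _ ≤ (Real.exp (L * ‖w‖))⁻¹ * ‖g 0‖ * (‖g 0‖⁻¹ * Real.exp (L * ‖w‖) * ‖g w‖) :=
      mul_le_mul_of_nonneg_left h5 (by positivity)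
    _ = ‖g w‖ := by
      have := (Real.exp_pos (L * ‖w‖)).ne'
      field_simp

end Pool.Agent.SO
end

section

set_option autoImplicit false

namespace Pool.Agent.SO

open Complex Metric Set

/-- L2. Number of zeros as a contour integral.

PROOF. `Pool.Agent.EM.factor_zeros f b (ρ + b) (R - b)` (real `b` as centre): the disc
`closedBall b (R - b)` is inside `closedBall 0 R`, and `ρ + b < R - b` because
`ρ + 2 b ≤ R/2 + R/4`. It gives `f z = (∏ j, (z - w j)) * g z` on `closedBall b (R - b)`,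
`w j ∈ closedBall b (ρ + b)`, `g ≠ 0` on `closedBall b (ρ + b) ⊇ closedBall 0 ρ`.
On the circle `‖z‖ = ρ` all factors are nonzero (since `f z ≠ 0`), and
`deriv f z / f z = ∑ j, (z - w j)⁻¹ + deriv g z / g z` (the factorisation holds in a neighbourhood
of every such `z`, as `‖z - b‖ ≤ ρ + b < R - b`; `logDeriv` of a finite product:
`logDeriv_mul`, `logDeriv_prod`). Integrate: `∮ (z - w j)⁻¹ = 2 π I` if `‖w j‖ < ρ`
(`circleIntegral.integral_sub_inv_of_mem_ball`), `= 0` if `‖w j‖ > ρ` (the function is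
analytic on `closedBall 0 ρ`:
`Complex.circleIntegral_eq_zero_of_differentiable_on_off_countable`), and `‖w j‖ = ρ` is impossible.
`∮ deriv g z / g z = 0` by the same theorem (`g` analytic and zero free on `closedBall 0 ρ`).
Circle integrability of the terms: they are continuous on the circle. Take
`n = #{j | ‖w j‖ < ρ}`. If `n = 0` then `f z = ∏ (z - w j) * g z ≠ 0` on `closedBall 0 ρ`. -/
theorem zero_count (f : ℂ → ℂ) (b ρ R : ℝ) (hb : 0 ≤ b) (hR : 0 < R) (hbR : 8 * b ≤ R)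
    (hρ : 0 < ρ) (hρR : ρ ≤ R / 2) (hf : AnalyticOnNhd ℂ f (closedBall (0 : ℂ) R))
    (hfb : f (b : ℂ) ≠ 0) (hne : ∀ z : ℂ, ‖z‖ = ρ → f z ≠ 0) :
    ∃ n : ℕ, (∮ z in C(0, ρ), deriv f z / f z) = 2 * (Real.pi : ℂ) * I * n ∧
      (n = 0 → ∀ z ∈ closedBall (0 : ℂ) ρ, f z ≠ 0) := by
  have hbn : ‖(b : ℂ)‖ = b := by rw [Complex.norm_real, Real.norm_of_nonneg hb]
  have hlt : ρ + b < R - b := by linarith
  have hpos : 0 < ρ + b := by linarith
  -- inclusions
  have inc1 : closedBall (b : ℂ) (R - b) ⊆ closedBall (0 : ℂ) R := by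
    intro z hz
    rw [mem_closedBall, dist_eq_norm] at hz
    rw [mem_closedBall_zero_iff]
    calc ‖z‖ = ‖(z - b) + b‖ := by rw [sub_add_cancel]
      _ ≤ ‖z - b‖ + ‖(b : ℂ)‖ := norm_add_le _ _
      _ ≤ (R - b) + b := by rw [hbn]; linarith
      _ = R := by ring
  have inc2 : closedBall (0 : ℂ) ρ ⊆ closedBall (b : ℂ) (ρ + b) := by
    intro z hz
    rw [mem_closedBall_zero_iff] at hz
    rw [mem_closedBall, dist_eq_norm]
    calc ‖z - b‖ ≤ ‖z‖ + ‖(b : ℂ)‖ := norm_sub_le _ _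
      _ ≤ ρ + b := by rw [hbn]; linarith
  obtain ⟨N, w, g, hg, hfg, hw, hg0⟩ := Pool.Agent.EM.factor_zeros f (b : ℂ) (ρ + b) (R - b) hpos hlt
    (hf.mono inc1) hfb
  have inc3 : closedBall (b : ℂ) (ρ + b) ⊆ ball (b : ℂ) (R - b) := closedBall_subset_ball hlt
  have inc4 : closedBall (0 : ℂ) ρ ⊆ ball (b : ℂ) (R - b) := inc2.trans inc3
  have hfg' : ∀ z ∈ ball (b : ℂ) (R - b), f z = (∏ j, (z - w j)) * g z := fun z hz => hfg z (ball_subset_closedBall hz)
  have hgd : ∀ z ∈ ball (b : ℂ) (R - b), DifferentiableAt ℂ g z := fun z hz =>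
    (hg z (ball_subset_closedBall hz)).differentiableAt
  -- zeros are not on the circle
  have hwn : ∀ j, ‖w j‖ ≠ ρ := by
    intro j hj
    have h1 : w j ∈ ball (b : ℂ) (R - b) := inc4 (by rw [mem_closedBall_zero_iff]; exact hj.le)
    apply hne (w j) hj
    rw [hfg' _ h1, Finset.prod_eq_zero (Finset.mem_univ j) (sub_self _), zero_mul]
  have hgn : ∀ z ∈ closedBall (0 : ℂ) ρ, g z ≠ 0 := fun z hz => hg0 z (inc2 hz)
  -- logarithmic derivative on the circle
  have hlog : ∀ z : ℂ, ‖z‖ = ρ → deriv f z / f z = (∑ j, (z - w j)⁻¹) + deriv g z / g z := by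
    intro z hz
    have hzc : z ∈ closedBall (0 : ℂ) ρ := by rw [mem_closedBall_zero_iff]; exact hz.le
    have hzb : z ∈ ball (b : ℂ) (R - b) := inc4 hzc
    have hev : f =ᶠ[nhds z] fun z => (∏ j, (z - w j)) * g z := by
      filter_upwards [isOpen_ball.mem_nhds hzb] with y hy using hfg' y hy
    have hzw : ∀ j, z - w j ≠ 0 := by
      intro j h
      apply hwn j
      rw [← sub_eq_zero.1 h, hz]
    have h1 : logDeriv f z = logDeriv (fun z => (∏ j, (z - w j)) * g z) z := by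
      rw [logDeriv_apply, logDeriv_apply, hev.deriv_eq, hev.eq_of_nhds]
    have h2 : logDeriv (fun z => (∏ j, (z - w j)) * g z) z
        = logDeriv (fun z => ∏ j, (z - w j)) z + logDeriv g z := by
      apply logDeriv_mul
      · exact Finset.prod_ne_zero_iff.2 fun j _ => hzw j
      · exact hgn z hzc
      · exact DifferentiableAt.fun_finsetProd fun j _ => (differentiableAt_id.sub_const _)
      · exact hgd z hzb
    have h3 : logDeriv (fun z => ∏ j, (z - w j)) z = ∑ j, (z - w j)⁻¹ := by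
      have h4 := logDeriv_prod (𝕜 := ℂ) (𝕜' := ℂ) (s := (Finset.univ : Finset (Fin N))) (f := fun j z => z - w j) (x := z)
        (fun j _ => hzw j) (fun j _ => (differentiableAt_id.sub_const _))
      rw [h4]
      apply Finset.sum_congr rfl
      intro j _
      rw [logDeriv_apply]
      have : deriv (fun z => z - w j) z = 1 := by
        simp
      rw [this, one_div]
    have h5 : deriv f z / f z = logDeriv f z := (logDeriv_apply f z).symm
    rw [h5, h1, h2, h3, logDeriv_apply]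
  -- integrability of the pieces
  have hci : ∀ j, CircleIntegrable (fun z => (z - w j)⁻¹) 0 ρ := by
    intro j
    apply ContinuousOn.circleIntegrable hρ.le
    intro z hz
    rw [mem_sphere_zero_iff_norm] at hz
    apply ContinuousAt.continuousWithinAt
    apply ContinuousAt.inv₀ (by fun_prop)
    intro h
    apply hwn j
    rw [← sub_eq_zero.1 h, hz]
  have hcont : ContinuousOn (fun z => deriv g z / g z) (closedBall (0 : ℂ) ρ) := by
    intro z hz
    apply ContinuousAt.continuousWithinAt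
    have h1 := hg z (ball_subset_closedBall (inc4 hz))
    exact (h1.deriv.continuousAt).div h1.continuousAt (hgn z hz)
  have hcg : CircleIntegrable (fun z => deriv g z / g z) 0 ρ :=
    ContinuousOn.circleIntegrable hρ.le (hcont.mono sphere_subset_closedBall)
  have hg_int : (∮ z in C(0, ρ), deriv g z / g z) = 0 := by
    apply Complex.circleIntegral_eq_zero_of_differentiable_on_off_countable hρ.le Set.countable_empty hcont
    intro z hz
    have hzc : z ∈ closedBall (0 : ℂ) ρ := ball_subset_closedBall hz.1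
    have h1 := hg z (ball_subset_closedBall (inc4 hzc))
    exact (h1.deriv.differentiableAt).div h1.differentiableAt (hgn z hzc)
  have hj_int : ∀ j, (∮ z in C(0, ρ), (z - w j)⁻¹) = if ‖w j‖ < ρ then 2 * (Real.pi : ℂ) * I else 0 := by
    intro j
    split_ifs with h
    · exact circleIntegral.integral_sub_inv_of_mem_ball (by rw [mem_ball_zero_iff]; exact h)
    · have hgt : ρ < ‖w j‖ := lt_of_le_of_ne (not_lt.1 h) (Ne.symm (hwn j))
      have hnz : ∀ z ∈ closedBall (0 : ℂ) ρ, z - w j ≠ 0 := by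
        intro z hz h0
        rw [mem_closedBall_zero_iff] at hz
        rw [sub_eq_zero.1 h0] at hz
        linarith
      apply Complex.circleIntegral_eq_zero_of_differentiable_on_off_countable hρ.le Set.countable_empty
      · intro z hz
        apply ContinuousAt.continuousWithinAt
        exact ContinuousAt.inv₀ (by fun_prop) (hnz z hz)
      · intro z hz
        exact DifferentiableAt.inv (by fun_prop) (hnz z (ball_subset_closedBall hz.1))
  refine ⟨(Finset.univ.filter fun j => ‖w j‖ < ρ).card, ?_, ?_⟩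
  · have h1 : (∮ z in C(0, ρ), deriv f z / f z) = ∮ z in C(0, ρ), ((∑ j, (z - w j)⁻¹) + deriv g z / g z) := by
      apply circleIntegral.integral_congr hρ.le
      intro z hz
      rw [mem_sphere_zero_iff_norm] at hz
      exact hlog z hz
    have hsum : CircleIntegrable (fun z => ∑ j, (z - w j)⁻¹) 0 ρ := by
      have := CircleIntegrable.fun_sum (Finset.univ : Finset (Fin N)) (f := fun j z => (z - w j)⁻¹) (c := 0) (R := ρ)
        (fun j _ => hci j)
      exact this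
    rw [h1, circleIntegral.integral_add hsum hcg, hg_int, add_zero, circleIntegral.integral_fun_sum fun j _ => hci j,
      Finset.sum_congr rfl fun j _ => hj_int j, Finset.sum_ite, Finset.sum_const_zero, add_zero, Finset.sum_const, nsmul_eq_mul]
    ring
  · intro h0 z hz
    have hzb : z ∈ ball (b : ℂ) (R - b) := inc4 hz
    rw [hfg' z hzb]
    apply mul_ne_zero _ (hgn z hz)
    rw [Finset.prod_ne_zero_iff]
    intro j _ hj
    rw [Finset.card_eq_zero, Finset.filter_eq_empty_iff] at h0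
    have h1 := h0 (Finset.mem_univ j)
    rw [mem_closedBall_zero_iff, sub_eq_zero.1 hj] at hz
    exact h1 (lt_of_le_of_ne hz (hwn j))

end Pool.Agent.SO
end

section

set_option autoImplicit false

namespace Pool.Agent.SO

open Complex MeasureTheory

/-- R0a. PROOF. `stp (1/16) (1/8) x ∈ [0, 1]`, `= 0` for `x ≥ 1/8`
(`Real.smoothTransition.zero_of_nonpos`), i.e. for `d ≥ r^(1/8)` (`log d ≥ (1/8) log r`). Each term of `MM`
has norm at most `1` (`|μ| ≤ 1`, `‖χ d‖ ≤ 1`, `‖d^(-s)‖ = d^(-re s) ≤ 1` for `d ≥ 1`) and vanishes unless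
`d < r^(1/8)`; so `‖MM‖ ≤ #{1 ≤ d ≤ ⌊r^(1/8)⌋} ≤ r^(1/8)`. -/
theorem MM_le (r : ℕ) (hr : 2 ≤ r) (χ : DirichletCharacter ℂ r) (s : ℂ) (hs : 0 ≤ s.re) :
    ‖MM r χ s‖ ≤ (r : ℝ) ^ (1 / 8 : ℝ) := by
  have hr1 : (1 : ℝ) < r := by exact_mod_cast (by omega : 1 < r)
  have hr0 : (0 : ℝ) < r := by linarith
  have hl : 0 < Real.log r := Real.log_pos hr1
  set M := ⌊(r : ℝ) ^ (1 / 8 : ℝ)⌋₊ with hM
  have hterm : ∀ d ∈ Finset.Icc 1 r, ‖(ArithmeticFunction.moebius d : ℂ) *
      (stp (1 / 16) (1 / 8) (Real.log d / Real.log r) : ℂ) * χ d *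
        (d : ℂ) ^ (-s)‖ ≤ if d ∈ Finset.Icc 1 M then (1 : ℝ) else 0 := by
    intro d hd
    rw [Finset.mem_Icc] at hd
    have hd0 : (0 : ℝ) < d := by exact_mod_cast hd.1
    split_ifs with hdM
    · rw [norm_mul, norm_mul, norm_mul]
      have h1 : ‖(ArithmeticFunction.moebius d : ℂ)‖ ≤ 1 := by
        rw [Complex.norm_intCast]
        exact_mod_cast ArithmeticFunction.abs_moebius_le_one
      have h2 : ‖((stp (1 / 16) (1 / 8) (Real.log d / Real.log r) : ℝ) : ℂ)‖ ≤ 1 := by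
        rw [Complex.norm_real, Real.norm_eq_abs]
        unfold stp
        rw [abs_of_nonneg (Real.smoothTransition.nonneg _)]
        exact Real.smoothTransition.le_one _
      have h3 : ‖χ (d : ZMod r)‖ ≤ 1 := DirichletCharacter.norm_le_one χ _
      have h4 : ‖(d : ℂ) ^ (-s)‖ ≤ 1 := by
        rw [Complex.norm_natCast_cpow_of_pos hd.1]
        apply Real.rpow_le_one_of_one_le_of_nonpos (by exact_mod_cast hd.1)
        rw [Complex.neg_re]
        linarith
      calc _ ≤ (1 : ℝ) * 1 * 1 * 1 := by gcongr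
        _ = 1 := by norm_num
    · have h1 : M < d := by
        by_contra hcon
        push Not at hcon
        exact hdM (Finset.mem_Icc.2 ⟨hd.1, hcon⟩)
      have h2 : (r : ℝ) ^ (1 / 8 : ℝ) < d := Nat.lt_of_floor_lt h1
      have h3 : 1 / 8 ≤ Real.log d / Real.log r := by
        rw [le_div_iff₀ hl]
        have h4 := Real.log_le_log (by positivity) h2.le
        rwa [Real.log_rpow hr0] at h4
      have h4 : stp (1 / 16) (1 / 8) (Real.log d / Real.log r) = 0 := by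
        unfold stp
        apply Real.smoothTransition.zero_of_nonpos
        exact div_nonpos_of_nonpos_of_nonneg (by linarith) (by norm_num)
      rw [h4]
      simp
  have h1 : ‖MM r χ s‖ ≤ ∑ d ∈ Finset.Icc 1 r, if d ∈ Finset.Icc 1 M then (1 : ℝ) else 0 := by
    unfold MM
    exact (norm_sum_le _ _).trans (Finset.sum_le_sum hterm)
  refine h1.trans ?_
  rw [← Finset.sum_filter, Finset.sum_const, nsmul_eq_mul, mul_one]
  have h2 : ((Finset.Icc 1 r).filter (fun d => d ∈ Finset.Icc 1 M)).card ≤ M := by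
    calc ((Finset.Icc 1 r).filter (fun d => d ∈ Finset.Icc 1 M)).card
        ≤ (Finset.Icc 1 M).card := by
          apply Finset.card_le_card
          intro d hd
          exact (Finset.mem_filter.1 hd).2
      _ = M := by rw [Nat.card_Icc]; omega
  calc (((Finset.Icc 1 r).filter (fun d => d ∈ Finset.Icc 1 M)).card : ℝ) ≤ (M : ℝ) := by
        exact_mod_cast h2
    _ ≤ (r : ℝ) ^ (1 / 8 : ℝ) := Nat.floor_le (by positivity)

end Pool.Agent.SO
end

section

set_option autoImplicit false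

namespace Pool.Agent.SO

open Complex MeasureTheory

/-- R0b. PROOF. Cauchy's formula for `f²` on the circle `|w| = R + 1`
(`Complex.two_pi_I_inv_smul_circleIntegral_sub_inv_smul_of_differentiable_on_off_countable` or
`DiffContOnCl.circleIntegral_sub_inv_smul`): `f(z)² = (1/(2πi)) ∮ f(w)²/(w - z) dw`, and
`‖w - z‖ ≥ 1` on the circle, so
`‖f z‖² ≤ (1/2π) ∫_0^{2π} ‖f(w(θ))‖² (R + 1) dθ = (R + 1) circleAverage ≤ (R + 1) M`. -/
theorem sq_le_circleAverage (f : ℂ → ℂ) (hf : Differentiable ℂ f) (R M : ℝ) (hR : 1 ≤ R)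
    (h : Real.circleAverage (fun w => ‖f w‖ ^ 2) 0 (R + 1) ≤ M) (z : ℂ) (hz : ‖z‖ ≤ R) :
    ‖f z‖ ^ 2 ≤ (R + 1) * M := by
  have hR0 : 0 < R + 1 := by linarith
  have habs : |R + 1| = R + 1 := abs_of_pos hR0
  have hg : Differentiable ℂ (fun w => f w ^ 2) := hf.pow 2
  have hzb : z ∈ Metric.ball (0 : ℂ) |R + 1| := by
    rw [habs, mem_ball_zero_iff]
    linarith
  have h1 : Real.circleAverage (fun w => ((w - 0) / (w - z)) • (f w ^ 2)) 0 (R + 1) = f z ^ 2 :=
    DiffContOnCl.circleAverage_smul_div (hg.diffContOnCl) hzb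
  have h2 : ‖Real.circleAverage (fun w => ((w - 0) / (w - z)) • (f w ^ 2)) 0 (R + 1)‖ ≤
      (R + 1) * Real.circleAverage (fun w => ‖f w‖ ^ 2) 0 (R + 1) := by
    rw [Real.circleAverage_def, Real.circleAverage_def, norm_smul, smul_eq_mul, mul_left_comm]
    rw [Real.norm_of_nonneg (by positivity)]
    apply mul_le_mul_of_nonneg_left _ (by positivity)
    rw [← intervalIntegral.integral_const_mul]
    apply intervalIntegral.norm_integral_le_of_norm_le (by positivity)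
    · apply Filter.Eventually.of_forall
      intro θ _
      rw [norm_smul, norm_pow, norm_div, sub_zero]
      apply mul_le_mul_of_nonneg_right _ (by positivity)
      have h3 : ‖circleMap 0 (R + 1) θ‖ = R + 1 := by
        rw [norm_circleMap_zero, habs]
      rw [h3]
      have h4 : 1 ≤ ‖circleMap 0 (R + 1) θ - z‖ := by
        have h5 := norm_sub_norm_le (circleMap 0 (R + 1) θ) z
        rw [h3] at h5
        linarith
      exact div_le_self hR0.le h4
    · apply Continuous.intervalIntegrable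
      exact continuous_const.mul (((hf.continuous.comp (continuous_circleMap 0 (R + 1))).norm).pow 2)
  rw [h1, norm_pow] at h2
  exact h2.trans (mul_le_mul_of_nonneg_left h hR0.le)

end Pool.Agent.SO
end

section

set_option autoImplicit false

namespace Pool.Agent.SO

open Complex MeasureTheory

/-- R0c. Weighted Cauchy-Schwarz in the form used below.

PROOF. For `w > 0`: `f g k ≤ (w/2) f² k + (1/(2w)) g² k` pointwise. Integrate
(`integral_mono_of_nonneg`; the right side is integrable), with `w = a/(2 K)`: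
`a ≤ ∫ f g k ≤ (w/2) K + (1/(2w)) ∫ g² k = a/4 + (K/a) ∫ g² k`, so `(3/4) a ≤ (K/a) ∫ g² k`, in
particular `a²/(4K) ≤ ∫ g² k`. -/
theorem weighted_cs (f g k : ℝ → ℝ) (hf : ∀ x, 0 ≤ f x) (hg : ∀ x, 0 ≤ g x) (hk : ∀ x, 0 ≤ k x)
    (h1 : Integrable (fun x => f x ^ 2 * k x)) (h2 : Integrable (fun x => g x ^ 2 * k x))
    (a K : ℝ) (ha : 0 < a) (hK : 0 < K) (hfK : ∫ x, f x ^ 2 * k x ≤ K)
    (h : a ≤ ∫ x, f x * g x * k x) :
    a ^ 2 / (4 * K) ≤ ∫ x, g x ^ 2 * k x := by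
  have hpt : ∀ x, f x * g x * k x ≤
      a / (4 * K) * (f x ^ 2 * k x) + K / a * (g x ^ 2 * k x) := by
    intro x
    have h3 : 0 ≤ (a * f x - 2 * K * g x) ^ 2 / (4 * K * a) * k x := by
      have := hk x
      positivity
    have h4 : (a * f x - 2 * K * g x) ^ 2 / (4 * K * a) * k x =
        a / (4 * K) * (f x ^ 2 * k x) + K / a * (g x ^ 2 * k x) - f x * g x * k x := by
      field_simp
      ring
    linarith
  have hint : ∫ x, f x * g x * k x ≤
      ∫ x, (a / (4 * K) * (f x ^ 2 * k x) + K / a * (g x ^ 2 * k x)) := by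
    refine integral_mono_of_nonneg ?_ ((h1.const_mul _).add (h2.const_mul _)) ?_
    · exact Filter.Eventually.of_forall fun x => mul_nonneg (mul_nonneg (hf x) (hg x)) (hk x)
    · exact Filter.Eventually.of_forall hpt
  rw [integral_add (h1.const_mul _) (h2.const_mul _), integral_const_mul,
    integral_const_mul] at hint
  have h5 : a / (4 * K) * ∫ x, f x ^ 2 * k x ≤ a / (4 * K) * K :=
    mul_le_mul_of_nonneg_left hfK (by positivity)
  have h6 : a / (4 * K) * K = a / 4 := by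
    field_simp
  have h7 : 3 / 4 * a ≤ K / a * ∫ x, g x ^ 2 * k x := by linarith
  have h8 : a / K * (3 / 4 * a) ≤ a / K * (K / a * ∫ x, g x ^ 2 * k x) :=
    mul_le_mul_of_nonneg_left h7 (by positivity)
  have h9 : a / K * (K / a * ∫ x, g x ^ 2 * k x) = ∫ x, g x ^ 2 * k x := by
    field_simp
  have h10 : a / K * (3 / 4 * a) = 3 * (a ^ 2 / (4 * K)) := by
    field_simp
  have h11 : 0 ≤ a ^ 2 / (4 * K) := by positivity
  rw [h9, h10] at h8
  linarith

end Pool.Agent.SO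
end

section

set_option autoImplicit false

namespace Pool.Agent.SO

open Complex MeasureTheory

/-- the cut-off -/
noncomputable def S1_phi (v : ℝ) : ℂ :=
  ((Real.smoothTransition (v + 1) * Real.smoothTransition (10 - v) : ℝ) : ℂ)

theorem S1_contDiff : ContDiff ℝ (⊤ : ℕ∞) S1_phi := by
  unfold S1_phi
  exact Complex.ofRealCLM.contDiff.comp
    ((Real.smoothTransition.contDiff.comp (contDiff_id.add contDiff_const)).mul
      (Real.smoothTransition.contDiff.comp (contDiff_const.sub contDiff_id)))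

theorem S1_tsupport (k : ℕ) : tsupport (iteratedDeriv k S1_phi) ⊆ Set.Icc (-1) 10 := by
  induction k with
  | zero =>
    rw [iteratedDeriv_zero]
    refine closure_minimal (fun v hv => ?_) isClosed_Icc
    by_contra hn
    rw [Set.mem_Icc, not_and_or, not_le, not_le] at hn
    refine hv ?_
    unfold S1_phi
    rcases hn with h | h
    · rw [Real.smoothTransition.zero_of_nonpos (by linarith), zero_mul, Complex.ofReal_zero]
    · rw [Real.smoothTransition.zero_of_nonpos (x := 10 - v) (by linarith), mul_zero,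
        Complex.ofReal_zero]
  | succ k ih =>
    rw [iteratedDeriv_succ]
    exact closure_minimal (support_deriv_subset.trans ih) isClosed_Icc

theorem S1_hcs (k : ℕ) : HasCompactSupport (iteratedDeriv k S1_phi) :=
  isCompact_Icc.of_isClosed_subset (isClosed_tsupport _) (S1_tsupport k)

theorem S1_cont (k : ℕ) : Continuous (iteratedDeriv k S1_phi) :=
  S1_contDiff.continuous_iteratedDeriv k (by exact_mod_cast le_top)

/-- Laplace transforms of the derivatives of the cut-off -/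
noncomputable def S1_G (k : ℕ) (z : ℂ) : ℂ :=
  ∫ w : ℝ, iteratedDeriv k S1_phi w * Complex.exp (-(z * w))

theorem S1_integrable (k : ℕ) (z : ℂ) :
    Integrable fun w : ℝ => iteratedDeriv k S1_phi w * Complex.exp (-(z * w)) := by
  refine Continuous.integrable_of_hasCompactSupport ?_ (S1_hcs k).mul_right
  exact (S1_cont k).mul (by fun_prop)

theorem S1_step (k : ℕ) (z : ℂ) : z * S1_G k z = S1_G (k + 1) z := by
  have hd : ∀ w : ℝ, HasDerivAt
      (fun w : ℝ => iteratedDeriv k S1_phi w * Complex.exp (-(z * w)))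
      (iteratedDeriv (k + 1) S1_phi w * Complex.exp (-(z * w)) -
        z * (iteratedDeriv k S1_phi w * Complex.exp (-(z * w)))) w := by
    intro w
    have h1 : HasDerivAt (iteratedDeriv k S1_phi) (iteratedDeriv (k + 1) S1_phi w) w := by
      rw [iteratedDeriv_succ]
      have hdiff : Differentiable ℝ (iteratedDeriv k S1_phi) :=
        S1_contDiff.differentiable_iteratedDeriv k (by exact_mod_cast WithTop.coe_lt_top k)
      exact (hdiff w).hasDerivAt
    have h2 : HasDerivAt (fun w : ℝ => Complex.exp (-(z * w)))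
        (Complex.exp (-(z * w)) * (-(z * 1))) w := by
      have h3 : HasDerivAt (fun w : ℝ => -(z * (w : ℂ))) (-(z * 1)) w :=
        ((Complex.ofRealCLM.hasDerivAt (x := w)).const_mul z).neg
      exact h3.cexp
    have h4 := h1.mul h2
    refine h4.congr_deriv ?_
    ring
  have h0 := integral_eq_zero_of_hasDerivAt_of_integrable hd
    ((S1_integrable (k + 1) z).sub ((S1_integrable k z).const_mul z)) (S1_integrable k z)
  rw [integral_sub (S1_integrable (k + 1) z) ((S1_integrable k z).const_mul z),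
    integral_const_mul] at h0
  unfold S1_G
  exact (sub_eq_zero.1 h0).symm

theorem S1_pow (k : ℕ) (z : ℂ) : z ^ k * S1_G 0 z = S1_G k z := by
  induction k with
  | zero => rw [pow_zero, one_mul]
  | succ k ih => rw [pow_succ', mul_assoc, ih, S1_step]

/-- the `L¹` norm of the derivatives -/
noncomputable def S1_A (k : ℕ) : ℝ := ∫ w : ℝ, ‖iteratedDeriv k S1_phi w‖

theorem S1_A_nonneg (k : ℕ) : 0 ≤ S1_A k := integral_nonneg fun _ => norm_nonneg _

theorem S1_bound (k : ℕ) (z : ℂ) (R : ℝ) (hz : |z.re| ≤ R) :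
    ‖S1_G k z‖ ≤ Real.exp (10 * R) * S1_A k := by
  have hR : 0 ≤ R := (abs_nonneg _).trans hz
  unfold S1_G S1_A
  refine (norm_integral_le_integral_norm _).trans ?_
  rw [← integral_const_mul]
  refine integral_mono (S1_integrable k z).norm
    (((S1_cont k).integrable_of_hasCompactSupport (S1_hcs k)).norm.const_mul _) fun w => ?_
  change ‖iteratedDeriv k S1_phi w * Complex.exp (-(z * w))‖ ≤
    Real.exp (10 * R) * ‖iteratedDeriv k S1_phi w‖
  rw [norm_mul, mul_comm]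
  by_cases hw : iteratedDeriv k S1_phi w = 0
  · rw [hw, norm_zero, mul_zero, mul_zero]
  · refine mul_le_mul_of_nonneg_right ?_ (norm_nonneg _)
    have hmem := S1_tsupport k (subset_tsupport _ hw)
    rw [Complex.norm_exp, Real.exp_le_exp, Complex.neg_re, Complex.re_mul_ofReal]
    have h1 : |z.re * w| ≤ R * 10 := by
      rw [abs_mul]
      refine mul_le_mul hz ?_ (abs_nonneg _) hR
      rw [abs_le]
      exact ⟨by linarith [hmem.1], hmem.2⟩
    linarith [neg_abs_le (z.re * w)]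

/-- the function whose Fourier transform is the kernel -/
noncomputable def S1_f (U x v : ℝ) : ℂ := S1_phi (v - U) * Complex.exp (-((x * v : ℝ) : ℂ))

theorem S1_phi_cont : Continuous S1_phi := by
  have := S1_cont 0
  rwa [iteratedDeriv_zero] at this

theorem S1_f_cont (U x : ℝ) : Continuous (S1_f U x) := by
  unfold S1_f
  exact (S1_phi_cont.comp (continuous_id.sub continuous_const)).mul (by fun_prop)

theorem S1_f_integrable (U x : ℝ) : Integrable (S1_f U x) := by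
  refine (S1_f_cont U x).integrable_of_hasCompactSupport ?_
  refine HasCompactSupport.of_support_subset_isCompact (K := Set.Icc (U - 1) (U + 10))
    isCompact_Icc fun v hv => ?_
  have h1 : S1_phi (v - U) ≠ 0 := left_ne_zero_of_mul hv
  have h2 := S1_tsupport 0 (by
    rw [iteratedDeriv_zero]
    exact subset_tsupport _ h1)
  exact ⟨by linarith [h2.1], by linarith [h2.2]⟩

open FourierTransform in
/-- The Fourier transform in terms of `S1_G`. -/
theorem S1_fourier (U x ξ : ℝ) : 𝓕 (S1_f U x) ξ =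
    Complex.exp (-(((x : ℂ) + 2 * Real.pi * ξ * I) * U)) *
      S1_G 0 ((x : ℂ) + 2 * Real.pi * ξ * I) := by
  rw [Real.fourier_real_eq_integral_exp_smul]
  unfold S1_G
  rw [iteratedDeriv_zero, ← integral_const_mul]
  rw [← integral_sub_right_eq_self (fun w : ℝ =>
    Complex.exp (-(((x : ℂ) + 2 * Real.pi * ξ * I) * U)) *
      (S1_phi w * Complex.exp (-(((x : ℂ) + 2 * Real.pi * ξ * I) * w)))) U]
  refine integral_congr_ae (Filter.Eventually.of_forall fun v => ?_)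
  change Complex.exp (((-2 * Real.pi * v * ξ : ℝ) : ℂ) * I) •
      (S1_phi (v - U) * Complex.exp (-((x * v : ℝ) : ℂ))) =
    Complex.exp (-(((x : ℂ) + 2 * Real.pi * ξ * I) * U)) *
      (S1_phi (v - U) * Complex.exp (-(((x : ℂ) + 2 * Real.pi * ξ * I) * ((v - U : ℝ) : ℂ))))
  rw [smul_eq_mul]
  have e : Complex.exp (((-2 * Real.pi * v * ξ : ℝ) : ℂ) * I) * Complex.exp (-((x * v : ℝ) : ℂ)) =
      Complex.exp (-(((x : ℂ) + 2 * Real.pi * ξ * I) * U)) *
        Complex.exp (-(((x : ℂ) + 2 * Real.pi * ξ * I) * ((v - U : ℝ) : ℂ))) := by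
    rw [← Complex.exp_add, ← Complex.exp_add]
    congr 1
    push_cast
    ring
  linear_combination S1_phi (v - U) * e

open FourierTransform in
theorem S1_decay (B R U x : ℝ) (hU : 0 ≤ U) (hUB : U ≤ B) (hx : |x| ≤ R) (k : ℕ) (ξ : ℝ) :
    |2 * Real.pi * ξ| ^ k * ‖𝓕 (S1_f U x) ξ‖ ≤ Real.exp (R * B) * (Real.exp (10 * R) * S1_A k) := by
  have hR : 0 ≤ R := (abs_nonneg _).trans hx
  set z : ℂ := (x : ℂ) + 2 * Real.pi * ξ * I with hz
  have hz' : z = (x : ℂ) + ((2 * Real.pi * ξ : ℝ) : ℂ) * I := by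
    rw [hz]
    push_cast
    ring
  have hre : z.re = x := by rw [hz']; simp
  have him : z.im = 2 * Real.pi * ξ := by rw [hz']; simp
  have h1 : |2 * Real.pi * ξ| ≤ ‖z‖ := by
    rw [← him]
    exact Complex.abs_im_le_norm z
  have h2 : ‖z‖ ^ k * ‖S1_G 0 z‖ ≤ Real.exp (10 * R) * S1_A k := by
    rw [← norm_pow, ← norm_mul, S1_pow]
    exact S1_bound k z R (by rw [hre]; exact hx)
  have h3 : ‖Complex.exp (-(z * U))‖ ≤ Real.exp (R * B) := by
    rw [Complex.norm_exp, Real.exp_le_exp, Complex.neg_re, Complex.re_mul_ofReal, hre]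
    have h4 : |x * U| ≤ R * B := by
      rw [abs_mul, abs_of_nonneg hU]
      exact mul_le_mul hx hUB hU hR
    linarith [neg_abs_le (x * U)]
  rw [S1_fourier, ← hz, norm_mul]
  calc |2 * Real.pi * ξ| ^ k * (‖Complex.exp (-(z * U))‖ * ‖S1_G 0 z‖)
      = ‖Complex.exp (-(z * U))‖ * (|2 * Real.pi * ξ| ^ k * ‖S1_G 0 z‖) := by ring
    _ ≤ Real.exp (R * B) * (‖z‖ ^ k * ‖S1_G 0 z‖) := by
        refine mul_le_mul h3 ?_ (by positivity) (Real.exp_pos _).le
        exact mul_le_mul_of_nonneg_right (pow_le_pow_left₀ (abs_nonneg _) h1 k) (norm_nonneg _)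
    _ ≤ _ := mul_le_mul_of_nonneg_left h2 (Real.exp_pos _).le

open FourierTransform in
theorem S1_fourier_cont (U x : ℝ) : Continuous (𝓕 (S1_f U x)) :=
  VectorFourier.fourierIntegral_continuous Real.continuous_fourierChar
    (by exact continuous_inner) (S1_f_integrable U x)

open FourierTransform in
theorem S1_fourier_integrable (U x : ℝ) : Integrable (𝓕 (S1_f U x)) := by
  have hU' : (0 : ℝ) ≤ |U| := abs_nonneg U
  obtain ⟨C, hC0, hC⟩ : ∃ C : ℝ, 0 ≤ C ∧ ∀ ξ : ℝ, ‖𝓕 (S1_f U x) ξ‖ ≤ C * (1 + ξ ^ 2)⁻¹ := by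
    -- crude bounds through the decay for `U` arbitrary
    have hb : ∀ k : ℕ, ∀ ξ : ℝ, |2 * Real.pi * ξ| ^ k * ‖𝓕 (S1_f U x) ξ‖ ≤
        Real.exp (|x| * |U|) * (Real.exp (10 * |x|) * S1_A k) := by
      intro k ξ
      set z : ℂ := (x : ℂ) + 2 * Real.pi * ξ * I with hz
      have hz' : z = (x : ℂ) + ((2 * Real.pi * ξ : ℝ) : ℂ) * I := by
        rw [hz]
        push_cast
        ring
      have hre : z.re = x := by rw [hz']; simp
      have him : z.im = 2 * Real.pi * ξ := by rw [hz']; simp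
      have h1 : |2 * Real.pi * ξ| ≤ ‖z‖ := by
        rw [← him]
        exact Complex.abs_im_le_norm z
      have h2 : ‖z‖ ^ k * ‖S1_G 0 z‖ ≤ Real.exp (10 * |x|) * S1_A k := by
        rw [← norm_pow, ← norm_mul, S1_pow]
        exact S1_bound k z |x| (by rw [hre])
      have h3 : ‖Complex.exp (-(z * U))‖ ≤ Real.exp (|x| * |U|) := by
        rw [Complex.norm_exp, Real.exp_le_exp, Complex.neg_re, Complex.re_mul_ofReal, hre,
          ← abs_mul]
        linarith [neg_abs_le (x * U)]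
      rw [S1_fourier, ← hz, norm_mul]
      calc |2 * Real.pi * ξ| ^ k * (‖Complex.exp (-(z * U))‖ * ‖S1_G 0 z‖)
          = ‖Complex.exp (-(z * U))‖ * (|2 * Real.pi * ξ| ^ k * ‖S1_G 0 z‖) := by ring
        _ ≤ Real.exp (|x| * |U|) * (‖z‖ ^ k * ‖S1_G 0 z‖) := by
            refine mul_le_mul h3 ?_ (by positivity) (Real.exp_pos _).le
            exact mul_le_mul_of_nonneg_right (pow_le_pow_left₀ (abs_nonneg _) h1 k) (norm_nonneg _)
        _ ≤ _ := mul_le_mul_of_nonneg_left h2 (Real.exp_pos _).le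
    refine ⟨Real.exp (|x| * |U|) * (Real.exp (10 * |x|) * S1_A 0) +
      Real.exp (|x| * |U|) * (Real.exp (10 * |x|) * S1_A 2), ?_, fun ξ => ?_⟩
    · have := S1_A_nonneg 0
      have := S1_A_nonneg 2
      positivity
    · have h0 := hb 0 ξ
      have h2 := hb 2 ξ
      rw [pow_zero, one_mul] at h0
      rw [← div_eq_mul_inv, le_div_iff₀ (by positivity), mul_comm, add_mul, one_mul]
      refine add_le_add h0 (le_trans ?_ h2)
      refine mul_le_mul_of_nonneg_right ?_ (norm_nonneg _)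
      rw [sq_abs]
      have hpi := Real.pi_gt_three
      have : (1 : ℝ) ≤ (2 * Real.pi) ^ 2 := by nlinarith
      calc ξ ^ 2 = 1 * ξ ^ 2 := by ring
        _ ≤ (2 * Real.pi) ^ 2 * ξ ^ 2 := mul_le_mul_of_nonneg_right this (sq_nonneg _)
        _ = _ := by ring
  exact (integrable_inv_one_add_sq.const_mul C).mono' (S1_fourier_cont U x).aestronglyMeasurable
    (Filter.Eventually.of_forall hC)

/-- S1. The frequency separating kernel.

PROOF. Let `φ₀ v = Real.smoothTransition (v + 1) * Real.smoothTransition (10 - v)`: smooth, `= 1` on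
`[0, 9]`, `= 0` for `v ≤ -1` or `v ≥ 10`. For given `U, x` let `φ v = φ₀ (v - U) * exp (-x v)`,
smooth with compact support (a Schwartz function: `HasCompactSupport.toSchwartzMap` or similar), and
`κ y = (1/(2π)) ∫ φ v * exp (-I y v) dv`. Fourier inversion
(`MeasureTheory.Integrable.fourierInv_fourier_eq` / Schwartz inversion, or
`Continuous.fourierInv_fourier_eq`) gives `∫ κ y exp (I y v) dy = φ v` for all `v`: this is
`exp (-x v)` for `U ≤ v ≤ U + 5` and `0` for `v ≥ U + 10`. Bound: substituting `v = w + U`,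
`κ y = (1/2π) exp (-xU) exp (-I y U) ∫ F_x(w) exp (-I y w) dw`, `F_x w = φ₀ w * exp (-x w)`, so
`|κ y| ≤ exp (R B) |F̂_x(y)|` and, integrating by parts `k` times (or
`Real.fourierIntegral_iteratedDeriv` and `norm ≤ L¹` norm),
`|y|^k |F̂_x(y)| ≤ ∫ |F_x^{(k)}| ≤ 11 sup_{w ∈ [-1,10], |x| ≤ R} |F_x^{(k)}(w)| =: C_k < ∞`
(`F_x^{(k)} = ∑_i binom(k,i) φ₀^{(k-i)} (-x)^i exp (-x w)`: bounded by
`2^k max_i sup|φ₀^{(i)}| (1 + R)^k exp (10 R)`; a continuous function with compact support is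
bounded). Using `k = 0` and `k = m`: `(1 + |y|)^m ≤ 2^m (1 + |y|^m)`, so
`|κ y| ≤ 2^m (C_0 + C_m) exp (R B)/(1 + |y|)^m`. `κ` is continuous (Fourier transform of an
integrable function). -/
theorem kernel (B R : ℝ) (m : ℕ) : ∃ C : ℝ, 0 ≤ C ∧ ∀ U x : ℝ, 0 ≤ U → U ≤ B → |x| ≤ R →
    ∃ κ : ℝ → ℂ, Continuous κ ∧ (∀ y, ‖κ y‖ ≤ C / (1 + |y|) ^ m) ∧
      (∀ v : ℝ, U ≤ v → v ≤ U + 5 →
        ∫ y : ℝ, κ y * Complex.exp (I * y * v) = Complex.exp (-((x * v : ℝ) : ℂ))) ∧
      (∀ v : ℝ, U + 10 ≤ v → ∫ y : ℝ, κ y * Complex.exp (I * y * v) = 0) := by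
  have hA0 := S1_A_nonneg 0
  have hAm := S1_A_nonneg m
  have hpi := Real.pi_pos
  refine ⟨2 ^ m * (Real.exp (R * B) * (Real.exp (10 * R) * S1_A 0) +
    Real.exp (R * B) * (Real.exp (10 * R) * S1_A m)), by positivity, fun U x hU hUB hx => ?_⟩
  have hinv : ∀ v : ℝ, ∫ y : ℝ, (((1 / (2 * Real.pi) : ℝ) : ℂ) *
      FourierTransform.fourier (S1_f U x) (y / (2 * Real.pi))) * Complex.exp (I * y * v) =
        S1_f U x v := by
    intro v
    have h1 := Measure.integral_comp_div (fun ξ : ℝ => ((1 / (2 * Real.pi) : ℝ) : ℂ) *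
      FourierTransform.fourier (S1_f U x) ξ * Complex.exp (I * ((2 * Real.pi * ξ : ℝ) : ℂ) * v))
      (2 * Real.pi)
    have h2 : ∀ y : ℝ, 2 * Real.pi * (y / (2 * Real.pi)) = y := by
      intro y
      field_simp
    simp only [h2] at h1
    rw [h1]
    have h3 := (S1_f_integrable U x).fourierInv_fourier_eq (S1_fourier_integrable U x)
      (v := v) (S1_f_cont U x).continuousAt
    rw [← h3, Real.fourierInv_eq', ← integral_smul]
    refine integral_congr_ae (Filter.Eventually.of_forall fun ξ => ?_)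
    change |2 * Real.pi| • (((1 / (2 * Real.pi) : ℝ) : ℂ) *
      FourierTransform.fourier (S1_f U x) ξ * Complex.exp (I * ((2 * Real.pi * ξ : ℝ) : ℂ) * v)) =
      Complex.exp (((2 * Real.pi * inner ℝ ξ v : ℝ) : ℂ) * I) •
        FourierTransform.fourier (S1_f U x) ξ
    have e1 : inner ℝ ξ v = ξ * v := by
      simp [mul_comm]
    have e2 : Complex.exp (I * ((2 * Real.pi * ξ : ℝ) : ℂ) * v) =
        Complex.exp (((2 * Real.pi * (ξ * v) : ℝ) : ℂ) * I) := by
      congr 1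
      push_cast
      ring
    rw [e1, e2, abs_of_pos (by positivity), Complex.real_smul, smul_eq_mul]
    have e3 : ((2 * Real.pi : ℝ) : ℂ) * ((1 / (2 * Real.pi) : ℝ) : ℂ) = 1 := by
      rw [← Complex.ofReal_mul, mul_one_div_cancel (by positivity), Complex.ofReal_one]
    linear_combination (FourierTransform.fourier (S1_f U x) ξ *
      Complex.exp (((2 * Real.pi * (ξ * v) : ℝ) : ℂ) * I)) * e3
  refine ⟨fun y => ((1 / (2 * Real.pi) : ℝ) : ℂ) *
    FourierTransform.fourier (S1_f U x) (y / (2 * Real.pi)), ?_, fun y => ?_, fun v hv hv' => ?_,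
    fun v hv => ?_⟩
  · exact continuous_const.mul ((S1_fourier_cont U x).comp (continuous_id.div_const _))
  · have h0 := S1_decay B R U x hU hUB hx 0 (y / (2 * Real.pi))
    have hm := S1_decay B R U x hU hUB hx m (y / (2 * Real.pi))
    have h2 : 2 * Real.pi * (y / (2 * Real.pi)) = y := by field_simp
    rw [pow_zero, one_mul] at h0
    rw [h2] at hm
    have hc : ‖((1 / (2 * Real.pi) : ℝ) : ℂ)‖ ≤ 1 := by
      rw [Complex.norm_real, Real.norm_of_nonneg (by positivity), div_le_one (by positivity)]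
      linarith [Real.pi_gt_three]
    rw [le_div_iff₀ (by positivity)]
    have hadd : (1 + |y|) ^ m ≤ 2 ^ m * (1 + |y| ^ m) := by
      rcases le_total |y| 1 with h | h
      · calc (1 + |y|) ^ m ≤ (2 : ℝ) ^ m := pow_le_pow_left₀ (by positivity) (by linarith) m
          _ ≤ 2 ^ m * (1 + |y| ^ m) := by
            have : (0 : ℝ) ≤ |y| ^ m := by positivity
            nlinarith [pow_pos (two_pos : (0 : ℝ) < 2) m]
      · calc (1 + |y|) ^ m ≤ (2 * |y|) ^ m := pow_le_pow_left₀ (by positivity) (by linarith) m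
          _ = 2 ^ m * |y| ^ m := mul_pow _ _ _
          _ ≤ 2 ^ m * (1 + |y| ^ m) := by
            have := pow_pos (two_pos : (0 : ℝ) < 2) m
            nlinarith
    change ‖((1 / (2 * Real.pi) : ℝ) : ℂ) *
      FourierTransform.fourier (S1_f U x) (y / (2 * Real.pi))‖ * (1 + |y|) ^ m ≤ _
    rw [norm_mul]
    set F : ℝ := ‖FourierTransform.fourier (S1_f U x) (y / (2 * Real.pi))‖ with hF
    have hF0 : 0 ≤ F := norm_nonneg _
    calc ‖((1 / (2 * Real.pi) : ℝ) : ℂ)‖ * F * (1 + |y|) ^ m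
        ≤ 1 * F * (2 ^ m * (1 + |y| ^ m)) := by
          refine mul_le_mul (mul_le_mul_of_nonneg_right hc hF0) hadd (by positivity) (by positivity)
      _ = 2 ^ m * (F + |y| ^ m * F) := by ring
      _ ≤ _ := mul_le_mul_of_nonneg_left (add_le_add h0 hm) (by positivity)
  · rw [hinv v]
    unfold S1_f S1_phi
    rw [Real.smoothTransition.one_of_one_le (by linarith),
      Real.smoothTransition.one_of_one_le (by linarith)]
    simp
  · rw [hinv v]
    unfold S1_f S1_phi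
    rw [Real.smoothTransition.zero_of_nonpos (x := 10 - (v - U)) (by linarith)]
    simp

end Pool.Agent.SO
end

section

set_option autoImplicit false

namespace Pool.Agent.SO

open Complex MeasureTheory

theorem S2_integrable (κ : ℝ → ℂ) (hκ : Continuous κ) (C : ℝ) (m : ℕ)
    (hm : 2 ≤ m) (hb : ∀ y, ‖κ y‖ ≤ C / (1 + |y|) ^ m) : Integrable κ := by
  have hC : 0 ≤ C := by
    have h := hb 0
    rw [abs_zero, add_zero, one_pow, div_one] at h
    exact (norm_nonneg _).trans h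
  have h1 : Integrable (fun y : ℝ => C * (1 + y ^ 2)⁻¹) := integrable_inv_one_add_sq.const_mul C
  apply h1.mono' hκ.aestronglyMeasurable
  apply Filter.Eventually.of_forall
  intro y
  apply (hb y).trans
  rw [div_eq_mul_inv]
  apply mul_le_mul_of_nonneg_left _ hC
  apply inv_anti₀ (by positivity)
  have h2 : (1 + |y|) ^ 2 ≤ (1 + |y|) ^ m := pow_le_pow_right₀ (by linarith [abs_nonneg y]) hm
  have h3 : 1 + y ^ 2 ≤ (1 + |y|) ^ 2 := by
    have h4 : y ^ 2 = |y| ^ 2 := (sq_abs y).symm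
    rw [h4]
    nlinarith [abs_nonneg y]
  exact h3.trans h2

theorem S2_term (L : ℝ) (hL : 0 < L) (κ : ℝ → ℂ) (lk : ℝ) (A : ℝ → ℂ) (τ : ℝ)
    (hA : ∀ t', A t' = A τ * Complex.exp (I * ((lk * (τ - t') : ℝ) : ℂ))) :
    ∫ t' : ℝ, A t' * ((L : ℂ) * κ (L * (τ - t'))) =
      A τ * ∫ y : ℝ, κ y * Complex.exp (I * y * ((lk / L : ℝ) : ℂ)) := by
  have h1 : (fun t' : ℝ => A t' * ((L : ℂ) * κ (L * (τ - t')))) =
      fun t' : ℝ => (fun u : ℝ => A τ * ((L : ℂ) * (κ (L * u) * Complex.exp (I * ((lk * u : ℝ) : ℂ))))) (τ - t') := by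
    funext t'
    show A t' * ((L : ℂ) * κ (L * (τ - t'))) =
      A τ * ((L : ℂ) * (κ (L * (τ - t')) * Complex.exp (I * ((lk * (τ - t') : ℝ) : ℂ))))
    rw [hA t']
    ring
  rw [h1, integral_sub_left_eq_self (fun u : ℝ => A τ * ((L : ℂ) * (κ (L * u) * Complex.exp (I * ((lk * u : ℝ) : ℂ)))))
    volume τ]
  rw [integral_const_mul, integral_const_mul]
  congr 1
  have h2 : (fun u : ℝ => κ (L * u) * Complex.exp (I * ((lk * u : ℝ) : ℂ))) =
      fun u : ℝ => (fun y : ℝ => κ y * Complex.exp (I * y * ((lk / L : ℝ) : ℂ))) (L * u) := by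
    funext u
    show κ (L * u) * Complex.exp (I * ((lk * u : ℝ) : ℂ)) =
      κ (L * u) * Complex.exp (I * ((L * u : ℝ) : ℂ) * ((lk / L : ℝ) : ℂ))
    congr 2
    rw [mul_assoc, ← Complex.ofReal_mul]
    congr 2
    field_simp
  rw [h2, MeasureTheory.Measure.integral_comp_mul_left (fun y : ℝ => κ y * Complex.exp (I * y * ((lk / L : ℝ) : ℂ))) L]
  rw [abs_of_pos (inv_pos.mpr hL), Complex.real_smul, ← mul_assoc, ← Complex.ofReal_mul,
    mul_inv_cancel₀ hL.ne', Complex.ofReal_one, one_mul]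

/-- S2. Convolution of a Dirichlet polynomial on the line with the kernel: each term is multiplied
by the multiplier at its frequency.

PROOF. Let `L = log r > 0`. For one term, substitute `t' = τ - y / L` (`L dt' = dy` up to the
orientation; `MeasureTheory.integral_comp_mul_left`, `integral_sub_left_eq_self`):
`∫ k^(-(1/2 + t' I)) κ(L(τ - t')) L dt' = ∫ k^(-(1/2 + τ I)) k^(I y / L) κ y dy` and
`k^(I y/L) = exp (I y log k / L)` (`k ≥ 1`: `Complex.cpow_def_of_ne_zero`, `Complex.natCast_log`).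
So the term becomes `k^(-(1/2+τI)) * mult (log k / L)`. Sum over the finite set; all integrands are
integrable since `‖k^(-(1/2+t'I))‖ ≤ 1` and `κ` is integrable (`κ` continuous,
`‖κ y‖ ≤ C/(1+|y|)^m`, `m ≥ 2`). -/
theorem conv_dirichlet (r : ℕ) (hr : 2 ≤ r) (κ : ℝ → ℂ) (hκ : Continuous κ) (C : ℝ) (m : ℕ)
    (hm : 2 ≤ m) (hb : ∀ y, ‖κ y‖ ≤ C / (1 + |y|) ^ m) (N : ℕ) (c : ℕ → ℂ) (τ : ℝ) :
    ∫ t' : ℝ, (∑ k ∈ Finset.Icc 1 N, c k * (k : ℂ) ^ (-(pt r 0 t'))) *
        ((Real.log r : ℂ) * κ (Real.log r * (τ - t'))) =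
      ∑ k ∈ Finset.Icc 1 N, c k * (k : ℂ) ^ (-(pt r 0 τ)) *
        ∫ y : ℝ, κ y * Complex.exp (I * y * ((Real.log k / Real.log r : ℝ) : ℂ)) := by
  have hr' : (2 : ℝ) ≤ (r : ℝ) := by exact_mod_cast hr
  have hL : 0 < Real.log r := Real.log_pos (by linarith)
  set L : ℝ := Real.log r with hLdef
  have hκi := S2_integrable κ hκ C m hm hb
  have hκi2 : Integrable (fun t' : ℝ => (L : ℂ) * κ (L * (τ - t'))) := by
    apply Integrable.const_mul
    have h1 : Integrable (fun u : ℝ => κ (L * u)) := (integrable_comp_mul_left_iff κ hL.ne').mpr hκi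
    exact h1.comp_sub_left τ
  have hcpow : ∀ k ∈ Finset.Icc 1 N, ∀ t' : ℝ, (k : ℂ) ^ (-(pt r 0 t')) =
      Complex.exp (((-(1 / 2) * Real.log k : ℝ) : ℂ) - I * ((Real.log k * t' : ℝ) : ℂ)) := by
    intro k hk t'
    have hk1 : 1 ≤ k := (Finset.mem_Icc.mp hk).1
    have hk0 : (k : ℂ) ≠ 0 := by
      rw [Nat.cast_ne_zero]
      omega
    rw [Complex.cpow_def_of_ne_zero hk0, ← Complex.natCast_log]
    congr 1
    unfold pt
    push_cast
    ring
  have hterm : ∀ k ∈ Finset.Icc 1 N, ∀ t' : ℝ, c k * (k : ℂ) ^ (-(pt r 0 t')) =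
      (c k * (k : ℂ) ^ (-(pt r 0 τ))) * Complex.exp (I * ((Real.log k * (τ - t') : ℝ) : ℂ)) := by
    intro k hk t'
    rw [hcpow k hk, hcpow k hk, mul_assoc, ← Complex.exp_add]
    congr 2
    push_cast
    ring
  have hint : ∀ k ∈ Finset.Icc 1 N, Integrable (fun t' : ℝ => c k * (k : ℂ) ^ (-(pt r 0 t')) *
      ((L : ℂ) * κ (L * (τ - t')))) := by
    intro k hk
    have h1 : (fun t' : ℝ => c k * (k : ℂ) ^ (-(pt r 0 t')) * ((L : ℂ) * κ (L * (τ - t')))) =
        fun t' : ℝ => (c k * Complex.exp (((-(1 / 2) * Real.log k : ℝ) : ℂ) - I * ((Real.log k * t' : ℝ) : ℂ))) *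
          ((L : ℂ) * κ (L * (τ - t'))) := by
      funext t'
      rw [hcpow k hk]
    rw [h1]
    apply hκi2.bdd_mul (c := ‖c k‖ * Real.exp (-(1 / 2) * Real.log k))
    · apply Continuous.aestronglyMeasurable
      fun_prop
    · apply Filter.Eventually.of_forall
      intro t'
      rw [norm_mul, Complex.norm_exp]
      apply le_of_eq
      congr 2
      rw [Complex.sub_re, Complex.ofReal_re, Complex.I_mul_re, Complex.ofReal_im]
      ring
  have hsum : (fun t' : ℝ => (∑ k ∈ Finset.Icc 1 N, c k * (k : ℂ) ^ (-(pt r 0 t'))) *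
        ((L : ℂ) * κ (L * (τ - t')))) = fun t' : ℝ => ∑ k ∈ Finset.Icc 1 N,
        c k * (k : ℂ) ^ (-(pt r 0 t')) * ((L : ℂ) * κ (L * (τ - t'))) := by
    funext t'
    rw [Finset.sum_mul]
  rw [hsum, integral_finsetSum _ hint]
  apply Finset.sum_congr rfl
  intro k hk
  exact S2_term L hL κ (Real.log k) (fun t' => c k * (k : ℂ) ^ (-(pt r 0 t'))) τ (hterm k hk)

end Pool.Agent.SO
end

section

/-! A linear bound for the logarithmic derivative of the gamma factor. -/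

set_option autoImplicit false

namespace Pool.Agent.SK

open Complex MeasureTheory Set

theorem Gamma_norm_le (w : ℂ) (hw : 0 < w.re) : ‖Gamma w‖ ≤ Real.Gamma w.re := by
  rw [Complex.Gamma_eq_integral hw, Real.Gamma_eq_integral hw]
  unfold Complex.GammaIntegral
  refine (norm_integral_le_integral_norm _).trans (le_of_eq ?_)
  refine setIntegral_congr_fun measurableSet_Ioi fun x hx => ?_
  have hx0 : (0 : ℝ) < x := hx
  rw [norm_mul, Complex.norm_cpow_eq_rpow_re_of_pos hx0, Complex.norm_real,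
    Real.norm_of_nonneg (Real.exp_pos _).le, Complex.sub_re, Complex.one_re]

theorem Gamma_upper : ∃ C : ℝ, 1 ≤ C ∧ ∀ w : ℂ, 1 / 8 ≤ w.re → w.re ≤ 3 / 2 → ‖Gamma w‖ ≤ C := by
  have hc : ContinuousOn Real.Gamma (Icc (1 / 8 : ℝ) (3 / 2)) := by
    intro x hx
    refine (Real.differentiableAt_Gamma fun m => ?_).continuousAt.continuousWithinAt
    have h1 := hx.1
    have h2 : (0 : ℝ) ≤ m := Nat.cast_nonneg m
    intro h
    rw [h] at h1
    linarith
  obtain ⟨C, hC⟩ := isCompact_Icc.exists_bound_of_continuousOn hc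
  refine ⟨max C 1, le_max_right _ _, fun w h1 h2 => ?_⟩
  have h3 := Gamma_norm_le w (by linarith)
  have h4 := hC w.re ⟨h1, h2⟩
  rw [Real.norm_eq_abs] at h4
  exact h3.trans ((le_abs_self _).trans (h4.trans (le_max_left _ _)))

theorem sin_norm_le (z : ℂ) : ‖Complex.sin z‖ ≤ Real.exp |z.im| := by
  have h : Complex.sin z = (Complex.exp (-z * I) - Complex.exp (z * I)) * I / 2 := rfl
  rw [h, norm_div, norm_mul, Complex.norm_I, mul_one, Complex.norm_ofNat]
  have h1 : ‖Complex.exp (-z * I)‖ ≤ Real.exp |z.im| := by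
    rw [Complex.norm_exp]
    refine Real.exp_le_exp.mpr ?_
    simp only [neg_mul, neg_re, mul_re, I_re, mul_zero, I_im, mul_one, zero_sub, neg_neg]
    exact le_abs_self _
  have h2 : ‖Complex.exp (z * I)‖ ≤ Real.exp |z.im| := by
    rw [Complex.norm_exp]
    refine Real.exp_le_exp.mpr ?_
    simp only [mul_re, I_re, mul_zero, I_im, mul_one, zero_sub]
    exact neg_le_abs _
  have h3 := norm_sub_le (Complex.exp (-z * I)) (Complex.exp (z * I))
  linarith

theorem Gamma_lower : ∃ c : ℝ, 0 < c ∧ ∀ w : ℂ, 1 / 4 ≤ w.re → w.re ≤ 5 / 4 →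
    c * Real.exp (-(5 * |w.im|)) ≤ ‖Gamma w‖ := by
  obtain ⟨C, hC1, hC⟩ := Gamma_upper
  have hC0 : 0 < C := by linarith
  -- first part
  have key : ∀ w : ℂ, 1 / 4 ≤ w.re → w.re ≤ 3 / 4 → 1 / C * Real.exp (-(Real.pi * |w.im|)) ≤ ‖Gamma w‖ := by
    intro w h1 h2
    have hr := Complex.Gamma_mul_Gamma_one_sub w
    have hG1 : Gamma w ≠ 0 := Complex.Gamma_ne_zero_of_re_pos (by linarith)
    have hG2 : Gamma (1 - w) ≠ 0 := Complex.Gamma_ne_zero_of_re_pos (by simp; linarith)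
    have hs : Complex.sin (Real.pi * w) ≠ 0 := by
      intro h0
      rw [h0, div_zero] at hr
      exact (mul_ne_zero hG1 hG2) hr
    have hn : ‖Gamma w‖ * ‖Gamma (1 - w)‖ * ‖Complex.sin (Real.pi * w)‖ = Real.pi := by
      rw [← norm_mul, hr, norm_div, div_mul_cancel₀ _ (norm_ne_zero_iff.mpr hs), Complex.norm_real,
        Real.norm_of_nonneg Real.pi_pos.le]
    have hb : ‖Gamma (1 - w)‖ ≤ C := hC _ (by simp; linarith) (by simp; linarith)
    have hsn : ‖Complex.sin (Real.pi * w)‖ ≤ Real.exp (Real.pi * |w.im|) := by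
      refine (sin_norm_le _).trans (le_of_eq ?_)
      rw [Complex.im_ofReal_mul, abs_mul, abs_of_pos Real.pi_pos]
    have hpi : 1 ≤ Real.pi := by linarith [Real.pi_gt_three]
    have h3 : 1 ≤ ‖Gamma w‖ * (C * Real.exp (Real.pi * |w.im|)) := by
      calc (1 : ℝ) ≤ Real.pi := hpi
        _ = ‖Gamma w‖ * ‖Gamma (1 - w)‖ * ‖Complex.sin (Real.pi * w)‖ := hn.symm
        _ ≤ ‖Gamma w‖ * C * Real.exp (Real.pi * |w.im|) := by gcongr
        _ = _ := by ring
    rw [Real.exp_neg, one_div, ← mul_inv]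
    rw [inv_le_iff_one_le_mul₀ (by positivity)]
    exact h3
  refine ⟨1 / (16 * C * Real.exp 9), by positivity, fun w h1 h2 => ?_⟩
  have hpi4 : Real.pi ≤ 4 := Real.pi_le_four
  have him := abs_nonneg w.im
  have he9 : 1 ≤ Real.exp 9 := Real.one_le_exp (by norm_num)
  by_cases h3 : w.re ≤ 3 / 4
  · refine le_trans ?_ (key w h1 h3)
    have h4 : 1 / (16 * C * Real.exp 9) ≤ 1 / C := by
      refine one_div_le_one_div_of_le hC0 ?_
      nlinarith
    have h5 : Real.exp (-(5 * |w.im|)) ≤ Real.exp (-(Real.pi * |w.im|)) :=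
      Real.exp_le_exp.mpr (by nlinarith)
    gcongr
  · push Not at h3
    have hF := SO.F2a_Gamma w (1 / 2) (by linarith) (by norm_num) (by norm_num)
    have e1 : w + ((1 / 2 : ℝ) : ℂ) = (w - 1 / 2) + 1 := by
      push_cast
      ring
    have hne : w - 1 / 2 ≠ 0 := by
      intro h0
      have := congrArg Complex.re h0
      simp at this
      linarith
    rw [e1, Complex.Gamma_add_one _ hne, norm_mul] at hF
    have hre : (w - 1 / 2).re = w.re - 1 / 2 := by simp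
    have himm : (w - 1 / 2).im = w.im := by simp
    have hk := key (w - 1 / 2) (by rw [hre]; linarith) (by rw [hre]; linarith)
    rw [himm] at hk
    have hn1 : 1 / 4 ≤ ‖w - 1 / 2‖ := by
      have := Complex.abs_re_le_norm (w - 1 / 2)
      rw [hre] at this
      have h5 := le_abs_self (w.re - 1 / 2)
      linarith
    have hn2 : ‖w‖ ^ (1 / 2 : ℝ) ≤ 2 * Real.exp |w.im| := by
      have h5 : ‖w‖ ≤ 5 / 4 + |w.im| := by
        have := Complex.norm_le_abs_re_add_abs_im w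
        rw [abs_of_nonneg (by linarith : 0 ≤ w.re)] at this
        linarith
      have h6 : ‖w‖ ≤ (2 * Real.exp |w.im|) ^ 2 := by
        have h7 : 1 + |w.im| ≤ Real.exp |w.im| := by
          have := Real.add_one_le_exp |w.im|
          linarith
        nlinarith
      calc ‖w‖ ^ (1 / 2 : ℝ) ≤ ((2 * Real.exp |w.im|) ^ 2) ^ (1 / 2 : ℝ) :=
            Real.rpow_le_rpow (norm_nonneg _) h6 (by norm_num)
        _ = 2 * Real.exp |w.im| := by
            rw [← Real.sqrt_eq_rpow, Real.sqrt_sq (by positivity)]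
    -- combine
    have h8 : 1 / 4 * (1 / C * Real.exp (-(Real.pi * |w.im|))) ≤
        Real.exp 9 * (2 * Real.exp |w.im|) * ‖Gamma w‖ := by
      calc 1 / 4 * (1 / C * Real.exp (-(Real.pi * |w.im|))) ≤ ‖w - 1 / 2‖ * ‖Gamma (w - 1 / 2)‖ := by
            gcongr
        _ ≤ Real.exp 9 * ‖w‖ ^ (1 / 2 : ℝ) * ‖Gamma w‖ := hF
        _ ≤ _ := by gcongr
    have h9 : Real.exp (-(Real.pi * |w.im|)) = Real.exp |w.im| * Real.exp (-((Real.pi + 1) * |w.im|)) := by
      rw [← Real.exp_add]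
      congr 1
      ring
    have h10 : Real.exp (-((Real.pi + 1) * |w.im|)) ≤ 8 * C * Real.exp 9 * ‖Gamma w‖ := by
      rw [h9] at h8
      have hE : 0 < Real.exp |w.im| := Real.exp_pos _
      have h11 : Real.exp |w.im| * Real.exp (-((Real.pi + 1) * |w.im|)) ≤
          Real.exp |w.im| * (8 * C * Real.exp 9 * ‖Gamma w‖) := by
        have h12 : 4 * C * (1 / 4 * (1 / C * (Real.exp |w.im| * Real.exp (-((Real.pi + 1) * |w.im|))))) =
            Real.exp |w.im| * Real.exp (-((Real.pi + 1) * |w.im|)) := by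
          field_simp
        rw [← h12]
        calc 4 * C * (1 / 4 * (1 / C * (Real.exp |w.im| * Real.exp (-((Real.pi + 1) * |w.im|))))) ≤
              4 * C * (Real.exp 9 * (2 * Real.exp |w.im|) * ‖Gamma w‖) := by gcongr
          _ = _ := by ring
      exact le_of_mul_le_mul_left h11 hE
    have h13 : Real.exp (-(5 * |w.im|)) ≤ Real.exp (-((Real.pi + 1) * |w.im|)) :=
      Real.exp_le_exp.mpr (by nlinarith)
    have h14 : Real.exp (-(5 * |w.im|)) ≤ 16 * C * Real.exp 9 * ‖Gamma w‖ := by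
      refine h13.trans (h10.trans ?_)
      have : 0 ≤ C * Real.exp 9 * ‖Gamma w‖ := by positivity
      linarith
    rw [one_div, inv_mul_le_iff₀ (by positivity)]
    exact h14

/-- Linear bound of the digamma function for `1/4 ≤ Re w ≤ 5/4`. -/
theorem logDeriv_Gamma_bound : ∃ C : ℝ, 1 ≤ C ∧ ∀ w : ℂ, 1 / 4 ≤ w.re → w.re ≤ 5 / 4 →
    ‖logDeriv Gamma w‖ ≤ C * (1 + |w.im|) := by
  obtain ⟨C, hC1, hC⟩ := Gamma_upper
  obtain ⟨c, hc, hcl⟩ := Gamma_lower
  have hC0 : 0 < C := by linarith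
  set K : ℝ := Real.log (C / c) with hK
  refine ⟨64 * (|K| + 1) + 320, by have := abs_nonneg K; linarith, fun w h1 h2 => ?_⟩
  have him := abs_nonneg w.im
  have hKa := abs_nonneg K
  have hre : ∀ z ∈ Metric.ball w (1 / 8 : ℝ), 1 / 8 ≤ z.re ∧ z.re ≤ 3 / 2 := by
    intro z hz
    rw [Metric.mem_ball, Complex.dist_eq] at hz
    have h3 := Complex.abs_re_le_norm (z - w)
    rw [Complex.sub_re] at h3
    have h4 := abs_le.mp (h3.trans hz.le)
    constructor <;> linarith [h4.1, h4.2]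
  have hM : 0 < (|K| + 1) + 5 * |w.im| := by linarith
  have hmain := MC.logDeriv_bound Gamma w (1 / 8) ((|K| + 1) + 5 * |w.im|) (1 / 8) hM (by norm_num)
    le_rfl ?_ ?_ ?_ w (by simp)
  · rw [logDeriv_apply]
    refine hmain.trans ?_
    have e0 : 8 * (|K| + 1 + 5 * |w.im|) * (1 / 8) / (1 / 8) ^ 2 = 64 * (|K| + 1 + 5 * |w.im|) := by ring
    rw [e0]
    nlinarith [mul_nonneg hKa him]
  · intro z hz
    refine (Complex.differentiableAt_Gamma z fun m => ?_).differentiableWithinAt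
    intro h
    have h3 := (hre z hz).1
    rw [h] at h3
    simp at h3
    have : (0 : ℝ) ≤ m := Nat.cast_nonneg m
    linarith
  · intro z hz
    exact Complex.Gamma_ne_zero_of_re_pos (by linarith [(hre z hz).1])
  · intro z hz
    have h3 := hC z (hre z hz).1 (hre z hz).2
    have h4 := hcl w h1 h2
    have h5 : C ≤ Real.exp (|K| + 1 + 5 * |w.im|) * (c * Real.exp (-(5 * |w.im|))) := by
      have e1 : Real.exp (|K| + 1 + 5 * |w.im|) * (c * Real.exp (-(5 * |w.im|))) =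
          c * Real.exp (|K| + 1) := by
        rw [Real.exp_add (|K| + 1), Real.exp_neg]
        field_simp
      rw [e1]
      have e2 : C / c ≤ Real.exp (|K| + 1) := by
        rw [← Real.exp_log (show 0 < C / c by positivity)]
        refine Real.exp_le_exp.mpr ?_
        have := le_abs_self K
        linarith
      rw [div_le_iff₀ hc] at e2
      linarith
    refine h3.trans (h5.trans ?_)
    gcongr

/-- The logarithmic derivative of `Gammaℝ`. -/
theorem logDeriv_GammaR_bound : ∃ C : ℝ, 1 ≤ C ∧ ∀ s : ℂ, 1 / 2 ≤ s.re → s.re ≤ 5 / 2 →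
    DifferentiableAt ℂ Gammaℝ s ∧ Gammaℝ s ≠ 0 ∧ ‖logDeriv Gammaℝ s‖ ≤ C * (1 + |s.im|) := by
  obtain ⟨C, hC1, hC⟩ := logDeriv_Gamma_bound
  refine ⟨C + Real.log Real.pi, by have := Real.log_nonneg (by linarith [Real.pi_gt_three] : 1 ≤ Real.pi); linarith, ?_⟩
  intro s h1 h2
  have hs0 : 0 < s.re := by linarith
  have hpi0 : (Real.pi : ℂ) ≠ 0 := by exact_mod_cast Real.pi_ne_zero
  have hsl : (Real.pi : ℂ) ∈ Complex.slitPlane := by
    left
    simp [Real.pi_pos]
  have hG : HasDerivAt Gamma (deriv Gamma (s / 2)) (s / 2) := by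
    refine (Complex.differentiableAt_Gamma (s / 2) fun m h => ?_).hasDerivAt
    have h3 := congrArg Complex.re h
    simp at h3
    have : (0 : ℝ) ≤ m := Nat.cast_nonneg m
    linarith
  have hG2 : HasDerivAt (fun s : ℂ => Gamma (s / 2)) (deriv Gamma (s / 2) * (1 / 2)) s := by
    have h3 : HasDerivAt (fun s : ℂ => s / 2) (1 / 2) s := by
      simpa using (hasDerivAt_id s).div_const 2
    exact HasDerivAt.comp s hG h3
  have hp : HasDerivAt (fun s : ℂ => (Real.pi : ℂ) ^ (-s / 2))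
      ((Real.pi : ℂ) ^ (-s / 2) * Complex.log Real.pi * (-(1 / 2))) s := by
    have h3 : HasDerivAt (fun s : ℂ => -s / 2) (-(1 / 2)) s := by
      have := (hasDerivAt_id s).neg.div_const 2
      convert! this using 1
      ring
    exact h3.const_cpow (Or.inl hpi0)
  have hfun : Gammaℝ = fun s : ℂ => (Real.pi : ℂ) ^ (-s / 2) * Gamma (s / 2) := by
    funext z
    exact Gammaℝ_def z
  have hd := hp.mul hG2
  have hGne : Gamma (s / 2) ≠ 0 := Complex.Gamma_ne_zero_of_re_pos (by simp; linarith)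
  have hpne : (Real.pi : ℂ) ^ (-s / 2) ≠ 0 := by
    rw [Complex.cpow_def_of_ne_zero hpi0]
    exact Complex.exp_ne_zero _
  have hd' : HasDerivAt Gammaℝ ((Real.pi : ℂ) ^ (-s / 2) * Complex.log Real.pi * (-(1 / 2)) * Gamma (s / 2)
      + (Real.pi : ℂ) ^ (-s / 2) * (deriv Gamma (s / 2) * (1 / 2))) s := by
    rw [hfun]
    exact hd
  refine ⟨hd'.differentiableAt, Complex.Gammaℝ_ne_zero_of_re_pos hs0, ?_⟩
  rw [logDeriv_apply, hd'.deriv, Gammaℝ_def]
  have e : ((Real.pi : ℂ) ^ (-s / 2) * Complex.log Real.pi * (-(1 / 2)) * Gamma (s / 2)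
      + (Real.pi : ℂ) ^ (-s / 2) * (deriv Gamma (s / 2) * (1 / 2))) /
      ((Real.pi : ℂ) ^ (-s / 2) * Gamma (s / 2)) = -(1 / 2) * ((Real.log Real.pi : ℝ) : ℂ) +
        1 / 2 * logDeriv Gamma (s / 2) := by
    rw [logDeriv_apply, Complex.ofReal_log Real.pi_pos.le]
    field_simp
  rw [e]
  have h3 := hC (s / 2) (by simp; linarith) (by simp; linarith)
  have him : (s / 2).im = s.im / 2 := by simp
  rw [him, abs_div, abs_of_pos (by norm_num : (0 : ℝ) < 2)] at h3
  have hlog := Real.log_nonneg (by linarith [Real.pi_gt_three] : 1 ≤ Real.pi)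
  have himn := abs_nonneg s.im
  calc ‖-(1 / 2) * ((Real.log Real.pi : ℝ) : ℂ) + 1 / 2 * logDeriv Gamma (s / 2)‖
      ≤ ‖-(1 / 2) * ((Real.log Real.pi : ℝ) : ℂ)‖ + ‖1 / 2 * logDeriv Gamma (s / 2)‖ := norm_add_le _ _
    _ = 1 / 2 * Real.log Real.pi + 1 / 2 * ‖logDeriv Gamma (s / 2)‖ := by
        rw [norm_mul, norm_mul, Complex.norm_real, Real.norm_of_nonneg hlog]
        simp
    _ ≤ 1 / 2 * Real.log Real.pi + 1 / 2 * (C * (1 + |s.im| / 2)) := by gcongr
    _ ≤ (C + Real.log Real.pi) * (1 + |s.im|) := by nlinarith [mul_nonneg hlog himn]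

/-- The logarithmic derivative of the gamma factor. -/
theorem gamma_bound : ∃ C : ℝ, 1 ≤ C ∧ ∀ (r : ℕ) [NeZero r] (χ : DirichletCharacter ℂ r) (s : ℂ),
    1 / 2 ≤ s.re → s.re ≤ 3 / 2 →
    DifferentiableAt ℂ (DirichletCharacter.gammaFactor χ) s ∧
      DirichletCharacter.gammaFactor χ s ≠ 0 ∧
      ‖logDeriv (DirichletCharacter.gammaFactor χ) s‖ ≤ C * (1 + |s.im|) := by
  obtain ⟨C, hC1, hC⟩ := logDeriv_GammaR_bound
  refine ⟨C, hC1, fun r _ χ s h1 h2 => ?_⟩
  rcases χ.even_or_odd with h | h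
  · have e : DirichletCharacter.gammaFactor χ = Gammaℝ := by
      funext z
      exact h.gammaFactor_def z
    rw [e]
    exact hC s h1 (by linarith)
  · have e : DirichletCharacter.gammaFactor χ = fun z => Gammaℝ (z + 1) := by
      funext z
      exact h.gammaFactor_def z
    obtain ⟨g1, g2, g3⟩ := hC (s + 1) (by simp; linarith) (by simp; linarith)
    rw [e]
    refine ⟨DifferentiableAt.comp s (g := Gammaℝ) (f := fun z => z + 1) g1 (by fun_prop), g2, ?_⟩
    have hd : deriv (fun z => Gammaℝ (z + 1)) s = deriv Gammaℝ (s + 1) := deriv_comp_add_const _ _ _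
    rw [logDeriv_apply, hd]
    rw [logDeriv_apply] at g3
    have him : (s + 1).im = s.im := by simp
    rw [him] at g3
    exact g3

end Pool.Agent.SK
end
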