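import Mathlib
import Pool.Agent.Lib.MP_9cfc0a_nt.EMChars
import Pool.Agent.Lib.MP_9cfc0a_nt.Mg.G004
import Pool.Agent.Lib.MP_9cfc0a_nt.EMLfun
import Pool.Agent.Lib.MP_9cfc0a_nt.SO.Defs
import Pool.Agent.Lib.MP_9cfc0a_nt.EMPower
import Pool.Agent.Lib.MP_9cfc0a_nt.EMZeros

section

set_option autoImplicit false

namespace Pool.Agent.SO

open Complex MeasureTheory Pool.Agent.EM

/-- A2a. Characters mod `q` and primitive characters mod the divisors of `q`. -/
theorem induced_count (Bad : (r : ℕ) → DirichletCharacter ℂ r → Prop) (q : ℕ) [NeZero q] (r₁ : ℝ)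
    (S : Finset (DirichletCharacter ℂ q))
    (hS : ∀ χ ∈ S, r₁ ≤ χ.conductor ∧ Bad χ.conductor χ.primitiveCharacter) :
    S.card ≤ ∑ r ∈ q.divisors.filter (fun r : ℕ => r₁ ≤ (r : ℝ)),
      Set.ncard {ψ : DirichletCharacter ℂ r | ψ.IsPrimitive ∧ Bad r ψ} := by
  classical
  have hmap : ∀ χ ∈ S, χ.conductor ∈ q.divisors.filter (fun r : ℕ => r₁ ≤ (r : ℝ)) := by
    intro χ hχ
    rw [Finset.mem_filter, Nat.mem_divisors]
    exact ⟨⟨χ.conductor_dvd_level, NeZero.ne q⟩, (hS χ hχ).1⟩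
  rw [Finset.card_eq_sum_card_fiberwise hmap]
  refine Finset.sum_le_sum ?_
  intro r hr
  rw [Finset.mem_filter, Nat.mem_divisors] at hr
  obtain ⟨⟨hrq, _⟩, _⟩ := hr
  have hr0 : r ≠ 0 := by
    rintro rfl
    exact NeZero.ne q (Nat.eq_zero_of_zero_dvd hrq)
  haveI : NeZero r := ⟨hr0⟩
  have hfin : Set.Finite {ψ : DirichletCharacter ℂ r | ψ.IsPrimitive ∧ Bad r ψ} := Set.toFinite _
  have hsub : ((S.filter (fun χ => χ.conductor = r) : Finset (DirichletCharacter ℂ q)) : Set (DirichletCharacter ℂ q))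
      ⊆ (DirichletCharacter.changeLevel hrq) '' {ψ : DirichletCharacter ℂ r | ψ.IsPrimitive ∧ Bad r ψ} := by
    intro χ hχ
    rw [Finset.mem_coe, Finset.mem_filter] at hχ
    obtain ⟨hχS, hχr⟩ := hχ
    have h2 := (hS χ hχS).2
    subst hχr
    refine ⟨χ.primitiveCharacter, ⟨χ.primitiveCharacter_isPrimitive, h2⟩, ?_⟩
    exact χ.changeLevel_primitiveCharacter
  calc (S.filter (fun χ => χ.conductor = r)).card
      = Set.ncard ((S.filter (fun χ => χ.conductor = r) : Finset (DirichletCharacter ℂ q)) :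
          Set (DirichletCharacter ℂ q)) := (Set.ncard_coe_finset _).symm
    _ ≤ Set.ncard ((DirichletCharacter.changeLevel hrq) '' {ψ : DirichletCharacter ℂ r | ψ.IsPrimitive ∧ Bad r ψ}) :=
        Set.ncard_le_ncard hsub (hfin.image _)
    _ ≤ _ := Set.ncard_image_le hfin

end Pool.Agent.SO
end

section

set_option autoImplicit false

namespace Pool.Agent.SO

open Finset Complex MeasureTheory
open scoped ContDiff

lemma MoE6a_int : Integrable (fun w : ℝ => 1 / (1 + |w|) ^ 2) := by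
  have h := integrable_one_add_norm (E := ℝ) (μ := volume) (r := 2) (by simp)
  refine h.congr (Filter.Eventually.of_forall fun w => ?_)
  have h1 : (0 : ℝ) < 1 + |w| := by positivity
  show (1 + ‖w‖) ^ (-2 : ℝ) = 1 / (1 + |w|) ^ 2
  rw [Real.norm_eq_abs, Real.rpow_neg h1.le, one_div]
  congr 1
  exact_mod_cast Real.rpow_natCast (1 + |w|) 2

lemma MoE6a_H (c : ℝ) (hc : 0 < c) : ∃ C : ℝ, 0 ≤ C ∧ ∀ w : ℝ,
    ‖Hf (c + w * I) / (c + w * I)‖ ≤ C / (1 + |w|) ^ 3 := by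
  obtain ⟨C, hC0, hC⟩ := Hf_bound 3
  refine ⟨C / c, by positivity, ?_⟩
  intro w
  have h1 := hC (c + w * I) (by simp; exact hc.le)
  have hre : ((c : ℂ) + w * I).re = c := by simp
  have him : ((c : ℂ) + w * I).im = w := by simp
  rw [hre, him] at h1
  have h2 : Real.exp (-(5 / 8 * c)) ≤ 1 := by
    rw [Real.exp_le_one_iff]
    linarith
  have h3 : c ≤ ‖(c : ℂ) + w * I‖ := by
    have := Complex.abs_re_le_norm ((c : ℂ) + w * I)
    rw [hre, abs_of_pos hc] at this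
    exact this
  have hpos : (0 : ℝ) < (1 + |w|) ^ 3 := by positivity
  have h4 : ‖Hf (c + w * I)‖ ≤ C / (1 + |w|) ^ 3 := by
    refine h1.trans ?_
    apply div_le_div_of_nonneg_right _ hpos.le
    exact mul_le_of_le_one_right hC0 h2
  rw [norm_div]
  calc ‖Hf (c + w * I)‖ / ‖(c : ℂ) + w * I‖ ≤ (C / (1 + |w|) ^ 3) / c :=
        div_le_div₀ (by positivity) h4 hc h3
    _ = C / c / (1 + |w|) ^ 3 := by ring

/-- MoE6a (the integral is holomorphic in `s`). For `χ ≠ 1`, `c > 0`, on the half plane `Re s - c / log r > 1/20`.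
PROOF. `LFunction χ` is entire for `χ ≠ 1` (`DirichletCharacter.differentiable_LFunction`). By `EM.L_growth`
(`|L(z)| ≤ 20 (2r+1) |z|` for `Re z ≥ 1/20`, see `EMLfun.lean`) and `Hf_bound 4`, `|c+iw| ≥ c`, the integrand is, locally
uniformly in `s`, at most `C (1+|w|)^{-3}`, continuous in `w` (`Hf_continuous`) and holomorphic in `s`. Use e.g.
`hasDerivAt_integral_of_dominated_loc_of_deriv_le` at `s₀` on a small ball with the Cauchy estimate
`|L'(z)| ≤ ρ^{-1} sup_{|u-z|=ρ} |L(u)|` for the derivative (`Complex.norm_deriv_le_of_forall_mem_sphere_norm_le`). -/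
lemma split_holo (r : ℕ) [NeZero r] (hr : 2 ≤ r) (χ : DirichletCharacter ℂ r) (hχ : χ ≠ 1) (c : ℝ) (hc : 0 < c) :
    DifferentiableOn ℂ (fun s : ℂ => ∫ w : ℝ, Hf (c + w * I) / (c + w * I) *
      χ.LFunction (s - (c + w * I) / (Real.log r : ℂ))) {s : ℂ | 1 / 20 < s.re - c / Real.log r} := by
  have hl : 0 < Real.log r := Real.log_pos (by exact_mod_cast (by omega : 1 < r))
  set l := Real.log r with hldef
  obtain ⟨C, hC0, hC⟩ := MoE6a_H c hc
  have hL : Differentiable ℂ χ.LFunction := DirichletCharacter.differentiable_LFunction hχ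
  have hLc : Continuous χ.LFunction := hL.continuous
  have hL'c : Continuous (deriv χ.LFunction) := (hL.contDiff (n := 1)).continuous_deriv le_rfl
  intro s0 hs0
  have hs0' : 1 / 20 < s0.re - c / l := hs0
  set ρ := (s0.re - c / l - 1 / 20) / 2 with hρdef
  have hρ : 0 < ρ := by rw [hρdef]; linarith
  have hne : ∀ w : ℝ, (c : ℂ) + w * I ≠ 0 := by
    intro w h
    have h1 : ((c : ℂ) + w * I).re = c := by simp
    rw [h] at h1
    simp at h1
    linarith
  have hHc : Continuous fun w : ℝ => Hf (c + w * I) / (c + w * I) := by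
    apply Continuous.div
    · exact Hf_continuous.comp (by fun_prop)
    · fun_prop
    · exact hne
  set K := ‖s0‖ + 2 * ρ + (c + 1) / l with hK
  have hK0 : 0 ≤ K := by positivity
  have hlre : ∀ w : ℝ, ((c + w * I : ℂ) / (l : ℂ)).re = c / l := by
    intro w
    rw [Complex.div_ofReal_re]
    simp
  have hlnorm : ∀ w : ℝ, ‖(c + w * I : ℂ) / (l : ℂ)‖ ≤ (c + |w|) / l := by
    intro w
    rw [norm_div, Complex.norm_real, Real.norm_eq_abs, abs_of_pos hl]
    apply div_le_div_of_nonneg_right _ hl.le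
    refine (norm_add_le _ _).trans ?_
    simp [abs_of_pos hc]
  -- bound for L
  have hLb : ∀ (w : ℝ) (u : ℂ), ‖u - (s0 - (c + w * I) / (l : ℂ))‖ ≤ 2 * ρ →
      ‖χ.LFunction u‖ ≤ 20 * (2 * r + 1) * (K * (1 + |w|)) := by
    intro w u hu
    have h1 : 1 / 20 ≤ u.re := by
      have h2 := (Complex.abs_re_le_norm (u - (s0 - (c + w * I) / (l : ℂ)))).trans hu
      have h3 := (abs_le.1 h2).1
      rw [Complex.sub_re, Complex.sub_re, hlre] at h3
      linarith
    refine (EM.L_growth r χ hχ u h1).trans ?_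
    apply mul_le_mul_of_nonneg_left _ (by positivity)
    have h4 : ‖u‖ ≤ 2 * ρ + (‖s0‖ + (c + |w|) / l) := by
      have h5 : u = (u - (s0 - (c + w * I) / (l : ℂ))) + (s0 - (c + w * I) / (l : ℂ)) := by ring
      rw [h5]
      refine (norm_add_le _ _).trans (add_le_add hu ?_)
      exact (norm_sub_le _ _).trans (by linarith [hlnorm w])
    refine h4.trans ?_
    have h6 : (c + |w|) / l ≤ (c + 1) / l * (1 + |w|) := by
      rw [div_mul_eq_mul_div]
      apply div_le_div_of_nonneg_right _ hl.le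
      nlinarith [abs_nonneg w]
    have h7 : ‖s0‖ + 2 * ρ ≤ (‖s0‖ + 2 * ρ) * (1 + |w|) := by
      have : 0 ≤ ‖s0‖ + 2 * ρ := by positivity
      nlinarith [abs_nonneg w]
    rw [hK, add_mul _ ((c + 1) / l)]
    linarith
  set F : ℂ → ℝ → ℂ := fun s w => Hf (c + w * I) / (c + w * I) *
      χ.LFunction (s - (c + w * I) / (l : ℂ)) with hF
  set F' : ℂ → ℝ → ℂ := fun s w => Hf (c + w * I) / (c + w * I) *
      deriv χ.LFunction (s - (c + w * I) / (l : ℂ)) with hF'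
  have hcomp : ∀ s : ℂ, Continuous fun w : ℝ => s - (c + w * I) / (l : ℂ) := by
    intro s
    fun_prop
  have hFc : ∀ s, Continuous (F s) := fun s => hHc.mul (hLc.comp (hcomp s))
  have hF'c : ∀ s, Continuous (F' s) := fun s => hHc.mul (hL'c.comp (hcomp s))
  have halg : ∀ (w A : ℝ), 0 ≤ A → C / (1 + |w|) ^ 3 * (A * (1 + |w|)) =
      C * A * (1 / (1 + |w|) ^ 2) := by
    intro w A _
    have : (1 + |w|) ≠ 0 := by positivity
    field_simp
  have hFint : Integrable (F s0) := by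
    refine Integrable.mono' (MoE6a_int.const_mul (C * (20 * (2 * r + 1) * K)))
      (hFc s0).aestronglyMeasurable (Filter.Eventually.of_forall fun w => ?_)
    simp only [hF]
    rw [norm_mul, ← halg w _ (by positivity)]
    apply mul_le_mul (hC w) _ (norm_nonneg _) (by positivity)
    have h1 := hLb w (s0 - (c + w * I) / (l : ℂ)) (by rw [sub_self, norm_zero]; positivity)
    linarith
  have hbound : ∀ᵐ w : ℝ, ∀ s ∈ Metric.ball s0 ρ, ‖F' s w‖ ≤
      C * (20 * (2 * r + 1) * K / ρ) * (1 / (1 + |w|) ^ 2) := by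
    refine Filter.Eventually.of_forall fun w s hs => ?_
    simp only [hF']
    rw [norm_mul, ← halg w _ (by positivity)]
    apply mul_le_mul (hC w) _ (norm_nonneg _) (by positivity)
    have h1 := Complex.norm_deriv_le_of_forall_mem_sphere_norm_le (f := χ.LFunction)
      (c := s - (c + w * I) / (l : ℂ)) (R := ρ) (C := 20 * (2 * r + 1) * (K * (1 + |w|))) hρ
      hL.diffContOnCl (by
        intro u hu
        apply hLb w u
        have h2 : ‖u - (s - (c + w * I) / (l : ℂ))‖ = ρ := by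
          rw [← dist_eq_norm]; exact hu
        have h3 : ‖s - s0‖ < ρ := by rw [← dist_eq_norm]; exact hs
        have h4 : u - (s0 - (c + w * I) / (l : ℂ)) =
          (u - (s - (c + w * I) / (l : ℂ))) + (s - s0) := by ring
        rw [h4]
        exact (norm_add_le _ _).trans (by linarith))
    refine h1.trans (le_of_eq ?_)
    ring
  have hdiff : ∀ᵐ w : ℝ, ∀ s ∈ Metric.ball s0 ρ, HasDerivAt (F · w) (F' s w) s := by
    refine Filter.Eventually.of_forall fun w s _ => ?_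
    simp only [hF, hF']
    apply HasDerivAt.const_mul
    exact (hL _).hasDerivAt.comp_sub_const s _
  have key := hasDerivAt_integral_of_dominated_loc_of_deriv_le (Metric.ball_mem_nhds s0 hρ)
    (Filter.Eventually.of_forall fun s => (hFc s).aestronglyMeasurable) hFint
    (hF'c s0).aestronglyMeasurable hbound
    (MoE6a_int.const_mul (C * (20 * (2 * r + 1) * K / ρ))) hdiff
  exact key.2.differentiableAt.differentiableWithinAt

end Pool.Agent.SO
end

section

set_option autoImplicit false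

namespace Pool.Agent.SO

open Finset Complex MeasureTheory
open scoped ContDiff

/-- MoE6 (continuation). The identity of `split_large` for `Re s - c / log r > 1/20`, `χ ≠ 1`.
PROOF. Identity theorem on the half plane `U = {s : 1/20 < Re s - c/l}` (open, convex). `L` and `DD` are entire
(`DirichletCharacter.differentiable_LFunction`; `DD` is a finite sum of exponentials), the integral is holomorphic on `U`
(`split_holo`), both sides agree for `Re s - c/l > 1` by `split_large`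
(`AnalyticOnNhd.eqOn_of_preconnected_of_eventuallyEq` at the point `s = c/l + 2`). -/
lemma split (r : ℕ) [NeZero r] (hr : 2 ≤ r) (χ : DirichletCharacter ℂ r) (hχ : χ ≠ 1) (s : ℂ) (c : ℝ)
    (hc : 0 < c) (hs : 1 / 20 < s.re - c / Real.log r) :
    χ.LFunction s = DD r χ s + (1 / (2 * Real.pi) : ℂ) * ∫ w : ℝ, Hf (c + w * I) / (c + w * I) *
      χ.LFunction (s - (c + w * I) / (Real.log r : ℂ)) := by
  set U : Set ℂ := {s : ℂ | 1 / 20 < s.re - c / Real.log r} with hU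
  have hUre : U = {s : ℂ | 1 / 20 + c / Real.log r < s.re} := by
    ext z
    constructor
    · intro h
      have h1 : 1 / 20 < z.re - c / Real.log r := h
      change 1 / 20 + c / Real.log r < z.re
      linarith
    · intro h
      have h1 : 1 / 20 + c / Real.log r < z.re := h
      change 1 / 20 < z.re - c / Real.log r
      linarith
  have hUo : IsOpen U := by
    rw [hUre]
    exact isOpen_lt continuous_const Complex.continuous_re
  have hUc : IsPreconnected U := by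
    rw [hUre]
    exact (convex_halfSpace_re_gt _).isPreconnected
  have hDD : Differentiable ℂ (DD r χ) := by
    have h1 : DD r χ = fun s => ∑ m ∈ Finset.Icc 1 r,
        (gc (Real.log m / Real.log r) : ℂ) * χ m * (m : ℂ) ^ (-s) := rfl
    rw [h1]
    refine Differentiable.fun_sum fun m hm => ?_
    have hm1 : (m : ℂ) ≠ 0 := by
      have := (Finset.mem_Icc.1 hm).1
      exact_mod_cast (by omega : m ≠ 0)
    exact (differentiable_const _).mul
      (differentiable_id.neg.const_cpow (Or.inl hm1))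
  have hf : AnalyticOnNhd ℂ χ.LFunction U :=
    (DirichletCharacter.differentiable_LFunction hχ).differentiableOn.analyticOnNhd hUo
  have hg : AnalyticOnNhd ℂ (fun s : ℂ => DD r χ s + (1 / (2 * Real.pi) : ℂ) *
      ∫ w : ℝ, Hf (c + w * I) / (c + w * I) *
      χ.LFunction (s - (c + w * I) / (Real.log r : ℂ))) U :=
    (hDD.differentiableOn.add ((split_holo r hr χ hχ c hc).const_mul _)).analyticOnNhd hUo
  have hlpos : 0 < Real.log r := Real.log_pos (by exact_mod_cast (by omega : 1 < r))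
  have hz : ((2 + c / Real.log r : ℝ) : ℂ) ∈ U := by
    rw [hUre]
    change 1 / 20 + c / Real.log r < ((2 + c / Real.log r : ℝ) : ℂ).re
    rw [Complex.ofReal_re]
    linarith
  have hev : χ.LFunction =ᶠ[nhds ((2 + c / Real.log r : ℝ) : ℂ)]
      (fun s : ℂ => DD r χ s + (1 / (2 * Real.pi) : ℂ) *
      ∫ w : ℝ, Hf (c + w * I) / (c + w * I) *
      χ.LFunction (s - (c + w * I) / (Real.log r : ℂ))) := by
    have ho : IsOpen {s : ℂ | 1 + c / Real.log r < s.re} :=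
      isOpen_lt continuous_const Complex.continuous_re
    have hmem : ((2 + c / Real.log r : ℝ) : ℂ) ∈ {s : ℂ | 1 + c / Real.log r < s.re} := by
      change 1 + c / Real.log r < ((2 + c / Real.log r : ℝ) : ℂ).re
      rw [Complex.ofReal_re]
      linarith
    filter_upwards [ho.mem_nhds hmem] with z hz1
    have hz2 : 1 + c / Real.log r < z.re := hz1
    exact split_large r hr χ z c hc (by linarith)
  exact AnalyticOnNhd.eqOn_of_preconnected_of_eventuallyEq hf hg hUc hz hev hs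

end Pool.Agent.SO
end

section

set_option autoImplicit false

namespace Pool.Agent.SO

open Finset Complex MeasureTheory
open scoped ContDiff

lemma MoG5_int4 : Integrable (fun w : ℝ => 1 / (1 + |w|) ^ 4) ∧
    ∫ w : ℝ, 1 / (1 + |w|) ^ 4 ≤ 2 := by
  constructor
  · have h := integrable_one_add_norm (E := ℝ) (μ := volume) (r := 4) (by norm_num)
    refine h.congr (Filter.Eventually.of_forall fun w => ?_)
    have h0 : (0 : ℝ) ≤ 1 + |w| := by positivity
    simp only [Real.norm_eq_abs]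
    rw [Real.rpow_neg h0, one_div]
    norm_num
  · have h1 : ∫ w : ℝ, 1 / (1 + |w|) ^ 4 = 2 * ∫ w in Set.Ioi (0 : ℝ), 1 / (1 + w) ^ 4 :=
      integral_comp_abs (f := fun w => 1 / (1 + w) ^ 4)
    have h2 : ∫ w in Set.Ioi (0 : ℝ), 1 / (1 + w) ^ 4 = 0 - (-(1 / 3) * (1 / (1 + 0) ^ 3)) := by
      refine integral_Ioi_of_hasDerivAt_of_nonneg' (g := fun w => -(1 / 3) * (1 / (1 + w) ^ 3))
        ?_ ?_ ?_
      · intro x hx
        have hx0 : (0 : ℝ) ≤ x := hx
        have hx1 : (1 + x) ≠ 0 := by positivity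
        have e1 : HasDerivAt (fun w : ℝ => (1 + w) ^ 3) (3 * (1 + x) ^ 2 * 1) x := by
          have := ((hasDerivAt_id x).const_add 1).fun_pow 3
          simpa using this
        have e2 := ((e1.fun_inv (pow_ne_zero 3 hx1)).const_mul (-(1 / 3)))
        have e3 : (fun w : ℝ => -(1 / 3) * (1 / (1 + w) ^ 3)) =
            fun w => -(1 / 3) * ((1 + w) ^ 3)⁻¹ := by
          funext w; rw [one_div ((1 + w) ^ 3)]
        rw [e3]
        refine e2.congr_deriv ?_
        field_simp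
      · intro x hx
        have hx0 : (0 : ℝ) < x := hx
        positivity
      · have e1 : Filter.Tendsto (fun w : ℝ => (1 + w) ^ 3) Filter.atTop Filter.atTop := by
          refine (Filter.tendsto_pow_atTop (by norm_num)).comp ?_
          exact Filter.tendsto_atTop_add_const_left _ 1 Filter.tendsto_id
        have e2 := (Filter.Tendsto.inv_tendsto_atTop e1).const_mul (-(1 / 3))
        rw [mul_zero] at e2
        refine e2.congr (fun w => ?_)
        rw [one_div ((1 + w) ^ 3)]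
        rfl
    rw [h1, h2]
    norm_num

lemma MoG5_int2 : Integrable (fun w : ℝ => 1 / (1 + |w|) ^ 2) := by
  have h := integrable_one_add_norm (E := ℝ) (μ := volume) (r := 2) (by norm_num)
  refine h.congr (Filter.Eventually.of_forall fun w => ?_)
  have h0 : (0 : ℝ) ≤ 1 + |w| := by positivity
  simp only [Real.norm_eq_abs]
  rw [Real.rpow_neg h0, one_div]
  norm_num

/-- Cauchy-Schwarz with a weight of mass at most two. -/
lemma MoG5_cs (g x : ℝ → ℝ) (hg0 : ∀ w, 0 ≤ g w) (hg : Integrable g)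
    (hgx : Integrable (fun w => g w * x w)) (hgx2 : Integrable (fun w => g w * x w ^ 2))
    (hA : ∫ w, g w ≤ 2) : (∫ w, g w * x w) ^ 2 ≤ 2 * ∫ w, g w * x w ^ 2 := by
  set X := ∫ w, g w * x w with hX
  have h0 : 0 ≤ ∫ w, g w * (x w - X / 2) ^ 2 :=
    integral_nonneg fun w => mul_nonneg (hg0 w) (sq_nonneg _)
  have h1 : ∫ w, g w * (x w - X / 2) ^ 2 =
      (∫ w, g w * x w ^ 2) - X * X + X ^ 2 / 4 * ∫ w, g w := by
    have e : (fun w => g w * (x w - X / 2) ^ 2) =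
        fun w => (g w * x w ^ 2 - X * (g w * x w)) + X ^ 2 / 4 * g w := by
      funext w; ring
    have i1 : Integrable (fun w => g w * x w ^ 2 - X * (g w * x w)) :=
      hgx2.sub (hgx.const_mul X)
    have i2 : Integrable (fun w => X ^ 2 / 4 * g w) := hg.const_mul _
    rw [e, integral_add i1 i2,
      integral_sub hgx2 (hgx.const_mul X), integral_const_mul, integral_const_mul, ← hX]
  rw [h1] at h0
  nlinarith [sq_nonneg X]

/-- MoG5 (remainder in mean square). For `k ≥ 4`: with `l = log r`, `a ≥ 0`, `1 ≤ c ≤ l/8`, any `m : ℂ`: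
`|(L - DD)(pt a t) m|² ≤ C e^{-5(a+c)/4} ∫ |L(pt(-c)(t - w/l)) m|² (1+|w|)^{-k} dw`.
PROOF. `split` with `c' = a + c` : `pt r a t - (c' + iw)/l = pt r (-c) (t - w/l)`, real part `1/2 - c/l ≥ 3/8 > 1/20`.
`Hf_bound k`: `|Hf(c'+iw)/(c'+iw)| ≤ C e^{-5c'/8} (1+|w|)^{-k}` (`|c'+iw| ≥ 1`). Cauchy-Schwarz
(`|∫ F u|² ≤ ∫ F ∫ F |u|²` with `F = C e^{-5c'/8}(1+|w|)^{-k}`, `∫ (1+|w|)^{-k} ≤ 2`). Integrability: `EM.L_growth`
gives `|L|² ≤ C_r (1+|t|+|w|)²` and `k ≥ 4`. -/
lemma remainder (k : ℕ) (hk : 4 ≤ k) : ∃ C : ℝ, 1 ≤ C ∧ ∀ (r : ℕ) [NeZero r], 2 ≤ r →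
    ∀ χ : DirichletCharacter ℂ r, χ ≠ 1 → ∀ (a c t : ℝ) (m : ℂ), 0 ≤ a → 1 ≤ c → c ≤ Real.log r / 8 →
    Integrable (fun w : ℝ => ‖χ.LFunction (pt r (-c) (t - w / Real.log r)) * m‖ ^ 2 / (1 + |w|) ^ k) ∧
    ‖(χ.LFunction (pt r a t) - DD r χ (pt r a t)) * m‖ ^ 2
      ≤ C * Real.exp (-(5 / 4 * (a + c))) *
        ∫ w : ℝ, ‖χ.LFunction (pt r (-c) (t - w / Real.log r)) * m‖ ^ 2 / (1 + |w|) ^ k := by
  obtain ⟨C₀, hC₀, hHf⟩ := Hf_bound k
  refine ⟨2 * C₀ ^ 2 + 1, by nlinarith [sq_nonneg C₀], ?_⟩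
  intro r _ hr χ hχ a c t m ha hc hcl
  have hr1 : (1 : ℝ) < r := by exact_mod_cast (by omega : 1 < r)
  have hl8 : 8 ≤ Real.log r := by linarith
  set l := Real.log r with hl
  have hl0 : 0 < l := by linarith
  set x : ℝ → ℝ := fun w => ‖χ.LFunction (pt r (-c) (t - w / l)) * m‖ with hx
  set g : ℝ → ℝ := fun w => 1 / (1 + |w|) ^ k with hg
  have hg0 : ∀ w, 0 ≤ g w := fun w => by simp only [hg]; positivity
  have hx0 : ∀ w, 0 ≤ x w := fun w => norm_nonneg _
  -- the points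
  have hre : ∀ (b u : ℝ), (pt r b u).re = 1 / 2 + b / l := by
    intro b u
    unfold pt
    rw [← Complex.ofReal_div, Complex.add_re, Complex.add_re, Complex.ofReal_re]
    have e1 : (1 / 2 : ℂ).re = 1 / 2 := by norm_num
    have e2 : ((u : ℂ) * I).re = 0 := by simp
    rw [e1, e2]
    ring
  have him : ∀ (b u : ℝ), (pt r b u).im = u := by
    intro b u
    unfold pt
    rw [← Complex.ofReal_div, Complex.add_im, Complex.add_im, Complex.ofReal_im]
    have e1 : (1 / 2 : ℂ).im = 0 := by norm_num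
    have e2 : ((u : ℂ) * I).im = u := by simp
    rw [e1, e2]
    ring
  have hcl' : c / l ≤ 1 / 8 := by
    rw [div_le_iff₀ hl0]
    linarith
  have hc0' : 0 ≤ c / l := div_nonneg (by linarith) hl0.le
  -- continuity
  have hLc : Continuous (fun w : ℝ => χ.LFunction (pt r (-c) (t - w / l)) * m) := by
    have h1 : Continuous χ.LFunction := (DirichletCharacter.differentiable_LFunction hχ).continuous
    have h2 : Continuous (fun w : ℝ => pt r (-c) (t - w / l)) := by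
      unfold pt
      fun_prop
    exact (h1.comp h2).mul continuous_const
  have hxc : Continuous x := hLc.norm
  have hgc : Continuous g := by
    refine Continuous.div continuous_const (by fun_prop) (fun w => ?_)
    positivity
  -- growth
  set D : ℝ := 20 * (2 * r + 1) * (1 + |t|) * ‖m‖ with hD
  have hxb : ∀ w, x w ≤ D * (1 + |w|) := by
    intro w
    simp only [hx]
    rw [norm_mul]
    have h1 := Pool.Agent.EM.L_growth r χ hχ (pt r (-c) (t - w / l))
      (by rw [hre, neg_div]; linarith)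
    have h2 : ‖pt r (-c) (t - w / l)‖ ≤ (1 + |t|) * (1 + |w|) := by
      have h3 := Complex.norm_le_abs_re_add_abs_im (pt r (-c) (t - w / l))
      rw [hre, him] at h3
      have h4 : |1 / 2 + -c / l| ≤ 1 := by
        rw [neg_div, abs_le]
        constructor <;> linarith
      have h5 : |t - w / l| ≤ |t| + |w| := by
        refine (abs_sub _ _).trans (add_le_add le_rfl ?_)
        rw [abs_div, abs_of_pos hl0]
        exact div_le_self (abs_nonneg _) (by linarith)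
      nlinarith [mul_nonneg (abs_nonneg t) (abs_nonneg w)]
    calc ‖χ.LFunction (pt r (-c) (t - w / l))‖ * ‖m‖
        ≤ (20 * (2 * r + 1) * ‖pt r (-c) (t - w / l)‖) * ‖m‖ :=
          mul_le_mul_of_nonneg_right h1 (norm_nonneg _)
      _ ≤ (20 * (2 * r + 1) * ((1 + |t|) * (1 + |w|))) * ‖m‖ := by gcongr
      _ = D * (1 + |w|) := by rw [hD]; ring
  have hg4 : ∀ w, g w ≤ 1 / (1 + |w|) ^ 4 := by
    intro w
    simp only [hg]
    refine one_div_le_one_div_of_le (by positivity) ?_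
    exact pow_le_pow_right₀ (by linarith [abs_nonneg w]) hk
  have hgI : Integrable g := by
    refine MoG5_int4.1.mono' hgc.aestronglyMeasurable (Filter.Eventually.of_forall fun w => ?_)
    rw [Real.norm_eq_abs, abs_of_nonneg (hg0 w)]
    exact hg4 w
  have hgA : ∫ w, g w ≤ 2 := (integral_mono hgI MoG5_int4.1 hg4).trans MoG5_int4.2
  have hgx2I : Integrable (fun w => g w * x w ^ 2) := by
    refine (MoG5_int2.const_mul (D ^ 2)).mono' (hgc.mul (hxc.pow 2)).aestronglyMeasurable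
      (Filter.Eventually.of_forall fun w => ?_)
    rw [Real.norm_eq_abs, abs_of_nonneg (mul_nonneg (hg0 w) (sq_nonneg _))]
    have h1 : x w ^ 2 ≤ (D * (1 + |w|)) ^ 2 := pow_le_pow_left₀ (hx0 w) (hxb w) 2
    have hp : (0 : ℝ) < 1 + |w| := by positivity
    calc g w * x w ^ 2 ≤ 1 / (1 + |w|) ^ 4 * (D * (1 + |w|)) ^ 2 :=
          mul_le_mul (hg4 w) h1 (sq_nonneg _) (by positivity)
      _ = D ^ 2 * (1 / (1 + |w|) ^ 2) := by field_simp
  have hgxI : Integrable (fun w => g w * x w) := by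
    refine (hgI.add hgx2I).mono' (hgc.mul hxc).aestronglyMeasurable
      (Filter.Eventually.of_forall fun w => ?_)
    rw [Real.norm_eq_abs, abs_of_nonneg (mul_nonneg (hg0 w) (hx0 w))]
    have h1 : x w ≤ 1 + x w ^ 2 := by nlinarith [sq_nonneg (x w - 1), sq_nonneg (x w)]
    calc g w * x w ≤ g w * (1 + x w ^ 2) := mul_le_mul_of_nonneg_left h1 (hg0 w)
      _ = g w + g w * x w ^ 2 := by ring
  have heq : (fun w : ℝ => ‖χ.LFunction (pt r (-c) (t - w / l)) * m‖ ^ 2 / (1 + |w|) ^ k) =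
      fun w => g w * x w ^ 2 := by
    funext w
    simp only [hg, hx]
    ring
  rw [heq]
  refine ⟨hgx2I, ?_⟩
  -- the formula
  have hsplit := split r hr χ hχ (pt r a t) (a + c) (by linarith) (by
    rw [hre, ← hl, add_div]
    linarith)
  have hpt : ∀ w : ℝ, pt r a t - ((((a + c : ℝ) : ℂ)) + w * I) / (Real.log r : ℂ) =
      pt r (-c) (t - w / l) := by
    intro w
    have hlc : ((Real.log r : ℝ) : ℂ) ≠ 0 := by
      rw [← hl]
      exact_mod_cast hl0.ne'
    unfold pt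
    rw [Complex.ofReal_add, Complex.ofReal_neg, Complex.ofReal_sub, Complex.ofReal_div, hl]
    field_simp
    ring
  have hdiff : (χ.LFunction (pt r a t) - DD r χ (pt r a t)) * m =
      (1 / (2 * Real.pi) : ℂ) * ∫ w : ℝ, Hf (((a + c : ℝ) : ℂ) + w * I) /
        (((a + c : ℝ) : ℂ) + w * I) * (χ.LFunction (pt r (-c) (t - w / l)) * m) := by
    have e1 : χ.LFunction (pt r a t) - DD r χ (pt r a t) =
        (1 / (2 * Real.pi) : ℂ) * ∫ w : ℝ, Hf (((a + c : ℝ) : ℂ) + w * I) /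
          (((a + c : ℝ) : ℂ) + w * I) *
            χ.LFunction (pt r a t - (((a + c : ℝ) : ℂ) + w * I) / (Real.log r : ℂ)) := by
      rw [hsplit]
      ring
    rw [e1, mul_assoc, ← integral_mul_const]
    congr 1
    refine integral_congr_ae (Filter.Eventually.of_forall fun w => ?_)
    simp only
    rw [hpt w]
    ring
  set K : ℝ := C₀ * Real.exp (-(5 / 8 * (a + c))) with hK
  have hK0 : 0 ≤ K := mul_nonneg hC₀ (Real.exp_pos _).le
  have hFb : ∀ w : ℝ, ‖Hf (((a + c : ℝ) : ℂ) + w * I) / (((a + c : ℝ) : ℂ) + w * I) *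
      (χ.LFunction (pt r (-c) (t - w / l)) * m)‖ ≤ K * (g w * x w) := by
    intro w
    rw [norm_mul, norm_div]
    have hzre : ((((a + c : ℝ) : ℂ)) + w * I).re = a + c := by simp
    have hzim : ((((a + c : ℝ) : ℂ)) + w * I).im = w := by simp
    have h1 := hHf (((a + c : ℝ) : ℂ) + w * I) (by rw [hzre]; linarith)
    rw [hzre, hzim] at h1
    have h2 : 1 ≤ ‖(((a + c : ℝ) : ℂ)) + w * I‖ := by
      have h3 := Complex.abs_re_le_norm ((((a + c : ℝ) : ℂ)) + w * I)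
      rw [hzre, abs_of_nonneg (by linarith)] at h3
      linarith
    have h3 : ‖Hf (((a + c : ℝ) : ℂ) + w * I)‖ / ‖(((a + c : ℝ) : ℂ)) + w * I‖ ≤
        K * g w := by
      calc ‖Hf (((a + c : ℝ) : ℂ) + w * I)‖ / ‖(((a + c : ℝ) : ℂ)) + w * I‖
          ≤ ‖Hf (((a + c : ℝ) : ℂ) + w * I)‖ := div_le_self (norm_nonneg _) h2
        _ ≤ C₀ * Real.exp (-(5 / 8 * (a + c))) / (1 + |w|) ^ k := h1
        _ = K * g w := by simp only [hK, hg]; ring
    calc _ ≤ K * g w * x w := mul_le_mul_of_nonneg_right h3 (norm_nonneg _)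
      _ = K * (g w * x w) := by ring
  set X := ∫ w, g w * x w with hX
  have hX0 : 0 ≤ X := integral_nonneg fun w => mul_nonneg (hg0 w) (hx0 w)
  have hnorm : ‖(χ.LFunction (pt r a t) - DD r χ (pt r a t)) * m‖ ≤ K * X := by
    rw [hdiff, norm_mul]
    have h1 : ‖(1 / (2 * Real.pi) : ℂ)‖ ≤ 1 := by
      have e : (1 / (2 * Real.pi) : ℂ) = ((1 / (2 * Real.pi) : ℝ) : ℂ) := by push_cast; rfl
      rw [e, Complex.norm_real, Real.norm_eq_abs, abs_of_nonneg (by positivity),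
        div_le_one (by positivity)]
      linarith [Real.pi_gt_three]
    have h2 : ‖∫ w : ℝ, Hf (((a + c : ℝ) : ℂ) + w * I) /
        (((a + c : ℝ) : ℂ) + w * I) * (χ.LFunction (pt r (-c) (t - w / l)) * m)‖ ≤ K * X := by
      refine (norm_integral_le_of_norm_le (hgxI.const_mul K)
        (Filter.Eventually.of_forall hFb)).trans (le_of_eq ?_)
      rw [integral_const_mul]
    calc _ ≤ 1 * (K * X) := mul_le_mul h1 h2 (norm_nonneg _) zero_le_one
      _ = K * X := one_mul _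
  have hcs := MoG5_cs g x hg0 hgI hgxI hgx2I hgA
  rw [← hX] at hcs
  set Y := ∫ w, g w * x w ^ 2 with hY
  have hY0 : 0 ≤ Y := integral_nonneg fun w => mul_nonneg (hg0 w) (sq_nonneg _)
  have hpi : ‖(χ.LFunction (pt r a t) - DD r χ (pt r a t)) * m‖ ^ 2 ≤ (K * X) ^ 2 :=
    pow_le_pow_left₀ (norm_nonneg _) hnorm 2
  have hK2 : K ^ 2 = C₀ ^ 2 * Real.exp (-(5 / 4 * (a + c))) := by
    rw [hK, mul_pow, ← Real.exp_nat_mul]
    congr 2
    push_cast
    ring
  have hE : 0 < Real.exp (-(5 / 4 * (a + c))) := Real.exp_pos _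
  calc ‖(χ.LFunction (pt r a t) - DD r χ (pt r a t)) * m‖ ^ 2 ≤ (K * X) ^ 2 := hpi
    _ = K ^ 2 * X ^ 2 := by ring
    _ ≤ K ^ 2 * (2 * Y) := mul_le_mul_of_nonneg_left hcs (sq_nonneg _)
    _ = 2 * C₀ ^ 2 * Real.exp (-(5 / 4 * (a + c))) * Y := by rw [hK2]; ring
    _ ≤ (2 * C₀ ^ 2 + 1) * Real.exp (-(5 / 4 * (a + c))) * Y := by
        have : 0 ≤ Real.exp (-(5 / 4 * (a + c))) * Y := mul_nonneg hE.le hY0
        nlinarith

end Pool.Agent.SO
end

section

set_option autoImplicit false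

namespace Pool.Agent.SO

open Finset Complex MeasureTheory
open scoped ContDiff

/-- MoG4 (trivial bounds). `|L| ≤ 200 r (1 + |t|)` on `1/4 ≤ Re ≤ 2`, `|MM| ≤ r^{1/8}` for `b ≥ 0`.
PROOF. `EM.L_growth` with `|s| ≤ 2 + |t|`, `20 (2r+1)(2+|t|) ≤ 200 r (1+|t|)`. `MM`: nonzero terms have
`log d < (log r)/8`, i.e. `d < r^{1/8}`: at most `r^{1/8}` terms (if `1 ≤ d < r^{1/8}`), each of modulus
`≤ d^{-1/2-b/l} ≤ 1`. -/
lemma trivial_bounds (r : ℕ) [NeZero r] (hr : 2 ≤ r) (χ : DirichletCharacter ℂ r) (hχ : χ ≠ 1) :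
    (∀ s : ℂ, 1 / 4 ≤ s.re → s.re ≤ 2 → ‖χ.LFunction s‖ ≤ 200 * r * (1 + |s.im|)) ∧
    (∀ b t0 : ℝ, 0 ≤ b → ‖MM r χ (pt r b t0)‖ ≤ (r : ℝ) ^ (1 / 8 : ℝ)) := by
  have hr1 : (1 : ℝ) < r := by exact_mod_cast (by omega : 1 < r)
  have hr0 : (0 : ℝ) < r := by linarith
  have hl : 0 < Real.log r := Real.log_pos hr1
  constructor
  · intro s hs1 hs2
    have h1 := Pool.Agent.EM.L_growth r χ hχ s (by linarith)
    have h2 : ‖s‖ ≤ 2 * (1 + |s.im|) := by
      have h3 := Complex.norm_le_abs_re_add_abs_im s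
      have h4 : |s.re| ≤ 2 := by
        rw [abs_of_nonneg (by linarith)]
        exact hs2
      have h5 := abs_nonneg s.im
      linarith
    have h6 : 20 * (2 * (r : ℝ) + 1) * ‖s‖ ≤ 20 * (2 * (r : ℝ) + 1) * (2 * (1 + |s.im|)) :=
      mul_le_mul_of_nonneg_left h2 (by positivity)
    have h7 : 20 * (2 * (r : ℝ) + 1) * (2 * (1 + |s.im|)) ≤ 200 * r * (1 + |s.im|) := by
      have h5 := abs_nonneg s.im
      nlinarith
    linarith
  · intro b t0 hb
    set M := ⌊(r : ℝ) ^ (1 / 8 : ℝ)⌋₊ with hM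
    have hterm : ∀ d ∈ Icc 1 r, ‖(ArithmeticFunction.moebius d : ℂ) *
        (stp (1 / 16) (1 / 8) (Real.log d / Real.log r) : ℂ) * χ d *
          (d : ℂ) ^ (-(pt r b t0))‖ ≤ if d ∈ Icc 1 M then (1 : ℝ) else 0 := by
      intro d hd
      rw [mem_Icc] at hd
      have hd0 : (0 : ℝ) < d := by exact_mod_cast hd.1
      split_ifs with hdM
      · rw [norm_mul, norm_mul, norm_mul]
        have h1 : ‖(ArithmeticFunction.moebius d : ℂ)‖ ≤ 1 := by
          rw [Complex.norm_intCast]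
          exact_mod_cast ArithmeticFunction.abs_moebius_le_one
        have h2 : ‖((stp (1 / 16) (1 / 8) (Real.log d / Real.log r) : ℝ) : ℂ)‖ ≤ 1 := by
          rw [Complex.norm_real, Real.norm_eq_abs]
          unfold stp
          rw [abs_of_nonneg (Real.smoothTransition.nonneg _)]
          exact Real.smoothTransition.le_one _
        have h3 : ‖χ (d : ZMod r)‖ ≤ 1 := DirichletCharacter.norm_le_one χ _
        have h4 : ‖(d : ℂ) ^ (-(pt r b t0))‖ ≤ 1 := by
          rw [Complex.norm_natCast_cpow_of_pos hd.1]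
          apply Real.rpow_le_one_of_one_le_of_nonpos (by exact_mod_cast hd.1)
          have h5 : (pt r b t0).re = 1 / 2 + b / Real.log r := by
            unfold pt
            rw [← Complex.ofReal_div, Complex.add_re, Complex.add_re, Complex.ofReal_re]
            have e1 : (1 / 2 : ℂ).re = 1 / 2 := by norm_num
            have e2 : ((t0 : ℂ) * I).re = 0 := by simp
            rw [e1, e2]
            ring
          rw [Complex.neg_re, h5]
          have : 0 ≤ b / Real.log r := div_nonneg hb hl.le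
          linarith
        calc _ ≤ (1 : ℝ) * 1 * 1 * 1 := by gcongr
          _ = 1 := by norm_num
      · have h1 : M < d := by
          by_contra hcon
          push Not at hcon
          exact hdM (mem_Icc.2 ⟨hd.1, hcon⟩)
        have h2 : (r : ℝ) ^ (1 / 8 : ℝ) < d := Nat.lt_of_floor_lt h1
        have h3 : 1 / 8 ≤ Real.log d / Real.log r := by
          rw [le_div_iff₀ hl]
          have h4 := Real.log_le_log (by positivity) h2.le
          rwa [Real.log_rpow hr0] at h4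
        have h4 : stp (1 / 16) (1 / 8) (Real.log d / Real.log r) = 0 := by
          unfold stp
          apply Real.smoothTransition.zero_of_nonpos
          exact div_nonpos_of_nonpos_of_nonneg (by linarith) (by norm_num)
        rw [h4]
        simp
    have h1 : ‖MM r χ (pt r b t0)‖ ≤ ∑ d ∈ Icc 1 r, if d ∈ Icc 1 M then (1 : ℝ) else 0 := by
      unfold MM
      exact (norm_sum_le _ _).trans (sum_le_sum hterm)
    refine h1.trans ?_
    rw [← sum_filter, sum_const, nsmul_eq_mul, mul_one]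
    have h2 : ((Icc 1 r).filter (fun d => d ∈ Icc 1 M)).card ≤ M := by
      calc ((Icc 1 r).filter (fun d => d ∈ Icc 1 M)).card ≤ (Icc 1 M).card := by
            apply card_le_card
            intro d hd
            exact (mem_filter.1 hd).2
        _ = M := by rw [Nat.card_Icc]; omega
    calc (((Icc 1 r).filter (fun d => d ∈ Icc 1 M)).card : ℝ) ≤ (M : ℝ) := by exact_mod_cast h2
      _ ≤ (r : ℝ) ^ (1 / 8 : ℝ) := Nat.floor_le (by positivity)

end Pool.Agent.SO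
end

section

set_option autoImplicit false

namespace Pool.Agent.SO

open Finset Complex MeasureTheory
open scoped ContDiff

lemma MoH2_cont (r : ℕ) [NeZero r] (χ : DirichletCharacter ℂ r) (hχ : χ ≠ 1) (c : ℝ) (m : ℂ) :
    Continuous (fun t : ℝ => ‖χ.LFunction (pt r c t) * m‖ ^ 2) := by
  have h1 : Continuous χ.LFunction := (DirichletCharacter.differentiable_LFunction hχ).continuous
  have h2 : Continuous (fun t : ℝ => pt r c t) := by
    unfold pt
    fun_prop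
  exact (((h1.comp h2).mul continuous_const).norm).pow 2

lemma MoH2_re (r : ℕ) (b u : ℝ) : (pt r b u).re = 1 / 2 + b / Real.log r := by
  unfold pt
  rw [← Complex.ofReal_div, Complex.add_re, Complex.add_re, Complex.ofReal_re]
  have e1 : (1 / 2 : ℂ).re = 1 / 2 := by norm_num
  have e2 : ((u : ℂ) * I).re = 0 := by simp
  rw [e1, e2]
  ring

lemma MoH2_im (r : ℕ) (b u : ℝ) : (pt r b u).im = u := by
  unfold pt
  rw [← Complex.ofReal_div, Complex.add_im, Complex.add_im, Complex.ofReal_im]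
  have e1 : (1 / 2 : ℂ).im = 0 := by norm_num
  have e2 : ((u : ℂ) * I).im = u := by simp
  rw [e1, e2]
  ring

/-- MoH2. `Q` is continuous and trivially bounded.
PROOF. `pt r c ·` is continuous, `LFunction χ` is differentiable for `χ ≠ 1` (`differentiable_LFunction`, `prim_ne_one`).
Bound: `trivial_bounds`, `Re = 1/2 + c/l ∈ [1/4, 2]`, `‖L m‖² ≤ (200 r (1+|t|) r^{1/8})²`, sum over `χ`, and
`(1+|t|)² ≤ (1+|t|)^A ≤ WW`. -/
lemma Q_trivial (r : ℕ) [NeZero r] (hr : 3 ≤ r) (c b t0 : ℝ) (hc : 0 ≤ c) (hc1 : c ≤ Real.log r) (hb : 0 ≤ b)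
    (A : ℕ) (hA : 2 ≤ A) :
    Continuous (fun t : ℝ => ∑ χ ∈ prim r, ‖χ.LFunction (pt r c t) * MM r χ (pt r b t0)‖ ^ 2) ∧
    ∃ B₀ : ℝ, ∀ t : ℝ, ∑ χ ∈ prim r, ‖χ.LFunction (pt r c t) * MM r χ (pt r b t0)‖ ^ 2
      ≤ B₀ * WW (Real.log r) A t0 t := by
  have hr1 : (1 : ℝ) < r := by exact_mod_cast (by omega : 1 < r)
  have hl : 0 < Real.log r := Real.log_pos hr1
  constructor
  · exact continuous_finsetSum _ (fun χ hχ =>
      MoH2_cont r χ (prim_ne_one r (by omega) χ hχ).2 c _)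
  · refine ⟨((prim r).card : ℝ) * (200 * r * (r : ℝ) ^ (1 / 8 : ℝ)) ^ 2, fun t => ?_⟩
    have hW : (1 + |t|) ^ 2 ≤ WW (Real.log r) A t0 t := by
      unfold WW
      have h1 : (1 + |t|) ^ 2 ≤ (1 + |t|) ^ A :=
        pow_le_pow_right₀ (by linarith [abs_nonneg t]) hA
      have h2 : (1 : ℝ) ≤ (1 + Real.log r * |t - t0|) ^ A := by
        refine one_le_pow₀ ?_
        have := mul_nonneg hl.le (abs_nonneg (t - t0))
        linarith
      have h3 : (0 : ℝ) ≤ (1 + |t|) ^ A := by positivity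
      nlinarith
    have hterm : ∀ χ ∈ prim r, ‖χ.LFunction (pt r c t) * MM r χ (pt r b t0)‖ ^ 2 ≤
        (200 * r * (r : ℝ) ^ (1 / 8 : ℝ)) ^ 2 * WW (Real.log r) A t0 t := by
      intro χ hχ
      obtain ⟨h1, h2⟩ := trivial_bounds r (by omega) χ (prim_ne_one r (by omega) χ hχ).2
      have h3 := h1 (pt r c t) (by
        rw [MoH2_re]
        have : 0 ≤ c / Real.log r := div_nonneg hc hl.le
        linarith) (by
        rw [MoH2_re]
        have : c / Real.log r ≤ 1 := (div_le_one hl).2 hc1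
        linarith)
      rw [MoH2_im] at h3
      have h4 := h2 b t0 hb
      have h5 : ‖χ.LFunction (pt r c t) * MM r χ (pt r b t0)‖ ≤
          200 * r * (r : ℝ) ^ (1 / 8 : ℝ) * (1 + |t|) := by
        rw [norm_mul]
        calc ‖χ.LFunction (pt r c t)‖ * ‖MM r χ (pt r b t0)‖
            ≤ (200 * r * (1 + |t|)) * (r : ℝ) ^ (1 / 8 : ℝ) :=
              mul_le_mul h3 h4 (norm_nonneg _) (by positivity)
          _ = 200 * r * (r : ℝ) ^ (1 / 8 : ℝ) * (1 + |t|) := by ring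
      calc ‖χ.LFunction (pt r c t) * MM r χ (pt r b t0)‖ ^ 2
          ≤ (200 * r * (r : ℝ) ^ (1 / 8 : ℝ) * (1 + |t|)) ^ 2 :=
            pow_le_pow_left₀ (norm_nonneg _) h5 2
        _ = (200 * r * (r : ℝ) ^ (1 / 8 : ℝ)) ^ 2 * (1 + |t|) ^ 2 := by ring
        _ ≤ _ := mul_le_mul_of_nonneg_left hW (sq_nonneg _)
    refine (sum_le_sum hterm).trans (le_of_eq ?_)
    rw [sum_const, nsmul_eq_mul]
    ring

end Pool.Agent.SO
end

section

set_option autoImplicit false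

namespace Pool.Agent.SO

open Complex Pool.Agent.EM

lemma F1b_Gammaℝ (s : ℂ) : ‖Gammaℝ ((starRingEnd ℂ) s)‖ = ‖Gammaℝ s‖ := by
  rw [Gammaℝ_def, Gammaℝ_def, norm_mul, norm_mul]
  congr 1
  · rw [Complex.norm_cpow_eq_rpow_re_of_pos Real.pi_pos, Complex.norm_cpow_eq_rpow_re_of_pos Real.pi_pos]
    congr 1
    have : (-(starRingEnd ℂ) s / 2) = (starRingEnd ℂ) (-s / 2) := by
      rw [map_div₀, map_neg]
      congr 1
      exact (Complex.conj_ofNat 2).symm
    rw [this, Complex.conj_re]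
  · have : ((starRingEnd ℂ) s / 2) = (starRingEnd ℂ) (s / 2) := by
      rw [map_div₀]
      congr 1
      exact (Complex.conj_ofNat 2).symm
    rw [this, Complex.Gamma_conj, Complex.norm_conj]

lemma F1b_gF {r : ℕ} [NeZero r] (χ : DirichletCharacter ℂ r) (s : ℂ) :
    ‖DirichletCharacter.gammaFactor χ ((starRingEnd ℂ) s)‖ = ‖DirichletCharacter.gammaFactor χ s‖ := by
  rcases χ.even_or_odd with h | h
  · rw [h.gammaFactor_def, h.gammaFactor_def]; exact F1b_Gammaℝ s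
  · rw [h.gammaFactor_def, h.gammaFactor_def]
    have : (starRingEnd ℂ) s + 1 = (starRingEnd ℂ) (s + 1) := by
      rw [map_add, map_one]
    rw [this]; exact F1b_Gammaℝ (s + 1)

lemma F1b_star (r : ℕ) [NeZero r] (χ : DirichletCharacter ℂ r) (hχ1 : χ ≠ 1)
    (hχ : χ.IsPrimitive) (x τ : ℝ) (hx : |x| < 1 / 2) :
    ‖DirichletCharacter.gammaFactor χ (1 / 2 - (x : ℂ) + (τ : ℂ) * I)‖ *
        ‖χ.LFunction (1 / 2 - (x : ℂ) + (τ : ℂ) * I)‖ =
      (r : ℝ) ^ x * ‖DirichletCharacter.rootNumber χ‖ *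
        (‖DirichletCharacter.gammaFactor χ (1 / 2 + (x : ℂ) + (τ : ℂ) * I)‖ *
        ‖χ.LFunction (1 / 2 + (x : ℂ) + (τ : ℂ) * I)‖) := by
  have hx' := abs_lt.mp hx
  have hr : (0 : ℝ) < r := by exact_mod_cast Nat.pos_of_ne_zero (NeZero.ne r)
  have h1 := hχ.completedLFunction_one_sub (1 / 2 + (x : ℂ) - (τ : ℂ) * I)
  have e1 : (1 : ℂ) - (1 / 2 + (x : ℂ) - (τ : ℂ) * I) = 1 / 2 - (x : ℂ) + (τ : ℂ) * I := by ring
  have e2 : (1 / 2 + (x : ℂ) - (τ : ℂ) * I) - 1 / 2 = (x : ℂ) - (τ : ℂ) * I := by ring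
  have e3 : (1 / 2 + (x : ℂ) - (τ : ℂ) * I) = (starRingEnd ℂ) (1 / 2 + (x : ℂ) + (τ : ℂ) * I) := by
    simp only [map_add, map_mul, map_div₀, map_one, Complex.conj_ofReal, Complex.conj_I, Complex.conj_ofNat]
    ring
  have hre1 : 0 < (1 / 2 - (x : ℂ) + (τ : ℂ) * I).re := by
    simp; linarith [hx'.2]
  have hre2 : 0 < (1 / 2 + (x : ℂ) - (τ : ℂ) * I).re := by
    simp; linarith [hx'.1]
  rw [e1, e2, U5_comp hχ1 hre1, U5_comp (U5_inv_ne hχ1) hre2, U5_gamma_inv, LFunction_conj r χ hχ1] at h1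
  have h2 := congrArg norm h1
  rw [norm_mul, norm_mul, norm_mul, norm_mul, Complex.norm_conj] at h2
  have e4 : (starRingEnd ℂ) (1 / 2 + (x : ℂ) - (τ : ℂ) * I) = 1 / 2 + (x : ℂ) + (τ : ℂ) * I := by
    rw [e3, Complex.conj_conj]
  rw [e4] at h2
  have e5 : ‖DirichletCharacter.gammaFactor χ (1 / 2 + (x : ℂ) - (τ : ℂ) * I)‖
      = ‖DirichletCharacter.gammaFactor χ (1 / 2 + (x : ℂ) + (τ : ℂ) * I)‖ := by
    rw [e3, F1b_gF]
  rw [e5] at h2
  have e6 : ‖(r : ℂ) ^ ((x : ℂ) - (τ : ℂ) * I)‖ = (r : ℝ) ^ x := by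
    rw [show (r : ℂ) = ((r : ℝ) : ℂ) by norm_num, Complex.norm_cpow_eq_rpow_re_of_pos hr]
    simp
  rw [e6] at h2
  rw [h2]

/-- F1'. The functional equation in absolute value. -/
theorem funct_norm (r : ℕ) [NeZero r] (hr : 2 ≤ r) (χ : DirichletCharacter ℂ r)
    (hχ : χ.IsPrimitive) (x τ : ℝ) (hx : |x| < 1 / 2) :
    ‖DirichletCharacter.gammaFactor χ (1 / 2 - (x : ℂ) + (τ : ℂ) * I)‖ *
        ‖χ.LFunction (1 / 2 - (x : ℂ) + (τ : ℂ) * I)‖ =
      (r : ℝ) ^ x * (‖DirichletCharacter.gammaFactor χ (1 / 2 + (x : ℂ) + (τ : ℂ) * I)‖ *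
        ‖χ.LFunction (1 / 2 + (x : ℂ) + (τ : ℂ) * I)‖) := by
  have hr0 : (0 : ℝ) < r := by exact_mod_cast Nat.pos_of_ne_zero (NeZero.ne r)
  have hχ1 : χ ≠ 1 := by
    intro h
    have h1 : χ.conductor = r := hχ
    rw [h, DirichletCharacter.conductor_one] at h1
    omega
  -- the root number has modulus one
  have hw : ‖DirichletCharacter.rootNumber χ‖ = 1 := by
    have hL1 : χ.LFunction 1 ≠ 0 :=
      DirichletCharacter.LFunction_ne_zero_of_one_le_re _ (Or.inl hχ1) (by norm_num)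
    have hcont : Continuous χ.LFunction := (DirichletCharacter.differentiable_LFunction hχ1).continuous
    have hc2 : Continuous (fun x : ℝ => χ.LFunction (1 / 2 + (x : ℂ) + ((0 : ℝ) : ℂ) * I)) := by fun_prop
    have hne : χ.LFunction (1 / 2 + ((1 / 2 : ℝ) : ℂ) + ((0 : ℝ) : ℂ) * I) ≠ 0 := by
      have : (1 / 2 + ((1 / 2 : ℝ) : ℂ) + ((0 : ℝ) : ℂ) * I) = 1 := by push_cast; ring
      rw [this]; exact hL1
    have hev := hc2.continuousAt.eventually_ne hne
    rw [Metric.eventually_nhds_iff] at hev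
    obtain ⟨ε, hε, hev⟩ := hev
    set y : ℝ := 1 / 2 - min (ε / 2) (1 / 4) with hy
    have hm1 : 0 < min (ε / 2) (1 / 4 : ℝ) := by positivity
    have hm2 : min (ε / 2) (1 / 4 : ℝ) ≤ 1 / 4 := min_le_right _ _
    have hm3 : min (ε / 2) (1 / 4 : ℝ) ≤ ε / 2 := min_le_left _ _
    have hyL : χ.LFunction (1 / 2 + (y : ℂ) + ((0 : ℝ) : ℂ) * I) ≠ 0 := by
      apply hev
      rw [Real.dist_eq, hy]
      rw [show 1 / 2 - min (ε / 2) (1 / 4) - 1 / 2 = -(min (ε / 2) (1 / 4 : ℝ)) by ring, abs_neg, abs_of_pos hm1]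
      linarith
    have hyabs : |y| < 1 / 2 := by
      rw [abs_lt]; constructor <;> linarith
    have h1 := F1b_star r χ hχ1 hχ y 0 hyabs
    have h2 := F1b_star r χ hχ1 hχ (-y) 0 (by rw [abs_neg]; exact hyabs)
    have e1 : (1 / 2 - ((-y : ℝ) : ℂ) + ((0 : ℝ) : ℂ) * I) = 1 / 2 + (y : ℂ) + ((0 : ℝ) : ℂ) * I := by push_cast; ring
    have e2 : (1 / 2 + ((-y : ℝ) : ℂ) + ((0 : ℝ) : ℂ) * I) = 1 / 2 - (y : ℂ) + ((0 : ℝ) : ℂ) * I := by push_cast; ring
    rw [e1, e2, h1] at h2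
    have hre : 0 < (1 / 2 + (y : ℂ) + ((0 : ℝ) : ℂ) * I).re := by
      simp; linarith [(abs_lt.mp hyabs).1]
    have hApos : 0 < ‖DirichletCharacter.gammaFactor χ (1 / 2 + (y : ℂ) + ((0 : ℝ) : ℂ) * I)‖ *
        ‖χ.LFunction (1 / 2 + (y : ℂ) + ((0 : ℝ) : ℂ) * I)‖ :=
      mul_pos (norm_pos_iff.mpr (U5_gamma_ne χ hre)) (norm_pos_iff.mpr hyL)
    set A : ℝ := ‖DirichletCharacter.gammaFactor χ (1 / 2 + (y : ℂ) + ((0 : ℝ) : ℂ) * I)‖ *
        ‖χ.LFunction (1 / 2 + (y : ℂ) + ((0 : ℝ) : ℂ) * I)‖ with hA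
    set w : ℝ := ‖DirichletCharacter.rootNumber χ‖ with hwdef
    have hrr : (r : ℝ) ^ (-y) * (r : ℝ) ^ y = 1 := by
      rw [← Real.rpow_add hr0]; simp
    have h3 : A = w ^ 2 * A := by
      calc A = (r : ℝ) ^ (-y) * w * ((r : ℝ) ^ y * w * A) := h2
        _ = ((r : ℝ) ^ (-y) * (r : ℝ) ^ y) * w ^ 2 * A := by ring
        _ = w ^ 2 * A := by rw [hrr, one_mul]
    have h4 : w ^ 2 = 1 := by
      have h5 : (w ^ 2 - 1) * A = 0 := by linarith
      rcases mul_eq_zero.mp h5 with h6 | h6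
      · linarith
      · exact absurd h6 hApos.ne'
    have hw0 : 0 ≤ w := norm_nonneg _
    nlinarith
  have h := F1b_star r χ hχ1 hχ x τ hx
  rw [hw, mul_one] at h
  exact h

end Pool.Agent.SO
end

section

set_option autoImplicit false

namespace Pool.Agent.SO

open Complex

private theorem F3_kappa {r : ℕ} (χ : DirichletCharacter ℂ r) :
    ∃ κ : ℝ, (κ = 0 ∨ κ = 1) ∧ ∀ s : ℂ, DirichletCharacter.gammaFactor χ s = Gammaℝ (s + (κ : ℂ)) := by
  rcases χ.even_or_odd with h | h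
  · exact ⟨0, Or.inl rfl, fun s => by rw [h.gammaFactor_def]; simp⟩
  · exact ⟨1, Or.inr rfl, fun s => by rw [h.gammaFactor_def]; simp⟩

private theorem F3_pt (r : ℕ) (a t : ℝ) :
    pt r (-a) t = 1 / 2 - ((a / Real.log r : ℝ) : ℂ) + (t : ℂ) * I ∧
    pt r a t = 1 / 2 + ((a / Real.log r : ℝ) : ℂ) + (t : ℂ) * I := by
  unfold pt
  constructor
  · push_cast; ring
  · push_cast; ring

private theorem F3_rpow (r : ℕ) (hr : 2 ≤ r) (a : ℝ) : (r : ℝ) ^ (a / Real.log r) = Real.exp a := by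
  have h2 : (2 : ℝ) ≤ r := by exact_mod_cast hr
  have hL : 0 < Real.log r := Real.log_pos (by linarith)
  rw [Real.rpow_def_of_pos (by linarith), mul_div_cancel₀ _ hL.ne']

/-- F3. The `L`-function to the left of the critical line (uses F1, F2).

PROOF. `x = a / log r ∈ [0, 1/4]`, `r^x = exp a`. `gammaFactor χ s = Gammaℝ s` (even) or
`Gammaℝ (s + 1)` (odd) (`DirichletCharacter.Even.gammaFactor_def`, `Odd.gammaFactor_def`,
`DirichletCharacter.even_or_odd`). Divide `funct_norm` by `‖gammaFactor χ (1/2 - x + τ I)‖ > 0`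
(`Gammaℝ_ne_zero_of_re_pos`) and use `gamma_upper`. Note `pt r (-a) t = 1/2 - x + t I`. -/
theorem left_le : ∃ C : ℝ, 1 ≤ C ∧ ∀ (r : ℕ) [NeZero r], 2 ≤ r → ∀ χ : DirichletCharacter ℂ r,
    χ.IsPrimitive → ∀ a t : ℝ, 0 ≤ a → a ≤ Real.log r / 4 →
    ‖χ.LFunction (pt r (-a) t)‖ ≤
      C * Real.exp a * (1 + |t|) ^ (a / Real.log r) * ‖χ.LFunction (pt r a t)‖ := by
  obtain ⟨C, hC, h1⟩ := gamma_upper
  refine ⟨C, hC, ?_⟩
  intro r _ hr χ hχ a t ha haL
  have h2r : (2 : ℝ) ≤ r := by exact_mod_cast hr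
  have hL : 0 < Real.log r := Real.log_pos (by linarith)
  obtain ⟨x, hx⟩ : ∃ x, x = a / Real.log r := ⟨_, rfl⟩
  have hx0 : 0 ≤ x := by rw [hx]; positivity
  have hx1 : x ≤ 1 / 4 := by rw [hx, div_le_iff₀ hL]; linarith
  obtain ⟨κ, hκ, hg⟩ := F3_kappa χ
  have h3 := funct_norm r hr χ hχ x t (by rw [abs_of_nonneg hx0]; linarith)
  have h4 := h1 κ hκ x t hx0 hx1
  obtain ⟨e1, e2⟩ := F3_pt r a t
  rw [← hx] at e1 e2
  rw [e1, e2, ← hx, ← F3_rpow r hr a, ← hx]
  rw [hg, hg] at h3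
  have e3 : (1 / 2 - (x : ℂ) + (t : ℂ) * I) + (κ : ℂ) = 1 / 2 - (x : ℂ) + (κ : ℂ) + (t : ℂ) * I := by ring
  have e4 : (1 / 2 + (x : ℂ) + (t : ℂ) * I) + (κ : ℂ) = 1 / 2 + (x : ℂ) + (κ : ℂ) + (t : ℂ) * I := by ring
  rw [e3, e4] at h3
  have hG : 0 < ‖Gammaℝ (1 / 2 - (x : ℂ) + (κ : ℂ) + (t : ℂ) * I)‖ := by
    rw [norm_pos_iff]
    apply Gammaℝ_ne_zero_of_re_pos
    have hκ0 : 0 ≤ κ := by rcases hκ with h | h <;> rw [h] <;> norm_num
    simp
    linarith
  have hrx : 0 ≤ (r : ℝ) ^ x := by positivity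
  refine le_of_mul_le_mul_left ?_ hG
  rw [h3]
  calc (r : ℝ) ^ x * (‖Gammaℝ (1 / 2 + (x : ℂ) + (κ : ℂ) + (t : ℂ) * I)‖ * ‖χ.LFunction (1 / 2 + (x : ℂ) + (t : ℂ) * I)‖)
      ≤ (r : ℝ) ^ x * ((C * (1 + |t|) ^ x * ‖Gammaℝ (1 / 2 - (x : ℂ) + (κ : ℂ) + (t : ℂ) * I)‖) *
        ‖χ.LFunction (1 / 2 + (x : ℂ) + (t : ℂ) * I)‖) := by gcongr
    _ = _ := by ring

/-- F3'. Lower bound to the left (uses F1, F2).

PROOF. As F3 with `gamma_lower`: for `r ≥ r₀` we have `b / log r ≤ δ`, and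
`‖L(pt (-b) t)‖ = exp b * g(x,t) * ‖L(pt b t)‖ ≥ (7/10) exp b ‖L(pt b t)‖ ≥ exp (b/2) ‖L(pt b t)‖`
because `(7/10) exp (b/2) ≥ (7/10) exp (1/2) ≥ 1`. -/
theorem left_ge (b : ℝ) (hb : 1 ≤ b) : ∃ r₀ : ℕ, 2 ≤ r₀ ∧ ∀ (r : ℕ) [NeZero r], r₀ ≤ r →
    ∀ χ : DirichletCharacter ℂ r, χ.IsPrimitive → ∀ t : ℝ, |t| ≤ 1 →
    Real.exp (b / 2) * ‖χ.LFunction (pt r b t)‖ ≤ ‖χ.LFunction (pt r (-b) t)‖ := by
  obtain ⟨δ, hδ, hδ4, h1⟩ := gamma_lower
  obtain ⟨r₂, hr₂⟩ : ∃ r₂ : ℕ, ∀ r : ℕ, r₂ ≤ r → b / δ ≤ Real.log r := by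
    have h3 := (Real.tendsto_log_atTop.comp tendsto_natCast_atTop_atTop).eventually_ge_atTop (b / δ)
    exact Filter.eventually_atTop.mp h3
  refine ⟨max 2 r₂, le_max_left _ _, ?_⟩
  intro r _ hr χ hχ t ht
  have hr2 : 2 ≤ r := le_trans (le_max_left _ _) hr
  have hbL := hr₂ r (le_trans (le_max_right _ _) hr)
  have h2r : (2 : ℝ) ≤ r := by exact_mod_cast hr2
  have hL : 0 < Real.log r := Real.log_pos (by linarith)
  obtain ⟨x, hx⟩ : ∃ x, x = b / Real.log r := ⟨_, rfl⟩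
  have hx0 : 0 ≤ x := by rw [hx]; positivity
  have hxδ : x ≤ δ := by
    rw [hx, div_le_iff₀ hL]
    rw [div_le_iff₀ hδ] at hbL
    linarith
  obtain ⟨κ, hκ, hg⟩ := F3_kappa χ
  have h3 := funct_norm r hr2 χ hχ x t (by rw [abs_of_nonneg hx0]; linarith)
  have h4 := h1 κ hκ x t hx0 hxδ ht
  obtain ⟨e1, e2⟩ := F3_pt r b t
  rw [← hx] at e1 e2
  rw [e1, e2]
  rw [hg, hg] at h3
  have e3 : (1 / 2 - (x : ℂ) + (t : ℂ) * I) + (κ : ℂ) = 1 / 2 - (x : ℂ) + (κ : ℂ) + (t : ℂ) * I := by ring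
  have e4 : (1 / 2 + (x : ℂ) + (t : ℂ) * I) + (κ : ℂ) = 1 / 2 + (x : ℂ) + (κ : ℂ) + (t : ℂ) * I := by ring
  rw [e3, e4] at h3
  have hrx : (r : ℝ) ^ x = Real.exp b := by rw [hx]; exact F3_rpow r hr2 b
  rw [hrx] at h3
  have hG : 0 < ‖Gammaℝ (1 / 2 - (x : ℂ) + (κ : ℂ) + (t : ℂ) * I)‖ := by
    rw [norm_pos_iff]
    apply Gammaℝ_ne_zero_of_re_pos
    have hκ0 : 0 ≤ κ := by rcases hκ with h | h <;> rw [h] <;> norm_num
    simp
    linarith
  refine le_of_mul_le_mul_left ?_ hG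
  rw [h3]
  have h5 : Real.exp (b / 2) ≤ Real.exp b * (7 / 10) := by
    have h6 : Real.exp b = Real.exp (b / 2) * Real.exp (b / 2) := by rw [← Real.exp_add]; ring_nf
    have h7 : b / 2 + 1 ≤ Real.exp (b / 2) := Real.add_one_le_exp _
    rw [h6]
    nlinarith [Real.exp_pos (b / 2)]
  calc ‖Gammaℝ (1 / 2 - (x : ℂ) + (κ : ℂ) + (t : ℂ) * I)‖ * (Real.exp (b / 2) * ‖χ.LFunction (1 / 2 + (x : ℂ) + (t : ℂ) * I)‖)
      ≤ ‖Gammaℝ (1 / 2 - (x : ℂ) + (κ : ℂ) + (t : ℂ) * I)‖ * (Real.exp b * (7 / 10) * ‖χ.LFunction (1 / 2 + (x : ℂ) + (t : ℂ) * I)‖) := by gcongr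
    _ = Real.exp b * ((7 / 10 * ‖Gammaℝ (1 / 2 - (x : ℂ) + (κ : ℂ) + (t : ℂ) * I)‖) * ‖χ.LFunction (1 / 2 + (x : ℂ) + (t : ℂ) * I)‖) := by ring
    _ ≤ _ := by gcongr

end Pool.Agent.SO
end

section

set_option autoImplicit false

namespace Pool.Agent.SO

open Finset Complex MeasureTheory
open scoped ContDiff

lemma MoR_re (r : ℕ) (c u : ℝ) : (pt r (-c) u).re = 1 / 2 - c / Real.log r ∧ (pt r (-c) u).im = u := by
  unfold pt
  constructor
  · have : (((-c : ℝ) : ℂ) / ((Real.log r : ℝ) : ℂ)) = ((-c / Real.log r : ℝ) : ℂ) := by push_cast; rfl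
    rw [this]
    simp only [add_re, ofReal_re, mul_re, I_re, mul_zero, ofReal_im, I_im, zero_mul, sub_self, add_zero]
    norm_num
    ring
  · have : (((-c : ℝ) : ℂ) / ((Real.log r : ℝ) : ℂ)) = ((-c / Real.log r : ℝ) : ℂ) := by push_cast; rfl
    rw [this]
    simp only [add_im, ofReal_im, mul_im, I_re, mul_zero, ofReal_re, I_im, mul_one, zero_add, add_zero]
    norm_num

/-- MoR (reflected values). -/
lemma reflected : ∃ C : ℝ, 1 ≤ C ∧ ∀ (r : ℕ) [NeZero r], 2 ≤ r → ∀ χ : DirichletCharacter ℂ r, χ ≠ 1 →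
    χ.IsPrimitive → ∀ (c u : ℝ) (m : ℂ), 0 ≤ c → c ≤ Real.log r / 8 → ‖m‖ ≤ (r : ℝ) ^ (1 / 8 : ℝ) →
    ‖χ.LFunction (pt r (-c) u) * m‖ ^ 2
      ≤ C * Real.exp (17 / 8 * c) * ‖χ.LFunction (pt r c u) * m‖ ^ 2 + C * (1 + |u|) ^ 40 := by
  obtain ⟨C₀, hC₀, hleft⟩ := left_le
  refine ⟨2 * C₀ ^ 2 + 40000, by nlinarith, ?_⟩
  intro r _ hr χ hχ hp c u m hc hc8 hm
  have hr1 : (1 : ℝ) < r := by exact_mod_cast (by omega : 1 < r)
  have hr0 : (0 : ℝ) < r := by linarith
  have hl : 0 < Real.log r := Real.log_pos hr1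
  have hu : 0 ≤ |u| := abs_nonneg u
  rcases le_or_gt |u| ((r : ℝ) ^ (1 / 16 : ℝ)) with h | h
  · have h1 := hleft r hr χ hp c u hc (by linarith)
    have hx : 0 ≤ c / Real.log r := div_nonneg hc hl.le
    have hx8 : c / Real.log r ≤ 1 / 8 := by rw [div_le_iff₀ hl]; linarith
    have hr16 : (1 : ℝ) ≤ (r : ℝ) ^ (1 / 16 : ℝ) := Real.one_le_rpow hr1.le (by norm_num)
    have h2 : ((1 + |u|) ^ (c / Real.log r)) ^ 2 ≤ 2 * Real.exp (c / 8) := by
      have h3 : (1 + |u|) ^ (c / Real.log r) ≤ (2 * (r : ℝ) ^ (1 / 16 : ℝ)) ^ (c / Real.log r) :=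
        Real.rpow_le_rpow (by linarith) (by linarith) hx
      have h4 : (2 * (r : ℝ) ^ (1 / 16 : ℝ)) ^ (c / Real.log r) = 2 ^ (c / Real.log r) * Real.exp (c / 16) := by
        rw [Real.mul_rpow (by norm_num) (by linarith), ← Real.rpow_mul hr0.le]
        congr 1
        rw [Real.rpow_def_of_pos hr0]
        congr 1
        field_simp
      have h5 : (2 : ℝ) ^ (c / Real.log r) ≤ 2 ^ (1 / 2 : ℝ) :=
        Real.rpow_le_rpow_of_exponent_le (by norm_num) (by linarith)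
      have h6 : ((2 : ℝ) ^ (1 / 2 : ℝ)) ^ 2 = 2 := by
        rw [← Real.rpow_natCast, ← Real.rpow_mul (by norm_num)]
        norm_num
      have h7 : (0 : ℝ) ≤ (1 + |u|) ^ (c / Real.log r) := by positivity
      calc ((1 + |u|) ^ (c / Real.log r)) ^ 2 ≤ (2 ^ (1 / 2 : ℝ) * Real.exp (c / 16)) ^ 2 := by
            refine pow_le_pow_left₀ h7 (h3.trans ?_) 2
            rw [h4]; gcongr
        _ = 2 * Real.exp (c / 8) := by
            rw [mul_pow, h6, ← Real.exp_nat_mul]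
            congr 2
            push_cast
            ring
    have h8 : ‖χ.LFunction (pt r (-c) u)‖ ^ 2 ≤ C₀ ^ 2 * Real.exp c ^ 2 * (2 * Real.exp (c / 8)) *
        ‖χ.LFunction (pt r c u)‖ ^ 2 := by
      calc ‖χ.LFunction (pt r (-c) u)‖ ^ 2 ≤
          (C₀ * Real.exp c * (1 + |u|) ^ (c / Real.log r) * ‖χ.LFunction (pt r c u)‖) ^ 2 := by gcongr
        _ = C₀ ^ 2 * Real.exp c ^ 2 * ((1 + |u|) ^ (c / Real.log r)) ^ 2 * ‖χ.LFunction (pt r c u)‖ ^ 2 := by ring
        _ ≤ _ := by gcongr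
    have h9 : Real.exp c ^ 2 * Real.exp (c / 8) = Real.exp (17 / 8 * c) := by
      rw [← Real.exp_nat_mul, ← Real.exp_add]
      congr 1
      push_cast
      ring
    have h10 : 0 ≤ (2 * C₀ ^ 2 + 40000) * (1 + |u|) ^ 40 := by positivity
    calc ‖χ.LFunction (pt r (-c) u) * m‖ ^ 2 = ‖χ.LFunction (pt r (-c) u)‖ ^ 2 * ‖m‖ ^ 2 := by
          rw [norm_mul, mul_pow]
      _ ≤ (C₀ ^ 2 * Real.exp c ^ 2 * (2 * Real.exp (c / 8)) * ‖χ.LFunction (pt r c u)‖ ^ 2) * ‖m‖ ^ 2 := by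
          gcongr
      _ = 2 * C₀ ^ 2 * (Real.exp c ^ 2 * Real.exp (c / 8)) * ‖χ.LFunction (pt r c u) * m‖ ^ 2 := by
          rw [norm_mul, mul_pow]; ring
      _ = 2 * C₀ ^ 2 * Real.exp (17 / 8 * c) * ‖χ.LFunction (pt r c u) * m‖ ^ 2 := by rw [h9]
      _ ≤ (2 * C₀ ^ 2 + 40000) * Real.exp (17 / 8 * c) * ‖χ.LFunction (pt r c u) * m‖ ^ 2 := by
          gcongr
          linarith
      _ ≤ _ := by linarith
  · obtain ⟨hre, him⟩ := MoR_re r c u
    have hx8 : c / Real.log r ≤ 1 / 8 := by rw [div_le_iff₀ hl]; linarith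
    have hx : 0 ≤ c / Real.log r := div_nonneg hc hl.le
    have h1 := (trivial_bounds r hr χ hχ).1 (pt r (-c) u) (by rw [hre]; linarith) (by rw [hre]; linarith)
    rw [him] at h1
    have hr16 : (r : ℝ) ≤ |u| ^ 16 := by
      calc (r : ℝ) = ((r : ℝ) ^ (1 / 16 : ℝ)) ^ 16 := by
            rw [← Real.rpow_natCast, ← Real.rpow_mul hr0.le]
            norm_num
        _ ≤ |u| ^ 16 := by gcongr
    have hr8 : (r : ℝ) ^ (1 / 8 : ℝ) ≤ |u| ^ 2 := by
      calc (r : ℝ) ^ (1 / 8 : ℝ) = ((r : ℝ) ^ (1 / 16 : ℝ)) ^ 2 := by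
            rw [← Real.rpow_natCast, ← Real.rpow_mul hr0.le]
            norm_num
        _ ≤ |u| ^ 2 := by gcongr
    have h2 : ‖χ.LFunction (pt r (-c) u) * m‖ ≤ 200 * (1 + |u|) ^ 19 := by
      rw [norm_mul]
      calc ‖χ.LFunction (pt r (-c) u)‖ * ‖m‖ ≤ (200 * r * (1 + |u|)) * (|u| ^ 2) := by
            refine mul_le_mul h1 (hm.trans hr8) (norm_nonneg _) (by positivity)
        _ ≤ (200 * (1 + |u|) ^ 16 * (1 + |u|)) * ((1 + |u|) ^ 2) := by
            gcongr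
            · refine hr16.trans ?_
              gcongr
              linarith
            · linarith
        _ = _ := by ring
    have h3 : ‖χ.LFunction (pt r (-c) u) * m‖ ^ 2 ≤ 40000 * (1 + |u|) ^ 38 := by
      calc ‖χ.LFunction (pt r (-c) u) * m‖ ^ 2 ≤ (200 * (1 + |u|) ^ 19) ^ 2 := by gcongr
        _ = _ := by ring
    have h4 : (1 + |u|) ^ 38 ≤ (1 + |u|) ^ 40 := pow_le_pow_right₀ (by linarith) (by norm_num)
    have h5 : 0 ≤ (2 * C₀ ^ 2 + 40000) * Real.exp (17 / 8 * c) * ‖χ.LFunction (pt r c u) * m‖ ^ 2 := by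
      positivity
    have h6 : 40000 * (1 + |u|) ^ 38 ≤ (2 * C₀ ^ 2 + 40000) * (1 + |u|) ^ 40 := by
      refine mul_le_mul (by nlinarith [sq_nonneg C₀]) h4 (by positivity) (by positivity)
    linarith

end Pool.Agent.SO
end

section

set_option autoImplicit false

namespace Pool.Agent.SO

open Complex Metric Set

/-- L1. Minimum modulus on a circle, uniformly in `f`.

PROOF. Rescale: `lam = (R - b) * 20 / 39 > 0` and `h w = f (b + lam * w)`. `h` is analytic on a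
neighbourhood of `closedBall 0 (39/20)` (there `‖b + lam w‖ ≤ b + (R - b) = R`), `‖h‖ ≤ K ≤ exp T`,
`‖h 0‖ ≥ 1/2 ≥ exp (-T)` with `T = log (2 K) + 1 ≥ 1` (depends on `K` only).
`Pool.Agent.EM.factor_zeros` (centre `0`, radii `7/4 < 39/20`) gives
`h w = (∏ j, (w - ρ j)) * g w` on the big disc, `ρ j ∈ closedBall 0 (7/4)`, `g ≠ 0` on
`closedBall 0 (7/4)`; `Pool.Agent.EM.count_bound` gives `n ≤ 20 T` and `‖g w‖ ≤ exp (60 T) ‖g 0‖`
on the big disc. `MC.logDeriv_bound` (file An1; used exactly like this near line 329 of EMZeros.lean) gives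
`‖deriv g w / g w‖ ≤ 5600 * 60 T =: L` for `‖w‖ ≤ 17/10`, hence `‖g w‖ ≥ exp (- L * ‖w‖) * ‖g 0‖`
for `‖w‖ < 17/10` (`lower_of_logDeriv`, file L0), and `‖g 0‖ ≥ ‖h 0‖ / (7/4)^n ≥ (1/2) / (7/4)^n`.
So `‖g w‖ ≥ g0 := exp (- 2 L) * (1/2) * (7/4)^(-20 T)` for `‖w‖ ≤ 17/10`.
Points `z` with `‖z‖ ≤ R/2` correspond to `w = (z - b)/lam` with
`‖w‖ ≤ (R/2 + b)/lam ≤ (5 R/8) * 39/(20 * 7 R/8) = 39/28 < 17/10`.
The zeros in the `z` coordinate are `z_j = b + lam ρ_j`;
`f z = (∏ j, (z - z_j)/lam) * g ((z - b)/lam)`. `Pool.Agent.EM.radius_choice` with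
`J = univ`, `t j = ‖z_j‖`, `ρ = R/4` gives a radius `r ∈ [R/4, R/2]` with
`(R/4 * exp (-2))^n ≤ ∏ |‖z_j‖ - r|`, and `|‖z_j‖ - r| ≤ ‖z - z_j‖` for `‖z‖ = r`. Hence on
`‖z‖ = r`: `‖f z‖ ≥ (R exp (-2) / (4 lam))^n * g0`. Since `lam ≤ R`, the base is
`≥ exp (-2)/4 =: β < 1`, so this is `≥ β^(20 T) * g0` (real exponent; `n ≤ 20 T`). Take
`m = β^(20 T) * g0 > 0`, which depends on `K` only. (If `R - b > 0` is used: `8 b ≤ R`.) -/
theorem min_modulus (b R K : ℝ) (hb : 0 ≤ b) (hR : 0 < R) (hbR : 8 * b ≤ R) (hK : 1 ≤ K) :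
    ∃ m : ℝ, 0 < m ∧ ∀ f : ℂ → ℂ, AnalyticOnNhd ℂ f (closedBall (0 : ℂ) R) →
      (∀ z ∈ closedBall (0 : ℂ) R, ‖f z‖ ≤ K) → 1 / 2 ≤ ‖f (b : ℂ)‖ →
      ∃ ρ ∈ Icc (R / 4) (R / 2), ∀ z : ℂ, ‖z‖ = ρ → m ≤ ‖f z‖ := by
  -- constants
  set T : ℝ := Real.log (2 * K) + 1 with hT
  have hlog : 0 ≤ Real.log (2 * K) := Real.log_nonneg (by linarith)
  have hT1 : 1 ≤ T := by rw [hT]; linarith
  have hexpT : Real.exp T = 2 * K * Real.exp 1 := by
    rw [hT, Real.exp_add, Real.exp_log (by linarith)]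
  have he1 : (1 : ℝ) ≤ Real.exp 1 := Real.one_le_exp zero_le_one
  have hKT : K ≤ Real.exp T := by rw [hexpT]; nlinarith
  have hTK : Real.exp (-T) ≤ 1 / 2 := by
    rw [Real.exp_neg, hexpT, inv_eq_one_div]
    exact one_div_le_one_div_of_le two_pos (by nlinarith)
  set L : ℝ := 5600 * (60 * T) with hL
  have hL0 : 0 ≤ L := by rw [hL]; positivity
  set g0 : ℝ := Real.exp (-(L * 2)) * (1 / 2 * ((7 / 4 : ℝ) ^ (20 * T))⁻¹) with hg0def
  have hg0pos : 0 < g0 := by rw [hg0def]; positivity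
  set β : ℝ := Real.exp (-2) / 4 with hβ
  have hβ0 : 0 < β := by rw [hβ]; positivity
  have hβ1 : β ≤ 1 := by
    rw [hβ]
    have : Real.exp (-2) ≤ 1 := Real.exp_le_one_iff.2 (by norm_num)
    linarith
  refine ⟨β ^ (20 * T) * g0, by positivity, fun f hf hfK hfb => ?_⟩
  set lam : ℝ := (R - b) * (20 / 39) with hlam
  have hRb : 7 * R / 8 ≤ R - b := by linarith
  have hlam0 : 0 < lam := by rw [hlam]; nlinarith
  have hlamR : lam ≤ R := by rw [hlam]; nlinarith
  have hmaps : ∀ w ∈ closedBall (0 : ℂ) (39 / 20), (b : ℂ) + lam * w ∈ closedBall (0 : ℂ) R := by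
    intro w hw
    rw [mem_closedBall_zero_iff] at hw ⊢
    calc ‖(b : ℂ) + lam * w‖ ≤ ‖(b : ℂ)‖ + ‖(lam : ℂ) * w‖ := norm_add_le _ _
      _ = b + lam * ‖w‖ := by
        rw [norm_mul, Complex.norm_real, Complex.norm_real, Real.norm_of_nonneg hb,
          Real.norm_of_nonneg hlam0.le]
      _ ≤ b + lam * (39 / 20) := by
        have := mul_le_mul_of_nonneg_left hw hlam0.le
        linarith
      _ = R := by rw [hlam]; ring
  set h : ℂ → ℂ := fun w => f ((b : ℂ) + lam * w) with hh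
  have hhan : AnalyticOnNhd ℂ h (closedBall (0 : ℂ) (39 / 20)) := by
    intro w hw
    have h1 : AnalyticAt ℂ (fun w : ℂ => (b : ℂ) + lam * w) w := by fun_prop
    exact AnalyticAt.fun_comp (g := f) (f := fun w : ℂ => (b : ℂ) + lam * w) (hf _ (hmaps w hw)) h1
  have hh0 : h 0 = f (b : ℂ) := by simp [hh]
  have hhne : h 0 ≠ 0 := by
    rw [hh0]
    intro h0
    rw [h0, norm_zero] at hfb
    norm_num at hfb
  obtain ⟨n, ρ, g, hg, hfg, hρ, hgne⟩ := Pool.Agent.EM.factor_zeros h 0 (7 / 4) (39 / 20)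
    (by norm_num) (by norm_num) hhan hhne
  obtain ⟨hn, hgb⟩ := Pool.Agent.EM.count_bound n h g ρ 0 T (by linarith) hg hfg hρ
    (fun z hz => (hfK _ (hmaps z hz)).trans hKT) (by rw [hh0]; exact hTK.trans hfb)
  have hsub : ball (0 : ℂ) (7 / 4) ⊆ closedBall (0 : ℂ) (39 / 20) :=
    ball_subset_closedBall.trans (closedBall_subset_closedBall (by norm_num))
  have hld : ∀ w ∈ ball (0 : ℂ) (17 / 10), ‖deriv g w / g w‖ ≤ L := by
    intro w hw
    have h1 := Pool.Agent.MC.logDeriv_bound g 0 (7 / 4) (60 * T) (1 / 20) (by positivity)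
      (by norm_num) (by norm_num) (hg.differentiableOn.mono hsub)
      (fun z hz => hgne z (ball_subset_closedBall hz)) (fun z hz => hgb z (hsub hz)) w
      (by
        rw [mem_ball] at hw
        linarith)
    refine h1.trans (le_of_eq ?_)
    rw [hL]
    ring
  have hlow := lower_of_logDeriv g (17 / 10) L hL0
    (hg.differentiableOn.mono ((ball_subset_ball (by norm_num)).trans hsub))
    (fun z hz => hgne z (ball_subset_closedBall (ball_subset_ball (by norm_num) hz))) hld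
  have hn' : (n : ℝ) ≤ 20 * T := hn
  -- lower bound for g 0
  have hg00 : 1 / 2 * ((7 / 4 : ℝ) ^ (20 * T))⁻¹ ≤ ‖g 0‖ := by
    have e1 := hfg 0 (mem_closedBall_self (by norm_num))
    have e2 : 1 / 2 ≤ (∏ j, ‖(0 : ℂ) - ρ j‖) * ‖g 0‖ := by
      rw [← norm_prod, ← norm_mul, ← e1, hh0]
      exact hfb
    have e3 : (∏ j, ‖(0 : ℂ) - ρ j‖) ≤ (7 / 4 : ℝ) ^ n := by
      have := Finset.prod_le_prod (s := Finset.univ) (f := fun j => ‖(0 : ℂ) - ρ j‖)
        (g := fun _ : Fin n => (7 / 4 : ℝ)) (fun j _ => norm_nonneg _) (fun j _ => by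
          have := hρ j
          rw [mem_closedBall, dist_eq_norm] at this
          rwa [norm_sub_rev] at this)
      rwa [Finset.prod_const, Finset.card_univ, Fintype.card_fin] at this
    have e4 : (7 / 4 : ℝ) ^ n ≤ (7 / 4 : ℝ) ^ (20 * T) := by
      rw [← Real.rpow_natCast]
      exact Real.rpow_le_rpow_of_exponent_le (by norm_num) hn'
    have e5 : 1 / 2 ≤ (7 / 4 : ℝ) ^ (20 * T) * ‖g 0‖ :=
      e2.trans (mul_le_mul_of_nonneg_right (e3.trans e4) (norm_nonneg _))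
    have hp : 0 < (7 / 4 : ℝ) ^ (20 * T) := by positivity
    rw [← div_eq_mul_inv, div_le_iff₀ hp, mul_comm]
    exact e5
  have hgw : ∀ w ∈ ball (0 : ℂ) (17 / 10), g0 ≤ ‖g w‖ := by
    intro w hw
    refine le_trans ?_ (hlow w hw)
    rw [hg0def]
    refine mul_le_mul ?_ hg00 (by positivity) (Real.exp_pos _).le
    refine Real.exp_le_exp.2 (neg_le_neg ?_)
    refine mul_le_mul_of_nonneg_left ?_ hL0
    rw [mem_ball_zero_iff] at hw
    linarith
  -- choice of the radius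
  obtain ⟨r, hr1, hr2, hr3⟩ := Pool.Agent.EM.radius_choice Finset.univ
    (fun j => ‖(b : ℂ) + lam * ρ j‖) (R / 4) (by linarith)
  refine ⟨r, ⟨hr1, by linarith⟩, fun z hz => ?_⟩
  set w : ℂ := (z - b) / lam with hw
  have hlamC : (lam : ℂ) ≠ 0 := by exact_mod_cast hlam0.ne'
  have hzw : (b : ℂ) + lam * w = z := by
    rw [hw]
    field_simp
    ring
  have hwball : w ∈ ball (0 : ℂ) (17 / 10) := by
    rw [mem_ball_zero_iff, hw, norm_div, Complex.norm_real, Real.norm_of_nonneg hlam0.le,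
      div_lt_iff₀ hlam0]
    have : ‖z - (b : ℂ)‖ ≤ r + b := by
      refine (norm_sub_le _ _).trans ?_
      rw [hz, Complex.norm_real, Real.norm_of_nonneg hb]
    rw [hlam]
    linarith
  have hfz : f z = (∏ j, (w - ρ j)) * g w := by
    have := hfg w (ball_subset_closedBall (ball_subset_ball (by norm_num) hwball))
    rw [← this, hh]
    change f z = f ((b : ℂ) + lam * w)
    rw [hzw]
  have hprod : β ^ (20 * T) ≤ ∏ j, ‖w - ρ j‖ := by
    have p1 : ∀ j, |‖(b : ℂ) + lam * ρ j‖ - r| ≤ lam * ‖w - ρ j‖ := by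
      intro j
      have q1 : z - ((b : ℂ) + lam * ρ j) = lam * (w - ρ j) := by
        conv_lhs => rw [← hzw]
        ring
      have q2 := abs_norm_sub_norm_le ((b : ℂ) + lam * ρ j) z
      rw [hz, norm_sub_rev, q1, norm_mul, Complex.norm_real, Real.norm_of_nonneg hlam0.le] at q2
      exact q2
    have p2 : (R / 4 * Real.exp (-2)) ^ n ≤ lam ^ n * ∏ j, ‖w - ρ j‖ := by
      rw [Finset.card_univ, Fintype.card_fin] at hr3
      refine hr3.trans ?_
      have := Finset.prod_le_prod (s := Finset.univ)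
        (f := fun j => |‖(b : ℂ) + lam * ρ j‖ - r|) (g := fun j => lam * ‖w - ρ j‖)
        (fun j _ => abs_nonneg _) (fun j _ => p1 j)
      refine this.trans (le_of_eq ?_)
      rw [Finset.prod_mul_distrib, Finset.prod_const, Finset.card_univ, Fintype.card_fin]
    have p3 : lam ^ n * β ^ n ≤ (R / 4 * Real.exp (-2)) ^ n := by
      rw [← mul_pow]
      refine pow_le_pow_left₀ (by positivity) ?_ n
      rw [hβ]
      have := mul_le_mul_of_nonneg_right hlamR (Real.exp_pos (-2)).le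
      linarith
    have p4 : β ^ n ≤ ∏ j, ‖w - ρ j‖ :=
      le_of_mul_le_mul_left (p3.trans p2) (by positivity)
    refine le_trans ?_ p4
    rw [← Real.rpow_natCast]
    exact Real.rpow_le_rpow_of_exponent_ge hβ0 hβ1 hn'
  rw [hfz, norm_mul, norm_prod]
  exact mul_le_mul hprod (hgw w hwball) hg0pos.le (Finset.prod_nonneg fun j _ => norm_nonneg _)

end Pool.Agent.SO
end
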