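import Mathlib
import Pool.Agent.Lib.MP_9cfc0a_nt.SO.Defs

section

set_option autoImplicit false

namespace Pool.Agent.SO

open Finset

lemma MoC1_mem_prim (r : ℕ) [NeZero r] (χ : DirichletCharacter ℂ r) :
    χ ∈ prim r ↔ χ.IsPrimitive := by
  unfold prim
  simp

lemma MoC1_val {r d : ℕ} (hrd : r ∣ d) (ψ : DirichletCharacter ℂ r) (k : ℕ) (hk : Nat.Coprime k d) :
    (DirichletCharacter.changeLevel hrd ψ) (k : ZMod d) = ψ (k : ZMod r) := by
  have h1 := DirichletCharacter.changeLevel_eq_cast_of_dvd' ψ hrd (a := (k : ℤ))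
    (Nat.isCoprime_iff_coprime.2 hk)
  simpa using h1

lemma MoC1_fiber (d : ℕ) [NeZero d] (k l : ℕ) (hk : Nat.Coprime k d) (hl : Nat.Coprime l d)
    (r : ℕ) [NeZero r] (hrd : r ∣ d) :
    ∑ χ ∈ (Finset.univ : Finset (DirichletCharacter ℂ d)).filter (fun χ => χ.conductor = r),
      χ (k : ZMod d) * (starRingEnd ℂ) (χ (l : ZMod d)) =
    ∑ χ ∈ prim r, χ (k : ZMod r) * (starRingEnd ℂ) (χ (l : ZMod r)) := by
  symm
  apply Finset.sum_bij (fun ψ _ => DirichletCharacter.changeLevel hrd ψ)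
  · intro ψ hψ
    rw [Finset.mem_filter]
    refine ⟨Finset.mem_univ _, ?_⟩
    rw [DirichletCharacter.conductor_changeLevel]
    exact (MoC1_mem_prim r ψ).1 hψ
  · intro ψ _ ψ' _ h
    exact DirichletCharacter.changeLevel_injective hrd h
  · intro χ hχ
    have hc := (Finset.mem_filter.1 hχ).2
    have hf := χ.factorsThrough_conductor
    rw [hc] at hf
    obtain ⟨h1, χ0, h2⟩ := hf
    refine ⟨χ0, ?_, h2.symm⟩
    rw [MoC1_mem_prim, DirichletCharacter.isPrimitive_def,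
      ← DirichletCharacter.conductor_changeLevel χ0 h1, ← h2, hc]
  · intro ψ _
    rw [MoC1_val hrd ψ k hk, MoC1_val hrd ψ l hl]

/-- MoC1 (grouping by conductor). For `k`, `l` coprime to `d ≥ 1`:
`∑_{r ∣ d} ∑_{χ primitive mod r} χ(k) conj χ(l) = φ(d) [k ≡ l mod d]`.
PROOF. Right side: orthogonality `∑_{χ mod d} χ(k) conj χ(l) = φ(d) [k ≡ l]`
(`DirichletCharacter.sum_char_inv_mul_char_eq`, `star (χ l) = χ l⁻¹`, see `X1_star` in `EMChars.lean`). Every `χ mod d` is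
`changeLevel` of its primitive character (conductor `r ∣ d`: `DirichletCharacter.changeLevel_primitiveCharacter`,
`primitiveCharacter_isPrimitive`) and conversely each primitive `ψ mod r`, `r ∣ d`, gives `χ = changeLevel ψ` of
conductor `r` (`changeLevel_injective`); for `k` coprime to `d` `χ(k) = ψ(k)` (`changeLevel_eq_cast_of_dvd`).
So it is a bijection: sum over `univ` fiberwise over the conductor `∈ d.divisors` (`Finset.sum_fiberwise_of_maps_to`). -/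
lemma sum_prim_divisors (d : ℕ) [NeZero d] (k l : ℕ) (hk : Nat.Coprime k d) (hl : Nat.Coprime l d) :
    ∑ r ∈ d.divisors, (if h : r ≠ 0 then
        (haveI : NeZero r := ⟨h⟩; ∑ χ ∈ prim r, χ (k : ZMod r) * (starRingEnd ℂ) (χ (l : ZMod r))) else 0)
      = if (k : ZMod d) = (l : ZMod d) then (Nat.totient d : ℂ) else 0 := by
  classical
  have h1 : ∑ r ∈ d.divisors, (if h : r ≠ 0 then
        (haveI : NeZero r := ⟨h⟩; ∑ χ ∈ prim r, χ (k : ZMod r) * (starRingEnd ℂ) (χ (l : ZMod r))) else 0)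
      = ∑ r ∈ d.divisors, ∑ χ ∈ (Finset.univ : Finset (DirichletCharacter ℂ d)).filter
          (fun χ => χ.conductor = r), χ (k : ZMod d) * (starRingEnd ℂ) (χ (l : ZMod d)) := by
    apply Finset.sum_congr rfl
    intro r hr
    have hrd := Nat.dvd_of_mem_divisors hr
    have hr0 : r ≠ 0 := (Nat.pos_of_mem_divisors hr).ne'
    rw [dif_pos hr0]
    haveI : NeZero r := ⟨hr0⟩
    exact (MoC1_fiber d k l hk hl r hrd).symm
  rw [h1, Finset.sum_fiberwise_of_maps_to]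
  · have hlu : IsUnit (l : ZMod d) := (ZMod.isUnit_iff_coprime l d).2 hl
    have h2 := DirichletCharacter.sum_char_inv_mul_char_eq ℂ hlu (k : ZMod d)
    have h3 : ((l : ZMod d) = (k : ZMod d)) ↔ ((k : ZMod d) = (l : ZMod d)) := eq_comm
    rw [if_congr h3 rfl rfl] at h2
    rw [← h2]
    apply Finset.sum_congr rfl
    intro χ _
    rw [mul_comm]
    congr 1
    have h4 : χ (l : ZMod d) * χ (l : ZMod d)⁻¹ = 1 := by
      rw [← map_mul, ZMod.coe_mul_inv_eq_one l hl, map_one]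
    have h5 : ‖χ (l : ZMod d)‖ = 1 := by
      have := DirichletCharacter.unit_norm_eq_one χ hlu.unit
      simpa using this
    rw [← Complex.inv_eq_conj h5]
    exact (eq_inv_of_mul_eq_one_right h4).symm
  · intro χ _
    exact Nat.mem_divisors.2 ⟨χ.conductor_dvd_level, NeZero.ne d⟩

end Pool.Agent.SO
end

section

set_option autoImplicit false

namespace Pool.Agent.SO

open Finset

/-- MoC3. `∑_{d ∣ q} #prim(d) = φ(q)`.
PROOF. MoC1 with `k = l = 1`: `χ(1) conj χ(1) = 1`. -/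
lemma card_prim_sum (q : ℕ) [NeZero q] :
    ∑ r ∈ q.divisors, (if h : r ≠ 0 then (haveI : NeZero r := ⟨h⟩; ((prim r).card : ℝ)) else 0)
      = (Nat.totient q : ℝ) := by
  classical
  have h1 := sum_prim_divisors q 1 1 (Nat.coprime_one_left q) (Nat.coprime_one_left q)
  rw [if_pos rfl] at h1
  have h2 : ∀ r : ℕ, (if h : r ≠ 0 then (haveI : NeZero r := ⟨h⟩;
      ∑ χ ∈ prim r, χ ((1 : ℕ) : ZMod r) * (starRingEnd ℂ) (χ ((1 : ℕ) : ZMod r))) else 0) =
      (((if h : r ≠ 0 then (haveI : NeZero r := ⟨h⟩; ((prim r).card : ℝ)) else 0 : ℝ)) : ℂ) := by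
    intro r
    by_cases h : r ≠ 0
    · rw [dif_pos h, dif_pos h]
      have : NeZero r := ⟨h⟩
      have h3 : ∀ χ ∈ prim r, χ ((1 : ℕ) : ZMod r) * (starRingEnd ℂ) (χ ((1 : ℕ) : ZMod r)) = 1 := by
        intro χ _
        rw [Nat.cast_one, map_one, map_one, mul_one]
      rw [Finset.sum_congr rfl h3]
      simp
    · rw [dif_neg h, dif_neg h]
      simp
  have h4 : ((∑ r ∈ q.divisors, (if h : r ≠ 0 then
      (haveI : NeZero r := ⟨h⟩; ((prim r).card : ℝ)) else 0) : ℝ) : ℂ) =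
      ((Nat.totient q : ℝ) : ℂ) := by
    rw [Complex.ofReal_sum, Complex.ofReal_natCast, ← h1]
    exact Finset.sum_congr rfl fun r _ => (h2 r).symm
  exact Complex.ofReal_injective h4

end Pool.Agent.SO
end

section

set_option autoImplicit false

namespace Pool.Agent.SO

open Finset Complex MeasureTheory
open scoped ContDiff

lemma MoB4_stp_contDiff (a b : ℝ) : ContDiff ℝ ∞ (stp a b) := by
  have e : stp a b = fun x => Real.smoothTransition ((b - x) / (b - a)) := by ext x; rfl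
  rw [e]
  have h1 : ContDiff ℝ ∞ (fun x : ℝ => (b - x) / (b - a)) := by fun_prop
  exact Real.smoothTransition.contDiff.comp h1

lemma MoB4_stp_zero (a b x : ℝ) (hab : a < b) (hx : b ≤ x) : stp a b x = 0 := by
  unfold stp
  apply Real.smoothTransition.zero_of_nonpos
  exact div_nonpos_of_nonpos_of_nonneg (by linarith) (by linarith)

/-- MoB4 (the three smooth weights). -/
lemma weights : (∃ P : ℝ → ℝ, ContDiff ℝ ∞ P ∧ (∀ x, x < -(1 / 16) → P x = 0) ∧ (∀ x, 1 < x → P x = 0) ∧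
      ∀ x, 0 ≤ x → P x = stp (1 / 16) (1 / 8) x) ∧
    (∃ V : ℝ → ℝ, ContDiff ℝ ∞ V ∧ (∀ x, x < -(1 / 16) → V x = 0) ∧ (∀ x, 1 < x → V x = 0) ∧
      ∀ x, 0 ≤ x → V x = gc x) ∧
    (∃ V : ℝ → ℝ, ContDiff ℝ ∞ V ∧ (∀ x, x < -(1 / 16) → V x = 0) ∧ (∀ x, 1 < x → V x = 0) ∧
      ∀ x, 0 ≤ x → V x = x * gc x) := by
  have hcc : ContDiff ℝ ∞ (fun x : ℝ => Real.smoothTransition (1 + 16 * x)) := by
    have h1 : ContDiff ℝ ∞ (fun x : ℝ => 1 + 16 * x) := by fun_prop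
    exact Real.smoothTransition.contDiff.comp h1
  have hc0 : ∀ x : ℝ, x < -(1 / 16) → Real.smoothTransition (1 + 16 * x) = 0 := fun x hx =>
    Real.smoothTransition.zero_of_nonpos (by linarith)
  have hc1 : ∀ x : ℝ, 0 ≤ x → Real.smoothTransition (1 + 16 * x) = 1 := fun x hx =>
    Real.smoothTransition.one_of_one_le (by linarith)
  have hgc : ContDiff ℝ ∞ gc := MoB4_stp_contDiff (5 / 8) (3 / 4)
  have hgz : ∀ x : ℝ, 1 < x → gc x = 0 := fun x hx => by
    unfold gc; exact MoB4_stp_zero _ _ _ (by norm_num) (by linarith)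
  refine ⟨⟨fun x => Real.smoothTransition (1 + 16 * x) * stp (1 / 16) (1 / 8) x, ?_, ?_, ?_, ?_⟩,
    ⟨fun x => Real.smoothTransition (1 + 16 * x) * gc x, ?_, ?_, ?_, ?_⟩,
    ⟨fun x => Real.smoothTransition (1 + 16 * x) * (x * gc x), ?_, ?_, ?_, ?_⟩⟩
  · exact hcc.mul (MoB4_stp_contDiff _ _)
  · intro x hx; simp only [hc0 x hx, zero_mul]
  · intro x hx; simp only [MoB4_stp_zero (1 / 16) (1 / 8) x (by norm_num) (by linarith), mul_zero]
  · intro x hx; simp only [hc1 x hx, one_mul]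
  · exact hcc.mul hgc
  · intro x hx; simp only [hc0 x hx, zero_mul]
  · intro x hx; simp only [hgz x hx, mul_zero]
  · intro x hx; simp only [hc1 x hx, one_mul]
  · exact hcc.mul (contDiff_id.mul hgc)
  · intro x hx; simp only [hc0 x hx, zero_mul]
  · intro x hx; simp only [hgz x hx, mul_zero]
  · intro x hx; simp only [hc1 x hx, one_mul]

end Pool.Agent.SO
end

section

set_option autoImplicit false

namespace Pool.Agent.SO

open Finset

/-- MoC2 (Moebius inversion).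
PROOF. Let `F(r)` be the inner sum of MoC1 and `G(e) = φ(e) [k ≡ l mod e]`. For every `e ∣ d` MoC1 (level `e`; `k`, `l` are
coprime to `e`) says `∑_{r ∣ e} F(r) = G(e)`. Moebius inversion on the divisors of `d`
(`ArithmeticFunction.sum_eq_iff_sum_smul_moebius_eq_on` or `..._mul_..._on` with the set of divisors of `d`) gives
`F(d) = ∑_{a e = d} μ(a) G(e)`. -/
lemma sum_prim (d : ℕ) [NeZero d] (k l : ℕ) (hk : Nat.Coprime k d) (hl : Nat.Coprime l d) :
    ∑ χ ∈ prim d, χ (k : ZMod d) * (starRingEnd ℂ) (χ (l : ZMod d))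
      = ∑ r ∈ d.divisors, (ArithmeticFunction.moebius (d / r) : ℂ) *
          (if (k : ZMod r) = (l : ZMod r) then (Nat.totient r : ℂ) else 0) := by
  classical
  set F : ℕ → ℂ := fun r => if h : r ≠ 0 then
    (haveI : NeZero r := ⟨h⟩; ∑ χ ∈ prim r, χ (k : ZMod r) * (starRingEnd ℂ) (χ (l : ZMod r)))
      else 0 with hF
  set G : ℕ → ℂ := fun e => if (k : ZMod e) = (l : ZMod e) then (Nat.totient e : ℂ) else 0 with hG
  have hd : d ≠ 0 := NeZero.ne d
  have h1 : ∀ n > 0, n ∈ {e : ℕ | e ∣ d} → (∑ i ∈ n.divisors, F i) = G n := by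
    intro n hn hnd
    have : NeZero n := ⟨by omega⟩
    have hnd' : n ∣ d := hnd
    exact sum_prim_divisors n k l (Nat.Coprime.coprime_dvd_right hnd' hk)
      (Nat.Coprime.coprime_dvd_right hnd' hl)
  have h2 := (ArithmeticFunction.sum_eq_iff_sum_mul_moebius_eq_on (f := F) (g := G)
    {e : ℕ | e ∣ d} (fun m n hmn hn => dvd_trans hmn hn)).1 h1 d (Nat.pos_of_ne_zero hd)
    (dvd_refl d)
  have h3 : F d = ∑ χ ∈ prim d, χ (k : ZMod d) * (starRingEnd ℂ) (χ (l : ZMod d)) := by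
    simp only [hF, dif_pos hd]
  rw [← h3, ← h2]
  exact Nat.sum_divisorsAntidiagonal' (f := fun x y => (ArithmeticFunction.moebius x : ℂ) * G y)

end Pool.Agent.SO
end

section

set_option autoImplicit false

namespace Pool.Agent.SO

open Finset

lemma MoC4_count (r N k : ℕ) (hr : 0 < r) (hk : k ∈ Icc 1 N) :
    (r : ℝ) * (((Icc 1 N).filter (fun l => ¬ k = l ∧ (k : ZMod r) = (l : ZMod r))).card : ℝ) ≤ N := by
  have hI : Icc 1 N = Ioc 0 N := by
    ext x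
    simp only [mem_Icc, mem_Ioc]
    omega
  have h1 : (Icc 1 N).filter (fun l => ¬ k = l ∧ (k : ZMod r) = (l : ZMod r)) =
      ((Ioc 0 N).filter (fun l => l ≡ k [MOD r])).erase k := by
    ext x
    rw [hI, mem_filter, mem_erase, mem_filter, ← ZMod.natCast_eq_natCast_iff]
    constructor
    · rintro ⟨h1, h2, h3⟩
      exact ⟨fun h => h2 h.symm, h1, h3.symm⟩
    · rintro ⟨h1, h2, h3⟩
      exact ⟨h2, fun h => h1 h.symm, h3.symm⟩
  have h2 : k ∈ (Ioc 0 N).filter (fun l => l ≡ k [MOD r]) := by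
    rw [mem_filter, ← hI]
    exact ⟨hk, Nat.ModEq.refl _⟩
  have h3 := Nat.Ioc_filter_modEq_card 0 N hr k
  have hrq : (0 : ℚ) < r := by exact_mod_cast hr
  have hkq : (0 : ℚ) < k := by
    have := (mem_Icc.1 hk).1
    exact_mod_cast this
  have h4 : (⌊((N : ℚ) - k) / (r : ℚ)⌋ : ℚ) ≤ (N - k) / r := Int.floor_le _
  have h5 : (((0 : ℕ) : ℚ) - k) / (r : ℚ) < ⌊(((0 : ℕ) : ℚ) - k) / (r : ℚ)⌋ + 1 :=
    Int.lt_floor_add_one _
  have h6 : (((((Ioc 0 N).filter (fun l => l ≡ k [MOD r])).card : ℤ)) : ℚ) ≤ N / r + 1 := by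
    rw [h3]
    push_cast at h5 ⊢
    rw [sup_le_iff]
    constructor
    · have e : ((N : ℚ) - k) / r = N / r - k / r := sub_div _ _ _
      have e2 : ((0 : ℚ) - k) / r = - (k / r) := by rw [zero_sub, neg_div]
      have h4' : (⌊((N : ℚ) - k) / (r : ℚ)⌋ : ℚ) ≤ N / r - k / r := by rw [← e]; exact h4
      have h5' : -((k : ℚ) / r) < ⌊((0 : ℚ) - k) / (r : ℚ)⌋ + 1 := by rw [← e2]; exact h5
      linarith
    · positivity
  rw [h1, card_erase_of_mem h2]
  have h7 : 1 ≤ ((Ioc 0 N).filter (fun l => l ≡ k [MOD r])).card := card_pos.2 ⟨k, h2⟩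
  have h8 : ((((Ioc 0 N).filter (fun l => l ≡ k [MOD r])).card - 1 : ℕ) : ℚ) ≤ N / r := by
    push_cast [Nat.cast_sub h7]
    push_cast at h6
    linarith
  have h9 : (r : ℚ) * ((((Ioc 0 N).filter (fun l => l ≡ k [MOD r])).card - 1 : ℕ) : ℚ) ≤ N := by
    rw [le_div_iff₀ hrq] at h8
    linarith
  exact_mod_cast h9

/-- bound for the off-diagonal coefficients -/
lemma MoC4_off (d : ℕ) [NeZero d] (k l : ℕ) (hk : Nat.Coprime k d) (hl : Nat.Coprime l d) :
    ‖∑ χ ∈ prim d, χ (k : ZMod d) * (starRingEnd ℂ) (χ (l : ZMod d))‖ ≤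
      ∑ r ∈ d.divisors, (if (k : ZMod r) = (l : ZMod r) then (r : ℝ) else 0) := by
  rw [sum_prim d k l hk hl]
  refine (norm_sum_le _ _).trans (sum_le_sum fun r _ => ?_)
  rw [norm_mul]
  have h1 : ‖((ArithmeticFunction.moebius (d / r) : ℤ) : ℂ)‖ ≤ 1 := by
    rw [Complex.norm_intCast]
    exact_mod_cast ArithmeticFunction.abs_moebius_le_one
  split_ifs with h
  · rw [Complex.norm_natCast]
    calc ‖((ArithmeticFunction.moebius (d / r) : ℤ) : ℂ)‖ * (Nat.totient r : ℝ) ≤ 1 * r :=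
          mul_le_mul h1 (by exact_mod_cast Nat.totient_le r) (by positivity) (by norm_num)
      _ = r := one_mul _
  · rw [norm_zero, mul_zero]

/-- MoC4 (mean square of a polynomial).
PROOF. Expand the square; terms with `k` or `l` not coprime to `d` vanish; for the others `sum_prim`. Diagonal:
`∑_χ |χ(k)|² ≤ #prim`. Off the diagonal: `≤ ∑_{r ∣ d} φ(r) ∑_{k ≠ l, k ≡ l mod r} |x_k||x_l|` and
`|x_k||x_l| ≤ (|x_k|² + |x_l|²)/2`; for fixed `k` the number of `l ≤ N`, `l ≠ k`, `l ≡ k mod r` is `≤ N/r`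
(if `N < r` none; in general the `l ≥ 1`, `l ≤ N` in a class number at most `⌈N/r⌉` and `k` is one of them), and
`φ(r) ≤ r`. So it is `≤ ∑_{r ∣ d} N ∑ |x_k|²`. -/
lemma prim_sq (d : ℕ) [NeZero d] (x : ℕ → ℂ) (N : ℕ) :
    ∑ χ ∈ prim d, ‖∑ k ∈ Icc 1 N, x k * χ (k : ZMod d)‖ ^ 2
      ≤ (((prim d).card : ℝ) + (d.divisors.card : ℝ) * N) * ∑ k ∈ Icc 1 N, ‖x k‖ ^ 2 := by
  set P : ℝ := ((prim d).card : ℝ) with hP
  -- the symmetric kernel
  set B : ℕ → ℕ → ℝ := fun k l => if k = l then P else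
    ∑ r ∈ d.divisors, (if (k : ZMod r) = (l : ZMod r) then (r : ℝ) else 0) with hB
  have hB0 : ∀ k l, 0 ≤ B k l := by
    intro k l
    rw [hB]
    dsimp only
    split_ifs
    · positivity
    · exact sum_nonneg fun r _ => by split_ifs <;> positivity
  have hBs : ∀ k l, B k l = B l k := by
    intro k l
    rw [hB]
    dsimp only
    by_cases h : k = l
    · rw [if_pos h, if_pos h.symm]
    · rw [if_neg h, if_neg (fun h' => h h'.symm)]
      refine sum_congr rfl fun r _ => ?_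
      by_cases h2 : (k : ZMod r) = (l : ZMod r)
      · rw [if_pos h2, if_pos h2.symm]
      · rw [if_neg h2, if_neg (fun h' => h2 h'.symm)]
  -- the complex kernel
  have hkey : ∀ k l, ‖x k * (starRingEnd ℂ) (x l) *
      ∑ χ ∈ prim d, χ (k : ZMod d) * (starRingEnd ℂ) (χ (l : ZMod d))‖ ≤ ‖x k‖ * ‖x l‖ * B k l := by
    intro k l
    rw [norm_mul, norm_mul, RCLike.norm_conj]
    refine mul_le_mul_of_nonneg_left ?_ (by positivity)
    by_cases hk : Nat.Coprime k d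
    · by_cases hl : Nat.Coprime l d
      · rw [hB]
        dsimp only
        split_ifs with h
        · refine (norm_sum_le _ _).trans ?_
          have h9 : ∑ χ ∈ prim d, ‖χ (k : ZMod d) * (starRingEnd ℂ) (χ (l : ZMod d))‖ ≤
              (prim d).card • (1 : ℝ) := by
            refine sum_le_card_nsmul _ _ _ fun χ _ => ?_
            rw [norm_mul, RCLike.norm_conj]
            exact mul_le_one₀ (DirichletCharacter.norm_le_one χ _) (norm_nonneg _)
              (DirichletCharacter.norm_le_one χ _)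
          rw [nsmul_one] at h9
          exact h9
        · exact MoC4_off d k l hk hl
      · have h0 : ∀ χ ∈ prim d, χ (k : ZMod d) * (starRingEnd ℂ) (χ (l : ZMod d)) = 0 := by
          intro χ _
          rw [χ.map_nonunit (fun h => hl ((ZMod.isUnit_iff_coprime l d).1 h)), map_zero, mul_zero]
        rw [sum_eq_zero h0, norm_zero]
        exact hB0 k l
    · have h0 : ∀ χ ∈ prim d, χ (k : ZMod d) * (starRingEnd ℂ) (χ (l : ZMod d)) = 0 := by
        intro χ _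
        rw [χ.map_nonunit (fun h => hk ((ZMod.isUnit_iff_coprime k d).1 h)), zero_mul]
      rw [sum_eq_zero h0, norm_zero]
      exact hB0 k l
  -- expansion of the square
  have hexp : ((∑ χ ∈ prim d, ‖∑ k ∈ Icc 1 N, x k * χ (k : ZMod d)‖ ^ 2 : ℝ) : ℂ) =
      ∑ k ∈ Icc 1 N, ∑ l ∈ Icc 1 N, x k * (starRingEnd ℂ) (x l) *
        ∑ χ ∈ prim d, χ (k : ZMod d) * (starRingEnd ℂ) (χ (l : ZMod d)) := by
    have h1 : ∀ χ : DirichletCharacter ℂ d, ((‖∑ k ∈ Icc 1 N, x k * χ (k : ZMod d)‖ ^ 2 : ℝ) : ℂ) =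
        ∑ k ∈ Icc 1 N, ∑ l ∈ Icc 1 N, x k * (starRingEnd ℂ) (x l) *
          (χ (k : ZMod d) * (starRingEnd ℂ) (χ (l : ZMod d))) := by
      intro χ
      push_cast
      rw [← Complex.mul_conj', map_sum, sum_mul_sum]
      refine sum_congr rfl fun k _ => sum_congr rfl fun l _ => ?_
      rw [map_mul]
      ring
    push_cast
    push_cast at h1
    rw [sum_congr rfl fun χ _ => h1 χ, sum_comm]
    refine sum_congr rfl fun k _ => ?_
    rw [sum_comm]
    refine sum_congr rfl fun l _ => ?_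
    rw [mul_sum]
  have hle : ∑ χ ∈ prim d, ‖∑ k ∈ Icc 1 N, x k * χ (k : ZMod d)‖ ^ 2 ≤
      ∑ k ∈ Icc 1 N, ∑ l ∈ Icc 1 N, ‖x k‖ * ‖x l‖ * B k l := by
    have h2 : ‖((∑ χ ∈ prim d, ‖∑ k ∈ Icc 1 N, x k * χ (k : ZMod d)‖ ^ 2 : ℝ) : ℂ)‖ =
        ∑ χ ∈ prim d, ‖∑ k ∈ Icc 1 N, x k * χ (k : ZMod d)‖ ^ 2 := by
      rw [Complex.norm_real, Real.norm_of_nonneg (sum_nonneg fun _ _ => by positivity)]
    rw [← h2, hexp]
    refine (norm_sum_le _ _).trans (sum_le_sum fun k _ => ?_)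
    exact (norm_sum_le _ _).trans (sum_le_sum fun l _ => hkey k l)
  have hrow : ∀ k ∈ Icc 1 N, ∑ l ∈ Icc 1 N, B k l ≤ P + (d.divisors.card : ℝ) * N := by
    intro k hk
    rw [← add_sum_erase _ _ hk]
    have h1 : B k k = P := by rw [hB]; dsimp only; rw [if_pos rfl]
    rw [h1]
    have h2 : ∀ l ∈ (Icc 1 N).erase k, B k l =
        ∑ r ∈ d.divisors, (if (k : ZMod r) = (l : ZMod r) then (r : ℝ) else 0) := by
      intro l hl
      rw [hB]
      dsimp only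
      rw [if_neg (fun h => (mem_erase.1 hl).1 h.symm)]
    rw [sum_congr rfl h2, sum_comm]
    have h3 : ∀ r ∈ d.divisors, ∑ l ∈ (Icc 1 N).erase k,
        (if (k : ZMod r) = (l : ZMod r) then (r : ℝ) else 0) ≤ N := by
      intro r hr
      have hr0 : 0 < r := Nat.pos_of_mem_divisors hr
      rw [← sum_filter, sum_const, nsmul_eq_mul, mul_comm]
      have h4 : ((Icc 1 N).erase k).filter (fun l : ℕ => (k : ZMod r) = (l : ZMod r)) =
          (Icc 1 N).filter (fun l : ℕ => ¬ k = l ∧ (k : ZMod r) = (l : ZMod r)) := by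
        ext l
        simp only [mem_filter, mem_erase]
        constructor
        · rintro ⟨⟨h1, h2⟩, h3⟩
          exact ⟨h2, fun h => h1 h.symm, h3⟩
        · rintro ⟨h1, h2, h3⟩
          exact ⟨⟨fun h => h2 h.symm, h1⟩, h3⟩
      rw [h4]
      exact MoC4_count r N k hr0 hk
    have h5 := sum_le_card_nsmul _ _ (N : ℝ) h3
    rw [nsmul_eq_mul] at h5
    linarith
  have hsym : ∑ k ∈ Icc 1 N, ∑ l ∈ Icc 1 N, ‖x k‖ * ‖x l‖ * B k l ≤
      ∑ k ∈ Icc 1 N, ‖x k‖ ^ 2 * ∑ l ∈ Icc 1 N, B k l := by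
    have h1 : ∀ k l, ‖x k‖ * ‖x l‖ * B k l ≤ 1 / 2 * (‖x k‖ ^ 2 * B k l) +
        1 / 2 * (‖x l‖ ^ 2 * B k l) := by
      intro k l
      have := hB0 k l
      nlinarith [mul_nonneg (hB0 k l) (sq_nonneg (‖x k‖ - ‖x l‖))]
    have h2 : ∑ k ∈ Icc 1 N, ∑ l ∈ Icc 1 N, (‖x l‖ ^ 2 * B k l) =
        ∑ k ∈ Icc 1 N, ∑ l ∈ Icc 1 N, (‖x k‖ ^ 2 * B k l) := by
      rw [sum_comm]
      exact sum_congr rfl fun k _ => sum_congr rfl fun l _ => by rw [hBs l k]
    calc ∑ k ∈ Icc 1 N, ∑ l ∈ Icc 1 N, ‖x k‖ * ‖x l‖ * B k l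
        ≤ ∑ k ∈ Icc 1 N, ∑ l ∈ Icc 1 N, (1 / 2 * (‖x k‖ ^ 2 * B k l) +
          1 / 2 * (‖x l‖ ^ 2 * B k l)) := sum_le_sum fun k _ => sum_le_sum fun l _ => h1 k l
      _ = 1 / 2 * ∑ k ∈ Icc 1 N, ∑ l ∈ Icc 1 N, (‖x k‖ ^ 2 * B k l) +
          1 / 2 * ∑ k ∈ Icc 1 N, ∑ l ∈ Icc 1 N, (‖x l‖ ^ 2 * B k l) := by
          simp only [sum_add_distrib, ← mul_sum]
      _ = ∑ k ∈ Icc 1 N, ∑ l ∈ Icc 1 N, (‖x k‖ ^ 2 * B k l) := by rw [h2]; ring
      _ = _ := sum_congr rfl fun k _ => by rw [mul_sum]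
  calc ∑ χ ∈ prim d, ‖∑ k ∈ Icc 1 N, x k * χ (k : ZMod d)‖ ^ 2
      ≤ ∑ k ∈ Icc 1 N, ‖x k‖ ^ 2 * ∑ l ∈ Icc 1 N, B k l := hle.trans hsym
    _ ≤ ∑ k ∈ Icc 1 N, ‖x k‖ ^ 2 * (P + (d.divisors.card : ℝ) * N) :=
        sum_le_sum fun k hk => mul_le_mul_of_nonneg_left (hrow k hk) (by positivity)
    _ = _ := by rw [← sum_mul]; ring

end Pool.Agent.SO
end

section

set_option autoImplicit false

namespace Pool.Agent.SO

open Finset Complex MeasureTheory
open scoped ContDiff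

lemma MoG1_core (P V : ℝ → ℝ) (hP : ∀ x, 1 / 8 ≤ x → P x = 0) (hV : ∀ x, 3 / 4 ≤ x → V x = 0)
    (r : ℕ) [NeZero r] (hr : 2 ≤ r) (χ : DirichletCharacter ℂ r) (a b t t0 : ℝ) :
    (∑ m ∈ Icc 1 r, (V (Real.log m / Real.log r) : ℂ) * χ m * (m : ℂ) ^ (-(pt r a t))) *
      (∑ d ∈ Icc 1 r, (ArithmeticFunction.moebius d : ℂ) * (P (Real.log d / Real.log r) : ℂ) *
        χ d * (d : ℂ) ^ (-(pt r b t0))) = ∑ n ∈ Icc 1 ⌊(r : ℝ) ^ (7 / 8 : ℝ)⌋₊,
      (((n : ℂ) ^ (-(1 / 2 : ℂ))) * aco P V (Real.log r) a b t t0 n) * χ (n : ZMod r) := by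
  have hr1 : (1 : ℝ) < r := by exact_mod_cast (by omega : 1 < r)
  have hr0 : (0 : ℝ) < r := by linarith
  have hl : 0 < Real.log r := Real.log_pos hr1
  set l := Real.log r with hldef
  set N := ⌊(r : ℝ) ^ (7 / 8 : ℝ)⌋₊ with hN
  have hNr : N ≤ r := by
    have h1 : (r : ℝ) ^ (7 / 8 : ℝ) ≤ (r : ℝ) ^ (1 : ℝ) :=
      Real.rpow_le_rpow_of_exponent_le hr1.le (by norm_num)
    rw [Real.rpow_one] at h1
    have h2 : N ≤ ⌊(r : ℝ)⌋₊ := Nat.floor_le_floor h1
    rwa [Nat.floor_natCast] at h2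
  set F : ℕ × ℕ → ℂ := fun p =>
    ((V (Real.log p.2 / l) : ℂ) * χ p.2 * (p.2 : ℂ) ^ (-(pt r a t))) *
      ((ArithmeticFunction.moebius p.1 : ℂ) * (P (Real.log p.1 / l) : ℂ) *
        χ p.1 * (p.1 : ℂ) ^ (-(pt r b t0))) with hF
  -- the left side
  have hL : (∑ m ∈ Icc 1 r, (V (Real.log m / l) : ℂ) * χ m * (m : ℂ) ^ (-(pt r a t))) *
      (∑ d ∈ Icc 1 r, (ArithmeticFunction.moebius d : ℂ) * (P (Real.log d / l) : ℂ) *
        χ d * (d : ℂ) ^ (-(pt r b t0))) = ∑ p ∈ Icc 1 r ×ˢ Icc 1 r, F p := by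
    rw [sum_mul_sum, sum_comm, ← sum_product']
  rw [hL]
  -- truncation
  set T := (Icc 1 r ×ˢ Icc 1 r).filter (fun p => p.1 * p.2 ∈ Icc 1 N) with hT
  have hvan : ∀ p ∈ Icc 1 r ×ˢ Icc 1 r, p ∉ T → F p = 0 := by
    intro p hp hpT
    rw [mem_product, mem_Icc, mem_Icc] at hp
    have hnot : ¬ p.1 * p.2 ≤ N := by
      intro hle
      apply hpT
      rw [hT, mem_filter, mem_product, mem_Icc, mem_Icc, mem_Icc]
      exact ⟨hp, Nat.mul_pos hp.1.1 hp.2.1, hle⟩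
    by_cases h1 : 1 / 8 ≤ Real.log p.1 / l
    · simp only [hF]
      rw [hP _ h1]
      simp
    · by_cases h2 : 3 / 4 ≤ Real.log p.2 / l
      · simp only [hF]
        rw [hV _ h2]
        simp
      · exfalso
        push Not at h1 h2
        apply hnot
        rw [hN]
        apply Nat.le_floor
        rw [div_lt_iff₀ hl] at h1 h2
        have hp1 : (0 : ℝ) < p.1 := by exact_mod_cast hp.1.1
        have hp2 : (0 : ℝ) < p.2 := by exact_mod_cast hp.2.1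
        have h3 : Real.log ((p.1 : ℝ) * p.2) ≤ 7 / 8 * l := by
          rw [Real.log_mul hp1.ne' hp2.ne']
          linarith
        have h4 := Real.exp_le_exp.mpr h3
        rw [Real.exp_log (by positivity)] at h4
        rw [Real.rpow_def_of_pos hr0, mul_comm (Real.log (r : ℝ))]
        push_cast
        exact h4
  rw [← sum_subset (filter_subset _ _) hvan]
  -- fibres
  rw [← sum_fiberwise_of_maps_to (g := fun p : ℕ × ℕ => p.1 * p.2) (t := Icc 1 N)
    (fun p hp => (mem_filter.1 hp).2)]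
  refine sum_congr rfl (fun n hn => ?_)
  rw [mem_Icc] at hn
  have hfib : T.filter (fun p => p.1 * p.2 = n) = n.divisorsAntidiagonal := by
    ext p
    rw [mem_filter, hT, mem_filter, mem_product, Nat.mem_divisorsAntidiagonal, mem_Icc, mem_Icc,
      mem_Icc]
    constructor
    · rintro ⟨_, h2⟩
      exact ⟨h2, by omega⟩
    · rintro ⟨h1, h2⟩
      have hp1 : p.1 ≠ 0 := by
        rintro h0
        rw [h0, zero_mul] at h1
        omega
      have hp2 : p.2 ≠ 0 := by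
        rintro h0
        rw [h0, mul_zero] at h1
        omega
      have h3 : p.1 ≤ n := Nat.le_of_dvd (by omega) ⟨p.2, h1.symm⟩
      have h4 : p.2 ≤ n := Nat.le_of_dvd (by omega) ⟨p.1, by rw [mul_comm]; exact h1.symm⟩
      refine ⟨⟨⟨⟨by omega, by omega⟩, ⟨by omega, by omega⟩⟩, ?_⟩, h1⟩
      omega
  rw [hfib, aco, mul_sum, sum_mul,
    ← Nat.sum_divisorsAntidiagonal (fun d m => (n : ℂ) ^ (-(1 / 2 : ℂ)) *
      ((ArithmeticFunction.moebius d : ℂ) * (P (Real.log d / l) : ℂ) *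
        (V (Real.log m / l) : ℂ) * (d : ℂ) ^ (-((b / l : ℝ) + (t0 : ℂ) * I)) *
        (m : ℂ) ^ (-((a / l : ℝ) + (t : ℂ) * I))) * χ (n : ZMod r))]
  refine sum_congr rfl (fun p hp => ?_)
  rw [Nat.mem_divisorsAntidiagonal] at hp
  have hp1 : p.1 ≠ 0 := by
    rintro h0
    rw [h0, zero_mul] at hp
    exact hp.2 hp.1.symm
  have hp2 : p.2 ≠ 0 := by
    rintro h0
    rw [h0, mul_zero] at hp
    exact hp.2 hp.1.symm
  have hc1 : (p.1 : ℂ) ≠ 0 := by exact_mod_cast hp1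
  have hc2 : (p.2 : ℂ) ≠ 0 := by exact_mod_cast hp2
  have e1 : (n : ℂ) ^ (-(1 / 2 : ℂ)) = (p.1 : ℂ) ^ (-(1 / 2 : ℂ)) * (p.2 : ℂ) ^ (-(1 / 2 : ℂ)) := by
    rw [← hp.1]
    push_cast
    rw [Complex.natCast_mul_natCast_cpow]
  have e2 : χ (n : ZMod r) = χ (p.1 : ZMod r) * χ (p.2 : ZMod r) := by
    rw [← hp.1]
    push_cast
    rw [map_mul]
  have e3 : (p.2 : ℂ) ^ (-(pt r a t)) = (p.2 : ℂ) ^ (-(1 / 2 : ℂ)) *
      (p.2 : ℂ) ^ (-((a / l : ℝ) + (t : ℂ) * I)) := by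
    rw [← Complex.cpow_add _ _ hc2]
    congr 1
    unfold pt
    rw [Complex.ofReal_div, hldef]
    ring
  have e4 : (p.1 : ℂ) ^ (-(pt r b t0)) = (p.1 : ℂ) ^ (-(1 / 2 : ℂ)) *
      (p.1 : ℂ) ^ (-((b / l : ℝ) + (t0 : ℂ) * I)) := by
    rw [← Complex.cpow_add _ _ hc1]
    congr 1
    unfold pt
    rw [Complex.ofReal_div, hldef]
    ring
  simp only [hF]
  rw [e1, e2, e3, e4]
  ring

lemma MoG1_stp_zero {a b x : ℝ} (hab : a < b) (hx : b ≤ x) : stp a b x = 0 := by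
  unfold stp
  apply Real.smoothTransition.zero_of_nonpos
  exact div_nonpos_of_nonpos_of_nonneg (by linarith) (by linarith)

/-- MoG1 (the product as a polynomial).
PROOF. `pt r a t = 1/2 + a/l + it`, `l = log r`. Expand: `∑_{m,d ≤ r} gc(log m/l) stp(log d/l) μ(d) χ(md) m^{-pt a t} d^{-pt b t0}`.
Non-zero terms have `log m < 3l/4`, `log d < l/8`, so `n = m d < r^{7/8}`; group by `n = m d`, `d ∣ n`, `m = n/d`:
`m^{-1/2} d^{-1/2} = n^{-1/2}`, and the rest is the term of `aco`; `P`, `V` are evaluated at arguments `≥ 0`.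
Conversely for `n ≤ r^{7/8} ≤ r` every `d ∣ n` and `n/d` are in `Icc 1 r`. -/
lemma product (P V : ℝ → ℝ) (hP : ∀ x, 0 ≤ x → P x = stp (1 / 16) (1 / 8) x) (hV : ∀ x, 0 ≤ x → V x = gc x)
    (r : ℕ) [NeZero r] (hr : 2 ≤ r) (χ : DirichletCharacter ℂ r) (a b t t0 : ℝ) :
    DD r χ (pt r a t) * MM r χ (pt r b t0) = ∑ n ∈ Icc 1 ⌊(r : ℝ) ^ (7 / 8 : ℝ)⌋₊,
      (((n : ℂ) ^ (-(1 / 2 : ℂ))) * aco P V (Real.log r) a b t t0 n) * χ (n : ZMod r) := by
  have hr1 : (1 : ℝ) < r := by exact_mod_cast (by omega : 1 < r)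
  have hl : 0 < Real.log r := Real.log_pos hr1
  have hnn : ∀ m : ℕ, 0 ≤ Real.log m / Real.log r := fun m =>
    div_nonneg (Real.log_natCast_nonneg m) hl.le
  rw [← MoG1_core P V ?_ ?_ r hr χ a b t t0]
  · unfold DD MM
    congr 1
    · refine sum_congr rfl (fun m _ => ?_)
      rw [hV _ (hnn m)]
    · refine sum_congr rfl (fun m _ => ?_)
      rw [hP _ (hnn m)]
  · intro x hx
    rw [hP x (by linarith)]
    exact MoG1_stp_zero (by norm_num) hx
  · intro x hx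
    rw [hV x (by linarith)]
    exact MoG1_stp_zero (by norm_num) hx

end Pool.Agent.SO
end

section

set_option autoImplicit false

namespace Pool.Agent.SO

open Finset Complex MeasureTheory
open scoped ContDiff

lemma MoI2_stp (a b x : ℝ) (hab : a < b) (hx : x ≤ a) : stp a b x = 1 := by
  unfold stp
  apply Real.smoothTransition.one_of_one_le
  rw [le_div_iff₀ (by linarith)]
  linarith

lemma MoI2_log (l : ℝ) (hl : 0 < l) (n : ℕ) (hn : 1 ≤ n) (h : Real.log n ≤ l / 16) (d : ℕ) (hd : d ∣ n) :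
    0 ≤ Real.log d / l ∧ Real.log d / l ≤ 1 / 16 := by
  have hd0 : 0 < d := Nat.pos_of_dvd_of_pos hd (by omega)
  have h1 : (1 : ℝ) ≤ d := by exact_mod_cast hd0
  have h2 : Real.log d ≤ Real.log n := Real.log_le_log (by positivity) (by exact_mod_cast Nat.le_of_dvd (by omega) hd)
  constructor
  · exact div_nonneg (Real.log_nonneg h1) hl.le
  · rw [div_le_iff₀ hl]; linarith

/-- MoI2. Small `n`, `V = gc`. -/
lemma aco_small_one (P V : ℝ → ℝ) (hP : ∀ x, 0 ≤ x → P x = stp (1 / 16) (1 / 8) x) (hV : ∀ x, 0 ≤ x → V x = gc x)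
    (l : ℝ) (hl : 0 < l) (n : ℕ) (hn : 1 ≤ n) (h : Real.log n ≤ l / 16) :
    aco P V l 0 0 0 0 n = if n = 1 then 1 else 0 := by
  have e1 : aco P V l 0 0 0 0 n = ∑ d ∈ n.divisors, ((ArithmeticFunction.moebius d : ℤ) : ℂ) := by
    unfold aco
    refine Finset.sum_congr rfl ?_
    intro d hd
    have hdn := Nat.dvd_of_mem_divisors hd
    obtain ⟨h1, h2⟩ := MoI2_log l hl n hn h d hdn
    obtain ⟨h3, h4⟩ := MoI2_log l hl n hn h (n / d) (Nat.div_dvd_of_dvd hdn)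
    have e2 : P (Real.log d / l) = 1 := by
      rw [hP _ h1]; exact MoI2_stp _ _ _ (by norm_num) h2
    have e3 : V (Real.log (n / d : ℕ) / l) = 1 := by
      rw [hV _ h3]; unfold gc; exact MoI2_stp _ _ _ (by norm_num) (by linarith)
    rw [e2, e3]
    simp
  rw [e1]
  have h5 : ∑ d ∈ n.divisors, (ArithmeticFunction.moebius d : ℤ) = if n = 1 then 1 else 0 := by
    have h6 := congrArg (fun f : ArithmeticFunction ℤ => f n) ArithmeticFunction.moebius_mul_coe_zeta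
    simp only [ArithmeticFunction.coe_mul_zeta_apply, ArithmeticFunction.one_apply] at h6
    exact h6
  have h7 : ((∑ d ∈ n.divisors, (ArithmeticFunction.moebius d : ℤ) : ℤ) : ℂ) = ((if n = 1 then 1 else 0 : ℤ) : ℂ) := by
    rw [h5]
  push_cast at h7
  rw [h7]

end Pool.Agent.SO
end

section

set_option autoImplicit false

namespace Pool.Agent.SO

open Finset Complex

/-- MoA1 (Chebyshev in blocks). `∑_{e^j < n ≤ e^{j+1}} Λ(n)/n ≤ C` for every `j : ℕ`.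
PROOF. Every term is `≤ Λ(n) e^{-j}`, so the sum is `≤ e^{-j} ψ(e^{j+1}) ≤ e^{-j} C' e^{j+1} = C' e`
(`Chebyshev.psi_le_const_mul_self` or `Chebyshev.psi_le`; `Chebyshev.psi x = ∑ n ∈ Ioc 0 ⌊x⌋₊, Λ n`). -/
lemma block : ∃ C : ℝ, 1 ≤ C ∧ ∀ j : ℕ,
    ∑ n ∈ Ioc ⌊Real.exp j⌋₊ ⌊Real.exp (j + 1)⌋₊, ArithmeticFunction.vonMangoldt n / n ≤ C := by
  refine ⟨(Real.log 4 + 4) * Real.exp 1, ?_, ?_⟩
  · have h1 : 0 ≤ Real.log 4 := Real.log_nonneg (by norm_num)
    have h2 : 1 ≤ Real.exp 1 := Real.one_le_exp (by norm_num)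
    nlinarith
  intro j
  have hej : 0 < Real.exp (j : ℝ) := Real.exp_pos _
  have h1 : ∑ n ∈ Ioc ⌊Real.exp j⌋₊ ⌊Real.exp (j + 1)⌋₊, ArithmeticFunction.vonMangoldt n / n ≤
      ∑ n ∈ Ioc ⌊Real.exp j⌋₊ ⌊Real.exp (j + 1)⌋₊,
        ArithmeticFunction.vonMangoldt n / Real.exp j := by
    refine Finset.sum_le_sum fun n hn => ?_
    have hn1 : Real.exp (j : ℝ) < n := Nat.lt_of_floor_lt (Finset.mem_Ioc.1 hn).1
    exact div_le_div_of_nonneg_left ArithmeticFunction.vonMangoldt_nonneg hej hn1.le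
  have h2 : ∑ n ∈ Ioc ⌊Real.exp j⌋₊ ⌊Real.exp (j + 1)⌋₊,
      ArithmeticFunction.vonMangoldt n ≤ Chebyshev.psi (Real.exp (j + 1)) := by
    refine Finset.sum_le_sum_of_subset_of_nonneg ?_ ?_
    · exact Finset.Ioc_subset_Ioc_left (Nat.zero_le _)
    · intro n _ _
      exact ArithmeticFunction.vonMangoldt_nonneg
  have h3 : Chebyshev.psi (Real.exp (j + 1)) ≤ (Real.log 4 + 4) * Real.exp (j + 1) :=
    Chebyshev.psi_le_const_mul_self (Real.exp_pos _).le
  refine h1.trans ?_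
  rw [← Finset.sum_div, div_le_iff₀ hej]
  refine h2.trans (h3.trans (le_of_eq ?_))
  rw [Real.exp_add]
  ring

end Pool.Agent.SO
end

section

set_option autoImplicit false

namespace Pool.Agent.SO

open Finset Complex

/-- MoA3a (primes in a block). `∑_{e^j < p ≤ e^{j+1}} 1/p^{1+k} ≤ C e^{-kj}/(j+1)`.
PROOF. `j = 0`: the primes in `(1, e]` : only `2` (`e < 3`), the sum is `≤ 1`. `j ≥ 1`: `p^{-1-k} ≤ e^{-kj} p^{-1}` and
`1 ≤ log p / j`, so it is `≤ (e^{-kj}/j) ∑_{block} Λ(p)/p ≤ C e^{-kj}/j ≤ 2 C e^{-kj}/(j+1)` by `block`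
(`Λ(p) = log p`, sum over a subset). -/
lemma block_prime : ∃ C : ℝ, 1 ≤ C ∧ ∀ (k : ℝ) (j : ℕ), 0 < k → k ≤ 1 →
    ∑ p ∈ (Ioc ⌊Real.exp j⌋₊ ⌊Real.exp (j + 1)⌋₊).filter Nat.Prime, 1 / (p : ℝ) ^ (1 + k)
      ≤ C * Real.exp (-(k * j)) / (j + 1) := by
  obtain ⟨C, hC, hb⟩ := block
  refine ⟨2 * C, by linarith, ?_⟩
  intro k j hk _
  have hj1 : (0 : ℝ) < (j : ℝ) + 1 := by positivity
  have hterm : ∀ p ∈ (Ioc ⌊Real.exp j⌋₊ ⌊Real.exp (j + 1)⌋₊).filter Nat.Prime,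
      1 / (p : ℝ) ^ (1 + k) ≤ 2 * Real.exp (-(k * j)) / (j + 1) *
        (ArithmeticFunction.vonMangoldt p / p) := by
    intro p hp
    rw [Finset.mem_filter, Finset.mem_Ioc] at hp
    obtain ⟨⟨h1, -⟩, hpp⟩ := hp
    have hpj : Real.exp (j : ℝ) < p := Nat.lt_of_floor_lt h1
    have hp0 : (0 : ℝ) < p := by exact_mod_cast hpp.pos
    have hlog1 : (j : ℝ) ≤ Real.log p := by
      rw [Real.le_log_iff_exp_le hp0]
      exact hpj.le
    have hlog2 : Real.log 2 ≤ Real.log p :=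
      Real.log_le_log (by norm_num) (by exact_mod_cast hpp.two_le)
    have hl2 := Real.log_two_gt_d9
    have hlog : ((j : ℝ) + 1) / 2 ≤ Real.log p := by
      rcases Nat.eq_zero_or_pos j with h0 | h0
      · subst h0
        simp only [Nat.cast_zero, zero_add]
        linarith
      · have : (1 : ℝ) ≤ j := by exact_mod_cast h0
        linarith
    have hpk : Real.exp (k * j) ≤ (p : ℝ) ^ k := by
      have e : Real.exp (k * j) = (Real.exp (j : ℝ)) ^ k := by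
        rw [← Real.exp_mul, mul_comm]
      rw [e]
      exact Real.rpow_le_rpow (Real.exp_pos _).le hpj.le hk.le
    rw [ArithmeticFunction.vonMangoldt_apply_prime hpp, Real.rpow_add hp0, Real.rpow_one,
      Real.exp_neg]
    have hE : 0 < Real.exp (k * j) := Real.exp_pos _
    have hpkpos : 0 < (p : ℝ) ^ k := Real.rpow_pos_of_pos hp0 _
    have e1 : 1 / ((p : ℝ) * (p : ℝ) ^ k) ≤ 1 / ((p : ℝ) * Real.exp (k * j)) :=
      one_div_le_one_div_of_le (mul_pos hp0 hE) (mul_le_mul_of_nonneg_left hpk hp0.le)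
    refine e1.trans ?_
    have e2 : 2 * (Real.exp (k * j))⁻¹ / ((j : ℝ) + 1) * (Real.log p / p) =
        1 / ((p : ℝ) * Real.exp (k * j)) * (Real.log p / (((j : ℝ) + 1) / 2)) := by
      field_simp
    rw [e2]
    have e3 : 1 ≤ Real.log p / (((j : ℝ) + 1) / 2) := by
      rw [le_div_iff₀ (by positivity), one_mul]
      exact hlog
    exact le_mul_of_one_le_right (by positivity) e3
  refine (Finset.sum_le_sum hterm).trans ?_
  rw [← Finset.mul_sum]
  have hsub : ∑ p ∈ (Ioc ⌊Real.exp j⌋₊ ⌊Real.exp (j + 1)⌋₊).filter Nat.Prime,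
      ArithmeticFunction.vonMangoldt p / p ≤ C := by
    refine le_trans ?_ (hb j)
    refine Finset.sum_le_sum_of_subset_of_nonneg (Finset.filter_subset _ _) ?_
    intro n _ _
    exact div_nonneg ArithmeticFunction.vonMangoldt_nonneg (Nat.cast_nonneg _)
  have h0 : 0 ≤ 2 * Real.exp (-(k * j)) / ((j : ℝ) + 1) := by positivity
  refine (mul_le_mul_of_nonneg_left hsub h0).trans (le_of_eq ?_)
  ring

end Pool.Agent.SO
end

section

set_option autoImplicit false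

namespace Pool.Agent.SO

open Finset Complex

lemma MoA3b_min (y : ℝ) (hy : 0 ≤ y) : min 4 (y ^ 2) ≤ 8 * (1 - Real.exp (-y)) := by
  have h1 : 1 + y ≤ Real.exp y := by linarith [Real.add_one_le_exp y]
  have h2 : Real.exp (-y) ≤ 1 / (1 + y) := by
    rw [Real.exp_neg, inv_eq_one_div]
    exact one_div_le_one_div_of_le (by linarith) h1
  have h3 : 1 - 1 / (1 + y) = y / (1 + y) := by field_simp; ring
  rcases le_total y 1 with h | h
  · refine (min_le_right _ _).trans ?_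
    have h4 : y / 2 ≤ y / (1 + y) := div_le_div_of_nonneg_left hy (by linarith) (by linarith)
    nlinarith
  · refine (min_le_left _ _).trans ?_
    have h4 : 1 / 2 ≤ y / (1 + y) := by
      rw [div_le_div_iff₀ (by norm_num) (by linarith)]
      linarith
    linarith

/-- MoA3b (a series). `∑_{j < J} min(4, τ²(j+1)²) e^{-kj}/(j+1) ≤ C (1 + log(1 + |τ|/k))`.
PROOF. Terms with `(j+1)|τ| ≤ 1`: each is `≤ τ²(j+1) ≤ |τ|`, and there are at most `1/|τ|` of them: total `≤ 1` (none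
counted if `τ = 0`, all terms are `0` then). Terms with `(j+1)|τ| > 1` and `j + 1 ≤ 1/k`: `≤ 4 ∑ 1/n` over integers `n` with
`1/|τ| < n ≤ 1/k`: this is `≤ 4 (1 + log⁺(|τ|/k))` if `|τ| ≤ 1`, and `≤ 4(1 + log(1/k)) ≤ 4 (1 + log(1+|τ|/k))` if `|τ| ≥ 1`
(compare with `∫ dx/x`; or `log((n+1)/n) ≥ 1/(n+1)` telescoping, or Mathlib's harmonic bounds). Terms with `j + 1 > 1/k`:
`≤ 4 k ∑_j e^{-kj} ≤ 4k/(1-e^{-k}) ≤ 8` (`1 - e^{-k} ≥ k/2`, `0 < k ≤ 1`). -/
lemma series_bound : ∃ C : ℝ, 1 ≤ C ∧ ∀ (τ k : ℝ) (J : ℕ), 0 < k → k ≤ 1 →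
    ∑ j ∈ range J, min 4 (τ ^ 2 * ((j : ℝ) + 1) ^ 2) * Real.exp (-(k * j)) / ((j : ℝ) + 1)
      ≤ C * (1 + Real.log (1 + |τ| / k)) := by
  refine ⟨8 * Real.exp 1, ?_, ?_⟩
  · have : (1 : ℝ) ≤ Real.exp 1 := Real.one_le_exp (by norm_num)
    linarith
  intro τ k J hk hk1
  set u := |τ| with hu
  have hu0 : 0 ≤ u := abs_nonneg τ
  set x := Real.exp (-k) with hx
  set y := Real.exp (-(k + u)) with hy
  have hx1 : x < 1 := by rw [hx, Real.exp_lt_one_iff]; linarith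
  have hy1 : y < 1 := by rw [hy, Real.exp_lt_one_iff]; linarith
  have hx0 : 0 < x := Real.exp_pos _
  have hy0 : 0 < y := Real.exp_pos _
  have hyx : y ≤ x := Real.exp_le_exp.2 (by linarith)
  have hsx := Real.hasSum_pow_div_log_of_abs_lt_one (x := x) (by rw [abs_of_pos hx0]; exact hx1)
  have hsy := Real.hasSum_pow_div_log_of_abs_lt_one (x := y) (by rw [abs_of_pos hy0]; exact hy1)
  have hs := hsx.sub hsy
  have hterm0 : ∀ j : ℕ, 0 ≤ x ^ (j + 1) / ((j : ℝ) + 1) - y ^ (j + 1) / ((j : ℝ) + 1) := by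
    intro j
    rw [← sub_div]
    apply div_nonneg _ (by positivity)
    have := pow_le_pow_left₀ hy0.le hyx (j + 1)
    linarith
  have hpart := sum_le_hasSum (range J) (fun j _ => hterm0 j) hs
  have hval : -Real.log (1 - x) - -Real.log (1 - y) ≤ Real.log (1 + u / k) := by
    have h1 : 0 < 1 - x := by linarith
    have h2 : 0 < 1 - y := by linarith
    have h3 : -Real.log (1 - x) - -Real.log (1 - y) = Real.log ((1 - y) / (1 - x)) := by
      rw [Real.log_div h2.ne' h1.ne']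
      ring
    rw [h3]
    apply Real.log_le_log (by positivity)
    rw [div_le_iff₀ h1]
    -- concavity
    have hku : 0 < k + u := by linarith
    have hconv := convexOn_exp.2 (Set.mem_univ (-(k + u))) (Set.mem_univ (0 : ℝ))
      (show 0 ≤ k / (k + u) by positivity) (show 0 ≤ u / (k + u) by positivity)
      (by field_simp)
    simp only [smul_eq_mul, mul_zero, add_zero, Real.exp_zero, mul_one] at hconv
    have h4 : k / (k + u) * -(k + u) = -k := by field_simp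
    rw [h4] at hconv
    have h5 : x ≤ k / (k + u) * y + u / (k + u) := hconv
    have h6 : (k + u) * x ≤ k * y + u := by
      have h7 := mul_le_mul_of_nonneg_left h5 hku.le
      have h8 : (k + u) * (k / (k + u) * y + u / (k + u)) = k * y + u := by field_simp
      linarith
    have h7 : (1 + u / k) * (1 - x) = (k + u) * (1 - x) / k := by field_simp
    rw [h7, le_div_iff₀ hk]
    nlinarith
  have hb : ∀ j ∈ range J, min 4 (τ ^ 2 * ((j : ℝ) + 1) ^ 2) * Real.exp (-(k * j)) / ((j : ℝ) + 1) ≤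
      8 * Real.exp 1 * (x ^ (j + 1) / ((j : ℝ) + 1) - y ^ (j + 1) / ((j : ℝ) + 1)) := by
    intro j _
    rw [← sub_div, ← mul_div_assoc]
    apply div_le_div_of_nonneg_right _ (by positivity)
    have hj : (0 : ℝ) < (j : ℝ) + 1 := by positivity
    have h1 : τ ^ 2 * ((j : ℝ) + 1) ^ 2 = (u * ((j : ℝ) + 1)) ^ 2 := by
      rw [mul_pow, hu, sq_abs]
    rw [h1]
    have h2 := MoA3b_min (u * ((j : ℝ) + 1)) (by positivity)
    have h3 : x ^ (j + 1) = Real.exp (-(k * j)) * Real.exp (-k) := by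
      rw [hx, ← Real.exp_nat_mul, ← Real.exp_add]
      congr 1
      push_cast
      ring
    have h4 : y ^ (j + 1) = x ^ (j + 1) * Real.exp (-(u * ((j : ℝ) + 1))) := by
      rw [hx, hy, ← Real.exp_nat_mul, ← Real.exp_nat_mul, ← Real.exp_add]
      congr 1
      push_cast
      ring
    have h5 : 1 ≤ Real.exp 1 * Real.exp (-k) := by
      rw [← Real.exp_add]
      exact Real.one_le_exp (by linarith)
    have h6 : 0 ≤ 1 - Real.exp (-(u * ((j : ℝ) + 1))) := by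
      have : Real.exp (-(u * ((j : ℝ) + 1))) ≤ 1 := by
        rw [Real.exp_le_one_iff]
        have : 0 ≤ u * ((j : ℝ) + 1) := by positivity
        linarith
      linarith
    have h7 : x ^ (j + 1) - y ^ (j + 1) =
        Real.exp (-(k * j)) * Real.exp (-k) * (1 - Real.exp (-(u * ((j : ℝ) + 1)))) := by
      rw [h4, h3]
      ring
    rw [h7]
    have h8 : 0 < Real.exp (-(k * j)) := Real.exp_pos _
    calc min 4 ((u * ((j : ℝ) + 1)) ^ 2) * Real.exp (-(k * j))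
        ≤ 8 * (1 - Real.exp (-(u * ((j : ℝ) + 1)))) * Real.exp (-(k * j)) :=
          mul_le_mul_of_nonneg_right h2 h8.le
      _ = 1 * (8 * (1 - Real.exp (-(u * ((j : ℝ) + 1)))) * Real.exp (-(k * j))) := by ring
      _ ≤ (Real.exp 1 * Real.exp (-k)) *
          (8 * (1 - Real.exp (-(u * ((j : ℝ) + 1)))) * Real.exp (-(k * j))) :=
          mul_le_mul_of_nonneg_right h5 (by positivity)
      _ = _ := by ring
  refine (Finset.sum_le_sum hb).trans ?_
  rw [← Finset.mul_sum]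
  have he : 0 < Real.exp 1 := Real.exp_pos 1
  apply mul_le_mul_of_nonneg_left _ (by positivity)
  linarith

end Pool.Agent.SO
end

section

set_option autoImplicit false

namespace Pool.Agent.SO

open Finset Complex

lemma MoA3_sq (N : ℕ) : ∑ n ∈ Icc 1 N, 1 / (n : ℝ) ^ 2 ≤ 2 := by
  have h : ∀ N : ℕ, 1 ≤ N → ∑ n ∈ Icc 1 N, 1 / (n : ℝ) ^ 2 ≤ 2 - 1 / (N : ℝ) := by
    intro N hN
    induction N, hN using Nat.le_induction with
    | base => norm_num [Finset.Icc_self]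
    | succ n hn ih =>
      rw [Finset.sum_Icc_succ_top (by omega)]
      have hn0 : (0 : ℝ) < n := by exact_mod_cast hn
      have h1 : 1 / (((n + 1 : ℕ) : ℝ)) ^ 2 ≤ 1 / (n : ℝ) - 1 / ((n + 1 : ℕ) : ℝ) := by
        push_cast
        rw [div_sub_div _ _ hn0.ne' (by positivity), div_le_div_iff₀ (by positivity)
          (by positivity)]
        nlinarith
      linarith
  rcases Nat.eq_zero_or_pos N with h0 | h0
  · subst h0
    simp
  · have h1 := h N h0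
    have h2 : (0 : ℝ) ≤ 1 / (N : ℝ) := by positivity
    linarith

lemma MoA3_D (τ : ℝ) (p : ℕ) (hp : 0 < p) :
    ‖1 - (p : ℂ) ^ (-((τ : ℂ) * I))‖ ^ 2 ≤ 4 ∧
      ‖1 - (p : ℂ) ^ (-((τ : ℂ) * I))‖ ^ 2 ≤ τ ^ 2 * Real.log p ^ 2 := by
  have h0 : ‖(p : ℂ) ^ (-((τ : ℂ) * I))‖ = 1 := by
    rw [Complex.norm_natCast_cpow_of_pos hp]
    simp
  have hpC : (p : ℂ) ≠ 0 := by exact_mod_cast hp.ne'
  constructor
  · have h1 : ‖1 - (p : ℂ) ^ (-((τ : ℂ) * I))‖ ≤ 2 := by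
      refine (norm_sub_le _ _).trans ?_
      rw [h0, norm_one]
      norm_num
    have := norm_nonneg (1 - (p : ℂ) ^ (-((τ : ℂ) * I)))
    nlinarith
  · have h1 : ‖1 - (p : ℂ) ^ (-((τ : ℂ) * I))‖ ≤ |-(τ * Real.log p)| := by
      rw [norm_sub_rev, Complex.cpow_def_of_ne_zero hpC]
      have e : Complex.log (p : ℂ) * (-((τ : ℂ) * I)) = I * ((-(τ * Real.log p) : ℝ) : ℂ) := by
        rw [← Complex.natCast_log]
        push_cast
        ring
      rw [e]
      exact Real.norm_exp_I_mul_ofReal_sub_one_le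
    rw [abs_neg] at h1
    calc ‖1 - (p : ℂ) ^ (-((τ : ℂ) * I))‖ ^ 2 ≤ |τ * Real.log p| ^ 2 :=
          pow_le_pow_left₀ (norm_nonneg _) h1 2
      _ = τ ^ 2 * Real.log p ^ 2 := by rw [sq_abs]; ring

/-- MoA3. `∑_{p ≤ N} |1 - p^{-iτ}|² / (p^{1+k} - 1) ≤ B (1 + log (1 + |τ|/k))`, `0 < k ≤ 1`, `τ` real.
PROOF. `|1 - p^{-iτ}|² ≤ min 4 (τ² log² p)` (`|1 - e^{iθ}| ≤ |θ|`) and `1/(p^{1+k} - 1) ≤ 1/p^{1+k} + 2/p²`: indeed for
`X = p^{1+k} ≥ 2` `1/(X-1) ≤ 1/X + 2/X²` and `X ≥ p`. The terms `4 · 2/p²` contribute `≤ 8 ∑ 1/n² ≤ 16`. For the rest: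
every prime lies in exactly one block `(e^j, e^{j+1}]` (`j = ⌈log p⌉ - 1`), there `log p ≤ j+1`, so `block_prime` and
`series_bound`. -/
lemma prime_sum : ∃ B : ℝ, 1 ≤ B ∧ ∀ (τ k : ℝ) (N : ℕ), 0 < k → k ≤ 1 →
    ∑ p ∈ (Icc 1 N).filter Nat.Prime, ‖1 - (p : ℂ) ^ (-((τ : ℂ) * I))‖ ^ 2 / ((p : ℝ) ^ (1 + k) - 1)
      ≤ B * (1 + Real.log (1 + |τ| / k)) := by
  obtain ⟨C, hC, hb⟩ := block_prime
  obtain ⟨C', hC', hs⟩ := series_bound
  refine ⟨16 + C * C', by nlinarith, ?_⟩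
  intro τ k N hk hk1
  set A : Finset ℕ := (Icc 1 N).filter Nat.Prime with hA
  have hL0 : 0 ≤ Real.log (1 + |τ| / k) := Real.log_nonneg (by
    have : 0 ≤ |τ| / k := by positivity
    linarith)
  -- the squares
  have hsq : ∑ p ∈ A, 8 / (p : ℝ) ^ 2 ≤ 16 := by
    have h1 : ∑ p ∈ A, 8 / (p : ℝ) ^ 2 ≤ ∑ p ∈ Icc 1 N, 8 / (p : ℝ) ^ 2 :=
      Finset.sum_le_sum_of_subset_of_nonneg (Finset.filter_subset _ _)
        (fun _ _ _ => by positivity)
    refine h1.trans ?_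
    have h2 := MoA3_sq N
    calc ∑ p ∈ Icc 1 N, 8 / (p : ℝ) ^ 2 = 8 * ∑ p ∈ Icc 1 N, 1 / (p : ℝ) ^ 2 := by
          rw [Finset.mul_sum]
          exact Finset.sum_congr rfl fun p _ => by ring
      _ ≤ 16 := by linarith
  -- the main part
  set D : ℕ → ℝ := fun p => ‖1 - (p : ℂ) ^ (-((τ : ℂ) * I))‖ ^ 2 with hD
  have hmain : ∑ p ∈ A, D p / (p : ℝ) ^ (1 + k) ≤ C * C' * (1 + Real.log (1 + |τ| / k)) := by
    set jj : ℕ → ℕ := fun p => ⌈Real.log p⌉₊ - 1 with hjj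
    have hjp : ∀ p ∈ A, (jj p : ℝ) < Real.log p ∧ Real.log p ≤ (jj p : ℝ) + 1 := by
      intro p hp
      have hpp : p.Prime := (Finset.mem_filter.1 hp).2
      have hlog : 0 < Real.log p := Real.log_pos (by exact_mod_cast hpp.one_lt)
      have hc : 1 ≤ ⌈Real.log p⌉₊ := Nat.one_le_ceil_iff.2 hlog
      have hcast : ((jj p : ℕ) : ℝ) = (⌈Real.log p⌉₊ : ℝ) - 1 := by
        simp only [hjj]
        rw [Nat.cast_sub hc, Nat.cast_one]
      rw [hcast]
      have h1 := Nat.le_ceil (Real.log p)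
      have h2 := Nat.ceil_lt_add_one hlog.le
      constructor <;> linarith
    have hmaps : ∀ p ∈ A, jj p ∈ Finset.range N := by
      intro p hp
      have h1 := (hjp p hp).1
      rw [Finset.mem_filter, Finset.mem_Icc] at hp
      have hp0 : (0 : ℝ) < p := by exact_mod_cast hp.2.pos
      have h2 : Real.log p ≤ p - 1 := Real.log_le_sub_one_of_pos hp0
      have h3 : (p : ℝ) ≤ N := by exact_mod_cast hp.1.2
      rw [Finset.mem_range]
      have h4 : (jj p : ℝ) < N := by linarith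
      exact_mod_cast h4
    rw [← Finset.sum_fiberwise_of_maps_to hmaps]
    have hblock : ∀ j ∈ Finset.range N, ∑ p ∈ A.filter (fun p => jj p = j),
        D p / (p : ℝ) ^ (1 + k) ≤
        C * (min 4 (τ ^ 2 * ((j : ℝ) + 1) ^ 2) * Real.exp (-(k * j)) / ((j : ℝ) + 1)) := by
      intro j _
      have hmin0 : 0 ≤ min 4 (τ ^ 2 * ((j : ℝ) + 1) ^ 2) := le_min (by norm_num) (by positivity)
      have h1 : ∀ p ∈ A.filter (fun p => jj p = j), D p / (p : ℝ) ^ (1 + k) ≤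
          min 4 (τ ^ 2 * ((j : ℝ) + 1) ^ 2) * (1 / (p : ℝ) ^ (1 + k)) := by
        intro p hp
        rw [Finset.mem_filter] at hp
        obtain ⟨hpA, hpj⟩ := hp
        have hpp : p.Prime := (Finset.mem_filter.1 hpA).2
        have hp0 : (0 : ℝ) < p := by exact_mod_cast hpp.pos
        have h2 := (hjp p hpA).2
        rw [hpj] at h2
        have hlog : 0 < Real.log p := Real.log_pos (by exact_mod_cast hpp.one_lt)
        obtain ⟨d1, d2⟩ := MoA3_D τ p hpp.pos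
        have hD4 : D p ≤ min 4 (τ ^ 2 * ((j : ℝ) + 1) ^ 2) := by
          refine le_min d1 (d2.trans ?_)
          exact mul_le_mul_of_nonneg_left (pow_le_pow_left₀ hlog.le h2 2) (sq_nonneg _)
        rw [div_eq_mul_one_div]
        exact mul_le_mul_of_nonneg_right hD4 (by positivity)
      refine (Finset.sum_le_sum h1).trans ?_
      rw [← Finset.mul_sum]
      have h3 : ∑ p ∈ A.filter (fun p => jj p = j), 1 / (p : ℝ) ^ (1 + k) ≤
          C * Real.exp (-(k * j)) / (j + 1) := by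
        refine le_trans ?_ (hb k j hk hk1)
        refine Finset.sum_le_sum_of_subset_of_nonneg ?_ (fun _ _ _ => by positivity)
        intro p hp
        rw [Finset.mem_filter] at hp
        obtain ⟨hpA, hpj⟩ := hp
        have hpp : p.Prime := (Finset.mem_filter.1 hpA).2
        have hp0 : (0 : ℝ) < p := by exact_mod_cast hpp.pos
        have h2 := hjp p hpA
        rw [hpj] at h2
        rw [Finset.mem_filter, Finset.mem_Ioc]
        refine ⟨⟨?_, ?_⟩, hpp⟩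
        · rw [Nat.floor_lt (Real.exp_pos _).le]
          exact (Real.lt_log_iff_exp_lt hp0).1 h2.1
        · exact Nat.le_floor ((Real.log_le_iff_le_exp hp0).1 h2.2)
      refine (mul_le_mul_of_nonneg_left h3 hmin0).trans (le_of_eq ?_)
      ring
    refine (Finset.sum_le_sum hblock).trans ?_
    rw [← Finset.mul_sum, mul_assoc]
    exact mul_le_mul_of_nonneg_left (hs τ k N hk hk1) (by linarith)
  -- assembly
  have hterm : ∀ p ∈ A, D p / ((p : ℝ) ^ (1 + k) - 1) ≤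
      D p / (p : ℝ) ^ (1 + k) + 8 / (p : ℝ) ^ 2 := by
    intro p hp
    have hpp : p.Prime := (Finset.mem_filter.1 hp).2
    have hp0 : (0 : ℝ) < p := by exact_mod_cast hpp.pos
    have hp2 : (2 : ℝ) ≤ p := by exact_mod_cast hpp.two_le
    obtain ⟨d1, -⟩ := MoA3_D τ p hpp.pos
    have hD0 : 0 ≤ D p := sq_nonneg _
    have hX : (p : ℝ) ≤ (p : ℝ) ^ (1 + k) := by
      calc (p : ℝ) = (p : ℝ) ^ (1 : ℝ) := (Real.rpow_one _).symm
        _ ≤ (p : ℝ) ^ (1 + k) := Real.rpow_le_rpow_of_exponent_le (by linarith) (by linarith)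
    set X : ℝ := (p : ℝ) ^ (1 + k) with hXdef
    have hX2 : 2 ≤ X := hp2.trans hX
    have e1 : 1 / (X - 1) ≤ 1 / X + 2 / (p : ℝ) ^ 2 := by
      have e2 : 1 / (X - 1) = 1 / X + 1 / (X * (X - 1)) := by
        have h1 : X ≠ 0 := by linarith
        have h2 : X - 1 ≠ 0 := by linarith
        field_simp
        ring
      rw [e2]
      have e3 : 1 / (X * (X - 1)) ≤ 2 / (p : ℝ) ^ 2 := by
        rw [div_le_div_iff₀ (by nlinarith) (by positivity)]
        nlinarith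
      linarith
    calc D p / (X - 1) = D p * (1 / (X - 1)) := by ring
      _ ≤ D p * (1 / X + 2 / (p : ℝ) ^ 2) := mul_le_mul_of_nonneg_left e1 hD0
      _ = D p / X + D p * (2 / (p : ℝ) ^ 2) := by ring
      _ ≤ D p / X + 4 * (2 / (p : ℝ) ^ 2) := by
          have : D p * (2 / (p : ℝ) ^ 2) ≤ 4 * (2 / (p : ℝ) ^ 2) :=
            mul_le_mul_of_nonneg_right d1 (by positivity)
          linarith
      _ = D p / X + 8 / (p : ℝ) ^ 2 := by ring
  refine (Finset.sum_le_sum hterm).trans ?_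
  rw [Finset.sum_add_distrib]
  nlinarith

end Pool.Agent.SO
end

section

set_option autoImplicit false

namespace Pool.Agent.SO

open Finset Complex

/-- MoA4 (Euler product). `∑_{n ≤ N} n^{-1-k} ∏_{p ∣ n} |1 - p^{-iτ}|² ≤ C (1 + |τ|/k)^B`, with a natural number `B`.
PROOF. `f(n) = n^{-1-k} ∏_{p ∣ n} D_p` (`D_p = |1 - p^{-iτ}|² ≥ 0`) is multiplicative on coprime arguments,
`f(p^j) = D_p p^{-j(1+k)}` (`j ≥ 1`), so
`∑_{n ≤ N} f(n) ≤ ∏_{p ≤ N} (1 + D_p ∑_{j≥1} p^{-j(1+k)}) = ∏ (1 + D_p/(p^{1+k}-1)) ≤ exp(∑ D_p/(p^{1+k}-1))`.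
(Euler product over smooth numbers: `EulerProduct.summable_and_hasSum_smoothNumbers_prod_primesBelow_tsum` or
`EulerProduct.prod_filter_prime_tsum_eq_tsum_smoothNumbers`, every `n ≤ N` is `(N+1)`-smooth; or induction on the primes
with the sum over the exponent of the largest prime.) Then `prime_sum`: `exp(B₁(1 + log(1+|τ|/k))) ≤ e^{B} (1+|τ|/k)^B`
with `B = ⌈B₁⌉₊`. -/
lemma euler_bound : ∃ (B : ℕ) (C : ℝ), 1 ≤ C ∧ ∀ (τ k : ℝ) (N : ℕ), 0 < k → k ≤ 1 →
    ∑ n ∈ Icc 1 N, (n : ℝ) ^ (-1 - k) * ∏ p ∈ n.primeFactors, ‖1 - (p : ℂ) ^ (-((τ : ℂ) * I))‖ ^ 2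
      ≤ C * (1 + |τ| / k) ^ B := by
  obtain ⟨B₁, hB₁, hps⟩ := prime_sum
  refine ⟨⌈B₁⌉₊, Real.exp ⌈B₁⌉₊, Real.one_le_exp (Nat.cast_nonneg _), ?_⟩
  intro τ k N hk hk1
  set D : ℕ → ℝ := fun p => ‖1 - (p : ℂ) ^ (-((τ : ℂ) * I))‖ ^ 2 with hD
  have hD0 : ∀ p, 0 ≤ D p := fun p => sq_nonneg _
  set f : ℕ → ℝ := fun n => (n : ℝ) ^ (-1 - k) * ∏ p ∈ n.primeFactors, D p with hf
  have hf0 : ∀ n, 0 ≤ f n := fun n =>
    mul_nonneg (Real.rpow_nonneg (Nat.cast_nonneg _) _) (Finset.prod_nonneg fun p _ => hD0 p)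
  have hf1 : f 1 = 1 := by simp [hf]
  have hmul : ∀ {m n : ℕ}, Nat.Coprime m n → f (m * n) = f m * f n := by
    intro m n hmn
    simp only [hf]
    rw [Nat.Coprime.primeFactors_mul hmn, Finset.prod_union hmn.disjoint_primeFactors,
      Nat.cast_mul, Real.mul_rpow (Nat.cast_nonneg _) (Nat.cast_nonneg _)]
    ring
  -- the local factors
  have hloc : ∀ {p : ℕ}, p.Prime → HasSum (fun n : ℕ => f (p ^ n))
      (1 + D p / ((p : ℝ) ^ (1 + k) - 1)) := by
    intro p hp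
    have hp0 : (0 : ℝ) < p := by exact_mod_cast hp.pos
    have hp2 : (2 : ℝ) ≤ p := by exact_mod_cast hp.two_le
    set X : ℝ := (p : ℝ) ^ (1 + k) with hXdef
    have hX : (p : ℝ) ≤ X := by
      calc (p : ℝ) = (p : ℝ) ^ (1 : ℝ) := (Real.rpow_one _).symm
        _ ≤ (p : ℝ) ^ (1 + k) := Real.rpow_le_rpow_of_exponent_le (by linarith) (by linarith)
    have hX2 : 2 ≤ X := hp2.trans hX
    have hX0 : X ≠ 0 := by linarith
    have hX1 : X - 1 ≠ 0 := by linarith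
    have hfs : ∀ n : ℕ, f (p ^ (n + 1)) = D p * X⁻¹ * (X⁻¹) ^ n := by
      intro n
      simp only [hf]
      rw [Nat.primeFactors_prime_pow (by omega) hp, Finset.prod_singleton]
      have e : (((p ^ (n + 1) : ℕ) : ℝ)) ^ (-1 - k) = (X⁻¹) ^ (n + 1) := by
        push_cast
        rw [← Real.rpow_natCast, ← Real.rpow_mul hp0.le, hXdef, ← Real.rpow_neg hp0.le,
          ← Real.rpow_natCast, ← Real.rpow_mul hp0.le]
        congr 1
        ring
      rw [e, pow_succ]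
      ring
    have hgeo : HasSum (fun n : ℕ => (X⁻¹) ^ n) (1 - X⁻¹)⁻¹ :=
      hasSum_geometric_of_lt_one (by positivity) (inv_lt_one_of_one_lt₀ (by linarith))
    have h1 : HasSum (fun n : ℕ => f (p ^ (n + 1))) (D p * X⁻¹ * (1 - X⁻¹)⁻¹) := by
      simp only [hfs]
      exact hgeo.mul_left _
    have h2 : HasSum (fun n : ℕ => f (p ^ n)) (D p * X⁻¹ * (1 - X⁻¹)⁻¹ + f (p ^ 0)) := by
      have := (hasSum_nat_add_iff (f := fun n : ℕ => f (p ^ n)) 1).1 h1
      simpa using this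
    have h3 : D p * X⁻¹ * (1 - X⁻¹)⁻¹ + f (p ^ 0) = 1 + D p / (X - 1) := by
      rw [pow_zero, hf1]
      have : X⁻¹ * (1 - X⁻¹)⁻¹ = 1 / (X - 1) := by
        rw [← mul_inv, mul_sub, mul_one, mul_inv_cancel₀ hX0, one_div]
      rw [mul_assoc, this]
      ring
    rw [h3] at h2
    exact h2
  obtain ⟨-, hsum⟩ := EulerProduct.summable_and_hasSum_smoothNumbers_prod_primesBelow_tsum
    hf1 hmul (fun {p} hp => by
      simp only [Real.norm_of_nonneg (hf0 _)]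
      exact (hloc hp).summable) (N + 1)
  have hle : ∑ n ∈ Icc 1 N, f n ≤ ∏ p ∈ (N + 1).primesBelow, ∑' n : ℕ, f (p ^ n) := by
    have hmem : ∀ n ∈ Icc 1 N, n ∈ (N + 1).smoothNumbers := by
      intro n hn
      rw [Finset.mem_Icc] at hn
      rw [Nat.mem_smoothNumbers']
      intro p _ hpn
      have := Nat.le_of_dvd (by omega) hpn
      omega
    have h1 := sum_le_hasSum ((Icc 1 N).subtype (fun n => n ∈ (N + 1).smoothNumbers))
      (fun i _ => hf0 _) hsum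
    have h2 : ∑ n ∈ (Icc 1 N).subtype (fun n => n ∈ (N + 1).smoothNumbers), f n =
        ∑ n ∈ Icc 1 N, f n := Finset.sum_subtype_of_mem f hmem
    rw [← h2]
    exact h1
  have hexp : ∏ p ∈ (N + 1).primesBelow, ∑' n : ℕ, f (p ^ n) ≤
      Real.exp (∑ p ∈ (Icc 1 N).filter Nat.Prime, D p / ((p : ℝ) ^ (1 + k) - 1)) := by
    have hset : (N + 1).primesBelow = (Icc 1 N).filter Nat.Prime := by
      ext p
      rw [Nat.mem_primesBelow, Finset.mem_filter, Finset.mem_Icc]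
      constructor
      · rintro ⟨h1, h2⟩
        exact ⟨⟨h2.one_lt.le, by omega⟩, h2⟩
      · rintro ⟨⟨h1, h2⟩, h3⟩
        exact ⟨by omega, h3⟩
    rw [hset, Real.exp_sum]
    refine Finset.prod_le_prod (fun p _ => tsum_nonneg fun n => hf0 _) ?_
    intro p hp
    rw [(hloc (Finset.mem_filter.1 hp).2).tsum_eq]
    have := Real.add_one_le_exp (D p / ((p : ℝ) ^ (1 + k) - 1))
    linarith
  have hL0 : 0 ≤ Real.log (1 + |τ| / k) := Real.log_nonneg (by
    have : 0 ≤ |τ| / k := by positivity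
    linarith)
  have hpos : 0 < 1 + |τ| / k := by positivity
  refine hle.trans (hexp.trans ?_)
  have h5 : ∑ p ∈ (Icc 1 N).filter Nat.Prime, D p / ((p : ℝ) ^ (1 + k) - 1) ≤
      ⌈B₁⌉₊ * (1 + Real.log (1 + |τ| / k)) := by
    refine (hps τ k N hk hk1).trans ?_
    exact mul_le_mul_of_nonneg_right (Nat.le_ceil _) (by linarith)
  refine (Real.exp_le_exp.2 h5).trans (le_of_eq ?_)
  rw [mul_add, mul_one, Real.exp_add, ← Real.log_pow, Real.exp_log (by positivity)]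

end Pool.Agent.SO
end

section

set_option autoImplicit false

namespace Pool.Agent.SO

open Finset Complex MeasureTheory
open scoped ContDiff FourierTransform

lemma MoB1_zero (F : ℝ → ℂ) (h0 : ∀ x, x < -(1 / 16) → F x = 0) (h1 : ∀ x, 1 < x → F x = 0) (j : ℕ) (x : ℝ)
    (hx : x ∉ Set.Icc (-(1 / 16) : ℝ) 1) : iteratedDeriv j F x = 0 := by
  have hx' : x < -(1 / 16) ∨ 1 < x := by
    by_contra hcon
    push Not at hcon
    exact hx ⟨hcon.1, hcon.2⟩
  have he : F =ᶠ[nhds x] (fun _ => (0 : ℂ)) := by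
    rcases hx' with h | h
    · filter_upwards [Iio_mem_nhds h] with y hy using h0 y hy
    · filter_upwards [Ioi_mem_nhds h] with y hy using h1 y hy
  rw [he.iteratedDeriv_eq]
  simp [iteratedDeriv_const]

lemma MoB1_int (F : ℝ → ℂ) (hF : ContDiff ℝ ∞ F) (h0 : ∀ x, x < -(1 / 16) → F x = 0)
    (h1 : ∀ x, 1 < x → F x = 0) (j : ℕ) : Integrable (iteratedDeriv j F) := by
  have hc : Continuous (iteratedDeriv j F) := hF.continuous_iteratedDeriv j (by exact_mod_cast le_top)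
  refine hc.integrable_of_hasCompactSupport ?_
  refine HasCompactSupport.intro (K := Set.Icc (-(1 / 16) : ℝ) 1) isCompact_Icc ?_
  intro x hx
  exact MoB1_zero F h0 h1 j x hx

lemma MoB1_norm (F : ℝ → ℂ) (K : ℝ) (hF : ContDiff ℝ ∞ F) (h0 : ∀ x, x < -(1 / 16) → F x = 0)
    (h1 : ∀ x, 1 < x → F x = 0) (j : ℕ) (hK : ∀ x, ‖iteratedDeriv j F x‖ ≤ K) (w : ℝ) :
    |2 * Real.pi * w| ^ j * ‖𝓕 F w‖ ≤ 17 / 16 * K := by
  have e1 : 𝓕 (iteratedDeriv j F) = fun (x : ℝ) ↦ (2 * Real.pi * I * x) ^ j • (𝓕 F x) := by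
    refine Real.fourier_iteratedDeriv (N := ⊤) (n := j) (by exact_mod_cast hF) ?_ (by exact_mod_cast le_top)
    intro n _
    exact MoB1_int F hF h0 h1 n
  have e2 : ‖𝓕 (iteratedDeriv j F) w‖ = |2 * Real.pi * w| ^ j * ‖𝓕 F w‖ := by
    rw [e1]
    simp only [norm_smul, norm_pow, norm_mul, Complex.norm_I, Complex.norm_real, Complex.norm_ofNat, mul_one,
      abs_mul, Real.norm_eq_abs, abs_two]
  rw [← e2]
  have e3 : ‖𝓕 (iteratedDeriv j F) w‖ ≤ ∫ v : ℝ, ‖iteratedDeriv j F v‖ := by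
    rw [Real.fourier_eq]
    refine (norm_integral_le_integral_norm _).trans ?_
    refine le_of_eq ?_
    congr 1
    ext v
    rw [Circle.norm_smul]
  refine e3.trans ?_
  have e4 : ∫ v : ℝ, ‖iteratedDeriv j F v‖ ≤ ∫ v : ℝ, (Set.Icc (-(1 / 16) : ℝ) 1).indicator (fun _ => K) v := by
    refine integral_mono (MoB1_int F hF h0 h1 j).norm ?_ ?_
    · refine (integrable_indicator_iff measurableSet_Icc).mpr ?_
      exact integrableOn_const (by simp) (by simp)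
    · intro v
      by_cases hv : v ∈ Set.Icc (-(1 / 16) : ℝ) 1
      · simp only [Set.indicator_of_mem hv]; exact hK v
      · simp only [Set.indicator_of_notMem hv, MoB1_zero F h0 h1 j v hv, norm_zero]; exact le_refl _
  refine e4.trans ?_
  rw [integral_indicator measurableSet_Icc, setIntegral_const]
  simp only [Real.volume_real_Icc, smul_eq_mul]
  refine le_of_eq ?_
  rw [max_eq_left (by norm_num)]
  norm_num

/-- MoB1 (Fourier inversion with weights). For every `B` there is `C` such that for every smooth `F : ℝ → ℂ` supported in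
`[-1/16, 1]` with `|F^{(j)}| ≤ K` for `j ≤ B + 2`: `F(x) = ∫ f(ξ) e^{iξx} dξ` with `∫ |f(ξ)| (1+|ξ|)^B ≤ C K`. -/
lemma fourier_weight (B : ℕ) : ∃ C : ℝ, 0 ≤ C ∧ ∀ (F : ℝ → ℂ) (K : ℝ), ContDiff ℝ ∞ F →
    (∀ x, x < -(1 / 16) → F x = 0) → (∀ x, 1 < x → F x = 0) → 0 ≤ K →
    (∀ j, j ≤ B + 2 → ∀ x, ‖iteratedDeriv j F x‖ ≤ K) →
    ∃ f : ℝ → ℂ, Continuous f ∧ Integrable (fun ξ : ℝ => ‖f ξ‖ * (1 + |ξ|) ^ B) ∧
      ∫ ξ : ℝ, ‖f ξ‖ * (1 + |ξ|) ^ B ≤ C * K ∧
      ∀ x, F x = ∫ ξ : ℝ, f ξ * Complex.exp ((ξ : ℂ) * x * I) := by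
  refine ⟨2 ^ (B + 3) * Real.pi, by positivity, ?_⟩
  intro F K hF h0 h1 hK hK'
  have hpi : (0 : ℝ) < 2 * Real.pi := by positivity
  have hFc : Continuous F := hF.continuous
  have hFi : Integrable F := by
    have := MoB1_int F hF h0 h1 0
    simpa using this
  have hcont : Continuous (𝓕 F) := by
    exact VectorFourier.fourierIntegral_continuous Real.continuous_fourierChar
      (by exact (innerSL ℝ (E := ℝ)).continuous₂) hFi
  have hnorm := fun (j : ℕ) (hj : j ≤ B + 2) (w : ℝ) => MoB1_norm F K hF h0 h1 j (hK' j hj) w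
  set f : ℝ → ℂ := fun ξ => (1 / (2 * Real.pi) : ℂ) * 𝓕 F (ξ / (2 * Real.pi)) with hf
  have hfc : Continuous f := by
    rw [hf]
    exact continuous_const.mul (hcont.comp (by fun_prop))
  have hnf : ∀ (j : ℕ), j ≤ B + 2 → ∀ ξ : ℝ, |ξ| ^ j * ‖f ξ‖ ≤ K := by
    intro j hj ξ
    have h := hnorm j hj (ξ / (2 * Real.pi))
    have e : 2 * Real.pi * (ξ / (2 * Real.pi)) = ξ := by field_simp
    rw [e] at h
    have e2 : ‖f ξ‖ = 1 / (2 * Real.pi) * ‖𝓕 F (ξ / (2 * Real.pi))‖ := by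
      rw [hf]
      simp only [norm_mul]
      congr 1
      rw [norm_div, norm_one, norm_mul, Complex.norm_ofNat, Complex.norm_real, Real.norm_of_nonneg Real.pi_pos.le]
    rw [e2]
    have h3 : 1 / (2 * Real.pi) ≤ 1 / 6 := by
      apply one_div_le_one_div_of_le (by norm_num)
      have := Real.pi_gt_three
      linarith
    calc |ξ| ^ j * (1 / (2 * Real.pi) * ‖𝓕 F (ξ / (2 * Real.pi))‖)
        = 1 / (2 * Real.pi) * (|ξ| ^ j * ‖𝓕 F (ξ / (2 * Real.pi))‖) := by ring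
      _ ≤ 1 / 6 * (17 / 16 * K) := by
        refine mul_le_mul h3 h (by positivity) (by norm_num)
      _ ≤ K := by nlinarith
  have hbound : ∀ ξ : ℝ, ‖f ξ‖ * (1 + |ξ|) ^ B ≤ 2 ^ (B + 3) * K * (1 + ξ ^ 2)⁻¹ := by
    intro ξ
    have hx : 0 ≤ |ξ| := abs_nonneg ξ
    have ha : (1 + |ξ|) ^ (B + 2) ≤ 2 ^ (B + 2 - 1) * (1 ^ (B + 2) + |ξ| ^ (B + 2)) :=
      add_pow_le (by norm_num) hx (B + 2)
    have hb := hnf 0 (by omega) ξ
    have hc := hnf (B + 2) le_rfl ξ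
    rw [pow_zero, one_mul] at hb
    have hd : ‖f ξ‖ * (1 + |ξ|) ^ (B + 2) ≤ 2 ^ (B + 3) * K := by
      calc ‖f ξ‖ * (1 + |ξ|) ^ (B + 2) ≤ ‖f ξ‖ * (2 ^ (B + 2 - 1) * (1 ^ (B + 2) + |ξ| ^ (B + 2))) := by
            gcongr
        _ = 2 ^ (B + 1) * (‖f ξ‖ + |ξ| ^ (B + 2) * ‖f ξ‖) := by
            rw [one_pow]
            have : B + 2 - 1 = B + 1 := by omega
            rw [this]; ring
        _ ≤ 2 ^ (B + 1) * (K + K) := by gcongr
        _ = 2 ^ (B + 2) * K := by ring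
        _ ≤ 2 ^ (B + 3) * K := by
            gcongr
            · norm_num
            · omega
    have he : 1 + ξ ^ 2 ≤ (1 + |ξ|) ^ 2 := by
      have : ξ ^ 2 = |ξ| ^ 2 := (sq_abs ξ).symm
      rw [this]; nlinarith
    rw [← div_eq_mul_inv, le_div_iff₀ (by positivity)]
    calc ‖f ξ‖ * (1 + |ξ|) ^ B * (1 + ξ ^ 2) ≤ ‖f ξ‖ * (1 + |ξ|) ^ B * (1 + |ξ|) ^ 2 := by gcongr
      _ = ‖f ξ‖ * (1 + |ξ|) ^ (B + 2) := by ring
      _ ≤ _ := hd
  have hgi : Integrable (fun ξ : ℝ => 2 ^ (B + 3) * K * (1 + ξ ^ 2)⁻¹) := integrable_inv_one_add_sq.const_mul _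
  have hint : Integrable (fun ξ : ℝ => ‖f ξ‖ * (1 + |ξ|) ^ B) := by
    refine hgi.mono' ?_ ?_
    · exact (by fun_prop : Continuous (fun ξ : ℝ => ‖f ξ‖ * (1 + |ξ|) ^ B)).aestronglyMeasurable
    · refine Filter.Eventually.of_forall ?_
      intro ξ
      rw [Real.norm_of_nonneg (by positivity)]
      exact hbound ξ
  refine ⟨f, hfc, hint, ?_, ?_⟩
  · calc ∫ ξ : ℝ, ‖f ξ‖ * (1 + |ξ|) ^ B ≤ ∫ ξ : ℝ, 2 ^ (B + 3) * K * (1 + ξ ^ 2)⁻¹ := integral_mono hint hgi hbound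
      _ = 2 ^ (B + 3) * K * Real.pi := by rw [integral_const_mul, integral_univ_inv_one_add_sq]
      _ = _ := by ring
  · intro x
    have hfi : Integrable f := by
      refine hint.mono hfc.aestronglyMeasurable ?_
      refine Filter.Eventually.of_forall ?_
      intro ξ
      rw [Real.norm_of_nonneg (by positivity : 0 ≤ ‖f ξ‖ * (1 + |ξ|) ^ B)]
      have : (1 : ℝ) ≤ (1 + |ξ|) ^ B := one_le_pow₀ (by linarith [abs_nonneg ξ])
      exact le_mul_of_one_le_right (norm_nonneg _) this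
    have hFi' : Integrable (𝓕 F) := by
      have h2 : Integrable (fun ξ : ℝ => f (ξ * (2 * Real.pi))) := hfi.comp_mul_right' hpi.ne'
      have h3 : Integrable (fun ξ : ℝ => (2 * Real.pi : ℂ) * f (ξ * (2 * Real.pi))) := h2.const_mul _
      refine h3.congr ?_
      refine Filter.Eventually.of_forall ?_
      intro ξ
      simp only [hf]
      rw [← mul_assoc]
      have : (2 * Real.pi : ℂ) * (1 / (2 * Real.pi)) = 1 := by
        field_simp
      rw [this, one_mul]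
      congr 1
      field_simp
    have hinv := Continuous.fourierInv_fourier_eq hFc hFi hFi'
    have h4 : F x = ∫ w : ℝ, Complex.exp (↑(2 * Real.pi * inner ℝ w x) * I) • 𝓕 F w := by
      have h5 := congrFun hinv x
      rw [Real.fourierInv_eq'] at h5
      exact h5.symm
    rw [h4]
    have h6 := Measure.integral_comp_div (fun w : ℝ => Complex.exp (↑(2 * Real.pi * inner ℝ w x) * I) • 𝓕 F w)
      (2 * Real.pi)
    rw [abs_of_pos hpi] at h6
    have h7 : ∫ w : ℝ, Complex.exp (↑(2 * Real.pi * inner ℝ w x) * I) • 𝓕 F w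
        = (1 / (2 * Real.pi) : ℝ) • ∫ ξ : ℝ, Complex.exp (↑(2 * Real.pi * inner ℝ (ξ / (2 * Real.pi)) x) * I)
            • 𝓕 F (ξ / (2 * Real.pi)) := by
      rw [h6, smul_smul]
      have : 1 / (2 * Real.pi) * (2 * Real.pi) = 1 := by field_simp
      rw [this, one_smul]
    rw [h7, ← integral_smul]
    congr 1
    ext ξ
    simp only [hf, smul_eq_mul, Complex.real_smul]
    have e8 : (2 * Real.pi * inner ℝ (ξ / (2 * Real.pi)) x : ℝ) = ξ * x := by
      simp only [RCLike.inner_apply, conj_trivial]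
      field_simp
    rw [e8]
    push_cast
    ring

end Pool.Agent.SO
end

section

set_option autoImplicit false

namespace Pool.Agent.SO

open Finset Complex MeasureTheory
open scoped ContDiff

lemma MoB2_zero (P : ℝ → ℝ) (h0 : ∀ x, x < -(1 / 16) → P x = 0) (h1 : ∀ x, 1 < x → P x = 0) (j : ℕ) (x : ℝ)
    (hx : x ∉ Set.Icc (-(1 / 16) : ℝ) 1) : iteratedDeriv j P x = 0 := by
  have hx' : x < -(1 / 16) ∨ 1 < x := by
    by_contra hcon
    push Not at hcon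
    exact hx ⟨hcon.1, hcon.2⟩
  have he : P =ᶠ[nhds x] (fun _ => (0 : ℝ)) := by
    rcases hx' with h | h
    · filter_upwards [Iio_mem_nhds h] with y hy using h0 y hy
    · filter_upwards [Ioi_mem_nhds h] with y hy using h1 y hy
  rw [he.iteratedDeriv_eq]
  simp

lemma MoB2_bdd (P : ℝ → ℝ) (hP : ContDiff ℝ ∞ P) (h0 : ∀ x, x < -(1 / 16) → P x = 0)
    (h1 : ∀ x, 1 < x → P x = 0) (J : ℕ) : ∃ K : ℝ, 0 ≤ K ∧ ∀ j, j ≤ J → ∀ x, |iteratedDeriv j P x| ≤ K := by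
  have hone : ∀ j : ℕ, ∃ K : ℝ, 0 ≤ K ∧ ∀ x, |iteratedDeriv j P x| ≤ K := by
    intro j
    have hc : Continuous (iteratedDeriv j P) := hP.continuous_iteratedDeriv j (by exact_mod_cast le_top)
    obtain ⟨K, hK⟩ := (isCompact_Icc (a := (-(1 / 16) : ℝ)) (b := 1)).exists_bound_of_continuousOn hc.continuousOn
    refine ⟨max K 0, le_max_right _ _, ?_⟩
    intro x
    by_cases hx : x ∈ Set.Icc (-(1 / 16) : ℝ) 1
    · exact (hK x hx).trans (le_max_left _ _)
    · rw [MoB2_zero P h0 h1 j x hx, abs_zero]; exact le_max_right _ _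
  choose K hK0 hK using hone
  refine ⟨∑ i ∈ range (J + 1), K i, Finset.sum_nonneg (fun i _ => hK0 i), ?_⟩
  intro j hj x
  refine (hK j x).trans ?_
  exact Finset.single_le_sum (f := K) (fun i _ => hK0 i) (Finset.mem_range.mpr (by omega))

/-- MoB2. Derivatives of `P(x) e^{(1-b)x}`, uniformly in `b ≥ 0`. -/
lemma exp_weight (P : ℝ → ℝ) (hP : ContDiff ℝ ∞ P) (h0 : ∀ x, x < -(1 / 16) → P x = 0)
    (h1 : ∀ x, 1 < x → P x = 0) (J : ℕ) : ∃ C : ℝ, 0 ≤ C ∧ ∀ b : ℝ, 0 ≤ b → ∀ j, j ≤ J → ∀ x : ℝ,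
    ‖iteratedDeriv j (fun x : ℝ => ((P x : ℝ) : ℂ) * Complex.exp (((1 - b) * x : ℝ) : ℂ)) x‖
      ≤ C * (1 + b) ^ J * Real.exp (b / 16) := by
  obtain ⟨K, hK0, hK⟩ := MoB2_bdd P hP h0 h1 J
  refine ⟨2 ^ J * K * Real.exp 1, by positivity, ?_⟩
  intro b hb j hj x
  set G : ℝ → ℝ := fun x => P x * Real.exp ((1 - b) * x) with hG
  have hGc : ContDiff ℝ ∞ G := hP.mul (Real.contDiff_exp.comp (contDiff_const.mul contDiff_id))
  have e1 : (fun x : ℝ => ((P x : ℝ) : ℂ) * Complex.exp (((1 - b) * x : ℝ) : ℂ)) = Complex.ofRealLI ∘ G := by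
    ext y
    simp only [hG, Function.comp_apply, Complex.ofRealLI_apply]
    push_cast
    ring
  rw [e1, ← norm_iteratedFDeriv_eq_norm_iteratedDeriv,
    LinearIsometry.norm_iteratedFDeriv_comp_left Complex.ofRealLI (n := ∞) hGc.contDiffAt (by exact_mod_cast le_top),
    norm_iteratedFDeriv_eq_norm_iteratedDeriv]
  have hG0 : ∀ y, y < -(1 / 16) → G y = 0 := fun y hy => by simp only [hG, h0 y hy, zero_mul]
  have hG1 : ∀ y, 1 < y → G y = 0 := fun y hy => by simp only [hG, h1 y hy, zero_mul]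
  by_cases hx : x ∈ Set.Icc (-(1 / 16) : ℝ) 1
  · have hj' : ContDiffAt ℝ j P x := (hP.of_le (by exact_mod_cast le_top)).contDiffAt
    have hj'' : ContDiffAt ℝ j (fun x : ℝ => Real.exp ((1 - b) * x)) x := by
      have : ContDiff ℝ j (fun x : ℝ => Real.exp ((1 - b) * x)) :=
        Real.contDiff_exp.comp (contDiff_const.mul contDiff_id)
      exact this.contDiffAt
    have e2 : iteratedDeriv j G x = ∑ i ∈ range (j + 1), (j.choose i : ℝ) * iteratedDeriv i P x *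
        iteratedDeriv (j - i) (fun x : ℝ => Real.exp ((1 - b) * x)) x := by
      have := iteratedDeriv_mul hj' hj''
      exact this
    rw [e2]
    have hexp : Real.exp ((1 - b) * x) ≤ Real.exp 1 * Real.exp (b / 16) := by
      rw [← Real.exp_add]
      apply Real.exp_le_exp.mpr
      nlinarith [hx.1, hx.2, mul_nonneg hb (by linarith [hx.1] : (0 : ℝ) ≤ x + 1 / 16)]
    have h1b : |1 - b| ≤ 1 + b := by
      rw [abs_le]; constructor <;> linarith
    refine (norm_sum_le _ _).trans ?_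
    calc ∑ i ∈ range (j + 1), ‖(j.choose i : ℝ) * iteratedDeriv i P x *
          iteratedDeriv (j - i) (fun x : ℝ => Real.exp ((1 - b) * x)) x‖
        ≤ ∑ i ∈ range (j + 1), (j.choose i : ℝ) * (K * ((1 + b) ^ J * (Real.exp 1 * Real.exp (b / 16)))) := by
          refine Finset.sum_le_sum ?_
          intro i hi
          have hi' : i ≤ j := by have := Finset.mem_range.mp hi; omega
          rw [iteratedDeriv_exp_const_mul, norm_mul, norm_mul, mul_assoc]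
          have e3 : ‖((j.choose i : ℕ) : ℝ)‖ = (j.choose i : ℝ) := by simp
          rw [e3]
          refine mul_le_mul_of_nonneg_left ?_ (by positivity)
          refine mul_le_mul (hK i (by omega) x) ?_ (norm_nonneg _) hK0
          rw [norm_mul, norm_pow, Real.norm_eq_abs, Real.norm_of_nonneg (Real.exp_pos _).le]
          refine mul_le_mul ?_ hexp (Real.exp_pos _).le (by positivity)
          calc |1 - b| ^ (j - i) ≤ (1 + b) ^ (j - i) := by gcongr
            _ ≤ (1 + b) ^ J := pow_le_pow_right₀ (by linarith) (by omega)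
      _ = (2 : ℝ) ^ j * (K * ((1 + b) ^ J * (Real.exp 1 * Real.exp (b / 16)))) := by
          rw [← Finset.sum_mul]
          congr 1
          exact_mod_cast Nat.sum_range_choose j
      _ ≤ (2 : ℝ) ^ J * (K * ((1 + b) ^ J * (Real.exp 1 * Real.exp (b / 16)))) := by
          gcongr
          norm_num
      _ = _ := by ring
  · rw [MoB2_zero G hG0 hG1 j x hx, norm_zero]
    positivity

end Pool.Agent.SO
end

section

set_option autoImplicit false

namespace Pool.Agent.SO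

open Finset Complex

lemma MoA5_prod {n : ℕ} (s : ℂ) (hn : n ≠ 0) :
    ∑ d ∈ n.divisors, (ArithmeticFunction.moebius d : ℂ) * (d : ℂ) ^ s =
      ∏ p ∈ n.primeFactors, (1 - (p : ℂ) ^ s) := by
  classical
  set g : ArithmeticFunction ℂ := ⟨fun d => if d = 0 then 0 else (d : ℂ) ^ s, by simp⟩ with hg
  have hgm : g.IsMultiplicative := by
    rw [ArithmeticFunction.IsMultiplicative.iff_ne_zero]
    refine ⟨by simp [hg], ?_⟩
    intro m n hm hn _
    have hmn : m * n ≠ 0 := mul_ne_zero hm hn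
    simp only [hg, ArithmeticFunction.coe_mk, hm, hn, hmn, if_false]
    rw [Nat.cast_mul, Complex.natCast_mul_natCast_cpow]
  have hF : (((ArithmeticFunction.moebius : ArithmeticFunction ℂ).pmul g) *
      (ArithmeticFunction.zeta : ArithmeticFunction ℂ)).IsMultiplicative :=
    (ArithmeticFunction.isMultiplicative_moebius.intCast.pmul hgm).mul
      ArithmeticFunction.isMultiplicative_zeta.natCast
  have hG : (ArithmeticFunction.prodPrimeFactors
      (fun p : ℕ => (1 - (p : ℂ) ^ s))).IsMultiplicative :=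
    ArithmeticFunction.IsMultiplicative.prodPrimeFactors _
  have hFG := (ArithmeticFunction.IsMultiplicative.eq_iff_eq_on_prime_powers _ hF _ hG).2 ?_
  · have h1 := congrArg (fun f : ArithmeticFunction ℂ => f n) hFG
    simp only [ArithmeticFunction.coe_mul_zeta_apply, ArithmeticFunction.prodPrimeFactors_apply hn,
      ArithmeticFunction.pmul_apply] at h1
    rw [← h1]
    refine Finset.sum_congr rfl fun d hd => ?_
    have hd0 : d ≠ 0 := by
      rintro rfl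
      exact hn (Nat.eq_zero_of_zero_dvd (Nat.dvd_of_mem_divisors hd))
    simp [hg, hd0]
  · intro p i hp
    rw [ArithmeticFunction.coe_mul_zeta_apply, Nat.sum_divisors_prime_pow hp,
      ArithmeticFunction.prodPrimeFactors_apply (pow_ne_zero _ hp.ne_zero)]
    rcases Nat.eq_zero_or_pos i with h0 | h0
    · subst h0
      rw [zero_add, Finset.sum_range_one, pow_zero, Nat.primeFactors_one, Finset.prod_empty,
        ArithmeticFunction.pmul_apply, ArithmeticFunction.intCoe_apply,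
        ArithmeticFunction.moebius_apply_one]
      simp [hg]
    · obtain ⟨i, rfl⟩ : ∃ k, i = k + 1 := ⟨i - 1, by omega⟩
      rw [Finset.sum_range_succ', Finset.sum_range_succ']
      have hz : ∑ k ∈ Finset.range i,
          (((ArithmeticFunction.moebius : ArithmeticFunction ℂ).pmul g) (p ^ (k + 1 + 1))) = 0 := by
        refine Finset.sum_eq_zero fun k _ => ?_
        rw [ArithmeticFunction.pmul_apply, ArithmeticFunction.intCoe_apply,
          ArithmeticFunction.moebius_apply_prime_pow hp (by omega)]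
        simp
      rw [hz, Nat.primeFactors_prime_pow (by omega) hp, Finset.prod_singleton]
      simp only [ArithmeticFunction.pmul_apply, ArithmeticFunction.intCoe_apply]
      rw [zero_add, pow_one, pow_zero, ArithmeticFunction.moebius_apply_prime hp,
        ArithmeticFunction.moebius_apply_one]
      simp only [hg, ArithmeticFunction.coe_mk, hp.ne_zero, if_false, one_ne_zero]
      simp
      ring

/-- MoA5. `|∑_{d ∣ n} μ(d) d^{iα} (n/d)^{iβ}| = ∏_{p ∣ n} |1 - p^{-i(β-α)}|` for `n ≥ 1`, `α`, `β` real.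
PROOF. `(n/d)^{iβ} = n^{iβ} d^{-iβ}` (positive integers: `Complex.natCast_mul_natCast_cpow` or via `exp (iβ log)`), so the sum
is `n^{iβ} ∑_{d ∣ n} μ(d) d^{i(α-β)} = n^{iβ} ∏_{p ∣ n} (1 - p^{i(α-β)})`: for the completely multiplicative (on
positive integers) function `d ↦ d^{iγ}`: `∑_{d∣n} μ(d) g(d) = ∏_{p∣n} (1 - g(p))`
(`ArithmeticFunction.IsMultiplicative.prodPrimeFactors_one_sub_of_squarefree`-type statement, or
`Nat.sum_divisors_..`: only squarefree `d` count, they are the products of subsets of `n.primeFactors`;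
`Finset.prod_one_sub...`/`Finset.prod_sub`). `|n^{iβ}| = 1`. -/
lemma moebius_twist (n : ℕ) (hn : 1 ≤ n) (α β : ℝ) :
    ‖∑ d ∈ n.divisors, (ArithmeticFunction.moebius d : ℂ) * (d : ℂ) ^ ((α : ℂ) * I) *
        ((n / d : ℕ) : ℂ) ^ ((β : ℂ) * I)‖
      = ∏ p ∈ n.primeFactors, ‖1 - (p : ℂ) ^ (-(((β - α : ℝ) : ℂ) * I))‖ := by
  have hn0 : n ≠ 0 := by omega
  have hnC : (n : ℂ) ≠ 0 := by exact_mod_cast hn0
  have h1 : ∑ d ∈ n.divisors, (ArithmeticFunction.moebius d : ℂ) * (d : ℂ) ^ ((α : ℂ) * I) *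
      ((n / d : ℕ) : ℂ) ^ ((β : ℂ) * I) = (n : ℂ) ^ ((β : ℂ) * I) *
        ∑ d ∈ n.divisors, (ArithmeticFunction.moebius d : ℂ) *
          (d : ℂ) ^ (-(((β - α : ℝ) : ℂ) * I)) := by
    rw [Finset.mul_sum]
    refine Finset.sum_congr rfl fun d hd => ?_
    have hdn : d ∣ n := Nat.dvd_of_mem_divisors hd
    have hd0 : d ≠ 0 := by
      rintro rfl
      exact hn0 (Nat.eq_zero_of_zero_dvd hdn)
    have hdC : (d : ℂ) ≠ 0 := by exact_mod_cast hd0
    have e1 : (n : ℂ) ^ ((β : ℂ) * I) =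
        (d : ℂ) ^ ((β : ℂ) * I) * ((n / d : ℕ) : ℂ) ^ ((β : ℂ) * I) := by
      rw [← Complex.natCast_mul_natCast_cpow]
      congr 1
      rw [← Nat.cast_mul, Nat.mul_div_cancel' hdn]
    have e2 : (d : ℂ) ^ ((α : ℂ) * I) =
        (d : ℂ) ^ ((β : ℂ) * I) * (d : ℂ) ^ (-(((β - α : ℝ) : ℂ) * I)) := by
      rw [← Complex.cpow_add _ _ hdC]
      congr 1
      push_cast
      ring
    rw [e1, e2]
    ring
  rw [h1, norm_mul, MoA5_prod _ hn0, norm_prod]
  have h2 : ‖(n : ℂ) ^ ((β : ℂ) * I)‖ = 1 := by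
    rw [Complex.norm_natCast_cpow_of_pos (by omega)]
    simp
  rw [h2, one_mul]

end Pool.Agent.SO
end

section

set_option autoImplicit false

namespace Pool.Agent.SO

open Finset Complex MeasureTheory
open scoped ContDiff

lemma MoB3a_cpow (d : ℕ) (hd : 1 ≤ d) (z : ℂ) : (d : ℂ) ^ z = Complex.exp ((Real.log d : ℂ) * z) := by
  have hd0 : (d : ℂ) ≠ 0 := by exact_mod_cast (by omega : d ≠ 0)
  rw [Complex.cpow_def_of_ne_zero hd0, Complex.natCast_log]

lemma MoB3a_one (P : ℝ → ℝ) (l b t0 : ℝ) (hl : 0 < l) (p : ℝ → ℂ)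
    (hP : ∀ x : ℝ, ((P x : ℝ) : ℂ) * Complex.exp (((1 - b) * x : ℝ) : ℂ)
      = ∫ ξ : ℝ, p ξ * Complex.exp ((ξ : ℂ) * x * I)) (d : ℕ) (hd : 1 ≤ d) :
    ((P (Real.log d / l) : ℝ) : ℂ) * (d : ℂ) ^ (-(((b / l : ℝ) : ℂ) + (t0 : ℂ) * I))
      = ((Real.exp (-(Real.log d / l)) : ℝ) : ℂ) * ∫ ξ : ℝ, p ξ * (d : ℂ) ^ (((ξ / l - t0 : ℝ) : ℂ) * I) := by
  have hl' : (l : ℂ) ≠ 0 := by exact_mod_cast hl.ne'
  have e1 : (fun ξ : ℝ => p ξ * (d : ℂ) ^ (((ξ / l - t0 : ℝ) : ℂ) * I))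
      = fun ξ : ℝ => (p ξ * Complex.exp ((ξ : ℂ) * ((Real.log d / l : ℝ) : ℂ) * I)) *
          Complex.exp (-((t0 : ℂ) * (Real.log d : ℂ) * I)) := by
    ext ξ
    rw [MoB3a_cpow d hd, mul_assoc, ← Complex.exp_add]
    generalize Real.log (d : ℝ) = Lg
    congr 2
    push_cast
    field_simp
    ring
  rw [e1, integral_mul_const, ← hP, MoB3a_cpow d hd]
  generalize Real.log (d : ℝ) = Lg
  push_cast
  have e2 : Complex.exp (-((Lg : ℂ) / l)) * (((P (Lg / l) : ℝ) : ℂ) *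
      Complex.exp ((1 - (b : ℂ)) * ((Lg : ℂ) / l)) * Complex.exp (-((t0 : ℂ) * (Lg : ℂ) * I)))
      = ((P (Lg / l) : ℝ) : ℂ) * (Complex.exp (-((Lg : ℂ) / l)) *
      Complex.exp ((1 - (b : ℂ)) * ((Lg : ℂ) / l)) * Complex.exp (-((t0 : ℂ) * (Lg : ℂ) * I))) := by
    ring
  rw [e2, ← Complex.exp_add, ← Complex.exp_add]
  congr 2
  field_simp
  ring

/-- MoB3a (integral representation of the coefficient). -/
lemma aco_repr (P V : ℝ → ℝ) (l a b t t0 : ℝ) (hl : 0 < l) (p v : ℝ → ℂ) (hp : Continuous p) (hv : Continuous v)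
    (hpi : Integrable p) (hvi : Integrable v)
    (hP : ∀ x : ℝ, ((P x : ℝ) : ℂ) * Complex.exp (((1 - b) * x : ℝ) : ℂ)
      = ∫ ξ : ℝ, p ξ * Complex.exp ((ξ : ℂ) * x * I))
    (hV : ∀ x : ℝ, ((V x : ℝ) : ℂ) * Complex.exp (((1 - a) * x : ℝ) : ℂ)
      = ∫ η : ℝ, v η * Complex.exp ((η : ℂ) * x * I))
    (n : ℕ) (hn : 1 ≤ n) :
    ‖aco P V l a b t t0 n‖ ≤ (n : ℝ) ^ (-(1 / l)) * ∫ z : ℝ × ℝ, ‖p z.1‖ * ‖v z.2‖ *
      ∏ q ∈ n.primeFactors, ‖1 - (q : ℂ) ^ (-((((z.2 - z.1) / l - (t - t0) : ℝ) : ℂ) * I))‖ := by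
  have hnpos : (0 : ℝ) < n := by exact_mod_cast hn
  set F : ℕ → ℝ × ℝ → ℂ := fun d z => (p z.1 * (d : ℂ) ^ (((z.1 / l - t0 : ℝ) : ℂ) * I)) *
    (v z.2 * ((n / d : ℕ) : ℂ) ^ (((z.2 / l - t : ℝ) : ℂ) * I)) with hF
  have hnorm1 : ∀ (d : ℕ) (y : ℝ), 1 ≤ d → ‖(d : ℂ) ^ ((y : ℂ) * I)‖ = 1 := by
    intro d y hd
    rw [MoB3a_cpow d hd, Complex.norm_exp]
    generalize Real.log (d : ℝ) = Lg
    simp
  have hcont1 : ∀ (d : ℕ) (s : ℝ), 1 ≤ d → Continuous (fun y : ℝ => (d : ℂ) ^ (((y / l - s : ℝ) : ℂ) * I)) := by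
    intro d s hd
    have : (fun y : ℝ => (d : ℂ) ^ (((y / l - s : ℝ) : ℂ) * I))
        = fun y : ℝ => Complex.exp ((Real.log d : ℂ) * (((y / l - s : ℝ) : ℂ) * I)) := by
      ext y; exact MoB3a_cpow d hd _
    rw [this]
    fun_prop
  have hint1 : ∀ (g : ℝ → ℂ) (d : ℕ) (s : ℝ), 1 ≤ d → Continuous g → Integrable g →
      Integrable (fun y : ℝ => g y * (d : ℂ) ^ (((y / l - s : ℝ) : ℂ) * I)) := by
    intro g d s hd hg hgi
    refine hgi.mono (hg.mul (hcont1 d s hd)).aestronglyMeasurable ?_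
    refine Filter.Eventually.of_forall ?_
    intro y
    rw [norm_mul, hnorm1 d _ hd, mul_one]
  have hdiv : ∀ d ∈ n.divisors, 1 ≤ d ∧ 1 ≤ n / d := by
    intro d hd
    have hdn := Nat.dvd_of_mem_divisors hd
    have hd0 : 0 < d := Nat.pos_of_mem_divisors hd
    exact ⟨hd0, Nat.div_pos (Nat.le_of_dvd (by omega) hdn) hd0⟩
  have hFi : ∀ d ∈ n.divisors, Integrable (F d) := by
    intro d hd
    obtain ⟨h1, h2⟩ := hdiv d hd
    exact (hint1 p d t0 h1 hp hpi).mul_prod (hint1 v (n / d) t h2 hv hvi)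
  have hterm : ∀ d ∈ n.divisors, (ArithmeticFunction.moebius d : ℂ) * (P (Real.log d / l) : ℂ) *
      (V (Real.log (n / d : ℕ) / l) : ℂ) * (d : ℂ) ^ (-((b / l : ℝ) + (t0 : ℂ) * I)) *
        ((n / d : ℕ) : ℂ) ^ (-((a / l : ℝ) + (t : ℂ) * I))
      = (((n : ℝ) ^ (-(1 / l)) : ℝ) : ℂ) * ∫ z : ℝ × ℝ, (ArithmeticFunction.moebius d : ℂ) * F d z := by
    intro d hd
    obtain ⟨h1, h2⟩ := hdiv d hd
    have hdn := Nat.dvd_of_mem_divisors hd
    have e1 := MoB3a_one P l b t0 hl p hP d h1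
    have e2 := MoB3a_one V l a t hl v hV (n / d) h2
    have e3 : ∫ z : ℝ × ℝ, F d z = (∫ ξ : ℝ, p ξ * (d : ℂ) ^ (((ξ / l - t0 : ℝ) : ℂ) * I)) *
        ∫ η : ℝ, v η * ((n / d : ℕ) : ℂ) ^ (((η / l - t : ℝ) : ℂ) * I) := by
      rw [hF]
      exact integral_prod_mul (fun ξ : ℝ => p ξ * (d : ℂ) ^ (((ξ / l - t0 : ℝ) : ℂ) * I))
        (fun η : ℝ => v η * ((n / d : ℕ) : ℂ) ^ (((η / l - t : ℝ) : ℂ) * I))
    rw [integral_const_mul, e3]
    have e4 : (n : ℝ) ^ (-(1 / l)) = Real.exp (-(Real.log d / l)) * Real.exp (-(Real.log ((n / d : ℕ) : ℝ) / l)) := by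
      rw [← Real.exp_add, Real.rpow_def_of_pos hnpos]
      congr 1
      have h5 : Real.log n = Real.log d + Real.log ((n / d : ℕ) : ℝ) := by
        rw [← Real.log_mul (by positivity) (by exact_mod_cast (by omega : n / d ≠ 0))]
        congr 1
        exact_mod_cast (Nat.mul_div_cancel' hdn).symm
      rw [h5]
      ring
    rw [e4]
    calc (ArithmeticFunction.moebius d : ℂ) * (P (Real.log d / l) : ℂ) *
      (V (Real.log (n / d : ℕ) / l) : ℂ) * (d : ℂ) ^ (-((b / l : ℝ) + (t0 : ℂ) * I)) *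
        ((n / d : ℕ) : ℂ) ^ (-((a / l : ℝ) + (t : ℂ) * I))
        = (ArithmeticFunction.moebius d : ℂ) *
          ((P (Real.log d / l) : ℂ) * (d : ℂ) ^ (-(((b / l : ℝ) : ℂ) + (t0 : ℂ) * I))) *
          ((V (Real.log (n / d : ℕ) / l) : ℂ) * ((n / d : ℕ) : ℂ) ^ (-(((a / l : ℝ) : ℂ) + (t : ℂ) * I))) := by
          ring
      _ = _ := by
          rw [e1, e2]
          push_cast
          ring
  have hsum : aco P V l a b t t0 n = (((n : ℝ) ^ (-(1 / l)) : ℝ) : ℂ) *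
      ∫ z : ℝ × ℝ, ∑ d ∈ n.divisors, (ArithmeticFunction.moebius d : ℂ) * F d z := by
    rw [integral_finsetSum _ (fun d hd => (hFi d hd).const_mul _), Finset.mul_sum]
    unfold aco
    exact Finset.sum_congr rfl hterm
  rw [hsum, norm_mul, Complex.norm_real, Real.norm_of_nonneg (by positivity)]
  refine mul_le_mul_of_nonneg_left ?_ (by positivity)
  refine (norm_integral_le_integral_norm _).trans ?_
  refine le_of_eq ?_
  congr 1
  ext z
  have e5 : ∑ d ∈ n.divisors, (ArithmeticFunction.moebius d : ℂ) * F d z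
      = (p z.1 * v z.2) * ∑ d ∈ n.divisors, (ArithmeticFunction.moebius d : ℂ) *
        (d : ℂ) ^ (((z.1 / l - t0 : ℝ) : ℂ) * I) * ((n / d : ℕ) : ℂ) ^ (((z.2 / l - t : ℝ) : ℂ) * I) := by
    rw [Finset.mul_sum]
    refine Finset.sum_congr rfl ?_
    intro d _
    simp only [hF]
    ring
  rw [e5, norm_mul, norm_mul, moebius_twist n hn (z.1 / l - t0) (z.2 / l - t)]
  congr 1
  refine Finset.prod_congr rfl ?_
  intro q _
  have e6 : (z.2 / l - t) - (z.1 / l - t0) = (z.2 - z.1) / l - (t - t0) := by ring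
  rw [e6]

end Pool.Agent.SO
end

section

set_option autoImplicit false

namespace Pool.Agent.SO

open Finset Complex MeasureTheory
open scoped ContDiff

/-- Cauchy-Schwarz with a weight -/
lemma MoB3b_cs {w D : ℝ × ℝ → ℝ} (hw0 : ∀ z, 0 ≤ w z) (hw : Integrable w)
    (hwD : Integrable (fun z => w z * D z)) (hwD2 : Integrable (fun z => w z * D z ^ 2)) :
    (∫ z, w z * D z) ^ 2 ≤ (∫ z, w z) * ∫ z, w z * D z ^ 2 := by
  have h := discrim_le_zero (a := ∫ z, w z) (b := -2 * ∫ z, w z * D z)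
    (c := ∫ z, w z * D z ^ 2) (by
    intro x
    have e : (∫ z, w z) * (x * x) + (-2 * ∫ z, w z * D z) * x + ∫ z, w z * D z ^ 2 =
        ∫ z, w z * (D z - x) ^ 2 := by
      have e1 : (fun z => w z * (D z - x) ^ 2) =
          fun z => (w z * (x * x) + (w z * D z) * (-2 * x)) + w z * D z ^ 2 := by
        funext z; ring
      have i1 : Integrable (fun z => w z * (x * x)) := hw.mul_const _
      have i2 : Integrable (fun z => (w z * D z) * (-2 * x)) := hwD.mul_const _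
      have i3 : Integrable (fun z => w z * (x * x) + (w z * D z) * (-2 * x)) := i1.add i2
      rw [e1, integral_add i3 hwD2, integral_add i1 i2, integral_mul_const, integral_mul_const]
      ring
    rw [e]
    exact integral_nonneg fun z => mul_nonneg (hw0 z) (sq_nonneg _))
  unfold discrim at h
  nlinarith

/-- the factor `|1 - q^{-iτ}|` is at most `2` -/
lemma MoB3b_two (q : ℕ) (hq : 0 < q) (τ : ℝ) : ‖1 - (q : ℂ) ^ (-((τ : ℂ) * I))‖ ≤ 2 := by
  have h1 : ‖(q : ℂ) ^ (-((τ : ℂ) * I))‖ = 1 := by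
    rw [Complex.norm_natCast_cpow_of_pos hq]
    simp
  calc ‖1 - (q : ℂ) ^ (-((τ : ℂ) * I))‖ ≤ ‖(1 : ℂ)‖ + ‖(q : ℂ) ^ (-((τ : ℂ) * I))‖ :=
        norm_sub_le _ _
    _ = 2 := by rw [h1, norm_one]; norm_num

/-- MoB3b (Cauchy-Schwarz and the Euler product bound). `hE` is the conclusion of `euler_bound`.
PROOF. `D_n(z) = ∏ ‖..‖ ∈ [0, 2^n]`, continuous in `z`; `w(z) = f(z.1) g(z.2)` integrable. Cauchy-Schwarz
`(∫ w D_n)² ≤ (∫ w) ∫ w D_n²`. So the left side is `≤ (∫ w) ∫ w(z) ∑_{n ≤ N} n^{-1-2/l} D_n(z)² dz`, and by `hE` with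
`k = 2/l ≤ 1`, `τ = (z.2 - z.1)/l - s` the inner sum is `≤ C (1 + |τ| l/2)^B ≤ C ((1+|z.1|)(1+|z.2|)(1+l|s|))^B`.
`∫ w = ∫f ∫g`, `∫ f ≤ ∫ f (1+|x|)^B`. -/
lemma double_cs (B : ℕ) (C : ℝ) (hC : 0 ≤ C) (hE : ∀ (τ k : ℝ) (N : ℕ), 0 < k → k ≤ 1 →
      ∑ n ∈ Icc 1 N, (n : ℝ) ^ (-1 - k) * ∏ p ∈ n.primeFactors, ‖1 - (p : ℂ) ^ (-((τ : ℂ) * I))‖ ^ 2
        ≤ C * (1 + |τ| / k) ^ B)
    (l s : ℝ) (hl : 2 ≤ l) (f g : ℝ → ℝ) (hf0 : ∀ x, 0 ≤ f x) (hg0 : ∀ x, 0 ≤ g x) (hf : Continuous f)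
    (hg : Continuous g) (hfi : Integrable (fun x : ℝ => f x * (1 + |x|) ^ B))
    (hgi : Integrable (fun x : ℝ => g x * (1 + |x|) ^ B)) (N : ℕ) :
    ∑ n ∈ Icc 1 N, ((n : ℝ) ^ (-(1 / l)) * ∫ z : ℝ × ℝ, f z.1 * g z.2 *
        ∏ q ∈ n.primeFactors, ‖1 - (q : ℂ) ^ (-((((z.2 - z.1) / l - s : ℝ) : ℂ) * I))‖) ^ 2 / n
      ≤ C * (1 + l * |s|) ^ B * (∫ x : ℝ, f x * (1 + |x|) ^ B) ^ 2 * (∫ x : ℝ, g x * (1 + |x|) ^ B) ^ 2 := by
  have hl0 : 0 < l := by linarith
  have h1x : ∀ x : ℝ, 1 ≤ (1 + |x|) ^ B := fun x => one_le_pow₀ (by linarith [abs_nonneg x])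
  -- integrability of `f` and `g`
  have hfi0 : Integrable f := by
    refine hfi.mono' hf.aestronglyMeasurable (Filter.Eventually.of_forall fun x => ?_)
    rw [Real.norm_of_nonneg (hf0 x)]
    exact le_mul_of_one_le_right (hf0 x) (h1x x)
  have hgi0 : Integrable g := by
    refine hgi.mono' hg.aestronglyMeasurable (Filter.Eventually.of_forall fun x => ?_)
    rw [Real.norm_of_nonneg (hg0 x)]
    exact le_mul_of_one_le_right (hg0 x) (h1x x)
  have hfle : ∫ x, f x ≤ ∫ x : ℝ, f x * (1 + |x|) ^ B :=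
    integral_mono hfi0 hfi fun x => le_mul_of_one_le_right (hf0 x) (h1x x)
  have hgle : ∫ x, g x ≤ ∫ x : ℝ, g x * (1 + |x|) ^ B :=
    integral_mono hgi0 hgi fun x => le_mul_of_one_le_right (hg0 x) (h1x x)
  set F : ℝ := ∫ x : ℝ, f x * (1 + |x|) ^ B with hF
  set G : ℝ := ∫ x : ℝ, g x * (1 + |x|) ^ B with hG
  have hF0 : 0 ≤ ∫ x, f x := integral_nonneg hf0
  have hG0 : 0 ≤ ∫ x, g x := integral_nonneg hg0
  -- the weight
  set w : ℝ × ℝ → ℝ := fun z => f z.1 * g z.2 with hw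
  have hw0 : ∀ z, 0 ≤ w z := fun z => mul_nonneg (hf0 _) (hg0 _)
  have hwi : Integrable w := Integrable.mul_prod hfi0 hgi0
  have hwc : Continuous w := (hf.comp continuous_fst).mul (hg.comp continuous_snd)
  have hwint : ∫ z, w z = (∫ x, f x) * ∫ x, g x := integral_prod_mul f g
  -- the products
  set D : ℕ → ℝ × ℝ → ℝ := fun n z =>
    ∏ q ∈ n.primeFactors, ‖1 - (q : ℂ) ^ (-((((z.2 - z.1) / l - s : ℝ) : ℂ) * I))‖ with hD
  have hDc : ∀ n, Continuous (D n) := by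
    intro n
    refine continuous_finsetProd _ fun q hq => ?_
    have hq0 : (q : ℂ) ≠ 0 := by
      exact_mod_cast (Nat.prime_of_mem_primeFactors hq).ne_zero
    refine (continuous_const.sub ?_).norm
    refine Continuous.const_cpow ?_ (Or.inl hq0)
    refine ((Complex.continuous_ofReal.comp ?_).mul continuous_const).neg
    exact ((continuous_snd.sub continuous_fst).div_const _).sub continuous_const
  have hD0 : ∀ n z, 0 ≤ D n z := fun n z => prod_nonneg fun q _ => norm_nonneg _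
  have hDb : ∀ n z, D n z ≤ 2 ^ n.primeFactors.card := by
    intro n z
    refine (prod_le_prod (fun _ _ => norm_nonneg _) fun q hq => ?_).trans_eq
      (prod_const (2 : ℝ))
    exact MoB3b_two q (Nat.prime_of_mem_primeFactors hq).pos _
  have hwD : ∀ n, Integrable (fun z => w z * D n z) := by
    intro n
    refine (hwi.mul_const (2 ^ n.primeFactors.card)).mono' (hwc.mul (hDc n)).aestronglyMeasurable
      (Filter.Eventually.of_forall fun z => ?_)
    rw [Real.norm_of_nonneg (mul_nonneg (hw0 z) (hD0 n z))]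
    exact mul_le_mul_of_nonneg_left (hDb n z) (hw0 z)
  have hwD2 : ∀ n, Integrable (fun z => w z * D n z ^ 2) := by
    intro n
    refine (hwi.mul_const ((2 ^ n.primeFactors.card) ^ 2)).mono'
      (hwc.mul ((hDc n).pow 2)).aestronglyMeasurable (Filter.Eventually.of_forall fun z => ?_)
    rw [Real.norm_of_nonneg (mul_nonneg (hw0 z) (sq_nonneg _))]
    exact mul_le_mul_of_nonneg_left (pow_le_pow_left₀ (hD0 n z) (hDb n z) 2) (hw0 z)
  -- each term
  have hterm : ∀ n ∈ Icc 1 N, ((n : ℝ) ^ (-(1 / l)) * ∫ z : ℝ × ℝ, w z * D n z) ^ 2 / n ≤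
      (∫ z, w z) * ∫ z, (w z * ((n : ℝ) ^ (-1 - 2 / l) * D n z ^ 2)) := by
    intro n hn
    have hn0 : (0 : ℝ) < n := by
      have := (mem_Icc.1 hn).1
      exact_mod_cast this
    have e1 : ((n : ℝ) ^ (-(1 / l))) ^ 2 / n = (n : ℝ) ^ (-1 - 2 / l) := by
      rw [← Real.rpow_natCast, ← Real.rpow_mul hn0.le, div_eq_mul_inv, ← Real.rpow_neg_one (n : ℝ),
        ← Real.rpow_add hn0]
      congr 1
      push_cast
      ring
    have e2 : ((n : ℝ) ^ (-(1 / l)) * ∫ z : ℝ × ℝ, w z * D n z) ^ 2 / n =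
        (n : ℝ) ^ (-1 - 2 / l) * (∫ z : ℝ × ℝ, w z * D n z) ^ 2 := by
      rw [← e1]; ring
    have e3 : ∫ z, (w z * ((n : ℝ) ^ (-1 - 2 / l) * D n z ^ 2)) =
        (n : ℝ) ^ (-1 - 2 / l) * ∫ z, w z * D n z ^ 2 := by
      rw [← integral_const_mul]
      congr 1
      funext z
      ring
    rw [e2, e3]
    have h2 := MoB3b_cs hw0 hwi (hwD n) (hwD2 n)
    calc (n : ℝ) ^ (-1 - 2 / l) * (∫ z : ℝ × ℝ, w z * D n z) ^ 2
        ≤ (n : ℝ) ^ (-1 - 2 / l) * ((∫ z, w z) * ∫ z, w z * D n z ^ 2) :=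
          mul_le_mul_of_nonneg_left h2 (Real.rpow_nonneg hn0.le _)
      _ = _ := by ring
  have hint : ∀ n : ℕ, Integrable (fun z => w z * ((n : ℝ) ^ (-1 - 2 / l) * D n z ^ 2)) := by
    intro n
    have := (hwD2 n).const_mul ((n : ℝ) ^ (-1 - 2 / l))
    refine this.congr (Filter.Eventually.of_forall fun z => ?_)
    dsimp only
    ring
  -- the pointwise bound
  have hpt : ∀ z : ℝ × ℝ, ∑ n ∈ Icc 1 N, (n : ℝ) ^ (-1 - 2 / l) * D n z ^ 2 ≤
      C * ((1 + |z.1|) * (1 + |z.2|) * (1 + l * |s|)) ^ B := by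
    intro z
    have h3 := hE ((z.2 - z.1) / l - s) (2 / l) N (by positivity) (by
      rw [div_le_one hl0]; exact hl)
    have h4 : ∀ n ∈ Icc 1 N, (n : ℝ) ^ (-1 - 2 / l) * D n z ^ 2 = (n : ℝ) ^ (-1 - 2 / l) *
        ∏ p ∈ n.primeFactors, ‖1 - (p : ℂ) ^ (-((((z.2 - z.1) / l - s : ℝ) : ℂ) * I))‖ ^ 2 := by
      intro n _
      rw [hD]
      dsimp only
      rw [prod_pow]
    rw [sum_congr rfl h4]
    refine h3.trans (mul_le_mul_of_nonneg_left (pow_le_pow_left₀ (by positivity) ?_ B) hC)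
    have h5 : |(z.2 - z.1) / l - s| ≤ (|z.2| + |z.1|) / l + |s| := by
      refine (abs_sub _ _).trans (add_le_add_left ?_ _)
      rw [abs_div, abs_of_pos hl0]
      exact div_le_div_of_nonneg_right (abs_sub _ _) hl0.le
    have h6 : |(z.2 - z.1) / l - s| / (2 / l) ≤ (|z.2| + |z.1|) / 2 + l * |s| / 2 := by
      rw [div_div_eq_mul_div, div_le_iff₀ (by norm_num : (0 : ℝ) < 2)]
      have h7 : |(z.2 - z.1) / l - s| * l ≤ ((|z.2| + |z.1|) / l + |s|) * l :=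
        mul_le_mul_of_nonneg_right h5 hl0.le
      have h8 : ((|z.2| + |z.1|) / l + |s|) * l = |z.2| + |z.1| + l * |s| := by
        field_simp
      linarith
    have a1 := abs_nonneg z.1
    have a2 := abs_nonneg z.2
    have a3 : 0 ≤ l * |s| := by positivity
    nlinarith [mul_nonneg a1 a2, mul_nonneg a1 a3, mul_nonneg a2 a3,
      mul_nonneg (mul_nonneg a1 a2) a3]
  have hmaj : Integrable (fun z : ℝ × ℝ =>
      w z * (C * ((1 + |z.1|) * (1 + |z.2|) * (1 + l * |s|)) ^ B)) := by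
    have h9 := (Integrable.mul_prod hfi hgi).const_mul (C * (1 + l * |s|) ^ B)
    refine h9.congr (Filter.Eventually.of_forall fun z => ?_)
    dsimp only
    rw [hw]
    dsimp only
    rw [mul_pow, mul_pow]
    ring
  have hmajint : ∫ z : ℝ × ℝ, w z * (C * ((1 + |z.1|) * (1 + |z.2|) * (1 + l * |s|)) ^ B) =
      C * (1 + l * |s|) ^ B * (F * G) := by
    rw [hF, hG, ← integral_prod_mul, ← integral_const_mul]
    congr 1
    funext z
    rw [hw]
    dsimp only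
    rw [mul_pow, mul_pow]
    ring
  have hF1 : 0 ≤ F := hF0.trans hfle
  have hG1 : 0 ≤ G := hG0.trans hgle
  calc ∑ n ∈ Icc 1 N, ((n : ℝ) ^ (-(1 / l)) * ∫ z : ℝ × ℝ, w z * D n z) ^ 2 / n
      ≤ ∑ n ∈ Icc 1 N, (∫ z, w z) * ∫ z, (w z * ((n : ℝ) ^ (-1 - 2 / l) * D n z ^ 2)) :=
        sum_le_sum hterm
    _ = (∫ z, w z) * ∫ z, w z * ∑ n ∈ Icc 1 N, (n : ℝ) ^ (-1 - 2 / l) * D n z ^ 2 := by
        rw [← mul_sum, ← integral_finsetSum _ (fun n _ => hint n)]
        congr 1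
        congr 1
        funext z
        rw [mul_sum]
    _ ≤ (∫ z, w z) * (C * (1 + l * |s|) ^ B * (F * G)) := by
        refine mul_le_mul_of_nonneg_left ?_ (integral_nonneg hw0)
        rw [← hmajint]
        refine integral_mono ?_ hmaj fun z => mul_le_mul_of_nonneg_left (hpt z) (hw0 z)
        have h10 := integrable_finsetSum (Icc 1 N) (fun n _ => hint n)
        refine h10.congr (Filter.Eventually.of_forall fun z => ?_)
        dsimp only
        rw [mul_sum]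
    _ ≤ (F * G) * (C * (1 + l * |s|) ^ B * (F * G)) := by
        refine mul_le_mul_of_nonneg_right ?_ (by positivity)
        rw [hwint]
        exact mul_le_mul hfle hgle hG0 hF1
    _ = _ := by ring

end Pool.Agent.SO
end

section

set_option autoImplicit false

namespace Pool.Agent.SO

open Finset Complex MeasureTheory
open scoped ContDiff

lemma MoB3_pow (J : ℕ) : ∃ D : ℝ, 0 ≤ D ∧ ∀ a : ℝ, 0 ≤ a → ((1 + a) ^ J) ^ 2 ≤ D * Real.exp (a / 8) := by
  refine ⟨8 ^ (J * 2) * (J * 2).factorial * Real.exp (1 / 8), by positivity, ?_⟩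
  intro a ha
  have h := Real.pow_div_factorial_le_exp (x := (1 + a) / 8) (by positivity) (J * 2)
  rw [div_pow, div_div, div_le_iff₀ (by positivity)] at h
  rw [← pow_mul]
  refine h.trans (le_of_eq ?_)
  have : (1 + a) / 8 = 1 / 8 + a / 8 := by ring
  rw [this, Real.exp_add]
  ring

/-- For one weight: the Fourier representation of `P(x) e^{(1-b)x}`. -/
lemma MoB3_weight (B : ℕ) (P : ℝ → ℝ) (hP : ContDiff ℝ ∞ P) (h0 : ∀ x, x < -(1 / 16) → P x = 0)
    (h1 : ∀ x, 1 < x → P x = 0) : ∃ D : ℝ, 0 ≤ D ∧ ∀ b : ℝ, 0 ≤ b → ∃ p : ℝ → ℂ, Continuous p ∧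
      Integrable (fun ξ : ℝ => ‖p ξ‖ * (1 + |ξ|) ^ B) ∧
      (∫ ξ : ℝ, ‖p ξ‖ * (1 + |ξ|) ^ B) ^ 2 ≤ D * Real.exp (b / 4) ∧
      ∀ x : ℝ, ((P x : ℝ) : ℂ) * Complex.exp (((1 - b) * x : ℝ) : ℂ)
        = ∫ ξ : ℝ, p ξ * Complex.exp ((ξ : ℂ) * x * I) := by
  obtain ⟨CP, hCP0, hCP⟩ := exp_weight P hP h0 h1 (B + 2)
  obtain ⟨CF, hCF0, hCF⟩ := fourier_weight B
  obtain ⟨D, hD0, hD⟩ := MoB3_pow (B + 2)
  refine ⟨CF ^ 2 * CP ^ 2 * D, by positivity, ?_⟩
  intro b hb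
  have hFc : ContDiff ℝ ∞ (fun x : ℝ => ((P x : ℝ) : ℂ) * Complex.exp (((1 - b) * x : ℝ) : ℂ)) := by
    have e1 : (fun x : ℝ => ((P x : ℝ) : ℂ) * Complex.exp (((1 - b) * x : ℝ) : ℂ))
        = fun x : ℝ => (((P x * Real.exp ((1 - b) * x) : ℝ)) : ℂ) := by
      ext x; push_cast; ring
    rw [e1]
    have h2 : ContDiff ℝ ∞ (fun x : ℝ => P x * Real.exp ((1 - b) * x)) :=
      hP.mul (Real.contDiff_exp.comp (contDiff_const.mul contDiff_id))
    exact Complex.ofRealCLM.contDiff.comp h2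
  obtain ⟨p, hpc, hpi, hpb, hpF⟩ := hCF (fun x : ℝ => ((P x : ℝ) : ℂ) * Complex.exp (((1 - b) * x : ℝ) : ℂ))
    (CP * (1 + b) ^ (B + 2) * Real.exp (b / 16)) hFc (fun x hx => by simp [h0 x hx]) (fun x hx => by simp [h1 x hx])
    (by positivity) (fun j hj x => hCP b hb j hj x)
  refine ⟨p, hpc, hpi, ?_, hpF⟩
  have h0' : 0 ≤ ∫ ξ : ℝ, ‖p ξ‖ * (1 + |ξ|) ^ B := integral_nonneg (fun ξ => by positivity)
  calc (∫ ξ : ℝ, ‖p ξ‖ * (1 + |ξ|) ^ B) ^ 2 ≤ (CF * (CP * (1 + b) ^ (B + 2) * Real.exp (b / 16))) ^ 2 := by gcongr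
    _ = CF ^ 2 * CP ^ 2 * ((1 + b) ^ (B + 2)) ^ 2 * (Real.exp (b / 16)) ^ 2 := by ring
    _ ≤ CF ^ 2 * CP ^ 2 * (D * Real.exp (b / 8)) * (Real.exp (b / 16)) ^ 2 := by gcongr; exact hD b hb
    _ = CF ^ 2 * CP ^ 2 * D * (Real.exp (b / 8) * (Real.exp (b / 16)) ^ 2) := by ring
    _ = CF ^ 2 * CP ^ 2 * D * Real.exp (b / 4) := by
        rw [← Real.exp_nat_mul, ← Real.exp_add]
        congr 2
        push_cast
        ring

/-- MoB3 (COEFFICIENT BOUND). -/
lemma coef_bound : ∃ B : ℕ, ∀ P V : ℝ → ℝ, ContDiff ℝ ∞ P → ContDiff ℝ ∞ V →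
    (∀ x, x < -(1 / 16) → P x = 0) → (∀ x, 1 < x → P x = 0) →
    (∀ x, x < -(1 / 16) → V x = 0) → (∀ x, 1 < x → V x = 0) →
    ∃ C : ℝ, 0 ≤ C ∧ ∀ (l a b t t0 : ℝ) (N : ℕ), 2 ≤ l → 0 ≤ a → 0 ≤ b →
      ∑ n ∈ Icc 1 N, ‖aco P V l a b t t0 n‖ ^ 2 / n
        ≤ C * Real.exp ((a + b) / 4) * (1 + l * |t - t0|) ^ B := by
  obtain ⟨B, CE, hCE, hE⟩ := euler_bound
  refine ⟨B, ?_⟩
  intro P V hP hV hP0 hP1 hV0 hV1
  obtain ⟨DP, hDP0, hDP⟩ := MoB3_weight B P hP hP0 hP1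
  obtain ⟨DV, hDV0, hDV⟩ := MoB3_weight B V hV hV0 hV1
  refine ⟨CE * DP * DV, by positivity, ?_⟩
  intro l a b t t0 N hl ha hb
  obtain ⟨p, hpc, hpi, hpb, hpF⟩ := hDP b hb
  obtain ⟨v, hvc, hvi, hvb, hvF⟩ := hDV a ha
  have hint : ∀ g : ℝ → ℂ, Continuous g → Integrable (fun ξ : ℝ => ‖g ξ‖ * (1 + |ξ|) ^ B) → Integrable g := by
    intro g hg hgi
    refine hgi.mono hg.aestronglyMeasurable ?_
    refine Filter.Eventually.of_forall ?_
    intro ξ
    rw [Real.norm_of_nonneg (by positivity : 0 ≤ ‖g ξ‖ * (1 + |ξ|) ^ B)]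
    exact le_mul_of_one_le_right (norm_nonneg _) (one_le_pow₀ (by linarith [abs_nonneg ξ]))
  have h1 := double_cs B CE (by linarith) hE l (t - t0) hl (fun x => ‖p x‖) (fun x => ‖v x‖) (fun x => norm_nonneg _)
    (fun x => norm_nonneg _) hpc.norm hvc.norm hpi hvi N
  have h2 : ∑ n ∈ Icc 1 N, ‖aco P V l a b t t0 n‖ ^ 2 / n ≤
      ∑ n ∈ Icc 1 N, ((n : ℝ) ^ (-(1 / l)) * ∫ z : ℝ × ℝ, ‖p z.1‖ * ‖v z.2‖ *
        ∏ q ∈ n.primeFactors, ‖1 - (q : ℂ) ^ (-((((z.2 - z.1) / l - (t - t0) : ℝ) : ℂ) * I))‖) ^ 2 / n := by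
    refine Finset.sum_le_sum ?_
    intro n hn
    have hn1 := (Finset.mem_Icc.mp hn).1
    have h3 := aco_repr P V l a b t t0 (by linarith) p v hpc hvc (hint p hpc hpi) (hint v hvc hvi) hpF hvF n hn1
    gcongr
  refine h2.trans (h1.trans ?_)
  have hl0 : (0 : ℝ) ≤ 1 + l * |t - t0| := by
    have := mul_nonneg (by linarith : (0 : ℝ) ≤ l) (abs_nonneg (t - t0)); linarith
  calc CE * (1 + l * |t - t0|) ^ B * (∫ x : ℝ, ‖p x‖ * (1 + |x|) ^ B) ^ 2 * (∫ x : ℝ, ‖v x‖ * (1 + |x|) ^ B) ^ 2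
      ≤ CE * (1 + l * |t - t0|) ^ B * (DP * Real.exp (b / 4)) * (DV * Real.exp (a / 4)) := by
        gcongr
    _ = CE * DP * DV * (Real.exp (b / 4) * Real.exp (a / 4)) * (1 + l * |t - t0|) ^ B := by ring
    _ = _ := by
        rw [← Real.exp_add]
        congr 3
        ring

end Pool.Agent.SO
end

section

set_option autoImplicit false

namespace Pool.Agent.SO

open Finset Complex MeasureTheory
open scoped ContDiff

/-- MoI1. At equal points the twist factors out. -/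
lemma aco_diag (P V : ℝ → ℝ) (l b t : ℝ) (n : ℕ) (hn : 1 ≤ n) :
    aco P V l b b t t n = (n : ℂ) ^ (-((b / l : ℝ) + (t : ℂ) * I)) * aco P V l 0 0 0 0 n := by
  unfold aco
  rw [Finset.mul_sum]
  refine Finset.sum_congr rfl ?_
  intro d hd
  have hdn := Nat.dvd_of_mem_divisors hd
  have e1 : (n : ℂ) ^ (-((b / l : ℝ) + (t : ℂ) * I)) = (d : ℂ) ^ (-((b / l : ℝ) + (t : ℂ) * I)) *
      ((n / d : ℕ) : ℂ) ^ (-((b / l : ℝ) + (t : ℂ) * I)) := by
    rw [← Complex.natCast_mul_natCast_cpow, ← Nat.cast_mul, Nat.mul_div_cancel' hdn]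
  rw [e1]
  simp only [zero_div, Complex.ofReal_zero, zero_mul, add_zero, neg_zero, Complex.cpow_zero, mul_one]
  ring

end Pool.Agent.SO
end

section

set_option autoImplicit false

namespace Pool.Agent.SO

open Finset Complex MeasureTheory
open scoped ContDiff

/-- MoI4. Coefficients with `log n > l/16` in mean square.
PROOF. `aco_diag`: `|aco(b,b,t,t)(n)|² = n^{-2b/l} |aco(0,0,0,0)(n)|²`, `n^{-2b/l} = e^{-2b log n/l} ≤ e^{-b/8}`; and
`coef_bound` with `a = b = t = t0 = 0`. -/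
lemma tail_coef (P V : ℝ → ℝ) (hP : ContDiff ℝ ∞ P) (hV : ContDiff ℝ ∞ V)
    (h1 : ∀ x, x < -(1 / 16) → P x = 0) (h2 : ∀ x, 1 < x → P x = 0)
    (h3 : ∀ x, x < -(1 / 16) → V x = 0) (h4 : ∀ x, 1 < x → V x = 0) :
    ∃ C : ℝ, 0 ≤ C ∧ ∀ (l b t : ℝ) (N : ℕ), 2 ≤ l → 0 ≤ b →
      ∑ n ∈ (Icc 1 N).filter (fun n : ℕ => l / 16 < Real.log n), ‖aco P V l b b t t n‖ ^ 2 / n
        ≤ C * Real.exp (-(b / 8)) := by
  obtain ⟨B, hB⟩ := coef_bound
  obtain ⟨C, hC, hcoef⟩ := hB P V hP hV h1 h2 h3 h4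
  refine ⟨C, hC, fun l b t N hl hb => ?_⟩
  have hlpos : 0 < l := by linarith
  have h0 := hcoef l 0 0 0 0 N hl le_rfl le_rfl
  rw [sub_self, abs_zero, mul_zero, add_zero, add_zero, one_pow, mul_one, zero_div, Real.exp_zero,
    mul_one] at h0
  have hterm : ∀ n ∈ (Icc 1 N).filter (fun n : ℕ => l / 16 < Real.log n),
      ‖aco P V l b b t t n‖ ^ 2 / n ≤ Real.exp (-(b / 8)) * (‖aco P V l 0 0 0 0 n‖ ^ 2 / n) := by
    intro n hn
    rw [Finset.mem_filter, Finset.mem_Icc] at hn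
    have hn1 : 1 ≤ n := hn.1.1
    have hnpos : (0 : ℝ) < n := by exact_mod_cast hn1
    have h5 : ‖(n : ℂ) ^ (-((b / l : ℝ) + (t : ℂ) * I))‖ = (n : ℝ) ^ (-(b / l)) := by
      rw [Complex.norm_natCast_cpow_of_pos (by omega)]
      congr 1
      simp
    have h6 : ((n : ℝ) ^ (-(b / l))) ^ 2 ≤ Real.exp (-(b / 8)) := by
      rw [Real.rpow_def_of_pos hnpos, ← Real.exp_nat_mul, Real.exp_le_exp]
      push_cast
      have h7 : b / l * (l / 16) ≤ b / l * Real.log n :=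
        mul_le_mul_of_nonneg_left hn.2.le (by positivity)
      have h8 : b / l * (l / 16) = b / 16 := by
        field_simp
      rw [h8] at h7
      nlinarith
    rw [aco_diag P V l b t n hn1, norm_mul, h5, mul_pow, mul_div_assoc]
    exact mul_le_mul_of_nonneg_right h6 (by positivity)
  refine le_trans (Finset.sum_le_sum hterm) ?_
  rw [← Finset.mul_sum, mul_comm C]
  refine mul_le_mul_of_nonneg_left (le_trans ?_ h0) (Real.exp_pos _).le
  exact Finset.sum_le_sum_of_subset_of_nonneg (Finset.filter_subset _ _)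
    (fun n _ _ => by positivity)

end Pool.Agent.SO
end

section

set_option autoImplicit false

namespace Pool.Agent.SO

open Finset Complex

lemma MoA2_geom (x : ℝ) (J : ℕ) :
    (1 - x) ^ 2 * ∑ j ∈ range J, ((j : ℝ) + 1) * x ^ j = 1 - (J + 1) * x ^ J + J * x ^ (J + 1) := by
  induction J with
  | zero => simp
  | succ J ih =>
    rw [Finset.sum_range_succ, mul_add, ih]
    push_cast
    ring

lemma MoA2_geom_le (x : ℝ) (hx0 : 0 ≤ x) (hx1 : x < 1) (J : ℕ) :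
    ∑ j ∈ range J, ((j : ℝ) + 1) * x ^ j ≤ 1 / (1 - x) ^ 2 := by
  have h := MoA2_geom x J
  have hpos : 0 < (1 - x) ^ 2 := by
    have : 0 < 1 - x := by linarith
    positivity
  rw [le_div_iff₀ hpos, mul_comm, h]
  have h1 : 0 ≤ x ^ J := pow_nonneg hx0 J
  have h2 : x ^ (J + 1) ≤ x ^ J := by
    rw [pow_succ]
    nlinarith
  have h3 : (J : ℝ) * x ^ (J + 1) ≤ J * x ^ J := mul_le_mul_of_nonneg_left h2 (Nat.cast_nonneg _)
  linarith

lemma MoA2_exp (k : ℝ) (hk : 0 < k) (hk1 : k ≤ 1) : k / 2 ≤ 1 - Real.exp (-k) := by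
  have h1 : 1 + k ≤ Real.exp k := by linarith [Real.add_one_le_exp k]
  have h2 : Real.exp (-k) ≤ 1 / (1 + k) := by
    rw [Real.exp_neg, inv_eq_one_div]
    exact one_div_le_one_div_of_le (by linarith) h1
  have h3 : 1 / (1 + k) ≤ 1 - k / 2 := by
    rw [div_le_iff₀ (by linarith)]
    nlinarith
  linarith

lemma MoA2_block_sum (f : ℕ → ℝ) (J : ℕ) :
    ∑ n ∈ Ioc 1 ⌊Real.exp (J : ℕ)⌋₊, f n =
      ∑ j ∈ range J, ∑ n ∈ Ioc ⌊Real.exp (j : ℕ)⌋₊ ⌊Real.exp ((j : ℕ) + 1)⌋₊, f n := by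
  induction J with
  | zero => simp
  | succ J ih =>
    rw [Finset.sum_range_succ, ← ih]
    push_cast
    rw [Finset.sum_Ioc_consecutive]
    · apply Nat.le_floor
      have : (1 : ℝ) ≤ Real.exp (J : ℕ) := Real.one_le_exp (Nat.cast_nonneg _)
      exact_mod_cast this
    · apply Nat.floor_mono
      apply Real.exp_le_exp.2
      linarith

/-- MoA2. `∑_{n ≤ N} Λ(n)² n^{-1-k} ≤ C / k²` for `0 < k ≤ 1`.
PROOF. `Λ(1) = 0`; every `n ≥ 2`, `n ≤ N` lies in exactly one block `(e^j, e^{j+1}]`, `j ≥ 0` (`n > 1 = e^0`).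
There `Λ(n)² n^{-1-k} ≤ (j+1) e^{-kj} Λ(n)/n` (`Λ n ≤ log n ≤ j + 1`, `n^{-k} ≤ e^{-kj}`). So the sum is
`≤ C ∑_j (j+1) e^{-kj} = C/(1-e^{-k})² ≤ 4 C/k²` (`1 - e^{-k} ≥ k/2` for `0 < k ≤ 1`). -/
lemma sum_vonMangoldt_sq : ∃ C : ℝ, 1 ≤ C ∧ ∀ (k : ℝ) (N : ℕ), 0 < k → k ≤ 1 →
    ∑ n ∈ Icc 1 N, ArithmeticFunction.vonMangoldt n ^ 2 * (n : ℝ) ^ (-1 - k) ≤ C / k ^ 2 := by
  obtain ⟨C, hC1, hC⟩ := block
  refine ⟨4 * C, by linarith, ?_⟩
  intro k N hk hk1
  set f : ℕ → ℝ := fun n => ArithmeticFunction.vonMangoldt n ^ 2 * (n : ℝ) ^ (-1 - k) with hf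
  have hf0 : ∀ n, 0 ≤ f n := fun n => by simp only [hf]; positivity
  have hf1 : f 1 = 0 := by simp [hf]
  have hsub : ∑ n ∈ Icc 1 N, f n ≤ ∑ n ∈ Ioc 1 ⌊Real.exp (N : ℕ)⌋₊, f n := by
    have h1 : ∀ n ∈ Icc 1 N, f n ≠ 0 → 1 < n := by
      intro n hn hne
      have h2 := (Finset.mem_Icc.1 hn).1
      rcases h2.lt_or_eq with h3 | h3
      · exact h3
      · exact absurd (by rw [← h3]; exact hf1) hne
    rw [← Finset.sum_filter_of_ne h1]
    apply Finset.sum_le_sum_of_subset_of_nonneg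
    · intro n hn
      obtain ⟨h2, h3⟩ := Finset.mem_filter.1 hn
      refine Finset.mem_Ioc.2 ⟨h3, Nat.le_floor ?_⟩
      have h4 : (n : ℝ) ≤ N := by exact_mod_cast (Finset.mem_Icc.1 h2).2
      linarith [Real.add_one_le_exp (N : ℝ)]
    · intro n _ _
      exact hf0 n
  refine hsub.trans ?_
  rw [MoA2_block_sum f N]
  have hblk : ∀ j ∈ range N, ∑ n ∈ Ioc ⌊Real.exp (j : ℕ)⌋₊ ⌊Real.exp ((j : ℕ) + 1)⌋₊, f n ≤
      C * (((j : ℝ) + 1) * Real.exp (-k) ^ j) := by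
    intro j _
    have h1 : ∀ n ∈ Ioc ⌊Real.exp (j : ℕ)⌋₊ ⌊Real.exp ((j : ℕ) + 1)⌋₊, f n ≤
        (((j : ℝ) + 1) * Real.exp (-k) ^ j) * (ArithmeticFunction.vonMangoldt n / n) := by
      intro n hn
      obtain ⟨h2, h3⟩ := Finset.mem_Ioc.1 hn
      have h4 : Real.exp (j : ℕ) < n := Nat.lt_of_floor_lt h2
      have h5 : (n : ℝ) ≤ Real.exp ((j : ℕ) + 1) := by
        have := (Nat.le_floor_iff (Real.exp_pos _).le).1 h3
        exact this
      have hn0 : (0 : ℝ) < n := lt_trans (Real.exp_pos _) h4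
      have h6 : ArithmeticFunction.vonMangoldt n ≤ (j : ℝ) + 1 := by
        refine ArithmeticFunction.vonMangoldt_le_log.trans ?_
        rw [Real.log_le_iff_le_exp hn0]
        exact h5
      have h7 : 0 ≤ ArithmeticFunction.vonMangoldt n := ArithmeticFunction.vonMangoldt_nonneg
      have h8 : (n : ℝ) ^ (-k) ≤ Real.exp (-k) ^ j := by
        have h9 : Real.exp (-k) ^ j = (Real.exp (j : ℕ)) ^ (-k) := by
          rw [← Real.exp_nat_mul, ← Real.exp_mul]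
        rw [h9]
        exact Real.rpow_le_rpow_of_nonpos (Real.exp_pos _) h4.le (by linarith)
      have h10 : (n : ℝ) ^ (-1 - k) = (n : ℝ) ^ (-k) / n := by
        rw [show (-1 - k : ℝ) = -k - 1 by ring, Real.rpow_sub_one hn0.ne']
      simp only [hf]
      rw [h10]
      calc ArithmeticFunction.vonMangoldt n ^ 2 * ((n : ℝ) ^ (-k) / n)
          = (ArithmeticFunction.vonMangoldt n * (n : ℝ) ^ (-k)) *
              (ArithmeticFunction.vonMangoldt n / n) := by ring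
        _ ≤ (((j : ℝ) + 1) * Real.exp (-k) ^ j) * (ArithmeticFunction.vonMangoldt n / n) := by
            apply mul_le_mul_of_nonneg_right _ (by positivity)
            exact mul_le_mul h6 h8 (by positivity) (by positivity)
    refine (Finset.sum_le_sum h1).trans ?_
    rw [← Finset.mul_sum, mul_comm]
    exact mul_le_mul_of_nonneg_right (hC j) (by positivity)
  refine (Finset.sum_le_sum hblk).trans ?_
  rw [← Finset.mul_sum]
  have hx1 : Real.exp (-k) < 1 := by rw [Real.exp_lt_one_iff]; linarith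
  have h2 := MoA2_geom_le (Real.exp (-k)) (Real.exp_pos _).le hx1 N
  have h3 := MoA2_exp k hk hk1
  have h4 : 1 / (1 - Real.exp (-k)) ^ 2 ≤ 4 / k ^ 2 := by
    have h5 : (k / 2) ^ 2 ≤ (1 - Real.exp (-k)) ^ 2 := pow_le_pow_left₀ (by linarith) h3 2
    have h6 : 1 / (1 - Real.exp (-k)) ^ 2 ≤ 1 / (k / 2) ^ 2 :=
      one_div_le_one_div_of_le (by positivity) h5
    have h7 : 1 / (k / 2) ^ 2 = 4 / k ^ 2 := by
      field_simp
      norm_num
    linarith
  calc C * ∑ j ∈ range N, ((j : ℝ) + 1) * Real.exp (-k) ^ j ≤ C * (4 / k ^ 2) :=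
        mul_le_mul_of_nonneg_left (h2.trans h4) (by linarith)
    _ = 4 * C / k ^ 2 := by ring

end Pool.Agent.SO
end
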