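import Mathlib
import Pool.Agent.Lib.MP_9cfc0a_nt.Mg.G001
import Pool.Agent.Lib.MP_9cfc0a_nt.EMLfun
import Pool.Agent.Lib.MP_9cfc0a_nt.Mg.G004
import Pool.Agent.Lib.MP_9cfc0a_nt.SD.Defs
import Pool.Agent.Lib.MP_9cfc0a_nt.SK.Defs

section

set_option autoImplicit false

namespace Pool.Agent.SO

open Finset Complex MeasureTheory
open scoped ContDiff

lemma MoH3_cont (r : ℕ) [NeZero r] (χ : DirichletCharacter ℂ r) (hχ : χ ≠ 1) (c : ℝ) (m : ℂ) :
    Continuous (fun t : ℝ => ‖χ.LFunction (pt r c t) * m‖ ^ 2) := by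
  have h1 : Continuous χ.LFunction := (DirichletCharacter.differentiable_LFunction hχ).continuous
  have h2 : Continuous (fun t : ℝ => pt r c t) := by
    unfold pt
    fun_prop
  exact (((h1.comp h2).mul continuous_const).norm).pow 2

/-- MoH3 (remainder through reflection). For `A ≥ 40` there is `C`: for `r ≥ 8`, `a ≥ 0`, `1 ≤ c ≤ l/8`, `b ≥ 0`:
`∑ |(L - DD)(pt a t) m|² ≤ C e^{-5(a+c)/4} (e^{17c/8} ∫ Q(t - w/l)(1+|w|)^{-(2A+4)} dw + WW(t) N(r))`,
`m = MM(pt b t0)`, `Q(u) = ∑ |L(pt c u) m|²`.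
PROOF. For each `χ ∈ prim r`: `remainder (2A+4)` and `reflected` (with `‖m‖ ≤ r^{1/8}` by `trivial_bounds`) under the
integral; sum over `χ` (`integral_finset_sum`), `#prim ≤ N(r)`, `(1+|u|)^40 ≤ WW(u)`, `WW_stable`. Integrability of
`Q(t - w/l)/(1+|w|)^{2A+4}`: continuous and `≤ B₀ WW(t - w/l)/(1+|w|)^{2A+4}` (`Q_trivial`, `WW_stable`). -/
lemma rem_sum (A : ℕ) (hA : 40 ≤ A) : ∃ C : ℝ, 1 ≤ C ∧ ∀ (r : ℕ) [NeZero r], 8 ≤ r → ∀ (a c b t t0 : ℝ), 0 ≤ a →
    1 ≤ c → c ≤ Real.log r / 8 → 0 ≤ b →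
    ∑ χ ∈ prim r, ‖(χ.LFunction (pt r a t) - DD r χ (pt r a t)) * MM r χ (pt r b t0)‖ ^ 2
      ≤ C * Real.exp (-(5 / 4 * (a + c))) * (Real.exp (17 / 8 * c) *
          (∫ w : ℝ, (∑ χ ∈ prim r, ‖χ.LFunction (pt r c (t - w / Real.log r)) * MM r χ (pt r b t0)‖ ^ 2)
            / (1 + |w|) ^ (2 * A + 4))
        + WW (Real.log r) A t0 t * NN r) := by
  obtain ⟨C₁, hC₁, h₁⟩ := remainder (2 * A + 4) (by omega)
  obtain ⟨C₂, hC₂, h₂⟩ := reflected
  refine ⟨2 * (C₁ * C₂), by nlinarith, ?_⟩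
  intro r _ hr a c b t t0 ha hc hcl hb
  have hr1 : (1 : ℝ) < r := by exact_mod_cast (by omega : 1 < r)
  have hl8 : 8 ≤ Real.log r := by linarith
  set l := Real.log r with hl
  have hl0 : 0 < l := by linarith
  obtain ⟨hW1, hWI, hW2⟩ := WW_stable l (by linarith) A t0 t
  obtain ⟨-, B₀, hB₀⟩ := Q_trivial r (by omega) c b t0 (by linarith) (by rw [← hl]; linarith) hb A
    (by omega)
  rw [← hl] at hB₀
  set x : DirichletCharacter ℂ r → ℝ → ℝ := fun χ w =>
    ‖χ.LFunction (pt r c (t - w / l)) * MM r χ (pt r b t0)‖ ^ 2 with hx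
  have hx0 : ∀ χ w, 0 ≤ x χ w := fun χ w => sq_nonneg _
  -- integrability
  have hxI : ∀ χ ∈ prim r, Integrable (fun w => x χ w / (1 + |w|) ^ (2 * A + 4)) := by
    intro χ hχ
    have hcont : Continuous (fun w => x χ w / (1 + |w|) ^ (2 * A + 4)) := by
      refine Continuous.div ?_ (by fun_prop) (fun w => by positivity)
      exact (MoH3_cont r χ (prim_ne_one r (by omega) χ hχ).2 c _).comp
        (by fun_prop : Continuous fun w : ℝ => t - w / l)
    refine (hWI.const_mul B₀).mono' hcont.aestronglyMeasurable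
      (Filter.Eventually.of_forall fun w => ?_)
    rw [Real.norm_eq_abs, abs_of_nonneg (div_nonneg (hx0 χ w) (by positivity)), ← mul_div_assoc]
    refine div_le_div_of_nonneg_right ?_ (by positivity)
    refine le_trans ?_ (hB₀ (t - w / l))
    exact single_le_sum (f := fun χ : DirichletCharacter ℂ r =>
      ‖χ.LFunction (pt r c (t - w / l)) * MM r χ (pt r b t0)‖ ^ 2) (fun _ _ => sq_nonneg _) hχ
  have hE : 0 < Real.exp (-(5 / 4 * (a + c))) := Real.exp_pos _
  have hE2 : 0 < Real.exp (17 / 8 * c) := Real.exp_pos _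
  have hWW0 : ∀ s, 0 ≤ WW l A t0 s := by
    intro s
    unfold WW
    positivity
  -- each character
  have hterm : ∀ χ ∈ prim r,
      ‖(χ.LFunction (pt r a t) - DD r χ (pt r a t)) * MM r χ (pt r b t0)‖ ^ 2 ≤
        C₁ * Real.exp (-(5 / 4 * (a + c))) * (C₂ * Real.exp (17 / 8 * c) *
          (∫ w : ℝ, x χ w / (1 + |w|) ^ (2 * A + 4)) + C₂ * (2 * WW l A t0 t)) := by
    intro χ hχ
    obtain ⟨hpr, hne⟩ := prim_ne_one r (by omega) χ hχ
    obtain ⟨hI, hb1⟩ := h₁ r (by omega) χ hne a c t (MM r χ (pt r b t0)) ha hc hcl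
    rw [← hl] at hI hb1
    refine hb1.trans ?_
    refine mul_le_mul_of_nonneg_left ?_ (mul_nonneg (by linarith) hE.le)
    have hm := (trivial_bounds r (by omega) χ hne).2 b t0 hb
    have hpt : ∀ w : ℝ, ‖χ.LFunction (pt r (-c) (t - w / l)) * MM r χ (pt r b t0)‖ ^ 2 /
        (1 + |w|) ^ (2 * A + 4) ≤ C₂ * Real.exp (17 / 8 * c) *
          (x χ w / (1 + |w|) ^ (2 * A + 4)) +
            C₂ * (WW l A t0 (t - w / l) / (1 + |w|) ^ (2 * A + 4)) := by
      intro w
      rw [← mul_div_assoc, ← mul_div_assoc, ← add_div]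
      refine div_le_div_of_nonneg_right ?_ (by positivity)
      refine (h₂ r (by omega) χ hne hpr c (t - w / l) _ (by linarith) hcl hm).trans ?_
      refine add_le_add le_rfl (mul_le_mul_of_nonneg_left ?_ (by linarith))
      unfold WW
      have h3 : (1 + |t - w / l|) ^ 40 ≤ (1 + |t - w / l|) ^ A :=
        pow_le_pow_right₀ (by linarith [abs_nonneg (t - w / l)]) hA
      have h4 : (1 : ℝ) ≤ (1 + l * |t - w / l - t0|) ^ A := by
        refine one_le_pow₀ ?_
        have := mul_nonneg hl0.le (abs_nonneg (t - w / l - t0))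
        linarith
      have h5 : (0 : ℝ) ≤ (1 + |t - w / l|) ^ A := by positivity
      nlinarith
    have i1 := (hxI χ hχ).const_mul (C₂ * Real.exp (17 / 8 * c))
    have i2 := hWI.const_mul C₂
    calc ∫ w : ℝ, ‖χ.LFunction (pt r (-c) (t - w / l)) * MM r χ (pt r b t0)‖ ^ 2 /
          (1 + |w|) ^ (2 * A + 4)
        ≤ ∫ w : ℝ, (C₂ * Real.exp (17 / 8 * c) * (x χ w / (1 + |w|) ^ (2 * A + 4)) +
            C₂ * (WW l A t0 (t - w / l) / (1 + |w|) ^ (2 * A + 4))) :=
          integral_mono hI (i1.add i2) hpt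
      _ = C₂ * Real.exp (17 / 8 * c) * (∫ w : ℝ, x χ w / (1 + |w|) ^ (2 * A + 4)) +
            C₂ * ∫ w : ℝ, WW l A t0 (t - w / l) / (1 + |w|) ^ (2 * A + 4) := by
          rw [integral_add i1 i2, integral_const_mul, integral_const_mul]
      _ ≤ _ := by
          refine add_le_add le_rfl (mul_le_mul_of_nonneg_left hW2 (by linarith))
  refine (sum_le_sum hterm).trans ?_
  have hsumI : ∑ χ ∈ prim r, ∫ w : ℝ, x χ w / (1 + |w|) ^ (2 * A + 4) =
      ∫ w : ℝ, (∑ χ ∈ prim r, x χ w) / (1 + |w|) ^ (2 * A + 4) := by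
    rw [← integral_finsetSum _ hxI]
    refine integral_congr_ae (Filter.Eventually.of_forall fun w => ?_)
    simp only
    rw [sum_div]
  have hcard : ((prim r).card : ℝ) ≤ NN r := by
    unfold NN
    have : (0 : ℝ) ≤ (r : ℝ) ^ (9 / 10 : ℝ) := by positivity
    linarith
  rw [← mul_sum, sum_add_distrib, ← mul_sum, hsumI, sum_const, nsmul_eq_mul]
  set J := ∫ w : ℝ, (∑ χ ∈ prim r, x χ w) / (1 + |w|) ^ (2 * A + 4) with hJ
  have hJ0 : 0 ≤ J := integral_nonneg fun w =>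
    div_nonneg (sum_nonneg fun χ _ => hx0 χ w) (by positivity)
  have h6 : ((prim r).card : ℝ) * (C₂ * (2 * WW l A t0 t)) ≤ NN r * (C₂ * (2 * WW l A t0 t)) :=
    mul_le_mul_of_nonneg_right hcard
      (mul_nonneg (by linarith) (mul_nonneg (by norm_num) (hWW0 t)))
  have h7 : C₂ * Real.exp (17 / 8 * c) * J ≤ 2 * C₂ * (Real.exp (17 / 8 * c) * J) := by
    have : 0 ≤ Real.exp (17 / 8 * c) * J := mul_nonneg hE2.le hJ0
    nlinarith
  calc C₁ * Real.exp (-(5 / 4 * (a + c))) * (C₂ * Real.exp (17 / 8 * c) * J +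
        ((prim r).card : ℝ) * (C₂ * (2 * WW l A t0 t)))
      ≤ C₁ * Real.exp (-(5 / 4 * (a + c))) * (2 * C₂ * (Real.exp (17 / 8 * c) * J) +
        NN r * (C₂ * (2 * WW l A t0 t))) := by
        refine mul_le_mul_of_nonneg_left (add_le_add h7 h6) (mul_nonneg (by linarith) hE.le)
    _ = 2 * (C₁ * C₂) * Real.exp (-(5 / 4 * (a + c))) * (Real.exp (17 / 8 * c) * J +
        WW l A t0 t * NN r) := by ring

end Pool.Agent.SO
end

section

set_option autoImplicit false

namespace Pool.Agent.SO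

open Complex Metric Set

/-- L3. A zero free function with small logarithmic derivative at `b` does not grow between `b`
and `-b`. -/
theorem zero_free_growth (b ρ M : ℝ) (hb : 0 < b) (hρ : 32 * b ≤ ρ) (hM : 1 ≤ M) (f : ℂ → ℂ)
    (hf : DifferentiableOn ℂ f (ball (0 : ℂ) ρ)) (h0 : ∀ z ∈ ball (0 : ℂ) ρ, f z ≠ 0)
    (hK : ∀ z ∈ ball (0 : ℂ) ρ, ‖f z‖ ≤ Real.exp M) (h1 : 1 / 2 ≤ ‖f (b : ℂ)‖)
    (h2 : ‖deriv f (b : ℂ)‖ ≤ 1 / 16) :
    Real.log ‖f (-(b : ℂ))‖ ≤ Real.log ‖f (b : ℂ)‖ + b / 4 + 100 * b ^ 2 * (M + 1) / ρ ^ 2 := by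
  have hρ0 : 0 < ρ := by linarith
  set c : ℂ := (b : ℂ) with hc
  have hcn : ‖c‖ = b := by rw [hc, Complex.norm_real, Real.norm_of_nonneg hb.le]
  set ρ₁ : ℝ := ρ - b with hρ₁
  have hρ₁0 : 0 < ρ₁ := by rw [hρ₁]; linarith
  have hsub : ball c ρ₁ ⊆ ball (0 : ℂ) ρ := by
    intro z hz
    rw [mem_ball_zero_iff]
    rw [mem_ball, dist_eq_norm] at hz
    calc ‖z‖ = ‖(z - c) + c‖ := by ring_nf
      _ ≤ ‖z - c‖ + ‖c‖ := norm_add_le _ _
      _ < ρ₁ + b := by rw [hcn]; linarith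
      _ = ρ := by rw [hρ₁]; ring
  have hfB : DifferentiableOn ℂ f (ball c ρ₁) := hf.mono hsub
  have hs0 : c ∈ ball c ρ₁ := mem_ball_self hρ₁0
  have hfd : ∀ z ∈ ball c ρ₁, HasDerivAt f (deriv f z) z := fun z hz =>
    (hfB.differentiableAt (isOpen_ball.mem_nhds hz)).hasDerivAt
  have hdf : DifferentiableOn ℂ (deriv f) (ball c ρ₁) := hfB.deriv isOpen_ball
  have hf0 : ∀ z ∈ ball c ρ₁, f z ≠ 0 := fun z hz => h0 z (hsub hz)
  have hh : DifferentiableOn ℂ (fun z => deriv f z / f z) (ball c ρ₁) := hdf.div hfB hf0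
  obtain ⟨g0, hg0⟩ := hh.isExactOn_ball
  set g : ℂ → ℂ := fun z => g0 z - g0 c with hg
  have hgd : ∀ z ∈ ball c ρ₁, HasDerivAt g (deriv f z / f z) z := fun z hz =>
    (hg0 z hz).sub_const _
  have hgc : g c = 0 := by simp [hg]
  have hconst : ∀ z ∈ ball c ρ₁, f z = f c * Complex.exp (g z) := by
    intro z hz
    have h1 : ∀ w ∈ ball c ρ₁,
        HasDerivAt (fun w => f w * Complex.exp (- g w)) 0 w := by
      intro w hw
      have h2 := (hfd w hw).mul ((hgd w hw).neg.cexp)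
      convert! h2 using 1
      have := hf0 w hw
      field_simp
      ring
    have h2 := isOpen_ball.is_const_of_deriv_eq_zero (convex_ball c ρ₁).isPreconnected
      (f := fun w => f w * Complex.exp (- g w))
      (fun w hw => (h1 w hw).differentiableAt.differentiableWithinAt)
      (fun w hw => (h1 w hw).deriv) hz hs0
    simp only [hgc, neg_zero, Complex.exp_zero, mul_one] at h2
    rw [← h2, mul_assoc, ← Complex.exp_add, neg_add_cancel, Complex.exp_zero, mul_one]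
  have hfc : 0 < ‖f c‖ := by linarith
  have hre : ∀ z ∈ ball c ρ₁, (g z).re ≤ M + 1 := by
    intro z hz
    have h3 : ‖f z‖ ≤ Real.exp (M + 1) * ‖f c‖ := by
      have h4 : (2 : ℝ) ≤ Real.exp 1 := by
        have := Real.add_one_le_exp (1 : ℝ); linarith
      calc ‖f z‖ ≤ Real.exp M := hK z (hsub hz)
        _ = Real.exp M * (2 * (1 / 2)) := by ring
        _ ≤ Real.exp M * (Real.exp 1 * ‖f c‖) := by gcongr
        _ = Real.exp (M + 1) * ‖f c‖ := by rw [Real.exp_add]; ring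
    rw [hconst z hz, norm_mul, Complex.norm_exp, mul_comm] at h3
    exact Real.exp_le_exp.mp (le_of_mul_le_mul_right h3 hfc)
  have hgdiff : DifferentiableOn ℂ g (ball c ρ₁) := fun w hw =>
    (hgd w hw).differentiableAt.differentiableWithinAt
  have hBC := EM.U4_BC g c ρ₁ (M + 1) (by linarith) hρ₁0 hgdiff hgc hre
  have hM1 : 0 < M + 1 := by linarith
  -- bound of `g` on `closedBall c (9 ρ / 16)`
  have hbd : ∀ z : ℂ, dist z c ≤ 9 / 16 * ρ → ‖g z‖ ≤ 36 / 13 * (M + 1) := by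
    intro z hz
    have hzb : z ∈ ball c ρ₁ := by rw [mem_ball]; rw [hρ₁]; linarith
    refine (hBC z hzb).trans ?_
    have hden : 0 < ρ₁ - dist z c := by rw [mem_ball] at hzb; linarith
    rw [div_le_iff₀ hden]
    have e1 : 13 / 32 * ρ ≤ ρ₁ - dist z c := by rw [hρ₁]; linarith
    have hd0 : 0 ≤ dist z c := dist_nonneg
    calc 2 * (M + 1) * dist z c ≤ 2 * (M + 1) * (9 / 16 * ρ) := by gcongr
      _ = 36 / 13 * (M + 1) * (13 / 32 * ρ) := by ring
      _ ≤ 36 / 13 * (M + 1) * (ρ₁ - dist z c) := by gcongr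
  set K : ℝ := 288 / 13 * (M + 1) / ρ ^ 2 with hKdef
  have hK0 : 0 ≤ K := by positivity
  have hg2 : ∀ w ∈ closedBall c (2 * b), ‖deriv (deriv g) w‖ ≤ K := by
    intro w hw
    rw [mem_closedBall] at hw
    have hr : (0 : ℝ) < ρ / 2 := by linarith
    have hsub2 : closedBall w (ρ / 2) ⊆ ball c ρ₁ := by
      intro z hz
      rw [mem_closedBall] at hz
      rw [mem_ball]
      calc dist z c ≤ dist z w + dist w c := dist_triangle _ _ _
        _ < ρ₁ := by rw [hρ₁]; linarith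
    have hd : DiffContOnCl ℂ g (ball w (ρ / 2)) := by
      apply DifferentiableOn.diffContOnCl
      rw [closure_ball w hr.ne']
      exact hgdiff.mono hsub2
    have h3 := Complex.norm_iteratedDeriv_le_of_forall_mem_sphere_norm_le 2 hr hd
      (C := 36 / 13 * (M + 1)) (by
        intro z hz
        apply hbd
        rw [mem_sphere] at hz
        calc dist z c ≤ dist z w + dist w c := dist_triangle _ _ _
          _ ≤ 9 / 16 * ρ := by linarith)
    have h4 : iteratedDeriv 2 g w = deriv (deriv g) w := by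
      rw [iteratedDeriv_succ, iteratedDeriv_one]
    rw [h4] at h3
    refine h3.trans (le_of_eq ?_)
    rw [hKdef]
    norm_num
    field_simp
    norm_num
  have hsub3 : closedBall c (2 * b) ⊆ ball c ρ₁ := by
    apply closedBall_subset_ball; rw [hρ₁]; linarith
  have hdg : DifferentiableOn ℂ (deriv g) (ball c ρ₁) := hgdiff.deriv isOpen_ball
  have hcm : c ∈ closedBall c (2 * b) := mem_closedBall_self (by linarith)
  have hcm2 : -c ∈ closedBall c (2 * b) := by
    rw [mem_closedBall, dist_eq_norm]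
    have : -c - c = -(2 * c) := by ring
    rw [this, norm_neg, norm_mul, hcn, Complex.norm_ofNat]
  have hdist : ‖-c - c‖ = 2 * b := by
    have : -c - c = -(2 * c) := by ring
    rw [this, norm_neg, norm_mul, hcn, Complex.norm_ofNat]
  have hstep1 : ∀ w ∈ closedBall c (2 * b), ‖deriv g w - deriv g c‖ ≤ K * (2 * b) := by
    intro w hw
    have h3 := Convex.norm_image_sub_le_of_norm_deriv_le (𝕜 := ℂ) (f := deriv g) (s := closedBall c (2 * b)) (C := K)
      (fun z hz => hdg.differentiableAt (isOpen_ball.mem_nhds (hsub3 hz))) hg2 (convex_closedBall c (2 * b)) hcm hw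
    refine h3.trans ?_
    rw [mem_closedBall, dist_eq_norm] at hw
    gcongr
  set h : ℂ → ℂ := fun z => g z - deriv g c * (z - c) with hh'
  have hhd : ∀ z ∈ closedBall c (2 * b), HasDerivAt h (deriv g z - deriv g c) z := by
    intro z hz
    have e1 : HasDerivAt g (deriv g z) z := (hgdiff.differentiableAt (isOpen_ball.mem_nhds (hsub3 hz))).hasDerivAt
    have e2 : HasDerivAt (fun z : ℂ => deriv g c * (z - c)) (deriv g c * 1) z :=
      ((hasDerivAt_id z).sub_const c).const_mul _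
    have e3 := e1.sub e2
    rw [mul_one] at e3
    exact e3
  have hstep2 : ‖h (-c) - h c‖ ≤ K * (2 * b) * ‖-c - c‖ :=
    Convex.norm_image_sub_le_of_norm_deriv_le (𝕜 := ℂ) (f := h) (s := closedBall c (2 * b)) (C := K * (2 * b))
      (fun z hz => (hhd z hz).differentiableAt) (fun z hz => by rw [(hhd z hz).deriv]; exact hstep1 z hz)
      (convex_closedBall c (2 * b)) hcm hcm2
  have hhc : h c = 0 := by simp [hh', hgc]
  rw [hhc, sub_zero, hdist] at hstep2
  have hdgc : ‖deriv g c‖ ≤ 1 / 8 := by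
    rw [(hgd c hs0).deriv, norm_div, div_le_iff₀ hfc]
    linarith
  have hgm : g (-c) = h (-c) + deriv g c * (-c - c) := by simp [hh']
  have hnorm : ‖g (-c)‖ ≤ b / 4 + 100 * b ^ 2 * (M + 1) / ρ ^ 2 := by
    rw [hgm]
    refine (norm_add_le _ _).trans ?_
    rw [norm_mul, hdist]
    have e1 : ‖deriv g c‖ * (2 * b) ≤ b / 4 := by
      calc ‖deriv g c‖ * (2 * b) ≤ 1 / 8 * (2 * b) := by gcongr
        _ = b / 4 := by ring
    have e2 : K * (2 * b) * (2 * b) ≤ 100 * b ^ 2 * (M + 1) / ρ ^ 2 := by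
      have e3 : K * (2 * b) * (2 * b) = (1152 / 13) * (b ^ 2 * (M + 1) / ρ ^ 2) := by
        rw [hKdef]; ring
      rw [e3]
      have e4 : 0 ≤ b ^ 2 * (M + 1) / ρ ^ 2 := by positivity
      calc (1152 / 13) * (b ^ 2 * (M + 1) / ρ ^ 2) ≤ 100 * (b ^ 2 * (M + 1) / ρ ^ 2) := by
            gcongr; norm_num
        _ = _ := by ring
    linarith
  have hzb : -c ∈ ball c ρ₁ := hsub3 hcm2
  have hlog : Real.log ‖f (-c)‖ - Real.log ‖f c‖ = (g (-c)).re := by
    rw [hconst (-c) hzb, norm_mul, Complex.norm_exp, Real.log_mul hfc.ne' (Real.exp_pos _).ne', Real.log_exp]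
    ring
  have hfin : (g (-c)).re ≤ ‖g (-c)‖ := (le_abs_self _).trans (Complex.abs_re_le_norm _)
  linarith

end Pool.Agent.SO
end

section

set_option autoImplicit false

namespace Pool.Agent.SO

open Complex Metric Set

/-- L4. The local lower bound (uses L1, L2, L3).

PROOF. Let `R₀ = 25600 * b * C₃ + 128 * b` and `R ≥ R₀`. `K = exp (C₃ R) ≥ 1`; take `m` from
`min_modulus b R K` and `c₀ = m / (2 R) > 0`. Suppose that
`‖deriv f z + P z * f z‖ < c₀` for all `z ∈ closedBall 0 R`. Let `ρ ∈ [R/4, R/2]` be the radius of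
`min_modulus`; on `‖z‖ = ρ` we have `f z ≠ 0` and `‖deriv f z / f z + P z‖ < c₀/m`.
By `zero_count`, `∮ deriv f / f = 2 π I n`, and `∮ P = 0` (`P` entire:
`Complex.circleIntegral_eq_zero_of_differentiable_on_off_countable`), so
`2 π n = ‖∮ (deriv f/f + P)‖ ≤ 2 π ρ c₀ / m ≤ 2 π (R/2)/(2R) < 2 π`
(`circleIntegral.norm_integral_le_of_norm_le_const`), so `n = 0` and `f` has no zero in
`closedBall 0 ρ`. Apply `zero_free_growth b ρ (C₃ R)` (`32 b ≤ R/4 ≤ ρ`, `1 ≤ C₃ R`):
`log ‖f (-b)‖ ≤ log ‖f b‖ + b/4 + 100 b² (C₃ R + 1)/ρ²`, and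
`100 b² (C₃R+1)/ρ² ≤ 100 b² * 2 C₃ R * 16/R² = 3200 b² C₃/R ≤ b/8`. So
`log ‖f (-b)‖ < log ‖f b‖ + b/2`. But `exp (b/2) ‖f b‖ ≤ ‖f (-b)‖` gives
`log ‖f (-b)‖ ≥ b/2 + log ‖f b‖`, a contradiction. -/
theorem local_lower (b C₃ : ℝ) (hb : 1 ≤ b) (hC : 1 ≤ C₃) : ∃ R₀ : ℝ, 1 ≤ R₀ ∧ ∀ R : ℝ, R₀ ≤ R →
    ∃ c₀ : ℝ, 0 < c₀ ∧ ∀ f P : ℂ → ℂ, Differentiable ℂ f → Differentiable ℂ P →
      (∀ z ∈ closedBall (0 : ℂ) R, ‖f z‖ ≤ Real.exp (C₃ * R)) →
      1 / 2 ≤ ‖f (b : ℂ)‖ → ‖deriv f (b : ℂ)‖ ≤ 1 / 16 →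
      Real.exp (b / 2) * ‖f (b : ℂ)‖ ≤ ‖f (-(b : ℂ))‖ →
      ∃ z ∈ closedBall (0 : ℂ) R, c₀ ≤ ‖deriv f z + P z * f z‖ := by
  have hbC : 1 ≤ b * C₃ := one_le_mul_of_one_le_of_one_le hb hC
  refine ⟨25600 * b * C₃ + 128 * b, by nlinarith, ?_⟩
  intro R hR0
  have hR128 : 128 * b ≤ R := by nlinarith
  have hRC : 25600 * b * C₃ ≤ R := by nlinarith
  have hRpos : 0 < R := by linarith
  have hR1 : 1 ≤ R := by linarith
  have hCR : 1 ≤ C₃ * R := one_le_mul_of_one_le_of_one_le hC hR1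
  have hK : 1 ≤ Real.exp (C₃ * R) := Real.one_le_exp (by linarith)
  obtain ⟨m, hm, hmm⟩ := min_modulus b R (Real.exp (C₃ * R)) (by linarith) hRpos (by linarith) hK
  refine ⟨m / (2 * R), by positivity, ?_⟩
  intro f P hf hP hfK hfb hfb' hfe
  by_contra hcon
  have hcon' : ∀ z ∈ closedBall (0 : ℂ) R, ‖deriv f z + P z * f z‖ < m / (2 * R) := by
    intro z hz
    by_contra h
    exact hcon ⟨z, hz, not_lt.mp h⟩
  have hfa : AnalyticOnNhd ℂ f (closedBall (0 : ℂ) R) := fun z _ => hf.analyticAt z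
  obtain ⟨ρ, hρ, hρm⟩ := hmm f hfa hfK hfb
  have hρ1 : R / 4 ≤ ρ := hρ.1
  have hρ2 : ρ ≤ R / 2 := hρ.2
  have hρpos : 0 < ρ := by linarith
  have hne : ∀ z : ℂ, ‖z‖ = ρ → f z ≠ 0 := by
    intro z hz h0
    have h1 := hρm z hz
    rw [h0, norm_zero] at h1
    linarith
  have hfb0 : f (b : ℂ) ≠ 0 := by
    intro h0
    rw [h0, norm_zero] at hfb
    norm_num at hfb
  obtain ⟨n, hn1, hn2⟩ := zero_count f b ρ R (by linarith) hRpos (by linarith) hρpos hρ2 hfa hfb0 hne
  have hfd : Continuous (deriv f) := (hf.contDiff (n := 1)).continuous_deriv le_rfl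
  have hci1 : CircleIntegrable (fun z => deriv f z / f z) 0 ρ := by
    apply ContinuousOn.circleIntegrable hρpos.le
    apply ContinuousOn.div hfd.continuousOn hf.continuous.continuousOn
    intro z hz
    apply hne
    rw [mem_sphere_zero_iff_norm] at hz
    exact hz
  have hci2 : CircleIntegrable P 0 ρ := (hP.continuous.continuousOn).circleIntegrable hρpos.le
  have hP0 : (∮ z in C(0, ρ), P z) = 0 :=
    Complex.circleIntegral_eq_zero_of_differentiable_on_off_countable hρpos.le Set.countable_empty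
      hP.continuous.continuousOn (fun z _ => hP z)
  have hsum : (∮ z in C(0, ρ), (deriv f z / f z + P z)) = 2 * (Real.pi : ℂ) * I * n := by
    rw [circleIntegral.integral_add hci1 hci2, hP0, add_zero, hn1]
  have hbound : ∀ z ∈ sphere (0 : ℂ) ρ, ‖deriv f z / f z + P z‖ ≤ 1 / (2 * R) := by
    intro z hz
    rw [mem_sphere_zero_iff_norm] at hz
    have hfz := hne z hz
    have h1 : deriv f z / f z + P z = (deriv f z + P z * f z) / f z := by
      field_simp
    rw [h1, norm_div]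
    have h2 := hcon' z (by rw [mem_closedBall_zero_iff, hz]; linarith)
    have h3 := hρm z hz
    have h4 : 0 < ‖f z‖ := norm_pos_iff.mpr hfz
    rw [div_le_iff₀ h4]
    have h5 : 1 / (2 * R) * m ≤ 1 / (2 * R) * ‖f z‖ := mul_le_mul_of_nonneg_left h3 (by positivity)
    have h6 : 1 / (2 * R) * m = m / (2 * R) := by ring
    linarith
  have hle := circleIntegral.norm_integral_le_of_norm_le_const hρpos.le hbound
  rw [hsum] at hle
  have hn0 : n = 0 := by
    by_contra hn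
    have hn1' : (1 : ℝ) ≤ n := by exact_mod_cast Nat.one_le_iff_ne_zero.mpr hn
    have h1 : ‖(2 * (Real.pi : ℂ) * I * n : ℂ)‖ = 2 * Real.pi * n := by
      rw [norm_mul, norm_mul, norm_mul, Complex.norm_I, mul_one, Complex.norm_natCast, Complex.norm_real,
        Real.norm_of_nonneg Real.pi_pos.le]
      norm_num
    rw [h1] at hle
    have h2 : ρ * (1 / (2 * R)) ≤ 1 / 4 := by
      rw [mul_one_div, div_le_iff₀ (by positivity)]
      linarith
    have h3 : 2 * Real.pi * ρ * (1 / (2 * R)) ≤ 2 * Real.pi * (1 / 4) := by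
      rw [mul_assoc]
      exact mul_le_mul_of_nonneg_left h2 (by positivity)
    have h4 : 2 * Real.pi * 1 ≤ 2 * Real.pi * n := mul_le_mul_of_nonneg_left hn1' (by positivity)
    have h5 := Real.pi_pos
    linarith
  have hzf := hn2 hn0
  have hg := zero_free_growth b ρ (C₃ * R) (by linarith) (by linarith) hCR f hf.differentiableOn
    (fun z hz => hzf z (ball_subset_closedBall hz))
    (fun z hz => hfK z (ball_subset_closedBall (ball_subset_ball (by linarith) hz))) hfb hfb'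
  have hfbpos : 0 < ‖f (b : ℂ)‖ := by linarith
  have hlog : b / 2 + Real.log ‖f (b : ℂ)‖ ≤ Real.log ‖f (-(b : ℂ))‖ := by
    have h1 := Real.log_le_log (by positivity) hfe
    rw [Real.log_mul (Real.exp_pos _).ne' hfbpos.ne', Real.log_exp] at h1
    exact h1
  have hsmall : 100 * b ^ 2 * (C₃ * R + 1) / ρ ^ 2 ≤ b / 8 := by
    rw [div_le_iff₀ (by positivity)]
    have h1 : R ^ 2 / 16 ≤ ρ ^ 2 := by
      have h2 : (R / 4) ^ 2 ≤ ρ ^ 2 := pow_le_pow_left₀ (by positivity) hρ1 2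
      calc R ^ 2 / 16 = (R / 4) ^ 2 := by ring
        _ ≤ ρ ^ 2 := h2
    have h3 : b / 8 * (R ^ 2 / 16) ≤ b / 8 * ρ ^ 2 := mul_le_mul_of_nonneg_left h1 (by linarith)
    have h4 : 100 * b ^ 2 * (C₃ * R + 1) ≤ 100 * b ^ 2 * (2 * (C₃ * R)) :=
      mul_le_mul_of_nonneg_left (by linarith) (by positivity)
    have h5 : 100 * b ^ 2 * (2 * (C₃ * R)) ≤ b / 8 * (R ^ 2 / 16) := by
      have h6 : 25600 * b * C₃ * (b * R) ≤ R * (b * R) := mul_le_mul_of_nonneg_right hRC (by positivity)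
      have h7 : 100 * b ^ 2 * (2 * (C₃ * R)) = (25600 * b * C₃ * (b * R)) / 128 := by ring
      have h8 : b / 8 * (R ^ 2 / 16) = (R * (b * R)) / 128 := by ring
      rw [h7, h8]
      linarith
    linarith
  linarith

end Pool.Agent.SO
end

section

set_option autoImplicit false

/-! Task WA: integration of the count over `u`. -/

namespace Pool.Agent.SD

open Complex MeasureTheory

/-- The weight. -/
private noncomputable def WA_wt (u : ℝ) : ℝ := 1 / (1 / 4 + u ^ 2)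

private theorem WA_wt_cont : Continuous WA_wt := by
  unfold WA_wt
  refine continuous_const.div (by fun_prop) fun u => ?_
  positivity

private theorem WA_wt_nonneg (u : ℝ) : 0 ≤ WA_wt u := by
  unfold WA_wt
  positivity

/-- The interval of the points at distance at most `h` from `γ`. -/
private def WA_I (γ h : ℝ) : Set ℝ := Set.Icc (γ - h) (γ + h)

private theorem WA_meas (γ h : ℝ) : MeasurableSet (WA_I γ h) := measurableSet_Icc

private theorem WA_mem (γ h u : ℝ) : u ∈ WA_I γ h ↔ |γ - u| ≤ h := by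
  unfold WA_I
  rw [Set.mem_Icc, abs_le]
  constructor
  · rintro ⟨h1, h2⟩
    constructor <;> linarith
  · rintro ⟨h1, h2⟩
    constructor <;> linarith

private theorem WA_NW (F : Finset ℂ) (m : ℂ → ℝ) (h u : ℝ) :
    1 / (1 / 4 + u ^ 2) * NW F m h u = ∑ w ∈ F, m w * (WA_I w.im h).indicator WA_wt u := by
  classical
  unfold NW
  rw [Finset.sum_filter, Finset.mul_sum]
  apply Finset.sum_congr rfl
  intro w _
  by_cases hw : |w.im - u| ≤ h
  · rw [if_pos hw, Set.indicator_of_mem ((WA_mem _ _ _).2 hw), mul_comm]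
    rfl
  · rw [if_neg hw, Set.indicator_of_notMem (fun h' => hw ((WA_mem _ _ _).1 h')), mul_zero, mul_zero]

private theorem WA_ind_int (γ h a b : ℝ) : IntervalIntegrable ((WA_I γ h).indicator WA_wt) volume a b := by
  have h1 : IntervalIntegrable WA_wt volume a b := WA_wt_cont.intervalIntegrable a b
  rw [intervalIntegrable_iff] at h1 ⊢
  exact h1.indicator measurableSet_Icc

/-- WA1. PROOF. `NW F m h u = ∑ w ∈ F, if |w.im - u| ≤ h then m w else 0` (`Finset.sum_filter`), a finite sum of multiples of indicators of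
intervals, so bounded and measurable; the weight is continuous and bounded. -/
theorem NW_int (F : Finset ℂ) (m : ℂ → ℝ) (h a b : ℝ) :
    IntervalIntegrable (fun u : ℝ => 1 / (1 / 4 + u ^ 2) * NW F m h u) volume a b := by
  have e : (fun u : ℝ => 1 / (1 / 4 + u ^ 2) * NW F m h u) =
      ∑ w ∈ F, fun u => m w * (WA_I w.im h).indicator WA_wt u := by
    funext u
    rw [WA_NW, Finset.sum_apply]
  rw [e]
  exact IntervalIntegrable.sum F fun w _ => (WA_ind_int w.im h a b).const_mul (m w)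

private theorem WA_integral (F : Finset ℂ) (m : ℂ → ℝ) (h a b : ℝ) :
    ∫ u in a..b, 1 / (1 / 4 + u ^ 2) * NW F m h u =
      ∑ w ∈ F, m w * ∫ u in a..b, (WA_I w.im h).indicator WA_wt u := by
  simp_rw [WA_NW]
  rw [intervalIntegral.integral_finsetSum fun w _ => (WA_ind_int w.im h a b).const_mul (m w)]
  apply Finset.sum_congr rfl
  intro w _
  rw [intervalIntegral.integral_const_mul]

theorem NU_eq_NW (F : Finset ℂ) (h u : ℝ) : NU F h u = NW F (fun _ => 1) h u := by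
  unfold NU NW
  simp

theorem gF_eq_gW (F : Finset ℂ) : gF F = gW F (fun _ => 1) := by
  unfold gF gW
  simp

theorem NU_nonneg (F : Finset ℂ) (h u : ℝ) : 0 ≤ NU F h u := Nat.cast_nonneg _

theorem gF_nonneg (F : Finset ℂ) : 0 ≤ gF F := Finset.sum_nonneg fun _ _ => by positivity

/-- WA2. PROOF. For `|u - γ| ≤ h`: `1/(1/4+u²) ≤ (1 + 2h + 4h²)/(1/4+γ²)`: `1/4 + γ² = (1/4 + u²) + 2u(γ-u) + (γ-u)²`,
`2 |u| ≤ 2 (1/4 + u²)` and `1 ≤ 4 (1/4 + u²)`. -/
theorem wt_ratio (h u γ : ℝ) (hh : 0 ≤ h) (hu : |γ - u| ≤ h) :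
    1 / (1 / 4 + u ^ 2) ≤ (1 + 2 * h + 4 * h ^ 2) * (1 / (1 / 4 + γ ^ 2)) := by
  have hu' := abs_le.1 hu
  have h1 : (0 : ℝ) < 1 / 4 + u ^ 2 := by positivity
  have h2 : (0 : ℝ) < 1 / 4 + γ ^ 2 := by positivity
  rw [mul_one_div, div_le_div_iff₀ h1 h2, one_mul]
  have h3 : (γ - u) ^ 2 ≤ h ^ 2 := by
    rw [← sq_abs (γ - u)]
    exact pow_le_pow_left₀ (abs_nonneg _) hu 2
  have h4 : 2 * u * (γ - u) ≤ 2 * |u| * h := by
    calc 2 * u * (γ - u) ≤ |2 * u * (γ - u)| := le_abs_self _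
      _ = 2 * |u| * |γ - u| := by rw [abs_mul, abs_mul, abs_two]
      _ ≤ 2 * |u| * h := mul_le_mul_of_nonneg_left hu (by positivity)
  have h5 : 2 * |u| ≤ 2 * (1 / 4 + u ^ 2) := by
    have := sq_nonneg (|u| - 1 / 2)
    rw [← sq_abs u]
    nlinarith
  have h6 : 2 * |u| * h ≤ 2 * (1 / 4 + u ^ 2) * h := mul_le_mul_of_nonneg_right h5 hh
  nlinarith [sq_nonneg u, sq_nonneg h, mul_nonneg (sq_nonneg h) (sq_nonneg u)]

private theorem WA_one_upper (γ h T₀ : ℝ) (hh : 0 ≤ h) (hT : 0 ≤ T₀) :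
    ∫ u in (-T₀)..T₀, (WA_I γ h).indicator WA_wt u ≤
      2 * h * (1 + 2 * h + 4 * h ^ 2) * (1 / (1 / 4 + γ ^ 2)) := by
  set c : ℝ := (1 + 2 * h + 4 * h ^ 2) * (1 / (1 / 4 + γ ^ 2)) with hc
  have hc0 : 0 ≤ c := by positivity
  rw [intervalIntegral.integral_of_le (by linarith), integral_indicator (WA_meas γ h),
    Measure.restrict_restrict (WA_meas γ h)]
  have h1 : ∫ u in WA_I γ h ∩ Set.Ioc (-T₀) T₀, WA_wt u ≤ ∫ u in WA_I γ h ∩ Set.Ioc (-T₀) T₀, c := by
    have hfin : volume (WA_I γ h ∩ Set.Ioc (-T₀) T₀) ≠ ⊤ :=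
      ne_top_of_le_ne_top (by unfold WA_I; rw [Real.volume_Icc]; exact ENNReal.ofReal_ne_top)
        (measure_mono Set.inter_subset_left)
    refine setIntegral_mono_on ?_ ?_ (measurableSet_Icc.inter measurableSet_Ioc) ?_
    · exact ((WA_wt_cont.continuousOn (s := Set.Icc (γ - h) (γ + h))).integrableOn_Icc).mono_set Set.inter_subset_left
    · exact integrableOn_const (hs := hfin)
    · intro u hu
      exact wt_ratio h u γ hh ((WA_mem _ _ _).1 hu.1)
  refine h1.trans ?_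
  rw [setIntegral_const, smul_eq_mul]
  have h2 : (volume.real (WA_I γ h ∩ Set.Ioc (-T₀) T₀)) ≤ 2 * h := by
    calc volume.real (WA_I γ h ∩ Set.Ioc (-T₀) T₀) ≤ volume.real (WA_I γ h) :=
          measureReal_mono Set.inter_subset_left (by unfold WA_I; rw [Real.volume_Icc]; exact ENNReal.ofReal_ne_top)
      _ = 2 * h := by
          unfold WA_I
          rw [Real.volume_real_Icc_of_le (by linarith)]
          ring
  calc volume.real (WA_I γ h ∩ Set.Ioc (-T₀) T₀) * c ≤ 2 * h * c := mul_le_mul_of_nonneg_right h2 hc0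
    _ = _ := by rw [hc]; ring

/-- WA3. PROOF. `∫ over [-T₀, T₀]` of `wt * NW` is the sum over `w ∈ F` of `m w` times the integral of `wt` over `[-T₀, T₀] ∩ [w.im - h, w.im + h]`; on
this set `wt u ≤ (1 + 2h + 4h²)/(1/4 + w.im²)` (`wt_ratio`), and its length is `≤ 2h`. -/
theorem wt_upper (F : Finset ℂ) (m : ℂ → ℝ) (h T₀ : ℝ) (hm : ∀ w ∈ F, 0 ≤ m w) (hh : 0 ≤ h) (hT : 0 ≤ T₀) :
    ∫ u in (-T₀)..T₀, 1 / (1 / 4 + u ^ 2) * NW F m h u ≤ 2 * h * (1 + 2 * h + 4 * h ^ 2) * gW F m := by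
  rw [WA_integral]
  unfold gW
  rw [Finset.mul_sum]
  apply Finset.sum_le_sum
  intro w hw
  have h1 := mul_le_mul_of_nonneg_left (WA_one_upper w.im h T₀ hh hT) (hm w hw)
  refine h1.trans (le_of_eq ?_)
  ring

private theorem WA_one_lower (γ h T₀ : ℝ) (hh : 0 ≤ h) (hF : |γ| + h ≤ T₀) :
    2 * h * (1 / (1 / 4 + γ ^ 2)) ≤
      (1 + 2 * h + 4 * h ^ 2) * ∫ u in (-T₀)..T₀, (WA_I γ h).indicator WA_wt u := by
  have hT : 0 ≤ T₀ := by linarith [abs_nonneg γ]
  have hγ := abs_le.1 (le_refl |γ|)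
  have e1 : ∫ u in (-T₀)..T₀, (WA_I γ h).indicator WA_wt u = ∫ u in WA_I γ h, WA_wt u := by
    have e2 : ∫ u in (-T₀)..T₀, (WA_I γ h).indicator WA_wt u = ∫ u in Set.Icc (-T₀) T₀, (WA_I γ h).indicator WA_wt u := by
      rw [intervalIntegral.integral_of_le (by linarith), integral_Icc_eq_integral_Ioc]
    rw [e2, integral_indicator (WA_meas γ h), Measure.restrict_restrict (WA_meas γ h),
      Set.inter_eq_left.2 (by
        intro u hu
        have h1 := Set.mem_Icc.1 hu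
        rw [Set.mem_Icc]
        constructor <;> linarith)]
  rw [e1, ← integral_const_mul]
  have h1 : ∫ _u in WA_I γ h, (1 / (1 / 4 + γ ^ 2) : ℝ) ≤ ∫ u in WA_I γ h, (1 + 2 * h + 4 * h ^ 2) * WA_wt u := by
    have hfin : volume (WA_I γ h) ≠ ⊤ := by unfold WA_I; rw [Real.volume_Icc]; exact ENNReal.ofReal_ne_top
    refine setIntegral_mono_on ?_ ?_ measurableSet_Icc ?_
    · exact integrableOn_const (hs := hfin)
    · exact ((continuous_const.mul WA_wt_cont).continuousOn (s := Set.Icc (γ - h) (γ + h))).integrableOn_Icc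
    · intro u hu
      have h2 := (WA_mem _ _ _).1 hu
      rw [abs_sub_comm] at h2
      exact wt_ratio h γ u hh h2
  refine le_trans (le_of_eq ?_) h1
  rw [setIntegral_const, smul_eq_mul]
  unfold WA_I
  rw [Real.volume_real_Icc_of_le (by linarith)]
  ring

/-- WA4. PROOF. Now `[w.im - h, w.im + h] ⊆ [-T₀, T₀]` for `w ∈ F`, and `1/(1/4 + w.im²) ≤ (1 + 2h + 4h²) wt u` on it (`wt_ratio` with `u`, `γ`
exchanged). -/
theorem wt_lower (F : Finset ℂ) (m : ℂ → ℝ) (h T₀ : ℝ) (hm : ∀ w ∈ F, 0 ≤ m w) (hh : 0 ≤ h)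
    (hF : ∀ w ∈ F, |w.im| + h ≤ T₀) :
    2 * h * gW F m ≤ (1 + 2 * h + 4 * h ^ 2) * ∫ u in (-T₀)..T₀, 1 / (1 / 4 + u ^ 2) * NW F m h u := by
  rw [WA_integral]
  unfold gW
  rw [Finset.mul_sum, Finset.mul_sum]
  apply Finset.sum_le_sum
  intro w hw
  have h1 := mul_le_mul_of_nonneg_left (WA_one_lower w.im h T₀ hh (hF w hw)) (hm w hw)
  refine le_trans (le_of_eq ?_) (h1.trans (le_of_eq ?_))
  · ring
  · ring

end Pool.Agent.SD
end

section

set_option autoImplicit false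

namespace Pool.Agent.SK

open Complex MeasureTheory

theorem norm_gz (W x : ℝ) (hW : 0 ≤ W) (z : ℂ) :
    ‖gz W x z‖ = W / Real.sqrt (2 * Real.pi) * Real.exp (W ^ 2 / 2 * (z.re ^ 2 - (z.im - x) ^ 2)) := by
  have h0 : 0 ≤ W / Real.sqrt (2 * Real.pi) := by positivity
  unfold gz
  rw [norm_mul, Complex.norm_real, Real.norm_of_nonneg h0, Complex.norm_exp]
  congr 2
  rw [Complex.re_ofReal_mul]
  congr 1
  simp [pow_two]

theorem gz_neg_conj (W x : ℝ) (z : ℂ) : gz W x (-(starRingEnd ℂ) z) = (starRingEnd ℂ) (gz W x z) := by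
  unfold gz
  rw [map_mul, Complex.conj_ofReal, ← Complex.exp_conj, map_mul, Complex.conj_ofReal, map_pow, map_sub,
    map_mul, Complex.conj_ofReal, Complex.conj_I]
  congr 3
  ring

end Pool.Agent.SK
end

section

set_option autoImplicit false

namespace Pool.Agent.SK

open Complex MeasureTheory

/-- C3a. PROOF. The integrand is `(W/√(2π)) exp(W² (z - ix)²/2)`; as a function of `x`:
`W²(z - ix)²/2 = -(W²/2) x² - i W² z x + W² z²/2`, `integral_cexp_quadratic` (value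
`(2π/W²)^{1/2} exp(W² z²/2 - (i W² z)²/(4 (-W²/2)) ...)`, the exponents cancel). Or: `TS.gauss_line W 0 ..`. -/
theorem gz_full (W : ℝ) (hW : 0 < W) (z : ℂ) :
    Integrable (fun x : ℝ => gz W x z) ∧ ∫ x : ℝ, gz W x z = 1 := by
  have hW0 : (W : ℂ) ≠ 0 := by exact_mod_cast hW.ne'
  set b : ℂ := ((-(W ^ 2 / 2) : ℝ) : ℂ) with hb
  have hbre : b.re < 0 := by
    rw [hb, Complex.ofReal_re]
    have : 0 < W ^ 2 / 2 := by positivity
    linarith
  have hb2 : b = -((W : ℂ) ^ 2 / 2) := by rw [hb]; push_cast; ring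
  have hfun : (fun x : ℝ => gz W x z) = fun x : ℝ => ((W / Real.sqrt (2 * Real.pi) : ℝ) : ℂ) *
      Complex.exp (b * (x : ℂ) ^ 2 + (-(I * (W : ℂ) ^ 2 * z)) * x + ((W : ℂ) ^ 2 * z ^ 2 / 2)) := by
    funext x
    unfold gz
    congr 2
    rw [hb2]
    push_cast
    have hI : I ^ 2 = -1 := Complex.I_sq
    linear_combination ((W : ℂ) ^ 2 * (x : ℂ) ^ 2 / 2) * hI
  rw [hfun]
  refine ⟨(integrable_cexp_quadratic' hbre _ _).const_mul _, ?_⟩
  rw [integral_const_mul, integral_cexp_quadratic hbre]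
  have h1 : (W : ℂ) ^ 2 * z ^ 2 / 2 - (-(I * (W : ℂ) ^ 2 * z)) ^ 2 / (4 * b) = 0 := by
    rw [hb2]
    field_simp
    have hI : I ^ 2 = -1 := Complex.I_sq
    linear_combination (4 * (W : ℂ) ^ 2 * z ^ 2) * hI
  rw [h1, Complex.exp_zero, mul_one]
  have h2 : (Real.pi : ℂ) / -b = ((2 * Real.pi / W ^ 2 : ℝ) : ℂ) := by
    rw [hb2]; push_cast; field_simp
  rw [h2, show (1 / 2 : ℂ) = ((1 / 2 : ℝ) : ℂ) by push_cast; ring,
    ← Complex.ofReal_cpow (by positivity), ← Complex.ofReal_mul, ← Complex.ofReal_one]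
  congr 1
  rw [← Real.sqrt_eq_rpow, Real.sqrt_div (by positivity), Real.sqrt_sq hW.le]
  have : Real.sqrt (2 * Real.pi) ≠ 0 := by positivity
  field_simp

theorem C3A_int (W c : ℝ) (hW : 0 < W) : Integrable (fun x : ℝ => Real.exp (-(W ^ 2 / 2) * (c - x) ^ 2)) := by
  have h := (integrable_exp_neg_mul_sq (show 0 < W ^ 2 / 2 by positivity)).comp_sub_left c
  exact h

theorem C3A_gauss (W c η : ℝ) (hW : 0 < W) (hη : 0 ≤ η) :
    ∫ x in Set.Ioi (c + η), Real.exp (-(W ^ 2 / 2) * (c - x) ^ 2) ≤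
      Real.exp (-(W ^ 2 * η ^ 2 / 2)) * (Real.sqrt (2 * Real.pi) / W / 2) := by
  have hmp : MeasurePreserving (fun x : ℝ => x + (c + η)) := measurePreserving_add_right volume (c + η)
  have hemb : MeasurableEmbedding (fun x : ℝ => x + (c + η)) := measurableEmbedding_addRight (c + η)
  have h1 : ∫ x in Set.Ioi (c + η), Real.exp (-(W ^ 2 / 2) * (c - x) ^ 2) =
      ∫ u in Set.Ioi (0 : ℝ), Real.exp (-(W ^ 2 / 2) * (c - (u + (c + η))) ^ 2) := by
    have h := hmp.setIntegral_preimage_emb hemb (fun x => Real.exp (-(W ^ 2 / 2) * (c - x) ^ 2))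
      (Set.Ioi (c + η))
    rw [← h]
    congr 2
    ext x
    simp
  rw [h1]
  have h2 : ∫ u in Set.Ioi (0 : ℝ), Real.exp (-(W ^ 2 / 2) * u ^ 2) = Real.sqrt (2 * Real.pi) / W / 2 := by
    rw [integral_gaussian_Ioi]
    congr 1
    rw [show Real.pi / (W ^ 2 / 2) = 2 * Real.pi / W ^ 2 by field_simp, Real.sqrt_div (by positivity),
      Real.sqrt_sq hW.le]
  rw [← h2, ← integral_const_mul]
  refine setIntegral_mono_on ?_ ?_ measurableSet_Ioi ?_
  · have h := (C3A_int W (-η) hW).integrableOn (s := Set.Ioi (0 : ℝ))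
    refine h.congr_fun ?_ measurableSet_Ioi
    intro x _
    simp only
    congr 2
    ring
  · exact ((integrable_exp_neg_mul_sq (show 0 < W ^ 2 / 2 by positivity)).integrableOn).const_mul _
  · intro u hu
    have hu0 : (0 : ℝ) < u := hu
    rw [← Real.exp_add]
    apply Real.exp_le_exp.2
    have : 0 ≤ W ^ 2 * (u * η) := by positivity
    nlinarith

/-- C3b. PROOF. `norm_gz`: `‖gz W x z‖ = (W/√(2π)) e^{W² Re²/2} e^{-W² (Im z - x)²/2}`, `e^{W² Re²/2} ≤ e^{1/2} ≤ 2`, and for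
`x - Im z = s ≥ η`: `s² ≥ η² + (s - η)²`, `∫_0^∞ (W/√(2π)) e^{-W² u²/2} du = 1/2`. So each one-sided tail is at most
`e^{-W²η²/2}`. -/
theorem gz_side (W η : ℝ) (hW : 0 < W) (hη : 0 ≤ η) (z : ℂ) (hz : W * |z.re| ≤ 1) :
    ∫ x in Set.Ici (z.im + η), ‖gz W x z‖ ≤ Real.exp (-(W ^ 2 * η ^ 2 / 2)) ∧
    ∫ x in Set.Iic (z.im - η), ‖gz W x z‖ ≤ Real.exp (-(W ^ 2 * η ^ 2 / 2)) := by
  have hn : ∀ x : ℝ, ‖gz W x z‖ = (W / Real.sqrt (2 * Real.pi) * Real.exp (W ^ 2 / 2 * z.re ^ 2)) *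
      Real.exp (-(W ^ 2 / 2) * (z.im - x) ^ 2) := by
    intro x
    rw [norm_gz W x hW.le z, mul_assoc, ← Real.exp_add]
    congr 2
    ring
  have he : Real.exp (W ^ 2 / 2 * z.re ^ 2) ≤ 2 := by
    have h1 : W ^ 2 / 2 * z.re ^ 2 ≤ 1 / 2 := by
      have h2 : (W * |z.re|) ^ 2 ≤ 1 := by
        have h0 : 0 ≤ W * |z.re| := by positivity
        nlinarith
      rw [mul_pow, sq_abs] at h2
      linarith
    have h3 : Real.exp (1 / 2) ≤ 2 := by
      have h4 : Real.exp (1 / 2) ^ 2 ≤ 4 := by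
        rw [← Real.exp_nat_mul]
        norm_num
        have := Real.exp_one_lt_d9
        linarith
      nlinarith [Real.exp_pos (1 / 2)]
    exact le_trans (Real.exp_le_exp.2 h1) h3
  have hp : 0 < Real.sqrt (2 * Real.pi) := by positivity
  have hfin : ∀ J : ℝ, J ≤ Real.exp (-(W ^ 2 * η ^ 2 / 2)) * (Real.sqrt (2 * Real.pi) / W / 2) →
      (W / Real.sqrt (2 * Real.pi) * Real.exp (W ^ 2 / 2 * z.re ^ 2)) * J ≤
        Real.exp (-(W ^ 2 * η ^ 2 / 2)) := by
    intro J hJ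
    have hc0 : 0 ≤ W / Real.sqrt (2 * Real.pi) * Real.exp (W ^ 2 / 2 * z.re ^ 2) := by positivity
    calc (W / Real.sqrt (2 * Real.pi) * Real.exp (W ^ 2 / 2 * z.re ^ 2)) * J
        ≤ (W / Real.sqrt (2 * Real.pi) * Real.exp (W ^ 2 / 2 * z.re ^ 2)) *
          (Real.exp (-(W ^ 2 * η ^ 2 / 2)) * (Real.sqrt (2 * Real.pi) / W / 2)) :=
          mul_le_mul_of_nonneg_left hJ hc0
      _ = (Real.exp (W ^ 2 / 2 * z.re ^ 2) / 2) * Real.exp (-(W ^ 2 * η ^ 2 / 2)) := by
          field_simp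
      _ ≤ 1 * Real.exp (-(W ^ 2 * η ^ 2 / 2)) :=
          mul_le_mul_of_nonneg_right (by linarith) (Real.exp_pos _).le
      _ = _ := one_mul _
  constructor
  · rw [integral_Ici_eq_integral_Ioi]
    simp_rw [hn]
    rw [integral_const_mul]
    exact hfin _ (C3A_gauss W z.im η hW hη)
  · simp_rw [hn]
    rw [integral_const_mul]
    refine hfin _ ?_
    have h1 : ∫ x in Set.Iic (z.im - η), Real.exp (-(W ^ 2 / 2) * (z.im - x) ^ 2) =
        ∫ x in Set.Ioi (-z.im + η), Real.exp (-(W ^ 2 / 2) * (-z.im - x) ^ 2) := by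
      have h := integral_comp_neg_Iic (z.im - η) (fun x => Real.exp (-(W ^ 2 / 2) * (-z.im - x) ^ 2))
      rw [show -z.im + η = -(z.im - η) by ring, ← h]
      refine setIntegral_congr_fun measurableSet_Iic ?_
      intro x _
      simp only
      congr 2
      ring
    rw [h1]
    exact C3A_gauss W (-z.im) η hW hη

end Pool.Agent.SK
end

section

set_option autoImplicit false

namespace Pool.Agent.SK

open Complex MeasureTheory

/-- C3c. PROOF. `[a, b]` is contained in one of the half lines of `gz_side`; `norm_integral_le_integral_norm`,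
`setIntegral_mono_set`. -/
theorem FI_out (W a b η : ℝ) (hW : 0 < W) (hab : a ≤ b) (hη : 0 ≤ η) (z : ℂ) (hz : W * |z.re| ≤ 1)
    (h : z.im ≤ a - η ∨ b + η ≤ z.im) : ‖FI W a b z‖ ≤ Real.exp (-(W ^ 2 * η ^ 2 / 2)) := by
  have hint := (gz_full W hW z).1.norm
  have h1 : ‖FI W a b z‖ ≤ ∫ x in a..b, ‖gz W x z‖ := by
    unfold FI
    exact intervalIntegral.norm_integral_le_integral_norm hab
  rw [intervalIntegral.integral_of_le hab] at h1
  refine h1.trans ?_
  rcases h with h | h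
  · refine le_trans (setIntegral_mono_set hint.integrableOn ?_ ?_) (gz_side W η hW hη z hz).1
    · exact Filter.Eventually.of_forall fun x => norm_nonneg _
    · refine Filter.Eventually.of_forall fun x hx => ?_
      have hx' : x ∈ Set.Ioc a b := hx
      show z.im + η ≤ x
      linarith [hx'.1]
  · refine le_trans (setIntegral_mono_set hint.integrableOn ?_ ?_) (gz_side W η hW hη z hz).2
    · exact Filter.Eventually.of_forall fun x => norm_nonneg _
    · refine Filter.Eventually.of_forall fun x hx => ?_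
      have hx' : x ∈ Set.Ioc a b := hx
      show x ≤ z.im - η
      linarith [hx'.2]

/-- C3d. PROOF. `1 - FI = ∫_{x < a} gz + ∫_{x > b} gz` (`gz_full`), each at most `e^{-W²η²/2}` (`gz_side`, as
`a ≤ z.im - η` and `z.im + η ≤ b`). -/
theorem FI_in (W a b η : ℝ) (hW : 0 < W) (hη : 0 ≤ η) (z : ℂ) (hz : W * |z.re| ≤ 1)
    (h1 : a + η ≤ z.im) (h2 : z.im + η ≤ b) : ‖FI W a b z - 1‖ ≤ 2 * Real.exp (-(W ^ 2 * η ^ 2 / 2)) := by
  have hint := (gz_full W hW z).1
  have hfull := (gz_full W hW z).2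
  have hab : a ≤ b := by linarith
  have e1 : (∫ x in Set.Iic a, gz W x z) + (∫ x in Set.Ioi a, gz W x z) = 1 := by
    rw [← hfull]
    exact intervalIntegral.integral_Iic_add_Ioi hint.integrableOn hint.integrableOn
  have e2 : (∫ x in Set.Ioc a b, gz W x z) + (∫ x in Set.Ioi b, gz W x z) = ∫ x in Set.Ioi a, gz W x z := by
    rw [← setIntegral_union (Set.Ioc_disjoint_Ioi le_rfl) measurableSet_Ioi hint.integrableOn
      hint.integrableOn, Set.Ioc_union_Ioi_eq_Ioi hab]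
  have e3 : FI W a b z = ∫ x in Set.Ioc a b, gz W x z := by
    unfold FI
    exact intervalIntegral.integral_of_le hab
  have e4 : FI W a b z - 1 = -((∫ x in Set.Iic a, gz W x z) + (∫ x in Set.Ioi b, gz W x z)) := by
    rw [e3, ← e1, ← e2]
    ring
  rw [e4, norm_neg]
  have n1 : ‖∫ x in Set.Iic a, gz W x z‖ ≤ Real.exp (-(W ^ 2 * η ^ 2 / 2)) := by
    refine (norm_integral_le_integral_norm _).trans ?_
    refine le_trans (setIntegral_mono_set hint.norm.integrableOn ?_ ?_) (gz_side W η hW hη z hz).2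
    · exact Filter.Eventually.of_forall fun x => norm_nonneg _
    · refine Filter.Eventually.of_forall fun x hx => ?_
      have hx' : x ≤ a := hx
      show x ≤ z.im - η
      linarith
  have n2 : ‖∫ x in Set.Ioi b, gz W x z‖ ≤ Real.exp (-(W ^ 2 * η ^ 2 / 2)) := by
    refine (norm_integral_le_integral_norm _).trans ?_
    refine le_trans (setIntegral_mono_set hint.norm.integrableOn ?_ ?_) (gz_side W η hW hη z hz).1
    · exact Filter.Eventually.of_forall fun x => norm_nonneg _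
    · refine Filter.Eventually.of_forall fun x hx => ?_
      have hx' : b < x := hx
      show z.im + η ≤ x
      linarith
  refine (norm_add_le _ _).trans ?_
  linarith

/-- C3f. PROOF. `gz_neg_conj` and `intervalIntegral.integral_conj`. -/
theorem FI_neg_conj (W a b : ℝ) (z : ℂ) : FI W a b (-(starRingEnd ℂ) z) = (starRingEnd ℂ) (FI W a b z) := by
  unfold FI
  simp_rw [gz_neg_conj]
  rw [intervalIntegral, intervalIntegral, map_sub, integral_conj, integral_conj]

end Pool.Agent.SK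
end

section

set_option autoImplicit false

namespace Pool.Agent.SK

open Complex MeasureTheory

/-- C3e. PROOF. `Re (gz W x z) = ‖gz W x z‖ cos (W² Re z (Im z - x))` (`(z - ix)² = δ² - y² + 2 i δ y`, `y = Im z - x`), and for
`|y| ≤ 1` the angle is at most `W² |Re z| ≤ 1 < π/2`, so the real part is `≥ 0`. The rest of `[a, b]` is contained in the two
half lines of `gz_side` with `η = 1` (`W |Re z| ≤ W² |Re z| ≤ 1` as `W ≥ 1`). -/
theorem FI_re (W a b : ℝ) (hW : 1 ≤ W) (hab : a ≤ b) (z : ℂ) (hz : W ^ 2 * |z.re| ≤ 1) :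
    -(2 * Real.exp (-(W ^ 2 / 2))) ≤ (FI W a b z).re := by
  have hW0 : 0 < W := by linarith
  have hint := (gz_full W hW0 z).1
  have hz1 : W * |z.re| ≤ 1 := by
    refine le_trans ?_ hz
    have : 0 ≤ |z.re| := abs_nonneg _
    nlinarith [mul_nonneg (by nlinarith : (0:ℝ) ≤ W ^ 2 - W) this]
  have hside := gz_side W 1 hW0 zero_le_one z hz1
  have hre : (FI W a b z).re = ∫ x in Set.Ioc a b, (gz W x z).re := by
    unfold FI
    rw [intervalIntegral.integral_of_le hab]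
    exact (integral_re hint.integrableOn).symm
  have hintre : Integrable (fun x : ℝ => (gz W x z).re) := hint.re
  -- pointwise lower bound
  have hpt : ∀ x : ℝ, -((Set.Ici (z.im + 1)).indicator (fun x : ℝ => ‖gz W x z‖) x +
      (Set.Iic (z.im - 1)).indicator (fun x : ℝ => ‖gz W x z‖) x) ≤ (gz W x z).re := by
    intro x
    by_cases hx1 : z.im + 1 ≤ x
    · have a1 : (Set.Ici (z.im + 1)).indicator (fun x : ℝ => ‖gz W x z‖) x = ‖gz W x z‖ :=
        Set.indicator_of_mem (Set.mem_Ici.2 hx1) _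
      have a2 : 0 ≤ (Set.Iic (z.im - 1)).indicator (fun x : ℝ => ‖gz W x z‖) x :=
        Set.indicator_nonneg (fun _ _ => norm_nonneg _) _
      have a3 := (abs_le.1 (Complex.abs_re_le_norm (gz W x z))).1
      rw [a1]; linarith
    · by_cases hx2 : x ≤ z.im - 1
      · have a1 : (Set.Iic (z.im - 1)).indicator (fun x : ℝ => ‖gz W x z‖) x = ‖gz W x z‖ :=
          Set.indicator_of_mem (Set.mem_Iic.2 hx2) _
        have a2 : 0 ≤ (Set.Ici (z.im + 1)).indicator (fun x : ℝ => ‖gz W x z‖) x :=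
          Set.indicator_nonneg (fun _ _ => norm_nonneg _) _
        have a3 := (abs_le.1 (Complex.abs_re_le_norm (gz W x z))).1
        rw [a1]; linarith
      · have a1 : (Set.Iic (z.im - 1)).indicator (fun x : ℝ => ‖gz W x z‖) x = 0 :=
          Set.indicator_of_notMem (by simpa using hx2) _
        have a2 : (Set.Ici (z.im + 1)).indicator (fun x : ℝ => ‖gz W x z‖) x = 0 :=
          Set.indicator_of_notMem (by simpa using hx1) _
        rw [a1, a2]
        have hpos : 0 ≤ (gz W x z).re := by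
          have hy : |z.im - x| ≤ 1 := by
            rw [abs_le]; push Not at hx1 hx2; constructor <;> linarith
          have hk : 0 ≤ W / Real.sqrt (2 * Real.pi) := by positivity
          unfold gz
          rw [Complex.re_ofReal_mul, Complex.exp_re]
          refine mul_nonneg hk (mul_nonneg (Real.exp_pos _).le ?_)
          have him : (((W ^ 2 / 2 : ℝ) : ℂ) * (z - (x : ℂ) * I) ^ 2).im = W ^ 2 * z.re * (z.im - x) := by
            rw [Complex.im_ofReal_mul]
            simp [pow_two]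
            ring
          rw [him]
          apply Real.cos_nonneg_of_mem_Icc
          have hb : |W ^ 2 * z.re * (z.im - x)| ≤ 1 := by
            rw [abs_mul, abs_mul, abs_of_nonneg (sq_nonneg W)]
            have : 0 ≤ |z.im - x| := abs_nonneg _
            calc W ^ 2 * |z.re| * |z.im - x| ≤ 1 * 1 := by
                  apply mul_le_mul hz hy this zero_le_one
              _ = 1 := one_mul 1
          have hpi := Real.pi_gt_three
          rw [abs_le] at hb
          constructor <;> linarith [hb.1, hb.2]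
        simpa using hpos
  have hi1 : Integrable ((Set.Ici (z.im + 1)).indicator (fun x : ℝ => ‖gz W x z‖)) :=
    hint.norm.indicator measurableSet_Ici
  have hi2 : Integrable ((Set.Iic (z.im - 1)).indicator (fun x : ℝ => ‖gz W x z‖)) :=
    hint.norm.indicator measurableSet_Iic
  have hle : ∫ x in Set.Ioc a b, -((Set.Ici (z.im + 1)).indicator (fun x : ℝ => ‖gz W x z‖) x +
      (Set.Iic (z.im - 1)).indicator (fun x : ℝ => ‖gz W x z‖) x) ≤ ∫ x in Set.Ioc a b, (gz W x z).re := by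
    refine integral_mono ((hi1.add hi2).neg.integrableOn) hintre.integrableOn ?_
    intro x
    exact hpt x
  rw [hre]
  refine le_trans ?_ hle
  rw [integral_neg]
  apply neg_le_neg
  have hsum : ∫ x in Set.Ioc a b, ((Set.Ici (z.im + 1)).indicator (fun x : ℝ => ‖gz W x z‖) x +
      (Set.Iic (z.im - 1)).indicator (fun x : ℝ => ‖gz W x z‖) x) ≤
      ∫ x : ℝ, ((Set.Ici (z.im + 1)).indicator (fun x : ℝ => ‖gz W x z‖) x +
      (Set.Iic (z.im - 1)).indicator (fun x : ℝ => ‖gz W x z‖) x) := by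
    refine setIntegral_le_integral (hi1.add hi2) ?_
    refine Filter.Eventually.of_forall fun x => ?_
    exact add_nonneg (Set.indicator_nonneg (fun _ _ => norm_nonneg _) _)
      (Set.indicator_nonneg (fun _ _ => norm_nonneg _) _)
  refine hsum.trans ?_
  rw [integral_add hi1 hi2, integral_indicator measurableSet_Ici, integral_indicator measurableSet_Iic]
  have h1 := hside.1
  have h2 := hside.2
  have e : W ^ 2 * (1 : ℝ) ^ 2 / 2 = W ^ 2 / 2 := by ring
  rw [e] at h1 h2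
  linarith

end Pool.Agent.SK
end

section

set_option autoImplicit false

namespace Pool.Agent.SK

open Complex MeasureTheory

/-- The explicit formula integrated over `[a, b]`, with a bounded error. -/
def EFp {r : ℕ} [NeZero r] (χ : DirichletCharacter ℂ r) (T W C₀ Y₀ T₁ : ℝ) : Prop :=
  ∀ a b t : ℝ, |a| ≤ T₁ → |b| ≤ T₁ → a ≤ b → |t| ≤ Y₀ →
    ‖Gu χ T W a b t - ((Real.log r : ℂ) * kap W a b t - PU χ W a b t -
      (starRingEnd ℂ) (PU χ W a b (-t)))‖ ≤ C₀

end Pool.Agent.SK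
end

section

set_option autoImplicit false

namespace Pool.Agent.SK

open Complex MeasureTheory

private theorem C5A_norm_const : ‖(1 / (2 * Real.pi) : ℂ)‖ = 1 / (2 * Real.pi) := by
  have h : (1 / (2 * Real.pi) : ℂ) = ((1 / (2 * Real.pi) : ℝ) : ℂ) := by push_cast; ring
  rw [h, Complex.norm_real, Real.norm_of_nonneg]
  positivity

private theorem C5A_norm (W a b t : ℝ) :
    ‖kap W a b t‖ = 1 / (2 * Real.pi) * Real.exp (-(t ^ 2 / (2 * W ^ 2))) *
      ‖∫ x in a..b, Complex.exp ((x : ℂ) * t * I)‖ := by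
  unfold kap
  rw [norm_mul, norm_mul, C5A_norm_const, Complex.norm_real, Real.norm_of_nonneg (Real.exp_pos _).le]

/-- C5a. PROOF. `‖∫_a^b e^{ixt}‖ ≤ b - a`. -/
theorem kap_le (W a b t : ℝ) (hab : a ≤ b) :
    ‖kap W a b t‖ ≤ (b - a) / (2 * Real.pi) * Real.exp (-(t ^ 2 / (2 * W ^ 2))) := by
  rw [C5A_norm]
  have h1 : ‖∫ x in a..b, Complex.exp ((x : ℂ) * t * I)‖ ≤ 1 * |b - a| := by
    refine intervalIntegral.norm_integral_le_of_norm_le_const fun x _ => ?_
    rw [show (x : ℂ) * t * I = ((x * t : ℝ) : ℂ) * I by push_cast; ring, Complex.norm_exp_ofReal_mul_I]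
  rw [one_mul, abs_of_nonneg (by linarith)] at h1
  have h2 : (0 : ℝ) ≤ 1 / (2 * Real.pi) * Real.exp (-(t ^ 2 / (2 * W ^ 2))) := by positivity
  calc 1 / (2 * Real.pi) * Real.exp (-(t ^ 2 / (2 * W ^ 2))) *
      ‖∫ x in a..b, Complex.exp ((x : ℂ) * t * I)‖ ≤
      1 / (2 * Real.pi) * Real.exp (-(t ^ 2 / (2 * W ^ 2))) * (b - a) :=
        mul_le_mul_of_nonneg_left h1 h2
    _ = _ := by ring

/-- C5b. PROOF. `exp(ixt)`, `x = u + y`, `|y| ≤ h`: the substitution `y ↦ -y`: `∫_{u-h}^{u+h} e^{ixt} dx = e^{iut} ∫_{-h}^h e^{iyt} dy`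
and the last integral is even in `t`. -/
theorem kap_norm_neg (W u h t : ℝ) : ‖kap W (u - h) (u + h) (-t)‖ = ‖kap W (u - h) (u + h) t‖ := by
  rw [C5A_norm, C5A_norm]
  have h0 : (-t) ^ 2 = t ^ 2 := by ring
  rw [h0]
  congr 1
  have key : (∫ x in (u - h)..(u + h), Complex.exp ((x : ℂ) * ((-t : ℝ) : ℂ) * I)) =
      (starRingEnd ℂ) (∫ x in (u - h)..(u + h), Complex.exp ((x : ℂ) * t * I)) := by
    rw [← intervalIntegral.intervalIntegral_conj]
    refine intervalIntegral.integral_congr fun x _ => ?_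
    show Complex.exp ((x : ℂ) * ((-t : ℝ) : ℂ) * I) = (starRingEnd ℂ) (Complex.exp ((x : ℂ) * t * I))
    rw [← Complex.exp_conj]
    congr 1
    simp only [map_mul, Complex.conj_ofReal, Complex.conj_I]
    push_cast
    ring
  rw [key, RCLike.norm_conj]

/-- C5e. PROOF. `kap_le`, `t ≥ A`: `‖kap‖² ≤ ((b-a)/(2π))² e^{-A²/W²}`, length `≤ B`. -/
theorem kap_tail (W a b A B : ℝ) (hW : 0 < W) (hab : a ≤ b) (hA : 0 ≤ A) (hAB : A ≤ B) :
    ∫ t in A..B, ‖kap W a b t‖ ^ 2 ≤ (b - a) ^ 2 * B * Real.exp (-(A ^ 2 / W ^ 2)) := by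
  have hpi : (1 : ℝ) ≤ 2 * Real.pi := by linarith [Real.pi_gt_three]
  have hpt : ∀ t ∈ Set.Icc A B, ‖kap W a b t‖ ^ 2 ≤ (b - a) ^ 2 * Real.exp (-(A ^ 2 / W ^ 2)) := by
    intro t ht
    have hn := kap_le W a b t hab
    have hba : 0 ≤ b - a := by linarith
    have h1 : ‖kap W a b t‖ ≤ (b - a) * Real.exp (-(A ^ 2 / (2 * W ^ 2))) := by
      refine hn.trans (mul_le_mul ?_ ?_ (Real.exp_pos _).le hba)
      · exact div_le_self hba hpi
      · apply Real.exp_le_exp.2
        have : A ^ 2 ≤ t ^ 2 := pow_le_pow_left₀ hA ht.1 2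
        have hW2 : 0 < 2 * W ^ 2 := by positivity
        have := div_le_div_of_nonneg_right this hW2.le
        linarith
    calc ‖kap W a b t‖ ^ 2 ≤ ((b - a) * Real.exp (-(A ^ 2 / (2 * W ^ 2)))) ^ 2 :=
          pow_le_pow_left₀ (norm_nonneg _) h1 2
      _ = (b - a) ^ 2 * Real.exp (-(A ^ 2 / W ^ 2)) := by
          rw [mul_pow, ← Real.exp_nat_mul]
          congr 2
          have : W ≠ 0 := hW.ne'
          push_cast
          field_simp
  by_cases hint : IntervalIntegrable (fun t => ‖kap W a b t‖ ^ 2) volume A B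
  · calc ∫ t in A..B, ‖kap W a b t‖ ^ 2 ≤ ∫ t in A..B, (b - a) ^ 2 * Real.exp (-(A ^ 2 / W ^ 2)) :=
          intervalIntegral.integral_mono_on hAB hint intervalIntegrable_const hpt
      _ = (B - A) * ((b - a) ^ 2 * Real.exp (-(A ^ 2 / W ^ 2))) := by
          rw [intervalIntegral.integral_const, smul_eq_mul]
      _ ≤ B * ((b - a) ^ 2 * Real.exp (-(A ^ 2 / W ^ 2))) := by
          refine mul_le_mul_of_nonneg_right (by linarith) (by positivity)
      _ = _ := by ring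
  · rw [intervalIntegral.integral_undef hint]
    have : 0 ≤ B := hA.trans hAB
    positivity

end Pool.Agent.SK
end

section

set_option autoImplicit false

namespace Pool.Agent.SK

open Complex MeasureTheory

/-- The Fourier transform of the Gaussian. -/
theorem C5B_gauss (W s : ℝ) (hW : 0 < W) :
    ∫ t : ℝ, ((Real.exp (-(t ^ 2 / W ^ 2)) : ℝ) : ℂ) * Complex.exp ((s : ℂ) * t * I) =
      ((Real.sqrt Real.pi * W * Real.exp (-(W ^ 2 / 4) * s ^ 2) : ℝ) : ℂ) := by
  have hW0 : (W : ℂ) ≠ 0 := by exact_mod_cast hW.ne'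
  set b : ℂ := ((-(1 / W ^ 2) : ℝ) : ℂ) with hb
  have hbre : b.re < 0 := by
    rw [hb, Complex.ofReal_re]
    have : 0 < 1 / W ^ 2 := by positivity
    linarith
  have hb2 : b = -(1 / (W : ℂ) ^ 2) := by rw [hb]; push_cast; ring
  have hfun : (fun t : ℝ => ((Real.exp (-(t ^ 2 / W ^ 2)) : ℝ) : ℂ) * Complex.exp ((s : ℂ) * t * I)) =
      fun t : ℝ => Complex.exp (b * (t : ℂ) ^ 2 + (s * I) * t + 0) := by
    funext t
    rw [Complex.ofReal_exp, ← Complex.exp_add]
    congr 1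
    rw [hb2]
    push_cast
    ring
  rw [hfun, integral_cexp_quadratic hbre]
  have h1 : (0 : ℂ) - (s * I) ^ 2 / (4 * b) = ((-(W ^ 2 / 4) * s ^ 2 : ℝ) : ℂ) := by
    rw [hb2, mul_pow, Complex.I_sq]
    push_cast
    field_simp
    ring
  rw [h1]
  have h2 : (Real.pi : ℂ) / -b = ((Real.pi * W ^ 2 : ℝ) : ℂ) := by
    rw [hb2]; push_cast; field_simp
  rw [h2, show (1 / 2 : ℂ) = ((1 / 2 : ℝ) : ℂ) by push_cast; ring,
    ← Complex.ofReal_cpow (by positivity), ← Real.sqrt_eq_rpow, Real.sqrt_mul Real.pi_pos.le,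
    Real.sqrt_sq hW.le, ← Complex.ofReal_exp, ← Complex.ofReal_mul]

theorem C5B_G (W : ℝ) (hW : 0 < W) : Integrable (fun t : ℝ => Real.exp (-(t ^ 2 / W ^ 2))) := by
  have h := integrable_exp_neg_mul_sq (show 0 < 1 / W ^ 2 by positivity)
  refine h.congr (Filter.Eventually.of_forall ?_)
  intro t
  simp only
  congr 1
  ring

theorem C5B_F_le (a b t : ℝ) (hab : a ≤ b) : ‖∫ x in a..b, Complex.exp ((x : ℂ) * t * I)‖ ≤ b - a := by
  have h := intervalIntegral.norm_integral_le_of_norm_le_const (a := a) (b := b) (C := 1)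
    (f := fun x : ℝ => Complex.exp ((x : ℂ) * t * I)) (by
      intro x _
      rw [show (x : ℂ) * t * I = ((x * t : ℝ) : ℂ) * I by push_cast; ring, Complex.norm_exp_ofReal_mul_I])
  rw [one_mul, abs_of_nonneg (by linarith)] at h
  exact h

theorem C5B_norm (W a b t : ℝ) : ‖kap W a b t‖ ^ 2 = 1 / (2 * Real.pi) ^ 2 *
    (Real.exp (-(t ^ 2 / W ^ 2)) * ‖∫ x in a..b, Complex.exp ((x : ℂ) * t * I)‖ ^ 2) := by
  unfold kap
  rw [norm_mul, norm_mul, mul_pow, mul_pow, Complex.norm_real, Real.norm_of_nonneg (Real.exp_pos _).le,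
    ← Real.exp_nat_mul]
  have h1 : ‖(1 / (2 * Real.pi) : ℂ)‖ = 1 / (2 * Real.pi) := by
    rw [show (1 / (2 * Real.pi) : ℂ) = ((1 / (2 * Real.pi) : ℝ) : ℂ) by push_cast; ring, Complex.norm_real,
      Real.norm_of_nonneg (by positivity)]
  rw [h1]
  have h2 : ((2 : ℕ) : ℝ) * -(t ^ 2 / (2 * W ^ 2)) = -(t ^ 2 / W ^ 2) := by
    push_cast
    field_simp
  rw [h2]
  ring

theorem C5B_cont (a b : ℝ) : Continuous (fun t : ℝ => ∫ x in a..b, Complex.exp ((x : ℂ) * t * I)) := by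
  apply intervalIntegral.continuous_parametric_intervalIntegral_of_continuous' (by fun_prop)

theorem C5B_main (W a b : ℝ) (hW : 0 < W) (hab : a ≤ b) :
    ∫ t : ℝ, Real.exp (-(t ^ 2 / W ^ 2)) * ‖∫ x in a..b, Complex.exp ((x : ℂ) * t * I)‖ ^ 2 ≤
      (b - a) * (2 * Real.pi) := by
  set μ : Measure ℝ := volume.restrict (Set.Ioc a b) with hμ
  haveI : IsFiniteMeasure μ := by
    rw [hμ]; infer_instance
  -- the square as a double integral
  have h1 : ∀ t : ℝ, ((Real.exp (-(t ^ 2 / W ^ 2)) * ‖∫ x in a..b, Complex.exp ((x : ℂ) * t * I)‖ ^ 2 : ℝ) : ℂ) =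
      ∫ p : ℝ × ℝ, ((Real.exp (-(t ^ 2 / W ^ 2)) : ℝ) : ℂ) * Complex.exp (((p.1 - p.2 : ℝ) : ℂ) * t * I)
        ∂(μ.prod μ) := by
    intro t
    rw [integral_const_mul, Complex.ofReal_mul]
    congr 1
    rw [intervalIntegral.integral_of_le hab, ← hμ]
    have h2 : ∀ p : ℝ × ℝ, Complex.exp (((p.1 - p.2 : ℝ) : ℂ) * t * I) =
        Complex.exp ((p.1 : ℂ) * t * I) * (starRingEnd ℂ) (Complex.exp ((p.2 : ℂ) * t * I)) := by
      intro p
      rw [← Complex.exp_conj, ← Complex.exp_add]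
      congr 1
      simp only [map_mul, Complex.conj_ofReal, Complex.conj_I]
      push_cast
      ring
    simp_rw [h2]
    rw [integral_prod_mul (fun x : ℝ => Complex.exp ((x : ℂ) * t * I))
      (fun x : ℝ => (starRingEnd ℂ) (Complex.exp ((x : ℂ) * t * I))), integral_conj, Complex.mul_conj,
      Complex.normSq_eq_norm_sq]
  have hint : Integrable (fun q : ℝ × (ℝ × ℝ) => ((Real.exp (-(q.1 ^ 2 / W ^ 2)) : ℝ) : ℂ) *
      Complex.exp (((q.2.1 - q.2.2 : ℝ) : ℂ) * q.1 * I)) ((volume : Measure ℝ).prod (μ.prod μ)) := by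
    have hg : Integrable (fun q : ℝ × (ℝ × ℝ) => Real.exp (-(q.1 ^ 2 / W ^ 2)) * (1 : ℝ))
        ((volume : Measure ℝ).prod (μ.prod μ)) :=
      (C5B_G W hW).mul_prod (integrable_const (1 : ℝ))
    refine hg.mono' ?_ ?_
    · have hc : Continuous (fun q : ℝ × (ℝ × ℝ) => ((Real.exp (-(q.1 ^ 2 / W ^ 2)) : ℝ) : ℂ) *
        Complex.exp (((q.2.1 - q.2.2 : ℝ) : ℂ) * q.1 * I)) := by fun_prop
      exact hc.aestronglyMeasurable
    · refine Filter.Eventually.of_forall ?_
      intro q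
      rw [norm_mul, Complex.norm_real, Real.norm_of_nonneg (Real.exp_pos _).le,
        show ((q.2.1 - q.2.2 : ℝ) : ℂ) * q.1 * I = (((q.2.1 - q.2.2) * q.1 : ℝ) : ℂ) * I by push_cast; ring,
        Complex.norm_exp_ofReal_mul_I]
  have h3 : ((∫ t : ℝ, Real.exp (-(t ^ 2 / W ^ 2)) * ‖∫ x in a..b, Complex.exp ((x : ℂ) * t * I)‖ ^ 2 : ℝ) : ℂ) =
      ((∫ p : ℝ × ℝ, Real.sqrt Real.pi * W * Real.exp (-(W ^ 2 / 4) * (p.1 - p.2) ^ 2) ∂(μ.prod μ) : ℝ) : ℂ) := by
    rw [← integral_complex_ofReal, ← integral_complex_ofReal]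
    simp_rw [h1]
    rw [integral_integral_swap hint]
    refine integral_congr_ae (Filter.Eventually.of_forall ?_)
    intro p
    exact C5B_gauss W (p.1 - p.2) hW
  have h4 : (∫ t : ℝ, Real.exp (-(t ^ 2 / W ^ 2)) * ‖∫ x in a..b, Complex.exp ((x : ℂ) * t * I)‖ ^ 2) =
      ∫ p : ℝ × ℝ, Real.sqrt Real.pi * W * Real.exp (-(W ^ 2 / 4) * (p.1 - p.2) ^ 2) ∂(μ.prod μ) :=
    Complex.ofReal_injective h3
  rw [h4]
  have hcont : Continuous (fun p : ℝ × ℝ => Real.sqrt Real.pi * W * Real.exp (-(W ^ 2 / 4) * (p.1 - p.2) ^ 2)) := by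
    fun_prop
  have hi2 : Integrable (fun p : ℝ × ℝ => Real.sqrt Real.pi * W * Real.exp (-(W ^ 2 / 4) * (p.1 - p.2) ^ 2))
      (μ.prod μ) := by
    refine (integrable_const (Real.sqrt Real.pi * W)).mono' hcont.aestronglyMeasurable ?_
    refine Filter.Eventually.of_forall ?_
    intro p
    have h5 : Real.exp (-(W ^ 2 / 4) * (p.1 - p.2) ^ 2) ≤ 1 := by
      apply Real.exp_le_one_iff.2
      have : 0 ≤ (W ^ 2 / 4) * (p.1 - p.2) ^ 2 := by positivity
      linarith
    have h6 : 0 ≤ Real.sqrt Real.pi * W := by positivity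
    rw [Real.norm_of_nonneg (by positivity)]
    nlinarith [Real.exp_pos (-(W ^ 2 / 4) * (p.1 - p.2) ^ 2)]
  rw [integral_prod _ hi2]
  have h7 : ∀ x : ℝ, (∫ y : ℝ, Real.sqrt Real.pi * W * Real.exp (-(W ^ 2 / 4) * (x - y) ^ 2) ∂μ) ≤ 2 * Real.pi := by
    intro x
    have hgi : Integrable (fun y : ℝ => Real.sqrt Real.pi * W * Real.exp (-(W ^ 2 / 4) * (x - y) ^ 2)) := by
      have h := (integrable_exp_neg_mul_sq (show 0 < W ^ 2 / 4 by positivity)).comp_sub_left x
      exact h.const_mul _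
    have h8 : (∫ y : ℝ, Real.sqrt Real.pi * W * Real.exp (-(W ^ 2 / 4) * (x - y) ^ 2)) = 2 * Real.pi := by
      rw [integral_const_mul]
      have h9 : (∫ y : ℝ, Real.exp (-(W ^ 2 / 4) * (x - y) ^ 2)) = ∫ y : ℝ, Real.exp (-(W ^ 2 / 4) * y ^ 2) :=
        integral_sub_left_eq_self (fun y : ℝ => Real.exp (-(W ^ 2 / 4) * y ^ 2)) volume x
      rw [h9, integral_gaussian]
      rw [show Real.pi / (W ^ 2 / 4) = Real.pi * (2 / W) ^ 2 by field_simp; ring, Real.sqrt_mul Real.pi_pos.le,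
        Real.sqrt_sq (by positivity)]
      have h10 : Real.sqrt Real.pi * Real.sqrt Real.pi = Real.pi := Real.mul_self_sqrt Real.pi_pos.le
      calc Real.sqrt Real.pi * W * (Real.sqrt Real.pi * (2 / W))
          = (Real.sqrt Real.pi * Real.sqrt Real.pi) * (W * (2 / W)) := by ring
        _ = 2 * Real.pi := by rw [h10]; field_simp
    rw [← h8, hμ]
    refine setIntegral_le_integral hgi (Filter.Eventually.of_forall ?_)
    intro y
    simp only [Pi.zero_apply]
    positivity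
  calc ∫ x : ℝ, (∫ y : ℝ, Real.sqrt Real.pi * W * Real.exp (-(W ^ 2 / 4) * (x - y) ^ 2) ∂μ) ∂μ
      ≤ ∫ _x : ℝ, 2 * Real.pi ∂μ :=
        integral_mono hi2.integral_prod_left (integrable_const _) h7
    _ = (b - a) * (2 * Real.pi) := by
        rw [integral_const, hμ, measureReal_restrict_apply_univ, Real.volume_real_Ioc_of_le hab, smul_eq_mul]

/-- C5c. PROOF. `‖kap‖² = (1/4π²) e^{-t²/W²} ∫∫_{[a,b]²} e^{i(x-y)t} dx dy`; Fubini and
`∫_ℝ e^{-t²/W²} e^{ist} dt = √π W e^{-W² s²/4}` (`fourierIntegral_gaussian` or `integral_cexp_quadratic`), so the integral is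
`(1/4π²) ∫∫ √π W e^{-W²(x-y)²/4} dy dx ≤ (1/4π²) ∫_a^b ∫_ℝ √π W e^{-W² s²/4} ds dx = (1/4π²) (b - a) 2π`
(`integral_gaussian`: `√(4π/W²)`). -/
theorem kap_sq (W a b : ℝ) (hW : 0 < W) (hab : a ≤ b) :
    Integrable (fun t : ℝ => ‖kap W a b t‖ ^ 2) ∧ ∫ t : ℝ, ‖kap W a b t‖ ^ 2 ≤ (b - a) / (2 * Real.pi) := by
  have hint : Integrable (fun t : ℝ => Real.exp (-(t ^ 2 / W ^ 2)) *
      ‖∫ x in a..b, Complex.exp ((x : ℂ) * t * I)‖ ^ 2) := by
    refine ((C5B_G W hW).mul_const ((b - a) ^ 2)).mono' ?_ ?_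
    · have hc : Continuous (fun t : ℝ => Real.exp (-(t ^ 2 / W ^ 2)) *
        ‖∫ x in a..b, Complex.exp ((x : ℂ) * t * I)‖ ^ 2) := by
        have := C5B_cont a b
        fun_prop
      exact hc.aestronglyMeasurable
    · refine Filter.Eventually.of_forall ?_
      intro t
      rw [Real.norm_of_nonneg (by positivity)]
      have h1 := C5B_F_le a b t hab
      have h2 : ‖∫ x in a..b, Complex.exp ((x : ℂ) * t * I)‖ ^ 2 ≤ (b - a) ^ 2 :=
        pow_le_pow_left₀ (norm_nonneg _) h1 2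
      exact mul_le_mul_of_nonneg_left h2 (Real.exp_pos _).le
  simp_rw [C5B_norm]
  refine ⟨hint.const_mul _, ?_⟩
  rw [integral_const_mul]
  calc 1 / (2 * Real.pi) ^ 2 * ∫ t : ℝ, Real.exp (-(t ^ 2 / W ^ 2)) *
        ‖∫ x in a..b, Complex.exp ((x : ℂ) * t * I)‖ ^ 2
      ≤ 1 / (2 * Real.pi) ^ 2 * ((b - a) * (2 * Real.pi)) :=
        mul_le_mul_of_nonneg_left (C5B_main W a b hW hab) (by positivity)
    _ = (b - a) / (2 * Real.pi) := by field_simp

end Pool.Agent.SK
end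

section

set_option autoImplicit false

namespace Pool.Agent.SK

open Complex MeasureTheory

/-- C5d. PROOF. `kap_sq`, `kap_norm_neg`: the integral over `(0, ∞)` is half of the integral over `ℝ`
(`integral_comp_neg_Ioi`, `integral_add_compl`), and the integral over `[0, A]` is at most that over `(0, ∞)`. -/
theorem kap_half (W u h A : ℝ) (hW : 0 < W) (hh : 0 ≤ h) (hA : 0 ≤ A) :
    ∫ t in (0 : ℝ)..A, ‖kap W (u - h) (u + h) t‖ ^ 2 ≤ h / (2 * Real.pi) := by
  obtain ⟨hint, hle⟩ := kap_sq W (u - h) (u + h) hW (by linarith)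
  have h1 : ∫ t in Set.Ioi (0 : ℝ), ‖kap W (u - h) (u + h) t‖ ^ 2 =
      ∫ t in Set.Iic (0 : ℝ), ‖kap W (u - h) (u + h) t‖ ^ 2 := by
    have := integral_comp_neg_Ioi (0 : ℝ) (fun t => ‖kap W (u - h) (u + h) t‖ ^ 2)
    simp only [kap_norm_neg, neg_zero] at this
    exact this
  have h2 := integral_add_compl (measurableSet_Ioi (a := (0 : ℝ))) hint
  rw [Set.compl_Ioi, ← h1] at h2
  have h3 : ∫ t in (0 : ℝ)..A, ‖kap W (u - h) (u + h) t‖ ^ 2 ≤
      ∫ t in Set.Ioi (0 : ℝ), ‖kap W (u - h) (u + h) t‖ ^ 2 := by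
    rw [intervalIntegral.integral_of_le hA]
    refine setIntegral_mono_set hint.integrableOn ?_ ?_
    · exact Filter.Eventually.of_forall fun t => by positivity
    · exact (Set.Ioc_subset_Ioi_self).eventuallyLE
  have h4 : (u + h - (u - h)) / (2 * Real.pi) = 2 * (h / (2 * Real.pi)) := by ring
  rw [h4] at hle
  linarith

end Pool.Agent.SK
end
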