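import Mathlib
import Pool.Agent.Lib.MP_9cfc0a_nt.Mg.G001
import Pool.Agent.Lib.MP_9cfc0a_nt.Mg.G078
import Pool.Agent.Lib.MP_9cfc0a_nt.Mg.G003
import Pool.Agent.Lib.MP_9cfc0a_nt.SO.Defs
import Pool.Agent.Lib.MP_9cfc0a_nt.Mg.G004
import Pool.Agent.Lib.MP_9cfc0a_nt.Mg.G005
import Pool.Agent.Lib.MP_9cfc0a_nt.SO.Defs2
import Pool.Agent.Lib.MP_9cfc0a_nt.EMLfun
import Pool.Agent.Lib.MP_9cfc0a_nt.SK.Defs

section

set_option autoImplicit false

namespace MP9cfc0a.SK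

open Complex MeasureTheory Pool.Agent.EM Pool.Agent.SO

lemma F1_totient (C κ : ℝ) (hb : ∀ n : ℕ, 1 ≤ n → (n.divisors.card : ℝ) ≤ C * (n : ℝ) ^ κ)
    (q : ℕ) (hq : 1 ≤ q) : (q : ℝ) ≤ C * (q : ℝ) ^ κ * (Nat.totient q : ℝ) := by
  have h1 : (q : ℝ) ≤ (q.divisors.card : ℝ) * (Nat.totient q : ℝ) := by
    have h2 : q ≤ q.divisors.card * Nat.totient q := by
      calc q = ∑ e ∈ q.divisors, Nat.totient e := (Nat.sum_totient q).symm
        _ ≤ ∑ _e ∈ q.divisors, Nat.totient q := by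
            refine Finset.sum_le_sum fun e he => ?_
            exact Nat.le_of_dvd (Nat.totient_pos.2 (by omega))
              (Nat.totient_dvd_of_dvd (Nat.dvd_of_mem_divisors he))
        _ = q.divisors.card * Nat.totient q := by rw [Finset.sum_const, smul_eq_mul]
    exact_mod_cast h2
  exact h1.trans (mul_le_mul_of_nonneg_right (hb q hq) (Nat.cast_nonneg _))

/-- F1. The characters of conductor `< q^(1-δ)` are few. -/
theorem few_small (δ ε : ℝ) (hδ : 0 < δ) (hε : 0 < ε) : ∃ q₀ : ℕ, ∀ (q : ℕ) [NeZero q], q₀ ≤ q →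
    ∀ S : Finset (DirichletCharacter ℂ q), (∀ χ ∈ S, (χ.conductor : ℝ) < (q : ℝ) ^ (1 - δ)) →
    (S.card : ℝ) ≤ ε * (q.totient : ℝ) := by
  classical
  obtain ⟨C, hC, hb⟩ := Pool.Agent.MC.C2.divisor_bound (δ / 4) (by positivity)
  have hev : ∀ᶠ q : ℕ in Filter.atTop, C ^ 2 / ε ≤ (q : ℝ) ^ (δ / 2) :=
    ((tendsto_rpow_atTop (by positivity : 0 < δ / 2)).comp
      tendsto_natCast_atTop_atTop).eventually_ge_atTop _
  obtain ⟨q₁, hq₁⟩ := hev.exists_forall_of_atTop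
  refine ⟨q₁, fun q _ hq S hS => ?_⟩
  have hq1 : 1 ≤ q := Nat.one_le_iff_ne_zero.2 (NeZero.ne q)
  have hq0 : (0 : ℝ) < q := by exact_mod_cast hq1
  set R : ℝ := (q : ℝ) ^ (1 - δ) with hR
  have hR0 : 0 < R := Real.rpow_pos_of_pos hq0 _
  have hcount := induced_count (fun r _ => (r : ℝ) < R) q 0 S
    (fun χ hχ => ⟨Nat.cast_nonneg _, hS χ hχ⟩)
  have h1 : (S.card : ℝ) ≤ ∑ r ∈ q.divisors.filter (fun r : ℕ => (0 : ℝ) ≤ (r : ℝ)),
      (Set.ncard {ψ : DirichletCharacter ℂ r | ψ.IsPrimitive ∧ (r : ℝ) < R} : ℝ) := by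
    exact_mod_cast hcount
  have h2 : ∀ r ∈ q.divisors.filter (fun r : ℕ => (0 : ℝ) ≤ (r : ℝ)),
      (Set.ncard {ψ : DirichletCharacter ℂ r | ψ.IsPrimitive ∧ (r : ℝ) < R} : ℝ) ≤ R := by
    intro r hr
    by_cases hrR : (r : ℝ) < R
    · have hr0 : r ≠ 0 := by
        rintro rfl
        have := (Finset.mem_filter.mp hr).1
        exact (NeZero.ne q) (Nat.eq_zero_of_zero_dvd (Nat.dvd_of_mem_divisors this))
      have : NeZero r := ⟨hr0⟩
      have h3 : Set.ncard {ψ : DirichletCharacter ℂ r | ψ.IsPrimitive ∧ (r : ℝ) < R} ≤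
          Nat.card (DirichletCharacter ℂ r) := by
        rw [← Set.ncard_univ]
        exact Set.ncard_le_ncard (Set.subset_univ _) (Set.toFinite _)
      rw [DirichletCharacter.card_eq_totient_of_hasEnoughRootsOfUnity] at h3
      have h4 : (Set.ncard {ψ : DirichletCharacter ℂ r | ψ.IsPrimitive ∧ (r : ℝ) < R} : ℝ) ≤ r := by
        exact_mod_cast h3.trans (Nat.totient_le r)
      linarith
    · have h3 : {ψ : DirichletCharacter ℂ r | ψ.IsPrimitive ∧ (r : ℝ) < R} = ∅ := by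
        ext ψ
        simp [hrR]
      rw [h3, Set.ncard_empty, Nat.cast_zero]
      exact hR0.le
  have h3 : (S.card : ℝ) ≤ (q.divisors.card : ℝ) * R := by
    refine h1.trans ((Finset.sum_le_sum h2).trans ?_)
    rw [Finset.sum_const, nsmul_eq_mul]
    refine mul_le_mul_of_nonneg_right ?_ hR0.le
    exact_mod_cast Finset.card_filter_le _ _
  have h4 := hb q hq1
  have h5 := F1_totient C (δ / 4) hb q hq1
  have h6 := hq₁ q hq
  have hp : (0 : ℝ) < (q : ℝ) ^ (δ / 4) := Real.rpow_pos_of_pos hq0 _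
  have hφ : (0 : ℝ) ≤ (Nat.totient q : ℝ) := Nat.cast_nonneg _
  -- `q^(1-δ) * q^δ = q`
  have h7 : R * (q : ℝ) ^ δ = q := by
    rw [hR, ← Real.rpow_add hq0]
    simp
  have h8 : (q : ℝ) ^ δ = (q : ℝ) ^ (δ / 4) * (q : ℝ) ^ (δ / 4) * (q : ℝ) ^ (δ / 2) := by
    rw [← Real.rpow_add hq0, ← Real.rpow_add hq0]
    congr 1
    ring
  have hq2 : (0 : ℝ) < (q : ℝ) ^ (δ / 2) := Real.rpow_pos_of_pos hq0 _
  have h9 : C ^ 2 ≤ ε * (q : ℝ) ^ (δ / 2) := by
    rw [div_le_iff₀ hε] at h6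
    linarith
  -- card ≤ C q^(δ/4) R
  have h10 : (S.card : ℝ) ≤ C * (q : ℝ) ^ (δ / 4) * R :=
    h3.trans (mul_le_mul_of_nonneg_right h4 hR0.le)
  -- R ≤ C q^(δ/4) φ / q^δ
  have h11 : R * ((q : ℝ) ^ (δ / 4) * (q : ℝ) ^ (δ / 2)) ≤ C * (Nat.totient q : ℝ) := by
    have h12 : (q : ℝ) ^ (δ / 4) * (R * ((q : ℝ) ^ (δ / 4) * (q : ℝ) ^ (δ / 2))) ≤
        (q : ℝ) ^ (δ / 4) * (C * (Nat.totient q : ℝ)) := by
      calc (q : ℝ) ^ (δ / 4) * (R * ((q : ℝ) ^ (δ / 4) * (q : ℝ) ^ (δ / 2)))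
          = R * ((q : ℝ) ^ (δ / 4) * (q : ℝ) ^ (δ / 4) * (q : ℝ) ^ (δ / 2)) := by ring
        _ = q := by rw [← h8, h7]
        _ ≤ C * (q : ℝ) ^ (δ / 4) * (Nat.totient q : ℝ) := h5
        _ = _ := by ring
    exact le_of_mul_le_mul_left h12 hp
  have h13 : (q : ℝ) ^ (δ / 2) * (S.card : ℝ) ≤ (q : ℝ) ^ (δ / 2) * (ε * (q.totient : ℝ)) := by
    calc (q : ℝ) ^ (δ / 2) * (S.card : ℝ) ≤ (q : ℝ) ^ (δ / 2) * (C * (q : ℝ) ^ (δ / 4) * R) :=
          mul_le_mul_of_nonneg_left h10 hq2.le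
      _ = C * (R * ((q : ℝ) ^ (δ / 4) * (q : ℝ) ^ (δ / 2))) := by ring
      _ ≤ C * (C * (Nat.totient q : ℝ)) := mul_le_mul_of_nonneg_left h11 hC
      _ = C ^ 2 * (Nat.totient q : ℝ) := by ring
      _ ≤ ε * (q : ℝ) ^ (δ / 2) * (Nat.totient q : ℝ) := mul_le_mul_of_nonneg_right h9 hφ
      _ = _ := by ring
  exact le_of_mul_le_mul_left h13 hq2

end MP9cfc0a.SK
end

section

set_option autoImplicit false

namespace Pool.Agent.SO

open Finset

/-- MoD2. `∑_{r ∣ q} N(r) ≤ φ(q) + C q^{91/100}`: the sum of the normalisations over the divisors.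
PROOF. `card_prim_sum`; `∑_{r ∣ q} r^{9/10} ≤ τ(q) q^{9/10} ≤ C q^{1/100} q^{9/10}` (`divisor_bound`). -/
lemma sum_NN : ∃ C : ℝ, 1 ≤ C ∧ ∀ (q : ℕ) [NeZero q],
    ∑ r ∈ q.divisors, (if h : r ≠ 0 then (haveI : NeZero r := ⟨h⟩; NN r) else 0)
      ≤ (Nat.totient q : ℝ) + C * (q : ℝ) ^ (91 / 100 : ℝ) := by
  obtain ⟨C, hC, hb⟩ := Pool.Agent.MC.C2.divisor_bound (1 / 100) (by norm_num)
  refine ⟨C + 1, by linarith, ?_⟩
  intro q _
  have hq : 1 ≤ q := Nat.one_le_iff_ne_zero.2 (NeZero.ne q)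
  have hq0 : (0 : ℝ) < q := by exact_mod_cast hq
  have h1 : ∀ r ∈ q.divisors, (if h : r ≠ 0 then (haveI : NeZero r := ⟨h⟩; NN r) else 0) ≤
      (if h : r ≠ 0 then (haveI : NeZero r := ⟨h⟩; ((prim r).card : ℝ)) else 0) +
        (q : ℝ) ^ (9 / 10 : ℝ) := by
    intro r hr
    have hr0 : r ≠ 0 := by
      rintro rfl
      exact (NeZero.ne q) (Nat.eq_zero_of_zero_dvd (Nat.dvd_of_mem_divisors hr))
    rw [dif_pos hr0, dif_pos hr0]
    have : NeZero r := ⟨hr0⟩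
    have h2 : NN r = ((prim r).card : ℝ) + (r : ℝ) ^ (9 / 10 : ℝ) := rfl
    rw [h2]
    have h3 : (r : ℝ) ≤ q := by
      exact_mod_cast Nat.le_of_dvd (by omega) (Nat.dvd_of_mem_divisors hr)
    have h4 : (r : ℝ) ^ (9 / 10 : ℝ) ≤ (q : ℝ) ^ (9 / 10 : ℝ) :=
      Real.rpow_le_rpow (Nat.cast_nonneg _) h3 (by norm_num)
    linarith
  refine (Finset.sum_le_sum h1).trans ?_
  rw [Finset.sum_add_distrib, card_prim_sum, Finset.sum_const, nsmul_eq_mul]
  have h5 := hb q hq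
  have hp : (0 : ℝ) ≤ (q : ℝ) ^ (9 / 10 : ℝ) := Real.rpow_nonneg hq0.le _
  have h6 : (q.divisors.card : ℝ) * (q : ℝ) ^ (9 / 10 : ℝ) ≤ C * (q : ℝ) ^ (91 / 100 : ℝ) := by
    calc (q.divisors.card : ℝ) * (q : ℝ) ^ (9 / 10 : ℝ) ≤
          (C * (q : ℝ) ^ (1 / 100 : ℝ)) * (q : ℝ) ^ (9 / 10 : ℝ) :=
          mul_le_mul_of_nonneg_right h5 hp
      _ = C * (q : ℝ) ^ (91 / 100 : ℝ) := by
          rw [mul_assoc, ← Real.rpow_add hq0]
          norm_num
  have h7 : (0 : ℝ) ≤ (q : ℝ) ^ (91 / 100 : ℝ) := Real.rpow_nonneg hq0.le _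
  nlinarith

end Pool.Agent.SO
end

section

set_option autoImplicit false

namespace Pool.Agent.SO

open Finset

/-- MoD3. `φ(q) ≥ q^{99/100} / C`.
PROOF. `q/φ(q) ≤ τ(q)`: `q = ∑_{e ∣ q} φ(e) ≤ τ(q) φ(q)` (`φ(e) ≤ φ(q)` for `e ∣ q`: `Nat.totient_dvd_of_dvd`), and
`τ(q) ≤ C q^{1/100}`. -/
lemma totient_lower : ∃ C : ℝ, 1 ≤ C ∧ ∀ q : ℕ, 1 ≤ q →
    (q : ℝ) ^ (99 / 100 : ℝ) ≤ C * (Nat.totient q : ℝ) := by
  obtain ⟨C, hC, hb⟩ := Pool.Agent.MC.C2.divisor_bound (1 / 100) (by norm_num)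
  refine ⟨C + 1, by linarith, ?_⟩
  intro q hq
  have hq0 : (0 : ℝ) < q := by exact_mod_cast hq
  have h1 : (q : ℝ) ≤ (q.divisors.card : ℝ) * (Nat.totient q : ℝ) := by
    have h2 : q ≤ q.divisors.card * Nat.totient q := by
      calc q = ∑ e ∈ q.divisors, Nat.totient e := (Nat.sum_totient q).symm
        _ ≤ ∑ _e ∈ q.divisors, Nat.totient q := by
            refine Finset.sum_le_sum fun e he => ?_
            exact Nat.le_of_dvd (Nat.totient_pos.2 (by omega))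
              (Nat.totient_dvd_of_dvd (Nat.dvd_of_mem_divisors he))
        _ = q.divisors.card * Nat.totient q := by rw [Finset.sum_const, smul_eq_mul]
    exact_mod_cast h2
  have h3 := hb q hq
  have ht : (0 : ℝ) ≤ (Nat.totient q : ℝ) := Nat.cast_nonneg _
  have h4 : (q : ℝ) ≤ (C * (q : ℝ) ^ (1 / 100 : ℝ)) * (Nat.totient q : ℝ) :=
    h1.trans (mul_le_mul_of_nonneg_right h3 ht)
  have hp : (0 : ℝ) < (q : ℝ) ^ (1 / 100 : ℝ) := Real.rpow_pos_of_pos hq0 _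
  have h5 : (q : ℝ) = (q : ℝ) ^ (1 / 100 : ℝ) * (q : ℝ) ^ (99 / 100 : ℝ) := by
    rw [← Real.rpow_add hq0]
    norm_num
  have h6 : (q : ℝ) ^ (1 / 100 : ℝ) * (q : ℝ) ^ (99 / 100 : ℝ) ≤
      (q : ℝ) ^ (1 / 100 : ℝ) * (C * (Nat.totient q : ℝ)) := by
    rw [← h5]
    calc (q : ℝ) ≤ (C * (q : ℝ) ^ (1 / 100 : ℝ)) * (Nat.totient q : ℝ) := h4
      _ = (q : ℝ) ^ (1 / 100 : ℝ) * (C * (Nat.totient q : ℝ)) := by ring
  have h7 := le_of_mul_le_mul_left h6 hp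
  linarith

end Pool.Agent.SO
end

section

set_option autoImplicit false

namespace Pool.Agent.SO

open Finset

/-- MoD1. For polynomials of length `≤ r^{7/8}`: `∑_{prim r} |∑_{k ≤ r^{7/8}} x_k χ(k)|² ≤ C N(r) ∑ |x_k|²`.
PROOF. `prim_sq`; `τ(r) ≤ C r^{1/40}` (`Pool.Agent.MC.C2.divisor_bound`) and `r^{1/40} r^{7/8} = r^{9/10}`. -/
lemma prim_sq_NN : ∃ C : ℝ, 1 ≤ C ∧ ∀ (r : ℕ) [NeZero r] (x : ℕ → ℂ) (N : ℕ), (N : ℝ) ≤ (r : ℝ) ^ (7 / 8 : ℝ) →
    ∑ χ ∈ prim r, ‖∑ k ∈ Icc 1 N, x k * χ (k : ZMod r)‖ ^ 2 ≤ C * NN r * ∑ k ∈ Icc 1 N, ‖x k‖ ^ 2 := by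
  obtain ⟨C, hC, hb⟩ := Pool.Agent.MC.C2.divisor_bound (1 / 40) (by norm_num)
  refine ⟨C + 1, by linarith, ?_⟩
  intro r _ x N hN
  have hr : 1 ≤ r := Nat.one_le_iff_ne_zero.2 (NeZero.ne r)
  have hr0 : (0 : ℝ) < r := by exact_mod_cast hr
  refine (prim_sq r x N).trans ?_
  refine mul_le_mul_of_nonneg_right ?_ (Finset.sum_nonneg fun _ _ => by positivity)
  have h1 := hb r hr
  have hpos1 : (0 : ℝ) ≤ (r : ℝ) ^ (1 / 40 : ℝ) := Real.rpow_nonneg hr0.le _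
  have hpos9 : (0 : ℝ) ≤ (r : ℝ) ^ (9 / 10 : ℝ) := Real.rpow_nonneg hr0.le _
  have h2 : (r.divisors.card : ℝ) * N ≤ C * (r : ℝ) ^ (9 / 10 : ℝ) := by
    calc (r.divisors.card : ℝ) * N ≤ (C * (r : ℝ) ^ (1 / 40 : ℝ)) * (r : ℝ) ^ (7 / 8 : ℝ) :=
          mul_le_mul h1 hN (Nat.cast_nonneg _) (mul_nonneg hC hpos1)
      _ = C * (r : ℝ) ^ (9 / 10 : ℝ) := by
          rw [mul_assoc, ← Real.rpow_add hr0]
          norm_num
  have h3 : NN r = ((prim r).card : ℝ) + (r : ℝ) ^ (9 / 10 : ℝ) := rfl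
  have h4 : (0 : ℝ) ≤ ((prim r).card : ℝ) := Nat.cast_nonneg _
  rw [h3]
  nlinarith [mul_nonneg hC h4]

end Pool.Agent.SO
end

section

set_option autoImplicit false

namespace Pool.Agent.SO

open Finset Complex MeasureTheory
open scoped ContDiff

/-- MoJ1. `∑ |DD MM (pt b t) - 1|² ≤ C e^{-b/8} N(r)`.
PROOF. `weights`, `product` (`a = b`, `t0 = t`): `DD * MM = ∑_{n ≤ N} x_n χ(n)`, `N = ⌊r^{7/8}⌋`, `x_n = n^{-1/2} aco(..)`.
By `aco_diag`, `aco_small_one`: `x_1 = 1`, `x_n = 0` for `1 < n`, `log n ≤ l/16`. So `DD MM - 1 = ∑ y_n χ(n)` with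
`y_n = x_n` if `log n > l/16`, else `0` (`χ(1) = 1`, `1 ≤ N`). `prim_sq_NN` and `tail_coef` (`|n^{-1/2}|² = 1/n`). -/
lemma DDMM_sub_one : ∃ C : ℝ, 1 ≤ C ∧ ∀ (r : ℕ) [NeZero r], 8 ≤ r → ∀ b t : ℝ, 0 ≤ b →
    ∑ χ ∈ prim r, ‖DD r χ (pt r b t) * MM r χ (pt r b t) - 1‖ ^ 2 ≤ C * Real.exp (-(b / 8)) * NN r := by
  obtain ⟨⟨P, hPs, hP1, hP2, hP⟩, ⟨V, hVs, hV1, hV2, hV⟩, -⟩ := weights
  obtain ⟨C₁, hC₁, hsq⟩ := prim_sq_NN
  obtain ⟨C₂, hC₂, htail⟩ := tail_coef P V hPs hVs hP1 hP2 hV1 hV2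
  refine ⟨C₁ * (C₂ + 1), by nlinarith, ?_⟩
  intro r _ hr b t hb
  have hr8 : (8 : ℝ) ≤ r := by exact_mod_cast hr
  have hrpos : (0 : ℝ) < r := by linarith
  have hl : 2 ≤ Real.log r := by
    have h1 : Real.log 8 ≤ Real.log r := Real.log_le_log (by norm_num) hr8
    have h2 : Real.log 8 = 3 * Real.log 2 := by
      rw [show (8 : ℝ) = 2 ^ 3 by norm_num, Real.log_pow]
      push_cast
      ring
    have h3 := Real.log_two_gt_d9
    linarith
  set l : ℝ := Real.log r with hldef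
  have hlpos : 0 < l := by linarith
  set N : ℕ := ⌊(r : ℝ) ^ (7 / 8 : ℝ)⌋₊ with hN
  have hNle : (N : ℝ) ≤ (r : ℝ) ^ (7 / 8 : ℝ) := Nat.floor_le (by positivity)
  have hN1 : 1 ≤ N := by
    refine Nat.le_floor ?_
    rw [Nat.cast_one]
    exact Real.one_le_rpow (by linarith) (by norm_num)
  set x : ℕ → ℂ := fun n => ((n : ℂ) ^ (-(1 / 2 : ℂ))) * aco P V l b b t t n with hx
  set y : ℕ → ℂ := fun n => if l / 16 < Real.log n then x n else 0 with hy
  have hx1 : x 1 = 1 := by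
    have h1 := aco_small_one P V hP hV l hlpos 1 le_rfl (by
      rw [Nat.cast_one, Real.log_one]
      positivity)
    rw [if_pos rfl] at h1
    rw [hx]
    simp only [aco_diag P V l b t 1 le_rfl, h1, Nat.cast_one, Complex.one_cpow, mul_one]
  have hx0 : ∀ n : ℕ, 1 < n → Real.log n ≤ l / 16 → x n = 0 := by
    intro n hn hn2
    have h1 := aco_small_one P V hP hV l hlpos n hn.le hn2
    rw [if_neg (by omega)] at h1
    rw [hx]
    simp only [aco_diag P V l b t n hn.le, h1, mul_zero]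
  have hrepr : ∀ χ : DirichletCharacter ℂ r, DD r χ (pt r b t) * MM r χ (pt r b t) - 1 =
      ∑ n ∈ Icc 1 N, y n * χ (n : ZMod r) := by
    intro χ
    rw [product P V hP hV r (by omega) χ b b t t]
    have h1 : ∀ n ∈ Icc 1 N, x n * χ (n : ZMod r) =
        y n * χ (n : ZMod r) + if n = 1 then 1 else 0 := by
      intro n hn
      rw [Finset.mem_Icc] at hn
      rcases eq_or_ne n 1 with h | h
      · have h2 : y n = 0 := by
          rw [hy]
          simp only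
          rw [if_neg]
          rw [h, Nat.cast_one, Real.log_one, not_lt]
          positivity
        rw [h2, zero_mul, zero_add, if_pos h, h, hx1, Nat.cast_one, map_one, mul_one]
      · rw [if_neg h, add_zero]
        rw [hy]
        simp only
        split_ifs with h3
        · rfl
        · rw [hx0 n (by omega) (not_lt.1 h3)]
    have h2 : ∑ n ∈ Icc 1 N, (((n : ℂ) ^ (-(1 / 2 : ℂ))) * aco P V (Real.log r) b b t t n) *
        χ (n : ZMod r) = ∑ n ∈ Icc 1 N, x n * χ (n : ZMod r) := rfl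
    rw [h2, Finset.sum_congr rfl h1, Finset.sum_add_distrib, Finset.sum_ite_eq' (Icc 1 N) 1,
      if_pos (Finset.mem_Icc.2 ⟨le_rfl, hN1⟩), add_sub_cancel_right]
  have hnorm : ∀ n ∈ Icc 1 N, ‖y n‖ ^ 2 =
      if l / 16 < Real.log n then ‖aco P V l b b t t n‖ ^ 2 / n else 0 := by
    intro n hn
    rw [Finset.mem_Icc] at hn
    have hnpos : (0 : ℝ) < n := by exact_mod_cast hn.1
    rw [hy]
    simp only
    split_ifs with h3
    · rw [hx]
      simp only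
      rw [norm_mul, mul_pow, Complex.norm_natCast_cpow_of_pos (by omega)]
      have h4 : ((n : ℝ) ^ (-(1 / 2 : ℂ)).re) ^ 2 = 1 / n := by
        have h5 : (-(1 / 2 : ℂ)).re = -(1 / 2 : ℝ) := by norm_num
        rw [h5, ← Real.rpow_natCast, ← Real.rpow_mul hnpos.le]
        norm_num
        rw [Real.rpow_neg_one]
      rw [h4]
      ring
    · simp
  have hsum : ∑ n ∈ Icc 1 N, ‖y n‖ ^ 2 ≤ C₂ * Real.exp (-(b / 8)) := by
    rw [Finset.sum_congr rfl hnorm, ← Finset.sum_filter]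
    exact htail l b t N hl hb
  have hNN : 0 ≤ NN r := by
    unfold NN
    positivity
  have hmain := hsq r y N hNle
  rw [Finset.sum_congr rfl fun χ _ => by rw [hrepr χ]]
  refine le_trans hmain ?_
  have hE := Real.exp_pos (-(b / 8))
  calc C₁ * NN r * ∑ k ∈ Icc 1 N, ‖y k‖ ^ 2 ≤ C₁ * NN r * (C₂ * Real.exp (-(b / 8))) :=
        mul_le_mul_of_nonneg_left hsum (by positivity)
    _ = C₁ * C₂ * (Real.exp (-(b / 8)) * NN r) := by ring
    _ ≤ C₁ * (C₂ + 1) * (Real.exp (-(b / 8)) * NN r) := by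
        refine mul_le_mul_of_nonneg_right ?_ (by positivity)
        nlinarith
    _ = C₁ * (C₂ + 1) * Real.exp (-(b / 8)) * NN r := by ring

end Pool.Agent.SO
end

section

set_option autoImplicit false

namespace Pool.Agent.SO

open Finset Complex MeasureTheory
open scoped ContDiff

/-- MoJ2. `∑ |DD' MM (pt b t)|² ≤ C l² (1/b² + e^{-b/8}) N(r)`.
PROOF. `weights` (third), `product_deriv`: coefficients `y_n = -l n^{-1/2} aco(..)`. `log n ≤ l/16`: by `aco_diag`,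
`aco_small_log` `|y_n|² = Λ(n)² n^{-1-2b/l}`, sum `≤ C l²/(4 b²)` by `sum_vonMangoldt_sq` (`k = 2b/l ≤ 1/2`).
`log n > l/16`: sum `≤ l² C e^{-b/8}` by `tail_coef`. `prim_sq_NN`. -/
lemma dDDMM : ∃ C : ℝ, 1 ≤ C ∧ ∀ (r : ℕ) [NeZero r], 8 ≤ r → ∀ b t : ℝ, 1 ≤ b → b ≤ Real.log r / 4 →
    ∑ χ ∈ prim r, ‖deriv (DD r χ) (pt r b t) * MM r χ (pt r b t)‖ ^ 2
      ≤ C * Real.log r ^ 2 * (1 / b ^ 2 + Real.exp (-(b / 8))) * NN r := by
  obtain ⟨⟨P, hPs, hP1, hP2, hP⟩, -, ⟨V, hVs, hV1, hV2, hV⟩⟩ := weights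
  obtain ⟨C₁, hC₁, hsq⟩ := prim_sq_NN
  obtain ⟨C₂, hC₂, htail⟩ := tail_coef P V hPs hVs hP1 hP2 hV1 hV2
  obtain ⟨C₃, hC₃, hLam⟩ := sum_vonMangoldt_sq
  refine ⟨C₁ * (C₂ + C₃), by nlinarith, ?_⟩
  intro r _ hr b t hb hbl
  have hr8 : (8 : ℝ) ≤ r := by exact_mod_cast hr
  have hrpos : (0 : ℝ) < r := by linarith
  have hl : 2 ≤ Real.log r := by
    have h1 : Real.log 8 ≤ Real.log r := Real.log_le_log (by norm_num) hr8
    have h2 : Real.log 8 = 3 * Real.log 2 := by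
      rw [show (8 : ℝ) = 2 ^ 3 by norm_num, Real.log_pow]
      push_cast
      ring
    have h3 := Real.log_two_gt_d9
    linarith
  set l : ℝ := Real.log r with hldef
  have hlpos : 0 < l := by linarith
  have hbpos : 0 < b := by linarith
  set N : ℕ := ⌊(r : ℝ) ^ (7 / 8 : ℝ)⌋₊ with hN
  have hNle : (N : ℝ) ≤ (r : ℝ) ^ (7 / 8 : ℝ) := Nat.floor_le (by positivity)
  set y : ℕ → ℂ := fun n => -(l : ℂ) * ((n : ℂ) ^ (-(1 / 2 : ℂ))) * aco P V l b b t t n with hy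
  have hrepr : ∀ χ : DirichletCharacter ℂ r, deriv (DD r χ) (pt r b t) * MM r χ (pt r b t) =
      ∑ n ∈ Icc 1 N, y n * χ (n : ZMod r) := fun χ =>
    product_deriv P V hP hV r (by omega) χ b b t t
  have hnorm : ∀ n ∈ Icc 1 N, ‖y n‖ ^ 2 = l ^ 2 * (‖aco P V l b b t t n‖ ^ 2 / n) := by
    intro n hn
    rw [Finset.mem_Icc] at hn
    have hnpos : (0 : ℝ) < n := by exact_mod_cast hn.1
    rw [hy]
    simp only
    rw [norm_mul, norm_mul, norm_neg, mul_pow, mul_pow, Complex.norm_natCast_cpow_of_pos (by omega),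
      Complex.norm_real, Real.norm_eq_abs, sq_abs]
    have h4 : ((n : ℝ) ^ (-(1 / 2 : ℂ)).re) ^ 2 = 1 / n := by
      have h5 : (-(1 / 2 : ℂ)).re = -(1 / 2 : ℝ) := by norm_num
      rw [h5, ← Real.rpow_natCast, ← Real.rpow_mul hnpos.le]
      norm_num
      rw [Real.rpow_neg_one]
    rw [h4]
    ring
  have hsmall : ∑ n ∈ (Icc 1 N).filter (fun n : ℕ => ¬ l / 16 < Real.log n),
      ‖aco P V l b b t t n‖ ^ 2 / n ≤ C₃ / b ^ 2 := by
    have h1 : ∀ n ∈ (Icc 1 N).filter (fun n : ℕ => ¬ l / 16 < Real.log n),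
        ‖aco P V l b b t t n‖ ^ 2 / n =
          (1 / l ^ 2) * (ArithmeticFunction.vonMangoldt n ^ 2 * (n : ℝ) ^ (-1 - 2 * b / l)) := by
      intro n hn
      rw [Finset.mem_filter, Finset.mem_Icc, not_lt] at hn
      have hn1 : 1 ≤ n := hn.1.1
      have hnpos : (0 : ℝ) < n := by exact_mod_cast hn1
      have h5 : ‖(n : ℂ) ^ (-((b / l : ℝ) + (t : ℂ) * I))‖ = (n : ℝ) ^ (-(b / l)) := by
        rw [Complex.norm_natCast_cpow_of_pos (by omega)]
        congr 1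
        simp
      rw [aco_diag P V l b t n hn1, aco_small_log P V hP hV l hlpos n hn1 hn.2, norm_mul, h5,
        Complex.norm_real, Real.norm_eq_abs, mul_pow, sq_abs]
      have h6 : (n : ℝ) ^ (-1 - 2 * b / l) = ((n : ℝ) ^ (-(b / l))) ^ 2 / n := by
        rw [Real.rpow_sub hnpos, Real.rpow_neg_one, ← Real.rpow_natCast, ← Real.rpow_mul hnpos.le]
        have h7 : -(b / l) * ((2 : ℕ) : ℝ) = -(2 * b / l) := by
          push_cast
          ring
        rw [h7, Real.rpow_neg hnpos.le]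
        field_simp
      rw [h6]
      field_simp
    rw [Finset.sum_congr rfl h1, ← Finset.mul_sum]
    have h2 := hLam (2 * b / l) N (by positivity) (by
      rw [div_le_one hlpos]
      linarith)
    have h3 : ∑ n ∈ (Icc 1 N).filter (fun n : ℕ => ¬ l / 16 < Real.log n),
        (ArithmeticFunction.vonMangoldt n ^ 2 * (n : ℝ) ^ (-1 - 2 * b / l)) ≤
        ∑ n ∈ Icc 1 N, ArithmeticFunction.vonMangoldt n ^ 2 * (n : ℝ) ^ (-1 - 2 * b / l) :=
      Finset.sum_le_sum_of_subset_of_nonneg (Finset.filter_subset _ _)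
        (fun n _ _ => by positivity)
    calc (1 / l ^ 2) * _ ≤ (1 / l ^ 2) * (C₃ / (2 * b / l) ^ 2) :=
          mul_le_mul_of_nonneg_left (h3.trans h2) (by positivity)
      _ = C₃ / b ^ 2 / 4 := by
          field_simp
          norm_num
      _ ≤ C₃ / b ^ 2 := by
          have : 0 ≤ C₃ / b ^ 2 := by positivity
          linarith
  have hbig := htail l b t N hl hbpos.le
  have hsum : ∑ n ∈ Icc 1 N, ‖y n‖ ^ 2 ≤ l ^ 2 * (C₃ / b ^ 2 + C₂ * Real.exp (-(b / 8))) := by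
    rw [Finset.sum_congr rfl hnorm, ← Finset.mul_sum]
    refine mul_le_mul_of_nonneg_left ?_ (by positivity)
    rw [← Finset.sum_filter_add_sum_filter_not (Icc 1 N) (fun n : ℕ => l / 16 < Real.log n)]
    linarith
  have hNN : 0 ≤ NN r := by
    unfold NN
    positivity
  have hmain := hsq r y N hNle
  rw [Finset.sum_congr rfl fun χ _ => by rw [hrepr χ]]
  refine le_trans hmain ?_
  have hE := Real.exp_pos (-(b / 8))
  have h9 : C₃ / b ^ 2 + C₂ * Real.exp (-(b / 8)) ≤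
      (C₂ + C₃) * (1 / b ^ 2 + Real.exp (-(b / 8))) := by
    have h10 : 0 ≤ 1 / b ^ 2 := by positivity
    have h11 : C₃ / b ^ 2 = C₃ * (1 / b ^ 2) := by ring
    rw [h11]
    have h12 : 0 ≤ C₂ * (1 / b ^ 2) := by positivity
    have h13 : 0 ≤ C₃ * Real.exp (-(b / 8)) := by positivity
    nlinarith
  calc C₁ * NN r * ∑ k ∈ Icc 1 N, ‖y k‖ ^ 2
      ≤ C₁ * NN r * (l ^ 2 * (C₃ / b ^ 2 + C₂ * Real.exp (-(b / 8)))) :=
        mul_le_mul_of_nonneg_left hsum (by positivity)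
    _ ≤ C₁ * NN r * (l ^ 2 * ((C₂ + C₃) * (1 / b ^ 2 + Real.exp (-(b / 8))))) :=
        mul_le_mul_of_nonneg_left (mul_le_mul_of_nonneg_left h9 (by positivity)) (by positivity)
    _ = C₁ * (C₂ + C₃) * l ^ 2 * (1 / b ^ 2 + Real.exp (-(b / 8))) * NN r := by ring

end Pool.Agent.SO
end

section

set_option autoImplicit false

namespace Pool.Agent.SO

open Finset Complex MeasureTheory
open scoped ContDiff

/-- MoG3 (mean square of the truncated product).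
PROOF. `weights`, `product`, `prim_sq_NN` (`N = ⌊r^{7/8}⌋ ≤ r^{7/8}`), `|n^{-1/2}|² = 1/n`, `coef_bound` with `l = log r ≥ 2`
(`r ≥ 8`). -/
lemma DD_moment : ∃ (B : ℕ) (C : ℝ), 1 ≤ C ∧ ∀ (r : ℕ) [NeZero r], 8 ≤ r → ∀ a b t t0 : ℝ, 0 ≤ a → 0 ≤ b →
    ∑ χ ∈ prim r, ‖DD r χ (pt r a t) * MM r χ (pt r b t0)‖ ^ 2
      ≤ C * Real.exp ((a + b) / 4) * (1 + Real.log r * |t - t0|) ^ B * NN r := by
  obtain ⟨⟨P, hP1, hP2, hP3, hP4⟩, ⟨V, hV1, hV2, hV3, hV4⟩, -⟩ := weights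
  obtain ⟨B, hB⟩ := coef_bound
  obtain ⟨C₁, hC₁, h₁⟩ := hB P V hP1 hV1 hP2 hP3 hV2 hV3
  obtain ⟨C₂, hC₂, h₂⟩ := prim_sq_NN
  refine ⟨B, C₂ * C₁ + 1, by nlinarith, ?_⟩
  intro r _ hr a b t t0 ha hb
  have hr1 : (1 : ℝ) < r := by exact_mod_cast (by omega : 1 < r)
  have hl2 : 2 ≤ Real.log r := by
    have h1 : Real.log 8 ≤ Real.log r := Real.log_le_log (by norm_num) (by exact_mod_cast hr)
    have h2 : Real.log 8 = 3 * Real.log 2 := by
      rw [show (8 : ℝ) = 2 ^ 3 by norm_num, Real.log_pow]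
      norm_num
    have h3 := Real.log_two_gt_d9
    linarith
  have hNN : 0 ≤ NN r := by
    unfold NN
    positivity
  set N := ⌊(r : ℝ) ^ (7 / 8 : ℝ)⌋₊ with hN
  have hNle : (N : ℝ) ≤ (r : ℝ) ^ (7 / 8 : ℝ) := Nat.floor_le (by positivity)
  have hsum : ∑ χ ∈ prim r, ‖DD r χ (pt r a t) * MM r χ (pt r b t0)‖ ^ 2 =
      ∑ χ ∈ prim r, ‖∑ n ∈ Icc 1 N, (((n : ℂ) ^ (-(1 / 2 : ℂ))) *
        aco P V (Real.log r) a b t t0 n) * χ (n : ZMod r)‖ ^ 2 := by
    refine sum_congr rfl (fun χ _ => ?_)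
    rw [product P V hP4 hV4 r (by omega) χ a b t t0]
  rw [hsum]
  refine (h₂ r _ N hNle).trans ?_
  have hcoef : ∑ n ∈ Icc 1 N, ‖((n : ℂ) ^ (-(1 / 2 : ℂ))) * aco P V (Real.log r) a b t t0 n‖ ^ 2 ≤
      C₁ * Real.exp ((a + b) / 4) * (1 + Real.log r * |t - t0|) ^ B := by
    refine le_trans (le_of_eq ?_) (h₁ (Real.log r) a b t t0 N hl2 ha hb)
    refine sum_congr rfl (fun n hn => ?_)
    have hn1 : 1 ≤ n := (mem_Icc.1 hn).1
    have hn0 : (0 : ℝ) < n := by exact_mod_cast hn1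
    rw [norm_mul, mul_pow]
    have e1 : ‖(n : ℂ) ^ (-(1 / 2 : ℂ))‖ ^ 2 = 1 / n := by
      rw [Complex.norm_natCast_cpow_of_pos hn1]
      have e2 : (-(1 / 2 : ℂ)).re = -(1 / 2) := by
        rw [Complex.neg_re]
        norm_num
      rw [e2, ← Real.rpow_natCast, ← Real.rpow_mul hn0.le]
      have e3 : (-(1 / 2) : ℝ) * ((2 : ℕ) : ℝ) = -1 := by norm_num
      rw [e3, Real.rpow_neg_one, one_div]
    rw [e1]
    ring
  have hE : 0 ≤ Real.exp ((a + b) / 4) * (1 + Real.log r * |t - t0|) ^ B := by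
    have : 0 ≤ Real.log r * |t - t0| := mul_nonneg (by linarith) (abs_nonneg _)
    positivity
  calc C₂ * NN r * ∑ n ∈ Icc 1 N, ‖((n : ℂ) ^ (-(1 / 2 : ℂ))) * aco P V (Real.log r) a b t t0 n‖ ^ 2
      ≤ C₂ * NN r * (C₁ * Real.exp ((a + b) / 4) * (1 + Real.log r * |t - t0|) ^ B) :=
        mul_le_mul_of_nonneg_left hcoef (by positivity)
    _ = C₂ * C₁ * (Real.exp ((a + b) / 4) * (1 + Real.log r * |t - t0|) ^ B * NN r) := by ring
    _ ≤ (C₂ * C₁ + 1) * (Real.exp ((a + b) / 4) * (1 + Real.log r * |t - t0|) ^ B * NN r) := by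
        refine mul_le_mul_of_nonneg_right (by linarith) (mul_nonneg hE hNN)
    _ = _ := by ring

end Pool.Agent.SO
end

section

set_option autoImplicit false

namespace Pool.Agent.SO

open Finset Complex MeasureTheory
open scoped ContDiff

/-- MoH4 (`Q`-bound). `∑ |L(pt c₀ t) MM(pt b t0)|² ≤ C e^{b/4} WW(t) N(r)` for a fixed `c₀ ≥ 1`.
PROOF. `A = max B 40` (`B` of `DD_moment`). `L m = DD m + (L - DD) m`, so `Q ≤ 2 ∑|DD m|² + 2 ∑|(L-DD) m|²`.
`DD_moment` with `a = c₀`: `≤ C₁ e^{(c₀+b)/4} (1+l|t-t0|)^B N ≤ C₁ e^{(c₀+b)/4} WW N`. `rem_sum` with `a = c = c₀`: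
`e^{-5c₀/2} e^{17c₀/8} = e^{-3c₀/8}`. Choose `c₀ ≥ 1` with `2 C e^{-3c₀/8} ≤ 1/4`, then `r₀ ≥ 8` with `c₀ ≤ (log r₀)/8`.
`contraction` with `E = (2C₁ e^{(c₀+b)/4} + 2C) N(r)` (`Q_trivial`). -/
lemma Q_bound : ∃ (A : ℕ) (C c₀ : ℝ) (r₀ : ℕ), 40 ≤ A ∧ 1 ≤ C ∧ 1 ≤ c₀ ∧ 8 ≤ r₀ ∧ c₀ ≤ Real.log r₀ / 8 ∧
    ∀ (r : ℕ) [NeZero r], r₀ ≤ r → ∀ (b t t0 : ℝ), 0 ≤ b →
    ∑ χ ∈ prim r, ‖χ.LFunction (pt r c₀ t) * MM r χ (pt r b t0)‖ ^ 2
      ≤ C * Real.exp (b / 4) * WW (Real.log r) A t0 t * NN r := by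
  obtain ⟨B, C₁, hC₁, h₁⟩ := DD_moment
  set A : ℕ := max B 40 with hAdef
  have hA40 : 40 ≤ A := le_max_right _ _
  have hBA : B ≤ A := le_max_left _ _
  obtain ⟨C₂, hC₂, h₂⟩ := rem_sum A hA40
  have hlog : 0 ≤ Real.log (8 * C₂) := Real.log_nonneg (by linarith)
  set c₀ : ℝ := 1 + 8 / 3 * Real.log (8 * C₂) with hc₀
  have hc₀1 : 1 ≤ c₀ := by rw [hc₀]; linarith
  set r₀ : ℕ := max 8 ⌈Real.exp (8 * c₀)⌉₊ with hr₀
  have hr₀8 : 8 ≤ r₀ := le_max_left _ _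
  have hcr : c₀ ≤ Real.log r₀ / 8 := by
    have h1 : Real.exp (8 * c₀) ≤ r₀ := by
      refine (Nat.le_ceil _).trans ?_
      exact_mod_cast le_max_right 8 _
    have h2 := Real.log_le_log (Real.exp_pos _) h1
    rw [Real.log_exp] at h2
    linarith
  refine ⟨A, 4 * C₁ * Real.exp (c₀ / 4) + 4 * C₂, c₀, r₀, hA40, ?_, hc₀1, hr₀8, hcr, ?_⟩
  · have : 0 < Real.exp (c₀ / 4) := Real.exp_pos _
    nlinarith
  intro r _ hr b t t0 hb
  have hr8 : 8 ≤ r := hr₀8.trans hr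
  have hr1 : (1 : ℝ) < r := by exact_mod_cast (by omega : 1 < r)
  have hcl : c₀ ≤ Real.log r / 8 := by
    have h1 : Real.log r₀ ≤ Real.log r :=
      Real.log_le_log (by exact_mod_cast (by omega : 0 < r₀)) (by exact_mod_cast hr)
    linarith
  have hl8 : 8 ≤ Real.log r := by linarith
  set l := Real.log r with hl
  have hl0 : 0 < l := by linarith
  have hNN : 0 ≤ NN r := by
    unfold NN
    positivity
  obtain ⟨hQc, B₀, hB₀⟩ := Q_trivial r (by omega) c₀ b t0 (by linarith) (by rw [← hl]; linarith) hb A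
    (by omega)
  rw [← hl] at hB₀
  set Q : ℝ → ℝ := fun t => ∑ χ ∈ prim r, ‖χ.LFunction (pt r c₀ t) * MM r χ (pt r b t0)‖ ^ 2 with hQ
  have hQ0 : ∀ t, 0 ≤ Q t := fun t => sum_nonneg fun χ _ => sq_nonneg _
  set ε : ℝ := 2 * C₂ * Real.exp (-(3 / 8 * c₀)) with hε
  have hε0 : 0 ≤ ε := by rw [hε]; positivity
  have hε4 : ε ≤ 1 / 4 := by
    have h8 : 0 < 8 * C₂ := by linarith
    have h1 : Real.exp (-(3 / 8 * c₀)) ≤ 1 / (8 * C₂) := by
      have h2 : -(3 / 8 * c₀) ≤ -Real.log (8 * C₂) := by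
        rw [hc₀]
        linarith
      refine (Real.exp_le_exp.2 h2).trans (le_of_eq ?_)
      rw [Real.exp_neg, Real.exp_log h8, one_div]
    rw [hε]
    calc 2 * C₂ * Real.exp (-(3 / 8 * c₀)) ≤ 2 * C₂ * (1 / (8 * C₂)) :=
          mul_le_mul_of_nonneg_left h1 (by linarith)
      _ = 1 / 4 := by
          field_simp
          norm_num
  set E : ℝ := (2 * C₁ * Real.exp ((c₀ + b) / 4) + 2 * C₂) * NN r with hE
  have hE0 : 0 ≤ E := by
    rw [hE]
    have : 0 < Real.exp ((c₀ + b) / 4) := Real.exp_pos _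
    refine mul_nonneg ?_ hNN
    nlinarith
  have hmain : ∀ s, Q s ≤ E * WW l A t0 s +
      ε * ∫ w : ℝ, Q (s - w / l) / (1 + |w|) ^ (2 * A + 4) := by
    intro s
    have g1 := h₁ r hr8 c₀ b s t0 (by linarith) hb
    have g2 := h₂ r hr8 c₀ c₀ b s t0 (by linarith) hc₀1 hcl hb
    rw [← hl] at g1 g2
    have g3 : Q s ≤ 2 * ∑ χ ∈ prim r, ‖DD r χ (pt r c₀ s) * MM r χ (pt r b t0)‖ ^ 2 +
        2 * ∑ χ ∈ prim r,
          ‖(χ.LFunction (pt r c₀ s) - DD r χ (pt r c₀ s)) * MM r χ (pt r b t0)‖ ^ 2 := by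
      rw [mul_sum, mul_sum, ← sum_add_distrib]
      refine sum_le_sum (fun χ _ => ?_)
      have e1 : χ.LFunction (pt r c₀ s) * MM r χ (pt r b t0) =
          DD r χ (pt r c₀ s) * MM r χ (pt r b t0) +
            (χ.LFunction (pt r c₀ s) - DD r χ (pt r c₀ s)) * MM r χ (pt r b t0) := by ring
      rw [e1]
      have e2 := norm_add_le (DD r χ (pt r c₀ s) * MM r χ (pt r b t0))
        ((χ.LFunction (pt r c₀ s) - DD r χ (pt r c₀ s)) * MM r χ (pt r b t0))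
      have e3 := pow_le_pow_left₀ (norm_nonneg _) e2 2
      refine e3.trans ?_
      nlinarith [sq_nonneg (‖DD r χ (pt r c₀ s) * MM r χ (pt r b t0)‖ -
        ‖(χ.LFunction (pt r c₀ s) - DD r χ (pt r c₀ s)) * MM r χ (pt r b t0)‖)]
    set J := ∫ w : ℝ, Q (s - w / l) / (1 + |w|) ^ (2 * A + 4) with hJ
    have hJ0 : 0 ≤ J := integral_nonneg fun w => div_nonneg (hQ0 _) (by positivity)
    have hW : (1 + l * |s - t0|) ^ B ≤ WW l A t0 s := by
      unfold WW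
      have a1 : 0 ≤ l * |s - t0| := mul_nonneg hl0.le (abs_nonneg _)
      have a2 : (1 + l * |s - t0|) ^ B ≤ (1 + l * |s - t0|) ^ A :=
        pow_le_pow_right₀ (by linarith) hBA
      have a3 : (1 : ℝ) ≤ (1 + |s|) ^ A := one_le_pow₀ (by linarith [abs_nonneg s])
      have a4 : (0 : ℝ) ≤ (1 + l * |s - t0|) ^ A := by positivity
      nlinarith
    have hWW0 : 0 ≤ WW l A t0 s := by
      unfold WW
      positivity
    have g4 : C₁ * Real.exp ((c₀ + b) / 4) * (1 + l * |s - t0|) ^ B * NN r ≤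
        C₁ * Real.exp ((c₀ + b) / 4) * WW l A t0 s * NN r := by
      have : 0 < Real.exp ((c₀ + b) / 4) := Real.exp_pos _
      gcongr
    have hexp1 : Real.exp (-(5 / 4 * (c₀ + c₀))) * Real.exp (17 / 8 * c₀) =
        Real.exp (-(3 / 8 * c₀)) := by
      rw [← Real.exp_add]
      congr 1
      ring
    have hexp2 : Real.exp (-(5 / 4 * (c₀ + c₀))) ≤ 1 := by
      rw [Real.exp_le_one_iff]
      linarith
    have hWN : 0 ≤ WW l A t0 s * NN r := mul_nonneg hWW0 hNN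
    have g5 : C₂ * Real.exp (-(5 / 4 * (c₀ + c₀))) * (Real.exp (17 / 8 * c₀) * J +
        WW l A t0 s * NN r) ≤ C₂ * Real.exp (-(3 / 8 * c₀)) * J + C₂ * (WW l A t0 s * NN r) := by
      have e1 : C₂ * Real.exp (-(5 / 4 * (c₀ + c₀))) * (Real.exp (17 / 8 * c₀) * J +
          WW l A t0 s * NN r) =
          C₂ * (Real.exp (-(5 / 4 * (c₀ + c₀))) * Real.exp (17 / 8 * c₀)) * J +
            C₂ * (Real.exp (-(5 / 4 * (c₀ + c₀))) * (WW l A t0 s * NN r)) := by ring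
      rw [e1, hexp1]
      refine add_le_add le_rfl (mul_le_mul_of_nonneg_left ?_ (by linarith))
      calc Real.exp (-(5 / 4 * (c₀ + c₀))) * (WW l A t0 s * NN r) ≤ 1 * (WW l A t0 s * NN r) :=
            mul_le_mul_of_nonneg_right hexp2 hWN
        _ = WW l A t0 s * NN r := one_mul _
    calc Q s ≤ 2 * (C₁ * Real.exp ((c₀ + b) / 4) * WW l A t0 s * NN r) +
          2 * (C₂ * Real.exp (-(3 / 8 * c₀)) * J + C₂ * (WW l A t0 s * NN r)) := by
          linarith [g1.trans g4, g2.trans g5]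
      _ = E * WW l A t0 s + ε * J := by
          rw [hE, hε]
          ring
  have hfin := contraction l (by linarith) A t0 Q hQc hQ0 B₀ E hB₀ hE0 ε hε0 hε4 hmain t
  refine hfin.trans ?_
  have hWW0 : 0 ≤ WW l A t0 t := by
    unfold WW
    positivity
  have hWN : 0 ≤ WW l A t0 t * NN r := mul_nonneg hWW0 hNN
  have he1 : 1 ≤ Real.exp (b / 4) := Real.one_le_exp (by linarith)
  have he2 : Real.exp ((c₀ + b) / 4) = Real.exp (c₀ / 4) * Real.exp (b / 4) := by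
    rw [← Real.exp_add]
    congr 1
    ring
  calc 2 * E * WW l A t0 t =
        (4 * C₁ * Real.exp (c₀ / 4) * Real.exp (b / 4) + 4 * C₂) * (WW l A t0 t * NN r) := by
        rw [hE, he2]
        ring
    _ ≤ (4 * C₁ * Real.exp (c₀ / 4) * Real.exp (b / 4) + 4 * C₂ * Real.exp (b / 4)) *
          (WW l A t0 t * NN r) := by
        refine mul_le_mul_of_nonneg_right ?_ hWN
        have : 4 * C₂ ≤ 4 * C₂ * Real.exp (b / 4) := le_mul_of_one_le_right (by linarith) he1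
        linarith
    _ = _ := by ring

end Pool.Agent.SO
end

section

set_option autoImplicit false

namespace Pool.Agent.SO

open Finset Complex MeasureTheory
open scoped ContDiff

/-- MoH5 (remainder moment). `∑ |(L - DD)(pt a t) MM(pt b t0)|² ≤ C e^{-5a/4 + b/4} WW(t) N(r)` for all `a, b ≥ 0`.
PROOF. `rem_sum` with `c = c₀` of `Q_bound` (same `A`), `Q(t - w/l) ≤ C e^{b/4} WW(t - w/l) N`, `WW_stable`
(`integral_mono` with integrability as in `rem_sum`; if `Q(t-w/l)/(1+|w|)^k` is not known to be integrable use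
`Q_trivial`). -/
lemma rem_moment : ∃ (A : ℕ) (C : ℝ) (r₀ : ℕ), 40 ≤ A ∧ 1 ≤ C ∧ 8 ≤ r₀ ∧
    ∀ (r : ℕ) [NeZero r], r₀ ≤ r → ∀ (a b t t0 : ℝ), 0 ≤ a → 0 ≤ b →
    ∑ χ ∈ prim r, ‖(χ.LFunction (pt r a t) - DD r χ (pt r a t)) * MM r χ (pt r b t0)‖ ^ 2
      ≤ C * Real.exp (-(5 / 4 * a) + b / 4) * WW (Real.log r) A t0 t * NN r := by
  obtain ⟨A, C₁, c₀, r₀, hA, hC₁, hc₀, hr₀, hcr, h₁⟩ := Q_bound
  obtain ⟨C₂, hC₂, h₂⟩ := rem_sum A hA
  refine ⟨A, C₂ * (2 * C₁ * Real.exp (17 / 8 * c₀) + 1), r₀, hA, ?_, hr₀, ?_⟩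
  · have : 0 < Real.exp (17 / 8 * c₀) := Real.exp_pos _
    have h3 : 0 ≤ C₁ * Real.exp (17 / 8 * c₀) := mul_nonneg (by linarith) this.le
    nlinarith
  intro r _ hr a b t t0 ha hb
  have hr8 : 8 ≤ r := hr₀.trans hr
  have hr1 : (1 : ℝ) < r := by exact_mod_cast (by omega : 1 < r)
  have hcl : c₀ ≤ Real.log r / 8 := by
    have h1 : Real.log r₀ ≤ Real.log r :=
      Real.log_le_log (by exact_mod_cast (by omega : 0 < r₀)) (by exact_mod_cast hr)
    linarith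
  have hl8 : 8 ≤ Real.log r := by linarith
  have g2 := h₂ r hr8 a c₀ b t t0 ha hc₀ hcl hb
  set l := Real.log r with hl
  have hl0 : 0 < l := by linarith
  have hNN : 0 ≤ NN r := by
    unfold NN
    positivity
  obtain ⟨hQc, -⟩ := Q_trivial r (by omega) c₀ b t0 (by linarith) (by rw [← hl]; linarith) hb A
    (by omega)
  obtain ⟨-, hWI, hW2⟩ := WW_stable l (by linarith) A t0 t
  set Q : ℝ → ℝ := fun t => ∑ χ ∈ prim r, ‖χ.LFunction (pt r c₀ t) * MM r χ (pt r b t0)‖ ^ 2 with hQ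
  have hQ0 : ∀ t, 0 ≤ Q t := fun t => sum_nonneg fun χ _ => sq_nonneg _
  have hWW0 : 0 ≤ WW l A t0 t := by
    unfold WW
    positivity
  have hpt : ∀ w : ℝ, Q (t - w / l) / (1 + |w|) ^ (2 * A + 4) ≤
      C₁ * Real.exp (b / 4) * NN r * (WW l A t0 (t - w / l) / (1 + |w|) ^ (2 * A + 4)) := by
    intro w
    rw [← mul_div_assoc]
    refine div_le_div_of_nonneg_right ?_ (by positivity)
    have := h₁ r hr b (t - w / l) t0 hb
    rw [← hl] at this
    linarith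
  have i1 : Integrable (fun w : ℝ => C₁ * Real.exp (b / 4) * NN r *
      (WW l A t0 (t - w / l) / (1 + |w|) ^ (2 * A + 4))) := hWI.const_mul _
  have i2 : Integrable (fun w : ℝ => Q (t - w / l) / (1 + |w|) ^ (2 * A + 4)) := by
    have hcont : Continuous (fun w : ℝ => Q (t - w / l) / (1 + |w|) ^ (2 * A + 4)) := by
      refine Continuous.div (by fun_prop) (by fun_prop) (fun w => ?_)
      positivity
    refine i1.mono' hcont.aestronglyMeasurable (Filter.Eventually.of_forall fun w => ?_)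
    rw [Real.norm_eq_abs, abs_of_nonneg (div_nonneg (hQ0 _) (by positivity))]
    exact hpt w
  have hK : 0 ≤ C₁ * Real.exp (b / 4) * NN r :=
    mul_nonneg (mul_nonneg (by linarith) (Real.exp_pos _).le) hNN
  have hJ : ∫ w : ℝ, Q (t - w / l) / (1 + |w|) ^ (2 * A + 4) ≤
      C₁ * Real.exp (b / 4) * NN r * (2 * WW l A t0 t) := by
    calc ∫ w : ℝ, Q (t - w / l) / (1 + |w|) ^ (2 * A + 4)
        ≤ ∫ w : ℝ, C₁ * Real.exp (b / 4) * NN r *
            (WW l A t0 (t - w / l) / (1 + |w|) ^ (2 * A + 4)) := integral_mono i2 i1 hpt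
      _ = C₁ * Real.exp (b / 4) * NN r *
            ∫ w : ℝ, WW l A t0 (t - w / l) / (1 + |w|) ^ (2 * A + 4) := integral_const_mul _ _
      _ ≤ _ := mul_le_mul_of_nonneg_left hW2 hK
  refine g2.trans ?_
  have hE : 0 < Real.exp (17 / 8 * c₀) := Real.exp_pos _
  have hEb : 1 ≤ Real.exp (b / 4) := Real.one_le_exp (by linarith)
  have hWN : 0 ≤ WW l A t0 t * NN r := mul_nonneg hWW0 hNN
  have e1 : Real.exp (-(5 / 4 * (a + c₀))) ≤ Real.exp (-(5 / 4 * a)) := by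
    apply Real.exp_le_exp.2
    linarith
  have e2 : Real.exp (17 / 8 * c₀) * (∫ w : ℝ, Q (t - w / l) / (1 + |w|) ^ (2 * A + 4)) +
      WW l A t0 t * NN r ≤ (2 * C₁ * Real.exp (17 / 8 * c₀) + 1) * Real.exp (b / 4) *
        (WW l A t0 t * NN r) := by
    have e3 : Real.exp (17 / 8 * c₀) * (∫ w : ℝ, Q (t - w / l) / (1 + |w|) ^ (2 * A + 4)) ≤
        Real.exp (17 / 8 * c₀) * (C₁ * Real.exp (b / 4) * NN r * (2 * WW l A t0 t)) :=
      mul_le_mul_of_nonneg_left hJ hE.le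
    have e4 : WW l A t0 t * NN r ≤ Real.exp (b / 4) * (WW l A t0 t * NN r) :=
      le_mul_of_one_le_left hWN hEb
    calc _ ≤ Real.exp (17 / 8 * c₀) * (C₁ * Real.exp (b / 4) * NN r * (2 * WW l A t0 t)) +
          Real.exp (b / 4) * (WW l A t0 t * NN r) := add_le_add e3 e4
      _ = _ := by ring
  have e5 : 0 ≤ (2 * C₁ * Real.exp (17 / 8 * c₀) + 1) * Real.exp (b / 4) *
      (WW l A t0 t * NN r) := by
    refine mul_nonneg (mul_nonneg ?_ (Real.exp_pos _).le) hWN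
    have : 0 ≤ C₁ * Real.exp (17 / 8 * c₀) := mul_nonneg (by linarith) hE.le
    linarith
  have e6 : Real.exp (-(5 / 4 * a) + b / 4) = Real.exp (-(5 / 4 * a)) * Real.exp (b / 4) :=
    Real.exp_add _ _
  calc C₂ * Real.exp (-(5 / 4 * (a + c₀))) * (Real.exp (17 / 8 * c₀) *
        (∫ w : ℝ, Q (t - w / l) / (1 + |w|) ^ (2 * A + 4)) + WW l A t0 t * NN r)
      ≤ C₂ * Real.exp (-(5 / 4 * (a + c₀))) * ((2 * C₁ * Real.exp (17 / 8 * c₀) + 1) *
          Real.exp (b / 4) * (WW l A t0 t * NN r)) :=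
        mul_le_mul_of_nonneg_left e2 (mul_nonneg (by linarith) (Real.exp_pos _).le)
    _ ≤ C₂ * Real.exp (-(5 / 4 * a)) * ((2 * C₁ * Real.exp (17 / 8 * c₀) + 1) *
          Real.exp (b / 4) * (WW l A t0 t * NN r)) := by
        refine mul_le_mul_of_nonneg_right ?_ e5
        exact mul_le_mul_of_nonneg_left e1 (by linarith)
    _ = _ := by
        rw [e6]
        ring

end Pool.Agent.SO
end

section

set_option autoImplicit false

namespace Pool.Agent.SO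

open Complex MeasureTheory

theorem R1a_gen (L : ℝ) (hL : 0 < L) (t : ℝ) (m a : ℕ) (hm : 2 * a + 2 ≤ m) (F : ℝ → ℂ)
    (hF : Continuous F) (D : ℝ) (hD : ∀ t' : ℝ, ‖F t'‖ ≤ D * (1 + L * |t' - t|) ^ a) :
    Integrable (fun t' : ℝ => ‖F t'‖ ^ 2 * (L / (1 + L * |t' - t|) ^ m)) := by
  have hpos : ∀ t' : ℝ, 1 ≤ 1 + L * |t' - t| := fun t' => by
    have := mul_nonneg hL.le (abs_nonneg (t' - t))
    linarith
  have hg : Integrable (fun t' : ℝ => D ^ 2 * L * (1 + (L * (t' - t)) ^ 2)⁻¹) := by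
    have h1 : Integrable (fun x : ℝ => (1 + x ^ 2)⁻¹) := integrable_inv_one_add_sq
    have h2 : Integrable (fun x : ℝ => (1 + (L * x) ^ 2)⁻¹) := h1.comp_mul_left' hL.ne'
    have h3 : Integrable (fun x : ℝ => (1 + (L * (x - t)) ^ 2)⁻¹) := h2.comp_sub_right t
    exact h3.const_mul _
  refine hg.mono' ?_ ?_
  · apply Continuous.aestronglyMeasurable
    refine (hF.norm.pow 2).mul (continuous_const.div (by fun_prop) fun t' => ?_)
    exact pow_ne_zero _ (by linarith [hpos t'])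
  · refine Filter.Eventually.of_forall fun t' => ?_
    set y := 1 + L * |t' - t| with hy
    have hy1 : 1 ≤ y := hpos t'
    have hy0 : 0 < y := by linarith
    have h1 : 0 ≤ ‖F t'‖ ^ 2 * (L / y ^ m) := by positivity
    rw [Real.norm_of_nonneg h1]
    have h2 : ‖F t'‖ ^ 2 ≤ D ^ 2 * y ^ (2 * a) := by
      have h3 := pow_le_pow_left₀ (norm_nonneg _) (hD t') 2
      rw [mul_pow, ← pow_mul, mul_comm a 2] at h3
      exact h3
    have h4 : y ^ (2 * a) * (L / y ^ m) ≤ L * (1 + (L * (t' - t)) ^ 2)⁻¹ := by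
      have h5 : y ^ (2 * a) * y ^ 2 ≤ y ^ m := by
        rw [← pow_add]
        exact pow_le_pow_right₀ hy1 hm
      have h6 : 1 + (L * (t' - t)) ^ 2 ≤ y ^ 2 := by
        have h7 : (L * (t' - t)) ^ 2 = (L * |t' - t|) ^ 2 := by
          rw [mul_pow, mul_pow, sq_abs]
        rw [h7, hy]
        nlinarith [mul_nonneg hL.le (abs_nonneg (t' - t))]
      have h8 : 0 < 1 + (L * (t' - t)) ^ 2 := by positivity
      rw [← div_eq_mul_inv, mul_div_assoc', div_le_div_iff₀ (by positivity) h8]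
      calc y ^ (2 * a) * L * (1 + (L * (t' - t)) ^ 2) ≤ y ^ (2 * a) * L * y ^ 2 := by gcongr
        _ = L * (y ^ (2 * a) * y ^ 2) := by ring
        _ ≤ L * y ^ m := by gcongr
    calc ‖F t'‖ ^ 2 * (L / y ^ m) ≤ D ^ 2 * y ^ (2 * a) * (L / y ^ m) := by gcongr
      _ = D ^ 2 * (y ^ (2 * a) * (L / y ^ m)) := by ring
      _ ≤ D ^ 2 * (L * (1 + (L * (t' - t)) ^ 2)⁻¹) := by gcongr
      _ = D ^ 2 * L * (1 + (L * (t' - t)) ^ 2)⁻¹ := by ring

theorem R1a_re (r : ℕ) (t' : ℝ) : (pt r 0 t').re = 1 / 2 := by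
  unfold pt
  simp

theorem R1a_cont (r : ℕ) : Continuous (fun t' : ℝ => pt r 0 t') := by
  unfold pt
  fun_prop

/-- R1a. PROOF. `kw r m t t' = L/(1 + L|t'-t|)^m` with `L = log r > 0` is continuous in `t'`,
nonnegative and `≤ L (1+|t|)^m.../(1+|t'|)^m`-like: `1 + |t'| ≤ (1 + |t|)(1 + |t'-t|)` and
`1 + |t' - t| ≤ C (1 + L|t'-t|)` with `C = max 1 (1/L)`. `‖AA‖` is continuous in `t'` (finite sum) and
bounded by `∑ |coefficient|` (`‖χ n‖ ≤ 1`, `‖n^(-(1/2+it'))‖ ≤ 1`). So the integrand is continuous and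
`≤ C'/(1+|t'|)^2`, integrable (`integrable_one_add_norm` type lemmas, or comparison with
`(1 + t'^2)⁻¹`: `integrable_inv_one_add_sq`). -/
theorem int_AA (r : ℕ) (hr : 2 ≤ r) (χ : DirichletCharacter ℂ r) (N : ℕ) (U t : ℝ) (m : ℕ)
    (hm : 2 ≤ m) :
    Integrable (fun t' : ℝ => ‖AA r χ N U (pt r 0 t')‖ ^ 2 * kw r m t t') := by
  have hr1 : (1 : ℝ) < r := by exact_mod_cast (by omega : 1 < r)
  have hL : 0 < Real.log r := Real.log_pos hr1
  unfold kw
  refine R1a_gen (Real.log r) hL t m 0 (by omega) (fun t' => AA r χ N U (pt r 0 t')) ?_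
    (∑ n ∈ Finset.Icc 1 N, ‖((ArithmeticFunction.vonMangoldt n *
      (th r U n - th r (U + 10) n) : ℝ) : ℂ)‖) ?_
  · unfold AA
    refine continuous_finsetSum _ fun n hn => ?_
    rw [Finset.mem_Icc] at hn
    refine continuous_const.mul ?_
    refine Continuous.const_cpow (R1a_cont r).neg (Or.inl ?_)
    exact_mod_cast (by omega : n ≠ 0)
  · intro t'
    rw [pow_zero, mul_one]
    unfold AA
    refine (norm_sum_le _ _).trans (Finset.sum_le_sum fun n hn => ?_)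
    rw [Finset.mem_Icc] at hn
    rw [norm_mul, norm_mul]
    have h1 : ‖χ (n : ZMod r)‖ ≤ 1 := χ.norm_le_one _
    have h2 : ‖(n : ℂ) ^ (-(pt r 0 t'))‖ ≤ 1 := by
      rw [Complex.norm_natCast_cpow_of_pos (by omega), Complex.neg_re, R1a_re]
      apply Real.rpow_le_one_of_one_le_of_nonpos
      · exact_mod_cast hn.1
      · norm_num
    calc _ ≤ ‖((ArithmeticFunction.vonMangoldt n *
      (th r U n - th r (U + 10) n) : ℝ) : ℂ)‖ * 1 * 1 := by gcongr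
      _ = _ := by ring

/-- R1b. PROOF. As R1a with `‖L(1/2 + it')‖ ≤ 20 (2r+1) ‖1/2 + it'‖ ≤ 20 (2r+1)(1 + |t'|)`
(`EM.L_growth`), so the integrand is `≤ C (1+|t'|)^2/(1+|t'|)^m ≤ C/(1+|t'|)^2` as `m ≥ 4`;
continuity: `DirichletCharacter.differentiable_LFunction hχ`. -/
theorem int_L (r : ℕ) [NeZero r] (hr : 2 ≤ r) (χ : DirichletCharacter ℂ r) (hχ : χ ≠ 1) (c : ℂ)
    (t : ℝ) (m : ℕ) (hm : 4 ≤ m) :
    Integrable (fun t' : ℝ => ‖χ.LFunction (pt r 0 t') * c‖ ^ 2 * kw r m t t') := by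
  have hr1 : (1 : ℝ) < r := by exact_mod_cast (by omega : 1 < r)
  have hL : 0 < Real.log r := Real.log_pos hr1
  unfold kw
  set L := Real.log r with hLdef
  set M : ℝ := max 1 (1 / L) with hM
  have hM1 : 1 ≤ M := le_max_left _ _
  have hM2 : 1 / L ≤ M := le_max_right _ _
  refine R1a_gen L hL t m 1 (by omega) (fun t' => χ.LFunction (pt r 0 t') * c) ?_
    (20 * (2 * r + 1) * ((1 + |t|) * M) * ‖c‖) ?_
  · exact ((DirichletCharacter.differentiable_LFunction hχ).continuous.comp (R1a_cont r)).mul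
      continuous_const
  · intro t'
    rw [pow_one, norm_mul]
    have h1 : ‖χ.LFunction (pt r 0 t')‖ ≤ 20 * (2 * r + 1) * ‖pt r 0 t'‖ :=
      Pool.Agent.EM.L_growth r χ hχ _ (by rw [R1a_re]; norm_num)
    have h2 : ‖pt r 0 t'‖ ≤ 1 + |t'| := by
      unfold pt
      have h3 : (1 / 2 + ((0 : ℝ) : ℂ) / (Real.log r : ℂ) + (t' : ℂ) * I) = 1 / 2 + (t' : ℂ) * I := by
        simp
      rw [h3]
      refine (norm_add_le _ _).trans ?_
      rw [norm_mul, Complex.norm_I, mul_one, Complex.norm_real, Real.norm_eq_abs]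
      have h4 : ‖(1 / 2 : ℂ)‖ = 1 / 2 := by norm_num
      rw [h4]
      linarith
    have h5 : 1 + |t'| ≤ (1 + |t|) * M * (1 + L * |t' - t|) := by
      have h6 : |t'| ≤ |t| + |t' - t| := by
        have := abs_add_le t (t' - t)
        rwa [add_sub_cancel] at this
      have h7 : 1 + |t' - t| ≤ M * (1 + L * |t' - t|) := by
        have h8 : 1 ≤ M * L := by
          rw [div_le_iff₀ hL] at hM2
          exact hM2
        nlinarith [abs_nonneg (t' - t), mul_nonneg (sub_nonneg.2 h8) (abs_nonneg (t' - t))]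
      calc 1 + |t'| ≤ 1 + (|t| + |t' - t|) := by linarith
        _ ≤ (1 + |t|) * (1 + |t' - t|) := by nlinarith [abs_nonneg t, abs_nonneg (t' - t)]
        _ ≤ (1 + |t|) * (M * (1 + L * |t' - t|)) := by gcongr
        _ = _ := by ring
    calc ‖χ.LFunction (pt r 0 t')‖ * ‖c‖ ≤ 20 * (2 * r + 1) * ‖pt r 0 t'‖ * ‖c‖ := by gcongr
      _ ≤ 20 * (2 * r + 1) * ((1 + |t|) * M * (1 + L * |t' - t|)) * ‖c‖ := by
        gcongr
        exact h2.trans h5
      _ = _ := by ring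

end Pool.Agent.SO
end

section

set_option autoImplicit false

namespace Pool.Agent.SO

open Complex MeasureTheory

/-- R1c. PROOF. `PP` is a finite sum of the entire functions `a_n n^(-s)`, `n ≥ 1`
(`Differentiable` via `DifferentiableAt.const_cpow` / `Complex.cpow`, base `n ≠ 0`); `pz r t` is
affine in `z`. -/
theorem PP_entire (r : ℕ) (χ : DirichletCharacter ℂ r) (N : ℕ) (U t : ℝ) :
    Differentiable ℂ (fun z : ℂ => PP r χ N U (pz r t z)) := by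
  intro z
  unfold PP
  refine DifferentiableAt.fun_sum (fun n hn => ?_)
  have hn0 : (n : ℂ) ≠ 0 := by
    have := (Finset.mem_Icc.1 hn).1
    exact_mod_cast (by omega : n ≠ 0)
  have h1 : DifferentiableAt ℂ (fun z : ℂ => -(pz r t z)) z := by
    unfold pz
    fun_prop
  exact (h1.const_cpow (Or.inl hn0)).const_mul _

/-- R1d. PROOF. Chain rule: `pz r t z = 1/2 + tI + z/log r` has derivative `1/log r`. -/
theorem deriv_L_pz (r : ℕ) [NeZero r] (hr : 2 ≤ r) (χ : DirichletCharacter ℂ r) (hχ : χ ≠ 1)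
    (c : ℂ) (t : ℝ) (z : ℂ) :
    HasDerivAt (fun z : ℂ => χ.LFunction (pz r t z) * c)
      (deriv χ.LFunction (pz r t z) * c / (Real.log r : ℂ)) z := by
  have h1 : HasDerivAt (fun z : ℂ => pz r t z) (1 / (Real.log r : ℂ)) z := by
    unfold pz
    exact ((hasDerivAt_id z).div_const _).const_add _
  have h2 : HasDerivAt χ.LFunction (deriv χ.LFunction (pz r t z)) (pz r t z) :=
    ((DirichletCharacter.differentiable_LFunction hχ) _).hasDerivAt
  have h3 := (h2.comp z h1).mul_const c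
  refine h3.congr_deriv ?_
  ring

/-- R1e. PROOF. `unfold pz pt; push_cast; ring`. -/
theorem pz_real (r : ℕ) (t a : ℝ) : pz r t (a : ℂ) = pt r a t := by
  unfold pz pt
  ring

end Pool.Agent.SO
end

section

set_option autoImplicit false

namespace Pool.Agent.SO

open Complex MeasureTheory Pool.Agent.MC.C2

theorem S3_reindex (N d : ℕ) (hd : 1 ≤ d) (φ : ℕ → ℂ) (hφ : ∀ k, N < k → φ k = 0) :
    ∑ m ∈ Finset.Icc 1 N, φ (d * m) = ∑ k ∈ Finset.Icc 1 N, if d ∣ k then φ k else 0 := by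
  rw [← Finset.sum_filter]
  have h1 : ∑ m ∈ Finset.Icc 1 N, φ (d * m) =
      ∑ m ∈ (Finset.Icc 1 N).filter (fun m => d * m ≤ N), φ (d * m) := by
    symm
    apply Finset.sum_filter_of_ne
    intro m _ h
    by_contra hc
    exact h (hφ _ (by omega))
  rw [h1]
  refine Finset.sum_nbij' (fun m => d * m) (fun k => k / d) ?_ ?_ ?_ ?_ ?_
  · intro m hm
    rw [Finset.mem_filter, Finset.mem_Icc] at hm ⊢
    refine ⟨⟨?_, hm.2⟩, dvd_mul_right d m⟩
    exact Nat.mul_pos hd hm.1.1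
  · intro k hk
    rw [Finset.mem_filter, Finset.mem_Icc] at hk ⊢
    obtain ⟨⟨hk1, hk2⟩, c, rfl⟩ := hk
    have hc : d * c / d = c := Nat.mul_div_cancel_left c hd
    rw [hc]
    have hc1 : 1 ≤ c := by
      rcases Nat.eq_zero_or_pos c with h | h
      · subst h; simp at hk1
      · exact h
    refine ⟨⟨hc1, ?_⟩, hk2⟩
    exact le_trans (Nat.le_mul_of_pos_left c hd) hk2
  · intro m _
    exact Nat.mul_div_cancel_left m hd
  · intro k hk
    rw [Finset.mem_filter] at hk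
    exact Nat.mul_div_cancel' hk.2
  · intro m _
    rfl

theorem S3_vv_zero (x : ℝ) (hx : 2 ≤ x) : vv x = 0 :=
  Real.smoothTransition.zero_of_nonpos (by linarith)

/-- S3. The finite rearrangement of `Gt`.

PROOF. Let `Y = r^(U+4)`, `c d = Λ(d)(1 - th r U d)`. By `ArithmeticFunction.vonMangoldt_sum`
(`∑_{d ∣ k} Λ(d) = log k`), `cU r U k = log k - ∑_{d ∣ k} c d`. So `Gt` is the first sum minus
`∑_{k ≤ N} ∑_{d ∣ k} c d vv(k/Y) χ k k^(-s)`. Write `k = d m`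
(`Nat.divisorsAntidiagonal`, or reindex pairs `(d,m)` with `d m ≤ N`):
`χ(dm) = χ d χ m`, `(dm)^(-s) = d^(-s) m^(-s)` (`Complex.natCast_mul_natCast_cpow`),
`vv(dm/Y) = vv(m/(Y/d))`. The pairs with `d, m ≤ N` but `d m > N ≥ 2 Y` contribute `0` to the right
hand side since `vv x = 0` for `x ≥ 2` (`C2.H9a_vv_zero` or `Real.smoothTransition.zero_of_nonpos`),
and for `d m ≤ N` both `d, m ≤ N`. -/
theorem Gt_eq (r : ℕ) (hr : 2 ≤ r) (χ : DirichletCharacter ℂ r) (N : ℕ) (U : ℝ)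
    (hN : 2 * (r : ℝ) ^ (U + 4) ≤ N) (s : ℂ) :
    Gt r χ N U s =
      (∑ k ∈ Finset.Icc 1 N, χ k * ((vv (k / (r : ℝ) ^ (U + 4)) * Real.log k : ℝ) : ℂ) *
        (k : ℂ) ^ (-s)) -
      ∑ d ∈ Finset.Icc 1 N, ((ArithmeticFunction.vonMangoldt d * (1 - th r U d) : ℝ) : ℂ) * χ d *
        (d : ℂ) ^ (-s) *
        ∑ m ∈ Finset.Icc 1 N, χ m * ((vv (m / ((r : ℝ) ^ (U + 4) / d)) : ℝ) : ℂ) *
          (m : ℂ) ^ (-s) := by
  set Y : ℝ := (r : ℝ) ^ (U + 4) with hY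
  have hr0 : (0 : ℝ) < r := by exact_mod_cast (by omega : 0 < r)
  have hYpos : 0 < Y := Real.rpow_pos_of_pos hr0 _
  set c : ℕ → ℂ := fun d => ((ArithmeticFunction.vonMangoldt d * (1 - th r U d) : ℝ) : ℂ) with hc
  set φ : ℕ → ℂ := fun k => χ k * ((vv (k / Y) : ℝ) : ℂ) * (k : ℂ) ^ (-s) with hφ
  have hφ0 : ∀ k, N < k → φ k = 0 := by
    intro k hk
    have h1 : vv ((k : ℝ) / Y) = 0 := by
      apply S3_vv_zero
      rw [le_div_iff₀ hYpos]
      refine hN.trans ?_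
      exact_mod_cast hk.le
    simp only [hφ]
    rw [h1]
    simp
  have h2 : ∀ d ∈ Finset.Icc 1 N, c d * χ d * (d : ℂ) ^ (-s) *
        ∑ m ∈ Finset.Icc 1 N, χ m * ((vv (m / (Y / d)) : ℝ) : ℂ) * (m : ℂ) ^ (-s) =
      ∑ k ∈ Finset.Icc 1 N, if d ∣ k then c d * φ k else 0 := by
    intro d hd
    rw [Finset.mem_Icc] at hd
    have hd0 : (d : ℝ) ≠ 0 := by exact_mod_cast (by omega : d ≠ 0)
    have h3 : ∑ k ∈ Finset.Icc 1 N, (if d ∣ k then c d * φ k else 0) =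
        c d * ∑ k ∈ Finset.Icc 1 N, if d ∣ k then φ k else 0 := by
      rw [Finset.mul_sum]
      refine Finset.sum_congr rfl fun k _ => ?_
      split_ifs
      · rfl
      · rw [mul_zero]
    rw [h3, ← S3_reindex N d hd.1 φ hφ0, Finset.mul_sum, Finset.mul_sum]
    refine Finset.sum_congr rfl fun m hm => ?_
    have h4 : ((d * m : ℕ) : ℝ) / Y = m / (Y / d) := by
      push_cast
      field_simp
    have h5 : ((d * m : ℕ) : ℂ) ^ (-s) = (d : ℂ) ^ (-s) * (m : ℂ) ^ (-s) := by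
      rw [Nat.cast_mul, Complex.natCast_mul_natCast_cpow]
    have h6 : χ ((d * m : ℕ) : ZMod r) = χ (d : ZMod r) * χ (m : ZMod r) := by
      rw [Nat.cast_mul, map_mul]
    simp only [hφ]
    rw [h4, h5, h6]
    ring
  rw [Finset.sum_congr rfl h2, Finset.sum_comm, ← Finset.sum_sub_distrib]
  unfold Gt
  refine Finset.sum_congr rfl fun k hk => ?_
  rw [Finset.mem_Icc] at hk
  have hk0 : k ≠ 0 := by omega
  have h7 : ∑ d ∈ Finset.Icc 1 N, (if d ∣ k then c d * φ k else 0) =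
      (∑ d ∈ k.divisors, c d) * φ k := by
    rw [← Finset.sum_filter, Finset.sum_mul]
    refine Finset.sum_congr ?_ fun _ _ => rfl
    ext d
    rw [Finset.mem_filter, Finset.mem_Icc, Nat.mem_divisors]
    constructor
    · rintro ⟨_, h⟩
      exact ⟨h, hk0⟩
    · rintro ⟨h, _⟩
      refine ⟨⟨Nat.pos_of_dvd_of_pos h hk.1, (Nat.le_of_dvd hk.1 h).trans hk.2⟩, h⟩
  have h8 : ((Real.log k : ℝ) : ℂ) - ∑ d ∈ k.divisors, c d = ((cU r U k : ℝ) : ℂ) := by
    rw [← ArithmeticFunction.vonMangoldt_sum]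
    unfold cU
    simp only [hc]
    rw [← Complex.ofReal_sum, ← Complex.ofReal_sub, ← Finset.sum_sub_distrib]
    congr 1
    refine Finset.sum_congr rfl fun d _ => ?_
    ring
  rw [h7, Complex.ofReal_mul, ← h8, Complex.ofReal_mul]
  simp only [hφ]
  ring

/-- S3'. The frequencies of `Gt` lie in `[U, U + 5]`.

PROOF. If `log k / log r < U`, then for every `d ∣ k`: `log d ≤ log k`, so
`log d / log r - U < 0` and `th r U d = 0` (`Real.smoothTransition.zero_of_nonpos`); so `cU r U k = 0`,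
contradiction. If `log k / log r > U + 5`, then `k > r^(U+5) ≥ 2 r^(U+4)` and
`vv (k / r^(U+4)) = 0`. -/
theorem Gt_support (r : ℕ) (hr : 2 ≤ r) (U : ℝ) (k : ℕ) (hk : 1 ≤ k)
    (h : cU r U k * vv (k / (r : ℝ) ^ (U + 4)) ≠ 0) :
    U ≤ Real.log k / Real.log r ∧ Real.log k / Real.log r ≤ U + 5 := by
  have hr1 : (1 : ℝ) < r := by exact_mod_cast (by omega : 1 < r)
  have hr0 : (0 : ℝ) < r := by linarith
  have hL : 0 < Real.log r := Real.log_pos hr1
  have hkpos : (0 : ℝ) < k := by exact_mod_cast hk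
  constructor
  · by_contra hlt
    rw [not_le] at hlt
    apply h
    have h1 : cU r U k = 0 := by
      unfold cU
      refine Finset.sum_eq_zero fun d hd => ?_
      have hdk : d ≤ k := Nat.divisor_le hd
      have hd1 : 1 ≤ d := Nat.pos_of_mem_divisors hd
      have hd0 : (0 : ℝ) < d := by exact_mod_cast hd1
      have h2 : Real.log d ≤ Real.log k := Real.log_le_log hd0 (by exact_mod_cast hdk)
      have h3 : Real.log d / Real.log r ≤ Real.log k / Real.log r :=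
        div_le_div_of_nonneg_right h2 hL.le
      have h4 : th r U d = 0 := by
        unfold th
        exact Real.smoothTransition.zero_of_nonpos (by linarith)
      rw [h4, mul_zero]
    rw [h1, zero_mul]
  · by_contra hlt
    rw [not_le] at hlt
    apply h
    have h1 : vv ((k : ℝ) / (r : ℝ) ^ (U + 4)) = 0 := by
      apply S3_vv_zero
      have hp : 0 < (r : ℝ) ^ (U + 4) := Real.rpow_pos_of_pos hr0 _
      rw [le_div_iff₀ hp]
      have h2 : (r : ℝ) ^ (U + 5) ≤ k := by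
        rw [lt_div_iff₀ hL] at hlt
        rw [Real.rpow_def_of_pos hr0]
        have h3 : Real.exp (Real.log r * (U + 5)) ≤ Real.exp (Real.log k) := by
          apply Real.exp_le_exp.2
          rw [mul_comm]
          exact hlt.le
        rwa [Real.exp_log hkpos] at h3
      have h3 : (r : ℝ) ^ (U + 5) = r * (r : ℝ) ^ (U + 4) := by
        rw [show U + 5 = 1 + (U + 4) by ring, Real.rpow_add hr0, Real.rpow_one]
      have h4 : (2 : ℝ) ≤ r := by exact_mod_cast hr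
      nlinarith
    rw [h1, mul_zero]

end Pool.Agent.SO
end

section

set_option autoImplicit false

namespace Pool.Agent.SO

open Complex MeasureTheory Pool.Agent.MC.C2

/-- S5a. The algebraic identity `L A = G_U - G_{U+10}`.

PROOF. `AA = PP (U + 10) - PP U` term by term: `(1 - th_{U+10}) - (1 - th_U) = th_U - th_{U+10}`
(`Finset.sum_sub_distrib`); unfold `GG` and `ring`. -/
theorem L_mul_AA (r : ℕ) [NeZero r] (χ : DirichletCharacter ℂ r) (N : ℕ) (U : ℝ) (s : ℂ) :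
    χ.LFunction s * AA r χ N U s = GG r χ N U s - GG r χ N (U + 10) s := by
  have h : AA r χ N U s = PP r χ N (U + 10) s - PP r χ N U s := by
    unfold AA PP
    rw [← Finset.sum_sub_distrib]
    refine Finset.sum_congr rfl fun n _ => ?_
    push_cast
    ring
  rw [h]
  unfold GG
  ring

theorem S5a_term (r : ℕ) (hr : 2 ≤ r) (t x y₀ : ℝ) (k : ℕ) (hk : 1 ≤ k) :
    (k : ℂ) ^ (-(pt r 0 (t + y₀ / Real.log r))) *
      Complex.exp (-((x * (Real.log k / Real.log r) : ℝ) : ℂ)) =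
      (k : ℂ) ^ (-(pz r t (x + y₀ * I))) := by
  have hr1 : (1 : ℝ) < r := by exact_mod_cast (by omega : 1 < r)
  have hL : 0 < Real.log r := Real.log_pos hr1
  have hLc : ((Real.log r : ℝ) : ℂ) ≠ 0 := by exact_mod_cast hL.ne'
  have hk0 : (k : ℂ) ≠ 0 := by exact_mod_cast (by omega : k ≠ 0)
  have hlog : Complex.log (k : ℂ) = ((Real.log k : ℝ) : ℂ) := by
    rw [Complex.natCast_log]
  rw [Complex.cpow_def_of_ne_zero hk0, Complex.cpow_def_of_ne_zero hk0, hlog, ← Complex.exp_add]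
  congr 1
  unfold pt pz
  push_cast
  field_simp
  ring

/-- S5b. Evaluation of the convolution of `Gt` with the kernel of S1, at a complex point.

PROOF. Write `z = x + y₀ I`, `τ = t + y₀ / log r`, so `pz r t z = 1/2 + x/log r + τ I`. By
`conv_dirichlet` (S2) with `c k = cU r U' k * vv (k/r^(U'+4)) * χ k` the integral is
`∑_k c k k^(-(1/2+τI)) * mult(log k/log r)`, `mult v = ∫ κ y exp (I y v)`. By `Gt_support` (S3')
with `U' = U` only `k` with `log k/log r ∈ [U, U+5]` contribute, there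
`mult = exp (-x log k/log r)`, and `k^(-(1/2+τI)) exp (-x log k / log r) = k^(-(pz r t z))`: first
claim. With `U' = U + 10`: only `log k/log r ≥ U + 10`, `mult = 0`: second claim. -/
theorem conv_Gt (r : ℕ) (hr : 2 ≤ r) (χ : DirichletCharacter ℂ r) (N : ℕ) (U x : ℝ) (κ : ℝ → ℂ)
    (hκ : Continuous κ) (C : ℝ) (m : ℕ) (hm : 2 ≤ m) (hb : ∀ y, ‖κ y‖ ≤ C / (1 + |y|) ^ m)
    (h1 : ∀ v : ℝ, U ≤ v → v ≤ U + 5 →
        ∫ y : ℝ, κ y * Complex.exp (I * y * v) = Complex.exp (-((x * v : ℝ) : ℂ)))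
    (h2 : ∀ v : ℝ, U + 10 ≤ v → ∫ y : ℝ, κ y * Complex.exp (I * y * v) = 0)
    (t y₀ : ℝ) :
    (∫ t' : ℝ, Gt r χ N U (pt r 0 t') * ((Real.log r : ℂ) *
        κ (Real.log r * (t + y₀ / Real.log r - t')))) = Gt r χ N U (pz r t (x + y₀ * I)) ∧
    (∫ t' : ℝ, Gt r χ N (U + 10) (pt r 0 t') * ((Real.log r : ℂ) *
        κ (Real.log r * (t + y₀ / Real.log r - t')))) = 0 := by
  have hGt : ∀ V : ℝ, (∫ t' : ℝ, Gt r χ N V (pt r 0 t') * ((Real.log r : ℂ) *
        κ (Real.log r * (t + y₀ / Real.log r - t')))) =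
      ∑ k ∈ Finset.Icc 1 N, (((cU r V k * vv (k / (r : ℝ) ^ (V + 4)) : ℝ) : ℂ) * χ k) *
        (k : ℂ) ^ (-(pt r 0 (t + y₀ / Real.log r))) *
        ∫ y : ℝ, κ y * Complex.exp (I * y * ((Real.log k / Real.log r : ℝ) : ℂ)) := by
    intro V
    exact conv_dirichlet r hr κ hκ C m hm hb N
      (fun k => ((cU r V k * vv (k / (r : ℝ) ^ (V + 4)) : ℝ) : ℂ) * χ k) (t + y₀ / Real.log r)
  constructor
  · rw [hGt]
    unfold Gt
    refine Finset.sum_congr rfl fun k hk => ?_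
    rw [Finset.mem_Icc] at hk
    by_cases h : cU r U k * vv (k / (r : ℝ) ^ (U + 4)) = 0
    · rw [h]
      simp
    · obtain ⟨h3, h4⟩ := Gt_support r hr U k hk.1 h
      rw [h1 _ h3 h4, mul_assoc, S5a_term r hr t x y₀ k hk.1]
  · rw [hGt]
    refine Finset.sum_eq_zero fun k hk => ?_
    rw [Finset.mem_Icc] at hk
    by_cases h : cU r (U + 10) k * vv (k / (r : ℝ) ^ (U + 10 + 4)) = 0
    · rw [h]
      simp
    · obtain ⟨h3, h4⟩ := Gt_support r hr (U + 10) k hk.1 h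
      rw [h2 _ h3, mul_zero]

end Pool.Agent.SO
end

section

set_option autoImplicit false

/-! Part A: bounds for `ff`, its mean square, and the Gaussian kernel. -/

namespace Pool.Agent.SK

open Complex MeasureTheory
open Pool.Agent.EM (psiC)
open Pool.Agent.SO (prim NN)

theorem ff_le {q : ℕ} (χ : DirichletCharacter ℂ q) (v : ℝ) : ‖ff χ v‖ ≤ 6 * Real.exp (v / 2) := by
  unfold ff
  rw [norm_mul, Complex.norm_real, Real.norm_of_nonneg (Real.exp_pos _).le]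
  have h1 := Pool.Agent.EM.psiC_le q χ (Real.exp v) (Real.exp_pos v).le
  calc ‖psiC χ (Real.exp v)‖ * Real.exp (-v / 2) ≤ 6 * Real.exp v * Real.exp (-v / 2) := by gcongr
    _ = 6 * Real.exp (v / 2) := by rw [mul_assoc, ← Real.exp_add]; congr 2; ring

theorem NN_nonneg (r : ℕ) [NeZero r] : 0 ≤ NN r := by unfold NN; positivity

/-- mean square of `ff` over the primitive characters -/
theorem ff_mean : ∃ C : ℝ, 1 ≤ C ∧ ∀ (r : ℕ) [NeZero r] (v : ℝ), 0 ≤ v →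
    v ≤ 7 / 8 * Real.log r → ∑ χ ∈ prim r, ‖ff χ v‖ ^ 2 ≤ C * NN r * (1 + v) := by
  obtain ⟨C, hC, h⟩ := Pool.Agent.SO.prim_sq_NN
  refine ⟨6 * C, by linarith, ?_⟩
  intro r _ v hv hv2
  have hr : 1 ≤ r := Nat.one_le_iff_ne_zero.2 (NeZero.ne r)
  have hr0 : (0 : ℝ) < r := by exact_mod_cast hr
  have hN : ((⌊Real.exp v⌋₊ : ℕ) : ℝ) ≤ (r : ℝ) ^ (7 / 8 : ℝ) := by
    refine (Nat.floor_le (Real.exp_pos v).le).trans ?_
    rw [Real.rpow_def_of_pos hr0]
    exact Real.exp_le_exp.2 (by linarith)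
  have h1 := h r (fun n => ((ArithmeticFunction.vonMangoldt n : ℝ) : ℂ)) ⌊Real.exp v⌋₊ hN
  have hNN := NN_nonneg r
  have h2 : ∑ n ∈ Finset.Icc 1 ⌊Real.exp v⌋₊, ‖((ArithmeticFunction.vonMangoldt n : ℝ) : ℂ)‖ ^ 2 ≤
      v * (6 * Real.exp v) := by
    have h3 : ∀ n ∈ Finset.Icc 1 ⌊Real.exp v⌋₊, ‖((ArithmeticFunction.vonMangoldt n : ℝ) : ℂ)‖ ^ 2 ≤
        v * ArithmeticFunction.vonMangoldt n := by
      intro n hn
      rw [Complex.norm_real, Real.norm_of_nonneg ArithmeticFunction.vonMangoldt_nonneg, sq]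
      refine mul_le_mul_of_nonneg_right ?_ ArithmeticFunction.vonMangoldt_nonneg
      refine ArithmeticFunction.vonMangoldt_le_log.trans ?_
      have hn1 := (Finset.mem_Icc.1 hn).1
      have hn2 := (Finset.mem_Icc.1 hn).2
      have hn0 : (0 : ℝ) < n := by exact_mod_cast hn1
      rw [Real.log_le_iff_le_exp hn0]
      exact (Nat.cast_le.2 hn2).trans (Nat.floor_le (Real.exp_pos v).le)
    refine (Finset.sum_le_sum h3).trans ?_
    rw [← Finset.mul_sum]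
    refine mul_le_mul_of_nonneg_left ?_ hv
    have h4 : ∑ n ∈ Finset.Icc 1 ⌊Real.exp v⌋₊, ArithmeticFunction.vonMangoldt n = Chebyshev.psi (Real.exp v) := by
      unfold Chebyshev.psi
      have hI : Finset.Icc 1 ⌊Real.exp v⌋₊ = Finset.Ioc 0 ⌊Real.exp v⌋₊ := by
        ext n; simp [Nat.succ_le_iff]
      rw [hI]
    rw [h4]
    have h5 := Chebyshev.psi_le_const_mul_self (Real.exp_pos v).le
    have h6 : Real.log 4 ≤ 2 := by
      have h7 : Real.log 4 = 2 * Real.log 2 := by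
        rw [show (4 : ℝ) = 2 ^ 2 by norm_num, Real.log_pow]; norm_num
      rw [h7]
      linarith [Real.log_two_lt_d9]
    have h8 := Real.exp_pos v
    nlinarith
  have e : ∀ χ ∈ prim r, ‖ff χ v‖ ^ 2 = Real.exp (-v) *
      ‖∑ k ∈ Finset.Icc 1 ⌊Real.exp v⌋₊, ((ArithmeticFunction.vonMangoldt k : ℝ) : ℂ) * χ (k : ZMod r)‖ ^ 2 := by
    intro χ _
    unfold ff psiC
    rw [norm_mul, mul_pow, Complex.norm_real, Real.norm_of_nonneg (Real.exp_pos _).le, mul_comm]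
    congr 1
    · rw [← Real.exp_nat_mul]; congr 1; push_cast; ring
    · congr 2
      exact Finset.sum_congr rfl fun k _ => mul_comm _ _
  rw [Finset.sum_congr rfl e, ← Finset.mul_sum]
  calc Real.exp (-v) * _ ≤ Real.exp (-v) * (C * NN r * (v * (6 * Real.exp v))) := by
        refine mul_le_mul_of_nonneg_left (h1.trans ?_) (Real.exp_pos _).le
        gcongr
    _ = (Real.exp (-v) * Real.exp v) * (6 * C * NN r * v) := by ring
    _ = 6 * C * NN r * v := by rw [← Real.exp_add]; simp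
    _ ≤ 6 * C * NN r * (1 + v) := by
        have : 0 ≤ 6 * C * NN r := by positivity
        nlinarith

/-- the kernel -/
theorem gk_le (W x s : ℝ) (hW : 1 ≤ W) : ‖gk W x s‖ ≤ (2 + |x|) * Real.exp (-(s ^ 2 / (4 * W ^ 2))) := by
  unfold gk
  have hW0 : 0 < W := by linarith
  have e1 : ‖Complex.exp ((x : ℂ) * s * I - ((s ^ 2 / (2 * W ^ 2) : ℝ) : ℂ))‖ =
      Real.exp (-(s ^ 2 / (2 * W ^ 2))) := by
    rw [Complex.norm_exp, Complex.sub_re, Complex.ofReal_re]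
    congr 1
    have : ((x : ℂ) * s * I).re = 0 := by simp
    rw [this, zero_sub]
  have e2 : ‖(1 / 2 + (x : ℂ) * I - ((s / W ^ 2 : ℝ) : ℂ))‖ ≤ 1 / 2 + |x| + |s| / W ^ 2 := by
    refine (norm_sub_le _ _).trans ?_
    refine add_le_add ((norm_add_le _ _).trans ?_) ?_
    · rw [norm_mul, Complex.norm_I, mul_one, Complex.norm_real, Real.norm_eq_abs]
      norm_num
    · rw [Complex.norm_real, Real.norm_eq_abs, abs_div, abs_of_pos (by positivity : 0 < W ^ 2)]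
  rw [norm_mul, e1]
  have e3 : Real.exp (-(s ^ 2 / (2 * W ^ 2))) = Real.exp (-(s ^ 2 / (4 * W ^ 2))) * Real.exp (-(s ^ 2 / (4 * W ^ 2))) := by
    rw [← Real.exp_add]; congr 1; field_simp; ring
  have e4 : (1 / 2 + |x| + |s| / W ^ 2) * Real.exp (-(s ^ 2 / (4 * W ^ 2))) ≤ 2 + |x| := by
    have h1 : Real.exp (-(s ^ 2 / (4 * W ^ 2))) ≤ 1 := Real.exp_le_one_iff.2 (by
      have : 0 ≤ s ^ 2 / (4 * W ^ 2) := by positivity
      linarith)
    have h2 : |s| / W ^ 2 * Real.exp (-(s ^ 2 / (4 * W ^ 2))) ≤ 1 := by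
      have h3 : 1 + s ^ 2 / (4 * W ^ 2) ≤ Real.exp (s ^ 2 / (4 * W ^ 2)) := by
        linarith [Real.add_one_le_exp (s ^ 2 / (4 * W ^ 2))]
      rw [Real.exp_neg, ← div_eq_mul_inv, div_le_one (Real.exp_pos _)]
      refine le_trans ?_ h3
      rw [div_le_iff₀ (by positivity)]
      have h4 : (1 + s ^ 2 / (4 * W ^ 2)) * W ^ 2 = W ^ 2 + s ^ 2 / 4 := by field_simp
      rw [h4]
      have h5 := sq_nonneg (W - |s| / 2)
      have h6 : |s| ^ 2 = s ^ 2 := sq_abs s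
      have h7 : |s| ≤ W * |s| := by nlinarith [abs_nonneg s]
      nlinarith
    have h3 : (1 / 2 + |x|) * Real.exp (-(s ^ 2 / (4 * W ^ 2))) ≤ 1 / 2 + |x| := by
      have : 0 ≤ 1 / 2 + |x| := by positivity
      nlinarith
    nlinarith
  calc ‖(1 / 2 + (x : ℂ) * I - ((s / W ^ 2 : ℝ) : ℂ))‖ * Real.exp (-(s ^ 2 / (2 * W ^ 2)))
      ≤ (1 / 2 + |x| + |s| / W ^ 2) * Real.exp (-(s ^ 2 / (2 * W ^ 2))) := by gcongr
    _ = ((1 / 2 + |x| + |s| / W ^ 2) * Real.exp (-(s ^ 2 / (4 * W ^ 2)))) * Real.exp (-(s ^ 2 / (4 * W ^ 2))) := by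
        rw [e3]; ring
    _ ≤ (2 + |x|) * Real.exp (-(s ^ 2 / (4 * W ^ 2))) := by gcongr

theorem gk_continuous (W : ℝ) (hW : 1 ≤ W) : Continuous (fun p : ℝ × ℝ => gk W p.1 p.2) := by
  unfold gk
  have : W ≠ 0 := by linarith
  fun_prop

end Pool.Agent.SK
end
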