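import Mathlib
import Pool.Agent.Lib.MP_9cfc0a_nt.Mg.G004
import Pool.Agent.Lib.MP_9cfc0a_nt.Mg.G002
import Pool.Agent.Lib.MP_9cfc0a_nt.C2H9d

section

set_option autoImplicit false

namespace Pool.Agent.SO

open Finset Complex MeasureTheory
open scoped ContDiff

lemma MoJ4_diff (r : ℕ) [NeZero r] (χ : DirichletCharacter ℂ r) : Differentiable ℂ (DD r χ) := by
  have : DD r χ = fun s => ∑ m ∈ Finset.Icc 1 r, (gc (Real.log m / Real.log r) : ℂ) * χ m * (m : ℂ) ^ (-s) := rfl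
  rw [this]
  apply Differentiable.fun_sum
  intro m hm
  apply Differentiable.const_mul
  intro s
  have hm0 : (m : ℂ) ≠ 0 := by
    have : 1 ≤ m := (Finset.mem_Icc.mp hm).1
    exact_mod_cast (by omega : m ≠ 0)
  exact (differentiableAt_id.neg).const_cpow (Or.inl hm0)

lemma MoJ4_pt (r : ℕ) (l b t θ : ℝ) (hl : l = Real.log r) (hl0 : 0 < l) :
    pt r b t + ((1 / l : ℝ) : ℂ) * Complex.exp ((θ : ℂ) * I) =
      pt r (b + Real.cos θ) (t + Real.sin θ / l) := by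
  unfold pt
  rw [Complex.exp_mul_I, ← hl]
  have h : (l : ℂ) ≠ 0 := by exact_mod_cast hl0.ne'
  push_cast
  field_simp
  ring

lemma MoJ4_WW (l : ℝ) (hl : 0 < l) (A : ℕ) (t θ : ℝ) (hl1 : 1 ≤ l) :
    WW l A t (t + Real.sin θ / l) ≤ 4 ^ A * (1 + |t|) ^ A := by
  unfold WW
  have hs : |Real.sin θ| ≤ 1 := Real.abs_sin_le_one θ
  have h1 : |Real.sin θ / l| ≤ 1 := by
    rw [abs_div, abs_of_pos hl]
    rw [div_le_one hl]
    linarith
  have h2 : 1 + |t + Real.sin θ / l| ≤ 2 * (1 + |t|) := by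
    have := abs_add_le t (Real.sin θ / l)
    have := abs_nonneg t
    linarith
  have h3 : 1 + l * |t + Real.sin θ / l - t| ≤ 2 := by
    have : t + Real.sin θ / l - t = Real.sin θ / l := by ring
    rw [this, abs_div, abs_of_pos hl]
    have : l * (|Real.sin θ| / l) = |Real.sin θ| := by field_simp
    rw [this]
    linarith
  calc (1 + |t + Real.sin θ / l|) ^ A * (1 + l * |t + Real.sin θ / l - t|) ^ A
      ≤ (2 * (1 + |t|)) ^ A * 2 ^ A := by
        apply mul_le_mul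
        · exact pow_le_pow_left₀ (by positivity) h2 A
        · exact pow_le_pow_left₀ (by positivity) h3 A
        · positivity
        · positivity
    _ = 4 ^ A * (1 + |t|) ^ A := by
        rw [mul_pow]
        have : (4 : ℝ) ^ A = 2 ^ A * 2 ^ A := by rw [← mul_pow]; norm_num
        rw [this]; ring

/-- MoJ4 (derivative of the remainder). `∑ |(L - DD)'(pt b t) MM(pt b t)|² ≤ C l² e^{-b} (1+|t|)^A N(r)`, `b ≥ 1`.
PROOF. `cauchy_sq` for `z ↦ (L(z) - DD(z)) m`, `m = MM(pt b t)`, `ρ = 1/l`: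
`pt b t + e^{iθ}/l = pt (b + cos θ) (t + sin θ/l)`. Sum over `χ`, exchange with the integral over `θ`; for every `θ`
`rem_moment` with `a = b + cos θ ≥ 0`, `t0 = t`: `≤ C e^{-5(b-1)/4 + b/4} (1+|t|+1)^A (1+1)^A N`
(`|sin θ|/l ≤ 1`), `≤ C' e^{-b} (1+|t|)^A N`. `L`, `DD` are entire (`χ ≠ 1`). -/
lemma rem_deriv : ∃ (A : ℕ) (C : ℝ) (r₀ : ℕ), 1 ≤ C ∧ 8 ≤ r₀ ∧ ∀ (r : ℕ) [NeZero r], r₀ ≤ r → ∀ b t : ℝ, 1 ≤ b →
    ∑ χ ∈ prim r, ‖(deriv χ.LFunction (pt r b t) - deriv (DD r χ) (pt r b t)) * MM r χ (pt r b t)‖ ^ 2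
      ≤ C * Real.log r ^ 2 * Real.exp (-b) * (1 + |t|) ^ A * NN r := by
  obtain ⟨A, C, r₀, hA, hC, hr₀, H⟩ := rem_moment
  refine ⟨A, C * Real.exp (5 / 4) * 4 ^ A, r₀, ?_, hr₀, ?_⟩
  · have h1 : (1 : ℝ) ≤ Real.exp (5 / 4) := by
      rw [← Real.exp_zero]; exact Real.exp_le_exp.mpr (by norm_num)
    have h2 : (1 : ℝ) ≤ 4 ^ A := one_le_pow₀ (by norm_num)
    have h3 : (1 : ℝ) ≤ C * Real.exp (5 / 4) := one_le_mul_of_one_le_of_one_le hC h1
    exact one_le_mul_of_one_le_of_one_le h3 h2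
  intro r _ hr b t hb
  have hr8 : (8 : ℝ) ≤ r := by exact_mod_cast hr₀.trans hr
  set l : ℝ := Real.log r with hl
  have hl1 : 1 ≤ l := by
    rw [hl, Real.le_log_iff_exp_le (by linarith)]
    have := Real.exp_one_lt_d9
    linarith
  have hl0 : 0 < l := by linarith
  have hN : 0 ≤ NN r := by unfold NN; positivity
  -- one character
  have key : ∀ χ ∈ prim r,
      ‖(deriv χ.LFunction (pt r b t) - deriv (DD r χ) (pt r b t)) * MM r χ (pt r b t)‖ ^ 2 ≤
        l ^ 2 / (2 * Real.pi) * ∫ θ in (0 : ℝ)..(2 * Real.pi),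
          ‖(χ.LFunction (pt r (b + Real.cos θ) (t + Real.sin θ / l)) -
            DD r χ (pt r (b + Real.cos θ) (t + Real.sin θ / l))) * MM r χ (pt r b t)‖ ^ 2 := by
    intro χ hχ
    have hne := (prim_ne_one r (by omega) χ hχ).2
    have hL : Differentiable ℂ χ.LFunction := DirichletCharacter.differentiable_LFunction hne
    have hD := MoJ4_diff r χ
    have hf : Differentiable ℂ (fun z => (χ.LFunction z - DD r χ z) * MM r χ (pt r b t)) :=
      (hL.sub hD).mul_const _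
    have hder : deriv (fun z => (χ.LFunction z - DD r χ z) * MM r χ (pt r b t)) (pt r b t) =
        (deriv χ.LFunction (pt r b t) - deriv (DD r χ) (pt r b t)) * MM r χ (pt r b t) := by
      exact (((hL _).hasDerivAt.sub (hD _).hasDerivAt).mul_const _).deriv
    have := cauchy_sq _ hf (pt r b t) (1 / l) (by positivity)
    rw [hder] at this
    refine this.trans (le_of_eq ?_)
    have e1 : 1 / (2 * Real.pi * (1 / l) ^ 2) = l ^ 2 / (2 * Real.pi) := by
      field_simp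
    rw [e1]
    congr 1
    apply intervalIntegral.integral_congr
    intro θ _
    simp only
    rw [MoJ4_pt r l b t θ hl hl0]
  -- the integrand is continuous
  have hcont : ∀ χ ∈ prim r, Continuous fun θ : ℝ =>
      ‖(χ.LFunction (pt r (b + Real.cos θ) (t + Real.sin θ / l)) -
        DD r χ (pt r (b + Real.cos θ) (t + Real.sin θ / l))) * MM r χ (pt r b t)‖ ^ 2 := by
    intro χ hχ
    have hne := (prim_ne_one r (by omega) χ hχ).2
    have hL : Continuous χ.LFunction := (DirichletCharacter.differentiable_LFunction hne).continuous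
    have hD : Continuous (DD r χ) := (MoJ4_diff r χ).continuous
    have hp : Continuous fun θ : ℝ => pt r (b + Real.cos θ) (t + Real.sin θ / l) := by
      unfold pt
      fun_prop
    exact (((hL.comp hp).sub (hD.comp hp)).mul continuous_const).norm.pow 2
  calc ∑ χ ∈ prim r, ‖(deriv χ.LFunction (pt r b t) - deriv (DD r χ) (pt r b t)) * MM r χ (pt r b t)‖ ^ 2
      ≤ ∑ χ ∈ prim r, l ^ 2 / (2 * Real.pi) * ∫ θ in (0 : ℝ)..(2 * Real.pi),
          ‖(χ.LFunction (pt r (b + Real.cos θ) (t + Real.sin θ / l)) -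
            DD r χ (pt r (b + Real.cos θ) (t + Real.sin θ / l))) * MM r χ (pt r b t)‖ ^ 2 :=
        Finset.sum_le_sum key
    _ = l ^ 2 / (2 * Real.pi) * ∫ θ in (0 : ℝ)..(2 * Real.pi), ∑ χ ∈ prim r,
          ‖(χ.LFunction (pt r (b + Real.cos θ) (t + Real.sin θ / l)) -
            DD r χ (pt r (b + Real.cos θ) (t + Real.sin θ / l))) * MM r χ (pt r b t)‖ ^ 2 := by
        rw [← Finset.mul_sum, intervalIntegral.integral_finsetSum]
        intro χ hχ
        exact (hcont χ hχ).intervalIntegrable _ _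
    _ ≤ l ^ 2 / (2 * Real.pi) * ∫ θ in (0 : ℝ)..(2 * Real.pi),
          (C * Real.exp (5 / 4) * 4 ^ A * Real.exp (-b) * (1 + |t|) ^ A * NN r) := by
        apply mul_le_mul_of_nonneg_left _ (by positivity)
        apply intervalIntegral.integral_mono_on (by positivity)
        · exact (continuous_finsetSum _ hcont).intervalIntegrable _ _
        · exact continuous_const.intervalIntegrable _ _
        intro θ _
        have hcos := Real.neg_one_le_cos θ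
        have h := H r hr (b + Real.cos θ) b (t + Real.sin θ / l) t (by linarith) (by linarith)
        refine h.trans ?_
        have hW := MoJ4_WW l hl0 A t θ hl1
        have hE : Real.exp (-(5 / 4 * (b + Real.cos θ)) + b / 4) ≤ Real.exp (5 / 4) * Real.exp (-b) := by
          rw [← Real.exp_add]
          apply Real.exp_le_exp.mpr
          linarith
        have hW0 : 0 ≤ WW l A t (t + Real.sin θ / l) := by unfold WW; positivity
        calc C * Real.exp (-(5 / 4 * (b + Real.cos θ)) + b / 4) * WW (Real.log r) A t (t + Real.sin θ / l) * NN r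
            ≤ C * (Real.exp (5 / 4) * Real.exp (-b)) * (4 ^ A * (1 + |t|) ^ A) * NN r := by
              apply mul_le_mul_of_nonneg_right _ hN
              apply mul_le_mul _ hW hW0 (by positivity)
              exact mul_le_mul_of_nonneg_left hE (by linarith)
          _ = C * Real.exp (5 / 4) * 4 ^ A * Real.exp (-b) * (1 + |t|) ^ A * NN r := by ring
    _ = C * Real.exp (5 / 4) * 4 ^ A * l ^ 2 * Real.exp (-b) * (1 + |t|) ^ A * NN r := by
        rw [intervalIntegral.integral_const, smul_eq_mul]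
        have hpi := Real.pi_pos
        field_simp
        ring

end Pool.Agent.SO
end

section

set_option autoImplicit false

/-! Uses the skeleton lemma `smooth_approx` (H9d). -/

namespace Pool.Agent.MC.C2

open Pool.Agent.MC Pool.Agent.MC.C1 MeasureTheory Real Complex

lemma H10_hasDerivAt (r : ℕ) [NeZero r] (χ : DirichletCharacter ℂ r) (hχ : χ ≠ 1) (U : ℝ) (N : ℕ)
    (s : ℂ) :
    HasDerivAt (fun z : ℂ => χ.LFunction z -
        ∑ n ∈ Finset.Icc 1 N, χ n * ((vv (n / U) : ℝ) : ℂ) * (n : ℂ) ^ (-z))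
      (deriv χ.LFunction s + ∑ n ∈ Finset.Icc 1 N,
        χ n * ((vv (n / U) * Real.log n : ℝ) : ℂ) * (n : ℂ) ^ (-s)) s := by
  have h1 : HasDerivAt χ.LFunction (deriv χ.LFunction s) s :=
    ((DirichletCharacter.differentiable_LFunction hχ) s).hasDerivAt
  have h2 : ∀ n ∈ Finset.Icc 1 N, HasDerivAt
      (fun z : ℂ => χ n * ((vv (n / U) : ℝ) : ℂ) * (n : ℂ) ^ (-z))
      (-(χ n * ((vv (n / U) * Real.log n : ℝ) : ℂ) * (n : ℂ) ^ (-s))) s := by
    intro n hn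
    have hn0 : (n : ℂ) ≠ 0 := by
      have := (Finset.mem_Icc.1 hn).1
      exact Nat.cast_ne_zero.2 (by omega)
    have h3 : HasDerivAt (fun z : ℂ => (n : ℂ) ^ (-z)) ((n : ℂ) ^ (-s) * Complex.log n * (-1)) s :=
      HasDerivAt.const_cpow (hasDerivAt_neg s) (Or.inl hn0)
    have h4 := h3.const_mul (χ n * ((vv (n / U) : ℝ) : ℂ))
    have h5 : χ n * ((vv (n / U) : ℝ) : ℂ) * ((n : ℂ) ^ (-s) * Complex.log n * (-1)) =
        -(χ n * ((vv (n / U) * Real.log n : ℝ) : ℂ) * (n : ℂ) ^ (-s)) := by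
      rw [← Complex.natCast_log]
      push_cast
      ring
    rw [h5] at h4
    exact h4
  have h6 := h1.sub (HasDerivAt.fun_sum h2)
  have h7 : deriv χ.LFunction s - ∑ n ∈ Finset.Icc 1 N,
      (-(χ n * ((vv (n / U) * Real.log n : ℝ) : ℂ) * (n : ℂ) ^ (-s))) =
      deriv χ.LFunction s + ∑ n ∈ Finset.Icc 1 N,
        χ n * ((vv (n / U) * Real.log n : ℝ) : ℂ) * (n : ℂ) ^ (-s) := by
    rw [Finset.sum_neg_distrib, sub_neg_eq_add]
  rw [h7] at h6
  exact h6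

/-- H10. The smooth approximation of the derivative (uses H9d and the Cauchy estimate). -/
lemma smooth_approx_deriv (k : ℕ) : ∃ C : ℝ, 0 ≤ C ∧ ∀ r : ℕ, ∀ [NeZero r],
    ∀ χ : DirichletCharacter ℂ r, χ ≠ 1 → ∀ s : ℂ, 1 / 4 ≤ s.re → s.re ≤ 3 / 2 →
    ∀ U : ℝ, 1 ≤ U → ∀ N : ℕ, 2 * U ≤ N →
    ‖deriv χ.LFunction s + ∑ n ∈ Finset.Icc 1 N,
        χ n * ((vv (n / U) * Real.log n : ℝ) : ℂ) * (n : ℂ) ^ (-s)‖
      ≤ C * ((r : ℝ) * (‖s‖ + 1)) ^ (k + 1) * U ^ (-(k : ℝ)) := by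
  obtain ⟨C, hC, h⟩ := smooth_approx k
  refine ⟨8 * 2 ^ (k + 1) * C, by positivity, ?_⟩
  intro r _ χ hχ s hs1 hs2 U hU N hN
  have hd := H10_hasDerivAt r χ hχ U N
  have hdiff : Differentiable ℂ (fun z : ℂ => χ.LFunction z -
        ∑ n ∈ Finset.Icc 1 N, χ n * ((vv (n / U) : ℝ) : ℂ) * (n : ℂ) ^ (-z)) :=
    fun z => (hd z).differentiableAt
  rw [← (hd s).deriv]
  have hr : (0 : ℝ) ≤ r := Nat.cast_nonneg r
  have hU0 : (0 : ℝ) ≤ U ^ (-(k : ℝ)) := by positivity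
  have hns : 0 ≤ ‖s‖ := norm_nonneg s
  have key := Complex.norm_deriv_le_of_forall_mem_sphere_norm_le (c := s) (R := 1 / 8)
    (C := C * ((r : ℝ) * (2 * (‖s‖ + 1))) ^ (k + 1) * U ^ (-(k : ℝ)))
    (f := fun z : ℂ => χ.LFunction z -
        ∑ n ∈ Finset.Icc 1 N, χ n * ((vv (n / U) : ℝ) : ℂ) * (n : ℂ) ^ (-z))
    (by norm_num) hdiff.diffContOnCl (by
      intro z hz
      rw [mem_sphere_iff_norm] at hz
      have h1 : |(z - s).re| ≤ 1 / 8 := (Complex.abs_re_le_norm _).trans_eq hz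
      rw [Complex.sub_re, abs_le] at h1
      have h2 : ‖z‖ ≤ ‖s‖ + 1 / 8 := by
        have h3 : z = s + (z - s) := by ring
        calc ‖z‖ = ‖s + (z - s)‖ := by rw [← h3]
          _ ≤ ‖s‖ + ‖z - s‖ := norm_add_le _ _
          _ = ‖s‖ + 1 / 8 := by rw [hz]
      refine (h r χ hχ z (by linarith [h1.1]) (by linarith [h1.2]) U hU N hN).trans ?_
      have h4 : (r : ℝ) * (‖z‖ + 1) ≤ (r : ℝ) * (2 * (‖s‖ + 1)) :=
        mul_le_mul_of_nonneg_left (by linarith) hr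
      have h5 : ((r : ℝ) * (‖z‖ + 1)) ^ (k + 1) ≤ ((r : ℝ) * (2 * (‖s‖ + 1))) ^ (k + 1) :=
        pow_le_pow_left₀ (by positivity) h4 _
      exact mul_le_mul_of_nonneg_right (mul_le_mul_of_nonneg_left h5 hC) hU0)
  refine key.trans (le_of_eq ?_)
  have h6 : (r : ℝ) * (2 * (‖s‖ + 1)) = 2 * ((r : ℝ) * (‖s‖ + 1)) := by ring
  rw [h6, mul_pow]
  ring

end Pool.Agent.MC.C2
end

section

set_option autoImplicit false

namespace Pool.Agent.SO

open Complex MeasureTheory Pool.Agent.MC.C2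

/-- S4. `G_U` is `Gt` up to a tiny error (uses S3 and the library lemmas `C2.smooth_approx`,
`C2.smooth_approx_deriv`).

PROOF. Let `k = ⌈B⌉₊ + 3`, `J = k + 1`, `Y = r^(U+4)`. By `Gt_eq` (note `r^(U+5) ≥ 2 r^(U+4)`)
`GG - Gt = -[L'(s) + ∑_k χ(k) vv(k/Y) log k k^(-s)]
   - ∑_d c_d χ(d) d^(-s) [L(s) - ∑_m χ(m) vv(m/(Y/d)) m^(-s)]`,
`c_d = Λ(d)(1 - th r U d)`, `0 ≤ c_d ≤ Λ(d) ≤ log d ≤ d`, and `c_d = 0` if `d ≥ r^(U+1)`
(`Real.smoothTransition.one_of_one_le`). First bracket: `smooth_approx_deriv k` with its `U := Y ≥ 1`,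
`N ≥ 2 Y`: at most `C (r(‖s‖+1))^(k+1) Y^(-k) ≤ C (‖s‖+1)^J r^(k+1-4k)` (`Y ≥ r^4`). Second, for
`d < r^(U+1)`: `smooth_approx k` with `U := Y/d ≥ r^3 ≥ 1`, `N ≥ 2 Y/d`: at most
`C (r(‖s‖+1))^(k+1) (Y/d)^(-k) ≤ C (‖s‖+1)^J r^(k+1-3k)`; `‖χ(d) d^(-s)‖ ≤ 1`; the sum over
`d < r^(U+1)` of `c_d` is at most `(r^(U+1))^2`. Total second: `C (‖s‖+1)^J r^(2U+2+1-2k)` and
`2U + 3 - 2k ≤ 2B + 3 - 2(B+3) = -3 ≤ -1`. First: `1 - 3k ≤ -1`. -/
theorem GG_approx (B : ℝ) (hB : 0 ≤ B) : ∃ (J : ℕ) (C : ℝ), 0 ≤ C ∧ ∀ (r : ℕ) [NeZero r], 2 ≤ r →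
    ∀ χ : DirichletCharacter ℂ r, χ ≠ 1 → ∀ U : ℝ, 0 ≤ U → U ≤ B → ∀ N : ℕ,
    (r : ℝ) ^ (U + 5) ≤ N → ∀ s : ℂ, 1 / 4 ≤ s.re → s.re ≤ 1 →
    ‖GG r χ N U s - Gt r χ N U s‖ ≤ C * (‖s‖ + 1) ^ J / r := by
  obtain ⟨C₁, hC₁, h₁⟩ := smooth_approx_deriv (⌈B⌉₊ + 3)
  obtain ⟨C₂, hC₂, h₂⟩ := smooth_approx (⌈B⌉₊ + 3)
  set k : ℕ := ⌈B⌉₊ + 3 with hk
  have hkB : B + 3 ≤ (k : ℝ) := by
    rw [hk]; push_cast
    linarith [Nat.le_ceil B]
  refine ⟨k + 1, C₁ + C₂, by positivity, ?_⟩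
  intro r _ hr χ hχ U hU0 hUB N hN s hs1 hs2
  have hx2 : (2 : ℝ) ≤ r := by exact_mod_cast hr
  have hx0 : (0 : ℝ) < r := by linarith
  have hx1 : (1 : ℝ) ≤ r := by linarith
  have hlr : 0 < Real.log r := Real.log_pos (by linarith)
  set x : ℝ := (r : ℝ) with hx
  set Y : ℝ := x ^ (U + 4) with hY
  have hk0 : (0 : ℝ) ≤ k := Nat.cast_nonneg k
  have hY1 : 1 ≤ Y := Real.one_le_rpow hx1 (by linarith)
  have hY0 : 0 < Y := by linarith
  have hN2 : 2 * Y ≤ N := by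
    refine le_trans ?_ hN
    have e1 : x ^ (U + 5) = x * x ^ (U + 4) := by
      rw [show U + 5 = 1 + (U + 4) by ring, Real.rpow_add hx0, Real.rpow_one]
    rw [e1]
    exact mul_le_mul_of_nonneg_right hx2 hY0.le
  have hns : 0 ≤ ‖s‖ := norm_nonneg s
  set σ : ℝ := (‖s‖ + 1) ^ (k + 1) with hσ
  have hσ0 : 0 ≤ σ := by positivity
  have hpow : (x * (‖s‖ + 1)) ^ (k + 1) = x ^ ((k : ℝ) + 1) * σ := by
    rw [mul_pow, ← Real.rpow_natCast x (k + 1)]
    push_cast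
    rfl
  -- first bracket
  set E1 : ℂ := deriv χ.LFunction s + ∑ n ∈ Finset.Icc 1 N,
        χ n * ((vv (n / Y) * Real.log n : ℝ) : ℂ) * (n : ℂ) ^ (-s) with hE1
  have b1 : ‖E1‖ ≤ C₁ * σ * x ^ (-1 : ℝ) := by
    have e1 := h₁ r χ hχ s hs1 (by linarith) Y hY1 N hN2
    rw [hpow] at e1
    refine e1.trans ?_
    have e2 : x ^ ((k : ℝ) + 1) * Y ^ (-(k : ℝ)) ≤ x ^ (-1 : ℝ) := by
      rw [hY, ← Real.rpow_mul hx0.le, ← Real.rpow_add hx0]
      apply Real.rpow_le_rpow_of_exponent_le hx1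
      nlinarith [mul_nonneg hU0 hk0]
    calc C₁ * (x ^ ((k : ℝ) + 1) * σ) * Y ^ (-(k : ℝ)) = C₁ * σ * (x ^ ((k : ℝ) + 1) * Y ^ (-(k : ℝ))) := by ring
      _ ≤ C₁ * σ * x ^ (-1 : ℝ) := by gcongr
  -- the terms of the second sum
  have hth : ∀ d : ℕ, 0 ≤ th r U d ∧ th r U d ≤ 1 := fun d =>
    ⟨Real.smoothTransition.nonneg _, Real.smoothTransition.le_one _⟩
  set bd : ℝ := x ^ (U + 1) * (C₂ * σ * x ^ (1 - 2 * (k : ℝ))) with hbd
  have hbd0 : 0 ≤ bd := by positivity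
  have hterm : ∀ d ∈ Finset.Icc 1 N,
      ‖((ArithmeticFunction.vonMangoldt d * (1 - th r U d) : ℝ) : ℂ) * χ d * (d : ℂ) ^ (-s) *
        (χ.LFunction s - ∑ m ∈ Finset.Icc 1 N, χ m * ((vv (m / (Y / d)) : ℝ) : ℂ) * (m : ℂ) ^ (-s))‖ ≤
        if (d : ℝ) ≤ x ^ (U + 1) then bd else 0 := by
    intro d hd
    obtain ⟨hd1, hdN⟩ := Finset.mem_Icc.mp hd
    have hd0 : (0 : ℝ) < d := by exact_mod_cast hd1
    split_ifs with hdx
    · have hYd : x ^ (3 : ℝ) ≤ Y / d := by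
        rw [le_div_iff₀ hd0]
        calc x ^ (3 : ℝ) * d ≤ x ^ (3 : ℝ) * x ^ (U + 1) := by gcongr
          _ = Y := by rw [← Real.rpow_add hx0, hY]; congr 1; ring
      have hYd1 : 1 ≤ Y / d := (Real.one_le_rpow hx1 (by norm_num)).trans hYd
      have hYdN : 2 * (Y / d) ≤ N := by
        refine le_trans ?_ hN2
        have : Y / d ≤ Y := div_le_self hY0.le (by exact_mod_cast hd1)
        linarith
      have e1 := h₂ r χ hχ s (by linarith) (by linarith) (Y / d) hYd1 N hYdN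
      rw [hpow] at e1
      have e2 : (Y / d) ^ (-(k : ℝ)) ≤ x ^ (-(3 * (k : ℝ))) := by
        calc (Y / d) ^ (-(k : ℝ)) ≤ (x ^ (3 : ℝ)) ^ (-(k : ℝ)) :=
              Real.rpow_le_rpow_of_nonpos (by positivity) hYd (by linarith)
          _ = x ^ (-(3 * (k : ℝ))) := by rw [← Real.rpow_mul hx0.le]; congr 1; ring
      have e3 : ‖χ.LFunction s - ∑ m ∈ Finset.Icc 1 N, χ m * ((vv (m / (Y / d)) : ℝ) : ℂ) * (m : ℂ) ^ (-s)‖ ≤
          C₂ * σ * x ^ (1 - 2 * (k : ℝ)) := by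
        refine e1.trans ?_
        calc C₂ * (x ^ ((k : ℝ) + 1) * σ) * (Y / d) ^ (-(k : ℝ)) ≤ C₂ * (x ^ ((k : ℝ) + 1) * σ) * x ^ (-(3 * (k : ℝ))) := by gcongr
          _ = C₂ * σ * (x ^ ((k : ℝ) + 1) * x ^ (-(3 * (k : ℝ)))) := by ring
          _ = C₂ * σ * x ^ (1 - 2 * (k : ℝ)) := by
              rw [← Real.rpow_add hx0]; congr 2; ring
      have e4 : ‖((ArithmeticFunction.vonMangoldt d * (1 - th r U d) : ℝ) : ℂ) * χ d * (d : ℂ) ^ (-s)‖ ≤ x ^ (U + 1) := by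
        rw [norm_mul, norm_mul, Complex.norm_real, Real.norm_of_nonneg
          (mul_nonneg ArithmeticFunction.vonMangoldt_nonneg (by linarith [(hth d).2]))]
        have f1 : ‖χ d‖ ≤ 1 := χ.norm_le_one _
        have f2 : ‖(d : ℂ) ^ (-s)‖ ≤ 1 := by
          rw [Complex.norm_natCast_cpow_of_pos hd1]
          apply Real.rpow_le_one_of_one_le_of_nonpos (by exact_mod_cast hd1)
          rw [Complex.neg_re]; linarith
        have f3 : ArithmeticFunction.vonMangoldt d ≤ d := by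
          refine ArithmeticFunction.vonMangoldt_le_log.trans ?_
          have := Real.log_le_sub_one_of_pos hd0
          linarith
        have f4 : ArithmeticFunction.vonMangoldt d * (1 - th r U d) ≤ d := by
          have g1 : (0 : ℝ) ≤ ArithmeticFunction.vonMangoldt d := ArithmeticFunction.vonMangoldt_nonneg
          nlinarith [(hth d).1, (hth d).2]
        calc ArithmeticFunction.vonMangoldt d * (1 - th r U d) * ‖χ d‖ * ‖(d : ℂ) ^ (-s)‖ ≤ (d : ℝ) * 1 * 1 := by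
              gcongr
          _ ≤ x ^ (U + 1) := by linarith
      rw [norm_mul, hbd]
      exact mul_le_mul e4 e3 (norm_nonneg _) (by positivity)
    · push Not at hdx
      have : th r U d = 1 := by
        unfold th
        apply Real.smoothTransition.one_of_one_le
        have e1 : (U + 1) * Real.log r < Real.log d := by
          rw [← Real.log_rpow hx0]
          exact Real.log_lt_log (by positivity) hdx
        have e2 : U + 1 < Real.log d / Real.log r := by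
          rw [lt_div_iff₀ hlr]; exact e1
        linarith
      rw [this]
      simp
  have hsum2 : ∑ d ∈ Finset.Icc 1 N, (if (d : ℝ) ≤ x ^ (U + 1) then bd else 0) ≤ x ^ (U + 1) * bd := by
    rw [← Finset.sum_filter, Finset.sum_const, nsmul_eq_mul]
    refine mul_le_mul_of_nonneg_right ?_ hbd0
    have hsub : (Finset.Icc 1 N).filter (fun d : ℕ => (d : ℝ) ≤ x ^ (U + 1)) ⊆ Finset.Icc 1 ⌊x ^ (U + 1)⌋₊ := by
      intro d hd
      rw [Finset.mem_filter, Finset.mem_Icc] at hd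
      rw [Finset.mem_Icc]
      exact ⟨hd.1.1, Nat.le_floor hd.2⟩
    have h3 := Finset.card_le_card hsub
    rw [Nat.card_Icc, Nat.add_sub_cancel] at h3
    calc (((Finset.Icc 1 N).filter (fun d : ℕ => (d : ℝ) ≤ x ^ (U + 1))).card : ℝ) ≤ (⌊x ^ (U + 1)⌋₊ : ℝ) := by exact_mod_cast h3
      _ ≤ x ^ (U + 1) := Nat.floor_le (by positivity)
  have hfin : x ^ (U + 1) * bd ≤ C₂ * σ * x ^ (-1 : ℝ) := by
    have e1 : x ^ (U + 1) * bd = C₂ * σ * (x ^ (U + 1) * x ^ (U + 1) * x ^ (1 - 2 * (k : ℝ))) := by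
      rw [hbd]; ring
    rw [e1, ← Real.rpow_add hx0, ← Real.rpow_add hx0]
    have e2 : x ^ (U + 1 + (U + 1) + (1 - 2 * (k : ℝ))) ≤ x ^ (-1 : ℝ) := by
      apply Real.rpow_le_rpow_of_exponent_le hx1
      linarith
    gcongr
  have hdec : GG r χ N U s - Gt r χ N U s = -E1 - ∑ d ∈ Finset.Icc 1 N,
      ((ArithmeticFunction.vonMangoldt d * (1 - th r U d) : ℝ) : ℂ) * χ d * (d : ℂ) ^ (-s) *
        (χ.LFunction s - ∑ m ∈ Finset.Icc 1 N, χ m * ((vv (m / (Y / d)) : ℝ) : ℂ) * (m : ℂ) ^ (-s)) := by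
    rw [Gt_eq r hr χ N U hN2 s, hE1]
    unfold GG PP
    simp only [mul_sub, Finset.sum_sub_distrib]
    rw [← Finset.sum_mul]
    ring
  rw [hdec]
  calc ‖-E1 - ∑ d ∈ Finset.Icc 1 N,
      ((ArithmeticFunction.vonMangoldt d * (1 - th r U d) : ℝ) : ℂ) * χ d * (d : ℂ) ^ (-s) *
        (χ.LFunction s - ∑ m ∈ Finset.Icc 1 N, χ m * ((vv (m / (Y / d)) : ℝ) : ℂ) * (m : ℂ) ^ (-s))‖
      ≤ ‖E1‖ + x ^ (U + 1) * bd := by
        refine (norm_sub_le _ _).trans ?_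
        rw [norm_neg]
        exact add_le_add le_rfl ((norm_sum_le _ _).trans ((Finset.sum_le_sum hterm).trans hsum2))
    _ ≤ C₁ * σ * x ^ (-1 : ℝ) + C₂ * σ * x ^ (-1 : ℝ) := add_le_add b1 hfin
    _ = (C₁ + C₂) * σ / x := by
        rw [Real.rpow_neg_one]; ring

end Pool.Agent.SO
end
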