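import Mathlib
import Pool.Agent.Lib.MP_9cfc0a_nt.Mg.G076
import Pool.Agent.Lib.MP_9cfc0a_nt.TS.Defs
import Pool.Agent.Lib.MP_9cfc0a_nt.C2Base

section

/-!
# Uf: Plancherel
-/

set_option autoImplicit false

namespace Pool.Agent.TS

open Complex Metric Set MeasureTheory
open Pool.Agent.EM

lemma Uf_meas {q : ℕ} (χ : DirichletCharacter ℂ q) (B x : ℝ) : Measurable (Gw χ B x) := by
  unfold Gw
  refine (gC_measurable χ).mul (Complex.measurable_ofReal.comp (Real.measurable_exp.comp ?_))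
  have h1 : Measurable fun y : ℝ => Real.log y - Real.log x := Real.measurable_log.sub_const _
  exact (h1.pow_const 2).neg.div_const _

lemma Uf_norm {q : ℕ} (χ : DirichletCharacter ℂ q) (B x y : ℝ) :
    ‖Gw χ B x y‖ = ‖gC χ y‖ * Real.exp (-(Real.log y - Real.log x) ^ 2 / (2 * B ^ 2)) := by
  unfold Gw
  rw [norm_mul, Complex.norm_real, Real.norm_of_nonneg (Real.exp_pos _).le]

lemma Uf_bound {q : ℕ} [NeZero q] (χ : DirichletCharacter ℂ q) (B x : ℝ) (hB : 1 ≤ B)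
    (hx : 1 ≤ x) (v : ℝ) (hv : 1 < v) :
    ‖Gw χ B x v‖ ≤ 7 * x * Real.exp (B ^ 2 / 2) := by
  have hx0 : 0 < x := by linarith
  have hv0 : 0 < v := by linarith
  have hB0 : 0 < B := by linarith
  have h1 := gC_le q χ v hv0.le
  set w : ℝ := Real.log v - Real.log x with hw
  have hvx : v = x * Real.exp w := by
    rw [hw, Real.exp_sub, Real.exp_log hv0, Real.exp_log hx0]
    field_simp
  have h2 : w + -w ^ 2 / (2 * B ^ 2) ≤ B ^ 2 / 2 := by
    have h3 : B ^ 2 / 2 - (w + -w ^ 2 / (2 * B ^ 2)) = (w - B ^ 2) ^ 2 / (2 * B ^ 2) := by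
      field_simp
      ring
    have h4 : 0 ≤ (w - B ^ 2) ^ 2 / (2 * B ^ 2) := by positivity
    linarith
  rw [Uf_norm]
  calc ‖gC χ v‖ * Real.exp (-w ^ 2 / (2 * B ^ 2)) ≤ 7 * v * Real.exp (-w ^ 2 / (2 * B ^ 2)) :=
        mul_le_mul_of_nonneg_right h1 (Real.exp_pos _).le
    _ = 7 * x * Real.exp (w + -w ^ 2 / (2 * B ^ 2)) := by
        rw [Real.exp_add]
        nth_rewrite 1 [hvx]
        ring
    _ ≤ 7 * x * Real.exp (B ^ 2 / 2) :=
        mul_le_mul_of_nonneg_left (Real.exp_le_exp.mpr h2) (by positivity)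

/-- Uf. PROOF. Let `f = (Ioi 1).indicator (Gw χ B x)` and `g u = f (exp u) * exp (-(u/2))`. For every
real `t`, `∫ g u exp(-(t u I)) du = MT f (1/2 + t I) = Ft χ B x t`: `MC.C2.H3_mellin` (file C2H3.lean) for
`s = 1/2 + t i` with `a = 0`, and a bound `‖f v‖ ≤ C · v^0`: `‖Gw χ B x v‖ ≤ 7 v exp(-(log v - log x)²/(2B²))`
is bounded (put `w = log v - log x`: `v exp(-w²/(2B²)) = x exp(w - w²/(2B²)) ≤ x exp(B²/2)`).
`g` is integrable (H3_mellin, `t = 0`) and `‖g u‖² = ‖f (exp u)‖² exp(-u)` is integrable (bounded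
times `exp(-u)` on `u > 0`, zero for `u ≤ 0`). `MC.C2.plancherel_real` gives
`∫ ‖Ft t‖² dt = 2π ∫ ‖g u‖² du`, and with `u = log y` (as in H3_mellin)
`∫ ‖g u‖² du = ∫_{y > 1} ‖Gw χ B x y‖² y^(-2) dy ≥ ∫_{Ioc x (2x)} ‖gC χ y‖² exp(-(log y - log x)²/B²) y^(-2) dy`
`≥ exp(-1) ∫_{Ioc x (2x)} ‖gC χ y‖² y^(-2) dy` since `0 ≤ log y - log x ≤ log 2 ≤ 1 ≤ B`; and
`2π exp(-1) ≥ 1` (`π > 3`, `exp 1 < 3`). -/
lemma plancherel_upper {q : ℕ} [NeZero q] (χ : DirichletCharacter ℂ q) (B x : ℝ) (hB : 1 ≤ B)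
    (hx : 1 ≤ x) : Integrable (fun t : ℝ => ‖Ft χ B x t‖ ^ 2) ∧
    ∫ y in Ioc x (2 * x), ‖gC χ y‖ ^ 2 * y ^ (-2 : ℝ) ≤ ∫ t : ℝ, ‖Ft χ B x t‖ ^ 2 := by
  have hx0 : 0 < x := by linarith
  have hB0 : 0 < B := by linarith
  set f : ℝ → ℂ := (Ioi (1 : ℝ)).indicator (Gw χ B x) with hf
  set C : ℝ := 7 * x * Real.exp (B ^ 2 / 2) with hC
  have hC0 : 0 ≤ C := by rw [hC]; positivity
  have hfm : Measurable f := (Uf_meas χ B x).indicator measurableSet_Ioi
  have hf1 : ∀ v : ℝ, 1 < v → f v = Gw χ B x v := fun v hv => indicator_of_mem hv _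
  have hf0 : ∀ v : ℝ, v ≤ 1 → f v = 0 := fun v hv => indicator_of_notMem (not_lt.mpr hv) _
  have hfb : ∀ v : ℝ, 1 < v → ‖f v‖ ≤ C * v ^ (0 : ℝ) := by
    intro v hv
    rw [hf1 v hv, Real.rpow_zero, mul_one]
    exact Uf_bound χ B x hB hx v hv
  have hfb' : ∀ v : ℝ, ‖f v‖ ≤ C := by
    intro v
    rcases le_or_gt v 1 with h | h
    · rw [hf0 v h, norm_zero]
      exact hC0
    · have h1 := hfb v h
      rwa [Real.rpow_zero, mul_one] at h1
  set g : ℝ → ℂ := fun u => f (Real.exp u) * Complex.exp (-((1 / 2 : ℂ) * u)) with hg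
  have hgk : ∀ t u : ℝ, g u * Complex.exp (-((t : ℂ) * u * I)) =
      f (Real.exp u) * Complex.exp (-(((1 / 2 : ℂ) + t * I) * u)) := by
    intro t u
    simp only [hg]
    rw [mul_assoc, ← Complex.exp_add]
    congr 2
    ring
  have hmel : ∀ t : ℝ, Integrable (fun u : ℝ => f (Real.exp u) *
        Complex.exp (-(((1 / 2 : ℂ) + t * I) * u))) ∧
      ∫ u : ℝ, f (Real.exp u) * Complex.exp (-(((1 / 2 : ℂ) + t * I) * u)) =
        MC.MT f ((1 / 2 : ℂ) + t * I) := fun t =>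
    MC.C2.H3_mellin f hfm C 0 hfb hf0 _ (by simp)
  have hMT : ∀ t : ℝ, MC.MT f ((1 / 2 : ℂ) + t * I) = Ft χ B x t := by
    intro t
    unfold Ft MC.MT
    refine setIntegral_congr_fun measurableSet_Ioi ?_
    intro v hv
    show f v * _ = _
    rw [hf1 v hv]
  have hhat : ∀ t : ℝ, ∫ u : ℝ, g u * Complex.exp (-((t : ℂ) * u * I)) = Ft χ B x t := by
    intro t
    rw [← hMT t, ← (hmel t).2]
    exact integral_congr_ae (Filter.Eventually.of_forall (hgk t))
  have hgint : Integrable g := by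
    have h1 := (hmel 0).1
    have h2 : (fun u : ℝ => f (Real.exp u) * Complex.exp (-(((1 / 2 : ℂ) + (0 : ℝ) * I) * u)))
        = g := by
      funext u
      rw [← hgk 0 u]
      simp
    rw [h2] at h1
    exact h1
  have hgn : ∀ u : ℝ, ‖g u‖ = ‖f (Real.exp u)‖ * Real.exp (-(u / 2)) := by
    intro u
    simp only [hg]
    rw [norm_mul, Complex.norm_exp]
    congr 2
    rw [Complex.neg_re, Complex.re_mul_ofReal]
    norm_num
    ring
  have hgb : ∀ u : ℝ, ‖g u‖ ≤ C := by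
    intro u
    rw [hgn]
    rcases le_or_gt u 0 with h | h
    · rw [hf0 _ (Real.exp_le_one_iff.mpr h), norm_zero, zero_mul]
      exact hC0
    · calc ‖f (Real.exp u)‖ * Real.exp (-(u / 2)) ≤ C * 1 := by
            refine mul_le_mul (hfb' _) (Real.exp_le_one_iff.mpr (by linarith))
              (Real.exp_pos _).le hC0
        _ = C := mul_one C
  have hgsq : Integrable (fun u => ‖g u‖ ^ 2) := by
    refine (hgint.norm.const_mul C).mono' (hgint.aestronglyMeasurable.norm.pow 2)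
      (Filter.Eventually.of_forall fun u => ?_)
    rw [Real.norm_of_nonneg (by positivity), sq]
    exact mul_le_mul_of_nonneg_right (hgb u) (norm_nonneg _)
  obtain ⟨hP1, hP2⟩ := MC.C2.plancherel_real g hgint hgsq
  simp only [hhat] at hP1 hP2
  refine ⟨hP1, ?_⟩
  rw [hP2]
  have himg : Real.exp '' Ioc (Real.log x) (Real.log (2 * x)) = Ioc x (2 * x) := by
    ext y
    simp only [mem_image, mem_Ioc]
    constructor
    · rintro ⟨u, ⟨hu1, hu2⟩, rfl⟩
      constructor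
      · exact (Real.log_lt_iff_lt_exp hx0).mp hu1
      · exact (Real.le_log_iff_exp_le (by positivity)).mp hu2
    · rintro ⟨hy1, hy2⟩
      have hy0 : 0 < y := by linarith
      exact ⟨Real.log y, ⟨Real.log_lt_log hx0 hy1, Real.log_le_log hy0 hy2⟩, Real.exp_log hy0⟩
  have hderiv : ∀ u ∈ Ioc (Real.log x) (Real.log (2 * x)),
      HasDerivWithinAt Real.exp (Real.exp u) (Ioc (Real.log x) (Real.log (2 * x))) u :=
    fun u _ => (Real.hasDerivAt_exp u).hasDerivWithinAt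
  have hsub := integral_image_eq_integral_abs_deriv_smul measurableSet_Ioc hderiv
    Real.exp_injective.injOn (fun y : ℝ => ‖gC χ y‖ ^ 2 * y ^ (-2 : ℝ))
  rw [himg] at hsub
  rw [hsub]
  have hpt : ∀ u ∈ Ioc (Real.log x) (Real.log (2 * x)),
      |Real.exp u| • (‖gC χ (Real.exp u)‖ ^ 2 * Real.exp u ^ (-2 : ℝ)) ≤
        Real.exp 1 * ‖g u‖ ^ 2 := by
    intro u hu
    have hu0 : 0 < u := lt_of_le_of_lt (Real.log_nonneg hx) hu.1
    have hlog2 : Real.log (2 * x) = Real.log 2 + Real.log x :=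
      Real.log_mul (by norm_num) hx0.ne'
    have hl2 : Real.log 2 ≤ 1 := by
      have := Real.log_two_lt_d9
      linarith
    have hd1 : 0 ≤ u - Real.log x := by linarith [hu.1]
    have hd2 : u - Real.log x ≤ 1 := by
      have := hu.2
      rw [hlog2] at this
      linarith
    rw [hgn, hf1 _ (Real.one_lt_exp_iff.mpr hu0), Uf_norm, Real.log_exp, mul_pow, mul_pow,
      abs_of_pos (Real.exp_pos u), smul_eq_mul, ← Real.exp_mul, ← Real.exp_nat_mul,
      ← Real.exp_nat_mul]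
    have h1 : Real.exp u * (‖gC χ (Real.exp u)‖ ^ 2 * Real.exp (u * -2)) =
        ‖gC χ (Real.exp u)‖ ^ 2 * Real.exp (-u) := by
      have h2 : Real.exp (-u) = Real.exp u * Real.exp (u * -2) := by
        rw [← Real.exp_add]
        congr 1
        ring
      rw [h2]
      ring
    have h3 : Real.exp (-u) ≤ Real.exp 1 * (Real.exp (((2 : ℕ) : ℝ) *
        (-(u - Real.log x) ^ 2 / (2 * B ^ 2))) * Real.exp (((2 : ℕ) : ℝ) * -(u / 2))) := by
      rw [← Real.exp_add, ← Real.exp_add]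
      refine Real.exp_le_exp.mpr ?_
      push_cast
      have h4 : (u - Real.log x) ^ 2 / B ^ 2 ≤ 1 := by
        rw [div_le_one (by positivity)]
        nlinarith
      have h5 : 2 * (-(u - Real.log x) ^ 2 / (2 * B ^ 2)) = -((u - Real.log x) ^ 2 / B ^ 2) := by
        field_simp
      rw [h5]
      linarith
    rw [h1]
    calc ‖gC χ (Real.exp u)‖ ^ 2 * Real.exp (-u) ≤ ‖gC χ (Real.exp u)‖ ^ 2 *
          (Real.exp 1 * (Real.exp (((2 : ℕ) : ℝ) *
        (-(u - Real.log x) ^ 2 / (2 * B ^ 2))) * Real.exp (((2 : ℕ) : ℝ) * -(u / 2)))) :=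
          mul_le_mul_of_nonneg_left h3 (by positivity)
      _ = _ := by ring
  have hI1 : ∫ u in Ioc (Real.log x) (Real.log (2 * x)),
      |Real.exp u| • (‖gC χ (Real.exp u)‖ ^ 2 * Real.exp u ^ (-2 : ℝ)) ≤
      ∫ u in Ioc (Real.log x) (Real.log (2 * x)), Real.exp 1 * ‖g u‖ ^ 2 := by
    refine integral_mono_of_nonneg (Filter.Eventually.of_forall fun u => ?_)
      (hgsq.const_mul _).restrict ?_
    · have h1 : 0 ≤ Real.exp u ^ (-2 : ℝ) := Real.rpow_nonneg (Real.exp_pos u).le _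
      show 0 ≤ |Real.exp u| • (‖gC χ (Real.exp u)‖ ^ 2 * Real.exp u ^ (-2 : ℝ))
      rw [smul_eq_mul]
      positivity
    · filter_upwards [ae_restrict_mem measurableSet_Ioc] with u hu
      exact hpt u hu
  have hI2 : ∫ u in Ioc (Real.log x) (Real.log (2 * x)), Real.exp 1 * ‖g u‖ ^ 2 ≤
      Real.exp 1 * ∫ u, ‖g u‖ ^ 2 := by
    rw [integral_const_mul]
    refine mul_le_mul_of_nonneg_left ?_ (Real.exp_pos 1).le
    exact setIntegral_le_integral hgsq (Filter.Eventually.of_forall fun u => by positivity)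
  refine (hI1.trans hI2).trans ?_
  refine mul_le_mul_of_nonneg_right ?_ (integral_nonneg fun u => by positivity)
  have h1 := Real.pi_gt_three
  have h2 := Real.exp_one_lt_d9
  linarith

end Pool.Agent.TS
end

section

set_option autoImplicit false

namespace Pool.Agent.MC.C2

open Pool.Agent.MC Pool.Agent.MC.C1 MeasureTheory Real Complex

/-- H8. Uniform bound for the logarithmic derivative. -/
lemma logDeriv_unif (θ : ℝ) (hθ : 1 / 2 ≤ θ) (hθ1 : θ < 1) (ε κ : ℝ) (hε : 0 < ε) (hκ : 0 < κ) :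
    ∃ C : ℝ, 0 ≤ C ∧ ∀ r : ℕ, ∀ [NeZero r], ZF r θ → ∀ χ : DirichletCharacter ℂ r, ∀ s : ℂ,
      θ + ε ≤ s.re → s.re ≤ 2 →
      ‖deriv (FF r χ) s / FF r χ s‖ ≤ C * ((r : ℝ) * (|s.im| + 6)) ^ κ := by
  have hlog21 : 0 < Real.log 21 := Real.log_pos (by norm_num)
  refine ⟨8 * (Real.log 21 + 2 / κ) * 2 / ε ^ 2, by positivity, ?_⟩
  intro r _ hZ χ s hs1 hs2
  have hdR : (1 : ℝ) ≤ r := by exact_mod_cast Nat.one_le_iff_ne_zero.mpr (NeZero.ne r)
  have hdR0 : (0 : ℝ) < r := by linarith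
  set K : ℝ := 3 * (4 * r + 3) with hK
  have hK1 : 1 < K := by rw [hK]; linarith
  set T : ℝ := |s.im| + 6 with hT
  have hT6 : 6 ≤ T := by rw [hT]; linarith [abs_nonneg s.im]
  have hT1 : 1 < T := by linarith
  have hT0 : 0 < T := by linarith
  set s0 : ℂ := ⟨2, s.im⟩ with hs0
  set R : ℝ := 2 - θ with hR
  have hR1 : R ≤ 2 := by rw [hR]; linarith
  have hR0 : 0 < R := by rw [hR]; linarith
  have hs0n : ‖s0‖ ≤ 2 + |s.im| := by
    have := Complex.norm_le_abs_re_add_abs_im s0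
    rw [hs0] at this ⊢
    simpa using this
  have hball : ∀ z ∈ Metric.ball s0 R, θ < z.re ∧ ‖z‖ + 1 ≤ T := by
    intro z hz
    rw [Metric.mem_ball, dist_eq_norm] at hz
    constructor
    · have h1 := (Complex.abs_re_le_norm (z - s0)).trans_lt hz
      rw [Complex.sub_re, abs_lt] at h1
      have h2 : s0.re = 2 := rfl
      rw [h2] at h1
      linarith [h1.1]
    · have h1 : ‖z‖ ≤ ‖z - s0‖ + ‖s0‖ := by
        calc ‖z‖ = ‖(z - s0) + s0‖ := by rw [sub_add_cancel]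
          _ ≤ _ := norm_add_le _ _
      rw [hT]
      linarith
  set M : ℝ := Real.log (K * T ^ 2) with hM
  have hM0 : 0 < M := Real.log_pos (by nlinarith)
  have hexpM : Real.exp M = K * T ^ 2 := Real.exp_log (by positivity)
  have hεR : ε ≤ R := by rw [hR]; linarith
  have hlow := FF_lower r χ s0 rfl
  have hdist : dist s s0 ≤ R - ε := by
    rw [dist_eq_norm]
    have h1 : s - s0 = ((s.re - 2 : ℝ) : ℂ) := by
      apply Complex.ext
      · simp [hs0]
      · simp [hs0]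
    rw [h1, Complex.norm_real, Real.norm_eq_abs, abs_of_nonpos (by linarith)]
    rw [hR]
    linarith
  have key := logDeriv_bound (FF r χ) s0 R M ε hM0 hε hεR (FF_differentiable r χ).differentiableOn
    (fun z hz => FF_ne_zero r θ hZ χ z (hball z hz).1) (fun z hz => by
      obtain ⟨h1, h2⟩ := hball z hz
      have h3 := FF_bound r χ z (by linarith)
      rw [hexpM]
      calc ‖FF r χ z‖ ≤ (4 * r + 3) * (‖z‖ + 1) ^ 2 := h3
        _ ≤ (4 * r + 3) * T ^ 2 := by gcongr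
        _ = K * T ^ 2 * (1 / 3) := by rw [hK]; ring
        _ ≤ K * T ^ 2 * ‖FF r χ s0‖ := by gcongr) s hdist
  refine key.trans ?_
  have hrT : 1 ≤ (r : ℝ) * T := by nlinarith
  have hrT0 : 0 < (r : ℝ) * T := by positivity
  have hTκ : 1 ≤ ((r : ℝ) * T) ^ κ := Real.one_le_rpow hrT hκ.le
  have hM2 : M ≤ (Real.log 21 + 2 / κ) * ((r : ℝ) * T) ^ κ := by
    have h0 : K * T ^ 2 ≤ 21 * ((r : ℝ) * T) ^ 2 := by
      have h5 : K ≤ 21 * (r : ℝ) ^ 2 := by rw [hK]; nlinarith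
      calc K * T ^ 2 ≤ (21 * (r : ℝ) ^ 2) * T ^ 2 := by gcongr
        _ = _ := by ring
    have h00 : M ≤ Real.log (21 * ((r : ℝ) * T) ^ 2) := by
      rw [hM]
      exact Real.log_le_log (by positivity) h0
    rw [Real.log_mul (by norm_num) (by positivity), Real.log_pow] at h00
    have h1 := Real.log_le_rpow_div hrT0.le hκ
    have h2 : Real.log 21 ≤ Real.log 21 * ((r : ℝ) * T) ^ κ := by nlinarith
    have h3 : 2 * Real.log ((r : ℝ) * T) ≤ 2 / κ * ((r : ℝ) * T) ^ κ := by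
      calc 2 * Real.log ((r : ℝ) * T) ≤ 2 * (((r : ℝ) * T) ^ κ / κ) := by gcongr
        _ = 2 / κ * ((r : ℝ) * T) ^ κ := by ring
    push_cast at h00
    linarith
  calc 8 * M * R / ε ^ 2 ≤ 8 * ((Real.log 21 + 2 / κ) * ((r : ℝ) * T) ^ κ) * 2 / ε ^ 2 := by
        gcongr
    _ = 8 * (Real.log 21 + 2 / κ) * 2 / ε ^ 2 * ((r : ℝ) * T) ^ κ := by ring

end Pool.Agent.MC.C2
end
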