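import Mathlib
import Pool.Agent.Lib.MP_9cfc0a_nt.MY.Defs

section

set_option autoImplicit false

/-! Definitions of the campaign MZ (MP_9cfc0a, variance outside few classes). -/

namespace Pool.Agent.MZ

open Complex Finset MY

/-- The mean of `ψ(x; c)` over the classes `c` outside `B`. -/
noncomputable def mB (q : ℕ) [NeZero q] (B : Finset (ZMod q)ˣ) (x : ℝ) : ℝ :=
  (∑ c ∈ Bᶜ, psiU q c x) / ((Bᶜ).card : ℝ)

/-- `ψ(x; c)` minus the mean outside `B`, and `0` on `B`. -/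
noncomputable def fB (q : ℕ) [NeZero q] (B : Finset (ZMod q)ˣ) (c : (ZMod q)ˣ) (x : ℝ) : ℝ :=
  if c ∈ B then 0 else psiU q c x - mB q B x

/-- The variance outside `B`. -/
noncomputable def VB (q : ℕ) [NeZero q] (B : Finset (ZMod q)ˣ) (x : ℝ) : ℝ :=
  ∑ c, (fB q B c x) ^ 2

/-- `J_j(x) = (s g_j(x) + g_{j-1}(x)) / x`. -/
noncomputable def Jk (s : ℂ) (j : ℕ) (x : ℝ) : ℂ :=
  (s * gi s j x + (if j = 0 then 0 else gi s (j - 1) x)) / (x : ℂ)

/-- `F_j(c) = ∫_X^Y f(x; c) J_j(x) dx`. -/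
noncomputable def Fj (q : ℕ) [NeZero q] (B : Finset (ZMod q)ˣ) (X Y : ℝ) (s : ℂ) (j : ℕ)
    (c : (ZMod q)ˣ) : ℂ :=
  ∫ x in Set.Ioc X Y, (fB q B c x : ℂ) * Jk s j x

/-- `F_k(c; n)`. -/
noncomputable def Fn (q : ℕ) [NeZero q] (B : Finset (ZMod q)ˣ) (X Y : ℝ) (s : ℂ) (k : ℕ)
    (c : (ZMod q)ˣ) (n : ℕ) : ℂ :=
  ∑ i ∈ range (k + 1), gi s i n * Fj q B X Y s (k - i) c

/-- No zero of `L(s, χ)`, `χ ≠ χ₀` modulo `q`, with `Re s ≥ 1/2 + δ` and `|Im s| ≤ T`. -/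
def ZFB (q : ℕ) [NeZero q] (δ T : ℝ) : Prop :=
  ∀ χ : DirichletCharacter ℂ q, χ ≠ 1 → ∀ s : ℂ, 1 / 2 + δ ≤ s.re → |s.im| ≤ T →
    χ.LFunction s ≠ 0

/-- The divisors of the elements `≤ Z` of `Ra`, and `1`. -/
noncomputable def Dz (q : ℕ) (B : Finset (ZMod q)ˣ) (Z : ℝ) (a : (ZMod q)ˣ) : Finset ℕ :=
  insert 1 (((Ra q B a).filter (fun r : ℕ => (r : ℝ) ≤ Z)).biUnion Nat.divisors)

/-- The number of terms of the Poisson weights. -/
noncomputable def JJ (e Z : ℝ) : ℕ := ⌈(1 + e) * (1 / e) * Real.log Z⌉₊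

/-- The Poisson weights. -/
noncomputable def kap (e Z : ℝ) (d : ℕ) : ℝ :=
  2 * (d : ℝ) ^ (-(1 / e)) * ∑ j ∈ range (JJ e Z + 1),
    (1 / e * Real.log d) ^ j / (j.factorial : ℝ)

end Pool.Agent.MZ
end

section

set_option autoImplicit false

namespace Pool.Agent.MZ

open Complex Finset MY

/-- The cut of the mollifier. -/
noncomputable def ZZ (q : ℕ) (ε₀ : ℝ) : ℝ := (q : ℝ) ^ (2 / 3 - ε₀)

/-- The length of the smoothed `L`-function. -/
noncomputable def UU (q : ℕ) (ε₀ : ℝ) : ℝ := (q : ℝ) ^ (1 + ε₀ / 40)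

noncomputable def NN (q : ℕ) (ε₀ : ℝ) : ℕ := ⌈2 * (q : ℝ) ^ (1 + ε₀ / 40)⌉₊

/-- The coefficients for the row `a`. -/
noncomputable def cz (q : ℕ) (ε₀ : ℝ) (B : Finset (ZMod q)ˣ) (a : (ZMod q)ˣ) (n : ℕ) : ℝ :=
  cn (Dz q B (ZZ q ε₀) a) (UU q ε₀) n

/-- The main sum of the row `a`. -/
noncomputable def XS (q : ℕ) [NeZero q] (ε₀ : ℝ) (B : Finset (ZMod q)ˣ) (X Y : ℝ) (s : ℂ) (k : ℕ)
    (a : (ZMod q)ˣ) : ℂ :=
  ∑ n ∈ (Icc 1 (q * NN q ε₀)).filter (fun n => Nat.Coprime n q),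
    ((cz q ε₀ B a n : ℝ) : ℂ) * Fn q B X Y s k (a * (un q n)⁻¹) n

open Classical in
/-- The sum over the `n` with `a / n ∈ B`. -/
noncomputable def QS (q : ℕ) [NeZero q] (ε₀ : ℝ) (B : Finset (ZMod q)ˣ) (s : ℂ) (k : ℕ)
    (a : (ZMod q)ˣ) : ℝ :=
  ∑ n ∈ (Icc 2 (q * NN q ε₀)).filter (fun n => Nat.Coprime n q ∧ a * (un q n)⁻¹ ∈ B),
    |cz q ε₀ B a n| * ‖Dn q s k (a * (un q n)⁻¹) n‖

/-- The total weight. -/
noncomputable def WS (q : ℕ) [NeZero q] (ε₀ : ℝ) (B : Finset (ZMod q)ˣ) (a : (ZMod q)ˣ) : ℝ :=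
  ∑ n ∈ Icc 1 (q * NN q ε₀), |cz q ε₀ B a n| * (n : ℝ) ^ (-(1 / 2) : ℝ)

end Pool.Agent.MZ
end

section

set_option autoImplicit false

/-! Definitions of the campaign MW (MP_9cfc0a: zeros to the right of `θ` and the variance outside few
classes), the version of MZ for `1/2 ≤ θ < 1`. -/

namespace Pool.Agent.MW

open Complex Finset MY MZ

/-- The cut of the mollifier. -/
noncomputable def ZW (q : ℕ) (θ ε₀ : ℝ) : ℝ := (q : ℝ) ^ (1 / (2 - θ) - ε₀)

/-- The coefficients for the row `a`. -/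
noncomputable def cw (q : ℕ) (θ ε₀ : ℝ) (B : Finset (ZMod q)ˣ) (a : (ZMod q)ˣ) (n : ℕ) : ℝ :=
  cn (Dz q B (ZW q θ ε₀) a) (UU q ε₀) n

/-- The main sum of the row `a`. -/
noncomputable def XW (q : ℕ) [NeZero q] (θ ε₀ : ℝ) (B : Finset (ZMod q)ˣ) (X Y : ℝ) (s : ℂ) (k : ℕ)
    (a : (ZMod q)ˣ) : ℂ :=
  ∑ n ∈ (Icc 1 (q * NN q ε₀)).filter (fun n => Nat.Coprime n q),
    ((cw q θ ε₀ B a n : ℝ) : ℂ) * Fn q B X Y s k (a * (un q n)⁻¹) n

open Classical in
/-- The sum over the `n` with `a / n ∈ B`. -/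
noncomputable def QW (q : ℕ) [NeZero q] (θ ε₀ : ℝ) (B : Finset (ZMod q)ˣ) (s : ℂ) (k : ℕ)
    (a : (ZMod q)ˣ) : ℝ :=
  ∑ n ∈ (Icc 2 (q * NN q ε₀)).filter (fun n => Nat.Coprime n q ∧ a * (un q n)⁻¹ ∈ B),
    |cw q θ ε₀ B a n| * ‖Dn q s k (a * (un q n)⁻¹) n‖

/-- The total weight. -/
noncomputable def WW (q : ℕ) [NeZero q] (θ ε₀ : ℝ) (B : Finset (ZMod q)ˣ) (a : (ZMod q)ˣ) : ℝ :=
  ∑ n ∈ Icc 1 (q * NN q ε₀), |cw q θ ε₀ B a n| * (n : ℝ) ^ (-θ)

/-- The normalised mean square of the coefficients over `B`. -/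
noncomputable def uB (q : ℕ) [NeZero q] (θ : ℝ) (B : Finset (ZMod q)ˣ) (s : ℂ) (k : ℕ) : ℝ :=
  ∑ a ∈ B, (‖Dk q s k a‖ * (2 - θ) ^ k) ^ 2

/-- The decay of the weights. -/
noncomputable def gam (I₀ i : ℕ) : ℝ := if i < I₀ then 1 else (1 / 8 : ℝ) ^ i

/-- The convolution of `uB` with `gam`. -/
noncomputable def sB (q : ℕ) [NeZero q] (θ : ℝ) (B : Finset (ZMod q)ˣ) (s : ℂ) (I₀ k : ℕ) : ℝ :=
  ∑ i ∈ range (k + 1), gam I₀ i * uB q θ B s (k - i)

/-- The low and high part of the error outside `B`. -/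
noncomputable def LH (S Y : ℝ) (k n : ℕ) : ℝ :=
  60 * (1 + S) * (n : ℝ)⁻¹ * ((1 / 4 : ℝ) ^ k + 2 ^ k * Y ^ (-(1 / 2) : ℝ))

/-- The bound for `D_k(c; n) - F_k(c; n)` outside `B`. -/
noncomputable def Rw (q : ℕ) [NeZero q] (θ : ℝ) (B : Finset (ZMod q)ˣ) (s : ℂ) (S Y : ℝ) (I₀ k n : ℕ) :
    ℝ :=
  LH S Y k n + 2 * (B.card : ℝ) ^ (1 / 2 : ℝ) / q.totient * ((2 - θ)⁻¹) ^ k
    * (n : ℝ) ^ (-θ) * Real.sqrt (sB q θ B s I₀ k)

open Classical in
/-- The number of non principal characters modulo `q` with a zero in `θ ≤ Re s < 1`, `|Im s| ≤ T`. -/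
noncomputable def NZ (q : ℕ) [NeZero q] (θ T : ℝ) : ℕ :=
  ((nt q).filter (fun χ => ∃ s : ℂ, θ ≤ s.re ∧ s.re < 1 ∧ |s.im| ≤ T ∧ χ.LFunction s = 0)).card

end Pool.Agent.MW
end

section

set_option autoImplicit false

/-! Definitions of the campaign MU (MP_9cfc0a: the version of MW that is uniform in `X ≥ q`). -/

namespace Pool.Agent.MU

open Complex Finset MY MZ MW

/-- The normalised mean square of the coefficients over all classes. -/
noncomputable def uA (q : ℕ) [NeZero q] (θ : ℝ) (s : ℂ) (k : ℕ) : ℝ :=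
  ∑ a : (ZMod q)ˣ, (‖Dk q s k a‖ * (2 - θ) ^ k) ^ 2

/-- The weights of the recursion. -/
noncomputable def ga (I₀ i : ℕ) : ℝ := if i < I₀ then 1 else (6 / 7 : ℝ) ^ i

/-- The analytic error term, as a convolution. -/
noncomputable def Ec (q : ℕ) [NeZero q] (κ : ℕ) (U : ℝ) (s : ℂ) (k : ℕ) : ℝ :=
  q * (4 / 7 : ℝ) ^ k + (q : ℝ) ^ (κ + 1) * U ^ (-(κ : ℝ)) *
    ∑ i ∈ range (k + 1), (4 / 7 : ℝ) ^ i * Real.sqrt (∑ c : (ZMod q)ˣ, ‖Dk q s (k - i) c‖ ^ 2)

end Pool.Agent.MU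
end

section

set_option autoImplicit false

/-! K1: the Poisson weights (termwise bounds). -/

namespace Pool.Agent.MZ

section K1aux

open Finset



/-- `K1_kap c J d = 2 d^{-c} ∑_{j ≤ J} (c log d)^j / j!`. -/
noncomputable def K1_kap (c : ℝ) (J : ℕ) (d : ℕ) : ℝ :=
  2 * (d : ℝ) ^ (-c) * ∑ j ∈ range (J + 1), (c * Real.log d) ^ j / (j.factorial : ℝ)

lemma K1_nonneg (c : ℝ) (hc : 0 ≤ c) (J d : ℕ) : 0 ≤ K1_kap c J d := by
  unfold K1_kap
  refine mul_nonneg (mul_nonneg (by norm_num) (Real.rpow_nonneg (Nat.cast_nonneg _) _)) ?_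
  refine sum_nonneg fun j _ => div_nonneg (pow_nonneg (mul_nonneg hc ?_) _) (Nat.cast_nonneg _)
  exact Real.log_natCast_nonneg d

/-- The tail of the exponential series. -/
lemma K1_exp_tail (x t : ℝ) (hx : 0 ≤ x) (ht : 1 ≤ t) (J : ℕ) :
    Real.exp x ≤ ∑ j ∈ range J, x ^ j / (j.factorial : ℝ) + t⁻¹ ^ J * Real.exp (t * x) := by
  have ht0 : 0 < t := by linarith
  have hlim : Filter.Tendsto (fun n => ∑ j ∈ range n, x ^ j / (j.factorial : ℝ)) Filter.atTop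
      (nhds (Real.exp x)) := by
    rw [Real.exp_eq_exp_ℝ]
    exact (NormedSpace.expSeries_div_hasSum_exp x).tendsto_sum_nat
  refine le_of_tendsto' hlim fun n => ?_
  have h1 : ∀ j ∈ range n, x ^ j / (j.factorial : ℝ) ≤
      (if j < J then x ^ j / (j.factorial : ℝ) else 0) +
        t⁻¹ ^ J * ((t * x) ^ j / (j.factorial : ℝ)) := by
    intro j _
    have hf : (0 : ℝ) < (j.factorial : ℝ) := by exact_mod_cast j.factorial_pos
    have h2 : 0 ≤ t⁻¹ ^ J * ((t * x) ^ j / (j.factorial : ℝ)) := by positivity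
    by_cases hj : j < J
    · rw [if_pos hj]; linarith
    · rw [if_neg hj, zero_add]
      push Not at hj
      have h3 : 1 ≤ t⁻¹ ^ J * t ^ j := by
        rw [inv_pow, ← div_eq_inv_mul, one_le_div (pow_pos ht0 J)]
        exact pow_le_pow_right₀ ht hj
      calc x ^ j / (j.factorial : ℝ) = 1 * (x ^ j / (j.factorial : ℝ)) := (one_mul _).symm
        _ ≤ (t⁻¹ ^ J * t ^ j) * (x ^ j / (j.factorial : ℝ)) :=
            mul_le_mul_of_nonneg_right h3 (by positivity)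
        _ = t⁻¹ ^ J * ((t * x) ^ j / (j.factorial : ℝ)) := by rw [mul_pow]; ring
  calc ∑ j ∈ range n, x ^ j / (j.factorial : ℝ)
      ≤ ∑ j ∈ range n, ((if j < J then x ^ j / (j.factorial : ℝ) else 0) +
        t⁻¹ ^ J * ((t * x) ^ j / (j.factorial : ℝ))) := sum_le_sum h1
    _ = ∑ j ∈ range n, (if j < J then x ^ j / (j.factorial : ℝ) else 0) +
        t⁻¹ ^ J * ∑ j ∈ range n, (t * x) ^ j / (j.factorial : ℝ) := by
        rw [sum_add_distrib, mul_sum]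
    _ ≤ ∑ j ∈ range J, x ^ j / (j.factorial : ℝ) + t⁻¹ ^ J * Real.exp (t * x) := by
        refine add_le_add ?_ (mul_le_mul_of_nonneg_left
          (Real.sum_le_exp_of_nonneg (by positivity) n) (by positivity))
        rw [← sum_filter]
        refine sum_le_sum_of_subset_of_nonneg ?_ fun j _ _ => by positivity
        intro j hj
        rw [mem_filter] at hj
        exact mem_range.mpr hj.2

/-- The head of the exponential series. -/
lemma K1_exp_head (x t : ℝ) (hx : 0 ≤ x) (ht : 1 ≤ t) (J : ℕ) :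
    ∑ j ∈ range (J + 1), x ^ j / (j.factorial : ℝ) ≤ t ^ J * Real.exp (x / t) := by
  have ht0 : 0 < t := by linarith
  calc ∑ j ∈ range (J + 1), x ^ j / (j.factorial : ℝ)
      ≤ ∑ j ∈ range (J + 1), t ^ J * ((x / t) ^ j / (j.factorial : ℝ)) := by
        refine sum_le_sum fun j hj => ?_
        have hj' : j ≤ J := Nat.lt_succ_iff.mp (mem_range.mp hj)
        have h1 : x ^ j ≤ t ^ J * (x / t) ^ j := by
          rw [div_pow, ← mul_div_assoc, le_div_iff₀ (pow_pos ht0 j), mul_comm]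
          exact mul_le_mul_of_nonneg_right (pow_le_pow_right₀ ht hj') (pow_nonneg hx j)
        rw [← mul_div_assoc]
        exact div_le_div_of_nonneg_right h1 (Nat.cast_nonneg _)
    _ = t ^ J * ∑ j ∈ range (J + 1), (x / t) ^ j / (j.factorial : ℝ) := by rw [mul_sum]
    _ ≤ t ^ J * Real.exp (x / t) :=
        mul_le_mul_of_nonneg_left (Real.sum_le_exp_of_nonneg (by positivity) _) (by positivity)

/-- (i) `K1_kap ≥ 1` up to `Z`. -/
theorem K1_ge (e : ℝ) (he : 0 < e) (he1 : e ≤ 1) (Z : ℝ) (hZ : 4 * Real.log 2 / e ≤ Real.log Z)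
    (hZ1 : 1 ≤ Z) (J : ℕ) (hJ : (1 + e) * (1 / e) * Real.log Z ≤ J) (d : ℕ) (hd : 1 ≤ d)
    (hdZ : (d : ℝ) ≤ Z) : 1 ≤ K1_kap (1 / e) J d := by
  have hd0 : (0 : ℝ) < d := by exact_mod_cast hd
  have hlog0 : 0 ≤ Real.log d := Real.log_natCast_nonneg d
  have hlogZ : Real.log d ≤ Real.log Z := Real.log_le_log hd0 hdZ
  have hLZ : 0 ≤ Real.log Z := Real.log_nonneg hZ1
  set x : ℝ := 1 / e * Real.log d with hx
  have hx0 : 0 ≤ x := by positivity
  have h1 := K1_exp_tail x (1 + e) hx0 (by linarith) (J + 1)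
  -- the relative tail
  have hlog : e + e ^ 2 / 4 ≤ (1 + e) * Real.log (1 + e) := by
    have h2 := Real.le_log_one_add_of_nonneg he.le
    have h3 : e + e ^ 2 / 4 ≤ (1 + e) * (2 * e / (e + 2)) := by
      rw [← mul_div_assoc, le_div_iff₀ (by linarith)]
      nlinarith [mul_pos he he, mul_nonneg (mul_pos he he).le (by linarith : (0:ℝ) ≤ 1 - e)]
    exact h3.trans (mul_le_mul_of_nonneg_left h2 (by linarith))
  have htail : (1 + e)⁻¹ ^ (J + 1) * Real.exp ((1 + e) * x) ≤ Real.exp x * (1 / 2) := by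
    have e1 : (1 + e)⁻¹ ^ (J + 1) = Real.exp (-(((J : ℝ) + 1) * Real.log (1 + e))) := by
      rw [inv_pow, Real.exp_neg]
      congr 1
      rw [← Real.rpow_natCast, Real.rpow_def_of_pos (by linarith)]
      congr 1
      push_cast
      ring
    have e2 : (1 / 2 : ℝ) = Real.exp (-Real.log 2) := by
      rw [Real.exp_neg, Real.exp_log (by norm_num)]
      norm_num
    rw [e1, e2, ← Real.exp_add, ← Real.exp_add, Real.exp_le_exp]
    have hl1 : 0 ≤ Real.log (1 + e) := Real.log_nonneg (by linarith)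
    have h4 : (1 + e) * (1 / e) * Real.log Z * Real.log (1 + e) ≤ (J + 1) * Real.log (1 + e) :=
      mul_le_mul_of_nonneg_right (by linarith) hl1
    have h5 : x ≤ 1 / e * Real.log Z := mul_le_mul_of_nonneg_left hlogZ (by positivity)
    have h6 : e * x ≤ Real.log Z := by
      have : e * (1 / e * Real.log Z) = Real.log Z := by field_simp
      calc e * x ≤ e * (1 / e * Real.log Z) := mul_le_mul_of_nonneg_left h5 he.le
        _ = Real.log Z := this
    have h7 : (1 + e) * (1 / e) * Real.log Z * Real.log (1 + e) =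
        (1 / e * Real.log Z) * ((1 + e) * Real.log (1 + e)) := by ring
    have h8 : (1 / e * Real.log Z) * (e + e ^ 2 / 4) ≤
        (1 / e * Real.log Z) * ((1 + e) * Real.log (1 + e)) :=
      mul_le_mul_of_nonneg_left hlog (by positivity)
    have h9 : (1 / e * Real.log Z) * (e + e ^ 2 / 4) = Real.log Z + e / 4 * Real.log Z := by
      field_simp
    have h10 : Real.log 2 ≤ e / 4 * Real.log Z := by
      rw [div_le_iff₀ he] at hZ
      linarith
    linarith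
  have h2 : Real.exp x * (1 / 2) ≤ ∑ j ∈ range (J + 1), x ^ j / (j.factorial : ℝ) := by linarith
  have h3 : (d : ℝ) ^ (-(1 / e)) = Real.exp (-x) := by
    rw [Real.rpow_def_of_pos hd0, hx]
    congr 1
    ring
  unfold K1_kap
  rw [h3]
  calc (1 : ℝ) = 2 * Real.exp (-x) * (Real.exp x * (1 / 2)) := by
        have : Real.exp (-x) * Real.exp x = 1 := by rw [← Real.exp_add]; simp
        linear_combination -this
    _ ≤ _ := mul_le_mul_of_nonneg_left h2 (by positivity)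

/-- (ii) The termwise bound behind the sum of `d^{-σ} kap(d)`. -/
theorem K1_le (e : ℝ) (he : 0 < e) (he1 : e ≤ 1 / 5) (Z : ℝ) (hZ1 : 1 ≤ Z) (J : ℕ)
    (hJ : (J : ℝ) ≤ (1 + e) * (1 / e) * Real.log Z + 1) (d : ℕ) (hd : 1 ≤ d) :
    K1_kap (1 / e) J d ≤ 4 * Z ^ (1 / 2 + 3 * e) * (d : ℝ) ^ (-(1 / 2 + e)) := by
  have hd0 : (0 : ℝ) < d := by exact_mod_cast hd
  have hZ0 : 0 < Z := by linarith
  have hlog0 : 0 ≤ Real.log d := Real.log_natCast_nonneg d
  have hLZ : 0 ≤ Real.log Z := Real.log_nonneg hZ1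
  set u : ℝ := (1 / 2 + e) * e with hu
  have hu0 : 0 < u := by positivity
  have hu1 : u ≤ 1 / 5 := by nlinarith
  have h1u : 0 < 1 - u := by linarith
  set t : ℝ := (1 - u)⁻¹ with ht
  have ht0 : 0 < t := inv_pos.mpr h1u
  have ht1 : 1 ≤ t := by
    rw [ht]
    exact (one_le_inv₀ h1u).mpr (by linarith)
  have ht2 : t ≤ 2 := by
    rw [ht, inv_le_comm₀ h1u (by norm_num)]
    linarith
  set x : ℝ := 1 / e * Real.log d with hx
  have hx0 : 0 ≤ x := by positivity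
  have h1 := K1_exp_head x t hx0 ht1 J
  have hlogt : Real.log t ≤ u + 2 * u ^ 2 := by
    have h2 : Real.log t ≤ t - 1 := Real.log_le_sub_one_of_pos ht0
    have h3 : t - 1 ≤ u + 2 * u ^ 2 := by
      rw [ht, sub_le_iff_le_add, inv_le_iff_one_le_mul₀ h1u]
      nlinarith [mul_pos hu0 hu0]
    linarith
  have hlt0 : 0 ≤ Real.log t := Real.log_nonneg ht1
  have htJ : t ^ J ≤ 2 * Z ^ (1 / 2 + 3 * e) := by
    have e1 : t ^ J = Real.exp (J * Real.log t) := by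
      rw [← Real.rpow_natCast, Real.rpow_def_of_pos ht0]
      congr 1
      ring
    have e2 : 2 * Z ^ (1 / 2 + 3 * e) = Real.exp (Real.log 2 + (1 / 2 + 3 * e) * Real.log Z) := by
      rw [Real.exp_add, Real.exp_log (by norm_num), Real.rpow_def_of_pos hZ0]
      congr 2
      ring
    rw [e1, e2, Real.exp_le_exp]
    have h3 : (J : ℝ) * Real.log t ≤ ((1 + e) * (1 / e) * Real.log Z + 1) * Real.log t :=
      mul_le_mul_of_nonneg_right hJ hlt0
    have h4 : Real.log t ≤ Real.log 2 := Real.log_le_log ht0 ht2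
    have h5 : (1 + e) * (1 / e) * Real.log Z * Real.log t ≤
        (1 + e) * (1 / e) * Real.log Z * (u + 2 * u ^ 2) :=
      mul_le_mul_of_nonneg_left hlogt (by positivity)
    have h6 : (1 + e) * (1 / e) * Real.log Z * (u + 2 * u ^ 2) ≤ (1 / 2 + 3 * e) * Real.log Z := by
      have h7 : (1 + e) * (1 / e) * (u + 2 * u ^ 2) ≤ 1 / 2 + 3 * e := by
        have e3 : (1 + e) * (1 / e) * (u + 2 * u ^ 2) =
            (1 + e) * ((1 / 2 + e) + 2 * e * (1 / 2 + e) ^ 2) := by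
          rw [hu]
          field_simp
        rw [e3]
        have h8 : e ^ 2 ≤ e / 5 := by
          have : e * e ≤ e * (1 / 5) := mul_le_mul_of_nonneg_left he1 he.le
          rw [pow_two]
          linarith
        have h9 : e ^ 3 ≤ e / 25 := by
          have : e ^ 2 * e ≤ e / 5 * (1 / 5) :=
            mul_le_mul h8 he1 he.le (by positivity)
          rw [pow_succ]
          linarith
        have h10 : e ^ 4 ≤ e / 125 := by
          have : e ^ 3 * e ≤ e / 25 * (1 / 5) :=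
            mul_le_mul h9 he1 he.le (by positivity)
          rw [pow_succ]
          linarith
        have h11 : (1 + e) * ((1 / 2 + e) + 2 * e * (1 / 2 + e) ^ 2) =
            1 / 2 + 2 * e + 7 / 2 * e ^ 2 + 4 * e ^ 3 + 2 * e ^ 4 := by ring
        rw [h11]
        linarith
      calc (1 + e) * (1 / e) * Real.log Z * (u + 2 * u ^ 2)
          = ((1 + e) * (1 / e) * (u + 2 * u ^ 2)) * Real.log Z := by ring
        _ ≤ (1 / 2 + 3 * e) * Real.log Z := mul_le_mul_of_nonneg_right h7 hLZ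
    have h12 : ((1 + e) * (1 / e) * Real.log Z + 1) * Real.log t =
        (1 + e) * (1 / e) * Real.log Z * Real.log t + Real.log t := by ring
    linarith
  have h3 : (d : ℝ) ^ (-(1 / e)) = Real.exp (-x) := by
    rw [Real.rpow_def_of_pos hd0, hx]
    congr 1
    ring
  have h4 : Real.exp (-x) * Real.exp (x / t) = (d : ℝ) ^ (-(1 / 2 + e)) := by
    rw [← Real.exp_add, Real.rpow_def_of_pos hd0]
    congr 1
    have : x / t = x * (1 - u) := by rw [ht, div_inv_eq_mul]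
    rw [this, hx, hu]
    field_simp
    ring
  unfold K1_kap
  rw [h3]
  calc 2 * Real.exp (-x) * ∑ j ∈ range (J + 1), x ^ j / (j.factorial : ℝ)
      ≤ 2 * Real.exp (-x) * (t ^ J * Real.exp (x / t)) :=
        mul_le_mul_of_nonneg_left h1 (by positivity)
    _ = 2 * t ^ J * (Real.exp (-x) * Real.exp (x / t)) := by ring
    _ = 2 * t ^ J * (d : ℝ) ^ (-(1 / 2 + e)) := by rw [h4]
    _ ≤ 4 * Z ^ (1 / 2 + 3 * e) * (d : ℝ) ^ (-(1 / 2 + e)) := by
        refine mul_le_mul_of_nonneg_right ?_ (Real.rpow_nonneg hd0.le _)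
        linarith


end K1aux

open Complex Finset MY

/-- The weights of the campaign are the generic ones. -/
theorem K1_kap_eq (e Z : ℝ) (d : ℕ) : kap e Z d = K1_kap (1 / e) (JJ e Z) d := rfl

/-- The number of terms is at most `(1+e)/e log Z + 1`. -/
theorem K1_JJ_le (e : ℝ) (he : 0 < e) (Z : ℝ) (hZ : 1 ≤ Z) :
    (JJ e Z : ℝ) ≤ (1 + e) * (1 / e) * Real.log Z + 1 := by
  have h0 : 0 ≤ (1 + e) * (1 / e) * Real.log Z := by
    have := Real.log_nonneg hZ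
    positivity
  exact (Nat.ceil_lt_add_one h0).le

/-- K1. The Poisson weights are at least `1` up to `Z`. -/
lemma kap_ge (e : ℝ) (he : 0 < e) (he1 : e ≤ 1 / 10) : ∃ Z₁ : ℝ, 1 ≤ Z₁ ∧ ∀ Z : ℝ, Z₁ ≤ Z →
    ∀ d : ℕ, 1 ≤ d → (d : ℝ) ≤ Z → 1 ≤ kap e Z d := by
  refine ⟨max 1 (Real.exp (4 * Real.log 2 / e)), le_max_left _ _, ?_⟩
  intro Z hZ d hd hdZ
  have h1 : 1 ≤ Z := le_trans (le_max_left _ _) hZ
  have h2 : Real.exp (4 * Real.log 2 / e) ≤ Z := le_trans (le_max_right _ _) hZ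
  have h3 : 4 * Real.log 2 / e ≤ Real.log Z := by
    rw [← Real.exp_le_exp, Real.exp_log (by linarith)]
    exact h2
  rw [K1_kap_eq]
  exact K1_ge e he (by linarith) Z h3 h1 (JJ e Z) (Nat.le_ceil _) d hd hdZ

lemma kap_nonneg (e : ℝ) (he : 0 < e) (Z : ℝ) (d : ℕ) (hd : 1 ≤ d) : 0 ≤ kap e Z d := by
  rw [K1_kap_eq]
  exact K1_nonneg (1 / e) (by positivity) (JJ e Z) d

end Pool.Agent.MZ
end

section

set_option autoImplicit false

namespace Pool.Agent.MZ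

open Complex Finset MY

/-- The bound for `D_k(c; n) - F_k(c; n)` outside `B`. -/
noncomputable def Rbf (q : ℕ) [NeZero q] (B : Finset (ZMod q)ˣ) (MD Y : ℝ) (k n : ℕ) : ℝ :=
  60 * (1 + 3) * (n : ℝ)⁻¹ * ((1 / 4 : ℝ) ^ k + 2 ^ k * Y ^ (-(1 / 2) : ℝ))
    + 2 * (B.card : ℝ) ^ (1 / 2 : ℝ) / q.totient * MD * (2 / 3 : ℝ) ^ k * (n : ℝ) ^ (-(1 / 2) : ℝ)

end Pool.Agent.MZ
end
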