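import Mathlib
import Pool.Agent.Lib.MP_9cfc0a_nt.MY.Defs
import Pool.Agent.Lib.MP_9cfc0a_nt.Mg.G078
import Pool.Agent.Lib.MP_9cfc0a_nt.Mg.G023

section

set_option autoImplicit false

namespace Pool.Agent.MY

open Complex Finset

open MC.C2 in
lemma vv_bounds (x : ℝ) : 0 ≤ vv x ∧ vv x ≤ 1 :=
  ⟨Real.smoothTransition.nonneg _, Real.smoothTransition.le_one _⟩

open MC.C2 in
lemma vv_eq_one (x : ℝ) (hx : x ≤ 1) : vv x = 1 :=
  Real.smoothTransition.one_of_one_le (by linarith)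

/-- F1. -/
lemma cn_one (D : Finset ℕ) (hD : 1 ∈ D) (U : ℝ) (hU : 1 ≤ U) : cn D U 1 = 1 := by
  unfold cn
  have h1 : D.filter (fun d => d ∣ 1) = {1} := by
    ext d
    simp only [mem_filter, Nat.dvd_one, mem_singleton]
    constructor
    · exact fun h => h.2
    · rintro rfl
      exact ⟨hD, rfl⟩
  rw [h1, sum_singleton, Nat.div_one, vv_eq_one _ (by
    rw [Nat.cast_one, div_le_one (by linarith)]; exact hU)]
  simp

lemma cn_le (D : Finset ℕ) (U : ℝ) (n : ℕ) (hn : 1 ≤ n) : |cn D U n| ≤ n.divisors.card := by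
  unfold cn
  refine (abs_sum_le_sum_abs _ _).trans ?_
  calc ∑ d ∈ D.filter (fun d => d ∣ n), |(ArithmeticFunction.moebius d : ℝ)
        * MC.C2.vv (((n / d : ℕ) : ℝ) / U)|
      ≤ ∑ _d ∈ D.filter (fun d => d ∣ n), (1 : ℝ) := by
        refine sum_le_sum fun d _ => ?_
        rw [abs_mul, abs_of_nonneg (vv_bounds _).1]
        have h1 : |(ArithmeticFunction.moebius d : ℝ)| ≤ 1 := by
          have := ArithmeticFunction.abs_moebius_le_one (n := d)
          exact_mod_cast this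
        calc |(ArithmeticFunction.moebius d : ℝ)| * MC.C2.vv (((n / d : ℕ) : ℝ) / U)
            ≤ 1 * 1 := mul_le_mul h1 (vv_bounds _).2 (vv_bounds _).1 zero_le_one
          _ = 1 := one_mul 1
    _ = ((D.filter (fun d => d ∣ n)).card : ℝ) := by simp
    _ ≤ n.divisors.card := by
        exact_mod_cast card_le_card (fun d hd => by
          rw [mem_filter] at hd
          exact Nat.mem_divisors.mpr ⟨hd.2, by omega⟩)

lemma Ds_mem (q : ℕ) (hq : 2 ≤ q) (B : Finset (ZMod q)ˣ) (a : (ZMod q)ˣ) :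
    1 ∈ Ds q B a ∧ ∀ d ∈ Ds q B a, 1 ≤ d ∧ d ≤ q := by
  classical
  refine ⟨mem_insert_self _ _, fun d hd => ?_⟩
  unfold Ds at hd
  rw [mem_insert, mem_biUnion] at hd
  rcases hd with rfl | ⟨r, hr, hd⟩
  · exact ⟨le_rfl, by omega⟩
  · unfold Ra at hr
    rw [mem_filter, mem_Icc] at hr
    rw [Nat.mem_divisors] at hd
    have h1 := Nat.le_of_dvd (by omega) hd.1
    have h2 := Nat.pos_of_dvd_of_pos hd.1 (by omega)
    omega

/-- The coefficients vanish on `Ra`. -/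
lemma cn_zero (q : ℕ) (B : Finset (ZMod q)ˣ) (a : (ZMod q)ˣ) (U : ℝ) (hU : (q : ℝ) ≤ U) (n : ℕ)
    (hn : n ∈ Ra q B a) : cn (Ds q B a) U n = 0 := by
  classical
  have hn' := hn
  unfold Ra at hn'
  rw [mem_filter, mem_Icc] at hn'
  obtain ⟨⟨hn2, hnq⟩, -⟩ := hn'
  have hU0 : 0 < U := by
    have : (0 : ℝ) < q := by exact_mod_cast (by omega : 0 < q)
    linarith
  unfold cn
  have h1 : (Ds q B a).filter (fun d => d ∣ n) = n.divisors := by
    ext d
    rw [mem_filter, Nat.mem_divisors]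
    constructor
    · exact fun h => ⟨h.2, by omega⟩
    · refine fun h => ⟨?_, h.1⟩
      unfold Ds
      rw [mem_insert, mem_biUnion]
      exact .inr ⟨n, hn, Nat.mem_divisors.mpr h⟩
  rw [h1]
  have h2 : ∀ d ∈ n.divisors, (ArithmeticFunction.moebius d : ℝ)
      * MC.C2.vv (((n / d : ℕ) : ℝ) / U) = (ArithmeticFunction.moebius d : ℝ) := by
    intro d _
    rw [vv_eq_one, mul_one]
    rw [div_le_one hU0]
    have h3 : n / d ≤ q := (Nat.div_le_self n d).trans (by omega)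
    have h4 : ((n / d : ℕ) : ℝ) ≤ q := by exact_mod_cast h3
    linarith
  rw [sum_congr rfl h2]
  have h3 : ∑ d ∈ n.divisors, ArithmeticFunction.moebius d = 0 := by
    have h4 := ArithmeticFunction.coe_moebius_mul_coe_zeta (R := ℤ)
    have h5 := congrArg (fun f => f n) h4
    simp only [ArithmeticFunction.coe_mul_zeta_apply] at h5
    rw [ArithmeticFunction.one_apply_ne (by omega)] at h5
    simpa using h5
  exact_mod_cast h3

lemma Ra_card (q : ℕ) (B : Finset (ZMod q)ˣ) (a : (ZMod q)ˣ) : (Ra q B a).card ≤ B.card := by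
  classical
  refine card_le_card_of_injOn (fun r => a * (un q r)⁻¹) (fun r hr => ?_) ?_
  · rw [mem_coe] at hr
    unfold Ra at hr
    rw [mem_filter] at hr
    exact hr.2.2
  · intro r hr r' hr' h
    rw [mem_coe] at hr hr'
    unfold Ra at hr hr'
    rw [mem_filter, mem_Icc] at hr hr'
    simp only [mul_right_inj, inv_inj] at h
    have h1 := congrArg (fun u : (ZMod q)ˣ => (u : ZMod q)) h
    unfold un at h1
    rw [dif_pos hr.2.1, dif_pos hr'.2.1] at h1
    simp only [ZMod.coe_unitOfCoprime] at h1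
    rw [ZMod.natCast_eq_natCast_iff'] at h1
    rwa [Nat.mod_eq_of_lt (by omega), Nat.mod_eq_of_lt (by omega)] at h1

/-- The size of `Ds` (divisor bound: `MC.C2` H11 or `C2H11.lean`). -/
lemma Ds_card (κ : ℝ) (hκ : 0 < κ) : ∃ C : ℝ, 1 ≤ C ∧ ∀ (q : ℕ), 2 ≤ q →
    ∀ (B : Finset (ZMod q)ˣ) (a : (ZMod q)ˣ),
    ((Ds q B a).card : ℝ) ≤ 1 + C * B.card * (q : ℝ) ^ κ := by
  classical
  obtain ⟨C, hC0, hC⟩ := MC.C2.divisor_bound κ hκ
  refine ⟨max C 1, le_max_right _ _, fun q hq B a => ?_⟩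
  have hq0 : (0 : ℝ) < q := by exact_mod_cast (by omega : 0 < q)
  have h1 : ((Ds q B a).card : ℝ) ≤ 1 + ∑ r ∈ Ra q B a, (r.divisors.card : ℝ) := by
    have h2 : (Ds q B a).card ≤ ((Ra q B a).biUnion Nat.divisors).card + 1 :=
      card_insert_le _ _
    have h3 : ((Ra q B a).biUnion Nat.divisors).card ≤ ∑ r ∈ Ra q B a, r.divisors.card :=
      card_biUnion_le
    have h4 : ((Ds q B a).card : ℝ) ≤ ((∑ r ∈ Ra q B a, r.divisors.card : ℕ) : ℝ) + 1 := by
      exact_mod_cast h2.trans (by omega)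
    push_cast at h4
    linarith
  refine h1.trans ?_
  have h2 : ∑ r ∈ Ra q B a, (r.divisors.card : ℝ) ≤ ∑ _r ∈ Ra q B a, max C 1 * (q : ℝ) ^ κ := by
    refine sum_le_sum fun r hr => ?_
    unfold Ra at hr
    rw [mem_filter, mem_Icc] at hr
    refine (hC r (by omega)).trans ?_
    have h3 : (r : ℝ) ≤ q := by exact_mod_cast (by omega : r ≤ q)
    gcongr
    exact le_max_left _ _
  rw [sum_const, nsmul_eq_mul] at h2
  have h3 : ((Ra q B a).card : ℝ) ≤ B.card := by exact_mod_cast Ra_card q B a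
  have h4 : ((Ra q B a).card : ℝ) * (max C 1 * (q : ℝ) ^ κ) ≤ B.card * (max C 1 * (q : ℝ) ^ κ) := by
    gcongr
  linarith

end Pool.Agent.MY
end

section

set_option autoImplicit false

namespace Pool.Agent.MY

open Complex Finset

lemma F2_step (θ c : ℝ) (hθ : 0 ≤ θ) (hθ1 : θ < 1) (hc : 0 ≤ c) :
    c ^ (1 - θ) + (1 - θ) * (c + 1) ^ (-θ) ≤ (c + 1) ^ (1 - θ) := by
  have h0 : 0 < c + 1 := by linarith
  have h1 : (1 + -(1 / (c + 1))) ^ (1 - θ) ≤ 1 + (1 - θ) * -(1 / (c + 1)) := by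
    refine rpow_one_add_le_one_add_mul_self ?_ (by linarith) (by linarith)
    rw [neg_le_neg_iff, div_le_one h0]
    linarith
  have h2 : 1 + -(1 / (c + 1)) = c / (c + 1) := by
    field_simp
    ring
  rw [h2, Real.div_rpow hc h0.le, div_le_iff₀ (Real.rpow_pos_of_pos h0 _)] at h1
  have h3 : (c + 1) ^ (-θ) = (c + 1) ^ (1 - θ) * (1 / (c + 1)) := by
    rw [one_div, ← Real.rpow_neg_one (c + 1), ← Real.rpow_add h0]
    congr 1
    ring
  rw [h3]
  have h4 : (1 + (1 - θ) * -(1 / (c + 1))) * (c + 1) ^ (1 - θ)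
      = (c + 1) ^ (1 - θ) - (1 - θ) * ((c + 1) ^ (1 - θ) * (1 / (c + 1))) := by ring
  linarith

/-- `∑_{d ∈ D} d^{-θ} ≤ (#D)^{1-θ} / (1-θ)`. -/
lemma sum_rpow_le (θ : ℝ) (hθ : 0 ≤ θ) (hθ1 : θ < 1) (D : Finset ℕ) (hD : ∀ d ∈ D, 1 ≤ d) :
    ∑ d ∈ D, (d : ℝ) ^ (-θ) ≤ 1 / (1 - θ) * (D.card : ℝ) ^ (1 - θ) := by
  have h1θ : 0 < 1 - θ := by linarith
  induction D using Finset.induction_on_max with
  | empty => simp [Real.zero_rpow h1θ.ne']
  | insert a s ha ih =>
    have hs : ∀ d ∈ s, 1 ≤ d := fun d hd => hD d (Finset.mem_insert_of_mem hd)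
    have hns : a ∉ s := fun h1 => lt_irrefl a (ha a h1)
    have ha1 : 1 ≤ a := hD a (Finset.mem_insert_self a s)
    have hsub : s ⊆ Icc 1 (a - 1) := by
      intro d hd
      rw [Finset.mem_Icc]
      have h1 := hs d hd
      have h2 := ha d hd
      omega
    have hcard : s.card ≤ a - 1 := by
      have h1 := Finset.card_le_card hsub
      rw [Nat.card_Icc] at h1
      omega
    have hca : (s.card : ℝ) + 1 ≤ a := by
      have : s.card + 1 ≤ a := by omega
      exact_mod_cast this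
    have ih' := ih hs
    rw [Finset.sum_insert hns, Finset.card_insert_of_notMem hns]
    have hc0 : (0 : ℝ) ≤ s.card := Nat.cast_nonneg _
    have h3 : (a : ℝ) ^ (-θ) ≤ ((s.card : ℝ) + 1) ^ (-θ) :=
      Real.rpow_le_rpow_of_nonpos (by linarith) hca (by linarith)
    have h4 := F2_step θ (s.card : ℝ) hθ hθ1 hc0
    have h5 : 1 / (1 - θ) * ((s.card : ℝ) ^ (1 - θ) + (1 - θ) * ((s.card : ℝ) + 1) ^ (-θ))
        ≤ 1 / (1 - θ) * ((s.card : ℝ) + 1) ^ (1 - θ) :=
      mul_le_mul_of_nonneg_left h4 (by positivity)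
    have h6 : 1 / (1 - θ) * ((s.card : ℝ) ^ (1 - θ) + (1 - θ) * ((s.card : ℝ) + 1) ^ (-θ))
        = 1 / (1 - θ) * (s.card : ℝ) ^ (1 - θ) + ((s.card : ℝ) + 1) ^ (-θ) := by
      field_simp
    push_cast
    linarith

lemma F2_cn (D : Finset ℕ) (U : ℝ) (hU : 0 < U) (n : ℕ) :
    |cn D U n| ≤ ∑ d ∈ D, if d ∣ n ∧ ((n / d : ℕ) : ℝ) ≤ 2 * U then (1 : ℝ) else 0 := by
  unfold cn
  refine (Finset.abs_sum_le_sum_abs _ _).trans ?_
  rw [Finset.sum_filter]
  refine Finset.sum_le_sum fun d _ => ?_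
  by_cases hdn : d ∣ n
  · rw [if_pos hdn]
    by_cases h3 : ((n / d : ℕ) : ℝ) ≤ 2 * U
    · rw [if_pos ⟨hdn, h3⟩, abs_mul]
      have h4 : |((ArithmeticFunction.moebius d : ℤ) : ℝ)| ≤ 1 := by
        have := ArithmeticFunction.abs_moebius_le_one (n := d)
        exact_mod_cast this
      have h5 := vv_bounds (((n / d : ℕ) : ℝ) / U)
      rw [abs_of_nonneg h5.1]
      calc _ ≤ (1 : ℝ) * 1 := mul_le_mul h4 h5.2 h5.1 zero_le_one
        _ = 1 := one_mul 1
    · rw [if_neg (fun h => h3 h.2)]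
      have h6 : MC.C2.vv (((n / d : ℕ) : ℝ) / U) = 0 := by
        unfold MC.C2.vv
        refine Real.smoothTransition.zero_of_nonpos ?_
        rw [not_le] at h3
        have : 2 ≤ ((n / d : ℕ) : ℝ) / U := by
          rw [le_div_iff₀ hU]
          exact h3.le
        linarith
      rw [h6, mul_zero, abs_zero]
  · rw [if_neg hdn, if_neg (fun h => hdn h.1)]

/-- F2. The total weight. -/
lemma sum_cn (θ : ℝ) (hθ : 0 ≤ θ) (hθ1 : θ < 1) (D : Finset ℕ) (hD : ∀ d ∈ D, 1 ≤ d) (U : ℝ)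
    (hU : 1 ≤ U) (M : ℕ) :
    ∑ n ∈ Icc 1 M, |cn D U n| * (n : ℝ) ^ (-θ)
      ≤ 2 / (1 - θ) ^ 2 * ((D.card : ℝ) * U) ^ (1 - θ) := by
  have h1θ : 0 < 1 - θ := by linarith
  have hU0 : 0 < U := by linarith
  have h1 : ∀ n ∈ Icc 1 M, |cn D U n| * (n : ℝ) ^ (-θ) ≤
      ∑ d ∈ D, (if d ∣ n ∧ ((n / d : ℕ) : ℝ) ≤ 2 * U then (1 : ℝ) else 0) *
        (n : ℝ) ^ (-θ) := by
    intro n _
    rw [← Finset.sum_mul]
    exact mul_le_mul_of_nonneg_right (F2_cn D U hU0 n) (Real.rpow_nonneg (Nat.cast_nonneg n) _)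
  refine (Finset.sum_le_sum h1).trans ?_
  rw [Finset.sum_comm]
  have hT : ∑ m ∈ Icc 1 ⌊2 * U⌋₊, (m : ℝ) ^ (-θ) ≤ 1 / (1 - θ) * (2 * U) ^ (1 - θ) := by
    have h2 := sum_rpow_le θ hθ hθ1 (Icc 1 ⌊2 * U⌋₊) (fun d hd => (Finset.mem_Icc.1 hd).1)
    rw [Nat.card_Icc, Nat.add_sub_cancel] at h2
    refine h2.trans (mul_le_mul_of_nonneg_left ?_ (by positivity))
    exact Real.rpow_le_rpow (Nat.cast_nonneg _) (Nat.floor_le (by positivity)) h1θ.le
  have h2 : ∀ d ∈ D, (∑ n ∈ Icc 1 M, (if d ∣ n ∧ ((n / d : ℕ) : ℝ) ≤ 2 * U then (1 : ℝ) else 0) *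
        (n : ℝ) ^ (-θ)) ≤ (d : ℝ) ^ (-θ) * (1 / (1 - θ) * (2 * U) ^ (1 - θ)) := by
    intro d hd
    have hd1 : 1 ≤ d := hD d hd
    have h3 : (∑ n ∈ Icc 1 M, (if d ∣ n ∧ ((n / d : ℕ) : ℝ) ≤ 2 * U then (1 : ℝ) else 0) *
        (n : ℝ) ^ (-θ)) =
        ∑ n ∈ (Icc 1 M).filter (fun n => d ∣ n ∧ ((n / d : ℕ) : ℝ) ≤ 2 * U),
          (d : ℝ) ^ (-θ) * ((n / d : ℕ) : ℝ) ^ (-θ) := by
      rw [Finset.sum_filter]
      refine Finset.sum_congr rfl fun n hn => ?_
      split_ifs with h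
      · obtain ⟨⟨m, rfl⟩, -⟩ := h
        rw [one_mul, Nat.mul_div_cancel_left m (by omega)]
        push_cast
        rw [Real.mul_rpow (Nat.cast_nonneg d) (Nat.cast_nonneg m)]
      · rw [zero_mul]
    rw [h3, ← Finset.mul_sum]
    refine mul_le_mul_of_nonneg_left ?_ (Real.rpow_nonneg (Nat.cast_nonneg d) _)
    refine le_trans ?_ hT
    have hinj : Set.InjOn (fun n : ℕ => n / d)
        ((Icc 1 M).filter (fun n => d ∣ n ∧ ((n / d : ℕ) : ℝ) ≤ 2 * U) : Finset ℕ) := by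
      intro n hn n' hn' h
      rw [Finset.mem_coe, Finset.mem_filter] at hn hn'
      obtain ⟨-, ⟨m, rfl⟩, -⟩ := hn
      obtain ⟨-, ⟨m', rfl⟩, -⟩ := hn'
      have h4 : d * m / d = d * m' / d := h
      rw [Nat.mul_div_cancel_left m (by omega), Nat.mul_div_cancel_left m' (by omega)] at h4
      rw [h4]
    have h5 := Finset.sum_image (s := (Icc 1 M).filter (fun n => d ∣ n ∧ ((n / d : ℕ) : ℝ) ≤ 2 * U))
      (g := fun n : ℕ => n / d) (f := fun m : ℕ => (m : ℝ) ^ (-θ)) hinj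
    rw [← h5]
    refine Finset.sum_le_sum_of_subset_of_nonneg ?_ fun m _ _ =>
      Real.rpow_nonneg (Nat.cast_nonneg m) _
    intro m hm
    rw [Finset.mem_image] at hm
    obtain ⟨n, hn, rfl⟩ := hm
    rw [Finset.mem_filter, Finset.mem_Icc] at hn
    obtain ⟨⟨h6, -⟩, ⟨m, rfl⟩, h7⟩ := hn
    rw [Nat.mul_div_cancel_left m (by omega)] at h7 ⊢
    rw [Finset.mem_Icc]
    refine ⟨?_, Nat.le_floor h7⟩
    rcases Nat.eq_zero_or_pos m with h8 | h8
    · rw [h8] at h6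
      omega
    · exact h8
  refine (Finset.sum_le_sum h2).trans ?_
  rw [← Finset.sum_mul]
  have h3 := sum_rpow_le θ hθ hθ1 D hD
  have hU1 : 0 ≤ U ^ (1 - θ) := Real.rpow_nonneg hU0.le _
  have hD1 : 0 ≤ (D.card : ℝ) ^ (1 - θ) := Real.rpow_nonneg (Nat.cast_nonneg _) _
  have h4 : (2 * U) ^ (1 - θ) ≤ 2 * U ^ (1 - θ) := by
    rw [Real.mul_rpow (by norm_num) hU0.le]
    refine mul_le_mul_of_nonneg_right ?_ hU1
    calc (2 : ℝ) ^ (1 - θ) ≤ (2 : ℝ) ^ (1 : ℝ) :=
          Real.rpow_le_rpow_of_exponent_le (by norm_num) (by linarith)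
      _ = 2 := Real.rpow_one 2
  have h5 : 1 / (1 - θ) * (2 * U) ^ (1 - θ) ≤ 1 / (1 - θ) * (2 * U ^ (1 - θ)) :=
    mul_le_mul_of_nonneg_left h4 (by positivity)
  calc (∑ d ∈ D, (d : ℝ) ^ (-θ)) * (1 / (1 - θ) * (2 * U) ^ (1 - θ))
      ≤ (1 / (1 - θ) * (D.card : ℝ) ^ (1 - θ)) * (1 / (1 - θ) * (2 * U ^ (1 - θ))) :=
        mul_le_mul h3 h5 (by positivity) (by positivity)
    _ = 2 / (1 - θ) ^ 2 * ((D.card : ℝ) * U) ^ (1 - θ) := by
        rw [Real.mul_rpow (Nat.cast_nonneg _) hU0.le]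
        field_simp

end Pool.Agent.MY
end

section

set_option autoImplicit false

namespace Pool.Agent.MY

open Complex Finset

lemma F3_un (q n : ℕ) (h : Nat.Coprime n q) : ((un q n : (ZMod q)ˣ) : ZMod q) = (n : ZMod q) := by
  unfold un
  rw [dif_pos h, ZMod.coe_unitOfCoprime]

lemma F3_mul (q d m : ℕ) (h : Nat.Coprime (d * m) q) : un q (d * m) = un q d * un q m := by
  have h1 : Nat.Coprime d q := Nat.Coprime.coprime_mul_right h
  have h2 : Nat.Coprime m q := Nat.Coprime.coprime_mul_left h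
  apply Units.ext
  rw [Units.val_mul, F3_un q _ h, F3_un q _ h1, F3_un q _ h2]
  push_cast
  ring

lemma F3_step (θ c : ℝ) (hθ : 0 ≤ θ) (hθ1 : θ < 1) (hc : 0 ≤ c) :
    c ^ (1 - θ) + (1 - θ) * (c + 1) ^ (-θ) ≤ (c + 1) ^ (1 - θ) := by
  have h0 : 0 < c + 1 := by linarith
  have h1 : (1 + -(1 / (c + 1))) ^ (1 - θ) ≤ 1 + (1 - θ) * -(1 / (c + 1)) := by
    refine rpow_one_add_le_one_add_mul_self ?_ (by linarith) (by linarith)
    rw [neg_le_neg_iff, div_le_one h0]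
    linarith
  have h2 : 1 + -(1 / (c + 1)) = c / (c + 1) := by
    field_simp
    ring
  rw [h2, Real.div_rpow hc h0.le, div_le_iff₀ (Real.rpow_pos_of_pos h0 _)] at h1
  have h3 : (c + 1) ^ (-θ) = (c + 1) ^ (1 - θ) * (1 / (c + 1)) := by
    rw [one_div, ← Real.rpow_neg_one (c + 1), ← Real.rpow_add h0]
    congr 1
    ring
  rw [h3]
  have h4 : (1 + (1 - θ) * -(1 / (c + 1))) * (c + 1) ^ (1 - θ)
      = (c + 1) ^ (1 - θ) - (1 - θ) * ((c + 1) ^ (1 - θ) * (1 / (c + 1))) := by ring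
  linarith

open Classical in
/-- One block of `q` consecutive integers. -/
lemma F3_block (q : ℕ) [NeZero q] (B : Finset (ZMod q)ˣ) (a : (ZMod q)ˣ) (K : ℕ) :
    ((Icc (K + 1) (K + q)).filter (fun n => Nat.Coprime n q ∧ a * (un q n)⁻¹ ∈ B)).card ≤ B.card := by
  refine Finset.card_le_card_of_injOn (fun n => a * (un q n)⁻¹) ?_ ?_
  · intro n hn
    rw [Finset.mem_coe, Finset.mem_filter] at hn
    exact hn.2.2
  · have key : ∀ n n' : ℕ, K + 1 ≤ n → n' ≤ K + q → n ≤ n' → Nat.Coprime n q → Nat.Coprime n' q →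
        un q n = un q n' → n = n' := by
      intro n n' h1 h2 h3 h4 h5 h6
      have h7 : ((n : ℕ) : ZMod q) = ((n' : ℕ) : ZMod q) := by
        rw [← F3_un q n h4, ← F3_un q n' h5, h6]
      rw [ZMod.natCast_eq_natCast_iff] at h7
      have h8 : q ∣ n' - n := (Nat.modEq_iff_dvd' h3).1 h7
      have h9 : n' - n = 0 := Nat.eq_zero_of_dvd_of_lt h8 (by omega)
      omega
    intro n hn n' hn' h
    rw [Finset.mem_coe, Finset.mem_filter, Finset.mem_Icc] at hn hn'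
    have h1 : un q n = un q n' := inv_injective (mul_left_cancel h)
    rcases le_total n n' with h2 | h2
    · exact key n n' hn.1.1 hn'.1.2 h2 hn.2.1 hn'.2.1 h1
    · exact (key n' n hn'.1.1 hn.1.2 h2 hn'.2.1 hn.2.1 h1.symm).symm

open Classical in
lemma F3_sum (θ : ℝ) (hθ : 0 ≤ θ) (hθ1 : θ < 1) (q : ℕ) [NeZero q] (B : Finset (ZMod q)ˣ)
    (a : (ZMod q)ˣ) (J : ℕ) :
    ∑ n ∈ (Icc (q + 1) (q * (J + 1))).filter (fun n => Nat.Coprime n q ∧ a * (un q n)⁻¹ ∈ B),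
      (n : ℝ) ^ (-θ) ≤ 1 / (1 - θ) * B.card * ((J : ℝ) ^ (1 - θ) * (q : ℝ) ^ (-θ)) := by
  have h1θ : 0 < 1 - θ := by linarith
  have hq0 : 0 < q := Nat.pos_of_ne_zero (NeZero.ne q)
  have hqr : (0 : ℝ) < q := by exact_mod_cast hq0
  have hqθ : 0 < (q : ℝ) ^ (-θ) := Real.rpow_pos_of_pos hqr _
  induction J with
  | zero =>
    have : Icc (q + 1) (q * (0 + 1)) = ∅ := by
      rw [Finset.Icc_eq_empty]
      omega
    rw [this]
    simp [Real.zero_rpow h1θ.ne']
  | succ J ih =>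
    have hu : Icc (q + 1) (q * (J + 1 + 1)) = Icc (q + 1) (q * (J + 1)) ∪
        Icc (q * (J + 1) + 1) (q * (J + 1) + q) := by
      ext n
      have e1 : q * (J + 1 + 1) = q * (J + 1) + q := by ring
      have e2 : q ≤ q * (J + 1) := Nat.le_mul_of_pos_right q (by omega)
      rw [Finset.mem_union, Finset.mem_Icc, Finset.mem_Icc, Finset.mem_Icc, e1]
      omega
    rw [hu, Finset.filter_union]
    have hd : Disjoint ((Icc (q + 1) (q * (J + 1))).filter
          (fun n => Nat.Coprime n q ∧ a * (un q n)⁻¹ ∈ B))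
        ((Icc (q * (J + 1) + 1) (q * (J + 1) + q)).filter
          (fun n => Nat.Coprime n q ∧ a * (un q n)⁻¹ ∈ B)) := by
      rw [Finset.disjoint_left]
      intro n hn hn'
      rw [Finset.mem_filter, Finset.mem_Icc] at hn hn'
      omega
    rw [Finset.sum_union hd]
    have hJ0 : (0 : ℝ) < (J : ℝ) + 1 := by positivity
    have hz : 0 < (q : ℝ) * ((J : ℝ) + 1) := by positivity
    have hlast : ∑ n ∈ (Icc (q * (J + 1) + 1) (q * (J + 1) + q)).filter
          (fun n => Nat.Coprime n q ∧ a * (un q n)⁻¹ ∈ B), (n : ℝ) ^ (-θ) ≤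
        B.card * ((q : ℝ) * ((J : ℝ) + 1)) ^ (-θ) := by
      have h1 : ∀ n ∈ (Icc (q * (J + 1) + 1) (q * (J + 1) + q)).filter
          (fun n => Nat.Coprime n q ∧ a * (un q n)⁻¹ ∈ B),
          (n : ℝ) ^ (-θ) ≤ ((q : ℝ) * ((J : ℝ) + 1)) ^ (-θ) := by
        intro n hn
        rw [Finset.mem_filter, Finset.mem_Icc] at hn
        have h2 : (q : ℝ) * ((J : ℝ) + 1) ≤ n := by
          have : q * (J + 1) ≤ n := by omega
          exact_mod_cast this
        exact Real.rpow_le_rpow_of_nonpos hz h2 (by linarith)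
      refine (Finset.sum_le_card_nsmul _ _ _ h1).trans ?_
      rw [nsmul_eq_mul]
      refine mul_le_mul_of_nonneg_right ?_ (Real.rpow_nonneg hz.le _)
      exact_mod_cast F3_block q B a (q * (J + 1))
    rw [Real.mul_rpow hqr.le hJ0.le] at hlast
    have hb : (0 : ℝ) ≤ B.card := Nat.cast_nonneg _
    have hkey := F3_step θ (J : ℝ) hθ hθ1 (Nat.cast_nonneg _)
    have h5 : 1 / (1 - θ) * B.card * (q : ℝ) ^ (-θ) *
        ((J : ℝ) ^ (1 - θ) + (1 - θ) * ((J : ℝ) + 1) ^ (-θ))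
        ≤ 1 / (1 - θ) * B.card * (q : ℝ) ^ (-θ) * ((J : ℝ) + 1) ^ (1 - θ) :=
      mul_le_mul_of_nonneg_left hkey (by positivity)
    have h6 : 1 / (1 - θ) * B.card * (q : ℝ) ^ (-θ) *
        ((J : ℝ) ^ (1 - θ) + (1 - θ) * ((J : ℝ) + 1) ^ (-θ))
        = 1 / (1 - θ) * B.card * ((J : ℝ) ^ (1 - θ) * (q : ℝ) ^ (-θ))
          + B.card * ((q : ℝ) ^ (-θ) * ((J : ℝ) + 1) ^ (-θ)) := by
      field_simp
    push_cast
    have h7 : 1 / (1 - θ) * (B.card : ℝ) * (((J : ℝ) + 1) ^ (1 - θ) * (q : ℝ) ^ (-θ))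
        = 1 / (1 - θ) * B.card * (q : ℝ) ^ (-θ) * ((J : ℝ) + 1) ^ (1 - θ) := by ring
    rw [h7]
    linarith

open Classical in
/-- Residues of a set of classes in `(q, q J]`. -/
lemma block_sum (θ : ℝ) (hθ : 0 ≤ θ) (hθ1 : θ < 1) (q : ℕ) [NeZero q] (B : Finset (ZMod q)ˣ)
    (a : (ZMod q)ˣ) (J : ℕ) (hJ : 1 ≤ J) :
    ∑ n ∈ (Icc (q + 1) (q * J)).filter (fun n => Nat.Coprime n q ∧ a * (un q n)⁻¹ ∈ B),
      (n : ℝ) ^ (-θ) ≤ 1 / (1 - θ) * B.card * ((J : ℝ) ^ (1 - θ) * (q : ℝ) ^ (-θ)) := by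
  have h1θ : 0 < 1 - θ := by linarith
  obtain ⟨J', rfl⟩ : ∃ J', J = J' + 1 := ⟨J - 1, by omega⟩
  refine (F3_sum θ hθ hθ1 q B a J').trans ?_
  refine mul_le_mul_of_nonneg_left (mul_le_mul_of_nonneg_right ?_
    (Real.rpow_nonneg (Nat.cast_nonneg _) _)) (by positivity)
  refine Real.rpow_le_rpow (Nat.cast_nonneg _) ?_ h1θ.le
  push_cast
  linarith

open Classical in
/-- The number of `m ≤ M` in `#B` classes. -/
lemma block_count (q : ℕ) [NeZero q] (B : Finset (ZMod q)ˣ) (a : (ZMod q)ˣ) (M : ℕ) :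
    (((Icc 1 M).filter (fun n => Nat.Coprime n q ∧ a * (un q n)⁻¹ ∈ B)).card : ℝ)
      ≤ B.card * ((M : ℝ) / q + 1) := by
  have hq0 : 0 < q := Nat.pos_of_ne_zero (NeZero.ne q)
  have hqr : (0 : ℝ) < q := by exact_mod_cast hq0
  have hb : (0 : ℝ) ≤ B.card := Nat.cast_nonneg _
  induction M using Nat.strong_induction_on with
  | _ M ih =>
    rcases Nat.lt_or_ge q M with h | h
    · have hu : Icc 1 M = Icc 1 (M - q) ∪ Icc (M - q + 1) (M - q + q) := by
        ext n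
        rw [Finset.mem_union, Finset.mem_Icc, Finset.mem_Icc, Finset.mem_Icc]
        omega
      have h1 : (((Icc 1 M).filter (fun n => Nat.Coprime n q ∧ a * (un q n)⁻¹ ∈ B)).card : ℝ) ≤
          (((Icc 1 (M - q)).filter (fun n => Nat.Coprime n q ∧ a * (un q n)⁻¹ ∈ B)).card : ℝ) +
          (((Icc (M - q + 1) (M - q + q)).filter
            (fun n => Nat.Coprime n q ∧ a * (un q n)⁻¹ ∈ B)).card : ℝ) := by
        rw [hu, Finset.filter_union]
        exact_mod_cast Finset.card_union_le _ _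
      have h2 := ih (M - q) (by omega)
      have h3 : (((Icc (M - q + 1) (M - q + q)).filter
            (fun n => Nat.Coprime n q ∧ a * (un q n)⁻¹ ∈ B)).card : ℝ) ≤ B.card := by
        exact_mod_cast F3_block q B a (M - q)
      have h4 : ((M - q : ℕ) : ℝ) = (M : ℝ) - q := by rw [Nat.cast_sub h.le]
      rw [h4] at h2
      have h5 : ((M : ℝ) - q) / q + 1 = (M : ℝ) / q := by
        field_simp
        ring
      rw [h5] at h2
      nlinarith
    · have h1 : ((Icc 1 M).filter (fun n => Nat.Coprime n q ∧ a * (un q n)⁻¹ ∈ B)).card ≤ B.card := by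
        refine le_trans (Finset.card_le_card ?_) (F3_block q B a 0)
        refine Finset.filter_subset_filter _ ?_
        refine Finset.Icc_subset_Icc (by omega) (by omega)
      have h2 : (((Icc 1 M).filter (fun n => Nat.Coprime n q ∧ a * (un q n)⁻¹ ∈ B)).card : ℝ) ≤
          B.card := by exact_mod_cast h1
      have h3 : 0 ≤ (M : ℝ) / q := by positivity
      nlinarith

open Classical in
/-- F3. The weight of the far terms in the classes of `B`. -/
lemma sum_far (θ : ℝ) (hθ : 0 ≤ θ) (hθ1 : θ < 1) (q : ℕ) [NeZero q] (hq : 2 ≤ q)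
    (B : Finset (ZMod q)ˣ) (hB : 1 ≤ B.card)
    (a : (ZMod q)ˣ) (D : Finset ℕ) (hD : ∀ d ∈ D, 1 ≤ d ∧ d ≤ q) (U : ℝ) (hU : (q : ℝ) ≤ U) (M : ℕ)
    (E : ℝ) (hE : ∀ n : ℕ, 1 ≤ n → n ≤ q ^ 2 → (n.divisors.card : ℝ) ≤ E) :
    ∑ n ∈ (Icc (q + 1) M).filter (fun n => Nat.Coprime n q ∧ a * (un q n)⁻¹ ∈ B),
      |cn D U n| * (n : ℝ) ^ (-θ)
      ≤ 1 / (1 - θ) * E * (B.card : ℝ) ^ (2 - θ) / (q : ℝ) ^ θ
        + D.card * B.card * (2 * U / q + 1) / ((B.card : ℝ) * q) ^ θ := by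
  have h1θ : 0 < 1 - θ := by linarith
  have hq0 : 0 < q := Nat.pos_of_ne_zero (NeZero.ne q)
  have hqr : (0 : ℝ) < q := by exact_mod_cast hq0
  have hbr : (1 : ℝ) ≤ B.card := by exact_mod_cast hB
  have hE0 : 0 ≤ E := by
    have := hE 1 le_rfl (Nat.one_le_pow _ _ hq0)
    have h2 : (0 : ℝ) ≤ ((1 : ℕ).divisors.card : ℝ) := Nat.cast_nonneg _
    linarith
  have hU0 : 0 < U := by linarith
  have hbq : B.card ≤ q := by
    have h1 : B.card ≤ Fintype.card (ZMod q)ˣ := Finset.card_le_univ B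
    rw [ZMod.card_units_eq_totient] at h1
    exact h1.trans (Nat.totient_le q)
  set F := (Icc (q + 1) M).filter (fun n => Nat.Coprime n q ∧ a * (un q n)⁻¹ ∈ B) with hF
  have hterm0 : ∀ n : ℕ, 0 ≤ |cn D U n| * (n : ℝ) ^ (-θ) := fun n => by positivity
  rw [← Finset.sum_filter_add_sum_filter_not F (fun n => n ≤ q * B.card)]
  refine add_le_add ?_ ?_
  · -- the near terms
    have hsub : F.filter (fun n => n ≤ q * B.card) ⊆
        (Icc (q + 1) (q * B.card)).filter (fun n => Nat.Coprime n q ∧ a * (un q n)⁻¹ ∈ B) := by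
      intro n hn
      rw [Finset.mem_filter, hF, Finset.mem_filter, Finset.mem_Icc] at hn
      rw [Finset.mem_filter, Finset.mem_Icc]
      exact ⟨⟨hn.1.1.1, hn.2⟩, hn.1.2⟩
    refine (Finset.sum_le_sum_of_subset_of_nonneg hsub fun n _ _ => hterm0 n).trans ?_
    have h1 : ∀ n ∈ (Icc (q + 1) (q * B.card)).filter
        (fun n => Nat.Coprime n q ∧ a * (un q n)⁻¹ ∈ B),
        |cn D U n| * (n : ℝ) ^ (-θ) ≤ E * (n : ℝ) ^ (-θ) := by
      intro n hn
      rw [Finset.mem_filter, Finset.mem_Icc] at hn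
      refine mul_le_mul_of_nonneg_right ?_ (by positivity)
      have hn1 : 1 ≤ n := by omega
      refine (cn_le D U n hn1).trans (hE n hn1 ?_)
      calc n ≤ q * B.card := hn.1.2
        _ ≤ q * q := Nat.mul_le_mul_left q hbq
        _ = q ^ 2 := by ring
    refine (Finset.sum_le_sum h1).trans ?_
    rw [← Finset.mul_sum]
    have h2 := mul_le_mul_of_nonneg_left (block_sum θ hθ hθ1 q B a B.card hB) hE0
    refine h2.trans (le_of_eq ?_)
    have hb0 : (0 : ℝ) < B.card := by linarith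
    have e1 : (B.card : ℝ) ^ (2 - θ) = B.card * (B.card : ℝ) ^ (1 - θ) := by
      have : (2 - θ : ℝ) = 1 + (1 - θ) := by ring
      rw [this, Real.rpow_add hb0, Real.rpow_one]
    rw [e1, Real.rpow_neg hqr.le]
    ring
  · -- the far terms
    set F2 := F.filter (fun n => ¬ n ≤ q * B.card) with hF2
    have hz : 0 < (B.card : ℝ) * q := by positivity
    have h1 : ∀ n ∈ F2, |cn D U n| * (n : ℝ) ^ (-θ) ≤
        (∑ d ∈ D, if d ∣ n ∧ ((n / d : ℕ) : ℝ) ≤ 2 * U then (1 : ℝ) else 0) *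
          (1 / ((B.card : ℝ) * q) ^ θ) := by
      intro n hn
      rw [hF2, Finset.mem_filter] at hn
      refine mul_le_mul ?_ ?_ (by positivity) (Finset.sum_nonneg fun d _ => by
        split_ifs
        · exact zero_le_one
        · exact le_rfl)
      · unfold cn
        refine (Finset.abs_sum_le_sum_abs _ _).trans ?_
        rw [Finset.sum_filter]
        refine Finset.sum_le_sum fun d _ => ?_
        by_cases hdn : d ∣ n
        · rw [if_pos hdn]
          by_cases h3 : ((n / d : ℕ) : ℝ) ≤ 2 * U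
          · rw [if_pos ⟨hdn, h3⟩, abs_mul]
            have h4 : |((ArithmeticFunction.moebius d : ℤ) : ℝ)| ≤ 1 := by
              have := ArithmeticFunction.abs_moebius_le_one (n := d)
              exact_mod_cast this
            have h5 := vv_bounds (((n / d : ℕ) : ℝ) / U)
            rw [abs_of_nonneg h5.1]
            calc _ ≤ (1 : ℝ) * 1 := mul_le_mul h4 h5.2 h5.1 zero_le_one
              _ = 1 := one_mul 1
          · rw [if_neg (fun h => h3 h.2)]
            have h6 : MC.C2.vv (((n / d : ℕ) : ℝ) / U) = 0 := by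
              unfold MC.C2.vv
              refine Real.smoothTransition.zero_of_nonpos ?_
              rw [not_le] at h3
              have : 2 ≤ ((n / d : ℕ) : ℝ) / U := by
                rw [le_div_iff₀ hU0]
                exact h3.le
              linarith
            rw [h6, mul_zero, abs_zero]
        · rw [if_neg hdn, if_neg (fun h => hdn h.1)]
      · have h3 : (B.card : ℝ) * q ≤ n := by
          have h4 : q * B.card ≤ n := by omega
          have h5 : ((q * B.card : ℕ) : ℝ) ≤ n := by exact_mod_cast h4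
          push_cast at h5
          linarith
        rw [Real.rpow_neg (Nat.cast_nonneg n), one_div (((B.card : ℝ) * q) ^ θ)]
        exact inv_anti₀ (Real.rpow_pos_of_pos hz _) (Real.rpow_le_rpow hz.le h3 hθ)
    refine (Finset.sum_le_sum h1).trans ?_
    rw [← Finset.sum_mul, Finset.sum_comm]
    have h2 : ∀ d ∈ D, (∑ n ∈ F2, if d ∣ n ∧ ((n / d : ℕ) : ℝ) ≤ 2 * U then (1 : ℝ) else 0) ≤
        B.card * (2 * U / q + 1) := by
      intro d hd
      rw [← Finset.sum_filter, Finset.sum_const, nsmul_eq_mul, mul_one]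
      have hd1 := (hD d hd).1
      have h3 : (F2.filter (fun n => d ∣ n ∧ ((n / d : ℕ) : ℝ) ≤ 2 * U)).card ≤
          ((Icc 1 ⌊2 * U⌋₊).filter (fun m => Nat.Coprime m q ∧ (a * (un q d)⁻¹) * (un q m)⁻¹ ∈ B)).card := by
        refine Finset.card_le_card_of_injOn (fun n => n / d) ?_ ?_
        · intro n hn
          rw [Finset.mem_coe, Finset.mem_filter, hF2, Finset.mem_filter, hF, Finset.mem_filter,
            Finset.mem_Icc] at hn
          obtain ⟨⟨⟨⟨h4, h5⟩, h6, h7⟩, h8⟩, ⟨m, rfl⟩, h9⟩ := hn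
          rw [Nat.mul_div_cancel_left m (by omega)] at h9
          rw [Finset.mem_coe, Finset.mem_filter, Finset.mem_Icc]
          show (1 ≤ d * m / d ∧ d * m / d ≤ ⌊2 * U⌋₊) ∧ Nat.Coprime (d * m / d) q ∧
            (a * (un q d)⁻¹) * (un q (d * m / d))⁻¹ ∈ B
          rw [Nat.mul_div_cancel_left m (by omega)]
          have h6' : Nat.Coprime m q := Nat.Coprime.coprime_mul_left h6
          refine ⟨⟨?_, Nat.le_floor h9⟩, ?_, ?_⟩
          · rcases Nat.eq_zero_or_pos m with h10 | h10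
            · rw [h10] at h4
              omega
            · exact h10
          · exact h6'
          · rw [F3_mul q d m h6, mul_inv] at h7
            rw [mul_assoc]
            exact h7
        · intro n hn n' hn' h
          rw [Finset.mem_coe, Finset.mem_filter] at hn hn'
          obtain ⟨-, ⟨m, rfl⟩, -⟩ := hn
          obtain ⟨-, ⟨m', rfl⟩, -⟩ := hn'
          have h4 : d * m / d = d * m' / d := h
          rw [Nat.mul_div_cancel_left m (by omega), Nat.mul_div_cancel_left m' (by omega)] at h4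
          rw [h4]
      have h4 := block_count q B (a * (un q d)⁻¹) ⌊2 * U⌋₊
      have h5 : ((F2.filter (fun n => d ∣ n ∧ ((n / d : ℕ) : ℝ) ≤ 2 * U)).card : ℝ) ≤
          (((Icc 1 ⌊2 * U⌋₊).filter
            (fun m => Nat.Coprime m q ∧ (a * (un q d)⁻¹) * (un q m)⁻¹ ∈ B)).card : ℝ) := by
        exact_mod_cast h3
      refine h5.trans (h4.trans ?_)
      refine mul_le_mul_of_nonneg_left ?_ (Nat.cast_nonneg _)
      have h6 : ((⌊2 * U⌋₊ : ℕ) : ℝ) ≤ 2 * U := Nat.floor_le (by positivity)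
      have h7 : ((⌊2 * U⌋₊ : ℕ) : ℝ) / q ≤ 2 * U / q := div_le_div_of_nonneg_right h6 hqr.le
      linarith
    have h3 : (∑ d ∈ D, ∑ n ∈ F2, if d ∣ n ∧ ((n / d : ℕ) : ℝ) ≤ 2 * U then (1 : ℝ) else 0) ≤
        D.card * (B.card * (2 * U / q + 1)) := by
      refine (Finset.sum_le_sum h2).trans ?_
      rw [Finset.sum_const, nsmul_eq_mul]
    have h4 := mul_le_mul_of_nonneg_right h3
      (by positivity : 0 ≤ 1 / ((B.card : ℝ) * q) ^ θ)
    refine h4.trans (le_of_eq ?_)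
    ring

end Pool.Agent.MY
end

section

set_option autoImplicit false

namespace Pool.Agent.MZ

open Complex Finset MY

open Classical in
/-- the classes of `G`, inverted -/
lemma Q2_inv (q : ℕ) [NeZero q] (G : Finset (ZMod q)ˣ) (n : ℕ) :
    1 * (un q n)⁻¹ ∈ G.image (fun g => g⁻¹) ↔ un q n ∈ G := by
  rw [one_mul, Finset.mem_image]
  constructor
  · rintro ⟨g, hg, h⟩
    have : g = un q n := inv_injective h
    rwa [← this]
  · intro h
    exact ⟨un q n, h, rfl⟩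

open Classical in
/-- the number of `n` in one class with `d ∣ n`, `n / d ≤ 2 U` -/
lemma Q2_count (q : ℕ) [NeZero q] (F : Finset ℕ) (hF : ∀ n ∈ F, 1 ≤ n ∧ Nat.Coprime n q)
    (g : (ZMod q)ˣ) (d : ℕ) (hd1 : 1 ≤ d) (U : ℝ) (hU : 0 ≤ U) :
    ((F.filter (fun n => un q n = g ∧ (d ∣ n ∧ ((n / d : ℕ) : ℝ) ≤ 2 * U))).card : ℝ)
      ≤ 2 * U / q + 1 := by
  have hq0 : 0 < q := Nat.pos_of_ne_zero (NeZero.ne q)
  have hqr : (0 : ℝ) < q := by exact_mod_cast hq0
  have h3 : (F.filter (fun n => un q n = g ∧ (d ∣ n ∧ ((n / d : ℕ) : ℝ) ≤ 2 * U))).card ≤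
      ((Icc 1 ⌊2 * U⌋₊).filter (fun m => Nat.Coprime m q ∧
        (g * (un q d)⁻¹) * (un q m)⁻¹ ∈ ({1} : Finset (ZMod q)ˣ))).card := by
    refine Finset.card_le_card_of_injOn (fun n => n / d) ?_ ?_
    · intro n hn
      rw [Finset.mem_coe, Finset.mem_filter] at hn
      obtain ⟨hnF, hng, ⟨m, rfl⟩, h9⟩ := hn
      obtain ⟨h4, h6⟩ := hF _ hnF
      rw [Nat.mul_div_cancel_left m (by omega)] at h9
      rw [Finset.mem_coe, Finset.mem_filter, Finset.mem_Icc]
      show (1 ≤ d * m / d ∧ d * m / d ≤ ⌊2 * U⌋₊) ∧ Nat.Coprime (d * m / d) q ∧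
        (g * (un q d)⁻¹) * (un q (d * m / d))⁻¹ ∈ ({1} : Finset (ZMod q)ˣ)
      rw [Nat.mul_div_cancel_left m (by omega)]
      have h6' : Nat.Coprime m q := Nat.Coprime.coprime_mul_left h6
      refine ⟨⟨?_, Nat.le_floor h9⟩, h6', ?_⟩
      · rcases Nat.eq_zero_or_pos m with h10 | h10
        · rw [h10] at h4
          omega
        · exact h10
      · rw [Finset.mem_singleton, ← hng, F3_mul q d m h6, mul_comm (un q d) (un q m), mul_assoc,
          mul_assoc, mul_inv_cancel_left, mul_inv_cancel]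
    · intro n hn n' hn' h
      rw [Finset.mem_coe, Finset.mem_filter] at hn hn'
      obtain ⟨-, -, ⟨m, rfl⟩, -⟩ := hn
      obtain ⟨-, -, ⟨m', rfl⟩, -⟩ := hn'
      have h4 : d * m / d = d * m' / d := h
      rw [Nat.mul_div_cancel_left m (by omega), Nat.mul_div_cancel_left m' (by omega)] at h4
      rw [h4]
  have h4 := block_count q ({1} : Finset (ZMod q)ˣ) (g * (un q d)⁻¹) ⌊2 * U⌋₊
  have h5 : ((F.filter (fun n => un q n = g ∧ (d ∣ n ∧ ((n / d : ℕ) : ℝ) ≤ 2 * U))).card : ℝ) ≤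
      (((Icc 1 ⌊2 * U⌋₊).filter (fun m => Nat.Coprime m q ∧
        (g * (un q d)⁻¹) * (un q m)⁻¹ ∈ ({1} : Finset (ZMod q)ˣ))).card : ℝ) := by
    exact_mod_cast h3
  refine h5.trans (h4.trans ?_)
  rw [Finset.card_singleton, Nat.cast_one, one_mul]
  have h6 : ((⌊2 * U⌋₊ : ℕ) : ℝ) ≤ 2 * U := Nat.floor_le (by positivity)
  have h7 : ((⌊2 * U⌋₊ : ℕ) : ℝ) / q ≤ 2 * U / q := div_le_div_of_nonneg_right h6 hqr.le
  linarith

open Classical in
/-- Q2. Far sums with a mollifier that depends on the class (as `MY.sum_far`, `θ = 1/2`). -/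
lemma far_gen (q : ℕ) [NeZero q] (hq : 2 ≤ q) (G : Finset (ZMod q)ˣ) (hG : 1 ≤ G.card)
    (D : (ZMod q)ˣ → Finset ℕ) (hD : ∀ g, ∀ d ∈ D g, 1 ≤ d ∧ d ≤ q) (Dm : ℝ)
    (hDm : ∀ g, ((D g).card : ℝ) ≤ Dm) (U : ℝ) (hU : (q : ℝ) ≤ U) (M : ℕ) (E : ℝ)
    (hE : ∀ n : ℕ, 1 ≤ n → n ≤ q ^ 2 → (n.divisors.card : ℝ) ≤ E) :
    ∑ n ∈ (Icc (q + 1) M).filter (fun n => Nat.Coprime n q ∧ un q n ∈ G),
      |cn (D (un q n)) U n| * (n : ℝ) ^ (-(1 / 2) : ℝ)
      ≤ 2 * E * (G.card : ℝ) ^ (3 / 2 : ℝ) / (q : ℝ) ^ (1 / 2 : ℝ)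
        + Dm * G.card * (2 * U / q + 1) / ((G.card : ℝ) * q) ^ (1 / 2 : ℝ) := by
  have hq0 : 0 < q := Nat.pos_of_ne_zero (NeZero.ne q)
  have hqr : (0 : ℝ) < q := by exact_mod_cast hq0
  have hbr : (1 : ℝ) ≤ G.card := by exact_mod_cast hG
  have hE0 : 0 ≤ E := by
    have := hE 1 le_rfl (Nat.one_le_pow _ _ hq0)
    have h2 : (0 : ℝ) ≤ ((1 : ℕ).divisors.card : ℝ) := Nat.cast_nonneg _
    linarith
  have hU0 : 0 < U := by linarith
  have hbq : G.card ≤ q := by
    have h1 : G.card ≤ Fintype.card (ZMod q)ˣ := Finset.card_le_univ G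
    rw [ZMod.card_units_eq_totient] at h1
    exact h1.trans (Nat.totient_le q)
  set F := (Icc (q + 1) M).filter (fun n => Nat.Coprime n q ∧ un q n ∈ G) with hF
  have hterm0 : ∀ n : ℕ, 0 ≤ |cn (D (un q n)) U n| * (n : ℝ) ^ (-(1 / 2) : ℝ) :=
    fun n => by positivity
  rw [← Finset.sum_filter_add_sum_filter_not F (fun n => n ≤ q * G.card)]
  refine add_le_add ?_ ?_
  · -- the near terms
    set G' : Finset (ZMod q)ˣ := G.image (fun g => g⁻¹) with hG'
    have hG'c : G'.card = G.card := Finset.card_image_of_injective _ inv_injective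
    have hsub : F.filter (fun n => n ≤ q * G.card) ⊆
        (Icc (q + 1) (q * G.card)).filter (fun n => Nat.Coprime n q ∧ 1 * (un q n)⁻¹ ∈ G') := by
      intro n hn
      rw [Finset.mem_filter, hF, Finset.mem_filter, Finset.mem_Icc] at hn
      rw [Finset.mem_filter, Finset.mem_Icc]
      exact ⟨⟨hn.1.1.1, hn.2⟩, hn.1.2.1, (Q2_inv q G n).2 hn.1.2.2⟩
    refine (Finset.sum_le_sum_of_subset_of_nonneg hsub fun n _ _ => hterm0 n).trans ?_
    have h1 : ∀ n ∈ (Icc (q + 1) (q * G.card)).filter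
        (fun n => Nat.Coprime n q ∧ 1 * (un q n)⁻¹ ∈ G'),
        |cn (D (un q n)) U n| * (n : ℝ) ^ (-(1 / 2) : ℝ) ≤ E * (n : ℝ) ^ (-(1 / 2) : ℝ) := by
      intro n hn
      rw [Finset.mem_filter, Finset.mem_Icc] at hn
      refine mul_le_mul_of_nonneg_right ?_ (by positivity)
      have hn1 : 1 ≤ n := by omega
      refine (cn_le _ U n hn1).trans (hE n hn1 ?_)
      calc n ≤ q * G.card := hn.1.2
        _ ≤ q * q := Nat.mul_le_mul_left q hbq
        _ = q ^ 2 := by ring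
    refine (Finset.sum_le_sum h1).trans ?_
    rw [← Finset.mul_sum]
    have h2 := mul_le_mul_of_nonneg_left
      (block_sum (1 / 2) (by norm_num) (by norm_num) q G' 1 G.card hG) hE0
    refine h2.trans (le_of_eq ?_)
    rw [hG'c]
    have hb0 : (0 : ℝ) < G.card := by linarith
    have e1 : (G.card : ℝ) ^ (3 / 2 : ℝ) = G.card * (G.card : ℝ) ^ (1 - 1 / 2 : ℝ) := by
      have : (3 / 2 : ℝ) = 1 + (1 - 1 / 2) := by norm_num
      rw [this, Real.rpow_add hb0, Real.rpow_one]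
    rw [e1, Real.rpow_neg hqr.le]
    ring
  · -- the far terms
    set F2 := F.filter (fun n => ¬ n ≤ q * G.card) with hF2
    have hz : 0 < (G.card : ℝ) * q := by positivity
    have hF2p : ∀ n ∈ F2, 1 ≤ n ∧ Nat.Coprime n q := by
      intro n hn
      rw [hF2, Finset.mem_filter, hF, Finset.mem_filter, Finset.mem_Icc] at hn
      exact ⟨by omega, hn.1.2.1⟩
    have h1 : ∀ n ∈ F2, |cn (D (un q n)) U n| * (n : ℝ) ^ (-(1 / 2) : ℝ) ≤
        (∑ d ∈ D (un q n), if d ∣ n ∧ ((n / d : ℕ) : ℝ) ≤ 2 * U then (1 : ℝ) else 0) *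
          (1 / ((G.card : ℝ) * q) ^ (1 / 2 : ℝ)) := by
      intro n hn
      rw [hF2, Finset.mem_filter] at hn
      refine mul_le_mul (F2_cn _ U hU0 n) ?_ (by positivity) (Finset.sum_nonneg fun d _ => by
        split_ifs
        · exact zero_le_one
        · exact le_rfl)
      have h3 : (G.card : ℝ) * q ≤ n := by
        have h4 : q * G.card ≤ n := by omega
        have h5 : ((q * G.card : ℕ) : ℝ) ≤ n := by exact_mod_cast h4
        push_cast at h5
        linarith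
      rw [Real.rpow_neg (Nat.cast_nonneg n), one_div (((G.card : ℝ) * q) ^ (1 / 2 : ℝ))]
      exact inv_anti₀ (Real.rpow_pos_of_pos hz _) (Real.rpow_le_rpow hz.le h3 (by norm_num))
    refine (Finset.sum_le_sum h1).trans ?_
    rw [← Finset.sum_mul]
    have hmaps : ∀ n ∈ F2, un q n ∈ G := by
      intro n hn
      rw [hF2, Finset.mem_filter, hF, Finset.mem_filter] at hn
      exact hn.1.2.2
    rw [← Finset.sum_fiberwise_of_maps_to hmaps]
    have h2 : ∀ g ∈ G, (∑ n ∈ F2.filter (fun n => un q n = g),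
        ∑ d ∈ D (un q n), if d ∣ n ∧ ((n / d : ℕ) : ℝ) ≤ 2 * U then (1 : ℝ) else 0) ≤
        Dm * (2 * U / q + 1) := by
      intro g _
      have e1 : (∑ n ∈ F2.filter (fun n => un q n = g),
          ∑ d ∈ D (un q n), if d ∣ n ∧ ((n / d : ℕ) : ℝ) ≤ 2 * U then (1 : ℝ) else 0) =
          ∑ d ∈ D g, ((F2.filter (fun n => un q n = g ∧
            (d ∣ n ∧ ((n / d : ℕ) : ℝ) ≤ 2 * U))).card : ℝ) := by
        have e2 : (∑ n ∈ F2.filter (fun n => un q n = g),
            ∑ d ∈ D (un q n), if d ∣ n ∧ ((n / d : ℕ) : ℝ) ≤ 2 * U then (1 : ℝ) else 0) =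
            ∑ n ∈ F2.filter (fun n => un q n = g),
            ∑ d ∈ D g, if d ∣ n ∧ ((n / d : ℕ) : ℝ) ≤ 2 * U then (1 : ℝ) else 0 := by
          refine Finset.sum_congr rfl fun n hn => ?_
          rw [(Finset.mem_filter.1 hn).2]
        rw [e2, Finset.sum_comm]
        refine Finset.sum_congr rfl fun d _ => ?_
        rw [← Finset.sum_filter, Finset.sum_const, nsmul_eq_mul, mul_one, Finset.filter_filter]
      rw [e1]
      have hpos : 0 ≤ 2 * U / q + 1 := by positivity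
      calc ∑ d ∈ D g, ((F2.filter (fun n => un q n = g ∧
            (d ∣ n ∧ ((n / d : ℕ) : ℝ) ≤ 2 * U))).card : ℝ)
          ≤ ∑ _d ∈ D g, (2 * U / q + 1) :=
            Finset.sum_le_sum fun d hd => Q2_count q F2 hF2p g d (hD g d hd).1 U hU0.le
        _ = (D g).card * (2 * U / q + 1) := by rw [Finset.sum_const, nsmul_eq_mul]
        _ ≤ Dm * (2 * U / q + 1) := mul_le_mul_of_nonneg_right (hDm g) hpos
    have h3 : (∑ g ∈ G, ∑ n ∈ F2.filter (fun n => un q n = g),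
        ∑ d ∈ D (un q n), if d ∣ n ∧ ((n / d : ℕ) : ℝ) ≤ 2 * U then (1 : ℝ) else 0) ≤
        G.card * (Dm * (2 * U / q + 1)) := by
      refine (Finset.sum_le_sum h2).trans ?_
      rw [Finset.sum_const, nsmul_eq_mul]
    have h4 := mul_le_mul_of_nonneg_right h3
      (by positivity : 0 ≤ 1 / ((G.card : ℝ) * q) ^ (1 / 2 : ℝ))
    refine h4.trans (le_of_eq ?_)
    ring

end Pool.Agent.MZ
end
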