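import Mathlib
import Pool.Agent.Lib.MP_9cfc0a_nt.MY.Defs
import Pool.Agent.Lib.MP_9cfc0a_nt.Mg.G023

section

set_option autoImplicit false

namespace Pool.Agent.MY

open Complex Finset

lemma gi_one (s : ℂ) (i : ℕ) : gi s i 1 = if i = 0 then 1 else 0 := by
  unfold gi
  split_ifs with h
  · subst h; simp
  · simp [h]

lemma gi_norm (s : ℂ) (hs : s.re = 2) (i : ℕ) (y : ℝ) (hy : 1 ≤ y) :
    ‖gi s i y‖ = (Real.log y) ^ i / (i.factorial : ℝ) / y ^ 2 := by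
  have hy0 : 0 < y := by linarith
  have hl : 0 ≤ Real.log y := Real.log_nonneg hy
  unfold gi
  rw [norm_mul, Complex.norm_cpow_eq_rpow_re_of_pos hy0, Complex.norm_real, Complex.neg_re, hs,
    Real.norm_eq_abs, abs_div, abs_pow, abs_neg, abs_of_nonneg hl, Nat.abs_cast]
  rw [show (-2 : ℝ) = -((2 : ℕ) : ℝ) by norm_num, Real.rpow_neg hy0.le, Real.rpow_natCast]
  ring

lemma gi_conv (s : ℂ) (x y : ℝ) (hx : 0 < x) (hy : 0 < y) (k : ℕ) :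
    ∑ i ∈ range (k + 1), gi s i x * gi s (k - i) y = gi s k (x * y) := by
  unfold gi
  have h1 : ((x * y : ℝ) : ℂ) ^ (-s) = (x : ℂ) ^ (-s) * (y : ℂ) ^ (-s) := by
    rw [Complex.ofReal_mul, Complex.mul_cpow_ofReal_nonneg hx.le hy.le]
  rw [h1, Real.log_mul hx.ne' hy.ne', neg_add, add_pow]
  push_cast
  rw [Finset.sum_div, Finset.mul_sum]
  refine sum_congr rfl fun i hi => ?_
  have hik : i ≤ k := by
    have := mem_range.mp hi
    omega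
  have h2 : (k.factorial : ℂ) = (k.choose i : ℂ) * (i.factorial : ℂ) * ((k - i).factorial : ℂ) := by
    exact_mod_cast (Nat.choose_mul_factorial_mul_factorial hik).symm
  have h3 : (i.factorial : ℂ) ≠ 0 := by exact_mod_cast i.factorial_ne_zero
  have h4 : ((k - i).factorial : ℂ) ≠ 0 := by exact_mod_cast (k - i).factorial_ne_zero
  have h5 : (k.choose i : ℂ) ≠ 0 := by exact_mod_cast (Nat.choose_pos hik).ne'
  rw [h2]
  field_simp

lemma A1_iter (n : ℕ) (hn : 1 ≤ n) (i : ℕ) :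
    iteratedDeriv i (fun z : ℂ => (n : ℂ) ^ (-z)) = fun z => (-(Real.log n : ℂ)) ^ i * (n : ℂ) ^ (-z) := by
  have hn0 : (n : ℂ) ≠ 0 := by exact_mod_cast (by omega : n ≠ 0)
  induction i with
  | zero => funext z; simp
  | succ i ih =>
    funext z
    rw [iteratedDeriv_succ, ih]
    have h1 : HasDerivAt (fun z : ℂ => (n : ℂ) ^ (-z)) ((n : ℂ) ^ (-z) * Complex.log n * (-1)) z := by
      have h2 := (hasDerivAt_neg z).const_cpow (c := (n : ℂ)) (.inl hn0)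
      exact h2
    have h3 := (h1.const_mul ((-(Real.log n : ℂ)) ^ i)).deriv
    rw [h3, pow_succ, Complex.natCast_log]
    ring

/-- A1. Leibniz with `n^{-z}`. -/
lemma TC_shift (F : ℂ → ℂ) (s : ℂ) (hF : AnalyticAt ℂ F s) (n : ℕ) (hn : 1 ≤ n) (k : ℕ) :
    TC (fun z => (n : ℂ) ^ (-z) * F z) s k = ∑ i ∈ range (k + 1), gi s i n * TC F s (k - i) := by
  have hn0 : (n : ℂ) ≠ 0 := by exact_mod_cast (by omega : n ≠ 0)
  have h1 : ContDiffAt ℂ k (fun z : ℂ => (n : ℂ) ^ (-z)) s := by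
    have h2 : Differentiable ℂ (fun z : ℂ => (n : ℂ) ^ (-z)) := fun z =>
      ((hasDerivAt_neg z).const_cpow (c := (n : ℂ)) (.inl hn0)).differentiableAt
    exact (h2.contDiff (n := k)).contDiffAt
  have h2 : ContDiffAt ℂ k F s := hF.contDiffAt.of_le le_top
  unfold TC
  have h3 := iteratedDeriv_mul h1 h2
  have h4 : (fun z => (n : ℂ) ^ (-z) * F z) = (fun z : ℂ => (n : ℂ) ^ (-z)) * F := rfl
  rw [h4, h3, Finset.sum_div]
  refine sum_congr rfl fun i hi => ?_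
  have hik : i ≤ k := by
    have := mem_range.mp hi
    omega
  rw [A1_iter n hn i]
  unfold gi
  have h5 : (k.factorial : ℂ) = (k.choose i : ℂ) * (i.factorial : ℂ) * ((k - i).factorial : ℂ) := by
    exact_mod_cast (Nat.choose_mul_factorial_mul_factorial hik).symm
  have h6 : (i.factorial : ℂ) ≠ 0 := by exact_mod_cast i.factorial_ne_zero
  have h7 : ((k - i).factorial : ℂ) ≠ 0 := by exact_mod_cast (k - i).factorial_ne_zero
  have h8 : (k.choose i : ℂ) ≠ 0 := by exact_mod_cast (Nat.choose_pos hik).ne'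
  rw [h5]
  push_cast
  field_simp

lemma TC_sum {ι : Type*} (I : Finset ι) (c : ι → ℂ) (F : ι → ℂ → ℂ) (s : ℂ)
    (hF : ∀ i ∈ I, AnalyticAt ℂ (F i) s) (k : ℕ) :
    TC (fun z => ∑ i ∈ I, c i * F i z) s k = ∑ i ∈ I, c i * TC (F i) s k := by
  classical
  unfold TC
  have h1 : iteratedDeriv k (fun z => ∑ i ∈ I, c i * F i z) s
      = ∑ i ∈ I, c i * iteratedDeriv k (F i) s := by
    have h2 : (fun z => ∑ i ∈ I, c i * F i z) = ∑ i ∈ I, fun z => c i * F i z := by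
      funext z
      rw [Finset.sum_apply]
    rw [h2, iteratedDeriv_sum (fun i hi => ?_)]
    · refine sum_congr rfl fun i hi => ?_
      rw [iteratedDeriv_const_mul_field]
    · exact ((hF i hi).contDiffAt.of_le le_top).const_smul (c i)
  rw [h1, Finset.sum_div]
  refine sum_congr rfl fun i _ => ?_
  ring

end Pool.Agent.MY
end

section

set_option autoImplicit false

namespace Pool.Agent.MZ

open Complex Finset MY

/-- The size of `g_i(d)`. -/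
lemma X2_gi (s : ℂ) (hs : s.re = 2) (i d : ℕ) (hd : 1 ≤ d) :
    ‖gi s i d‖ ≤ (2 / 3 : ℝ) ^ i * (d : ℝ) ^ (-(1 / 2) : ℝ) := by
  have hd1 : (1 : ℝ) ≤ d := by exact_mod_cast hd
  have hd0 : (0 : ℝ) < d := by linarith
  have hl : 0 ≤ Real.log d := Real.log_nonneg hd1
  rw [gi_norm s hs i d hd1]
  have h1 : (3 / 2 * Real.log d) ^ i / (i.factorial : ℝ) ≤ (d : ℝ) ^ (3 / 2 : ℝ) := by
    have h2 := Real.pow_div_factorial_le_exp (3 / 2 * Real.log d) (by positivity) i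
    refine h2.trans (le_of_eq ?_)
    rw [Real.rpow_def_of_pos hd0, mul_comm]
  have h3 : (Real.log d) ^ i / (i.factorial : ℝ) / (d : ℝ) ^ 2
      = (2 / 3 : ℝ) ^ i * ((3 / 2 * Real.log d) ^ i / (i.factorial : ℝ)) / (d : ℝ) ^ 2 := by
    have h4 : (Real.log d) ^ i = (2 / 3 : ℝ) ^ i * (3 / 2 * Real.log d) ^ i := by
      rw [← mul_pow]
      congr 1
      ring
    rw [h4]
    ring
  rw [h3, mul_div_assoc]
  refine mul_le_mul_of_nonneg_left ?_ (by positivity)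
  rw [div_le_iff₀ (by positivity)]
  refine h1.trans (le_of_eq ?_)
  rw [← Real.rpow_natCast, ← Real.rpow_add hd0]
  norm_num

/-- X2. The mollified sum over the rows of `B`. -/
lemma X_bound (q : ℕ) [NeZero q] (s : ℂ) (hs : s.re = 2) (B : Finset (ZMod q)ˣ) (Z : ℝ) (hZ : 1 ≤ Z)
    (D : (ZMod q)ˣ → Finset ℕ) (hD : ∀ a ∈ B, ∀ d ∈ D a, 1 ≤ d ∧ (d : ℝ) ≤ Z)
    (H : ℕ → (ZMod q)ˣ → ℂ) (P r ΛN : ℝ) (hP : 0 ≤ P) (hr : 0 < r) (hr1 : r ≤ 3 / 2) (hΛ : 0 ≤ ΛN)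
    (hH : ∀ l, ∑ c, ‖H l c‖ ^ 2 ≤ (P * (l + 1) * (r⁻¹) ^ l) ^ 2)
    (hmaj : ∀ h : (ZMod q)ˣ → ℝ, (∀ c, 0 ≤ h c) →
      ∑ a ∈ B, (∑ d ∈ (Icc 1 ⌊Z⌋₊).filter (fun d => Nat.Coprime d q),
        (d : ℝ) ^ (-(1 / 2) : ℝ) * h (a * (un q d)⁻¹)) ^ 2 ≤ ΛN * ∑ c, (h c) ^ 2) (k : ℕ) :
    ∑ a ∈ B, ‖∑ d ∈ (D a).filter (fun d => Nat.Coprime d q), (ArithmeticFunction.moebius d : ℂ) *
        ∑ i ∈ range (k + 1), gi s i d * H (k - i) (a * (un q d)⁻¹)‖ ^ 2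
      ≤ ((k : ℝ) + 1) ^ 4 * ΛN * P ^ 2 * ((r⁻¹) ^ k) ^ 2 := by
  classical
  obtain ⟨W, hW⟩ : ∃ W : ℕ → (ZMod q)ˣ → ℝ, W = fun i a =>
      ∑ d ∈ (Icc 1 ⌊Z⌋₊).filter (fun d => Nat.Coprime d q),
        (d : ℝ) ^ (-(1 / 2) : ℝ) * ‖H (k - i) (a * (un q d)⁻¹)‖ := ⟨_, rfl⟩
  have hr0 : 0 ≤ r⁻¹ := by positivity
  have hr2 : (2 / 3 : ℝ) ≤ r⁻¹ := by
    rw [le_inv_comm₀ (by norm_num) hr]
    norm_num
    linarith
  have hk0 : (0 : ℝ) ≤ k := Nat.cast_nonneg k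
  -- one row
  have h1 : ∀ a ∈ B, ‖∑ d ∈ (D a).filter (fun d => Nat.Coprime d q),
      (ArithmeticFunction.moebius d : ℂ) *
        ∑ i ∈ range (k + 1), gi s i d * H (k - i) (a * (un q d)⁻¹)‖ ^ 2
      ≤ ((k : ℝ) + 1) * ∑ i ∈ range (k + 1), ((2 / 3 : ℝ) ^ i * W i a) ^ 2 := by
    intro a ha
    have h2 : ‖∑ d ∈ (D a).filter (fun d => Nat.Coprime d q),
        (ArithmeticFunction.moebius d : ℂ) *
          ∑ i ∈ range (k + 1), gi s i d * H (k - i) (a * (un q d)⁻¹)‖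
        ≤ ∑ i ∈ range (k + 1), (2 / 3 : ℝ) ^ i * W i a := by
      refine (norm_sum_le _ _).trans ?_
      have h3 : ∀ d ∈ (D a).filter (fun d => Nat.Coprime d q),
          ‖(ArithmeticFunction.moebius d : ℂ) *
            ∑ i ∈ range (k + 1), gi s i d * H (k - i) (a * (un q d)⁻¹)‖
          ≤ ∑ i ∈ range (k + 1), (2 / 3 : ℝ) ^ i *
            ((d : ℝ) ^ (-(1 / 2) : ℝ) * ‖H (k - i) (a * (un q d)⁻¹)‖) := by
        intro d hd
        have hd1 := (hD a ha d (mem_filter.1 hd).1).1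
        have hmu : ‖(ArithmeticFunction.moebius d : ℂ)‖ ≤ 1 := by
          rw [Complex.norm_intCast]
          exact_mod_cast ArithmeticFunction.abs_moebius_le_one
        rw [norm_mul]
        refine (mul_le_of_le_one_left (norm_nonneg _) hmu).trans ((norm_sum_le _ _).trans ?_)
        refine sum_le_sum fun i _ => ?_
        rw [norm_mul, ← mul_assoc]
        exact mul_le_mul_of_nonneg_right (X2_gi s hs i d hd1) (norm_nonneg _)
      refine (sum_le_sum h3).trans ?_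
      rw [sum_comm]
      refine sum_le_sum fun i _ => ?_
      rw [← mul_sum, hW]
      refine mul_le_mul_of_nonneg_left ?_ (by positivity)
      refine sum_le_sum_of_subset_of_nonneg ?_ fun d _ _ => by positivity
      intro d hd
      rw [mem_filter] at hd ⊢
      obtain ⟨hd1, hd2⟩ := hD a ha d hd.1
      exact ⟨mem_Icc.2 ⟨hd1, Nat.le_floor hd2⟩, hd.2⟩
    have h4 : (∑ i ∈ range (k + 1), (2 / 3 : ℝ) ^ i * W i a) ^ 2
        ≤ ((k : ℝ) + 1) * ∑ i ∈ range (k + 1), ((2 / 3 : ℝ) ^ i * W i a) ^ 2 := by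
      have h5 := sq_sum_le_card_mul_sum_sq (s := range (k + 1))
        (f := fun i => (2 / 3 : ℝ) ^ i * W i a)
      rw [card_range] at h5
      push_cast at h5
      exact h5
    exact (pow_le_pow_left₀ (norm_nonneg _) h2 2).trans h4
  refine (sum_le_sum h1).trans ?_
  rw [← mul_sum, sum_comm]
  -- one index
  have h6 : ∀ i ∈ range (k + 1), ∑ a ∈ B, ((2 / 3 : ℝ) ^ i * W i a) ^ 2
      ≤ ((k : ℝ) + 1) ^ 2 * ΛN * P ^ 2 * ((r⁻¹) ^ k) ^ 2 := by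
    intro i hi
    have hik : i ≤ k := Nat.lt_succ_iff.1 (mem_range.1 hi)
    have h7 := hmaj (fun c => ‖H (k - i) c‖) fun c => norm_nonneg _
    have h8 : ∑ a ∈ B, ((2 / 3 : ℝ) ^ i * W i a) ^ 2
        = ((2 / 3 : ℝ) ^ i) ^ 2 * ∑ a ∈ B, (W i a) ^ 2 := by
      rw [mul_sum]
      exact sum_congr rfl fun a _ => by rw [mul_pow]
    have h9 : ∑ a ∈ B, (W i a) ^ 2 ≤ ΛN * (P * ((k - i : ℕ) + 1) * (r⁻¹) ^ (k - i)) ^ 2 := by
      rw [hW]
      exact h7.trans (mul_le_mul_of_nonneg_left (hH (k - i)) hΛ)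
    rw [h8]
    have h10 : ((2 / 3 : ℝ) ^ i) ^ 2 ≤ ((r⁻¹) ^ i) ^ 2 :=
      pow_le_pow_left₀ (by positivity) (pow_le_pow_left₀ (by norm_num) hr2 i) 2
    have h11 : (((k - i : ℕ) : ℝ) + 1) ^ 2 ≤ ((k : ℝ) + 1) ^ 2 := by
      refine pow_le_pow_left₀ (by positivity) ?_ 2
      have : ((k - i : ℕ) : ℝ) ≤ k := by exact_mod_cast Nat.sub_le k i
      linarith
    have h12 : (r⁻¹) ^ i * (r⁻¹) ^ (k - i) = (r⁻¹) ^ k := by
      rw [← pow_add]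
      congr 1
      omega
    calc ((2 / 3 : ℝ) ^ i) ^ 2 * ∑ a ∈ B, (W i a) ^ 2
        ≤ ((r⁻¹) ^ i) ^ 2 * (ΛN * (P * ((k - i : ℕ) + 1) * (r⁻¹) ^ (k - i)) ^ 2) :=
          mul_le_mul h10 h9 (sum_nonneg fun a _ => sq_nonneg _) (by positivity)
      _ = (((k - i : ℕ) : ℝ) + 1) ^ 2 * (ΛN * P ^ 2 * ((r⁻¹) ^ i * (r⁻¹) ^ (k - i)) ^ 2) := by ring
      _ = (((k - i : ℕ) : ℝ) + 1) ^ 2 * (ΛN * P ^ 2 * ((r⁻¹) ^ k) ^ 2) := by rw [h12]
      _ ≤ ((k : ℝ) + 1) ^ 2 * (ΛN * P ^ 2 * ((r⁻¹) ^ k) ^ 2) :=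
          mul_le_mul_of_nonneg_right h11 (by positivity)
      _ = ((k : ℝ) + 1) ^ 2 * ΛN * P ^ 2 * ((r⁻¹) ^ k) ^ 2 := by ring
  have h13 := sum_le_sum h6
  rw [sum_const, card_range, nsmul_eq_mul] at h13
  push_cast at h13
  calc ((k : ℝ) + 1) * ∑ i ∈ range (k + 1), ∑ a ∈ B, ((2 / 3 : ℝ) ^ i * W i a) ^ 2
      ≤ ((k : ℝ) + 1) * (((k : ℝ) + 1) * (((k : ℝ) + 1) ^ 2 * ΛN * P ^ 2 * ((r⁻¹) ^ k) ^ 2)) :=
        mul_le_mul_of_nonneg_left h13 (by positivity)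
    _ = ((k : ℝ) + 1) ^ 4 * ΛN * P ^ 2 * ((r⁻¹) ^ k) ^ 2 := by ring

end Pool.Agent.MZ
end

section

set_option autoImplicit false

namespace Pool.Agent.MZ

section K2aux

open Finset



/-- One step of the telescoping bound. -/
theorem K2_zstep (e : ℝ) (he : 0 < e) (n : ℕ) (hn : 1 ≤ n) :
    ((n + 1 : ℕ) : ℝ) ^ (-(1 + e)) ≤
      1 / e * ((n : ℝ) ^ (-e) - ((n + 1 : ℕ) : ℝ) ^ (-e)) := by
  have hn0 : (0 : ℝ) < n := by exact_mod_cast hn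
  have hm0 : (0 : ℝ) < ((n + 1 : ℕ) : ℝ) := by positivity
  have h1 : ((n + 1 : ℕ) : ℝ) ^ (-(1 + e)) =
      ((n + 1 : ℕ) : ℝ) ^ (-e) * (1 / ((n + 1 : ℕ) : ℝ)) := by
    rw [show -(1 + e) = -e + (-1) by ring, Real.rpow_add hm0, Real.rpow_neg_one, one_div]
  have h2 : (n : ℝ) ^ (-e) = ((n + 1 : ℕ) : ℝ) ^ (-e) * ((n : ℝ) / ((n + 1 : ℕ) : ℝ)) ^ (-e) := by
    rw [← Real.mul_rpow hm0.le (by positivity)]
    congr 1
    field_simp
  have h3 : 1 + e * (1 / ((n + 1 : ℕ) : ℝ)) ≤ ((n : ℝ) / ((n + 1 : ℕ) : ℝ)) ^ (-e) := by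
    have hx : (0 : ℝ) < (n : ℝ) / ((n + 1 : ℕ) : ℝ) := by positivity
    rw [Real.rpow_def_of_pos hx]
    have h4 : Real.log ((n : ℝ) / ((n + 1 : ℕ) : ℝ)) ≤ (n : ℝ) / ((n + 1 : ℕ) : ℝ) - 1 :=
      Real.log_le_sub_one_of_pos hx
    have h5 : (n : ℝ) / ((n + 1 : ℕ) : ℝ) - 1 = -(1 / ((n + 1 : ℕ) : ℝ)) := by
      field_simp
      push_cast
      ring
    rw [h5] at h4
    have h6 := Real.add_one_le_exp (Real.log ((n : ℝ) / ((n + 1 : ℕ) : ℝ)) * -e)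
    have h7 : e * (1 / ((n + 1 : ℕ) : ℝ)) ≤ Real.log ((n : ℝ) / ((n + 1 : ℕ) : ℝ)) * -e := by
      have := mul_le_mul_of_nonneg_left h4 he.le
      linarith
    linarith
  have hp : 0 ≤ ((n + 1 : ℕ) : ℝ) ^ (-e) := Real.rpow_nonneg hm0.le _
  rw [h1, h2]
  have h8 := mul_le_mul_of_nonneg_left h3 hp
  have h9 : 1 / e * (((n + 1 : ℕ) : ℝ) ^ (-e) * ((n : ℝ) / ((n + 1 : ℕ) : ℝ)) ^ (-e) -
      ((n + 1 : ℕ) : ℝ) ^ (-e)) ≥ 1 / e * (((n + 1 : ℕ) : ℝ) ^ (-e) * (1 + e * (1 / ((n + 1 : ℕ) : ℝ))) -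
      ((n + 1 : ℕ) : ℝ) ^ (-e)) := by
    refine mul_le_mul_of_nonneg_left ?_ (by positivity)
    linarith
  have h10 : 1 / e * (((n + 1 : ℕ) : ℝ) ^ (-e) * (1 + e * (1 / ((n + 1 : ℕ) : ℝ))) -
      ((n + 1 : ℕ) : ℝ) ^ (-e)) = ((n + 1 : ℕ) : ℝ) ^ (-e) * (1 / ((n + 1 : ℕ) : ℝ)) := by
    field_simp
    ring
  linarith

/-- `∑_{d < N} d^{-(1+e)} ≤ 1 + 1/e`. -/
theorem K2_zsum (e : ℝ) (he : 0 < e) (N : ℕ) :
    ∑ d ∈ range N, (d : ℝ) ^ (-(1 + e)) ≤ 1 + 1 / e := by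
  have key : ∀ M : ℕ, ∑ d ∈ range (M + 2), (d : ℝ) ^ (-(1 + e)) ≤
      1 + 1 / e * (1 - ((M + 1 : ℕ) : ℝ) ^ (-e)) := by
    intro M
    induction M with
    | zero =>
      rw [Finset.sum_range_succ, Finset.sum_range_one]
      have h0 : ((0 : ℕ) : ℝ) ^ (-(1 + e)) = 0 := by
        rw [Nat.cast_zero, Real.zero_rpow (by linarith)]
      rw [h0]
      simp
    | succ M ih =>
      rw [Finset.sum_range_succ]
      have h1 := K2_zstep e he (M + 1) (by omega)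
      have h2 : 1 / e * (1 - ((M + 1 : ℕ) : ℝ) ^ (-e)) +
          1 / e * (((M + 1 : ℕ) : ℝ) ^ (-e) - ((M + 1 + 1 : ℕ) : ℝ) ^ (-e)) =
          1 / e * (1 - ((M + 1 + 1 : ℕ) : ℝ) ^ (-e)) := by ring
      linarith
  have hmono : ∑ d ∈ range N, (d : ℝ) ^ (-(1 + e)) ≤ ∑ d ∈ range (N + 2), (d : ℝ) ^ (-(1 + e)) :=
    Finset.sum_le_sum_of_subset_of_nonneg (range_mono (by omega))
      fun d _ _ => Real.rpow_nonneg (Nat.cast_nonneg d) _
  have h1 := key N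
  have h2 : 0 ≤ ((N + 1 : ℕ) : ℝ) ^ (-e) := Real.rpow_nonneg (Nat.cast_nonneg _) _
  have h3 : 1 / e * (1 - ((N + 1 : ℕ) : ℝ) ^ (-e)) ≤ 1 / e * 1 :=
    mul_le_mul_of_nonneg_left (by linarith) (by positivity)
  linarith

/-- The weight vanishes at `0`. -/
theorem K2_zero (c : ℝ) (hc : 0 < c) (J : ℕ) : K1_kap c J 0 = 0 := by
  unfold K1_kap
  rw [Nat.cast_zero, Real.zero_rpow (by linarith)]
  simp

/-- Partial sums of `d^{-σ} kap(d)`. -/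
theorem K2_sum_range (e : ℝ) (he : 0 < e) (he1 : e ≤ 1 / 5) (Z : ℝ) (hZ1 : 1 ≤ Z) (J : ℕ)
    (hJ : (J : ℝ) ≤ (1 + e) * (1 / e) * Real.log Z + 1) (σ : ℝ) (hσ : 1 / 2 ≤ σ) (N : ℕ) :
    ∑ d ∈ range N, (d : ℝ) ^ (-σ) * K1_kap (1 / e) J d ≤
      4 * (1 + 1 / e) * Z ^ (1 / 2 + 3 * e) := by
  have hZ0 : 0 < Z := by linarith
  have h1 : ∀ d ∈ range N, (d : ℝ) ^ (-σ) * K1_kap (1 / e) J d ≤
      4 * Z ^ (1 / 2 + 3 * e) * (d : ℝ) ^ (-(1 + e)) := by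
    intro d _
    rcases Nat.eq_zero_or_pos d with rfl | hd
    · rw [K2_zero (1 / e) (by positivity) J, mul_zero, Nat.cast_zero]
      have := Real.rpow_nonneg (le_refl (0 : ℝ)) (-(1 + e))
      positivity
    · have hd0 : (0 : ℝ) < d := by exact_mod_cast hd
      have hd1 : (1 : ℝ) ≤ d := by exact_mod_cast hd
      have h2 := K1_le e he he1 Z hZ1 J hJ d hd
      have h3 : (d : ℝ) ^ (-σ) ≤ (d : ℝ) ^ (-(1 / 2 : ℝ)) :=
        Real.rpow_le_rpow_of_exponent_le hd1 (by linarith)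
      have h4 : 0 ≤ 4 * Z ^ (1 / 2 + 3 * e) * (d : ℝ) ^ (-(1 / 2 + e)) := by
        have := Real.rpow_nonneg hZ0.le (1 / 2 + 3 * e)
        have := Real.rpow_nonneg hd0.le (-(1 / 2 + e))
        positivity
      calc (d : ℝ) ^ (-σ) * K1_kap (1 / e) J d
          ≤ (d : ℝ) ^ (-σ) * (4 * Z ^ (1 / 2 + 3 * e) * (d : ℝ) ^ (-(1 / 2 + e))) :=
            mul_le_mul_of_nonneg_left h2 (Real.rpow_nonneg hd0.le _)
        _ ≤ (d : ℝ) ^ (-(1 / 2 : ℝ)) * (4 * Z ^ (1 / 2 + 3 * e) * (d : ℝ) ^ (-(1 / 2 + e))) :=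
            mul_le_mul_of_nonneg_right h3 h4
        _ = 4 * Z ^ (1 / 2 + 3 * e) * ((d : ℝ) ^ (-(1 / 2 : ℝ)) * (d : ℝ) ^ (-(1 / 2 + e))) := by
            ring
        _ = 4 * Z ^ (1 / 2 + 3 * e) * (d : ℝ) ^ (-(1 + e)) := by
            rw [← Real.rpow_add hd0]
            congr 2
            ring
  calc ∑ d ∈ range N, (d : ℝ) ^ (-σ) * K1_kap (1 / e) J d
      ≤ ∑ d ∈ range N, 4 * Z ^ (1 / 2 + 3 * e) * (d : ℝ) ^ (-(1 + e)) := Finset.sum_le_sum h1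
    _ = 4 * Z ^ (1 / 2 + 3 * e) * ∑ d ∈ range N, (d : ℝ) ^ (-(1 + e)) := by
        rw [Finset.mul_sum]
    _ ≤ 4 * Z ^ (1 / 2 + 3 * e) * (1 + 1 / e) := by
        refine mul_le_mul_of_nonneg_left (K2_zsum e he N) ?_
        have := Real.rpow_nonneg hZ0.le (1 / 2 + 3 * e)
        positivity
    _ = 4 * (1 + 1 / e) * Z ^ (1 / 2 + 3 * e) := by ring

/-- Non-negativity of the summands. -/
theorem K2_term_nonneg (c : ℝ) (hc : 0 ≤ c) (J : ℕ) (σ : ℝ) (d : ℕ) :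
    0 ≤ (d : ℝ) ^ (-σ) * K1_kap c J d :=
  mul_nonneg (Real.rpow_nonneg (Nat.cast_nonneg d) _) (K1_nonneg c hc J d)

/-- Summability of `d^{-σ} kap(d)`. -/
theorem K2_summable (e : ℝ) (he : 0 < e) (he1 : e ≤ 1 / 5) (Z : ℝ) (hZ1 : 1 ≤ Z) (J : ℕ)
    (hJ : (J : ℝ) ≤ (1 + e) * (1 / e) * Real.log Z + 1) (σ : ℝ) (hσ : 1 / 2 ≤ σ) :
    Summable fun d : ℕ => (d : ℝ) ^ (-σ) * K1_kap (1 / e) J d :=
  summable_of_sum_range_le (fun d => K2_term_nonneg (1 / e) (by positivity) J σ d)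
    (K2_sum_range e he he1 Z hZ1 J hJ σ hσ)

/-- The sum of `d^{-σ} kap(d)`. -/
theorem K2_tsum_le (e : ℝ) (he : 0 < e) (he1 : e ≤ 1 / 5) (Z : ℝ) (hZ1 : 1 ≤ Z) (J : ℕ)
    (hJ : (J : ℝ) ≤ (1 + e) * (1 / e) * Real.log Z + 1) (σ : ℝ) (hσ : 1 / 2 ≤ σ) :
    ∑' d : ℕ, (d : ℝ) ^ (-σ) * K1_kap (1 / e) J d ≤ 4 * (1 + 1 / e) * Z ^ (1 / 2 + 3 * e) :=
  Real.tsum_le_of_sum_range_le (fun d => K2_term_nonneg (1 / e) (by positivity) J σ d)
    (K2_sum_range e he he1 Z hZ1 J hJ σ hσ)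


end K2aux

open Complex Finset MY

/-- K2. The total weight. -/
lemma kap_sum (e : ℝ) (he : 0 < e) (he1 : e ≤ 1 / 10) : ∃ C : ℝ, 1 ≤ C ∧ ∀ Z : ℝ, 1 ≤ Z →
    ∀ σ : ℝ, 1 / 2 ≤ σ → ∀ M : ℕ, ∑ d ∈ Icc 1 M, (d : ℝ) ^ (-σ) * kap e Z d
      ≤ C * Z ^ (1 / 2 + 3 * e) := by
  refine ⟨4 * (1 + 1 / e), ?_, ?_⟩
  · have : 0 < 1 / e := by positivity
    linarith
  · intro Z hZ σ hσ M
    have h1 := K2_sum_range e he (by linarith) Z hZ (JJ e Z) (K1_JJ_le e he Z hZ) σ hσ (M + 1)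
    have h2 : ∑ d ∈ Icc 1 M, (d : ℝ) ^ (-σ) * kap e Z d ≤
        ∑ d ∈ range (M + 1), (d : ℝ) ^ (-σ) * kap e Z d := by
      refine Finset.sum_le_sum_of_subset_of_nonneg ?_ ?_
      · intro d hd
        rw [mem_Icc] at hd
        exact mem_range.mpr (by omega)
      · intro d _ _
        rw [K1_kap_eq]
        exact K2_term_nonneg (1 / e) (by positivity) (JJ e Z) σ d
    exact le_trans h2 h1

end Pool.Agent.MZ
end

section

set_option autoImplicit false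

namespace Pool.Agent.MZ

open Complex Finset MY

/-- The weights of the convolution, normalised. -/
lemma Q4_G_nonneg (i n : ℕ) :
    0 ≤ (3 / 2 * Real.log n) ^ i / (i.factorial : ℝ) / (n : ℝ) ^ 2 := by
  have h : 0 ≤ Real.log (n : ℝ) := Real.log_natCast_nonneg n
  positivity

lemma Q4_G_sum (k n : ℕ) (hn : 1 ≤ n) :
    ∑ i ∈ range (k + 1), (3 / 2 * Real.log n) ^ i / (i.factorial : ℝ) / (n : ℝ) ^ 2
      ≤ (n : ℝ) ^ (-(1 / 2) : ℝ) := by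
  have h : 0 ≤ Real.log (n : ℝ) := Real.log_natCast_nonneg n
  have hn0 : (0 : ℝ) < n := by exact_mod_cast hn
  rw [← Finset.sum_div]
  have h1 := Real.sum_le_exp_of_nonneg (x := 3 / 2 * Real.log n) (by positivity) (k + 1)
  have h2 : Real.exp (3 / 2 * Real.log n) = (n : ℝ) ^ (3 / 2 : ℝ) := by
    rw [Real.rpow_def_of_pos hn0, mul_comm]
  rw [h2] at h1
  rw [div_le_iff₀ (by positivity)]
  refine h1.trans (le_of_eq ?_)
  rw [← Real.rpow_natCast, ← Real.rpow_add hn0]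
  norm_num

lemma Q4_G_le (i n : ℕ) (hn : 1 ≤ n) :
    (3 / 2 * Real.log n) ^ i / (i.factorial : ℝ) / (n : ℝ) ^ 2 ≤ (n : ℝ) ^ (-(1 / 2) : ℝ) := by
  refine le_trans ?_ (Q4_G_sum i n hn)
  exact Finset.single_le_sum
    (f := fun i => (3 / 2 * Real.log n) ^ i / (i.factorial : ℝ) / (n : ℝ) ^ 2)
    (fun j _ => Q4_G_nonneg j n) (Finset.self_mem_range_succ i)

lemma Q4_Dn (q : ℕ) [NeZero q] (s : ℂ) (hs : s.re = 2) (k : ℕ) (c : (ZMod q)ˣ) (n : ℕ)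
    (hn : 1 ≤ n) :
    (3 / 2 : ℝ) ^ k * ‖Dn q s k c n‖ ≤ ∑ i ∈ range (k + 1),
      ((3 / 2 * Real.log n) ^ i / (i.factorial : ℝ) / (n : ℝ) ^ 2) *
        ((3 / 2 : ℝ) ^ (k - i) * ‖Dk q s (k - i) c‖) := by
  unfold Dn
  refine (mul_le_mul_of_nonneg_left (norm_sum_le _ _) (by positivity)).trans ?_
  rw [Finset.mul_sum]
  refine Finset.sum_le_sum fun i hi => ?_
  have hik : i ≤ k := by
    have := Finset.mem_range.1 hi
    omega
  rw [norm_mul, gi_norm s hs i n (by exact_mod_cast hn)]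
  refine le_of_eq ?_
  have h3 : (3 / 2 : ℝ) ^ k = (3 / 2 : ℝ) ^ i * (3 / 2 : ℝ) ^ (k - i) := by
    rw [← pow_add]
    congr 1
    omega
  rw [h3, mul_pow]
  ring

open Classical in
/-- Q4. Schur's test for the part `B × B`. -/
lemma schur (q : ℕ) [NeZero q] (s : ℂ) (hs : s.re = 2) (B : Finset (ZMod q)ˣ) (M : ℕ)
    (w : (ZMod q)ˣ → ℕ → ℝ) (hw : ∀ a n, 0 ≤ w a n) (Row Col MD : ℝ) (hR : 0 ≤ Row) (hC : 0 ≤ Col)
    (hM : 0 ≤ MD) (k : ℕ)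
    (hrow : ∀ a ∈ B, ∑ n ∈ (Icc 2 M).filter (fun n => Nat.Coprime n q ∧ a * (un q n)⁻¹ ∈ B),
      w a n * (n : ℝ) ^ (-(1 / 2) : ℝ) ≤ Row)
    (hcol : ∀ a ∈ B, ∑ n ∈ (Icc 2 M).filter (fun n => Nat.Coprime n q ∧ a * un q n ∈ B),
      w (a * un q n) n * (n : ℝ) ^ (-(1 / 2) : ℝ) ≤ Col)
    (hD : ∀ j ≤ k, ∑ a, ‖Dk q s j a‖ ^ 2 ≤ (MD * (2 / 3 : ℝ) ^ j) ^ 2) :
    ∑ a ∈ B, (∑ n ∈ (Icc 2 M).filter (fun n => Nat.Coprime n q ∧ a * (un q n)⁻¹ ∈ B),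
        w a n * ‖Dn q s k (a * (un q n)⁻¹) n‖) ^ 2
      ≤ ((k : ℝ) + 1) * Row * Col * (MD * (2 / 3 : ℝ) ^ k) ^ 2 := by
  set v : ℕ → (ZMod q)ˣ → ℝ := fun j c => (3 / 2 : ℝ) ^ j * ‖Dk q s j c‖ with hv
  have hv0 : ∀ j c, 0 ≤ v j c := fun j c => by simp only [hv]; positivity
  set G : ℕ → ℕ → ℝ := fun i n => (3 / 2 * Real.log n) ^ i / (i.factorial : ℝ) / (n : ℝ) ^ 2
    with hG
  have hG0 : ∀ i n, 0 ≤ G i n := fun i n => Q4_G_nonneg i n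
  set P : (ZMod q)ˣ → Finset ℕ := fun a =>
    (Icc 2 M).filter (fun n => Nat.Coprime n q ∧ a * (un q n)⁻¹ ∈ B) with hP
  have hn2 : ∀ a, ∀ n ∈ P a, 1 ≤ n := by
    intro a n hn
    simp only [hP, Finset.mem_filter, Finset.mem_Icc] at hn
    omega
  -- the bound for one row
  have hone : ∀ a ∈ B, ((3 / 2 : ℝ) ^ k * ∑ n ∈ P a, w a n * ‖Dn q s k (a * (un q n)⁻¹) n‖) ^ 2
      ≤ Row * ∑ i ∈ range (k + 1), ∑ n ∈ P a,
        w a n * (n : ℝ) ^ (-(1 / 2) : ℝ) * v (k - i) (a * (un q n)⁻¹) ^ 2 := by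
    intro a ha
    have h1 : (3 / 2 : ℝ) ^ k * ∑ n ∈ P a, w a n * ‖Dn q s k (a * (un q n)⁻¹) n‖
        ≤ ∑ p ∈ P a ×ˢ range (k + 1),
          w a p.1 * G p.2 p.1 * v (k - p.2) (a * (un q p.1)⁻¹) := by
      rw [Finset.sum_product, Finset.mul_sum]
      refine Finset.sum_le_sum fun n hn => ?_
      have h2 := Q4_Dn q s hs k (a * (un q n)⁻¹) n (hn2 a n hn)
      calc (3 / 2 : ℝ) ^ k * (w a n * ‖Dn q s k (a * (un q n)⁻¹) n‖)
          = w a n * ((3 / 2 : ℝ) ^ k * ‖Dn q s k (a * (un q n)⁻¹) n‖) := by ring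
        _ ≤ w a n * ∑ i ∈ range (k + 1),
            ((3 / 2 * Real.log n) ^ i / (i.factorial : ℝ) / (n : ℝ) ^ 2) *
              ((3 / 2 : ℝ) ^ (k - i) * ‖Dk q s (k - i) (a * (un q n)⁻¹)‖) :=
            mul_le_mul_of_nonneg_left h2 (hw a n)
        _ = ∑ i ∈ range (k + 1), w a n * G i n * v (k - i) (a * (un q n)⁻¹) := by
            rw [Finset.mul_sum]
            refine Finset.sum_congr rfl fun i _ => ?_
            simp only [hG, hv]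
            ring
    have h0 : 0 ≤ (3 / 2 : ℝ) ^ k * ∑ n ∈ P a, w a n * ‖Dn q s k (a * (un q n)⁻¹) n‖ := by
      have : 0 ≤ ∑ n ∈ P a, w a n * ‖Dn q s k (a * (un q n)⁻¹) n‖ :=
        Finset.sum_nonneg fun n _ => mul_nonneg (hw a n) (norm_nonneg _)
      positivity
    have h3 : (∑ p ∈ P a ×ˢ range (k + 1),
          w a p.1 * G p.2 p.1 * v (k - p.2) (a * (un q p.1)⁻¹)) ^ 2
        ≤ (∑ p ∈ P a ×ˢ range (k + 1), w a p.1 * G p.2 p.1) *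
          ∑ p ∈ P a ×ˢ range (k + 1),
            w a p.1 * G p.2 p.1 * v (k - p.2) (a * (un q p.1)⁻¹) ^ 2 := by
      refine Finset.sum_sq_le_sum_mul_sum_of_sq_le_mul _ ?_ ?_ ?_
      · intro p _
        exact mul_nonneg (hw _ _) (hG0 _ _)
      · intro p _
        exact mul_nonneg (mul_nonneg (hw _ _) (hG0 _ _)) (sq_nonneg _)
      · intro p _
        exact le_of_eq (by ring)
    have h4 : (∑ p ∈ P a ×ˢ range (k + 1), w a p.1 * G p.2 p.1) ≤ Row := by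
      rw [Finset.sum_product]
      refine le_trans (Finset.sum_le_sum fun n hn => ?_) (hrow a ha)
      have h4a : ∑ i ∈ range (k + 1), w a n * G i n ≤ w a n * (n : ℝ) ^ (-(1 / 2) : ℝ) := by
        rw [← Finset.mul_sum]
        exact mul_le_mul_of_nonneg_left (Q4_G_sum k n (hn2 a n hn)) (hw a n)
      exact h4a
    have h5 : (∑ p ∈ P a ×ˢ range (k + 1),
            w a p.1 * G p.2 p.1 * v (k - p.2) (a * (un q p.1)⁻¹) ^ 2)
        ≤ ∑ i ∈ range (k + 1), ∑ n ∈ P a,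
          w a n * (n : ℝ) ^ (-(1 / 2) : ℝ) * v (k - i) (a * (un q n)⁻¹) ^ 2 := by
      rw [Finset.sum_product_right]
      refine Finset.sum_le_sum fun i _ => Finset.sum_le_sum fun n hn => ?_
      refine mul_le_mul_of_nonneg_right ?_ (sq_nonneg _)
      exact mul_le_mul_of_nonneg_left (Q4_G_le i n (hn2 a n hn)) (hw a n)
    have h6 : 0 ≤ ∑ p ∈ P a ×ˢ range (k + 1),
            w a p.1 * G p.2 p.1 * v (k - p.2) (a * (un q p.1)⁻¹) ^ 2 :=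
      Finset.sum_nonneg fun p _ => mul_nonneg (mul_nonneg (hw _ _) (hG0 _ _)) (sq_nonneg _)
    calc _ ≤ (∑ p ∈ P a ×ˢ range (k + 1),
          w a p.1 * G p.2 p.1 * v (k - p.2) (a * (un q p.1)⁻¹)) ^ 2 := pow_le_pow_left₀ h0 h1 2
      _ ≤ _ := h3
      _ ≤ Row * ∑ p ∈ P a ×ˢ range (k + 1),
            w a p.1 * G p.2 p.1 * v (k - p.2) (a * (un q p.1)⁻¹) ^ 2 :=
          mul_le_mul_of_nonneg_right h4 h6
      _ ≤ _ := mul_le_mul_of_nonneg_left h5 hR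
  -- the columns
  have hcl : ∀ i ∈ range (k + 1), ∑ a ∈ B, ∑ n ∈ P a,
        w a n * (n : ℝ) ^ (-(1 / 2) : ℝ) * v (k - i) (a * (un q n)⁻¹) ^ 2 ≤ Col * MD ^ 2 := by
    intro i _
    have h1 : ∑ a ∈ B, ∑ n ∈ P a,
        w a n * (n : ℝ) ^ (-(1 / 2) : ℝ) * v (k - i) (a * (un q n)⁻¹) ^ 2
        = ∑ c ∈ B, ∑ n ∈ (Icc 2 M).filter (fun n => Nat.Coprime n q ∧ c * un q n ∈ B),
          w (c * un q n) n * (n : ℝ) ^ (-(1 / 2) : ℝ) * v (k - i) c ^ 2 := by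
      rw [Finset.sum_sigma', Finset.sum_sigma']
      refine Finset.sum_bij'
        (fun p _ => (⟨p.1 * (un q p.2)⁻¹, p.2⟩ : (_ : (ZMod q)ˣ) × ℕ))
        (fun p _ => (⟨p.1 * un q p.2, p.2⟩ : (_ : (ZMod q)ˣ) × ℕ)) ?_ ?_ ?_ ?_ ?_
      · rintro ⟨a, n⟩ hp
        simp only [hP, Finset.mem_sigma, Finset.mem_filter] at hp ⊢
        refine ⟨hp.2.2.2, hp.2.1, hp.2.2.1, ?_⟩
        simpa using hp.1
      · rintro ⟨a, n⟩ hp
        simp only [hP, Finset.mem_sigma, Finset.mem_filter] at hp ⊢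
        refine ⟨hp.2.2.2, hp.2.1, hp.2.2.1, ?_⟩
        simpa using hp.1
      · rintro ⟨a, n⟩ _
        simp
      · rintro ⟨a, n⟩ _
        simp
      · rintro ⟨a, n⟩ _
        simp
    rw [h1]
    have h2 : ∀ c ∈ B, ∑ n ∈ (Icc 2 M).filter (fun n => Nat.Coprime n q ∧ c * un q n ∈ B),
          w (c * un q n) n * (n : ℝ) ^ (-(1 / 2) : ℝ) * v (k - i) c ^ 2
        ≤ Col * v (k - i) c ^ 2 := by
      intro c hc
      rw [← Finset.sum_mul]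
      exact mul_le_mul_of_nonneg_right (hcol c hc) (sq_nonneg _)
    refine (Finset.sum_le_sum h2).trans ?_
    rw [← Finset.mul_sum]
    refine mul_le_mul_of_nonneg_left ?_ hC
    refine (Finset.sum_le_univ_sum_of_nonneg (fun c => sq_nonneg _)).trans ?_
    have h3 := hD (k - i) (Nat.sub_le k i)
    have h4 : ∑ c, v (k - i) c ^ 2 = ((3 / 2 : ℝ) ^ (k - i)) ^ 2 * ∑ a, ‖Dk q s (k - i) a‖ ^ 2 := by
      rw [Finset.mul_sum]
      refine Finset.sum_congr rfl fun c _ => ?_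
      simp only [hv]
      ring
    rw [h4]
    refine (mul_le_mul_of_nonneg_left h3 (by positivity)).trans (le_of_eq ?_)
    have h5 : (3 / 2 : ℝ) ^ (k - i) * (2 / 3 : ℝ) ^ (k - i) = 1 := by
      rw [← mul_pow]
      norm_num
    calc ((3 / 2 : ℝ) ^ (k - i)) ^ 2 * (MD * (2 / 3 : ℝ) ^ (k - i)) ^ 2
        = MD ^ 2 * ((3 / 2 : ℝ) ^ (k - i) * (2 / 3 : ℝ) ^ (k - i)) ^ 2 := by ring
      _ = MD ^ 2 := by rw [h5]; ring
  -- the sum over the rows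
  have hall : ∑ a ∈ B, ((3 / 2 : ℝ) ^ k *
      ∑ n ∈ P a, w a n * ‖Dn q s k (a * (un q n)⁻¹) n‖) ^ 2 ≤ ((k : ℝ) + 1) * Row * Col * MD ^ 2 := by
    refine (Finset.sum_le_sum hone).trans ?_
    rw [← Finset.mul_sum, Finset.sum_comm]
    have h1 : ∑ i ∈ range (k + 1), ∑ a ∈ B, ∑ n ∈ P a,
        w a n * (n : ℝ) ^ (-(1 / 2) : ℝ) * v (k - i) (a * (un q n)⁻¹) ^ 2
        ≤ ((k : ℝ) + 1) * (Col * MD ^ 2) := by
      refine (Finset.sum_le_sum hcl).trans (le_of_eq ?_)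
      rw [Finset.sum_const, Finset.card_range, nsmul_eq_mul]
      push_cast
      ring
    refine (mul_le_mul_of_nonneg_left h1 hR).trans (le_of_eq ?_)
    ring
  have h7 : ∑ a ∈ B, ((3 / 2 : ℝ) ^ k *
      ∑ n ∈ P a, w a n * ‖Dn q s k (a * (un q n)⁻¹) n‖) ^ 2
      = ((3 / 2 : ℝ) ^ k) ^ 2 * ∑ a ∈ B, (∑ n ∈ P a, w a n * ‖Dn q s k (a * (un q n)⁻¹) n‖) ^ 2 := by
    rw [Finset.mul_sum]
    refine Finset.sum_congr rfl fun a _ => ?_
    ring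
  rw [h7] at hall
  have h8 : (3 / 2 : ℝ) ^ k * (2 / 3 : ℝ) ^ k = 1 := by
    rw [← mul_pow]
    norm_num
  have h9 := mul_le_mul_of_nonneg_left hall (sq_nonneg ((2 / 3 : ℝ) ^ k))
  calc ∑ a ∈ B, (∑ n ∈ P a, w a n * ‖Dn q s k (a * (un q n)⁻¹) n‖) ^ 2
      = ((3 / 2 : ℝ) ^ k * (2 / 3 : ℝ) ^ k) ^ 2 *
        ∑ a ∈ B, (∑ n ∈ P a, w a n * ‖Dn q s k (a * (un q n)⁻¹) n‖) ^ 2 := by rw [h8]; ring
    _ = ((2 / 3 : ℝ) ^ k) ^ 2 * (((3 / 2 : ℝ) ^ k) ^ 2 *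
        ∑ a ∈ B, (∑ n ∈ P a, w a n * ‖Dn q s k (a * (un q n)⁻¹) n‖) ^ 2) := by ring
    _ ≤ _ := h9
    _ = _ := by ring

end Pool.Agent.MZ
end

section

set_option autoImplicit false

namespace Pool.Agent.MW

open Complex Finset MY MZ

lemma A13_G_nonneg (θ : ℝ) (hθ1 : θ < 1) (i n : ℕ) :
    0 ≤ ((2 - θ) * Real.log n) ^ i / (i.factorial : ℝ) / (n : ℝ) ^ 2 := by
  have h : 0 ≤ Real.log (n : ℝ) := Real.log_natCast_nonneg n
  have h1 : 0 ≤ (2 - θ) * Real.log n := mul_nonneg (by linarith) h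
  positivity

lemma A13_G_sum (θ : ℝ) (hθ1 : θ < 1) (k n : ℕ) (hn : 1 ≤ n) :
    ∑ i ∈ range (k + 1), ((2 - θ) * Real.log n) ^ i / (i.factorial : ℝ) / (n : ℝ) ^ 2
      ≤ (n : ℝ) ^ (-θ) := by
  have h : 0 ≤ Real.log (n : ℝ) := Real.log_natCast_nonneg n
  have hn0 : (0 : ℝ) < n := by exact_mod_cast hn
  rw [← Finset.sum_div]
  have h1 := Real.sum_le_exp_of_nonneg (x := (2 - θ) * Real.log n)
    (mul_nonneg (by linarith) h) (k + 1)
  have h2 : Real.exp ((2 - θ) * Real.log n) = (n : ℝ) ^ (2 - θ) := by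
    rw [Real.rpow_def_of_pos hn0, mul_comm]
  rw [h2] at h1
  rw [div_le_iff₀ (by positivity)]
  refine h1.trans (le_of_eq ?_)
  rw [← Real.rpow_natCast, ← Real.rpow_add hn0]
  congr 1
  push_cast
  ring

lemma A13_G_le (θ : ℝ) (hθ1 : θ < 1) (i n : ℕ) (hn : 1 ≤ n) :
    ((2 - θ) * Real.log n) ^ i / (i.factorial : ℝ) / (n : ℝ) ^ 2 ≤ (n : ℝ) ^ (-θ) := by
  refine le_trans ?_ (A13_G_sum θ hθ1 i n hn)
  exact Finset.single_le_sum
    (f := fun i => ((2 - θ) * Real.log n) ^ i / (i.factorial : ℝ) / (n : ℝ) ^ 2)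
    (fun j _ => A13_G_nonneg θ hθ1 j n) (Finset.self_mem_range_succ i)

/-- A13a. The weights `((2-θ) log n)^i / i! / n^2`. -/
lemma gam_le (θ : ℝ) (hθ : 1 / 2 ≤ θ) (hθ1 : θ < 1) (M : ℕ) (hM : 1 ≤ M) (i n : ℕ) (hn : 1 ≤ n)
    (hnM : n ≤ M) :
    ((2 - θ) * Real.log n) ^ i / (i.factorial : ℝ) / (n : ℝ) ^ 2
      ≤ gam ⌈40 * Real.log M⌉₊ i * (n : ℝ) ^ (-θ) := by
  unfold gam
  split_ifs with hi
  · rw [one_mul]
    exact A13_G_le θ hθ1 i n hn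
  · have hn0 : (0 : ℝ) < n := by exact_mod_cast hn
    have hn1 : (1 : ℝ) ≤ n := by exact_mod_cast hn
    have hnM' : (n : ℝ) ≤ M := by exact_mod_cast hnM
    have hl : 0 ≤ Real.log (n : ℝ) := Real.log_natCast_nonneg n
    have hlM : Real.log (n : ℝ) ≤ Real.log M := Real.log_le_log hn0 hnM'
    have hi1 : 40 * Real.log M ≤ i := by
      have h1 : ⌈40 * Real.log (M : ℝ)⌉₊ ≤ i := not_lt.1 hi
      exact (Nat.le_ceil _).trans (by exact_mod_cast h1)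
    have hx : (2 - θ) * Real.log n ≤ 3 / 80 * i := by
      have h1 : (2 - θ) * Real.log n ≤ 3 / 2 * Real.log n :=
        mul_le_mul_of_nonneg_right (by linarith) hl
      linarith
    have hx0 : 0 ≤ (2 - θ) * Real.log n := mul_nonneg (by linarith) hl
    have hf : (0 : ℝ) < (i.factorial : ℝ) := by exact_mod_cast i.factorial_pos
    have h2 : ((2 - θ) * Real.log n) ^ i / (i.factorial : ℝ) ≤ (1 / 8 : ℝ) ^ i := by
      have h3 : (i : ℝ) ^ i / (i.factorial : ℝ) ≤ Real.exp i :=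
        Real.pow_div_factorial_le_exp (i : ℝ) (Nat.cast_nonneg i) i
      have h4 : Real.exp (i : ℝ) = Real.exp 1 ^ i := by
        rw [← Real.exp_nat_mul, mul_one]
      calc ((2 - θ) * Real.log n) ^ i / (i.factorial : ℝ)
          ≤ (3 / 80 * (i : ℝ)) ^ i / (i.factorial : ℝ) :=
            div_le_div_of_nonneg_right (pow_le_pow_left₀ hx0 hx i) hf.le
        _ = (3 / 80 : ℝ) ^ i * ((i : ℝ) ^ i / (i.factorial : ℝ)) := by
            rw [mul_pow]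
            ring
        _ ≤ (3 / 80 : ℝ) ^ i * Real.exp 1 ^ i := by
            rw [← h4]
            exact mul_le_mul_of_nonneg_left h3 (by positivity)
        _ = (3 / 80 * Real.exp 1) ^ i := (mul_pow _ _ _).symm
        _ ≤ (1 / 8 : ℝ) ^ i := by
            refine pow_le_pow_left₀ (by positivity) ?_ i
            have := Real.exp_one_lt_d9
            linarith
    rw [div_le_iff₀ (by positivity)]
    have h5 : (n : ℝ) ^ (-θ) * (n : ℝ) ^ 2 = (n : ℝ) ^ (2 - θ) := by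
      rw [← Real.rpow_natCast, ← Real.rpow_add hn0]
      congr 1
      push_cast
      ring
    have h6 : (1 : ℝ) ≤ (n : ℝ) ^ (2 - θ) := Real.one_le_rpow hn1 (by linarith)
    rw [mul_assoc, h5]
    refine h2.trans ?_
    exact le_mul_of_one_le_right (by positivity) h6

lemma A13_Dn (q : ℕ) [NeZero q] (s : ℂ) (hs : s.re = 2) (θ : ℝ) (hθ1 : θ < 1) (k : ℕ)
    (c : (ZMod q)ˣ) (n : ℕ) (hn : 1 ≤ n) :
    (2 - θ) ^ k * ‖Dn q s k c n‖ ≤ ∑ i ∈ range (k + 1),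
      (((2 - θ) * Real.log n) ^ i / (i.factorial : ℝ) / (n : ℝ) ^ 2) *
        ((2 - θ) ^ (k - i) * ‖Dk q s (k - i) c‖) := by
  have hρ : 0 < 2 - θ := by linarith
  unfold Dn
  refine (mul_le_mul_of_nonneg_left (norm_sum_le _ _) (by positivity)).trans ?_
  rw [Finset.mul_sum]
  refine Finset.sum_le_sum fun i hi => ?_
  have hik : i ≤ k := by
    have := Finset.mem_range.1 hi
    omega
  rw [norm_mul, gi_norm s hs i n (by exact_mod_cast hn)]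
  refine le_of_eq ?_
  have h3 : (2 - θ) ^ k = (2 - θ) ^ i * (2 - θ) ^ (k - i) := by
    rw [← pow_add]
    congr 1
    omega
  rw [h3, mul_pow]
  ring

open Classical in
/-- A13. Schur's test for the part `B × B`. -/
lemma schur (q : ℕ) [NeZero q] (s : ℂ) (hs : s.re = 2) (θ : ℝ) (hθ : 1 / 2 ≤ θ) (hθ1 : θ < 1)
    (B : Finset (ZMod q)ˣ) (M : ℕ) (hM : 1 ≤ M)
    (w : (ZMod q)ˣ → ℕ → ℝ) (hw : ∀ a n, 0 ≤ w a n) (Row Col : ℝ) (hR : 0 ≤ Row) (hC : 0 ≤ Col)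
    (k : ℕ)
    (hrow : ∀ a ∈ B, ∑ n ∈ (Icc 2 M).filter (fun n => Nat.Coprime n q ∧ a * (un q n)⁻¹ ∈ B),
      w a n * (n : ℝ) ^ (-θ) ≤ Row)
    (hcol : ∀ a ∈ B, ∑ n ∈ (Icc 2 M).filter (fun n => Nat.Coprime n q ∧ a * un q n ∈ B),
      w (a * un q n) n * (n : ℝ) ^ (-θ) ≤ Col) :
    ∑ a ∈ B, ((∑ n ∈ (Icc 2 M).filter (fun n => Nat.Coprime n q ∧ a * (un q n)⁻¹ ∈ B),
        w a n * ‖Dn q s k (a * (un q n)⁻¹) n‖) * (2 - θ) ^ k) ^ 2
      ≤ Row * Col * sB q θ B s ⌈40 * Real.log M⌉₊ k := by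
  have hρ : 0 < 2 - θ := by linarith
  set I₀ : ℕ := ⌈40 * Real.log (M : ℝ)⌉₊ with hI₀
  have hgam : ∀ i, 0 ≤ gam I₀ i := by
    intro i
    unfold gam
    split_ifs
    · exact zero_le_one
    · positivity
  set v : ℕ → (ZMod q)ˣ → ℝ := fun j c => (2 - θ) ^ j * ‖Dk q s j c‖ with hv
  have hv0 : ∀ j c, 0 ≤ v j c := fun j c => by simp only [hv]; positivity
  set G : ℕ → ℕ → ℝ := fun i n => ((2 - θ) * Real.log n) ^ i / (i.factorial : ℝ) / (n : ℝ) ^ 2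
    with hG
  have hG0 : ∀ i n, 0 ≤ G i n := fun i n => A13_G_nonneg θ hθ1 i n
  set P : (ZMod q)ˣ → Finset ℕ := fun a =>
    (Icc 2 M).filter (fun n => Nat.Coprime n q ∧ a * (un q n)⁻¹ ∈ B) with hP
  have hn2 : ∀ a, ∀ n ∈ P a, 1 ≤ n := by
    intro a n hn
    simp only [hP, Finset.mem_filter, Finset.mem_Icc] at hn
    omega
  have hnM : ∀ a, ∀ n ∈ P a, n ≤ M := by
    intro a n hn
    simp only [hP, Finset.mem_filter, Finset.mem_Icc] at hn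
    omega
  -- the bound for one row
  have hone : ∀ a ∈ B, ((2 - θ) ^ k * ∑ n ∈ P a, w a n * ‖Dn q s k (a * (un q n)⁻¹) n‖) ^ 2
      ≤ Row * ∑ i ∈ range (k + 1), gam I₀ i * ∑ n ∈ P a,
        w a n * (n : ℝ) ^ (-θ) * v (k - i) (a * (un q n)⁻¹) ^ 2 := by
    intro a ha
    have h1 : (2 - θ) ^ k * ∑ n ∈ P a, w a n * ‖Dn q s k (a * (un q n)⁻¹) n‖
        ≤ ∑ p ∈ P a ×ˢ range (k + 1),
          w a p.1 * G p.2 p.1 * v (k - p.2) (a * (un q p.1)⁻¹) := by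
      rw [Finset.sum_product, Finset.mul_sum]
      refine Finset.sum_le_sum fun n hn => ?_
      have h2 := A13_Dn q s hs θ hθ1 k (a * (un q n)⁻¹) n (hn2 a n hn)
      calc (2 - θ) ^ k * (w a n * ‖Dn q s k (a * (un q n)⁻¹) n‖)
          = w a n * ((2 - θ) ^ k * ‖Dn q s k (a * (un q n)⁻¹) n‖) := by ring
        _ ≤ w a n * ∑ i ∈ range (k + 1),
            (((2 - θ) * Real.log n) ^ i / (i.factorial : ℝ) / (n : ℝ) ^ 2) *
              ((2 - θ) ^ (k - i) * ‖Dk q s (k - i) (a * (un q n)⁻¹)‖) :=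
            mul_le_mul_of_nonneg_left h2 (hw a n)
        _ = ∑ i ∈ range (k + 1), w a n * G i n * v (k - i) (a * (un q n)⁻¹) := by
            rw [Finset.mul_sum]
            refine Finset.sum_congr rfl fun i _ => ?_
            simp only [hG, hv]
            ring
    have h0 : 0 ≤ (2 - θ) ^ k * ∑ n ∈ P a, w a n * ‖Dn q s k (a * (un q n)⁻¹) n‖ := by
      have : 0 ≤ ∑ n ∈ P a, w a n * ‖Dn q s k (a * (un q n)⁻¹) n‖ :=
        Finset.sum_nonneg fun n _ => mul_nonneg (hw a n) (norm_nonneg _)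
      positivity
    have h3 : (∑ p ∈ P a ×ˢ range (k + 1),
          w a p.1 * G p.2 p.1 * v (k - p.2) (a * (un q p.1)⁻¹)) ^ 2
        ≤ (∑ p ∈ P a ×ˢ range (k + 1), w a p.1 * G p.2 p.1) *
          ∑ p ∈ P a ×ˢ range (k + 1),
            w a p.1 * G p.2 p.1 * v (k - p.2) (a * (un q p.1)⁻¹) ^ 2 := by
      refine Finset.sum_sq_le_sum_mul_sum_of_sq_le_mul _ ?_ ?_ ?_
      · intro p _
        exact mul_nonneg (hw _ _) (hG0 _ _)
      · intro p _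
        exact mul_nonneg (mul_nonneg (hw _ _) (hG0 _ _)) (sq_nonneg _)
      · intro p _
        exact le_of_eq (by ring)
    have h4 : (∑ p ∈ P a ×ˢ range (k + 1), w a p.1 * G p.2 p.1) ≤ Row := by
      rw [Finset.sum_product]
      refine le_trans (Finset.sum_le_sum fun n hn => ?_) (hrow a ha)
      have h4a : ∑ i ∈ range (k + 1), w a n * G i n ≤ w a n * (n : ℝ) ^ (-θ) := by
        rw [← Finset.mul_sum]
        exact mul_le_mul_of_nonneg_left (A13_G_sum θ hθ1 k n (hn2 a n hn)) (hw a n)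
      exact h4a
    have h5 : (∑ p ∈ P a ×ˢ range (k + 1),
            w a p.1 * G p.2 p.1 * v (k - p.2) (a * (un q p.1)⁻¹) ^ 2)
        ≤ ∑ i ∈ range (k + 1), gam I₀ i * ∑ n ∈ P a,
          w a n * (n : ℝ) ^ (-θ) * v (k - i) (a * (un q n)⁻¹) ^ 2 := by
      rw [Finset.sum_product_right]
      refine Finset.sum_le_sum fun i _ => ?_
      rw [Finset.mul_sum]
      refine Finset.sum_le_sum fun n hn => ?_
      have h5a : G i n ≤ gam I₀ i * (n : ℝ) ^ (-θ) :=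
        gam_le θ hθ hθ1 M hM i n (hn2 a n hn) (hnM a n hn)
      calc w a n * G i n * v (k - i) (a * (un q n)⁻¹) ^ 2
          ≤ w a n * (gam I₀ i * (n : ℝ) ^ (-θ)) * v (k - i) (a * (un q n)⁻¹) ^ 2 :=
            mul_le_mul_of_nonneg_right (mul_le_mul_of_nonneg_left h5a (hw a n)) (sq_nonneg _)
        _ = gam I₀ i * (w a n * (n : ℝ) ^ (-θ) * v (k - i) (a * (un q n)⁻¹) ^ 2) := by ring
    have h6 : 0 ≤ ∑ p ∈ P a ×ˢ range (k + 1),
            w a p.1 * G p.2 p.1 * v (k - p.2) (a * (un q p.1)⁻¹) ^ 2 :=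
      Finset.sum_nonneg fun p _ => mul_nonneg (mul_nonneg (hw _ _) (hG0 _ _)) (sq_nonneg _)
    calc _ ≤ (∑ p ∈ P a ×ˢ range (k + 1),
          w a p.1 * G p.2 p.1 * v (k - p.2) (a * (un q p.1)⁻¹)) ^ 2 := pow_le_pow_left₀ h0 h1 2
      _ ≤ _ := h3
      _ ≤ Row * ∑ p ∈ P a ×ˢ range (k + 1),
            w a p.1 * G p.2 p.1 * v (k - p.2) (a * (un q p.1)⁻¹) ^ 2 :=
          mul_le_mul_of_nonneg_right h4 h6
      _ ≤ _ := mul_le_mul_of_nonneg_left h5 hR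
  -- the columns
  have hcl : ∀ i ∈ range (k + 1), ∑ a ∈ B, ∑ n ∈ P a,
        w a n * (n : ℝ) ^ (-θ) * v (k - i) (a * (un q n)⁻¹) ^ 2 ≤ Col * uB q θ B s (k - i) := by
    intro i _
    have h1 : ∑ a ∈ B, ∑ n ∈ P a,
        w a n * (n : ℝ) ^ (-θ) * v (k - i) (a * (un q n)⁻¹) ^ 2
        = ∑ c ∈ B, ∑ n ∈ (Icc 2 M).filter (fun n => Nat.Coprime n q ∧ c * un q n ∈ B),
          w (c * un q n) n * (n : ℝ) ^ (-θ) * v (k - i) c ^ 2 := by
      rw [Finset.sum_sigma', Finset.sum_sigma']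
      refine Finset.sum_bij'
        (fun p _ => (⟨p.1 * (un q p.2)⁻¹, p.2⟩ : (_ : (ZMod q)ˣ) × ℕ))
        (fun p _ => (⟨p.1 * un q p.2, p.2⟩ : (_ : (ZMod q)ˣ) × ℕ)) ?_ ?_ ?_ ?_ ?_
      · rintro ⟨a, n⟩ hp
        simp only [hP, Finset.mem_sigma, Finset.mem_filter] at hp ⊢
        refine ⟨hp.2.2.2, hp.2.1, hp.2.2.1, ?_⟩
        simpa using hp.1
      · rintro ⟨a, n⟩ hp
        simp only [hP, Finset.mem_sigma, Finset.mem_filter] at hp ⊢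
        refine ⟨hp.2.2.2, hp.2.1, hp.2.2.1, ?_⟩
        simpa using hp.1
      · rintro ⟨a, n⟩ _
        simp
      · rintro ⟨a, n⟩ _
        simp
      · rintro ⟨a, n⟩ _
        simp
    rw [h1]
    have h2 : ∀ c ∈ B, ∑ n ∈ (Icc 2 M).filter (fun n => Nat.Coprime n q ∧ c * un q n ∈ B),
          w (c * un q n) n * (n : ℝ) ^ (-θ) * v (k - i) c ^ 2
        ≤ Col * v (k - i) c ^ 2 := by
      intro c hc
      rw [← Finset.sum_mul]
      exact mul_le_mul_of_nonneg_right (hcol c hc) (sq_nonneg _)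
    refine (Finset.sum_le_sum h2).trans ?_
    rw [← Finset.mul_sum]
    refine mul_le_mul_of_nonneg_left (le_of_eq ?_) hC
    unfold uB
    refine Finset.sum_congr rfl fun c _ => ?_
    simp only [hv]
    ring
  -- the sum over the rows
  have hall : ∑ a ∈ B, ((2 - θ) ^ k *
      ∑ n ∈ P a, w a n * ‖Dn q s k (a * (un q n)⁻¹) n‖) ^ 2 ≤ Row * Col * sB q θ B s I₀ k := by
    refine (Finset.sum_le_sum hone).trans ?_
    rw [← Finset.mul_sum, Finset.sum_comm, mul_assoc]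
    refine mul_le_mul_of_nonneg_left ?_ hR
    unfold sB
    rw [Finset.mul_sum]
    refine Finset.sum_le_sum fun i hi => ?_
    rw [← Finset.mul_sum]
    calc gam I₀ i * ∑ a ∈ B, ∑ n ∈ P a,
          w a n * (n : ℝ) ^ (-θ) * v (k - i) (a * (un q n)⁻¹) ^ 2
        ≤ gam I₀ i * (Col * uB q θ B s (k - i)) :=
          mul_le_mul_of_nonneg_left (hcl i hi) (hgam i)
      _ = Col * (gam I₀ i * uB q θ B s (k - i)) := by ring
  refine le_trans (le_of_eq ?_) hall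
  refine Finset.sum_congr rfl fun a _ => ?_
  rw [mul_comm]

end Pool.Agent.MW
end
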