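import Mathlib
import Pool.Agent.Lib.MP_9cfc0a_nt.Mg.G023
import Pool.Agent.Lib.MP_9cfc0a_nt.Mg.G026
import Pool.Agent.Lib.MP_9cfc0a_nt.MY.Defs
import Pool.Agent.Lib.MP_9cfc0a_nt.Mg.G024

section

set_option autoImplicit false

namespace Pool.Agent.MZ

open Complex Finset MY

lemma Q1_sub (q : ℕ) (B : Finset (ZMod q)ˣ) (Z : ℝ) (a : (ZMod q)ˣ) :
    Dz q B Z a ⊆ Ds q B a := by
  classical
  intro d hd
  unfold Dz at hd
  unfold Ds
  rw [mem_insert, mem_biUnion] at hd ⊢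
  rcases hd with h | ⟨r, hr, h⟩
  · exact Or.inl h
  · exact Or.inr ⟨r, (mem_filter.mp hr).1, h⟩

lemma Dz_mem (q : ℕ) (hq : 2 ≤ q) (B : Finset (ZMod q)ˣ) (Z : ℝ) (hZ : 1 ≤ Z) (a : (ZMod q)ˣ) :
    1 ∈ Dz q B Z a ∧ ∀ d ∈ Dz q B Z a, 1 ≤ d ∧ d ≤ q ∧ (d : ℝ) ≤ Z := by
  classical
  refine ⟨mem_insert_self _ _, fun d hd => ?_⟩
  have h1 := (Ds_mem q hq B a).2 d (Q1_sub q B Z a hd)
  refine ⟨h1.1, h1.2, ?_⟩
  unfold Dz at hd
  rw [mem_insert, mem_biUnion] at hd
  rcases hd with rfl | ⟨r, hr, hd⟩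
  · rw [Nat.cast_one]
    exact hZ
  · rw [mem_filter] at hr
    have hr1 := hr.1
    unfold Ra at hr1
    rw [mem_filter, mem_Icc] at hr1
    rw [Nat.mem_divisors] at hd
    have h2 := Nat.le_of_dvd (by omega) hd.1
    have h3 : (d : ℝ) ≤ r := by exact_mod_cast h2
    exact h3.trans hr.2

lemma Dz_card (κ : ℝ) (hκ : 0 < κ) : ∃ C : ℝ, 1 ≤ C ∧ ∀ (q : ℕ), 2 ≤ q →
    ∀ (B : Finset (ZMod q)ˣ) (Z : ℝ) (a : (ZMod q)ˣ),
    ((Dz q B Z a).card : ℝ) ≤ 1 + C * B.card * (q : ℝ) ^ κ := by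
  obtain ⟨C, hC1, hC⟩ := Ds_card κ hκ
  refine ⟨C, hC1, fun q hq B Z a => ?_⟩
  have h1 : ((Dz q B Z a).card : ℝ) ≤ ((Ds q B a).card : ℝ) := by
    exact_mod_cast card_le_card (Q1_sub q B Z a)
  exact h1.trans (hC q hq B a)

/-- The coefficients vanish on the elements `≤ Z` of `Ra`. -/
lemma cn_zero_z (q : ℕ) (B : Finset (ZMod q)ˣ) (a : (ZMod q)ˣ) (Z U : ℝ) (hU : (q : ℝ) ≤ U) (n : ℕ)
    (hn : n ∈ Ra q B a) (hnZ : (n : ℝ) ≤ Z) : cn (Dz q B Z a) U n = 0 := by
  classical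
  rw [← cn_zero q B a U hU n hn]
  unfold cn
  have h1 : (Dz q B Z a).filter (fun d => d ∣ n) = (Ds q B a).filter (fun d => d ∣ n) := by
    ext d
    rw [mem_filter, mem_filter]
    constructor
    · exact fun h => ⟨Q1_sub q B Z a h.1, h.2⟩
    · rintro ⟨-, h⟩
      refine ⟨?_, h⟩
      unfold Dz
      rw [mem_insert, mem_biUnion]
      have hn' := hn
      unfold Ra at hn'
      rw [mem_filter, mem_Icc] at hn'
      exact Or.inr ⟨n, mem_filter.mpr ⟨hn, hnZ⟩, Nat.mem_divisors.mpr ⟨h, by omega⟩⟩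
  rw [h1]

end Pool.Agent.MZ
end

section

set_option autoImplicit false

namespace Pool.Agent.MY

open Complex Finset

/-- A3. Cauchy's inequality. -/
lemma TC_cauchy (F : ℂ → ℂ) (s : ℂ) (R M : ℝ) (hR : 0 < R)
    (hF : ∀ z ∈ Metric.closedBall s R, DifferentiableAt ℂ F z)
    (hM : ∀ z ∈ Metric.closedBall s R, ‖F z‖ ≤ M) (k : ℕ) :
    ‖TC F s k‖ ≤ M * (R⁻¹) ^ k := by
  have h1 : DiffContOnCl ℂ F (Metric.ball s R) := by
    refine DifferentiableOn.diffContOnCl fun z hz => ?_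
    rw [closure_ball s hR.ne'] at hz
    exact (hF z hz).differentiableWithinAt
  have h2 := Complex.norm_iteratedDeriv_le_of_forall_mem_sphere_norm_le k hR h1
    (fun z hz => hM z (Metric.sphere_subset_closedBall hz))
  unfold TC
  have h3 : (0 : ℝ) < k.factorial := by exact_mod_cast k.factorial_pos
  rw [norm_div, Complex.norm_natCast, div_le_iff₀ h3]
  refine h2.trans (le_of_eq ?_)
  rw [inv_pow]
  field_simp

/-- Bound for the logarithmic derivative to the right of `5/4`. -/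
lemma logDeriv_bound : ∃ C : ℝ, 0 ≤ C ∧ ∀ (q : ℕ) [NeZero q] (χ : DirichletCharacter ℂ q) (s : ℂ),
    5 / 4 ≤ s.re → ‖logDeriv χ.LFunction s‖ ≤ C := by
  have hsum := ArithmeticFunction.LSeriesSummable_vonMangoldt (s := ((5 / 4 : ℝ) : ℂ))
    (by rw [Complex.ofReal_re]; norm_num)
  refine ⟨∑' n : ℕ, ‖LSeries.term (fun n => (ArithmeticFunction.vonMangoldt n : ℂ)) ((5 / 4 : ℝ) : ℂ) n‖,
    tsum_nonneg fun _ => norm_nonneg _, fun q _ χ s hs => ?_⟩
  have hs1 : 1 < s.re := by linarith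
  have h1 : logDeriv χ.LFunction s =
      -LSeries (fun n : ℕ => χ n * (ArithmeticFunction.vonMangoldt n : ℂ)) s := by
    have h2 := DirichletCharacter.LSeries_twist_vonMangoldt_eq χ hs1
    have h3 : LSeries (fun n : ℕ => χ n * (ArithmeticFunction.vonMangoldt n : ℂ)) s
      = -deriv (LSeries fun n : ℕ => χ n) s / LSeries (fun n : ℕ => χ n) s := h2
    rw [h3, logDeriv_apply, χ.deriv_LFunction_eq_deriv_LSeries hs1, χ.LFunction_eq_LSeries hs1]
    ring
  rw [h1, norm_neg]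
  unfold LSeries
  have h4 : ∀ n : ℕ, ‖LSeries.term (fun n : ℕ => χ n * (ArithmeticFunction.vonMangoldt n : ℂ)) s n‖
      ≤ ‖LSeries.term (fun n => (ArithmeticFunction.vonMangoldt n : ℂ)) ((5 / 4 : ℝ) : ℂ) n‖ := by
    intro n
    rcases Nat.eq_zero_or_pos n with h | h
    · subst h; simp
    · rw [LSeries.norm_term_eq, LSeries.norm_term_eq, if_neg (by omega), if_neg (by omega)]
      have hn1 : (1 : ℝ) ≤ n := by exact_mod_cast h
      rw [norm_mul, Complex.ofReal_re]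
      have h5 : ‖χ n‖ ≤ 1 := χ.norm_le_one _
      have h6 : (n : ℝ) ^ (5 / 4 : ℝ) ≤ (n : ℝ) ^ s.re :=
        Real.rpow_le_rpow_of_exponent_le hn1 hs
      have h7 : 0 < (n : ℝ) ^ (5 / 4 : ℝ) := by positivity
      calc ‖χ n‖ * ‖(ArithmeticFunction.vonMangoldt n : ℂ)‖ / (n : ℝ) ^ s.re
          ≤ 1 * ‖(ArithmeticFunction.vonMangoldt n : ℂ)‖ / (n : ℝ) ^ (5 / 4 : ℝ) := by gcongr
        _ = _ := by rw [one_mul]
  exact tsum_of_norm_bounded hsum.norm.hasSum h4

lemma tk_bound : ∃ C : ℝ, 0 ≤ C ∧ ∀ (q : ℕ) [NeZero q] (χ : DirichletCharacter ℂ q) (s : ℂ),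
    s.re = 2 → ∀ k : ℕ, ‖TC (fun z => -logDeriv χ.LFunction z) s k‖ ≤ C * (4 / 3 : ℝ) ^ k := by
  obtain ⟨C, hC0, hC⟩ := logDeriv_bound
  refine ⟨C, hC0, fun q _ χ s hs k => ?_⟩
  have hre : ∀ z ∈ Metric.closedBall s (3 / 4), 5 / 4 ≤ z.re := by
    intro z hz
    rw [Metric.mem_closedBall, dist_eq_norm] at hz
    have h1 := Complex.abs_re_le_norm (z - s)
    rw [Complex.sub_re, hs, abs_le] at h1
    linarith
  have h1 := TC_cauchy (fun z => -logDeriv χ.LFunction z) s (3 / 4) C (by norm_num) (fun z hz => ?_)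
    (fun z hz => by rw [norm_neg]; exact hC q χ z (hre z hz)) k
  · have h2 : ((3 / 4 : ℝ))⁻¹ = 4 / 3 := by norm_num
    rwa [h2] at h1
  · have hz1 : 1 < z.re := by linarith [hre z hz]
    have hz : z ≠ 1 := by
      intro h
      rw [h, Complex.one_re] at hz1
      exact lt_irrefl _ hz1
    have h2 : AnalyticAt ℂ χ.LFunction z := by
      refine DifferentiableOn.analyticAt (s := {1}ᶜ) (fun w hw => ?_)
        (isOpen_compl_singleton.mem_nhds hz)
      exact (χ.differentiableAt_LFunction w (.inl hw)).differentiableWithinAt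
    have h3 : χ.LFunction z ≠ 0 :=
      DirichletCharacter.LFunction_ne_zero_of_one_le_re χ (.inr hz) hz1.le
    exact ((h2.deriv.div h2 h3).neg).differentiableAt

/-- The trivial bound for the class coefficients. -/
lemma Dk_bound : ∃ C : ℝ, 0 ≤ C ∧ ∀ (q : ℕ) [NeZero q] (s : ℂ), s.re = 2 → ∀ (k : ℕ)
    (a : (ZMod q)ˣ), ‖Dk q s k a‖ ≤ C * (4 / 3 : ℝ) ^ k := by
  classical
  obtain ⟨C, hC0, hC⟩ := tk_bound
  refine ⟨C, hC0, fun q _ s hs k a => ?_⟩
  have htot : (0 : ℝ) < q.totient := by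
    exact_mod_cast Nat.totient_pos.mpr (Nat.pos_of_ne_zero (NeZero.ne q))
  unfold Dk
  rw [norm_mul, norm_div, norm_one, Complex.norm_natCast, one_div, inv_mul_le_iff₀ htot]
  refine (norm_sum_le _ _).trans ?_
  have hcard : ((nt q).card : ℝ) ≤ q.totient := by
    have h1 : (nt q).card ≤ Fintype.card (DirichletCharacter ℂ q) := Finset.card_le_univ _
    rw [← Nat.card_eq_fintype_card, DirichletCharacter.card_eq_totient_of_hasEnoughRootsOfUnity] at h1
    exact_mod_cast h1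
  calc ∑ χ ∈ nt q, ‖χ ((a⁻¹ : (ZMod q)ˣ) : ZMod q) * TC (fun z => -logDeriv χ.LFunction z) s k‖
      ≤ ∑ _χ ∈ nt q, C * (4 / 3 : ℝ) ^ k := by
        refine sum_le_sum fun χ _ => ?_
        rw [norm_mul]
        have h5 : ‖χ ((a⁻¹ : (ZMod q)ˣ) : ZMod q)‖ ≤ 1 := χ.norm_le_one _
        calc _ ≤ 1 * (C * (4 / 3 : ℝ) ^ k) := mul_le_mul h5 (hC q χ s hs k) (norm_nonneg _) zero_le_one
          _ = _ := one_mul _
    _ = (nt q).card * (C * (4 / 3 : ℝ) ^ k) := by rw [sum_const, nsmul_eq_mul]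
    _ ≤ q.totient * (C * (4 / 3 : ℝ) ^ k) := by gcongr

end Pool.Agent.MY
end

section

set_option autoImplicit false

namespace Pool.Agent.MY

open Complex Finset

/-- The Euler factor. -/
lemma G3_deriv (c : ℂ) (p : ℕ) (hp : 0 < p) (z : ℂ) :
    HasDerivAt (fun z : ℂ => 1 - c * (p : ℂ) ^ (-z)) (c * Complex.log p * (p : ℂ) ^ (-z)) z := by
  have hp0 : (p : ℂ) ≠ 0 := by exact_mod_cast hp.ne'
  have h1 : HasDerivAt (fun z : ℂ => (p : ℂ) ^ (-z)) ((p : ℂ) ^ (-z) * Complex.log p * (-1)) z :=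
    (hasDerivAt_neg z).const_cpow (.inl hp0)
  have h2 := (h1.const_mul c).const_sub 1
  have h3 : c * Complex.log p * (p : ℂ) ^ (-z) = -(c * ((p : ℂ) ^ (-z) * Complex.log p * (-1))) := by
    ring
  rw [h3]
  exact h2

lemma G3_small (c : ℂ) (hc : ‖c‖ ≤ 1) (p : ℕ) (hp : 2 ≤ p) (z : ℂ) (hz : 1 / 10 ≤ z.re) :
    ‖c * (p : ℂ) ^ (-z)‖ ≤ 15 / 16 := by
  have hp0 : (0 : ℝ) < p := by
    have : 0 < p := by omega
    exact_mod_cast this
  have hp1 : (1 : ℝ) ≤ p := by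
    have : 1 ≤ p := by omega
    exact_mod_cast this
  have hp2 : (2 : ℝ) ≤ p := by exact_mod_cast hp
  have h1 : ‖(p : ℂ) ^ (-z)‖ = (p : ℝ) ^ (-z.re) := by
    have := Complex.norm_cpow_eq_rpow_re_of_pos hp0 (-z)
    rw [Complex.neg_re] at this
    exact_mod_cast this
  have h2 : (p : ℝ) ^ (-z.re) ≤ 15 / 16 := by
    calc (p : ℝ) ^ (-z.re) ≤ (p : ℝ) ^ (-(1 / 10) : ℝ) :=
          Real.rpow_le_rpow_of_exponent_le hp1 (by linarith)
      _ ≤ (2 : ℝ) ^ (-(1 / 10) : ℝ) := Real.rpow_le_rpow_of_nonpos (by norm_num) hp2 (by norm_num)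
      _ ≤ ((16 / 15 : ℝ) ^ (10 : ℝ)) ^ (-(1 / 10) : ℝ) := by
          refine Real.rpow_le_rpow_of_nonpos (by positivity) ?_ (by norm_num)
          norm_num
      _ = 15 / 16 := by
          rw [← Real.rpow_mul (by norm_num)]
          norm_num
  rw [norm_mul, h1]
  calc ‖c‖ * (p : ℝ) ^ (-z.re) ≤ 1 * (15 / 16) :=
        mul_le_mul hc h2 (Real.rpow_nonneg hp0.le _) zero_le_one
    _ = 15 / 16 := one_mul _

lemma G3_ne (c : ℂ) (hc : ‖c‖ ≤ 1) (p : ℕ) (hp : 2 ≤ p) (z : ℂ) (hz : 1 / 10 ≤ z.re) :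
    1 - c * (p : ℂ) ^ (-z) ≠ 0 := by
  intro h
  have h1 : c * (p : ℂ) ^ (-z) = 1 := (sub_eq_zero.mp h).symm
  have h2 := G3_small c hc p hp z hz
  rw [h1, norm_one] at h2
  norm_num at h2

lemma G3_diff (c : ℂ) (p : ℕ) (hp : 0 < p) : Differentiable ℂ (fun z : ℂ => 1 - c * (p : ℂ) ^ (-z)) :=
  fun z => (G3_deriv c p hp z).differentiableAt

lemma G3_analytic (f : ℂ → ℂ) (hf : Differentiable ℂ f) (z : ℂ) (hz : f z ≠ 0) :
    AnalyticAt ℂ (logDeriv f) z :=
  (hf.analyticAt z).deriv.div (hf.analyticAt z) hz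

lemma G3_bound (c : ℂ) (hc : ‖c‖ ≤ 1) (p : ℕ) (hp : 2 ≤ p) (z : ℂ) (hz : 1 / 10 ≤ z.re) :
    ‖logDeriv (fun z : ℂ => 1 - c * (p : ℂ) ^ (-z)) z‖ ≤ 15 * Real.log p := by
  have hp1 : (1 : ℝ) ≤ p := by
    have : 1 ≤ p := by omega
    exact_mod_cast this
  have hlog : 0 ≤ Real.log p := Real.log_nonneg hp1
  have h1 := G3_small c hc p hp z hz
  have h2 : logDeriv (fun z : ℂ => 1 - c * (p : ℂ) ^ (-z)) z
      = Complex.log p * (c * (p : ℂ) ^ (-z)) / (1 - c * (p : ℂ) ^ (-z)) := by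
    rw [logDeriv_apply, (G3_deriv c p (by omega) z).deriv]
    congr 1
    ring
  have h3 : 1 / 16 ≤ ‖1 - c * (p : ℂ) ^ (-z)‖ := by
    have h4 := norm_sub_norm_le (1 : ℂ) (c * (p : ℂ) ^ (-z))
    rw [norm_one] at h4
    linarith
  have h5 : ‖Complex.log p‖ = Real.log p := by
    have h6 : Complex.log (p : ℂ) = ((Real.log p : ℝ) : ℂ) := by
      rw [← Complex.natCast_log]
    rw [h6, Complex.norm_real, Real.norm_of_nonneg hlog]
  rw [h2, norm_div, norm_mul, h5, div_le_iff₀ (by linarith)]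
  calc Real.log p * ‖c * (p : ℂ) ^ (-z)‖ ≤ Real.log p * (15 / 16) :=
        mul_le_mul_of_nonneg_left h1 hlog
    _ = 15 * Real.log p * (1 / 16) := by ring
    _ ≤ 15 * Real.log p * ‖1 - c * (p : ℂ) ^ (-z)‖ :=
        mul_le_mul_of_nonneg_left h3 (by positivity)

lemma G3_TC (c : ℂ) (hc : ‖c‖ ≤ 1) (p : ℕ) (hp : 2 ≤ p) (s : ℂ) (hs : s.re = 2) (k : ℕ) :
    ‖TC (logDeriv (fun z : ℂ => 1 - c * (p : ℂ) ^ (-z))) s k‖
      ≤ 15 * Real.log p * (10 / 19 : ℝ) ^ k := by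
  have hre : ∀ z ∈ Metric.closedBall s (19 / 10), 1 / 10 ≤ z.re := by
    intro z hz
    rw [Metric.mem_closedBall, dist_eq_norm] at hz
    have h1 := Complex.abs_re_le_norm (z - s)
    rw [Complex.sub_re, hs] at h1
    have h2 := abs_le.mp (h1.trans hz)
    linarith [h2.1]
  have h := TC_cauchy (logDeriv (fun z : ℂ => 1 - c * (p : ℂ) ^ (-z))) s (19 / 10)
    (15 * Real.log p) (by norm_num)
    (fun z hz => (G3_analytic _ (G3_diff c p (by omega)) z
      (G3_ne c hc p hp z (hre z hz))).differentiableAt)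
    (fun z hz => G3_bound c hc p hp z (hre z hz)) k
  have h2 : ((19 / 10 : ℝ)⁻¹) = 10 / 19 := by norm_num
  rwa [h2] at h

lemma G3_log (q : ℕ) (hq : q ≠ 0) : ∑ p ∈ q.primeFactors, Real.log p ≤ Real.log q := by
  have h1 : ∀ p ∈ q.primeFactors, (p : ℝ) ≠ 0 := by
    intro p hp
    exact_mod_cast (Nat.prime_of_mem_primeFactors hp).ne_zero
  rw [← Real.log_prod h1]
  have h2 : ∏ p ∈ q.primeFactors, p ≤ q :=
    Nat.le_of_dvd (Nat.pos_of_ne_zero hq) (Nat.prod_primeFactors_dvd q)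
  have h3 : 0 < ∏ p ∈ q.primeFactors, p :=
    Finset.prod_pos fun p hp => (Nat.prime_of_mem_primeFactors hp).pos
  have h5 : (∏ p ∈ q.primeFactors, (p : ℝ)) = ((∏ p ∈ q.primeFactors, p : ℕ) : ℝ) := by
    rw [Nat.cast_prod]
  rw [h5]
  refine Real.log_le_log ?_ ?_
  · exact_mod_cast h3
  · exact_mod_cast h2

lemma G3_FF_ne (d : ℕ) [NeZero d] (χ : DirichletCharacter ℂ d) (z : ℂ) (hz : 1 < z.re) :
    MC.FF d χ z ≠ 0 := by
  have hz1 : z ≠ 1 := by
    intro h
    rw [h, Complex.one_re] at hz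
    exact lt_irrefl _ hz
  by_cases h : χ = 1
  · subst h
    rw [MC.FF_one_apply d z hz1]
    exact mul_ne_zero (sub_ne_zero.mpr hz1)
      (DirichletCharacter.LFunction_ne_zero_of_one_le_re 1 (.inr hz1) hz.le)
  · rw [MC.FF_of_ne d χ h]
    exact DirichletCharacter.LFunction_ne_zero_of_one_le_re χ (.inl h) hz.le

lemma G3_FF_mul (d q : ℕ) [NeZero d] [NeZero q] (hdq : d ∣ q) (χ : DirichletCharacter ℂ d)
    (z : ℂ) (hz : 1 < z.re) :
    MC.FF q (DirichletCharacter.changeLevel hdq χ) z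
      = MC.FF d χ z * ∏ p ∈ q.primeFactors, (1 - χ p * (p : ℂ) ^ (-z)) := by
  have hz1 : z ≠ 1 := by
    intro h
    rw [h, Complex.one_re] at hz
    exact lt_irrefl _ hz
  by_cases h : χ = 1
  · subst h
    rw [DirichletCharacter.changeLevel_one hdq, MC.FF_one_apply d z hz1, MC.FF_one_apply q z hz1]
    have h2 := DirichletCharacter.LFunction_changeLevel hdq (1 : DirichletCharacter ℂ d)
      (s := z) (.inr hz1)
    rw [DirichletCharacter.changeLevel_one hdq] at h2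
    rw [h2, mul_assoc]
  · have h1 : DirichletCharacter.changeLevel hdq χ ≠ 1 := fun h2 =>
      h ((DirichletCharacter.changeLevel_eq_one_iff hdq).mp h2)
    rw [MC.FF_of_ne d χ h, MC.FF_of_ne q _ h1]
    exact DirichletCharacter.LFunction_changeLevel hdq χ (.inl h)

/-- G3. The Euler factors at the primes dividing `q` and not `d`. -/
lemma euler (d q : ℕ) [NeZero d] [NeZero q] (hdq : d ∣ q) (χ : DirichletCharacter ℂ d) (s : ℂ)
    (hs : s.re = 2) (k : ℕ) :
    ‖TC (logDeriv (MC.FF d χ)) s k‖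
      ≤ ‖TC (logDeriv (MC.FF q (DirichletCharacter.changeLevel hdq χ))) s k‖
        + 15 * Real.log q * (10 / 19 : ℝ) ^ k := by
  classical
  set χ' := DirichletCharacter.changeLevel hdq χ with hχ'
  set G : ℕ → ℂ → ℂ := fun p => logDeriv (fun z : ℂ => 1 - χ p * (p : ℂ) ^ (-z)) with hG
  have hχ1 : ∀ p : ℕ, ‖χ p‖ ≤ 1 := fun p => χ.norm_le_one _
  have hp2 : ∀ p ∈ q.primeFactors, 2 ≤ p := fun p hp => (Nat.prime_of_mem_primeFactors hp).two_le
  have hs1 : 1 < s.re := by rw [hs]; norm_num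
  -- the identity near `s`
  have hev : logDeriv (MC.FF d χ) =ᶠ[nhds s] fun z => ∑ i ∈ insertNone q.primeFactors,
      (match i with
        | none => (1 : ℂ)
        | some _ => -1) * (match i with
        | none => logDeriv (MC.FF q χ')
        | some p => G p) z := by
    have hopen : {z : ℂ | 1 < z.re} ∈ nhds s :=
      (isOpen_lt continuous_const Complex.continuous_re).mem_nhds hs1
    filter_upwards [hopen] with z hz
    have hz' : 1 < z.re := hz
    rw [Finset.sum_insertNone]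
    have h1 : logDeriv (MC.FF q χ') z = logDeriv (MC.FF d χ) z + ∑ p ∈ q.primeFactors, G p z := by
      have h2 : MC.FF q χ' =ᶠ[nhds z]
          fun w => MC.FF d χ w * ∏ p ∈ q.primeFactors, (1 - χ p * (p : ℂ) ^ (-w)) := by
        have hopen' : {w : ℂ | 1 < w.re} ∈ nhds z :=
          (isOpen_lt continuous_const Complex.continuous_re).mem_nhds hz'
        filter_upwards [hopen'] with w hw
        exact G3_FF_mul d q hdq χ w hw
      have h3 : logDeriv (MC.FF q χ') z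
          = logDeriv (fun w => MC.FF d χ w * ∏ p ∈ q.primeFactors, (1 - χ p * (p : ℂ) ^ (-w))) z := by
        rw [logDeriv_apply, logDeriv_apply, h2.deriv_eq, h2.eq_of_nhds]
      have hne : ∀ p ∈ q.primeFactors, 1 - χ p * (p : ℂ) ^ (-z) ≠ 0 := fun p hp =>
        G3_ne (χ p) (hχ1 p) p (hp2 p hp) z (by linarith)
      have hd : ∀ p ∈ q.primeFactors,
          DifferentiableAt ℂ (fun w : ℂ => 1 - χ p * (p : ℂ) ^ (-w)) z := fun p hp =>
        G3_diff (χ p) p (by have := hp2 p hp; omega) z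
      have h4 : (∏ p ∈ q.primeFactors, (1 - χ p * (p : ℂ) ^ (-z))) ≠ 0 :=
        Finset.prod_ne_zero_iff.mpr hne
      rw [h3, logDeriv_mul z (G3_FF_ne d χ z hz') h4 (MC.FF_differentiable d χ z)
        (DifferentiableAt.fun_finsetProd hd)]
      congr 1
      exact logDeriv_prod (f := fun (p : ℕ) (w : ℂ) => 1 - χ p * (p : ℂ) ^ (-w)) hne hd
    simp only []
    rw [h1]
    simp only [neg_mul, one_mul, Finset.sum_neg_distrib]
    ring
  have hTC : TC (logDeriv (MC.FF d χ)) s k = ∑ i ∈ insertNone q.primeFactors,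
      (match i with
        | none => (1 : ℂ)
        | some _ => -1) * TC (match i with
        | none => logDeriv (MC.FF q χ')
        | some p => G p) s k := by
    have h1 : TC (logDeriv (MC.FF d χ)) s k = TC (fun z => ∑ i ∈ insertNone q.primeFactors,
      (match i with
        | none => (1 : ℂ)
        | some _ => -1) * (match i with
        | none => logDeriv (MC.FF q χ')
        | some p => G p) z) s k := by
      unfold TC
      rw [hev.iteratedDeriv_eq k]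
    rw [h1]
    refine TC_sum (insertNone q.primeFactors) (fun i : Option ℕ => match i with
        | none => (1 : ℂ)
        | some _ => -1) (fun i : Option ℕ => match i with
        | none => logDeriv (MC.FF q χ')
        | some p => G p) s ?_ k
    intro i hi
    cases i with
    | none => exact G3_analytic _ (MC.FF_differentiable q χ') s (G3_FF_ne q χ' s hs1)
    | some p =>
      have hp : p ∈ q.primeFactors := Finset.some_mem_insertNone.mp hi
      exact G3_analytic _ (G3_diff (χ p) p (by have := hp2 p hp; omega)) s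
        (G3_ne (χ p) (hχ1 p) p (hp2 p hp) s (by rw [hs]; norm_num))
  rw [hTC, Finset.sum_insertNone]
  refine (norm_add_le _ _).trans ?_
  simp only [one_mul, neg_mul, Finset.sum_neg_distrib, norm_neg]
  refine add_le_add le_rfl ?_
  refine (norm_sum_le _ _).trans ?_
  calc ∑ p ∈ q.primeFactors, ‖TC (G p) s k‖
      ≤ ∑ p ∈ q.primeFactors, 15 * Real.log p * (10 / 19 : ℝ) ^ k :=
        Finset.sum_le_sum fun p hp => G3_TC (χ p) (hχ1 p) p (hp2 p hp) s hs k
    _ = 15 * (∑ p ∈ q.primeFactors, Real.log p) * (10 / 19 : ℝ) ^ k := by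
        rw [Finset.mul_sum, Finset.sum_mul]
    _ ≤ 15 * Real.log q * (10 / 19 : ℝ) ^ k := by
        refine mul_le_mul_of_nonneg_right (mul_le_mul_of_nonneg_left
          (G3_log q (NeZero.ne q)) (by norm_num)) (by positivity)

end Pool.Agent.MY
end
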