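import Mathlib
import Pool.Agent.Lib.MP_9cfc0a_nt.MY.Defs
import Pool.Agent.Lib.MP_9cfc0a_nt.Mg.G027
import Pool.Agent.Lib.MP_9cfc0a_nt.Mg.G023

section

set_option autoImplicit false

namespace Pool.Agent.MY

open MC MC.C2 MeasureTheory Real

/-- H9c. Bounds for the derivatives of `gg`. -/
lemma A4_gg_bound (j : ℕ) : ∃ C : ℝ, 0 ≤ C ∧ ∀ s : ℂ, 0 < s.re → ∀ U : ℝ, 1 ≤ U →
    (∀ t : ℝ, t ≤ U → iteratedDeriv j (gg s U) t = 0) ∧
    (∀ t : ℝ, U < t → ‖iteratedDeriv j (gg s U) t‖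
      ≤ C * (‖s‖ + 1) ^ j * t ^ (-s.re - (j : ℝ))) := by
  choose D hD0 hD using H9c_W_bound
  refine ⟨∑ i ∈ Finset.range (j + 1), (j.choose i : ℝ) * D i * ((j - i).factorial : ℝ), ?_, ?_⟩
  · refine Finset.sum_nonneg fun i _ => ?_
    have := hD0 i
    positivity
  · intro s hs U hU
    have hU0 : 0 < U := by linarith
    have hzero : ∀ t : ℝ, t < U → iteratedDeriv j (gg s U) t = 0 := by
      intro t ht
      have e : gg s U =ᶠ[nhds t] fun _ => (0 : ℂ) := by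
        filter_upwards [gt_mem_nhds ht] with x hx
        exact H9c_gg_zero hU hx.le
      rw [e.iteratedDeriv_eq j, iteratedDeriv_const]
      split_ifs <;> rfl
    refine ⟨?_, ?_⟩
    · have hc : Continuous (iteratedDeriv j (gg s U)) :=
        (gg_smooth s U hU j).continuous_iteratedDeriv j le_rfl
      have hcl : IsClosed {t : ℝ | iteratedDeriv j (gg s U) t = 0} :=
        isClosed_eq hc continuous_const
      have hsub : closure (Set.Iio U) ⊆ {t : ℝ | iteratedDeriv j (gg s U) t = 0} :=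
        closure_minimal (fun t ht => hzero t ht) hcl
      rw [closure_Iio] at hsub
      intro t ht
      exact hsub ht
    · intro t ht
      have ht0 : 0 < t := by linarith
      have h1 : ContDiffAt ℝ j (fun x : ℝ => H9c_W (U⁻¹ * x)) t :=
        (H9c_W_smooth j).contDiffAt.comp t (contDiffAt_const.mul contDiffAt_id)
      have h2 := H9c_cpow_contDiffAt s j ht0
      have e : gg s U = (fun x : ℝ => H9c_W (U⁻¹ * x)) * (fun x : ℝ => (x : ℂ) ^ (-s)) := by
        funext x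
        simp only [Pi.mul_apply]
        unfold gg H9c_W
        rw [div_eq_inv_mul]
      rw [e, iteratedDeriv_mul h1 h2, Finset.sum_mul, Finset.sum_mul]
      refine norm_sum_le_of_le _ fun i hi => ?_
      have hij : i ≤ j := by
        have := Finset.mem_range.1 hi
        omega
      have e1 : iteratedDeriv i (fun x : ℝ => H9c_W (U⁻¹ * x)) t
          = (U⁻¹) ^ i • iteratedDeriv i H9c_W (U⁻¹ * t) := by
        rw [iteratedDeriv_comp_const_smul (H9c_W_smooth i)]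
      have b1 : ‖iteratedDeriv i (fun x : ℝ => H9c_W (U⁻¹ * x)) t‖ ≤ D i * (t ^ i)⁻¹ := by
        rw [e1, norm_smul, Real.norm_of_nonneg (by positivity)]
        calc (U⁻¹) ^ i * ‖iteratedDeriv i H9c_W (U⁻¹ * t)‖
            ≤ (U⁻¹) ^ i * (D i * ((U⁻¹ * t) ^ i)⁻¹) := by
              gcongr
              exact hD i _ (by positivity)
          _ = D i * (t ^ i)⁻¹ := by
              rw [mul_pow]
              field_simp
      have b2 : ‖iteratedDeriv (j - i) (fun x : ℝ => (x : ℂ) ^ (-s)) t‖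
          ≤ ((j - i).factorial : ℝ) * (‖s‖ + 1) ^ (j - i) * t ^ (-s.re - ((j - i : ℕ) : ℝ)) := by
        rw [H9c_cpow_iter s hs (j - i) t ht0, norm_mul,
          Complex.norm_cpow_eq_rpow_re_of_pos ht0]
        have : (-s - ((j - i : ℕ) : ℂ)).re = -s.re - ((j - i : ℕ) : ℝ) := by
          simp only [Complex.sub_re, Complex.neg_re, Complex.natCast_re]
        rw [this]
        gcongr
        exact H9c_prod_bound s (j - i)
      rw [norm_mul, norm_mul, Complex.norm_natCast]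
      have hs1 : (1 : ℝ) ≤ ‖s‖ + 1 := by linarith [norm_nonneg s]
      have hDi := hD0 i
      calc (j.choose i : ℝ) * ‖iteratedDeriv i (fun x : ℝ => H9c_W (U⁻¹ * x)) t‖
            * ‖iteratedDeriv (j - i) (fun x : ℝ => (x : ℂ) ^ (-s)) t‖
          ≤ (j.choose i : ℝ) * (D i * (t ^ i)⁻¹)
            * (((j - i).factorial : ℝ) * (‖s‖ + 1) ^ (j - i)
              * t ^ (-s.re - ((j - i : ℕ) : ℝ))) := by gcongr
        _ ≤ (j.choose i : ℝ) * (D i * (t ^ i)⁻¹)
            * (((j - i).factorial : ℝ) * (‖s‖ + 1) ^ j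
              * t ^ (-s.re - ((j - i : ℕ) : ℝ))) := by
            gcongr
            omega
        _ = (j.choose i : ℝ) * D i * ((j - i).factorial : ℝ) * (‖s‖ + 1) ^ j
            * ((t ^ i)⁻¹ * t ^ (-s.re - ((j - i : ℕ) : ℝ))) := by ring
        _ = (j.choose i : ℝ) * D i * ((j - i).factorial : ℝ) * (‖s‖ + 1) ^ j
            * t ^ (-s.re - (j : ℝ)) := by
            congr 1
            rw [← Real.rpow_natCast t i, ← Real.rpow_neg ht0.le, ← Real.rpow_add ht0]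
            congr 1
            rw [Nat.cast_sub hij]
            ring


/-- H9d. The smooth approximation of the `L`-function (uses H9a, H9b, H9c). -/
lemma smooth_approx' (k : ℕ) : ∃ C : ℝ, 0 ≤ C ∧ ∀ r : ℕ, ∀ [NeZero r],
    ∀ χ : DirichletCharacter ℂ r, χ ≠ 1 → ∀ s : ℂ, 1 / 8 ≤ s.re → ∀ U : ℝ, 1 ≤ U →
    ∀ N : ℕ, 2 * U ≤ N →
    ‖χ.LFunction s - ∑ n ∈ Finset.Icc 1 N, χ n * ((vv (n / U) : ℝ) : ℂ) * (n : ℂ) ^ (-s)‖
      ≤ C * ((r : ℝ) * (‖s‖ + 1)) ^ (k + 1) * U ^ (-(k : ℝ)) := by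
  obtain ⟨C, hC0, hC⟩ := A4_gg_bound (k + 1)
  refine ⟨2 ^ (k + 1) * C * 8, by positivity, ?_⟩
  intro r _ χ hχ s hs8 U hU N hN
  have hs0 : 0 < s.re := by linarith
  have hr0 : (0 : ℝ) < r := by exact_mod_cast Nat.pos_of_ne_zero (NeZero.ne r)
  have hU0 : 0 < U := by linarith
  -- the basic facts
  have hzero : ∀ j : ℕ, ∀ t : ℝ, t ≤ U → iteratedDeriv j (gg s U) t = 0 := by
    intro j t ht
    obtain ⟨C', -, hC'⟩ := A4_gg_bound j
    exact (hC' s hs0 U hU).1 t ht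
  have hcont : ∀ j : ℕ, Continuous (iteratedDeriv j (gg s U)) := by
    intro j
    exact (gg_smooth s U hU j).continuous_iteratedDeriv j le_rfl
  have hlim : ∀ j : ℕ, Filter.Tendsto (iteratedDeriv j (gg s U)) Filter.atTop (nhds 0) := by
    intro j
    obtain ⟨C', hC'0, hC'⟩ := A4_gg_bound j
    have h1 := (hC' s hs0 U hU).2
    have h2 : Filter.Tendsto (fun t : ℝ => C' * (‖s‖ + 1) ^ j * t ^ (-(s.re + (j : ℝ))))
        Filter.atTop (nhds 0) := by
      have h3 := (tendsto_rpow_neg_atTop (show 0 < s.re + (j : ℝ) by positivity)).const_mul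
        (C' * (‖s‖ + 1) ^ j)
      rwa [mul_zero] at h3
    refine squeeze_zero_norm' ?_ h2
    filter_upwards [Filter.eventually_gt_atTop U] with t ht
    have h3 := h1 t ht
    rwa [show -s.re - (j : ℝ) = -(s.re + (j : ℝ)) by ring] at h3
  have hint : ∀ j : ℕ, 1 ≤ j → Integrable (iteratedDeriv j (gg s U)) := by
    intro j hj
    obtain ⟨C', hC'0, hC'⟩ := A4_gg_bound j
    have h1 := (hC' s hs0 U hU).2
    have hj1 : (1 : ℝ) ≤ j := by exact_mod_cast hj
    have h2 : IntegrableOn (iteratedDeriv j (gg s U)) (Set.Ioi U) := by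
      have h3 : IntegrableOn (fun t : ℝ => C' * (‖s‖ + 1) ^ j * t ^ (-s.re - (j : ℝ)))
          (Set.Ioi U) :=
        (integrableOn_Ioi_rpow_of_lt (by linarith) hU0).const_mul _
      refine h3.mono' (hcont j).aestronglyMeasurable.restrict ?_
      filter_upwards [ae_restrict_mem measurableSet_Ioi] with t ht
      exact h1 t ht
    have h3 : IntegrableOn (iteratedDeriv j (gg s U)) (Set.Iic U) := by
      have h4 : IntegrableOn (fun _ : ℝ => (0 : ℂ)) (Set.Iic U) := integrableOn_zero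
      refine h4.congr_fun (fun t ht => ?_) measurableSet_Iic
      exact (hzero j t ht).symm
    rw [← integrableOn_univ, ← Set.Iic_union_Ioi (a := U)]
    exact h3.union h2
  have hibp := ibp_periodic (SumC (fun n => χ n)) r hr0 (2 * r) (SumC_measurable _)
    (H9d_per r χ hχ) (H9d_sum_bound r χ hχ) (gg s U) (gg_smooth s U hU)
    (fun t ht => by
      have := hzero 0 t (ht.trans hU)
      rwa [iteratedDeriv_zero] at this) k (fun j _ => hlim j) (fun j hj _ => hint j hj)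
  rw [approx_abel r χ hχ s hs0 U hU N hN, norm_neg]
  refine hibp.trans ?_
  -- the integral
  have h1 := (hC s hs0 U hU).2
  have hI : ∫ t in Set.Ioi (0 : ℝ), ‖iteratedDeriv (k + 1) (gg s U) t‖
      ≤ C * (‖s‖ + 1) ^ (k + 1) * (8 * U ^ (-(k : ℝ))) := by
    have h2 : ∫ t in Set.Ioi (0 : ℝ), ‖iteratedDeriv (k + 1) (gg s U) t‖
        = ∫ t in Set.Ioi U, ‖iteratedDeriv (k + 1) (gg s U) t‖ := by
      refine setIntegral_eq_of_subset_of_forall_sdiff_eq_zero measurableSet_Ioi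
        (Set.Ioi_subset_Ioi hU0.le) ?_
      intro t ht
      rw [hzero (k + 1) t (not_lt.mp ht.2), norm_zero]
    rw [h2]
    have h3 : ∫ t in Set.Ioi U, ‖iteratedDeriv (k + 1) (gg s U) t‖ ≤
        ∫ t in Set.Ioi U, C * (‖s‖ + 1) ^ (k + 1) * t ^ (-s.re - ((k + 1 : ℕ) : ℝ)) := by
      refine setIntegral_mono_on ((hint (k + 1) (by omega)).norm.integrableOn) ?_
        measurableSet_Ioi (fun t ht => h1 t ht)
      refine (integrableOn_Ioi_rpow_of_lt ?_ hU0).const_mul _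
      push_cast
      have : (0 : ℝ) ≤ k := Nat.cast_nonneg k
      linarith
    refine h3.trans ?_
    rw [integral_const_mul]
    refine mul_le_mul_of_nonneg_left ?_ (by positivity)
    have hk0 : (0 : ℝ) ≤ k := Nat.cast_nonneg k
    rw [integral_Ioi_rpow_of_lt (by push_cast; linarith) hU0]
    push_cast
    have h4 : -U ^ (-s.re - ((k : ℝ) + 1) + 1) / (-s.re - ((k : ℝ) + 1) + 1)
        = U ^ (-s.re) * U ^ (-(k : ℝ)) / (s.re + k) := by
      rw [← Real.rpow_add hU0, show -s.re - ((k : ℝ) + 1) + 1 = -(s.re + k) by ring,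
        neg_div_neg_eq, show -s.re + -(k : ℝ) = -(s.re + k) by ring]
    rw [h4, div_le_iff₀ (by linarith)]
    have h5 : U ^ (-s.re) ≤ 1 := Real.rpow_le_one_of_one_le_of_nonpos hU (by linarith)
    have h6 : 0 ≤ U ^ (-(k : ℝ)) := Real.rpow_nonneg hU0.le _
    have h7 : 1 ≤ 8 * (s.re + k) := by linarith
    calc U ^ (-s.re) * U ^ (-(k : ℝ)) ≤ 1 * U ^ (-(k : ℝ)) := mul_le_mul_of_nonneg_right h5 h6
      _ = U ^ (-(k : ℝ)) * 1 := by ring
      _ ≤ U ^ (-(k : ℝ)) * (8 * (s.re + k)) := mul_le_mul_of_nonneg_left h7 h6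
      _ = 8 * U ^ (-(k : ℝ)) * (s.re + k) := by ring
  refine (mul_le_mul_of_nonneg_left hI (by positivity)).trans (le_of_eq ?_)
  rw [mul_pow, mul_pow]
  ring

end Pool.Agent.MY
end

section

set_option autoImplicit false

namespace Pool.Agent.MY

open Complex Finset

lemma A5_re (s : ℂ) (hs : s.re = 2) (R : ℝ) (z : ℂ) (hz : z ∈ Metric.closedBall s R) :
    2 - R ≤ z.re := by
  rw [Metric.mem_closedBall, dist_eq_norm] at hz
  have h1 := Complex.abs_re_le_norm (z - s)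
  rw [Complex.sub_re, hs, abs_le] at h1
  linarith

lemma A5_norm (s : ℂ) (S : ℝ) (hs : ‖s‖ ≤ S) (R : ℝ) (z : ℂ) (hz : z ∈ Metric.closedBall s R) :
    ‖z‖ ≤ S + R := by
  rw [Metric.mem_closedBall, dist_eq_norm] at hz
  calc ‖z‖ = ‖(z - s) + s‖ := by ring_nf
    _ ≤ ‖z - s‖ + ‖s‖ := norm_add_le _ _
    _ ≤ S + R := by linarith

lemma A5_poly_diff (I : Finset ℕ) (hI : ∀ n ∈ I, 1 ≤ n) (c : ℕ → ℂ) :
    Differentiable ℂ (fun z : ℂ => ∑ n ∈ I, c n * (n : ℂ) ^ (-z)) := by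
  intro z
  have h : ∀ n ∈ I, DifferentiableAt ℂ (fun z : ℂ => c n * (n : ℂ) ^ (-z)) z := by
    intro n hn
    have hn0 : (n : ℂ) ≠ 0 := by
      have := hI n hn
      exact_mod_cast (by omega : n ≠ 0)
    exact (((hasDerivAt_neg z).const_cpow (c := (n : ℂ)) (.inl hn0)).differentiableAt).const_mul _
  exact DifferentiableAt.fun_sum h

lemma A5_M_norm (q : ℕ) [NeZero q] (χ : DirichletCharacter ℂ q) (D : Finset ℕ)
    (hD : ∀ d ∈ D, 1 ≤ d) (z : ℂ) (hz : 0 ≤ z.re) :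
    ‖∑ d ∈ D, (ArithmeticFunction.moebius d : ℂ) * χ d * (d : ℂ) ^ (-z)‖ ≤ D.card := by
  refine (norm_sum_le _ _).trans ?_
  calc ∑ d ∈ D, ‖(ArithmeticFunction.moebius d : ℂ) * χ d * (d : ℂ) ^ (-z)‖
      ≤ ∑ _d ∈ D, (1 : ℝ) := by
        refine sum_le_sum fun d hd => ?_
        have hd1 : (1 : ℝ) ≤ d := by exact_mod_cast hD d hd
        have hd0 : (0 : ℝ) < d := by linarith
        rw [norm_mul, norm_mul, Complex.norm_natCast_cpow_of_pos (by exact_mod_cast hd0),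
          Complex.norm_intCast]
        have h1 : |((ArithmeticFunction.moebius d : ℤ) : ℝ)| ≤ 1 := by
          have := ArithmeticFunction.abs_moebius_le_one (n := d)
          exact_mod_cast this
        have h2 : ‖χ d‖ ≤ 1 := χ.norm_le_one _
        have h3 : (d : ℝ) ^ (-z).re ≤ 1 := by
          apply Real.rpow_le_one_of_one_le_of_nonpos hd1
          rw [Complex.neg_re]; linarith
        have h4 : |((ArithmeticFunction.moebius d : ℤ) : ℝ)| * ‖χ d‖ ≤ 1 :=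
          mul_le_one₀ h1 (norm_nonneg _) h2
        exact mul_le_one₀ h4 (by positivity) h3
    _ = D.card := by simp

open MC.C2 in
/-- A5. The main analytic bound: `-(L'/L) M L_w = - L' M + (-L'/L) M (L_w - L)`. -/
lemma main_bound (κ : ℕ) : ∃ C : ℝ, 0 ≤ C ∧ ∀ (S : ℝ), 3 ≤ S → ∀ (q : ℕ) [NeZero q]
    (χ : DirichletCharacter ℂ q), χ ≠ 1 → ∀ s : ℂ, s.re = 2 → ‖s‖ ≤ S →
    ∀ D : Finset ℕ, (∀ d ∈ D, 1 ≤ d) → ∀ U : ℝ, 1 ≤ U → ∀ N : ℕ, 2 * U ≤ N → ∀ k : ℕ,
    ‖TC (fun z => (-logDeriv χ.LFunction z) *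
        ((∑ d ∈ D, (ArithmeticFunction.moebius d : ℂ) * χ d * (d : ℂ) ^ (-z)) *
        ∑ m ∈ Icc 1 N, χ m * ((vv (m / U) : ℝ) : ℂ) * (m : ℂ) ^ (-z))) s k‖
      ≤ C * (S + 2) ^ (κ + 1) * D.card * Err q κ U k := by
  obtain ⟨C₁, hC₁0, hC₁⟩ := logDeriv_bound
  obtain ⟨C₂, hC₂0, hC₂⟩ := smooth_approx' κ
  refine ⟨480 + C₁ * C₂, by positivity,
    fun S hS q _ χ hχ s hs hsS D hD U hU N hN k => ?_⟩
  have hqR : (1 : ℝ) ≤ q := by exact_mod_cast Nat.pos_of_ne_zero (NeZero.ne q)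
  set L : ℂ → ℂ := χ.LFunction with hL
  set M : ℂ → ℂ := fun z => ∑ d ∈ D, (ArithmeticFunction.moebius d : ℂ) * χ d * (d : ℂ) ^ (-z)
    with hM
  set W : ℂ → ℂ := fun z => ∑ m ∈ Icc 1 N, χ m * ((vv (m / U) : ℝ) : ℂ) * (m : ℂ) ^ (-z) with hW
  have hLd : Differentiable ℂ L := DirichletCharacter.differentiable_LFunction hχ
  have hMd : Differentiable ℂ M :=
    A5_poly_diff D hD (fun d => (ArithmeticFunction.moebius d : ℂ) * χ d)
  have hWd : Differentiable ℂ W :=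
    A5_poly_diff (Icc 1 N) (fun n hn => (mem_Icc.mp hn).1) (fun m => χ m * ((vv (m / U) : ℝ) : ℂ))
  have hL'd : Differentiable ℂ (deriv L) := hLd.deriv
  have hL0 : ∀ z : ℂ, 1 < z.re → L z ≠ 0 := fun z hz =>
    DirichletCharacter.LFunction_ne_zero_of_one_le_re χ (.inl hχ) hz.le
  -- the two parts
  set F₁ : ℂ → ℂ := fun z => -deriv L z * M z with hF₁
  set F₂ : ℂ → ℂ := fun z => (-logDeriv L z) * (M z * (W z - L z)) with hF₂
  have hopen : IsOpen {z : ℂ | 1 < z.re} := isOpen_lt continuous_const Complex.continuous_re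
  have hs1 : 1 < s.re := by rw [hs]; norm_num
  have hev : (fun z => (-logDeriv L z) * (M z * W z)) =ᶠ[nhds s] (F₁ + F₂) := by
    filter_upwards [hopen.mem_nhds hs1] with z hz
    have h1 := hL0 z hz
    simp only [Pi.add_apply, hF₁, hF₂, logDeriv_apply]
    field_simp
    ring
  have hF₁d : Differentiable ℂ F₁ := (hL'd.neg).mul hMd
  have hF₂a : ∀ z : ℂ, 1 < z.re → AnalyticAt ℂ F₂ z := by
    intro z hz
    have h1 : AnalyticAt ℂ L z := hLd.analyticAt z
    have h2 : AnalyticAt ℂ (fun z => -logDeriv L z) z := (h1.deriv.div h1 (hL0 z hz)).neg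
    exact h2.mul ((hMd.analyticAt z).mul ((hWd.analyticAt z).sub h1))
  have hsplit : TC (fun z => (-logDeriv L z) * (M z * W z)) s k = TC F₁ s k + TC F₂ s k := by
    unfold TC
    rw [hev.iteratedDeriv_eq k, iteratedDeriv_add ((hF₁d.analyticAt s).contDiffAt.of_le le_top)
      ((hF₂a s hs1).contDiffAt.of_le le_top), add_div]
  have hb1 : ‖TC F₁ s k‖ ≤ (480 * (S + 2) * q * D.card) * (4 / 7 : ℝ) ^ k := by
    have h1 := TC_cauchy F₁ s (7 / 4) (480 * (S + 2) * q * D.card) (by norm_num)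
      (fun z _ => hF₁d z) (fun z hz => ?_) k
    · have h2 : ((7 / 4 : ℝ))⁻¹ = 4 / 7 := by norm_num
      rwa [h2] at h1
    · have hre := A5_re s hs _ z hz
      have hn := A5_norm s S hsS _ z hz
      have h2 : ‖deriv L z‖ ≤ 480 * (S + 2) * q := by
        have h3 := Complex.norm_deriv_le_of_forall_mem_sphere_norm_le (f := L) (c := z)
          (R := 1 / 8) (C := 60 * (S + 2) * q) (by norm_num) hLd.diffContOnCl (fun w hw => ?_)
        · refine h3.trans (le_of_eq ?_)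
          ring
        · rw [mem_sphere_iff_norm] at hw
          have h4 := Complex.abs_re_le_norm (w - z)
          rw [Complex.sub_re, hw, abs_le] at h4
          have h5 : ‖w‖ ≤ S + 2 := by
            calc ‖w‖ = ‖(w - z) + z‖ := by ring_nf
              _ ≤ ‖w - z‖ + ‖z‖ := norm_add_le _ _
              _ ≤ S + 2 := by rw [hw]; linarith
          have h6 := EM.L_growth q χ hχ w (by linarith)
          calc ‖L w‖ ≤ 20 * (2 * q + 1) * ‖w‖ := h6
            _ ≤ 20 * (2 * q + q) * (S + 2) := by gcongr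
            _ = 60 * (S + 2) * q := by ring
      have h3 := A5_M_norm q χ D hD z (by linarith)
      simp only [hF₁, norm_mul, norm_neg]
      exact mul_le_mul h2 h3 (norm_nonneg _) (by positivity)
  have hb2 : ‖TC F₂ s k‖ ≤ (C₁ * (D.card * (C₂ * ((q : ℝ) * (S + 2)) ^ (κ + 1) *
      U ^ (-(κ : ℝ))))) * (4 / 3 : ℝ) ^ k := by
    have h1 := TC_cauchy F₂ s (3 / 4) (C₁ * (D.card * (C₂ * ((q : ℝ) * (S + 2)) ^ (κ + 1) *
      U ^ (-(κ : ℝ))))) (by norm_num) (fun z hz => ?_) (fun z hz => ?_) k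
    · have h2 : ((3 / 4 : ℝ))⁻¹ = 4 / 3 := by norm_num
      rwa [h2] at h1
    · exact (hF₂a z (by have := A5_re s hs _ z hz; linarith)).differentiableAt
    · have hre := A5_re s hs _ z hz
      have hn := A5_norm s S hsS _ z hz
      simp only [hF₂, norm_mul, norm_neg]
      refine mul_le_mul (hC₁ q χ z (by linarith)) ?_ (by positivity) hC₁0
      refine mul_le_mul (A5_M_norm q χ D hD z (by linarith)) ?_ (norm_nonneg _) (by positivity)
      rw [norm_sub_rev]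
      refine (hC₂ q χ hχ z (by linarith) U hU N hN).trans ?_
      have h5 : ‖z‖ + 1 ≤ S + 2 := by linarith
      gcongr
  rw [hsplit]
  refine (norm_add_le _ _).trans ((add_le_add hb1 hb2).trans ?_)
  unfold Err
  have e1 : (C₁ * (D.card * (C₂ * ((q : ℝ) * (S + 2)) ^ (κ + 1) * U ^ (-(κ : ℝ))))) * (4 / 3 : ℝ) ^ k
      = C₁ * (C₂ * (S + 2) ^ (κ + 1)) * D.card * ((q : ℝ) ^ (κ + 1) * U ^ (-(κ : ℝ)) * (4 / 3 : ℝ) ^ k) := by
    rw [mul_pow]; ring
  rw [e1]
  have p1 : 0 ≤ (q : ℝ) * (4 / 7 : ℝ) ^ k := by positivity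
  have p2 : 0 ≤ (q : ℝ) ^ (κ + 1) * U ^ (-(κ : ℝ)) * (4 / 3 : ℝ) ^ k := by positivity
  have p3 : 0 ≤ 480 * (S + 2) := by positivity
  have p4 : 0 ≤ C₁ * (C₂ * (S + 2) ^ (κ + 1)) := by positivity
  have p5 : (0 : ℝ) ≤ D.card := by positivity
  have m1 := mul_nonneg (mul_nonneg p3 p5) p2
  have m2 := mul_nonneg (mul_nonneg p4 p5) p1
  have p6 : S + 2 ≤ (S + 2) ^ (κ + 1) := le_self_pow₀ (by linarith) (by omega)
  have p7 : 0 ≤ (D.card : ℝ) * ((q : ℝ) * (4 / 7 : ℝ) ^ k) := mul_nonneg p5 p1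
  have p8 : 0 ≤ (D.card : ℝ) * ((q : ℝ) ^ (κ + 1) * U ^ (-(κ : ℝ)) * (4 / 3 : ℝ) ^ k) :=
    mul_nonneg p5 p2
  have p9 : 0 ≤ (S + 2) ^ (κ + 1) := by positivity
  calc 480 * (S + 2) * q * D.card * (4 / 7 : ℝ) ^ k
        + C₁ * (C₂ * (S + 2) ^ (κ + 1)) * D.card *
          ((q : ℝ) ^ (κ + 1) * U ^ (-(κ : ℝ)) * (4 / 3 : ℝ) ^ k)
      = 480 * ((S + 2) * (D.card * ((q : ℝ) * (4 / 7 : ℝ) ^ k)))
        + C₁ * C₂ * ((S + 2) ^ (κ + 1) * (D.card *
          ((q : ℝ) ^ (κ + 1) * U ^ (-(κ : ℝ)) * (4 / 3 : ℝ) ^ k))) := by ring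
    _ ≤ 480 * ((S + 2) ^ (κ + 1) * (D.card * ((q : ℝ) * (4 / 7 : ℝ) ^ k)))
        + C₁ * C₂ * ((S + 2) ^ (κ + 1) * (D.card *
          ((q : ℝ) ^ (κ + 1) * U ^ (-(κ : ℝ)) * (4 / 3 : ℝ) ^ k))) := by
        refine add_le_add (mul_le_mul_of_nonneg_left (mul_le_mul_of_nonneg_right p6 p7)
          (by norm_num)) le_rfl
    _ ≤ (480 + C₁ * C₂) * ((S + 2) ^ (κ + 1) * (D.card * ((q : ℝ) * (4 / 7 : ℝ) ^ k)))
        + (480 + C₁ * C₂) * ((S + 2) ^ (κ + 1) * (D.card *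
          ((q : ℝ) ^ (κ + 1) * U ^ (-(κ : ℝ)) * (4 / 3 : ℝ) ^ k))) := by
        have p10 : 0 ≤ C₁ * C₂ := by positivity
        exact add_le_add (mul_le_mul_of_nonneg_right (by linarith) (mul_nonneg p9 p7))
          (mul_le_mul_of_nonneg_right (by linarith) (mul_nonneg p9 p8))
    _ = (480 + C₁ * C₂) * (S + 2) ^ (κ + 1) * D.card *
        (q * (4 / 7 : ℝ) ^ k + (q : ℝ) ^ (κ + 1) * U ^ (-(κ : ℝ)) * (4 / 3 : ℝ) ^ k) := by ring

end Pool.Agent.MY
end

section

set_option autoImplicit false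

namespace Pool.Agent.MU

open Complex Finset MY MZ MW

/-- The sum of the weights. -/
private lemma U7_sum {lam : ℝ} (hl : 12 / 13 ≤ lam) (hl1 : lam ≤ 1) (I₀ n : ℕ) :
    ∑ i ∈ range n, ga I₀ i * (lam⁻¹) ^ i ≤ I₀ * (lam⁻¹) ^ I₀ + 14 := by
  have hl0 : 0 < lam := by linarith
  have hμ1 : 1 ≤ lam⁻¹ := (one_le_inv₀ hl0).2 hl1
  have hμ2 : lam⁻¹ ≤ 13 / 12 := by
    rw [inv_le_comm₀ hl0 (by norm_num)]
    norm_num
    linarith
  have hμ0 : 0 ≤ lam⁻¹ := by linarith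
  have h1 : ∀ i ∈ range n, ga I₀ i * (lam⁻¹) ^ i ≤
      (if i < I₀ then (lam⁻¹) ^ I₀ else 0) + (13 / 14 : ℝ) ^ i := by
    intro i _
    unfold ga
    split_ifs with h
    · rw [one_mul]
      have h2 : (lam⁻¹) ^ i ≤ (lam⁻¹) ^ I₀ := pow_le_pow_right₀ hμ1 h.le
      have h3 : (0 : ℝ) ≤ (13 / 14 : ℝ) ^ i := by positivity
      linarith
    · rw [← mul_pow, zero_add]
      refine pow_le_pow_left₀ (by positivity) ?_ i
      linarith
  refine (sum_le_sum h1).trans ?_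
  rw [sum_add_distrib]
  refine add_le_add ?_ ?_
  · rw [← sum_filter, sum_const, nsmul_eq_mul]
    refine mul_le_mul_of_nonneg_right ?_ (pow_nonneg hμ0 _)
    have h2 : (range n).filter (fun i => i < I₀) ⊆ range I₀ := by
      intro i hi
      rw [mem_filter] at hi
      exact mem_range.2 hi.2
    have h3 := card_le_card h2
    rw [card_range] at h3
    exact_mod_cast h3
  · rw [geom_sum_eq (by norm_num)]
    have h2 : (0 : ℝ) ≤ (13 / 14 : ℝ) ^ n := by positivity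
    have h3 : ((13 / 14 : ℝ) ^ n - 1) / (13 / 14 - 1) = 14 * (1 - (13 / 14 : ℝ) ^ n) := by
      field_simp
      ring
    rw [h3]
    linarith

/-- U7. The iteration from below (real numbers only). -/
lemma iterU (E : ℕ → ℝ) (hE : ∀ k, 0 ≤ E k) (H T κ lam : ℝ) (k₁ k₃ I₀ : ℕ)
    (hH : 0 ≤ H) (hT : 0 ≤ T) (hκ : 0 ≤ κ) (hl : 12 / 13 ≤ lam) (hl1 : lam ≤ 1)
    (h1 : ∀ k < k₁, E k ≤ H)
    (h2 : ∀ k, k₁ ≤ k → k ≤ k₃ → E k ≤ T + κ * ∑ i ∈ range (k + 1), ga I₀ i * E (k - i))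
    (hκ1 : κ * (I₀ * (lam⁻¹) ^ I₀ + 14) ≤ 1 / 4) (k : ℕ) (hk3 : k ≤ k₃) :
    E k ≤ 2 * T + H * lam ^ k * (lam⁻¹) ^ k₁ := by
  have hl0 : 0 < lam := by linarith
  have hμ1 : 1 ≤ lam⁻¹ := (one_le_inv₀ hl0).2 hl1
  have hμ0 : 0 < lam⁻¹ := by linarith
  have hll : lam * lam⁻¹ = 1 := mul_inv_cancel₀ hl0.ne'
  induction k using Nat.strong_induction_on with
  | _ k ih =>
    have hR0 : 0 ≤ H * lam ^ k * (lam⁻¹) ^ k₁ := by positivity
    rcases lt_or_ge k k₁ with hk | hk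
    · have h3 : 1 ≤ lam ^ k * (lam⁻¹) ^ k₁ := by
        obtain ⟨t, rfl⟩ := Nat.exists_eq_add_of_le hk.le
        rw [pow_add, ← mul_assoc, ← mul_pow, hll, one_pow, one_mul]
        exact one_le_pow₀ hμ1
      have h4 : H ≤ H * (lam ^ k * (lam⁻¹) ^ k₁) := le_mul_of_one_le_right hH h3
      have h5 := h1 k hk
      rw [← mul_assoc] at h4
      linarith
    · obtain ⟨R, hR⟩ : ∃ R, R = H * lam ^ k * (lam⁻¹) ^ k₁ := ⟨_, rfl⟩
      rw [← hR] at hR0 ⊢
      obtain ⟨G, hG⟩ : ∃ G, G = ∑ i ∈ range k, ga I₀ (i + 1) * (lam⁻¹) ^ (i + 1) := ⟨_, rfl⟩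
      have hga0 : ∀ i, 0 ≤ ga I₀ i := by
        intro i
        unfold ga
        split_ifs
        · exact zero_le_one
        · positivity
      have hG0 : 0 ≤ G := by
        rw [hG]
        exact sum_nonneg fun i _ => mul_nonneg (hga0 _) (by positivity)
      have hG1 : G ≤ I₀ * (lam⁻¹) ^ I₀ + 14 := by
        have h3 := U7_sum hl hl1 I₀ (k + 1)
        rw [sum_range_succ'] at h3
        have h4 : 0 ≤ ga I₀ 0 * (lam⁻¹) ^ 0 := mul_nonneg (hga0 _) (by positivity)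
        rw [hG]
        linarith
      have hga00 : ga I₀ 0 = 1 := by
        unfold ga
        split_ifs
        · rfl
        · exact pow_zero _
      have h3 := h2 k hk hk3
      rw [sum_range_succ', hga00, one_mul, Nat.sub_zero] at h3
      have h4 : ∑ i ∈ range k, ga I₀ (i + 1) * E (k - (i + 1)) ≤ G * (2 * T + R) := by
        rw [hG, sum_mul]
        refine sum_le_sum fun i hi => ?_
        rw [mem_range] at hi
        rw [mul_assoc]
        refine mul_le_mul_of_nonneg_left ?_ (hga0 _)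
        have h5 := ih (k - (i + 1)) (by omega) (by omega)
        have h6 : lam ^ (k - (i + 1)) = lam ^ k * (lam⁻¹) ^ (i + 1) := by
          obtain ⟨t, ht⟩ := Nat.exists_eq_add_of_le (show i + 1 ≤ k by omega)
          rw [show k - (i + 1) = t by omega, ht, pow_add, mul_right_comm, ← mul_pow, hll, one_pow, one_mul]
        rw [h6] at h5
        have h7 : 1 ≤ (lam⁻¹) ^ (i + 1) := one_le_pow₀ hμ1
        have h8 : 2 * T ≤ (lam⁻¹) ^ (i + 1) * (2 * T) := le_mul_of_one_le_left (by linarith) h7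
        have h9 : H * (lam ^ k * (lam⁻¹) ^ (i + 1)) * (lam⁻¹) ^ k₁ = (lam⁻¹) ^ (i + 1) * R := by
          rw [hR]
          ring
        rw [h9] at h5
        rw [mul_add]
        linarith
      have h10 : κ * G ≤ 1 / 4 := (mul_le_mul_of_nonneg_left hG1 hκ).trans hκ1
      have h11 : κ * 14 ≤ 1 / 4 := by
        have h12 : (0 : ℝ) ≤ I₀ * (lam⁻¹) ^ I₀ := by positivity
        have h13 : κ * 14 ≤ κ * (I₀ * (lam⁻¹) ^ I₀ + 14) := mul_le_mul_of_nonneg_left (by linarith) hκ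
        linarith
      have h14 : κ * (∑ i ∈ range k, ga I₀ (i + 1) * E (k - (i + 1)) + E k) ≤
          κ * (G * (2 * T + R)) + κ * E k := by
        rw [mul_add]
        exact add_le_add_left (mul_le_mul_of_nonneg_left h4 hκ) _
      have h15 : κ * (G * (2 * T + R)) ≤ 1 / 4 * (2 * T + R) := by
        rw [← mul_assoc]
        exact mul_le_mul_of_nonneg_right h10 (by linarith)
      have h16 : κ * E k ≤ 1 / 56 * E k := mul_le_mul_of_nonneg_right (by linarith) (hE k)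
      linarith

end Pool.Agent.MU
end
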