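import Mathlib
import Pool.Agent.Lib.MP_9cfc0a_nt.Mg.G023
import Pool.Agent.Lib.MP_9cfc0a_nt.Mg.G024
import Pool.Agent.Lib.MP_9cfc0a_nt.Mg.G026
import Pool.Agent.Lib.MP_9cfc0a_nt.MY.Defs
import Pool.Agent.Lib.MP_9cfc0a_nt.MY.A2
import Pool.Agent.Lib.MP_9cfc0a_nt.Mg.G028

section

set_option autoImplicit false

namespace Pool.Agent.MW

open Complex Finset MY MZ

/-- The size of `g_i(d)`. -/
lemma A10_gi (s : ℂ) (hs : s.re = 2) (θ : ℝ) (hθ1 : θ < 1) (i d : ℕ) (hd : 1 ≤ d) :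
    ‖gi s i d‖ ≤ ((2 - θ)⁻¹ : ℝ) ^ i * (d : ℝ) ^ (-θ) := by
  have hd1 : (1 : ℝ) ≤ d := by exact_mod_cast hd
  have hd0 : (0 : ℝ) < d := by linarith
  have hρ : 0 < 2 - θ := by linarith
  have hl : 0 ≤ Real.log d := Real.log_nonneg hd1
  rw [gi_norm s hs i d hd1]
  have h1 : ((2 - θ) * Real.log d) ^ i / (i.factorial : ℝ) ≤ (d : ℝ) ^ (2 - θ) := by
    have h2 := Real.pow_div_factorial_le_exp ((2 - θ) * Real.log d) (by positivity) i
    refine h2.trans (le_of_eq ?_)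
    rw [Real.rpow_def_of_pos hd0, mul_comm]
  have h3 : (Real.log d) ^ i / (i.factorial : ℝ) / (d : ℝ) ^ 2
      = ((2 - θ)⁻¹ : ℝ) ^ i * (((2 - θ) * Real.log d) ^ i / (i.factorial : ℝ)) / (d : ℝ) ^ 2 := by
    have h4 : (Real.log d) ^ i = ((2 - θ)⁻¹ : ℝ) ^ i * ((2 - θ) * Real.log d) ^ i := by
      rw [← mul_pow, inv_mul_cancel_left₀ hρ.ne']
    rw [h4]
    ring
  rw [h3, mul_div_assoc]
  refine mul_le_mul_of_nonneg_left ?_ (by positivity)
  rw [div_le_iff₀ (by positivity)]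
  refine h1.trans (le_of_eq ?_)
  rw [← Real.rpow_natCast, ← Real.rpow_add hd0]
  congr 1
  push_cast
  ring

/-- A10. The mollified sum over the rows of `B` (as `MZ.X2`). -/
lemma X_bound (q : ℕ) [NeZero q] (s : ℂ) (hs : s.re = 2) (θ : ℝ) (hθ : 1 / 2 ≤ θ) (hθ1 : θ < 1)
    (B : Finset (ZMod q)ˣ) (Z : ℝ) (hZ : 1 ≤ Z)
    (D : (ZMod q)ˣ → Finset ℕ) (hD : ∀ a ∈ B, ∀ d ∈ D a, 1 ≤ d ∧ (d : ℝ) ≤ Z)
    (H : ℕ → (ZMod q)ˣ → ℂ) (P r ΛN : ℝ) (hP : 0 ≤ P) (hr : 0 < r) (hr1 : r ≤ 2 - θ) (hΛ : 0 ≤ ΛN)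
    (hH : ∀ l, ∑ c, ‖H l c‖ ^ 2 ≤ (P * (l + 1) * (r⁻¹) ^ l) ^ 2)
    (hmaj : ∀ h : (ZMod q)ˣ → ℝ, (∀ c, 0 ≤ h c) →
      ∑ a ∈ B, (∑ d ∈ (Icc 1 ⌊Z⌋₊).filter (fun d => Nat.Coprime d q),
        (d : ℝ) ^ (-θ) * h (a * (un q d)⁻¹)) ^ 2 ≤ ΛN * ∑ c, (h c) ^ 2) (k : ℕ) :
    ∑ a ∈ B, ‖∑ d ∈ (D a).filter (fun d => Nat.Coprime d q), (ArithmeticFunction.moebius d : ℂ) *
        ∑ i ∈ range (k + 1), gi s i d * H (k - i) (a * (un q d)⁻¹)‖ ^ 2
      ≤ ((k : ℝ) + 1) ^ 4 * ΛN * P ^ 2 * ((r⁻¹) ^ k) ^ 2 := by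
  classical
  obtain ⟨W, hW⟩ : ∃ W : ℕ → (ZMod q)ˣ → ℝ, W = fun i a =>
      ∑ d ∈ (Icc 1 ⌊Z⌋₊).filter (fun d => Nat.Coprime d q),
        (d : ℝ) ^ (-θ) * ‖H (k - i) (a * (un q d)⁻¹)‖ := ⟨_, rfl⟩
  have hr0 : 0 ≤ r⁻¹ := by positivity
  have hρ : 0 < 2 - θ := by linarith
  have hρi : 0 ≤ (2 - θ)⁻¹ := by positivity
  have hr2 : ((2 - θ)⁻¹ : ℝ) ≤ r⁻¹ := by
    exact inv_anti₀ hr hr1
  have hk0 : (0 : ℝ) ≤ k := Nat.cast_nonneg k
  -- one row
  have h1 : ∀ a ∈ B, ‖∑ d ∈ (D a).filter (fun d => Nat.Coprime d q),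
      (ArithmeticFunction.moebius d : ℂ) *
        ∑ i ∈ range (k + 1), gi s i d * H (k - i) (a * (un q d)⁻¹)‖ ^ 2
      ≤ ((k : ℝ) + 1) * ∑ i ∈ range (k + 1), (((2 - θ)⁻¹ : ℝ) ^ i * W i a) ^ 2 := by
    intro a ha
    have h2 : ‖∑ d ∈ (D a).filter (fun d => Nat.Coprime d q),
        (ArithmeticFunction.moebius d : ℂ) *
          ∑ i ∈ range (k + 1), gi s i d * H (k - i) (a * (un q d)⁻¹)‖
        ≤ ∑ i ∈ range (k + 1), ((2 - θ)⁻¹ : ℝ) ^ i * W i a := by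
      refine (norm_sum_le _ _).trans ?_
      have h3 : ∀ d ∈ (D a).filter (fun d => Nat.Coprime d q),
          ‖(ArithmeticFunction.moebius d : ℂ) *
            ∑ i ∈ range (k + 1), gi s i d * H (k - i) (a * (un q d)⁻¹)‖
          ≤ ∑ i ∈ range (k + 1), ((2 - θ)⁻¹ : ℝ) ^ i *
            ((d : ℝ) ^ (-θ) * ‖H (k - i) (a * (un q d)⁻¹)‖) := by
        intro d hd
        have hd1 := (hD a ha d (mem_filter.1 hd).1).1
        have hmu : ‖(ArithmeticFunction.moebius d : ℂ)‖ ≤ 1 := by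
          rw [Complex.norm_intCast]
          exact_mod_cast ArithmeticFunction.abs_moebius_le_one
        rw [norm_mul]
        refine (mul_le_of_le_one_left (norm_nonneg _) hmu).trans ((norm_sum_le _ _).trans ?_)
        refine sum_le_sum fun i _ => ?_
        rw [norm_mul, ← mul_assoc]
        exact mul_le_mul_of_nonneg_right (A10_gi s hs θ hθ1 i d hd1) (norm_nonneg _)
      refine (sum_le_sum h3).trans ?_
      rw [sum_comm]
      refine sum_le_sum fun i _ => ?_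
      rw [← mul_sum, hW]
      refine mul_le_mul_of_nonneg_left ?_ (by positivity)
      refine sum_le_sum_of_subset_of_nonneg ?_ fun d _ _ => by positivity
      intro d hd
      rw [mem_filter] at hd ⊢
      obtain ⟨hd1, hd2⟩ := hD a ha d hd.1
      exact ⟨mem_Icc.2 ⟨hd1, Nat.le_floor hd2⟩, hd.2⟩
    have h4 : (∑ i ∈ range (k + 1), ((2 - θ)⁻¹ : ℝ) ^ i * W i a) ^ 2
        ≤ ((k : ℝ) + 1) * ∑ i ∈ range (k + 1), (((2 - θ)⁻¹ : ℝ) ^ i * W i a) ^ 2 := by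
      have h5 := sq_sum_le_card_mul_sum_sq (s := range (k + 1))
        (f := fun i => ((2 - θ)⁻¹ : ℝ) ^ i * W i a)
      rw [card_range] at h5
      push_cast at h5
      exact h5
    exact (pow_le_pow_left₀ (norm_nonneg _) h2 2).trans h4
  refine (sum_le_sum h1).trans ?_
  rw [← mul_sum, sum_comm]
  -- one index
  have h6 : ∀ i ∈ range (k + 1), ∑ a ∈ B, (((2 - θ)⁻¹ : ℝ) ^ i * W i a) ^ 2
      ≤ ((k : ℝ) + 1) ^ 2 * ΛN * P ^ 2 * ((r⁻¹) ^ k) ^ 2 := by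
    intro i hi
    have hik : i ≤ k := Nat.lt_succ_iff.1 (mem_range.1 hi)
    have h7 := hmaj (fun c => ‖H (k - i) c‖) fun c => norm_nonneg _
    have h8 : ∑ a ∈ B, (((2 - θ)⁻¹ : ℝ) ^ i * W i a) ^ 2
        = (((2 - θ)⁻¹ : ℝ) ^ i) ^ 2 * ∑ a ∈ B, (W i a) ^ 2 := by
      rw [mul_sum]
      exact sum_congr rfl fun a _ => by rw [mul_pow]
    have h9 : ∑ a ∈ B, (W i a) ^ 2 ≤ ΛN * (P * ((k - i : ℕ) + 1) * (r⁻¹) ^ (k - i)) ^ 2 := by
      rw [hW]
      exact h7.trans (mul_le_mul_of_nonneg_left (hH (k - i)) hΛ)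
    rw [h8]
    have h10 : (((2 - θ)⁻¹ : ℝ) ^ i) ^ 2 ≤ ((r⁻¹) ^ i) ^ 2 :=
      pow_le_pow_left₀ (by positivity) (pow_le_pow_left₀ hρi hr2 i) 2
    have h11 : (((k - i : ℕ) : ℝ) + 1) ^ 2 ≤ ((k : ℝ) + 1) ^ 2 := by
      refine pow_le_pow_left₀ (by positivity) ?_ 2
      have : ((k - i : ℕ) : ℝ) ≤ k := by exact_mod_cast Nat.sub_le k i
      linarith
    have h12 : (r⁻¹) ^ i * (r⁻¹) ^ (k - i) = (r⁻¹) ^ k := by
      rw [← pow_add]
      congr 1
      omega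
    calc (((2 - θ)⁻¹ : ℝ) ^ i) ^ 2 * ∑ a ∈ B, (W i a) ^ 2
        ≤ ((r⁻¹) ^ i) ^ 2 * (ΛN * (P * ((k - i : ℕ) + 1) * (r⁻¹) ^ (k - i)) ^ 2) :=
          mul_le_mul h10 h9 (sum_nonneg fun a _ => sq_nonneg _) (by positivity)
      _ = (((k - i : ℕ) : ℝ) + 1) ^ 2 * (ΛN * P ^ 2 * ((r⁻¹) ^ i * (r⁻¹) ^ (k - i)) ^ 2) := by ring
      _ = (((k - i : ℕ) : ℝ) + 1) ^ 2 * (ΛN * P ^ 2 * ((r⁻¹) ^ k) ^ 2) := by rw [h12]
      _ ≤ ((k : ℝ) + 1) ^ 2 * (ΛN * P ^ 2 * ((r⁻¹) ^ k) ^ 2) :=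
          mul_le_mul_of_nonneg_right h11 (by positivity)
      _ = ((k : ℝ) + 1) ^ 2 * ΛN * P ^ 2 * ((r⁻¹) ^ k) ^ 2 := by ring
  have h13 := sum_le_sum h6
  rw [sum_const, card_range, nsmul_eq_mul] at h13
  push_cast at h13
  calc ((k : ℝ) + 1) * ∑ i ∈ range (k + 1), ∑ a ∈ B, (((2 - θ)⁻¹ : ℝ) ^ i * W i a) ^ 2
      ≤ ((k : ℝ) + 1) * (((k : ℝ) + 1) * (((k : ℝ) + 1) ^ 2 * ΛN * P ^ 2 * ((r⁻¹) ^ k) ^ 2)) :=
        mul_le_mul_of_nonneg_left h13 (by positivity)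
    _ = ((k : ℝ) + 1) ^ 4 * ΛN * P ^ 2 * ((r⁻¹) ^ k) ^ 2 := by ring

end Pool.Agent.MW
end

section

set_option autoImplicit false

namespace Pool.Agent.MW

open Complex Finset MY MZ

open Classical in
/-- A11. Far sums with a mollifier that depends on the class (as `MZ.Q2`, `MY.sum_far`). -/
lemma far_gen (q : ℕ) [NeZero q] (hq : 2 ≤ q) (θ : ℝ) (hθ : 1 / 2 ≤ θ) (hθ1 : θ < 1)
    (G : Finset (ZMod q)ˣ) (hG : 1 ≤ G.card)
    (D : (ZMod q)ˣ → Finset ℕ) (hD : ∀ g, ∀ d ∈ D g, 1 ≤ d ∧ d ≤ q) (Dm : ℝ)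
    (hDm : ∀ g, ((D g).card : ℝ) ≤ Dm) (U : ℝ) (hU : (q : ℝ) ≤ U) (M : ℕ) (E : ℝ)
    (hE : ∀ n : ℕ, 1 ≤ n → n ≤ q ^ 2 → (n.divisors.card : ℝ) ≤ E) :
    ∑ n ∈ (Icc (q + 1) M).filter (fun n => Nat.Coprime n q ∧ un q n ∈ G),
      |cn (D (un q n)) U n| * (n : ℝ) ^ (-θ)
      ≤ 1 / (1 - θ) * E * (G.card : ℝ) ^ (2 - θ) / (q : ℝ) ^ θ
        + Dm * G.card * (2 * U / q + 1) / ((G.card : ℝ) * q) ^ θ := by
  have hq0 : 0 < q := Nat.pos_of_ne_zero (NeZero.ne q)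
  have hqr : (0 : ℝ) < q := by exact_mod_cast hq0
  have hbr : (1 : ℝ) ≤ G.card := by exact_mod_cast hG
  have hE0 : 0 ≤ E := by
    have := hE 1 le_rfl (Nat.one_le_pow _ _ hq0)
    have h2 : (0 : ℝ) ≤ ((1 : ℕ).divisors.card : ℝ) := Nat.cast_nonneg _
    linarith
  have hU0 : 0 < U := by linarith
  have hbq : G.card ≤ q := by
    have h1 : G.card ≤ Fintype.card (ZMod q)ˣ := Finset.card_le_univ G
    rw [ZMod.card_units_eq_totient] at h1
    exact h1.trans (Nat.totient_le q)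
  set F := (Icc (q + 1) M).filter (fun n => Nat.Coprime n q ∧ un q n ∈ G) with hF
  have hterm0 : ∀ n : ℕ, 0 ≤ |cn (D (un q n)) U n| * (n : ℝ) ^ (-θ) :=
    fun n => by positivity
  rw [← Finset.sum_filter_add_sum_filter_not F (fun n => n ≤ q * G.card)]
  refine add_le_add ?_ ?_
  · -- the near terms
    set G' : Finset (ZMod q)ˣ := G.image (fun g => g⁻¹) with hG'
    have hG'c : G'.card = G.card := Finset.card_image_of_injective _ inv_injective
    have hsub : F.filter (fun n => n ≤ q * G.card) ⊆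
        (Icc (q + 1) (q * G.card)).filter (fun n => Nat.Coprime n q ∧ 1 * (un q n)⁻¹ ∈ G') := by
      intro n hn
      rw [Finset.mem_filter, hF, Finset.mem_filter, Finset.mem_Icc] at hn
      rw [Finset.mem_filter, Finset.mem_Icc]
      exact ⟨⟨hn.1.1.1, hn.2⟩, hn.1.2.1, (Q2_inv q G n).2 hn.1.2.2⟩
    refine (Finset.sum_le_sum_of_subset_of_nonneg hsub fun n _ _ => hterm0 n).trans ?_
    have h1 : ∀ n ∈ (Icc (q + 1) (q * G.card)).filter
        (fun n => Nat.Coprime n q ∧ 1 * (un q n)⁻¹ ∈ G'),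
        |cn (D (un q n)) U n| * (n : ℝ) ^ (-θ) ≤ E * (n : ℝ) ^ (-θ) := by
      intro n hn
      rw [Finset.mem_filter, Finset.mem_Icc] at hn
      refine mul_le_mul_of_nonneg_right ?_ (by positivity)
      have hn1 : 1 ≤ n := by omega
      refine (cn_le _ U n hn1).trans (hE n hn1 ?_)
      calc n ≤ q * G.card := hn.1.2
        _ ≤ q * q := Nat.mul_le_mul_left q hbq
        _ = q ^ 2 := by ring
    refine (Finset.sum_le_sum h1).trans ?_
    rw [← Finset.mul_sum]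
    have h2 := mul_le_mul_of_nonneg_left
      (block_sum θ (by linarith) hθ1 q G' 1 G.card hG) hE0
    refine h2.trans (le_of_eq ?_)
    rw [hG'c]
    have hb0 : (0 : ℝ) < G.card := by linarith
    have e1 : (G.card : ℝ) ^ (2 - θ) = G.card * (G.card : ℝ) ^ (1 - θ) := by
      have : (2 - θ : ℝ) = 1 + (1 - θ) := by ring
      rw [this, Real.rpow_add hb0, Real.rpow_one]
    rw [e1, Real.rpow_neg hqr.le]
    ring
  · -- the far terms
    set F2 := F.filter (fun n => ¬ n ≤ q * G.card) with hF2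
    have hz : 0 < (G.card : ℝ) * q := by positivity
    have hF2p : ∀ n ∈ F2, 1 ≤ n ∧ Nat.Coprime n q := by
      intro n hn
      rw [hF2, Finset.mem_filter, hF, Finset.mem_filter, Finset.mem_Icc] at hn
      exact ⟨by omega, hn.1.2.1⟩
    have h1 : ∀ n ∈ F2, |cn (D (un q n)) U n| * (n : ℝ) ^ (-θ) ≤
        (∑ d ∈ D (un q n), if d ∣ n ∧ ((n / d : ℕ) : ℝ) ≤ 2 * U then (1 : ℝ) else 0) *
          (1 / ((G.card : ℝ) * q) ^ θ) := by
      intro n hn
      rw [hF2, Finset.mem_filter] at hn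
      refine mul_le_mul (F2_cn _ U hU0 n) ?_ (by positivity) (Finset.sum_nonneg fun d _ => by
        split_ifs
        · exact zero_le_one
        · exact le_rfl)
      have h3 : (G.card : ℝ) * q ≤ n := by
        have h4 : q * G.card ≤ n := by omega
        have h5 : ((q * G.card : ℕ) : ℝ) ≤ n := by exact_mod_cast h4
        push_cast at h5
        linarith
      rw [Real.rpow_neg (Nat.cast_nonneg n), one_div (((G.card : ℝ) * q) ^ θ)]
      exact inv_anti₀ (Real.rpow_pos_of_pos hz _) (Real.rpow_le_rpow hz.le h3 (by linarith))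
    refine (Finset.sum_le_sum h1).trans ?_
    rw [← Finset.sum_mul]
    have hmaps : ∀ n ∈ F2, un q n ∈ G := by
      intro n hn
      rw [hF2, Finset.mem_filter, hF, Finset.mem_filter] at hn
      exact hn.1.2.2
    rw [← Finset.sum_fiberwise_of_maps_to hmaps]
    have h2 : ∀ g ∈ G, (∑ n ∈ F2.filter (fun n => un q n = g),
        ∑ d ∈ D (un q n), if d ∣ n ∧ ((n / d : ℕ) : ℝ) ≤ 2 * U then (1 : ℝ) else 0) ≤
        Dm * (2 * U / q + 1) := by
      intro g _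
      have e1 : (∑ n ∈ F2.filter (fun n => un q n = g),
          ∑ d ∈ D (un q n), if d ∣ n ∧ ((n / d : ℕ) : ℝ) ≤ 2 * U then (1 : ℝ) else 0) =
          ∑ d ∈ D g, ((F2.filter (fun n => un q n = g ∧
            (d ∣ n ∧ ((n / d : ℕ) : ℝ) ≤ 2 * U))).card : ℝ) := by
        have e2 : (∑ n ∈ F2.filter (fun n => un q n = g),
            ∑ d ∈ D (un q n), if d ∣ n ∧ ((n / d : ℕ) : ℝ) ≤ 2 * U then (1 : ℝ) else 0) =
            ∑ n ∈ F2.filter (fun n => un q n = g),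
            ∑ d ∈ D g, if d ∣ n ∧ ((n / d : ℕ) : ℝ) ≤ 2 * U then (1 : ℝ) else 0 := by
          refine Finset.sum_congr rfl fun n hn => ?_
          rw [(Finset.mem_filter.1 hn).2]
        rw [e2, Finset.sum_comm]
        refine Finset.sum_congr rfl fun d _ => ?_
        rw [← Finset.sum_filter, Finset.sum_const, nsmul_eq_mul, mul_one, Finset.filter_filter]
      rw [e1]
      have hpos : 0 ≤ 2 * U / q + 1 := by positivity
      calc ∑ d ∈ D g, ((F2.filter (fun n => un q n = g ∧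
            (d ∣ n ∧ ((n / d : ℕ) : ℝ) ≤ 2 * U))).card : ℝ)
          ≤ ∑ _d ∈ D g, (2 * U / q + 1) :=
            Finset.sum_le_sum fun d hd => Q2_count q F2 hF2p g d (hD g d hd).1 U hU0.le
        _ = (D g).card * (2 * U / q + 1) := by rw [Finset.sum_const, nsmul_eq_mul]
        _ ≤ Dm * (2 * U / q + 1) := mul_le_mul_of_nonneg_right (hDm g) hpos
    have h3 : (∑ g ∈ G, ∑ n ∈ F2.filter (fun n => un q n = g),
        ∑ d ∈ D (un q n), if d ∣ n ∧ ((n / d : ℕ) : ℝ) ≤ 2 * U then (1 : ℝ) else 0) ≤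
        G.card * (Dm * (2 * U / q + 1)) := by
      refine (Finset.sum_le_sum h2).trans ?_
      rw [Finset.sum_const, nsmul_eq_mul]
    have h4 := mul_le_mul_of_nonneg_right h3
      (by positivity : 0 ≤ 1 / ((G.card : ℝ) * q) ^ θ)
    refine h4.trans (le_of_eq ?_)
    ring

end Pool.Agent.MW
end

section

set_option autoImplicit false

namespace Pool.Agent.MY

open Complex Finset

open MC.C2 in
lemma vv_eq_zero (x : ℝ) (hx : 2 ≤ x) : vv x = 0 :=
  Real.smoothTransition.zero_of_nonpos (by linarith)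

open MC.C2 in
/-- The product of the two polynomials. -/
lemma prod_eq (q : ℕ) [NeZero q] (χ : DirichletCharacter ℂ q) (D : Finset ℕ)
    (hD : ∀ d ∈ D, 1 ≤ d ∧ d ≤ q) (U : ℝ) (hU : 1 ≤ U) (N : ℕ) (hN : 2 * U ≤ N) (z : ℂ) :
    (∑ d ∈ D, (ArithmeticFunction.moebius d : ℂ) * χ d * (d : ℂ) ^ (-z)) *
        ∑ m ∈ Icc 1 N, χ m * ((vv (m / U) : ℝ) : ℂ) * (m : ℂ) ^ (-z)
      = ∑ n ∈ Icc 1 (q * N), ((cn D U n : ℝ) : ℂ) * χ n * (n : ℂ) ^ (-z) := by
  classical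
  have hU0 : 0 < U := by linarith
  -- the right-hand side as a double sum
  have hR : ∑ n ∈ Icc 1 (q * N), ((cn D U n : ℝ) : ℂ) * χ n * (n : ℂ) ^ (-z)
      = ∑ d ∈ D, ∑ n ∈ (Icc 1 (q * N)).filter (fun n => d ∣ n),
        (ArithmeticFunction.moebius d : ℂ) * ((vv (((n / d : ℕ) : ℝ) / U) : ℝ) : ℂ) *
          (χ n * (n : ℂ) ^ (-z)) := by
    have h1 : ∀ n ∈ Icc 1 (q * N), ((cn D U n : ℝ) : ℂ) * χ n * (n : ℂ) ^ (-z)
        = ∑ d ∈ D, if d ∣ n then (ArithmeticFunction.moebius d : ℂ) *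
          ((vv (((n / d : ℕ) : ℝ) / U) : ℝ) : ℂ) * (χ n * (n : ℂ) ^ (-z)) else 0 := by
      intro n _
      unfold cn
      rw [← sum_filter]
      push_cast
      rw [mul_assoc, sum_mul]
    rw [sum_congr rfl h1, sum_comm]
    refine sum_congr rfl fun d _ => ?_
    rw [sum_filter]
  rw [hR, sum_mul]
  refine sum_congr rfl fun d hd => ?_
  obtain ⟨hd1, hdq⟩ := hD d hd
  have hinj : Set.InjOn (fun m : ℕ => d * m) (Icc 1 N : Finset ℕ) := by
    intro m _ m' _ h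
    exact Nat.eq_of_mul_eq_mul_left (by omega) h
  have h1 : ∑ n ∈ (Icc 1 N).image (fun m => d * m), (ArithmeticFunction.moebius d : ℂ) *
      ((vv (((n / d : ℕ) : ℝ) / U) : ℝ) : ℂ) * (χ n * (n : ℂ) ^ (-z))
      = ∑ n ∈ (Icc 1 (q * N)).filter (fun n => d ∣ n),
        (ArithmeticFunction.moebius d : ℂ) * ((vv (((n / d : ℕ) : ℝ) / U) : ℝ) : ℂ) *
          (χ n * (n : ℂ) ^ (-z)) := by
    refine sum_subset ?_ ?_
    · intro n hn
      obtain ⟨m, hm, rfl⟩ := mem_image.mp hn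
      rw [mem_Icc] at hm
      rw [mem_filter, mem_Icc]
      refine ⟨⟨?_, Nat.mul_le_mul hdq hm.2⟩, Dvd.intro m rfl⟩
      exact Nat.mul_pos (by omega) (by omega)
    · intro n hn hn'
      rw [mem_filter, mem_Icc] at hn
      obtain ⟨⟨hn1, hn2⟩, m, rfl⟩ := hn
      have hm : N < m := by
        by_contra hcon
        push Not at hcon
        refine hn' (mem_image.mpr ⟨m, ?_, rfl⟩)
        rw [mem_Icc]
        refine ⟨?_, hcon⟩
        rcases Nat.eq_zero_or_pos m with h0 | h0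
        · subst h0; simp at hn1
        · exact h0
      have h2 : vv (((d * m / d : ℕ) : ℝ) / U) = 0 := by
        apply vv_eq_zero
        rw [Nat.mul_div_cancel_left m (by omega), le_div_iff₀ hU0]
        have h3 : (N : ℝ) ≤ m := by exact_mod_cast hm.le
        linarith
      rw [h2]
      simp
  rw [← h1, sum_image hinj, mul_sum]
  refine sum_congr rfl fun m hm => ?_
  rw [Nat.mul_div_cancel_left m (by omega)]
  have h3 : ((d * m : ℕ) : ℂ) ^ (-z) = (d : ℂ) ^ (-z) * (m : ℂ) ^ (-z) := by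
    push_cast
    exact Complex.natCast_mul_natCast_cpow d m (-z)
  rw [h3, Nat.cast_mul, map_mul]
  ring

/-- A6. The recursion (2.1). -/
lemma rec_ineq (κ : ℕ) : ∃ C : ℝ, 0 ≤ C ∧ ∀ (S : ℝ), 3 ≤ S → ∀ (q : ℕ) [NeZero q]
    (s : ℂ), s.re = 2 → ‖s‖ ≤ S → ∀ D : Finset ℕ, 1 ∈ D → (∀ d ∈ D, 1 ≤ d ∧ d ≤ q) →
    ∀ U : ℝ, 1 ≤ U → ∀ N : ℕ, 2 * U ≤ N → ∀ (a : (ZMod q)ˣ) (k : ℕ),
    ‖Dk q s k a‖ ≤ (∑ n ∈ (Icc 2 (q * N)).filter (fun n => Nat.Coprime n q),
        |cn D U n| * ‖Dn q s k (a * (un q n)⁻¹) n‖)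
        + C * (S + 2) ^ (κ + 1) * D.card * Err q κ U k := by
  classical
  obtain ⟨C', hC0', hC'⟩ := main_bound κ
  refine ⟨C', hC0', fun S hS q _ s hs hsS D hD1 hD U hU N hN a k => ?_⟩
  obtain ⟨C, hCdef⟩ : ∃ C : ℝ, C = C' * (S + 2) ^ (κ + 1) := ⟨_, rfl⟩
  have hC0 : 0 ≤ C := by rw [hCdef]; exact mul_nonneg hC0' (pow_nonneg (by linarith) _)
  have hC := hC' S hS
  rw [← hCdef] at hC ⊢
  have hs1 : 1 < s.re := by rw [hs]; norm_num
  have htot : (0 : ℝ) < q.totient := by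
    exact_mod_cast Nat.totient_pos.mpr (Nat.pos_of_ne_zero (NeZero.ne q))
  have hq1 : 1 ≤ q := Nat.pos_of_ne_zero (NeZero.ne q)
  have hN1 : 1 ≤ N := by
    have : (1 : ℝ) ≤ N := by linarith
    exact_mod_cast this
  have hid := ident q s hs1 k (q * N) (fun n => ((cn D U n : ℝ) : ℂ)) a
  -- the left-hand side
  have hErr : 0 ≤ C * D.card * Err q κ U k := by
    have : 0 ≤ Err q κ U k := by unfold Err; positivity
    positivity
  have hleft : ‖(1 / (q.totient : ℂ)) * ∑ χ ∈ nt q, χ ((a⁻¹ : (ZMod q)ˣ) : ZMod q) *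
        TC (fun z => (-logDeriv χ.LFunction z) * ∑ n ∈ Icc 1 (q * N),
          ((cn D U n : ℝ) : ℂ) * χ n * (n : ℂ) ^ (-z)) s k‖ ≤ C * D.card * Err q κ U k := by
    rw [norm_mul, norm_div, norm_one, Complex.norm_natCast, one_div, inv_mul_le_iff₀ htot]
    refine (norm_sum_le _ _).trans ?_
    have hcard : ((nt q).card : ℝ) ≤ q.totient := by
      have h1 : (nt q).card ≤ Fintype.card (DirichletCharacter ℂ q) := Finset.card_le_univ _
      rw [← Nat.card_eq_fintype_card,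
        DirichletCharacter.card_eq_totient_of_hasEnoughRootsOfUnity] at h1
      exact_mod_cast h1
    calc ∑ χ ∈ nt q, ‖χ ((a⁻¹ : (ZMod q)ˣ) : ZMod q) *
        TC (fun z => (-logDeriv χ.LFunction z) * ∑ n ∈ Icc 1 (q * N),
          ((cn D U n : ℝ) : ℂ) * χ n * (n : ℂ) ^ (-z)) s k‖
        ≤ ∑ _χ ∈ nt q, C * D.card * Err q κ U k := by
          refine sum_le_sum fun χ hχ => ?_
          rw [mem_nt] at hχ
          rw [norm_mul]
          have h5 : ‖χ ((a⁻¹ : (ZMod q)ˣ) : ZMod q)‖ ≤ 1 := χ.norm_le_one _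
          have h6 := hC q χ hχ s hs hsS D (fun d hd => (hD d hd).1) U hU N hN k
          have h7 : (fun z => (-logDeriv χ.LFunction z) *
              ((∑ d ∈ D, (ArithmeticFunction.moebius d : ℂ) * χ d * (d : ℂ) ^ (-z)) *
              ∑ m ∈ Icc 1 N, χ m * ((MC.C2.vv (m / U) : ℝ) : ℂ) * (m : ℂ) ^ (-z)))
              = fun z => (-logDeriv χ.LFunction z) * ∑ n ∈ Icc 1 (q * N),
                ((cn D U n : ℝ) : ℂ) * χ n * (n : ℂ) ^ (-z) := by
            funext z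
            rw [prod_eq q χ D hD U hU N hN z]
          rw [h7] at h6
          calc _ ≤ 1 * (C * D.card * Err q κ U k) :=
                mul_le_mul h5 h6 (norm_nonneg _) zero_le_one
            _ = _ := one_mul _
      _ = (nt q).card * (C * D.card * Err q κ U k) := by rw [sum_const, nsmul_eq_mul]
      _ ≤ q.totient * (C * D.card * Err q κ U k) := by gcongr
  rw [hid] at hleft
  -- separate `n = 1`
  have hset : (Icc 1 (q * N)).filter (fun n => Nat.Coprime n q)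
      = insert 1 ((Icc 2 (q * N)).filter (fun n => Nat.Coprime n q)) := by
    ext n
    rw [mem_insert, mem_filter, mem_filter, mem_Icc, mem_Icc]
    have hqN : 1 ≤ q * N := Nat.mul_pos hq1 hN1
    constructor
    · rintro ⟨⟨h1, h2⟩, h3⟩
      rcases Nat.lt_or_ge 1 n with h | h
      · exact .inr ⟨⟨h, h2⟩, h3⟩
      · exact .inl (by omega)
    · rintro (rfl | ⟨⟨h1, h2⟩, h3⟩)
      · exact ⟨⟨le_rfl, hqN⟩, Nat.coprime_one_left q⟩
      · exact ⟨⟨by omega, h2⟩, h3⟩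
  have hnot : 1 ∉ (Icc 2 (q * N)).filter (fun n => Nat.Coprime n q) := by
    rw [mem_filter, mem_Icc]
    omega
  have hun1 : un q 1 = 1 := by
    apply Units.ext
    rw [un_coe q 1 (Nat.coprime_one_left q), Nat.cast_one, Units.val_one]
  rw [hset, sum_insert hnot, cn_one D hD1 U hU, hun1, inv_one, mul_one, Dn_one,
    Complex.ofReal_one, one_mul] at hleft
  set W : ℂ := ∑ n ∈ (Icc 2 (q * N)).filter (fun n => Nat.Coprime n q),
    ((cn D U n : ℝ) : ℂ) * Dn q s k (a * (un q n)⁻¹) n with hW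
  have h1 : ‖Dk q s k a‖ ≤ ‖W‖ + ‖Dk q s k a + W‖ := by
    calc ‖Dk q s k a‖ = ‖(Dk q s k a + W) - W‖ := by rw [add_sub_cancel_right]
      _ ≤ ‖Dk q s k a + W‖ + ‖W‖ := norm_sub_le _ _
      _ = _ := add_comm _ _
  have h2 : ‖W‖ ≤ ∑ n ∈ (Icc 2 (q * N)).filter (fun n => Nat.Coprime n q),
        |cn D U n| * ‖Dn q s k (a * (un q n)⁻¹) n‖ := by
    rw [hW]
    refine (norm_sum_le _ _).trans (le_of_eq (sum_congr rfl fun n _ => ?_))
    rw [norm_mul, Complex.norm_real, Real.norm_eq_abs]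
  linarith

end Pool.Agent.MY
end

section

set_option autoImplicit false

namespace Pool.Agent.MZ

open Complex Finset MY

/-- The double sum for an arbitrary function. -/
lemma X1_split (q : ℕ) [NeZero q] (D : Finset ℕ) (hD : ∀ d ∈ D, 1 ≤ d ∧ d ≤ q) (U : ℝ)
    (hU : 1 ≤ U) (N : ℕ) (hN : 2 * U ≤ N) (g : ℕ → ℂ) :
    ∑ n ∈ Icc 1 (q * N), ((cn D U n : ℝ) : ℂ) * g n
      = ∑ d ∈ D, ∑ m ∈ Icc 1 N, (ArithmeticFunction.moebius d : ℂ) *
          ((MC.C2.vv ((m : ℝ) / U) : ℝ) : ℂ) * g (d * m) := by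
  classical
  have hU0 : 0 < U := by linarith
  have hR : ∑ n ∈ Icc 1 (q * N), ((cn D U n : ℝ) : ℂ) * g n
      = ∑ d ∈ D, ∑ n ∈ (Icc 1 (q * N)).filter (fun n => d ∣ n),
        (ArithmeticFunction.moebius d : ℂ) * ((MC.C2.vv (((n / d : ℕ) : ℝ) / U) : ℝ) : ℂ) *
          g n := by
    have h1 : ∀ n ∈ Icc 1 (q * N), ((cn D U n : ℝ) : ℂ) * g n
        = ∑ d ∈ D, if d ∣ n then (ArithmeticFunction.moebius d : ℂ) *
          ((MC.C2.vv (((n / d : ℕ) : ℝ) / U) : ℝ) : ℂ) * g n else 0 := by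
      intro n _
      unfold cn
      rw [← sum_filter]
      push_cast
      rw [sum_mul]
    rw [sum_congr rfl h1, sum_comm]
    refine sum_congr rfl fun d _ => ?_
    rw [sum_filter]
  rw [hR]
  refine sum_congr rfl fun d hd => ?_
  obtain ⟨hd1, hdq⟩ := hD d hd
  have hinj : Set.InjOn (fun m : ℕ => d * m) (Icc 1 N : Finset ℕ) := by
    intro m _ m' _ h
    exact Nat.eq_of_mul_eq_mul_left (by omega) h
  have h1 : ∑ n ∈ (Icc 1 N).image (fun m => d * m), (ArithmeticFunction.moebius d : ℂ) *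
      ((MC.C2.vv (((n / d : ℕ) : ℝ) / U) : ℝ) : ℂ) * g n
      = ∑ n ∈ (Icc 1 (q * N)).filter (fun n => d ∣ n),
        (ArithmeticFunction.moebius d : ℂ) * ((MC.C2.vv (((n / d : ℕ) : ℝ) / U) : ℝ) : ℂ) *
          g n := by
    refine sum_subset ?_ ?_
    · intro n hn
      obtain ⟨m, hm, rfl⟩ := mem_image.mp hn
      rw [mem_Icc] at hm
      rw [mem_filter, mem_Icc]
      refine ⟨⟨?_, Nat.mul_le_mul hdq hm.2⟩, Dvd.intro m rfl⟩
      exact Nat.mul_pos (by omega) (by omega)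
    · intro n hn hn'
      rw [mem_filter, mem_Icc] at hn
      obtain ⟨⟨hn1, hn2⟩, m, rfl⟩ := hn
      have hm : N < m := by
        by_contra hcon
        push Not at hcon
        refine hn' (mem_image.mpr ⟨m, ?_, rfl⟩)
        rw [mem_Icc]
        refine ⟨?_, hcon⟩
        rcases Nat.eq_zero_or_pos m with h0 | h0
        · subst h0; simp at hn1
        · exact h0
      have h2 : MC.C2.vv (((d * m / d : ℕ) : ℝ) / U) = 0 := by
        apply vv_eq_zero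
        rw [Nat.mul_div_cancel_left m (by omega), le_div_iff₀ hU0]
        have h3 : (N : ℝ) ≤ m := by exact_mod_cast hm.le
        linarith
      rw [h2]
      simp
  rw [← h1, sum_image hinj]
  refine sum_congr rfl fun m hm => ?_
  rw [Nat.mul_div_cancel_left m (by omega)]

/-- The reordering of the triangular sum. -/
lemma X1_tri (k : ℕ) (x y : ℕ → ℂ) (z : ℕ → ℂ) :
    ∑ i ∈ range (k + 1), (∑ i1 ∈ range (i + 1), x i1 * y (i - i1)) * z (k - i)
      = ∑ i ∈ range (k + 1), x i * ∑ j ∈ range (k - i + 1), y j * z (k - i - j) := by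
  have h1 : ∀ i ∈ range (k + 1), (∑ i1 ∈ range (i + 1), x i1 * y (i - i1)) * z (k - i)
      = ∑ i1 ∈ range (i + 1), x i1 * y (i - i1) * z (k - i) := fun i _ => by rw [sum_mul]
  have h2 : ∀ i ∈ range (k + 1), x i * ∑ j ∈ range (k - i + 1), y j * z (k - i - j)
      = ∑ j ∈ range (k - i + 1), x i * y j * z (k - i - j) := fun i _ => by
    rw [mul_sum]
    exact sum_congr rfl fun j _ => by ring
  rw [sum_congr rfl h1, sum_congr rfl h2, sum_sigma', sum_sigma']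
  refine sum_nbij' (fun p => ⟨p.2, p.1 - p.2⟩) (fun p => ⟨p.1 + p.2, p.1⟩) ?_ ?_ ?_ ?_ ?_
  · rintro ⟨i, i1⟩ h
    simp only [mem_sigma, mem_range] at h ⊢
    omega
  · rintro ⟨i, j⟩ h
    simp only [mem_sigma, mem_range] at h ⊢
    omega
  · rintro ⟨i, i1⟩ h
    simp only [mem_sigma, mem_range] at h
    have h3 : i1 + (i - i1) = i := by omega
    simp only [h3]
  · rintro ⟨i, j⟩ h
    have h3 : i + j - i = j := by omega
    simp only [h3]
  · rintro ⟨i, i1⟩ h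
    simp only [mem_sigma, mem_range] at h
    have h3 : k - i1 - (i - i1) = k - i := by omega
    simp only [h3]

/-- X1. Factorisation of the sum over `n = d m`. -/
lemma X_factor (q : ℕ) [NeZero q] (s : ℂ) (D : Finset ℕ) (hD : ∀ d ∈ D, 1 ≤ d ∧ d ≤ q) (U : ℝ)
    (hU : 1 ≤ U) (N : ℕ) (hN : 2 * U ≤ N) (F : ℕ → (ZMod q)ˣ → ℂ) (k : ℕ) (a : (ZMod q)ˣ) :
    ∑ n ∈ (Icc 1 (q * N)).filter (fun n => Nat.Coprime n q),
        ((cn D U n : ℝ) : ℂ) * ∑ i ∈ range (k + 1), gi s i n * F (k - i) (a * (un q n)⁻¹)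
      = ∑ d ∈ D.filter (fun d => Nat.Coprime d q), (ArithmeticFunction.moebius d : ℂ) *
        ∑ i ∈ range (k + 1), gi s i d * ∑ j ∈ range (k - i + 1),
          ∑ m ∈ (Icc 1 N).filter (fun m => Nat.Coprime m q),
            (((MC.C2.vv ((m : ℝ) / U) : ℝ) : ℂ) * gi s j m) *
              F (k - i - j) (a * (un q d)⁻¹ * (un q m)⁻¹) := by
  classical
  obtain ⟨G, hG⟩ : ∃ G : ℕ → ℂ, G = fun n : ℕ =>
      ∑ i ∈ range (k + 1), gi s i n * F (k - i) (a * (un q n)⁻¹) := ⟨_, rfl⟩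
  have h1 : ∑ n ∈ (Icc 1 (q * N)).filter (fun n => Nat.Coprime n q),
        ((cn D U n : ℝ) : ℂ) * ∑ i ∈ range (k + 1), gi s i n * F (k - i) (a * (un q n)⁻¹)
      = ∑ n ∈ Icc 1 (q * N), ((cn D U n : ℝ) : ℂ) * (if Nat.Coprime n q then G n else 0) := by
    rw [sum_filter]
    refine sum_congr rfl fun n _ => ?_
    rw [hG]
    split_ifs
    · rfl
    · rw [mul_zero]
  rw [h1, X1_split q D hD U hU N hN, sum_filter]
  refine sum_congr rfl fun d hd => ?_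
  have hd1 := (hD d hd).1
  by_cases hdq : Nat.Coprime d q
  swap
  · rw [if_neg hdq]
    refine sum_eq_zero fun m _ => ?_
    rw [if_neg, mul_zero]
    intro h
    exact hdq (Nat.Coprime.coprime_mul_right h)
  rw [if_pos hdq]
  have h2 : ∀ m ∈ Icc 1 N, (ArithmeticFunction.moebius d : ℂ) *
      ((MC.C2.vv ((m : ℝ) / U) : ℝ) : ℂ) * (if Nat.Coprime (d * m) q then G (d * m) else 0)
      = (ArithmeticFunction.moebius d : ℂ) * (if Nat.Coprime m q then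
        ∑ i ∈ range (k + 1), gi s i d * ∑ j ∈ range (k - i + 1),
            (((MC.C2.vv ((m : ℝ) / U) : ℝ) : ℂ) * gi s j m) *
              F (k - i - j) (a * (un q d)⁻¹ * (un q m)⁻¹) else 0) := by
    intro m hm
    have hm1 := (mem_Icc.1 hm).1
    by_cases hmq : Nat.Coprime m q
    · have hdm : Nat.Coprime (d * m) q := Nat.Coprime.mul_left hdq hmq
      rw [if_pos hdm, if_pos hmq, mul_assoc]
      congr 1
      have h3 : G (d * m) = ∑ i ∈ range (k + 1), gi s i d * ∑ j ∈ range (k - i + 1),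
          gi s j m * F (k - i - j) (a * (un q d)⁻¹ * (un q m)⁻¹) := by
        have h4 := X1_tri k (fun i => gi s i d) (fun i => gi s i m)
          (fun i => F i (a * (un q d)⁻¹ * (un q m)⁻¹))
        rw [← h4, hG]
        refine sum_congr rfl fun i _ => ?_
        have hd0 : (0 : ℝ) < d := by exact_mod_cast hd1
        have hm0 : (0 : ℝ) < m := by exact_mod_cast hm1
        have h5 : gi s i ((d * m : ℕ) : ℝ) = ∑ i1 ∈ range (i + 1), gi s i1 d * gi s (i - i1) m := by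
          rw [gi_conv s d m hd0 hm0 i, Nat.cast_mul]
        rw [h5, F3_mul q d m hdm, mul_inv, mul_assoc a]
      rw [h3, mul_sum]
      refine sum_congr rfl fun i _ => ?_
      rw [mul_left_comm, mul_sum]
      congr 1
      exact sum_congr rfl fun j _ => by ring
    · have hdm : ¬ Nat.Coprime (d * m) q := fun h => hmq (Nat.Coprime.coprime_mul_left h)
      rw [if_neg hdm, if_neg hmq, mul_zero, mul_zero]
  rw [sum_congr rfl h2, ← mul_sum, ← sum_filter, sum_comm]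
  congr 1
  refine sum_congr rfl fun i _ => ?_
  rw [← mul_sum]
  congr 1
  exact sum_comm

end Pool.Agent.MZ
end
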