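import Mathlib
import Pool.Agent.Lib.MP_9cfc0a_nt.Mg.G023
import Pool.Agent.Lib.MP_9cfc0a_nt.Mg.G024
import Pool.Agent.Lib.MP_9cfc0a_nt.Mg.G027
import Pool.Agent.Lib.MP_9cfc0a_nt.MY.A2

section

set_option autoImplicit false

namespace Pool.Agent.MW

open Complex Finset MY MZ

/-- The termwise bound behind the sum of `d^{-σ} kap(d)`, with `v = 1 - θ`. -/
private theorem A7_le (v e : ℝ) (hv : 0 ≤ v) (hv1 : v ≤ 1 / 2) (he : 0 < e) (he1 : e ≤ 1 / 10)
    (Z : ℝ) (hZ1 : 1 ≤ Z) (J : ℕ)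
    (hJ : (J : ℝ) ≤ (1 + e) * (1 / e) * Real.log Z + 1) (d : ℕ) (hd : 1 ≤ d) :
    K1_kap (1 / e) J d ≤ 4 * Z ^ (v + 3 * e) * (d : ℝ) ^ (-(v + e)) := by
  have hd0 : (0 : ℝ) < d := by exact_mod_cast hd
  have hZ0 : 0 < Z := by linarith
  have hlog0 : 0 ≤ Real.log d := Real.log_natCast_nonneg d
  have hLZ : 0 ≤ Real.log Z := Real.log_nonneg hZ1
  set u : ℝ := (v + e) * e with hu
  have hu0 : 0 < u := by positivity
  have hu1 : u ≤ 1 / 5 := by nlinarith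
  have h1u : 0 < 1 - u := by linarith
  set t : ℝ := (1 - u)⁻¹ with ht
  have ht0 : 0 < t := inv_pos.mpr h1u
  have ht1 : 1 ≤ t := by
    rw [ht]
    exact (one_le_inv₀ h1u).mpr (by linarith)
  have ht2 : t ≤ 2 := by
    rw [ht, inv_le_comm₀ h1u (by norm_num)]
    linarith
  set x : ℝ := 1 / e * Real.log d with hx
  have hx0 : 0 ≤ x := by positivity
  have h1 := K1_exp_head x t hx0 ht1 J
  have hlogt : Real.log t ≤ u + 2 * u ^ 2 := by
    have h2 : Real.log t ≤ t - 1 := Real.log_le_sub_one_of_pos ht0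
    have h3 : t - 1 ≤ u + 2 * u ^ 2 := by
      rw [ht, sub_le_iff_le_add, inv_le_iff_one_le_mul₀ h1u]
      nlinarith [mul_pos hu0 hu0]
    linarith
  have hlt0 : 0 ≤ Real.log t := Real.log_nonneg ht1
  have htJ : t ^ J ≤ 2 * Z ^ (v + 3 * e) := by
    have e1 : t ^ J = Real.exp (J * Real.log t) := by
      rw [← Real.rpow_natCast, Real.rpow_def_of_pos ht0]
      congr 1
      ring
    have e2 : 2 * Z ^ (v + 3 * e) = Real.exp (Real.log 2 + (v + 3 * e) * Real.log Z) := by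
      rw [Real.exp_add, Real.exp_log (by norm_num), Real.rpow_def_of_pos hZ0]
      congr 2
      ring
    rw [e1, e2, Real.exp_le_exp]
    have h3 : (J : ℝ) * Real.log t ≤ ((1 + e) * (1 / e) * Real.log Z + 1) * Real.log t :=
      mul_le_mul_of_nonneg_right hJ hlt0
    have h4 : Real.log t ≤ Real.log 2 := Real.log_le_log ht0 ht2
    have h5 : (1 + e) * (1 / e) * Real.log Z * Real.log t ≤
        (1 + e) * (1 / e) * Real.log Z * (u + 2 * u ^ 2) :=
      mul_le_mul_of_nonneg_left hlogt (by positivity)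
    have h6 : (1 + e) * (1 / e) * Real.log Z * (u + 2 * u ^ 2) ≤ (v + 3 * e) * Real.log Z := by
      have h7 : (1 + e) * (1 / e) * (u + 2 * u ^ 2) ≤ v + 3 * e := by
        have e3 : (1 + e) * (1 / e) * (u + 2 * u ^ 2) =
            (1 + e) * (v + e) + e * ((1 + e) * (2 * (v + e) ^ 2)) := by
          rw [hu]
          field_simp
        rw [e3]
        have h8 : (v + e) ^ 2 ≤ 9 / 25 := by nlinarith
        have h9 : (1 + e) * (2 * (v + e) ^ 2) ≤ 11 / 10 * (2 * (9 / 25)) :=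
          mul_le_mul (by linarith) (by linarith) (by positivity) (by norm_num)
        have h10 : e * ((1 + e) * (2 * (v + e) ^ 2)) ≤ e * (11 / 10 * (2 * (9 / 25))) :=
          mul_le_mul_of_nonneg_left h9 he.le
        have h11 : e * (v + e) ≤ e * (3 / 5) := mul_le_mul_of_nonneg_left (by linarith) he.le
        have h12 : (1 + e) * (v + e) = v + e + e * (v + e) := by ring
        rw [h12]
        linarith
      calc (1 + e) * (1 / e) * Real.log Z * (u + 2 * u ^ 2)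
          = ((1 + e) * (1 / e) * (u + 2 * u ^ 2)) * Real.log Z := by ring
        _ ≤ (v + 3 * e) * Real.log Z := mul_le_mul_of_nonneg_right h7 hLZ
    have h12 : ((1 + e) * (1 / e) * Real.log Z + 1) * Real.log t =
        (1 + e) * (1 / e) * Real.log Z * Real.log t + Real.log t := by ring
    linarith
  have h3 : (d : ℝ) ^ (-(1 / e)) = Real.exp (-x) := by
    rw [Real.rpow_def_of_pos hd0, hx]
    congr 1
    ring
  have h4 : Real.exp (-x) * Real.exp (x / t) = (d : ℝ) ^ (-(v + e)) := by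
    rw [← Real.exp_add, Real.rpow_def_of_pos hd0]
    congr 1
    have : x / t = x * (1 - u) := by rw [ht, div_inv_eq_mul]
    rw [this, hx, hu]
    field_simp
    ring
  unfold K1_kap
  rw [h3]
  calc 2 * Real.exp (-x) * ∑ j ∈ range (J + 1), x ^ j / (j.factorial : ℝ)
      ≤ 2 * Real.exp (-x) * (t ^ J * Real.exp (x / t)) :=
        mul_le_mul_of_nonneg_left h1 (by positivity)
    _ = 2 * t ^ J * (Real.exp (-x) * Real.exp (x / t)) := by ring
    _ = 2 * t ^ J * (d : ℝ) ^ (-(v + e)) := by rw [h4]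
    _ ≤ 4 * Z ^ (v + 3 * e) * (d : ℝ) ^ (-(v + e)) := by
        refine mul_le_mul_of_nonneg_right ?_ (Real.rpow_nonneg hd0.le _)
        linarith

/-- Partial sums of `d^{-σ} kap(d)`. -/
private theorem A7_sum_range (θ e : ℝ) (hθ : 1 / 2 ≤ θ) (hθ1 : θ < 1) (he : 0 < e)
    (he1 : e ≤ 1 / 10) (Z : ℝ) (hZ1 : 1 ≤ Z) (J : ℕ)
    (hJ : (J : ℝ) ≤ (1 + e) * (1 / e) * Real.log Z + 1) (σ : ℝ) (hσ : θ ≤ σ) (N : ℕ) :
    ∑ d ∈ range N, (d : ℝ) ^ (-σ) * K1_kap (1 / e) J d ≤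
      4 * (1 + 1 / e) * Z ^ (1 - θ + 3 * e) := by
  have hZ0 : 0 < Z := by linarith
  have h1 : ∀ d ∈ range N, (d : ℝ) ^ (-σ) * K1_kap (1 / e) J d ≤
      4 * Z ^ (1 - θ + 3 * e) * (d : ℝ) ^ (-(1 + e)) := by
    intro d _
    rcases Nat.eq_zero_or_pos d with rfl | hd
    · rw [K2_zero (1 / e) (by positivity) J, mul_zero, Nat.cast_zero]
      have := Real.rpow_nonneg (le_refl (0 : ℝ)) (-(1 + e))
      positivity
    · have hd0 : (0 : ℝ) < d := by exact_mod_cast hd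
      have hd1 : (1 : ℝ) ≤ d := by exact_mod_cast hd
      have h2 := A7_le (1 - θ) e (by linarith) (by linarith) he he1 Z hZ1 J hJ d hd
      have h3 : (d : ℝ) ^ (-σ) ≤ (d : ℝ) ^ (-θ) :=
        Real.rpow_le_rpow_of_exponent_le hd1 (by linarith)
      have h4 : 0 ≤ 4 * Z ^ (1 - θ + 3 * e) * (d : ℝ) ^ (-(1 - θ + e)) := by
        have := Real.rpow_nonneg hZ0.le (1 - θ + 3 * e)
        have := Real.rpow_nonneg hd0.le (-(1 - θ + e))
        positivity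
      calc (d : ℝ) ^ (-σ) * K1_kap (1 / e) J d
          ≤ (d : ℝ) ^ (-σ) * (4 * Z ^ (1 - θ + 3 * e) * (d : ℝ) ^ (-(1 - θ + e))) :=
            mul_le_mul_of_nonneg_left h2 (Real.rpow_nonneg hd0.le _)
        _ ≤ (d : ℝ) ^ (-θ) * (4 * Z ^ (1 - θ + 3 * e) * (d : ℝ) ^ (-(1 - θ + e))) :=
            mul_le_mul_of_nonneg_right h3 h4
        _ = 4 * Z ^ (1 - θ + 3 * e) * ((d : ℝ) ^ (-θ) * (d : ℝ) ^ (-(1 - θ + e))) := by
            ring
        _ = 4 * Z ^ (1 - θ + 3 * e) * (d : ℝ) ^ (-(1 + e)) := by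
            rw [← Real.rpow_add hd0]
            congr 2
            ring
  calc ∑ d ∈ range N, (d : ℝ) ^ (-σ) * K1_kap (1 / e) J d
      ≤ ∑ d ∈ range N, 4 * Z ^ (1 - θ + 3 * e) * (d : ℝ) ^ (-(1 + e)) := Finset.sum_le_sum h1
    _ = 4 * Z ^ (1 - θ + 3 * e) * ∑ d ∈ range N, (d : ℝ) ^ (-(1 + e)) := by
        rw [Finset.mul_sum]
    _ ≤ 4 * Z ^ (1 - θ + 3 * e) * (1 + 1 / e) := by
        refine mul_le_mul_of_nonneg_left (K2_zsum e he N) ?_
        have := Real.rpow_nonneg hZ0.le (1 - θ + 3 * e)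
        positivity
    _ = 4 * (1 + 1 / e) * Z ^ (1 - θ + 3 * e) := by ring

/-- A7. The total weight (as `MZ.K2`). -/
lemma kap_sum (θ e : ℝ) (hθ : 1 / 2 ≤ θ) (hθ1 : θ < 1) (he : 0 < e) (he1 : e ≤ 1 / 10) :
    ∃ C : ℝ, 1 ≤ C ∧ ∀ Z : ℝ, 1 ≤ Z →
    ∀ σ : ℝ, θ ≤ σ → ∀ M : ℕ, ∑ d ∈ Icc 1 M, (d : ℝ) ^ (-σ) * kap e Z d
      ≤ C * Z ^ (1 - θ + 3 * e) := by
  refine ⟨4 * (1 + 1 / e), ?_, ?_⟩
  · have : 0 < 1 / e := by positivity
    linarith
  · intro Z hZ σ hσ M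
    have h1 := A7_sum_range θ e hθ hθ1 he he1 Z hZ (JJ e Z) (K1_JJ_le e he Z hZ) σ hσ (M + 1)
    have h2 : ∑ d ∈ Icc 1 M, (d : ℝ) ^ (-σ) * kap e Z d ≤
        ∑ d ∈ range (M + 1), (d : ℝ) ^ (-σ) * kap e Z d := by
      refine Finset.sum_le_sum_of_subset_of_nonneg ?_ ?_
      · intro d hd
        rw [mem_Icc] at hd
        exact mem_range.mpr (by omega)
      · intro d _ _
        rw [K1_kap_eq]
        exact K2_term_nonneg (1 / e) (by positivity) (JJ e Z) σ d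
    exact le_trans h2 h1

end Pool.Agent.MW
end

section

set_option autoImplicit false

namespace Pool.Agent.MZ

section K3aux

open Finset



/-- Iterated multiplication by the logarithm. -/
theorem K3_logMul_iter (f : ℕ → ℂ) (j n : ℕ) :
    (LSeries.logMul^[j] f) n = (Complex.log n) ^ j * f n := by
  induction j with
  | zero => simp
  | succ j ih =>
    rw [Function.iterate_succ_apply', LSeries.logMul, ih, pow_succ]
    ring

/-- `∑ χ(d) d^{-s} (log d)^j = (-1)^j L^{(j)}(s, χ)` for real `s > 1`. -/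
theorem K3_taylor {q : ℕ} [NeZero q] (χ : DirichletCharacter ℂ q) (s : ℝ) (hs : 1 < s) (j : ℕ) :
    HasSum (fun d : ℕ => χ (d : ZMod q) * (((d : ℝ) ^ (-s) * (Real.log d) ^ j : ℝ) : ℂ))
      ((-1) ^ j * iteratedDeriv j χ.LFunction (s : ℂ)) := by
  have habs : LSeries.abscissaOfAbsConv (fun n : ℕ => χ (n : ZMod q)) <
      (((s : ℂ).re : ℝ) : EReal) := by
    have h0 := DirichletCharacter.absicssaOfAbsConv_eq_one (NeZero.ne q) χ
    have h0' : LSeries.abscissaOfAbsConv (fun n : ℕ => χ (n : ZMod q)) = 1 := h0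
    rw [h0', Complex.ofReal_re]
    exact_mod_cast hs
  have h1 : iteratedDeriv j χ.LFunction (s : ℂ) =
      iteratedDeriv j (LSeries fun n : ℕ => χ (n : ZMod q)) (s : ℂ) := by
    refine Filter.EventuallyEq.iteratedDeriv_eq j ?_
    have hopen : IsOpen {z : ℂ | 1 < z.re} := isOpen_lt continuous_const Complex.continuous_re
    have hmem : (s : ℂ) ∈ {z : ℂ | 1 < z.re} := by simpa using hs
    filter_upwards [hopen.mem_nhds hmem] with z hz
    exact DirichletCharacter.LFunction_eq_LSeries χ hz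
  rw [h1, LSeries_iteratedDeriv j habs, ← mul_assoc, ← mul_pow]
  have h2 : ((-1 : ℂ) * (-1)) ^ j = 1 := by norm_num
  rw [h2, one_mul]
  have h3 : LSeriesSummable (LSeries.logMul^[j] fun n : ℕ => χ (n : ZMod q)) (s : ℂ) := by
    refine LSeriesSummable_of_abscissaOfAbsConv_lt_re ?_
    rw [LSeries.absicssaOfAbsConv_logPowMul]
    exact habs
  have h4 := h3.hasSum
  have h5 : (fun d : ℕ => χ (d : ZMod q) * (((d : ℝ) ^ (-s) * (Real.log d) ^ j : ℝ) : ℂ)) =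
      LSeries.term (LSeries.logMul^[j] fun n : ℕ => χ (n : ZMod q)) (s : ℂ) := by
    funext d
    rcases Nat.eq_zero_or_pos d with rfl | hd
    · rw [LSeries.term_zero, Nat.cast_zero, Nat.cast_zero, Real.zero_rpow (by linarith)]
      simp
    · have hd0 : (0 : ℝ) < d := by exact_mod_cast hd
      rw [LSeries.term_of_ne_zero (by omega), K3_logMul_iter]
      have e1 : (((d : ℝ) ^ (-s) : ℝ) : ℂ) = ((d : ℂ) ^ (s : ℂ))⁻¹ := by
        rw [Real.rpow_neg hd0.le, Complex.ofReal_inv, Complex.ofReal_cpow hd0.le,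
          Complex.ofReal_natCast]
      rw [Complex.ofReal_mul, e1, Complex.ofReal_pow, ← Complex.natCast_log]
      ring
  rw [h5]
  exact h4

/-- The sum of the weight against a character (summability and value). -/
theorem K3_hasSum {q : ℕ} [NeZero q] (χ : DirichletCharacter ℂ q) (c : ℝ) (hc : 0 < c)
    (J : ℕ) (σ : ℝ) (hs : 1 < σ + c) :
    HasSum (fun d : ℕ => χ (d : ZMod q) * (((d : ℝ) ^ (-σ) * K1_kap c J d : ℝ) : ℂ))
      (2 * ∑ j ∈ range (J + 1), (-(c : ℂ)) ^ j / (j.factorial : ℂ) *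
        iteratedDeriv j χ.LFunction ((σ + c : ℝ) : ℂ)) := by
  have h1 : HasSum (fun d : ℕ => ∑ j ∈ range (J + 1), (2 * (c : ℂ) ^ j / (j.factorial : ℂ)) *
      (χ (d : ZMod q) * (((d : ℝ) ^ (-(σ + c)) * (Real.log d) ^ j : ℝ) : ℂ)))
      (∑ j ∈ range (J + 1), (2 * (c : ℂ) ^ j / (j.factorial : ℂ)) *
        ((-1) ^ j * iteratedDeriv j χ.LFunction ((σ + c : ℝ) : ℂ))) :=
    hasSum_sum fun j _ => (K3_taylor χ (σ + c) hs j).mul_left _
  have h2 : (fun d : ℕ => χ (d : ZMod q) * (((d : ℝ) ^ (-σ) * K1_kap c J d : ℝ) : ℂ)) =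
      fun d : ℕ => ∑ j ∈ range (J + 1), (2 * (c : ℂ) ^ j / (j.factorial : ℂ)) *
      (χ (d : ZMod q) * (((d : ℝ) ^ (-(σ + c)) * (Real.log d) ^ j : ℝ) : ℂ)) := by
    funext d
    rcases Nat.eq_zero_or_pos d with rfl | hd
    · have e1 : K1_kap c J 0 = 0 := by
        unfold K1_kap
        rw [Nat.cast_zero, Real.zero_rpow (by linarith)]
        simp
      rw [e1, Nat.cast_zero, Nat.cast_zero, Real.zero_rpow (by linarith : -(σ + c) ≠ 0)]
      simp
    · have hd0 : (0 : ℝ) < d := by exact_mod_cast hd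
      unfold K1_kap
      rw [show -(σ + c) = -σ + -c by ring, Real.rpow_add hd0]
      push_cast
      rw [Finset.mul_sum, Finset.mul_sum, Finset.mul_sum]
      refine Finset.sum_congr rfl fun j _ => ?_
      rw [mul_pow]
      ring
  rw [h2]
  convert h1 using 1
  rw [Finset.mul_sum]
  refine Finset.sum_congr rfl fun j _ => ?_
  rw [neg_pow (c : ℂ) j]
  ring

/-- (iii): summability and the bound by the maximum of `L` on the circle of radius `c` around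
`σ + c`. -/
theorem K3_char {q : ℕ} [NeZero q] (χ : DirichletCharacter ℂ q) (hχ : χ ≠ 1) (c : ℝ)
    (hc : 0 < c) (J : ℕ) (σ : ℝ) (hs : 1 < σ + c) (M : ℝ)
    (hM : ∀ z : ℂ, ‖z - ((σ + c : ℝ) : ℂ)‖ = c → ‖χ.LFunction z‖ ≤ M) :
    (Summable fun d : ℕ => χ (d : ZMod q) * (((d : ℝ) ^ (-σ) * K1_kap c J d : ℝ) : ℂ)) ∧
      ‖∑' d : ℕ, χ (d : ZMod q) * (((d : ℝ) ^ (-σ) * K1_kap c J d : ℝ) : ℂ)‖ ≤ 2 * (J + 1) * M := by
  have h0 := K3_hasSum χ c hc J σ hs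
  refine ⟨h0.summable, ?_⟩
  rw [h0.tsum_eq]
  have h1 : ∀ j : ℕ, ‖(-(c : ℂ)) ^ j / (j.factorial : ℂ) *
      iteratedDeriv j χ.LFunction ((σ + c : ℝ) : ℂ)‖ ≤ M := by
    intro j
    have h2 : ‖iteratedDeriv j χ.LFunction ((σ + c : ℝ) : ℂ)‖ ≤ j.factorial * M / c ^ j := by
      refine Complex.norm_iteratedDeriv_le_of_forall_mem_sphere_norm_le j hc ?_ ?_
      · exact (DirichletCharacter.differentiable_LFunction hχ).diffContOnCl
      · intro z hz
        refine hM z ?_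
        rw [mem_sphere_iff_norm] at hz
        exact hz
    have hf : (0 : ℝ) < j.factorial := by exact_mod_cast j.factorial_pos
    have hcj : 0 < c ^ j := pow_pos hc j
    rw [norm_mul, norm_div, norm_pow, norm_neg, Complex.norm_real, Real.norm_of_nonneg hc.le,
      Complex.norm_natCast]
    calc c ^ j / (j.factorial : ℝ) * ‖iteratedDeriv j χ.LFunction ((σ + c : ℝ) : ℂ)‖
        ≤ c ^ j / (j.factorial : ℝ) * (j.factorial * M / c ^ j) :=
          mul_le_mul_of_nonneg_left h2 (by positivity)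
      _ = M := by field_simp
  calc ‖2 * ∑ j ∈ range (J + 1), (-(c : ℂ)) ^ j / (j.factorial : ℂ) *
        iteratedDeriv j χ.LFunction ((σ + c : ℝ) : ℂ)‖
      = 2 * ‖∑ j ∈ range (J + 1), (-(c : ℂ)) ^ j / (j.factorial : ℂ) *
        iteratedDeriv j χ.LFunction ((σ + c : ℝ) : ℂ)‖ := by
        rw [norm_mul, Complex.norm_ofNat]
    _ ≤ 2 * ∑ j ∈ range (J + 1), M :=
        mul_le_mul_of_nonneg_left (norm_sum_le_of_le _ fun j _ => h1 j) (by norm_num)
    _ = 2 * (J + 1) * M := by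
        rw [Finset.sum_const, card_range, nsmul_eq_mul]
        push_cast
        ring


end K3aux

open Complex Finset MY

/-- K3. The Poisson weights against a character: Cauchy's inequality on the circle of radius `1/e`
around `σ + 1/e`. -/
lemma kap_char (e : ℝ) (he : 0 < e) (he1 : e ≤ 1 / 10) (q : ℕ) [NeZero q] (Z σ M₀ : ℝ) (hZ : 1 ≤ Z)
    (hσ : 1 / 2 ≤ σ)
    (hL : ∀ χ : DirichletCharacter ℂ q, χ ≠ 1 → ∀ z ∈ Metric.closedBall ((σ + 1 / e : ℝ) : ℂ) (1 / e),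
      ‖χ.LFunction z‖ ≤ M₀) :
    ∃ M₁ : ℕ, ∀ M : ℕ, M₁ ≤ M → ∀ χ : DirichletCharacter ℂ q, χ ≠ 1 →
    ‖∑ d ∈ Icc 1 M, (((d : ℝ) ^ (-σ) * kap e Z d : ℝ) : ℂ) * χ d‖
      ≤ 2 * (JJ e Z + 1) * M₀ + 1 := by
  have hc : 0 < 1 / e := by positivity
  have hc10 : 10 ≤ 1 / e := by
    rw [le_div_iff₀ he]
    linarith
  have hs : 1 < σ + 1 / e := by linarith
  set g : ℕ → ℝ := fun d => (d : ℝ) ^ (-σ) * kap e Z d with hg
  have hg0 : ∀ d, 0 ≤ g d := fun d => K2_term_nonneg (1 / e) hc.le (JJ e Z) σ d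
  have hsum : Summable g :=
    K2_summable e he (by linarith) Z hZ (JJ e Z) (K1_JJ_le e he Z hZ) σ hσ
  have htail : Filter.Tendsto (fun i => ∑' k, g (k + i)) Filter.atTop (nhds 0) :=
    tendsto_sum_nat_add g
  obtain ⟨N₀, hN₀⟩ := (htail.eventually (gt_mem_nhds (zero_lt_one' ℝ))).exists_forall_of_atTop
  refine ⟨N₀, fun M hM χ hχ => ?_⟩
  obtain ⟨h1, h2⟩ := K3_char χ hχ (1 / e) hc (JJ e Z) σ hs M₀ (fun z hz =>
    hL χ hχ z (by rw [Metric.mem_closedBall, dist_eq_norm]; exact hz.le))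
  set F : ℕ → ℂ := fun d => χ (d : ZMod q) * (((d : ℝ) ^ (-σ) * K1_kap (1 / e) (JJ e Z) d : ℝ) : ℂ)
    with hF
  have hFg : ∀ d, ‖F d‖ ≤ g d := by
    intro d
    rw [hF]
    simp only
    have h9 : 0 ≤ (d : ℝ) ^ (-σ) * K1_kap (1 / e) (JJ e Z) d := hg0 d
    rw [norm_mul, Complex.norm_real, Real.norm_of_nonneg h9]
    calc ‖χ (d : ZMod q)‖ * ((d : ℝ) ^ (-σ) * K1_kap (1 / e) (JJ e Z) d)
        ≤ 1 * ((d : ℝ) ^ (-σ) * K1_kap (1 / e) (JJ e Z) d) :=
          mul_le_mul_of_nonneg_right (χ.norm_le_one _) (hg0 d)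
      _ = g d := by rw [one_mul]; rfl
  have h3 : ∑ d ∈ Icc 1 M, (((d : ℝ) ^ (-σ) * kap e Z d : ℝ) : ℂ) * χ d =
      ∑ d ∈ range (M + 1), F d := by
    have h4 : range (M + 1) = insert 0 (Icc 1 M) := by
      ext d
      simp only [mem_range, mem_insert, mem_Icc]
      omega
    rw [h4, Finset.sum_insert (by simp)]
    have h5 : F 0 = 0 := by
      rw [hF]
      simp only
      rw [K2_zero (1 / e) hc (JJ e Z)]
      simp
    rw [h5, zero_add]
    refine Finset.sum_congr rfl fun d _ => ?_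
    rw [mul_comm]
    rfl
  rw [h3]
  have h6 : ∑ d ∈ range (M + 1), F d = (∑' d, F d) - ∑' d, F (d + (M + 1)) := by
    rw [← h1.sum_add_tsum_nat_add (M + 1)]
    ring
  have h7 : ‖∑' d, F (d + (M + 1))‖ ≤ 1 := by
    have h8 : Summable fun d => g (d + (M + 1)) := (summable_nat_add_iff (M + 1)).mpr hsum
    calc ‖∑' d, F (d + (M + 1))‖ ≤ ∑' d, g (d + (M + 1)) :=
          tsum_of_norm_bounded h8.hasSum fun d => hFg _
      _ ≤ 1 := (hN₀ (M + 1) (by omega)).le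
  rw [h6]
  calc ‖(∑' d, F d) - ∑' d, F (d + (M + 1))‖
      ≤ ‖∑' d, F d‖ + ‖∑' d, F (d + (M + 1))‖ := norm_sub_le _ _
    _ ≤ 2 * (JJ e Z + 1) * M₀ + 1 := add_le_add h2 h7

end Pool.Agent.MZ
end

section

set_option autoImplicit false

namespace Pool.Agent.MZ

open Complex Finset MY

lemma M1_conj (q : ℕ) [NeZero q] (χ : DirichletCharacter ℂ q) (c : (ZMod q)ˣ) :
    starRingEnd ℂ (χ (c : ZMod q)) = χ ((c⁻¹ : (ZMod q)ˣ) : ZMod q) := by
  have h3 := EM.X1_star q χ (c : ZMod q) (Units.isUnit _)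
  rw [RCLike.star_def] at h3
  rw [h3, ZMod.inv_coe_unit]

/-- Parseval on the group of units. -/
lemma M1_parseval (q : ℕ) [NeZero q] (F : (ZMod q)ˣ → ℂ) :
    ∑ χ : DirichletCharacter ℂ q, ‖∑ c : (ZMod q)ˣ, F c * χ (c : ZMod q)‖ ^ 2
      = (q.totient : ℝ) * ∑ c, ‖F c‖ ^ 2 := by
  classical
  have key : ((∑ χ : DirichletCharacter ℂ q, ‖∑ c : (ZMod q)ˣ, F c * χ (c : ZMod q)‖ ^ 2 : ℝ) : ℂ)
      = (((q.totient : ℝ) * ∑ c, ‖F c‖ ^ 2 : ℝ) : ℂ) := by
    push_cast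
    have h1 : ∀ χ : DirichletCharacter ℂ q,
        ((‖∑ c : (ZMod q)ˣ, F c * χ (c : ZMod q)‖ : ℝ) : ℂ) ^ 2
        = ∑ c : (ZMod q)ˣ, ∑ c' : (ZMod q)ˣ, starRingEnd ℂ (F c) * F c' *
          (χ ((c⁻¹ : (ZMod q)ˣ) : ZMod q) * χ (c' : ZMod q)) := by
      intro χ
      rw [← Complex.conj_mul', map_sum, sum_mul]
      refine sum_congr rfl fun c _ => ?_
      rw [mul_sum]
      refine sum_congr rfl fun c' _ => ?_
      rw [map_mul, M1_conj]
      ring
    rw [sum_congr rfl fun χ _ => h1 χ, sum_comm, mul_sum]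
    refine sum_congr rfl fun c _ => ?_
    rw [sum_comm]
    have h2 : ∀ c' : (ZMod q)ˣ, ∑ χ : DirichletCharacter ℂ q, starRingEnd ℂ (F c) * F c' *
          (χ ((c⁻¹ : (ZMod q)ˣ) : ZMod q) * χ (c' : ZMod q))
        = if c = c' then starRingEnd ℂ (F c) * F c' * (q.totient : ℂ) else 0 := by
      intro c'
      rw [← mul_sum]
      have h3 := DirichletCharacter.sum_char_inv_mul_char_eq ℂ (Units.isUnit c) (c' : ZMod q)
      rw [ZMod.inv_coe_unit] at h3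
      rw [h3]
      by_cases h : c = c'
      · rw [if_pos h, if_pos (by rw [h])]
      · rw [if_neg h, if_neg (fun h' => h (Units.ext h')), mul_zero]
    rw [sum_congr rfl fun c' _ => h2 c', sum_ite_eq, if_pos (mem_univ _), Complex.conj_mul']
    ring
  exact_mod_cast key

lemma M1_transform (q : ℕ) [NeZero q] (I : Finset ℕ) (w : ℕ → ℂ) (h : (ZMod q)ˣ → ℂ)
    (χ : DirichletCharacter ℂ q) :
    ∑ c : (ZMod q)ˣ, (∑ m ∈ I.filter (fun m => Nat.Coprime m q), w m * h (c * (un q m)⁻¹)) *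
        χ (c : ZMod q)
      = (∑ m ∈ I, w m * χ m) * ∑ c : (ZMod q)ˣ, h c * χ (c : ZMod q) := by
  have h1 : ∑ m ∈ I, w m * χ m = ∑ m ∈ I.filter (fun m => Nat.Coprime m q), w m * χ m := by
    rw [sum_filter]
    refine sum_congr rfl fun m _ => ?_
    split_ifs with hc
    · rfl
    · rw [show χ (m : ZMod q) = 0 from MulChar.map_nonunit χ (fun hu => hc
          ((ZMod.isUnit_iff_coprime m q).mp hu)), mul_zero]
  rw [h1, sum_mul]
  have h2 : ∀ c : (ZMod q)ˣ, (∑ m ∈ I.filter (fun m => Nat.Coprime m q),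
      w m * h (c * (un q m)⁻¹)) * χ (c : ZMod q)
      = ∑ m ∈ I.filter (fun m => Nat.Coprime m q), w m * (h (c * (un q m)⁻¹) * χ (c : ZMod q)) := by
    intro c
    rw [sum_mul]
    refine sum_congr rfl fun m _ => ?_
    ring
  rw [sum_congr rfl fun c _ => h2 c, sum_comm]
  refine sum_congr rfl fun m hm => ?_
  have hm' := (mem_filter.mp hm).2
  rw [← mul_sum, mul_assoc]
  congr 1
  rw [← Equiv.sum_comp (Equiv.mulRight (un q m)), mul_sum]
  refine sum_congr rfl fun c _ => ?_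
  simp only [Equiv.coe_mulRight, mul_inv_cancel_right, Units.val_mul, map_mul]
  rw [un_coe q m hm']
  ring

/-- M1. A multiplier on `ℓ²` of the classes, for functions with sum `0`. -/
lemma mul_bound (q : ℕ) [NeZero q] (I : Finset ℕ) (w : ℕ → ℂ) (h : (ZMod q)ˣ → ℂ)
    (hh : ∑ c, h c = 0) (Λ : ℝ) (hΛ : 0 ≤ Λ)
    (hw : ∀ χ : DirichletCharacter ℂ q, χ ≠ 1 → ‖∑ m ∈ I, w m * χ m‖ ≤ Λ) :
    ∑ c, ‖∑ m ∈ I.filter (fun m => Nat.Coprime m q), w m * h (c * (un q m)⁻¹)‖ ^ 2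
      ≤ Λ ^ 2 * ∑ c, ‖h c‖ ^ 2 := by
  classical
  have hφ0 : (0 : ℝ) < q.totient := by
    exact_mod_cast Nat.totient_pos.mpr (Nat.pos_of_ne_zero (NeZero.ne q))
  have p1 := M1_parseval q (fun c => ∑ m ∈ I.filter (fun m => Nat.Coprime m q),
    w m * h (c * (un q m)⁻¹))
  have p2 := M1_parseval q h
  have h1 : ∀ χ : DirichletCharacter ℂ q, ‖∑ c : (ZMod q)ˣ,
      (∑ m ∈ I.filter (fun m => Nat.Coprime m q), w m * h (c * (un q m)⁻¹)) *
        χ (c : ZMod q)‖ ^ 2 ≤ Λ ^ 2 * ‖∑ c : (ZMod q)ˣ, h c * χ (c : ZMod q)‖ ^ 2 := by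
    intro χ
    rw [M1_transform, norm_mul, mul_pow]
    by_cases hχ : χ = 1
    · have h2 : ∑ c : (ZMod q)ˣ, h c * χ (c : ZMod q) = 0 := by
        rw [← hh]
        refine sum_congr rfl fun c _ => ?_
        rw [hχ, MulChar.one_apply_coe, mul_one]
      rw [h2]
      simp
    · have h3 := hw χ hχ
      gcongr
  have h4 := sum_le_sum fun χ (_ : χ ∈ (univ : Finset (DirichletCharacter ℂ q))) => h1 χ
  rw [← mul_sum, p1, p2] at h4
  have h5 : (q.totient : ℝ) * ∑ c, ‖∑ m ∈ I.filter (fun m => Nat.Coprime m q),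
      w m * h (c * (un q m)⁻¹)‖ ^ 2 ≤ (q.totient : ℝ) * (Λ ^ 2 * ∑ c, ‖h c‖ ^ 2) := by
    calc _ ≤ _ := h4
      _ = _ := by ring
  exact le_of_mul_le_mul_left h5 hφ0

end Pool.Agent.MZ
end

section

set_option autoImplicit false

namespace Pool.Agent.MZ

open Complex Finset MY

/-- M3. Convolution of a sequence of functions on the classes with a sequence of multipliers. -/
lemma conv_bound (q : ℕ) [NeZero q] (I : Finset ℕ) (w : ℕ → ℕ → ℂ) (F : ℕ → (ZMod q)ˣ → ℂ)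
    (Λ W r ρ : ℝ) (hΛ : 0 ≤ Λ) (hW : 0 ≤ W) (hr : 0 < r) (hrρ : r ≤ ρ)
    (hsum : ∀ j, ∑ c, F j c = 0) (hF : ∀ j, ∑ c, ‖F j c‖ ^ 2 ≤ (W * (ρ⁻¹) ^ j) ^ 2)
    (hw : ∀ i, ∀ χ : DirichletCharacter ℂ q, χ ≠ 1 → ‖∑ m ∈ I, w i m * χ m‖ ≤ Λ * (r⁻¹) ^ i)
    (l : ℕ) :
    ∑ c, ‖∑ j ∈ range (l + 1), ∑ m ∈ I.filter (fun m => Nat.Coprime m q),
        w j m * F (l - j) (c * (un q m)⁻¹)‖ ^ 2 ≤ (Λ * W * (l + 1) * (r⁻¹) ^ l) ^ 2 := by
  have hρ : 0 < ρ := lt_of_lt_of_le hr hrρ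
  have hinv : ρ⁻¹ ≤ r⁻¹ := inv_anti₀ hr hrρ
  have hρ0 : 0 ≤ ρ⁻¹ := (inv_pos.2 hρ).le
  have hr0 : 0 ≤ r⁻¹ := (inv_pos.2 hr).le
  have h1 : ∀ j ∈ range (l + 1), ∑ c, ‖∑ m ∈ I.filter (fun m => Nat.Coprime m q),
      w j m * F (l - j) (c * (un q m)⁻¹)‖ ^ 2 ≤ (Λ * W * (r⁻¹) ^ l) ^ 2 := by
    intro j hj
    have hjl : j ≤ l := by
      have := Finset.mem_range.1 hj
      omega
    have h2 := mul_bound q I (w j) (F (l - j)) (hsum (l - j)) (Λ * (r⁻¹) ^ j) (by positivity)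
      (hw j)
    refine h2.trans ?_
    refine (mul_le_mul_of_nonneg_left (hF (l - j)) (by positivity)).trans ?_
    rw [← mul_pow]
    apply pow_le_pow_left₀ (by positivity)
    have h3 : (ρ⁻¹) ^ (l - j) ≤ (r⁻¹) ^ (l - j) := pow_le_pow_left₀ hρ0 hinv _
    have h4 : (r⁻¹) ^ l = (r⁻¹) ^ j * (r⁻¹) ^ (l - j) := by
      rw [← pow_add]
      congr 1
      omega
    rw [h4]
    calc Λ * (r⁻¹) ^ j * (W * (ρ⁻¹) ^ (l - j)) ≤ Λ * (r⁻¹) ^ j * (W * (r⁻¹) ^ (l - j)) := by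
          apply mul_le_mul_of_nonneg_left _ (by positivity)
          exact mul_le_mul_of_nonneg_left h3 hW
      _ = Λ * W * ((r⁻¹) ^ j * (r⁻¹) ^ (l - j)) := by ring
  have h5 : ∀ c, ‖∑ j ∈ range (l + 1), ∑ m ∈ I.filter (fun m => Nat.Coprime m q),
        w j m * F (l - j) (c * (un q m)⁻¹)‖ ^ 2 ≤
      ((l : ℝ) + 1) * ∑ j ∈ range (l + 1), ‖∑ m ∈ I.filter (fun m => Nat.Coprime m q),
        w j m * F (l - j) (c * (un q m)⁻¹)‖ ^ 2 := by
    intro c
    have h6 := norm_sum_le (range (l + 1)) (fun j => ∑ m ∈ I.filter (fun m => Nat.Coprime m q),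
        w j m * F (l - j) (c * (un q m)⁻¹))
    have h7 := sq_sum_le_card_mul_sum_sq (s := range (l + 1))
      (f := fun j => ‖∑ m ∈ I.filter (fun m => Nat.Coprime m q),
        w j m * F (l - j) (c * (un q m)⁻¹)‖)
    rw [Finset.card_range] at h7
    push_cast at h7
    exact (pow_le_pow_left₀ (norm_nonneg _) h6 2).trans h7
  refine (Finset.sum_le_sum (fun c _ => h5 c)).trans ?_
  rw [← Finset.mul_sum, Finset.sum_comm]
  have h8 := Finset.sum_le_sum h1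
  rw [Finset.sum_const, Finset.card_range, nsmul_eq_mul] at h8
  push_cast at h8
  have hl : (0 : ℝ) ≤ (l : ℝ) + 1 := by positivity
  refine (mul_le_mul_of_nonneg_left h8 hl).trans (le_of_eq ?_)
  ring

end Pool.Agent.MZ
end
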