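import Mathlib
import Pool.Agent.Lib.MP_9cfc0a_nt.MY.Defs
import Pool.Agent.Lib.MP_9cfc0a_nt.EMTuran
import Pool.Agent.Lib.MP_9cfc0a_nt.EMZeros

section

set_option autoImplicit false

namespace Pool.Agent.MY

open Complex Finset

open MeasureTheory

lemma D2_tendsto (a : ℝ) (ha : 0 < a) (j n : ℕ) (hn : 1 ≤ n) :
    Filter.Tendsto (fun x : ℝ => ((n : ℝ) * x) ^ (-a) * ((Real.log (n * x)) ^ j / (j.factorial : ℝ)))
      Filter.atTop (nhds 0) := by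
  have hn0 : (0 : ℝ) < n := by exact_mod_cast hn
  have h1 := (isLittleO_log_rpow_rpow_atTop (j : ℝ) ha).tendsto_div_nhds_zero
  have h2 : Filter.Tendsto (fun x : ℝ => (n : ℝ) * x) Filter.atTop Filter.atTop :=
    Filter.Tendsto.const_mul_atTop hn0 Filter.tendsto_id
  have h3 := (h1.comp h2).const_mul ((j.factorial : ℝ)⁻¹)
  rw [mul_zero] at h3
  refine h3.congr' ?_
  filter_upwards [Filter.eventually_gt_atTop (0 : ℝ)] with x hx
  simp only [Function.comp_apply]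
  rw [Real.rpow_natCast, Real.rpow_neg (by positivity)]
  ring

/-- The primitives. -/
lemma D2_prim (a : ℝ) (ha : 0 < a) (n : ℕ) (hn : 1 ≤ n) (j : ℕ) : ∃ P : ℝ → ℝ,
    (∀ x : ℝ, 1 ≤ x → HasDerivAt P
      (((n : ℝ) * x) ^ (-a) * ((Real.log (n * x)) ^ j / (j.factorial : ℝ)) / x) x) ∧
    Filter.Tendsto P Filter.atTop (nhds 0) ∧
    - P 1 = (n : ℝ) ^ (-a) * (a⁻¹) ^ (j + 1) *
      ∑ i ∈ range (j + 1), (a * Real.log n) ^ i / (i.factorial : ℝ) := by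
  have hn0 : (0 : ℝ) < n := by exact_mod_cast hn
  have hd1 : ∀ x : ℝ, 1 ≤ x → HasDerivAt (fun x : ℝ => ((n : ℝ) * x) ^ (-a))
      (-a * ((n : ℝ) * x) ^ (-a) / x) x := by
    intro x hx
    have hx0 : 0 < x := by linarith
    have h1 : HasDerivAt (fun x : ℝ => (n : ℝ) * x) (n : ℝ) x := by
      simpa using (hasDerivAt_id x).const_mul (n : ℝ)
    have h2 := h1.rpow_const (p := -a) (Or.inl (by positivity))
    convert h2 using 1
    rw [Real.rpow_sub_one (by positivity)]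
    field_simp
  have hd2 : ∀ x : ℝ, 1 ≤ x → HasDerivAt (fun x : ℝ => Real.log (n * x)) (1 / x) x := by
    intro x hx
    have hx0 : 0 < x := by linarith
    have h1 : HasDerivAt (fun x : ℝ => (n : ℝ) * x) (n : ℝ) x := by
      simpa using (hasDerivAt_id x).const_mul (n : ℝ)
    have h2 := h1.log (by positivity)
    convert h2 using 1
    field_simp
  induction j with
  | zero =>
    refine ⟨fun x => -(a⁻¹ * ((n : ℝ) * x) ^ (-a)), fun x hx => ?_, ?_, ?_⟩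
    · have hx0 : 0 < x := by linarith
      have h1 := ((hd1 x hx).const_mul a⁻¹).neg
      refine h1.congr_deriv ?_
      simp only [pow_zero, Nat.factorial_zero, Nat.cast_one, div_one, mul_one]
      field_simp
    · have h1 := (D2_tendsto a ha 0 n hn).const_mul (-a⁻¹)
      rw [mul_zero] at h1
      refine h1.congr fun x => ?_
      simp
    · simp
      ring
  | succ j ih =>
    obtain ⟨P, hP1, hP2, hP3⟩ := ih
    refine ⟨fun x => a⁻¹ * (P x - ((n : ℝ) * x) ^ (-a) *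
      ((Real.log (n * x)) ^ (j + 1) / ((j + 1).factorial : ℝ))), fun x hx => ?_, ?_, ?_⟩
    · have hx0 : 0 < x := by linarith
      have h1 := (((hP1 x hx).sub ((hd1 x hx).mul (((hd2 x hx).pow (j + 1)).div_const
        ((j + 1).factorial : ℝ))))).const_mul a⁻¹
      refine h1.congr_deriv ?_
      have hf : ((j + 1).factorial : ℝ) = (j + 1) * (j.factorial : ℝ) := by
        rw [Nat.factorial_succ]; push_cast; ring
      have hf0 : (j.factorial : ℝ) ≠ 0 := by exact_mod_cast j.factorial_ne_zero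
      have hj : (j : ℝ) + 1 ≠ 0 := by positivity
      simp only [Pi.pow_apply, Nat.add_sub_cancel]
      rw [hf]
      push_cast
      field_simp
      ring
    · have h1 := (hP2.sub (D2_tendsto a ha (j + 1) n hn)).const_mul a⁻¹
      rw [sub_zero, mul_zero] at h1
      exact h1
    · rw [sum_range_succ _ (j + 1)]
      have h1 : -(a⁻¹ * (P 1 - ((n : ℝ) * 1) ^ (-a) *
          ((Real.log (n * 1)) ^ (j + 1) / ((j + 1).factorial : ℝ))))
          = a⁻¹ * (-P 1) + a⁻¹ * ((n : ℝ) ^ (-a) *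
          ((Real.log n) ^ (j + 1) / ((j + 1).factorial : ℝ))) := by
        rw [mul_one]; ring
      rw [h1, hP3, mul_pow]
      have h2 : (a⁻¹) ^ (j + 1 + 1) * a ^ (j + 1) = a⁻¹ := by
        rw [pow_succ, mul_right_comm, ← mul_pow, inv_mul_cancel₀ ha.ne', one_pow, one_mul]
      calc _ = (n : ℝ) ^ (-a) * (a⁻¹) ^ (j + 1 + 1) *
            (∑ i ∈ range (j + 1), (a * Real.log n) ^ i / (i.factorial : ℝ))
            + a⁻¹ * ((n : ℝ) ^ (-a) * ((Real.log n) ^ (j + 1) / ((j + 1).factorial : ℝ))) := by ring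
        _ = (n : ℝ) ^ (-a) * (a⁻¹) ^ (j + 1 + 1) *
            (∑ i ∈ range (j + 1), (a * Real.log n) ^ i / (i.factorial : ℝ))
            + ((a⁻¹) ^ (j + 1 + 1) * a ^ (j + 1)) * ((n : ℝ) ^ (-a) *
              ((Real.log n) ^ (j + 1) / ((j + 1).factorial : ℝ))) := by rw [h2]
        _ = _ := by ring

/-- The base integral. -/
lemma D2_base (a : ℝ) (ha : 0 < a) (j n : ℕ) (hn : 1 ≤ n) :
    IntegrableOn (fun x : ℝ => ((n : ℝ) * x) ^ (-a) *
      ((Real.log (n * x)) ^ j / (j.factorial : ℝ)) / x) (Set.Ioi 1) ∧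
    ∫ x in Set.Ioi (1 : ℝ), ((n : ℝ) * x) ^ (-a) *
      ((Real.log (n * x)) ^ j / (j.factorial : ℝ)) / x ≤ (a⁻¹) ^ (j + 1) := by
  have hn0 : (0 : ℝ) < n := by exact_mod_cast hn
  have hn1 : (1 : ℝ) ≤ n := by exact_mod_cast hn
  obtain ⟨P, hP1, hP2, hP3⟩ := D2_prim a ha n hn j
  have hpos : ∀ x ∈ Set.Ioi (1 : ℝ), 0 ≤ ((n : ℝ) * x) ^ (-a) *
      ((Real.log (n * x)) ^ j / (j.factorial : ℝ)) / x := by
    intro x hx
    have hx1 : (1 : ℝ) < x := hx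
    have hl : 0 ≤ Real.log (n * x) := Real.log_nonneg (by nlinarith)
    have : 0 < (n : ℝ) * x := by positivity
    positivity
  refine ⟨integrableOn_Ioi_deriv_of_nonneg' (fun x hx => hP1 x hx) hpos hP2, ?_⟩
  rw [integral_Ioi_of_hasDerivAt_of_nonneg' (fun x hx => hP1 x hx) hpos hP2, zero_sub, hP3]
  have h1 : ∑ i ∈ range (j + 1), (a * Real.log n) ^ i / (i.factorial : ℝ)
      ≤ Real.exp (a * Real.log n) :=
    Real.sum_le_exp_of_nonneg (mul_nonneg ha.le (Real.log_nonneg hn1)) _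
  have h2 : (n : ℝ) ^ (-a) * Real.exp (a * Real.log n) = 1 := by
    rw [Real.rpow_def_of_pos hn0, ← Real.exp_add]
    rw [show Real.log n * -a + a * Real.log n = 0 by ring, Real.exp_zero]
  calc (n : ℝ) ^ (-a) * (a⁻¹) ^ (j + 1) * ∑ i ∈ range (j + 1), (a * Real.log n) ^ i / (i.factorial : ℝ)
      ≤ (n : ℝ) ^ (-a) * (a⁻¹) ^ (j + 1) * Real.exp (a * Real.log n) := by gcongr
    _ = ((n : ℝ) ^ (-a) * Real.exp (a * Real.log n)) * (a⁻¹) ^ (j + 1) := by ring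
    _ = (a⁻¹) ^ (j + 1) := by rw [h2, one_mul]

lemma KK_nonneg (S : ℝ) (hS : 0 ≤ S) (k n : ℕ) (hn : 1 ≤ n) (x : ℝ) (hx : 1 ≤ x) :
    0 ≤ KK S k n x := by
  have hn1 : (1 : ℝ) ≤ n := by exact_mod_cast hn
  have hl : 0 ≤ Real.log (n * x) := Real.log_nonneg (by nlinarith)
  have : 0 < x := by linarith
  unfold KK
  positivity

/-- `x ^ θ * KK` in terms of the base functions. -/
lemma D2_split (S : ℝ) (k n : ℕ) (hn : 1 ≤ n) (θ : ℝ) (x : ℝ) (hx : 1 ≤ x) :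
    x ^ θ * KK S k n x = (n : ℝ) ^ (-θ) *
      (S * (((n : ℝ) * x) ^ (-(2 - θ)) * ((Real.log (n * x)) ^ (k + 1) / ((k + 1).factorial : ℝ)) / x)
        + ((n : ℝ) * x) ^ (-(2 - θ)) * ((Real.log (n * x)) ^ k / (k.factorial : ℝ)) / x) := by
  have hn0 : (0 : ℝ) < n := by exact_mod_cast hn
  have hx0 : 0 < x := by linarith
  have h1 : ((n : ℝ) * x) ^ (-(2 - θ)) = (n : ℝ) ^ θ * x ^ θ / ((n : ℝ) * x) ^ 2 := by
    rw [neg_sub, Real.rpow_sub (by positivity), Real.mul_rpow hn0.le hx0.le]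
    norm_num
  rw [h1, Real.rpow_neg hn0.le]
  unfold KK
  have h2 : (n : ℝ) ^ θ ≠ 0 := (Real.rpow_pos_of_pos hn0 _).ne'
  field_simp

/-- A bound with the base functions for `2 - θ = a ≥ 0`. -/
lemma D2_bound (S : ℝ) (hS : 0 ≤ S) (k n : ℕ) (hn : 1 ≤ n) (a : ℝ) (ha : 0 < a) :
    IntegrableOn (fun x : ℝ => x ^ (2 - a) * KK S k n x) (Set.Ioi 1) ∧
    ∫ x in Set.Ioi (1 : ℝ), x ^ (2 - a) * KK S k n x
      ≤ (n : ℝ) ^ (-(2 - a)) * (S * (a⁻¹) ^ (k + 2) + (a⁻¹) ^ (k + 1)) := by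
  obtain ⟨i1, b1⟩ := D2_base a ha (k + 1) n hn
  obtain ⟨i2, b2⟩ := D2_base a ha k n hn
  have hsp : ∀ x ∈ Set.Ioi (1 : ℝ), x ^ (2 - a) * KK S k n x = (n : ℝ) ^ (-(2 - a)) *
      (S * (((n : ℝ) * x) ^ (-a) * ((Real.log (n * x)) ^ (k + 1) / ((k + 1).factorial : ℝ)) / x)
        + ((n : ℝ) * x) ^ (-a) * ((Real.log (n * x)) ^ k / (k.factorial : ℝ)) / x) := by
    intro x hx
    have h := D2_split S k n hn (2 - a) x (le_of_lt hx)
    rw [show 2 - (2 - a) = a by ring] at h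
    exact h
  have hI := ((i1.const_mul S).add i2).const_mul ((n : ℝ) ^ (-(2 - a)))
  constructor
  · refine hI.congr ?_
    refine (ae_restrict_iff' measurableSet_Ioi).mpr (ae_of_all _ fun t ht => ?_)
    simp only [Pi.add_apply]
    exact (hsp t ht).symm
  · rw [setIntegral_congr_fun measurableSet_Ioi hsp, integral_const_mul,
      integral_add (i1.const_mul S) i2, integral_const_mul]
    gcongr

/-- D2. The kernel against `x ^ θ`. -/
lemma KK_theta (S : ℝ) (hS : 1 ≤ S) (k n : ℕ) (hn : 1 ≤ n) (θ : ℝ) (hθ : 0 ≤ θ) (hθ1 : θ ≤ 1) :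
    IntegrableOn (fun x : ℝ => x ^ θ * KK S k n x) (Set.Ioi 1) ∧
    ∫ x in Set.Ioi (1 : ℝ), x ^ θ * KK S k n x
      ≤ (1 + S) * (n : ℝ) ^ (-θ) * ((2 - θ) ^ (k + 1))⁻¹ := by
  have ha : 0 < 2 - θ := by linarith
  have h := D2_bound S (by linarith) k n hn (2 - θ) ha
  rw [show 2 - (2 - θ) = θ by ring] at h
  refine ⟨h.1, h.2.trans ?_⟩
  have h1 : (2 - θ)⁻¹ ≤ 1 := inv_le_one_of_one_le₀ (by linarith)
  have h2 : ((2 - θ)⁻¹) ^ (k + 2) ≤ ((2 - θ)⁻¹) ^ (k + 1) :=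
    pow_le_pow_of_le_one (by positivity) h1 (by omega)
  have hn0 : 0 ≤ (n : ℝ) ^ (-θ) := by positivity
  rw [← inv_pow]
  calc (n : ℝ) ^ (-θ) * (S * ((2 - θ)⁻¹) ^ (k + 2) + ((2 - θ)⁻¹) ^ (k + 1))
      ≤ (n : ℝ) ^ (-θ) * (S * ((2 - θ)⁻¹) ^ (k + 1) + ((2 - θ)⁻¹) ^ (k + 1)) := by gcongr
    _ = _ := by ring

/-- The low part. -/
lemma KK_low (S : ℝ) (hS : 1 ≤ S) (k n : ℕ) (hn : 1 ≤ n) (X : ℝ) (hX : 1 ≤ X)
    (hk : 12 * Real.log (n * X) ≤ k + 1) :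
    ∫ x in Set.Ioc (1 : ℝ) X, x * KK S k n x ≤ (1 + S) * (n : ℝ)⁻¹ * (2 * (1 / 4 : ℝ) ^ (k + 1)) := by
  have hn0 : (0 : ℝ) < n := by exact_mod_cast hn
  have hX0 : 0 < X := by linarith
  obtain ⟨hI, hb⟩ := D2_bound S (by linarith) k n hn 12 (by norm_num)
  have hsub : Set.Ioc (1 : ℝ) X ⊆ Set.Ioi 1 := fun x hx => hx.1
  have h1 : ∫ x in Set.Ioc (1 : ℝ) X, x * KK S k n x
      ≤ ∫ x in Set.Ioc (1 : ℝ) X, X ^ (11 : ℝ) * (x ^ (2 - 12 : ℝ) * KK S k n x) := by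
    refine integral_mono_of_nonneg ?_ ((hI.mono_set hsub).const_mul _) ?_
    · refine (ae_restrict_iff' measurableSet_Ioc).mpr (ae_of_all _ fun x hx => ?_)
      have := KK_nonneg S (by linarith) k n hn x hx.1.le
      have : (1 : ℝ) < x := hx.1
      show 0 ≤ x * KK S k n x
      positivity
    · refine (ae_restrict_iff' measurableSet_Ioc).mpr (ae_of_all _ fun x hx => ?_)
      have h2 := KK_nonneg S (by linarith) k n hn x hx.1.le
      have hx1 : (1 : ℝ) < x := hx.1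
      have hx0 : 0 < x := by linarith
      simp only
      rw [← mul_assoc]
      refine mul_le_mul_of_nonneg_right ?_ h2
      calc x = x ^ (11 : ℝ) * x ^ (2 - 12 : ℝ) := by
            rw [← Real.rpow_add hx0]; norm_num
        _ ≤ X ^ (11 : ℝ) * x ^ (2 - 12 : ℝ) := by
            refine mul_le_mul_of_nonneg_right ?_ (by positivity)
            exact Real.rpow_le_rpow hx0.le hx.2 (by norm_num)
  have h2 : ∫ x in Set.Ioc (1 : ℝ) X, x ^ (2 - 12 : ℝ) * KK S k n x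
      ≤ ∫ x in Set.Ioi (1 : ℝ), x ^ (2 - 12 : ℝ) * KK S k n x := by
    refine setIntegral_mono_set hI ?_ hsub.eventuallyLE
    refine (ae_restrict_iff' measurableSet_Ioi).mpr (ae_of_all _ fun x hx => ?_)
    have := KK_nonneg S (by linarith) k n hn x (le_of_lt hx)
    have : (1 : ℝ) < x := hx
    show 0 ≤ x ^ (2 - 12 : ℝ) * KK S k n x
    positivity
  rw [integral_const_mul] at h1
  have h3 : (X * n) ^ (11 : ℝ) ≤ 3 ^ (k + 1) := by
    have hXn : 0 < X * n := by positivity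
    rw [Real.rpow_def_of_pos hXn]
    have h4 : Real.log (X * n) * 11 ≤ (k + 1 : ℝ) * Real.log 3 := by
      have h5 : (1 : ℝ) ≤ Real.log 3 := by
        rw [Real.le_log_iff_exp_le (by norm_num)]
        have := Real.exp_one_lt_d9
        linarith
      rw [mul_comm X]
      have h6 : 0 ≤ Real.log (n * X) := Real.log_nonneg (by
        have : (1 : ℝ) ≤ n := by exact_mod_cast hn
        nlinarith)
      nlinarith
    calc Real.exp (Real.log (X * n) * 11) ≤ Real.exp ((k + 1 : ℝ) * Real.log 3) :=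
          Real.exp_le_exp.mpr h4
      _ = 3 ^ (k + 1) := by
          rw [mul_comm, Real.exp_mul, Real.exp_log (by norm_num)]
          exact_mod_cast Real.rpow_natCast 3 (k + 1)
  have h4 : (n : ℝ) ^ (-(2 - 12) : ℝ) = (n : ℝ)⁻¹ * (n : ℝ) ^ (11 : ℝ) := by
    rw [← Real.rpow_neg_one, ← Real.rpow_add hn0]; norm_num
  have h5 : S * ((12 : ℝ)⁻¹) ^ (k + 2) + ((12 : ℝ)⁻¹) ^ (k + 1) ≤ (1 + S) * ((12 : ℝ)⁻¹) ^ (k + 1) := by
    have : ((12 : ℝ)⁻¹) ^ (k + 2) ≤ ((12 : ℝ)⁻¹) ^ (k + 1) :=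
      pow_le_pow_of_le_one (by norm_num) (by norm_num) (by omega)
    nlinarith
  calc ∫ x in Set.Ioc (1 : ℝ) X, x * KK S k n x
      ≤ X ^ (11 : ℝ) * ((n : ℝ) ^ (-(2 - 12) : ℝ) *
        (S * ((12 : ℝ)⁻¹) ^ (k + 2) + ((12 : ℝ)⁻¹) ^ (k + 1))) := by
        refine h1.trans ?_
        exact mul_le_mul_of_nonneg_left (h2.trans hb) (by positivity)
    _ ≤ X ^ (11 : ℝ) * (((n : ℝ)⁻¹ * (n : ℝ) ^ (11 : ℝ)) * ((1 + S) * ((12 : ℝ)⁻¹) ^ (k + 1))) := by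
        rw [h4]; gcongr
    _ = (1 + S) * (n : ℝ)⁻¹ * ((X * n) ^ (11 : ℝ) * ((12 : ℝ)⁻¹) ^ (k + 1)) := by
        rw [Real.mul_rpow hX0.le hn0.le]; ring
    _ ≤ (1 + S) * (n : ℝ)⁻¹ * (3 ^ (k + 1) * ((12 : ℝ)⁻¹) ^ (k + 1)) := by gcongr
    _ = (1 + S) * (n : ℝ)⁻¹ * (1 / 4 : ℝ) ^ (k + 1) := by
        rw [← mul_pow]; norm_num
    _ ≤ _ := by
        have : (0 : ℝ) ≤ (1 / 4 : ℝ) ^ (k + 1) := by positivity
        gcongr
        linarith

/-- The high part. -/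
lemma KK_high (S : ℝ) (hS : 1 ≤ S) (k n : ℕ) (hn : 1 ≤ n) (Y : ℝ) (hY : 1 ≤ Y) :
    ∫ x in Set.Ioi Y, x * KK S k n x
      ≤ (1 + S) * (n : ℝ)⁻¹ * (4 * 2 ^ (k + 1) * Y ^ (-(1 / 2) : ℝ)) := by
  have hn0 : (0 : ℝ) < n := by exact_mod_cast hn
  have hn1 : (1 : ℝ) ≤ n := by exact_mod_cast hn
  have hY0 : 0 < Y := by linarith
  obtain ⟨hI, hb⟩ := D2_bound S (by linarith) k n hn (1 / 2) (by norm_num)
  have hsub : Set.Ioi Y ⊆ Set.Ioi (1 : ℝ) := Set.Ioi_subset_Ioi hY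
  have h1 : ∫ x in Set.Ioi Y, x * KK S k n x
      ≤ ∫ x in Set.Ioi Y, Y ^ (-(1 / 2) : ℝ) * (x ^ (2 - 1 / 2 : ℝ) * KK S k n x) := by
    refine integral_mono_of_nonneg ?_ ((hI.mono_set hsub).const_mul _) ?_
    · refine (ae_restrict_iff' measurableSet_Ioi).mpr (ae_of_all _ fun x hx => ?_)
      have hx1 : (1 : ℝ) < x := hsub hx
      have := KK_nonneg S (by linarith) k n hn x hx1.le
      show 0 ≤ x * KK S k n x
      positivity
    · refine (ae_restrict_iff' measurableSet_Ioi).mpr (ae_of_all _ fun x hx => ?_)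
      have hx1 : (1 : ℝ) < x := hsub hx
      have h2 := KK_nonneg S (by linarith) k n hn x hx1.le
      have hx0 : 0 < x := by linarith
      simp only
      rw [← mul_assoc]
      refine mul_le_mul_of_nonneg_right ?_ h2
      calc x = x ^ (-(1 / 2) : ℝ) * x ^ (2 - 1 / 2 : ℝ) := by
            rw [← Real.rpow_add hx0]; norm_num
        _ ≤ Y ^ (-(1 / 2) : ℝ) * x ^ (2 - 1 / 2 : ℝ) := by
            refine mul_le_mul_of_nonneg_right ?_ (by positivity)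
            exact Real.rpow_le_rpow_of_nonpos hY0 (le_of_lt hx) (by norm_num)
  have h2 : ∫ x in Set.Ioi Y, x ^ (2 - 1 / 2 : ℝ) * KK S k n x
      ≤ ∫ x in Set.Ioi (1 : ℝ), x ^ (2 - 1 / 2 : ℝ) * KK S k n x := by
    refine setIntegral_mono_set hI ?_ hsub.eventuallyLE
    refine (ae_restrict_iff' measurableSet_Ioi).mpr (ae_of_all _ fun x hx => ?_)
    have := KK_nonneg S (by linarith) k n hn x (le_of_lt hx)
    have : (1 : ℝ) < x := hx
    show 0 ≤ x ^ (2 - 1 / 2 : ℝ) * KK S k n x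
    positivity
  rw [integral_const_mul] at h1
  have h4 : (n : ℝ) ^ (-(2 - 1 / 2) : ℝ) ≤ (n : ℝ)⁻¹ := by
    rw [← Real.rpow_neg_one]
    exact Real.rpow_le_rpow_of_exponent_le hn1 (by norm_num)
  have h5 : S * ((1 / 2 : ℝ)⁻¹) ^ (k + 2) + ((1 / 2 : ℝ)⁻¹) ^ (k + 1) ≤ (1 + S) * (4 * 2 ^ (k + 1)) := by
    have h6 : ((1 / 2 : ℝ)⁻¹) = 2 := by norm_num
    rw [h6, pow_succ 2 (k + 1)]
    have : (0 : ℝ) < 2 ^ (k + 1) := by positivity
    nlinarith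
  calc ∫ x in Set.Ioi Y, x * KK S k n x
      ≤ Y ^ (-(1 / 2) : ℝ) * ((n : ℝ) ^ (-(2 - 1 / 2) : ℝ) *
        (S * ((1 / 2 : ℝ)⁻¹) ^ (k + 2) + ((1 / 2 : ℝ)⁻¹) ^ (k + 1))) := by
        refine h1.trans ?_
        exact mul_le_mul_of_nonneg_left (h2.trans hb) (by positivity)
    _ ≤ Y ^ (-(1 / 2) : ℝ) * ((n : ℝ)⁻¹ * ((1 + S) * (4 * 2 ^ (k + 1)))) := by gcongr
    _ = _ := by ring

end Pool.Agent.MY
end

section

set_option autoImplicit false

/-!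
Campaign MY (MP_9cfc0a), G5a: a function with a zero near `s` has large Taylor coefficients of its
logarithmic derivative in windows.
-/

namespace Pool.Agent.MY

open Complex Finset

/-- A function with a zero at distance `≤ r` has large Taylor coefficients in windows; the length of
the windows depends only on `ε`, and they start at a constant times the size `T`. -/
lemma window_gen (ε : ℝ) (hε : 0 < ε) : ∃ (L m₀ : ℕ) (C : ℝ), 1 ≤ L ∧ 1 ≤ C ∧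
    ∀ (f : ℂ → ℂ), Differentiable ℂ f → ∀ (s : ℂ) (T : ℝ), 1 ≤ T →
    (∀ z ∈ Metric.closedBall s (39 / 20), ‖f z‖ ≤ Real.exp T) → Real.exp (-T) ≤ ‖f s‖ →
    ∀ ρ₀ : ℂ, f ρ₀ = 0 → ∀ r : ℝ, ‖s - ρ₀‖ ≤ r → r < 3 / 2 → ∀ m : ℕ, m₀ ≤ m → C * T + 1 ≤ m →
      ∃ k : ℕ, m ≤ k + 1 ∧ k ≤ L * m ∧
      Real.exp (-(ε * m)) ≤ r ^ (k + 1) * (‖TC (logDeriv f) s k‖ + C * T * (10 / 17 : ℝ) ^ k) := by
  classical
  obtain ⟨L, m₀, hturan⟩ := EM.turan_window ε 1 hε one_pos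
  obtain ⟨C, hC1, hloc⟩ := EM.local_zeros
  refine ⟨max L 1, m₀, C, le_max_right _ _, hC1,
    fun f hf s T hT1 hb hc ρ₀ hρ r hr hr1 m hm0 hmT => ?_⟩
  have hs : f s ≠ 0 := by
    intro h
    rw [h, norm_zero] at hc
    exact absurd hc (not_le.mpr (Real.exp_pos _))
  have hana : AnalyticOnNhd ℂ f (Metric.closedBall s (39 / 20)) := fun z _ =>
    hf.analyticAt z
  obtain ⟨n, ρ, hn, hρz, hall, hcoef⟩ := hloc f s T hT1 hana hb hc
  have hmem : ρ₀ ∈ Metric.closedBall s (7 / 4) := by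
    rw [Metric.mem_closedBall, dist_comm, dist_eq_norm]
    linarith
  obtain ⟨j0, hj0⟩ := hall ρ₀ hmem hρ
  obtain ⟨js, _, hjs⟩ := Finset.exists_min_image (Finset.univ : Finset (Fin n))
    (fun j => ‖s - ρ j‖) ⟨j0, Finset.mem_univ _⟩
  have hne : ∀ j, s - ρ j ≠ 0 := by
    intro j h
    apply hs
    rw [sub_eq_zero.mp h]
    exact hρz j
  have hδ : ‖s - ρ js‖ ≤ r := le_trans (hjs j0 (Finset.mem_univ _)) (by rw [hj0]; exact hr)
  have hδ0 : 0 < ‖s - ρ js‖ := norm_pos_iff.mpr (hne js)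
  have hm1R : (n : ℝ) + 1 ≤ m := by linarith
  have hm1 : 1 ≤ m := by
    have h1 : (0 : ℝ) ≤ n := Nat.cast_nonneg _
    have h2 : (1 : ℝ) ≤ m := by linarith
    exact_mod_cast h2
  obtain ⟨k', hk1, hk2, hk3⟩ := hturan m hm0 (Fin n) (fun j => (s - ρ j) / (s - ρ js))
    (by
      rw [Fintype.card_fin]
      linarith)
    (by
      intro j
      rw [norm_div, le_div_iff₀ hδ0, one_mul]
      exact hjs j (Finset.mem_univ _))
    ⟨js, div_self (hne js)⟩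
  obtain ⟨k, rfl⟩ : ∃ k, k' = k + 1 := ⟨k' - 1, by omega⟩
  refine ⟨k, hk1, ?_, ?_⟩
  · calc k ≤ k + 1 := Nat.le_succ k
      _ ≤ L * m := hk2
      _ ≤ max L 1 * m := Nat.mul_le_mul_right m (le_max_left _ _)
  · have hsum : ∑ j, (((s - ρ j) / (s - ρ js))⁻¹) ^ (k + 1)
        = (s - ρ js) ^ (k + 1) * ∑ j, ((s - ρ j)⁻¹) ^ (k + 1) := by
      rw [Finset.mul_sum]
      refine Finset.sum_congr rfl fun j _ => ?_
      rw [inv_div, div_eq_mul_inv, mul_pow]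
    rw [hsum, norm_mul, norm_pow] at hk3
    have hco := hcoef k
    have h1 : ‖∑ j, ((s - ρ j)⁻¹) ^ (k + 1)‖ ≤
        ‖TC (logDeriv f) s k‖ + C * T * (10 / 17 : ℝ) ^ k := by
      have h2 : ‖∑ j, ((s - ρ j)⁻¹) ^ (k + 1)‖
          = ‖(-1 : ℂ) ^ k * ∑ j, ((s - ρ j)⁻¹) ^ (k + 1)‖ := by
        rw [norm_mul, norm_pow, norm_neg, norm_one, one_pow, one_mul]
      rw [h2]
      have h3 := norm_sub_norm_le
        ((-1 : ℂ) ^ k * ∑ j, ((s - ρ j)⁻¹) ^ (k + 1)) (TC (logDeriv f) s k)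
      have h4 : ‖(-1 : ℂ) ^ k * ∑ j, ((s - ρ j)⁻¹) ^ (k + 1) - TC (logDeriv f) s k‖
          ≤ C * T * (10 / 17 : ℝ) ^ k := by
        rw [norm_sub_rev]
        exact hco
      linarith
    have hT0 : 0 ≤ ‖TC (logDeriv f) s k‖ + C * T * (10 / 17 : ℝ) ^ k :=
      le_trans (norm_nonneg _) h1
    calc Real.exp (-(ε * m)) ≤ ‖s - ρ js‖ ^ (k + 1) * ‖∑ j, ((s - ρ j)⁻¹) ^ (k + 1)‖ := hk3
      _ ≤ ‖s - ρ js‖ ^ (k + 1) * (‖TC (logDeriv f) s k‖ + C * T * (10 / 17 : ℝ) ^ k) :=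
          mul_le_mul_of_nonneg_left h1 (pow_nonneg hδ0.le _)
      _ ≤ r ^ (k + 1) * (‖TC (logDeriv f) s k‖ + C * T * (10 / 17 : ℝ) ^ k) :=
          mul_le_mul_of_nonneg_right (pow_le_pow_left₀ hδ0.le hδ _) hT0

end Pool.Agent.MY
end
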