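import Mathlib
import Pool.Agent.Lib.MP_9cfc0a_nt.MY.Defs
import Pool.Agent.Lib.MP_9cfc0a_nt.MY.D1
import Pool.Agent.Lib.MP_9cfc0a_nt.Mg.G029
import Pool.Agent.Lib.MP_9cfc0a_nt.Mg.G023
import Pool.Agent.Lib.MP_9cfc0a_nt.Mg.G028
import Pool.Agent.Lib.MP_9cfc0a_nt.Mg.G027
import Pool.Agent.Lib.MP_9cfc0a_nt.Mg.G024
import Pool.Agent.Lib.MP_9cfc0a_nt.MY.A2
import Pool.Agent.Lib.MP_9cfc0a_nt.Mg.G025

section

set_option autoImplicit false

/-! Mean squares of the kernels (campaign MZ). -/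

namespace Pool.Agent.MZ

open Finset Complex MeasureTheory Pool.Agent.MY

/-- Cauchy-Schwarz. -/
lemma cs_int (μ : Measure ℝ) (f g : ℝ → ℝ) (hf : AEStronglyMeasurable f μ)
    (hg : AEStronglyMeasurable g μ) (hf2 : Integrable (fun x => f x ^ 2) μ)
    (hg2 : Integrable (fun x => g x ^ 2) μ) :
    Integrable (fun x => |f x| * |g x|) μ ∧
    (∫ x, |f x| * |g x| ∂μ) ^ 2 ≤ (∫ x, f x ^ 2 ∂μ) * ∫ x, g x ^ 2 ∂μ := by
  have hf' : MemLp f 2 μ := (memLp_two_iff_integrable_sq hf).mpr hf2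
  have hg' : MemLp g 2 μ := (memLp_two_iff_integrable_sq hg).mpr hg2
  have hfn : MemLp (fun x => |f x|) 2 μ := hf'.abs
  have hgn : MemLp (fun x => |g x|) 2 μ := hg'.abs
  have h2 : ENNReal.ofReal 2 = 2 := by norm_num
  refine ⟨hfn.integrable_mul hgn, ?_⟩
  have h := integral_mul_le_Lp_mul_Lq_of_nonneg (μ := μ) (f := fun x => |f x|)
    (g := fun x => |g x|) (p := 2) (q := 2) Real.HolderConjugate.two_two
    (ae_of_all _ fun x => abs_nonneg _) (ae_of_all _ fun x => abs_nonneg _)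
    (by rw [h2]; exact hfn) (by rw [h2]; exact hgn)
  have e1 : (∫ x, |f x| ^ (2 : ℝ) ∂μ) = ∫ x, f x ^ 2 ∂μ := by
    refine integral_congr_ae (ae_of_all _ fun x => ?_)
    simp only
    rw [Real.rpow_two, sq_abs]
  have e2 : (∫ x, |g x| ^ (2 : ℝ) ∂μ) = ∫ x, g x ^ 2 ∂μ := by
    refine integral_congr_ae (ae_of_all _ fun x => ?_)
    simp only
    rw [Real.rpow_two, sq_abs]
  rw [e1, e2] at h
  have n1 : 0 ≤ ∫ x, f x ^ 2 ∂μ := integral_nonneg fun x => sq_nonneg _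
  have n2 : 0 ≤ ∫ x, g x ^ 2 ∂μ := integral_nonneg fun x => sq_nonneg _
  have n3 : 0 ≤ ∫ x, |f x| * |g x| ∂μ :=
    integral_nonneg fun x => mul_nonneg (abs_nonneg _) (abs_nonneg _)
  calc (∫ x, |f x| * |g x| ∂μ) ^ 2
      ≤ ((∫ x, f x ^ 2 ∂μ) ^ (1 / (2 : ℝ)) * (∫ x, g x ^ 2 ∂μ) ^ (1 / (2 : ℝ))) ^ 2 :=
        pow_le_pow_left₀ n3 h 2
    _ = (∫ x, f x ^ 2 ∂μ) * ∫ x, g x ^ 2 ∂μ := by
        rw [mul_pow, ← Real.sqrt_eq_rpow, ← Real.sqrt_eq_rpow, Real.sq_sqrt n1, Real.sq_sqrt n2]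

/-- The second moment of `(log nx)^k / k!`. -/
lemma sq_base (k n : ℕ) (hn : 1 ≤ n) :
    IntegrableOn (fun x : ℝ => ((Real.log (n * x)) ^ k / (k.factorial : ℝ)) ^ 2
      / ((n : ℝ) * x) ^ 4) (Set.Ioi 1) ∧
    ∫ x in Set.Ioi (1 : ℝ), ((Real.log (n * x)) ^ k / (k.factorial : ℝ)) ^ 2
      / ((n : ℝ) * x) ^ 4 ≤ (n : ℝ)⁻¹ * ((4 / 9 : ℝ) ^ k / 3) := by
  have hn0 : (0 : ℝ) < n := by exact_mod_cast hn
  obtain ⟨hI, hb⟩ := D2_base 3 (by norm_num) (2 * k) n hn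
  set c : ℝ := (n : ℝ)⁻¹ * ((2 * k).factorial / ((k.factorial : ℝ) ^ 2)) with hc
  have hf0 : (0 : ℝ) < k.factorial := by exact_mod_cast k.factorial_pos
  have hf1 : (0 : ℝ) < (2 * k).factorial := by exact_mod_cast (2 * k).factorial_pos
  have hc0 : 0 ≤ c := by positivity
  have he : ∀ x ∈ Set.Ioi (1 : ℝ), c * (((n : ℝ) * x) ^ (-3 : ℝ) *
      ((Real.log (n * x)) ^ (2 * k) / ((2 * k).factorial : ℝ)) / x)
      = ((Real.log (n * x)) ^ k / (k.factorial : ℝ)) ^ 2 / ((n : ℝ) * x) ^ 4 := by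
    intro x hx
    have hx0 : (0 : ℝ) < x := lt_trans one_pos hx
    have hnx : (0 : ℝ) < n * x := by positivity
    have e1 : ((n : ℝ) * x) ^ (-3 : ℝ) = (((n : ℝ) * x) ^ 3)⁻¹ := by
      rw [Real.rpow_neg hnx.le]
      congr 1
      exact_mod_cast Real.rpow_natCast ((n : ℝ) * x) 3
    rw [e1, hc, pow_mul' (Real.log (n * x)) 2 k]
    field_simp
  have hI2 : IntegrableOn (fun x : ℝ => c * (((n : ℝ) * x) ^ (-3 : ℝ) *
      ((Real.log (n * x)) ^ (2 * k) / ((2 * k).factorial : ℝ)) / x)) (Set.Ioi 1) :=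
    hI.const_mul c
  refine ⟨hI2.congr_fun he measurableSet_Ioi, ?_⟩
  rw [← setIntegral_congr_fun measurableSet_Ioi he, integral_const_mul]
  have hcb : ((2 * k).factorial : ℝ) / ((k.factorial : ℝ) ^ 2) ≤ 4 ^ k := by
    have h1 : (k.centralBinom : ℝ) = ((2 * k).factorial : ℝ) / ((k.factorial : ℝ) ^ 2) := by
      rw [Nat.centralBinom_eq_two_mul_choose, Nat.cast_choose ℝ (by omega : k ≤ 2 * k)]
      have : 2 * k - k = k := by omega
      rw [this, pow_two]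
    have h2 : k.centralBinom ≤ 4 ^ k := by
      rw [Nat.centralBinom_eq_two_mul_choose]
      calc (2 * k).choose k ≤ 2 ^ (2 * k) := Nat.choose_le_two_pow (2 * k) k
        _ = 4 ^ k := by rw [pow_mul]; norm_num
    rw [← h1]
    exact_mod_cast h2
  calc c * ∫ x in Set.Ioi (1 : ℝ), (((n : ℝ) * x) ^ (-3 : ℝ) *
      ((Real.log (n * x)) ^ (2 * k) / ((2 * k).factorial : ℝ)) / x)
      ≤ c * (3⁻¹) ^ (2 * k + 1) := mul_le_mul_of_nonneg_left hb hc0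
    _ = (n : ℝ)⁻¹ * (((2 * k).factorial / ((k.factorial : ℝ) ^ 2)) * (3⁻¹) ^ (2 * k + 1)) := by
        rw [hc]; ring
    _ ≤ (n : ℝ)⁻¹ * (4 ^ k * (3⁻¹) ^ (2 * k + 1)) := by
        refine mul_le_mul_of_nonneg_left (mul_le_mul_of_nonneg_right hcb (by positivity))
          (by positivity)
    _ = (n : ℝ)⁻¹ * ((4 / 9 : ℝ) ^ k / 3) := by
        congr 1
        have e9 : (4 / 9 : ℝ) ^ k = 4 ^ k * (3⁻¹) ^ (2 * k) := by
          rw [pow_mul, ← mul_pow]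
          norm_num
        rw [e9, pow_succ]
        ring

/-- The second moment of the kernel. -/
lemma KK_sq (S : ℝ) (hS : 1 ≤ S) (k n : ℕ) (hn : 1 ≤ n) :
    IntegrableOn (fun x : ℝ => (x * KK S k n x) ^ 2) (Set.Ioi 1) ∧
    ∫ x in Set.Ioi (1 : ℝ), (x * KK S k n x) ^ 2
      ≤ (1 + S) ^ 2 * ((n : ℝ)⁻¹ * ((4 / 9 : ℝ) ^ (k + 1))) := by
  have hn0 : (0 : ℝ) < n := by exact_mod_cast hn
  obtain ⟨hI1, hb1⟩ := sq_base (k + 1) n hn
  obtain ⟨hI0, hb0⟩ := sq_base k n hn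
  set F1 : ℝ → ℝ := fun x => ((Real.log (n * x)) ^ (k + 1) / ((k + 1).factorial : ℝ)) ^ 2
      / ((n : ℝ) * x) ^ 4 with hF1
  set F0 : ℝ → ℝ := fun x => ((Real.log (n * x)) ^ k / (k.factorial : ℝ)) ^ 2
      / ((n : ℝ) * x) ^ 4 with hF0
  have hdom : ∀ x ∈ Set.Ioi (1 : ℝ), (x * KK S k n x) ^ 2 ≤ 2 * S ^ 2 * F1 x + 2 * F0 x := by
    intro x hx
    have hx0 : (0 : ℝ) < x := lt_trans one_pos hx
    have hnx : (0 : ℝ) < n * x := by positivity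
    set a : ℝ := (Real.log (n * x)) ^ (k + 1) / ((k + 1).factorial : ℝ) with ha
    set b : ℝ := (Real.log (n * x)) ^ k / (k.factorial : ℝ) with hb
    have e1 : (x * KK S k n x) ^ 2 = (S * a + b) ^ 2 / ((n : ℝ) * x) ^ 4 := by
      unfold KK
      rw [ha, hb]
      field_simp
    rw [e1, hF1, hF0]
    simp only
    rw [← ha, ← hb]
    have h1 : (S * a + b) ^ 2 ≤ 2 * S ^ 2 * a ^ 2 + 2 * b ^ 2 := by
      nlinarith [sq_nonneg (S * a - b)]
    calc (S * a + b) ^ 2 / ((n : ℝ) * x) ^ 4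
        ≤ (2 * S ^ 2 * a ^ 2 + 2 * b ^ 2) / ((n : ℝ) * x) ^ 4 :=
          div_le_div_of_nonneg_right h1 (by positivity)
      _ = 2 * S ^ 2 * (a ^ 2 / ((n : ℝ) * x) ^ 4) + 2 * (b ^ 2 / ((n : ℝ) * x) ^ 4) := by ring
  have hIG : IntegrableOn (fun x => 2 * S ^ 2 * F1 x + 2 * F0 x) (Set.Ioi 1) :=
    (hI1.const_mul _).add (hI0.const_mul _)
  have hmeas : Measurable (fun x : ℝ => (x * KK S k n x) ^ 2) := by
    unfold KK
    fun_prop
  have hI : IntegrableOn (fun x : ℝ => (x * KK S k n x) ^ 2) (Set.Ioi 1) := by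
    refine Integrable.mono' hIG hmeas.aestronglyMeasurable ?_
    refine (ae_restrict_iff' measurableSet_Ioi).mpr (ae_of_all _ fun x hx => ?_)
    rw [Real.norm_of_nonneg (sq_nonneg _)]
    exact hdom x hx
  refine ⟨hI, ?_⟩
  calc ∫ x in Set.Ioi (1 : ℝ), (x * KK S k n x) ^ 2
      ≤ ∫ x in Set.Ioi (1 : ℝ), (2 * S ^ 2 * F1 x + 2 * F0 x) :=
        setIntegral_mono_on hI hIG measurableSet_Ioi hdom
    _ = 2 * S ^ 2 * (∫ x in Set.Ioi (1 : ℝ), F1 x) + 2 * ∫ x in Set.Ioi (1 : ℝ), F0 x := by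
        rw [integral_add (hI1.const_mul _) (hI0.const_mul _), integral_const_mul,
          integral_const_mul]
    _ ≤ 2 * S ^ 2 * ((n : ℝ)⁻¹ * ((4 / 9 : ℝ) ^ (k + 1) / 3))
        + 2 * ((n : ℝ)⁻¹ * ((4 / 9 : ℝ) ^ k / 3)) :=
        add_le_add (mul_le_mul_of_nonneg_left hb1 (by positivity))
          (mul_le_mul_of_nonneg_left hb0 (by norm_num))
    _ = (2 / 3 * S ^ 2 + 3 / 2) * ((n : ℝ)⁻¹ * ((4 / 9 : ℝ) ^ (k + 1))) := by
        rw [pow_succ]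
        ring
    _ ≤ (1 + S) ^ 2 * ((n : ℝ)⁻¹ * ((4 / 9 : ℝ) ^ (k + 1))) := by
        refine mul_le_mul_of_nonneg_right ?_ (by positivity)
        nlinarith

end Pool.Agent.MZ
end

section

set_option autoImplicit false

namespace Pool.Agent.MU

open Complex Finset MY MZ MW

/-- Leibniz. -/
lemma U1_leibniz (f g : ℂ → ℂ) (s : ℂ) (hf : AnalyticAt ℂ f s) (hg : AnalyticAt ℂ g s) (k : ℕ) :
    TC (fun z => f z * g z) s k = ∑ i ∈ range (k + 1), TC f s i * TC g s (k - i) := by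
  have h1 : ContDiffAt ℂ k f s := hf.contDiffAt.of_le le_top
  have h2 : ContDiffAt ℂ k g s := hg.contDiffAt.of_le le_top
  unfold TC
  have h3 := iteratedDeriv_mul h1 h2
  have h4 : (fun z => f z * g z) = f * g := rfl
  rw [h4, h3, Finset.sum_div]
  refine sum_congr rfl fun i hi => ?_
  have hik : i ≤ k := by
    have := mem_range.mp hi
    omega
  have h5 : (k.factorial : ℂ) = (k.choose i : ℂ) * (i.factorial : ℂ) * ((k - i).factorial : ℂ) := by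
    exact_mod_cast (Nat.choose_mul_factorial_mul_factorial hik).symm
  have h6 : (i.factorial : ℂ) ≠ 0 := by exact_mod_cast i.factorial_ne_zero
  have h7 : ((k - i).factorial : ℂ) ≠ 0 := by exact_mod_cast (k - i).factorial_ne_zero
  have h8 : (k.choose i : ℂ) ≠ 0 := by exact_mod_cast (Nat.choose_pos hik).ne'
  rw [h5]
  field_simp

open MC.C2 in
/-- U1. As `MY.main_bound`, with the error as a convolution. -/
lemma main_conv (κ : ℕ) : ∃ C : ℝ, 0 ≤ C ∧ ∀ (S : ℝ), 3 ≤ S → ∀ (q : ℕ) [NeZero q]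
    (χ : DirichletCharacter ℂ q), χ ≠ 1 → ∀ s : ℂ, s.re = 2 → ‖s‖ ≤ S →
    ∀ D : Finset ℕ, (∀ d ∈ D, 1 ≤ d) → ∀ U : ℝ, 1 ≤ U → ∀ N : ℕ, 2 * U ≤ N → ∀ k : ℕ,
    ‖TC (fun z => (-logDeriv χ.LFunction z) *
        ((∑ d ∈ D, (ArithmeticFunction.moebius d : ℂ) * χ d * (d : ℂ) ^ (-z)) *
        ∑ m ∈ Icc 1 N, χ m * ((vv (m / U) : ℝ) : ℂ) * (m : ℂ) ^ (-z))) s k‖
      ≤ C * (S + 2) ^ (κ + 1) * D.card * (q * (4 / 7 : ℝ) ^ k
        + (q : ℝ) ^ (κ + 1) * U ^ (-(κ : ℝ)) * ∑ i ∈ range (k + 1), (4 / 7 : ℝ) ^ i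
          * ‖TC (fun z => -logDeriv χ.LFunction z) s (k - i)‖) := by
  obtain ⟨C₂, hC₂0, hC₂⟩ := smooth_approx' κ
  refine ⟨480 + C₂ * 2 ^ (κ + 1), by positivity,
    fun S hS q _ χ hχ s hs hsS D hD U hU N hN k => ?_⟩
  have hqR : (1 : ℝ) ≤ q := by exact_mod_cast Nat.pos_of_ne_zero (NeZero.ne q)
  set L : ℂ → ℂ := χ.LFunction with hL
  set M : ℂ → ℂ := fun z => ∑ d ∈ D, (ArithmeticFunction.moebius d : ℂ) * χ d * (d : ℂ) ^ (-z)
    with hM
  set W : ℂ → ℂ := fun z => ∑ m ∈ Icc 1 N, χ m * ((vv (m / U) : ℝ) : ℂ) * (m : ℂ) ^ (-z) with hW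
  have hLd : Differentiable ℂ L := DirichletCharacter.differentiable_LFunction hχ
  have hMd : Differentiable ℂ M :=
    A5_poly_diff D hD (fun d => (ArithmeticFunction.moebius d : ℂ) * χ d)
  have hWd : Differentiable ℂ W :=
    A5_poly_diff (Icc 1 N) (fun n hn => (mem_Icc.mp hn).1) (fun m => χ m * ((vv (m / U) : ℝ) : ℂ))
  have hL'd : Differentiable ℂ (deriv L) := hLd.deriv
  have hL0 : ∀ z : ℂ, 1 < z.re → L z ≠ 0 := fun z hz =>
    DirichletCharacter.LFunction_ne_zero_of_one_le_re χ (.inl hχ) hz.le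
  -- the two parts
  set F₁ : ℂ → ℂ := fun z => -deriv L z * M z with hF₁
  set f₂ : ℂ → ℂ := fun z => M z * (W z - L z) with hf₂
  set g₂ : ℂ → ℂ := fun z => -logDeriv L z with hg₂
  set F₂ : ℂ → ℂ := fun z => f₂ z * g₂ z with hF₂
  have hopen : IsOpen {z : ℂ | 1 < z.re} := isOpen_lt continuous_const Complex.continuous_re
  have hs1 : 1 < s.re := by rw [hs]; norm_num
  have hev : (fun z => (-logDeriv L z) * (M z * W z)) =ᶠ[nhds s] (F₁ + F₂) := by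
    filter_upwards [hopen.mem_nhds hs1] with z hz
    have h1 := hL0 z hz
    simp only [Pi.add_apply, hF₁, hF₂, hf₂, hg₂, logDeriv_apply]
    field_simp
    ring
  have hF₁d : Differentiable ℂ F₁ := (hL'd.neg).mul hMd
  have hf₂d : Differentiable ℂ f₂ := hMd.mul (hWd.sub hLd)
  have hg₂a : AnalyticAt ℂ g₂ s := by
    have h1 : AnalyticAt ℂ L s := hLd.analyticAt s
    exact (h1.deriv.div h1 (hL0 s hs1)).neg
  have hF₂a : AnalyticAt ℂ F₂ s := (hf₂d.analyticAt s).mul hg₂a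
  have hsplit : TC (fun z => (-logDeriv L z) * (M z * W z)) s k = TC F₁ s k + TC F₂ s k := by
    unfold TC
    rw [hev.iteratedDeriv_eq k, iteratedDeriv_add ((hF₁d.analyticAt s).contDiffAt.of_le le_top)
      (hF₂a.contDiffAt.of_le le_top), add_div]
  have h74 : ((7 / 4 : ℝ))⁻¹ = 4 / 7 := by norm_num
  have hb1 : ‖TC F₁ s k‖ ≤ (480 * (S + 2) * q * D.card) * (4 / 7 : ℝ) ^ k := by
    have h1 := TC_cauchy F₁ s (7 / 4) (480 * (S + 2) * q * D.card) (by norm_num)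
      (fun z _ => hF₁d z) (fun z hz => ?_) k
    · rwa [h74] at h1
    · have hre := A5_re s hs _ z hz
      have hn := A5_norm s S hsS _ z hz
      have h2 : ‖deriv L z‖ ≤ 480 * (S + 2) * q := by
        have h3 := Complex.norm_deriv_le_of_forall_mem_sphere_norm_le (f := L) (c := z)
          (R := 1 / 8) (C := 60 * (S + 2) * q) (by norm_num) hLd.diffContOnCl (fun w hw => ?_)
        · refine h3.trans (le_of_eq ?_)
          ring
        · rw [mem_sphere_iff_norm] at hw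
          have h4 := Complex.abs_re_le_norm (w - z)
          rw [Complex.sub_re, hw, abs_le] at h4
          have h5 : ‖w‖ ≤ S + 2 := by
            calc ‖w‖ = ‖(w - z) + z‖ := by ring_nf
              _ ≤ ‖w - z‖ + ‖z‖ := norm_add_le _ _
              _ ≤ S + 2 := by rw [hw]; linarith
          have h6 := EM.L_growth q χ hχ w (by linarith)
          calc ‖L w‖ ≤ 20 * (2 * q + 1) * ‖w‖ := h6
            _ ≤ 20 * (2 * q + q) * (S + 2) := by gcongr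
            _ = 60 * (S + 2) * q := by ring
      have h3 := A5_M_norm q χ D hD z (by linarith)
      simp only [hF₁, norm_mul, norm_neg]
      exact mul_le_mul h2 h3 (norm_nonneg _) (by positivity)
  have hb2 : ∀ i, ‖TC f₂ s i‖ ≤ (D.card * (C₂ * ((q : ℝ) * (2 * (S + 2))) ^ (κ + 1) *
      U ^ (-(κ : ℝ)))) * (4 / 7 : ℝ) ^ i := by
    intro i
    have h1 := TC_cauchy f₂ s (7 / 4) (D.card * (C₂ * ((q : ℝ) * (2 * (S + 2))) ^ (κ + 1) *
      U ^ (-(κ : ℝ)))) (by norm_num) (fun z _ => hf₂d z) (fun z hz => ?_) i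
    · rwa [h74] at h1
    · have hre := A5_re s hs _ z hz
      have hn := A5_norm s S hsS _ z hz
      simp only [hf₂, norm_mul]
      refine mul_le_mul (A5_M_norm q χ D hD z (by linarith)) ?_ (norm_nonneg _) (by positivity)
      rw [norm_sub_rev]
      refine (hC₂ q χ hχ z (by linarith) U hU N hN).trans ?_
      have h5 : ‖z‖ + 1 ≤ 2 * (S + 2) := by linarith
      gcongr
  have hb3 : ‖TC F₂ s k‖ ≤ (D.card * (C₂ * ((q : ℝ) * (2 * (S + 2))) ^ (κ + 1) *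
      U ^ (-(κ : ℝ)))) * ∑ i ∈ range (k + 1), (4 / 7 : ℝ) ^ i * ‖TC g₂ s (k - i)‖ := by
    rw [U1_leibniz f₂ g₂ s (hf₂d.analyticAt s) hg₂a k, Finset.mul_sum]
    refine (norm_sum_le _ _).trans (sum_le_sum fun i _ => ?_)
    rw [norm_mul, ← mul_assoc]
    exact mul_le_mul_of_nonneg_right (hb2 i) (norm_nonneg _)
  rw [hsplit]
  refine (norm_add_le _ _).trans ((add_le_add hb1 hb3).trans ?_)
  set Sg : ℝ := ∑ i ∈ range (k + 1), (4 / 7 : ℝ) ^ i * ‖TC g₂ s (k - i)‖ with hSg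
  have hSg0 : 0 ≤ Sg := sum_nonneg fun i _ => by positivity
  have e1 : (D.card * (C₂ * ((q : ℝ) * (2 * (S + 2))) ^ (κ + 1) * U ^ (-(κ : ℝ)))) * Sg
      = C₂ * 2 ^ (κ + 1) * ((S + 2) ^ (κ + 1) * (D.card *
        ((q : ℝ) ^ (κ + 1) * U ^ (-(κ : ℝ)) * Sg))) := by
    rw [mul_pow, mul_pow]; ring
  rw [e1]
  have p1 : 0 ≤ (q : ℝ) * (4 / 7 : ℝ) ^ k := by positivity
  have p2 : 0 ≤ (q : ℝ) ^ (κ + 1) * U ^ (-(κ : ℝ)) * Sg := by positivity
  have p5 : (0 : ℝ) ≤ D.card := by positivity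
  have p6 : S + 2 ≤ (S + 2) ^ (κ + 1) := le_self_pow₀ (by linarith) (by omega)
  have p7 : 0 ≤ (D.card : ℝ) * ((q : ℝ) * (4 / 7 : ℝ) ^ k) := mul_nonneg p5 p1
  have p8 : 0 ≤ (D.card : ℝ) * ((q : ℝ) ^ (κ + 1) * U ^ (-(κ : ℝ)) * Sg) :=
    mul_nonneg p5 p2
  have p9 : 0 ≤ (S + 2) ^ (κ + 1) := by positivity
  calc 480 * (S + 2) * q * D.card * (4 / 7 : ℝ) ^ k
        + C₂ * 2 ^ (κ + 1) * ((S + 2) ^ (κ + 1) * (D.card *
          ((q : ℝ) ^ (κ + 1) * U ^ (-(κ : ℝ)) * Sg)))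
      = 480 * ((S + 2) * (D.card * ((q : ℝ) * (4 / 7 : ℝ) ^ k)))
        + C₂ * 2 ^ (κ + 1) * ((S + 2) ^ (κ + 1) * (D.card *
          ((q : ℝ) ^ (κ + 1) * U ^ (-(κ : ℝ)) * Sg))) := by ring
    _ ≤ 480 * ((S + 2) ^ (κ + 1) * (D.card * ((q : ℝ) * (4 / 7 : ℝ) ^ k)))
        + C₂ * 2 ^ (κ + 1) * ((S + 2) ^ (κ + 1) * (D.card *
          ((q : ℝ) ^ (κ + 1) * U ^ (-(κ : ℝ)) * Sg))) := by
        refine add_le_add (mul_le_mul_of_nonneg_left (mul_le_mul_of_nonneg_right p6 p7)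
          (by norm_num)) le_rfl
    _ ≤ (480 + C₂ * 2 ^ (κ + 1)) * ((S + 2) ^ (κ + 1) * (D.card * ((q : ℝ) * (4 / 7 : ℝ) ^ k)))
        + (480 + C₂ * 2 ^ (κ + 1)) * ((S + 2) ^ (κ + 1) * (D.card *
          ((q : ℝ) ^ (κ + 1) * U ^ (-(κ : ℝ)) * Sg))) := by
        have p10 : 0 ≤ C₂ * 2 ^ (κ + 1) := by positivity
        exact add_le_add (mul_le_mul_of_nonneg_right (by linarith) (mul_nonneg p9 p7))
          (mul_le_mul_of_nonneg_right (by linarith) (mul_nonneg p9 p8))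
    _ = (480 + C₂ * 2 ^ (κ + 1)) * (S + 2) ^ (κ + 1) * D.card *
        (q * (4 / 7 : ℝ) ^ k + (q : ℝ) ^ (κ + 1) * U ^ (-(κ : ℝ)) * Sg) := by ring

end Pool.Agent.MU
end

section

set_option autoImplicit false

namespace Pool.Agent.MZ

open Complex Finset MY

/-- R0. The identity at a row. -/
lemma row (κ : ℕ) : ∃ C : ℝ, 0 ≤ C ∧ ∀ (S : ℝ), 3 ≤ S → ∀ (q : ℕ) [NeZero q]
    (s : ℂ), s.re = 2 → ‖s‖ ≤ S → ∀ D : Finset ℕ, (∀ d ∈ D, 1 ≤ d ∧ d ≤ q) →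
    ∀ U : ℝ, 1 ≤ U → ∀ N : ℕ, 2 * U ≤ N → ∀ (a : (ZMod q)ˣ) (k : ℕ),
    ‖∑ n ∈ (Icc 1 (q * N)).filter (fun n => Nat.Coprime n q),
        ((cn D U n : ℝ) : ℂ) * Dn q s k (a * (un q n)⁻¹) n‖
      ≤ C * (S + 2) ^ (κ + 1) * D.card * Err q κ U k := by
  classical
  obtain ⟨C', hC0', hC'⟩ := main_bound κ
  refine ⟨C', hC0', fun S hS q _ s hs hsS D hD U hU N hN a k => ?_⟩
  obtain ⟨C, hCdef⟩ : ∃ C : ℝ, C = C' * (S + 2) ^ (κ + 1) := ⟨_, rfl⟩
  have hC0 : 0 ≤ C := by rw [hCdef]; exact mul_nonneg hC0' (pow_nonneg (by linarith) _)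
  have hC := hC' S hS
  rw [← hCdef] at hC ⊢
  have hs1 : 1 < s.re := by rw [hs]; norm_num
  have htot : (0 : ℝ) < q.totient := by
    exact_mod_cast Nat.totient_pos.mpr (Nat.pos_of_ne_zero (NeZero.ne q))
  have hq1 : 1 ≤ q := Nat.pos_of_ne_zero (NeZero.ne q)
  have hid := ident q s hs1 k (q * N) (fun n => ((cn D U n : ℝ) : ℂ)) a
  -- the left-hand side
  have hErr : 0 ≤ C * D.card * Err q κ U k := by
    have : 0 ≤ Err q κ U k := by unfold Err; positivity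
    positivity
  have hleft : ‖(1 / (q.totient : ℂ)) * ∑ χ ∈ nt q, χ ((a⁻¹ : (ZMod q)ˣ) : ZMod q) *
        TC (fun z => (-logDeriv χ.LFunction z) * ∑ n ∈ Icc 1 (q * N),
          ((cn D U n : ℝ) : ℂ) * χ n * (n : ℂ) ^ (-z)) s k‖ ≤ C * D.card * Err q κ U k := by
    rw [norm_mul, norm_div, norm_one, Complex.norm_natCast, one_div, inv_mul_le_iff₀ htot]
    refine (norm_sum_le _ _).trans ?_
    have hcard : ((nt q).card : ℝ) ≤ q.totient := by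
      have h1 : (nt q).card ≤ Fintype.card (DirichletCharacter ℂ q) := Finset.card_le_univ _
      rw [← Nat.card_eq_fintype_card,
        DirichletCharacter.card_eq_totient_of_hasEnoughRootsOfUnity] at h1
      exact_mod_cast h1
    calc ∑ χ ∈ nt q, ‖χ ((a⁻¹ : (ZMod q)ˣ) : ZMod q) *
        TC (fun z => (-logDeriv χ.LFunction z) * ∑ n ∈ Icc 1 (q * N),
          ((cn D U n : ℝ) : ℂ) * χ n * (n : ℂ) ^ (-z)) s k‖
        ≤ ∑ _χ ∈ nt q, C * D.card * Err q κ U k := by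
          refine sum_le_sum fun χ hχ => ?_
          rw [mem_nt] at hχ
          rw [norm_mul]
          have h5 : ‖χ ((a⁻¹ : (ZMod q)ˣ) : ZMod q)‖ ≤ 1 := χ.norm_le_one _
          have h6 := hC q χ hχ s hs hsS D (fun d hd => (hD d hd).1) U hU N hN k
          have h7 : (fun z => (-logDeriv χ.LFunction z) *
              ((∑ d ∈ D, (ArithmeticFunction.moebius d : ℂ) * χ d * (d : ℂ) ^ (-z)) *
              ∑ m ∈ Icc 1 N, χ m * ((MC.C2.vv (m / U) : ℝ) : ℂ) * (m : ℂ) ^ (-z)))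
              = fun z => (-logDeriv χ.LFunction z) * ∑ n ∈ Icc 1 (q * N),
                ((cn D U n : ℝ) : ℂ) * χ n * (n : ℂ) ^ (-z) := by
            funext z
            rw [prod_eq q χ D hD U hU N hN z]
          rw [h7] at h6
          calc _ ≤ 1 * (C * D.card * Err q κ U k) :=
                mul_le_mul h5 h6 (norm_nonneg _) zero_le_one
            _ = _ := one_mul _
      _ = (nt q).card * (C * D.card * Err q κ U k) := by rw [sum_const, nsmul_eq_mul]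
      _ ≤ q.totient * (C * D.card * Err q κ U k) := by gcongr
  rw [hid] at hleft
  exact hleft

end Pool.Agent.MZ
end
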