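import Mathlib
import Pool.Agent.Lib.MP_9cfc0a_nt.Mg.G023
import Pool.Agent.Lib.MP_9cfc0a_nt.Mg.G035
import Pool.Agent.Lib.MP_9cfc0a_nt.Mg.G024
import Pool.Agent.Lib.MP_9cfc0a_nt.Mg.G038
import Pool.Agent.Lib.MP_9cfc0a_nt.MY.A2
import Pool.Agent.Lib.MP_9cfc0a_nt.Mg.G028
import Pool.Agent.Lib.MP_9cfc0a_nt.Mg.G025

section

set_option autoImplicit false

namespace Pool.Agent.MZ

open Complex Finset MY

/-- K4. The majorant: sums over `d ≤ Z` restricted to the classes of `B`. -/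
lemma maj (e : ℝ) (he : 0 < e) (he1 : e ≤ 1 / 10) : ∃ (C Z₁ : ℝ), 1 ≤ C ∧ 1 ≤ Z₁ ∧
    ∀ (q : ℕ) [NeZero q] (Z δ M₀ : ℝ), Z₁ ≤ Z → 0 ≤ δ → 0 ≤ M₀ →
    (∀ χ : DirichletCharacter ℂ q, χ ≠ 1 →
      ∀ z ∈ Metric.closedBall ((1 / 2 + 2 * δ + 1 / e : ℝ) : ℂ) (1 / e), ‖χ.LFunction z‖ ≤ M₀) →
    ∀ (B : Finset (ZMod q)ˣ) (h : (ZMod q)ˣ → ℝ), (∀ c, 0 ≤ h c) →
    ∑ a ∈ B, (∑ d ∈ (Icc 1 ⌊Z⌋₊).filter (fun d => Nat.Coprime d q),
        (d : ℝ) ^ (-(1 / 2) : ℝ) * h (a * (un q d)⁻¹)) ^ 2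
      ≤ Z ^ (4 * δ) * (2 * (B.card * (C * Z ^ (1 / 2 + 3 * e)) ^ 2 / q.totient
          + (2 * (JJ e Z + 1) * M₀ + 1) ^ 2)) * ∑ c, (h c) ^ 2 := by
  classical
  obtain ⟨C, hC1, hC⟩ := kap_sum e he he1
  obtain ⟨Z₁, hZ₁, hK⟩ := kap_ge e he he1
  refine ⟨C, Z₁, hC1, hZ₁, ?_⟩
  intro q _ Z δ M₀ hZ hδ hM₀ hL B h hh
  have hZ1 : 1 ≤ Z := hZ₁.trans hZ
  have hZ0 : 0 < Z := by linarith
  set σ : ℝ := 1 / 2 + 2 * δ with hσ
  have hσ1 : 1 / 2 ≤ σ := by rw [hσ]; linarith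
  obtain ⟨M₁, hM₁⟩ := kap_char e he he1 q Z σ M₀ hZ1 hσ1 hL
  set M : ℕ := max M₁ ⌊Z⌋₊ with hM
  have hMM : M₁ ≤ M := le_max_left _ _
  have hMZ : ⌊Z⌋₊ ≤ M := le_max_right _ _
  set Λ : ℝ := 2 * (JJ e Z + 1) * M₀ + 1 with hΛ
  have hΛ0 : 0 ≤ Λ := by rw [hΛ]; positivity
  set w : ℕ → ℝ := fun d => (d : ℝ) ^ (-σ) * kap e Z d with hw
  have hw0 : ∀ d ∈ Icc 1 M, 0 ≤ w d := by
    intro d hd
    exact mul_nonneg (by positivity) (kap_nonneg e he Z d (mem_Icc.mp hd).1)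
  -- the number of classes
  have hφ : (Fintype.card (ZMod q)ˣ : ℝ) = (q.totient : ℝ) := by
    rw [ZMod.card_units_eq_totient]
  have hφ0 : (0 : ℝ) < q.totient := by
    exact_mod_cast Nat.totient_pos.mpr (Nat.pos_of_ne_zero (NeZero.ne q))
  set m : ℝ := (∑ c, h c) / (q.totient : ℝ) with hm
  have hm0 : 0 ≤ m := div_nonneg (sum_nonneg fun c _ => hh c) hφ0.le
  set H : ℝ := ∑ c, (h c) ^ 2 with hH
  have hH0 : 0 ≤ H := sum_nonneg fun c _ => sq_nonneg _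
  have hCS : (∑ c, h c) ^ 2 ≤ (q.totient : ℝ) * H := by
    have := sq_sum_le_card_mul_sum_sq (s := (univ : Finset (ZMod q)ˣ)) (f := h)
    rw [card_univ, hφ] at this
    exact this
  have hm2 : m ^ 2 ≤ H / q.totient := by
    rw [hm, div_pow, div_le_div_iff₀ (by positivity) hφ0]
    nlinarith
  set h0 : (ZMod q)ˣ → ℝ := fun c => h c - m with hh0
  have hsum0 : ∑ c, h0 c = 0 := by
    rw [hh0, sum_sub_distrib, sum_const, card_univ, nsmul_eq_mul, hφ, hm]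
    field_simp
    ring
  have hsq0 : ∑ c, (h0 c) ^ 2 ≤ H := by
    have e1 : ∑ c, (h0 c) ^ 2 = H - 2 * m * (∑ c, h c) + (q.totient : ℝ) * m ^ 2 := by
      rw [hh0]
      have : ∀ c : (ZMod q)ˣ, (h c - m) ^ 2 = (h c) ^ 2 - 2 * m * h c + m ^ 2 := by
        intro c; ring
      rw [sum_congr rfl fun c _ => this c, sum_add_distrib, sum_sub_distrib, ← mul_sum, sum_const,
        card_univ, nsmul_eq_mul, hφ]
    have e2 : (∑ c, h c) = (q.totient : ℝ) * m := by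
      rw [hm]; field_simp
    rw [e1, e2]
    nlinarith [sq_nonneg m]
  -- the sums with the Poisson weights
  set S : (ZMod q)ˣ → ℝ := fun a => ∑ d ∈ (Icc 1 M).filter (fun d => Nat.Coprime d q),
    w d * h (a * (un q d)⁻¹) with hS
  set S0 : (ZMod q)ˣ → ℝ := fun a => ∑ d ∈ (Icc 1 M).filter (fun d => Nat.Coprime d q),
    w d * h0 (a * (un q d)⁻¹) with hS0
  set W : ℝ := ∑ d ∈ (Icc 1 M).filter (fun d => Nat.Coprime d q), w d with hW
  have hW0 : 0 ≤ W := sum_nonneg fun d hd => hw0 d (mem_filter.mp hd).1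
  have hWC : W ≤ C * Z ^ (1 / 2 + 3 * e) := by
    refine le_trans ?_ (hC Z hZ1 σ hσ1 M)
    exact sum_le_sum_of_subset_of_nonneg (filter_subset _ _) fun d hd _ => hw0 d hd
  have hSeq : ∀ a, S a = m * W + S0 a := by
    intro a
    rw [hS, hS0, hW, hh0]
    simp only
    rw [mul_sum, ← sum_add_distrib]
    apply sum_congr rfl
    intro d _
    ring
  have hterm : ∀ a, ∑ d ∈ (Icc 1 ⌊Z⌋₊).filter (fun d => Nat.Coprime d q),
      (d : ℝ) ^ (-(1 / 2) : ℝ) * h (a * (un q d)⁻¹) ≤ Z ^ (2 * δ) * S a := by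
    intro a
    rw [hS, mul_sum]
    refine le_trans ?_ (sum_le_sum_of_subset_of_nonneg (s := (Icc 1 ⌊Z⌋₊).filter
      (fun d => Nat.Coprime d q)) (filter_subset_filter _ (Icc_subset_Icc le_rfl hMZ)) ?_)
    · apply sum_le_sum
      intro d hd
      obtain ⟨hd1, -⟩ := mem_filter.mp hd
      obtain ⟨hd1, hd2⟩ := mem_Icc.mp hd1
      have hd1' : (1 : ℝ) ≤ d := by exact_mod_cast hd1
      have hd0 : (0 : ℝ) < d := by linarith
      have hdZ : (d : ℝ) ≤ Z := (Nat.le_floor_iff hZ0.le).mp hd2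
      have hk := hK Z hZ d hd1 hdZ
      have e1 : (d : ℝ) ^ (-(1 / 2) : ℝ) = (d : ℝ) ^ (2 * δ) * (d : ℝ) ^ (-σ) := by
        rw [← Real.rpow_add hd0, hσ]
        congr 1
        ring
      have e2 : (d : ℝ) ^ (2 * δ) ≤ Z ^ (2 * δ) :=
        Real.rpow_le_rpow hd0.le hdZ (by linarith)
      rw [e1, hw]
      simp only
      have hp : 0 ≤ (d : ℝ) ^ (-σ) := by positivity
      have hq2 : 0 ≤ (d : ℝ) ^ (2 * δ) := by positivity
      have hhc := hh (a * (un q d)⁻¹)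
      calc (d : ℝ) ^ (2 * δ) * (d : ℝ) ^ (-σ) * h (a * (un q d)⁻¹)
          ≤ Z ^ (2 * δ) * ((d : ℝ) ^ (-σ) * 1) * h (a * (un q d)⁻¹) := by
            rw [mul_one]; gcongr
        _ ≤ Z ^ (2 * δ) * ((d : ℝ) ^ (-σ) * kap e Z d) * h (a * (un q d)⁻¹) := by
            gcongr
        _ = Z ^ (2 * δ) * ((d : ℝ) ^ (-σ) * kap e Z d * h (a * (un q d)⁻¹)) := by ring
    · intro d hd _
      exact mul_nonneg (by positivity) (mul_nonneg (hw0 d (mem_filter.mp hd).1) (hh _))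
  have hS0bd : ∑ a, (S0 a) ^ 2 ≤ Λ ^ 2 * H := by
    have hk := mul_bound q (Icc 1 M) (fun d => ((w d : ℝ) : ℂ)) (fun c => ((h0 c : ℝ) : ℂ))
      (by rw [← Complex.ofReal_sum, hsum0, Complex.ofReal_zero]) Λ hΛ0
      (fun χ hχ => by
        have := hM₁ M hMM χ hχ
        rw [hΛ]
        exact this)
    have e1 : ∀ c, ‖∑ m ∈ (Icc 1 M).filter (fun m => Nat.Coprime m q),
        ((w m : ℝ) : ℂ) * ((h0 (c * (un q m)⁻¹) : ℝ) : ℂ)‖ ^ 2 = (S0 c) ^ 2 := by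
      intro c
      have : ∑ m ∈ (Icc 1 M).filter (fun m => Nat.Coprime m q),
        ((w m : ℝ) : ℂ) * ((h0 (c * (un q m)⁻¹) : ℝ) : ℂ) = ((S0 c : ℝ) : ℂ) := by
        rw [hS0]
        push_cast
        rfl
      rw [this, Complex.norm_real, Real.norm_eq_abs, sq_abs]
    have e2 : ∀ c, ‖((h0 c : ℝ) : ℂ)‖ ^ 2 = (h0 c) ^ 2 := by
      intro c
      rw [Complex.norm_real, Real.norm_eq_abs, sq_abs]
    rw [sum_congr rfl fun c _ => e1 c, sum_congr rfl fun c _ => e2 c] at hk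
    refine hk.trans ?_
    gcongr
  have hZ2 : (0 : ℝ) ≤ Z ^ (2 * δ) := by positivity
  have hZ4 : (Z ^ (2 * δ)) ^ 2 = Z ^ (4 * δ) := by
    rw [← Real.rpow_natCast, ← Real.rpow_mul hZ0.le]
    congr 1
    push_cast
    ring
  calc ∑ a ∈ B, (∑ d ∈ (Icc 1 ⌊Z⌋₊).filter (fun d => Nat.Coprime d q),
        (d : ℝ) ^ (-(1 / 2) : ℝ) * h (a * (un q d)⁻¹)) ^ 2
      ≤ ∑ a ∈ B, (Z ^ (2 * δ) * S a) ^ 2 := by
        apply sum_le_sum
        intro a _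
        have hn : 0 ≤ ∑ d ∈ (Icc 1 ⌊Z⌋₊).filter (fun d => Nat.Coprime d q),
            (d : ℝ) ^ (-(1 / 2) : ℝ) * h (a * (un q d)⁻¹) :=
          sum_nonneg fun d _ => mul_nonneg (by positivity) (hh _)
        exact pow_le_pow_left₀ hn (hterm a) 2
    _ ≤ ∑ a ∈ B, Z ^ (4 * δ) * (2 * (m ^ 2 * (C * Z ^ (1 / 2 + 3 * e)) ^ 2) + 2 * (S0 a) ^ 2) := by
        apply sum_le_sum
        intro a _
        rw [mul_pow, hZ4, hSeq a]
        apply mul_le_mul_of_nonneg_left _ (by positivity)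
        have h1 : (m * W + S0 a) ^ 2 ≤ 2 * (m * W) ^ 2 + 2 * (S0 a) ^ 2 := by
          nlinarith [sq_nonneg (m * W - S0 a)]
        have h2 : (m * W) ^ 2 ≤ m ^ 2 * (C * Z ^ (1 / 2 + 3 * e)) ^ 2 := by
          rw [mul_pow]
          gcongr
        linarith
    _ = Z ^ (4 * δ) * (2 * (B.card * (m ^ 2 * (C * Z ^ (1 / 2 + 3 * e)) ^ 2)) +
          2 * ∑ a ∈ B, (S0 a) ^ 2) := by
        rw [← mul_sum, sum_add_distrib, sum_const, nsmul_eq_mul, ← mul_sum]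
        ring
    _ ≤ Z ^ (4 * δ) * (2 * (B.card * (H / q.totient * (C * Z ^ (1 / 2 + 3 * e)) ^ 2)) +
          2 * (Λ ^ 2 * H)) := by
        have h3 : ∑ a ∈ B, (S0 a) ^ 2 ≤ Λ ^ 2 * H :=
          (sum_le_sum_of_subset_of_nonneg (subset_univ B) fun _ _ _ => sq_nonneg _).trans hS0bd
        gcongr
    _ = Z ^ (4 * δ) * (2 * (B.card * (C * Z ^ (1 / 2 + 3 * e)) ^ 2 / q.totient
          + Λ ^ 2)) * H := by
        ring

end Pool.Agent.MZ
end

section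

set_option autoImplicit false

namespace Pool.Agent.MU

open Complex Finset MY MZ MW

lemma row_conv_mean (q : ℕ) [NeZero q] (s : ℂ) (k : ℕ) :
    ∑ χ ∈ nt q, ‖TC (fun z => -logDeriv χ.LFunction z) s k‖
      ≤ q.totient * Real.sqrt (∑ c : (ZMod q)ˣ, ‖Dk q s k c‖ ^ 2) := by
  have htot : (0 : ℝ) < q.totient := by
    exact_mod_cast Nat.totient_pos.mpr (Nat.pos_of_ne_zero (NeZero.ne q))
  have hcard : ((nt q).card : ℝ) ≤ q.totient := by
    have h1 : (nt q).card ≤ Fintype.card (DirichletCharacter ℂ q) := Finset.card_le_univ _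
    rw [← Nat.card_eq_fintype_card,
      DirichletCharacter.card_eq_totient_of_hasEnoughRootsOfUnity] at h1
    exact_mod_cast h1
  have hp := parseval q s k
  have h2 : (∑ χ ∈ nt q, ‖TC (fun z => -logDeriv χ.LFunction z) s k‖) ^ 2
      ≤ (nt q).card * ∑ χ ∈ nt q, ‖TC (fun z => -logDeriv χ.LFunction z) s k‖ ^ 2 :=
    sq_sum_le_card_mul_sum_sq
  have h3 : ∑ χ ∈ nt q, ‖TC (fun z => -logDeriv χ.LFunction z) s k‖ ^ 2
      = q.totient * ∑ c : (ZMod q)ˣ, ‖Dk q s k c‖ ^ 2 := by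
    rw [hp]
    field_simp
  have h4 : 0 ≤ ∑ c : (ZMod q)ˣ, ‖Dk q s k c‖ ^ 2 := by positivity
  have h5 : (∑ χ ∈ nt q, ‖TC (fun z => -logDeriv χ.LFunction z) s k‖) ^ 2
      ≤ (q.totient * Real.sqrt (∑ c : (ZMod q)ˣ, ‖Dk q s k c‖ ^ 2)) ^ 2 := by
    rw [mul_pow, Real.sq_sqrt h4]
    refine h2.trans ?_
    rw [h3]
    have h6 : (0 : ℝ) ≤ q.totient * ∑ c : (ZMod q)ˣ, ‖Dk q s k c‖ ^ 2 := by positivity
    calc ((nt q).card : ℝ) * (q.totient * ∑ c : (ZMod q)ˣ, ‖Dk q s k c‖ ^ 2)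
        ≤ q.totient * (q.totient * ∑ c : (ZMod q)ˣ, ‖Dk q s k c‖ ^ 2) :=
          mul_le_mul_of_nonneg_right hcard h6
      _ = _ := by ring
  exact le_of_sq_le_sq h5 (by positivity)

/-- U2. The identity at a row (as `MZ.R0`), with the error as a convolution. -/
lemma row_conv (κ : ℕ) : ∃ C : ℝ, 0 ≤ C ∧ ∀ (S : ℝ), 3 ≤ S → ∀ (q : ℕ) [NeZero q]
    (s : ℂ), s.re = 2 → ‖s‖ ≤ S → ∀ D : Finset ℕ, (∀ d ∈ D, 1 ≤ d ∧ d ≤ q) →
    ∀ U : ℝ, 1 ≤ U → ∀ N : ℕ, 2 * U ≤ N → ∀ (a : (ZMod q)ˣ) (k : ℕ),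
    ‖∑ n ∈ (Icc 1 (q * N)).filter (fun n => Nat.Coprime n q),
        ((cn D U n : ℝ) : ℂ) * Dn q s k (a * (un q n)⁻¹) n‖
      ≤ C * (S + 2) ^ (κ + 1) * D.card * Ec q κ U s k := by
  classical
  obtain ⟨C', hC0', hC'⟩ := main_conv κ
  refine ⟨C', hC0', fun S hS q _ s hs hsS D hD U hU N hN a k => ?_⟩
  obtain ⟨C, hCdef⟩ : ∃ C : ℝ, C = C' * (S + 2) ^ (κ + 1) := ⟨_, rfl⟩
  have hC0 : 0 ≤ C := by rw [hCdef]; exact mul_nonneg hC0' (pow_nonneg (by linarith) _)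
  have hC := hC' S hS
  rw [← hCdef] at hC ⊢
  have hs1 : 1 < s.re := by rw [hs]; norm_num
  have htot : (0 : ℝ) < q.totient := by
    exact_mod_cast Nat.totient_pos.mpr (Nat.pos_of_ne_zero (NeZero.ne q))
  have hcard : ((nt q).card : ℝ) ≤ q.totient := by
    have h1 : (nt q).card ≤ Fintype.card (DirichletCharacter ℂ q) := Finset.card_le_univ _
    rw [← Nat.card_eq_fintype_card,
      DirichletCharacter.card_eq_totient_of_hasEnoughRootsOfUnity] at h1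
    exact_mod_cast h1
  have hid := ident q s hs1 k (q * N) (fun n => ((cn D U n : ℝ) : ℂ)) a
  obtain ⟨W, hW⟩ : ∃ W : ℝ, W = (q : ℝ) ^ (κ + 1) * U ^ (-(κ : ℝ)) := ⟨_, rfl⟩
  have hU0 : 0 < U := by linarith
  have hW0 : 0 ≤ W := by rw [hW]; positivity
  obtain ⟨V, hV⟩ : ∃ V : ℝ, V = q * (4 / 7 : ℝ) ^ k := ⟨_, rfl⟩
  have hV0 : 0 ≤ V := by rw [hV]; positivity
  have hleft : ‖(1 / (q.totient : ℂ)) * ∑ χ ∈ nt q, χ ((a⁻¹ : (ZMod q)ˣ) : ZMod q) *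
        TC (fun z => (-logDeriv χ.LFunction z) * ∑ n ∈ Icc 1 (q * N),
          ((cn D U n : ℝ) : ℂ) * χ n * (n : ℂ) ^ (-z)) s k‖ ≤ C * D.card * Ec q κ U s k := by
    rw [norm_mul, norm_div, norm_one, Complex.norm_natCast, one_div, inv_mul_le_iff₀ htot]
    refine (norm_sum_le _ _).trans ?_
    calc ∑ χ ∈ nt q, ‖χ ((a⁻¹ : (ZMod q)ˣ) : ZMod q) *
        TC (fun z => (-logDeriv χ.LFunction z) * ∑ n ∈ Icc 1 (q * N),
          ((cn D U n : ℝ) : ℂ) * χ n * (n : ℂ) ^ (-z)) s k‖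
        ≤ ∑ χ ∈ nt q, C * D.card * (V + W * ∑ i ∈ range (k + 1), (4 / 7 : ℝ) ^ i
          * ‖TC (fun z => -logDeriv χ.LFunction z) s (k - i)‖) := by
          refine sum_le_sum fun χ hχ => ?_
          rw [mem_nt] at hχ
          rw [norm_mul]
          have h5 : ‖χ ((a⁻¹ : (ZMod q)ˣ) : ZMod q)‖ ≤ 1 := χ.norm_le_one _
          have h6 := hC q χ hχ s hs hsS D (fun d hd => (hD d hd).1) U hU N hN k
          have h7 : (fun z => (-logDeriv χ.LFunction z) *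
              ((∑ d ∈ D, (ArithmeticFunction.moebius d : ℂ) * χ d * (d : ℂ) ^ (-z)) *
              ∑ m ∈ Icc 1 N, χ m * ((MC.C2.vv (m / U) : ℝ) : ℂ) * (m : ℂ) ^ (-z)))
              = fun z => (-logDeriv χ.LFunction z) * ∑ n ∈ Icc 1 (q * N),
                ((cn D U n : ℝ) : ℂ) * χ n * (n : ℂ) ^ (-z) := by
            funext z
            rw [prod_eq q χ D hD U hU N hN z]
          rw [h7, ← hV, ← hW] at h6
          calc _ ≤ 1 * (C * D.card * (V + W * ∑ i ∈ range (k + 1), (4 / 7 : ℝ) ^ i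
                * ‖TC (fun z => -logDeriv χ.LFunction z) s (k - i)‖)) :=
                mul_le_mul h5 h6 (norm_nonneg _) zero_le_one
            _ = _ := one_mul _
      _ = C * D.card * ((nt q).card * V + W * ∑ i ∈ range (k + 1), (4 / 7 : ℝ) ^ i
          * ∑ χ ∈ nt q, ‖TC (fun z => -logDeriv χ.LFunction z) s (k - i)‖) := by
          rw [← mul_sum, sum_add_distrib, sum_const, nsmul_eq_mul, ← mul_sum, sum_comm]
          congr 3
          refine sum_congr rfl fun i _ => ?_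
          rw [mul_sum]
      _ ≤ C * D.card * (q.totient * V + W * ∑ i ∈ range (k + 1), (4 / 7 : ℝ) ^ i
          * (q.totient * Real.sqrt (∑ c : (ZMod q)ˣ, ‖Dk q s (k - i) c‖ ^ 2))) := by
          refine mul_le_mul_of_nonneg_left ?_ (by positivity)
          refine add_le_add (mul_le_mul_of_nonneg_right hcard hV0)
            (mul_le_mul_of_nonneg_left ?_ hW0)
          refine sum_le_sum fun i _ => mul_le_mul_of_nonneg_left ?_ (by positivity)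
          exact row_conv_mean q s (k - i)
      _ = q.totient * (C * D.card * Ec q κ U s k) := by
          unfold Ec
          rw [← hW, ← hV]
          have h8 : ∑ i ∈ range (k + 1), (4 / 7 : ℝ) ^ i
              * (q.totient * Real.sqrt (∑ c : (ZMod q)ˣ, ‖Dk q s (k - i) c‖ ^ 2))
              = q.totient * ∑ i ∈ range (k + 1), (4 / 7 : ℝ) ^ i
                * Real.sqrt (∑ c : (ZMod q)ˣ, ‖Dk q s (k - i) c‖ ^ 2) := by
            rw [mul_sum]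
            refine sum_congr rfl fun i _ => ?_
            ring
          rw [h8]
          ring
  rw [hid] at hleft
  exact hleft

end Pool.Agent.MU
end
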