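import Mathlib
import Pool.Agent.Lib.MP_9cfc0a_nt.MY.Defs
import Pool.Agent.Lib.MP_9cfc0a_nt.MY.A2
import Pool.Agent.Lib.MP_9cfc0a_nt.MY.D1
import Pool.Agent.Lib.MP_9cfc0a_nt.Mg.G029
import Pool.Agent.Lib.MP_9cfc0a_nt.EMZeros
import Pool.Agent.Lib.MP_9cfc0a_nt.Mg.G023
import Pool.Agent.Lib.MP_9cfc0a_nt.Mg.G024
import Pool.Agent.Lib.MP_9cfc0a_nt.Mg.G027
import Pool.Agent.Lib.MP_9cfc0a_nt.Mg.G028
import Pool.Agent.Lib.MP_9cfc0a_nt.Mg.G025

section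

set_option autoImplicit false

namespace Pool.Agent.MY

open Complex Finset

open MeasureTheory

/-- The primitives of `g_j`. -/
private lemma G2_prim (s : ℂ) (hs : s.re = 2) (j : ℕ) : ∃ P : ℝ → ℂ,
    (∀ t : ℝ, 1 ≤ t → HasDerivAt P (gi s j t) t) ∧
    Filter.Tendsto P Filter.atTop (nhds 0) ∧
    - P 1 = (-1) ^ j * ((s - 1)⁻¹) ^ (j + 1) := by
  have hs1 : s ≠ 1 := by
    intro h
    rw [h, Complex.one_re] at hs
    norm_num at hs
  have h1s : (1 : ℂ) - s ≠ 0 := sub_ne_zero.mpr (Ne.symm hs1)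
  have hs1' : s - 1 ≠ 0 := sub_ne_zero.mpr hs1
  have hd : ∀ t : ℝ, 1 ≤ t → HasDerivAt (fun t : ℝ => (t : ℂ) ^ (1 - s))
      ((1 - s) * (t : ℂ) ^ (-s)) t := by
    intro t ht
    have ht0 : t ≠ 0 := by linarith
    have h1 := hasDerivAt_ofReal_cpow_const ht0 (r := 1 - s) h1s
    refine h1.congr_deriv ?_
    rw [show (1 : ℂ) - s - 1 = -s by ring]
  have hL : ∀ t : ℝ, 1 ≤ t → HasDerivAt (fun t : ℝ => ((-Real.log t : ℝ) : ℂ))
      ((-(t⁻¹) : ℝ) : ℂ) t := by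
    intro t ht
    have ht0 : t ≠ 0 := by linarith
    exact ((Real.hasDerivAt_log ht0).neg).ofReal_comp
  have hlim : ∀ j : ℕ, Filter.Tendsto (fun t : ℝ => (t : ℂ) ^ (1 - s) *
      (((-Real.log t : ℝ) : ℂ) ^ j / (j.factorial : ℂ))) Filter.atTop (nhds 0) := by
    intro j
    rw [tendsto_zero_iff_norm_tendsto_zero]
    have h1 := D2_tendsto 1 one_pos j 1 le_rfl
    refine h1.congr' ?_
    filter_upwards [Filter.eventually_ge_atTop (1 : ℝ)] with t ht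
    have ht0 : 0 < t := by linarith
    rw [norm_mul, Complex.norm_cpow_eq_rpow_re_of_pos ht0, Complex.sub_re, Complex.one_re, hs,
      norm_div, norm_pow, Complex.norm_real, Complex.norm_natCast, Real.norm_eq_abs, abs_neg,
      abs_of_nonneg (Real.log_nonneg ht)]
    norm_num
  induction j with
  | zero =>
    refine ⟨fun t => (1 - s)⁻¹ * (t : ℂ) ^ (1 - s), fun t ht => ?_, ?_, ?_⟩
    · have h1 := (hd t ht).const_mul (1 - s)⁻¹
      refine h1.congr_deriv ?_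
      rw [← mul_assoc, inv_mul_cancel₀ h1s, one_mul]
      unfold gi
      simp
    · have h1 := (hlim 0).const_mul (1 - s)⁻¹
      rw [mul_zero] at h1
      refine h1.congr fun t => ?_
      simp
    · have h2 : (1 : ℂ) - s = -(s - 1) := by ring
      simp only [Complex.ofReal_one, Complex.one_cpow, mul_one, pow_zero, one_mul, zero_add,
        pow_one]
      rw [h2, inv_neg, neg_neg]
  | succ j ih =>
    obtain ⟨P, hP1, hP2, hP3⟩ := ih
    refine ⟨fun t => (1 - s)⁻¹ * ((t : ℂ) ^ (1 - s) *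
      (((-Real.log t : ℝ) : ℂ) ^ (j + 1) / ((j + 1).factorial : ℂ)) + P t), fun t ht => ?_, ?_, ?_⟩
    · have ht0 : (t : ℂ) ≠ 0 := by exact_mod_cast (by linarith : t ≠ 0)
      have h1 := (((hd t ht).mul (((hL t ht).pow (j + 1)).div_const
        ((j + 1).factorial : ℂ))).add (hP1 t ht)).const_mul (1 - s)⁻¹
      refine h1.congr_deriv ?_
      have hf : ((j + 1).factorial : ℂ) = (j + 1) * (j.factorial : ℂ) := by
        rw [Nat.factorial_succ]; push_cast; ring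
      have hfR : ((j + 1).factorial : ℝ) = (j + 1) * (j.factorial : ℝ) := by
        rw [Nat.factorial_succ]; push_cast; ring
      have hf0 : (j.factorial : ℂ) ≠ 0 := by exact_mod_cast j.factorial_ne_zero
      have hj : (j : ℂ) + 1 ≠ 0 := by exact_mod_cast (by omega : j + 1 ≠ 0)
      have hts : (t : ℂ) ^ (1 - s) = t * (t : ℂ) ^ (-s) := by
        rw [sub_eq_add_neg, Complex.cpow_add _ _ ht0, Complex.cpow_one]
      simp only [Pi.pow_apply, Nat.add_sub_cancel]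
      unfold gi
      rw [hts, hf, hfR]
      push_cast
      field_simp
      ring
    · have h1 := ((hlim (j + 1)).add hP2).const_mul (1 - s)⁻¹
      rw [add_zero, mul_zero] at h1
      exact h1
    · simp only [Real.log_one, neg_zero, Complex.ofReal_zero, ne_eq, Nat.succ_ne_zero,
        not_false_eq_true, zero_pow, zero_div, mul_zero, zero_add]
      have h2 : (1 : ℂ) - s = -(s - 1) := by ring
      rw [← mul_neg, hP3, h2, inv_neg]
      ring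

private lemma G2_gi_int (s : ℂ) (hs : s.re = 2) (j : ℕ) :
    IntegrableOn (fun t : ℝ => gi s j t) (Set.Ioi 1) ∧
    ∫ t in Set.Ioi (1 : ℝ), gi s j t = (-1) ^ j * ((s - 1)⁻¹) ^ (j + 1) := by
  have h1 := D1_int (fun t => (t : ℂ)) 1 Complex.measurable_ofReal (fun t ht => by
    rw [Complex.norm_real, Real.norm_of_nonneg (by linarith), one_mul]) s hs j
  have hI : IntegrableOn (fun t : ℝ => gi s j t) (Set.Ioi 1) := by
    refine h1.congr_fun (fun t ht => ?_) measurableSet_Ioi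
    have ht1 : (1 : ℝ) < t := ht
    have ht0 : (t : ℂ) ≠ 0 := by exact_mod_cast (by linarith : t ≠ 0)
    simp only
    field_simp
  refine ⟨hI, ?_⟩
  obtain ⟨P, hP1, hP2, hP3⟩ := G2_prim s hs j
  rw [integral_Ioi_of_hasDerivAt_of_tendsto' (fun t ht => hP1 t ht) hI hP2, zero_sub, hP3]

/-- The main term. -/
private lemma G2_main (s : ℂ) (hs : s.re = 2) (m : ℕ) :
    IntegrableOn (fun t : ℝ => (t : ℂ) *
      ((s * gi s (m + 1) (((1 : ℕ) : ℝ) * t) + gi s m (((1 : ℕ) : ℝ) * t)) / t)) (Set.Ioi 1) ∧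
    ∫ t in Set.Ioi (1 : ℝ), (t : ℂ) *
      ((s * gi s (m + 1) (((1 : ℕ) : ℝ) * t) + gi s m (((1 : ℕ) : ℝ) * t)) / t)
      = (-1) ^ (m + 1) * ((s - 1)⁻¹) ^ (m + 1 + 1) := by
  have hs1 : s ≠ 1 := by
    intro h
    rw [h, Complex.one_re] at hs
    norm_num at hs
  have hs1' : s - 1 ≠ 0 := sub_ne_zero.mpr hs1
  obtain ⟨i1, b1⟩ := G2_gi_int s hs (m + 1)
  obtain ⟨i2, b2⟩ := G2_gi_int s hs m
  have hpt : ∀ t ∈ Set.Ioi (1 : ℝ), s * gi s (m + 1) t + gi s m t = (t : ℂ) *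
      ((s * gi s (m + 1) (((1 : ℕ) : ℝ) * t) + gi s m (((1 : ℕ) : ℝ) * t)) / t) := by
    intro t ht
    have ht1 : (1 : ℝ) < t := ht
    have ht0 : (t : ℂ) ≠ 0 := by exact_mod_cast (by linarith : t ≠ 0)
    rw [Nat.cast_one, one_mul, mul_div_cancel₀ _ ht0]
  have hI : IntegrableOn (fun t : ℝ => s * gi s (m + 1) t + gi s m t) (Set.Ioi 1) :=
    (i1.const_mul s).add i2
  refine ⟨hI.congr_fun hpt measurableSet_Ioi, ?_⟩
  rw [← setIntegral_congr_fun measurableSet_Ioi hpt, integral_add (i1.const_mul s) i2,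
    integral_const_mul, b1, b2]
  have h5 : (s - 1)⁻¹ * (s - 1) = 1 := inv_mul_cancel₀ hs1'
  have h6 : ((s - 1)⁻¹) ^ (m + 1) = ((s - 1)⁻¹) ^ (m + 1 + 1) * (s - 1) := by
    rw [pow_succ _ (m + 1), mul_assoc, h5, mul_one]
  rw [h6]
  ring

/-- A function bounded by `6 x`, and by `τ x ^ θ` on `[X, Y]`, against the kernel. -/
private lemma G2_bet (D : ℝ → ℝ) (hDm : Measurable D) (hD : ∀ x : ℝ, 1 < x → |D x| ≤ 6 * x)
    (S : ℝ) (hS1 : 1 ≤ S) (m n : ℕ) (hn : 1 ≤ n) (X Y τ θ : ℝ) (hX : 1 ≤ X) (hXY : X ≤ Y)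
    (hτ : 0 ≤ τ) (hθ : 1 / 2 ≤ θ) (hθ1 : θ ≤ 1)
    (hkX : 12 * Real.log (n * X) ≤ ((m + 1 : ℕ) : ℝ))
    (h : ∀ x : ℝ, X ≤ x → x ≤ Y → |D x| ≤ τ * x ^ θ) :
    IntegrableOn (fun x : ℝ => |D x| * KK S m n x) (Set.Ioi 1) ∧
    ∫ x in Set.Ioi (1 : ℝ), |D x| * KK S m n x ≤ bet S τ θ Y (m + 1) n := by
  have hY : 1 ≤ Y := hX.trans hXY
  have hI : IntegrableOn (fun x : ℝ => |D x| * KK S m n x) (Set.Ioi 1) :=
    D1_intKK (fun x => |D x|) 6 hDm.abs (fun t ht => by rw [abs_abs]; exact hD t ht) S m n hn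
  refine ⟨hI, ?_⟩
  obtain ⟨hIθ, hbθ⟩ := KK_theta S hS1 m n hn θ (by linarith) (by linarith)
  obtain ⟨hI1, -⟩ := KK_theta S hS1 m n hn 1 (by norm_num) (by norm_num)
  have hlow := KK_low S hS1 m n hn X hX (by push_cast at hkX ⊢; exact hkX)
  have hhigh := KK_high S hS1 m n hn Y hY
  have hI1' : IntegrableOn (fun x : ℝ => x * KK S m n x) (Set.Ioi 1) := by
    refine hI1.congr_fun (fun x hx => ?_) measurableSet_Ioi
    simp only [Real.rpow_one]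
  set F : ℝ → ℝ := fun x => |D x| * KK S m n x with hF
  have hs1 : ∫ x in Set.Ioi (1 : ℝ), F x = (∫ x in Set.Ioc (1 : ℝ) X, F x)
      + ((∫ x in Set.Ioc X Y, F x) + ∫ x in Set.Ioi Y, F x) := by
    have e1 : Set.Ioi (1 : ℝ) = Set.Ioc 1 X ∪ Set.Ioi X := (Set.Ioc_union_Ioi_eq_Ioi hX).symm
    have e2 : Set.Ioi X = Set.Ioc X Y ∪ Set.Ioi Y := (Set.Ioc_union_Ioi_eq_Ioi hXY).symm
    rw [e1, setIntegral_union (Set.Ioc_disjoint_Ioi le_rfl) measurableSet_Ioi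
      (hI.mono_set fun x hx => hx.1) (hI.mono_set (Set.Ioi_subset_Ioi hX)), e2,
      setIntegral_union (Set.Ioc_disjoint_Ioi le_rfl) measurableSet_Ioi
      (hI.mono_set fun x hx => lt_of_le_of_lt hX hx.1) (hI.mono_set (Set.Ioi_subset_Ioi hY))]
  have hKK : ∀ x : ℝ, 1 < x → 0 ≤ KK S m n x := fun x hx =>
    KK_nonneg S (by linarith) m n hn x hx.le
  have b1 : ∫ x in Set.Ioc (1 : ℝ) X, F x ≤ 6 * ∫ x in Set.Ioc (1 : ℝ) X, x * KK S m n x := by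
    rw [← integral_const_mul]
    refine setIntegral_mono_on (hI.mono_set fun x hx => hx.1)
      ((hI1'.mono_set fun x hx => hx.1).const_mul _) measurableSet_Ioc fun x hx => ?_
    rw [← mul_assoc]
    exact mul_le_mul_of_nonneg_right (hD x hx.1) (hKK x hx.1)
  have b3 : ∫ x in Set.Ioi Y, F x ≤ 6 * ∫ x in Set.Ioi Y, x * KK S m n x := by
    rw [← integral_const_mul]
    refine setIntegral_mono_on (hI.mono_set (Set.Ioi_subset_Ioi hY))
      ((hI1'.mono_set (Set.Ioi_subset_Ioi hY)).const_mul _) measurableSet_Ioi fun x hx => ?_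
    have hx1 : 1 < x := lt_of_le_of_lt hY hx
    rw [← mul_assoc]
    exact mul_le_mul_of_nonneg_right (hD x hx1) (hKK x hx1)
  have b2 : ∫ x in Set.Ioc X Y, F x ≤ τ * ∫ x in Set.Ioi (1 : ℝ), x ^ θ * KK S m n x := by
    have hsub : Set.Ioc X Y ⊆ Set.Ioi 1 := fun x hx => lt_of_le_of_lt hX hx.1
    have b4 : ∫ x in Set.Ioc X Y, F x ≤ τ * ∫ x in Set.Ioc X Y, x ^ θ * KK S m n x := by
      rw [← integral_const_mul]
      refine setIntegral_mono_on (hI.mono_set hsub)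
        ((hIθ.mono_set hsub).const_mul _) measurableSet_Ioc fun x hx => ?_
      rw [← mul_assoc]
      exact mul_le_mul_of_nonneg_right (h x hx.1.le hx.2) (hKK x (hsub hx))
    refine b4.trans (mul_le_mul_of_nonneg_left ?_ hτ)
    refine setIntegral_mono_set hIθ ?_ hsub.eventuallyLE
    refine (ae_restrict_iff' measurableSet_Ioi).mpr (ae_of_all _ fun x hx => ?_)
    have h1 := hKK x hx
    have : (1 : ℝ) < x := hx
    show 0 ≤ x ^ θ * KK S m n x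
    positivity
  have hn0 : (0 : ℝ) < n := by exact_mod_cast hn
  have hS0 : 0 ≤ 1 + S := by linarith
  calc ∫ x in Set.Ioi (1 : ℝ), F x
      ≤ 6 * ((1 + S) * (n : ℝ)⁻¹ * (2 * (1 / 4 : ℝ) ^ (m + 1)))
        + (τ * ((1 + S) * (n : ℝ) ^ (-θ) * ((2 - θ) ^ (m + 1))⁻¹)
          + 6 * ((1 + S) * (n : ℝ)⁻¹ * (4 * 2 ^ (m + 1) * Y ^ (-(1 / 2) : ℝ)))) := by
        rw [hs1]
        have c1 := b1.trans (mul_le_mul_of_nonneg_left hlow (by norm_num : (0 : ℝ) ≤ 6))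
        have c2 := b2.trans (mul_le_mul_of_nonneg_left hbθ hτ)
        have c3 := b3.trans (mul_le_mul_of_nonneg_left hhigh (by norm_num : (0 : ℝ) ≤ 6))
        linarith
    _ ≤ bet S τ θ Y (m + 1) n := by
        unfold bet
        have p1 : 0 ≤ (1 + S) * (n : ℝ)⁻¹ * (1 / 4 : ℝ) ^ (m + 1) := by positivity
        have p2 : 0 ≤ (1 + S) * (n : ℝ)⁻¹ * (2 ^ (m + 1) * Y ^ (-(1 / 2) : ℝ)) := by
          have : 0 < Y := by linarith
          positivity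
        nlinarith [p1, p2]

/-- The logarithmic derivative of `(z - 1) L(z, χ₀)`. -/
private lemma G2_TC (q : ℕ) [NeZero q] (s : ℂ) (hs : s.re = 2) (k : ℕ) :
    TC (logDeriv (MC.FF q 1)) s k = (-1) ^ k * ((s - 1)⁻¹) ^ (k + 1)
      - TC (fun z => -logDeriv (1 : DirichletCharacter ℂ q).LFunction z) s k := by
  have hs1 : s ≠ 1 := by
    intro h
    rw [h, Complex.one_re] at hs
    norm_num at hs
  have hre : 1 < s.re := by rw [hs]; norm_num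
  have hL := logDeriv_analyticAt q 1 s hre
  have hev : logDeriv (MC.FF q 1) =ᶠ[nhds s] ((fun z : ℂ => (z - 1)⁻¹)
      - fun z => -logDeriv (1 : DirichletCharacter ℂ q).LFunction z) := by
    have e1 : ∀ᶠ z in nhds s, z ≠ 1 := isOpen_ne.mem_nhds hs1
    have e2 : ∀ᶠ z : ℂ in nhds s, 1 < z.re :=
      (isOpen_lt continuous_const Complex.continuous_re).mem_nhds hre
    filter_upwards [e1, e2] with z hz1 hz2
    have hfev : MC.FF q 1 =ᶠ[nhds z] fun w => (w - 1) *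
        (1 : DirichletCharacter ℂ q).LFunction w := by
      filter_upwards [isOpen_ne.mem_nhds hz1] with w hw
      exact MC.FF_one_apply q w hw
    have h1 : logDeriv (MC.FF q 1) z = logDeriv (fun w => (w - 1) *
        (1 : DirichletCharacter ℂ q).LFunction w) z := by
      rw [logDeriv_apply, logDeriv_apply, hfev.deriv_eq, hfev.eq_of_nhds]
    have h3 : (1 : DirichletCharacter ℂ q).LFunction z ≠ 0 :=
      DirichletCharacter.LFunction_ne_zero_of_one_le_re 1 (.inr hz1) hz2.le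
    rw [h1, logDeriv_mul (f := fun w : ℂ => w - 1) z (sub_ne_zero.mpr hz1) h3 (by fun_prop)
      ((1 : DirichletCharacter ℂ q).differentiableAt_LFunction z (.inl hz1))]
    simp only [Pi.sub_apply, sub_neg_eq_add]
    congr 1
    rw [logDeriv_apply, deriv_sub_const]
    simp
  have hA : AnalyticAt ℂ (fun z : ℂ => (z - 1)⁻¹) s :=
    (analyticAt_id.sub analyticAt_const).inv (sub_ne_zero.mpr hs1)
  unfold TC
  rw [Filter.EventuallyEq.iteratedDeriv_eq k hev,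
    iteratedDeriv_sub (hA.contDiffAt.of_le le_top) (hL.contDiffAt.of_le le_top),
    EM.iteratedDeriv_inv_sub 1 s hs1 k, sub_div]
  have hf0 : (k.factorial : ℂ) ≠ 0 := by exact_mod_cast k.factorial_ne_zero
  congr 1
  field_simp

/-- G2. The principal character, from one class `c` (main term `x / φ(q)`). -/
lemma triv_char (q : ℕ) [NeZero q] (s : ℂ) (hs : s.re = 2) (S : ℝ) (hS1 : 1 ≤ S) (hS : ‖s‖ ≤ S)
    (k : ℕ) (c : (ZMod q)ˣ) (X Y τ θ : ℝ) (hX : 1 ≤ X) (hXY : X ≤ Y) (hτ : 0 ≤ τ)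
    (hθ : 1 / 2 ≤ θ) (hθ1 : θ ≤ 1) (hk : 1 ≤ k) (hkX : 12 * Real.log X ≤ k)
    (h : ∀ x : ℝ, X ≤ x → x ≤ Y → |psiU q c x - x / q.totient| ≤ τ * x ^ θ) :
    ‖TC (logDeriv (MC.FF q 1)) s k‖ ≤ q.totient * (bet S τ θ Y k 1 + ‖Dk q s k c‖) := by
  obtain ⟨m, rfl⟩ : ∃ m, k = m + 1 := ⟨k - 1, by omega⟩
  have hφ : (0 : ℝ) < q.totient := by
    exact_mod_cast Nat.totient_pos.mpr (Nat.pos_of_ne_zero (NeZero.ne q))
  have hφ1 : (1 : ℝ) ≤ q.totient := by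
    exact_mod_cast Nat.totient_pos.mpr (Nat.pos_of_ne_zero (NeZero.ne q))
  have hφC : (q.totient : ℂ) ≠ 0 := A2_totient q
  have hDm : Measurable (fun x : ℝ => psiU q c x - x / q.totient) :=
    (psiU_meas q c).sub (measurable_id.div_const _)
  have hD : ∀ x : ℝ, 1 < x → |psiU q c x - x / q.totient| ≤ 6 * x := by
    intro x hx
    have hx0 : 0 ≤ x := by linarith
    have h1 := psiU_nonneg q c x
    have h2 := psiU_le q c x hx0
    have h3 : 0 ≤ x / q.totient := by positivity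
    have h4 : x / q.totient ≤ x := div_le_self hx0 hφ1
    rw [abs_le]
    constructor <;> linarith
  obtain ⟨hI, hb⟩ := G2_bet (fun x : ℝ => psiU q c x - x / q.totient) hDm hD S hS1 m 1 le_rfl
    X Y τ θ hX hXY hτ hθ hθ1 (by rw [Nat.cast_one, one_mul]; exact hkX) h
  obtain ⟨hM1, hM2⟩ := G2_main s hs m
  -- the class coefficient as an integral
  have hZ : Zc q s (m + 1) c = ∫ t in Set.Ioi (1 : ℝ), (psiU q c t : ℂ) *
      ((s * gi s (m + 1) (((1 : ℕ) : ℝ) * t) + gi s m (((1 : ℕ) : ℝ) * t)) / t) := by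
    rw [← Zc_shift q s hs m 1 le_rfl c, sum_eq_single 0]
    · rw [Nat.cast_one, gi_one, if_pos rfl, one_mul, Nat.sub_zero]
    · intro i _ hi
      rw [Nat.cast_one, gi_one, if_neg hi, zero_mul]
    · intro h0
      exact absurd (mem_range.mpr (by omega)) h0
  have hintn : ∀ (j : ℕ), IntegrableOn
      (fun t : ℝ => (psiU q c t : ℂ) * (gi s j (((1 : ℕ) : ℝ) * t) / t)) (Set.Ioi 1) := by
    intro j
    refine D1_intn (fun t => (psiU q c t : ℂ)) 6 (Complex.measurable_ofReal.comp (psiU_meas q c))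
      (fun t ht => ?_) s hs j 1 le_rfl
    rw [Complex.norm_real, Real.norm_of_nonneg (psiU_nonneg q c t)]
    exact psiU_le q c t (by linarith)
  have hint2 : IntegrableOn (fun t : ℝ => (psiU q c t : ℂ) *
        ((s * gi s (m + 1) (((1 : ℕ) : ℝ) * t) + gi s m (((1 : ℕ) : ℝ) * t)) / t))
        (Set.Ioi 1) := by
    refine (((hintn (m + 1)).const_mul s).add (hintn m)).congr ?_
    refine (ae_restrict_iff' measurableSet_Ioi).mpr (ae_of_all _ fun t ht => ?_)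
    simp only [Pi.add_apply]
    ring
  have hdiff : Zc q s (m + 1) c - (1 / (q.totient : ℂ)) *
      ((-1) ^ (m + 1) * ((s - 1)⁻¹) ^ (m + 1 + 1))
      = ∫ t in Set.Ioi (1 : ℝ), ((psiU q c t - t / q.totient : ℝ) : ℂ) *
        ((s * gi s (m + 1) (((1 : ℕ) : ℝ) * t) + gi s m (((1 : ℕ) : ℝ) * t)) / t) := by
    rw [hZ, ← hM2, ← integral_const_mul, ← integral_sub hint2 (hM1.const_mul _)]
    refine setIntegral_congr_fun measurableSet_Ioi fun t _ => ?_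
    push_cast
    ring
  have hnorm : ‖Zc q s (m + 1) c - (1 / (q.totient : ℂ)) *
      ((-1) ^ (m + 1) * ((s - 1)⁻¹) ^ (m + 1 + 1))‖ ≤ bet S τ θ Y (m + 1) 1 := by
    rw [hdiff]
    refine ((norm_integral_le_integral_norm _).trans ?_).trans hb
    refine setIntegral_mono_on ?_ hI measurableSet_Ioi fun t ht => ?_
    · refine ((hint2.sub (hM1.const_mul (1 / (q.totient : ℂ)))).congr ?_).norm
      refine (ae_restrict_iff' measurableSet_Ioi).mpr (ae_of_all _ fun t ht => ?_)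
      simp only [Pi.sub_apply]
      push_cast
      ring
    · have ht1 : (1 : ℝ) < t := ht
      rw [norm_mul, Complex.norm_real, Real.norm_eq_abs]
      exact mul_le_mul_of_nonneg_left (D1_KK s hs S hS m 1 le_rfl t ht1.le) (abs_nonneg _)
  have hT : TC (logDeriv (MC.FF q 1)) s (m + 1) = (q.totient : ℂ) * (Dk q s (m + 1) c
      - (Zc q s (m + 1) c - (1 / (q.totient : ℂ)) *
      ((-1) ^ (m + 1) * ((s - 1)⁻¹) ^ (m + 1 + 1)))) := by
    rw [G2_TC q s hs (m + 1), Zc_Dk]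
    field_simp
    ring
  rw [hT, norm_mul, Complex.norm_natCast]
  refine mul_le_mul_of_nonneg_left ?_ hφ.le
  refine (norm_sub_le _ _).trans ?_
  linarith

end Pool.Agent.MY
end

section

set_option autoImplicit false

namespace Pool.Agent.MZ

open Complex Finset MY

/-- The Taylor coefficients of `m^{-z}`. -/
lemma M2_aux_TC (s : ℂ) (i m : ℕ) (hm : 1 ≤ m) : TC (fun z : ℂ => (m : ℂ) ^ (-z)) s i = gi s i m := by
  unfold TC gi
  rw [A1_iter m hm i]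
  push_cast
  ring

lemma M2_aux_diff (m : ℕ) (hm : 1 ≤ m) : Differentiable ℂ (fun z : ℂ => (m : ℂ) ^ (-z)) := by
  have hm0 : (m : ℂ) ≠ 0 := by exact_mod_cast (by omega : m ≠ 0)
  exact fun z => ((hasDerivAt_neg z).const_cpow (c := (m : ℂ)) (.inl hm0)).differentiableAt

/-- M2. The Taylor coefficients of the smoothed `L`-function under the Lindelöf bound. -/
lemma LW_bound (δ ε δ₁ : ℝ) (hδ : 0 < δ) (hδ1 : δ ≤ 1 / 10) (hε : 0 < ε) (hδ₁ : 0 < δ₁) :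
    ∃ q₀ : ℕ, ∀ (q : ℕ) [NeZero q], q₀ ≤ q →
    (∀ χ : DirichletCharacter ℂ q, χ ≠ 1 → ∀ z : ℂ, 1 / 2 + 2 * δ ≤ z.re → |z.im| ≤ 6 →
      ‖χ.LFunction z‖ ≤ (q : ℝ) ^ ε) →
    ∀ s : ℂ, s.re = 2 → ‖s‖ ≤ 3 → ∀ N : ℕ, 2 * (q : ℝ) ^ (1 + δ₁) ≤ N →
    ∀ χ : DirichletCharacter ℂ q, χ ≠ 1 → ∀ i : ℕ,
    ‖∑ m ∈ Icc 1 N, (((MC.C2.vv ((m : ℝ) / (q : ℝ) ^ (1 + δ₁)) : ℝ) : ℂ) * gi s i m) * χ m‖
      ≤ ((q : ℝ) ^ ε + 1) * ((3 / 2 - 2 * δ)⁻¹) ^ i := by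
  obtain ⟨k, hk⟩ := exists_nat_ge (2 / δ₁)
  rw [div_le_iff₀ hδ₁] at hk
  obtain ⟨C, hC0, hC⟩ := smooth_approx' k
  obtain ⟨Q, hQ⟩ := exists_nat_ge (C * 6 ^ (k + 1) + 1)
  refine ⟨Q, fun q _ hq hL s hs hs3 N hN χ hχ i => ?_⟩
  have hqQ : (Q : ℝ) ≤ q := by exact_mod_cast hq
  have hC6 : 0 ≤ C * 6 ^ (k + 1) := by positivity
  have hq1 : (1 : ℝ) ≤ q := by linarith
  have hq0 : (0 : ℝ) < q := by linarith
  obtain ⟨U, hU⟩ : ∃ U : ℝ, U = (q : ℝ) ^ (1 + δ₁) := ⟨_, rfl⟩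
  rw [← hU] at hN ⊢
  have hU1 : 1 ≤ U := by rw [hU]; exact Real.one_le_rpow hq1 (by linarith)
  obtain ⟨F, hF⟩ : ∃ F : ℂ → ℂ, F = fun z => ∑ m ∈ Icc 1 N,
      (((MC.C2.vv ((m : ℝ) / U) : ℝ) : ℂ) * χ m) * (fun m : ℕ => fun z : ℂ => (m : ℂ) ^ (-z)) m z :=
    ⟨_, rfl⟩
  have hTC : TC F s i = ∑ m ∈ Icc 1 N, (((MC.C2.vv ((m : ℝ) / U) : ℝ) : ℂ) * gi s i m) * χ m := by
    rw [hF, TC_sum (Icc 1 N) (fun m : ℕ => ((MC.C2.vv ((m : ℝ) / U) : ℝ) : ℂ) * χ m)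
      (fun m : ℕ => fun z : ℂ => (m : ℂ) ^ (-z)) s
      (fun m hm => (M2_aux_diff m (mem_Icc.mp hm).1).analyticAt s) i]
    refine sum_congr rfl fun m hm => ?_
    rw [M2_aux_TC s i m (mem_Icc.mp hm).1]
    ring
  rw [← hTC]
  refine TC_cauchy F s (3 / 2 - 2 * δ) _ (by linarith) (fun z _ => ?_) (fun z hz => ?_) i
  · rw [hF]
    refine DifferentiableAt.fun_sum fun m hm => ?_
    exact ((M2_aux_diff m (mem_Icc.mp hm).1) z).const_mul _
  · rw [Metric.mem_closedBall, dist_eq_norm] at hz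
    have hre := Complex.abs_re_le_norm (z - s)
    have him := Complex.abs_im_le_norm (z - s)
    have hsim := Complex.abs_im_le_norm s
    rw [Complex.sub_re, hs, abs_le] at hre
    rw [Complex.sub_im, abs_le] at him
    rw [abs_le] at hsim
    have hz1 : ‖χ.LFunction z‖ ≤ (q : ℝ) ^ ε :=
      hL χ hχ z (by linarith) (abs_le.mpr ⟨by linarith, by linarith⟩)
    have hz2 := hC q χ hχ z (by linarith) U hU1 N hN
    have hzn : ‖z‖ + 1 ≤ 6 := by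
      have h5 : ‖z‖ ≤ ‖z - s‖ + ‖s‖ := by
        calc ‖z‖ = ‖(z - s) + s‖ := by ring_nf
          _ ≤ _ := norm_add_le _ _
      linarith
    have hFz : F z = ∑ n ∈ Icc 1 N, χ n * ((MC.C2.vv ((n : ℝ) / U) : ℝ) : ℂ) * (n : ℂ) ^ (-z) := by
      rw [hF]
      refine sum_congr rfl fun m _ => ?_
      ring
    rw [← hFz] at hz2
    have hsmall : C * ((q : ℝ) * (‖z‖ + 1)) ^ (k + 1) * U ^ (-(k : ℝ)) ≤ 1 := by
      have h1 : ((q : ℝ) * (‖z‖ + 1)) ^ (k + 1) ≤ ((q : ℝ) * 6) ^ (k + 1) := by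
        have : 0 ≤ ‖z‖ + 1 := by positivity
        gcongr
      have h2 : U ^ (-(k : ℝ)) = (q : ℝ) ^ (-((1 + δ₁) * k)) := by
        rw [hU, ← Real.rpow_mul hq0.le]
        congr 1
        ring
      have h3 : (q : ℝ) ^ (k + 1) * (q : ℝ) ^ (-((1 + δ₁) * k)) ≤ (q : ℝ)⁻¹ := by
        rw [← Real.rpow_natCast, ← Real.rpow_add hq0, ← Real.rpow_neg_one]
        refine Real.rpow_le_rpow_of_exponent_le hq1 ?_
        push_cast
        nlinarith
      calc C * ((q : ℝ) * (‖z‖ + 1)) ^ (k + 1) * U ^ (-(k : ℝ))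
          ≤ C * ((q : ℝ) * 6) ^ (k + 1) * U ^ (-(k : ℝ)) := by
            have : 0 ≤ U ^ (-(k : ℝ)) := Real.rpow_nonneg (by linarith) _
            gcongr
        _ = (C * 6 ^ (k + 1)) * ((q : ℝ) ^ (k + 1) * (q : ℝ) ^ (-((1 + δ₁) * k))) := by
            rw [h2, mul_pow]; ring
        _ ≤ (C * 6 ^ (k + 1)) * (q : ℝ)⁻¹ := by gcongr
        _ ≤ (q : ℝ) * (q : ℝ)⁻¹ := by
            gcongr
            linarith
        _ = 1 := mul_inv_cancel₀ hq0.ne'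
    have h4 : ‖F z‖ ≤ ‖χ.LFunction z‖ + ‖χ.LFunction z - F z‖ := by
      calc ‖F z‖ = ‖χ.LFunction z - (χ.LFunction z - F z)‖ := by rw [sub_sub_cancel]
        _ ≤ _ := norm_sub_le _ _
    linarith

end Pool.Agent.MZ
end

section

set_option autoImplicit false

namespace Pool.Agent.MW

open Complex Finset MY MZ

/-- A6. The Taylor coefficients of the smoothed `L`-function under the Lindelöf bound (as `MZ.M2`). -/
lemma LW_bound (δ' ε δ₁ : ℝ) (hδ : 0 ≤ δ') (hδ1 : δ' < 1 / 2) (hε : 0 < ε) (hδ₁ : 0 < δ₁)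
    (hδ₂ : δ₁ ≤ 1 / 10) :
    ∃ q₀ : ℕ, ∀ (q : ℕ) [NeZero q], q₀ ≤ q → ∀ S : ℝ, 3 ≤ S → S + 4 ≤ (q : ℝ) ^ (δ₁ / 2) →
    (∀ χ : DirichletCharacter ℂ q, χ ≠ 1 → ∀ z : ℂ, 1 / 2 + δ' ≤ z.re → |z.im| ≤ S + 2 →
      ‖χ.LFunction z‖ ≤ (q : ℝ) ^ ε) →
    ∀ s : ℂ, s.re = 2 → ‖s‖ ≤ S → ∀ N : ℕ, 2 * (q : ℝ) ^ (1 + δ₁) ≤ N →
    ∀ χ : DirichletCharacter ℂ q, χ ≠ 1 → ∀ i : ℕ,
    ‖∑ m ∈ Icc 1 N, (((MC.C2.vv ((m : ℝ) / (q : ℝ) ^ (1 + δ₁)) : ℝ) : ℂ) * gi s i m) * χ m‖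
      ≤ ((q : ℝ) ^ ε + 1) * ((3 / 2 - δ')⁻¹) ^ i := by
  obtain ⟨k, hk⟩ := exists_nat_ge (5 / δ₁)
  rw [div_le_iff₀ hδ₁] at hk
  obtain ⟨C, hC0, hC⟩ := smooth_approx' k
  obtain ⟨Q, hQ⟩ := exists_nat_ge (C + 1)
  refine ⟨Q, fun q _ hq S hS3 hSq hL s hs hsS N hN χ hχ i => ?_⟩
  have hqQ : (Q : ℝ) ≤ q := by exact_mod_cast hq
  have hq1 : (1 : ℝ) ≤ q := by linarith
  have hq0 : (0 : ℝ) < q := by linarith
  obtain ⟨U, hU⟩ : ∃ U : ℝ, U = (q : ℝ) ^ (1 + δ₁) := ⟨_, rfl⟩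
  rw [← hU] at hN ⊢
  have hU1 : 1 ≤ U := by rw [hU]; exact Real.one_le_rpow hq1 (by linarith)
  obtain ⟨F, hF⟩ : ∃ F : ℂ → ℂ, F = fun z => ∑ m ∈ Icc 1 N,
      (((MC.C2.vv ((m : ℝ) / U) : ℝ) : ℂ) * χ m) * (fun m : ℕ => fun z : ℂ => (m : ℂ) ^ (-z)) m z :=
    ⟨_, rfl⟩
  have hTC : TC F s i = ∑ m ∈ Icc 1 N, (((MC.C2.vv ((m : ℝ) / U) : ℝ) : ℂ) * gi s i m) * χ m := by
    rw [hF, TC_sum (Icc 1 N) (fun m : ℕ => ((MC.C2.vv ((m : ℝ) / U) : ℝ) : ℂ) * χ m)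
      (fun m : ℕ => fun z : ℂ => (m : ℂ) ^ (-z)) s
      (fun m hm => (M2_aux_diff m (mem_Icc.mp hm).1).analyticAt s) i]
    refine sum_congr rfl fun m hm => ?_
    rw [M2_aux_TC s i m (mem_Icc.mp hm).1]
    ring
  rw [← hTC]
  refine TC_cauchy F s (3 / 2 - δ') _ (by linarith) (fun z _ => ?_) (fun z hz => ?_) i
  · rw [hF]
    refine DifferentiableAt.fun_sum fun m hm => ?_
    exact ((M2_aux_diff m (mem_Icc.mp hm).1) z).const_mul _
  · rw [Metric.mem_closedBall, dist_eq_norm] at hz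
    have hre := Complex.abs_re_le_norm (z - s)
    have him := Complex.abs_im_le_norm (z - s)
    have hsim := Complex.abs_im_le_norm s
    rw [Complex.sub_re, hs, abs_le] at hre
    rw [Complex.sub_im, abs_le] at him
    rw [abs_le] at hsim
    have hz1 : ‖χ.LFunction z‖ ≤ (q : ℝ) ^ ε :=
      hL χ hχ z (by linarith) (abs_le.mpr ⟨by linarith, by linarith⟩)
    have hz2 := hC q χ hχ z (by linarith) U hU1 N hN
    have hzn : ‖z‖ + 1 ≤ (q : ℝ) ^ (δ₁ / 2) := by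
      have h5 : ‖z‖ ≤ ‖z - s‖ + ‖s‖ := by
        calc ‖z‖ = ‖(z - s) + s‖ := by ring_nf
          _ ≤ _ := norm_add_le _ _
      linarith
    have hFz : F z = ∑ n ∈ Icc 1 N, χ n * ((MC.C2.vv ((n : ℝ) / U) : ℝ) : ℂ) * (n : ℂ) ^ (-z) := by
      rw [hF]
      refine sum_congr rfl fun m _ => ?_
      ring
    rw [← hFz] at hz2
    have hsmall : C * ((q : ℝ) * (‖z‖ + 1)) ^ (k + 1) * U ^ (-(k : ℝ)) ≤ 1 := by
      have h1 : ((q : ℝ) * (‖z‖ + 1)) ^ (k + 1) ≤ ((q : ℝ) * (q : ℝ) ^ (δ₁ / 2)) ^ (k + 1) := by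
        have : 0 ≤ ‖z‖ + 1 := by positivity
        gcongr
      have h2 : U ^ (-(k : ℝ)) = (q : ℝ) ^ (-((1 + δ₁) * k)) := by
        rw [hU, ← Real.rpow_mul hq0.le]
        congr 1
        ring
      have h6 : ((q : ℝ) * (q : ℝ) ^ (δ₁ / 2)) ^ (k + 1) = (q : ℝ) ^ ((1 + δ₁ / 2) * (k + 1)) := by
        have h7 : (q : ℝ) * (q : ℝ) ^ (δ₁ / 2) = (q : ℝ) ^ (1 + δ₁ / 2) := by
          rw [Real.rpow_add hq0, Real.rpow_one]
        rw [h7, ← Real.rpow_natCast, ← Real.rpow_mul hq0.le]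
        congr 1
        push_cast
        ring
      have h3 : (q : ℝ) ^ ((1 + δ₁ / 2) * (k + 1)) * (q : ℝ) ^ (-((1 + δ₁) * k)) ≤ (q : ℝ)⁻¹ := by
        rw [← Real.rpow_add hq0, ← Real.rpow_neg_one]
        refine Real.rpow_le_rpow_of_exponent_le hq1 ?_
        nlinarith
      calc C * ((q : ℝ) * (‖z‖ + 1)) ^ (k + 1) * U ^ (-(k : ℝ))
          ≤ C * ((q : ℝ) * (q : ℝ) ^ (δ₁ / 2)) ^ (k + 1) * U ^ (-(k : ℝ)) := by
            have : 0 ≤ U ^ (-(k : ℝ)) := Real.rpow_nonneg (by linarith) _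
            gcongr
        _ = C * ((q : ℝ) ^ ((1 + δ₁ / 2) * (k + 1)) * (q : ℝ) ^ (-((1 + δ₁) * k))) := by
            rw [h2, h6]; ring
        _ ≤ C * (q : ℝ)⁻¹ := by gcongr
        _ ≤ (q : ℝ) * (q : ℝ)⁻¹ := by
            gcongr
            linarith
        _ = 1 := mul_inv_cancel₀ hq0.ne'
    have h4 : ‖F z‖ ≤ ‖χ.LFunction z‖ + ‖χ.LFunction z - F z‖ := by
      calc ‖F z‖ = ‖χ.LFunction z - (χ.LFunction z - F z)‖ := by rw [sub_sub_cancel]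
        _ ≤ _ := norm_sub_le _ _
    linarith

end Pool.Agent.MW
end
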