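import Mathlib
import Pool.Agent.Lib.MP_9cfc0a_nt.MY.Defs
import Pool.Agent.Lib.MP_9cfc0a_nt.MY.D1
import Pool.Agent.Lib.MP_9cfc0a_nt.Mg.G029
import Pool.Agent.Lib.MP_9cfc0a_nt.Mg.G025
import Pool.Agent.Lib.MP_9cfc0a_nt.Mg.G026

section

set_option autoImplicit false

namespace Pool.Agent.MY

open Complex Finset

open MeasureTheory

/-- `|ψ(x;c) - ψ(x;c')| ≤ 6 x`. -/
lemma psiU_diff_le (q : ℕ) [NeZero q] (c c' : (ZMod q)ˣ) (x : ℝ) (hx : 0 ≤ x) :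
    |psiU q c x - psiU q c' x| ≤ 6 * x := by
  have h1 := psiU_nonneg q c x
  have h2 := psiU_nonneg q c' x
  have h3 := psiU_le q c x hx
  have h4 := psiU_le q c' x hx
  rw [abs_le]
  constructor <;> linarith

/-- D3. Two classes outside `B`. -/
lemma Dn_diff_bet (q : ℕ) [NeZero q] (s : ℂ) (hs : s.re = 2) (S : ℝ) (hS1 : 1 ≤ S) (hS : ‖s‖ ≤ S)
    (k n : ℕ) (hk : 1 ≤ k) (hn : 1 ≤ n) (c c' : (ZMod q)ˣ) (X Y τ θ : ℝ) (hX : 1 ≤ X) (hXY : X ≤ Y)
    (hτ : 0 ≤ τ) (hθ : 1 / 2 ≤ θ) (hθ1 : θ ≤ 1) (hkX : 12 * Real.log (n * X) ≤ k)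
    (h : ∀ x : ℝ, X ≤ x → x ≤ Y → |psiU q c x - psiU q c' x| ≤ τ * x ^ θ) :
    ‖Dn q s k c n - Dn q s k c' n‖ ≤ bet S τ θ Y k n := by
  obtain ⟨m, rfl⟩ : ∃ m, k = m + 1 := ⟨k - 1, by omega⟩
  have hY : 1 ≤ Y := hX.trans hXY
  obtain ⟨hI, hb⟩ := Dn_diff_le q s hs S hS m n hn c c'
  obtain ⟨hIθ, hbθ⟩ := KK_theta S hS1 m n hn θ (by linarith) (by linarith)
  obtain ⟨hI1, -⟩ := KK_theta S hS1 m n hn 1 (by norm_num) (by norm_num)
  have hlow := KK_low S hS1 m n hn X hX (by push_cast at hkX ⊢; exact hkX)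
  have hhigh := KK_high S hS1 m n hn Y hY
  have hI1' : IntegrableOn (fun x : ℝ => x * KK S m n x) (Set.Ioi 1) := by
    refine hI1.congr_fun (fun x hx => ?_) measurableSet_Ioi
    simp only [Real.rpow_one]
  set F : ℝ → ℝ := fun x => |psiU q c x - psiU q c' x| * KK S m n x with hF
  have hs1 : ∫ x in Set.Ioi (1 : ℝ), F x = (∫ x in Set.Ioc (1 : ℝ) X, F x)
      + ((∫ x in Set.Ioc X Y, F x) + ∫ x in Set.Ioi Y, F x) := by
    have e1 : Set.Ioi (1 : ℝ) = Set.Ioc 1 X ∪ Set.Ioi X := (Set.Ioc_union_Ioi_eq_Ioi hX).symm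
    have e2 : Set.Ioi X = Set.Ioc X Y ∪ Set.Ioi Y := (Set.Ioc_union_Ioi_eq_Ioi hXY).symm
    rw [e1, setIntegral_union (Set.Ioc_disjoint_Ioi le_rfl) measurableSet_Ioi
      (hI.mono_set fun x hx => hx.1) (hI.mono_set (Set.Ioi_subset_Ioi hX)), e2,
      setIntegral_union (Set.Ioc_disjoint_Ioi le_rfl) measurableSet_Ioi
      (hI.mono_set fun x hx => lt_of_le_of_lt hX hx.1) (hI.mono_set (Set.Ioi_subset_Ioi hY))]
  have hKK : ∀ x : ℝ, 1 < x → 0 ≤ KK S m n x := fun x hx =>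
    KK_nonneg S (by linarith) m n hn x hx.le
  have b1 : ∫ x in Set.Ioc (1 : ℝ) X, F x ≤ 6 * ∫ x in Set.Ioc (1 : ℝ) X, x * KK S m n x := by
    rw [← integral_const_mul]
    refine setIntegral_mono_on (hI.mono_set fun x hx => hx.1)
      ((hI1'.mono_set fun x hx => hx.1).const_mul _) measurableSet_Ioc fun x hx => ?_
    rw [← mul_assoc]
    exact mul_le_mul_of_nonneg_right (psiU_diff_le q c c' x (by linarith [hx.1])) (hKK x hx.1)
  have b3 : ∫ x in Set.Ioi Y, F x ≤ 6 * ∫ x in Set.Ioi Y, x * KK S m n x := by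
    rw [← integral_const_mul]
    refine setIntegral_mono_on (hI.mono_set (Set.Ioi_subset_Ioi hY))
      ((hI1'.mono_set (Set.Ioi_subset_Ioi hY)).const_mul _) measurableSet_Ioi fun x hx => ?_
    have hx1 : 1 < x := lt_of_le_of_lt hY hx
    rw [← mul_assoc]
    exact mul_le_mul_of_nonneg_right (psiU_diff_le q c c' x (by linarith)) (hKK x hx1)
  have b2 : ∫ x in Set.Ioc X Y, F x ≤ τ * ∫ x in Set.Ioi (1 : ℝ), x ^ θ * KK S m n x := by
    have hsub : Set.Ioc X Y ⊆ Set.Ioi 1 := fun x hx => lt_of_le_of_lt hX hx.1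
    have b4 : ∫ x in Set.Ioc X Y, F x ≤ τ * ∫ x in Set.Ioc X Y, x ^ θ * KK S m n x := by
      rw [← integral_const_mul]
      refine setIntegral_mono_on (hI.mono_set hsub)
        ((hIθ.mono_set hsub).const_mul _) measurableSet_Ioc fun x hx => ?_
      rw [← mul_assoc]
      exact mul_le_mul_of_nonneg_right (h x hx.1.le hx.2) (hKK x (hsub hx))
    refine b4.trans (mul_le_mul_of_nonneg_left ?_ hτ)
    refine setIntegral_mono_set hIθ ?_ hsub.eventuallyLE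
    refine (ae_restrict_iff' measurableSet_Ioi).mpr (ae_of_all _ fun x hx => ?_)
    have h1 := hKK x hx
    have : (1 : ℝ) < x := hx
    show 0 ≤ x ^ θ * KK S m n x
    positivity
  have hn0 : (0 : ℝ) < n := by exact_mod_cast hn
  have hS0 : 0 ≤ 1 + S := by linarith
  calc ‖Dn q s (m + 1) c n - Dn q s (m + 1) c' n‖ ≤ ∫ x in Set.Ioi (1 : ℝ), F x := hb
    _ ≤ 6 * ((1 + S) * (n : ℝ)⁻¹ * (2 * (1 / 4 : ℝ) ^ (m + 1)))
        + (τ * ((1 + S) * (n : ℝ) ^ (-θ) * ((2 - θ) ^ (m + 1))⁻¹)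
          + 6 * ((1 + S) * (n : ℝ)⁻¹ * (4 * 2 ^ (m + 1) * Y ^ (-(1 / 2) : ℝ)))) := by
        rw [hs1]
        have c1 := b1.trans (mul_le_mul_of_nonneg_left hlow (by norm_num : (0 : ℝ) ≤ 6))
        have c2 := b2.trans (mul_le_mul_of_nonneg_left hbθ hτ)
        have c3 := b3.trans (mul_le_mul_of_nonneg_left hhigh (by norm_num : (0 : ℝ) ≤ 6))
        linarith
    _ ≤ bet S τ θ Y (m + 1) n := by
        unfold bet
        have p1 : 0 ≤ (1 + S) * (n : ℝ)⁻¹ * (1 / 4 : ℝ) ^ (m + 1) := by positivity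
        have p2 : 0 ≤ (1 + S) * (n : ℝ)⁻¹ * (2 ^ (m + 1) * Y ^ (-(1 / 2) : ℝ)) := by
          have : 0 < Y := by linarith
          positivity
        nlinarith [p1, p2]

/-- From differences to the values (`∑ D = 0`). -/
lemma off_B (q : ℕ) [NeZero q] (D : (ZMod q)ˣ → ℂ) (hD : ∑ a, D a = 0) (B : Finset (ZMod q)ˣ)
    (hB : 2 * (B.card : ℝ) ≤ q.totient) (β m : ℝ) (hβ : 0 ≤ β) (hm : 0 ≤ m)
    (h1 : ∀ c ∉ B, ∀ c' ∉ B, ‖D c - D c'‖ ≤ β) (h2 : ∀ a ∈ B, ‖D a‖ ≤ m) (c : (ZMod q)ˣ)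
    (hc : c ∉ B) : ‖D c‖ ≤ 2 * β + 2 * B.card / q.totient * m := by
  classical
  have hφ : (0 : ℝ) < q.totient := by
    exact_mod_cast Nat.totient_pos.mpr (Nat.pos_of_ne_zero (NeZero.ne q))
  have hcard : (univ : Finset (ZMod q)ˣ).card = q.totient := by
    rw [card_univ, ZMod.card_units_eq_totient]
  have e1 : ∑ a ∈ (univ \ B), (D c - D a) = ((q.totient : ℂ) - B.card) * D c + ∑ a ∈ B, D a := by
    rw [sum_sub_distrib, sum_const, card_univ_sdiff, nsmul_eq_mul]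
    have h3 : ∑ a ∈ univ \ B, D a = - ∑ a ∈ B, D a := by
      have h4 := sum_sdiff (subset_univ B) (f := D)
      rw [hD] at h4
      exact eq_neg_of_add_eq_zero_left h4
    rw [h3]
    have h5 : B.card ≤ Fintype.card (ZMod q)ˣ := card_le_univ B
    rw [ZMod.card_units_eq_totient] at h5 ⊢
    rw [Nat.cast_sub h5]
    ring
  have e2 : ((q.totient : ℂ) - B.card) * D c = ∑ a ∈ (univ \ B), (D c - D a) - ∑ a ∈ B, D a := by
    rw [e1]; ring
  have e3 : ((q.totient : ℝ) - B.card) * ‖D c‖ ≤ q.totient * β + B.card * m := by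
    have h3 : ‖((q.totient : ℂ) - B.card) * D c‖ = ((q.totient : ℝ) - B.card) * ‖D c‖ := by
      rw [norm_mul]
      congr 1
      have h4 : ((q.totient : ℂ) - B.card) = (((q.totient : ℝ) - B.card : ℝ) : ℂ) := by push_cast; rfl
      rw [h4, Complex.norm_real, Real.norm_of_nonneg]
      have : (0 : ℝ) ≤ B.card := Nat.cast_nonneg _
      linarith
    rw [← h3, e2]
    refine (norm_sub_le _ _).trans (add_le_add ?_ ?_)
    · refine (norm_sum_le _ _).trans ?_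
      calc ∑ a ∈ univ \ B, ‖D c - D a‖ ≤ ∑ a ∈ univ \ B, β :=
            sum_le_sum fun a ha => h1 c hc a (mem_sdiff.mp ha).2
        _ = ((univ \ B).card : ℝ) * β := by rw [sum_const, nsmul_eq_mul]
        _ ≤ q.totient * β := by
            refine mul_le_mul_of_nonneg_right ?_ hβ
            rw [← hcard]
            exact_mod_cast card_le_card (subset_univ _)
    · refine (norm_sum_le _ _).trans ?_
      calc ∑ a ∈ B, ‖D a‖ ≤ ∑ a ∈ B, m := sum_le_sum fun a ha => h2 a ha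
        _ = B.card * m := by rw [sum_const, nsmul_eq_mul]
  have e4 : (q.totient : ℝ) / 2 * ‖D c‖ ≤ q.totient * β + B.card * m := by
    refine le_trans ?_ e3
    refine mul_le_mul_of_nonneg_right ?_ (norm_nonneg _)
    linarith
  have e5 : ((q.totient : ℝ) / 2) * (2 / q.totient) = 1 := by
    rw [div_mul_div_comm, mul_comm (q.totient : ℝ) 2]
    exact div_self (by positivity)
  have e6 : (q.totient : ℝ) * (2 / q.totient) = 2 := by
    rw [mul_div_assoc', mul_comm, mul_div_assoc, div_self hφ.ne', mul_one]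
  have e7 : (0 : ℝ) ≤ 2 / q.totient := by positivity
  calc ‖D c‖ = (((q.totient : ℝ) / 2) * (2 / q.totient)) * ‖D c‖ := by rw [e5, one_mul]
    _ = ((q.totient : ℝ) / 2 * ‖D c‖) * (2 / q.totient) := by ring
    _ ≤ (q.totient * β + B.card * m) * (2 / q.totient) := mul_le_mul_of_nonneg_right e4 e7
    _ = (q.totient * (2 / q.totient)) * β + B.card * m * (2 / q.totient) := by ring
    _ = 2 * β + 2 * B.card / q.totient * m := by rw [e6]; ring

end Pool.Agent.MY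
end

section

set_option autoImplicit false

namespace Pool.Agent.MY

open Complex Finset

lemma mx_nonneg {q : ℕ} (B : Finset (ZMod q)ˣ) (f : (ZMod q)ˣ → ℝ) (hf : ∀ a, 0 ≤ f a) :
    0 ≤ mx B f := by
  unfold mx
  split_ifs with h
  · obtain ⟨b, hb⟩ := h
    exact (hf b).trans (Finset.le_sup' f hb)
  · exact le_rfl

lemma le_mx {q : ℕ} (B : Finset (ZMod q)ˣ) (f : (ZMod q)ˣ → ℝ) (a : (ZMod q)ˣ) (ha : a ∈ B) :
    f a ≤ mx B f := by
  unfold mx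
  rw [dif_pos ⟨a, ha⟩]
  exact Finset.le_sup' f ha

lemma mx_mem {q : ℕ} (B : Finset (ZMod q)ˣ) (hB : B.Nonempty) (f : (ZMod q)ˣ → ℝ) :
    ∃ a ∈ B, mx B f = f a := by
  unfold mx
  rw [dif_pos hB]
  exact Finset.exists_mem_eq_sup' hB f

/-- Shifted coefficients of a class in `B`. -/
lemma Dn_le_mx (q : ℕ) [NeZero q] (s : ℂ) (hs : s.re = 2) (B : Finset (ZMod q)ˣ) (k n : ℕ)
    (hn : 1 ≤ n) (a : (ZMod q)ˣ) (ha : a ∈ B) :
    ‖Dn q s k a n‖ ≤ (∑ i ∈ range (k + 1), (Real.log n) ^ i / (i.factorial : ℝ)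
      * mx B (fun b => ‖Dk q s (k - i) b‖)) / (n : ℝ) ^ 2 := by
  have hnr : (1 : ℝ) ≤ n := by exact_mod_cast hn
  have hlog : 0 ≤ Real.log n := Real.log_nonneg hnr
  unfold Dn
  refine (norm_sum_le _ _).trans ?_
  rw [Finset.sum_div]
  refine Finset.sum_le_sum fun i _ => ?_
  rw [norm_mul]
  have h1 : ‖gi s i (n : ℝ)‖ = (Real.log n) ^ i / (i.factorial : ℝ) / (n : ℝ) ^ 2 :=
    gi_norm s hs i n hnr
  rw [h1]
  have h2 := le_mx B (fun b => ‖Dk q s (k - i) b‖) a ha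
  have h3 : 0 ≤ (Real.log n) ^ i / (i.factorial : ℝ) / (n : ℝ) ^ 2 := by positivity
  calc (Real.log n) ^ i / (i.factorial : ℝ) / (n : ℝ) ^ 2 * ‖Dk q s (k - i) a‖
      ≤ (Real.log n) ^ i / (i.factorial : ℝ) / (n : ℝ) ^ 2 *
        mx B (fun b => ‖Dk q s (k - i) b‖) := mul_le_mul_of_nonneg_left h2 h3
    _ = (Real.log n) ^ i / (i.factorial : ℝ) * mx B (fun b => ‖Dk q s (k - i) b‖)
        / (n : ℝ) ^ 2 := by ring

lemma bet_nonneg (S τ θ Y : ℝ) (hS : 0 ≤ S) (hτ : 0 ≤ τ) (hθ : θ ≤ 2) (hY : 0 ≤ Y) (k n : ℕ) :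
    0 ≤ bet S τ θ Y k n := by
  unfold bet
  have h1 : 0 ≤ 2 - θ := by linarith
  have h2 : 0 ≤ Y ^ (-(1 / 2) : ℝ) := Real.rpow_nonneg hY _
  have h3 : 0 ≤ (n : ℝ) ^ (-θ) := Real.rpow_nonneg (Nat.cast_nonneg _) _
  positivity

/-- A shifted coefficient of a class outside `B`. -/
lemma Dn_off (q : ℕ) [NeZero q] (s : ℂ) (hs : s.re = 2) (S : ℝ) (hS1 : 1 ≤ S) (hS : ‖s‖ ≤ S)
    (B : Finset (ZMod q)ˣ) (hB : 2 * (B.card : ℝ) ≤ q.totient) (X Y τ θ : ℝ) (hX : 1 ≤ X)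
    (hXY : X ≤ Y) (hτ : 0 ≤ τ) (hθ : 1 / 2 ≤ θ) (hθ1 : θ ≤ 1)
    (h : ∀ c ∉ B, ∀ c' ∉ B, ∀ x : ℝ, X ≤ x → x ≤ Y → |psiU q c x - psiU q c' x| ≤ τ * x ^ θ)
    (k n : ℕ) (hk : 1 ≤ k) (hn : 1 ≤ n) (hkX : 12 * Real.log (n * X) ≤ k) (c : (ZMod q)ˣ)
    (hc : c ∉ B) (m : ℝ) (hm : 0 ≤ m) (hmB : ∀ a ∈ B, ‖Dn q s k a n‖ ≤ m) :
    ‖Dn q s k c n‖ ≤ 2 * bet S τ θ Y k n + 2 * B.card / q.totient * m := by
  refine off_B q (fun a => Dn q s k a n) (sum_Dn q s k n) B hB (bet S τ θ Y k n) m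
    (bet_nonneg S τ θ Y (by linarith) hτ (by linarith) (by linarith) k n) hm ?_ hmB c hc
  intro c1 hc1 c2 hc2
  exact Dn_diff_bet q s hs S hS1 hS k n hk hn c1 c2 X Y τ θ hX hXY hτ hθ hθ1 hkX
    (h c1 hc1 c2 hc2)

open Classical in
/-- C1. One step of the recursion at a class of `B`. -/
lemma step (κ : ℕ) : ∃ C : ℝ, 0 ≤ C ∧ ∀ (S : ℝ), 3 ≤ S → ∀ (q : ℕ) [NeZero q], 2 ≤ q →
    ∀ (s : ℂ), s.re = 2 → ‖s‖ ≤ S → ∀ (B : Finset (ZMod q)ˣ), 2 * (B.card : ℝ) ≤ q.totient →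
    ∀ (X Y τ θ : ℝ), (q : ℝ) ≤ X → X ≤ Y → 0 ≤ τ → 1 / 2 ≤ θ → θ ≤ 1 →
    (∀ c ∉ B, ∀ c' ∉ B, ∀ x : ℝ, X ≤ x → x ≤ Y → |psiU q c x - psiU q c' x| ≤ τ * x ^ θ) →
    ∀ U : ℝ, (q : ℝ) ≤ U → ∀ N : ℕ, 2 * U ≤ N → ∀ k : ℕ, 1 ≤ k →
    12 * Real.log (q * N * X) ≤ k → ∀ a ∈ B,
    ‖Dk q s k a‖ ≤
      (∑ n ∈ (Icc 2 (q * N)).filter (fun n => Nat.Coprime n q),
        (|cn (Ds q B a) U n| * ((if q < n ∧ a * (un q n)⁻¹ ∈ B then 1 else 0)
          + 2 * B.card / q.totient)) *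
        ((∑ i ∈ range (k + 1), (Real.log n) ^ i / (i.factorial : ℝ)
          * mx B (fun b => ‖Dk q s (k - i) b‖)) / (n : ℝ) ^ 2))
      + (∑ n ∈ Icc 2 (q * N), |cn (Ds q B a) U n| * (2 * bet S τ θ Y k n))
      + C * (S + 2) ^ (κ + 1) * (Ds q B a).card * Err q κ U k := by
  obtain ⟨C, hC, hrec⟩ := rec_ineq κ
  refine ⟨C, hC, ?_⟩
  intro S hS q _ hq s hs hsS B hB X Y τ θ hqX hXY hτ hθ hθ1 h U hU N hN k hk hkX a ha
  have hqr : (2 : ℝ) ≤ q := by exact_mod_cast hq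
  have hX1 : 1 ≤ X := by linarith
  obtain ⟨hD1, hD2⟩ := Ds_mem q hq B a
  have h1 := hrec S hS q s hs hsS (Ds q B a) hD1 hD2 U (by linarith) N hN a k
  refine h1.trans ?_
  refine add_le_add ?_ le_rfl
  set F : ℕ → ℝ := fun n => ((∑ i ∈ range (k + 1), (Real.log n) ^ i / (i.factorial : ℝ)
          * mx B (fun b => ‖Dk q s (k - i) b‖)) / (n : ℝ) ^ 2) with hF
  have hbet : ∀ n : ℕ, 0 ≤ bet S τ θ Y k n := fun n =>
    bet_nonneg S τ θ Y (by linarith) hτ (by linarith) (by linarith) k n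
  have hF0 : ∀ n : ℕ, 1 ≤ n → 0 ≤ F n := by
    intro n hn
    have hlog : 0 ≤ Real.log n := Real.log_nonneg (by exact_mod_cast hn)
    refine div_nonneg (Finset.sum_nonneg fun i _ => ?_) (by positivity)
    exact mul_nonneg (by positivity) (mx_nonneg B _ fun b => norm_nonneg _)
  have hφ : (0 : ℝ) ≤ 2 * B.card / q.totient := by positivity
  have h2 : (∑ n ∈ (Icc 2 (q * N)).filter (fun n => Nat.Coprime n q),
        |cn (Ds q B a) U n| * ‖Dn q s k (a * (un q n)⁻¹) n‖)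
      ≤ ∑ n ∈ (Icc 2 (q * N)).filter (fun n => Nat.Coprime n q),
        ((|cn (Ds q B a) U n| * ((if q < n ∧ a * (un q n)⁻¹ ∈ B then 1 else 0)
          + 2 * B.card / q.totient)) * F n
        + |cn (Ds q B a) U n| * (2 * bet S τ θ Y k n)) := by
    refine Finset.sum_le_sum fun n hn => ?_
    rw [Finset.mem_filter, Finset.mem_Icc] at hn
    obtain ⟨⟨hn2, hnN⟩, hcop⟩ := hn
    have hn1 : 1 ≤ n := by omega
    by_cases hB' : a * (un q n)⁻¹ ∈ B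
    · by_cases hqn : q < n
      · rw [if_pos ⟨hqn, hB'⟩]
        have h3 := Dn_le_mx q s hs B k n hn1 _ hB'
        have h4 : |cn (Ds q B a) U n| * ‖Dn q s k (a * (un q n)⁻¹) n‖
            ≤ |cn (Ds q B a) U n| * F n := mul_le_mul_of_nonneg_left h3 (abs_nonneg _)
        have h5 : 0 ≤ |cn (Ds q B a) U n| * (2 * bet S τ θ Y k n) :=
          mul_nonneg (abs_nonneg _) (by linarith [hbet n])
        have h6 : 0 ≤ |cn (Ds q B a) U n| * (2 * B.card / q.totient) * F n :=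
          mul_nonneg (mul_nonneg (abs_nonneg _) hφ) (hF0 n hn1)
        have h7 : |cn (Ds q B a) U n| * (1 + 2 * B.card / q.totient) * F n
            = |cn (Ds q B a) U n| * F n
              + |cn (Ds q B a) U n| * (2 * B.card / q.totient) * F n := by ring
        rw [h7]
        linarith
      · have hne : n ≠ q := by
          rintro rfl
          rw [Nat.coprime_self] at hcop
          omega
        have hRa : n ∈ Ra q B a := by
          unfold Ra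
          rw [Finset.mem_filter, Finset.mem_Icc]
          exact ⟨⟨hn2, by omega⟩, hcop, hB'⟩
        have h3 := cn_zero q B a U hU n hRa
        rw [h3]
        simp
    · rw [if_neg (fun h => hB' h.2)]
      have hkn : 12 * Real.log (n * X) ≤ k := by
        refine le_trans ?_ hkX
        have h3 : (n : ℝ) ≤ q * N := by exact_mod_cast hnN
        have h4 : (0 : ℝ) < n := by exact_mod_cast hn1
        have h5 : Real.log (n * X) ≤ Real.log (q * N * X) :=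
          Real.log_le_log (by positivity) (mul_le_mul_of_nonneg_right h3 (by linarith))
        linarith
      have h3 := Dn_off q s hs S (by linarith) hsS B hB X Y τ θ hX1 hXY hτ hθ hθ1 h k n hk hn1
        hkn _ hB' (F n) (hF0 n hn1) (fun b hb => Dn_le_mx q s hs B k n hn1 b hb)
      calc |cn (Ds q B a) U n| * ‖Dn q s k (a * (un q n)⁻¹) n‖
          ≤ |cn (Ds q B a) U n| * (2 * bet S τ θ Y k n + 2 * B.card / q.totient * F n) :=
            mul_le_mul_of_nonneg_left h3 (abs_nonneg _)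
        _ = |cn (Ds q B a) U n| * (0 + 2 * B.card / q.totient) * F n
            + |cn (Ds q B a) U n| * (2 * bet S τ θ Y k n) := by ring
  refine h2.trans ?_
  rw [Finset.sum_add_distrib]
  refine add_le_add le_rfl ?_
  refine Finset.sum_le_sum_of_subset_of_nonneg (Finset.filter_subset _ _) fun n _ _ => ?_
  exact mul_nonneg (abs_nonneg _) (by linarith [hbet n])

/-- A class outside `B`. -/
lemma off_step (q : ℕ) [NeZero q] (s : ℂ) (hs : s.re = 2) (S : ℝ) (hS1 : 1 ≤ S) (hS : ‖s‖ ≤ S)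
    (B : Finset (ZMod q)ˣ) (hB : 2 * (B.card : ℝ) ≤ q.totient) (X Y τ θ : ℝ) (hX : 1 ≤ X)
    (hXY : X ≤ Y) (hτ : 0 ≤ τ) (hθ : 1 / 2 ≤ θ) (hθ1 : θ ≤ 1)
    (h : ∀ c ∉ B, ∀ c' ∉ B, ∀ x : ℝ, X ≤ x → x ≤ Y → |psiU q c x - psiU q c' x| ≤ τ * x ^ θ)
    (k : ℕ) (hk : 1 ≤ k) (hkX : 12 * Real.log X ≤ k) (c : (ZMod q)ˣ) (hc : c ∉ B) :
    ‖Dk q s k c‖ ≤ 2 * bet S τ θ Y k 1
      + 2 * B.card / q.totient * mx B (fun b => ‖Dk q s k b‖) := by
  have h1 : 12 * Real.log (((1 : ℕ) : ℝ) * X) ≤ k := by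
    rw [Nat.cast_one, one_mul]
    exact hkX
  have h2 := Dn_off q s hs S hS1 hS B hB X Y τ θ hX hXY hτ hθ hθ1 h k 1 hk le_rfl h1 c hc
    (mx B (fun b => ‖Dk q s k b‖)) (mx_nonneg B _ fun b => norm_nonneg _)
    (fun b hb => by
      rw [Dn_one]
      exact le_mx B (fun b => ‖Dk q s k b‖) b hb)
  rw [Dn_one] at h2
  exact h2

end Pool.Agent.MY
end
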