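import Mathlib
import Pool.Agent.Lib.MP_9cfc0a_nt.MY.Defs
import Pool.Agent.Lib.MP_9cfc0a_nt.MY.A2
import Pool.Agent.Lib.MP_9cfc0a_nt.Mg.G023
import Pool.Agent.Lib.MP_9cfc0a_nt.Mg.G024

section

set_option autoImplicit false

namespace Pool.Agent.MY

open Complex Finset

/-- The weight of one `n`. -/
lemma R1_weight (θ ν ρ : ℝ) (hθ : 1 / 2 ≤ θ) (hν : 0 < ν) (hν2 : ν ≤ 1 / 2) (hρ2 : ρ ≤ 2 - θ)
    (n : ℕ) (hn : 1 ≤ n) :
    Real.exp (ρ * Real.log n / (1 - ν)) / (n : ℝ) ^ 2 ≤ (n : ℝ) ^ (-θ + 3 * ν) := by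
  have hn1 : (1 : ℝ) ≤ n := by exact_mod_cast hn
  have hn0 : (0 : ℝ) < n := by linarith
  have hν1 : 0 < 1 - ν := by linarith
  have h1 : Real.exp (ρ * Real.log n / (1 - ν)) = (n : ℝ) ^ (ρ / (1 - ν)) := by
    rw [Real.rpow_def_of_pos hn0]
    congr 1
    field_simp
  have h2 : ((n : ℝ) ^ 2) = (n : ℝ) ^ (2 : ℝ) := by
    rw [← Real.rpow_natCast]
    norm_num
  rw [h1, h2, ← Real.rpow_sub hn0]
  refine Real.rpow_le_rpow_of_exponent_le hn1 ?_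
  have h3 : ρ / (1 - ν) ≤ 2 - θ + 3 * ν := by
    rw [div_le_iff₀ hν1]
    nlinarith [mul_nonneg (by linarith : 0 ≤ θ - 1 / 2) hν.le, mul_nonneg hν.le (by linarith : 0 ≤ 1 / 2 - ν)]
  linarith

/-- R1. The solution of the recursion. -/
lemma recur (θ ν ρ : ℝ) (hθ : 1 / 2 ≤ θ) (hν : 0 < ν) (hν2 : ν ≤ 1 / 2) (hρ : 0 ≤ ρ)
    (hρ2 : ρ ≤ 2 - θ) (u : ℕ → ℝ)
    (hu : ∀ k, 0 ≤ u k) (k₁ k₃ : ℕ) (H T : ℝ) (hH : 0 ≤ H) (hT : 0 ≤ T)
    (h1 : ∀ k < k₁, u k ≤ H)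
    (h2 : ∀ k, k₁ ≤ k → k ≤ k₃ → ∃ (I : Finset ℕ) (w : ℕ → ℝ), (∀ n ∈ I, 1 ≤ n) ∧
      (∀ n ∈ I, 0 ≤ w n) ∧ ∑ n ∈ I, w n * (n : ℝ) ^ (-θ + 3 * ν) ≤ 1 / 2 ∧
      u k ≤ (∑ n ∈ I, w n * ((∑ i ∈ range (k + 1), (ρ * Real.log n) ^ i / (i.factorial : ℝ)
        * u (k - i)) / (n : ℝ) ^ 2)) + T) :
    ∀ k ≤ k₃, u k ≤ H * (1 - ν) ^ ((k : ℝ) - k₁) + 2 * T := by
  have hν1 : 0 < 1 - ν := by linarith
  intro k
  induction k using Nat.strong_induction_on with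
  | _ k ih =>
    intro hk3
    rcases Nat.lt_or_ge k k₁ with hk | hk
    · have h3 : (1 : ℝ) ≤ (1 - ν) ^ ((k : ℝ) - k₁) := by
        refine Real.one_le_rpow_of_pos_of_le_one_of_nonpos hν1 (by linarith) ?_
        have : (k : ℝ) ≤ k₁ := by exact_mod_cast hk.le
        linarith
      have h4 : H * 1 ≤ H * (1 - ν) ^ ((k : ℝ) - k₁) := mul_le_mul_of_nonneg_left h3 hH
      have h5 := h1 k hk
      linarith
    · obtain ⟨I, w, hI, hw, hS, hu2⟩ := h2 k hk hk3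
      set b : ℝ := (1 - ν) ^ ((k : ℝ) - k₁) with hb
      have hb0 : 0 < b := Real.rpow_pos_of_pos hν1 _
      set M : ℝ := H * b + 2 * T with hM
      have hM0 : 0 ≤ M := by positivity
      -- the terms with `i ≥ 1`
      have hterm : ∀ n ∈ I, (∑ i ∈ range (k + 1), (ρ * Real.log n) ^ i / (i.factorial : ℝ) * u (k - i))
          ≤ u k + (Real.exp (ρ * Real.log n / (1 - ν)) - 1) * M := by
        intro n hn
        have hn1 : (1 : ℝ) ≤ n := by exact_mod_cast hI n hn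
        have hx0 : 0 ≤ ρ * Real.log n := mul_nonneg hρ (Real.log_nonneg hn1)
        have hy0 : 0 ≤ ρ * Real.log n / (1 - ν) := div_nonneg hx0 hν1.le
        rw [Finset.sum_range_succ']
        have h6 : (ρ * Real.log n) ^ 0 / ((0 : ℕ).factorial : ℝ) * u (k - 0) = u k := by simp
        rw [h6]
        have h7 : ∀ i ∈ range k, (ρ * Real.log n) ^ (i + 1) / ((i + 1).factorial : ℝ) * u (k - (i + 1)) ≤
            (ρ * Real.log n / (1 - ν)) ^ (i + 1) / ((i + 1).factorial : ℝ) * M := by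
          intro i hi
          have hik : i < k := Finset.mem_range.1 hi
          have h8 := ih (k - (i + 1)) (by omega) (by omega)
          have h9 : ((k - (i + 1) : ℕ) : ℝ) = (k : ℝ) - ((i + 1 : ℕ) : ℝ) := by
            rw [Nat.cast_sub (by omega)]
          have h10 : (1 - ν) ^ (((k - (i + 1) : ℕ) : ℝ) - k₁) = b * ((1 - ν) ^ (i + 1))⁻¹ := by
            rw [h9, hb, ← Real.rpow_natCast (1 - ν) (i + 1), ← Real.rpow_neg hν1.le,
              ← Real.rpow_add hν1]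
            congr 1
            ring
          rw [h10] at h8
          have hp0 : 0 < (1 - ν) ^ (i + 1) := by positivity
          have hp1 : (1 - ν) ^ (i + 1) ≤ 1 := pow_le_one₀ hν1.le (by linarith)
          have h11 : u (k - (i + 1)) * (1 - ν) ^ (i + 1) ≤ M := by
            have h12 : u (k - (i + 1)) * (1 - ν) ^ (i + 1) ≤
                (H * (b * ((1 - ν) ^ (i + 1))⁻¹) + 2 * T) * (1 - ν) ^ (i + 1) :=
              mul_le_mul_of_nonneg_right h8 hp0.le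
            have h13 : (H * (b * ((1 - ν) ^ (i + 1))⁻¹) + 2 * T) * (1 - ν) ^ (i + 1) =
                H * b + 2 * T * (1 - ν) ^ (i + 1) := by
              field_simp
            have h14 : 2 * T * (1 - ν) ^ (i + 1) ≤ 2 * T * 1 :=
              mul_le_mul_of_nonneg_left hp1 (by linarith)
            linarith
          have hf0 : (0 : ℝ) < ((i + 1).factorial : ℝ) := by exact_mod_cast Nat.factorial_pos _
          have h15 : (ρ * Real.log n) ^ (i + 1) =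
              (ρ * Real.log n / (1 - ν)) ^ (i + 1) * (1 - ν) ^ (i + 1) := by
            rw [← mul_pow]
            congr 1
            field_simp
          calc (ρ * Real.log n) ^ (i + 1) / ((i + 1).factorial : ℝ) * u (k - (i + 1))
              = (ρ * Real.log n / (1 - ν)) ^ (i + 1) / ((i + 1).factorial : ℝ) *
                  (u (k - (i + 1)) * (1 - ν) ^ (i + 1)) := by
                rw [h15]
                ring
            _ ≤ _ := mul_le_mul_of_nonneg_left h11 (by positivity)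
        have h16 := Finset.sum_le_sum h7
        rw [← Finset.sum_mul] at h16
        have h17 : ∑ i ∈ range k, (ρ * Real.log n / (1 - ν)) ^ (i + 1) / ((i + 1).factorial : ℝ) ≤
            Real.exp (ρ * Real.log n / (1 - ν)) - 1 := by
          have h18 := Real.sum_le_exp_of_nonneg hy0 (k + 1)
          rw [Finset.sum_range_succ'] at h18
          simp only [pow_zero, Nat.factorial_zero, Nat.cast_one, div_one] at h18
          linarith
        have h19 := mul_le_mul_of_nonneg_right h17 hM0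
        linarith
      set a : ℝ := ∑ n ∈ I, w n * (1 / (n : ℝ) ^ 2) with ha
      set S : ℝ := ∑ n ∈ I, w n * (Real.exp (ρ * Real.log n / (1 - ν)) / (n : ℝ) ^ 2) with hSdef
      have hS1 : S ≤ 1 / 2 := by
        refine le_trans (Finset.sum_le_sum fun n hn => ?_) hS
        exact mul_le_mul_of_nonneg_left (R1_weight θ ν ρ hθ hν hν2 hρ2 n (hI n hn)) (hw n hn)
      have haS : a ≤ S := by
        refine Finset.sum_le_sum fun n hn => mul_le_mul_of_nonneg_left ?_ (hw n hn)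
        have hn1 : (1 : ℝ) ≤ n := by exact_mod_cast hI n hn
        refine div_le_div_of_nonneg_right ?_ (by positivity)
        exact Real.one_le_exp (div_nonneg (mul_nonneg hρ (Real.log_nonneg hn1)) hν1.le)
      have hsum : (∑ n ∈ I, w n * ((∑ i ∈ range (k + 1), (ρ * Real.log n) ^ i / (i.factorial : ℝ)
          * u (k - i)) / (n : ℝ) ^ 2)) ≤ a * u k + (S - a) * M := by
        have h20 : a * u k + (S - a) * M = ∑ n ∈ I, w n *
            ((u k + (Real.exp (ρ * Real.log n / (1 - ν)) - 1) * M) / (n : ℝ) ^ 2) := by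
          rw [ha, hSdef, Finset.sum_mul, ← Finset.sum_sub_distrib, Finset.sum_mul,
            ← Finset.sum_add_distrib]
          refine Finset.sum_congr rfl fun n hn => ?_
          ring
        rw [h20]
        refine Finset.sum_le_sum fun n hn => mul_le_mul_of_nonneg_left ?_ (hw n hn)
        exact div_le_div_of_nonneg_right (hterm n hn) (by positivity)
      have hfin : u k ≤ a * u k + (S - a) * M + T := hu2.trans (by linarith)
      have h21 : (1 - a) * u k ≤ (1 - a) * M := by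
        have h22 : (1 - S) * M ≥ T := by
          have h23 : 0 ≤ H * b := by positivity
          nlinarith
        nlinarith
      have h24 : 0 < 1 - a := by linarith
      exact le_of_mul_le_mul_left h21 h24

end Pool.Agent.MY
end

section

set_option autoImplicit false

namespace Pool.Agent.MY

open Complex Finset

/-- `psiU` and `EM.psi`. -/
lemma psiU_eq (q a : ℕ) [NeZero q] (ha : Nat.Coprime a q) (x : ℝ) :
    psiU q (un q a) x = EM.psi x q a := by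
  unfold psiU EM.psi
  rw [un_coe q a ha]
  refine sum_congr ?_ fun _ _ => rfl
  refine filter_congr fun n _ => ?_
  exact ZMod.natCast_eq_natCast_iff' n a q

/-- Every class is the class of a unique `1 ≤ a ≤ q`. -/
lemma exists_rep (q : ℕ) [NeZero q] (c : (ZMod q)ˣ) :
    ∃ a : ℕ, 1 ≤ a ∧ a ≤ q ∧ Nat.Coprime a q ∧ un q a = c := by
  have hq : 0 < q := Nat.pos_of_ne_zero (NeZero.ne q)
  by_cases h0 : (c : ZMod q).val = 0
  · refine ⟨q, hq, le_rfl, ?_, ?_⟩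
    · have h1 := ZMod.val_coe_unit_coprime c
      rw [h0] at h1
      rw [Nat.coprime_zero_left] at h1
      rw [h1]
      exact Nat.coprime_one_right 1
    · have h1 := ZMod.val_coe_unit_coprime c
      rw [h0, Nat.coprime_zero_left] at h1
      subst h1
      exact Subsingleton.elim _ _
  · refine ⟨(c : ZMod q).val, Nat.one_le_iff_ne_zero.mpr h0, (ZMod.val_lt _).le,
      ZMod.val_coe_unit_coprime c, ?_⟩
    refine Units.ext ?_
    rw [un_coe q _ (ZMod.val_coe_unit_coprime c), ZMod.natCast_zmod_val]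

end Pool.Agent.MY
end

section

set_option autoImplicit false

namespace Pool.Agent.MZ

open Complex Finset MY

lemma R1_gi_sum (s : ℂ) (hs : s.re = 2) (k n : ℕ) (hn : 1 ≤ n) :
    ∑ i ∈ range (k + 1), ‖gi s i (n : ℝ)‖ * (2 / 3 : ℝ) ^ (k - i)
      ≤ (2 / 3 : ℝ) ^ k * (n : ℝ) ^ (-(1 / 2) : ℝ) := by
  have hn1 : (1 : ℝ) ≤ (n : ℝ) := by exact_mod_cast hn
  have hn0 : (0 : ℝ) < (n : ℝ) := by linarith
  have hl : 0 ≤ Real.log (n : ℝ) := Real.log_nonneg hn1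
  have h1 : ∀ i ∈ range (k + 1), ‖gi s i (n : ℝ)‖ * (2 / 3 : ℝ) ^ (k - i)
      = (2 / 3 : ℝ) ^ k / (n : ℝ) ^ 2 *
        ((3 / 2 * Real.log (n : ℝ)) ^ i / (i.factorial : ℝ)) := by
    intro i hi
    have hik : i ≤ k := Nat.lt_succ_iff.mp (mem_range.mp hi)
    rw [gi_norm s hs i (n : ℝ) hn1]
    have h2 : (2 / 3 : ℝ) ^ k = (2 / 3 : ℝ) ^ (k - i) * (2 / 3 : ℝ) ^ i := by
      rw [← pow_add, Nat.sub_add_cancel hik]
    have h3 : (2 / 3 : ℝ) ^ i * (3 / 2 : ℝ) ^ i = 1 := by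
      rw [← mul_pow]; norm_num
    rw [h2, mul_pow]
    have h4 : (2 / 3 : ℝ) ^ (k - i) * (2 / 3 : ℝ) ^ i / (n : ℝ) ^ 2
        * ((3 / 2 : ℝ) ^ i * Real.log (n : ℝ) ^ i / (i.factorial : ℝ))
        = (2 / 3 : ℝ) ^ (k - i) * ((2 / 3 : ℝ) ^ i * (3 / 2 : ℝ) ^ i)
          * Real.log (n : ℝ) ^ i / (i.factorial : ℝ) / (n : ℝ) ^ 2 := by
      field_simp
    rw [h4, h3]
    ring
  rw [sum_congr rfl h1, ← mul_sum]
  have h5 : ∑ i ∈ range (k + 1), (3 / 2 * Real.log (n : ℝ)) ^ i / (i.factorial : ℝ)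
      ≤ Real.exp (3 / 2 * Real.log (n : ℝ)) :=
    Real.sum_le_exp_of_nonneg (by positivity) (k + 1)
  have h6 : Real.exp (3 / 2 * Real.log (n : ℝ)) = (n : ℝ) ^ (3 / 2 : ℝ) := by
    rw [Real.rpow_def_of_pos hn0, mul_comm]
  have h7 : (n : ℝ) ^ (3 / 2 : ℝ) / (n : ℝ) ^ 2 = (n : ℝ) ^ (-(1 / 2) : ℝ) := by
    rw [← Real.rpow_natCast, ← Real.rpow_sub hn0]
    norm_num
  calc (2 / 3 : ℝ) ^ k / (n : ℝ) ^ 2 *
        ∑ i ∈ range (k + 1), (3 / 2 * Real.log (n : ℝ)) ^ i / (i.factorial : ℝ)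
      ≤ (2 / 3 : ℝ) ^ k / (n : ℝ) ^ 2 * (n : ℝ) ^ (3 / 2 : ℝ) := by
        refine mul_le_mul_of_nonneg_left (h5.trans h6.le) (by positivity)
    _ = (2 / 3 : ℝ) ^ k * ((n : ℝ) ^ (3 / 2 : ℝ) / (n : ℝ) ^ 2) := by ring
    _ = (2 / 3 : ℝ) ^ k * (n : ℝ) ^ (-(1 / 2) : ℝ) := by rw [h7]

lemma R1_sumB {q : ℕ} [NeZero q] (B : Finset (ZMod q)ˣ) (f : (ZMod q)ˣ → ℂ) (M : ℝ) (hM : 0 ≤ M)
    (h : ∑ a, ‖f a‖ ^ 2 ≤ M ^ 2) :
    ‖∑ a ∈ B, f a‖ ≤ (B.card : ℝ) ^ (1 / 2 : ℝ) * M := by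
  have h1 : ‖∑ a ∈ B, f a‖ ≤ ∑ a ∈ B, ‖f a‖ := norm_sum_le _ _
  have h2 : (∑ a ∈ B, ‖f a‖) ^ 2 ≤ (B.card : ℝ) * ∑ a ∈ B, ‖f a‖ ^ 2 :=
    sq_sum_le_card_mul_sum_sq
  have h3 : ∑ a ∈ B, ‖f a‖ ^ 2 ≤ ∑ a, ‖f a‖ ^ 2 :=
    sum_le_sum_of_subset_of_nonneg (subset_univ _) (fun _ _ _ => by positivity)
  have h4 : (∑ a ∈ B, ‖f a‖) ^ 2 ≤ ((B.card : ℝ) ^ (1 / 2 : ℝ) * M) ^ 2 := by
    have hc : (0 : ℝ) ≤ (B.card : ℝ) := Nat.cast_nonneg _
    have h5 : ((B.card : ℝ) ^ (1 / 2 : ℝ) * M) ^ 2 = (B.card : ℝ) * M ^ 2 := by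
      rw [mul_pow, ← Real.sqrt_eq_rpow, Real.sq_sqrt hc]
    rw [h5]
    exact h2.trans (mul_le_mul_of_nonneg_left (h3.trans h) hc)
  exact h1.trans (le_of_sq_le_sq h4 (by positivity))

/-- R1. The mean outside `B` is minus the sum over `B`. -/
lemma mean_bound (q : ℕ) [NeZero q] (s : ℂ) (hs : s.re = 2) (B : Finset (ZMod q)ˣ)
    (hB : 4 * (B.card : ℝ) ≤ q.totient) (MD : ℝ) (hM : 0 ≤ MD) (k n : ℕ) (hn : 1 ≤ n)
    (hD : ∀ j ≤ k, ∑ a, ‖Dk q s j a‖ ^ 2 ≤ (MD * (2 / 3 : ℝ) ^ j) ^ 2) :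
    ‖(∑ c' ∈ Bᶜ, Dn q s k c' n) / ((Bᶜ).card : ℂ)‖
      ≤ 2 * (B.card : ℝ) ^ (1 / 2 : ℝ) / q.totient * MD * (2 / 3 : ℝ) ^ k
        * (n : ℝ) ^ (-(1 / 2) : ℝ) := by
  have hphi : 0 < (q.totient : ℝ) := by
    exact_mod_cast Nat.totient_pos.mpr (Nat.pos_of_ne_zero (NeZero.ne q))
  have hsum : ∑ c' ∈ Bᶜ, Dn q s k c' n = - ∑ c' ∈ B, Dn q s k c' n := by
    have h := sum_Dn q s k n
    rw [← sum_add_sum_compl B] at h
    exact (neg_eq_of_add_eq_zero_right h).symm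
  have hcard : (q.totient : ℝ) / 2 ≤ ((Bᶜ).card : ℝ) := by
    have h1 : ((Bᶜ).card : ℝ) = (q.totient : ℝ) - (B.card : ℝ) := by
      have h2 : B.card + (Bᶜ).card = Fintype.card (ZMod q)ˣ := card_add_card_compl B
      rw [ZMod.card_units_eq_totient] at h2
      have h3 : (B.card : ℝ) + ((Bᶜ).card : ℝ) = (q.totient : ℝ) := by exact_mod_cast h2
      linarith
    rw [h1]
    linarith [Nat.cast_nonneg (α := ℝ) B.card]
  have hmain : ‖∑ c' ∈ B, Dn q s k c' n‖ ≤ (B.card : ℝ) ^ (1 / 2 : ℝ) * MD *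
      ((2 / 3 : ℝ) ^ k * (n : ℝ) ^ (-(1 / 2) : ℝ)) := by
    have h1 : ∑ c' ∈ B, Dn q s k c' n
        = ∑ i ∈ range (k + 1), gi s i n * ∑ c' ∈ B, Dk q s (k - i) c' := by
      unfold Dn
      rw [sum_comm]
      exact sum_congr rfl fun i _ => (mul_sum _ _ _).symm
    rw [h1]
    calc ‖∑ i ∈ range (k + 1), gi s i n * ∑ c' ∈ B, Dk q s (k - i) c'‖
        ≤ ∑ i ∈ range (k + 1), ‖gi s i n * ∑ c' ∈ B, Dk q s (k - i) c'‖ := norm_sum_le _ _
      _ ≤ ∑ i ∈ range (k + 1), (B.card : ℝ) ^ (1 / 2 : ℝ) * MD *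
            (‖gi s i (n : ℝ)‖ * (2 / 3 : ℝ) ^ (k - i)) := by
          refine sum_le_sum fun i hi => ?_
          rw [norm_mul]
          have h2 := R1_sumB B (fun a => Dk q s (k - i) a) (MD * (2 / 3 : ℝ) ^ (k - i))
            (by positivity) (hD (k - i) (Nat.sub_le k i))
          calc ‖gi s i (n : ℝ)‖ * ‖∑ c' ∈ B, Dk q s (k - i) c'‖
              ≤ ‖gi s i (n : ℝ)‖ * ((B.card : ℝ) ^ (1 / 2 : ℝ) *
                  (MD * (2 / 3 : ℝ) ^ (k - i))) :=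
                mul_le_mul_of_nonneg_left h2 (norm_nonneg _)
            _ = (B.card : ℝ) ^ (1 / 2 : ℝ) * MD *
                  (‖gi s i (n : ℝ)‖ * (2 / 3 : ℝ) ^ (k - i)) := by ring
      _ = (B.card : ℝ) ^ (1 / 2 : ℝ) * MD *
            ∑ i ∈ range (k + 1), (‖gi s i (n : ℝ)‖ * (2 / 3 : ℝ) ^ (k - i)) := by
          rw [mul_sum]
      _ ≤ _ := mul_le_mul_of_nonneg_left (R1_gi_sum s hs k n hn) (by positivity)
  rw [hsum, norm_div, norm_neg, Complex.norm_natCast]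
  have hcpos : 0 < ((Bᶜ).card : ℝ) := by linarith
  rw [div_le_iff₀ hcpos]
  refine hmain.trans ?_
  have h0 : 0 ≤ (B.card : ℝ) ^ (1 / 2 : ℝ) * MD *
      ((2 / 3 : ℝ) ^ k * (n : ℝ) ^ (-(1 / 2) : ℝ)) := by positivity
  calc (B.card : ℝ) ^ (1 / 2 : ℝ) * MD * ((2 / 3 : ℝ) ^ k * (n : ℝ) ^ (-(1 / 2) : ℝ))
      = (2 * (B.card : ℝ) ^ (1 / 2 : ℝ) / q.totient * MD * (2 / 3 : ℝ) ^ k
        * (n : ℝ) ^ (-(1 / 2) : ℝ)) * ((q.totient : ℝ) / 2) := by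
        field_simp
    _ ≤ (2 * (B.card : ℝ) ^ (1 / 2 : ℝ) / q.totient * MD * (2 / 3 : ℝ) ^ k
        * (n : ℝ) ^ (-(1 / 2) : ℝ)) * ((Bᶜ).card : ℝ) :=
        mul_le_mul_of_nonneg_left hcard (by positivity)

end Pool.Agent.MZ
end

section

set_option autoImplicit false

namespace Pool.Agent.MW

open Complex Finset MY MZ

lemma A14_G_sum (θ : ℝ) (hθ1 : θ < 1) (k n : ℕ) (hn : 1 ≤ n) :
    ∑ i ∈ range (k + 1), ((2 - θ) * Real.log (n : ℝ)) ^ i / (i.factorial : ℝ) / (n : ℝ) ^ 2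
      ≤ (n : ℝ) ^ (-θ) := by
  have hn1 : (1 : ℝ) ≤ (n : ℝ) := by exact_mod_cast hn
  have hn0 : (0 : ℝ) < (n : ℝ) := by linarith
  have hl : 0 ≤ Real.log (n : ℝ) := Real.log_nonneg hn1
  have h0 : 0 ≤ (2 - θ) * Real.log (n : ℝ) := mul_nonneg (by linarith) hl
  rw [← sum_div]
  have h5 : ∑ i ∈ range (k + 1), ((2 - θ) * Real.log (n : ℝ)) ^ i / (i.factorial : ℝ)
      ≤ Real.exp ((2 - θ) * Real.log (n : ℝ)) := Real.sum_le_exp_of_nonneg h0 (k + 1)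
  have h6 : Real.exp ((2 - θ) * Real.log (n : ℝ)) = (n : ℝ) ^ (2 - θ) := by
    rw [Real.rpow_def_of_pos hn0, mul_comm]
  have h7 : (n : ℝ) ^ (2 - θ) / (n : ℝ) ^ 2 = (n : ℝ) ^ (-θ) := by
    rw [← Real.rpow_natCast, ← Real.rpow_sub hn0]
    congr 1
    push_cast
    ring
  rw [← h7, ← h6]
  gcongr

lemma A14_sumB {q : ℕ} [NeZero q] (B : Finset (ZMod q)ˣ) (s : ℂ) (θ : ℝ) (hθ1 : θ < 1) (j : ℕ) :
    ‖∑ a ∈ B, Dk q s j a‖ ≤ (B.card : ℝ) ^ (1 / 2 : ℝ) *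
      (((2 - θ)⁻¹) ^ j * Real.sqrt (uB q θ B s j)) := by
  have hρ : 0 < 2 - θ := by linarith
  have h1 : ‖∑ a ∈ B, Dk q s j a‖ ≤ ∑ a ∈ B, ‖Dk q s j a‖ := norm_sum_le _ _
  have h2 : (∑ a ∈ B, ‖Dk q s j a‖) ^ 2 ≤ (B.card : ℝ) * ∑ a ∈ B, ‖Dk q s j a‖ ^ 2 :=
    sq_sum_le_card_mul_sum_sq
  have hu0 : 0 ≤ uB q θ B s j := by
    unfold uB
    exact sum_nonneg fun _ _ => by positivity
  have hu : ∑ a ∈ B, ‖Dk q s j a‖ ^ 2 = (((2 - θ)⁻¹) ^ j) ^ 2 * uB q θ B s j := by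
    unfold uB
    rw [mul_sum]
    refine sum_congr rfl fun a _ => ?_
    rw [mul_pow]
    have h3 : (((2 - θ)⁻¹) ^ j) ^ 2 * ((2 - θ) ^ j) ^ 2 = 1 := by
      rw [← mul_pow, ← mul_pow, inv_mul_cancel₀ hρ.ne', one_pow, one_pow]
    calc ‖Dk q s j a‖ ^ 2 = ‖Dk q s j a‖ ^ 2 * ((((2 - θ)⁻¹) ^ j) ^ 2 * ((2 - θ) ^ j) ^ 2) := by
          rw [h3, mul_one]
      _ = _ := by ring
  have h4 : (∑ a ∈ B, ‖Dk q s j a‖) ^ 2 ≤ ((B.card : ℝ) ^ (1 / 2 : ℝ) *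
      (((2 - θ)⁻¹) ^ j * Real.sqrt (uB q θ B s j))) ^ 2 := by
    have hc : (0 : ℝ) ≤ (B.card : ℝ) := Nat.cast_nonneg _
    have h5 : ((B.card : ℝ) ^ (1 / 2 : ℝ) * (((2 - θ)⁻¹) ^ j * Real.sqrt (uB q θ B s j))) ^ 2
        = (B.card : ℝ) * ∑ a ∈ B, ‖Dk q s j a‖ ^ 2 := by
      rw [hu, mul_pow, mul_pow, ← Real.sqrt_eq_rpow, Real.sq_sqrt hc, Real.sq_sqrt hu0]
    rw [h5]
    exact h2
  exact h1.trans (le_of_sq_le_sq h4 (by positivity))

/-- A14. The mean outside `B` is minus the sum over `B`. -/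
lemma mean_bound (q : ℕ) [NeZero q] (s : ℂ) (hs : s.re = 2) (θ : ℝ) (hθ : 1 / 2 ≤ θ) (hθ1 : θ < 1)
    (B : Finset (ZMod q)ˣ)
    (hB : 4 * (B.card : ℝ) ≤ q.totient) (M : ℕ) (k n : ℕ) (hn : 1 ≤ n) (hnM : n ≤ M) :
    ‖(∑ c' ∈ Bᶜ, Dn q s k c' n) / ((Bᶜ).card : ℂ)‖
      ≤ 2 * (B.card : ℝ) ^ (1 / 2 : ℝ) / q.totient * ((2 - θ)⁻¹) ^ k
        * (n : ℝ) ^ (-θ) * Real.sqrt (sB q θ B s ⌈40 * Real.log M⌉₊ k) := by
  have hρ : 0 < 2 - θ := by linarith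
  have hM : 1 ≤ M := hn.trans hnM
  have hn1 : (1 : ℝ) ≤ (n : ℝ) := by exact_mod_cast hn
  have hn0 : (0 : ℝ) < (n : ℝ) := by linarith
  have hl : 0 ≤ Real.log (n : ℝ) := Real.log_nonneg hn1
  have hphi : 0 < (q.totient : ℝ) := by
    exact_mod_cast Nat.totient_pos.mpr (Nat.pos_of_ne_zero (NeZero.ne q))
  have hsum : ∑ c' ∈ Bᶜ, Dn q s k c' n = - ∑ c' ∈ B, Dn q s k c' n := by
    have h := sum_Dn q s k n
    rw [← sum_add_sum_compl B] at h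
    exact (neg_eq_of_add_eq_zero_right h).symm
  have hcard : (q.totient : ℝ) / 2 ≤ ((Bᶜ).card : ℝ) := by
    have h1 : ((Bᶜ).card : ℝ) = (q.totient : ℝ) - (B.card : ℝ) := by
      have h2 : B.card + (Bᶜ).card = Fintype.card (ZMod q)ˣ := card_add_card_compl B
      rw [ZMod.card_units_eq_totient] at h2
      have h3 : (B.card : ℝ) + ((Bᶜ).card : ℝ) = (q.totient : ℝ) := by exact_mod_cast h2
      linarith
    rw [h1]
    linarith [Nat.cast_nonneg (α := ℝ) B.card]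
  set I₀ := ⌈40 * Real.log M⌉₊ with hI₀
  set G : ℕ → ℝ := fun i => ((2 - θ) * Real.log (n : ℝ)) ^ i / (i.factorial : ℝ) / (n : ℝ) ^ 2
    with hG
  set u : ℕ → ℝ := fun j => uB q θ B s j with hu
  have hu0 : ∀ j, 0 ≤ u j := fun j => by
    simp only [hu]
    unfold uB
    exact sum_nonneg fun _ _ => by positivity
  have hG0 : ∀ i, 0 ≤ G i := fun i => by
    simp only [hG]
    have : 0 ≤ (2 - θ) * Real.log (n : ℝ) := mul_nonneg hρ.le hl
    positivity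
  have hGs : ∑ i ∈ range (k + 1), G i ≤ (n : ℝ) ^ (-θ) := A14_G_sum θ hθ1 k n hn
  have hnθ : 0 ≤ (n : ℝ) ^ (-θ) := Real.rpow_nonneg hn0.le _
  -- Cauchy-Schwarz
  have hCS : ∑ i ∈ range (k + 1), G i * Real.sqrt (u (k - i))
      ≤ (n : ℝ) ^ (-θ) * Real.sqrt (sB q θ B s I₀ k) := by
    have h1 : (∑ i ∈ range (k + 1), G i * Real.sqrt (u (k - i))) ^ 2
        ≤ (∑ i ∈ range (k + 1), G i) * ∑ i ∈ range (k + 1), G i * u (k - i) := by
      have h2 := sum_mul_sq_le_sq_mul_sq (range (k + 1)) (fun i => Real.sqrt (G i))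
        (fun i => Real.sqrt (G i) * Real.sqrt (u (k - i)))
      have h3 : ∀ i, Real.sqrt (G i) * (Real.sqrt (G i) * Real.sqrt (u (k - i)))
          = G i * Real.sqrt (u (k - i)) := fun i => by
        rw [← mul_assoc, Real.mul_self_sqrt (hG0 i)]
      have h4 : ∀ i, Real.sqrt (G i) ^ 2 = G i := fun i => Real.sq_sqrt (hG0 i)
      have h5 : ∀ i, (Real.sqrt (G i) * Real.sqrt (u (k - i))) ^ 2 = G i * u (k - i) := fun i => by
        rw [mul_pow, Real.sq_sqrt (hG0 i), Real.sq_sqrt (hu0 _)]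
      simp only [h3, h4, h5] at h2
      exact h2
    have h6 : ∑ i ∈ range (k + 1), G i * u (k - i) ≤ (n : ℝ) ^ (-θ) * sB q θ B s I₀ k := by
      unfold sB
      rw [mul_sum]
      refine sum_le_sum fun i _ => ?_
      have h7 : G i ≤ gam I₀ i * (n : ℝ) ^ (-θ) := gam_le θ hθ hθ1 M hM i n hn hnM
      calc G i * u (k - i) ≤ (gam I₀ i * (n : ℝ) ^ (-θ)) * u (k - i) :=
            mul_le_mul_of_nonneg_right h7 (hu0 _)
        _ = _ := by ring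
    have h8 : 0 ≤ ∑ i ∈ range (k + 1), G i * u (k - i) :=
      sum_nonneg fun i _ => mul_nonneg (hG0 i) (hu0 _)
    have h9 : (∑ i ∈ range (k + 1), G i * Real.sqrt (u (k - i))) ^ 2
        ≤ (n : ℝ) ^ (-θ) * ((n : ℝ) ^ (-θ) * sB q θ B s I₀ k) :=
      h1.trans (mul_le_mul hGs h6 h8 hnθ)
    have hs0 : 0 ≤ sB q θ B s I₀ k := by
      unfold sB
      refine sum_nonneg fun i _ => mul_nonneg ?_ (hu0 _)
      unfold gam
      split_ifs <;> positivity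
    refine le_of_sq_le_sq (h9.trans (le_of_eq ?_)) (by positivity)
    rw [mul_pow, Real.sq_sqrt hs0]
    ring
  have hmain : ‖∑ c' ∈ B, Dn q s k c' n‖ ≤ (B.card : ℝ) ^ (1 / 2 : ℝ) *
      (((2 - θ)⁻¹) ^ k * ((n : ℝ) ^ (-θ) * Real.sqrt (sB q θ B s I₀ k))) := by
    have h1 : ∑ c' ∈ B, Dn q s k c' n
        = ∑ i ∈ range (k + 1), gi s i n * ∑ c' ∈ B, Dk q s (k - i) c' := by
      unfold Dn
      rw [sum_comm]
      exact sum_congr rfl fun i _ => (mul_sum _ _ _).symm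
    rw [h1]
    calc ‖∑ i ∈ range (k + 1), gi s i n * ∑ c' ∈ B, Dk q s (k - i) c'‖
        ≤ ∑ i ∈ range (k + 1), ‖gi s i n * ∑ c' ∈ B, Dk q s (k - i) c'‖ := norm_sum_le _ _
      _ ≤ ∑ i ∈ range (k + 1), (B.card : ℝ) ^ (1 / 2 : ℝ) * (((2 - θ)⁻¹) ^ k *
            (G i * Real.sqrt (u (k - i)))) := by
          refine sum_le_sum fun i hi => ?_
          have hik : i ≤ k := Nat.lt_succ_iff.mp (mem_range.mp hi)
          rw [norm_mul]
          have h2 := A14_sumB B s θ hθ1 (k - i)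
          have h3 : ‖gi s i (n : ℝ)‖ * ((2 - θ)⁻¹) ^ (k - i) = ((2 - θ)⁻¹) ^ k * G i := by
            rw [gi_norm s hs i (n : ℝ) hn1]
            simp only [hG]
            have h4 : ((2 - θ)⁻¹) ^ k = ((2 - θ)⁻¹) ^ (k - i) * ((2 - θ)⁻¹) ^ i := by
              rw [← pow_add, Nat.sub_add_cancel hik]
            have h5 : ((2 - θ)⁻¹) ^ i * (2 - θ) ^ i = 1 := by
              rw [← mul_pow, inv_mul_cancel₀ hρ.ne', one_pow]
            rw [h4, mul_pow]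
            calc _ = (((2 - θ)⁻¹) ^ (k - i)) * 1 * (Real.log (n : ℝ) ^ i / (i.factorial : ℝ)
                  / (n : ℝ) ^ 2) := by ring
              _ = (((2 - θ)⁻¹) ^ (k - i)) * (((2 - θ)⁻¹) ^ i * (2 - θ) ^ i) *
                  (Real.log (n : ℝ) ^ i / (i.factorial : ℝ) / (n : ℝ) ^ 2) := by rw [h5]
              _ = _ := by ring
          calc ‖gi s i (n : ℝ)‖ * ‖∑ c' ∈ B, Dk q s (k - i) c'‖
              ≤ ‖gi s i (n : ℝ)‖ * ((B.card : ℝ) ^ (1 / 2 : ℝ) *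
                  (((2 - θ)⁻¹) ^ (k - i) * Real.sqrt (uB q θ B s (k - i)))) :=
                mul_le_mul_of_nonneg_left h2 (norm_nonneg _)
            _ = (B.card : ℝ) ^ (1 / 2 : ℝ) * ((‖gi s i (n : ℝ)‖ * ((2 - θ)⁻¹) ^ (k - i)) *
                  Real.sqrt (u (k - i))) := by ring
            _ = _ := by rw [h3]; ring
      _ = (B.card : ℝ) ^ (1 / 2 : ℝ) * (((2 - θ)⁻¹) ^ k *
            ∑ i ∈ range (k + 1), G i * Real.sqrt (u (k - i))) := by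
          rw [mul_sum, mul_sum]
      _ ≤ _ := by
          have : 0 ≤ ((2 - θ)⁻¹) ^ k := by positivity
          gcongr
  rw [hsum, norm_div, norm_neg, Complex.norm_natCast]
  have hcpos : 0 < ((Bᶜ).card : ℝ) := by linarith
  rw [div_le_iff₀ hcpos]
  refine hmain.trans ?_
  have h00 : 0 ≤ (2 - θ)⁻¹ := by positivity
  calc (B.card : ℝ) ^ (1 / 2 : ℝ) *
        (((2 - θ)⁻¹) ^ k * ((n : ℝ) ^ (-θ) * Real.sqrt (sB q θ B s I₀ k)))
      = (2 * (B.card : ℝ) ^ (1 / 2 : ℝ) / q.totient * ((2 - θ)⁻¹) ^ k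
        * (n : ℝ) ^ (-θ) * Real.sqrt (sB q θ B s I₀ k)) * ((q.totient : ℝ) / 2) := by
        field_simp
    _ ≤ _ := mul_le_mul_of_nonneg_left hcard (by positivity)

end Pool.Agent.MW
end
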