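import Mathlib
import Pool.Agent.Lib.MP_9cfc0a_nt.MY.Defs
import Pool.Agent.Lib.MP_9cfc0a_nt.EMLfun
import Pool.Agent.Lib.MP_9cfc0a_nt.Mg.G027
import Pool.Agent.Lib.MP_9cfc0a_nt.MY.G4
import Pool.Agent.Lib.MP_9cfc0a_nt.Mg.G029
import Pool.Agent.Lib.MP_9cfc0a_nt.Mg.G023
import Pool.Agent.Lib.MP_9cfc0a_nt.MY.A2
import Pool.Agent.Lib.MP_9cfc0a_nt.EMZeros

section

set_option autoImplicit false

namespace Pool.Agent.MY

open Complex Finset

/-- The numerical contradiction. -/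
lemma G5_contra {C q r ρ η K' D t : ℝ} {k m : ℕ} (hC : 0 ≤ C) (hq1 : 1 < q) (hr0 : 0 < r)
    (hρr : r < ρ) (hρ2 : ρ ≤ 3 / 2) (hη0 : 0 < η) (hη : 2 * η = Real.log (ρ / r))
    (hK' : C + 8 ≤ η * K') (hm1 : K' * Real.log q ≤ m) (hk1 : m ≤ k + 1) (hD : 0 ≤ D)
    (hq16 : 16 + D ≤ q)
    (ht : t ≤ q ^ (C + 4) * (1 / ρ) ^ k + 15 * Real.log q * (10 / 19 : ℝ) ^ k)
    (h : Real.exp (-(η * m)) ≤ r ^ (k + 1) * (t + D * (10 / 17 : ℝ) ^ k)) : False := by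
  have hq0 : 0 < q := by linarith
  have hρ0 : 0 < ρ := by linarith
  obtain ⟨lam, hlam⟩ : ∃ lam : ℝ, lam = ρ / r := ⟨_, rfl⟩
  have hlam1 : 1 < lam := by rw [hlam, one_lt_div hr0]; exact hρr
  have hlam0 : 0 < lam := by linarith
  have hlogl : Real.log lam = 2 * η := by rw [hlam, hη]
  have hk1R : (m : ℝ) ≤ k + 1 := by exact_mod_cast hk1
  have hρk : 0 < ρ ^ k := by positivity
  have hρinv : (0 : ℝ) < 1 / ρ := by positivity
  have hp19 : (10 / 19 : ℝ) ^ k ≤ (1 / ρ) ^ k := by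
    refine pow_le_pow_left₀ (by norm_num) ?_ k
    rw [le_div_iff₀ hρ0]; linarith
  have hp17 : (10 / 17 : ℝ) ^ k ≤ (1 / ρ) ^ k := by
    refine pow_le_pow_left₀ (by norm_num) ?_ k
    rw [le_div_iff₀ hρ0]; linarith
  have hlq : Real.log q ≤ q ^ (C + 4) := by
    have h3 : Real.log q ≤ q := (Real.log_le_sub_one_of_pos hq0).trans (by linarith)
    calc Real.log q ≤ q := h3
      _ = q ^ (1 : ℝ) := (Real.rpow_one _).symm
      _ ≤ _ := Real.rpow_le_rpow_of_exponent_le hq1.le (by linarith)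
  have hq4 : 1 ≤ q ^ (C + 4) := Real.one_le_rpow hq1.le (by linarith)
  have hlq0 : 0 ≤ Real.log q := Real.log_nonneg hq1.le
  have hsum : t + D * (10 / 17 : ℝ) ^ k ≤ q ^ (C + 5) * (1 / ρ) ^ k := by
    have hP0 : 0 ≤ (1 / ρ) ^ k := by positivity
    have h3 : 15 * Real.log q * (10 / 19 : ℝ) ^ k ≤ 15 * q ^ (C + 4) * (1 / ρ) ^ k := by
      gcongr
    have h4 : D * (10 / 17 : ℝ) ^ k ≤ D * q ^ (C + 4) * (1 / ρ) ^ k := by
      calc D * (10 / 17 : ℝ) ^ k ≤ D * (1 / ρ) ^ k := by gcongr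
        _ = D * 1 * (1 / ρ) ^ k := by ring
        _ ≤ _ := by gcongr
    have h5 : q ^ (C + 5) = q * q ^ (C + 4) := by
      rw [show C + 5 = (C + 4) + 1 by ring, Real.rpow_add_one hq0.ne']
      ring
    have h6 : (16 + D) * (q ^ (C + 4) * (1 / ρ) ^ k) ≤ q * (q ^ (C + 4) * (1 / ρ) ^ k) := by gcongr
    rw [h5]
    calc t + D * (10 / 17 : ℝ) ^ k
        ≤ q ^ (C + 4) * (1 / ρ) ^ k + 15 * q ^ (C + 4) * (1 / ρ) ^ k
          + D * q ^ (C + 4) * (1 / ρ) ^ k := by linarith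
      _ = (16 + D) * (q ^ (C + 4) * (1 / ρ) ^ k) := by ring
      _ ≤ q * (q ^ (C + 4) * (1 / ρ) ^ k) := h6
      _ = _ := by ring
  have hexpk : r ^ (k + 1) * (1 / ρ) ^ k = r * (lam⁻¹) ^ k := by
    rw [hlam, inv_div, one_div, inv_pow, div_pow, pow_succ]
    field_simp
  have hlamk : (lam⁻¹) ^ k ≤ lam * Real.exp (-(2 * η * m)) := by
    have h3 : (lam⁻¹) ^ k = Real.exp (-(2 * η * k)) := by
      rw [← hlogl, inv_pow, Real.exp_neg, mul_comm, Real.exp_nat_mul, Real.exp_log hlam0]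
    rw [h3]
    calc Real.exp (-(2 * η * k)) ≤ Real.exp (2 * η + -(2 * η * m)) := by
          rw [Real.exp_le_exp]
          have h4 := mul_le_mul_of_nonneg_left hk1R (show 0 ≤ 2 * η by positivity)
          linarith
      _ = lam * Real.exp (-(2 * η * m)) := by
          rw [Real.exp_add, ← hlogl, Real.exp_log hlam0]
  have hfin : Real.exp (η * m) ≤ ρ * q ^ (C + 5) := by
    have h3 : Real.exp (-(η * m)) ≤ r ^ (k + 1) * (q ^ (C + 5) * (1 / ρ) ^ k) :=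
      h.trans (mul_le_mul_of_nonneg_left hsum (by positivity))
    have h4 : r ^ (k + 1) * (q ^ (C + 5) * (1 / ρ) ^ k)
        = (r * (lam⁻¹) ^ k) * q ^ (C + 5) := by rw [← hexpk]; ring
    have h5 : (r * (lam⁻¹) ^ k) * q ^ (C + 5)
        ≤ (r * (lam * Real.exp (-(2 * η * m)))) * q ^ (C + 5) := by gcongr
    have h6 : r * lam = ρ := by rw [hlam]; field_simp
    have h7 : Real.exp (-(η * m)) ≤ ρ * q ^ (C + 5) * Real.exp (-(2 * η * m)) := by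
      calc Real.exp (-(η * m)) ≤ (r * (lam * Real.exp (-(2 * η * m)))) * q ^ (C + 5) := by
            rw [← h4] at h5; exact h3.trans h5
        _ = (r * lam) * q ^ (C + 5) * Real.exp (-(2 * η * m)) := by ring
        _ = _ := by rw [h6]
    have h8 : Real.exp (-(η * m)) = Real.exp (η * m) * Real.exp (-(2 * η * m)) := by
      rw [← Real.exp_add]; congr 1; ring
    rw [h8] at h7
    exact le_of_mul_le_mul_right h7 (Real.exp_pos _)
  have hbig : q ^ (C + 8) ≤ Real.exp (η * m) := by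
    rw [Real.rpow_def_of_pos hq0, Real.exp_le_exp]
    have h4 : η * (K' * Real.log q) ≤ η * m := by gcongr
    have h5 := mul_le_mul_of_nonneg_right hK' hlq0
    calc Real.log q * (C + 8) = (C + 8) * Real.log q := mul_comm _ _
      _ ≤ η * K' * Real.log q := h5
      _ = η * (K' * Real.log q) := by ring
      _ ≤ η * m := h4
  have hlast : q ^ (C + 8) = q ^ (C + 5) * q ^ (3 : ℝ) := by
    rw [← Real.rpow_add hq0]; congr 1; ring
  have hq3 : ρ < q ^ (3 : ℝ) := by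
    have h3 : q ^ (1 : ℝ) ≤ q ^ (3 : ℝ) :=
      Real.rpow_le_rpow_of_exponent_le hq1.le (by norm_num)
    rw [Real.rpow_one] at h3
    linarith
  have hq5 : 0 < q ^ (C + 5) := by positivity
  have h9 := mul_lt_mul_of_pos_left hq3 hq5
  linarith [mul_comm (q ^ (C + 5)) ρ]

/-- The principal character: bounds for `FF 1 1`. -/
lemma G5_triv (z : ℂ) (hz : 1 / 20 ≤ z.re) : ‖MC.FF 1 1 z‖ ≤ 61 * (‖z‖ + 1) ^ 2 := by
  have hz0 : 0 ≤ ‖z‖ := norm_nonneg z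
  rw [MC.FF_one_eq_MT 1 z (by linarith)]
  have h1 : ‖MC.MT (MC.RC 1 1) z‖ ≤ 60 := by
    have h1 := MC.MT_norm_le (MC.RC 1 1) _ 0 (MC.RC_bound 1 1) z (by linarith)
    refine h1.trans ?_
    rw [sub_zero, div_le_iff₀ (by linarith)]
    push_cast
    linarith
  have h2 : ‖z - 1‖ ≤ ‖z‖ + 1 := (norm_sub_le _ _).trans (by simp)
  have h3 := MC.norm_densC_le 1 (1 : DirichletCharacter ℂ 1)
  calc ‖z * (z - 1) * MC.MT (MC.RC 1 1) z + MC.densC 1 1 * z‖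
      ≤ ‖z * (z - 1) * MC.MT (MC.RC 1 1) z‖ + ‖MC.densC 1 1 * z‖ := norm_add_le _ _
    _ = ‖z‖ * ‖z - 1‖ * ‖MC.MT (MC.RC 1 1) z‖ + ‖MC.densC 1 1‖ * ‖z‖ := by
        rw [norm_mul, norm_mul, norm_mul]
    _ ≤ (‖z‖ + 1) * (‖z‖ + 1) * 60 + 1 * ((‖z‖ + 1) * (‖z‖ + 1)) := by
        refine add_le_add ?_ ?_
        · exact mul_le_mul (mul_le_mul (by linarith) h2 (norm_nonneg _) (by linarith)) h1
            (norm_nonneg _) (by positivity)
        · refine mul_le_mul h3 ?_ hz0 zero_le_one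
          have : 0 ≤ ‖z‖ * ‖z‖ := mul_nonneg hz0 hz0
          have h4 : (‖z‖ + 1) * (‖z‖ + 1) = ‖z‖ * ‖z‖ + 2 * ‖z‖ + 1 := by ring
          rw [h4]
          linarith
    _ = 61 * (‖z‖ + 1) ^ 2 := by ring

/-- G5. From the classes modulo one `q` to the zeros of all `L(s, χ)` modulo `q`. -/
theorem zero_free_local (θ C A δ : ℝ) (hθ : 1 / 2 ≤ θ) (hθ1 : θ < 1) (hC : 0 ≤ C) (hA : 1 ≤ A)
    (hδ : 0 < δ) : ∃ (ε : ℝ) (K q₀ : ℕ), 0 < ε ∧ ∀ (q : ℕ) [NeZero q], q₀ ≤ q →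
    ∀ B : Finset ℕ, (B.card : ℝ) ≤ (q : ℝ) ^ (θ / (2 - θ)) →
    (∀ a : ℕ, 1 ≤ a → a ≤ q → Nat.Coprime a q → a ∉ B → ∀ x : ℝ, (q : ℝ) ^ A ≤ x →
      x ≤ (q : ℝ) ^ K → |EM.psi x q a - x / (q.totient : ℝ)| ≤ (q : ℝ) ^ C * x ^ (θ + ε)) →
    ∀ (χ : DirichletCharacter ℂ q) (s : ℂ), θ + δ ≤ s.re → s.re < 1 → |s.im| ≤ (q : ℝ) ^ ε →
      χ.LFunction s ≠ 0 := by
  rcases le_or_gt 1 (θ + δ) with hbig | hsmall
  · exact ⟨1, 0, 0, one_pos, fun q _ _ _ _ _ χ s h1 h2 =>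
      absurd h2 (not_lt.mpr (hbig.trans h1))⟩
  obtain ⟨θ₀, hθ₀⟩ : ∃ θ₀ : ℝ, θ₀ = θ + δ / 2 := ⟨_, rfl⟩
  have hθ₀a : 1 / 2 ≤ θ₀ := by linarith
  have hθ₀b : θ₀ < 1 := by linarith
  have h2θ : 0 < 2 - θ := by linarith
  have h2θ₀ : 0 < 2 - θ₀ := by linarith
  have hβ0 : 0 ≤ θ / (2 - θ) := div_nonneg (by linarith) h2θ.le
  have hβ : θ / (2 - θ) < θ₀ / (2 - θ₀) := by
    rw [div_lt_div_iff₀ h2θ h2θ₀]
    linarith [mul_comm θ θ₀]
  obtain ⟨C₂, hC₂, hall⟩ := all_char θ₀ (θ / (2 - θ)) hθ₀a hθ₀b hβ0 hβ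
  obtain ⟨r, hr⟩ : ∃ r : ℝ, r = 2 - θ - δ := ⟨_, rfl⟩
  have hr1 : 1 < r := by linarith
  have hr0 : 0 < r := by linarith
  obtain ⟨ρ, hρ⟩ : ∃ ρ : ℝ, ρ = 2 - θ₀ := ⟨_, rfl⟩
  have hρr : r < ρ := by linarith
  have hρ0 : 0 < ρ := by linarith
  have hρ2 : ρ ≤ 3 / 2 := by linarith
  obtain ⟨η, hη⟩ : ∃ η : ℝ, η = Real.log (ρ / r) / 2 := ⟨_, rfl⟩
  have hη0 : 0 < η := by
    rw [hη]
    have := Real.log_pos (show 1 < ρ / r by rw [one_lt_div hr0]; exact hρr)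
    positivity
  have hη2 : 2 * η = Real.log (ρ / r) := by rw [hη]; ring
  obtain ⟨L, m₀, Z, hL, hZ, hwin⟩ := window_gen η hη0
  have hLR : (1 : ℝ) ≤ L := by exact_mod_cast hL
  obtain ⟨K', hK'⟩ : ∃ K' : ℝ, K' = max ((C + 8) / η) (C₂ * A + 2 * Z + 1) := ⟨_, rfl⟩
  have hK'1 : C + 8 ≤ η * K' := by
    have h3 : (C + 8) / η ≤ K' := by rw [hK']; exact le_max_left _ _
    rw [div_le_iff₀ hη0] at h3; linarith
  have hK'2 : C₂ * A + 2 * Z + 1 ≤ K' := by rw [hK']; exact le_max_right _ _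
  have hCA : 1 ≤ C₂ * A := one_le_mul_of_one_le_of_one_le hC₂ hA
  have hK'0 : 1 ≤ K' := by linarith
  have hK₃ : (1 : ℝ) ≤ L * (K' + 1) := one_le_mul_of_one_le_of_one_le hLR (by linarith)
  obtain ⟨K, η₁, q₀, hη₁0, hη₁2, hq₀'⟩ := hall A C (L * (K' + 1)) hA hC hK₃
  obtain ⟨ε, hε⟩ : ∃ ε : ℝ, ε = min (δ / 2) (η₁ / 2) := ⟨_, rfl⟩
  have hε0 : 0 < ε := by rw [hε]; exact lt_min (by linarith) (by linarith)
  have hεδ : ε ≤ δ / 2 := by rw [hε]; exact min_le_left _ _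
  have hεη : ε ≤ η₁ / 2 := by rw [hε]; exact min_le_right _ _
  obtain ⟨X₁, hX₁⟩ := Filter.eventually_atTop.mp
    (Real.isLittleO_log_id_atTop.bound (show (0 : ℝ) < 1 / (4 * Z) by positivity))
  obtain ⟨X₂, hX₂⟩ := Filter.eventually_atTop.mp
    ((tendsto_rpow_atTop (show 0 < η₁ / 2 by linarith)).eventually_ge_atTop (8 : ℝ))
  obtain ⟨Q, hQ⟩ := exists_nat_ge ((q₀ : ℝ) + |X₁| + |X₂| + Real.exp (m₀ + 1) + 1681)
  refine ⟨ε, K, Q, hε0, fun q _ hqQ B hB hyp χ ρ₀ h1 h2 hT' hzero => ?_⟩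
  have hqQR : (Q : ℝ) ≤ q := by exact_mod_cast hqQ
  have hq₀0 : (0 : ℝ) ≤ q₀ := Nat.cast_nonneg _
  have he1 := Real.exp_pos ((m₀ : ℝ) + 1)
  have hX0 := abs_nonneg X₁
  have hX20 := abs_nonneg X₂
  have hq1681 : (1681 : ℝ) ≤ q := by linarith
  have hq40 : (40 : ℝ) ≤ q := by linarith
  have hq1 : (1 : ℝ) < q := by linarith
  have hq0 : (0 : ℝ) < q := by linarith
  have hqq₀ : q₀ ≤ q := by
    have : (q₀ : ℝ) ≤ q := by linarith
    exact_mod_cast this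
  have hqX : X₁ ≤ (q : ℝ) := (le_abs_self X₁).trans (by linarith)
  have hqX2 : X₂ ≤ (q : ℝ) := (le_abs_self X₂).trans (by linarith)
  have h8 : (8 : ℝ) ≤ (q : ℝ) ^ (η₁ / 2) := hX₂ q hqX2
  obtain ⟨T, hTdef⟩ : ∃ T : ℝ, T = |ρ₀.im| := ⟨_, rfl⟩
  have hT0 : 0 ≤ T := by rw [hTdef]; exact abs_nonneg _
  have hTq : T ≤ (q : ℝ) ^ (η₁ / 2) := by
    rw [hTdef]
    exact hT'.trans (Real.rpow_le_rpow_of_exponent_le (by linarith) hεη)
  have hTS : (T + 5) + 2 ≤ (q : ℝ) ^ η₁ := by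
    have h3 : (q : ℝ) ^ η₁ = (q : ℝ) ^ (η₁ / 2) * (q : ℝ) ^ (η₁ / 2) := by
      rw [← Real.rpow_add hq0]
      congr 1
      ring
    rw [h3]
    have h4 : 8 * (q : ℝ) ^ (η₁ / 2) ≤ (q : ℝ) ^ (η₁ / 2) * (q : ℝ) ^ (η₁ / 2) :=
      mul_le_mul_of_nonneg_right h8 (by linarith)
    linarith
  obtain ⟨r₂, hr₂⟩ : ∃ r₂ : ℝ, r₂ = (q : ℝ) ^ (1 / 2 : ℝ) := ⟨_, rfl⟩
  have hr₂0 : 0 ≤ r₂ := by rw [hr₂]; positivity
  have hr₂2 : r₂ * r₂ = q := by
    rw [hr₂, ← Real.rpow_add hq0]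
    norm_num
  have hTr : T + 7 ≤ r₂ := by
    have h3 : (q : ℝ) ^ η₁ ≤ r₂ := by
      rw [hr₂]
      exact Real.rpow_le_rpow_of_exponent_le hq1.le hη₁2
    linarith
  have hr₂41 : 41 ≤ r₂ := by
    have h3 : (41 : ℝ) ^ 2 ≤ r₂ ^ 2 := by
      rw [pow_two r₂, hr₂2]
      linarith
    exact (pow_le_pow_iff_left₀ (by norm_num) hr₂0 two_ne_zero).mp h3
  obtain ⟨l, hl⟩ : ∃ l : ℝ, l = Real.log q := ⟨_, rfl⟩
  have hlm : (m₀ : ℝ) + 1 ≤ l := by
    rw [hl, Real.le_log_iff_exp_le hq0]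
    linarith
  have hm₀0 : (0 : ℝ) ≤ m₀ := Nat.cast_nonneg _
  have hl1 : 1 ≤ l := by linarith
  have hlsmall : 4 * Z * l ≤ q := by
    have h3 := hX₁ q hqX
    rw [← hl, Real.norm_of_nonneg (by linarith), id, Real.norm_of_nonneg hq0.le] at h3
    rw [one_div, inv_mul_eq_div, le_div_iff₀ (by positivity)] at h3
    linarith
  obtain ⟨m, hm⟩ : ∃ m : ℕ, m = ⌈K' * l⌉₊ := ⟨_, rfl⟩
  have hKl0 : 0 ≤ K' * l := by positivity
  have hm1 : K' * l ≤ m := by rw [hm]; exact Nat.le_ceil _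
  have hm2 : (m : ℝ) ≤ K' * l + 1 := by rw [hm]; exact (Nat.ceil_lt_add_one hKl0).le
  have hlK : l ≤ K' * l := le_mul_of_one_le_left (by linarith) hK'0
  have hmm₀ : m₀ ≤ m := by
    have h3 : (m₀ : ℝ) ≤ m := by linarith
    exact_mod_cast h3
  -- the range of `k`
  have hrange : ∀ k : ℕ, m ≤ k + 1 → k ≤ L * m →
      C₂ * (A * Real.log q) ≤ k ∧ (k : ℝ) ≤ L * (K' + 1) * (A * Real.log q) := by
    intro k hk1 hk2
    have hk1R : (m : ℝ) ≤ k + 1 := by exact_mod_cast hk1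
    have hk2R : (k : ℝ) ≤ L * m := by exact_mod_cast hk2
    rw [← hl]
    constructor
    · have h3 : (C₂ * A + 2 * Z + 1) * l ≤ K' * l := mul_le_mul_of_nonneg_right hK'2 (by linarith)
      have h4 : (C₂ * A + 2 * Z + 1) * l = C₂ * (A * l) + 2 * (Z * l) + l := by ring
      have h5 : 0 ≤ Z * l := by positivity
      linarith
    · have h3 : (L : ℝ) * m ≤ L * (K' * l + 1) := by gcongr
      have h4 : K' * l + 1 ≤ (K' + 1) * l := by
        have : (K' + 1) * l = K' * l + l := by ring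
        linarith
      have h5 : l ≤ A * l := le_mul_of_one_le_left (by linarith) hA
      calc (k : ℝ) ≤ L * m := hk2R
        _ ≤ L * (K' * l + 1) := h3
        _ ≤ L * ((K' + 1) * l) := by gcongr
        _ ≤ L * ((K' + 1) * (A * l)) := by gcongr
        _ = _ := by ring
  -- the point
  obtain ⟨s, hs⟩ : ∃ s : ℂ, s = ⟨2, ρ₀.im⟩ := ⟨_, rfl⟩
  have hsre : s.re = 2 := by rw [hs]
  have hsim : s.im = ρ₀.im := by rw [hs]
  have hsn2 : ‖s‖ ≤ T + 2 := by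
    calc ‖s‖ ≤ |s.re| + |s.im| := Complex.norm_le_abs_re_add_abs_im s
      _ ≤ T + 2 := by
          rw [hsre, hsim, ← hTdef]
          have : (|(2 : ℝ)|) = 2 := abs_of_pos (by norm_num)
          rw [this]
          linarith
  have hsn : ‖s‖ ≤ T + 5 := by linarith
  have hρ₀1 : ρ₀ ≠ 1 := by
    intro h; rw [h] at h2; simp at h2
  have hdist : ‖s - ρ₀‖ ≤ r := by
    have h3 : s - ρ₀ = ((2 - ρ₀.re : ℝ) : ℂ) := by
      apply Complex.ext
      · rw [Complex.sub_re, hsre, Complex.ofReal_re]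
      · rw [Complex.sub_im, hsim, Complex.ofReal_im]; simp
    rw [h3, Complex.norm_real, Real.norm_of_nonneg (by linarith)]
    linarith
  have hchar : ∀ (ψ : DirichletCharacter ℂ q) (k : ℕ), m ≤ k + 1 → k ≤ L * m →
      ‖TC (logDeriv (MC.FF q ψ)) s k‖ ≤ (q : ℝ) ^ (C + 4) * (1 / ρ) ^ k := by
    intro ψ k hk1 hk2
    obtain ⟨hka, hkb⟩ := hrange k hk1 hk2
    have h3 := hq₀' (T + 5) (by linarith) q hqq₀ hTS B hB (fun a ha1 ha2 ha3 ha4 x hx1 hx2 => by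
      have h3 := hyp a ha1 ha2 ha3 ha4 x hx1 hx2
      have hx : 1 ≤ x := (Real.one_le_rpow hq1.le (by linarith)).trans hx1
      refine h3.trans ?_
      rw [hθ₀]
      refine mul_le_mul_of_nonneg_left ?_ (by positivity)
      exact Real.rpow_le_rpow_of_exponent_le hx (by linarith)) ψ s hsre hsn k hka hkb
    rw [← hρ] at h3
    rw [one_div, inv_pow, ← div_eq_mul_inv, le_div_iff₀ (by positivity)]
    exact h3
  have h15 : ∀ k : ℕ, 0 ≤ 15 * Real.log q * (10 / 19 : ℝ) ^ k := fun k => by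
    rw [← hl]; positivity
  have hexp2 : Real.exp (2 * l) = (q : ℝ) ^ 2 := by
    rw [hl, mul_comm, Real.exp_mul, Real.exp_log hq0]
    exact_mod_cast Real.rpow_natCast (q : ℝ) 2
  have hexpn : Real.exp (-(2 * l)) ≤ 1 / 3 := by
    rw [Real.exp_neg, hexp2, inv_le_comm₀ (by positivity) (by norm_num)]
    calc (1 / 3 : ℝ)⁻¹ = 3 := by norm_num
      _ ≤ 40 * 40 := by norm_num
      _ ≤ (q : ℝ) * q := by gcongr
      _ = (q : ℝ) ^ 2 := by ring
  have hmZ : Z * (2 * l) + 1 ≤ m := by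
    have h3 : (C₂ * A + 2 * Z + 1) * l ≤ K' * l := mul_le_mul_of_nonneg_right hK'2 (by linarith)
    have h4 : (C₂ * A + 2 * Z + 1) * l = (C₂ * A) * l + Z * (2 * l) + l := by ring
    have h5 : 0 ≤ (C₂ * A) * l := by positivity
    linarith
  by_cases hχ : χ = 1
  · -- the principal character: use `FF 1 1`
    subst hχ
    have hb : ∀ z ∈ Metric.closedBall s (39 / 20), ‖MC.FF 1 1 z‖ ≤ Real.exp (2 * l) := by
      intro z hz
      rw [Metric.mem_closedBall, dist_eq_norm] at hz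
      have hre := Complex.abs_re_le_norm (z - s)
      rw [Complex.sub_re, hsre, abs_le] at hre
      have h3 := G5_triv z (by linarith)
      have h4 : ‖z‖ + 1 ≤ r₂ := by
        have h5 : ‖z‖ ≤ ‖z - s‖ + ‖s‖ := by
          calc ‖z‖ = ‖(z - s) + s‖ := by ring_nf
            _ ≤ _ := norm_add_le _ _
        linarith
      have h5 : 0 ≤ ‖z‖ + 1 := by positivity
      rw [hexp2]
      calc ‖MC.FF 1 1 z‖ ≤ 61 * (‖z‖ + 1) ^ 2 := h3
        _ ≤ 61 * r₂ ^ 2 := by gcongr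
        _ = 61 * q := by rw [pow_two, hr₂2]
        _ ≤ q * q := by gcongr; linarith
        _ = (q : ℝ) ^ 2 := by ring
    have hc : Real.exp (-(2 * l)) ≤ ‖MC.FF 1 1 s‖ := by
      have hs1 : s ≠ 1 := by
        intro h; rw [h] at hsre; simp at hsre
      rw [MC.FF_one_apply 1 s hs1, norm_mul]
      have h3 : 1 ≤ ‖s - 1‖ := by
        have h4 := Complex.abs_re_le_norm (s - 1)
        rw [Complex.sub_re, hsre, Complex.one_re] at h4
        have h5 : (|(2 : ℝ) - 1|) = 1 := by norm_num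
        linarith
      have h4 := MC.LFunction_lower 1 1 s hsre
      calc Real.exp (-(2 * l)) ≤ 1 / 3 := hexpn
        _ ≤ 1 * ‖(1 : DirichletCharacter ℂ 1).LFunction s‖ := by rw [one_mul]; exact h4
        _ ≤ _ := by gcongr
    have hz1 : MC.FF 1 1 ρ₀ = 0 := by
      rw [MC.FF_one_apply 1 ρ₀ hρ₀1]
      have h3 := DirichletCharacter.LFunction_changeLevel (one_dvd q)
        (1 : DirichletCharacter ℂ 1) (s := ρ₀) (Or.inr hρ₀1)
      rw [DirichletCharacter.changeLevel_one, hzero] at h3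
      rcases mul_eq_zero.mp h3.symm with h4 | h4
      · rw [h4, mul_zero]
      · exfalso
        rw [Finset.prod_eq_zero_iff] at h4
        obtain ⟨p, hp, h5⟩ := h4
        have hpp := Nat.prime_of_mem_primeFactors hp
        have h6 : ‖(1 : DirichletCharacter ℂ 1) p * (p : ℂ) ^ (-ρ₀)‖ < 1 := by
          rw [norm_mul, Complex.norm_natCast_cpow_of_pos hpp.pos, Complex.neg_re]
          have h7 : ‖(1 : DirichletCharacter ℂ 1) p‖ ≤ 1 :=
            (1 : DirichletCharacter ℂ 1).norm_le_one _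
          have h8 : (p : ℝ) ^ (-ρ₀.re) < 1 := by
            apply Real.rpow_lt_one_of_one_lt_of_neg
            · exact_mod_cast hpp.one_lt
            · linarith
          have h9 : (0 : ℝ) ≤ (p : ℝ) ^ (-ρ₀.re) := by positivity
          exact lt_of_le_of_lt (mul_le_of_le_one_left h9 h7) h8
        have h7 : (1 : DirichletCharacter ℂ 1) p * (p : ℂ) ^ (-ρ₀) = 1 := (sub_eq_zero.mp h5).symm
        rw [h7, norm_one] at h6
        exact lt_irrefl _ h6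
    obtain ⟨k, hk1, hk2, hk3⟩ := hwin (MC.FF 1 1) (MC.FF_differentiable 1 1) s (2 * l)
      (by linarith) hb hc ρ₀ hz1 r hdist (by linarith) m hmm₀ hmZ
    have heul := euler 1 q (one_dvd q) 1 s hsre k
    have h5 := hchar (DirichletCharacter.changeLevel (one_dvd q) (1 : DirichletCharacter ℂ 1)) k hk1 hk2
    exact G5_contra hC hq1 hr0 hρr hρ2 hη0 hη2 hK'1 (by rw [← hl]; exact hm1) hk1
      (by positivity) (by linarith) (heul.trans (by linarith)) hk3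
  · -- the other characters
    have hb : ∀ z ∈ Metric.closedBall s (39 / 20), ‖MC.FF q χ z‖ ≤ Real.exp (2 * l) := by
      intro z hz
      rw [Metric.mem_closedBall, dist_eq_norm] at hz
      have hre := Complex.abs_re_le_norm (z - s)
      rw [Complex.sub_re, hsre, abs_le] at hre
      rw [MC.FF_of_ne q χ hχ, hexp2]
      have h3 := EM.L_growth q χ hχ z (by linarith)
      have h4 : ‖z‖ ≤ r₂ := by
        have h5 : ‖z‖ ≤ ‖z - s‖ + ‖s‖ := by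
          calc ‖z‖ = ‖(z - s) + s‖ := by ring_nf
            _ ≤ _ := norm_add_le _ _
        linarith
      calc ‖χ.LFunction z‖ ≤ 20 * (2 * q + 1) * ‖z‖ := h3
        _ ≤ 20 * (2 * q + 1) * r₂ := by gcongr
        _ ≤ 20 * (41 / 20 * q) * r₂ := by gcongr; linarith
        _ = 41 * q * r₂ := by ring
        _ ≤ r₂ * q * r₂ := by gcongr
        _ = q * (r₂ * r₂) := by ring
        _ = (q : ℝ) ^ 2 := by rw [hr₂2]; ring
    have hc : Real.exp (-(2 * l)) ≤ ‖MC.FF q χ s‖ := by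
      rw [MC.FF_of_ne q χ hχ]
      exact hexpn.trans (MC.LFunction_lower q χ s hsre)
    have hz1 : MC.FF q χ ρ₀ = 0 := by rw [MC.FF_of_ne q χ hχ, hzero]
    obtain ⟨k, hk1, hk2, hk3⟩ := hwin (MC.FF q χ) (MC.FF_differentiable q χ) s (2 * l)
      (by linarith) hb hc ρ₀ hz1 r hdist (by linarith) m hmm₀ hmZ
    have h5 := hchar χ k hk1 hk2
    refine G5_contra hC hq1 hr0 hρr hρ2 hη0 hη2 hK'1 (by rw [← hl]; exact hm1) hk1
      (by positivity) ?_ (h5.trans (by linarith [h15 k])) hk3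
    linarith

end Pool.Agent.MY
end

section

set_option autoImplicit false

namespace Pool.Agent.MZ

open Complex Finset MY

/-- Z3. The Taylor coefficients of `-L'/L` in a zero free region. -/
lemma tk_small (δ : ℝ) (hδ : 0 < δ) (hδ1 : δ ≤ 1 / 10) : ∃ C : ℝ, 0 ≤ C ∧
    ∀ (q : ℕ) [NeZero q], 41 ≤ q → ∀ T : ℝ, 2 ≤ T → T ^ 2 ≤ q → ZFB q δ T →
    ∀ χ : DirichletCharacter ℂ q, χ ≠ 1 → ∀ s : ℂ, s.re = 2 → |s.im| ≤ T - 2 → ∀ k : ℕ,
    ‖TC (fun z => -logDeriv χ.LFunction z) s k‖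
      ≤ C * Real.log q * ((3 / 2 - δ)⁻¹) ^ k := by
  obtain ⟨C₀, hC₀, hloc⟩ := EM.local_zeros
  refine ⟨6 * C₀, by linarith, fun q _ hq T hT hTq hZ χ hχ s hs him k => ?_⟩
  have hq41 : (41 : ℝ) ≤ q := by exact_mod_cast hq
  have hq0 : (0 : ℝ) < q := by linarith
  obtain ⟨l, hl⟩ : ∃ l : ℝ, l = Real.log q := ⟨_, rfl⟩
  have hl1 : 1 ≤ l := by
    rw [hl, Real.le_log_iff_exp_le hq0]
    have := Real.exp_one_lt_d9
    linarith
  have hexp : Real.exp (3 * l) = (q : ℝ) ^ 3 := by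
    rw [hl, mul_comm, Real.exp_mul, Real.exp_log hq0]
    exact_mod_cast Real.rpow_natCast (q : ℝ) 3
  have hT2 : T + 2 ≤ q := by nlinarith
  have hsn : ‖s‖ ≤ T := by
    calc ‖s‖ ≤ |s.re| + |s.im| := Complex.norm_le_abs_re_add_abs_im s
      _ ≤ T := by
          rw [hs]
          have : (|(2 : ℝ)|) = 2 := abs_of_pos (by norm_num)
          rw [this]
          linarith
  have hdiff : Differentiable ℂ χ.LFunction := DirichletCharacter.differentiable_LFunction hχ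
  have hana : AnalyticOnNhd ℂ χ.LFunction (Metric.closedBall s (39 / 20)) :=
    fun z _ => hdiff.analyticAt z
  have hb : ∀ z ∈ Metric.closedBall s (39 / 20), ‖χ.LFunction z‖ ≤ Real.exp (3 * l) := by
    intro z hz
    rw [Metric.mem_closedBall, dist_eq_norm] at hz
    have hre := Complex.abs_re_le_norm (z - s)
    rw [Complex.sub_re, hs, abs_le] at hre
    rw [hexp]
    have h3 := EM.L_growth q χ hχ z (by linarith)
    have h4 : ‖z‖ ≤ q := by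
      have h5 : ‖z‖ ≤ ‖z - s‖ + ‖s‖ := by
        calc ‖z‖ = ‖(z - s) + s‖ := by ring_nf
          _ ≤ _ := norm_add_le _ _
      linarith
    calc ‖χ.LFunction z‖ ≤ 20 * (2 * q + 1) * ‖z‖ := h3
      _ ≤ 20 * (2 * q + 1) * q := by gcongr
      _ ≤ 20 * (41 / 20 * q) * q := by gcongr; linarith
      _ = 41 * q * q := by ring
      _ ≤ q * q * q := by gcongr
      _ = (q : ℝ) ^ 3 := by ring
  have hc : Real.exp (-(3 * l)) ≤ ‖χ.LFunction s‖ := by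
    have h1 : Real.exp (-(3 * l)) ≤ 1 / 3 := by
      rw [Real.exp_neg, hexp, inv_le_comm₀ (by positivity) (by norm_num)]
      calc (1 / 3 : ℝ)⁻¹ = 3 := by norm_num
        _ ≤ 41 ^ 3 := by norm_num
        _ ≤ (q : ℝ) ^ 3 := by gcongr
    exact h1.trans (MC.LFunction_lower q χ s hs)
  obtain ⟨n, ρ, hn, hρ, -, hk⟩ := hloc χ.LFunction s (3 * l) (by linarith) hana hb hc
  have hδr : 0 < 3 / 2 - δ := by linarith
  have hdist : ∀ j, 3 / 2 - δ ≤ ‖s - ρ j‖ := by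
    intro j
    by_contra hlt
    push Not at hlt
    have h1 := Complex.abs_re_le_norm (s - ρ j)
    have h2 := Complex.abs_im_le_norm (s - ρ j)
    rw [Complex.sub_re, hs, abs_le] at h1
    rw [Complex.sub_im, abs_le] at h2
    rw [abs_le] at him
    exact hZ χ hχ (ρ j) (by linarith) (abs_le.mpr ⟨by linarith, by linarith⟩) (hρ j)
  have hinv1 : (3 / 2 - δ)⁻¹ ≤ 1 := inv_le_one_of_one_le₀ (by linarith)
  have hinv0 : 0 < (3 / 2 - δ)⁻¹ := inv_pos.mpr hδr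
  have hterm : ∀ j, ‖((s - ρ j)⁻¹) ^ (k + 1)‖ ≤ ((3 / 2 - δ)⁻¹) ^ k := by
    intro j
    rw [norm_pow, norm_inv]
    have h1 : ‖s - ρ j‖⁻¹ ≤ (3 / 2 - δ)⁻¹ := inv_anti₀ hδr (hdist j)
    calc ‖s - ρ j‖⁻¹ ^ (k + 1) ≤ ((3 / 2 - δ)⁻¹) ^ (k + 1) :=
          pow_le_pow_left₀ (inv_nonneg.mpr (norm_nonneg _)) h1 _
      _ ≤ ((3 / 2 - δ)⁻¹) ^ k := pow_le_pow_of_le_one hinv0.le hinv1 (Nat.le_succ k)
  have hsum : ‖(-1 : ℂ) ^ k * ∑ j, ((s - ρ j)⁻¹) ^ (k + 1)‖ ≤ n * ((3 / 2 - δ)⁻¹) ^ k := by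
    rw [norm_mul, norm_pow, norm_neg, norm_one, one_pow, one_mul]
    refine (norm_sum_le _ _).trans ?_
    calc ∑ j, ‖((s - ρ j)⁻¹) ^ (k + 1)‖ ≤ ∑ _j : Fin n, ((3 / 2 - δ)⁻¹) ^ k :=
          sum_le_sum fun j _ => hterm j
      _ = n * ((3 / 2 - δ)⁻¹) ^ k := by
          rw [sum_const, card_univ, Fintype.card_fin, nsmul_eq_mul]
  have h17 : (10 / 17 : ℝ) ^ k ≤ ((3 / 2 - δ)⁻¹) ^ k := by
    refine pow_le_pow_left₀ (by norm_num) ?_ k
    rw [le_inv_comm₀ (by norm_num) hδr]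
    norm_num
    linarith
  have hneg : TC (fun z => -logDeriv χ.LFunction z) s k
      = -(iteratedDeriv k (logDeriv χ.LFunction) s / (k.factorial : ℂ)) := by
    unfold TC
    rw [iteratedDeriv_fun_neg, neg_div]
  rw [hneg, norm_neg]
  have hk' := hk k
  have hpk : 0 ≤ ((3 / 2 - δ)⁻¹) ^ k := by positivity
  have h1 : ‖iteratedDeriv k (logDeriv χ.LFunction) s / (k.factorial : ℂ)‖
      ≤ ‖iteratedDeriv k (logDeriv χ.LFunction) s / (k.factorial : ℂ)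
        - (-1) ^ k * ∑ j, ((s - ρ j)⁻¹) ^ (k + 1)‖ + ‖(-1 : ℂ) ^ k * ∑ j, ((s - ρ j)⁻¹) ^ (k + 1)‖ := by
    have := norm_add_le (iteratedDeriv k (logDeriv χ.LFunction) s / (k.factorial : ℂ)
        - (-1) ^ k * ∑ j, ((s - ρ j)⁻¹) ^ (k + 1)) ((-1 : ℂ) ^ k * ∑ j, ((s - ρ j)⁻¹) ^ (k + 1))
    rwa [sub_add_cancel] at this
  rw [← hl]
  calc ‖iteratedDeriv k (logDeriv χ.LFunction) s / (k.factorial : ℂ)‖
      ≤ C₀ * (3 * l) * (10 / 17 : ℝ) ^ k + n * ((3 / 2 - δ)⁻¹) ^ k := h1.trans (add_le_add hk' hsum)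
    _ ≤ C₀ * (3 * l) * ((3 / 2 - δ)⁻¹) ^ k + C₀ * (3 * l) * ((3 / 2 - δ)⁻¹) ^ k := by
        gcongr
    _ = 6 * C₀ * l * ((3 / 2 - δ)⁻¹) ^ k := by ring

end Pool.Agent.MZ
end
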