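import Mathlib
import Pool.Agent.Lib.MP_9cfc0a_nt.Mg.G023
import Pool.Agent.Lib.MP_9cfc0a_nt.Mg.G033
import Pool.Agent.Lib.MP_9cfc0a_nt.MY.A2
import Pool.Agent.Lib.MP_9cfc0a_nt.Mg.G027
import Pool.Agent.Lib.MP_9cfc0a_nt.EMZeros
import Pool.Agent.Lib.MP_9cfc0a_nt.EMLfun

section

set_option autoImplicit false

namespace Pool.Agent.MW

open Complex Finset MY MZ

/-- A4. The Taylor coefficients of `-L'/L` in a zero free region (as `MZ.Z3`, `δ < 1/2`). -/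
lemma tk_small (δ : ℝ) (hδ : 0 < δ) (hδ1 : δ < 1 / 2) : ∃ C : ℝ, 0 ≤ C ∧
    ∀ (q : ℕ) [NeZero q], 41 ≤ q → ∀ T : ℝ, 2 ≤ T → T ^ 2 ≤ q → ZFB q δ T →
    ∀ χ : DirichletCharacter ℂ q, χ ≠ 1 → ∀ s : ℂ, s.re = 2 → |s.im| ≤ T - 2 → ∀ k : ℕ,
    ‖TC (fun z => -logDeriv χ.LFunction z) s k‖
      ≤ C * Real.log q * ((3 / 2 - δ)⁻¹) ^ k := by
  obtain ⟨C₀, hC₀, hloc⟩ := EM.local_zeros
  refine ⟨6 * C₀, by linarith, fun q _ hq T hT hTq hZ χ hχ s hs him k => ?_⟩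
  have hq41 : (41 : ℝ) ≤ q := by exact_mod_cast hq
  have hq0 : (0 : ℝ) < q := by linarith
  obtain ⟨l, hl⟩ : ∃ l : ℝ, l = Real.log q := ⟨_, rfl⟩
  have hl1 : 1 ≤ l := by
    rw [hl, Real.le_log_iff_exp_le hq0]
    have := Real.exp_one_lt_d9
    linarith
  have hexp : Real.exp (3 * l) = (q : ℝ) ^ 3 := by
    rw [hl, mul_comm, Real.exp_mul, Real.exp_log hq0]
    exact_mod_cast Real.rpow_natCast (q : ℝ) 3
  have hT2 : T + 2 ≤ q := by nlinarith
  have hsn : ‖s‖ ≤ T := by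
    calc ‖s‖ ≤ |s.re| + |s.im| := Complex.norm_le_abs_re_add_abs_im s
      _ ≤ T := by
          rw [hs]
          have : (|(2 : ℝ)|) = 2 := abs_of_pos (by norm_num)
          rw [this]
          linarith
  have hdiff : Differentiable ℂ χ.LFunction := DirichletCharacter.differentiable_LFunction hχ
  have hana : AnalyticOnNhd ℂ χ.LFunction (Metric.closedBall s (39 / 20)) :=
    fun z _ => hdiff.analyticAt z
  have hb : ∀ z ∈ Metric.closedBall s (39 / 20), ‖χ.LFunction z‖ ≤ Real.exp (3 * l) := by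
    intro z hz
    rw [Metric.mem_closedBall, dist_eq_norm] at hz
    have hre := Complex.abs_re_le_norm (z - s)
    rw [Complex.sub_re, hs, abs_le] at hre
    rw [hexp]
    have h3 := EM.L_growth q χ hχ z (by linarith)
    have h4 : ‖z‖ ≤ q := by
      have h5 : ‖z‖ ≤ ‖z - s‖ + ‖s‖ := by
        calc ‖z‖ = ‖(z - s) + s‖ := by ring_nf
          _ ≤ _ := norm_add_le _ _
      linarith
    calc ‖χ.LFunction z‖ ≤ 20 * (2 * q + 1) * ‖z‖ := h3
      _ ≤ 20 * (2 * q + 1) * q := by gcongr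
      _ ≤ 20 * (41 / 20 * q) * q := by gcongr; linarith
      _ = 41 * q * q := by ring
      _ ≤ q * q * q := by gcongr
      _ = (q : ℝ) ^ 3 := by ring
  have hc : Real.exp (-(3 * l)) ≤ ‖χ.LFunction s‖ := by
    have h1 : Real.exp (-(3 * l)) ≤ 1 / 3 := by
      rw [Real.exp_neg, hexp, inv_le_comm₀ (by positivity) (by norm_num)]
      calc (1 / 3 : ℝ)⁻¹ = 3 := by norm_num
        _ ≤ 41 ^ 3 := by norm_num
        _ ≤ (q : ℝ) ^ 3 := by gcongr
    exact h1.trans (MC.LFunction_lower q χ s hs)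
  obtain ⟨n, ρ, hn, hρ, -, hk⟩ := hloc χ.LFunction s (3 * l) (by linarith) hana hb hc
  have hδr : 0 < 3 / 2 - δ := by linarith
  have hdist : ∀ j, 3 / 2 - δ ≤ ‖s - ρ j‖ := by
    intro j
    by_contra hlt
    push Not at hlt
    have h1 := Complex.abs_re_le_norm (s - ρ j)
    have h2 := Complex.abs_im_le_norm (s - ρ j)
    rw [Complex.sub_re, hs, abs_le] at h1
    rw [Complex.sub_im, abs_le] at h2
    rw [abs_le] at him
    exact hZ χ hχ (ρ j) (by linarith) (abs_le.mpr ⟨by linarith, by linarith⟩) (hρ j)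
  have hinv1 : (3 / 2 - δ)⁻¹ ≤ 1 := inv_le_one_of_one_le₀ (by linarith)
  have hinv0 : 0 < (3 / 2 - δ)⁻¹ := inv_pos.mpr hδr
  have hterm : ∀ j, ‖((s - ρ j)⁻¹) ^ (k + 1)‖ ≤ ((3 / 2 - δ)⁻¹) ^ k := by
    intro j
    rw [norm_pow, norm_inv]
    have h1 : ‖s - ρ j‖⁻¹ ≤ (3 / 2 - δ)⁻¹ := inv_anti₀ hδr (hdist j)
    calc ‖s - ρ j‖⁻¹ ^ (k + 1) ≤ ((3 / 2 - δ)⁻¹) ^ (k + 1) :=
          pow_le_pow_left₀ (inv_nonneg.mpr (norm_nonneg _)) h1 _
      _ ≤ ((3 / 2 - δ)⁻¹) ^ k := pow_le_pow_of_le_one hinv0.le hinv1 (Nat.le_succ k)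
  have hsum : ‖(-1 : ℂ) ^ k * ∑ j, ((s - ρ j)⁻¹) ^ (k + 1)‖ ≤ n * ((3 / 2 - δ)⁻¹) ^ k := by
    rw [norm_mul, norm_pow, norm_neg, norm_one, one_pow, one_mul]
    refine (norm_sum_le _ _).trans ?_
    calc ∑ j, ‖((s - ρ j)⁻¹) ^ (k + 1)‖ ≤ ∑ _j : Fin n, ((3 / 2 - δ)⁻¹) ^ k :=
          sum_le_sum fun j _ => hterm j
      _ = n * ((3 / 2 - δ)⁻¹) ^ k := by
          rw [sum_const, card_univ, Fintype.card_fin, nsmul_eq_mul]
  have h17 : (10 / 17 : ℝ) ^ k ≤ ((3 / 2 - δ)⁻¹) ^ k := by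
    refine pow_le_pow_left₀ (by norm_num) ?_ k
    rw [le_inv_comm₀ (by norm_num) hδr]
    norm_num
    linarith
  have hneg : TC (fun z => -logDeriv χ.LFunction z) s k
      = -(iteratedDeriv k (logDeriv χ.LFunction) s / (k.factorial : ℂ)) := by
    unfold TC
    rw [iteratedDeriv_fun_neg, neg_div]
  rw [hneg, norm_neg]
  have hk' := hk k
  have hpk : 0 ≤ ((3 / 2 - δ)⁻¹) ^ k := by positivity
  have h1 : ‖iteratedDeriv k (logDeriv χ.LFunction) s / (k.factorial : ℂ)‖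
      ≤ ‖iteratedDeriv k (logDeriv χ.LFunction) s / (k.factorial : ℂ)
        - (-1) ^ k * ∑ j, ((s - ρ j)⁻¹) ^ (k + 1)‖ + ‖(-1 : ℂ) ^ k * ∑ j, ((s - ρ j)⁻¹) ^ (k + 1)‖ := by
    have := norm_add_le (iteratedDeriv k (logDeriv χ.LFunction) s / (k.factorial : ℂ)
        - (-1) ^ k * ∑ j, ((s - ρ j)⁻¹) ^ (k + 1)) ((-1 : ℂ) ^ k * ∑ j, ((s - ρ j)⁻¹) ^ (k + 1))
    rwa [sub_add_cancel] at this
  rw [← hl]
  calc ‖iteratedDeriv k (logDeriv χ.LFunction) s / (k.factorial : ℂ)‖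
      ≤ C₀ * (3 * l) * (10 / 17 : ℝ) ^ k + n * ((3 / 2 - δ)⁻¹) ^ k := h1.trans (add_le_add hk' hsum)
    _ ≤ C₀ * (3 * l) * ((3 / 2 - δ)⁻¹) ^ k + C₀ * (3 * l) * ((3 / 2 - δ)⁻¹) ^ k := by
        gcongr
    _ = 6 * C₀ * l * ((3 / 2 - δ)⁻¹) ^ k := by ring


end Pool.Agent.MW
end

section

set_option autoImplicit false

namespace Pool.Agent.MZ

open Complex Finset MY

/-- Growth of a holomorphic function without zeros in a disk. -/
lemma Z4_exp (f : ℂ → ℂ) (s : ℂ) (R : ℝ) (hR : 0 < R)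
    (hf : ∀ w ∈ Metric.ball s R, DifferentiableAt ℂ f w) (hf0 : ∀ w ∈ Metric.ball s R, f w ≠ 0)
    (z : ℂ) (hz : z ∈ Metric.ball s R) (b : ℕ → ℝ)
    (hb : ∀ k, ‖TC (fun z => -logDeriv f z) s k‖ * ‖z - s‖ ^ (k + 1) ≤ b k)
    (hsum : Summable b) : ‖f z‖ ≤ ‖f s‖ * Real.exp (∑' k, b k) := by
  have hs : s ∈ Metric.ball s R := Metric.mem_ball_self hR
  have hopen : IsOpen (Metric.ball s R) := Metric.isOpen_ball
  have hfd : DifferentiableOn ℂ f (Metric.ball s R) := fun w hw => (hf w hw).differentiableWithinAt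
  obtain ⟨g, hg⟩ : ∃ g : ℂ → ℂ, g = fun w => -logDeriv f w := ⟨_, rfl⟩
  have hgd : DifferentiableOn ℂ g (Metric.ball s R) := by
    rw [hg]
    have h1 : DifferentiableOn ℂ (deriv f) (Metric.ball s R) := hfd.deriv hopen
    have h2 : DifferentiableOn ℂ (fun w => -(deriv f w / f w)) (Metric.ball s R) :=
      (h1.div hfd hf0).neg
    exact h2
  obtain ⟨P, hP⟩ := hgd.isExactOn_ball
  have hPd : DifferentiableOn ℂ P (Metric.ball s R) :=
    fun w hw => (hP w hw).differentiableAt.differentiableWithinAt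
  have hF : ∀ w ∈ Metric.ball s R, HasDerivAt (fun w => f w * exp (P w)) 0 w := by
    intro w hw
    have h1 := ((hf w hw).hasDerivAt).mul (hP w hw).cexp
    have h2 : deriv f w * exp (P w) + f w * (exp (P w) * g w) = 0 := by
      rw [hg]
      change deriv f w * exp (P w) + f w * (exp (P w) * -(logDeriv f w)) = 0
      rw [logDeriv_apply]
      have := hf0 w hw
      field_simp
      ring
    rw [h2] at h1
    exact h1
  have hconst : f z * exp (P z) = f s * exp (P s) := by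
    have h1 : DifferentiableOn ℂ (fun w => f w * exp (P w)) (Metric.ball s R) :=
      fun w hw => (hF w hw).differentiableAt.differentiableWithinAt
    exact hopen.is_const_of_deriv_eq_zero (convex_ball s R).isPreconnected h1
      (fun w hw => (hF w hw).deriv) hz hs
  have hfz : f z = f s * exp (P s - P z) := by
    have h1 : exp (P z) ≠ 0 := exp_ne_zero _
    rw [exp_sub, mul_div_assoc', ← hconst, mul_div_assoc, div_self h1, mul_one]
  have hsz : HasSum (fun k : ℕ => (((k + 1).factorial : ℂ))⁻¹ • (z - s) ^ (k + 1) •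
      iteratedDeriv (k + 1) P s) (P z - P s) := by
    have h1 := hasSum_taylorSeries_on_ball hPd hz
    rw [← hasSum_nat_add_iff' 1] at h1
    simpa using h1
  have hnorm : ‖P z - P s‖ ≤ ∑' k, b k := by
    rw [← hsz.tsum_eq]
    refine tsum_of_norm_bounded hsum.hasSum fun k => ?_
    refine le_trans ?_ (hb k)
    have h1 : iteratedDeriv (k + 1) P s = iteratedDeriv k (fun z => -logDeriv f z) s := by
      rw [iteratedDeriv_succ']
      refine Filter.EventuallyEq.iteratedDeriv_eq k ?_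
      filter_upwards [hopen.mem_nhds hs] with w hw
      rw [(hP w hw).deriv, hg]
    rw [h1]
    unfold TC
    rw [norm_smul, norm_smul, norm_inv, norm_pow, norm_div, Complex.norm_natCast,
      Complex.norm_natCast]
    have h2 : (0 : ℝ) < (k.factorial : ℝ) := by exact_mod_cast k.factorial_pos
    have h3 : (k.factorial : ℝ) ≤ ((k + 1).factorial : ℝ) := by
      exact_mod_cast Nat.factorial_le (Nat.le_succ k)
    have h4 : (((k + 1).factorial : ℝ))⁻¹ ≤ ((k.factorial : ℝ))⁻¹ := by gcongr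
    calc (((k + 1).factorial : ℝ))⁻¹ * (‖z - s‖ ^ (k + 1) *
          ‖iteratedDeriv k (fun z => -logDeriv f z) s‖)
        ≤ ((k.factorial : ℝ))⁻¹ * (‖z - s‖ ^ (k + 1) *
          ‖iteratedDeriv k (fun z => -logDeriv f z) s‖) := by gcongr
      _ = ‖iteratedDeriv k (fun z => -logDeriv f z) s‖ / (k.factorial : ℝ) *
          ‖z - s‖ ^ (k + 1) := by
          rw [div_eq_mul_inv]; ring
  rw [hfz, norm_mul, Complex.norm_exp]
  refine mul_le_mul_of_nonneg_left ?_ (norm_nonneg _)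
  rw [Real.exp_le_exp]
  refine le_trans ?_ hnorm
  rw [norm_sub_rev]
  exact (Complex.abs_re_le_norm _).trans' (le_abs_self _)

/-- The sum of the bounds: a bounded head and a geometric tail. -/
lemma Z4_tail (J : ℕ) (A B ρ : ℝ) (c : ℕ → ℝ) (hρ : 0 ≤ ρ) (hρ1 : ρ < 1)
    (hA : ∑ k ∈ range J, c k ≤ A) :
    Summable (fun k => if k < J then c k else B * ρ ^ k) ∧
    ∑' k, (if k < J then c k else B * ρ ^ k) ≤ A + B * ρ ^ J / (1 - ρ) := by
  have hgeo : HasSum (fun k : ℕ => B * ρ ^ J * ρ ^ k) (B * ρ ^ J * (1 - ρ)⁻¹) :=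
    (hasSum_geometric_of_lt_one hρ hρ1).mul_left _
  have h1 : (fun k => (if k + J < J then c (k + J) else B * ρ ^ (k + J)))
      = fun k : ℕ => B * ρ ^ J * ρ ^ k := by
    funext k
    rw [if_neg (by omega), pow_add]
    ring
  have hs : Summable (fun k => if k < J then c k else B * ρ ^ k) := by
    rw [← summable_nat_add_iff J, h1]
    exact hgeo.summable
  refine ⟨hs, ?_⟩
  rw [← hs.sum_add_tsum_nat_add J, h1, hgeo.tsum_eq, div_eq_mul_inv]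
  have h2 : ∑ k ∈ range J, (if k < J then c k else B * ρ ^ k) = ∑ k ∈ range J, c k :=
    Finset.sum_congr rfl fun k hk => if_pos (Finset.mem_range.mp hk)
  rw [h2]
  linarith

/-- Z4. The Lindelöf bound in a zero free region. -/
lemma lindelof (δ ε T : ℝ) (hδ : 0 < δ) (hδ1 : δ ≤ 1 / 10) (hε : 0 < ε) (hT : 0 ≤ T) :
    ∃ q₀ : ℕ, ∀ (q : ℕ) [NeZero q], q₀ ≤ q → ZFB q δ (T + 2) →
    ∀ χ : DirichletCharacter ℂ q, χ ≠ 1 → ∀ z : ℂ, 1 / 2 + 2 * δ ≤ z.re → |z.im| ≤ T →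
    ‖χ.LFunction z‖ ≤ (q : ℝ) ^ ε := by
  obtain ⟨C₁, hC₁0, hC₁⟩ := tk_bound
  obtain ⟨C₂, hC₂0, hC₂⟩ := tk_small δ hδ hδ1
  obtain ⟨C₃, hC₃1, hC₃⟩ := EM.L_upper
  obtain ⟨r, hr⟩ : ∃ r : ℝ, r = 3 / 2 - 2 * δ := ⟨_, rfl⟩
  obtain ⟨R, hRdef⟩ : ∃ R : ℝ, R = 3 / 2 - δ := ⟨_, rfl⟩
  obtain ⟨ρ, hρdef⟩ : ∃ ρ : ℝ, ρ = r / R := ⟨_, rfl⟩
  have hr0 : 0 < r := by rw [hr]; linarith
  have hR0 : 0 < R := by rw [hRdef]; linarith
  have hrR : r < R := by rw [hr, hRdef]; linarith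
  have hρ0 : 0 ≤ ρ := by rw [hρdef]; positivity
  have hρ1 : ρ < 1 := by rw [hρdef, div_lt_one hR0]; exact hrR
  -- choice of `J`
  obtain ⟨J, hJ⟩ : ∃ J : ℕ, C₂ * r * ρ ^ J / (1 - ρ) ≤ ε / 3 := by
    have h1 : Filter.Tendsto (fun J : ℕ => C₂ * r * ρ ^ J / (1 - ρ)) Filter.atTop (nhds 0) := by
      have h2 := (tendsto_pow_atTop_nhds_zero_of_lt_one hρ0 hρ1).const_mul (C₂ * r)
      have h3 := h2.div_const (1 - ρ)
      simpa using h3
    exact (h1.eventually (ge_mem_nhds (by positivity))).exists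
  obtain ⟨H, hH⟩ : ∃ H : ℝ, H = ∑ k ∈ range J, C₁ * (4 / 3 : ℝ) ^ k * r ^ (k + 1) := ⟨_, rfl⟩
  have hH0 : 0 ≤ H := by
    rw [hH]
    exact Finset.sum_nonneg fun k _ => by positivity
  obtain ⟨K, hK⟩ : ∃ K : ℝ, K = C₃ * Real.exp H := ⟨_, rfl⟩
  have hK1 : 1 ≤ K := by
    rw [hK]
    have := Real.one_le_exp hH0
    nlinarith
  have hC₃K : C₃ ≤ K := by
    rw [hK]
    have := Real.one_le_exp hH0
    nlinarith
  refine ⟨41 + ⌈(T + 2) ^ 2⌉₊ + ⌈K ^ (3 / ε)⌉₊, fun q _ hq hZ χ hχ z hz1 hz2 => ?_⟩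
  have hq41 : 41 ≤ q := by omega
  have hq1 : (1 : ℝ) ≤ q := by exact_mod_cast (by omega : 1 ≤ q)
  have hqT : (T + 2) ^ 2 ≤ (q : ℝ) :=
    (Nat.le_ceil _).trans (by exact_mod_cast (by omega : ⌈(T + 2) ^ 2⌉₊ ≤ q))
  have hqK : K ≤ (q : ℝ) ^ (ε / 3) := by
    have h1 : K ^ (3 / ε) ≤ (q : ℝ) :=
      (Nat.le_ceil _).trans (by exact_mod_cast (by omega : ⌈K ^ (3 / ε)⌉₊ ≤ q))
    have hK0 : 0 ≤ K := by linarith
    have h2 : (K ^ (3 / ε)) ^ (ε / 3) ≤ (q : ℝ) ^ (ε / 3) :=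
      Real.rpow_le_rpow (by positivity) h1 (by positivity)
    rwa [← Real.rpow_mul hK0, show 3 / ε * (ε / 3) = 1 by field_simp, Real.rpow_one] at h2
  have hqε : (q : ℝ) ^ (ε / 3) ≤ (q : ℝ) ^ ε :=
    Real.rpow_le_rpow_of_exponent_le hq1 (by linarith)
  rcases le_or_gt 2 z.re with h2 | h2
  · exact (hC₃ q χ z (by linarith)).trans ((hC₃K.trans hqK).trans hqε)
  -- the center
  obtain ⟨s, hs⟩ : ∃ s : ℂ, s = ⟨2, z.im⟩ := ⟨_, rfl⟩
  have hsre : s.re = 2 := by rw [hs]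
  have hsim : s.im = z.im := by rw [hs]
  have hzs : ‖z - s‖ = 2 - z.re := by
    have h3 : z - s = ((z.re - 2 : ℝ) : ℂ) := by
      apply Complex.ext
      · simp [hs]
      · simp [hs]
    rw [h3, Complex.norm_real, Real.norm_eq_abs, abs_of_neg (by linarith)]
    ring
  have hzr : ‖z - s‖ ≤ r := by rw [hzs, hr]; linarith
  have hzball : z ∈ Metric.ball s R := by
    rw [Metric.mem_ball, dist_eq_norm]
    linarith
  have hlog : 0 ≤ Real.log q := Real.log_nonneg hq1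
  have hb : ∀ k : ℕ, ‖TC (fun z => -logDeriv χ.LFunction z) s k‖ * ‖z - s‖ ^ (k + 1)
      ≤ (if k < J then C₁ * (4 / 3 : ℝ) ^ k * r ^ (k + 1)
        else C₂ * Real.log q * r * ρ ^ k) := by
    intro k
    have h4 : ‖z - s‖ ^ (k + 1) ≤ r ^ (k + 1) := pow_le_pow_left₀ (norm_nonneg _) hzr _
    split_ifs with hk
    · have h5 := hC₁ q χ s hsre k
      exact mul_le_mul h5 h4 (by positivity) (by positivity)
    · have h5 := hC₂ q hq41 (T + 2) (by linarith) hqT hZ χ hχ s hsre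
        (by rw [hsim]; linarith) k
      have h6 : C₂ * Real.log q * r * ρ ^ k
          = C₂ * Real.log q * ((3 / 2 - δ)⁻¹) ^ k * r ^ (k + 1) := by
        rw [hρdef, ← hRdef, div_eq_mul_inv, mul_pow]
        ring
      rw [h6]
      exact mul_le_mul h5 h4 (by positivity) (by rw [← hRdef]; positivity)
  obtain ⟨hsum, hle⟩ := Z4_tail J H (C₂ * Real.log q * r) ρ
    (fun k => C₁ * (4 / 3 : ℝ) ^ k * r ^ (k + 1)) hρ0 hρ1 hH.ge
  have hmain := Z4_exp χ.LFunction s R hR0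
    (fun w _ => χ.differentiableAt_LFunction w (.inr hχ))
    (fun w hw => by
      rw [Metric.mem_ball, dist_eq_norm] at hw
      have h7 := Complex.abs_re_le_norm (w - s)
      have h8 := Complex.abs_im_le_norm (w - s)
      rw [Complex.sub_re, hsre, abs_le] at h7
      rw [Complex.sub_im, hsim, abs_le] at h8
      rw [abs_le] at hz2
      refine hZ χ hχ w ?_ ?_
      · rw [hRdef] at hw
        linarith
      · rw [abs_le]
        constructor <;> · rw [hRdef] at hw; linarith)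
    z hzball _ hb hsum
  have htail : C₂ * Real.log q * r * ρ ^ J / (1 - ρ) ≤ ε / 3 * Real.log q := by
    calc C₂ * Real.log q * r * ρ ^ J / (1 - ρ)
        = (C₂ * r * ρ ^ J / (1 - ρ)) * Real.log q := by ring
      _ ≤ ε / 3 * Real.log q := mul_le_mul_of_nonneg_right hJ hlog
  have hexp : Real.exp (∑' k, (if k < J then C₁ * (4 / 3 : ℝ) ^ k * r ^ (k + 1)
      else C₂ * Real.log q * r * ρ ^ k)) ≤ Real.exp H * (q : ℝ) ^ (ε / 3) := by
    rw [Real.rpow_def_of_pos (by linarith), ← Real.exp_add, Real.exp_le_exp]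
    have := hle
    linarith [mul_comm (ε / 3) (Real.log q)]
  have hLs : ‖χ.LFunction s‖ ≤ C₃ := hC₃ q χ s (by rw [hsre]; norm_num)
  calc ‖χ.LFunction z‖ ≤ ‖χ.LFunction s‖ * Real.exp (∑' k, (if k < J then
        C₁ * (4 / 3 : ℝ) ^ k * r ^ (k + 1) else C₂ * Real.log q * r * ρ ^ k)) := hmain
    _ ≤ C₃ * (Real.exp H * (q : ℝ) ^ (ε / 3)) := by gcongr
    _ = K * (q : ℝ) ^ (ε / 3) := by rw [hK]; ring
    _ ≤ (q : ℝ) ^ (ε / 3) * (q : ℝ) ^ (ε / 3) := by gcongr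
    _ = (q : ℝ) ^ (ε / 3 + ε / 3) := by rw [Real.rpow_add (by linarith)]
    _ ≤ (q : ℝ) ^ ε := Real.rpow_le_rpow_of_exponent_le hq1 (by linarith)

end Pool.Agent.MZ
end

section

set_option autoImplicit false

namespace Pool.Agent.MW

open Complex Finset MY MZ

/-- A5. The Lindelöf bound in a zero free region, uniformly in the height (as `MZ.Z4`). -/
lemma lindelof (δ δ' ε : ℝ) (hδ : 0 < δ) (hδ' : δ < δ') (hδ1 : δ' < 1 / 2) (hε : 0 < ε) :
    ∃ q₀ : ℕ, ∀ (q : ℕ) [NeZero q], q₀ ≤ q → ∀ T : ℝ, 0 ≤ T → (T + 2) ^ 2 ≤ q →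
    ZFB q δ (T + 2) →
    ∀ χ : DirichletCharacter ℂ q, χ ≠ 1 → ∀ z : ℂ, 1 / 2 + δ' ≤ z.re → |z.im| ≤ T →
    ‖χ.LFunction z‖ ≤ (q : ℝ) ^ ε := by
  obtain ⟨C₁, hC₁0, hC₁⟩ := tk_bound
  obtain ⟨C₂, hC₂0, hC₂⟩ := MW.tk_small δ hδ (hδ'.trans hδ1)
  obtain ⟨C₃, hC₃1, hC₃⟩ := EM.L_upper
  obtain ⟨r, hr⟩ : ∃ r : ℝ, r = 3 / 2 - δ' := ⟨_, rfl⟩
  obtain ⟨R, hRdef⟩ : ∃ R : ℝ, R = 3 / 2 - δ := ⟨_, rfl⟩
  obtain ⟨ρ, hρdef⟩ : ∃ ρ : ℝ, ρ = r / R := ⟨_, rfl⟩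
  have hr0 : 0 < r := by rw [hr]; linarith
  have hR0 : 0 < R := by rw [hRdef]; linarith
  have hrR : r < R := by rw [hr, hRdef]; linarith
  have hρ0 : 0 ≤ ρ := by rw [hρdef]; positivity
  have hρ1 : ρ < 1 := by rw [hρdef, div_lt_one hR0]; exact hrR
  -- choice of `J`
  obtain ⟨J, hJ⟩ : ∃ J : ℕ, C₂ * r * ρ ^ J / (1 - ρ) ≤ ε / 3 := by
    have h1 : Filter.Tendsto (fun J : ℕ => C₂ * r * ρ ^ J / (1 - ρ)) Filter.atTop (nhds 0) := by
      have h2 := (tendsto_pow_atTop_nhds_zero_of_lt_one hρ0 hρ1).const_mul (C₂ * r)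
      have h3 := h2.div_const (1 - ρ)
      simpa using h3
    exact (h1.eventually (ge_mem_nhds (by positivity))).exists
  obtain ⟨H, hH⟩ : ∃ H : ℝ, H = ∑ k ∈ range J, C₁ * (4 / 3 : ℝ) ^ k * r ^ (k + 1) := ⟨_, rfl⟩
  have hH0 : 0 ≤ H := by
    rw [hH]
    exact Finset.sum_nonneg fun k _ => by positivity
  obtain ⟨K, hK⟩ : ∃ K : ℝ, K = C₃ * Real.exp H := ⟨_, rfl⟩
  have hK1 : 1 ≤ K := by
    rw [hK]
    have := Real.one_le_exp hH0
    nlinarith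
  have hC₃K : C₃ ≤ K := by
    rw [hK]
    have := Real.one_le_exp hH0
    nlinarith
  refine ⟨41 + ⌈K ^ (3 / ε)⌉₊, fun q _ hq T hT hqT hZ χ hχ z hz1 hz2 => ?_⟩
  have hq41 : 41 ≤ q := by omega
  have hq1 : (1 : ℝ) ≤ q := by exact_mod_cast (by omega : 1 ≤ q)
  have hqK : K ≤ (q : ℝ) ^ (ε / 3) := by
    have h1 : K ^ (3 / ε) ≤ (q : ℝ) :=
      (Nat.le_ceil _).trans (by exact_mod_cast (by omega : ⌈K ^ (3 / ε)⌉₊ ≤ q))
    have hK0 : 0 ≤ K := by linarith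
    have h2 : (K ^ (3 / ε)) ^ (ε / 3) ≤ (q : ℝ) ^ (ε / 3) :=
      Real.rpow_le_rpow (by positivity) h1 (by positivity)
    rwa [← Real.rpow_mul hK0, show 3 / ε * (ε / 3) = 1 by field_simp, Real.rpow_one] at h2
  have hqε : (q : ℝ) ^ (ε / 3) ≤ (q : ℝ) ^ ε :=
    Real.rpow_le_rpow_of_exponent_le hq1 (by linarith)
  rcases le_or_gt 2 z.re with h2 | h2
  · exact (hC₃ q χ z (by linarith)).trans ((hC₃K.trans hqK).trans hqε)
  -- the center
  obtain ⟨s, hs⟩ : ∃ s : ℂ, s = ⟨2, z.im⟩ := ⟨_, rfl⟩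
  have hsre : s.re = 2 := by rw [hs]
  have hsim : s.im = z.im := by rw [hs]
  have hzs : ‖z - s‖ = 2 - z.re := by
    have h3 : z - s = ((z.re - 2 : ℝ) : ℂ) := by
      apply Complex.ext
      · simp [hs]
      · simp [hs]
    rw [h3, Complex.norm_real, Real.norm_eq_abs, abs_of_neg (by linarith)]
    ring
  have hzr : ‖z - s‖ ≤ r := by rw [hzs, hr]; linarith
  have hzball : z ∈ Metric.ball s R := by
    rw [Metric.mem_ball, dist_eq_norm]
    linarith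
  have hlog : 0 ≤ Real.log q := Real.log_nonneg hq1
  have hb : ∀ k : ℕ, ‖TC (fun z => -logDeriv χ.LFunction z) s k‖ * ‖z - s‖ ^ (k + 1)
      ≤ (if k < J then C₁ * (4 / 3 : ℝ) ^ k * r ^ (k + 1)
        else C₂ * Real.log q * r * ρ ^ k) := by
    intro k
    have h4 : ‖z - s‖ ^ (k + 1) ≤ r ^ (k + 1) := pow_le_pow_left₀ (norm_nonneg _) hzr _
    split_ifs with hk
    · have h5 := hC₁ q χ s hsre k
      exact mul_le_mul h5 h4 (by positivity) (by positivity)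
    · have h5 := hC₂ q hq41 (T + 2) (by linarith) hqT hZ χ hχ s hsre
        (by rw [hsim]; linarith) k
      have h6 : C₂ * Real.log q * r * ρ ^ k
          = C₂ * Real.log q * ((3 / 2 - δ)⁻¹) ^ k * r ^ (k + 1) := by
        rw [hρdef, ← hRdef, div_eq_mul_inv, mul_pow]
        ring
      rw [h6]
      exact mul_le_mul h5 h4 (by positivity) (by rw [← hRdef]; positivity)
  obtain ⟨hsum, hle⟩ := Z4_tail J H (C₂ * Real.log q * r) ρ
    (fun k => C₁ * (4 / 3 : ℝ) ^ k * r ^ (k + 1)) hρ0 hρ1 hH.ge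
  have hmain := Z4_exp χ.LFunction s R hR0
    (fun w _ => χ.differentiableAt_LFunction w (.inr hχ))
    (fun w hw => by
      rw [Metric.mem_ball, dist_eq_norm] at hw
      have h7 := Complex.abs_re_le_norm (w - s)
      have h8 := Complex.abs_im_le_norm (w - s)
      rw [Complex.sub_re, hsre, abs_le] at h7
      rw [Complex.sub_im, hsim, abs_le] at h8
      rw [abs_le] at hz2
      refine hZ χ hχ w ?_ ?_
      · rw [hRdef] at hw
        linarith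
      · rw [abs_le]
        constructor <;> · rw [hRdef] at hw; linarith)
    z hzball _ hb hsum
  have htail : C₂ * Real.log q * r * ρ ^ J / (1 - ρ) ≤ ε / 3 * Real.log q := by
    calc C₂ * Real.log q * r * ρ ^ J / (1 - ρ)
        = (C₂ * r * ρ ^ J / (1 - ρ)) * Real.log q := by ring
      _ ≤ ε / 3 * Real.log q := mul_le_mul_of_nonneg_right hJ hlog
  have hexp : Real.exp (∑' k, (if k < J then C₁ * (4 / 3 : ℝ) ^ k * r ^ (k + 1)
      else C₂ * Real.log q * r * ρ ^ k)) ≤ Real.exp H * (q : ℝ) ^ (ε / 3) := by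
    rw [Real.rpow_def_of_pos (by linarith), ← Real.exp_add, Real.exp_le_exp]
    have := hle
    linarith [mul_comm (ε / 3) (Real.log q)]
  have hLs : ‖χ.LFunction s‖ ≤ C₃ := hC₃ q χ s (by rw [hsre]; norm_num)
  calc ‖χ.LFunction z‖ ≤ ‖χ.LFunction s‖ * Real.exp (∑' k, (if k < J then
        C₁ * (4 / 3 : ℝ) ^ k * r ^ (k + 1) else C₂ * Real.log q * r * ρ ^ k)) := hmain
    _ ≤ C₃ * (Real.exp H * (q : ℝ) ^ (ε / 3)) := by gcongr
    _ = K * (q : ℝ) ^ (ε / 3) := by rw [hK]; ring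
    _ ≤ (q : ℝ) ^ (ε / 3) * (q : ℝ) ^ (ε / 3) := by gcongr
    _ = (q : ℝ) ^ (ε / 3 + ε / 3) := by rw [Real.rpow_add (by linarith)]
    _ ≤ (q : ℝ) ^ ε := Real.rpow_le_rpow_of_exponent_le hq1 (by linarith)

end Pool.Agent.MW
end
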