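import Mathlib
import Pool.Agent.Lib.MP_9cfc0a_nt.Mg.G023
import Pool.Agent.Lib.MP_9cfc0a_nt.MY.D1
import Pool.Agent.Lib.MP_9cfc0a_nt.Mg.G030
import Pool.Agent.Lib.MP_9cfc0a_nt.Mg.G038
import Pool.Agent.Lib.MP_9cfc0a_nt.Mg.G024
import Pool.Agent.Lib.MP_9cfc0a_nt.Mg.G029
import Pool.Agent.Lib.MP_9cfc0a_nt.MY.A2
import Pool.Agent.Lib.MP_9cfc0a_nt.Mg.G026
import Pool.Agent.Lib.MP_9cfc0a_nt.Mg.G027

section

set_option autoImplicit false

namespace Pool.Agent.MZ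

open Complex Finset MY

lemma fB_meas (q : ℕ) [NeZero q] (B : Finset (ZMod q)ˣ) (c : (ZMod q)ˣ) : Measurable (fB q B c) := by
  unfold fB
  by_cases hc : c ∈ B
  · simp only [hc, if_true]
    exact measurable_const
  · simp only [hc, if_false]
    refine (psiU_meas q c).sub ?_
    unfold mB
    exact (Finset.measurable_fun_sum _ fun i _ => psiU_meas q i).div_const _

lemma V1_mB_mem (q : ℕ) [NeZero q] (B : Finset (ZMod q)ˣ) (x : ℝ) (hx : 0 ≤ x) :
    0 ≤ mB q B x ∧ mB q B x ≤ 6 * x := by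
  unfold mB
  have h0 : 0 ≤ ∑ c ∈ Bᶜ, psiU q c x := sum_nonneg fun c _ => psiU_nonneg q c x
  refine ⟨div_nonneg h0 (Nat.cast_nonneg _), ?_⟩
  rcases Nat.eq_zero_or_pos (Bᶜ).card with h | h
  · rw [h]
    simp only [Nat.cast_zero, div_zero]
    linarith
  · have h' : (0 : ℝ) < (Bᶜ).card := by exact_mod_cast h
    rw [div_le_iff₀ h']
    calc ∑ c ∈ Bᶜ, psiU q c x ≤ ∑ _c ∈ Bᶜ, 6 * x := sum_le_sum fun c _ => psiU_le q c x hx
      _ = 6 * x * (Bᶜ).card := by rw [sum_const, nsmul_eq_mul]; ring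

lemma fB_bound (q : ℕ) [NeZero q] (B : Finset (ZMod q)ˣ) (c : (ZMod q)ˣ) (x : ℝ) (hx : 0 ≤ x) :
    |fB q B c x| ≤ 6 * x := by
  unfold fB
  by_cases hc : c ∈ B
  · simp only [hc, if_true, abs_zero]
    linarith
  · simp only [hc, if_false]
    obtain ⟨h1, h2⟩ := V1_mB_mem q B x hx
    have h3 := psiU_nonneg q c x
    have h4 := psiU_le q c x hx
    rw [abs_le]
    constructor <;> linarith

lemma V1_sum_compl (q : ℕ) [NeZero q] (B : Finset (ZMod q)ˣ) (x : ℝ) :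
    ∑ c ∈ Bᶜ, (psiU q c x - mB q B x) = 0 := by
  rw [sum_sub_distrib, sum_const, nsmul_eq_mul]
  unfold mB
  rcases Nat.eq_zero_or_pos (Bᶜ).card with h | h
  · rw [Finset.card_eq_zero.mp h]
    simp
  · have h' : ((Bᶜ).card : ℝ) ≠ 0 := by exact_mod_cast h.ne'
    field_simp
    ring

lemma V1_sum_eq (q : ℕ) [NeZero q] (B : Finset (ZMod q)ˣ) (x : ℝ) (F : ℝ → ℝ) (hF : F 0 = 0) :
    ∑ c, F (fB q B c x) = ∑ c ∈ Bᶜ, F (psiU q c x - mB q B x) := by
  rw [← sum_subset (subset_univ (Bᶜ))]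
  · apply sum_congr rfl
    intro c hc
    unfold fB
    rw [if_neg (Finset.mem_compl.mp hc)]
  · intro c _ hc
    have hc' : c ∈ B := by
      by_contra h
      exact hc (Finset.mem_compl.mpr h)
    unfold fB
    rw [if_pos hc', hF]

lemma fB_sum (q : ℕ) [NeZero q] (B : Finset (ZMod q)ˣ) (x : ℝ) : ∑ c, fB q B c x = 0 := by
  have h := V1_sum_eq q B x (fun y => y) rfl
  rw [h]
  exact V1_sum_compl q B x

lemma fB_mem (q : ℕ) [NeZero q] (B : Finset (ZMod q)ˣ) (c : (ZMod q)ˣ) (hc : c ∈ B) (x : ℝ) :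
    fB q B c x = 0 := by
  unfold fB
  rw [if_pos hc]

lemma VB_nonneg (q : ℕ) [NeZero q] (B : Finset (ZMod q)ˣ) (x : ℝ) : 0 ≤ VB q B x :=
  sum_nonneg fun _ _ => sq_nonneg _

lemma V1_VB_meas (q : ℕ) [NeZero q] (B : Finset (ZMod q)ˣ) : Measurable (VB q B) := by
  unfold VB
  exact Finset.measurable_fun_sum _ fun i _ => (fB_meas q B i).pow_const 2

lemma VB_int (q : ℕ) [NeZero q] (B : Finset (ZMod q)ˣ) (X Y : ℝ) (hX : 1 ≤ X) :
    MeasureTheory.IntegrableOn (fun x => VB q B x / x ^ 2) (Set.Ioc X Y) := by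
  refine MeasureTheory.Measure.integrableOn_of_bounded (M := 36 * Fintype.card (ZMod q)ˣ)
    (by simp) (((V1_VB_meas q B).div (measurable_id.pow_const 2)).aestronglyMeasurable) ?_
  refine (MeasureTheory.ae_restrict_iff' measurableSet_Ioc).mpr (MeasureTheory.ae_of_all _ ?_)
  intro x hx
  have hx0 : 0 < x := by linarith [hx.1]
  rw [Real.norm_of_nonneg (div_nonneg (VB_nonneg q B x) (by positivity)),
    div_le_iff₀ (by positivity)]
  unfold VB
  calc ∑ c, (fB q B c x) ^ 2 ≤ ∑ _c : (ZMod q)ˣ, 36 * x ^ 2 := by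
        apply sum_le_sum
        intro c _
        have h := fB_bound q B c x hx0.le
        calc (fB q B c x) ^ 2 = |fB q B c x| ^ 2 := (sq_abs _).symm
          _ ≤ (6 * x) ^ 2 := by gcongr
          _ = 36 * x ^ 2 := by ring
    _ = 36 * (Fintype.card (ZMod q)ˣ) * x ^ 2 := by
        rw [sum_const, card_univ, nsmul_eq_mul]; ring

/-- The difference of two classes outside `B`. -/
lemma diff_le_VB (q : ℕ) [NeZero q] (B : Finset (ZMod q)ˣ) (X Y : ℝ) (hX : 1 ≤ X)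
    (c c' : (ZMod q)ˣ) (hc : c ∉ B) (hc' : c' ∉ B) :
    ∫ x in Set.Ioc X Y, (psiU q c x - psiU q c' x) ^ 2 / x ^ 2
      ≤ 2 * ∫ x in Set.Ioc X Y, VB q B x / x ^ 2 := by
  rw [← MeasureTheory.integral_const_mul]
  refine MeasureTheory.setIntegral_mono_on ?_ ((VB_int q B X Y hX).const_mul 2)
    measurableSet_Ioc ?_
  · refine MeasureTheory.Measure.integrableOn_of_bounded (M := 36) (by simp)
      (((((psiU_meas q c).sub (psiU_meas q c')).pow_const 2).div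
        (measurable_id.pow_const 2)).aestronglyMeasurable) ?_
    refine (MeasureTheory.ae_restrict_iff' measurableSet_Ioc).mpr (MeasureTheory.ae_of_all _ ?_)
    intro x hx
    have hx0 : 0 < x := by linarith [hx.1]
    rw [Real.norm_of_nonneg (by positivity), div_le_iff₀ (by positivity)]
    have h := psiU_diff_le q c c' x hx0.le
    calc (psiU q c x - psiU q c' x) ^ 2 = |psiU q c x - psiU q c' x| ^ 2 := (sq_abs _).symm
      _ ≤ (6 * x) ^ 2 := by gcongr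
      _ = 36 * x ^ 2 := by ring
  · intro x hx
    have hx0 : 0 < x := by linarith [hx.1]
    rw [← mul_div_assoc]
    apply div_le_div_of_nonneg_right _ (by positivity)
    have e1 : psiU q c x - psiU q c' x = fB q B c x - fB q B c' x := by
      unfold fB
      rw [if_neg hc, if_neg hc']
      ring
    rw [e1]
    by_cases h : c = c'
    · subst h
      have := VB_nonneg q B x
      simp only [sub_self]
      nlinarith
    · have h2 : (fB q B c x) ^ 2 + (fB q B c' x) ^ 2 ≤ VB q B x := by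
        unfold VB
        rw [← Finset.sum_pair (f := fun d => (fB q B d x) ^ 2) h]
        exact sum_le_sum_of_subset_of_nonneg (subset_univ _) fun _ _ _ => sq_nonneg _
      nlinarith [sq_nonneg (fB q B c x + fB q B c' x)]

/-- The variance about any other centre is larger. -/
lemma VB_le (q : ℕ) [NeZero q] (B : Finset (ZMod q)ˣ) (x m : ℝ) :
    VB q B x ≤ ∑ c ∈ Bᶜ, (psiU q c x - m) ^ 2 := by
  have h1 : VB q B x = ∑ c ∈ Bᶜ, (psiU q c x - mB q B x) ^ 2 := by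
    unfold VB
    exact V1_sum_eq q B x (fun y => y ^ 2) (by norm_num)
  have h2 : ∑ c ∈ Bᶜ, (psiU q c x - m) ^ 2 = ∑ c ∈ Bᶜ, (psiU q c x - mB q B x) ^ 2
      + (Bᶜ).card * (mB q B x - m) ^ 2 := by
    have h3 : ∀ c ∈ Bᶜ, (psiU q c x - m) ^ 2 = (psiU q c x - mB q B x) ^ 2
        + (mB q B x - m) ^ 2 + 2 * (mB q B x - m) * (psiU q c x - mB q B x) := by
      intro c _; ring
    rw [sum_congr rfl h3, sum_add_distrib, sum_add_distrib, ← mul_sum, V1_sum_compl q B x,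
      sum_const, nsmul_eq_mul]
    ring
  rw [h1, h2]
  have : 0 ≤ ((Bᶜ).card : ℝ) * (mB q B x - m) ^ 2 := by positivity
  linarith

end Pool.Agent.MZ
end

section

set_option autoImplicit false

namespace Pool.Agent.MW

open Complex Finset MY MZ

lemma A2_pow (θ : ℝ) (hθ : 1 / 2 ≤ θ) {x : ℝ} (hx : 1 ≤ x) : x ^ 2 ≤ x ^ (1 + 2 * θ) := by
  have h1 : x ^ 2 = x ^ (2 : ℝ) := (Real.rpow_two x).symm
  rw [h1]
  exact Real.rpow_le_rpow_of_exponent_le hx (by linarith)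

lemma A2_meas (θ : ℝ) : Measurable fun x : ℝ => x ^ (1 + 2 * θ) :=
  Measurable.pow_const measurable_id _

lemma VB_int (q : ℕ) [NeZero q] (B : Finset (ZMod q)ˣ) (θ : ℝ) (hθ : 1 / 2 ≤ θ) (X Y : ℝ)
    (hX : 1 ≤ X) :
    MeasureTheory.IntegrableOn (fun x => VB q B x / x ^ (1 + 2 * θ)) (Set.Ioc X Y) := by
  refine MeasureTheory.Measure.integrableOn_of_bounded (M := 36 * Fintype.card (ZMod q)ˣ)
    (by simp) (((V1_VB_meas q B).div (A2_meas θ)).aestronglyMeasurable) ?_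
  refine (MeasureTheory.ae_restrict_iff' measurableSet_Ioc).mpr (MeasureTheory.ae_of_all _ ?_)
  intro x hx
  have hx1 : 1 ≤ x := by linarith [hx.1]
  have hx0 : 0 < x := by linarith [hx.1]
  have hpow := A2_pow θ hθ hx1
  rw [Real.norm_of_nonneg (div_nonneg (VB_nonneg q B x) (by positivity)),
    div_le_iff₀ (by positivity)]
  unfold VB
  calc ∑ c, (fB q B c x) ^ 2 ≤ ∑ _c : (ZMod q)ˣ, 36 * x ^ 2 := by
        apply sum_le_sum
        intro c _
        have h := fB_bound q B c x hx0.le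
        calc (fB q B c x) ^ 2 = |fB q B c x| ^ 2 := (sq_abs _).symm
          _ ≤ (6 * x) ^ 2 := by gcongr
          _ = 36 * x ^ 2 := by ring
    _ = 36 * (Fintype.card (ZMod q)ˣ) * x ^ 2 := by
        rw [sum_const, card_univ, nsmul_eq_mul]; ring
    _ ≤ 36 * (Fintype.card (ZMod q)ˣ) * x ^ (1 + 2 * θ) := by gcongr

/-- The difference of two classes outside `B`. -/
lemma diff_le_VB (q : ℕ) [NeZero q] (B : Finset (ZMod q)ˣ) (θ : ℝ) (hθ : 1 / 2 ≤ θ) (X Y : ℝ)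
    (hX : 1 ≤ X) (c c' : (ZMod q)ˣ) (hc : c ∉ B) (hc' : c' ∉ B) :
    ∫ x in Set.Ioc X Y, (psiU q c x - psiU q c' x) ^ 2 / x ^ (1 + 2 * θ)
      ≤ 2 * ∫ x in Set.Ioc X Y, VB q B x / x ^ (1 + 2 * θ) := by
  rw [← MeasureTheory.integral_const_mul]
  refine MeasureTheory.setIntegral_mono_on ?_ ((MW.VB_int q B θ hθ X Y hX).const_mul 2)
    measurableSet_Ioc ?_
  · refine MeasureTheory.Measure.integrableOn_of_bounded (M := 36) (by simp)
      (((((psiU_meas q c).sub (psiU_meas q c')).pow_const 2).div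
        (A2_meas θ)).aestronglyMeasurable) ?_
    refine (MeasureTheory.ae_restrict_iff' measurableSet_Ioc).mpr (MeasureTheory.ae_of_all _ ?_)
    intro x hx
    have hx1 : 1 ≤ x := by linarith [hx.1]
    have hx0 : 0 < x := by linarith [hx.1]
    have hpow := A2_pow θ hθ hx1
    rw [Real.norm_of_nonneg (by positivity), div_le_iff₀ (by positivity)]
    have h := psiU_diff_le q c c' x hx0.le
    calc (psiU q c x - psiU q c' x) ^ 2 = |psiU q c x - psiU q c' x| ^ 2 := (sq_abs _).symm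
      _ ≤ (6 * x) ^ 2 := by gcongr
      _ = 36 * x ^ 2 := by ring
      _ ≤ 36 * x ^ (1 + 2 * θ) := by gcongr
  · intro x hx
    have hx0 : 0 < x := by linarith [hx.1]
    rw [← mul_div_assoc]
    apply div_le_div_of_nonneg_right _ (by positivity)
    have e1 : psiU q c x - psiU q c' x = fB q B c x - fB q B c' x := by
      unfold fB
      rw [if_neg hc, if_neg hc']
      ring
    rw [e1]
    by_cases h : c = c'
    · subst h
      have := VB_nonneg q B x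
      simp only [sub_self]
      nlinarith
    · have h2 : (fB q B c x) ^ 2 + (fB q B c' x) ^ 2 ≤ VB q B x := by
        unfold VB
        rw [← Finset.sum_pair (f := fun d => (fB q B d x) ^ 2) h]
        exact sum_le_sum_of_subset_of_nonneg (subset_univ _) fun _ _ _ => sq_nonneg _
      nlinarith [sq_nonneg (fB q B c x + fB q B c' x)]

end Pool.Agent.MW
end

section

set_option autoImplicit false

namespace Pool.Agent.MZ

open Complex Finset MY

open MeasureTheory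

/-- `f J_j`. -/
lemma F1_intJ (f : ℝ → ℝ) (hf : Measurable f) (hb : ∀ t : ℝ, 1 < t → |f t| ≤ 6 * t) (s : ℂ)
    (hs : s.re = 2) (j : ℕ) :
    IntegrableOn (fun t : ℝ => (f t : ℂ) * Jk s j t) (Set.Ioi 1) := by
  have hfC : Measurable (fun t => (f t : ℂ)) := Complex.measurable_ofReal.comp hf
  have hbC : ∀ t : ℝ, 1 < t → ‖(f t : ℂ)‖ ≤ 6 * t := fun t ht => by
    rw [Complex.norm_real, Real.norm_eq_abs]; exact hb t ht
  rcases Nat.eq_zero_or_pos j with hj | hj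
  · refine ((D1_int (fun t => (f t : ℂ)) 6 hfC hbC s hs j).const_mul s).congr ?_
    refine (ae_restrict_iff' measurableSet_Ioi).mpr (ae_of_all _ fun t ht => ?_)
    simp only [Jk, if_pos hj]
    ring
  · refine (((D1_int (fun t => (f t : ℂ)) 6 hfC hbC s hs j).const_mul s).add
      (D1_int (fun t => (f t : ℂ)) 6 hfC hbC s hs (j - 1))).congr ?_
    refine (ae_restrict_iff' measurableSet_Ioi).mpr (ae_of_all _ fun t ht => ?_)
    have hj' : j ≠ 0 := by omega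
    simp only [Jk, if_neg hj', Pi.add_apply]
    ring

/-- The second moment of `J_j`. -/
lemma F1_Jsq (s : ℂ) (hs : s.re = 2) (S : ℝ) (hS1 : 1 ≤ S) (hS : ‖s‖ ≤ S) (j : ℕ) :
    ∃ G : ℝ → ℝ, Measurable G ∧ (∀ x : ℝ, 1 < x → 0 ≤ G x ∧ ‖Jk s j x‖ ≤ G x / x) ∧
    IntegrableOn (fun x => G x ^ 2) (Set.Ioi 1) ∧
    ∫ x in Set.Ioi (1 : ℝ), G x ^ 2 ≤ ((1 + S) * (2 / 3 : ℝ) ^ j) ^ 2 := by
  rcases Nat.eq_zero_or_pos j with hj | hj
  · subst hj
    obtain ⟨hI, hb⟩ := sq_base 0 1 le_rfl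
    have he : ∀ x ∈ Set.Ioi (1 : ℝ), S ^ 2 * (((Real.log ((1 : ℕ) * x)) ^ 0 / ((0 : ℕ).factorial : ℝ)) ^ 2
        / (((1 : ℕ) : ℝ) * x) ^ 4) = (S / x ^ 2) ^ 2 := by
      intro x hx
      have hx0 : (0 : ℝ) < x := lt_trans one_pos hx
      simp
      field_simp
    refine ⟨fun x => S / x ^ 2, by fun_prop, ?_, ?_, ?_⟩
    · intro x hx
      have hx0 : 0 < x := by linarith
      refine ⟨by positivity, ?_⟩
      unfold Jk
      rw [if_pos rfl, add_zero, norm_div, norm_mul, gi_norm s hs 0 x hx.le, Complex.norm_real,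
        Real.norm_of_nonneg hx0.le]
      simp only [pow_zero, Nat.factorial_zero, Nat.cast_one, div_one]
      rw [mul_one_div]
      gcongr
    · have hI' : IntegrableOn (fun x : ℝ => S ^ 2 * (((Real.log ((1 : ℕ) * x)) ^ 0
          / ((0 : ℕ).factorial : ℝ)) ^ 2 / (((1 : ℕ) : ℝ) * x) ^ 4)) (Set.Ioi 1) :=
        hI.const_mul (S ^ 2)
      exact hI'.congr_fun he measurableSet_Ioi
    · rw [← setIntegral_congr_fun measurableSet_Ioi he, integral_const_mul]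
      have h1 := mul_le_mul_of_nonneg_left hb (sq_nonneg S)
      refine h1.trans ?_
      norm_num
      nlinarith
  · obtain ⟨m, rfl⟩ : ∃ m, j = m + 1 := ⟨j - 1, by omega⟩
    obtain ⟨hI, hb⟩ := KK_sq S hS1 m 1 le_rfl
    refine ⟨fun x => x * KK S m 1 x, ?_, ?_, hI, ?_⟩
    · unfold KK
      fun_prop
    · intro x hx
      have hx0 : 0 < x := by linarith
      refine ⟨mul_nonneg hx0.le (KK_nonneg S (by linarith) m 1 le_rfl x hx.le), ?_⟩
      have h1 := D1_KK s hs S hS m 1 le_rfl x hx.le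
      have h2 : Jk s (m + 1) x = (s * gi s (m + 1) (((1 : ℕ) : ℝ) * x) + gi s m (((1 : ℕ) : ℝ) * x)) / (x : ℂ) := by
        unfold Jk
        rw [if_neg (by omega), Nat.cast_one, one_mul, Nat.add_sub_cancel]
      have h3 : x * KK S m 1 x / x = KK S m 1 x := by
        field_simp
      rw [h2, h3]
      exact h1
    · refine hb.trans (le_of_eq ?_)
      rw [mul_pow, ← pow_mul, mul_comm (m + 1) 2, pow_mul]
      norm_num

/-- F1. The mean square of `F_j`. -/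
lemma Fj_norm (q : ℕ) [NeZero q] (B : Finset (ZMod q)ˣ) (X Y : ℝ) (hX : 1 ≤ X) (hXY : X ≤ Y)
    (s : ℂ) (hs : s.re = 2) (S : ℝ) (hS3 : 3 ≤ S) (hS : ‖s‖ ≤ S) (j : ℕ) :
    ∑ c, ‖Fj q B X Y s j c‖ ^ 2
      ≤ (2 * S * (2 / 3 : ℝ) ^ j) ^ 2 * ∫ x in Set.Ioc X Y, VB q B x / x ^ 2 := by
  have hsub : Set.Ioc X Y ⊆ Set.Ioi 1 := fun x hx => lt_of_le_of_lt hX hx.1
  obtain ⟨G, hGm, hG, hGI, hGb⟩ := F1_Jsq s hs S (by linarith) hS j
  -- integrability of `f^2 / x^2`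
  have hfI : ∀ c : (ZMod q)ˣ, IntegrableOn (fun x : ℝ => (fB q B c x / x) ^ 2) (Set.Ioc X Y) := by
    intro c
    have hm : Measurable (fun x : ℝ => (fB q B c x / x) ^ 2) :=
      ((fB_meas q B c).div measurable_id).pow_const 2
    refine Measure.integrableOn_of_bounded (M := 36) (by simp) hm.aestronglyMeasurable ?_
    refine (ae_restrict_iff' measurableSet_Ioc).mpr (ae_of_all _ fun x hx => ?_)
    have hx1 : 1 < x := hsub hx
    have hx0 : 0 < x := by linarith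
    rw [Real.norm_of_nonneg (sq_nonneg _)]
    have h1 : |fB q B c x / x| ≤ 6 := by
      rw [abs_div, abs_of_pos hx0, div_le_iff₀ hx0]
      exact fB_bound q B c x hx0.le
    rw [← sq_abs]
    nlinarith [abs_nonneg (fB q B c x / x)]
  have hone : ∀ c : (ZMod q)ˣ, ‖Fj q B X Y s j c‖ ^ 2
      ≤ (∫ x in Set.Ioc X Y, (fB q B c x / x) ^ 2) * ((1 + S) * (2 / 3 : ℝ) ^ j) ^ 2 := by
    intro c
    obtain ⟨hPI, hcs⟩ := cs_int (volume.restrict (Set.Ioc X Y)) (fun x => fB q B c x / x) G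
      ((fB_meas q B c).div measurable_id).aestronglyMeasurable hGm.aestronglyMeasurable
      (hfI c) (hGI.mono_set hsub)
    have h1 : ‖Fj q B X Y s j c‖ ≤ ∫ x in Set.Ioc X Y, |fB q B c x / x| * |G x| := by
      unfold Fj
      refine (norm_integral_le_integral_norm _).trans ?_
      refine setIntegral_mono_on ?_ hPI measurableSet_Ioc fun x hx => ?_
      · exact ((F1_intJ (fB q B c) (fB_meas q B c)
          (fun t ht => fB_bound q B c t (by linarith)) s hs j).mono_set hsub).norm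
      · have hx1 : 1 < x := hsub hx
        have hx0 : 0 < x := by linarith
        rw [norm_mul, Complex.norm_real, Real.norm_eq_abs, abs_div, abs_of_pos hx0,
          abs_of_nonneg (hG x hx1).1]
        calc |fB q B c x| * ‖Jk s j x‖ ≤ |fB q B c x| * (G x / x) :=
              mul_le_mul_of_nonneg_left (hG x hx1).2 (abs_nonneg _)
          _ = |fB q B c x| / x * G x := by ring
    have h2 : ∫ x in Set.Ioc X Y, G x ^ 2 ≤ ((1 + S) * (2 / 3 : ℝ) ^ j) ^ 2 := by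
      refine le_trans (setIntegral_mono_set hGI ?_ hsub.eventuallyLE) hGb
      exact ae_of_all _ fun x => sq_nonneg _
    calc ‖Fj q B X Y s j c‖ ^ 2 ≤ (∫ x in Set.Ioc X Y, |fB q B c x / x| * |G x|) ^ 2 :=
          pow_le_pow_left₀ (norm_nonneg _) h1 2
      _ ≤ (∫ x in Set.Ioc X Y, (fB q B c x / x) ^ 2) * ∫ x in Set.Ioc X Y, G x ^ 2 := hcs
      _ ≤ (∫ x in Set.Ioc X Y, (fB q B c x / x) ^ 2) * ((1 + S) * (2 / 3 : ℝ) ^ j) ^ 2 :=
          mul_le_mul_of_nonneg_left h2 (integral_nonneg fun x => sq_nonneg _)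
  have hsum : ∑ c, (∫ x in Set.Ioc X Y, (fB q B c x / x) ^ 2)
      = ∫ x in Set.Ioc X Y, VB q B x / x ^ 2 := by
    rw [← integral_finsetSum _ (fun c _ => hfI c)]
    refine setIntegral_congr_fun measurableSet_Ioc fun x _ => ?_
    unfold VB
    rw [Finset.sum_div]
    exact sum_congr rfl fun c _ => by rw [div_pow]
  calc ∑ c, ‖Fj q B X Y s j c‖ ^ 2
      ≤ ∑ c, (∫ x in Set.Ioc X Y, (fB q B c x / x) ^ 2) * ((1 + S) * (2 / 3 : ℝ) ^ j) ^ 2 :=
        sum_le_sum fun c _ => hone c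
    _ = ((1 + S) * (2 / 3 : ℝ) ^ j) ^ 2 * ∫ x in Set.Ioc X Y, VB q B x / x ^ 2 := by
        rw [← Finset.sum_mul, hsum, mul_comm]
    _ ≤ (2 * S * (2 / 3 : ℝ) ^ j) ^ 2 * ∫ x in Set.Ioc X Y, VB q B x / x ^ 2 := by
        refine mul_le_mul_of_nonneg_right ?_ ?_
        · refine pow_le_pow_left₀ (by positivity) ?_ 2
          exact mul_le_mul_of_nonneg_right (by linarith) (by positivity)
        · refine setIntegral_nonneg measurableSet_Ioc fun x _ => ?_
          exact div_nonneg (VB_nonneg q B x) (sq_nonneg x)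

lemma Fj_sum (q : ℕ) [NeZero q] (B : Finset (ZMod q)ˣ) (X Y : ℝ) (hX : 1 ≤ X) (s : ℂ)
    (hs : s.re = 2) (j : ℕ) : ∑ c, Fj q B X Y s j c = 0 := by
  have hsub : Set.Ioc X Y ⊆ Set.Ioi 1 := fun x hx => lt_of_le_of_lt hX hx.1
  unfold Fj
  rw [← integral_finsetSum]
  · have h0 : ∀ x : ℝ, ∑ c, (fB q B c x : ℂ) * Jk s j x = 0 := by
      intro x
      rw [← Finset.sum_mul]
      have h1 : ∑ c, (fB q B c x : ℂ) = ((∑ c, fB q B c x : ℝ) : ℂ) := by push_cast; rfl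
      rw [h1, fB_sum]
      simp
    simp only [h0, integral_zero]
  · intro c _
    exact (F1_intJ (fB q B c) (fB_meas q B c)
      (fun t ht => fB_bound q B c t (by linarith)) s hs j).mono_set hsub

lemma Fj_mem (q : ℕ) [NeZero q] (B : Finset (ZMod q)ˣ) (X Y : ℝ) (s : ℂ) (j : ℕ) (c : (ZMod q)ˣ)
    (hc : c ∈ B) : Fj q B X Y s j c = 0 := by
  unfold Fj
  have h0 : ∀ x : ℝ, (fB q B c x : ℂ) * Jk s j x = 0 := by
    intro x
    rw [fB_mem q B c hc x]
    simp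
  simp only [h0, integral_zero]

end Pool.Agent.MZ
end

section

set_option autoImplicit false

namespace Pool.Agent.MZ

open Complex Finset MY

lemma R2_un_one (q : ℕ) [NeZero q] : un q 1 = 1 := by
  ext
  rw [un_coe q 1 (Nat.coprime_one_left q)]
  simp

lemma R2_Fn_mem (q : ℕ) [NeZero q] (B : Finset (ZMod q)ˣ) (X Y : ℝ) (s : ℂ) (k : ℕ) (c : (ZMod q)ˣ)
    (n : ℕ) (hc : c ∈ B) : Fn q B X Y s k c n = 0 := by
  unfold Fn
  refine Finset.sum_eq_zero fun i _ => ?_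
  rw [Fj_mem q B X Y s (k - i) c hc, mul_zero]

lemma R2_cz_one (q : ℕ) [NeZero q] (hq : 2 ≤ q) (ε₀ : ℝ) (h0 : 0 < ε₀) (h1 : ε₀ ≤ 1 / 10)
    (B : Finset (ZMod q)ˣ) (a : (ZMod q)ˣ) : cz q ε₀ B a 1 = 1 := by
  have hq1 : (1 : ℝ) ≤ (q : ℝ) := by exact_mod_cast (by omega : 1 ≤ q)
  unfold cz
  refine cn_one _ (Dz_mem q hq B (ZZ q ε₀) ?_ a).1 _ ?_
  · unfold ZZ
    exact Real.one_le_rpow hq1 (by linarith)
  · unfold UU
    exact Real.one_le_rpow hq1 (by linarith)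

/-- R2. The coefficient of a class of `B` in terms of the three sums. -/
lemma pieces (q : ℕ) [NeZero q] (hq : 2 ≤ q) (ε₀ : ℝ) (h0 : 0 < ε₀) (h1 : ε₀ ≤ 1 / 10)
    (B : Finset (ZMod q)ˣ) (X Y : ℝ) (s : ℂ) (k : ℕ) (a : (ZMod q)ˣ) (ha : a ∈ B) (Er : ℝ)
    (Rb : ℕ → ℝ)
    (hrow : ‖∑ n ∈ (Icc 1 (q * NN q ε₀)).filter (fun n => Nat.Coprime n q),
        ((cz q ε₀ B a n : ℝ) : ℂ) * Dn q s k (a * (un q n)⁻¹) n‖ ≤ Er)
    (hRb : ∀ n, 1 ≤ n → 0 ≤ Rb n)
    (hoff : ∀ n, 1 ≤ n → n ≤ q * NN q ε₀ → ∀ c ∉ B,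
      ‖Dn q s k c n - Fn q B X Y s k c n‖ ≤ Rb n) :
    ‖Dk q s k a‖ ≤ ‖XS q ε₀ B X Y s k a‖ + QS q ε₀ B s k a
      + ∑ n ∈ Icc 1 (q * NN q ε₀), |cz q ε₀ B a n| * Rb n + Er := by
  classical
  have hq1 : (1 : ℝ) ≤ (q : ℝ) := by exact_mod_cast (by omega : 1 ≤ q)
  have hN : 1 ≤ NN q ε₀ := by
    unfold NN
    rw [Nat.one_le_ceil_iff]
    have := Real.one_le_rpow hq1 (by linarith : (0 : ℝ) ≤ 1 + ε₀ / 40)
    linarith
  have hM : 1 ≤ q * NN q ε₀ := Nat.one_le_iff_ne_zero.2 (Nat.mul_ne_zero (by omega) (by omega))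
  set S : Finset ℕ := (Icc 1 (q * NN q ε₀)).filter (fun n => Nat.Coprime n q) with hS
  set t : ℕ → ℂ := fun n => ((cz q ε₀ B a n : ℝ) : ℂ) * Dn q s k (a * (un q n)⁻¹) n with ht
  set f : ℕ → ℂ := fun n => ((cz q ε₀ B a n : ℝ) : ℂ) * Fn q B X Y s k (a * (un q n)⁻¹) n with hf
  have h1S : 1 ∈ S := by
    rw [hS, mem_filter, mem_Icc]
    exact ⟨⟨le_refl 1, hM⟩, Nat.coprime_one_left q⟩
  have hXS : XS q ε₀ B X Y s k a = ∑ n ∈ S, f n := rfl
  have ht1 : t 1 = Dk q s k a := by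
    simp only [ht]
    rw [R2_cz_one q hq ε₀ h0 h1 B a, R2_un_one, inv_one, mul_one, Dn_one]
    simp
  have hf1 : f 1 = 0 := by
    simp only [hf]
    rw [R2_un_one, inv_one, mul_one, R2_Fn_mem q B X Y s k a 1 ha, mul_zero]
  have e1 : ∑ n ∈ S, t n = t 1 + ∑ n ∈ S.erase 1, t n := (Finset.add_sum_erase S t h1S).symm
  have e2 : ∑ n ∈ S, f n = f 1 + ∑ n ∈ S.erase 1, f n := (Finset.add_sum_erase S f h1S).symm
  have e3 : Dk q s k a = ∑ n ∈ S, t n - XS q ε₀ B X Y s k a - ∑ n ∈ S.erase 1, (t n - f n) := by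
    rw [Finset.sum_sub_distrib, hXS, e1, e2, ht1, hf1]
    ring
  have hterm : ∀ n ∈ S.erase 1, ‖t n - f n‖ ≤
      (if a * (un q n)⁻¹ ∈ B then |cz q ε₀ B a n| * ‖Dn q s k (a * (un q n)⁻¹) n‖ else 0)
        + |cz q ε₀ B a n| * Rb n := by
    intro n hn
    rw [mem_erase, hS, mem_filter, mem_Icc] at hn
    obtain ⟨_, ⟨hn1, hn2⟩, _⟩ := hn
    have hR := hRb n hn1
    by_cases hb : a * (un q n)⁻¹ ∈ B
    · rw [if_pos hb]
      simp only [ht, hf]
      rw [R2_Fn_mem q B X Y s k _ n hb, mul_zero, sub_zero, norm_mul, Complex.norm_real,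
        Real.norm_eq_abs]
      have := mul_nonneg (abs_nonneg (cz q ε₀ B a n)) hR
      linarith
    · rw [if_neg hb, zero_add]
      simp only [ht, hf]
      rw [← mul_sub, norm_mul, Complex.norm_real, Real.norm_eq_abs]
      exact mul_le_mul_of_nonneg_left (hoff n hn1 hn2 _ hb) (abs_nonneg _)
  have hsum : ‖∑ n ∈ S.erase 1, (t n - f n)‖ ≤ QS q ε₀ B s k a
      + ∑ n ∈ Icc 1 (q * NN q ε₀), |cz q ε₀ B a n| * Rb n := by
    refine (norm_sum_le _ _).trans ((Finset.sum_le_sum hterm).trans ?_)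
    rw [Finset.sum_add_distrib]
    refine add_le_add ?_ ?_
    · rw [← Finset.sum_filter]
      unfold QS
      refine le_of_eq (Finset.sum_congr ?_ fun _ _ => rfl)
      ext n
      simp only [mem_filter, mem_erase, hS, mem_Icc]
      constructor
      · rintro ⟨⟨h1', ⟨h2, h3⟩, h4⟩, h5⟩
        exact ⟨⟨by omega, h3⟩, h4, h5⟩
      · rintro ⟨⟨h1', h2⟩, h3, h4⟩
        exact ⟨⟨by omega, ⟨by omega, h2⟩, h3⟩, h4⟩
    · refine Finset.sum_le_sum_of_subset_of_nonneg ?_ ?_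
      · intro n hn
        rw [mem_erase, hS, mem_filter] at hn
        exact hn.2.1
      · intro n hn _
        exact mul_nonneg (abs_nonneg _) (hRb n (mem_Icc.1 hn).1)
  have hrow' : ‖∑ n ∈ S, t n‖ ≤ Er := hrow
  rw [e3]
  have h5 := norm_sub_le (∑ n ∈ S, t n - XS q ε₀ B X Y s k a) (∑ n ∈ S.erase 1, (t n - f n))
  have h6 := norm_sub_le (∑ n ∈ S, t n) (XS q ε₀ B X Y s k a)
  linarith

end Pool.Agent.MZ
end
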