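import Mathlib
import Pool.Agent.Lib.MP_9cfc0a_nt.Mg.G023
import Pool.Agent.Lib.MP_9cfc0a_nt.Mg.G037
import Pool.Agent.Lib.MP_9cfc0a_nt.Mg.G024
import Pool.Agent.Lib.MP_9cfc0a_nt.MY.A2
import Pool.Agent.Lib.MP_9cfc0a_nt.Mg.G026
import Pool.Agent.Lib.MP_9cfc0a_nt.Mg.G027
import Pool.Agent.Lib.MP_9cfc0a_nt.MY.D1
import Pool.Agent.Lib.MP_9cfc0a_nt.Mg.G029
import Pool.Agent.Lib.MP_9cfc0a_nt.Mg.G030

section

set_option autoImplicit false

namespace Pool.Agent.MW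

open Complex Finset MY MZ

open MeasureTheory

/-- The weighted kernel. -/
noncomputable def A9_h (θ : ℝ) (k : ℕ) (x : ℝ) : ℝ :=
  x ^ (θ - 1 / 2) * ((Real.log x) ^ k / (k.factorial : ℝ) / x ^ 2)

lemma A9_h_meas (θ : ℝ) (k : ℕ) : Measurable (A9_h θ k) := by
  unfold A9_h
  fun_prop

lemma A9_h_nonneg (θ : ℝ) (k : ℕ) (x : ℝ) (hx : 1 < x) : 0 ≤ A9_h θ k x := by
  unfold A9_h
  have hl : 0 ≤ Real.log x := Real.log_nonneg hx.le
  have hx0 : 0 < x := by linarith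
  positivity

lemma A9_h_sq (θ : ℝ) (hθ1 : θ < 1) (k : ℕ) :
    IntegrableOn (fun x => A9_h θ k x ^ 2) (Set.Ioi 1) ∧
    ∫ x in Set.Ioi (1 : ℝ), A9_h θ k x ^ 2 ≤ (((2 - θ)⁻¹) ^ k) ^ 2 / (2 * (2 - θ)) := by
  obtain ⟨ρ, hρ⟩ : ∃ ρ : ℝ, ρ = 2 - θ := ⟨_, rfl⟩
  have hρ0 : 0 < ρ := by rw [hρ]; linarith
  obtain ⟨hI, hb⟩ := D2_base (2 * ρ) (by linarith) (2 * k) 1 le_rfl
  have hf1 : (0 : ℝ) < (k.factorial : ℝ) := by exact_mod_cast k.factorial_pos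
  have hf2 : (0 : ℝ) < ((2 * k).factorial : ℝ) := by exact_mod_cast (2 * k).factorial_pos
  have hc : ((2 * k).factorial : ℝ) / (k.factorial : ℝ) ^ 2 ≤ 4 ^ k := by
    rw [div_le_iff₀ (by positivity)]
    have h1 : (2 * k).choose k * k.factorial * (2 * k - k).factorial = (2 * k).factorial :=
      Nat.choose_mul_factorial_mul_factorial (by omega)
    rw [show 2 * k - k = k by omega] at h1
    have h2 : (2 * k).choose k ≤ 2 ^ (2 * k) := Nat.choose_le_two_pow _ _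
    have h3 : (2 * k).factorial ≤ 2 ^ (2 * k) * k.factorial ^ 2 := by
      rw [← h1, mul_assoc, ← sq]
      exact Nat.mul_le_mul_right _ h2
    have h4 : ((2 * k).factorial : ℝ) ≤ 2 ^ (2 * k) * (k.factorial : ℝ) ^ 2 := by exact_mod_cast h3
    rw [pow_mul] at h4
    norm_num at h4 ⊢
    exact h4
  have he : ∀ x ∈ Set.Ioi (1 : ℝ), A9_h θ k x ^ 2
      = (((2 * k).factorial : ℝ) / (k.factorial : ℝ) ^ 2) *
        ((((1 : ℕ) : ℝ) * x) ^ (-(2 * ρ)) *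
          ((Real.log (((1 : ℕ) : ℝ) * x)) ^ (2 * k) / ((2 * k).factorial : ℝ)) / x) := by
    intro x hx
    have hx1 : (1 : ℝ) < x := hx
    have hx0 : 0 < x := by linarith
    have h1 : (x ^ (θ - 1 / 2)) ^ 2 = x ^ (-(2 * ρ)) * x ^ 3 := by
      rw [← Real.rpow_natCast (x ^ (θ - 1 / 2)) 2, ← Real.rpow_mul hx0.le,
        ← Real.rpow_natCast x 3, ← Real.rpow_add hx0]
      congr 1
      rw [hρ]
      push_cast
      ring
    unfold A9_h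
    rw [mul_pow, h1, Nat.cast_one, one_mul, pow_mul', div_pow, div_pow]
    field_simp
  constructor
  · have h0 : IntegrableOn (fun x : ℝ => (((2 * k).factorial : ℝ) / (k.factorial : ℝ) ^ 2) *
        ((((1 : ℕ) : ℝ) * x) ^ (-(2 * ρ)) *
          ((Real.log (((1 : ℕ) : ℝ) * x)) ^ (2 * k) / ((2 * k).factorial : ℝ)) / x)) (Set.Ioi 1) :=
      hI.const_mul _
    exact h0.congr_fun (fun x hx => (he x hx).symm) measurableSet_Ioi
  · rw [setIntegral_congr_fun measurableSet_Ioi he, integral_const_mul]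
    have hcn : 0 ≤ ((2 * k).factorial : ℝ) / (k.factorial : ℝ) ^ 2 := by positivity
    calc (((2 * k).factorial : ℝ) / (k.factorial : ℝ) ^ 2) *
          ∫ x in Set.Ioi (1 : ℝ), ((((1 : ℕ) : ℝ) * x) ^ (-(2 * ρ)) *
            ((Real.log (((1 : ℕ) : ℝ) * x)) ^ (2 * k) / ((2 * k).factorial : ℝ)) / x)
        ≤ (((2 * k).factorial : ℝ) / (k.factorial : ℝ) ^ 2) *
          ((2 * ρ)⁻¹) ^ (2 * k + 1) := mul_le_mul_of_nonneg_left hb hcn
      _ ≤ 4 ^ k * ((2 * ρ)⁻¹) ^ (2 * k + 1) := by gcongr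
      _ = (((2 - θ)⁻¹) ^ k) ^ 2 / (2 * (2 - θ)) := by
          rw [← hρ]
          have h4 : (4 : ℝ) ^ k * ((2 : ℝ)⁻¹ ^ 2) ^ k = 1 := by
            rw [← mul_pow]; norm_num
          have h5 : ((2 * ρ)⁻¹) ^ (2 * k + 1) = ((2 : ℝ)⁻¹ ^ 2) ^ k * ((ρ⁻¹ ^ k) ^ 2 / (2 * ρ)) := by
            rw [mul_inv, mul_pow, pow_succ, pow_succ, pow_mul, ← pow_mul ρ⁻¹ k 2, mul_comm k 2]
            field_simp
          rw [h5, ← mul_assoc, h4, one_mul]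

/-- The second moment of `J_j`. -/
lemma A9_Jsq (θ : ℝ) (hθ : 1 / 2 ≤ θ) (hθ1 : θ < 1) (s : ℂ) (hs : s.re = 2) (S : ℝ) (hS3 : 3 ≤ S)
    (hS : ‖s‖ ≤ S) (j : ℕ) :
    ∃ G : ℝ → ℝ, Measurable G ∧ (∀ x : ℝ, 1 < x → 0 ≤ G x ∧ ‖Jk s j x‖ ≤ G x / x ^ (1 / 2 + θ)) ∧
    IntegrableOn (fun x => G x ^ 2) (Set.Ioi 1) ∧
    ∫ x in Set.Ioi (1 : ℝ), G x ^ 2 ≤ (2 * S * ((2 - θ)⁻¹) ^ j) ^ 2 := by
  obtain ⟨ρ, hρ⟩ : ∃ ρ : ℝ, ρ = 2 - θ := ⟨_, rfl⟩
  have hρ1 : 1 < ρ := by rw [hρ]; linarith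
  have hρ2 : ρ ≤ 3 / 2 := by rw [hρ]; linarith
  have hρ0 : 0 < ρ := by linarith
  obtain ⟨hI, hb⟩ := A9_h_sq θ hθ1 j
  -- the second part
  obtain ⟨v, hvm, hvn, hvI, hvb, hvJ⟩ : ∃ v : ℝ → ℝ, Measurable v ∧ (∀ x : ℝ, 1 < x → 0 ≤ v x) ∧
      IntegrableOn (fun x => v x ^ 2) (Set.Ioi 1) ∧
      ∫ x in Set.Ioi (1 : ℝ), v x ^ 2 ≤ ρ ^ 2 * ((ρ⁻¹ ^ j) ^ 2 / (2 * ρ)) ∧
      ∀ x : ℝ, 1 < x → ‖(if j = 0 then (0 : ℂ) else gi s (j - 1) x)‖ * x ^ (θ - 1 / 2) ≤ v x := by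
    rcases Nat.eq_zero_or_pos j with hj | hj
    · refine ⟨fun _ => 0, measurable_const, fun _ _ => le_rfl, by simp, ?_, ?_⟩
      · simp only [ne_eq, OfNat.ofNat_ne_zero, not_false_eq_true, zero_pow, integral_zero]
        positivity
      · intro x hx
        simp [hj]
    · obtain ⟨m, rfl⟩ : ∃ m, j = m + 1 := ⟨j - 1, by omega⟩
      obtain ⟨hI', hb'⟩ := A9_h_sq θ hθ1 m
      refine ⟨A9_h θ m, A9_h_meas θ m, A9_h_nonneg θ m, hI', hb'.trans (le_of_eq ?_), ?_⟩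
      · rw [← hρ]
        have h : ρ ^ 2 * (ρ⁻¹) ^ 2 = 1 := by rw [← mul_pow, mul_inv_cancel₀ hρ0.ne', one_pow]
        calc (ρ⁻¹ ^ m) ^ 2 / (2 * ρ) = (ρ ^ 2 * ρ⁻¹ ^ 2) * ((ρ⁻¹ ^ m) ^ 2 / (2 * ρ)) := by
              rw [h, one_mul]
          _ = ρ ^ 2 * ((ρ⁻¹ ^ (m + 1)) ^ 2 / (2 * ρ)) := by rw [pow_succ ρ⁻¹ m, mul_pow (ρ⁻¹ ^ m)]; ring
      · intro x hx
        rw [if_neg (by omega), Nat.add_sub_cancel, gi_norm s hs m x hx.le]
        unfold A9_h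
        rw [mul_comm]
  have hhm := A9_h_meas θ j
  refine ⟨fun x => S * A9_h θ j x + v x, (hhm.const_mul S).add hvm, ?_, ?_⟩
  · intro x hx
    have hx0 : 0 < x := by linarith
    have hn1 := A9_h_nonneg θ j x hx
    have hn2 := hvn x hx
    refine ⟨by positivity, ?_⟩
    have hxp : 0 < x ^ (1 / 2 + θ) := Real.rpow_pos_of_pos hx0 _
    have hxm : 0 < x ^ (θ - 1 / 2) := Real.rpow_pos_of_pos hx0 _
    have hsp : x ^ (1 / 2 + θ) = x ^ (θ - 1 / 2) * x := by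
      nth_rewrite 3 [← Real.rpow_one x]
      rw [← Real.rpow_add hx0]
      congr 1
      ring
    have h1 : ‖Jk s j x‖ ≤ (S * ‖gi s j x‖ + ‖(if j = 0 then (0 : ℂ) else gi s (j - 1) x)‖) / x := by
      unfold Jk
      rw [norm_div, Complex.norm_real, Real.norm_of_nonneg hx0.le]
      gcongr
      refine (norm_add_le _ _).trans ?_
      rw [norm_mul]
      gcongr
    refine h1.trans ?_
    rw [hsp, div_le_div_iff₀ hx0 (by positivity)]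
    have h2 : ‖gi s j x‖ * x ^ (θ - 1 / 2) = A9_h θ j x := by
      rw [gi_norm s hs j x hx.le]
      unfold A9_h
      rw [mul_comm]
    have h3 := hvJ x hx
    have h4 : (S * ‖gi s j x‖ + ‖(if j = 0 then (0 : ℂ) else gi s (j - 1) x)‖) *
        (x ^ (θ - 1 / 2) * x) = (S * (‖gi s j x‖ * x ^ (θ - 1 / 2)) +
          ‖(if j = 0 then (0 : ℂ) else gi s (j - 1) x)‖ * x ^ (θ - 1 / 2)) * x := by ring
    rw [h4, h2]
    exact mul_le_mul_of_nonneg_right (add_le_add_right h3 _) hx0.le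
  · have hle : ∀ x ∈ Set.Ioi (1 : ℝ), (S * A9_h θ j x + v x) ^ 2
        ≤ (S + ρ) * (S * (A9_h θ j x) ^ 2 + ρ⁻¹ * (v x) ^ 2) := by
      intro x hx
      have h1 : (S + ρ) * (S * (A9_h θ j x) ^ 2 + ρ⁻¹ * (v x) ^ 2) - (S * A9_h θ j x + v x) ^ 2
          = S * ρ⁻¹ * (ρ * A9_h θ j x - v x) ^ 2 := by
        field_simp
        ring
      have h2 : 0 ≤ S * ρ⁻¹ * (ρ * A9_h θ j x - v x) ^ 2 := by positivity
      linarith
    have hmaj : IntegrableOn (fun x : ℝ => (S + ρ) * (S * (A9_h θ j x) ^ 2 + ρ⁻¹ * (v x) ^ 2))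
        (Set.Ioi 1) := ((hI.const_mul S).add (hvI.const_mul ρ⁻¹)).const_mul (S + ρ)
    have hmeas : Measurable (fun x : ℝ => (S * A9_h θ j x + v x) ^ 2) :=
      ((hhm.const_mul S).add hvm).pow_const 2
    have hint : IntegrableOn (fun x : ℝ => (S * A9_h θ j x + v x) ^ 2) (Set.Ioi 1) := by
      refine Integrable.mono' hmaj hmeas.aestronglyMeasurable ?_
      refine (ae_restrict_iff' measurableSet_Ioi).mpr (ae_of_all _ fun x hx => ?_)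
      rw [Real.norm_of_nonneg (sq_nonneg _)]
      exact hle x hx
    refine ⟨hint, ?_⟩
    rw [← hρ] at hb ⊢
    calc ∫ x in Set.Ioi (1 : ℝ), (S * A9_h θ j x + v x) ^ 2
        ≤ ∫ x in Set.Ioi (1 : ℝ), (S + ρ) * (S * (A9_h θ j x) ^ 2 + ρ⁻¹ * (v x) ^ 2) :=
          setIntegral_mono_on hint hmaj measurableSet_Ioi hle
      _ = (S + ρ) * (S * (∫ x in Set.Ioi (1 : ℝ), (A9_h θ j x) ^ 2)
            + ρ⁻¹ * ∫ x in Set.Ioi (1 : ℝ), (v x) ^ 2) := by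
          rw [integral_const_mul, integral_add (hI.const_mul S) (hvI.const_mul ρ⁻¹),
            integral_const_mul, integral_const_mul]
      _ ≤ (S + ρ) * (S * ((ρ⁻¹ ^ j) ^ 2 / (2 * ρ))
            + ρ⁻¹ * (ρ ^ 2 * ((ρ⁻¹ ^ j) ^ 2 / (2 * ρ)))) := by gcongr
      _ = (S + ρ) ^ 2 / (2 * ρ) * (ρ⁻¹ ^ j) ^ 2 := by
          field_simp
      _ ≤ (2 * S) ^ 2 * (ρ⁻¹ ^ j) ^ 2 := by
          refine mul_le_mul_of_nonneg_right ?_ (by positivity)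
          rw [div_le_iff₀ (by positivity)]
          nlinarith
      _ = (2 * S * ρ⁻¹ ^ j) ^ 2 := by rw [mul_pow (2 * S)]

/-- A9. The mean square of `F_j` (as `MZ.F1`). -/
lemma Fj_norm (q : ℕ) [NeZero q] (B : Finset (ZMod q)ˣ) (θ : ℝ) (hθ : 1 / 2 ≤ θ) (hθ1 : θ < 1)
    (X Y : ℝ) (hX : 1 ≤ X) (hXY : X ≤ Y)
    (s : ℂ) (hs : s.re = 2) (S : ℝ) (hS3 : 3 ≤ S) (hS : ‖s‖ ≤ S) (j : ℕ) :
    ∑ c, ‖Fj q B X Y s j c‖ ^ 2
      ≤ (2 * S * ((2 - θ)⁻¹) ^ j) ^ 2 * ∫ x in Set.Ioc X Y, VB q B x / x ^ (1 + 2 * θ) := by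
  have hsub : Set.Ioc X Y ⊆ Set.Ioi 1 := fun x hx => lt_of_le_of_lt hX hx.1
  obtain ⟨G, hGm, hG, hGI, hGb⟩ := A9_Jsq θ hθ hθ1 s hs S hS3 hS j
  -- the weight
  have hsq : ∀ x : ℝ, 1 < x → (x ^ (1 / 2 + θ)) ^ 2 = x ^ (1 + 2 * θ) := by
    intro x hx
    have hx0 : 0 < x := by linarith
    rw [← Real.rpow_natCast (x ^ (1 / 2 + θ)) 2, ← Real.rpow_mul hx0.le]
    congr 1
    push_cast
    ring
  have hwm : Measurable (fun x : ℝ => x ^ (1 / 2 + θ)) := by fun_prop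
  -- integrability of `f^2 / x^(1+2θ)`
  have hfI : ∀ c : (ZMod q)ˣ, IntegrableOn (fun x : ℝ => (fB q B c x / x ^ (1 / 2 + θ)) ^ 2)
      (Set.Ioc X Y) := by
    intro c
    have hm : Measurable (fun x : ℝ => (fB q B c x / x ^ (1 / 2 + θ)) ^ 2) :=
      ((fB_meas q B c).div hwm).pow_const 2
    refine Measure.integrableOn_of_bounded (M := 36) (by simp) hm.aestronglyMeasurable ?_
    refine (ae_restrict_iff' measurableSet_Ioc).mpr (ae_of_all _ fun x hx => ?_)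
    have hx1 : 1 < x := hsub hx
    have hx0 : 0 < x := by linarith
    rw [Real.norm_of_nonneg (sq_nonneg _)]
    have hxp : 0 < x ^ (1 / 2 + θ) := Real.rpow_pos_of_pos hx0 _
    have hxx : x ≤ x ^ (1 / 2 + θ) := by
      calc x = x ^ (1 : ℝ) := (Real.rpow_one x).symm
        _ ≤ x ^ (1 / 2 + θ) := Real.rpow_le_rpow_of_exponent_le hx1.le (by linarith)
    have h1 : |fB q B c x / x ^ (1 / 2 + θ)| ≤ 6 := by
      rw [abs_div, abs_of_pos hxp, div_le_iff₀ hxp]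
      have := fB_bound q B c x hx0.le
      nlinarith
    rw [← sq_abs]
    nlinarith [abs_nonneg (fB q B c x / x ^ (1 / 2 + θ))]
  have hone : ∀ c : (ZMod q)ˣ, ‖Fj q B X Y s j c‖ ^ 2
      ≤ (∫ x in Set.Ioc X Y, (fB q B c x / x ^ (1 / 2 + θ)) ^ 2) *
        (2 * S * ((2 - θ)⁻¹) ^ j) ^ 2 := by
    intro c
    obtain ⟨hPI, hcs⟩ := cs_int (volume.restrict (Set.Ioc X Y))
      (fun x => fB q B c x / x ^ (1 / 2 + θ)) G
      ((fB_meas q B c).div hwm).aestronglyMeasurable hGm.aestronglyMeasurable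
      (hfI c) (hGI.mono_set hsub)
    have h1 : ‖Fj q B X Y s j c‖ ≤ ∫ x in Set.Ioc X Y, |fB q B c x / x ^ (1 / 2 + θ)| * |G x| := by
      unfold Fj
      refine (norm_integral_le_integral_norm _).trans ?_
      refine setIntegral_mono_on ?_ hPI measurableSet_Ioc fun x hx => ?_
      · exact ((F1_intJ (fB q B c) (fB_meas q B c)
          (fun t ht => fB_bound q B c t (by linarith)) s hs j).mono_set hsub).norm
      · have hx1 : 1 < x := hsub hx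
        have hx0 : 0 < x := by linarith
        have hxp : 0 < x ^ (1 / 2 + θ) := Real.rpow_pos_of_pos hx0 _
        rw [norm_mul, Complex.norm_real, Real.norm_eq_abs, abs_div, abs_of_pos hxp,
          abs_of_nonneg (hG x hx1).1]
        calc |fB q B c x| * ‖Jk s j x‖ ≤ |fB q B c x| * (G x / x ^ (1 / 2 + θ)) :=
              mul_le_mul_of_nonneg_left (hG x hx1).2 (abs_nonneg _)
          _ = |fB q B c x| / x ^ (1 / 2 + θ) * G x := by ring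
    have h2 : ∫ x in Set.Ioc X Y, G x ^ 2 ≤ (2 * S * ((2 - θ)⁻¹) ^ j) ^ 2 := by
      refine le_trans (setIntegral_mono_set hGI ?_ hsub.eventuallyLE) hGb
      exact ae_of_all _ fun x => sq_nonneg _
    calc ‖Fj q B X Y s j c‖ ^ 2
        ≤ (∫ x in Set.Ioc X Y, |fB q B c x / x ^ (1 / 2 + θ)| * |G x|) ^ 2 :=
          pow_le_pow_left₀ (norm_nonneg _) h1 2
      _ ≤ (∫ x in Set.Ioc X Y, (fB q B c x / x ^ (1 / 2 + θ)) ^ 2) *
          ∫ x in Set.Ioc X Y, G x ^ 2 := hcs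
      _ ≤ (∫ x in Set.Ioc X Y, (fB q B c x / x ^ (1 / 2 + θ)) ^ 2) *
          (2 * S * ((2 - θ)⁻¹) ^ j) ^ 2 :=
          mul_le_mul_of_nonneg_left h2 (integral_nonneg fun x => sq_nonneg _)
  have hsum : ∑ c, (∫ x in Set.Ioc X Y, (fB q B c x / x ^ (1 / 2 + θ)) ^ 2)
      = ∫ x in Set.Ioc X Y, VB q B x / x ^ (1 + 2 * θ) := by
    rw [← integral_finsetSum _ (fun c _ => hfI c)]
    refine setIntegral_congr_fun measurableSet_Ioc fun x hx => ?_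
    unfold VB
    rw [Finset.sum_div]
    exact sum_congr rfl fun c _ => by rw [div_pow, hsq x (hsub hx)]
  calc ∑ c, ‖Fj q B X Y s j c‖ ^ 2
      ≤ ∑ c, (∫ x in Set.Ioc X Y, (fB q B c x / x ^ (1 / 2 + θ)) ^ 2) *
          (2 * S * ((2 - θ)⁻¹) ^ j) ^ 2 := sum_le_sum fun c _ => hone c
    _ = (2 * S * ((2 - θ)⁻¹) ^ j) ^ 2 * ∫ x in Set.Ioc X Y, VB q B x / x ^ (1 + 2 * θ) := by
        rw [← Finset.sum_mul, hsum, mul_comm]

end Pool.Agent.MW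
end

section

set_option autoImplicit false

namespace Pool.Agent.MW

open Complex Finset MY MZ

lemma A15_cw_one (q : ℕ) [NeZero q] (hq : 2 ≤ q) (θ ε₀ : ℝ) (hθ : 1 / 2 ≤ θ) (hθ1 : θ < 1)
    (h0 : 0 < ε₀) (h1 : ε₀ ≤ 1 / 10)
    (B : Finset (ZMod q)ˣ) (a : (ZMod q)ˣ) : cw q θ ε₀ B a 1 = 1 := by
  have hq1 : (1 : ℝ) ≤ (q : ℝ) := by exact_mod_cast (by omega : 1 ≤ q)
  unfold cw
  refine cn_one _ (Dz_mem q hq B (ZW q θ ε₀) ?_ a).1 _ ?_
  · unfold ZW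
    have h2 : 2 / 3 ≤ 1 / (2 - θ) := by
      rw [le_div_iff₀ (by linarith)]
      linarith
    exact Real.one_le_rpow hq1 (by linarith)
  · unfold UU
    exact Real.one_le_rpow hq1 (by linarith)

/-- A15. The coefficient of a class of `B` in terms of the three sums (as `MZ.R2`). -/
lemma pieces (q : ℕ) [NeZero q] (hq : 2 ≤ q) (θ ε₀ : ℝ) (hθ : 1 / 2 ≤ θ) (hθ1 : θ < 1)
    (h0 : 0 < ε₀) (h1 : ε₀ ≤ 1 / 10)
    (B : Finset (ZMod q)ˣ) (X Y : ℝ) (s : ℂ) (k : ℕ) (a : (ZMod q)ˣ) (ha : a ∈ B) (Er : ℝ)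
    (Rb : ℕ → ℝ)
    (hrow : ‖∑ n ∈ (Icc 1 (q * NN q ε₀)).filter (fun n => Nat.Coprime n q),
        ((cw q θ ε₀ B a n : ℝ) : ℂ) * Dn q s k (a * (un q n)⁻¹) n‖ ≤ Er)
    (hRb : ∀ n, 1 ≤ n → 0 ≤ Rb n)
    (hoff : ∀ n, 1 ≤ n → n ≤ q * NN q ε₀ → ∀ c ∉ B,
      ‖Dn q s k c n - Fn q B X Y s k c n‖ ≤ Rb n) :
    ‖Dk q s k a‖ ≤ ‖XW q θ ε₀ B X Y s k a‖ + QW q θ ε₀ B s k a
      + ∑ n ∈ Icc 1 (q * NN q ε₀), |cw q θ ε₀ B a n| * Rb n + Er := by
  classical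
  have hq1 : (1 : ℝ) ≤ (q : ℝ) := by exact_mod_cast (by omega : 1 ≤ q)
  have hN : 1 ≤ NN q ε₀ := by
    unfold NN
    rw [Nat.one_le_ceil_iff]
    have := Real.one_le_rpow hq1 (by linarith : (0 : ℝ) ≤ 1 + ε₀ / 40)
    linarith
  have hM : 1 ≤ q * NN q ε₀ := Nat.one_le_iff_ne_zero.2 (Nat.mul_ne_zero (by omega) (by omega))
  set S : Finset ℕ := (Icc 1 (q * NN q ε₀)).filter (fun n => Nat.Coprime n q) with hS
  set t : ℕ → ℂ := fun n => ((cw q θ ε₀ B a n : ℝ) : ℂ) * Dn q s k (a * (un q n)⁻¹) n with ht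
  set f : ℕ → ℂ := fun n => ((cw q θ ε₀ B a n : ℝ) : ℂ) * Fn q B X Y s k (a * (un q n)⁻¹) n with hf
  have h1S : 1 ∈ S := by
    rw [hS, mem_filter, mem_Icc]
    exact ⟨⟨le_refl 1, hM⟩, Nat.coprime_one_left q⟩
  have hXS : XW q θ ε₀ B X Y s k a = ∑ n ∈ S, f n := rfl
  have ht1 : t 1 = Dk q s k a := by
    simp only [ht]
    rw [A15_cw_one q hq θ ε₀ hθ hθ1 h0 h1 B a, R2_un_one, inv_one, mul_one, Dn_one]
    simp
  have hf1 : f 1 = 0 := by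
    simp only [hf]
    rw [R2_un_one, inv_one, mul_one, R2_Fn_mem q B X Y s k a 1 ha, mul_zero]
  have e1 : ∑ n ∈ S, t n = t 1 + ∑ n ∈ S.erase 1, t n := (Finset.add_sum_erase S t h1S).symm
  have e2 : ∑ n ∈ S, f n = f 1 + ∑ n ∈ S.erase 1, f n := (Finset.add_sum_erase S f h1S).symm
  have e3 : Dk q s k a = ∑ n ∈ S, t n - XW q θ ε₀ B X Y s k a - ∑ n ∈ S.erase 1, (t n - f n) := by
    rw [Finset.sum_sub_distrib, hXS, e1, e2, ht1, hf1]
    ring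
  have hterm : ∀ n ∈ S.erase 1, ‖t n - f n‖ ≤
      (if a * (un q n)⁻¹ ∈ B then |cw q θ ε₀ B a n| * ‖Dn q s k (a * (un q n)⁻¹) n‖ else 0)
        + |cw q θ ε₀ B a n| * Rb n := by
    intro n hn
    rw [mem_erase, hS, mem_filter, mem_Icc] at hn
    obtain ⟨_, ⟨hn1, hn2⟩, _⟩ := hn
    have hR := hRb n hn1
    by_cases hb : a * (un q n)⁻¹ ∈ B
    · rw [if_pos hb]
      simp only [ht, hf]
      rw [R2_Fn_mem q B X Y s k _ n hb, mul_zero, sub_zero, norm_mul, Complex.norm_real,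
        Real.norm_eq_abs]
      have := mul_nonneg (abs_nonneg (cw q θ ε₀ B a n)) hR
      linarith
    · rw [if_neg hb, zero_add]
      simp only [ht, hf]
      rw [← mul_sub, norm_mul, Complex.norm_real, Real.norm_eq_abs]
      exact mul_le_mul_of_nonneg_left (hoff n hn1 hn2 _ hb) (abs_nonneg _)
  have hsum : ‖∑ n ∈ S.erase 1, (t n - f n)‖ ≤ QW q θ ε₀ B s k a
      + ∑ n ∈ Icc 1 (q * NN q ε₀), |cw q θ ε₀ B a n| * Rb n := by
    refine (norm_sum_le _ _).trans ((Finset.sum_le_sum hterm).trans ?_)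
    rw [Finset.sum_add_distrib]
    refine add_le_add ?_ ?_
    · rw [← Finset.sum_filter]
      unfold QW
      refine le_of_eq (Finset.sum_congr ?_ fun _ _ => rfl)
      ext n
      simp only [mem_filter, mem_erase, hS, mem_Icc]
      constructor
      · rintro ⟨⟨h1', ⟨h2, h3⟩, h4⟩, h5⟩
        exact ⟨⟨by omega, h3⟩, h4, h5⟩
      · rintro ⟨⟨h1', h2⟩, h3, h4⟩
        exact ⟨⟨by omega, ⟨by omega, h2⟩, h3⟩, h4⟩
    · refine Finset.sum_le_sum_of_subset_of_nonneg ?_ ?_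
      · intro n hn
        rw [mem_erase, hS, mem_filter] at hn
        exact hn.2.1
      · intro n hn _
        exact mul_nonneg (abs_nonneg _) (hRb n (mem_Icc.1 hn).1)
  have hrow' : ‖∑ n ∈ S, t n‖ ≤ Er := hrow
  rw [e3]
  have h5 := norm_sub_le (∑ n ∈ S, t n - XW q θ ε₀ B X Y s k a) (∑ n ∈ S.erase 1, (t n - f n))
  have h6 := norm_sub_le (∑ n ∈ S, t n) (XW q θ ε₀ B X Y s k a)
  linarith

end Pool.Agent.MW
end

section

set_option autoImplicit false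

namespace Pool.Agent.MZ

open Complex Finset MY

open MeasureTheory

/-- The kernel against a function of size `6 t`. -/
lemma F2_intK (f : ℝ → ℝ) (hf : Measurable f) (hb : ∀ t : ℝ, 1 < t → |f t| ≤ 6 * t) (s : ℂ)
    (hs : s.re = 2) (k n : ℕ) (hn : 1 ≤ n) :
    IntegrableOn (fun t : ℝ => (f t : ℂ) * ((s * gi s (k + 1) (n * t) + gi s k (n * t)) / t))
      (Set.Ioi 1) := by
  have hfC : Measurable (fun t => (f t : ℂ)) := Complex.measurable_ofReal.comp hf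
  have hbC : ∀ t : ℝ, 1 < t → ‖(f t : ℂ)‖ ≤ 6 * t := fun t ht => by
    rw [Complex.norm_real, Real.norm_eq_abs]; exact hb t ht
  refine (((D1_intn (fun t => (f t : ℂ)) 6 hfC hbC s hs (k + 1) n hn).const_mul s).add
    (D1_intn (fun t => (f t : ℂ)) 6 hfC hbC s hs k n hn)).congr ?_
  refine (ae_restrict_iff' measurableSet_Ioi).mpr (ae_of_all _ fun t ht => ?_)
  simp only [Pi.add_apply]
  ring

/-- `f J_j`. -/
lemma F2_intJ (f : ℝ → ℝ) (hf : Measurable f) (hb : ∀ t : ℝ, 1 < t → |f t| ≤ 6 * t) (s : ℂ)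
    (hs : s.re = 2) (j : ℕ) :
    IntegrableOn (fun t : ℝ => (f t : ℂ) * Jk s j t) (Set.Ioi 1) := by
  have hfC : Measurable (fun t => (f t : ℂ)) := Complex.measurable_ofReal.comp hf
  have hbC : ∀ t : ℝ, 1 < t → ‖(f t : ℂ)‖ ≤ 6 * t := fun t ht => by
    rw [Complex.norm_real, Real.norm_eq_abs]; exact hb t ht
  rcases Nat.eq_zero_or_pos j with hj | hj
  · refine ((D1_int (fun t => (f t : ℂ)) 6 hfC hbC s hs j).const_mul s).congr ?_
    refine (ae_restrict_iff' measurableSet_Ioi).mpr (ae_of_all _ fun t ht => ?_)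
    simp only [Jk, if_pos hj]
    ring
  · refine (((D1_int (fun t => (f t : ℂ)) 6 hfC hbC s hs j).const_mul s).add
      (D1_int (fun t => (f t : ℂ)) 6 hfC hbC s hs (j - 1))).congr ?_
    refine (ae_restrict_iff' measurableSet_Ioi).mpr (ae_of_all _ fun t ht => ?_)
    have hj' : j ≠ 0 := by omega
    simp only [Jk, if_neg hj', Pi.add_apply]
    ring

/-- Two classes: the exact formula. -/
lemma F2_diff (q : ℕ) [NeZero q] (s : ℂ) (hs : s.re = 2) (k n : ℕ) (hn : 1 ≤ n)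
    (c c' : (ZMod q)ˣ) :
    Dn q s (k + 1) c n - Dn q s (k + 1) c' n
      = ∫ t in Set.Ioi (1 : ℝ), ((psiU q c t - psiU q c' t : ℝ) : ℂ) *
        ((s * gi s (k + 1) (n * t) + gi s k (n * t)) / t) := by
  have hint2 : ∀ c : (ZMod q)ˣ, IntegrableOn (fun t : ℝ => (psiU q c t : ℂ) *
        ((s * gi s (k + 1) (n * t) + gi s k (n * t)) / t)) (Set.Ioi 1) := by
    intro c
    refine F2_intK (psiU q c) (psiU_meas q c) (fun t ht => ?_) s hs k n hn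
    rw [abs_of_nonneg (psiU_nonneg q c t)]
    exact psiU_le q c t (by linarith)
  have h2 : Dn q s (k + 1) c n - Dn q s (k + 1) c' n
      = ∑ i ∈ range (k + 2), gi s i n * Zc q s (k + 1 - i) c
        - ∑ i ∈ range (k + 2), gi s i n * Zc q s (k + 1 - i) c' := by
    unfold Dn
    rw [← sum_sub_distrib, ← sum_sub_distrib]
    refine sum_congr rfl fun i _ => ?_
    rw [Zc_Dk, Zc_Dk]
    ring
  rw [h2, Zc_shift q s hs k n hn, Zc_shift q s hs k n hn, ← integral_sub (hint2 c) (hint2 c')]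
  refine setIntegral_congr_fun measurableSet_Ioi fun t _ => ?_
  push_cast
  ring

/-- The average over `c' ∉ B`. -/
lemma F2_avg (q : ℕ) [NeZero q] (B : Finset (ZMod q)ˣ) (s : ℂ) (hs : s.re = 2) (k n : ℕ)
    (hn : 1 ≤ n) (c : (ZMod q)ˣ) (hc : c ∉ B) :
    Dn q s (k + 1) c n - (∑ c' ∈ Bᶜ, Dn q s (k + 1) c' n) / ((Bᶜ).card : ℂ)
      = ∫ t in Set.Ioi (1 : ℝ), (fB q B c t : ℂ) *
        ((s * gi s (k + 1) (n * t) + gi s k (n * t)) / t) := by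
  have hcard : 0 < (Bᶜ).card := Finset.card_pos.mpr ⟨c, Finset.mem_compl.mpr hc⟩
  have hcR : (((Bᶜ).card : ℕ) : ℝ) ≠ 0 := by exact_mod_cast hcard.ne'
  have hcC : (((Bᶜ).card : ℕ) : ℂ) ≠ 0 := by exact_mod_cast hcard.ne'
  have h1 : Dn q s (k + 1) c n - (∑ c' ∈ Bᶜ, Dn q s (k + 1) c' n) / ((Bᶜ).card : ℂ)
      = (∑ c' ∈ Bᶜ, (Dn q s (k + 1) c n - Dn q s (k + 1) c' n)) * ((Bᶜ).card : ℂ)⁻¹ := by
    rw [sum_sub_distrib, sum_const, nsmul_eq_mul]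
    field_simp
  have h2 : ∑ c' ∈ Bᶜ, (Dn q s (k + 1) c n - Dn q s (k + 1) c' n)
      = ∫ t in Set.Ioi (1 : ℝ), ∑ c' ∈ Bᶜ, ((psiU q c t - psiU q c' t : ℝ) : ℂ) *
        ((s * gi s (k + 1) (n * t) + gi s k (n * t)) / t) := by
    rw [integral_finsetSum]
    · exact sum_congr rfl fun c' _ => F2_diff q s hs k n hn c c'
    · intro c' _
      refine F2_intK (fun t => psiU q c t - psiU q c' t) ((psiU_meas q c).sub (psiU_meas q c'))
        (fun t ht => psiU_diff_le q c c' t (by linarith)) s hs k n hn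
  rw [h1, h2, ← integral_mul_const]
  refine setIntegral_congr_fun measurableSet_Ioi fun t _ => ?_
  rw [← Finset.sum_mul]
  have h3 : (fB q B c t : ℂ) = (∑ c' ∈ Bᶜ, ((psiU q c t - psiU q c' t : ℝ) : ℂ)) * ((Bᶜ).card : ℂ)⁻¹ := by
    unfold fB mB
    rw [if_neg hc]
    push_cast
    rw [sum_sub_distrib, sum_const, nsmul_eq_mul]
    field_simp
  rw [h3]
  ring

/-- The convolution of the kernels. -/
lemma F2_conv (s : ℂ) (k n : ℕ) (hn : 1 ≤ n) (t : ℝ) (ht : 0 < t) :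
    ∑ i ∈ range (k + 2), gi s i n * Jk s (k + 1 - i) t
      = (s * gi s (k + 1) (n * t) + gi s k (n * t)) / t := by
  have hn0 : (0 : ℝ) < n := by exact_mod_cast hn
  have h1 : ∑ i ∈ range (k + 2), gi s i n * gi s (k + 1 - i) t = gi s (k + 1) (n * t) :=
    gi_conv s n t hn0 ht (k + 1)
  have h2 : ∑ i ∈ range (k + 2), gi s i n * (if k + 1 - i = 0 then 0 else gi s (k + 1 - i - 1) t)
      = gi s k (n * t) := by
    rw [sum_range_succ, if_pos (by omega), mul_zero, add_zero, ← gi_conv s n t hn0 ht k]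
    refine sum_congr rfl fun i hi => ?_
    have hi' := Finset.mem_range.mp hi
    rw [if_neg (by omega)]
    congr 2
    omega
  rw [← h1, ← h2, mul_sum, ← sum_add_distrib, Finset.sum_div]
  refine sum_congr rfl fun i _ => ?_
  unfold Jk
  ring

/-- `F_k(c; n)` as an integral. -/
lemma F2_Fn (q : ℕ) [NeZero q] (B : Finset (ZMod q)ˣ) (X Y : ℝ) (hX : 1 ≤ X)
    (s : ℂ) (hs : s.re = 2) (k n : ℕ) (hn : 1 ≤ n) (c : (ZMod q)ˣ) :
    Fn q B X Y s (k + 1) c n = ∫ t in Set.Ioc X Y, (fB q B c t : ℂ) *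
        ((s * gi s (k + 1) (n * t) + gi s k (n * t)) / t) := by
  have hsub : Set.Ioc X Y ⊆ Set.Ioi 1 := fun x hx => lt_of_le_of_lt hX hx.1
  have h1 : Fn q B X Y s (k + 1) c n
      = ∫ t in Set.Ioc X Y, ∑ i ∈ range (k + 2),
        gi s i n * ((fB q B c t : ℂ) * Jk s (k + 1 - i) t) := by
    unfold Fn Fj
    rw [integral_finsetSum]
    · refine sum_congr rfl fun i _ => ?_
      rw [integral_const_mul]
    · intro i _
      exact ((F2_intJ (fB q B c) (fB_meas q B c)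
        (fun t ht => fB_bound q B c t (by linarith)) s hs (k + 1 - i)).mono_set hsub).const_mul _
  rw [h1]
  refine setIntegral_congr_fun measurableSet_Ioc fun t ht => ?_
  have ht0 : 0 < t := by
    have : (1 : ℝ) < t := hsub ht
    linarith
  rw [← F2_conv s k n hn t ht0, mul_sum]
  refine sum_congr rfl fun i _ => ?_
  ring

/-- F2. The shifted coefficients outside `B`. -/
lemma decomp (q : ℕ) [NeZero q] (B : Finset (ZMod q)ˣ) (X Y : ℝ) (hX : 1 ≤ X) (hXY : X ≤ Y)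
    (s : ℂ) (hs : s.re = 2) (S : ℝ) (hS1 : 1 ≤ S) (hS : ‖s‖ ≤ S) (k n : ℕ) (hk : 1 ≤ k) (hn : 1 ≤ n)
    (hkX : 12 * Real.log (n * X) ≤ k) (c : (ZMod q)ˣ) (hc : c ∉ B) :
    ‖Dn q s k c n - Fn q B X Y s k c n - (∑ c' ∈ Bᶜ, Dn q s k c' n) / ((Bᶜ).card : ℂ)‖
      ≤ 60 * (1 + S) * (n : ℝ)⁻¹ * ((1 / 4 : ℝ) ^ k + 2 ^ k * Y ^ (-(1 / 2) : ℝ)) := by
  obtain ⟨m, rfl⟩ : ∃ m, k = m + 1 := ⟨k - 1, by omega⟩
  have hY : 1 ≤ Y := hX.trans hXY
  have hn0 : (0 : ℝ) < n := by exact_mod_cast hn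
  have hfm := fB_meas q B c
  have hfb : ∀ t : ℝ, 1 < t → |fB q B c t| ≤ 6 * t := fun t ht => fB_bound q B c t (by linarith)
  set F : ℝ → ℂ := fun t => (fB q B c t : ℂ) *
    ((s * gi s (m + 1) (n * t) + gi s m (n * t)) / t) with hF
  have hI : IntegrableOn F (Set.Ioi 1) := F2_intK (fB q B c) hfm hfb s hs m n hn
  have hsplit : ∫ t in Set.Ioi (1 : ℝ), F t = (∫ t in Set.Ioc (1 : ℝ) X, F t)
      + ((∫ t in Set.Ioc X Y, F t) + ∫ t in Set.Ioi Y, F t) := by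
    have e1 : Set.Ioi (1 : ℝ) = Set.Ioc 1 X ∪ Set.Ioi X := (Set.Ioc_union_Ioi_eq_Ioi hX).symm
    have e2 : Set.Ioi X = Set.Ioc X Y ∪ Set.Ioi Y := (Set.Ioc_union_Ioi_eq_Ioi hXY).symm
    rw [e1, setIntegral_union (Set.Ioc_disjoint_Ioi le_rfl) measurableSet_Ioi
      (hI.mono_set fun x hx => hx.1) (hI.mono_set (Set.Ioi_subset_Ioi hX)), e2,
      setIntegral_union (Set.Ioc_disjoint_Ioi le_rfl) measurableSet_Ioi
      (hI.mono_set fun x hx => lt_of_le_of_lt hX hx.1) (hI.mono_set (Set.Ioi_subset_Ioi hY))]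
  have hmain : Dn q s (m + 1) c n - Fn q B X Y s (m + 1) c n
      - (∑ c' ∈ Bᶜ, Dn q s (m + 1) c' n) / ((Bᶜ).card : ℂ)
      = (∫ t in Set.Ioc (1 : ℝ) X, F t) + ∫ t in Set.Ioi Y, F t := by
    have h1 := F2_avg q B s hs m n hn c hc
    have h2 := F2_Fn q B X Y hX s hs m n hn c
    calc _ = (Dn q s (m + 1) c n - (∑ c' ∈ Bᶜ, Dn q s (m + 1) c' n) / ((Bᶜ).card : ℂ))
          - Fn q B X Y s (m + 1) c n := by ring
      _ = (∫ t in Set.Ioi (1 : ℝ), F t) - ∫ t in Set.Ioc X Y, F t := by rw [h1, h2]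
      _ = _ := by rw [hsplit]; ring
  obtain ⟨hI1, -⟩ := KK_theta S hS1 m n hn 1 (by norm_num) (by norm_num)
  have hlow := KK_low S hS1 m n hn X hX (by push_cast at hkX ⊢; exact hkX)
  have hhigh := KK_high S hS1 m n hn Y hY
  have hI1' : IntegrableOn (fun x : ℝ => x * KK S m n x) (Set.Ioi 1) := by
    refine hI1.congr_fun (fun x hx => ?_) measurableSet_Ioi
    simp only [Real.rpow_one]
  have hpt : ∀ t : ℝ, 1 < t → ‖F t‖ ≤ 6 * (t * KK S m n t) := by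
    intro t ht
    rw [hF]
    simp only
    rw [norm_mul, Complex.norm_real, Real.norm_eq_abs, ← mul_assoc]
    exact mul_le_mul (hfb t ht) (D1_KK s hs S hS m n hn t ht.le) (norm_nonneg _) (by linarith)
  have b1 : ‖∫ t in Set.Ioc (1 : ℝ) X, F t‖ ≤ 6 * ∫ t in Set.Ioc (1 : ℝ) X, t * KK S m n t := by
    rw [← integral_const_mul]
    refine (norm_integral_le_integral_norm _).trans ?_
    refine setIntegral_mono_on (hI.mono_set fun x hx => hx.1).norm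
      ((hI1'.mono_set fun x hx => hx.1).const_mul _) measurableSet_Ioc fun x hx => hpt x hx.1
  have b3 : ‖∫ t in Set.Ioi Y, F t‖ ≤ 6 * ∫ t in Set.Ioi Y, t * KK S m n t := by
    rw [← integral_const_mul]
    refine (norm_integral_le_integral_norm _).trans ?_
    refine setIntegral_mono_on (hI.mono_set (Set.Ioi_subset_Ioi hY)).norm
      ((hI1'.mono_set (Set.Ioi_subset_Ioi hY)).const_mul _) measurableSet_Ioi fun x hx => ?_
    exact hpt x (lt_of_le_of_lt hY hx)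
  rw [hmain]
  have c1 := b1.trans (mul_le_mul_of_nonneg_left hlow (by norm_num : (0 : ℝ) ≤ 6))
  have c3 := b3.trans (mul_le_mul_of_nonneg_left hhigh (by norm_num : (0 : ℝ) ≤ 6))
  have p1 : 0 ≤ (1 + S) * (n : ℝ)⁻¹ * (1 / 4 : ℝ) ^ (m + 1) := by positivity
  have p2 : 0 ≤ (1 + S) * (n : ℝ)⁻¹ * (2 ^ (m + 1) * Y ^ (-(1 / 2) : ℝ)) := by
    have : 0 < Y := by linarith
    positivity
  calc ‖(∫ t in Set.Ioc (1 : ℝ) X, F t) + ∫ t in Set.Ioi Y, F t‖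
      ≤ 6 * ((1 + S) * (n : ℝ)⁻¹ * (2 * (1 / 4 : ℝ) ^ (m + 1)))
        + 6 * ((1 + S) * (n : ℝ)⁻¹ * (4 * 2 ^ (m + 1) * Y ^ (-(1 / 2) : ℝ))) :=
        (norm_add_le _ _).trans (add_le_add c1 c3)
    _ = 12 * ((1 + S) * (n : ℝ)⁻¹ * (1 / 4 : ℝ) ^ (m + 1))
        + 24 * ((1 + S) * (n : ℝ)⁻¹ * (2 ^ (m + 1) * Y ^ (-(1 / 2) : ℝ))) := by ring
    _ ≤ 60 * ((1 + S) * (n : ℝ)⁻¹ * (1 / 4 : ℝ) ^ (m + 1))
        + 60 * ((1 + S) * (n : ℝ)⁻¹ * (2 ^ (m + 1) * Y ^ (-(1 / 2) : ℝ))) := by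
        linarith
    _ = 60 * (1 + S) * (n : ℝ)⁻¹ * ((1 / 4 : ℝ) ^ (m + 1) + 2 ^ (m + 1) * Y ^ (-(1 / 2) : ℝ)) := by
        ring

end Pool.Agent.MZ
end
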