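import Mathlib
import Pool.Agent.Lib.MP_9cfc0a_nt.MY.Defs
import Pool.Agent.Lib.MP_9cfc0a_nt.MY.A2
import Pool.Agent.Lib.MP_9cfc0a_nt.EMCoeff
import Pool.Agent.Lib.MP_9cfc0a_nt.C2H9d
import Pool.Agent.Lib.MP_9cfc0a_nt.Mg.G023

section

set_option autoImplicit false

namespace Pool.Agent.MY

open Complex Finset

/-- Many characters have a low zero to the right of (or on) the line. -/
lemma many_zeros : ∃ q₀ : ℕ, ∀ (q : ℕ) [NeZero q], q₀ ≤ q →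
    ∃ T : Finset (DirichletCharacter ℂ q), (q.totient : ℝ) / 4 ≤ T.card ∧ ∀ χ ∈ T, χ ≠ 1 ∧
      ∃ ρ : ℂ, χ.LFunction ρ = 0 ∧ 1 / 2 ≤ ρ.re ∧ ρ.re < 1 ∧ |ρ.im| ≤ 19 / 10 := by
  classical
  obtain ⟨Q₀, hQ₀, hz⟩ := EM.exists_zero
  obtain ⟨q₁, hq₁⟩ := EM.totient_large (2 * (Q₀ : ℝ) ^ 2)
  refine ⟨q₁, fun q _ hq => ?_⟩
  have hphi := hq₁ q hq
  obtain ⟨P, hP⟩ : ∃ P : DirichletCharacter ℂ q → Prop, P = fun χ => χ ≠ 1 ∧
      ∃ ρ : ℂ, χ.LFunction ρ = 0 ∧ 1 / 2 ≤ ρ.re ∧ ρ.re < 1 ∧ |ρ.im| ≤ 19 / 10 := ⟨_, rfl⟩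
  obtain ⟨T, hT⟩ : ∃ T : Finset (DirichletCharacter ℂ q), T = univ.filter P := ⟨_, rfl⟩
  have hmem : ∀ χ, χ ∈ T ↔ P χ := fun χ => by rw [hT, mem_filter]; simp
  refine ⟨T, ?_, fun χ hχ => ?_⟩
  · obtain ⟨S₁, hS₁⟩ : ∃ S₁ : Finset (DirichletCharacter ℂ q),
        S₁ = univ.filter (fun χ => Q₀ ≤ χ.conductor) := ⟨_, rfl⟩
    obtain ⟨S₂, hS₂⟩ : ∃ S₂ : Finset (DirichletCharacter ℂ q),
        S₂ = univ.filter (fun χ => ¬ Q₀ ≤ χ.conductor) := ⟨_, rfl⟩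
    have h1 : S₁ ⊆ T ∪ T.image (fun χ => χ⁻¹) := by
      intro χ hχ
      rw [hS₁, mem_filter] at hχ
      obtain ⟨χ', hor, hne, hρ⟩ := hz q χ hχ.2
      rw [mem_union]
      rcases hor with h | h
      · left
        rw [hmem, hP]
        rw [h] at hne hρ
        exact ⟨hne, hρ⟩
      · right
        rw [mem_image]
        refine ⟨χ', ?_, ?_⟩
        · rw [hmem, hP]
          exact ⟨hne, hρ⟩
        · rw [h, inv_inv]
    have h2 : S₁.card ≤ 2 * T.card := by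
      have e1 := card_le_card h1
      have e2 := card_union_le T (T.image (fun χ => χ⁻¹))
      have e3 : (T.image (fun χ => χ⁻¹)).card ≤ T.card := card_image_le
      omega
    have h3 : S₂.card ≤ Q₀ ^ 2 := by
      apply EM.small_conductor q Q₀ S₂
      intro χ hχ
      rw [hS₂, mem_filter] at hχ
      omega
    have h4 : S₁.card + S₂.card = q.totient := by
      rw [hS₁, hS₂, card_filter_add_card_filter_not]
      rw [card_univ, ← Nat.card_eq_fintype_card]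
      exact DirichletCharacter.card_eq_totient_of_hasEnoughRootsOfUnity ℂ q
    have h5 : q.totient ≤ 2 * T.card + Q₀ ^ 2 := by omega
    have h6 : (q.totient : ℝ) ≤ 2 * T.card + (Q₀ : ℝ) ^ 2 := by exact_mod_cast h5
    linarith
  · rw [hmem, hP] at hχ
    exact hχ

end Pool.Agent.MY
end

section

set_option autoImplicit false

namespace Pool.Agent.MW

open Complex Finset MY MZ

/-- The sum against `gam`, split at `I₀`. -/
lemma A19_split (u : ℕ → ℝ) (H M : ℝ) (k I₀ : ℕ) (hH : 0 ≤ H)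
    (hk : I₀ ≤ k + 1) (h1 : ∀ i, i < I₀ → u (k - i) ≤ M) (h2 : ∀ i, u (k - i) ≤ H) :
    ∑ i ∈ range (k + 1), gam I₀ i * u (k - i) ≤ I₀ * M + 2 * (1 / 8 : ℝ) ^ I₀ * H := by
  rw [Finset.range_eq_Ico, ← Finset.sum_Ico_consecutive _ (Nat.zero_le I₀) hk]
  have e1 : ∑ i ∈ Ico 0 I₀, gam I₀ i * u (k - i) ≤ I₀ * M := by
    have : ∑ i ∈ Ico 0 I₀, gam I₀ i * u (k - i) ≤ ∑ _i ∈ Ico 0 I₀, M := by
      refine Finset.sum_le_sum fun i hi => ?_
      have hi' : i < I₀ := (Finset.mem_Ico.mp hi).2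
      have : gam I₀ i = 1 := by simp [gam, hi']
      rw [this, one_mul]
      exact h1 i hi'
    simpa using this
  have e2 : ∑ i ∈ Ico I₀ (k + 1), gam I₀ i * u (k - i) ≤ 2 * (1 / 8 : ℝ) ^ I₀ * H := by
    have : ∑ i ∈ Ico I₀ (k + 1), gam I₀ i * u (k - i) ≤ ∑ i ∈ Ico I₀ (k + 1), (1 / 8 : ℝ) ^ i * H := by
      refine Finset.sum_le_sum fun i hi => ?_
      have hi' : ¬ i < I₀ := not_lt.mpr (Finset.mem_Ico.mp hi).1
      have : gam I₀ i = (1 / 8 : ℝ) ^ i := by simp only [gam, if_neg hi']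
      rw [this]
      exact mul_le_mul_of_nonneg_left (h2 i) (by positivity)
    refine this.trans ?_
    rw [← Finset.sum_mul]
    refine mul_le_mul_of_nonneg_right ?_ hH
    refine (geom_sum_Ico_le_of_lt_one (by norm_num) (by norm_num)).trans ?_
    have : (0 : ℝ) < (1 / 8 : ℝ) ^ I₀ := by positivity
    rw [div_le_iff₀ (by norm_num)]
    linarith
  linarith

/-- A19. The iteration (real numbers only). -/
lemma iterate (u : ℕ → ℝ) (hu : ∀ k, 0 ≤ u k) (H T κ : ℝ) (k₁ k₃ I₀ m : ℕ) (hI : 1 ≤ I₀)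
    (hH : 0 ≤ H) (hT : 0 ≤ T) (hκ : 0 ≤ κ) (h1 : ∀ k ≤ k₃, u k ≤ H)
    (h2 : ∀ k, k₁ ≤ k → k ≤ k₃ → u k ≤ T + κ * ∑ i ∈ range (k + 1), gam I₀ i * u (k - i))
    (hκ1 : κ * (I₀ + 1) ≤ 1 / 2) (k : ℕ) (hk : k₁ + m * I₀ ≤ k) (hk3 : k ≤ k₃) :
    u k ≤ (κ * (I₀ + 1)) ^ m * H + 2 * (T + 2 * κ * (1 / 8 : ℝ) ^ I₀ * H) := by
  have hx0 : 0 ≤ κ * (I₀ + 1) := by positivity
  have hE : 0 ≤ T + 2 * κ * (1 / 8 : ℝ) ^ I₀ * H := by positivity
  induction m generalizing k with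
  | zero =>
    have := h1 k hk3
    simp only [pow_zero, one_mul]
    linarith
  | succ m ih =>
    have hk' : k₁ + m * I₀ + I₀ ≤ k := by
      have : (m + 1) * I₀ = m * I₀ + I₀ := by ring
      omega
    set M := (κ * (I₀ + 1)) ^ m * H + 2 * (T + 2 * κ * (1 / 8 : ℝ) ^ I₀ * H) with hM
    have hM0 : 0 ≤ M := by positivity
    have hs := A19_split u H M k I₀ hH (by omega)
      (fun i hi => ih (k - i) (by omega) (by omega)) (fun i => h1 _ (by omega))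
    have h3 := h2 k (by omega) hk3
    have h4 := mul_le_mul_of_nonneg_left hs hκ
    have h5 : κ * (I₀ * M) ≤ (κ * (I₀ + 1)) * M := by nlinarith [mul_nonneg hκ hM0]
    have h6 : (κ * (I₀ + 1)) * M ≤ (κ * (I₀ + 1)) ^ (m + 1) * H
        + (T + 2 * κ * (1 / 8 : ℝ) ^ I₀ * H) := by
      have : (κ * (I₀ + 1)) * M = (κ * (I₀ + 1)) ^ (m + 1) * H
        + 2 * (κ * (I₀ + 1)) * (T + 2 * κ * (1 / 8 : ℝ) ^ I₀ * H) := by rw [hM]; ring
      rw [this]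
      have : 2 * (κ * (I₀ + 1)) * (T + 2 * κ * (1 / 8 : ℝ) ^ I₀ * H)
        ≤ 1 * (T + 2 * κ * (1 / 8 : ℝ) ^ I₀ * H) :=
        mul_le_mul_of_nonneg_right (by linarith) hE
      linarith
    have h7 : κ * (I₀ * M + 2 * (1 / 8 : ℝ) ^ I₀ * H) = κ * (I₀ * M) + 2 * κ * (1 / 8 : ℝ) ^ I₀ * H := by
      ring
    linarith

end Pool.Agent.MW
end
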