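import Mathlib
import Pool.Agent.Lib.MP_9cfc0a_nt.Mg.G023
import Pool.Agent.Lib.MP_9cfc0a_nt.MY.D1
import Pool.Agent.Lib.MP_9cfc0a_nt.Mg.G029
import Pool.Agent.Lib.MP_9cfc0a_nt.Mg.G030

section

set_option autoImplicit false

namespace Pool.Agent.MZ

open Complex Finset MY

open MeasureTheory

/-- The square of one term of the kernel. -/
lemma Z1_u (k n : ℕ) (hn : 1 ≤ n) :
    IntegrableOn (fun x : ℝ => ((Real.log (n * x)) ^ k / (k.factorial : ℝ) / ((n : ℝ) * x) ^ 2) ^ 2)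
      (Set.Ioi 1) ∧
    ∫ x in Set.Ioi (1 : ℝ), ((Real.log (n * x)) ^ k / (k.factorial : ℝ) / ((n : ℝ) * x) ^ 2) ^ 2
      ≤ (n : ℝ)⁻¹ * ((4 / 9 : ℝ) ^ k / 3) := by
  have hn0 : (0 : ℝ) < n := by exact_mod_cast hn
  obtain ⟨hI, hb⟩ := D2_base 3 (by norm_num) (2 * k) n hn
  have hf1 : (0 : ℝ) < (k.factorial : ℝ) := by exact_mod_cast k.factorial_pos
  have hf2 : (0 : ℝ) < ((2 * k).factorial : ℝ) := by exact_mod_cast (2 * k).factorial_pos
  have hc : ((2 * k).factorial : ℝ) / (k.factorial : ℝ) ^ 2 ≤ 4 ^ k := by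
    rw [div_le_iff₀ (by positivity)]
    have h1 : (2 * k).choose k * k.factorial * (2 * k - k).factorial = (2 * k).factorial :=
      Nat.choose_mul_factorial_mul_factorial (by omega)
    rw [show 2 * k - k = k by omega] at h1
    have h2 : (2 * k).choose k ≤ 2 ^ (2 * k) := Nat.choose_le_two_pow _ _
    have h3 : (2 * k).factorial ≤ 2 ^ (2 * k) * k.factorial ^ 2 := by
      rw [← h1, mul_assoc, ← sq]
      exact Nat.mul_le_mul_right _ h2
    have h4 : ((2 * k).factorial : ℝ) ≤ 2 ^ (2 * k) * (k.factorial : ℝ) ^ 2 := by exact_mod_cast h3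
    rw [pow_mul] at h4
    norm_num at h4 ⊢
    exact h4
  have he : ∀ x ∈ Set.Ioi (1 : ℝ),
      ((Real.log (n * x)) ^ k / (k.factorial : ℝ) / ((n : ℝ) * x) ^ 2) ^ 2
      = (((2 * k).factorial : ℝ) / (k.factorial : ℝ) ^ 2 * (n : ℝ)⁻¹) *
        (((n : ℝ) * x) ^ (-3 : ℝ) * ((Real.log (n * x)) ^ (2 * k) / ((2 * k).factorial : ℝ)) / x) := by
    intro x hx
    have hx1 : (1 : ℝ) < x := hx
    have hx0 : 0 < x := by linarith
    have hr : ((n : ℝ) * x) ^ (-3 : ℝ) = (((n : ℝ) * x) ^ 3)⁻¹ := by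
      rw [Real.rpow_neg (by positivity)]
      congr 1
      exact_mod_cast Real.rpow_natCast ((n : ℝ) * x) 3
    rw [hr, pow_mul', div_pow, div_pow]
    field_simp
  constructor
  · have h0 : IntegrableOn (fun x : ℝ => (((2 * k).factorial : ℝ) / (k.factorial : ℝ) ^ 2 *
        (n : ℝ)⁻¹) * (((n : ℝ) * x) ^ (-3 : ℝ) *
          ((Real.log (n * x)) ^ (2 * k) / ((2 * k).factorial : ℝ)) / x)) (Set.Ioi 1) :=
      hI.const_mul _
    exact h0.congr_fun (fun x hx => (he x hx).symm) measurableSet_Ioi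
  · rw [setIntegral_congr_fun measurableSet_Ioi he, integral_const_mul]
    have hcn : 0 ≤ ((2 * k).factorial : ℝ) / (k.factorial : ℝ) ^ 2 * (n : ℝ)⁻¹ := by positivity
    calc (((2 * k).factorial : ℝ) / (k.factorial : ℝ) ^ 2 * (n : ℝ)⁻¹) *
          ∫ x in Set.Ioi (1 : ℝ), ((n : ℝ) * x) ^ (-3 : ℝ) *
            ((Real.log (n * x)) ^ (2 * k) / ((2 * k).factorial : ℝ)) / x
        ≤ (((2 * k).factorial : ℝ) / (k.factorial : ℝ) ^ 2 * (n : ℝ)⁻¹) *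
          ((3 : ℝ)⁻¹) ^ (2 * k + 1) := mul_le_mul_of_nonneg_left hb hcn
      _ ≤ (4 ^ k * (n : ℝ)⁻¹) * ((3 : ℝ)⁻¹) ^ (2 * k + 1) := by gcongr
      _ = (n : ℝ)⁻¹ * ((4 / 9 : ℝ) ^ k / 3) := by
          rw [pow_succ, pow_mul, div_eq_mul_inv (4 : ℝ) 9, mul_pow]
          have : ((3 : ℝ)⁻¹) ^ 2 = 9⁻¹ := by norm_num
          rw [this]
          ring

/-- The square of the kernel. -/
lemma Z1_B (S : ℝ) (hS : 1 ≤ S) (m n : ℕ) (hn : 1 ≤ n) :
    IntegrableOn (fun x : ℝ => (x * KK S m n x) ^ 2) (Set.Ioi 1) ∧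
    ∫ x in Set.Ioi (1 : ℝ), (x * KK S m n x) ^ 2
      ≤ ((1 + S) * (n : ℝ) ^ (-(1 / 2) : ℝ) * ((3 / 2 : ℝ) ^ (m + 1))⁻¹) ^ 2 := by
  have hn0 : (0 : ℝ) < n := by exact_mod_cast hn
  obtain ⟨i1, b1⟩ := Z1_u (m + 1) n hn
  obtain ⟨i0, b0⟩ := Z1_u m n hn
  set u1 : ℝ → ℝ := fun x : ℝ =>
    (Real.log (n * x)) ^ (m + 1) / ((m + 1).factorial : ℝ) / ((n : ℝ) * x) ^ 2 with hu1
  set u0 : ℝ → ℝ := fun x : ℝ =>
    (Real.log (n * x)) ^ m / (m.factorial : ℝ) / ((n : ℝ) * x) ^ 2 with hu0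
  have hKK : ∀ x ∈ Set.Ioi (1 : ℝ), x * KK S m n x = S * u1 x + u0 x := by
    intro x hx
    have hx1 : (1 : ℝ) < x := hx
    have hx0 : 0 < x := by linarith
    have hf1 : (0 : ℝ) < (m.factorial : ℝ) := by exact_mod_cast m.factorial_pos
    have hf2 : (0 : ℝ) < ((m + 1).factorial : ℝ) := by exact_mod_cast (m + 1).factorial_pos
    rw [hu1, hu0]
    unfold KK
    field_simp
  have hle : ∀ x ∈ Set.Ioi (1 : ℝ), (x * KK S m n x) ^ 2
      ≤ (S + 3 / 2) * (S * (u1 x) ^ 2 + (2 / 3) * (u0 x) ^ 2) := by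
    intro x hx
    rw [hKK x hx]
    have h1 : (S + 3 / 2) * (S * (u1 x) ^ 2 + (2 / 3) * (u0 x) ^ 2) - (S * u1 x + u0 x) ^ 2
        = S * (2 / 3) * ((3 / 2) * u1 x - u0 x) ^ 2 := by ring
    have h2 : 0 ≤ S * (2 / 3) * ((3 / 2) * u1 x - u0 x) ^ 2 := by positivity
    linarith
  have hmaj : IntegrableOn (fun x : ℝ => (S + 3 / 2) * (S * (u1 x) ^ 2 + (2 / 3) * (u0 x) ^ 2))
      (Set.Ioi 1) := ((i1.const_mul S).add (i0.const_mul (2 / 3))).const_mul (S + 3 / 2)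
  have hmeas : Measurable (fun x : ℝ => (x * KK S m n x) ^ 2) := by
    unfold KK
    fun_prop
  have hint : IntegrableOn (fun x : ℝ => (x * KK S m n x) ^ 2) (Set.Ioi 1) := by
    refine Integrable.mono' hmaj hmeas.aestronglyMeasurable ?_
    refine (ae_restrict_iff' measurableSet_Ioi).mpr (ae_of_all _ fun x hx => ?_)
    rw [Real.norm_of_nonneg (sq_nonneg _)]
    exact hle x hx
  refine ⟨hint, ?_⟩
  calc ∫ x in Set.Ioi (1 : ℝ), (x * KK S m n x) ^ 2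
      ≤ ∫ x in Set.Ioi (1 : ℝ), (S + 3 / 2) * (S * (u1 x) ^ 2 + (2 / 3) * (u0 x) ^ 2) :=
        setIntegral_mono_on hint hmaj measurableSet_Ioi hle
    _ = (S + 3 / 2) * (S * (∫ x in Set.Ioi (1 : ℝ), (u1 x) ^ 2)
          + (2 / 3) * ∫ x in Set.Ioi (1 : ℝ), (u0 x) ^ 2) := by
        rw [integral_const_mul, integral_add (i1.const_mul S) (i0.const_mul (2 / 3)),
          integral_const_mul, integral_const_mul]
    _ ≤ (S + 3 / 2) * (S * ((n : ℝ)⁻¹ * ((4 / 9 : ℝ) ^ (m + 1) / 3))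
          + (2 / 3) * ((n : ℝ)⁻¹ * ((4 / 9 : ℝ) ^ m / 3))) := by gcongr
    _ = (n : ℝ)⁻¹ * (4 / 9 : ℝ) ^ (m + 1) * ((S + 3 / 2) ^ 2 / 3) := by
        rw [pow_succ (4 / 9 : ℝ) m]; ring
    _ ≤ (n : ℝ)⁻¹ * (4 / 9 : ℝ) ^ (m + 1) * (1 + S) ^ 2 := by
        refine mul_le_mul_of_nonneg_left ?_ (by positivity)
        nlinarith
    _ = ((1 + S) * (n : ℝ) ^ (-(1 / 2) : ℝ) * ((3 / 2 : ℝ) ^ (m + 1))⁻¹) ^ 2 := by
        rw [mul_pow, mul_pow, ← Real.rpow_natCast ((n : ℝ) ^ (-(1 / 2) : ℝ)) 2,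
          ← Real.rpow_mul hn0.le, ← inv_pow, ← pow_mul, mul_comm (m + 1) 2, pow_mul]
        have h1 : (n : ℝ) ^ (-(1 / 2) * ((2 : ℕ) : ℝ)) = (n : ℝ)⁻¹ := by
          rw [← Real.rpow_neg_one]; norm_num
        have h2 : (((3 / 2 : ℝ))⁻¹) ^ 2 = 4 / 9 := by norm_num
        rw [h1, h2]
        ring

/-- Z1. Two classes, hypothesis in mean square. -/
lemma Dn_diff_ms (q : ℕ) [NeZero q] (s : ℂ) (hs : s.re = 2) (S : ℝ) (hS1 : 1 ≤ S) (hS : ‖s‖ ≤ S)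
    (k n : ℕ) (hk : 1 ≤ k) (hn : 1 ≤ n) (c c' : (ZMod q)ˣ) (X Y τ : ℝ) (hX : 1 ≤ X) (hXY : X ≤ Y)
    (hτ : 0 ≤ τ) (hkX : 12 * Real.log (n * X) ≤ k)
    (h : ∫ x in Set.Ioc X Y, (psiU q c x - psiU q c' x) ^ 2 / x ^ 2 ≤ τ ^ 2) :
    ‖Dn q s k c n - Dn q s k c' n‖ ≤ bet S τ (1 / 2) Y k n := by
  obtain ⟨m, rfl⟩ : ∃ m, k = m + 1 := ⟨k - 1, by omega⟩
  have hY : 1 ≤ Y := hX.trans hXY
  obtain ⟨hI, hb⟩ := Dn_diff_le q s hs S hS m n hn c c'
  obtain ⟨hI1, -⟩ := KK_theta S hS1 m n hn 1 (by norm_num) (by norm_num)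
  obtain ⟨hIB, hbB⟩ := Z1_B S hS1 m n hn
  have hlow := KK_low S hS1 m n hn X hX (by push_cast at hkX ⊢; exact hkX)
  have hhigh := KK_high S hS1 m n hn Y hY
  have hI1' : IntegrableOn (fun x : ℝ => x * KK S m n x) (Set.Ioi 1) := by
    refine hI1.congr_fun (fun x hx => ?_) measurableSet_Ioi
    simp only [Real.rpow_one]
  set F : ℝ → ℝ := fun x => |psiU q c x - psiU q c' x| * KK S m n x with hF
  have hs1 : ∫ x in Set.Ioi (1 : ℝ), F x = (∫ x in Set.Ioc (1 : ℝ) X, F x)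
      + ((∫ x in Set.Ioc X Y, F x) + ∫ x in Set.Ioi Y, F x) := by
    have e1 : Set.Ioi (1 : ℝ) = Set.Ioc 1 X ∪ Set.Ioi X := (Set.Ioc_union_Ioi_eq_Ioi hX).symm
    have e2 : Set.Ioi X = Set.Ioc X Y ∪ Set.Ioi Y := (Set.Ioc_union_Ioi_eq_Ioi hXY).symm
    rw [e1, setIntegral_union (Set.Ioc_disjoint_Ioi le_rfl) measurableSet_Ioi
      (hI.mono_set fun x hx => hx.1) (hI.mono_set (Set.Ioi_subset_Ioi hX)), e2,
      setIntegral_union (Set.Ioc_disjoint_Ioi le_rfl) measurableSet_Ioi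
      (hI.mono_set fun x hx => lt_of_le_of_lt hX hx.1) (hI.mono_set (Set.Ioi_subset_Ioi hY))]
  have hKK : ∀ x : ℝ, 1 < x → 0 ≤ KK S m n x := fun x hx =>
    KK_nonneg S (by linarith) m n hn x hx.le
  have b1 : ∫ x in Set.Ioc (1 : ℝ) X, F x ≤ 6 * ∫ x in Set.Ioc (1 : ℝ) X, x * KK S m n x := by
    rw [← integral_const_mul]
    refine setIntegral_mono_on (hI.mono_set fun x hx => hx.1)
      ((hI1'.mono_set fun x hx => hx.1).const_mul _) measurableSet_Ioc fun x hx => ?_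
    rw [← mul_assoc]
    exact mul_le_mul_of_nonneg_right (psiU_diff_le q c c' x (by linarith [hx.1])) (hKK x hx.1)
  have b3 : ∫ x in Set.Ioi Y, F x ≤ 6 * ∫ x in Set.Ioi Y, x * KK S m n x := by
    rw [← integral_const_mul]
    refine setIntegral_mono_on (hI.mono_set (Set.Ioi_subset_Ioi hY))
      ((hI1'.mono_set (Set.Ioi_subset_Ioi hY)).const_mul _) measurableSet_Ioi fun x hx => ?_
    have hx1 : 1 < x := lt_of_le_of_lt hY hx
    rw [← mul_assoc]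
    exact mul_le_mul_of_nonneg_right (psiU_diff_le q c c' x (by linarith)) (hKK x hx1)
  have hn0 : (0 : ℝ) < n := by exact_mod_cast hn
  have hS0 : 0 < 1 + S := by linarith
  obtain ⟨M, hM⟩ : ∃ M : ℝ, M = (1 + S) * (n : ℝ) ^ (-(1 / 2) : ℝ) * ((3 / 2 : ℝ) ^ (m + 1))⁻¹ :=
    ⟨_, rfl⟩
  have hM0 : 0 < M := by rw [hM]; positivity
  rw [← hM] at hbB
  have hsub : Set.Ioc X Y ⊆ Set.Ioi 1 := fun x hx => lt_of_le_of_lt hX hx.1
  have hIA : IntegrableOn (fun x : ℝ => (psiU q c x - psiU q c' x) ^ 2 / x ^ 2) (Set.Ioc X Y) := by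
    have hmeas : Measurable (fun x : ℝ => (psiU q c x - psiU q c' x) ^ 2 / x ^ 2) :=
      (((psiU_meas q c).sub (psiU_meas q c')).pow_const 2).div (measurable_id.pow_const 2)
    have hconst : IntegrableOn (fun _ : ℝ => (36 : ℝ)) (Set.Ioc X Y) :=
      integrableOn_const (by simp)
    refine Integrable.mono' hconst hmeas.aestronglyMeasurable ?_
    refine (ae_restrict_iff' measurableSet_Ioc).mpr (ae_of_all _ fun x hx => ?_)
    have hx1 : (1 : ℝ) < x := hsub hx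
    have hx0 : 0 < x := by linarith
    rw [Real.norm_of_nonneg (by positivity), div_le_iff₀ (by positivity)]
    have h1 := psiU_diff_le q c c' x hx0.le
    have h2 : (psiU q c x - psiU q c' x) ^ 2 ≤ (6 * x) ^ 2 := by
      rw [← sq_abs]
      exact pow_le_pow_left₀ (abs_nonneg _) h1 2
    nlinarith
  have hBle : ∫ x in Set.Ioc X Y, (x * KK S m n x) ^ 2 ≤ M ^ 2 := by
    refine le_trans ?_ hbB
    refine setIntegral_mono_set hIB ?_ hsub.eventuallyLE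
    refine (ae_restrict_iff' measurableSet_Ioi).mpr (ae_of_all _ fun x _ => ?_)
    exact sq_nonneg _
  have b2 : ∫ x in Set.Ioc X Y, F x ≤ τ * M := by
    refine le_of_forall_pos_le_add fun e he => ?_
    obtain ⟨t, ht⟩ : ∃ t : ℝ, t = (τ + e / M) / M := ⟨_, rfl⟩
    have hτe : 0 < τ + e / M := by positivity
    have ht0 : 0 < t := by rw [ht]; positivity
    have h1 : ∫ x in Set.Ioc X Y, F x
        ≤ ∫ x in Set.Ioc X Y, ((1 / (2 * t)) * ((psiU q c x - psiU q c' x) ^ 2 / x ^ 2)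
          + (t / 2) * (x * KK S m n x) ^ 2) := by
      refine setIntegral_mono_on (hI.mono_set hsub)
        ((hIA.const_mul _).add ((hIB.mono_set hsub).const_mul _)) measurableSet_Ioc fun x hx => ?_
      have hx1 : (1 : ℝ) < x := hsub hx
      have hx0 : 0 < x := by linarith
      obtain ⟨A, hA⟩ : ∃ A : ℝ, A = |psiU q c x - psiU q c' x| / x := ⟨_, rfl⟩
      obtain ⟨Bx, hBx⟩ : ∃ Bx : ℝ, Bx = x * KK S m n x := ⟨_, rfl⟩
      have e1 : F x = A * Bx := by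
        rw [hF, hA, hBx]
        field_simp
      have e2 : (psiU q c x - psiU q c' x) ^ 2 / x ^ 2 = A ^ 2 := by
        rw [hA, div_pow, sq_abs]
      rw [e1, e2, ← hBx]
      have h3 : (1 / (2 * t)) * A ^ 2 + (t / 2) * Bx ^ 2 - A * Bx
          = (1 / (2 * t)) * (A - t * Bx) ^ 2 := by
        field_simp
        ring
      have h4 : 0 ≤ (1 / (2 * t)) * (A - t * Bx) ^ 2 := by positivity
      linarith
    rw [integral_add (hIA.const_mul _) ((hIB.mono_set hsub).const_mul _), integral_const_mul,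
      integral_const_mul] at h1
    have h5 : (1 / (2 * t)) * (∫ x in Set.Ioc X Y, (psiU q c x - psiU q c' x) ^ 2 / x ^ 2)
        ≤ (1 / (2 * t)) * τ ^ 2 := mul_le_mul_of_nonneg_left h (by positivity)
    have h6 : (t / 2) * (∫ x in Set.Ioc X Y, (x * KK S m n x) ^ 2) ≤ (t / 2) * M ^ 2 :=
      mul_le_mul_of_nonneg_left hBle (by positivity)
    have h7 : (t / 2) * M ^ 2 = (τ + e / M) * M / 2 := by
      rw [ht]; field_simp
    have h8 : (1 / (2 * t)) * τ ^ 2 ≤ (τ + e / M) * M / 2 := by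
      have h9 : (1 / (2 * t)) * (τ + e / M) ^ 2 = (τ + e / M) * M / 2 := by
        rw [ht]; field_simp
      rw [← h9]
      refine mul_le_mul_of_nonneg_left ?_ (by positivity)
      refine pow_le_pow_left₀ hτ ?_ 2
      have : 0 < e / M := by positivity
      linarith
    have h10 : (τ + e / M) * M = τ * M + e := by
      field_simp
    linarith
  calc ‖Dn q s (m + 1) c n - Dn q s (m + 1) c' n‖ ≤ ∫ x in Set.Ioi (1 : ℝ), F x := hb
    _ ≤ 6 * ((1 + S) * (n : ℝ)⁻¹ * (2 * (1 / 4 : ℝ) ^ (m + 1)))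
        + (τ * ((1 + S) * (n : ℝ) ^ (-(1 / 2) : ℝ) * ((3 / 2 : ℝ) ^ (m + 1))⁻¹)
          + 6 * ((1 + S) * (n : ℝ)⁻¹ * (4 * 2 ^ (m + 1) * Y ^ (-(1 / 2) : ℝ)))) := by
        rw [hs1]
        have c1 := b1.trans (mul_le_mul_of_nonneg_left hlow (by norm_num : (0 : ℝ) ≤ 6))
        have c3 := b3.trans (mul_le_mul_of_nonneg_left hhigh (by norm_num : (0 : ℝ) ≤ 6))
        rw [hM] at b2
        linarith
    _ ≤ bet S τ (1 / 2) Y (m + 1) n := by
        unfold bet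
        have p1 : 0 ≤ (1 + S) * (n : ℝ)⁻¹ * (1 / 4 : ℝ) ^ (m + 1) := by positivity
        have p2 : 0 ≤ (1 + S) * (n : ℝ)⁻¹ * (2 ^ (m + 1) * Y ^ (-(1 / 2) : ℝ)) := by
          have : 0 < Y := by linarith
          positivity
        have p3 : (2 - 1 / 2 : ℝ) = 3 / 2 := by norm_num
        rw [p3]
        nlinarith [p1, p2]

end Pool.Agent.MZ
end

section

set_option autoImplicit false

namespace Pool.Agent.MW

open Complex Finset MY MZ

open MeasureTheory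

/-- The square of one term of the kernel. -/
lemma A1_u (θ : ℝ) (hθ : 1 / 2 ≤ θ) (hθ1 : θ < 1) (k n : ℕ) (hn : 1 ≤ n) :
    IntegrableOn (fun x : ℝ => (x ^ (θ - 1 / 2) *
      ((Real.log (n * x)) ^ k / (k.factorial : ℝ) / ((n : ℝ) * x) ^ 2)) ^ 2) (Set.Ioi 1) ∧
    ∫ x in Set.Ioi (1 : ℝ), (x ^ (θ - 1 / 2) *
      ((Real.log (n * x)) ^ k / (k.factorial : ℝ) / ((n : ℝ) * x) ^ 2)) ^ 2
      ≤ (n : ℝ) ^ (-(2 * θ)) * ((((2 - θ)⁻¹) ^ 2) ^ k / (2 * (2 - θ))) := by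
  have hn0 : (0 : ℝ) < n := by exact_mod_cast hn
  have hρ : 0 < 2 - θ := by linarith
  obtain ⟨hI, hb⟩ := D2_base (4 - 2 * θ) (by linarith) (2 * k) n hn
  have hf1 : (0 : ℝ) < (k.factorial : ℝ) := by exact_mod_cast k.factorial_pos
  have hf2 : (0 : ℝ) < ((2 * k).factorial : ℝ) := by exact_mod_cast (2 * k).factorial_pos
  have hc : ((2 * k).factorial : ℝ) / (k.factorial : ℝ) ^ 2 ≤ 4 ^ k := by
    rw [div_le_iff₀ (by positivity)]
    have h1 : (2 * k).choose k * k.factorial * (2 * k - k).factorial = (2 * k).factorial :=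
      Nat.choose_mul_factorial_mul_factorial (by omega)
    rw [show 2 * k - k = k by omega] at h1
    have h2 : (2 * k).choose k ≤ 2 ^ (2 * k) := Nat.choose_le_two_pow _ _
    have h3 : (2 * k).factorial ≤ 2 ^ (2 * k) * k.factorial ^ 2 := by
      rw [← h1, mul_assoc, ← sq]
      exact Nat.mul_le_mul_right _ h2
    have h4 : ((2 * k).factorial : ℝ) ≤ 2 ^ (2 * k) * (k.factorial : ℝ) ^ 2 := by exact_mod_cast h3
    rw [pow_mul] at h4
    norm_num at h4 ⊢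
    exact h4
  have he : ∀ x ∈ Set.Ioi (1 : ℝ),
      (x ^ (θ - 1 / 2) * ((Real.log (n * x)) ^ k / (k.factorial : ℝ) / ((n : ℝ) * x) ^ 2)) ^ 2
      = (((2 * k).factorial : ℝ) / (k.factorial : ℝ) ^ 2 * (n : ℝ) ^ (-(2 * θ))) *
        (((n : ℝ) * x) ^ (-(4 - 2 * θ)) *
          ((Real.log (n * x)) ^ (2 * k) / ((2 * k).factorial : ℝ)) / x) := by
    intro x hx
    have hx1 : (1 : ℝ) < x := hx
    have hx0 : 0 < x := by linarith
    have hr : ((n : ℝ) * x) ^ (-(4 - 2 * θ)) = (n : ℝ) ^ (2 * θ) * x ^ (2 * θ) *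
        (((n : ℝ) * x) ^ 4)⁻¹ := by
      rw [show -(4 - 2 * θ) = 2 * θ + -(4 : ℝ) by ring, Real.rpow_add (by positivity),
        Real.mul_rpow hn0.le hx0.le, Real.rpow_neg (by positivity)]
      congr 2
      exact_mod_cast Real.rpow_natCast ((n : ℝ) * x) 4
    have hx2 : (x ^ (θ - 1 / 2)) ^ 2 = x ^ (2 * θ) * x⁻¹ := by
      rw [← Real.rpow_natCast, ← Real.rpow_mul hx0.le, ← Real.rpow_neg_one,
        ← Real.rpow_add hx0]
      congr 1
      push_cast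
      ring
    have hnn : (n : ℝ) ^ (-(2 * θ)) * (n : ℝ) ^ (2 * θ) = 1 := by
      rw [← Real.rpow_add hn0]
      norm_num
    rw [hr, mul_pow, hx2, pow_mul', div_pow, div_pow]
    have e1 : (((2 * k).factorial : ℝ) / (k.factorial : ℝ) ^ 2 * (n : ℝ) ^ (-(2 * θ))) *
        ((n : ℝ) ^ (2 * θ) * x ^ (2 * θ) * (((n : ℝ) * x) ^ 4)⁻¹ *
          (((Real.log (n * x)) ^ k) ^ 2 / ((2 * k).factorial : ℝ)) / x)
        = ((n : ℝ) ^ (-(2 * θ)) * (n : ℝ) ^ (2 * θ)) * (x ^ (2 * θ) * x⁻¹ *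
          (((Real.log (n * x)) ^ k) ^ 2 / (k.factorial : ℝ) ^ 2 / (((n : ℝ) * x) ^ 2) ^ 2)) := by
      field_simp
    rw [e1, hnn, one_mul]
  constructor
  · have h0 : IntegrableOn (fun x : ℝ => (((2 * k).factorial : ℝ) / (k.factorial : ℝ) ^ 2 *
        (n : ℝ) ^ (-(2 * θ))) * (((n : ℝ) * x) ^ (-(4 - 2 * θ)) *
          ((Real.log (n * x)) ^ (2 * k) / ((2 * k).factorial : ℝ)) / x)) (Set.Ioi 1) :=
      hI.const_mul _
    exact h0.congr_fun (fun x hx => (he x hx).symm) measurableSet_Ioi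
  · rw [setIntegral_congr_fun measurableSet_Ioi he, integral_const_mul]
    have hcn : 0 ≤ ((2 * k).factorial : ℝ) / (k.factorial : ℝ) ^ 2 * (n : ℝ) ^ (-(2 * θ)) := by
      positivity
    calc (((2 * k).factorial : ℝ) / (k.factorial : ℝ) ^ 2 * (n : ℝ) ^ (-(2 * θ))) *
          ∫ x in Set.Ioi (1 : ℝ), ((n : ℝ) * x) ^ (-(4 - 2 * θ)) *
            ((Real.log (n * x)) ^ (2 * k) / ((2 * k).factorial : ℝ)) / x
        ≤ (((2 * k).factorial : ℝ) / (k.factorial : ℝ) ^ 2 * (n : ℝ) ^ (-(2 * θ))) *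
          ((4 - 2 * θ)⁻¹) ^ (2 * k + 1) := mul_le_mul_of_nonneg_left hb hcn
      _ ≤ (4 ^ k * (n : ℝ) ^ (-(2 * θ))) * ((4 - 2 * θ)⁻¹) ^ (2 * k + 1) := by
          have : 0 < 4 - 2 * θ := by linarith
          gcongr
      _ = (n : ℝ) ^ (-(2 * θ)) * ((((2 - θ)⁻¹) ^ 2) ^ k / (2 * (2 - θ))) := by
          have e4 : (4 - 2 * θ)⁻¹ = 2⁻¹ * (2 - θ)⁻¹ := by
            rw [← mul_inv]
            congr 1
            ring
          rw [e4, pow_succ, pow_mul, mul_pow, mul_pow, show ((2 : ℝ)⁻¹) ^ 2 = 4⁻¹ by norm_num,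
            inv_pow (4 : ℝ) k]
          have h4 : (4 : ℝ) ^ k ≠ 0 := by positivity
          field_simp

/-- The square of the kernel. -/
lemma A1_B (θ : ℝ) (hθ : 1 / 2 ≤ θ) (hθ1 : θ < 1) (S : ℝ) (hS : 1 ≤ S) (m n : ℕ) (hn : 1 ≤ n) :
    IntegrableOn (fun x : ℝ => (x ^ (θ + 1 / 2) * KK S m n x) ^ 2) (Set.Ioi 1) ∧
    ∫ x in Set.Ioi (1 : ℝ), (x ^ (θ + 1 / 2) * KK S m n x) ^ 2
      ≤ ((1 + S) * (n : ℝ) ^ (-θ) * ((2 - θ) ^ (m + 1))⁻¹) ^ 2 := by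
  have hn0 : (0 : ℝ) < n := by exact_mod_cast hn
  obtain ⟨ρ, hρd⟩ : ∃ ρ : ℝ, ρ = 2 - θ := ⟨_, rfl⟩
  have hρ : 1 < ρ := by linarith
  have hρ2 : ρ ≤ 3 / 2 := by linarith
  obtain ⟨i1, b1⟩ := A1_u θ hθ hθ1 (m + 1) n hn
  obtain ⟨i0, b0⟩ := A1_u θ hθ hθ1 m n hn
  rw [← hρd] at b1 b0 ⊢
  set u1 : ℝ → ℝ := fun x : ℝ => x ^ (θ - 1 / 2) *
    ((Real.log (n * x)) ^ (m + 1) / ((m + 1).factorial : ℝ) / ((n : ℝ) * x) ^ 2) with hu1
  set u0 : ℝ → ℝ := fun x : ℝ => x ^ (θ - 1 / 2) *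
    ((Real.log (n * x)) ^ m / (m.factorial : ℝ) / ((n : ℝ) * x) ^ 2) with hu0
  have hKK : ∀ x ∈ Set.Ioi (1 : ℝ), x ^ (θ + 1 / 2) * KK S m n x = S * u1 x + u0 x := by
    intro x hx
    have hx1 : (1 : ℝ) < x := hx
    have hx0 : 0 < x := by linarith
    have hf1 : (0 : ℝ) < (m.factorial : ℝ) := by exact_mod_cast m.factorial_pos
    have hf2 : (0 : ℝ) < ((m + 1).factorial : ℝ) := by exact_mod_cast (m + 1).factorial_pos
    have e0 : x ^ (θ + 1 / 2) = x ^ (θ - 1 / 2) * x := by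
      rw [show θ + 1 / 2 = (θ - 1 / 2) + 1 by ring, Real.rpow_add hx0, Real.rpow_one]
    rw [hu1, hu0, e0]
    unfold KK
    field_simp
  have hle : ∀ x ∈ Set.Ioi (1 : ℝ), (x ^ (θ + 1 / 2) * KK S m n x) ^ 2
      ≤ (S + ρ) * (S * (u1 x) ^ 2 + ρ⁻¹ * (u0 x) ^ 2) := by
    intro x hx
    rw [hKK x hx]
    have h1 : (S + ρ) * (S * (u1 x) ^ 2 + ρ⁻¹ * (u0 x) ^ 2) - (S * u1 x + u0 x) ^ 2
        = S * ρ⁻¹ * (ρ * u1 x - u0 x) ^ 2 := by
      field_simp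
      ring
    have h2 : 0 ≤ S * ρ⁻¹ * (ρ * u1 x - u0 x) ^ 2 := by positivity
    linarith
  have hmaj : IntegrableOn (fun x : ℝ => (S + ρ) * (S * (u1 x) ^ 2 + ρ⁻¹ * (u0 x) ^ 2))
      (Set.Ioi 1) := ((i1.const_mul S).add (i0.const_mul ρ⁻¹)).const_mul (S + ρ)
  have hmeas : Measurable (fun x : ℝ => (x ^ (θ + 1 / 2) * KK S m n x) ^ 2) := by
    unfold KK
    fun_prop
  have hint : IntegrableOn (fun x : ℝ => (x ^ (θ + 1 / 2) * KK S m n x) ^ 2) (Set.Ioi 1) := by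
    refine Integrable.mono' hmaj hmeas.aestronglyMeasurable ?_
    refine (ae_restrict_iff' measurableSet_Ioi).mpr (ae_of_all _ fun x hx => ?_)
    rw [Real.norm_of_nonneg (sq_nonneg _)]
    exact hle x hx
  refine ⟨hint, ?_⟩
  calc ∫ x in Set.Ioi (1 : ℝ), (x ^ (θ + 1 / 2) * KK S m n x) ^ 2
      ≤ ∫ x in Set.Ioi (1 : ℝ), (S + ρ) * (S * (u1 x) ^ 2 + ρ⁻¹ * (u0 x) ^ 2) :=
        setIntegral_mono_on hint hmaj measurableSet_Ioi hle
    _ = (S + ρ) * (S * (∫ x in Set.Ioi (1 : ℝ), (u1 x) ^ 2)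
          + ρ⁻¹ * ∫ x in Set.Ioi (1 : ℝ), (u0 x) ^ 2) := by
        rw [integral_const_mul, integral_add (i1.const_mul S) (i0.const_mul ρ⁻¹),
          integral_const_mul, integral_const_mul]
    _ ≤ (S + ρ) * (S * ((n : ℝ) ^ (-(2 * θ)) * ((ρ⁻¹ ^ 2) ^ (m + 1) / (2 * ρ)))
          + ρ⁻¹ * ((n : ℝ) ^ (-(2 * θ)) * ((ρ⁻¹ ^ 2) ^ m / (2 * ρ)))) := by gcongr
    _ = (n : ℝ) ^ (-(2 * θ)) * (ρ⁻¹ ^ 2) ^ (m + 1) * ((S + ρ) ^ 2 / (2 * ρ)) := by
        rw [pow_succ (ρ⁻¹ ^ 2) m]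
        field_simp
    _ ≤ (n : ℝ) ^ (-(2 * θ)) * (ρ⁻¹ ^ 2) ^ (m + 1) * (1 + S) ^ 2 := by
        refine mul_le_mul_of_nonneg_left ?_ (by positivity)
        rw [div_le_iff₀ (by positivity)]
        have h3 : S + ρ ≤ ρ * (1 + S) := by nlinarith
        calc (S + ρ) ^ 2 ≤ (ρ * (1 + S)) ^ 2 := by gcongr
          _ = ρ * (ρ * (1 + S) ^ 2) := by ring
          _ ≤ 2 * (ρ * (1 + S) ^ 2) := by gcongr; linarith
          _ = (1 + S) ^ 2 * (2 * ρ) := by ring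
    _ = ((1 + S) * (n : ℝ) ^ (-θ) * (ρ ^ (m + 1))⁻¹) ^ 2 := by
        rw [mul_pow, mul_pow, ← Real.rpow_natCast ((n : ℝ) ^ (-θ)) 2,
          ← Real.rpow_mul hn0.le, ← inv_pow, ← pow_mul, ← pow_mul, mul_comm (m + 1) 2]
        have h1 : -θ * ((2 : ℕ) : ℝ) = -(2 * θ) := by push_cast; ring
        rw [h1]
        ring

/-- A1. Two classes, hypothesis in mean square (as `MZ.Z1`, general `θ`). -/
lemma Dn_diff_ms (q : ℕ) [NeZero q] (s : ℂ) (hs : s.re = 2) (S : ℝ) (hS1 : 1 ≤ S) (hS : ‖s‖ ≤ S)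
    (θ : ℝ) (hθ : 1 / 2 ≤ θ) (hθ1 : θ < 1)
    (k n : ℕ) (hk : 1 ≤ k) (hn : 1 ≤ n) (c c' : (ZMod q)ˣ) (X Y τ : ℝ) (hX : 1 ≤ X) (hXY : X ≤ Y)
    (hτ : 0 ≤ τ) (hkX : 12 * Real.log (n * X) ≤ k)
    (h : ∫ x in Set.Ioc X Y, (psiU q c x - psiU q c' x) ^ 2 / x ^ (1 + 2 * θ) ≤ τ ^ 2) :
    ‖Dn q s k c n - Dn q s k c' n‖ ≤ bet S τ θ Y k n := by
  obtain ⟨m, rfl⟩ : ∃ m, k = m + 1 := ⟨k - 1, by omega⟩
  have hY : 1 ≤ Y := hX.trans hXY
  obtain ⟨hI, hb⟩ := Dn_diff_le q s hs S hS m n hn c c'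
  obtain ⟨hI1, -⟩ := KK_theta S hS1 m n hn 1 (by norm_num) (by norm_num)
  obtain ⟨hIB, hbB⟩ := A1_B θ hθ hθ1 S hS1 m n hn
  have hlow := KK_low S hS1 m n hn X hX (by push_cast at hkX ⊢; exact hkX)
  have hhigh := KK_high S hS1 m n hn Y hY
  have hI1' : IntegrableOn (fun x : ℝ => x * KK S m n x) (Set.Ioi 1) := by
    refine hI1.congr_fun (fun x hx => ?_) measurableSet_Ioi
    simp only [Real.rpow_one]
  set F : ℝ → ℝ := fun x => |psiU q c x - psiU q c' x| * KK S m n x with hF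
  have hs1 : ∫ x in Set.Ioi (1 : ℝ), F x = (∫ x in Set.Ioc (1 : ℝ) X, F x)
      + ((∫ x in Set.Ioc X Y, F x) + ∫ x in Set.Ioi Y, F x) := by
    have e1 : Set.Ioi (1 : ℝ) = Set.Ioc 1 X ∪ Set.Ioi X := (Set.Ioc_union_Ioi_eq_Ioi hX).symm
    have e2 : Set.Ioi X = Set.Ioc X Y ∪ Set.Ioi Y := (Set.Ioc_union_Ioi_eq_Ioi hXY).symm
    rw [e1, setIntegral_union (Set.Ioc_disjoint_Ioi le_rfl) measurableSet_Ioi
      (hI.mono_set fun x hx => hx.1) (hI.mono_set (Set.Ioi_subset_Ioi hX)), e2,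
      setIntegral_union (Set.Ioc_disjoint_Ioi le_rfl) measurableSet_Ioi
      (hI.mono_set fun x hx => lt_of_le_of_lt hX hx.1) (hI.mono_set (Set.Ioi_subset_Ioi hY))]
  have hKK : ∀ x : ℝ, 1 < x → 0 ≤ KK S m n x := fun x hx =>
    KK_nonneg S (by linarith) m n hn x hx.le
  have b1 : ∫ x in Set.Ioc (1 : ℝ) X, F x ≤ 6 * ∫ x in Set.Ioc (1 : ℝ) X, x * KK S m n x := by
    rw [← integral_const_mul]
    refine setIntegral_mono_on (hI.mono_set fun x hx => hx.1)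
      ((hI1'.mono_set fun x hx => hx.1).const_mul _) measurableSet_Ioc fun x hx => ?_
    rw [← mul_assoc]
    exact mul_le_mul_of_nonneg_right (psiU_diff_le q c c' x (by linarith [hx.1])) (hKK x hx.1)
  have b3 : ∫ x in Set.Ioi Y, F x ≤ 6 * ∫ x in Set.Ioi Y, x * KK S m n x := by
    rw [← integral_const_mul]
    refine setIntegral_mono_on (hI.mono_set (Set.Ioi_subset_Ioi hY))
      ((hI1'.mono_set (Set.Ioi_subset_Ioi hY)).const_mul _) measurableSet_Ioi fun x hx => ?_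
    have hx1 : 1 < x := lt_of_le_of_lt hY hx
    rw [← mul_assoc]
    exact mul_le_mul_of_nonneg_right (psiU_diff_le q c c' x (by linarith)) (hKK x hx1)
  have hn0 : (0 : ℝ) < n := by exact_mod_cast hn
  have hS0 : 0 < 1 + S := by linarith
  have hρ0 : 0 < 2 - θ := by linarith
  have hp2 : ∀ x : ℝ, 1 < x → x ^ 2 ≤ x ^ (1 + 2 * θ) := by
    intro x hx
    rw [← Real.rpow_two]
    exact Real.rpow_le_rpow_of_exponent_le hx.le (by linarith)
  obtain ⟨M, hM⟩ : ∃ M : ℝ, M = (1 + S) * (n : ℝ) ^ (-θ) * ((2 - θ) ^ (m + 1))⁻¹ :=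
    ⟨_, rfl⟩
  have hM0 : 0 < M := by rw [hM]; positivity
  rw [← hM] at hbB
  have hsub : Set.Ioc X Y ⊆ Set.Ioi 1 := fun x hx => lt_of_le_of_lt hX hx.1
  have hIA : IntegrableOn (fun x : ℝ => (psiU q c x - psiU q c' x) ^ 2 / x ^ (1 + 2 * θ)) (Set.Ioc X Y) := by
    have hmeas : Measurable (fun x : ℝ => (psiU q c x - psiU q c' x) ^ 2 / x ^ (1 + 2 * θ)) :=
      (((psiU_meas q c).sub (psiU_meas q c')).pow_const 2).div (Measurable.pow_const measurable_id _)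
    have hconst : IntegrableOn (fun _ : ℝ => (36 : ℝ)) (Set.Ioc X Y) :=
      integrableOn_const (by simp)
    refine Integrable.mono' hconst hmeas.aestronglyMeasurable ?_
    refine (ae_restrict_iff' measurableSet_Ioc).mpr (ae_of_all _ fun x hx => ?_)
    have hx1 : (1 : ℝ) < x := hsub hx
    have hx0 : 0 < x := by linarith
    rw [Real.norm_of_nonneg (by positivity), div_le_iff₀ (by positivity)]
    have h1 := psiU_diff_le q c c' x hx0.le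
    have h2 : (psiU q c x - psiU q c' x) ^ 2 ≤ (6 * x) ^ 2 := by
      rw [← sq_abs]
      exact pow_le_pow_left₀ (abs_nonneg _) h1 2
    have h3 := hp2 x hx1
    nlinarith
  have hBle : ∫ x in Set.Ioc X Y, (x ^ (θ + 1 / 2) * KK S m n x) ^ 2 ≤ M ^ 2 := by
    refine le_trans ?_ hbB
    refine setIntegral_mono_set hIB ?_ hsub.eventuallyLE
    refine (ae_restrict_iff' measurableSet_Ioi).mpr (ae_of_all _ fun x _ => ?_)
    exact sq_nonneg _
  have b2 : ∫ x in Set.Ioc X Y, F x ≤ τ * M := by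
    refine le_of_forall_pos_le_add fun e he => ?_
    obtain ⟨t, ht⟩ : ∃ t : ℝ, t = (τ + e / M) / M := ⟨_, rfl⟩
    have hτe : 0 < τ + e / M := by positivity
    have ht0 : 0 < t := by rw [ht]; positivity
    have h1 : ∫ x in Set.Ioc X Y, F x
        ≤ ∫ x in Set.Ioc X Y, ((1 / (2 * t)) * ((psiU q c x - psiU q c' x) ^ 2 / x ^ (1 + 2 * θ))
          + (t / 2) * (x ^ (θ + 1 / 2) * KK S m n x) ^ 2) := by
      refine setIntegral_mono_on (hI.mono_set hsub)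
        ((hIA.const_mul _).add ((hIB.mono_set hsub).const_mul _)) measurableSet_Ioc fun x hx => ?_
      have hx1 : (1 : ℝ) < x := hsub hx
      have hx0 : 0 < x := by linarith
      obtain ⟨A, hA⟩ : ∃ A : ℝ, A = |psiU q c x - psiU q c' x| / x ^ (θ + 1 / 2) := ⟨_, rfl⟩
      obtain ⟨Bx, hBx⟩ : ∃ Bx : ℝ, Bx = x ^ (θ + 1 / 2) * KK S m n x := ⟨_, rfl⟩
      have e1 : F x = A * Bx := by
        rw [hF, hA, hBx]
        field_simp
      have e2 : (psiU q c x - psiU q c' x) ^ 2 / x ^ (1 + 2 * θ) = A ^ 2 := by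
        rw [hA, div_pow, sq_abs]
        congr 1
        rw [← Real.rpow_natCast, ← Real.rpow_mul hx0.le]
        congr 1
        push_cast
        ring
      rw [e1, e2, ← hBx]
      have h3 : (1 / (2 * t)) * A ^ 2 + (t / 2) * Bx ^ 2 - A * Bx
          = (1 / (2 * t)) * (A - t * Bx) ^ 2 := by
        field_simp
        ring
      have h4 : 0 ≤ (1 / (2 * t)) * (A - t * Bx) ^ 2 := by positivity
      linarith
    rw [integral_add (hIA.const_mul _) ((hIB.mono_set hsub).const_mul _), integral_const_mul,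
      integral_const_mul] at h1
    have h5 : (1 / (2 * t)) * (∫ x in Set.Ioc X Y, (psiU q c x - psiU q c' x) ^ 2 / x ^ (1 + 2 * θ))
        ≤ (1 / (2 * t)) * τ ^ 2 := mul_le_mul_of_nonneg_left h (by positivity)
    have h6 : (t / 2) * (∫ x in Set.Ioc X Y, (x ^ (θ + 1 / 2) * KK S m n x) ^ 2) ≤ (t / 2) * M ^ 2 :=
      mul_le_mul_of_nonneg_left hBle (by positivity)
    have h7 : (t / 2) * M ^ 2 = (τ + e / M) * M / 2 := by
      rw [ht]; field_simp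
    have h8 : (1 / (2 * t)) * τ ^ 2 ≤ (τ + e / M) * M / 2 := by
      have h9 : (1 / (2 * t)) * (τ + e / M) ^ 2 = (τ + e / M) * M / 2 := by
        rw [ht]; field_simp
      rw [← h9]
      refine mul_le_mul_of_nonneg_left ?_ (by positivity)
      refine pow_le_pow_left₀ hτ ?_ 2
      have : 0 < e / M := by positivity
      linarith
    have h10 : (τ + e / M) * M = τ * M + e := by
      field_simp
    linarith
  calc ‖Dn q s (m + 1) c n - Dn q s (m + 1) c' n‖ ≤ ∫ x in Set.Ioi (1 : ℝ), F x := hb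
    _ ≤ 6 * ((1 + S) * (n : ℝ)⁻¹ * (2 * (1 / 4 : ℝ) ^ (m + 1)))
        + (τ * ((1 + S) * (n : ℝ) ^ (-θ) * ((2 - θ) ^ (m + 1))⁻¹)
          + 6 * ((1 + S) * (n : ℝ)⁻¹ * (4 * 2 ^ (m + 1) * Y ^ (-(1 / 2) : ℝ)))) := by
        rw [hs1]
        have c1 := b1.trans (mul_le_mul_of_nonneg_left hlow (by norm_num : (0 : ℝ) ≤ 6))
        have c3 := b3.trans (mul_le_mul_of_nonneg_left hhigh (by norm_num : (0 : ℝ) ≤ 6))
        rw [hM] at b2
        linarith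
    _ ≤ bet S τ θ Y (m + 1) n := by
        unfold bet
        have p1 : 0 ≤ (1 + S) * (n : ℝ)⁻¹ * (1 / 4 : ℝ) ^ (m + 1) := by positivity
        have p2 : 0 ≤ (1 + S) * (n : ℝ)⁻¹ * (2 ^ (m + 1) * Y ^ (-(1 / 2) : ℝ)) := by
          have : 0 < Y := by linarith
          positivity
        nlinarith [p1, p2]


end Pool.Agent.MW
end
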