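import Mathlib
import Pool.Agent.Lib.MP_9cfc0a_nt.Mg.G023
import Pool.Agent.Lib.MP_9cfc0a_nt.MY.C2
import Pool.Agent.Lib.MP_9cfc0a_nt.MY.C3
import Pool.Agent.Lib.MP_9cfc0a_nt.MZ.Q3
import Pool.Agent.Lib.MP_9cfc0a_nt.MY.Defs
import Pool.Agent.Lib.MP_9cfc0a_nt.MY.L2
import Pool.Agent.Lib.MP_9cfc0a_nt.Mg.G031

section

set_option autoImplicit false

namespace Pool.Agent.MZ

open Complex Finset MY

/-- E3. The bound for one term. -/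
lemma E3_Rbf (q : ℕ) [NeZero q] (B : Finset (ZMod q)ˣ) (MD Y : ℝ) (hY : 0 ≤ Y)
    (k n : ℕ) (hn : 1 ≤ n) :
    Rbf q B MD Y k n * (3 / 2 : ℝ) ^ k ≤
      (240 * ((3 / 8 : ℝ) ^ k + 3 ^ k * Y ^ (-(1 / 2) : ℝ))
        + 2 * (B.card : ℝ) ^ (1 / 2 : ℝ) / q.totient * MD) * (n : ℝ) ^ (-(1 / 2) : ℝ) := by
  have hnr : (1 : ℝ) ≤ n := by exact_mod_cast hn
  have h2 : (n : ℝ)⁻¹ ≤ (n : ℝ) ^ (-(1 / 2) : ℝ) := by
    rw [← Real.rpow_neg_one]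
    exact Real.rpow_le_rpow_of_exponent_le hnr (by norm_num)
  have e1 : (1 / 4 : ℝ) ^ k * (3 / 2) ^ k = (3 / 8) ^ k := by rw [← mul_pow]; norm_num
  have e2 : (2 : ℝ) ^ k * (3 / 2) ^ k = 3 ^ k := by rw [← mul_pow]; norm_num
  have e3 : (2 / 3 : ℝ) ^ k * (3 / 2) ^ k = 1 := by rw [← mul_pow]; norm_num
  have hE : 0 ≤ (3 / 8 : ℝ) ^ k + 3 ^ k * Y ^ (-(1 / 2) : ℝ) := by positivity
  unfold Rbf
  calc (60 * (1 + 3) * (n : ℝ)⁻¹ * ((1 / 4 : ℝ) ^ k + 2 ^ k * Y ^ (-(1 / 2) : ℝ))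
      + 2 * (B.card : ℝ) ^ (1 / 2 : ℝ) / q.totient * MD * (2 / 3 : ℝ) ^ k *
        (n : ℝ) ^ (-(1 / 2) : ℝ)) * (3 / 2 : ℝ) ^ k
      = 240 * (n : ℝ)⁻¹ * ((1 / 4 : ℝ) ^ k * (3 / 2) ^ k
          + (2 ^ k * (3 / 2) ^ k) * Y ^ (-(1 / 2) : ℝ))
        + 2 * (B.card : ℝ) ^ (1 / 2 : ℝ) / q.totient * MD * ((2 / 3 : ℝ) ^ k * (3 / 2) ^ k) *
        (n : ℝ) ^ (-(1 / 2) : ℝ) := by ring
    _ = 240 * ((3 / 8 : ℝ) ^ k + 3 ^ k * Y ^ (-(1 / 2) : ℝ)) * (n : ℝ)⁻¹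
        + 2 * (B.card : ℝ) ^ (1 / 2 : ℝ) / q.totient * MD * (n : ℝ) ^ (-(1 / 2) : ℝ) := by
        rw [e1, e2, e3]; ring
    _ ≤ 240 * ((3 / 8 : ℝ) ^ k + 3 ^ k * Y ^ (-(1 / 2) : ℝ)) * (n : ℝ) ^ (-(1 / 2) : ℝ)
        + 2 * (B.card : ℝ) ^ (1 / 2 : ℝ) / q.totient * MD * (n : ℝ) ^ (-(1 / 2) : ℝ) := by
        have h3 := mul_le_mul_of_nonneg_left h2 (mul_nonneg (by norm_num : (0 : ℝ) ≤ 240) hE)
        linarith
    _ = _ := by ring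

/-- E3. The numbers of one row. -/
lemma E3_row (Q b φ C K₁ e : ℝ) (hQ : 1 ≤ Q) (hb : 1 ≤ b) (hφ : 0 < φ) (hC : 0 ≤ C)
    (hK1 : 0 ≤ K₁) (he : 0 < e) (he1 : e ≤ 1 / 10) (hbq : b ≤ Q ^ (1 / 3 - e))
    (hφ1 : Q ≤ K₁ * Q ^ (e / 16) * φ) (E W : ℝ) (hE0 : 0 ≤ E) (hE : E ≤ 2 * Q ^ (-10 : ℝ))
    (hW : W ≤ C * (b * Q) ^ (1 / 2 : ℝ) * Q ^ (e / 4)) :
    (240 * E + 2 * b ^ (1 / 2 : ℝ) / φ * Q ^ (e / 16)) * W
      ≤ (480 * C + 2 * C * K₁) * Q ^ (-(1 / 6) - 5 * e / 8) := by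
  have hQ0 : 0 < Q := by linarith
  have hb0 : 0 < b := by linarith
  have hinv : 1 / φ ≤ K₁ * Q ^ (e / 16) * Q ^ (-1 : ℝ) := by
    rw [div_le_iff₀ hφ, Real.rpow_neg_one]
    have : K₁ * Q ^ (e / 16) * Q⁻¹ * φ = (K₁ * Q ^ (e / 16) * φ) * Q⁻¹ := by ring
    rw [this]
    calc (1 : ℝ) = Q * Q⁻¹ := by field_simp
      _ ≤ (K₁ * Q ^ (e / 16) * φ) * Q⁻¹ := mul_le_mul_of_nonneg_right hφ1 (by positivity)
  have hbQ : b ≤ Q := by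
    refine hbq.trans ?_
    calc Q ^ (1 / 3 - e) ≤ Q ^ (1 : ℝ) := Real.rpow_le_rpow_of_exponent_le hQ (by linarith)
      _ = Q := Real.rpow_one Q
  have h1 : (b * Q) ^ (1 / 2 : ℝ) ≤ Q := by
    calc (b * Q) ^ (1 / 2 : ℝ) ≤ (Q ^ (2 : ℝ)) ^ (1 / 2 : ℝ) := by
          refine Real.rpow_le_rpow (by positivity) ?_ (by norm_num)
          rw [show (2 : ℝ) = 1 + 1 by norm_num, Real.rpow_add hQ0, Real.rpow_one]
          exact mul_le_mul_of_nonneg_right hbQ hQ0.le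
      _ = Q ^ (1 : ℝ) := by
          rw [← Real.rpow_mul hQ0.le]
          norm_num
      _ = Q := Real.rpow_one Q
  have h2 : Q ^ (e / 4) ≤ Q := by
    calc Q ^ (e / 4) ≤ Q ^ (1 : ℝ) := Real.rpow_le_rpow_of_exponent_le hQ (by linarith)
      _ = Q := Real.rpow_one Q
  set W' : ℝ := C * (b * Q) ^ (1 / 2 : ℝ) * Q ^ (e / 4) with hW'
  have hW'0 : 0 ≤ W' := by positivity
  have hG0 : 0 ≤ 2 * b ^ (1 / 2 : ℝ) / φ * Q ^ (e / 16) := by positivity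
  have h3 : 240 * E * W' ≤ 480 * C * Q ^ (-(1 / 6) - 5 * e / 8) := by
    have h4 : W' ≤ C * (Q * Q) := by
      rw [hW', mul_assoc]
      exact mul_le_mul_of_nonneg_left (mul_le_mul h1 h2 (by positivity) hQ0.le) hC
    have h5 : E * W' ≤ (2 * Q ^ (-10 : ℝ)) * (C * (Q * Q)) :=
      mul_le_mul hE h4 hW'0 (by positivity)
    have h6 : Q ^ (-10 : ℝ) * (Q * Q) ≤ Q ^ (-(1 / 6) - 5 * e / 8) := by
      have h7 : Q * Q = Q ^ (2 : ℝ) := by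
        rw [show (2 : ℝ) = 1 + 1 by norm_num, Real.rpow_add hQ0, Real.rpow_one]
      rw [h7, ← Real.rpow_add hQ0]
      exact Real.rpow_le_rpow_of_exponent_le hQ (by linarith)
    have h7 := mul_le_mul_of_nonneg_left h6 (by positivity : (0 : ℝ) ≤ 480 * C)
    nlinarith
  have h4 : 2 * b ^ (1 / 2 : ℝ) / φ * Q ^ (e / 16) * W'
      ≤ 2 * C * K₁ * Q ^ (-(1 / 6) - 5 * e / 8) := by
    have h5 : b ^ (1 / 2 : ℝ) * (b * Q) ^ (1 / 2 : ℝ) = b * Q ^ (1 / 2 : ℝ) := by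
      rw [Real.mul_rpow hb0.le hQ0.le, ← mul_assoc, ← Real.rpow_add hb0]
      norm_num
    calc 2 * b ^ (1 / 2 : ℝ) / φ * Q ^ (e / 16) * W'
        = 2 * C * (1 / φ) * (b ^ (1 / 2 : ℝ) * (b * Q) ^ (1 / 2 : ℝ)) *
          (Q ^ (e / 16) * Q ^ (e / 4)) := by rw [hW']; ring
      _ = 2 * C * (1 / φ) * (b * Q ^ (1 / 2 : ℝ)) * (Q ^ (e / 16) * Q ^ (e / 4)) := by rw [h5]
      _ ≤ 2 * C * (K₁ * Q ^ (e / 16) * Q ^ (-1 : ℝ)) * (Q ^ (1 / 3 - e) * Q ^ (1 / 2 : ℝ)) *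
          (Q ^ (e / 16) * Q ^ (e / 4)) := by
          refine mul_le_mul_of_nonneg_right ?_ (by positivity)
          refine mul_le_mul ?_ ?_ (by positivity) (by positivity)
          · exact mul_le_mul_of_nonneg_left hinv (by positivity)
          · exact mul_le_mul_of_nonneg_right hbq (by positivity)
      _ = 2 * C * K₁ * (Q ^ (e / 16) * Q ^ (-1 : ℝ) * (Q ^ (1 / 3 - e) * Q ^ (1 / 2 : ℝ)) *
          (Q ^ (e / 16) * Q ^ (e / 4))) := by ring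
      _ = 2 * C * K₁ * Q ^ (-(1 / 6) - 5 * e / 8) := by
          congr 1
          simp only [← Real.rpow_add hQ0]
          congr 1
          ring
  calc (240 * E + 2 * b ^ (1 / 2 : ℝ) / φ * Q ^ (e / 16)) * W
      ≤ (240 * E + 2 * b ^ (1 / 2 : ℝ) / φ * Q ^ (e / 16)) * W' :=
        mul_le_mul_of_nonneg_left hW (by positivity)
    _ = 240 * E * W' + 2 * b ^ (1 / 2 : ℝ) / φ * Q ^ (e / 16) * W' := by ring
    _ ≤ _ := by linarith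

/-- E3. The numbers of the second bound. -/
lemma E3_one (Q b φ K₁ e : ℝ) (hQ : 1 ≤ Q) (hb : 1 ≤ b) (hφ : 0 < φ) (hφQ : φ ≤ Q)
    (hK1 : 0 ≤ K₁) (he : 0 < e) (he1 : e ≤ 1 / 10) (hbq : b ≤ Q ^ (1 / 3 - e))
    (hφ1 : Q ≤ K₁ * Q ^ (e / 16) * φ) (E R : ℝ) (hR0 : 0 ≤ R) (hE : E ≤ 2 * Q ^ (-10 : ℝ))
    (hR : R ≤ 240 * E + 2 * b ^ (1 / 2 : ℝ) / φ * Q ^ (e / 16))
    (hM : 460800 + 8 * K₁ ≤ Q ^ e) : φ * R ^ 2 ≤ Q ^ (-(e / 4)) := by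
  have hQ0 : 0 < Q := by linarith
  have hb0 : 0 < b := by linarith
  have hinv : 1 / φ ≤ K₁ * Q ^ (e / 16) * Q ^ (-1 : ℝ) := by
    rw [div_le_iff₀ hφ, Real.rpow_neg_one]
    have : K₁ * Q ^ (e / 16) * Q⁻¹ * φ = (K₁ * Q ^ (e / 16) * φ) * Q⁻¹ := by ring
    rw [this]
    calc (1 : ℝ) = Q * Q⁻¹ := by field_simp
      _ ≤ (K₁ * Q ^ (e / 16) * φ) * Q⁻¹ := mul_le_mul_of_nonneg_right hφ1 (by positivity)
  set G : ℝ := 2 * b ^ (1 / 2 : ℝ) / φ * Q ^ (e / 16) with hG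
  have hG0 : 0 ≤ G := by positivity
  have h1 : R ≤ 480 * Q ^ (-10 : ℝ) + G := by linarith
  have h2 : R ^ 2 ≤ 2 * (480 * Q ^ (-10 : ℝ)) ^ 2 + 2 * G ^ 2 := by
    have h3 : R ^ 2 ≤ (480 * Q ^ (-10 : ℝ) + G) ^ 2 := pow_le_pow_left₀ hR0 h1 2
    nlinarith [sq_nonneg (480 * Q ^ (-10 : ℝ) - G)]
  have h3 : φ * (480 * Q ^ (-10 : ℝ)) ^ 2 ≤ 230400 * Q ^ (-(2 / 3) - 13 * e / 16) := by
    have h4 : Q * (Q ^ (-10 : ℝ)) ^ 2 ≤ Q ^ (-(2 / 3) - 13 * e / 16) := by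
      have h5 : Q * (Q ^ (-10 : ℝ)) ^ 2 = Q ^ (-19 : ℝ) := by
        rw [← Real.rpow_natCast (Q ^ (-10 : ℝ)) 2, ← Real.rpow_mul hQ0.le]
        nth_rewrite 1 [← Real.rpow_one Q]
        rw [← Real.rpow_add hQ0]
        norm_num
      rw [h5]
      exact Real.rpow_le_rpow_of_exponent_le hQ (by linarith)
    have h5 : φ * (480 * Q ^ (-10 : ℝ)) ^ 2 ≤ Q * (480 * Q ^ (-10 : ℝ)) ^ 2 :=
      mul_le_mul_of_nonneg_right hφQ (by positivity)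
    have h6 : Q * (480 * Q ^ (-10 : ℝ)) ^ 2 = 230400 * (Q * (Q ^ (-10 : ℝ)) ^ 2) := by ring
    linarith
  have h4 : φ * G ^ 2 ≤ 4 * K₁ * Q ^ (-(2 / 3) - 13 * e / 16) := by
    have h5 : (b ^ (1 / 2 : ℝ)) ^ 2 = b := by
      rw [← Real.rpow_natCast, ← Real.rpow_mul hb0.le]
      norm_num
    calc φ * G ^ 2 = 4 * (b ^ (1 / 2 : ℝ)) ^ 2 * (1 / φ) * (Q ^ (e / 16) * Q ^ (e / 16)) := by
          rw [hG]
          field_simp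
          ring
      _ = 4 * b * (1 / φ) * (Q ^ (e / 16) * Q ^ (e / 16)) := by rw [h5]
      _ ≤ 4 * Q ^ (1 / 3 - e) * (K₁ * Q ^ (e / 16) * Q ^ (-1 : ℝ)) *
          (Q ^ (e / 16) * Q ^ (e / 16)) := by
          refine mul_le_mul_of_nonneg_right ?_ (by positivity)
          exact mul_le_mul (by linarith) hinv (by positivity) (by positivity)
      _ = 4 * K₁ * (Q ^ (1 / 3 - e) * (Q ^ (e / 16) * Q ^ (-1 : ℝ)) *
          (Q ^ (e / 16) * Q ^ (e / 16))) := by ring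
      _ = 4 * K₁ * Q ^ (-(2 / 3) - 13 * e / 16) := by
          congr 1
          simp only [← Real.rpow_add hQ0]
          congr 1
          ring
  have h5 : φ * R ^ 2 ≤ (460800 + 8 * K₁) * Q ^ (-(2 / 3) - 13 * e / 16) := by
    have h6 := mul_le_mul_of_nonneg_left h2 hφ.le
    have h7 : φ * (2 * (480 * Q ^ (-10 : ℝ)) ^ 2 + 2 * G ^ 2)
        = 2 * (φ * (480 * Q ^ (-10 : ℝ)) ^ 2) + 2 * (φ * G ^ 2) := by ring
    linarith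
  refine h5.trans ?_
  calc (460800 + 8 * K₁) * Q ^ (-(2 / 3) - 13 * e / 16)
      ≤ Q ^ e * Q ^ (-(2 / 3) - 13 * e / 16) :=
        mul_le_mul_of_nonneg_right hM (by positivity)
    _ = Q ^ (e + (-(2 / 3) - 13 * e / 16)) := by rw [← Real.rpow_add hQ0]
    _ ≤ Q ^ (-(e / 4)) := Real.rpow_le_rpow_of_exponent_le hQ (by linarith)

/-- E3. The error terms (numbers). -/
theorem RB (ε₀ A K₃ C₁ : ℝ) (κ : ℕ) (h0 : 0 < ε₀) (h1 : ε₀ ≤ 1 / 10) (hA : 1 ≤ A) (hK : 1 ≤ K₃)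
    (hC₁ : 0 ≤ C₁) (hκ : 12 + A * K₃ ≤ ε₀ / 40 * κ) :
    ∃ (K q₀ : ℕ), 1 ≤ K ∧ ∀ (q : ℕ) [NeZero q], q₀ ≤ q →
    ∀ X : ℝ, (q : ℝ) ≤ X → X ≤ (q : ℝ) ^ A → ∀ B : Finset (ZMod q)ˣ, B.Nonempty →
    (B.card : ℝ) ≤ (q : ℝ) ^ (1 / 3 - ε₀) → ∀ Y : ℝ, X ^ K ≤ Y →
    ∀ k : ℕ, 60 * Real.log X ≤ k → (k : ℝ) ≤ K₃ * Real.log X →
    ∑ a ∈ B, ((∑ n ∈ Icc 1 (q * NN q ε₀), |cz q ε₀ B a n| * Rbf q B ((q : ℝ) ^ (ε₀ / 16)) Y k n
        + C₁ * (3 + 2) ^ (κ + 1) * (Dz q B (ZZ q ε₀) a).card * Err q κ (UU q ε₀) k)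
          * (3 / 2 : ℝ) ^ k) ^ 2 ≤ (q : ℝ) ^ (-(ε₀ / 4)) ∧
    (q.totient : ℝ) * (Rbf q B ((q : ℝ) ^ (ε₀ / 16)) Y k 1 * (3 / 2 : ℝ) ^ k) ^ 2
      ≤ (q : ℝ) ^ (-(ε₀ / 4)) := by
  obtain ⟨C, q₁, hC, hrc⟩ := rowcol ε₀ h0 h1
  set K₁ : ℝ := 1 + 2 / (ε₀ / 16) with hK₁
  have hK1 : 0 ≤ K₁ := by positivity
  set M₃ : ℝ := C₁ * (3 + 2) ^ (κ + 1) with hM₃
  have hM30 : 0 ≤ M₃ := by positivity
  set M : ℝ := 480 * C + 2 * C * K₁ + 2 * M₃ with hM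
  have hM0 : 0 ≤ M := by positivity
  set M' : ℝ := M + (460800 + 8 * K₁) with hM'
  have hM'0 : 0 ≤ M' := by positivity
  refine ⟨⌈4 * K₃ + 20⌉₊ + 1, max q₁ (max 1 ⌈M' ^ (1 / ε₀)⌉₊), by omega, ?_⟩
  intro q _ hq X hqX hXA B hB hBc Y hY k hk1 hk2
  have hqq₁ : q₁ ≤ q := (le_max_left _ _).trans hq
  have hq1 : 1 ≤ q := (le_max_left _ _).trans ((le_max_right _ _).trans hq)
  have hqM : ⌈M' ^ (1 / ε₀)⌉₊ ≤ q := (le_max_right _ _).trans ((le_max_right _ _).trans hq)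
  have hQ1 : (1 : ℝ) ≤ q := by exact_mod_cast hq1
  have hQ0 : (0 : ℝ) < q := by linarith
  have hX1 : 1 ≤ X := by linarith
  have hX0 : 0 < X := by linarith
  have hMq : M' ≤ (q : ℝ) ^ ε₀ := by
    have h2 : M' ^ (1 / ε₀) ≤ q := (Nat.le_ceil _).trans (by exact_mod_cast hqM)
    calc M' = (M' ^ (1 / ε₀)) ^ ε₀ := by
          rw [← Real.rpow_mul hM'0, one_div, inv_mul_cancel₀ h0.ne', Real.rpow_one]
      _ ≤ (q : ℝ) ^ ε₀ := Real.rpow_le_rpow (by positivity) h2 h0.le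
  obtain ⟨_, hDz, _, _, hWS⟩ := hrc q hqq₁ B hB hBc
  have hb1 : (1 : ℝ) ≤ B.card := by exact_mod_cast hB.card_pos
  have hφn : 0 < q.totient := Nat.totient_pos.mpr (by omega)
  have hφ : (0 : ℝ) < q.totient := by exact_mod_cast hφn
  have hφQ : (q.totient : ℝ) ≤ q := by exact_mod_cast Nat.totient_le q
  have hφ1 : (q : ℝ) ≤ K₁ * (q : ℝ) ^ (ε₀ / 16) * q.totient :=
    C2_phi (ε₀ / 16) (by positivity) q hq1
  -- the error `E`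
  set K : ℕ := ⌈4 * K₃ + 20⌉₊ + 1 with hKdef
  have hKK : 4 * K₃ + 20 ≤ (K : ℝ) := by
    rw [hKdef]
    push_cast
    have := Nat.le_ceil (4 * K₃ + 20)
    linarith
  have hXK : 0 < X ^ K := by positivity
  have hY0 : 0 < Y := lt_of_lt_of_le hXK hY
  set E : ℝ := (3 / 8 : ℝ) ^ k + 3 ^ k * Y ^ (-(1 / 2) : ℝ) with hE
  have hE0 : 0 ≤ E := by positivity
  have hE1 : E ≤ 2 * (q : ℝ) ^ (-10 : ℝ) := by
    have h2 := C3_err3 q X K₃ K k hQ1 hqX hk1 hk2 hKK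
    have h3 : Y ^ (-(1 / 2) : ℝ) ≤ (X ^ K) ^ (-(1 / 2) : ℝ) :=
      Real.rpow_le_rpow_of_nonpos hXK hY (by norm_num)
    have h4 := mul_le_mul_of_nonneg_left h3 (by positivity : (0 : ℝ) ≤ 3 ^ k)
    linarith
  -- the error `Err`
  have hU0 : 0 ≤ UU q ε₀ := by unfold UU; positivity
  have hErr0 : 0 ≤ Err q κ (UU q ε₀) k := by
    unfold Err
    positivity
  have hErr : (3 / 2 : ℝ) ^ k * Err q κ (UU q ε₀) k ≤ 2 * (q : ℝ) ^ (-7 : ℝ) := by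
    have h13 := C3_err q κ (UU q ε₀) (1 / 2) hU0 le_rfl (by norm_num) k
    have h13' : (2 - 1 / 2 : ℝ) = 3 / 2 := by norm_num
    rw [h13'] at h13
    have h14 : (q : ℝ) ^ (κ + 1) * (UU q ε₀) ^ (-(κ : ℝ)) * 2 ^ k ≤ (q : ℝ) ^ (-11 : ℝ) := by
      unfold UU
      exact C3_err2 q (ε₀ / 40) X A K₃ κ k hQ1 hqX hXA (by linarith) hk2 hκ
    have h15 : (6 / 7 : ℝ) ^ k ≤ X ^ (-8 : ℝ) :=
      C3_geo (6 / 7) (1 / 7) 8 X (by norm_num) (by norm_num) hX1 k (by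
        have : 0 ≤ Real.log X := Real.log_nonneg hX1
        linarith)
    have h16 : X ^ (-8 : ℝ) ≤ (q : ℝ) ^ (-8 : ℝ) :=
      Real.rpow_le_rpow_of_nonpos hQ0 hqX (by norm_num)
    have h17 : (q : ℝ) * (6 / 7 : ℝ) ^ k ≤ (q : ℝ) ^ (-7 : ℝ) := by
      calc (q : ℝ) * (6 / 7 : ℝ) ^ k ≤ (q : ℝ) * (q : ℝ) ^ (-8 : ℝ) :=
            mul_le_mul_of_nonneg_left (h15.trans h16) hQ0.le
        _ = (q : ℝ) ^ (1 : ℝ) * (q : ℝ) ^ (-8 : ℝ) := by rw [Real.rpow_one]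
        _ = (q : ℝ) ^ (-7 : ℝ) := by
            rw [← Real.rpow_add hQ0]
            norm_num
    have h18 : (q : ℝ) ^ (-11 : ℝ) ≤ (q : ℝ) ^ (-7 : ℝ) :=
      Real.rpow_le_rpow_of_exponent_le hQ1 (by norm_num)
    linarith
  have hrow : ∀ a ∈ B, ((∑ n ∈ Icc 1 (q * NN q ε₀),
      |cz q ε₀ B a n| * Rbf q B ((q : ℝ) ^ (ε₀ / 16)) Y k n
        + M₃ * (Dz q B (ZZ q ε₀) a).card * Err q κ (UU q ε₀) k)
          * (3 / 2 : ℝ) ^ k) ^ 2 ≤ (M * (q : ℝ) ^ (-(1 / 6) - 5 * ε₀ / 8)) ^ 2 := by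
    intro a _
    have hR0 : ∀ n : ℕ, 0 ≤ Rbf q B ((q : ℝ) ^ (ε₀ / 16)) Y k n := by
      intro n
      unfold Rbf
      positivity
    refine pow_le_pow_left₀ ?_ ?_ 2
    · refine mul_nonneg (add_nonneg (Finset.sum_nonneg fun n _ =>
        mul_nonneg (abs_nonneg _) (hR0 n)) ?_) (by positivity)
      positivity
    · rw [add_mul, Finset.sum_mul]
      have hs : ∑ n ∈ Icc 1 (q * NN q ε₀),
          |cz q ε₀ B a n| * Rbf q B ((q : ℝ) ^ (ε₀ / 16)) Y k n * (3 / 2 : ℝ) ^ k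
          ≤ (240 * E + 2 * (B.card : ℝ) ^ (1 / 2 : ℝ) / q.totient * (q : ℝ) ^ (ε₀ / 16))
            * WS q ε₀ B a := by
        unfold WS
        rw [Finset.mul_sum]
        refine Finset.sum_le_sum fun n hn => ?_
        rw [Finset.mem_Icc] at hn
        have h5 := E3_Rbf q B ((q : ℝ) ^ (ε₀ / 16)) Y hY0.le k n hn.1
        calc |cz q ε₀ B a n| * Rbf q B ((q : ℝ) ^ (ε₀ / 16)) Y k n * (3 / 2 : ℝ) ^ k
            = |cz q ε₀ B a n| * (Rbf q B ((q : ℝ) ^ (ε₀ / 16)) Y k n * (3 / 2 : ℝ) ^ k) := by ring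
          _ ≤ |cz q ε₀ B a n| * ((240 * E + 2 * (B.card : ℝ) ^ (1 / 2 : ℝ) / q.totient *
              (q : ℝ) ^ (ε₀ / 16)) * (n : ℝ) ^ (-(1 / 2) : ℝ)) :=
              mul_le_mul_of_nonneg_left h5 (abs_nonneg _)
          _ = _ := by ring
      have h6 := E3_row q B.card q.totient C K₁ ε₀ hQ1 hb1 hφ (by linarith) hK1 h0 h1 hBc hφ1 E
        (WS q ε₀ B a) hE0 hE1 (hWS a)
      have h7 : M₃ * (Dz q B (ZZ q ε₀) a).card * Err q κ (UU q ε₀) k * (3 / 2 : ℝ) ^ k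
          ≤ 2 * M₃ * (q : ℝ) ^ (-(1 / 6) - 5 * ε₀ / 8) := by
        have h8 : ((Dz q B (ZZ q ε₀) a).card : ℝ) * ((3 / 2 : ℝ) ^ k * Err q κ (UU q ε₀) k)
            ≤ q * (2 * (q : ℝ) ^ (-7 : ℝ)) :=
          mul_le_mul (hDz a) hErr (by positivity) hQ0.le
        have h9 : (q : ℝ) * (2 * (q : ℝ) ^ (-7 : ℝ)) ≤ 2 * (q : ℝ) ^ (-(1 / 6) - 5 * ε₀ / 8) := by
          have h10 : (q : ℝ) * (q : ℝ) ^ (-7 : ℝ) = (q : ℝ) ^ (-6 : ℝ) := by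
            nth_rewrite 1 [← Real.rpow_one (q : ℝ)]
            rw [← Real.rpow_add hQ0]
            norm_num
          have h11 : (q : ℝ) ^ (-6 : ℝ) ≤ (q : ℝ) ^ (-(1 / 6) - 5 * ε₀ / 8) :=
            Real.rpow_le_rpow_of_exponent_le hQ1 (by linarith)
          linarith
        calc M₃ * (Dz q B (ZZ q ε₀) a).card * Err q κ (UU q ε₀) k * (3 / 2 : ℝ) ^ k
            = M₃ * (((Dz q B (ZZ q ε₀) a).card : ℝ) *
              ((3 / 2 : ℝ) ^ k * Err q κ (UU q ε₀) k)) := by ring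
          _ ≤ M₃ * (2 * (q : ℝ) ^ (-(1 / 6) - 5 * ε₀ / 8)) :=
              mul_le_mul_of_nonneg_left (h8.trans h9) hM30
          _ = _ := by ring
      calc _ ≤ (480 * C + 2 * C * K₁) * (q : ℝ) ^ (-(1 / 6) - 5 * ε₀ / 8)
            + 2 * M₃ * (q : ℝ) ^ (-(1 / 6) - 5 * ε₀ / 8) := add_le_add (hs.trans h6) h7
        _ = M * (q : ℝ) ^ (-(1 / 6) - 5 * ε₀ / 8) := by rw [hM]; ring
  refine ⟨?_, ?_⟩
  · refine (Finset.sum_le_sum hrow).trans ?_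
    rw [Finset.sum_const, nsmul_eq_mul]
    have h2 : M ^ 2 ≤ ((q : ℝ) ^ ε₀) ^ 2 := by
      refine pow_le_pow_left₀ hM0 ?_ 2
      linarith
    calc (B.card : ℝ) * (M * (q : ℝ) ^ (-(1 / 6) - 5 * ε₀ / 8)) ^ 2
        = B.card * (M ^ 2 * ((q : ℝ) ^ (-(1 / 6) - 5 * ε₀ / 8)) ^ 2) := by ring
      _ ≤ (q : ℝ) ^ (1 / 3 - ε₀) * (((q : ℝ) ^ ε₀) ^ 2 *
          ((q : ℝ) ^ (-(1 / 6) - 5 * ε₀ / 8)) ^ 2) := by
          refine mul_le_mul hBc ?_ (by positivity) (by positivity)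
          exact mul_le_mul_of_nonneg_right h2 (by positivity)
      _ = (q : ℝ) ^ (-(ε₀ / 4)) := by
          rw [← Real.rpow_natCast ((q : ℝ) ^ ε₀) 2,
            ← Real.rpow_natCast ((q : ℝ) ^ (-(1 / 6) - 5 * ε₀ / 8)) 2,
            ← Real.rpow_mul hQ0.le, ← Real.rpow_mul hQ0.le]
          simp only [← Real.rpow_add hQ0]
          congr 1
          push_cast
          ring
  · have h5 := E3_Rbf q B ((q : ℝ) ^ (ε₀ / 16)) Y hY0.le k 1 le_rfl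
    rw [Nat.cast_one, Real.one_rpow, mul_one] at h5
    refine E3_one q B.card q.totient K₁ ε₀ hQ1 hb1 hφ hφQ hK1 h0 h1 hBc hφ1 E _ ?_ hE1 h5 ?_
    · refine mul_nonneg ?_ (by positivity)
      unfold Rbf
      positivity
    · linarith

end Pool.Agent.MZ
end

section

set_option autoImplicit false

namespace Pool.Agent.MY

open Complex Finset

lemma P1_sq (u v : ℝ) : (u + v) ^ 2 ≤ 2 * u ^ 2 + 2 * v ^ 2 := by
  nlinarith [sq_nonneg (u - v)]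

lemma P1_num (C P E Q b N r w : ℝ) (hC : 1 ≤ C) (hP : 4 * C ^ 2 + 4 < P) (hE : P ^ 4 ≤ E)
    (hQ : P ^ 4 ≤ Q) (hb : 1 ≤ b) (hbN : b ≤ N) (hbQ : b ≤ Q) (hr : r ^ 2 = Q) (hr0 : 0 < r)
    (hw : w ^ 2 = b * Q) :
    b * (C * (1 / (r * (N * E))) * w * P + (Q ^ 2)⁻¹) ^ 2
      + Q * (C * (1 / (r * (N * E))) + (Q ^ 2)⁻¹) ^ 2 < P⁻¹ := by
  have hP1 : 1 ≤ P := by nlinarith [sq_nonneg C]
  have hP0 : 0 < P := by linarith
  have hP4 : 1 ≤ P ^ 4 := one_le_pow₀ hP1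
  have hE0 : 0 < E := by linarith
  have hQ0 : 0 < Q := by linarith
  have hb0 : 0 < b := by linarith
  have hN0 : 0 < N := by linarith
  have hC0 : 0 < C := by linarith
  have e1 : (C * (1 / (r * (N * E))) * w * P) ^ 2 = C ^ 2 * P ^ 2 * b / (N ^ 2 * E ^ 2) := by
    have : (C * (1 / (r * (N * E))) * w * P) ^ 2 = C ^ 2 * P ^ 2 * w ^ 2 / (r ^ 2 * (N ^ 2 * E ^ 2)) := by
      field_simp
    rw [this, hw, hr]
    field_simp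
  have e2 : (C * (1 / (r * (N * E)))) ^ 2 = C ^ 2 / (Q * (N ^ 2 * E ^ 2)) := by
    have : (C * (1 / (r * (N * E)))) ^ 2 = C ^ 2 / (r ^ 2 * (N ^ 2 * E ^ 2)) := by
      field_simp
    rw [this, hr]
  have hE2 : P ^ 8 ≤ E ^ 2 := by
    have h1 := pow_le_pow_left₀ (by positivity) hE 2
    calc P ^ 8 = (P ^ 4) ^ 2 := by ring
      _ ≤ E ^ 2 := h1
  have hQ3 : P ^ 6 ≤ Q ^ 3 := by
    have h1 := pow_le_pow_left₀ (by positivity) hQ 3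
    have h2 : P ^ 6 ≤ P ^ 12 := pow_le_pow_right₀ hP1 (by norm_num)
    calc P ^ 6 ≤ P ^ 12 := h2
      _ = (P ^ 4) ^ 3 := by ring
      _ ≤ Q ^ 3 := h1
  have hbb : b ^ 2 ≤ N ^ 2 := pow_le_pow_left₀ hb0.le hbN 2
  have hN2 : 1 ≤ N ^ 2 := one_le_pow₀ (by linarith)
  have a1 : b * (C * (1 / (r * (N * E))) * w * P) ^ 2 ≤ C ^ 2 / P ^ 6 := by
    rw [e1, ← mul_div_assoc, div_le_div_iff₀ (by positivity) (by positivity)]
    calc b * (C ^ 2 * P ^ 2 * b) * P ^ 6 = C ^ 2 * (b ^ 2 * P ^ 8) := by ring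
      _ ≤ C ^ 2 * (N ^ 2 * E ^ 2) := by
        refine mul_le_mul_of_nonneg_left ?_ (by positivity)
        exact mul_le_mul hbb hE2 (by positivity) (by positivity)
  have a2 : Q * (C * (1 / (r * (N * E)))) ^ 2 ≤ C ^ 2 / P ^ 6 := by
    have e3 : Q * (C ^ 2 / (Q * (N ^ 2 * E ^ 2))) = C ^ 2 / (N ^ 2 * E ^ 2) := by
      field_simp
    rw [e2, e3]
    refine div_le_div_of_nonneg_left (by positivity) (by positivity) ?_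
    calc P ^ 6 ≤ P ^ 8 := pow_le_pow_right₀ hP1 (by norm_num)
      _ = 1 * P ^ 8 := by ring
      _ ≤ N ^ 2 * E ^ 2 := mul_le_mul hN2 hE2 (by positivity) (by positivity)
  have a4 : Q * ((Q ^ 2)⁻¹) ^ 2 ≤ 1 / P ^ 6 := by
    have e3 : Q * ((Q ^ 2)⁻¹) ^ 2 = 1 / Q ^ 3 := by
      field_simp
    rw [e3]
    exact div_le_div_of_nonneg_left (by norm_num) (by positivity) hQ3
  have a3 : b * ((Q ^ 2)⁻¹) ^ 2 ≤ 1 / P ^ 6 :=
    (mul_le_mul_of_nonneg_right hbQ (by positivity)).trans a4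
  have b1 := mul_le_mul_of_nonneg_left
    (P1_sq (C * (1 / (r * (N * E))) * w * P) ((Q ^ 2)⁻¹)) hb0.le
  have b2 := mul_le_mul_of_nonneg_left (P1_sq (C * (1 / (r * (N * E)))) ((Q ^ 2)⁻¹)) hQ0.le
  have c1 : (4 * C ^ 2 + 4) / P ^ 6 < P⁻¹ := by
    rw [inv_eq_one_div, div_lt_div_iff₀ (by positivity) hP0]
    have h1 : (4 * C ^ 2 + 4) * P < P * P := mul_lt_mul_of_pos_right hP hP0
    have h2 : P * P ≤ P ^ 6 := by
      calc P * P = P ^ 2 := by ring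
        _ ≤ P ^ 6 := pow_le_pow_right₀ hP1 (by norm_num)
    linarith
  have c2 : (4 * C ^ 2 + 4) / P ^ 6 = 4 * (C ^ 2 / P ^ 6) + 4 * (1 / P ^ 6) := by
    ring
  rw [c2] at c1
  nlinarith [b1, b2, a1, a2, a3, a4, c1]

lemma P1_sum (q : ℕ) [NeZero q] (B : Finset (ZMod q)ˣ) (f : (ZMod q)ˣ → ℝ) (u v : ℝ)
    (hf : ∀ a, 0 ≤ f a) (h1 : ∀ a ∈ B, f a ≤ u) (h2 : ∀ a ∉ B, f a ≤ v) :
    ∑ a, f a ^ 2 ≤ B.card * u ^ 2 + q * v ^ 2 := by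
  classical
  rw [← sum_add_sum_compl B]
  have e1 : ∑ a ∈ B, f a ^ 2 ≤ B.card * u ^ 2 := by
    have := sum_le_card_nsmul B (fun a => f a ^ 2) (u ^ 2)
      (fun a ha => pow_le_pow_left₀ (hf a) (h1 a ha) 2)
    rwa [nsmul_eq_mul] at this
  have e2 : ∑ a ∈ Bᶜ, f a ^ 2 ≤ q * v ^ 2 := by
    have h3 := sum_le_card_nsmul Bᶜ (fun a => f a ^ 2) (v ^ 2)
      (fun a ha => pow_le_pow_left₀ (hf a) (h2 a (mem_compl.mp ha)) 2)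
    rw [nsmul_eq_mul] at h3
    have h4 : (Bᶜ.card : ℝ) ≤ q := by
      have h5 : Bᶜ.card ≤ Fintype.card (ZMod q)ˣ := card_le_univ _
      rw [ZMod.card_units_eq_totient] at h5
      exact_mod_cast h5.trans (Nat.totient_le q)
    exact h3.trans (mul_le_mul_of_nonneg_right h4 (sq_nonneg v))
  linarith

/-- P1. Many classes with a large error. -/
theorem many (β A ε : ℝ) (hβ : β < 1 / 3) (hε : 0 < ε) : ∃ (K q₀ : ℕ), ∀ q : ℕ, q₀ ≤ q →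
    ∀ X : ℝ, (q : ℝ) ≤ X → X ≤ (q : ℝ) ^ A → ∀ (N : ℕ) (B : Finset ℕ), 1 ≤ N →
    (N : ℝ) ≤ (q : ℝ) ^ β → B.card ≤ N →
    ∃ a a' : ℕ, (1 ≤ a ∧ a ≤ q ∧ Nat.Coprime a q ∧ a ∉ B) ∧
      (1 ≤ a' ∧ a' ≤ q ∧ Nat.Coprime a' q ∧ a' ∉ B) ∧ ∃ x : ℝ, X ≤ x ∧ x ≤ X ^ K ∧
      (x / q) ^ (1 / 2 : ℝ) / (N * (q : ℝ) ^ ε) ≤ |EM.psi x q a - EM.psi x q a'| := by
  classical
  obtain ⟨ε₀, h0, h0β, h0ε, h01⟩ : ∃ ε₀ : ℝ, 0 < ε₀ ∧ β ≤ 1 / 3 - ε₀ ∧ ε₀ ≤ ε ∧ ε₀ ≤ 1 / 10 := by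
    refine ⟨min (1 / 3 - β) (min ε (1 / 10)),
      lt_min (by linarith) (lt_min hε (by norm_num)), ?_, ?_, ?_⟩
    · have := min_le_left (1 / 3 - β) (min ε (1 / 10))
      linarith
    · exact (min_le_right _ _).trans (min_le_left _ _)
    · exact (min_le_right _ _).trans (min_le_right _ _)
  obtain ⟨C₂, hC₂, hcore⟩ := core (1 / 2) ε₀ le_rfl (by norm_num) h0 h01
  obtain ⟨K₃, q₁, hK₃, hlow⟩ := lower (max A 1) (max C₂ 12) (ε₀ / 4) (le_max_right _ _)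
    (le_max_right _ _) (by linarith)
  obtain ⟨K, hK, hcoreS⟩ := hcore (max A 1) K₃ (le_max_right _ _) hK₃
  obtain ⟨C, q₂, hC, hcore⟩ := hcoreS 3 le_rfl
  have htend : ∀ᶠ x : ℝ in Filter.atTop, 4 * C ^ 2 + 4 < x ^ (ε₀ / 4) :=
    (tendsto_rpow_atTop (by linarith)).eventually_gt_atTop _
  obtain ⟨x₀, hx₀⟩ := Filter.eventually_atTop.mp htend
  obtain ⟨q₃, hq₃⟩ := exists_nat_ge x₀
  refine ⟨K, max (max q₁ q₂) (max q₃ 2), ?_⟩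
  intro q hq X hqX hXA N B hN hNβ hBN
  have hq1 : q₁ ≤ q := ((le_max_left _ _).trans (le_max_left _ _)).trans hq
  have hq2 : q₂ ≤ q := ((le_max_right _ _).trans (le_max_left _ _)).trans hq
  have hq3 : q₃ ≤ q := ((le_max_left _ _).trans (le_max_right _ _)).trans hq
  have hq4 : 2 ≤ q := ((le_max_right _ _).trans (le_max_right _ _)).trans hq
  have hne : NeZero q := ⟨by omega⟩
  by_contra hcon
  have hsm : ∀ a a' : ℕ, (1 ≤ a ∧ a ≤ q ∧ Nat.Coprime a q ∧ a ∉ B) →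
      (1 ≤ a' ∧ a' ≤ q ∧ Nat.Coprime a' q ∧ a' ∉ B) → ∀ x : ℝ, X ≤ x → x ≤ X ^ K →
      |EM.psi x q a - EM.psi x q a'| ≤ (x / q) ^ (1 / 2 : ℝ) / (N * (q : ℝ) ^ ε) := by
    intro a a' ha ha' x hx hx'
    by_contra hlt
    exact hcon ⟨a, a', ha, ha', x, hx, hx', (not_le.mp hlt).le⟩
  have hqr : (2 : ℝ) ≤ q := by exact_mod_cast hq4
  have hq0 : (0 : ℝ) < q := by linarith
  have hq1' : (1 : ℝ) ≤ q := by linarith
  have hX1 : 1 ≤ X := by linarith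
  have hNr : (1 : ℝ) ≤ N := by exact_mod_cast hN
  have hXA' : X ≤ (q : ℝ) ^ (max A 1) :=
    hXA.trans (Real.rpow_le_rpow_of_exponent_le hq1' (le_max_left _ _))
  obtain ⟨B', hB'ne, hB'card, hB'mem⟩ : ∃ B' : Finset (ZMod q)ˣ, B'.Nonempty ∧ B'.card ≤ N ∧
      ∀ a ∈ B, Nat.Coprime a q → un q a ∈ B' := by
    by_cases h : ((B.filter fun n => Nat.Coprime n q).image (un q)).Nonempty
    · exact ⟨_, h, (card_image_le.trans (card_filter_le _ _)).trans hBN,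
        fun a ha hc => mem_image_of_mem _ (mem_filter.mpr ⟨ha, hc⟩)⟩
    · refine ⟨{1}, singleton_nonempty _, by rw [card_singleton]; exact hN, fun a ha hc => ?_⟩
      exact absurd ⟨un q a, mem_image_of_mem _ (mem_filter.mpr ⟨ha, hc⟩)⟩ h
  have hB'N : (B'.card : ℝ) ≤ N := by exact_mod_cast hB'card
  have hB'1 : (1 : ℝ) ≤ B'.card := by exact_mod_cast hB'ne.card_pos
  have hcard : (B'.card : ℝ) ≤ (q : ℝ) ^ (1 / 3 - ε₀) :=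
    (hB'N.trans hNβ).trans (Real.rpow_le_rpow_of_exponent_le hq1' h0β)
  have hB'q : (B'.card : ℝ) ≤ q := by
    refine hcard.trans ?_
    calc (q : ℝ) ^ (1 / 3 - ε₀) ≤ (q : ℝ) ^ (1 : ℝ) :=
          Real.rpow_le_rpow_of_exponent_le hq1' (by linarith)
      _ = q := Real.rpow_one _
  set r : ℝ := (q : ℝ) ^ (1 / 2 : ℝ) with hr
  set E : ℝ := (q : ℝ) ^ ε with hE
  set P : ℝ := (q : ℝ) ^ (ε₀ / 4) with hP
  set w : ℝ := ((B'.card : ℝ) * q) ^ (1 / 2 : ℝ) with hw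
  have hr0 : 0 < r := Real.rpow_pos_of_pos hq0 _
  have hE0 : 0 < E := Real.rpow_pos_of_pos hq0 _
  have hP0 : 0 < P := Real.rpow_pos_of_pos hq0 _
  have hr2 : r ^ 2 = q := by
    rw [hr, ← Real.rpow_natCast, ← Real.rpow_mul hq0.le]
    norm_num
  have hw2 : w ^ 2 = B'.card * q := by
    rw [hw, ← Real.rpow_natCast, ← Real.rpow_mul (by positivity)]
    norm_num
  have hP4 : P ^ 4 = (q : ℝ) ^ ε₀ := by
    rw [hP, ← Real.rpow_natCast, ← Real.rpow_mul hq0.le]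
    congr 1
    push_cast
    ring
  have hPE : P ^ 4 ≤ E := by
    rw [hP4]
    exact Real.rpow_le_rpow_of_exponent_le hq1' h0ε
  have hPQ : P ^ 4 ≤ (q : ℝ) := by
    rw [hP4]
    calc (q : ℝ) ^ ε₀ ≤ (q : ℝ) ^ (1 : ℝ) := Real.rpow_le_rpow_of_exponent_le hq1' (by linarith)
      _ = q := Real.rpow_one _
  have hPbig : 4 * C ^ 2 + 4 < P := hx₀ q (hq₃.trans (by exact_mod_cast hq3))
  have hτ : 0 ≤ 1 / (r * (N * E)) := by positivity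
  have hhyp : ∀ c ∉ B', ∀ c' ∉ B', ∀ x : ℝ, X ≤ x → x ≤ X ^ K →
      |psiU q c x - psiU q c' x| ≤ 1 / (r * (N * E)) * x ^ (1 / 2 : ℝ) := by
    intro c hc c' hc' x hx hx'
    obtain ⟨a, ha1, haq, hac, hau⟩ := exists_rep q c
    obtain ⟨a', ha1', haq', hac', hau'⟩ := exists_rep q c'
    have haB : a ∉ B := fun h => hc (hau ▸ hB'mem a h hac)
    have haB' : a' ∉ B := fun h => hc' (hau' ▸ hB'mem a' h hac')
    have h1 := hsm a a' ⟨ha1, haq, hac, haB⟩ ⟨ha1', haq', hac', haB'⟩ x hx hx'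
    rw [← psiU_eq q a hac x, ← psiU_eq q a' hac' x, hau, hau'] at h1
    refine h1.trans (le_of_eq ?_)
    have hx0 : 0 ≤ x := by linarith
    rw [Real.div_rpow hx0 hq0.le, ← hr]
    field_simp
  obtain ⟨s, hs, hsn, k, hk1, hk2, hsum⟩ := hlow q hq1 X hqX hXA'
  have hk : C₂ * Real.log X ≤ k :=
    (mul_le_mul_of_nonneg_right (le_max_left _ _) (Real.log_nonneg hX1)).trans hk1
  have hcard' : (B'.card : ℝ) ≤ (q : ℝ) ^ ((1 / 2 : ℝ) / (2 - 1 / 2) - ε₀) := by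
    have e3 : (1 / 2 : ℝ) / (2 - 1 / 2) = 1 / 3 := by norm_num
    rw [e3]
    exact hcard
  obtain ⟨hin, hout⟩ := hcore q hq2 X hqX hXA' B' hB'ne hcard'
    (1 / (r * (N * E))) hτ hhyp s hs hsn k hk hk2
  have e32 : (2 - 1 / 2 : ℝ) = 3 / 2 := by norm_num
  have em2 : (q : ℝ) ^ (-2 : ℝ) = ((q : ℝ) ^ 2)⁻¹ := by
    rw [Real.rpow_neg hq0.le]
    congr 1
    exact_mod_cast Real.rpow_natCast (q : ℝ) 2
  have e12 : (1 - 1 / 2 : ℝ) = 1 / 2 := by norm_num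
  rw [e32] at hin hout
  simp only [em2, e12] at hin hout
  have hfin := P1_sum q B' (fun a => ‖Dk q s k a‖ * (3 / 2 : ℝ) ^ k) _ _
    (fun a => by positivity) hin hout
  have hnum := P1_num C P E q B'.card N r w hC hPbig hPE hPQ hB'1 hB'N hB'q hr2 hr0 hw2
  have hlast : (q : ℝ) ^ (-(ε₀ / 4)) = P⁻¹ := by
    rw [Real.rpow_neg hq0.le]
  rw [hlast] at hsum
  linarith

end Pool.Agent.MY
end
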