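import Mathlib
import Pool.Agent.Lib.MP_9cfc0a_nt.Mg.G023
import Pool.Agent.Lib.MP_9cfc0a_nt.Mg.G037
import Pool.Agent.Lib.MP_9cfc0a_nt.Mg.G039
import Pool.Agent.Lib.MP_9cfc0a_nt.MW.A12
import Pool.Agent.Lib.MP_9cfc0a_nt.Mg.G024
import Pool.Agent.Lib.MP_9cfc0a_nt.Mg.G031
import Pool.Agent.Lib.MP_9cfc0a_nt.MY.C3
import Pool.Agent.Lib.MP_9cfc0a_nt.Mg.G036
import Pool.Agent.Lib.MP_9cfc0a_nt.MU.U4
import Pool.Agent.Lib.MP_9cfc0a_nt.MU.U5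
import Pool.Agent.Lib.MP_9cfc0a_nt.Mg.G028
import Pool.Agent.Lib.MP_9cfc0a_nt.MY.A2
import Pool.Agent.Lib.MP_9cfc0a_nt.Mg.G027

section

set_option autoImplicit false

namespace Pool.Agent.MU

open Complex Finset MY MZ MW

lemma U6_big (c M : ℝ) (hc : 0 < c) : ∃ q₀ : ℕ, ∀ q : ℕ, q₀ ≤ q → M ≤ (q : ℝ) ^ c := by
  have h := ((tendsto_rpow_atTop hc).comp
    (tendsto_natCast_atTop_atTop (R := ℝ))).eventually_ge_atTop M
  obtain ⟨q₀, hq₀⟩ := Filter.eventually_atTop.1 h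
  exact ⟨q₀, fun q hq => hq₀ q hq⟩

/-- a constant times a smaller power -/
lemma U6_num (M u v : ℝ) (huv : u < v) :
    ∃ q₀ : ℕ, ∀ q : ℕ, q₀ ≤ q → M * (q : ℝ) ^ u ≤ (q : ℝ) ^ v := by
  obtain ⟨q₀, h⟩ := U6_big (v - u) M (by linarith)
  refine ⟨max 1 q₀, fun q hq => ?_⟩
  have h1 := h q ((le_max_right _ _).trans hq)
  have hq0 : (0 : ℝ) < q := by exact_mod_cast (lt_of_lt_of_le one_pos ((le_max_left _ _).trans hq))
  have h2 : (q : ℝ) ^ v = (q : ℝ) ^ (v - u) * (q : ℝ) ^ u := by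
    rw [← Real.rpow_add hq0]
    congr 1
    ring
  rw [h2]
  exact mul_le_mul_of_nonneg_right h1 (Real.rpow_nonneg hq0.le _)

lemma U6_sq3 (x a b c t : ℝ) (hx : 0 ≤ x) (ht : 0 ≤ t) (h : x ≤ a + b + c) :
    (x * t) ^ 2 ≤ 3 * ((a * t) ^ 2 + (b * t) ^ 2 + (c * t) ^ 2) := by
  have h1 : (x * t) ^ 2 ≤ ((a + b + c) * t) ^ 2 :=
    pow_le_pow_left₀ (mul_nonneg hx ht) (mul_le_mul_of_nonneg_right h ht) 2
  nlinarith [sq_nonneg (a * t - b * t), sq_nonneg (a * t - c * t), sq_nonneg (b * t - c * t)]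

lemma U6_Fn_one (q : ℕ) [NeZero q] (B : Finset (ZMod q)ˣ) (X Y : ℝ) (s : ℂ) (k : ℕ)
    (c : (ZMod q)ˣ) : Fn q B X Y s k c 1 = Fj q B X Y s k c := by
  unfold Fn
  rw [Finset.sum_eq_single 0]
  · rw [Nat.cast_one, gi_one, if_pos rfl, one_mul, Nat.sub_zero]
  · intro i _ hi
    rw [Nat.cast_one, gi_one, if_neg hi, zero_mul]
  · intro h
    exact absurd (Finset.mem_range.mpr (Nat.succ_pos k)) h

lemma U6_sB_nonneg (q : ℕ) [NeZero q] (θ : ℝ) (B : Finset (ZMod q)ˣ) (s : ℂ) (I₀ k : ℕ) :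
    0 ≤ sB q θ B s I₀ k := by
  unfold sB
  refine Finset.sum_nonneg fun i _ => mul_nonneg ?_ ?_
  · unfold gam
    split_ifs <;> positivity
  · unfold uB
    exact Finset.sum_nonneg fun a _ => sq_nonneg _

/-- `b / φ` is small. -/
lemma U6_frac (θ ε₀ : ℝ) (hθ : 1 / 2 ≤ θ) (hθ1 : θ < 1) (h0 : 0 < ε₀) (h1 : ε₀ ≤ 1 / 10) :
    ∃ q₀ : ℕ, ∀ (q : ℕ) [NeZero q], q₀ ≤ q → ∀ b : ℝ, 0 ≤ b →
    b ≤ (q : ℝ) ^ (θ / (2 - θ) - ε₀) →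
    48 * b / q.totient ≤ (q : ℝ) ^ (-((1 - θ) * ε₀ / 8)) := by
  obtain ⟨q₀, h⟩ := U6_num (48 * (1 + 2 / (ε₀ / 2))) (-(ε₀ / 2)) (-((1 - θ) * ε₀ / 8)) (by
    nlinarith)
  refine ⟨max 1 q₀, fun q _ hq b hb0 hb => ?_⟩
  have hq1 : 1 ≤ q := (le_max_left _ _).trans hq
  have hq0 : (0 : ℝ) < q := by exact_mod_cast hq1
  have hq1r : (1 : ℝ) ≤ q := by exact_mod_cast hq1
  refine le_trans ?_ (h q ((le_max_right _ _).trans hq))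
  have hφ := C2_phi (ε₀ / 2) (by positivity) q hq1
  have hφ0 : (0 : ℝ) < q.totient := by exact_mod_cast Nat.totient_pos.mpr hq1
  rw [div_le_iff₀ hφ0]
  have h3 : θ / (2 - θ) ≤ 1 := by
    rw [div_le_one (by linarith)]
    linarith
  have h4 : (q : ℝ) ^ (θ / (2 - θ) - ε₀) ≤ (q : ℝ) ^ (1 - ε₀) :=
    Real.rpow_le_rpow_of_exponent_le hq1r (by linarith)
  have h5 : (q : ℝ) ^ (1 - ε₀) = (q : ℝ) * (q : ℝ) ^ (-ε₀) := by
    rw [sub_eq_add_neg, Real.rpow_add hq0, Real.rpow_one]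
  have h6 : (q : ℝ) ^ (-ε₀) * (q : ℝ) ^ (ε₀ / 2) = (q : ℝ) ^ (-(ε₀ / 2)) := by
    rw [← Real.rpow_add hq0]
    congr 1
    ring
  have h7 : 0 ≤ (q : ℝ) ^ (-ε₀) := Real.rpow_nonneg hq0.le _
  calc 48 * b ≤ 48 * ((q : ℝ) * (q : ℝ) ^ (-ε₀)) := by
        rw [← h5]
        linarith
    _ ≤ 48 * (((1 + 2 / (ε₀ / 2)) * (q : ℝ) ^ (ε₀ / 2) * (q.totient : ℝ)) * (q : ℝ) ^ (-ε₀)) := by
        refine mul_le_mul_of_nonneg_left ?_ (by norm_num)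
        exact mul_le_mul_of_nonneg_right hφ h7
    _ = 48 * (1 + 2 / (ε₀ / 2)) * ((q : ℝ) ^ (-ε₀) * (q : ℝ) ^ (ε₀ / 2)) * q.totient := by ring
    _ = 48 * (1 + 2 / (ε₀ / 2)) * (q : ℝ) ^ (-(ε₀ / 2)) * q.totient := by rw [h6]


lemma U6_sq4 (x a b c d t : ℝ) (hx : 0 ≤ x) (ht : 0 ≤ t) (h : x ≤ a + b + c + d) :
    (x * t) ^ 2 ≤ 4 * ((a * t) ^ 2 + (b * t) ^ 2 + (c * t) ^ 2 + (d * t) ^ 2) := by
  have h1 : (x * t) ^ 2 ≤ ((a + b + c + d) * t) ^ 2 :=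
    pow_le_pow_left₀ (mul_nonneg hx ht) (mul_le_mul_of_nonneg_right h ht) 2
  nlinarith [sq_nonneg (a * t - b * t), sq_nonneg (a * t - c * t), sq_nonneg (b * t - c * t),
    sq_nonneg (a * t - d * t), sq_nonneg (b * t - d * t), sq_nonneg (c * t - d * t)]

lemma U6_uA_nonneg (q : ℕ) [NeZero q] (θ : ℝ) (s : ℂ) (k : ℕ) : 0 ≤ uA q θ s k :=
  Finset.sum_nonneg fun _ _ => sq_nonneg _

lemma U6_uB_le (q : ℕ) [NeZero q] (θ : ℝ) (B : Finset (ZMod q)ˣ) (s : ℂ) (k : ℕ) :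
    uB q θ B s k ≤ uA q θ s k :=
  Finset.sum_le_sum_of_subset_of_nonneg (Finset.subset_univ _) fun _ _ _ => sq_nonneg _

lemma U6_sB_le (q : ℕ) [NeZero q] (θ : ℝ) (B : Finset (ZMod q)ˣ) (s : ℂ) (I₀ k : ℕ) :
    sB q θ B s I₀ k ≤ ∑ i ∈ range (k + 1), ga I₀ i * uA q θ s (k - i) := by
  unfold sB
  refine Finset.sum_le_sum fun i _ => ?_
  have h1 : 0 ≤ gam I₀ i := by
    unfold gam
    split_ifs <;> positivity
  have h2 : gam I₀ i ≤ ga I₀ i := by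
    unfold gam ga
    split_ifs
    · exact le_rfl
    · exact pow_le_pow_left₀ (by norm_num) (by norm_num) i
  exact mul_le_mul h2 (U6_uB_le q θ B s (k - i))
    (Finset.sum_nonneg fun _ _ => sq_nonneg _) (h1.trans h2)

lemma U6_conv_le (q : ℕ) [NeZero q] (θ : ℝ) (s : ℂ) (I₀ k : ℕ) :
    ∑ i ∈ range (k + 1), (6 / 7 : ℝ) ^ i * uA q θ s (k - i)
      ≤ ∑ i ∈ range (k + 1), ga I₀ i * uA q θ s (k - i) := by
  refine Finset.sum_le_sum fun i _ => mul_le_mul_of_nonneg_right ?_ (U6_uA_nonneg q θ s (k - i))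
  unfold ga
  split_ifs
  · exact pow_le_one₀ (by norm_num) (by norm_num)
  · exact le_rfl

/-- U6. One step of the recursion for `uA`, uniformly in `X ≥ q`. -/
theorem recU (θ ε₀ K₃ : ℝ) (hθ : 1 / 2 ≤ θ) (hθ1 : θ < 1) (h0 : 0 < ε₀) (h1 : ε₀ ≤ 1 / 10)
    (hK : 60 ≤ K₃) :
    ∃ (ν : ℝ) (K q₀ : ℕ), 0 < ν ∧ ν ≤ 1 / 4 ∧ 1 ≤ K ∧
    ∀ (q : ℕ) [NeZero q], q₀ ≤ q → ∀ S : ℝ, 3 ≤ S → S + 2 ≤ (q : ℝ) ^ ν →
    ∀ X : ℝ, (q : ℝ) ≤ X → ∀ B : Finset (ZMod q)ˣ, B.Nonempty →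
    (B.card : ℝ) ≤ (q : ℝ) ^ (θ / (2 - θ) - ε₀) → ∀ Y : ℝ, X ^ K ≤ Y → ∀ w2 : ℝ, 0 ≤ w2 →
    ∫ x in Set.Ioc X Y, VB q B x / x ^ (1 + 2 * θ) ≤ w2 → ∀ s : ℂ, s.re = 2 → ‖s‖ ≤ S →
    ∀ k : ℕ, 60 * Real.log X ≤ k → (k : ℝ) ≤ K₃ * Real.log X → ∀ P : ℝ,
    ∑ a ∈ B, (‖XW q θ ε₀ B X Y s k a‖ * (2 - θ) ^ k) ^ 2 ≤ P →
    uA q θ s k ≤ (4 * P + 12 * S ^ 2 * w2 + X ^ (-5 : ℝ))
        + (q : ℝ) ^ (-((1 - θ) * ε₀ / 8)) * ∑ i ∈ range (k + 1),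
          ga ⌈40 * Real.log ((q * NN q ε₀ : ℕ) : ℝ)⌉₊ i * uA q θ s (k - i) := by
  have hK1 : 1 ≤ K₃ := by linarith
  obtain ⟨κ, hκ⟩ : ∃ κ : ℕ, 12 ≤ ε₀ / 40 * κ := by
    obtain ⟨n, hn⟩ := exists_nat_ge (12 / (ε₀ / 40))
    refine ⟨n, ?_⟩
    rw [div_le_iff₀ (by positivity)] at hn
    linarith
  obtain ⟨C₁, hC₁, hrow⟩ := row_conv κ
  obtain ⟨K, ν₂, qd, hKpos, hν₂, hν₂', hqd⟩ := RBU θ ε₀ K₃ hθ hθ1 h0 h1 hK1
  obtain ⟨ν₁, qb, hν₁, hν₁', hqb⟩ := REU θ ε₀ C₁ κ hθ hθ1 h0 h1 hC₁ hκ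
  obtain ⟨Cw, qw, hCw, hqw⟩ := rowcol θ ε₀ hθ hθ1 h0 h1
  have hexp : 0 < (1 - θ) * ε₀ := mul_pos (by linarith) h0
  obtain ⟨qh, hqh⟩ := U6_num 16 (-((1 - θ) * ε₀)) (-((1 - θ) * ε₀ / 8)) (by linarith)
  obtain ⟨qi, hqi⟩ := U6_num 16 (-(ε₀ / 4)) (-((1 - θ) * ε₀ / 8)) (by nlinarith)
  obtain ⟨qj, hqj⟩ := U6_frac θ ε₀ hθ hθ1 h0 h1
  obtain ⟨ql, hql⟩ := U6_num 16 (-1) (-((1 - θ) * ε₀ / 8)) (by nlinarith)
  refine ⟨min ν₁ ν₂, K, 11 + (qb + (qd + (qw + (qh + (qi + (qj + ql)))))), lt_min hν₁ hν₂,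
    (min_le_left _ _).trans hν₁', hKpos, ?_⟩
  intro q _ hq S hS3 hSq X hqX B hBne hBc Y hY w2 hw2 hint s hs hsS k hk60 hkK P hP
  have hq9 : 9 ≤ q := by omega
  have hQ9 : (9 : ℝ) ≤ q := by exact_mod_cast hq9
  have hQ1 : (1 : ℝ) ≤ q := by linarith
  have hQ0 : (0 : ℝ) < q := by linarith
  have hX11 : 11 ≤ X := by
    have : (11 : ℝ) ≤ q := by exact_mod_cast (by omega : 11 ≤ q)
    linarith
  have hX1 : 1 ≤ X := by linarith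
  have hlogX : 1 ≤ Real.log X := by
    rw [Real.le_log_iff_exp_le (by linarith)]
    have := Real.exp_one_lt_d9
    linarith
  have hk1 : 1 ≤ k := by
    have : (1 : ℝ) ≤ k := by linarith
    exact_mod_cast this
  have hSq1 : S + 2 ≤ (q : ℝ) ^ ν₁ := hSq.trans (Real.rpow_le_rpow_of_exponent_le hQ1
    (min_le_left _ _))
  have hSq2 : S + 2 ≤ (q : ℝ) ^ ν₂ := hSq.trans (Real.rpow_le_rpow_of_exponent_le hQ1
    (min_le_right _ _))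
  have hXY : X ≤ Y := (le_self_pow₀ hX1 (by omega)).trans hY
  have hY0 : 0 ≤ Y := by linarith
  have hU1 : 1 ≤ UU q ε₀ := Real.one_le_rpow hQ1 (by linarith)
  have hUN : 2 * UU q ε₀ ≤ (NN q ε₀ : ℝ) := Nat.le_ceil _
  have hZ1 : 1 ≤ ZW q θ ε₀ := by
    refine Real.one_le_rpow hQ1 ?_
    have h2 : 1 / 2 ≤ 1 / (2 - θ) := one_div_le_one_div_of_le (by linarith) (by linarith)
    linarith
  have hNN1 : 1 ≤ NN q ε₀ := by
    have : (1 : ℝ) ≤ (NN q ε₀ : ℝ) := by linarith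
    exact_mod_cast this
  have hM1 : 1 ≤ q * NN q ε₀ := Nat.one_le_iff_ne_zero.mpr (Nat.mul_ne_zero (by omega) (by omega))
  obtain ⟨h4B, hDzq, hRow, hCol, hWW⟩ := hqw q (by omega) B hBne hBc
  set I₀ : ℕ := ⌈40 * Real.log ((q * NN q ε₀ : ℕ) : ℝ)⌉₊ with hI₀
  set σ : ℝ := sB q θ B s I₀ k with hσ
  have hσ0 : 0 ≤ σ := U6_sB_nonneg q θ B s I₀ k
  set Tt : ℝ := ∑ i ∈ range (k + 1), ga I₀ i * uA q θ s (k - i) with hTt
  have hσT : σ ≤ Tt := U6_sB_le q θ B s I₀ k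
  have hTt0 : 0 ≤ Tt := hσ0.trans hσT
  have hρ0 : 0 < 2 - θ := by linarith
  have hρi : 0 < (2 - θ)⁻¹ := inv_pos.mpr hρ0
  have hLH0 : ∀ n : ℕ, 0 ≤ LH S Y k n := by
    intro n
    have hYn : 0 ≤ Y ^ (-(1 / 2) : ℝ) := Real.rpow_nonneg hY0 _
    have hS0 : 0 ≤ 1 + S := by linarith
    unfold LH
    positivity
  have hRb0 : ∀ n : ℕ, 0 ≤ Rw q θ B s S Y I₀ k n := by
    intro n
    have h2 := hLH0 n
    unfold Rw
    have h3 : 0 ≤ Real.sqrt (sB q θ B s I₀ k) := Real.sqrt_nonneg _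
    positivity
  have hsize := C3_size q X (ε₀ / 40) hQ9 hqX (by positivity) (by linarith)
  have hdec : ∀ n, 1 ≤ n → n ≤ q * NN q ε₀ → ∀ c ∉ B,
      ‖Dn q s k c n - Fn q B X Y s k c n - (∑ c' ∈ Bᶜ, Dn q s k c' n) / ((Bᶜ).card : ℂ)‖
        ≤ LH S Y k n := by
    intro n hn1 hn2 c hc
    have hnr : (1 : ℝ) ≤ n := by exact_mod_cast hn1
    have hkX : 12 * Real.log (n * X) ≤ k := by
      have h2 : (n : ℝ) * X ≤ (q : ℝ) * ((⌈2 * (q : ℝ) ^ (1 + ε₀ / 40)⌉₊ : ℕ) : ℝ) * X := by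
        refine mul_le_mul_of_nonneg_right ?_ (by linarith)
        have : (n : ℝ) ≤ ((q * NN q ε₀ : ℕ) : ℝ) := by exact_mod_cast hn2
        rw [Nat.cast_mul] at this
        exact this
      have h3 := Real.log_le_log (by positivity) h2
      linarith
    exact decomp q B X Y hX1 hXY s hs S (by linarith) hsS k n hk1 hn1 hkX c hc
  have hmean : ∀ n, 1 ≤ n → n ≤ q * NN q ε₀ →
      ‖(∑ c' ∈ Bᶜ, Dn q s k c' n) / ((Bᶜ).card : ℂ)‖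
      ≤ 2 * (B.card : ℝ) ^ (1 / 2 : ℝ) / q.totient * ((2 - θ)⁻¹) ^ k
        * (n : ℝ) ^ (-θ) * Real.sqrt σ := fun n hn1 hn2 =>
    mean_bound q s hs θ hθ hθ1 B h4B (q * NN q ε₀) k n hn1 hn2
  have hoff : ∀ n, 1 ≤ n → n ≤ q * NN q ε₀ → ∀ c ∉ B,
      ‖Dn q s k c n - Fn q B X Y s k c n‖ ≤ Rw q θ B s S Y I₀ k n := by
    intro n hn1 hn2 c hc
    calc ‖Dn q s k c n - Fn q B X Y s k c n‖
        = ‖(Dn q s k c n - Fn q B X Y s k c n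
            - (∑ c' ∈ Bᶜ, Dn q s k c' n) / ((Bᶜ).card : ℂ))
            + (∑ c' ∈ Bᶜ, Dn q s k c' n) / ((Bᶜ).card : ℂ)‖ := by rw [sub_add_cancel]
      _ ≤ _ := norm_add_le _ _
      _ ≤ _ := add_le_add (hdec n hn1 hn2 c hc) (hmean n hn1 hn2)
      _ = Rw q θ B s S Y I₀ k n := by unfold Rw; rfl
  -- rows
  set t : ℝ := (2 - θ) ^ k with ht
  have ht0 : 0 ≤ t := by positivity
  have hrows : ∀ a ∈ B, ‖Dk q s k a‖ ≤ ‖XW q θ ε₀ B X Y s k a‖ + QW q θ ε₀ B s k a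
      + (∑ n ∈ Icc 1 (q * NN q ε₀), |cw q θ ε₀ B a n| * Rw q θ B s S Y I₀ k n)
      + C₁ * (S + 2) ^ (κ + 1) * (Dz q B (ZW q θ ε₀) a).card * Ec q κ (UU q ε₀) s k := by
    intro a ha
    have hr := hrow S hS3 q s hs hsS (Dz q B (ZW q θ ε₀) a)
      (fun d hd => ⟨((Dz_mem q (by omega) B _ hZ1 a).2 d hd).1,
        ((Dz_mem q (by omega) B _ hZ1 a).2 d hd).2.1⟩) (UU q ε₀) hU1 (NN q ε₀) hUN a k
    have hp := pieces q (by omega) θ ε₀ hθ hθ1 h0 h1 B X Y s k a ha _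
      (fun n => Rw q θ B s S Y I₀ k n) hr (fun n _ => hRb0 n) hoff
    linarith
  have hQS : ∑ a ∈ B, (QW q θ ε₀ B s k a * t) ^ 2 ≤ (q : ℝ) ^ (-((1 - θ) * ε₀)) * σ := by
    have h2 := schur q s hs θ hθ hθ1 B (q * NN q ε₀) hM1 (fun a n => |cw q θ ε₀ B a n|)
      (fun a n => abs_nonneg _) ((q : ℝ) ^ (-((1 - θ) * ε₀ / 2))) ((q : ℝ) ^ (-((1 - θ) * ε₀ / 2)))
      (Real.rpow_nonneg hQ0.le _) (Real.rpow_nonneg hQ0.le _) k hRow hCol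
    have h3 : (q : ℝ) ^ (-((1 - θ) * ε₀ / 2)) * (q : ℝ) ^ (-((1 - θ) * ε₀ / 2))
        = (q : ℝ) ^ (-((1 - θ) * ε₀)) := by
      rw [← Real.rpow_add hQ0]
      congr 1
      ring
    rw [h3] at h2
    exact h2
  obtain ⟨hR1, hR2⟩ := hqd q (by omega) S hS3 hSq2 X hqX B hBne hBc Y hY s I₀ k hk60 hkK
  have hE := hqb q (by omega) S hS3 hSq1 X hqX B hBne hBc s k hk60
  have hE2 := U6_conv_le q θ s I₀ k
  have hin : uB q θ B s k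
      ≤ 4 * (P + (q : ℝ) ^ (-((1 - θ) * ε₀)) * σ
        + ((q : ℝ) ^ (-(ε₀ / 4)) * σ + X ^ (-6 : ℝ))
        + (X ^ (-6 : ℝ) + (q : ℝ) ^ (-1 : ℝ) *
          ∑ i ∈ range (k + 1), (6 / 7 : ℝ) ^ i * uA q θ s (k - i))) := by
    calc uB q θ B s k = ∑ a ∈ B, (‖Dk q s k a‖ * t) ^ 2 := rfl
      _ ≤ ∑ a ∈ B, 4 * ((‖XW q θ ε₀ B X Y s k a‖ * t) ^ 2 + (QW q θ ε₀ B s k a * t) ^ 2
          + ((∑ n ∈ Icc 1 (q * NN q ε₀), |cw q θ ε₀ B a n| * Rw q θ B s S Y I₀ k n) * t) ^ 2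
          + (C₁ * (S + 2) ^ (κ + 1) * (Dz q B (ZW q θ ε₀) a).card * Ec q κ (UU q ε₀) s k
            * t) ^ 2) :=
          Finset.sum_le_sum fun a ha => U6_sq4 _ _ _ _ _ t (norm_nonneg _) ht0 (hrows a ha)
      _ = 4 * (∑ a ∈ B, (‖XW q θ ε₀ B X Y s k a‖ * t) ^ 2 + ∑ a ∈ B, (QW q θ ε₀ B s k a * t) ^ 2
          + ∑ a ∈ B, ((∑ n ∈ Icc 1 (q * NN q ε₀), |cw q θ ε₀ B a n| * Rw q θ B s S Y I₀ k n)
            * t) ^ 2
          + ∑ a ∈ B, (C₁ * (S + 2) ^ (κ + 1) * (Dz q B (ZW q θ ε₀) a).card * Ec q κ (UU q ε₀) s k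
            * t) ^ 2) := by
          rw [← Finset.mul_sum, Finset.sum_add_distrib, Finset.sum_add_distrib,
            Finset.sum_add_distrib]
      _ ≤ _ := by
          refine mul_le_mul_of_nonneg_left ?_ (by norm_num)
          exact add_le_add (add_le_add (add_le_add hP hQS) hR1) hE
  -- outside `B`
  have hφ0 : (0 : ℝ) < q.totient := by exact_mod_cast Nat.totient_pos.mpr (by omega)
  have hout1 : ∀ c ∈ Bᶜ, (‖Dk q s k c‖ * t) ^ 2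
      ≤ 3 * ((‖Fj q B X Y s k c‖ * t) ^ 2 + (LH S Y k 1 * t) ^ 2
        + (2 * (B.card : ℝ) ^ (1 / 2 : ℝ) / q.totient * ((2 - θ)⁻¹) ^ k
        * Real.sqrt σ * t) ^ 2) := by
    intro c hc
    rw [Finset.mem_compl] at hc
    have h2 := hdec 1 le_rfl hM1 c hc
    have h3 := hmean 1 le_rfl hM1
    rw [Nat.cast_one, Real.one_rpow, mul_one] at h3
    rw [Dn_one, U6_Fn_one] at h2
    refine U6_sq3 _ _ _ _ t (norm_nonneg _) ht0 ?_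
    calc ‖Dk q s k c‖ = ‖Fj q B X Y s k c + (Dk q s k c - Fj q B X Y s k c
            - (∑ c' ∈ Bᶜ, Dn q s k c' 1) / ((Bᶜ).card : ℂ))
            + (∑ c' ∈ Bᶜ, Dn q s k c' 1) / ((Bᶜ).card : ℂ)‖ := by
          congr 1
          ring
      _ ≤ _ := norm_add₃_le
      _ ≤ _ := add_le_add (add_le_add le_rfl h2) h3
  have htt : ((2 - θ)⁻¹) ^ k * t = 1 := by
    rw [ht, ← mul_pow, inv_mul_cancel₀ hρ0.ne', one_pow]
  have hFj := Fj_norm q B θ hθ hθ1 X Y hX1 hXY s hs S hS3 hsS k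
  have hFj2 : ∑ c ∈ Bᶜ, (‖Fj q B X Y s k c‖ * t) ^ 2 ≤ 4 * S ^ 2 * w2 := by
    calc ∑ c ∈ Bᶜ, (‖Fj q B X Y s k c‖ * t) ^ 2 ≤ ∑ c, (‖Fj q B X Y s k c‖ * t) ^ 2 :=
          Finset.sum_le_sum_of_subset_of_nonneg (Finset.subset_univ _) fun c _ _ => sq_nonneg _
      _ = (∑ c, ‖Fj q B X Y s k c‖ ^ 2) * t ^ 2 := by
          rw [Finset.sum_mul]
          exact Finset.sum_congr rfl fun c _ => by rw [mul_pow]
      _ ≤ ((2 * S * ((2 - θ)⁻¹) ^ k) ^ 2 * w2) * t ^ 2 := by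
          refine mul_le_mul_of_nonneg_right (hFj.trans ?_) (sq_nonneg _)
          exact mul_le_mul_of_nonneg_left hint (sq_nonneg _)
      _ = (2 * S * (((2 - θ)⁻¹) ^ k * t)) ^ 2 * w2 := by ring
      _ = 4 * S ^ 2 * w2 := by rw [htt]; ring
  have hcardc : ((Bᶜ).card : ℝ) ≤ q.totient := by
    have h2 : (Bᶜ).card ≤ Fintype.card (ZMod q)ˣ := Finset.card_le_univ _
    rw [ZMod.card_units_eq_totient] at h2
    exact_mod_cast h2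
  have hb0 : (0 : ℝ) ≤ B.card := Nat.cast_nonneg _
  have hmean2 : (2 * (B.card : ℝ) ^ (1 / 2 : ℝ) / q.totient * ((2 - θ)⁻¹) ^ k
        * Real.sqrt σ * t) ^ 2 = 4 * B.card / (q.totient : ℝ) ^ 2 * σ := by
    have h2 : ((B.card : ℝ) ^ (1 / 2 : ℝ)) ^ 2 = B.card := by
      rw [← Real.rpow_natCast, ← Real.rpow_mul hb0]
      norm_num
    calc (2 * (B.card : ℝ) ^ (1 / 2 : ℝ) / q.totient * ((2 - θ)⁻¹) ^ k * Real.sqrt σ * t) ^ 2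
        = 4 * ((B.card : ℝ) ^ (1 / 2 : ℝ)) ^ 2 / (q.totient : ℝ) ^ 2 * (Real.sqrt σ) ^ 2
          * (((2 - θ)⁻¹) ^ k * t) ^ 2 := by ring
      _ = 4 * B.card / (q.totient : ℝ) ^ 2 * σ := by
          rw [h2, htt, Real.sq_sqrt hσ0]
          ring
  have hout : ∑ c ∈ Bᶜ, (‖Dk q s k c‖ * t) ^ 2
      ≤ 12 * S ^ 2 * w2 + 3 * X ^ (-6 : ℝ) + 12 * B.card / q.totient * σ := by
    calc ∑ c ∈ Bᶜ, (‖Dk q s k c‖ * t) ^ 2
        ≤ ∑ c ∈ Bᶜ, 3 * ((‖Fj q B X Y s k c‖ * t) ^ 2 + (LH S Y k 1 * t) ^ 2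
        + (2 * (B.card : ℝ) ^ (1 / 2 : ℝ) / q.totient * ((2 - θ)⁻¹) ^ k
        * Real.sqrt σ * t) ^ 2) := Finset.sum_le_sum hout1
      _ = 3 * (∑ c ∈ Bᶜ, (‖Fj q B X Y s k c‖ * t) ^ 2
          + ((Bᶜ).card : ℝ) * (LH S Y k 1 * t) ^ 2
          + ((Bᶜ).card : ℝ) * (4 * B.card / (q.totient : ℝ) ^ 2 * σ)) := by
          rw [hmean2, ← Finset.mul_sum, Finset.sum_add_distrib, Finset.sum_add_distrib,
            Finset.sum_const, Finset.sum_const, nsmul_eq_mul, nsmul_eq_mul]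
      _ ≤ 3 * (4 * S ^ 2 * w2 + q.totient * (LH S Y k 1 * t) ^ 2
          + q.totient * (4 * B.card / (q.totient : ℝ) ^ 2 * σ)) := by
          refine mul_le_mul_of_nonneg_left (add_le_add (add_le_add hFj2 ?_) ?_) (by norm_num)
          · exact mul_le_mul_of_nonneg_right hcardc (sq_nonneg _)
          · exact mul_le_mul_of_nonneg_right hcardc (by positivity)
      _ ≤ 3 * (4 * S ^ 2 * w2 + X ^ (-6 : ℝ) + 4 * B.card / q.totient * σ) := by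
          refine mul_le_mul_of_nonneg_left (add_le_add (add_le_add le_rfl hR2) ?_) (by norm_num)
          apply le_of_eq
          field_simp
      _ = _ := by ring
  have hf4 := hqh q (by omega)
  have hf5 := hqi q (by omega)
  have hf6 := hqj q (by omega) B.card hb0 hBc
  have hf7 := hql q (by omega)
  set R : ℝ := (q : ℝ) ^ (-((1 - θ) * ε₀ / 8)) with hR
  have hX5 : 11 * X ^ (-6 : ℝ) ≤ X ^ (-5 : ℝ) := by
    have hX0 : 0 < X := by linarith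
    have e1 : X ^ (-5 : ℝ) = X * X ^ (-6 : ℝ) := by
      nth_rewrite 2 [← Real.rpow_one X]
      rw [← Real.rpow_add hX0]
      norm_num
    rw [e1]
    exact mul_le_mul_of_nonneg_right hX11 (Real.rpow_nonneg hX0.le _)
  have hq1' : 0 ≤ (q : ℝ) ^ (-1 : ℝ) := Real.rpow_nonneg hQ0.le _
  have e3 := mul_le_mul_of_nonneg_left hE2 hq1'
  have e4 := mul_le_mul hf4 hσT hσ0 (Real.rpow_nonneg hQ0.le _)
  have e5 := mul_le_mul hf5 hσT hσ0 (Real.rpow_nonneg hQ0.le _)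
  have e6 := mul_le_mul hf6 hσT hσ0 (Real.rpow_nonneg hQ0.le _)
  have e7 := mul_le_mul_of_nonneg_right hf7 hTt0
  have e8 : 48 * (B.card : ℝ) / q.totient * σ = 4 * (12 * B.card / q.totient * σ) := by ring
  have hfin : uA q θ s k = uB q θ B s k + ∑ c ∈ Bᶜ, (‖Dk q s k c‖ * t) ^ 2 :=
    (Finset.sum_add_sum_compl B _).symm
  rw [hfin]
  linarith

end Pool.Agent.MU
end

section

set_option autoImplicit false

namespace Pool.Agent.MU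

open Complex Finset MY MZ MW

lemma U8_big (c M : ℝ) (hc : 0 < c) : ∃ q₀ : ℕ, ∀ q : ℕ, q₀ ≤ q → M ≤ (q : ℝ) ^ c := by
  have h := ((tendsto_rpow_atTop hc).comp
    (tendsto_natCast_atTop_atTop (R := ℝ))).eventually_ge_atTop M
  obtain ⟨q₀, hq₀⟩ := Filter.eventually_atTop.1 h
  exact ⟨q₀, fun q hq => hq₀ q hq⟩

/-- the size of `I₀` -/
lemma U8_I0 (q : ℕ) (ε₀ : ℝ) (h0 : 0 < ε₀) (h1 : ε₀ ≤ 1 / 10) (hq : 4 ≤ Real.log q) (hq1 : 1 ≤ q) :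
    ((⌈40 * Real.log ((q * NN q ε₀ : ℕ) : ℝ)⌉₊ : ℕ) : ℝ) ≤ 101 * Real.log q ∧
    40 * Real.log q ≤ ((⌈40 * Real.log ((q * NN q ε₀ : ℕ) : ℝ)⌉₊ : ℕ) : ℝ) := by
  have hQ1 : (1 : ℝ) ≤ q := by exact_mod_cast hq1
  have hQ0 : (0 : ℝ) < q := by linarith
  have hp1 : (1 : ℝ) ≤ (q : ℝ) ^ (1 + ε₀ / 40) := Real.one_le_rpow hQ1 (by linarith)
  have hN1 : (NN q ε₀ : ℝ) ≤ 2 * (q : ℝ) ^ (1 + ε₀ / 40) + 1 := by
    unfold NN
    exact (Nat.ceil_lt_add_one (by positivity)).le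
  have hN0 : (1 : ℝ) ≤ (NN q ε₀ : ℝ) := by
    have : 2 * (q : ℝ) ^ (1 + ε₀ / 40) ≤ (NN q ε₀ : ℝ) := Nat.le_ceil _
    linarith
  have hcast : ((q * NN q ε₀ : ℕ) : ℝ) = q * (NN q ε₀ : ℝ) := by push_cast; ring
  have hl : Real.log ((q * NN q ε₀ : ℕ) : ℝ) = Real.log q + Real.log (NN q ε₀ : ℝ) := by
    rw [hcast, Real.log_mul hQ0.ne' (by linarith)]
  have hl2 : Real.log (NN q ε₀ : ℝ) ≤ Real.log 3 + (1 + ε₀ / 40) * Real.log q := by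
    have h2 : (NN q ε₀ : ℝ) ≤ 3 * (q : ℝ) ^ (1 + ε₀ / 40) := by linarith
    have h3 := Real.log_le_log (by linarith) h2
    rwa [Real.log_mul (by norm_num) (by positivity), Real.log_rpow hQ0] at h3
  have hl3 : Real.log 3 ≤ 2 := by
    have h2 : (3 : ℝ) ≤ Real.exp 2 := by
      have := Real.add_one_le_exp (2 : ℝ)
      linarith
    have h3 := Real.log_le_log (by norm_num) h2
    rwa [Real.log_exp] at h3
  have hlN : 0 ≤ Real.log (NN q ε₀ : ℝ) := Real.log_nonneg hN0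
  have hl0 : 0 ≤ Real.log ((q * NN q ε₀ : ℕ) : ℝ) := by
    rw [hl]
    linarith
  constructor
  · have h4 := (Nat.ceil_lt_add_one (show 0 ≤ 40 * Real.log ((q * NN q ε₀ : ℕ) : ℝ) by
      positivity)).le
    rw [hl] at h4
    rw [hl]
    have h5 : ε₀ / 40 * Real.log q ≤ 1 / 400 * Real.log q :=
      mul_le_mul_of_nonneg_right (by linarith) (by linarith)
    have h6 : (1 + ε₀ / 40) * Real.log q = Real.log q + ε₀ / 40 * Real.log q := by ring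
    rw [h6] at hl2
    linarith
  · refine le_trans ?_ (Nat.le_ceil _)
    rw [hl]
    linarith

/-- The trivial bound for the energy below `60 log X`. -/
lemma U8_triv (θ : ℝ) (hθ : 1 / 2 ≤ θ) (hθ1 : θ < 1) (CD : ℝ) (hCD0 : 0 ≤ CD)
    (hCD : ∀ (q : ℕ) [NeZero q] (s : ℂ), s.re = 2 → ∀ (k : ℕ) (a : (ZMod q)ˣ),
      ‖Dk q s k a‖ ≤ CD * (4 / 3 : ℝ) ^ k)
    (q : ℕ) [NeZero q] (hCq : CD ^ 2 ≤ q) (X : ℝ) (hX1 : 1 ≤ X) (hqX : (q : ℝ) ≤ X) (s : ℂ)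
    (hs : s.re = 2) (j : ℕ) (hj : (j : ℝ) ≤ 60 * Real.log X) :
    uA q θ s j ≤ X ^ (90 : ℝ) := by
  have hX0 : 0 < X := by linarith
  have hQ0 : (0 : ℝ) ≤ q := Nat.cast_nonneg q
  have h1 : ∀ a : (ZMod q)ˣ, (‖Dk q s j a‖ * (2 - θ) ^ j) ^ 2 ≤ CD ^ 2 * 4 ^ j := by
    intro a
    have h2 : ‖Dk q s j a‖ * (2 - θ) ^ j ≤ CD * 2 ^ j := by
      calc ‖Dk q s j a‖ * (2 - θ) ^ j ≤ CD * (4 / 3 : ℝ) ^ j * (3 / 2 : ℝ) ^ j := by
            refine mul_le_mul (hCD q s hs j a) (pow_le_pow_left₀ (by linarith) (by linarith) j)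
              (pow_nonneg (by linarith) j) (by positivity)
        _ = CD * ((4 / 3 : ℝ) * (3 / 2)) ^ j := by rw [mul_pow, mul_assoc]
        _ = CD * 2 ^ j := by norm_num
    have h3 : 0 ≤ ‖Dk q s j a‖ * (2 - θ) ^ j :=
      mul_nonneg (norm_nonneg _) (pow_nonneg (by linarith) j)
    calc (‖Dk q s j a‖ * (2 - θ) ^ j) ^ 2 ≤ (CD * 2 ^ j) ^ 2 := pow_le_pow_left₀ h3 h2 2
      _ = CD ^ 2 * 4 ^ j := by
          rw [mul_pow, ← pow_mul, mul_comm j 2, pow_mul]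
          norm_num
  have h4 : uA q θ s j ≤ q * (CD ^ 2 * 4 ^ j) := by
    unfold uA
    refine (Finset.sum_le_sum fun a _ => h1 a).trans ?_
    rw [Finset.sum_const, Finset.card_univ, ZMod.card_units_eq_totient, nsmul_eq_mul]
    refine mul_le_mul_of_nonneg_right ?_ (by positivity)
    exact_mod_cast Nat.totient_le q
  have h5 : (4 : ℝ) ^ j ≤ X ^ (84 : ℝ) := by
    have h6 : Real.log 4 ≤ 7 / 5 := by
      have h7 : Real.log 4 = 2 * Real.log 2 := by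
        rw [show (4 : ℝ) = 2 ^ 2 by norm_num, Real.log_pow]
        norm_num
      have h8 := Real.log_two_lt_d9
      rw [h7]
      linarith
    have h9 : (4 : ℝ) ^ j = Real.exp (j * Real.log 4) := by
      rw [Real.exp_nat_mul, Real.exp_log (by norm_num)]
    have hj0 : (0 : ℝ) ≤ j := Nat.cast_nonneg j
    rw [h9, Real.rpow_def_of_pos hX0]
    refine Real.exp_le_exp.2 ?_
    calc (j : ℝ) * Real.log 4 ≤ j * (7 / 5) := mul_le_mul_of_nonneg_left h6 hj0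
      _ ≤ (60 * Real.log X) * (7 / 5) := mul_le_mul_of_nonneg_right hj (by norm_num)
      _ = Real.log X * 84 := by ring
  calc uA q θ s j ≤ q * (CD ^ 2 * 4 ^ j) := h4
    _ ≤ X * (X * X ^ (84 : ℝ)) := by
        refine mul_le_mul hqX ?_ (by positivity) hX0.le
        exact mul_le_mul (hCq.trans hqX) h5 (by positivity) hX0.le
    _ = X ^ (86 : ℝ) := by
        rw [show (86 : ℝ) = 1 + (1 + 84) by norm_num, Real.rpow_add hX0, Real.rpow_add hX0,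
          Real.rpow_one]
    _ ≤ X ^ (90 : ℝ) := Real.rpow_le_rpow_of_exponent_le hX1 (by norm_num)

/-- U8. The energy, given the bound `P` for the main sums. `C₂` depends only on `θ` and `ε₀`. -/
theorem energyU (θ ε₀ : ℝ) (hθ : 1 / 2 ≤ θ) (hθ1 : θ < 1) (h0 : 0 < ε₀) (h1 : ε₀ ≤ 1 / 10) :
    ∃ C₂ : ℝ, 61 ≤ C₂ ∧ ∀ K₃ : ℝ, C₂ ≤ K₃ → ∃ (ν : ℝ) (K q₀ : ℕ), 0 < ν ∧ ν ≤ 1 / 4 ∧ 1 ≤ K ∧
    ∀ (q : ℕ) [NeZero q], q₀ ≤ q → ∀ S : ℝ, 3 ≤ S → S + 2 ≤ (q : ℝ) ^ ν →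
    ∀ X : ℝ, (q : ℝ) ≤ X → ∀ B : Finset (ZMod q)ˣ, B.Nonempty →
    (B.card : ℝ) ≤ (q : ℝ) ^ (θ / (2 - θ) - ε₀) → ∀ Y : ℝ, X ^ K ≤ Y → ∀ w2 : ℝ, 0 ≤ w2 →
    ∫ x in Set.Ioc X Y, VB q B x / x ^ (1 + 2 * θ) ≤ w2 → ∀ s : ℂ, s.re = 2 → ‖s‖ ≤ S →
    ∀ P : ℝ, 0 ≤ P →
    (∀ k : ℕ, 60 * Real.log X ≤ k → (k : ℝ) ≤ K₃ * Real.log X →
      ∑ a ∈ B, (‖XW q θ ε₀ B X Y s k a‖ * (2 - θ) ^ k) ^ 2 ≤ P) →
    ∀ k : ℕ, C₂ * Real.log X ≤ k → (k : ℝ) ≤ K₃ * Real.log X →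
    uA q θ s k ≤ 8 * P + 24 * S ^ 2 * w2 + X ^ (-4 : ℝ) := by
  obtain ⟨c, hc⟩ : ∃ c : ℝ, c = (1 - θ) * ε₀ / 8 := ⟨_, rfl⟩
  have h1θ : 0 < 1 - θ := by linarith
  have hc0 : 0 < c := by
    rw [hc]
    positivity
  have hc1 : c ≤ 1 / 160 := by
    rw [hc]
    have h2 : (1 - θ) * ε₀ ≤ 1 / 2 * (1 / 10) :=
      mul_le_mul (by linarith) h1 h0.le (by norm_num)
    linarith
  have hcc : 0 < 20200 / c := by positivity
  refine ⟨61 + 20200 / c, by linarith, fun K₃ hCK => ?_⟩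
  have hK60 : 60 ≤ K₃ := by linarith
  obtain ⟨CD, hCD0, hCD⟩ := Dk_bound
  obtain ⟨ν, K, qr, hν, hν1, hK, hrec⟩ := recU θ ε₀ K₃ hθ hθ1 h0 h1 hK60
  obtain ⟨qa, hqa⟩ := U8_big 1 (CD ^ 2) one_pos
  obtain ⟨qb, hqb⟩ := U8_big (c / 4) (1680 / c) (by positivity)
  refine ⟨ν, K, 90 + (qr + (qa + qb)), hν, hν1, hK, ?_⟩
  intro q _ hq S hS hSq X hqX B hBne hBc Y hY w2 hw2 hint s hs hsS P hP hPk k hk1 hk2
  have hQ90 : (90 : ℝ) ≤ q := by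
    have : 90 ≤ q := by omega
    exact_mod_cast this
  have hQ0 : (0 : ℝ) < q := by linarith
  have hQ1 : (1 : ℝ) ≤ q := by linarith
  have hX0 : 0 < X := by linarith
  have hX1 : 1 ≤ X := by linarith
  have hlogq : 4 ≤ Real.log q := by
    rw [Real.le_log_iff_exp_le hQ0]
    have h2 := Real.exp_one_lt_d9
    have h3 : Real.exp 4 = Real.exp 1 ^ 4 := by
      rw [← Real.exp_nat_mul]
      norm_num
    rw [h3]
    have h4 : Real.exp 1 ^ 4 ≤ 3 ^ 4 := pow_le_pow_left₀ (Real.exp_pos 1).le (by linarith) 4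
    linarith
  have hlogX : Real.log q ≤ Real.log X := Real.log_le_log hQ0 hqX
  have hlX4 : 4 ≤ Real.log X := hlogq.trans hlogX
  -- `I₀`
  obtain ⟨I₀, hI₀⟩ : ∃ I₀ : ℕ, I₀ = ⌈40 * Real.log ((q * NN q ε₀ : ℕ) : ℝ)⌉₊ := ⟨_, rfl⟩
  obtain ⟨hI1, hI2⟩ := U8_I0 q ε₀ h0 h1 hlogq (by omega)
  have hrec' := hrec q (by omega) S hS hSq X hqX B hBne hBc Y hY w2 hw2 hint s hs hsS
  rw [← hI₀] at hI1 hI2 hrec'
  rw [← hc] at hrec'
  have hI0 : (0 : ℝ) < I₀ := by linarith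
  obtain ⟨κ, hκ⟩ : ∃ κ : ℝ, κ = (q : ℝ) ^ (-c) := ⟨_, rfl⟩
  have hκ0 : 0 < κ := by
    rw [hκ]
    exact Real.rpow_pos_of_pos hQ0 _
  obtain ⟨T, hT⟩ : ∃ T : ℝ, T = 4 * P + 12 * S ^ 2 * w2 + X ^ (-5 : ℝ) := ⟨_, rfl⟩
  have hX5 : 0 < X ^ (-5 : ℝ) := Real.rpow_pos_of_pos hX0 _
  have hT0 : 0 ≤ T := by
    rw [hT]
    positivity
  -- `lam = exp (-t)`
  obtain ⟨t, ht⟩ : ∃ t : ℝ, t = c * Real.log q / (2 * I₀) := ⟨_, rfl⟩
  have ht1 : t ≤ c / 80 := by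
    rw [ht, div_le_div_iff₀ (by positivity) (by norm_num)]
    have h2 : c * (40 * Real.log q) ≤ c * I₀ := mul_le_mul_of_nonneg_left hI2 hc0.le
    linarith
  have ht2 : c / 202 ≤ t := by
    rw [ht, div_le_div_iff₀ (by norm_num) (by positivity)]
    have h2 : c * I₀ ≤ c * (101 * Real.log q) := mul_le_mul_of_nonneg_left hI1 hc0.le
    linarith
  have ht0 : 0 ≤ t := le_trans (by positivity) ht2
  have htI : (I₀ : ℝ) * t = c / 2 * Real.log q := by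
    rw [ht]
    field_simp
  have hinv : (Real.exp (-t))⁻¹ = Real.exp t := by
    rw [Real.exp_neg, inv_inv]
  have hl : 12 / 13 ≤ Real.exp (-t) := by
    have h2 := Real.add_one_le_exp (-t)
    linarith
  have hl1 : Real.exp (-t) ≤ 1 := Real.exp_le_one_iff.2 (by linarith)
  have hlI : (Real.exp (-t))⁻¹ ^ I₀ = (q : ℝ) ^ (c / 2) := by
    rw [hinv, ← Real.exp_nat_mul, htI, Real.rpow_def_of_pos hQ0, mul_comm]
  have hκ1 : κ * (I₀ * (Real.exp (-t))⁻¹ ^ I₀ + 14) ≤ 1 / 4 := by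
    rw [hlI, hκ]
    have h2 : (1 : ℝ) ≤ (q : ℝ) ^ (c / 2) := Real.one_le_rpow hQ1 (by positivity)
    have h3 : Real.log q ≤ (q : ℝ) ^ (c / 4) / (c / 4) :=
      Real.log_le_rpow_div hQ0.le (by positivity)
    have h4 := hqb q (by omega)
    have hp4 : 0 < (q : ℝ) ^ (c / 4) := Real.rpow_pos_of_pos hQ0 _
    have h5 : (I₀ : ℝ) * (q : ℝ) ^ (c / 2) + 14 ≤ (q : ℝ) ^ (c / 2) * (420 / c * (q : ℝ) ^ (c / 4)) := by
      have h6 : (I₀ : ℝ) + 14 ≤ 420 / c * (q : ℝ) ^ (c / 4) := by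
        calc (I₀ : ℝ) + 14 ≤ 105 * Real.log q := by linarith
          _ ≤ 105 * ((q : ℝ) ^ (c / 4) / (c / 4)) := by linarith
          _ = 420 / c * (q : ℝ) ^ (c / 4) := by
              field_simp
              ring
      calc (I₀ : ℝ) * (q : ℝ) ^ (c / 2) + 14 ≤ I₀ * (q : ℝ) ^ (c / 2) + 14 * (q : ℝ) ^ (c / 2) := by
            linarith
        _ = (q : ℝ) ^ (c / 2) * (I₀ + 14) := by ring
        _ ≤ _ := mul_le_mul_of_nonneg_left h6 (by positivity)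
    calc (q : ℝ) ^ (-c) * (I₀ * (q : ℝ) ^ (c / 2) + 14)
        ≤ (q : ℝ) ^ (-c) * ((q : ℝ) ^ (c / 2) * (420 / c * (q : ℝ) ^ (c / 4))) :=
          mul_le_mul_of_nonneg_left h5 (Real.rpow_nonneg hQ0.le _)
      _ = 420 / c * ((q : ℝ) ^ (-c) * (q : ℝ) ^ (c / 2) * (q : ℝ) ^ (c / 4)) := by ring
      _ = 420 / c * ((q : ℝ) ^ (c / 4))⁻¹ := by
          rw [← Real.rpow_add hQ0, ← Real.rpow_add hQ0, ← Real.rpow_neg hQ0.le]
          congr 2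
          ring
      _ ≤ 420 / c * (1680 / c)⁻¹ :=
          mul_le_mul_of_nonneg_left (inv_anti₀ (by positivity) h4) (by positivity)
      _ = 1 / 4 := by
          field_simp
          norm_num
  -- the iteration
  have hu0 : ∀ j, 0 ≤ uA q θ s j := fun j => Finset.sum_nonneg fun a _ => sq_nonneg _
  have hit := iterU (fun j => uA q θ s j) hu0 (X ^ (90 : ℝ)) T κ (Real.exp (-t))
    ⌈60 * Real.log X⌉₊ ⌊K₃ * Real.log X⌋₊ I₀ (Real.rpow_nonneg hX0.le _) hT0 hκ0.le hl hl1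
    (fun j hj => by
      have hj' : (j : ℝ) < 60 * Real.log X := Nat.lt_ceil.1 hj
      have hCq : CD ^ 2 ≤ (q : ℝ) := by
        have := hqa q (by omega)
        rwa [Real.rpow_one] at this
      exact U8_triv θ hθ hθ1 CD hCD0 hCD q hCq X hX1 hqX s hs j hj'.le)
    (fun j hj1 hj3 => by
      have hj1' : 60 * Real.log X ≤ (j : ℝ) := Nat.ceil_le.1 hj1
      have hj3' : (j : ℝ) ≤ K₃ * Real.log X :=
        (Nat.le_floor_iff (by positivity)).1 hj3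
      have h2 := hrec' j hj1' hj3' P (hPk j hj1' hj3')
      rw [← hκ, ← hT] at h2
      exact h2)
    hκ1 k (Nat.le_floor hk2)
  have hit' : uA q θ s k ≤ 2 * T + X ^ (90 : ℝ) * Real.exp (-t) ^ k *
      (Real.exp (-t))⁻¹ ^ ⌈60 * Real.log X⌉₊ := hit
  -- the decay
  have hk1c : ((⌈60 * Real.log X⌉₊ : ℕ) : ℝ) ≤ 61 * Real.log X := by
    have h2 := (Nat.ceil_lt_add_one (show 0 ≤ 60 * Real.log X by positivity)).le
    linarith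
  have hdec : Real.exp (-t) ^ k * (Real.exp (-t))⁻¹ ^ ⌈60 * Real.log X⌉₊ ≤ X ^ (-100 : ℝ) := by
    rw [hinv, ← Real.exp_nat_mul, ← Real.exp_nat_mul, ← Real.exp_add, Real.rpow_def_of_pos hX0]
    refine Real.exp_le_exp.2 ?_
    have h2 : 20200 / c * Real.log X ≤ (k : ℝ) - ((⌈60 * Real.log X⌉₊ : ℕ) : ℝ) := by linarith
    have h3 : (0 : ℝ) ≤ (k : ℝ) - ((⌈60 * Real.log X⌉₊ : ℕ) : ℝ) := le_trans (by positivity) h2
    have h4 : c / 202 * (20200 / c * Real.log X) ≤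
        t * ((k : ℝ) - ((⌈60 * Real.log X⌉₊ : ℕ) : ℝ)) :=
      mul_le_mul ht2 h2 (by positivity) ht0
    have h5 : c / 202 * (20200 / c * Real.log X) = 100 * Real.log X := by
      field_simp
      ring
    rw [h5] at h4
    linarith
  have hX90 : 0 ≤ X ^ (90 : ℝ) := Real.rpow_nonneg hX0.le _
  have h10 : X ^ (90 : ℝ) * X ^ (-100 : ℝ) = X ^ (-10 : ℝ) := by
    rw [← Real.rpow_add hX0]
    norm_num
  have h11 : X ^ (-10 : ℝ) ≤ X ^ (-5 : ℝ) :=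
    Real.rpow_le_rpow_of_exponent_le hX1 (by norm_num)
  have h12 : X ^ (-4 : ℝ) = X * X ^ (-5 : ℝ) := by
    rw [show (-4 : ℝ) = 1 + (-5) by norm_num, Real.rpow_add hX0, Real.rpow_one]
  have h13 : 90 * X ^ (-5 : ℝ) ≤ X * X ^ (-5 : ℝ) :=
    mul_le_mul_of_nonneg_right (by linarith) hX5.le
  have h14 : X ^ (90 : ℝ) * (Real.exp (-t) ^ k * (Real.exp (-t))⁻¹ ^ ⌈60 * Real.log X⌉₊)
      ≤ X ^ (90 : ℝ) * X ^ (-100 : ℝ) := mul_le_mul_of_nonneg_left hdec hX90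
  rw [h10] at h14
  rw [mul_assoc] at hit'
  rw [h12]
  rw [hT] at hit'
  linarith

end Pool.Agent.MU
end
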