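import Mathlib
import Pool.Agent.Lib.MP_9cfc0a_nt.Mg.G023
import Pool.Agent.Lib.MP_9cfc0a_nt.Mg.G033
import Pool.Agent.Lib.MP_9cfc0a_nt.MY.A2
import Pool.Agent.Lib.MP_9cfc0a_nt.MY.C3
import Pool.Agent.Lib.MP_9cfc0a_nt.Mg.G034
import Pool.Agent.Lib.MP_9cfc0a_nt.MZ.Q3
import Pool.Agent.Lib.MP_9cfc0a_nt.Mg.G024

section

set_option autoImplicit false

namespace Pool.Agent.MZ

open Complex Finset MY

/-- The logarithm against a power. -/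
lemma E0_log (C a : ℝ) (hC : 0 ≤ C) (ha : 0 < a) : ∃ q₀ : ℕ, ∀ q : ℕ, q₀ ≤ q →
    C * Real.log q ≤ (q : ℝ) ^ a := by
  have h1 := (isLittleO_log_rpow_atTop ha).bound (show 0 < 1 / (C + 1) by positivity)
  have h2 := (tendsto_natCast_atTop_atTop (R := ℝ)).eventually h1
  obtain ⟨q₀, hq₀⟩ := Filter.eventually_atTop.mp h2
  refine ⟨q₀ + 1, fun q hq => ?_⟩
  have h3 := hq₀ q (by omega)
  have hq1 : (1 : ℝ) ≤ q := by exact_mod_cast (by omega : 1 ≤ q)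
  have h4 : 0 ≤ Real.log q := Real.log_nonneg hq1
  have h5 : 0 ≤ (q : ℝ) ^ a := Real.rpow_nonneg (by linarith) _
  rw [Real.norm_of_nonneg h4, Real.norm_of_nonneg h5] at h3
  have h6 : (C + 1) * Real.log q ≤ (q : ℝ) ^ a := by
    calc (C + 1) * Real.log q ≤ (C + 1) * (1 / (C + 1) * (q : ℝ) ^ a) :=
          mul_le_mul_of_nonneg_left h3 (by linarith)
      _ = (q : ℝ) ^ a := by field_simp
  nlinarith

/-- E0. The mean square of the coefficients in a zero free region. -/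
lemma MDb (A K₃ ν : ℝ) (hA : 1 ≤ A) (hK : 1 ≤ K₃) (hν : 0 < ν) : ∃ δ₀ : ℝ, 0 < δ₀ ∧ δ₀ ≤ 1 / 10 ∧
    ∀ δ : ℝ, 0 < δ → δ ≤ δ₀ → ∃ q₀ : ℕ, ∀ (q : ℕ) [NeZero q], q₀ ≤ q → ZFB q δ 6 →
    ∀ X : ℝ, (q : ℝ) ≤ X → X ≤ (q : ℝ) ^ A → ∀ s : ℂ, s.re = 2 → ‖s‖ ≤ 3 →
    ∀ j : ℕ, (j : ℝ) ≤ K₃ * Real.log X →
    ∑ a : (ZMod q)ˣ, ‖Dk q s j a‖ ^ 2 ≤ ((q : ℝ) ^ ν * (2 / 3 : ℝ) ^ j) ^ 2 := by
  have hA0 : 0 < A := by linarith
  have hK0 : 0 < K₃ := by linarith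
  refine ⟨min (1 / 10) (ν / (2 * K₃ * A)), lt_min (by norm_num) (by positivity), min_le_left _ _,
    fun δ hδ hδ0 => ?_⟩
  have hδ1 : δ ≤ 1 / 10 := hδ0.trans (min_le_left _ _)
  have hδ2 : δ * (K₃ * A) ≤ ν / 2 := by
    have h := hδ0.trans (min_le_right _ _)
    calc δ * (K₃ * A) ≤ ν / (2 * K₃ * A) * (K₃ * A) :=
          mul_le_mul_of_nonneg_right h (by positivity)
      _ = ν / 2 := by field_simp
  obtain ⟨C, hC, hTC⟩ := tk_small δ hδ hδ1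
  obtain ⟨q₁, hq₁⟩ := E0_log C (ν / 2) hC (by linarith)
  refine ⟨max 41 q₁, fun q _ hq hZ X hX hXA s hs hs3 j hj => ?_⟩
  have hq41 : 41 ≤ q := (le_max_left _ _).trans hq
  have hqq : (41 : ℝ) ≤ q := by exact_mod_cast hq41
  have hq0 : (0 : ℝ) < q := by linarith
  have hq1 : (1 : ℝ) ≤ q := by linarith
  have hX1 : 1 ≤ X := hq1.trans hX
  have hlog := hq₁ q ((le_max_right _ _).trans hq)
  have him : |s.im| ≤ (6 : ℝ) - 2 := by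
    have := Complex.abs_im_le_norm s
    linarith
  -- the geometric factor
  have hr0 : 0 < 3 / 2 - δ := by linarith
  have hexp : 3 / 2 * (3 / 2 - δ)⁻¹ ≤ Real.exp δ := by
    rw [← div_eq_mul_inv, div_le_iff₀ hr0]
    have h1 := Real.add_one_le_exp δ
    have h2 : (δ + 1) * (3 / 2 - δ) ≤ Real.exp δ * (3 / 2 - δ) :=
      mul_le_mul_of_nonneg_right h1 hr0.le
    nlinarith
  have hgeo : (3 / 2 * (3 / 2 - δ)⁻¹) ^ j ≤ (q : ℝ) ^ (ν / 2) := by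
    calc (3 / 2 * (3 / 2 - δ)⁻¹) ^ j ≤ X ^ (δ * K₃) :=
          C3_up _ δ K₃ X (by positivity) hexp hδ.le hX1 j hj
      _ ≤ ((q : ℝ) ^ A) ^ (δ * K₃) :=
          Real.rpow_le_rpow (by linarith) hXA (by positivity)
      _ = (q : ℝ) ^ (δ * (K₃ * A)) := by
          rw [← Real.rpow_mul hq0.le]
          congr 1
          ring
      _ ≤ (q : ℝ) ^ (ν / 2) := Real.rpow_le_rpow_of_exponent_le hq1 hδ2
  have hM : ∀ χ ∈ nt q, ‖TC (fun z => -logDeriv χ.LFunction z) s j‖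
      ≤ (q : ℝ) ^ ν * (2 / 3 : ℝ) ^ j := by
    intro χ hχ
    have h1 := hTC q hq41 6 (by norm_num) (by norm_num; linarith) hZ χ ((mem_nt q χ).mp hχ) s hs
      him j
    have h2 : ((3 / 2 - δ)⁻¹ : ℝ) ^ j = (3 / 2 * (3 / 2 - δ)⁻¹) ^ j * (2 / 3 : ℝ) ^ j := by
      rw [← mul_pow]
      congr 1
      ring
    calc ‖TC (fun z => -logDeriv χ.LFunction z) s j‖
        ≤ C * Real.log q * ((3 / 2 - δ)⁻¹) ^ j := h1
      _ = (C * Real.log q) * ((3 / 2 * (3 / 2 - δ)⁻¹) ^ j * (2 / 3 : ℝ) ^ j) := by rw [h2]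
      _ ≤ (q : ℝ) ^ (ν / 2) * ((q : ℝ) ^ (ν / 2) * (2 / 3 : ℝ) ^ j) := by
          refine mul_le_mul hlog (mul_le_mul_of_nonneg_right hgeo (by positivity)) (by positivity)
            (by positivity)
      _ = (q : ℝ) ^ ν * (2 / 3 : ℝ) ^ j := by
          rw [← mul_assoc, ← Real.rpow_add hq0]
          congr 2
          ring
  have hcard : ((nt q).card : ℝ) ≤ q.totient := by
    have h1 : (nt q).card ≤ Fintype.card (DirichletCharacter ℂ q) := Finset.card_le_univ _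
    rw [← Nat.card_eq_fintype_card, DirichletCharacter.card_eq_totient_of_hasEnoughRootsOfUnity] at h1
    exact_mod_cast h1
  have hφ : (0 : ℝ) < q.totient := by
    exact_mod_cast Nat.totient_pos.mpr (NeZero.pos q)
  rw [parseval]
  calc (1 / (q.totient : ℝ)) * ∑ χ ∈ nt q, ‖TC (fun z => -logDeriv χ.LFunction z) s j‖ ^ 2
      ≤ (1 / (q.totient : ℝ)) * ∑ χ ∈ nt q, ((q : ℝ) ^ ν * (2 / 3 : ℝ) ^ j) ^ 2 := by
        refine mul_le_mul_of_nonneg_left (sum_le_sum fun χ hχ => ?_) (by positivity)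
        exact pow_le_pow_left₀ (norm_nonneg _) (hM χ hχ) 2
    _ = (1 / (q.totient : ℝ)) * ((nt q).card * ((q : ℝ) ^ ν * (2 / 3 : ℝ) ^ j) ^ 2) := by
        rw [sum_const, nsmul_eq_mul]
    _ ≤ (1 / (q.totient : ℝ)) * (q.totient * ((q : ℝ) ^ ν * (2 / 3 : ℝ) ^ j) ^ 2) := by
        refine mul_le_mul_of_nonneg_left (mul_le_mul_of_nonneg_right hcard (by positivity))
          (by positivity)
    _ = ((q : ℝ) ^ ν * (2 / 3 : ℝ) ^ j) ^ 2 := by field_simp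

end Pool.Agent.MZ
end

section

set_option autoImplicit false

namespace Pool.Agent.MW

open Complex Finset MY MZ

/-- `C log q ≤ q ^ e` for large `q`. -/
lemma A17_log (C e : ℝ) (hC : 0 ≤ C) (he : 0 < e) : ∃ q₀ : ℕ, ∀ q : ℕ, q₀ ≤ q →
    C * Real.log q ≤ (q : ℝ) ^ e := by
  have h1 := (isLittleO_log_rpow_atTop he).bound (show (0 : ℝ) < 1 / (C + 1) by positivity)
  rw [Filter.eventually_atTop] at h1
  obtain ⟨x₀, hx₀⟩ := h1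
  obtain ⟨q₀, hq₀⟩ := exists_nat_ge (max x₀ 1)
  refine ⟨q₀, fun q hq => ?_⟩
  have hqr : (q₀ : ℝ) ≤ q := by exact_mod_cast hq
  have hq1 : (1 : ℝ) ≤ q := ((le_max_right _ _).trans hq₀).trans hqr
  have h2 := hx₀ (q : ℝ) (((le_max_left _ _).trans hq₀).trans hqr)
  have hp : 0 ≤ (q : ℝ) ^ e := Real.rpow_nonneg (by linarith) _
  have hl : 0 ≤ Real.log (q : ℝ) := Real.log_nonneg hq1
  rw [Real.norm_of_nonneg hl, Real.norm_of_nonneg hp, one_div, inv_mul_eq_div,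
    le_div_iff₀ (by positivity)] at h2
  nlinarith

/-- A17. The mean square of the coefficients in a zero free region (as `MZ.E0`). -/
lemma MDb (θ A K₃ ν : ℝ) (hθ : 1 / 2 ≤ θ) (hθ1 : θ < 1) (hA : 1 ≤ A) (hK : 1 ≤ K₃) (hν : 0 < ν) :
    ∃ δ₀ : ℝ, 0 < δ₀ ∧ δ₀ ≤ (1 - θ) / 4 ∧
    ∀ δ : ℝ, 0 < δ → δ ≤ δ₀ → ∃ q₀ : ℕ, ∀ (q : ℕ) [NeZero q], q₀ ≤ q → ∀ S : ℝ, 3 ≤ S →
    (S + 2) ^ 2 ≤ q → ZFB q (θ - 1 / 2 + δ) (S + 2) →
    ∀ X : ℝ, (q : ℝ) ≤ X → X ≤ (q : ℝ) ^ A → ∀ s : ℂ, s.re = 2 → ‖s‖ ≤ S →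
    ∀ j : ℕ, (j : ℝ) ≤ K₃ * Real.log X →
    ∑ a : (ZMod q)ˣ, (‖Dk q s j a‖ * (2 - θ) ^ j) ^ 2 ≤ (q : ℝ) ^ ν := by
  refine ⟨min ((1 - θ) / 4) (ν / (4 * (K₃ * A))), ?_, min_le_left _ _, ?_⟩
  · have h1 : 0 < 1 - θ := by linarith
    positivity
  intro δ hδ0 hδ
  have hδθ : δ ≤ (1 - θ) / 4 := hδ.trans (min_le_left _ _)
  have hδν : δ ≤ ν / (4 * (K₃ * A)) := hδ.trans (min_le_right _ _)
  obtain ⟨C, hC0, hC⟩ := MW.tk_small (θ - 1 / 2 + δ) (by linarith) (by linarith)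
  obtain ⟨q₀, hq₀⟩ := A17_log C (ν / 4) hC0 (by positivity)
  refine ⟨max q₀ 41, ?_⟩
  intro q _ hq S hS hSq hZ X hqX hXA s hs hsS j hj
  have hq41 : 41 ≤ q := (le_max_right _ _).trans hq
  have hq41r : (41 : ℝ) ≤ q := by exact_mod_cast hq41
  have hq0 : (0 : ℝ) < q := by linarith
  have hX1 : 1 ≤ X := by linarith
  have hX0 : 0 < X := by linarith
  have hCl := hq₀ q ((le_max_left _ _).trans hq)
  have hlq : 0 ≤ Real.log (q : ℝ) := Real.log_nonneg (by linarith)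
  have him : |s.im| ≤ S + 2 - 2 := by
    have := Complex.abs_im_le_norm s
    linarith
  obtain ⟨r, hr⟩ : ∃ r : ℝ, r = (3 / 2 - (θ - 1 / 2 + δ))⁻¹ := ⟨_, rfl⟩
  have hden : 3 / 2 - (θ - 1 / 2 + δ) = 2 - θ - δ := by ring
  have hd1 : 1 ≤ 2 - θ - δ := by linarith
  rw [hden] at hr
  have hr0 : 0 < r := by rw [hr]; positivity
  have hTC : ∀ χ ∈ nt q, ‖TC (fun z => -logDeriv χ.LFunction z) s j‖ ^ 2
      ≤ ((q : ℝ) ^ (ν / 4) * r ^ j) ^ 2 := by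
    intro χ hχ
    have h1 := hC q hq41 (S + 2) (by linarith) hSq hZ χ ((mem_nt q χ).mp hχ) s hs him j
    rw [hden, ← hr] at h1
    refine pow_le_pow_left₀ (norm_nonneg _) (h1.trans ?_) 2
    exact mul_le_mul_of_nonneg_right hCl (by positivity)
  have hcard : ((nt q).card : ℝ) ≤ q.totient := by
    have h1 : (nt q).card ≤ Fintype.card (DirichletCharacter ℂ q) := Finset.card_le_univ _
    rw [← Nat.card_eq_fintype_card,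
      DirichletCharacter.card_eq_totient_of_hasEnoughRootsOfUnity] at h1
    exact_mod_cast h1
  have hphi : (0 : ℝ) < q.totient := by
    exact_mod_cast Nat.totient_pos.mpr (Nat.pos_of_ne_zero (NeZero.ne q))
  obtain ⟨M, hM⟩ : ∃ M : ℝ, M = ((q : ℝ) ^ (ν / 4) * r ^ j) ^ 2 := ⟨_, rfl⟩
  have hM0 : 0 ≤ M := by rw [hM]; positivity
  have hD : ∑ a : (ZMod q)ˣ, ‖Dk q s j a‖ ^ 2 ≤ M := by
    rw [parseval]
    have h1 : ∑ χ ∈ nt q, ‖TC (fun z => -logDeriv χ.LFunction z) s j‖ ^ 2 ≤ q.totient * M := by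
      calc ∑ χ ∈ nt q, ‖TC (fun z => -logDeriv χ.LFunction z) s j‖ ^ 2 ≤ ∑ _χ ∈ nt q, M :=
            sum_le_sum fun χ hχ => by rw [hM]; exact hTC χ hχ
        _ = (nt q).card * M := by rw [sum_const, nsmul_eq_mul]
        _ ≤ q.totient * M := mul_le_mul_of_nonneg_right hcard hM0
    rw [one_div, inv_mul_le_iff₀ hphi]
    exact h1
  have hratio : (2 - θ) * r ≤ Real.exp δ := by
    have h1 : (2 - θ) * r = 1 + δ * r := by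
      rw [hr]
      field_simp
      ring
    have h2 : r ≤ 1 := by rw [hr]; exact inv_le_one_of_one_le₀ hd1
    have h3 := Real.add_one_le_exp δ
    rw [h1]
    nlinarith
  have hratio2 : ((2 - θ) * r) ^ j ≤ X ^ (δ * K₃) :=
    C3_up ((2 - θ) * r) δ K₃ X (mul_nonneg (by linarith) hr0.le) hratio hδ0.le hX1 j hj
  have hXq : X ^ (δ * K₃) ≤ (q : ℝ) ^ (ν / 4) := by
    have hδK : 0 ≤ δ * K₃ := mul_nonneg hδ0.le (by linarith)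
    calc X ^ (δ * K₃) ≤ ((q : ℝ) ^ A) ^ (δ * K₃) := Real.rpow_le_rpow hX0.le hXA hδK
      _ = (q : ℝ) ^ (A * (δ * K₃)) := by rw [← Real.rpow_mul hq0.le]
      _ ≤ (q : ℝ) ^ (ν / 4) := by
          refine Real.rpow_le_rpow_of_exponent_le (by linarith) ?_
          have hKA : 0 < 4 * (K₃ * A) := by positivity
          rw [le_div_iff₀ hKA] at hδν
          linarith
  calc ∑ a : (ZMod q)ˣ, (‖Dk q s j a‖ * (2 - θ) ^ j) ^ 2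
      = (∑ a : (ZMod q)ˣ, ‖Dk q s j a‖ ^ 2) * ((2 - θ) ^ j) ^ 2 := by
        rw [sum_mul]
        exact sum_congr rfl fun a _ => by rw [mul_pow]
    _ ≤ M * ((2 - θ) ^ j) ^ 2 := mul_le_mul_of_nonneg_right hD (by positivity)
    _ = ((q : ℝ) ^ (ν / 4) * ((2 - θ) * r) ^ j) ^ 2 := by rw [hM, mul_pow (2 - θ)]; ring
    _ ≤ ((q : ℝ) ^ (ν / 4) * (q : ℝ) ^ (ν / 4)) ^ 2 := by
        refine pow_le_pow_left₀ (mul_nonneg (by positivity)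
          (pow_nonneg (mul_nonneg (by linarith) hr0.le) _)) ?_ 2
        exact mul_le_mul_of_nonneg_left (hratio2.trans hXq) (by positivity)
    _ = (q : ℝ) ^ ν := by
        rw [← Real.rpow_add hq0, ← Real.rpow_natCast, ← Real.rpow_mul hq0.le]
        congr 1
        push_cast
        ring

end Pool.Agent.MW
end

section

set_option autoImplicit false

namespace Pool.Agent.MZ

open Complex Finset MY

/-- The number of coefficients is small. -/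
lemma E2_k (ε₀ A K₃ : ℝ) (h0 : 0 < ε₀) (h1 : ε₀ ≤ 1 / 10) (hA : 1 ≤ A) (hK : 1 ≤ K₃) :
    ∃ q₀ : ℕ, 1 ≤ q₀ ∧ ∀ q : ℕ, q₀ ≤ q → ∀ X : ℝ, (q : ℝ) ≤ X → X ≤ (q : ℝ) ^ A →
    ∀ k : ℕ, (k : ℝ) ≤ K₃ * Real.log X → (k : ℝ) + 1 ≤ (q : ℝ) ^ (ε₀ / 8) := by
  refine ⟨⌈(32 * K₃ * A / ε₀) ^ (16 / ε₀)⌉₊ + 1, by omega, ?_⟩
  intro q hq X hX1 hX2 k hk
  have hq1 : (1 : ℝ) ≤ q := by
    have h : 1 ≤ q := le_trans (by omega) hq
    exact_mod_cast h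
  have hq0 : (0 : ℝ) < q := by linarith
  have hb : 0 < 32 * K₃ * A / ε₀ := by positivity
  have hbig : (32 * K₃ * A / ε₀) ^ (16 / ε₀) ≤ (q : ℝ) := by
    refine le_trans (Nat.le_ceil _) ?_
    have h : ⌈(32 * K₃ * A / ε₀) ^ (16 / ε₀)⌉₊ ≤ q := le_trans (by omega) hq
    exact_mod_cast h
  have h2 : 32 * K₃ * A / ε₀ ≤ (q : ℝ) ^ (ε₀ / 16) := by
    have h3 := Real.rpow_le_rpow (Real.rpow_nonneg hb.le _) hbig (show 0 ≤ ε₀ / 16 by positivity)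
    rw [← Real.rpow_mul hb.le] at h3
    have h4 : 16 / ε₀ * (ε₀ / 16) = 1 := by
      field_simp
    rw [h4, Real.rpow_one] at h3
    exact h3
  have hX0 : 0 < X := by linarith
  have hlog : Real.log X ≤ A * Real.log q := by
    have h3 := Real.log_le_log hX0 hX2
    rw [Real.log_rpow hq0] at h3
    exact h3
  have hlq : Real.log q ≤ (q : ℝ) ^ (ε₀ / 16) / (ε₀ / 16) :=
    Real.log_le_rpow_div hq0.le (by positivity)
  have hkk : (k : ℝ) ≤ 16 * K₃ * A / ε₀ * (q : ℝ) ^ (ε₀ / 16) := by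
    calc (k : ℝ) ≤ K₃ * Real.log X := hk
      _ ≤ K₃ * (A * Real.log q) := mul_le_mul_of_nonneg_left hlog (by linarith)
      _ ≤ K₃ * (A * ((q : ℝ) ^ (ε₀ / 16) / (ε₀ / 16))) := by
          refine mul_le_mul_of_nonneg_left (mul_le_mul_of_nonneg_left hlq (by linarith))
            (by linarith)
      _ = 16 * K₃ * A / ε₀ * (q : ℝ) ^ (ε₀ / 16) := by
          field_simp
  have hP : (1 : ℝ) ≤ (q : ℝ) ^ (ε₀ / 16) := Real.one_le_rpow hq1 (by positivity)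
  have hc : (1 : ℝ) ≤ 16 * K₃ * A / ε₀ := by
    rw [le_div_iff₀ h0]
    nlinarith [mul_le_mul hK hA (by norm_num) (by linarith)]
  have hone : (1 : ℝ) ≤ 16 * K₃ * A / ε₀ * (q : ℝ) ^ (ε₀ / 16) := by
    nlinarith [mul_le_mul hc hP (by norm_num) (by linarith)]
  have hsq : (q : ℝ) ^ (ε₀ / 8) = (q : ℝ) ^ (ε₀ / 16) * (q : ℝ) ^ (ε₀ / 16) := by
    rw [← Real.rpow_add hq0]
    congr 1
    ring
  rw [hsq]
  calc (k : ℝ) + 1 ≤ 16 * K₃ * A / ε₀ * (q : ℝ) ^ (ε₀ / 16)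
        + 16 * K₃ * A / ε₀ * (q : ℝ) ^ (ε₀ / 16) := add_le_add hkk hone
    _ = 32 * K₃ * A / ε₀ * (q : ℝ) ^ (ε₀ / 16) := by ring
    _ ≤ (q : ℝ) ^ (ε₀ / 16) * (q : ℝ) ^ (ε₀ / 16) :=
        mul_le_mul_of_nonneg_right h2 (by linarith)

/-- E2. The part `B × B`. -/
theorem QB (ε₀ A K₃ : ℝ) (h0 : 0 < ε₀) (h1 : ε₀ ≤ 1 / 10) (hA : 1 ≤ A) (hK : 1 ≤ K₃) :
    ∃ q₀ : ℕ, ∀ (q : ℕ) [NeZero q], q₀ ≤ q → 
    ∀ X : ℝ, (q : ℝ) ≤ X → X ≤ (q : ℝ) ^ A → ∀ B : Finset (ZMod q)ˣ, B.Nonempty →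
    (B.card : ℝ) ≤ (q : ℝ) ^ (1 / 3 - ε₀) → ∀ s : ℂ, s.re = 2 →
    ∀ k : ℕ, (k : ℝ) ≤ K₃ * Real.log X →
    (∀ j ≤ k, ∑ a : (ZMod q)ˣ, ‖Dk q s j a‖ ^ 2
      ≤ ((q : ℝ) ^ (ε₀ / 16) * (2 / 3 : ℝ) ^ j) ^ 2) →
    ∑ a ∈ B, (QS q ε₀ B s k a * (3 / 2 : ℝ) ^ k) ^ 2 ≤ (q : ℝ) ^ (-(ε₀ / 4)) := by
  obtain ⟨C, q₁, hC, hrc⟩ := rowcol ε₀ h0 h1
  obtain ⟨q₂, hq₂, hkb⟩ := E2_k ε₀ A K₃ h0 h1 hA hK
  refine ⟨max q₁ q₂, ?_⟩
  intro q _ hq X hX1 hX2 B hB hBc s hs k hk hD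
  have hq1 : q₁ ≤ q := le_trans (le_max_left _ _) hq
  have hq2 : q₂ ≤ q := le_trans (le_max_right _ _) hq
  have hqr : (1 : ℝ) ≤ q := by
    have h : 1 ≤ q := le_trans hq₂ hq2
    exact_mod_cast h
  have hq0 : (0 : ℝ) < q := by linarith
  have hk1 := hkb q hq2 X hX1 hX2 k hk
  obtain ⟨-, -, hrow, hcol, -⟩ := hrc q hq1 B hB hBc
  have hR : (0 : ℝ) ≤ (q : ℝ) ^ (-(ε₀ / 4)) := Real.rpow_nonneg hq0.le _
  have hM : (0 : ℝ) ≤ (q : ℝ) ^ (ε₀ / 16) := Real.rpow_nonneg hq0.le _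
  have hsch := schur q s hs B (q * NN q ε₀) (fun a n => |cz q ε₀ B a n|)
    (fun a n => abs_nonneg _) ((q : ℝ) ^ (-(ε₀ / 4))) ((q : ℝ) ^ (-(ε₀ / 4)))
    ((q : ℝ) ^ (ε₀ / 16)) hR hR hM k hrow hcol hD
  have h32 : (2 / 3 : ℝ) ^ k * (3 / 2 : ℝ) ^ k = 1 := by
    rw [← mul_pow]
    norm_num
  have hp : (0 : ℝ) ≤ ((3 / 2 : ℝ) ^ k) ^ 2 := by positivity
  calc ∑ a ∈ B, (QS q ε₀ B s k a * (3 / 2 : ℝ) ^ k) ^ 2
      = (∑ a ∈ B, (QS q ε₀ B s k a) ^ 2) * ((3 / 2 : ℝ) ^ k) ^ 2 := by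
        rw [Finset.sum_mul]
        refine Finset.sum_congr rfl fun a _ => ?_
        ring
    _ ≤ (((k : ℝ) + 1) * (q : ℝ) ^ (-(ε₀ / 4)) * (q : ℝ) ^ (-(ε₀ / 4))
          * ((q : ℝ) ^ (ε₀ / 16) * (2 / 3 : ℝ) ^ k) ^ 2) * ((3 / 2 : ℝ) ^ k) ^ 2 :=
        mul_le_mul_of_nonneg_right hsch hp
    _ = ((k : ℝ) + 1) * ((q : ℝ) ^ (-(ε₀ / 4)) * (q : ℝ) ^ (-(ε₀ / 4))
          * ((q : ℝ) ^ (ε₀ / 16) * (q : ℝ) ^ (ε₀ / 16))) := by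
        have h : ((q : ℝ) ^ (ε₀ / 16) * (2 / 3 : ℝ) ^ k) ^ 2 * ((3 / 2 : ℝ) ^ k) ^ 2
            = (q : ℝ) ^ (ε₀ / 16) * (q : ℝ) ^ (ε₀ / 16) := by
          calc ((q : ℝ) ^ (ε₀ / 16) * (2 / 3 : ℝ) ^ k) ^ 2 * ((3 / 2 : ℝ) ^ k) ^ 2
              = (q : ℝ) ^ (ε₀ / 16) * (q : ℝ) ^ (ε₀ / 16)
                * ((2 / 3 : ℝ) ^ k * (3 / 2 : ℝ) ^ k) ^ 2 := by ring
            _ = (q : ℝ) ^ (ε₀ / 16) * (q : ℝ) ^ (ε₀ / 16) := by
                rw [h32]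
                ring
        rw [mul_assoc, h]
        ring
    _ ≤ (q : ℝ) ^ (ε₀ / 8) * ((q : ℝ) ^ (-(ε₀ / 4)) * (q : ℝ) ^ (-(ε₀ / 4))
          * ((q : ℝ) ^ (ε₀ / 16) * (q : ℝ) ^ (ε₀ / 16))) := by
        refine mul_le_mul_of_nonneg_right hk1 ?_
        exact mul_nonneg (mul_nonneg hR hR) (mul_nonneg hM hM)
    _ = (q : ℝ) ^ (-(ε₀ / 4)) := by
        rw [← Real.rpow_add hq0, ← Real.rpow_add hq0, ← Real.rpow_add hq0, ← Real.rpow_add hq0]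
        congr 1
        ring

end Pool.Agent.MZ
end
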