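import Mathlib
import Pool.Agent.Lib.MP_9cfc0a_nt.Mg.G023
import Pool.Agent.Lib.MP_9cfc0a_nt.Mg.G045
import Pool.Agent.Lib.MP_9cfc0a_nt.Mg.G043
import Pool.Agent.Lib.MP_9cfc0a_nt.MW.A20a
import Pool.Agent.Lib.MP_9cfc0a_nt.MW.A3
import Pool.Agent.Lib.MP_9cfc0a_nt.MW.A21
import Pool.Agent.Lib.MP_9cfc0a_nt.Mg.G037
import Pool.Agent.Lib.MP_9cfc0a_nt.MY.A2
import Pool.Agent.Lib.MP_9cfc0a_nt.TS.Ag
import Pool.Agent.Lib.MP_9cfc0a_nt.Mg.G077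

section

set_option autoImplicit false

namespace Pool.Agent.MW

open Complex Finset MY MZ

lemma A20_big (c M : ℝ) (hc : 0 < c) : ∃ q₀ : ℕ, ∀ q : ℕ, q₀ ≤ q → M ≤ (q : ℝ) ^ c := by
  have h := ((tendsto_rpow_atTop hc).comp
    (tendsto_natCast_atTop_atTop (R := ℝ))).eventually_ge_atTop M
  obtain ⟨q₀, hq₀⟩ := Filter.eventually_atTop.1 h
  exact ⟨q₀, fun q hq => hq₀ q hq⟩

lemma A20_tail (I₀ : ℕ) : ∀ n : ℕ, ∑ i ∈ range n, (if i < I₀ then (0 : ℝ) else (1 / 8 : ℝ) ^ i)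
    ≤ 2 * (1 / 8 : ℝ) ^ I₀ := by
  have key : ∀ n : ℕ, ∑ i ∈ range n, (if i < I₀ then (0 : ℝ) else (1 / 8 : ℝ) ^ i)
      ≤ if I₀ ≤ n then 2 * (1 / 8 : ℝ) ^ I₀ - 2 * (1 / 8 : ℝ) ^ n else 0 := by
    intro n
    induction n with
    | zero =>
      rw [Finset.sum_range_zero]
      split_ifs with h
      · have : I₀ = 0 := by omega
        rw [this]
        simp
      · exact le_rfl
    | succ n ih =>
      rw [Finset.sum_range_succ]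
      have hp : (0 : ℝ) < (1 / 8 : ℝ) ^ n := by positivity
      by_cases h1 : I₀ ≤ n
      · rw [if_pos h1] at ih
        rw [if_neg (not_lt.2 h1), if_pos (by omega), pow_succ]
        linarith
      · rw [if_neg h1] at ih
        rw [if_pos (by omega)]
        split_ifs with h2
        · have h3 : I₀ = n + 1 := by omega
          rw [h3] at ih ⊢
          linarith
        · linarith
  intro n
  refine (key n).trans ?_
  have hp : (0 : ℝ) < (1 / 8 : ℝ) ^ n := by positivity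
  have hp' : (0 : ℝ) < (1 / 8 : ℝ) ^ I₀ := by positivity
  split_ifs
  · linarith
  · linarith

lemma A20_sB (u : ℕ → ℝ) (I₀ k : ℕ) (Mx H : ℝ) (hM : 0 ≤ Mx) (hH : 0 ≤ H)
    (h1 : ∀ i, i < I₀ → i ≤ k → u (k - i) ≤ Mx) (h2 : ∀ j, j ≤ k → u j ≤ H) :
    ∑ i ∈ range (k + 1), gam I₀ i * u (k - i) ≤ I₀ * Mx + 2 * (1 / 8 : ℝ) ^ I₀ * H := by
  have h3 : ∀ i ∈ range (k + 1), gam I₀ i * u (k - i) ≤
      (if i < I₀ then Mx else 0) + (if i < I₀ then (0 : ℝ) else (1 / 8 : ℝ) ^ i) * H := by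
    intro i hi
    have hik : i ≤ k := by
      have := Finset.mem_range.1 hi
      omega
    unfold gam
    split_ifs with h
    · rw [one_mul, zero_mul, add_zero]
      exact h1 i h hik
    · rw [zero_add]
      exact mul_le_mul_of_nonneg_left (h2 _ (Nat.sub_le k i)) (by positivity)
  refine (Finset.sum_le_sum h3).trans ?_
  rw [Finset.sum_add_distrib, ← Finset.sum_mul]
  refine add_le_add ?_ (mul_le_mul_of_nonneg_right (A20_tail I₀ (k + 1)) hH)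
  rw [← Finset.sum_filter, Finset.sum_const, nsmul_eq_mul]
  refine mul_le_mul_of_nonneg_right ?_ hM
  have h4 : ((range (k + 1)).filter (fun i => i < I₀)).card ≤ I₀ := by
    have h5 : (range (k + 1)).filter (fun i => i < I₀) ⊆ range I₀ := by
      intro i hi
      exact Finset.mem_range.2 (Finset.mem_filter.1 hi).2
    have h6 := Finset.card_le_card h5
    rwa [Finset.card_range] at h6
  exact_mod_cast h4

/-- the size of `I₀` -/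
lemma A20_I0 (q : ℕ) (ε₀ : ℝ) (h0 : 0 < ε₀) (h1 : ε₀ ≤ 1 / 10) (hq : 4 ≤ Real.log q) (hq1 : 1 ≤ q) :
    ((⌈40 * Real.log ((q * NN q ε₀ : ℕ) : ℝ)⌉₊ : ℕ) : ℝ) ≤ 101 * Real.log q ∧
    40 * Real.log q ≤ ((⌈40 * Real.log ((q * NN q ε₀ : ℕ) : ℝ)⌉₊ : ℕ) : ℝ) := by
  have hQ1 : (1 : ℝ) ≤ q := by exact_mod_cast hq1
  have hQ0 : (0 : ℝ) < q := by linarith
  have hp1 : (1 : ℝ) ≤ (q : ℝ) ^ (1 + ε₀ / 40) := Real.one_le_rpow hQ1 (by linarith)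
  have hN1 : (NN q ε₀ : ℝ) ≤ 2 * (q : ℝ) ^ (1 + ε₀ / 40) + 1 := by
    unfold NN
    exact (Nat.ceil_lt_add_one (by positivity)).le
  have hN0 : (1 : ℝ) ≤ (NN q ε₀ : ℝ) := by
    have : 2 * (q : ℝ) ^ (1 + ε₀ / 40) ≤ (NN q ε₀ : ℝ) := Nat.le_ceil _
    linarith
  have hcast : ((q * NN q ε₀ : ℕ) : ℝ) = q * (NN q ε₀ : ℝ) := by push_cast; ring
  have hl : Real.log ((q * NN q ε₀ : ℕ) : ℝ) = Real.log q + Real.log (NN q ε₀ : ℝ) := by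
    rw [hcast, Real.log_mul hQ0.ne' (by linarith)]
  have hl2 : Real.log (NN q ε₀ : ℝ) ≤ Real.log 3 + (1 + ε₀ / 40) * Real.log q := by
    have h2 : (NN q ε₀ : ℝ) ≤ 3 * (q : ℝ) ^ (1 + ε₀ / 40) := by linarith
    have h3 := Real.log_le_log (by linarith) h2
    rwa [Real.log_mul (by norm_num) (by positivity), Real.log_rpow hQ0] at h3
  have hl3 : Real.log 3 ≤ 2 := by
    have h2 : (3 : ℝ) ≤ Real.exp 2 := by
      have := Real.add_one_le_exp (2 : ℝ)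
      linarith
    have h3 := Real.log_le_log (by norm_num) h2
    rwa [Real.log_exp] at h3
  have hlN : 0 ≤ Real.log (NN q ε₀ : ℝ) := Real.log_nonneg hN0
  have hl0 : 0 ≤ Real.log ((q * NN q ε₀ : ℕ) : ℝ) := by
    rw [hl]
    linarith
  constructor
  · have h4 := (Nat.ceil_lt_add_one (show 0 ≤ 40 * Real.log ((q * NN q ε₀ : ℕ) : ℝ) by
      positivity)).le
    rw [hl] at h4
    rw [hl]
    have h5 : ε₀ / 40 * Real.log q ≤ 1 / 400 * Real.log q :=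
      mul_le_mul_of_nonneg_right (by linarith) (by linarith)
    have h6 : (1 + ε₀ / 40) * Real.log q = Real.log q + ε₀ / 40 * Real.log q := by ring
    rw [h6] at hl2
    linarith
  · refine le_trans ?_ (Nat.le_ceil _)
    rw [hl]
    linarith

/-- A20. The energy in a zero free region. `C₂` depends only on `θ` and `ε₀`. -/
theorem energy (θ ε₀ : ℝ) (hθ : 1 / 2 ≤ θ) (hθ1 : θ < 1) (h0 : 0 < ε₀) (h1 : ε₀ ≤ 1 / 10) :
    ∃ C₂ : ℝ, 60 ≤ C₂ ∧ ∀ (A K₃ η : ℝ), 1 ≤ A → C₂ ≤ K₃ → 0 < η →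
    ∃ δ ν T₀ : ℝ, 0 < δ ∧ 0 < ν ∧ ν ≤ 1 / 4 ∧ 8 ≤ T₀ ∧ ∃ K q₀ : ℕ, 1 ≤ K ∧
    ∀ (q : ℕ) [NeZero q], q₀ ≤ q → ∀ S : ℝ, 3 ≤ S → S + 2 ≤ (q : ℝ) ^ ν →
    ZFB q (θ - 1 / 2 + δ) (S + T₀) →
    ∀ X : ℝ, (q : ℝ) ≤ X → X ≤ (q : ℝ) ^ A → ∀ B : Finset (ZMod q)ˣ, B.Nonempty →
    (B.card : ℝ) ≤ (q : ℝ) ^ (θ / (2 - θ) - ε₀) → ∀ Y : ℝ, X ^ K ≤ Y → ∀ w2 : ℝ, 0 ≤ w2 →
    ∫ x in Set.Ioc X Y, VB q B x / x ^ (1 + 2 * θ) ≤ w2 → ∀ s : ℂ, s.re = 2 → ‖s‖ ≤ S →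
    ∀ k : ℕ, C₂ * Real.log X ≤ k → (k : ℝ) ≤ K₃ * Real.log X →
    ∑ a : (ZMod q)ˣ, (‖Dk q s k a‖ * (2 - θ) ^ k) ^ 2
      ≤ (q : ℝ) ^ η * w2 + (q : ℝ) ^ (-3 : ℝ) := by
  obtain ⟨c, hc⟩ : ∃ c : ℝ, c = (1 - θ) * ε₀ / 8 := ⟨_, rfl⟩
  have hc0 : 0 < c := by
    rw [hc]
    have : 0 < 1 - θ := by linarith
    positivity
  obtain ⟨m, hm⟩ : ∃ m : ℕ, 10 / c ≤ m := exists_nat_ge _
  rw [div_le_iff₀ hc0] at hm
  refine ⟨61 + 101 * (m + 1), by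
    have : (0 : ℝ) ≤ m := Nat.cast_nonneg m
    linarith, fun A K₃ η hA hCK hη => ?_⟩
  have hm0 : (0 : ℝ) ≤ m := Nat.cast_nonneg m
  have hK60 : 60 ≤ K₃ := by linarith
  have hK1 : 1 ≤ K₃ := by linarith
  obtain ⟨δa, hδa, hδa1, hMD⟩ := MDb θ A K₃ 1 hθ hθ1 hA hK1 one_pos
  obtain ⟨δb, ν, T₀, hδb, hδb1, hν, hν1, hT₀, hrec⟩ :=
    rec_step θ ε₀ A K₃ (η / 2) hθ hθ1 h0 h1 hA hK60 (by positivity)
  obtain ⟨qa, hqa⟩ := hMD (min δa δb) (lt_min hδa hδb) (min_le_left _ _)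
  obtain ⟨K, qb, hK, hqb⟩ := hrec (min δa δb) (lt_min hδa hδb) (min_le_right _ _)
  obtain ⟨qc, hqc⟩ := A20_big (c / 4) (412 / c) (by positivity)
  obtain ⟨qd, hqd⟩ := A20_big (c / 2) 2 (by positivity)
  obtain ⟨qe, hqe⟩ := A20_big (η / 2) 4 (by positivity)
  refine ⟨min δa δb, ν, T₀, lt_min hδa hδb, hν, hν1, hT₀, K,
    90 + (qa + (qb + (qc + (qd + qe)))), hK, ?_⟩
  intro q _ hq S hS hSq hZ X hqX hXA B hBne hBc Y hY w2 hw2 hint s hs hsS k hk1 hk2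
  have hQ30 : (90 : ℝ) ≤ q := by
    have : 90 ≤ q := by omega
    exact_mod_cast this
  have hQ0 : (0 : ℝ) < q := by linarith
  have hQ1 : (1 : ℝ) ≤ q := by linarith
  have hlogq : 4 ≤ Real.log q := by
    rw [Real.le_log_iff_exp_le hQ0]
    have h2 := Real.exp_one_lt_d9
    have h3 : Real.exp 4 = Real.exp 1 ^ 4 := by
      rw [← Real.exp_nat_mul]
      norm_num
    rw [h3]
    have h4 : Real.exp 1 ^ 4 ≤ 3 ^ 4 := pow_le_pow_left₀ (Real.exp_pos 1).le (by linarith) 4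
    linarith
  have hlogX : Real.log q ≤ Real.log X := Real.log_le_log hQ0 hqX
  -- `I₀`
  obtain ⟨I₀, hI₀⟩ : ∃ I₀ : ℕ, I₀ = ⌈40 * Real.log ((q * NN q ε₀ : ℕ) : ℝ)⌉₊ := ⟨_, rfl⟩
  obtain ⟨hI1, hI2⟩ := A20_I0 q ε₀ h0 h1 hlogq (by omega)
  have hqb' := hqb q (by omega) S hS hSq hZ X hqX hXA B hBne hBc Y hY w2 hw2 hint s hs hsS
  rw [← hI₀] at hI1 hI2 hqb'
  rw [← hc] at hqb'
  obtain ⟨κ, hκ⟩ : ∃ κ : ℝ, κ = (q : ℝ) ^ (-c) := ⟨_, rfl⟩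
  have hκ0 : 0 < κ := by
    rw [hκ]
    exact Real.rpow_pos_of_pos hQ0 _
  have hκ1 : κ ≤ 1 := by
    rw [hκ]
    exact Real.rpow_le_one_of_one_le_of_nonpos hQ1 (by linarith)
  obtain ⟨T, hT⟩ : ∃ T : ℝ, T = (q : ℝ) ^ (η / 2) * w2 + (q : ℝ) ^ (-5 : ℝ) := ⟨_, rfl⟩
  have hT0 : 0 ≤ T := by
    rw [hT]
    have := Real.rpow_nonneg hQ0.le (η / 2)
    have := Real.rpow_nonneg hQ0.le (-5 : ℝ)
    positivity
  rw [← hκ, ← hT] at hqb'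
  -- the bound `H = q`
  have hSZ : ZFB q (θ - 1 / 2 + min δa δb) (S + 2) := fun χ hχ z hz hz1 =>
    hZ χ hχ z hz (by linarith)
  have hS2 : (S + 2) ^ 2 ≤ q := by
    have h2 : (S + 2) ^ 2 ≤ ((q : ℝ) ^ ν) ^ 2 := pow_le_pow_left₀ (by linarith) hSq 2
    have h3 : ((q : ℝ) ^ ν) ^ 2 = (q : ℝ) ^ (ν * 2) := by
      rw [Real.rpow_mul hQ0.le]
      exact (Real.rpow_natCast _ 2).symm
    have h4 : (q : ℝ) ^ (ν * 2) ≤ (q : ℝ) ^ (1 : ℝ) :=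
      Real.rpow_le_rpow_of_exponent_le hQ1 (by linarith)
    rw [Real.rpow_one] at h4
    linarith
  have hH : ∀ j : ℕ, (j : ℝ) ≤ K₃ * Real.log X → uB q θ B s j ≤ q := by
    intro j hj
    have h2 := hqa q (by omega) S hS hS2 hSZ X hqX hXA s hs hsS j hj
    rw [Real.rpow_one] at h2
    refine le_trans ?_ h2
    unfold uB
    exact Finset.sum_le_univ_sum_of_nonneg fun a => sq_nonneg _
  have hu0 : ∀ j, 0 ≤ uB q θ B s j := fun j => Finset.sum_nonneg fun a _ => sq_nonneg _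
  -- the size of `κ (I₀ + 1)`
  have hκI : κ * (I₀ + 1) ≤ (q : ℝ) ^ (-(c / 2)) := by
    have h2 : Real.log q ≤ (q : ℝ) ^ (c / 4) / (c / 4) :=
      Real.log_le_rpow_div hQ0.le (by positivity)
    have h3 := hqc q (by omega)
    have h4 : (I₀ : ℝ) + 1 ≤ 103 * Real.log q := by linarith
    have h5 : 103 * Real.log q ≤ (q : ℝ) ^ (c / 4) * (q : ℝ) ^ (c / 4) := by
      have h6 : 0 ≤ (q : ℝ) ^ (c / 4) := Real.rpow_nonneg hQ0.le _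
      calc 103 * Real.log q ≤ 103 * ((q : ℝ) ^ (c / 4) / (c / 4)) := by linarith
        _ = 412 / c * (q : ℝ) ^ (c / 4) := by
            field_simp
            ring
        _ ≤ _ := mul_le_mul_of_nonneg_right h3 h6
    rw [← Real.rpow_add hQ0] at h5
    rw [hκ]
    calc (q : ℝ) ^ (-c) * (I₀ + 1) ≤ (q : ℝ) ^ (-c) * (q : ℝ) ^ (c / 4 + c / 4) :=
          mul_le_mul_of_nonneg_left (h4.trans h5) (Real.rpow_nonneg hQ0.le _)
      _ = (q : ℝ) ^ (-(c / 2)) := by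
          rw [← Real.rpow_add hQ0]
          congr 1
          ring
  have hκI0 : 0 ≤ κ * (I₀ + 1) := by positivity
  have hκI2 : κ * (I₀ + 1) ≤ 1 / 2 := by
    refine hκI.trans ?_
    rw [Real.rpow_neg hQ0.le]
    have h2 := hqd q (by omega)
    rw [one_div]
    exact inv_anti₀ (by norm_num) h2
  have hpow : (κ * (I₀ + 1)) ^ m * q ≤ (q : ℝ) ^ (-4 : ℝ) := by
    calc (κ * (I₀ + 1)) ^ m * q ≤ ((q : ℝ) ^ (-(c / 2))) ^ m * q :=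
          mul_le_mul_of_nonneg_right (pow_le_pow_left₀ hκI0 hκI m) hQ0.le
      _ = (q : ℝ) ^ (-(c / 2) * m + 1) := by
          rw [← Real.rpow_natCast, ← Real.rpow_mul hQ0.le, Real.rpow_add hQ0, Real.rpow_one]
      _ ≤ (q : ℝ) ^ (-4 : ℝ) := Real.rpow_le_rpow_of_exponent_le hQ1 (by linarith)
  have h8 : (1 / 8 : ℝ) ^ I₀ * q ≤ (q : ℝ) ^ (-5 : ℝ) := by
    have h2 : (1 / 8 : ℝ) ≤ Real.exp (-2) := by
      rw [Real.exp_neg, one_div]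
      refine inv_anti₀ (Real.exp_pos 2) ?_
      have h3 := Real.exp_one_lt_d9
      have h4 : Real.exp 2 = Real.exp 1 ^ 2 := by
        rw [← Real.exp_nat_mul]
        norm_num
      rw [h4]
      have h5 : Real.exp 1 ^ 2 ≤ (2.75 : ℝ) ^ 2 :=
        pow_le_pow_left₀ (Real.exp_pos 1).le (by linarith) 2
      linarith
    calc (1 / 8 : ℝ) ^ I₀ * q ≤ Real.exp (-2) ^ I₀ * q :=
          mul_le_mul_of_nonneg_right (pow_le_pow_left₀ (by norm_num) h2 _) hQ0.le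
      _ = Real.exp (I₀ * (-2)) * Real.exp (Real.log q) := by
          rw [← Real.exp_nat_mul, Real.exp_log hQ0]
      _ ≤ Real.exp (Real.log q * (-5)) := by
          rw [← Real.exp_add]
          refine Real.exp_le_exp.2 ?_
          linarith
      _ = (q : ℝ) ^ (-5 : ℝ) := by rw [Real.rpow_def_of_pos hQ0]
  -- the iteration
  obtain ⟨k₁, hk₁⟩ : ∃ k₁ : ℕ, k₁ = ⌈60 * Real.log X⌉₊ := ⟨_, rfl⟩
  obtain ⟨k₃, hk₃⟩ : ∃ k₃ : ℕ, k₃ = ⌊K₃ * Real.log X⌋₊ := ⟨_, rfl⟩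
  have hX0 : 0 ≤ Real.log X := by linarith
  have hk₃' : ∀ j : ℕ, j ≤ k₃ → (j : ℝ) ≤ K₃ * Real.log X := by
    intro j hj
    rw [hk₃] at hj
    exact (Nat.le_floor_iff (by positivity)).1 hj
  have hk₁' : ∀ j : ℕ, k₁ ≤ j → 60 * Real.log X ≤ j := by
    intro j hj
    rw [hk₁] at hj
    exact Nat.ceil_le.1 hj
  have hk₁r : (k₁ : ℝ) ≤ 60 * Real.log X + 1 := by
    rw [hk₁]
    exact (Nat.ceil_lt_add_one (by positivity)).le
  have hk₃k : k ≤ k₃ := by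
    rw [hk₃]
    exact Nat.le_floor hk2
  have hI1n : 1 ≤ I₀ := by
    have h2 : (1 : ℝ) ≤ I₀ := by linarith
    exact_mod_cast h2
  have hkbig : k₁ + m * I₀ + I₀ ≤ k := by
    have h2 : ((k₁ + m * I₀ + I₀ : ℕ) : ℝ) ≤ k := by
      push_cast
      have h3 : (I₀ : ℝ) ≤ 101 * Real.log X := by linarith
      have h4 : (m : ℝ) * I₀ ≤ m * (101 * Real.log X) := mul_le_mul_of_nonneg_left h3 hm0
      have h5 : (1 : ℝ) ≤ Real.log X := by linarith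
      nlinarith
    exact_mod_cast h2
  have hit : ∀ j, k₁ + m * I₀ ≤ j → j ≤ k₃ → uB q θ B s j ≤
      (κ * (I₀ + 1)) ^ m * q + 2 * (T + 2 * κ * (1 / 8 : ℝ) ^ I₀ * q) := by
    intro j hj1 hj2
    refine iterate (fun j => uB q θ B s j) hu0 q T κ k₁ k₃ I₀ m hI1n hQ0.le hT0 hκ0.le
      (fun i hi => hH i (hk₃' i hi)) (fun i hi1 hi2 => ?_) hκI2 j hj1 hj2
    exact (hqb' i (hk₁' i hi1) (hk₃' i hi2)).1
  obtain ⟨Mx, hMx⟩ : ∃ Mx : ℝ, Mx = (κ * (I₀ + 1)) ^ m * q +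
      2 * (T + 2 * κ * (1 / 8 : ℝ) ^ I₀ * q) := ⟨_, rfl⟩
  rw [← hMx] at hit
  have hp8 : (0 : ℝ) ≤ (1 / 8 : ℝ) ^ I₀ := by positivity
  have hMx0 : 0 ≤ Mx := by
    rw [hMx]
    positivity
  have hsB : sB q θ B s I₀ k ≤ I₀ * Mx + 2 * (1 / 8 : ℝ) ^ I₀ * q := by
    unfold sB
    refine A20_sB (fun j => uB q θ B s j) I₀ k Mx q hMx0 hQ0.le (fun i hi hik => ?_)
      fun j hj => hH j (hk₃' j (hj.trans hk₃k))
    exact hit (k - i) (by omega) (by omega)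
  have hfin := (hqb' k (hk₁' k (by omega)) (hk₃' k hk₃k)).2
  have hMxk := hit k (by omega) hk₃k
  -- assembly
  have e1 : κ * sB q θ B s I₀ k ≤ Mx / 2 + 2 * ((1 / 8 : ℝ) ^ I₀ * q) := by
    calc κ * sB q θ B s I₀ k ≤ κ * (I₀ * Mx + 2 * (1 / 8 : ℝ) ^ I₀ * q) :=
          mul_le_mul_of_nonneg_left hsB hκ0.le
      _ = (κ * I₀) * Mx + κ * (2 * ((1 / 8 : ℝ) ^ I₀ * q)) := by ring
      _ ≤ 1 / 2 * Mx + 1 * (2 * ((1 / 8 : ℝ) ^ I₀ * q)) := by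
          refine add_le_add (mul_le_mul_of_nonneg_right ?_ hMx0)
            (mul_le_mul_of_nonneg_right hκ1 (by positivity))
          have : κ * I₀ ≤ κ * (I₀ + 1) := mul_le_mul_of_nonneg_left (by linarith) hκ0.le
          linarith
      _ = _ := by ring
  have e2 : Mx ≤ (q : ℝ) ^ (-4 : ℝ) + 2 * T + 4 * (q : ℝ) ^ (-5 : ℝ) := by
    have h2 : κ * ((1 / 8 : ℝ) ^ I₀ * q) ≤ 1 * (q : ℝ) ^ (-5 : ℝ) :=
      mul_le_mul hκ1 h8 (by positivity) (by norm_num)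
    rw [hMx]
    have h3 : 2 * (T + 2 * κ * (1 / 8 : ℝ) ^ I₀ * q) = 2 * T + 4 * (κ * ((1 / 8 : ℝ) ^ I₀ * q)) := by
      ring
    rw [h3]
    linarith
  have e3 : 4 * ((q : ℝ) ^ (η / 2) * w2) ≤ (q : ℝ) ^ η * w2 := by
    have h2 := hqe q (by omega)
    have h3 : (q : ℝ) ^ η = (q : ℝ) ^ (η / 2) * (q : ℝ) ^ (η / 2) := by
      rw [← Real.rpow_add hQ0]
      congr 1
      ring
    have h4 : 0 ≤ (q : ℝ) ^ (η / 2) := Real.rpow_nonneg hQ0.le _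
    rw [h3]
    calc 4 * ((q : ℝ) ^ (η / 2) * w2) = (4 * (q : ℝ) ^ (η / 2)) * w2 := by ring
      _ ≤ _ := mul_le_mul_of_nonneg_right (mul_le_mul_of_nonneg_right h2 h4) hw2
  have e4 : (q : ℝ) ^ (-3 : ℝ) = q * (q : ℝ) ^ (-4 : ℝ) := by
    have h2 : (q : ℝ) ^ (-3 : ℝ) = (q : ℝ) ^ ((1 : ℝ) + (-4 : ℝ)) := by norm_num
    rw [h2, Real.rpow_add hQ0, Real.rpow_one]
  have e5 : (q : ℝ) ^ (-5 : ℝ) ≤ (q : ℝ) ^ (-4 : ℝ) :=
    Real.rpow_le_rpow_of_exponent_le hQ1 (by norm_num)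
  have e6 : 0 < (q : ℝ) ^ (-4 : ℝ) := Real.rpow_pos_of_pos hQ0 _
  have e7 : 90 * (q : ℝ) ^ (-4 : ℝ) ≤ q * (q : ℝ) ^ (-4 : ℝ) :=
    mul_le_mul_of_nonneg_right hQ30 e6.le
  rw [hT] at e2 hfin
  rw [e4]
  linarith

end Pool.Agent.MW
end

section

set_option autoImplicit false

namespace Pool.Agent.MW

open Complex Finset MY MZ

/-- A nonempty set of classes with smaller variance. -/
lemma A22_nonempty (q : ℕ) [NeZero q] (B : Finset (ZMod q)ˣ) (b : ℝ) (h1 : 1 ≤ b)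
    (hB : (B.card : ℝ) ≤ b) : ∃ B' : Finset (ZMod q)ˣ, B'.Nonempty ∧ (B'.card : ℝ) ≤ b ∧
      ∀ x, VB q B' x ≤ VB q B x := by
  rcases B.eq_empty_or_nonempty with h | h
  · refine ⟨{1}, Finset.singleton_nonempty _, by simpa using h1, fun x => ?_⟩
    subst h
    refine (VB_le q {1} x (mB q ∅ x)).trans ?_
    unfold VB
    have e : ∀ c : (ZMod q)ˣ, (fB q ∅ c x) ^ 2 = (psiU q c x - mB q ∅ x) ^ 2 := by
      intro c
      simp [fB]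
    rw [Finset.sum_congr rfl (fun c _ => e c)]
    exact Finset.sum_le_sum_of_subset_of_nonneg (Finset.subset_univ _)
      (fun i _ _ => sq_nonneg _)
  · exact ⟨B, h, hB, fun x => le_rfl⟩

lemma A22_NZ_le (q : ℕ) [NeZero q] (θ T : ℝ) : (NZ q θ T : ℝ) ≤ q.totient := by
  classical
  have h1 : NZ q θ T ≤ Fintype.card (DirichletCharacter ℂ q) := by
    unfold NZ
    exact Finset.card_le_univ _
  rw [← Nat.card_eq_fintype_card, DirichletCharacter.card_eq_totient_of_hasEnoughRootsOfUnity] at h1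
  exact_mod_cast h1

lemma A22_int_nonneg (q : ℕ) [NeZero q] (B : Finset (ZMod q)ˣ) (θ X Y : ℝ) (hX : 1 ≤ X) :
    0 ≤ ∫ x in Set.Ioc X Y, VB q B x / x ^ (1 + 2 * θ) := by
  refine MeasureTheory.setIntegral_nonneg measurableSet_Ioc fun x hx => ?_
  exact div_nonneg (VB_nonneg q B x) (Real.rpow_nonneg (by linarith [hx.1]) _)

/-- A22. Zeros to the right of `θ` and the variance outside few classes. -/
theorem zeros_off (θ β A ε : ℝ) (hθ : 1 / 2 ≤ θ) (hθ1 : θ < 1) (hβ : β < θ / (2 - θ)) (hε : 0 < ε) :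
    ∃ (ν : ℝ) (K q₀ : ℕ), 0 < ν ∧ 1 ≤ K ∧ ∀ (q : ℕ) [NeZero q], q₀ ≤ q →
    ∀ X : ℝ, (q : ℝ) ≤ X → X ≤ (q : ℝ) ^ A →
    ∀ B : Finset (ZMod q)ˣ, (B.card : ℝ) ≤ (q : ℝ) ^ β →
    (NZ q θ ((q : ℝ) ^ ν) : ℝ)
      ≤ q.totient * (q : ℝ) ^ ε * ∫ x in Set.Ioc X (X ^ K), VB q B x / x ^ (1 + 2 * θ) := by
  have hq2 : 0 < θ / (2 - θ) := div_pos (by linarith) (by linarith)
  obtain ⟨β', hβ'⟩ : ∃ β' : ℝ, β' = max β 0 := ⟨_, rfl⟩
  have hb0 : 0 ≤ β' := hβ' ▸ le_max_right _ _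
  have hb1 : β ≤ β' := hβ' ▸ le_max_left _ _
  have hb2 : β' < θ / (2 - θ) := by rw [hβ']; exact max_lt hβ hq2
  obtain ⟨ε₀, hε₀⟩ : ∃ ε₀ : ℝ, ε₀ = min (θ / (2 - θ) - β') (1 / 10) := ⟨_, rfl⟩
  have he0 : 0 < ε₀ := by rw [hε₀]; exact lt_min (by linarith) (by norm_num)
  have he1 : ε₀ ≤ 1 / 10 := hε₀ ▸ min_le_right _ _
  have he2 : β' ≤ θ / (2 - θ) - ε₀ := by
    have : ε₀ ≤ θ / (2 - θ) - β' := hε₀ ▸ min_le_left _ _
    linarith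
  obtain ⟨η, hη⟩ : ∃ η : ℝ, η = min ε 1 / 8 := ⟨_, rfl⟩
  have hη0 : 0 < η := by rw [hη]; have := lt_min hε one_pos; positivity
  have hη3 : 8 * η = min ε 1 := by rw [hη]; ring
  have hη1 : 8 * η ≤ ε := hη3 ▸ min_le_left ε 1
  have hη2 : 8 * η ≤ 1 := hη3 ▸ min_le_right ε 1
  clear hη hη3
  obtain ⟨A', hA'⟩ : ∃ A' : ℝ, A' = max A 1 := ⟨_, rfl⟩
  have hA1 : 1 ≤ A' := hA' ▸ le_max_right _ _
  have hA2 : A ≤ A' := hA' ▸ le_max_left _ _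
  obtain ⟨C₂, hC₂, hen0⟩ := energy θ ε₀ hθ hθ1 he0 he1
  obtain ⟨K₃', ν₁, q₁, -, hν₁, -, hlow⟩ := lower θ A' C₂ η hθ hθ1 hA1 (by linarith) hη0
  obtain ⟨δ, ν₂, T₀, hδ, hν₂, -, hT₀, K₁, q₂, hK₁, hen⟩ :=
    hen0 A' (max K₃' C₂) η hA1 (le_max_right _ _) hη0
  obtain ⟨ν₃, K₀, q₃, hν₃, -, -, hzf⟩ := zf_box θ β' A' δ hθ hθ1 hb2 hA1 hδ
  obtain ⟨ν, hν⟩ : ∃ ν : ℝ, ν = min ν₁ (min ν₂ ν₃) / 2 := ⟨_, rfl⟩
  have hν0 : 0 < ν := by
    rw [hν]; have := lt_min hν₁ (lt_min hν₂ hν₃); positivity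
  have hνe : 2 * ν = min ν₁ (min ν₂ ν₃) := by rw [hν]; ring
  have hνa : 2 * ν ≤ ν₁ := hνe ▸ min_le_left _ _
  have hνb : 2 * ν ≤ ν₂ := hνe ▸ (min_le_right _ _).trans (min_le_left _ _)
  have hνc : 2 * ν ≤ ν₃ := hνe ▸ (min_le_right _ _).trans (min_le_right _ _)
  clear hν hνe
  have hlim : ∀ᶠ q : ℕ in Filter.atTop, (2 : ℝ) < (q : ℝ) ^ (6 * η) :=
    ((tendsto_rpow_atTop (by positivity : 0 < 6 * η)).comp
      tendsto_natCast_atTop_atTop).eventually_gt_atTop 2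
  have hlim2 : ∀ᶠ q : ℕ in Filter.atTop, 7 + T₀ < (q : ℝ) ^ ν :=
    ((tendsto_rpow_atTop hν0).comp
      tendsto_natCast_atTop_atTop).eventually_gt_atTop (7 + T₀)
  obtain ⟨q₄, hq₄⟩ := Filter.eventually_atTop.1 hlim
  obtain ⟨q₅, hq₅⟩ := Filter.eventually_atTop.1 hlim2
  refine ⟨ν, max K₁ K₀, max (max (max q₁ q₂) (max q₃ q₄)) (max q₅ 3), hν0,
    hK₁.trans (le_max_left _ _), ?_⟩
  intro q _ hq X hX1 hX2 B hB
  have hqa : q₁ ≤ q :=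
    (le_max_left _ _).trans ((le_max_left _ _).trans ((le_max_left _ _).trans hq))
  have hqb : q₂ ≤ q :=
    (le_max_right _ _).trans ((le_max_left _ _).trans ((le_max_left _ _).trans hq))
  have hqc : q₃ ≤ q :=
    (le_max_left _ _).trans ((le_max_right _ _).trans ((le_max_left _ _).trans hq))
  have hqd : q₄ ≤ q :=
    (le_max_right _ _).trans ((le_max_right _ _).trans ((le_max_left _ _).trans hq))
  have hqe : q₅ ≤ q := (le_max_left _ _).trans ((le_max_right _ _).trans hq)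
  have hqf : 3 ≤ q := (le_max_right _ _).trans ((le_max_right _ _).trans hq)
  have hq3 : (3 : ℝ) ≤ q := by exact_mod_cast hqf
  have hq1 : (1 : ℝ) ≤ q := by linarith
  have hq0 : (0 : ℝ) < q := by linarith
  have hX : 1 ≤ X := hq1.trans hX1
  have hlX : 0 ≤ Real.log X := Real.log_nonneg hX
  have hXA : X ≤ (q : ℝ) ^ A' := hX2.trans (Real.rpow_le_rpow_of_exponent_le hq1 hA2)
  have hφ : (0 : ℝ) < q.totient := by
    exact_mod_cast Nat.totient_pos.2 (NeZero.pos q)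
  have hφq : (q.totient : ℝ) ≤ q := by exact_mod_cast Nat.totient_le q
  obtain ⟨I, hI⟩ : ∃ I : ℝ, I = ∫ x in Set.Ioc X (X ^ (max K₁ K₀)),
    VB q B x / x ^ (1 + 2 * θ) := ⟨_, rfl⟩
  rw [← hI]
  have hI0 : 0 ≤ I := hI ▸ A22_int_nonneg q B θ X _ hX
  obtain ⟨N, hN⟩ : ∃ N : ℝ, N = (NZ q θ ((q : ℝ) ^ ν) : ℝ) := ⟨_, rfl⟩
  rw [← hN]
  rcases Nat.eq_zero_or_pos (NZ q θ ((q : ℝ) ^ ν)) with hz | hz
  · rw [hN, hz, Nat.cast_zero]
    exact mul_nonneg (mul_nonneg hφ.le (Real.rpow_nonneg hq0.le _)) hI0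
  have hN1 : 1 ≤ N := by rw [hN]; exact_mod_cast hz
  have hNφ : N ≤ q.totient := hN ▸ A22_NZ_le q θ _
  have hqε : (q : ℝ) ^ ε * (q : ℝ) ^ (-ε) = 1 := by
    rw [← Real.rpow_add hq0, add_neg_cancel, Real.rpow_zero]
  have hqε0 : 0 < (q : ℝ) ^ ε := Real.rpow_pos_of_pos hq0 _
  rcases le_or_gt ((q : ℝ) ^ (-ε)) I with hIl | hIl
  · calc N ≤ q.totient := hNφ
      _ = q.totient * ((q : ℝ) ^ ε * (q : ℝ) ^ (-ε)) := by rw [hqε, mul_one]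
      _ = q.totient * (q : ℝ) ^ ε * (q : ℝ) ^ (-ε) := by ring
      _ ≤ _ := mul_le_mul_of_nonneg_left hIl (mul_nonneg hφ.le hqε0.le)
  by_contra hcon
  rw [not_le] at hcon
  have hb : (1 : ℝ) ≤ (q : ℝ) ^ β' := Real.one_le_rpow hq1 hb0
  obtain ⟨B', hBn, hBc, hBV⟩ := A22_nonempty q B ((q : ℝ) ^ β') hb
    (hB.trans (Real.rpow_le_rpow_of_exponent_le hq1 hb1))
  have hw : ∫ x in Set.Ioc X (X ^ (max K₁ K₀)), VB q B' x / x ^ (1 + 2 * θ) ≤ I := by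
    rw [hI]
    refine MeasureTheory.setIntegral_mono_on (MW.VB_int q B' θ hθ X _ hX)
      (MW.VB_int q B θ hθ X _ hX) measurableSet_Ioc ?_
    intro x hx
    exact div_le_div_of_nonneg_right (hBV x) (Real.rpow_nonneg (by linarith [hx.1]) _)
  have hw1 : (q : ℝ) ^ (-ε) ≤ 1 := Real.rpow_le_one_of_one_le_of_nonpos hq1 (by linarith only [hε])
  have hQ : (q : ℝ) ^ ν * (q : ℝ) ^ ν = (q : ℝ) ^ (2 * ν) := by
    rw [← Real.rpow_add hq0]; ring_nf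
  have hν7 : 7 + T₀ < (q : ℝ) ^ ν := hq₅ q hqe
  have hbig : (q : ℝ) ^ ν + (6 + T₀) ≤ (q : ℝ) ^ (2 * ν) := by
    rw [← hQ]
    nlinarith only [hν7, hT₀]
  have hT6 : (q : ℝ) ^ ν + 6 ≤ (q : ℝ) ^ ν₁ := by
    have := Real.rpow_le_rpow_of_exponent_le hq1 hνa
    linarith only [this, hbig, hT₀]
  have hT5 : (q : ℝ) ^ ν + 3 + 2 ≤ (q : ℝ) ^ ν₂ := by
    have := Real.rpow_le_rpow_of_exponent_le hq1 hνb
    linarith only [this, hbig, hT₀]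
  have hT3 : (q : ℝ) ^ ν + 3 + T₀ ≤ (q : ℝ) ^ ν₃ := by
    have := Real.rpow_le_rpow_of_exponent_le hq1 hνc
    linarith only [this, hbig, hT₀]
  have hν00 : 0 ≤ (q : ℝ) ^ ν := Real.rpow_nonneg hq0.le _
  have hZ0 : ZFB q (θ - 1 / 2 + δ) ((q : ℝ) ^ ν₃) := hzf q hqc X hX1 hXA B' hBn hBc _
    (pow_le_pow_right₀ hX (le_max_right _ _))
    (hw.trans (hIl.le.trans (hw1.trans (by norm_num))))
  have hZ : ZFB q (θ - 1 / 2 + δ) ((q : ℝ) ^ ν + 3 + T₀) := fun χ hχ s hs1 hs2 =>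
    hZ0 χ hχ s hs1 (hs2.trans hT3)
  obtain ⟨s, hs1, hs2, k, hk1, hk2, hk3⟩ := hlow q hqa X hX1 hXA ((q : ℝ) ^ ν) hν00 hT6 hz
  have hE := hen q hqb ((q : ℝ) ^ ν + 3) (by linarith only [hν00]) hT5 hZ X hX1 hXA B' hBn
    (hBc.trans (Real.rpow_le_rpow_of_exponent_le hq1 he2)) _
    (pow_le_pow_right₀ hX (le_max_left _ _)) I hI0 hw s hs1 hs2 k hk1
    (hk2.trans (mul_le_mul_of_nonneg_right (le_max_left _ _) hlX))
  have h1 := hk3.trans hE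
  rw [← hN] at h1
  obtain ⟨y, hy⟩ : ∃ y : ℝ, y = N / q.totient := ⟨_, rfl⟩
  rw [← hy] at h1
  have hyN : N = q.totient * y := by rw [hy]; field_simp
  have hy1 : 1 ≤ q * y := by
    calc (1 : ℝ) ≤ N := hN1
      _ = q.totient * y := hyN
      _ ≤ q * y := mul_le_mul_of_nonneg_right hφq (by rw [hy]; positivity)
  have hy0 : 0 < y := by rw [hy]; positivity
  have hIy : (q : ℝ) ^ ε * I < y := by
    rw [hyN, mul_assoc] at hcon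
    exact lt_of_mul_lt_mul_left hcon hφ.le
  have hpow : (q : ℝ) ^ (8 * η) * I ≤ y :=
    (mul_le_mul_of_nonneg_right (Real.rpow_le_rpow_of_exponent_le hq1 hη1) hI0).trans hIy.le
  -- multiply by `q ^ (7 η)`
  have h2 : (q : ℝ) ^ (7 * η) * ((q : ℝ) ^ (-η) * y)
      ≤ (q : ℝ) ^ (7 * η) * ((q : ℝ) ^ η * I + (q : ℝ) ^ (-3 : ℝ)) :=
    mul_le_mul_of_nonneg_left h1 (Real.rpow_nonneg hq0.le _)
  have h3 : (q : ℝ) ^ (7 * η) * ((q : ℝ) ^ (-η) * y) = (q : ℝ) ^ (6 * η) * y := by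
    rw [← mul_assoc, ← Real.rpow_add hq0]; congr 2; ring
  have h4 : (q : ℝ) ^ (7 * η) * ((q : ℝ) ^ η * I + (q : ℝ) ^ (-3 : ℝ))
      = (q : ℝ) ^ (8 * η) * I + (q : ℝ) ^ (7 * η - 3) := by
    rw [mul_add, ← mul_assoc, ← Real.rpow_add hq0, ← Real.rpow_add hq0]
    congr 3; ring
  rw [h3, h4] at h2
  have h5 : (q : ℝ) ^ (7 * η - 3) ≤ (q : ℝ) ^ (-2 : ℝ) :=
    Real.rpow_le_rpow_of_exponent_le hq1 (by linarith only [hη2, hη0])
  have h6 : (2 : ℝ) < (q : ℝ) ^ (6 * η) := hq₄ q hqd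
  have h7 : y ≤ (q : ℝ) ^ (-2 : ℝ) := by
    nlinarith only [h2, h5, h6, hpow, hy0]
  have h8 : (q : ℝ) * (q : ℝ) ^ (-2 : ℝ) = (q : ℝ)⁻¹ := by
    rw [← Real.rpow_one_add' hq0.le (by norm_num)]
    norm_num [Real.rpow_neg_one]
  have h9 : 1 ≤ (q : ℝ)⁻¹ := by
    rw [← h8]
    exact hy1.trans (mul_le_mul_of_nonneg_left h7 hq0.le)
  have h10 : (q : ℝ)⁻¹ < 1 := inv_lt_one_of_one_lt₀ (by linarith)
  linarith

end Pool.Agent.MW
end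

section

set_option autoImplicit false

namespace Pool.Agent.MW

open Complex Finset MY MZ

/-- The number of zeros in a box of height at most `q`. -/
lemma A25_box : ∃ (C : ℝ) (q₁ : ℕ), 1 ≤ C ∧ ∀ (q : ℕ) [NeZero q], q₁ ≤ q →
    ∀ (χ : DirichletCharacter ℂ q) (σ T : ℝ), 1 / 2 ≤ σ → 0 ≤ T → T ≤ q →
    ∑ ρ ∈ TS.Zf χ σ T, TS.mu χ ρ ≤ (2 * T + 2) * (C * Real.log q) := by
  classical
  obtain ⟨C, X₁, hC, h⟩ := TS.box_count 1
  refine ⟨C, ⌈X₁⌉₊ + 1, hC, fun q _ hq χ σ T hσ hT hTq => ?_⟩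
  have hqX : X₁ ≤ q := by
    have h1 : X₁ ≤ (⌈X₁⌉₊ : ℝ) := Nat.le_ceil _
    have h2 : ((⌈X₁⌉₊ : ℕ) : ℝ) ≤ q := by exact_mod_cast (by omega : ⌈X₁⌉₊ ≤ q)
    linarith
  have hq1 : (1 : ℝ) ≤ q := by exact_mod_cast (by omega : 1 ≤ q)
  have hlog : 0 ≤ Real.log q := Real.log_nonneg hq1
  obtain ⟨N, hN⟩ : ∃ N : ℕ, N = ⌊2 * T + 1 / 2⌋₊ := ⟨_, rfl⟩
  have hNT : (N : ℝ) ≤ 2 * T + 1 / 2 := by rw [hN]; exact Nat.floor_le (by linarith)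
  have hpos : ∀ ρ, 0 ≤ TS.mu χ ρ := fun ρ => TS.mu_nonneg χ ρ
  calc ∑ ρ ∈ TS.Zf χ σ T, TS.mu χ ρ
      ≤ ∑ ρ ∈ TS.Zf χ σ T, ∑ j ∈ range (N + 1), (if |ρ.im - (-T + j)| ≤ 1 / 2 then TS.mu χ ρ
          else 0) := by
        refine Finset.sum_le_sum fun ρ hρ => ?_
        rw [TS.mem_Zf] at hρ
        have h1 := abs_le.mp hρ.2.2
        have h2 : 0 ≤ ρ.im + T + 1 / 2 := by linarith [h1.1]
        have h3 : ⌊ρ.im + T + 1 / 2⌋₊ ∈ range (N + 1) := by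
          rw [Finset.mem_range, Nat.lt_succ_iff, hN]
          exact Nat.floor_le_floor (by linarith [h1.2])
        have h4 := Nat.floor_le h2
        have h5 := Nat.lt_floor_add_one (ρ.im + T + 1 / 2)
        have h6 : ∀ j ∈ range (N + 1), 0 ≤ (if |ρ.im - (-T + (j : ℝ))| ≤ 1 / 2 then TS.mu χ ρ
          else 0) := by
          intro j _
          split_ifs
          · exact hpos ρ
          · exact le_rfl
        refine le_trans ?_ (Finset.single_le_sum h6 h3)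
        rw [if_pos (by rw [abs_le]; constructor <;> linarith)]
    _ = ∑ j ∈ range (N + 1), ∑ ρ ∈ TS.Zf χ σ T, (if |ρ.im - (-T + j)| ≤ 1 / 2 then TS.mu χ ρ
          else 0) := Finset.sum_comm
    _ ≤ ∑ _j ∈ range (N + 1), C * Real.log q := by
        refine Finset.sum_le_sum fun j hj => ?_
        rw [← Finset.sum_filter]
        have hj1 : (j : ℝ) ≤ N := by exact_mod_cast Nat.lt_succ_iff.mp (Finset.mem_range.mp hj)
        have hj0 : (0 : ℝ) ≤ j := Nat.cast_nonneg j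
        refine h q q le_rfl hqX χ (-T + j) ?_ _ ?_
        · rw [pow_one, abs_le]
          constructor <;> linarith
        · intro ρ hρ
          rw [Finset.mem_filter, TS.mem_Zf] at hρ
          exact ⟨hρ.1.1, by linarith [hρ.1.2.1], hρ.2⟩
    _ = ((N : ℝ) + 1) * (C * Real.log q) := by
        rw [Finset.sum_const, card_range, nsmul_eq_mul]
        push_cast
        ring
    _ ≤ (2 * T + 2) * (C * Real.log q) := by
        refine mul_le_mul_of_nonneg_right (by linarith) (by positivity)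

/-- The zeros by their distance to the line `Re s = θ`. -/
lemma A25_split {q : ℕ} [NeZero q] (χ : DirichletCharacter ℂ q) {X σ δ T : ℝ} {N : ℕ}
    (hX : 1 ≤ X) (hσ : 1 / 2 ≤ σ) (hδ : 0 < δ) (hN : 1 / δ ≤ N) :
    ∑ ρ ∈ TS.Zf χ σ T, TS.mu χ ρ * X ^ (2 * (ρ.re - σ))
      ≤ ∑ i ∈ Finset.range (N + 1), X ^ (2 * (i * δ) + 2 * δ) *
          ∑ ρ ∈ TS.Zf χ (σ + i * δ) T, TS.mu χ ρ := by
  classical
  have hX0 : 0 < X := by linarith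
  have hpos : ∀ ρ : ℂ, 0 ≤ TS.mu χ ρ := fun ρ => TS.mu_nonneg χ ρ
  calc ∑ ρ ∈ TS.Zf χ σ T, TS.mu χ ρ * X ^ (2 * (ρ.re - σ))
      ≤ ∑ ρ ∈ TS.Zf χ σ T, ∑ i ∈ Finset.range (N + 1), (if σ + i * δ ≤ ρ.re then
          X ^ (2 * (i * δ) + 2 * δ) * TS.mu χ ρ else 0) := by
        refine Finset.sum_le_sum fun ρ hρ => ?_
        rw [TS.mem_Zf] at hρ
        have hre := TS.Zf_re_lt χ ρ hρ.1
        have h0 : 0 ≤ (ρ.re - σ) / δ := div_nonneg (by linarith [hρ.2.1]) hδ.le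
        have h1 : (⌊(ρ.re - σ) / δ⌋₊ : ℝ) ≤ (ρ.re - σ) / δ := Nat.floor_le h0
        have h2 : (ρ.re - σ) / δ < ⌊(ρ.re - σ) / δ⌋₊ + 1 := Nat.lt_floor_add_one _
        rw [le_div_iff₀ hδ] at h1
        have h2' := (div_lt_iff₀ hδ).1 h2
        have h3 : ⌊(ρ.re - σ) / δ⌋₊ ∈ Finset.range (N + 1) := by
          rw [Finset.mem_range, Nat.lt_succ_iff]
          have h4 : (⌊(ρ.re - σ) / δ⌋₊ : ℝ) ≤ (N : ℝ) := by
            refine le_trans ?_ hN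
            rw [le_div_iff₀ hδ]
            linarith
          exact_mod_cast h4
        have h5 : ∀ i ∈ Finset.range (N + 1), 0 ≤ (if σ + (i : ℝ) * δ ≤ ρ.re then
            X ^ (2 * ((i : ℝ) * δ) + 2 * δ) * TS.mu χ ρ else 0) := by
          intro i _
          split_ifs
          · exact mul_nonneg (Real.rpow_nonneg hX0.le _) (hpos ρ)
          · exact le_rfl
        refine le_trans ?_ (Finset.single_le_sum h5 h3)
        rw [if_pos (by linarith)]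
        have h6 : X ^ (2 * (ρ.re - σ)) ≤ X ^ (2 * ((⌊(ρ.re - σ) / δ⌋₊ : ℝ) * δ) + 2 * δ) :=
          Real.rpow_le_rpow_of_exponent_le hX (by linarith)
        rw [mul_comm]
        exact mul_le_mul_of_nonneg_right h6 (hpos ρ)
    _ = ∑ i ∈ Finset.range (N + 1), ∑ ρ ∈ TS.Zf χ σ T, (if σ + i * δ ≤ ρ.re then
          X ^ (2 * (i * δ) + 2 * δ) * TS.mu χ ρ else 0) := Finset.sum_comm
    _ ≤ ∑ i ∈ Finset.range (N + 1), X ^ (2 * (i * δ) + 2 * δ) *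
          ∑ ρ ∈ TS.Zf χ (σ + i * δ) T, TS.mu χ ρ := by
        refine Finset.sum_le_sum fun i _ => ?_
        rw [← Finset.sum_filter, Finset.mul_sum]
        refine Finset.sum_le_sum_of_subset_of_nonneg ?_ fun ρ _ _ =>
          mul_nonneg (Real.rpow_nonneg hX0.le _) (hpos ρ)
        intro ρ hρ
        rw [Finset.mem_filter, TS.mem_Zf] at hρ
        rw [TS.mem_Zf]
        exact ⟨hρ.1.1, hρ.2, hρ.1.2.2⟩

/-- The zeros to the right of `θ` with multiplicity, from the number of characters. -/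
lemma A25_count (q : ℕ) [NeZero q] (σ T D : ℝ) (hD : 0 ≤ D)
    (h : ∀ χ : DirichletCharacter ℂ q, ∑ ρ ∈ TS.Zf χ σ T, TS.mu χ ρ ≤ D) :
    ∑ χ ∈ nt q, ∑ ρ ∈ TS.Zf χ σ T, TS.mu χ ρ ≤ D * NZ q σ T := by
  classical
  unfold NZ
  rw [← Finset.sum_filter_add_sum_filter_not (nt q)
    (fun χ => ∃ s : ℂ, σ ≤ s.re ∧ s.re < 1 ∧ |s.im| ≤ T ∧ χ.LFunction s = 0)]
  have h1 : ∑ χ ∈ (nt q).filter (fun χ => ∃ s : ℂ, σ ≤ s.re ∧ s.re < 1 ∧ |s.im| ≤ T ∧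
      χ.LFunction s = 0), ∑ ρ ∈ TS.Zf χ σ T, TS.mu χ ρ
      ≤ D * ((nt q).filter (fun χ => ∃ s : ℂ, σ ≤ s.re ∧ s.re < 1 ∧ |s.im| ≤ T ∧
      χ.LFunction s = 0)).card := by
    refine (Finset.sum_le_sum fun χ _ => h χ).trans ?_
    rw [Finset.sum_const, nsmul_eq_mul]
    exact le_of_eq (mul_comm _ _)
  have h2 : ∑ χ ∈ (nt q).filter (fun χ => ¬ ∃ s : ℂ, σ ≤ s.re ∧ s.re < 1 ∧ |s.im| ≤ T ∧
      χ.LFunction s = 0), ∑ ρ ∈ TS.Zf χ σ T, TS.mu χ ρ = 0 := by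
    refine Finset.sum_eq_zero fun χ hχ => ?_
    refine Finset.sum_eq_zero fun ρ hρ => ?_
    rw [Finset.mem_filter] at hχ
    rw [TS.mem_Zf_iff] at hρ
    exact absurd ⟨ρ, hρ.2.1, hρ.2.2.1, hρ.2.2.2, hρ.1⟩ hχ.2
  rw [h2, add_zero]
  exact h1

end Pool.Agent.MW
end

section

set_option autoImplicit false

namespace Pool.Agent.MW

open Complex Finset MY MZ

/-- A23. Many characters have a low zero on or to the right of the line. -/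
lemma NZ_half : ∃ q₀ : ℕ, ∀ (q : ℕ) [NeZero q], q₀ ≤ q → ∀ T : ℝ, 2 ≤ T →
    (q.totient : ℝ) / 4 ≤ NZ q (1 / 2) T := by
  classical
  obtain ⟨q₀, h⟩ := many_zeros
  refine ⟨q₀, fun q _ hq T hT => ?_⟩
  obtain ⟨S, hS1, hS2⟩ := h q hq
  refine hS1.trans ?_
  unfold NZ
  norm_cast
  refine Finset.card_le_card fun χ hχ => ?_
  obtain ⟨h1, ρ, h2, h3, h4, h5⟩ := hS2 χ hχ
  rw [Finset.mem_filter]
  exact ⟨(mem_nt q χ).mpr h1, ρ, h3, h4, by linarith, h2⟩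

end Pool.Agent.MW
end
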