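import Mathlib
import Pool.Agent.Lib.MP_9cfc0a_nt.Mg.G023
import Pool.Agent.Lib.MP_9cfc0a_nt.Mg.G037
import Pool.Agent.Lib.MP_9cfc0a_nt.Mg.G039
import Pool.Agent.Lib.MP_9cfc0a_nt.Mg.G038
import Pool.Agent.Lib.MP_9cfc0a_nt.Mg.G031
import Pool.Agent.Lib.MP_9cfc0a_nt.Mg.G027
import Pool.Agent.Lib.MP_9cfc0a_nt.Mg.G045
import Pool.Agent.Lib.MP_9cfc0a_nt.MZ.E1
import Pool.Agent.Lib.MP_9cfc0a_nt.Mg.G040
import Pool.Agent.Lib.MP_9cfc0a_nt.MY.C3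
import Pool.Agent.Lib.MP_9cfc0a_nt.MZ.Z2
import Pool.Agent.Lib.MP_9cfc0a_nt.MY.L2
import Pool.Agent.Lib.MP_9cfc0a_nt.MY.A2

section

set_option autoImplicit false

namespace Pool.Agent.MZ

open Complex Finset MY

lemma E5_big (c M : ℝ) (hc : 0 < c) : ∃ q₀ : ℕ, ∀ q : ℕ, q₀ ≤ q → M ≤ (q : ℝ) ^ c := by
  have h := ((tendsto_rpow_atTop hc).comp
    (tendsto_natCast_atTop_atTop (R := ℝ))).eventually_ge_atTop M
  obtain ⟨q₀, hq₀⟩ := Filter.eventually_atTop.1 h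
  exact ⟨q₀, fun q hq => hq₀ q hq⟩

lemma E5_num1 (η : ℝ) (hη : 0 < η) :
    ∃ q₀ : ℕ, ∀ q : ℕ, q₀ ≤ q → 3 * (q : ℝ) ^ (η / 8) + 72 ≤ (q : ℝ) ^ η := by
  obtain ⟨q₀, h⟩ := E5_big (η / 8) 75 (by positivity)
  refine ⟨q₀, fun q hq => ?_⟩
  have h1 := h q hq
  have hq0 : (0 : ℝ) ≤ q := Nat.cast_nonneg q
  have h2 : (q : ℝ) ^ η = ((q : ℝ) ^ (η / 8)) ^ 8 := by
    rw [← Real.rpow_natCast, ← Real.rpow_mul hq0]
    congr 1
    push_cast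
    ring
  rw [h2]
  set x : ℝ := (q : ℝ) ^ (η / 8) with hx
  have h3 : x ^ 2 ≤ x ^ 8 := pow_le_pow_right₀ (by linarith) (by norm_num)
  nlinarith

lemma E5_num2 (ε : ℝ) (hε : 0 < ε) :
    ∃ q₀ : ℕ, ∀ q : ℕ, q₀ ≤ q → 8 * (q : ℝ) ^ (-(ε / 4)) ≤ (q : ℝ) ^ (-(ε / 8)) := by
  obtain ⟨q₀, h⟩ := E5_big (ε / 8) 8 (by positivity)
  refine ⟨max 1 q₀, fun q hq => ?_⟩
  have h1 := h q ((le_max_right _ _).trans hq)
  have hq0 : (0 : ℝ) < q := by exact_mod_cast (lt_of_lt_of_le one_pos ((le_max_left _ _).trans hq))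
  have h2 : (q : ℝ) ^ (-(ε / 8)) = (q : ℝ) ^ (ε / 8) * (q : ℝ) ^ (-(ε / 4)) := by
    rw [← Real.rpow_add hq0]
    congr 1
    ring
  rw [h2]
  exact mul_le_mul_of_nonneg_right h1 (Real.rpow_nonneg hq0.le _)

lemma E5_sq3 (x a b c t : ℝ) (hx : 0 ≤ x) (ht : 0 ≤ t) (h : x ≤ a + b + c) :
    (x * t) ^ 2 ≤ 3 * ((a * t) ^ 2 + (b * t) ^ 2 + (c * t) ^ 2) := by
  have h1 : (x * t) ^ 2 ≤ ((a + b + c) * t) ^ 2 :=
    pow_le_pow_left₀ (mul_nonneg hx ht) (mul_le_mul_of_nonneg_right h ht) 2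
  nlinarith [sq_nonneg (a * t - b * t), sq_nonneg (a * t - c * t), sq_nonneg (b * t - c * t)]

lemma E5_sq2 (x a b t : ℝ) (hx : 0 ≤ x) (ht : 0 ≤ t) (h : x ≤ a + b) :
    (x * t) ^ 2 ≤ 2 * (a * t) ^ 2 + 2 * (b * t) ^ 2 := by
  have h1 : (x * t) ^ 2 ≤ ((a + b) * t) ^ 2 :=
    pow_le_pow_left₀ (mul_nonneg hx ht) (mul_le_mul_of_nonneg_right h ht) 2
  nlinarith [sq_nonneg (a * t - b * t)]

lemma E5_Fn_one (q : ℕ) [NeZero q] (B : Finset (ZMod q)ˣ) (X Y : ℝ) (s : ℂ) (k : ℕ)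
    (c : (ZMod q)ˣ) : Fn q B X Y s k c 1 = Fj q B X Y s k c := by
  unfold Fn
  rw [Finset.sum_eq_single 0]
  · rw [Nat.cast_one, gi_one, if_pos rfl, one_mul, Nat.sub_zero]
  · intro i _ hi
    rw [Nat.cast_one, gi_one, if_neg hi, zero_mul]
  · intro h
    exact absurd (Finset.mem_range.mpr (Nat.succ_pos k)) h

/-- E5. The energy in a zero free region. -/
theorem energy (ε₀ A K₃ η : ℝ) (h0 : 0 < ε₀) (h1 : ε₀ ≤ 1 / 10) (hA : 1 ≤ A) (hK : 60 ≤ K₃)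
    (hη : 0 < η) : ∃ δ T : ℝ, 0 < δ ∧ 0 ≤ T ∧ ∃ K q₀ : ℕ, 1 ≤ K ∧
    ∀ (q : ℕ) [NeZero q], q₀ ≤ q → ZFB q δ T →
    ∀ X : ℝ, (q : ℝ) ≤ X → X ≤ (q : ℝ) ^ A → ∀ B : Finset (ZMod q)ˣ, B.Nonempty →
    (B.card : ℝ) ≤ (q : ℝ) ^ (1 / 3 - ε₀) → ∀ Y : ℝ, X ^ K ≤ Y → ∀ w2 : ℝ, 0 ≤ w2 →
    ∫ x in Set.Ioc X Y, VB q B x / x ^ 2 ≤ w2 → ∀ s : ℂ, s.re = 2 → ‖s‖ ≤ 3 →
    ∀ k : ℕ, 60 * Real.log X ≤ k → (k : ℝ) ≤ K₃ * Real.log X →
    ∑ a : (ZMod q)ˣ, (‖Dk q s k a‖ * (3 / 2 : ℝ) ^ k) ^ 2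
      ≤ (q : ℝ) ^ η * w2 + (q : ℝ) ^ (-(ε₀ / 8)) := by
  have hK1 : 1 ≤ K₃ := by linarith
  obtain ⟨κ, hκ⟩ : ∃ κ : ℕ, 12 + A * K₃ ≤ ε₀ / 40 * κ := by
    obtain ⟨n, hn⟩ := exists_nat_ge ((12 + A * K₃) / (ε₀ / 40))
    refine ⟨n, ?_⟩
    rw [div_le_iff₀ (by positivity)] at hn
    linarith
  obtain ⟨C₁, hC₁, hrow⟩ := row κ
  obtain ⟨δa, hδa, hδa1, hE0⟩ := MDb A K₃ (ε₀ / 16) hA hK1 (by positivity)
  obtain ⟨δb, T₀, hδb, hδb1, hT₀, hE1⟩ := XB ε₀ A K₃ (η / 8) h0 h1 hA hK1 (by positivity)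
  obtain ⟨qa, hqa⟩ := hE0 (min δa δb) (lt_min hδa hδb) (min_le_left _ _)
  obtain ⟨qb, hqb⟩ := hE1 (min δa δb) (lt_min hδa hδb) (min_le_right _ _)
  obtain ⟨qc, hqc⟩ := QB ε₀ A K₃ h0 h1 hA hK1
  obtain ⟨K, qd, hKpos, hqd⟩ := RB ε₀ A K₃ C₁ κ h0 h1 hA hK1 hC₁ hκ
  obtain ⟨Cw, qw, hCw, hqw⟩ := weights (1 / 2) ε₀ le_rfl (by norm_num) h0 h1
  obtain ⟨qe, hqe⟩ := E5_num1 η hη
  obtain ⟨qf, hqf⟩ := E5_num2 ε₀ h0
  refine ⟨min δa δb, T₀, lt_min hδa hδb, by linarith, K,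
    9 + (qa + (qb + (qc + (qd + (qw + (qe + qf)))))), hKpos, ?_⟩
  intro q _ hq hZ X hqX hXA B hBne hBc Y hY w2 hw2 hint s hs hsS k hk60 hkK
  have hq9 : 9 ≤ q := by omega
  have hQ9 : (9 : ℝ) ≤ q := by exact_mod_cast hq9
  have hQ0 : (0 : ℝ) < q := by linarith
  have hX1 : 1 ≤ X := by linarith
  have hlogX : 1 ≤ Real.log X := by
    rw [Real.le_log_iff_exp_le (by linarith)]
    have := Real.exp_one_lt_d9
    linarith
  have hk1 : 1 ≤ k := by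
    have : (1 : ℝ) ≤ k := by linarith
    exact_mod_cast this
  have hXY : X ≤ Y := (le_self_pow₀ hX1 (by omega)).trans hY
  have hU1 : 1 ≤ UU q ε₀ := Real.one_le_rpow (by linarith) (by linarith)
  have hUN : 2 * UU q ε₀ ≤ (NN q ε₀ : ℝ) := Nat.le_ceil _
  have hZ1 : 1 ≤ ZZ q ε₀ := Real.one_le_rpow (by linarith) (by linarith)
  -- the mean square
  have hZ6 : ZFB q (min δa δb) 6 := fun χ hχ z hz hz6 => hZ χ hχ z hz (by linarith)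
  have hMD : ∀ j ≤ k, ∑ a : (ZMod q)ˣ, ‖Dk q s j a‖ ^ 2
      ≤ ((q : ℝ) ^ (ε₀ / 16) * (2 / 3 : ℝ) ^ j) ^ 2 := by
    intro j hj
    refine hqa q (by omega) hZ6 X hqX hXA s hs hsS j ?_
    have : (j : ℝ) ≤ k := by exact_mod_cast hj
    linarith
  have h4B : 4 * (B.card : ℝ) ≤ q.totient := by
    refine (hqw q (by omega) B hBne ?_ 1).1
    refine hBc.trans (le_of_eq ?_)
    congr 1
    norm_num
  set MD : ℝ := (q : ℝ) ^ (ε₀ / 16) with hMDdef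
  have hMD0 : 0 ≤ MD := Real.rpow_nonneg hQ0.le _
  have hRb0 : ∀ n : ℕ, 0 ≤ Rbf q B MD Y k n := by
    intro n
    have hY0 : 0 ≤ Y := by linarith
    have hYn : 0 ≤ Y ^ (-(1 / 2) : ℝ) := Real.rpow_nonneg hY0 _
    unfold Rbf
    positivity
  have hsize := C3_size q X (ε₀ / 40) hQ9 hqX (by positivity) (by linarith)
  have hoff : ∀ n, 1 ≤ n → n ≤ q * NN q ε₀ → ∀ c ∉ B,
      ‖Dn q s k c n - Fn q B X Y s k c n‖ ≤ Rbf q B MD Y k n := by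
    intro n hn1 hn2 c hc
    have hnr : (1 : ℝ) ≤ n := by exact_mod_cast hn1
    have hkX : 12 * Real.log (n * X) ≤ k := by
      have h2 : (n : ℝ) * X ≤ (q : ℝ) * ((⌈2 * (q : ℝ) ^ (1 + ε₀ / 40)⌉₊ : ℕ) : ℝ) * X := by
        refine mul_le_mul_of_nonneg_right ?_ (by linarith)
        have : (n : ℝ) ≤ ((q * NN q ε₀ : ℕ) : ℝ) := by exact_mod_cast hn2
        rw [Nat.cast_mul] at this
        exact this
      have h3 := Real.log_le_log (by positivity) h2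
      linarith
    have hd := decomp q B X Y hX1 hXY s hs 3 (by norm_num) hsS k n hk1 hn1 hkX c hc
    have hm := mean_bound q s hs B h4B MD hMD0 k n hn1 hMD
    calc ‖Dn q s k c n - Fn q B X Y s k c n‖
        = ‖(Dn q s k c n - Fn q B X Y s k c n
            - (∑ c' ∈ Bᶜ, Dn q s k c' n) / ((Bᶜ).card : ℂ))
            + (∑ c' ∈ Bᶜ, Dn q s k c' n) / ((Bᶜ).card : ℂ)‖ := by rw [sub_add_cancel]
      _ ≤ _ := norm_add_le _ _
      _ ≤ _ := add_le_add hd hm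
      _ = Rbf q B MD Y k n := by unfold Rbf; ring
  -- rows
  set t : ℝ := (3 / 2 : ℝ) ^ k with ht
  have ht0 : 0 ≤ t := by positivity
  have hrows : ∀ a ∈ B, ‖Dk q s k a‖ ≤ ‖XS q ε₀ B X Y s k a‖ + QS q ε₀ B s k a
      + (∑ n ∈ Icc 1 (q * NN q ε₀), |cz q ε₀ B a n| * Rbf q B MD Y k n
        + C₁ * (3 + 2) ^ (κ + 1) * (Dz q B (ZZ q ε₀) a).card * Err q κ (UU q ε₀) k) := by
    intro a ha
    have hr := hrow 3 le_rfl q s hs hsS (Dz q B (ZZ q ε₀) a)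
      (fun d hd => ⟨((Dz_mem q (by omega) B _ hZ1 a).2 d hd).1,
        ((Dz_mem q (by omega) B _ hZ1 a).2 d hd).2.1⟩) (UU q ε₀) hU1 (NN q ε₀) hUN a k
    have hp := pieces q (by omega) ε₀ h0 h1 B X Y s k a ha _ (fun n => Rbf q B MD Y k n) hr
      (fun n _ => hRb0 n) hoff
    linarith
  have hXS := hqb q (by omega) hZ X hqX hXA B hBne hBc Y hXY w2 hw2 hint s hs hsS k hkK
  have hQS := hqc q (by omega) X hqX hXA B hBne hBc s hs k hkK hMD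
  obtain ⟨hR1, hR2⟩ := hqd q (by omega) X hqX hXA B hBne hBc Y hY k hk60 hkK
  have hin : ∑ a ∈ B, (‖Dk q s k a‖ * t) ^ 2
      ≤ 3 * ((q : ℝ) ^ (η / 8) * w2 + (q : ℝ) ^ (-(ε₀ / 4)) + (q : ℝ) ^ (-(ε₀ / 4))) := by
    calc ∑ a ∈ B, (‖Dk q s k a‖ * t) ^ 2
        ≤ ∑ a ∈ B, 3 * ((‖XS q ε₀ B X Y s k a‖ * t) ^ 2 + (QS q ε₀ B s k a * t) ^ 2
          + ((∑ n ∈ Icc 1 (q * NN q ε₀), |cz q ε₀ B a n| * Rbf q B MD Y k n
        + C₁ * (3 + 2) ^ (κ + 1) * (Dz q B (ZZ q ε₀) a).card * Err q κ (UU q ε₀) k) * t) ^ 2) :=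
          Finset.sum_le_sum fun a ha => E5_sq3 _ _ _ _ t (norm_nonneg _) ht0 (hrows a ha)
      _ = 3 * (∑ a ∈ B, (‖XS q ε₀ B X Y s k a‖ * t) ^ 2 + ∑ a ∈ B, (QS q ε₀ B s k a * t) ^ 2
          + ∑ a ∈ B, ((∑ n ∈ Icc 1 (q * NN q ε₀), |cz q ε₀ B a n| * Rbf q B MD Y k n
        + C₁ * (3 + 2) ^ (κ + 1) * (Dz q B (ZZ q ε₀) a).card * Err q κ (UU q ε₀) k) * t) ^ 2) := by
          rw [← Finset.mul_sum, Finset.sum_add_distrib, Finset.sum_add_distrib]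
      _ ≤ _ := by
          refine mul_le_mul_of_nonneg_left ?_ (by norm_num)
          exact add_le_add (add_le_add hXS hQS) hR1
  -- outside `B`
  have hout1 : ∀ c ∈ Bᶜ, (‖Dk q s k c‖ * t) ^ 2
      ≤ 2 * (‖Fj q B X Y s k c‖ * t) ^ 2 + 2 * (Rbf q B MD Y k 1 * t) ^ 2 := by
    intro c hc
    rw [Finset.mem_compl] at hc
    have hNN : 1 ≤ q * NN q ε₀ := by
      have h3 : 1 ≤ NN q ε₀ := by
        have : (1 : ℝ) ≤ (NN q ε₀ : ℝ) := by linarith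
        exact_mod_cast this
      exact Nat.one_le_iff_ne_zero.mpr (Nat.mul_ne_zero (by omega) (by omega))
    have h2 := hoff 1 le_rfl hNN c hc
    rw [Dn_one, E5_Fn_one] at h2
    refine E5_sq2 _ _ _ t (norm_nonneg _) ht0 ?_
    calc ‖Dk q s k c‖ = ‖Fj q B X Y s k c + (Dk q s k c - Fj q B X Y s k c)‖ := by
          rw [add_sub_cancel]
      _ ≤ _ := norm_add_le _ _
      _ ≤ _ := by gcongr
  have hFj := Fj_norm q B X Y hX1 hXY s hs 3 le_rfl hsS k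
  have htt : (2 * 3 * (2 / 3 : ℝ) ^ k) * t = 6 := by
    rw [ht]
    calc (2 * 3 * (2 / 3 : ℝ) ^ k) * (3 / 2 : ℝ) ^ k = 6 * ((2 / 3 : ℝ) ^ k * (3 / 2 : ℝ) ^ k) := by
          ring
      _ = 6 * ((2 / 3 : ℝ) * (3 / 2)) ^ k := by rw [mul_pow]
      _ = 6 := by norm_num
  have hFj2 : ∑ c ∈ Bᶜ, (‖Fj q B X Y s k c‖ * t) ^ 2 ≤ 36 * w2 := by
    calc ∑ c ∈ Bᶜ, (‖Fj q B X Y s k c‖ * t) ^ 2 ≤ ∑ c, (‖Fj q B X Y s k c‖ * t) ^ 2 :=
          Finset.sum_le_sum_of_subset_of_nonneg (Finset.subset_univ _) fun c _ _ => sq_nonneg _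
      _ = (∑ c, ‖Fj q B X Y s k c‖ ^ 2) * t ^ 2 := by
          rw [Finset.sum_mul]
          exact Finset.sum_congr rfl fun c _ => by rw [mul_pow]
      _ ≤ ((2 * 3 * (2 / 3 : ℝ) ^ k) ^ 2 * w2) * t ^ 2 := by
          refine mul_le_mul_of_nonneg_right (hFj.trans ?_) (sq_nonneg _)
          exact mul_le_mul_of_nonneg_left hint (sq_nonneg _)
      _ = ((2 * 3 * (2 / 3 : ℝ) ^ k) * t) ^ 2 * w2 := by ring
      _ = 36 * w2 := by rw [htt]; norm_num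
  have hcardc : ((Bᶜ).card : ℝ) ≤ q.totient := by
    have h2 : (Bᶜ).card ≤ Fintype.card (ZMod q)ˣ := Finset.card_le_univ _
    rw [ZMod.card_units_eq_totient] at h2
    exact_mod_cast h2
  have hout : ∑ c ∈ Bᶜ, (‖Dk q s k c‖ * t) ^ 2 ≤ 72 * w2 + 2 * (q : ℝ) ^ (-(ε₀ / 4)) := by
    calc ∑ c ∈ Bᶜ, (‖Dk q s k c‖ * t) ^ 2
        ≤ ∑ c ∈ Bᶜ, (2 * (‖Fj q B X Y s k c‖ * t) ^ 2 + 2 * (Rbf q B MD Y k 1 * t) ^ 2) :=
          Finset.sum_le_sum hout1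
      _ = 2 * ∑ c ∈ Bᶜ, (‖Fj q B X Y s k c‖ * t) ^ 2
          + 2 * (((Bᶜ).card : ℝ) * (Rbf q B MD Y k 1 * t) ^ 2) := by
          rw [Finset.sum_add_distrib, ← Finset.mul_sum, Finset.sum_const, nsmul_eq_mul]
          ring
      _ ≤ 2 * (36 * w2) + 2 * (q.totient * (Rbf q B MD Y k 1 * t) ^ 2) := by
          refine add_le_add (mul_le_mul_of_nonneg_left hFj2 (by norm_num)) ?_
          refine mul_le_mul_of_nonneg_left ?_ (by norm_num)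
          exact mul_le_mul_of_nonneg_right hcardc (sq_nonneg _)
      _ ≤ _ := by linarith
  have hfin1 := hqe q (by omega)
  have hfin2 := hqf q (by omega)
  have hw := mul_le_mul_of_nonneg_right hfin1 hw2
  calc ∑ a : (ZMod q)ˣ, (‖Dk q s k a‖ * t) ^ 2
      = ∑ a ∈ B, (‖Dk q s k a‖ * t) ^ 2 + ∑ a ∈ Bᶜ, (‖Dk q s k a‖ * t) ^ 2 :=
        (Finset.sum_add_sum_compl B _).symm
    _ ≤ 3 * ((q : ℝ) ^ (η / 8) * w2 + (q : ℝ) ^ (-(ε₀ / 4)) + (q : ℝ) ^ (-(ε₀ / 4)))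
        + (72 * w2 + 2 * (q : ℝ) ^ (-(ε₀ / 4))) := add_le_add hin hout
    _ = (3 * (q : ℝ) ^ (η / 8) + 72) * w2 + 8 * (q : ℝ) ^ (-(ε₀ / 4)) := by ring
    _ ≤ _ := add_le_add hw hfin2

end Pool.Agent.MZ
end

section

set_option autoImplicit false

namespace Pool.Agent.MZ

open Complex Finset MY

/-- A nonempty set of classes with smaller variance. -/
lemma Fin_nonempty (q : ℕ) [NeZero q] (B : Finset (ZMod q)ˣ) (b : ℝ) (h1 : 1 ≤ b)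
    (hB : (B.card : ℝ) ≤ b) : ∃ B' : Finset (ZMod q)ˣ, B'.Nonempty ∧ (B'.card : ℝ) ≤ b ∧
      ∀ x, VB q B' x ≤ VB q B x := by
  rcases B.eq_empty_or_nonempty with h | h
  · refine ⟨{1}, Finset.singleton_nonempty _, by simpa using h1, fun x => ?_⟩
    subst h
    refine (VB_le q {1} x (mB q ∅ x)).trans ?_
    unfold VB
    have e : ∀ c : (ZMod q)ˣ, (fB q ∅ c x) ^ 2 = (psiU q c x - mB q ∅ x) ^ 2 := by
      intro c
      simp [fB]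
    rw [Finset.sum_congr rfl (fun c _ => e c)]
    exact Finset.sum_le_sum_of_subset_of_nonneg (Finset.subset_univ _)
      (fun i _ _ => sq_nonneg _)
  · exact ⟨B, h, hB, fun x => le_rfl⟩

/-- The variance outside few classes. -/
theorem voff (β A ε : ℝ) (hβ : β < 1 / 3) (hε : 0 < ε) : ∃ K q₀ : ℕ,
    ∀ (q : ℕ) [NeZero q], q₀ ≤ q → ∀ X : ℝ, (q : ℝ) ≤ X → X ≤ (q : ℝ) ^ A →
    ∀ B : Finset (ZMod q)ˣ, (B.card : ℝ) ≤ (q : ℝ) ^ β →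
    (q : ℝ) ^ (-ε) ≤ ∫ x in Set.Ioc X (X ^ K), VB q B x / x ^ 2 := by
  obtain ⟨β', hβ'⟩ : ∃ β' : ℝ, β' = max β 0 := ⟨_, rfl⟩
  have hb0 : 0 ≤ β' := hβ' ▸ le_max_right _ _
  have hb1 : β ≤ β' := hβ' ▸ le_max_left _ _
  have hb2 : β' < 1 / 3 := by rw [hβ']; exact max_lt hβ (by norm_num)
  obtain ⟨ε₀, hε₀⟩ : ∃ ε₀ : ℝ, ε₀ = min (1 / 3 - β') (1 / 10) := ⟨_, rfl⟩
  have he0 : 0 < ε₀ := by rw [hε₀]; exact lt_min (by linarith) (by norm_num)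
  have he1 : ε₀ ≤ 1 / 10 := hε₀ ▸ min_le_right _ _
  have he2 : β' ≤ 1 / 3 - ε₀ := by
    have : ε₀ ≤ 1 / 3 - β' := hε₀ ▸ min_le_left _ _
    linarith
  obtain ⟨η, hη⟩ : ∃ η : ℝ, η = min ε ε₀ / 32 := ⟨_, rfl⟩
  have hη0 : 0 < η := by rw [hη]; have := lt_min hε he0; positivity
  have hη3 : 32 * η = min ε ε₀ := by rw [hη]; ring
  have hη1 : 32 * η ≤ ε := hη3 ▸ min_le_left ε ε₀
  have hη2 : 32 * η ≤ ε₀ := hη3 ▸ min_le_right ε ε₀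
  clear hη hη3
  obtain ⟨A', hA'⟩ : ∃ A' : ℝ, A' = max A 1 := ⟨_, rfl⟩
  have hA1 : 1 ≤ A' := hA' ▸ le_max_right _ _
  have hA2 : A ≤ A' := hA' ▸ le_max_left _ _
  obtain ⟨K₃', q₁, -, hlow⟩ := lower A' 60 η hA1 (by norm_num) hη0
  obtain ⟨δ, T, hδ, hT, K₁, q₂, -, hen⟩ :=
    energy ε₀ A' (max K₃' 60) η he0 he1 hA1 (le_max_right _ _) hη0
  obtain ⟨K₀, q₃, -, hzf⟩ := zf_box β' A' δ T hb2 hA1 hδ hT
  have hlim : ∀ᶠ q : ℕ in Filter.atTop, (2 : ℝ) < (q : ℝ) ^ (3 * η) :=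
    ((tendsto_rpow_atTop (by positivity : 0 < 3 * η)).comp
      tendsto_natCast_atTop_atTop).eventually_gt_atTop 2
  obtain ⟨q₄, hq₄⟩ := Filter.eventually_atTop.1 hlim
  refine ⟨max K₁ K₀, max (max q₁ q₂) (max q₃ q₄), ?_⟩
  intro q _ hq X hX1 hX2 B hB
  have hqa : q₁ ≤ q := (le_max_left _ _).trans ((le_max_left _ _).trans hq)
  have hqb : q₂ ≤ q := (le_max_right _ _).trans ((le_max_left _ _).trans hq)
  have hqc : q₃ ≤ q := (le_max_left _ _).trans ((le_max_right _ _).trans hq)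
  have hqd : q₄ ≤ q := (le_max_right _ _).trans ((le_max_right _ _).trans hq)
  have hq1 : (1 : ℝ) ≤ q := by exact_mod_cast (NeZero.pos q)
  have hq0 : (0 : ℝ) < q := by linarith
  have hX : 1 ≤ X := hq1.trans hX1
  have hlX : 0 ≤ Real.log X := Real.log_nonneg hX
  have hXA : X ≤ (q : ℝ) ^ A' := hX2.trans (Real.rpow_le_rpow_of_exponent_le hq1 hA2)
  by_contra hcon
  rw [not_le] at hcon
  have hb : (1 : ℝ) ≤ (q : ℝ) ^ β' := Real.one_le_rpow hq1 hb0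
  obtain ⟨B', hBn, hBc, hBV⟩ := Fin_nonempty q B ((q : ℝ) ^ β') hb
    (hB.trans (Real.rpow_le_rpow_of_exponent_le hq1 hb1))
  have hint : ∫ x in Set.Ioc X (X ^ (max K₁ K₀)), VB q B' x / x ^ 2
      ≤ ∫ x in Set.Ioc X (X ^ (max K₁ K₀)), VB q B x / x ^ 2 := by
    refine MeasureTheory.setIntegral_mono (VB_int q B' X _ hX) (VB_int q B X _ hX) ?_
    intro x
    exact div_le_div_of_nonneg_right (hBV x) (sq_nonneg x)
  have hw : ∫ x in Set.Ioc X (X ^ (max K₁ K₀)), VB q B' x / x ^ 2 ≤ (q : ℝ) ^ (-ε) :=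
    hint.trans hcon.le
  have hw1 : (q : ℝ) ^ (-ε) ≤ 1 := Real.rpow_le_one_of_one_le_of_nonpos hq1 (by linarith only [hε])
  have hZ : ZFB q δ T := hzf q hqc X hX1 hXA B' hBn hBc _
    (pow_le_pow_right₀ hX (le_max_right _ _)) (hw.trans (hw1.trans (by norm_num)))
  obtain ⟨s, hs1, hs2, k, hk1, hk2, hk3⟩ := hlow q hqa X hX1 hXA
  have hE := hen q hqb hZ X hX1 hXA B' hBn
    (hBc.trans (Real.rpow_le_rpow_of_exponent_le hq1 he2)) _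
    (pow_le_pow_right₀ hX (le_max_left _ _)) ((q : ℝ) ^ (-ε))
    (Real.rpow_nonneg hq0.le _) hw s hs1 hs2 k hk1
    (hk2.trans (mul_le_mul_of_nonneg_right (le_max_left _ _) hlX))
  have h1 : (q : ℝ) ^ (-η) ≤ (q : ℝ) ^ η * (q : ℝ) ^ (-ε) + (q : ℝ) ^ (-(ε₀ / 8)) := hk3.trans hE
  have h2 : (q : ℝ) ^ η * (q : ℝ) ^ (-ε) ≤ (q : ℝ) ^ (-(4 * η)) := by
    rw [← Real.rpow_add hq0]
    exact Real.rpow_le_rpow_of_exponent_le hq1 (by linarith only [hη1, hη0])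
  have h3 : (q : ℝ) ^ (-(ε₀ / 8)) ≤ (q : ℝ) ^ (-(4 * η)) :=
    Real.rpow_le_rpow_of_exponent_le hq1
      (neg_le_neg (by rw [le_div_iff₀ (by norm_num : (0:ℝ) < 8)]; linarith only [hη2, hη0]))
  have h4 : (q : ℝ) ^ (-η) ≤ 2 * (q : ℝ) ^ (-(4 * η)) := by
    linarith only [h1, h2, h3]
  have h5 : (2 : ℝ) < (q : ℝ) ^ (3 * η) := hq₄ q hqd
  have h6 : (q : ℝ) ^ (-η) = (q : ℝ) ^ (3 * η) * (q : ℝ) ^ (-(4 * η)) := by
    rw [← Real.rpow_add hq0]; congr 1; ring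
  have h7 : 0 < (q : ℝ) ^ (-(4 * η)) := Real.rpow_pos_of_pos hq0 _
  rw [h6] at h4
  exact absurd (le_of_mul_le_mul_right h4 h7) (not_le.2 h5)

end Pool.Agent.MZ
end

section

set_option autoImplicit false

namespace Pool.Agent.MZ

open Complex Finset MY

/-- A class outside the image of `B` has a representative outside `B`. -/
lemma Fin2_rep (q : ℕ) [NeZero q] (B : Finset ℕ) (c : (ZMod q)ˣ)
    (hc : c ∉ (B.filter (fun a => Nat.Coprime a q)).image (un q)) :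
    ∃ a : ℕ, (1 ≤ a ∧ a ≤ q ∧ Nat.Coprime a q ∧ a ∉ B) ∧ un q a = c := by
  obtain ⟨a, h1, h2, h3, h4⟩ := exists_rep q c
  refine ⟨a, ⟨h1, h2, h3, fun h => hc ?_⟩, h4⟩
  rw [Finset.mem_image]
  exact ⟨a, Finset.mem_filter.mpr ⟨h, h3⟩, h4⟩

/-- The variance outside the classes of `B` is at most the sum over the integers outside `B`. -/
lemma Fin2_le (q : ℕ) [NeZero q] (B : Finset ℕ) (x m : ℝ) :
    VB q ((B.filter (fun a => Nat.Coprime a q)).image (un q)) x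
      ≤ ∑ a ∈ (Icc 1 q).filter (fun a => Nat.Coprime a q ∧ a ∉ B), (EM.psi x q a - m) ^ 2 := by
  refine (VB_le q _ x m).trans ?_
  choose! rep hrep using Fin2_rep q B
  have h1 : ∑ c ∈ ((B.filter (fun a => Nat.Coprime a q)).image (un q))ᶜ, (psiU q c x - m) ^ 2
      = ∑ c ∈ ((B.filter (fun a => Nat.Coprime a q)).image (un q))ᶜ,
        (EM.psi x q (rep c) - m) ^ 2 := by
    refine Finset.sum_congr rfl fun c hc => ?_
    rw [Finset.mem_compl] at hc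
    obtain ⟨h2, h3⟩ := hrep c hc
    rw [← psiU_eq q (rep c) h2.2.2.1 x, h3]
  rw [h1]
  have hinj : ∀ c ∈ ((B.filter (fun a => Nat.Coprime a q)).image (un q))ᶜ,
      ∀ c' ∈ ((B.filter (fun a => Nat.Coprime a q)).image (un q))ᶜ, rep c = rep c' → c = c' := by
    intro c hc c' hc' h
    rw [Finset.mem_compl] at hc hc'
    rw [← (hrep c hc).2, ← (hrep c' hc').2, h]
  rw [← Finset.sum_image (f := fun a => (EM.psi x q a - m) ^ 2) hinj]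
  refine Finset.sum_le_sum_of_subset_of_nonneg ?_ fun a _ _ => sq_nonneg _
  intro a ha
  rw [Finset.mem_image] at ha
  obtain ⟨c, hc, rfl⟩ := ha
  rw [Finset.mem_compl] at hc
  obtain ⟨h2, -⟩ := hrep c hc
  rw [Finset.mem_filter, Finset.mem_Icc]
  exact ⟨⟨h2.1, h2.2.1⟩, h2.2.2⟩

/-- The variance is small if all differences are small. -/
lemma Fin2_small (q : ℕ) [NeZero q] (B : Finset (ZMod q)ˣ) (x t : ℝ)
    (h : ∀ c ∉ B, ∀ c' ∉ B, |psiU q c x - psiU q c' x| ≤ t) :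
    VB q B x ≤ q.totient * t ^ 2 := by
  unfold VB
  have h1 : ∀ c : (ZMod q)ˣ, (fB q B c x) ^ 2 ≤ t ^ 2 := by
    intro c
    unfold fB
    split_ifs with hc
    · rw [zero_pow two_ne_zero]
      positivity
    · have hcard : 0 < ((Bᶜ).card : ℝ) := by
        exact_mod_cast Finset.card_pos.mpr ⟨c, Finset.mem_compl.mpr hc⟩
      have h2 : psiU q c x - mB q B x
          = (∑ c' ∈ Bᶜ, (psiU q c x - psiU q c' x)) / ((Bᶜ).card : ℝ) := by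
        unfold mB
        rw [Finset.sum_sub_distrib, Finset.sum_const, nsmul_eq_mul, sub_div]
        field_simp
      have h3 : |psiU q c x - mB q B x| ≤ t := by
        rw [h2, abs_div, abs_of_pos hcard, div_le_iff₀ hcard]
        refine (Finset.abs_sum_le_sum_abs _ _).trans ?_
        have h4 : ∑ c' ∈ Bᶜ, |psiU q c x - psiU q c' x| ≤ ∑ _c' ∈ Bᶜ, t :=
          Finset.sum_le_sum fun c' hc' => h c hc c' (Finset.mem_compl.mp hc')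
        rw [Finset.sum_const, nsmul_eq_mul] at h4
        linarith [mul_comm t ((Bᶜ).card : ℝ)]
      rw [← sq_abs]
      exact pow_le_pow_left₀ (abs_nonneg _) h3 2
  refine (Finset.sum_le_sum fun c _ => h1 c).trans ?_
  rw [Finset.sum_const, Finset.card_univ, ZMod.card_units_eq_totient, nsmul_eq_mul]

/-- The theorem for integers `a`. -/
theorem voff_nat (β A ε : ℝ) (hβ : β < 1 / 3) (hε : 0 < ε) : ∃ K q₀ : ℕ, ∀ q : ℕ, q₀ ≤ q →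
    ∀ X : ℝ, (q : ℝ) ≤ X → X ≤ (q : ℝ) ^ A → ∀ B : Finset ℕ, (B.card : ℝ) ≤ (q : ℝ) ^ β →
    (∀ m : ℝ → ℝ, IntervalIntegrable (fun x => (∑ a ∈ (Icc 1 q).filter
        (fun a => Nat.Coprime a q ∧ a ∉ B), (EM.psi x q a - m x) ^ 2) / x ^ 2)
        MeasureTheory.volume X (X ^ K) →
      (q : ℝ) ^ (-ε) ≤ ∫ x in X..(X ^ K), (∑ a ∈ (Icc 1 q).filter
        (fun a => Nat.Coprime a q ∧ a ∉ B), (EM.psi x q a - m x) ^ 2) / x ^ 2) ∧
    ∃ a a' : ℕ, (1 ≤ a ∧ a ≤ q ∧ Nat.Coprime a q ∧ a ∉ B) ∧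
      (1 ≤ a' ∧ a' ≤ q ∧ Nat.Coprime a' q ∧ a' ∉ B) ∧ ∃ x : ℝ, X ≤ x ∧ x ≤ X ^ K ∧
      (x / q) ^ (1 / 2 : ℝ) / (q : ℝ) ^ ε ≤ |EM.psi x q a - EM.psi x q a'| := by
  obtain ⟨K₁, q₁, hv⟩ := voff β A ε hβ hε
  have hev : ∀ᶠ q : ℕ in Filter.atTop,
      ((K₁ + 1 : ℕ) : ℝ) * A * Real.log (q : ℝ) < (q : ℝ) ^ ε := by
    have h1 : (fun x : ℝ => ((K₁ + 1 : ℕ) : ℝ) * A * Real.log x) =o[Filter.atTop]
        fun x : ℝ => x ^ ε := (isLittleO_log_rpow_atTop hε).const_mul_left _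
    have h2 := h1.bound (show (0 : ℝ) < 1 / 2 by norm_num)
    have h3 : ∀ᶠ x : ℝ in Filter.atTop,
        ((K₁ + 1 : ℕ) : ℝ) * A * Real.log x < x ^ ε := by
      filter_upwards [h2, Filter.eventually_gt_atTop 0] with x hx hx0
      have h4 : 0 < x ^ ε := Real.rpow_pos_of_pos hx0 ε
      rw [Real.norm_eq_abs, Real.norm_eq_abs, abs_of_pos h4] at hx
      exact lt_of_le_of_lt ((le_abs_self _).trans hx) (by linarith)
    exact tendsto_natCast_atTop_atTop.eventually h3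
  obtain ⟨q₂, hq₂⟩ := Filter.eventually_atTop.mp hev
  refine ⟨K₁ + 1, q₁ + q₂ + 2, fun q hq X hX1 hX2 B hB => ?_⟩
  haveI : NeZero q := ⟨by omega⟩
  have hq1 : (1 : ℝ) ≤ q := by exact_mod_cast (by omega : 1 ≤ q)
  have hq0 : (0 : ℝ) < q := by linarith
  have hX : 1 ≤ X := hq1.trans hX1
  have hX0 : 0 < X := by linarith
  have hXK : X ≤ X ^ (K₁ + 1) := le_self_pow₀ hX (by omega)
  obtain ⟨B', hB'def⟩ : ∃ B' : Finset (ZMod q)ˣ,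
    B' = (B.filter (fun a => Nat.Coprime a q)).image (un q) := ⟨_, rfl⟩
  have hB' : (B'.card : ℝ) ≤ (q : ℝ) ^ β := by
    refine le_trans ?_ hB
    rw [hB'def]
    exact_mod_cast Finset.card_image_le.trans (Finset.card_filter_le _ _)
  have hlow : (q : ℝ) ^ (-ε) ≤ ∫ x in Set.Ioc X (X ^ (K₁ + 1)), VB q B' x / x ^ 2 := by
    refine (hv q (by omega) X hX1 hX2 B' hB').trans ?_
    refine MeasureTheory.setIntegral_mono_set (VB_int q B' X (X ^ (K₁ + 1)) hX) ?_ ?_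
    · exact Filter.Eventually.of_forall fun x => div_nonneg (VB_nonneg q B' x) (sq_nonneg x)
    · refine Filter.Eventually.of_forall ?_
      exact Set.Ioc_subset_Ioc_right (pow_le_pow_right₀ hX (by omega))
  refine ⟨fun m hm => ?_, ?_⟩
  · refine hlow.trans ?_
    rw [intervalIntegral.integral_of_le hXK]
    refine MeasureTheory.setIntegral_mono_on (VB_int q B' X _ hX)
      ((intervalIntegrable_iff_integrableOn_Ioc_of_le hXK).mp hm) measurableSet_Ioc ?_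
    intro x _
    have h1 := Fin2_le q B x (m x)
    rw [← hB'def] at h1
    exact div_le_div_of_nonneg_right h1 (sq_nonneg x)
  · by_contra hcon
    push Not at hcon
    have hqε : 0 < (q : ℝ) ^ ε := Real.rpow_pos_of_pos hq0 ε
    have hpt : ∀ x ∈ Set.Ioc X (X ^ (K₁ + 1)),
        VB q B' x / x ^ 2 ≤ ((q : ℝ) ^ ε)⁻¹ ^ 2 * x⁻¹ := by
      intro x hx
      have hx0 : 0 < x := hX0.trans hx.1
      have h1 : VB q B' x ≤ q.totient * ((x / q) ^ (1 / 2 : ℝ) / (q : ℝ) ^ ε) ^ 2 := by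
        refine Fin2_small q B' x _ fun c hc c' hc' => ?_
        rw [hB'def] at hc hc'
        obtain ⟨a, ha, hac⟩ := Fin2_rep q B c hc
        obtain ⟨a', ha', hac'⟩ := Fin2_rep q B c' hc'
        have h2 := hcon a a' ha ha' x hx.1.le hx.2
        rw [← hac, ← hac', psiU_eq q a ha.2.2.1, psiU_eq q a' ha'.2.2.1]
        exact h2.le
      have h3 : ((x / q) ^ (1 / 2 : ℝ) / (q : ℝ) ^ ε) ^ 2 = x / q * ((q : ℝ) ^ ε)⁻¹ ^ 2 := by
        rw [div_eq_mul_inv, mul_pow, ← Real.rpow_natCast ((x / q) ^ (1 / 2 : ℝ)) 2,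
          ← Real.rpow_mul (by positivity)]
        norm_num
      rw [h3] at h1
      have h4 : (q.totient : ℝ) ≤ q := by exact_mod_cast Nat.totient_le q
      have h5 : VB q B' x ≤ x * ((q : ℝ) ^ ε)⁻¹ ^ 2 := by
        refine h1.trans ?_
        calc (q.totient : ℝ) * (x / q * ((q : ℝ) ^ ε)⁻¹ ^ 2)
            ≤ q * (x / q * ((q : ℝ) ^ ε)⁻¹ ^ 2) := by gcongr
          _ = x * ((q : ℝ) ^ ε)⁻¹ ^ 2 := by field_simp
      rw [div_le_iff₀ (by positivity)]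
      refine h5.trans (le_of_eq ?_)
      field_simp
    have hint : MeasureTheory.IntegrableOn (fun x : ℝ => ((q : ℝ) ^ ε)⁻¹ ^ 2 * x⁻¹)
        (Set.Ioc X (X ^ (K₁ + 1))) := by
      rw [← intervalIntegrable_iff_integrableOn_Ioc_of_le hXK]
      refine IntervalIntegrable.const_mul ?_ _
      refine intervalIntegral.intervalIntegrable_inv (fun x hx => ?_) continuousOn_id
      rw [Set.uIcc_of_le hXK] at hx
      have : 0 < x := hX0.trans_le hx.1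
      exact this.ne'
    have hup : ∫ x in Set.Ioc X (X ^ (K₁ + 1)), VB q B' x / x ^ 2
        ≤ ∫ x in Set.Ioc X (X ^ (K₁ + 1)), ((q : ℝ) ^ ε)⁻¹ ^ 2 * x⁻¹ :=
      MeasureTheory.setIntegral_mono_on (VB_int q B' X _ hX) hint measurableSet_Ioc hpt
    have hval : ∫ x in Set.Ioc X (X ^ (K₁ + 1)), ((q : ℝ) ^ ε)⁻¹ ^ 2 * x⁻¹
        = ((q : ℝ) ^ ε)⁻¹ ^ 2 * Real.log (X ^ (K₁ + 1) / X) := by
      rw [← intervalIntegral.integral_of_le hXK, intervalIntegral.integral_const_mul,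
        integral_inv_of_pos hX0 (by positivity)]
    have hlog : Real.log (X ^ (K₁ + 1) / X) ≤ ((K₁ + 1 : ℕ) : ℝ) * A * Real.log q := by
      rw [Real.log_div (by positivity) hX0.ne', Real.log_pow]
      have h6 : 0 ≤ Real.log X := Real.log_nonneg hX
      have h7 : Real.log X ≤ A * Real.log q := by
        rw [← Real.log_rpow hq0]
        exact Real.log_le_log hX0 hX2
      have h8 : (0 : ℝ) ≤ ((K₁ + 1 : ℕ) : ℝ) := Nat.cast_nonneg _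
      nlinarith [mul_le_mul_of_nonneg_left h7 h8]
    have h9 := hq₂ q (by omega)
    rw [hval] at hup
    have h10 : (q : ℝ) ^ (-ε) ≤ ((q : ℝ) ^ ε)⁻¹ ^ 2 * Real.log (X ^ (K₁ + 1) / X) :=
      hlow.trans hup
    have h11 : ((q : ℝ) ^ ε)⁻¹ ^ 2 * Real.log (X ^ (K₁ + 1) / X)
        < ((q : ℝ) ^ ε)⁻¹ ^ 2 * (q : ℝ) ^ ε := by
      refine mul_lt_mul_of_pos_left (hlog.trans_lt h9) (by positivity)
    rw [Real.rpow_neg hq0.le] at h10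
    have h12 : ((q : ℝ) ^ ε)⁻¹ ^ 2 * (q : ℝ) ^ ε = ((q : ℝ) ^ ε)⁻¹ := by
      field_simp
    linarith

end Pool.Agent.MZ
end
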