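import Mathlib
import Pool.Agent.Lib.MP_9cfc0a_nt.Mg.G023
import Pool.Agent.Lib.MP_9cfc0a_nt.Mg.G041
import Pool.Agent.Lib.MP_9cfc0a_nt.MU.U10
import Pool.Agent.Lib.MP_9cfc0a_nt.MU.U9
import Pool.Agent.Lib.MP_9cfc0a_nt.MU.U12
import Pool.Agent.Lib.MP_9cfc0a_nt.Mg.G037
import Pool.Agent.Lib.MP_9cfc0a_nt.Mg.G046
import Pool.Agent.Lib.MP_9cfc0a_nt.Mg.G047

section

set_option autoImplicit false

namespace Pool.Agent.MU

open Complex Finset MY MZ MW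

/-- U11. The energy in a zero free region, uniformly in `X ≥ q`. -/
theorem energyU2 (θ ε₀ : ℝ) (hθ : 1 / 2 ≤ θ) (hθ1 : θ < 1) (h0 : 0 < ε₀) (h1 : ε₀ ≤ 1 / 10) :
    ∃ C₂ : ℝ, 61 ≤ C₂ ∧ ∀ (K₃ η : ℝ), C₂ ≤ K₃ → 0 < η →
    ∃ δ ν T₀ : ℝ, 0 < δ ∧ 0 < ν ∧ ν ≤ 1 / 4 ∧ 8 ≤ T₀ ∧ ∃ K q₀ : ℕ, 1 ≤ K ∧
    ∀ (q : ℕ) [NeZero q], q₀ ≤ q → ∀ S : ℝ, 3 ≤ S → S + 2 ≤ (q : ℝ) ^ ν →
    ZFB q (θ - 1 / 2 + δ) (S + T₀) →
    ∀ X : ℝ, (q : ℝ) ≤ X → ∀ B : Finset (ZMod q)ˣ, B.Nonempty →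
    (B.card : ℝ) ≤ (q : ℝ) ^ (θ / (2 - θ) - ε₀) → ∀ Y : ℝ, X ^ K ≤ Y → ∀ w2 : ℝ, 0 ≤ w2 →
    ∫ x in Set.Ioc X Y, VB q B x / x ^ (1 + 2 * θ) ≤ w2 → ∀ s : ℂ, s.re = 2 → ‖s‖ ≤ S →
    ∀ k : ℕ, C₂ * Real.log X ≤ k → (k : ℝ) ≤ K₃ * Real.log X →
    uA q θ s k ≤ X ^ η * w2 + X ^ (-3 : ℝ) := by
  obtain ⟨C₂, hC2, hE⟩ := energyU θ ε₀ hθ hθ1 h0 h1
  refine ⟨C₂, hC2, ?_⟩
  intro K₃ η hK3 hη
  obtain ⟨ν₁, K, q₁, hν1, hν1', hK, hE1⟩ := hE K₃ hK3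
  have hη2 : 0 < η / 2 := by positivity
  obtain ⟨δ, ν₂, T₀, hδ, -, hν2, hν2', hT, hX⟩ :=
    XBU θ ε₀ K₃ (η / 2) hθ hθ1 h0 h1 (by linarith) hη2
  obtain ⟨q₂, hX2⟩ := hX δ hδ le_rfl
  have hlim : ∀ᶠ q : ℕ in Filter.atTop, (32 : ℝ) < (q : ℝ) ^ (η / 2) :=
    ((tendsto_rpow_atTop hη2).comp tendsto_natCast_atTop_atTop).eventually_gt_atTop 32
  obtain ⟨q₃, hq₃⟩ := Filter.eventually_atTop.1 hlim
  refine ⟨δ, min (min ν₁ ν₂) (η / 4), T₀, hδ, lt_min (lt_min hν1 hν2) (by positivity),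
    (min_le_left _ _).trans ((min_le_left _ _).trans hν1'), hT, K, max (max q₁ q₂) q₃, hK, ?_⟩
  intro q _ hq S hS3 hSν hZ X hqX B hBn hBc Y hY w2 hw2 hint s hs hsS k hk1 hk2
  have hqa : q₁ ≤ q := (le_max_left _ _).trans ((le_max_left _ _).trans hq)
  have hqb : q₂ ≤ q := (le_max_right _ _).trans ((le_max_left _ _).trans hq)
  have hqc : q₃ ≤ q := (le_max_right _ _).trans hq
  have hq1 : (1 : ℝ) ≤ q := by exact_mod_cast (NeZero.pos q)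
  have hX1 : 1 ≤ X := hq1.trans hqX
  have hX0 : 0 < X := by linarith only [hX1]
  have hS1 : S + 2 ≤ (q : ℝ) ^ ν₁ := hSν.trans (Real.rpow_le_rpow_of_exponent_le hq1
    ((min_le_left _ _).trans (min_le_left _ _)))
  have hS2 : S + 2 ≤ (q : ℝ) ^ ν₂ := hSν.trans (Real.rpow_le_rpow_of_exponent_le hq1
    ((min_le_left _ _).trans (min_le_right _ _)))
  have hS4 : S ≤ X ^ (η / 4) := by
    have e1 : S + 2 ≤ (q : ℝ) ^ (η / 4) := hSν.trans (Real.rpow_le_rpow_of_exponent_le hq1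
      (min_le_right _ _))
    have e2 : (q : ℝ) ^ (η / 4) ≤ X ^ (η / 4) :=
      Real.rpow_le_rpow (by positivity) hqX (by positivity)
    linarith only [e1, e2]
  have hS5 : S ^ 2 ≤ X ^ (η / 2) := by
    have e1 : X ^ (η / 2) = (X ^ (η / 4)) ^ 2 := by
      rw [← Real.rpow_natCast, ← Real.rpow_mul hX0.le]
      congr 1
      push_cast
      ring
    rw [e1]
    exact pow_le_pow_left₀ (by linarith only [hS3]) hS4 2
  have hXY : X ≤ Y := by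
    refine le_trans ?_ hY
    calc X = X ^ 1 := (pow_one X).symm
      _ ≤ X ^ K := pow_le_pow_right₀ hX1 hK
  have hP0 : 0 ≤ X ^ (η / 2) * w2 := mul_nonneg (Real.rpow_nonneg hX0.le _) hw2
  have key := hE1 q hqa S hS3 hS1 X hqX B hBn hBc Y hY w2 hw2 hint s hs hsS
    (X ^ (η / 2) * w2) hP0
    (fun k' _ hk' => hX2 q hqb S hS3 hS2 hZ X hqX B hBn hBc Y hXY w2 hw2 hint s hs hsS k' hk')
    k hk1 hk2
  have h32 : 32 ≤ X ^ (η / 2) :=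
    (hq₃ q hqc).le.trans (Real.rpow_le_rpow (by positivity) hqX hη2.le)
  have hsq : X ^ η = X ^ (η / 2) * X ^ (η / 2) := by
    rw [← Real.rpow_add hX0]
    congr 1
    ring
  have h4 : X ^ (-4 : ℝ) ≤ X ^ (-3 : ℝ) :=
    Real.rpow_le_rpow_of_exponent_le hX1 (by norm_num)
  have h5 : 24 * S ^ 2 * w2 ≤ 24 * X ^ (η / 2) * w2 := by
    have := mul_le_mul_of_nonneg_right hS5 hw2
    linarith only [this]
  have h6 : 32 * (X ^ (η / 2) * w2) ≤ X ^ η * w2 := by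
    rw [hsq, mul_assoc]
    exact mul_le_mul_of_nonneg_right h32 hP0
  linarith only [key, h4, h5, h6]

end Pool.Agent.MU
end

section

set_option autoImplicit false

namespace Pool.Agent.MU

open Complex Finset MY MZ MW

/-- U13. Zeros to the right of `θ` and the variance outside few classes, for every `X ≥ q`
(as `MW.A22`). -/
theorem zeros_offU (θ β ε : ℝ) (hθ : 1 / 2 ≤ θ) (hθ1 : θ < 1) (hβ : β < θ / (2 - θ)) (hε : 0 < ε) :
    ∃ (ν : ℝ) (K q₀ : ℕ), 0 < ν ∧ 1 ≤ K ∧ ∀ (q : ℕ) [NeZero q], q₀ ≤ q →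
    ∀ X : ℝ, (q : ℝ) ≤ X →
    ∀ B : Finset (ZMod q)ˣ, (B.card : ℝ) ≤ (q : ℝ) ^ β →
    (NZ q θ ((q : ℝ) ^ ν) : ℝ)
      ≤ q.totient * X ^ ε * ∫ x in Set.Ioc X (X ^ K), VB q B x / x ^ (1 + 2 * θ) := by
  have hq2 : 0 < θ / (2 - θ) := div_pos (by linarith) (by linarith)
  obtain ⟨β', hβ'⟩ : ∃ β' : ℝ, β' = max β 0 := ⟨_, rfl⟩
  have hb0 : 0 ≤ β' := hβ' ▸ le_max_right _ _
  have hb1 : β ≤ β' := hβ' ▸ le_max_left _ _
  have hb2 : β' < θ / (2 - θ) := by rw [hβ']; exact max_lt hβ hq2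
  obtain ⟨ε₀, hε₀⟩ : ∃ ε₀ : ℝ, ε₀ = min (θ / (2 - θ) - β') (1 / 10) := ⟨_, rfl⟩
  have he0 : 0 < ε₀ := by rw [hε₀]; exact lt_min (by linarith) (by norm_num)
  have he1 : ε₀ ≤ 1 / 10 := hε₀ ▸ min_le_right _ _
  have he2 : β' ≤ θ / (2 - θ) - ε₀ := by
    have : ε₀ ≤ θ / (2 - θ) - β' := hε₀ ▸ min_le_left _ _
    linarith
  obtain ⟨η, hη⟩ : ∃ η : ℝ, η = min ε 1 / 8 := ⟨_, rfl⟩
  have hη0 : 0 < η := by rw [hη]; have := lt_min hε one_pos; positivity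
  have hη3 : 8 * η = min ε 1 := by rw [hη]; ring
  have hη1 : 8 * η ≤ ε := hη3 ▸ min_le_left ε 1
  have hη2 : 8 * η ≤ 1 := hη3 ▸ min_le_right ε 1
  clear hη hη3
  obtain ⟨C₂, hC₂, hen0⟩ := energyU2 θ ε₀ hθ hθ1 he0 he1
  obtain ⟨K₃', ν₁, q₁, -, hν₁, -, hlow⟩ := lowerU θ C₂ η hθ hθ1 (by linarith) hη0
  obtain ⟨δ, ν₂, T₀, hδ, hν₂, -, hT₀, K₁, q₂, hK₁, hen⟩ :=
    hen0 (max K₃' C₂) η (le_max_right _ _) hη0
  obtain ⟨ν₃, K₀, q₃, hν₃, -, -, hzf⟩ := zf_boxU θ β' δ hθ hθ1 hb2 hδ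
  obtain ⟨ν, hν⟩ : ∃ ν : ℝ, ν = min ν₁ (min ν₂ ν₃) / 2 := ⟨_, rfl⟩
  have hν0 : 0 < ν := by
    rw [hν]; have := lt_min hν₁ (lt_min hν₂ hν₃); positivity
  have hνe : 2 * ν = min ν₁ (min ν₂ ν₃) := by rw [hν]; ring
  have hνa : 2 * ν ≤ ν₁ := hνe ▸ min_le_left _ _
  have hνb : 2 * ν ≤ ν₂ := hνe ▸ (min_le_right _ _).trans (min_le_left _ _)
  have hνc : 2 * ν ≤ ν₃ := hνe ▸ (min_le_right _ _).trans (min_le_right _ _)
  clear hν hνe
  have hlim : ∀ᶠ q : ℕ in Filter.atTop, (2 : ℝ) < (q : ℝ) ^ (6 * η) :=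
    ((tendsto_rpow_atTop (by positivity : 0 < 6 * η)).comp
      tendsto_natCast_atTop_atTop).eventually_gt_atTop 2
  have hlim2 : ∀ᶠ q : ℕ in Filter.atTop, 7 + T₀ < (q : ℝ) ^ ν :=
    ((tendsto_rpow_atTop hν0).comp
      tendsto_natCast_atTop_atTop).eventually_gt_atTop (7 + T₀)
  obtain ⟨q₄, hq₄⟩ := Filter.eventually_atTop.1 hlim
  obtain ⟨q₅, hq₅⟩ := Filter.eventually_atTop.1 hlim2
  refine ⟨ν, max K₁ K₀, max (max (max q₁ q₂) (max q₃ q₄)) (max q₅ 3), hν0,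
    hK₁.trans (le_max_left _ _), ?_⟩
  intro q _ hq X hX1 B hB
  have hqa : q₁ ≤ q :=
    (le_max_left _ _).trans ((le_max_left _ _).trans ((le_max_left _ _).trans hq))
  have hqb : q₂ ≤ q :=
    (le_max_right _ _).trans ((le_max_left _ _).trans ((le_max_left _ _).trans hq))
  have hqc : q₃ ≤ q :=
    (le_max_left _ _).trans ((le_max_right _ _).trans ((le_max_left _ _).trans hq))
  have hqd : q₄ ≤ q :=
    (le_max_right _ _).trans ((le_max_right _ _).trans ((le_max_left _ _).trans hq))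
  have hqe : q₅ ≤ q := (le_max_left _ _).trans ((le_max_right _ _).trans hq)
  have hqf : 3 ≤ q := (le_max_right _ _).trans ((le_max_right _ _).trans hq)
  have hq3 : (3 : ℝ) ≤ q := by exact_mod_cast hqf
  have hq1 : (1 : ℝ) ≤ q := by linarith
  have hq0 : (0 : ℝ) < q := by linarith
  have hX : 1 ≤ X := hq1.trans hX1
  have hlX : 0 ≤ Real.log X := Real.log_nonneg hX
  have hX0 : 0 < X := lt_of_lt_of_le one_pos hX
  have hφ : (0 : ℝ) < q.totient := by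
    exact_mod_cast Nat.totient_pos.2 (NeZero.pos q)
  have hφq : (q.totient : ℝ) ≤ q := by exact_mod_cast Nat.totient_le q
  obtain ⟨I, hI⟩ : ∃ I : ℝ, I = ∫ x in Set.Ioc X (X ^ (max K₁ K₀)),
    VB q B x / x ^ (1 + 2 * θ) := ⟨_, rfl⟩
  rw [← hI]
  have hI0 : 0 ≤ I := hI ▸ A22_int_nonneg q B θ X _ hX
  obtain ⟨N, hN⟩ : ∃ N : ℝ, N = (NZ q θ ((q : ℝ) ^ ν) : ℝ) := ⟨_, rfl⟩
  rw [← hN]
  rcases Nat.eq_zero_or_pos (NZ q θ ((q : ℝ) ^ ν)) with hz | hz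
  · rw [hN, hz, Nat.cast_zero]
    exact mul_nonneg (mul_nonneg hφ.le (Real.rpow_nonneg hX0.le _)) hI0
  have hN1 : 1 ≤ N := by rw [hN]; exact_mod_cast hz
  have hNφ : N ≤ q.totient := hN ▸ A22_NZ_le q θ _
  have hqε : X ^ ε * X ^ (-ε) = 1 := by
    rw [← Real.rpow_add hX0, add_neg_cancel, Real.rpow_zero]
  have hqε0 : 0 < X ^ ε := Real.rpow_pos_of_pos hX0 _
  rcases le_or_gt (X ^ (-ε)) I with hIl | hIl
  · calc N ≤ q.totient := hNφ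
      _ = q.totient * (X ^ ε * X ^ (-ε)) := by rw [hqε, mul_one]
      _ = q.totient * X ^ ε * X ^ (-ε) := by ring
      _ ≤ _ := mul_le_mul_of_nonneg_left hIl (mul_nonneg hφ.le hqε0.le)
  by_contra hcon
  rw [not_le] at hcon
  have hb : (1 : ℝ) ≤ (q : ℝ) ^ β' := Real.one_le_rpow hq1 hb0
  obtain ⟨B', hBn, hBc, hBV⟩ := A22_nonempty q B ((q : ℝ) ^ β') hb
    (hB.trans (Real.rpow_le_rpow_of_exponent_le hq1 hb1))
  have hw : ∫ x in Set.Ioc X (X ^ (max K₁ K₀)), VB q B' x / x ^ (1 + 2 * θ) ≤ I := by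
    rw [hI]
    refine MeasureTheory.setIntegral_mono_on (MW.VB_int q B' θ hθ X _ hX)
      (MW.VB_int q B θ hθ X _ hX) measurableSet_Ioc ?_
    intro x hx
    exact div_le_div_of_nonneg_right (hBV x) (Real.rpow_nonneg (by linarith [hx.1]) _)
  have hw1 : X ^ (-ε) ≤ 1 := Real.rpow_le_one_of_one_le_of_nonpos hX (by linarith only [hε])
  have hQ : (q : ℝ) ^ ν * (q : ℝ) ^ ν = (q : ℝ) ^ (2 * ν) := by
    rw [← Real.rpow_add hq0]; ring_nf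
  have hν7 : 7 + T₀ < (q : ℝ) ^ ν := hq₅ q hqe
  have hbig : (q : ℝ) ^ ν + (6 + T₀) ≤ (q : ℝ) ^ (2 * ν) := by
    rw [← hQ]
    nlinarith only [hν7, hT₀]
  have hT6 : (q : ℝ) ^ ν + 6 ≤ (q : ℝ) ^ ν₁ := by
    have := Real.rpow_le_rpow_of_exponent_le hq1 hνa
    linarith only [this, hbig, hT₀]
  have hT5 : (q : ℝ) ^ ν + 3 + 2 ≤ (q : ℝ) ^ ν₂ := by
    have := Real.rpow_le_rpow_of_exponent_le hq1 hνb
    linarith only [this, hbig, hT₀]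
  have hT3 : (q : ℝ) ^ ν + 3 + T₀ ≤ (q : ℝ) ^ ν₃ := by
    have := Real.rpow_le_rpow_of_exponent_le hq1 hνc
    linarith only [this, hbig, hT₀]
  have hν00 : 0 ≤ (q : ℝ) ^ ν := Real.rpow_nonneg hq0.le _
  have hZ0 : ZFB q (θ - 1 / 2 + δ) ((q : ℝ) ^ ν₃) := hzf q hqc X hX1 B' hBn hBc _
    (pow_le_pow_right₀ hX (le_max_right _ _))
    (hw.trans (hIl.le.trans (hw1.trans (by norm_num))))
  have hZ : ZFB q (θ - 1 / 2 + δ) ((q : ℝ) ^ ν + 3 + T₀) := fun χ hχ s hs1 hs2 =>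
    hZ0 χ hχ s hs1 (hs2.trans hT3)
  obtain ⟨s, hs1, hs2, k, hk1, hk2, hk3⟩ := hlow q hqa X hX1 ((q : ℝ) ^ ν) hν00 hT6 hz
  have hE := hen q hqb ((q : ℝ) ^ ν + 3) (by linarith only [hν00]) hT5 hZ X hX1 B' hBn
    (hBc.trans (Real.rpow_le_rpow_of_exponent_le hq1 he2)) _
    (pow_le_pow_right₀ hX (le_max_left _ _)) I hI0 hw s hs1 hs2 k hk1
    (hk2.trans (mul_le_mul_of_nonneg_right (le_max_left _ _) hlX))
  have h1 := hk3.trans hE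
  rw [← hN] at h1
  obtain ⟨y, hy⟩ : ∃ y : ℝ, y = N / q.totient := ⟨_, rfl⟩
  rw [← hy] at h1
  have hyN : N = q.totient * y := by rw [hy]; field_simp
  have hy1 : 1 ≤ q * y := by
    calc (1 : ℝ) ≤ N := hN1
      _ = q.totient * y := hyN
      _ ≤ q * y := mul_le_mul_of_nonneg_right hφq (by rw [hy]; positivity)
  have hy0 : 0 < y := by rw [hy]; positivity
  have hXy : 1 ≤ X * y := hy1.trans (mul_le_mul_of_nonneg_right hX1 hy0.le)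
  have hIy : X ^ ε * I < y := by
    rw [hyN, mul_assoc] at hcon
    exact lt_of_mul_lt_mul_left hcon hφ.le
  have hpow : X ^ (8 * η) * I ≤ y :=
    (mul_le_mul_of_nonneg_right (Real.rpow_le_rpow_of_exponent_le hX hη1) hI0).trans hIy.le
  -- multiply by `X ^ (7 η)`
  have h2 : X ^ (7 * η) * (X ^ (-η) * y) ≤ X ^ (7 * η) * (X ^ η * I + X ^ (-3 : ℝ)) :=
    mul_le_mul_of_nonneg_left h1 (Real.rpow_nonneg hX0.le _)
  have h3 : X ^ (7 * η) * (X ^ (-η) * y) = X ^ (6 * η) * y := by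
    rw [← mul_assoc, ← Real.rpow_add hX0]; congr 2; ring
  have h4 : X ^ (7 * η) * (X ^ η * I + X ^ (-3 : ℝ)) = X ^ (8 * η) * I + X ^ (7 * η - 3) := by
    rw [mul_add, ← mul_assoc, ← Real.rpow_add hX0, ← Real.rpow_add hX0]
    congr 3; ring
  rw [h3, h4] at h2
  have h5 : X ^ (7 * η - 3) ≤ X ^ (-2 : ℝ) :=
    Real.rpow_le_rpow_of_exponent_le hX (by linarith only [hη2, hη0])
  have h6 : (2 : ℝ) < X ^ (6 * η) :=
    (hq₄ q hqd).trans_le (Real.rpow_le_rpow hq0.le hX1 (by linarith only [hη0]))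
  have h7 : y ≤ X ^ (-2 : ℝ) := by
    nlinarith only [h2, h5, h6, hpow, hy0]
  have h8 : X * X ^ (-2 : ℝ) = X⁻¹ := by
    rw [← Real.rpow_one_add' hX0.le (by norm_num)]
    norm_num [Real.rpow_neg_one]
  have h9 : 1 ≤ X⁻¹ := by
    rw [← h8]
    exact hXy.trans (mul_le_mul_of_nonneg_left h7 hX0.le)
  have h10 : X⁻¹ < 1 := inv_lt_one_of_one_lt₀ (by linarith)
  linarith

end Pool.Agent.MU
end

section

set_option autoImplicit false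

namespace Pool.Agent.MW

open Complex Finset MY MZ

lemma A26_VB_nonneg (q : ℕ) [NeZero q] (B : Finset (ZMod q)ˣ) (x : ℝ) : 0 ≤ VB q B x :=
  Finset.sum_nonneg fun _ _ => sq_nonneg _

/-- One line `θ + i δ`. -/
lemma A26_line (q : ℕ) [NeZero q] (B : Finset (ZMod q)ˣ) (θ η : ℝ) (hθ : 1 / 2 ≤ θ) (hη : 0 ≤ η)
    (X : ℝ) (hX : 1 ≤ X) (K K' : ℕ) (hKK : K ≤ K') :
    X ^ (2 * η) * ∫ x in Set.Ioc X (X ^ K), VB q B x / x ^ (1 + 2 * (θ + η))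
      ≤ ∫ x in Set.Ioc X (X ^ K'), VB q B x / x ^ (1 + 2 * θ) := by
  have hX0 : 0 < X := by linarith
  rw [← MeasureTheory.integral_const_mul]
  calc ∫ x in Set.Ioc X (X ^ K), X ^ (2 * η) * (VB q B x / x ^ (1 + 2 * (θ + η)))
      ≤ ∫ x in Set.Ioc X (X ^ K), VB q B x / x ^ (1 + 2 * θ) := by
        refine MeasureTheory.setIntegral_mono_on
          ((MW.VB_int q B (θ + η) (by linarith) X _ hX).const_mul _)
          (MW.VB_int q B θ hθ X _ hX) measurableSet_Ioc ?_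
        intro x hx
        have hx0 : 0 < x := hX0.trans hx.1
        have h1 : x ^ (1 + 2 * (θ + η)) = x ^ (1 + 2 * θ) * x ^ (2 * η) := by
          rw [← Real.rpow_add hx0]
          congr 1
          ring
        have h2 : X ^ (2 * η) ≤ x ^ (2 * η) :=
          Real.rpow_le_rpow hX0.le hx.1.le (by linarith)
        have h3 : 0 < x ^ (1 + 2 * θ) := Real.rpow_pos_of_pos hx0 _
        have h4 : 0 < x ^ (2 * η) := Real.rpow_pos_of_pos hx0 _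
        rw [h1, ← mul_div_assoc, div_le_div_iff₀ (by positivity) h3]
        have h5 := A26_VB_nonneg q B x
        calc X ^ (2 * η) * VB q B x * x ^ (1 + 2 * θ)
            ≤ x ^ (2 * η) * VB q B x * x ^ (1 + 2 * θ) := by gcongr
          _ = VB q B x * (x ^ (1 + 2 * θ) * x ^ (2 * η)) := by ring
    _ ≤ ∫ x in Set.Ioc X (X ^ K'), VB q B x / x ^ (1 + 2 * θ) := by
        refine MeasureTheory.setIntegral_mono_set (MW.VB_int q B θ hθ X _ hX) ?_ ?_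
        · refine (MeasureTheory.ae_restrict_iff' measurableSet_Ioc).mpr
            (Filter.Eventually.of_forall fun x hx => ?_)
          have hx0 : 0 < x := hX0.trans hx.1
          exact div_nonneg (A26_VB_nonneg q B x) (Real.rpow_nonneg hx0.le _)
        · exact (Set.Ioc_subset_Ioc_right (pow_le_pow_right₀ hX hKK)).eventuallyLE

/-- A26. All zeros to the right of `θ`, with multiplicity and weighted by `X ^ (2 (Re ρ - θ))`. -/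
theorem zeros_weighted (θ β A ε : ℝ) (hθ : 1 / 2 ≤ θ) (hθ1 : θ < 1) (hβ : β < θ / (2 - θ))
    (hε : 0 < ε) :
    ∃ (ν : ℝ) (K q₀ : ℕ), 0 < ν ∧ 1 ≤ K ∧ ∀ (q : ℕ) [NeZero q], q₀ ≤ q →
    ∀ X : ℝ, (q : ℝ) ≤ X → X ≤ (q : ℝ) ^ A →
    ∀ B : Finset (ZMod q)ˣ, (B.card : ℝ) ≤ (q : ℝ) ^ β →
    ∑ χ ∈ nt q, ∑ ρ ∈ TS.Zf χ θ ((q : ℝ) ^ ν), TS.mu χ ρ * X ^ (2 * (ρ.re - θ))
      ≤ q.totient * (q : ℝ) ^ ε * ∫ x in Set.Ioc X (X ^ K), VB q B x / x ^ (1 + 2 * θ) := by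
  classical
  obtain ⟨A', hA'⟩ : ∃ A' : ℝ, A' = max A 1 := ⟨_, rfl⟩
  have hA'1 : 1 ≤ A' := by rw [hA']; exact le_max_right _ _
  have hAA' : A ≤ A' := by rw [hA']; exact le_max_left _ _
  obtain ⟨δ, hδ⟩ : ∃ δ : ℝ, δ = ε / (8 * A') := ⟨_, rfl⟩
  have hδ0 : 0 < δ := by rw [hδ]; positivity
  obtain ⟨N, hN⟩ := exists_nat_ge (1 / δ)
  obtain ⟨C, q₁, hC, hbox⟩ := A25_box
  have hline : ∀ i : ℕ, ∃ (ν : ℝ) (K q₀ : ℕ), 0 < ν ∧ (θ + i * δ < 1 → ∀ (q : ℕ) [NeZero q],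
      q₀ ≤ q → ∀ X : ℝ, (q : ℝ) ≤ X → X ≤ (q : ℝ) ^ A →
      ∀ B : Finset (ZMod q)ˣ, (B.card : ℝ) ≤ (q : ℝ) ^ β →
      (NZ q (θ + i * δ) ((q : ℝ) ^ ν) : ℝ) ≤ q.totient * (q : ℝ) ^ (ε / 4) *
        ∫ x in Set.Ioc X (X ^ K), VB q B x / x ^ (1 + 2 * (θ + i * δ))) := by
    intro i
    have hi : 0 ≤ (i : ℝ) * δ := by positivity
    by_cases h : θ + i * δ < 1
    · have hb : β < (θ + i * δ) / (2 - (θ + i * δ)) := by
        refine hβ.trans_le ?_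
        rw [div_le_div_iff₀ (by linarith) (by linarith)]
        nlinarith
      obtain ⟨ν, K, q₀, h1, -, h2⟩ := zeros_off (θ + i * δ) β A (ε / 4) (by linarith) h hb
        (by linarith)
      exact ⟨ν, K, q₀, h1, fun _ => h2⟩
    · exact ⟨1, 1, 1, one_pos, fun h' => absurd h' h⟩
  choose νi Ki qi hνi hmain using hline
  obtain ⟨ν₀, hν₀⟩ : ∃ ν₀ : ℝ, 0 < ν₀ ∧ ∀ i ∈ range (N + 1), ν₀ ≤ νi i := by
    have hne : ((range (N + 1)).image νi).Nonempty := by simp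
    refine ⟨((range (N + 1)).image νi).min' hne, ?_, fun i hi => ?_⟩
    · obtain ⟨i, -, hi⟩ := Finset.mem_image.mp (Finset.min'_mem _ hne)
      rw [← hi]
      exact hνi i
    · exact Finset.min'_le _ _ (Finset.mem_image_of_mem _ hi)
  obtain ⟨ν, hν⟩ : ∃ ν : ℝ, ν = min ν₀ (min (ε / 8) 1) := ⟨_, rfl⟩
  have hνpos : 0 < ν := by
    rw [hν]; exact lt_min hν₀.1 (lt_min (by linarith) one_pos)
  have hν1 : ν ≤ ν₀ := by rw [hν]; exact min_le_left _ _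
  have hν2 : ν ≤ ε / 8 := by rw [hν]; exact (min_le_right _ _).trans (min_le_left _ _)
  have hν3 : ν ≤ 1 := by rw [hν]; exact (min_le_right _ _).trans (min_le_right _ _)
  obtain ⟨K, hK⟩ : ∃ K : ℕ, K = (range (N + 1)).sup Ki + 1 := ⟨_, rfl⟩
  obtain ⟨q₂, hq₂⟩ : ∃ q₂ : ℕ, q₂ = (range (N + 1)).sup qi := ⟨_, rfl⟩
  have hev : ∀ᶠ q : ℕ in Filter.atTop,
      (4 * ((N : ℝ) + 1) * C) * Real.log (q : ℝ) < (q : ℝ) ^ (ε / 4) := by
    have hε4 : 0 < ε / 4 := by linarith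
    have h1 : (fun x : ℝ => (4 * ((N : ℝ) + 1) * C) * Real.log x) =o[Filter.atTop]
        fun x : ℝ => x ^ (ε / 4) := (isLittleO_log_rpow_atTop hε4).const_mul_left _
    have h2 := h1.bound (show (0 : ℝ) < 1 / 2 by norm_num)
    have h3 : ∀ᶠ x : ℝ in Filter.atTop,
        (4 * ((N : ℝ) + 1) * C) * Real.log x < x ^ (ε / 4) := by
      filter_upwards [h2, Filter.eventually_gt_atTop 0] with x hx hx0
      have h4 : 0 < x ^ (ε / 4) := Real.rpow_pos_of_pos hx0 _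
      rw [Real.norm_eq_abs, Real.norm_eq_abs, abs_of_pos h4] at hx
      exact lt_of_le_of_lt ((le_abs_self _).trans hx) (by linarith)
    exact tendsto_natCast_atTop_atTop.eventually h3
  obtain ⟨q₃, hq₃⟩ := Filter.eventually_atTop.mp hev
  refine ⟨ν, K, q₁ + q₂ + q₃ + 1, hνpos, by omega, fun q _ hq X hX1 hX2 B hB => ?_⟩
  have hq1 : (1 : ℝ) ≤ q := by exact_mod_cast (by omega : 1 ≤ q)
  have hq0 : (0 : ℝ) < q := by linarith
  have hX : 1 ≤ X := hq1.trans hX1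
  have hX0 : 0 < X := by linarith
  have hX2' : X ≤ (q : ℝ) ^ A' := hX2.trans (Real.rpow_le_rpow_of_exponent_le hq1 hAA')
  obtain ⟨T, hT⟩ : ∃ T : ℝ, T = (q : ℝ) ^ ν := ⟨_, rfl⟩
  have hT1 : 1 ≤ T := by rw [hT]; exact Real.one_le_rpow hq1 hνpos.le
  have hTq : T ≤ q := by
    rw [hT]
    calc (q : ℝ) ^ ν ≤ (q : ℝ) ^ (1 : ℝ) := Real.rpow_le_rpow_of_exponent_le hq1 hν3
      _ = q := Real.rpow_one _
  obtain ⟨I, hI⟩ : ∃ I : ℝ, I = ∫ x in Set.Ioc X (X ^ K), VB q B x / x ^ (1 + 2 * θ) := ⟨_, rfl⟩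
  have hI0 : 0 ≤ I := by
    rw [hI]
    refine MeasureTheory.setIntegral_nonneg measurableSet_Ioc fun x hx => ?_
    have hx0 : 0 < x := hX0.trans hx.1
    exact div_nonneg (A26_VB_nonneg q B x) (Real.rpow_nonneg hx0.le _)
  rw [← hI, ← hT]
  obtain ⟨D, hD⟩ : ∃ D : ℝ, D = (2 * T + 2) * (C * Real.log q) := ⟨_, rfl⟩
  have hlog : 0 ≤ Real.log q := Real.log_nonneg hq1
  have hD0 : 0 ≤ D := by rw [hD]; positivity
  -- each line
  have hrow : ∀ i ∈ range (N + 1), X ^ (2 * ((i : ℝ) * δ) + 2 * δ) *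
      ∑ χ ∈ nt q, ∑ ρ ∈ TS.Zf χ (θ + i * δ) T, TS.mu χ ρ
      ≤ X ^ (2 * δ) * (D * (q.totient * (q : ℝ) ^ (ε / 4) * I)) := by
    intro i hi
    have hi0 : 0 ≤ (i : ℝ) * δ := by positivity
    by_cases h : θ + i * δ < 1
    · have h1 := A25_count q (θ + i * δ) T D hD0 fun χ => by
        rw [hD]; exact hbox q (by omega) χ _ T (by linarith) (by linarith) hTq
      have h2 : qi i ≤ q := by
        have : qi i ≤ q₂ := by rw [hq₂]; exact Finset.le_sup hi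
        omega
      have h3 := hmain i h q h2 X hX1 hX2 B hB
      have h4 : NZ q (θ + i * δ) T ≤ NZ q (θ + i * δ) ((q : ℝ) ^ νi i) := by
        unfold NZ
        refine Finset.card_le_card fun χ hχ => ?_
        rw [Finset.mem_filter] at hχ ⊢
        obtain ⟨h5, s, h6, h7, h8, h9⟩ := hχ
        refine ⟨h5, s, h6, h7, h8.trans ?_, h9⟩
        rw [hT]
        exact Real.rpow_le_rpow_of_exponent_le hq1 (hν1.trans (hν₀.2 i hi))
      have h5 : (NZ q (θ + i * δ) T : ℝ) ≤ q.totient * (q : ℝ) ^ (ε / 4) *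
          ∫ x in Set.Ioc X (X ^ Ki i), VB q B x / x ^ (1 + 2 * (θ + i * δ)) :=
        le_trans (by exact_mod_cast h4) h3
      have h6 : Ki i ≤ K := by
        have : Ki i ≤ (range (N + 1)).sup Ki := Finset.le_sup hi
        omega
      have h7 := A26_line q B θ ((i : ℝ) * δ) hθ hi0 X hX (Ki i) K h6
      rw [← hI] at h7
      have h8 : X ^ (2 * ((i : ℝ) * δ) + 2 * δ) = X ^ (2 * δ) * X ^ (2 * ((i : ℝ) * δ)) := by
        rw [← Real.rpow_add hX0]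
        congr 1
        ring
      rw [h8]
      have h9 : 0 < X ^ (2 * ((i : ℝ) * δ)) := Real.rpow_pos_of_pos hX0 _
      have h10 : 0 < X ^ (2 * δ) := Real.rpow_pos_of_pos hX0 _
      have h11 : 0 ≤ (q.totient : ℝ) * (q : ℝ) ^ (ε / 4) := by positivity
      calc X ^ (2 * δ) * X ^ (2 * ((i : ℝ) * δ)) *
            ∑ χ ∈ nt q, ∑ ρ ∈ TS.Zf χ (θ + i * δ) T, TS.mu χ ρ
          ≤ X ^ (2 * δ) * X ^ (2 * ((i : ℝ) * δ)) * (D * NZ q (θ + i * δ) T) := by gcongr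
        _ ≤ X ^ (2 * δ) * X ^ (2 * ((i : ℝ) * δ)) * (D * (q.totient * (q : ℝ) ^ (ε / 4) *
            ∫ x in Set.Ioc X (X ^ Ki i), VB q B x / x ^ (1 + 2 * (θ + i * δ)))) := by gcongr
        _ = X ^ (2 * δ) * (D * (q.totient * (q : ℝ) ^ (ε / 4) * (X ^ (2 * ((i : ℝ) * δ)) *
            ∫ x in Set.Ioc X (X ^ Ki i), VB q B x / x ^ (1 + 2 * (θ + i * δ))))) := by ring
        _ ≤ X ^ (2 * δ) * (D * (q.totient * (q : ℝ) ^ (ε / 4) * I)) := by gcongr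
    · have h1 : ∑ χ ∈ nt q, ∑ ρ ∈ TS.Zf χ (θ + i * δ) T, TS.mu χ ρ = 0 := by
        refine Finset.sum_eq_zero fun χ _ => Finset.sum_eq_zero fun ρ hρ => ?_
        rw [TS.mem_Zf] at hρ
        have := TS.Zf_re_lt χ ρ hρ.1
        exact absurd (hρ.2.1.trans_lt this) h
      rw [h1, mul_zero]
      positivity
  -- the numbers
  have hXδ : X ^ (2 * δ) ≤ (q : ℝ) ^ (ε / 4) := by
    calc X ^ (2 * δ) ≤ ((q : ℝ) ^ A') ^ (2 * δ) := Real.rpow_le_rpow hX0.le hX2' (by linarith)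
      _ = (q : ℝ) ^ (A' * (2 * δ)) := by rw [← Real.rpow_mul hq0.le]
      _ = (q : ℝ) ^ (ε / 4) := by
          congr 1
          rw [hδ]
          field_simp
          ring
  have hDq : ((N : ℝ) + 1) * D ≤ (q : ℝ) ^ (ε / 4) * (q : ℝ) ^ (ε / 4) := by
    have h1 : T ≤ (q : ℝ) ^ (ε / 4) := by
      rw [hT]
      exact Real.rpow_le_rpow_of_exponent_le hq1 (by linarith)
    have h2 := (hq₃ q (by omega)).le
    have h3 : 0 ≤ (q : ℝ) ^ (ε / 4) := by positivity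
    calc ((N : ℝ) + 1) * D = (2 * T + 2) * (((N : ℝ) + 1) * C * Real.log q) := by rw [hD]; ring
      _ ≤ (4 * T) * (((N : ℝ) + 1) * C * Real.log q) := by
          refine mul_le_mul_of_nonneg_right (by linarith) (by positivity)
      _ = T * ((4 * ((N : ℝ) + 1) * C) * Real.log q) := by ring
      _ ≤ (q : ℝ) ^ (ε / 4) * (q : ℝ) ^ (ε / 4) := by gcongr
  calc ∑ χ ∈ nt q, ∑ ρ ∈ TS.Zf χ θ T, TS.mu χ ρ * X ^ (2 * (ρ.re - θ))
      ≤ ∑ χ ∈ nt q, ∑ i ∈ Finset.range (N + 1), X ^ (2 * (i * δ) + 2 * δ) *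
          ∑ ρ ∈ TS.Zf χ (θ + i * δ) T, TS.mu χ ρ :=
        Finset.sum_le_sum fun χ _ => A25_split χ hX hθ hδ0 hN
    _ = ∑ i ∈ Finset.range (N + 1), X ^ (2 * (i * δ) + 2 * δ) *
          ∑ χ ∈ nt q, ∑ ρ ∈ TS.Zf χ (θ + i * δ) T, TS.mu χ ρ := by
        rw [Finset.sum_comm]
        refine Finset.sum_congr rfl fun i _ => ?_
        rw [Finset.mul_sum]
    _ ≤ ∑ _i ∈ Finset.range (N + 1), X ^ (2 * δ) * (D * (q.totient * (q : ℝ) ^ (ε / 4) * I)) :=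
        Finset.sum_le_sum hrow
    _ = X ^ (2 * δ) * (((N : ℝ) + 1) * D) * (q.totient * (q : ℝ) ^ (ε / 4) * I) := by
        rw [Finset.sum_const, card_range, nsmul_eq_mul]
        push_cast
        ring
    _ ≤ (q : ℝ) ^ (ε / 4) * ((q : ℝ) ^ (ε / 4) * (q : ℝ) ^ (ε / 4)) *
          (q.totient * (q : ℝ) ^ (ε / 4) * I) := by gcongr
    _ = q.totient * ((q : ℝ) ^ (ε / 4) * (q : ℝ) ^ (ε / 4) * (q : ℝ) ^ (ε / 4) *
          (q : ℝ) ^ (ε / 4)) * I := by ring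
    _ = q.totient * (q : ℝ) ^ ε * I := by
        rw [← Real.rpow_add hq0, ← Real.rpow_add hq0, ← Real.rpow_add hq0]
        congr 3
        ring

/-- A26b. The same for integers `a` and an arbitrary centre `m(x)`. -/
theorem zeros_weighted_nat (θ β A ε : ℝ) (hθ : 1 / 2 ≤ θ) (hθ1 : θ < 1) (hβ : β < θ / (2 - θ))
    (hε : 0 < ε) :
    ∃ (ν : ℝ) (K q₀ : ℕ), 0 < ν ∧ 1 ≤ K ∧ ∀ (q : ℕ) [NeZero q], q₀ ≤ q →
    ∀ X : ℝ, (q : ℝ) ≤ X → X ≤ (q : ℝ) ^ A → ∀ B : Finset ℕ, (B.card : ℝ) ≤ (q : ℝ) ^ β →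
    ∀ m : ℝ → ℝ, IntervalIntegrable (fun x => (∑ a ∈ (Icc 1 q).filter
        (fun a => Nat.Coprime a q ∧ a ∉ B), (EM.psi x q a - m x) ^ 2) / x ^ (1 + 2 * θ))
        MeasureTheory.volume X (X ^ K) →
    ∑ χ ∈ nt q, ∑ ρ ∈ TS.Zf χ θ ((q : ℝ) ^ ν), TS.mu χ ρ * X ^ (2 * (ρ.re - θ))
      ≤ q.totient * (q : ℝ) ^ ε * ∫ x in X..(X ^ K), (∑ a ∈ (Icc 1 q).filter
        (fun a => Nat.Coprime a q ∧ a ∉ B), (EM.psi x q a - m x) ^ 2) / x ^ (1 + 2 * θ) := by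
  obtain ⟨ν, K, q₁, hν, hK, hv⟩ := zeros_weighted θ β A ε hθ hθ1 hβ hε
  refine ⟨ν, K, q₁ + 1, hν, hK, fun q _ hq X hX1 hX2 B hB m hm => ?_⟩
  have hq1 : (1 : ℝ) ≤ q := by exact_mod_cast (by omega : 1 ≤ q)
  have hX : 1 ≤ X := hq1.trans hX1
  have hX0 : 0 < X := by linarith
  have hXK : X ≤ X ^ K := le_self_pow₀ hX (by omega)
  obtain ⟨B', hB'def⟩ : ∃ B' : Finset (ZMod q)ˣ,
    B' = (B.filter (fun a => Nat.Coprime a q)).image (un q) := ⟨_, rfl⟩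
  have hB' : (B'.card : ℝ) ≤ (q : ℝ) ^ β := by
    refine le_trans ?_ hB
    rw [hB'def]
    exact_mod_cast Finset.card_image_le.trans (Finset.card_filter_le _ _)
  refine (hv q (by omega) X hX1 hX2 B' hB').trans ?_
  refine mul_le_mul_of_nonneg_left ?_ (by positivity)
  rw [intervalIntegral.integral_of_le hXK]
  refine MeasureTheory.setIntegral_mono_on (MW.VB_int q B' θ hθ X _ hX)
    ((intervalIntegrable_iff_integrableOn_Ioc_of_le hXK).mp hm) measurableSet_Ioc ?_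
  intro x hx
  have hx0 : 0 < x := hX0.trans hx.1
  have h1 := Fin2_le q B x (m x)
  rw [← hB'def] at h1
  exact div_le_div_of_nonneg_right h1 (Real.rpow_nonneg hx0.le _)

end Pool.Agent.MW
end
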