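import Mathlib
import Pool.Agent.Lib.MP_9cfc0a_nt.SK.E0

section

set_option autoImplicit false

/-! Task NA: numbers. -/

namespace Pool.Agent.SD

private theorem NA_core (ε h δ L Y Y' D I g J η p : ℝ) (hε : 0 < ε) (hε1 : ε ≤ 1) (hh : h = ε / 100)
    (hδ : δ = ε ^ 2 / 100000) (hp3 : 3 < p) (hp4 : p < 3.15) (hL : 10 / ε ≤ L) (hLY' : L ≤ Y')
    (hLY : L / 2 ≤ Y) (hYY' : Y ≤ Y') (hY1 : (1 - δ) * Y' ≤ Y) (hD : 0 ≤ D)
    (hI1 : 2 * p - δ ≤ I) (hI2 : I ≤ 2 * p) (hg : 0 ≤ g) (hη : 0 < η) (hη1 : η ≤ δ * h)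
    (hJ : J ≤ 2 * (h + η) * (1 + 2 * (h + η) + 4 * (h + η) ^ 2) * g)
    (hmain : I * (h / (2 * p) * (2 * (L * Y) - L ^ 2) - δ * (L * Y)) - Y / 2 * J ≤
      (2 * h * (1 + 12 * h) + δ) * (Y' / Y) * D + 1) :
    1 / 2 * (2 * (L * Y') - L ^ 2) - 1 / 2 * Y' * g - ε * (L * Y') ≤ D := by
  have hL0 : 0 < L := lt_of_lt_of_le (by positivity) hL
  have hL1 : 10 ≤ ε * L := by
    rw [div_le_iff₀ hε] at hL
    linarith
  have hY0 : 0 < Y := by linarith
  have hY'0 : 0 < Y' := by linarith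
  have hh0 : 0 < h := by rw [hh]; positivity
  have hh1 : h ≤ 1 / 100 := by rw [hh]; linarith
  have hδ0 : 0 < δ := by rw [hδ]; positivity
  have hε2 : ε ^ 2 ≤ ε := by
    have := mul_le_mul_of_nonneg_right hε1 hε.le
    rw [sq]
    linarith
  have hδ1 : δ ≤ h / 1000 := by
    rw [hδ, hh]
    linarith
  have hp0 : 0 < p := by linarith
  obtain ⟨P, hP⟩ : ∃ P, P = L * Y' := ⟨_, rfl⟩
  obtain ⟨Q, hQ⟩ : ∃ Q, Q = L * Y := ⟨_, rfl⟩
  rw [← hP]
  rw [← hQ] at hmain
  have hP0 : 0 < P := by rw [hP]; positivity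
  have hQ0 : 0 < Q := by rw [hQ]; positivity
  have hQP : Q ≤ P := by
    rw [hP, hQ]; exact mul_le_mul_of_nonneg_left hYY' hL0.le
  have hQP2 : (1 - δ) * P ≤ Q := by
    rw [hP, hQ]
    have := mul_le_mul_of_nonneg_left hY1 hL0.le
    linarith
  have hLP : L ^ 2 ≤ P := by
    rw [hP, sq]
    exact mul_le_mul_of_nonneg_left hLY' hL0.le
  have hQL : L ^ 2 ≤ 2 * Q := by
    rw [hQ, sq]
    have := mul_le_mul_of_nonneg_left hLY hL0.le
    linarith
  have hL2 : 0 ≤ L ^ 2 := sq_nonneg L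
  have hGP : 0 ≤ Y' * g := by positivity
  by_cases hg2 : 2 * L ≤ g
  · have h1 : 2 * P ≤ Y' * g := by
      have := mul_le_mul_of_nonneg_left hg2 hY'0.le
      rw [hP]
      linarith
    have h2 : 0 ≤ ε * P := by positivity
    linarith
  · rw [not_le] at hg2
    have hG : Y' * g ≤ 2 * P := by
      have := mul_le_mul_of_nonneg_left hg2.le hY'0.le
      rw [hP]
      linarith
    -- the bound of `J`
    have hJ2 : J ≤ 2 * h * (1 + 5 * h) * g := by
      refine hJ.trans (mul_le_mul_of_nonneg_right ?_ hg)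
      have e0 : η ≤ h ^ 2 / 1000 := by
        have := mul_le_mul_of_nonneg_right hδ1 hh0.le
        have e : h / 1000 * h = h ^ 2 / 1000 := by ring
        linarith
      have e0' : h ^ 2 / 1000 ≤ h / 1000 := by
        have f1 := mul_le_mul_of_nonneg_right hh1 hh0.le
        rw [sq]
        linarith
      obtain ⟨a, ha⟩ : ∃ a, a = h + η := ⟨_, rfl⟩
      rw [← ha]
      have e1 : a ≤ h * (1 + h / 1000) := by
        have e : h * (1 + h / 1000) = h + h ^ 2 / 1000 := by ring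
        rw [ha, e]
        linarith
      have e2 : 0 < a := by rw [ha]; positivity
      have e3 : a ≤ 1.001 * h := by rw [ha]; linarith
      have e4 : a ≤ 0.02 := by linarith
      have e5 : 1 + 2 * a + 4 * a ^ 2 ≤ 1 + 3 * h := by
        have f1 : a ^ 2 ≤ 0.02 * a := by
          rw [sq]
          exact mul_le_mul_of_nonneg_right e4 e2.le
        linarith
      have e6 : 2 * a * (1 + 2 * a + 4 * a ^ 2) ≤ 2 * (h * (1 + h / 1000)) * (1 + 3 * h) := by
        refine mul_le_mul (by linarith) e5 (by positivity) (by positivity)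
      refine e6.trans ?_
      have e7 : 2 * h * (1 + 5 * h) - 2 * (h * (1 + h / 1000)) * (1 + 3 * h) =
          h ^ 2 * (4 - 2 / 1000 - 6 / 1000 * h) := by ring
      have e8 : 0 ≤ h ^ 2 * (4 - 2 / 1000 - 6 / 1000 * h) := by
        refine mul_nonneg (sq_nonneg h) (by linarith)
      linarith
    have hJ3 : Y / 2 * J ≤ h * (Y' * g) + 10 * h ^ 2 * P := by
      have e1 : Y / 2 * J ≤ Y / 2 * (2 * h * (1 + 5 * h) * g) :=
        mul_le_mul_of_nonneg_left hJ2 (by positivity)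
      have e2 : Y / 2 * (2 * h * (1 + 5 * h) * g) = h * (1 + 5 * h) * (Y * g) := by ring
      have e3 : Y * g ≤ Y' * g := mul_le_mul_of_nonneg_right hYY' hg
      have e4 : h * (1 + 5 * h) * (Y * g) ≤ h * (1 + 5 * h) * (Y' * g) :=
        mul_le_mul_of_nonneg_left e3 (by positivity)
      have e5 : 5 * h ^ 2 * (Y' * g) ≤ 5 * h ^ 2 * (2 * P) :=
        mul_le_mul_of_nonneg_left hG (by positivity)
      have e6 : h * (1 + 5 * h) * (Y' * g) = h * (Y' * g) + 5 * h ^ 2 * (Y' * g) := by ring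
      linarith
    -- the bound of the main term
    have hδP : 0 ≤ δ * P := by positivity
    have hIB : h * (2 * P - L ^ 2) - 9 * (δ * P) ≤ I * (h / (2 * p) * (2 * Q - L ^ 2) - δ * Q) := by
      obtain ⟨b, hb⟩ : ∃ b, b = h / (2 * p) * (2 * Q - L ^ 2) := ⟨_, rfl⟩
      rw [← hb]
      have e1 : 2 * p * b = h * (2 * Q - L ^ 2) := by
        rw [hb]
        field_simp
      have e2 : 0 ≤ b := by
        rw [hb]
        refine mul_nonneg (by positivity) (by linarith)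
      have e3 : b ≤ P := by
        have f1 : 0 ≤ 2 * Q - L ^ 2 := by linarith
        have f2 : h * (2 * Q - L ^ 2) ≤ 1 * (2 * Q - L ^ 2) :=
          mul_le_mul_of_nonneg_right (by linarith) f1
        have f3 : 2 * p * b ≤ 2 * P := by
          rw [e1]
          linarith
        have f4 : 2 * b ≤ 2 * p * b := by
          refine mul_le_mul_of_nonneg_right (by linarith) e2
        linarith
      have e4 : (2 * p - δ) * b ≤ I * b := mul_le_mul_of_nonneg_right hI1 e2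
      have e5 : δ * b ≤ δ * P := mul_le_mul_of_nonneg_left e3 hδ0.le
      have e6 : I * (δ * Q) ≤ 6.3 * (δ * P) := by
        have f1 : I ≤ 6.3 := by linarith
        have f2 : I * (δ * Q) ≤ 6.3 * (δ * Q) := mul_le_mul_of_nonneg_right f1 (by positivity)
        have f3 : δ * Q ≤ δ * P := mul_le_mul_of_nonneg_left hQP hδ0.le
        linarith
      have e7 : h * (2 * P - L ^ 2) ≤ h * (2 * Q - L ^ 2) + δ * P := by
        have f1 : P - Q ≤ δ * P := by linarith
        have f2 : 2 * h * (P - Q) ≤ 2 * h * (δ * P) := mul_le_mul_of_nonneg_left f1 (by positivity)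
        have f3 : 2 * h * (δ * P) ≤ 1 * (δ * P) := mul_le_mul_of_nonneg_right (by linarith) hδP
        linarith
      have e8 : I * (b - δ * Q) = I * b - I * (δ * Q) := by ring
      have e9 : (2 * p - δ) * b = 2 * p * b - δ * b := by ring
      rw [e8]
      linarith
    obtain ⟨K, hK⟩ : ∃ K, K = 2 * h * (1 + 12 * h) + δ := ⟨_, rfl⟩
    rw [← hK] at hmain
    have hK0 : 0 < K := by rw [hK]; positivity
    obtain ⟨R, hR⟩ : ∃ R, R = h * (2 * P - L ^ 2) - 9 * (δ * P) - h * (Y' * g) - 10 * h ^ 2 * P - 1 :=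
      ⟨_, rfl⟩
    have h1 : R ≤ K * (Y' / Y) * D := by
      rw [hR]
      linarith
    have h3 : Y' / Y * (1 - δ) ≤ 1 := by
      rw [div_mul_eq_mul_div, div_le_one hY0]
      linarith
    have hδ2 : δ ≤ 1 := by linarith
    have h4 : (1 - δ) * R ≤ K * D := by
      calc (1 - δ) * R ≤ (1 - δ) * (K * (Y' / Y) * D) :=
            mul_le_mul_of_nonneg_left h1 (by linarith)
        _ = (Y' / Y * (1 - δ)) * (K * D) := by ring
        _ ≤ 1 * (K * D) := mul_le_mul_of_nonneg_right h3 (by positivity)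
        _ = K * D := one_mul _
    have h5 : R - δ * P ≤ K * D := by
      have e1 : R ≤ P := by
        have f1 : h * (2 * P - L ^ 2) ≤ h * (2 * P) := mul_le_mul_of_nonneg_left (by linarith) hh0.le
        have f2 : h * (2 * P) ≤ P := by
          have := mul_le_mul_of_nonneg_right hh1 hP0.le
          linarith
        have f3 : 0 ≤ h * (Y' * g) := by positivity
        have f4 : 0 ≤ 10 * h ^ 2 * P := by positivity
        rw [hR]
        linarith
      have e2 : δ * R ≤ δ * P := mul_le_mul_of_nonneg_left e1 hδ0.le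
      have e3 : (1 - δ) * R = R - δ * R := by ring
      linarith
    have h6 : K * (1 / 2 * (2 * P - L ^ 2) - 1 / 2 * Y' * g - ε * P) ≤
        h * (2 * P - L ^ 2) - h * (Y' * g) + (24 * h ^ 2 + δ - 2 * h * ε) * P := by
      have e1 : K * (1 / 2 * (2 * P - L ^ 2) - 1 / 2 * Y' * g - ε * P) =
          h * (2 * P - L ^ 2) - h * (Y' * g) + (12 * h ^ 2 + δ / 2) * (2 * P - L ^ 2 - Y' * g) -
            K * (ε * P) := by
        rw [hK]; ring
      have e2 : (12 * h ^ 2 + δ / 2) * (2 * P - L ^ 2 - Y' * g) ≤ (12 * h ^ 2 + δ / 2) * (2 * P) :=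
        mul_le_mul_of_nonneg_left (by linarith) (by positivity)
      have e3 : 2 * h * (ε * P) ≤ K * (ε * P) := by
        refine mul_le_mul_of_nonneg_right ?_ (by positivity)
        rw [hK]
        have f1 : 0 ≤ 24 * h ^ 2 := by positivity
        have f2 : 2 * h * (1 + 12 * h) = 2 * h + 24 * h ^ 2 := by ring
        linarith
      rw [e1]
      linarith
    have h8 : 1 ≤ (2 * h * ε - 34 * h ^ 2 - 11 * δ) * P := by
      have e1 : ε ^ 2 / 100 ≤ 2 * h * ε - 34 * h ^ 2 - 11 * δ := by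
        rw [hh, hδ]
        have f1 : 0 ≤ ε ^ 2 := sq_nonneg ε
        have f2 : 2 * (ε / 100) * ε - 34 * (ε / 100) ^ 2 - 11 * (ε ^ 2 / 100000) =
            ε ^ 2 * (1 / 50 - 34 / 10000 - 11 / 100000) := by ring
        rw [f2]
        linarith
      have e2 : 100 ≤ ε ^ 2 * P := by
        have f1 : 100 ≤ (ε * L) ^ 2 := by
          have := mul_le_mul hL1 hL1 (by norm_num) (by positivity)
          rw [sq]
          linarith
        have f2 : ε ^ 2 * L ^ 2 ≤ ε ^ 2 * P := mul_le_mul_of_nonneg_left hLP (by positivity)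
        have f3 : (ε * L) ^ 2 = ε ^ 2 * L ^ 2 := by ring
        linarith
      have e3 := mul_le_mul_of_nonneg_right e1 hP0.le
      linarith
    have h9 : K * (1 / 2 * (2 * P - L ^ 2) - 1 / 2 * Y' * g - ε * P) ≤ K * D := by
      have e1 : (24 * h ^ 2 + δ - 2 * h * ε) * P =
          -((2 * h * ε - 34 * h ^ 2 - 11 * δ) * P) - 10 * h ^ 2 * P - 10 * (δ * P) := by ring
      rw [e1] at h6
      rw [hR] at h5
      linarith
    exact le_of_mul_le_mul_left h9 hK0

/-- NA. Final numbers. PROOF. As `final_numeric` in SK/M1E.lean (look at `M1E_core` there), `h = ε/100`, `δ` small compared with `ε h`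
(say `ε²/10⁵`). `J` is the integral of the weighted count. If `g ≥ 3 L` then the claim is trivial (its left side is `≤ 0 ≤ D`, as
`L² ≤ L Y'`). Otherwise `g ≤ 3 L`; `h₁ := h + η ≤ h (1 + δ)`, so `J ≤ 2 h (1 + 4h + ...) g ≤ 2 h g + 12 h² ... g` etc. Put `P = L Y'`, `Q = L Y`:
`(1-δ) P ≤ Q ≤ P`, `L² ≤ P`. From `hmain`:
`(2h(1+12h)+δ) (Y'/Y) D ≥ I (h/(2π) (2Q - L²) - δ Q) - (Y/2) J - 1 ≥ h (2Q - L²) - h Y g - (errors) P - 1` (`2π - δ ≤ I ≤ 2π`; `2Q - L² ≥ 0` unless `P` is... note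
`Q ≥ L²/2`, so `2Q - L² ≥ 0` always), `Y'/Y ≤ 1/(1-δ)`, and `Y g ≤ Y' g`. Divide by `2h(1+12h)+δ`; if the right side is negative the claim
follows as well (`D ≥ 0`). -/
theorem final_numeric2 (ε : ℝ) (hε : 0 < ε) (hε1 : ε ≤ 1) : ∃ h δ : ℝ, 0 < h ∧ h ≤ 1 ∧ 0 < δ ∧ δ ≤ 1 / 2 ∧
    ∃ L₀ : ℝ, 1 ≤ L₀ ∧ ∀ L Y Y' D I g J η : ℝ, L₀ ≤ L → L ≤ Y' → L / 2 ≤ Y → Y ≤ Y' → (1 - δ) * Y' ≤ Y → 0 ≤ D →
      2 * Real.pi - δ ≤ I → I ≤ 2 * Real.pi → 0 ≤ g → 0 < η → η ≤ δ * h →
      J ≤ 2 * (h + η) * (1 + 2 * (h + η) + 4 * (h + η) ^ 2) * g →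
      I * (h / (2 * Real.pi) * (2 * (L * Y) - L ^ 2) - δ * (L * Y)) - Y / 2 * J ≤
        (2 * h * (1 + 12 * h) + δ) * (Y' / Y) * D + 1 →
      1 / 2 * (2 * (L * Y') - L ^ 2) - 1 / 2 * Y' * g - ε * (L * Y') ≤ D := by
  refine ⟨ε / 100, ε ^ 2 / 100000, by positivity, by linarith, by positivity, ?_, 10 / ε, ?_, ?_⟩
  · have : ε ^ 2 ≤ 1 := pow_le_one₀ hε.le hε1
    linarith
  · rw [le_div_iff₀ hε]; linarith
  · intro L Y Y' D I g J η h1 h2 h3 h4 h5 h6 h7 h8 h9 h10 h11 h12 h13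
    exact NA_core ε (ε / 100) (ε ^ 2 / 100000) L Y Y' D I g J η Real.pi hε hε1 rfl rfl
      Real.pi_gt_three Real.pi_lt_d2 h1 h2 h3 h4 h5 h6 h7 h8 h9 h10 h11 h12 h13

end Pool.Agent.SD
end

section

set_option autoImplicit false

namespace Pool.Agent.SK.E

open Complex MeasureTheory

/-- E1. The Gaussian on the imaginary axis is the normal density.

PROOF. `(v I - x I)^2 = -(v - x)^2` (`I^2 = -1`), so the exponent is the real number
`-(W²/2) (v - x)²`; `Complex.ofReal_exp`, `push_cast`. -/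
theorem gz_line (W x v : ℝ) : gz W x ((v : ℂ) * I) = ((nd W x v : ℝ) : ℂ) := by
  unfold gz nd
  rw [Complex.ofReal_mul, Complex.ofReal_exp]
  congr 2
  have : ((v : ℂ) * I - (x : ℂ) * I) ^ 2 = -((v : ℂ) - x) ^ 2 := by
    rw [← sub_mul, mul_pow, I_sq]; ring
  rw [this]
  push_cast
  ring

private theorem E1_form (W x s v : ℝ) : gz W x ((v : ℂ) * I) * Complex.exp ((v : ℂ) * s * I) =
    ((W / Real.sqrt (2 * Real.pi) : ℝ) : ℂ) *
      cexp (-((W ^ 2 / 2 : ℝ) : ℂ) * (v : ℂ) ^ 2 + (((W ^ 2 * x : ℝ) : ℂ) + s * I) * v +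
        (-(W ^ 2 * x ^ 2 / 2 : ℝ) : ℂ)) := by
  unfold gz
  rw [mul_assoc, ← Complex.exp_add]
  congr 2
  have : ((v : ℂ) * I - (x : ℂ) * I) ^ 2 = -((v : ℂ) - x) ^ 2 := by
    rw [← sub_mul, mul_pow, I_sq]; ring
  rw [this]
  push_cast
  ring

private theorem E1_form2 (W x s v : ℝ) : gz W x ((v : ℂ) * I) * Complex.exp ((v : ℂ) * s * I) =
    (((W / Real.sqrt (2 * Real.pi) : ℝ) : ℂ) * cexp ((v : ℂ) * s * I)) *
      cexp (-((W ^ 2 / 2 : ℝ) : ℂ) * ((v - x : ℝ) : ℂ) ^ 2) := by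
  unfold gz
  rw [mul_assoc (((W / Real.sqrt (2 * Real.pi) : ℝ) : ℂ)), mul_assoc (((W / Real.sqrt (2 * Real.pi) : ℝ) : ℂ)),
    ← Complex.exp_add, ← Complex.exp_add]
  congr 2
  have : ((v : ℂ) * I - (x : ℂ) * I) ^ 2 = -((v : ℂ) - x) ^ 2 := by
    rw [← sub_mul, mul_pow, I_sq]; ring
  rw [this]
  push_cast
  ring

private theorem E1_re (W : ℝ) (hW : 0 < W) : 0 < ((W ^ 2 / 2 : ℝ) : ℂ).re := by
  rw [Complex.ofReal_re]; positivity

private theorem E1_int (W x s : ℝ) (hW : 0 < W) :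
    Integrable (fun v : ℝ => gz W x ((v : ℂ) * I) * Complex.exp ((v : ℂ) * s * I)) := by
  have h := (integrable_cexp_quadratic (E1_re W hW) (((W ^ 2 * x : ℝ) : ℂ) + s * I)
    (-(W ^ 2 * x ^ 2 / 2 : ℝ) : ℂ)).const_mul (((W / Real.sqrt (2 * Real.pi) : ℝ) : ℂ))
  refine h.congr (Filter.Eventually.of_forall fun v => ?_)
  simp only
  rw [E1_form]

private theorem E1_val (W x s : ℝ) (hW : 0 < W) :
    ∫ v : ℝ, gz W x ((v : ℂ) * I) * Complex.exp ((v : ℂ) * s * I) =
      Complex.exp ((x : ℂ) * s * I - ((s ^ 2 / (2 * W ^ 2) : ℝ) : ℂ)) := by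
  have hre : (-((W ^ 2 / 2 : ℝ) : ℂ)).re < 0 := by
    rw [neg_re]; exact neg_neg_of_pos (E1_re W hW)
  have h := integral_cexp_quadratic hre (((W ^ 2 * x : ℝ) : ℂ) + s * I)
    (-(W ^ 2 * x ^ 2 / 2 : ℝ) : ℂ)
  have e : (fun v : ℝ => gz W x ((v : ℂ) * I) * Complex.exp ((v : ℂ) * s * I)) =
      fun v : ℝ => ((W / Real.sqrt (2 * Real.pi) : ℝ) : ℂ) *
      cexp (-((W ^ 2 / 2 : ℝ) : ℂ) * (v : ℂ) ^ 2 + (((W ^ 2 * x : ℝ) : ℂ) + s * I) * v +
        (-(W ^ 2 * x ^ 2 / 2 : ℝ) : ℂ)) := by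
    funext v
    exact E1_form W x s v
  rw [e, integral_const_mul, h, ← mul_assoc]
  have h1 : ((W / Real.sqrt (2 * Real.pi) : ℝ) : ℂ) *
      ((Real.pi : ℂ) / - -((W ^ 2 / 2 : ℝ) : ℂ)) ^ (1 / 2 : ℂ) = 1 := by
    have h2 : ((Real.pi : ℂ) / - -((W ^ 2 / 2 : ℝ) : ℂ)) = ((2 * Real.pi / W ^ 2 : ℝ) : ℂ) := by
      rw [neg_neg]
      push_cast
      have : (W : ℂ) ≠ 0 := by exact_mod_cast hW.ne'
      field_simp
    rw [h2]
    have h3 : (1 / 2 : ℂ) = ((1 / 2 : ℝ) : ℂ) := by norm_num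
    rw [h3, ← Complex.ofReal_cpow (by positivity), ← Real.sqrt_eq_rpow, ← Complex.ofReal_mul]
    rw [Real.sqrt_div (by positivity), Real.sqrt_sq hW.le]
    have h4 : Real.sqrt (2 * Real.pi) ≠ 0 := by positivity
    norm_cast
    field_simp
  rw [h1, one_mul]
  congr 1
  have hWc : (W : ℂ) ≠ 0 := by exact_mod_cast hW.ne'
  push_cast
  field_simp
  ring_nf
  rw [I_sq]
  ring

private theorem E1_int2 (W x s : ℝ) (hW : 0 < W) :
    Integrable (fun v : ℝ => ((v - x : ℝ) : ℂ) *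
      (gz W x ((v : ℂ) * I) * Complex.exp ((v : ℂ) * s * I))) := by
  have h := (integrable_mul_cexp_neg_mul_sq (E1_re W hW)).comp_sub_right x
  have h2 : Integrable (fun v : ℝ => (((W / Real.sqrt (2 * Real.pi) : ℝ) : ℂ) *
      cexp ((v : ℂ) * s * I)) * (((v - x : ℝ) : ℂ) *
        cexp (-((W ^ 2 / 2 : ℝ) : ℂ) * ((v - x : ℝ) : ℂ) ^ 2))) := by
    refine h.bdd_mul (c := ‖((W / Real.sqrt (2 * Real.pi) : ℝ) : ℂ)‖) ?_ ?_
    · exact Continuous.aestronglyMeasurable (by fun_prop)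
    · refine Filter.Eventually.of_forall fun v => ?_
      rw [norm_mul]
      have : ‖cexp ((v : ℂ) * s * I)‖ = 1 := by
        rw [← Complex.ofReal_mul]
        exact Complex.norm_exp_ofReal_mul_I _
      rw [this, mul_one]
  refine h2.congr (Filter.Eventually.of_forall fun v => ?_)
  simp only
  rw [E1_form2]
  ring

/-- E1. The kernel as a Fourier integral.

PROOF. Write `n v = nd W x v`, `E v = n v * exp (i v s)` (`= gz W x (v I) * exp(v s I)` by `gz_line`).
(1) `∫ E = exp (i x s - s²/(2W²))`: substitute `v = x + y` and use `fourierIntegral_gaussian` or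
`integral_cexp_quadratic` / `GaussianFourier` (with `b = W²/2`):
`∫ exp(-(W²/2) y²) exp(i y s) dy = (√(2π)/W) exp(-s²/(2W²))`. `E` is integrable since `‖E v‖ = n v`
(`integrable_exp_neg_mul_sq`, translated).
(2) `∫ (i s - W² (v - x)) E v dv = 0`: the integrand is `E'`, and `E`, `E'` are integrable
(`integral_eq_zero_of_hasDerivAt_of_integrable`; integrability of `(v - x) n v`:
`integrable_mul_exp_neg_mul_sq`, translated).
(3) `1/2 + v i = (1/2 + x i - s/W²) + (-i/W²) (i s - W² (v - x))` (use `i² = -1`), so by (1), (2)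
`∫ (1/2 + v i) E v dv = (1/2 + x i - s/W²) exp(i x s - s²/(2W²)) = gk W x s`. -/
theorem kernel0 (W x s : ℝ) (hW : 0 < W) :
    Integrable (fun v : ℝ => (1 / 2 + (v : ℂ) * I) * (gz W x ((v : ℂ) * I) * Complex.exp ((v : ℂ) * s * I))) ∧
    ∫ v : ℝ, (1 / 2 + (v : ℂ) * I) * (gz W x ((v : ℂ) * I) * Complex.exp ((v : ℂ) * s * I)) = gk W x s := by
  have hWc : (W : ℂ) ≠ 0 := by exact_mod_cast hW.ne'
  have i1 := E1_int W x s hW
  have i2 := E1_int2 W x s hW
  -- the derivative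
  have i3 : Integrable (fun v : ℝ => ((s : ℂ) * I - (W : ℂ) ^ 2 * ((v - x : ℝ) : ℂ)) *
      (gz W x ((v : ℂ) * I) * Complex.exp ((v : ℂ) * s * I))) := by
    refine ((i1.const_mul ((s : ℂ) * I)).sub (i2.const_mul ((W : ℂ) ^ 2))).congr
      (Filter.Eventually.of_forall fun v => ?_)
    simp only [Pi.sub_apply]
    ring
  have d : ∀ v : ℝ, HasDerivAt (fun v : ℝ => gz W x ((v : ℂ) * I) * Complex.exp ((v : ℂ) * s * I))
      (((s : ℂ) * I - (W : ℂ) ^ 2 * ((v - x : ℝ) : ℂ)) *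
      (gz W x ((v : ℂ) * I) * Complex.exp ((v : ℂ) * s * I))) v := by
    intro v
    have e : (fun v : ℝ => gz W x ((v : ℂ) * I) * Complex.exp ((v : ℂ) * s * I)) =
      fun v : ℝ => ((W / Real.sqrt (2 * Real.pi) : ℝ) : ℂ) *
      cexp (-((W ^ 2 / 2 : ℝ) : ℂ) * (v : ℂ) ^ 2 + (((W ^ 2 * x : ℝ) : ℂ) + s * I) * v +
        (-(W ^ 2 * x ^ 2 / 2 : ℝ) : ℂ)) := by
      funext v
      exact E1_form W x s v
    rw [E1_form W x s v, e]
    have hid : HasDerivAt (fun v : ℝ => (v : ℂ)) 1 v := Complex.ofRealCLM.hasDerivAt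
    have h1 : HasDerivAt (fun v : ℝ => -((W ^ 2 / 2 : ℝ) : ℂ) * (v : ℂ) ^ 2 +
        (((W ^ 2 * x : ℝ) : ℂ) + s * I) * v + (-(W ^ 2 * x ^ 2 / 2 : ℝ) : ℂ))
        (-((W ^ 2 / 2 : ℝ) : ℂ) * (2 * (v : ℂ)) + (((W ^ 2 * x : ℝ) : ℂ) + s * I)) v := by
      have h2 := (((hid.pow 2).const_mul (-((W ^ 2 / 2 : ℝ) : ℂ))).add
        (hid.const_mul (((W ^ 2 * x : ℝ) : ℂ) + s * I))).add_const
          (-(W ^ 2 * x ^ 2 / 2 : ℝ) : ℂ)
      refine h2.congr_deriv ?_
      push_cast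
      ring
    have h3 := (h1.cexp).const_mul (((W / Real.sqrt (2 * Real.pi) : ℝ) : ℂ))
    refine h3.congr_deriv ?_
    push_cast
    ring
  have z := integral_eq_zero_of_hasDerivAt_of_integrable d i3 i1
  have key : ∀ v : ℝ, (1 / 2 + (v : ℂ) * I) *
      (gz W x ((v : ℂ) * I) * Complex.exp ((v : ℂ) * s * I)) =
      (1 / 2 + (x : ℂ) * I - ((s / W ^ 2 : ℝ) : ℂ)) *
        (gz W x ((v : ℂ) * I) * Complex.exp ((v : ℂ) * s * I)) +
      (-I / (W : ℂ) ^ 2) * (((s : ℂ) * I - (W : ℂ) ^ 2 * ((v - x : ℝ) : ℂ)) *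
        (gz W x ((v : ℂ) * I) * Complex.exp ((v : ℂ) * s * I))) := by
    intro v
    have : (1 / 2 + (v : ℂ) * I) = (1 / 2 + (x : ℂ) * I - ((s / W ^ 2 : ℝ) : ℂ)) +
        (-I / (W : ℂ) ^ 2) * ((s : ℂ) * I - (W : ℂ) ^ 2 * ((v - x : ℝ) : ℂ)) := by
      have hw : (W : ℂ) ^ 2 ≠ 0 := pow_ne_zero 2 hWc
      have h : (-I / (W : ℂ) ^ 2) * ((s : ℂ) * I - (W : ℂ) ^ 2 * ((v - x : ℝ) : ℂ)) =
          (s : ℂ) / (W : ℂ) ^ 2 + I * ((v : ℂ) - x) := by
        rw [div_mul_eq_mul_div, div_eq_iff hw, add_mul, div_mul_cancel₀ _ hw]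
        push_cast
        linear_combination (-(s : ℂ)) * I_sq
      rw [h]
      push_cast
      ring
    rw [this]
    ring
  have j1 := i1.const_mul (1 / 2 + (x : ℂ) * I - ((s / W ^ 2 : ℝ) : ℂ))
  have j2 := i3.const_mul (-I / (W : ℂ) ^ 2)
  constructor
  · exact (j1.add j2).congr (Filter.Eventually.of_forall fun v => (key v).symm)
  · rw [integral_congr_ae (Filter.Eventually.of_forall key), integral_add j1 j2,
      integral_const_mul, integral_const_mul, z, mul_zero, add_zero, E1_val W x s hW]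
    rfl

end Pool.Agent.SK.E
end

section

set_option autoImplicit false

namespace Pool.Agent.SK.E

open Complex MeasureTheory

private theorem E2_cont (W : ℝ) : Continuous fun p : ℝ × ℝ => nd W p.1 p.2 := by
  unfold nd
  fun_prop

private theorem E2_symm (W x y : ℝ) : nd W x y = nd W y x := by
  unfold nd
  congr 2
  ring

private theorem E2_int (W : ℝ) (hW : 0 < W) (x : ℝ) :
    Integrable (fun y => nd W x y) ∧ ∫ y, nd W x y = 1 := by
  have hb : (0 : ℝ) < W ^ 2 / 2 := by positivity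
  have h1 : Integrable (fun y : ℝ => Real.exp (-(W ^ 2 / 2) * (y - x) ^ 2)) :=
    (integrable_exp_neg_mul_sq hb).comp_sub_right x
  have h2 : ∫ y : ℝ, Real.exp (-(W ^ 2 / 2) * (y - x) ^ 2) = Real.sqrt (2 * Real.pi) / W := by
    rw [integral_sub_right_eq_self (fun y : ℝ => Real.exp (-(W ^ 2 / 2) * y ^ 2)) x,
      integral_gaussian]
    have h3 : Real.pi / (W ^ 2 / 2) = 2 * Real.pi / W ^ 2 := by
      field_simp
    rw [h3, Real.sqrt_div (by positivity), Real.sqrt_sq hW.le]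
  unfold nd
  refine ⟨h1.const_mul _, ?_⟩
  rw [integral_const_mul, h2]
  have h4 : Real.sqrt (2 * Real.pi) ≠ 0 := by positivity
  field_simp

/-- E2. The normal density.

PROOF. `nd W x y = W/√(2π) exp(-(W²/2)(y-x)²)`: `integrable_exp_neg_mul_sq`, `integral_gaussian`
(`∫ exp(-b y²) = √(π/b)`, `b = W²/2`, `√(2π/W²) = √(2π)/W`), translated (`comp_sub_right`,
`integral_sub_right_eq_self`). By symmetry in `x, y` the integral over `x` is the same. -/
theorem nd_facts (W : ℝ) (hW : 0 < W) : (∀ x y, 0 < nd W x y) ∧ (Continuous fun p : ℝ × ℝ => nd W p.1 p.2) ∧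
    (∀ x, Integrable (fun y => nd W x y)) ∧ (∀ x, ∫ y, nd W x y = 1) ∧
    (∀ y, Integrable (fun x => nd W x y)) ∧ (∀ y, ∫ x, nd W x y = 1) := by
  refine ⟨fun x y => ?_, E2_cont W, fun x => (E2_int W hW x).1, fun x => (E2_int W hW x).2,
    fun y => ?_, fun y => ?_⟩
  · unfold nd
    have := Real.exp_pos (-(W ^ 2 / 2) * (y - x) ^ 2)
    have h2 : 0 < W / Real.sqrt (2 * Real.pi) := div_pos hW (by positivity)
    exact mul_pos h2 this
  · have h : (fun x => nd W x y) = fun x => nd W y x := funext fun x => E2_symm W x y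
    rw [h]
    exact (E2_int W hW y).1
  · have h : (fun x => nd W x y) = fun x => nd W y x := funext fun x => E2_symm W x y
    rw [h]
    exact (E2_int W hW y).2

/-- E2. The window is between `0` and `1`, continuous, and is the transform of the kernel.

PROOF. `0 ≤ c ≤ ∫_ℝ nd W x y dx = 1` (`nd_facts`; `intervalIntegral.integral_of_le`,
`setIntegral_le_integral`). Continuity: `intervalIntegral.continuous_parametric_intervalIntegral_of_continuous'` or
`continuous_parametric_intervalIntegral_of_continuous`. Last part: by `gz_line`,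
`FI W (u-h) (u+h) (v I) = ∫_{u-h}^{u+h} nd W x v dx` (`intervalIntegral.integral_ofReal`), substitute
`x = u + x'` (`intervalIntegral.integral_comp_add_left`) and `nd W (u + x') v = nd W x' (v - u)`. -/
theorem cw_facts (W h : ℝ) (hW : 0 < W) (hh : 0 ≤ h) : (∀ y, 0 ≤ cw W h y) ∧ (∀ y, cw W h y ≤ 1) ∧
    Continuous (cw W h) ∧
    (∀ u v : ℝ, FI W (u - h) (u + h) ((v : ℂ) * I) = ((cw W h (v - u) : ℝ) : ℂ)) := by
  obtain ⟨hpos, hcont, hi1, hv1, hi2, hv2⟩ := nd_facts W hW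
  refine ⟨fun y => ?_, fun y => ?_, ?_, fun u v => ?_⟩
  · unfold cw
    exact intervalIntegral.integral_nonneg (by linarith) fun x _ => (hpos x y).le
  · unfold cw
    rw [intervalIntegral.integral_of_le (by linarith), ← hv2 y]
    exact setIntegral_le_integral (hi2 y) (Filter.Eventually.of_forall fun x => (hpos x y).le)
  · unfold cw
    have h1 : Continuous (Function.uncurry fun (y x : ℝ) => nd W x y) :=
      hcont.comp continuous_swap
    exact intervalIntegral.continuous_parametric_intervalIntegral_of_continuous' h1 _ _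
  · unfold FI cw
    simp only [gz_line]
    rw [intervalIntegral.integral_ofReal]
    congr 1
    have h1 : ∀ x : ℝ, nd W x (v - u) = nd W (u + x) v := by
      intro x
      unfold nd
      congr 2
      ring
    simp only [h1]
    rw [intervalIntegral.integral_comp_add_left (fun x => nd W x v) u]
    congr 1

end Pool.Agent.SK.E
end

section

set_option autoImplicit false

namespace Pool.Agent.SK.E

open Complex MeasureTheory

/-- the second moment of the normal density with mean `0` -/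
private theorem E2m_second0 (W : ℝ) (hW : 0 < W) :
    Integrable (fun y => y ^ 2 * nd W 0 y) ∧ ∫ y, y ^ 2 * nd W 0 y = 1 / W ^ 2 := by
  have hb : (0 : ℝ) < W ^ 2 / 2 := by positivity
  have hnd : ∀ y, nd W 0 y = W / Real.sqrt (2 * Real.pi) * Real.exp (-(W ^ 2 / 2) * y ^ 2) := by
    intro y
    unfold nd
    rw [sub_zero]
  have hi2 : Integrable (fun y : ℝ => y ^ 2 * nd W 0 y) := by
    have h1 := integrable_rpow_mul_exp_neg_mul_sq hb (s := 2) (by norm_num)
    have h2 := h1.const_mul (W / Real.sqrt (2 * Real.pi))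
    refine h2.congr (Filter.Eventually.of_forall fun y => ?_)
    simp only [hnd]
    rw [show (2 : ℝ) = ((2 : ℕ) : ℝ) by norm_num, Real.rpow_natCast]
    push_cast
    ring
  have hi1 : Integrable (fun y : ℝ => y * nd W 0 y) := by
    have h1 := (integrable_mul_exp_neg_mul_sq hb).const_mul (W / Real.sqrt (2 * Real.pi))
    refine h1.congr (Filter.Eventually.of_forall fun y => ?_)
    simp only [hnd]
    ring
  have hi0 : Integrable (fun y : ℝ => nd W 0 y) := (nd_facts W hW).2.2.1 0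
  have hd : ∀ y : ℝ, HasDerivAt (fun y => y * nd W 0 y) (nd W 0 y - W ^ 2 * (y ^ 2 * nd W 0 y)) y := by
    intro y
    have h1 : HasDerivAt (fun y => nd W 0 y) (W / Real.sqrt (2 * Real.pi) *
        (Real.exp (-(W ^ 2 / 2) * y ^ 2) * (-(W ^ 2 / 2) * (((2 : ℕ) : ℝ) * y ^ (2 - 1))))) y := by
      have h2 := (((hasDerivAt_pow 2 y).const_mul (-(W ^ 2 / 2))).exp).const_mul
        (W / Real.sqrt (2 * Real.pi))
      refine h2.congr_of_eventuallyEq (Filter.Eventually.of_forall fun z => ?_)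
      exact hnd z
    refine ((hasDerivAt_id y).mul h1).congr_deriv ?_
    rw [hnd]
    simp only [id]
    push_cast
    ring
  have h0 := integral_eq_zero_of_hasDerivAt_of_integrable hd (hi0.sub (hi2.const_mul _)) hi1
  rw [integral_sub hi0 (hi2.const_mul _), integral_const_mul, (nd_facts W hW).2.2.2.1 0] at h0
  refine ⟨hi2, ?_⟩
  have hW2 : W ^ 2 ≠ 0 := by positivity
  field_simp
  linarith

private theorem E2m_second (W : ℝ) (hW : 0 < W) (x : ℝ) :
    Integrable (fun y => (y - x) ^ 2 * nd W x y) ∧ ∫ y, (y - x) ^ 2 * nd W x y = 1 / W ^ 2 := by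
  have h : ∀ y, (y - x) ^ 2 * nd W x y = (fun z => z ^ 2 * nd W 0 z) (y - x) := by
    intro y
    simp only
    unfold nd
    rw [sub_zero]
  simp only [h]
  exact ⟨(E2m_second0 W hW).1.comp_sub_right x,
    (integral_sub_right_eq_self (fun z => z ^ 2 * nd W 0 z) x).trans (E2m_second0 W hW).2⟩

private theorem E2m_pt (W h x y : ℝ) (hW : 0 < W) (hx : |x| ≤ h) :
    1 + 2 * |y| + 4 * y ^ 2 ≤ (1 + 2 * h + 8 * h ^ 2 + 1 / W) + (W + 8) * (y - x) ^ 2 := by
  have h1 : |y| ≤ |y - x| + |x| := by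
    have := abs_add_le (y - x) x
    rwa [sub_add_cancel] at this
  have h2 : 2 * |y - x| ≤ 1 / W + W * (y - x) ^ 2 := by
    have h3 : 0 ≤ (1 - W * |y - x|) ^ 2 / W := by positivity
    have h4 : (1 - W * |y - x|) ^ 2 / W = 1 / W + W * (y - x) ^ 2 - 2 * |y - x| := by
      rw [← sq_abs (y - x)]
      field_simp
      ring
    linarith
  have h5 : y ^ 2 ≤ 2 * (y - x) ^ 2 + 2 * h ^ 2 := by
    have h6 : x ^ 2 ≤ h ^ 2 := by
      rw [← sq_abs x]
      have := abs_nonneg x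
      gcongr
    nlinarith [sq_nonneg (y - x - x)]
  nlinarith

private theorem E2m_inner (W h : ℝ) (hW : 1 ≤ W) (hh : 0 ≤ h) (hh1 : h ≤ 1) (x : ℝ) (hx : |x| ≤ h) :
    Integrable (fun y => nd W x y * (1 + 2 * |y| + 4 * y ^ 2)) ∧
    ∫ y, nd W x y * (1 + 2 * |y| + 4 * y ^ 2) ≤ 1 + 10 * h + 10 / W := by
  have hW0 : 0 < W := by linarith
  obtain ⟨hpos, hcont, hi1, hv1, hi2, hv2⟩ := nd_facts W hW0
  obtain ⟨hs1, hs2⟩ := E2m_second W hW0 x
  set K : ℝ := 1 + 2 * h + 8 * h ^ 2 + 1 / W with hK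
  have hdom : Integrable (fun y => K * nd W x y + (W + 8) * ((y - x) ^ 2 * nd W x y)) :=
    ((hi1 x).const_mul K).add (hs1.const_mul (W + 8))
  have hle : ∀ y, nd W x y * (1 + 2 * |y| + 4 * y ^ 2) ≤
      K * nd W x y + (W + 8) * ((y - x) ^ 2 * nd W x y) := by
    intro y
    have h1 := mul_le_mul_of_nonneg_left (E2m_pt W h x y hW0 hx) (hpos x y).le
    rw [← hK] at h1
    linarith
  have hint : Integrable (fun y => nd W x y * (1 + 2 * |y| + 4 * y ^ 2)) := by
    refine hdom.mono' ?_ (Filter.Eventually.of_forall fun y => ?_)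
    · have h1 : Continuous fun y => nd W x y := hcont.comp (by fun_prop : Continuous fun y : ℝ => (x, y))
      have h2 : Continuous fun y : ℝ => 1 + 2 * |y| + 4 * y ^ 2 := by fun_prop
      exact (h1.mul h2).aestronglyMeasurable
    · rw [Real.norm_of_nonneg (mul_nonneg (hpos x y).le (by positivity))]
      exact hle y
  refine ⟨hint, ?_⟩
  calc ∫ y, nd W x y * (1 + 2 * |y| + 4 * y ^ 2)
      ≤ ∫ y, (K * nd W x y + (W + 8) * ((y - x) ^ 2 * nd W x y)) := integral_mono hint hdom hle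
    _ = K + (W + 8) * (1 / W ^ 2) := by
        rw [integral_add ((hi1 x).const_mul K) (hs1.const_mul (W + 8)), integral_const_mul,
          integral_const_mul, hv1 x, hs2, mul_one]
    _ ≤ 1 + 10 * h + 10 / W := by
        have h1 : (W + 8) * (1 / W ^ 2) ≤ 9 / W := by
          rw [mul_one_div, div_le_div_iff₀ (by positivity) hW0]
          nlinarith [mul_nonneg (by linarith : (0 : ℝ) ≤ W) (by linarith : (0 : ℝ) ≤ W - 1)]
        have h2 : h ^ 2 ≤ h := by nlinarith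
        have h3 : 10 / W = 1 / W + 9 / W := by ring
        rw [hK, h3]
        linarith

/-- E2m. Moments of the window.

PROOF. For `|x| ≤ h ≤ 1` and all `y`, with `g = y - x`:
`1 + 2|y| + 4y² ≤ 1 + 2h + 2|g| + 8h² + 8g² ≤ (1 + 2h + 8h² + 1/W) + (W + 8) g²`
(`2|g| ≤ 1/W + W g²`, from `(1/√W - √W |g|)² ≥ 0`, i.e. `0 ≤ (1 - W|g|)²/W`). So with `∫ nd W x y dy = 1` and
`∫ (y-x)² nd W x y dy = 1/W²` (`integral_gaussian`-type: e.g. `∫ y² exp(-b y²) = √π/(2 b^(3/2))`; Mathlib: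
`integral_sq_mul_exp_neg_mul_sq`? otherwise `integral_rpow_mul_exp_neg_mul_sq`, or integration by
parts, or `ProbabilityTheory.variance_fun_id_gaussianReal` / `gaussianReal`), for each `x ∈ [-h,h]`:
`∫ nd W x y (1 + 2|y| + 4y²) dy ≤ 1 + 2h + 8h² + 1/W + (W+8)/W² ≤ 1 + 10h + 10/W` (`h ≤ 1 ≤ W`).
Fubini (`integral_integral_swap` on `[-h,h] × ℝ`, or `intervalIntegral_integral_swap`-style lemmas;
the integrand is nonnegative and continuous, so one may also work with `lintegral`):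
`∫ c(y)(1+2|y|+4y²) dy = ∫_{-h}^{h} ∫ nd W x y (1+2|y|+4y²) dy dx ≤ 2h (1 + 10h + 10/W)`. -/
theorem cw_moment (W h : ℝ) (hW : 1 ≤ W) (hh : 0 ≤ h) (hh1 : h ≤ 1) :
    Integrable (fun y => cw W h y * (1 + 2 * |y| + 4 * y ^ 2)) ∧
    ∫ y, cw W h y * (1 + 2 * |y| + 4 * y ^ 2) ≤ 2 * h * (1 + 10 * h + 10 / W) := by
  have hW0 : 0 < W := by linarith
  obtain ⟨hpos, hcont, hi1, hv1, hi2, hv2⟩ := nd_facts W hW0
  set B : ℝ := 1 + 10 * h + 10 / W with hB
  set μ : Measure ℝ := volume.restrict (Set.Ioc (-h) h) with hμ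
  let F : ℝ → ℝ → ℝ := fun x y => nd W x y * (1 + 2 * |y| + 4 * y ^ 2)
  have hFpos : ∀ x y, 0 ≤ F x y := fun x y => mul_nonneg (hpos x y).le (by positivity)
  have hFc : Continuous (Function.uncurry F) :=
    hcont.mul (by fun_prop : Continuous fun p : ℝ × ℝ => 1 + 2 * |p.2| + 4 * p.2 ^ 2)
  have hIoc : ∀ᵐ x ∂μ, |x| ≤ h := by
    refine (ae_restrict_iff' measurableSet_Ioc).2 (Filter.Eventually.of_forall fun x hx => ?_)
    exact abs_le.2 ⟨hx.1.le, hx.2⟩
  have hFi : Integrable (Function.uncurry F) (μ.prod volume) := by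
    rw [integrable_prod_iff hFc.aestronglyMeasurable]
    constructor
    · filter_upwards [hIoc] with x hx
      exact (E2m_inner W h hW hh hh1 x hx).1
    · refine (integrable_const B).mono'
        (hFc.aestronglyMeasurable.norm.integral_prod_right') ?_
      filter_upwards [hIoc] with x hx
      rw [Real.norm_of_nonneg (integral_nonneg fun y => norm_nonneg _)]
      have h1 : ∀ y, ‖Function.uncurry F (x, y)‖ = F x y := fun y =>
        Real.norm_of_nonneg (hFpos x y)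
      simp only [h1]
      exact (E2m_inner W h hW hh hh1 x hx).2
  have hcw : ∀ y, cw W h y * (1 + 2 * |y| + 4 * y ^ 2) = ∫ x, F x y ∂μ := by
    intro y
    unfold cw
    rw [intervalIntegral.integral_of_le (by linarith), ← integral_mul_const]
  simp only [hcw]
  refine ⟨hFi.integral_prod_right, ?_⟩
  rw [← integral_integral_swap hFi]
  calc ∫ x, (∫ y, F x y) ∂μ ≤ ∫ _x, B ∂μ := by
        refine integral_mono_ae hFi.integral_prod_left (integrable_const B) ?_
        filter_upwards [hIoc] with x hx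
        exact (E2m_inner W h hW hh hh1 x hx).2
    _ = 2 * h * B := by
        rw [integral_const, smul_eq_mul, hμ, measureReal_restrict_apply_univ, Measure.real,
          Real.volume_Ioc, ENNReal.toReal_ofReal (by linarith)]
        ring

end Pool.Agent.SK.E
end

section

set_option autoImplicit false

namespace Pool.Agent.SK.E

open Complex MeasureTheory

private theorem E3a_exp_norm (a b : ℝ) : ‖Complex.exp ((a : ℂ) * b * I)‖ = 1 := by
  have h : (a : ℂ) * b * I = ((a * b : ℝ) : ℂ) * I := by push_cast; ring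
  rw [h, Complex.norm_exp_ofReal_mul_I]

private theorem E3a_exp_norm' (a b : ℝ) : ‖Complex.exp (-((a : ℂ) * b * I))‖ = 1 := by
  have h : -((a : ℂ) * b * I) = ((-(a * b) : ℝ) : ℂ) * I := by push_cast; ring
  rw [h, Complex.norm_exp_ofReal_mul_I]

private theorem E3a_fh_cont (g : ℝ → ℂ) (hg : Integrable g) : Continuous (fh g) := by
  unfold fh
  apply continuous_of_dominated (bound := fun s => ‖g s‖)
  · intro v
    apply hg.aestronglyMeasurable.mul
    exact (by fun_prop : Continuous fun s : ℝ => Complex.exp (-((v : ℂ) * s * I))).aestronglyMeasurable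
  · intro v
    refine Filter.Eventually.of_forall fun s => ?_
    rw [norm_mul, E3a_exp_norm', mul_one]
  · exact hg.norm
  · refine Filter.Eventually.of_forall fun s => ?_
    fun_prop

private theorem E3a_fh_bound (g : ℝ → ℂ) (v : ℝ) : ‖fh g v‖ ≤ ∫ s, ‖g s‖ := by
  unfold fh
  refine (norm_integral_le_integral_norm _).trans (le_of_eq ?_)
  apply integral_congr_ae
  refine Filter.Eventually.of_forall fun s => ?_
  show ‖g s * Complex.exp (-((v : ℂ) * s * I))‖ = ‖g s‖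
  rw [norm_mul, E3a_exp_norm', mul_one]

private theorem E3a_gz_cont (W : ℝ) : Continuous fun p : ℝ × ℝ => gz W p.1 ((p.2 : ℂ) * I) := by
  unfold gz
  fun_prop

private theorem E3a_K_int (W x : ℝ) (hW : 0 < W) :
    Integrable (fun v : ℝ => (1 / 2 + (v : ℂ) * I) * gz W x ((v : ℂ) * I)) := by
  have h := (kernel0 W x 0 hW).1
  refine h.congr (Filter.Eventually.of_forall fun v => ?_)
  show (1 / 2 + (v : ℂ) * I) * (gz W x ((v : ℂ) * I) * Complex.exp ((v : ℂ) * (0 : ℝ) * I)) = _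
  simp

private theorem E3a_gz_norm (W x v : ℝ) (hW : 0 < W) :
    ‖gz W x ((v : ℂ) * I)‖ = W / Real.sqrt (2 * Real.pi) * Real.exp (-(W ^ 2 / 2) * (v - x) ^ 2) := by
  rw [gz_line, Complex.norm_real, Real.norm_of_nonneg]
  · rfl
  · unfold nd
    positivity

private theorem E3a_step1 (g : ℝ → ℂ) (hg : Integrable g) (W x t : ℝ) (hW : 0 < W) :
    ∫ s : ℝ, g s * gk W x (t - s) = ∫ v : ℝ, fh g v * ((1 / 2 + (v : ℂ) * I) *
      (gz W x ((v : ℂ) * I) * Complex.exp ((v : ℂ) * t * I))) := by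
  have h1 : ∀ s : ℝ, g s * gk W x (t - s) = ∫ v : ℝ, g s * ((1 / 2 + (v : ℂ) * I) *
      (gz W x ((v : ℂ) * I) * Complex.exp ((v : ℂ) * (t - s : ℝ) * I))) := by
    intro s
    rw [integral_const_mul, (kernel0 W x (t - s) hW).2]
  simp_rw [h1]
  rw [integral_integral_swap]
  · apply integral_congr_ae
    refine Filter.Eventually.of_forall fun v => ?_
    show (∫ s : ℝ, g s * ((1 / 2 + (v : ℂ) * I) *
      (gz W x ((v : ℂ) * I) * Complex.exp ((v : ℂ) * (t - s : ℝ) * I)))) =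
      fh g v * ((1 / 2 + (v : ℂ) * I) *
      (gz W x ((v : ℂ) * I) * Complex.exp ((v : ℂ) * t * I)))
    unfold fh
    rw [← integral_mul_const]
    apply integral_congr_ae
    refine Filter.Eventually.of_forall fun s => ?_
    show g s * ((1 / 2 + (v : ℂ) * I) *
      (gz W x ((v : ℂ) * I) * Complex.exp ((v : ℂ) * (t - s : ℝ) * I))) =
      g s * Complex.exp (-((v : ℂ) * s * I)) * ((1 / 2 + (v : ℂ) * I) *
      (gz W x ((v : ℂ) * I) * Complex.exp ((v : ℂ) * t * I)))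
    have h2 : Complex.exp ((v : ℂ) * (t - s : ℝ) * I) =
        Complex.exp (-((v : ℂ) * s * I)) * Complex.exp ((v : ℂ) * t * I) := by
      rw [← Complex.exp_add]
      congr 1
      push_cast
      ring
    rw [h2]
    ring
  · have h3 := hg.mul_prod (E3a_K_int W x hW)
    refine h3.norm.mono' ?_ ?_
    · have h4 : AEStronglyMeasurable (fun z : ℝ × ℝ => Complex.exp ((z.2 : ℂ) * (t - z.1 : ℝ) * I))
          (volume.prod volume) := by
        apply Continuous.aestronglyMeasurable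
        fun_prop
      refine (h3.aestronglyMeasurable.mul h4).congr (Filter.Eventually.of_forall fun z => ?_)
      show g z.1 * ((1 / 2 + (z.2 : ℂ) * I) * gz W x ((z.2 : ℂ) * I)) *
        Complex.exp ((z.2 : ℂ) * (t - z.1 : ℝ) * I) = g z.1 * ((1 / 2 + (z.2 : ℂ) * I) *
          (gz W x ((z.2 : ℂ) * I) * Complex.exp ((z.2 : ℂ) * (t - z.1 : ℝ) * I)))
      ring
    · refine Filter.Eventually.of_forall fun z => ?_
      show ‖g z.1 * ((1 / 2 + (z.2 : ℂ) * I) *
          (gz W x ((z.2 : ℂ) * I) * Complex.exp ((z.2 : ℂ) * (t - z.1 : ℝ) * I)))‖ ≤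
        ‖g z.1 * ((1 / 2 + (z.2 : ℂ) * I) * gz W x ((z.2 : ℂ) * I))‖
      rw [norm_mul, norm_mul, norm_mul, norm_mul, norm_mul, E3a_exp_norm, mul_one]

private theorem E3a_dom_int (c : ℝ) (hc : 0 < c) (C : ℝ) :
    Integrable (fun v : ℝ => C * ((1 / 2 + |v|) * Real.exp (-c * v ^ 2))) := by
  apply Integrable.const_mul
  have h1 : Integrable (fun v : ℝ => (1 / 2 : ℝ) * Real.exp (-c * v ^ 2)) :=
    (integrable_exp_neg_mul_sq hc).const_mul _
  have h2 : Integrable (fun v : ℝ => ‖v * Real.exp (-c * v ^ 2)‖) :=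
    (integrable_mul_exp_neg_mul_sq hc).norm
  refine (h1.add h2).congr (Filter.Eventually.of_forall fun v => ?_)
  show (1 / 2 : ℝ) * Real.exp (-c * v ^ 2) + ‖v * Real.exp (-c * v ^ 2)‖ = _
  rw [norm_mul, Real.norm_eq_abs, Real.norm_of_nonneg (Real.exp_pos _).le]
  ring

private theorem E3a_prod_int (g : ℝ → ℂ) (hg : Integrable g) (W a b t : ℝ) (hW : 0 < W) :
    Integrable (Function.uncurry fun (x v : ℝ) => fh g v * ((1 / 2 + (v : ℂ) * I) *
      (gz W x ((v : ℂ) * I) * Complex.exp ((v : ℂ) * t * I))))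
      ((volume.restrict (Set.Ioc a b)).prod volume) := by
  set R : ℝ := max |a| |b| with hR
  set M : ℝ := ∫ s, ‖g s‖ with hM
  have hM0 : 0 ≤ M := integral_nonneg fun s => norm_nonneg _
  have hdom : Integrable (fun z : ℝ × ℝ => (M * (W / Real.sqrt (2 * Real.pi) *
      Real.exp (W ^ 2 / 2 * R ^ 2))) * ((1 / 2 + |z.2|) * Real.exp (-(W ^ 2 / 4) * z.2 ^ 2)))
      ((volume.restrict (Set.Ioc a b)).prod volume) :=
    (E3a_dom_int (W ^ 2 / 4) (by positivity) (M * (W / Real.sqrt (2 * Real.pi) *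
      Real.exp (W ^ 2 / 2 * R ^ 2)))).comp_snd (volume.restrict (Set.Ioc a b))
  refine hdom.mono' ?_ ?_
  · apply Continuous.aestronglyMeasurable
    have h1 := E3a_fh_cont g hg
    have h2 := E3a_gz_cont W
    show Continuous fun z : ℝ × ℝ => fh g z.2 * ((1 / 2 + (z.2 : ℂ) * I) *
      (gz W z.1 ((z.2 : ℂ) * I) * Complex.exp ((z.2 : ℂ) * t * I)))
    have h3 : Continuous fun z : ℝ × ℝ => fh g z.2 := h1.comp continuous_snd
    have h4 : Continuous fun z : ℝ × ℝ => (1 / 2 + (z.2 : ℂ) * I) := by fun_prop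
    have h5 : Continuous fun z : ℝ × ℝ => Complex.exp ((z.2 : ℂ) * t * I) := by fun_prop
    exact h3.mul (h4.mul (h2.mul h5))
  · have hmem : ∀ᵐ z ∂((volume.restrict (Set.Ioc a b)).prod (volume : Measure ℝ)),
        z.1 ∈ Set.Ioc a b :=
      (Measure.quasiMeasurePreserving_fst (μ := volume.restrict (Set.Ioc a b))
        (ν := (volume : Measure ℝ))).ae (ae_restrict_mem measurableSet_Ioc)
    filter_upwards [hmem] with z hz
    show ‖fh g z.2 * ((1 / 2 + (z.2 : ℂ) * I) *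
      (gz W z.1 ((z.2 : ℂ) * I) * Complex.exp ((z.2 : ℂ) * t * I)))‖ ≤ _
    rw [norm_mul, norm_mul, norm_mul, E3a_exp_norm, mul_one, E3a_gz_norm W z.1 z.2 hW]
    have h1 := E3a_fh_bound g z.2
    have h2 : ‖(1 / 2 + (z.2 : ℂ) * I)‖ ≤ 1 / 2 + |z.2| := by
      refine (norm_add_le _ _).trans ?_
      rw [norm_mul, Complex.norm_I, mul_one, Complex.norm_real, Real.norm_eq_abs]
      have : ‖(1 / 2 : ℂ)‖ = 1 / 2 := by
        rw [norm_div, norm_one, Complex.norm_two]
      rw [this]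
    have hx : z.1 ^ 2 ≤ R ^ 2 := by
      apply sq_le_sq'
      · have h3 : -|a| ≤ a := neg_abs_le a
        have h4 : |a| ≤ R := le_max_left _ _
        have h5 := hz.1
        linarith
      · have h3 : b ≤ |b| := le_abs_self b
        have h4 : |b| ≤ R := le_max_right _ _
        exact hz.2.trans (h3.trans h4)
    have h3 : Real.exp (-(W ^ 2 / 2) * (z.2 - z.1) ^ 2) ≤
        Real.exp (W ^ 2 / 2 * R ^ 2) * Real.exp (-(W ^ 2 / 4) * z.2 ^ 2) := by
      rw [← Real.exp_add]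
      apply Real.exp_le_exp.2
      have h4 : z.2 ^ 2 / 2 - z.1 ^ 2 ≤ (z.2 - z.1) ^ 2 := by
        nlinarith [sq_nonneg (z.2 - 2 * z.1)]
      have h5 : 0 < W ^ 2 / 2 := by positivity
      have h6 := mul_le_mul_of_nonneg_left h4 h5.le
      have h7 := mul_le_mul_of_nonneg_left hx h5.le
      linarith
    have hW' : 0 ≤ W / Real.sqrt (2 * Real.pi) := by positivity
    calc ‖fh g z.2‖ * (‖(1 / 2 + (z.2 : ℂ) * I)‖ * (W / Real.sqrt (2 * Real.pi) *
        Real.exp (-(W ^ 2 / 2) * (z.2 - z.1) ^ 2)))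
        ≤ M * ((1 / 2 + |z.2|) * (W / Real.sqrt (2 * Real.pi) *
          (Real.exp (W ^ 2 / 2 * R ^ 2) * Real.exp (-(W ^ 2 / 4) * z.2 ^ 2)))) := by
          gcongr
      _ = _ := by ring

/-- E3a. The convolution as a Fourier integral.

PROOF. `K(v) := (1/2 + v i) gz W x (v i)` is integrable in `v`, and `gk W x (t-s) = ∫ K(v) exp(v (t-s) i) dv`
(`kernel0`). For fixed `x`: `∫ g(s) gk W x (t-s) ds = ∫∫ g(s) K(v) exp(v(t-s) i) dv ds
= ∫ K(v) exp(v t i) (∫ g(s) exp(-v s i) ds) dv` (`integral_integral_swap`; the double integrand has norm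
`‖g s‖ ‖K v‖`, integrable on the product: `Integrable.mul_prod`). Then integrate over `x ∈ [a,b]` and swap
again: on `[a,b] × ℝ` the norm is `≤ ‖fh g v‖ (1/2+|v|) nd W x v`, `‖fh g v‖ ≤ ∫‖g‖`, and
`∫_{[a,b]} ∫ (1/2 + |v|) nd W x v dv dx < ∞` (`(x,v) ↦ (1/2+|v|) nd W x v` is bounded by a constant times
`(1 + v²) exp(-(W²/4) v²)` for `x ∈ [a,b]`, as `(v-x)² ≥ v²/2 - x²`). -/
theorem QQ_fourier (g : ℝ → ℂ) (hg : Integrable g) (W a b t : ℝ) (hW : 0 < W) (hab : a ≤ b) :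
    QQ g W a b t = (1 / (2 * Real.pi) : ℂ) *
      ∫ v : ℝ, (fh g v * ((1 / 2 + (v : ℂ) * I) * FI W a b ((v : ℂ) * I))) * Complex.exp ((v : ℂ) * t * I) := by
  unfold QQ
  congr 1
  rw [intervalIntegral.integral_of_le hab]
  have h1 : ∀ x : ℝ, ∫ s : ℝ, g s * gk W x (t - s) = ∫ v : ℝ, fh g v * ((1 / 2 + (v : ℂ) * I) *
      (gz W x ((v : ℂ) * I) * Complex.exp ((v : ℂ) * t * I))) :=
    fun x => E3a_step1 g hg W x t hW
  simp_rw [h1]
  rw [integral_integral_swap (E3a_prod_int g hg W a b t hW)]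
  apply integral_congr_ae
  refine Filter.Eventually.of_forall fun v => ?_
  show (∫ x in Set.Ioc a b, fh g v * ((1 / 2 + (v : ℂ) * I) *
      (gz W x ((v : ℂ) * I) * Complex.exp ((v : ℂ) * t * I)))) =
    (fh g v * ((1 / 2 + (v : ℂ) * I) * FI W a b ((v : ℂ) * I))) * Complex.exp ((v : ℂ) * t * I)
  unfold FI
  rw [intervalIntegral.integral_of_le hab]
  have h2 : ∀ x : ℝ, fh g v * ((1 / 2 + (v : ℂ) * I) *
      (gz W x ((v : ℂ) * I) * Complex.exp ((v : ℂ) * t * I))) =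
      (fh g v * (1 / 2 + (v : ℂ) * I) * Complex.exp ((v : ℂ) * t * I)) * gz W x ((v : ℂ) * I) := by
    intro x
    ring
  simp_rw [h2]
  rw [integral_const_mul]
  ring

end Pool.Agent.SK.E
end

section

set_option autoImplicit false

namespace Pool.Agent.SK.E

open Complex MeasureTheory

private theorem E5a_norm (W x s : ℝ) :
    ‖gk W x s‖ ≤ (1 / 2 + |x| + |s| / W ^ 2) * Real.exp (-(s ^ 2 / (2 * W ^ 2))) := by
  unfold gk
  rw [norm_mul, Complex.norm_exp]
  have h1 : ((x : ℂ) * s * I - ((s ^ 2 / (2 * W ^ 2) : ℝ) : ℂ)).re = -(s ^ 2 / (2 * W ^ 2)) := by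
    have : ((x : ℂ) * s * I).re = 0 := by
      rw [← Complex.ofReal_mul, Complex.re_ofReal_mul]
      simp
    rw [Complex.sub_re, this, Complex.ofReal_re]
    ring
  rw [h1]
  refine mul_le_mul_of_nonneg_right ?_ (Real.exp_pos _).le
  refine (norm_sub_le _ _).trans ?_
  refine add_le_add ((norm_add_le _ _).trans ?_) ?_
  · refine add_le_add ?_ ?_
    · norm_num
    · rw [norm_mul, Complex.norm_I, mul_one, Complex.norm_real, Real.norm_eq_abs]
  · rw [Complex.norm_real, Real.norm_eq_abs, abs_div, abs_of_nonneg (sq_nonneg W)]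

private theorem E5a_cont (W x : ℝ) : Continuous (fun s : ℝ => gk W x s) := by
  unfold gk
  fun_prop

private theorem E5a_expo (W Y R s : ℝ) (hW : 1 ≤ W) (hY : W ^ 2 ≤ Y)
    (hR : 2 * W * Real.sqrt Y ≤ R) (hs : R < s) :
    s / 2 - s ^ 2 / (2 * W ^ 2) ≤ -(3 / 4) * Y - (1 / (16 * W ^ 2)) * s ^ 2 := by
  have hW0 : 0 < W := by linarith
  have hYW : W ≤ Real.sqrt Y := Real.le_sqrt_of_sq_le hY
  have hY0 : 0 ≤ Y := le_trans (sq_nonneg _) hY
  have hsq : Real.sqrt Y ^ 2 = Y := Real.sq_sqrt hY0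
  have h1 : 2 * W * Real.sqrt Y ≤ s := hR.trans hs.le
  have h2 : 2 * W ^ 2 ≤ s := by nlinarith
  have hs0 : 0 < s := by nlinarith
  have h3 : 4 * W ^ 2 * Y ≤ s ^ 2 := by
    have h4 : 0 ≤ 2 * W * Real.sqrt Y := by positivity
    have h5 : (2 * W * Real.sqrt Y) ^ 2 ≤ s ^ 2 := by gcongr
    rw [mul_pow, mul_pow, hsq] at h5
    linarith
  have hW2 : 0 < W ^ 2 := by positivity
  rw [div_sub_div _ _ (by norm_num) (by positivity), div_le_iff₀ (by positivity)]
  have h6 : (-(3 / 4) * Y - 1 / (16 * W ^ 2) * s ^ 2) * (2 * (2 * W ^ 2)) =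
      -3 * (W ^ 2 * Y) - s ^ 2 / 4 := by
    field_simp
    ring
  rw [h6]
  nlinarith [mul_le_mul_of_nonneg_right h2 hs0.le]

private theorem E5a_int1 (W : ℝ) (hW : 0 < W) :
    IntegrableOn (fun s : ℝ => Real.exp (-(1 / (16 * W ^ 2)) * s ^ 2)) (Set.Ioi 0) ∧
      ∫ s in Set.Ioi (0 : ℝ), Real.exp (-(1 / (16 * W ^ 2)) * s ^ 2) ≤ 4 * W := by
  have hb : (0 : ℝ) < 1 / (16 * W ^ 2) := by positivity
  refine ⟨(integrable_exp_neg_mul_sq hb).integrableOn, ?_⟩
  rw [integral_gaussian_Ioi]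
  have h1 : Real.pi / (1 / (16 * W ^ 2)) = Real.pi * (4 * W) ^ 2 := by
    field_simp
    ring
  rw [h1, Real.sqrt_mul Real.pi_pos.le, Real.sqrt_sq (by positivity)]
  have h2 : Real.sqrt Real.pi ≤ 2 := by
    rw [Real.sqrt_le_left (by norm_num)]
    linarith [Real.pi_lt_four]
  nlinarith

private theorem E5a_int2 (W : ℝ) (hW : 0 < W) :
    IntegrableOn (fun s : ℝ => s * Real.exp (-(1 / (16 * W ^ 2)) * s ^ 2)) (Set.Ioi 0) ∧
      ∫ s in Set.Ioi (0 : ℝ), s * Real.exp (-(1 / (16 * W ^ 2)) * s ^ 2) = 8 * W ^ 2 := by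
  have hb : (0 : ℝ) < 1 / (16 * W ^ 2) := by positivity
  have hint : IntegrableOn (fun s : ℝ => s * Real.exp (-(1 / (16 * W ^ 2)) * s ^ 2))
      (Set.Ioi 0) := (integrable_mul_exp_neg_mul_sq hb).integrableOn
  refine ⟨hint, ?_⟩
  have hd : ∀ x ∈ Set.Ici (0 : ℝ),
      HasDerivAt (fun s : ℝ => -(8 * W ^ 2) * Real.exp (-(1 / (16 * W ^ 2)) * s ^ 2))
        (x * Real.exp (-(1 / (16 * W ^ 2)) * x ^ 2)) x := by
    intro x _
    have h1 := (((hasDerivAt_pow 2 x).const_mul (-(1 / (16 * W ^ 2)))).exp).const_mul (-(8 * W ^ 2))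
    refine h1.congr_deriv ?_
    have hW2 : W ^ 2 ≠ 0 := by positivity
    push_cast
    field_simp
    ring
  have ht : Filter.Tendsto (fun s : ℝ => -(8 * W ^ 2) * Real.exp (-(1 / (16 * W ^ 2)) * s ^ 2))
      Filter.atTop (nhds (-(8 * W ^ 2) * 0)) := by
    refine Filter.Tendsto.const_mul _ (Real.tendsto_exp_atBot.comp ?_)
    exact (Filter.tendsto_pow_atTop two_ne_zero).const_mul_atTop_of_neg (by linarith)
  rw [integral_Ioi_of_hasDerivAt_of_tendsto' hd hint ht]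
  simp

/-- E5a. The tail of the kernel against `e^(σ/2)`.

PROOF. `‖gk W x s‖ ≤ (1/2 + |x| + |s|/W²) exp(-s²/(2W²))`. For `σ ≥ R ≥ 2 W √Y ≥ 2 W²`:
`σ/2 ≤ σ²/(4W²)` and `σ²/(4W²) ≥ Y`, so
`σ/2 - σ²/(2W²) ≤ -σ²/(4W²) = -(3/4) σ²/(4W²) - σ²/(16W²) ≤ -(3/4) Y - σ²/(16 W²)`. Hence the integrand is
at most `e^(-3Y/4) (A + 1 + σ/W²) exp(-σ²/(16W²))` for `σ > R`, and
`∫_{σ>0} exp(-σ²/(16W²)) dσ ≤ 4W·2` (`= 2√π W`), `∫_{σ>0} (σ/W²) exp(-σ²/(16W²)) dσ = 8`. So `C = 8(A+1) + 8`. -/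
theorem kernel_tail (A : ℝ) (hA : 0 ≤ A) : ∃ C : ℝ, 0 ≤ C ∧ ∀ W Y R x : ℝ, 1 ≤ W → W ^ 2 ≤ Y →
    2 * W * Real.sqrt Y ≤ R → |x| ≤ A →
    IntegrableOn (fun σ : ℝ => Real.exp (σ / 2) * ‖gk W x (-σ)‖) (Set.Ioi R) ∧
    ∫ σ in Set.Ioi R, Real.exp (σ / 2) * ‖gk W x (-σ)‖ ≤ C * W * Real.exp (-(3 / 4) * Y) := by
  refine ⟨4 * (A + 1) + 8, by positivity, ?_⟩
  intro W Y R x hW hY hR hx
  have hW0 : 0 < W := by linarith
  have hR0 : 0 ≤ R := le_trans (by positivity) hR
  set e : ℝ → ℝ := fun s => Real.exp (-(1 / (16 * W ^ 2)) * s ^ 2) with he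
  set g : ℝ → ℝ := fun s => Real.exp (-(3 / 4) * Y) * ((A + 1) * e s + (1 / W ^ 2) * (s * e s)) with hg
  have hgint : IntegrableOn g (Set.Ioi 0) :=
    (((E5a_int1 W hW0).1.const_mul _).add ((E5a_int2 W hW0).1.const_mul _)).const_mul _
  have hsub : Set.Ioi R ⊆ Set.Ioi 0 := Set.Ioi_subset_Ioi hR0
  have hle : ∀ s ∈ Set.Ioi R, Real.exp (s / 2) * ‖gk W x (-s)‖ ≤ g s := by
    intro s hs
    have hs0 : 0 < s := lt_of_le_of_lt hR0 hs
    have h1 := E5a_norm W x (-s)
    rw [abs_neg, abs_of_pos hs0, neg_sq] at h1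
    have h2 := E5a_expo W Y R s hW hY hR hs
    calc Real.exp (s / 2) * ‖gk W x (-s)‖
        ≤ Real.exp (s / 2) * ((1 / 2 + |x| + s / W ^ 2) * Real.exp (-(s ^ 2 / (2 * W ^ 2)))) :=
          mul_le_mul_of_nonneg_left h1 (Real.exp_pos _).le
      _ = (1 / 2 + |x| + s / W ^ 2) * Real.exp (s / 2 - s ^ 2 / (2 * W ^ 2)) := by
          rw [sub_eq_add_neg, Real.exp_add]
          ring
      _ ≤ (A + 1 + s / W ^ 2) * Real.exp (-(3 / 4) * Y - (1 / (16 * W ^ 2)) * s ^ 2) := by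
          have h4 : 0 ≤ s / W ^ 2 := by positivity
          exact mul_le_mul (by linarith) (Real.exp_le_exp.2 h2) (Real.exp_pos _).le (by linarith)
      _ = g s := by
          simp only [hg, he]
          rw [sub_eq_add_neg, Real.exp_add, ← neg_mul]
          ring
  have hm : AEStronglyMeasurable (fun σ : ℝ => Real.exp (σ / 2) * ‖gk W x (-σ)‖)
      (volume.restrict (Set.Ioi R)) := by
    have h1 : Continuous (fun σ : ℝ => Real.exp (σ / 2) * ‖gk W x (-σ)‖) := by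
      have := (E5a_cont W x).comp continuous_neg
      exact (by fun_prop : Continuous fun σ : ℝ => Real.exp (σ / 2)).mul this.norm
    exact h1.aestronglyMeasurable
  have hint : IntegrableOn (fun σ : ℝ => Real.exp (σ / 2) * ‖gk W x (-σ)‖) (Set.Ioi R) := by
    refine Integrable.mono' (hgint.mono_set hsub) hm ?_
    refine (ae_restrict_iff' measurableSet_Ioi).2 (Filter.Eventually.of_forall fun s hs => ?_)
    rw [Real.norm_of_nonneg (mul_nonneg (Real.exp_pos _).le (norm_nonneg _))]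
    exact hle s hs
  refine ⟨hint, ?_⟩
  calc ∫ σ in Set.Ioi R, Real.exp (σ / 2) * ‖gk W x (-σ)‖
      ≤ ∫ σ in Set.Ioi R, g σ :=
        setIntegral_mono_on hint (hgint.mono_set hsub) measurableSet_Ioi hle
    _ ≤ ∫ σ in Set.Ioi (0 : ℝ), g σ := by
        refine setIntegral_mono_set hgint ?_ (Filter.Eventually.of_forall hsub)
        refine (ae_restrict_iff' measurableSet_Ioi).2 (Filter.Eventually.of_forall fun s hs => ?_)
        have hs0 : (0 : ℝ) < s := hs
        simp only [hg, he, Pi.zero_apply]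
        positivity
    _ = Real.exp (-(3 / 4) * Y) * ((A + 1) * (∫ s in Set.Ioi (0 : ℝ), e s) +
          (1 / W ^ 2) * (∫ s in Set.Ioi (0 : ℝ), s * e s)) := by
        simp only [hg]
        rw [integral_const_mul, integral_add ((E5a_int1 W hW0).1.const_mul _)
          ((E5a_int2 W hW0).1.const_mul _), integral_const_mul, integral_const_mul]
    _ ≤ Real.exp (-(3 / 4) * Y) * ((A + 1) * (4 * W) + (1 / W ^ 2) * (8 * W ^ 2)) := by
        rw [(E5a_int2 W hW0).2]
        have := (E5a_int1 W hW0).2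
        gcongr
    _ ≤ (4 * (A + 1) + 8) * W * Real.exp (-(3 / 4) * Y) := by
        have h1 : (1 / W ^ 2) * (8 * W ^ 2) = 8 := by field_simp
        rw [h1]
        have h2 : 0 < Real.exp (-(3 / 4) * Y) := Real.exp_pos _
        nlinarith

end Pool.Agent.SK.E
end

section

set_option autoImplicit false

namespace Pool.Agent.SK.E

open Complex MeasureTheory

private theorem E5b_norm (W x s : ℝ) :
    ‖gk W x s‖ ≤ (1 / 2 + |x| + |s| / W ^ 2) * Real.exp (-(s ^ 2 / (2 * W ^ 2))) := by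
  unfold gk
  rw [norm_mul, Complex.norm_exp]
  have h1 : ((x : ℂ) * s * I - ((s ^ 2 / (2 * W ^ 2) : ℝ) : ℂ)).re = -(s ^ 2 / (2 * W ^ 2)) := by
    have : ((x : ℂ) * s * I).re = 0 := by
      rw [← Complex.ofReal_mul, Complex.re_ofReal_mul]
      simp
    rw [Complex.sub_re, this, Complex.ofReal_re]
    ring
  rw [h1]
  refine mul_le_mul_of_nonneg_right ?_ (Real.exp_pos _).le
  refine (norm_sub_le _ _).trans ?_
  refine add_le_add ((norm_add_le _ _).trans ?_) ?_
  · refine add_le_add ?_ ?_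
    · norm_num
    · rw [norm_mul, Complex.norm_I, mul_one, Complex.norm_real, Real.norm_eq_abs]
  · rw [Complex.norm_real, Real.norm_eq_abs, abs_div, abs_of_nonneg (sq_nonneg W)]

private theorem E5b_cont (W x : ℝ) : Continuous (fun s : ℝ => gk W x s) := by
  unfold gk
  fun_prop

private theorem E5b_cont' (W s : ℝ) : Continuous (fun x : ℝ => gk W x s) := by
  unfold gk
  fun_prop

/-- the dominating function -/
private noncomputable def E5b_D (W A t v : ℝ) : ℝ :=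
  6 * Real.exp (t / 2 + W ^ 2 / 4) * ((1 / 2 + A) * Real.exp (-(1 / (4 * W ^ 2)) * (v - t) ^ 2) +
    (1 / W ^ 2) * |(v - t) * Real.exp (-(1 / (4 * W ^ 2)) * (v - t) ^ 2)|)

private theorem E5b_D_int (W A t : ℝ) (hW : 0 < W) : Integrable (E5b_D W A t) := by
  have hb : (0 : ℝ) < 1 / (4 * W ^ 2) := by positivity
  have h1 : Integrable (fun v : ℝ => Real.exp (-(1 / (4 * W ^ 2)) * (v - t) ^ 2)) :=
    (integrable_exp_neg_mul_sq hb).comp_sub_right t
  have h2 : Integrable (fun v : ℝ => (v - t) * Real.exp (-(1 / (4 * W ^ 2)) * (v - t) ^ 2)) :=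
    (integrable_mul_exp_neg_mul_sq hb).comp_sub_right t
  exact ((h1.const_mul _).add (h2.abs.const_mul _)).const_mul _

private theorem E5b_dom (W A t x v : ℝ) (hW : 0 < W) (hx : |x| ≤ A) (a : ℂ)
    (ha : ‖a‖ ≤ 6 * Real.exp (v / 2)) : ‖a * gk W x (t - v)‖ ≤ E5b_D W A t v := by
  have h1 := E5b_norm W x (t - v)
  have e1 : |t - v| = |v - t| := abs_sub_comm _ _
  have e2 : (t - v) ^ 2 = (v - t) ^ 2 := by ring
  rw [e1, e2] at h1
  set σ : ℝ := v - t with hσ
  have h2 : v / 2 + -(σ ^ 2 / (2 * W ^ 2)) ≤ t / 2 + W ^ 2 / 4 + -(1 / (4 * W ^ 2)) * σ ^ 2 := by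
    have h3 : 0 ≤ (σ / (2 * W) - W / 2) ^ 2 := sq_nonneg _
    have h4 : (σ / (2 * W) - W / 2) ^ 2 = σ ^ 2 / (4 * W ^ 2) - σ / 2 + W ^ 2 / 4 := by
      field_simp
      ring
    have h5 : σ ^ 2 / (2 * W ^ 2) = σ ^ 2 / (4 * W ^ 2) + σ ^ 2 / (4 * W ^ 2) := by
      field_simp
      ring
    have h6 : -(1 / (4 * W ^ 2)) * σ ^ 2 = -(σ ^ 2 / (4 * W ^ 2)) := by ring
    rw [h5, h6]
    have h7 : v / 2 = t / 2 + σ / 2 := by rw [hσ]; ring
    rw [h7]
    linarith
  have h8 : 0 ≤ |σ| / W ^ 2 := by positivity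
  have hA : 0 ≤ A := le_trans (abs_nonneg _) hx
  rw [norm_mul]
  calc ‖a‖ * ‖gk W x (t - v)‖
      ≤ (6 * Real.exp (v / 2)) * ((1 / 2 + |x| + |σ| / W ^ 2) *
          Real.exp (-(σ ^ 2 / (2 * W ^ 2)))) :=
        mul_le_mul ha h1 (norm_nonneg _) (by positivity)
    _ = 6 * ((1 / 2 + |x| + |σ| / W ^ 2) * Real.exp (v / 2 + -(σ ^ 2 / (2 * W ^ 2)))) := by
        rw [Real.exp_add]
        ring
    _ ≤ 6 * ((1 / 2 + A + |σ| / W ^ 2) *
          Real.exp (t / 2 + W ^ 2 / 4 + -(1 / (4 * W ^ 2)) * σ ^ 2)) := by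
        refine mul_le_mul_of_nonneg_left ?_ (by norm_num)
        exact mul_le_mul (by linarith) (Real.exp_le_exp.2 h2) (Real.exp_pos _).le (by linarith)
    _ = E5b_D W A t v := by
        unfold E5b_D
        rw [← hσ, abs_mul, abs_of_pos (Real.exp_pos (-(1 / (4 * W ^ 2)) * σ ^ 2)), Real.exp_add]
        ring

private theorem E5b_shift (g : ℝ → ℝ) (t z : ℝ) (hg : IntegrableOn g (Set.Ioi (z - t))) :
    IntegrableOn (fun v => g (v - t)) (Set.Ioi z) ∧
      ∫ v in Set.Ioi z, g (v - t) = ∫ σ in Set.Ioi (z - t), g σ := by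
  have hmp := measurePreserving_sub_right (volume : Measure ℝ) t
  have hemb : MeasurableEmbedding (fun x : ℝ => x - t) :=
    (MeasurableEquiv.subRight t).measurableEmbedding
  have hpre : (fun x : ℝ => x - t) ⁻¹' Set.Ioi (z - t) = Set.Ioi z := by
    ext x
    simp
  constructor
  · have := (hmp.integrableOn_comp_preimage hemb (f := g) (s := Set.Ioi (z - t))).2 hg
    rw [hpre] at this
    exact this
  · have := hmp.setIntegral_preimage_emb hemb g (Set.Ioi (z - t))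
    rw [hpre] at this
    exact this

/-- E5b. Truncation of `f`.

PROOF. `A = T₀ + 1`, `C₁` from `kernel_tail A`. For `|x| ≤ A`, `0 ≤ t ≤ y ≤ Y`: the function
`v ↦ f v * gk W x (t - v)` is integrable on `(0, ∞)` (on `(0, y+R]` it is bounded and measurable, on
`(y+R, ∞)` it is dominated by `6 e^(v/2) ‖gk W x (t-v)‖ = 6 e^(t/2) e^(σ/2) ‖gk W x (-σ)‖`, `σ = v - t > R`), and
`∫_{(0,∞)} f v gk W x (t-v) dv - ∫ cut f (y+R) v gk W x (t-v) dv = ∫_{(y+R,∞)} f v gk W x (t-v) dv`, of norm at most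
`6 e^(t/2) ∫_{σ > y + R - t} e^(σ/2) ‖gk W x (-σ)‖ dσ ≤ 6 e^(Y/2) C₁ W e^(-3Y/4) = 6 C₁ W e^(-Y/4)`
(`y + R - t ≥ R`; translate with `integral_comp_sub_right`-type lemmas / `MeasurePreserving`).
Integrate over `x ∈ [u-h, u+h] ⊂ [-A, A]` (length `2h ≤ 2`; `intervalIntegral.norm_integral_le_of_norm_le_const`;
for the difference of the two interval integrals one needs that both are interval integrable in `x`: they
are continuous in `x` (`continuous_of_dominated`), since `‖gk W x s‖ ≤ (1/2 + A + |s|/W²) exp(-s²/(2W²))`),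
and divide by `2π`: `C = 2 C₁` suffices. -/
theorem PP_cut (T₀ : ℝ) (hT : 0 ≤ T₀) : ∃ C : ℝ, 0 ≤ C ∧ ∀ (f : ℝ → ℂ), Measurable f →
    (∀ v, 0 < v → ‖f v‖ ≤ 6 * Real.exp (v / 2)) → ∀ W Y R h u t y : ℝ, 1 ≤ W → W ^ 2 ≤ Y →
    2 * W * Real.sqrt Y ≤ R → 0 ≤ h → h ≤ 1 → |u| ≤ T₀ → 0 ≤ t → t ≤ y → y ≤ Y →
    ‖PP f W (u - h) (u + h) t - QQ (cut f (y + R)) W (u - h) (u + h) t‖ ≤ C * W * Real.exp (-(1 / 4) * Y) := by
  obtain ⟨C₁, hC₁, hker⟩ := kernel_tail (T₀ + 1) (by linarith)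
  refine ⟨2 * C₁, by positivity, ?_⟩
  intro f hf hfb W Y R h u t y hW hY hR hh hh1 hu ht hty hyY
  have hW0 : 0 < W := by linarith
  set A : ℝ := T₀ + 1 with hA
  set z : ℝ := y + R with hz
  have hR0 : 0 ≤ R := le_trans (by positivity) hR
  have hz0 : 0 ≤ z := by linarith
  -- points of the interval
  have hxA : ∀ x ∈ Set.uIcc (u - h) (u + h), |x| ≤ A := by
    intro x hx
    rw [Set.uIcc_of_le (by linarith)] at hx
    have h1 := abs_le.1 hu
    exact abs_le.2 ⟨by linarith [hx.1], by linarith [hx.2]⟩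
  have hmeas : ∀ (x : ℝ) (s : Set ℝ), AEStronglyMeasurable (fun v => f v * gk W x (t - v))
      (volume.restrict s) := by
    intro x s
    have h1 : Continuous (fun v : ℝ => gk W x (t - v)) :=
      (E5b_cont W x).comp (by fun_prop : Continuous fun v : ℝ => t - v)
    exact (hf.aestronglyMeasurable.mul h1.aestronglyMeasurable)
  have hdom : ∀ s ⊆ Set.Ioi (0 : ℝ), MeasurableSet s → ∀ x, |x| ≤ A →
      ∀ᵐ v ∂(volume.restrict s), ‖f v * gk W x (t - v)‖ ≤ E5b_D W A t v := by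
    intro s hs hms x hx
    refine (ae_restrict_iff' hms).2 (Filter.Eventually.of_forall fun v hv => ?_)
    exact E5b_dom W A t x v hW0 hx (f v) (hfb v (hs hv))
  have hDint : ∀ s : Set ℝ, Integrable (E5b_D W A t) (volume.restrict s) := fun s =>
    (E5b_D_int W A t hW0).integrableOn
  have hint : ∀ s ⊆ Set.Ioi (0 : ℝ), MeasurableSet s → ∀ x, |x| ≤ A →
      IntegrableOn (fun v => f v * gk W x (t - v)) s := fun s hs hms x hx =>
    (hDint s).mono' (hmeas x s) (hdom s hs hms x hx)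
  have hcont : ∀ s ⊆ Set.Ioi (0 : ℝ), MeasurableSet s →
      ContinuousOn (fun x => ∫ v in s, f v * gk W x (t - v)) (Set.uIcc (u - h) (u + h)) := by
    intro s hs hms
    refine continuousOn_of_dominated (fun x _ => hmeas x s)
      (fun x hx => hdom s hs hms x (hxA x hx)) (hDint s) ?_
    refine Filter.Eventually.of_forall fun v => ?_
    exact (continuous_const.mul (E5b_cont' W (t - v))).continuousOn
  have hcut : ∀ x, ∫ s : ℝ, cut f z s * gk W x (t - s) =
      ∫ v in Set.Ioc 0 z, f v * gk W x (t - v) := by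
    intro x
    rw [← integral_indicator measurableSet_Ioc]
    congr 1
    ext v
    unfold cut
    by_cases hv : v ∈ Set.Ioc 0 z
    · rw [Set.indicator_of_mem hv, Set.indicator_of_mem hv]
    · rw [Set.indicator_of_notMem hv, Set.indicator_of_notMem hv, zero_mul]
  -- the tail
  have htail : ∀ x, |x| ≤ A → ‖(∫ v in Set.Ioi (0 : ℝ), f v * gk W x (t - v)) -
      ∫ v in Set.Ioc 0 z, f v * gk W x (t - v)‖ ≤ 6 * C₁ * W * Real.exp (-(1 / 4) * Y) := by
    intro x hx
    have hun : Set.Ioi (0 : ℝ) = Set.Ioc 0 z ∪ Set.Ioi z := (Set.Ioc_union_Ioi_eq_Ioi hz0).symm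
    have h1 : ∫ v in Set.Ioi (0 : ℝ), f v * gk W x (t - v) =
        (∫ v in Set.Ioc 0 z, f v * gk W x (t - v)) + ∫ v in Set.Ioi z, f v * gk W x (t - v) := by
      rw [hun]
      refine setIntegral_union ?_ measurableSet_Ioi ?_ ?_
      · rw [Set.disjoint_left]
        intro v hv1 hv2
        exact absurd hv1.2 (not_le.2 hv2)
      · exact hint _ Set.Ioc_subset_Ioi_self measurableSet_Ioc x hx
      · exact hint _ (Set.Ioi_subset_Ioi hz0) measurableSet_Ioi x hx
    rw [h1, add_sub_cancel_left]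
    obtain ⟨hk1, hk2⟩ := hker W Y (z - t) x hW hY (by linarith) hx
    obtain ⟨hs1, hs2⟩ := E5b_shift (fun σ : ℝ => Real.exp (σ / 2) * ‖gk W x (-σ)‖) t z hk1
    calc ‖∫ v in Set.Ioi z, f v * gk W x (t - v)‖
        ≤ ∫ v in Set.Ioi z, 6 * Real.exp (t / 2) *
            (Real.exp ((v - t) / 2) * ‖gk W x (-(v - t))‖) := by
          refine norm_integral_le_of_norm_le (hs1.const_mul _) ?_
          refine (ae_restrict_iff' measurableSet_Ioi).2 (Filter.Eventually.of_forall fun v hv => ?_)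
          have hv0 : 0 < v := lt_of_le_of_lt hz0 hv
          rw [norm_mul, neg_sub]
          have h2 : Real.exp (v / 2) = Real.exp (t / 2) * Real.exp ((v - t) / 2) := by
            rw [← Real.exp_add]
            congr 1
            ring
          calc ‖f v‖ * ‖gk W x (t - v)‖ ≤ (6 * Real.exp (v / 2)) * ‖gk W x (t - v)‖ :=
                mul_le_mul_of_nonneg_right (hfb v hv0) (norm_nonneg _)
            _ = 6 * Real.exp (t / 2) * (Real.exp ((v - t) / 2) * ‖gk W x (t - v)‖) := by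
                rw [h2]
                ring
      _ = 6 * Real.exp (t / 2) *
            ∫ σ in Set.Ioi (z - t), Real.exp (σ / 2) * ‖gk W x (-σ)‖ := by
          rw [integral_const_mul, hs2]
      _ ≤ 6 * Real.exp (Y / 2) * (C₁ * W * Real.exp (-(3 / 4) * Y)) := by
          have h3 : Real.exp (t / 2) ≤ Real.exp (Y / 2) := Real.exp_le_exp.2 (by linarith)
          have h4 : 0 ≤ C₁ * W * Real.exp (-(3 / 4) * Y) := by positivity
          refine mul_le_mul (by linarith) hk2 ?_ (by positivity)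
          exact setIntegral_nonneg measurableSet_Ioi fun σ _ => by positivity
      _ = 6 * C₁ * W * Real.exp (-(1 / 4) * Y) := by
          have h5 : Real.exp (-(1 / 4) * Y) = Real.exp (Y / 2) * Real.exp (-(3 / 4) * Y) := by
            rw [← Real.exp_add]
            congr 1
            ring
          rw [h5]
          ring
  unfold PP QQ
  rw [← mul_sub]
  simp only [hcut]
  rw [← intervalIntegral.integral_sub
    ((hcont _ subset_rfl measurableSet_Ioi).intervalIntegrable)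
    ((hcont _ Set.Ioc_subset_Ioi_self measurableSet_Ioc).intervalIntegrable), norm_mul]
  have h6 : ‖∫ x in (u - h)..(u + h), ((∫ v in Set.Ioi (0 : ℝ), f v * gk W x (t - v)) -
      ∫ v in Set.Ioc 0 z, f v * gk W x (t - v))‖ ≤
      6 * C₁ * W * Real.exp (-(1 / 4) * Y) * |u + h - (u - h)| := by
    refine intervalIntegral.norm_integral_le_of_norm_le_const fun x hx => ?_
    exact htail x (hxA x (Set.uIoc_subset_uIcc hx))
  have h7 : |u + h - (u - h)| ≤ 2 := by
    rw [show u + h - (u - h) = 2 * h by ring, abs_of_nonneg (by linarith)]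
    linarith
  have h8 : ‖(1 / (2 * Real.pi) : ℂ)‖ ≤ 1 / 6 := by
    have h9 : (1 / (2 * Real.pi) : ℂ) = ((1 / (2 * Real.pi) : ℝ) : ℂ) := by push_cast; rfl
    rw [h9, Complex.norm_real, Real.norm_of_nonneg (by positivity)]
    exact one_div_le_one_div_of_le (by norm_num) (by linarith [Real.pi_gt_three])
  have h10 : 0 ≤ 6 * C₁ * W * Real.exp (-(1 / 4) * Y) := by positivity
  calc _ ≤ (1 / 6) * (6 * C₁ * W * Real.exp (-(1 / 4) * Y) * 2) := by
        refine mul_le_mul h8 (h6.trans (mul_le_mul_of_nonneg_left h7 h10)) (norm_nonneg _)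
          (by norm_num)
    _ = 2 * C₁ * W * Real.exp (-(1 / 4) * Y) := by ring

end Pool.Agent.SK.E
end

section

set_option autoImplicit false

namespace Pool.Agent.SK.E

open Complex MeasureTheory

/-- E6a. Measurability.

PROOF. `PP f W (u-h) (u+h) t = (1/2π) ∫_{x ∈ (-h,h]} ∫_{v ∈ (0,∞)} f v * gk W (u+x) (t-v)`
(`intervalIntegral.integral_comp_add_left`, `intervalIntegral.integral_of_le`), and an iterated integral of
a jointly (strongly) measurable function is strongly measurable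
(`MeasureTheory.StronglyMeasurable.integral_prod_right'`, twice: first `v`, with parameters `((u,t),x)`, then
`x`, with parameters `(u,t)`). `gk` is jointly continuous (`fun_prop` after `unfold gk`; `W` is fixed). -/
theorem PP_measurable (f : ℝ → ℂ) (hf : Measurable f) (W h : ℝ) (hh : 0 ≤ h) :
    Measurable (fun p : ℝ × ℝ => PP f W (p.1 - h) (p.1 + h) p.2) := by
  have hgk : Continuous (fun q : ℝ × ℝ => gk W q.1 q.2) := by
    unfold gk
    fun_prop
  have hG : StronglyMeasurable (fun q : ((ℝ × ℝ) × ℝ) × ℝ =>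
      f q.2 * gk W (q.1.1.1 + q.1.2) (q.1.1.2 - q.2)) := by
    apply Measurable.stronglyMeasurable
    apply Measurable.mul (hf.comp measurable_snd)
    have h1 : Continuous (fun q : ((ℝ × ℝ) × ℝ) × ℝ => (q.1.1.1 + q.1.2, q.1.1.2 - q.2)) := by
      fun_prop
    exact (hgk.comp h1).measurable
  have h2 : StronglyMeasurable (fun q : (ℝ × ℝ) × ℝ =>
      ∫ v in Set.Ioi (0 : ℝ), f v * gk W (q.1.1 + q.2) (q.1.2 - v)) :=
    hG.integral_prod_right' (ν := volume.restrict (Set.Ioi (0 : ℝ)))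
  have h3 : StronglyMeasurable (fun p : ℝ × ℝ => ∫ x in Set.Ioc (-h) h,
      ∫ v in Set.Ioi (0 : ℝ), f v * gk W (p.1 + x) (p.2 - v)) :=
    h2.integral_prod_right' (ν := volume.restrict (Set.Ioc (-h) h))
  have h4 : (fun p : ℝ × ℝ => PP f W (p.1 - h) (p.1 + h) p.2) = fun p : ℝ × ℝ =>
      (1 / (2 * Real.pi) : ℂ) * ∫ x in Set.Ioc (-h) h,
      ∫ v in Set.Ioi (0 : ℝ), f v * gk W (p.1 + x) (p.2 - v) := by
    funext p
    unfold PP
    congr 1
    rw [← intervalIntegral.integral_of_le (by linarith), sub_eq_add_neg,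
      intervalIntegral.integral_comp_add_left
        (fun x => ∫ v in Set.Ioi (0 : ℝ), f v * gk W x (p.2 - v)) p.1]
  rw [h4]
  exact h3.measurable.const_mul _

/-- E6a. Layer cake.

PROOF. `1 - t/Y = (1/Y) ∫_{y ∈ (0,Y]} 1_{t ≤ y} dy` for `t ∈ (0, Y]` (the set `{y ∈ (0,Y] : t ≤ y}` has measure
`Y - t`), Tonelli (`lintegral_lintegral_swap`, indicator functions). -/
theorem layer_cake (F : ℝ → ENNReal) (hF : Measurable F) (Y : ℝ) (hY : 0 < Y) :
    ∫⁻ t in Set.Ioc 0 Y, ENNReal.ofReal (1 - t / Y) * F t =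
      ENNReal.ofReal (1 / Y) * ∫⁻ y in Set.Ioc 0 Y, ∫⁻ t in Set.Ioc 0 y, F t := by
  have hmeas : Measurable (Function.uncurry fun (y t : ℝ) =>
      ({q : ℝ × ℝ | q.2 ≤ q.1}).indicator (fun q => F q.2) (y, t)) := by
    have h0 : Measurable (({q : ℝ × ℝ | q.2 ≤ q.1}).indicator (fun q : ℝ × ℝ => F q.2)) :=
      (hF.comp measurable_snd).indicator (measurableSet_le measurable_snd measurable_fst)
    exact h0
  have h1 : ∀ y ∈ Set.Ioc 0 Y, ∫⁻ t in Set.Ioc 0 y, F t =
      ∫⁻ t in Set.Ioc 0 Y, ({q : ℝ × ℝ | q.2 ≤ q.1}).indicator (fun q => F q.2) (y, t) := by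
    intro y hy
    have e1 : (fun t => ({q : ℝ × ℝ | q.2 ≤ q.1}).indicator (fun q => F q.2) (y, t)) =
        (Set.Iic y).indicator F := by
      funext t
      simp only [Set.indicator, Set.mem_ofPred_eq, Set.mem_Iic]
    rw [e1, lintegral_indicator measurableSet_Iic, Measure.restrict_restrict measurableSet_Iic]
    have e2 : Set.Iic y ∩ Set.Ioc 0 Y = Set.Ioc 0 y := by
      ext t
      simp only [Set.mem_inter_iff, Set.mem_Iic, Set.mem_Ioc]
      constructor
      · rintro ⟨h1, h2, h3⟩; exact ⟨h2, h1⟩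
      · rintro ⟨h1, h2⟩; exact ⟨h2, h1, h2.trans hy.2⟩
    rw [e2]
  have h3 : ∀ t ∈ Set.Ioc 0 Y,
      ∫⁻ y in Set.Ioc 0 Y, ({q : ℝ × ℝ | q.2 ≤ q.1}).indicator (fun q => F q.2) (y, t) =
      ENNReal.ofReal (Y - t) * F t := by
    intro t ht
    have e1 : (fun y => ({q : ℝ × ℝ | q.2 ≤ q.1}).indicator (fun q => F q.2) (y, t)) =
        (Set.Ici t).indicator (fun _ => F t) := by
      funext y
      simp only [Set.indicator, Set.mem_ofPred_eq, Set.mem_Ici]
    rw [e1, lintegral_indicator measurableSet_Ici, Measure.restrict_restrict measurableSet_Ici]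
    have e2 : Set.Ici t ∩ Set.Ioc 0 Y = Set.Icc t Y := by
      ext y
      simp only [Set.mem_inter_iff, Set.mem_Ici, Set.mem_Ioc, Set.mem_Icc]
      constructor
      · rintro ⟨h1, h2, h3⟩; exact ⟨h1, h3⟩
      · rintro ⟨h1, h2⟩; exact ⟨h1, ht.1.trans_le h1, h2⟩
    rw [e2, lintegral_const, Measure.restrict_apply_univ, Real.volume_Icc, mul_comm]
  have h4 : ∫⁻ y in Set.Ioc 0 Y, ∫⁻ t in Set.Ioc 0 y, F t =
      ∫⁻ t in Set.Ioc 0 Y, ENNReal.ofReal (Y - t) * F t := by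
    rw [setLIntegral_congr_fun measurableSet_Ioc h1, lintegral_lintegral_swap hmeas.aemeasurable]
    exact setLIntegral_congr_fun measurableSet_Ioc h3
  rw [h4, ← lintegral_const_mul]
  · apply lintegral_congr
    intro t
    rw [← mul_assoc, ← ENNReal.ofReal_mul (by positivity)]
    congr 2
    field_simp
  · exact (ENNReal.measurable_ofReal.comp (measurable_const.sub measurable_id)).mul hF

end Pool.Agent.SK.E
end

section

set_option autoImplicit false

/-! Task VB: Mertens' theorem for `Λ(n)/n`. -/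

namespace Pool.Agent.SD

open MeasureTheory

open Finset Real ArithmeticFunction in
private lemma VB_sum_log_eq (N : ℕ) :
    ∑ n ∈ Ioc 0 N, Real.log n = ∑ n ∈ Ioc 0 N, vonMangoldt n * ((N / n : ℕ) : ℝ) := by
  have h := sum_Ioc_mul_zeta_eq_sum (R := ℝ) vonMangoldt N
  rw [vonMangoldt_mul_zeta] at h
  simpa [ArithmeticFunction.log_apply] using h

open Finset Real ArithmeticFunction in
private lemma VB_log_factorial_eq (N : ℕ) :
    Real.log (Nat.factorial N) = ∑ n ∈ Ioc 0 N, Real.log n := by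
  induction N with
  | zero => simp
  | succ k ih =>
    rw [Nat.factorial_succ, Nat.cast_mul, Real.log_mul (by positivity) (by positivity), ih,
      Finset.sum_Ioc_succ_top (Nat.zero_le k)]
    ring

open Finset Real ArithmeticFunction in
private lemma VB_log_factorial_lower (N : ℕ) (hN : 1 ≤ N) :
    (N : ℝ) * Real.log N - N ≤ Real.log (Nat.factorial N) := by
  have h := Stirling.le_log_factorial_stirling (n := N) (by omega)
  have h1 : 0 ≤ Real.log N := Real.log_nonneg (by exact_mod_cast hN)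
  have h2 : 0 ≤ Real.log (2 * π) := by
    apply Real.log_nonneg
    have := Real.two_le_pi
    linarith
  linarith

open Finset Real ArithmeticFunction in
private lemma VB_log_factorial_upper (N : ℕ) :
    Real.log (Nat.factorial N) ≤ (N : ℝ) * Real.log N := by
  have h : (Nat.factorial N : ℝ) ≤ (N : ℝ) ^ N := by exact_mod_cast Nat.factorial_le_pow N
  calc Real.log (Nat.factorial N) ≤ Real.log ((N : ℝ) ^ N) :=
        Real.log_le_log (by positivity) h
    _ = (N : ℝ) * Real.log N := by rw [Real.log_pow]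

open Finset Real ArithmeticFunction in
private lemma VB_mertens_lower (N : ℕ) (hN : 1 ≤ N) :
    Real.log N - 1 ≤ ∑ n ∈ Ioc 0 N, vonMangoldt n / n := by
  have hNR : (0 : ℝ) < N := by exact_mod_cast hN
  have h1 := VB_log_factorial_lower N hN
  rw [VB_log_factorial_eq, VB_sum_log_eq] at h1
  have h2 : ∑ n ∈ Ioc 0 N, vonMangoldt n * ((N / n : ℕ) : ℝ)
      ≤ N * ∑ n ∈ Ioc 0 N, vonMangoldt n / n := by
    rw [Finset.mul_sum]
    refine Finset.sum_le_sum fun n _ => ?_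
    have : ((N / n : ℕ) : ℝ) ≤ (N : ℝ) / n := Nat.cast_div_le
    calc vonMangoldt n * ((N / n : ℕ) : ℝ) ≤ vonMangoldt n * ((N : ℝ) / n) :=
          mul_le_mul_of_nonneg_left this vonMangoldt_nonneg
      _ = N * (vonMangoldt n / n) := by ring
  have h3 : (N : ℝ) * (Real.log N - 1) ≤ N * ∑ n ∈ Ioc 0 N, vonMangoldt n / n := by
    linarith
  exact le_of_mul_le_mul_left h3 hNR

open Finset Real ArithmeticFunction in
private lemma VB_mertens_upper (N : ℕ) (hN : 1 ≤ N) :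
    ∑ n ∈ Ioc 0 N, vonMangoldt n / n ≤ Real.log N + (Real.log 4 + 4) := by
  have hNR : (0 : ℝ) < N := by exact_mod_cast hN
  have h1 := VB_log_factorial_upper N
  rw [VB_log_factorial_eq, VB_sum_log_eq] at h1
  have hpsi : ∑ n ∈ Ioc 0 N, vonMangoldt n ≤ (Real.log 4 + 4) * N := by
    have := Chebyshev.psi_le_const_mul_self (x := (N : ℝ)) hNR.le
    unfold Chebyshev.psi at this
    rwa [Nat.floor_natCast] at this
  have h2 : (N : ℝ) * ∑ n ∈ Ioc 0 N, vonMangoldt n / n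
      ≤ ∑ n ∈ Ioc 0 N, vonMangoldt n * ((N / n : ℕ) : ℝ) + ∑ n ∈ Ioc 0 N, vonMangoldt n := by
    rw [Finset.mul_sum, ← Finset.sum_add_distrib]
    refine Finset.sum_le_sum fun n hn => ?_
    simp only [Finset.mem_Ioc] at hn
    have hn0 : (0 : ℝ) < n := by exact_mod_cast hn.1
    have : (N : ℝ) / n ≤ ((N / n : ℕ) : ℝ) + 1 := by
      have := Nat.lt_floor_add_one ((N : ℝ) / n)
      rw [Nat.floor_div_eq_div] at this
      linarith
    calc (N : ℝ) * (vonMangoldt n / n) = vonMangoldt n * ((N : ℝ) / n) := by ring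
      _ ≤ vonMangoldt n * (((N / n : ℕ) : ℝ) + 1) :=
          mul_le_mul_of_nonneg_left this vonMangoldt_nonneg
      _ = _ := by ring
  have h3 : (N : ℝ) * ∑ n ∈ Ioc 0 N, vonMangoldt n / n
      ≤ N * (Real.log N + (Real.log 4 + 4)) := by
    linarith
  exact le_of_mul_le_mul_left h3 hNR

/-- VB1. PROOF. `log N! = ∑_{n ≤ N} log n = ∑_{n ≤ N} ∑_{d | n} Λ(d) = ∑_{d ≤ N} Λ(d) ⌊N/d⌋` (`ArithmeticFunction.vonMangoldt_sum`; exchange the sums, the
number of multiples of `d` up to `N` is `N / d`). `0 ≤ ∑ Λ(d) (N/d - ⌊N/d⌋) ≤ ψ(N) ≤ C N` (`Chebyshev.psi_le_const_mul_self`) and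
`N log N - N ≤ log N! ≤ N log N`. Divide by `N`. -/
theorem mertens_sum : ∃ C : ℝ, 0 ≤ C ∧ ∀ N : ℕ, 1 ≤ N →
    |∑ n ∈ Finset.Icc 1 N, ArithmeticFunction.vonMangoldt n / (n : ℝ) - Real.log N| ≤ C := by
  have h4 : 0 ≤ Real.log 4 := Real.log_nonneg (by norm_num)
  refine ⟨Real.log 4 + 4, by linarith, ?_⟩
  intro N hN
  have h1 : Finset.Icc 1 N = Finset.Ioc 0 N := by
    ext n
    simp only [Finset.mem_Icc, Finset.mem_Ioc]
    omega
  rw [h1, abs_le]
  have h2 := VB_mertens_lower N hN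
  have h3 := VB_mertens_upper N hN
  constructor <;> linarith

/-- VB2. PROOF. `ψ(t) = ∑_{n ≤ N} Λ(n) 1_{n ≤ t}` for `1 ≤ t ≤ x`, `N = ⌊x⌋₊`, and `∫_1^x 1_{n ≤ t} t^{-2} dt = ∫_n^x t^{-2} dt = 1/n - 1/x`; so
`∫_1^x ψ(t) t^{-2} dt = ∑_{n ≤ N} Λ(n)/n - ψ(x)/x`. Use `mertens_sum`, `0 ≤ ψ(x)/x ≤ C`, `0 ≤ log x - log N ≤ log 2`. -/
theorem mertens_int : ∃ C : ℝ, 0 ≤ C ∧ ∀ x : ℝ, 1 ≤ x →
    |(∫ t in (1 : ℝ)..x, Chebyshev.psi t / t ^ 2) - Real.log x| ≤ C := by
  obtain ⟨C, hC, hm⟩ := mertens_sum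
  have h4 : 0 ≤ Real.log 4 := Real.log_nonneg (by norm_num)
  have h2 : 0 ≤ Real.log 2 := Real.log_nonneg (by norm_num)
  refine ⟨C + Real.log 2 + (Real.log 4 + 4), by linarith, ?_⟩
  intro x hx
  have hx0 : (0 : ℝ) < x := by linarith
  have habel := sum_mul_eq_sub_integral_mul₀ (f := fun t : ℝ => t⁻¹)
    (fun n => ArithmeticFunction.vonMangoldt n) (by simp) x
    (by
      intro t ht
      exact differentiableAt_inv (by linarith [ht.1]))
    (by
      have hc : ContinuousOn (fun t : ℝ => -(t ^ 2)⁻¹) (Set.Icc 1 x) := by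
        refine ContinuousOn.neg (ContinuousOn.inv₀ (by fun_prop) ?_)
        intro t ht
        have : 0 < t := by linarith [ht.1]
        positivity
      have he : deriv (fun t : ℝ => t⁻¹) = fun t => -(t ^ 2)⁻¹ := by
        funext t
        exact deriv_inv
      rw [he]
      exact hc.integrableOn_Icc)
  have hint : ∫ t in Set.Ioc 1 x, deriv (fun t : ℝ => t⁻¹) t *
      ∑ k ∈ Finset.Icc 0 ⌊t⌋₊, ArithmeticFunction.vonMangoldt k
      = -∫ t in (1 : ℝ)..x, Chebyshev.psi t / t ^ 2 := by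
    rw [intervalIntegral.integral_of_le hx, ← integral_neg]
    refine setIntegral_congr_fun measurableSet_Ioc ?_
    intro t _
    simp only
    rw [← Chebyshev.psi_eq_sum_Icc, deriv_inv]
    ring
  rw [hint, ← Chebyshev.psi_eq_sum_Icc] at habel
  have hN : 1 ≤ ⌊x⌋₊ := (Nat.one_le_floor_iff _).mpr hx
  have hsum : ∑ k ∈ Finset.Icc 0 ⌊x⌋₊, (k : ℝ)⁻¹ * ArithmeticFunction.vonMangoldt k
      = ∑ n ∈ Finset.Icc 1 ⌊x⌋₊, ArithmeticFunction.vonMangoldt n / (n : ℝ) := by
    have h1 : Finset.Icc 1 ⌊x⌋₊ ⊆ Finset.Icc 0 ⌊x⌋₊ := Finset.Icc_subset_Icc_left (by norm_num)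
    rw [← Finset.sum_subset h1]
    · refine Finset.sum_congr rfl fun n _ => ?_
      rw [mul_comm, div_eq_mul_inv]
    · intro n hn hn'
      have : n = 0 := by
        simp only [Finset.mem_Icc] at hn hn'
        omega
      rw [this]
      simp
  rw [hsum] at habel
  have hmN := hm ⌊x⌋₊ hN
  have hfl : (⌊x⌋₊ : ℝ) ≤ x := Nat.floor_le hx0.le
  have hfl2 : x < ⌊x⌋₊ + 1 := Nat.lt_floor_add_one x
  have hNR : (1 : ℝ) ≤ ⌊x⌋₊ := by exact_mod_cast hN
  have hl1 : Real.log ⌊x⌋₊ ≤ Real.log x := Real.log_le_log (by linarith) hfl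
  have hl2 : Real.log x ≤ Real.log 2 + Real.log ⌊x⌋₊ := by
    rw [← Real.log_mul (by norm_num) (by linarith)]
    exact Real.log_le_log hx0 (by linarith)
  have hpsi1 : 0 ≤ x⁻¹ * Chebyshev.psi x :=
    mul_nonneg (inv_nonneg.2 hx0.le) (Chebyshev.psi_nonneg x)
  have hpsi2 : x⁻¹ * Chebyshev.psi x ≤ Real.log 4 + 4 := by
    have h5 := Chebyshev.psi_le_const_mul_self hx0.le
    rw [inv_mul_le_iff₀ hx0]
    linarith
  rw [abs_le] at hmN ⊢
  constructor <;> linarith [hmN.1, hmN.2]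

end Pool.Agent.SD
end
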