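import Mathlib
import Pool.Agent.Lib.MP_9cfc0a_nt.EMFinal
import Pool.Agent.Lib.MP_9cfc0a_nt.SO.A1a
import Pool.Agent.Lib.MP_9cfc0a_nt.SO.A1b
import Pool.Agent.Lib.MP_9cfc0a_nt.Mg.G076
import Pool.Agent.Lib.MP_9cfc0a_nt.Mg.G019
import Pool.Agent.Lib.MP_9cfc0a_nt.SD.VA
import Pool.Agent.Lib.MP_9cfc0a_nt.SK.F2

section

set_option autoImplicit false

namespace Pool.Agent.SO

open Complex MeasureTheory Pool.Agent.EM

/-- A1. From the primitive character to `χ` (uses A1a, A1b, `EM.integrable_psiC_sq_window`).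

PROOF. `‖a‖² ≤ 2 ‖b‖² + 2 ‖a - b‖²`, so `c ≤ ∫ ‖psiC χ*‖²/x² ≤ 2 ∫ ‖psiC χ‖²/x² +
2 (2 log q)² ∫ (log x)²/x² ≤ 2 ∫ ‖psiC χ‖²/x² + 256 (log q)² X^(-1/2)`. -/
theorem induced_lower (q : ℕ) [NeZero q] (χ : DirichletCharacter ℂ q) (X Y c : ℝ) (hX : 1 ≤ X)
    (h : c ≤ ∫ x in Set.Ioc X Y, ‖psiC χ.primitiveCharacter x‖ ^ 2 / x ^ 2) :
    c / 2 - 128 * (Real.log q) ^ 2 * X ^ (-(1 / 2) : ℝ) ≤
      ∫ x in Set.Ioc X Y, ‖psiC χ x‖ ^ 2 / x ^ 2 := by
  have i1 := integrable_psiC_sq_window χ.primitiveCharacter X Y hX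
  have i2 := integrable_psiC_sq_window χ X Y hX
  obtain ⟨i3, h3⟩ := log_sq_tail X Y hX
  have hpt : ∀ x ∈ Set.Ioc X Y, ‖psiC χ.primitiveCharacter x‖ ^ 2 / x ^ 2 ≤
      2 * (‖psiC χ x‖ ^ 2 / x ^ 2) +
        8 * (Real.log q) ^ 2 * ((Real.log x) ^ 2 / x ^ 2) := by
    intro x hx
    have hx1 : 1 ≤ x := by linarith [hx.1]
    have hx0 : 0 < x := by linarith
    have h4 := primitive_diff q χ x hx1
    have h5 : ‖psiC χ.primitiveCharacter x‖ ≤ ‖psiC χ x‖ + 2 * Real.log q * Real.log x := by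
      have h6 : psiC χ.primitiveCharacter x =
          psiC χ x + (psiC χ.primitiveCharacter x - psiC χ x) := by ring
      calc ‖psiC χ.primitiveCharacter x‖ =
            ‖psiC χ x + (psiC χ.primitiveCharacter x - psiC χ x)‖ := by rw [← h6]
        _ ≤ ‖psiC χ x‖ + ‖psiC χ.primitiveCharacter x - psiC χ x‖ := norm_add_le _ _
        _ ≤ _ := add_le_add le_rfl h4
    have h7 : ‖psiC χ.primitiveCharacter x‖ ^ 2 ≤
        2 * ‖psiC χ x‖ ^ 2 + 8 * (Real.log q) ^ 2 * (Real.log x) ^ 2 := by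
      have h8 := pow_le_pow_left₀ (norm_nonneg _) h5 2
      nlinarith [sq_nonneg (‖psiC χ x‖ - 2 * Real.log q * Real.log x)]
    rw [← mul_div_assoc, ← mul_div_assoc, ← add_div]
    exact div_le_div_of_nonneg_right h7 (by positivity)
  have j1 : IntegrableOn (fun x : ℝ => 2 * (‖psiC χ x‖ ^ 2 / x ^ 2)) (Set.Ioc X Y) :=
    i2.const_mul 2
  have j2 : IntegrableOn (fun x : ℝ => 8 * (Real.log q) ^ 2 * ((Real.log x) ^ 2 / x ^ 2))
      (Set.Ioc X Y) := i3.const_mul _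
  have h9 : ∫ x in Set.Ioc X Y, ‖psiC χ.primitiveCharacter x‖ ^ 2 / x ^ 2 ≤
      2 * (∫ x in Set.Ioc X Y, ‖psiC χ x‖ ^ 2 / x ^ 2) +
        8 * (Real.log q) ^ 2 * (∫ x in Set.Ioc X Y, (Real.log x) ^ 2 / x ^ 2) := by
    calc ∫ x in Set.Ioc X Y, ‖psiC χ.primitiveCharacter x‖ ^ 2 / x ^ 2
        ≤ ∫ x in Set.Ioc X Y, (2 * (‖psiC χ x‖ ^ 2 / x ^ 2) +
            8 * (Real.log q) ^ 2 * ((Real.log x) ^ 2 / x ^ 2)) :=
          setIntegral_mono_on i1 (j1.add j2) measurableSet_Ioc hpt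
      _ = _ := by
          rw [integral_add j1 j2, integral_const_mul, integral_const_mul]
  have h10 : 8 * (Real.log q) ^ 2 * (∫ x in Set.Ioc X Y, (Real.log x) ^ 2 / x ^ 2) ≤
      8 * (Real.log q) ^ 2 * (32 * X ^ (-(1 / 2) : ℝ)) :=
    mul_le_mul_of_nonneg_left h3 (by positivity)
  have h11 : c ≤ 2 * (∫ x in Set.Ioc X Y, ‖psiC χ x‖ ^ 2 / x ^ 2) +
      8 * (Real.log q) ^ 2 * (32 * X ^ (-(1 / 2) : ℝ)) := by linarith
  linarith

end Pool.Agent.SO
end

section

set_option autoImplicit false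

namespace Pool.Agent.SO

open Complex MeasureTheory Pool.Agent.EM

/-- A4a. Change of variables from `U` to `X`, for one character (uses A1 `induced_lower`).

PROOF. `r = χ.conductor`, `r ∣ q`, `q^(9/20) ≤ r ≤ q`, `log r ≥ (9/20) log q > 0`. Let
`U = log X/log r`: `0 ≤ U ≤ B log q/((9/20) log q) = (20/9) B`, `r^U = X`, `r^(U+11) = X r^11 ≤ X q^11`.
By `h`, `∫_{Ioc X (X r^11)} ‖psiC χ*‖²/x² ≥ c (log r)² ≥ c (81/400) (log q)² ≥ (c/5) (log q)²`, and
the integral over the larger `Ioc X (X q^11)` is at least this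
(`setIntegral_mono_set`, `EM.integrable_psiC_sq_window`). `induced_lower`:
`∫_{Ioc X (X q^11)} ‖psiC χ‖²/x² ≥ (c/10) (log q)² - 128 (log q)² X^(-1/2)`, and
`128 X^(-1/2) ≤ 128 q^(-1/2) ≤ c/20` by `hq`. -/
theorem one_char (B c : ℝ) (hB : 0 ≤ B) (hc : 0 < c) (q : ℕ) [NeZero q] (hq3 : 3 ≤ q)
    (hq : 128 * (q : ℝ) ^ (-(1 / 2) : ℝ) ≤ c / 20) (χ : DirichletCharacter ℂ q)
    (h1 : (q : ℝ) ^ (9 / 20 : ℝ) ≤ (χ.conductor : ℝ))
    (h : ∀ U : ℝ, 0 ≤ U → U ≤ 20 / 9 * B → c * (Real.log χ.conductor) ^ 2 ≤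
      ∫ x in Set.Ioc ((χ.conductor : ℝ) ^ U) ((χ.conductor : ℝ) ^ (U + 11)),
        ‖psiC χ.primitiveCharacter x‖ ^ 2 / x ^ 2)
    (X : ℝ) (hX1 : (q : ℝ) ≤ X) (hX2 : X ≤ (q : ℝ) ^ B) :
    c / 20 * (Real.log q) ^ 2 ≤
      ∫ x in Set.Ioc X (X * (q : ℝ) ^ 11), ‖psiC χ x‖ ^ 2 / x ^ 2 := by
  have hq3' : (3 : ℝ) ≤ (q : ℝ) := by exact_mod_cast hq3
  have hq0 : (0 : ℝ) < q := by linarith
  have hlq : 0 < Real.log q := Real.log_pos (by linarith)
  have hX0 : 0 < X := by linarith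
  have hX1' : 1 ≤ X := by linarith
  have hrq : (χ.conductor : ℝ) ≤ q := by
    exact_mod_cast Nat.le_of_dvd (Nat.pos_of_ne_zero (NeZero.ne q)) (DirichletCharacter.conductor_dvd_level χ)
  set r : ℝ := (χ.conductor : ℝ) with hr
  have hqp : 0 < (q : ℝ) ^ (9 / 20 : ℝ) := Real.rpow_pos_of_pos hq0 _
  have hr0 : 0 < r := by linarith
  have hlr : 9 / 20 * Real.log q ≤ Real.log r := by
    have h2 := Real.log_le_log hqp h1
    rw [Real.log_rpow hq0] at h2
    exact h2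
  have hlr0 : 0 < Real.log r := by linarith
  have hlX : 0 < Real.log X := Real.log_pos (by linarith)
  have hlX2 : Real.log X ≤ B * Real.log q := by
    have h2 := Real.log_le_log hX0 hX2
    rw [Real.log_rpow hq0] at h2
    exact h2
  have hU0 : 0 ≤ Real.log X / Real.log r := by positivity
  have hU1 : Real.log X / Real.log r ≤ 20 / 9 * B := by
    rw [div_le_iff₀ hlr0]
    have h2 : 20 / 9 * B * (9 / 20 * Real.log q) ≤ 20 / 9 * B * Real.log r :=
      mul_le_mul_of_nonneg_left hlr (by positivity)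
    linarith
  have h2 := h (Real.log X / Real.log r) hU0 hU1
  have h3 : r ^ (Real.log X / Real.log r) = X := by
    rw [Real.rpow_def_of_pos hr0, mul_div_cancel₀ _ hlr0.ne', Real.exp_log hX0]
  have h4 : r ^ (Real.log X / Real.log r + 11) = X * r ^ 11 := by
    rw [Real.rpow_add hr0, h3]
    congr 1
    exact_mod_cast Real.rpow_natCast r 11
  rw [h3, h4] at h2
  have h5 : X * r ^ 11 ≤ X * (q : ℝ) ^ 11 :=
    mul_le_mul_of_nonneg_left (pow_le_pow_left₀ hr0.le hrq 11) hX0.le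
  have h6 : (∫ x in Set.Ioc X (X * r ^ 11), ‖psiC χ.primitiveCharacter x‖ ^ 2 / x ^ 2) ≤
      ∫ x in Set.Ioc X (X * (q : ℝ) ^ 11), ‖psiC χ.primitiveCharacter x‖ ^ 2 / x ^ 2 := by
    apply setIntegral_mono_set (integrable_psiC_sq_window χ.primitiveCharacter X (X * (q : ℝ) ^ 11) hX1')
    · apply Filter.Eventually.of_forall
      intro x
      show 0 ≤ ‖psiC χ.primitiveCharacter x‖ ^ 2 / x ^ 2
      positivity
    · exact (Set.Ioc_subset_Ioc_right h5).eventuallyLE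
  have h7 : c / 5 * (Real.log q) ^ 2 ≤ c * (Real.log r) ^ 2 := by
    have h8 : (9 / 20 * Real.log q) ^ 2 ≤ (Real.log r) ^ 2 := pow_le_pow_left₀ (by positivity) hlr 2
    have h9 : c * (9 / 20 * Real.log q) ^ 2 ≤ c * (Real.log r) ^ 2 := mul_le_mul_of_nonneg_left h8 hc.le
    have h10 : c / 5 * (Real.log q) ^ 2 ≤ c * (9 / 20 * Real.log q) ^ 2 := by
      have h11 : c * (9 / 20 * Real.log q) ^ 2 = c * (81 / 400) * (Real.log q) ^ 2 := by ring
      rw [h11]
      apply mul_le_mul_of_nonneg_right _ (by positivity)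
      linarith
    linarith
  have h12 := induced_lower q χ X (X * (q : ℝ) ^ 11) (c / 5 * (Real.log q) ^ 2) hX1' (by linarith)
  have h13 : X ^ (-(1 / 2) : ℝ) ≤ (q : ℝ) ^ (-(1 / 2) : ℝ) :=
    Real.rpow_le_rpow_of_nonpos hq0 hX1 (by norm_num)
  have h14 : 128 * (Real.log q) ^ 2 * X ^ (-(1 / 2) : ℝ) ≤ c / 20 * (Real.log q) ^ 2 := by
    have h15 : 128 * (Real.log q) ^ 2 * X ^ (-(1 / 2) : ℝ) ≤ 128 * (Real.log q) ^ 2 * (q : ℝ) ^ (-(1 / 2) : ℝ) :=
      mul_le_mul_of_nonneg_left h13 (by positivity)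
    have h16 : 128 * (q : ℝ) ^ (-(1 / 2) : ℝ) * (Real.log q) ^ 2 ≤ c / 20 * (Real.log q) ^ 2 :=
      mul_le_mul_of_nonneg_right hq (by positivity)
    have h17 : 128 * (Real.log q) ^ 2 * (q : ℝ) ^ (-(1 / 2) : ℝ) = 128 * (q : ℝ) ^ (-(1 / 2) : ℝ) * (Real.log q) ^ 2 := by
      ring
    linarith
  linarith

end Pool.Agent.SO
end

section

set_option autoImplicit false

namespace Pool.Agent.SK.E

open Complex MeasureTheory

/-- Plancherel for integrable, square integrable functions. -/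
theorem plancherel (g : ℝ → ℂ) (h1 : Integrable g) (h2 : Integrable (fun u => ‖g u‖ ^ 2)) :
    Integrable (fun t : ℝ => ‖∫ u : ℝ, g u * Complex.exp (-((t : ℂ) * u * I))‖ ^ 2) ∧
    ∫ t : ℝ, ‖∫ u : ℝ, g u * Complex.exp (-((t : ℂ) * u * I))‖ ^ 2
      = (2 * Real.pi) * ∫ u : ℝ, ‖g u‖ ^ 2 :=
  Pool.Agent.MC.C2.plancherel_real g h1 h2

end Pool.Agent.SK.E
end

section

set_option autoImplicit false

namespace Pool.Agent.SK.E

open Complex MeasureTheory

private theorem E3b_fh_bound (g : ℝ → ℂ) (v : ℝ) : ‖fh g v‖ ≤ ∫ s : ℝ, ‖g s‖ := by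
  unfold fh
  refine (norm_integral_le_integral_norm _).trans (le_of_eq ?_)
  refine integral_congr_ae (Filter.Eventually.of_forall fun s => ?_)
  change ‖g s * Complex.exp (-((v : ℂ) * s * I))‖ = ‖g s‖
  rw [norm_mul, Complex.norm_exp]
  simp

private theorem E3b_fh_cont (g : ℝ → ℂ) (hg : Integrable g) : Continuous (fh g) := by
  unfold fh
  refine continuous_of_dominated (bound := fun s => ‖g s‖) ?_ ?_ hg.norm ?_
  · intro v
    exact hg.aestronglyMeasurable.mul (by fun_prop : Continuous fun s : ℝ =>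
      Complex.exp (-((v : ℂ) * s * I))).aestronglyMeasurable
  · intro v
    refine Filter.Eventually.of_forall fun s => le_of_eq ?_
    rw [norm_mul, Complex.norm_exp]
    simp
  · refine Filter.Eventually.of_forall fun s => ?_
    fun_prop

private theorem E3b_norm_sq (v : ℝ) : ‖(1 / 2 : ℂ) + (v : ℂ) * I‖ ^ 2 = 1 / 4 + v ^ 2 := by
  rw [Complex.sq_norm, Complex.normSq_apply]
  simp
  ring

private theorem E3b_norm_le (v : ℝ) : ‖(1 / 2 : ℂ) + (v : ℂ) * I‖ ≤ 1 / 2 + |v| := by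
  refine (norm_add_le _ _).trans (le_of_eq ?_)
  rw [norm_mul, Complex.norm_I, mul_one, Complex.norm_real, Real.norm_eq_abs]
  norm_num

/-- E3b. Plancherel for the convolution.

PROOF. `G(v) := fh g v ((1/2 + v i) FI W (u-h) (u+h) (v i))`, `FI = cw W h (v - u) ∈ [0,1]` (`cw_facts`),
`‖fh g v‖ ≤ ∫ ‖g‖ =: M`, `fh g` continuous (`continuous_of_dominated`), and
`‖G v‖ ≤ M (1/2+|v|) cw W h (v-u)`, which is integrable (`cw_moment`, translated by `u`:
`1/2 + |v| ≤ (1 + |u|)(1 + 2|v-u| + 4(v-u)²)`), `‖G v‖² ≤ M² (1/4 + v²) cw W h (v-u)` (as `c² ≤ c`), integrable too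
(`1/4 + v² ≤ (1 + 2u²)(1 + 2|v-u| + 4(v-u)²)`). By `plancherel G`:
`∫ ‖∫ G(v) exp(-(t v i)) dv‖² dt = 2π ∫ ‖G‖²`. By `QQ_fourier`, `∫ G(v) exp(-(t v i)) dv = 2π QQ g W _ _ (-t)`;
replace `t` by `-t` (`integral_neg_eq_self`, `integrable_comp_neg`). -/
theorem QQ_plancherel (g : ℝ → ℂ) (hg : Integrable g) (W h u : ℝ) (hW : 1 ≤ W) (hh : 0 ≤ h) (hh1 : h ≤ 1) :
    Integrable (fun t => ‖QQ g W (u - h) (u + h) t‖ ^ 2) ∧
    Integrable (fun v => ‖fh g v‖ ^ 2 * ((1 / 4 + v ^ 2) * cw W h (v - u) ^ 2)) ∧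
    ∫ t, ‖QQ g W (u - h) (u + h) t‖ ^ 2 =
      1 / (2 * Real.pi) * ∫ v, ‖fh g v‖ ^ 2 * ((1 / 4 + v ^ 2) * cw W h (v - u) ^ 2) := by
  set c : ℝ → ℝ := fun v => cw W h (v - u) with hc
  have hW0 : 0 < W := by linarith
  obtain ⟨hc0, hc1, hccont, hFI⟩ := cw_facts W h hW0 hh
  have hcc : Continuous c := hccont.comp (continuous_id.sub continuous_const)
  set M : ℝ := ∫ s : ℝ, ‖g s‖ with hM
  have hM0 : 0 ≤ M := integral_nonneg fun s => norm_nonneg _
  set G : ℝ → ℂ := fun v => fh g v * ((1 / 2 + (v : ℂ) * I) * FI W (u - h) (u + h) ((v : ℂ) * I))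
    with hG
  have hG' : ∀ v, G v = fh g v * ((1 / 2 + (v : ℂ) * I) * ((c v : ℝ) : ℂ)) := by
    intro v
    rw [hG]
    change fh g v * ((1 / 2 + (v : ℂ) * I) * FI W (u - h) (u + h) ((v : ℂ) * I)) = _
    rw [hFI u v]
  have hGcont : Continuous G := by
    have h1 : G = fun v => fh g v * ((1 / 2 + (v : ℂ) * I) * ((c v : ℝ) : ℂ)) := funext hG'
    rw [h1]
    exact (E3b_fh_cont g hg).mul ((continuous_const.add (Complex.continuous_ofReal.mul
      continuous_const)).mul (Complex.continuous_ofReal.comp hcc))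
  have hmom : Integrable (fun v => c v * (1 + 2 * |v - u| + 4 * (v - u) ^ 2)) :=
    (cw_moment W h hW hh hh1).1.comp_sub_right u
  have hGn : ∀ v, ‖G v‖ = ‖fh g v‖ * (‖(1 / 2 : ℂ) + (v : ℂ) * I‖ * c v) := by
    intro v
    rw [hG' v, norm_mul, norm_mul, Complex.norm_real, Real.norm_of_nonneg (hc0 _)]
  have hGsq : ∀ v, ‖G v‖ ^ 2 = ‖fh g v‖ ^ 2 * ((1 / 4 + v ^ 2) * cw W h (v - u) ^ 2) := by
    intro v
    rw [hGn v, mul_pow, mul_pow, E3b_norm_sq]
  have h1 : Integrable G := by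
    refine Integrable.mono' (hmom.const_mul (M * (1 + |u|))) hGcont.aestronglyMeasurable
      (Filter.Eventually.of_forall fun v => ?_)
    rw [hGn v]
    have ha : |v| ≤ |u| + |v - u| := by
      calc |v| = |u + (v - u)| := by ring_nf
        _ ≤ |u| + |v - u| := abs_add_le _ _
    have hb : ‖(1 / 2 : ℂ) + (v : ℂ) * I‖ ≤ (1 + |u|) * (1 + 2 * |v - u| + 4 * (v - u) ^ 2) := by
      refine (E3b_norm_le v).trans ?_
      have h3 := abs_nonneg u
      have h4 := abs_nonneg (v - u)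
      have h5 : 0 ≤ |u| * |v - u| := mul_nonneg h3 h4
      have h6 : 0 ≤ |u| * (v - u) ^ 2 := mul_nonneg h3 (sq_nonneg _)
      nlinarith [sq_nonneg (v - u)]
    calc ‖fh g v‖ * (‖(1 / 2 : ℂ) + (v : ℂ) * I‖ * c v)
        ≤ M * (((1 + |u|) * (1 + 2 * |v - u| + 4 * (v - u) ^ 2)) * c v) :=
          mul_le_mul (E3b_fh_bound g v) (mul_le_mul_of_nonneg_right hb (hc0 _))
            (mul_nonneg (norm_nonneg _) (hc0 _)) hM0
      _ = M * (1 + |u|) * (c v * (1 + 2 * |v - u| + 4 * (v - u) ^ 2)) := by ring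
  have h2 : Integrable (fun v => ‖G v‖ ^ 2) := by
    refine Integrable.mono' (hmom.const_mul (M ^ 2 * (1 + 2 * u ^ 2)))
      (hGcont.norm.pow 2).aestronglyMeasurable (Filter.Eventually.of_forall fun v => ?_)
    rw [Real.norm_of_nonneg (sq_nonneg _), hGsq v]
    have h3 : ‖fh g v‖ ^ 2 ≤ M ^ 2 := pow_le_pow_left₀ (norm_nonneg _) (E3b_fh_bound g v) 2
    have h4 : cw W h (v - u) ^ 2 ≤ c v := by
      have h5 := hc0 (v - u)
      have h6 := hc1 (v - u)
      change cw W h (v - u) ^ 2 ≤ cw W h (v - u)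
      nlinarith
    have h5 : 1 / 4 + v ^ 2 ≤ (1 + 2 * u ^ 2) * (1 + 2 * |v - u| + 4 * (v - u) ^ 2) := by
      have h6 := abs_nonneg (v - u)
      have h7 : 0 ≤ u ^ 2 * |v - u| := mul_nonneg (sq_nonneg _) h6
      have h8 : 0 ≤ u ^ 2 * (v - u) ^ 2 := mul_nonneg (sq_nonneg _) (sq_nonneg _)
      nlinarith [sq_nonneg (v - 2 * u), sq_nonneg (v - u)]
    calc ‖fh g v‖ ^ 2 * ((1 / 4 + v ^ 2) * cw W h (v - u) ^ 2)
        ≤ M ^ 2 * (((1 + 2 * u ^ 2) * (1 + 2 * |v - u| + 4 * (v - u) ^ 2)) * c v) := by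
          refine mul_le_mul h3 (mul_le_mul h5 h4 (sq_nonneg _) ?_) ?_ (sq_nonneg _)
          · have h6 := abs_nonneg (v - u)
            positivity
          · positivity
      _ = M ^ 2 * (1 + 2 * u ^ 2) * (c v * (1 + 2 * |v - u| + 4 * (v - u) ^ 2)) := by ring
  obtain ⟨h3, h4⟩ := plancherel G h1 h2
  set H : ℝ → ℂ := fun t => ∫ v : ℝ, G v * Complex.exp (-((t : ℂ) * v * I)) with hH
  have hQ : ∀ t, QQ g W (u - h) (u + h) t = (1 / (2 * Real.pi) : ℂ) * H (-t) := by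
    intro t
    rw [QQ_fourier g hg W (u - h) (u + h) t hW0 (by linarith)]
    congr 1
    refine integral_congr_ae (Filter.Eventually.of_forall fun v => ?_)
    change G v * Complex.exp ((v : ℂ) * t * I) = G v * Complex.exp (-(((-t : ℝ) : ℂ) * v * I))
    congr 2
    push_cast
    ring
  have hQn : ∀ t, ‖QQ g W (u - h) (u + h) t‖ ^ 2 = (1 / (2 * Real.pi)) ^ 2 * ‖H (-t)‖ ^ 2 := by
    intro t
    rw [hQ t, norm_mul, mul_pow]
    congr 2
    have h5 : (1 / (2 * Real.pi) : ℂ) = ((1 / (2 * Real.pi) : ℝ) : ℂ) := by push_cast; rfl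
    rw [h5, Complex.norm_real, Real.norm_of_nonneg (by positivity)]
  refine ⟨?_, ?_, ?_⟩
  · have h5 := (h3.comp_neg).const_mul ((1 / (2 * Real.pi)) ^ 2)
    refine h5.congr (Filter.Eventually.of_forall fun t => ?_)
    exact (hQn t).symm
  · exact h2.congr (Filter.Eventually.of_forall fun v => hGsq v)
  · have h5 : ∫ t, ‖QQ g W (u - h) (u + h) t‖ ^ 2 =
        (1 / (2 * Real.pi)) ^ 2 * ∫ t, ‖H (-t)‖ ^ 2 := by
      rw [← integral_const_mul]
      exact integral_congr_ae (Filter.Eventually.of_forall fun t => hQn t)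
    have h6 : ∫ t, ‖H (-t)‖ ^ 2 = ∫ t, ‖H t‖ ^ 2 := integral_neg_eq_self (fun t => ‖H t‖ ^ 2) _
    rw [h5, h6, h4]
    have h7 : ∫ v, ‖G v‖ ^ 2 = ∫ v, ‖fh g v‖ ^ 2 * ((1 / 4 + v ^ 2) * cw W h (v - u) ^ 2) :=
      integral_congr_ae (Filter.Eventually.of_forall fun v => hGsq v)
    rw [h7]
    have hpi := Real.pi_pos
    field_simp

end Pool.Agent.SK.E
end

section

set_option autoImplicit false

namespace Pool.Agent.SK.E

open Complex MeasureTheory
open scoped ENNReal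

/-- Continuity of the transform. -/
private theorem e4_cont (g : ℝ → ℂ) (hg : Integrable g) : Continuous (fh g) := by
  unfold fh
  refine continuous_of_dominated (bound := fun s => ‖g s‖) (fun v => ?_) (fun v => ?_) hg.norm ?_
  · refine hg.aestronglyMeasurable.mul (Continuous.aestronglyMeasurable ?_)
    fun_prop
  · refine Filter.Eventually.of_forall fun s => ?_
    rw [norm_mul]
    have h1 : ‖Complex.exp (-((v : ℂ) * s * I))‖ = 1 := by
      have h2 : -((v : ℂ) * s * I) = ((-(v * s) : ℝ) : ℂ) * I := by push_cast; ring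
      rw [h2, Complex.norm_exp_ofReal_mul_I]
    rw [h1, mul_one]
  · refine Filter.Eventually.of_forall fun s => ?_
    fun_prop

/-- The elementary inequality. -/
private theorem e4_ineq (u v c : ℝ) (hc0 : 0 ≤ c) (hc1 : c ≤ 1) :
    1 / (1 / 4 + u ^ 2) * ((1 / 4 + v ^ 2) * c ^ 2) ≤
      c * (1 + 2 * |v - u| + 4 * (v - u) ^ 2) := by
  have hu : 0 < 1 / 4 + u ^ 2 := by positivity
  have h1 : c ^ 2 ≤ c := by nlinarith
  have h2 : 1 / 4 + v ^ 2 ≤ (1 / 4 + u ^ 2) * (1 + 2 * |v - u| + 4 * (v - u) ^ 2) := by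
    have h3 : |u| ≤ 1 / 4 + u ^ 2 := by
      have := sq_nonneg (|u| - 1 / 2)
      have h4 : |u| ^ 2 = u ^ 2 := sq_abs u
      nlinarith
    have h5 : 2 * u * (v - u) ≤ 2 * (|u| * |v - u|) := by
      have := le_abs_self (u * (v - u))
      rw [abs_mul] at this
      linarith
    have h6 : |u| * |v - u| ≤ (1 / 4 + u ^ 2) * |v - u| :=
      mul_le_mul_of_nonneg_right h3 (abs_nonneg _)
    have h7 : (v - u) ^ 2 ≤ (1 / 4 + u ^ 2) * (4 * (v - u) ^ 2) := by nlinarith [sq_nonneg (v - u), mul_nonneg (sq_nonneg u) (sq_nonneg (v - u))]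
    have h8 : v ^ 2 = u ^ 2 + 2 * u * (v - u) + (v - u) ^ 2 := by ring
    nlinarith
  rw [one_div, inv_mul_le_iff₀ hu]
  calc (1 / 4 + v ^ 2) * c ^ 2 ≤ (1 / 4 + v ^ 2) * c :=
        mul_le_mul_of_nonneg_left h1 (by positivity)
    _ ≤ ((1 / 4 + u ^ 2) * (1 + 2 * |v - u| + 4 * (v - u) ^ 2)) * c :=
        mul_le_mul_of_nonneg_right h2 hc0
    _ = (1 / 4 + u ^ 2) * (c * (1 + 2 * |v - u| + 4 * (v - u) ^ 2)) := by ring

/-- E4. The average over `u`.

PROOF. By `QQ_plancherel` the inner integral is (`ofReal_integral_eq_lintegral_ofReal`, or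
`integral_eq_lintegral_of_nonneg_ae`) `ofReal (1/2π) ∫⁻ v, ofReal (‖fh g v‖² (1/4+v²) cw W h (v-u)²)`. Tonelli
(`lintegral_lintegral_swap`; everything is continuous in `(u,v)`: `cw_facts`, `fh g` continuous):
the left side is `ofReal (1/2π) ∫⁻ v, ofReal ‖fh g v‖² ∫⁻ u, ofReal ((1/4+v²)/(1/4+u²) cw W h (v-u)²)`. With
`y = v - u` (`lintegral_sub_left_eq_self`): `(1/4+v²)/(1/4+u²) ≤ 1 + 2|y| + 4y²` (since `v = u + y`,
`v² - u² = 2uy + y²`, `|u| ≤ 1/4 + u²`, `y² ≤ 4y² (1/4+u²)`) and `c² ≤ c`, so the inner integral is at most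
`∫⁻ y, ofReal (cw W h y (1+2|y|+4y²)) = ofReal (∫ ...)`, and `∫⁻ v, ofReal ‖fh g v‖² = 2π ∫⁻ ‖g‖²`
(`plancherel g`). -/
theorem avg_bound (g : ℝ → ℂ) (hg : Integrable g) (hg2 : Integrable (fun s => ‖g s‖ ^ 2)) (W h : ℝ)
    (hW : 1 ≤ W) (hh : 0 ≤ h) (hh1 : h ≤ 1) :
    ∫⁻ u : ℝ, ENNReal.ofReal (1 / (1 / 4 + u ^ 2)) *
        ∫⁻ t : ℝ, ENNReal.ofReal (‖QQ g W (u - h) (u + h) t‖ ^ 2) ≤
      ENNReal.ofReal ((2 * h * (1 + 10 * h + 10 / W)) * ∫ s, ‖g s‖ ^ 2) := by
  have hW0 : 0 < W := lt_of_lt_of_le one_pos hW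
  obtain ⟨hc0, hc1, hcc, -⟩ := cw_facts W h hW0 hh
  obtain ⟨hmi, hm⟩ := cw_moment W h hW hh hh1
  obtain ⟨hpi, hp⟩ := plancherel g hg hg2
  have hfc : Continuous (fh g) := e4_cont g hg
  have hpi' : Integrable (fun v => ‖fh g v‖ ^ 2) := hpi
  have hp' : ∫ v, ‖fh g v‖ ^ 2 = (2 * Real.pi) * ∫ u : ℝ, ‖g u‖ ^ 2 := hp
  have hpi0 : (0 : ℝ) < 2 * Real.pi := by positivity
  -- the inner integral
  have hinner : ∀ u : ℝ, ENNReal.ofReal (1 / (1 / 4 + u ^ 2)) *
      ∫⁻ t : ℝ, ENNReal.ofReal (‖QQ g W (u - h) (u + h) t‖ ^ 2) =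
      ∫⁻ v : ℝ, ENNReal.ofReal (1 / (2 * Real.pi)) * (ENNReal.ofReal (‖fh g v‖ ^ 2) *
        ENNReal.ofReal (1 / (1 / 4 + u ^ 2) * ((1 / 4 + v ^ 2) * cw W h (v - u) ^ 2))) := by
    intro u
    obtain ⟨h1, h2, h3⟩ := QQ_plancherel g hg W h u hW hh hh1
    have hu0 : (0 : ℝ) ≤ 1 / (1 / 4 + u ^ 2) := by positivity
    rw [← ofReal_integral_eq_lintegral_ofReal h1 (Filter.Eventually.of_forall fun t => by positivity),
      h3, ENNReal.ofReal_mul (by positivity), ofReal_integral_eq_lintegral_ofReal h2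
        (Filter.Eventually.of_forall fun v => by positivity), ← mul_assoc,
      ← lintegral_const_mul' _ _ (ENNReal.mul_ne_top ENNReal.ofReal_ne_top ENNReal.ofReal_ne_top)]
    refine lintegral_congr fun v => ?_
    rw [ENNReal.ofReal_mul (by positivity : (0 : ℝ) ≤ ‖fh g v‖ ^ 2), ENNReal.ofReal_mul hu0]
    ring
  rw [lintegral_congr hinner]
  have hmeas : AEMeasurable (Function.uncurry fun u v : ℝ => ENNReal.ofReal (1 / (2 * Real.pi)) *
      (ENNReal.ofReal (‖fh g v‖ ^ 2) *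
        ENNReal.ofReal (1 / (1 / 4 + u ^ 2) * ((1 / 4 + v ^ 2) * cw W h (v - u) ^ 2))))
      ((volume : Measure ℝ).prod (volume : Measure ℝ)) := by
    refine Measurable.aemeasurable ?_
    have hm1 : Measurable fun p : ℝ × ℝ => ‖fh g p.2‖ ^ 2 :=
      ((hfc.comp continuous_snd).norm.pow 2).measurable
    have hm2 : Measurable fun p : ℝ × ℝ =>
        1 / (1 / 4 + p.1 ^ 2) * ((1 / 4 + p.2 ^ 2) * cw W h (p.2 - p.1) ^ 2) := by
      have hc2 : Continuous fun p : ℝ × ℝ => 1 / (1 / 4 + p.1 ^ 2) := by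
        refine continuous_const.div (by fun_prop) fun p => ?_
        have : (0 : ℝ) < 1 / 4 + p.1 ^ 2 := by positivity
        exact this.ne'
      have hc3 : Continuous fun p : ℝ × ℝ => cw W h (p.2 - p.1) :=
        hcc.comp (continuous_snd.sub continuous_fst)
      have hc4 : Continuous fun p : ℝ × ℝ => (1 / 4 + p.2 ^ 2) := by fun_prop
      exact (hc2.mul (hc4.mul (hc3.pow 2))).measurable
    exact measurable_const.mul (hm1.ennreal_ofReal.mul hm2.ennreal_ofReal)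
  rw [lintegral_lintegral_swap hmeas]
  -- the bound for the integral over `u`
  have hub : ∀ v : ℝ, ∫⁻ u : ℝ, ENNReal.ofReal (1 / (2 * Real.pi)) * (ENNReal.ofReal (‖fh g v‖ ^ 2) *
        ENNReal.ofReal (1 / (1 / 4 + u ^ 2) * ((1 / 4 + v ^ 2) * cw W h (v - u) ^ 2))) ≤
      ENNReal.ofReal (1 / (2 * Real.pi)) * (ENNReal.ofReal (2 * h * (1 + 10 * h + 10 / W)) *
        ENNReal.ofReal (‖fh g v‖ ^ 2)) := by
    intro v
    rw [lintegral_const_mul' _ _ ENNReal.ofReal_ne_top,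
      lintegral_const_mul' _ _ ENNReal.ofReal_ne_top]
    refine mul_le_mul_of_nonneg_left ?_ zero_le
    rw [mul_comm]
    refine mul_le_mul_of_nonneg_right ?_ zero_le
    calc ∫⁻ u : ℝ, ENNReal.ofReal (1 / (1 / 4 + u ^ 2) * ((1 / 4 + v ^ 2) * cw W h (v - u) ^ 2))
        ≤ ∫⁻ u : ℝ, ENNReal.ofReal
            (cw W h (v - u) * (1 + 2 * |v - u| + 4 * (v - u) ^ 2)) :=
          lintegral_mono fun u => ENNReal.ofReal_le_ofReal (e4_ineq u v _ (hc0 _) (hc1 _))
      _ = ∫⁻ y : ℝ, ENNReal.ofReal (cw W h y * (1 + 2 * |y| + 4 * y ^ 2)) :=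
          lintegral_sub_left_eq_self (μ := (volume : Measure ℝ))
            (fun y : ℝ => ENNReal.ofReal (cw W h y * (1 + 2 * |y| + 4 * y ^ 2))) v
      _ = ENNReal.ofReal (∫ y : ℝ, cw W h y * (1 + 2 * |y| + 4 * y ^ 2)) := by
          rw [ofReal_integral_eq_lintegral_ofReal hmi]
          exact Filter.Eventually.of_forall fun y => mul_nonneg (hc0 y) (by positivity)
      _ ≤ ENNReal.ofReal (2 * h * (1 + 10 * h + 10 / W)) := ENNReal.ofReal_le_ofReal hm
  refine (lintegral_mono hub).trans (le_of_eq ?_)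
  have hM : (0 : ℝ) ≤ 2 * h * (1 + 10 * h + 10 / W) := by positivity
  rw [lintegral_const_mul' _ _ ENNReal.ofReal_ne_top,
    lintegral_const_mul' _ _ ENNReal.ofReal_ne_top,
    ← ofReal_integral_eq_lintegral_ofReal hpi' (Filter.Eventually.of_forall fun v => by positivity),
    hp', ← ENNReal.ofReal_mul hM, ← ENNReal.ofReal_mul (by positivity)]
  congr 1
  field_simp

end Pool.Agent.SK.E
end

section

set_option autoImplicit false

/-! Task VC: the variance for `x ≤ q`. -/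

namespace Pool.Agent.SD

open MeasureTheory
open Pool.Agent.EM (V psi)

private lemma VC_psi (q : ℕ) (hq : 2 ≤ q) (x : ℝ) (hxq : x ≤ q) (a : ℕ)
    (ha : a ∈ (Finset.Icc 1 q).filter (fun a => Nat.Coprime a q)) :
    psi x q a = if a ≤ ⌊x⌋₊ then ArithmeticFunction.vonMangoldt a else 0 := by
  rw [Finset.mem_filter, Finset.mem_Icc] at ha
  obtain ⟨⟨ha1, ha2⟩, hc⟩ := ha
  have haq : a < q := by
    rcases Nat.lt_or_ge a q with h | h
    · exact h
    · exfalso
      have : a = q := le_antisymm ha2 h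
      rw [this, Nat.coprime_self] at hc
      omega
  have hfl : ⌊x⌋₊ ≤ q := by
    have := Nat.floor_le_floor hxq
    rwa [Nat.floor_natCast] at this
  unfold psi
  have key : ∀ n ∈ Finset.Icc 1 ⌊x⌋₊, (n % q = a % q ↔ n = a) := by
    intro n hn
    rw [Finset.mem_Icc] at hn
    rw [Nat.mod_eq_of_lt haq]
    constructor
    · intro h
      rcases Nat.lt_or_ge n q with h1 | h1
      · rwa [Nat.mod_eq_of_lt h1] at h
      · have : n = q := le_antisymm (hn.2.trans hfl) h1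
        rw [this, Nat.mod_self] at h
        omega
    · intro h
      rw [h, Nat.mod_eq_of_lt haq]
  rw [Finset.filter_congr key, Finset.sum_filter]
  split_ifs with h
  · rw [Finset.sum_ite_eq' (Finset.Icc 1 ⌊x⌋₊) a]
    rw [if_pos (Finset.mem_Icc.mpr ⟨ha1, h⟩)]
  · rw [Finset.sum_ite_eq' (Finset.Icc 1 ⌊x⌋₊) a]
    rw [if_neg (fun h' => h (Finset.mem_Icc.mp h').2)]

private lemma VC_card (q : ℕ) (hq : 2 ≤ q) :
    ((Finset.Icc 1 q).filter (fun a => Nat.Coprime a q)).card = q.totient := by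
  rw [Nat.totient_eq_card_coprime]
  congr 1
  ext a
  simp only [Finset.mem_filter, Finset.mem_Icc, Finset.mem_range]
  constructor
  · rintro ⟨⟨h1, h2⟩, h3⟩
    refine ⟨?_, h3.symm⟩
    rcases Nat.lt_or_ge a q with h | h
    · exact h
    · exfalso
      have : a = q := le_antisymm h2 h
      rw [this, Nat.coprime_self] at h3
      omega
  · rintro ⟨h1, h2⟩
    refine ⟨⟨?_, h1.le⟩, h2.symm⟩
    rcases Nat.eq_zero_or_pos a with h | h
    · exfalso
      rw [h, Nat.coprime_zero_right] at h2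
      omega
    · exact h

/-- VC. PROOF. For `1 ≤ a ≤ q` and `n ≤ x ≤ q`, `n ≡ a (mod q)` iff `n = a`; so `psi x q a = Λ(a)` if `a ≤ ⌊x⌋₊` and `0` otherwise. Expand the
square: `V = ∑_a psi² - 2 (x/φ) ∑_a psi + φ (x/φ)²` (the number of the `a` is `φ(q)`: `Nat.totient_eq_card_coprime` or
`Nat.totient_eq_card_lt_and_coprime`, see the proof of `variance_upper` in EMChars.lean), the middle term is `≤ 0`, and
`∑_a psi² ≤ ∑_{a ≤ ⌊x⌋₊} Λ(a)² ≤ log x ∑_{a ≤ ⌊x⌋₊} Λ(a) = log x ψ(x)` (`Λ(a) ≤ log a ≤ log x`: `ArithmeticFunction.vonMangoldt_le_log`). -/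
theorem V_le (q : ℕ) (hq : 2 ≤ q) (x : ℝ) (hx : 1 ≤ x) (hxq : x ≤ q) :
    V x q ≤ Chebyshev.psi x * Real.log x + x ^ 2 / (q.totient : ℝ) := by
  have hφ : (0 : ℝ) < (q.totient : ℝ) := by
    exact_mod_cast Nat.totient_pos.mpr (by omega)
  have hfl1 : ∀ a : ℕ, a ≤ ⌊x⌋₊ → (a : ℝ) ≤ x := fun a ha =>
    (Nat.cast_le.mpr ha).trans (Nat.floor_le (by linarith))
  have hterm : ∀ a ∈ (Finset.Icc 1 q).filter (fun a => Nat.Coprime a q),
      (psi x q a - x / (q.totient : ℝ)) ^ 2 ≤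
        (if a ≤ ⌊x⌋₊ then ArithmeticFunction.vonMangoldt a * Real.log x else 0) +
          (x / (q.totient : ℝ)) ^ 2 := by
    intro a ha
    rw [VC_psi q hq x hxq a ha]
    have ha1 : 1 ≤ a := (Finset.mem_Icc.mp (Finset.mem_filter.mp ha).1).1
    have hxφ : 0 ≤ x / (q.totient : ℝ) := by positivity
    split_ifs with h
    · have h0 : 0 ≤ ArithmeticFunction.vonMangoldt a := ArithmeticFunction.vonMangoldt_nonneg
      have h1 : ArithmeticFunction.vonMangoldt a ≤ Real.log x := by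
        refine ArithmeticFunction.vonMangoldt_le_log.trans ?_
        apply Real.log_le_log
        · exact_mod_cast ha1
        · exact hfl1 a h
      nlinarith [mul_nonneg h0 hxφ, mul_le_mul_of_nonneg_left h1 h0]
    · nlinarith
  have hV : V x q = ∑ a ∈ (Finset.Icc 1 q).filter (fun a => Nat.Coprime a q),
      (psi x q a - x / (q.totient : ℝ)) ^ 2 := rfl
  rw [hV]
  refine (Finset.sum_le_sum hterm).trans ?_
  rw [Finset.sum_add_distrib, Finset.sum_const, VC_card q hq, nsmul_eq_mul]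
  have h2 : (q.totient : ℝ) * (x / (q.totient : ℝ)) ^ 2 = x ^ 2 / (q.totient : ℝ) := by
    field_simp
  rw [h2]
  have h3 : ∑ a ∈ (Finset.Icc 1 q).filter (fun a => Nat.Coprime a q),
      (if a ≤ ⌊x⌋₊ then ArithmeticFunction.vonMangoldt a * Real.log x else 0) ≤
        Chebyshev.psi x * Real.log x := by
    rw [← Finset.sum_filter]
    unfold Chebyshev.psi
    rw [Finset.sum_mul]
    apply Finset.sum_le_sum_of_subset_of_nonneg
    · intro a ha
      rw [Finset.mem_filter, Finset.mem_filter, Finset.mem_Icc] at ha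
      rw [Finset.mem_Ioc]
      exact ⟨by omega, ha.2⟩
    · intro a _ _
      exact mul_nonneg ArithmeticFunction.vonMangoldt_nonneg (Real.log_nonneg hx)
  linarith

end Pool.Agent.SD
end

section

set_option autoImplicit false

/-! Task VD: the variance on `[1, q]` in the mean. -/

namespace Pool.Agent.SD

open MeasureTheory
open Pool.Agent.EM (V psi)

/-- VD1. PROOF. `M(x) = ∫_1^x ψ(t) t^{-2} dt` is absolutely continuous; integration by parts for `v(x) = (1 - log x/Y) log x`, `v(1) = 0`: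
`∫_1^q v ψ x^{-2} = v(q) M(q) - ∫_1^q v'(x) M(x) dx`, and the same with `log x` in place of `M(x)` (`∫_1^q v(x) dx/x = v(q) log q - ∫ v' log`); subtract:
`∫_1^q v ψ x^{-2} - ∫_1^q v/x = v(q) R(q) - ∫_1^q v' R`, `|R| ≤ C` (`mertens_int`), `|v(q)| ≤ L`, `|v'(x)| = |1 - 2 log x/Y|/x ≤ 1/x`, `∫_1^q dx/x = L`.
`∫_1^q v(x) dx/x = L²/2 - L³/(3Y)`. To avoid integration by parts with the step function `ψ` you may use Fubini instead:
`v(x) = ∫_1^x v'(s) ds`, so `∫_1^q v ψ x^{-2} dx = ∫_1^q v'(s) (M(q) - M(s)) ds` (`intervalIntegral.integral_integral_swap`-type), or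
`MeasureTheory.integral_mul_deriv_eq_deriv_mul`-type lemmas for absolutely continuous functions if available. -/
theorem psi_weighted : ∃ C : ℝ, 0 ≤ C ∧ ∀ q : ℕ, 3 ≤ q → ∀ Y : ℝ, Real.log q ≤ Y →
    ∫ x in Set.Ioc (1 : ℝ) q, (1 - Real.log x / Y) * (Chebyshev.psi x * Real.log x / x ^ 2) ≤
      Real.log q ^ 2 / 2 - Real.log q ^ 3 / (3 * Y) + C * Real.log q := by
  obtain ⟨C, hC0, hC⟩ := mertens_int
  refine ⟨2 * C, by positivity, fun q hq Y hY => ?_⟩
  have hq3 : (3 : ℝ) ≤ q := by exact_mod_cast hq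
  have hq1 : (1 : ℝ) ≤ q := by linarith
  set L := Real.log q with hLdef
  have hL1 : 1 ≤ L := by
    rw [hLdef, Real.le_log_iff_exp_le (by linarith)]
    exact Real.exp_one_lt_d9.le.trans (by linarith)
  have hY0 : 0 < Y := by linarith
  set g : ℝ → ℝ := fun t => Chebyshev.psi t / t ^ 2 with hg
  have hne : ∀ t ∈ Set.uIcc (1 : ℝ) q, t ≠ 0 := by
    intro t ht
    rw [Set.uIcc_of_le hq1] at ht
    linarith [ht.1]
  have hgi : ∀ b : ℝ, 1 ≤ b → IntervalIntegrable g volume 1 b := by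
    intro b hb
    have h1 : IntervalIntegrable Chebyshev.psi volume 1 b := Chebyshev.psi_mono.intervalIntegrable
    have h2 : ContinuousOn (fun t : ℝ => (t ^ 2)⁻¹) (Set.uIcc 1 b) := by
      refine ContinuousOn.inv₀ (by fun_prop) fun t ht => ?_
      rw [Set.uIcc_of_le hb] at ht
      have : t ≠ 0 := by linarith [ht.1]
      positivity
    have h3 := h1.mul_continuousOn h2
    simpa only [hg, div_eq_mul_inv] using h3
  set R : ℝ → ℝ := fun x => (∫ t in (1 : ℝ)..x, g t) - Real.log x with hR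
  have hRC : ∀ x : ℝ, 1 ≤ x → |R x| ≤ C := fun x hx => hC x hx
  set v : ℝ → ℝ := fun x => (1 - Real.log x / Y) * Real.log x with hv
  set v' : ℝ → ℝ := fun x => (1 - 2 * Real.log x / Y) / x with hv'
  have hvd : ∀ x : ℝ, 0 < x → HasDerivAt v (v' x) x := by
    intro x hx
    have h1 := Real.hasDerivAt_log hx.ne'
    have h2 := ((h1.div_const Y).const_sub 1).mul h1
    have he : -(x⁻¹ / Y) * Real.log x + (1 - Real.log x / Y) * x⁻¹ = v' x := by
      rw [hv']
      field_simp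
      ring
    rw [← he]
    exact h2
  have hgm : Measurable g := Chebyshev.psi_mono.measurable.div (measurable_id.pow_const 2)
  have hRd : ∀ x ∈ Set.Ioo (1 : ℝ) q \ Set.range (Nat.cast : ℕ → ℝ), HasDerivAt R (g x - 1 / x) x := by
    intro x hx
    have hx1 : 1 < x := hx.1.1
    have hx0 : 0 < x := by linarith
    have hcont : ContinuousAt g x := by
      have hfl : ((⌊x⌋₊ : ℕ) : ℝ) < x := by
        refine lt_of_le_of_ne (Nat.floor_le hx0.le) fun h => hx.2 ⟨_, h⟩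
      have hfl2 : x < (⌊x⌋₊ : ℝ) + 1 := Nat.lt_floor_add_one x
      have hmem : Set.Ioo ((⌊x⌋₊ : ℕ) : ℝ) ((⌊x⌋₊ : ℝ) + 1) ∈ nhds x := Ioo_mem_nhds hfl hfl2
      have hev : (fun _ : ℝ => Chebyshev.psi (⌊x⌋₊ : ℝ)) =ᶠ[nhds x] Chebyshev.psi := by
        filter_upwards [hmem] with y hy
        rw [Chebyshev.psi_eq_psi_coe_floor y]
        congr 2
        symm
        rw [Nat.floor_eq_iff (le_trans (Nat.cast_nonneg _) hy.1.le)]
        exact ⟨hy.1.le, hy.2⟩
      have h1 : ContinuousAt Chebyshev.psi x := (continuousAt_const).congr hev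
      exact h1.div (by fun_prop) (by positivity)
    have h1 := intervalIntegral.integral_hasDerivAt_right (hgi x hx1.le)
      (hgm.stronglyMeasurable.stronglyMeasurableAtFilter) hcont
    have h2 := h1.sub (Real.hasDerivAt_log hx0.ne')
    rw [one_div]
    exact h2
  have hlogc : ContinuousOn Real.log (Set.uIcc (1 : ℝ) q) := by
    refine Real.continuousOn_log.mono fun t ht => ?_
    exact hne t ht
  have hvc : ContinuousOn v (Set.uIcc (1 : ℝ) q) := by
    rw [hv]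
    exact (continuousOn_const.sub (hlogc.div_const Y)).mul hlogc
  have hv'c : ContinuousOn v' (Set.uIcc (1 : ℝ) q) := by
    rw [hv']
    exact (continuousOn_const.sub ((continuousOn_const.mul hlogc).div_const Y)).div
      continuousOn_id hne
  have hRc : ContinuousOn R (Set.uIcc (1 : ℝ) q) := by
    rw [hR]
    exact (intervalIntegral.continuousOn_primitive_interval' (hgi q hq1)
      (Set.left_mem_uIcc)).sub hlogc
  have h1c : ContinuousOn (fun x : ℝ => 1 / x) (Set.uIcc (1 : ℝ) q) :=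
    continuousOn_const.div continuousOn_id hne
  have i1 : IntervalIntegrable (fun x => v' x * R x) volume 1 q :=
    (hv'c.mul hRc).intervalIntegrable
  have i2 : IntervalIntegrable (fun x => v x * (1 / x)) volume 1 q :=
    (hvc.mul h1c).intervalIntegrable
  have i3 : IntervalIntegrable (fun x => v x * g x) volume 1 q :=
    (hgi q hq1).continuousOn_mul hvc
  have i4 : IntervalIntegrable (fun x => v x * (g x - 1 / x)) volume 1 q := by
    have : (fun x => v x * (g x - 1 / x)) = fun x => v x * g x - v x * (1 / x) := by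
      funext x; ring
    rw [this]
    exact i3.sub i2
  -- integration by parts
  have hparts := MeasureTheory.integral_eq_of_hasDerivAt_off_countable_of_le (fun x => v x * R x)
    (fun x => v' x * R x + v x * (g x - 1 / x)) hq1 (s := Set.range (Nat.cast : ℕ → ℝ))
    (Set.countable_range _) (by
      have := hvc.mul hRc
      rwa [Set.uIcc_of_le hq1] at this)
    (fun x hx => (hvd x (by linarith [hx.1.1])).mul (hRd x hx)) (i1.add i4)
  rw [intervalIntegral.integral_add i1 i4] at hparts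
  have hv1 : v 1 = 0 := by rw [hv]; simp
  have e4 : ∫ x in (1 : ℝ)..q, v x * (g x - 1 / x) =
      (∫ x in (1 : ℝ)..q, v x * g x) - ∫ x in (1 : ℝ)..q, v x * (1 / x) := by
    rw [← intervalIntegral.integral_sub i3 i2]
    refine intervalIntegral.integral_congr fun x _ => ?_
    ring
  have e5 : ∫ x in (1 : ℝ)..q, v x * (1 / x) = L ^ 2 / 2 - L ^ 3 / (3 * Y) := by
    have hG : ∀ x ∈ Set.uIcc (1 : ℝ) q, HasDerivAt
        (fun x => Real.log x ^ 2 / 2 - Real.log x ^ 3 / (3 * Y)) (v x * (1 / x)) x := by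
      intro x hx
      have h1 := Real.hasDerivAt_log (hne x hx)
      have h2 := ((h1.pow 2).div_const 2).sub ((h1.pow 3).div_const (3 * Y))
      have hx0 := hne x hx
      have he : (↑(2 : ℕ) * Real.log x ^ (2 - 1) * x⁻¹) / 2 -
          (↑(3 : ℕ) * Real.log x ^ (3 - 1) * x⁻¹) / (3 * Y) = v x * (1 / x) := by
        rw [hv]
        push_cast
        field_simp
      rw [← he]
      exact h2
    rw [intervalIntegral.integral_eq_sub_of_hasDerivAt hG i2]
    simp [hLdef]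
  have e6 : |∫ x in (1 : ℝ)..q, v' x * R x| ≤ C * L := by
    refine (intervalIntegral.abs_integral_le_integral_abs hq1).trans ?_
    have i5 : IntervalIntegrable (fun x : ℝ => C * (1 / x)) volume 1 q :=
      (continuousOn_const.mul h1c).intervalIntegrable
    have h1 : ∫ x in (1 : ℝ)..q, |v' x * R x| ≤ ∫ x in (1 : ℝ)..q, C * (1 / x) := by
      refine intervalIntegral.integral_mono_on hq1 i1.abs i5 fun x hx => ?_
      have hx1 := hx.1
      have hx0 : 0 < x := by linarith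
      have hlx0 : 0 ≤ Real.log x := Real.log_nonneg hx1
      have hlx1 : Real.log x ≤ Y := (Real.log_le_log hx0 hx.2).trans hY
      have hv'b : |v' x| ≤ 1 / x := by
        rw [hv']
        simp only
        rw [abs_div, abs_of_pos hx0]
        refine div_le_div_of_nonneg_right ?_ hx0.le
        have h2 : 0 ≤ Real.log x / Y := by positivity
        have h3 : Real.log x / Y ≤ 1 := (div_le_one hY0).2 hlx1
        rw [abs_le, mul_div_assoc]
        constructor <;> linarith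
      rw [abs_mul, mul_comm C]
      exact mul_le_mul hv'b (hRC x hx1) (abs_nonneg _) (by positivity)
    refine h1.trans (le_of_eq ?_)
    rw [intervalIntegral.integral_const_mul, integral_one_div_of_pos one_pos (by linarith), div_one]
  have hvq : |v q * R q| ≤ L * C := by
    rw [abs_mul]
    refine mul_le_mul ?_ (hRC q hq1) (abs_nonneg _) (by linarith)
    have h2 : 0 ≤ L / Y := by positivity
    have h3 : L / Y ≤ 1 := (div_le_one hY0).2 hY
    have h4 : v q = (1 - L / Y) * L := rfl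
    rw [h4, abs_of_nonneg (mul_nonneg (by linarith) (by linarith))]
    nlinarith
  have e7 : ∫ x in Set.Ioc (1 : ℝ) q, (1 - Real.log x / Y) * (Chebyshev.psi x * Real.log x / x ^ 2) =
      ∫ x in (1 : ℝ)..q, v x * g x := by
    rw [intervalIntegral.integral_of_le hq1]
    refine setIntegral_congr_fun measurableSet_Ioc fun x _ => ?_
    rw [hv, hg]
    simp only
    ring
  rw [e7]
  have h6 := abs_le.1 e6
  have h7 := abs_le.1 hvq
  simp only [hv1, zero_mul, sub_zero] at hparts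
  linarith [h6.1, h6.2, h7.1, h7.2]

/-- VD2. PROOF. `V_le`, `0 ≤ 1 - log x/Y ≤ 1` on `[1, q]`, `psi_weighted`, and
`∫_1^q (1 - log x/Y) (x²/φ(q))/x² dx ≤ (q-1)/φ(q) ≤ 1 + 2 log q ≤ 3 log q` (`totient_log`). Integrability: `EM.integrable_V_window`,
`Chebyshev.psi` is monotone (measurable) and bounded on `[1, q]`. -/
theorem V_initial : ∃ C : ℝ, 0 ≤ C ∧ ∀ q : ℕ, 3 ≤ q → ∀ Y : ℝ, Real.log q ≤ Y →
    ∫ x in Set.Ioc (1 : ℝ) q, (1 - Real.log x / Y) * (V x q / x ^ 2) ≤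
      Real.log q ^ 2 / 2 - Real.log q ^ 3 / (3 * Y) + C * Real.log q := by
  obtain ⟨C, hC0, hC⟩ := psi_weighted
  refine ⟨C + 3, by positivity, fun q hq Y hY => ?_⟩
  have h0 := hC q hq Y hY
  have hq3 : (3 : ℝ) ≤ q := by exact_mod_cast hq
  have hq1 : (1 : ℝ) ≤ q := by linarith
  set L := Real.log q with hLdef
  have hL1 : 1 ≤ L := by
    rw [hLdef, Real.le_log_iff_exp_le (by linarith)]
    exact Real.exp_one_lt_d9.le.trans (by linarith)
  have hY0 : 0 < Y := by linarith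
  have hφ : (0 : ℝ) < (q.totient : ℝ) := by
    exact_mod_cast Nat.totient_pos.2 (by omega)
  have hw : ∀ x ∈ Set.Ioc (1 : ℝ) q, 0 ≤ 1 - Real.log x / Y ∧ 1 - Real.log x / Y ≤ 1 := by
    intro x hx
    have h1 : 0 ≤ Real.log x := Real.log_nonneg hx.1.le
    have h2 : Real.log x ≤ Y := (Real.log_le_log (by linarith [hx.1]) hx.2).trans hY
    have h3 : 0 ≤ Real.log x / Y := by positivity
    have h4 : Real.log x / Y ≤ 1 := (div_le_one hY0).2 h2
    constructor <;> linarith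
  have hwm : Measurable (fun x : ℝ => 1 - Real.log x / Y) := by fun_prop
  have hwi : ∀ f : ℝ → ℝ, IntegrableOn f (Set.Ioc (1 : ℝ) q) →
      IntegrableOn (fun x => (1 - Real.log x / Y) * f x) (Set.Ioc (1 : ℝ) q) := by
    intro f hf
    refine Integrable.bdd_mul (c := 1) hf hwm.aestronglyMeasurable ?_
    refine (ae_restrict_iff' measurableSet_Ioc).mpr (Filter.Eventually.of_forall fun x hx => ?_)
    have h := hw x hx
    rw [Real.norm_of_nonneg h.1]
    exact h.2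
  have iV : IntegrableOn (fun x => (1 - Real.log x / Y) * (V x q / x ^ 2)) (Set.Ioc (1 : ℝ) q) :=
    hwi _ (Pool.Agent.EM.integrable_V_window q 1 q le_rfl)
  have iψ : IntegrableOn (fun x => Chebyshev.psi x * Real.log x / x ^ 2) (Set.Ioc (1 : ℝ) q) := by
    have h1 : IntervalIntegrable Chebyshev.psi volume 1 q := Chebyshev.psi_mono.intervalIntegrable
    have hne : ∀ t ∈ Set.uIcc (1 : ℝ) q, t ≠ 0 := by
      intro t ht
      rw [Set.uIcc_of_le hq1] at ht
      linarith [ht.1]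
    have h2 : ContinuousOn (fun t : ℝ => Real.log t * (t ^ 2)⁻¹) (Set.uIcc (1 : ℝ) q) := by
      refine (Real.continuousOn_log.mono fun t ht => hne t ht).mul ?_
      refine ContinuousOn.inv₀ (by fun_prop) fun t ht => ?_
      have := hne t ht
      positivity
    have h3 := h1.mul_continuousOn h2
    have h4 := (intervalIntegrable_iff_integrableOn_Ioc_of_le hq1).1 h3
    refine h4.congr_fun (fun x _ => ?_) measurableSet_Ioc
    simp only
    ring
  have iψw := hwi _ iψ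
  have ic : IntegrableOn (fun _ : ℝ => 1 / (q.totient : ℝ)) (Set.Ioc (1 : ℝ) q) := by simp
  have icw := hwi _ ic
  have hsum : ∫ x in Set.Ioc (1 : ℝ) q, (1 - Real.log x / Y) * (V x q / x ^ 2) ≤
      (∫ x in Set.Ioc (1 : ℝ) q, (1 - Real.log x / Y) * (Chebyshev.psi x * Real.log x / x ^ 2)) +
      ∫ x in Set.Ioc (1 : ℝ) q, (1 - Real.log x / Y) * (1 / (q.totient : ℝ)) := by
    rw [← integral_add iψw icw]
    refine setIntegral_mono_on iV (iψw.add icw) measurableSet_Ioc fun x hx => ?_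
    have h1 := V_le q (by omega) x hx.1.le hx.2
    have h2 := hw x hx
    have hx0 : 0 < x := by linarith [hx.1]
    show (1 - Real.log x / Y) * (V x q / x ^ 2) ≤ (1 - Real.log x / Y) *
      (Chebyshev.psi x * Real.log x / x ^ 2) + (1 - Real.log x / Y) * (1 / (q.totient : ℝ))
    rw [← mul_add]
    refine mul_le_mul_of_nonneg_left ?_ h2.1
    calc V x q / x ^ 2 ≤ (Chebyshev.psi x * Real.log x + x ^ 2 / (q.totient : ℝ)) / x ^ 2 :=
          div_le_div_of_nonneg_right h1 (by positivity)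
      _ = Chebyshev.psi x * Real.log x / x ^ 2 + 1 / (q.totient : ℝ) := by
          field_simp
  have hc : ∫ x in Set.Ioc (1 : ℝ) q, (1 - Real.log x / Y) * (1 / (q.totient : ℝ)) ≤ 3 * L := by
    have h1 : ∫ x in Set.Ioc (1 : ℝ) q, (1 - Real.log x / Y) * (1 / (q.totient : ℝ)) ≤
        ∫ _x in Set.Ioc (1 : ℝ) q, 1 / (q.totient : ℝ) := by
      refine setIntegral_mono_on icw ic measurableSet_Ioc fun x hx => ?_
      have h2 := hw x hx
      have h3 : 0 ≤ 1 / (q.totient : ℝ) := by positivity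
      nlinarith [h2.2]
    refine h1.trans ?_
    rw [setIntegral_const]
    simp only [Measure.real, Real.volume_Ioc, smul_eq_mul]
    rw [ENNReal.toReal_ofReal (by linarith)]
    have h4 := totient_log q (by omega)
    have h5 : ((q : ℝ) - 1) * (1 / (q.totient : ℝ)) ≤ 1 + 2 * L := by
      rw [mul_one_div, div_le_iff₀ hφ]
      linarith
    linarith
  linarith

end Pool.Agent.SD
end
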