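import Mathlib
import Pool.Agent.Lib.MP_9cfc0a_nt.SO.Defs2
import Pool.Agent.Lib.MP_9cfc0a_nt.Mg.G076
import Pool.Agent.Lib.MP_9cfc0a_nt.EMKey
import Pool.Agent.Lib.MP_9cfc0a_nt.Mg.G002
import Pool.Agent.Lib.MP_9cfc0a_nt.Mg.G015
import Pool.Agent.Lib.MP_9cfc0a_nt.Mg.G019

section

set_option autoImplicit false

namespace Pool.Agent.SO

open Complex MeasureTheory Pool.Agent.EM

/-- The window in the variable `u = log x`. -/
noncomputable def wnd (r : ℕ) (U u : ℝ) : ℝ :=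
  Real.smoothTransition (u / Real.log r - U) - Real.smoothTransition (u / Real.log r - U - 10)

/-- Its derivative, times `log r`. -/
noncomputable def wnd' (r : ℕ) (U u : ℝ) : ℝ :=
  deriv Real.smoothTransition (u / Real.log r - U) -
    deriv Real.smoothTransition (u / Real.log r - U - 10)

lemma P1_sT_cont : Continuous Real.smoothTransition := Real.smoothTransition.continuous

lemma P1_sT_deriv_cont : Continuous (deriv Real.smoothTransition) :=
  (Real.smoothTransition.contDiff (n := 1)).continuous_deriv le_rfl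

lemma P1_sT_hasDeriv (x : ℝ) : HasDerivAt Real.smoothTransition (deriv Real.smoothTransition x) x :=
  ((Real.smoothTransition.contDiff (n := 1)).differentiable (by norm_num) x).hasDerivAt

lemma P1_sT_deriv_zero (x : ℝ) (hx : 1 < x) : deriv Real.smoothTransition x = 0 := by
  have h : Real.smoothTransition =ᶠ[nhds x] fun _ => (1 : ℝ) := by
    filter_upwards [lt_mem_nhds hx] with y hy using Real.smoothTransition.one_of_one_le (le_of_lt hy)
  rw [h.deriv_eq, deriv_const]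

lemma P1_wnd_cont (r : ℕ) (U : ℝ) : Continuous (wnd r U) := by
  unfold wnd
  exact (P1_sT_cont.comp (by fun_prop)).sub (P1_sT_cont.comp (by fun_prop))

lemma P1_wnd'_cont (r : ℕ) (U : ℝ) : Continuous (wnd' r U) := by
  unfold wnd'
  exact (P1_sT_deriv_cont.comp (by fun_prop)).sub (P1_sT_deriv_cont.comp (by fun_prop))

lemma P1_wnd_zero (r : ℕ) (U u : ℝ) (h : U + 11 ≤ u / Real.log r) : wnd r U u = 0 := by
  unfold wnd
  rw [Real.smoothTransition.one_of_one_le (by linarith), Real.smoothTransition.one_of_one_le (by linarith), sub_self]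

lemma P1_wnd'_zero (r : ℕ) (U u : ℝ) (h : U + 11 < u / Real.log r) : wnd' r U u = 0 := by
  unfold wnd'
  rw [P1_sT_deriv_zero _ (by linarith), P1_sT_deriv_zero _ (by linarith), sub_self]

lemma P1_wnd_deriv (r : ℕ) (U u : ℝ) : HasDerivAt (wnd r U) (wnd' r U u / Real.log r) u := by
  have h1 : HasDerivAt (fun u : ℝ => u / Real.log r - U) (1 / Real.log r) u :=
    ((hasDerivAt_id u).div_const _).sub_const _
  have h2 : HasDerivAt (fun u : ℝ => u / Real.log r - U - 10) (1 / Real.log r) u := h1.sub_const _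
  have h3 := (P1_sT_hasDeriv (u / Real.log r - U)).comp u h1
  have h4 := (P1_sT_hasDeriv (u / Real.log r - U - 10)).comp u h2
  refine (h3.sub h4).congr_deriv ?_
  unfold wnd'
  ring

/-- the smooth function -/
noncomputable def P1_F (r : ℕ) (U t u : ℝ) : ℂ := (wnd r U u : ℂ) * Complex.exp (-(1 / 2 + t * I) * u)

/-- its derivative -/
noncomputable def P1_F' (r : ℕ) (U t u : ℝ) : ℂ :=
  ((wnd' r U u / Real.log r : ℝ) : ℂ) * Complex.exp (-(1 / 2 + t * I) * u) +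
    (wnd r U u : ℂ) * (Complex.exp (-(1 / 2 + t * I) * u) * (-(1 / 2 + t * I)))

lemma P1_F_deriv (r : ℕ) (U t u : ℝ) : HasDerivAt (P1_F r U t) (P1_F' r U t u) u := by
  have h1 : HasDerivAt (fun u : ℝ => (wnd r U u : ℂ)) ((wnd' r U u / Real.log r : ℝ) : ℂ) u :=
    (P1_wnd_deriv r U u).ofReal_comp
  have h2 : HasDerivAt (fun u : ℝ => -(1 / 2 + (t : ℂ) * I) * (u : ℂ)) (-(1 / 2 + (t : ℂ) * I) * 1) u :=
    ((hasDerivAt_id u).ofReal_comp).const_mul _
  have h3 := h2.cexp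
  have h4 := h1.mul h3
  refine h4.congr_deriv ?_
  unfold P1_F'
  ring

lemma P1_F'_cont (r : ℕ) (U t : ℝ) : Continuous (P1_F' r U t) := by
  unfold P1_F'
  have h1 := P1_wnd_cont r U
  have h2 := P1_wnd'_cont r U
  fun_prop

lemma P1_int (q : ℕ) (χ : DirichletCharacter ℂ q) (h : ℝ → ℂ) (hc : Continuous h) (T : ℝ)
    (h0 : ∀ u, T < u → h u = 0) : Integrable (fun u : ℝ => psiC χ (Real.exp u) * h u) := by
  have hm : Measurable (psiC χ) :=
    MC.SumC_measurable (fun n => χ n * ((ArithmeticFunction.vonMangoldt n : ℝ) : ℂ))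
  have hps0 : ∀ u : ℝ, u < 0 → psiC χ (Real.exp u) = 0 := by
    intro u hu
    have h1 : ⌊Real.exp u⌋₊ = 0 := by
      rw [Nat.floor_eq_zero]
      have := Real.exp_lt_exp.mpr hu; rwa [Real.exp_zero] at this
    unfold psiC
    rw [h1]
    simp
  obtain ⟨M, hM⟩ := (isCompact_Icc (a := (0 : ℝ)) (b := T)).exists_bound_of_continuousOn hc.continuousOn
  have h1 : IntegrableOn (fun u : ℝ => psiC χ (Real.exp u) * h u) (Set.Icc 0 T) := by
    refine Measure.integrableOn_of_bounded (M := 6 * Real.exp T * M) (by simp) ?_ ?_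
    · exact ((hm.comp Real.measurable_exp).mul hc.measurable).aestronglyMeasurable
    · refine (ae_restrict_iff' measurableSet_Icc).mpr (Filter.Eventually.of_forall fun u hu => ?_)
      rw [norm_mul]
      have h2 := psiC_le q χ (Real.exp u) (Real.exp_pos u).le
      have h3 := hM u hu
      have h4 : Real.exp u ≤ Real.exp T := Real.exp_le_exp.mpr hu.2
      have h5 : 0 ≤ ‖h u‖ := norm_nonneg _
      calc ‖psiC χ (Real.exp u)‖ * ‖h u‖ ≤ (6 * Real.exp T) * ‖h u‖ :=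
            mul_le_mul_of_nonneg_right (h2.trans (by linarith)) h5
        _ ≤ 6 * Real.exp T * M := mul_le_mul_of_nonneg_left h3 (by positivity)
  refine (integrableOn_iff_integrable_of_support_subset ?_).mp h1
  intro u hu
  rw [Function.mem_support] at hu
  refine ⟨?_, ?_⟩
  · by_contra h2
    push Not at h2
    exact hu (by rw [hps0 u h2, zero_mul])
  · by_contra h2
    push Not at h2
    exact hu (by rw [h0 u h2, mul_zero])

/-- P1. Partial summation for the window sum.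

PROOF. `AA r χ N U (1/2 + tI) = ∑_{n ≤ N} (χ n Λ n) f n` with
`f x = wnd r U (log x) * x^(-(1/2) - tI)` (`th r U n - th r (U+10) n = wnd r U (log n)`). `f` is `C^1` on
`(0, ∞)`, `f x = 0` for `x ≥ r^(U+11)`, so `f N = 0`. Mathlib's Abel summation
(`sum_mul_eq_sub_integral_mul`, or its variants `..._mul₁`) gives
`AA = - ∫_{1 < x ≤ N} f'(x) psiC χ x dx` with
`f'(x) = x^(-3/2 - tI) (-(1/2 + tI) wnd(log x) + wnd'(log x)/log r)`
(`HasDerivAt` of `wnd r U (log x)`: `wnd' r U (log x)/(log r * x)`). Extend the integral to `(0, ∞)` or to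
`ℝ` after `x = exp u` (for `u < 0`: `psiC χ (exp u) = 0`; for `u > (U+11) log r`: `wnd = wnd' = 0`;
`MeasureTheory.integral_comp_exp`-type substitution, see `EM`/`MC` files, e.g. H3_image in
C2H3.lean): `dx = exp u du`, `x^(-3/2-tI) exp u = exp(-u/2) exp(-(t u I))`. Both integrals are
integrals of bounded measurable functions with compact support (`EM.psiC_measurable`,
`EM.psiC_le`), so the sum can be split. (`deriv smoothTransition` is continuous: smooth function.) -/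
theorem AA_fourier (r : ℕ) (hr : 2 ≤ r) (χ : DirichletCharacter ℂ r) (N : ℕ) (U : ℝ) (hU : 0 ≤ U)
    (hN : (r : ℝ) ^ (U + 11) ≤ N) (t : ℝ) :
    AA r χ N U (pt r 0 t) =
      (1 / 2 + t * I) * (∫ u : ℝ, (psiC χ (Real.exp u) *
          ((Real.exp (-u / 2) * wnd r U u : ℝ) : ℂ)) * Complex.exp (-((t : ℂ) * u * I))) -
      (1 / (Real.log r : ℂ)) * (∫ u : ℝ, (psiC χ (Real.exp u) *
          ((Real.exp (-u / 2) * wnd' r U u : ℝ) : ℂ)) * Complex.exp (-((t : ℂ) * u * I))) := by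
  have hlr : 0 < Real.log r := Real.log_pos (by exact_mod_cast (by omega : 1 < r))
  have hr0 : (0 : ℝ) < r := by exact_mod_cast (by omega : 0 < r)
  have hNpos : (0 : ℝ) < N := lt_of_lt_of_le (Real.rpow_pos_of_pos hr0 _) hN
  set T : ℝ := Real.log N with hT
  have hTU : U + 11 ≤ T / Real.log r := by
    rw [le_div_iff₀ hlr, hT]
    have h1 := Real.log_le_log (Real.rpow_pos_of_pos hr0 _) hN
    rwa [Real.log_rpow hr0] at h1
  have hT0 : 0 ≤ T := Real.log_natCast_nonneg N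
  have hgt : ∀ u, T < u → U + 11 < u / Real.log r := by
    intro u hu
    exact lt_of_le_of_lt hTU (div_lt_div_of_pos_right hu hlr)
  have hFT : P1_F r U t T = 0 := by
    unfold P1_F
    rw [P1_wnd_zero r U T hTU]
    simp
  have hF'gt : ∀ u, T < u → P1_F' r U t u = 0 := by
    intro u hu
    unfold P1_F'
    rw [P1_wnd_zero r U u (hgt u hu).le, P1_wnd'_zero r U u (hgt u hu)]
    simp
  -- one term
  have hterm : ∀ n ∈ Finset.Icc 1 N, P1_F r U t (Real.log n) =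
      -∫ u in Set.Icc 0 T, (Set.Ici (Real.log n)).indicator (P1_F' r U t) u := by
    intro n hn
    obtain ⟨hn1, hnN⟩ := Finset.mem_Icc.mp hn
    have hn0 : (0 : ℝ) < n := by exact_mod_cast hn1
    have hlog : Real.log n ≤ T := Real.log_le_log hn0 (by exact_mod_cast hnN)
    have hlog0 : 0 ≤ Real.log n := Real.log_natCast_nonneg n
    rw [setIntegral_indicator measurableSet_Ici]
    have h1 : Set.Icc 0 T ∩ Set.Ici (Real.log n) = Set.Icc (Real.log n) T := by
      ext u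
      simp only [Set.mem_inter_iff, Set.mem_Icc, Set.mem_Ici]
      constructor
      · rintro ⟨⟨h1, h2⟩, h3⟩
        exact ⟨h3, h2⟩
      · rintro ⟨h1, h2⟩
        exact ⟨⟨hlog0.trans h1, h2⟩, h1⟩
    rw [h1, integral_Icc_eq_integral_Ioc, ← intervalIntegral.integral_of_le hlog,
      intervalIntegral.integral_eq_sub_of_hasDerivAt (f := P1_F r U t) (fun u _ => P1_F_deriv r U t u)
        ((P1_F'_cont r U t).intervalIntegrable _ _), hFT]
    ring
  have hAA : AA r χ N U (pt r 0 t) = ∑ n ∈ Finset.Icc 1 N,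
      (χ n * ((ArithmeticFunction.vonMangoldt n : ℝ) : ℂ)) * P1_F r U t (Real.log n) := by
    unfold AA
    refine Finset.sum_congr rfl fun n hn => ?_
    obtain ⟨hn1, hnN⟩ := Finset.mem_Icc.mp hn
    have hn0 : (n : ℂ) ≠ 0 := by exact_mod_cast (by omega : n ≠ 0)
    have h1 : (n : ℂ) ^ (-(pt r 0 t)) = Complex.exp (-(1 / 2 + t * I) * (Real.log n : ℝ)) := by
      rw [Complex.cpow_def_of_ne_zero hn0, ← Complex.natCast_log]
      congr 1
      unfold pt
      push_cast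
      ring
    have h2 : th r U n - th r (U + 10) n = wnd r U (Real.log n) := by
      unfold th wnd
      congr 2
      ring
    rw [h1, h2]
    unfold P1_F
    push_cast
    ring
  have hind : ∀ u ∈ Set.Icc (0 : ℝ) T, ∑ n ∈ Finset.Icc 1 N,
      (χ n * ((ArithmeticFunction.vonMangoldt n : ℝ) : ℂ)) * (Set.Ici (Real.log n)).indicator (P1_F' r U t) u =
        psiC χ (Real.exp u) * P1_F' r U t u := by
    intro u hu
    have h1 : ⌊Real.exp u⌋₊ ≤ N := by
      have h2 : Real.exp u ≤ N := (Real.le_log_iff_exp_le hNpos).mp hu.2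
      exact_mod_cast (Nat.floor_le (Real.exp_pos u).le).trans h2
    unfold psiC
    rw [Finset.sum_mul]
    symm
    refine Finset.sum_subset_zero_on_sdiff (Finset.Icc_subset_Icc_right h1) ?_ ?_
    · intro n hn
      rw [Finset.mem_sdiff, Finset.mem_Icc, Finset.mem_Icc] at hn
      obtain ⟨⟨hn1, hnN⟩, hn2⟩ := hn
      have h3 : ⌊Real.exp u⌋₊ < n := by
        by_contra h4
        exact hn2 ⟨hn1, by omega⟩
      have h4 : Real.exp u < n := (Nat.floor_lt (Real.exp_pos u).le).mp h3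
      have h5 : u < Real.log n := (Real.lt_log_iff_exp_lt (by exact_mod_cast hn1)).mpr h4
      rw [Set.indicator_of_notMem (by simpa using h5), mul_zero]
    · intro n hn
      obtain ⟨hn1, hn2⟩ := Finset.mem_Icc.mp hn
      have h4 : (n : ℝ) ≤ Real.exp u := (Nat.le_floor_iff (Real.exp_pos u).le).mp hn2
      have h5 : Real.log n ≤ u := (Real.log_le_iff_le_exp (by exact_mod_cast hn1)).mpr h4
      rw [Set.indicator_of_mem (by simpa using h5)]
  have hmain : AA r χ N U (pt r 0 t) = -∫ u : ℝ, psiC χ (Real.exp u) * P1_F' r U t u := by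
    rw [hAA]
    have h1 : ∑ n ∈ Finset.Icc 1 N, (χ n * ((ArithmeticFunction.vonMangoldt n : ℝ) : ℂ)) * P1_F r U t (Real.log n) =
        -∑ n ∈ Finset.Icc 1 N, ∫ u in Set.Icc 0 T, (χ n * ((ArithmeticFunction.vonMangoldt n : ℝ) : ℂ)) *
          (Set.Ici (Real.log n)).indicator (P1_F' r U t) u := by
      rw [← Finset.sum_neg_distrib]
      refine Finset.sum_congr rfl fun n hn => ?_
      rw [hterm n hn, integral_const_mul]
      ring
    have h5 : ∫ u in Set.Icc (0 : ℝ) T, psiC χ (Real.exp u) * P1_F' r U t u =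
        ∫ u : ℝ, psiC χ (Real.exp u) * P1_F' r U t u := by
      refine setIntegral_eq_integral_of_forall_compl_eq_zero fun u hu => ?_
      rw [Set.mem_Icc, not_and_or] at hu
      rcases hu with hu | hu
      · push Not at hu
        have h2 : ⌊Real.exp u⌋₊ = 0 := by
          rw [Nat.floor_eq_zero]
          have := Real.exp_lt_exp.mpr hu
          rwa [Real.exp_zero] at this
        unfold psiC
        rw [h2]
        simp
      · push Not at hu
        rw [hF'gt u hu, mul_zero]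
    rw [h1, ← integral_finsetSum, ← h5]
    · congr 1
      exact setIntegral_congr_fun measurableSet_Icc hind
    · intro n hn
      have h2 : IntegrableOn (P1_F' r U t) (Set.Icc 0 T) := (P1_F'_cont r U t).continuousOn.integrableOn_Icc
      exact (h2.indicator measurableSet_Ici).const_mul _
  have i1 : Integrable (fun u : ℝ => psiC χ (Real.exp u) *
      ((((Real.exp (-u / 2) * wnd r U u : ℝ) : ℂ)) * Complex.exp (-((t : ℂ) * u * I)))) := by
    refine P1_int r χ _ ?_ T ?_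
    · have h1 := P1_wnd_cont r U
      fun_prop
    · intro u hu
      rw [P1_wnd_zero r U u (hgt u hu).le]
      simp
  have i2 : Integrable (fun u : ℝ => psiC χ (Real.exp u) *
      ((((Real.exp (-u / 2) * wnd' r U u : ℝ) : ℂ)) * Complex.exp (-((t : ℂ) * u * I)))) := by
    refine P1_int r χ _ ?_ T ?_
    · have h1 := P1_wnd'_cont r U
      fun_prop
    · intro u hu
      rw [P1_wnd'_zero r U u (hgt u hu)]
      simp
  have e1 : (fun u : ℝ => (psiC χ (Real.exp u) *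
      ((Real.exp (-u / 2) * wnd r U u : ℝ) : ℂ)) * Complex.exp (-((t : ℂ) * u * I))) =
      fun u : ℝ => psiC χ (Real.exp u) *
      ((((Real.exp (-u / 2) * wnd r U u : ℝ) : ℂ)) * Complex.exp (-((t : ℂ) * u * I))) := by
    funext u; ring
  have e2 : (fun u : ℝ => (psiC χ (Real.exp u) *
      ((Real.exp (-u / 2) * wnd' r U u : ℝ) : ℂ)) * Complex.exp (-((t : ℂ) * u * I))) =
      fun u : ℝ => psiC χ (Real.exp u) *
      ((((Real.exp (-u / 2) * wnd' r U u : ℝ) : ℂ)) * Complex.exp (-((t : ℂ) * u * I))) := by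
    funext u; ring
  rw [hmain, e1, e2, ← integral_neg, ← integral_const_mul, ← integral_const_mul,
    ← integral_sub (i1.const_mul _) (i2.const_mul _)]
  congr 1
  funext u
  have h1 : Complex.exp (-(1 / 2 + (t : ℂ) * I) * u) = ((Real.exp (-u / 2) : ℝ) : ℂ) * Complex.exp (-((t : ℂ) * u * I)) := by
    rw [Complex.ofReal_exp, ← Complex.exp_add]
    congr 1
    push_cast
    ring
  unfold P1_F'
  rw [h1]
  push_cast
  ring

end Pool.Agent.SO
end

section

set_option autoImplicit false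

namespace Pool.Agent.SO

open Complex MeasureTheory Pool.Agent.EM

lemma P2_sT_deriv_cont : Continuous (deriv Real.smoothTransition) :=
  (Real.smoothTransition.contDiff (n := 1)).continuous_deriv le_rfl

lemma P2_sT_deriv_zero (x : ℝ) (hx : 1 < x) : deriv Real.smoothTransition x = 0 := by
  have h : Real.smoothTransition =ᶠ[nhds x] fun _ => (1 : ℝ) := by
    filter_upwards [lt_mem_nhds hx] with y hy using Real.smoothTransition.one_of_one_le (le_of_lt hy)
  rw [h.deriv_eq, deriv_const]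

lemma P2_sT_deriv_zero' (x : ℝ) (hx : x < 0) : deriv Real.smoothTransition x = 0 := by
  have h : Real.smoothTransition =ᶠ[nhds x] fun _ => (0 : ℝ) := by
    filter_upwards [gt_mem_nhds hx] with y hy using Real.smoothTransition.zero_of_nonpos (le_of_lt hy)
  rw [h.deriv_eq, deriv_const]

lemma P2_sT_deriv_bound : ∃ M : ℝ, 0 ≤ M ∧ ∀ x, |deriv Real.smoothTransition x| ≤ M := by
  obtain ⟨M, hM⟩ := (isCompact_Icc (a := (0 : ℝ)) (b := 1)).exists_bound_of_continuousOn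
    P2_sT_deriv_cont.continuousOn
  refine ⟨max M 0, le_max_right _ _, fun x => ?_⟩
  by_cases hx : x ∈ Set.Icc (0 : ℝ) 1
  · exact (hM x hx).trans (le_max_left _ _)
  · rw [Set.mem_Icc, not_and_or] at hx
    rcases hx with h | h
    · push Not at h
      rw [P2_sT_deriv_zero' x h, abs_zero]
      exact le_max_right _ _
    · push Not at h
      rw [P2_sT_deriv_zero x h, abs_zero]
      exact le_max_right _ _

/-- the general bound for `h u = psiC χ (exp u) * (exp (-u/2) * w u)` -/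
lemma P2_l2 (q : ℕ) (χ : DirichletCharacter ℂ q) (w : ℝ → ℝ) (hw : Continuous w) (K a b : ℝ) (ha : 0 ≤ a) (hab : a ≤ b)
    (hK : ∀ u, |w u| ≤ K) (h0 : ∀ u, u < a → w u = 0) (h1 : ∀ u, b < u → w u = 0) :
    Integrable (fun u : ℝ => psiC χ (Real.exp u) * ((Real.exp (-u / 2) * w u : ℝ) : ℂ)) ∧
    Integrable (fun u : ℝ => ‖psiC χ (Real.exp u) * ((Real.exp (-u / 2) * w u : ℝ) : ℂ)‖ ^ 2) ∧
    ∫ u : ℝ, ‖psiC χ (Real.exp u) * ((Real.exp (-u / 2) * w u : ℝ) : ℂ)‖ ^ 2 ≤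
      K ^ 2 * ∫ x in Set.Ioc (Real.exp a) (Real.exp b), ‖psiC χ x‖ ^ 2 / x ^ 2 := by
  have hK0 : 0 ≤ K := (abs_nonneg _).trans (hK 0)
  have hm1 : Measurable (fun u : ℝ => psiC χ (Real.exp u)) := (psiC_measurable χ).comp Real.measurable_exp
  have hm2 : Continuous (fun u : ℝ => ((Real.exp (-u / 2) * w u : ℝ) : ℂ)) := by fun_prop
  have hm : Measurable (fun u : ℝ => psiC χ (Real.exp u) * ((Real.exp (-u / 2) * w u : ℝ) : ℂ)) := hm1.mul hm2.measurable
  have hnorm : ∀ u : ℝ, ‖psiC χ (Real.exp u) * ((Real.exp (-u / 2) * w u : ℝ) : ℂ)‖ ^ 2 ≤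
      K ^ 2 * (‖psiC χ (Real.exp u)‖ ^ 2 * Real.exp (-u)) := by
    intro u
    rw [norm_mul, mul_pow, Complex.norm_real, Real.norm_eq_abs, abs_mul, mul_pow, abs_of_pos (Real.exp_pos _)]
    have e1 : Real.exp (-u / 2) ^ 2 = Real.exp (-u) := by
      rw [← Real.exp_nat_mul]; congr 1; push_cast; ring
    rw [e1]
    have e2 : |w u| ^ 2 ≤ K ^ 2 := pow_le_pow_left₀ (abs_nonneg _) (hK u) 2
    have e3 : 0 ≤ ‖psiC χ (Real.exp u)‖ ^ 2 * Real.exp (-u) := by positivity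
    calc ‖psiC χ (Real.exp u)‖ ^ 2 * (Real.exp (-u) * |w u| ^ 2)
        = |w u| ^ 2 * (‖psiC χ (Real.exp u)‖ ^ 2 * Real.exp (-u)) := by ring
      _ ≤ K ^ 2 * (‖psiC χ (Real.exp u)‖ ^ 2 * Real.exp (-u)) := mul_le_mul_of_nonneg_right e2 e3
  have hps : ∀ u ∈ Set.Icc a b, ‖psiC χ (Real.exp u)‖ ^ 2 * Real.exp (-u) ≤ 36 * Real.exp b := by
    intro u hu
    have e1 := psiC_le q χ (Real.exp u) (Real.exp_pos u).le
    calc ‖psiC χ (Real.exp u)‖ ^ 2 * Real.exp (-u) ≤ (6 * Real.exp u) ^ 2 * Real.exp (-u) := by gcongr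
      _ = 36 * (Real.exp u * (Real.exp u * Real.exp (-u))) := by ring
      _ = 36 * Real.exp u := by rw [← Real.exp_add, add_neg_cancel, Real.exp_zero, mul_one]
      _ ≤ 36 * Real.exp b := by
          have := Real.exp_le_exp.mpr hu.2
          linarith
  have hzero : ∀ u, u ∉ Set.Icc a b → psiC χ (Real.exp u) * ((Real.exp (-u / 2) * w u : ℝ) : ℂ) = 0 := by
    intro u hu
    rw [Set.mem_Icc, not_and_or] at hu
    have : w u = 0 := by
      rcases hu with h | h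
      · exact h0 u (not_le.mp h)
      · exact h1 u (not_le.mp h)
    rw [this]
    simp
  have hJ : IntegrableOn (fun u : ℝ => ‖psiC χ (Real.exp u)‖ ^ 2 * Real.exp (-u)) (Set.Icc a b) := by
    refine Measure.integrableOn_of_bounded (M := 36 * Real.exp b) (by simp) ?_ ?_
    · exact ((hm1.norm.pow_const 2).mul (by fun_prop)).aestronglyMeasurable
    · refine (ae_restrict_iff' measurableSet_Icc).mpr (Filter.Eventually.of_forall fun u hu => ?_)
      rw [Real.norm_of_nonneg (by positivity)]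
      exact hps u hu
  have hsq : Integrable (fun u : ℝ => ‖psiC χ (Real.exp u) * ((Real.exp (-u / 2) * w u : ℝ) : ℂ)‖ ^ 2) := by
    have e1 : IntegrableOn (fun u : ℝ => ‖psiC χ (Real.exp u) * ((Real.exp (-u / 2) * w u : ℝ) : ℂ)‖ ^ 2) (Set.Icc a b) := by
      refine Integrable.mono' (hJ.const_mul (K ^ 2)) (hm.norm.pow_const 2).aestronglyMeasurable ?_
      refine Filter.Eventually.of_forall fun u => ?_
      rw [Real.norm_of_nonneg (by positivity)]
      exact hnorm u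
    refine (integrableOn_iff_integrable_of_support_subset ?_).mp e1
    intro u hu
    by_contra h2
    exact hu (by show ‖psiC χ (Real.exp u) * ((Real.exp (-u / 2) * w u : ℝ) : ℂ)‖ ^ 2 = 0; rw [hzero u h2]; simp)
  have hL1 : Integrable (fun u : ℝ => psiC χ (Real.exp u) * ((Real.exp (-u / 2) * w u : ℝ) : ℂ)) := by
    have e1 : IntegrableOn (fun u : ℝ => psiC χ (Real.exp u) * ((Real.exp (-u / 2) * w u : ℝ) : ℂ)) (Set.Icc a b) := by
      refine Measure.integrableOn_of_bounded (M := 1 + K ^ 2 * (36 * Real.exp b)) (by simp) hm.aestronglyMeasurable ?_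
      refine (ae_restrict_iff' measurableSet_Icc).mpr (Filter.Eventually.of_forall fun u hu => ?_)
      have e2 := hnorm u
      have e3 := hps u hu
      have e4 : K ^ 2 * (‖psiC χ (Real.exp u)‖ ^ 2 * Real.exp (-u)) ≤ K ^ 2 * (36 * Real.exp b) :=
        mul_le_mul_of_nonneg_left e3 (by positivity)
      set y := ‖psiC χ (Real.exp u) * ((Real.exp (-u / 2) * w u : ℝ) : ℂ)‖
      nlinarith [sq_nonneg (y - 1)]
    refine (integrableOn_iff_integrable_of_support_subset ?_).mp e1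
    intro u hu
    by_contra h2
    exact hu (hzero u h2)
  refine ⟨hL1, hsq, ?_⟩
  have himg : Real.exp '' Set.Ioc a b = Set.Ioc (Real.exp a) (Real.exp b) := by
    ext x
    constructor
    · rintro ⟨u, hu, rfl⟩
      exact ⟨Real.exp_lt_exp.mpr hu.1, Real.exp_le_exp.mpr hu.2⟩
    · rintro ⟨hx1, hx2⟩
      have hx0 : 0 < x := (Real.exp_pos a).trans hx1
      exact ⟨Real.log x, ⟨(Real.lt_log_iff_exp_lt hx0).mpr hx1, (Real.log_le_iff_le_exp hx0).mpr hx2⟩, Real.exp_log hx0⟩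
  have hsub : ∫ x in Set.Ioc (Real.exp a) (Real.exp b), ‖psiC χ x‖ ^ 2 / x ^ 2 =
      ∫ u in Set.Ioc a b, ‖psiC χ (Real.exp u)‖ ^ 2 * Real.exp (-u) := by
    rw [← himg, integral_image_eq_integral_abs_deriv_smul measurableSet_Ioc
      (fun u _ => (Real.hasDerivAt_exp u).hasDerivWithinAt) Real.exp_injective.injOn]
    refine setIntegral_congr_fun measurableSet_Ioc fun u _ => ?_
    simp only [smul_eq_mul]
    rw [abs_of_pos (Real.exp_pos u), Real.exp_neg]
    have := (Real.exp_pos u).ne'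
    field_simp
  rw [hsub]
  calc ∫ u : ℝ, ‖psiC χ (Real.exp u) * ((Real.exp (-u / 2) * w u : ℝ) : ℂ)‖ ^ 2
      = ∫ u in Set.Icc a b, ‖psiC χ (Real.exp u) * ((Real.exp (-u / 2) * w u : ℝ) : ℂ)‖ ^ 2 := by
        rw [setIntegral_eq_integral_of_forall_compl_eq_zero]
        intro u hu
        rw [hzero u hu]; simp
    _ = ∫ u in Set.Ioc a b, ‖psiC χ (Real.exp u) * ((Real.exp (-u / 2) * w u : ℝ) : ℂ)‖ ^ 2 := integral_Icc_eq_integral_Ioc
    _ ≤ ∫ u in Set.Ioc a b, K ^ 2 * (‖psiC χ (Real.exp u)‖ ^ 2 * Real.exp (-u)) := by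
        refine integral_mono hsq.integrableOn ((hJ.mono_set Set.Ioc_subset_Icc_self).const_mul _) hnorm
    _ = K ^ 2 * ∫ u in Set.Ioc a b, ‖psiC χ (Real.exp u)‖ ^ 2 * Real.exp (-u) := integral_const_mul _ _

/-- P2. Plancherel bound for the window sum (uses P1 and the library lemma `plancherel_real`).

PROOF. `h₁ u = psiC χ (exp u) exp (-u/2) wnd`, `h₂` with `wnd'`: measurable, bounded, supported in
`[U log r, (U+11) log r]` (`Real.smoothTransition` is constant `0` / `1` outside `[0,1]`, so its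
derivative vanishes for arguments `< 0` or `> 1`, and at `0`, `1` as well); `|wnd| ≤ 1`,
`|wnd'| ≤ 2 M` with `M = sup |deriv smoothTransition| < ∞` (continuous, zero outside `[0,1]`;
`M` is absolute). So `h₁, h₂` are integrable and square integrable, and by `plancherel_real`
`∫ |ĥ_i|² = 2 π ∫ |h_i|² ≤ 2 π (1 + 2M)² ∫_{U log r}^{(U+11) log r} ‖psiC χ (exp u)‖² exp (-u) du
 = 2π(1+2M)² ∫_{Ioc (r^U) (r^(U+11))} ‖psiC χ x‖²/x² dx` (substitution `x = exp u`). By `AA_fourier`,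
`‖AA‖² ≤ 2 (1+|t|)² |ĥ₁|² + 2 |ĥ₂|²` (`log r ≥ 1`), hence
`‖AA‖²/(1+|t|)^4 ≤ 2 |ĥ₁|² + 2 |ĥ₂|²`; integrate. -/
theorem plancherel_AA : ∃ C : ℝ, 0 < C ∧ ∀ r : ℕ, 3 ≤ r → ∀ χ : DirichletCharacter ℂ r,
    ∀ (N : ℕ) (U : ℝ), 0 ≤ U → (r : ℝ) ^ (U + 11) ≤ N →
    Integrable (fun t : ℝ => ‖AA r χ N U (pt r 0 t)‖ ^ 2 / (1 + |t|) ^ 4) ∧
    ∫ t : ℝ, ‖AA r χ N U (pt r 0 t)‖ ^ 2 / (1 + |t|) ^ 4 ≤
      C * ∫ x in Set.Ioc ((r : ℝ) ^ U) ((r : ℝ) ^ (U + 11)), ‖psiC χ x‖ ^ 2 / x ^ 2 := by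
  obtain ⟨M, hM0, hM⟩ := P2_sT_deriv_bound
  refine ⟨4 * Real.pi * (1 + (2 * M) ^ 2), by positivity, ?_⟩
  intro r hr χ N U hU hN
  have hr0 : (0 : ℝ) < r := by exact_mod_cast (by omega : 0 < r)
  have hlr1 : 1 ≤ Real.log r := by
    rw [Real.le_log_iff_exp_le hr0]
    have h1 := Real.exp_one_lt_d9
    have h2 : (3 : ℝ) ≤ r := by exact_mod_cast hr
    linarith
  have hlr : 0 < Real.log r := by linarith
  set a : ℝ := U * Real.log r with ha
  set b : ℝ := (U + 11) * Real.log r with hb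
  have ha0 : 0 ≤ a := by positivity
  have hab : a ≤ b := by rw [ha, hb]; nlinarith
  have hwc : Continuous (wnd r U) := by
    unfold wnd
    exact (Real.smoothTransition.continuous.comp (by fun_prop)).sub (Real.smoothTransition.continuous.comp (by fun_prop))
  have hwc' : Continuous (wnd' r U) := by
    unfold wnd'
    exact (P2_sT_deriv_cont.comp (by fun_prop)).sub (P2_sT_deriv_cont.comp (by fun_prop))
  have hlt : ∀ u, u < a → u / Real.log r < U := by
    intro u hu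
    rw [div_lt_iff₀ hlr]; exact hu
  have hgt : ∀ u, b < u → U + 11 < u / Real.log r := by
    intro u hu
    rw [lt_div_iff₀ hlr]; exact hu
  have hw1 : ∀ u, |wnd r U u| ≤ 1 := by
    intro u
    unfold wnd
    have e1 := Real.smoothTransition.nonneg (u / Real.log r - U)
    have e2 := Real.smoothTransition.le_one (u / Real.log r - U)
    have e3 := Real.smoothTransition.nonneg (u / Real.log r - U - 10)
    have e4 := Real.smoothTransition.le_one (u / Real.log r - U - 10)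
    rw [abs_le]
    constructor <;> linarith
  have hw2 : ∀ u, |wnd' r U u| ≤ 2 * M := by
    intro u
    unfold wnd'
    refine (abs_sub _ _).trans ?_
    linarith [hM (u / Real.log r - U), hM (u / Real.log r - U - 10)]
  obtain ⟨i1, j1, b1⟩ := P2_l2 r χ (wnd r U) hwc 1 a b ha0 hab hw1
    (fun u hu => by
      have := hlt u hu
      unfold wnd
      rw [Real.smoothTransition.zero_of_nonpos (by linarith), Real.smoothTransition.zero_of_nonpos (by linarith), sub_self])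
    (fun u hu => by
      have := hgt u hu
      unfold wnd
      rw [Real.smoothTransition.one_of_one_le (by linarith), Real.smoothTransition.one_of_one_le (by linarith), sub_self])
  obtain ⟨i2, j2, b2⟩ := P2_l2 r χ (wnd' r U) hwc' (2 * M) a b ha0 hab hw2
    (fun u hu => by
      have := hlt u hu
      unfold wnd'
      rw [P2_sT_deriv_zero' _ (by linarith), P2_sT_deriv_zero' _ (by linarith), sub_self])
    (fun u hu => by
      have := hgt u hu
      unfold wnd'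
      rw [P2_sT_deriv_zero _ (by linarith), P2_sT_deriv_zero _ (by linarith), sub_self])
  have hea : Real.exp a = (r : ℝ) ^ U := by
    rw [ha, Real.rpow_def_of_pos hr0, mul_comm]
  have heb : Real.exp b = (r : ℝ) ^ (U + 11) := by
    rw [hb, Real.rpow_def_of_pos hr0, mul_comm]
  rw [hea, heb] at b1 b2
  obtain ⟨p1, q1⟩ := MC.C2.plancherel_real _ i1 j1
  obtain ⟨p2, q2⟩ := MC.C2.plancherel_real _ i2 j2
  set I0 : ℝ := ∫ x in Set.Ioc ((r : ℝ) ^ U) ((r : ℝ) ^ (U + 11)), ‖psiC χ x‖ ^ 2 / x ^ 2 with hI0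
  have hpt : ∀ t : ℝ, ‖AA r χ N U (pt r 0 t)‖ ^ 2 / (1 + |t|) ^ 4 ≤
      2 * ‖∫ u : ℝ, (psiC χ (Real.exp u) *
          ((Real.exp (-u / 2) * wnd r U u : ℝ) : ℂ)) * Complex.exp (-((t : ℂ) * u * I))‖ ^ 2 +
      2 * ‖∫ u : ℝ, (psiC χ (Real.exp u) *
          ((Real.exp (-u / 2) * wnd' r U u : ℝ) : ℂ)) * Complex.exp (-((t : ℂ) * u * I))‖ ^ 2 := by
    intro t
    rw [AA_fourier r (by omega) χ N U hU hN t]
    set A := ∫ u : ℝ, (psiC χ (Real.exp u) *
          ((Real.exp (-u / 2) * wnd r U u : ℝ) : ℂ)) * Complex.exp (-((t : ℂ) * u * I))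
    set B := ∫ u : ℝ, (psiC χ (Real.exp u) *
          ((Real.exp (-u / 2) * wnd' r U u : ℝ) : ℂ)) * Complex.exp (-((t : ℂ) * u * I))
    have ht : 0 ≤ |t| := abs_nonneg t
    have e1 : ‖(1 / 2 + (t : ℂ) * I) * A‖ ≤ (1 + |t|) * ‖A‖ := by
      rw [norm_mul]
      refine mul_le_mul_of_nonneg_right ?_ (norm_nonneg _)
      refine (norm_add_le _ _).trans ?_
      rw [norm_mul, Complex.norm_I, mul_one, Complex.norm_real, Real.norm_eq_abs]
      norm_num
    have e2 : ‖1 / (Real.log r : ℂ) * B‖ ≤ ‖B‖ := by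
      rw [norm_mul, norm_div, norm_one, Complex.norm_real, Real.norm_of_nonneg hlr.le]
      have : 1 / Real.log r ≤ 1 := (div_le_one hlr).mpr hlr1
      nlinarith [norm_nonneg B]
    have e3 : ‖(1 / 2 + (t : ℂ) * I) * A - 1 / (Real.log r : ℂ) * B‖ ≤ (1 + |t|) * ‖A‖ + ‖B‖ :=
      (norm_sub_le _ _).trans (add_le_add e1 e2)
    have e4 : ‖(1 / 2 + (t : ℂ) * I) * A - 1 / (Real.log r : ℂ) * B‖ ^ 2 ≤ 2 * ((1 + |t|) ^ 2 * ‖A‖ ^ 2) + 2 * ‖B‖ ^ 2 := by
      have := pow_le_pow_left₀ (norm_nonneg _) e3 2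
      nlinarith [sq_nonneg ((1 + |t|) * ‖A‖ - ‖B‖)]
    rw [div_le_iff₀ (by positivity)]
    refine e4.trans ?_
    have e5 : (1 + |t|) ^ 2 ≤ (1 + |t|) ^ 4 := pow_le_pow_right₀ (by linarith) (by norm_num)
    have e6 : 1 ≤ (1 + |t|) ^ 4 := one_le_pow₀ (by linarith)
    have e7 : 0 ≤ ‖A‖ ^ 2 := by positivity
    have e8 : 0 ≤ ‖B‖ ^ 2 := by positivity
    have e9 := mul_le_mul_of_nonneg_right e5 e7
    have e10 := mul_le_mul_of_nonneg_right e6 e8
    nlinarith
  have hmeas : AEStronglyMeasurable (fun t : ℝ => ‖AA r χ N U (pt r 0 t)‖ ^ 2 / (1 + |t|) ^ 4) volume := by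
    have hc : Continuous (fun t : ℝ => AA r χ N U (pt r 0 t)) := by
      unfold AA
      refine continuous_finsetSum _ fun n hn => ?_
      have hn0 : (n : ℂ) ≠ 0 := by
        have := (Finset.mem_Icc.mp hn).1
        exact_mod_cast (by omega : n ≠ 0)
      refine Continuous.mul continuous_const ?_
      refine Continuous.const_cpow ?_ (Or.inl hn0)
      unfold pt
      fun_prop
    have hc2 : Continuous (fun t : ℝ => ‖AA r χ N U (pt r 0 t)‖ ^ 2 / (1 + |t|) ^ 4) := by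
      refine (hc.norm.pow 2).div (by fun_prop) fun t => ?_
      positivity
    exact hc2.aestronglyMeasurable
  have hint : Integrable (fun t : ℝ => ‖AA r χ N U (pt r 0 t)‖ ^ 2 / (1 + |t|) ^ 4) := by
    refine Integrable.mono' ((p1.const_mul 2).add (p2.const_mul 2)) hmeas (Filter.Eventually.of_forall fun t => ?_)
    rw [Real.norm_of_nonneg (by positivity)]
    exact hpt t
  refine ⟨hint, ?_⟩
  have h1 := integral_mono hint ((p1.const_mul 2).add (p2.const_mul 2)) hpt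
  refine h1.trans ?_
  simp only [Pi.add_apply]
  rw [integral_add (p1.const_mul 2) (p2.const_mul 2), integral_const_mul, integral_const_mul, q1, q2]
  have hpi := Real.pi_pos
  calc 2 * (2 * Real.pi * ∫ u : ℝ, ‖psiC χ (Real.exp u) * ((Real.exp (-u / 2) * wnd r U u : ℝ) : ℂ)‖ ^ 2) +
        2 * (2 * Real.pi * ∫ u : ℝ, ‖psiC χ (Real.exp u) * ((Real.exp (-u / 2) * wnd' r U u : ℝ) : ℂ)‖ ^ 2)
      ≤ 2 * (2 * Real.pi * (1 ^ 2 * I0)) + 2 * (2 * Real.pi * ((2 * M) ^ 2 * I0)) := by gcongr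
    _ = 4 * Real.pi * (1 + (2 * M) ^ 2) * I0 := by ring

end Pool.Agent.SO
end

section

set_option autoImplicit false

namespace Pool.Agent.SO

open Complex MeasureTheory

private theorem R3_range (n : ℕ) :
    ∑ i ∈ Finset.range (n + 1), 1 / (1 + (i : ℝ)) ^ 2 ≤ 2 - 1 / ((n : ℝ) + 1) := by
  induction n with
  | zero => norm_num
  | succ n ih =>
    rw [Finset.sum_range_succ]
    push_cast at ih ⊢
    have hn : (0 : ℝ) ≤ n := Nat.cast_nonneg n
    have h1 : 1 / (1 + ((n : ℝ) + 1)) ^ 2 ≤ 1 / ((n : ℝ) + 1) - 1 / ((n : ℝ) + 1 + 1) := by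
      rw [div_sub_div _ _ (by positivity) (by positivity), div_le_div_iff₀ (by positivity)
        (by positivity)]
      nlinarith
    linarith

private theorem R3_inj (S : Finset ℕ) (φ : ℕ → ℕ) (hφ : Set.InjOn φ S) :
    ∑ j ∈ S, 1 / (1 + (φ j : ℝ)) ^ 2 ≤ 2 := by
  have h1 : ∑ i ∈ S.image φ, 1 / (1 + (i : ℝ)) ^ 2 = ∑ j ∈ S, 1 / (1 + (φ j : ℝ)) ^ 2 :=
    Finset.sum_image hφ
  rw [← h1]
  obtain ⟨N, hN⟩ : ∃ N, S.image φ ⊆ Finset.range (N + 1) := by
    refine ⟨(S.image φ).sup id, fun i hi => ?_⟩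
    rw [Finset.mem_range, Nat.lt_succ_iff]
    exact Finset.le_sup (f := id) hi
  calc ∑ i ∈ S.image φ, 1 / (1 + (i : ℝ)) ^ 2 ≤ ∑ i ∈ Finset.range (N + 1), 1 / (1 + (i : ℝ)) ^ 2 :=
        Finset.sum_le_sum_of_subset_of_nonneg hN fun i _ _ => by positivity
    _ ≤ 2 - 1 / ((N : ℝ) + 1) := R3_range N
    _ ≤ 2 := by
      have : 0 ≤ 1 / ((N : ℝ) + 1) := by positivity
      linarith

/-- R3a. PROOF. Let `n = ⌊x⌋ : ℤ`. Split `range J` into `j ≤ n` and `j ≥ n + 1`. For `j ≤ n`: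
`|x - j| ≥ n - j`, so `1/(1+|x-j|)^2 ≤ 1/(1 + (n - j))^2`, and `i = n - j` runs over distinct natural
numbers; for `j ≥ n + 1`: `|x - j| ≥ j - n - 1`, `i = j - n - 1`. So the sum is at most
`2 ∑_{i ≥ 0} 1/(1+i)^2 = 2 * π²/6`, take `C = 2 * ∑' i, 1/(1+i)^2` or simply `C = 4`
(`∑_{i < n} 1/(1+i)^2 ≤ 2`: induction with `2 - 1/n`). -/
theorem sum_inv_sq : ∃ C : ℝ, 0 < C ∧ ∀ (x : ℝ) (J : ℕ),
    ∑ j ∈ Finset.range J, 1 / (1 + |x - j|) ^ 2 ≤ C := by
  refine ⟨4, by norm_num, fun x J => ?_⟩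
  have hn1 : ((⌊x⌋ : ℤ) : ℝ) ≤ x := Int.floor_le x
  have hn2 : x < (⌊x⌋ : ℝ) + 1 := Int.lt_floor_add_one x
  set n : ℤ := ⌊x⌋ with hn
  rw [← Finset.sum_filter_add_sum_filter_not (Finset.range J) (fun j : ℕ => (j : ℤ) ≤ n)]
  have h1 : ∑ j ∈ (Finset.range J).filter (fun j : ℕ => (j : ℤ) ≤ n), 1 / (1 + |x - j|) ^ 2 ≤
      2 := by
    refine le_trans (Finset.sum_le_sum fun j hj => ?_)
      (R3_inj ((Finset.range J).filter (fun j : ℕ => (j : ℤ) ≤ n)) (fun j => (n - j).toNat) ?_)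
    · have hjn : (j : ℤ) ≤ n := (Finset.mem_filter.1 hj).2
      have e1 : (((n - j).toNat : ℕ) : ℝ) = (n : ℝ) - j := by
        have : (((n - j).toNat : ℕ) : ℤ) = n - j := Int.toNat_of_nonneg (by omega)
        have h2 : ((((n - j).toNat : ℕ) : ℤ) : ℝ) = ((n - j : ℤ) : ℝ) := by rw [this]
        push_cast at h2
        exact h2
      have hjn' : (j : ℝ) ≤ n := by exact_mod_cast hjn
      rw [e1]
      apply one_div_le_one_div_of_le
      · have : (0 : ℝ) ≤ n - j := by linarith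
        positivity
      · apply pow_le_pow_left₀ (by linarith)
        have := le_abs_self (x - j)
        linarith
    · intro j hj k hk hjk
      have hj' := (Finset.mem_filter.1 (Finset.mem_coe.1 hj)).2
      have hk' := (Finset.mem_filter.1 (Finset.mem_coe.1 hk)).2
      simp only at hjk
      omega
  have h2 : ∑ j ∈ (Finset.range J).filter (fun j : ℕ => ¬ (j : ℤ) ≤ n), 1 / (1 + |x - j|) ^ 2 ≤
      2 := by
    refine le_trans (Finset.sum_le_sum fun j hj => ?_)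
      (R3_inj ((Finset.range J).filter (fun j : ℕ => ¬ (j : ℤ) ≤ n))
        (fun j => (j - n - 1).toNat) ?_)
    · have hjn : ¬ (j : ℤ) ≤ n := (Finset.mem_filter.1 hj).2
      have e1 : ((((j : ℤ) - n - 1).toNat : ℕ) : ℝ) = (j : ℝ) - n - 1 := by
        have : ((((j : ℤ) - n - 1).toNat : ℕ) : ℤ) = j - n - 1 := Int.toNat_of_nonneg (by omega)
        have h2 : (((((j : ℤ) - n - 1).toNat : ℕ) : ℤ) : ℝ) = (((j : ℤ) - n - 1 : ℤ) : ℝ) := by
          rw [this]
        push_cast at h2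
        exact h2
      have hjn' : (n : ℝ) + 1 ≤ j := by
        have : n + 1 ≤ (j : ℤ) := by omega
        exact_mod_cast this
      rw [e1]
      apply one_div_le_one_div_of_le
      · have : (0 : ℝ) ≤ j - n - 1 := by linarith
        positivity
      · apply pow_le_pow_left₀ (by linarith)
        have := neg_le_abs (x - j)
        linarith
    · intro j hj k hk hjk
      have hj' := (Finset.mem_filter.1 (Finset.mem_coe.1 hj)).2
      have hk' := (Finset.mem_filter.1 (Finset.mem_coe.1 hk)).2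
      simp only at hjk
      omega
  linarith

/-- R3b. The sum of the weights over the grid (uses R3a).

PROOF. `L = log r ≥ 1`, `J = ⌊L⌋₊ ≥ 1`, `t_j = j/J ∈ [0, 1]`. `1 + |t'| ≤ 2 + |t' - t_j| ≤
2 (1 + L|t'-t_j|)`, so `(1 + L|t'-t_j|)^m ≥ (1 + L|t'-t_j|)^6 ≥ ((1+|t'|)/2)^4 (1 + L|t'-t_j|)^2`, and
`L|t' - j/J| ≥ J|t' - j/J| = |J t' - j|`. Hence
`∑_j kw ≤ 16 L/(1+|t'|)^4 ∑_j 1/(1+|J t' - j|)^2 ≤ 16 C L/(1+|t'|)^4`. -/
theorem grid_sum : ∃ C : ℝ, 0 < C ∧ ∀ (r m : ℕ), 3 ≤ r → 6 ≤ m →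
    ∀ S : Finset ℕ, S ⊆ Finset.range ⌊Real.log r⌋₊ → ∀ t' : ℝ,
    ∑ j ∈ S, kw r m ((j : ℝ) / (⌊Real.log r⌋₊ : ℝ)) t' ≤
      C * Real.log r * (1 / (1 + |t'|) ^ 4) := by
  obtain ⟨C, hC, hsum⟩ := sum_inv_sq
  refine ⟨16 * C, by positivity, fun r m hr hm S hS t' => ?_⟩
  have hL : 1 ≤ Real.log r := by
    have h3 : (3 : ℝ) ≤ r := by exact_mod_cast hr
    have h1 : Real.exp 1 ≤ r := le_trans (by have := Real.exp_one_lt_d9; linarith) h3
    rw [Real.le_log_iff_exp_le (by linarith)]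
    exact h1
  set L := Real.log r with hLdef
  set J := ⌊L⌋₊ with hJ
  have hJ1 : 1 ≤ J := by rw [hJ]; exact Nat.one_le_floor_iff _ |>.2 hL
  have hJL : (J : ℝ) ≤ L := Nat.floor_le (by linarith)
  have hJ0 : (0 : ℝ) < J := by exact_mod_cast hJ1
  have hterm : ∀ j ∈ S, kw r m ((j : ℝ) / (J : ℝ)) t' ≤
      16 * L * (1 / (1 + |t'|) ^ 4) * (1 / (1 + |J * t' - j|) ^ 2) := by
    intro j hj
    have hjJ : j < J := Finset.mem_range.1 (hS hj)
    have hjJ' : (j : ℝ) < J := by exact_mod_cast hjJ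
    have hj0 : (0 : ℝ) ≤ j := Nat.cast_nonneg j
    have ht0 : 0 ≤ (j : ℝ) / J := by positivity
    have ht1 : (j : ℝ) / J ≤ 1 := by rw [div_le_one hJ0]; exact hjJ'.le
    set u := |t' - (j : ℝ) / J| with hu
    have hu0 : 0 ≤ u := abs_nonneg _
    have h1 : |t'| ≤ 1 + u := by
      have := abs_sub_abs_le_abs_sub t' ((j : ℝ) / J)
      rw [abs_of_nonneg ht0] at this
      linarith
    have h2 : (1 + |t'|) / 2 ≤ 1 + L * u := by
      have : u ≤ L * u := le_mul_of_one_le_left hu0 hL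
      linarith
    have h3 : 1 + |J * t' - j| ≤ 1 + L * u := by
      have e : |J * t' - j| = J * u := by
        rw [hu, ← abs_of_pos hJ0, ← abs_mul, abs_of_pos hJ0]
        congr 1
        field_simp
      rw [e]
      have := mul_le_mul_of_nonneg_right hJL hu0
      linarith
    have hb : 1 ≤ 1 + L * u := by
      have : 0 ≤ L * u := by positivity
      linarith
    have h4 : ((1 + |t'|) / 2) ^ 4 * (1 + |J * t' - j|) ^ 2 ≤ (1 + L * u) ^ m := by
      calc ((1 + |t'|) / 2) ^ 4 * (1 + |J * t' - j|) ^ 2 ≤ (1 + L * u) ^ 4 * (1 + L * u) ^ 2 := by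
            apply mul_le_mul
            · exact pow_le_pow_left₀ (by positivity) h2 4
            · exact pow_le_pow_left₀ (by positivity) h3 2
            · positivity
            · positivity
        _ = (1 + L * u) ^ 6 := by ring
        _ ≤ (1 + L * u) ^ m := pow_le_pow_right₀ hb hm
    have hpos : 0 < ((1 + |t'|) / 2) ^ 4 * (1 + |J * t' - j|) ^ 2 := by positivity
    have e2 : 16 * L * (1 / (1 + |t'|) ^ 4) * (1 / (1 + |J * t' - j|) ^ 2) =
        L / (((1 + |t'|) / 2) ^ 4 * (1 + |J * t' - j|) ^ 2) := by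
      have : (1 + |t'|) ≠ 0 := by positivity
      have : (1 + |J * t' - j|) ≠ 0 := by positivity
      field_simp
      ring
    rw [e2]
    unfold kw
    exact div_le_div_of_nonneg_left (by linarith) hpos h4
  calc ∑ j ∈ S, kw r m ((j : ℝ) / (J : ℝ)) t'
      ≤ ∑ j ∈ S, 16 * L * (1 / (1 + |t'|) ^ 4) * (1 / (1 + |J * t' - j|) ^ 2) :=
        Finset.sum_le_sum hterm
    _ = 16 * L * (1 / (1 + |t'|) ^ 4) * ∑ j ∈ S, 1 / (1 + |J * t' - j|) ^ 2 := by
        rw [Finset.mul_sum]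
    _ ≤ 16 * L * (1 / (1 + |t'|) ^ 4) * C := by
        refine mul_le_mul_of_nonneg_left ?_ (by positivity)
        refine le_trans (Finset.sum_le_sum_of_subset_of_nonneg hS fun i _ _ => by positivity)
          (hsum (J * t') J)
    _ = 16 * C * L * (1 / (1 + |t'|) ^ 4) := by ring

end Pool.Agent.SO
end

section

set_option autoImplicit false

namespace Pool.Agent.SO

open Complex MeasureTheory Pool.Agent.EM

/-- R4a. From good grid points to the window (uses R1a `int_AA`, R3b `grid_sum`, P2 `plancherel_AA`).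

PROOF. Let `N = ⌈r^(U+15)⌉₊`. Sum the hypothesis over `j ∈ S` (exchange finite sum and integral,
`integral_finset_sum`, `int_AA`):
`#S c L² ≤ ∫ ‖A‖² ∑_{j ∈ S} kw r m (j/J) t' ≤ ∫ C₁ L ‖A‖²/(1+|t'|)^4 ≤ C₁ L C₂ ∫ ‖psiC‖²/x²`
(`integral_mono_of_nonneg`, integrability from `plancherel_AA`). `#S ≥ J/2 ≥ L/4` (as `J ≥ L/2`,
`L ≥ 1`), so `∫ ‖psiC‖²/x² ≥ c L²/(4 C₁ C₂)`. -/
theorem window_of_grid : ∃ C : ℝ, 0 < C ∧ ∀ (r m : ℕ) (c : ℝ), 3 ≤ r → 6 ≤ m → 0 ≤ c →
    ∀ (χ : DirichletCharacter ℂ r) (U : ℝ), 0 ≤ U → ∀ S : Finset ℕ,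
    S ⊆ Finset.range ⌊Real.log r⌋₊ → ⌊Real.log r⌋₊ ≤ 2 * S.card →
    (∀ j ∈ S, ∀ N : ℕ, (r : ℝ) ^ (U + 15) ≤ N → c * (Real.log r) ^ 2 ≤
      ∫ t' : ℝ, ‖AA r χ N U (pt r 0 t')‖ ^ 2 * kw r m ((j : ℝ) / (⌊Real.log r⌋₊ : ℝ)) t') →
    c * (Real.log r) ^ 2 ≤
      C * ∫ x in Set.Ioc ((r : ℝ) ^ U) ((r : ℝ) ^ (U + 11)), ‖psiC χ x‖ ^ 2 / x ^ 2 := by
  obtain ⟨C₁, hC₁, hgrid⟩ := grid_sum
  obtain ⟨C₂, hC₂, hplan⟩ := plancherel_AA
  refine ⟨4 * C₁ * C₂, by positivity, fun r m c hr hm hc χ U hU S hS hcard h => ?_⟩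
  have hrR : (3 : ℝ) ≤ r := by exact_mod_cast hr
  have hL1 : 1 ≤ Real.log (r : ℝ) := by
    rw [Real.le_log_iff_exp_le (by linarith)]
    have := Real.exp_one_lt_d9
    linarith
  obtain ⟨N, hN⟩ : ∃ N : ℕ, N = ⌈(r : ℝ) ^ (U + 15)⌉₊ := ⟨_, rfl⟩
  have hN1 : (r : ℝ) ^ (U + 15) ≤ N := by
    rw [hN]
    exact Nat.le_ceil _
  have hN2 : (r : ℝ) ^ (U + 11) ≤ N :=
    (Real.rpow_le_rpow_of_exponent_le (by linarith) (by linarith)).trans hN1
  obtain ⟨hi, hp⟩ := hplan r hr χ N U hU hN2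
  obtain ⟨W, hW⟩ : ∃ W : ℝ, W = ∫ x in Set.Ioc ((r : ℝ) ^ U) ((r : ℝ) ^ (U + 11)),
    ‖psiC χ x‖ ^ 2 / x ^ 2 := ⟨_, rfl⟩
  rw [← hW] at hp ⊢
  have h1 : (S.card : ℝ) * (c * (Real.log r) ^ 2) ≤
      ∫ t' : ℝ, ∑ j ∈ S, ‖AA r χ N U (pt r 0 t')‖ ^ 2 *
        kw r m ((j : ℝ) / (⌊Real.log r⌋₊ : ℝ)) t' := by
    rw [integral_finsetSum S fun j _ => int_AA r (by omega) χ N U _ m (by omega),
      ← nsmul_eq_mul, ← Finset.sum_const]
    exact Finset.sum_le_sum fun j hj => h j hj N hN1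
  have h2 : ∫ t' : ℝ, ∑ j ∈ S, ‖AA r χ N U (pt r 0 t')‖ ^ 2 *
        kw r m ((j : ℝ) / (⌊Real.log r⌋₊ : ℝ)) t' ≤
      ∫ t' : ℝ, C₁ * Real.log r * (‖AA r χ N U (pt r 0 t')‖ ^ 2 / (1 + |t'|) ^ 4) := by
    refine integral_mono (integrable_finsetSum S fun j _ =>
      int_AA r (by omega) χ N U _ m (by omega)) (hi.const_mul _) fun t' => ?_
    change ∑ j ∈ S, ‖AA r χ N U (pt r 0 t')‖ ^ 2 *
        kw r m ((j : ℝ) / (⌊Real.log r⌋₊ : ℝ)) t' ≤
      C₁ * Real.log r * (‖AA r χ N U (pt r 0 t')‖ ^ 2 / (1 + |t'|) ^ 4)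
    rw [← Finset.mul_sum]
    refine (mul_le_mul_of_nonneg_left (hgrid r m hr hm S hS t') (by positivity)).trans_eq ?_
    ring
  rw [integral_const_mul] at h2
  have h3 : C₁ * Real.log r * ∫ t' : ℝ, ‖AA r χ N U (pt r 0 t')‖ ^ 2 / (1 + |t'|) ^ 4 ≤
      C₁ * Real.log r * (C₂ * W) := mul_le_mul_of_nonneg_left hp (by positivity)
  have h4 : (S.card : ℝ) * (c * (Real.log r) ^ 2) ≤ C₁ * Real.log r * (C₂ * W) :=
    h1.trans (h2.trans h3)
  -- `#S ≥ L / 4`
  have h5 : Real.log r / 4 ≤ S.card := by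
    have h6 : (⌊Real.log r⌋₊ : ℝ) ≤ 2 * S.card := by exact_mod_cast hcard
    have h7 : Real.log r < (⌊Real.log r⌋₊ : ℝ) + 1 := Nat.lt_floor_add_one _
    have h8 : (1 : ℝ) ≤ (⌊Real.log r⌋₊ : ℝ) := by
      have : 1 ≤ ⌊Real.log r⌋₊ := Nat.le_floor (by rwa [Nat.cast_one])
      exact_mod_cast this
    linarith
  have h9 : Real.log r / 4 * (c * (Real.log r) ^ 2) ≤ C₁ * Real.log r * (C₂ * W) :=
    (mul_le_mul_of_nonneg_right h5 (by positivity)).trans h4
  have h10 : Real.log r * (c * (Real.log r) ^ 2) ≤ Real.log r * (4 * C₁ * C₂ * W) := by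
    linarith
  exact le_of_mul_le_mul_left h10 (by linarith)

end Pool.Agent.SO
end

section

set_option autoImplicit false

namespace Pool.Agent.SK.E

open Complex MeasureTheory

theorem E6_cut_norm (f : ℝ → ℂ) (z s : ℝ) :
    ‖cut f z s‖ ^ 2 = (Set.Ioc 0 z).indicator (fun s => ‖f s‖ ^ 2) s := by
  unfold cut
  by_cases hs : s ∈ Set.Ioc 0 z
  · rw [Set.indicator_of_mem hs, Set.indicator_of_mem hs]
  · rw [Set.indicator_of_notMem hs, Set.indicator_of_notMem hs]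
    simp

theorem E6_int (f : ℝ → ℂ) (hf : Measurable f) (hb : ∀ v, 0 < v → ‖f v‖ ≤ 6 * Real.exp (v / 2)) (z : ℝ) :
    Integrable (cut f z) ∧ IntegrableOn (fun s => ‖f s‖ ^ 2) (Set.Ioc 0 z) ∧
      Integrable (fun s => ‖cut f z s‖ ^ 2) ∧
      ∫ s, ‖cut f z s‖ ^ 2 = ∫ s in Set.Ioc 0 z, ‖f s‖ ^ 2 := by
  have hfin : volume (Set.Ioc (0 : ℝ) z) < ⊤ := measure_Ioc_lt_top
  have hbz : ∀ v ∈ Set.Ioc (0 : ℝ) z, ‖f v‖ ≤ 6 * Real.exp (z / 2) := by
    intro v hv
    refine (hb v hv.1).trans ?_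
    have := hv.2
    gcongr
  have h1 : IntegrableOn f (Set.Ioc 0 z) := by
    refine Measure.integrableOn_of_bounded (M := 6 * Real.exp (z / 2)) hfin.ne
      hf.aestronglyMeasurable ?_
    rw [ae_restrict_iff' measurableSet_Ioc]
    exact Filter.Eventually.of_forall hbz
  have h2 : IntegrableOn (fun s => ‖f s‖ ^ 2) (Set.Ioc 0 z) := by
    refine Measure.integrableOn_of_bounded (M := (6 * Real.exp (z / 2)) ^ 2) hfin.ne
      (hf.norm.pow_const 2).aestronglyMeasurable ?_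
    rw [ae_restrict_iff' measurableSet_Ioc]
    refine Filter.Eventually.of_forall fun v hv => ?_
    rw [Real.norm_of_nonneg (by positivity)]
    exact pow_le_pow_left₀ (norm_nonneg _) (hbz v hv) 2
  have h3 : (fun s => ‖cut f z s‖ ^ 2) = (Set.Ioc 0 z).indicator (fun s => ‖f s‖ ^ 2) :=
    funext fun s => E6_cut_norm f z s
  refine ⟨?_, h2, ?_, ?_⟩
  · unfold cut
    exact (integrable_indicator_iff measurableSet_Ioc).mpr h1
  · rw [h3]
    exact (integrable_indicator_iff measurableSet_Ioc).mpr h2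
  · rw [h3]
    exact integral_indicator measurableSet_Ioc

theorem E6_sq (a b : ℂ) (κ e : ℝ) (hκ : 0 < κ) (he : ‖a - b‖ ≤ e) :
    ‖a‖ ^ 2 ≤ (1 + κ) * ‖b‖ ^ 2 + (1 + 1 / κ) * e ^ 2 := by
  have h1 : ‖a‖ ≤ ‖b‖ + e := by
    calc ‖a‖ = ‖b + (a - b)‖ := by ring_nf
      _ ≤ ‖b‖ + ‖a - b‖ := norm_add_le _ _
      _ ≤ _ := by gcongr
  have he0 : 0 ≤ e := (norm_nonneg _).trans he
  have h2 : ‖a‖ ^ 2 ≤ (‖b‖ + e) ^ 2 := pow_le_pow_left₀ (norm_nonneg _) h1 2
  have h3 : 2 * ‖b‖ * e ≤ κ * ‖b‖ ^ 2 + 1 / κ * e ^ 2 := by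
    have h4 : 0 ≤ 1 / κ * (κ * ‖b‖ - e) ^ 2 := by positivity
    have h5 : 1 / κ * (κ * ‖b‖ - e) ^ 2 = κ * ‖b‖ ^ 2 - 2 * ‖b‖ * e + 1 / κ * e ^ 2 := by
      field_simp
      ring
    linarith
  nlinarith

/-- E6. The averaged Plancherel bound in `lintegral` form.

PROOF. Notation: `w(u) = ofReal (1/(1/4+u²)) ≤ 4`, `R = Y' - Y ≥ 2W√Y`, `E = C W e^(-Y/4)` with the `C` of `PP_cut T₀`,
`C₀ = 2h(1+10h+10/W)`. Fix `y ∈ (0, Y]` and `g = cut f (y+R)` (integrable and square integrable: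
bounded, measurable, bounded support). For `|u| ≤ T₀`, `t ∈ (0,y]`:
`‖PP‖² ≤ (1+κ) ‖QQ g‖² + (1+1/κ) E²` (from `(a+b)² ≤ (1+κ)a² + (1+1/κ)b²`). So
`∫⁻_{u ∈ (-T₀,T₀]} w(u) ∫⁻_{t ∈ (0,y]} ‖PP‖² ≤ (1+κ) ∫⁻_u w(u) ∫⁻_t ‖QQ g‖² + (1+1/κ) · 8T₀ · Y E²
≤ ofReal ((1+κ) C₀ ∫_{(0,y+R]} ‖f‖²) + ofReal ((1+1/κ) 8 T₀ Y E²)` (`avg_bound`).
Integrate over `y ∈ (0,Y]` and multiply by `1/Y`. Left side: by Tonelli (`PP_measurable`) and `layer_cake` it
is `∫⁻_u w(u) ∫⁻_{t∈(0,Y]} ofReal(1-t/Y) ‖PP‖²`. Right side: `∫_{y ∈ (0,Y]} ∫_{(0,y+R]} ‖f‖² ≤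
∫_{z ∈ (0,Y']} ∫_{(0,z]} ‖f‖² = Y' ∫_{(0,Y']} (1 - t/Y') ‖f‖²` (substitute `z = y + R`, `layer_cake`). -/
theorem avg_main (T₀ : ℝ) (hT : 0 < T₀) : ∃ C : ℝ, 0 ≤ C ∧ ∀ (f : ℝ → ℂ), Measurable f →
    (∀ v, 0 < v → ‖f v‖ ≤ 6 * Real.exp (v / 2)) → ∀ W Y Y' h κ : ℝ, 1 ≤ W → W ^ 2 ≤ Y →
    Y + 2 * W * Real.sqrt Y ≤ Y' → 0 ≤ h → h ≤ 1 → 0 < κ →
    ∫⁻ u in Set.Ioc (-T₀) T₀, ENNReal.ofReal (1 / (1 / 4 + u ^ 2)) *
        ∫⁻ t in Set.Ioc 0 Y, ENNReal.ofReal (1 - t / Y) *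
          ENNReal.ofReal (‖PP f W (u - h) (u + h) t‖ ^ 2) ≤
      ENNReal.ofReal ((1 + κ) * (2 * h * (1 + 10 * h + 10 / W)) * (Y' / Y) *
        (∫ t in Set.Ioc 0 Y', (1 - t / Y') * ‖f t‖ ^ 2) +
          (1 + 1 / κ) * (8 * T₀) * Y * (C * W * Real.exp (-(1 / 4) * Y)) ^ 2) := by
  obtain ⟨C, hC, hcut⟩ := PP_cut T₀ hT.le
  refine ⟨C, hC, ?_⟩
  intro f hf hb W Y Y' h κ hW hWY hYY' hh hh1 hκ
  have hW0 : 0 < W := by linarith
  have hY1 : 1 ≤ Y := by nlinarith
  have hY0 : 0 < Y := by linarith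
  have hsq : 0 ≤ 2 * W * Real.sqrt Y := by positivity
  have hY'0 : 0 < Y' := by linarith
  set R : ℝ := Y' - Y with hR
  have hR0 : 0 ≤ R := by linarith
  have hR2 : 2 * W * Real.sqrt Y ≤ R := by linarith
  set E : ℝ := C * W * Real.exp (-(1 / 4) * Y) with hE
  have hE0 : 0 ≤ E := by positivity
  set C₀ : ℝ := 2 * h * (1 + 10 * h + 10 / W) with hC₀
  have hC₀0 : 0 ≤ C₀ := by positivity
  obtain ⟨w, hw⟩ : ∃ w : ℝ → ENNReal, ∀ u, w u = ENNReal.ofReal (1 / (1 / 4 + u ^ 2)) :=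
    ⟨_, fun _ => rfl⟩
  have hwm : Measurable w := by
    have e : w = fun u => ENNReal.ofReal (1 / (1 / 4 + u ^ 2)) := funext hw
    rw [e]
    refine ENNReal.measurable_ofReal.comp ?_
    fun_prop
  obtain ⟨P, hP⟩ : ∃ P : ℝ → ℝ → ENNReal,
      ∀ u t, P u t = ENNReal.ofReal (‖PP f W (u - h) (u + h) t‖ ^ 2) := ⟨_, fun _ _ => rfl⟩
  have hPm : Measurable (fun p : ℝ × ℝ => P p.1 p.2) := by
    have e : (fun p : ℝ × ℝ => P p.1 p.2) =
        fun p : ℝ × ℝ => ENNReal.ofReal (‖PP f W (p.1 - h) (p.1 + h) p.2‖ ^ 2) :=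
      funext fun p => hP p.1 p.2
    rw [e]
    exact ENNReal.measurable_ofReal.comp ((PP_measurable f hf W h hh).norm.pow_const 2)
  have hPu : ∀ u, Measurable (P u) := by
    intro u
    have h1 : Measurable (fun t : ℝ => ((u, t) : ℝ × ℝ)) := measurable_const.prodMk measurable_id
    exact hPm.comp h1
  -- Step 1, 2
  have hmeas : Measurable (fun p : ℝ × ℝ => w p.1 * ∫⁻ t in Set.Ioc 0 p.2, P p.1 t) := by
    refine (hwm.comp measurable_fst).mul ?_
    have e1 : (fun p : ℝ × ℝ => ∫⁻ t in Set.Ioc 0 p.2, P p.1 t) = fun p : ℝ × ℝ =>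
        ∫⁻ t, {q : (ℝ × ℝ) × ℝ | 0 < q.2 ∧ q.2 ≤ q.1.2}.indicator (fun q => P q.1.1 q.2) (p, t) := by
      funext p
      rw [← lintegral_indicator measurableSet_Ioc]
      refine lintegral_congr fun t => ?_
      by_cases ht : t ∈ Set.Ioc 0 p.2
      · rw [Set.indicator_of_mem ht, Set.indicator_of_mem (by exact ht)]
      · rw [Set.indicator_of_notMem ht, Set.indicator_of_notMem (by exact ht)]
    rw [e1]
    refine Measurable.lintegral_prod_right' ?_
    refine Measurable.indicator ?_ ?_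
    · exact hPm.comp ((measurable_fst.comp measurable_fst).prodMk measurable_snd)
    · exact (measurableSet_lt measurable_const measurable_snd).inter
        (measurableSet_le measurable_snd (measurable_snd.comp measurable_fst))
  have hL : (∫⁻ u in Set.Ioc (-T₀) T₀, w u * ∫⁻ t in Set.Ioc 0 Y, ENNReal.ofReal (1 - t / Y) * P u t) =
      ENNReal.ofReal (1 / Y) * ∫⁻ y in Set.Ioc 0 Y, ∫⁻ u in Set.Ioc (-T₀) T₀,
        w u * ∫⁻ t in Set.Ioc 0 y, P u t := by
    have e2 : ∀ u, w u * ∫⁻ t in Set.Ioc 0 Y, ENNReal.ofReal (1 - t / Y) * P u t =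
        ENNReal.ofReal (1 / Y) * ∫⁻ y in Set.Ioc 0 Y, w u * ∫⁻ t in Set.Ioc 0 y, P u t := by
      intro u
      have hwt : w u ≠ ⊤ := by
        rw [hw]
        exact ENNReal.ofReal_ne_top
      rw [layer_cake (P u) (hPu u) Y hY0, lintegral_const_mul' (w u) _ hwt]
      ring
    rw [lintegral_congr e2, lintegral_const_mul' _ _ ENNReal.ofReal_ne_top]
    congr 1
    exact lintegral_lintegral_swap hmeas.aemeasurable
  -- Step 3
  have hstep : ∀ y ∈ Set.Ioc 0 Y, ∫⁻ u in Set.Ioc (-T₀) T₀, w u * ∫⁻ t in Set.Ioc 0 y, P u t ≤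
      ENNReal.ofReal ((1 + κ) * C₀) * (∫⁻ s in Set.Ioc 0 (y + R), ENNReal.ofReal (‖f s‖ ^ 2)) +
        ENNReal.ofReal ((1 + 1 / κ) * (8 * T₀) * Y * E ^ 2) := by
    intro y hy
    obtain ⟨g1, g2, g3, g4⟩ := E6_int f hf hb (y + R)
    set g : ℝ → ℂ := cut f (y + R) with hg
    have hA := avg_bound g g1 g3 W h hW hh hh1
    rw [← hC₀] at hA
    simp only [← hw] at hA
    have hpt : ∀ u ∈ Set.Ioc (-T₀) T₀, w u * ∫⁻ t in Set.Ioc 0 y, P u t ≤
        ENNReal.ofReal (1 + κ) * (w u * ∫⁻ t : ℝ, ENNReal.ofReal (‖QQ g W (u - h) (u + h) t‖ ^ 2)) +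
          ENNReal.ofReal (4 * ((1 + 1 / κ) * E ^ 2 * Y)) := by
      intro u hu
      have hu' : |u| ≤ T₀ := abs_le.mpr ⟨hu.1.le, hu.2⟩
      have h1 : ∫⁻ t in Set.Ioc 0 y, P u t ≤
          ENNReal.ofReal (1 + κ) * (∫⁻ t : ℝ, ENNReal.ofReal (‖QQ g W (u - h) (u + h) t‖ ^ 2)) +
            ENNReal.ofReal ((1 + 1 / κ) * E ^ 2 * Y) := by
        calc ∫⁻ t in Set.Ioc 0 y, P u t ≤ ∫⁻ t in Set.Ioc 0 y,
              (ENNReal.ofReal (1 + κ) * ENNReal.ofReal (‖QQ g W (u - h) (u + h) t‖ ^ 2) +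
                ENNReal.ofReal ((1 + 1 / κ) * E ^ 2)) := by
              refine setLIntegral_mono' measurableSet_Ioc fun t ht => ?_
              rw [hP, ← ENNReal.ofReal_mul (by positivity), ← ENNReal.ofReal_add (by positivity) (by positivity)]
              exact ENNReal.ofReal_le_ofReal (E6_sq _ _ κ E hκ
                (hcut f hf hb W Y R h u t y hW hWY hR2 hh hh1 hu' ht.1.le ht.2 hy.2))
          _ = ENNReal.ofReal (1 + κ) * (∫⁻ t in Set.Ioc 0 y,
                ENNReal.ofReal (‖QQ g W (u - h) (u + h) t‖ ^ 2)) +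
                ENNReal.ofReal ((1 + 1 / κ) * E ^ 2) * ENNReal.ofReal y := by
              rw [lintegral_add_right _ measurable_const, lintegral_const_mul' _ _ ENNReal.ofReal_ne_top,
                setLIntegral_const, Real.volume_Ioc, sub_zero]
          _ ≤ _ := by
              refine add_le_add ?_ ?_
              · gcongr
                exact Measure.restrict_le_self
              · rw [← ENNReal.ofReal_mul (by positivity)]
                apply ENNReal.ofReal_le_ofReal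
                have := hy.2
                gcongr
      have hw4 : w u ≤ ENNReal.ofReal 4 := by
        rw [hw]
        apply ENNReal.ofReal_le_ofReal
        rw [div_le_iff₀ (by positivity)]
        nlinarith [sq_nonneg u]
      calc w u * ∫⁻ t in Set.Ioc 0 y, P u t
          ≤ w u * (ENNReal.ofReal (1 + κ) * (∫⁻ t : ℝ, ENNReal.ofReal (‖QQ g W (u - h) (u + h) t‖ ^ 2)) +
            ENNReal.ofReal ((1 + 1 / κ) * E ^ 2 * Y)) := by gcongr
        _ = ENNReal.ofReal (1 + κ) * (w u * ∫⁻ t : ℝ, ENNReal.ofReal (‖QQ g W (u - h) (u + h) t‖ ^ 2)) +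
            w u * ENNReal.ofReal ((1 + 1 / κ) * E ^ 2 * Y) := by ring
        _ ≤ ENNReal.ofReal (1 + κ) * (w u * ∫⁻ t : ℝ, ENNReal.ofReal (‖QQ g W (u - h) (u + h) t‖ ^ 2)) +
            ENNReal.ofReal 4 * ENNReal.ofReal ((1 + 1 / κ) * E ^ 2 * Y) := by gcongr
        _ = _ := by rw [← ENNReal.ofReal_mul (by norm_num)]
    calc ∫⁻ u in Set.Ioc (-T₀) T₀, w u * ∫⁻ t in Set.Ioc 0 y, P u t
        ≤ ∫⁻ u in Set.Ioc (-T₀) T₀, (ENNReal.ofReal (1 + κ) *
          (w u * ∫⁻ t : ℝ, ENNReal.ofReal (‖QQ g W (u - h) (u + h) t‖ ^ 2)) +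
          ENNReal.ofReal (4 * ((1 + 1 / κ) * E ^ 2 * Y))) :=
          setLIntegral_mono' measurableSet_Ioc hpt
      _ = ENNReal.ofReal (1 + κ) * (∫⁻ u in Set.Ioc (-T₀) T₀,
          (w u * ∫⁻ t : ℝ, ENNReal.ofReal (‖QQ g W (u - h) (u + h) t‖ ^ 2))) +
          ENNReal.ofReal (4 * ((1 + 1 / κ) * E ^ 2 * Y)) * ENNReal.ofReal (2 * T₀) := by
          rw [lintegral_add_right _ measurable_const, lintegral_const_mul' _ _ ENNReal.ofReal_ne_top,
            setLIntegral_const, Real.volume_Ioc]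
          congr 3
          ring
      _ ≤ ENNReal.ofReal (1 + κ) * ENNReal.ofReal (C₀ * ∫ s, ‖g s‖ ^ 2) +
          ENNReal.ofReal ((1 + 1 / κ) * (8 * T₀) * Y * E ^ 2) := by
          refine add_le_add ?_ ?_
          · gcongr
            exact (setLIntegral_le_lintegral _ _).trans hA
          · rw [← ENNReal.ofReal_mul (by positivity)]
            apply ENNReal.ofReal_le_ofReal
            apply le_of_eq
            ring
      _ = _ := by
          congr 1
          rw [g4, ← ENNReal.ofReal_mul (by positivity), ← mul_assoc,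
            ENNReal.ofReal_mul (by positivity)]
          congr 1
          rw [ofReal_integral_eq_lintegral_ofReal g2 (Filter.Eventually.of_forall fun s => by positivity)]
  -- Step 4
  have hFm : Measurable (fun s : ℝ => ENNReal.ofReal (‖f s‖ ^ 2)) :=
    ENNReal.measurable_ofReal.comp (hf.norm.pow_const 2)
  have hshift : ∫⁻ y in Set.Ioc 0 Y, ∫⁻ s in Set.Ioc 0 (y + R), ENNReal.ofReal (‖f s‖ ^ 2) ≤
      ∫⁻ z in Set.Ioc 0 Y', ∫⁻ s in Set.Ioc 0 z, ENNReal.ofReal (‖f s‖ ^ 2) := by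
    have e3 : ∫⁻ y in Set.Ioc 0 Y, ∫⁻ s in Set.Ioc 0 (y + R), ENNReal.ofReal (‖f s‖ ^ 2) =
        ∫⁻ z in Set.Ioc R (Y + R), ∫⁻ s in Set.Ioc 0 z, ENNReal.ofReal (‖f s‖ ^ 2) := by
      rw [← lintegral_indicator measurableSet_Ioc, ← lintegral_indicator measurableSet_Ioc]
      rw [← lintegral_add_right_eq_self (fun z => (Set.Ioc R (Y + R)).indicator
        (fun z => ∫⁻ s in Set.Ioc 0 z, ENNReal.ofReal (‖f s‖ ^ 2)) z) R]
      refine lintegral_congr fun y => ?_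
      by_cases hy : y ∈ Set.Ioc 0 Y
      · rw [Set.indicator_of_mem hy, Set.indicator_of_mem (show y + R ∈ Set.Ioc R (Y + R) from
          ⟨by linarith [hy.1], by linarith [hy.2]⟩)]
      · rw [Set.indicator_of_notMem hy, Set.indicator_of_notMem]
        intro hy2
        exact hy ⟨by linarith [hy2.1], by linarith [hy2.2]⟩
    rw [e3]
    refine lintegral_mono_set ?_
    intro z hz
    exact ⟨by linarith [hz.1], by linarith [hz.2]⟩
  have hJ : ∫⁻ z in Set.Ioc 0 Y', ∫⁻ s in Set.Ioc 0 z, ENNReal.ofReal (‖f s‖ ^ 2) =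
      ENNReal.ofReal (Y' * ∫ t in Set.Ioc 0 Y', (1 - t / Y') * ‖f t‖ ^ 2) := by
    have h5 := layer_cake _ hFm Y' hY'0
    have h6 : ∫⁻ t in Set.Ioc 0 Y', ENNReal.ofReal (1 - t / Y') * ENNReal.ofReal (‖f t‖ ^ 2) =
        ENNReal.ofReal (∫ t in Set.Ioc 0 Y', (1 - t / Y') * ‖f t‖ ^ 2) := by
      obtain ⟨_, g2, _, _⟩ := E6_int f hf hb Y'
      have hint : IntegrableOn (fun t => (1 - t / Y') * ‖f t‖ ^ 2) (Set.Ioc 0 Y') := by
        refine Integrable.mono' g2 ?_ ?_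
        · exact ((by fun_prop : Measurable fun t : ℝ => (1 - t / Y')).mul
            (hf.norm.pow_const 2)).aestronglyMeasurable
        · rw [ae_restrict_iff' measurableSet_Ioc]
          refine Filter.Eventually.of_forall fun t ht => ?_
          have h7 : 0 ≤ 1 - t / Y' := by
            rw [sub_nonneg, div_le_one hY'0]
            exact ht.2
          have h8 : 1 - t / Y' ≤ 1 := by
            have := ht.1
            have : 0 ≤ t / Y' := by positivity
            linarith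
          rw [Real.norm_of_nonneg (by positivity)]
          exact mul_le_of_le_one_left (by positivity) h8
      rw [ofReal_integral_eq_lintegral_ofReal hint]
      · refine setLIntegral_congr_fun measurableSet_Ioc fun t ht => ?_
        have h7 : 0 ≤ 1 - t / Y' := by
          rw [sub_nonneg, div_le_one hY'0]
          exact ht.2
        exact (ENNReal.ofReal_mul h7).symm
      · rw [Filter.EventuallyLE, ae_restrict_iff' measurableSet_Ioc]
        refine Filter.Eventually.of_forall fun t ht => ?_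
        have h7 : 0 ≤ 1 - t / Y' := by
          rw [sub_nonneg, div_le_one hY'0]
          exact ht.2
        simp only [Pi.zero_apply]
        positivity
    rw [h6] at h5
    have h9 : ENNReal.ofReal Y' * ENNReal.ofReal (1 / Y') = 1 := by
      rw [← ENNReal.ofReal_mul hY'0.le, mul_one_div_cancel hY'0.ne', ENNReal.ofReal_one]
    rw [ENNReal.ofReal_mul hY'0.le, h5, ← mul_assoc, h9, one_mul]
  set J : ℝ := ∫ t in Set.Ioc 0 Y', (1 - t / Y') * ‖f t‖ ^ 2 with hJdef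
  have hJ0 : 0 ≤ J := by
    rw [hJdef]
    refine setIntegral_nonneg measurableSet_Ioc fun t ht => ?_
    have h7 : 0 ≤ 1 - t / Y' := by
      rw [sub_nonneg, div_le_one hY'0]
      exact ht.2
    positivity
  have hchange : (∫⁻ u in Set.Ioc (-T₀) T₀, ENNReal.ofReal (1 / (1 / 4 + u ^ 2)) *
        ∫⁻ t in Set.Ioc 0 Y, ENNReal.ofReal (1 - t / Y) *
          ENNReal.ofReal (‖PP f W (u - h) (u + h) t‖ ^ 2)) =
      ∫⁻ u in Set.Ioc (-T₀) T₀, w u * ∫⁻ t in Set.Ioc 0 Y, ENNReal.ofReal (1 - t / Y) * P u t := by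
    refine lintegral_congr fun u => ?_
    rw [hw]
    congr 1
    refine lintegral_congr fun t => ?_
    rw [hP]
  rw [hchange, hL]
  calc ENNReal.ofReal (1 / Y) * ∫⁻ y in Set.Ioc 0 Y, ∫⁻ u in Set.Ioc (-T₀) T₀,
        w u * ∫⁻ t in Set.Ioc 0 y, P u t
      ≤ ENNReal.ofReal (1 / Y) * ∫⁻ y in Set.Ioc 0 Y,
        (ENNReal.ofReal ((1 + κ) * C₀) * (∫⁻ s in Set.Ioc 0 (y + R), ENNReal.ofReal (‖f s‖ ^ 2)) +
        ENNReal.ofReal ((1 + 1 / κ) * (8 * T₀) * Y * E ^ 2)) := by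
        exact mul_le_mul_right (setLIntegral_mono' measurableSet_Ioc hstep) _
    _ = ENNReal.ofReal (1 / Y) * (ENNReal.ofReal ((1 + κ) * C₀) * (∫⁻ y in Set.Ioc 0 Y,
        ∫⁻ s in Set.Ioc 0 (y + R), ENNReal.ofReal (‖f s‖ ^ 2)) +
        ENNReal.ofReal ((1 + 1 / κ) * (8 * T₀) * Y * E ^ 2) * ENNReal.ofReal Y) := by
        rw [lintegral_add_right _ measurable_const, lintegral_const_mul' _ _ ENNReal.ofReal_ne_top,
          setLIntegral_const, Real.volume_Ioc, sub_zero]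
    _ ≤ ENNReal.ofReal (1 / Y) * (ENNReal.ofReal ((1 + κ) * C₀) * ENNReal.ofReal (Y' * J) +
        ENNReal.ofReal ((1 + 1 / κ) * (8 * T₀) * Y * E ^ 2) * ENNReal.ofReal Y) := by
        gcongr
        exact hshift.trans hJ.le
    _ = _ := by
        have hYi : 0 ≤ 1 / Y := by positivity
        have ha : 0 ≤ (1 + κ) * C₀ := by positivity
        have hb2 : 0 ≤ (1 + 1 / κ) * (8 * T₀) * Y * E ^ 2 := by positivity
        rw [← ENNReal.ofReal_mul ha, ← ENNReal.ofReal_mul hb2, ← ENNReal.ofReal_add (by positivity)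
          (by positivity), ← ENNReal.ofReal_mul hYi]
        congr 1
        field_simp

end Pool.Agent.SK.E
end
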