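import Mathlib
import Pool.Agent.Lib.MP_9cfc0a_nt.SO.Defs2
import Pool.Agent.Lib.MP_9cfc0a_nt.SO.Moments
import Pool.Agent.Lib.MP_9cfc0a_nt.EMLfun
import Pool.Agent.Lib.MP_9cfc0a_nt.Mg.G004
import Pool.Agent.Lib.MP_9cfc0a_nt.Mg.G006
import Pool.Agent.Lib.MP_9cfc0a_nt.Mg.G002
import Pool.Agent.Lib.MP_9cfc0a_nt.Mg.G001
import Pool.Agent.Lib.MP_9cfc0a_nt.Mg.G005
import Pool.Agent.Lib.MP_9cfc0a_nt.Mg.G008

section

set_option autoImplicit false

namespace Pool.Agent.SO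

open Complex MeasureTheory

/-- Q1a. The mollified second moment at the points `1/2 + i t + w / log r` with `‖w‖ = R + 1`
(uses `moment_a` and `left_le`).

PROOF. `w = x + y I`, `L = log r`, `pz r t w = pt r x (t + y/L)`. Take `r₀` with
`log r₀ ≥ 4 (R + 1)` (and `≥` the `r₀` of `moment_a`). If `x ≥ 0`: `moment_a` with
`a = x ≤ R + 1 ≤ L/4`, `t := t + y/L`, `t₀ := t`: `|t + y/L| ≤ 2`, `L |y/L| ≤ R + 1`:
`≤ C e^((R+1+b)/4) 3^A (R+2)^A NN`. If `x < 0`: `‖L(pt r x τ)‖² ≤ C₂² e^(2|x|) (1+|τ|)^(2|x|/L)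
‖L(pt r |x| τ)‖²` (`left_le`), `(1+|τ|)^(2|x|/L) ≤ 3`, and the bound at `pt r |x| τ` as before;
`e^(2(R+1)) e^((R+1)/4) ≤ e^(9/4) e^(3R)`. -/
theorem mean_point : ∃ A : ℕ, ∀ b : ℝ, 0 ≤ b → ∃ C : ℝ, 0 ≤ C ∧ ∀ R : ℝ, 1 ≤ R → ∃ r₀ : ℕ, 2 ≤ r₀ ∧
    ∀ (r : ℕ) [NeZero r], r₀ ≤ r → ∀ t : ℝ, 0 ≤ t → t ≤ 1 → ∀ w : ℂ, ‖w‖ = R + 1 →
    ∑ χ ∈ prim r, ‖χ.LFunction (pz r t w) * MM r χ (pt r b t)‖ ^ 2 ≤
      C * Real.exp (3 * R) * (R + 2) ^ A * NN r := by
  obtain ⟨A, C₁, r₁, hC₁, h1⟩ := moment_a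
  obtain ⟨C₂, hC₂, h2⟩ := left_le
  have hC₁0 : 0 ≤ C₁ := le_trans zero_le_one hC₁
  have hC₂0 : 0 ≤ C₂ := le_trans zero_le_one hC₂
  refine ⟨A, fun b hb => ⟨9 * C₂ ^ 2 * C₁ * Real.exp (b / 4) * Real.exp (9 / 4) * 3 ^ A, by positivity,
    fun R hR => ?_⟩⟩
  obtain ⟨r₂, hr₂⟩ : ∃ r₂ : ℕ, ∀ r : ℕ, r₂ ≤ r → 4 * (R + 1) ≤ Real.log r := by
    have h3 := (Real.tendsto_log_atTop.comp tendsto_natCast_atTop_atTop).eventually_ge_atTop (4 * (R + 1))
    exact Filter.eventually_atTop.mp h3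
  refine ⟨max 2 (max r₁ r₂), le_max_left _ _, ?_⟩
  intro r _ hr t ht0 ht1 w hw
  have hr2 : 2 ≤ r := le_trans (le_max_left _ _) hr
  have hr1 : r₁ ≤ r := le_trans (le_trans (le_max_left _ _) (le_max_right _ _)) hr
  have hL : 4 * (R + 1) ≤ Real.log r := hr₂ r (le_trans (le_trans (le_max_right _ _) (le_max_right _ _)) hr)
  obtain ⟨L, hLdef⟩ : ∃ L, L = Real.log r := ⟨_, rfl⟩
  rw [← hLdef] at hL
  have hLpos : 0 < L := by linarith
  have hx : |w.re| ≤ R + 1 := hw ▸ Complex.abs_re_le_norm w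
  have hy : |w.im| ≤ R + 1 := hw ▸ Complex.abs_im_le_norm w
  obtain ⟨τ, hτdef⟩ : ∃ τ, τ = t + w.im / L := ⟨_, rfl⟩
  have hyL : |w.im / L| ≤ 1 / 4 := by
    rw [abs_div, abs_of_pos hLpos, div_le_iff₀ hLpos]
    linarith
  have hτ : |τ| ≤ 2 := by
    rw [hτdef]
    have := abs_add_le t (w.im / L)
    rw [abs_of_nonneg ht0] at this
    linarith
  have hpz : pz r t w = pt r w.re τ := by
    unfold pz pt
    rw [← hLdef, hτdef]
    have hLc : (L : ℂ) ≠ 0 := by exact_mod_cast hLpos.ne'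
    conv_lhs => rw [← Complex.re_add_im w]
    push_cast
    field_simp
    ring
  have hNN : 0 ≤ NN r := by unfold NN; positivity
  have hM := h1 r hr1 |w.re| b τ t (abs_nonneg _) hb
  have hB : C₁ * Real.exp ((|w.re| + b) / 4) * (1 + |τ|) ^ A * (1 + Real.log r * |τ - t|) ^ A * NN r ≤
      C₁ * (Real.exp (b / 4) * Real.exp ((R + 1) / 4)) * 3 ^ A * (R + 2) ^ A * NN r := by
    have e1 : Real.exp ((|w.re| + b) / 4) ≤ Real.exp (b / 4) * Real.exp ((R + 1) / 4) := by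
      rw [← Real.exp_add]
      apply Real.exp_le_exp.mpr
      linarith
    have e2 : (1 + |τ|) ^ A ≤ 3 ^ A := pow_le_pow_left₀ (by positivity) (by linarith) A
    have e3 : (1 + Real.log r * |τ - t|) ^ A ≤ (R + 2) ^ A := by
      have e4 : Real.log r * |τ - t| = |w.im| := by
        rw [hτdef, ← hLdef, add_sub_cancel_left, abs_div, abs_of_pos hLpos]
        field_simp
      rw [e4]
      exact pow_le_pow_left₀ (by positivity) (by linarith) A
    have e5 : 0 ≤ 1 + Real.log r * |τ - t| := by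
      rw [← hLdef]; positivity
    gcongr
  have hterm : ∀ χ ∈ prim r, ‖χ.LFunction (pz r t w) * MM r χ (pt r b t)‖ ^ 2 ≤
      9 * C₂ ^ 2 * Real.exp (2 * (R + 1)) * ‖χ.LFunction (pt r |w.re| τ) * MM r χ (pt r b t)‖ ^ 2 := by
    intro χ hχ
    have hprim : χ.IsPrimitive := by
      letI : DecidablePred fun χ : DirichletCharacter ℂ r => χ.IsPrimitive := Classical.decPred _
      unfold prim at hχ
      exact (Finset.mem_filter.mp hχ).2
    have key : ‖χ.LFunction (pz r t w)‖ ≤ 3 * C₂ * Real.exp (R + 1) * ‖χ.LFunction (pt r |w.re| τ)‖ := by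
      have hexp : 1 ≤ Real.exp (R + 1) := Real.one_le_exp (by linarith)
      rcases le_or_gt 0 w.re with h0 | h0
      · rw [hpz, abs_of_nonneg h0]
        have : 1 ≤ 3 * C₂ * Real.exp (R + 1) := by nlinarith
        exact le_mul_of_one_le_left (norm_nonneg _) this
      · have h3 := h2 r hr2 χ hprim |w.re| τ (abs_nonneg _) (by rw [← hLdef]; linarith)
        have h4 : -|w.re| = w.re := by rw [abs_of_neg h0, neg_neg]
        rw [h4] at h3
        rw [hpz]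
        refine h3.trans ?_
        have h5 : (1 + |τ|) ^ (|w.re| / Real.log r) ≤ 3 := by
          rw [← hLdef]
          have h6 : |w.re| / L ≤ 1 := by
            rw [div_le_one hLpos]; linarith
          calc (1 + |τ|) ^ (|w.re| / L) ≤ (1 + |τ|) ^ (1 : ℝ) :=
                Real.rpow_le_rpow_of_exponent_le (by linarith [abs_nonneg τ]) h6
            _ = 1 + |τ| := Real.rpow_one _
            _ ≤ 3 := by linarith
        have h7 : Real.exp |w.re| ≤ Real.exp (R + 1) := Real.exp_le_exp.mpr hx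
        have h8 : C₂ * Real.exp |w.re| * (1 + |τ|) ^ (|w.re| / Real.log r) ≤ C₂ * Real.exp (R + 1) * 3 := by
          gcongr
        calc C₂ * Real.exp |w.re| * (1 + |τ|) ^ (|w.re| / Real.log r) * ‖χ.LFunction (pt r |w.re| τ)‖
            ≤ C₂ * Real.exp (R + 1) * 3 * ‖χ.LFunction (pt r |w.re| τ)‖ := by gcongr
          _ = _ := by ring
    have hsq : Real.exp (2 * (R + 1)) = Real.exp (R + 1) ^ 2 := by
      rw [sq, ← Real.exp_add]; ring_nf
    rw [norm_mul, norm_mul, mul_pow, mul_pow, hsq]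
    calc ‖χ.LFunction (pz r t w)‖ ^ 2 * ‖MM r χ (pt r b t)‖ ^ 2
        ≤ (3 * C₂ * Real.exp (R + 1) * ‖χ.LFunction (pt r |w.re| τ)‖) ^ 2 * ‖MM r χ (pt r b t)‖ ^ 2 := by
          gcongr
      _ = _ := by ring
  calc ∑ χ ∈ prim r, ‖χ.LFunction (pz r t w) * MM r χ (pt r b t)‖ ^ 2
      ≤ ∑ χ ∈ prim r, 9 * C₂ ^ 2 * Real.exp (2 * (R + 1)) *
          ‖χ.LFunction (pt r |w.re| τ) * MM r χ (pt r b t)‖ ^ 2 := Finset.sum_le_sum hterm
    _ = 9 * C₂ ^ 2 * Real.exp (2 * (R + 1)) *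
          ∑ χ ∈ prim r, ‖χ.LFunction (pt r |w.re| τ) * MM r χ (pt r b t)‖ ^ 2 := by rw [Finset.mul_sum]
    _ ≤ 9 * C₂ ^ 2 * Real.exp (2 * (R + 1)) *
          (C₁ * (Real.exp (b / 4) * Real.exp ((R + 1) / 4)) * 3 ^ A * (R + 2) ^ A * NN r) := by
        have := hM.trans hB
        gcongr
    _ = 9 * C₂ ^ 2 * C₁ * Real.exp (b / 4) * (Real.exp (2 * (R + 1)) * Real.exp ((R + 1) / 4)) * 3 ^ A *
          (R + 2) ^ A * NN r := by ring
    _ ≤ 9 * C₂ ^ 2 * C₁ * Real.exp (b / 4) * (Real.exp (9 / 4) * Real.exp (3 * R)) * 3 ^ A *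
          (R + 2) ^ A * NN r := by
        have h9 : Real.exp (2 * (R + 1)) * Real.exp ((R + 1) / 4) ≤ Real.exp (9 / 4) * Real.exp (3 * R) := by
          rw [← Real.exp_add, ← Real.exp_add]
          apply Real.exp_le_exp.mpr
          linarith
        have hR2 : 0 ≤ R + 2 := by linarith
        gcongr
    _ = _ := by ring

end Pool.Agent.SO
end

section

set_option autoImplicit false

namespace Pool.Agent.SO

open Complex MeasureTheory

/-- Q1b. The same for the circle average (uses Q1a).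

PROOF. `∑_χ circleAverage = circleAverage ∑_χ` (finite sum; each function is continuous on the
circle: `Real.circleAverage_sum` or unfold `Real.circleAverage` and use `integral_finset_sum`),
and a circle average of a function `≤ B` on the circle is `≤ B`
(`Real.circleAverage_mono`, `Real.circleAverage_const`). -/
theorem mean_circle : ∃ A : ℕ, ∀ b : ℝ, 0 ≤ b → ∃ C : ℝ, 0 ≤ C ∧ ∀ R : ℝ, 1 ≤ R → ∃ r₀ : ℕ, 2 ≤ r₀ ∧
    ∀ (r : ℕ) [NeZero r], r₀ ≤ r → ∀ t : ℝ, 0 ≤ t → t ≤ 1 →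
    ∑ χ ∈ prim r, Real.circleAverage
      (fun w => ‖χ.LFunction (pz r t w) * MM r χ (pt r b t)‖ ^ 2) 0 (R + 1) ≤
      C * Real.exp (3 * R) * (R + 2) ^ A * NN r := by
  obtain ⟨A, hA⟩ := mean_point
  refine ⟨A, fun b hb => ?_⟩
  obtain ⟨C, hC, h1⟩ := hA b hb
  refine ⟨C, hC, fun R hR => ?_⟩
  obtain ⟨r₀, hr₀, h2⟩ := h1 R hR
  refine ⟨r₀, hr₀, ?_⟩
  intro r _ hr t ht0 ht1
  have hint : ∀ χ ∈ prim r, CircleIntegrable
      (fun w => ‖χ.LFunction (pz r t w) * MM r χ (pt r b t)‖ ^ 2) 0 (R + 1) := by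
    intro χ hχ
    have hprim : χ.IsPrimitive := by
      let : DecidablePred fun χ : DirichletCharacter ℂ r => χ.IsPrimitive := Classical.decPred _
      unfold prim at hχ
      exact (Finset.mem_filter.mp hχ).2
    have hne : χ ≠ 1 := by
      intro h3
      rw [h3, DirichletCharacter.isPrimitive_def, DirichletCharacter.conductor_one] at hprim
      omega
    have h3 : Continuous χ.LFunction := (χ.differentiable_LFunction hne).continuous
    have h4 : Continuous (fun w : ℂ => pz r t w) := by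
      unfold pz
      fun_prop
    have h5 : Continuous (fun w : ℂ => ‖χ.LFunction (pz r t w) * MM r χ (pt r b t)‖ ^ 2) :=
      (((h3.comp h4).mul continuous_const).norm).pow 2
    exact h5.continuousOn.circleIntegrable (by linarith)
  have h3 := Real.circleAverage_fun_sum (c := (0 : ℂ)) (R := R + 1) hint
  rw [← h3]
  apply Real.circleAverage_mono_on_of_le_circle
  · exact CircleIntegrable.fun_sum _ hint
  · intro w hw
    rw [mem_sphere_iff_norm, sub_zero, abs_of_nonneg (by linarith)] at hw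
    exact h2 r hr t ht0 ht1 w hw

end Pool.Agent.SO
end

section

set_option autoImplicit false

namespace Pool.Agent.SO

open Complex MeasureTheory

private theorem Q2a_markov {r : ℕ} [NeZero r] (S : Finset (DirichletCharacter ℂ r)) (hS : S ⊆ prim r)
    (f : DirichletCharacter ℂ r → ℝ) (hf : ∀ χ, 0 ≤ f χ) (K M : ℝ) (hK : 0 < K)
    (h : ∀ χ ∈ S, K ≤ f χ) (hM : ∑ χ ∈ prim r, f χ ≤ M) : (S.card : ℝ) * K ≤ M := by
  calc (S.card : ℝ) * K = ∑ χ ∈ S, K := by simp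
    _ ≤ ∑ χ ∈ S, f χ := Finset.sum_le_sum h
    _ ≤ ∑ χ ∈ prim r, f χ := Finset.sum_le_sum_of_subset_of_nonneg hS (fun χ _ _ => hf χ)
    _ ≤ M := hM

private theorem Q2a_NN (r : ℕ) [NeZero r] : 0 ≤ NN r := by unfold NN; positivity

/-- Q2a (Markov with Q1b). PROOF. The number of `χ` with average `> exp (7R)` is at most
`exp (-7R) ∑ ≤ C exp (-4R) (R+2)^A NN r`, and `C exp (-4R) (R+2)^A ≤ ε` for `R ≥ R₁(b, ε)`. -/
theorem bad_a (b ε : ℝ) (hb : 0 ≤ b) (hε : 0 < ε) : ∃ R₁ : ℝ, 1 ≤ R₁ ∧ ∀ R : ℝ, R₁ ≤ R →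
    ∃ r₀ : ℕ, 2 ≤ r₀ ∧ ∀ (r : ℕ) [NeZero r], r₀ ≤ r → ∀ t : ℝ, 0 ≤ t → t ≤ 1 →
    ∀ S : Finset (DirichletCharacter ℂ r), S ⊆ prim r →
    (∀ χ ∈ S, Real.exp (7 * R) < Real.circleAverage
      (fun w => ‖χ.LFunction (pz r t w) * MM r χ (pt r b t)‖ ^ 2) 0 (R + 1)) →
    (S.card : ℝ) ≤ ε * NN r := by
  obtain ⟨A, hA⟩ := mean_circle
  obtain ⟨C, hC, h1⟩ := hA b hb
  have hlim : Filter.Tendsto (fun R : ℝ => C * Real.exp 2 * ((R + 2) ^ A * Real.exp (-(R + 2)))) Filter.atTop (nhds 0) := by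
    have h2 := (Real.tendsto_pow_mul_exp_neg_atTop_nhds_zero A).comp
      (Filter.tendsto_atTop_add_const_right Filter.atTop (2 : ℝ) Filter.tendsto_id)
    have h3 := h2.const_mul (C * Real.exp 2)
    rw [mul_zero] at h3
    exact h3
  obtain ⟨R₀, hR₀⟩ := Filter.eventually_atTop.mp (hlim.eventually (gt_mem_nhds hε))
  refine ⟨max 1 R₀, le_max_left _ _, fun R hR => ?_⟩
  have hR1 : 1 ≤ R := le_trans (le_max_left _ _) hR
  have hRe := hR₀ R (le_trans (le_max_right _ _) hR)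
  obtain ⟨r₀, hr₀, h2⟩ := h1 R hR1
  refine ⟨r₀, hr₀, ?_⟩
  intro r _ hr t ht0 ht1 S hS hbad
  have h3 := Q2a_markov S hS _ (fun χ => Real.circleAverage_nonneg_of_nonneg fun x _ => by positivity)
    (Real.exp (7 * R)) _ (Real.exp_pos _) (fun χ hχ => (hbad χ hχ).le) (h2 r hr t ht0 ht1)
  have hN := Q2a_NN r
  have h4 : (S.card : ℝ) ≤ C * Real.exp (3 * R) * (R + 2) ^ A * NN r * Real.exp (-(7 * R)) := by
    have h5 := mul_le_mul_of_nonneg_right h3 (Real.exp_pos (-(7 * R))).le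
    rw [mul_assoc, ← Real.exp_add, add_neg_cancel, Real.exp_zero, mul_one] at h5
    exact h5
  refine h4.trans ?_
  have h6 : C * Real.exp (3 * R) * (R + 2) ^ A * Real.exp (-(7 * R)) ≤ ε := by
    have h7 : Real.exp (3 * R) * Real.exp (-(7 * R)) ≤ Real.exp 2 * Real.exp (-(R + 2)) := by
      rw [← Real.exp_add, ← Real.exp_add]
      apply Real.exp_le_exp.mpr
      linarith
    have hR2 : 0 ≤ R + 2 := by linarith
    calc C * Real.exp (3 * R) * (R + 2) ^ A * Real.exp (-(7 * R))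
        = C * (R + 2) ^ A * (Real.exp (3 * R) * Real.exp (-(7 * R))) := by ring
      _ ≤ C * (R + 2) ^ A * (Real.exp 2 * Real.exp (-(R + 2))) := by gcongr
      _ = C * Real.exp 2 * ((R + 2) ^ A * Real.exp (-(R + 2))) := by ring
      _ ≤ ε := hRe.le
  calc C * Real.exp (3 * R) * (R + 2) ^ A * NN r * Real.exp (-(7 * R))
      = C * Real.exp (3 * R) * (R + 2) ^ A * Real.exp (-(7 * R)) * NN r := by ring
    _ ≤ ε * NN r := by gcongr

/-- Q2b (Markov with `moment_b`). PROOF. `#S / 4 ≤ ∑ ‖LM - 1‖² ≤ C exp (-b/8) 2^A NN r` for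
`r` with `b ≤ log r / 4`; choose `b₀` with `4 C exp (-b₀/8) 2^A ≤ ε`. -/
theorem bad_b (ε : ℝ) (hε : 0 < ε) : ∃ b₀ : ℝ, 1 ≤ b₀ ∧ ∀ b : ℝ, b₀ ≤ b →
    ∃ r₀ : ℕ, 2 ≤ r₀ ∧ ∀ (r : ℕ) [NeZero r], r₀ ≤ r → ∀ t : ℝ, 0 ≤ t → t ≤ 1 →
    ∀ S : Finset (DirichletCharacter ℂ r), S ⊆ prim r →
    (∀ χ ∈ S, 1 / 2 < ‖χ.LFunction (pt r b t) * MM r χ (pt r b t) - 1‖) →
    (S.card : ℝ) ≤ ε * NN r := by
  obtain ⟨A, C, r₀, hC, h1⟩ := moment_b
  have hC0 : 0 ≤ C := le_trans zero_le_one hC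
  have hlim : Filter.Tendsto (fun b : ℝ => 4 * C * 2 ^ A * Real.exp (-(b / 8))) Filter.atTop (nhds 0) := by
    have h2 := Real.tendsto_exp_neg_atTop_nhds_zero.comp
      (Filter.Tendsto.atTop_div_const (show (0 : ℝ) < 8 by norm_num) Filter.tendsto_id)
    have h3 := h2.const_mul (4 * C * 2 ^ A)
    rw [mul_zero] at h3
    exact h3
  obtain ⟨b₁, hb₁⟩ := Filter.eventually_atTop.mp (hlim.eventually (gt_mem_nhds hε))
  refine ⟨max 1 b₁, le_max_left _ _, fun b hb => ⟨max 2 r₀, le_max_left _ _, ?_⟩⟩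
  intro r _ hr t ht0 ht1 S hS hbad
  have hb1 : 1 ≤ b := le_trans (le_max_left _ _) hb
  have hbe := hb₁ b (le_trans (le_max_right _ _) hb)
  have hN := Q2a_NN r
  have h2 := h1 r (le_trans (le_max_right _ _) hr) b t (by linarith)
  have h3 := Q2a_markov S hS _ (fun χ => by positivity) (1 / 4) _ (by norm_num)
    (fun χ hχ => by
      have := hbad χ hχ
      nlinarith [this]) h2
  have h4 : (1 + |t|) ^ A ≤ 2 ^ A := pow_le_pow_left₀ (by positivity) (by rw [abs_of_nonneg ht0]; linarith) A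
  have h5 : C * Real.exp (-(b / 8)) * (1 + |t|) ^ A * NN r ≤ C * Real.exp (-(b / 8)) * 2 ^ A * NN r := by
    gcongr
  have h6 : 4 * C * 2 ^ A * Real.exp (-(b / 8)) * NN r ≤ ε * NN r := by
    have := hbe.le
    gcongr
  nlinarith [h3, h5, h6]

/-- Q2c (Markov with `moment_c`). PROOF. `#S (log r)²/256 ≤ ∑ ‖L' M‖² ≤ C (log r / b)² 2^A NN r`;
choose `b₀ ≥ 1` with `256 C 2^A / b₀² ≤ ε`. -/
theorem bad_c (ε : ℝ) (hε : 0 < ε) : ∃ b₀ : ℝ, 1 ≤ b₀ ∧ ∀ b : ℝ, b₀ ≤ b →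
    ∃ r₀ : ℕ, 2 ≤ r₀ ∧ ∀ (r : ℕ) [NeZero r], r₀ ≤ r → ∀ t : ℝ, 0 ≤ t → t ≤ 1 →
    ∀ S : Finset (DirichletCharacter ℂ r), S ⊆ prim r →
    (∀ χ ∈ S, Real.log r / 16 < ‖deriv χ.LFunction (pt r b t) * MM r χ (pt r b t)‖) →
    (S.card : ℝ) ≤ ε * NN r := by
  obtain ⟨A, C, r₀, hC, h1⟩ := moment_c
  have hC0 : 0 ≤ C := le_trans zero_le_one hC
  refine ⟨max 1 (256 * C * 2 ^ A / ε), le_max_left _ _, fun b hb => ?_⟩
  have hb1 : 1 ≤ b := le_trans (le_max_left _ _) hb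
  have hbe := le_trans (le_max_right _ _) hb
  obtain ⟨r₂, hr₂⟩ : ∃ r₂ : ℕ, ∀ r : ℕ, r₂ ≤ r → 4 * b ≤ Real.log r := by
    have h3 := (Real.tendsto_log_atTop.comp tendsto_natCast_atTop_atTop).eventually_ge_atTop (4 * b)
    exact Filter.eventually_atTop.mp h3
  refine ⟨max 2 (max r₀ r₂), le_max_left _ _, ?_⟩
  intro r _ hr t ht0 ht1 S hS hbad
  have hN := Q2a_NN r
  have hr0 : r₀ ≤ r := le_trans (le_trans (le_max_left _ _) (le_max_right _ _)) hr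
  have hL := hr₂ r (le_trans (le_trans (le_max_right _ _) (le_max_right _ _)) hr)
  have hLpos : 0 < Real.log r := by linarith
  have h2 := h1 r hr0 b t hb1 (by linarith)
  have h3 := Q2a_markov S hS _ (fun χ => by positivity) ((Real.log r / 16) ^ 2) _ (by positivity)
    (fun χ hχ => pow_le_pow_left₀ (by positivity) (hbad χ hχ).le 2) h2
  have h4 : (1 + |t|) ^ A ≤ 2 ^ A := pow_le_pow_left₀ (by positivity) (by rw [abs_of_nonneg ht0]; linarith) A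
  have h5 : C * Real.log r ^ 2 / b ^ 2 * (1 + |t|) ^ A * NN r ≤ C * Real.log r ^ 2 / b ^ 2 * 2 ^ A * NN r := by
    gcongr
  have h6 : (S.card : ℝ) * (Real.log r / 16) ^ 2 ≤ (256 * C * 2 ^ A / b ^ 2 * NN r) * (Real.log r / 16) ^ 2 := by
    refine (h3.trans h5).trans (le_of_eq ?_)
    ring
  have h7 : (S.card : ℝ) ≤ 256 * C * 2 ^ A / b ^ 2 * NN r := le_of_mul_le_mul_right h6 (by positivity)
  refine h7.trans ?_
  have h8 : 256 * C * 2 ^ A / b ^ 2 ≤ ε := by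
    rw [div_le_iff₀ (by positivity)]
    rw [div_le_iff₀ hε] at hbe
    nlinarith [mul_pos hε (by linarith : (0:ℝ) < b)]
  gcongr

end Pool.Agent.SO
end

section

set_option autoImplicit false

namespace Pool.Agent.SO

open Complex MeasureTheory

private theorem Q2d_integrable (L t : ℝ) (hL : 0 < L) :
    Integrable (fun u : ℝ => L * (1 + (L * (u - t)) ^ 2)⁻¹) := by
  have h1 : Integrable (fun x : ℝ => (1 + x ^ 2)⁻¹) := integrable_inv_one_add_sq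
  have h2 : Integrable (fun x : ℝ => (1 + (L * x) ^ 2)⁻¹) := h1.comp_mul_left' hL.ne'
  exact (h2.comp_sub_right t).const_mul L

private theorem Q2d_integral (L t : ℝ) (hL : 0 < L) :
    ∫ u : ℝ, L * (1 + (L * (u - t)) ^ 2)⁻¹ = Real.pi := by
  rw [integral_const_mul, integral_sub_right_eq_self (fun x : ℝ => (1 + (L * x) ^ 2)⁻¹) t,
    Measure.integral_comp_mul_left (fun x : ℝ => (1 + x ^ 2)⁻¹) L, integral_univ_inv_one_add_sq,
    abs_of_pos (inv_pos.mpr hL), smul_eq_mul, ← mul_assoc, mul_inv_cancel₀ hL.ne', one_mul]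

private theorem Q2d_pw (x Y L : ℝ) (A : ℕ) (hx : 0 ≤ x) (hY : 0 ≤ Y) (hYx : Y ≤ 2 * (1 + x)) (hL : 0 ≤ L) :
    Y ^ A * (1 + x) ^ A * (L / (1 + x) ^ (2 * A + 6)) ≤ 2 ^ A * (L * (1 + x ^ 2)⁻¹) := by
  have h1 : Y ^ A ≤ (2 * (1 + x)) ^ A := pow_le_pow_left₀ hY hYx A
  have h2 : 1 + x ^ 2 ≤ (1 + x) ^ 6 := by
    have h3 : (1 + x) ^ 2 ≤ (1 + x) ^ 6 := pow_le_pow_right₀ (by linarith) (by norm_num)
    nlinarith
  have h3 : (0 : ℝ) < 1 + x := by linarith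
  calc Y ^ A * (1 + x) ^ A * (L / (1 + x) ^ (2 * A + 6))
      ≤ (2 * (1 + x)) ^ A * (1 + x) ^ A * (L / (1 + x) ^ (2 * A + 6)) := by gcongr
    _ = 2 ^ A * (L * ((1 + x) ^ 6)⁻¹) := by
        rw [mul_pow, show 2 * A + 6 = A + A + 6 by ring, pow_add, pow_add]
        field_simp
    _ ≤ 2 ^ A * (L * (1 + x ^ 2)⁻¹) := by
        have h4 : ((1 + x) ^ 6)⁻¹ ≤ (1 + x ^ 2)⁻¹ := inv_anti₀ (by positivity) h2
        gcongr

/-- Q2d (Markov with `moment_a` at `a = 0`).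

PROOF. Let `A, C` be from `moment_a` and `m = 2 A + 6`. With `L = log r ≥ 1`, `0 ≤ t ≤ 1`:
`1 + |t'| ≤ 2 + |t' - t| ≤ 2 (1 + L|t'-t|)`. Sum under the integral
(`integral_finset_sum`; each integrand is continuous and integrable: `L_growth` gives linear growth,
`m ≥ 6`):
`∑_χ ∫ ‖L(pt 0 t') MM(pt b t)‖² kw r m t t' dt' = ∫ (∑_χ ...) kw
 ≤ ∫ C e^(b/4) (1+|t'|)^A (1+L|t'-t|)^A NN L/(1+L|t'-t|)^(2A+6) dt'
 ≤ C e^(b/4) 2^A NN ∫ L/(1+L|t'-t|)^4 dt' ≤ C e^(b/4) 2^A NN` (the last integral is `2/3`). Markov: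
`#S K ≤ C' NN`; take `K = C'/ε + 1`. -/
theorem bad_d : ∃ m : ℕ, 6 ≤ m ∧ ∀ b ε : ℝ, 0 ≤ b → 0 < ε → ∃ K : ℝ, 0 ≤ K ∧
    ∃ r₀ : ℕ, 2 ≤ r₀ ∧ ∀ (r : ℕ) [NeZero r], r₀ ≤ r → ∀ t : ℝ, 0 ≤ t → t ≤ 1 →
    ∀ S : Finset (DirichletCharacter ℂ r), S ⊆ prim r →
    (∀ χ ∈ S, K < ∫ t' : ℝ, ‖χ.LFunction (pt r 0 t') * MM r χ (pt r b t)‖ ^ 2 * kw r m t t') →
    (S.card : ℝ) ≤ ε * NN r := by
  obtain ⟨A, C, r₁, hC, h1⟩ := moment_a
  have hC0 : 0 < C := lt_of_lt_of_le zero_lt_one hC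
  refine ⟨2 * A + 6, by omega, fun b ε hb hε => ?_⟩
  obtain ⟨D, hD⟩ : ∃ D, D = C * Real.exp (b / 4) * 2 ^ A := ⟨_, rfl⟩
  have hDpos : 0 < D := by rw [hD]; positivity
  refine ⟨D * Real.pi / ε, by positivity, max 3 r₁, le_trans (by norm_num) (le_max_left _ _), ?_⟩
  intro r _ hr t ht0 ht1 S hS hbad
  have hr3 : 3 ≤ r := le_trans (le_max_left _ _) hr
  have hr1 : r₁ ≤ r := le_trans (le_max_right _ _) hr
  obtain ⟨L, hLdef⟩ : ∃ L, L = Real.log r := ⟨_, rfl⟩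
  have hL1 : 1 ≤ L := by
    rw [hLdef, Real.le_log_iff_exp_le (by positivity)]
    have h3 : (3 : ℝ) ≤ r := by exact_mod_cast hr3
    linarith [Real.exp_one_lt_d9]
  have hLpos : 0 < L := by linarith
  have hNN : 0 ≤ NN r := by unfold NN; positivity
  obtain ⟨f, hf⟩ : ∃ f : DirichletCharacter ℂ r → ℝ → ℝ, ∀ χ t', f χ t' =
      ‖χ.LFunction (pt r 0 t') * MM r χ (pt r b t)‖ ^ 2 * kw r (2 * A + 6) t t' := ⟨_, fun _ _ => rfl⟩
  have hkw : ∀ t', kw r (2 * A + 6) t t' = L / (1 + L * |t' - t|) ^ (2 * A + 6) := fun t' => by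
    unfold kw; rw [hLdef]
  have hkw0 : ∀ t', 0 ≤ kw r (2 * A + 6) t t' := fun t' => by rw [hkw]; positivity
  have hf0 : ∀ χ t', 0 ≤ f χ t' := fun χ t' => by
    rw [hf]; exact mul_nonneg (by positivity) (hkw0 t')
  have hsum : ∀ t', ∑ χ ∈ prim r, f χ t' ≤ D * NN r * (L * (1 + (L * (t' - t)) ^ 2)⁻¹) := by
    intro t'
    have h2 := h1 r hr1 0 b t' t le_rfl hb
    rw [zero_add, ← hLdef] at h2
    have h3 : 1 + |t'| ≤ 2 * (1 + L * |t' - t|) := by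
      have h4 : |t'| ≤ |t' - t| + |t| := by
        have := abs_add_le (t' - t) t
        rwa [sub_add_cancel] at this
      have h5 : |t| ≤ 1 := by rw [abs_of_nonneg ht0]; exact ht1
      have h6 : |t' - t| ≤ L * |t' - t| := le_mul_of_one_le_left (abs_nonneg _) hL1
      have h7 : 0 ≤ L * |t' - t| := by positivity
      linarith
    have h4 := Q2d_pw (L * |t' - t|) (1 + |t'|) L A (by positivity) (by positivity) h3 hLpos.le
    have h5 : (L * |t' - t|) ^ 2 = (L * (t' - t)) ^ 2 := by rw [mul_pow, mul_pow, sq_abs]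
    rw [h5] at h4
    calc ∑ χ ∈ prim r, f χ t' = (∑ χ ∈ prim r, ‖χ.LFunction (pt r 0 t') * MM r χ (pt r b t)‖ ^ 2) *
          kw r (2 * A + 6) t t' := by
          rw [Finset.sum_mul]; exact Finset.sum_congr rfl fun χ _ => hf χ t'
      _ ≤ (C * Real.exp (b / 4) * (1 + |t'|) ^ A * (1 + L * |t' - t|) ^ A * NN r) *
          kw r (2 * A + 6) t t' := mul_le_mul_of_nonneg_right h2 (hkw0 t')
      _ = C * Real.exp (b / 4) * NN r * ((1 + |t'|) ^ A * (1 + L * |t' - t|) ^ A *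
          (L / (1 + L * |t' - t|) ^ (2 * A + 6))) := by rw [hkw]; ring
      _ ≤ C * Real.exp (b / 4) * NN r * (2 ^ A * (L * (1 + (L * (t' - t)) ^ 2)⁻¹)) := by gcongr
      _ = D * NN r * (L * (1 + (L * (t' - t)) ^ 2)⁻¹) := by rw [hD]; ring
  have hgint : Integrable (fun t' : ℝ => D * NN r * (L * (1 + (L * (t' - t)) ^ 2)⁻¹)) :=
    (Q2d_integrable L t hLpos).const_mul _
  have hfc : ∀ χ, Continuous (f χ) := by
    intro χ
    have h2 : Continuous (fun t' : ℝ => χ.LFunction (pt r 0 t')) := by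
      rw [continuous_iff_continuousAt]
      intro t'
      have h3 : pt r 0 t' ≠ 1 := by
        intro h4
        have h5 := congrArg Complex.re h4
        simp [pt] at h5
      have h4 : ContinuousAt χ.LFunction (pt r 0 t') :=
        (χ.differentiableAt_LFunction (pt r 0 t') (Or.inl h3)).continuousAt
      have h5 : Continuous (fun t' : ℝ => pt r 0 t') := by
        unfold pt
        fun_prop
      exact ContinuousAt.comp' (f := fun t' : ℝ => pt r 0 t') h4 h5.continuousAt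
    have h3 : Continuous (fun t' : ℝ => kw r (2 * A + 6) t t') := by
      simp only [hkw]
      refine Continuous.div continuous_const (by fun_prop) fun t' => ?_
      positivity
    have h4 : f χ = fun t' => ‖χ.LFunction (pt r 0 t') * MM r χ (pt r b t)‖ ^ 2 * kw r (2 * A + 6) t t' :=
      funext (hf χ)
    rw [h4]
    exact (((h2.mul continuous_const).norm).pow 2).mul h3
  have hfint : ∀ χ ∈ prim r, Integrable (f χ) := by
    intro χ hχ
    refine hgint.mono' (hfc χ).aestronglyMeasurable (Filter.Eventually.of_forall fun t' => ?_)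
    rw [Real.norm_eq_abs, abs_of_nonneg (hf0 χ t')]
    exact (Finset.single_le_sum (fun ψ _ => hf0 ψ t') hχ).trans (hsum t')
  have htot : ∑ χ ∈ prim r, ∫ t' : ℝ, f χ t' ≤ D * NN r * Real.pi := by
    rw [← integral_finsetSum _ hfint]
    calc ∫ t' : ℝ, ∑ χ ∈ prim r, f χ t' ≤ ∫ t' : ℝ, D * NN r * (L * (1 + (L * (t' - t)) ^ 2)⁻¹) :=
          integral_mono (integrable_finsetSum _ hfint) hgint hsum
      _ = D * NN r * Real.pi := by rw [integral_const_mul, Q2d_integral L t hLpos]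
  have hfin : (S.card : ℝ) * (D * Real.pi / ε) ≤ D * NN r * Real.pi := by
    calc (S.card : ℝ) * (D * Real.pi / ε) = ∑ χ ∈ S, D * Real.pi / ε := by simp
      _ ≤ ∑ χ ∈ S, ∫ t' : ℝ, f χ t' := Finset.sum_le_sum fun χ hχ => by
          have h2 := (hbad χ hχ).le
          simp only [hf]
          exact h2
      _ ≤ ∑ χ ∈ prim r, ∫ t' : ℝ, f χ t' :=
          Finset.sum_le_sum_of_subset_of_nonneg hS fun χ _ _ => integral_nonneg (hf0 χ)
      _ ≤ _ := htot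
  have hDp : 0 < D * Real.pi / ε := by positivity
  refine le_of_mul_le_mul_right ?_ hDp
  refine hfin.trans (le_of_eq ?_)
  field_simp

end Pool.Agent.SO
end

section

set_option autoImplicit false

namespace Pool.Agent.SO

open Complex MeasureTheory

/-- Q3a (uses Q2a-Q2d). PROOF. `m` from `bad_d`. Given `ε`: `b = max` of the `b₀` of `bad_b (ε/4)`
and `bad_c (ε/4)`; `R₁` from `bad_a b (ε/4)`; for `R ≥ R₁`, `K` from `bad_d b (ε/4)`, `r₀` the maximum.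
A `χ ∈ S` which is not good fails one of the four conditions (`good` unfolded, `not_and_or`,
`not_le`), so `S` is the union of four subsets (filters), each of cardinality
`≤ (ε/4) NN r`. -/
theorem few_bad : ∃ m : ℕ, 6 ≤ m ∧ ∀ ε : ℝ, 0 < ε → ∃ b : ℝ, 1 ≤ b ∧ ∃ R₁ : ℝ, 1 ≤ R₁ ∧
    ∀ R : ℝ, R₁ ≤ R → ∃ K : ℝ, 0 ≤ K ∧ ∃ r₀ : ℕ, 2 ≤ r₀ ∧ ∀ (r : ℕ) [NeZero r], r₀ ≤ r →
    ∀ t : ℝ, 0 ≤ t → t ≤ 1 → ∀ S : Finset (DirichletCharacter ℂ r), S ⊆ prim r →
    (∀ χ ∈ S, ¬ good r b R K m χ t) → (S.card : ℝ) ≤ ε * NN r := by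
  classical
  obtain ⟨m, hm, hd⟩ := bad_d
  refine ⟨m, hm, fun ε hε => ?_⟩
  have hε4 : 0 < ε / 4 := by linarith
  obtain ⟨b1, hb1, hB⟩ := bad_b (ε / 4) hε4
  obtain ⟨b2, hb2, hC⟩ := bad_c (ε / 4) hε4
  have hb0 : 0 ≤ max b1 b2 := by linarith [le_max_left b1 b2]
  obtain ⟨R₁, hR₁, hA⟩ := bad_a (max b1 b2) (ε / 4) hb0 hε4
  refine ⟨max b1 b2, le_max_of_le_left hb1, R₁, hR₁, fun R hR => ?_⟩
  obtain ⟨K, hK, r3, hr3, hD⟩ := hd (max b1 b2) (ε / 4) hb0 hε4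
  obtain ⟨r0, hr0, hA'⟩ := hA R hR
  obtain ⟨r1, hr1, hB'⟩ := hB _ (le_max_left b1 b2)
  obtain ⟨r2, hr2, hC'⟩ := hC _ (le_max_right b1 b2)
  refine ⟨K, hK, max (max r0 r1) (max r2 r3), le_max_of_le_left (le_max_of_le_left hr0),
    fun r _ hr t ht0 ht1 S hS hbad => ?_⟩
  have q0 : r0 ≤ r := le_trans (le_trans (le_max_left _ _) (le_max_left _ _)) hr
  have q1 : r1 ≤ r := le_trans (le_trans (le_max_right _ _) (le_max_left _ _)) hr
  have q2 : r2 ≤ r := le_trans (le_trans (le_max_left _ _) (le_max_right _ _)) hr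
  have q3 : r3 ≤ r := le_trans (le_trans (le_max_right _ _) (le_max_right _ _)) hr
  set b := max b1 b2 with hbdef
  let Sa := S.filter (fun χ => Real.exp (7 * R) < Real.circleAverage
      (fun w => ‖χ.LFunction (pz r t w) * MM r χ (pt r b t)‖ ^ 2) 0 (R + 1))
  let Sb := S.filter (fun χ => 1 / 2 < ‖χ.LFunction (pt r b t) * MM r χ (pt r b t) - 1‖)
  let Sc := S.filter (fun χ => Real.log r / 16 <
      ‖deriv χ.LFunction (pt r b t) * MM r χ (pt r b t)‖)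
  let Sd := S.filter (fun χ => K < ∫ t' : ℝ,
      ‖χ.LFunction (pt r 0 t') * MM r χ (pt r b t)‖ ^ 2 * kw r m t t')
  have ca := hA' r q0 t ht0 ht1 Sa ((Finset.filter_subset _ _).trans hS)
    (fun χ hχ => (Finset.mem_filter.1 hχ).2)
  have cb := hB' r q1 t ht0 ht1 Sb ((Finset.filter_subset _ _).trans hS)
    (fun χ hχ => (Finset.mem_filter.1 hχ).2)
  have cc := hC' r q2 t ht0 ht1 Sc ((Finset.filter_subset _ _).trans hS)
    (fun χ hχ => (Finset.mem_filter.1 hχ).2)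
  have cd := hD r q3 t ht0 ht1 Sd ((Finset.filter_subset _ _).trans hS)
    (fun χ hχ => (Finset.mem_filter.1 hχ).2)
  have hsub : S ⊆ (Sa ∪ Sb) ∪ (Sc ∪ Sd) := by
    intro χ hχ
    have h1 := hbad χ hχ
    unfold good at h1
    rw [not_and_or, not_and_or, not_and_or, not_le, not_le, not_le, not_le] at h1
    rcases h1 with h1 | h1 | h1 | h1
    · exact Finset.mem_union_left _ (Finset.mem_union_left _ (Finset.mem_filter.2 ⟨hχ, h1⟩))
    · exact Finset.mem_union_left _ (Finset.mem_union_right _ (Finset.mem_filter.2 ⟨hχ, h1⟩))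
    · exact Finset.mem_union_right _ (Finset.mem_union_left _ (Finset.mem_filter.2 ⟨hχ, h1⟩))
    · exact Finset.mem_union_right _ (Finset.mem_union_right _ (Finset.mem_filter.2 ⟨hχ, h1⟩))
  have hcard : (S.card : ℝ) ≤ Sa.card + Sb.card + (Sc.card + Sd.card) := by
    have h1 := Finset.card_le_card hsub
    have h2 := Finset.card_union_le (Sa ∪ Sb) (Sc ∪ Sd)
    have h3 := Finset.card_union_le Sa Sb
    have h4 := Finset.card_union_le Sc Sd
    have h5 : S.card ≤ Sa.card + Sb.card + (Sc.card + Sd.card) := by omega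
    exact_mod_cast h5
  linarith

end Pool.Agent.SO
end

section

set_option autoImplicit false

namespace Pool.Agent.SO

open Complex MeasureTheory Pool.Agent.MC.C2

lemma S5b_poly (r N : ℕ) (c : ℕ → ℂ) :
    Continuous (fun t' : ℝ => ∑ k ∈ Finset.Icc 1 N, c k * (k : ℂ) ^ (-(pt r 0 t'))) ∧
    ∀ t' : ℝ, ‖∑ k ∈ Finset.Icc 1 N, c k * (k : ℂ) ^ (-(pt r 0 t'))‖ ≤ ∑ k ∈ Finset.Icc 1 N, ‖c k‖ := by
  constructor
  · refine continuous_finsetSum _ fun n hn => ?_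
    have hn0 : (n : ℂ) ≠ 0 := by
      have := (Finset.mem_Icc.mp hn).1
      exact_mod_cast (by omega : n ≠ 0)
    refine Continuous.mul continuous_const ?_
    refine Continuous.const_cpow ?_ (Or.inl hn0)
    unfold pt
    fun_prop
  · intro t'
    refine (norm_sum_le _ _).trans (Finset.sum_le_sum fun n hn => ?_)
    have hn1 := (Finset.mem_Icc.mp hn).1
    rw [norm_mul]
    have h2 : ‖(n : ℂ) ^ (-(pt r 0 t'))‖ ≤ 1 := by
      rw [Complex.norm_natCast_cpow_of_pos hn1]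
      apply Real.rpow_le_one_of_one_le_of_nonpos (by exact_mod_cast hn1)
      rw [Complex.neg_re]
      have : (pt r 0 t').re = 1 / 2 := by
        unfold pt; simp
      rw [this]; norm_num
    calc ‖c n‖ * ‖(n : ℂ) ^ (-(pt r 0 t'))‖ ≤ ‖c n‖ * 1 := by gcongr
      _ = ‖c n‖ := mul_one _

lemma S5b_W (L t : ℝ) (hL : 0 < L) : Integrable (fun t' : ℝ => L * (1 + (L * (t' - t)) ^ 2)⁻¹) ∧
    ∫ t' : ℝ, L * (1 + (L * (t' - t)) ^ 2)⁻¹ = Real.pi := by
  have h0 : Integrable (fun x : ℝ => (1 + x ^ 2)⁻¹) := integrable_inv_one_add_sq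
  have h1 : Integrable (fun x : ℝ => (1 + (L * x) ^ 2)⁻¹) := h0.comp_mul_left' hL.ne'
  have h2 : Integrable (fun x : ℝ => (1 + (L * (x - t)) ^ 2)⁻¹) := h1.comp_sub_right t
  refine ⟨h2.const_mul L, ?_⟩
  rw [integral_const_mul, integral_sub_right_eq_self (fun x : ℝ => (1 + (L * x) ^ 2)⁻¹) t,
    Measure.integral_comp_mul_left (fun x : ℝ => (1 + x ^ 2)⁻¹) L, integral_univ_inv_one_add_sq,
    smul_eq_mul, abs_of_pos (inv_pos.mpr hL), ← mul_assoc, mul_inv_cancel₀ hL.ne', one_mul]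

lemma S5b_W_ge (L t t' : ℝ) (hL : 0 < L) (n : ℕ) (hn : 2 ≤ n) :
    L / (1 + L * |t' - t|) ^ n ≤ L * (1 + (L * (t' - t)) ^ 2)⁻¹ := by
  rw [div_eq_mul_inv]
  refine mul_le_mul_of_nonneg_left ?_ hL.le
  apply inv_anti₀ (by positivity)
  have h1 : 0 ≤ L * |t' - t| := by positivity
  have h2 : (1 + L * |t' - t|) ^ 2 ≤ (1 + L * |t' - t|) ^ n := pow_le_pow_right₀ (by linarith) hn
  refine le_trans ?_ h2
  have h3 : (L * (t' - t)) ^ 2 = (L * |t' - t|) ^ 2 := by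
    rw [mul_pow, mul_pow, sq_abs]
  rw [h3]
  nlinarith

/-- S5. The separation theorem (uses S1-S5b).

PROOF. Let `B' = B + 10`, `J, C₁` from `GG_approx B'`, `m' = m + J + 2`, `κ` from
`kernel B R m'` for `U` and `x = re z` (`|x| ≤ ‖z‖ ≤ R`), `z = x + y₀ I`, `L = log r`,
`K(t') = L κ(L(t + y₀/L - t'))`. Take `r₀` with `R / log r₀ ≤ 1/4` and `log r₀ ≥ 1`, so that
`s = pz r t z` has real part in `[1/4, 3/4]`. With `E_U = GG_U - Gt_U`, `E' = GG_{U+10} - Gt_{U+10}`: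
`L(s')A(s') = Gt_U - Gt_{U+10} + E_U - E'` on the line (S5a), so by S5b
`Gt_U(s) = ∫ (L A)(pt 0 t') K(t') dt' - ∫ (E_U - E')(pt 0 t') K(t') dt'`, and
`‖GG_U(s)‖ ≤ ‖E_U(s)‖ + ∫ ‖L‖ ‖A‖ ‖K‖ + ∫ (‖E_U‖ + ‖E'‖) ‖K‖`. Now
`1 + |L(t + y₀/L - t')| ≥ (1 + L|t' - t|)/(1 + R)` (as `|y₀| ≤ R`), so
`‖K(t')‖ ≤ L C₂ (1+R)^m' /(1 + L|t'-t|)^m' ≤ C₂ (1+R)^m' kw r m t t'`, and also
`‖K(t')‖ ≤ C₂ (1+R)^m' L/(1+L|t'-t|)^(J+2)`. `GG_approx` on the line: `‖E‖ ≤ C₁ (|t'| + 2)^J/r` and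
`|t'| + 2 ≤ 2 (1 + |t|)(1 + L|t' - t|)` (`L ≥ 1`), so the error integral is at most
`(2 C₁/r) 2^J (1+|t|)^J C₂ (1+R)^m' ∫ L/(1+L|t'-t|)^2 dt' ≤ C (1+|t|)^J/r` (`∫ dy/(1+|y|)^2 = 2`).
Integrability of `‖L‖ ‖A‖ kw` (needed for monotonicity of the integral): `‖L(pt 0 t')‖` grows at
most linearly (`EM.L_growth`), `‖A‖` is bounded by the finite sum of absolute values of its
coefficients, `kw` decays with exponent `m ≥ 4`; everything is continuous in `t'`. -/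
theorem separation (B R : ℝ) (hB : 0 ≤ B) (hR : 0 ≤ R) (m : ℕ) (hm : 4 ≤ m) :
    ∃ (J : ℕ) (C : ℝ) (r₀ : ℕ), 0 ≤ C ∧ 2 ≤ r₀ ∧ ∀ (r : ℕ) [NeZero r], r₀ ≤ r →
    ∀ χ : DirichletCharacter ℂ r, χ ≠ 1 → ∀ U : ℝ, 0 ≤ U → U ≤ B → ∀ N : ℕ,
    (r : ℝ) ^ (U + 15) ≤ N → ∀ (t : ℝ) (z : ℂ), ‖z‖ ≤ R →
    ‖GG r χ N U (pz r t z)‖ ≤
      C * (∫ t' : ℝ, ‖χ.LFunction (pt r 0 t')‖ * ‖AA r χ N U (pt r 0 t')‖ * kw r m t t') +
        C * (1 + |t|) ^ J / r := by
  obtain ⟨J, C₁, hC₁, hGG⟩ := GG_approx (B + 10) (by linarith)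
  obtain ⟨C₂, hC₂, hker⟩ := kernel B R (m + J + 2)
  set A1 : ℝ := C₂ * (1 + R) ^ (m + J + 2) with hA1
  have hA10 : 0 ≤ A1 := by positivity
  set C₃ : ℝ := 2 ^ (J + 1) * C₁ * A1 with hC₃
  have hC₃0 : 0 ≤ C₃ := by positivity
  have hpi := Real.pi_pos
  refine ⟨J, A1 + C₁ * 2 ^ J + C₃ * Real.pi, max 3 ⌈Real.exp (4 * R + 1)⌉₊, by positivity, by
    exact le_trans (by norm_num) (le_max_left _ _), ?_⟩
  intro r _ hr χ hχ U hU0 hUB N hN t z hz
  have hr3 : 3 ≤ r := (le_max_left _ _).trans hr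
  have hr0 : (0 : ℝ) < r := by exact_mod_cast (by omega : 0 < r)
  have hr1 : (1 : ℝ) ≤ r := by exact_mod_cast (by omega : 1 ≤ r)
  set L : ℝ := Real.log r with hL
  have hLR : 4 * R + 1 ≤ L := by
    rw [hL, Real.le_log_iff_exp_le hr0]
    exact (Nat.le_ceil _).trans (by exact_mod_cast (le_max_right _ _).trans hr)
  have hL1 : 1 ≤ L := by linarith
  have hL0 : 0 < L := by linarith
  set x : ℝ := z.re with hx
  set y₀ : ℝ := z.im with hy₀
  have hxR : |x| ≤ R := (Complex.abs_re_le_norm z).trans hz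
  have hyR : |y₀| ≤ R := (Complex.abs_im_le_norm z).trans hz
  have hzxy : z = (x : ℂ) + (y₀ : ℂ) * I := (Complex.re_add_im z).symm
  obtain ⟨κ, hκ, hκb, hκ1, hκ2⟩ := hker U x hU0 hUB hxR
  obtain ⟨g1, g2⟩ := conv_Gt r (by omega) χ N U x κ hκ C₂ (m + J + 2) (by omega) hκb hκ1 hκ2 t y₀
  rw [← hzxy] at g1
  rw [← hL] at g1 g2
  set s : ℂ := pz r t z with hs
  -- exponents
  have hN1 : (r : ℝ) ^ (U + 5) ≤ N := (Real.rpow_le_rpow_of_exponent_le hr1 (by linarith)).trans hN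
  have hN2 : (r : ℝ) ^ (U + 10 + 5) ≤ N := by
    have : U + 10 + 5 = U + 15 := by ring
    rw [this]; exact hN
  -- the point s
  have hsre : s.re = 1 / 2 + x / L := by
    rw [hs]
    unfold pz
    rw [← hL]
    simp [Complex.add_re, Complex.div_ofReal_re, hx]
  have hxL : |x / L| ≤ 1 / 4 := by
    rw [abs_div, abs_of_pos hL0, div_le_iff₀ hL0]
    linarith
  have hs1 : 1 / 4 ≤ s.re := by rw [hsre]; linarith [(abs_le.mp hxL).1]
  have hs2 : s.re ≤ 1 := by rw [hsre]; linarith [(abs_le.mp hxL).2]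
  have hsn : ‖s‖ + 1 ≤ 2 * (1 + |t|) := by
    have e1 : ‖s‖ ≤ 1 / 2 + |t| + R / L := by
      rw [hs]
      unfold pz
      rw [← hL]
      refine (norm_add_le _ _).trans (add_le_add ((norm_add_le _ _).trans (add_le_add ?_ ?_)) ?_)
      · norm_num
      · rw [norm_mul, Complex.norm_I, mul_one, Complex.norm_real, Real.norm_eq_abs]
      · rw [norm_div, Complex.norm_real, Real.norm_of_nonneg hL0.le]
        gcongr
    have e2 : R / L ≤ 1 / 4 := by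
      rw [div_le_iff₀ hL0]; linarith
    linarith [abs_nonneg t]
  -- the kernel bound
  have hK : ∀ t' : ℝ, ‖(L : ℂ) * κ (L * (t + y₀ / L - t'))‖ ≤ A1 * (L / (1 + L * |t' - t|) ^ (m + J + 2)) := by
    intro t'
    have hb := hκb (L * (t + y₀ / L - t'))
    rw [norm_mul, Complex.norm_real, Real.norm_of_nonneg hL0.le]
    set w : ℝ := |L * (t + y₀ / L - t')| with hw
    have hw0 : 0 ≤ w := abs_nonneg _
    have e1 : 1 + L * |t' - t| ≤ (1 + R) * (1 + w) := by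
      have e2 : L * (t' - t) = y₀ - L * (t + y₀ / L - t') := by field_simp; ring
      have e3 : L * |t' - t| ≤ |y₀| + w := by
        have e31 : L * |t' - t| = |L * (t' - t)| := by rw [abs_mul, abs_of_pos hL0]
        rw [e31, e2]
        exact abs_sub _ _
      nlinarith
    have e4 : 0 < 1 + L * |t' - t| := by positivity
    have e5 : (1 + L * |t' - t|) ^ (m + J + 2) ≤ (1 + R) ^ (m + J + 2) * (1 + w) ^ (m + J + 2) := by
      rw [← mul_pow]
      exact pow_le_pow_left₀ e4.le e1 _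
    have e6 : C₂ / (1 + w) ^ (m + J + 2) ≤ A1 / (1 + L * |t' - t|) ^ (m + J + 2) := by
      rw [div_le_div_iff₀ (by positivity) (by positivity), hA1]
      calc C₂ * (1 + L * |t' - t|) ^ (m + J + 2) ≤ C₂ * ((1 + R) ^ (m + J + 2) * (1 + w) ^ (m + J + 2)) := by gcongr
        _ = C₂ * (1 + R) ^ (m + J + 2) * (1 + w) ^ (m + J + 2) := by ring
    calc L * ‖κ (L * (t + y₀ / L - t'))‖ ≤ L * (A1 / (1 + L * |t' - t|) ^ (m + J + 2)) := by
          gcongr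
          exact hb.trans e6
      _ = A1 * (L / (1 + L * |t' - t|) ^ (m + J + 2)) := by ring
  obtain ⟨hWi, hWint⟩ := S5b_W L t hL0
  have hKc : Continuous (fun t' : ℝ => (L : ℂ) * κ (L * (t + y₀ / L - t'))) :=
    continuous_const.mul (hκ.comp (by fun_prop))
  -- integrability of Gt * K
  have hGtK : ∀ U' : ℝ, Integrable (fun t' : ℝ => Gt r χ N U' (pt r 0 t') * ((L : ℂ) * κ (L * (t + y₀ / L - t')))) := by
    intro U'
    obtain ⟨c1, c2⟩ := S5b_poly r N (fun k => ((cU r U' k * vv (k / (r : ℝ) ^ (U' + 4)) : ℝ) : ℂ) * χ k)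
    set G₀ : ℝ := ∑ k ∈ Finset.Icc 1 N, ‖((cU r U' k * vv (k / (r : ℝ) ^ (U' + 4)) : ℝ) : ℂ) * χ k‖ with hG₀
    have hG₀0 : 0 ≤ G₀ := Finset.sum_nonneg fun _ _ => norm_nonneg _
    refine Integrable.mono' (hWi.const_mul (G₀ * A1)) (Continuous.mul c1 hKc).aestronglyMeasurable
      (Filter.Eventually.of_forall fun t' => ?_)
    rw [norm_mul]
    have e1 := c2 t'
    have e2 := hK t'
    have e3 := S5b_W_ge L t t' hL0 (m + J + 2) (by omega)
    calc ‖Gt r χ N U' (pt r 0 t')‖ * ‖(L : ℂ) * κ (L * (t + y₀ / L - t'))‖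
        ≤ G₀ * (A1 * (L * (1 + (L * (t' - t)) ^ 2)⁻¹)) := by
          refine mul_le_mul e1 (e2.trans ?_) (norm_nonneg _) hG₀0
          exact mul_le_mul_of_nonneg_left e3 hA10
      _ = G₀ * A1 * (L * (1 + (L * (t' - t)) ^ 2)⁻¹) := by ring
  have hdiff : Gt r χ N U s = ∫ t' : ℝ, (Gt r χ N U (pt r 0 t') - Gt r χ N (U + 10) (pt r 0 t')) *
      ((L : ℂ) * κ (L * (t + y₀ / L - t'))) := by
    have e1 : (fun t' : ℝ => (Gt r χ N U (pt r 0 t') - Gt r χ N (U + 10) (pt r 0 t')) *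
      ((L : ℂ) * κ (L * (t + y₀ / L - t')))) = fun t' : ℝ =>
        Gt r χ N U (pt r 0 t') * ((L : ℂ) * κ (L * (t + y₀ / L - t'))) -
        Gt r χ N (U + 10) (pt r 0 t') * ((L : ℂ) * κ (L * (t + y₀ / L - t'))) := by
      funext t'; ring
    rw [e1, integral_sub (hGtK U) (hGtK (U + 10)), g1, g2, sub_zero]
  -- integrability of the main function
  obtain ⟨a1, a2⟩ := S5b_poly r N (fun n => ((ArithmeticFunction.vonMangoldt n * (th r U n - th r (U + 10) n) : ℝ) : ℂ) * χ n)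
  set A₀ : ℝ := ∑ n ∈ Finset.Icc 1 N, ‖((ArithmeticFunction.vonMangoldt n * (th r U n - th r (U + 10) n) : ℝ) : ℂ) * χ n‖ with hA₀
  have hA₀0 : 0 ≤ A₀ := Finset.sum_nonneg fun _ _ => norm_nonneg _
  have hptn : ∀ t' : ℝ, ‖pt r 0 t'‖ ≤ 1 + |t'| := by
    intro t'
    unfold pt
    rw [Complex.ofReal_zero, zero_div, add_zero]
    refine (norm_add_le _ _).trans ?_
    rw [norm_mul, Complex.norm_I, mul_one, Complex.norm_real, Real.norm_eq_abs]
    norm_num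
  have hptre : ∀ t' : ℝ, (pt r 0 t').re = 1 / 2 := by
    intro t'; unfold pt; simp
  have hLc : Continuous (fun t' : ℝ => χ.LFunction (pt r 0 t')) := by
    refine (DirichletCharacter.differentiable_LFunction hχ).continuous.comp ?_
    unfold pt
    fun_prop
  have htt : ∀ t' : ℝ, 1 + |t'| ≤ (1 + |t|) * (1 + L * |t' - t|) := by
    intro t'
    have e1 : |t'| ≤ |t| + |t' - t| := by
      have := abs_add_le t (t' - t)
      rwa [add_sub_cancel] at this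
    have e2 : |t' - t| ≤ L * |t' - t| := by nlinarith [abs_nonneg (t' - t)]
    nlinarith [abs_nonneg t, abs_nonneg (t' - t)]
  have hmainint : Integrable (fun t' : ℝ => ‖χ.LFunction (pt r 0 t')‖ * ‖AA r χ N U (pt r 0 t')‖ * kw r m t t') := by
    have hkc : Continuous (fun t' : ℝ => kw r m t t') := by
      unfold kw
      refine Continuous.div continuous_const (by fun_prop) fun t' => ?_
      have : 0 ≤ Real.log r * |t' - t| := by rw [← hL]; positivity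
      positivity
    refine Integrable.mono' (hWi.const_mul (20 * (2 * r + 1) * (1 + |t|) * A₀))
      ((hLc.norm.mul a1.norm).mul hkc).aestronglyMeasurable (Filter.Eventually.of_forall fun t' => ?_)
    have e1 : ‖χ.LFunction (pt r 0 t')‖ ≤ 20 * (2 * r + 1) * (1 + |t'|) := by
      refine (EM.L_growth r χ hχ (pt r 0 t') (by rw [hptre]; norm_num)).trans ?_
      gcongr
      exact hptn t'
    have e2 : ‖AA r χ N U (pt r 0 t')‖ ≤ A₀ := a2 t'
    have hkw0 : 0 ≤ kw r m t t' := by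
      unfold kw; rw [← hL]; positivity
    have e3 : (1 + L * |t' - t|) * kw r m t t' ≤ L * (1 + (L * (t' - t)) ^ 2)⁻¹ := by
      refine le_trans ?_ (S5b_W_ge L t t' hL0 (m - 1) (by omega))
      unfold kw
      rw [← hL]
      have e4 : 0 < 1 + L * |t' - t| := by positivity
      have e5 : (1 + L * |t' - t|) ^ m = (1 + L * |t' - t|) ^ (m - 1) * (1 + L * |t' - t|) := by
        rw [← pow_succ]; congr 1; omega
      rw [e5]
      apply le_of_eq
      field_simp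
    rw [Real.norm_of_nonneg (by positivity)]
    calc ‖χ.LFunction (pt r 0 t')‖ * ‖AA r χ N U (pt r 0 t')‖ * kw r m t t'
        ≤ (20 * (2 * r + 1) * ((1 + |t|) * (1 + L * |t' - t|))) * A₀ * kw r m t t' := by
          gcongr
          refine e1.trans ?_
          gcongr
          exact htt t'
      _ = 20 * (2 * r + 1) * (1 + |t|) * A₀ * ((1 + L * |t' - t|) * kw r m t t') := by ring
      _ ≤ 20 * (2 * r + 1) * (1 + |t|) * A₀ * (L * (1 + (L * (t' - t)) ^ 2)⁻¹) := by gcongr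
  -- pointwise bound
  have hpoint : ∀ t' : ℝ, ‖(Gt r χ N U (pt r 0 t') - Gt r χ N (U + 10) (pt r 0 t')) *
      ((L : ℂ) * κ (L * (t + y₀ / L - t')))‖ ≤
      A1 * (‖χ.LFunction (pt r 0 t')‖ * ‖AA r χ N U (pt r 0 t')‖ * kw r m t t') +
      (C₃ * (1 + |t|) ^ J / r) * (L * (1 + (L * (t' - t)) ^ 2)⁻¹) := by
    intro t'
    set w : ℂ := pt r 0 t' with hw
    set a : ℝ := L * |t' - t| with ha
    have ha0 : 0 ≤ a := by positivity
    have e1 : Gt r χ N U w - Gt r χ N (U + 10) w = χ.LFunction w * AA r χ N U w -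
        ((GG r χ N U w - Gt r χ N U w) - (GG r χ N (U + 10) w - Gt r χ N (U + 10) w)) := by
      rw [L_mul_AA]; ring
    have hwre : w.re = 1 / 2 := hptre t'
    have e2 := hGG r (by omega) χ hχ U hU0 (by linarith) N hN1 w (by rw [hwre]; norm_num) (by rw [hwre]; norm_num)
    have e3 := hGG r (by omega) χ hχ (U + 10) (by linarith) (by linarith) N hN2 w (by rw [hwre]; norm_num) (by rw [hwre]; norm_num)
    have e4 : ‖w‖ + 1 ≤ 2 * ((1 + |t|) * (1 + a)) := by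
      have := hptn t'
      have := htt t'
      linarith [abs_nonneg t']
    have e5 : (‖w‖ + 1) ^ J ≤ 2 ^ J * (1 + |t|) ^ J * (1 + a) ^ J := by
      calc (‖w‖ + 1) ^ J ≤ (2 * ((1 + |t|) * (1 + a))) ^ J := by gcongr
        _ = 2 ^ J * (1 + |t|) ^ J * (1 + a) ^ J := by rw [mul_pow, mul_pow]; ring
    have e6 : ‖Gt r χ N U w - Gt r χ N (U + 10) w‖ ≤ ‖χ.LFunction w‖ * ‖AA r χ N U w‖ +
        2 * (C₁ * (2 ^ J * (1 + |t|) ^ J * (1 + a) ^ J) / r) := by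
      rw [e1]
      refine (norm_sub_le _ _).trans ?_
      rw [norm_mul]
      refine add_le_add le_rfl ((norm_sub_le _ _).trans ?_)
      have e7 : C₁ * (‖w‖ + 1) ^ J / r ≤ C₁ * (2 ^ J * (1 + |t|) ^ J * (1 + a) ^ J) / r := by gcongr
      linarith
    have hKt := hK t'
    rw [← ha] at hKt
    have hK1 : ‖(L : ℂ) * κ (L * (t + y₀ / L - t'))‖ ≤ A1 * kw r m t t' := by
      refine hKt.trans (mul_le_mul_of_nonneg_left ?_ hA10)
      unfold kw
      rw [← hL, ← ha]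
      have : (1 + a) ^ m ≤ (1 + a) ^ (m + J + 2) := pow_le_pow_right₀ (by linarith) (by omega)
      gcongr
    have hK2 : (1 + a) ^ J * ‖(L : ℂ) * κ (L * (t + y₀ / L - t'))‖ ≤ A1 * (L * (1 + (L * (t' - t)) ^ 2)⁻¹) := by
      have e8 : (1 + a) ^ J * (A1 * (L / (1 + a) ^ (m + J + 2))) = A1 * (L / (1 + a) ^ (m + 2)) := by
        have e9 : (1 + a) ^ (m + J + 2) = (1 + a) ^ (m + 2) * (1 + a) ^ J := by
          rw [← pow_add]; congr 1; ring
        have e10 : (1 + a) ^ J ≠ 0 := by positivity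
        rw [e9]
        field_simp
      calc (1 + a) ^ J * ‖(L : ℂ) * κ (L * (t + y₀ / L - t'))‖ ≤ (1 + a) ^ J * (A1 * (L / (1 + a) ^ (m + J + 2))) := by gcongr
        _ = A1 * (L / (1 + a) ^ (m + 2)) := e8
        _ ≤ A1 * (L * (1 + (L * (t' - t)) ^ 2)⁻¹) := by
            refine mul_le_mul_of_nonneg_left ?_ hA10
            exact S5b_W_ge L t t' hL0 (m + 2) (by omega)
    rw [norm_mul]
    set k0 : ℝ := ‖(L : ℂ) * κ (L * (t + y₀ / L - t'))‖ with hk0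
    have hk00 : 0 ≤ k0 := norm_nonneg _
    calc ‖Gt r χ N U w - Gt r χ N (U + 10) w‖ * k0
        ≤ (‖χ.LFunction w‖ * ‖AA r χ N U w‖ + 2 * (C₁ * (2 ^ J * (1 + |t|) ^ J * (1 + a) ^ J) / r)) * k0 := by gcongr
      _ = (‖χ.LFunction w‖ * ‖AA r χ N U w‖) * k0 + (2 ^ (J + 1) * C₁ * (1 + |t|) ^ J / r) * ((1 + a) ^ J * k0) := by
          rw [pow_succ]; ring
      _ ≤ (‖χ.LFunction w‖ * ‖AA r χ N U w‖) * (A1 * kw r m t t') +
          (2 ^ (J + 1) * C₁ * (1 + |t|) ^ J / r) * (A1 * (L * (1 + (L * (t' - t)) ^ 2)⁻¹)) := by gcongr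
      _ = A1 * (‖χ.LFunction w‖ * ‖AA r χ N U w‖ * kw r m t t') +
          (C₃ * (1 + |t|) ^ J / r) * (L * (1 + (L * (t' - t)) ^ 2)⁻¹) := by
          rw [hC₃]; ring
  have hGts : ‖Gt r χ N U s‖ ≤ A1 * (∫ t' : ℝ, ‖χ.LFunction (pt r 0 t')‖ * ‖AA r χ N U (pt r 0 t')‖ * kw r m t t') +
      (C₃ * (1 + |t|) ^ J / r) * Real.pi := by
    rw [hdiff]
    refine (norm_integral_le_of_norm_le ((hmainint.const_mul A1).add (hWi.const_mul _))
      (Filter.Eventually.of_forall hpoint)).trans ?_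
    simp only [Pi.add_apply]
    rw [integral_add (hmainint.const_mul A1) (hWi.const_mul _), integral_const_mul, integral_const_mul, hWint]
  have hEs : ‖GG r χ N U s - Gt r χ N U s‖ ≤ C₁ * 2 ^ J * (1 + |t|) ^ J / r := by
    refine (hGG r (by omega) χ hχ U hU0 (by linarith) N hN1 s hs1 hs2).trans ?_
    have e1 : (‖s‖ + 1) ^ J ≤ 2 ^ J * (1 + |t|) ^ J := by
      rw [← mul_pow]
      gcongr
    calc C₁ * (‖s‖ + 1) ^ J / r ≤ C₁ * (2 ^ J * (1 + |t|) ^ J) / r := by gcongr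
      _ = C₁ * 2 ^ J * (1 + |t|) ^ J / r := by ring
  have hI0 : 0 ≤ ∫ t' : ℝ, ‖χ.LFunction (pt r 0 t')‖ * ‖AA r χ N U (pt r 0 t')‖ * kw r m t t' := by
    refine integral_nonneg fun t' => ?_
    have : 0 ≤ kw r m t t' := by unfold kw; rw [← hL]; positivity
    positivity
  set I₀ : ℝ := ∫ t' : ℝ, ‖χ.LFunction (pt r 0 t')‖ * ‖AA r χ N U (pt r 0 t')‖ * kw r m t t' with hI₀
  have htot : ‖GG r χ N U s‖ ≤ ‖GG r χ N U s - Gt r χ N U s‖ + ‖Gt r χ N U s‖ := by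
    have : GG r χ N U s = (GG r χ N U s - Gt r χ N U s) + Gt r χ N U s := by ring
    calc ‖GG r χ N U s‖ = ‖(GG r χ N U s - Gt r χ N U s) + Gt r χ N U s‖ := by rw [← this]
      _ ≤ _ := norm_add_le _ _
  set τ : ℝ := (1 + |t|) ^ J / r with hτ
  have hτ0 : 0 ≤ τ := by positivity
  have f1 : C₁ * 2 ^ J * (1 + |t|) ^ J / r = C₁ * 2 ^ J * τ := by rw [hτ]; ring
  have f2 : C₃ * (1 + |t|) ^ J / r = C₃ * τ := by rw [hτ]; ring
  have f3 : (A1 + C₁ * 2 ^ J + C₃ * Real.pi) * (1 + |t|) ^ J / r = (A1 + C₁ * 2 ^ J + C₃ * Real.pi) * τ := by rw [hτ]; ring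
  rw [f3]
  rw [f1] at hEs
  rw [f2] at hGts
  have g3 : 0 ≤ A1 * τ := by positivity
  have g4 : 0 ≤ C₁ * 2 ^ J * I₀ := by positivity
  have g5 : 0 ≤ C₃ * Real.pi * I₀ := by positivity
  nlinarith

end Pool.Agent.SO
end

section

set_option autoImplicit false

namespace Pool.Agent.SO

open Complex MeasureTheory

/-- R2. The lower bound at a good pair (uses F3 `left_ge`, L4 `local_lower`, S5 `separation`, R0, R1).

PROOF. `R₀` from `local_lower b 4`; for `R ≥ R₀`, `c₀` from it; `J, C, r₁` from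
`separation B R m`; `C' = C + 1`. Let `L = log r`, `χ` primitive mod `r` (so `χ ≠ 1` for `r ≥ 2`),
`m0 = MM r χ (pt r b t)`,
`f z = L(χ, pz r t z) * m0`, `P z = (1/L) PP r χ N U (pz r t z)`; both entire (R1c, R1d; note
`deriv f z = L'(pz) m0/L`).
Hypotheses of `local_lower`:
(1) `‖f z‖² ≤ (R+1) exp (7R) ≤ exp (8R)` on `‖z‖ ≤ R` by `sq_le_circleAverage` and the first
condition of `good`, so `‖f z‖ ≤ exp (4R)`;
(2) `f b = L(pt b t) m0` (R1e) and `‖L M - 1‖ ≤ 1/2`, so `‖f b‖ ≥ 1/2`;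
(3) `‖deriv f b‖ = ‖L'(pt b t) m0‖/L ≤ 1/16`;
(4) `exp (b/2) ‖f b‖ ≤ ‖f (-b)‖` by `left_ge b` (`r ≥ r₂`), times `‖m0‖` (`pz r t (-b) = pt r (-b) t`).
So there is `z`, `‖z‖ ≤ R`, with `c₀ ≤ ‖deriv f z + P z f z‖ = ‖m0‖ ‖GG r χ N U (pz r t z)‖/L`.
`separation`: `c₀ L ≤ C' ∫ ‖L(pt 0 t') m0‖ ‖A(pt 0 t')‖ kw + C' 2^J ‖m0‖/r` and `‖m0‖ ≤ r^(1/8)` (R0a,
`re (pt r b t) ≥ 0`), so the last term is `≤ C' 2^J r^(-7/8) ≤ c₀/2 ≤ c₀ L/2` for `r ≥ r₃`. Hence
`a := c₀ L/(2 C') ≤ ∫ f g k` with `f = ‖L(pt 0 t') m0‖`, `g = ‖A‖`, `k = kw`; fourth condition of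
`good`: `∫ f² k ≤ K ≤ K + 1`. `weighted_cs` (integrability: R1a, R1b) gives
`∫ ‖A‖² kw ≥ a²/(4(K+1)) = c₀² L²/(16 C'² (K+1))`. Take `c = c₀²/(16 C'² (K+1))`. -/
theorem good_lower (b B : ℝ) (hb : 1 ≤ b) (hB : 0 ≤ B) (m : ℕ) (hm : 4 ≤ m) :
    ∃ R₀ : ℝ, 1 ≤ R₀ ∧ ∀ R : ℝ, R₀ ≤ R → ∀ K : ℝ, 0 ≤ K → ∃ c : ℝ, 0 < c ∧ ∃ r₀ : ℕ, 3 ≤ r₀ ∧
    ∀ (r : ℕ) [NeZero r], r₀ ≤ r → ∀ χ ∈ prim r, ∀ t : ℝ, 0 ≤ t → t ≤ 1 → good r b R K m χ t →
    ∀ U : ℝ, 0 ≤ U → U ≤ B → ∀ N : ℕ, (r : ℝ) ^ (U + 15) ≤ N →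
    c * (Real.log r) ^ 2 ≤ ∫ t' : ℝ, ‖AA r χ N U (pt r 0 t')‖ ^ 2 * kw r m t t' := by
  obtain ⟨R₀, hR₀, hloc⟩ := local_lower b 4 hb (by norm_num)
  refine ⟨R₀, hR₀, fun R hR K hK => ?_⟩
  obtain ⟨c₀, hc₀, hlow⟩ := hloc R hR
  have hR1 : 1 ≤ R := hR₀.trans hR
  have hR0 : 0 ≤ R := by linarith
  obtain ⟨J, C, r₁, hC, hr₁, hsep⟩ := separation B R hB hR0 m hm
  obtain ⟨r₂, hr₂, hleft⟩ := left_ge b hb
  have hlim : Filter.Tendsto (fun r : ℕ => C * 2 ^ J * (r : ℝ) ^ (-(7 / 8 : ℝ))) Filter.atTop (nhds 0) := by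
    have h1 := (tendsto_rpow_neg_atTop (show (0 : ℝ) < 7 / 8 by norm_num)).comp tendsto_natCast_atTop_atTop
    have h2 := h1.const_mul (C * 2 ^ J)
    rw [mul_zero] at h2
    exact h2
  obtain ⟨r₃, hr₃⟩ := Filter.eventually_atTop.mp (hlim.eventually (ge_mem_nhds (show (0 : ℝ) < c₀ / 2 by positivity)))
  set C' : ℝ := C + 1 with hC'
  have hC'0 : 0 < C' := by positivity
  refine ⟨c₀ ^ 2 / (16 * C' ^ 2 * (K + 1)), by positivity, max (max 3 r₁) (max r₂ r₃), le_trans (le_max_left _ _) (le_max_left _ _), ?_⟩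
  intro r _ hr χ hχp t ht0 ht1 hgood U hU0 hUB N hN
  have hr3 : 3 ≤ r := (le_max_left _ _).trans ((le_max_left _ _).trans hr)
  have hrr1 : r₁ ≤ r := (le_max_right _ _).trans ((le_max_left _ _).trans hr)
  have hrr2 : r₂ ≤ r := (le_max_left _ _).trans ((le_max_right _ _).trans hr)
  have hrr3 : r₃ ≤ r := (le_max_right _ _).trans ((le_max_right _ _).trans hr)
  have hr0 : (0 : ℝ) < r := by exact_mod_cast (by omega : 0 < r)
  set L : ℝ := Real.log r with hL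
  have hL1 : 1 ≤ L := by
    rw [hL, Real.le_log_iff_exp_le hr0]
    have h1 := Real.exp_one_lt_d9
    have h2 : (3 : ℝ) ≤ r := by exact_mod_cast hr3
    linarith
  have hL0 : 0 < L := by linarith
  have hprim : χ.IsPrimitive := by
    classical
    unfold prim at hχp
    exact (Finset.mem_filter.mp hχp).2
  have hχ : χ ≠ 1 := by
    rintro rfl
    have h1 : (1 : DirichletCharacter ℂ r).conductor = r := hprim
    rw [DirichletCharacter.conductor_one] at h1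
    omega
  have htabs : |t| ≤ 1 := by rw [abs_of_nonneg ht0]; exact ht1
  obtain ⟨G1, G2, G3, G4⟩ := hgood
  set m0 : ℂ := MM r χ (pt r b t) with hm0
  set f : ℂ → ℂ := fun z => χ.LFunction (pz r t z) * m0 with hf
  set P : ℂ → ℂ := fun z => (1 / (L : ℂ)) * PP r χ N U (pz r t z) with hP
  have hfd : ∀ z, HasDerivAt f (deriv χ.LFunction (pz r t z) * m0 / (L : ℂ)) z := fun z =>
    deriv_L_pz r (by omega) χ hχ m0 t z
  have hfe : Differentiable ℂ f := fun z => (hfd z).differentiableAt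
  have hPe : Differentiable ℂ P := (PP_entire r χ N U t).const_mul _
  have hpb : pz r t (b : ℂ) = pt r b t := pz_real r t b
  have hpmb : pz r t (-(b : ℂ)) = pt r (-b) t := by
    rw [← pz_real r t (-b)]; push_cast; rfl
  -- (1)
  have H1 : ∀ z ∈ Metric.closedBall (0 : ℂ) R, ‖f z‖ ≤ Real.exp (4 * R) := by
    intro z hz
    have hz' : ‖z‖ ≤ R := by rwa [mem_closedBall_zero_iff] at hz
    have h1 := sq_le_circleAverage f hfe R (Real.exp (7 * R)) hR1 G1 z hz'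
    have h2 : R + 1 ≤ Real.exp R := Real.add_one_le_exp R
    have h3 : (R + 1) * Real.exp (7 * R) ≤ Real.exp (4 * R) ^ 2 := by
      calc (R + 1) * Real.exp (7 * R) ≤ Real.exp R * Real.exp (7 * R) := by gcongr
        _ = Real.exp (4 * R) ^ 2 := by
            rw [← Real.exp_add, ← Real.exp_nat_mul]; congr 1; push_cast; ring
    exact (pow_le_pow_iff_left₀ (norm_nonneg _) (Real.exp_pos _).le (by norm_num)).mp (h1.trans h3)
  -- (2)
  have hfb : f (b : ℂ) = χ.LFunction (pt r b t) * m0 := by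
    show χ.LFunction (pz r t (b : ℂ)) * m0 = _
    rw [hpb]
  have H2 : 1 / 2 ≤ ‖f (b : ℂ)‖ := by
    rw [hfb]
    have h1 : ‖(1 : ℂ)‖ ≤ ‖χ.LFunction (pt r b t) * m0 - 1‖ + ‖χ.LFunction (pt r b t) * m0‖ := by
      have : (1 : ℂ) = -(χ.LFunction (pt r b t) * m0 - 1) + χ.LFunction (pt r b t) * m0 := by ring
      calc ‖(1 : ℂ)‖ = ‖-(χ.LFunction (pt r b t) * m0 - 1) + χ.LFunction (pt r b t) * m0‖ := by rw [← this]
        _ ≤ ‖-(χ.LFunction (pt r b t) * m0 - 1)‖ + ‖χ.LFunction (pt r b t) * m0‖ := norm_add_le _ _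
        _ = _ := by rw [norm_neg]
    rw [norm_one] at h1
    linarith
  -- (3)
  have H3 : ‖deriv f (b : ℂ)‖ ≤ 1 / 16 := by
    rw [(hfd (b : ℂ)).deriv, hpb, norm_div, Complex.norm_real, Real.norm_of_nonneg hL0.le, div_le_iff₀ hL0]
    linarith
  -- (4)
  have H4 : Real.exp (b / 2) * ‖f (b : ℂ)‖ ≤ ‖f (-(b : ℂ))‖ := by
    have h1 := hleft r hrr2 χ hprim t htabs
    have h2 : f (-(b : ℂ)) = χ.LFunction (pt r (-b) t) * m0 := by
      show χ.LFunction (pz r t (-(b : ℂ))) * m0 = _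
      rw [hpmb]
    rw [hfb, h2, norm_mul, norm_mul, ← mul_assoc]
    exact mul_le_mul_of_nonneg_right h1 (norm_nonneg _)
  obtain ⟨z, hz, hzc⟩ := hlow f P hfe hPe H1 H2 H3 H4
  have hz' : ‖z‖ ≤ R := by rwa [mem_closedBall_zero_iff] at hz
  have hLc : (L : ℂ) ≠ 0 := by exact_mod_cast hL0.ne'
  have hexpr : deriv f z + P z * f z = -(m0 / (L : ℂ)) * GG r χ N U (pz r t z) := by
    rw [(hfd z).deriv]
    show deriv χ.LFunction (pz r t z) * m0 / (L : ℂ) + (1 / (L : ℂ)) * PP r χ N U (pz r t z) * (χ.LFunction (pz r t z) * m0) = _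
    unfold GG
    field_simp
    ring
  rw [hexpr, norm_mul, norm_neg, norm_div, Complex.norm_real, Real.norm_of_nonneg hL0.le] at hzc
  have hs := hsep r hrr1 χ hχ U hU0 hUB N hN t z hz'
  set I₀ : ℝ := ∫ t' : ℝ, ‖χ.LFunction (pt r 0 t')‖ * ‖AA r χ N U (pt r 0 t')‖ * kw r m t t' with hI₀
  have hkw : ∀ t' : ℝ, 0 ≤ kw r m t t' := by
    intro t'; unfold kw; rw [← hL]; positivity
  have hI0 : 0 ≤ I₀ := integral_nonneg fun t' => mul_nonneg (mul_nonneg (norm_nonneg _) (norm_nonneg _)) (hkw t')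
  have hm0b : ‖m0‖ ≤ (r : ℝ) ^ (1 / 8 : ℝ) := by
    refine MM_le r (by omega) χ _ ?_
    have : (pt r b t).re = 1 / 2 + b / L := by
      unfold pt
      rw [← hL]
      simp [Complex.add_re, Complex.div_ofReal_re]
    rw [this]
    positivity
  have hm00 : 0 ≤ ‖m0‖ := norm_nonneg _
  have herr : ‖m0‖ * (C * (1 + |t|) ^ J / r) ≤ c₀ / 2 := by
    have e1 : (1 + |t|) ^ J ≤ 2 ^ J := by
      have := abs_nonneg t
      exact pow_le_pow_left₀ (by linarith) (by linarith) J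
    have e2 : (r : ℝ) ^ (1 / 8 : ℝ) / r = (r : ℝ) ^ (-(7 / 8 : ℝ)) := by
      rw [show (-(7 / 8 : ℝ)) = 1 / 8 - 1 by norm_num, Real.rpow_sub hr0, Real.rpow_one]
    calc ‖m0‖ * (C * (1 + |t|) ^ J / r) ≤ (r : ℝ) ^ (1 / 8 : ℝ) * (C * 2 ^ J / r) := by gcongr
      _ = C * 2 ^ J * ((r : ℝ) ^ (1 / 8 : ℝ) / r) := by ring
      _ = C * 2 ^ J * (r : ℝ) ^ (-(7 / 8 : ℝ)) := by rw [e2]
      _ ≤ c₀ / 2 := hr₃ r hrr3
  have hmain : c₀ * L / 2 ≤ C' * (‖m0‖ * I₀) := by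
    have e1 : c₀ * L ≤ ‖m0‖ * ‖GG r χ N U (pz r t z)‖ := by
      have : ‖m0‖ / L * ‖GG r χ N U (pz r t z)‖ = ‖m0‖ * ‖GG r χ N U (pz r t z)‖ / L := by ring
      rw [this, le_div_iff₀ hL0] at hzc
      exact hzc
    have e2 : ‖m0‖ * ‖GG r χ N U (pz r t z)‖ ≤ ‖m0‖ * (C * I₀ + C * (1 + |t|) ^ J / r) := by gcongr
    have e3 : ‖m0‖ * (C * I₀ + C * (1 + |t|) ^ J / r) = C * (‖m0‖ * I₀) + ‖m0‖ * (C * (1 + |t|) ^ J / r) := by ring
    have e4 : c₀ ≤ c₀ * L := by nlinarith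
    have e5 : 0 ≤ ‖m0‖ * I₀ := by positivity
    rw [hC']
    nlinarith
  have hInt : ‖m0‖ * I₀ = ∫ t' : ℝ, ‖χ.LFunction (pt r 0 t') * m0‖ * ‖AA r χ N U (pt r 0 t')‖ * kw r m t t' := by
    rw [hI₀, ← integral_const_mul]
    congr 1
    funext t'
    rw [norm_mul]
    ring
  have ha : c₀ * L / (2 * C') ≤ ∫ t' : ℝ, ‖χ.LFunction (pt r 0 t') * m0‖ * ‖AA r χ N U (pt r 0 t')‖ * kw r m t t' := by
    rw [← hInt, div_le_iff₀ (by positivity)]
    nlinarith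
  have hcs := weighted_cs (fun t' => ‖χ.LFunction (pt r 0 t') * m0‖) (fun t' => ‖AA r χ N U (pt r 0 t')‖)
    (fun t' => kw r m t t') (fun _ => norm_nonneg _) (fun _ => norm_nonneg _) hkw
    (int_L r (by omega) χ hχ m0 t m hm) (int_AA r (by omega) χ N U t m (by omega))
    (c₀ * L / (2 * C')) (K + 1) (by positivity) (by positivity) (by linarith) ha
  refine le_trans (le_of_eq ?_) hcs
  field_simp
  ring

end Pool.Agent.SO
end

section

set_option autoImplicit false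

namespace Pool.Agent.SO

open Complex MeasureTheory Pool.Agent.EM

/-- R4. The theorem for primitive characters (uses Q3 `few_bad`, `half_grid`, R2 `good_lower`, R4a).

PROOF. `m` from `few_bad`; `b, R₁` from `few_bad` with `ε/2`; `R₀` from `good_lower b B m`;
`R = max R₁ R₀`; `K, r₁` from `few_bad`; `c, r₂` from `good_lower`; `C` from `window_of_grid`;
answer `c/C`. For `r ≥ max r₁ r₂ 3`, `J = ⌊log r⌋₊ ≥ 1`, `T = prim r`,
`P χ j = ¬ good r b R K m χ (j/J)` (classical decidability). `few_bad` with `t = j/J ∈ [0,1]` and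
`S = T.filter (P · j)` gives the hypothesis of `half_grid` with `δ = (ε/2) NN r`. Let `S` be
the set of `χ ∈ T` with `2 #{j < J | P χ j} ≤ J`; the complement in `T` has at most `ε NN r` elements. For
`χ ∈ S` the set `S'` of `j < J` with `good` has `2 #S' ≥ J`, and `good_lower` gives
the hypothesis of `window_of_grid`. -/
theorem primitive_lower (ε B : ℝ) (hε : 0 < ε) (hB : 0 ≤ B) : ∃ c : ℝ, 0 < c ∧ ∃ r₀ : ℕ, 3 ≤ r₀ ∧
    ∀ (r : ℕ) [NeZero r], r₀ ≤ r → ∀ T : Finset (DirichletCharacter ℂ r), T ⊆ prim r →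
    (∀ χ ∈ T, ∃ U : ℝ, 0 ≤ U ∧ U ≤ B ∧
      ∫ x in Set.Ioc ((r : ℝ) ^ U) ((r : ℝ) ^ (U + 11)), ‖psiC χ x‖ ^ 2 / x ^ 2 <
        c * (Real.log r) ^ 2) →
    (T.card : ℝ) ≤ ε * NN r := by
  classical
  obtain ⟨m, hm, hfb⟩ := few_bad
  obtain ⟨b, hb, R₁, hR₁, hfb⟩ := hfb (ε / 2) (by linarith)
  obtain ⟨R₀, hR₀, hgl⟩ := good_lower b B hb hB m (by omega)
  obtain ⟨K, hK, r₁, hr₁, hfb⟩ := hfb (max R₁ R₀) (le_max_left _ _)
  obtain ⟨c, hc, r₂, hr₂, hgl⟩ := hgl (max R₁ R₀) (le_max_right _ _) K hK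
  obtain ⟨C, hC, hw⟩ := window_of_grid
  refine ⟨c / C, div_pos hc hC, max r₁ r₂, hr₂.trans (le_max_right _ _), ?_⟩
  intro r _ hr T hT hbad
  have hr1 : r₁ ≤ r := (le_max_left _ _).trans hr
  have hr2 : r₂ ≤ r := (le_max_right _ _).trans hr
  have hr3 : 3 ≤ r := hr₂.trans hr2
  have hlog : 1 ≤ Real.log r := by
    have h1 : Real.exp 1 ≤ (r : ℝ) := by
      have h2 : Real.exp 1 < 3 := lt_trans Real.exp_one_lt_d9 (by norm_num)
      have h3 : (3 : ℝ) ≤ r := by exact_mod_cast hr3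
      linarith
    have h4 : (0 : ℝ) < r := by exact_mod_cast (by omega : 0 < r)
    rw [Real.le_log_iff_exp_le h4]
    exact h1
  set J : ℕ := ⌊Real.log r⌋₊ with hJ
  have hJ0 : 0 < J := Nat.floor_pos.2 hlog
  have hJ0' : (0 : ℝ) < J := by exact_mod_cast hJ0
  let P : DirichletCharacter ℂ r → ℕ → Prop := fun χ j =>
    ¬ good r b (max R₁ R₀) K m χ ((j : ℝ) / (J : ℝ))
  have ht : ∀ j < J, 0 ≤ (j : ℝ) / (J : ℝ) ∧ (j : ℝ) / (J : ℝ) ≤ 1 := by
    intro j hj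
    refine ⟨by positivity, ?_⟩
    rw [div_le_one hJ0']
    exact_mod_cast hj.le
  have h1 : ∀ j < J, (((T.filter (fun x => P x j)).card : ℕ) : ℝ) ≤ ε / 2 * NN r := by
    intro j hj
    refine hfb r hr1 _ (ht j hj).1 (ht j hj).2 _ ((Finset.filter_subset _ _).trans hT) ?_
    intro χ hχ
    exact (Finset.mem_filter.1 hχ).2
  have h2 := half_grid T J hJ0 P (ε / 2 * NN r) h1
  have h3 : T.filter (fun x => J < 2 * ((Finset.range J).filter (fun j => P x j)).card) = T := by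
    rw [Finset.filter_eq_self]
    intro χ hχ
    by_contra hlt
    rw [not_lt] at hlt
    obtain ⟨U, hU0, hUB, hU⟩ := hbad χ hχ
    set S : Finset ℕ := (Finset.range J).filter (fun j => ¬ P χ j) with hS
    have hcard : ((Finset.range J).filter (fun j => P χ j)).card + S.card = J := by
      rw [hS, Finset.card_filter_add_card_filter_not, Finset.card_range]
    have h4 : J ≤ 2 * S.card := by omega
    have h5 := hw r m c hr3 hm hc.le χ U hU0 S (Finset.filter_subset _ _) h4 (by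
      intro j hj N hN
      rw [hS, Finset.mem_filter, Finset.mem_range] at hj
      have hg : good r b (max R₁ R₀) K m χ ((j : ℝ) / (J : ℝ)) := not_not.1 hj.2
      exact hgl r hr2 χ (hT hχ) _ (ht j hj.1).1 (ht j hj.1).2 hg U hU0 hUB N hN)
    have h6 : c / C * (Real.log r) ^ 2 ≤
        ∫ x in Set.Ioc ((r : ℝ) ^ U) ((r : ℝ) ^ (U + 11)), ‖psiC χ x‖ ^ 2 / x ^ 2 := by
      rw [div_mul_eq_mul_div, div_le_iff₀ hC, mul_comm _ C]
      exact h5
    exact absurd hU (not_lt.2 h6)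
  rw [h3] at h2
  linarith

end Pool.Agent.SO
end
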