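import Mathlib
import Pool.Agent.Lib.MP_9cfc0a_nt.Mg.G001
import Pool.Agent.Lib.MP_9cfc0a_nt.Mg.G002
import Pool.Agent.Lib.MP_9cfc0a_nt.Mg.G007
import Pool.Agent.Lib.MP_9cfc0a_nt.SK.F2
import Pool.Agent.Lib.MP_9cfc0a_nt.Mg.G015
import Pool.Agent.Lib.MP_9cfc0a_nt.SK.Defs

section

set_option autoImplicit false

namespace Pool.Agent.SO

open Complex MeasureTheory Pool.Agent.EM

theorem A3_mem_prim (r : ℕ) [NeZero r] (χ : DirichletCharacter ℂ r) : χ ∈ prim r ↔ χ.IsPrimitive := by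
  unfold prim
  simp

theorem A3_NN_nonneg (r : ℕ) [NeZero r] : 0 ≤ NN r := by
  unfold NN
  positivity

theorem A3_large (a K : ℝ) (ha : 0 < a) : ∃ q₀ : ℕ, ∀ q : ℕ, q₀ ≤ q → K ≤ (q : ℝ) ^ a := by
  have h1 : Filter.Tendsto (fun q : ℕ => (q : ℝ) ^ a) Filter.atTop Filter.atTop :=
    (tendsto_rpow_atTop ha).comp tendsto_natCast_atTop_atTop
  obtain ⟨q₀, hq₀⟩ := (h1.eventually_ge_atTop K).exists_forall_of_atTop
  exact ⟨q₀, hq₀⟩

/-- A3. The bad characters mod `q` are few (uses R4 `primitive_lower`, A2a `induced_count`, MoD2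
`sum_NN`, MoD3 `totient_lower`, `EM.small_conductor`).

PROOF. `ε' = ε/4`; `c, r₀` from `primitive_lower ε' B`. Let
`Bad r ψ := ∃ U, 0 ≤ U ∧ U ≤ B ∧ ∫_{Ioc (r^U) (r^(U+11))} ‖psiC ψ x‖²/x² < c (log r)²`.
By `totient_lower`, `q^(91/100) ≤ δ φ(q)` for `q ≥ q₁(δ)` (`q^(91/100) = q^(99/100) q^(-8/100)`). Let `q` be so
large that `q^(9/20) ≥ r₀`, `4 q^(9/10) ≤ (ε/4) φ(q)`, `C q^(91/100) ≤ φ(q)` with the `C` of `sum_NN`. Split `S`
into `S₁ = {conductor < ⌈q^(9/20)⌉₊}` and the rest `S₂` (`conductor ≥ q^(9/20)`, so the second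
alternative holds). `EM.small_conductor`: `#S₁ ≤ ⌈q^(9/20)⌉₊² ≤ (2 q^(9/20))² = 4 q^(9/10) ≤
(ε/4) φ(q)`. `induced_count` with `r₁ = q^(9/20)`:
`#S₂ ≤ ∑_{r ∣ q, r ≥ q^(9/20)} ncard {ψ primitive, Bad r ψ}`, each term `≤ ε' NN r` by
`primitive_lower` (with `T` = the finset of bad primitive characters, `[NeZero r]` from `r ∣ q`), so
`#S₂ ≤ ε' ∑_{r ∣ q} NN r ≤ ε' (φ(q) + C q^(91/100)) ≤ 2 ε' φ(q) = (ε/2) φ(q)` (`sum_NN`). -/
theorem bad_count (ε B : ℝ) (hε : 0 < ε) (hB : 0 ≤ B) : ∃ c : ℝ, 0 < c ∧ ∃ q₀ : ℕ, 3 ≤ q₀ ∧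
    ∀ (q : ℕ) [NeZero q], q₀ ≤ q → ∀ S : Finset (DirichletCharacter ℂ q),
    (∀ χ ∈ S, (χ.conductor : ℝ) < (q : ℝ) ^ (9 / 20 : ℝ) ∨ ∃ U : ℝ, 0 ≤ U ∧ U ≤ B ∧
      ∫ x in Set.Ioc ((χ.conductor : ℝ) ^ U) ((χ.conductor : ℝ) ^ (U + 11)),
        ‖psiC χ.primitiveCharacter x‖ ^ 2 / x ^ 2 < c * (Real.log χ.conductor) ^ 2) →
    (S.card : ℝ) ≤ ε * (q.totient : ℝ) := by
  classical
  obtain ⟨c, hc, r₀, hr₀, hprim⟩ := primitive_lower (ε / 4) B (by positivity) hB
  obtain ⟨C1, hC1, hsum⟩ := sum_NN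
  obtain ⟨C2, hC2, htot⟩ := totient_lower
  obtain ⟨q1, hq1⟩ := A3_large (9 / 20) r₀ (by norm_num)
  obtain ⟨q2, hq2⟩ := A3_large (9 / 100) (16 * C2 / ε) (by norm_num)
  obtain ⟨q3, hq3⟩ := A3_large (8 / 100) (C1 * C2) (by norm_num)
  refine ⟨c, hc, max (max q1 q2) (max q3 3), by omega, ?_⟩
  intro q _ hq S hS
  have hqq1 : q1 ≤ q := by omega
  have hqq2 : q2 ≤ q := by omega
  have hqq3 : q3 ≤ q := by omega
  have hq3' : 3 ≤ q := by omega
  have hqr : (3 : ℝ) ≤ q := by exact_mod_cast hq3'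
  have hq0 : (0 : ℝ) < q := by linarith
  have hq1' : (1 : ℝ) ≤ q := by linarith
  have e1 := hq1 q hqq1
  have e2 := hq2 q hqq2
  have e3 := hq3 q hqq3
  have ht := htot q (by omega)
  have hφ0 : (0 : ℝ) ≤ (Nat.totient q : ℝ) := Nat.cast_nonneg _
  -- small conductors
  have hA : 4 * (q : ℝ) ^ (9 / 10 : ℝ) ≤ ε / 4 * (Nat.totient q : ℝ) := by
    have h1 : (q : ℝ) ^ (99 / 100 : ℝ) = (q : ℝ) ^ (9 / 100 : ℝ) * (q : ℝ) ^ (9 / 10 : ℝ) := by
      rw [← Real.rpow_add hq0]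
      norm_num
    rw [h1] at ht
    have h2 : 16 * C2 / ε * (q : ℝ) ^ (9 / 10 : ℝ) ≤ (q : ℝ) ^ (9 / 100 : ℝ) * (q : ℝ) ^ (9 / 10 : ℝ) :=
      mul_le_mul_of_nonneg_right e2 (by positivity)
    have h3 : 16 * C2 / ε * (q : ℝ) ^ (9 / 10 : ℝ) ≤ C2 * (Nat.totient q : ℝ) := h2.trans ht
    have hC2' : 0 < C2 := by linarith
    have h4 : 16 * C2 / ε * (q : ℝ) ^ (9 / 10 : ℝ) = C2 * (16 / ε * (q : ℝ) ^ (9 / 10 : ℝ)) := by ring
    rw [h4] at h3
    have h5 := le_of_mul_le_mul_left h3 hC2'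
    have h6 : ε / 4 * (16 / ε * (q : ℝ) ^ (9 / 10 : ℝ)) ≤ ε / 4 * (Nat.totient q : ℝ) :=
      mul_le_mul_of_nonneg_left h5 (by positivity)
    have h7 : ε / 4 * (16 / ε * (q : ℝ) ^ (9 / 10 : ℝ)) = 4 * (q : ℝ) ^ (9 / 10 : ℝ) := by
      field_simp
      ring
    linarith
  have hBq : C1 * (q : ℝ) ^ (91 / 100 : ℝ) ≤ (Nat.totient q : ℝ) := by
    have h1 : (q : ℝ) ^ (99 / 100 : ℝ) = (q : ℝ) ^ (8 / 100 : ℝ) * (q : ℝ) ^ (91 / 100 : ℝ) := by
      rw [← Real.rpow_add hq0]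
      norm_num
    rw [h1] at ht
    have h2 : C1 * C2 * (q : ℝ) ^ (91 / 100 : ℝ) ≤ (q : ℝ) ^ (8 / 100 : ℝ) * (q : ℝ) ^ (91 / 100 : ℝ) :=
      mul_le_mul_of_nonneg_right e3 (by positivity)
    have h3 : C2 * (C1 * (q : ℝ) ^ (91 / 100 : ℝ)) ≤ C2 * (Nat.totient q : ℝ) := by
      have h4 : C2 * (C1 * (q : ℝ) ^ (91 / 100 : ℝ)) = C1 * C2 * (q : ℝ) ^ (91 / 100 : ℝ) := by ring
      rw [h4]
      exact h2.trans ht
    exact le_of_mul_le_mul_left h3 (by linarith)
  set R : ℝ := (q : ℝ) ^ (9 / 20 : ℝ) with hR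
  have hR1 : 1 ≤ R := Real.one_le_rpow hq1' (by norm_num)
  have hsmall : ((S.filter (fun χ => (χ.conductor : ℝ) < R)).card : ℝ) ≤ ε / 4 * (Nat.totient q : ℝ) := by
    have h1 := small_conductor q ⌈R⌉₊ (S.filter (fun χ => (χ.conductor : ℝ) < R))
      (fun χ hχ => Nat.lt_ceil.mpr (Finset.mem_filter.mp hχ).2)
    have h2 : ((S.filter (fun χ => (χ.conductor : ℝ) < R)).card : ℝ) ≤ (⌈R⌉₊ : ℝ) ^ 2 := by exact_mod_cast h1
    have h3 : (⌈R⌉₊ : ℝ) ≤ 2 * R := by
      have h4 := (Nat.ceil_lt_add_one (by linarith : 0 ≤ R)).le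
      linarith
    have h5 : (⌈R⌉₊ : ℝ) ^ 2 ≤ (2 * R) ^ 2 := pow_le_pow_left₀ (Nat.cast_nonneg _) h3 2
    have h6 : R ^ 2 = (q : ℝ) ^ (9 / 10 : ℝ) := by
      rw [hR, ← Real.rpow_natCast, ← Real.rpow_mul hq0.le]
      norm_num
    have h7 : (2 * R) ^ 2 = 4 * (q : ℝ) ^ (9 / 10 : ℝ) := by
      rw [mul_pow, h6]
      norm_num
    linarith
  -- large conductors
  let Bad : (r : ℕ) → DirichletCharacter ℂ r → Prop := fun r ψ => ∃ U : ℝ, 0 ≤ U ∧ U ≤ B ∧
      ∫ x in Set.Ioc ((r : ℝ) ^ U) ((r : ℝ) ^ (U + 11)), ‖psiC ψ x‖ ^ 2 / x ^ 2 < c * (Real.log r) ^ 2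
  have hcount := induced_count Bad q R (S.filter (fun χ => ¬ (χ.conductor : ℝ) < R)) (by
    intro χ hχ
    have h1 := Finset.mem_filter.mp hχ
    refine ⟨not_lt.mp h1.2, ?_⟩
    rcases hS χ h1.1 with h2 | h2
    · exact absurd h2 h1.2
    · exact h2)
  have hlarge : ((S.filter (fun χ => ¬ (χ.conductor : ℝ) < R)).card : ℝ) ≤ ε / 2 * (Nat.totient q : ℝ) := by
    have h1 : ((S.filter (fun χ => ¬ (χ.conductor : ℝ) < R)).card : ℝ) ≤
        ∑ r ∈ q.divisors.filter (fun r : ℕ => R ≤ (r : ℝ)),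
          (Set.ncard {ψ : DirichletCharacter ℂ r | ψ.IsPrimitive ∧ Bad r ψ} : ℝ) := by
      exact_mod_cast hcount
    have h2 : ∀ r ∈ q.divisors.filter (fun r : ℕ => R ≤ (r : ℝ)),
        (Set.ncard {ψ : DirichletCharacter ℂ r | ψ.IsPrimitive ∧ Bad r ψ} : ℝ) ≤
          ε / 4 * (if h : r ≠ 0 then (haveI : NeZero r := ⟨h⟩; NN r) else 0) := by
      intro r hr
      have h3 := Finset.mem_filter.mp hr
      have hr0 : r ≠ 0 := by
        intro h0
        rw [h0] at h3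
        have h4 := h3.2
        rw [Nat.cast_zero] at h4
        linarith
      haveI : NeZero r := ⟨hr0⟩
      rw [dif_pos hr0]
      have hfin : ({ψ : DirichletCharacter ℂ r | ψ.IsPrimitive ∧ Bad r ψ}).Finite := Set.toFinite _
      rw [Set.ncard_eq_toFinset_card _ hfin]
      have hr₀r : r₀ ≤ r := by
        have h5 : (r₀ : ℝ) ≤ (r : ℝ) := e1.trans h3.2
        exact_mod_cast h5
      apply hprim r hr₀r hfin.toFinset
      · intro ψ hψ
        rw [A3_mem_prim]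
        exact ((Set.Finite.mem_toFinset hfin).mp hψ).1
      · intro ψ hψ
        exact ((Set.Finite.mem_toFinset hfin).mp hψ).2
    have h3 : ∑ r ∈ q.divisors.filter (fun r : ℕ => R ≤ (r : ℝ)),
          (Set.ncard {ψ : DirichletCharacter ℂ r | ψ.IsPrimitive ∧ Bad r ψ} : ℝ) ≤
        ∑ r ∈ q.divisors, ε / 4 * (if h : r ≠ 0 then (haveI : NeZero r := ⟨h⟩; NN r) else 0) := by
      apply (Finset.sum_le_sum h2).trans
      apply Finset.sum_le_sum_of_subset_of_nonneg (Finset.filter_subset _ _)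
      intro r _ _
      apply mul_nonneg (by positivity)
      split_ifs with h
      · haveI : NeZero r := ⟨h⟩
        exact A3_NN_nonneg r
      · exact le_rfl
    rw [← Finset.mul_sum] at h3
    have h4 := hsum q
    have h5 : ε / 4 * ∑ r ∈ q.divisors, (if h : r ≠ 0 then (haveI : NeZero r := ⟨h⟩; NN r) else 0) ≤
        ε / 4 * (2 * (Nat.totient q : ℝ)) := by
      apply mul_le_mul_of_nonneg_left _ (by positivity)
      linarith
    have h6 : ε / 4 * (2 * (Nat.totient q : ℝ)) = ε / 2 * (Nat.totient q : ℝ) := by ring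
    linarith
  have hcard : (S.card : ℝ) = ((S.filter (fun χ => (χ.conductor : ℝ) < R)).card : ℝ) +
      ((S.filter (fun χ => ¬ (χ.conductor : ℝ) < R)).card : ℝ) := by
    have h1 := Finset.card_filter_add_card_filter_not (s := S) (fun χ => (χ.conductor : ℝ) < R)
    exact_mod_cast h1.symm
  rw [hcard]
  have h9 : 0 ≤ ε * (Nat.totient q : ℝ) := by positivity
  linarith

end Pool.Agent.SO
end

section

set_option autoImplicit false

namespace MP9cfc0a.SK

open Complex MeasureTheory Pool.Agent.EM Pool.Agent.SO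

/-- The statement for the primitive characters modulo `r`: all but `ε N(r)` of them satisfy the lower
bound for every `y` with `r ≤ y`, `log y ≤ (log r)^(2-ε)`. -/
def PrimBound : Prop :=
  ∀ ε : ℝ, 0 < ε → ∃ r₀ : ℕ, ∀ (r : ℕ) [NeZero r], r₀ ≤ r →
    ∀ T : Finset (DirichletCharacter ℂ r), (∀ χ ∈ T, χ ∈ prim r) →
    (∀ χ ∈ T, ∃ y : ℝ, (r : ℝ) ≤ y ∧ Real.log y ≤ (Real.log r) ^ (2 - ε) ∧
      En χ y < 1 / 2 * Real.log r * Real.log (y / r) - ε * Real.log r * Real.log y) →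
    (T.card : ℝ) ≤ ε * NN r

lemma F4_large (a K : ℝ) (ha : 0 < a) : ∃ q₀ : ℕ, ∀ q : ℕ, q₀ ≤ q → K ≤ (Real.log q) ^ a := by
  have h1 : Filter.Tendsto (fun q : ℕ => (Real.log q) ^ a) Filter.atTop Filter.atTop :=
    (tendsto_rpow_atTop ha).comp (Real.tendsto_log_atTop.comp tendsto_natCast_atTop_atTop)
  obtain ⟨q₀, hq₀⟩ := (h1.eventually_ge_atTop K).exists_forall_of_atTop
  exact ⟨q₀, hq₀⟩

/-- One character: from the primitive character to the character. -/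
lemma F4_one (ε δ : ℝ) (hε : 0 < ε) (hε1 : ε ≤ 1) (hδ : δ = ε / 8) (q : ℕ) [NeZero q] (hq : 3 ≤ q)
    (hL : 272 * 64 / ε ^ 2 ≤ (Real.log q) ^ (1 / 2 : ℝ))
    (hL2 : (1 - δ) ^ (-(2 - ε / 2)) ≤ (Real.log q) ^ (ε / 2))
    (χ : DirichletCharacter ℂ q) (hr : (q : ℝ) ^ (1 - δ) ≤ (χ.conductor : ℝ))
    (h : ∀ y : ℝ, (χ.conductor : ℝ) ≤ y → Real.log y ≤ (Real.log χ.conductor) ^ (2 - ε / 2) →
      1 / 2 * Real.log χ.conductor * Real.log (y / χ.conductor) -
        ε / 8 * Real.log χ.conductor * Real.log y ≤ En χ.primitiveCharacter y)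
    (y : ℝ) (hy1 : (q : ℝ) ≤ y) (hy2 : Real.log y ≤ (Real.log q) ^ (2 - ε)) :
    1 / 2 * Real.log q * Real.log (y / q) - ε * Real.log q * Real.log y ≤ En χ y := by
  have hq3 : (3 : ℝ) ≤ q := by exact_mod_cast hq
  have hq0 : (0 : ℝ) < q := by linarith
  set L := Real.log q with hLdef
  have hL1 : 1 ≤ L := by
    rw [hLdef, Real.le_log_iff_exp_le hq0]
    exact Real.exp_one_lt_d9.le.trans (by linarith)
  have hδ0 : 0 < δ := by rw [hδ]; positivity
  have hδ1 : δ ≤ 1 / 8 := by rw [hδ]; linarith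
  have hrq : (χ.conductor : ℝ) ≤ q := by
    exact_mod_cast Nat.le_of_dvd (Nat.pos_of_ne_zero (NeZero.ne q))
      (DirichletCharacter.conductor_dvd_level χ)
  set r : ℝ := (χ.conductor : ℝ) with hrdef
  have hr0 : 0 < r := lt_of_lt_of_le (Real.rpow_pos_of_pos hq0 _) hr
  have hlr : (1 - δ) * L ≤ Real.log r := by
    have := Real.log_le_log (Real.rpow_pos_of_pos hq0 _) hr
    rwa [Real.log_rpow hq0] at this
  have hlr0 : 0 < Real.log r := by nlinarith
  have hlrL : Real.log r ≤ L := Real.log_le_log hr0 hrq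
  have hy0 : 0 < y := by linarith
  have hLy : L ≤ Real.log y := Real.log_le_log hq0 hy1
  -- the range
  have hrange : Real.log y ≤ (Real.log r) ^ (2 - ε / 2) := by
    refine hy2.trans ?_
    have h1 : ((1 - δ) * L) ^ (2 - ε / 2) ≤ (Real.log r) ^ (2 - ε / 2) :=
      Real.rpow_le_rpow (by nlinarith) hlr (by linarith)
    refine le_trans ?_ h1
    rw [Real.mul_rpow (by linarith) (by linarith)]
    have h2 : (1 - δ) ^ (-(2 - ε / 2)) * (1 - δ) ^ (2 - ε / 2) = 1 := by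
      rw [← Real.rpow_add (by linarith)]
      simp
    have hp : 0 < (1 - δ) ^ (2 - ε / 2) := Real.rpow_pos_of_pos (by linarith) _
    have h3 : 1 ≤ (1 - δ) ^ (2 - ε / 2) * L ^ (ε / 2) := by
      calc (1 : ℝ) = (1 - δ) ^ (-(2 - ε / 2)) * (1 - δ) ^ (2 - ε / 2) := h2.symm
        _ ≤ L ^ (ε / 2) * (1 - δ) ^ (2 - ε / 2) := mul_le_mul_of_nonneg_right hL2 hp.le
        _ = _ := by ring
    have h4 : L ^ (2 - ε / 2) = L ^ (ε / 2) * L ^ (2 - ε) := by
      rw [← Real.rpow_add (by linarith)]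
      congr 1
      ring
    rw [h4]
    have hp2 : 0 < L ^ (2 - ε) := Real.rpow_pos_of_pos (by linarith) _
    nlinarith
  have h1 := h y (hrq.trans hy1) hrange
  have h2 := En_induced q hq χ y (ε / 8) (by positivity) (by linarith)
  -- `log (y / r) ≥ log (y / q) ≥ 0`
  have h3 : Real.log (y / q) = Real.log y - L := Real.log_div hy0.ne' hq0.ne'
  have h4 : Real.log (y / r) = Real.log y - Real.log r := Real.log_div hy0.ne' hr0.ne'
  set Ly := Real.log y with hLydef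
  set Lr := Real.log r with hLrdef
  rw [h4] at h1
  rw [h3]
  have h5 : 272 / (ε / 8) * L ^ (3 / 2 : ℝ) ≤ ε / 8 * L * Ly := by
    have h6 : L ^ (3 / 2 : ℝ) * L ^ (1 / 2 : ℝ) = L * L := by
      rw [← Real.rpow_add (by linarith)]
      norm_num
      ring
    have hp3 : 0 < L ^ (3 / 2 : ℝ) := Real.rpow_pos_of_pos (by linarith) _
    have h7 : 272 * 64 / ε ^ 2 * L ^ (3 / 2 : ℝ) ≤ L * L := by
      rw [← h6, mul_comm]
      exact mul_le_mul_of_nonneg_left hL hp3.le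
    have h8 : 272 / (ε / 8) * L ^ (3 / 2 : ℝ) = ε / 8 * (272 * 64 / ε ^ 2 * L ^ (3 / 2 : ℝ)) := by
      field_simp
      ring
    rw [h8]
    have h9 : ε / 8 * (272 * 64 / ε ^ 2 * L ^ (3 / 2 : ℝ)) ≤ ε / 8 * (L * L) :=
      mul_le_mul_of_nonneg_left h7 (by positivity)
    have h10 : ε / 8 * (L * L) ≤ ε / 8 * L * Ly := by
      have : 0 ≤ ε / 8 * L := by positivity
      nlinarith
    linarith
  have hEn0 := En_nonneg χ.primitiveCharacter y
  -- `(1 - ε/8) En χ* ≥ ...`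
  have h11 : (1 - ε / 8) * (1 / 2 * Lr * (Ly - Lr) - ε / 8 * Lr * Ly) ≤
      (1 - ε / 8) * En χ.primitiveCharacter y := mul_le_mul_of_nonneg_left h1 (by linarith)
  -- lower bound for the main term
  have hLyL : 0 ≤ Ly - L := by linarith
  have h12 : (1 - δ) * L * (Ly - L) ≤ Lr * (Ly - Lr) := by
    have h13 : Lr * (Ly - L) ≤ Lr * (Ly - Lr) := mul_le_mul_of_nonneg_left (by linarith) hlr0.le
    have h14 : (1 - δ) * L * (Ly - L) ≤ Lr * (Ly - L) := mul_le_mul_of_nonneg_right hlr hLyL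
    linarith
  have h15 : Lr * Ly ≤ L * Ly := mul_le_mul_of_nonneg_right hlrL (by linarith)
  have hL0 : 0 ≤ L := by linarith
  have hP : 0 ≤ L * Ly := mul_nonneg hL0 (by linarith)
  have hQ : 0 ≤ L * (Ly - L) := mul_nonneg hL0 hLyL
  have hQP : L * (Ly - L) ≤ L * Ly := mul_le_mul_of_nonneg_left (by linarith) hL0
  have h16 : (1 - ε / 8) * (1 / 2 * ((1 - δ) * L * (Ly - L)) - ε / 8 * (L * Ly)) ≤
      (1 - ε / 8) * (1 / 2 * Lr * (Ly - Lr) - ε / 8 * Lr * Ly) := by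
    refine mul_le_mul_of_nonneg_left ?_ (by linarith)
    have h18 : ε / 8 * (Lr * Ly) ≤ ε / 8 * (L * Ly) := mul_le_mul_of_nonneg_left h15 (by positivity)
    linarith
  have h17 : 1 / 2 * L * (Ly - L) - ε / 2 * (L * Ly) ≤
      (1 - ε / 8) * (1 / 2 * ((1 - δ) * L * (Ly - L)) - ε / 8 * (L * Ly)) := by
    rw [hδ]
    have e1 : (1 - ε / 8) * (1 / 2 * ((1 - ε / 8) * L * (Ly - L)) - ε / 8 * (L * Ly)) =
      1 / 2 * (1 - ε / 8) ^ 2 * (L * (Ly - L)) - (1 - ε / 8) * (ε / 8) * (L * Ly) := by ring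
    rw [e1]
    have e2 : 1 / 2 * L * (Ly - L) - 1 / 2 * (1 - ε / 8) ^ 2 * (L * (Ly - L)) ≤
        ε / 8 * (L * Ly) := by
      have : 1 / 2 * L * (Ly - L) - 1 / 2 * (1 - ε / 8) ^ 2 * (L * (Ly - L)) =
          (ε / 8 - ε ^ 2 / 128) * (L * (Ly - L)) := by ring
      rw [this]
      calc (ε / 8 - ε ^ 2 / 128) * (L * (Ly - L)) ≤ ε / 8 * (L * (Ly - L)) :=
            mul_le_mul_of_nonneg_right (by nlinarith [sq_nonneg ε]) hQ
        _ ≤ _ := mul_le_mul_of_nonneg_left hQP (by positivity)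
    have e3 : (1 - ε / 8) * (ε / 8) * (L * Ly) ≤ ε / 8 * (L * Ly) := by
      refine mul_le_mul_of_nonneg_right ?_ hP
      nlinarith [sq_nonneg ε]
    have e4 : 1 / 2 * L * (Ly - L) = 1 / 2 * (L * (Ly - L)) := by ring
    have e5 : 0 ≤ ε * (L * Ly) := mul_nonneg hε.le hP
    linarith
  have e6 : 0 ≤ ε * (L * Ly) := mul_nonneg hε.le hP
  have e7 : ε / 8 * L * Ly = ε / 8 * (L * Ly) := by ring
  have e8 : ε * L * Ly = ε * (L * Ly) := by ring
  linarith

/-- F4. The theorem for all characters modulo `q`, from the theorem for the primitive characters. -/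
theorem chars_of_prim (H : PrimBound) (ε : ℝ) (hε : 0 < ε) : ∃ q₀ : ℕ, 3 ≤ q₀ ∧
    ∀ (q : ℕ) [NeZero q], q₀ ≤ q → ∃ S : Finset (DirichletCharacter ℂ q),
      (1 - ε) * (q.totient : ℝ) ≤ (S.card : ℝ) ∧ (∀ χ ∈ S, χ ≠ 1) ∧
      ∀ χ ∈ S, ∀ y : ℝ, (q : ℝ) ≤ y → Real.log y ≤ (Real.log q) ^ (2 - ε) →
        1 / 2 * Real.log q * Real.log (y / q) - ε * Real.log q * Real.log y ≤ En χ y := by
  classical
  -- we may assume `ε ≤ 1`
  wlog hε1 : ε ≤ 1 generalizing ε with Hw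
  · obtain ⟨q₀, h3, h⟩ := Hw 1 one_pos le_rfl
    push Not at hε1
    refine ⟨q₀, h3, fun q _ hq => ?_⟩
    obtain ⟨S, h1, h2, h4⟩ := h q hq
    have hq3 : (3 : ℝ) ≤ q := by exact_mod_cast h3.trans hq
    have hφ : (0 : ℝ) ≤ (q.totient : ℝ) := Nat.cast_nonneg _
    have hL1 : 1 ≤ Real.log q := by
      rw [Real.le_log_iff_exp_le (by linarith)]
      exact Real.exp_one_lt_d9.le.trans (by linarith)
    refine ⟨S, ?_, h2, fun χ hχ y hy1 hy2 => ?_⟩
    · have : (1 - ε) * (q.totient : ℝ) ≤ (1 - 1) * (q.totient : ℝ) :=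
        mul_le_mul_of_nonneg_right (by linarith) hφ
      linarith
    · have hy3 : Real.log y ≤ (Real.log q) ^ ((2 : ℝ) - 1) :=
        hy2.trans (Real.rpow_le_rpow_of_exponent_le hL1 (by linarith))
      have h5 := h4 χ hχ y hy1 hy3
      have hLy : Real.log q ≤ Real.log y := Real.log_le_log (by linarith) hy1
      have : 0 ≤ Real.log q * Real.log y := by nlinarith
      nlinarith
  have hδ0 : 0 < ε / 8 := by positivity
  obtain ⟨r₀, hH⟩ := H (ε / 8) hδ0
  obtain ⟨C1, hC1, hsum⟩ := sum_NN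
  obtain ⟨C2, hC2, htot⟩ := totient_lower
  obtain ⟨q1, hq1⟩ := few_small (ε / 8) (ε / 4) hδ0 (by positivity)
  obtain ⟨q2, hq2⟩ := F4_large (1 / 2) (272 * 64 / ε ^ 2) (by norm_num)
  obtain ⟨q3, hq3⟩ := F4_large (ε / 2) ((1 - ε / 8) ^ (-(2 - ε / 2))) (by positivity)
  obtain ⟨q4, hq4⟩ := A3_large (1 - ε / 8) r₀ (by linarith)
  obtain ⟨q5, hq5⟩ := A3_large (8 / 100) (C1 * C2) (by norm_num)
  refine ⟨max (max (max q1 q2) (max q3 q4)) (max q5 3), by omega, fun q _ hq => ?_⟩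
  have hqq1 : q1 ≤ q := by omega
  have hqq2 : q2 ≤ q := by omega
  have hqq3 : q3 ≤ q := by omega
  have hqq4 : q4 ≤ q := by omega
  have hqq5 : q5 ≤ q := by omega
  have hq3' : 3 ≤ q := by omega
  have hq3r : (3 : ℝ) ≤ q := by exact_mod_cast hq3'
  have hq0 : (0 : ℝ) < q := by linarith
  have hq1r : (1 : ℝ) ≤ q := by linarith
  have hφ0 : (0 : ℝ) ≤ (Nat.totient q : ℝ) := Nat.cast_nonneg _
  set R : ℝ := (q : ℝ) ^ (1 - ε / 8) with hR
  have hR1 : 1 < R := Real.one_lt_rpow (by linarith) (by linarith)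
  let Bad : (r : ℕ) → DirichletCharacter ℂ r → Prop := fun r ψ => ∃ y : ℝ, (r : ℝ) ≤ y ∧
      Real.log y ≤ (Real.log r) ^ (2 - ε / 8) ∧
      En ψ y < 1 / 2 * Real.log r * Real.log (y / r) - ε / 8 * Real.log r * Real.log y
  let bad : DirichletCharacter ℂ q → Prop := fun χ =>
    (χ.conductor : ℝ) < R ∨ Bad χ.conductor χ.primitiveCharacter
  have hsmall : ((Finset.univ.filter (fun χ : DirichletCharacter ℂ q =>
      (χ.conductor : ℝ) < R)).card : ℝ) ≤ ε / 4 * (Nat.totient q : ℝ) :=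
    hq1 q hqq1 _ (fun χ hχ => (Finset.mem_filter.1 hχ).2)
  have hBq : C1 * (q : ℝ) ^ (91 / 100 : ℝ) ≤ (Nat.totient q : ℝ) := by
    have ht := htot q (by omega)
    have e3 := hq5 q hqq5
    have h1 : (q : ℝ) ^ (99 / 100 : ℝ) = (q : ℝ) ^ (8 / 100 : ℝ) * (q : ℝ) ^ (91 / 100 : ℝ) := by
      rw [← Real.rpow_add hq0]
      norm_num
    rw [h1] at ht
    have h2 : C1 * C2 * (q : ℝ) ^ (91 / 100 : ℝ) ≤ (q : ℝ) ^ (8 / 100 : ℝ) * (q : ℝ) ^ (91 / 100 : ℝ) :=
      mul_le_mul_of_nonneg_right e3 (by positivity)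
    have h3 : C2 * (C1 * (q : ℝ) ^ (91 / 100 : ℝ)) ≤ C2 * (Nat.totient q : ℝ) := by
      have h4 : C2 * (C1 * (q : ℝ) ^ (91 / 100 : ℝ)) = C1 * C2 * (q : ℝ) ^ (91 / 100 : ℝ) := by ring
      rw [h4]
      exact h2.trans ht
    exact le_of_mul_le_mul_left h3 (by linarith)
  have hlarge : ((Finset.univ.filter (fun χ : DirichletCharacter ℂ q =>
      R ≤ (χ.conductor : ℝ) ∧ Bad χ.conductor χ.primitiveCharacter)).card : ℝ) ≤
      ε / 4 * (Nat.totient q : ℝ) := by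
    have hcount := induced_count Bad q R (Finset.univ.filter (fun χ : DirichletCharacter ℂ q =>
      R ≤ (χ.conductor : ℝ) ∧ Bad χ.conductor χ.primitiveCharacter))
      (fun χ hχ => (Finset.mem_filter.1 hχ).2)
    have h1 : ((Finset.univ.filter (fun χ : DirichletCharacter ℂ q =>
      R ≤ (χ.conductor : ℝ) ∧ Bad χ.conductor χ.primitiveCharacter)).card : ℝ) ≤
        ∑ r ∈ q.divisors.filter (fun r : ℕ => R ≤ (r : ℝ)),
          (Set.ncard {ψ : DirichletCharacter ℂ r | ψ.IsPrimitive ∧ Bad r ψ} : ℝ) := by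
      exact_mod_cast hcount
    have h2 : ∀ r ∈ q.divisors.filter (fun r : ℕ => R ≤ (r : ℝ)),
        (Set.ncard {ψ : DirichletCharacter ℂ r | ψ.IsPrimitive ∧ Bad r ψ} : ℝ) ≤
          ε / 8 * (if h : r ≠ 0 then (haveI : NeZero r := ⟨h⟩; NN r) else 0) := by
      intro r hr
      have h3 := Finset.mem_filter.mp hr
      have hr0 : r ≠ 0 := by
        intro h0
        rw [h0] at h3
        have h4 := h3.2
        rw [Nat.cast_zero] at h4
        linarith
      have : NeZero r := ⟨hr0⟩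
      rw [dif_pos hr0]
      have hfin : ({ψ : DirichletCharacter ℂ r | ψ.IsPrimitive ∧ Bad r ψ}).Finite := Set.toFinite _
      rw [Set.ncard_eq_toFinset_card _ hfin]
      have hr₀r : r₀ ≤ r := by
        have h5 : (r₀ : ℝ) ≤ (r : ℝ) := (hq4 q hqq4).trans h3.2
        exact_mod_cast h5
      apply hH r hr₀r hfin.toFinset
      · intro ψ hψ
        rw [A3_mem_prim]
        exact ((Set.Finite.mem_toFinset hfin).mp hψ).1
      · intro ψ hψ
        exact ((Set.Finite.mem_toFinset hfin).mp hψ).2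
    have h3 : ∑ r ∈ q.divisors.filter (fun r : ℕ => R ≤ (r : ℝ)),
          (Set.ncard {ψ : DirichletCharacter ℂ r | ψ.IsPrimitive ∧ Bad r ψ} : ℝ) ≤
        ∑ r ∈ q.divisors, ε / 8 * (if h : r ≠ 0 then (haveI : NeZero r := ⟨h⟩; NN r) else 0) := by
      apply (Finset.sum_le_sum h2).trans
      apply Finset.sum_le_sum_of_subset_of_nonneg (Finset.filter_subset _ _)
      intro r _ _
      apply mul_nonneg (by positivity)
      split_ifs with h
      · have : NeZero r := ⟨h⟩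
        exact A3_NN_nonneg r
      · exact le_rfl
    rw [← Finset.mul_sum] at h3
    have h4 := hsum q
    have h5 : ε / 8 * ∑ r ∈ q.divisors, (if h : r ≠ 0 then (haveI : NeZero r := ⟨h⟩; NN r) else 0) ≤
        ε / 8 * (2 * (Nat.totient q : ℝ)) := by
      apply mul_le_mul_of_nonneg_left _ (by positivity)
      linarith
    have h6 : ε / 8 * (2 * (Nat.totient q : ℝ)) = ε / 4 * (Nat.totient q : ℝ) := by ring
    linarith
  have hbadcard : ((Finset.univ.filter bad).card : ℝ) ≤ ε * (Nat.totient q : ℝ) := by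
    have hsub : Finset.univ.filter bad ⊆ (Finset.univ.filter (fun χ : DirichletCharacter ℂ q =>
      (χ.conductor : ℝ) < R)) ∪ (Finset.univ.filter (fun χ : DirichletCharacter ℂ q =>
      R ≤ (χ.conductor : ℝ) ∧ Bad χ.conductor χ.primitiveCharacter)) := by
      intro χ hχ
      rw [Finset.mem_union, Finset.mem_filter, Finset.mem_filter]
      have h1 : bad χ := (Finset.mem_filter.1 hχ).2
      by_cases h2 : (χ.conductor : ℝ) < R
      · exact Or.inl ⟨Finset.mem_univ _, h2⟩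
      · refine Or.inr ⟨Finset.mem_univ _, not_lt.1 h2, ?_⟩
        rcases h1 with h3 | h3
        · exact absurd h3 h2
        · exact h3
    have h1 := (Finset.card_le_card hsub).trans (Finset.card_union_le _ _)
    have h2 : ((Finset.univ.filter bad).card : ℝ) ≤
        ((Finset.univ.filter (fun χ : DirichletCharacter ℂ q => (χ.conductor : ℝ) < R)).card : ℝ) +
        ((Finset.univ.filter (fun χ : DirichletCharacter ℂ q =>
          R ≤ (χ.conductor : ℝ) ∧ Bad χ.conductor χ.primitiveCharacter)).card : ℝ) := by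
      exact_mod_cast h1
    have h3 : 0 ≤ ε * (Nat.totient q : ℝ) := by positivity
    linarith
  refine ⟨Finset.univ.filter (fun χ => ¬ bad χ), ?_, ?_, ?_⟩
  · have h3 : (Finset.univ.filter bad).card + (Finset.univ.filter (fun χ => ¬ bad χ)).card =
        q.totient := by
      rw [Finset.card_filter_add_card_filter_not, Finset.card_univ, ← Nat.card_eq_fintype_card,
        DirichletCharacter.card_eq_totient_of_hasEnoughRootsOfUnity]
    have h4 : ((Finset.univ.filter bad).card : ℝ) +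
        ((Finset.univ.filter (fun χ => ¬ bad χ)).card : ℝ) = (q.totient : ℝ) := by
      exact_mod_cast h3
    linarith
  · intro χ hχ h1
    apply (Finset.mem_filter.1 hχ).2
    left
    rw [h1, DirichletCharacter.conductor_one, Nat.cast_one]
    exact hR1
  · intro χ hχ y hy1 hy2
    have h2 := (Finset.mem_filter.1 hχ).2
    simp only [bad, Bad, not_or, not_lt, not_exists, not_and] at h2
    obtain ⟨h3, h4⟩ := h2
    refine F4_one ε (ε / 8) hε hε1 rfl q hq3' (hq2 q hqq2) (hq3 q hqq3) χ h3 ?_ y hy1 hy2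
    intro y' hy'1 hy'2
    refine h4 y' hy'1 ?_
    have hc1 : (1 : ℝ) ≤ χ.conductor := hR1.le.trans h3
    -- `(log r)^(2 - ε/2) ≤ (log r)^(2 - ε/8)` needs `log r ≥ 1`
    have hlogr : 1 ≤ Real.log χ.conductor := by
      have h5 : (1 - ε / 8) * Real.log q ≤ Real.log χ.conductor := by
        have := Real.log_le_log (Real.rpow_pos_of_pos hq0 _) h3
        rwa [Real.log_rpow hq0] at this
      have h6 := hq2 q hqq2
      have h7 : (16 : ℝ) ≤ (Real.log q) ^ (1 / 2 : ℝ) := by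
        refine le_trans ?_ h6
        rw [le_div_iff₀ (by positivity)]
        nlinarith
      have hL1 : 1 ≤ Real.log q := by
        rw [Real.le_log_iff_exp_le (by linarith)]
        exact Real.exp_one_lt_d9.le.trans (by linarith)
      have h8 : (Real.log q) ^ (1 / 2 : ℝ) ≤ Real.log q := by
        calc (Real.log q) ^ (1 / 2 : ℝ) ≤ (Real.log q) ^ (1 : ℝ) :=
              Real.rpow_le_rpow_of_exponent_le hL1 (by norm_num)
          _ = _ := Real.rpow_one _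
      nlinarith
    exact hy'2.trans (Real.rpow_le_rpow_of_exponent_le hlogr (by linarith))

/-- F5. The theorem for the variance. -/
theorem variance_of_prim (H : PrimBound) (ε : ℝ) (hε : 0 < ε) : ∃ q₀ : ℕ, 3 ≤ q₀ ∧
    ∀ q : ℕ, q₀ ≤ q → ∀ y : ℝ, (q : ℝ) ≤ y → Real.log y ≤ (Real.log q) ^ (2 - ε) →
      1 / 2 * Real.log q * Real.log (y / q) - ε * Real.log q * Real.log y ≤
        ∫ x in Set.Ioc 1 y, (1 - Real.log x / Real.log y) * (V x q / x ^ 2) := by
  obtain ⟨q₀, hq₀, h₁⟩ := chars_of_prim H (ε / 2) (by positivity)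
  refine ⟨q₀, hq₀, ?_⟩
  intro q hq y hy1 hy2
  have hq3 : 3 ≤ q := hq₀.trans hq
  have : NeZero q := ⟨by omega⟩
  have hq3r : (3 : ℝ) ≤ q := by exact_mod_cast hq3
  have hy0 : 1 < y := by linarith
  obtain ⟨S, hS1, hS2, hS3⟩ := h₁ q hq
  have hφ : (0 : ℝ) < (q.totient : ℝ) := by
    exact_mod_cast Nat.totient_pos.2 (by omega)
  have hL1 : 1 ≤ Real.log q := by
    rw [Real.le_log_iff_exp_le (by linarith)]
    exact Real.exp_one_lt_d9.le.trans (by linarith)
  have hLy : Real.log q ≤ Real.log y := Real.log_le_log (by linarith) hy1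
  have iV := integrable_weight _ y (integrable_V_window q 1 y le_rfl)
  have iχ : ∀ χ ∈ S, IntegrableOn (fun x => (1 - Real.log x / Real.log y) *
      (‖psiC χ x‖ ^ 2 / x ^ 2)) (Set.Ioc 1 y) := fun χ _ =>
    integrable_weight _ y (integrable_psiC_sq_window χ 1 y le_rfl)
  have hup : ∑ χ ∈ S, En χ y ≤
      (q.totient : ℝ) * ∫ x in Set.Ioc 1 y, (1 - Real.log x / Real.log y) * (V x q / x ^ 2) := by
    unfold En
    rw [← integral_finsetSum _ iχ, ← integral_const_mul]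
    refine setIntegral_mono_on (integrable_finsetSum _ iχ) (iV.const_mul _) measurableSet_Ioc
      fun x hx => ?_
    have hw := weight_mem x y hx
    have hx0 : 0 < x := by linarith [hx.1]
    have h2 := variance_upper q x S hS2
    rw [← Finset.mul_sum, ← Finset.sum_div]
    calc (1 - Real.log x / Real.log y) * ((∑ χ ∈ S, ‖psiC χ x‖ ^ 2) / x ^ 2)
        ≤ (1 - Real.log x / Real.log y) * (((q.totient : ℝ) * V x q) / x ^ 2) := by
          refine mul_le_mul_of_nonneg_left ?_ hw.1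
          exact div_le_div_of_nonneg_right h2 (by positivity)
      _ = _ := by ring
  have hVnn : 0 ≤ ∫ x in Set.Ioc 1 y, (1 - Real.log x / Real.log y) * (V x q / x ^ 2) := by
    refine setIntegral_nonneg measurableSet_Ioc fun x hx => ?_
    exact mul_nonneg (weight_mem x y hx).1 (div_nonneg (V_nonneg x q) (by positivity))
  set Λ := 1 / 2 * Real.log q * Real.log (y / q) - ε / 2 * Real.log q * Real.log y with hΛ
  have hlow : (S.card : ℝ) * Λ ≤ ∑ χ ∈ S, En χ y := by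
    rw [← nsmul_eq_mul]
    refine Finset.card_nsmul_le_sum _ _ _ (fun χ hχ => hS3 χ hχ y hy1 ?_)
    exact hy2.trans (Real.rpow_le_rpow_of_exponent_le hL1 (by linarith))
  have h3 : Real.log (y / q) = Real.log y - Real.log q :=
    Real.log_div (by linarith) (by linarith)
  have hP : 0 ≤ Real.log q * Real.log y := by nlinarith
  by_cases hneg : Λ ≤ 0
  · have : 1 / 2 * Real.log q * Real.log (y / q) - ε * Real.log q * Real.log y ≤ Λ := by
      rw [hΛ]
      nlinarith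
    linarith
  · push Not at hneg
    have h4 : (1 - ε / 2) * (q.totient : ℝ) * Λ ≤ (S.card : ℝ) * Λ :=
      mul_le_mul_of_nonneg_right hS1 hneg.le
    have h5 : (q.totient : ℝ) * ((1 - ε / 2) * Λ) ≤ (q.totient : ℝ) *
        ∫ x in Set.Ioc 1 y, (1 - Real.log x / Real.log y) * (V x q / x ^ 2) := by
      calc (q.totient : ℝ) * ((1 - ε / 2) * Λ) = (1 - ε / 2) * (q.totient : ℝ) * Λ := by ring
        _ ≤ _ := h4.trans (hlow.trans hup)
    have h6 := le_of_mul_le_mul_left h5 hφ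
    have h7 : Λ ≤ Real.log q * Real.log y := by
      rw [hΛ, h3]
      nlinarith
    have h8 : ε / 2 * Λ ≤ ε / 2 * (Real.log q * Real.log y) :=
      mul_le_mul_of_nonneg_left h7 (by positivity)
    have h9 : 1 / 2 * Real.log q * Real.log (y / q) - ε * Real.log q * Real.log y =
        Λ - ε / 2 * (Real.log q * Real.log y) := by
      rw [hΛ]
      ring
    rw [h9]
    linarith

end MP9cfc0a.SK
end

section

set_option autoImplicit false

/-! Task FD: from the primitive characters to all characters modulo `q`, counting part. -/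

namespace Pool.Agent.SD

open Complex MeasureTheory Pool.Agent.EM Pool.Agent.SO MP9cfc0a.SK

/-- FD. PROOF. This is the counting part of `chars_of_prim` in SK/F4.lean (copy it): `few_small δ (κ/4)` for the characters of conductor
`< q^(1-δ)`, `induced_count Bad q (q^(1-δ))` for the others, `sum_NN`, `totient_lower`, `A3_large`. `S` is the set of the characters with
conductor `≥ q^(1-δ)` whose primitive character is not `Bad`. -/
theorem transfer (Bad : (r : ℕ) → DirichletCharacter ℂ r → Prop) (κ δ : ℝ) (hκ : 0 < κ) (hδ : 0 < δ) (hδ1 : δ ≤ 1 / 2)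
    (H : ∃ r₀ : ℕ, ∀ (r : ℕ) [NeZero r], r₀ ≤ r → ∀ S : Finset (DirichletCharacter ℂ r), S ⊆ prim r →
      (∀ χ ∈ S, Bad r χ) → (S.card : ℝ) ≤ κ / 4 * NN r) :
    ∃ q₀ : ℕ, 3 ≤ q₀ ∧ ∀ (q : ℕ) [NeZero q], q₀ ≤ q → ∃ S : Finset (DirichletCharacter ℂ q),
      (1 - κ) * (q.totient : ℝ) ≤ (S.card : ℝ) ∧ (∀ χ ∈ S, χ ≠ 1) ∧
      ∀ χ ∈ S, (q : ℝ) ^ (1 - δ) ≤ (χ.conductor : ℝ) ∧ ¬ Bad χ.conductor χ.primitiveCharacter := by
  classical
  obtain ⟨r₀, hH⟩ := H
  obtain ⟨C1, hC1, hsum⟩ := sum_NN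
  obtain ⟨C2, hC2, htot⟩ := totient_lower
  obtain ⟨q1, hq1⟩ := few_small δ (κ / 4) hδ (by positivity)
  obtain ⟨q4, hq4⟩ := A3_large (1 - δ) r₀ (by linarith)
  obtain ⟨q5, hq5⟩ := A3_large (8 / 100) (C1 * C2) (by norm_num)
  refine ⟨max (max q1 q4) (max q5 3), by omega, fun q _ hq => ?_⟩
  have hqq1 : q1 ≤ q := by omega
  have hqq4 : q4 ≤ q := by omega
  have hqq5 : q5 ≤ q := by omega
  have hq3' : 3 ≤ q := by omega
  have hq3r : (3 : ℝ) ≤ q := by exact_mod_cast hq3'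
  have hq0 : (0 : ℝ) < q := by linarith
  have hq1r : (1 : ℝ) ≤ q := by linarith
  have hφ0 : (0 : ℝ) ≤ (Nat.totient q : ℝ) := Nat.cast_nonneg _
  set R : ℝ := (q : ℝ) ^ (1 - δ) with hR
  have hR1 : 1 < R := Real.one_lt_rpow (by linarith) (by linarith)
  let bad : DirichletCharacter ℂ q → Prop := fun χ =>
    (χ.conductor : ℝ) < R ∨ Bad χ.conductor χ.primitiveCharacter
  have hsmall : ((Finset.univ.filter (fun χ : DirichletCharacter ℂ q =>
      (χ.conductor : ℝ) < R)).card : ℝ) ≤ κ / 4 * (Nat.totient q : ℝ) :=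
    hq1 q hqq1 _ (fun χ hχ => (Finset.mem_filter.1 hχ).2)
  have hBq : C1 * (q : ℝ) ^ (91 / 100 : ℝ) ≤ (Nat.totient q : ℝ) := by
    have ht := htot q (by omega)
    have e3 := hq5 q hqq5
    have h1 : (q : ℝ) ^ (99 / 100 : ℝ) = (q : ℝ) ^ (8 / 100 : ℝ) * (q : ℝ) ^ (91 / 100 : ℝ) := by
      rw [← Real.rpow_add hq0]
      norm_num
    rw [h1] at ht
    have h2 : C1 * C2 * (q : ℝ) ^ (91 / 100 : ℝ) ≤ (q : ℝ) ^ (8 / 100 : ℝ) * (q : ℝ) ^ (91 / 100 : ℝ) :=
      mul_le_mul_of_nonneg_right e3 (by positivity)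
    have h3 : C2 * (C1 * (q : ℝ) ^ (91 / 100 : ℝ)) ≤ C2 * (Nat.totient q : ℝ) := by
      have h4 : C2 * (C1 * (q : ℝ) ^ (91 / 100 : ℝ)) = C1 * C2 * (q : ℝ) ^ (91 / 100 : ℝ) := by ring
      rw [h4]
      exact h2.trans ht
    exact le_of_mul_le_mul_left h3 (by linarith)
  have hlarge : ((Finset.univ.filter (fun χ : DirichletCharacter ℂ q =>
      R ≤ (χ.conductor : ℝ) ∧ Bad χ.conductor χ.primitiveCharacter)).card : ℝ) ≤
      κ / 2 * (Nat.totient q : ℝ) := by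
    have hcount := induced_count Bad q R (Finset.univ.filter (fun χ : DirichletCharacter ℂ q =>
      R ≤ (χ.conductor : ℝ) ∧ Bad χ.conductor χ.primitiveCharacter))
      (fun χ hχ => (Finset.mem_filter.1 hχ).2)
    have h1 : ((Finset.univ.filter (fun χ : DirichletCharacter ℂ q =>
      R ≤ (χ.conductor : ℝ) ∧ Bad χ.conductor χ.primitiveCharacter)).card : ℝ) ≤
        ∑ r ∈ q.divisors.filter (fun r : ℕ => R ≤ (r : ℝ)),
          (Set.ncard {ψ : DirichletCharacter ℂ r | ψ.IsPrimitive ∧ Bad r ψ} : ℝ) := by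
      exact_mod_cast hcount
    have h2 : ∀ r ∈ q.divisors.filter (fun r : ℕ => R ≤ (r : ℝ)),
        (Set.ncard {ψ : DirichletCharacter ℂ r | ψ.IsPrimitive ∧ Bad r ψ} : ℝ) ≤
          κ / 4 * (if h : r ≠ 0 then (haveI : NeZero r := ⟨h⟩; NN r) else 0) := by
      intro r hr
      have h3 := Finset.mem_filter.mp hr
      have hr0 : r ≠ 0 := by
        intro h0
        rw [h0] at h3
        have h4 := h3.2
        rw [Nat.cast_zero] at h4
        linarith
      have : NeZero r := ⟨hr0⟩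
      rw [dif_pos hr0]
      have hfin : ({ψ : DirichletCharacter ℂ r | ψ.IsPrimitive ∧ Bad r ψ}).Finite := Set.toFinite _
      rw [Set.ncard_eq_toFinset_card _ hfin]
      have hr₀r : r₀ ≤ r := by
        have h5 : (r₀ : ℝ) ≤ (r : ℝ) := (hq4 q hqq4).trans h3.2
        exact_mod_cast h5
      apply hH r hr₀r hfin.toFinset
      · intro ψ hψ
        rw [A3_mem_prim]
        exact ((Set.Finite.mem_toFinset hfin).mp hψ).1
      · intro ψ hψ
        exact ((Set.Finite.mem_toFinset hfin).mp hψ).2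
    have h3 : ∑ r ∈ q.divisors.filter (fun r : ℕ => R ≤ (r : ℝ)),
          (Set.ncard {ψ : DirichletCharacter ℂ r | ψ.IsPrimitive ∧ Bad r ψ} : ℝ) ≤
        ∑ r ∈ q.divisors, κ / 4 * (if h : r ≠ 0 then (haveI : NeZero r := ⟨h⟩; NN r) else 0) := by
      apply (Finset.sum_le_sum h2).trans
      apply Finset.sum_le_sum_of_subset_of_nonneg (Finset.filter_subset _ _)
      intro r _ _
      apply mul_nonneg (by positivity)
      split_ifs with h
      · have : NeZero r := ⟨h⟩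
        exact A3_NN_nonneg r
      · exact le_rfl
    rw [← Finset.mul_sum] at h3
    have h4 := hsum q
    have h5 : κ / 4 * ∑ r ∈ q.divisors, (if h : r ≠ 0 then (haveI : NeZero r := ⟨h⟩; NN r) else 0) ≤
        κ / 4 * (2 * (Nat.totient q : ℝ)) := by
      apply mul_le_mul_of_nonneg_left _ (by positivity)
      linarith
    have h6 : κ / 4 * (2 * (Nat.totient q : ℝ)) = κ / 2 * (Nat.totient q : ℝ) := by ring
    linarith
  have hbadcard : ((Finset.univ.filter bad).card : ℝ) ≤ κ * (Nat.totient q : ℝ) := by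
    have hsub : Finset.univ.filter bad ⊆ (Finset.univ.filter (fun χ : DirichletCharacter ℂ q =>
      (χ.conductor : ℝ) < R)) ∪ (Finset.univ.filter (fun χ : DirichletCharacter ℂ q =>
      R ≤ (χ.conductor : ℝ) ∧ Bad χ.conductor χ.primitiveCharacter)) := by
      intro χ hχ
      rw [Finset.mem_union, Finset.mem_filter, Finset.mem_filter]
      have h1 : bad χ := (Finset.mem_filter.1 hχ).2
      by_cases h2 : (χ.conductor : ℝ) < R
      · exact Or.inl ⟨Finset.mem_univ _, h2⟩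
      · refine Or.inr ⟨Finset.mem_univ _, not_lt.1 h2, ?_⟩
        rcases h1 with h3 | h3
        · exact absurd h3 h2
        · exact h3
    have h1 := (Finset.card_le_card hsub).trans (Finset.card_union_le _ _)
    have h2 : ((Finset.univ.filter bad).card : ℝ) ≤
        ((Finset.univ.filter (fun χ : DirichletCharacter ℂ q => (χ.conductor : ℝ) < R)).card : ℝ) +
        ((Finset.univ.filter (fun χ : DirichletCharacter ℂ q =>
          R ≤ (χ.conductor : ℝ) ∧ Bad χ.conductor χ.primitiveCharacter)).card : ℝ) := by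
      exact_mod_cast h1
    have h3 : 0 ≤ κ * (Nat.totient q : ℝ) := by positivity
    linarith
  refine ⟨Finset.univ.filter (fun χ => ¬ bad χ), ?_, ?_, ?_⟩
  · have h3 : (Finset.univ.filter bad).card + (Finset.univ.filter (fun χ => ¬ bad χ)).card =
        q.totient := by
      rw [Finset.card_filter_add_card_filter_not, Finset.card_univ, ← Nat.card_eq_fintype_card,
        DirichletCharacter.card_eq_totient_of_hasEnoughRootsOfUnity]
    have h4 : ((Finset.univ.filter bad).card : ℝ) +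
        ((Finset.univ.filter (fun χ => ¬ bad χ)).card : ℝ) = (q.totient : ℝ) := by
      exact_mod_cast h3
    linarith
  · intro χ hχ h1
    apply (Finset.mem_filter.1 hχ).2
    left
    rw [h1, DirichletCharacter.conductor_one, Nat.cast_one]
    exact hR1
  · intro χ hχ
    have h2 := (Finset.mem_filter.1 hχ).2
    simp only [bad, not_or, not_lt] at h2
    exact h2

end Pool.Agent.SD
end

section

set_option autoImplicit false

namespace Pool.Agent.SO

open Complex MeasureTheory Pool.Agent.EM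

/-- A4b. The theorem for characters (uses A3 `bad_count`, A4a).

PROOF. `c₁, q₁` from `bad_count ε (20/9 B)`, `q₀ ≥ q₁` with `128 q^(-1/2) ≤ c₁/20`, `c = c₁/20`. `S` is the
(classical) filter of the characters which do not satisfy the alternative of `bad_count`; the
complement has at most `ε φ(q)` elements and there are `φ(q)` characters
(`DirichletCharacter.card_eq_totient_of_hasEnoughRootsOfUnity`). `χ ∈ S` has conductor
`≥ q^(9/20) > 1`, so `χ ≠ 1` (`DirichletCharacter.conductor_one`), and `one_char` applies. -/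
theorem sharp_order (ε B : ℝ) (hε : 0 < ε) (hB : 1 ≤ B) : ∃ c : ℝ, 0 < c ∧ ∃ q₀ : ℕ, 3 ≤ q₀ ∧
    ∀ (q : ℕ) [NeZero q], q₀ ≤ q → ∃ S : Finset (DirichletCharacter ℂ q),
      (1 - ε) * (q.totient : ℝ) ≤ (S.card : ℝ) ∧ (∀ χ ∈ S, χ ≠ 1) ∧
      ∀ χ ∈ S, ∀ X : ℝ, (q : ℝ) ≤ X → X ≤ (q : ℝ) ^ B →
        c * (Real.log q) ^ 2 ≤ ∫ x in Set.Ioc X (X * (q : ℝ) ^ 11), ‖psiC χ x‖ ^ 2 / x ^ 2 := by
  classical
  obtain ⟨c₁, hc₁, q₁, hq₁, h₁⟩ := bad_count ε (20 / 9 * B) hε (by linarith)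
  refine ⟨c₁ / 20, by linarith, max q₁ ⌈(2560 / c₁) ^ 2⌉₊, hq₁.trans (le_max_left _ _), ?_⟩
  intro q _ hq
  have hqq₁ : q₁ ≤ q := (le_max_left _ _).trans hq
  have hq3 : 3 ≤ q := hq₁.trans hqq₁
  have hq1 : (1 : ℝ) < q := by exact_mod_cast (by omega : 1 < q)
  have hq0 : (0 : ℝ) < q := by linarith
  have hqc : (2560 / c₁) ^ 2 ≤ (q : ℝ) := by
    refine (Nat.le_ceil _).trans ?_
    exact_mod_cast (le_max_right q₁ _).trans hq
  have hsmall : 128 * (q : ℝ) ^ (-(1 / 2) : ℝ) ≤ c₁ / 20 := by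
    have h2 : 2560 / c₁ ≤ (q : ℝ) ^ (1 / 2 : ℝ) := by
      rw [← Real.sqrt_eq_rpow]
      exact Real.le_sqrt_of_sq_le hqc
    have h3 : (0 : ℝ) < (q : ℝ) ^ (1 / 2 : ℝ) := by positivity
    rw [Real.rpow_neg hq0.le, ← div_eq_mul_inv, div_le_iff₀ h3]
    calc (128 : ℝ) = c₁ / 20 * (2560 / c₁) := by
          field_simp
          norm_num
      _ ≤ c₁ / 20 * (q : ℝ) ^ (1 / 2 : ℝ) := mul_le_mul_of_nonneg_left h2 (by positivity)
  set bad : DirichletCharacter ℂ q → Prop := fun χ =>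
    (χ.conductor : ℝ) < (q : ℝ) ^ (9 / 20 : ℝ) ∨ ∃ U : ℝ, 0 ≤ U ∧ U ≤ 20 / 9 * B ∧
      ∫ x in Set.Ioc ((χ.conductor : ℝ) ^ U) ((χ.conductor : ℝ) ^ (U + 11)),
        ‖psiC χ.primitiveCharacter x‖ ^ 2 / x ^ 2 < c₁ * (Real.log χ.conductor) ^ 2 with hbad
  refine ⟨Finset.univ.filter (fun χ => ¬ bad χ), ?_, ?_, ?_⟩
  · have h2 := h₁ q hqq₁ (Finset.univ.filter bad) (fun χ hχ => (Finset.mem_filter.1 hχ).2)
    have h3 : (Finset.univ.filter bad).card + (Finset.univ.filter (fun χ => ¬ bad χ)).card =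
        q.totient := by
      rw [Finset.card_filter_add_card_filter_not, Finset.card_univ, ← Nat.card_eq_fintype_card,
        DirichletCharacter.card_eq_totient_of_hasEnoughRootsOfUnity]
    have h4 : ((Finset.univ.filter bad).card : ℝ) +
        ((Finset.univ.filter (fun χ => ¬ bad χ)).card : ℝ) = (q.totient : ℝ) := by
      exact_mod_cast h3
    linarith
  · intro χ hχ h1
    have h2 := (Finset.mem_filter.1 hχ).2
    apply h2
    left
    rw [h1, DirichletCharacter.conductor_one, Nat.cast_one]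
    exact Real.one_lt_rpow hq1 (by norm_num)
  · intro χ hχ X hX1 hX2
    have h2 := (Finset.mem_filter.1 hχ).2
    simp only [hbad] at h2
    push Not at h2
    exact one_char B c₁ (by linarith) hc₁ q hq3 hsmall χ h2.1 (fun U hU0 hU => h2.2 U hU0 hU)
      X hX1 hX2

end Pool.Agent.SO
end

section

set_option autoImplicit false

namespace Pool.Agent.SO

open Complex MeasureTheory Pool.Agent.EM

/-- A4c. The theorem for the variance (uses A4b, `EM.variance_upper`, `EM.integrable_V_window`).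

PROOF. `c₁, q₀` from `sharp_order (1/2) B`; `c = c₁/2`. For `x > 0`,
`∑_{χ ∈ S} ‖psiC χ x‖² ≤ φ(q) V x q` (`variance_upper`), divide by `x²`, integrate
(`setIntegral_mono_on`, `integral_finset_sum`):
`φ(q) ∫ V/x² ≥ ∑_{χ ∈ S} ∫ ‖psiC‖²/x² ≥ #S c₁ (log q)² ≥ (φ(q)/2) c₁ (log q)²`. -/
theorem variance_sharp (B : ℝ) (hB : 1 ≤ B) : ∃ c : ℝ, 0 < c ∧ ∃ q₀ : ℕ, 3 ≤ q₀ ∧
    ∀ q : ℕ, q₀ ≤ q → ∀ X : ℝ, (q : ℝ) ≤ X → X ≤ (q : ℝ) ^ B →
      c * (Real.log q) ^ 2 ≤ ∫ x in Set.Ioc X (X * (q : ℝ) ^ 11), V x q / x ^ 2 := by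
  obtain ⟨c₁, hc₁, q₀, hq₀, h₁⟩ := sharp_order (1 / 2) B (by norm_num) hB
  refine ⟨c₁ / 2, by linarith, q₀, hq₀, ?_⟩
  intro q hq X hX1 hX2
  have hq3 : 3 ≤ q := hq₀.trans hq
  have : NeZero q := ⟨by omega⟩
  have hq1 : (1 : ℝ) < q := by exact_mod_cast (by omega : 1 < q)
  have hX : 1 ≤ X := by linarith
  obtain ⟨S, hS1, hS2, hS3⟩ := h₁ q hq
  have hφ : (0 : ℝ) < (q.totient : ℝ) := by
    exact_mod_cast Nat.totient_pos.2 (by omega)
  set Y := X * (q : ℝ) ^ 11 with hY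
  have hup : ∑ χ ∈ S, ∫ x in Set.Ioc X Y, ‖psiC χ x‖ ^ 2 / x ^ 2 ≤
      (q.totient : ℝ) * ∫ x in Set.Ioc X Y, V x q / x ^ 2 := by
    rw [← integral_finsetSum _ (fun χ _ => integrable_psiC_sq_window χ X Y hX),
      ← integral_const_mul]
    refine setIntegral_mono_on (integrable_finsetSum _ fun χ _ =>
        integrable_psiC_sq_window χ X Y hX)
      ((integrable_V_window q X Y hX).const_mul _) measurableSet_Ioc fun x hx => ?_
    have hx1 : 1 ≤ x := by linarith [hx.1]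
    have h2 := variance_upper q x S hS2
    rw [← Finset.sum_div, ← mul_div_assoc]
    exact div_le_div_of_nonneg_right h2 (by positivity)
  have hlow : (S.card : ℝ) * (c₁ * (Real.log q) ^ 2) ≤
      ∑ χ ∈ S, ∫ x in Set.Ioc X Y, ‖psiC χ x‖ ^ 2 / x ^ 2 := by
    rw [← nsmul_eq_mul]
    exact Finset.card_nsmul_le_sum _ _ _ (fun χ hχ => hS3 χ hχ X hX1 hX2)
  have hL : 0 ≤ c₁ * (Real.log q) ^ 2 := by positivity
  have h3 : (1 - 1 / 2) * (q.totient : ℝ) * (c₁ * (Real.log q) ^ 2) ≤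
      (S.card : ℝ) * (c₁ * (Real.log q) ^ 2) := mul_le_mul_of_nonneg_right hS1 hL
  have h4 : (q.totient : ℝ) * (c₁ / 2 * (Real.log q) ^ 2) ≤
      (q.totient : ℝ) * ∫ x in Set.Ioc X Y, V x q / x ^ 2 := by
    calc (q.totient : ℝ) * (c₁ / 2 * (Real.log q) ^ 2) =
          (1 - 1 / 2) * (q.totient : ℝ) * (c₁ * (Real.log q) ^ 2) := by ring
      _ ≤ _ := h3.trans (hlow.trans hup)
  exact le_of_mul_le_mul_left h4 hφ

end Pool.Agent.SO
end

section

set_option autoImplicit false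

namespace Pool.Agent.SK

open Complex MeasureTheory
open Pool.Agent.EM (psiC V psi)
open Pool.Agent.SO (prim NN)
open MP9cfc0a.SK

/-- Substitution `x = e^t`. -/
theorem DD_eq_En {q : ℕ} (χ : DirichletCharacter ℂ q) (Y : ℝ) (hY : 0 ≤ Y) :
    DD χ Y = En χ (Real.exp Y) := by
  have h1 : Real.exp '' Set.Ioc 0 Y = Set.Ioc 1 (Real.exp Y) := by
    ext x
    constructor
    · rintro ⟨t, ht, rfl⟩
      exact ⟨Real.one_lt_exp_iff.2 ht.1, Real.exp_le_exp.2 ht.2⟩
    · intro hx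
      have hx0 : 0 < x := by linarith [hx.1]
      refine ⟨Real.log x, ⟨Real.log_pos hx.1, ?_⟩, Real.exp_log hx0⟩
      rw [Real.log_le_iff_le_exp hx0]
      exact hx.2
  have h2 := integral_image_eq_integral_abs_deriv_smul (s := Set.Ioc 0 Y) (f := Real.exp)
    (f' := Real.exp) measurableSet_Ioc (fun x _ => (Real.hasDerivAt_exp x).hasDerivWithinAt)
    Real.exp_injective.injOn (fun x => (1 - Real.log x / Real.log (Real.exp Y)) *
      (‖psiC χ x‖ ^ 2 / x ^ 2))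
  rw [h1] at h2
  unfold DD En
  rw [h2, intervalIntegral.integral_of_le hY]
  refine setIntegral_congr_fun measurableSet_Ioc fun t _ => ?_
  have h3 : ‖ff χ t‖ ^ 2 = ‖psiC χ (Real.exp t)‖ ^ 2 * Real.exp (-t) := by
    unfold ff
    rw [norm_mul, Complex.norm_real, Real.norm_of_nonneg (Real.exp_pos _).le, mul_pow,
      ← Real.exp_nat_mul]
    congr 2
    push_cast
    ring
  have h4 : Real.exp t * Real.exp (-t) = 1 := by rw [← Real.exp_add]; simp
  have h5 : Real.exp t ≠ 0 := (Real.exp_pos t).ne'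
  simp only [h3, smul_eq_mul, Real.log_exp, abs_of_pos (Real.exp_pos t)]
  rw [Real.exp_neg]
  field_simp

/-- The hypothesis of the assembly, from the `r`-level theorem. -/
theorem primBound_of
    (H : ∀ ε : ℝ, 0 < ε → ε ≤ 1 → ∃ r₀ : ℕ, 3 ≤ r₀ ∧ ∀ (r : ℕ) [NeZero r], r₀ ≤ r →
      ∀ S : Finset (DirichletCharacter ℂ r), S ⊆ prim r →
      (∀ χ ∈ S, ∃ Y : ℝ, Real.log r ≤ Y ∧ Y ≤ Real.log r ^ (2 - ε) ∧
        DD χ Y < 1 / 2 * Real.log r * (Y - Real.log r) - ε * (Real.log r * Y)) →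
      (S.card : ℝ) ≤ ε * NN r) : PrimBound := by
  intro ε hε
  obtain ⟨r₀, hr₀, h⟩ := H (min ε 1) (lt_min hε one_pos) (min_le_right _ _)
  refine ⟨r₀, fun r _ hr T hT1 hT2 => ?_⟩
  have hr3 : (3 : ℝ) ≤ r := by exact_mod_cast hr₀.trans hr
  have hL1 : 1 ≤ Real.log r := by
    rw [Real.le_log_iff_exp_le (by linarith)]
    exact Real.exp_one_lt_d9.le.trans (by linarith)
  have h1 : (T.card : ℝ) ≤ min ε 1 * NN r := by
    refine h r hr T (fun χ hχ => hT1 χ hχ) fun χ hχ => ?_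
    obtain ⟨y, hy1, hy2, hy3⟩ := hT2 χ hχ
    have hy0 : 0 < y := by linarith
    have hLy : Real.log r ≤ Real.log y := Real.log_le_log (by linarith) hy1
    refine ⟨Real.log y, hLy, ?_, ?_⟩
    · exact hy2.trans (Real.rpow_le_rpow_of_exponent_le hL1 (by linarith [min_le_left ε 1]))
    · rw [DD_eq_En χ _ (by linarith), Real.exp_log hy0]
      rw [Real.log_div hy0.ne' (by linarith)] at hy3
      refine hy3.trans_le ?_
      have h4 : 0 ≤ Real.log r * Real.log y := by nlinarith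
      have h5 : min ε 1 * (Real.log r * Real.log y) ≤ ε * (Real.log r * Real.log y) :=
        mul_le_mul_of_nonneg_right (min_le_left _ _) h4
      linarith
  refine h1.trans (mul_le_mul_of_nonneg_right (min_le_left _ _) ?_)
  exact Pool.Agent.SO.A3_NN_nonneg r

/-- (F) all characters mod `q`. -/
theorem sharp_char_of (H : PrimBound) (ε : ℝ) (hε : 0 < ε) : ∃ q₀ : ℕ, 3 ≤ q₀ ∧
    ∀ (q : ℕ) [NeZero q], q₀ ≤ q → ∃ S : Finset (DirichletCharacter ℂ q),
      (1 - ε) * (q.totient : ℝ) ≤ (S.card : ℝ) ∧ (∀ χ ∈ S, χ ≠ 1) ∧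
      ∀ χ ∈ S, ∀ y : ℝ, (q : ℝ) ≤ y → y ≤ Real.exp (Real.log q ^ (2 - ε)) →
        1 / 2 * Real.log q * Real.log (y / q) - ε * (Real.log q * Real.log y) ≤
          ∫ x in Set.Icc 1 y, (1 - Real.log x / Real.log y) * ‖psiC χ x‖ ^ 2 / x ^ 2 := by
  obtain ⟨q₀, hq₀, h⟩ := chars_of_prim H ε hε
  refine ⟨q₀, hq₀, fun q _ hq => ?_⟩
  obtain ⟨S, h1, h2, h3⟩ := h q hq
  have hq3 : (3 : ℝ) ≤ q := by exact_mod_cast hq₀.trans hq
  refine ⟨S, h1, h2, fun χ hχ y hy1 hy2 => ?_⟩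
  have h4 := h3 χ hχ y hy1 (by rwa [Real.log_le_iff_le_exp (by linarith)])
  rw [integral_Icc_eq_integral_Ioc]
  have h5 : En χ y = ∫ x in Set.Ioc 1 y, (1 - Real.log x / Real.log y) * ‖psiC χ x‖ ^ 2 / x ^ 2 := by
    unfold En
    refine setIntegral_congr_fun measurableSet_Ioc fun t _ => ?_
    simp only [mul_div_assoc]
  rw [← h5]
  linarith

/-- (F) the variance. -/
theorem sharp_variance_of (H : PrimBound) (ε : ℝ) (hε : 0 < ε) : ∃ q₀ : ℕ, 3 ≤ q₀ ∧
    ∀ q : ℕ, q₀ ≤ q → ∀ y : ℝ, (q : ℝ) ≤ y → y ≤ Real.exp (Real.log q ^ (2 - ε)) →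
      1 / 2 * Real.log q * Real.log (y / q) - ε * (Real.log q * Real.log y) ≤
        ∫ x in Set.Icc 1 y, (1 - Real.log x / Real.log y) * V x q / x ^ 2 := by
  obtain ⟨q₀, hq₀, h⟩ := variance_of_prim H ε hε
  refine ⟨q₀, hq₀, fun q hq y hy1 hy2 => ?_⟩
  have hq3 : (3 : ℝ) ≤ q := by exact_mod_cast hq₀.trans hq
  have h4 := h q hq y hy1 (by rwa [Real.log_le_iff_le_exp (by linarith)])
  rw [integral_Icc_eq_integral_Ioc]
  have h5 : ∫ x in Set.Ioc 1 y, (1 - Real.log x / Real.log y) * (V x q / x ^ 2) =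
      ∫ x in Set.Ioc 1 y, (1 - Real.log x / Real.log y) * V x q / x ^ 2 := by
    refine setIntegral_congr_fun measurableSet_Ioc fun t _ => ?_
    simp only [mul_div_assoc]
  rw [← h5]
  linarith

end Pool.Agent.SK
end
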