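import Pool.Agent.Lib.MP_9cfc0a_nt.EMCoeff
import Pool.Agent.Lib.MP_9cfc0a_nt.ZDBasic

section

/-!
# Lk: numerical estimates
-/

set_option autoImplicit false

namespace Pool.Agent.TS

open Complex Metric Set MeasureTheory
open Pool.Agent.EM

/-- Lk. PROOF. All three inequalities are `e1`, `e2`, `e3` in the proof of `ZD_key` (file
ZDKey.lean): copy that part of the proof (with `D = 12 (A + 1)`, `ℓ = log X`,
`K = 48 L (A+1) + 2 A + 10`, `Y = X^K`, `Z = X^(-(η/2)) (2/3)^k`). -/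
lemma key_numeric (A L : ℕ) (η : ℝ) (hη : 0 < η) (hη1 : η ≤ 1) : ∃ X₂ : ℝ, 1 ≤ X₂ ∧
    ∀ X : ℝ, X₂ ≤ X → ∀ k : ℕ, 12 * (A + 1) * Real.log X ≤ k →
    ((k : ℝ) + 2) ≤ L * (12 * (A + 1) * Real.log X + 3) → ∀ N : ℝ, 0 ≤ N → N ≤ 4 * X ^ A →
    N * (7 / 2 * (1 / 4 : ℝ) ^ k) ≤ 1 / 27 * (X ^ (-(η / 2)) * (2 / 3 : ℝ) ^ k) ∧
    N * (56 * (2 : ℝ) ^ k * (X ^ (48 * L * (A + 1) + 2 * A + 10)) ^ (-(1 / 2) : ℝ))
      ≤ 1 / 27 * (X ^ (-(η / 2)) * (2 / 3 : ℝ) ^ k) ∧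
    X ^ (-η) * (2 / 3 : ℝ) ^ k ≤ 1 / 27 * (X ^ (-(η / 2)) * (2 / 3 : ℝ) ^ k) := by
  have hA0 : (0 : ℝ) ≤ A := Nat.cast_nonneg A
  obtain ⟨D, hD⟩ : ∃ D : ℝ, D = 12 * (A + 1) := ⟨_, rfl⟩
  have hD12 : 12 ≤ D := by rw [hD]; linarith
  obtain ⟨K, hK⟩ : ∃ K : ℕ, K = 48 * L * (A + 1) + 2 * A + 10 := ⟨_, rfl⟩
  have hL0 : (0 : ℝ) ≤ L := Nat.cast_nonneg L
  obtain ⟨X₂, hX₂⟩ := Filter.eventually_atTop.mp ((((evX_logC 1).and
    (evX_const 27 (η / 2) (by positivity))).and (evX_const 378 1 (by norm_num))).and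
    (evX_const (6048 * Real.exp (6 * L)) 1 (by norm_num)))
  refine ⟨max 1 X₂, le_max_left _ _, fun X hX k hk1 hk2 N hN0 hN4 => ?_⟩
  obtain ⟨⟨⟨hlog1, hq27⟩, hq378⟩, hqe⟩ := hX₂ X (le_trans (le_max_right _ _) hX)
  rw [Real.rpow_one] at hq378 hqe
  have hX1 : 1 ≤ X := le_trans (le_max_left _ _) hX
  have hXA1 : (1 : ℝ) ≤ X ^ A := one_le_pow₀ hX1
  have hq0 : (0 : ℝ) < X := by linarith
  rw [← hD] at hk1 hk2
  rw [← hK]
  set ℓ : ℝ := Real.log X with hℓ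
  set Y : ℝ := X ^ K with hY
  have hXY : X ≤ Y := by
    calc X = X ^ 1 := (pow_one X).symm
      _ ≤ X ^ K := pow_le_pow_right₀ hX1 (by omega)
  have hY1 : 1 ≤ Y := hX1.trans hXY
  have hY0 : 0 < Y := by linarith
  set Z : ℝ := X ^ (-(η / 2)) * (2 / 3 : ℝ) ^ k with hZ
  have hZ0 : 0 < Z := by positivity
  have hqη : X ^ (-(η / 2)) * X ^ (η / 2) = 1 := by
    rw [← Real.rpow_add hq0]; simp
  have hηX : X ^ (η / 2) ≤ X := by
    calc X ^ (η / 2) ≤ X ^ (1 : ℝ) := by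
          apply Real.rpow_le_rpow_of_exponent_le <;> linarith
      _ = X := Real.rpow_one _
  have e1 : N * (7 / 2 * (1 / 4 : ℝ) ^ k) ≤ 1 / 27 * Z := by
    have h5 : X ^ (A + 2) ≤ (8 / 3 : ℝ) ^ k := by
      have h6 := exp_le_pow (8 / 3) (5 / 8) (by norm_num) (by
        have := Real.one_sub_inv_le_log_of_pos (show (0 : ℝ) < 8 / 3 by norm_num)
        norm_num at this ⊢
        linarith) (D * ℓ) k (by norm_num) hk1
      refine le_trans ?_ h6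
      calc X ^ (A + 2) = Real.exp (((A + 2 : ℕ) : ℝ) * ℓ) := by
            rw [Real.exp_nat_mul, hℓ, Real.exp_log hq0]
        _ ≤ Real.exp (5 / 8 * (D * ℓ)) := by
            rw [Real.exp_le_exp, hD]
            push_cast
            have : 0 ≤ ((13 / 2 : ℝ) * A + 11 / 2) * ℓ := by positivity
            nlinarith
    have h6 : (2 / 3 : ℝ) ^ k = (8 / 3) ^ k * (1 / 4) ^ k := by
      rw [← mul_pow]; norm_num
    have h7 : 378 * X ^ A * X ^ (η / 2) ≤ (8 / 3 : ℝ) ^ k := by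
      calc 378 * X ^ A * X ^ (η / 2) ≤ X * X ^ A * X := by gcongr
        _ = X ^ (A + 2) := by ring
        _ ≤ _ := h5
    have h8 : 378 * X ^ A ≤ X ^ (-(η / 2)) * (8 / 3 : ℝ) ^ k := by
      calc 378 * X ^ A = X ^ (-(η / 2)) * (378 * X ^ A * X ^ (η / 2)) := by
            rw [show X ^ (-(η / 2)) * (378 * X ^ A * X ^ (η / 2))
              = 378 * X ^ A * (X ^ (-(η / 2)) * X ^ (η / 2)) by ring, hqη, mul_one]
        _ ≤ _ := by gcongr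
    rw [hZ, h6]
    have h9 : (0 : ℝ) < (1 / 4) ^ k := by positivity
    calc N * (7 / 2 * (1 / 4 : ℝ) ^ k) ≤ (4 * X ^ A) * (7 / 2 * (1 / 4 : ℝ) ^ k) := by gcongr
      _ = 1 / 27 * ((378 * X ^ A) * (1 / 4 : ℝ) ^ k) := by ring
      _ ≤ 1 / 27 * ((X ^ (-(η / 2)) * (8 / 3 : ℝ) ^ k) * (1 / 4 : ℝ) ^ k) := by gcongr
      _ = _ := by ring
  have e2 : N * (56 * (2 : ℝ) ^ k * Y ^ (-(1 / 2) : ℝ)) ≤ 1 / 27 * Z := by
    have h5 : (3 : ℝ) ^ k ≤ Real.exp (2 * (L * (D * ℓ + 3))) := by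
      have h6 : Real.log 3 ≤ 2 := by
        have := Real.log_le_sub_one_of_pos (show (0 : ℝ) < 3 by norm_num)
        linarith
      calc (3 : ℝ) ^ k = Real.exp (k * Real.log 3) := by
            rw [← Real.log_pow, Real.exp_log (by positivity)]
        _ ≤ Real.exp (2 * (L * (D * ℓ + 3))) := by
            rw [Real.exp_le_exp]
            have h7 : (0 : ℝ) ≤ k := Nat.cast_nonneg k
            calc (k : ℝ) * Real.log 3 ≤ k * 2 := by gcongr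
              _ ≤ (L * (D * ℓ + 3)) * 2 := by gcongr; linarith
              _ = _ := by ring
    have hB : ((K : ℕ) : ℝ) / 2 = 2 * L * D + A + 5 := by
      rw [hK, hD]; push_cast; ring
    have h7 : Real.exp (2 * (L * (D * ℓ + 3))) = Real.exp (6 * L) * X ^ (2 * L * D) := by
      rw [Real.rpow_def_of_pos hq0, ← Real.exp_add]
      congr 1
      ring
    have h8 : 6048 * X ^ A * (3 : ℝ) ^ k * X ^ (η / 2) ≤ X ^ ((K : ℝ) / 2) := by
      calc 6048 * X ^ A * (3 : ℝ) ^ k * X ^ (η / 2)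
          ≤ 6048 * X ^ A * (Real.exp (6 * L) * X ^ (2 * L * D)) * X := by
            rw [← h7]; gcongr
        _ = (6048 * Real.exp (6 * L)) * X ^ A * X ^ (2 * L * D) * X := by ring
        _ ≤ X * X ^ A * X ^ (2 * L * D) * X := by gcongr
        _ = X ^ ((A : ℝ) + 2 + 2 * L * D) := by
            rw [Real.rpow_add hq0, Real.rpow_add hq0, Real.rpow_natCast]
            norm_num
            ring
        _ ≤ X ^ ((K : ℝ) / 2) := by
            apply Real.rpow_le_rpow_of_exponent_le hX1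
            rw [hB]
            linarith
    have h9 : Y ^ (-(1 / 2) : ℝ) * X ^ ((K : ℝ) / 2) = 1 := by
      rw [hY, ← Real.rpow_natCast, ← Real.rpow_mul hq0.le, ← Real.rpow_add hq0]
      rw [show (K : ℝ) * -(1 / 2) + (K : ℝ) / 2 = 0 by ring, Real.rpow_zero]
    have h10 : (2 / 3 : ℝ) ^ k * 3 ^ k = 2 ^ k := by rw [← mul_pow]; norm_num
    have hYp : 0 < Y ^ (-(1 / 2) : ℝ) := by positivity
    have h11 : Y ^ (-(1 / 2) : ℝ) * (6048 * X ^ A * (3 : ℝ) ^ k) ≤ X ^ (-(η / 2)) := by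
      calc Y ^ (-(1 / 2) : ℝ) * (6048 * X ^ A * (3 : ℝ) ^ k)
          = Y ^ (-(1 / 2) : ℝ) * (6048 * X ^ A * (3 : ℝ) ^ k * X ^ (η / 2)) * X ^ (-(η / 2)) := by
            have : Y ^ (-(1 / 2) : ℝ) * (6048 * X ^ A * (3 : ℝ) ^ k * X ^ (η / 2)) * X ^ (-(η / 2))
              = Y ^ (-(1 / 2) : ℝ) * (6048 * X ^ A * (3 : ℝ) ^ k)
                * (X ^ (-(η / 2)) * X ^ (η / 2)) := by ring
            rw [this, hqη, mul_one]
        _ ≤ Y ^ (-(1 / 2) : ℝ) * (X ^ ((K : ℝ) / 2)) * X ^ (-(η / 2)) := by gcongr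
        _ = X ^ (-(η / 2)) := by rw [h9, one_mul]
    calc N * (56 * (2 : ℝ) ^ k * Y ^ (-(1 / 2) : ℝ))
        ≤ (4 * X ^ A) * (56 * (2 : ℝ) ^ k * Y ^ (-(1 / 2) : ℝ)) := by gcongr
      _ = 1 / 27 * ((Y ^ (-(1 / 2) : ℝ) * (6048 * X ^ A * (3 : ℝ) ^ k)) * (2 / 3 : ℝ) ^ k) := by
          rw [← h10]; ring
      _ ≤ 1 / 27 * (X ^ (-(η / 2)) * (2 / 3 : ℝ) ^ k) := by gcongr
      _ = 1 / 27 * Z := by rw [hZ]
  have e3 : X ^ (-η) * (2 / 3 : ℝ) ^ k ≤ 1 / 27 * Z := by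
    have h5 : X ^ (-η) = X ^ (-(η / 2)) * X ^ (-(η / 2)) := by
      rw [← Real.rpow_add hq0]; congr 1; ring
    have h7 : (0 : ℝ) < X ^ (-(η / 2)) := by positivity
    have h6 : X ^ (-(η / 2)) ≤ 1 / 27 := by
      nlinarith
    rw [h5, hZ]
    have h8 : (0 : ℝ) < (2 / 3 : ℝ) ^ k := by positivity
    calc X ^ (-(η / 2)) * X ^ (-(η / 2)) * (2 / 3 : ℝ) ^ k
        ≤ X ^ (-(η / 2)) * (1 / 27) * (2 / 3 : ℝ) ^ k := by gcongr
      _ = _ := by ring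
  exact ⟨e1, e2, e3⟩

end Pool.Agent.TS
end

section

/-!
# Ll: the coefficient by Mellin transforms
-/

set_option autoImplicit false

namespace Pool.Agent.TS

open Complex Metric Set MeasureTheory
open Pool.Agent.EM

/-- Ll. PROOF. `ZD_iter` (ZDBasic.lean), the triangle inequality, `(k+1)! = (k+1) k!`, `‖s₀‖ ≥ 1`
(`Re s₀ ≥ 2`); compare the proof of `ZD_coeff_bound`. -/
lemma coeff_le_MT (q : ℕ) [NeZero q] (χ : DirichletCharacter ℂ q) (s₀ : ℂ) (hs : 2 ≤ s₀.re)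
    (k : ℕ) :
    ‖iteratedDeriv (k + 1) (logDeriv (MC.FF q χ)) s₀ / ((k + 1).factorial : ℂ)‖
      ≤ ‖s₀‖ * (‖MC.MT (ZDf χ (k + 1)) s₀‖ / ((k + 1).factorial : ℝ)
          + ‖MC.MT (ZDf χ k) s₀‖ / (k.factorial : ℝ)) := by
  have hs1 : 1 < s₀.re := by linarith
  have hn1 : 1 ≤ ‖s₀‖ := by
    have := Complex.re_le_norm s₀
    linarith
  set J : ℕ → ℝ := fun n => ‖MC.MT (ZDf χ n) s₀‖ with hJ
  have hfac : (0 : ℝ) < (k + 1).factorial := by exact_mod_cast (k + 1).factorial_pos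
  have hfac' : (0 : ℝ) < k.factorial := by exact_mod_cast k.factorial_pos
  have hfs : ((k + 1).factorial : ℝ) = (k + 1) * k.factorial := by
    rw [Nat.factorial_succ]; push_cast; ring
  have hJ0 : ∀ n, 0 ≤ J n := fun n => norm_nonneg _
  rw [ZD_iter χ k s₀ hs1, norm_div, norm_neg, Complex.norm_natCast, div_le_iff₀ hfac]
  have h1 : ‖s₀ * ((-1) ^ (k + 1) * MC.MT (ZDf χ (k + 1)) s₀)
      + ((k : ℂ) + 1) * ((-1) ^ k * MC.MT (ZDf χ k) s₀)‖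
      ≤ ‖s₀‖ * J (k + 1) + (k + 1) * J k := by
    refine (norm_add_le _ _).trans (add_le_add ?_ ?_)
    · rw [norm_mul, norm_mul, norm_pow, norm_neg, norm_one, one_pow, one_mul]
    · rw [norm_mul, norm_mul, norm_pow, norm_neg, norm_one, one_pow, one_mul]
      have h2 : ‖(k : ℂ) + 1‖ = (k : ℝ) + 1 := by
        rw [show (k : ℂ) + 1 = ((k + 1 : ℕ) : ℂ) by push_cast; ring, Complex.norm_natCast]
        push_cast; ring
      rw [h2]
  refine h1.trans ?_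
  have h3 : ‖s₀‖ * (J (k + 1) / (k + 1).factorial + J k / k.factorial) * (k + 1).factorial
      = ‖s₀‖ * J (k + 1) + ‖s₀‖ * ((k + 1) * J k) := by
    rw [hfs]
    field_simp
  have h3' : ‖s₀‖ * (‖MC.MT (ZDf χ (k + 1)) s₀‖ / ((k + 1).factorial : ℝ)
      + ‖MC.MT (ZDf χ k) s₀‖ / (k.factorial : ℝ)) * (k + 1).factorial
      = ‖s₀‖ * J (k + 1) + ‖s₀‖ * ((k + 1) * J k) := h3
  rw [h3']
  have h4 : 0 ≤ ((k : ℝ) + 1) * J k := mul_nonneg (by positivity) (hJ0 k)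
  nlinarith

end Pool.Agent.TS
end
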