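import Mathlib
import Pool.Agent.Lib.MP_9cfc0a_nt.Mg.G076
import Pool.Agent.Lib.MP_9cfc0a_nt.EMFinal
import Pool.Agent.Lib.MP_9cfc0a_nt.TS.Defs
import Pool.Agent.Lib.MP_9cfc0a_nt.TS.Lc

section

set_option autoImplicit false

namespace Pool.Agent.EM

open Complex Metric Set MeasureTheory

lemma Wb_measurable (k : ℕ) (b : ℝ) : Measurable (Wb k b) := by
  unfold Wb
  fun_prop

lemma integrable_gC_Wb {q : ℕ} (χ : DirichletCharacter ℂ q) (k : ℕ) (b : ℝ) (hb : 2 ≤ b) :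
    IntegrableOn (fun x : ℝ => ‖gC χ x‖ * Wb k b x) (Ioi 1) := by
  have h1 := (integrable_mul_Wt k).const_mul 7
  refine Integrable.mono' h1
    ((gC_measurable χ).norm.mul (Wb_measurable k b)).aestronglyMeasurable ?_
  refine (ae_restrict_iff' measurableSet_Ioi).mpr (Filter.Eventually.of_forall fun x hx => ?_)
  rw [mem_Ioi] at hx
  have hW := Wb_nonneg k b x hx.le
  have hW2 := Wb_le_Wt k b x hb hx.le
  rw [Real.norm_of_nonneg (by positivity)]
  calc ‖gC χ x‖ * Wb k b x ≤ (7 * x) * Wt k x := by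
        gcongr; exact gC_le q χ x (by linarith)
    _ = 7 * (x * Wt k x) := by ring

lemma gC_Wb_le {q : ℕ} (χ : DirichletCharacter ℂ q) (k : ℕ) (b : ℝ) (hb : 2 ≤ b) (s : Set ℝ)
    (hs : s ⊆ Ioi 1) (hsm : MeasurableSet s) :
    ∫ x in s, ‖gC χ x‖ * Wb k b x ≤ 7 * ∫ x in s, x * Wt k x := by
  rw [← integral_const_mul]
  refine setIntegral_mono_on ((integrable_gC_Wb χ k b hb).mono_set hs)
    (((integrable_mul_Wt k).mono_set hs).const_mul 7) hsm fun x hx => ?_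
  have hx1 : 1 < x := hs hx
  have hW := Wb_nonneg k b x hx1.le
  have hW2 := Wb_le_Wt k b x hb hx1.le
  calc ‖gC χ x‖ * Wb k b x ≤ (7 * x) * Wt k x := by
        gcongr; exact gC_le q χ x (by linarith)
    _ = 7 * (x * Wt k x) := by ring

/-- The main lower bound for a weighted mean of `|g(x,χ)|` in a window `(X, X^K]`. -/
lemma ZD_key (A : ℕ) (η : ℝ) (hη : 0 < η) (hη1 : η ≤ 1) :
    ∃ (K : ℕ) (X₁ : ℝ), 1 ≤ K ∧ ∀ (q : ℕ) [NeZero q] (X : ℝ), (q : ℝ) ≤ X → X₁ ≤ X →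
      ∀ χ : DirichletCharacter ℂ q,
      ∀ ρ₀ : ℂ, MC.FF q χ ρ₀ = 0 → 1 / 2 ≤ ρ₀.re → |ρ₀.im| ≤ X ^ A →
      ∃ k : ℕ, X ^ (-η) * (2 / 3 : ℝ) ^ k
        ≤ ‖ρ₀ + 3 / 2‖ * ∫ x in Ioc X (X ^ K), ‖gC χ x‖ * Wb k (ρ₀.re + 3 / 2) x := by
  obtain ⟨L, X₁, hco⟩ := ZD_coeff_lower A η hη hη1
  have hA0 : (0 : ℝ) ≤ A := Nat.cast_nonneg A
  set D : ℝ := 12 * (A + 1) with hD
  have hD12 : 12 ≤ D := by rw [hD]; linarith
  set K : ℕ := 48 * L * (A + 1) + 2 * A + 10 with hK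
  have hL0 : (0 : ℝ) ≤ L := Nat.cast_nonneg L
  obtain ⟨X₂, hX₂⟩ := Filter.eventually_atTop.mp ((((evX_logC 1).and
    (evX_const 27 (η / 2) (by positivity))).and (evX_const 378 1 (by norm_num))).and
    (evX_const (6048 * Real.exp (6 * L)) 1 (by norm_num)))
  refine ⟨K, max X₁ X₂, by omega, fun q _ X hqX hX χ ρ₀ h1 h2 h3 => ?_⟩
  obtain ⟨⟨⟨hlog1, hq27⟩, hq378⟩, hqe⟩ := hX₂ X (le_trans (le_max_right _ _) hX)
  rw [Real.rpow_one] at hq378 hqe
  obtain ⟨k, hk1, hk2, hk3⟩ :=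
    hco q X hqX (le_trans (le_max_left _ _) hX) χ ρ₀ h1 h2 h3
  have hX1 : 1 ≤ X := by
    have : (1 : ℝ) ≤ (q : ℝ) := by exact_mod_cast Nat.pos_of_ne_zero (NeZero.ne q)
    linarith
  have hre2 : ρ₀.re < 1 := by
    by_contra hge
    exact ZD_FF_ne q χ ρ₀ (not_lt.mp hge) h1
  have hXA1 : (1 : ℝ) ≤ X ^ A := one_le_pow₀ hX1
  have hq0 : (0 : ℝ) < X := by linarith
  set ℓ : ℝ := Real.log X with hℓ
  set s₀ : ℂ := ρ₀ + 3 / 2 with hs₀
  have hs₀re : s₀.re = ρ₀.re + 3 / 2 := by rw [hs₀]; simp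
  have hs₀im : s₀.im = ρ₀.im := by rw [hs₀]; simp
  set N : ℝ := ‖s₀‖ with hN
  have hN0 : 0 ≤ N := norm_nonneg _
  have hN4 : N ≤ 4 * X ^ A := by
    calc ‖s₀‖ ≤ |s₀.re| + |s₀.im| := Complex.norm_le_abs_re_add_abs_im s₀
      _ ≤ 5 / 2 + X ^ A := by
          rw [hs₀re, hs₀im, abs_of_nonneg (by linarith)]
          linarith
      _ ≤ _ := by linarith
  refine ⟨k, ?_⟩
  have hW := ZD_coeff_bound q χ s₀ (by linarith) k
  rw [hs₀re, ← hN] at hW
  set b : ℝ := ρ₀.re + 3 / 2 with hb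
  have hb2 : 2 ≤ b := by linarith
  set Y : ℝ := X ^ K with hY
  have hXY : X ≤ Y := by
    calc X = X ^ 1 := (pow_one X).symm
      _ ≤ X ^ K := pow_le_pow_right₀ hX1 (by omega)
  have hY1 : 1 ≤ Y := hX1.trans hXY
  have hY0 : 0 < Y := by linarith
  have hk12 : 12 * ℓ ≤ k := by
    refine le_trans ?_ hk1
    nlinarith
  have hlow := low_part k X hX1 (by linarith)
  have hhigh := high_part k Y hY1
  have hI := integrable_gC_Wb χ k b hb2
  have hsplit : ∫ x in Ioi (1 : ℝ), ‖gC χ x‖ * Wb k b x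
      = (∫ x in Ioc (1 : ℝ) X, ‖gC χ x‖ * Wb k b x) + (∫ x in Ioc X Y, ‖gC χ x‖ * Wb k b x)
        + ∫ x in Ioi Y, ‖gC χ x‖ * Wb k b x := by
    have e1 : Ioi (1 : ℝ) = Ioc 1 Y ∪ Ioi Y := (Ioc_union_Ioi_eq_Ioi hY1).symm
    have e2 : Ioc (1 : ℝ) Y = Ioc 1 X ∪ Ioc X Y := (Ioc_union_Ioc_eq_Ioc hX1 hXY).symm
    have d1 : Disjoint (Ioc (1 : ℝ) Y) (Ioi Y) :=
      Set.disjoint_left.mpr fun x hx hx' => not_lt.mpr hx.2 hx'
    have d2 : Disjoint (Ioc (1 : ℝ) X) (Ioc X Y) :=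
      Set.disjoint_left.mpr fun x hx hx' => not_lt.mpr hx.2 hx'.1
    rw [e1, setIntegral_union d1 measurableSet_Ioi (hI.mono_set (fun x hx => hx.1))
      (hI.mono_set (fun x hx => lt_of_le_of_lt hY1 hx)), e2,
      setIntegral_union d2 measurableSet_Ioc (hI.mono_set (fun x hx => hx.1))
      (hI.mono_set (fun x hx => lt_of_le_of_lt hX1 hx.1))]
  have hlow2 : ∫ x in Ioc (1 : ℝ) X, ‖gC χ x‖ * Wb k b x ≤ 7 * (2 * (1 / 4 : ℝ) ^ (k + 1)) :=
    (gC_Wb_le χ k b hb2 _ (fun x hx => hx.1) measurableSet_Ioc).trans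
      (mul_le_mul_of_nonneg_left hlow (by norm_num))
  have hhigh2 : ∫ x in Ioi Y, ‖gC χ x‖ * Wb k b x
      ≤ 7 * (4 * 2 ^ (k + 1) * Y ^ (-(1 / 2) : ℝ)) :=
    (gC_Wb_le χ k b hb2 _ (fun x hx => lt_of_le_of_lt hY1 hx) measurableSet_Ioi).trans
      (mul_le_mul_of_nonneg_left hhigh (by norm_num))
  -- numerical estimates
  set Z : ℝ := X ^ (-(η / 2)) * (2 / 3 : ℝ) ^ k with hZ
  have hZ0 : 0 < Z := by positivity
  have hqη : X ^ (-(η / 2)) * X ^ (η / 2) = 1 := by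
    rw [← Real.rpow_add hq0]; simp
  have hηX : X ^ (η / 2) ≤ X := by
    calc X ^ (η / 2) ≤ X ^ (1 : ℝ) := by
          apply Real.rpow_le_rpow_of_exponent_le <;> linarith
      _ = X := Real.rpow_one _
  have e1 : N * (7 / 2 * (1 / 4 : ℝ) ^ k) ≤ 1 / 27 * Z := by
    have h5 : X ^ (A + 2) ≤ (8 / 3 : ℝ) ^ k := by
      have h6 := exp_le_pow (8 / 3) (5 / 8) (by norm_num) (by
        have := Real.one_sub_inv_le_log_of_pos (show (0 : ℝ) < 8 / 3 by norm_num)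
        norm_num at this ⊢
        linarith) (D * ℓ) k (by norm_num) hk1
      refine le_trans ?_ h6
      calc X ^ (A + 2) = Real.exp (((A + 2 : ℕ) : ℝ) * ℓ) := by
            rw [Real.exp_nat_mul, hℓ, Real.exp_log hq0]
        _ ≤ Real.exp (5 / 8 * (D * ℓ)) := by
            rw [Real.exp_le_exp, hD]
            push_cast
            have : 0 ≤ ((13 / 2 : ℝ) * A + 11 / 2) * ℓ := by positivity
            nlinarith
    have h6 : (2 / 3 : ℝ) ^ k = (8 / 3) ^ k * (1 / 4) ^ k := by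
      rw [← mul_pow]; norm_num
    have h7 : 378 * X ^ A * X ^ (η / 2) ≤ (8 / 3 : ℝ) ^ k := by
      calc 378 * X ^ A * X ^ (η / 2) ≤ X * X ^ A * X := by gcongr
        _ = X ^ (A + 2) := by ring
        _ ≤ _ := h5
    have h8 : 378 * X ^ A ≤ X ^ (-(η / 2)) * (8 / 3 : ℝ) ^ k := by
      calc 378 * X ^ A = X ^ (-(η / 2)) * (378 * X ^ A * X ^ (η / 2)) := by
            rw [show X ^ (-(η / 2)) * (378 * X ^ A * X ^ (η / 2))
              = 378 * X ^ A * (X ^ (-(η / 2)) * X ^ (η / 2)) by ring, hqη, mul_one]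
        _ ≤ _ := by gcongr
    rw [hZ, h6]
    have h9 : (0 : ℝ) < (1 / 4) ^ k := by positivity
    calc N * (7 / 2 * (1 / 4 : ℝ) ^ k) ≤ (4 * X ^ A) * (7 / 2 * (1 / 4 : ℝ) ^ k) := by gcongr
      _ = 1 / 27 * ((378 * X ^ A) * (1 / 4 : ℝ) ^ k) := by ring
      _ ≤ 1 / 27 * ((X ^ (-(η / 2)) * (8 / 3 : ℝ) ^ k) * (1 / 4 : ℝ) ^ k) := by gcongr
      _ = _ := by ring
  have e2 : N * (56 * (2 : ℝ) ^ k * Y ^ (-(1 / 2) : ℝ)) ≤ 1 / 27 * Z := by
    have h5 : (3 : ℝ) ^ k ≤ Real.exp (2 * (L * (D * ℓ + 3))) := by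
      have h6 : Real.log 3 ≤ 2 := by
        have := Real.log_le_sub_one_of_pos (show (0 : ℝ) < 3 by norm_num)
        linarith
      calc (3 : ℝ) ^ k = Real.exp (k * Real.log 3) := by
            rw [← Real.log_pow, Real.exp_log (by positivity)]
        _ ≤ Real.exp (2 * (L * (D * ℓ + 3))) := by
            rw [Real.exp_le_exp]
            have h7 : (0 : ℝ) ≤ k := Nat.cast_nonneg k
            calc (k : ℝ) * Real.log 3 ≤ k * 2 := by gcongr
              _ ≤ (L * (D * ℓ + 3)) * 2 := by gcongr; linarith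
              _ = _ := by ring
    have hB : ((K : ℕ) : ℝ) / 2 = 2 * L * D + A + 5 := by
      rw [hK, hD]; push_cast; ring
    have h7 : Real.exp (2 * (L * (D * ℓ + 3))) = Real.exp (6 * L) * X ^ (2 * L * D) := by
      rw [Real.rpow_def_of_pos hq0, ← Real.exp_add]
      congr 1
      ring
    have h8 : 6048 * X ^ A * (3 : ℝ) ^ k * X ^ (η / 2) ≤ X ^ ((K : ℝ) / 2) := by
      calc 6048 * X ^ A * (3 : ℝ) ^ k * X ^ (η / 2)
          ≤ 6048 * X ^ A * (Real.exp (6 * L) * X ^ (2 * L * D)) * X := by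
            rw [← h7]; gcongr
        _ = (6048 * Real.exp (6 * L)) * X ^ A * X ^ (2 * L * D) * X := by ring
        _ ≤ X * X ^ A * X ^ (2 * L * D) * X := by gcongr
        _ = X ^ ((A : ℝ) + 2 + 2 * L * D) := by
            rw [Real.rpow_add hq0, Real.rpow_add hq0, Real.rpow_natCast]
            norm_num
            ring
        _ ≤ X ^ ((K : ℝ) / 2) := by
            apply Real.rpow_le_rpow_of_exponent_le hX1
            rw [hB]
            linarith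
    have h9 : Y ^ (-(1 / 2) : ℝ) * X ^ ((K : ℝ) / 2) = 1 := by
      rw [hY, ← Real.rpow_natCast, ← Real.rpow_mul hq0.le, ← Real.rpow_add hq0]
      rw [show (K : ℝ) * -(1 / 2) + (K : ℝ) / 2 = 0 by ring, Real.rpow_zero]
    have h10 : (2 / 3 : ℝ) ^ k * 3 ^ k = 2 ^ k := by rw [← mul_pow]; norm_num
    have hYp : 0 < Y ^ (-(1 / 2) : ℝ) := by positivity
    have h11 : Y ^ (-(1 / 2) : ℝ) * (6048 * X ^ A * (3 : ℝ) ^ k) ≤ X ^ (-(η / 2)) := by
      calc Y ^ (-(1 / 2) : ℝ) * (6048 * X ^ A * (3 : ℝ) ^ k)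
          = Y ^ (-(1 / 2) : ℝ) * (6048 * X ^ A * (3 : ℝ) ^ k * X ^ (η / 2)) * X ^ (-(η / 2)) := by
            have : Y ^ (-(1 / 2) : ℝ) * (6048 * X ^ A * (3 : ℝ) ^ k * X ^ (η / 2)) * X ^ (-(η / 2))
              = Y ^ (-(1 / 2) : ℝ) * (6048 * X ^ A * (3 : ℝ) ^ k)
                * (X ^ (-(η / 2)) * X ^ (η / 2)) := by ring
            rw [this, hqη, mul_one]
        _ ≤ Y ^ (-(1 / 2) : ℝ) * (X ^ ((K : ℝ) / 2)) * X ^ (-(η / 2)) := by gcongr
        _ = X ^ (-(η / 2)) := by rw [h9, one_mul]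
    calc N * (56 * (2 : ℝ) ^ k * Y ^ (-(1 / 2) : ℝ))
        ≤ (4 * X ^ A) * (56 * (2 : ℝ) ^ k * Y ^ (-(1 / 2) : ℝ)) := by gcongr
      _ = 1 / 27 * ((Y ^ (-(1 / 2) : ℝ) * (6048 * X ^ A * (3 : ℝ) ^ k)) * (2 / 3 : ℝ) ^ k) := by
          rw [← h10]; ring
      _ ≤ 1 / 27 * (X ^ (-(η / 2)) * (2 / 3 : ℝ) ^ k) := by gcongr
      _ = 1 / 27 * Z := by rw [hZ]
  have e3 : X ^ (-η) * (2 / 3 : ℝ) ^ k ≤ 1 / 27 * Z := by
    have h5 : X ^ (-η) = X ^ (-(η / 2)) * X ^ (-(η / 2)) := by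
      rw [← Real.rpow_add hq0]; congr 1; ring
    have h7 : (0 : ℝ) < X ^ (-(η / 2)) := by positivity
    have h6 : X ^ (-(η / 2)) ≤ 1 / 27 := by
      nlinarith
    rw [h5, hZ]
    have h8 : (0 : ℝ) < (2 / 3 : ℝ) ^ k := by positivity
    calc X ^ (-(η / 2)) * X ^ (-(η / 2)) * (2 / 3 : ℝ) ^ k
        ≤ X ^ (-(η / 2)) * (1 / 27) * (2 / 3 : ℝ) ^ k := by gcongr
      _ = _ := by ring
  have e4 : 1 / 2 * X ^ (-(η / 2)) * (2 / 3 : ℝ) ^ (k + 2) = 2 / 9 * Z := by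
    rw [hZ, pow_add]; ring
  rw [e4] at hk3
  have e5 : 7 * (2 * (1 / 4 : ℝ) ^ (k + 1)) = 7 / 2 * (1 / 4) ^ k := by rw [pow_succ]; ring
  have e6 : 7 * (4 * (2 : ℝ) ^ (k + 1) * Y ^ (-(1 / 2) : ℝ))
      = 56 * (2 : ℝ) ^ k * Y ^ (-(1 / 2) : ℝ) := by rw [pow_succ]; ring
  rw [e5] at hlow2
  rw [e6] at hhigh2
  have e8 : 2 / 9 * Z ≤ N * ∫ x in Ioi (1 : ℝ), ‖gC χ x‖ * Wb k b x := hk3.trans hW
  rw [hsplit, mul_add, mul_add] at e8
  have e9 := mul_le_mul_of_nonneg_left hlow2 hN0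
  have e10 := mul_le_mul_of_nonneg_left hhigh2 hN0
  linarith

lemma Wb_le (k : ℕ) (β x : ℝ) (hx : 1 < x) :
    Wb k (β + 3 / 2) x ≤ 2 * (2 / 3 : ℝ) ^ k * x ^ (-1 - β) := by
  have hx0 : 0 < x := by linarith
  have hu : 0 ≤ Real.log x := Real.log_nonneg hx.le
  set u : ℝ := Real.log x with hu'
  have hexp : Real.exp (3 / 2 * u) = x ^ (3 / 2 : ℝ) := by
    rw [Real.rpow_def_of_pos hx0, mul_comm]
  have h1 : ∀ j : ℕ, u ^ j / (j.factorial : ℝ) ≤ (2 / 3 : ℝ) ^ j * x ^ (3 / 2 : ℝ) := by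
    intro j
    have h2 := Real.pow_div_factorial_le_exp (3 / 2 * u) (by positivity) j
    rw [hexp] at h2
    have h3 : u ^ j / (j.factorial : ℝ) = (2 / 3 : ℝ) ^ j * ((3 / 2 * u) ^ j / (j.factorial : ℝ)) := by
      rw [mul_pow]
      have : (2 / 3 : ℝ) ^ j * (3 / 2) ^ j = 1 := by rw [← mul_pow]; norm_num
      calc u ^ j / (j.factorial : ℝ) = 1 * (u ^ j / (j.factorial : ℝ)) := (one_mul _).symm
        _ = ((2 / 3 : ℝ) ^ j * (3 / 2) ^ j) * (u ^ j / (j.factorial : ℝ)) := by rw [this]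
        _ = _ := by ring
    rw [h3]
    gcongr
  have h2 := h1 k
  have h3 := h1 (k + 1)
  have hx3 : x ^ (3 / 2 : ℝ) * x ^ (-(β + 3 / 2) - 1) = x ^ (-1 - β) := by
    rw [← Real.rpow_add hx0]; congr 1; ring
  unfold Wb
  rw [← hu']
  have h4 : (2 / 3 : ℝ) ^ (k + 1) ≤ (2 / 3 : ℝ) ^ k := by
    rw [pow_succ]
    have : (0 : ℝ) < (2 / 3) ^ k := by positivity
    linarith
  calc (u ^ (k + 1) / ((k + 1).factorial : ℝ) + u ^ k / (k.factorial : ℝ)) * x ^ (-(β + 3 / 2) - 1)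
      ≤ ((2 / 3 : ℝ) ^ k * x ^ (3 / 2 : ℝ) + (2 / 3 : ℝ) ^ k * x ^ (3 / 2 : ℝ))
          * x ^ (-(β + 3 / 2) - 1) := by
        refine mul_le_mul_of_nonneg_right (add_le_add (h3.trans ?_) h2) (by positivity)
        gcongr
    _ = 2 * (2 / 3 : ℝ) ^ k * (x ^ (3 / 2 : ℝ) * x ^ (-(β + 3 / 2) - 1)) := by ring
    _ = _ := by rw [hx3]

lemma integrable_gC_window {q : ℕ} (χ : DirichletCharacter ℂ q) (σ X Y : ℝ) (hσ : 0 ≤ σ)
    (hX : 1 ≤ X) : IntegrableOn (fun x : ℝ => ‖gC χ x‖ * x ^ (-1 - σ)) (Ioc X Y) := by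
  refine Measure.integrableOn_of_bounded (M := 7 * Y) (by simp) ?_ ?_
  · exact ((gC_measurable χ).norm.mul (by fun_prop)).aestronglyMeasurable
  · refine (ae_restrict_iff' measurableSet_Ioc).mpr (Filter.Eventually.of_forall fun x hx => ?_)
    have hx1 : 1 ≤ x := by linarith [hx.1]
    have hx0 : 0 < x := by linarith
    have hp : x ^ (-1 - σ) ≤ 1 := Real.rpow_le_one_of_one_le_of_nonpos hx1 (by linarith)
    rw [Real.norm_of_nonneg (by positivity)]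
    calc ‖gC χ x‖ * x ^ (-1 - σ) ≤ ‖gC χ x‖ * 1 := by gcongr
      _ ≤ 7 * x := by rw [mul_one]; exact gC_le q χ x (by linarith)
      _ ≤ 7 * Y := by linarith [hx.2]

/-- Every zero is seen with its full weight in the window `(X, X^K]`. -/
lemma full_weight (A : ℕ) (η : ℝ) (hη : 0 < η) (hη1 : η ≤ 1) :
    ∃ (K : ℕ) (X₁ : ℝ), 1 ≤ K ∧ ∀ (q : ℕ) [NeZero q] (X : ℝ), (q : ℝ) ≤ X → X₁ ≤ X →
      ∀ χ : DirichletCharacter ℂ q,
      ∀ ρ₀ : ℂ, MC.FF q χ ρ₀ = 0 → 1 / 2 ≤ ρ₀.re → |ρ₀.im| ≤ X ^ A →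
      X ^ (-η) ≤ ‖ρ₀ + 3 / 2‖ * ∫ x in Ioc X (X ^ K), ‖gC χ x‖ * x ^ (-1 - ρ₀.re) := by
  obtain ⟨K, X₁, hK, h⟩ := ZD_key A (η / 2) (by linarith) (by linarith)
  obtain ⟨X₂, hX₂⟩ := Filter.eventually_atTop.mp (evX_const 2 (η / 2) (by positivity))
  refine ⟨K, max X₁ X₂, hK, fun q _ X hqX hX χ ρ₀ h1 h2 h3 => ?_⟩
  have hq2 := hX₂ X (le_trans (le_max_right _ _) hX)
  obtain ⟨k, hk2⟩ := h q X hqX (le_trans (le_max_left _ _) hX) χ ρ₀ h1 h2 h3
  have hX1 : 1 ≤ X := by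
    have : (1 : ℝ) ≤ (q : ℝ) := by exact_mod_cast Nat.pos_of_ne_zero (NeZero.ne q)
    linarith
  have hq0 : (0 : ℝ) < X := by linarith
  set Y : ℝ := X ^ K
  set N : ℝ := ‖ρ₀ + 3 / 2‖ with hN
  have hN0 : 0 ≤ N := norm_nonneg _
  have h5 : ∫ x in Ioc X Y, ‖gC χ x‖ * Wb k (ρ₀.re + 3 / 2) x
      ≤ (2 * (2 / 3 : ℝ) ^ k) * ∫ x in Ioc X Y, ‖gC χ x‖ * x ^ (-1 - ρ₀.re) := by
    rw [← integral_const_mul]
    refine setIntegral_mono_on ((integrable_gC_Wb χ k _ (by linarith)).mono_set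
      (fun x hx => lt_of_le_of_lt hX1 hx.1))
      ((integrable_gC_window χ ρ₀.re X Y (by linarith) hX1).const_mul _)
      measurableSet_Ioc fun x hx => ?_
    have hx1 : 1 < x := lt_of_le_of_lt hX1 hx.1
    calc ‖gC χ x‖ * Wb k (ρ₀.re + 3 / 2) x
        ≤ ‖gC χ x‖ * (2 * (2 / 3 : ℝ) ^ k * x ^ (-1 - ρ₀.re)) := by
          gcongr
          exact Wb_le k ρ₀.re x hx1
      _ = _ := by ring
  have h6 := hk2.trans (mul_le_mul_of_nonneg_left h5 hN0)
  have h7 : (0 : ℝ) < (2 / 3 : ℝ) ^ k := by positivity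
  set I : ℝ := ∫ x in Ioc X Y, ‖gC χ x‖ * x ^ (-1 - ρ₀.re) with hI
  have h8 : X ^ (-(η / 2)) ≤ 2 * (N * I) := by
    have : (2 / 3 : ℝ) ^ k * X ^ (-(η / 2)) ≤ (2 / 3 : ℝ) ^ k * (2 * (N * I)) := by linarith
    exact le_of_mul_le_mul_left this h7
  have h9 : X ^ (-η) = X ^ (-(η / 2)) * X ^ (-(η / 2)) := by
    rw [← Real.rpow_add hq0]; congr 1; ring
  have h10 : X ^ (-(η / 2)) * X ^ (η / 2) = 1 := by
    rw [← Real.rpow_add hq0]; simp
  have h11 : (0 : ℝ) < X ^ (-(η / 2)) := by positivity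
  rw [h9]
  nlinarith

end Pool.Agent.EM
end

section

set_option autoImplicit false

namespace Pool.Agent.EM

open Complex Metric Set MeasureTheory

/-- the variance controls all characters, the principal one included -/
lemma variance_all (q : ℕ) [NeZero q] (x : ℝ) (S : Finset (DirichletCharacter ℂ q)) :
    ∑ χ ∈ S, ‖gC χ x‖ ^ 2 ≤ (Nat.totient q : ℝ) * V x q := by
  classical
  have htot : (0 : ℝ) < Nat.totient q := by
    exact_mod_cast Nat.totient_pos.mpr (Nat.pos_of_ne_zero (NeZero.ne q))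
  set w : ZMod q → ℝ := fun b => if IsUnit b then psi x q b.val - x / (Nat.totient q : ℝ) else 0
    with hw
  have hV : V x q = ∑ b, w b ^ 2 := by
    unfold V
    rw [Finset.sum_filter]
    refine Finset.sum_bij (fun a _ => (a : ZMod q)) (fun _ _ => Finset.mem_univ _) ?_ ?_ ?_
    · intro a ha b hb hab
      rw [Finset.mem_Icc] at ha hb
      rw [ZMod.natCast_eq_natCast_iff'] at hab
      rcases Nat.lt_or_ge a q with h1 | h1 <;> rcases Nat.lt_or_ge b q with h2 | h2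
      · rwa [Nat.mod_eq_of_lt h1, Nat.mod_eq_of_lt h2] at hab
      · have : b = q := le_antisymm hb.2 h2
        rw [this, Nat.mod_self, Nat.mod_eq_of_lt h1] at hab
        omega
      · have : a = q := le_antisymm ha.2 h1
        rw [this, Nat.mod_self, Nat.mod_eq_of_lt h2] at hab
        omega
      · omega
    · intro b _
      by_cases hb : b.val = 0
      · refine ⟨q, Finset.mem_Icc.mpr ⟨Nat.one_le_iff_ne_zero.mpr (NeZero.ne q), le_rfl⟩, ?_⟩
        rw [ZMod.natCast_self]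
        exact ((ZMod.val_eq_zero b).mp hb).symm
      · exact ⟨b.val, Finset.mem_Icc.mpr ⟨Nat.one_le_iff_ne_zero.mpr hb, (ZMod.val_lt b).le⟩,
          ZMod.natCast_zmod_val b⟩
    · intro a _
      simp only [hw, ZMod.isUnit_iff_coprime]
      split_ifs
      · rw [X1_psi x q a]
      · simp
  have hpsi : ∀ χ : DirichletCharacter ℂ q, gC χ x = ∑ b, χ b * (w b : ℂ) := by
    intro χ
    have h1 : ∑ b, χ b * (w b : ℂ) =
        ∑ b, χ b * ((psi x q b.val - x / (Nat.totient q : ℝ) : ℝ) : ℂ) := by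
      apply Finset.sum_congr rfl
      intro b _
      simp only [hw]
      split_ifs with hb
      · rfl
      · rw [MulChar.map_nonunit χ hb]
        simp
    have h2 : ∑ b, χ b * ((psi x q b.val - x / (Nat.totient q : ℝ) : ℝ) : ℂ) =
        ∑ b, χ b * ((psi x q b.val : ℝ) : ℂ) - (if χ = 1 then (x : ℂ) else 0) := by
      simp only [Complex.ofReal_sub, mul_sub, Finset.sum_sub_distrib]
      rw [← Finset.sum_mul]
      congr 1
      split_ifs with h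
      · have h3 : ∑ b : ZMod q, χ b = (Nat.totient q : ℂ) := by
          rw [h, MulChar.sum_one_eq_card_units, ZMod.card_units_eq_totient]
        rw [h3]
        push_cast
        have : (Nat.totient q : ℂ) ≠ 0 := by exact_mod_cast htot.ne'
        field_simp
      · rw [MulChar.sum_eq_zero_of_ne_one h, zero_mul]
    rw [h1, h2]
    unfold gC
    congr 1
    swap
    · split_ifs <;> rfl
    unfold psiC
    rw [← Finset.sum_fiberwise (Finset.Icc 1 ⌊x⌋₊) (fun n : ℕ => (n : ZMod q))]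
    apply Finset.sum_congr rfl
    intro b _
    unfold psi
    rw [Complex.ofReal_sum, Finset.mul_sum]
    have hf : (Finset.Icc 1 ⌊x⌋₊).filter (fun n : ℕ => (n : ZMod q) = b) =
        (Finset.Icc 1 ⌊x⌋₊).filter (fun n => n % q = b.val % q) := by
      ext n
      simp only [Finset.mem_filter, and_congr_right_iff]
      intro _
      rw [← ZMod.natCast_eq_natCast_iff', ZMod.natCast_zmod_val]
    rw [hf]
    apply Finset.sum_congr rfl
    intro n hn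
    rw [← hf, Finset.mem_filter] at hn
    rw [hn.2]
  rw [hV, ← X1_orth q w (fun b hb => by simp only [hw]; rw [if_neg hb])]
  rw [Finset.sum_congr rfl (fun χ _ => by rw [hpsi χ])]
  exact Finset.sum_le_sum_of_subset_of_nonneg (Finset.subset_univ _)
    (fun _ _ _ => sq_nonneg _)

lemma integrable_gC_sq_window {q : ℕ} (χ : DirichletCharacter ℂ q) (σ X Y : ℝ) (hσ : 1 / 2 ≤ σ)
    (hX : 1 ≤ X) : IntegrableOn (fun x : ℝ => ‖gC χ x‖ ^ 2 * x ^ (-1 - 2 * σ)) (Ioc X Y) := by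
  refine Measure.integrableOn_of_bounded (M := 49) (by simp) ?_ ?_
  · exact (((gC_measurable χ).norm.pow_const 2).mul (by fun_prop)).aestronglyMeasurable
  · refine (ae_restrict_iff' measurableSet_Ioc).mpr (Filter.Eventually.of_forall fun x hx => ?_)
    have hx1 : 1 ≤ x := by linarith [hx.1]
    have hx0 : 0 < x := by linarith
    have h1 := gC_le q χ x (by linarith)
    have hp : x ^ (-1 - 2 * σ) ≤ (x ^ 2)⁻¹ := by
      rw [← Real.rpow_natCast, ← Real.rpow_neg hx0.le]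
      exact Real.rpow_le_rpow_of_exponent_le hx1 (by push_cast; linarith)
    rw [Real.norm_of_nonneg (by positivity)]
    calc ‖gC χ x‖ ^ 2 * x ^ (-1 - 2 * σ) ≤ (7 * x) ^ 2 * (x ^ 2)⁻¹ := by gcongr
      _ = 49 := by field_simp; norm_num

lemma integrable_V_window' (q : ℕ) (σ X Y : ℝ) (hσ : 1 / 2 ≤ σ) (hX : 1 ≤ X) :
    IntegrableOn (fun x : ℝ => V x q * x ^ (-1 - 2 * σ)) (Ioc X Y) := by
  have h1 : (fun x : ℝ => V x q * x ^ (-1 - 2 * σ)) = fun x : ℝ =>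
      ∑ a ∈ (Finset.Icc 1 q).filter (fun a => Nat.Coprime a q),
        (psi x q a - x / (Nat.totient q : ℝ)) ^ 2 * x ^ (-1 - 2 * σ) := by
    funext x
    unfold V
    rw [Finset.sum_mul]
  rw [h1]
  refine integrable_finsetSum _ fun a _ => ?_
  refine Measure.integrableOn_of_bounded (M := (psi Y q a + Y / (Nat.totient q : ℝ)) ^ 2) (by simp) ?_ ?_
  · have := (psi_mono q a).measurable
    exact (((this.sub (by fun_prop)).pow_const 2).mul (by fun_prop)).aestronglyMeasurable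
  · refine (ae_restrict_iff' measurableSet_Ioc).mpr (Filter.Eventually.of_forall fun x hx => ?_)
    have hx1 : 1 ≤ x := by linarith [hx.1]
    have hx0 : 0 < x := by linarith
    have hx2 : x ^ (-1 - 2 * σ) ≤ 1 := Real.rpow_le_one_of_one_le_of_nonpos hx1 (by linarith)
    rw [Real.norm_of_nonneg (by positivity)]
    refine (mul_le_of_le_one_right (sq_nonneg _) hx2).trans ?_
    have h2 := psi_nonneg x q a
    have h3 : psi x q a ≤ psi Y q a := psi_mono q a hx.2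
    have h4 : x / (Nat.totient q : ℝ) ≤ Y / (Nat.totient q : ℝ) := by
      have := hx.2
      gcongr
    have h5 : 0 ≤ x / (Nat.totient q : ℝ) := by positivity
    apply sq_le_sq'
    · linarith
    · linarith

/-- Second moment version of `full_weight`. -/
lemma full_weight_sq (A : ℕ) (η : ℝ) (hη : 0 < η) :
    ∃ (K : ℕ) (X₁ : ℝ), 1 ≤ K ∧ ∀ (q : ℕ) [NeZero q] (X T σ : ℝ), (q : ℝ) ≤ X → X₁ ≤ X →
      1 ≤ T → T ≤ X ^ A → 1 / 2 ≤ σ → ∀ χ : DirichletCharacter ℂ q,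
      (∃ ρ : ℂ, χ.LFunction ρ = 0 ∧ σ ≤ ρ.re ∧ ρ.re < 1 ∧ |ρ.im| ≤ T) →
      1 ≤ X ^ η * T ^ 2 * ∫ x in Ioc X (X ^ K), ‖gC χ x‖ ^ 2 * x ^ (-1 - 2 * σ) := by
  obtain ⟨K, X₁, hK, h⟩ := full_weight A (min (η / 4) 1) (by positivity) (min_le_right _ _)
  obtain ⟨X₂, hX₂⟩ := Filter.eventually_atTop.mp ((evX_log (2 * (K - 1)) (η / 4) (by linarith)).and
    ((evX_const 2 (η / 4) (by linarith)).and (evX_const 16 (η / 4) (by linarith))))
  refine ⟨K, max X₁ X₂, hK, fun q _ X T σ hqX hX hT1 hTA hσ χ hρ => ?_⟩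
  obtain ⟨ρ, hρ0, hρσ, hρ1, hρT⟩ := hρ
  obtain ⟨hqlog, hqc, hqc16⟩ := hX₂ X (le_trans (le_max_right _ _) hX)
  have hX1 : 1 ≤ X := by
    have : (1 : ℝ) ≤ (q : ℝ) := by exact_mod_cast Nat.pos_of_ne_zero (NeZero.ne q)
    linarith
  have hX0 : (0 : ℝ) < X := by linarith
  have h1 := h q X hqX (le_trans (le_max_left _ _) hX) χ ρ (ZD_FF_zero q χ ρ hρ1 hρ0)
    (hσ.trans hρσ) (hρT.trans hTA)
  have hXY : X ≤ X ^ K := by
    calc X = X ^ 1 := (pow_one X).symm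
      _ ≤ X ^ K := pow_le_pow_right₀ hX1 (by omega)
  have hlogY : Real.log (X ^ K) = K * Real.log X := Real.log_pow X K
  set ℓ : ℝ := Real.log X with hℓ
  have hℓ0 : 0 ≤ ℓ := Real.log_nonneg hX1
  set Y : ℝ := X ^ K
  have hY0 : 0 < Y := by linarith
  set J : ℝ := ∫ x in Ioc X Y, ‖gC χ x‖ ^ 2 * x ^ (-1 - 2 * σ) with hJ
  -- the norm
  have hN : ‖ρ + 3 / 2‖ ≤ 4 * T := by
    calc ‖ρ + 3 / 2‖ ≤ |(ρ + 3 / 2).re| + |(ρ + 3 / 2).im| := Complex.norm_le_abs_re_add_abs_im _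
      _ = |ρ.re + 3 / 2| + |ρ.im| := by simp
      _ ≤ 5 / 2 + T := by
          rw [abs_of_nonneg (by linarith)]
          linarith
      _ ≤ 4 * T := by linarith
  have hI1 : ∫ x in Ioc X Y, ‖gC χ x‖ * x ^ (-1 - ρ.re)
      ≤ ∫ x in Ioc X Y, ‖gC χ x‖ * x ^ (-1 - σ) := by
    refine setIntegral_mono_on (integrable_gC_window χ ρ.re X Y (by linarith) hX1)
      (integrable_gC_window χ σ X Y (by linarith) hX1) measurableSet_Ioc fun x hx => ?_
    have hx1 : 1 ≤ x := by linarith [hx.1]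
    gcongr
  set I : ℝ := ∫ x in Ioc X Y, ‖gC χ x‖ * x ^ (-1 - σ) with hI
  have hI0 : 0 ≤ I := setIntegral_nonneg measurableSet_Ioc fun x hx => by
    have hx1 : 1 ≤ x := by linarith [hx.1]
    positivity
  have hlow : X ^ (-(η / 4)) ≤ 4 * T * I := by
    calc X ^ (-(η / 4)) ≤ X ^ (-(min (η / 4) 1)) :=
          Real.rpow_le_rpow_of_exponent_le hX1 (by linarith [min_le_left (η / 4) 1])
      _ ≤ ‖ρ + 3 / 2‖ * ∫ x in Ioc X Y, ‖gC χ x‖ * x ^ (-1 - ρ.re) := h1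
      _ ≤ ‖ρ + 3 / 2‖ * I := by gcongr
      _ ≤ 4 * T * I := by gcongr
  -- the weight
  have hinvint : ∫ x in Ioc X Y, 1 / x = (K - 1) * ℓ := by
    rw [← intervalIntegral.integral_of_le hXY, integral_one_div_of_pos hX0 hY0,
      Real.log_div hY0.ne' hX0.ne', hlogY]
    ring
  have hinvI : IntegrableOn (fun x : ℝ => 1 / x) (Ioc X Y) := by
    rw [← intervalIntegrable_iff_integrableOn_Ioc_of_le hXY]
    refine intervalIntegral.intervalIntegrable_one_div (fun x hx => ?_) continuousOn_id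
    rw [uIcc_of_le hXY] at hx
    have := hx.1
    exact ne_of_gt (by linarith : 0 < x)
  set M : ℝ := ((K : ℝ) - 1) * ℓ with hM
  have hK1 : (1 : ℝ) ≤ K := by exact_mod_cast hK
  have hM0 : 0 ≤ M := mul_nonneg (by linarith) hℓ0
  have hMle : M + 1 ≤ X ^ (η / 4) := by
    linarith
  have hinv : X ^ (-(η / 4)) * X ^ (η / 4) = 1 := by
    rw [← Real.rpow_add hX0]; simp
  have hq4 : (0 : ℝ) < X ^ (-(η / 4)) := by positivity
  have hp4 : (0 : ℝ) < X ^ (η / 4) := by positivity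
  -- pointwise
  have hpt : ∀ lam : ℝ, 0 < lam → I ≤ lam / 2 * M + 1 / (2 * lam) * J := by
    intro lam hlam0
    rw [← hinvint, hI, hJ, ← integral_const_mul, ← integral_const_mul,
      ← integral_add (hinvI.const_mul _) ((integrable_gC_sq_window χ σ X Y hσ hX1).const_mul _)]
    refine setIntegral_mono_on (integrable_gC_window χ σ X Y (by linarith) hX1)
      ((hinvI.const_mul _).add ((integrable_gC_sq_window χ σ X Y hσ hX1).const_mul _))
      measurableSet_Ioc fun x hx => ?_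
    have hx1 : 1 ≤ x := by linarith [hx.1]
    have hx0 : 0 < x := by linarith
    set t : ℝ := ‖gC χ x‖
    have h3 : x ^ (-1 - 2 * σ) = x * (x ^ (-1 - σ)) ^ 2 := by
      rw [← Real.rpow_natCast, ← Real.rpow_mul hx0.le]
      nth_rewrite 2 [← Real.rpow_one x]
      rw [← Real.rpow_add hx0]
      congr 1
      push_cast
      ring
    set u : ℝ := x ^ (-1 - σ) with hu
    have hu0 : 0 < u := by positivity
    rw [h3]
    have h5 : lam / 2 * (1 / x) + 1 / (2 * lam) * (t ^ 2 * (x * u ^ 2)) - t * u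
        = (lam - x * (t * u)) ^ 2 / (2 * lam * x) := by
      field_simp
      ring
    have h6 : 0 ≤ (lam - x * (t * u)) ^ 2 / (2 * lam * x) := by positivity
    linarith
  have hδ : X ^ (-(η / 4)) / (4 * T) ≤ I := by
    rw [div_le_iff₀ (by positivity)]
    linarith
  set δ : ℝ := X ^ (-(η / 4)) / (4 * T) with hδdef
  have hδ0 : 0 < δ := by positivity
  have h2 := hpt (δ / (M + 1)) (by positivity)
  have h3 : δ / (M + 1) / 2 * M ≤ δ / 2 := by
    have : δ / (M + 1) / 2 * M = δ / 2 * (M / (M + 1)) := by field_simp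
    rw [this]
    have h4 : M / (M + 1) ≤ 1 := by
      rw [div_le_one (by linarith)]; linarith
    nlinarith
  have h4 : δ / 2 ≤ 1 / (2 * (δ / (M + 1))) * J := by linarith
  have h5 : δ ^ 2 ≤ (M + 1) * J := by
    have e : 1 / (2 * (δ / (M + 1))) * J = ((M + 1) * J) / (2 * δ) := by field_simp
    rw [e, le_div_iff₀ (by positivity)] at h4
    nlinarith
  have hJ0 : 0 ≤ J := by
    by_contra hneg
    push Not at hneg
    have : (M + 1) * J < 0 := mul_neg_of_pos_of_neg (by linarith) hneg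
    nlinarith
  have h6 : δ ^ 2 ≤ X ^ (η / 4) * J := h5.trans (mul_le_mul_of_nonneg_right hMle hJ0)
  have e1 : X ^ η = X ^ (η / 4) * X ^ (η / 4) * X ^ (η / 4) * X ^ (η / 4) := by
    rw [← Real.rpow_add hX0, ← Real.rpow_add hX0, ← Real.rpow_add hX0]; congr 1; ring
  have e2 : (16 * T ^ 2 * (X ^ (η / 4)) ^ 2) * δ ^ 2 = 1 := by
    rw [hδdef, div_pow]
    have hT0 : T ≠ 0 := by positivity
    field_simp
    calc _ = 16 * (X ^ (-(η / 4)) * X ^ (η / 4)) ^ 2 := by ring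
      _ = _ := by rw [hinv]; norm_num
  calc (1 : ℝ) = (16 * T ^ 2 * (X ^ (η / 4)) ^ 2) * δ ^ 2 := e2.symm
    _ ≤ (X ^ (η / 4) * T ^ 2 * (X ^ (η / 4)) ^ 2) * (X ^ (η / 4) * J) := by gcongr
    _ = X ^ η * T ^ 2 * J := by rw [e1]; ring

/-- The number of characters with a zero is bounded by the variance. -/
theorem zero_density (A : ℕ) (ε : ℝ) (hε : 0 < ε) :
    ∃ (K : ℕ) (X₀ : ℝ), 1 ≤ K ∧ ∀ (q : ℕ) [NeZero q] (X T σ : ℝ), (q : ℝ) ≤ X → X₀ ≤ X →
      1 ≤ T → T ≤ X ^ A → 1 / 2 ≤ σ →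
      (Nat.card {χ : DirichletCharacter ℂ q //
          ∃ ρ : ℂ, χ.LFunction ρ = 0 ∧ σ ≤ ρ.re ∧ ρ.re < 1 ∧ |ρ.im| ≤ T} : ℝ)
        ≤ X ^ ε * T ^ 2 * (Nat.totient q : ℝ)
          * ∫ x in X..(X ^ K), V x q * x ^ (-1 - 2 * σ) := by
  classical
  obtain ⟨K, X₁, hK, h⟩ := full_weight_sq A ε hε
  refine ⟨K, X₁, hK, fun q _ X T σ hqX hX hT1 hTA hσ => ?_⟩
  have hX1 : 1 ≤ X := by
    have : (1 : ℝ) ≤ (q : ℝ) := by exact_mod_cast Nat.pos_of_ne_zero (NeZero.ne q)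
    linarith
  have hX0 : (0 : ℝ) < X := by linarith
  have hXY : X ≤ X ^ K := by
    calc X = X ^ 1 := (pow_one X).symm
      _ ≤ X ^ K := pow_le_pow_right₀ hX1 (by omega)
  rw [intervalIntegral.integral_of_le hXY]
  set Y : ℝ := X ^ K
  set S : Finset (DirichletCharacter ℂ q) := Finset.univ.filter (fun χ =>
    ∃ ρ : ℂ, χ.LFunction ρ = 0 ∧ σ ≤ ρ.re ∧ ρ.re < 1 ∧ |ρ.im| ≤ T) with hS
  have hcard : (Nat.card {χ : DirichletCharacter ℂ q //
      ∃ ρ : ℂ, χ.LFunction ρ = 0 ∧ σ ≤ ρ.re ∧ ρ.re < 1 ∧ |ρ.im| ≤ T} : ℝ) = (S.card : ℝ) := by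
    rw [Nat.card_eq_fintype_card, Fintype.card_subtype]
  rw [hcard]
  have h1 : (S.card : ℝ) ≤ ∑ χ ∈ S, (X ^ ε * T ^ 2
      * ∫ x in Ioc X Y, ‖gC χ x‖ ^ 2 * x ^ (-1 - 2 * σ)) := by
    have := Finset.card_nsmul_le_sum S (fun χ => X ^ ε * T ^ 2
      * ∫ x in Ioc X Y, ‖gC χ x‖ ^ 2 * x ^ (-1 - 2 * σ)) 1 (fun χ hχ =>
        h q X T σ hqX hX hT1 hTA hσ χ (Finset.mem_filter.mp hχ).2)
    rwa [nsmul_eq_mul, mul_one] at this
  have h2 : ∑ χ ∈ S, ∫ x in Ioc X Y, ‖gC χ x‖ ^ 2 * x ^ (-1 - 2 * σ)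
      ≤ (Nat.totient q : ℝ) * ∫ x in Ioc X Y, V x q * x ^ (-1 - 2 * σ) := by
    rw [← integral_finsetSum _ (fun χ _ => integrable_gC_sq_window χ σ X Y hσ hX1),
      ← integral_const_mul]
    refine setIntegral_mono_on
      (integrable_finsetSum _ fun χ _ => integrable_gC_sq_window χ σ X Y hσ hX1)
      ((integrable_V_window' q σ X Y hσ hX1).const_mul _) measurableSet_Ioc fun x hx => ?_
    have hx1 : 1 ≤ x := by linarith [hx.1]
    have h1 := variance_all q x S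
    rw [← Finset.sum_mul, ← mul_assoc]
    gcongr
  calc (S.card : ℝ) ≤ _ := h1
    _ = X ^ ε * T ^ 2 * ∑ χ ∈ S, ∫ x in Ioc X Y, ‖gC χ x‖ ^ 2 * x ^ (-1 - 2 * σ) := by
        rw [← Finset.mul_sum]
    _ ≤ X ^ ε * T ^ 2 * ((Nat.totient q : ℝ) * ∫ x in Ioc X Y, V x q * x ^ (-1 - 2 * σ)) := by
        gcongr
    _ = _ := by ring

/-- Montgomery's bound for one modulus in one polynomial window bounds the number of characters
with a zero. -/
theorem montgomery_window (C ε : ℝ) (hε : 0 < ε) :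
    ∃ (K : ℕ) (X₀ : ℝ), 1 ≤ K ∧ ∀ (q : ℕ) [NeZero q] (X σ : ℝ), (q : ℝ) ≤ X → X₀ ≤ X →
      1 / 2 ≤ σ →
      (∀ x : ℝ, X ≤ x → x ≤ X ^ K → ∀ a : ℕ, 1 ≤ a → a ≤ q → Nat.Coprime a q →
        |psi x q a - x / (Nat.totient q : ℝ)| ≤ C * x ^ (1 / 2 + ε) / (q : ℝ) ^ (1 / 2 : ℝ)) →
      (Nat.card {χ : DirichletCharacter ℂ q //
          ∃ ρ : ℂ, χ.LFunction ρ = 0 ∧ σ ≤ ρ.re ∧ ρ.re < 1 ∧ |ρ.im| ≤ X ^ ε} : ℝ)
        ≤ (Nat.totient q : ℝ) * X ^ (1 - 2 * σ + 7 * ε) := by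
  classical
  obtain ⟨K, X₁, hK, h⟩ := zero_density ⌈ε⌉₊ ε hε
  obtain ⟨X₂, hX₂⟩ := Filter.eventually_atTop.mp
    ((evX_const (C ^ 2 / (2 * ε)) ε hε).and (Filter.eventually_ge_atTop 1))
  refine ⟨K, max X₁ X₂, hK, fun q _ X σ hqX hX hσ hM => ?_⟩
  obtain ⟨hXc, hX1⟩ := hX₂ X (le_trans (le_max_right _ _) hX)
  have hX0 : (0 : ℝ) < X := by linarith
  have hq1 : (1 : ℝ) ≤ (q : ℝ) := by exact_mod_cast Nat.pos_of_ne_zero (NeZero.ne q)
  have hq0 : (0 : ℝ) < q := by linarith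
  have htot : (0 : ℝ) < Nat.totient q := by
    exact_mod_cast Nat.totient_pos.mpr (Nat.pos_of_ne_zero (NeZero.ne q))
  have hXY : X ≤ X ^ K := by
    calc X = X ^ 1 := (pow_one X).symm
      _ ≤ X ^ K := pow_le_pow_right₀ hX1 (by omega)
  rcases lt_or_ge (2 * σ) (1 + 4 * ε) with hcase | hcase
  · have h1 : (Nat.card {χ : DirichletCharacter ℂ q //
          ∃ ρ : ℂ, χ.LFunction ρ = 0 ∧ σ ≤ ρ.re ∧ ρ.re < 1 ∧ |ρ.im| ≤ X ^ ε} : ℝ)
        ≤ (Nat.totient q : ℝ) := by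
      rw [← DirichletCharacter.card_eq_totient_of_hasEnoughRootsOfUnity ℂ q]
      rw [Nat.card_eq_fintype_card, Nat.card_eq_fintype_card]
      exact_mod_cast Fintype.card_subtype_le _
    have h2 : (1 : ℝ) ≤ X ^ (1 - 2 * σ + 7 * ε) := Real.one_le_rpow hX1 (by linarith)
    nlinarith
  have hT1 : (1 : ℝ) ≤ X ^ ε := Real.one_le_rpow hX1 hε.le
  have hTA : X ^ ε ≤ X ^ ⌈ε⌉₊ := by
    rw [← Real.rpow_natCast]
    exact Real.rpow_le_rpow_of_exponent_le hX1 (Nat.le_ceil ε)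
  have h1 := h q X (X ^ ε) σ hqX (le_trans (le_max_left _ _) hX) hT1 hTA hσ
  rw [intervalIntegral.integral_of_le hXY] at h1
  set Y : ℝ := X ^ K
  -- the bound for the variance
  have hV : ∀ x ∈ Ioc X Y, V x q * x ^ (-1 - 2 * σ) ≤ C ^ 2 * x ^ (2 * ε - 2 * σ) := by
    intro x hx
    have hx0 : 0 < x := by linarith [hx.1]
    have h3 : V x q ≤ ∑ a ∈ (Finset.Icc 1 q).filter (fun a => Nat.Coprime a q),
        (C ^ 2 * x ^ (1 + 2 * ε) / q) := by
      refine Finset.sum_le_sum fun a ha => ?_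
      rw [Finset.mem_filter, Finset.mem_Icc] at ha
      have h4 := hM x hx.1.le hx.2 a ha.1.1 ha.1.2 ha.2
      have h5 : (psi x q a - x / (Nat.totient q : ℝ)) ^ 2
          ≤ (C * x ^ (1 / 2 + ε) / (q : ℝ) ^ (1 / 2 : ℝ)) ^ 2 := by
        rw [← sq_abs]
        gcongr
      refine h5.trans (le_of_eq ?_)
      have e1 : ((q : ℝ) ^ (1 / 2 : ℝ)) ^ 2 = q := by
        rw [← Real.sqrt_eq_rpow, Real.sq_sqrt (by positivity)]
      have e2 : (x ^ (1 / 2 + ε)) ^ 2 = x ^ (1 + 2 * ε) := by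
        rw [← Real.rpow_natCast, ← Real.rpow_mul hx0.le]
        congr 1
        push_cast
        ring
      rw [div_pow, mul_pow, e1, e2]
    rw [Finset.sum_const, nsmul_eq_mul] at h3
    have h4 : (((Finset.Icc 1 q).filter (fun a => Nat.Coprime a q)).card : ℝ) ≤ q := by
      have h5 := Finset.card_filter_le (Finset.Icc 1 q) (fun a => Nat.Coprime a q)
      rw [Nat.card_Icc, Nat.add_sub_cancel] at h5
      exact_mod_cast h5
    have h5 : V x q ≤ C ^ 2 * x ^ (1 + 2 * ε) := by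
      calc V x q ≤ _ := h3
        _ ≤ q * (C ^ 2 * x ^ (1 + 2 * ε) / q) := by gcongr
        _ = C ^ 2 * x ^ (1 + 2 * ε) := by field_simp
    calc V x q * x ^ (-1 - 2 * σ) ≤ C ^ 2 * x ^ (1 + 2 * ε) * x ^ (-1 - 2 * σ) := by gcongr
      _ = C ^ 2 * x ^ (2 * ε - 2 * σ) := by
          rw [mul_assoc, ← Real.rpow_add hx0]
          congr 2
          ring
  have hexp : 2 * ε - 2 * σ < -1 := by linarith
  have hint : IntegrableOn (fun x : ℝ => C ^ 2 * x ^ (2 * ε - 2 * σ)) (Ioi X) :=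
    (integrableOn_Ioi_rpow_of_lt hexp hX0).const_mul _
  have h2 : ∫ x in Ioc X Y, V x q * x ^ (-1 - 2 * σ)
      ≤ C ^ 2 / (2 * ε) * X ^ (1 - 2 * σ + 2 * ε) := by
    calc ∫ x in Ioc X Y, V x q * x ^ (-1 - 2 * σ)
        ≤ ∫ x in Ioc X Y, C ^ 2 * x ^ (2 * ε - 2 * σ) :=
          setIntegral_mono_on (integrable_V_window' q σ X Y hσ hX1)
            (hint.mono_set Ioc_subset_Ioi_self) measurableSet_Ioc hV
      _ ≤ ∫ x in Ioi X, C ^ 2 * x ^ (2 * ε - 2 * σ) := by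
          refine setIntegral_mono_set hint ?_ (ae_of_all _ Ioc_subset_Ioi_self)
          refine (ae_restrict_iff' measurableSet_Ioi).mpr (ae_of_all _ fun x hx => ?_)
          have hx0 : 0 < x := hX0.trans hx
          simp only [Pi.zero_apply]
          positivity
      _ = C ^ 2 * (X ^ (1 - 2 * σ + 2 * ε) / (2 * σ - 1 - 2 * ε)) := by
          rw [integral_const_mul, integral_Ioi_rpow_of_lt hexp hX0]
          rw [show 2 * ε - 2 * σ + 1 = 1 - 2 * σ + 2 * ε by ring]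
          rw [show (1 - 2 * σ + 2 * ε : ℝ) = -(2 * σ - 1 - 2 * ε) by ring, neg_div_neg_eq]
      _ ≤ C ^ 2 * (X ^ (1 - 2 * σ + 2 * ε) / (2 * ε)) := by
          gcongr
          linarith
      _ = C ^ 2 / (2 * ε) * X ^ (1 - 2 * σ + 2 * ε) := by ring
  refine h1.trans ?_
  calc X ^ ε * (X ^ ε) ^ 2 * (Nat.totient q : ℝ) * ∫ x in Ioc X Y, V x q * x ^ (-1 - 2 * σ)
      ≤ X ^ ε * (X ^ ε) ^ 2 * (Nat.totient q : ℝ)
          * (C ^ 2 / (2 * ε) * X ^ (1 - 2 * σ + 2 * ε)) := by gcongr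
    _ ≤ X ^ ε * (X ^ ε) ^ 2 * (Nat.totient q : ℝ) * (X ^ ε * X ^ (1 - 2 * σ + 2 * ε)) := by gcongr
    _ = (Nat.totient q : ℝ) * (X ^ ε * X ^ ε * X ^ ε * X ^ ε * X ^ (1 - 2 * σ + 2 * ε)) := by ring
    _ = (Nat.totient q : ℝ) * X ^ (1 - 2 * σ + 6 * ε) := by
        rw [← Real.rpow_add hX0, ← Real.rpow_add hX0, ← Real.rpow_add hX0, ← Real.rpow_add hX0]
        congr 2
        ring
    _ ≤ (Nat.totient q : ℝ) * X ^ (1 - 2 * σ + 7 * ε) := by
        gcongr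
        norm_num

end Pool.Agent.EM
end

section

/-!
# La: order of a zero from a factorization
-/

set_option autoImplicit false

namespace Pool.Agent.TS

open Complex Metric Set MeasureTheory
open Pool.Agent.EM

/-- La. PROOF. Let `S = {j | ρ j = z}`, `m = S.card`. Near `z`:
`f w = (w - z)^m • (∏_{j ∉ S} (w - ρ j) * g w)` (split the product over `S` and its complement,
`Finset.prod_filter_mul_prod_filter_not`, and on `S` all factors are `w - z`,
`Finset.prod_const`); the second factor `h` is analytic at `z` with `h z ≠ 0`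
(`Finset.prod_ne_zero_iff`). So `analyticOrderAt f z = m`
(`AnalyticAt.analyticOrderAt_eq_natCast`; `f` is analytic at `z` as it is eventually equal to an
analytic function), and `analyticOrderNatAt` is its `toNat`. -/
lemma order_prod (f g : ℂ → ℂ) (n : ℕ) (ρ : Fin n → ℂ) (z : ℂ) (hg : AnalyticAt ℂ g z)
    (hgz : g z ≠ 0) (hfg : ∀ᶠ w in nhds z, f w = (∏ j, (w - ρ j)) * g w) :
    analyticOrderNatAt f z = (Finset.univ.filter (fun j => ρ j = z)).card := by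
  classical
  have hh : AnalyticAt ℂ (fun w => (∏ j ∈ Finset.univ.filter (fun j => ¬ ρ j = z), (w - ρ j)) * g w)
      z := by
    refine AnalyticAt.mul ?_ hg
    have h1 : AnalyticAt ℂ (∏ j ∈ Finset.univ.filter (fun j => ¬ ρ j = z),
        (fun w : ℂ => w - ρ j)) z :=
      Finset.analyticAt_prod _ (fun j _ => analyticAt_id.sub analyticAt_const)
    have h2 : (∏ j ∈ Finset.univ.filter (fun j => ¬ ρ j = z), (fun w : ℂ => w - ρ j)) =
        fun w => ∏ j ∈ Finset.univ.filter (fun j => ¬ ρ j = z), (w - ρ j) := by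
      funext w
      simp [Finset.prod_apply]
    rw [← h2]
    exact h1
  have hhz : (∏ j ∈ Finset.univ.filter (fun j => ¬ ρ j = z), (z - ρ j)) * g z ≠ 0 := by
    refine mul_ne_zero (Finset.prod_ne_zero_iff.2 (fun j hj => ?_)) hgz
    rw [Finset.mem_filter] at hj
    exact sub_ne_zero.2 (fun h => hj.2 h.symm)
  have hsp : ∀ w : ℂ, (∏ j, (w - ρ j)) * g w =
      (w - z) ^ (Finset.univ.filter (fun j => ρ j = z)).card •
        ((∏ j ∈ Finset.univ.filter (fun j => ¬ ρ j = z), (w - ρ j)) * g w) := by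
    intro w
    rw [← Finset.prod_filter_mul_prod_filter_not Finset.univ (fun j => ρ j = z)
      (fun j => w - ρ j), smul_eq_mul, mul_assoc]
    congr 1
    rw [← Finset.prod_const]
    refine Finset.prod_congr rfl (fun j hj => ?_)
    rw [Finset.mem_filter] at hj
    rw [hj.2]
  have hf : AnalyticAt ℂ f z := by
    have h3 : AnalyticAt ℂ (fun w => (w - z) ^ (Finset.univ.filter (fun j => ρ j = z)).card •
        ((∏ j ∈ Finset.univ.filter (fun j => ¬ ρ j = z), (w - ρ j)) * g w)) z :=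
      ((analyticAt_id.sub analyticAt_const).pow _).smul hh
    refine h3.congr ?_
    filter_upwards [hfg] with w hw
    rw [hw, hsp w]
  have hord : analyticOrderAt f z = ((Finset.univ.filter (fun j => ρ j = z)).card : ℕ) := by
    rw [hf.analyticOrderAt_eq_natCast]
    refine ⟨_, hh, hhz, ?_⟩
    filter_upwards [hfg] with w hw
    rw [hw, hsp w]
  unfold analyticOrderNatAt
  rw [hord]
  rfl

end Pool.Agent.TS
end

section

/-!
# Lb: number of zeros in a disc, with multiplicity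
-/

set_option autoImplicit false

namespace Pool.Agent.TS

open Complex Metric Set MeasureTheory
open Pool.Agent.EM

/-- Lb. PROOF. `factor_zeros f c (7/4) (39/20)` (EMZeros; `f c ≠ 0` by `hc`) gives `n`, `ρ`, `g`, and
`count_bound` gives `n ≤ 20 T`. For `z ∈ S` we have `g z ≠ 0` and (as `closedBall c (39/20)` is a
neighbourhood of `z`) `order_prod` gives the order `#{j | ρ j = z}`. The sum over the different
`z ∈ S` of `#{j | ρ j = z}` is at most `n` (`Finset.card_biUnion`, or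
`Finset.sum_card_fiberwise_le_card`... : `∑ z ∈ S, #{j | ρ j = z} = #{j | ρ j ∈ S} ≤ n`,
`Finset.card_eq_sum_card_fiberwise`). -/
lemma count_mult (f : ℂ → ℂ) (c : ℂ) (T : ℝ) (hT : 0 ≤ T)
    (hf : AnalyticOnNhd ℂ f (closedBall c (39 / 20)))
    (hb : ∀ z ∈ closedBall c (39 / 20), ‖f z‖ ≤ Real.exp T) (hc : Real.exp (-T) ≤ ‖f c‖)
    (S : Finset ℂ) (hS : ∀ z ∈ S, z ∈ closedBall c (7 / 4)) :
    ∑ z ∈ S, (analyticOrderNatAt f z : ℝ) ≤ 20 * T := by
  classical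
  have hfc : f c ≠ 0 := by
    intro h; rw [h, norm_zero] at hc
    linarith [Real.exp_pos (-T)]
  obtain ⟨n, ρ, g, hg, hfg, hρ, hg0⟩ := factor_zeros f c (7 / 4) (39 / 20) (by norm_num)
    (by norm_num) hf hfc
  obtain ⟨hn, -⟩ := count_bound n f g ρ c T hT hg hfg hρ hb hc
  have hsub : closedBall c (7 / 4) ⊆ closedBall c (39 / 20) :=
    closedBall_subset_closedBall (by norm_num)
  have hball : closedBall c (7 / 4) ⊆ ball c (39 / 20) :=
    closedBall_subset_ball (by norm_num)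
  have hord : ∀ z ∈ S, analyticOrderNatAt f z =
      (Finset.univ.filter (fun j => ρ j = z)).card := by
    intro z hz
    refine order_prod f g n ρ z (hg z (hsub (hS z hz))) (hg0 z (hS z hz)) ?_
    filter_upwards [isOpen_ball.mem_nhds (hball (hS z hz))] with w hw
    exact hfg w (ball_subset_closedBall hw)
  have hsum : ∑ z ∈ S, analyticOrderNatAt f z ≤ n := by
    rw [Finset.sum_congr rfl hord]
    have h1 : ∑ z ∈ S, (Finset.univ.filter (fun j => ρ j = z)).card =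
        (S.biUnion (fun z => Finset.univ.filter (fun j => ρ j = z))).card := by
      rw [Finset.card_biUnion]
      intro x _ y _ hxy
      change Disjoint _ _
      rw [Finset.disjoint_left]
      intro j hj hj'
      rw [Finset.mem_filter] at hj hj'
      exact hxy (hj.2.symm.trans hj'.2)
    rw [h1]
    calc _ ≤ (Finset.univ : Finset (Fin n)).card := Finset.card_le_univ _
      _ = n := by simp
  have h2 : ∑ z ∈ S, (analyticOrderNatAt f z : ℝ) ≤ (n : ℝ) := by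
    exact_mod_cast hsum
  linarith

end Pool.Agent.TS
end

section

/-!
# Ld: zeros in a box of height one
-/

set_option autoImplicit false

namespace Pool.Agent.TS

open Complex Metric Set MeasureTheory
open Pool.Agent.EM

/-- Ld. PROOF. `c = 2 + i t`, `T = (2 A + 2) log X`, `count_mult` for `f = FF q χ`, as in
`ZD_coeff_lower` (file ZDCoeff.lean, copy from there): for `z` in the closed ball of radius `39/20`
about `c`: `Re z ≥ 1/20`, `‖z‖ + 1 ≤ 2 + |t| + 39/20 + 1 ≤ 7 X^A` (`X^A ≥ 1`), so `FF_growth` gives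
`‖FF z‖ ≤ 61 X · 49 X^(2A) ≤ X^(2A+2) = exp T` for `X ≥ 3000`; `‖FF c‖ ≥ 1/3 ≥ exp (-T)`
(`ZD_FF_lower`). A zero `ρ` of the box has `1/2 ≤ Re ρ < 1` (`ZD_FF_ne`), so
`‖ρ - c‖² ≤ (3/2)² + 1/4 ≤ (7/4)²`. `C = 20 (2 A + 2)`. -/
lemma box_count (A : ℕ) : ∃ C X₁ : ℝ, 1 ≤ C ∧ ∀ (q : ℕ) [NeZero q] (X : ℝ), (q : ℝ) ≤ X →
    X₁ ≤ X → ∀ (χ : DirichletCharacter ℂ q) (t : ℝ), |t| ≤ X ^ A + 1 → ∀ S : Finset ℂ,
    (∀ ρ ∈ S, MC.FF q χ ρ = 0 ∧ 1 / 2 ≤ ρ.re ∧ |ρ.im - t| ≤ 1 / 2) →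
    ∑ ρ ∈ S, mu χ ρ ≤ C * Real.log X := by
  have hA0 : (0 : ℝ) ≤ A := Nat.cast_nonneg A
  refine ⟨20 * (2 * A + 2), 3000, by linarith, fun q _ X hqX hX3000 χ t ht S hS => ?_⟩
  have hq0 : (0 : ℝ) < X := by linarith
  have hX1 : (1 : ℝ) ≤ X := by linarith
  have hXA1 : (1 : ℝ) ≤ X ^ A := one_le_pow₀ hX1
  set ℓ : ℝ := Real.log X with hℓ
  have hℓ0 : 0 ≤ ℓ := Real.log_nonneg hX1
  set c : ℂ := 2 + t * I with hc
  have hcre : c.re = 2 := by rw [hc]; simp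
  have hcim : c.im = t := by rw [hc]; simp
  have hcn : ‖c‖ ≤ X ^ A + 3 := by
    calc ‖c‖ ≤ |c.re| + |c.im| := Complex.norm_le_abs_re_add_abs_im c
      _ ≤ 2 + (X ^ A + 1) := by
          rw [hcre, hcim, abs_of_nonneg (by norm_num : (0 : ℝ) ≤ 2)]
          linarith
      _ = _ := by ring
  have hexpT : Real.exp ((2 * A + 2) * ℓ) = X ^ (2 * A + 2) := by
    rw [hℓ]
    rw [show ((2 : ℝ) * A + 2) * Real.log X = ((2 * A + 2 : ℕ) : ℝ) * Real.log X by push_cast; ring]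
    rw [Real.exp_nat_mul, Real.exp_log hq0]
  have hana : AnalyticOnNhd ℂ (MC.FF q χ) (closedBall c (39 / 20)) :=
    ((MC.FF_differentiable q χ).differentiableOn.analyticOnNhd isOpen_univ).mono (subset_univ _)
  have hbd : ∀ z ∈ closedBall c (39 / 20), ‖MC.FF q χ z‖ ≤ Real.exp ((2 * A + 2) * ℓ) := by
    intro z hz
    rw [mem_closedBall, dist_eq_norm] at hz
    have hre := Complex.abs_re_le_norm (z - c)
    rw [Complex.sub_re, hcre, abs_le] at hre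
    have h3 := FF_growth q χ z (by linarith)
    have h4 : ‖z‖ + 1 ≤ 7 * X ^ A := by
      calc ‖z‖ + 1 = ‖(z - c) + c‖ + 1 := by ring_nf
        _ ≤ ‖z - c‖ + ‖c‖ + 1 := by gcongr; exact norm_add_le _ _
        _ ≤ 39 / 20 + (X ^ A + 3) + 1 := by gcongr
        _ ≤ 7 * X ^ A := by linarith
    have h5 : (40 * (q : ℝ) + 21) ≤ 61 * X := by linarith
    rw [hexpT]
    calc ‖MC.FF q χ z‖ ≤ (40 * q + 21) * (‖z‖ + 1) ^ 2 := h3
      _ ≤ (61 * X) * (7 * X ^ A) ^ 2 := by gcongr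
      _ = 2989 * (X * (X ^ A) ^ 2) := by ring
      _ ≤ X * (X * (X ^ A) ^ 2) := by
          have : 0 ≤ X * (X ^ A) ^ 2 := by positivity
          nlinarith
      _ = X ^ (2 * A + 2) := by ring
  have hlow : Real.exp (-((2 * A + 2) * ℓ)) ≤ ‖MC.FF q χ c‖ := by
    refine le_trans ?_ (ZD_FF_lower q χ c (by linarith))
    rw [Real.exp_neg, hexpT, inv_le_comm₀ (by positivity) (by norm_num)]
    have h1 : X ≤ X ^ (2 * A + 2) := by
      calc X = X ^ 1 := (pow_one X).symm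
        _ ≤ X ^ (2 * A + 2) := pow_le_pow_right₀ hX1 (by omega)
    norm_num
    linarith
  have hball : ∀ z ∈ S, z ∈ closedBall c (7 / 4) := by
    intro z hz
    obtain ⟨h0, h1, h2⟩ := hS z hz
    have h3 : z.re < 1 := by
      by_contra hge
      exact ZD_FF_ne q χ z (not_lt.mp hge) h0
    rw [mem_closedBall, dist_eq_norm]
    have h4 : ‖z - c‖ ^ 2 ≤ (7 / 4) ^ 2 := by
      rw [← Complex.normSq_eq_norm_sq, Complex.normSq_apply, Complex.sub_re, Complex.sub_im, hcre,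
        hcim]
      have h5 : (z.im - t) * (z.im - t) ≤ 1 / 2 * (1 / 2) := by
        rw [abs_le] at h2
        nlinarith
      have h6 : (z.re - 2) * (z.re - 2) ≤ 3 / 2 * (3 / 2) := by nlinarith
      linarith
    exact le_of_sq_le_sq h4 (by norm_num)
  have h := count_mult (MC.FF q χ) c ((2 * A + 2) * ℓ) (by positivity) hana hbd hlow S hball
  calc ∑ ρ ∈ S, mu χ ρ = ∑ z ∈ S, (analyticOrderNatAt (MC.FF q χ) z : ℝ) := rfl
    _ ≤ 20 * ((2 * A + 2) * ℓ) := h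
    _ = 20 * (2 * A + 2) * ℓ := by ring

end Pool.Agent.TS
end
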