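import Pool.Agent.Lib.MP_9cfc0a_nt.Mg.G076
import Pool.Agent.Lib.MP_9cfc0a_nt.TS.Defs
import Pool.Agent.Lib.MP_9cfc0a_nt.Mg.G077
import Pool.Agent.Lib.MP_9cfc0a_nt.TS.Li
import Pool.Agent.Lib.MP_9cfc0a_nt.Mg.G070

section

/-!
# Le: a sum over integers
-/

set_option autoImplicit false

namespace Pool.Agent.TS

open Complex Metric Set MeasureTheory
open Pool.Agent.EM

/-- Le. PROOF. `n ↦ 1 / (1 + n^2)` is summable over `ℤ` (compare with `1 / n^2`, or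
`Summable.of_nat_of_neg`...); let `C` be its sum (`> 0`, or add `1`). Translation by `m`
(`Equiv.addRight`, or `Finset.sum_image` with the injection `n ↦ n - m`) and
`Summable.sum_le_tsum`. -/
lemma sum_int_bound : ∃ C : ℝ, 1 ≤ C ∧ ∀ (S : Finset ℤ) (m : ℤ),
    ∑ n ∈ S, 1 / (1 + ((n : ℝ) - m) ^ 2) ≤ C := by
  have hs : Summable (fun n : ℤ => 1 / (1 + (n : ℝ) ^ 2)) := by
    have h2 : Summable (fun n : ℤ => 1 / (n : ℝ) ^ 2) :=
      Real.summable_one_div_int_pow.mpr one_lt_two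
    have h3 : Summable (fun n : ℤ => if n = 0 then (1 : ℝ) else 0) := by
      refine summable_of_ne_finset_zero (s := {0}) ?_
      intro b hb
      rw [if_neg]
      simpa using hb
    refine Summable.of_nonneg_of_le (fun n => by positivity) (fun n => ?_) (h2.add h3)
    by_cases hn : n = 0
    · subst hn
      simp
    · rw [if_neg hn, add_zero]
      have h4 : 0 < (n : ℝ) ^ 2 := by
        have : (n : ℝ) ≠ 0 := by exact_mod_cast hn
        positivity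
      exact one_div_le_one_div_of_le h4 (by linarith)
  have hnn : ∀ n : ℤ, 0 ≤ 1 / (1 + (n : ℝ) ^ 2) := fun n => by positivity
  refine ⟨1 + ∑' n : ℤ, 1 / (1 + (n : ℝ) ^ 2), ?_, ?_⟩
  · have h0 : 0 ≤ ∑' n : ℤ, 1 / (1 + (n : ℝ) ^ 2) := tsum_nonneg hnn
    linarith
  · intro S m
    have h1 : ∑ n ∈ S, 1 / (1 + ((n : ℝ) - m) ^ 2) =
        ∑ k ∈ S.map (Equiv.subRight m).toEmbedding, 1 / (1 + (k : ℝ) ^ 2) := by
      rw [Finset.sum_map]
      refine Finset.sum_congr rfl fun n _ => ?_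
      simp [Equiv.subRight]
    rw [h1]
    have h2 := hs.sum_le_tsum (S.map (Equiv.subRight m).toEmbedding) (fun n _ => hnn n)
    linarith

end Pool.Agent.TS
end

section

/-!
# Lf: weighted sum over the zeros
-/

set_option autoImplicit false

namespace Pool.Agent.TS

open Complex Metric Set MeasureTheory
open Pool.Agent.EM

private lemma Lf_weight (u y : ℝ) :
    9 / (9 + (u - y) ^ 2) ≤ 18 * (1 / (1 + (((⌊u⌋ : ℤ) : ℝ) - (⌊y⌋ : ℤ)) ^ 2)) := by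
  have h1 := Int.floor_le u
  have h2 := Int.lt_floor_add_one u
  have h3 := Int.floor_le y
  have h4 := Int.lt_floor_add_one y
  set n : ℝ := ((⌊u⌋ : ℤ) : ℝ) with hn
  set m : ℝ := ((⌊y⌋ : ℤ) : ℝ) with hm
  have h5 : (n - m) ^ 2 ≤ (|u - y| + 1) ^ 2 := by
    rw [sq_le_sq, abs_of_nonneg (by positivity : 0 ≤ |u - y| + 1), abs_le]
    have h6 := neg_abs_le (u - y)
    have h7 := le_abs_self (u - y)
    constructor <;> linarith
  have h8 : (|u - y| + 1) ^ 2 ≤ 2 * (u - y) ^ 2 + 2 := by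
    have h9 := sq_nonneg (|u - y| - 1)
    have h10 := sq_abs (u - y)
    nlinarith
  rw [mul_one_div, div_le_div_iff₀ (by positivity) (by positivity)]
  nlinarith [sq_nonneg (u - y)]

/-- Lf. PROOF. Group the zeros by `n = ⌊Im ρ⌋` (`Finset.sum_fiberwise_of_maps_to` with the image of
`S` under `ρ ↦ ⌊ρ.im⌋`). In the group of `n`, `|Im ρ - (n + 1/2)| ≤ 1/2` and `|n + 1/2| ≤ X^A + 1`
(as `|Im ρ| ≤ X^A`; a nonempty group), so `box_count` bounds the sum of the multiplicities by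
`C₁ log X`; and with `m = ⌊y⌋`, `v = Im ρ - y`: `|n - m| ≤ |v| + 1`, so
`1 + (n - m)² ≤ 2 v² + 3 ≤ 2 (9 + v²)` and `9 / (9 + v²) ≤ 18 / (1 + (n - m)²)`. Then `sum_int_bound`.
`C = 18 C₁ C₂`. -/
lemma weight_sum (A : ℕ) : ∃ C X₁ : ℝ, 1 ≤ C ∧ ∀ (q : ℕ) [NeZero q] (X : ℝ), (q : ℝ) ≤ X →
    X₁ ≤ X → ∀ (χ : DirichletCharacter ℂ q) (S : Finset ℂ),
    (∀ ρ ∈ S, MC.FF q χ ρ = 0 ∧ 1 / 2 ≤ ρ.re ∧ |ρ.im| ≤ X ^ A) →
    ∀ y : ℝ, ∑ ρ ∈ S, mu χ ρ * (9 / (9 + (ρ.im - y) ^ 2)) ≤ C * Real.log X := by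
  classical
  obtain ⟨C₁, X₁, hC₁, hbox⟩ := box_count A
  obtain ⟨C₂, hC₂, hsum⟩ := sum_int_bound
  refine ⟨18 * C₁ * C₂, max X₁ 1, by nlinarith, fun q _ X hqX hX χ S hS y => ?_⟩
  have hX1 : 1 ≤ X := (le_max_right _ _).trans hX
  have hX₁ : X₁ ≤ X := (le_max_left _ _).trans hX
  have hlog : 0 ≤ Real.log X := Real.log_nonneg hX1
  have hmu : ∀ ρ, 0 ≤ mu χ ρ := fun ρ => Nat.cast_nonneg _
  set m : ℤ := ⌊y⌋ with hm
  have hfib : ∑ ρ ∈ S, mu χ ρ * (9 / (9 + (ρ.im - y) ^ 2)) =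
      ∑ n ∈ S.image (fun ρ : ℂ => ⌊ρ.im⌋), ∑ ρ ∈ S with ⌊ρ.im⌋ = n,
        mu χ ρ * (9 / (9 + (ρ.im - y) ^ 2)) :=
    (Finset.sum_fiberwise_of_maps_to (fun ρ hρ => Finset.mem_image_of_mem _ hρ) _).symm
  rw [hfib]
  calc ∑ n ∈ S.image (fun ρ : ℂ => ⌊ρ.im⌋), ∑ ρ ∈ S with ⌊ρ.im⌋ = n,
        mu χ ρ * (9 / (9 + (ρ.im - y) ^ 2))
      ≤ ∑ n ∈ S.image (fun ρ : ℂ => ⌊ρ.im⌋),
          18 * (C₁ * Real.log X) * (1 / (1 + ((n : ℝ) - m) ^ 2)) := by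
        refine Finset.sum_le_sum fun n hn => ?_
        obtain ⟨ρ₀, hρ₀, hρn⟩ := Finset.mem_image.1 hn
        have h1 : ∑ ρ ∈ S with ⌊ρ.im⌋ = n, mu χ ρ * (9 / (9 + (ρ.im - y) ^ 2)) ≤
            ∑ ρ ∈ S with ⌊ρ.im⌋ = n, mu χ ρ * (18 * (1 / (1 + ((n : ℝ) - m) ^ 2))) := by
          refine Finset.sum_le_sum fun ρ hρ => ?_
          have h2 := (Finset.mem_filter.1 hρ).2
          have h3 := Lf_weight ρ.im y
          rw [h2] at h3
          exact mul_le_mul_of_nonneg_left h3 (hmu ρ)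
        have h4 : ∑ ρ ∈ S with ⌊ρ.im⌋ = n, mu χ ρ ≤ C₁ * Real.log X := by
          refine hbox q X hqX hX₁ χ ((n : ℝ) + 1 / 2) ?_ _ ?_
          · have h5 := (hS ρ₀ hρ₀).2.2
            have h6 := Int.floor_le ρ₀.im
            have h7 := Int.lt_floor_add_one ρ₀.im
            rw [hρn] at h6 h7
            rw [abs_le] at h5 ⊢
            constructor <;> linarith
          · intro ρ hρ
            have h2 := (Finset.mem_filter.1 hρ).2
            have hρS := (Finset.mem_filter.1 hρ).1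
            refine ⟨(hS ρ hρS).1, (hS ρ hρS).2.1, ?_⟩
            have h6 := Int.floor_le ρ.im
            have h7 := Int.lt_floor_add_one ρ.im
            rw [h2] at h6 h7
            rw [abs_le]
            constructor <;> linarith
        rw [← Finset.sum_mul] at h1
        refine h1.trans ?_
        have h8 : 0 ≤ 18 * (1 / (1 + ((n : ℝ) - m) ^ 2)) := by positivity
        calc (∑ ρ ∈ S with ⌊ρ.im⌋ = n, mu χ ρ) * (18 * (1 / (1 + ((n : ℝ) - m) ^ 2)))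
            ≤ (C₁ * Real.log X) * (18 * (1 / (1 + ((n : ℝ) - m) ^ 2))) :=
              mul_le_mul_of_nonneg_right h4 h8
          _ = _ := by ring
    _ = 18 * (C₁ * Real.log X) * ∑ n ∈ S.image (fun ρ : ℂ => ⌊ρ.im⌋),
          1 / (1 + ((n : ℝ) - m) ^ 2) := by rw [Finset.mul_sum]
    _ ≤ 18 * (C₁ * Real.log X) * C₂ :=
        mul_le_mul_of_nonneg_left (hsum _ m) (by positivity)
    _ = 18 * C₁ * C₂ * Real.log X := by ring

end Pool.Agent.TS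
end

section

/-!
# Lh: the inequality of Bessel and Selberg
-/

set_option autoImplicit false

namespace Pool.Agent.TS

open Complex Metric Set MeasureTheory
open Pool.Agent.EM

private lemma Lh_mul {α : Type*} [MeasurableSpace α] {μ : Measure α} {a b : α → ℂ}
    (ha : AEStronglyMeasurable a μ) (ha2 : Integrable (fun x => ‖a x‖ ^ 2) μ)
    (hb : AEStronglyMeasurable b μ) (hb2 : Integrable (fun x => ‖b x‖ ^ 2) μ) :
    Integrable (fun x => a x * b x) μ := by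
  refine Integrable.mono' (g := fun x => ‖a x‖ ^ 2 + ‖b x‖ ^ 2) (ha2.add hb2) (ha.mul hb)
    (Filter.Eventually.of_forall fun x => ?_)
  rw [norm_mul]
  nlinarith [sq_nonneg (‖a x‖ - ‖b x‖), sq_nonneg ‖a x‖, sq_nonneg ‖b x‖]

/-- Lh. PROOF. Put `Iᵢ = ∫ f hᵢ`, `Gᵢⱼ = ∫ hᵢ conj hⱼ` (`‖Gᵢⱼ‖ = ‖Gⱼᵢ‖`, `integral_conj`),
`G = ∑ mᵢ conj(Iᵢ) hᵢ` and `s = ∑ mᵢ ‖Iᵢ‖²`. All products of two square integrable functions are
integrable (`MemLp.integrable_mul` with `memLp_two_iff_integrable_sq_norm`, or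
`‖a b‖ ≤ (‖a‖² + ‖b‖²)/2`). `s = ∫ f G` (a real number), so with `‖f‖ ‖G‖ ≤ (R/2) ‖f‖² + ‖G‖²/(2 R)`:
`s ≤ (R/2) ∫ ‖f‖² + (1/(2R)) ∫ ‖G‖²`. And `∫ ‖G‖² = ∑ᵢⱼ mᵢ mⱼ conj(Iᵢ) Iⱼ Gᵢⱼ ≤
∑ᵢⱼ mᵢ mⱼ (‖Iᵢ‖² + ‖Iⱼ‖²)/2 ‖Gᵢⱼ‖ = ∑ᵢ mᵢ ‖Iᵢ‖² ∑ⱼ mⱼ ‖Gᵢⱼ‖ ≤ R s`. Hence `s ≤ (R/2) ∫ ‖f‖² + s/2`. -/
lemma bessel {α ι : Type*} [MeasurableSpace α] (μ : Measure α) (S : Finset ι) (m : ι → ℝ)
    (hm : ∀ i ∈ S, 0 ≤ m i) (f : α → ℂ) (h : ι → α → ℂ) (hf : AEStronglyMeasurable f μ)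
    (hf2 : Integrable (fun x => ‖f x‖ ^ 2) μ) (hh : ∀ i ∈ S, AEStronglyMeasurable (h i) μ)
    (hh2 : ∀ i ∈ S, Integrable (fun x => ‖h i x‖ ^ 2) μ) (R : ℝ) (hR : 0 < R)
    (hG : ∀ i ∈ S, ∑ j ∈ S, m j * ‖∫ x, h i x * (starRingEnd ℂ) (h j x) ∂μ‖ ≤ R) :
    ∑ i ∈ S, m i * ‖∫ x, f x * h i x ∂μ‖ ^ 2 ≤ R * ∫ x, ‖f x‖ ^ 2 ∂μ := by
  classical
  set I : ι → ℂ := fun i => ∫ x, f x * h i x ∂μ with hI
  set K : ι → ι → ℂ := fun i j => ∫ x, h i x * (starRingEnd ℂ) (h j x) ∂μ with hK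
  set s : ℝ := ∑ i ∈ S, m i * ‖I i‖ ^ 2 with hs
  set c : ι → ℂ := fun i => (m i : ℂ) * (starRingEnd ℂ) (I i) with hc
  set G : α → ℂ := fun x => ∑ i ∈ S, c i * h i x with hGdef
  have hcn : ∀ i ∈ S, ‖c i‖ = m i * ‖I i‖ := by
    intro i hi
    rw [hc]
    simp only [norm_mul, RCLike.norm_conj, Complex.norm_real, Real.norm_eq_abs,
      abs_of_nonneg (hm i hi)]
  have hstar : ∀ j ∈ S, AEStronglyMeasurable (fun x => (starRingEnd ℂ) (h j x)) μ := fun j hj =>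
    Complex.continuous_conj.comp_aestronglyMeasurable (hh j hj)
  have hstar2 : ∀ j ∈ S, Integrable (fun x => ‖(starRingEnd ℂ) (h j x)‖ ^ 2) μ := fun j hj => by
    simpa only [RCLike.norm_conj] using hh2 j hj
  have hfh : ∀ i ∈ S, Integrable (fun x => f x * h i x) μ := fun i hi =>
    Lh_mul hf hf2 (hh i hi) (hh2 i hi)
  have hhh : ∀ i ∈ S, ∀ j ∈ S, Integrable (fun x => h i x * (starRingEnd ℂ) (h j x)) μ :=
    fun i hi j hj => Lh_mul (hh i hi) (hh2 i hi) (hstar j hj) (hstar2 j hj)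
  -- the square of the norm of `G`
  have hGG : ∀ x, ((‖G x‖ ^ 2 : ℝ) : ℂ) =
      ∑ i ∈ S, ∑ j ∈ S, (c i * (starRingEnd ℂ) (c j)) * (h i x * (starRingEnd ℂ) (h j x)) := by
    intro x
    have h1 : ((‖G x‖ ^ 2 : ℝ) : ℂ) = G x * (starRingEnd ℂ) (G x) := by
      rw [Complex.mul_conj, Complex.normSq_eq_norm_sq]
    rw [h1, hGdef]
    simp only [map_sum, map_mul]
    rw [Finset.sum_mul_sum]
    refine Finset.sum_congr rfl fun i _ => Finset.sum_congr rfl fun j _ => ?_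
    ring
  have hGGint : Integrable (fun x => ((‖G x‖ ^ 2 : ℝ) : ℂ)) μ := by
    simp only [hGG]
    exact integrable_finsetSum _ fun i hi => integrable_finsetSum _ fun j hj =>
      (hhh i hi j hj).const_mul _
  have hG2 : Integrable (fun x => ‖G x‖ ^ 2) μ := by
    have := hGGint.re
    simpa only [RCLike.re_to_complex, Complex.ofReal_re] using this
  have hGm : AEStronglyMeasurable G μ :=
    Finset.aestronglyMeasurable_fun_sum _ fun i hi => (hh i hi).const_mul _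
  have hKsymm : ∀ i j, ‖K i j‖ = ‖K j i‖ := by
    intro i j
    have h1 : K i j = (starRingEnd ℂ) (K j i) := by
      rw [hK]
      simp only
      rw [← integral_conj]
      refine integral_congr_ae (Filter.Eventually.of_forall fun x => ?_)
      simp only [map_mul, Complex.conj_conj]
      ring
    rw [h1, RCLike.norm_conj]
  have hsG : ∫ x, ‖G x‖ ^ 2 ∂μ ≤ R * s := by
    have h1 : ((∫ x, ‖G x‖ ^ 2 ∂μ : ℝ) : ℂ) = ∑ i ∈ S, ∑ j ∈ S,
        (c i * (starRingEnd ℂ) (c j)) * K i j := by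
      rw [← integral_complex_ofReal]
      simp only [hGG]
      rw [integral_finsetSum _ fun i hi => integrable_finsetSum _ fun j hj =>
        (hhh i hi j hj).const_mul _]
      refine Finset.sum_congr rfl fun i hi => ?_
      rw [integral_finsetSum _ fun j hj => (hhh i hi j hj).const_mul _]
      refine Finset.sum_congr rfl fun j hj => ?_
      rw [integral_const_mul]
    have h2 : ∫ x, ‖G x‖ ^ 2 ∂μ ≤ ∑ i ∈ S, ∑ j ∈ S, (m i * ‖I i‖) * (m j * ‖I j‖) * ‖K i j‖ := by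
      calc ∫ x, ‖G x‖ ^ 2 ∂μ = ‖((∫ x, ‖G x‖ ^ 2 ∂μ : ℝ) : ℂ)‖ := by
            rw [Complex.norm_real, Real.norm_eq_abs, abs_of_nonneg]
            exact integral_nonneg fun x => by positivity
        _ = ‖∑ i ∈ S, ∑ j ∈ S, (c i * (starRingEnd ℂ) (c j)) * K i j‖ := by rw [h1]
        _ ≤ ∑ i ∈ S, ∑ j ∈ S, ‖(c i * (starRingEnd ℂ) (c j)) * K i j‖ :=
            (norm_sum_le _ _).trans (Finset.sum_le_sum fun i _ => norm_sum_le _ _)
        _ = _ := by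
            refine Finset.sum_congr rfl fun i hi => Finset.sum_congr rfl fun j hj => ?_
            rw [norm_mul, norm_mul, RCLike.norm_conj, hcn i hi, hcn j hj]
    have h3 : ∑ i ∈ S, ∑ j ∈ S, (m i * ‖I i‖) * (m j * ‖I j‖) * ‖K i j‖ ≤
        ∑ i ∈ S, ∑ j ∈ S, (m i * m j * ‖K i j‖ * ‖I i‖ ^ 2 / 2 +
          m i * m j * ‖K i j‖ * ‖I j‖ ^ 2 / 2) := by
      refine Finset.sum_le_sum fun i hi => Finset.sum_le_sum fun j hj => ?_
      have h4 : 0 ≤ m i * m j * ‖K i j‖ :=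
        mul_nonneg (mul_nonneg (hm i hi) (hm j hj)) (norm_nonneg _)
      nlinarith [mul_nonneg h4 (sq_nonneg (‖I i‖ - ‖I j‖))]
    have h4 : ∑ i ∈ S, ∑ j ∈ S, (m i * m j * ‖K i j‖ * ‖I i‖ ^ 2 / 2 +
          m i * m j * ‖K i j‖ * ‖I j‖ ^ 2 / 2) =
        ∑ i ∈ S, m i * ‖I i‖ ^ 2 * ∑ j ∈ S, m j * ‖K i j‖ := by
      have h5 : ∑ i ∈ S, ∑ j ∈ S, m i * m j * ‖K i j‖ * ‖I j‖ ^ 2 / 2 =
          ∑ i ∈ S, ∑ j ∈ S, m i * m j * ‖K i j‖ * ‖I i‖ ^ 2 / 2 := by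
        rw [Finset.sum_comm]
        refine Finset.sum_congr rfl fun i _ => Finset.sum_congr rfl fun j _ => ?_
        rw [hKsymm j i]
        ring
      simp only [Finset.sum_add_distrib]
      rw [h5, ← Finset.sum_add_distrib]
      refine Finset.sum_congr rfl fun i _ => ?_
      rw [← Finset.sum_add_distrib, Finset.mul_sum]
      refine Finset.sum_congr rfl fun j _ => ?_
      ring
    have h6 : ∑ i ∈ S, m i * ‖I i‖ ^ 2 * ∑ j ∈ S, m j * ‖K i j‖ ≤ R * s := by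
      rw [hs, Finset.mul_sum]
      refine Finset.sum_le_sum fun i hi => ?_
      have h7 := mul_le_mul_of_nonneg_left (hG i hi)
        (mul_nonneg (hm i hi) (sq_nonneg ‖I i‖))
      linarith
    linarith
  have hsf : (s : ℂ) = ∫ x, f x * G x ∂μ := by
    have h1 : ∀ x, f x * G x = ∑ i ∈ S, c i * (f x * h i x) := by
      intro x
      rw [hGdef]
      simp only
      rw [Finset.mul_sum]
      refine Finset.sum_congr rfl fun i _ => ?_
      ring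
    simp only [h1]
    rw [integral_finsetSum _ fun i hi => (hfh i hi).const_mul _, hs]
    push_cast
    refine Finset.sum_congr rfl fun i _ => ?_
    rw [integral_const_mul]
    change (m i : ℂ) * (‖I i‖ : ℂ) ^ 2 = (m i : ℂ) * (starRingEnd ℂ) (I i) * I i
    rw [mul_assoc, mul_comm ((starRingEnd ℂ) (I i)) (I i), Complex.mul_conj,
      Complex.normSq_eq_norm_sq]
    push_cast
    rfl
  have hsle : s ≤ R / 2 * ∫ x, ‖f x‖ ^ 2 ∂μ + 1 / (2 * R) * ∫ x, ‖G x‖ ^ 2 ∂μ := by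
    have h1 : s ≤ ‖∫ x, f x * G x ∂μ‖ := by
      rw [← hsf, Complex.norm_real]
      exact Real.le_norm_self s
    have h2 : ‖∫ x, f x * G x ∂μ‖ ≤ ∫ x, (R / 2 * ‖f x‖ ^ 2 + 1 / (2 * R) * ‖G x‖ ^ 2) ∂μ := by
      refine norm_integral_le_of_norm_le ((hf2.const_mul _).add (hG2.const_mul _))
        (Filter.Eventually.of_forall fun x => ?_)
      rw [norm_mul]
      have h3 : 0 ≤ (R * ‖f x‖ - ‖G x‖) ^ 2 / (2 * R) := by positivity
      have h4 : (R * ‖f x‖ - ‖G x‖) ^ 2 / (2 * R) =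
          R / 2 * ‖f x‖ ^ 2 + 1 / (2 * R) * ‖G x‖ ^ 2 - ‖f x‖ * ‖G x‖ := by
        field_simp
        ring
      linarith
    rw [integral_add (hf2.const_mul _) (hG2.const_mul _), integral_const_mul,
      integral_const_mul] at h2
    linarith
  have h8 : 1 / (2 * R) * ∫ x, ‖G x‖ ^ 2 ∂μ ≤ s / 2 := by
    calc 1 / (2 * R) * ∫ x, ‖G x‖ ^ 2 ∂μ ≤ 1 / (2 * R) * (R * s) :=
          mul_le_mul_of_nonneg_left hsG (by positivity)
      _ = s / 2 := by field_simp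
  linarith

end Pool.Agent.TS
end

section

/-!
# Lj: Bessel inequality for the zeros
-/

set_option autoImplicit false

namespace Pool.Agent.TS

open Complex Metric Set MeasureTheory
open Pool.Agent.EM

/-- Lj. PROOF. `bessel` with `μ = volume.restrict (Ioi 1)`,
`f = (Ioc X Y).indicator (fun x => g x * (x^(-(1/2+σ)) : ℝ))`, `h ρ = hh σ j ρ`,
`R' = R (2/3)^(2j)`, and `gram_bound`. For `x ∈ Ioc X Y` (so `x > 1`)
`f x * hh σ j ρ x = g x * ((log x)^j / j!) * x^(-(ρ+5/2))` and `‖f x‖² = ‖g x‖² x^(-1-2σ)`;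
integrals of indicators: `setIntegral_indicator`, `integral_indicator`, `Ioc X Y ⊆ Ioi 1`. -/
lemma bessel_zeros (σ : ℝ) (j : ℕ) (hj : 1 ≤ j) (S : Finset ℂ) (m : ℂ → ℝ)
    (hm : ∀ ρ ∈ S, 0 ≤ m ρ) (hσ : ∀ ρ ∈ S, σ ≤ ρ.re) (R : ℝ) (hR : 0 < R)
    (hS : ∀ ρ ∈ S, ∑ ρ' ∈ S, m ρ' * (9 / (9 + (ρ'.im - ρ.im) ^ 2)) ≤ R)
    (g : ℝ → ℂ) (hg : Measurable g) (X Y : ℝ) (hX : 1 ≤ X)
    (hint : IntegrableOn (fun x => ‖g x‖ ^ 2 * x ^ (-1 - 2 * σ)) (Ioc X Y)) :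
    ∑ ρ ∈ S, m ρ * ‖∫ x in Ioc X Y, g x * ((Real.log x ^ j / (j.factorial : ℝ) : ℝ) : ℂ) *
        (x : ℂ) ^ (-(ρ + 5 / 2))‖ ^ 2
      ≤ R * (2 / 3 : ℝ) ^ (2 * j) * ∫ x in Ioc X Y, ‖g x‖ ^ 2 * x ^ (-1 - 2 * σ) := by
  have hsub : Ioc X Y ⊆ Ioi 1 := fun x hx => lt_of_le_of_lt hX hx.1
  have hinter : Ioi (1 : ℝ) ∩ Ioc X Y = Ioc X Y := Set.inter_eq_right.mpr hsub
  set G : ℝ → ℂ := fun x => g x * ((x ^ (-(1 / 2 + σ)) : ℝ) : ℂ) with hG
  have hGm : Measurable G := by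
    rw [hG]
    exact hg.mul (Complex.measurable_ofReal.comp (by fun_prop))
  have hGn : ∀ x ∈ Ioc X Y, ‖G x‖ ^ 2 = ‖g x‖ ^ 2 * x ^ (-1 - 2 * σ) := by
    intro x hx
    have hx1 : 1 < x := hsub hx
    have hx0 : 0 < x := by linarith
    rw [hG]
    simp only
    rw [norm_mul, Complex.norm_real, Real.norm_of_nonneg (by positivity), mul_pow,
      ← Real.rpow_natCast (x ^ (-(1 / 2 + σ))) 2, ← Real.rpow_mul hx0.le]
    congr 2
    push_cast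
    ring
  have hGI : IntegrableOn (fun x => ‖G x‖ ^ 2) (Ioc X Y) :=
    hint.congr_fun (fun x hx => (hGn x hx).symm) measurableSet_Ioc
  have hfn : (fun x => ‖(Ioc X Y).indicator G x‖ ^ 2) = (Ioc X Y).indicator (fun x => ‖G x‖ ^ 2) := by
    ext x
    by_cases hx : x ∈ Ioc X Y
    · rw [Set.indicator_of_mem hx, Set.indicator_of_mem hx]
    · rw [Set.indicator_of_notMem hx, Set.indicator_of_notMem hx, norm_zero]
      norm_num
  have hb := bessel (volume.restrict (Ioi (1 : ℝ))) S m hm ((Ioc X Y).indicator G)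
    (fun ρ => hh σ j ρ) (hGm.indicator measurableSet_Ioc).aestronglyMeasurable
    (by
      rw [hfn]
      exact ((integrable_indicator_iff measurableSet_Ioc).mpr hGI).restrict)
    (fun ρ _ => (hh_measurable σ j ρ).aestronglyMeasurable)
    (fun ρ hρ => hh_sq_integrable σ j ρ (hσ ρ hρ)) (R * (2 / 3 : ℝ) ^ (2 * j)) (by positivity)
    (by
      intro ρ hρ
      calc ∑ ρ' ∈ S, m ρ' * ‖∫ x in Ioi (1 : ℝ), hh σ j ρ x * (starRingEnd ℂ) (hh σ j ρ' x)‖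
          ≤ ∑ ρ' ∈ S, m ρ' * ((2 / 3 : ℝ) ^ (2 * j) * (9 / (9 + (ρ'.im - ρ.im) ^ 2))) :=
            Finset.sum_le_sum fun ρ' hρ' => mul_le_mul_of_nonneg_left
              (gram_bound σ j hj ρ ρ' (hσ ρ hρ) (hσ ρ' hρ')) (hm ρ' hρ')
        _ = (2 / 3 : ℝ) ^ (2 * j) * ∑ ρ' ∈ S, m ρ' * (9 / (9 + (ρ'.im - ρ.im) ^ 2)) := by
            rw [Finset.mul_sum]
            exact Finset.sum_congr rfl fun ρ' _ => by ring
        _ ≤ (2 / 3 : ℝ) ^ (2 * j) * R := by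
            have := hS ρ hρ
            gcongr
        _ = R * (2 / 3 : ℝ) ^ (2 * j) := mul_comm _ _)
  have hL : ∀ ρ : ℂ, ∫ x in Ioi (1 : ℝ), (Ioc X Y).indicator G x * hh σ j ρ x =
      ∫ x in Ioc X Y, g x * ((Real.log x ^ j / (j.factorial : ℝ) : ℝ) : ℂ) *
        (x : ℂ) ^ (-(ρ + 5 / 2)) := by
    intro ρ
    have e1 : (fun x => (Ioc X Y).indicator G x * hh σ j ρ x) =
        (Ioc X Y).indicator (fun x => G x * hh σ j ρ x) := by
      ext x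
      by_cases hx : x ∈ Ioc X Y
      · rw [Set.indicator_of_mem hx, Set.indicator_of_mem hx]
      · rw [Set.indicator_of_notMem hx, Set.indicator_of_notMem hx, zero_mul]
    rw [e1, setIntegral_indicator measurableSet_Ioc, hinter]
    refine setIntegral_congr_fun measurableSet_Ioc fun x hx => ?_
    have hx1 : 1 < x := hsub hx
    have hx0 : 0 < x := by linarith
    have e2 : ((x ^ (-(1 / 2 + σ)) : ℝ) : ℂ) * ((x ^ (1 / 2 + σ) : ℝ) : ℂ) = 1 := by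
      rw [← Complex.ofReal_mul, ← Real.rpow_add hx0]
      simp
    simp only [hG, hh]
    calc g x * ((x ^ (-(1 / 2 + σ)) : ℝ) : ℂ) *
          (((Real.log x ^ j / (j.factorial : ℝ) : ℝ) : ℂ) * (x : ℂ) ^ (-(ρ + 5 / 2)) *
            ((x ^ (1 / 2 + σ) : ℝ) : ℂ))
        = g x * ((Real.log x ^ j / (j.factorial : ℝ) : ℝ) : ℂ) * (x : ℂ) ^ (-(ρ + 5 / 2)) *
          (((x ^ (-(1 / 2 + σ)) : ℝ) : ℂ) * ((x ^ (1 / 2 + σ) : ℝ) : ℂ)) := by ring
      _ = _ := by rw [e2, mul_one]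
  have hR2 : ∫ x in Ioi (1 : ℝ), ‖(Ioc X Y).indicator G x‖ ^ 2 =
      ∫ x in Ioc X Y, ‖g x‖ ^ 2 * x ^ (-1 - 2 * σ) := by
    rw [hfn, setIntegral_indicator measurableSet_Ioc, hinter]
    exact setIntegral_congr_fun measurableSet_Ioc hGn
  rw [hR2] at hb
  simp only [hL] at hb
  exact hb

end Pool.Agent.TS
end

section

/-!
# Lm: the main part of the Mellin transform is the window
-/

set_option autoImplicit false

namespace Pool.Agent.TS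

open Complex Metric Set MeasureTheory
open Pool.Agent.EM

/-- Lm. PROOF. `MT (ZDf χ n) s₀ / n! = ∫_{(1,∞)} gC χ x · ((log x)^n / n!) · x^(-(s₀+1))` (pull out the
constant); integrable (`MC.MT_integrable` with `ZDf_meas`, `ZDf_bound`). Split
`Ioi 1 = Ioc 1 X ∪ Ioc X Y ∪ Ioi Y` as in the proof of `ZD_key` (ZDKey.lean). On `Ioc 1 X` and on `Ioi Y`
the norm of the integrand is `‖gC χ x‖ ((log x)^n / n!) x^(-Re s₀ - 1) ≤ ‖gC χ x‖ Wb k (Re s₀) x`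
(`n = k` or `k + 1`: the other term of `Wb` is nonnegative), so `gC_Wb_le` (ZDKey.lean), `low_part`
and `high_part` (EMPsi.lean; `low_part` needs `12 log X ≤ k + 1`) give
`7 · 2 (1/4)^(k+1) = 7/2 (1/4)^k` and `7 · 4 · 2^(k+1) Y^(-1/2) = 56 · 2^k Y^(-1/2)`. -/
lemma MT_split {q : ℕ} [NeZero q] (χ : DirichletCharacter ℂ q) (s₀ : ℂ) (hs : 2 ≤ s₀.re)
    (k n : ℕ) (hn : n = k ∨ n = k + 1) (X Y : ℝ) (hX : 1 ≤ X) (hXY : X ≤ Y)
    (hk : 12 * Real.log X ≤ k) :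
    ‖MC.MT (ZDf χ n) s₀‖ / (n.factorial : ℝ)
      ≤ ‖∫ x in Ioc X Y, gC χ x * ((Real.log x ^ n / (n.factorial : ℝ) : ℝ) : ℂ) *
            (x : ℂ) ^ (-(s₀ + 1))‖
        + 7 / 2 * (1 / 4 : ℝ) ^ k + 56 * (2 : ℝ) ^ k * Y ^ (-(1 / 2) : ℝ) := by
  have hfac : (0 : ℝ) < n.factorial := by exact_mod_cast n.factorial_pos
  have hY1 : 1 ≤ Y := hX.trans hXY
  have hlX : 0 ≤ Real.log X := Real.log_nonneg hX
  set F : ℝ → ℂ := fun x => gC χ x * ((Real.log x ^ n / (n.factorial : ℝ) : ℝ) : ℂ) *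
    (x : ℂ) ^ (-(s₀ + 1)) with hF
  have hFe : ∀ x : ℝ, F x = ((n.factorial : ℂ))⁻¹ * (ZDf χ n x * (x : ℂ) ^ (-(s₀ + 1))) := by
    intro x
    simp only [hF, ZDf]
    push_cast
    ring
  obtain ⟨C, hC⟩ := ZDf_bound χ n (3 / 2) (by norm_num)
  have hI0 : IntegrableOn (fun x : ℝ => ZDf χ n x * (x : ℂ) ^ (-(s₀ + 1))) (Ioi 1) :=
    MC.MT_integrable (ZDf χ n) C (3 / 2) (ZDf_meas χ n) hC s₀ (by linarith)
  have hFI : IntegrableOn F (Ioi 1) := by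
    have h1 := hI0.const_mul ((n.factorial : ℂ))⁻¹
    exact h1.congr (Filter.Eventually.of_forall fun x => (hFe x).symm)
  have hMT : ∫ x in Ioi (1 : ℝ), F x = ((n.factorial : ℂ))⁻¹ * MC.MT (ZDf χ n) s₀ := by
    rw [integral_congr_ae (Filter.Eventually.of_forall hFe), integral_const_mul]
    rfl
  have hMTn : ‖MC.MT (ZDf χ n) s₀‖ / (n.factorial : ℝ) = ‖∫ x in Ioi (1 : ℝ), F x‖ := by
    rw [hMT, norm_mul, norm_inv, Complex.norm_natCast, div_eq_inv_mul]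
  -- the norm of the integrand
  have hFn : ∀ x : ℝ, 1 < x → ‖F x‖ ≤ ‖gC χ x‖ * Wb k s₀.re x := by
    intro x hx
    have hx0 : 0 < x := by linarith
    have hl : 0 ≤ Real.log x := Real.log_nonneg hx.le
    have h1 : (-(s₀ + 1)).re = -s₀.re - 1 := by simp; ring
    rw [hF]
    simp only [norm_mul]
    rw [Complex.norm_cpow_eq_rpow_re_of_pos hx0, h1, Complex.norm_real,
      Real.norm_of_nonneg (by positivity), mul_assoc]
    refine mul_le_mul_of_nonneg_left ?_ (norm_nonneg _)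
    unfold Wb
    refine mul_le_mul_of_nonneg_right ?_ (by positivity)
    rcases hn with rfl | rfl
    · have : 0 ≤ Real.log x ^ (n + 1) / ((n + 1).factorial : ℝ) := by positivity
      linarith
    · have : 0 ≤ Real.log x ^ k / (k.factorial : ℝ) := by positivity
      linarith
  have hI := integrable_gC_Wb χ k s₀.re hs
  have hset : ∀ s : Set ℝ, s ⊆ Ioi 1 → MeasurableSet s →
      ‖∫ x in s, F x‖ ≤ 7 * ∫ x in s, x * Wt k x := by
    intro s hs1 hsm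
    refine (norm_integral_le_integral_norm _).trans ?_
    refine le_trans ?_ (gC_Wb_le χ k s₀.re hs s hs1 hsm)
    refine setIntegral_mono_on (hFI.mono_set hs1).norm (hI.mono_set hs1) hsm fun x hx => ?_
    exact hFn x (hs1 hx)
  have hlow := (hset (Ioc 1 X) (fun x hx => hx.1) measurableSet_Ioc).trans
    (mul_le_mul_of_nonneg_left (low_part k X hX (by linarith)) (by norm_num))
  have hhigh := (hset (Ioi Y) (fun x hx => lt_of_le_of_lt hY1 hx) measurableSet_Ioi).trans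
    (mul_le_mul_of_nonneg_left (high_part k Y hY1) (by norm_num))
  have hsplit : ∫ x in Ioi (1 : ℝ), F x
      = (∫ x in Ioc (1 : ℝ) X, F x) + (∫ x in Ioc X Y, F x) + ∫ x in Ioi Y, F x := by
    have e1 : Ioi (1 : ℝ) = Ioc 1 Y ∪ Ioi Y := (Ioc_union_Ioi_eq_Ioi hY1).symm
    have e2 : Ioc (1 : ℝ) Y = Ioc 1 X ∪ Ioc X Y := (Ioc_union_Ioc_eq_Ioc hX hXY).symm
    have d1 : Disjoint (Ioc (1 : ℝ) Y) (Ioi Y) :=
      Set.disjoint_left.mpr fun x hx hx' => not_lt.mpr hx.2 hx'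
    have d2 : Disjoint (Ioc (1 : ℝ) X) (Ioc X Y) :=
      Set.disjoint_left.mpr fun x hx hx' => not_lt.mpr hx.2 hx'.1
    rw [e1, setIntegral_union d1 measurableSet_Ioi (hFI.mono_set (fun x hx => hx.1))
      (hFI.mono_set (fun x hx => lt_of_le_of_lt hY1 hx)), e2,
      setIntegral_union d2 measurableSet_Ioc (hFI.mono_set (fun x hx => hx.1))
      (hFI.mono_set (fun x hx => lt_of_le_of_lt hX hx.1))]
  rw [hMTn, hsplit]
  have e5 : 7 * (2 * (1 / 4 : ℝ) ^ (k + 1)) = 7 / 2 * (1 / 4) ^ k := by rw [pow_succ]; ring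
  have e6 : 7 * (4 * (2 : ℝ) ^ (k + 1) * Y ^ (-(1 / 2) : ℝ))
      = 56 * (2 : ℝ) ^ k * Y ^ (-(1 / 2) : ℝ) := by rw [pow_succ]; ring
  rw [e5] at hlow
  rw [e6] at hhigh
  have h1 := norm_add_le ((∫ x in Ioc (1 : ℝ) X, F x) + ∫ x in Ioc X Y, F x) (∫ x in Ioi Y, F x)
  have h2 := norm_add_le (∫ x in Ioc (1 : ℝ) X, F x) (∫ x in Ioc X Y, F x)
  linarith

end Pool.Agent.TS
end

section

/-!
# Ln: every zero is seen by an integral over the window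
-/

set_option autoImplicit false

namespace Pool.Agent.TS

open Complex Metric Set MeasureTheory
open Pool.Agent.EM

/-- Ln. PROOF. `ZD_coeff_lower A η` gives `L`, `X₁` and for each `ρ₀` a `k`; `K = 48 L (A+1) + 2 A + 10`,
`Y = X^K`, `N = ‖s₀‖`, `s₀ = ρ₀ + 3/2` (`Re s₀ ≥ 2`, `1 ≤ N ≤ 4 X^A` as in the proof of `ZD_key`),
`Z = X^(-(η/2)) (2/3)^k`. The coefficient is at least `(1/2) X^(-(η/2)) (2/3)^(k+2) = 2/9 Z`. With
`coeff_le_MT`, `MT_split` (for `n = k + 1` and `n = k`; `12 log X ≤ 12 (A+1) log X ≤ k`) and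
`key_numeric`: `2/9 Z ≤ N (W_(k+1) + W_k) + 2 (Z/27 + Z/27)`, `W_n` the norm of the window integral
(note `s₀ + 1 = ρ₀ + 5/2`). So `N W_j ≥ Z/27` for `j = k` or `j = k + 1`, and
`Z/27 ≥ X^(-η) (2/3)^k ≥ X^(-η) (2/3)^j`. `j ≥ 1` since `k ≥ 12 log X ≥ 1` for `X ≥ e`, and
`j ≤ k + 2 ≤ L (12 (A+1) log X + 3) ≤ J log X` with `J = L (12 (A+1) + 3) + 1` (`log X ≥ 1`). -/
lemma window_lower (A : ℕ) (η : ℝ) (hη : 0 < η) (hη1 : η ≤ 1) :
    ∃ (K : ℕ) (J X₁ : ℝ), 1 ≤ K ∧ 1 ≤ J ∧ ∀ (q : ℕ) [NeZero q] (X : ℝ), (q : ℝ) ≤ X → X₁ ≤ X →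
      ∀ χ : DirichletCharacter ℂ q,
      ∀ ρ₀ : ℂ, MC.FF q χ ρ₀ = 0 → 1 / 2 ≤ ρ₀.re → |ρ₀.im| ≤ X ^ A →
      ∃ j : ℕ, 1 ≤ j ∧ (j : ℝ) ≤ J * Real.log X ∧
        X ^ (-η) * (2 / 3 : ℝ) ^ j ≤ ‖ρ₀ + 3 / 2‖ *
          ‖∫ x in Ioc X (X ^ K), gC χ x * ((Real.log x ^ j / (j.factorial : ℝ) : ℝ) : ℂ) *
            (x : ℂ) ^ (-(ρ₀ + 5 / 2))‖ := by
  obtain ⟨L, X₁, hco⟩ := ZD_coeff_lower A η hη hη1
  obtain ⟨X₂, hX₂1, hnum⟩ := key_numeric A L η hη hη1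
  have hA0 : (0 : ℝ) ≤ A := Nat.cast_nonneg A
  have hL0 : (0 : ℝ) ≤ L := Nat.cast_nonneg L
  refine ⟨48 * L * (A + 1) + 2 * A + 10, L * (12 * (A + 1) + 3) + 1, max (max X₁ X₂) (Real.exp 1),
    by omega, ?_, fun q _ X hqX hX χ ρ₀ h1 h2 h3 => ?_⟩
  · have : (0 : ℝ) ≤ L * (12 * (A + 1) + 3) := by positivity
    linarith
  have hXa : X₁ ≤ X := le_trans (le_trans (le_max_left _ _) (le_max_left _ _)) hX
  have hXb : X₂ ≤ X := le_trans (le_trans (le_max_right _ _) (le_max_left _ _)) hX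
  have hXe : Real.exp 1 ≤ X := le_trans (le_max_right _ _) hX
  have hX1 : 1 ≤ X := hX₂1.trans hXb
  have hq0 : (0 : ℝ) < X := by linarith
  have hlog : 1 ≤ Real.log X := by
    rw [← Real.log_exp 1]
    exact Real.log_le_log (Real.exp_pos 1) hXe
  obtain ⟨k, hk1, hk2, hk3⟩ := hco q X hqX hXa χ ρ₀ h1 h2 h3
  have hre2 : ρ₀.re < 1 := by
    by_contra hge
    exact ZD_FF_ne q χ ρ₀ (not_lt.mp hge) h1
  have hXA1 : (1 : ℝ) ≤ X ^ A := one_le_pow₀ hX1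
  have hs₀re : (ρ₀ + 3 / 2).re = ρ₀.re + 3 / 2 := by simp
  have hs₀im : (ρ₀ + 3 / 2).im = ρ₀.im := by simp
  have hN0 : 0 ≤ ‖ρ₀ + 3 / 2‖ := norm_nonneg _
  have hN4 : ‖ρ₀ + 3 / 2‖ ≤ 4 * X ^ A := by
    calc ‖ρ₀ + 3 / 2‖ ≤ |(ρ₀ + 3 / 2).re| + |(ρ₀ + 3 / 2).im| :=
          Complex.norm_le_abs_re_add_abs_im _
      _ ≤ 5 / 2 + X ^ A := by
          rw [hs₀re, hs₀im, abs_of_nonneg (by linarith)]
          linarith
      _ ≤ _ := by linarith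
  obtain ⟨e1, e2, e3⟩ := hnum X hXb k hk1 hk2 ‖ρ₀ + 3 / 2‖ hN0 hN4
  have hcf := coeff_le_MT q χ (ρ₀ + 3 / 2) (by rw [hs₀re]; linarith) k
  have hk12 : 12 * Real.log X ≤ k := by
    refine le_trans ?_ hk1
    nlinarith
  have hKX : X ≤ X ^ (48 * L * (A + 1) + 2 * A + 10) := by
    calc X = X ^ 1 := (pow_one X).symm
      _ ≤ _ := pow_le_pow_right₀ hX1 (by omega)
  have hsp := fun n hn => MT_split χ (ρ₀ + 3 / 2) (by rw [hs₀re]; linarith) k n hn X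
    (X ^ (48 * L * (A + 1) + 2 * A + 10)) hX1 hKX hk12
  have h52 : ρ₀ + 3 / 2 + 1 = ρ₀ + 5 / 2 := by ring
  rw [h52] at hsp
  set W : ℕ → ℝ := fun j => ‖∫ x in Ioc X (X ^ (48 * L * (A + 1) + 2 * A + 10)),
    gC χ x * ((Real.log x ^ j / (j.factorial : ℝ) : ℝ) : ℂ) * (x : ℂ) ^ (-(ρ₀ + 5 / 2))‖ with hW
  have hsk : ‖MC.MT (ZDf χ k) (ρ₀ + 3 / 2)‖ / (k.factorial : ℝ) ≤ W k + 7 / 2 * (1 / 4 : ℝ) ^ k
      + 56 * (2 : ℝ) ^ k * (X ^ (48 * L * (A + 1) + 2 * A + 10)) ^ (-(1 / 2) : ℝ) :=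
    hsp k (Or.inl rfl)
  have hsk1 : ‖MC.MT (ZDf χ (k + 1)) (ρ₀ + 3 / 2)‖ / ((k + 1).factorial : ℝ)
      ≤ W (k + 1) + 7 / 2 * (1 / 4 : ℝ) ^ k
      + 56 * (2 : ℝ) ^ k * (X ^ (48 * L * (A + 1) + 2 * A + 10)) ^ (-(1 / 2) : ℝ) :=
    hsp (k + 1) (Or.inr rfl)
  clear_value W
  clear hsp
  set Z : ℝ := X ^ (-(η / 2)) * (2 / 3 : ℝ) ^ k with hZ
  set a : ℝ := 7 / 2 * (1 / 4 : ℝ) ^ k
  set b : ℝ := 56 * (2 : ℝ) ^ k * (X ^ (48 * L * (A + 1) + 2 * A + 10)) ^ (-(1 / 2) : ℝ)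
  have e4 : 1 / 2 * X ^ (-(η / 2)) * (2 / 3 : ℝ) ^ (k + 2) = 2 / 9 * Z := by
    rw [hZ, pow_add]; ring
  rw [e4] at hk3
  have e8 := hk3.trans hcf
  have e9 := mul_le_mul_of_nonneg_left (add_le_add hsk1 hsk) hN0
  have e10 : 2 / 27 * Z ≤ ‖ρ₀ + 3 / 2‖ * W (k + 1) + ‖ρ₀ + 3 / 2‖ * W k := by
    have e11 : ‖ρ₀ + 3 / 2‖ * ((W (k + 1) + a + b) + (W k + a + b))
      = ‖ρ₀ + 3 / 2‖ * W (k + 1) + ‖ρ₀ + 3 / 2‖ * W k + 2 * (‖ρ₀ + 3 / 2‖ * a)
        + 2 * (‖ρ₀ + 3 / 2‖ * b) := by ring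
    rw [e11] at e9
    linarith
  have hjk : ∀ j, (j = k ∨ j = k + 1) → 1 ≤ j ∧
      (j : ℝ) ≤ (L * (12 * (A + 1) + 3) + 1) * Real.log X ∧
      X ^ (-η) * (2 / 3 : ℝ) ^ j ≤ X ^ (-η) * (2 / 3 : ℝ) ^ k := by
    intro j hj
    have hkj : k ≤ j := by omega
    have hk0 : (1 : ℝ) ≤ k := by linarith
    have hk0' : 1 ≤ k := by exact_mod_cast hk0
    refine ⟨by omega, ?_, ?_⟩
    · have hj1 : (j : ℝ) ≤ k + 2 := by
        have : j ≤ k + 2 := by omega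
        exact_mod_cast this
      have h7 : (L : ℝ) * (12 * (A + 1) * Real.log X + 3) ≤
          (L * (12 * (A + 1) + 3)) * Real.log X := by
        have h8 : (L : ℝ) * 3 ≤ L * 3 * Real.log X := by
          have : (0 : ℝ) ≤ L * 3 := by positivity
          nlinarith
        nlinarith
      linarith
    · have h7 : (2 / 3 : ℝ) ^ j ≤ (2 / 3 : ℝ) ^ k :=
        pow_le_pow_of_le_one (by norm_num) (by norm_num) hkj
      exact mul_le_mul_of_nonneg_left h7 (by positivity)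
  have hor : 1 / 27 * Z ≤ ‖ρ₀ + 3 / 2‖ * W k ∨ 1 / 27 * Z ≤ ‖ρ₀ + 3 / 2‖ * W (k + 1) := by
    by_contra hcon
    push Not at hcon
    linarith [hcon.1, hcon.2]
  rcases hor with hh | hh
  · obtain ⟨h4, h5, h6⟩ := hjk k (Or.inl rfl)
    refine ⟨k, h4, h5, ?_⟩
    have h7 := h6.trans (e3.trans hh)
    rw [hW] at h7
    exact h7
  · obtain ⟨h4, h5, h6⟩ := hjk (k + 1) (Or.inr rfl)
    refine ⟨k + 1, h4, h5, ?_⟩
    have h7 := h6.trans (e3.trans hh)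
    rw [hW] at h7
    exact h7

end Pool.Agent.TS
end

section

/-!
# Up: integration over t
-/

set_option autoImplicit false

namespace Pool.Agent.TS

open Complex Metric Set MeasureTheory
open Pool.Agent.EM

private lemma Up_base_le (t : ℝ) : 1 / (1 + |t|) ^ 2 ≤ (1 + t ^ 2)⁻¹ := by
  rw [← one_div]
  apply one_div_le_one_div_of_le (by positivity)
  have : t ^ 2 = |t| ^ 2 := (sq_abs t).symm
  rw [this]
  nlinarith [abs_nonneg t]

private lemma Up_meas : Measurable (fun t : ℝ => 1 / (1 + |t|) ^ 2) := by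
  fun_prop

private lemma Up_base_int : Integrable (fun t : ℝ => 1 / (1 + |t|) ^ 2) := by
  refine integrable_inv_one_add_sq.mono' Up_meas.aestronglyMeasurable
    (Filter.Eventually.of_forall fun t => ?_)
  rw [Real.norm_of_nonneg (by positivity)]
  exact Up_base_le t

private lemma Up_base_val : ∫ t : ℝ, 1 / (1 + |t|) ^ 2 ≤ Real.pi := by
  rw [← integral_univ_inv_one_add_sq]
  exact integral_mono Up_base_int integrable_inv_one_add_sq Up_base_le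

/-- Up. PROOF. The integrand is `1/(1+|t|)² + ∑_{ρ ∈ S} w ρ · 1_{|Im ρ - t| ≤ H}/(1+|t|)²`
(`Finset.sum_filter`, `add_div`, `Finset.sum_div`). `∫ 1/(1+|t|)² dt = 2`
(or `≤ π` by `1/(1+|t|)² ≤ 1/(1+t²)`, `integral_univ_inv_one_add_sq`). For `|Im ρ - t| ≤ H`:
`1 + |Im ρ| ≤ (1+H)(1+|t|)` and `‖ρ‖ ≤ Re ρ + |Im ρ| ≤ 1 + |Im ρ|`, so `1/(1+|t|)² ≤ (1+H)²/‖ρ‖²`; the
interval has length `2H`: each term is at most `2H (1+H)² w ρ/‖ρ‖²`. (`‖ρ‖ ≥ 1/2 > 0`.) -/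
lemma int_filter_sum (H : ℝ) (hH : 0 ≤ H) : ∃ C : ℝ, 0 ≤ C ∧ ∀ (S : Finset ℂ) (w : ℂ → ℝ),
    (∀ ρ ∈ S, 0 ≤ w ρ) → (∀ ρ ∈ S, 1 / 2 ≤ ρ.re ∧ ρ.re ≤ 1) →
    Integrable (fun t : ℝ => (1 + ∑ ρ ∈ S.filter (fun ρ => |ρ.im - t| ≤ H), w ρ)
      / (1 + |t|) ^ 2) ∧
    ∫ t : ℝ, (1 + ∑ ρ ∈ S.filter (fun ρ => |ρ.im - t| ≤ H), w ρ) / (1 + |t|) ^ 2
      ≤ C * (1 + ∑ ρ ∈ S, w ρ / ‖ρ‖ ^ 2) := by
  refine ⟨Real.pi + 2 * H * (1 + H) ^ 2, by positivity, ?_⟩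
  intro S w hw hS
  -- one term
  set g : ℂ → ℝ → ℝ := fun ρ t =>
    (Set.Icc (ρ.im - H) (ρ.im + H)).indicator (fun t => w ρ * (1 / (1 + |t|) ^ 2)) t with hg
  have hfun : (fun t : ℝ => (1 + ∑ ρ ∈ S.filter (fun ρ => |ρ.im - t| ≤ H), w ρ)
      / (1 + |t|) ^ 2) = fun t : ℝ => 1 / (1 + |t|) ^ 2 + ∑ ρ ∈ S, g ρ t := by
    funext t
    rw [add_div, Finset.sum_div, Finset.sum_filter]
    congr 1
    apply Finset.sum_congr rfl
    intro ρ _
    rw [hg]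
    by_cases h : |ρ.im - t| ≤ H
    · have h' : t ∈ Set.Icc (ρ.im - H) (ρ.im + H) := by
        rw [abs_le] at h
        constructor <;> linarith [h.1, h.2]
      rw [if_pos h]
      simp only [Set.indicator_of_mem h']
      ring
    · have h' : t ∉ Set.Icc (ρ.im - H) (ρ.im + H) := by
        intro h1
        apply h
        rw [abs_le]
        constructor <;> linarith [h1.1, h1.2]
      rw [if_neg h]
      simp only [Set.indicator_of_notMem h']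
  have hgint : ∀ ρ ∈ S, Integrable (g ρ) := fun ρ _ =>
    (Up_base_int.const_mul (w ρ)).indicator measurableSet_Icc
  have hgval : ∀ ρ ∈ S, ∫ t : ℝ, g ρ t ≤ 2 * H * (1 + H) ^ 2 * (w ρ / ‖ρ‖ ^ 2) := by
    intro ρ hρ
    have hw0 := hw ρ hρ
    obtain ⟨hr1, hr2⟩ := hS ρ hρ
    have hn0 : 0 < ‖ρ‖ := by
      have := Complex.re_le_norm ρ
      linarith
    have hn1 : ‖ρ‖ ≤ 1 + |ρ.im| := by
      have h1 := Complex.norm_le_abs_re_add_abs_im ρ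
      rw [abs_of_nonneg (by linarith : (0 : ℝ) ≤ ρ.re)] at h1
      linarith
    rw [hg]
    simp only
    rw [integral_indicator measurableSet_Icc]
    have hle : ∀ t ∈ Set.Icc (ρ.im - H) (ρ.im + H),
        w ρ * (1 / (1 + |t|) ^ 2) ≤ (1 + H) ^ 2 * (w ρ / ‖ρ‖ ^ 2) := by
      intro t ht
      have h1 : |ρ.im| ≤ |t| + H := by
        have h2 : |ρ.im - t| ≤ H := by
          rw [abs_le]
          constructor <;> linarith [ht.1, ht.2]
        have h3 : |ρ.im| ≤ |ρ.im - t| + |t| := by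
          calc |ρ.im| = |(ρ.im - t) + t| := by rw [sub_add_cancel]
            _ ≤ _ := abs_add_le _ _
        linarith
      have h4 : ‖ρ‖ ≤ (1 + H) * (1 + |t|) := by
        have : 0 ≤ H * |t| := by positivity
        nlinarith
      have h5 : 1 / (1 + |t|) ^ 2 ≤ (1 + H) ^ 2 / ‖ρ‖ ^ 2 := by
        rw [div_le_div_iff₀ (by positivity) (by positivity)]
        calc 1 * ‖ρ‖ ^ 2 = ‖ρ‖ ^ 2 := one_mul _
          _ ≤ ((1 + H) * (1 + |t|)) ^ 2 := by gcongr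
          _ = _ := by ring
      calc w ρ * (1 / (1 + |t|) ^ 2) ≤ w ρ * ((1 + H) ^ 2 / ‖ρ‖ ^ 2) := by gcongr
        _ = _ := by ring
    calc ∫ t in Set.Icc (ρ.im - H) (ρ.im + H), w ρ * (1 / (1 + |t|) ^ 2)
        ≤ ∫ _t in Set.Icc (ρ.im - H) (ρ.im + H), (1 + H) ^ 2 * (w ρ / ‖ρ‖ ^ 2) := by
          apply setIntegral_mono_on (Up_base_int.const_mul (w ρ)).integrableOn _
            measurableSet_Icc hle
          exact integrableOn_const (by simp)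
      _ = 2 * H * (1 + H) ^ 2 * (w ρ / ‖ρ‖ ^ 2) := by
          rw [setIntegral_const, Measure.real, Real.volume_Icc, smul_eq_mul,
            ENNReal.toReal_ofReal (by linarith)]
          ring
  rw [hfun]
  have hsum : Integrable (fun t : ℝ => ∑ ρ ∈ S, g ρ t) := integrable_finset_sum S hgint
  refine ⟨Up_base_int.add hsum, ?_⟩
  rw [integral_add Up_base_int hsum, integral_finset_sum S hgint]
  have h1 : ∑ ρ ∈ S, ∫ t : ℝ, g ρ t ≤ ∑ ρ ∈ S, 2 * H * (1 + H) ^ 2 * (w ρ / ‖ρ‖ ^ 2) :=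
    Finset.sum_le_sum hgval
  rw [← Finset.mul_sum] at h1
  have h2 : 0 ≤ ∑ ρ ∈ S, w ρ / ‖ρ‖ ^ 2 := Finset.sum_nonneg fun ρ hρ => by
    have := hw ρ hρ
    positivity
  have h3 := Up_base_val
  have h4 : 0 ≤ Real.pi * ∑ ρ ∈ S, w ρ / ‖ρ‖ ^ 2 := by positivity
  have h5 : 0 ≤ 2 * H * (1 + H) ^ 2 := by positivity
  nlinarith

end Pool.Agent.TS
end

section

/-!
# Uq: integration over large t
-/

set_option autoImplicit false

namespace Pool.Agent.TS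

open Complex Metric Set MeasureTheory
open Pool.Agent.EM

/-- one half-line -/
private lemma Uq_half (a m : ℝ) (ha : a < -1) (hm : 0 < m) :
    IntegrableOn (fun t : ℝ => (1 + |t|) ^ a) (Set.Ioi m) ∧
    ∫ t in Set.Ioi m, (1 + |t|) ^ a = -(m + 1) ^ (a + 1) / (a + 1) := by
  have h1 : IntegrableOn (fun t : ℝ => t ^ a) (Set.Ioi (m + 1)) :=
    integrableOn_Ioi_rpow_of_lt ha (by linarith)
  have h2 : ∫ t in Set.Ioi (m + 1), t ^ a = -(m + 1) ^ (a + 1) / (a + 1) :=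
    integral_Ioi_rpow_of_lt ha (by linarith)
  have h3 : Set.EqOn (fun t : ℝ => (1 + |t|) ^ a) (fun t : ℝ => (t + 1) ^ a) (Set.Ioi m) := by
    intro t ht
    have : 0 < t := hm.trans ht
    simp only
    rw [abs_of_pos this, add_comm]
  have hpre : (fun x : ℝ => x + 1) ⁻¹' Set.Ioi (m + 1) = Set.Ioi m := by
    ext x
    simp
  have hmp : MeasurePreserving (fun x : ℝ => x + 1) volume volume :=
    measurePreserving_add_right volume 1
  have hemb : MeasurableEmbedding (fun x : ℝ => x + 1) :=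
    (MeasurableEquiv.addRight (1 : ℝ)).measurableEmbedding
  constructor
  · rw [integrableOn_congr_fun h3 measurableSet_Ioi]
    have := (hmp.integrableOn_comp_preimage hemb (f := fun t : ℝ => t ^ a)
      (s := Set.Ioi (m + 1))).mpr h1
    rw [hpre] at this
    exact this
  · rw [setIntegral_congr_fun measurableSet_Ioi h3, ← h2]
    have := hmp.setIntegral_preimage_emb hemb (fun t : ℝ => t ^ a) (Set.Ioi (m + 1))
    rw [hpre] at this
    exact this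

private lemma Uq_neg (a m : ℝ) (ha : a < -1) (hm : 0 < m) :
    IntegrableOn (fun t : ℝ => (1 + |t|) ^ a) (Set.Iio (-m)) ∧
    ∫ t in Set.Iio (-m), (1 + |t|) ^ a = -(m + 1) ^ (a + 1) / (a + 1) := by
  obtain ⟨h1, h2⟩ := Uq_half a m ha hm
  have hmp : MeasurePreserving (fun x : ℝ => -x) volume volume :=
    Measure.measurePreserving_neg volume
  have hemb : MeasurableEmbedding (fun x : ℝ => -x) :=
    (MeasurableEquiv.neg ℝ).measurableEmbedding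
  have hpre : (fun x : ℝ => -x) ⁻¹' Set.Ioi m = Set.Iio (-m) := by
    ext x
    simp only [Set.mem_preimage, Set.mem_Ioi, Set.mem_Iio]
    constructor <;> intro h <;> linarith
  have hf : (fun t : ℝ => (1 + |t|) ^ a) ∘ (fun x : ℝ => -x) = fun t : ℝ => (1 + |t|) ^ a := by
    funext t
    simp
  constructor
  · have := (hmp.integrableOn_comp_preimage hemb (f := fun t : ℝ => (1 + |t|) ^ a)
      (s := Set.Ioi m)).mpr h1
    rw [hpre, hf] at this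
    exact this
  · rw [← h2]
    have := hmp.setIntegral_preimage_emb hemb (fun t : ℝ => (1 + |t|) ^ a) (Set.Ioi m)
    rw [hpre] at this
    rw [← this]
    simp only [abs_neg]

/-- Uq. PROOF. `|t| + 6 ≤ 6 (1 + |t|)`, so `(X (|t|+6))^(ε/2) ≤ 6 X^(ε/2) (1+|t|)^(ε/2)` and the
integrand is at most `6 X^(ε/2) (1+|t|)^(ε/2 - 2)`. The set is symmetric
(`{t | X/2 < |t|} = Iio (-X/2) ∪ Ioi (X/2)`), and
`∫_{X/2}^∞ (1+t)^(ε/2-2) dt = (1 + X/2)^(ε/2-1)/(1 - ε/2) ≤ 2 (X/2)^(ε/2-1) ≤ 4 X^(ε/2-1)`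
(`integral_Ioi_rpow_of_lt`, `integrableOn_Ioi_rpow_of_lt`, translation). `C = 48`. -/
lemma int_far (ε : ℝ) (hε : 0 < ε) (hε1 : ε ≤ 1 / 4) : ∃ C : ℝ, 0 ≤ C ∧ ∀ X : ℝ, 1 ≤ X →
    IntegrableOn (fun t : ℝ => (X * (|t| + 6)) ^ (ε / 2) / (1 + |t|) ^ 2) {t | X / 2 < |t|} ∧
    ∫ t in {t : ℝ | X / 2 < |t|}, (X * (|t| + 6)) ^ (ε / 2) / (1 + |t|) ^ 2
      ≤ C * X ^ (ε - 1) := by
  refine ⟨48, by norm_num, ?_⟩
  intro X hX
  have hX0 : 0 < X := by linarith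
  set a : ℝ := ε / 2 - 2 with ha
  have ha1 : a < -1 := by rw [ha]; linarith
  have hset : {t : ℝ | X / 2 < |t|} = Set.Iio (-(X / 2)) ∪ Set.Ioi (X / 2) := by
    ext t
    simp only [Set.mem_setOf_eq, Set.mem_union, Set.mem_Iio, Set.mem_Ioi, lt_abs]
    constructor
    · rintro (h | h)
      · exact Or.inr h
      · exact Or.inl (by linarith)
    · rintro (h | h)
      · exact Or.inr (by linarith)
      · exact Or.inl h
  have hms : MeasurableSet {t : ℝ | X / 2 < |t|} := by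
    rw [hset]
    exact measurableSet_Iio.union measurableSet_Ioi
  obtain ⟨p1, p2⟩ := Uq_half a (X / 2) ha1 (by linarith)
  obtain ⟨n1, n2⟩ := Uq_neg a (X / 2) ha1 (by linarith)
  have hdisj : Disjoint (Set.Iio (-(X / 2))) (Set.Ioi (X / 2)) := by
    rw [Set.disjoint_left]
    intro t h1 h2
    have h1' : t < -(X / 2) := h1
    have h2' : X / 2 < t := h2
    linarith
  have hD1 : IntegrableOn (fun t : ℝ => (1 + |t|) ^ a) {t : ℝ | X / 2 < |t|} := by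
    rw [hset]
    exact n1.union p1
  have hD2 : ∫ t in {t : ℝ | X / 2 < |t|}, (1 + |t|) ^ a
      = 2 * (-(X / 2 + 1) ^ (a + 1) / (a + 1)) := by
    rw [hset, setIntegral_union hdisj measurableSet_Ioi n1 p1, n2, p2]
    ring
  have hpt : ∀ t : ℝ, (X * (|t| + 6)) ^ (ε / 2) / (1 + |t|) ^ 2
      ≤ 6 * X ^ (ε / 2) * (1 + |t|) ^ a := by
    intro t
    have h0 : 0 < 1 + |t| := by positivity
    have h1 : (X * (|t| + 6)) ^ (ε / 2) ≤ 6 * X ^ (ε / 2) * (1 + |t|) ^ (ε / 2) := by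
      calc (X * (|t| + 6)) ^ (ε / 2) ≤ (X * (6 * (1 + |t|))) ^ (ε / 2) := by
            apply Real.rpow_le_rpow (by positivity) _ (by linarith)
            apply mul_le_mul_of_nonneg_left _ hX0.le
            linarith [abs_nonneg t]
        _ = (6 : ℝ) ^ (ε / 2) * X ^ (ε / 2) * (1 + |t|) ^ (ε / 2) := by
            rw [Real.mul_rpow hX0.le (by positivity), Real.mul_rpow (by norm_num) h0.le]
            ring
        _ ≤ 6 * X ^ (ε / 2) * (1 + |t|) ^ (ε / 2) := by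
            gcongr
            calc (6 : ℝ) ^ (ε / 2) ≤ (6 : ℝ) ^ (1 : ℝ) :=
                  Real.rpow_le_rpow_of_exponent_le (by norm_num) (by linarith)
              _ = 6 := Real.rpow_one 6
    have h2 : (1 + |t|) ^ a = (1 + |t|) ^ (ε / 2) / (1 + |t|) ^ 2 := by
      rw [ha, Real.rpow_sub h0]
      congr 1
      exact_mod_cast Real.rpow_natCast (1 + |t|) 2
    rw [h2, ← mul_div_assoc]
    gcongr
  have hmeas : Measurable (fun t : ℝ => (X * (|t| + 6)) ^ (ε / 2) / (1 + |t|) ^ 2) := by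
    fun_prop
  have hDI := hD1.const_mul (6 * X ^ (ε / 2))
  have hI : IntegrableOn (fun t : ℝ => (X * (|t| + 6)) ^ (ε / 2) / (1 + |t|) ^ 2)
      {t | X / 2 < |t|} := by
    refine Integrable.mono' hDI hmeas.aestronglyMeasurable
      (Filter.Eventually.of_forall fun t => ?_)
    rw [Real.norm_of_nonneg (by positivity)]
    exact hpt t
  refine ⟨hI, ?_⟩
  have h1 : ∫ t in {t : ℝ | X / 2 < |t|}, (X * (|t| + 6)) ^ (ε / 2) / (1 + |t|) ^ 2
      ≤ ∫ t in {t : ℝ | X / 2 < |t|}, 6 * X ^ (ε / 2) * (1 + |t|) ^ a :=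
    setIntegral_mono_on hI hDI hms fun t _ => hpt t
  refine h1.trans ?_
  rw [integral_const_mul, hD2]
  have ha2 : a + 1 = -(1 - ε / 2) := by rw [ha]; ring
  have hc : 1 / 2 ≤ 1 - ε / 2 := by linarith
  have h2 : -(X / 2 + 1) ^ (a + 1) / (a + 1) = (X / 2 + 1) ^ (a + 1) / (1 - ε / 2) := by
    rw [ha2, neg_div_neg_eq]
  have h3 : (X / 2 + 1) ^ (a + 1) ≤ (X / 2) ^ (a + 1) :=
    Real.rpow_le_rpow_of_nonpos (by linarith) (by linarith) (by rw [ha2]; linarith)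
  have h4 : (X / 2) ^ (a + 1) ≤ 2 * X ^ (a + 1) := by
    rw [Real.div_rpow hX0.le (by norm_num), div_eq_mul_inv, mul_comm]
    apply mul_le_mul_of_nonneg_right _ (by positivity)
    rw [← Real.rpow_neg (by norm_num)]
    calc (2 : ℝ) ^ (-(a + 1)) ≤ (2 : ℝ) ^ (1 : ℝ) :=
          Real.rpow_le_rpow_of_exponent_le (by norm_num) (by rw [ha2]; linarith)
      _ = 2 := Real.rpow_one 2
  have h5 : (X / 2 + 1) ^ (a + 1) / (1 - ε / 2) ≤ 4 * X ^ (a + 1) := by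
    rw [div_le_iff₀ (by linarith)]
    have h6 : 0 ≤ X ^ (a + 1) := by positivity
    nlinarith
  rw [h2]
  have h7 : X ^ (ε - 1) = X ^ (ε / 2) * X ^ (a + 1) := by
    rw [← Real.rpow_add hX0]
    congr 1
    rw [ha]
    ring
  rw [h7]
  have h8 : 0 ≤ X ^ (ε / 2) := by positivity
  calc 6 * X ^ (ε / 2) * (2 * ((X / 2 + 1) ^ (a + 1) / (1 - ε / 2)))
      ≤ 6 * X ^ (ε / 2) * (2 * (4 * X ^ (a + 1))) := by gcongr
    _ = 48 * (X ^ (ε / 2) * X ^ (a + 1)) := by ring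

end Pool.Agent.TS
end
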