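import Pool.Agent.Lib.MP_9cfc0a_nt.TS.Defs2
import Pool.Agent.Lib.MP_9cfc0a_nt.Mg.G069
import Pool.Agent.Lib.MP_9cfc0a_nt.Mg.G077
import Pool.Agent.Lib.MP_9cfc0a_nt.Mg.G076
import Pool.Agent.Lib.MP_9cfc0a_nt.Mg.G072
import Pool.Agent.Lib.MP_9cfc0a_nt.TS.Defs

section

/-!
# Lo: the sum over the zeros of one L-function
-/

set_option autoImplicit false

namespace Pool.Agent.TS

open Complex Metric Set MeasureTheory
open Pool.Agent.EM

/-- Lo. PROOF. `η = min (ε/4) 1`, `window_lower A η` (`K`, `J`), `weight_sum A` (`C`),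
`R = C log X`. For `ρ` in `S = Zf χ σ (X^A)` choose `j(ρ)`; with `I_j(ρ)` the window integral
`1 ≤ X^(2η) (2/3)^(-2 j(ρ)) ‖ρ + 3/2‖² ‖I_{j(ρ)}(ρ)‖²` and `‖ρ + 3/2‖ ≤ 4 ‖ρ‖` (`‖ρ‖ ≥ Re ρ ≥ 1/2`), so
`1/‖ρ‖² ≤ 16 X^(2η) (2/3)^(-2 j(ρ)) ‖I_{j(ρ)}(ρ)‖²`
`≤ 16 X^(2η) ∑_{1 ≤ j ≤ J log X} (2/3)^(-2j) ‖I_j(ρ)‖²` (a sum of nonnegative terms, over
`Finset.Icc 1 ⌊J log X⌋₊`). Multiply by `mu χ ρ`, sum over `ρ ∈ S`, exchange the sums, apply
`bessel_zeros σ j S (mu χ) R (gC χ) X (X^K)` (`integrable_gC_sq_window`, `gC_measurable`):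
`∑ mu/‖ρ‖² ≤ 16 X^(2η) · (J log X) · C log X · ∫`, and `16 J C (log X)² ≤ X^(ε/2)` for `X` large
(`evX_log` twice), `2 η ≤ ε/2`. -/
lemma zeros_lower (A : ℕ) (ε : ℝ) (hε : 0 < ε) : ∃ (K : ℕ) (X₀ : ℝ), 1 ≤ K ∧
    ∀ (q : ℕ) [NeZero q] (X σ : ℝ), (q : ℝ) ≤ X → X₀ ≤ X → 1 / 2 ≤ σ →
    ∀ χ : DirichletCharacter ℂ q,
    ∑ ρ ∈ Zf χ σ (X ^ A), mu χ ρ / ‖ρ‖ ^ 2
      ≤ X ^ ε * ∫ x in Ioc X (X ^ K), ‖gC χ x‖ ^ 2 * x ^ (-1 - 2 * σ) := by
  have hη : 0 < min (ε / 4) 1 := lt_min (by linarith) one_pos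
  obtain ⟨K, J, X₁, hK, hJ, hw⟩ := window_lower A (min (ε / 4) 1) hη (min_le_right _ _)
  obtain ⟨C, X₂, hC, hws⟩ := weight_sum A
  set η : ℝ := min (ε / 4) 1 with hηdef
  have hηε : η ≤ ε / 4 := min_le_left _ _
  obtain ⟨X₃, hX₃⟩ := Filter.eventually_atTop.mp
    ((evX_log (16 * J * C) (ε / 4) (by linarith)).and (evX_log 1 (ε / 4) (by linarith)))
  refine ⟨K, max (max X₁ X₂) (max X₃ 3), hK, ?_⟩
  intro q _ X σ hqX hX hσ χ
  have hX1 : X₁ ≤ X := le_trans (le_trans (le_max_left _ _) (le_max_left _ _)) hX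
  have hX2 : X₂ ≤ X := le_trans (le_trans (le_max_right _ _) (le_max_left _ _)) hX
  have hX3 : X₃ ≤ X := le_trans (le_trans (le_max_left _ _) (le_max_right _ _)) hX
  have hX4 : 3 ≤ X := le_trans (le_trans (le_max_right _ _) (le_max_right _ _)) hX
  have hX0 : 0 < X := by linarith
  have hXge1 : 1 ≤ X := by linarith
  have hlog : 1 ≤ Real.log X := by
    rw [Real.le_log_iff_exp_le hX0]
    linarith [Real.exp_one_lt_d9]
  obtain ⟨hb1, hb2⟩ := hX₃ X hX3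
  set S : Finset ℂ := Zf χ σ (X ^ A) with hS
  set G : ℝ := ∫ x in Ioc X (X ^ K), ‖gC χ x‖ ^ 2 * x ^ (-1 - 2 * σ) with hG
  set M : ℕ := ⌊J * Real.log X⌋₊ with hM
  have hJlog : 0 ≤ J * Real.log X := by positivity
  have hmem : ∀ ρ ∈ S, MC.FF q χ ρ = 0 ∧ σ ≤ ρ.re ∧ |ρ.im| ≤ X ^ A :=
    fun ρ hρ => (mem_Zf χ _ _ ρ).1 hρ
  have hG0 : 0 ≤ G := setIntegral_nonneg measurableSet_Ioc fun y hy =>
    mul_nonneg (sq_nonneg _) (Real.rpow_nonneg (le_of_lt (lt_trans hX0 hy.1)) _)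
  obtain ⟨I, hI⟩ : ∃ I : ℕ → ℂ → ℝ, ∀ j ρ, ‖∫ x in Ioc X (X ^ K), gC χ x *
        ((Real.log x ^ j / (j.factorial : ℝ) : ℝ) : ℂ) * (x : ℂ) ^ (-(ρ + 5 / 2))‖ = I j ρ :=
    ⟨_, fun _ _ => rfl⟩
  have hI0 : ∀ j ρ, 0 ≤ I j ρ := fun j ρ => by
    rw [← hI]
    exact norm_nonneg _
  -- the pointwise bound
  have hpt : ∀ ρ ∈ S, 1 / ‖ρ‖ ^ 2 ≤ 16 * X ^ (2 * η) * ∑ j ∈ Finset.Icc 1 M,
      ((2 / 3 : ℝ) ^ (2 * j))⁻¹ * I j ρ ^ 2 := by
    intro ρ hρ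
    obtain ⟨h0, hre, him⟩ := hmem ρ hρ
    have hre2 : 1 / 2 ≤ ρ.re := le_trans hσ hre
    obtain ⟨j, hj1, hj2, hj3⟩ := hw q X hqX hX1 χ ρ h0 hre2 him
    rw [hI] at hj3
    have hjM : j ∈ Finset.Icc 1 M := Finset.mem_Icc.2 ⟨hj1, Nat.le_floor hj2⟩
    have hsing : ((2 / 3 : ℝ) ^ (2 * j))⁻¹ * I j ρ ^ 2 ≤ ∑ j ∈ Finset.Icc 1 M,
        ((2 / 3 : ℝ) ^ (2 * j))⁻¹ * I j ρ ^ 2 :=
      Finset.single_le_sum (f := fun j => ((2 / 3 : ℝ) ^ (2 * j))⁻¹ * I j ρ ^ 2)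
        (fun i _ => mul_nonneg (inv_nonneg.2 (pow_nonneg (by norm_num) _)) (sq_nonneg _)) hjM
    have h5 : (0 : ℝ) < X ^ (2 * η) := Real.rpow_pos_of_pos hX0 _
    refine le_trans ?_ (mul_le_mul_of_nonneg_left hsing (mul_nonneg (by norm_num) h5.le))
    have hw0 : 0 ≤ I j ρ := hI0 j ρ
    generalize I j ρ = w at *
    have hr : 1 / 2 ≤ ‖ρ‖ := le_trans hre2 (le_trans (le_abs_self _) (Complex.abs_re_le_norm ρ))
    have hn : ‖ρ + 3 / 2‖ ≤ 4 * ‖ρ‖ := by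
      have h1 : ‖ρ + 3 / 2‖ ≤ ‖ρ‖ + ‖(3 / 2 : ℂ)‖ := norm_add_le _ _
      have h2 : ‖(3 / 2 : ℂ)‖ = 3 / 2 := by
        rw [norm_div]
        norm_num
      linarith
    have ha : 0 < X ^ (-η) := Real.rpow_pos_of_pos hX0 _
    have hb : (0 : ℝ) < (2 / 3 : ℝ) ^ j := by positivity
    have h1 : X ^ (-η) * (2 / 3 : ℝ) ^ j ≤ 4 * ‖ρ‖ * w :=
      le_trans hj3 (mul_le_mul_of_nonneg_right hn hw0)
    have h2 : (X ^ (-η) * (2 / 3 : ℝ) ^ j) ^ 2 ≤ (4 * ‖ρ‖ * w) ^ 2 :=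
      pow_le_pow_left₀ (mul_pos ha hb).le h1 2
    have h3 : X ^ (2 * η) * (X ^ (-η)) ^ 2 = 1 := by
      rw [← Real.rpow_natCast, ← Real.rpow_mul hX0.le, ← Real.rpow_add hX0]
      have : 2 * η + -η * ((2 : ℕ) : ℝ) = 0 := by
        push_cast
        ring
      rw [this, Real.rpow_zero]
    have hr0 : 0 < ‖ρ‖ ^ 2 := pow_pos (by linarith) 2
    rw [div_le_iff₀ hr0]
    have hb2' : (0 : ℝ) < (2 / 3 : ℝ) ^ (2 * j) := by positivity
    have h4 : ((2 / 3 : ℝ) ^ j) ^ 2 = (2 / 3 : ℝ) ^ (2 * j) := by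
      rw [← pow_mul, mul_comm]
    calc (1 : ℝ) = X ^ (2 * η) * ((2 / 3 : ℝ) ^ (2 * j))⁻¹ *
          ((X ^ (-η) * (2 / 3 : ℝ) ^ j) ^ 2) := by
          rw [mul_pow, h4]
          have : X ^ (2 * η) * ((2 / 3 : ℝ) ^ (2 * j))⁻¹ *
              ((X ^ (-η)) ^ 2 * (2 / 3 : ℝ) ^ (2 * j)) =
              (X ^ (2 * η) * (X ^ (-η)) ^ 2) *
                (((2 / 3 : ℝ) ^ (2 * j))⁻¹ * (2 / 3 : ℝ) ^ (2 * j)) := by ring
          rw [this, h3, inv_mul_cancel₀ hb2'.ne', one_mul]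
      _ ≤ X ^ (2 * η) * ((2 / 3 : ℝ) ^ (2 * j))⁻¹ * (4 * ‖ρ‖ * w) ^ 2 :=
          mul_le_mul_of_nonneg_left h2 (mul_nonneg h5.le (inv_nonneg.2 hb2'.le))
      _ = 16 * X ^ (2 * η) * (((2 / 3 : ℝ) ^ (2 * j))⁻¹ * w ^ 2) * ‖ρ‖ ^ 2 := by ring
  -- Bessel for each j
  have hbes : ∀ j ∈ Finset.Icc 1 M, ∑ ρ ∈ S, mu χ ρ * I j ρ ^ 2
      ≤ C * Real.log X * (2 / 3 : ℝ) ^ (2 * j) * G := by
    intro j hj
    have hpos : 0 < C * Real.log X := mul_pos (by linarith) (by linarith)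
    have hb := bessel_zeros σ j (Finset.mem_Icc.1 hj).1 S (mu χ) (fun ρ _ => mu_nonneg χ ρ)
      (fun ρ hρ => (hmem ρ hρ).2.1) (C * Real.log X) hpos (fun ρ _ =>
        hws q X hqX hX2 χ S (fun ρ hρ =>
          ⟨(hmem ρ hρ).1, le_trans hσ (hmem ρ hρ).2.1, (hmem ρ hρ).2.2⟩) ρ.im)
      (gC χ) (gC_measurable χ) X (X ^ K) hXge1 (integrable_gC_sq_window χ σ X _ hσ hXge1)
    simp only [hI] at hb
    exact hb
  have hMle : (M : ℝ) ≤ J * Real.log X := Nat.floor_le hJlog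
  have hη2 : (0 : ℝ) < X ^ (2 * η) := Real.rpow_pos_of_pos hX0 _
  have hlog0 : 0 ≤ Real.log X := by linarith
  have hfin : 16 * X ^ (2 * η) * ((J * Real.log X) * (C * Real.log X)) ≤ X ^ ε := by
    have h1 : 16 * J * C * Real.log X * (1 * Real.log X) ≤ X ^ (ε / 4) * X ^ (ε / 4) :=
      mul_le_mul hb1 hb2 (by linarith) (Real.rpow_nonneg hX0.le _)
    have h2 : X ^ (2 * η) ≤ X ^ (ε / 2) :=
      Real.rpow_le_rpow_of_exponent_le hXge1 (by linarith)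
    have h3 : X ^ (ε / 2) * (X ^ (ε / 4) * X ^ (ε / 4)) = X ^ ε := by
      rw [← Real.rpow_add hX0, ← Real.rpow_add hX0]
      congr 1
      ring
    have h4 : 0 ≤ 16 * J * C * Real.log X * (1 * Real.log X) := by
      have : 0 ≤ J := by linarith
      have : 0 ≤ C := by linarith
      positivity
    calc 16 * X ^ (2 * η) * ((J * Real.log X) * (C * Real.log X))
        = X ^ (2 * η) * (16 * J * C * Real.log X * (1 * Real.log X)) := by ring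
      _ ≤ X ^ (ε / 2) * (X ^ (ε / 4) * X ^ (ε / 4)) :=
          mul_le_mul h2 h1 h4 (Real.rpow_nonneg hX0.le _)
      _ = X ^ ε := h3
  have hC0 : 0 ≤ C := by linarith
  calc ∑ ρ ∈ S, mu χ ρ / ‖ρ‖ ^ 2
      ≤ ∑ ρ ∈ S, mu χ ρ * (16 * X ^ (2 * η) * ∑ j ∈ Finset.Icc 1 M,
          ((2 / 3 : ℝ) ^ (2 * j))⁻¹ * I j ρ ^ 2) := by
        refine Finset.sum_le_sum fun ρ hρ => ?_
        rw [div_eq_mul_one_div]
        exact mul_le_mul_of_nonneg_left (hpt ρ hρ) (mu_nonneg χ ρ)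
    _ = 16 * X ^ (2 * η) * ∑ j ∈ Finset.Icc 1 M, ((2 / 3 : ℝ) ^ (2 * j))⁻¹ *
          ∑ ρ ∈ S, mu χ ρ * I j ρ ^ 2 := by
        simp only [Finset.mul_sum]
        rw [Finset.sum_comm]
        refine Finset.sum_congr rfl fun j _ => Finset.sum_congr rfl fun ρ _ => ?_
        ring
    _ ≤ 16 * X ^ (2 * η) * ∑ j ∈ Finset.Icc 1 M, ((2 / 3 : ℝ) ^ (2 * j))⁻¹ *
          (C * Real.log X * (2 / 3 : ℝ) ^ (2 * j) * G) := by
        refine mul_le_mul_of_nonneg_left (Finset.sum_le_sum fun j hj => ?_)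
          (mul_nonneg (by norm_num) hη2.le)
        exact mul_le_mul_of_nonneg_left (hbes j hj) (inv_nonneg.2 (pow_nonneg (by norm_num) _))
    _ = 16 * X ^ (2 * η) * ((M : ℝ) * (C * Real.log X)) * G := by
        have : ∀ j ∈ Finset.Icc 1 M, ((2 / 3 : ℝ) ^ (2 * j))⁻¹ *
            (C * Real.log X * (2 / 3 : ℝ) ^ (2 * j) * G) = C * Real.log X * G := by
          intro j _
          have hb2' : (2 / 3 : ℝ) ^ (2 * j) ≠ 0 := pow_ne_zero _ (by norm_num)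
          calc ((2 / 3 : ℝ) ^ (2 * j))⁻¹ * (C * Real.log X * (2 / 3 : ℝ) ^ (2 * j) * G)
              = (((2 / 3 : ℝ) ^ (2 * j))⁻¹ * (2 / 3 : ℝ) ^ (2 * j)) * (C * Real.log X * G) := by
                ring
            _ = C * Real.log X * G := by rw [inv_mul_cancel₀ hb2', one_mul]
        rw [Finset.sum_congr rfl this, Finset.sum_const, Nat.card_Icc, nsmul_eq_mul,
          Nat.add_sub_cancel]
        ring
    _ ≤ 16 * X ^ (2 * η) * ((J * Real.log X) * (C * Real.log X)) * G := by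
        refine mul_le_mul_of_nonneg_right (mul_le_mul_of_nonneg_left
          (mul_le_mul_of_nonneg_right hMle (mul_nonneg hC0 hlog0))
            (mul_nonneg (by norm_num) hη2.le)) hG0
    _ ≤ X ^ ε * G := mul_le_mul_of_nonneg_right hfin hG0

end Pool.Agent.TS
end

section

/-!
# Aa: lower bound with weights
-/

set_option autoImplicit false

namespace Pool.Agent.TS

open Complex Metric Set MeasureTheory
open Pool.Agent.EM

private lemma Aa_int {q : ℕ} (χ : DirichletCharacter ℂ q) {X Y σ η : ℝ} (hX : 1 ≤ X)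
    (hσ : 1 / 2 ≤ σ) (hη : 0 ≤ η) :
    ∫ x in Ioc X Y, ‖gC χ x‖ ^ 2 * x ^ (-1 - 2 * (σ + η))
      ≤ X ^ (-(2 * η)) * ∫ x in Ioc X Y, ‖gC χ x‖ ^ 2 * x ^ (-1 - 2 * σ) := by
  rw [← integral_const_mul]
  refine setIntegral_mono_on (integrable_gC_sq_window χ (σ + η) X Y (by linarith) hX)
    ((integrable_gC_sq_window χ σ X Y hσ hX).const_mul _) measurableSet_Ioc fun x hx => ?_
  have hX0 : 0 < X := by linarith
  have hx0 : 0 < x := hX0.trans hx.1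
  have h1 : x ^ (-1 - 2 * (σ + η)) = x ^ (-(2 * η)) * x ^ (-1 - 2 * σ) := by
    rw [← Real.rpow_add hx0]
    congr 1
    ring
  have h2 : x ^ (-(2 * η)) ≤ X ^ (-(2 * η)) :=
    Real.rpow_le_rpow_of_nonpos hX0 hx.1.le (by linarith)
  have h3 : 0 ≤ ‖gC χ x‖ ^ 2 * x ^ (-1 - 2 * σ) := by positivity
  rw [h1]
  calc ‖gC χ x‖ ^ 2 * (x ^ (-(2 * η)) * x ^ (-1 - 2 * σ))
      = x ^ (-(2 * η)) * (‖gC χ x‖ ^ 2 * x ^ (-1 - 2 * σ)) := by ring
    _ ≤ X ^ (-(2 * η)) * (‖gC χ x‖ ^ 2 * x ^ (-1 - 2 * σ)) :=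
        mul_le_mul_of_nonneg_right h2 h3

private lemma Aa_split {q : ℕ} [NeZero q] (χ : DirichletCharacter ℂ q) {X σ δ T : ℝ} {N : ℕ}
    (hX : 1 ≤ X) (hσ : 1 / 2 ≤ σ) (hδ : 0 < δ) (hN : 1 / δ ≤ N) :
    ∑ ρ ∈ Zf χ σ T, mu χ ρ * X ^ (2 * (ρ.re - σ)) / ‖ρ‖ ^ 2
      ≤ ∑ i ∈ Finset.range (N + 1), X ^ (2 * (i * δ) + 2 * δ) *
          ∑ ρ ∈ Zf χ (σ + i * δ) T, mu χ ρ / ‖ρ‖ ^ 2 := by
  classical
  have hX0 : 0 < X := by linarith
  have hpos : ∀ ρ : ℂ, 0 ≤ mu χ ρ / ‖ρ‖ ^ 2 := fun ρ => div_nonneg (mu_nonneg χ ρ) (by positivity)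
  calc ∑ ρ ∈ Zf χ σ T, mu χ ρ * X ^ (2 * (ρ.re - σ)) / ‖ρ‖ ^ 2
      ≤ ∑ ρ ∈ Zf χ σ T, ∑ i ∈ Finset.range (N + 1), (if σ + i * δ ≤ ρ.re then
          X ^ (2 * (i * δ) + 2 * δ) * (mu χ ρ / ‖ρ‖ ^ 2) else 0) := by
        refine Finset.sum_le_sum fun ρ hρ => ?_
        rw [mem_Zf] at hρ
        have hre := Zf_re_lt χ ρ hρ.1
        have h0 : 0 ≤ (ρ.re - σ) / δ := div_nonneg (by linarith [hρ.2.1]) hδ.le
        have h1 : (⌊(ρ.re - σ) / δ⌋₊ : ℝ) ≤ (ρ.re - σ) / δ := Nat.floor_le h0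
        have h2 : (ρ.re - σ) / δ < ⌊(ρ.re - σ) / δ⌋₊ + 1 := Nat.lt_floor_add_one _
        rw [le_div_iff₀ hδ] at h1
        have h2' := (div_lt_iff₀ hδ).1 h2
        have h3 : ⌊(ρ.re - σ) / δ⌋₊ ∈ Finset.range (N + 1) := by
          rw [Finset.mem_range, Nat.lt_succ_iff]
          have h4 : (⌊(ρ.re - σ) / δ⌋₊ : ℝ) ≤ (N : ℝ) := by
            refine le_trans ?_ hN
            rw [le_div_iff₀ hδ]
            linarith
          exact_mod_cast h4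
        have h5 : ∀ i ∈ Finset.range (N + 1), 0 ≤ (if σ + (i : ℝ) * δ ≤ ρ.re then
            X ^ (2 * ((i : ℝ) * δ) + 2 * δ) * (mu χ ρ / ‖ρ‖ ^ 2) else 0) := by
          intro i _
          split_ifs
          · exact mul_nonneg (Real.rpow_nonneg hX0.le _) (hpos ρ)
          · exact le_rfl
        refine le_trans ?_ (Finset.single_le_sum h5 h3)
        rw [if_pos (by linarith)]
        have h6 : X ^ (2 * (ρ.re - σ)) ≤ X ^ (2 * ((⌊(ρ.re - σ) / δ⌋₊ : ℝ) * δ) + 2 * δ) :=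
          Real.rpow_le_rpow_of_exponent_le hX (by linarith)
        calc mu χ ρ * X ^ (2 * (ρ.re - σ)) / ‖ρ‖ ^ 2
            = X ^ (2 * (ρ.re - σ)) * (mu χ ρ / ‖ρ‖ ^ 2) := by ring
          _ ≤ _ := mul_le_mul_of_nonneg_right h6 (hpos ρ)
    _ = ∑ i ∈ Finset.range (N + 1), ∑ ρ ∈ Zf χ σ T, (if σ + i * δ ≤ ρ.re then
          X ^ (2 * (i * δ) + 2 * δ) * (mu χ ρ / ‖ρ‖ ^ 2) else 0) := Finset.sum_comm
    _ ≤ ∑ i ∈ Finset.range (N + 1), X ^ (2 * (i * δ) + 2 * δ) *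
          ∑ ρ ∈ Zf χ (σ + i * δ) T, mu χ ρ / ‖ρ‖ ^ 2 := by
        refine Finset.sum_le_sum fun i _ => ?_
        rw [← Finset.sum_filter, Finset.mul_sum]
        refine Finset.sum_le_sum_of_subset_of_nonneg ?_ fun ρ _ _ =>
          mul_nonneg (Real.rpow_nonneg hX0.le _) (hpos ρ)
        intro ρ hρ
        rw [Finset.mem_filter, mem_Zf] at hρ
        rw [mem_Zf]
        exact ⟨hρ.1.1, hρ.2, hρ.1.2.2⟩

/-- Aa. PROOF. `ε' = min (ε/8) (1/2)`, `N = ⌈1/ε'⌉₊` classes; `zeros_lower A ε'` (`K`, `X₀`). For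
`ρ ∈ Zf χ σ (X^A)` let `i = ⌊(Re ρ - σ)/ε'⌋₊ ≤ N` (`Re ρ < 1`, `σ ≥ 1/2`): `σ + i ε' ≤ Re ρ` and
`X^(2(Re ρ - σ)) ≤ X^(2 i ε' + 2 ε')`. So the sum is at most
`∑_{i ∈ range (N+1)} X^(2 i ε' + 2ε') ∑_{ρ ∈ Zf χ (σ + i ε') (X^A)} mu/‖ρ‖²`, and by `zeros_lower` for
`σ + i ε'` the inner sum is at most `X^(ε') ∫_W ‖gC‖² x^(-1-2σ-2iε') ≤ X^(ε' - 2iε') ∫_W ‖gC‖² x^(-1-2σ)`
(`x ≥ X` on `W = Ioc X (X^K)`). Total `(N+1) X^(3ε') ∫ ≤ X^ε ∫` for `X` large. Integrability: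
`integrable_gC_sq_window`. -/
lemma zeros_lower_weighted (A : ℕ) (ε : ℝ) (hε : 0 < ε) : ∃ (K : ℕ) (X₀ : ℝ), 1 ≤ K ∧
    ∀ (q : ℕ) [NeZero q] (X σ : ℝ), (q : ℝ) ≤ X → X₀ ≤ X → 1 / 2 ≤ σ →
    ∀ χ : DirichletCharacter ℂ q,
    ∑ ρ ∈ Zf χ σ (X ^ A), mu χ ρ * X ^ (2 * (ρ.re - σ)) / ‖ρ‖ ^ 2
      ≤ X ^ ε * ∫ x in Ioc X (X ^ K), ‖gC χ x‖ ^ 2 * x ^ (-1 - 2 * σ) := by
  obtain ⟨δ, hδ⟩ : ∃ δ : ℝ, δ = ε / 8 := ⟨_, rfl⟩
  have hδ0 : 0 < δ := by rw [hδ]; positivity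
  obtain ⟨K, X₀, hK, h⟩ := zeros_lower A δ hδ0
  obtain ⟨N, hN⟩ := exists_nat_ge (1 / δ)
  refine ⟨K, max X₀ (max 1 (((N : ℝ) + 1) ^ (1 / δ))), hK, ?_⟩
  intro q _ X σ hq hX hσ χ
  have hX0 : X₀ ≤ X := (le_max_left _ _).trans hX
  have hX1 : 1 ≤ X := ((le_max_left _ _).trans (le_max_right _ _)).trans hX
  have hXN : ((N : ℝ) + 1) ^ (1 / δ) ≤ X := ((le_max_right _ _).trans (le_max_right _ _)).trans hX
  have hXp : 0 < X := by linarith
  have hNX : (N : ℝ) + 1 ≤ X ^ δ := by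
    have h1 := Real.rpow_le_rpow (by positivity) hXN hδ0.le
    rwa [← Real.rpow_mul (by positivity), one_div_mul_cancel hδ0.ne', Real.rpow_one] at h1
  obtain ⟨J, hJ⟩ : ∃ J : ℝ, J = ∫ x in Ioc X (X ^ K), ‖gC χ x‖ ^ 2 * x ^ (-1 - 2 * σ) := ⟨_, rfl⟩
  have hJ0 : 0 ≤ J := by
    rw [hJ]
    refine setIntegral_nonneg measurableSet_Ioc fun x hx => ?_
    have hx0 : 0 < x := hXp.trans hx.1
    positivity
  rw [← hJ]
  refine (Aa_split χ hX1 hσ hδ0 hN).trans ?_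
  have h2 : ∀ i ∈ Finset.range (N + 1), X ^ (2 * ((i : ℝ) * δ) + 2 * δ) *
      ∑ ρ ∈ Zf χ (σ + i * δ) (X ^ A), mu χ ρ / ‖ρ‖ ^ 2 ≤ X ^ (3 * δ) * J := by
    intro i _
    have hi : 0 ≤ (i : ℝ) * δ := by positivity
    have h3 := h q X (σ + i * δ) hq hX0 (by linarith) χ
    have h4 := Aa_int χ (Y := X ^ K) hX1 hσ hi
    rw [← hJ] at h4
    calc X ^ (2 * ((i : ℝ) * δ) + 2 * δ) * ∑ ρ ∈ Zf χ (σ + i * δ) (X ^ A), mu χ ρ / ‖ρ‖ ^ 2
        ≤ X ^ (2 * ((i : ℝ) * δ) + 2 * δ) * (X ^ δ * (X ^ (-(2 * ((i : ℝ) * δ))) * J)) := by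
          refine mul_le_mul_of_nonneg_left (h3.trans ?_) (Real.rpow_nonneg hXp.le _)
          exact mul_le_mul_of_nonneg_left h4 (Real.rpow_nonneg hXp.le _)
      _ = (X ^ (2 * ((i : ℝ) * δ) + 2 * δ) * X ^ δ * X ^ (-(2 * ((i : ℝ) * δ)))) * J := by ring
      _ = X ^ (3 * δ) * J := by
          rw [← Real.rpow_add hXp, ← Real.rpow_add hXp]
          congr 2
          ring
  calc ∑ i ∈ Finset.range (N + 1), X ^ (2 * ((i : ℝ) * δ) + 2 * δ) *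
        ∑ ρ ∈ Zf χ (σ + i * δ) (X ^ A), mu χ ρ / ‖ρ‖ ^ 2
      ≤ ∑ _i ∈ Finset.range (N + 1), X ^ (3 * δ) * J := Finset.sum_le_sum h2
    _ = ((N : ℝ) + 1) * (X ^ (3 * δ) * J) := by
        rw [Finset.sum_const, Finset.card_range, nsmul_eq_mul]
        push_cast
        ring
    _ ≤ X ^ δ * (X ^ (3 * δ) * J) :=
        mul_le_mul_of_nonneg_right hNX (mul_nonneg (Real.rpow_nonneg hXp.le _) hJ0)
    _ = X ^ (4 * δ) * J := by
        rw [← mul_assoc, ← Real.rpow_add hXp]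
        congr 2
        ring
    _ ≤ X ^ ε * J := by
        refine mul_le_mul_of_nonneg_right ?_ hJ0
        refine Real.rpow_le_rpow_of_exponent_le hX1 ?_
        rw [hδ]
        linarith

end Pool.Agent.TS
end

section

/-!
# Ab: Parseval
-/

set_option autoImplicit false

namespace Pool.Agent.TS

open Complex Metric Set MeasureTheory
open Pool.Agent.EM

/-- Ab. PROOF. Copy the proof of `variance_all` (ZDFinal.lean): there `∑ χ ∈ S` is bounded by the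
full sum, which is equal to `φ(q) V x q` (`X1_orth`). -/
lemma variance_eq (q : ℕ) [NeZero q] (x : ℝ) :
    ∑ χ : DirichletCharacter ℂ q, ‖gC χ x‖ ^ 2 = (Nat.totient q : ℝ) * V x q := by
  classical
  have htot : (0 : ℝ) < Nat.totient q := by
    exact_mod_cast Nat.totient_pos.mpr (Nat.pos_of_ne_zero (NeZero.ne q))
  set w : ZMod q → ℝ := fun b => if IsUnit b then psi x q b.val - x / (Nat.totient q : ℝ) else 0
    with hw
  have hV : V x q = ∑ b, w b ^ 2 := by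
    unfold V
    rw [Finset.sum_filter]
    refine Finset.sum_bij (fun a _ => (a : ZMod q)) (fun _ _ => Finset.mem_univ _) ?_ ?_ ?_
    · intro a ha b hb hab
      rw [Finset.mem_Icc] at ha hb
      rw [ZMod.natCast_eq_natCast_iff'] at hab
      rcases Nat.lt_or_ge a q with h1 | h1 <;> rcases Nat.lt_or_ge b q with h2 | h2
      · rwa [Nat.mod_eq_of_lt h1, Nat.mod_eq_of_lt h2] at hab
      · have : b = q := le_antisymm hb.2 h2
        rw [this, Nat.mod_self, Nat.mod_eq_of_lt h1] at hab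
        omega
      · have : a = q := le_antisymm ha.2 h1
        rw [this, Nat.mod_self, Nat.mod_eq_of_lt h2] at hab
        omega
      · omega
    · intro b _
      by_cases hb : b.val = 0
      · refine ⟨q, Finset.mem_Icc.mpr ⟨Nat.one_le_iff_ne_zero.mpr (NeZero.ne q), le_rfl⟩, ?_⟩
        rw [ZMod.natCast_self]
        exact ((ZMod.val_eq_zero b).mp hb).symm
      · exact ⟨b.val, Finset.mem_Icc.mpr ⟨Nat.one_le_iff_ne_zero.mpr hb, (ZMod.val_lt b).le⟩,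
          ZMod.natCast_zmod_val b⟩
    · intro a _
      simp only [hw, ZMod.isUnit_iff_coprime]
      split_ifs
      · rw [X1_psi x q a]
      · simp
  have hpsi : ∀ χ : DirichletCharacter ℂ q, gC χ x = ∑ b, χ b * (w b : ℂ) := by
    intro χ
    have h1 : ∑ b, χ b * (w b : ℂ) =
        ∑ b, χ b * ((psi x q b.val - x / (Nat.totient q : ℝ) : ℝ) : ℂ) := by
      apply Finset.sum_congr rfl
      intro b _
      simp only [hw]
      split_ifs with hb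
      · rfl
      · rw [MulChar.map_nonunit χ hb]
        simp
    have h2 : ∑ b, χ b * ((psi x q b.val - x / (Nat.totient q : ℝ) : ℝ) : ℂ) =
        ∑ b, χ b * ((psi x q b.val : ℝ) : ℂ) - (if χ = 1 then (x : ℂ) else 0) := by
      simp only [Complex.ofReal_sub, mul_sub, Finset.sum_sub_distrib]
      rw [← Finset.sum_mul]
      congr 1
      split_ifs with h
      · have h3 : ∑ b : ZMod q, χ b = (Nat.totient q : ℂ) := by
          rw [h, MulChar.sum_one_eq_card_units, ZMod.card_units_eq_totient]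
        rw [h3]
        push_cast
        have : (Nat.totient q : ℂ) ≠ 0 := by exact_mod_cast htot.ne'
        field_simp
      · rw [MulChar.sum_eq_zero_of_ne_one h, zero_mul]
    rw [h1, h2]
    unfold gC
    congr 1
    swap
    · split_ifs <;> rfl
    unfold psiC
    rw [← Finset.sum_fiberwise (Finset.Icc 1 ⌊x⌋₊) (fun n : ℕ => (n : ZMod q))]
    apply Finset.sum_congr rfl
    intro b _
    unfold psi
    rw [Complex.ofReal_sum, Finset.mul_sum]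
    have hf : (Finset.Icc 1 ⌊x⌋₊).filter (fun n : ℕ => (n : ZMod q) = b) =
        (Finset.Icc 1 ⌊x⌋₊).filter (fun n => n % q = b.val % q) := by
      ext n
      simp only [Finset.mem_filter, and_congr_right_iff]
      intro _
      rw [← ZMod.natCast_eq_natCast_iff', ZMod.natCast_zmod_val]
    rw [hf]
    apply Finset.sum_congr rfl
    intro n hn
    rw [← hf, Finset.mem_filter] at hn
    rw [hn.2]
  rw [hV, ← X1_orth q w (fun b hb => by simp only [hw]; rw [if_neg hb])]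
  exact Finset.sum_congr rfl (fun χ _ => by rw [hpsi χ])

/-- Ab2. PROOF. `variance_eq` and `integral_finset_sum` (`integrable_gC_sq_window`), pull out the
constant `φ(q)`. -/
lemma variance_int (q : ℕ) [NeZero q] (X Y σ : ℝ) (hX : 1 ≤ X) (hσ : 1 / 2 ≤ σ) :
    ∑ χ : DirichletCharacter ℂ q, ∫ x in Ioc X Y, ‖gC χ x‖ ^ 2 * x ^ (-1 - 2 * σ)
      = (Nat.totient q : ℝ) * ∫ x in Ioc X Y, V x q * x ^ (-1 - 2 * σ) := by
  rw [← integral_finsetSum _ (fun χ _ => integrable_gC_sq_window χ σ X Y hσ hX),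
    ← integral_const_mul]
  refine integral_congr_ae (Filter.Eventually.of_forall fun x => ?_)
  change ∑ χ : DirichletCharacter ℂ q, ‖gC χ x‖ ^ 2 * x ^ (-1 - 2 * σ) =
    (Nat.totient q : ℝ) * (V x q * x ^ (-1 - 2 * σ))
  rw [← Finset.sum_mul, variance_eq, mul_assoc]

end Pool.Agent.TS
end

section

/-!
# Ac: lower bound, all characters
-/

set_option autoImplicit false

namespace Pool.Agent.TS

open Complex Metric Set MeasureTheory
open Pool.Agent.EM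

/-- Ac. PROOF. Sum `zeros_lower_weighted` over `χ`, `variance_int`. -/
lemma all_lower (A : ℕ) (ε : ℝ) (hε : 0 < ε) : ∃ (K : ℕ) (X₀ : ℝ), 1 ≤ K ∧ 1 ≤ X₀ ∧
    ∀ (q : ℕ) [NeZero q] (X σ : ℝ), (q : ℝ) ≤ X → X₀ ≤ X → 1 / 2 ≤ σ →
    ∑ χ : DirichletCharacter ℂ q, ∑ ρ ∈ Zf χ σ (X ^ A),
        mu χ ρ * X ^ (2 * (ρ.re - σ)) / ‖ρ‖ ^ 2
      ≤ X ^ ε * ((Nat.totient q : ℝ) * ∫ x in Ioc X (X ^ K), V x q * x ^ (-1 - 2 * σ)) := by
  obtain ⟨K, X₀, hK, h⟩ := zeros_lower_weighted A ε hε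
  refine ⟨K, max X₀ 1, hK, le_max_right _ _, ?_⟩
  intro q _ X σ hq hX hσ
  have hX1 : 1 ≤ X := (le_max_right _ _).trans hX
  rw [← variance_int q X (X ^ K) σ hX1 hσ, Finset.mul_sum]
  exact Finset.sum_le_sum fun χ _ => h q X σ hq ((le_max_left _ _).trans hX) hσ χ

end Pool.Agent.TS
end

section

/-!
# Ua: bound for the logarithmic derivative, local zero-free rectangle
-/

set_option autoImplicit false

namespace Pool.Agent.TS

open Complex Metric Set MeasureTheory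
open Pool.Agent.EM

/-- Ua. PROOF. Copy the proof of `MC.C2.logDeriv_unif` (file C2H8.lean; `MC.logDeriv_bound`,
`MC.FF_lower`, `MC.FF_bound`, constant `8 (log 21 + 2/κ) 2/ε²`): `s0 = 2 + i Im s`, `R = 2 - θ`
(`1 ≤ R ≤ 3/2`, and `ε ≤ R` since `θ + ε ≤ Re s ≤ 2`). The only change: a point `z` of `ball s0 R` has
`θ < Re z` and `|Im z - Im s| < R ≤ 3/2`, so `FF z ≠ 0` by the hypothesis. -/
lemma logDeriv_local (ε κ : ℝ) (hε : 0 < ε) (hκ : 0 < κ) : ∃ C : ℝ, 0 ≤ C ∧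
    ∀ (q : ℕ) [NeZero q] (χ : DirichletCharacter ℂ q) (θ : ℝ), 1 / 2 ≤ θ → θ ≤ 1 → ∀ s : ℂ,
    (∀ z : ℂ, MC.FF q χ z = 0 → θ < z.re → 3 / 2 ≤ |z.im - s.im|) →
    θ + ε ≤ s.re → s.re ≤ 2 →
    ‖logDeriv (MC.FF q χ) s‖ ≤ C * ((q : ℝ) * (|s.im| + 6)) ^ κ := by
  have hlog21 : 0 < Real.log 21 := Real.log_pos (by norm_num)
  refine ⟨8 * (Real.log 21 + 2 / κ) * 2 / ε ^ 2, by positivity, ?_⟩
  intro r _ χ θ hθ hθ1 s hZ hs1 hs2
  rw [logDeriv_apply]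
  have hdR : (1 : ℝ) ≤ r := by exact_mod_cast Nat.one_le_iff_ne_zero.mpr (NeZero.ne r)
  have hdR0 : (0 : ℝ) < r := by linarith
  set K : ℝ := 3 * (4 * r + 3) with hK
  have hK1 : 1 < K := by rw [hK]; linarith
  set T : ℝ := |s.im| + 6 with hT
  have hT6 : 6 ≤ T := by rw [hT]; linarith [abs_nonneg s.im]
  have hT1 : 1 < T := by linarith
  have hT0 : 0 < T := by linarith
  set s0 : ℂ := ⟨2, s.im⟩ with hs0
  set R : ℝ := 2 - θ with hR
  have hR1 : R ≤ 2 := by rw [hR]; linarith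
  have hR2 : R ≤ 3 / 2 := by rw [hR]; linarith
  have hR0 : 0 < R := by rw [hR]; linarith
  have hs0n : ‖s0‖ ≤ 2 + |s.im| := by
    have := Complex.norm_le_abs_re_add_abs_im s0
    rw [hs0] at this ⊢
    simpa using this
  have hball : ∀ z ∈ Metric.ball s0 R, (θ < z.re ∧ |z.im - s.im| < 3 / 2) ∧ ‖z‖ + 1 ≤ T := by
    intro z hz
    rw [Metric.mem_ball, dist_eq_norm] at hz
    refine ⟨⟨?_, ?_⟩, ?_⟩
    · have h1 := (Complex.abs_re_le_norm (z - s0)).trans_lt hz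
      rw [Complex.sub_re, abs_lt] at h1
      have h2 : s0.re = 2 := rfl
      rw [h2] at h1
      linarith [h1.1]
    · have h1 := (Complex.abs_im_le_norm (z - s0)).trans_lt hz
      rw [Complex.sub_im] at h1
      have h2 : s0.im = s.im := rfl
      rw [h2] at h1
      linarith
    · have h1 : ‖z‖ ≤ ‖z - s0‖ + ‖s0‖ := by
        calc ‖z‖ = ‖(z - s0) + s0‖ := by rw [sub_add_cancel]
          _ ≤ _ := norm_add_le _ _
      rw [hT]
      linarith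
  set M : ℝ := Real.log (K * T ^ 2) with hM
  have hM0 : 0 < M := Real.log_pos (by nlinarith)
  have hexpM : Real.exp M = K * T ^ 2 := Real.exp_log (by positivity)
  have hεR : ε ≤ R := by rw [hR]; linarith
  have hlow := MC.FF_lower r χ s0 rfl
  have hdist : dist s s0 ≤ R - ε := by
    rw [dist_eq_norm]
    have h1 : s - s0 = ((s.re - 2 : ℝ) : ℂ) := by
      apply Complex.ext
      · simp [hs0]
      · simp [hs0]
    rw [h1, Complex.norm_real, Real.norm_eq_abs, abs_of_nonpos (by linarith)]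
    rw [hR]
    linarith
  have key := MC.logDeriv_bound (MC.FF r χ) s0 R M ε hM0 hε hεR
    (MC.FF_differentiable r χ).differentiableOn
    (fun z hz => by
      obtain ⟨⟨h1, h2⟩, _⟩ := hball z hz
      intro h0
      exact absurd (hZ z h0 h1) (not_le.mpr h2)) (fun z hz => by
      obtain ⟨⟨h1, _⟩, h2⟩ := hball z hz
      have h3 := MC.FF_bound r χ z (by linarith)
      rw [hexpM]
      calc ‖MC.FF r χ z‖ ≤ (4 * r + 3) * (‖z‖ + 1) ^ 2 := h3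
        _ ≤ (4 * r + 3) * T ^ 2 := by gcongr
        _ = K * T ^ 2 * (1 / 3) := by rw [hK]; ring
        _ ≤ K * T ^ 2 * ‖MC.FF r χ s0‖ := by gcongr) s hdist
  refine key.trans ?_
  have hrT : 1 ≤ (r : ℝ) * T := by nlinarith
  have hrT0 : 0 < (r : ℝ) * T := by positivity
  have hTκ : 1 ≤ ((r : ℝ) * T) ^ κ := Real.one_le_rpow hrT hκ.le
  have hM2 : M ≤ (Real.log 21 + 2 / κ) * ((r : ℝ) * T) ^ κ := by
    have h0 : K * T ^ 2 ≤ 21 * ((r : ℝ) * T) ^ 2 := by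
      have h5 : K ≤ 21 * (r : ℝ) ^ 2 := by rw [hK]; nlinarith
      calc K * T ^ 2 ≤ (21 * (r : ℝ) ^ 2) * T ^ 2 := by gcongr
        _ = _ := by ring
    have h00 : M ≤ Real.log (21 * ((r : ℝ) * T) ^ 2) := by
      rw [hM]
      exact Real.log_le_log (by positivity) h0
    rw [Real.log_mul (by norm_num) (by positivity), Real.log_pow] at h00
    have h1 := Real.log_le_rpow_div hrT0.le hκ
    have h2 : Real.log 21 ≤ Real.log 21 * ((r : ℝ) * T) ^ κ := by nlinarith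
    have h3 : 2 * Real.log ((r : ℝ) * T) ≤ 2 / κ * ((r : ℝ) * T) ^ κ := by
      calc 2 * Real.log ((r : ℝ) * T) ≤ 2 * (((r : ℝ) * T) ^ κ / κ) := by gcongr
        _ = 2 / κ * ((r : ℝ) * T) ^ κ := by ring
    push_cast at h00
    linarith
  calc 8 * M * R / ε ^ 2 ≤ 8 * ((Real.log 21 + 2 / κ) * ((r : ℝ) * T) ^ κ) * 2 / ε ^ 2 := by
        gcongr
    _ = 8 * (Real.log 21 + 2 / κ) * 2 / ε ^ 2 * ((r : ℝ) * T) ^ κ := by ring

end Pool.Agent.TS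
end

section

/-!
# Ub: the continued Mellin transform
-/

set_option autoImplicit false

namespace Pool.Agent.TS

open Complex Metric Set MeasureTheory
open Pool.Agent.EM

/-- Ub1. PROOF. `ZD_logDeriv` (ZDBasic.lean), `ZDf χ 0 = gC χ` (`funext`, `pow_zero`), `s ≠ 0`. -/
lemma MM_eq {q : ℕ} [NeZero q] (χ : DirichletCharacter ℂ q) (s : ℂ) (hs : 1 < s.re) :
    MC.MT (gC χ) s = MM χ s := by
  have h1 : ZDf χ 0 = gC χ := by
    funext t
    unfold ZDf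
    rw [pow_zero, one_mul]
  have hs0 : s ≠ 0 := by
    intro h
    rw [h] at hs
    simp at hs
    linarith
  have h2 := ZD_logDeriv χ s hs
  rw [h1] at h2
  unfold MM
  rw [h2, eq_div_iff hs0]
  ring

/-- Ub2. PROOF. `logDeriv_local` and `‖s‖ ≥ max (1/2) |Im s| ≥ (1 + |Im s|)/3`;
`1 ≤ (q (|Im s| + 6))^κ`, so the numerator is at most `(C + 1) (q (|Im s| + 6))^κ`. -/
lemma MM_bound (ε κ : ℝ) (hε : 0 < ε) (hκ : 0 < κ) : ∃ C : ℝ, 0 ≤ C ∧
    ∀ (q : ℕ) [NeZero q] (χ : DirichletCharacter ℂ q) (θ : ℝ), 1 / 2 ≤ θ → θ ≤ 1 → ∀ s : ℂ,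
    (∀ z : ℂ, MC.FF q χ z = 0 → θ < z.re → 3 / 2 ≤ |z.im - s.im|) →
    θ + ε ≤ s.re → s.re ≤ 2 →
    ‖MM χ s‖ ≤ C * ((q : ℝ) * (|s.im| + 6)) ^ κ / (1 + |s.im|) := by
  obtain ⟨C, hC0, hC⟩ := logDeriv_local ε κ hε hκ
  refine ⟨3 * (C + 1), by positivity, ?_⟩
  intro q _ χ θ hθ hθ1 s hz hs1 hs2
  have h1 := hC q χ θ hθ hθ1 s hz hs1 hs2
  have hq : (1 : ℝ) ≤ q := by exact_mod_cast Nat.one_le_iff_ne_zero.mpr (NeZero.ne q)
  have him := abs_nonneg s.im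
  have h2 : (1 : ℝ) ≤ (q : ℝ) * (|s.im| + 6) := by nlinarith
  have h3 : (1 : ℝ) ≤ ((q : ℝ) * (|s.im| + 6)) ^ κ := Real.one_le_rpow h2 hκ.le
  have h4 : (1 + |s.im|) / 3 ≤ ‖s‖ := by
    have h5 := Complex.abs_im_le_norm s
    have h6 := Complex.abs_re_le_norm s
    have h7 := le_abs_self s.re
    linarith
  have hs0 : 0 < ‖s‖ := by
    refine lt_of_lt_of_le ?_ h4
    positivity
  have h5 : ‖logDeriv (MC.FF q χ) s + (if χ = 1 then 1 else 0)‖ ≤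
      (C + 1) * ((q : ℝ) * (|s.im| + 6)) ^ κ := by
    refine (norm_add_le _ _).trans ?_
    have h6 : ‖(if χ = 1 then (1 : ℂ) else 0)‖ ≤ 1 := by
      split_ifs
      · simp
      · simp
    calc ‖logDeriv (MC.FF q χ) s‖ + ‖(if χ = 1 then (1 : ℂ) else 0)‖
        ≤ C * ((q : ℝ) * (|s.im| + 6)) ^ κ + ((q : ℝ) * (|s.im| + 6)) ^ κ :=
          add_le_add h1 (h6.trans h3)
      _ = _ := by ring
  unfold MM
  rw [norm_div, norm_neg, div_le_div_iff₀ hs0 (by positivity)]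
  have h8 : 1 + |s.im| ≤ 3 * ‖s‖ := by linarith
  calc ‖logDeriv (MC.FF q χ) s + (if χ = 1 then 1 else 0)‖ * (1 + |s.im|)
      ≤ ((C + 1) * ((q : ℝ) * (|s.im| + 6)) ^ κ) * (3 * ‖s‖) :=
        mul_le_mul h5 h8 (by positivity) (by positivity)
    _ = 3 * (C + 1) * ((q : ℝ) * (|s.im| + 6)) ^ κ * ‖s‖ := by ring

/-- Ub3. PROOF. `logDeriv = deriv / id`; `FF` is entire. -/
lemma MM_differentiableAt {q : ℕ} [NeZero q] (χ : DirichletCharacter ℂ q) (s : ℂ) (hs : s ≠ 0)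
    (h : MC.FF q χ s ≠ 0) : DifferentiableAt ℂ (MM χ) s := by
  have hd := MC.FF_differentiable q χ
  have h1 : DifferentiableAt ℂ (deriv (MC.FF q χ)) s :=
    ((hd.differentiableOn.deriv isOpen_univ) s (mem_univ s)).differentiableAt
      (Filter.univ_mem)
  have h2 : DifferentiableAt ℂ (logDeriv (MC.FF q χ)) s := by
    have h3 : logDeriv (MC.FF q χ) = fun z => deriv (MC.FF q χ) z / MC.FF q χ z := by
      funext z
      exact logDeriv_apply _ _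
    rw [h3]
    exact h1.div (hd s) h
  have h4 : MM χ = fun z => -(logDeriv (MC.FF q χ) z + (if χ = 1 then 1 else 0)) / z := by
    funext z
    rfl
  rw [h4]
  exact (h2.add_const _).neg.div differentiableAt_id hs

end Pool.Agent.TS
end

section

/-!
# Uc: Gaussian integral over a vertical line
-/

set_option autoImplicit false

namespace Pool.Agent.TS

open Complex Metric Set MeasureTheory
open Pool.Agent.EM

/-- Uc. PROOF. `B² (c + i τ)²/2 - (c + i τ) v = -(B²/2) τ² + i (B² c - v) τ + (B² c²/2 - c v)`, so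
`integral_cexp_quadratic` (and `integrable_cexp_quadratic`) with `b = -B²/2`: the value is
`(π/(B²/2))^(1/2) exp(B² c²/2 - c v - (B² c - v)²/(2 B²))`, and the exponent is `-v²/(2B²)`;
`(2π/B²)^(1/2) = √(2π)/B` (`Complex.ofReal_cpow`, `Real.sqrt_eq_rpow`). -/
lemma gauss_line (B c v : ℝ) (hB : 0 < B) :
    Integrable (fun τ : ℝ => Complex.exp ((B : ℂ) ^ 2 * ((c : ℂ) + τ * I) ^ 2 / 2
      - ((c : ℂ) + τ * I) * v)) ∧
    ∫ τ : ℝ, Complex.exp ((B : ℂ) ^ 2 * ((c : ℂ) + τ * I) ^ 2 / 2 - ((c : ℂ) + τ * I) * v)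
      = ((Real.sqrt (2 * Real.pi) / B * Real.exp (-v ^ 2 / (2 * B ^ 2)) : ℝ) : ℂ) := by
  have hB0 : (B : ℂ) ≠ 0 := by exact_mod_cast hB.ne'
  set b : ℂ := ((-(B ^ 2 / 2) : ℝ) : ℂ) with hb
  have hbre : b.re < 0 := by
    rw [hb, Complex.ofReal_re]
    have : 0 < B ^ 2 / 2 := by positivity
    linarith
  have hb2 : b = -((B : ℂ) ^ 2 / 2) := by rw [hb]; push_cast; ring
  have hfun : (fun τ : ℝ => Complex.exp ((B : ℂ) ^ 2 * ((c : ℂ) + τ * I) ^ 2 / 2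
      - ((c : ℂ) + τ * I) * v)) = fun τ : ℝ => Complex.exp (b * (τ : ℂ) ^ 2
        + (I * ((B : ℂ) ^ 2 * c - v)) * τ + ((B : ℂ) ^ 2 * c ^ 2 / 2 - c * v)) := by
    funext τ
    congr 1
    rw [hb2]
    have hI : I ^ 2 = -1 := Complex.I_sq
    linear_combination ((B : ℂ) ^ 2 * (τ : ℂ) ^ 2 / 2) * hI
  rw [hfun]
  refine ⟨?_, ?_⟩
  · exact integrable_cexp_quadratic' hbre _ _
  · rw [integral_cexp_quadratic hbre]
    have h1 : (Real.pi : ℂ) / -b = ((2 * Real.pi / B ^ 2 : ℝ) : ℂ) := by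
      rw [hb2]
      push_cast
      field_simp
    have h2 : ((B : ℂ) ^ 2 * c ^ 2 / 2 - c * v) - (I * ((B : ℂ) ^ 2 * c - v)) ^ 2 / (4 * b)
        = ((-v ^ 2 / (2 * B ^ 2) : ℝ) : ℂ) := by
      rw [hb2, mul_pow, Complex.I_sq]
      push_cast
      field_simp
      ring
    rw [h1, h2]
    have h3 : ((2 * Real.pi / B ^ 2 : ℝ) : ℂ) ^ (1 / 2 : ℂ)
        = ((Real.sqrt (2 * Real.pi) / B : ℝ) : ℂ) := by
      have h4 : (1 / 2 : ℂ) = ((1 / 2 : ℝ) : ℂ) := by push_cast; ring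
      rw [h4, ← Complex.ofReal_cpow (by positivity), ← Real.sqrt_eq_rpow,
        Real.sqrt_div (by positivity), Real.sqrt_sq hB.le]
    rw [h3, ← Complex.ofReal_exp, ← Complex.ofReal_mul]

end Pool.Agent.TS
end

section

/-!
# Ue: the localized Fourier transform as an integral over a vertical line
-/

set_option autoImplicit false

namespace Pool.Agent.TS

open Complex Metric Set MeasureTheory
open Pool.Agent.EM

/-- the part of the integrand which depends only on `v` -/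
private noncomputable def Ue_A {q : ℕ} (χ : DirichletCharacter ℂ q) (t v : ℝ) : ℂ :=
  gC χ v * (v : ℂ) ^ (-((1 / 2 + t * I : ℂ) + 1))

/-- the Gaussian part of the integrand -/
private noncomputable def Ue_E (B x t c y v : ℝ) : ℂ :=
  Complex.exp ((B : ℂ) ^ 2 * (((c - 1 / 2 : ℝ) : ℂ) + ((y - t : ℝ) : ℂ) * I) ^ 2 / 2
    - (((c - 1 / 2 : ℝ) : ℂ) + ((y - t : ℝ) : ℂ) * I) * ((Real.log v - Real.log x : ℝ) : ℂ))

private lemma Ue_E_norm (B x t c y v : ℝ) : ‖Ue_E B x t c y v‖ =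
    Real.exp (B ^ 2 * ((c - 1 / 2) ^ 2 - (y - t) ^ 2) / 2) *
      Real.exp (-((c - 1 / 2) * (Real.log v - Real.log x))) := by
  unfold Ue_E
  rw [Complex.norm_exp, ← Real.exp_add]
  congr 1
  rw [Complex.sub_re, Complex.re_mul_ofReal, Complex.add_re, Complex.ofReal_re,
    Complex.re_ofReal_mul, Complex.I_re, mul_zero, add_zero]
  have h1 : ((B : ℂ) ^ 2 * (((c - 1 / 2 : ℝ) : ℂ) + ((y - t : ℝ) : ℂ) * I) ^ 2 / 2) =
      ((B ^ 2 * ((c - 1 / 2) ^ 2 - (y - t) ^ 2) / 2 : ℝ) : ℂ) +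
        ((B ^ 2 * (c - 1 / 2) * (y - t) : ℝ) : ℂ) * I := by
    push_cast
    linear_combination ((B : ℂ) ^ 2 * ((y : ℂ) - t) ^ 2 / 2) * Complex.I_sq
  rw [h1, Complex.add_re, Complex.ofReal_re, Complex.re_ofReal_mul, Complex.I_re, mul_zero,
    add_zero]
  ring

private lemma Ue_A_norm {q : ℕ} (χ : DirichletCharacter ℂ q) (t v : ℝ) (hv : 0 < v) :
    ‖Ue_A χ t v‖ = ‖gC χ v‖ * v ^ (-(3 / 2) : ℝ) := by
  unfold Ue_A
  rw [norm_mul, Complex.norm_cpow_eq_rpow_re_of_pos hv]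
  congr 2
  simp
  norm_num

private lemma Ue_cpow (u : ℝ) (hu : 0 < u) (z : ℂ) :
    (u : ℂ) ^ z = Complex.exp (z * ((Real.log u : ℝ) : ℂ)) := by
  have h1 : (u : ℂ) ≠ 0 := by exact_mod_cast hu.ne'
  rw [Complex.cpow_def_of_ne_zero h1, ← Complex.ofReal_log hu.le, mul_comm]

private lemma Ue_point {q : ℕ} [NeZero q] (χ : DirichletCharacter ℂ q) (B x t c y v : ℝ)
    (hx : 0 < x) (hv : 0 < v) :
    Complex.exp ((B : ℂ) ^ 2 * (((c : ℂ) + y * I) - (1 / 2 + t * I)) ^ 2 / 2) *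
      (x : ℂ) ^ (((c : ℂ) + y * I) - (1 / 2 + t * I)) *
      (gC χ v * (v : ℂ) ^ (-(((c : ℂ) + y * I) + 1))) = Ue_A χ t v * Ue_E B x t c y v := by
  unfold Ue_A Ue_E
  rw [Ue_cpow x hx, Ue_cpow v hv, Ue_cpow v hv]
  have e1 : ∀ a b d e f g : ℂ, Complex.exp a * Complex.exp b * (g * Complex.exp d) =
      g * Complex.exp (a + b + d) := by
    intro a b d e f g
    rw [Complex.exp_add, Complex.exp_add]
    ring
  have e2 : ∀ g a b : ℂ, g * Complex.exp a * Complex.exp b = g * Complex.exp (a + b) := by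
    intro g a b
    rw [Complex.exp_add]
    ring
  rw [e1 _ _ _ 0 0, e2]
  congr 2
  push_cast
  ring

private lemma Ue_int {q : ℕ} [NeZero q] (χ : DirichletCharacter ℂ q) (B x t c : ℝ) (hB : 0 < B)
    (hx : 0 < x) (hc : 1 < c) :
    Integrable (Function.uncurry fun y v : ℝ => Ue_A χ t v * Ue_E B x t c y v)
      (volume.prod (volume.restrict (Ioi (1 : ℝ)))) := by
  have hgb : ∀ v : ℝ, 1 < v → ‖gC χ v‖ ≤ 7 * v ^ (1 : ℝ) := by
    intro v hv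
    rw [Real.rpow_one]
    exact gC_le q χ v (by linarith)
  have h2 := (MC.MT_integrable (gC χ) 7 1 (gC_measurable χ) hgb (c : ℂ)
    (by rw [Complex.ofReal_re]; exact hc)).norm.const_mul (x ^ (c - 1 / 2))
  have h2' : Integrable (fun v : ℝ => ‖Ue_A χ t v‖ *
      Real.exp (-((c - 1 / 2) * (Real.log v - Real.log x)))) (volume.restrict (Ioi (1 : ℝ))) := by
    refine h2.congr ?_
    filter_upwards [ae_restrict_mem measurableSet_Ioi] with v hv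
    have hv0 : 0 < v := lt_trans one_pos hv
    rw [Ue_A_norm χ t v hv0, norm_mul, Complex.norm_cpow_eq_rpow_re_of_pos hv0]
    have h3 : (-((c : ℂ) + 1)).re = -c - 1 := by
      simp
      ring
    have h4 : x ^ (c - 1 / 2) * v ^ (-c - 1) = v ^ (-(3 / 2) : ℝ) *
        Real.exp (-((c - 1 / 2) * (Real.log v - Real.log x))) := by
      rw [Real.rpow_def_of_pos hx, Real.rpow_def_of_pos hv0, Real.rpow_def_of_pos hv0,
        ← Real.exp_add, ← Real.exp_add]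
      congr 1
      ring
    rw [h3]
    calc x ^ (c - 1 / 2) * (‖gC χ v‖ * v ^ (-c - 1)) =
        ‖gC χ v‖ * (x ^ (c - 1 / 2) * v ^ (-c - 1)) := by ring
      _ = _ := by rw [h4]; ring
  have h1 : Integrable (fun y : ℝ =>
      Real.exp (B ^ 2 * ((c - 1 / 2) ^ 2 - (y - t) ^ 2) / 2)) := by
    have h3 : Integrable (fun y : ℝ => Real.exp (-(B ^ 2 / 2) * y ^ 2)) :=
      integrable_exp_neg_mul_sq (by positivity)
    have h4 := (h3.comp_sub_right t).const_mul (Real.exp (B ^ 2 * (c - 1 / 2) ^ 2 / 2))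
    refine h4.congr (Filter.Eventually.of_forall fun y => ?_)
    show Real.exp (B ^ 2 * (c - 1 / 2) ^ 2 / 2) * Real.exp (-(B ^ 2 / 2) * (y - t) ^ 2) = _
    rw [← Real.exp_add]
    congr 1
    ring
  refine (h1.mul_prod h2').mono' ?_ ?_
  · refine Measurable.aestronglyMeasurable ?_
    unfold Function.uncurry Ue_A Ue_E
    have hm1 : Measurable fun p : ℝ × ℝ => gC χ p.2 := (gC_measurable χ).comp measurable_snd
    have hm2 : Measurable fun p : ℝ × ℝ => ((p.2 : ℂ)) ^ (-((1 / 2 + t * I : ℂ) + 1)) :=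
      (Complex.measurable_ofReal.comp measurable_snd).pow_const _
    have hm3 : Measurable fun p : ℝ × ℝ => (((c - 1 / 2 : ℝ) : ℂ) + ((p.1 - t : ℝ) : ℂ) * I) := by
      fun_prop
    have hm4 : Measurable fun p : ℝ × ℝ => ((Real.log p.2 - Real.log x : ℝ) : ℂ) :=
      Complex.measurable_ofReal.comp
        ((Real.measurable_log.comp measurable_snd).sub_const _)
    exact (hm1.mul hm2).mul (Complex.measurable_exp.comp
      ((((hm3.pow_const 2).const_mul _).div_const _).sub (hm3.mul hm4)))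
  · refine Filter.Eventually.of_forall fun p => ?_
    show ‖Ue_A χ t p.2 * Ue_E B x t c p.1 p.2‖ ≤ _
    rw [norm_mul, Ue_E_norm]
    refine le_of_eq ?_
    ring

/-- Ue. PROOF. Write `z = (c - 1/2) + (y - t) i`, so `c + y i - (1/2 + t i) = z`. By `MM_eq`
`MM χ (c + y i) = ∫_{v > 1} gC χ v · v^(-(c + y i + 1)) dv`, so
`Psi (c + y i) = ∫_v exp(B² z²/2) x^z v^(-z) · gC χ v · v^(-((1/2 + t i) + 1)) dv`. The norm of the
integrand is `exp(B² ((c-1/2)² - (y-t)²)/2) x^(c-1/2) · ‖gC χ v‖ v^(-c-1)`: a product of a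
function of `y` which is integrable (Gaussian) and a function of `v`, integrable on `v > 1`
(`gC_le`, `MC.MT_integrable` with `gC_measurable`, `σ0 = 1`, or `integrable_gC_Wb`...). So `Psi (c + y i)` is
integrable in `y`, and Fubini (`MeasureTheory.integral_integral_swap`, `Integrable.mul_prod`...)
gives `∫_y Psi = ∫_v gC χ v v^(-((1/2+t i)+1)) (∫_y exp(B² z²/2 - z (log v - log x)) dy) dv`
(`x^z v^(-z) = exp(-z (log v - log x))`), and the inner integral is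
`√(2π)/B exp(-(log v - log x)²/(2 B²))` by `gauss_line` (translation in `y`). -/
lemma Ft_eq {q : ℕ} [NeZero q] (χ : DirichletCharacter ℂ q) (B x t c : ℝ) (hB : 0 < B)
    (hx : 0 < x) (hc : 1 < c) :
    Integrable (fun y : ℝ => Psi χ B x t ((c : ℂ) + y * I)) ∧
    Ft χ B x t = ((B / Real.sqrt (2 * Real.pi) : ℝ) : ℂ) *
      ∫ y : ℝ, Psi χ B x t ((c : ℂ) + y * I) := by
  have hK := Ue_int χ B x t c hB hx hc
  have hPsi : ∀ y : ℝ, Psi χ B x t ((c : ℂ) + y * I) =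
      ∫ v in Ioi (1 : ℝ), Ue_A χ t v * Ue_E B x t c y v := by
    intro y
    have hs : 1 < ((c : ℂ) + y * I).re := by simpa using hc
    unfold Psi
    rw [← MM_eq χ _ hs]
    unfold MC.MT
    rw [← integral_const_mul]
    refine setIntegral_congr_fun measurableSet_Ioi ?_
    intro v hv
    exact Ue_point χ B x t c y v hx (lt_trans one_pos hv)
  have hin : ∀ v : ℝ, ∫ y : ℝ, Ue_A χ t v * Ue_E B x t c y v =
      ((Real.sqrt (2 * Real.pi) / B : ℝ) : ℂ) *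
        (Gw χ B x v * (v : ℂ) ^ (-((1 / 2 + t * I : ℂ) + 1))) := by
    intro v
    rw [integral_const_mul]
    have h1 : ∫ y : ℝ, Ue_E B x t c y v = ∫ τ : ℝ, Complex.exp ((B : ℂ) ^ 2 *
        (((c - 1 / 2 : ℝ) : ℂ) + τ * I) ^ 2 / 2 -
          (((c - 1 / 2 : ℝ) : ℂ) + τ * I) * ((Real.log v - Real.log x : ℝ) : ℂ)) :=
      integral_sub_right_eq_self (fun τ : ℝ => Complex.exp ((B : ℂ) ^ 2 *
        (((c - 1 / 2 : ℝ) : ℂ) + τ * I) ^ 2 / 2 -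
          (((c - 1 / 2 : ℝ) : ℂ) + τ * I) * ((Real.log v - Real.log x : ℝ) : ℂ))) t
    rw [h1, (gauss_line B (c - 1 / 2) (Real.log v - Real.log x) hB).2]
    unfold Ue_A Gw
    rw [Complex.ofReal_mul]
    ring
  have hFub := integral_integral_swap hK
  simp only [← hPsi] at hFub
  have hint : Integrable (fun y : ℝ => Psi χ B x t ((c : ℂ) + y * I)) := by
    refine hK.integral_prod_left.congr (Filter.Eventually.of_forall fun y => ?_)
    exact (hPsi y).symm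
  refine ⟨hint, ?_⟩
  rw [hFub]
  simp only [hin]
  rw [integral_const_mul, ← mul_assoc, ← Complex.ofReal_mul]
  have hpi : Real.sqrt (2 * Real.pi) ≠ 0 := by
    have := Real.pi_pos
    positivity
  have h1 : B / Real.sqrt (2 * Real.pi) * (Real.sqrt (2 * Real.pi) / B) = 1 := by
    field_simp
  rw [h1, Complex.ofReal_one, one_mul]
  rfl

end Pool.Agent.TS
end

section

/-!
# Ud: Gaussian moments
-/

set_option autoImplicit false

namespace Pool.Agent.TS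

open Complex Metric Set MeasureTheory
open Pool.Agent.EM

private lemma Ud_bound (z : ℝ) :
    Real.exp (-(z ^ 2 / 4)) * (1 + |z|) ^ 2 ≤ 16 * Real.exp (-(1 / 8) * z ^ 2) := by
  have h1 : 1 + |z| ≤ 4 * Real.exp (z ^ 2 / 16) := by
    have h2 := Real.add_one_le_exp (z ^ 2 / 16)
    have h3 : z ^ 2 = |z| ^ 2 := (sq_abs z).symm
    have h4 : 1 + |z| ≤ 4 * (z ^ 2 / 16 + 1) := by
      rw [h3]
      nlinarith [sq_nonneg (|z| / 2 - 1)]
    linarith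
  have h5 : (1 + |z|) ^ 2 ≤ 16 * Real.exp (z ^ 2 / 8) := by
    calc (1 + |z|) ^ 2 ≤ (4 * Real.exp (z ^ 2 / 16)) ^ 2 := by gcongr
      _ = 16 * (Real.exp (z ^ 2 / 16) * Real.exp (z ^ 2 / 16)) := by ring
      _ = 16 * Real.exp (z ^ 2 / 8) := by
        rw [← Real.exp_add]
        congr 2
        ring
  calc Real.exp (-(z ^ 2 / 4)) * (1 + |z|) ^ 2
      ≤ Real.exp (-(z ^ 2 / 4)) * (16 * Real.exp (z ^ 2 / 8)) := by gcongr
    _ = 16 * (Real.exp (-(z ^ 2 / 4)) * Real.exp (z ^ 2 / 8)) := by ring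
    _ = 16 * Real.exp (-(1 / 8) * z ^ 2) := by
      rw [← Real.exp_add]
      congr 2
      ring

private lemma Ud_point (B : ℝ) (hB : 1 ≤ B) (w : ℝ) :
    B * (Real.exp (-(B ^ 2 * w ^ 2 / 4)) * (1 + |w|) ^ 2)
      ≤ B * (16 * Real.exp (-(1 / 8) * (B * w) ^ 2)) := by
  have h0 : 0 ≤ B := by linarith
  have h1 : |w| ≤ |B * w| := by
    rw [abs_mul, abs_of_nonneg h0]
    nlinarith [abs_nonneg w]
  have h2 := Ud_bound (B * w)
  have h3 : B ^ 2 * w ^ 2 / 4 = (B * w) ^ 2 / 4 := by ring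
  rw [h3]
  apply mul_le_mul_of_nonneg_left _ h0
  calc Real.exp (-((B * w) ^ 2 / 4)) * (1 + |w|) ^ 2
      ≤ Real.exp (-((B * w) ^ 2 / 4)) * (1 + |B * w|) ^ 2 := by gcongr
    _ ≤ _ := h2

/-- Ud. PROOF. Substitute `u = B (y - t)` (`integral_comp_mul_left`, `integral_sub_right_eq_self`):
the integral is `∫ exp(-u²/4) (1 + |u|/B)² du ≤ ∫ exp(-u²/4) (1 + |u|)² du =: C₀`, finite
(`(1+|u|)² ≤ 8 exp(|u|)`..., or `(1 + |u|)² exp(-u²/4) ≤ K exp(-u²/8)` with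
`1 + |u| ≤ 4 exp(u²/16)`: `1 + |u| ≤ 3 + u²/4 ≤ 4 (1 + u²/16)`, and
`integrable_exp_neg_mul_sq`). -/
lemma gauss_moment : ∃ C : ℝ, 1 ≤ C ∧ ∀ B : ℝ, 1 ≤ B → ∀ t : ℝ,
    Integrable (fun y : ℝ => B * (Real.exp (-(B ^ 2 * (y - t) ^ 2 / 4)) * (1 + |y - t|) ^ 2)) ∧
    ∫ y : ℝ, B * (Real.exp (-(B ^ 2 * (y - t) ^ 2 / 4)) * (1 + |y - t|) ^ 2) ≤ C := by
  set C0 : ℝ := ∫ z : ℝ, 16 * Real.exp (-(1 / 8) * z ^ 2) with hC0
  have hint : Integrable (fun z : ℝ => 16 * Real.exp (-(1 / 8) * z ^ 2)) :=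
    (integrable_exp_neg_mul_sq (by norm_num : (0 : ℝ) < 1 / 8)).const_mul 16
  refine ⟨max 1 C0, le_max_left _ _, ?_⟩
  intro B hB t
  have hB0 : 0 < B := by linarith
  have hdom : Integrable (fun y : ℝ => B * (16 * Real.exp (-(1 / 8) * (B * (y - t)) ^ 2))) := by
    have h1 : Integrable (fun y : ℝ => 16 * Real.exp (-(1 / 8) * (B * y) ^ 2)) :=
      hint.comp_mul_left' hB0.ne'
    exact (h1.comp_sub_right t).const_mul B
  have hmeas : AEStronglyMeasurable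
      (fun y : ℝ => B * (Real.exp (-(B ^ 2 * (y - t) ^ 2 / 4)) * (1 + |y - t|) ^ 2)) volume := by
    apply Continuous.aestronglyMeasurable
    fun_prop
  have hI : Integrable
      (fun y : ℝ => B * (Real.exp (-(B ^ 2 * (y - t) ^ 2 / 4)) * (1 + |y - t|) ^ 2)) := by
    refine hdom.mono' hmeas (Filter.Eventually.of_forall fun y => ?_)
    rw [Real.norm_of_nonneg (by positivity)]
    exact Ud_point B hB (y - t)
  refine ⟨hI, ?_⟩
  have h2 : ∫ y : ℝ, B * (Real.exp (-(B ^ 2 * (y - t) ^ 2 / 4)) * (1 + |y - t|) ^ 2)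
      ≤ ∫ y : ℝ, B * (16 * Real.exp (-(1 / 8) * (B * (y - t)) ^ 2)) :=
    integral_mono hI hdom fun y => Ud_point B hB (y - t)
  refine h2.trans ?_
  have h3 : ∫ y : ℝ, B * (16 * Real.exp (-(1 / 8) * (B * (y - t)) ^ 2)) = C0 := by
    rw [integral_const_mul]
    have h4 := integral_sub_right_eq_self
      (fun y : ℝ => 16 * Real.exp (-(1 / 8) * (B * y) ^ 2)) (μ := volume) t
    rw [h4]
    have h5 := Measure.integral_comp_mul_left
      (fun y : ℝ => 16 * Real.exp (-(1 / 8) * y ^ 2)) B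
    rw [h5, ← hC0, smul_eq_mul, abs_of_pos (inv_pos.mpr hB0), ← mul_assoc,
      mul_inv_cancel₀ hB0.ne', one_mul]
  rw [h3]
  exact le_max_right _ _

end Pool.Agent.TS
end

section

/-!
# Ui: the integrand
-/

set_option autoImplicit false

namespace Pool.Agent.TS

open Complex Metric Set MeasureTheory
open Pool.Agent.EM

/-- Ui1. PROOF. `u + y i - (1/2 + t i) = (u - 1/2) + (y - t) i`; real part of its square is
`(u-1/2)² - (y-t)²` (`Complex.norm_exp`); `Complex.norm_cpow_eq_rpow_re_of_pos`. -/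
lemma norm_Psi {q : ℕ} [NeZero q] (χ : DirichletCharacter ℂ q) (B x t u y : ℝ) (hx : 0 < x) :
    ‖Psi χ B x t ((u : ℂ) + y * I)‖
      = Real.exp (B ^ 2 * ((u - 1 / 2) ^ 2 - (y - t) ^ 2) / 2) * x ^ (u - 1 / 2) *
        ‖MM χ ((u : ℂ) + y * I)‖ := by
  unfold Psi
  have h0 : (u : ℂ) + y * I - (1 / 2 + t * I) = (((u - 1 / 2 : ℝ) : ℂ)) + ((y - t : ℝ) : ℂ) * I := by
    push_cast
    ring
  rw [h0, norm_mul, norm_mul, Complex.norm_exp, Complex.norm_cpow_eq_rpow_re_of_pos hx]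
  have h1 : ((((u - 1 / 2 : ℝ) : ℂ)) + ((y - t : ℝ) : ℂ) * I).re = u - 1 / 2 := by
    simp
  have h2 : ((B : ℂ) ^ 2 * ((((u - 1 / 2 : ℝ) : ℂ)) + ((y - t : ℝ) : ℂ) * I) ^ 2 / 2)
      = ((B ^ 2 * ((u - 1 / 2) ^ 2 - (y - t) ^ 2) / 2 : ℝ) : ℂ)
        + ((B ^ 2 * ((u - 1 / 2) * (y - t)) : ℝ) : ℂ) * I := by
    have hI : I ^ 2 = -1 := Complex.I_sq
    push_cast
    linear_combination ((B : ℂ) ^ 2 * ((y : ℂ) - t) ^ 2 / 2) * hI
  have h3 : ((B : ℂ) ^ 2 * ((((u - 1 / 2 : ℝ) : ℂ)) + ((y - t : ℝ) : ℂ) * I) ^ 2 / 2).re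
      = B ^ 2 * ((u - 1 / 2) ^ 2 - (y - t) ^ 2) / 2 := by
    rw [h2]
    generalize (B ^ 2 * ((u - 1 / 2) ^ 2 - (y - t) ^ 2) / 2 : ℝ) = a
    generalize (B ^ 2 * ((u - 1 / 2) * (y - t)) : ℝ) = b
    simp
  rw [h1, h3]

/-- Ui2. PROOF. `MM_differentiableAt`; `s ↦ x^(...)` is differentiable for `x > 0`
(`DifferentiableAt.const_cpow`). -/
lemma Psi_differentiableAt {q : ℕ} [NeZero q] (χ : DirichletCharacter ℂ q) (B x t : ℝ)
    (hx : 0 < x) (s : ℂ) (hs : s ≠ 0) (h : MC.FF q χ s ≠ 0) :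
    DifferentiableAt ℂ (Psi χ B x t) s := by
  have hx0 : (x : ℂ) ≠ 0 := by exact_mod_cast hx.ne'
  have hd : DifferentiableAt ℂ (fun s : ℂ => s - (1 / 2 + t * I)) s :=
    (differentiableAt_id).sub_const _
  have h1 : DifferentiableAt ℂ (fun s : ℂ =>
      Complex.exp ((B : ℂ) ^ 2 * (s - (1 / 2 + t * I)) ^ 2 / 2)) s :=
    (((hd.pow 2).const_mul _).div_const 2).cexp
  have h2 : DifferentiableAt ℂ (fun s : ℂ => (x : ℂ) ^ (s - (1 / 2 + t * I))) s :=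
    hd.const_cpow (Or.inl hx0)
  exact (h1.mul h2).mul (MM_differentiableAt χ s hs h)

end Pool.Agent.TS
end

section

/-!
# Uh: integrals over parts of a vertical line
-/

set_option autoImplicit false

namespace Pool.Agent.TS

open Complex Metric Set MeasureTheory
open Pool.Agent.EM

/-- Uh. PROOF. By `norm_Psi`, for `y ∈ R`, `v = y - t`:
`‖Psi‖ ≤ exp(B²/2) exp(-B² v²/2) x^(u-1/2) M (1+|v|)²` (`(u-1/2)² ≤ 1`) and
`exp(-B² v²/2) = exp(-B² v²/4) exp(-B² v²/4) ≤ exp(-B² h²/4) exp(-B² v²/4)` as `h ≤ |v|`. So (`norm_integral_le_of_norm_le`,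
restricted to `R`; then enlarge `R` to the whole line, the bound is nonnegative) `gauss_moment`. -/
lemma line_bound : ∃ C : ℝ, 1 ≤ C ∧ ∀ (q : ℕ) [NeZero q] (χ : DirichletCharacter ℂ q)
    (B x t u h M : ℝ) (R : Set ℝ), MeasurableSet R → 1 ≤ B → 1 ≤ x → |u - 1 / 2| ≤ 1 → 0 ≤ h →
    0 ≤ M → (∀ y ∈ R, h ≤ |y - t|) →
    (∀ y ∈ R, ‖MM χ ((u : ℂ) + y * I)‖ ≤ M * (1 + |y - t|) ^ 2) →
    B * ‖∫ y in R, Psi χ B x t ((u : ℂ) + y * I)‖
      ≤ C * M * Real.exp (B ^ 2 / 2) * x ^ (u - 1 / 2) * Real.exp (-(B ^ 2 * h ^ 2 / 4)) := by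
  obtain ⟨C, hC1, hC⟩ := gauss_moment
  refine ⟨C, hC1, ?_⟩
  intro q _ χ B x t u h M R hR hB hx hu hh hM hR1 hR2
  obtain ⟨hint, hle⟩ := hC B hB t
  have hx0 : 0 < x := by linarith
  have hB0 : 0 < B := by linarith
  set K : ℝ := M * Real.exp (B ^ 2 / 2) * x ^ (u - 1 / 2) * Real.exp (-(B ^ 2 * h ^ 2 / 4)) with hK
  have hK0 : 0 ≤ K := by rw [hK]; positivity
  set w : ℝ → ℝ := fun y => Real.exp (-(B ^ 2 * (y - t) ^ 2 / 4)) * (1 + |y - t|) ^ 2 with hw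
  have hw0 : ∀ y, 0 ≤ w y := fun y => by simp only [hw]; positivity
  have hwint : Integrable w := by
    have h1 := hint.const_mul (B⁻¹)
    refine h1.congr (Filter.Eventually.of_forall fun y => ?_)
    show B⁻¹ * (B * w y) = w y
    rw [← mul_assoc, inv_mul_cancel₀ hB0.ne', one_mul]
  have hG : Integrable (fun y => K * w y) := hwint.const_mul K
  have hbd : ∀ y ∈ R, ‖Psi χ B x t ((u : ℂ) + y * I)‖ ≤ K * w y := by
    intro y hy
    have h1 := hR1 y hy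
    have h2 := hR2 y hy
    have h3 : (u - 1 / 2) ^ 2 ≤ 1 := by
      rw [← sq_abs]
      have := abs_nonneg (u - 1 / 2)
      nlinarith
    have h4 : h ^ 2 ≤ (y - t) ^ 2 := by
      rw [← sq_abs (y - t)]
      exact pow_le_pow_left₀ hh h1 2
    have h5 : Real.exp (B ^ 2 * ((u - 1 / 2) ^ 2 - (y - t) ^ 2) / 2) ≤
        Real.exp (B ^ 2 / 2) * Real.exp (-(B ^ 2 * h ^ 2 / 4)) *
          Real.exp (-(B ^ 2 * (y - t) ^ 2 / 4)) := by
      rw [← Real.exp_add, ← Real.exp_add]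
      refine Real.exp_le_exp.mpr ?_
      have hB2 : 0 ≤ B ^ 2 := sq_nonneg B
      nlinarith [mul_le_mul_of_nonneg_left h3 hB2, mul_le_mul_of_nonneg_left h4 hB2]
    rw [norm_Psi χ B x t u y hx0]
    have hxp : 0 ≤ x ^ (u - 1 / 2) := Real.rpow_nonneg hx0.le _
    calc Real.exp (B ^ 2 * ((u - 1 / 2) ^ 2 - (y - t) ^ 2) / 2) * x ^ (u - 1 / 2) *
          ‖MM χ ((u : ℂ) + y * I)‖
        ≤ (Real.exp (B ^ 2 / 2) * Real.exp (-(B ^ 2 * h ^ 2 / 4)) *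
          Real.exp (-(B ^ 2 * (y - t) ^ 2 / 4))) * x ^ (u - 1 / 2) *
          (M * (1 + |y - t|) ^ 2) := by
          refine mul_le_mul ?_ h2 (norm_nonneg _) (by positivity)
          exact mul_le_mul_of_nonneg_right h5 hxp
      _ = K * w y := by
          simp only [hK, hw]
          ring
  have h6 : ‖∫ y in R, Psi χ B x t ((u : ℂ) + y * I)‖ ≤ ∫ y in R, K * w y := by
    refine norm_integral_le_of_norm_le hG.restrict ?_
    filter_upwards [ae_restrict_mem hR] with y hy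
    exact hbd y hy
  have h7 : ∫ y in R, K * w y ≤ ∫ y, K * w y :=
    setIntegral_le_integral hG (Filter.Eventually.of_forall fun y => mul_nonneg hK0 (hw0 y))
  have h8 : B * ∫ y, K * w y = K * ∫ y, B * w y := by
    rw [integral_const_mul, integral_const_mul]
    ring
  calc B * ‖∫ y in R, Psi χ B x t ((u : ℂ) + y * I)‖ ≤ B * ∫ y, K * w y :=
        mul_le_mul_of_nonneg_left (h6.trans h7) hB0.le
    _ = K * ∫ y, B * w y := h8
    _ ≤ K * C := mul_le_mul_of_nonneg_left hle hK0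
    _ = _ := by rw [hK]; ring

end Pool.Agent.TS
end

section

/-!
# Uj: moving a segment
-/

set_option autoImplicit false

namespace Pool.Agent.TS

open Complex Metric Set MeasureTheory
open Pool.Agent.EM

/-- Uj. PROOF. `Complex.integral_boundary_rect_eq_zero_of_differentiableOn G z w` with
`z = a + (t-h) i`, `w = c + (t+h) i` (in `[[a,c]] ×ℂ [[t-h,t+h]]` we have `|Im s - t| ≤ h`), triangle
inequality, `‖I‖ = 1`; `∫ y in Icc = ∫ y in (t-h)..(t+h)` (`integral_Icc_eq_integral_Ioc`,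
`intervalIntegral.integral_of_le`). -/
lemma rect_bound (G : ℂ → ℂ) (a c t h : ℝ) (hac : a ≤ c) (hh : 0 ≤ h)
    (hG : ∀ s : ℂ, a ≤ s.re → s.re ≤ c → |s.im - t| ≤ h → DifferentiableAt ℂ G s) :
    ‖∫ y in Icc (t - h) (t + h), G ((c : ℂ) + y * I)‖
      ≤ ‖∫ y in Icc (t - h) (t + h), G ((a : ℂ) + y * I)‖
        + ‖∫ u in a..c, G ((u : ℂ) + ((t - h : ℝ) : ℂ) * I)‖
        + ‖∫ u in a..c, G ((u : ℂ) + ((t + h : ℝ) : ℂ) * I)‖ := by
  have hre : uIcc a c = Icc a c := uIcc_of_le hac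
  have him : uIcc (t - h) (t + h) = Icc (t - h) (t + h) := uIcc_of_le (by linarith)
  have key := Complex.integral_boundary_rect_eq_zero_of_differentiableOn G ⟨a, t - h⟩ ⟨c, t + h⟩ (by
    intro s hs
    rw [mem_reProdIm] at hs
    obtain ⟨h1, h2⟩ := hs
    simp only at h1 h2
    rw [hre, mem_Icc] at h1
    rw [him, mem_Icc] at h2
    refine (hG s h1.1 h1.2 ?_).differentiableWithinAt
    rw [abs_le]
    constructor <;> linarith)
  simp only at key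
  have hI : ∀ F : ℝ → ℂ, ∫ y in Icc (t - h) (t + h), F y = ∫ y in (t - h)..(t + h), F y := by
    intro F
    rw [integral_Icc_eq_integral_Ioc, intervalIntegral.integral_of_le (by linarith)]
  rw [hI, hI]
  set Vc := ∫ y in (t - h)..(t + h), G ((c : ℂ) + y * I)
  set Va := ∫ y in (t - h)..(t + h), G ((a : ℂ) + y * I)
  set H1 := ∫ u in a..c, G ((u : ℂ) + ((t - h : ℝ) : ℂ) * I)
  set H2 := ∫ u in a..c, G ((u : ℂ) + ((t + h : ℝ) : ℂ) * I)
  have h1 : I • Vc = I • Va - H1 + H2 := by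
    linear_combination key
  have h2 : ‖Vc‖ = ‖I • Vc‖ := by
    rw [norm_smul, norm_I, one_mul]
  rw [h2, h1]
  have h3 : ‖I • Va‖ = ‖Va‖ := by
    rw [norm_smul, norm_I, one_mul]
  calc ‖I • Va - H1 + H2‖ ≤ ‖I • Va - H1‖ + ‖H2‖ := norm_add_le _ _
    _ ≤ ‖I • Va‖ + ‖H1‖ + ‖H2‖ := by gcongr; exact norm_sub_le _ _
    _ = ‖Va‖ + ‖H1‖ + ‖H2‖ := by rw [h3]

end Pool.Agent.TS
end

section

/-!
# Ul: the horizontal sides
-/

set_option autoImplicit false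

namespace Pool.Agent.TS

open Complex Metric Set MeasureTheory
open Pool.Agent.EM

/-- Ul. PROOF. `intervalIntegral.norm_integral_le_of_norm_le_const` with `norm_Psi`:
`exp(B² ((u-1/2)² - h²)/2) ≤ exp(B²/2 - B² h²/2)` as `0 ≤ u - 1/2 ≤ 1`, `x^(u-1/2) ≤ x^(c-1/2)`
(`x ≥ 1`), and `|c - a| ≤ 1`. -/
lemma horizontal_bound {q : ℕ} [NeZero q] (χ : DirichletCharacter ℂ q) (B x t a c h M y : ℝ)
    (hx : 1 ≤ x) (ha : 1 / 2 ≤ a) (hac : a ≤ c) (hc : c ≤ 3 / 2) (hM : 0 ≤ M)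
    (hy : |y - t| = h)
    (hMM : ∀ u : ℝ, a ≤ u → u ≤ c → ‖MM χ ((u : ℂ) + y * I)‖ ≤ M * (1 + |y - t|) ^ 2) :
    ‖∫ u in a..c, Psi χ B x t ((u : ℂ) + (y : ℂ) * I)‖
      ≤ M * (1 + h) ^ 2 * Real.exp (B ^ 2 / 2 - B ^ 2 * h ^ 2 / 2) * x ^ (c - 1 / 2) := by
  have hx0 : 0 < x := by linarith
  have h0 : 0 ≤ h := by rw [← hy]; exact abs_nonneg _
  have hyt : (y - t) ^ 2 = h ^ 2 := by rw [← hy, sq_abs]
  have hC : 0 ≤ M * (1 + h) ^ 2 * Real.exp (B ^ 2 / 2 - B ^ 2 * h ^ 2 / 2) * x ^ (c - 1 / 2) := by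
    positivity
  have h1 := intervalIntegral.norm_integral_le_of_norm_le_const (a := a) (b := c)
    (f := fun u : ℝ => Psi χ B x t ((u : ℂ) + (y : ℂ) * I))
    (C := M * (1 + h) ^ 2 * Real.exp (B ^ 2 / 2 - B ^ 2 * h ^ 2 / 2) * x ^ (c - 1 / 2)) (by
      intro u hu
      rw [uIoc_of_le hac] at hu
      change ‖Psi χ B x t ((u : ℂ) + (y : ℂ) * I)‖ ≤ _
      rw [norm_Psi χ B x t u y hx0]
      have e1 : Real.exp (B ^ 2 * ((u - 1 / 2) ^ 2 - (y - t) ^ 2) / 2) ≤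
          Real.exp (B ^ 2 / 2 - B ^ 2 * h ^ 2 / 2) := by
        apply Real.exp_le_exp.2
        rw [hyt]
        have h2 : (u - 1 / 2) ^ 2 ≤ 1 := by
          have h3 : 0 ≤ u - 1 / 2 := by linarith [hu.1]
          have h4 : u - 1 / 2 ≤ 1 := by linarith [hu.2]
          nlinarith
        nlinarith [sq_nonneg B, mul_le_mul_of_nonneg_left h2 (sq_nonneg B)]
      have e2 : x ^ (u - 1 / 2) ≤ x ^ (c - 1 / 2) :=
        Real.rpow_le_rpow_of_exponent_le hx (by linarith [hu.2])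
      have e3 := hMM u hu.1.le hu.2
      rw [hy] at e3
      calc Real.exp (B ^ 2 * ((u - 1 / 2) ^ 2 - (y - t) ^ 2) / 2) * x ^ (u - 1 / 2) *
            ‖MM χ ((u : ℂ) + y * I)‖
          ≤ Real.exp (B ^ 2 / 2 - B ^ 2 * h ^ 2 / 2) * x ^ (c - 1 / 2) * (M * (1 + h) ^ 2) := by
            gcongr
        _ = M * (1 + h) ^ 2 * Real.exp (B ^ 2 / 2 - B ^ 2 * h ^ 2 / 2) * x ^ (c - 1 / 2) := by
            ring)
  refine h1.trans ?_
  rw [abs_of_nonneg (sub_nonneg.2 hac)]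
  exact mul_le_of_le_one_right hC (by linarith)

end Pool.Agent.TS
end

section

/-!
# Ug: a shift inequality
-/

set_option autoImplicit false

namespace Pool.Agent.TS

open Complex Metric Set MeasureTheory
open Pool.Agent.EM

/-- Ug. PROOF. `|y| + 6 ≤ (|t| + 6) (1 + |y - t|)`, so
`(Q (|y|+6))^κ ≤ (Q (|t|+6))^κ (1 + |y-t|)^κ ≤ (Q (|t|+6))^κ (1 + |y-t|)`; and
`1 + |t| ≤ (1 + |y|) (1 + |y - t|)`. -/
lemma shift_bound (κ Q t y : ℝ) (hκ : 0 ≤ κ) (hκ1 : κ ≤ 1) (hQ : 0 ≤ Q) :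
    (Q * (|y| + 6)) ^ κ / (1 + |y|) ≤ (Q * (|t| + 6)) ^ κ / (1 + |t|) * (1 + |y - t|) ^ 2 := by
  have hy := abs_nonneg y
  have ht := abs_nonneg t
  have hd := abs_nonneg (y - t)
  have h1 : |y| ≤ |t| + |y - t| := by
    have h := abs_add_le t (y - t)
    rwa [add_sub_cancel] at h
  have h2 : |t| ≤ |y| + |y - t| := by
    have h := abs_add_le y (t - y)
    rw [add_sub_cancel, abs_sub_comm t y] at h
    exact h
  have h3 : Q * (|y| + 6) ≤ Q * (|t| + 6) * (1 + |y - t|) := by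
    rw [mul_assoc]
    refine mul_le_mul_of_nonneg_left ?_ hQ
    nlinarith [mul_nonneg ht hd]
  have h4 : (Q * (|y| + 6)) ^ κ ≤ (Q * (|t| + 6)) ^ κ * (1 + |y - t|) := by
    calc (Q * (|y| + 6)) ^ κ ≤ (Q * (|t| + 6) * (1 + |y - t|)) ^ κ :=
          Real.rpow_le_rpow (by positivity) h3 hκ
      _ = (Q * (|t| + 6)) ^ κ * (1 + |y - t|) ^ κ :=
          Real.mul_rpow (by positivity) (by positivity)
      _ ≤ (Q * (|t| + 6)) ^ κ * (1 + |y - t|) := by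
          refine mul_le_mul_of_nonneg_left ?_ (by positivity)
          have h := Real.rpow_le_rpow_of_exponent_le (x := 1 + |y - t|) (by linarith) hκ1
          rwa [Real.rpow_one] at h
  have h5 : 1 + |t| ≤ (1 + |y|) * (1 + |y - t|) := by
    nlinarith [mul_nonneg hy hd]
  have h6 : 0 ≤ (Q * (|t| + 6)) ^ κ := by positivity
  rw [div_mul_eq_mul_div, div_le_div_iff₀ (by positivity) (by positivity)]
  calc (Q * (|y| + 6)) ^ κ * (1 + |t|)
      ≤ (Q * (|t| + 6)) ^ κ * (1 + |y - t|) * ((1 + |y|) * (1 + |y - t|)) :=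
        mul_le_mul h4 h5 (by positivity) (by positivity)
    _ = (Q * (|t| + 6)) ^ κ * (1 + |y - t|) ^ 2 * (1 + |y|) := by ring

end Pool.Agent.TS
end

section

/-!
# Una: bounds for the integrand on the two vertical lines
-/

set_option autoImplicit false

namespace Pool.Agent.TS

open Complex Metric Set MeasureTheory
open Pool.Agent.EM

private lemma Una_step (C κ X t y : ℝ) (q : ℕ) [NeZero q] (hC : 0 ≤ C) (hκ : 0 ≤ κ) (hκ1 : κ ≤ 1)
    (hq : (q : ℝ) ≤ X) (m : ℝ) (hm : m ≤ C * ((q : ℝ) * (|y| + 6)) ^ κ / (1 + |y|)) :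
    m ≤ C * ((X * (|t| + 6)) ^ κ / (1 + |t|)) * (1 + |y - t|) ^ 2 := by
  have hq0 : (0 : ℝ) ≤ q := Nat.cast_nonneg q
  have hy := abs_nonneg y
  have h1 : ((q : ℝ) * (|y| + 6)) ^ κ ≤ (X * (|y| + 6)) ^ κ :=
    Real.rpow_le_rpow (by positivity) (mul_le_mul_of_nonneg_right hq (by positivity)) hκ
  have h2 : ((q : ℝ) * (|y| + 6)) ^ κ / (1 + |y|) ≤ (X * (|y| + 6)) ^ κ / (1 + |y|) :=
    div_le_div_of_nonneg_right h1 (by positivity)
  have h3 := shift_bound κ X t y hκ hκ1 (hq0.trans hq)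
  calc m ≤ C * (((q : ℝ) * (|y| + 6)) ^ κ / (1 + |y|)) := by rw [← mul_div_assoc]; exact hm
    _ ≤ C * ((X * (|t| + 6)) ^ κ / (1 + |t|) * (1 + |y - t|) ^ 2) :=
        mul_le_mul_of_nonneg_left (h2.trans h3) hC
    _ = _ := by ring

/-- Una. PROOF. `MM_bound (ε := ε) (κ := ε/4)` and `shift_bound` (with `Q = X`; `q ≤ X`). FIRST part: for
`θ + ε ≤ u ≤ 1 + ε ≤ 2`, `|y - t| ≤ 3/ε`, `s = u + y i`: a zero `z` with `θ < Re z` has
`|Im z - t| > 6/ε`, so `|Im z - y| ≥ 6/ε - 3/ε = 3/ε ≥ 3/2`. SECOND part: `θ := 1` in `MM_bound`; there are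
no zeros with `Re z > 1` (`ZD_FF_ne`). -/
lemma MM_near (ε : ℝ) (hε : 0 < ε) (hε1 : ε ≤ 1 / 4) : ∃ C : ℝ, 0 ≤ C ∧
    ∀ (q : ℕ) [NeZero q] (X t θ : ℝ), (q : ℝ) ≤ X → 1 / 2 ≤ θ → θ ≤ 1 →
    ∀ χ : DirichletCharacter ℂ q,
    (∀ z : ℂ, MC.FF q χ z = 0 → θ < z.re → 6 / ε < |z.im - t|) →
    (∀ u y : ℝ, θ + ε ≤ u → u ≤ 1 + ε → |y - t| ≤ 3 / ε →
      ‖MM χ ((u : ℂ) + y * I)‖
        ≤ C * ((X * (|t| + 6)) ^ (ε / 4) / (1 + |t|)) * (1 + |y - t|) ^ 2) ∧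
    (∀ y : ℝ, ‖MM χ (((1 + ε : ℝ) : ℂ) + y * I)‖
        ≤ C * ((X * (|t| + 6)) ^ (ε / 4) / (1 + |t|)) * (1 + |y - t|) ^ 2) := by
  obtain ⟨C, hC0, hC⟩ := MM_bound ε (ε / 4) hε (by positivity)
  refine ⟨C, hC0, ?_⟩
  intro q _ X t θ hqX hθ hθ1 χ hz
  have hre : ∀ u y : ℝ, ((u : ℂ) + y * I).re = u := by
    intro u y
    simp
  have him : ∀ u y : ℝ, ((u : ℂ) + y * I).im = y := by
    intro u y
    simp
  constructor
  · intro u y hu hu1 hy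
    have h1 := hC q χ θ hθ hθ1 ((u : ℂ) + y * I) (by
      intro z hz0 hz1
      rw [him]
      have h2 := hz z hz0 hz1
      have h3 : |z.im - t| ≤ |z.im - y| + |y - t| := by
        have h4 := abs_add_le (z.im - y) (y - t)
        rwa [sub_add_sub_cancel] at h4
      have h5 : 3 / 2 ≤ 3 / ε := div_le_div_of_nonneg_left (by norm_num) hε (by linarith)
      have h6 : 6 / ε = 3 / ε + 3 / ε := by ring
      linarith) (by rw [hre]; exact hu) (by rw [hre]; linarith)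
    rw [him] at h1
    exact Una_step C (ε / 4) X t y q hC0 (by positivity) (by linarith) hqX _ h1
  · intro y
    have h1 := hC q χ 1 (by norm_num) le_rfl (((1 + ε : ℝ) : ℂ) + y * I) (by
      intro z hz0 hz1
      exact absurd hz0 (ZD_FF_ne q χ z hz1.le)) (by rw [hre]) (by rw [hre]; linarith)
    rw [him] at h1
    exact Una_step C (ε / 4) X t y q hC0 (by positivity) (by linarith) hqX _ h1

end Pool.Agent.TS
end

section

/-!
# Unb: numerical estimates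
-/

set_option autoImplicit false

namespace Pool.Agent.TS

open Complex Metric Set MeasureTheory
open Pool.Agent.EM

/-- Unb. PROOF. `B² = ε log X`, `1 ≤ B` for `log X ≥ 1/ε`, `B ≤ X` (`B ≤ B² ≤ log X ≤ X`),
`exp(B²/2) = X^(ε/2)`; `(X (|t|+6))^(ε/4) ≤ (7 X²)^(ε/4) ≤ 7 X^(ε/2)` (`|t| ≤ X`, `1 ≤ X`), so
`M ≤ 7 C₁ X^(ε/2)/(1+|t|)`. `x^(θ-1/2) ≥ 1`, `x^ε ≤ X^ε`, `x^(1/2+ε) ≤ X`.
First term: `≤ 7 C₀ C₁ X^(ε/2+ε/2+ε) x^(θ-1/2)/(1+|t|)`. Second: `B² h²/4 = 9 log X/(4ε) ≥ 9 log X` for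
`h = 3/ε`, so `≤ 7 C₀ C₁ X^(ε/2+ε/2+1-9)/(1+|t|)`. Third: `B² h²/2 = 9 log X/(2ε) ≥ 18 log X`, so
`≤ 14 C₁ (1+h)² X^(1+ε/2+ε/2+1-18)/(1+|t|)`. `C = 7 C₀ C₁ + 7 C₀ C₁ + 14 C₁ (1+3/ε)²`. -/
lemma near_numeric (ε C₀ C₁ : ℝ) (hε : 0 < ε) (hε1 : ε ≤ 1 / 4) (h0 : 0 ≤ C₀) (h1 : 0 ≤ C₁) :
    ∃ C X₁ : ℝ, 0 ≤ C ∧ 1 ≤ X₁ ∧ ∀ X x t θ B M : ℝ, X₁ ≤ X → 1 ≤ x → x ≤ X → |t| ≤ X →
    1 / 2 ≤ θ → θ ≤ 1 → B = Real.sqrt (ε * Real.log X) →
    M = C₁ * ((X * (|t| + 6)) ^ (ε / 4) / (1 + |t|)) →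
    1 ≤ B ∧
    C₀ * M * Real.exp (B ^ 2 / 2) * x ^ ((θ + ε) - 1 / 2) * Real.exp (-(B ^ 2 * 0 ^ 2 / 4)) +
      C₀ * M * Real.exp (B ^ 2 / 2) * x ^ ((1 + ε) - 1 / 2) *
        Real.exp (-(B ^ 2 * (3 / ε) ^ 2 / 4)) +
      2 * (B * (M * (1 + 3 / ε) ^ 2 * Real.exp (B ^ 2 / 2 - B ^ 2 * (3 / ε) ^ 2 / 2) *
        x ^ ((1 + ε) - 1 / 2)))
      ≤ C * X ^ (3 * ε) * x ^ (θ - 1 / 2) / (1 + |t|) := by
  refine ⟨7 * C₀ * C₁ + 7 * C₀ * C₁ + 14 * C₁ * (1 + 3 / ε) ^ 2, Real.exp (1 / ε), by positivity,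
    Real.one_le_exp (by positivity), ?_⟩
  intro X x t θ B M hX hx hxX ht hθ hθ1 hB hM
  have hX0 : 0 < X := lt_of_lt_of_le (Real.exp_pos _) hX
  have hX1 : 1 ≤ X := le_trans (Real.one_le_exp (by positivity)) hX
  have hx0 : 0 < x := by linarith
  set L := Real.log X with hL
  have hL1 : 1 / ε ≤ L := by
    rw [hL, Real.le_log_iff_exp_le hX0]
    exact hX
  have hL4 : (4 : ℝ) ≤ L := by
    refine le_trans ?_ hL1
    rw [le_div_iff₀ hε]
    linarith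
  have hεL : 1 ≤ ε * L := by
    rw [div_le_iff₀ hε] at hL1
    linarith
  have hB2 : B ^ 2 = ε * L := by
    rw [hB, Real.sq_sqrt (by linarith)]
  have hB1 : 1 ≤ B := by
    rw [hB]
    exact Real.one_le_sqrt.mpr hεL
  have hBL : B ≤ L := by
    have h1 : B ≤ B ^ 2 := by nlinarith
    rw [hB2] at h1
    nlinarith
  have hexpL : Real.exp L = X := Real.exp_log hX0
  have hBX : B ≤ Real.exp L := by
    have := Real.add_one_le_exp L
    linarith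
  have hT : 0 < 1 + |t| := by positivity
  have hrp : ∀ a : ℝ, X ^ a = Real.exp (L * a) := fun a => Real.rpow_def_of_pos hX0 a
  -- bound for M
  have hM1 : M ≤ 7 * C₁ * Real.exp (ε * L / 2) / (1 + |t|) := by
    have h2 : (X * (|t| + 6)) ^ (ε / 4) ≤ 7 * Real.exp (ε * L / 2) := by
      have h3 : X * (|t| + 6) ≤ 7 * (X * X) := by nlinarith
      have h4 : (X * (|t| + 6)) ^ (ε / 4) ≤ (7 * (X * X)) ^ (ε / 4) :=
        Real.rpow_le_rpow (by positivity) h3 (by positivity)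
      have h5 : (7 * (X * X)) ^ (ε / 4) = 7 ^ (ε / 4) * Real.exp (ε * L / 2) := by
        rw [Real.mul_rpow (by norm_num) (by positivity), Real.mul_rpow hX0.le hX0.le, hrp,
          ← Real.exp_add]
        congr 2
        ring
      have h6 : (7 : ℝ) ^ (ε / 4) ≤ 7 := by
        calc (7 : ℝ) ^ (ε / 4) ≤ 7 ^ (1 : ℝ) :=
              Real.rpow_le_rpow_of_exponent_le (by norm_num) (by linarith)
          _ = 7 := by norm_num
      rw [h5] at h4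
      exact h4.trans (mul_le_mul_of_nonneg_right h6 (Real.exp_pos _).le)
    rw [hM, mul_div_assoc']
    apply div_le_div_of_nonneg_right _ hT.le
    calc C₁ * (X * (|t| + 6)) ^ (ε / 4) ≤ C₁ * (7 * Real.exp (ε * L / 2)) :=
          mul_le_mul_of_nonneg_left h2 h1
      _ = 7 * C₁ * Real.exp (ε * L / 2) := by ring
  have hM0 : 0 ≤ M := by
    rw [hM]
    positivity
  have hY1 : 1 ≤ x ^ (θ - 1 / 2) := Real.one_le_rpow hx (by linarith)
  have hxe : x ^ ε ≤ Real.exp (L * ε) := by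
    rw [← hrp]
    exact Real.rpow_le_rpow hx0.le hxX hε.le
  have hx1 : x ^ ((1 + ε) - 1 / 2) ≤ Real.exp L := by
    rw [hexpL]
    calc x ^ ((1 + ε) - 1 / 2) ≤ x ^ (1 : ℝ) :=
          Real.rpow_le_rpow_of_exponent_le hx (by linarith)
      _ = x := Real.rpow_one x
      _ ≤ X := hxX
  have hx1' : 0 ≤ x ^ ((1 + ε) - 1 / 2) := Real.rpow_nonneg hx0.le _
  have hZ : 1 ≤ X ^ (3 * ε) := Real.one_le_rpow hX1 (by positivity)
  have hYZ : 1 ≤ X ^ (3 * ε) * x ^ (θ - 1 / 2) := by nlinarith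
  -- first term
  have e1 : C₀ * M * Real.exp (B ^ 2 / 2) * x ^ ((θ + ε) - 1 / 2) *
      Real.exp (-(B ^ 2 * 0 ^ 2 / 4))
      ≤ 7 * C₀ * C₁ * (X ^ (3 * ε) * x ^ (θ - 1 / 2)) / (1 + |t|) := by
    have h7 : x ^ ((θ + ε) - 1 / 2) = x ^ (θ - 1 / 2) * x ^ ε := by
      rw [← Real.rpow_add hx0]
      congr 1
      ring
    have h8 : Real.exp (-(B ^ 2 * 0 ^ 2 / 4)) = 1 := by simp
    rw [h7, h8, mul_one, hB2]
    calc C₀ * M * Real.exp (ε * L / 2) * (x ^ (θ - 1 / 2) * x ^ ε)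
        ≤ C₀ * (7 * C₁ * Real.exp (ε * L / 2) / (1 + |t|)) * Real.exp (ε * L / 2) *
            (x ^ (θ - 1 / 2) * Real.exp (L * ε)) := by gcongr
      _ = 7 * C₀ * C₁ * ((Real.exp (ε * L / 2) * Real.exp (ε * L / 2) * Real.exp (L * ε)) *
            x ^ (θ - 1 / 2)) / (1 + |t|) := by ring
      _ ≤ 7 * C₀ * C₁ * (X ^ (3 * ε) * x ^ (θ - 1 / 2)) / (1 + |t|) := by
          have h9 : Real.exp (ε * L / 2) * Real.exp (ε * L / 2) * Real.exp (L * ε)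
              ≤ X ^ (3 * ε) := by
            rw [hrp, ← Real.exp_add, ← Real.exp_add]
            apply Real.exp_le_exp.mpr
            nlinarith
          gcongr
  -- second term
  have e2 : C₀ * M * Real.exp (B ^ 2 / 2) * x ^ ((1 + ε) - 1 / 2) *
        Real.exp (-(B ^ 2 * (3 / ε) ^ 2 / 4))
      ≤ 7 * C₀ * C₁ * (X ^ (3 * ε) * x ^ (θ - 1 / 2)) / (1 + |t|) := by
    have h10 : B ^ 2 * (3 / ε) ^ 2 / 4 = 9 * L / (4 * ε) := by
      rw [hB2]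
      field_simp
      ring
    have h11 : 9 * L ≤ 9 * L / (4 * ε) := by
      rw [le_div_iff₀ (by positivity)]
      nlinarith
    rw [h10, hB2]
    calc C₀ * M * Real.exp (ε * L / 2) * x ^ ((1 + ε) - 1 / 2) * Real.exp (-(9 * L / (4 * ε)))
        ≤ C₀ * (7 * C₁ * Real.exp (ε * L / 2) / (1 + |t|)) * Real.exp (ε * L / 2) *
            Real.exp L * Real.exp (-(9 * L)) := by gcongr
      _ = 7 * C₀ * C₁ * (Real.exp (ε * L / 2) * Real.exp (ε * L / 2) * Real.exp L *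
            Real.exp (-(9 * L))) / (1 + |t|) := by ring
      _ ≤ 7 * C₀ * C₁ * (X ^ (3 * ε) * x ^ (θ - 1 / 2)) / (1 + |t|) := by
          have h9 : Real.exp (ε * L / 2) * Real.exp (ε * L / 2) * Real.exp L *
            Real.exp (-(9 * L)) ≤ 1 := by
            rw [← Real.exp_add, ← Real.exp_add, ← Real.exp_add]
            apply Real.exp_le_one_iff.mpr
            nlinarith
          have h12 := h9.trans hYZ
          gcongr
  -- third term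
  have e3 : 2 * (B * (M * (1 + 3 / ε) ^ 2 * Real.exp (B ^ 2 / 2 - B ^ 2 * (3 / ε) ^ 2 / 2) *
        x ^ ((1 + ε) - 1 / 2)))
      ≤ 14 * C₁ * (1 + 3 / ε) ^ 2 * (X ^ (3 * ε) * x ^ (θ - 1 / 2)) / (1 + |t|) := by
    have h10 : B ^ 2 * (3 / ε) ^ 2 / 2 = 9 * L / (2 * ε) := by
      rw [hB2]
      field_simp
      norm_num
    have h11 : 18 * L ≤ 9 * L / (2 * ε) := by
      rw [le_div_iff₀ (by positivity)]
      nlinarith
    rw [h10, hB2]
    calc 2 * (B * (M * (1 + 3 / ε) ^ 2 * Real.exp (ε * L / 2 - 9 * L / (2 * ε)) *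
            x ^ ((1 + ε) - 1 / 2)))
        ≤ 2 * (Real.exp L * ((7 * C₁ * Real.exp (ε * L / 2) / (1 + |t|)) * (1 + 3 / ε) ^ 2 *
            Real.exp (ε * L / 2 - 18 * L) * Real.exp L)) := by gcongr
      _ = 14 * C₁ * (1 + 3 / ε) ^ 2 * (Real.exp L * Real.exp (ε * L / 2) *
            Real.exp (ε * L / 2 - 18 * L) * Real.exp L) / (1 + |t|) := by ring
      _ ≤ 14 * C₁ * (1 + 3 / ε) ^ 2 * (X ^ (3 * ε) * x ^ (θ - 1 / 2)) / (1 + |t|) := by
          have h9 : Real.exp L * Real.exp (ε * L / 2) *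
            Real.exp (ε * L / 2 - 18 * L) * Real.exp L ≤ 1 := by
            rw [← Real.exp_add, ← Real.exp_add, ← Real.exp_add]
            apply Real.exp_le_one_iff.mpr
            nlinarith
          have h12 := h9.trans hYZ
          gcongr
  refine ⟨hB1, ?_⟩
  refine (add_le_add (add_le_add e1 e2) e3).trans (le_of_eq ?_)
  ring

end Pool.Agent.TS
end

section

/-!
# Um: bound for all t
-/

set_option autoImplicit false

namespace Pool.Agent.TS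

open Complex Metric Set MeasureTheory
open Pool.Agent.EM

/-- Um. PROOF. `B = √(ε log X) ≥ 1` for `X ≥ X₁`, `B² = ε log X`, `exp(B²/2) = X^(ε/2) ≤ X^ε`.
`Ft_eq` with `c = 1 + ε`; second part of `MM_near` with `θ = 1` (the hypothesis on the zeros is void,
`ZD_FF_ne`): `‖MM (c + y i)‖ ≤ M (1 + |y-t|)²`, `M = C ((X (|t|+6))^(ε/4)/(1+|t|))`. `line_bound` with
`R = univ`, `h = 0`, `u = c` (`|c - 1/2| ≤ 1`), and `B/√(2π) ≤ B`. -/
lemma Ft_far (ε : ℝ) (hε : 0 < ε) (hε1 : ε ≤ 1 / 4) : ∃ C X₁ : ℝ, 0 ≤ C ∧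
    ∀ (q : ℕ) [NeZero q] (X x t : ℝ), (q : ℝ) ≤ X → X₁ ≤ X → 1 ≤ x →
    ∀ χ : DirichletCharacter ℂ q,
    ‖Ft χ (Real.sqrt (ε * Real.log X)) x t‖
      ≤ C * X ^ ε * x ^ (1 / 2 + ε) * (X * (|t| + 6)) ^ (ε / 4) / (1 + |t|) := by
  obtain ⟨C₀, hC₀, hline⟩ := line_bound
  obtain ⟨C₁, hC₁, hMM⟩ := MM_near ε hε hε1
  refine ⟨C₀ * C₁, Real.exp (1 / ε), by positivity, ?_⟩
  intro q _ X x t hq hX hx χ
  have hX0 : 0 < X := lt_of_lt_of_le (Real.exp_pos _) hX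
  have hX1 : 1 ≤ X := le_trans (Real.one_le_exp (by positivity)) hX
  have hx0 : 0 < x := by linarith
  have hL1 : 1 / ε ≤ Real.log X := by
    rw [Real.le_log_iff_exp_le hX0]
    exact hX
  have hεL : 1 ≤ ε * Real.log X := by
    rw [div_le_iff₀ hε] at hL1
    linarith
  set B := Real.sqrt (ε * Real.log X) with hB
  have hB2 : B ^ 2 = ε * Real.log X := by
    rw [hB, Real.sq_sqrt (by linarith)]
  have hB1 : 1 ≤ B := Real.one_le_sqrt.mpr hεL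
  have hexp : Real.exp (B ^ 2 / 2) ≤ X ^ ε := by
    rw [hB2, Real.rpow_def_of_pos hX0]
    apply Real.exp_le_exp.mpr
    nlinarith
  have hvoid : ∀ z : ℂ, MC.FF q χ z = 0 → (1 : ℝ) < z.re → 6 / ε < |z.im - t| := by
    intro z hz hz1
    exact absurd hz (ZD_FF_ne q χ z hz1.le)
  obtain ⟨-, hM2⟩ := hMM q X t 1 hq (by norm_num) le_rfl χ hvoid
  set M := C₁ * ((X * (|t| + 6)) ^ (ε / 4) / (1 + |t|)) with hMdef
  have ht0 : 0 ≤ |t| := abs_nonneg t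
  have hM0 : 0 ≤ M := by positivity
  obtain ⟨-, hFt⟩ := Ft_eq χ B x t (1 + ε) (by linarith) hx0 (by linarith)
  have hl := hline q χ B x t (1 + ε) 0 M univ MeasurableSet.univ hB1 hx
    (by rw [abs_le]; constructor <;> linarith) le_rfl hM0 (fun y _ => abs_nonneg _)
    (fun y _ => hM2 y)
  rw [Measure.restrict_univ] at hl
  have h2π : 1 ≤ Real.sqrt (2 * Real.pi) := by
    rw [Real.one_le_sqrt]
    have := Real.pi_gt_three
    linarith
  have h1 : ‖Ft χ B x t‖ ≤ B * ‖∫ y : ℝ, Psi χ B x t (((1 + ε : ℝ) : ℂ) + y * I)‖ := by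
    rw [hFt, norm_mul, Complex.norm_real, Real.norm_of_nonneg (by positivity)]
    gcongr
    exact div_le_self (by linarith) h2π
  have h2 : (1 + ε) - 1 / 2 = 1 / 2 + ε := by ring
  have h3 : Real.exp (-(B ^ 2 * 0 ^ 2 / 4)) = 1 := by simp
  rw [h2, h3, mul_one] at hl
  calc ‖Ft χ B x t‖ ≤ C₀ * M * Real.exp (B ^ 2 / 2) * x ^ (1 / 2 + ε) := h1.trans hl
    _ ≤ C₀ * M * X ^ ε * x ^ (1 / 2 + ε) := by gcongr
    _ = C₀ * C₁ * X ^ ε * x ^ (1 / 2 + ε) * (X * (|t| + 6)) ^ (ε / 4) / (1 + |t|) := by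
        rw [hMdef]
        ring

end Pool.Agent.TS
end

section

/-!
# Ut: the integral over |t| > X/2
-/

set_option autoImplicit false

namespace Pool.Agent.TS

open Complex Metric Set MeasureTheory
open Pool.Agent.EM

/-- Ut. PROOF. `Ft_far` squared: `‖Ft‖² ≤ C² X^(2ε) x^(1+2ε) (X (|t|+6))^(ε/2)/(1+|t|)²`
(`((X(|t|+6))^(ε/4))² = (X(|t|+6))^(ε/2)`), `x^(1+2ε) ≤ X^(1+2ε)`, and `int_far`:
`C² X^(2ε) X^(1+2ε) C' X^(ε-1) = C² C' X^(5ε)`. -/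
lemma far_int (ε : ℝ) (hε : 0 < ε) (hε1 : ε ≤ 1 / 4) : ∃ C X₁ : ℝ, 0 ≤ C ∧
    ∀ (q : ℕ) [NeZero q] (X x : ℝ), (q : ℝ) ≤ X → X₁ ≤ X → 1 ≤ x → x ≤ X →
    ∀ χ : DirichletCharacter ℂ q,
    ∫ t in {t : ℝ | X / 2 < |t|}, ‖Ft χ (Real.sqrt (ε * Real.log X)) x t‖ ^ 2
      ≤ C * X ^ (5 * ε) := by
  obtain ⟨C₁, X₁, hC₁, hfar⟩ := Ft_far ε hε hε1
  obtain ⟨C₂, hC₂, hint⟩ := int_far ε hε hε1
  refine ⟨C₁ ^ 2 * C₂, max X₁ 1, by positivity, ?_⟩
  intro q _ X x hq hX hx hxX χ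
  have hX1 : 1 ≤ X := le_trans (le_max_right _ _) hX
  have hXX : X₁ ≤ X := le_trans (le_max_left _ _) hX
  have hX0 : 0 < X := by linarith
  have hx0 : 0 < x := by linarith
  obtain ⟨hI, hIle⟩ := hint X hX1
  set K := C₁ ^ 2 * X ^ (2 * ε) * X ^ (1 + 2 * ε) with hK
  have hK0 : 0 ≤ K := by positivity
  have hpt : ∀ t : ℝ, ‖Ft χ (Real.sqrt (ε * Real.log X)) x t‖ ^ 2 ≤
      K * ((X * (|t| + 6)) ^ (ε / 2) / (1 + |t|) ^ 2) := by
    intro t
    have ht0 : 0 ≤ |t| := abs_nonneg t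
    have h1 := hfar q X x t hq hXX hx χ
    have hb : 0 ≤ X * (|t| + 6) := by positivity
    have h2 : ((X * (|t| + 6)) ^ (ε / 4)) ^ 2 = (X * (|t| + 6)) ^ (ε / 2) := by
      rw [← Real.rpow_natCast, ← Real.rpow_mul hb]
      congr 1
      push_cast
      ring
    have h3 : (X ^ ε) ^ 2 = X ^ (2 * ε) := by
      rw [← Real.rpow_natCast, ← Real.rpow_mul hX0.le]
      congr 1
      push_cast
      ring
    have h4 : (x ^ (1 / 2 + ε)) ^ 2 = x ^ (1 + 2 * ε) := by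
      rw [← Real.rpow_natCast, ← Real.rpow_mul hx0.le]
      congr 1
      push_cast
      ring
    have h5 : x ^ (1 + 2 * ε) ≤ X ^ (1 + 2 * ε) :=
      Real.rpow_le_rpow hx0.le hxX (by linarith)
    calc ‖Ft χ (Real.sqrt (ε * Real.log X)) x t‖ ^ 2
        ≤ (C₁ * X ^ ε * x ^ (1 / 2 + ε) * (X * (|t| + 6)) ^ (ε / 4) / (1 + |t|)) ^ 2 := by
          gcongr
      _ = C₁ ^ 2 * (X ^ ε) ^ 2 * (x ^ (1 / 2 + ε)) ^ 2 *
            (((X * (|t| + 6)) ^ (ε / 4)) ^ 2 / (1 + |t|) ^ 2) := by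
          rw [div_pow, mul_pow, mul_pow, mul_pow]
          ring
      _ = C₁ ^ 2 * X ^ (2 * ε) * x ^ (1 + 2 * ε) *
            ((X * (|t| + 6)) ^ (ε / 2) / (1 + |t|) ^ 2) := by rw [h2, h3, h4]
      _ ≤ K * ((X * (|t| + 6)) ^ (ε / 2) / (1 + |t|) ^ 2) := by
          rw [hK]
          gcongr
  have hmono : ∫ t in {t : ℝ | X / 2 < |t|}, ‖Ft χ (Real.sqrt (ε * Real.log X)) x t‖ ^ 2
      ≤ ∫ t in {t : ℝ | X / 2 < |t|}, K * ((X * (|t| + 6)) ^ (ε / 2) / (1 + |t|) ^ 2) := by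
    apply integral_mono_of_nonneg
    · exact Filter.Eventually.of_forall (fun t => by positivity)
    · exact hI.const_mul K
    · exact Filter.Eventually.of_forall hpt
  refine hmono.trans ?_
  rw [integral_const_mul]
  calc K * ∫ t in {t : ℝ | X / 2 < |t|}, (X * (|t| + 6)) ^ (ε / 2) / (1 + |t|) ^ 2
      ≤ K * (C₂ * X ^ (ε - 1)) := by gcongr
    _ = C₁ ^ 2 * C₂ * (X ^ (2 * ε) * X ^ (1 + 2 * ε) * X ^ (ε - 1)) := by
        rw [hK]
        ring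
    _ = C₁ ^ 2 * C₂ * X ^ (5 * ε) := by
        rw [← Real.rpow_add hX0, ← Real.rpow_add hX0]
        congr 2
        ring

end Pool.Agent.TS
end
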