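import Mathlib
import Pool.Agent.Lib.MP_9cfc0a_nt.SK.Defs
import Pool.Agent.Lib.MP_9cfc0a_nt.Mg.G071
import Pool.Agent.Lib.MP_9cfc0a_nt.Mg.G004
import Pool.Agent.Lib.MP_9cfc0a_nt.Mg.G001
import Pool.Agent.Lib.MP_9cfc0a_nt.SD.Defs
import Pool.Agent.Lib.MP_9cfc0a_nt.Mg.G005
import Pool.Agent.Lib.MP_9cfc0a_nt.Mg.G002
import Pool.Agent.Lib.MP_9cfc0a_nt.Mg.G008

section

/-! Gaussian integrals over the line `Re w = 1`. -/

set_option autoImplicit false

namespace Pool.Agent.SK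

open Complex MeasureTheory Pool.Agent.EM Set

/-- The Gaussian on the line `Re w = 1`, times `exp (w s)`. -/
noncomputable def LE (W x s y : ℝ) : ℂ :=
  gz W x ((1 : ℂ) + y * I) * Complex.exp (((1 : ℂ) + y * I) * s)

theorem LE_eq (W x s y : ℝ) : LE W x s y = ((W / Real.sqrt (2 * Real.pi) : ℝ) : ℂ) *
    Complex.exp ((W : ℂ) ^ 2 * ((1 : ℂ) + y * I - x * I) ^ 2 / 2 + ((1 : ℂ) + y * I) * s) := by
  unfold LE gz
  rw [mul_assoc, ← Complex.exp_add]
  congr 2
  push_cast
  ring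

theorem LE_norm (W x s y : ℝ) (hW : 0 < W) : ‖LE W x s y‖ = W / Real.sqrt (2 * Real.pi) *
    (Real.exp (W ^ 2 / 2 + s) * Real.exp (-(W ^ 2 / 2) * (y - x) ^ 2)) := by
  have hpi : 0 < Real.sqrt (2 * Real.pi) := by
    have := Real.pi_pos
    positivity
  rw [LE_eq, norm_mul, Complex.norm_real, Real.norm_of_nonneg (by positivity), Complex.norm_exp]
  congr 1
  have e2 : ((W : ℂ) ^ 2 * ((1 : ℂ) + y * I - x * I) ^ 2 / 2 + ((1 : ℂ) + y * I) * s)
      = (((W ^ 2 / 2 + s) + -(W ^ 2 / 2) * (y - x) ^ 2 : ℝ) : ℂ)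
        + ((W ^ 2 * (y - x) + y * s : ℝ) : ℂ) * I := by
    push_cast
    have hI : I ^ 2 = -1 := Complex.I_sq
    linear_combination ((W : ℂ) ^ 2 * (y - x) ^ 2 / 2) * hI
  rw [e2, ← Real.exp_add, Complex.add_re, Complex.ofReal_re, Complex.re_ofReal_mul, Complex.I_re,
    mul_zero, add_zero]

theorem LE_continuous (W x s : ℝ) : Continuous (LE W x s) := by
  unfold LE gz
  fun_prop

/-- `∫ LE = exp (i x s - s² / (2 W²))`. -/
theorem LE_integral (W x s : ℝ) (hW : 0 < W) : Integrable (LE W x s) ∧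
    ∫ y : ℝ, LE W x s y = Complex.exp ((x : ℂ) * s * I - ((s ^ 2 / (2 * W ^ 2) : ℝ) : ℂ)) := by
  have h := TS.gauss_line W 1 (-s) hW
  have hpi : 0 < Real.sqrt (2 * Real.pi) := by
    have := Real.pi_pos
    positivity
  have e : LE W x s = fun y : ℝ => (((W / Real.sqrt (2 * Real.pi) : ℝ) : ℂ) *
      Complex.exp (x * s * I)) *
        (fun τ : ℝ => Complex.exp ((W : ℂ) ^ 2 * (((1 : ℝ) : ℂ) + τ * I) ^ 2 / 2
          - (((1 : ℝ) : ℂ) + τ * I) * ((-s : ℝ) : ℂ))) (y - x) := by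
    funext y
    rw [LE_eq]
    simp only
    rw [mul_assoc, ← Complex.exp_add]
    congr 2
    push_cast
    ring
  rw [e]
  refine ⟨(h.1.comp_sub_right x).const_mul _, ?_⟩
  rw [integral_const_mul, integral_sub_right_eq_self (fun τ : ℝ => Complex.exp ((W : ℂ) ^ 2 *
    (((1 : ℝ) : ℂ) + τ * I) ^ 2 / 2 - (((1 : ℝ) : ℂ) + τ * I) * ((-s : ℝ) : ℂ))) x, h.2]
  have e1 : (((W / Real.sqrt (2 * Real.pi) : ℝ) : ℂ) * Complex.exp (x * s * I)) *
      ((Real.sqrt (2 * Real.pi) / W * Real.exp (-(-s) ^ 2 / (2 * W ^ 2)) : ℝ) : ℂ) =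
      (((W / Real.sqrt (2 * Real.pi)) * (Real.sqrt (2 * Real.pi) / W) : ℝ) : ℂ) *
        (Complex.exp (x * s * I) * Complex.exp ((-(-s) ^ 2 / (2 * W ^ 2) : ℝ) : ℂ)) := by
    push_cast
    ring
  have e2 : (W / Real.sqrt (2 * Real.pi)) * (Real.sqrt (2 * Real.pi) / W) = 1 := by
    field_simp
  rw [e1, e2, ← Complex.exp_add, Complex.ofReal_one, one_mul]
  congr 1
  push_cast
  ring

/-- `∫ (3/2 + i y) LE = gk`. -/
theorem LE_kernel (W x s : ℝ) (hW : 0 < W) :
    Integrable (fun y : ℝ => ((3 / 2 : ℂ) + y * I) * LE W x s y) ∧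
    ∫ y : ℝ, ((3 / 2 : ℂ) + y * I) * LE W x s y = gk W x s := by
  obtain ⟨hE, hEi⟩ := LE_integral W x s hW
  have hW0 : (W : ℂ) ≠ 0 := by exact_mod_cast hW.ne'
  have hb : 0 < W ^ 2 / 2 := by positivity
  have hpi : 0 < Real.sqrt (2 * Real.pi) := by
    have := Real.pi_pos
    positivity
  have h1 : Integrable (fun y : ℝ => ((y - x : ℝ) : ℂ) * LE W x s y) := by
    have h2 := ((integrable_mul_exp_neg_mul_sq hb).norm.comp_sub_right x).const_mul
      (W / Real.sqrt (2 * Real.pi) * Real.exp (W ^ 2 / 2 + s))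
    refine h2.mono' ?_ ?_
    · have hc := LE_continuous W x s
      refine Continuous.aestronglyMeasurable ?_
      fun_prop
    · refine Filter.Eventually.of_forall fun y => ?_
      rw [norm_mul, Complex.norm_real, LE_norm W x s y hW, norm_mul, Real.norm_eq_abs,
        Real.norm_eq_abs, abs_of_pos (Real.exp_pos _)]
      refine le_of_eq ?_
      ring
  have h0 : Integrable (fun y : ℝ =>
      (I * ((W : ℂ) ^ 2 * ((1 : ℂ) + y * I - x * I) + s)) * LE W x s y) := by
    have h3 : Integrable (fun y : ℝ => (I * ((W : ℂ) ^ 2 + s)) * LE W x s y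
        - (W : ℂ) ^ 2 * (((y - x : ℝ) : ℂ) * LE W x s y)) := (hE.const_mul _).sub (h1.const_mul _)
    refine h3.congr (Filter.Eventually.of_forall fun y => ?_)
    simp only
    push_cast
    have hI : I ^ 2 = -1 := Complex.I_sq
    linear_combination (-(W : ℂ) ^ 2 * (y - x) * LE W x s y) * hI
  have hz : ∫ y : ℝ, (I * ((W : ℂ) ^ 2 * ((1 : ℂ) + y * I - x * I) + s)) * LE W x s y = 0 := by
    refine integral_eq_zero_of_hasDerivAt_of_integrable (f := LE W x s) (fun y => ?_) h0 hE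
    have d0 : HasDerivAt (fun y : ℝ => (y : ℂ) * I) I y := by
      simpa using (Complex.ofRealCLM.hasDerivAt (x := y)).mul_const I
    have d1 : HasDerivAt (fun y : ℝ => ((1 : ℂ) + y * I - x * I)) I y :=
      (d0.const_add (1 : ℂ)).sub_const (x * I)
    have d2 : HasDerivAt (fun y : ℝ => ((1 : ℂ) + y * I) * s) (I * s) y :=
      (d0.const_add (1 : ℂ)).mul_const (s : ℂ)
    have d3 : HasDerivAt (fun y : ℝ => (W : ℂ) ^ 2 * ((1 : ℂ) + y * I - x * I) ^ 2 / 2
        + ((1 : ℂ) + y * I) * s) (I * ((W : ℂ) ^ 2 * ((1 : ℂ) + y * I - x * I) + s)) y := by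
      refine ((((d1.pow 2).const_mul ((W : ℂ) ^ 2)).div_const 2).add d2).congr_deriv ?_
      push_cast
      ring
    have d4 := (d3.cexp).const_mul ((W / Real.sqrt (2 * Real.pi) : ℝ) : ℂ)
    have e5 : LE W x s = fun y : ℝ => ((W / Real.sqrt (2 * Real.pi) : ℝ) : ℂ) *
        Complex.exp ((W : ℂ) ^ 2 * ((1 : ℂ) + y * I - x * I) ^ 2 / 2 + ((1 : ℂ) + y * I) * s) :=
      funext fun y => LE_eq W x s y
    rw [e5]
    refine d4.congr_deriv ?_
    ring
  -- `(3/2 + i y) = (1/2 + i x - s/W²) + (1/(i W²)) (I (W² (1 + i (y - x)) + s))`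
  have hdec : ∀ y : ℝ, ((3 / 2 : ℂ) + y * I) * LE W x s y =
      (1 / 2 + (x : ℂ) * I - ((s / W ^ 2 : ℝ) : ℂ)) * LE W x s y +
        (-I / (W : ℂ) ^ 2) * ((I * ((W : ℂ) ^ 2 * ((1 : ℂ) + y * I - x * I) + s)) * LE W x s y) := by
    intro y
    push_cast
    have hI : I ^ 2 = -1 := Complex.I_sq
    field_simp
    linear_combination (2 * (W : ℂ) ^ 2 * (1 + y * I - x * I) + 2 * s) * LE W x s y * hI
  have hfun : (fun y : ℝ => ((3 / 2 : ℂ) + y * I) * LE W x s y) = fun y : ℝ =>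
      (1 / 2 + (x : ℂ) * I - ((s / W ^ 2 : ℝ) : ℂ)) * LE W x s y +
        (-I / (W : ℂ) ^ 2) * ((I * ((W : ℂ) ^ 2 * ((1 : ℂ) + y * I - x * I) + s)) * LE W x s y) :=
    funext hdec
  rw [hfun]
  refine ⟨(hE.const_mul _).add (h0.const_mul _), ?_⟩
  rw [integral_add (hE.const_mul _) (h0.const_mul _), integral_const_mul, integral_const_mul, hz,
    hEi, mul_zero, add_zero]
  rfl

end Pool.Agent.SK
end

section

/-! The logarithmic derivative of `L(s, χ)` over the line `Re s = 3/2`. -/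

set_option autoImplicit false

namespace Pool.Agent.SK

open Complex MeasureTheory Pool.Agent.EM Set

theorem ff_measurable {q : ℕ} (χ : DirichletCharacter ℂ q) : Measurable (ff χ) := by
  unfold ff
  refine ((psiC_measurable χ).comp Real.measurable_exp).mul ?_
  fun_prop

theorem ff_norm {q : ℕ} (χ : DirichletCharacter ℂ q) (v : ℝ) : ‖ff χ v‖ ≤ 6 * Real.exp (v / 2) := by
  unfold ff
  rw [norm_mul, Complex.norm_real, Real.norm_of_nonneg (Real.exp_pos _).le]
  have h := psiC_le q χ (Real.exp v) (Real.exp_pos v).le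
  calc ‖psiC χ (Real.exp v)‖ * Real.exp (-v / 2) ≤ (6 * Real.exp v) * Real.exp (-v / 2) := by gcongr
    _ = 6 * Real.exp (v / 2) := by
      rw [mul_assoc, ← Real.exp_add]
      congr 2
      ring

/-- `MT (ψ) (3/2 + i y)` as an integral over `v > 0`. -/
theorem MT_line {q : ℕ} (χ : DirichletCharacter ℂ q) (y : ℝ) :
    MC.MT (W1f χ 0) ((3 / 2 : ℂ) + y * I) =
      ∫ v in Ioi (0 : ℝ), ff χ v * Complex.exp (-(((1 : ℂ) + y * I) * v)) := by
  unfold MC.MT
  have himg : Real.exp '' (Ioi 0) = Ioi (1 : ℝ) := by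
    ext x
    constructor
    · rintro ⟨u, hu, rfl⟩
      exact Real.one_lt_exp_iff.mpr hu
    · intro hx
      have hx0 : (0 : ℝ) < x := lt_trans one_pos hx
      exact ⟨Real.log x, Real.log_pos hx, Real.exp_log hx0⟩
  rw [← himg, integral_image_eq_integral_abs_deriv_smul measurableSet_Ioi
    (fun u _ => (Real.hasDerivAt_exp u).hasDerivWithinAt) Real.exp_injective.injOn]
  refine setIntegral_congr_fun measurableSet_Ioi fun v _ => ?_
  simp only [Complex.real_smul]
  rw [abs_of_pos (Real.exp_pos v)]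
  unfold W1f ff
  rw [pow_zero, one_mul, Complex.ofReal_exp, Complex.ofReal_exp, ← Complex.exp_log (x := (Complex.exp (v : ℂ)))
    (Complex.exp_ne_zero _)]
  rw [Complex.cpow_def_of_ne_zero (Complex.exp_ne_zero _)]
  have hlog : Complex.log (Complex.exp (v : ℂ)) = v := by
    rw [← Complex.ofReal_exp, ← Complex.ofReal_log (Real.exp_pos v).le, Real.log_exp]
  rw [Complex.exp_log (Complex.exp_ne_zero _), hlog]
  have e1 : Complex.exp (v : ℂ) * (psiC χ (Real.exp v) *
      Complex.exp (v * -((3 / 2 : ℂ) + y * I + 1))) =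
      psiC χ (Real.exp v) * (Complex.exp (v : ℂ) * Complex.exp (v * -((3 / 2 : ℂ) + y * I + 1))) := by ring
  rw [e1, ← Complex.exp_add, mul_assoc, ← Complex.exp_add]
  congr 2
  push_cast
  ring

/-- The prime side of the explicit formula. -/
theorem line_prime {r : ℕ} [NeZero r] (χ : DirichletCharacter ℂ r) (W x t : ℝ) (hW : 0 < W) :
    Integrable (fun y : ℝ => LE W x t y * logDeriv χ.LFunction ((3 / 2 : ℂ) + y * I)) ∧
    ∫ y : ℝ, LE W x t y * logDeriv χ.LFunction ((3 / 2 : ℂ) + y * I) = -PX χ W x t := by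
  set F : ℝ → ℝ → ℂ := fun y v => ff χ v * (((3 / 2 : ℂ) + y * I) * LE W x (t - v) y) with hF
  have hshift : ∀ y v : ℝ, LE W x (t - v) y = LE W x t y * Complex.exp (-(((1 : ℂ) + y * I) * v)) := by
    intro y v
    unfold LE
    rw [mul_assoc, ← Complex.exp_add]
    congr 2
    push_cast
    ring
  have hnexp : ∀ y v : ℝ, ‖Complex.exp (-(((1 : ℂ) + y * I) * v))‖ = Real.exp (-v) := by
    intro y v
    rw [Complex.norm_exp]
    congr 1
    simp
  have hpoint : ∀ y : ℝ, LE W x t y * logDeriv χ.LFunction ((3 / 2 : ℂ) + y * I) =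
      -∫ v in Ioi (0 : ℝ), F y v := by
    intro y
    have hs : 1 < ((3 / 2 : ℂ) + y * I).re := by
      simp
      norm_num
    rw [W1_logDeriv χ _ hs, MT_line χ y]
    have e : ∀ v : ℝ, F y v = (LE W x t y * ((3 / 2 : ℂ) + y * I)) *
        (ff χ v * Complex.exp (-(((1 : ℂ) + y * I) * v))) := by
      intro v
      rw [hF]
      simp only
      rw [hshift]
      ring
    simp only [e]
    rw [integral_const_mul]
    ring
  have hA : IntegrableOn (fun v : ℝ => ‖ff χ v‖ * Real.exp (-v)) (Ioi 0) := by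
    have h1 : IntegrableOn (fun v : ℝ => 6 * Real.exp (-(1 / 2) * v)) (Ioi 0) :=
      (exp_neg_integrableOn_Ioi 0 (by norm_num : (0 : ℝ) < 1 / 2)).const_mul 6
    refine h1.mono' ?_ ?_
    · exact ((ff_measurable χ).norm.mul (by fun_prop)).aestronglyMeasurable
    · refine Filter.Eventually.of_forall fun v => ?_
      rw [Real.norm_of_nonneg (by positivity)]
      calc ‖ff χ v‖ * Real.exp (-v) ≤ (6 * Real.exp (v / 2)) * Real.exp (-v) := by
            have := ff_norm χ v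
            gcongr
        _ = 6 * Real.exp (-(1 / 2) * v) := by
            rw [mul_assoc, ← Real.exp_add]
            congr 2
            ring
  have hB : Integrable (fun y : ℝ => ‖((3 / 2 : ℂ) + y * I) * LE W x t y‖) := (LE_kernel W x t hW).1.norm
  have hint : Integrable (Function.uncurry F) (volume.prod (volume.restrict (Ioi 0))) := by
    refine (hB.mul_prod hA).mono' ?_ ?_
    · refine Measurable.aestronglyMeasurable ?_
      have m1 : Measurable fun p : ℝ × ℝ => ff χ p.2 := (ff_measurable χ).comp measurable_snd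
      have m2 : Measurable fun p : ℝ × ℝ => ((3 / 2 : ℂ) + p.1 * I) * LE W x (t - p.2) p.1 := by
        refine Continuous.measurable ?_
        unfold LE gz
        fun_prop
      exact m1.mul m2
    · refine Filter.Eventually.of_forall fun p => ?_
      show ‖F p.1 p.2‖ ≤ _
      rw [hF]
      simp only
      rw [hshift, norm_mul, norm_mul, norm_mul, hnexp, norm_mul]
      refine le_of_eq ?_
      ring
  have hfun : (fun y : ℝ => LE W x t y * logDeriv χ.LFunction ((3 / 2 : ℂ) + y * I)) =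
      fun y : ℝ => -∫ v in Ioi (0 : ℝ), F y v := funext hpoint
  rw [hfun]
  refine ⟨hint.integral_prod_left.neg, ?_⟩
  rw [integral_neg, integral_integral_swap hint]
  congr 1
  unfold PX
  refine setIntegral_congr_fun measurableSet_Ioi fun v _ => ?_
  simp only [hF]
  rw [integral_const_mul, (LE_kernel W x (t - v) hW).2]

end Pool.Agent.SK
end

section

/-! Tails, the gamma factor and the total over the line `Re w = 1`. -/

set_option autoImplicit false

namespace Pool.Agent.SK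

open Complex MeasureTheory Pool.Agent.EM Set

theorem LFun_logDeriv_bound : ∃ C : ℝ, 1 ≤ C ∧ ∀ (r : ℕ) [NeZero r] (χ : DirichletCharacter ℂ r)
    (y : ℝ), ‖logDeriv χ.LFunction ((3 / 2 : ℂ) + y * I)‖ ≤ C := by
  have hsum : Summable fun n : ℕ => ‖LSeries.term
      (fun n : ℕ => ((ArithmeticFunction.vonMangoldt n : ℝ) : ℂ)) (3 / 2 : ℂ) n‖ := by
    have h := ArithmeticFunction.LSeriesSummable_vonMangoldt (s := (3 / 2 : ℂ)) (by norm_num)
    exact h.norm
  refine ⟨max 1 (∑' n : ℕ, ‖LSeries.term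
      (fun n : ℕ => ((ArithmeticFunction.vonMangoldt n : ℝ) : ℂ)) (3 / 2 : ℂ) n‖),
      le_max_left _ _, fun r _ χ y => le_trans ?_ (le_max_right _ _)⟩
  have hre : ((3 / 2 : ℂ) + y * I).re = 3 / 2 := by simp
  have hs : 1 < ((3 / 2 : ℂ) + y * I).re := by
    rw [hre]
    norm_num
  have h1 := DirichletCharacter.LSeries_twist_vonMangoldt_eq χ hs
  have h2 : logDeriv χ.LFunction ((3 / 2 : ℂ) + y * I) =
      -LSeries (fun n : ℕ => χ n * ((ArithmeticFunction.vonMangoldt n : ℝ) : ℂ)) ((3 / 2 : ℂ) + y * I) := by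
    rw [logDeriv_apply, χ.deriv_LFunction_eq_deriv_LSeries hs, χ.LFunction_eq_LSeries hs]
    have h4 : LSeries (fun n : ℕ => χ n * ((ArithmeticFunction.vonMangoldt n : ℝ) : ℂ))
        ((3 / 2 : ℂ) + y * I) =
      -deriv (LSeries fun n : ℕ => χ n) ((3 / 2 : ℂ) + y * I) /
        LSeries (fun n : ℕ => χ n) ((3 / 2 : ℂ) + y * I) := h1
    rw [h4]
    ring
  rw [h2, norm_neg]
  have hle : ∀ n : ℕ, ‖LSeries.term (fun n : ℕ => χ n * ((ArithmeticFunction.vonMangoldt n : ℝ) : ℂ))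
      ((3 / 2 : ℂ) + y * I) n‖ ≤ ‖LSeries.term
      (fun n : ℕ => ((ArithmeticFunction.vonMangoldt n : ℝ) : ℂ)) (3 / 2 : ℂ) n‖ := by
    intro n
    rw [LSeries.norm_term_eq, LSeries.norm_term_eq, hre]
    split_ifs with hn
    · exact le_rfl
    · have e1 : ((3 / 2 : ℂ)).re = 3 / 2 := by norm_num
      rw [e1, norm_mul]
      have h5 := χ.norm_le_one (n : ZMod r)
      have h6 := norm_nonneg (((ArithmeticFunction.vonMangoldt n : ℝ) : ℂ))
      have h7 : ‖χ (n : ZMod r)‖ * ‖((ArithmeticFunction.vonMangoldt n : ℝ) : ℂ)‖ ≤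
          ‖((ArithmeticFunction.vonMangoldt n : ℝ) : ℂ)‖ := by nlinarith
      gcongr
  have hsum2 : Summable fun n : ℕ => ‖LSeries.term
      (fun n : ℕ => χ n * ((ArithmeticFunction.vonMangoldt n : ℝ) : ℂ)) ((3 / 2 : ℂ) + y * I) n‖ :=
    Summable.of_nonneg_of_le (fun n => norm_nonneg _) hle hsum
  unfold LSeries
  refine (norm_tsum_le_tsum_norm hsum2).trans ?_
  exact Summable.tsum_le_tsum hle hsum2 hsum

theorem gauss_sq (W x : ℝ) (hW : 0 < W) :
    Integrable (fun y : ℝ => Real.exp (-(W ^ 2 / 4) * (y - x) ^ 2)) ∧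
    W / Real.sqrt (2 * Real.pi) * ∫ y : ℝ, Real.exp (-(W ^ 2 / 4) * (y - x) ^ 2) ≤ 2 := by
  have hb : 0 < W ^ 2 / 4 := by positivity
  have hpi := Real.pi_pos
  refine ⟨(integrable_exp_neg_mul_sq hb).comp_sub_right x, ?_⟩
  rw [integral_sub_right_eq_self (fun y : ℝ => Real.exp (-(W ^ 2 / 4) * y ^ 2)) x, integral_gaussian]
  have e1 : Real.pi / (W ^ 2 / 4) = (2 * Real.pi) * (2 / W ^ 2) := by
    field_simp
    ring
  have e3 : Real.sqrt (Real.pi / (W ^ 2 / 4)) = Real.sqrt (2 * Real.pi) * (Real.sqrt 2 / W) := by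
    rw [e1, Real.sqrt_mul (by positivity : (0 : ℝ) ≤ 2 * Real.pi) (2 / W ^ 2),
      Real.sqrt_div (by norm_num), Real.sqrt_sq hW.le]
  rw [e3]
  have h2 : 0 < Real.sqrt (2 * Real.pi) := by positivity
  have e2 : W / Real.sqrt (2 * Real.pi) * (Real.sqrt (2 * Real.pi) * (Real.sqrt 2 / W)) = Real.sqrt 2 := by
    field_simp
  rw [e2]
  rw [Real.sqrt_le_left (by norm_num)]
  norm_num

theorem LE_tail (W x t T H : ℝ) (hW : 1 ≤ W) (hH : 1 ≤ H) (hT : H ≤ T) (hx : |x| ≤ H / 2) :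
    ∫ y in (Ioc (-T) T)ᶜ, ‖LE W x t y‖ ≤ 2 * Real.exp (W ^ 2 / 2 + |t| - W ^ 2 * H ^ 2 / 16) := by
  have hW0 : 0 < W := by linarith
  obtain ⟨hg1, hg2⟩ := gauss_sq W x hW0
  have hpi : 0 < Real.sqrt (2 * Real.pi) := by
    have := Real.pi_pos
    positivity
  set c : ℝ := Real.exp (W ^ 2 / 2 + |t| - W ^ 2 * H ^ 2 / 16) with hc
  have hle : ∀ y ∈ (Ioc (-T) T)ᶜ, ‖LE W x t y‖ ≤
      c * (W / Real.sqrt (2 * Real.pi) * Real.exp (-(W ^ 2 / 4) * (y - x) ^ 2)) := by
    intro y hy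
    rw [LE_norm W x t y hW0]
    have h1 : H / 2 ≤ |y - x| := by
      rw [mem_compl_iff, mem_Ioc, not_and_or] at hy
      have h2 := abs_le.mp hx
      rcases hy with h | h
      · push Not at h
        rw [abs_of_nonpos (by linarith)]
        linarith
      · push Not at h
        rw [abs_of_nonneg (by linarith)]
        linarith
    have h3 : (H / 2) ^ 2 ≤ (y - x) ^ 2 := by
      rw [← sq_abs (y - x)]
      exact pow_le_pow_left₀ (by linarith) h1 2
    have h4 : Real.exp (W ^ 2 / 2 + t) * Real.exp (-(W ^ 2 / 2) * (y - x) ^ 2) ≤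
        c * Real.exp (-(W ^ 2 / 4) * (y - x) ^ 2) := by
      rw [hc, ← Real.exp_add, ← Real.exp_add]
      refine Real.exp_le_exp.mpr ?_
      have h5 := le_abs_self t
      have h6 : W ^ 2 * (H / 2) ^ 2 ≤ W ^ 2 * (y - x) ^ 2 := by gcongr
      nlinarith
    calc W / Real.sqrt (2 * Real.pi) * (Real.exp (W ^ 2 / 2 + t) * Real.exp (-(W ^ 2 / 2) * (y - x) ^ 2))
        ≤ W / Real.sqrt (2 * Real.pi) * (c * Real.exp (-(W ^ 2 / 4) * (y - x) ^ 2)) := by gcongr
      _ = _ := by ring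
  have hint : Integrable (fun y : ℝ => c * (W / Real.sqrt (2 * Real.pi) *
      Real.exp (-(W ^ 2 / 4) * (y - x) ^ 2))) := (hg1.const_mul _).const_mul _
  calc ∫ y in (Ioc (-T) T)ᶜ, ‖LE W x t y‖
      ≤ ∫ y in (Ioc (-T) T)ᶜ, c * (W / Real.sqrt (2 * Real.pi) *
          Real.exp (-(W ^ 2 / 4) * (y - x) ^ 2)) :=
        setIntegral_mono_on (LE_integral W x t hW0).1.norm.integrableOn hint.integrableOn
          measurableSet_Ioc.compl hle
    _ ≤ ∫ y : ℝ, c * (W / Real.sqrt (2 * Real.pi) * Real.exp (-(W ^ 2 / 4) * (y - x) ^ 2)) :=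
        setIntegral_le_integral hint (Filter.Eventually.of_forall fun y => by positivity)
    _ = c * (W / Real.sqrt (2 * Real.pi) * ∫ y : ℝ, Real.exp (-(W ^ 2 / 4) * (y - x) ^ 2)) := by
        rw [integral_const_mul, integral_const_mul]
    _ ≤ c * 2 := by gcongr
    _ = 2 * c := mul_comm _ _

/-- truncation of an integral of `LE * F`, `F` bounded -/
theorem LE_trunc (W x t T H B : ℝ) (hW : 1 ≤ W) (hH : 1 ≤ H) (hT : H ≤ T) (hx : |x| ≤ H / 2)
    (hB : 0 ≤ B) (F : ℝ → ℂ) (hF : ∀ y, ‖F y‖ ≤ B) (hint : Integrable (fun y => LE W x t y * F y)) :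
    ‖(∫ y in (-T)..T, LE W x t y * F y) - ∫ y : ℝ, LE W x t y * F y‖ ≤
      B * (2 * Real.exp (W ^ 2 / 2 + |t| - W ^ 2 * H ^ 2 / 16)) := by
  have hW0 : 0 < W := by linarith
  rw [intervalIntegral.integral_of_le (by linarith), ← integral_add_compl measurableSet_Ioc hint,
    sub_add_cancel_left, norm_neg]
  calc ‖∫ y in (Ioc (-T) T)ᶜ, LE W x t y * F y‖ ≤ ∫ y in (Ioc (-T) T)ᶜ, ‖LE W x t y * F y‖ :=
        norm_integral_le_integral_norm _
    _ ≤ ∫ y in (Ioc (-T) T)ᶜ, B * ‖LE W x t y‖ := by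
        refine setIntegral_mono_on hint.norm.integrableOn
          ((LE_integral W x t hW0).1.norm.const_mul B).integrableOn measurableSet_Ioc.compl ?_
        intro y _
        rw [norm_mul, mul_comm]
        exact mul_le_mul_of_nonneg_right (hF y) (norm_nonneg _)
    _ = B * ∫ y in (Ioc (-T) T)ᶜ, ‖LE W x t y‖ := integral_const_mul _ _
    _ ≤ _ := by
        gcongr
        exact LE_tail W x t T H hW hH hT hx

theorem gz_norm_im (W x y : ℝ) (hW : 0 < W) : ‖gz W x ((y : ℂ) * I)‖ =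
    W / Real.sqrt (2 * Real.pi) * Real.exp (-(W ^ 2 / 2) * (y - x) ^ 2) := by
  have hpi : 0 < Real.sqrt (2 * Real.pi) := by
    have := Real.pi_pos
    positivity
  unfold gz
  rw [norm_mul, Complex.norm_real, Real.norm_of_nonneg (by positivity), Complex.norm_exp]
  congr 2
  have e : ((W ^ 2 / 2 : ℝ) : ℂ) * ((y : ℂ) * I - (x : ℂ) * I) ^ 2 =
      ((-(W ^ 2 / 2) * (y - x) ^ 2 : ℝ) : ℂ) := by
    push_cast
    have hI : I ^ 2 = -1 := Complex.I_sq
    linear_combination ((W : ℂ) ^ 2 / 2 * (y - x) ^ 2) * hI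
  rw [e, Complex.ofReal_re]

theorem gz_norm_hor (W x σ T : ℝ) (hW : 0 < W) : ‖gz W x ((σ : ℂ) + (T : ℂ) * I)‖ =
    W / Real.sqrt (2 * Real.pi) * Real.exp (W ^ 2 / 2 * σ ^ 2 - W ^ 2 / 2 * (T - x) ^ 2) := by
  have hpi : 0 < Real.sqrt (2 * Real.pi) := by
    have := Real.pi_pos
    positivity
  unfold gz
  rw [norm_mul, Complex.norm_real, Real.norm_of_nonneg (by positivity), Complex.norm_exp]
  congr 2
  have e : ((W ^ 2 / 2 : ℝ) : ℂ) * ((σ : ℂ) + (T : ℂ) * I - (x : ℂ) * I) ^ 2 =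
      ((W ^ 2 / 2 * σ ^ 2 - W ^ 2 / 2 * (T - x) ^ 2 : ℝ) : ℂ) +
        ((W ^ 2 * σ * (T - x) : ℝ) : ℂ) * I := by
    push_cast
    have hI : I ^ 2 = -1 := Complex.I_sq
    linear_combination ((W : ℂ) ^ 2 / 2 * (T - x) ^ 2) * hI
  rw [e, Complex.add_re, Complex.ofReal_re, Complex.re_ofReal_mul, Complex.I_re, mul_zero, add_zero]

/-- the gamma factor is differentiable and nonzero for `Re s > 0`, and so is its logarithmic derivative -/
theorem gamma_diff {r : ℕ} [NeZero r] (χ : DirichletCharacter ℂ r) :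
    DifferentiableOn ℂ (logDeriv (DirichletCharacter.gammaFactor χ)) {s : ℂ | 0 < s.re} := by
  have hopen : IsOpen {s : ℂ | 0 < s.re} := isOpen_lt continuous_const Complex.continuous_re
  have hR : ∀ s : ℂ, 0 < s.re → DifferentiableAt ℂ Gammaℝ s := by
    intro s hs
    have h1 : DifferentiableAt ℂ (fun s : ℂ => ((Gammaℝ s)⁻¹)⁻¹) s :=
      (differentiable_Gammaℝ_inv s).inv (inv_ne_zero (Gammaℝ_ne_zero_of_re_pos hs))
    simpa using h1
  have hg : DifferentiableOn ℂ (DirichletCharacter.gammaFactor χ) {s : ℂ | 0 < s.re} ∧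
      ∀ s ∈ {s : ℂ | 0 < s.re}, DirichletCharacter.gammaFactor χ s ≠ 0 := by
    rcases χ.even_or_odd with h | h
    · have e : DirichletCharacter.gammaFactor χ = Gammaℝ := by
        funext z
        exact h.gammaFactor_def z
      rw [e]
      exact ⟨fun s hs => (hR s hs).differentiableWithinAt, fun s hs => Gammaℝ_ne_zero_of_re_pos hs⟩
    · have e : DirichletCharacter.gammaFactor χ = fun z => Gammaℝ (z + 1) := by
        funext z
        exact h.gammaFactor_def z
      rw [e]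
      refine ⟨fun s hs => ?_, fun s hs => Gammaℝ_ne_zero_of_re_pos ?_⟩
      · have hs' : 0 < (s + 1).re := by
          have : 0 < s.re := hs
          simp
          linarith
        exact (DifferentiableAt.comp s (g := Gammaℝ) (f := fun z => z + 1) (hR _ hs')
          (by fun_prop)).differentiableWithinAt
      · have : 0 < s.re := hs
        simp
        linarith
  have hfun : logDeriv (DirichletCharacter.gammaFactor χ) = fun s =>
      deriv (DirichletCharacter.gammaFactor χ) s / DirichletCharacter.gammaFactor χ s := by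
    funext s
    exact logDeriv_apply _ _
  rw [hfun]
  exact (hg.1.deriv hopen).div hg.1 hg.2

/-- The gamma factor over the line `Re w = 1`. -/
theorem gamma_line : ∃ C : ℝ, 1 ≤ C ∧ ∀ (r : ℕ) [NeZero r] (χ : DirichletCharacter ℂ r)
    (W x t T H : ℝ), 1 ≤ W → 1 ≤ H → H ≤ T → T ≤ H + 1 → |x| ≤ H / 2 →
    ‖∫ y in (-T)..T, LE W x t y * logDeriv (DirichletCharacter.gammaFactor χ) ((3 / 2 : ℂ) + y * I)‖ ≤
      C * (1 + |x|) + C * W * (1 + H) * Real.exp (W ^ 2 / 2 + |t| - W ^ 2 * H ^ 2 / 16) := by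
  obtain ⟨C, hC1, hC⟩ := gamma_bound
  have hC0 : 0 < C := by linarith
  refine ⟨4 * C, by linarith, fun r _ χ W x t T H hW hH hT hT1 hx => ?_⟩
  have hW0 : 0 < W := by linarith
  have hT0 : 0 < T := by linarith
  have hxa := abs_nonneg x
  have hta := abs_nonneg t
  have hpi : 0 < Real.sqrt (2 * Real.pi) := by
    have := Real.pi_pos
    positivity
  have hpi1 : 1 ≤ Real.sqrt (2 * Real.pi) := by
    rw [Real.one_le_sqrt]
    linarith [Real.pi_gt_three]
  have hWpi : W / Real.sqrt (2 * Real.pi) ≤ W := div_le_self hW0.le hpi1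
  obtain ⟨hg1, hg2⟩ := gauss_sq W x hW0
  set A : ℂ → ℂ := fun w => gz W x w * Complex.exp (w * t) *
    logDeriv (DirichletCharacter.gammaFactor χ) (1 / 2 + w) with hA
  have hdiff : ∀ s : ℂ, (0 : ℝ) ≤ s.re → s.re ≤ 1 → |s.im - 0| ≤ T → DifferentiableAt ℂ A s := by
    intro s hs0 _ _
    have hopen : IsOpen {s : ℂ | 0 < s.re} := isOpen_lt continuous_const Complex.continuous_re
    have h1 : DifferentiableAt ℂ (logDeriv (DirichletCharacter.gammaFactor χ)) (1 / 2 + s) := by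
      refine (gamma_diff χ).differentiableAt (hopen.mem_nhds ?_)
      show 0 < (1 / 2 + s).re
      simp
      linarith
    have h2 : DifferentiableAt ℂ (fun w : ℂ => logDeriv (DirichletCharacter.gammaFactor χ) (1 / 2 + w)) s :=
      DifferentiableAt.comp s (g := logDeriv (DirichletCharacter.gammaFactor χ))
        (f := fun w : ℂ => 1 / 2 + w) h1 (by fun_prop)
    have h3 : DifferentiableAt ℂ (fun w : ℂ => gz W x w * Complex.exp (w * t)) s := by
      unfold gz
      fun_prop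
    exact h3.mul h2
  have hrect := TS.rect_bound A 0 1 0 T zero_le_one hT0.le hdiff
  have hL : (∫ y in (-T)..T, LE W x t y *
      logDeriv (DirichletCharacter.gammaFactor χ) ((3 / 2 : ℂ) + y * I)) =
      ∫ y in Icc (0 - T) (0 + T), A (((1 : ℝ) : ℂ) + y * I) := by
    rw [intervalIntegral.integral_of_le (by linarith), ← integral_Icc_eq_integral_Ioc, zero_sub, zero_add]
    refine setIntegral_congr_fun measurableSet_Icc fun y _ => ?_
    simp only [hA]
    unfold LE
    have e : (3 / 2 : ℂ) + y * I = 1 / 2 + (((1 : ℝ) : ℂ) + y * I) := by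
      push_cast
      ring
    rw [e, Complex.ofReal_one]
  rw [hL]
  refine hrect.trans ?_
  -- the line `Re w = 0`
  have h1 : ‖∫ y in Icc (0 - T) (0 + T), A (((0 : ℝ) : ℂ) + y * I)‖ ≤ C * (2 + |x|) * 2 := by
    have hpt : ∀ y : ℝ, ‖A (((0 : ℝ) : ℂ) + y * I)‖ ≤ C * (2 + |x|) * (W / Real.sqrt (2 * Real.pi) *
        Real.exp (-(W ^ 2 / 4) * (y - x) ^ 2)) := by
      intro y
      have e0 : ((0 : ℝ) : ℂ) + y * I = (y : ℂ) * I := by simp
      rw [e0]
      simp only [hA]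
      rw [norm_mul, norm_mul, gz_norm_im W x y hW0]
      have e1 : ‖Complex.exp ((y : ℂ) * I * t)‖ = 1 := by
        rw [Complex.norm_exp]
        simp
      have e2 := (hC r χ (1 / 2 + (y : ℂ) * I) (by simp) (by simp; norm_num)).2.2
      have e3 : (1 / 2 + (y : ℂ) * I).im = y := by simp
      rw [e3] at e2
      rw [e1, mul_one]
      have e4 : (1 + |y|) * Real.exp (-(W ^ 2 / 2) * (y - x) ^ 2) ≤
          (2 + |x|) * Real.exp (-(W ^ 2 / 4) * (y - x) ^ 2) := by
        have f1 : Real.exp (-(W ^ 2 / 2) * (y - x) ^ 2) = Real.exp (-(W ^ 2 / 4) * (y - x) ^ 2) *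
            Real.exp (-(W ^ 2 / 4) * (y - x) ^ 2) := by
          rw [← Real.exp_add]
          congr 1
          ring
        have f2 : |y| ≤ |x| + |y - x| := by
          have := abs_add_le x (y - x)
          rwa [add_sub_cancel] at this
        have f3 : |y - x| ≤ Real.exp (W ^ 2 / 4 * (y - x) ^ 2) := by
          have g1 := Real.add_one_le_exp (W ^ 2 / 4 * (y - x) ^ 2)
          have g2 : (1 : ℝ) ≤ W ^ 2 := by nlinarith
          have g3 : (y - x) ^ 2 = |y - x| ^ 2 := (sq_abs _).symm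
          have g4 : 0 ≤ (|y - x| / 2 - 1) ^ 2 := sq_nonneg _
          have g5 : (y - x) ^ 2 ≤ W ^ 2 * (y - x) ^ 2 := by nlinarith [sq_nonneg (y - x)]
          nlinarith
        have f4 : Real.exp (-(W ^ 2 / 4) * (y - x) ^ 2) ≤ 1 := by
          rw [Real.exp_le_one_iff]
          have := mul_nonneg (by positivity : 0 ≤ W ^ 2 / 4) (sq_nonneg (y - x))
          linarith
        have f5 : |y - x| * Real.exp (-(W ^ 2 / 4) * (y - x) ^ 2) ≤ 1 := by
          have g1 : Real.exp (W ^ 2 / 4 * (y - x) ^ 2) * Real.exp (-(W ^ 2 / 4) * (y - x) ^ 2) = 1 := by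
            rw [← Real.exp_add, ← Real.exp_zero]
            congr 1
            ring
          calc |y - x| * Real.exp (-(W ^ 2 / 4) * (y - x) ^ 2) ≤
                Real.exp (W ^ 2 / 4 * (y - x) ^ 2) * Real.exp (-(W ^ 2 / 4) * (y - x) ^ 2) := by gcongr
            _ = 1 := g1
        rw [f1]
        set E := Real.exp (-(W ^ 2 / 4) * (y - x) ^ 2) with hE
        have hE0 : 0 < E := Real.exp_pos _
        have f6 : (1 + |y|) * E ≤ 2 + |x| := by
          calc (1 + |y|) * E ≤ (1 + |x| + |y - x|) * E := by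
                refine mul_le_mul_of_nonneg_right (by linarith) hE0.le
            _ = (1 + |x|) * E + |y - x| * E := by ring
            _ ≤ (1 + |x|) * 1 + 1 := by
                refine add_le_add ?_ f5
                exact mul_le_mul_of_nonneg_left f4 (by linarith)
            _ = 2 + |x| := by ring
        calc (1 + |y|) * (E * E) = ((1 + |y|) * E) * E := by ring
          _ ≤ (2 + |x|) * E := mul_le_mul_of_nonneg_right f6 hE0.le
      calc W / Real.sqrt (2 * Real.pi) * Real.exp (-(W ^ 2 / 2) * (y - x) ^ 2) *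
            ‖logDeriv (DirichletCharacter.gammaFactor χ) (1 / 2 + (y : ℂ) * I)‖
          ≤ W / Real.sqrt (2 * Real.pi) * Real.exp (-(W ^ 2 / 2) * (y - x) ^ 2) * (C * (1 + |y|)) := by
            gcongr
        _ = C * (W / Real.sqrt (2 * Real.pi)) * ((1 + |y|) * Real.exp (-(W ^ 2 / 2) * (y - x) ^ 2)) := by ring
        _ ≤ C * (W / Real.sqrt (2 * Real.pi)) * ((2 + |x|) * Real.exp (-(W ^ 2 / 4) * (y - x) ^ 2)) := by
            gcongr
        _ = _ := by ring
    have hint := (hg1.const_mul (W / Real.sqrt (2 * Real.pi))).const_mul (C * (2 + |x|))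
    calc ‖∫ y in Icc (0 - T) (0 + T), A (((0 : ℝ) : ℂ) + y * I)‖
        ≤ ∫ y in Icc (0 - T) (0 + T), C * (2 + |x|) * (W / Real.sqrt (2 * Real.pi) *
            Real.exp (-(W ^ 2 / 4) * (y - x) ^ 2)) :=
          norm_integral_le_of_norm_le hint.integrableOn (Filter.Eventually.of_forall hpt)
      _ ≤ ∫ y : ℝ, C * (2 + |x|) * (W / Real.sqrt (2 * Real.pi) *
            Real.exp (-(W ^ 2 / 4) * (y - x) ^ 2)) :=
          setIntegral_le_integral hint (Filter.Eventually.of_forall fun y => by positivity)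
      _ = C * (2 + |x|) * (W / Real.sqrt (2 * Real.pi) *
            ∫ y : ℝ, Real.exp (-(W ^ 2 / 4) * (y - x) ^ 2)) := by
          rw [integral_const_mul, integral_const_mul]
      _ ≤ C * (2 + |x|) * 2 := by gcongr
  -- the horizontal lines
  have h2 : ∀ τ : ℝ, |τ| = T → ‖∫ u in (0 : ℝ)..1, A ((u : ℂ) + ((τ : ℝ) : ℂ) * I)‖ ≤
      C * W * (2 * (1 + H)) * Real.exp (W ^ 2 / 2 + |t| - W ^ 2 * H ^ 2 / 16) := by
    intro τ hτ
    have hpt : ∀ u ∈ Set.uIoc (0 : ℝ) 1, ‖A ((u : ℂ) + ((τ : ℝ) : ℂ) * I)‖ ≤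
        C * W * (2 * (1 + H)) * Real.exp (W ^ 2 / 2 + |t| - W ^ 2 * H ^ 2 / 16) := by
      intro u hu
      rw [Set.uIoc_of_le zero_le_one] at hu
      simp only [hA]
      rw [norm_mul, norm_mul, gz_norm_hor W x u τ hW0]
      have e1 : ‖Complex.exp (((u : ℂ) + ((τ : ℝ) : ℂ) * I) * t)‖ ≤ Real.exp |t| := by
        rw [Complex.norm_exp]
        refine Real.exp_le_exp.mpr ?_
        have e2 : (((u : ℂ) + ((τ : ℝ) : ℂ) * I) * t).re = u * t := by simp
        rw [e2]
        calc u * t ≤ |u * t| := le_abs_self _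
          _ = |u| * |t| := abs_mul _ _
          _ ≤ 1 * |t| := by
              refine mul_le_mul_of_nonneg_right ?_ hta
              rw [abs_of_pos hu.1]
              exact hu.2
          _ = |t| := one_mul _
      have e2 := (hC r χ (1 / 2 + ((u : ℂ) + ((τ : ℝ) : ℂ) * I)) (by simp; linarith [hu.1])
        (by simp; linarith [hu.2])).2.2
      have e3 : (1 / 2 + ((u : ℂ) + ((τ : ℝ) : ℂ) * I)).im = τ := by simp
      rw [e3, hτ] at e2
      have e4 : H / 2 ≤ |τ - x| := by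
        have := abs_sub_abs_le_abs_sub τ x
        rw [hτ] at this
        linarith
      have e5 : (H / 2) ^ 2 ≤ (τ - x) ^ 2 := by
        rw [← sq_abs (τ - x)]
        exact pow_le_pow_left₀ (by linarith) e4 2
      have e6 : Real.exp (W ^ 2 / 2 * u ^ 2 - W ^ 2 / 2 * (τ - x) ^ 2) * Real.exp |t| ≤
          Real.exp (W ^ 2 / 2 + |t| - W ^ 2 * H ^ 2 / 16) := by
        rw [← Real.exp_add]
        refine Real.exp_le_exp.mpr ?_
        have g1 : u ^ 2 ≤ 1 := by nlinarith [hu.1, hu.2]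
        have g2 : W ^ 2 * (H / 2) ^ 2 ≤ W ^ 2 * (τ - x) ^ 2 := by gcongr
        have g3 : W ^ 2 * u ^ 2 ≤ W ^ 2 * 1 := by gcongr
        nlinarith [sq_nonneg (W * H)]
      calc W / Real.sqrt (2 * Real.pi) * Real.exp (W ^ 2 / 2 * u ^ 2 - W ^ 2 / 2 * (τ - x) ^ 2) *
            ‖Complex.exp (((u : ℂ) + ((τ : ℝ) : ℂ) * I) * t)‖ *
            ‖logDeriv (DirichletCharacter.gammaFactor χ) (1 / 2 + ((u : ℂ) + ((τ : ℝ) : ℂ) * I))‖
          ≤ W * Real.exp (W ^ 2 / 2 * u ^ 2 - W ^ 2 / 2 * (τ - x) ^ 2) * Real.exp |t| *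
            (C * (1 + T)) := by gcongr
        _ = W * (C * (1 + T)) * (Real.exp (W ^ 2 / 2 * u ^ 2 - W ^ 2 / 2 * (τ - x) ^ 2) *
              Real.exp |t|) := by ring
        _ ≤ W * (C * (2 * (1 + H))) * Real.exp (W ^ 2 / 2 + |t| - W ^ 2 * H ^ 2 / 16) := by
            gcongr
            linarith
        _ = _ := by ring
    have := intervalIntegral.norm_integral_le_of_norm_le_const hpt
    simpa using this
  have h3 := h2 (0 - T) (by rw [zero_sub, abs_neg, abs_of_pos hT0])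
  have h4 := h2 (0 + T) (by rw [zero_add, abs_of_pos hT0])
  have h5 : 0 ≤ C * W * (1 + H) * Real.exp (W ^ 2 / 2 + |t| - W ^ 2 * H ^ 2 / 16) := by positivity
  calc ‖∫ y in Icc (0 - T) (0 + T), A (((0 : ℝ) : ℂ) + y * I)‖
        + ‖∫ u in (0 : ℝ)..1, A ((u : ℂ) + ((0 - T : ℝ) : ℂ) * I)‖
        + ‖∫ u in (0 : ℝ)..1, A ((u : ℂ) + ((0 + T : ℝ) : ℂ) * I)‖
      ≤ C * (2 + |x|) * 2 + C * W * (2 * (1 + H)) * Real.exp (W ^ 2 / 2 + |t| - W ^ 2 * H ^ 2 / 16)
        + C * W * (2 * (1 + H)) * Real.exp (W ^ 2 / 2 + |t| - W ^ 2 * H ^ 2 / 16) :=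
        add_le_add (add_le_add h1 h3) h4
    _ ≤ 4 * C * (1 + |x|) + 4 * C * W * (1 + H) * Real.exp (W ^ 2 / 2 + |t| - W ^ 2 * H ^ 2 / 16) := by
        nlinarith [mul_nonneg hC0.le hxa]

end Pool.Agent.SK
end

section

/-! The total over the line `Re w = 1`. -/

set_option autoImplicit false

namespace Pool.Agent.SK

open Complex MeasureTheory Pool.Agent.EM Set

theorem prim_ne_one {r : ℕ} [NeZero r] (hr : 2 ≤ r) (χ : DirichletCharacter ℂ r) (hχ : χ.IsPrimitive) :
    χ ≠ 1 := by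
  intro h
  rw [DirichletCharacter.IsPrimitive, h, DirichletCharacter.conductor_one] at hχ
  omega

/-- `Lam'/Lam = gamma'/gamma + L'/L` on `Re w = 1`. -/
theorem logDeriv_Lam_line {r : ℕ} [NeZero r] (χ : DirichletCharacter ℂ r) (hχ : χ ≠ 1) (y : ℝ) :
    logDeriv (Lam χ) (1 + y * I) =
      logDeriv (DirichletCharacter.gammaFactor χ) ((3 / 2 : ℂ) + y * I) +
        logDeriv χ.LFunction ((3 / 2 : ℂ) + y * I) := by
  have e0 : (1 / 2 : ℂ) + (1 + y * I) = (3 / 2 : ℂ) + y * I := by ring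
  have hre : ((3 / 2 : ℂ) + y * I).re = 3 / 2 := by simp
  have hopen : IsOpen {s : ℂ | 0 < s.re} := isOpen_lt continuous_const Complex.continuous_re
  have hmem : (3 / 2 : ℂ) + y * I ∈ {s : ℂ | 0 < s.re} := by
    show 0 < ((3 / 2 : ℂ) + y * I).re
    rw [hre]
    norm_num
  have h1 : logDeriv (Lam χ) (1 + y * I) =
      logDeriv (DirichletCharacter.completedLFunction χ) ((3 / 2 : ℂ) + y * I) := by
    rw [logDeriv_apply, logDeriv_apply]
    unfold Lam
    rw [deriv_comp_const_add, e0]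
  obtain ⟨C, _, hC⟩ := gamma_bound
  obtain ⟨g1, g2, _⟩ := hC r χ ((3 / 2 : ℂ) + y * I) (by rw [hre]; norm_num) (by rw [hre])
  have hL : χ.LFunction ((3 / 2 : ℂ) + y * I) ≠ 0 :=
    χ.LFunction_ne_zero_of_one_le_re (Or.inl hχ) (by rw [hre]; norm_num)
  have hLd : DifferentiableAt ℂ χ.LFunction ((3 / 2 : ℂ) + y * I) :=
    (DirichletCharacter.differentiable_LFunction hχ) _
  have heq : DirichletCharacter.completedLFunction χ =ᶠ[nhds ((3 / 2 : ℂ) + y * I)]
      fun s => DirichletCharacter.gammaFactor χ s * χ.LFunction s := by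
    filter_upwards [hopen.mem_nhds hmem] with s hs
    exact U5_comp hχ hs
  rw [h1, logDeriv_apply, heq.deriv_eq, heq.eq_of_nhds, ← logDeriv_apply]
  exact logDeriv_mul _ g2 hL g1 hLd

/-- The total over the line `Re w = 1` (`b = 0` or `b = log r`). -/
theorem line_total : ∃ C : ℝ, 1 ≤ C ∧ ∀ (r : ℕ) [NeZero r], 3 ≤ r → ∀ χ : DirichletCharacter ℂ r,
    χ.IsPrimitive → ∀ W H T x t b : ℝ, 1 ≤ W → 1 ≤ H → H ≤ T → T ≤ H + 1 → |x| ≤ H / 2 → 0 ≤ b →
    b ≤ Real.log r →
    ‖(∫ y in (-T)..T, gz W x (1 + y * I) * Complex.exp ((1 + y * I) * t) *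
        (b + logDeriv (Lam χ) (1 + y * I))) -
      (b * Complex.exp (x * t * I - ((t ^ 2 / (2 * W ^ 2) : ℝ) : ℂ)) - PX χ W x t)‖ ≤
      C * (1 + |x|) + C * W * (Real.log r + H) * Real.exp (W ^ 2 / 2 + |t| - W ^ 2 * H ^ 2 / 16) := by
  obtain ⟨C1, hC1, h1⟩ := gamma_line
  obtain ⟨C2, hC2, h2⟩ := LFun_logDeriv_bound
  refine ⟨2 * C1 + 2 * C2 + 2, by linarith, ?_⟩
  intro r _ hr χ hχ W H T x t b hW hH hT hT1 hx hb hbr
  have hW0 : 0 < W := by linarith
  have hne : χ ≠ 1 := prim_ne_one (by omega) χ hχ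
  set E : ℝ := Real.exp (W ^ 2 / 2 + |t| - W ^ 2 * H ^ 2 / 16) with hE
  have hE0 : 0 < E := Real.exp_pos _
  obtain ⟨i1, v1⟩ := LE_integral W x t hW0
  obtain ⟨i2, v2⟩ := line_prime χ W x t hW0
  have t1 := LE_trunc W x t T H 1 hW hH hT hx zero_le_one (fun _ => 1) (fun _ => by simp)
    (by simpa using i1)
  have t2 := LE_trunc W x t T H C2 hW hH hT hx (by linarith)
    (fun y => logDeriv χ.LFunction ((3 / 2 : ℂ) + y * I)) (fun y => h2 r χ y) i2
  have t3 := h1 r χ W x t T H hW hH hT hT1 hx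
  rw [← hE] at t1 t2 t3
  have hgc : Continuous fun y : ℝ => logDeriv (DirichletCharacter.gammaFactor χ) ((3 / 2 : ℂ) + y * I) := by
    have hopen : IsOpen {s : ℂ | 0 < s.re} := isOpen_lt continuous_const Complex.continuous_re
    rw [continuous_iff_continuousAt]
    intro y
    have hd : DifferentiableAt ℂ (logDeriv (DirichletCharacter.gammaFactor χ)) ((3 / 2 : ℂ) + y * I) := by
      refine (gamma_diff χ).differentiableAt (hopen.mem_nhds ?_)
      show 0 < ((3 / 2 : ℂ) + y * I).re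
      have : ((3 / 2 : ℂ) + y * I).re = 3 / 2 := by simp
      rw [this]
      norm_num
    exact ContinuousAt.comp (f := fun y : ℝ => (3 / 2 : ℂ) + y * I) hd.continuousAt (by fun_prop)
  have hLEc := LE_continuous W x t
  have j1 : IntervalIntegrable (fun y : ℝ => (b : ℂ) * (LE W x t y * 1)) volume (-T) T := by
    refine Continuous.intervalIntegrable ?_ _ _
    fun_prop
  have j2 : IntervalIntegrable (fun y : ℝ => LE W x t y *
      logDeriv (DirichletCharacter.gammaFactor χ) ((3 / 2 : ℂ) + y * I)) volume (-T) T :=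
    (hLEc.mul hgc).intervalIntegrable _ _
  have j3 : IntervalIntegrable (fun y : ℝ => LE W x t y *
      logDeriv χ.LFunction ((3 / 2 : ℂ) + y * I)) volume (-T) T := i2.intervalIntegrable
  have hsplit : (∫ y in (-T)..T, gz W x (1 + y * I) * Complex.exp ((1 + y * I) * t) *
        (b + logDeriv (Lam χ) (1 + y * I))) =
      b * (∫ y in (-T)..T, LE W x t y * 1) +
      (∫ y in (-T)..T, LE W x t y *
        logDeriv (DirichletCharacter.gammaFactor χ) ((3 / 2 : ℂ) + y * I)) +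
      ∫ y in (-T)..T, LE W x t y * logDeriv χ.LFunction ((3 / 2 : ℂ) + y * I) := by
    rw [← intervalIntegral.integral_const_mul, ← intervalIntegral.integral_add j1 j2,
      ← intervalIntegral.integral_add (j1.add j2) j3]
    refine intervalIntegral.integral_congr fun y _ => ?_
    show gz W x (1 + y * I) * Complex.exp ((1 + y * I) * t) * (b + logDeriv (Lam χ) (1 + y * I)) = _
    rw [logDeriv_Lam_line χ hne y]
    unfold LE
    ring
  rw [hsplit]
  have hval : (b : ℂ) * Complex.exp (x * t * I - ((t ^ 2 / (2 * W ^ 2) : ℝ) : ℂ)) - PX χ W x t =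
      b * (∫ y : ℝ, LE W x t y * 1) + ∫ y : ℝ, LE W x t y * logDeriv χ.LFunction ((3 / 2 : ℂ) + y * I) := by
    simp only [mul_one]
    rw [v1, v2]
    ring
  rw [hval]
  have hlr : 0 ≤ Real.log r := Real.log_natCast_nonneg r
  have hxa := abs_nonneg x
  have hn : ‖(b : ℂ)‖ = b := by
    rw [Complex.norm_real, Real.norm_of_nonneg hb]
  set X1 := ∫ y in (-T)..T, LE W x t y * 1 with hX1
  set X2 := ∫ y in (-T)..T, LE W x t y *
        logDeriv (DirichletCharacter.gammaFactor χ) ((3 / 2 : ℂ) + y * I) with hX2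
  set X3 := ∫ y in (-T)..T, LE W x t y * logDeriv χ.LFunction ((3 / 2 : ℂ) + y * I) with hX3
  set Y1 := ∫ y : ℝ, LE W x t y * 1 with hY1
  set Y3 := ∫ y : ℝ, LE W x t y * logDeriv χ.LFunction ((3 / 2 : ℂ) + y * I) with hY3
  have e1 : (b : ℂ) * X1 + X2 + X3 - (b * Y1 + Y3) = b * (X1 - Y1) + X2 + (X3 - Y3) := by ring
  rw [e1]
  calc ‖(b : ℂ) * (X1 - Y1) + X2 + (X3 - Y3)‖ ≤ ‖(b : ℂ) * (X1 - Y1)‖ + ‖X2‖ + ‖X3 - Y3‖ :=
        norm_add₃_le
    _ ≤ Real.log r * (1 * (2 * E)) + (C1 * (1 + |x|) + C1 * W * (1 + H) * E) + C2 * (2 * E) := by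
        rw [norm_mul, hn]
        gcongr
    _ ≤ _ := by
        have f1 : Real.log r * E ≤ W * Real.log r * E := by
          have : Real.log r * 1 ≤ Real.log r * W := by gcongr
          nlinarith
        have f2 : E ≤ W * H * E := by
          have : 1 * 1 ≤ W * H := mul_le_mul hW hH zero_le_one hW0.le
          nlinarith
        have f3 : 0 ≤ W * Real.log r * E := by positivity
        have f4 : W * E ≤ W * H * E := by
          have : W * 1 ≤ W * H := by gcongr
          nlinarith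
        have f5 : 0 ≤ W * H * E := by positivity
        have f6 : 0 ≤ C1 * (1 + |x|) := by positivity
        have f7 : 0 ≤ C2 * (1 + |x|) := by positivity
        have f8 : C1 * (W * E) ≤ C1 * (W * H * E) := by gcongr
        have f9 : C2 * E ≤ C2 * (W * H * E) := by gcongr
        have f10 : 0 ≤ C1 * (W * Real.log r * E) := by positivity
        have f11 : 0 ≤ C2 * (W * Real.log r * E) := by positivity
        nlinarith

end Pool.Agent.SK
end

section

/-! The functional equation for `Lam'/Lam`. -/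

set_option autoImplicit false

namespace Pool.Agent.SK

open Complex MeasureTheory Pool.Agent.EM Pool.Agent.SO Set
open scoped ComplexConjugate

theorem Lam_differentiable {r : ℕ} [NeZero r] (χ : DirichletCharacter ℂ r) (hχ : χ ≠ 1) :
    Differentiable ℂ (Lam χ) := by
  unfold Lam
  exact (DirichletCharacter.differentiable_completedLFunction hχ).comp (by fun_prop)

theorem GammaR_conj (s : ℂ) : Gammaℝ (conj s) = conj (Gammaℝ s) := by
  rw [Gammaℝ_def, Gammaℝ_def, map_mul]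
  have e1 : (conj s / 2 : ℂ) = conj (s / 2) := by
    rw [map_div₀]
    congr 1
    exact (Complex.conj_ofNat 2).symm
  have e2 : (-conj s / 2 : ℂ) = conj (-s / 2) := by
    rw [map_div₀, map_neg]
    congr 1
    exact (Complex.conj_ofNat 2).symm
  rw [e1, Complex.Gamma_conj, e2]
  congr 1
  have harg : (Real.pi : ℂ).arg ≠ Real.pi := by
    rw [Complex.arg_ofReal_of_nonneg Real.pi_pos.le]
    exact Real.pi_pos.ne
  rw [Complex.cpow_conj _ _ harg, Complex.conj_ofReal]

theorem gF_conj {r : ℕ} [NeZero r] (χ : DirichletCharacter ℂ r) (s : ℂ) :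
    DirichletCharacter.gammaFactor χ (conj s) = conj (DirichletCharacter.gammaFactor χ s) := by
  rcases χ.even_or_odd with h | h
  · rw [h.gammaFactor_def, h.gammaFactor_def]
    exact GammaR_conj s
  · rw [h.gammaFactor_def, h.gammaFactor_def]
    have : conj s + 1 = conj (s + 1) := by
      rw [map_add, map_one]
    rw [this]
    exact GammaR_conj (s + 1)

/-- `Lam χ⁻¹ v = conj (Lam χ (conj v))`. -/
theorem Lam_inv {r : ℕ} [NeZero r] (χ : DirichletCharacter ℂ r) (hχ : χ ≠ 1) (v : ℂ) :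
    Lam χ⁻¹ v = conj (Lam χ (conj v)) := by
  have hχ' : χ⁻¹ ≠ 1 := U5_inv_ne hχ
  have hd1 : Differentiable ℂ (Lam χ⁻¹) := Lam_differentiable _ hχ'
  have hd2 : Differentiable ℂ (fun v : ℂ => conj (Lam χ (conj v))) := by
    intro z
    have h := (Lam_differentiable χ hχ (conj z)).conj_conj
    rw [Complex.conj_conj] at h
    exact h
  have heq : Lam χ⁻¹ = fun v : ℂ => conj (Lam χ (conj v)) := by
    refine AnalyticOnNhd.eq_of_eventuallyEq (z₀ := 1)
      (fun z _ => hd1.analyticAt z) (fun z _ => hd2.analyticAt z) ?_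
    have hopen : IsOpen {s : ℂ | -(1 / 2) < s.re} := isOpen_lt continuous_const Complex.continuous_re
    filter_upwards [hopen.mem_nhds (show (1 : ℂ) ∈ {s : ℂ | -(1 / 2) < s.re} by
      show -(1 / 2) < (1 : ℂ).re
      rw [Complex.one_re]
      norm_num)] with z hz
    have hz' : -(1 / 2) < z.re := hz
    have h1 : 0 < (1 / 2 + z).re := by
      simp
      linarith
    have h2 : 0 < (1 / 2 + conj z).re := by
      simp
      linarith
    unfold Lam
    rw [U5_comp hχ' h1, U5_comp hχ h2, U5_gamma_inv, LFunction_conj r χ hχ, map_mul]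
    have e : (1 / 2 + conj z : ℂ) = conj (1 / 2 + z) := by
      rw [map_add, map_div₀, map_one]
      congr 2
      exact (Complex.conj_ofNat 2).symm
    rw [e, gF_conj, Complex.conj_conj]
  exact congrFun heq v

/-- The functional equation. -/
theorem Lam_neg {r : ℕ} [NeZero r] (hr : 2 ≤ r) (χ : DirichletCharacter ℂ r) (hχ : χ.IsPrimitive) (v : ℂ) :
    Lam χ (-v) = (r : ℂ) ^ v * DirichletCharacter.rootNumber χ * conj (Lam χ (conj v)) := by
  have hne := prim_ne_one hr χ hχ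
  have h1 := hχ.completedLFunction_one_sub (1 / 2 + v)
  rw [← Lam_inv χ hne v]
  unfold Lam
  have e1 : (1 : ℂ) - (1 / 2 + v) = 1 / 2 + -v := by ring
  have e2 : (1 / 2 + v : ℂ) - 1 / 2 = v := by ring
  rw [e1, e2] at h1
  exact h1

theorem rootNumber_ne {r : ℕ} [NeZero r] (hr : 2 ≤ r) (χ : DirichletCharacter ℂ r) (hχ : χ.IsPrimitive) :
    DirichletCharacter.rootNumber χ ≠ 0 := by
  have hne := prim_ne_one hr χ hχ
  have h := U5_root hne hχ
  intro h0
  rw [h0, zero_mul] at h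
  exact zero_ne_one h

/-- The zeros are symmetric. -/
theorem Lam_zero_symm {r : ℕ} [NeZero r] (hr : 2 ≤ r) (χ : DirichletCharacter ℂ r) (hχ : χ.IsPrimitive)
    (w : ℂ) : Lam χ (-conj w) = 0 ↔ Lam χ w = 0 := by
  rw [Lam_neg hr χ hχ, Complex.conj_conj]
  have h1 : (r : ℂ) ^ (conj w) ≠ 0 := by
    have : (r : ℂ) ≠ 0 := by exact_mod_cast NeZero.ne r
    rw [Complex.cpow_def_of_ne_zero this]
    exact Complex.exp_ne_zero _
  have h2 := rootNumber_ne hr χ hχ
  constructor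
  · intro h
    have h3 := (mul_eq_zero.mp h).resolve_left (mul_ne_zero h1 h2)
    exact (map_eq_zero _).mp h3
  · intro h
    rw [h, map_zero, mul_zero]

/-- The functional equation for the logarithmic derivative. -/
theorem logDeriv_Lam_symm {r : ℕ} [NeZero r] (hr : 2 ≤ r) (χ : DirichletCharacter ℂ r)
    (hχ : χ.IsPrimitive) (w : ℂ) (hw : Lam χ w ≠ 0) :
    logDeriv (Lam χ) (-conj w) = -(Real.log r : ℂ) - conj (logDeriv (Lam χ) w) := by
  have hne := prim_ne_one hr χ hχ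
  have hr0 : (r : ℂ) ≠ 0 := by exact_mod_cast NeZero.ne r
  have hd := Lam_differentiable χ hne
  set ε := DirichletCharacter.rootNumber χ with hε
  have hε0 : ε ≠ 0 := rootNumber_ne hr χ hχ
  -- the derivative of both sides at `v = conj w`
  have hL : HasDerivAt (fun v : ℂ => Lam χ (-v)) (-(deriv (Lam χ) (-conj w))) (conj w) := by
    have h1 : HasDerivAt (Lam χ) (deriv (Lam χ) (-conj w)) (-conj w) := (hd _).hasDerivAt
    have h2 : HasDerivAt (fun v : ℂ => -v) (-1) (conj w) := hasDerivAt_neg (conj w)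
    have h3 : HasDerivAt (Lam χ ∘ fun v : ℂ => -v) (deriv (Lam χ) (-conj w) * -1) (conj w) :=
      HasDerivAt.comp (conj w) h1 h2
    exact h3.congr_deriv (by ring)
  have hR : HasDerivAt (fun v : ℂ => (r : ℂ) ^ v * ε * conj (Lam χ (conj v)))
      ((r : ℂ) ^ (conj w) * Complex.log r * ε * conj (Lam χ w) +
        (r : ℂ) ^ (conj w) * ε * conj (deriv (Lam χ) w)) (conj w) := by
    have h1 : HasDerivAt (fun v : ℂ => (r : ℂ) ^ v) ((r : ℂ) ^ (conj w) * Complex.log r) (conj w) := by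
      simpa using (hasDerivAt_id (conj w)).const_cpow (c := (r : ℂ)) (Or.inl hr0)
    have h2 : HasDerivAt (conj ∘ Lam χ ∘ conj) (conj (deriv (Lam χ) w)) (conj w) :=
      ((hd w).hasDerivAt).conj_conj
    have h3 := (h1.mul_const ε).mul h2
    refine h3.congr_deriv ?_
    simp only [Function.comp_apply, Complex.conj_conj]
  have heq : (fun v : ℂ => Lam χ (-v)) = fun v : ℂ => (r : ℂ) ^ v * ε * conj (Lam χ (conj v)) :=
    funext fun v => Lam_neg hr χ hχ v
  rw [heq] at hL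
  have hder := hL.unique hR
  have hval := Lam_neg hr χ hχ (conj w)
  rw [Complex.conj_conj] at hval
  have hcw : conj (Lam χ w) ≠ 0 := (map_ne_zero _).mpr hw
  have hrp : (r : ℂ) ^ (conj w) ≠ 0 := by
    rw [Complex.cpow_def_of_ne_zero hr0]
    exact Complex.exp_ne_zero _
  have hlog : Complex.log (r : ℂ) = (Real.log r : ℂ) := by
    rw [← Complex.natCast_log]
  rw [logDeriv_apply, logDeriv_apply, hval, map_div₀]
  rw [hlog] at hder
  rw [← hε]
  have h4 : deriv (Lam χ) (-conj w) = -((r : ℂ) ^ (conj w) * (Real.log r : ℂ) * ε * conj (Lam χ w) +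
        (r : ℂ) ^ (conj w) * ε * conj (deriv (Lam χ) w)) := by
    rw [← hder, neg_neg]
  rw [h4]
  field_simp
  ring

end Pool.Agent.SK
end

section

set_option autoImplicit false

namespace Pool.Agent.SK

open Complex MeasureTheory
open Pool.Agent.SO (prim NN)

theorem prim_spec (r : ℕ) [NeZero r] (hr : 2 ≤ r) (χ : DirichletCharacter ℂ r) (hχ : χ ∈ prim r) :
    χ.IsPrimitive ∧ χ ≠ 1 := SO.prim_ne_one r hr χ hχ

theorem Lam_entire (r : ℕ) [NeZero r] (hr : 2 ≤ r) (χ : DirichletCharacter ℂ r) (hχ : χ ∈ prim r) :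
    Differentiable ℂ (Lam χ) := Lam_differentiable χ (prim_spec r hr χ hχ).2

theorem Lam_ne_right (r : ℕ) [NeZero r] (χ : DirichletCharacter ℂ r) (hχ : χ ≠ 1) (w : ℂ)
    (hw : 1 / 2 ≤ w.re) : Lam χ w ≠ 0 := by
  have hre : (1 / 2 + w).re = 1 / 2 + w.re := by simp
  unfold Lam
  rw [EM.U5_comp hχ (by rw [hre]; linarith)]
  refine mul_ne_zero (EM.U5_gamma_ne χ (by rw [hre]; linarith)) ?_
  exact DirichletCharacter.LFunction_ne_zero_of_one_le_re χ (.inl hχ) (by rw [hre]; linarith)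

theorem Lam_ne (r : ℕ) [NeZero r] (hr : 2 ≤ r) (χ : DirichletCharacter ℂ r) (hχ : χ ∈ prim r) (w : ℂ)
    (hw : 1 / 2 ≤ |w.re|) : Lam χ w ≠ 0 := by
  obtain ⟨hp, hne⟩ := prim_spec r hr χ hχ
  rcases le_abs.mp hw with h | h
  · exact Lam_ne_right r χ hne w h
  · have h1 : Lam χ (-(starRingEnd ℂ) w) ≠ 0 := by
      apply Lam_ne_right r χ hne
      simpa using h
    intro h0
    exact h1 ((Lam_zero_symm hr χ hp w).2 h0)

end Pool.Agent.SK
end

section

set_option autoImplicit false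

namespace Pool.Agent.SK

open Complex MeasureTheory
open Pool.Agent.SO (prim NN)

theorem Z3A_anal (r : ℕ) [NeZero r] (hr : 2 ≤ r) (χ : DirichletCharacter ℂ r) (hχ : χ ∈ prim r) :
    AnalyticOnNhd ℂ (Lam χ) Set.univ :=
  fun z _ => (Lam_entire r hr χ hχ).analyticAt z

theorem Z3A_one (r : ℕ) [NeZero r] (hr : 2 ≤ r) (χ : DirichletCharacter ℂ r) (hχ : χ ∈ prim r) :
    Lam χ 1 ≠ 0 := Lam_ne r hr χ hχ 1 (by norm_num)

theorem Z3A_re_lt (r : ℕ) [NeZero r] (hr : 2 ≤ r) (χ : DirichletCharacter ℂ r) (hχ : χ ∈ prim r)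
    (w : ℂ) (hw : Lam χ w = 0) : |w.re| < 1 / 2 := by
  by_contra h
  exact Lam_ne r hr χ hχ w (not_lt.1 h) hw

theorem Z3A_finite (r : ℕ) [NeZero r] (hr : 2 ≤ r) (χ : DirichletCharacter ℂ r) (hχ : χ ∈ prim r) (T : ℝ) :
    {w : ℂ | Lam χ w = 0 ∧ |w.im| ≤ T}.Finite := by
  by_contra hinf
  have hK : IsCompact (Set.Icc (-(1 / 2) : ℝ) (1 / 2) ×ℂ Set.Icc (-T) T) :=
    isCompact_Icc.reProdIm isCompact_Icc
  have hsub : {w : ℂ | Lam χ w = 0 ∧ |w.im| ≤ T} ⊆ Set.Icc (-(1 / 2) : ℝ) (1 / 2) ×ℂ Set.Icc (-T) T := by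
    rintro z ⟨h0, h2⟩
    rw [mem_reProdIm]
    exact ⟨abs_le.1 (Z3A_re_lt r hr χ hχ z h0).le, abs_le.1 h2⟩
  obtain ⟨x, -, hx⟩ := Set.Infinite.exists_accPt_of_subset_isCompact hinf hK hsub
  rw [accPt_iff_frequently_nhdsNE] at hx
  have h4 := (Z3A_anal r hr χ hχ).eqOn_zero_of_preconnected_of_frequently_eq_zero isPreconnected_univ
    (Set.mem_univ x) (hx.mono fun z hz => hz.1)
  exact Z3A_one r hr χ hχ (h4 (Set.mem_univ 1))

/-- Z3a. -/
theorem mem_Z (r : ℕ) [NeZero r] (hr : 2 ≤ r) (χ : DirichletCharacter ℂ r) (hχ : χ ∈ prim r) (T : ℝ) (w : ℂ) :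
    w ∈ Z χ T ↔ Lam χ w = 0 ∧ |w.im| ≤ T := by
  unfold Z
  rw [dif_pos (Z3A_finite r hr χ hχ T), Set.Finite.mem_toFinset]
  rfl

/-- Z3b. PROOF. `Lam_ne`. -/
theorem re_lt_of_mem (r : ℕ) [NeZero r] (hr : 2 ≤ r) (χ : DirichletCharacter ℂ r) (hχ : χ ∈ prim r) (T : ℝ)
    (w : ℂ) (hw : w ∈ Z χ T) : |w.re| < 1 / 2 :=
  Z3A_re_lt r hr χ hχ w ((mem_Z r hr χ hχ T w).1 hw).1

/-- Z3c. -/
theorem one_le_mu (r : ℕ) [NeZero r] (hr : 2 ≤ r) (χ : DirichletCharacter ℂ r) (hχ : χ ∈ prim r)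
    (w : ℂ) (hw : Lam χ w = 0) : 1 ≤ mu χ w := by
  have ha : AnalyticAt ℂ (Lam χ) w := Z3A_anal r hr χ hχ w (Set.mem_univ _)
  have h1 : analyticOrderAt (Lam χ) w ≠ 0 := fun h0 => ha.analyticOrderAt_eq_zero.1 h0 hw
  have h2 : analyticOrderAt (Lam χ) w ≠ ⊤ := by
    intro h0
    have h3 := (Z3A_anal r hr χ hχ).eqOn_zero_of_preconnected_of_eventuallyEq_zero isPreconnected_univ
      (Set.mem_univ w) (analyticOrderAt_eq_top.1 h0)
    exact Z3A_one r hr χ hχ (h3 (Set.mem_univ 1))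
  have h3 : analyticOrderNatAt (Lam χ) w ≠ 0 := by
    intro h0
    rcases (ENat.toNat_eq_zero.1 h0) with h4 | h4
    · exact h1 h4
    · exact h2 h4
  have h4 : 1 ≤ analyticOrderNatAt (Lam χ) w := Nat.one_le_iff_ne_zero.2 h3
  change (1 : ℝ) ≤ ((analyticOrderNatAt (Lam χ) w : ℕ) : ℝ)
  exact_mod_cast h4

/-- Z3d. PROOF. `mu` is a cast natural number. -/
theorem mu_nonneg (r : ℕ) [NeZero r] (χ : DirichletCharacter ℂ r) (w : ℂ) : 0 ≤ mu χ w := by
  unfold mu
  positivity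

end Pool.Agent.SK
end

section

set_option autoImplicit false

namespace Pool.Agent.SK

open Complex MeasureTheory
open Pool.Agent.SO (prim NN)

theorem Z3B_GammaR (s : ℂ) (hs : 0 < s.re) : AnalyticAt ℂ Gammaℝ s := by
  have h1 : AnalyticAt ℂ (fun s ↦ (Gammaℝ s)⁻¹) s := differentiable_Gammaℝ_inv.analyticAt s
  have h2 : (fun s ↦ (Gammaℝ s)⁻¹) s ≠ 0 := inv_ne_zero (Gammaℝ_ne_zero_of_re_pos hs)
  have h3 := h1.inv h2
  have h4 : (fun s ↦ (Gammaℝ s)⁻¹)⁻¹ = Gammaℝ := by
    ext z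
    simp
  rw [h4] at h3
  exact h3

theorem Z3B_gamma {r : ℕ} [NeZero r] (χ : DirichletCharacter ℂ r) (w : ℂ) (hw : -(1 / 2) < w.re) :
    AnalyticAt ℂ (fun z => DirichletCharacter.gammaFactor χ (1 / 2 + z)) w := by
  have hre : 0 < (1 / 2 + w).re := by simp; linarith
  have hre1 : 0 < (1 / 2 + w + 1).re := by simp; linarith
  rcases χ.even_or_odd with h | h
  · simp only [h.gammaFactor_def]
    exact (Z3B_GammaR _ hre).fun_comp (by fun_prop)
  · simp only [h.gammaFactor_def]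
    have h1 : AnalyticAt ℂ (fun z : ℂ => 1 / 2 + z + 1) w := by fun_prop
    exact AnalyticAt.fun_comp (g := Gammaℝ) (f := fun z : ℂ => 1 / 2 + z + 1) (Z3B_GammaR _ hre1) h1

/-- Z3e. The multiplicities of `Lam` and of `L` agree in `Re s > 0`. -/
theorem mu_eq (r : ℕ) [NeZero r] (hr : 2 ≤ r) (χ : DirichletCharacter ℂ r) (hχ : χ ∈ prim r) (w : ℂ)
    (hw : -(1 / 2) < w.re) : mu χ w = TS.mu χ (1 / 2 + w) := by
  obtain ⟨hp, hne⟩ := prim_spec r hr χ hχ
  have hL : AnalyticAt ℂ (fun z => χ.LFunction (1 / 2 + z)) w := by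
    have h1 : Differentiable ℂ (fun z => χ.LFunction (1 / 2 + z)) :=
      (DirichletCharacter.differentiable_LFunction hne).comp (by fun_prop)
    exact h1.analyticAt w
  have hev : Lam χ =ᶠ[nhds w]
      ((fun z => DirichletCharacter.gammaFactor χ (1 / 2 + z)) * fun z => χ.LFunction (1 / 2 + z)) := by
    have hopen : IsOpen {s : ℂ | -(1 / 2) < s.re} := isOpen_lt continuous_const Complex.continuous_re
    filter_upwards [hopen.mem_nhds (show w ∈ {s : ℂ | -(1 / 2) < s.re} from hw)] with z hz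
    have hz' : -(1 / 2) < z.re := hz
    unfold Lam
    rw [EM.U5_comp hne (by simp; linarith)]
    rfl
  have h0 : analyticOrderAt (fun z => DirichletCharacter.gammaFactor χ (1 / 2 + z)) w = 0 := by
    rw [(Z3B_gamma χ w hw).analyticOrderAt_eq_zero]
    exact EM.U5_gamma_ne χ (by simp; linarith)
  have h1 : analyticOrderAt (fun z => χ.LFunction (1 / 2 + z)) w =
      analyticOrderAt χ.LFunction (1 / 2 + w) := by
    have h2 : AnalyticAt ℂ (fun z : ℂ => 1 / 2 + z) w := by fun_prop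
    have h3 : deriv (fun z : ℂ => 1 / 2 + z) w ≠ 0 := by
      rw [deriv_const_add]
      simp
    exact analyticOrderAt_comp_of_deriv_ne_zero (f := χ.LFunction) h2 h3
  have h4 : analyticOrderAt (Lam χ) w = analyticOrderAt (MC.FF r χ) (1 / 2 + w) := by
    rw [analyticOrderAt_congr hev, analyticOrderAt_mul (Z3B_gamma χ w hw) hL, h0, h1, zero_add,
      MC.FF_of_ne r χ hne]
  unfold mu TS.mu analyticOrderNatAt
  rw [h4]

end Pool.Agent.SK
end

section

set_option autoImplicit false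

/-! Task GA: the zeros of `Lam` and of `L(s, χ)`, primitive characters. -/

namespace Pool.Agent.SD

open Complex MeasureTheory
open Pool.Agent.SK
open Pool.Agent.SO (prim NN)

private theorem GA_comp (r : ℕ) [NeZero r] (hr : 2 ≤ r) (χ : DirichletCharacter ℂ r) (hχ : χ ∈ prim r) (w : ℂ)
    (hw : -(1 / 2) < w.re) : Lam χ w = 0 ↔ χ.LFunction (1 / 2 + w) = 0 := by
  obtain ⟨hp, hne⟩ := prim_spec r hr χ hχ
  have hre : 0 < (1 / 2 + w).re := by simp; linarith
  unfold Lam
  rw [EM.U5_comp hne hre, mul_eq_zero]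
  constructor
  · rintro (h | h)
    · exact absurd h (EM.U5_gamma_ne χ hre)
    · exact h
  · exact fun h => Or.inr h

/-- GA1. PROOF. `Lam χ w = 0` implies `|w.re| < 1/2` (`Z3A_re_lt`). For `w.re > -1/2`: `Lam χ w = gammaFactor χ (1/2+w) * L(1/2+w, χ)` with a gamma factor
different from `0` (`EM.U5_comp`, `EM.U5_gamma_ne`, see SK/Z3B.lean), so `Lam χ w = 0 ↔ L(1/2+w) = 0`. `mem_Z`. -/
theorem all_iff (r : ℕ) [NeZero r] (hr : 2 ≤ r) (χ : DirichletCharacter ℂ r) (hχ : χ ∈ prim r) (T : ℝ) (w : ℂ) :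
    w ∈ Z χ T ↔ 1 / 2 + w ∈ AZ χ T := by
  rw [mem_Z r hr χ hχ T w]
  have hre : (1 / 2 + w).re = 1 / 2 + w.re := by simp
  have him : (1 / 2 + w).im = w.im := by simp
  constructor
  · rintro ⟨h0, hT⟩
    have h1 := abs_lt.1 (Z3A_re_lt r hr χ hχ w h0)
    refine ⟨?_, ?_, ?_, (GA_comp r hr χ hχ w (by linarith [h1.1])).1 h0⟩
    · rw [hre]; linarith [h1.1]
    · rw [hre]; linarith [h1.2]
    · rw [him]; exact hT
  · rintro ⟨h1, h2, h3, h4⟩
    rw [hre] at h1
    rw [him] at h3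
    exact ⟨(GA_comp r hr χ hχ w (by linarith)).2 h4, h3⟩

/-- GA2. PROOF. `mu_eq` (SK/Z3B.lean) and `MC.FF_of_ne` (`χ ≠ 1` by `prim_spec`). -/
theorem mu_order (r : ℕ) [NeZero r] (hr : 2 ≤ r) (χ : DirichletCharacter ℂ r) (hχ : χ ∈ prim r) (w : ℂ)
    (hw : -(1 / 2) < w.re) : mu χ w = (analyticOrderNatAt χ.LFunction (1 / 2 + w) : ℝ) := by
  obtain ⟨hp, hne⟩ := prim_spec r hr χ hχ
  rw [mu_eq r hr χ hχ w hw]
  unfold TS.mu
  rw [MC.FF_of_ne r χ hne]

/-- GA3. PROOF. `all_iff`, `mu_order`, and an analytic function (`DirichletCharacter.differentiable_LFunction`) has order `1` at a zero iff its derivative does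
not vanish there (search Mathlib for `analyticOrderAt` and `deriv`, e.g. `AnalyticAt.analyticOrderAt_deriv_add_one` or
`analyticOrderAt_eq_one_iff`-like lemmas; or from the definition with the local factorization). -/
theorem good_iff (r : ℕ) [NeZero r] (hr : 2 ≤ r) (χ : DirichletCharacter ℂ r) (hχ : χ ∈ prim r) (T : ℝ) (w : ℂ) :
    w ∈ GZ χ T ↔ 1 / 2 + w ∈ SZ χ T := by
  classical
  obtain ⟨hp, hne⟩ := prim_spec r hr χ hχ
  have hre : (1 / 2 + w).re = 1 / 2 + w.re := by simp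
  have him : (1 / 2 + w).im = w.im := by simp
  have hA : AnalyticAt ℂ χ.LFunction (1 / 2 + w) :=
    (DirichletCharacter.differentiable_LFunction hne).analyticAt _
  have hord : χ.LFunction (1 / 2 + w) = 0 →
      (analyticOrderNatAt χ.LFunction (1 / 2 + w) = 1 ↔ deriv χ.LFunction (1 / 2 + w) ≠ 0) := by
    intro h0
    constructor
    · intro h1 h2
      have h3 := hA.analyticOrderAt_deriv_add_one
      simp only [h0, sub_zero] at h3
      have h4 : analyticOrderAt (deriv χ.LFunction) (1 / 2 + w) ≠ 0 :=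
        fun h => (hA.deriv.analyticOrderAt_eq_zero.1 h) h2
      unfold analyticOrderNatAt at h1
      have h5 : analyticOrderAt χ.LFunction (1 / 2 + w) = 1 := by
        have h6 : analyticOrderAt χ.LFunction (1 / 2 + w) ≠ ⊤ := by
          intro h7
          rw [h7] at h1
          simp at h1
        rw [← ENat.natCast_toNat h6, h1]
        rfl
      rw [h5] at h3
      have h8 : (1 : ℕ∞) ≤ analyticOrderAt (deriv χ.LFunction) (1 / 2 + w) := Order.one_le_iff_ne_zero.2 h4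
      have h9 : (1 : ℕ∞) + 1 ≤ 1 := by
        calc (1 : ℕ∞) + 1 ≤ analyticOrderAt (deriv χ.LFunction) (1 / 2 + w) + 1 := by gcongr
          _ = 1 := h3
      exact absurd h9 (by decide)
    · intro h2
      unfold analyticOrderNatAt
      rw [hA.analyticOrderAt_eq_one_of_zero_deriv_ne_zero h0 h2]
      rfl
  unfold GZ
  rw [Finset.mem_filter, all_iff r hr χ hχ T w]
  constructor
  · rintro ⟨⟨h1, h2, h3, h4⟩, h5, h6⟩
    rw [mu_order r hr χ hχ w (by linarith)] at h6
    refine ⟨by rw [hre, h5]; ring, h3, h4, (hord h4).1 (by exact_mod_cast h6)⟩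
  · rintro ⟨h1, h3, h4, h5⟩
    have h6 : w.re = 0 := by linarith
    refine ⟨⟨by rw [h1]; norm_num, by rw [h1]; norm_num, h3, h4⟩, h6, ?_⟩
    rw [mu_order r hr χ hχ w (by linarith), (hord h4).2 h5]
    norm_num

end Pool.Agent.SD
end

section

set_option autoImplicit false

/-! Task GD: the zeros of a character and of its primitive character. -/

namespace Pool.Agent.SD

open Complex MeasureTheory

/-- GD0. The Euler factors. PROOF. `χ = changeLevel _ χ.primitiveCharacter` (`DirichletCharacter.changeLevel_primitiveCharacter` or similar, see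
SO/A1a.lean), `DirichletCharacter.LFunction_changeLevel`: `L(s, χ) = L(s, χ*) ∏_{p | q} (1 - χ*(p) p^{-s})` for `s ≠ 1`; for `Re s > 0` no factor vanishes
(`‖χ*(p) p^{-s}‖ ≤ p^{-Re s} < 1`); take `E s` = the finite product (an entire function). -/
theorem euler_factor (q : ℕ) [NeZero q] (χ : DirichletCharacter ℂ q) [NeZero χ.conductor] :
    ∃ E : ℂ → ℂ, Differentiable ℂ E ∧ (∀ s : ℂ, 0 < s.re → E s ≠ 0) ∧
      ∀ s : ℂ, s ≠ 1 → χ.LFunction s = χ.primitiveCharacter.LFunction s * E s := by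
  refine ⟨fun s => ∏ p ∈ q.primeFactors, (1 - χ.primitiveCharacter p * (p : ℂ) ^ (-s)), ?_, ?_, ?_⟩
  · apply Differentiable.fun_finsetProd
    intro p hp
    have hp0 : (p : ℂ) ≠ 0 := by
      exact_mod_cast (Nat.prime_of_mem_primeFactors hp).ne_zero
    refine (differentiable_const _).sub ((differentiable_const _).mul ?_)
    exact Differentiable.const_cpow (by fun_prop) (Or.inl hp0)
  · intro s hs
    rw [Finset.prod_ne_zero_iff]
    intro p hp h0
    have hpp := Nat.prime_of_mem_primeFactors hp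
    have h1 : χ.primitiveCharacter p * (p : ℂ) ^ (-s) = 1 := (sub_eq_zero.1 h0).symm
    have h2 : ‖χ.primitiveCharacter p * (p : ℂ) ^ (-s)‖ < 1 := by
      rw [norm_mul, Complex.norm_natCast_cpow_of_pos hpp.pos]
      have h3 : ((p : ℝ) ^ (-s).re) < 1 := by
        apply Real.rpow_lt_one_of_one_lt_of_neg
        · exact_mod_cast hpp.one_lt
        · simpa using hs
      calc ‖χ.primitiveCharacter p‖ * (p : ℝ) ^ (-s).re ≤ 1 * (p : ℝ) ^ (-s).re :=
            mul_le_mul_of_nonneg_right (χ.primitiveCharacter.norm_le_one _) (by positivity)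
        _ < 1 := by rw [one_mul]; exact h3
    rw [h1, norm_one] at h2
    exact lt_irrefl _ h2
  · intro s hs
    have h := DirichletCharacter.LFunction_changeLevel χ.conductor_dvd_level χ.primitiveCharacter (Or.inr hs)
    rw [χ.changeLevel_primitiveCharacter] at h
    exact h

private theorem GD_ev (q : ℕ) [NeZero q] (χ : DirichletCharacter ℂ q) [NeZero χ.conductor] {E : ℂ → ℂ}
    (hE : ∀ s : ℂ, s ≠ 1 → χ.LFunction s = χ.primitiveCharacter.LFunction s * E s) {ρ : ℂ} (hρ : ρ ≠ 1) :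
    χ.LFunction =ᶠ[nhds ρ] χ.primitiveCharacter.LFunction * E := by
  filter_upwards [isOpen_ne.mem_nhds hρ] with s hs
  exact hE s hs

private theorem GD_an {d : ℕ} [NeZero d] (ψ : DirichletCharacter ℂ d) {ρ : ℂ} (hρ : ρ ≠ 1) :
    AnalyticAt ℂ ψ.LFunction ρ := by
  rw [Complex.analyticAt_iff_eventually_differentiableAt]
  filter_upwards [isOpen_ne.mem_nhds hρ] with s hs
  exact DirichletCharacter.differentiableAt_LFunction ψ s (Or.inl hs)

/-- GD1. PROOF. `euler_factor`; near `ρ` with `Re ρ = 1/2` (so `ρ ≠ 1`) both functions are differentiable (`DirichletCharacter.differentiableAt_LFunction`),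
the equation holds near `ρ`, and at a zero of `L(s, χ*)` the derivative of `L(s, χ)` is the derivative of `L(s, χ*)` times `E ρ ≠ 0`. -/
theorem SZ_eq (q : ℕ) [NeZero q] (χ : DirichletCharacter ℂ q) [NeZero χ.conductor] (T : ℝ) :
    SZ χ T = SZ χ.primitiveCharacter T := by
  obtain ⟨E, hEd, hE0, hE⟩ := euler_factor q χ
  ext ρ
  have key : ρ.re = 1 / 2 → (χ.LFunction ρ = 0 ∧ deriv χ.LFunction ρ ≠ 0 ↔
      χ.primitiveCharacter.LFunction ρ = 0 ∧ deriv χ.primitiveCharacter.LFunction ρ ≠ 0) := by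
    intro hre
    have hne : ρ ≠ 1 := by
      rintro rfl
      norm_num at hre
    have hEρ : E ρ ≠ 0 := hE0 ρ (by rw [hre]; norm_num)
    have h1 : χ.LFunction ρ = 0 ↔ χ.primitiveCharacter.LFunction ρ = 0 := by
      rw [hE ρ hne, mul_eq_zero]
      exact ⟨fun h => h.resolve_right hEρ, Or.inl⟩
    have h2 : deriv χ.LFunction ρ = deriv χ.primitiveCharacter.LFunction ρ * E ρ +
        χ.primitiveCharacter.LFunction ρ * deriv E ρ := by
      rw [(GD_ev q χ hE hne).deriv_eq]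
      exact deriv_mul (DirichletCharacter.differentiableAt_LFunction _ ρ (Or.inl hne)) (hEd ρ)
    rw [h1]
    constructor
    · rintro ⟨h3, h4⟩
      refine ⟨h3, fun h5 => h4 ?_⟩
      rw [h2, h3, h5, zero_mul, zero_mul, add_zero]
    · rintro ⟨h3, h4⟩
      refine ⟨h3, fun h5 => ?_⟩
      rw [h2, h3, zero_mul, add_zero, mul_eq_zero] at h5
      rcases h5 with h5 | h5
      · exact h4 h5
      · exact hEρ h5
  constructor
  · rintro ⟨h1, h2, h3, h4⟩
    have h5 := (key h1).1 ⟨h3, h4⟩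
    exact ⟨h1, h2, h5.1, h5.2⟩
  · rintro ⟨h1, h2, h3, h4⟩
    have h5 := (key h1).2 ⟨h3, h4⟩
    exact ⟨h1, h2, h5.1, h5.2⟩

/-- GD2. PROOF. `euler_factor` (`Re ρ < 1` gives `ρ ≠ 1`). -/
theorem AZ_eq (q : ℕ) [NeZero q] (χ : DirichletCharacter ℂ q) [NeZero χ.conductor] (T : ℝ) :
    AZ χ T = AZ χ.primitiveCharacter T := by
  obtain ⟨E, hEd, hE0, hE⟩ := euler_factor q χ
  ext ρ
  have key : 0 < ρ.re → ρ.re < 1 → (χ.LFunction ρ = 0 ↔ χ.primitiveCharacter.LFunction ρ = 0) := by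
    intro h0 h1
    have hne : ρ ≠ 1 := by
      rintro rfl
      norm_num at h1
    rw [hE ρ hne, mul_eq_zero]
    exact ⟨fun h => h.resolve_right (hE0 ρ h0), Or.inl⟩
  constructor
  · rintro ⟨h1, h2, h3, h4⟩
    exact ⟨h1, h2, h3, (key h1 h2).1 h4⟩
  · rintro ⟨h1, h2, h3, h4⟩
    exact ⟨h1, h2, h3, (key h1 h2).2 h4⟩

/-- GD3. PROOF. `analyticOrderAt_congr`, `analyticOrderAt_mul`, the order of `E` at `ρ` is `0` (`AnalyticAt.analyticOrderAt_eq_zero`). -/
theorem order_eq (q : ℕ) [NeZero q] (χ : DirichletCharacter ℂ q) [NeZero χ.conductor] (ρ : ℂ) (h0 : 0 < ρ.re)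
    (h1 : ρ.re < 1) : analyticOrderNatAt χ.LFunction ρ = analyticOrderNatAt χ.primitiveCharacter.LFunction ρ := by
  obtain ⟨E, hEd, hE0, hE⟩ := euler_factor q χ
  have hne : ρ ≠ 1 := by
    rintro rfl
    norm_num at h1
  have hEa : AnalyticAt ℂ E ρ := hEd.analyticAt ρ
  unfold analyticOrderNatAt
  rw [analyticOrderAt_congr (GD_ev q χ hE hne), analyticOrderAt_mul (GD_an _ hne) hEa,
    hEa.analyticOrderAt_eq_zero.2 (hE0 ρ h0), add_zero]

end Pool.Agent.SD
end

section

set_option autoImplicit false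

/-! Task LA: the window on the line; values of the multiplicity. -/

namespace Pool.Agent.SD

open Complex MeasureTheory
open Pool.Agent.SK
open Pool.Agent.SO (prim NN)

/-- LA1. PROOF. For `z.re = 0`: `(z - x i)² = -(z.im - x)²`, so `gz W x z` is the nonnegative real number
`(W/√(2π)) exp(-W² (z.im - x)²/2)` (`Complex.ofReal_exp`); its integral over `[a, b]` is `≥ 0` and at most its integral over `ℝ`, which is
`1` by `gz_full`. (The real part of an integral is the integral of the real part: `Complex.reCLM.intervalIntegral_comp_comm` or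
`integral_re`.) -/
theorem FI_line (W a b : ℝ) (hW : 0 < W) (hab : a ≤ b) (z : ℂ) (hz : z.re = 0) :
    0 ≤ (FI W a b z).re ∧ (FI W a b z).re ≤ 1 := by
  have hz' : z = (z.im : ℂ) * I := by
    apply Complex.ext
    · simp [hz]
    · simp
  set g : ℝ → ℝ := fun x => W / Real.sqrt (2 * Real.pi) * Real.exp (-(W ^ 2 / 2 * (z.im - x) ^ 2)) with hg
  have hgz : ∀ x : ℝ, gz W x z = ((g x : ℝ) : ℂ) := by
    intro x
    unfold gz
    rw [hg]
    simp only
    rw [Complex.ofReal_mul, Complex.ofReal_exp]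
    congr 2
    conv_lhs => rw [hz']
    push_cast
    have hI : I ^ 2 = -1 := Complex.I_sq
    linear_combination ((W : ℂ) ^ 2 / 2 * ((z.im : ℂ) - x) ^ 2) * hI
  have hg0 : ∀ x, 0 ≤ g x := by
    intro x
    rw [hg]
    positivity
  obtain ⟨h1, h2⟩ := gz_full W hW z
  have h3 : Integrable g := by
    have h4 := h1.re
    refine h4.congr (Filter.Eventually.of_forall fun x => ?_)
    simp only
    rw [hgz]
    exact Complex.ofReal_re _
  have h4 : ∫ x : ℝ, g x = 1 := by
    have h5 : (((∫ x : ℝ, g x) : ℝ) : ℂ) = 1 := by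
      rw [← h2, ← integral_complex_ofReal]
      exact integral_congr_ae (Filter.Eventually.of_forall fun x => (hgz x).symm)
    exact_mod_cast h5
  have h5 : FI W a b z = (((∫ x in a..b, g x) : ℝ) : ℂ) := by
    unfold FI
    rw [← intervalIntegral.integral_ofReal]
    exact intervalIntegral.integral_congr fun x _ => hgz x
  rw [h5, Complex.ofReal_re]
  refine ⟨intervalIntegral.integral_nonneg hab fun x _ => hg0 x, ?_⟩
  rw [intervalIntegral.integral_of_le hab, ← h4]
  exact setIntegral_le_integral h3 (Filter.Eventually.of_forall hg0)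

/-- LA2. PROOF. `mu` is a cast natural number `≥ 1` (`one_le_mu`). -/
theorem mu_cases (r : ℕ) [NeZero r] (hr : 2 ≤ r) (χ : DirichletCharacter ℂ r) (hχ : χ ∈ prim r)
    (w : ℂ) (hw : Lam χ w = 0) : mu χ w = 1 ∨ 2 ≤ mu χ w := by
  have h1 := one_le_mu r hr χ hχ w hw
  unfold mu at h1 ⊢
  have h2 : 1 ≤ analyticOrderNatAt (Lam χ) w := by exact_mod_cast h1
  rcases h2.eq_or_lt with h3 | h3
  · left
    rw [← h3]
    norm_num
  · right
    exact_mod_cast h3

/-- LA3. The good zeros in a band do not depend on the height. PROOF. `mem_Z`; `|w.im| ≤ |w.im - u| + |u|`. -/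
theorem band_eq (r : ℕ) [NeZero r] (hr : 2 ≤ r) (χ : DirichletCharacter ℂ r) (hχ : χ ∈ prim r) (T T' h u : ℝ)
    (hT : |u| + h ≤ T) (hT' : |u| + h ≤ T') : NU (GZ χ T) h u = NU (GZ χ T') h u := by
  have hc : ∀ w : ℂ, |w.im - u| ≤ h → |w.im| ≤ |u| + h := by
    intro w hw
    have h1 : |w.im| ≤ |w.im - u| + |u| := by
      have h2 := abs_add_le (w.im - u) u
      rwa [sub_add_cancel] at h2
    linarith
  have hs : (GZ χ T).filter (fun w => |w.im - u| ≤ h) = (GZ χ T').filter (fun w => |w.im - u| ≤ h) := by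
    ext w
    unfold GZ
    simp only [Finset.mem_filter]
    rw [mem_Z r hr χ hχ T w, mem_Z r hr χ hχ T' w]
    constructor
    · rintro ⟨⟨⟨h1, _⟩, h3⟩, h4⟩
      exact ⟨⟨⟨h1, (hc w h4).trans hT'⟩, h3⟩, h4⟩
    · rintro ⟨⟨⟨h1, _⟩, h3⟩, h4⟩
      exact ⟨⟨⟨h1, (hc w h4).trans hT⟩, h3⟩, h4⟩
  unfold NU
  rw [hs]

/-- LA4. PROOF. `NU (GZ χ T) h u` is the number of the `w ∈ Z χ T` with `|w.im - u| ≤ h`, `w.re = 0`, `mu χ w = 1`
(`Finset.filter_filter`, `Finset.filter_comm`-like rearrangement). -/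
theorem NU_eq (r : ℕ) [NeZero r] (χ : DirichletCharacter ℂ r) (T h u : ℝ) :
    NU (GZ χ T) h u =
      ((((Z χ T).filter (fun w => |w.im - u| ≤ h)).filter (fun w => w.re = 0 ∧ mu χ w = 1)).card : ℝ) := by
  have hs : (GZ χ T).filter (fun w => |w.im - u| ≤ h) =
      ((Z χ T).filter (fun w => |w.im - u| ≤ h)).filter (fun w => w.re = 0 ∧ mu χ w = 1) := by
    ext w
    unfold GZ
    simp only [Finset.mem_filter]
    constructor
    · rintro ⟨⟨h1, h2⟩, h3⟩
      exact ⟨⟨h1, h3⟩, h2⟩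
    · rintro ⟨⟨h1, h3⟩, h2⟩
      exact ⟨⟨h1, h2⟩, h3⟩
  unfold NU
  rw [hs]

end Pool.Agent.SD
end

section

set_option autoImplicit false

namespace Pool.Agent.SK

open Complex MeasureTheory
open Pool.Agent.SO (prim NN)
open scoped ComplexConjugate

theorem Z2_conj_anal (g : ℂ → ℂ) (w : ℂ) (hg : AnalyticAt ℂ g w) :
    AnalyticAt ℂ (fun z => conj (g (-conj z))) (-conj w) := by
  rw [analyticAt_iff_eventually_differentiableAt]
  have h1 : ∀ᶠ z in nhds w, DifferentiableAt ℂ g z := by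
    filter_upwards [hg.eventually_analyticAt] with z hz using hz.differentiableAt
  have h2 : ContinuousAt (fun z : ℂ => -conj z) (-conj w) := by
    fun_prop
  have h3 : (fun z : ℂ => -conj z) (-conj w) = w := by simp
  have h4 := h2.eventually (p := fun z => DifferentiableAt ℂ g z) (by
    rw [h3]; exact h1)
  filter_upwards [h4] with z hz
  have h5 : DifferentiableAt ℂ (fun u => g (-u)) (conj z) := by
    exact DifferentiableAt.comp (g := g) (f := fun u : ℂ => -u) (conj z) hz (by fun_prop)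
  have h6 := h5.conj_conj
  rw [Complex.conj_conj] at h6
  exact h6

theorem Z2_order (F E : ℂ → ℂ) (hF : Differentiable ℂ F) (hE : Differentiable ℂ E) (hE0 : ∀ v, E v ≠ 0)
    (h : ∀ v, F (-v) = E v * conj (F (conj v))) (w : ℂ) (n : ℕ) (hn : analyticOrderAt F w = n) :
    analyticOrderAt F (-conj w) = n := by
  obtain ⟨g, hg, hg0, hfg⟩ := ((hF.analyticAt w).analyticOrderAt_eq_natCast).1 hn
  rw [(hF.analyticAt (-conj w)).analyticOrderAt_eq_natCast]
  refine ⟨fun z => (-1) ^ n * (E (-z) * conj (g (-conj z))), ?_, ?_, ?_⟩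
  · have h1 : AnalyticAt ℂ (fun z => E (-z)) (-conj w) := by
      have : Differentiable ℂ (fun z => E (-z)) := hE.comp (by fun_prop)
      exact this.analyticAt _
    exact analyticAt_const.mul (h1.mul (Z2_conj_anal g w hg))
  · refine mul_ne_zero (pow_ne_zero _ (by norm_num)) (mul_ne_zero (hE0 _) ?_)
    rw [map_neg, Complex.conj_conj, neg_neg]
    exact (map_ne_zero _).2 hg0
  · have h2 : ContinuousAt (fun z : ℂ => -conj z) (-conj w) := by
      fun_prop
    have h3 : (fun z : ℂ => -conj z) (-conj w) = w := by simp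
    have h4 := h2.eventually (p := fun z => F z = (z - w) ^ n • g z) (by
      rw [h3]; exact hfg)
    filter_upwards [h4] with z hz
    have h5 := h (-z)
    rw [neg_neg, map_neg, hz] at h5
    rw [h5, smul_eq_mul, smul_eq_mul, map_mul, map_pow, map_sub, map_neg, Complex.conj_conj]
    rw [show -z - conj w = -1 * (z - -conj w) by ring, mul_pow]
    ring

/-- Z2. The multiplicity is symmetric. -/
theorem mu_symm (r : ℕ) [NeZero r] (hr : 2 ≤ r) (χ : DirichletCharacter ℂ r) (hχ : χ ∈ prim r) (w : ℂ) :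
    mu χ (-(starRingEnd ℂ) w) = mu χ w := by
  obtain ⟨hp, hne⟩ := prim_spec r hr χ hχ
  have hent := Lam_entire r hr χ hχ
  have hr0 : (r : ℂ) ≠ 0 := by exact_mod_cast NeZero.ne r
  have hne2 : analyticOrderAt (Lam χ) w ≠ ⊤ := by
    intro h0
    have h3 := (show AnalyticOnNhd ℂ (Lam χ) Set.univ from fun z _ =>
      hent.analyticAt z).eqOn_zero_of_preconnected_of_eventuallyEq_zero isPreconnected_univ
      (Set.mem_univ w) (analyticOrderAt_eq_top.1 h0)
    exact Lam_ne r hr χ hχ 1 (by norm_num) (h3 (Set.mem_univ 1))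
  obtain ⟨n, hn⟩ := ENat.ne_top_iff_exists.1 hne2
  have h1 := Z2_order (Lam χ) (fun v => (r : ℂ) ^ v * DirichletCharacter.rootNumber χ) hent
    (by
      intro v
      refine DifferentiableAt.mul_const ?_ _
      exact differentiableAt_id.const_cpow (Or.inl hr0))
    (by
      intro v
      refine mul_ne_zero ?_ (rootNumber_ne hr χ hp)
      rw [Complex.cpow_def_of_ne_zero hr0]
      exact Complex.exp_ne_zero _)
    (fun v => Lam_neg hr χ hp v) w n hn.symm
  unfold mu analyticOrderNatAt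
  rw [h1, ← hn]

end Pool.Agent.SK
end

section

set_option autoImplicit false

namespace Pool.Agent.SK

open Complex MeasureTheory
open Pool.Agent.SO (prim NN)

/-- C4a. PROOF. Reorder the sum by the involution `w ↦ -conj w` of `Z χ T` (`mem_Z`, `Lam_zero_symm`, `Im (-conj w) = Im w`;
`Finset.sum_nbij'` or `Finset.sum_involution`-style bijection), `mu_symm`, `FI_neg_conj`,
`exp ((-conj w) (-t)) = conj (exp (w t))`. -/
theorem Gu_neg (r : ℕ) [NeZero r] (hr : 2 ≤ r) (χ : DirichletCharacter ℂ r) (hχ : χ ∈ prim r) (T W a b t : ℝ) :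
    Gu χ T W a b (-t) = (starRingEnd ℂ) (Gu χ T W a b t) := by
  have hmem : ∀ w ∈ Z χ T, -(starRingEnd ℂ) w ∈ Z χ T := by
    intro w hw
    rw [mem_Z r hr χ hχ] at hw ⊢
    refine ⟨(Lam_zero_symm hr χ (prim_spec r hr χ hχ).1 w).2 hw.1, ?_⟩
    have : (-(starRingEnd ℂ) w).im = w.im := by simp
    rw [this]
    exact hw.2
  unfold Gu
  rw [map_sum]
  refine Finset.sum_nbij' (fun w => -(starRingEnd ℂ) w) (fun w => -(starRingEnd ℂ) w) hmem hmem ?_ ?_ ?_
  · intro w _
    simp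
  · intro w _
    simp
  · intro w _
    rw [map_mul, map_mul, Complex.conj_ofReal, mu_symm r hr χ hχ w, FI_neg_conj, Complex.conj_conj,
      ← Complex.exp_conj]
    congr 2
    rw [map_mul, Complex.conj_ofReal, map_neg, Complex.conj_conj]
    push_cast
    ring

end Pool.Agent.SK
end

section

set_option autoImplicit false

namespace Pool.Agent.SK

open Complex MeasureTheory
open Pool.Agent.SO (prim NN)

/-- C4b. The zeros out of the band. PROOF. The difference is the sum over the `w` with `|Im w - u| > h + η`: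
`‖FI W (u-h) (u+h) w‖ ≤ e^{-W²η²/2}` (`FI_out`, `W |Re w| ≤ 1`), `‖e^{wt}‖ ≤ e^{|Re w| |t|} ≤ e^{δ₀ Y}`; `mu_nonneg`. -/
theorem out_band (r : ℕ) [NeZero r] (χ : DirichletCharacter ℂ r) (T W u h η δ₀ N Y : ℝ) (hW : 1 ≤ W)
    (hh : 0 ≤ h) (hη : 0 ≤ η) (hδ : ∀ w ∈ Z χ T, |w.re| ≤ δ₀) (hWδ : W * δ₀ ≤ 1)
    (hN : ∑ w ∈ Z χ T, mu χ w ≤ N) (t : ℝ) (ht : |t| ≤ Y) :
    ‖Gu χ T W (u - h) (u + h) t - ∑ w ∈ (Z χ T).filter (fun w => |w.im - u| ≤ h + η),
      ((mu χ w : ℂ) * FI W (u - h) (u + h) w) * Complex.exp (w * t)‖ ≤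
      N * Real.exp (-(W ^ 2 * η ^ 2 / 2) + δ₀ * Y) := by
  classical
  have hW0 : 0 < W := by linarith
  have hsplit : Gu χ T W (u - h) (u + h) t - ∑ w ∈ (Z χ T).filter (fun w => |w.im - u| ≤ h + η),
      ((mu χ w : ℂ) * FI W (u - h) (u + h) w) * Complex.exp (w * t) =
      ∑ w ∈ (Z χ T).filter (fun w => ¬ |w.im - u| ≤ h + η),
      ((mu χ w : ℂ) * FI W (u - h) (u + h) w) * Complex.exp (w * t) := by
    unfold Gu
    rw [← Finset.sum_filter_add_sum_filter_not (Z χ T) (fun w => |w.im - u| ≤ h + η)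
      (fun w => ((mu χ w : ℂ) * FI W (u - h) (u + h) w) * Complex.exp (w * t))]
    ring
  rw [hsplit]
  refine (norm_sum_le _ _).trans ?_
  have hE : 0 ≤ Real.exp (-(W ^ 2 * η ^ 2 / 2) + δ₀ * Y) := (Real.exp_pos _).le
  have hterm : ∀ w ∈ (Z χ T).filter (fun w => ¬ |w.im - u| ≤ h + η),
      ‖((mu χ w : ℂ) * FI W (u - h) (u + h) w) * Complex.exp (w * t)‖ ≤
      mu χ w * Real.exp (-(W ^ 2 * η ^ 2 / 2) + δ₀ * Y) := by
    intro w hw
    rw [Finset.mem_filter] at hw
    have hd := hδ w hw.1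
    have hmu : 0 ≤ mu χ w := mu_nonneg r χ w
    have hz : W * |w.re| ≤ 1 := le_trans (mul_le_mul_of_nonneg_left hd hW0.le) hWδ
    have hfi : ‖FI W (u - h) (u + h) w‖ ≤ Real.exp (-(W ^ 2 * η ^ 2 / 2)) := by
      refine FI_out W (u - h) (u + h) η hW0 (by linarith) hη w hz ?_
      have h2 := hw.2
      rw [abs_le, not_and_or] at h2
      rcases h2 with h2 | h2
      · left; push Not at h2; linarith
      · right; push Not at h2; linarith
    have hexp : ‖Complex.exp (w * t)‖ ≤ Real.exp (δ₀ * Y) := by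
      rw [Complex.norm_exp]
      apply Real.exp_le_exp.2
      have e : (w * (t : ℂ)).re = w.re * t := by simp
      rw [e]
      refine (le_abs_self _).trans ?_
      rw [abs_mul]
      exact mul_le_mul hd ht (abs_nonneg _) ((abs_nonneg _).trans hd)
    rw [norm_mul, norm_mul, Complex.norm_real, Real.norm_of_nonneg hmu, Real.exp_add, mul_assoc]
    refine mul_le_mul_of_nonneg_left ?_ hmu
    exact mul_le_mul hfi hexp (norm_nonneg _) (Real.exp_pos _).le
  refine (Finset.sum_le_sum hterm).trans ?_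
  rw [← Finset.sum_mul]
  refine mul_le_mul_of_nonneg_right ?_ hE
  refine le_trans (Finset.sum_le_sum_of_subset_of_nonneg (Finset.filter_subset _ _) ?_) hN
  intro w _ _
  exact mu_nonneg r χ w

end Pool.Agent.SK
end

section

set_option autoImplicit false

/-! Part A: `PX` is continuous; Cauchy-Schwarz and the mean square of `PX`. -/

namespace Pool.Agent.SK

open Complex MeasureTheory
open Pool.Agent.EM (psiC)
open Pool.Agent.SO (prim NN)

/-- `exp(v/2 - v²/(8W²))` is integrable on `(0, ∞)` -/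
theorem gauss_integrable (b c : ℝ) (hb : 0 < b) :
    Integrable (fun v : ℝ => Real.exp (c * v) * Real.exp (-(b * v ^ 2))) := by
  have h := integrable_exp_neg_mul_sq (b := b) hb
  have h2 := (h.comp_sub_right (c / (2 * b))).const_mul (Real.exp (c ^ 2 / (4 * b)))
  refine h2.congr (Filter.Eventually.of_forall fun v => ?_)
  show Real.exp (c ^ 2 / (4 * b)) * Real.exp (-b * (v - c / (2 * b)) ^ 2) =
    Real.exp (c * v) * Real.exp (-(b * v ^ 2))
  rw [← Real.exp_add, ← Real.exp_add]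
  congr 1
  field_simp
  ring

theorem gk_shift_le (W x t v X T : ℝ) (hW : 1 ≤ W) (hx : |x| ≤ X) (ht : |t| ≤ T) :
    ‖gk W x (t - v)‖ ≤ (2 + X) * Real.exp (T ^ 2) * Real.exp (-(1 / (8 * W ^ 2) * v ^ 2)) := by
  refine (gk_le W x (t - v) hW).trans ?_
  have hW0 : 0 < W := by linarith
  have hX : 0 ≤ X := (abs_nonneg x).trans hx
  rw [mul_assoc, ← Real.exp_add]
  gcongr
  have h1 : t ^ 2 ≤ T ^ 2 := by rw [← sq_abs t]; gcongr
  have h2 : v ^ 2 / 2 ≤ (t - v) ^ 2 + t ^ 2 := by nlinarith [sq_nonneg (2 * t - v)]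
  have h3 : t ^ 2 / (4 * W ^ 2) ≤ T ^ 2 := by
    rw [div_le_iff₀ (by positivity)]
    have : 1 ≤ 4 * W ^ 2 := by nlinarith
    nlinarith [sq_nonneg T]
  have h4 : (v ^ 2 / 2) / (4 * W ^ 2) ≤ ((t - v) ^ 2 + t ^ 2) / (4 * W ^ 2) := by gcongr
  have h5 : (v ^ 2 / 2) / (4 * W ^ 2) = 1 / (8 * W ^ 2) * v ^ 2 := by field_simp; ring
  rw [h5, add_div] at h4
  linarith

theorem PX_integrand_measurable {q : ℕ} (χ : DirichletCharacter ℂ q) (W x t : ℝ) (hW : 1 ≤ W) :
    AEStronglyMeasurable (fun v => ff χ v * gk W x (t - v)) (volume.restrict (Set.Ioi (0 : ℝ))) := by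
  have h1 : Continuous (fun v : ℝ => gk W x (t - v)) :=
    (gk_continuous W hW).comp (by fun_prop : Continuous fun v : ℝ => (x, t - v))
  exact ((ff_measurable χ).mul h1.measurable).aestronglyMeasurable

theorem PX_dom {q : ℕ} (χ : DirichletCharacter ℂ q) (W x t v X T : ℝ) (hW : 1 ≤ W) (hx : |x| ≤ X)
    (ht : |t| ≤ T) : ‖ff χ v * gk W x (t - v)‖ ≤ 6 * ((2 + X) * Real.exp (T ^ 2)) *
      (Real.exp (1 / 2 * v) * Real.exp (-(1 / (8 * W ^ 2) * v ^ 2))) := by
  rw [norm_mul]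
  have h1 := ff_le χ v
  have h2 := gk_shift_le W x t v X T hW hx ht
  calc ‖ff χ v‖ * ‖gk W x (t - v)‖ ≤ (6 * Real.exp (v / 2)) *
        ((2 + X) * Real.exp (T ^ 2) * Real.exp (-(1 / (8 * W ^ 2) * v ^ 2))) := by gcongr
    _ = _ := by rw [show v / 2 = 1 / 2 * v by ring]; ring

theorem PX_integrable {q : ℕ} (χ : DirichletCharacter ℂ q) (W x t : ℝ) (hW : 1 ≤ W) :
    IntegrableOn (fun v => ff χ v * gk W x (t - v)) (Set.Ioi (0 : ℝ)) := by
  have hW0 : 0 < W := by linarith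
  refine Integrable.mono' (((gauss_integrable (1 / (8 * W ^ 2)) (1 / 2) (by positivity)).const_mul
    (6 * ((2 + |x|) * Real.exp (|t| ^ 2)))).integrableOn) (PX_integrand_measurable χ W x t hW)
    (Filter.Eventually.of_forall fun v => PX_dom χ W x t v |x| |t| hW le_rfl le_rfl)

theorem PX_cont_ge {q : ℕ} (χ : DirichletCharacter ℂ q) (W : ℝ) (hW : 1 ≤ W) :
    Continuous (fun p : ℝ × ℝ => PX χ W p.1 p.2) := by
  rw [continuous_iff_continuousAt]
  intro p
  unfold PX
  have hW0 : 0 < W := by linarith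
  refine continuousAt_of_dominated
    (bound := fun v => 6 * ((2 + (|p.1| + 1)) * Real.exp ((|p.2| + 1) ^ 2)) *
      (Real.exp (1 / 2 * v) * Real.exp (-(1 / (8 * W ^ 2) * v ^ 2)))) ?_ ?_ ?_ ?_
  · exact Filter.Eventually.of_forall fun p' => PX_integrand_measurable χ W p'.1 p'.2 hW
  · have h1 : ∀ᶠ p' : ℝ × ℝ in nhds p, dist p' p < 1 := Metric.ball_mem_nhds p one_pos
    filter_upwards [h1] with p' hp'
    refine Filter.Eventually.of_forall fun v => PX_dom χ W p'.1 p'.2 v _ _ hW ?_ ?_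
    · have h2 : |p'.1 - p.1| ≤ dist p' p := by
        rw [Prod.dist_eq, ← Real.dist_eq]; exact le_max_left _ _
      have h3 := abs_sub_abs_le_abs_sub p'.1 p.1
      linarith
    · have h2 : |p'.2 - p.2| ≤ dist p' p := by
        rw [Prod.dist_eq, ← Real.dist_eq]; exact le_max_right _ _
      have h3 := abs_sub_abs_le_abs_sub p'.2 p.2
      linarith
  · exact ((gauss_integrable (1 / (8 * W ^ 2)) (1 / 2) (by positivity)).const_mul _).integrableOn
  · refine Filter.Eventually.of_forall fun v => ?_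
    refine ContinuousAt.mul continuousAt_const ?_
    exact ((gk_continuous W hW).comp (by fun_prop : Continuous fun p' : ℝ × ℝ => (p'.1, p'.2 - v))).continuousAt

/-- Cauchy-Schwarz -/
theorem cs_integral {α : Type*} [MeasurableSpace α] (μ : Measure α) (f g : α → ℂ) (A B : ℝ)
    (hA : 0 < A)
    (h0 : Integrable (fun v => f v * g v) μ)
    (h1 : Integrable (fun v => ‖g v‖) μ) (h2 : Integrable (fun v => ‖f v‖ ^ 2 * ‖g v‖) μ)
    (hgA : ∫ v, ‖g v‖ ∂μ ≤ A) (hfB : ∫ v, ‖f v‖ ^ 2 * ‖g v‖ ∂μ ≤ B) :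
    ‖∫ v, f v * g v ∂μ‖ ^ 2 ≤ A * B := by
  have hB : 0 ≤ B := le_trans (integral_nonneg fun v => by positivity) hfB
  set Q := ‖∫ v, f v * g v ∂μ‖ with hQ
  have hQ0 : 0 ≤ Q := norm_nonneg _
  -- for every l > 0: 2 Q ≤ l A + B / l
  have key : ∀ l : ℝ, 0 < l → 2 * Q * l ≤ l ^ 2 * A + B := by
    intro l hl
    have e1 : Q ≤ ∫ v, ‖f v‖ * ‖g v‖ ∂μ := by
      refine (norm_integral_le_integral_norm _).trans (le_of_eq ?_)
      exact integral_congr_ae (Filter.Eventually.of_forall fun v => norm_mul _ _)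
    have e2 : 2 * l * ∫ v, ‖f v‖ * ‖g v‖ ∂μ ≤ l ^ 2 * ∫ v, ‖g v‖ ∂μ + ∫ v, ‖f v‖ ^ 2 * ‖g v‖ ∂μ := by
      rw [← integral_const_mul, ← integral_const_mul, ← integral_add (h1.const_mul _) h2]
      refine integral_mono ?_ ((h1.const_mul _).add h2) fun v => ?_
      · have := h0.norm.const_mul (2 * l)
        refine this.congr (Filter.Eventually.of_forall fun v => ?_)
        show 2 * l * ‖f v * g v‖ = 2 * l * (‖f v‖ * ‖g v‖)
        rw [norm_mul]
      · show 2 * l * (‖f v‖ * ‖g v‖) ≤ l ^ 2 * ‖g v‖ + ‖f v‖ ^ 2 * ‖g v‖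
        have h3 := mul_nonneg (sq_nonneg (l - ‖f v‖)) (norm_nonneg (g v))
        nlinarith
    nlinarith
  by_cases hQz : Q = 0
  · rw [hQz]
    have := mul_nonneg hA.le hB
    simpa using this
  · have hQp : 0 < Q := lt_of_le_of_ne hQ0 (Ne.symm hQz)
    have h3 := key (Q / A) (by positivity)
    have h4 : 2 * Q * (Q / A) = 2 * Q ^ 2 / A := by ring
    have h5 : (Q / A) ^ 2 * A = Q ^ 2 / A := by field_simp
    rw [h4, h5] at h3
    have h6 : Q ^ 2 / A ≤ B := by
      have : 2 * Q ^ 2 / A = Q ^ 2 / A + Q ^ 2 / A := by ring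
      linarith
    rw [div_le_iff₀ hA] at h6
    linarith

end Pool.Agent.SK
end

section

set_option autoImplicit false

/-! Part E: the averaged Plancherel bound for the Chebyshev functions. -/

namespace Pool.Agent.SK

open Complex MeasureTheory
open Pool.Agent.EM (psiC V psi)

theorem PU_eq {q : ℕ} (χ : DirichletCharacter ℂ q) (W a b t : ℝ) :
    PU χ W a b t = E.PP (ff χ) W a b t := rfl

/-- an integral of a nonnegative function is at most its `lintegral` -/
theorem integral_le_of_lintegral_le {α : Type*} [MeasurableSpace α] (μ : Measure α) (F : α → ℝ)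
    (hF : 0 ≤ᵐ[μ] F) {B : ℝ} (hB : 0 ≤ B) (h : ∫⁻ x, ENNReal.ofReal (F x) ∂μ ≤ ENNReal.ofReal B) :
    ∫ x, F x ∂μ ≤ B := by
  by_cases hi : Integrable F μ
  · rw [← ofReal_integral_eq_lintegral_ofReal hi hF] at h
    exact (ENNReal.ofReal_le_ofReal_iff hB).1 h
  · rw [integral_undef hi]; exact hB

theorem ofReal_integral_le {α : Type*} [MeasurableSpace α] (μ : Measure α) (F : α → ℝ)
    (hF : 0 ≤ᵐ[μ] F) : ENNReal.ofReal (∫ x, F x ∂μ) ≤ ∫⁻ x, ENNReal.ofReal (F x) ∂μ := by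
  by_cases hi : Integrable F μ
  · rw [← ofReal_integral_eq_lintegral_ofReal hi hF]
  · rw [integral_undef hi]; simp

theorem err_small (A : ℝ) (hA : 0 ≤ A) : ∃ Y₀ : ℝ, 1 ≤ Y₀ ∧ ∀ Y : ℝ, Y₀ ≤ Y →
    A * (Y ^ 2 * Real.exp (-(1 / 2) * Y)) ≤ 1 := by
  have h1 : Filter.Tendsto (fun Y : ℝ => A * (Y ^ 2 * Real.exp (-(1 / 2) * Y))) Filter.atTop
      (nhds (A * 0)) := by
    refine Filter.Tendsto.const_mul A ?_
    have h2 := Real.tendsto_pow_mul_exp_neg_atTop_nhds_zero 2
    have h3 : Filter.Tendsto (fun Y : ℝ => (1 / 2) * Y) Filter.atTop Filter.atTop :=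
      Filter.Tendsto.const_mul_atTop (by norm_num) Filter.tendsto_id
    have h4 := (h2.comp h3).const_mul 4
    rw [mul_zero] at h4
    refine h4.congr fun Y => ?_
    simp only [Function.comp]
    rw [show -(1 / 2) * Y = -(1 / 2 * Y) by ring]
    ring
  rw [mul_zero] at h1
  have h5 := (h1.eventually (gt_mem_nhds (show (0 : ℝ) < 1 by norm_num))).and
    (Filter.eventually_ge_atTop (1 : ℝ))
  obtain ⟨Y₀, hY₀⟩ := Filter.eventually_atTop.1 h5
  refine ⟨max Y₀ 1, le_max_right _ _, fun Y hY => ?_⟩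
  exact (hY₀ Y ((le_max_left _ _).trans hY)).1.le

theorem plancherel_avg (h δ T₀ : ℝ) (hh : 0 < h) (hh1 : h ≤ 1) (hδ : 0 < δ) (hT : 0 < T₀) :
    ∃ W₀ : ℝ, 1 ≤ W₀ ∧ ∀ W Y Y' : ℝ, W₀ ≤ W → W ^ 2 ≤ Y → Y + 2 * W * Real.sqrt Y ≤ Y' →
      ∀ (q : ℕ) [NeZero q] (χ : DirichletCharacter ℂ q),
      ∫ u in (-T₀)..T₀, 1 / (1 / 4 + u ^ 2) *
          ∫ t in (0 : ℝ)..Y, (1 - t / Y) * ‖PU χ W (u - h) (u + h) t‖ ^ 2
        ≤ (2 * h * (1 + 12 * h) + δ) * (Y' / Y) * DD χ Y' + 1 := by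
  obtain ⟨C, hC, H⟩ := E.avg_main T₀ hT
  set κ : ℝ := min 1 (δ / 88) with hκ
  have hκ0 : 0 < κ := lt_min (by norm_num) (by positivity)
  have hκ1 : κ ≤ δ / 88 := min_le_right _ _
  obtain ⟨Y₀, hY₀1, hY₀⟩ := err_small ((1 + 1 / κ) * (8 * T₀) * C ^ 2) (by positivity)
  refine ⟨max Y₀ (40 / δ), le_max_of_le_left hY₀1, ?_⟩
  intro W Y Y' hW hWY hYY' q _ χ
  have hW1 : 1 ≤ W := hY₀1.trans ((le_max_left _ _).trans hW)
  have hW0 : 0 < W := by linarith
  have hWδ : 40 / δ ≤ W := (le_max_right _ _).trans hW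
  have hWY' : W ≤ Y := by nlinarith
  have hY0 : 0 < Y := by linarith
  have hYY : Y ≤ Y' := by
    have : 0 ≤ 2 * W * Real.sqrt Y := by positivity
    linarith
  have hY'0 : 0 < Y' := by linarith
  have hmain := H (ff χ) (ff_measurable χ) (fun v _ => ff_le χ v) W Y Y' h κ hW1 hWY hYY' hh.le hh1
    hκ0
  -- the main term
  have hDD : ∫ t in Set.Ioc 0 Y', (1 - t / Y') * ‖ff χ t‖ ^ 2 = DD χ Y' := by
    unfold DD
    rw [intervalIntegral.integral_of_le hY'0.le]
  have hDD0 : 0 ≤ DD χ Y' := by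
    rw [← hDD]
    refine setIntegral_nonneg measurableSet_Ioc fun t ht => ?_
    have : t / Y' ≤ 1 := (div_le_one hY'0).2 ht.2
    have : 0 ≤ 1 - t / Y' := by linarith
    positivity
  rw [hDD] at hmain
  have hB : (1 + κ) * (2 * h * (1 + 10 * h + 10 / W)) * (Y' / Y) * DD χ Y' +
      (1 + 1 / κ) * (8 * T₀) * Y * (C * W * Real.exp (-(1 / 4) * Y)) ^ 2 ≤
      (2 * h * (1 + 12 * h) + δ) * (Y' / Y) * DD χ Y' + 1 := by
    have e1 : (1 + κ) * (2 * h * (1 + 10 * h + 10 / W)) ≤ 2 * h * (1 + 12 * h) + δ := by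
      have h10 : 10 / W ≤ δ / 4 := by
        rw [div_le_iff₀ hW0]
        have : 40 / δ * δ = 40 := by field_simp
        nlinarith
      have h11 : 10 / W ≤ 10 := by
        rw [div_le_iff₀ hW0]; linarith
      have h12 : 0 ≤ 10 / W := by positivity
      set w := 10 / W with hw
      have h13 : 2 * h * (1 + 10 * h + w) ≤ 42 := by nlinarith
      have h14 : 0 ≤ 2 * h * (1 + 10 * h + w) := by positivity
      have h15 : κ * (2 * h * (1 + 10 * h + w)) ≤ δ / 2 := by
        calc κ * (2 * h * (1 + 10 * h + w)) ≤ (δ / 88) * 42 :=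
              mul_le_mul hκ1 h13 h14 (by positivity)
          _ ≤ δ / 2 := by linarith
      have h16 : 2 * h * w ≤ δ / 2 := by nlinarith
      nlinarith
    have e2 : (1 + κ) * (2 * h * (1 + 10 * h + 10 / W)) * (Y' / Y) * DD χ Y' ≤
        (2 * h * (1 + 12 * h) + δ) * (Y' / Y) * DD χ Y' := by
      gcongr
    have e3 : (1 + 1 / κ) * (8 * T₀) * Y * (C * W * Real.exp (-(1 / 4) * Y)) ^ 2 ≤ 1 := by
      have e4 : (1 + 1 / κ) * (8 * T₀) * Y * (C * W * Real.exp (-(1 / 4) * Y)) ^ 2 =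
          (1 + 1 / κ) * (8 * T₀) * C ^ 2 * (Y * W ^ 2 * Real.exp (-(1 / 2) * Y)) := by
        have : Real.exp (-(1 / 2) * Y) = Real.exp (-(1 / 4) * Y) ^ 2 := by
          rw [← Real.exp_nat_mul]; congr 1; push_cast; ring
        rw [this]; ring
      rw [e4]
      refine le_trans ?_ (hY₀ Y ((le_max_left _ _).trans (hW.trans hWY')))
      refine mul_le_mul_of_nonneg_left ?_ (by positivity)
      refine mul_le_mul_of_nonneg_right ?_ (Real.exp_pos _).le
      rw [sq Y]
      exact mul_le_mul_of_nonneg_left hWY hY0.le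
    linarith
  have hRpos : 0 ≤ (2 * h * (1 + 12 * h) + δ) * (Y' / Y) * DD χ Y' + 1 := by positivity
  have hmain2 := hmain.trans (ENNReal.ofReal_le_ofReal hB)
  rw [intervalIntegral.integral_of_le (by linarith)]
  refine integral_le_of_lintegral_le _ _ ?_ hRpos (le_trans ?_ hmain2)
  · refine Filter.Eventually.of_forall fun u => ?_
    simp only [Pi.zero_apply]
    rw [intervalIntegral.integral_of_le hY0.le]
    refine mul_nonneg (by positivity) (setIntegral_nonneg measurableSet_Ioc fun t ht => ?_)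
    have : t / Y ≤ 1 := (div_le_one hY0).2 ht.2
    have : 0 ≤ 1 - t / Y := by linarith
    positivity
  · refine lintegral_mono fun u => ?_
    rw [ENNReal.ofReal_mul (by positivity), intervalIntegral.integral_of_le hY0.le]
    refine mul_le_mul_right ?_ _
    refine (ofReal_integral_le _ _ ?_).trans ?_
    · rw [Filter.EventuallyLE, ae_restrict_iff' measurableSet_Ioc]
      refine Filter.Eventually.of_forall fun t ht => ?_
      have : t / Y ≤ 1 := (div_le_one hY0).2 ht.2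
      have : 0 ≤ 1 - t / Y := by linarith
      simp only [Pi.zero_apply]
      positivity
    · refine lintegral_mono fun t => ?_
      rw [ENNReal.ofReal_mul' (by positivity), PU_eq]

end Pool.Agent.SK
end
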