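import Mathlib
import Pool.Agent.Lib.MP_9cfc0a_nt.SK.R3B

section

set_option autoImplicit false

/-! Orthonormal systems of exponential sums (copied from SK/Key.lean, where these lemmas are private). -/

namespace Pool.Agent.SD

open Complex MeasureTheory intervalIntegral
open scoped ComplexConjugate

/-- double integral of an even function of the difference -/
theorem key_double (Y : ℝ) (hY : 0 < Y) (F : ℝ → ℝ) (hF : Continuous F)
    (hs : ∀ t, 0 ≤ t → t ≤ Y → F (-t) = F t) :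
    ∫ s in (0 : ℝ)..Y, ∫ s' in (0 : ℝ)..Y, F (s - s') = 2 * Y * ∫ t in (0 : ℝ)..Y, (1 - t / Y) * F t := by
  have hI : ∀ a b : ℝ, IntervalIntegrable F volume a b := fun a b => hF.intervalIntegrable a b
  set Φ : ℝ → ℝ := fun s => ∫ t in (0 : ℝ)..s, F t with hΦ
  have hΦd : ∀ s, HasDerivAt Φ (F s) s := fun s =>
    integral_hasDerivAt_right (hI 0 s) hF.aestronglyMeasurable.stronglyMeasurableAtFilter
      hF.continuousAt
  have hΦc : Continuous Φ := continuous_iff_continuousAt.2 fun s => (hΦd s).continuousAt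
  have hin : ∀ s ∈ Set.uIcc (0 : ℝ) Y, ∫ s' in (0 : ℝ)..Y, F (s - s') = Φ s + Φ (Y - s) := by
    intro s hs0
    rw [Set.uIcc_of_le hY.le] at hs0
    rw [integral_comp_sub_left (fun t => F t) s, sub_zero]
    rw [← integral_add_adjacent_intervals (hI (s - Y) 0) (hI 0 s)]
    have e : ∫ t in (s - Y)..0, F t = Φ (Y - s) := by
      have e1 : ∫ t in (0 : ℝ)..(Y - s), F (-t) = ∫ t in (s - Y)..0, F t := by
        rw [integral_comp_neg (fun t => F t)]
        simp
      rw [← e1, hΦ]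
      refine integral_congr fun t ht => ?_
      rw [Set.uIcc_of_le (by linarith [hs0.2])] at ht
      exact hs t ht.1 (by linarith [ht.2, hs0.1])
    rw [e]; ring
  rw [integral_congr hin]
  have hΦI : IntervalIntegrable Φ volume 0 Y := hΦc.intervalIntegrable _ _
  have hΦI2 : IntervalIntegrable (fun s => Φ (Y - s)) volume 0 Y :=
    (hΦc.comp (continuous_const.sub continuous_id)).intervalIntegrable _ _
  rw [integral_add hΦI hΦI2, integral_comp_sub_left (fun s => Φ s) Y]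
  simp only [sub_self, sub_zero]
  have hparts : ∫ s in (0 : ℝ)..Y, Φ s = ∫ t in (0 : ℝ)..Y, (Y - t) * F t := by
    have h1 := integral_mul_deriv_eq_deriv_mul (a := 0) (b := Y) (u := fun t => Y - t) (v := Φ)
      (u' := fun _ => -1) (v' := F)
      (fun x _ => by simpa using (hasDerivAt_id x).const_sub Y) (fun x _ => hΦd x)
      (by simp) (hI 0 Y)
    have h0 : Φ 0 = 0 := by simp [hΦ]
    rw [h1, h0]
    simp
  have hfin : ∫ t in (0 : ℝ)..Y, (Y - t) * F t = Y * ∫ t in (0 : ℝ)..Y, (1 - t / Y) * F t := by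
    rw [← intervalIntegral.integral_const_mul]
    refine integral_congr fun t _ => ?_
    show (Y - t) * F t = Y * ((1 - t / Y) * F t)
    field_simp
  rw [hparts, hfin]
  ring

theorem key_memLp (Y : ℝ) (g : ℝ → ℂ) (hg : Continuous g) :
    MemLp g 2 (volume.restrict (Set.Ioc 0 Y)) := by
  rw [memLp_two_iff_integrable_sq_norm hg.aestronglyMeasurable]
  exact (by fun_prop : Continuous fun x => ‖g x‖ ^ 2).integrableOn_Ioc

noncomputable def ct (Y : ℝ) (g : ℝ → ℂ) (hg : Continuous g) :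
    Lp ℂ 2 (volume.restrict (Set.Ioc (0 : ℝ) Y)) := (key_memLp Y g hg).toLp g

theorem inner_ct (Y : ℝ) (hY : 0 < Y) (f g : ℝ → ℂ) (hf : Continuous f) (hg : Continuous g) :
    inner ℂ (ct Y f hf) (ct Y g hg) = ∫ s in (0 : ℝ)..Y, conj (f s) * g s := by
  rw [L2.inner_def, integral_of_le hY.le]
  refine integral_congr_ae ?_
  filter_upwards [(key_memLp Y f hf).coeFn_toLp, (key_memLp Y g hg).coeFn_toLp] with s h1 h2
  show inner ℂ ((ct Y f hf) s) ((ct Y g hg) s) = _
  unfold ct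
  rw [h1, h2, RCLike.inner_apply']

theorem norm_sq_ct (Y : ℝ) (hY : 0 < Y) (f : ℝ → ℂ) (hf : Continuous f) :
    ‖ct Y f hf‖ ^ 2 = ∫ s in (0 : ℝ)..Y, ‖f s‖ ^ 2 := by
  have h := inner_self_eq_norm_sq_to_K (𝕜 := ℂ) (ct Y f hf)
  rw [inner_ct Y hY] at h
  have h2 : ∫ s in (0 : ℝ)..Y, conj (f s) * f s = ((∫ s in (0 : ℝ)..Y, ‖f s‖ ^ 2 : ℝ) : ℂ) := by
    rw [← intervalIntegral.integral_ofReal]
    refine integral_congr fun s _ => ?_
    show conj (f s) * f s = ((‖f s‖ ^ 2 : ℝ) : ℂ)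
    rw [Complex.conj_mul']
    push_cast
    rfl
  rw [h2] at h
  have h3 : ((∫ s in (0 : ℝ)..Y, ‖f s‖ ^ 2 : ℝ) : ℂ) = ((‖ct Y f hf‖ ^ 2 : ℝ) : ℂ) := by
    rw [h]; push_cast; rfl
  exact (Complex.ofReal_injective h3).symm

theorem ct_congr (Y : ℝ) {f g : ℝ → ℂ} (hf : Continuous f) (hg : Continuous g)
    (h : ∀ s, f s = g s) : ct Y f hf = ct Y g hg := by
  have : f = g := funext h
  subst this
  rfl

theorem ct_zero (Y : ℝ) : ct Y (fun _ => 0) continuous_const = 0 := by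
  unfold ct
  exact MemLp.toLp_zero _

theorem ct_add (Y : ℝ) (f g : ℝ → ℂ) (hf : Continuous f) (hg : Continuous g) :
    ct Y (fun s => f s + g s) (hf.add hg) = ct Y f hf + ct Y g hg := by
  unfold ct
  exact MemLp.toLp_add _ _

theorem ct_smul (Y : ℝ) (a : ℂ) (f : ℝ → ℂ) (hf : Continuous f) :
    ct Y (fun s => a * f s) (continuous_const.mul hf) = a • ct Y f hf := by
  unfold ct
  exact MemLp.toLp_const_smul a _

theorem ct_sum {ι : Type*} (Y : ℝ) (S : Finset ι) (a : ι → ℂ) (f : ι → ℝ → ℂ)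
    (hf : ∀ i, Continuous (f i)) :
    ct Y (fun s => ∑ i ∈ S, a i * f i s) (continuous_finsetSum _ fun i _ => continuous_const.mul (hf i))
      = ∑ i ∈ S, a i • ct Y (f i) (hf i) := by
  classical
  induction S using Finset.induction_on with
  | empty =>
    rw [Finset.sum_empty, ← ct_zero Y]
    exact ct_congr _ _ _ fun s => by simp
  | insert j S hj ih =>
    rw [Finset.sum_insert hj, ← ih, ← ct_smul, ← ct_add]
    exact ct_congr _ _ _ fun s => by rw [Finset.sum_insert hj]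

/-- An orthonormal system of exponential sums which spans the exponentials. -/
theorem key_basis (Y : ℝ) (hY : 0 < Y) (S : Finset ℂ) : ∃ (r : ℕ) (e : Fin r → ℝ → ℂ),
    r ≤ S.card ∧ (∀ i, Continuous (e i)) ∧
    (∀ i, ∫ s in (0 : ℝ)..Y, ‖e i s‖ ^ 2 = 1) ∧
    (∀ g : ℝ → ℂ, Continuous g →
      ∑ i, ‖∫ s in (0 : ℝ)..Y, g s * e i s‖ ^ 2 ≤ ∫ s in (0 : ℝ)..Y, ‖g s‖ ^ 2) ∧
    (∀ z ∈ S, ∀ g : ℝ → ℂ, Continuous g →
      ∑ i, (∫ s in (0 : ℝ)..Y, g s * e i s) * (∫ s in (0 : ℝ)..Y, conj (e i s) * exp (z * s)) =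
        ∫ s in (0 : ℝ)..Y, g s * exp (z * s)) := by
  classical
  have hcu : ∀ z : ℂ, Continuous fun s : ℝ => exp (z * s) := fun z => by fun_prop
  set u : ℂ → Lp ℂ 2 (volume.restrict (Set.Ioc (0 : ℝ) Y)) := fun z => ct Y _ (hcu z) with hu
  set W := Submodule.span ℂ (((S.image u : Finset _)) : Set (Lp ℂ 2 (volume.restrict (Set.Ioc (0 : ℝ) Y)))) with hW
  have : FiniteDimensional ℂ W := FiniteDimensional.span_finset ℂ _
  set b := stdOrthonormalBasis ℂ W with hb
  have hex : ∀ i : Fin (Module.finrank ℂ W), ∃ (g : ℝ → ℂ) (hg : Continuous g),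
      ct Y g hg = (b i : Lp ℂ 2 (volume.restrict (Set.Ioc (0 : ℝ) Y))) := by
    intro i
    have hi : ((b i : W) : Lp ℂ 2 (volume.restrict (Set.Ioc (0 : ℝ) Y))) ∈
        Submodule.span ℂ (((S.image u : Finset _)) : Set (Lp ℂ 2 (volume.restrict (Set.Ioc (0 : ℝ) Y)))) := (b i).2
    rw [Finset.coe_image, Submodule.mem_span_image_finset_iff_exists_fun] at hi
    obtain ⟨c, hc⟩ := hi
    refine ⟨fun s => ∑ z : S, c z * exp (z * s), by fun_prop, ?_⟩
    rw [← hc]
    exact ct_sum Y Finset.univ (fun z : S => c z) (fun (z : S) s => exp (z * s)) fun z => hcu z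
  choose e he heb using hex
  have hon : Orthonormal ℂ (fun i => ((b i : W) : Lp ℂ 2 (volume.restrict (Set.Ioc (0 : ℝ) Y)))) :=
    b.orthonormal.comp_linearIsometry W.subtypeₗᵢ
  have hinn : ∀ (i : Fin (Module.finrank ℂ W)) (g : ℝ → ℂ) (hg : Continuous g),
      inner ℂ (ct Y (fun s => conj (g s)) (Complex.continuous_conj.comp hg))
        ((b i : W) : Lp ℂ 2 (volume.restrict (Set.Ioc (0 : ℝ) Y))) = ∫ s in (0 : ℝ)..Y, g s * e i s := by
    intro i g hg
    rw [← heb i, inner_ct Y hY]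
    refine integral_congr fun s _ => ?_
    show conj (conj (g s)) * e i s = _
    rw [Complex.conj_conj]
  refine ⟨Module.finrank ℂ W, e, ?_, he, ?_, ?_, ?_⟩
  · exact (finrank_span_finset_le_card (R := ℂ) (S.image u)).trans Finset.card_image_le
  · intro i
    rw [← norm_sq_ct Y hY _ (he i), heb i, hon.1 i]
    norm_num
  · intro g hg
    have h1 := hon.sum_inner_products_le (ct Y (fun s => conj (g s)) (Complex.continuous_conj.comp hg))
      (s := Finset.univ)
    rw [norm_sq_ct Y hY] at h1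
    refine le_trans (le_of_eq ?_) (h1.trans (le_of_eq ?_))
    · refine Finset.sum_congr rfl fun i _ => ?_
      rw [← hinn i g hg, ← norm_inner_symm]
    · refine integral_congr fun s _ => ?_
      show ‖conj (g s)‖ ^ 2 = _
      rw [RCLike.norm_conj]
  · intro z hz g hg
    have hzW : u z ∈ W := Submodule.subset_span (by
      rw [Finset.coe_image]; exact Set.mem_image_of_mem u hz)
    have h1 := b.sum_repr' (⟨u z, hzW⟩ : W)
    have h2 : ∑ i, (inner ℂ (b i) (⟨u z, hzW⟩ : W)) •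
        ((b i : W) : Lp ℂ 2 (volume.restrict (Set.Ioc (0 : ℝ) Y))) = u z := by
      have := congrArg (fun x : W => (x : Lp ℂ 2 (volume.restrict (Set.Ioc (0 : ℝ) Y)))) h1
      simpa using this
    have h3 := congrArg (fun x => inner ℂ (ct Y (fun s => conj (g s))
      (Complex.continuous_conj.comp hg)) x) h2
    simp only [inner_sum, inner_smul_right] at h3
    have h4 : inner ℂ (ct Y (fun s => conj (g s)) (Complex.continuous_conj.comp hg)) (u z)
        = ∫ s in (0 : ℝ)..Y, g s * exp (z * s) := by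
      rw [hu, inner_ct Y hY]
      refine integral_congr fun s _ => ?_
      show conj (conj (g s)) * _ = _
      rw [Complex.conj_conj]
    rw [← h4, ← h3]
    refine Finset.sum_congr rfl fun i _ => ?_
    rw [hinn i g hg, mul_comm]
    congr 1
    have : (inner ℂ (b i) (⟨u z, hzW⟩ : W)) =
        inner ℂ ((b i : W) : Lp ℂ 2 (volume.restrict (Set.Ioc (0 : ℝ) Y))) (u z) := rfl
    rw [this, ← heb i, hu, inner_ct Y hY]

theorem key_l1 (Y : ℝ) (hY : 0 < Y) (e : ℝ → ℂ) (he : Continuous e)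
    (h1 : ∫ s in (0 : ℝ)..Y, ‖e s‖ ^ 2 = 1) : ∫ s in (0 : ℝ)..Y, ‖e s‖ ≤ √Y := by
  have hs : 0 < √Y := Real.sqrt_pos.2 hY
  have hss : √Y * √Y = Y := Real.mul_self_sqrt hY.le
  have h : ∫ s in (0 : ℝ)..Y, ‖e s‖ ≤ ∫ s in (0 : ℝ)..Y, (1 / (2 * √Y) + √Y / 2 * ‖e s‖ ^ 2) := by
    refine integral_mono_on hY.le (he.norm.intervalIntegrable _ _)
      ((by fun_prop : Continuous fun s => 1 / (2 * √Y) + √Y / 2 * ‖e s‖ ^ 2).intervalIntegrable _ _)
      fun s _ => ?_
    have h0 := sq_nonneg (1 - √Y * ‖e s‖)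
    have : ‖e s‖ = (2 * √Y * ‖e s‖) / (2 * √Y) := by field_simp
    rw [this]
    have e2 : 1 / (2 * √Y) + √Y / 2 * ‖e s‖ ^ 2 = (1 + (√Y * ‖e s‖) ^ 2) / (2 * √Y) := by
      field_simp
    rw [show √Y / 2 * ((2 * √Y * ‖e s‖) / (2 * √Y)) ^ 2 = √Y / 2 * ‖e s‖ ^ 2 by
      congr 2; field_simp, e2]
    gcongr
    nlinarith
  refine h.trans (le_of_eq ?_)
  rw [intervalIntegral.integral_add (by simp) ((by fun_prop : Continuous fun s => √Y / 2 * ‖e s‖ ^ 2).intervalIntegrable _ _),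
    intervalIntegral.integral_const_mul, h1, intervalIntegral.integral_const, sub_zero, smul_eq_mul]
  have : Y * (1 / (2 * √Y)) = √Y / 2 := by
    field_simp
    linarith
  rw [this]; ring

end Pool.Agent.SD
end

section

set_option autoImplicit false

/-! Task KA: the Hilbert-Schmidt inequality for two orthonormal systems. -/

namespace Pool.Agent.SD

open Complex MeasureTheory intervalIntegral
open scoped ComplexConjugate

/-- The operator with kernel `G (s - s')` applied to `e`. -/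
noncomputable def KG (Y : ℝ) (G : ℝ → ℂ) (e : ℝ → ℂ) (s : ℝ) : ℂ := ∫ s' in (0 : ℝ)..Y, G (s - s') * e s'

/-- the difference of two complex numbers -/
theorem KA_sq (x y : ℂ) : ‖x - y‖ ^ 2 = ‖x‖ ^ 2 - 2 * (conj y * x).re + ‖y‖ ^ 2 := by
  rw [← Complex.normSq_eq_norm_sq, ← Complex.normSq_eq_norm_sq, ← Complex.normSq_eq_norm_sq, Complex.normSq_sub,
    mul_comm (conj y) x]
  ring

theorem KA_normsq (y : ℂ) : ‖y‖ ^ 2 = (y * conj y).re := by
  rw [Complex.mul_conj, Complex.ofReal_re, Complex.normSq_eq_norm_sq]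

theorem KA_re (Y : ℝ) (h : ℝ → ℂ) (hh : Continuous h) :
    ∫ s in (0 : ℝ)..Y, (h s).re = (∫ s in (0 : ℝ)..Y, h s).re :=
  Complex.reCLM.intervalIntegral_comp_comm (hh.intervalIntegrable _ _)

/-- expansion at two points -/
theorem KA_expand {ι : Type*} [Fintype ι] (Y : ℝ) (x : ℂ) (u v : ι → ℂ) :
    ‖x - Y * ∑ i, u i * conj (v i)‖ ^ 2 = ‖x‖ ^ 2 - 2 * Y * (∑ i, conj (u i) * (x * v i)).re +
      Y ^ 2 * (∑ i, ∑ j, (u i * conj (u j)) * (conj (v i) * v j)).re := by
  rw [KA_sq]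
  congr 1
  · congr 1
    rw [map_mul, Complex.conj_ofReal, map_sum]
    have : (Y : ℂ) * (∑ i, conj (u i * conj (v i))) * x = Y * ∑ i, conj (u i) * (x * v i) := by
      rw [mul_assoc, Finset.sum_mul]
      congr 1
      refine Finset.sum_congr rfl fun i _ => ?_
      rw [map_mul, Complex.conj_conj]
      ring
    rw [this, Complex.re_ofReal_mul]
    ring
  · rw [KA_normsq]
    have : (Y : ℂ) * ∑ i, u i * conj (v i) = Y * ∑ i, u i * conj (v i) := rfl
    have e : (Y * ∑ i, u i * conj (v i)) * conj ((Y : ℂ) * ∑ i, u i * conj (v i)) =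
        ((Y ^ 2 : ℝ) : ℂ) * ∑ i, ∑ j, (u i * conj (u j)) * (conj (v i) * v j) := by
      rw [map_mul, Complex.conj_ofReal, map_sum]
      have e2 : (∑ i, u i * conj (v i)) * (∑ j, conj (u j * conj (v j))) =
          ∑ i, ∑ j, (u i * conj (u j)) * (conj (v i) * v j) := by
        rw [Finset.sum_mul_sum]
        refine Finset.sum_congr rfl fun i _ => Finset.sum_congr rfl fun j _ => ?_
        rw [map_mul, Complex.conj_conj]
        ring
      rw [← e2]
      push_cast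
      ring
    rw [e, Complex.re_ofReal_mul]

/-- the Hilbert-Schmidt inequality for a finite system -/
theorem KA_gen {ι : Type*} [Fintype ι] (Y : ℝ) (hY : 0 < Y) (G : ℝ → ℂ) (hG : Continuous G) (a : ι → ℝ → ℂ)
    (ha : ∀ i, Continuous (a i)) :
    2 * Y * ∑ i, (∫ s in (0 : ℝ)..Y, conj (a i s) * KG Y G (a i) s).re -
      Y ^ 2 * ∑ i, ∑ j, ‖∫ s in (0 : ℝ)..Y, conj (a i s) * a j s‖ ^ 2 ≤
      ∫ s in (0 : ℝ)..Y, ∫ s' in (0 : ℝ)..Y, ‖G (s - s')‖ ^ 2 := by
  have hac : ∀ i, Continuous fun s => conj (a i s) := fun i => Complex.continuous_conj.comp (ha i)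
  have hKG : ∀ i, Continuous (KG Y G (a i)) := by
    intro i
    unfold KG
    apply continuous_parametric_intervalIntegral_of_continuous'
    have := ha i
    fun_prop
  have hA : Continuous fun s : ℝ => ∫ s' in (0 : ℝ)..Y, ‖G (s - s')‖ ^ 2 := by
    apply continuous_parametric_intervalIntegral_of_continuous'
    fun_prop
  set g : ι → ι → ℂ := fun i j => ∫ s in (0 : ℝ)..Y, conj (a i s) * a j s with hg
  -- the inner integral
  have hin : ∀ s : ℝ, ∫ s' in (0 : ℝ)..Y, ‖G (s - s') - Y * ∑ i, a i s * conj (a i s')‖ ^ 2 =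
      (∫ s' in (0 : ℝ)..Y, ‖G (s - s')‖ ^ 2) - 2 * Y * (∑ i, conj (a i s) * KG Y G (a i) s).re +
        Y ^ 2 * (∑ i, ∑ j, (a i s * conj (a j s)) * g i j).re := by
    intro s
    have h1 : ∀ s' : ℝ, ‖G (s - s') - Y * ∑ i, a i s * conj (a i s')‖ ^ 2 =
        ‖G (s - s')‖ ^ 2 - 2 * Y * (∑ i, conj (a i s) * (G (s - s') * a i s')).re +
          Y ^ 2 * (∑ i, ∑ j, (a i s * conj (a j s)) * (conj (a i s') * a j s')).re :=
      fun s' => KA_expand Y (G (s - s')) (fun i => a i s) (fun i => a i s')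
    have c1 : Continuous fun s' : ℝ => ‖G (s - s')‖ ^ 2 := by fun_prop
    have c2 : Continuous fun s' : ℝ => ∑ i, conj (a i s) * (G (s - s') * a i s') := by
      refine continuous_finsetSum _ fun i _ => ?_
      have := ha i
      fun_prop
    have c3 : Continuous fun s' : ℝ => ∑ i, ∑ j, (a i s * conj (a j s)) * (conj (a i s') * a j s') := by
      refine continuous_finsetSum _ fun i _ => continuous_finsetSum _ fun j _ => ?_
      have := ha j
      have := hac i
      fun_prop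
    simp_rw [h1]
    rw [intervalIntegral.integral_add, intervalIntegral.integral_sub, intervalIntegral.integral_const_mul,
      intervalIntegral.integral_const_mul, KA_re Y _ c2, KA_re Y _ c3]
    · congr 1
      · congr 1
        congr 2
        rw [intervalIntegral.integral_finsetSum]
        · refine Finset.sum_congr rfl fun i _ => ?_
          rw [intervalIntegral.integral_const_mul]
          rfl
        · intro i _
          have := ha i
          exact (by fun_prop : Continuous fun s' => conj (a i s) * (G (s - s') * a i s')).intervalIntegrable _ _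
      · congr 2
        rw [intervalIntegral.integral_finsetSum]
        · refine Finset.sum_congr rfl fun i _ => ?_
          rw [intervalIntegral.integral_finsetSum]
          · refine Finset.sum_congr rfl fun j _ => ?_
            rw [intervalIntegral.integral_const_mul]
          · intro j _
            have := ha j
            have := hac i
            exact (by fun_prop : Continuous fun s' => (a i s * conj (a j s)) * (conj (a i s') * a j s')).intervalIntegrable _ _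
        · intro i _
          refine (continuous_finsetSum _ fun j _ => ?_ : Continuous fun s' => ∑ j, (a i s * conj (a j s)) * (conj (a i s') * a j s')).intervalIntegrable _ _
          have := ha j
          have := hac i
          fun_prop
    · exact c1.intervalIntegrable _ _
    · exact (continuous_const.mul (Complex.continuous_re.comp c2)).intervalIntegrable _ _
    · exact (c1.sub (continuous_const.mul (Complex.continuous_re.comp c2))).intervalIntegrable _ _
    · exact (continuous_const.mul (Complex.continuous_re.comp c3)).intervalIntegrable _ _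
  have hpos : 0 ≤ ∫ s in (0 : ℝ)..Y, ∫ s' in (0 : ℝ)..Y, ‖G (s - s') - Y * ∑ i, a i s * conj (a i s')‖ ^ 2 :=
    intervalIntegral.integral_nonneg hY.le fun s _ => intervalIntegral.integral_nonneg hY.le fun s' _ => by positivity
  simp_rw [hin] at hpos
  have c2 : Continuous fun s : ℝ => ∑ i, conj (a i s) * KG Y G (a i) s :=
    continuous_finsetSum _ fun i _ => (hac i).mul (hKG i)
  have c3 : Continuous fun s : ℝ => ∑ i, ∑ j, (a i s * conj (a j s)) * g i j :=
    continuous_finsetSum _ fun i _ => continuous_finsetSum _ fun j _ => ((ha i).mul (hac j)).mul continuous_const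
  rw [intervalIntegral.integral_add, intervalIntegral.integral_sub, intervalIntegral.integral_const_mul,
      intervalIntegral.integral_const_mul, KA_re Y _ c2, KA_re Y _ c3] at hpos
  · have e1 : (∫ s in (0 : ℝ)..Y, ∑ i, conj (a i s) * KG Y G (a i) s).re =
        ∑ i, (∫ s in (0 : ℝ)..Y, conj (a i s) * KG Y G (a i) s).re := by
      rw [intervalIntegral.integral_finsetSum, Complex.re_sum]
      intro i _
      exact ((hac i).mul (hKG i)).intervalIntegrable _ _
    have e2 : (∫ s in (0 : ℝ)..Y, ∑ i, ∑ j, (a i s * conj (a j s)) * g i j).re =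
        ∑ i, ∑ j, ‖∫ s in (0 : ℝ)..Y, conj (a i s) * a j s‖ ^ 2 := by
      rw [intervalIntegral.integral_finsetSum, Complex.re_sum]
      · refine Finset.sum_congr rfl fun i _ => ?_
        rw [intervalIntegral.integral_finsetSum, Complex.re_sum]
        · refine Finset.sum_congr rfl fun j _ => ?_
          rw [intervalIntegral.integral_mul_const, KA_normsq]
          congr 1
          rw [mul_comm]
          congr 1
          rw [← intervalIntegral_conj]
          refine intervalIntegral.integral_congr fun s _ => ?_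
          show a i s * conj (a j s) = conj (conj (a i s) * a j s)
          rw [map_mul, Complex.conj_conj]
        · intro j _
          exact (((ha i).mul (hac j)).mul continuous_const).intervalIntegrable _ _
      · intro i _
        exact (continuous_finsetSum _ fun j _ => ((ha i).mul (hac j)).mul continuous_const).intervalIntegrable _ _
    rw [e1, e2] at hpos
    linarith
  · exact hA.intervalIntegrable _ _
  · exact (continuous_const.mul (Complex.continuous_re.comp c2)).intervalIntegrable _ _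
  · exact (hA.sub (continuous_const.mul (Complex.continuous_re.comp c2))).intervalIntegrable _ _
  · exact (continuous_const.mul (Complex.continuous_re.comp c3)).intervalIntegrable _ _

theorem KA_swap (Y : ℝ) (u v : ℝ → ℂ) :
    ‖∫ s in (0 : ℝ)..Y, conj (u s) * v s‖ = ‖∫ s in (0 : ℝ)..Y, conj (v s) * u s‖ := by
  rw [← Complex.norm_conj, ← intervalIntegral_conj]
  congr 1
  refine intervalIntegral.integral_congr fun s _ => ?_
  show conj (conj (u s) * v s) = conj (v s) * u s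
  rw [map_mul, Complex.conj_conj]
  ring

/-- KA. PROOF. Let `ι = Fin r₁ ⊕ Fin r₂`, `a : ι → ℝ → ℂ` the combined system (`Sum.elim e f`),
`p(s, s') = ∑ i, a i s * conj (a i s')`. Expand `0 ≤ ∫_0^Y ∫_0^Y ‖G(s - s') - Y p(s, s')‖² ds' ds`
(all functions are continuous; only linearity of the iterated interval integral is used, no Fubini):
`‖K - Y p‖² = ‖K‖² - 2 Y Re(conj p * K) + Y² ‖p‖²`.
* `∫∫ ‖G(s-s')‖² = 2 Y ∫_0^Y (1 - t/Y) ‖G t‖² dt` is `key_double` (with `F t = ‖G t‖²`, `hsym`);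
* `∫∫ conj p * K = ∑ i, ∫ conj (a i s) * KG Y G (a i) s ds`;
* `∫∫ ‖p‖² = ∑ i, ∑ j, ‖∫ conj (a i s) * a j s ds‖²` and this is `≤ r₁ + 3 r₂` by the Bessel inequalities:
  for fixed `j` use `hb1`/`hb2` with `g s = conj (a j s)`: `∑_{i : Fin r₁} ‖∫ conj (a j) * e i‖² ≤ ∫ ‖a j‖² = 1`; this bounds the
  blocks (1,1) by `r₁`, (1,2) and, by symmetry, (2,1) by `r₂` each, and (2,2) by `r₂`.
A convenient alternative without the double integral of `‖p‖²`: none needed, but you may organize the proof as you like. -/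
theorem two_systems (Y : ℝ) (hY : 0 < Y) (G : ℝ → ℂ) (hG : Continuous G)
    (hsym : ∀ t, 0 ≤ t → t ≤ Y → ‖G (-t)‖ = ‖G t‖) (r₁ r₂ : ℕ) (e : Fin r₁ → ℝ → ℂ) (f : Fin r₂ → ℝ → ℂ)
    (he : ∀ i, Continuous (e i)) (hf : ∀ i, Continuous (f i))
    (he1 : ∀ i, ∫ s in (0 : ℝ)..Y, ‖e i s‖ ^ 2 = 1) (hf1 : ∀ i, ∫ s in (0 : ℝ)..Y, ‖f i s‖ ^ 2 = 1)
    (hb1 : ∀ g : ℝ → ℂ, Continuous g →
      ∑ i, ‖∫ s in (0 : ℝ)..Y, g s * e i s‖ ^ 2 ≤ ∫ s in (0 : ℝ)..Y, ‖g s‖ ^ 2)
    (hb2 : ∀ g : ℝ → ℂ, Continuous g →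
      ∑ i, ‖∫ s in (0 : ℝ)..Y, g s * f i s‖ ^ 2 ≤ ∫ s in (0 : ℝ)..Y, ‖g s‖ ^ 2) :
    2 * Y * (∑ i, (∫ s in (0 : ℝ)..Y, conj (e i s) * KG Y G (e i) s).re +
        ∑ i, (∫ s in (0 : ℝ)..Y, conj (f i s) * KG Y G (f i) s).re) - Y ^ 2 * ((r₁ : ℝ) + 3 * (r₂ : ℝ)) ≤
      2 * Y * ∫ t in (0 : ℝ)..Y, (1 - t / Y) * ‖G t‖ ^ 2 := by
  have h1 : ∀ i : Fin r₁ ⊕ Fin r₂, Continuous (Sum.elim e f i) := by
    rintro (i | i)
    · exact he i
    · exact hf i
  have hgen := KA_gen Y hY G hG (Sum.elim e f) h1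
  have hkd := key_double Y hY (fun t => ‖G t‖ ^ 2) (by fun_prop) (fun t h2 h3 => by
    show ‖G (-t)‖ ^ 2 = ‖G t‖ ^ 2
    rw [hsym t h2 h3])
  have hkd' : ∫ s in (0 : ℝ)..Y, ∫ s' in (0 : ℝ)..Y, ‖G (s - s')‖ ^ 2 =
      2 * Y * ∫ t in (0 : ℝ)..Y, (1 - t / Y) * ‖G t‖ ^ 2 := hkd
  rw [hkd'] at hgen
  simp only [Fintype.sum_sum_type, Sum.elim_inl, Sum.elim_inr] at hgen
  have hconj : ∀ (u : ℝ → ℂ), Continuous u → Continuous fun s => conj (u s) :=
    fun u hu => Complex.continuous_conj.comp hu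
  have hn : ∀ (u : ℝ → ℂ), ∫ s in (0 : ℝ)..Y, ‖conj (u s)‖ ^ 2 = ∫ s in (0 : ℝ)..Y, ‖u s‖ ^ 2 := by
    intro u
    refine intervalIntegral.integral_congr fun s _ => ?_
    show ‖conj (u s)‖ ^ 2 = ‖u s‖ ^ 2
    rw [Complex.norm_conj]
  have b1 : ∀ u : ℝ → ℂ, Continuous u → ∫ s in (0 : ℝ)..Y, ‖u s‖ ^ 2 = 1 →
      ∑ i, ‖∫ s in (0 : ℝ)..Y, conj (u s) * e i s‖ ^ 2 ≤ 1 := by
    intro u hu hu1
    have h := hb1 (fun s => conj (u s)) (hconj u hu)
    rw [hn u, hu1] at h
    exact h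
  have b2 : ∀ u : ℝ → ℂ, Continuous u → ∫ s in (0 : ℝ)..Y, ‖u s‖ ^ 2 = 1 →
      ∑ i, ‖∫ s in (0 : ℝ)..Y, conj (u s) * f i s‖ ^ 2 ≤ 1 := by
    intro u hu hu1
    have h := hb2 (fun s => conj (u s)) (hconj u hu)
    rw [hn u, hu1] at h
    exact h
  have c11 : ∑ i, ∑ j, ‖∫ s in (0 : ℝ)..Y, conj (e i s) * e j s‖ ^ 2 ≤ r₁ := by
    calc _ ≤ ∑ _i : Fin r₁, (1 : ℝ) := Finset.sum_le_sum fun i _ => b1 (e i) (he i) (he1 i)
      _ = r₁ := by simp
  have c21 : ∑ i, ∑ j, ‖∫ s in (0 : ℝ)..Y, conj (f i s) * e j s‖ ^ 2 ≤ r₂ := by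
    calc _ ≤ ∑ _i : Fin r₂, (1 : ℝ) := Finset.sum_le_sum fun i _ => b1 (f i) (hf i) (hf1 i)
      _ = r₂ := by simp
  have c22 : ∑ i, ∑ j, ‖∫ s in (0 : ℝ)..Y, conj (f i s) * f j s‖ ^ 2 ≤ r₂ := by
    calc _ ≤ ∑ _i : Fin r₂, (1 : ℝ) := Finset.sum_le_sum fun i _ => b2 (f i) (hf i) (hf1 i)
      _ = r₂ := by simp
  have c12 : ∑ i, ∑ j, ‖∫ s in (0 : ℝ)..Y, conj (e i s) * f j s‖ ^ 2 ≤ r₂ := by
    rw [Finset.sum_comm]
    have : ∑ j, ∑ i, ‖∫ s in (0 : ℝ)..Y, conj (e i s) * f j s‖ ^ 2 =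
        ∑ j, ∑ i, ‖∫ s in (0 : ℝ)..Y, conj (f j s) * e i s‖ ^ 2 :=
      Finset.sum_congr rfl fun j _ => Finset.sum_congr rfl fun i _ => by rw [KA_swap Y (e i) (f j)]
    rw [this]
    exact c21
  have hY2 : 0 ≤ Y ^ 2 := by positivity
  simp only [Finset.sum_add_distrib] at hgen
  have hsum : ∑ i, ∑ j, ‖∫ s in (0 : ℝ)..Y, conj (e i s) * e j s‖ ^ 2 +
      ∑ i, ∑ j, ‖∫ s in (0 : ℝ)..Y, conj (e i s) * f j s‖ ^ 2 +
      (∑ i, ∑ j, ‖∫ s in (0 : ℝ)..Y, conj (f i s) * e j s‖ ^ 2 +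
      ∑ i, ∑ j, ‖∫ s in (0 : ℝ)..Y, conj (f i s) * f j s‖ ^ 2) ≤ (r₁ : ℝ) + 3 * r₂ := by
    linarith
  have := mul_le_mul_of_nonneg_left hsum hY2
  linarith

end Pool.Agent.SD
end

section

set_option autoImplicit false

/-! Task KC: the error and the traces. -/

namespace Pool.Agent.SD

open Complex MeasureTheory intervalIntegral
open scoped ComplexConjugate

private theorem KC_l1 (Y : ℝ) (hY : 0 < Y) (e : ℝ → ℂ) (he : Continuous e)
    (h1 : ∫ s in (0 : ℝ)..Y, ‖e s‖ ^ 2 = 1) : ∫ s in (0 : ℝ)..Y, ‖e s‖ ≤ √Y := by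
  have hs : 0 < √Y := Real.sqrt_pos.2 hY
  have hss : √Y * √Y = Y := Real.mul_self_sqrt hY.le
  have h : ∫ s in (0 : ℝ)..Y, ‖e s‖ ≤ ∫ s in (0 : ℝ)..Y, (1 / (2 * √Y) + √Y / 2 * ‖e s‖ ^ 2) := by
    refine integral_mono_on hY.le (he.norm.intervalIntegrable _ _)
      ((by fun_prop : Continuous fun s => 1 / (2 * √Y) + √Y / 2 * ‖e s‖ ^ 2).intervalIntegrable _ _)
      fun s _ => ?_
    have h0 := sq_nonneg (1 - √Y * ‖e s‖)
    have : ‖e s‖ = (2 * √Y * ‖e s‖) / (2 * √Y) := by field_simp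
    rw [this]
    have e2 : 1 / (2 * √Y) + √Y / 2 * ‖e s‖ ^ 2 = (1 + (√Y * ‖e s‖) ^ 2) / (2 * √Y) := by
      field_simp
    rw [show √Y / 2 * ((2 * √Y * ‖e s‖) / (2 * √Y)) ^ 2 = √Y / 2 * ‖e s‖ ^ 2 by
      congr 2; field_simp, e2]
    gcongr
    nlinarith
  refine h.trans (le_of_eq ?_)
  rw [intervalIntegral.integral_add (by simp) ((by fun_prop : Continuous fun s => √Y / 2 * ‖e s‖ ^ 2).intervalIntegrable _ _),
    intervalIntegral.integral_const_mul, h1, intervalIntegral.integral_const, sub_zero, smul_eq_mul]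
  have : Y * (1 / (2 * √Y)) = √Y / 2 := by
    field_simp
    linarith
  rw [this]; ring

private theorem KC_KGc (Y : ℝ) (G : ℝ → ℂ) (hG : Continuous G) (e : ℝ → ℂ) (he : Continuous e) :
    Continuous (KG Y G e) :=
  intervalIntegral.continuous_parametric_intervalIntegral_of_continuous'
    (f := fun s s' => G (s - s') * e s') (by fun_prop) 0 Y

/-- KC1. The error for one function. PROOF. This is `hC` in the proof of `key` in SK/Key.lean (copy it). -/
theorem KG_err (Y η : ℝ) (hY : 0 < Y) (S : Finset ℂ) (c : ℂ → ℂ) (G : ℝ → ℂ) (hG : Continuous G)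
    (hE : ∀ t : ℝ, |t| ≤ Y → ‖G t - ∑ z ∈ S, c z * exp (z * t)‖ ≤ η)
    (e : ℝ → ℂ) (he : Continuous e) (he1 : ∫ s in (0 : ℝ)..Y, ‖e s‖ ^ 2 = 1) :
    ‖(∫ s in (0 : ℝ)..Y, conj (e s) * KG Y G e s) -
      ∑ z ∈ S, c z * ((∫ s in (0 : ℝ)..Y, exp (-z * s) * e s) * (∫ s in (0 : ℝ)..Y, conj (e s) * exp (z * s)))‖ ≤
      η * Y := by
  have hη : 0 ≤ η := (norm_nonneg _).trans (hE 0 (by simpa using hY.le))
  have h2 := he
  have h1 : Continuous (KG Y G e) := KC_KGc Y G hG e he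
  set I : ℂ → ℂ := fun z => ∫ s in (0 : ℝ)..Y, exp (-z * s) * e s with hI
  set J : ℂ → ℂ := fun z => ∫ s in (0 : ℝ)..Y, conj (e s) * exp (z * s) with hJ
  show ‖(∫ s in (0 : ℝ)..Y, conj (e s) * KG Y G e s) - ∑ z ∈ S, c z * (I z * J z)‖ ≤ η * Y
  set D : ℝ → ℂ := fun s => KG Y G e s - ∑ z ∈ S, c z * exp (z * s) * I z with hD
  have hDb : ∀ s ∈ Set.Icc (0 : ℝ) Y, ‖D s‖ ≤ η * √Y := by
    intro s hs
    have e1 : ∑ z ∈ S, c z * exp (z * s) * I z =
        ∫ s' in (0 : ℝ)..Y, (∑ z ∈ S, c z * exp (z * (s - s' : ℝ))) * e s' := by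
      have : ∀ s' : ℝ, (∑ z ∈ S, c z * exp (z * (s - s' : ℝ))) * e s' =
          ∑ z ∈ S, c z * exp (z * s) * (exp (-z * s') * e s') := by
        intro s'
        rw [Finset.sum_mul]
        refine Finset.sum_congr rfl fun z _ => ?_
        have : exp (z * (s - s' : ℝ)) = exp (z * s) * exp (-z * s') := by
          rw [← exp_add]; congr 1; push_cast; ring
        rw [this]; ring
      rw [integral_congr fun s' _ => this s', intervalIntegral.integral_finsetSum]
      · refine Finset.sum_congr rfl fun z _ => ?_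
        rw [intervalIntegral.integral_const_mul]
      · intro z _
        exact (by fun_prop : Continuous fun s' : ℝ => c z * exp (z * s) * (exp (-z * s') * e s')).intervalIntegrable _ _
    have e2 : D s = ∫ s' in (0 : ℝ)..Y, (G (s - s') - ∑ z ∈ S, c z * exp (z * (s - s' : ℝ))) * e s' := by
      rw [hD]
      show (∫ s' in (0 : ℝ)..Y, G (s - s') * e s') - _ = _
      rw [e1, ← intervalIntegral.integral_sub]
      · refine integral_congr fun s' _ => ?_
        show G (s - s') * e s' - _ * e s' = _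
        ring
      · exact (by fun_prop : Continuous fun s' => G (s - s') * e s').intervalIntegrable _ _
      · exact (by fun_prop : Continuous fun s' : ℝ => (∑ z ∈ S, c z * exp (z * (s - s' : ℝ))) * e s').intervalIntegrable _ _
    rw [e2]
    calc ‖∫ s' in (0 : ℝ)..Y, (G (s - s') - ∑ z ∈ S, c z * exp (z * (s - s' : ℝ))) * e s'‖
        ≤ ∫ s' in (0 : ℝ)..Y, η * ‖e s'‖ := by
          refine intervalIntegral.norm_integral_le_of_norm_le hY.le ?_
            ((by fun_prop : Continuous fun s' => η * ‖e s'‖).intervalIntegrable _ _)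
          refine Filter.Eventually.of_forall fun s' hs' => ?_
          rw [norm_mul]
          gcongr
          refine hE _ ?_
          rw [abs_le]
          constructor <;> linarith [hs.1, hs.2, hs'.1, hs'.2]
      _ = η * ∫ s' in (0 : ℝ)..Y, ‖e s'‖ := by rw [intervalIntegral.integral_const_mul]
      _ ≤ η * √Y := by gcongr; exact KC_l1 Y hY _ h2 he1
  have e3 : ∑ z ∈ S, c z * (I z * J z) = ∫ s in (0 : ℝ)..Y, conj (e s) * ∑ z ∈ S, c z * exp (z * s) * I z := by
    have : ∀ s : ℝ, conj (e s) * ∑ z ∈ S, c z * exp (z * s) * I z =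
        ∑ z ∈ S, c z * I z * (conj (e s) * exp (z * s)) := by
      intro s
      rw [Finset.mul_sum]
      exact Finset.sum_congr rfl fun z _ => by ring
    rw [integral_congr fun s _ => this s, intervalIntegral.integral_finsetSum]
    · refine Finset.sum_congr rfl fun z _ => ?_
      rw [intervalIntegral.integral_const_mul]
      ring
    · intro z _
      exact (continuous_const.mul ((Complex.continuous_conj.comp h2).mul (by fun_prop))).intervalIntegrable _ _
  have hsumc : Continuous fun s : ℝ => ∑ z ∈ S, c z * exp (z * s) * I z := by fun_prop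
  have hi1 : IntervalIntegrable (fun s => conj (e s) * KG Y G e s) volume 0 Y :=
    ((Complex.continuous_conj.comp h2).mul h1).intervalIntegrable _ _
  have hi2 : IntervalIntegrable (fun s : ℝ => conj (e s) * ∑ z ∈ S, c z * exp (z * s) * I z) volume 0 Y :=
    ((Complex.continuous_conj.comp h2).mul hsumc).intervalIntegrable _ _
  rw [e3, ← intervalIntegral.integral_sub hi1 hi2]
  calc ‖∫ s in (0 : ℝ)..Y, (conj (e s) * KG Y G e s - conj (e s) * ∑ z ∈ S, c z * exp (z * s) * I z)‖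
      ≤ ∫ s in (0 : ℝ)..Y, ‖e s‖ * (η * √Y) := by
        refine intervalIntegral.norm_integral_le_of_norm_le hY.le ?_
          ((by fun_prop : Continuous fun s => ‖e s‖ * (η * √Y)).intervalIntegrable _ _)
        refine Filter.Eventually.of_forall fun s hs => ?_
        have : conj (e s) * KG Y G e s - conj (e s) * ∑ z ∈ S, c z * exp (z * s) * I z
            = conj (e s) * D s := by rw [hD]; ring
        rw [this, norm_mul, RCLike.norm_conj]
        gcongr
        exact hDb s ⟨hs.1.le, hs.2⟩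
    _ = (∫ s in (0 : ℝ)..Y, ‖e s‖) * (η * √Y) := by rw [intervalIntegral.integral_mul_const]
    _ ≤ √Y * (η * √Y) := by gcongr; exact KC_l1 Y hY _ h2 he1
    _ = η * Y := by rw [mul_left_comm, Real.mul_self_sqrt hY.le]

/-- KC2. The reflection `z ↦ -conj z` conjugates the product. PROOF. `exp (-z s) = conj (exp ((-conj z) s))` for real `s`
(`Complex.exp_conj`), `intervalIntegral.intervalIntegral_conj` (used in SK/C5A.lean), `conj (conj (e s)) = e s`. -/
theorem IJ_symm (Y : ℝ) (e : ℝ → ℂ) (z : ℂ) :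
    (∫ s in (0 : ℝ)..Y, exp (-(-(conj z)) * s) * e s) * (∫ s in (0 : ℝ)..Y, conj (e s) * exp (-(conj z) * s)) =
      conj ((∫ s in (0 : ℝ)..Y, exp (-z * s) * e s) * (∫ s in (0 : ℝ)..Y, conj (e s) * exp (z * s))) := by
  have e1 : ∀ (w : ℂ) (s : ℝ), conj (exp (w * s)) = exp (conj w * s) := by
    intro w s
    rw [← Complex.exp_conj, map_mul, Complex.conj_ofReal]
  rw [map_mul, ← intervalIntegral.intervalIntegral_conj, ← intervalIntegral.intervalIntegral_conj]
  have h1 : ∀ s : ℝ, conj (exp (-z * s) * e s) = conj (e s) * exp (-(conj z) * s) := by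
    intro s
    rw [map_mul, e1, map_neg, mul_comm]
  have h2 : ∀ s : ℝ, conj (conj (e s) * exp (z * s)) = exp (-(-(conj z)) * s) * e s := by
    intro s
    rw [map_mul, e1, Complex.conj_conj, neg_neg, mul_comm]
  rw [integral_congr fun s _ => h1 s, integral_congr fun s _ => h2 s, mul_comm]

/-- KC3. The trace of an exponential in the span is `Y`. PROOF. `hspan z hz (fun s => exp (-z * s))` and
`exp (-z s) * exp (z s) = 1` (see `hT` in SK/Key.lean); for `-conj z ∈ A` use `IJ_symm` (applied to `-conj z`, or to `z`) and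
`conj Y = Y`. -/
theorem IJ_trace (Y : ℝ) (hY : 0 < Y) (A : Finset ℂ) (r : ℕ) (e : Fin r → ℝ → ℂ)
    (hspan : ∀ z ∈ A, ∀ g : ℝ → ℂ, Continuous g →
      ∑ i, (∫ s in (0 : ℝ)..Y, g s * e i s) * (∫ s in (0 : ℝ)..Y, conj (e i s) * exp (z * s)) =
        ∫ s in (0 : ℝ)..Y, g s * exp (z * s)) (z : ℂ) (hz : z ∈ A ∨ -(conj z) ∈ A) :
    ∑ i, (∫ s in (0 : ℝ)..Y, exp (-z * s) * e i s) * (∫ s in (0 : ℝ)..Y, conj (e i s) * exp (z * s)) = (Y : ℂ) := by
  have main : ∀ w ∈ A,
      ∑ i, (∫ s in (0 : ℝ)..Y, exp (-w * s) * e i s) * (∫ s in (0 : ℝ)..Y, conj (e i s) * exp (w * s)) = (Y : ℂ) := by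
    intro w hw
    have := hspan w hw (fun s => exp (-w * s)) (by fun_prop)
    rw [this]
    have e4 : ∀ s : ℝ, exp (-w * s) * exp (w * s) = 1 := fun s => by
      rw [← exp_add]; simp
    rw [integral_congr fun s _ => e4 s, intervalIntegral.integral_const]
    simp
  rcases hz with hz | hz
  · exact main z hz
  · have h := main _ hz
    have h2 := congrArg (starRingEnd ℂ) h
    rw [map_sum, Complex.conj_ofReal] at h2
    rw [← h2]
    refine Finset.sum_congr rfl fun i _ => ?_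
    have h3 := IJ_symm Y (e i) z
    rw [h3, Complex.conj_conj]

/-- KC4. On the line the product is a nonnegative real number. PROOF. `-conj z = z`: `exp (-z s) = conj (exp (z s))`, so the first
integral is the conjugate of the second one and the product is `‖·‖²` (`Complex.conj_mul'` or `Complex.normSq`). -/
theorem IJ_line (Y : ℝ) (e : ℝ → ℂ) (z : ℂ) (hz : z.re = 0) :
    (∫ s in (0 : ℝ)..Y, exp (-z * s) * e s) * (∫ s in (0 : ℝ)..Y, conj (e s) * exp (z * s)) =
      ((‖∫ s in (0 : ℝ)..Y, conj (e s) * exp (z * s)‖ ^ 2 : ℝ) : ℂ) := by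
  have hzc : conj z = -z := by
    apply Complex.ext <;> simp [hz]
  have e1 : ∀ s : ℝ, conj (conj (e s) * exp (z * s)) = exp (-z * s) * e s := by
    intro s
    rw [map_mul, Complex.conj_conj, ← Complex.exp_conj, map_mul, Complex.conj_ofReal, mul_comm, hzc]
  have h1 : (∫ s in (0 : ℝ)..Y, exp (-z * s) * e s) = conj (∫ s in (0 : ℝ)..Y, conj (e s) * exp (z * s)) := by
    rw [← intervalIntegral.intervalIntegral_conj]
    exact (integral_congr fun s _ => e1 s).symm
  rw [h1, Complex.conj_mul']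
  push_cast
  rfl

end Pool.Agent.SD
end

section

set_option autoImplicit false

/-! Task KD: the key inequality with two projections. -/

namespace Pool.Agent.SD

open Complex MeasureTheory intervalIntegral
open scoped ComplexConjugate

theorem KD_sum (Y η : ℝ) (hY : 0 < Y) (S : Finset ℂ) (c : ℂ → ℂ) (G : ℝ → ℂ) (hG : Continuous G)
    (hE : ∀ t : ℝ, |t| ≤ Y → ‖G t - ∑ z ∈ S, c z * exp (z * t)‖ ≤ η) (r : ℕ)
    (e : Fin r → ℝ → ℂ) (he : ∀ i, Continuous (e i)) (he1 : ∀ i, ∫ s in (0 : ℝ)..Y, ‖e i s‖ ^ 2 = 1) :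
    (∑ z ∈ S, c z * ∑ i, (∫ s in (0 : ℝ)..Y, exp (-z * s) * e i s) *
        (∫ s in (0 : ℝ)..Y, conj (e i s) * exp (z * s))).re - (r : ℝ) * (η * Y) ≤
      ∑ i, (∫ s in (0 : ℝ)..Y, conj (e i s) * KG Y G (e i) s).re := by
  have h1 : ∀ i : Fin r, (∑ z ∈ S, c z * ((∫ s in (0 : ℝ)..Y, exp (-z * s) * e i s) *
        (∫ s in (0 : ℝ)..Y, conj (e i s) * exp (z * s)))).re - η * Y ≤
      (∫ s in (0 : ℝ)..Y, conj (e i s) * KG Y G (e i) s).re := by
    intro i
    have h2 := KG_err Y η hY S c G hG hE (e i) (he i) (he1 i)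
    have h3 := (Complex.abs_re_le_norm _).trans h2
    rw [Complex.sub_re] at h3
    have h4 := (abs_le.1 h3).1
    linarith
  have h5 := Finset.sum_le_sum (s := Finset.univ) fun i _ => h1 i
  rw [Finset.sum_sub_distrib, Finset.sum_const, Finset.card_univ, Fintype.card_fin, nsmul_eq_mul] at h5
  have h6 : (∑ z ∈ S, c z * ∑ i, (∫ s in (0 : ℝ)..Y, exp (-z * s) * e i s) *
        (∫ s in (0 : ℝ)..Y, conj (e i s) * exp (z * s))).re =
      ∑ i, (∑ z ∈ S, c z * ((∫ s in (0 : ℝ)..Y, exp (-z * s) * e i s) *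
        (∫ s in (0 : ℝ)..Y, conj (e i s) * exp (z * s)))).re := by
    rw [← Complex.re_sum, Finset.sum_comm]
    congr 1
    exact Finset.sum_congr rfl fun z _ => Finset.mul_sum _ _ _
  rw [h6]
  exact h5

/-- KD. PROOF. Let `A = S.filter (0 ≤ re)`, `B = D.filter (0 ≤ re)`. `key_basis Y hY A` gives `r₁ ≤ A.card` and `e`,
`key_basis Y hY B` gives `r₂ ≤ B.card` and `f`. For `z ∈ S`: `z ∈ A` or `-conj z ∈ A` (if `z.re < 0` then `(-conj z).re > 0`), the
same for `D`, `B`. `two_systems` bounds the right side from below. By `KG_err`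
`∑ i Re ∫ conj (e i) KG (e i) ≥ Re ∑ z ∈ S, c z * ∑ i I J - r₁ η Y = Y Re ∑_S c - r₁ η Y` (`IJ_trace`), and
`∑ i Re ∫ conj (f i) KG (f i) ≥ Re ∑ z ∈ S, c z * ∑ i I J - r₂ η Y ≥ Y Re ∑_D c - r₂ η Y`: for `z ∈ D` `IJ_trace`, for
`z ∈ S \ D` (`z.re = 0`) the sum is a nonnegative real number times `c z` (`IJ_line`) and `0 ≤ (c z).re`.
`r₁, r₂ ≤ S.card`; divide by `2 Y` (`0 ≤ η` from `hE 0`). See the end of the proof of `key` in SK/Key.lean. -/
theorem key2 (Y η : ℝ) (hY : 0 < Y) (S D : Finset ℂ) (hDS : D ⊆ S)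
    (hS : ∀ z ∈ S, -(conj z) ∈ S) (hD : ∀ z ∈ D, -(conj z) ∈ D) (hre : ∀ z ∈ S, z ∉ D → z.re = 0)
    (c : ℂ → ℂ) (hc : ∀ z ∈ S, z ∉ D → 0 ≤ (c z).re) (G : ℝ → ℂ) (hG : Continuous G)
    (hE : ∀ t : ℝ, |t| ≤ Y → ‖G t - ∑ z ∈ S, c z * exp (z * t)‖ ≤ η)
    (hsym : ∀ t, 0 ≤ t → t ≤ Y → ‖G (-t)‖ = ‖G t‖) :
    Y / 2 * (2 * (∑ z ∈ S, c z).re + 2 * (∑ z ∈ D, c z).re - ((S.filter (fun z => 0 ≤ z.re)).card : ℝ) -
        3 * ((D.filter (fun z => 0 ≤ z.re)).card : ℝ) - 4 * η * (S.card : ℝ)) ≤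
      ∫ t in (0 : ℝ)..Y, (1 - t / Y) * ‖G t‖ ^ 2 := by
  classical
  have hη : 0 ≤ η := (norm_nonneg _).trans (hE 0 (by rw [abs_zero]; exact hY.le))
  obtain ⟨r₁, e, hr1, he, he1, heb, hes⟩ := key_basis Y hY (S.filter (fun z => 0 ≤ z.re))
  obtain ⟨r₂, f, hr2, hf, hf1, hfb, hfs⟩ := key_basis Y hY (D.filter (fun z => 0 ≤ z.re))
  have hmemS : ∀ z ∈ S, z ∈ S.filter (fun z => 0 ≤ z.re) ∨ -(conj z) ∈ S.filter (fun z => 0 ≤ z.re) := by
    intro z hz
    rcases le_or_gt 0 z.re with h | h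
    · exact Or.inl (Finset.mem_filter.2 ⟨hz, h⟩)
    · refine Or.inr (Finset.mem_filter.2 ⟨hS z hz, ?_⟩)
      rw [Complex.neg_re, Complex.conj_re]
      linarith
  have hmemD : ∀ z ∈ D, z ∈ D.filter (fun z => 0 ≤ z.re) ∨ -(conj z) ∈ D.filter (fun z => 0 ≤ z.re) := by
    intro z hz
    rcases le_or_gt 0 z.re with h | h
    · exact Or.inl (Finset.mem_filter.2 ⟨hz, h⟩)
    · refine Or.inr (Finset.mem_filter.2 ⟨hD z hz, ?_⟩)
      rw [Complex.neg_re, Complex.conj_re]
      linarith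
  have h1 := KD_sum Y η hY S c G hG hE r₁ e he he1
  have h2 := KD_sum Y η hY S c G hG hE r₂ f hf hf1
  have h3 : (∑ z ∈ S, c z * ∑ i, (∫ s in (0 : ℝ)..Y, exp (-z * s) * e i s) *
        (∫ s in (0 : ℝ)..Y, conj (e i s) * exp (z * s))).re = Y * (∑ z ∈ S, c z).re := by
    have h4 : ∑ z ∈ S, c z * ∑ i, (∫ s in (0 : ℝ)..Y, exp (-z * s) * e i s) *
        (∫ s in (0 : ℝ)..Y, conj (e i s) * exp (z * s)) = (Y : ℂ) * ∑ z ∈ S, c z := by
      rw [Finset.mul_sum]
      refine Finset.sum_congr rfl fun z hz => ?_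
      rw [IJ_trace Y hY _ r₁ e hes z (hmemS z hz), mul_comm]
    rw [h4, Complex.re_ofReal_mul]
  have h5 : Y * (∑ z ∈ D, c z).re ≤ (∑ z ∈ S, c z * ∑ i, (∫ s in (0 : ℝ)..Y, exp (-z * s) * f i s) *
        (∫ s in (0 : ℝ)..Y, conj (f i s) * exp (z * s))).re := by
    rw [← Finset.sum_sdiff hDS, Complex.add_re]
    have h6 : (∑ z ∈ D, c z * ∑ i, (∫ s in (0 : ℝ)..Y, exp (-z * s) * f i s) *
        (∫ s in (0 : ℝ)..Y, conj (f i s) * exp (z * s))).re = Y * (∑ z ∈ D, c z).re := by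
      have h4 : ∑ z ∈ D, c z * ∑ i, (∫ s in (0 : ℝ)..Y, exp (-z * s) * f i s) *
          (∫ s in (0 : ℝ)..Y, conj (f i s) * exp (z * s)) = (Y : ℂ) * ∑ z ∈ D, c z := by
        rw [Finset.mul_sum]
        refine Finset.sum_congr rfl fun z hz => ?_
        rw [IJ_trace Y hY _ r₂ f hfs z (hmemD z hz), mul_comm]
      rw [h4, Complex.re_ofReal_mul]
    have h7 : 0 ≤ (∑ z ∈ S \ D, c z * ∑ i, (∫ s in (0 : ℝ)..Y, exp (-z * s) * f i s) *
        (∫ s in (0 : ℝ)..Y, conj (f i s) * exp (z * s))).re := by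
      rw [Complex.re_sum]
      refine Finset.sum_nonneg fun z hz => ?_
      obtain ⟨hzS, hzD⟩ := Finset.mem_sdiff.1 hz
      have h8 : ∑ i, (∫ s in (0 : ℝ)..Y, exp (-z * s) * f i s) *
          (∫ s in (0 : ℝ)..Y, conj (f i s) * exp (z * s)) =
          ((∑ i, ‖∫ s in (0 : ℝ)..Y, conj (f i s) * exp (z * s)‖ ^ 2 : ℝ) : ℂ) := by
        rw [Complex.ofReal_sum]
        exact Finset.sum_congr rfl fun i _ => IJ_line Y (f i) z (hre z hzS hzD)
      rw [h8, mul_comm, Complex.re_ofReal_mul]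
      exact mul_nonneg (Finset.sum_nonneg fun i _ => sq_nonneg _) (hc z hzS hzD)
    linarith
  have h9 := two_systems Y hY G hG hsym r₁ r₂ e f he hf he1 hf1 heb hfb
  rw [h3] at h1
  have hr1' : (r₁ : ℝ) ≤ ((S.filter (fun z => 0 ≤ z.re)).card : ℝ) := by exact_mod_cast hr1
  have hr2' : (r₂ : ℝ) ≤ ((D.filter (fun z => 0 ≤ z.re)).card : ℝ) := by exact_mod_cast hr2
  have hAS : ((S.filter (fun z => 0 ≤ z.re)).card : ℝ) ≤ (S.card : ℝ) := by
    exact_mod_cast Finset.card_filter_le _ _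
  have hBS : ((D.filter (fun z => 0 ≤ z.re)).card : ℝ) ≤ (S.card : ℝ) := by
    exact_mod_cast (Finset.card_filter_le _ _).trans (Finset.card_le_card hDS)
  set a := ∑ i, (∫ s in (0 : ℝ)..Y, conj (e i s) * KG Y G (e i) s).re
  set b := ∑ i, (∫ s in (0 : ℝ)..Y, conj (f i s) * KG Y G (f i) s).re
  set X := ∫ t in (0 : ℝ)..Y, (1 - t / Y) * ‖G t‖ ^ 2
  set CS := (∑ z ∈ S, c z).re
  set CD := (∑ z ∈ D, c z).re
  have h10 : a + b - Y / 2 * ((r₁ : ℝ) + 3 * (r₂ : ℝ)) ≤ X := by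
    have h11 : 2 * Y * (a + b - Y / 2 * ((r₁ : ℝ) + 3 * (r₂ : ℝ))) ≤ 2 * Y * X := by
      refine le_trans (le_of_eq ?_) h9
      ring
    exact le_of_mul_le_mul_left h11 (by linarith)
  have hηY : 0 ≤ η * Y := mul_nonneg hη hY.le
  have h12 : (r₁ : ℝ) * (η * Y) ≤ (S.card : ℝ) * (η * Y) :=
    mul_le_mul_of_nonneg_right (hr1'.trans hAS) hηY
  have h13 : (r₂ : ℝ) * (η * Y) ≤ (S.card : ℝ) * (η * Y) :=
    mul_le_mul_of_nonneg_right (hr2'.trans hBS) hηY
  have h14 : Y / 2 * (r₁ : ℝ) ≤ Y / 2 * ((S.filter (fun z => 0 ≤ z.re)).card : ℝ) :=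
    mul_le_mul_of_nonneg_left hr1' (by linarith)
  have h15 : Y / 2 * (r₂ : ℝ) ≤ Y / 2 * ((D.filter (fun z => 0 ≤ z.re)).card : ℝ) :=
    mul_le_mul_of_nonneg_left hr2' (by linarith)
  linarith [h1, h2, h5, h10, h12, h13, h14, h15]

end Pool.Agent.SD
end

section

set_option autoImplicit false

/-! Task KE: the key inequality with multiplicities. -/

namespace Pool.Agent.SD

open Complex MeasureTheory intervalIntegral
open scoped ComplexConjugate

/-- KE1. The count. PROOF. `B = S.filter (fun z => z.re = 0 ∧ m z = 1)`, `D = S \ B`. The map `z ↦ -conj z` is a bijection between the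
`z` of `S` (or `D`) with `re > 0` and those with `re < 0`, so
`#{S : re ≥ 0} = #B + #{D : re = 0} + #{D : re > 0}`, `#{D : re ≥ 0} = #{D : re = 0} + #{D : re > 0}`, `#{D : re ≠ 0} = 2 #{D : re > 0}`;
the left side is `#B + 4 #{D : re = 0} + 4 #{D : re > 0}`, and `∑_S m = #B + ∑_D m`,
`∑_D m ≥ 2 #{D : re = 0} + #{D : re ≠ 0} = 2 #{D : re = 0} + 2 #{D : re > 0}` (`m ≥ 2` on the first, `m ≥ 1` on the second). -/
theorem count2 (S : Finset ℂ) (hS : ∀ z ∈ S, -(conj z) ∈ S) (m : ℂ → ℝ) (hm : ∀ z ∈ S, m z = 1 ∨ 2 ≤ m z)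
    (hms : ∀ z, m (-(conj z)) = m z) :
    ((S.filter (fun z => 0 ≤ z.re)).card : ℝ) +
        3 * (((S.filter (fun z => ¬ (z.re = 0 ∧ m z = 1))).filter (fun z => 0 ≤ z.re)).card : ℝ) ≤
      2 * ∑ z ∈ S, m z - ((S.filter (fun z => z.re = 0 ∧ m z = 1)).card : ℝ) := by
  rw [Finset.filter_filter, Finset.natCast_card_filter, Finset.natCast_card_filter,
    Finset.natCast_card_filter]
  obtain ⟨g, hg⟩ : ∃ g : ℂ → ℝ, g = fun z => (if 0 ≤ z.re then (1 : ℝ) else 0) +
      3 * (if ¬ (z.re = 0 ∧ m z = 1) ∧ 0 ≤ z.re then (1 : ℝ) else 0) - 2 * m z +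
      (if z.re = 0 ∧ m z = 1 then (1 : ℝ) else 0) := ⟨_, rfl⟩
  have h1 : ∑ z ∈ S, g (-(conj z)) = ∑ z ∈ S, g z :=
    Finset.sum_nbij' (fun z => -(conj z)) (fun z => -(conj z)) hS hS
      (fun z _ => by simp) (fun z _ => by simp) (fun z _ => rfl)
  have h2 : ∀ z ∈ S, g z + g (-(conj z)) ≤ 0 := by
    intro z hz
    have hre : (-(conj z)).re = -z.re := by simp
    have hm1 : 1 ≤ m z := by
      rcases hm z hz with h | h
      · rw [h]
      · linarith
    rw [hg]
    simp only [hre, hms z]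
    rcases lt_trichotomy z.re 0 with h | h | h
    · have a1 : ¬ (0 ≤ z.re) := not_le.2 h
      have a2 : 0 ≤ -z.re := by linarith
      have a3 : ¬ (z.re = 0) := h.ne
      have a4 : ¬ (-z.re = 0) := by
        intro h0
        exact a3 (neg_eq_zero.1 h0)
      simp only [a1, a2, a3, a4, false_and, not_false_eq_true, and_false, and_true, if_true,
        if_false]
      linarith
    · rcases hm z hz with h3 | h3
      · simp only [h, h3, neg_zero, le_refl, and_self, not_true_eq_false, false_and, if_true,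
          if_false]
        norm_num
      · have a5 : ¬ (m z = 1) := by
          intro h0
          rw [h0] at h3
          norm_num at h3
        simp only [h, neg_zero, le_refl, a5, and_false, not_false_eq_true, and_true, if_true,
          if_false]
        linarith
    · have a1 : 0 ≤ z.re := h.le
      have a2 : ¬ (0 ≤ -z.re) := by
        rw [not_le]
        linarith
      have a3 : ¬ (z.re = 0) := h.ne'
      have a4 : ¬ (-z.re = 0) := by
        intro h0
        exact a3 (neg_eq_zero.1 h0)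
      simp only [a1, a2, a3, a4, false_and, not_false_eq_true, and_false, and_true, if_true,
        if_false]
      linarith
  have h3 : ∑ z ∈ S, g z ≤ 0 := by
    have h4 : ∑ z ∈ S, (g z + g (-(conj z))) ≤ 0 := Finset.sum_nonpos h2
    rw [Finset.sum_add_distrib, h1] at h4
    linarith
  rw [hg, Finset.sum_add_distrib, Finset.sum_sub_distrib, Finset.sum_add_distrib,
    ← Finset.mul_sum, ← Finset.mul_sum] at h3
  linarith

/-- KE2. PROOF. `key2` with `D = S.filter (fun z => ¬ (z.re = 0 ∧ m z = 1))` (symmetric, as `(-conj z).re = -z.re` and `hms`), `count2`, and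
`Re ∑_D c = Re ∑_S c - ∑_{S \ D} Re c ≥ Re ∑_S c - #(S \ D)`. -/
theorem key_mult (Y η : ℝ) (hY : 0 < Y) (S : Finset ℂ) (hS : ∀ z ∈ S, -(conj z) ∈ S)
    (m : ℂ → ℝ) (hm : ∀ z ∈ S, m z = 1 ∨ 2 ≤ m z) (hms : ∀ z, m (-(conj z)) = m z)
    (c : ℂ → ℂ) (hc : ∀ z ∈ S, z.re = 0 → m z = 1 → 0 ≤ (c z).re ∧ (c z).re ≤ 1)
    (G : ℝ → ℂ) (hG : Continuous G)
    (hE : ∀ t : ℝ, |t| ≤ Y → ‖G t - ∑ z ∈ S, c z * exp (z * t)‖ ≤ η)
    (hsym : ∀ t, 0 ≤ t → t ≤ Y → ‖G (-t)‖ = ‖G t‖) :
    Y / 2 * (2 * (2 * (∑ z ∈ S, c z).re - ∑ z ∈ S, m z) -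
        ((S.filter (fun z => z.re = 0 ∧ m z = 1)).card : ℝ) - 4 * η * (S.card : ℝ)) ≤
      ∫ t in (0 : ℝ)..Y, (1 - t / Y) * ‖G t‖ ^ 2 := by
  have hre' : ∀ z : ℂ, (-(conj z)).re = -z.re := fun z => by simp
  have h1 := key2 Y η hY S (S.filter (fun z => ¬ (z.re = 0 ∧ m z = 1))) (Finset.filter_subset _ _) hS
    (fun z hz => by
      rw [Finset.mem_filter] at hz ⊢
      refine ⟨hS z hz.1, fun h => hz.2 ⟨?_, ?_⟩⟩
      · have h0 := h.1
        rw [hre' z] at h0
        linarith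
      · rw [← hms z]
        exact h.2)
    (fun z hz hz' => by
      rw [Finset.mem_filter] at hz'
      by_contra h0
      exact hz' ⟨hz, fun h => h0 h.1⟩)
    c
    (fun z hz hz' => by
      rw [Finset.mem_filter] at hz'
      have h0 : z.re = 0 ∧ m z = 1 := by
        by_contra h0
        exact hz' ⟨hz, h0⟩
      exact (hc z hz h0.1 h0.2).1)
    G hG hE hsym
  refine le_trans (mul_le_mul_of_nonneg_left ?_ (by linarith)) h1
  have h2 := count2 S hS m hm hms
  have h3 := Finset.sum_filter_add_sum_filter_not S (fun z => z.re = 0 ∧ m z = 1) c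
  have h4 : (∑ z ∈ S, c z).re = (∑ z ∈ S.filter (fun z => z.re = 0 ∧ m z = 1), c z).re +
      (∑ z ∈ S.filter (fun z => ¬ (z.re = 0 ∧ m z = 1)), c z).re := by
    rw [← h3, Complex.add_re]
  have h5 : (∑ z ∈ S.filter (fun z => z.re = 0 ∧ m z = 1), c z).re ≤
      ((S.filter (fun z => z.re = 0 ∧ m z = 1)).card : ℝ) := by
    rw [Complex.re_sum]
    refine (Finset.sum_le_card_nsmul _ _ 1 ?_).trans ?_
    · intro z hz
      rw [Finset.mem_filter] at hz
      exact (hc z hz.1 hz.2.1 hz.2.2).2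
    · rw [nsmul_eq_mul, mul_one]
  linarith

end Pool.Agent.SD
end

section

end

section

end

section

end

section

end

section

set_option autoImplicit false

/-! Key inequality: sums of exponentials with arbitrary complex exponents. -/

namespace Pool.Agent.SK

open Complex MeasureTheory intervalIntegral
open scoped ComplexConjugate

/-- double integral of an even function of the difference -/
theorem key_double (Y : ℝ) (hY : 0 < Y) (F : ℝ → ℝ) (hF : Continuous F)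
    (hs : ∀ t, 0 ≤ t → t ≤ Y → F (-t) = F t) :
    ∫ s in (0 : ℝ)..Y, ∫ s' in (0 : ℝ)..Y, F (s - s') = 2 * Y * ∫ t in (0 : ℝ)..Y, (1 - t / Y) * F t := by
  have hI : ∀ a b : ℝ, IntervalIntegrable F volume a b := fun a b => hF.intervalIntegrable a b
  set Φ : ℝ → ℝ := fun s => ∫ t in (0 : ℝ)..s, F t with hΦ
  have hΦd : ∀ s, HasDerivAt Φ (F s) s := fun s =>
    integral_hasDerivAt_right (hI 0 s) hF.aestronglyMeasurable.stronglyMeasurableAtFilter
      hF.continuousAt
  have hΦc : Continuous Φ := continuous_iff_continuousAt.2 fun s => (hΦd s).continuousAt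
  have hin : ∀ s ∈ Set.uIcc (0 : ℝ) Y, ∫ s' in (0 : ℝ)..Y, F (s - s') = Φ s + Φ (Y - s) := by
    intro s hs0
    rw [Set.uIcc_of_le hY.le] at hs0
    rw [integral_comp_sub_left (fun t => F t) s, sub_zero]
    rw [← integral_add_adjacent_intervals (hI (s - Y) 0) (hI 0 s)]
    have e : ∫ t in (s - Y)..0, F t = Φ (Y - s) := by
      have e1 : ∫ t in (0 : ℝ)..(Y - s), F (-t) = ∫ t in (s - Y)..0, F t := by
        rw [integral_comp_neg (fun t => F t)]
        simp
      rw [← e1, hΦ]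
      refine integral_congr fun t ht => ?_
      rw [Set.uIcc_of_le (by linarith [hs0.2])] at ht
      exact hs t ht.1 (by linarith [ht.2, hs0.1])
    rw [e]; ring
  rw [integral_congr hin]
  have hΦI : IntervalIntegrable Φ volume 0 Y := hΦc.intervalIntegrable _ _
  have hΦI2 : IntervalIntegrable (fun s => Φ (Y - s)) volume 0 Y :=
    (hΦc.comp (continuous_const.sub continuous_id)).intervalIntegrable _ _
  rw [integral_add hΦI hΦI2, integral_comp_sub_left (fun s => Φ s) Y]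
  simp only [sub_self, sub_zero]
  have hparts : ∫ s in (0 : ℝ)..Y, Φ s = ∫ t in (0 : ℝ)..Y, (Y - t) * F t := by
    have h1 := integral_mul_deriv_eq_deriv_mul (a := 0) (b := Y) (u := fun t => Y - t) (v := Φ)
      (u' := fun _ => -1) (v' := F)
      (fun x _ => by simpa using (hasDerivAt_id x).const_sub Y) (fun x _ => hΦd x)
      (by simp) (hI 0 Y)
    have h0 : Φ 0 = 0 := by simp [hΦ]
    rw [h1, h0]
    simp
  have hfin : ∫ t in (0 : ℝ)..Y, (Y - t) * F t = Y * ∫ t in (0 : ℝ)..Y, (1 - t / Y) * F t := by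
    rw [← intervalIntegral.integral_const_mul]
    refine integral_congr fun t _ => ?_
    show (Y - t) * F t = Y * ((1 - t / Y) * F t)
    field_simp
  rw [hparts, hfin]
  ring

private theorem key_memLp (Y : ℝ) (g : ℝ → ℂ) (hg : Continuous g) :
    MemLp g 2 (volume.restrict (Set.Ioc 0 Y)) := by
  rw [memLp_two_iff_integrable_sq_norm hg.aestronglyMeasurable]
  exact (by fun_prop : Continuous fun x => ‖g x‖ ^ 2).integrableOn_Ioc

private noncomputable def ct (Y : ℝ) (g : ℝ → ℂ) (hg : Continuous g) :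
    Lp ℂ 2 (volume.restrict (Set.Ioc (0 : ℝ) Y)) := (key_memLp Y g hg).toLp g

private theorem inner_ct (Y : ℝ) (hY : 0 < Y) (f g : ℝ → ℂ) (hf : Continuous f) (hg : Continuous g) :
    inner ℂ (ct Y f hf) (ct Y g hg) = ∫ s in (0 : ℝ)..Y, conj (f s) * g s := by
  rw [L2.inner_def, integral_of_le hY.le]
  refine integral_congr_ae ?_
  filter_upwards [(key_memLp Y f hf).coeFn_toLp, (key_memLp Y g hg).coeFn_toLp] with s h1 h2
  show inner ℂ ((ct Y f hf) s) ((ct Y g hg) s) = _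
  unfold ct
  rw [h1, h2, RCLike.inner_apply']

private theorem norm_sq_ct (Y : ℝ) (hY : 0 < Y) (f : ℝ → ℂ) (hf : Continuous f) :
    ‖ct Y f hf‖ ^ 2 = ∫ s in (0 : ℝ)..Y, ‖f s‖ ^ 2 := by
  have h := inner_self_eq_norm_sq_to_K (𝕜 := ℂ) (ct Y f hf)
  rw [inner_ct Y hY] at h
  have h2 : ∫ s in (0 : ℝ)..Y, conj (f s) * f s = ((∫ s in (0 : ℝ)..Y, ‖f s‖ ^ 2 : ℝ) : ℂ) := by
    rw [← intervalIntegral.integral_ofReal]
    refine integral_congr fun s _ => ?_
    show conj (f s) * f s = ((‖f s‖ ^ 2 : ℝ) : ℂ)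
    rw [Complex.conj_mul']
    push_cast
    rfl
  rw [h2] at h
  have h3 : ((∫ s in (0 : ℝ)..Y, ‖f s‖ ^ 2 : ℝ) : ℂ) = ((‖ct Y f hf‖ ^ 2 : ℝ) : ℂ) := by
    rw [h]; push_cast; rfl
  exact (Complex.ofReal_injective h3).symm

private theorem ct_congr (Y : ℝ) {f g : ℝ → ℂ} (hf : Continuous f) (hg : Continuous g)
    (h : ∀ s, f s = g s) : ct Y f hf = ct Y g hg := by
  have : f = g := funext h
  subst this
  rfl

private theorem ct_zero (Y : ℝ) : ct Y (fun _ => 0) continuous_const = 0 := by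
  unfold ct
  exact MemLp.toLp_zero _

private theorem ct_add (Y : ℝ) (f g : ℝ → ℂ) (hf : Continuous f) (hg : Continuous g) :
    ct Y (fun s => f s + g s) (hf.add hg) = ct Y f hf + ct Y g hg := by
  unfold ct
  exact MemLp.toLp_add _ _

private theorem ct_smul (Y : ℝ) (a : ℂ) (f : ℝ → ℂ) (hf : Continuous f) :
    ct Y (fun s => a * f s) (continuous_const.mul hf) = a • ct Y f hf := by
  unfold ct
  exact MemLp.toLp_const_smul a _

private theorem ct_sum {ι : Type*} (Y : ℝ) (S : Finset ι) (a : ι → ℂ) (f : ι → ℝ → ℂ)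
    (hf : ∀ i, Continuous (f i)) :
    ct Y (fun s => ∑ i ∈ S, a i * f i s) (continuous_finsetSum _ fun i _ => continuous_const.mul (hf i))
      = ∑ i ∈ S, a i • ct Y (f i) (hf i) := by
  classical
  induction S using Finset.induction_on with
  | empty =>
    rw [Finset.sum_empty, ← ct_zero Y]
    exact ct_congr _ _ _ fun s => by simp
  | insert j S hj ih =>
    rw [Finset.sum_insert hj, ← ih, ← ct_smul, ← ct_add]
    exact ct_congr _ _ _ fun s => by rw [Finset.sum_insert hj]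

/-- An orthonormal system of exponential sums which spans the exponentials. -/
private theorem key_basis (Y : ℝ) (hY : 0 < Y) (S : Finset ℂ) : ∃ (r : ℕ) (e : Fin r → ℝ → ℂ),
    r ≤ S.card ∧ (∀ i, Continuous (e i)) ∧
    (∀ i, ∫ s in (0 : ℝ)..Y, ‖e i s‖ ^ 2 = 1) ∧
    (∀ g : ℝ → ℂ, Continuous g →
      ∑ i, ‖∫ s in (0 : ℝ)..Y, g s * e i s‖ ^ 2 ≤ ∫ s in (0 : ℝ)..Y, ‖g s‖ ^ 2) ∧
    (∀ z ∈ S, ∀ g : ℝ → ℂ, Continuous g →
      ∑ i, (∫ s in (0 : ℝ)..Y, g s * e i s) * (∫ s in (0 : ℝ)..Y, conj (e i s) * exp (z * s)) =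
        ∫ s in (0 : ℝ)..Y, g s * exp (z * s)) := by
  classical
  have hcu : ∀ z : ℂ, Continuous fun s : ℝ => exp (z * s) := fun z => by fun_prop
  set u : ℂ → Lp ℂ 2 (volume.restrict (Set.Ioc (0 : ℝ) Y)) := fun z => ct Y _ (hcu z) with hu
  set W := Submodule.span ℂ (((S.image u : Finset _)) : Set (Lp ℂ 2 (volume.restrict (Set.Ioc (0 : ℝ) Y)))) with hW
  have : FiniteDimensional ℂ W := FiniteDimensional.span_finset ℂ _
  set b := stdOrthonormalBasis ℂ W with hb
  have hex : ∀ i : Fin (Module.finrank ℂ W), ∃ (g : ℝ → ℂ) (hg : Continuous g),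
      ct Y g hg = (b i : Lp ℂ 2 (volume.restrict (Set.Ioc (0 : ℝ) Y))) := by
    intro i
    have hi : ((b i : W) : Lp ℂ 2 (volume.restrict (Set.Ioc (0 : ℝ) Y))) ∈
        Submodule.span ℂ (((S.image u : Finset _)) : Set (Lp ℂ 2 (volume.restrict (Set.Ioc (0 : ℝ) Y)))) := (b i).2
    rw [Finset.coe_image, Submodule.mem_span_image_finset_iff_exists_fun] at hi
    obtain ⟨c, hc⟩ := hi
    refine ⟨fun s => ∑ z : S, c z * exp (z * s), by fun_prop, ?_⟩
    rw [← hc]
    exact ct_sum Y Finset.univ (fun z : S => c z) (fun (z : S) s => exp (z * s)) fun z => hcu z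
  choose e he heb using hex
  have hon : Orthonormal ℂ (fun i => ((b i : W) : Lp ℂ 2 (volume.restrict (Set.Ioc (0 : ℝ) Y)))) :=
    b.orthonormal.comp_linearIsometry W.subtypeₗᵢ
  have hinn : ∀ (i : Fin (Module.finrank ℂ W)) (g : ℝ → ℂ) (hg : Continuous g),
      inner ℂ (ct Y (fun s => conj (g s)) (Complex.continuous_conj.comp hg))
        ((b i : W) : Lp ℂ 2 (volume.restrict (Set.Ioc (0 : ℝ) Y))) = ∫ s in (0 : ℝ)..Y, g s * e i s := by
    intro i g hg
    rw [← heb i, inner_ct Y hY]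
    refine integral_congr fun s _ => ?_
    show conj (conj (g s)) * e i s = _
    rw [Complex.conj_conj]
  refine ⟨Module.finrank ℂ W, e, ?_, he, ?_, ?_, ?_⟩
  · exact (finrank_span_finset_le_card (R := ℂ) (S.image u)).trans Finset.card_image_le
  · intro i
    rw [← norm_sq_ct Y hY _ (he i), heb i, hon.1 i]
    norm_num
  · intro g hg
    have h1 := hon.sum_inner_products_le (ct Y (fun s => conj (g s)) (Complex.continuous_conj.comp hg))
      (s := Finset.univ)
    rw [norm_sq_ct Y hY] at h1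
    refine le_trans (le_of_eq ?_) (h1.trans (le_of_eq ?_))
    · refine Finset.sum_congr rfl fun i _ => ?_
      rw [← hinn i g hg, ← norm_inner_symm]
    · refine integral_congr fun s _ => ?_
      show ‖conj (g s)‖ ^ 2 = _
      rw [RCLike.norm_conj]
  · intro z hz g hg
    have hzW : u z ∈ W := Submodule.subset_span (by
      rw [Finset.coe_image]; exact Set.mem_image_of_mem u hz)
    have h1 := b.sum_repr' (⟨u z, hzW⟩ : W)
    have h2 : ∑ i, (inner ℂ (b i) (⟨u z, hzW⟩ : W)) •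
        ((b i : W) : Lp ℂ 2 (volume.restrict (Set.Ioc (0 : ℝ) Y))) = u z := by
      have := congrArg (fun x : W => (x : Lp ℂ 2 (volume.restrict (Set.Ioc (0 : ℝ) Y)))) h1
      simpa using this
    have h3 := congrArg (fun x => inner ℂ (ct Y (fun s => conj (g s))
      (Complex.continuous_conj.comp hg)) x) h2
    simp only [inner_sum, inner_smul_right] at h3
    have h4 : inner ℂ (ct Y (fun s => conj (g s)) (Complex.continuous_conj.comp hg)) (u z)
        = ∫ s in (0 : ℝ)..Y, g s * exp (z * s) := by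
      rw [hu, inner_ct Y hY]
      refine integral_congr fun s _ => ?_
      show conj (conj (g s)) * _ = _
      rw [Complex.conj_conj]
    rw [← h4, ← h3]
    refine Finset.sum_congr rfl fun i _ => ?_
    rw [hinn i g hg, mul_comm]
    congr 1
    have : (inner ℂ (b i) (⟨u z, hzW⟩ : W)) =
        inner ℂ ((b i : W) : Lp ℂ 2 (volume.restrict (Set.Ioc (0 : ℝ) Y))) (u z) := rfl
    rw [this, ← heb i, hu, inner_ct Y hY]

private theorem key_l1 (Y : ℝ) (hY : 0 < Y) (e : ℝ → ℂ) (he : Continuous e)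
    (h1 : ∫ s in (0 : ℝ)..Y, ‖e s‖ ^ 2 = 1) : ∫ s in (0 : ℝ)..Y, ‖e s‖ ≤ √Y := by
  have hs : 0 < √Y := Real.sqrt_pos.2 hY
  have hss : √Y * √Y = Y := Real.mul_self_sqrt hY.le
  have h : ∫ s in (0 : ℝ)..Y, ‖e s‖ ≤ ∫ s in (0 : ℝ)..Y, (1 / (2 * √Y) + √Y / 2 * ‖e s‖ ^ 2) := by
    refine integral_mono_on hY.le (he.norm.intervalIntegrable _ _)
      ((by fun_prop : Continuous fun s => 1 / (2 * √Y) + √Y / 2 * ‖e s‖ ^ 2).intervalIntegrable _ _)
      fun s _ => ?_
    have h0 := sq_nonneg (1 - √Y * ‖e s‖)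
    have : ‖e s‖ = (2 * √Y * ‖e s‖) / (2 * √Y) := by field_simp
    rw [this]
    have e2 : 1 / (2 * √Y) + √Y / 2 * ‖e s‖ ^ 2 = (1 + (√Y * ‖e s‖) ^ 2) / (2 * √Y) := by
      field_simp
    rw [show √Y / 2 * ((2 * √Y * ‖e s‖) / (2 * √Y)) ^ 2 = √Y / 2 * ‖e s‖ ^ 2 by
      congr 2; field_simp, e2]
    gcongr
    nlinarith
  refine h.trans (le_of_eq ?_)
  rw [intervalIntegral.integral_add (by simp) ((by fun_prop : Continuous fun s => √Y / 2 * ‖e s‖ ^ 2).intervalIntegrable _ _),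
    intervalIntegral.integral_const_mul, h1, intervalIntegral.integral_const, sub_zero, smul_eq_mul]
  have : Y * (1 / (2 * √Y)) = √Y / 2 := by
    field_simp
    linarith
  rw [this]; ring

/-- **Key inequality.** Let `G` be a sum of `n` exponentials (with arbitrary complex exponents) up to
an error `η` on `[-Y, Y]`, with `|G (-t)| = |G t|`. Then
`∫_0^Y (1 - t/Y) |G|² ≥ (Y/2) (2 Re ∑ c - n (1 + 2 η))`. -/
theorem key (Y η : ℝ) (hY : 0 < Y) (S : Finset ℂ) (c : ℂ → ℂ) (G : ℝ → ℂ) (hG : Continuous G)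
    (hE : ∀ t, |t| ≤ Y → ‖G t - ∑ z ∈ S, c z * exp (z * t)‖ ≤ η)
    (hsym : ∀ t, 0 ≤ t → t ≤ Y → ‖G (-t)‖ = ‖G t‖) :
    Y / 2 * (2 * (∑ z ∈ S, c z).re - S.card * (1 + 2 * η)) ≤
      ∫ t in (0 : ℝ)..Y, (1 - t / Y) * ‖G t‖ ^ 2 := by
  have hη : 0 ≤ η := (norm_nonneg _).trans (hE 0 (by simpa using hY.le))
  obtain ⟨r, e, hr, hec, hen, hbess, hspan⟩ := key_basis Y hY S
  set Ke : Fin r → ℝ → ℂ := fun i s => ∫ s' in (0 : ℝ)..Y, G (s - s') * e i s' with hKe
  have hKc : ∀ i, Continuous (Ke i) := by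
    intro i
    have hc := hec i
    exact intervalIntegral.continuous_parametric_intervalIntegral_of_continuous'
      (f := fun s s' => G (s - s') * e i s') (by fun_prop) 0 Y
  -- Step A
  have hA : ∑ i, ∫ s in (0 : ℝ)..Y, ‖Ke i s‖ ^ 2 ≤ 2 * Y * ∫ t in (0 : ℝ)..Y, (1 - t / Y) * ‖G t‖ ^ 2 := by
    rw [← key_double Y hY (fun t => ‖G t‖ ^ 2) (by fun_prop) (fun t h1 h2 => by
      show ‖G (-t)‖ ^ 2 = ‖G t‖ ^ 2
      rw [hsym t h1 h2])]
    rw [← intervalIntegral.integral_finsetSum (fun i _ => (by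
      have := hKc i
      fun_prop : Continuous fun s => ‖Ke i s‖ ^ 2).intervalIntegrable _ _)]
    refine integral_mono_on hY.le ?_ ?_ ?_
    · refine Continuous.intervalIntegrable ?_ _ _
      refine continuous_finsetSum _ fun i _ => ?_
      have := hKc i
      fun_prop
    · refine Continuous.intervalIntegrable ?_ _ _
      exact intervalIntegral.continuous_parametric_intervalIntegral_of_continuous'
        (f := fun s s' => ‖G (s - s')‖ ^ 2) (by fun_prop) 0 Y
    · intro s _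
      exact hbess (fun s' => G (s - s')) (by fun_prop)
  -- Step B
  have hB : ∀ i, 2 * Y * (∫ s in (0 : ℝ)..Y, conj (e i s) * Ke i s).re - Y ^ 2 ≤
      ∫ s in (0 : ℝ)..Y, ‖Ke i s‖ ^ 2 := by
    intro i
    have h1 := hKc i
    have h2 := hec i
    have hcc : Continuous fun s => conj (e i s) * Ke i s :=
      (Complex.continuous_conj.comp h2).mul h1
    have e1 : (∫ s in (0 : ℝ)..Y, conj (e i s) * Ke i s).re = ∫ s in (0 : ℝ)..Y, (conj (e i s) * Ke i s).re := by
      have hii : IntervalIntegrable (fun s => conj (e i s) * Ke i s) volume 0 Y :=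
        hcc.intervalIntegrable 0 Y
      exact (Complex.reCLM.intervalIntegral_comp_comm hii).symm
    rw [e1]
    have e2 : 2 * Y * (∫ s in (0 : ℝ)..Y, (conj (e i s) * Ke i s).re) - Y ^ 2 =
        ∫ s in (0 : ℝ)..Y, (2 * Y * (conj (e i s) * Ke i s).re - Y ^ 2 * ‖e i s‖ ^ 2) := by
      rw [intervalIntegral.integral_sub ((by fun_prop : Continuous fun s => 2 * Y * (conj (e i s) * Ke i s).re).intervalIntegrable _ _)
        ((by fun_prop : Continuous fun s => Y ^ 2 * ‖e i s‖ ^ 2).intervalIntegrable _ _),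
        intervalIntegral.integral_const_mul, intervalIntegral.integral_const_mul, hen i, mul_one]
    rw [e2]
    refine integral_mono_on hY.le
      ((by fun_prop : Continuous fun s => 2 * Y * (conj (e i s) * Ke i s).re - Y ^ 2 * ‖e i s‖ ^ 2).intervalIntegrable _ _)
      ((by fun_prop : Continuous fun s => ‖Ke i s‖ ^ 2).intervalIntegrable _ _) fun s _ => ?_
    have h3 := sq_nonneg ‖Ke i s - Y * e i s‖
    have h4 : ‖Ke i s - Y * e i s‖ ^ 2 = ‖Ke i s‖ ^ 2 - 2 * Y * (conj (e i s) * Ke i s).re + Y ^ 2 * ‖e i s‖ ^ 2 := by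
      rw [← Complex.normSq_eq_norm_sq, ← Complex.normSq_eq_norm_sq, ← Complex.normSq_eq_norm_sq,
        Complex.normSq_apply, Complex.normSq_apply, Complex.normSq_apply]
      simp only [Complex.sub_re, Complex.sub_im, Complex.mul_re, Complex.mul_im, Complex.ofReal_re,
        Complex.ofReal_im, Complex.conj_re, Complex.conj_im]
      ring
    linarith
  -- Step C
  set I : ℂ → Fin r → ℂ := fun z i => ∫ s in (0 : ℝ)..Y, exp (-z * s) * e i s with hI
  set J : ℂ → Fin r → ℂ := fun z i => ∫ s in (0 : ℝ)..Y, conj (e i s) * exp (z * s) with hJ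
  have hC : ∀ i, ‖(∫ s in (0 : ℝ)..Y, conj (e i s) * Ke i s) - ∑ z ∈ S, c z * (I z i * J z i)‖ ≤ η * Y := by
    intro i
    have h2 := hec i
    have h1 := hKc i
    set D : ℝ → ℂ := fun s => Ke i s - ∑ z ∈ S, c z * exp (z * s) * I z i with hD
    have hDb : ∀ s ∈ Set.Icc (0 : ℝ) Y, ‖D s‖ ≤ η * √Y := by
      intro s hs
      have e1 : ∑ z ∈ S, c z * exp (z * s) * I z i =
          ∫ s' in (0 : ℝ)..Y, (∑ z ∈ S, c z * exp (z * (s - s' : ℝ))) * e i s' := by
        have : ∀ s' : ℝ, (∑ z ∈ S, c z * exp (z * (s - s' : ℝ))) * e i s' =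
            ∑ z ∈ S, c z * exp (z * s) * (exp (-z * s') * e i s') := by
          intro s'
          rw [Finset.sum_mul]
          refine Finset.sum_congr rfl fun z _ => ?_
          have : exp (z * (s - s' : ℝ)) = exp (z * s) * exp (-z * s') := by
            rw [← exp_add]; congr 1; push_cast; ring
          rw [this]; ring
        rw [integral_congr fun s' _ => this s', intervalIntegral.integral_finsetSum]
        · refine Finset.sum_congr rfl fun z _ => ?_
          rw [intervalIntegral.integral_const_mul]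
        · intro z _
          exact (by fun_prop : Continuous fun s' : ℝ => c z * exp (z * s) * (exp (-z * s') * e i s')).intervalIntegrable _ _
      have e2 : D s = ∫ s' in (0 : ℝ)..Y, (G (s - s') - ∑ z ∈ S, c z * exp (z * (s - s' : ℝ))) * e i s' := by
        rw [hD]
        show Ke i s - _ = _
        rw [e1, hKe, ← intervalIntegral.integral_sub]
        · refine integral_congr fun s' _ => ?_
          show G (s - s') * e i s' - _ * e i s' = _
          ring
        · exact (by fun_prop : Continuous fun s' => G (s - s') * e i s').intervalIntegrable _ _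
        · exact (by fun_prop : Continuous fun s' : ℝ => (∑ z ∈ S, c z * exp (z * (s - s' : ℝ))) * e i s').intervalIntegrable _ _
      rw [e2]
      calc ‖∫ s' in (0 : ℝ)..Y, (G (s - s') - ∑ z ∈ S, c z * exp (z * (s - s' : ℝ))) * e i s'‖
          ≤ ∫ s' in (0 : ℝ)..Y, η * ‖e i s'‖ := by
            refine intervalIntegral.norm_integral_le_of_norm_le hY.le ?_
              ((by fun_prop : Continuous fun s' => η * ‖e i s'‖).intervalIntegrable _ _)
            refine Filter.Eventually.of_forall fun s' hs' => ?_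
            rw [norm_mul]
            gcongr
            refine hE _ ?_
            rw [abs_le]
            constructor <;> linarith [hs.1, hs.2, hs'.1, hs'.2]
        _ = η * ∫ s' in (0 : ℝ)..Y, ‖e i s'‖ := by rw [intervalIntegral.integral_const_mul]
        _ ≤ η * √Y := by gcongr; exact key_l1 Y hY _ h2 (hen i)
    have e3 : ∑ z ∈ S, c z * (I z i * J z i) = ∫ s in (0 : ℝ)..Y, conj (e i s) * ∑ z ∈ S, c z * exp (z * s) * I z i := by
      have : ∀ s : ℝ, conj (e i s) * ∑ z ∈ S, c z * exp (z * s) * I z i =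
          ∑ z ∈ S, c z * I z i * (conj (e i s) * exp (z * s)) := by
        intro s
        rw [Finset.mul_sum]
        exact Finset.sum_congr rfl fun z _ => by ring
      rw [integral_congr fun s _ => this s, intervalIntegral.integral_finsetSum]
      · refine Finset.sum_congr rfl fun z _ => ?_
        rw [intervalIntegral.integral_const_mul]
        ring
      · intro z _
        exact (continuous_const.mul ((Complex.continuous_conj.comp h2).mul (by fun_prop))).intervalIntegrable _ _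
    have hsumc : Continuous fun s : ℝ => ∑ z ∈ S, c z * exp (z * s) * I z i := by fun_prop
    have hi1 : IntervalIntegrable (fun s => conj (e i s) * Ke i s) volume 0 Y :=
      ((Complex.continuous_conj.comp h2).mul h1).intervalIntegrable _ _
    have hi2 : IntervalIntegrable (fun s : ℝ => conj (e i s) * ∑ z ∈ S, c z * exp (z * s) * I z i) volume 0 Y :=
      ((Complex.continuous_conj.comp h2).mul hsumc).intervalIntegrable _ _
    rw [e3, ← intervalIntegral.integral_sub hi1 hi2]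
    calc ‖∫ s in (0 : ℝ)..Y, (conj (e i s) * Ke i s - conj (e i s) * ∑ z ∈ S, c z * exp (z * s) * I z i)‖
        ≤ ∫ s in (0 : ℝ)..Y, ‖e i s‖ * (η * √Y) := by
          refine intervalIntegral.norm_integral_le_of_norm_le hY.le ?_
            ((by fun_prop : Continuous fun s => ‖e i s‖ * (η * √Y)).intervalIntegrable _ _)
          refine Filter.Eventually.of_forall fun s hs => ?_
          have : conj (e i s) * Ke i s - conj (e i s) * ∑ z ∈ S, c z * exp (z * s) * I z i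
              = conj (e i s) * D s := by rw [hD]; ring
          rw [this, norm_mul, RCLike.norm_conj]
          gcongr
          exact hDb s ⟨hs.1.le, hs.2⟩
      _ = (∫ s in (0 : ℝ)..Y, ‖e i s‖) * (η * √Y) := by rw [intervalIntegral.integral_mul_const]
      _ ≤ √Y * (η * √Y) := by gcongr; exact key_l1 Y hY _ h2 (hen i)
      _ = η * Y := by rw [mul_left_comm, Real.mul_self_sqrt hY.le]
  have hT : ∑ i, ∑ z ∈ S, c z * (I z i * J z i) = Y * ∑ z ∈ S, c z := by
    rw [Finset.sum_comm, Finset.mul_sum]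
    refine Finset.sum_congr rfl fun z hz => ?_
    rw [← Finset.mul_sum]
    have := hspan z hz (fun s => exp (-z * s)) (by fun_prop)
    rw [hI, hJ]
    rw [this]
    have e4 : ∀ s : ℝ, exp (-z * s) * exp (z * s) = 1 := fun s => by
      rw [← exp_add]; simp
    rw [integral_congr fun s _ => e4 s, intervalIntegral.integral_const]
    simp [mul_comm]
  have hre : Y * (∑ z ∈ S, c z).re - r * (η * Y) ≤ ∑ i, (∫ s in (0 : ℝ)..Y, conj (e i s) * Ke i s).re := by
    have h1 : ∀ i : Fin r, (∑ z ∈ S, c z * (I z i * J z i)).re - η * Y ≤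
        (∫ s in (0 : ℝ)..Y, conj (e i s) * Ke i s).re := by
      intro i
      have := (Complex.abs_re_le_norm _).trans (hC i)
      rw [Complex.sub_re] at this
      linarith [(abs_le.1 this).1]
    have h2 := Finset.sum_le_sum fun i (_ : i ∈ (Finset.univ : Finset (Fin r))) => h1 i
    rw [Finset.sum_sub_distrib, ← Complex.re_sum, hT] at h2
    simp only [Finset.sum_const, Finset.card_univ, Fintype.card_fin, nsmul_eq_mul] at h2
    have h3 : ((Y : ℂ) * ∑ z ∈ S, c z).re = Y * (∑ z ∈ S, c z).re := by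
      rw [Complex.re_ofReal_mul]
    rw [h3] at h2
    exact h2
  have hsum := Finset.sum_le_sum fun i (_ : i ∈ (Finset.univ : Finset (Fin r))) => hB i
  rw [Finset.sum_sub_distrib, ← Finset.mul_sum] at hsum
  simp only [Finset.sum_const, Finset.card_univ, Fintype.card_fin, nsmul_eq_mul] at hsum
  have hrc : (r : ℝ) ≤ S.card := by exact_mod_cast hr
  have hfin := hsum.trans hA
  have h5 : 2 * Y * (Y * (∑ z ∈ S, c z).re - r * (η * Y)) ≤
      2 * Y * ∑ i, (∫ s in (0 : ℝ)..Y, conj (e i s) * Ke i s).re := by gcongr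
  have h6 : (2 * Y) * (Y / 2 * (2 * (∑ z ∈ S, c z).re - S.card * (1 + 2 * η))) ≤
      2 * Y * ∫ t in (0 : ℝ)..Y, (1 - t / Y) * ‖G t‖ ^ 2 := by
    have h7 : (r : ℝ) * (Y ^ 2 * (1 + 2 * η)) ≤ S.card * (Y ^ 2 * (1 + 2 * η)) := by gcongr
    nlinarith
  exact le_of_mul_le_mul_left h6 (by linarith)

end Pool.Agent.SK
end

section

set_option autoImplicit false

/-! Task LC: numbers. -/

namespace Pool.Agent.SD

/-- LC. Pure real numbers. PROOF. As `chain_final` in SK/C7B.lean (copy it), with the new hypothesis on `G₁ + G₂` and the extra variable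
`N ≥ 0`. `(1+κ) X ≥ G₂ - (1+1/κ) 3 (1 + P + C₀² Y)`,
`G₂ ≥ (Y/2)(2 (h/π) L - N - 2 η L - 12 p - 20 C₀ - 100) - G₁`, `G₁ ≤ (1+κ) L² h/(2π) + (1+1/κ) 3 (P + C₀² A)`. So with `H = h/(2π)`:
`(1+κ) X ≥ H (2 L Y - L²) - (Y/2) N - E`, `E ≤ (δ/2) L Y` for small `η, κ, θ` and large `L`.
If `X < H (2LY - L²) - (Y/2) N - δ L Y =: R` then `R > 0` and `(1+κ) X < R + κ R`, `R ≤ H 2 L Y ≤ L Y`, so
`(1+κ) X < R + κ L Y`, contradiction as `κ ≤ δ/10`. In addition `η ≤ δ h`. -/
theorem chain_final2 (h δ : ℝ) (hh : 0 < h) (hh1 : h ≤ 1) (hδ : 0 < δ) : ∃ η κ θ : ℝ, 0 < η ∧ η ≤ 1 / 2 ∧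
    η ≤ δ * h ∧ 0 < κ ∧ κ ≤ 1 ∧ 0 < θ ∧ θ ≤ 1 / 100 ∧ ∀ C₀ : ℝ, 0 ≤ C₀ → ∃ L₀ : ℝ, 1 ≤ L₀ ∧
    ∀ L Y A p P X G₁ G₂ N : ℝ,
      L₀ ≤ L → L ≤ 2 * Y → 0 ≤ A → A ≤ Y → 0 ≤ p → p ^ 2 ≤ 4 * θ * L ^ 2 → P ≤ 4 * θ * L ^ 2 → 0 ≤ X → 0 ≤ N →
      Y / 2 * (2 * (h / Real.pi * L) - N - 2 * η * L - 12 * p - 20 * C₀ - 100) ≤ G₁ + G₂ →
      G₁ ≤ (1 + κ) * (L ^ 2 * (h / (2 * Real.pi))) + (1 + 1 / κ) * 3 * (P + C₀ ^ 2 * A) →
      G₂ ≤ (1 + κ) * X + (1 + 1 / κ) * 3 * (1 + P + C₀ ^ 2 * Y) →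
      h / (2 * Real.pi) * (2 * (L * Y) - L ^ 2) - Y / 2 * N - δ * (L * Y) ≤ X := by
  obtain ⟨m, hm0, hm1, hmδ⟩ : ∃ m : ℝ, 0 < m ∧ m ≤ 1 ∧ m ≤ δ :=
    ⟨min 1 δ, lt_min one_pos hδ, min_le_left _ _, min_le_right _ _⟩
  obtain ⟨κ, hκ⟩ : ∃ κ : ℝ, κ = m / 10 := ⟨_, rfl⟩
  obtain ⟨s, hs⟩ : ∃ s : ℝ, s = κ * m / 1000 := ⟨_, rfl⟩
  have hκ0 : 0 < κ := by rw [hκ]; positivity
  have hκ1 : κ ≤ 1 / 10 := by rw [hκ]; linarith
  have hκδ : κ ≤ δ / 10 := by rw [hκ]; linarith
  have hs0 : 0 < s := by rw [hs]; positivity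
  have hκm : κ * m ≤ 1 / 10 := by
    calc κ * m ≤ κ * 1 := mul_le_mul_of_nonneg_left hm1 hκ0.le
      _ ≤ 1 / 10 := by linarith
  have hκm2 : κ * m ≤ δ / 10 := by
    calc κ * m ≤ κ * 1 := mul_le_mul_of_nonneg_left hm1 hκ0.le
      _ ≤ δ / 10 := by linarith
  have hs1 : s ≤ 1 / 1000 := by rw [hs]; linarith
  have hsδ : 12 * s ≤ δ / 10 := by rw [hs]; linarith
  have hmh : m * h ≤ δ * h := mul_le_mul_of_nonneg_right hmδ hh.le
  have hmh0 : 0 < m * h := by positivity
  have hmh1 : m * h ≤ m := by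
    calc m * h ≤ m * 1 := mul_le_mul_of_nonneg_left hh1 hm0.le
      _ = m := mul_one m
  refine ⟨m * h / 10, κ, s ^ 2, by positivity, by linarith, by linarith, hκ0, by linarith, by positivity, ?_,
    fun C₀ hC => ?_⟩
  · calc s ^ 2 = s * s := pow_two s
      _ ≤ (1 / 1000) * (1 / 1000) := mul_le_mul hs1 hs1 hs0.le (by norm_num)
      _ ≤ 1 / 100 := by norm_num
  obtain ⟨W, hW⟩ : ∃ W : ℝ, W = (1 + 1 / κ) * 3 := ⟨_, rfl⟩
  have hW0 : 0 < W := by rw [hW]; positivity
  have hWκ : W * κ ≤ 6 := by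
    have e : W * κ = 3 * κ + 3 := by
      rw [hW]
      field_simp
    rw [e]; linarith
  obtain ⟨K, hK⟩ : ∃ K : ℝ, K = 10 * C₀ + 50 + W * (2 + 2 * C₀ ^ 2) := ⟨_, rfl⟩
  have hK0 : 0 < K := by rw [hK]; positivity
  refine ⟨1 + 10 * K / δ, by have : 0 < 10 * K / δ := by positivity
                             linarith, ?_⟩
  intro L Y A p P X G₁ G₂ N hL hLY hA0 hAY hp hp2 hP hX hN hG hG1 hG2
  have hLK : 10 * K / δ ≤ L := by linarith
  have hL1 : 1 ≤ L := by
    have : 0 < 10 * K / δ := by positivity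
    linarith
  have hY0 : 0 < Y := by linarith
  have hKL : K ≤ δ / 10 * L := by
    rw [div_le_iff₀ hδ] at hLK
    linarith
  obtain ⟨H, hH⟩ : ∃ H : ℝ, H = h / (2 * Real.pi) := ⟨_, rfl⟩
  have hπ : 3 < Real.pi := Real.pi_gt_three
  have hH0 : 0 < H := by rw [hH]; positivity
  have hH1 : H ≤ 1 / 2 := by
    rw [hH, div_le_iff₀ (by positivity)]
    linarith
  have hH2 : h / Real.pi = 2 * H := by
    rw [hH]
    field_simp
  rw [← hH] at hG1 ⊢
  rw [← hW] at hG1 hG2
  rw [hH2] at hG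
  have hLL : L ^ 2 ≤ 2 * (L * Y) := by
    calc L ^ 2 = L * L := pow_two L
      _ ≤ L * (2 * Y) := mul_le_mul_of_nonneg_left hLY (by linarith)
      _ = 2 * (L * Y) := by ring
  have hLYp : 0 < L * Y := by positivity
  have hNY : 0 ≤ Y / 2 * N := by positivity
  have hps : p ≤ 2 * s * L := by
    have e : p ^ 2 ≤ (2 * s * L) ^ 2 := by
      calc p ^ 2 ≤ 4 * s ^ 2 * L ^ 2 := hp2
        _ = (2 * s * L) ^ 2 := by ring
    exact (pow_le_pow_iff_left₀ hp (by positivity) two_ne_zero).1 e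
  have f1 : 6 * p * Y ≤ 12 * s * (L * Y) := by
    calc 6 * p * Y = 6 * Y * p := by ring
      _ ≤ 6 * Y * (2 * s * L) := mul_le_mul_of_nonneg_left hps (by linarith)
      _ = 12 * s * (L * Y) := by ring
  have f2 : W * P ≤ 8 * (W * s ^ 2) * (L * Y) := by
    have e0 := mul_le_mul_of_nonneg_left hLL (sq_nonneg s)
    have e1 : P ≤ 8 * s ^ 2 * (L * Y) := by linarith
    calc W * P ≤ W * (8 * s ^ 2 * (L * Y)) := mul_le_mul_of_nonneg_left e1 hW0.le
      _ = 8 * (W * s ^ 2) * (L * Y) := by ring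
  have f3 : W * (C₀ ^ 2 * A) ≤ W * (C₀ ^ 2 * Y) :=
    mul_le_mul_of_nonneg_left (mul_le_mul_of_nonneg_left hAY (sq_nonneg _)) hW0.le
  have f4 : W * 1 ≤ W * (2 * Y) := mul_le_mul_of_nonneg_left (by linarith) hW0.le
  have f5 : κ * (L ^ 2 * H) ≤ κ * (L * Y) := by
    refine mul_le_mul_of_nonneg_left ?_ hκ0.le
    calc L ^ 2 * H ≤ (2 * (L * Y)) * H := mul_le_mul_of_nonneg_right hLL hH0.le
      _ ≤ (2 * (L * Y)) * (1 / 2) := mul_le_mul_of_nonneg_left hH1 (by positivity)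
      _ = L * Y := by ring
  have f6 : K * Y ≤ δ / 10 * (L * Y) := by
    calc K * Y ≤ δ / 10 * L * Y := mul_le_mul_of_nonneg_right hKL hY0.le
      _ = δ / 10 * (L * Y) := by ring
  have f7 : 16 * (W * s ^ 2) ≤ δ / 10 := by
    have e1 : W * s ^ 2 = W * κ * (m / 1000) * s := by
      rw [pow_two]
      nth_rewrite 1 [hs]
      ring
    have e2 : W * κ * (m / 1000) * s ≤ 6 * (1 / 1000) * s := by
      refine mul_le_mul_of_nonneg_right ?_ hs0.le
      exact mul_le_mul hWκ (by linarith) (by positivity) (by norm_num)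
    rw [e1]
    linarith
  have f7' : 16 * (W * s ^ 2) * (L * Y) ≤ δ / 10 * (L * Y) := mul_le_mul_of_nonneg_right f7 hLYp.le
  have f8 : 12 * s * (L * Y) ≤ δ / 10 * (L * Y) := mul_le_mul_of_nonneg_right hsδ hLYp.le
  have f9 : κ * (L * Y) ≤ δ / 10 * (L * Y) := mul_le_mul_of_nonneg_right hκδ hLYp.le
  have f10 : m * h / 10 * (L * Y) ≤ δ / 10 * (L * Y) :=
    mul_le_mul_of_nonneg_right (by linarith) hLYp.le
  have hKY : K * Y = (10 * C₀ + 50) * Y + W * (2 * Y) + 2 * (W * (C₀ ^ 2 * Y)) := by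
    rw [hK]; ring
  have main : H * (2 * (L * Y) - L ^ 2) - Y / 2 * N - δ / 2 * (L * Y) ≤ (1 + κ) * X := by
    linarith [f1, f2, f3, f4, f5, f6, f7', f8, f9, f10, hKY, hG, hG1, hG2]
  have hB : H * (2 * (L * Y) - L ^ 2) ≤ L * Y := by
    have e1 : H * (2 * (L * Y) - L ^ 2) ≤ H * (2 * (L * Y)) :=
      mul_le_mul_of_nonneg_left (by linarith [sq_nonneg L]) hH0.le
    have e2 : H * (2 * (L * Y)) ≤ 1 / 2 * (2 * (L * Y)) := mul_le_mul_of_nonneg_right hH1 (by positivity)
    linarith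
  by_contra hcon
  push Not at hcon
  have g1 : (1 + κ) * X < (1 + κ) * (H * (2 * (L * Y) - L ^ 2) - Y / 2 * N - δ * (L * Y)) :=
    mul_lt_mul_of_pos_left hcon (by linarith)
  have g2 : κ * (H * (2 * (L * Y) - L ^ 2)) ≤ κ * (L * Y) := mul_le_mul_of_nonneg_left hB hκ0.le
  have g3 : 0 ≤ κ * (δ * (L * Y)) := by positivity
  have g4 : 0 < δ * (L * Y) := by positivity
  have g5 : 0 ≤ κ * (Y / 2 * N) := by positivity
  linarith

end Pool.Agent.SD
end

section

end

section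

end

section

end

section

end

section

set_option autoImplicit false

namespace Pool.Agent.SK

open Complex MeasureTheory Metric

theorem R4A_Bd_le (a T : ℝ) (w : ℂ) (h : Bd a T w) : |w.re| ≤ a ∧ |w.im| ≤ T := by
  rcases h with h | h
  · exact ⟨h.1.le, h.2⟩
  · exact ⟨h.1, h.2.le⟩

theorem R4A_logDeriv (R' : ℝ) (c : ℂ) (f g : ℂ → ℂ) (n : ℕ) (ρ : Fin n → ℂ)
    (hg : AnalyticOnNhd ℂ g (closedBall c R'))
    (hfg : ∀ z ∈ closedBall c R', f z = (∏ j, (z - ρ j)) * g z) (w : ℂ) (hw : ‖w - c‖ < R')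
    (hgw : g w ≠ 0) (hne : ∀ j, w ≠ ρ j) :
    logDeriv f w = (∑ j, 1 / (w - ρ j)) + logDeriv g w := by
  have hwb : w ∈ closedBall c R' := by
    rw [mem_closedBall, dist_eq_norm]; exact hw.le
  have hev : f =ᶠ[nhds w] fun z => (∏ j, (z - ρ j)) * g z := by
    have : ball c R' ∈ nhds w := isOpen_ball.mem_nhds (by rw [mem_ball, dist_eq_norm]; exact hw)
    filter_upwards [this] with z hz
    exact hfg z (ball_subset_closedBall hz)
  have hd : deriv f w = deriv (fun z => (∏ j, (z - ρ j)) * g z) w := hev.deriv_eq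
  have h1 : logDeriv f w = logDeriv (fun z => (∏ j, (z - ρ j)) * g z) w := by
    rw [logDeriv_apply, logDeriv_apply, hd, hev.eq_of_nhds]
  have hgd : DifferentiableAt ℂ g w := (hg w hwb).differentiableAt
  have hpd : DifferentiableAt ℂ (fun z => ∏ j, (z - ρ j)) w := by
    fun_prop
  have hp0 : (∏ j, (w - ρ j)) ≠ 0 :=
    Finset.prod_ne_zero_iff.2 (fun j _ => sub_ne_zero.2 (hne j))
  rw [h1, logDeriv_mul w hp0 hgw hpd hgd]
  congr 1
  have h2 := logDeriv_prod (s := (Finset.univ : Finset (Fin n))) (f := fun j => fun z : ℂ => z - ρ j) (x := w)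
    (fun j _ => sub_ne_zero.2 (hne j)) (fun j _ => by fun_prop)
  rw [h2]
  refine Finset.sum_congr rfl (fun j _ => ?_)
  rw [logDeriv_apply]
  simp

/-- R4a. -/
theorem bd_factor (a T R' : ℝ) (c : ℂ) (ha : 0 < a) (hT : 0 < T)
    (hR : ∀ w : ℂ, |w.re| ≤ a → |w.im| ≤ T → ‖w - c‖ < R')
    (f g Φ : ℂ → ℂ) (n : ℕ) (ρ : Fin n → ℂ) (hg : AnalyticOnNhd ℂ g (closedBall c R'))
    (hfg : ∀ z ∈ closedBall c R', f z = (∏ j, (z - ρ j)) * g z)
    (hρ : ∀ j, ρ j ∈ closedBall c R') (hg0 : ∀ w : ℂ, |w.re| ≤ a → |w.im| ≤ T → g w ≠ 0)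
    (hf0 : ∀ w, Bd a T w → f w ≠ 0) (hΦ : Differentiable ℂ Φ) :
    bd a T (fun w => logDeriv f w * Φ w) =
      2 * Real.pi * ∑ j ∈ Finset.univ.filter (fun j => |(ρ j).re| < a ∧ |(ρ j).im| < T), Φ (ρ j) := by
  classical
  have hρ0 : ∀ j, f (ρ j) = 0 := by
    intro j
    rw [hfg _ (hρ j), Finset.prod_eq_zero (Finset.mem_univ j) (sub_self _), zero_mul]
  have hnb : ∀ j, ¬ Bd a T (ρ j) := fun j hb => hf0 _ hb (hρ0 j)
  have hbne : ∀ w, Bd a T w → ∀ j, w ≠ ρ j := by
    intro w hw j h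
    rw [h] at hw
    exact hnb j hw
  have hmem : ∀ w : ℂ, |w.re| ≤ a → |w.im| ≤ T → w ∈ closedBall c R' := by
    intro w h1 h2
    rw [mem_closedBall, dist_eq_norm]
    exact (hR w h1 h2).le
  have hgd : ∀ w : ℂ, |w.re| ≤ a → |w.im| ≤ T →
      DifferentiableAt ℂ (fun w => logDeriv g w * Φ w) w := by
    intro w h1 h2
    have h3 := hg w (hmem w h1 h2)
    have h4 : DifferentiableAt ℂ (logDeriv g) w := by
      have : logDeriv g = fun z => deriv g z / g z := by
        ext z; rw [logDeriv_apply]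
      rw [this]
      exact h3.deriv.differentiableAt.div h3.differentiableAt (hg0 w h1 h2)
    exact h4.mul (hΦ w)
  have hcong : bd a T (fun w => logDeriv f w * Φ w) =
      bd a T (fun w => (∑ j, Φ w / (w - ρ j)) + logDeriv g w * Φ w) := by
    apply bd_congr a T ha.le hT.le
    intro w hw
    have hle := R4A_Bd_le a T w hw
    have := R4A_logDeriv R' c f g n ρ hg hfg w (hR w hle.1 hle.2) (hg0 w hle.1 hle.2) (hbne w hw)
    simp only [this]
    rw [add_mul, Finset.sum_mul]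
    congr 1
    refine Finset.sum_congr rfl (fun j _ => ?_)
    ring
  have hcont : ∀ j, ∀ w, Bd a T w → ContinuousAt (fun w => Φ w / (w - ρ j)) w := by
    intro j w hw
    have h1 : ContinuousAt Φ w := (hΦ w).continuousAt
    exact h1.div (by fun_prop) (sub_ne_zero.2 (hbne w hw j))
  have hcont2 : ∀ w, Bd a T w → ContinuousAt (fun w => ∑ j, Φ w / (w - ρ j)) w := by
    intro w hw
    exact tendsto_finsetSum _ (fun j _ => hcont j w hw)
  rw [hcong, bd_add a T ha.le hT.le _ _ hcont2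
    (fun w hw => (hgd w (R4A_Bd_le a T w hw).1 (R4A_Bd_le a T w hw).2).continuousAt),
    bd_zero a T ha.le hT.le _ hgd, add_zero,
    bd_sum Finset.univ a T ha.le hT.le (fun j w => Φ w / (w - ρ j)) (fun j _ w hw => hcont j w hw),
    Finset.sum_filter, Finset.mul_sum]
  refine Finset.sum_congr rfl (fun j _ => ?_)
  split_ifs with h
  · exact bd_cauchy a T (ρ j) h.1 h.2 Φ hΦ
  · rw [mul_zero]
    apply bd_out a T ha.le hT.le (ρ j) _ Φ hΦ
    by_contra hcon
    push Not at hcon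
    apply hnb j
    rcases hcon with ⟨h1, h2⟩
    by_cases h3 : |(ρ j).re| = a
    · exact Or.inl ⟨h3, h2⟩
    · right
      refine ⟨h1, ?_⟩
      by_contra h4
      exact h ⟨lt_of_le_of_ne h1 h3, lt_of_le_of_ne h2 h4⟩

end Pool.Agent.SK
end

section

end
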