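import Pool.Agent.Lib.MP_9cfc0a_nt.Mg.G009
import Pool.Agent.Lib.MP_9cfc0a_nt.Mg.G011
import Pool.Agent.Lib.MP_9cfc0a_nt.Mg.G005
import Pool.Agent.Lib.MP_9cfc0a_nt.Mg.G012
import Pool.Agent.Lib.MP_9cfc0a_nt.TS.Fb

section

set_option autoImplicit false

/-! Task FE: one character, from the primitive character to the character. -/

namespace Pool.Agent.SD

open Complex MeasureTheory Pool.Agent.EM Pool.Agent.SO MP9cfc0a.SK

/-- FE. PROOF. As `F4_one` in SK/F4.lean (copy it). With `L = log q`, `Lr = log (conductor)`, `Ly = log y`: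
`X := (1/2)(2 Lr Ly - Lr²) - (1/2) Ly g - (ε/8) Lr Ly ≤ En χ*`, `X ≤ Lr Ly ≤ L Ly`, `0 ≤ En χ*`, so
`(1 - ε/8) En χ* ≥ X - (ε/8) L Ly` (two cases, `X ≥ 0` or `X < 0`). `2 Lr Ly - Lr² ≥ 2(1-δ) L Ly - ((1-δ) L)² ≥ 2 L Ly - L² - 2 δ L Ly` since
`x ↦ 2 x Ly - x²` increases on `x ≤ Ly`, `(1-δ) L ≤ Lr ≤ L ≤ Ly`. The term `272/(ε/8) L^(3/2)` is at most `(ε/8) L Ly` as in `F4_one`. -/
theorem one_char (ε δ : ℝ) (hε : 0 < ε) (hε1 : ε ≤ 1) (hδ : δ = ε / 8) (q : ℕ) [NeZero q] (hq : 3 ≤ q)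
    (hL : 272 * 64 / ε ^ 2 ≤ (Real.log q) ^ (1 / 2 : ℝ))
    (hL2 : (1 - δ) ^ (-(2 - ε / 2)) ≤ (Real.log q) ^ (ε / 2))
    (χ : DirichletCharacter ℂ q) (hr : (q : ℝ) ^ (1 - δ) ≤ (χ.conductor : ℝ)) (g : ℝ) (hg : 0 ≤ g)
    (h : ∀ y : ℝ, (χ.conductor : ℝ) ≤ y → Real.log y ≤ (Real.log χ.conductor) ^ (2 - ε / 2) →
      1 / 2 * (2 * (Real.log χ.conductor * Real.log y) - Real.log χ.conductor ^ 2) - 1 / 2 * Real.log y * g -
        ε / 8 * (Real.log χ.conductor * Real.log y) ≤ En χ.primitiveCharacter y)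
    (y : ℝ) (hy1 : (q : ℝ) ≤ y) (hy2 : Real.log y ≤ (Real.log q) ^ (2 - ε)) :
    1 / 2 * (2 * (Real.log q * Real.log y) - Real.log q ^ 2) - 1 / 2 * Real.log y * g -
      ε * (Real.log q * Real.log y) ≤ En χ y := by
  have hq3 : (3 : ℝ) ≤ q := by exact_mod_cast hq
  have hq0 : (0 : ℝ) < q := by linarith
  set L := Real.log q with hLdef
  have hL1 : 1 ≤ L := by
    rw [hLdef, Real.le_log_iff_exp_le hq0]
    exact Real.exp_one_lt_d9.le.trans (by linarith)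
  have hδ0 : 0 < δ := by rw [hδ]; positivity
  have hδ1 : δ ≤ 1 / 8 := by rw [hδ]; linarith
  have hrq : (χ.conductor : ℝ) ≤ q := by
    exact_mod_cast Nat.le_of_dvd (Nat.pos_of_ne_zero (NeZero.ne q))
      (DirichletCharacter.conductor_dvd_level χ)
  set r : ℝ := (χ.conductor : ℝ) with hrdef
  have hr0 : 0 < r := lt_of_lt_of_le (Real.rpow_pos_of_pos hq0 _) hr
  have hlr : (1 - δ) * L ≤ Real.log r := by
    have := Real.log_le_log (Real.rpow_pos_of_pos hq0 _) hr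
    rwa [Real.log_rpow hq0] at this
  have hlr0 : 0 < Real.log r := by nlinarith
  have hlrL : Real.log r ≤ L := Real.log_le_log hr0 hrq
  have hy0 : 0 < y := by linarith
  have hLy : L ≤ Real.log y := Real.log_le_log hq0 hy1
  -- the range
  have hrange : Real.log y ≤ (Real.log r) ^ (2 - ε / 2) := by
    refine hy2.trans ?_
    have h1 : ((1 - δ) * L) ^ (2 - ε / 2) ≤ (Real.log r) ^ (2 - ε / 2) :=
      Real.rpow_le_rpow (by nlinarith) hlr (by linarith)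
    refine le_trans ?_ h1
    rw [Real.mul_rpow (by linarith) (by linarith)]
    have h2 : (1 - δ) ^ (-(2 - ε / 2)) * (1 - δ) ^ (2 - ε / 2) = 1 := by
      rw [← Real.rpow_add (by linarith)]
      simp
    have hp : 0 < (1 - δ) ^ (2 - ε / 2) := Real.rpow_pos_of_pos (by linarith) _
    have h3 : 1 ≤ (1 - δ) ^ (2 - ε / 2) * L ^ (ε / 2) := by
      calc (1 : ℝ) = (1 - δ) ^ (-(2 - ε / 2)) * (1 - δ) ^ (2 - ε / 2) := h2.symm
        _ ≤ L ^ (ε / 2) * (1 - δ) ^ (2 - ε / 2) := mul_le_mul_of_nonneg_right hL2 hp.le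
        _ = _ := by ring
    have h4 : L ^ (2 - ε / 2) = L ^ (ε / 2) * L ^ (2 - ε) := by
      rw [← Real.rpow_add (by linarith)]
      congr 1
      ring
    rw [h4]
    have hp2 : 0 < L ^ (2 - ε) := Real.rpow_pos_of_pos (by linarith) _
    nlinarith
  have h1 := h y (hrq.trans hy1) hrange
  have h2 := En_induced q hq χ y (ε / 8) (by positivity) (by linarith)
  set Ly := Real.log y with hLydef
  set Lr := Real.log r with hLrdef
  have h5 : 272 / (ε / 8) * L ^ (3 / 2 : ℝ) ≤ ε / 8 * L * Ly := by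
    have h6 : L ^ (3 / 2 : ℝ) * L ^ (1 / 2 : ℝ) = L * L := by
      rw [← Real.rpow_add (by linarith)]
      norm_num
      ring
    have hp3 : 0 < L ^ (3 / 2 : ℝ) := Real.rpow_pos_of_pos (by linarith) _
    have h7 : 272 * 64 / ε ^ 2 * L ^ (3 / 2 : ℝ) ≤ L * L := by
      rw [← h6, mul_comm]
      exact mul_le_mul_of_nonneg_left hL hp3.le
    have h8 : 272 / (ε / 8) * L ^ (3 / 2 : ℝ) = ε / 8 * (272 * 64 / ε ^ 2 * L ^ (3 / 2 : ℝ)) := by
      field_simp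
      ring
    rw [h8]
    have h9 : ε / 8 * (272 * 64 / ε ^ 2 * L ^ (3 / 2 : ℝ)) ≤ ε / 8 * (L * L) :=
      mul_le_mul_of_nonneg_left h7 (by positivity)
    have h10 : ε / 8 * (L * L) ≤ ε / 8 * L * Ly := by
      have : 0 ≤ ε / 8 * L := by positivity
      nlinarith
    linarith
  have hEn0 := En_nonneg χ.primitiveCharacter y
  have hL0 : 0 ≤ L := by linarith
  have hLy0 : 0 ≤ Ly := by linarith
  have hP : 0 ≤ L * Ly := mul_nonneg hL0 hLy0
  have h15 : Lr * Ly ≤ L * Ly := mul_le_mul_of_nonneg_right hlrL hLy0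
  have hgL : 0 ≤ Ly * g := mul_nonneg hLy0 hg
  have hLr2 : 0 ≤ Lr ^ 2 := sq_nonneg _
  have hLrLy : 0 ≤ Lr * Ly := mul_nonneg hlr0.le hLy0
  set X := 1 / 2 * (2 * (Lr * Ly) - Lr ^ 2) - 1 / 2 * Ly * g - ε / 8 * (Lr * Ly) with hX
  have h18 : 0 ≤ ε / 8 * (Lr * Ly) := mul_nonneg (by positivity) hLrLy
  have h19 : ε / 8 * (Lr * Ly) ≤ ε / 8 * (L * Ly) := mul_le_mul_of_nonneg_left h15 (by positivity)
  have hXle : X ≤ L * Ly := by
    rw [hX]
    linarith
  have h20 : X - ε / 8 * (L * Ly) ≤ (1 - ε / 8) * En χ.primitiveCharacter y := by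
    rcases le_or_gt 0 X with h0 | h0
    · have h21 : (1 - ε / 8) * X ≤ (1 - ε / 8) * En χ.primitiveCharacter y :=
        mul_le_mul_of_nonneg_left h1 (by linarith)
      have h22 : ε / 8 * X ≤ ε / 8 * (L * Ly) := mul_le_mul_of_nonneg_left hXle (by positivity)
      linarith
    · have h21 : 0 ≤ (1 - ε / 8) * En χ.primitiveCharacter y := mul_nonneg (by linarith) hEn0
      have h22 : 0 ≤ ε / 8 * (L * Ly) := mul_nonneg (by positivity) hP
      linarith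
  have h23 : 2 * (L * Ly) - L ^ 2 - 2 * δ * (L * Ly) ≤ 2 * (Lr * Ly) - Lr ^ 2 := by
    have h24 : 0 ≤ (Lr - (1 - δ) * L) * (2 * Ly - Lr - (1 - δ) * L) := by
      apply mul_nonneg (by linarith)
      have : (1 - δ) * L ≤ L := by nlinarith
      linarith
    have h25 : ((1 - δ) * L) ^ 2 ≤ L ^ 2 := by
      apply pow_le_pow_left₀ (by nlinarith)
      nlinarith
    nlinarith
  have e7 : ε / 8 * L * Ly = ε / 8 * (L * Ly) := by ring
  have e8 : 2 * δ * (L * Ly) = ε / 4 * (L * Ly) := by rw [hδ]; ring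
  have e9 : 0 ≤ ε * (L * Ly) := mul_nonneg hε.le hP
  rw [hX] at h20
  linarith

end Pool.Agent.SD
end

section

set_option autoImplicit false

/-! Task GB: the weighted sums of a character and of its primitive character. -/

namespace Pool.Agent.SD

open Complex MeasureTheory
open Pool.Agent.SK
open Pool.Agent.SO (prim NN)

private theorem GB_prim (q : ℕ) [NeZero q] (χ : DirichletCharacter ℂ q) [NeZero χ.conductor] :
    χ.primitiveCharacter ∈ prim χ.conductor := by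
  have h := χ.primitiveCharacter_isPrimitive
  unfold prim
  simpa using h

private theorem GB_inj : Function.Injective fun w : ℂ => 1 / 2 + w := fun _ _ h => add_left_cancel h

private theorem GB_set (S : Set ℂ) (F : Finset ℂ) (h : ∀ w, w ∈ F ↔ 1 / 2 + w ∈ S) :
    S = ((F.image fun w : ℂ => 1 / 2 + w : Finset ℂ) : Set ℂ) := by
  ext ρ
  rw [Finset.mem_coe, Finset.mem_image]
  constructor
  · intro hρ
    refine ⟨ρ - 1 / 2, ?_, by ring⟩
    rw [h, show (1 / 2 : ℂ) + (ρ - 1 / 2) = ρ by ring]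
    exact hρ
  · rintro ⟨w, hw, rfl⟩
    exact (h w).1 hw

/-- GB1. PROOF. `SZ_eq`, and `SZ χ* T` is the image of the finset `GZ χ* T` under the injective map `w ↦ 1/2 + w` (`good_iff`, `A3_mem_prim`; conversely
`ρ = 1/2 + (ρ - 1/2)`), so the `finsum` is a finite sum (`finsum_mem_coe_finset`, `finsum_mem_image`), and `‖1/2 + w‖² = 1/4 + w.im²` for
`w.re = 0` (`w ∈ GZ`). -/
theorem gL_eq (q : ℕ) [NeZero q] (χ : DirichletCharacter ℂ q) [NeZero χ.conductor] (h : 2 ≤ χ.conductor) (T : ℝ) :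
    gL χ T = gF (GZ χ.primitiveCharacter T) := by
  classical
  have hp := GB_prim q χ
  unfold gL
  rw [SZ_eq q χ T, GB_set (SZ χ.primitiveCharacter T) (GZ χ.primitiveCharacter T)
    (fun w => good_iff χ.conductor h χ.primitiveCharacter hp T w), finsum_mem_coe_finset,
    Finset.sum_image (fun x _ y _ hxy => GB_inj hxy)]
  unfold gF
  refine Finset.sum_congr rfl fun w hw => ?_
  have hre : w.re = 0 := by
    unfold GZ at hw
    exact (Finset.mem_filter.1 hw).2.1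
  have hn : ‖(1 / 2 : ℂ) + w‖ ^ 2 = 1 / 4 + w.im ^ 2 := by
    rw [Complex.sq_norm, Complex.normSq_apply]
    simp [hre]
    ring
  rw [hn]

/-- GB2. PROOF. The same with `AZ_eq`, `order_eq`, `all_iff`, `mu_order` (`-(1/2) < w.re` for `w ∈ Z`: `re_lt_of_mem`). -/
theorem aL_eq (q : ℕ) [NeZero q] (χ : DirichletCharacter ℂ q) [NeZero χ.conductor] (h : 2 ≤ χ.conductor) (T : ℝ) :
    aL χ T = gW (Z χ.primitiveCharacter T) (mu χ.primitiveCharacter) := by
  classical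
  have hp := GB_prim q χ
  unfold aL
  rw [AZ_eq q χ T, GB_set (AZ χ.primitiveCharacter T) (Z χ.primitiveCharacter T)
    (fun w => all_iff χ.conductor h χ.primitiveCharacter hp T w), finsum_mem_coe_finset,
    Finset.sum_image (fun x _ y _ hxy => GB_inj hxy)]
  unfold gW
  refine Finset.sum_congr rfl fun w hw => ?_
  have hre := abs_lt.1 (re_lt_of_mem χ.conductor h χ.primitiveCharacter hp T w hw)
  have h1 : ((1 / 2 : ℂ) + w).re = 1 / 2 + w.re := by simp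
  have h2 : ((1 / 2 : ℂ) + w).im = w.im := by simp
  rw [order_eq q χ (1 / 2 + w) (by rw [h1]; linarith [hre.1]) (by rw [h1]; linarith [hre.2]),
    ← mu_order χ.conductor h χ.primitiveCharacter hp w hre.1, h2, mul_one_div]

/-- GB3. PROOF. A `finsum` of nonnegative terms (`finsum_mem_nonneg` or `finsum_nonneg`). -/
theorem gL_nonneg (q : ℕ) [NeZero q] (χ : DirichletCharacter ℂ q) (T : ℝ) : 0 ≤ gL χ T := by
  unfold gL
  exact finsum_nonneg fun ρ => finsum_nonneg fun _ => by positivity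

end Pool.Agent.SD
end

section

set_option autoImplicit false

namespace Pool.Agent.SK

open Complex MeasureTheory
open Pool.Agent.SO (prim NN)

theorem C4C_kap_zero (W a b : ℝ) : kap W a b 0 = (((b - a) / (2 * Real.pi) : ℝ) : ℂ) := by
  unfold kap
  have e1 : (Real.exp (-((0 : ℝ) ^ 2 / (2 * W ^ 2)))) = 1 := by simp
  have e2 : ∫ x in a..b, Complex.exp ((x : ℂ) * ((0 : ℝ) : ℂ) * I) = (((b - a : ℝ)) : ℂ) := by
    have : ∀ x : ℝ, Complex.exp ((x : ℂ) * ((0 : ℝ) : ℂ) * I) = 1 := by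
      intro x
      simp
    rw [intervalIntegral.integral_congr (g := fun _ => (1 : ℂ)) (fun x _ => this x),
      intervalIntegral.integral_const]
    simp
  rw [e1, e2]
  push_cast
  ring

theorem C4C_re_le {r : ℕ} [NeZero r] (χ : DirichletCharacter ℂ r) (T W C₀ Y₀ T₁ a b : ℝ)
    (hY : 0 ≤ Y₀) (hEF : EFp χ T W C₀ Y₀ T₁) (ha : |a| ≤ T₁) (hb : |b| ≤ T₁) (hab : a ≤ b) :
    (Gu χ T W a b 0).re ≤ Real.log r * ((b - a) / (2 * Real.pi)) + 2 * ‖PU χ W a b 0‖ + C₀ := by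
  have h := hEF a b 0 ha hb hab (by simpa using hY)
  rw [neg_zero, C4C_kap_zero] at h
  set X : ℂ := (Real.log r : ℂ) * (((b - a) / (2 * Real.pi) : ℝ) : ℂ) - PU χ W a b 0 -
      (starRingEnd ℂ) (PU χ W a b 0) with hX
  have h1 : (Gu χ T W a b 0 - X).re ≤ C₀ := (Complex.re_le_norm _).trans h
  have h2 : X.re ≤ Real.log r * ((b - a) / (2 * Real.pi)) + 2 * ‖PU χ W a b 0‖ := by
    have h3 : ((Real.log r : ℂ) * (((b - a) / (2 * Real.pi) : ℝ) : ℂ)).re =
        Real.log r * ((b - a) / (2 * Real.pi)) := by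
      rw [Complex.re_ofReal_mul, Complex.ofReal_re]
    have h4 : |(PU χ W a b 0).re| ≤ ‖PU χ W a b 0‖ := Complex.abs_re_le_norm _
    have h5 := (abs_le.mp h4).1
    rw [hX, Complex.sub_re, Complex.sub_re, h3, Complex.conj_re]
    linarith
  rw [Complex.sub_re] at h1
  linarith

/-- C4c. The number of zeros in the band. PROOF. `a = u - h - 2η`, `b = u + h + 2η`. `Re (Gu χ T W a b 0) = ∑ mu Re (FI w)`. For
`|Im w - u| ≤ h + η`: `Re FI ≥ 1 - 2 e^{-W²η²/2}` (`FI_in`), for the others `≥ -2 e^{-W²/2}` (`FI_re`). So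
`n (1 - 2 e^{-W²η²/2}) ≤ Re Gu + 2 N e^{-W²/2}`, `n ≤ N`. By `EFp` at `t = 0` (`kap W a b 0 = (b - a)/(2π)`):
`Re Gu ≤ log r (2h + 4η)/(2π) + 2 ‖PU 0‖ + C₀`. -/
theorem band_count (r : ℕ) [NeZero r] (χ : DirichletCharacter ℂ r) (T W C₀ Y₀ T₁ u h η δ₀ N : ℝ) (hW : 1 ≤ W)
    (hY : 0 ≤ Y₀) (hh : 0 ≤ h) (hη : 0 ≤ η) (hδ : ∀ w ∈ Z χ T, |w.re| ≤ δ₀) (hWδ : W ^ 2 * δ₀ ≤ 1)
    (hN : ∑ w ∈ Z χ T, mu χ w ≤ N) (hEF : EFp χ T W C₀ Y₀ T₁) (hu : |u| + h + 2 * η ≤ T₁) :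
    ∑ w ∈ (Z χ T).filter (fun w => |w.im - u| ≤ h + η), mu χ w ≤
      (h + 2 * η) / Real.pi * Real.log r + 2 * ‖PU χ W (u - h - 2 * η) (u + h + 2 * η) 0‖ + C₀ +
        2 * N * Real.exp (-(W ^ 2 / 2)) + 2 * N * Real.exp (-(W ^ 2 * η ^ 2 / 2)) := by
  have hW0 : 0 < W := by linarith
  set a : ℝ := u - h - 2 * η with ha
  set b : ℝ := u + h + 2 * η with hb
  set e : ℝ := Real.exp (-(W ^ 2 * η ^ 2 / 2)) with he
  set e1 : ℝ := Real.exp (-(W ^ 2 / 2)) with he1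
  have he0 : 0 < e := Real.exp_pos _
  have he10 : 0 < e1 := Real.exp_pos _
  have hab : a ≤ b := by linarith
  have hua := abs_le.mp (le_refl |u|)
  have haT : |a| ≤ T₁ := abs_le.mpr ⟨by linarith, by linarith⟩
  have hbT : |b| ≤ T₁ := abs_le.mpr ⟨by linarith, by linarith⟩
  have hRe := C4C_re_le χ T W C₀ Y₀ T₁ a b hY hEF haT hbT hab
  have hba : (b - a) / (2 * Real.pi) = (h + 2 * η) / Real.pi := by
    rw [ha, hb]
    have := Real.pi_pos
    field_simp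
    ring
  rw [hba] at hRe
  set S := (Z χ T).filter (fun w => |w.im - u| ≤ h + η) with hS
  have hz2 : ∀ w ∈ Z χ T, W ^ 2 * |w.re| ≤ 1 := fun w hw =>
    (mul_le_mul_of_nonneg_left (hδ w hw) (by positivity)).trans hWδ
  have hz1 : ∀ w ∈ Z χ T, W * |w.re| ≤ 1 := fun w hw => by
    refine le_trans ?_ (hz2 w hw)
    have : W ≤ W ^ 2 := by nlinarith
    exact mul_le_mul_of_nonneg_right this (abs_nonneg _)
  have hsplit : ∑ w ∈ Z χ T, mu χ w * (FI W a b w).re =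
      ∑ w ∈ S, mu χ w * (FI W a b w).re +
        ∑ w ∈ (Z χ T).filter (fun w => ¬ |w.im - u| ≤ h + η), mu χ w * (FI W a b w).re :=
    (Finset.sum_filter_add_sum_filter_not _ _ _).symm
  have hGre : (Gu χ T W a b 0).re = ∑ w ∈ Z χ T, mu χ w * (FI W a b w).re := by
    unfold Gu
    rw [Complex.re_sum]
    refine Finset.sum_congr rfl fun w _ => ?_
    simp
  have hmu : ∀ w, 0 ≤ mu χ w := fun w => mu_nonneg r χ w
  have h1 : (1 - 2 * e) * ∑ w ∈ S, mu χ w ≤ ∑ w ∈ S, mu χ w * (FI W a b w).re := by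
    rw [Finset.mul_sum]
    refine Finset.sum_le_sum fun w hw => ?_
    rw [hS, Finset.mem_filter] at hw
    obtain ⟨hwZ, hwb⟩ := hw
    have hwb' := abs_le.mp hwb
    have hin := FI_in W a b η hW0 hη w (hz1 w hwZ) (by rw [ha]; linarith) (by rw [hb]; linarith)
    have h2 : -(2 * e) ≤ (FI W a b w - 1).re := by
      have := (abs_le.mp ((Complex.abs_re_le_norm _).trans hin)).1
      exact this
    rw [Complex.sub_re, Complex.one_re] at h2
    have := hmu w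
    nlinarith
  have h2 : -(2 * e1) * N ≤
      ∑ w ∈ (Z χ T).filter (fun w => ¬ |w.im - u| ≤ h + η), mu χ w * (FI W a b w).re := by
    have h3 : ∑ w ∈ (Z χ T).filter (fun w => ¬ |w.im - u| ≤ h + η), mu χ w ≤ N := by
      refine le_trans (Finset.sum_le_sum_of_subset_of_nonneg (Finset.filter_subset _ _) ?_) hN
      exact fun w _ _ => hmu w
    calc -(2 * e1) * N ≤ -(2 * e1) * ∑ w ∈ (Z χ T).filter (fun w => ¬ |w.im - u| ≤ h + η), mu χ w := by
          nlinarith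
      _ = ∑ w ∈ (Z χ T).filter (fun w => ¬ |w.im - u| ≤ h + η), mu χ w * (-(2 * e1)) := by
          rw [Finset.mul_sum]
          exact Finset.sum_congr rfl fun w _ => by ring
      _ ≤ _ := by
          refine Finset.sum_le_sum fun w hw => ?_
          rw [Finset.mem_filter] at hw
          exact mul_le_mul_of_nonneg_left (FI_re W a b hW hab w (hz2 w hw.1)) (hmu w)
  have hnN : ∑ w ∈ S, mu χ w ≤ N := by
    refine le_trans (Finset.sum_le_sum_of_subset_of_nonneg (Finset.filter_subset _ _) ?_) hN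
    exact fun w _ _ => hmu w
  set n : ℝ := ∑ w ∈ S, mu χ w with hn
  rw [hGre, hsplit] at hRe
  nlinarith

end Pool.Agent.SK
end

section

set_option autoImplicit false

namespace Pool.Agent.SK

open Complex MeasureTheory
open Pool.Agent.SO (prim NN)

theorem C4D_kap_zero (W a b : ℝ) : kap W a b 0 = (((b - a) / (2 * Real.pi) : ℝ) : ℂ) := by
  unfold kap
  have e1 : (Real.exp (-((0 : ℝ) ^ 2 / (2 * W ^ 2)))) = 1 := by simp
  have e2 : ∫ x in a..b, Complex.exp ((x : ℂ) * ((0 : ℝ) : ℂ) * I) = (((b - a : ℝ)) : ℂ) := by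
    have : ∀ x : ℝ, Complex.exp ((x : ℂ) * ((0 : ℝ) : ℂ) * I) = 1 := by
      intro x
      simp
    rw [intervalIntegral.integral_congr (g := fun _ => (1 : ℂ)) (fun x _ => this x),
      intervalIntegral.integral_const]
    simp
  rw [e1, e2]
  push_cast
  ring

/-- C4d. The trace. PROOF. `Gu χ T W (u-h) (u+h) 0` = sum over the band + rest, `‖rest‖ ≤ N e^{-W²η²/2}` (`out_band` with
`Y = 0`, `t = 0`); `EFp` at `t = 0`, `kap 0 = 2h/(2π) = h/π`. -/
theorem trace_lower (r : ℕ) [NeZero r] (χ : DirichletCharacter ℂ r) (T W C₀ Y₀ T₁ u h η δ₀ N : ℝ) (hW : 1 ≤ W)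
    (hY : 0 ≤ Y₀) (hh : 0 ≤ h) (hη : 0 ≤ η) (hδ : ∀ w ∈ Z χ T, |w.re| ≤ δ₀) (hWδ : W * δ₀ ≤ 1)
    (hN : ∑ w ∈ Z χ T, mu χ w ≤ N) (hEF : EFp χ T W C₀ Y₀ T₁) (hu : |u| + h ≤ T₁) :
    h / Real.pi * Real.log r - 2 * ‖PU χ W (u - h) (u + h) 0‖ - C₀ - N * Real.exp (-(W ^ 2 * η ^ 2 / 2)) ≤
      (∑ w ∈ (Z χ T).filter (fun w => |w.im - u| ≤ h + η), (mu χ w : ℂ) * FI W (u - h) (u + h) w).re := by
  set a : ℝ := u - h with ha
  set b : ℝ := u + h with hb
  have hua := abs_le.mp (le_refl |u|)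
  have haT : |a| ≤ T₁ := abs_le.mpr ⟨by linarith, by linarith⟩
  have hbT : |b| ≤ T₁ := abs_le.mpr ⟨by linarith, by linarith⟩
  have hef := hEF a b 0 haT hbT (by linarith) (by simpa using hY)
  rw [neg_zero, C4D_kap_zero] at hef
  have hba : (b - a) / (2 * Real.pi) = h / Real.pi := by
    rw [ha, hb]
    have := Real.pi_pos
    field_simp
    ring
  rw [hba] at hef
  have hout := out_band r χ T W u h η δ₀ N 0 hW hh hη hδ hWδ hN 0 (by simp)
  rw [mul_zero, add_zero] at hout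
  have hsum : ∑ w ∈ (Z χ T).filter (fun w => |w.im - u| ≤ h + η),
      ((mu χ w : ℂ) * FI W (u - h) (u + h) w) * Complex.exp (w * ((0 : ℝ) : ℂ)) =
      ∑ w ∈ (Z χ T).filter (fun w => |w.im - u| ≤ h + η), (mu χ w : ℂ) * FI W (u - h) (u + h) w := by
    refine Finset.sum_congr rfl fun w _ => ?_
    simp
  rw [hsum] at hout
  set B : ℂ := ∑ w ∈ (Z χ T).filter (fun w => |w.im - u| ≤ h + η), (mu χ w : ℂ) * FI W (u - h) (u + h) w
    with hB
  set X : ℂ := (Real.log r : ℂ) * ((h / Real.pi : ℝ) : ℂ) - PU χ W a b 0 -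
      (starRingEnd ℂ) (PU χ W a b 0) with hX
  have h1 : -C₀ ≤ (Gu χ T W a b 0 - X).re := by
    have := (abs_le.mp ((Complex.abs_re_le_norm _).trans hef)).1
    exact this
  have h2 : -(N * Real.exp (-(W ^ 2 * η ^ 2 / 2))) ≤ -(Gu χ T W a b 0 - B).re := by
    have := (abs_le.mp ((Complex.abs_re_le_norm _).trans hout)).2
    linarith
  have h3 : h / Real.pi * Real.log r - 2 * ‖PU χ W a b 0‖ ≤ X.re := by
    have h4 : ((Real.log r : ℂ) * ((h / Real.pi : ℝ) : ℂ)).re = Real.log r * (h / Real.pi) := by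
      rw [Complex.re_ofReal_mul, Complex.ofReal_re]
    have h5 := (abs_le.mp (Complex.abs_re_le_norm (PU χ W a b 0))).2
    rw [hX, Complex.sub_re, Complex.sub_re, h4, Complex.conj_re]
    linarith
  rw [Complex.sub_re] at h1 h2
  linarith

end Pool.Agent.SK
end

section

set_option autoImplicit false

namespace Pool.Agent.SK

open Complex MeasureTheory
open Pool.Agent.SO (prim NN)

theorem C6A_decay (s a b : ℝ) (ha : 0 < a) (hb : 0 < b) :
    Filter.Tendsto (fun L : ℝ => L ^ s * Real.exp (-(a * L ^ b))) Filter.atTop (nhds 0) := by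
  have h1 := (tendsto_rpow_mul_exp_neg_mul_atTop_nhds_zero (s / b) a ha).comp (tendsto_rpow_atTop hb)
  refine h1.congr' ?_
  filter_upwards [Filter.eventually_gt_atTop (0 : ℝ)] with L hL
  simp only [Function.comp_apply]
  rw [← Real.rpow_mul hL.le, mul_div_cancel₀ _ hb.ne', neg_mul]

/-- C6a. PROOF. `W² = L^(1-ε/2)`, `W² δ₀ = D (log L) L^(-ε/2) → 0` (`isLittleO_log_rpow_atTop`); `W ≤ W²`.
`log (C L³) - η² L^(1-ε/2)/2 + D (log L) L^(1-ε) → -∞` since `L^(1-ε/2)` dominates `(log L) L^(1-ε)` and `log L`; the same for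
the others; `L/W² = L^(ε/2)`. -/
theorem chain_numeric (ε D C η κ : ℝ) (hε : 0 < ε) (hε1 : ε ≤ 1) (hD : 0 < D) (hC : 0 < C) (hη : 0 < η)
    (hκ : 0 < κ) : ∃ L₀ : ℝ, 1 ≤ L₀ ∧ ∀ L : ℝ, L₀ ≤ L →
      1 ≤ L ^ (1 / 2 - ε / 4 : ℝ) ∧
      (L ^ (1 / 2 - ε / 4 : ℝ)) ^ 2 * (D * Real.log L / L) ≤ 1 ∧
      L * (C * L ^ 2) * Real.exp (-((L ^ (1 / 2 - ε / 4 : ℝ)) ^ 2 * η ^ 2 / 2) +
        D * Real.log L / L * L ^ (2 - ε)) ≤ κ ∧
      C * L ^ 2 * Real.exp (-((L ^ (1 / 2 - ε / 4 : ℝ)) ^ 2 / 2)) ≤ κ ∧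
      L ^ 4 * Real.exp (-(L / (L ^ (1 / 2 - ε / 4 : ℝ)) ^ 2)) ≤ κ := by
  -- `log L ≤ c L^(ε/2)` eventually
  have hlog : ∀ c : ℝ, 0 < c → ∀ᶠ L : ℝ in Filter.atTop, D * (Real.log L * L ^ (-(ε / 2))) ≤ c := by
    intro c hc
    have h := (isLittleO_log_rpow_atTop (show 0 < ε / 2 by positivity)).tendsto_div_nhds_zero
    have h2 : Filter.Tendsto (fun L : ℝ => D * (Real.log L / L ^ (ε / 2))) Filter.atTop (nhds (D * 0)) :=
      h.const_mul D
    rw [mul_zero] at h2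
    filter_upwards [h2.eventually (gt_mem_nhds hc), Filter.eventually_gt_atTop (0 : ℝ)] with L hL hL0
    rw [Real.rpow_neg hL0.le, ← div_eq_mul_inv]
    exact hL.le
  have e3 : ∀ᶠ L : ℝ in Filter.atTop, C * (L ^ (3 : ℝ) * Real.exp (-(η ^ 2 / 4 * L ^ (1 / 2 : ℝ)))) < κ := by
    have h := (C6A_decay 3 (η ^ 2 / 4) (1 / 2) (by positivity) (by norm_num)).const_mul C
    rw [mul_zero] at h
    exact h.eventually (gt_mem_nhds hκ)
  have e4 : ∀ᶠ L : ℝ in Filter.atTop, C * (L ^ (2 : ℝ) * Real.exp (-(1 / 2 * L ^ (1 / 2 : ℝ)))) < κ := by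
    have h := (C6A_decay 2 (1 / 2) (1 / 2) (by positivity) (by norm_num)).const_mul C
    rw [mul_zero] at h
    exact h.eventually (gt_mem_nhds hκ)
  have e5 : ∀ᶠ L : ℝ in Filter.atTop, (L ^ (4 : ℝ) * Real.exp (-(1 * L ^ (ε / 2)))) < κ := by
    have h := (C6A_decay 4 1 (ε / 2) (by positivity) (by positivity))
    exact h.eventually (gt_mem_nhds hκ)
  obtain ⟨L₀, hL₀⟩ := Filter.eventually_atTop.1 ((hlog 1 one_pos).and ((hlog (η ^ 2 / 4) (by positivity)).and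
    (e3.and (e4.and e5))))
  refine ⟨max L₀ 1, le_max_right _ _, ?_⟩
  intro L hL
  have hL1 : 1 ≤ L := le_trans (le_max_right _ _) hL
  have hLp : 0 < L := by linarith
  obtain ⟨a1, a2, a3, a4, a5⟩ := hL₀ L (le_trans (le_max_left _ _) hL)
  have hW : (L ^ (1 / 2 - ε / 4 : ℝ)) ^ 2 = L ^ (1 - ε / 2) := by
    rw [← Real.rpow_natCast, ← Real.rpow_mul hLp.le]
    congr 1
    push_cast
    ring
  have hWh : L ^ (1 / 2 : ℝ) ≤ L ^ (1 - ε / 2) := Real.rpow_le_rpow_of_exponent_le hL1 (by linarith)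
  have hW0 : 0 ≤ L ^ (1 - ε / 2) := (Real.rpow_pos_of_pos hLp _).le
  have hlg : 0 ≤ Real.log L := Real.log_nonneg hL1
  refine ⟨?_, ?_, ?_, ?_, ?_⟩
  · exact Real.one_le_rpow hL1 (by linarith)
  · rw [hW]
    have h1 : L ^ (1 - ε / 2) * (D * Real.log L / L) = D * (Real.log L * L ^ (-(ε / 2))) := by
      have : L ^ (1 - ε / 2) = L * L ^ (-(ε / 2)) := by
        rw [show (1 - ε / 2 : ℝ) = 1 + (-(ε / 2)) by ring, Real.rpow_add hLp, Real.rpow_one]
      rw [this]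
      field_simp
    rw [h1]
    exact a1
  · rw [hW]
    have h1 : D * Real.log L / L * L ^ (2 - ε) = D * (Real.log L * L ^ (-(ε / 2))) * L ^ (1 - ε / 2) := by
      have h2 : L ^ (2 - ε) = L * (L ^ (-(ε / 2)) * L ^ (1 - ε / 2)) := by
        rw [← Real.rpow_add hLp]
        nth_rewrite 2 [← Real.rpow_one L]
        rw [← Real.rpow_add hLp]
        congr 1
        ring
      rw [h2]
      field_simp
    have h3 : D * Real.log L / L * L ^ (2 - ε) ≤ η ^ 2 / 4 * L ^ (1 - ε / 2) := by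
      rw [h1]
      exact mul_le_mul_of_nonneg_right a2 hW0
    have h4 : -(L ^ (1 - ε / 2) * η ^ 2 / 2) + D * Real.log L / L * L ^ (2 - ε) ≤
        -(η ^ 2 / 4 * L ^ (1 / 2 : ℝ)) := by
      have h5 : η ^ 2 / 4 * L ^ (1 / 2 : ℝ) ≤ η ^ 2 / 4 * L ^ (1 - ε / 2) :=
        mul_le_mul_of_nonneg_left hWh (by positivity)
      linarith
    have h6 : L ^ (3 : ℝ) = L ^ 3 := by
      rw [← Real.rpow_natCast]; norm_num
    calc L * (C * L ^ 2) * Real.exp (-(L ^ (1 - ε / 2) * η ^ 2 / 2) + D * Real.log L / L * L ^ (2 - ε))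
        ≤ L * (C * L ^ 2) * Real.exp (-(η ^ 2 / 4 * L ^ (1 / 2 : ℝ))) :=
          mul_le_mul_of_nonneg_left (Real.exp_le_exp.2 h4) (by positivity)
      _ = C * (L ^ (3 : ℝ) * Real.exp (-(η ^ 2 / 4 * L ^ (1 / 2 : ℝ)))) := by rw [h6]; ring
      _ ≤ κ := a3.le
  · rw [hW]
    have h6 : L ^ (2 : ℝ) = L ^ 2 := by
      rw [← Real.rpow_natCast]; norm_num
    calc C * L ^ 2 * Real.exp (-(L ^ (1 - ε / 2) / 2))
        ≤ C * L ^ 2 * Real.exp (-(1 / 2 * L ^ (1 / 2 : ℝ))) :=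
          mul_le_mul_of_nonneg_left (Real.exp_le_exp.2 (by linarith)) (by positivity)
      _ = C * (L ^ (2 : ℝ) * Real.exp (-(1 / 2 * L ^ (1 / 2 : ℝ)))) := by rw [h6]; ring
      _ ≤ κ := a4.le
  · rw [hW]
    have h6 : L ^ (4 : ℝ) = L ^ 4 := by
      rw [← Real.rpow_natCast]; norm_num
    have h7 : L / L ^ (1 - ε / 2) = 1 * L ^ (ε / 2) := by
      rw [one_mul, div_eq_iff (Real.rpow_pos_of_pos hLp _).ne', ← Real.rpow_add hLp]
      nth_rewrite 1 [← Real.rpow_one L]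
      congr 1
      ring
    rw [h7, ← h6]
    exact a5.le

end Pool.Agent.SK
end
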