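import Pool.Agent.Lib.MP_9cfc0a_nt.Mg.G012
import Pool.Agent.Lib.MP_9cfc0a_nt.Mg.G077
import Pool.Agent.Lib.MP_9cfc0a_nt.SK.ZFb
import Pool.Agent.Lib.MP_9cfc0a_nt.Mg.G004

section

set_option autoImplicit false

namespace Pool.Agent.SK

open Complex MeasureTheory Metric

/-- R4. The argument principle on a rectangle, with multiplicities.
PROOF. The point `c = (a : ℂ)` lies on the boundary, so `f c ≠ 0`. `EM.factor_zeros f c r R` with `r = 2a + T + 1`,
`R = r + 1` gives `n`, `ρ`, `g` (the closed rectangle lies in `closedBall c r`: `‖w - c‖ ≤ |Re w - a| + |Im w| ≤ 2a + T`,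
so `g ≠ 0` there). `bd_factor` with `R' = R`. Then group the `j` by the value `ρ j`:
`∑_{j inside} Φ (ρ j) = ∑_{w ∈ S} #{j | ρ j = w} Φ w` (`Finset.sum_fiberwise_of_maps_to`: the `ρ j` inside are zeros of
`f`, so they lie in `S`; for `w ∈ S` the filter `{j | inside ∧ ρ j = w}` is `{j | ρ j = w}`), and
`#{j | ρ j = w} = analyticOrderNatAt f w` by `TS.order_prod` (`g w ≠ 0`, `f = ∏ * g` near `w`). -/
theorem bd_zeros (a T : ℝ) (ha : 0 < a) (hT : 0 < T) (f Φ : ℂ → ℂ) (hf : Differentiable ℂ f)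
    (hΦ : Differentiable ℂ Φ) (hf0 : ∀ w, Bd a T w → f w ≠ 0) (S : Finset ℂ)
    (hS : ∀ w, w ∈ S ↔ f w = 0 ∧ |w.re| < a ∧ |w.im| < T) :
    bd a T (fun w => logDeriv f w * Φ w) =
      2 * Real.pi * ∑ w ∈ S, (analyticOrderNatAt f w : ℂ) * Φ w := by
  classical
  have hcB : Bd a T (a : ℂ) := by
    left
    refine ⟨by simp [abs_of_pos ha], by simpa using hT.le⟩
  have hr0 : 0 < 2 * a + T + 1 := by linarith
  obtain ⟨n, ρ, g, hg, hfg, hρ, hg0⟩ := EM.factor_zeros f (a : ℂ) (2 * a + T + 1) (2 * a + T + 2)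
    hr0 (by linarith) (fun z _ => hf.analyticAt z) (hf0 _ hcB)
  have hin : ∀ w : ℂ, |w.re| ≤ a → |w.im| ≤ T → ‖w - (a : ℂ)‖ ≤ 2 * a + T := by
    intro w h1 h2
    have h3 : ‖w - (a : ℂ)‖ ≤ |(w - (a : ℂ)).re| + |(w - (a : ℂ)).im| :=
      Complex.norm_le_abs_re_add_abs_im _
    have h4 : (w - (a : ℂ)).re = w.re - a := by simp
    have h5 : (w - (a : ℂ)).im = w.im := by simp
    rw [h4, h5] at h3
    have h6 : |w.re - a| ≤ 2 * a := by
      rw [abs_le] at h1 ⊢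
      constructor <;> linarith [h1.1, h1.2]
    linarith
  have hmem : ∀ w : ℂ, |w.re| ≤ a → |w.im| ≤ T → w ∈ closedBall (a : ℂ) (2 * a + T + 1) := by
    intro w h1 h2
    rw [mem_closedBall, dist_eq_norm]
    linarith [hin w h1 h2]
  have hsub : ∀ w : ℂ, w ∈ closedBall (a : ℂ) (2 * a + T + 1) →
      w ∈ closedBall (a : ℂ) (2 * a + T + 2) := by
    intro w hw
    exact closedBall_subset_closedBall (by linarith) hw
  have hfact := bd_factor a T (2 * a + T + 2) (a : ℂ) ha hT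
    (fun w h1 h2 => by linarith [hin w h1 h2]) f g Φ n ρ hg hfg (fun j => hsub _ (hρ j))
    (fun w h1 h2 => hg0 w (hmem w h1 h2)) hf0 hΦ
  rw [hfact]
  congr 1
  have hmaps : ∀ j ∈ Finset.univ.filter (fun j => |(ρ j).re| < a ∧ |(ρ j).im| < T), ρ j ∈ S := by
    intro j hj
    rw [Finset.mem_filter] at hj
    rw [hS]
    refine ⟨?_, hj.2⟩
    rw [hfg _ (hsub _ (hρ j))]
    have : ∏ i, (ρ j - ρ i) = 0 := Finset.prod_eq_zero (Finset.mem_univ j) (sub_self _)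
    rw [this, zero_mul]
  rw [← Finset.sum_fiberwise_of_maps_to hmaps]
  refine Finset.sum_congr rfl ?_
  intro w hw
  have hw' := (hS w).1 hw
  have hwm : w ∈ closedBall (a : ℂ) (2 * a + T + 1) := hmem w hw'.2.1.le hw'.2.2.le
  have hord : analyticOrderNatAt f w = (Finset.univ.filter (fun j => ρ j = w)).card := by
    apply TS.order_prod f g n ρ w (hg w (hsub w hwm)) (hg0 w hwm)
    have hball : ball (a : ℂ) (2 * a + T + 2) ∈ nhds w := by
      apply isOpen_ball.mem_nhds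
      rw [mem_closedBall] at hwm
      rw [mem_ball]
      linarith
    filter_upwards [hball] with z hz
    exact hfg z (ball_subset_closedBall hz)
  have hfil : (Finset.univ.filter (fun j => |(ρ j).re| < a ∧ |(ρ j).im| < T)).filter
      (fun j => ρ j = w) = Finset.univ.filter (fun j => ρ j = w) := by
    ext j
    simp only [Finset.mem_filter, Finset.mem_univ, true_and]
    constructor
    · exact fun h => h.2
    · intro h
      refine ⟨?_, h⟩
      rw [h]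
      exact hw'.2
  rw [hfil, hord]
  rw [Finset.sum_congr rfl (g := fun _ => Φ w) (fun j hj => by
    rw [Finset.mem_filter] at hj
    rw [hj.2])]
  rw [Finset.sum_const, nsmul_eq_mul]

end Pool.Agent.SK
end

section

set_option autoImplicit false

/-! Part A: almost all primitive characters have a zero free region of width `log log r / log r`
and small `L'/L` on the line `1/2 + (log r)^(-1/10)`. -/

namespace Pool.Agent.SK

open Complex MeasureTheory
open Pool.Agent.SO (pt prim MM NN)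

/-- numerical conditions -/
def zcond (C₀ ε : ℝ) (A : ℕ) (L : ℝ) : Prop :=
  1000 ≤ L ∧ 51 * C₀ / L ≤ ε / 2 ∧ 12 * C₀ * L ^ (-(1 / 10) : ℝ) ≤ ε / 2 ∧
  16 * 3 ^ (A + 2) * L ^ 2 * Real.exp (-(L ^ (9 / 10 : ℝ) / 32)) ≤ 1 ∧
  4 * 2 ^ (A + 2) ≤ L ^ (1 / 20 : ℝ) ∧ 100 ≤ L ^ (9 / 10 : ℝ) ∧ L ^ (9 / 10 : ℝ) + 3 ≤ L / 4

theorem zcond_ev (C₀ ε : ℝ) (hε : 0 < ε) (A : ℕ) :
    ∀ᶠ L : ℝ in Filter.atTop, zcond C₀ ε A L := by
  have h1 : ∀ᶠ L : ℝ in Filter.atTop, (1000 : ℝ) ≤ L := Filter.eventually_ge_atTop _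
  have h2 : ∀ᶠ L : ℝ in Filter.atTop, 51 * C₀ / L ≤ ε / 2 := by
    have : Filter.Tendsto (fun L : ℝ => 51 * C₀ / L) Filter.atTop (nhds 0) :=
      Filter.Tendsto.div_atTop tendsto_const_nhds Filter.tendsto_id
    exact this.eventually_le_const (by positivity)
  have h3 : ∀ᶠ L : ℝ in Filter.atTop, 12 * C₀ * L ^ (-(1 / 10) : ℝ) ≤ ε / 2 := by
    have : Filter.Tendsto (fun L : ℝ => 12 * C₀ * L ^ (-(1 / 10) : ℝ)) Filter.atTop (nhds (12 * C₀ * 0)) :=
      (tendsto_rpow_neg_atTop (by norm_num : (0 : ℝ) < 1 / 10)).const_mul _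
    rw [mul_zero] at this
    exact this.eventually_le_const (by positivity)
  have h4 : ∀ᶠ L : ℝ in Filter.atTop,
      16 * 3 ^ (A + 2) * L ^ 2 * Real.exp (-(L ^ (9 / 10 : ℝ) / 32)) ≤ 1 := by
    have hu : Filter.Tendsto (fun L : ℝ => L ^ (9 / 10 : ℝ) / 32) Filter.atTop Filter.atTop :=
      (tendsto_rpow_atTop (by norm_num : (0 : ℝ) < 9 / 10)).atTop_div_const (by norm_num)
    have ht := (Real.tendsto_pow_mul_exp_neg_atTop_nhds_zero 3).comp hu
    have ht2 := (ht.const_mul (16 * 3 ^ (A + 2) * 32 ^ 3))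
    rw [mul_zero] at ht2
    have h5 := ht2.eventually_le_const (by norm_num : (0 : ℝ) < 1)
    filter_upwards [h5, h1] with L h6 h7
    refine le_trans ?_ h6
    have h8 : L ^ 2 ≤ 32 ^ 3 * (L ^ (9 / 10 : ℝ) / 32) ^ 3 := by
      have : 32 ^ 3 * (L ^ (9 / 10 : ℝ) / 32) ^ 3 = L ^ (27 / 10 : ℝ) := by
        rw [div_pow, ← Real.rpow_natCast (L ^ (9 / 10 : ℝ)) 3, ← Real.rpow_mul (by linarith)]
        norm_num
        ring
      rw [this, ← Real.rpow_natCast L 2]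
      exact Real.rpow_le_rpow_of_exponent_le (by linarith) (by norm_num)
    show 16 * 3 ^ (A + 2) * L ^ 2 * Real.exp (-(L ^ (9 / 10 : ℝ) / 32)) ≤
      16 * 3 ^ (A + 2) * 32 ^ 3 * ((L ^ (9 / 10 : ℝ) / 32) ^ 3 * Real.exp (-(L ^ (9 / 10 : ℝ) / 32)))
    calc 16 * 3 ^ (A + 2) * L ^ 2 * Real.exp (-(L ^ (9 / 10 : ℝ) / 32))
        ≤ 16 * 3 ^ (A + 2) * (32 ^ 3 * (L ^ (9 / 10 : ℝ) / 32) ^ 3) * Real.exp (-(L ^ (9 / 10 : ℝ) / 32)) := by
          gcongr
      _ = _ := by ring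
  have h5 : ∀ᶠ L : ℝ in Filter.atTop, 4 * 2 ^ (A + 2) ≤ L ^ (1 / 20 : ℝ) :=
    (tendsto_rpow_atTop (by norm_num : (0 : ℝ) < 1 / 20)).eventually_ge_atTop _
  have h6 : ∀ᶠ L : ℝ in Filter.atTop, 100 ≤ L ^ (9 / 10 : ℝ) :=
    (tendsto_rpow_atTop (by norm_num : (0 : ℝ) < 9 / 10)).eventually_ge_atTop _
  have h7 : ∀ᶠ L : ℝ in Filter.atTop, L ^ (9 / 10 : ℝ) + 3 ≤ L / 4 := by
    have h8 : ∀ᶠ L : ℝ in Filter.atTop, 8 ≤ L ^ (1 / 10 : ℝ) :=
      (tendsto_rpow_atTop (by norm_num : (0 : ℝ) < 1 / 10)).eventually_ge_atTop _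
    filter_upwards [h8, h1] with L h8 h9
    have h10 : L = L ^ (9 / 10 : ℝ) * L ^ (1 / 10 : ℝ) := by
      rw [← Real.rpow_add (by linarith)]; norm_num
    have h11 : 0 < L ^ (9 / 10 : ℝ) := Real.rpow_pos_of_pos (by linarith) _
    nlinarith
  filter_upwards [h1, h2, h3, h4, h5, h6, h7] with L h1 h2 h3 h4 h5 h6 h7
  exact ⟨h1, h2, h3, h4, h5, h6, h7⟩

/-- the properties of the good characters -/
def zgood (A : ℕ) (r : ℕ) [NeZero r] (χ : DirichletCharacter ℂ r) : Prop :=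
  (∀ (k : ℕ) (j : ℤ), 3 ≤ k → k ≤ r → |j| ≤ (r : ℤ) ^ 2 →
    Real.circleAverage (fun w => ‖FF r χ (pt r k (j / Real.log r) + w / (Real.log r : ℂ))‖ ^ 2) 0 3 ≤
      Real.exp (-((k : ℝ) / 16)) * (1 + |(j : ℝ)| / Real.log r) ^ (A + 2) * Real.log r ^ 2) ∧
  (∀ j : ℤ, |j| ≤ (r : ℤ) ^ 2 →
    Real.circleAverage (fun w => ‖DF r χ (pt r (⌊Real.log r ^ (9 / 10 : ℝ)⌋₊ : ℕ) (j / Real.log r)
      + w / (Real.log r : ℂ))‖ ^ 2) 0 3 ≤
      (1 + |(j : ℝ)| / Real.log r) ^ (A + 2) * Real.log r ^ (13 / 10 : ℝ))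

open scoped Classical in
theorem zgood_count : ∃ (A : ℕ) (C₀ : ℝ) (r₁ : ℕ), 1 ≤ C₀ ∧ 3 ≤ r₁ ∧ ∀ ε : ℝ, 0 < ε →
    ∀ (r : ℕ) [NeZero r], r₁ ≤ r → zcond C₀ ε A (Real.log r) →
    (((prim r).filter fun χ => ¬ zgood A r χ).card : ℝ) ≤ ε * NN r := by
  obtain ⟨A₁, C₁, r₁, hC₁, hr₁, h1⟩ := avgF
  obtain ⟨A₂, C₂, r₂, hC₂, hr₂, h2⟩ := avgD
  refine ⟨max A₁ A₂, max C₁ C₂, max r₁ r₂, hC₁.trans (le_max_left _ _), hr₁.trans (le_max_left _ _), ?_⟩
  intro ε hε r _ hr hz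
  set A := max A₁ A₂ with hA
  set C₀ := max C₁ C₂ with hC₀
  obtain ⟨z1, z2, z3, z4, z5, z6, z7⟩ := hz
  set L := Real.log r with hL
  have hL0 : 0 < L := by linarith
  have hN : 0 ≤ NN r := by unfold NN; positivity
  have hC₀1 : 1 ≤ C₀ := hC₁.trans (le_max_left _ _)
  set n := ⌊L ^ (9 / 10 : ℝ)⌋₊ with hn
  have hn1 : L ^ (9 / 10 : ℝ) - 1 ≤ n := by
    have := Nat.lt_floor_add_one (L ^ (9 / 10 : ℝ))
    linarith
  have hn2 : (n : ℝ) ≤ L ^ (9 / 10 : ℝ) := Nat.floor_le (by positivity)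
  -- the first family
  set I₁ : Finset (ℕ × ℤ) := ((Finset.range (r + 1)).filter fun k => 3 ≤ k) ×ˢ
    Finset.Icc (-((r ^ 2 : ℕ) : ℤ)) ((r ^ 2 : ℕ) : ℤ) with hI₁
  set X₁ : ℕ × ℤ → DirichletCharacter ℂ r → ℝ := fun p χ =>
    Real.circleAverage (fun w => ‖FF r χ (pt r p.1 (p.2 / L) + w / (L : ℂ))‖ ^ 2) 0 3 with hX₁
  have m1 := markov_union (prim r) I₁ X₁
    (fun p => Real.exp (-((p.1 : ℝ) / 16)) * (1 + |(p.2 : ℝ)| / L) ^ (A + 2) * L ^ 2)
    (fun p => C₀ * Real.exp (-((p.1 : ℝ) / 8)) * (1 + |(p.2 : ℝ)| / L) ^ A * NN r)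
    (fun p _ χ _ => Real.circleAverage_nonneg_of_nonneg fun x _ => by positivity)
    (fun p _ => by positivity)
    (fun p hp => by
      have hp3 : 3 ≤ p.1 := by
        have := (Finset.mem_product.1 hp).1
        exact (Finset.mem_filter.1 this).2
      refine (h1 r ((le_max_left _ _).trans hr) p.1 (p.2 / L) (by exact_mod_cast hp3)).trans ?_
      have e : |(p.2 : ℝ) / L| = |(p.2 : ℝ)| / L := by rw [abs_div, abs_of_pos hL0]
      rw [e]
      have hb : (1 : ℝ) ≤ 1 + |(p.2 : ℝ)| / L := by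
        have : 0 ≤ |(p.2 : ℝ)| / L := by positivity
        linarith
      have : (1 + |(p.2 : ℝ)| / L) ^ A₁ ≤ (1 + |(p.2 : ℝ)| / L) ^ A :=
        pow_le_pow_right₀ hb (le_max_left _ _)
      have hCC : C₁ ≤ C₀ := le_max_left _ _
      gcongr)
  have s1 : ∑ p ∈ I₁, C₀ * Real.exp (-((p.1 : ℝ) / 8)) * (1 + |(p.2 : ℝ)| / L) ^ A * NN r /
      (Real.exp (-((p.1 : ℝ) / 16)) * (1 + |(p.2 : ℝ)| / L) ^ (A + 2) * L ^ 2) ≤ ε / 2 * NN r := by
    have e1 : ∀ p ∈ I₁, C₀ * Real.exp (-((p.1 : ℝ) / 8)) * (1 + |(p.2 : ℝ)| / L) ^ A * NN r /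
      (Real.exp (-((p.1 : ℝ) / 16)) * (1 + |(p.2 : ℝ)| / L) ^ (A + 2) * L ^ 2) =
      (C₀ * NN r / L ^ 2) * (Real.exp (-((p.1 : ℝ) / 16)) * (1 / (1 + |(p.2 : ℝ)| / L) ^ 2)) := by
      intro p _
      have e2 : Real.exp (-((p.1 : ℝ) / 8)) = Real.exp (-((p.1 : ℝ) / 16)) * Real.exp (-((p.1 : ℝ) / 16)) := by
        rw [← Real.exp_add]; congr 1; ring
      have hb : (0 : ℝ) < 1 + |(p.2 : ℝ)| / L := by positivity
      rw [e2, pow_add]
      have := (Real.exp_pos (-((p.1 : ℝ) / 16))).ne'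
      field_simp
    rw [Finset.sum_congr rfl e1, ← Finset.mul_sum, hI₁, Finset.sum_product]
    have e3 : ∀ k ∈ (Finset.range (r + 1)).filter (fun k => 3 ≤ k),
        ∑ j ∈ Finset.Icc (-((r ^ 2 : ℕ) : ℤ)) ((r ^ 2 : ℕ) : ℤ),
          Real.exp (-((k : ℝ) / 16)) * (1 / (1 + |(j : ℝ)| / L) ^ 2) ≤ Real.exp (-((k : ℝ) / 16)) * (3 * L) := by
      intro k _
      rw [← Finset.mul_sum]
      have := sum_weight L (by linarith) (r ^ 2)
      gcongr
    have e4 : ∑ k ∈ (Finset.range (r + 1)).filter (fun k => 3 ≤ k), Real.exp (-((k : ℝ) / 16)) * (3 * L) ≤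
        17 * (3 * L) := by
      rw [← Finset.sum_mul]
      have : ∑ k ∈ (Finset.range (r + 1)).filter (fun k => 3 ≤ k), Real.exp (-((k : ℝ) / 16)) ≤ 17 :=
        (Finset.sum_le_sum_of_subset_of_nonneg (Finset.filter_subset _ _)
          fun _ _ _ => (Real.exp_pos _).le).trans (sum_exp_le (r + 1))
      gcongr
    calc C₀ * NN r / L ^ 2 * _ ≤ C₀ * NN r / L ^ 2 * (17 * (3 * L)) := by
          refine mul_le_mul_of_nonneg_left ((Finset.sum_le_sum e3).trans e4) (by positivity)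
      _ = 51 * C₀ / L * NN r := by field_simp; ring
      _ ≤ ε / 2 * NN r := by gcongr
  -- the second family
  set I₂ : Finset ℤ := Finset.Icc (-((r ^ 2 : ℕ) : ℤ)) ((r ^ 2 : ℕ) : ℤ) with hI₂
  set X₂ : ℤ → DirichletCharacter ℂ r → ℝ := fun j χ =>
    Real.circleAverage (fun w => ‖DF r χ (pt r n (j / L) + w / (L : ℂ))‖ ^ 2) 0 3 with hX₂
  have m2 := markov_union (prim r) I₂ X₂
    (fun j => (1 + |(j : ℝ)| / L) ^ (A + 2) * L ^ (13 / 10 : ℝ))
    (fun j => C₀ * (4 * L ^ (2 / 10 : ℝ)) * (1 + |(j : ℝ)| / L) ^ A * NN r)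
    (fun p _ χ _ => Real.circleAverage_nonneg_of_nonneg fun x _ => by positivity)
    (fun p _ => by positivity)
    (fun j hj => by
      refine (h2 r ((le_max_right _ _).trans hr) n (j / L) (by linarith) (by linarith)).trans ?_
      have e : |(j : ℝ) / L| = |(j : ℝ)| / L := by rw [abs_div, abs_of_pos hL0]
      rw [e]
      have hb : (1 : ℝ) ≤ 1 + |(j : ℝ)| / L := by
        have : 0 ≤ |(j : ℝ)| / L := by positivity
        linarith
      have h3 : (1 + |(j : ℝ)| / L) ^ A₂ ≤ (1 + |(j : ℝ)| / L) ^ A :=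
        pow_le_pow_right₀ hb (le_max_right _ _)
      have hCC : C₂ ≤ C₀ := le_max_right _ _
      have h4 : L ^ 2 / (n : ℝ) ^ 2 ≤ 4 * L ^ (2 / 10 : ℝ) := by
        have h5 : L ^ (9 / 10 : ℝ) / 2 ≤ n := by linarith
        have h6 : 0 < L ^ (9 / 10 : ℝ) / 2 := by positivity
        calc L ^ 2 / (n : ℝ) ^ 2 ≤ L ^ 2 / (L ^ (9 / 10 : ℝ) / 2) ^ 2 := by gcongr
          _ = 4 * L ^ (2 / 10 : ℝ) := by
            rw [div_pow, ← Real.rpow_natCast (L ^ (9 / 10 : ℝ)) 2, ← Real.rpow_mul hL0.le,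
              div_div_eq_mul_div, ← Real.rpow_natCast L 2]
            rw [show ((2 : ℕ) : ℝ) = 2 / 10 + 9 / 10 * ((2 : ℕ) : ℝ) by norm_num, Real.rpow_add hL0]
            have : L ^ (9 / 10 * ((2 : ℕ) : ℝ)) ≠ 0 := (Real.rpow_pos_of_pos hL0 _).ne'
            norm_num at this ⊢
            field_simp
      calc C₂ * L ^ 2 / (n : ℝ) ^ 2 * (1 + |(j : ℝ)| / L) ^ A₂ * NN r
          = C₂ * (L ^ 2 / (n : ℝ) ^ 2) * (1 + |(j : ℝ)| / L) ^ A₂ * NN r := by ring
        _ ≤ C₀ * (4 * L ^ (2 / 10 : ℝ)) * (1 + |(j : ℝ)| / L) ^ A * NN r := by gcongr)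
  have s2 : ∑ j ∈ I₂, C₀ * (4 * L ^ (2 / 10 : ℝ)) * (1 + |(j : ℝ)| / L) ^ A * NN r /
      ((1 + |(j : ℝ)| / L) ^ (A + 2) * L ^ (13 / 10 : ℝ)) ≤ ε / 2 * NN r := by
    have e1 : ∀ j ∈ I₂, C₀ * (4 * L ^ (2 / 10 : ℝ)) * (1 + |(j : ℝ)| / L) ^ A * NN r /
      ((1 + |(j : ℝ)| / L) ^ (A + 2) * L ^ (13 / 10 : ℝ)) =
      (4 * C₀ * NN r * (L ^ (2 / 10 : ℝ) / L ^ (13 / 10 : ℝ))) * (1 / (1 + |(j : ℝ)| / L) ^ 2) := by
      intro j _
      have hb : (0 : ℝ) < 1 + |(j : ℝ)| / L := by positivity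
      rw [pow_add]
      have : (0 : ℝ) < L ^ (13 / 10 : ℝ) := Real.rpow_pos_of_pos hL0 _
      field_simp
    rw [Finset.sum_congr rfl e1, ← Finset.mul_sum]
    have e5 : L ^ (2 / 10 : ℝ) / L ^ (13 / 10 : ℝ) = L ^ (-(1 / 10) : ℝ) / L := by
      rw [← Real.rpow_sub hL0, div_eq_mul_inv (L ^ (-(1 / 10) : ℝ)), ← Real.rpow_neg_one L,
        ← Real.rpow_add hL0]
      norm_num
    calc 4 * C₀ * NN r * (L ^ (2 / 10 : ℝ) / L ^ (13 / 10 : ℝ)) * _
        ≤ 4 * C₀ * NN r * (L ^ (2 / 10 : ℝ) / L ^ (13 / 10 : ℝ)) * (3 * L) := by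
          refine mul_le_mul_of_nonneg_left (sum_weight L (by linarith) (r ^ 2)) (by positivity)
      _ = 12 * C₀ * L ^ (-(1 / 10) : ℝ) * NN r := by rw [e5]; field_simp; ring
      _ ≤ ε / 2 * NN r := by gcongr
  have hsub : ((prim r).filter fun χ => ¬ zgood A r χ) ⊆
      ((prim r).filter fun χ => ∃ p ∈ I₁, Real.exp (-((p.1 : ℝ) / 16)) * (1 + |(p.2 : ℝ)| / L) ^ (A + 2) * L ^ 2 < X₁ p χ) ∪
      ((prim r).filter fun χ => ∃ j ∈ I₂, (1 + |(j : ℝ)| / L) ^ (A + 2) * L ^ (13 / 10 : ℝ) < X₂ j χ) := by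
    intro χ hχ
    rw [Finset.mem_filter] at hχ
    by_contra hcon
    rw [Finset.mem_union, not_or, Finset.mem_filter, Finset.mem_filter] at hcon
    obtain ⟨c1, c2⟩ := hcon
    refine hχ.2 ⟨?_, ?_⟩
    · intro k j hk hkr hj
      by_contra hlt
      rw [not_le] at hlt
      refine c1 ⟨hχ.1, (k, j), ?_, hlt⟩
      rw [hI₁, Finset.mem_product, Finset.mem_filter, Finset.mem_range, Finset.mem_Icc]
      rw [abs_le] at hj
      push_cast
      exact ⟨⟨by show k < r + 1; omega, hk⟩, hj⟩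
    · intro j hj
      by_contra hlt
      rw [not_le] at hlt
      refine c2 ⟨hχ.1, j, ?_, hlt⟩
      rw [hI₂, Finset.mem_Icc]
      rw [abs_le] at hj
      push_cast
      exact hj
  calc (((prim r).filter fun χ => ¬ zgood A r χ).card : ℝ)
      ≤ (((prim r).filter fun χ => ∃ p ∈ I₁, Real.exp (-((p.1 : ℝ) / 16)) * (1 + |(p.2 : ℝ)| / L) ^ (A + 2) * L ^ 2 < X₁ p χ).card : ℝ) +
      (((prim r).filter fun χ => ∃ j ∈ I₂, (1 + |(j : ℝ)| / L) ^ (A + 2) * L ^ (13 / 10 : ℝ) < X₂ j χ).card : ℝ) := by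
        exact_mod_cast (Finset.card_le_card hsub).trans (Finset.card_union_le _ _)
    _ ≤ ε / 2 * NN r + ε / 2 * NN r := add_le_add (m1.trans s1) (m2.trans s2)
    _ = ε * NN r := by ring

end Pool.Agent.SK
end

section

set_option autoImplicit false

/-! Part A: consequences for a good character and the final statement `good_chars`. -/

namespace Pool.Agent.SK

open Complex MeasureTheory
open Pool.Agent.SO (pt prim MM NN)

/-- floor of the height -/
private theorem floor_height (r : ℕ) (v : ℝ) (hL : 1 ≤ Real.log r) (hr : 3 ≤ r) (hv : |v| ≤ r) :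
    |⌊v * Real.log r⌋| ≤ (r : ℤ) ^ 2 ∧
    0 ≤ v * Real.log r - ⌊v * Real.log r⌋ ∧ v * Real.log r - ⌊v * Real.log r⌋ ≤ 1 ∧
    1 + |((⌊v * Real.log r⌋ : ℤ) : ℝ)| / Real.log r ≤ 2 + |v| := by
  have h1 := Int.floor_le (v * Real.log r)
  have h2 := (Int.lt_floor_add_one (v * Real.log r)).le
  have hr0 : (3 : ℝ) ≤ r := by exact_mod_cast hr
  have hlog : Real.log r ≤ r - 1 := by
    have := Real.log_le_sub_one_of_pos (by linarith : (0 : ℝ) < r)
    linarith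
  have hj : |((⌊v * Real.log r⌋ : ℤ) : ℝ)| ≤ |v| * Real.log r + 1 := by
    rw [abs_le]
    have h3 : |v * Real.log r| = |v| * Real.log r := by
      rw [abs_mul, abs_of_pos (by linarith : 0 < Real.log r)]
    have h4 := abs_le.1 h3.le
    constructor <;> linarith [h4.1, h4.2]
  refine ⟨?_, by linarith, by linarith, ?_⟩
  · have : (|⌊v * Real.log r⌋| : ℝ) ≤ (r : ℝ) ^ 2 := by
      refine hj.trans ?_
      have : |v| * Real.log r ≤ r * (r - 1) := by gcongr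
      nlinarith
    exact_mod_cast this
  · have hL0 : 0 < Real.log r := by linarith
    have : |((⌊v * Real.log r⌋ : ℤ) : ℝ)| / Real.log r ≤ |v| + 1 := by
      rw [div_le_iff₀ hL0]
      nlinarith [abs_nonneg v]
    linarith

private theorem point_eq (r : ℕ) (b v k : ℝ) (j : ℤ) (hL : Real.log r ≠ 0) :
    pt r k (j / Real.log r) + ((b - k : ℝ) + ((v * Real.log r - j : ℝ) : ℂ) * I) / (Real.log r : ℂ) =
      pt r b v := by
  unfold pt
  generalize Real.log r = ℓ at *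
  have hLc : ((ℓ : ℝ) : ℂ) ≠ 0 := by exact_mod_cast hL
  push_cast
  field_simp
  ring

private theorem norm_w (x y : ℝ) (hx : 0 ≤ x) (hx1 : x ≤ 1) (hy : 0 ≤ y) (hy1 : y ≤ 1) :
    ‖(x : ℂ) + (y : ℂ) * I‖ ≤ 2 := by
  refine (norm_add_le _ _).trans ?_
  rw [norm_mul, Complex.norm_real, Complex.norm_real, Complex.norm_I, mul_one,
    Real.norm_of_nonneg hx, Real.norm_of_nonneg hy]
  linarith

theorem FF_point (A : ℕ) (r : ℕ) [NeZero r] (hr : 3 ≤ r) (hL : 1 ≤ Real.log r)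
    (χ : DirichletCharacter ℂ r) (hχ : χ ≠ 1) (hg : zgood A r χ) (b v : ℝ) (hb : 3 ≤ b)
    (hb2 : b ≤ r) (hv : |v| ≤ r) :
    ‖FF r χ (pt r b v)‖ ^ 2 ≤ 4 * Real.exp (-(b / 16)) * (2 + |v|) ^ (A + 2) * Real.log r ^ 2 := by
  obtain ⟨f1, f2, f3, f4⟩ := floor_height r v hL hr hv
  set j := ⌊v * Real.log r⌋ with hj
  have hk1 := Nat.floor_le (by linarith : 0 ≤ b)
  have hk2 := (Nat.lt_floor_add_one b).le
  set k := ⌊b⌋₊ with hk
  have hk3 : 3 ≤ k := Nat.le_floor (by exact_mod_cast hb)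
  have hkr : k ≤ r := by
    have : (k : ℝ) ≤ r := hk1.trans hb2
    exact_mod_cast this
  have h1 := hg.1 k j hk3 hkr f1
  have hd : Differentiable ℂ (fun w => FF r χ (pt r k (j / Real.log r) + w / (Real.log r : ℂ))) :=
    (FF_diff χ hχ).comp (by fun_prop)
  have h2 := SO.sq_le_circleAverage _ hd 2 _ (by norm_num) (by norm_num at h1 ⊢; exact h1)
    (((b - k : ℝ) : ℂ) + ((v * Real.log r - j : ℝ) : ℂ) * I)
    (norm_w _ _ (by linarith) (by linarith) (by linarith) (by linarith))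
  rw [point_eq r b v k j (by linarith)] at h2
  refine h2.trans ?_
  have e1 : Real.exp (-((k : ℝ) / 16)) ≤ 4 / 3 * Real.exp (-(b / 16)) := by
    have e2 : Real.exp (-((k : ℝ) / 16)) = Real.exp ((b - k) / 16) * Real.exp (-(b / 16)) := by
      rw [← Real.exp_add]; congr 1; ring
    have e3 : Real.exp ((b - k) / 16) ≤ Real.exp (1 / 16) := Real.exp_le_exp.2 (by linarith)
    have e4 : Real.exp (1 / 16) ≤ 4 / 3 := by
      have h5 := Real.add_one_le_exp (-(1 / 16) : ℝ)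
      rw [Real.exp_neg] at h5
      have h6 : (0 : ℝ) < Real.exp (1 / 16) := Real.exp_pos _
      have h7 : (15 / 16 : ℝ) * Real.exp (1 / 16) ≤ 1 := by
        have := mul_le_mul_of_nonneg_right h5 h6.le
        rw [inv_mul_cancel₀ h6.ne'] at this
        norm_num at this ⊢
        linarith
      linarith
    rw [e2]
    gcongr
    exact e3.trans e4
  have hL0 : 0 < Real.log r := by linarith
  calc (2 + 1) * (Real.exp (-((k : ℝ) / 16)) * (1 + |(j : ℝ)| / Real.log r) ^ (A + 2) * Real.log r ^ 2)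
      ≤ (2 + 1) * ((4 / 3 * Real.exp (-(b / 16))) * (2 + |v|) ^ (A + 2) * Real.log r ^ 2) := by gcongr
    _ = 4 * Real.exp (-(b / 16)) * (2 + |v|) ^ (A + 2) * Real.log r ^ 2 := by ring

theorem DF_point (A : ℕ) (r : ℕ) [NeZero r] (hr : 3 ≤ r) (hL : 1 ≤ Real.log r)
    (χ : DirichletCharacter ℂ r) (hχ : χ ≠ 1) (hg : zgood A r χ) (v : ℝ) (hv : |v| ≤ r) :
    ‖DF r χ (pt r (Real.log r ^ (9 / 10 : ℝ)) v)‖ ^ 2 ≤
      3 * (2 + |v|) ^ (A + 2) * Real.log r ^ (13 / 10 : ℝ) := by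
  obtain ⟨f1, f2, f3, f4⟩ := floor_height r v hL hr hv
  have hL0 : 0 < Real.log r := by linarith
  set j := ⌊v * Real.log r⌋ with hj
  set b := Real.log r ^ (9 / 10 : ℝ) with hb
  have hb0 : 0 ≤ b := by positivity
  have hk1 := Nat.floor_le hb0
  have hk2 := (Nat.lt_floor_add_one b).le
  have h1 := hg.2 j f1
  rw [← hb] at h1
  set k := ⌊b⌋₊ with hk
  have hd : Differentiable ℂ (fun w => DF r χ (pt r k (j / Real.log r) + w / (Real.log r : ℂ))) :=
    (DF_diff χ hχ).comp (by fun_prop)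
  have h2 := SO.sq_le_circleAverage _ hd 2 _ (by norm_num) (by norm_num at h1 ⊢; exact h1)
    (((b - k : ℝ) : ℂ) + ((v * Real.log r - j : ℝ) : ℂ) * I)
    (norm_w _ _ (by linarith) (by linarith) (by linarith) (by linarith))
  rw [point_eq r b v k j (by linarith)] at h2
  refine h2.trans ?_
  calc (2 + 1) * ((1 + |(j : ℝ)| / Real.log r) ^ (A + 2) * Real.log r ^ (13 / 10 : ℝ))
      ≤ (2 + 1) * ((2 + |v|) ^ (A + 2) * Real.log r ^ (13 / 10 : ℝ)) := by gcongr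
    _ = _ := by ring

/-- zeros to the right of the critical line -/
private theorem zero_right (A : ℕ) (r : ℕ) [NeZero r] (hr : 3 ≤ r) (hL : 1000 ≤ Real.log r)
    (χ : DirichletCharacter ℂ r) (hχ : χ ≠ 1) (hg : zgood A r χ) (ρ : ℂ)
    (h0 : χ.LFunction ρ = 0) (hre : 1 / 2 < ρ.re) :
    (ρ.re - 1 / 2) * Real.log r ≤ 64 * (A + 2) * (Real.log (Real.log r) + Real.log (2 + |ρ.im|)) := by
  have hre1 : ρ.re < 1 := by
    by_contra hcon
    rw [not_lt] at hcon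
    exact DirichletCharacter.LFunction_ne_zero_of_one_le_re χ (Or.inl hχ) hcon h0
  have hL0 : 0 < Real.log r := by linarith
  have hr0 : (3 : ℝ) ≤ r := by exact_mod_cast hr
  set L := Real.log r with hLdef
  have hA : (0 : ℝ) ≤ A := Nat.cast_nonneg A
  have hll : 2 ≤ Real.log L := by
    rw [Real.le_log_iff_exp_le hL0]
    have h1 : Real.exp 2 = Real.exp 1 * Real.exp 1 := by rw [← Real.exp_add]; norm_num
    have h2 := Real.exp_one_lt_d9
    have h3 := Real.exp_pos 1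
    nlinarith
  have hl2 : 0 ≤ Real.log (2 + |ρ.im|) := Real.log_nonneg (by linarith [abs_nonneg ρ.im])
  set b := (ρ.re - 1 / 2) * L with hb
  have hb1 : b ≤ L / 2 := by rw [hb]; nlinarith
  have hpt : pt r b ρ.im = ρ := by
    unfold pt
    rw [← hLdef, hb]
    have hLc : ((L : ℝ) : ℂ) ≠ 0 := by exact_mod_cast hL0.ne'
    conv_rhs => rw [← Complex.re_add_im ρ]
    clear_value L
    push_cast
    field_simp
    ring
  by_cases hv : |ρ.im| ≤ r
  · by_cases hb3 : 3 ≤ b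
    · have hlog : L ≤ r - 1 := by
        have := Real.log_le_sub_one_of_pos (by linarith : (0 : ℝ) < r)
        linarith
      have h1 := FF_point A r hr (by linarith) χ hχ hg b ρ.im hb3 (by linarith) hv
      rw [hpt] at h1
      have h2 : FF r χ ρ = -1 := by unfold FF; rw [h0]; ring
      rw [h2, norm_neg, norm_one, one_pow] at h1
      have h3 : Real.exp (b / 16) ≤ 4 * (2 + |ρ.im|) ^ (A + 2) * L ^ 2 := by
        have h4 : Real.exp (b / 16) * Real.exp (-(b / 16)) = 1 := by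
          rw [← Real.exp_add]; simp
        calc Real.exp (b / 16) = Real.exp (b / 16) * 1 := (mul_one _).symm
          _ ≤ Real.exp (b / 16) * (4 * Real.exp (-(b / 16)) * (2 + |ρ.im|) ^ (A + 2) * L ^ 2) := by gcongr
          _ = (Real.exp (b / 16) * Real.exp (-(b / 16))) * (4 * (2 + |ρ.im|) ^ (A + 2) * L ^ 2) := by ring
          _ = _ := by rw [h4, one_mul]
      have h5 : b / 16 ≤ Real.log (4 * (2 + |ρ.im|) ^ (A + 2) * L ^ 2) := by
        rw [Real.le_log_iff_exp_le (by positivity)]; exact h3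
      rw [Real.log_mul (by positivity) (by positivity), Real.log_mul (by norm_num) (by positivity),
        Real.log_pow, Real.log_pow] at h5
      have h6 : Real.log 4 ≤ Real.log L := Real.log_le_log (by norm_num) (by linarith)
      push_cast at h5
      nlinarith
    · rw [not_le] at hb3
      nlinarith
  · rw [not_le] at hv
    have h1 : L ≤ Real.log (2 + |ρ.im|) := Real.log_le_log (by linarith) (by linarith)
    nlinarith

/-- the symmetric zero -/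
private theorem zero_symm {r : ℕ} [NeZero r] (hr : 2 ≤ r) (χ : DirichletCharacter ℂ r)
    (hχ : χ.IsPrimitive) (ρ : ℂ) (h0 : χ.LFunction ρ = 0) (h1 : 0 < ρ.re) (h2 : ρ.re < 1) :
    χ.LFunction (1 - (starRingEnd ℂ) ρ) = 0 := by
  have h := SO.funct_norm r hr χ hχ (ρ.re - 1 / 2) ρ.im (by rw [abs_lt]; constructor <;> linarith)
  have e1 : (1 / 2 + ((ρ.re - 1 / 2 : ℝ) : ℂ) + (ρ.im : ℂ) * I) = ρ := by
    conv_rhs => rw [← Complex.re_add_im ρ]
    push_cast; ring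
  have e2 : (1 / 2 - ((ρ.re - 1 / 2 : ℝ) : ℂ) + (ρ.im : ℂ) * I) = 1 - (starRingEnd ℂ) ρ := by
    apply Complex.ext
    · simp; ring
    · simp
  rw [e1, e2, h0, norm_zero, mul_zero, mul_zero] at h
  rcases mul_eq_zero.1 h with h3 | h3
  · exfalso
    rw [norm_eq_zero] at h3
    have hre : 0 < (1 - (starRingEnd ℂ) ρ).re := by simp; linarith
    rcases χ.even_or_odd with he | he
    · rw [he.gammaFactor_def] at h3
      exact Gammaℝ_ne_zero_of_re_pos hre h3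
    · rw [he.gammaFactor_def] at h3
      exact Gammaℝ_ne_zero_of_re_pos (by rw [Complex.add_re, Complex.one_re]; linarith) h3
  · exact norm_eq_zero.1 h3

/-- **Part A.** For all but `ε NN r` of the primitive characters mod `r`: all zeros in the critical
strip are within `C (log log r + log (2 + |γ|)) / log r` of the critical line, and `L'/L` is at most
`(log r)^(7/10) (1 + |v|)^A` at `1/2 + (log r)^(-1/10) + i v`, `|v| ≤ exp ((log r)^(9/10) / C)`. -/
theorem good_chars : ∃ (A : ℕ) (C : ℝ), 1 ≤ C ∧ ∀ ε : ℝ, 0 < ε → ∃ r₀ : ℕ, 3 ≤ r₀ ∧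
    ∀ (r : ℕ) [NeZero r], r₀ ≤ r → ∃ S ⊆ prim r,
    (((prim r).card : ℝ) - (S.card : ℝ) ≤ ε * NN r) ∧ ∀ χ ∈ S,
    (∀ ρ : ℂ, χ.LFunction ρ = 0 → 0 < ρ.re →
      |ρ.re - 1 / 2| * Real.log r ≤ C * (Real.log (Real.log r) + Real.log (2 + |ρ.im|))) ∧
    (∀ v : ℝ, |v| ≤ Real.exp (Real.log r ^ (9 / 10 : ℝ) / C) →
      χ.LFunction (1 / 2 + (Real.log r ^ (-(1 / 10) : ℝ) : ℝ) + v * I) ≠ 0 ∧
      ‖deriv χ.LFunction (1 / 2 + (Real.log r ^ (-(1 / 10) : ℝ) : ℝ) + v * I) /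
        χ.LFunction (1 / 2 + (Real.log r ^ (-(1 / 10) : ℝ) : ℝ) + v * I)‖ ≤
        Real.log r ^ (7 / 10 : ℝ) * (1 + |v|) ^ A) := by
  classical
  obtain ⟨A, C₀, r₁, hC₀, hr₁, hcount⟩ := zgood_count
  refine ⟨A + 2, 64 * (A + 2), by nlinarith [(Nat.cast_nonneg A : (0 : ℝ) ≤ A)], ?_⟩
  intro ε hε
  obtain ⟨L₀, hL₀⟩ := Filter.eventually_atTop.1 (zcond_ev C₀ ε hε A)
  refine ⟨max r₁ ⌈Real.exp L₀⌉₊, hr₁.trans (le_max_left _ _), ?_⟩
  intro r _ hr
  have hr1 : r₁ ≤ r := (le_max_left _ _).trans hr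
  have hr3 : 3 ≤ r := hr₁.trans hr1
  have hr0 : (3 : ℝ) ≤ r := by exact_mod_cast hr3
  have hLL : L₀ ≤ Real.log r := by
    rw [Real.le_log_iff_exp_le (by linarith)]
    exact (Nat.le_ceil _).trans (by exact_mod_cast (le_max_right _ _).trans hr)
  have hz := hL₀ _ hLL
  have hc := hcount ε hε r hr1 hz
  obtain ⟨z1, z2, z3, z4, z5, z6, z7⟩ := hz
  refine ⟨(prim r).filter fun χ => zgood A r χ, Finset.filter_subset _ _, ?_, ?_⟩
  · have h1 := Finset.card_filter_add_card_filter_not (s := prim r) (fun χ => zgood A r χ)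
    have h2 : (((prim r).filter fun χ => zgood A r χ).card : ℝ) +
        (((prim r).filter fun χ => ¬ zgood A r χ).card : ℝ) = ((prim r).card : ℝ) := by
      exact_mod_cast h1
    linarith
  intro χ hχ
  obtain ⟨hχp, hg⟩ := Finset.mem_filter.1 hχ
  have hχ1 : χ ≠ 1 := ZF_prim_ne_one (by omega) hχp
  have hprim := prim_isPrimitive hχp
  have hA : (0 : ℝ) ≤ A := Nat.cast_nonneg A
  have hL0 : 0 < Real.log r := by linarith
  refine ⟨?_, ?_⟩
  · intro ρ h0 hre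
    have hre1 : ρ.re < 1 := by
      by_contra hcon
      rw [not_lt] at hcon
      exact DirichletCharacter.LFunction_ne_zero_of_one_le_re χ (Or.inl hχ1) hcon h0
    rcases lt_trichotomy ρ.re (1 / 2) with h | h | h
    · have h2 := zero_symm (by omega) χ hprim ρ h0 hre hre1
      have h3 := zero_right A r hr3 z1 χ hχ1 hg _ h2 (by simp; linarith)
      have e1 : (1 - (starRingEnd ℂ) ρ).re = 1 - ρ.re := by simp
      have e2 : (1 - (starRingEnd ℂ) ρ).im = ρ.im := by simp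
      rw [e1, e2] at h3
      rw [abs_of_neg (by linarith)]
      refine le_trans (le_of_eq ?_) h3
      ring
    · rw [h, sub_self, abs_zero, zero_mul]
      have h1 : 0 ≤ Real.log (Real.log r) := Real.log_nonneg (by linarith)
      have h2 : 0 ≤ Real.log (2 + |ρ.im|) := Real.log_nonneg (by linarith [abs_nonneg ρ.im])
      positivity
    · rw [abs_of_pos (by linarith)]
      exact zero_right A r hr3 z1 χ hχ1 hg ρ h0 h
  · intro v hv
    set L := Real.log r with hL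
    have hb0 : 0 < L ^ (9 / 10 : ℝ) := by positivity
    set b := L ^ (9 / 10 : ℝ) with hb
    have hpt : (1 / 2 + ((L ^ (-(1 / 10) : ℝ) : ℝ) : ℂ) + v * I) = pt r b v := by
      unfold pt
      have e1 : L ^ (-(1 / 10) : ℝ) = b / L := by
        rw [hb, div_eq_mul_inv (L ^ (9 / 10 : ℝ)) L, ← Real.rpow_neg_one L, ← Real.rpow_add hL0]
        norm_num
      rw [e1, ← hL]
      push_cast
      ring
    have hlog : L ≤ r - 1 := by
      have := Real.log_le_sub_one_of_pos (by linarith : (0 : ℝ) < r)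
      linarith
    have hvr : |v| ≤ r := by
      refine hv.trans ?_
      have h1 : b / (64 * (A + 2)) ≤ L := by
        rw [div_le_iff₀ (by positivity)]
        nlinarith
      calc Real.exp (b / (64 * (A + 2))) ≤ Real.exp L := Real.exp_le_exp.2 h1
        _ = r := Real.exp_log (by linarith)
    have h1 := FF_point A r hr3 (by linarith) χ hχ1 hg b v (by linarith) (by linarith) hvr
    have h2 := DF_point A r hr3 (by linarith) χ hχ1 hg v hvr
    rw [← hb] at h2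
    have hv3 : 2 + |v| ≤ 3 * Real.exp (b / (64 * (A + 2))) := by
      have : 1 ≤ Real.exp (b / (64 * (A + 2))) := Real.one_le_exp (by positivity)
      linarith
    have hF : ‖FF r χ (pt r b v)‖ ^ 2 ≤ 1 / 4 := by
      refine h1.trans ?_
      have e1 : (2 + |v|) ^ (A + 2) ≤ 3 ^ (A + 2) * Real.exp (b / 32) := by
        calc (2 + |v|) ^ (A + 2) ≤ (3 * Real.exp (b / (64 * (A + 2)))) ^ (A + 2) := by
              gcongr
          _ = 3 ^ (A + 2) * Real.exp (b / 64) := by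
              rw [mul_pow, ← Real.exp_nat_mul]
              congr 2
              push_cast
              field_simp
          _ ≤ 3 ^ (A + 2) * Real.exp (b / 32) := by
              have : Real.exp (b / 64) ≤ Real.exp (b / 32) := Real.exp_le_exp.2 (by linarith)
              gcongr
      have e2 : Real.exp (-(b / 16)) = Real.exp (-(b / 32)) * Real.exp (-(b / 32)) := by
        rw [← Real.exp_add]; congr 1; ring
      have e3 : Real.exp (b / 32) * Real.exp (-(b / 32)) = 1 := by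
        rw [← Real.exp_add]; simp
      calc 4 * Real.exp (-(b / 16)) * (2 + |v|) ^ (A + 2) * L ^ 2
          ≤ 4 * Real.exp (-(b / 16)) * (3 ^ (A + 2) * Real.exp (b / 32)) * L ^ 2 := by gcongr
        _ = (Real.exp (b / 32) * Real.exp (-(b / 32))) *
            (4 * 3 ^ (A + 2) * L ^ 2 * Real.exp (-(b / 32))) := by rw [e2]; ring
        _ = 4 * 3 ^ (A + 2) * L ^ 2 * Real.exp (-(b / 32)) := by rw [e3, one_mul]
        _ ≤ 1 / 4 := by
            have : 16 * 3 ^ (A + 2) * L ^ 2 * Real.exp (-(b / 32)) ≤ 1 := z4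
            linarith
    have hF2 : ‖FF r χ (pt r b v)‖ ≤ 1 / 2 := by
      by_contra hcon
      rw [not_le] at hcon
      nlinarith
    have hLM : 1 / 2 ≤ ‖χ.LFunction (pt r b v) * MM r χ (pt r b v)‖ := by
      have e1 : χ.LFunction (pt r b v) * MM r χ (pt r b v) = 1 + FF r χ (pt r b v) := by
        unfold FF; ring
      rw [e1]
      have := norm_sub_norm_le (1 : ℂ) (-FF r χ (pt r b v))
      rw [norm_one, norm_neg, sub_neg_eq_add] at this
      linarith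
    have hLM0 : χ.LFunction (pt r b v) * MM r χ (pt r b v) ≠ 0 := by
      intro h0
      rw [h0, norm_zero] at hLM
      norm_num at hLM
    have hLn : χ.LFunction (pt r b v) ≠ 0 := left_ne_zero_of_mul hLM0
    have hMn : MM r χ (pt r b v) ≠ 0 := right_ne_zero_of_mul hLM0
    rw [hpt]
    refine ⟨hLn, ?_⟩
    have e1 : deriv χ.LFunction (pt r b v) / χ.LFunction (pt r b v) =
        DF r χ (pt r b v) / (χ.LFunction (pt r b v) * MM r χ (pt r b v)) := by
      unfold DF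
      field_simp
    have e2 : ‖deriv χ.LFunction (pt r b v) / χ.LFunction (pt r b v)‖ ≤ 2 * ‖DF r χ (pt r b v)‖ := by
      rw [e1, norm_div, div_le_iff₀ (by linarith)]
      nlinarith [norm_nonneg (DF r χ (pt r b v))]
    refine e2.trans ?_
    have hv0 : 0 ≤ |v| := abs_nonneg v
    have e3 : (2 * ‖DF r χ (pt r b v)‖) ^ 2 ≤ (L ^ (7 / 10 : ℝ) * (1 + |v|) ^ (A + 2)) ^ 2 := by
      have e4 : (2 + |v|) ^ (A + 2) ≤ 2 ^ (A + 2) * (1 + |v|) ^ (A + 2) := by
        rw [← mul_pow]; gcongr; linarith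
      have e5 : L ^ (13 / 10 : ℝ) * (L ^ (1 / 20 : ℝ)) ^ 2 = (L ^ (7 / 10 : ℝ)) ^ 2 := by
        rw [← Real.rpow_natCast (L ^ (1 / 20 : ℝ)) 2, ← Real.rpow_natCast (L ^ (7 / 10 : ℝ)) 2,
          ← Real.rpow_mul hL0.le, ← Real.rpow_mul hL0.le, ← Real.rpow_add hL0]
        norm_num
      have e6 : (1 : ℝ) ≤ (1 + |v|) ^ (A + 2) := one_le_pow₀ (by linarith)
      have e7 : (1 : ℝ) ≤ 2 ^ (A + 2) := one_le_pow₀ (by norm_num)
      have e8 : (4 * 2 ^ (A + 2)) ^ 2 ≤ (L ^ (1 / 20 : ℝ)) ^ 2 := by gcongr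
      calc (2 * ‖DF r χ (pt r b v)‖) ^ 2 = 4 * ‖DF r χ (pt r b v)‖ ^ 2 := by ring
        _ ≤ 4 * (3 * (2 ^ (A + 2) * (1 + |v|) ^ (A + 2)) * L ^ (13 / 10 : ℝ)) := by
            have : 0 < L ^ (13 / 10 : ℝ) := by positivity
            refine mul_le_mul_of_nonneg_left (h2.trans ?_) (by norm_num)
            gcongr
        _ = 12 * 2 ^ (A + 2) * (1 + |v|) ^ (A + 2) * L ^ (13 / 10 : ℝ) := by ring
        _ ≤ (4 * 2 ^ (A + 2)) ^ 2 * ((1 + |v|) ^ (A + 2)) ^ 2 * L ^ (13 / 10 : ℝ) := by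
            have h12 : 12 * 2 ^ (A + 2) ≤ ((4 : ℝ) * 2 ^ (A + 2)) ^ 2 := by nlinarith
            have hpp : (1 + |v|) ^ (A + 2) ≤ ((1 + |v|) ^ (A + 2)) ^ 2 := by nlinarith
            gcongr
        _ ≤ (L ^ (1 / 20 : ℝ)) ^ 2 * ((1 + |v|) ^ (A + 2)) ^ 2 * L ^ (13 / 10 : ℝ) := by gcongr
        _ = (L ^ (13 / 10 : ℝ) * (L ^ (1 / 20 : ℝ)) ^ 2) * ((1 + |v|) ^ (A + 2)) ^ 2 := by ring
        _ = (L ^ (7 / 10 : ℝ) * (1 + |v|) ^ (A + 2)) ^ 2 := by rw [e5, mul_pow]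
    exact (pow_le_pow_iff_left₀ (by positivity) (by positivity) (by norm_num)).1 e3

end Pool.Agent.SK
end
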