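import Mathlib
import Pool.Agent.Lib.MP_9cfc0a_nt.Mg.G012
import Pool.Agent.Lib.MP_9cfc0a_nt.Mg.G011
import Pool.Agent.Lib.MP_9cfc0a_nt.Mg.G010
import Pool.Agent.Lib.MP_9cfc0a_nt.Mg.G009
import Pool.Agent.Lib.MP_9cfc0a_nt.TS.Fb
import Pool.Agent.Lib.MP_9cfc0a_nt.Mg.G077
import Pool.Agent.Lib.MP_9cfc0a_nt.Mg.G017

section

set_option autoImplicit false

namespace Pool.Agent.SK

open Complex MeasureTheory
open Pool.Agent.SO (prim NN)

/-- C6b. The lower bound from the key lemma. PROOF. `S = (Z χ T).filter (|Im w - u| ≤ h + η)`, `c w = mu χ w * FI W (u-h) (u+h) w`,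
`G t = Gu χ T W (u-h) (u+h) t` (continuous: a finite sum of exponentials), `s = N exp(-W²η²/2 + δ₀ Y)`. `key Y s` with
`out_band` (for `|t| ≤ Y`) and `Gu_neg` (`‖G (-t)‖ = ‖G t‖`). `S.card ≤ n := ∑_{w ∈ S} mu χ w` (`one_le_mu`, `mem_Z`).
`trace_lower` and `band_count` (`δ₀ ≤ δ₀ W ≤ δ₀ W²`; `exp(-W²η²/2) ≤ exp(-W²η²/2 + δ₀ Y)`, so all small terms are at most
`s` and `s ≤ 1`, `s L ≤ 1`): `2 Re ∑ - n (1 + 2 s) ≥ (h/π) L - (2η/π) L - 6 p - 3 C₀ - 8 - 2 s n₁` with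
`n₁ = (h+2η)/π L + 2p + C₀ + 4 ≤ 3 L + C₀ + 4` and `2 s n₁ ≤ 6 + 2 C₀ + 8`. `2/π ≤ 1`. (`L = log r`.) -/
theorem G_lower (r : ℕ) [NeZero r] (hr : 3 ≤ r) (χ : DirichletCharacter ℂ r) (hχ : χ ∈ prim r)
    (T W C₀ Y₀ T₁ u h η δ₀ N Y p : ℝ) (hW : 1 ≤ W) (hY : 0 < Y) (hYY : Y ≤ Y₀) (hh : 0 ≤ h) (hh1 : h ≤ 1)
    (hη : 0 ≤ η) (hη1 : η ≤ 1) (hδ0 : 0 ≤ δ₀) (hδ : ∀ w ∈ Z χ T, |w.re| ≤ δ₀) (hWδ : W ^ 2 * δ₀ ≤ 1)
    (hN : ∑ w ∈ Z χ T, mu χ w ≤ N) (hEF : EFp χ T W C₀ Y₀ T₁) (hC₀ : 0 ≤ C₀) (hu : |u| + h + 2 * η ≤ T₁)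
    (hp1 : ‖PU χ W (u - h) (u + h) 0‖ ≤ p) (hp2 : ‖PU χ W (u - h - 2 * η) (u + h + 2 * η) 0‖ ≤ p)
    (hp3 : p ≤ Real.log r)
    (hs1 : Real.log r * N * Real.exp (-(W ^ 2 * η ^ 2 / 2) + δ₀ * Y) ≤ 1)
    (hs2 : N * Real.exp (-(W ^ 2 / 2)) ≤ 1) :
    Y / 2 * (h / Real.pi * Real.log r - η * Real.log r - 6 * p - 10 * C₀ - 40) ≤
      ∫ t in (0 : ℝ)..Y, (1 - t / Y) * ‖Gu χ T W (u - h) (u + h) t‖ ^ 2 := by
  have hW0 : 0 < W := by linarith
  have hW2 : W ≤ W ^ 2 := by nlinarith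
  set L : ℝ := Real.log r with hL
  have hL1 : 1 ≤ L := by
    rw [hL, Real.le_log_iff_exp_le (by positivity)]
    have : (3 : ℝ) ≤ r := by exact_mod_cast hr
    linarith [Real.exp_one_lt_d9]
  have hmu : ∀ w, 0 ≤ mu χ w := fun w => mu_nonneg r χ w
  have hN0 : 0 ≤ N := (Finset.sum_nonneg fun w _ => hmu w).trans hN
  have hWδ1 : W * δ₀ ≤ 1 := (mul_le_mul_of_nonneg_right hW2 hδ0).trans hWδ
  have hδY : 0 ≤ δ₀ * Y := by positivity
  set E : ℝ := Real.exp (-(W ^ 2 * η ^ 2 / 2) + δ₀ * Y) with hE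
  have hE0 : 0 < E := Real.exp_pos _
  have heE : Real.exp (-(W ^ 2 * η ^ 2 / 2)) ≤ E := by
    apply Real.exp_le_exp.mpr
    linarith
  set s : ℝ := N * E with hs
  have hs0 : 0 ≤ s := by positivity
  have hNe : N * Real.exp (-(W ^ 2 * η ^ 2 / 2)) ≤ s := mul_le_mul_of_nonneg_left heE hN0
  have hsL : s * L ≤ 1 := by
    calc s * L = L * N * E := by rw [hs]; ring
      _ ≤ 1 := hs1
  have hs1' : s ≤ 1 := by nlinarith
  set S := (Z χ T).filter (fun w => |w.im - u| ≤ h + η) with hS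
  set c : ℂ → ℂ := fun w => (mu χ w : ℂ) * FI W (u - h) (u + h) w with hc
  have hGc : Continuous fun t : ℝ => Gu χ T W (u - h) (u + h) t := by
    unfold Gu
    fun_prop
  have hkey := key Y s hY S c (fun t => Gu χ T W (u - h) (u + h) t) hGc (fun t ht =>
      out_band r χ T W u h η δ₀ N Y hW hh hη hδ hWδ1 hN t ht) (fun t _ _ => by
      rw [Gu_neg r (by omega) χ hχ]
      exact RCLike.norm_conj _)
  refine le_trans (mul_le_mul_of_nonneg_left ?_ (by positivity)) hkey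
  have hcard : (S.card : ℝ) ≤ ∑ w ∈ S, mu χ w := by
    calc (S.card : ℝ) = ∑ _w ∈ S, (1 : ℝ) := by simp
      _ ≤ ∑ w ∈ S, mu χ w := by
          refine Finset.sum_le_sum fun w hw => ?_
          rw [hS, Finset.mem_filter] at hw
          exact one_le_mu r (by omega) χ hχ w ((mem_Z r (by omega) χ hχ T w).mp hw.1).1
  have hY0 : 0 ≤ Y₀ := by linarith
  have hn := band_count r χ T W C₀ Y₀ T₁ u h η δ₀ N hW hY0 hh hη hδ hWδ hN hEF hu
  rw [← hS, ← hL] at hn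
  have htr := trace_lower r χ T W C₀ Y₀ T₁ u h η δ₀ N hW hY0 hh hη hδ hWδ1 hN hEF (by linarith)
  rw [← hS, ← hL] at htr
  change _ ≤ (∑ w ∈ S, c w).re at htr
  set R : ℝ := (∑ w ∈ S, c w).re with hR
  set n : ℝ := ∑ w ∈ S, mu χ w with hndef
  have hpi := Real.pi_gt_three
  have hp0 : 0 ≤ p := (norm_nonneg _).trans hp1
  have hn1 : n ≤ (h + 2 * η) / Real.pi * L + 2 * p + C₀ + 4 := by linarith
  have hq : (h + 2 * η) / Real.pi ≤ 1 := by
    rw [div_le_one (by linarith)]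
    linarith
  have hq2 : (h + 2 * η) / Real.pi * L ≤ L := by nlinarith
  have hn2 : n ≤ 3 * L + C₀ + 4 := by linarith
  have hsn : s * n ≤ 7 + C₀ := by
    calc s * n ≤ s * (3 * L + C₀ + 4) := mul_le_mul_of_nonneg_left hn2 hs0
      _ = 3 * (s * L) + s * C₀ + 4 * s := by ring
      _ ≤ 3 * 1 + 1 * C₀ + 4 * 1 := by gcongr
      _ = 7 + C₀ := by ring
  have hcs : (S.card : ℝ) * (1 + 2 * s) ≤ n * (1 + 2 * s) :=
    mul_le_mul_of_nonneg_right hcard (by linarith)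
  have h2η : 2 * η / Real.pi * L ≤ η * L := by
    have : 2 * η / Real.pi ≤ η := by
      rw [div_le_iff₀ (by linarith)]
      nlinarith
    nlinarith
  have hsum : (h + 2 * η) / Real.pi * L = h / Real.pi * L + 2 * η / Real.pi * L := by ring
  nlinarith

end Pool.Agent.SK
end

section

set_option autoImplicit false

namespace Pool.Agent.SK

open Complex MeasureTheory
open Pool.Agent.SO (prim NN)

theorem gk_bound (W R x t v : ℝ) (hW : 0 < W) (hx : |x| ≤ R) :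
    ‖gk W x (t - v)‖ ≤ ((1 / 2 + R + 4 / W) * Real.exp (3 * t / 2 + 9 * W ^ 2 / 4)) *
      Real.exp (-(3 / 2) * v) := by
  have hR : 0 ≤ R := (abs_nonneg x).trans hx
  set s : ℝ := t - v with hs
  unfold gk
  rw [norm_mul, Complex.norm_exp]
  have e1 : ((x : ℂ) * s * I - ((s ^ 2 / (2 * W ^ 2) : ℝ) : ℂ)).re = -(s ^ 2 / (2 * W ^ 2)) := by
    rw [Complex.sub_re, Complex.ofReal_re]
    simp
  rw [e1]
  have hWs : W * W = W ^ 2 := by ring
  set u : ℝ := |s| / W with hu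
  have hu0 : 0 ≤ u := by positivity
  have hu2 : u ^ 2 = s ^ 2 / W ^ 2 := by
    rw [hu, div_pow, sq_abs]
  have h1 : ‖(1 / 2 + (x : ℂ) * I - ((s / W ^ 2 : ℝ) : ℂ))‖ ≤ 1 / 2 + R + u / W := by
    refine (norm_sub_le _ _).trans (add_le_add ((norm_add_le _ _).trans (add_le_add ?_ ?_)) ?_)
    · simp
    · rw [norm_mul, Complex.norm_I, mul_one, Complex.norm_real]
      exact hx
    · rw [Complex.norm_real, Real.norm_eq_abs, abs_div, abs_of_pos (by positivity : (0 : ℝ) < W ^ 2), hu]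
      rw [div_div, hWs]
  have h2 : Real.exp (-(s ^ 2 / (2 * W ^ 2))) = Real.exp (-(u ^ 2 / 4)) * Real.exp (-(u ^ 2 / 4)) := by
    rw [← Real.exp_add, hu2]
    congr 1
    field_simp
    ring
  have h3 : (1 / 2 + R + u / W) * Real.exp (-(u ^ 2 / 4)) ≤ 1 / 2 + R + 4 / W := by
    have h4 : u * Real.exp (-(u ^ 2 / 4)) ≤ 4 := by
      have h5 := Real.add_one_le_exp (u ^ 2 / 4)
      have h6 : Real.exp (-(u ^ 2 / 4)) * Real.exp (u ^ 2 / 4) = 1 := by
        rw [← Real.exp_add, neg_add_cancel, Real.exp_zero]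
      have h7 : u ≤ 4 * Real.exp (u ^ 2 / 4) := by nlinarith [sq_nonneg (u - 2)]
      calc u * Real.exp (-(u ^ 2 / 4)) ≤ (4 * Real.exp (u ^ 2 / 4)) * Real.exp (-(u ^ 2 / 4)) := by
            gcongr
        _ = 4 := by linear_combination 4 * h6
    have h8 : Real.exp (-(u ^ 2 / 4)) ≤ 1 := by
      rw [Real.exp_le_one_iff]
      have := sq_nonneg u
      linarith
    calc (1 / 2 + R + u / W) * Real.exp (-(u ^ 2 / 4))
        = (1 / 2 + R) * Real.exp (-(u ^ 2 / 4)) + (u * Real.exp (-(u ^ 2 / 4))) / W := by ring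
      _ ≤ (1 / 2 + R) * 1 + 4 / W := by gcongr
      _ = _ := by ring
  have h9 : Real.exp (-(u ^ 2 / 4)) ≤ Real.exp (3 * t / 2 + 9 * W ^ 2 / 4) * Real.exp (-(3 / 2) * v) := by
    rw [← Real.exp_add]
    apply Real.exp_le_exp.mpr
    have h10 : 3 / 2 * (-s) ≤ u ^ 2 / 4 + 9 * W ^ 2 / 4 := by
      have h11 : -s ≤ |s| := neg_le_abs s
      have h12 : |s| = u * W := by
        rw [hu]
        field_simp
      rw [h12] at h11
      nlinarith [sq_nonneg (u - 3 * W)]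
    have h13 : -s = v - t := by
      rw [hs]
      ring
    rw [h13] at h10
    linarith
  calc ‖(1 / 2 + (x : ℂ) * I - ((s / W ^ 2 : ℝ) : ℂ))‖ * Real.exp (-(s ^ 2 / (2 * W ^ 2)))
      ≤ (1 / 2 + R + u / W) * (Real.exp (-(u ^ 2 / 4)) * Real.exp (-(u ^ 2 / 4))) := by
        rw [h2]
        gcongr
    _ = ((1 / 2 + R + u / W) * Real.exp (-(u ^ 2 / 4))) * Real.exp (-(u ^ 2 / 4)) := by ring
    _ ≤ (1 / 2 + R + 4 / W) * (Real.exp (3 * t / 2 + 9 * W ^ 2 / 4) * Real.exp (-(3 / 2) * v)) := by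
        gcongr
    _ = _ := by ring

/-- C1a. -/
theorem PX_dominated (q : ℕ) (χ : DirichletCharacter ℂ q) (W B : ℝ) (hW : 0 < W) (hB : 0 ≤ B) :
    ∃ g : ℝ → ℝ, IntegrableOn g (Set.Ioi 0) ∧ ∀ x t : ℝ, |x| ≤ B → |t| ≤ B → ∀ v : ℝ, 0 < v →
      ‖ff χ v * gk W x (t - v)‖ ≤ g v := by
  refine ⟨fun v => 6 * ((1 / 2 + B + 4 / W) * Real.exp (3 * B / 2 + 9 * W ^ 2 / 4)) * Real.exp (-1 * v),
    (exp_neg_integrableOn_Ioi 0 one_pos).const_mul _, ?_⟩
  intro x t hx ht v _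
  rw [norm_mul]
  have ht' : t ≤ B := (le_abs_self t).trans ht
  have h1 : Real.exp (3 * t / 2 + 9 * W ^ 2 / 4) ≤ Real.exp (3 * B / 2 + 9 * W ^ 2 / 4) :=
    Real.exp_le_exp.mpr (by linarith)
  have h2 : ‖gk W x (t - v)‖ ≤ ((1 / 2 + B + 4 / W) * Real.exp (3 * B / 2 + 9 * W ^ 2 / 4)) *
      Real.exp (-(3 / 2) * v) := by
    refine (gk_bound W B x t v hW hx).trans ?_
    gcongr
  calc ‖ff χ v‖ * ‖gk W x (t - v)‖ ≤ (6 * Real.exp (v / 2)) *
        (((1 / 2 + B + 4 / W) * Real.exp (3 * B / 2 + 9 * W ^ 2 / 4)) * Real.exp (-(3 / 2) * v)) :=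
        mul_le_mul (ff_norm χ v) h2 (norm_nonneg _) (by positivity)
    _ = 6 * ((1 / 2 + B + 4 / W) * Real.exp (3 * B / 2 + 9 * W ^ 2 / 4)) *
        (Real.exp (v / 2) * Real.exp (-(3 / 2) * v)) := by ring
    _ = _ := by
        rw [← Real.exp_add]
        congr 2
        ring

/-- C1b. -/
theorem PX_continuous (q : ℕ) (χ : DirichletCharacter ℂ q) (W : ℝ) (hW : 0 < W) :
    Continuous (fun p : ℝ × ℝ => PX χ W p.1 p.2) := by
  rw [continuous_iff_continuousAt]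
  intro p
  set B : ℝ := ‖p‖ + 1 with hB
  have hB0 : 0 ≤ B := by positivity
  obtain ⟨g, hg, hbd⟩ := PX_dominated q χ W B hW hB0
  have hnear : ∀ᶠ p' : ℝ × ℝ in nhds p, ‖p'‖ ≤ B := by
    filter_upwards [Metric.ball_mem_nhds p one_pos] with p' hp'
    rw [Metric.mem_ball, dist_eq_norm] at hp'
    have : ‖p'‖ ≤ ‖p‖ + ‖p' - p‖ := by
      calc ‖p'‖ = ‖p + (p' - p)‖ := by rw [add_sub_cancel]
        _ ≤ _ := norm_add_le _ _
    linarith
  have hmeas : ∀ p' : ℝ × ℝ, AEStronglyMeasurable (fun v => ff χ v * gk W p'.1 (p'.2 - v))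
      (volume.restrict (Set.Ioi (0 : ℝ))) := by
    intro p'
    refine Measurable.aestronglyMeasurable ?_
    refine (ff_measurable χ).mul ?_
    unfold gk
    fun_prop
  unfold PX
  refine MeasureTheory.continuousAt_of_dominated (bound := g) ?_ ?_ hg ?_
  · exact Filter.Eventually.of_forall hmeas
  · filter_upwards [hnear] with p' hp'
    refine (ae_restrict_iff' measurableSet_Ioi).mpr (Filter.Eventually.of_forall fun v hv => ?_)
    refine hbd p'.1 p'.2 ?_ ?_ v hv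
    · exact (norm_fst_le p').trans hp'
    · exact (norm_snd_le p').trans hp'
  · refine Filter.Eventually.of_forall fun v => ?_
    refine Continuous.continuousAt ?_
    unfold gk
    fun_prop

end Pool.Agent.SK
end

section

set_option autoImplicit false

namespace Pool.Agent.SK

open Complex MeasureTheory
open Pool.Agent.SO (prim NN)

theorem Z4_log (r : ℕ) (hr : 4 ≤ r) : Real.log r + 2 ≤ r := by
  have hr4 : (4 : ℝ) ≤ r := by exact_mod_cast hr
  have hs : 0 < Real.sqrt r := Real.sqrt_pos.mpr (by linarith)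
  have h1 : Real.log r = 2 * Real.log (Real.sqrt r) := by
    rw [Real.log_sqrt (by linarith)]
    ring
  have h2 := Real.log_le_sub_one_of_pos hs
  have h3 : Real.sqrt r * Real.sqrt r = r := Real.mul_self_sqrt (by linarith)
  have h4 : 2 ≤ Real.sqrt r := by
    rw [Real.le_sqrt' (by norm_num)]
    linarith
  nlinarith

/-- the zeros to the right -/
theorem Z4_right (C₁ X₁ : ℝ) (hC₁ : 1 ≤ C₁) (hbox : ∀ (q : ℕ) [NeZero q] (X : ℝ), (q : ℝ) ≤ X →
    X₁ ≤ X → ∀ (χ : DirichletCharacter ℂ q) (t : ℝ), |t| ≤ X ^ 1 + 1 → ∀ S : Finset ℂ,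
    (∀ ρ ∈ S, MC.FF q χ ρ = 0 ∧ 1 / 2 ≤ ρ.re ∧ |ρ.im - t| ≤ 1 / 2) →
    ∑ ρ ∈ S, TS.mu χ ρ ≤ C₁ * Real.log X) (r : ℕ) [NeZero r] (hr4 : 4 ≤ r) (hX : X₁ ≤ r)
    (χ : DirichletCharacter ℂ r) (hχ : χ ∈ prim r) :
    ∑ w ∈ (Z χ (Real.log r + 2)).filter (fun w => 0 ≤ w.re), mu χ w ≤
      (2 * Real.log r + 6) * (C₁ * Real.log r) := by
  classical
  obtain ⟨hp, hne⟩ := prim_spec r (by omega) χ hχ
  set L : ℝ := Real.log r with hL
  have hL0 : 0 ≤ L := Real.log_natCast_nonneg r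
  have hLr : L + 2 ≤ r := Z4_log r hr4
  set S₀ := (Z χ (L + 2)).filter (fun w => 0 ≤ w.re) with hS₀
  set S := S₀.image (fun w : ℂ => 1 / 2 + w) with hS
  have hmemS₀ : ∀ w ∈ S₀, Lam χ w = 0 ∧ |w.im| ≤ L + 2 ∧ 0 ≤ w.re := by
    intro w hw
    rw [hS₀, Finset.mem_filter, mem_Z r (by omega) χ hχ] at hw
    exact ⟨hw.1.1, hw.1.2, hw.2⟩
  have e : ∑ w ∈ S₀, mu χ w = ∑ ρ ∈ S, TS.mu χ ρ := by
    rw [hS, Finset.sum_image (fun a _ b _ hab => add_left_cancel hab)]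
    refine Finset.sum_congr rfl fun w hw => ?_
    exact mu_eq r (by omega) χ hχ w (by linarith [(hmemS₀ w hw).2.2])
  have hSprop : ∀ ρ ∈ S, MC.FF r χ ρ = 0 ∧ 1 / 2 ≤ ρ.re ∧ |ρ.im| ≤ L + 2 := by
    intro ρ hρ
    rw [hS, Finset.mem_image] at hρ
    obtain ⟨w, hw, rfl⟩ := hρ
    obtain ⟨h0, h1, h2⟩ := hmemS₀ w hw
    have hre : (1 / 2 + w).re = 1 / 2 + w.re := by simp
    have him : (1 / 2 + w).im = w.im := by simp
    have hpos : 0 < (1 / 2 + w).re := by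
      rw [hre]
      linarith
    refine ⟨?_, by rw [hre]; linarith, by rw [him]; exact h1⟩
    rw [MC.FF_of_ne r χ hne]
    unfold Lam at h0
    rw [EM.U5_comp hne hpos] at h0
    exact (mul_eq_zero.mp h0).resolve_left (EM.U5_gamma_ne χ hpos)
  rw [e]
  have hfib : ∑ ρ ∈ S, TS.mu χ ρ =
      ∑ n ∈ S.image (fun ρ : ℂ => ⌊ρ.im⌋), ∑ ρ ∈ S with ⌊ρ.im⌋ = n, TS.mu χ ρ :=
    (Finset.sum_fiberwise_of_maps_to (fun ρ hρ => Finset.mem_image_of_mem _ hρ) _).symm
  rw [hfib]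
  have hterm : ∀ n ∈ S.image (fun ρ : ℂ => ⌊ρ.im⌋),
      ∑ ρ ∈ S with ⌊ρ.im⌋ = n, TS.mu χ ρ ≤ C₁ * L := by
    intro n hn
    obtain ⟨ρ₀, hρ₀, hρn⟩ := Finset.mem_image.1 hn
    refine hbox r r le_rfl hX χ ((n : ℝ) + 1 / 2) ?_ _ ?_
    · have h5 := (hSprop ρ₀ hρ₀).2.2
      have h6 := Int.floor_le ρ₀.im
      have h7 := Int.lt_floor_add_one ρ₀.im
      rw [hρn] at h6 h7
      rw [pow_one]
      rw [abs_le] at h5 ⊢
      constructor <;> linarith
    · intro ρ hρ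
      have h2 := (Finset.mem_filter.1 hρ).2
      have hρS := (Finset.mem_filter.1 hρ).1
      refine ⟨(hSprop ρ hρS).1, (hSprop ρ hρS).2.1, ?_⟩
      have h6 := Int.floor_le ρ.im
      have h7 := Int.lt_floor_add_one ρ.im
      rw [h2] at h6 h7
      rw [abs_le]
      constructor <;> linarith
  have hcard : ((S.image (fun ρ : ℂ => ⌊ρ.im⌋)).card : ℝ) ≤ 2 * L + 6 := by
    have hsub : S.image (fun ρ : ℂ => ⌊ρ.im⌋) ⊆ Finset.Icc ⌊-(L + 2)⌋ ⌊L + 2⌋ := by
      intro n hn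
      obtain ⟨ρ, hρ, rfl⟩ := Finset.mem_image.1 hn
      have h5 := abs_le.mp (hSprop ρ hρ).2.2
      rw [Finset.mem_Icc]
      exact ⟨Int.floor_le_floor h5.1, Int.floor_le_floor h5.2⟩
    have h8 := Finset.card_le_card hsub
    rw [Int.card_Icc] at h8
    have h9 : ((⌊L + 2⌋ + 1 - ⌊-(L + 2)⌋).toNat : ℝ) ≤ 2 * L + 6 := by
      have h10 : 0 ≤ ⌊L + 2⌋ + 1 - ⌊-(L + 2)⌋ := by
        have : ⌊-(L + 2)⌋ ≤ ⌊L + 2⌋ := Int.floor_le_floor (by linarith)
        omega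
      have h11 : (((⌊L + 2⌋ + 1 - ⌊-(L + 2)⌋).toNat : ℤ) : ℝ) = ((⌊L + 2⌋ + 1 - ⌊-(L + 2)⌋ : ℤ) : ℝ) := by
        rw [Int.toNat_of_nonneg h10]
      have h12 : (((⌊L + 2⌋ + 1 - ⌊-(L + 2)⌋).toNat : ℤ) : ℝ) = ((⌊L + 2⌋ + 1 - ⌊-(L + 2)⌋).toNat : ℝ) := by
        norm_cast
      rw [← h12, h11]
      push_cast
      have h13 := Int.floor_le (L + 2)
      have h14 := Int.lt_floor_add_one (-(L + 2))
      linarith
    calc ((S.image (fun ρ : ℂ => ⌊ρ.im⌋)).card : ℝ) ≤ ((⌊L + 2⌋ + 1 - ⌊-(L + 2)⌋).toNat : ℝ) := by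
          exact_mod_cast h8
      _ ≤ _ := h9
  calc ∑ n ∈ S.image (fun ρ : ℂ => ⌊ρ.im⌋), ∑ ρ ∈ S with ⌊ρ.im⌋ = n, TS.mu χ ρ
      ≤ ∑ _n ∈ S.image (fun ρ : ℂ => ⌊ρ.im⌋), C₁ * L := Finset.sum_le_sum hterm
    _ = ((S.image (fun ρ : ℂ => ⌊ρ.im⌋)).card : ℝ) * (C₁ * L) := by
        rw [Finset.sum_const, nsmul_eq_mul]
    _ ≤ (2 * L + 6) * (C₁ * L) := by gcongr

/-- Z4. The number of zeros up to height `log r + 2`, with multiplicities.
PROOF. `L = log r`. Let `S₀ = (Z χ (L+2)).filter (0 ≤ Re)`, `S₁ = (Z χ (L+2)).filter (Re < 0)`. The map `w ↦ -conj w` maps `S₁`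
injectively into `S₀` and preserves `mu` (`mu_symm`, `Lam_zero_symm`, `mem_Z`), so `∑_{S₁} mu ≤ ∑_{S₀} mu`
(`mu_nonneg`). For `w ∈ S₀`, `ρ = 1/2 + w` has `Re ρ ≥ 1/2` and `mu χ w = TS.mu χ ρ` (`mu_eq`). Cover `|Im| ≤ L + 2` by the
windows `|Im ρ - t| ≤ 1/2`, `t = k ∈ ℤ`, `|k| ≤ L + 3` (round `Im ρ` to the nearest integer: fibres of
`w ↦ round (Im w)`, `Finset.sum_fiberwise_of_maps_to`); each window gives at most `C₁ log r` (`TS.box_count 1` with
`X = r`, for `r ≥ X₁`, `|k| ≤ L + 3 ≤ r + 1`... choose `r` large so that `log r + 3 ≤ r + 1`; the zeros of the window form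
the image finset `S = (fibre).image (1/2 + ·)`, `MC.FF_of_ne`, `L(ρ) = 0` from `EM.U5_comp`, `EM.U5_gamma_ne`). There are at most
`2 L + 7` integers. Total `2 (2L + 7) C₁ L ≤ C L²` (`L ≥ 1`). -/
theorem Z_count : ∃ C : ℝ, 1 ≤ C ∧ ∃ r₀ : ℕ, 3 ≤ r₀ ∧ ∀ (r : ℕ) [NeZero r], r₀ ≤ r →
    ∀ χ ∈ prim r, ∑ w ∈ Z χ (Real.log r + 2), mu χ w ≤ C * Real.log r ^ 2 := by
  classical
  obtain ⟨C₁, X₁, hC₁, hbox⟩ := TS.box_count 1
  refine ⟨16 * C₁, by linarith, max 4 ⌈X₁⌉₊, (by norm_num : 3 ≤ 4).trans (le_max_left _ _), ?_⟩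
  intro r _ hr χ hχ
  have hr4 : 4 ≤ r := (le_max_left _ _).trans hr
  have hX : X₁ ≤ r := by
    have h1 : ⌈X₁⌉₊ ≤ r := (le_max_right _ _).trans hr
    exact (Nat.le_ceil X₁).trans (by exact_mod_cast h1)
  obtain ⟨hp, hne⟩ := prim_spec r (by omega) χ hχ
  have hR := Z4_right C₁ X₁ hC₁ hbox r hr4 hX χ hχ
  set L : ℝ := Real.log r with hL
  have hL1 : 1 ≤ L := by
    have : (4 : ℝ) ≤ r := by exact_mod_cast hr4
    rw [hL, Real.le_log_iff_exp_le (by linarith)]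
    linarith [Real.exp_one_lt_d9]
  have hmu : ∀ w, 0 ≤ mu χ w := fun w => mu_nonneg r χ w
  have hinj : Function.Injective fun w : ℂ => -(starRingEnd ℂ) w := by
    intro a b hab
    have h1 : (starRingEnd ℂ) a = (starRingEnd ℂ) b := neg_injective hab
    exact (starRingEnd ℂ).injective h1
  have hleft : ∑ w ∈ (Z χ (L + 2)).filter (fun w => ¬ 0 ≤ w.re), mu χ w ≤
      ∑ w ∈ (Z χ (L + 2)).filter (fun w => 0 ≤ w.re), mu χ w := by
    calc ∑ w ∈ (Z χ (L + 2)).filter (fun w => ¬ 0 ≤ w.re), mu χ w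
        = ∑ w ∈ (Z χ (L + 2)).filter (fun w => ¬ 0 ≤ w.re), mu χ (-(starRingEnd ℂ) w) :=
          Finset.sum_congr rfl fun w _ => (mu_symm r (by omega) χ hχ w).symm
      _ = ∑ w ∈ ((Z χ (L + 2)).filter (fun w => ¬ 0 ≤ w.re)).image (fun w : ℂ => -(starRingEnd ℂ) w),
            mu χ w := by
          rw [Finset.sum_image (fun a _ b _ hab => hinj hab)]
      _ ≤ _ := by
          refine Finset.sum_le_sum_of_subset_of_nonneg ?_ fun w _ _ => hmu w
          intro z hz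
          obtain ⟨w, hw, rfl⟩ := Finset.mem_image.1 hz
          rw [Finset.mem_filter, mem_Z r (by omega) χ hχ] at hw ⊢
          obtain ⟨⟨h0, h1⟩, h2⟩ := hw
          refine ⟨⟨(Lam_zero_symm (by omega) χ hp w).mpr h0, ?_⟩, ?_⟩
          · simpa using h1
          · have h3 : (-(starRingEnd ℂ) w).re = -w.re := by simp
            rw [h3]
            push Not at h2
            linarith
  have hsplit : ∑ w ∈ Z χ (L + 2), mu χ w =
      ∑ w ∈ (Z χ (L + 2)).filter (fun w => 0 ≤ w.re), mu χ w +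
        ∑ w ∈ (Z χ (L + 2)).filter (fun w => ¬ 0 ≤ w.re), mu χ w :=
    (Finset.sum_filter_add_sum_filter_not _ _ _).symm
  rw [hsplit]
  have hCL : 0 ≤ C₁ * L := by positivity
  have h6 : (2 * L + 6) * (C₁ * L) ≤ 8 * L * (C₁ * L) := by
    gcongr
    linarith
  calc _ ≤ (2 * L + 6) * (C₁ * L) + (2 * L + 6) * (C₁ * L) := add_le_add hR (hleft.trans hR)
    _ ≤ 8 * L * (C₁ * L) + 8 * L * (C₁ * L) := add_le_add h6 h6
    _ = 16 * C₁ * L ^ 2 := by ring

end Pool.Agent.SK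
end

section

/-! A good height: the horizontal sides of the rectangle. -/

set_option autoImplicit false

namespace Pool.Agent.SK

open Complex MeasureTheory Pool.Agent.EM Pool.Agent.SO Set Metric
open scoped ComplexConjugate

/-- Local bound of the logarithmic derivative away from the zeros. -/
theorem local_ld (f : ℂ → ℂ) (c : ℂ) (T : ℝ) (hT : 1 ≤ T)
    (hf : AnalyticOnNhd ℂ f (closedBall c (39 / 20)))
    (hb : ∀ z ∈ closedBall c (39 / 20), ‖f z‖ ≤ Real.exp T) (hc : Real.exp (-T) ≤ ‖f c‖) :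
    ∃ (n : ℕ) (ρ : Fin n → ℂ), (n : ℝ) ≤ 20 * T ∧
      ∀ s : ℂ, dist s c ≤ 13 / 8 → ∀ d : ℝ, 0 < d → (∀ j, d ≤ ‖s - ρ j‖) →
        f s ≠ 0 ∧ ‖logDeriv f s‖ ≤ n / d + 53760 * T := by
  have hfc : f c ≠ 0 := by
    intro h
    rw [h, norm_zero] at hc
    linarith [Real.exp_pos (-T)]
  obtain ⟨n, ρ, g, hg, hfg, hρ, hg0⟩ := factor_zeros f c (7 / 4) (39 / 20) (by norm_num)
    (by norm_num) hf hfc
  obtain ⟨hn, hgb⟩ := count_bound n f g ρ c T (by linarith) hg hfg hρ hb hc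
  refine ⟨n, ρ, hn, fun s hs d hd hsd => ?_⟩
  have hsub : closedBall c (7 / 4) ⊆ closedBall c (39 / 20) := closedBall_subset_closedBall (by norm_num)
  have hs2 : closedBall s (1 / 8) ⊆ closedBall c (7 / 4) := by
    intro z hz
    rw [mem_closedBall] at hz ⊢
    linarith [dist_triangle z s c]
  have hss : s ∈ closedBall c (7 / 4) := hs2 (mem_closedBall_self (by norm_num))
  have hρs : ∀ j, s ≠ ρ j := by
    intro j h
    have := hsd j
    rw [h, sub_self, norm_zero] at this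
    linarith
  have hne : f s ≠ 0 := by
    rw [hfg s (hsub hss)]
    exact mul_ne_zero (Finset.prod_ne_zero_iff.mpr fun j _ => sub_ne_zero.mpr (hρs j)) (hg0 s hss)
  refine ⟨hne, ?_⟩
  have h1 := iteratedDeriv_logDeriv_prod n f g ρ s (1 / 8) (by norm_num)
    (fun z hz => hg z (hsub (hs2 hz))) (hg0 s hss) (fun z hz => hfg z (hsub (hs2 hz))) hρs 0
  simp only [iteratedDeriv_zero] at h1
  rw [h1]
  have h2 := MC.logDeriv_bound g c (7 / 4) (60 * T) (1 / 8) (by positivity)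
    (by norm_num) (by norm_num) (hg.differentiableOn.mono (ball_subset_closedBall.trans hsub))
    (fun z hz => hg0 z (ball_subset_closedBall hz))
    (fun z hz => hgb z (hsub (ball_subset_closedBall hz))) s (by linarith)
  have h3 : ‖logDeriv g s‖ ≤ 53760 * T := by
    rw [logDeriv_apply]
    refine h2.trans (le_of_eq ?_)
    ring
  have h4 : ‖∑ j, (s - ρ j)⁻¹‖ ≤ n / d := by
    refine (norm_sum_le _ _).trans ?_
    calc ∑ j, ‖(s - ρ j)⁻¹‖ ≤ ∑ _j : Fin n, d⁻¹ := by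
          refine Finset.sum_le_sum fun j _ => ?_
          rw [norm_inv]
          exact inv_anti₀ hd (hsd j)
      _ = n / d := by
          rw [Finset.sum_const, Finset.card_univ, Fintype.card_fin, nsmul_eq_mul, div_eq_mul_inv]
  exact (norm_add_le _ _).trans (add_le_add h4 h3)

/-- Pigeonhole. -/
theorem pigeon (H : ℝ) (N : ℕ) (a : Fin N → ℝ) :
    ∃ T : ℝ, H ≤ T ∧ T ≤ H + 1 ∧ ∀ j, 1 / (4 * ((N : ℝ) + 1)) ≤ |T - a j| := by
  by_contra hcon
  push Not at hcon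
  have hN : (0 : ℝ) < (N : ℝ) + 1 := by positivity
  have h1 : ∀ k : Fin (N + 1), ∃ j : Fin N, |H + ((k : ℕ) : ℝ) / ((N : ℝ) + 1) - a j| <
      1 / (4 * ((N : ℝ) + 1)) := by
    intro k
    refine hcon (H + ((k : ℕ) : ℝ) / ((N : ℝ) + 1)) ?_ ?_
    · have : 0 ≤ ((k : ℕ) : ℝ) / ((N : ℝ) + 1) := by positivity
      linarith
    · have : ((k : ℕ) : ℝ) / ((N : ℝ) + 1) ≤ 1 := by
        rw [div_le_one hN]
        have : (k : ℕ) ≤ N := by
          have := k.isLt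
          omega
        have h2 : ((k : ℕ) : ℝ) ≤ (N : ℝ) := by exact_mod_cast this
        linarith
      linarith
  choose f hf using h1
  obtain ⟨x, y, hxy, hfxy⟩ := Fintype.exists_ne_map_eq_of_card_lt f (by simp)
  have hx := hf x
  have hy := hf y
  rw [hfxy] at hx
  have h2 : |((x : ℕ) : ℝ) / ((N : ℝ) + 1) - ((y : ℕ) : ℝ) / ((N : ℝ) + 1)| <
      1 / (2 * ((N : ℝ) + 1)) := by
    have e : ((x : ℕ) : ℝ) / ((N : ℝ) + 1) - ((y : ℕ) : ℝ) / ((N : ℝ) + 1) =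
        (H + ((x : ℕ) : ℝ) / ((N : ℝ) + 1) - a (f y)) - (H + ((y : ℕ) : ℝ) / ((N : ℝ) + 1) - a (f y)) := by
      ring
    rw [e]
    refine (abs_sub _ _).trans_lt ?_
    have e2 : 1 / (2 * ((N : ℝ) + 1)) = 1 / (4 * ((N : ℝ) + 1)) + 1 / (4 * ((N : ℝ) + 1)) := by
      field_simp
      norm_num
    rw [e2]
    exact add_lt_add hx hy
  have h3 : 1 / ((N : ℝ) + 1) ≤ |((x : ℕ) : ℝ) / ((N : ℝ) + 1) - ((y : ℕ) : ℝ) / ((N : ℝ) + 1)| := by
    rw [← sub_div, abs_div, abs_of_pos hN]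
    refine div_le_div_of_nonneg_right ?_ hN.le
    have hne : ((x : ℕ) : ℤ) - ((y : ℕ) : ℤ) ≠ 0 := by
      intro h
      apply hxy
      apply Fin.ext
      omega
    have h4 := Int.one_le_abs hne
    have h5 : ((|((x : ℕ) : ℤ) - ((y : ℕ) : ℤ)| : ℤ) : ℝ) = |((x : ℕ) : ℝ) - ((y : ℕ) : ℝ)| := by
      push_cast
      rfl
    rw [← h5]
    exact_mod_cast h4
  have h4 : 1 / (2 * ((N : ℝ) + 1)) < 1 / ((N : ℝ) + 1) := by
    apply one_div_lt_one_div_of_lt hN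
    linarith
  linarith

/-- `Lam'/Lam = gamma'/gamma + L'/L` to the right of the critical line. -/
theorem logDeriv_Lam_right {r : ℕ} [NeZero r] (χ : DirichletCharacter ℂ r) (hχ : χ ≠ 1) (w : ℂ)
    (hw0 : 0 ≤ w.re) (hw1 : w.re ≤ 1) (hL : χ.LFunction (1 / 2 + w) ≠ 0) :
    Lam χ w ≠ 0 ∧ logDeriv (Lam χ) w = logDeriv (DirichletCharacter.gammaFactor χ) (1 / 2 + w) +
        logDeriv χ.LFunction (1 / 2 + w) := by
  have hre : (1 / 2 + w).re = 1 / 2 + w.re := by simp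
  have hopen : IsOpen {s : ℂ | 0 < s.re} := isOpen_lt continuous_const Complex.continuous_re
  have hmem : 1 / 2 + w ∈ {s : ℂ | 0 < s.re} := by
    show 0 < (1 / 2 + w).re
    rw [hre]
    linarith
  have h1 : logDeriv (Lam χ) w =
      logDeriv (DirichletCharacter.completedLFunction χ) (1 / 2 + w) := by
    rw [logDeriv_apply, logDeriv_apply]
    unfold Lam
    rw [deriv_comp_const_add]
  obtain ⟨C, _, hC⟩ := gamma_bound
  obtain ⟨g1, g2, _⟩ := hC r χ (1 / 2 + w) (by rw [hre]; linarith) (by rw [hre]; linarith)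
  have hLd : DifferentiableAt ℂ χ.LFunction (1 / 2 + w) :=
    (DirichletCharacter.differentiable_LFunction hχ) _
  have heq : DirichletCharacter.completedLFunction χ =ᶠ[nhds (1 / 2 + w)]
      fun s => DirichletCharacter.gammaFactor χ s * χ.LFunction s := by
    filter_upwards [hopen.mem_nhds hmem] with s hs
    exact U5_comp hχ hs
  constructor
  · unfold Lam
    rw [heq.eq_of_nhds]
    exact mul_ne_zero g2 hL
  · rw [h1, logDeriv_apply, heq.deriv_eq, heq.eq_of_nhds, ← logDeriv_apply]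
    exact logDeriv_mul _ g2 hL g1 hLd

theorem good_height : ∃ C : ℝ, 1 ≤ C ∧ ∀ (r : ℕ) [NeZero r], 3 ≤ r →
    ∀ χ : DirichletCharacter ℂ r, χ.IsPrimitive → ∀ H : ℝ, 1 ≤ H →
    ∃ T : ℝ, H ≤ T ∧ T ≤ H + 1 ∧ ∀ σ τ : ℝ, |σ| ≤ 1 → |τ| = T →
      Lam χ (σ + τ * I) ≠ 0 ∧ ‖logDeriv (Lam χ) (σ + τ * I)‖ ≤ C * (Real.log r + H) ^ 2 := by
  obtain ⟨C1, hC1, hg⟩ := gamma_bound
  refine ⟨49 * (3280 + 53760) + 3 * C1 + 1, by linarith, ?_⟩
  intro r _ hr χ hχ H hH
  have hne : χ ≠ 1 := prim_ne_one (by omega) χ hχ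
  have hr3 : (3 : ℝ) ≤ r := by exact_mod_cast hr
  have hr1 : 1 ≤ Real.log r := by
    rw [Real.le_log_iff_exp_le (by linarith)]
    linarith [Real.exp_one_lt_d9]
  set B : ℝ := Real.log (360 * r * H) with hB
  have h3H : 0 < 360 * (r : ℝ) * H := by positivity
  have hB1 : 1 ≤ B := by
    rw [hB, Real.le_log_iff_exp_le h3H]
    have := Real.exp_one_lt_d9
    nlinarith
  have hBle : B ≤ 7 * (Real.log r + H) := by
    rw [hB, Real.log_mul (by positivity) (by positivity), Real.log_mul (by positivity) (by positivity)]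
    have h1 : Real.log 360 ≤ 6 := by
      rw [Real.log_le_iff_le_exp (by norm_num)]
      have h2 : (27 / 10 : ℝ) ≤ Real.exp 1 := by
        have := Real.exp_one_gt_d9
        linarith
      have h3 : Real.exp 6 = Real.exp 1 ^ 6 := by
        rw [← Real.exp_nat_mul]
        norm_num
      rw [h3]
      calc (360 : ℝ) ≤ (27 / 10 : ℝ) ^ 6 := by norm_num
        _ ≤ Real.exp 1 ^ 6 := pow_le_pow_left₀ (by norm_num) h2 6
    have h2 : Real.log H ≤ H := (Real.log_le_sub_one_of_pos (by linarith)).trans (by linarith)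
    linarith
  have hloc : ∀ e : ℝ, |e| = 1 → ∃ (n : ℕ) (ρ : Fin n → ℂ), (n : ℝ) ≤ 20 * B ∧
      ∀ s : ℂ, dist s (2 + ((e * (H + 1 / 2) : ℝ) : ℂ) * I) ≤ 13 / 8 → ∀ d : ℝ, 0 < d →
        (∀ j, d ≤ ‖s - ρ j‖) →
        χ.LFunction s ≠ 0 ∧ ‖logDeriv χ.LFunction s‖ ≤ n / d + 53760 * B := by
    intro e he
    have hcn : ‖(2 + ((e * (H + 1 / 2) : ℝ) : ℂ) * I : ℂ)‖ ≤ 2 + (H + 1 / 2) := by
      refine (norm_add_le _ _).trans ?_
      rw [norm_mul, Complex.norm_I, mul_one, Complex.norm_real, Real.norm_eq_abs, abs_mul, he,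
        abs_of_pos (by linarith)]
      simp
    refine local_ld χ.LFunction _ B hB1 ?_ ?_ ?_
    · exact fun z _ => (DirichletCharacter.differentiable_LFunction hne).analyticAt z
    · intro z hz
      rw [mem_closedBall, dist_eq_norm] at hz
      have hre := (Complex.abs_re_le_norm (z - (2 + ((e * (H + 1 / 2) : ℝ) : ℂ) * I))).trans hz
      have hre2 : (z - (2 + ((e * (H + 1 / 2) : ℝ) : ℂ) * I)).re = z.re - 2 := by simp
      rw [hre2, abs_le] at hre
      have h3 := L_growth r χ hne z (by linarith)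
      have h4 : ‖z‖ ≤ 6 * H := by
        calc ‖z‖ = ‖(z - (2 + ((e * (H + 1 / 2) : ℝ) : ℂ) * I)) + (2 + ((e * (H + 1 / 2) : ℝ) : ℂ) * I)‖ := by
              ring_nf
          _ ≤ 39 / 20 + (2 + (H + 1 / 2)) := (norm_add_le _ _).trans (add_le_add hz hcn)
          _ ≤ 6 * H := by linarith
      rw [hB, Real.exp_log h3H]
      calc ‖χ.LFunction z‖ ≤ 20 * (2 * r + 1) * ‖z‖ := h3
        _ ≤ 20 * (2 * r + 1) * (6 * H) := by gcongr
        _ ≤ 360 * r * H := by nlinarith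
    · have h5 : 1 / 3 ≤ ‖χ.LFunction (2 + ((e * (H + 1 / 2) : ℝ) : ℂ) * I)‖ :=
        MC.LFunction_lower r χ _ (by simp)
      refine le_trans ?_ h5
      rw [Real.exp_neg, hB, Real.exp_log h3H, one_div]
      apply inv_anti₀ (by norm_num)
      nlinarith
  obtain ⟨n1, ρ1, hn1, h1⟩ := hloc 1 (by norm_num)
  obtain ⟨n2, ρ2, hn2, h2⟩ := hloc (-1) (by norm_num)
  obtain ⟨T, hT0, hT1, hTa⟩ := pigeon H (n1 + n2)
    (Fin.addCases (fun j => (ρ1 j).im) (fun j => -(ρ2 j).im))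
  have hTpos : 0 < T := by linarith
  set d : ℝ := 1 / (4 * (((n1 + n2 : ℕ) : ℝ) + 1)) with hd
  have hd0 : 0 < d := by positivity
  have hLL : Real.log r + H ≤ (Real.log r + H) ^ 2 := by nlinarith
  -- the right half
  have hright : ∀ σ τ : ℝ, 0 ≤ σ → σ ≤ 1 → |τ| = T →
      Lam χ (σ + τ * I) ≠ 0 ∧ ‖logDeriv (Lam χ) (σ + τ * I)‖ ≤
        (49 * (3280 + 53760) + 3 * C1) * (Real.log r + H) ^ 2 := by
    intro σ τ hσ0 hσ1 hτ
    have hLs : χ.LFunction (1 / 2 + (σ + τ * I)) ≠ 0 ∧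
        ‖logDeriv χ.LFunction (1 / 2 + (σ + τ * I))‖ ≤ (3280 + 53760) * B ^ 2 := by
      have hdist : ∀ e : ℝ, |e| = 1 → τ = e * T →
          dist (1 / 2 + (σ + τ * I) : ℂ) (2 + ((e * (H + 1 / 2) : ℝ) : ℂ) * I) ≤ 13 / 8 := by
        intro e he hτe
        rw [dist_eq_norm]
        have e1 : (1 / 2 + (σ + τ * I) : ℂ) - (2 + ((e * (H + 1 / 2) : ℝ) : ℂ) * I) =
            (((σ - 3 / 2 : ℝ)) : ℂ) + ((e * (T - (H + 1 / 2)) : ℝ) : ℂ) * I := by
          rw [hτe]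
          push_cast
          ring
        rw [e1, Complex.norm_add_mul_I]
        rw [show (13 / 8 : ℝ) = Real.sqrt ((13 / 8) ^ 2) by rw [Real.sqrt_sq (by norm_num)]]
        apply Real.sqrt_le_sqrt
        have h6 : (e * (T - (H + 1 / 2))) ^ 2 = (T - (H + 1 / 2)) ^ 2 := by
          rw [mul_pow, ← sq_abs e, he]
          ring
        rw [h6]
        nlinarith
      have hN : ((n1 + n2 : ℕ) : ℝ) ≤ 40 * B := by
        push_cast
        linarith
      have hfin : ∀ n : ℕ, (n : ℝ) ≤ 20 * B → (n : ℝ) / d + 53760 * B ≤ (3280 + 53760) * B ^ 2 := by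
        intro n hn
        have e2 : (n : ℝ) / d = 4 * n * (((n1 + n2 : ℕ) : ℝ) + 1) := by
          rw [hd]
          field_simp
        rw [e2]
        have h7 : (n : ℝ) * (((n1 + n2 : ℕ) : ℝ) + 1) ≤ (20 * B) * (41 * B) := by
          apply mul_le_mul hn (by linarith) (by positivity) (by positivity)
        nlinarith
      have him : ∀ (e : ℝ) (z : ℂ), τ = e * T → |e| = 1 →
          |T - e * z.im| ≤ ‖(1 / 2 + (σ + τ * I) : ℂ) - z‖ := by
        intro e z hτe he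
        refine le_trans (le_of_eq ?_) (Complex.abs_im_le_norm _)
        have e3 : ((1 / 2 + (σ + τ * I) : ℂ) - z).im = τ - z.im := by simp
        rw [e3, hτe]
        have hee : e * e = 1 := by
          rw [← abs_mul_abs_self, he]
          norm_num
        have e4 : T - e * z.im = e * (e * T - z.im) := by
          rw [mul_sub, ← mul_assoc, hee, one_mul]
        rw [e4, abs_mul, he, one_mul]
      rcases abs_choice τ with hτ' | hτ'
      · have hτe : τ = 1 * T := by rw [one_mul, ← hτ, hτ']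
        obtain ⟨g1, g2⟩ := h1 _ (hdist 1 (by norm_num) hτe) d hd0 (fun j => by
          have h8 := hTa (Fin.castAdd n2 j)
          rw [Fin.addCases_left] at h8
          refine h8.trans ?_
          have := him 1 (ρ1 j) hτe (by norm_num)
          rwa [one_mul] at this)
        exact ⟨g1, g2.trans (hfin n1 hn1)⟩
      · have hτe : τ = -1 * T := by rw [← hτ, hτ']; ring
        obtain ⟨g1, g2⟩ := h2 _ (hdist (-1) (by norm_num) hτe) d hd0 (fun j => by
          have h8 := hTa (Fin.natAdd n1 j)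
          rw [Fin.addCases_right] at h8
          refine h8.trans ?_
          have := him (-1) (ρ2 j) hτe (by norm_num)
          rwa [neg_one_mul] at this)
        exact ⟨g1, g2.trans (hfin n2 hn2)⟩
    obtain ⟨hL0, hLb⟩ := hLs
    have hre : (σ + τ * I : ℂ).re = σ := by simp
    obtain ⟨k1, k2⟩ := logDeriv_Lam_right χ hne (σ + τ * I) (by rw [hre]; exact hσ0)
      (by rw [hre]; exact hσ1) hL0
    refine ⟨k1, ?_⟩
    rw [k2]
    obtain ⟨_, _, hgam⟩ := hg r χ (1 / 2 + (σ + τ * I)) (by simp; linarith) (by simp; linarith)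
    have him2 : (1 / 2 + (σ + τ * I) : ℂ).im = τ := by simp
    rw [him2, hτ] at hgam
    have hB2 : B ^ 2 ≤ 49 * (Real.log r + H) ^ 2 := by
      calc B ^ 2 ≤ (7 * (Real.log r + H)) ^ 2 := pow_le_pow_left₀ (by linarith) hBle 2
        _ = 49 * (Real.log r + H) ^ 2 := by ring
    calc ‖logDeriv (DirichletCharacter.gammaFactor χ) (1 / 2 + (σ + τ * I)) +
          logDeriv χ.LFunction (1 / 2 + (σ + τ * I))‖ ≤ C1 * (1 + T) + (3280 + 53760) * B ^ 2 :=
          (norm_add_le _ _).trans (add_le_add hgam hLb)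
      _ ≤ C1 * (3 * (Real.log r + H) ^ 2) + (3280 + 53760) * (49 * (Real.log r + H) ^ 2) := by
          gcongr
          linarith
      _ = _ := by ring
  refine ⟨T, hT0, hT1, fun σ τ hσ hτ => ?_⟩
  have hsq : 0 ≤ (Real.log r + H) ^ 2 := sq_nonneg _
  rcases le_total 0 σ with h0 | h0
  · rw [abs_of_nonneg h0] at hσ
    obtain ⟨a1, a2⟩ := hright σ τ h0 hσ hτ
    exact ⟨a1, a2.trans (by nlinarith)⟩
  · rw [abs_of_nonpos h0] at hσ
    obtain ⟨a1, a2⟩ := hright (-σ) τ (by linarith) hσ hτ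
    have e5 : (σ + τ * I : ℂ) = -conj (((-σ : ℝ) : ℂ) + τ * I) := by
      rw [map_add, map_mul, Complex.conj_ofReal, Complex.conj_ofReal, Complex.conj_I]
      push_cast
      ring
    constructor
    · rw [e5, Ne, Lam_zero_symm (by omega) χ hχ]
      exact a1
    · rw [e5, logDeriv_Lam_symm (by omega) χ hχ _ a1]
      calc ‖-(Real.log r : ℂ) - conj (logDeriv (Lam χ) (((-σ : ℝ) : ℂ) + τ * I))‖
          ≤ Real.log r + ‖logDeriv (Lam χ) (((-σ : ℝ) : ℂ) + τ * I)‖ := by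
            refine (norm_sub_le _ _).trans ?_
            rw [norm_neg, Complex.norm_real, Real.norm_of_nonneg (by linarith), RCLike.norm_conj]
        _ ≤ (Real.log r + H) ^ 2 + (49 * (3280 + 53760) + 3 * C1) * (Real.log r + H) ^ 2 := by
            gcongr
            linarith
        _ = _ := by ring

end Pool.Agent.SK
end

section

/-! The explicit formula (assembly). -/

set_option autoImplicit false

namespace Pool.Agent.SK

open Complex MeasureTheory Pool.Agent.EM Pool.Agent.SO Set Metric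
open scoped ComplexConjugate

theorem EFa_re_lt {r : ℕ} [NeZero r] (hr : 2 ≤ r) (χ : DirichletCharacter ℂ r) (hχ : χ ∈ prim r) (w : ℂ)
    (h0 : Lam χ w = 0) : |w.re| < 1 / 2 := by
  by_contra h
  exact Lam_ne r hr χ hχ w (not_lt.mp h) h0

theorem EFa_mem {r : ℕ} [NeZero r] (hr : 2 ≤ r) (χ : DirichletCharacter ℂ r) (hχ : χ ∈ prim r) {T : ℝ} {w : ℂ} :
    w ∈ Z χ T ↔ Lam χ w = 0 ∧ |w.im| ≤ T := mem_Z r hr χ hχ T w

theorem gz_differentiable (W x : ℝ) : Differentiable ℂ (gz W x) := by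
  unfold gz
  fun_prop

/-- The symmetry of the kernel. -/
theorem gz_symm (W x : ℝ) (w : ℂ) : gz W x (-conj w) = conj (gz W x w) := by
  unfold gz
  rw [map_mul, Complex.conj_ofReal, ← Complex.exp_conj, map_mul, Complex.conj_ofReal, map_pow, map_sub,
    map_mul, Complex.conj_ofReal, Complex.conj_I]
  congr 3
  ring

theorem exp_symm (t : ℝ) (w : ℂ) : Complex.exp (-conj w * t) = conj (Complex.exp (w * ((-t : ℝ) : ℂ))) := by
  rw [← Complex.exp_conj, map_mul, Complex.conj_ofReal]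
  congr 1
  push_cast
  ring

/-- The horizontal sides. -/
theorem hor_side (F : ℂ → ℂ) (W x t T H K τ : ℝ) (hW : 1 ≤ W) (hH : 1 ≤ H) (hT : H ≤ T)
    (hx : |x| ≤ H / 2) (hτ : |τ| = T) (hK : 0 ≤ K)
    (hF : ∀ σ : ℝ, |σ| ≤ 1 → ‖F (σ + τ * I)‖ ≤ K) :
    ‖∫ σ in (-1 : ℝ)..1, F (σ + τ * I) * (gz W x (σ + τ * I) * Complex.exp ((σ + τ * I) * t))‖ ≤
      2 * (K * (W * Real.exp (W ^ 2 / 2 + |t| - W ^ 2 * H ^ 2 / 16))) := by
  have hW0 : 0 < W := by linarith
  have hpi1 : 1 ≤ Real.sqrt (2 * Real.pi) := by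
    rw [Real.one_le_sqrt]
    linarith [Real.pi_gt_three]
  have hbound : ∀ σ ∈ Set.uIoc (-1 : ℝ) 1,
      ‖F (σ + τ * I) * (gz W x (σ + τ * I) * Complex.exp ((σ + τ * I) * t))‖ ≤
      K * (W * Real.exp (W ^ 2 / 2 + |t| - W ^ 2 * H ^ 2 / 16)) := by
    intro σ hσ
    rw [Set.uIoc_of_le (by norm_num)] at hσ
    have hσ1 : |σ| ≤ 1 := abs_le.mpr ⟨hσ.1.le, hσ.2⟩
    rw [norm_mul, norm_mul, gz_norm_hor W x σ τ hW0, Complex.norm_exp]
    have e1 : (((σ : ℂ) + τ * I) * t).re = σ * t := by simp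
    rw [e1]
    have h1 : W / Real.sqrt (2 * Real.pi) ≤ W := div_le_self hW0.le hpi1
    have h2 : σ * t ≤ |t| := by
      calc σ * t ≤ |σ * t| := le_abs_self _
        _ = |σ| * |t| := abs_mul _ _
        _ ≤ 1 * |t| := by gcongr
        _ = |t| := one_mul _
    have h3 : σ ^ 2 ≤ 1 := by
      rw [← sq_abs]
      exact pow_le_one₀ (abs_nonneg _) hσ1
    have h4 : H / 2 ≤ |τ - x| := by
      have : |τ| ≤ |τ - x| + |x| := by
        calc |τ| = |(τ - x) + x| := by ring_nf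
          _ ≤ _ := abs_add_le _ _
      rw [hτ] at this
      linarith
    have h5 : H ^ 2 / 4 ≤ (τ - x) ^ 2 := by
      rw [← sq_abs (τ - x)]
      have := pow_le_pow_left₀ (by linarith) h4 2
      linarith
    have h6 : W ^ 2 / 2 * σ ^ 2 - W ^ 2 / 2 * (τ - x) ^ 2 + σ * t ≤
        W ^ 2 / 2 + |t| - W ^ 2 * H ^ 2 / 16 := by
      have hW2 : 0 < W ^ 2 := by positivity
      have hH2 : 0 < H ^ 2 := by positivity
      nlinarith [mul_le_mul_of_nonneg_left h3 (by positivity : (0 : ℝ) ≤ W ^ 2 / 2),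
        mul_le_mul_of_nonneg_left h5 (by positivity : (0 : ℝ) ≤ W ^ 2 / 2), mul_pos hW2 hH2]
    calc ‖F (σ + τ * I)‖ * (W / Real.sqrt (2 * Real.pi) *
          Real.exp (W ^ 2 / 2 * σ ^ 2 - W ^ 2 / 2 * (τ - x) ^ 2) * Real.exp (σ * t))
        = ‖F (σ + τ * I)‖ * (W / Real.sqrt (2 * Real.pi) *
          Real.exp (W ^ 2 / 2 * σ ^ 2 - W ^ 2 / 2 * (τ - x) ^ 2 + σ * t)) := by
          rw [Real.exp_add]
          ring
      _ ≤ K * (W * Real.exp (W ^ 2 / 2 + |t| - W ^ 2 * H ^ 2 / 16)) := by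
          have := hF σ hσ1
          gcongr
  have h := intervalIntegral.norm_integral_le_of_norm_le_const hbound
  refine h.trans (le_of_eq ?_)
  rw [show |(1 : ℝ) - -1| = 2 by norm_num]
  ring

theorem EF : ∃ C : ℝ, 1 ≤ C ∧ ∀ (r : ℕ) [NeZero r], 3 ≤ r → ∀ χ : DirichletCharacter ℂ r, χ ∈ prim r →
    ∀ H : ℝ, 1 ≤ H → ∃ T : ℝ, H ≤ T ∧ T ≤ H + 1 ∧ ∀ W x t : ℝ, 1 ≤ W → |x| ≤ H / 2 →
      ‖GX χ T W x t - (1 / (2 * Real.pi) : ℂ) *
        (Real.log r * Complex.exp (x * t * I - ((t ^ 2 / (2 * W ^ 2) : ℝ) : ℂ)) - PX χ W x t -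
          conj (PX χ W x (-t)))‖ ≤
      C * (1 + |x|) + C * W * (Real.log r + H) ^ 2 * Real.exp (W ^ 2 / 2 + |t| - W ^ 2 * H ^ 2 / 16) := by
  obtain ⟨C1, hC1, hline⟩ := line_total
  obtain ⟨C2, hC2, hgood⟩ := good_height
  refine ⟨2 * C1 + 4 * C2, by linarith, ?_⟩
  intro r _ hr χ hχm H hH
  have hχ : χ.IsPrimitive := by
    classical
    unfold prim at hχm
    exact (Finset.mem_filter.mp hχm).2
  have hne : χ ≠ 1 := prim_ne_one (by omega) χ hχ
  obtain ⟨T, hT0, hT1, hD⟩ := hgood r hr χ hχ H hH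
  refine ⟨T, hT0, hT1, fun W x t hW hx => ?_⟩
  have hTpos : 0 < T := by linarith
  have hW0 : 0 < W := by linarith
  have hlog : 0 ≤ Real.log r := Real.log_natCast_nonneg r
  set L : ℝ := Real.log r with hL
  set E : ℝ := Real.exp (W ^ 2 / 2 + |t| - W ^ 2 * H ^ 2 / 16) with hE
  have hE0 : 0 < E := Real.exp_pos _
  set Φ : ℂ → ℂ := fun w => gz W x w * Complex.exp (w * t) with hΦ
  have hΦd : Differentiable ℂ Φ := (gz_differentiable W x).mul (by fun_prop)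
  -- the residue formula
  have hbd := bd_zeros 1 T one_pos hTpos (Lam χ) Φ (Lam_differentiable χ hne) hΦd ?_ (Z χ T) ?_
  · -- the right side is `2 π GX`
    have hGX : 2 * Real.pi * ∑ w ∈ Z χ T, (analyticOrderNatAt (Lam χ) w : ℂ) * Φ w =
        2 * Real.pi * GX χ T W x t := by
      unfold GX mu
      congr 1
      refine Finset.sum_congr rfl fun w _ => ?_
      rw [hΦ]
      push_cast
      ring
    rw [hGX] at hbd
    have hR := hline r hr χ hχ W H T x t 0 hW hH hT0 hT1 hx le_rfl hlog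
    have hLft := hline r hr χ hχ W H T x (-t) L hW hH hT0 hT1 hx hlog le_rfl
    rw [abs_neg] at hLft
    rw [← hL, ← hE] at hR hLft
    -- the right line
    have e1 : (∫ v in (-T)..T, logDeriv (Lam χ) (((1 : ℝ) : ℂ) + v * I) * Φ (((1 : ℝ) : ℂ) + v * I)) =
        ∫ y in (-T)..T, gz W x (1 + y * I) * Complex.exp ((1 + y * I) * t) *
          (((0 : ℝ) : ℂ) + logDeriv (Lam χ) (1 + y * I)) := by
      refine intervalIntegral.integral_congr fun v _ => ?_
      simp only [hΦ, Complex.ofReal_one, Complex.ofReal_zero, zero_add]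
      ring
    -- the left line
    have e2 : (∫ v in (-T)..T, logDeriv (Lam χ) (-((1 : ℝ) : ℂ) + v * I) * Φ (-((1 : ℝ) : ℂ) + v * I)) =
        -conj (∫ y in (-T)..T, gz W x (1 + y * I) * Complex.exp ((1 + y * I) * ((-t : ℝ) : ℂ)) *
          ((L : ℂ) + logDeriv (Lam χ) (1 + y * I))) := by
      have e3 : ∀ v : ℝ, logDeriv (Lam χ) (-((1 : ℝ) : ℂ) + v * I) * Φ (-((1 : ℝ) : ℂ) + v * I) =
          -conj (gz W x (1 + v * I) * Complex.exp ((1 + v * I) * ((-t : ℝ) : ℂ)) *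
          ((L : ℂ) + logDeriv (Lam χ) (1 + v * I))) := by
        intro v
        have e4 : (-((1 : ℝ) : ℂ) + v * I : ℂ) = -conj (1 + v * I : ℂ) := by
          rw [map_add, map_mul, Complex.conj_ofReal, Complex.conj_I, map_one]
          push_cast
          ring
        have hnz : Lam χ (1 + v * I) ≠ 0 := by
          intro h0
          have := EFa_re_lt (by omega) χ hχm _ h0
          simp at this
          norm_num at this
        rw [e4, logDeriv_Lam_symm (by omega) χ hχ _ hnz]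
        simp only [hΦ]
        rw [gz_symm, exp_symm, map_mul, map_mul, map_add, Complex.conj_ofReal]
        ring
      rw [intervalIntegral.integral_congr (g := fun v : ℝ => -conj (gz W x (1 + v * I) *
          Complex.exp ((1 + v * I) * ((-t : ℝ) : ℂ)) * ((L : ℂ) + logDeriv (Lam χ) (1 + v * I))))
        (fun v _ => e3 v)]
      rw [intervalIntegral.integral_neg]
      congr 1
      rw [intervalIntegral.integral_of_le (by linarith), intervalIntegral.integral_of_le (by linarith)]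
      exact integral_conj
    -- the horizontal sides
    have hh1 := hor_side (logDeriv (Lam χ)) W x t T H (C2 * (L + H) ^ 2) T hW hH hT0 hx
      (abs_of_pos hTpos) (by positivity) (fun σ hσ => (hD σ T hσ (abs_of_pos hTpos)).2)
    have hh2 := hor_side (logDeriv (Lam χ)) W x t T H (C2 * (L + H) ^ 2) (-T) hW hH hT0 hx
      (by rw [abs_neg, abs_of_pos hTpos]) (by positivity)
      (fun σ hσ => (hD σ (-T) hσ (by rw [abs_neg, abs_of_pos hTpos])).2)
    rw [← hE] at hh1 hh2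
    have e5 : (∫ σ in (-1 : ℝ)..1, logDeriv (Lam χ) (σ - T * I) * Φ (σ - T * I)) =
        ∫ σ in (-1 : ℝ)..1, logDeriv (Lam χ) (σ + ((-T : ℝ) : ℂ) * I) *
          (gz W x (σ + ((-T : ℝ) : ℂ) * I) * Complex.exp ((σ + ((-T : ℝ) : ℂ) * I) * t)) := by
      refine intervalIntegral.integral_congr fun σ _ => ?_
      have : (σ - T * I : ℂ) = σ + ((-T : ℝ) : ℂ) * I := by
        push_cast
        ring
      simp only [hΦ, this]
    unfold bd at hbd
    simp only [] at hbd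
    rw [e1, e2, e5] at hbd
    set R1 : ℂ := ∫ y in (-T)..T, gz W x (1 + y * I) * Complex.exp ((1 + y * I) * t) *
          (((0 : ℝ) : ℂ) + logDeriv (Lam χ) (1 + y * I)) with hR1
    set R2 : ℂ := ∫ y in (-T)..T, gz W x (1 + y * I) * Complex.exp ((1 + y * I) * ((-t : ℝ) : ℂ)) *
          ((L : ℂ) + logDeriv (Lam χ) (1 + y * I)) with hR2
    set S1 : ℂ := ∫ σ in (-1 : ℝ)..1, logDeriv (Lam χ) (σ + ((-T : ℝ) : ℂ) * I) *
          (gz W x (σ + ((-T : ℝ) : ℂ) * I) * Complex.exp ((σ + ((-T : ℝ) : ℂ) * I) * t)) with hS1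
    set S2 : ℂ := ∫ σ in (-1 : ℝ)..1, logDeriv (Lam χ) (σ + (T : ℂ) * I) *
          (gz W x (σ + (T : ℂ) * I) * Complex.exp ((σ + (T : ℂ) * I) * t)) with hS2
    have hcj : conj ((L : ℂ) * Complex.exp (x * ((-t : ℝ) : ℂ) * I - (((-t) ^ 2 / (2 * W ^ 2) : ℝ) : ℂ)) -
        PX χ W x (-t)) = (L : ℂ) * Complex.exp (x * t * I - ((t ^ 2 / (2 * W ^ 2) : ℝ) : ℂ)) -
        conj (PX χ W x (-t)) := by
      rw [map_sub, map_mul, Complex.conj_ofReal, ← Complex.exp_conj]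
      congr 3
      rw [map_sub, map_mul, map_mul, Complex.conj_ofReal, Complex.conj_ofReal, Complex.conj_ofReal,
        Complex.conj_I, neg_sq]
      push_cast
      ring
    have hLc : ‖conj R2 - ((L : ℂ) * Complex.exp (x * t * I - ((t ^ 2 / (2 * W ^ 2) : ℝ) : ℂ)) -
        conj (PX χ W x (-t)))‖ ≤ C1 * (1 + |x|) + C1 * W * (L + H) * E := by
      rw [← hcj, ← map_sub, RCLike.norm_conj]
      exact hLft
    have hRc : ‖R1 - (-PX χ W x t)‖ ≤ C1 * (1 + |x|) + C1 * W * (L + H) * E := by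
      have e6 : (((0 : ℝ) : ℂ) * Complex.exp (x * t * I - ((t ^ 2 / (2 * W ^ 2) : ℝ) : ℂ)) - PX χ W x t) =
          -PX χ W x t := by
        rw [Complex.ofReal_zero, zero_mul, zero_sub]
      rw [← e6]
      exact hR
    have hpi : (Real.pi : ℂ) ≠ 0 := by exact_mod_cast Real.pi_ne_zero
    have hfinal : GX χ T W x t - (1 / (2 * Real.pi) : ℂ) *
        (L * Complex.exp (x * t * I - ((t ^ 2 / (2 * W ^ 2) : ℝ) : ℂ)) - PX χ W x t -
          conj (PX χ W x (-t))) = (1 / (2 * Real.pi) : ℂ) * ((R1 - (-PX χ W x t)) +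
          (conj R2 - ((L : ℂ) * Complex.exp (x * t * I - ((t ^ 2 / (2 * W ^ 2) : ℝ) : ℂ)) -
            conj (PX χ W x (-t)))) + 1 / I * (S1 - S2)) := by
      have e7 : GX χ T W x t = (1 / (2 * Real.pi) : ℂ) * (2 * Real.pi * GX χ T W x t) := by
        field_simp
      rw [e7, ← hbd]
      ring
    rw [hfinal, norm_mul]
    have hc : ‖(1 / (2 * Real.pi) : ℂ)‖ ≤ 1 := by
      rw [norm_div, norm_mul, Complex.norm_real, Real.norm_of_nonneg Real.pi_pos.le]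
      simp only [norm_one, Complex.norm_ofNat]
      rw [div_le_one (by have := Real.pi_pos; positivity)]
      linarith [Real.pi_gt_three]
    have hI : ‖1 / I * (S1 - S2)‖ ≤ 4 * (C2 * (L + H) ^ 2 * (W * E)) := by
      rw [norm_mul, norm_div, norm_one, Complex.norm_I, div_one, one_mul]
      refine (norm_sub_le _ _).trans ?_
      linarith
    have hsum : ‖(R1 - (-PX χ W x t)) +
          (conj R2 - ((L : ℂ) * Complex.exp (x * t * I - ((t ^ 2 / (2 * W ^ 2) : ℝ) : ℂ)) -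
            conj (PX χ W x (-t)))) + 1 / I * (S1 - S2)‖ ≤
        (C1 * (1 + |x|) + C1 * W * (L + H) * E) + (C1 * (1 + |x|) + C1 * W * (L + H) * E) +
          4 * (C2 * (L + H) ^ 2 * (W * E)) :=
      (norm_add_le _ _).trans (add_le_add ((norm_add_le _ _).trans (add_le_add hRc hLc)) hI)
    have hLH : L + H ≤ (L + H) ^ 2 := by nlinarith
    calc ‖(1 / (2 * Real.pi) : ℂ)‖ * _ ≤ 1 * ((C1 * (1 + |x|) + C1 * W * (L + H) * E) +
          (C1 * (1 + |x|) + C1 * W * (L + H) * E) + 4 * (C2 * (L + H) ^ 2 * (W * E))) := by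
          gcongr
      _ ≤ (C1 * (1 + |x|) + C1 * W * (L + H) ^ 2 * E) +
          (C1 * (1 + |x|) + C1 * W * (L + H) ^ 2 * E) + 4 * (C2 * (L + H) ^ 2 * (W * E)) := by
          rw [one_mul]
          gcongr
      _ ≤ (2 * C1 + 4 * C2) * (1 + |x|) + (2 * C1 + 4 * C2) * W * (L + H) ^ 2 * E := by
          have : 0 ≤ C2 * (1 + |x|) := by positivity
          nlinarith
  · -- no zeros on the boundary
    intro w hw h0
    rcases hw with ⟨h1, _⟩ | ⟨h1, h2⟩
    · have := EFa_re_lt (by omega) χ hχm w h0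
      rw [h1] at this
      norm_num at this
    · apply (hD w.re w.im h1 h2).1
      rw [Complex.re_add_im]
      exact h0
  · -- the set of the zeros
    intro w
    rw [EFa_mem (by omega) χ hχm]
    constructor
    · rintro ⟨h0, h1⟩
      have hre := EFa_re_lt (by omega) χ hχm w h0
      refine ⟨h0, by linarith, lt_of_le_of_ne h1 fun h2 => ?_⟩
      apply (hD w.re w.im (by linarith) h2).1
      rw [Complex.re_add_im]
      exact h0
    · rintro ⟨h0, _, h1⟩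
      exact ⟨h0, h1.le⟩

end Pool.Agent.SK
end
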