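import Mathlib
import Pool.Agent.Lib.MP_9cfc0a_nt.Mg.G011
import Pool.Agent.Lib.MP_9cfc0a_nt.Mg.G012
import Pool.Agent.Lib.MP_9cfc0a_nt.Mg.G013
import Pool.Agent.Lib.MP_9cfc0a_nt.Mg.G005

section

set_option autoImplicit false

/-! Task LB: the lower bound for `Gu` with the number of good zeros. -/

namespace Pool.Agent.SD

open Complex MeasureTheory
open Pool.Agent.SK
open Pool.Agent.SO (prim NN)

/-- LB. PROOF. As `G_lower` in SK/C6B.lean (copy it), with `key_mult` (`m = mu χ`) in place of `key`: `S` is symmetric (`mem_Z`,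
`Lam_zero_symm`, see SK/C4A.lean; `(-conj w).im = w.im`), `mu_cases`, `mu_symm`; for `w ∈ S` with `w.re = 0`, `mu χ w = 1` the coefficient
`c w = mu χ w * FI W (u-h) (u+h) w` has real part in `[0, 1]` by `FI_line`. `NU_eq` identifies the count. Numbers (see C6B): with
`R = Re ∑_S c ≥ (h/π) L - 2p - C₀ - s`, `n = ∑_S mu ≤ (h+2η)/π L + 2p + C₀ + 4`, `s |S| ≤ s n ≤ 7 + C₀`, `s ≤ 1`:
`2 (2R - n) - 4 s |S| ≥ 2 (h/π) L - 2 η L - 12 p - 20 C₀ - 100`. -/
theorem G_lower2 (r : ℕ) [NeZero r] (hr : 3 ≤ r) (χ : DirichletCharacter ℂ r) (hχ : χ ∈ prim r)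
    (T W C₀ Y₀ T₁ u h η δ₀ N Y p : ℝ) (hW : 1 ≤ W) (hY : 0 < Y) (hYY : Y ≤ Y₀) (hh : 0 ≤ h) (hh1 : h ≤ 1)
    (hη : 0 ≤ η) (hη1 : η ≤ 1) (hδ0 : 0 ≤ δ₀) (hδ : ∀ w ∈ Z χ T, |w.re| ≤ δ₀) (hWδ : W ^ 2 * δ₀ ≤ 1)
    (hN : ∑ w ∈ Z χ T, mu χ w ≤ N) (hEF : EFp χ T W C₀ Y₀ T₁) (hC₀ : 0 ≤ C₀) (hu : |u| + h + 2 * η ≤ T₁)
    (hp1 : ‖PU χ W (u - h) (u + h) 0‖ ≤ p) (hp2 : ‖PU χ W (u - h - 2 * η) (u + h + 2 * η) 0‖ ≤ p)
    (hp3 : p ≤ Real.log r)
    (hs1 : Real.log r * N * Real.exp (-(W ^ 2 * η ^ 2 / 2) + δ₀ * Y) ≤ 1)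
    (hs2 : N * Real.exp (-(W ^ 2 / 2)) ≤ 1) :
    Y / 2 * (2 * (h / Real.pi * Real.log r) - NU (GZ χ T) (h + η) u - 2 * η * Real.log r - 12 * p - 20 * C₀ - 100) ≤
      ∫ t in (0 : ℝ)..Y, (1 - t / Y) * ‖Gu χ T W (u - h) (u + h) t‖ ^ 2 := by
  have hW0 : 0 < W := by linarith
  have hW2 : W ≤ W ^ 2 := by nlinarith
  set L : ℝ := Real.log r with hL
  have hL1 : 1 ≤ L := by
    rw [hL, Real.le_log_iff_exp_le (by positivity)]
    have : (3 : ℝ) ≤ r := by exact_mod_cast hr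
    linarith [Real.exp_one_lt_d9]
  have hmu : ∀ w, 0 ≤ mu χ w := fun w => mu_nonneg r χ w
  have hN0 : 0 ≤ N := (Finset.sum_nonneg fun w _ => hmu w).trans hN
  have hWδ1 : W * δ₀ ≤ 1 := (mul_le_mul_of_nonneg_right hW2 hδ0).trans hWδ
  have hδY : 0 ≤ δ₀ * Y := by positivity
  set E : ℝ := Real.exp (-(W ^ 2 * η ^ 2 / 2) + δ₀ * Y) with hE
  have hE0 : 0 < E := Real.exp_pos _
  have heE : Real.exp (-(W ^ 2 * η ^ 2 / 2)) ≤ E := by
    apply Real.exp_le_exp.mpr
    linarith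
  set s : ℝ := N * E with hs
  have hs0 : 0 ≤ s := by positivity
  have hNe : N * Real.exp (-(W ^ 2 * η ^ 2 / 2)) ≤ s := mul_le_mul_of_nonneg_left heE hN0
  have hsL : s * L ≤ 1 := by
    calc s * L = L * N * E := by rw [hs]; ring
      _ ≤ 1 := hs1
  have hs1' : s ≤ 1 := by nlinarith
  rw [NU_eq r χ T (h + η) u]
  set S := (Z χ T).filter (fun w => |w.im - u| ≤ h + η) with hS
  set c : ℂ → ℂ := fun w => (mu χ w : ℂ) * FI W (u - h) (u + h) w with hc
  have hGc : Continuous fun t : ℝ => Gu χ T W (u - h) (u + h) t := by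
    unfold Gu
    fun_prop
  have hSmem : ∀ w ∈ S, Lam χ w = 0 ∧ |w.im| ≤ T ∧ |w.im - u| ≤ h + η := by
    intro w hw
    rw [hS, Finset.mem_filter] at hw
    have h2 := (mem_Z r (by omega) χ hχ T w).mp hw.1
    exact ⟨h2.1, h2.2, hw.2⟩
  have hSsym : ∀ z ∈ S, -((starRingEnd ℂ) z) ∈ S := by
    intro w hw
    obtain ⟨h1, h2, h3⟩ := hSmem w hw
    have him : (-((starRingEnd ℂ) w)).im = w.im := by simp
    rw [hS, Finset.mem_filter, mem_Z r (by omega) χ hχ, him]
    exact ⟨⟨(Lam_zero_symm (by omega) χ (prim_spec r (by omega) χ hχ).1 w).2 h1, h2⟩, h3⟩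
  have hkey := key_mult Y s hY S hSsym (mu χ)
    (fun z hz => mu_cases r (by omega) χ hχ z (hSmem z hz).1)
    (fun z => mu_symm r (by omega) χ hχ z) c
    (fun z _ hz0 hz1 => by
      have h1 := FI_line W (u - h) (u + h) hW0 (by linarith) z hz0
      have h2 : c z = FI W (u - h) (u + h) z := by
        show (mu χ z : ℂ) * FI W (u - h) (u + h) z = _
        rw [hz1]
        simp
      rw [h2]
      exact h1)
    (fun t => Gu χ T W (u - h) (u + h) t) hGc (fun t ht =>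
      out_band r χ T W u h η δ₀ N Y hW hh hη hδ hWδ1 hN t ht) (fun t _ _ => by
      rw [Gu_neg r (by omega) χ hχ]
      exact RCLike.norm_conj _)
  refine le_trans (mul_le_mul_of_nonneg_left ?_ (by positivity)) hkey
  have hcard : (S.card : ℝ) ≤ ∑ w ∈ S, mu χ w := by
    calc (S.card : ℝ) = ∑ _w ∈ S, (1 : ℝ) := by simp
      _ ≤ ∑ w ∈ S, mu χ w := by
          refine Finset.sum_le_sum fun w hw => ?_
          exact one_le_mu r (by omega) χ hχ w (hSmem w hw).1
  have hY0 : 0 ≤ Y₀ := by linarith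
  have hn := band_count r χ T W C₀ Y₀ T₁ u h η δ₀ N hW hY0 hh hη hδ hWδ hN hEF hu
  rw [← hS, ← hL] at hn
  have htr := trace_lower r χ T W C₀ Y₀ T₁ u h η δ₀ N hW hY0 hh hη hδ hWδ1 hN hEF (by linarith)
  rw [← hS, ← hL] at htr
  change _ ≤ (∑ w ∈ S, c w).re at htr
  set R : ℝ := (∑ w ∈ S, c w).re with hR
  set n : ℝ := ∑ w ∈ S, mu χ w with hndef
  have hpi := Real.pi_gt_three
  have hp0 : 0 ≤ p := (norm_nonneg _).trans hp1
  have hn1 : n ≤ (h + 2 * η) / Real.pi * L + 2 * p + C₀ + 4 := by linarith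
  have hq : (h + 2 * η) / Real.pi ≤ 1 := by
    rw [div_le_one (by linarith)]
    linarith
  have hq2 : (h + 2 * η) / Real.pi * L ≤ L := by nlinarith
  have hn2 : n ≤ 3 * L + C₀ + 4 := by linarith
  have hsn : s * n ≤ 7 + C₀ := by
    calc s * n ≤ s * (3 * L + C₀ + 4) := mul_le_mul_of_nonneg_left hn2 hs0
      _ = 3 * (s * L) + s * C₀ + 4 * s := by ring
      _ ≤ 3 * 1 + 1 * C₀ + 4 * 1 := by gcongr
      _ = 7 + C₀ := by ring
  have hcs : s * (S.card : ℝ) ≤ 7 + C₀ := (mul_le_mul_of_nonneg_left hcard hs0).trans hsn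
  have h2η : 2 * η / Real.pi * L ≤ η * L := by
    have : 2 * η / Real.pi ≤ η := by
      rw [div_le_iff₀ (by linarith)]
      nlinarith
    nlinarith
  have hsum : (h + 2 * η) / Real.pi * L = h / Real.pi * L + 2 * η / Real.pi * L := by ring
  have hR1 : h / Real.pi * L - 2 * p - C₀ - 1 ≤ R := by linarith
  have hn3 : n ≤ h / Real.pi * L + η * L + 2 * p + C₀ + 4 := by linarith
  have hcs4 : 4 * s * (S.card : ℝ) ≤ 4 * (7 + C₀) := by
    have e : 4 * s * (S.card : ℝ) = 4 * (s * (S.card : ℝ)) := by ring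
    rw [e]
    linarith
  linarith

end Pool.Agent.SD
end

section

/-! The explicit formula, integrated over the frequencies. -/

set_option autoImplicit false

namespace Pool.Agent.SK

open Complex MeasureTheory Pool.Agent.EM Pool.Agent.SO Set Metric
open scoped ComplexConjugate

theorem PX_continuous_x {q : ℕ} (χ : DirichletCharacter ℂ q) (W t : ℝ) (hW : 0 < W) :
    Continuous fun x => PX χ W x t := by
  rw [continuous_iff_continuousAt]
  intro x₀
  unfold PX
  have hnear : ∀ᶠ x in nhds x₀, |x| ≤ |x₀| + 1 := by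
    filter_upwards [Metric.ball_mem_nhds x₀ one_pos] with x hx
    rw [Metric.mem_ball, Real.dist_eq] at hx
    have : |x| ≤ |x₀| + |x - x₀| := by
      calc |x| = |x₀ + (x - x₀)| := by ring_nf
        _ ≤ _ := abs_add_le _ _
    linarith
  refine MeasureTheory.continuousAt_of_dominated (bound := fun v => 6 *
    ((1 / 2 + (|x₀| + 1) + 4 / W) * Real.exp (3 * t / 2 + 9 * W ^ 2 / 4)) * Real.exp (-1 * v)) ?_ ?_ ?_ ?_
  · refine Filter.Eventually.of_forall fun x => ?_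
    refine Measurable.aestronglyMeasurable ?_
    refine (ff_measurable χ).mul ?_
    unfold gk
    fun_prop
  · filter_upwards [hnear] with x hx
    refine Filter.Eventually.of_forall fun v => ?_
    rw [norm_mul]
    calc ‖ff χ v‖ * ‖gk W x (t - v)‖ ≤ (6 * Real.exp (v / 2)) *
          (((1 / 2 + (|x₀| + 1) + 4 / W) * Real.exp (3 * t / 2 + 9 * W ^ 2 / 4)) *
            Real.exp (-(3 / 2) * v)) :=
          mul_le_mul (ff_norm χ v) (gk_bound W (|x₀| + 1) x t v hW hx) (norm_nonneg _) (by positivity)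
      _ = 6 * ((1 / 2 + (|x₀| + 1) + 4 / W) * Real.exp (3 * t / 2 + 9 * W ^ 2 / 4)) *
          (Real.exp (v / 2) * Real.exp (-(3 / 2) * v)) := by ring
      _ = _ := by
          rw [← Real.exp_add]
          congr 2
          ring
  · exact (exp_neg_integrableOn_Ioi 0 one_pos).const_mul _
  · refine Filter.Eventually.of_forall fun v => ?_
    refine Continuous.continuousAt ?_
    unfold gk
    fun_prop

theorem Gu_eq {r : ℕ} [NeZero r] (χ : DirichletCharacter ℂ r) (T W a b t : ℝ) :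
    Gu χ T W a b t = ∫ x in a..b, GX χ T W x t := by
  unfold Gu GX FI
  rw [intervalIntegral.integral_finsetSum]
  · refine Finset.sum_congr rfl fun w _ => ?_
    rw [intervalIntegral.integral_mul_const, intervalIntegral.integral_const_mul]
  · intro w _
    refine Continuous.intervalIntegrable ?_ _ _
    unfold gz
    fun_prop

theorem kap_eq (W a b t : ℝ) : kap W a b t = (1 / (2 * Real.pi) : ℂ) *
    ∫ x in a..b, Complex.exp (x * t * I - ((t ^ 2 / (2 * W ^ 2) : ℝ) : ℂ)) := by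
  unfold kap
  rw [mul_assoc, ← intervalIntegral.integral_const_mul]
  congr 1
  refine intervalIntegral.integral_congr fun x _ => ?_
  rw [Complex.ofReal_exp, ← Complex.exp_add]
  congr 1
  push_cast
  ring

theorem EFp_of {r : ℕ} [NeZero r] (χ : DirichletCharacter ℂ r) (T W K Y₀ T₁ : ℝ) (hW : 0 < W)
    (hT₁ : 0 < T₁) (hK : 0 ≤ K)
    (h : ∀ x t : ℝ, |x| ≤ T₁ → |t| ≤ Y₀ → ‖GX χ T W x t - (1 / (2 * Real.pi) : ℂ) *
        (Real.log r * Complex.exp (x * t * I - ((t ^ 2 / (2 * W ^ 2) : ℝ) : ℂ)) - PX χ W x t -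
          conj (PX χ W x (-t)))‖ ≤ K) :
    EFp χ T W (K * (2 * T₁)) Y₀ T₁ := by
  intro a b t ha hb hab ht
  have hP : Continuous fun x => PX χ W x t := PX_continuous_x χ W t hW
  have hP2 : Continuous fun x => conj (PX χ W x (-t)) :=
    Complex.continuous_conj.comp (PX_continuous_x χ W (-t) hW)
  have hG : Continuous fun x => GX χ T W x t := by
    unfold GX gz
    fun_prop
  have hE : Continuous fun x : ℝ => Complex.exp (x * t * I - ((t ^ 2 / (2 * W ^ 2) : ℝ) : ℂ)) := by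
    fun_prop
  have e1 : Gu χ T W a b t - ((Real.log r : ℂ) * kap W a b t - PU χ W a b t -
      conj (PU χ W a b (-t))) = ∫ x in a..b, (GX χ T W x t - (1 / (2 * Real.pi) : ℂ) *
        (Real.log r * Complex.exp (x * t * I - ((t ^ 2 / (2 * W ^ 2) : ℝ) : ℂ)) - PX χ W x t -
          conj (PX χ W x (-t)))) := by
    rw [intervalIntegral.integral_sub (hG.intervalIntegrable _ _)
      (Continuous.intervalIntegrable (by fun_prop) _ _), intervalIntegral.integral_const_mul,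
      intervalIntegral.integral_sub (Continuous.intervalIntegrable (by fun_prop) _ _)
        (hP2.intervalIntegrable _ _),
      intervalIntegral.integral_sub (Continuous.intervalIntegrable (by fun_prop) _ _)
        (hP.intervalIntegrable _ _), intervalIntegral.integral_const_mul, ← Gu_eq, kap_eq]
    unfold PU
    rw [map_mul]
    have e2 : conj (1 / (2 * Real.pi) : ℂ) = (1 / (2 * Real.pi) : ℂ) := by
      rw [map_div₀, map_mul, Complex.conj_ofReal, map_one]
      congr 2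
      exact Complex.conj_ofNat 2
    have e3 : conj (∫ x in a..b, PX χ W x (-t)) = ∫ x in a..b, conj (PX χ W x (-t)) := by
      rw [intervalIntegral.integral_of_le hab, intervalIntegral.integral_of_le hab]
      exact integral_conj.symm
    rw [e2, e3]
    ring
  rw [e1]
  have hbound : ∀ x ∈ Set.uIoc a b, ‖GX χ T W x t - (1 / (2 * Real.pi) : ℂ) *
        (Real.log r * Complex.exp (x * t * I - ((t ^ 2 / (2 * W ^ 2) : ℝ) : ℂ)) - PX χ W x t -
          conj (PX χ W x (-t)))‖ ≤ K := by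
    intro x hx
    rw [Set.uIoc_of_le hab] at hx
    have := abs_le.mp ha
    have := abs_le.mp hb
    exact h x t (abs_le.mpr ⟨by linarith [hx.1], by linarith [hx.2]⟩) ht
  refine (intervalIntegral.norm_integral_le_of_norm_le_const hbound).trans ?_
  rw [abs_of_nonneg (by linarith)]
  have := abs_le.mp ha
  have := abs_le.mp hb
  gcongr
  linarith

theorem EFp_holds (ε T₁ : ℝ) (hε : 0 < ε) (hε1 : ε ≤ 1) (hT₁ : 0 < T₁) :
    ∃ C₀ : ℝ, 0 < C₀ ∧ ∃ r₀ : ℕ, 3 ≤ r₀ ∧ ∀ (r : ℕ) [NeZero r], r₀ ≤ r →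
      ∀ χ ∈ prim r, ∃ T : ℝ, Real.log r ≤ T ∧ T ≤ Real.log r + 1 ∧
        EFp χ T (Real.log r ^ (1 / 2 - ε / 4 : ℝ)) C₀ (Real.log r ^ (2 - ε)) T₁ := by
  obtain ⟨C, hC, hEF⟩ := EF
  refine ⟨(C * (1 + T₁) + 1) * (2 * T₁), by positivity, ?_⟩
  -- the threshold
  set X : ℝ := max (2 * T₁) (max (96 * C) 100) with hX
  obtain ⟨r₀, hr₀⟩ := exists_nat_gt (Real.exp X)
  refine ⟨max r₀ 3, le_max_right _ _, ?_⟩
  intro r _ hr χ hχ
  have hr3 : 3 ≤ r := (le_max_right _ _).trans hr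
  have hr0 : (0 : ℝ) < r := by
    have : 0 < r := by omega
    exact_mod_cast this
  have hLX : X ≤ Real.log r := by
    rw [Real.le_log_iff_exp_le hr0]
    have h1 : (r₀ : ℝ) ≤ r := by exact_mod_cast (le_max_left _ _).trans hr
    linarith
  set L : ℝ := Real.log r with hL
  have hL1 : 2 * T₁ ≤ L := (le_max_left _ _).trans hLX
  have hL2 : 96 * C ≤ L := ((le_max_left _ _).trans (le_max_right _ _)).trans hLX
  have hL3 : 100 ≤ L := ((le_max_right _ _).trans (le_max_right _ _)).trans hLX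
  have hL0 : 0 < L := by linarith
  obtain ⟨T, hT0, hT1, hT⟩ := hEF r hr3 χ hχ L (by linarith)
  refine ⟨T, hT0, hT1, ?_⟩
  set W : ℝ := L ^ (1 / 2 - ε / 4 : ℝ) with hW
  have hW1 : 1 ≤ W := Real.one_le_rpow (by linarith) (by linarith)
  have hWL : W ≤ L := by
    calc W ≤ L ^ (1 : ℝ) := Real.rpow_le_rpow_of_exponent_le (by linarith) (by linarith)
      _ = L := Real.rpow_one L
  refine EFp_of χ T W (C * (1 + T₁) + 1) _ T₁ (by linarith) hT₁ (by positivity) ?_
  intro x t hx ht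
  refine (hT W x t hW1 (by linarith)).trans ?_
  have h1 : C * (1 + |x|) ≤ C * (1 + T₁) := by gcongr
  suffices h2 : C * W * (L + L) ^ 2 * Real.exp (W ^ 2 / 2 + |t| - W ^ 2 * L ^ 2 / 16) ≤ 1 by linarith
  set A : ℝ := L ^ (2 - ε) with hA
  have hW2 : W ^ 2 = L ^ (1 - ε / 2) := by
    rw [hW, ← Real.rpow_natCast, ← Real.rpow_mul hL0.le]
    congr 1
    push_cast
    ring
  have hAL : L ≤ A := by
    calc L = L ^ (1 : ℝ) := (Real.rpow_one L).symm
      _ ≤ L ^ (2 - ε) := Real.rpow_le_rpow_of_exponent_le (by linarith) (by linarith)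
  have hWA : W ^ 2 ≤ A := by
    rw [hW2]
    exact Real.rpow_le_rpow_of_exponent_le (by linarith) (by linarith)
  have hWLA : A * L ≤ W ^ 2 * L ^ 2 := by
    have e1 : A * L = L ^ (3 - ε) := by
      rw [hA]
      calc L ^ (2 - ε) * L = L ^ (2 - ε) * L ^ (1 : ℝ) := by rw [Real.rpow_one]
        _ = L ^ (2 - ε + 1) := (Real.rpow_add hL0 _ _).symm
        _ = L ^ (3 - ε) := by
            congr 1
            ring
    have e2 : W ^ 2 * L ^ 2 = L ^ (3 - ε / 2) := by
      rw [hW2]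
      calc L ^ (1 - ε / 2) * L ^ 2 = L ^ (1 - ε / 2) * L ^ (2 : ℝ) := by
            congr 1
            exact (Real.rpow_natCast L 2).symm
        _ = L ^ (1 - ε / 2 + 2) := (Real.rpow_add hL0 _ _).symm
        _ = L ^ (3 - ε / 2) := by
            congr 1
            ring
    rw [e1, e2]
    exact Real.rpow_le_rpow_of_exponent_le (by linarith) (by linarith)
  have hA0 : 0 < A := by linarith
  have h3 : W ^ 2 / 2 + |t| - W ^ 2 * L ^ 2 / 16 ≤ -L := by
    have : 100 * A ≤ A * L := by nlinarith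
    linarith
  have h4 : L ^ 4 / 24 ≤ Real.exp L := by
    have := Real.pow_div_factorial_le_exp L hL0.le 4
    have h5 : (Nat.factorial 4 : ℝ) = 24 := by norm_num [Nat.factorial]
    rwa [h5] at this
  have hexp : Real.exp L * Real.exp (-L) = 1 := by
    rw [← Real.exp_add, add_neg_cancel, Real.exp_zero]
  calc C * W * (L + L) ^ 2 * Real.exp (W ^ 2 / 2 + |t| - W ^ 2 * L ^ 2 / 16)
      ≤ C * L * (L + L) ^ 2 * Real.exp (-L) := by gcongr
    _ = (96 * C) * (L ^ 3 / 24) * Real.exp (-L) := by ring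
    _ ≤ L * (L ^ 3 / 24) * Real.exp (-L) := by gcongr
    _ = (L ^ 4 / 24) * Real.exp (-L) := by ring
    _ ≤ Real.exp L * Real.exp (-L) := by gcongr
    _ = 1 := hexp

end Pool.Agent.SK
end
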