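import Pool.Agent.Lib.MP_9cfc0a_nt.Mg.G012
import Pool.Agent.Lib.MP_9cfc0a_nt.SK.C1B
import Pool.Agent.Lib.MP_9cfc0a_nt.Mg.G013
import Pool.Agent.Lib.MP_9cfc0a_nt.Mg.G005
import Pool.Agent.Lib.MP_9cfc0a_nt.Mg.G010
import Pool.Agent.Lib.MP_9cfc0a_nt.Mg.G014

section

set_option autoImplicit false

namespace Pool.Agent.SK

open Complex MeasureTheory
open Pool.Agent.SO (prim NN)

private theorem C7A_mono (F : ℝ → ℂ) (hF : Continuous F) (a b c d : ℝ) (hca : c ≤ a) (hab : a ≤ b)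
    (hbd : b ≤ d) : ∫ x in a..b, ‖F x‖ ^ 2 ≤ ∫ x in c..d, ‖F x‖ ^ 2 := by
  refine intervalIntegral.integral_mono_interval hca hab hbd ?_ ?_
  · exact Filter.Eventually.of_forall fun x => by positivity
  · exact (hF.norm.pow 2).intervalIntegrable _ _

private theorem C7A_gen (F : ℝ × ℝ → ℂ) (hF : Continuous F) (T c d C D : ℝ) (hT : -T ≤ T) (hCc : C ≤ c)
    (hcd : c ≤ d) (hdD : d ≤ D) :
    ∫ x in (-T)..T, ∫ t in c..d, ‖F (x, t)‖ ^ 2 ≤ ∫ x in (-T)..T, ∫ t in C..D, ‖F (x, t)‖ ^ 2 := by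
  have hc : ∀ p q : ℝ, Continuous (fun x : ℝ => ∫ t in p..q, ‖F (x, t)‖ ^ 2) := by
    intro p q
    have h3 : Continuous (fun z : ℝ × ℝ => ‖F (z.1, z.2)‖ ^ 2) := hF.norm.pow 2
    exact intervalIntegral.continuous_parametric_intervalIntegral_of_continuous'
      (f := fun (x : ℝ) (t : ℝ) => ‖F (x, t)‖ ^ 2) h3 p q
  refine intervalIntegral.integral_mono_on hT ((hc c d).intervalIntegrable _ _)
    ((hc C D).intervalIntegrable _ _) ?_
  intro x _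
  exact C7A_mono (fun t => F (x, t)) (hF.comp (by fun_prop)) c d C D hCc hcd hdD

private theorem C7A_gen1 (F : ℝ × ℝ → ℂ) (hF : Continuous F) (a b T : ℝ) (ha : -T ≤ a) (hab : a ≤ b)
    (hb : b ≤ T) : ∫ x in a..b, ‖F (x, 0)‖ ^ 2 ≤ ∫ x in (-T)..T, ‖F (x, 0)‖ ^ 2 := by
  have h2 : Continuous (fun x : ℝ => ((x, 0) : ℝ × ℝ)) := by fun_prop
  exact C7A_mono (fun x => F (x, 0)) (hF.comp h2) a b (-T) T ha hab hb

/-- C7a. The small prime sums. PROOF. `L = log r`, `W = L^(1/2-ε/4)`, `[a, b] ⊆ [-T₀, T₀]`. `PU_sq_le` at `t = 0` and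
`hG.p0`; `PU_sq_int` with `c = -L²`, `d = L^(1/2)` and `hG.pr` (the two integrals over `t` in question are over
subintervals, the integrand is nonnegative; `Y ≤ L²`, `L^(1/2) ≤ L²`). -/
theorem good_PU (r : ℕ) [NeZero r] (hr : 3 ≤ r) (χ : DirichletCharacter ℂ r) (ε θ D T₀ a b : ℝ) (hε : 0 < ε)
    (hε1 : ε ≤ 1) (hG : Good χ ε θ D T₀) (hθ : 0 ≤ θ) (hab : a ≤ b) (ha : -T₀ ≤ a) (hb : b ≤ T₀) :
    ‖PU χ (Real.log r ^ (1 / 2 - ε / 4 : ℝ)) a b 0‖ ^ 2 ≤ (b - a) * (θ * Real.log r ^ 2) ∧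
    ∀ c d : ℝ, -(Real.log r ^ 2) ≤ c → c ≤ d → d ≤ Real.log r ^ (1 / 2 : ℝ) →
      ∫ t in c..d, ‖PU χ (Real.log r ^ (1 / 2 - ε / 4 : ℝ)) a b t‖ ^ 2 ≤ (b - a) * (θ * Real.log r ^ 2) := by
  have hL : 0 < Real.log r := Real.log_pos (by
    have : (3 : ℝ) ≤ r := by exact_mod_cast hr
    linarith)
  have hW : 0 < Real.log r ^ (1 / 2 - ε / 4 : ℝ) := Real.rpow_pos_of_pos hL _
  have hc := PX_continuous r χ _ hW
  have hba : 0 ≤ b - a := by linarith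
  have hT : -T₀ ≤ T₀ := by linarith
  refine ⟨?_, ?_⟩
  · refine (PU_sq_le r χ _ a b 0 hW hab).trans (mul_le_mul_of_nonneg_left ?_ hba)
    refine le_trans ?_ hG.p0
    exact C7A_gen1 (fun p : ℝ × ℝ => PX χ (Real.log r ^ (1 / 2 - ε / 4 : ℝ)) p.1 p.2) hc a b T₀ ha hab hb
  · intro c d hc1 hcd hd1
    refine (PU_sq_int r χ _ a b c d T₀ hW hab hcd ha hb).trans (mul_le_mul_of_nonneg_left ?_ hba)
    refine le_trans ?_ hG.pr
    exact C7A_gen (fun p : ℝ × ℝ => PX χ (Real.log r ^ (1 / 2 - ε / 4 : ℝ)) p.1 p.2) hc T₀ c d _ _ hT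
      hc1 hcd hd1

end Pool.Agent.SK
end

section

set_option autoImplicit false

namespace Pool.Agent.SK

open Complex MeasureTheory
open Pool.Agent.SO (prim NN)

theorem C6C_kap_cont (W a b : ℝ) : Continuous (fun t : ℝ => kap W a b t) := by
  unfold kap
  have h : Continuous (fun t : ℝ => ∫ x in a..b, Complex.exp ((x : ℂ) * t * I)) := by
    apply intervalIntegral.continuous_parametric_intervalIntegral_of_continuous' (by fun_prop)
  fun_prop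

theorem C6C_Gu_cont (r : ℕ) [NeZero r] (χ : DirichletCharacter ℂ r) (T W a b : ℝ) :
    Continuous (fun t : ℝ => Gu χ T W a b t) := by
  unfold Gu
  fun_prop

/-- The pointwise inequality. -/
theorem C6C_sq (G K p q c κ : ℝ) (hG : 0 ≤ G) (hκ : 0 < κ) (h : G ≤ K + (p + q + c)) :
    G ^ 2 ≤ (1 + κ) * K ^ 2 + (1 + 1 / κ) * (3 * (p ^ 2 + q ^ 2 + c ^ 2)) := by
  have h1 : G ^ 2 ≤ (K + (p + q + c)) ^ 2 := by
    have h0 : 0 ≤ K + (p + q + c) := le_trans hG h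
    nlinarith
  have h2 : (K + (p + q + c)) ^ 2 ≤ (1 + κ) * K ^ 2 + (1 + 1 / κ) * (p + q + c) ^ 2 := by
    have h3 : 0 ≤ (κ * K - (p + q + c)) ^ 2 / κ := by positivity
    have h4 : (κ * K - (p + q + c)) ^ 2 / κ = κ * K ^ 2 - 2 * K * (p + q + c) + 1 / κ * (p + q + c) ^ 2 := by
      field_simp
      ring
    nlinarith
  have h5 : (p + q + c) ^ 2 ≤ 3 * (p ^ 2 + q ^ 2 + c ^ 2) := by
    nlinarith [sq_nonneg (p - q), sq_nonneg (q - c), sq_nonneg (p - c)]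
  have h6 : 0 < 1 + 1 / κ := by positivity
  nlinarith [mul_le_mul_of_nonneg_left h5 h6.le]

/-- C6c. The spike. PROOF. `Gu = (log r) kap + e`, `‖e‖ ≤ ‖PU t‖ + ‖PU (-t)‖ + C₀` (`EFp`), so
`‖Gu‖² ≤ (1+κ) (log r)² ‖kap‖² + (1 + 1/κ) 3 (‖PU t‖² + ‖PU(-t)‖² + C₀²)`; `kap_half`, and
`∫_0^A (‖PU t‖² + ‖PU (-t)‖²) = ∫_{-A}^A ‖PU‖² ≤ P`. `0 ≤ 1 - t/Y ≤ 1`. -/
theorem spike (r : ℕ) [NeZero r] (χ : DirichletCharacter ℂ r) (T W C₀ Y₀ T₁ u h κ A Y P : ℝ) (hW : 0 < W)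
    (hA : 0 ≤ A) (hAY : A ≤ Y) (hY : 0 < Y) (hYY : Y ≤ Y₀) (hh : 0 ≤ h) (hκ : 0 < κ) (hC₀ : 0 ≤ C₀)
    (hEF : EFp χ T W C₀ Y₀ T₁) (hu : |u| + h ≤ T₁)
    (hP : ∫ t in (-A)..A, ‖PU χ W (u - h) (u + h) t‖ ^ 2 ≤ P) :
    ∫ t in (0 : ℝ)..A, (1 - t / Y) * ‖Gu χ T W (u - h) (u + h) t‖ ^ 2 ≤
      (1 + κ) * (Real.log r ^ 2 * (h / (2 * Real.pi))) + (1 + 1 / κ) * 3 * (P + C₀ ^ 2 * A) := by
  have hu' := abs_le.1 (show |u| ≤ T₁ - h by linarith)
  have ha : |u - h| ≤ T₁ := abs_le.2 ⟨by linarith [neg_abs_le u], by linarith [le_abs_self u]⟩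
  have hb : |u + h| ≤ T₁ := abs_le.2 ⟨by linarith [neg_abs_le u], by linarith [le_abs_self u]⟩
  have hlog : 0 ≤ Real.log r := Real.log_natCast_nonneg r
  set K : ℝ → ℝ := fun t => ‖kap W (u - h) (u + h) t‖ with hK
  set p : ℝ → ℝ := fun t => ‖PU χ W (u - h) (u + h) t‖ with hp
  set G : ℝ → ℝ := fun t => ‖Gu χ T W (u - h) (u + h) t‖ with hG
  have cK : Continuous K := (C6C_kap_cont W (u - h) (u + h)).norm
  have cp : Continuous p := (PU_continuous r χ W (u - h) (u + h) hW).norm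
  have cG : Continuous G := (C6C_Gu_cont r χ T W (u - h) (u + h)).norm
  have hpt : ∀ t : ℝ, 0 ≤ t → t ≤ A → G t ≤ Real.log r * K t + (p t + p (-t) + C₀) := by
    intro t ht0 htA
    have h1 := hEF (u - h) (u + h) t ha hb (by linarith) (abs_le.2 ⟨by linarith, by linarith⟩)
    have h2 : ‖Gu χ T W (u - h) (u + h) t‖ ≤
        ‖Gu χ T W (u - h) (u + h) t - ((Real.log r : ℂ) * kap W (u - h) (u + h) t - PU χ W (u - h) (u + h) t -
          (starRingEnd ℂ) (PU χ W (u - h) (u + h) (-t)))‖ + ‖((Real.log r : ℂ) * kap W (u - h) (u + h) t -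
          PU χ W (u - h) (u + h) t - (starRingEnd ℂ) (PU χ W (u - h) (u + h) (-t)))‖ := by
      have := norm_add_le (Gu χ T W (u - h) (u + h) t - ((Real.log r : ℂ) * kap W (u - h) (u + h) t -
        PU χ W (u - h) (u + h) t - (starRingEnd ℂ) (PU χ W (u - h) (u + h) (-t))))
        ((Real.log r : ℂ) * kap W (u - h) (u + h) t - PU χ W (u - h) (u + h) t -
          (starRingEnd ℂ) (PU χ W (u - h) (u + h) (-t)))
      rwa [sub_add_cancel] at this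
    have h3 : ‖((Real.log r : ℂ) * kap W (u - h) (u + h) t - PU χ W (u - h) (u + h) t -
        (starRingEnd ℂ) (PU χ W (u - h) (u + h) (-t)))‖ ≤ Real.log r * K t + p t + p (-t) := by
      refine le_trans (norm_sub_le _ _) ?_
      rw [Complex.norm_conj]
      refine add_le_add ?_ le_rfl
      refine le_trans (norm_sub_le _ _) ?_
      refine add_le_add ?_ le_rfl
      rw [norm_mul, show (Real.log r : ℂ) = ((Real.log r : ℝ) : ℂ) from rfl, Complex.norm_real,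
        Real.norm_of_nonneg hlog]
    have h4 : G t = ‖Gu χ T W (u - h) (u + h) t‖ := rfl
    linarith
  -- the pointwise bound for the integrand
  have hmono : ∫ t in (0 : ℝ)..A, (1 - t / Y) * G t ^ 2 ≤
      ∫ t in (0 : ℝ)..A, ((1 + κ) * (Real.log r ^ 2 * K t ^ 2) +
        (1 + 1 / κ) * 3 * (p t ^ 2 + p (-t) ^ 2 + C₀ ^ 2)) := by
    refine intervalIntegral.integral_mono_on hA ?_ ?_ ?_
    · exact Continuous.intervalIntegrable (by fun_prop) _ _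
    · exact Continuous.intervalIntegrable (by fun_prop) _ _
    · intro t ht
      have h1 := C6C_sq (G t) (Real.log r * K t) (p t) (p (-t)) C₀ κ (norm_nonneg _) hκ (hpt t ht.1 ht.2)
      have h2 : 1 - t / Y ≤ 1 := by
        have : 0 ≤ t / Y := div_nonneg ht.1 hY.le
        linarith
      have h3 : (1 - t / Y) * G t ^ 2 ≤ 1 * G t ^ 2 := mul_le_mul_of_nonneg_right h2 (sq_nonneg _)
      rw [mul_pow] at h1
      linarith
  refine le_trans hmono ?_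
  have i1 : IntervalIntegrable (fun t => (1 + κ) * (Real.log r ^ 2 * K t ^ 2)) volume 0 A :=
    Continuous.intervalIntegrable (by fun_prop) _ _
  have i2 : IntervalIntegrable (fun t => (1 + 1 / κ) * 3 * (p t ^ 2 + p (-t) ^ 2 + C₀ ^ 2)) volume 0 A :=
    Continuous.intervalIntegrable (by fun_prop) _ _
  have i3 : IntervalIntegrable (fun t => p t ^ 2) volume 0 A :=
    Continuous.intervalIntegrable (by fun_prop) _ _
  have i4 : IntervalIntegrable (fun t => p (-t) ^ 2) volume 0 A :=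
    Continuous.intervalIntegrable (by fun_prop) _ _
  have i5 : IntervalIntegrable (fun t => p t ^ 2 + p (-t) ^ 2) volume 0 A :=
    Continuous.intervalIntegrable (by fun_prop) _ _
  have i6 : IntervalIntegrable (fun _ : ℝ => C₀ ^ 2) volume 0 A :=
    Continuous.intervalIntegrable (by fun_prop) _ _
  rw [intervalIntegral.integral_add i1 i2, intervalIntegral.integral_const_mul,
    intervalIntegral.integral_const_mul, intervalIntegral.integral_const_mul,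
    intervalIntegral.integral_add i5 i6, intervalIntegral.integral_add i3 i4,
    intervalIntegral.integral_const]
  have h7 : ∫ t in (0 : ℝ)..A, p (-t) ^ 2 = ∫ t in (-A)..(0 : ℝ), p t ^ 2 := by
    have := intervalIntegral.integral_comp_neg (a := 0) (b := A) (fun t => p t ^ 2)
    simpa using this
  have h8 : (∫ t in (0 : ℝ)..A, p t ^ 2) + ∫ t in (0 : ℝ)..A, p (-t) ^ 2 ≤ P := by
    rw [h7, add_comm]
    have h9 := intervalIntegral.integral_add_adjacent_intervals (a := -A) (b := 0) (c := A)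
      (f := fun t => p t ^ 2) (μ := volume) (Continuous.intervalIntegrable (by fun_prop) _ _)
      (Continuous.intervalIntegrable (by fun_prop) _ _)
    rw [h9]
    exact hP
  have h10 := kap_half W u h A hW hh hA
  have h11 : Real.log r ^ 2 * (∫ t in (0 : ℝ)..A, K t ^ 2) ≤ Real.log r ^ 2 * (h / (2 * Real.pi)) :=
    mul_le_mul_of_nonneg_left h10 (sq_nonneg _)
  have h12 : (A - 0) • C₀ ^ 2 = C₀ ^ 2 * A := by rw [smul_eq_mul, sub_zero, mul_comm]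
  rw [h12]
  have h13 : 0 ≤ (1 + 1 / κ) * 3 := by positivity
  have h14 : 0 ≤ 1 + κ := by linarith
  refine add_le_add (mul_le_mul_of_nonneg_left h11 h14) (mul_le_mul_of_nonneg_left ?_ h13)
  linarith

end Pool.Agent.SK
end

section

set_option autoImplicit false

namespace Pool.Agent.SK

open Complex MeasureTheory
open Pool.Agent.SO (prim NN)

theorem C6D_kap_cont (W a b : ℝ) : Continuous (fun t : ℝ => kap W a b t) := by
  unfold kap
  have h : Continuous (fun t : ℝ => ∫ x in a..b, Complex.exp ((x : ℂ) * t * I)) := by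
    apply intervalIntegral.continuous_parametric_intervalIntegral_of_continuous' (by fun_prop)
  fun_prop

theorem C6D_Gu_cont (r : ℕ) [NeZero r] (χ : DirichletCharacter ℂ r) (T W a b : ℝ) :
    Continuous (fun t : ℝ => Gu χ T W a b t) := by
  unfold Gu
  fun_prop

/-- The pointwise inequality. -/
theorem C6D_sq (G K p q c κ : ℝ) (hG : 0 ≤ G) (hκ : 0 < κ) (h : G ≤ K + (p + q + c)) :
    G ^ 2 ≤ (1 + κ) * K ^ 2 + (1 + 1 / κ) * (3 * (p ^ 2 + q ^ 2 + c ^ 2)) := by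
  have h1 : G ^ 2 ≤ (K + (p + q + c)) ^ 2 := by
    have h0 : 0 ≤ K + (p + q + c) := le_trans hG h
    nlinarith
  have h2 : (K + (p + q + c)) ^ 2 ≤ (1 + κ) * K ^ 2 + (1 + 1 / κ) * (p + q + c) ^ 2 := by
    have h3 : 0 ≤ (κ * K - (p + q + c)) ^ 2 / κ := by positivity
    have h4 : (κ * K - (p + q + c)) ^ 2 / κ = κ * K ^ 2 - 2 * K * (p + q + c) + 1 / κ * (p + q + c) ^ 2 := by
      field_simp
      ring
    nlinarith
  have h5 : (p + q + c) ^ 2 ≤ 3 * (p ^ 2 + q ^ 2 + c ^ 2) := by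
    nlinarith [sq_nonneg (p - q), sq_nonneg (q - c), sq_nonneg (p - c)]
  have h6 : 0 < 1 + 1 / κ := by positivity
  nlinarith [mul_le_mul_of_nonneg_left h5 h6.le]

/-- C6d. The rest. PROOF. On `[A, Y]`: `Gu = -PU t + e`, `‖e‖² ≤ 3 ((log r)² ‖kap‖² + ‖PU (-t)‖² + C₀²)`;
`‖Gu‖² ≤ (1+κ) ‖PU‖² + (1 + 1/κ) ‖e‖²`; `0 ≤ 1 - t/Y ≤ 1`. -/
theorem outer (r : ℕ) [NeZero r] (χ : DirichletCharacter ℂ r) (T W C₀ Y₀ T₁ u h κ A Y P Q : ℝ) (hW : 0 < W)
    (hA : 0 ≤ A) (hAY : A ≤ Y) (hY : 0 < Y) (hYY : Y ≤ Y₀) (hh : 0 ≤ h) (hκ : 0 < κ) (hC₀ : 0 ≤ C₀)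
    (hEF : EFp χ T W C₀ Y₀ T₁) (hu : |u| + h ≤ T₁)
    (hP : ∫ t in (-Y)..(-A), ‖PU χ W (u - h) (u + h) t‖ ^ 2 ≤ P)
    (hQ : Real.log r ^ 2 * ∫ t in A..Y, ‖kap W (u - h) (u + h) t‖ ^ 2 ≤ Q) :
    ∫ t in A..Y, (1 - t / Y) * ‖Gu χ T W (u - h) (u + h) t‖ ^ 2 ≤
      (1 + κ) * (∫ t in A..Y, (1 - t / Y) * ‖PU χ W (u - h) (u + h) t‖ ^ 2) +
        (1 + 1 / κ) * 3 * (Q + P + C₀ ^ 2 * Y) := by
  have hu' := abs_le.1 (show |u| ≤ T₁ - h by linarith)
  have ha : |u - h| ≤ T₁ := abs_le.2 ⟨by linarith [neg_abs_le u], by linarith [le_abs_self u]⟩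
  have hb : |u + h| ≤ T₁ := abs_le.2 ⟨by linarith [neg_abs_le u], by linarith [le_abs_self u]⟩
  have hlog : 0 ≤ Real.log r := Real.log_natCast_nonneg r
  set K : ℝ → ℝ := fun t => ‖kap W (u - h) (u + h) t‖ with hK
  set p : ℝ → ℝ := fun t => ‖PU χ W (u - h) (u + h) t‖ with hp
  set G : ℝ → ℝ := fun t => ‖Gu χ T W (u - h) (u + h) t‖ with hG
  have cK : Continuous K := (C6D_kap_cont W (u - h) (u + h)).norm
  have cp : Continuous p := (PU_continuous r χ W (u - h) (u + h) hW).norm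
  have cG : Continuous G := (C6D_Gu_cont r χ T W (u - h) (u + h)).norm
  have hpt : ∀ t : ℝ, A ≤ t → t ≤ Y → G t ≤ p t + (Real.log r * K t + p (-t) + C₀) := by
    intro t ht0 htA
    have h1 := hEF (u - h) (u + h) t ha hb (by linarith) (abs_le.2 ⟨by linarith, by linarith⟩)
    have h2 : ‖Gu χ T W (u - h) (u + h) t‖ ≤
        ‖Gu χ T W (u - h) (u + h) t - ((Real.log r : ℂ) * kap W (u - h) (u + h) t - PU χ W (u - h) (u + h) t -
          (starRingEnd ℂ) (PU χ W (u - h) (u + h) (-t)))‖ + ‖((Real.log r : ℂ) * kap W (u - h) (u + h) t -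
          PU χ W (u - h) (u + h) t - (starRingEnd ℂ) (PU χ W (u - h) (u + h) (-t)))‖ := by
      have := norm_add_le (Gu χ T W (u - h) (u + h) t - ((Real.log r : ℂ) * kap W (u - h) (u + h) t -
        PU χ W (u - h) (u + h) t - (starRingEnd ℂ) (PU χ W (u - h) (u + h) (-t))))
        ((Real.log r : ℂ) * kap W (u - h) (u + h) t - PU χ W (u - h) (u + h) t -
          (starRingEnd ℂ) (PU χ W (u - h) (u + h) (-t)))
      rwa [sub_add_cancel] at this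
    have h3 : ‖((Real.log r : ℂ) * kap W (u - h) (u + h) t - PU χ W (u - h) (u + h) t -
        (starRingEnd ℂ) (PU χ W (u - h) (u + h) (-t)))‖ ≤ Real.log r * K t + p t + p (-t) := by
      refine le_trans (norm_sub_le _ _) ?_
      rw [Complex.norm_conj]
      refine add_le_add ?_ le_rfl
      refine le_trans (norm_sub_le _ _) ?_
      refine add_le_add ?_ le_rfl
      rw [norm_mul, show (Real.log r : ℂ) = ((Real.log r : ℝ) : ℂ) from rfl, Complex.norm_real,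
        Real.norm_of_nonneg hlog]
    have h4 : G t = ‖Gu χ T W (u - h) (u + h) t‖ := rfl
    linarith
  -- the pointwise bound for the integrand
  have hmono : ∫ t in A..Y, (1 - t / Y) * G t ^ 2 ≤
      ∫ t in A..Y, ((1 + κ) * ((1 - t / Y) * p t ^ 2) +
        (1 + 1 / κ) * 3 * (Real.log r ^ 2 * K t ^ 2 + p (-t) ^ 2 + C₀ ^ 2)) := by
    refine intervalIntegral.integral_mono_on hAY ?_ ?_ ?_
    · exact Continuous.intervalIntegrable (by fun_prop) _ _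
    · exact Continuous.intervalIntegrable (by fun_prop) _ _
    · intro t ht
      have h1 := C6D_sq (G t) (p t) (Real.log r * K t) (p (-t)) C₀ κ (norm_nonneg _) hκ (hpt t ht.1 ht.2)
      have h2 : 1 - t / Y ≤ 1 := by
        have : 0 ≤ t / Y := div_nonneg (le_trans hA ht.1) hY.le
        linarith
      have h20 : 0 ≤ 1 - t / Y := by
        have : t / Y ≤ 1 := (div_le_one hY).2 ht.2
        linarith
      have h3 : (1 - t / Y) * G t ^ 2 ≤ (1 - t / Y) * ((1 + κ) * p t ^ 2 +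
        (1 + 1 / κ) * (3 * ((Real.log r * K t) ^ 2 + p (-t) ^ 2 + C₀ ^ 2))) :=
          mul_le_mul_of_nonneg_left h1 h20
      have h4 : (1 - t / Y) * ((1 + 1 / κ) * (3 * ((Real.log r * K t) ^ 2 + p (-t) ^ 2 + C₀ ^ 2))) ≤
          1 * ((1 + 1 / κ) * (3 * ((Real.log r * K t) ^ 2 + p (-t) ^ 2 + C₀ ^ 2))) :=
        mul_le_mul_of_nonneg_right h2 (by positivity)
      rw [mul_pow] at h3 h4
      linarith
  refine le_trans hmono ?_
  have i1 : IntervalIntegrable (fun t => (1 + κ) * ((1 - t / Y) * p t ^ 2)) volume A Y :=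
    Continuous.intervalIntegrable (by fun_prop) _ _
  have i2 : IntervalIntegrable (fun t => (1 + 1 / κ) * 3 * (Real.log r ^ 2 * K t ^ 2 + p (-t) ^ 2 + C₀ ^ 2))
      volume A Y := Continuous.intervalIntegrable (by fun_prop) _ _
  have i3 : IntervalIntegrable (fun t => Real.log r ^ 2 * K t ^ 2) volume A Y :=
    Continuous.intervalIntegrable (by fun_prop) _ _
  have i4 : IntervalIntegrable (fun t => p (-t) ^ 2) volume A Y :=
    Continuous.intervalIntegrable (by fun_prop) _ _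
  have i5 : IntervalIntegrable (fun t => Real.log r ^ 2 * K t ^ 2 + p (-t) ^ 2) volume A Y :=
    Continuous.intervalIntegrable (by fun_prop) _ _
  have i6 : IntervalIntegrable (fun _ : ℝ => C₀ ^ 2) volume A Y :=
    Continuous.intervalIntegrable (by fun_prop) _ _
  rw [intervalIntegral.integral_add i1 i2, intervalIntegral.integral_const_mul,
    intervalIntegral.integral_const_mul, intervalIntegral.integral_add i5 i6,
    intervalIntegral.integral_add i3 i4, intervalIntegral.integral_const_mul,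
    intervalIntegral.integral_const]
  have h7 : ∫ t in A..Y, p (-t) ^ 2 = ∫ t in (-Y)..(-A), p t ^ 2 := by
    have := intervalIntegral.integral_comp_neg (a := A) (b := Y) (fun t => p t ^ 2)
    simpa using this
  rw [h7]
  have h12 : (Y - A) • C₀ ^ 2 ≤ C₀ ^ 2 * Y := by
    rw [smul_eq_mul, mul_comm]
    exact mul_le_mul_of_nonneg_left (by linarith) (sq_nonneg _)
  have h13 : 0 ≤ (1 + 1 / κ) * 3 := by positivity
  refine add_le_add le_rfl (mul_le_mul_of_nonneg_left ?_ h13)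
  exact add_le_add (add_le_add hQ hP) h12

end Pool.Agent.SK
end

section

set_option autoImplicit false

namespace Pool.Agent.SK

open Complex MeasureTheory
open Pool.Agent.SO (prim NN)

/-- C7b. Final numbers (pure real numbers). PROOF. `X = ∫_A^Y (1-t/Y)‖PU‖²`, `G₁ = ∫_0^A`, `G₂ = ∫_A^Y` of `(1-t/Y)‖Gu‖²`.
`(1+κ) X ≥ G₂ - (1+1/κ) 3 (1 + P + C₀² Y)`, `G₂ ≥ (Y/2)((h/π) L - η L - 6 p - 10 C₀ - 40) - G₁`,
`G₁ ≤ (1+κ) L² h/(2π) + (1+1/κ) 3 (P + C₀² A)`. With `p ≤ 2 √θ L`, `P ≤ 2 θ L²`, `L ≤ 2Y` (so `L² ≤ 2 L Y`), `A ≤ Y`: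
`(1+κ) X ≥ (h/2π)(L Y - L²) - E`,
`E ≤ (η/2) L Y + 6 √θ L Y + (5 C₀ + 20) Y + κ L² + (1+1/κ) (3 + 24 θ L Y + 6 C₀² Y)`. Let `η, κ = δ/20`-small, then `θ` small, then `L`
large: `E ≤ (δ/2) L Y`. If `B := (h/2π)(L Y - L²) - E ≤ 0` then `X ≥ 0 ≥ B` gives the claim; otherwise
`X ≥ B/(1+κ) ≥ B - κ B ≥ B - κ L Y` (`h/(2π) ≤ 1`). -/
theorem chain_final (h δ : ℝ) (hh : 0 < h) (hh1 : h ≤ 1) (hδ : 0 < δ) : ∃ η κ θ : ℝ, 0 < η ∧ η ≤ 1 / 2 ∧
    0 < κ ∧ κ ≤ 1 ∧ 0 < θ ∧ θ ≤ 1 / 100 ∧ ∀ C₀ : ℝ, 0 ≤ C₀ → ∃ L₀ : ℝ, 1 ≤ L₀ ∧ ∀ L Y A p P X G₁ G₂ : ℝ,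
      L₀ ≤ L → L ≤ 2 * Y → 0 ≤ A → A ≤ Y → 0 ≤ p → p ^ 2 ≤ 4 * θ * L ^ 2 → P ≤ 4 * θ * L ^ 2 → 0 ≤ X →
      Y / 2 * (h / Real.pi * L - η * L - 6 * p - 10 * C₀ - 40) ≤ G₁ + G₂ →
      G₁ ≤ (1 + κ) * (L ^ 2 * (h / (2 * Real.pi))) + (1 + 1 / κ) * 3 * (P + C₀ ^ 2 * A) →
      G₂ ≤ (1 + κ) * X + (1 + 1 / κ) * 3 * (1 + P + C₀ ^ 2 * Y) →
      h / (2 * Real.pi) * (L * Y - L ^ 2) - δ * (L * Y) ≤ X := by
  obtain ⟨m, hm0, hm1, hmδ⟩ : ∃ m : ℝ, 0 < m ∧ m ≤ 1 ∧ m ≤ δ :=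
    ⟨min 1 δ, lt_min one_pos hδ, min_le_left _ _, min_le_right _ _⟩
  obtain ⟨κ, hκ⟩ : ∃ κ : ℝ, κ = m / 10 := ⟨_, rfl⟩
  obtain ⟨s, hs⟩ : ∃ s : ℝ, s = κ * m / 1000 := ⟨_, rfl⟩
  have hκ0 : 0 < κ := by rw [hκ]; positivity
  have hκ1 : κ ≤ 1 / 10 := by rw [hκ]; linarith
  have hκδ : κ ≤ δ / 10 := by rw [hκ]; linarith
  have hs0 : 0 < s := by rw [hs]; positivity
  have hκm : κ * m ≤ 1 / 10 := by
    calc κ * m ≤ κ * 1 := mul_le_mul_of_nonneg_left hm1 hκ0.le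
      _ ≤ 1 / 10 := by linarith
  have hκm2 : κ * m ≤ δ / 10 := by
    calc κ * m ≤ κ * 1 := mul_le_mul_of_nonneg_left hm1 hκ0.le
      _ ≤ δ / 10 := by linarith
  have hs1 : s ≤ 1 / 1000 := by rw [hs]; linarith
  have hsδ : 6 * s ≤ δ / 10 := by rw [hs]; linarith
  refine ⟨m / 5, κ, s ^ 2, by positivity, by linarith, hκ0, by linarith, by positivity, ?_,
    fun C₀ hC => ?_⟩
  · calc s ^ 2 = s * s := pow_two s
      _ ≤ (1 / 1000) * (1 / 1000) := mul_le_mul hs1 hs1 hs0.le (by norm_num)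
      _ ≤ 1 / 100 := by norm_num
  obtain ⟨W, hW⟩ : ∃ W : ℝ, W = (1 + 1 / κ) * 3 := ⟨_, rfl⟩
  have hW0 : 0 < W := by rw [hW]; positivity
  have hWκ : W * κ ≤ 6 := by
    have e : W * κ = 3 * κ + 3 := by
      rw [hW]
      field_simp
    rw [e]; linarith
  obtain ⟨K, hK⟩ : ∃ K : ℝ, K = 5 * C₀ + 20 + W * (2 + 2 * C₀ ^ 2) := ⟨_, rfl⟩
  have hK0 : 0 < K := by rw [hK]; positivity
  refine ⟨1 + 10 * K / δ, by have : 0 < 10 * K / δ := by positivity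
                             linarith, ?_⟩
  intro L Y A p P X G₁ G₂ hL hLY hA0 hAY hp hp2 hP hX hG hG1 hG2
  have hLK : 10 * K / δ ≤ L := by linarith
  have hL1 : 1 ≤ L := by
    have : 0 < 10 * K / δ := by positivity
    linarith
  have hY0 : 0 < Y := by linarith
  have hKL : K ≤ δ / 10 * L := by
    rw [div_le_iff₀ hδ] at hLK
    linarith
  obtain ⟨H, hH⟩ : ∃ H : ℝ, H = h / (2 * Real.pi) := ⟨_, rfl⟩
  have hπ : 3 < Real.pi := Real.pi_gt_three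
  have hH0 : 0 < H := by rw [hH]; positivity
  have hH1 : H ≤ 1 / 2 := by
    rw [hH, div_le_iff₀ (by positivity)]
    linarith
  have hH2 : h / Real.pi = 2 * H := by
    rw [hH]
    field_simp
  rw [← hH] at hG1 ⊢
  rw [← hW] at hG1 hG2
  rw [hH2] at hG
  have hLL : L ^ 2 ≤ 2 * (L * Y) := by
    calc L ^ 2 = L * L := pow_two L
      _ ≤ L * (2 * Y) := mul_le_mul_of_nonneg_left hLY (by linarith)
      _ = 2 * (L * Y) := by ring
  have hLYp : 0 < L * Y := by positivity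
  have hps : p ≤ 2 * s * L := by
    have e : p ^ 2 ≤ (2 * s * L) ^ 2 := by
      calc p ^ 2 ≤ 4 * s ^ 2 * L ^ 2 := hp2
        _ = (2 * s * L) ^ 2 := by ring
    exact (pow_le_pow_iff_left₀ hp (by positivity) two_ne_zero).1 e
  have f1 : 3 * p * Y ≤ 6 * s * (L * Y) := by
    calc 3 * p * Y = 3 * Y * p := by ring
      _ ≤ 3 * Y * (2 * s * L) := mul_le_mul_of_nonneg_left hps (by linarith)
      _ = 6 * s * (L * Y) := by ring
  have f2 : W * P ≤ 8 * (W * s ^ 2) * (L * Y) := by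
    have e0 := mul_le_mul_of_nonneg_left hLL (sq_nonneg s)
    have e1 : P ≤ 8 * s ^ 2 * (L * Y) := by linarith
    calc W * P ≤ W * (8 * s ^ 2 * (L * Y)) := mul_le_mul_of_nonneg_left e1 hW0.le
      _ = 8 * (W * s ^ 2) * (L * Y) := by ring
  have f3 : W * (C₀ ^ 2 * A) ≤ W * (C₀ ^ 2 * Y) :=
    mul_le_mul_of_nonneg_left (mul_le_mul_of_nonneg_left hAY (sq_nonneg _)) hW0.le
  have f4 : W * 1 ≤ W * (2 * Y) := mul_le_mul_of_nonneg_left (by linarith) hW0.le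
  have f5 : κ * (L ^ 2 * H) ≤ κ * (L * Y) := by
    refine mul_le_mul_of_nonneg_left ?_ hκ0.le
    calc L ^ 2 * H ≤ (2 * (L * Y)) * H := mul_le_mul_of_nonneg_right hLL hH0.le
      _ ≤ (2 * (L * Y)) * (1 / 2) := mul_le_mul_of_nonneg_left hH1 (by positivity)
      _ = L * Y := by ring
  have f6 : K * Y ≤ δ / 10 * (L * Y) := by
    calc K * Y ≤ δ / 10 * L * Y := mul_le_mul_of_nonneg_right hKL hY0.le
      _ = δ / 10 * (L * Y) := by ring
  have f7 : 16 * (W * s ^ 2) ≤ δ / 10 := by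
    have e1 : W * s ^ 2 = W * κ * (m / 1000) * s := by
      rw [pow_two]
      nth_rewrite 1 [hs]
      ring
    have e2 : W * κ * (m / 1000) * s ≤ 6 * (1 / 1000) * s := by
      refine mul_le_mul_of_nonneg_right ?_ hs0.le
      exact mul_le_mul hWκ (by linarith) (by positivity) (by norm_num)
    rw [e1]
    linarith
  have f7' : 16 * (W * s ^ 2) * (L * Y) ≤ δ / 10 * (L * Y) := mul_le_mul_of_nonneg_right f7 hLYp.le
  have f8 : 6 * s * (L * Y) ≤ δ / 10 * (L * Y) := mul_le_mul_of_nonneg_right hsδ hLYp.le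
  have f9 : κ * (L * Y) ≤ δ / 10 * (L * Y) := mul_le_mul_of_nonneg_right hκδ hLYp.le
  have f10 : m / 10 * (L * Y) ≤ δ / 10 * (L * Y) :=
    mul_le_mul_of_nonneg_right (by linarith) hLYp.le
  have hKY : K * Y = (5 * C₀ + 20) * Y + W * (2 * Y) + 2 * (W * (C₀ ^ 2 * Y)) := by
    rw [hK]; ring
  have main : H * (L * Y - L ^ 2) - δ / 2 * (L * Y) ≤ (1 + κ) * X := by
    linarith [f1, f2, f3, f4, f5, f6, f7', f8, f9, f10, hKY, hG, hG1, hG2]
  have hB : H * (L * Y - L ^ 2) ≤ L * Y := by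
    have e1 : H * (L * Y - L ^ 2) ≤ H * (L * Y) :=
      mul_le_mul_of_nonneg_left (by linarith [sq_nonneg L]) hH0.le
    have e2 : H * (L * Y) ≤ 1 / 2 * (L * Y) := mul_le_mul_of_nonneg_right hH1 hLYp.le
    linarith
  by_contra hcon
  push Not at hcon
  have g1 : (1 + κ) * X < (1 + κ) * (H * (L * Y - L ^ 2) - δ * (L * Y)) :=
    mul_lt_mul_of_pos_left hcon (by linarith)
  have g2 : κ * (H * (L * Y - L ^ 2)) ≤ κ * (L * Y) := mul_le_mul_of_nonneg_left hB hκ0.le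
  have g3 : 0 ≤ κ * (δ * (L * Y)) := by positivity
  have g4 : 0 < δ * (L * Y) := by positivity
  linarith

end Pool.Agent.SK
end

section

set_option autoImplicit false

namespace Pool.Agent.SK

open Complex MeasureTheory
open Pool.Agent.SO (prim NN)

private theorem M1C_eq (T : ℝ) : (∫ u in (-T)..T, 1 / (1 / 4 + u ^ 2)) = 4 * Real.arctan (2 * T) := by
  have hd : ∀ u ∈ Set.uIcc (-T) T, HasDerivAt (fun u : ℝ => 2 * Real.arctan (2 * u)) (1 / (1 / 4 + u ^ 2)) u := by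
    intro u _
    have h1 : HasDerivAt (fun u : ℝ => 2 * u) 2 u := by
      simpa using (hasDerivAt_id u).const_mul (2 : ℝ)
    have h2 := ((Real.hasDerivAt_arctan (2 * u)).comp u h1).const_mul (2 : ℝ)
    have e : (2 : ℝ) * (1 / (1 + (2 * u) ^ 2) * 2) = 1 / (1 / 4 + u ^ 2) := by
      have p1 : (0 : ℝ) < 1 + (2 * u) ^ 2 := by positivity
      have p2 : (0 : ℝ) < 1 / 4 + u ^ 2 := by positivity
      field_simp
      ring
    rw [e] at h2
    exact h2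
  have hi : IntervalIntegrable (fun u : ℝ => 1 / (1 / 4 + u ^ 2)) MeasureTheory.volume (-T) T := by
    apply Continuous.intervalIntegrable
    refine continuous_const.div (by fun_prop) ?_
    intro u
    positivity
  rw [intervalIntegral.integral_eq_sub_of_hasDerivAt hd hi]
  have : Real.arctan (2 * -T) = - Real.arctan (2 * T) := by
    rw [show (2 : ℝ) * -T = -(2 * T) by ring, Real.arctan_neg]
  rw [this]
  ring

/-- M1c. PROOF. `1/(1/4 + u²) = 4/(1 + (2u)²)` has the primitive `2 arctan (2u)`, so the integral is `4 arctan (2 T)`, and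
`arctan → π/2` (`Real.tendsto_arctan_atTop`). Upper bound: `arctan < π/2`. -/
theorem weight_integral (δ : ℝ) (hδ : 0 < δ) : ∃ T : ℝ, 0 < T ∧
    2 * Real.pi - δ ≤ (∫ u in (-T)..T, 1 / (1 / 4 + u ^ 2)) ∧
    (∫ u in (-T)..T, 1 / (1 / 4 + u ^ 2)) ≤ 2 * Real.pi := by
  have h1 : Filter.Tendsto Real.arctan Filter.atTop (nhds (Real.pi / 2)) :=
    Real.tendsto_arctan_atTop.mono_right nhdsWithin_le_nhds
  have h2 : ∀ᶠ y in Filter.atTop, Real.pi / 2 - δ / 4 < Real.arctan y :=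
    h1.eventually (lt_mem_nhds (by linarith))
  obtain ⟨A, hA⟩ := (h2.and (Filter.eventually_gt_atTop (0 : ℝ))).exists
  refine ⟨A / 2, by linarith [hA.2], ?_, ?_⟩
  · rw [M1C_eq, show (2 : ℝ) * (A / 2) = A by ring]
    linarith [hA.1]
  · rw [M1C_eq]
    have := Real.arctan_lt_pi_div_two (2 * (A / 2))
    linarith

end Pool.Agent.SK
end

section

set_option autoImplicit false

namespace Pool.Agent.SK

open Complex MeasureTheory
open Pool.Agent.SO (prim NN)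

/-- M1d. PROOF. `W = L^(1/2-ε/4)`, `W √Y' = Y' W/√Y' ≤ Y' L^(-ε/4)` (`√Y' ≥ √L`). For large `L`: `2 L^(-ε/4) ≤ δ/2 ≤ 1/4`.
So `Y = Y' - 2 W √Y' ≥ (1 - δ/2) Y'`, `W² = L^(1-ε/2) ≤ L/2 ≤ Y`, `√Y ≤ √Y'`. -/
theorem choose_Y (ε δ : ℝ) (hε : 0 < ε) (hε1 : ε ≤ 1) (hδ : 0 < δ) (hδ1 : δ ≤ 1 / 2) : ∃ L₀ : ℝ, 1 ≤ L₀ ∧
    ∀ L Y' : ℝ, L₀ ≤ L → L ≤ Y' → ∃ Y : ℝ, L / 2 ≤ Y ∧ Y ≤ Y' ∧ (1 - δ) * Y' ≤ Y ∧
      (L ^ (1 / 2 - ε / 4 : ℝ)) ^ 2 ≤ Y ∧ Y + 2 * L ^ (1 / 2 - ε / 4 : ℝ) * Real.sqrt Y ≤ Y' := by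
  have h0 : Filter.Tendsto (fun L : ℝ => L ^ (-(ε / 4))) Filter.atTop (nhds 0) :=
    tendsto_rpow_neg_atTop (by positivity)
  have h1 : ∀ᶠ L : ℝ in Filter.atTop, L ^ (-(ε / 4)) < δ / 4 :=
    h0.eventually (gt_mem_nhds (by positivity))
  obtain ⟨L₀, hL₀⟩ := Filter.eventually_atTop.1 (h1.and (Filter.eventually_ge_atTop (1 : ℝ)))
  refine ⟨max L₀ 1, le_max_right _ _, ?_⟩
  intro L Y' hL hLY
  have hL1 : 1 ≤ L := le_trans (le_max_right _ _) hL
  have hsm : L ^ (-(ε / 4)) < δ / 4 := (hL₀ L (le_trans (le_max_left _ _) hL)).1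
  have hLp : 0 < L := by linarith
  have hYp : 0 < Y' := by linarith
  set W : ℝ := L ^ (1 / 2 - ε / 4 : ℝ) with hW
  have hWp : 0 < W := Real.rpow_pos_of_pos hLp _
  have hWe : W = Real.sqrt L * L ^ (-(ε / 4)) := by
    rw [hW, Real.sqrt_eq_rpow, ← Real.rpow_add hLp]
    congr 1
  have hs : 0 ≤ L ^ (-(ε / 4)) := (Real.rpow_pos_of_pos hLp _).le
  have hsq : Real.sqrt L ≤ Real.sqrt Y' := Real.sqrt_le_sqrt hLY
  have hW1 : W * Real.sqrt Y' ≤ Y' * (δ / 4) := by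
    rw [hWe]
    have h2 : Real.sqrt Y' * Real.sqrt Y' = Y' := Real.mul_self_sqrt hYp.le
    have h3 : Real.sqrt L * Real.sqrt Y' ≤ Y' := by
      calc Real.sqrt L * Real.sqrt Y' ≤ Real.sqrt Y' * Real.sqrt Y' :=
            mul_le_mul_of_nonneg_right hsq (Real.sqrt_nonneg _)
        _ = Y' := h2
    calc Real.sqrt L * L ^ (-(ε / 4)) * Real.sqrt Y' = (Real.sqrt L * Real.sqrt Y') * L ^ (-(ε / 4)) := by ring
      _ ≤ Y' * L ^ (-(ε / 4)) := mul_le_mul_of_nonneg_right h3 hs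
      _ ≤ Y' * (δ / 4) := mul_le_mul_of_nonneg_left hsm.le hYp.le
  have hW2 : W ^ 2 ≤ L / 2 := by
    rw [hWe, mul_pow, Real.sq_sqrt hLp.le]
    have h4 : (L ^ (-(ε / 4))) ^ 2 ≤ 1 / 2 := by
      have : L ^ (-(ε / 4)) ≤ 1 / 8 := by linarith
      nlinarith
    nlinarith
  refine ⟨Y' - 2 * (W * Real.sqrt Y'), ?_, ?_, ?_, ?_, ?_⟩
  · nlinarith
  · have : 0 ≤ W * Real.sqrt Y' := by positivity
    linarith
  · nlinarith
  · nlinarith
  · have h5 : 0 ≤ W * Real.sqrt Y' := by positivity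
    have h6 : Real.sqrt (Y' - 2 * (W * Real.sqrt Y')) ≤ Real.sqrt Y' := Real.sqrt_le_sqrt (by linarith)
    have h7 : W * Real.sqrt (Y' - 2 * (W * Real.sqrt Y')) ≤ W * Real.sqrt Y' :=
      mul_le_mul_of_nonneg_left h6 hWp.le
    linarith [h7]

end Pool.Agent.SK
end
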