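import Pool.Agent.Lib.MP_9cfc0a_nt.Mg.G016
import Pool.Agent.Lib.MP_9cfc0a_nt.Mg.G014
import Pool.Agent.Lib.MP_9cfc0a_nt.Mg.G012

section

set_option autoImplicit false

namespace Pool.Agent.SK

open Complex MeasureTheory
open Pool.Agent.SO (prim NN)

theorem C7C_Gu_cont {r : ℕ} [NeZero r] (χ : DirichletCharacter ℂ r) (T W a b : ℝ) :
    Continuous (fun t : ℝ => Gu χ T W a b t) := by
  unfold Gu
  fun_prop

theorem C7C_two_le {L : ℝ} (hL : 4 ≤ L) : 2 ≤ L ^ (1 / 2 : ℝ) := by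
  rw [← Real.sqrt_eq_rpow]
  exact Real.le_sqrt_of_sq_le (by linarith)

/-- C7. The chain. PROOF. `η, κ, θ` from `chain_final h δ`. Given `D`: `C₀, r₁` from `EFp_holds ε (T₀ + 2)`, `C, r₂` from `Z_count`,
`chain_numeric ε D C η 1` and, for `hQ`, the last item; `L₀` from `chain_final`; `r₀` large (`log r → ∞`). For `r ≥ r₀`: `L = log r`,
`W = L^(1/2-ε/4)`, `A = L^(1/2)`, `δ₀ = D log L/L`, `N = C L²`, `T ∈ [L, L+1]` from `EFp_holds`. The zeros in `Z χ T` have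
`|Im| ≤ L + 1 ≤ L + 2`, so `|Re| ≤ δ₀` (`hG.zf`, `mem_Z`) and `∑ mu ≤ N` (`Z_count`, `Z χ T ⊆ Z χ (L+2)`, `mu_nonneg`).
`good_PU` for `[u-h, u+h]` and `[u-h-2η, u+h+2η] ⊆ [-(T₀+2), T₀+2]` (`b - a ≤ 4`): `p = 2 √θ L ≤ L`, `P = 4 θ L²`; for
`∫_{-A}^A` and `∫_{-Y}^{-A}` (`Y ≤ L^(2-ε) ≤ L²`). `A ≤ Y` as `Y ≥ L/2 ≥ L^(1/2)` for large `L`. `G_lower` (`hs1`: `δ₀ Y ≤ δ₀ L^(2-ε)`),
`spike`, `outer` with `Q = 1` (`kap_tail`: `(2h)² Y e^{-A²/W²} L² ≤ 4 L⁴ e^{-L/W²} ≤ 1`: use `chain_numeric` with `κ = 1/4`),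
`intervalIntegral.integral_add_adjacent_intervals` (`G₁ + G₂` is the integral over `[0, Y]`; `Gu` is continuous in `t`), and
`chain_final`. -/
theorem chain (ε δ h T₀ : ℝ) (hε : 0 < ε) (hε1 : ε ≤ 1) (hδ : 0 < δ) (hh : 0 < h) (hh1 : h ≤ 1)
    (hT : 0 < T₀) : ∃ θ : ℝ, 0 < θ ∧ ∀ D : ℝ, 0 < D → ∃ r₀ : ℕ, 3 ≤ r₀ ∧ ∀ (r : ℕ) [NeZero r], r₀ ≤ r →
      ∀ χ ∈ prim r, Good χ ε θ D (T₀ + 2) → ∀ u : ℝ, |u| ≤ T₀ → ∀ Y : ℝ, Real.log r / 2 ≤ Y →
      Y ≤ Real.log r ^ (2 - ε) →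
      h / (2 * Real.pi) * (Real.log r * Y - Real.log r ^ 2) - δ * (Real.log r * Y) ≤
        ∫ t in (Real.log r ^ (1 / 2 : ℝ))..Y,
          (1 - t / Y) * ‖PU χ (Real.log r ^ (1 / 2 - ε / 4 : ℝ)) (u - h) (u + h) t‖ ^ 2 := by
  obtain ⟨η, κ, θ, hη, hη1, hκ, hκ1, hθ, hθ1, hfin⟩ := chain_final h δ hh hh1 hδ
  refine ⟨θ, hθ, fun D hD => ?_⟩
  obtain ⟨C₀, hC₀, r₁, hr₁, hEF⟩ := EFp_holds ε (T₀ + 2) hε hε1 (by linarith)
  obtain ⟨C, hC, r₂, hr₂, hZ⟩ := Z_count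
  obtain ⟨L₁, hL₁, hn₁⟩ := chain_numeric ε D C η 1 hε hε1 hD (by linarith) hη one_pos
  obtain ⟨L₂, hL₂, hn₂⟩ := chain_numeric ε D C η (1 / 4) hε hε1 hD (by linarith) hη (by norm_num)
  obtain ⟨L₀, hL₀, hf⟩ := hfin C₀ hC₀.le
  set M : ℝ := max (max L₁ L₂) (max L₀ 4) with hM
  refine ⟨max (max r₁ r₂) (max 3 ⌈Real.exp M⌉₊), ?_, ?_⟩
  · exact le_trans (le_max_left _ _) (le_max_right _ _)
  intro r _ hr χ hχ hG u hu Y hY1 hY2
  have hrr₁ : r₁ ≤ r := le_trans (le_trans (le_max_left _ _) (le_max_left _ _)) hr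
  have hrr₂ : r₂ ≤ r := le_trans (le_trans (le_max_right _ _) (le_max_left _ _)) hr
  have hr3 : 3 ≤ r := le_trans (le_trans (le_max_left _ _) (le_max_right _ _)) hr
  have hrM : ⌈Real.exp M⌉₊ ≤ r := le_trans (le_trans (le_max_right _ _) (le_max_right _ _)) hr
  have hrM' : Real.exp M ≤ (r : ℝ) := le_trans (Nat.le_ceil _) (by exact_mod_cast hrM)
  obtain ⟨T, hT1, hT2, hEFT⟩ := hEF r hrr₁ χ hχ
  set L : ℝ := Real.log r with hL
  have hML : M ≤ L := by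
    rw [hL, Real.le_log_iff_exp_le (by positivity)]
    exact hrM'
  have hLL₁ : L₁ ≤ L := le_trans (le_trans (le_max_left _ _) (le_max_left _ _)) hML
  have hLL₂ : L₂ ≤ L := le_trans (le_trans (le_max_right _ _) (le_max_left _ _)) hML
  have hLL₀ : L₀ ≤ L := le_trans (le_trans (le_max_left _ _) (le_max_right _ _)) hML
  have hL4 : 4 ≤ L := le_trans (le_trans (le_max_right _ _) (le_max_right _ _)) hML
  have hL0 : 0 < L := by linarith
  have hL1 : 1 ≤ L := by linarith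
  obtain ⟨hW1, hWδ, hs1, hs2, -⟩ := hn₁ L hLL₁
  obtain ⟨-, -, -, -, hq⟩ := hn₂ L hLL₂
  set W : ℝ := L ^ (1 / 2 - ε / 4 : ℝ) with hW
  set A : ℝ := L ^ (1 / 2 : ℝ) with hA
  have hA0 : 0 ≤ A := by positivity
  have hAsq : A ^ 2 = L := by
    rw [hA, ← Real.rpow_natCast, ← Real.rpow_mul hL0.le]
    norm_num
  have hA2 : 2 ≤ A := C7C_two_le hL4
  have hAL : A ≤ L / 2 := by
    have h := mul_le_mul_of_nonneg_left hA2 hA0
    rw [← sq, hAsq] at h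
    linarith
  have hAY : A ≤ Y := by linarith
  have hY0 : 0 < Y := by linarith
  have hYL : Y ≤ L ^ 2 := by
    refine hY2.trans ?_
    rw [← Real.rpow_natCast L 2]
    apply Real.rpow_le_rpow_of_exponent_le hL1
    push_cast
    linarith
  have hAL2 : A ≤ L ^ 2 := hAY.trans hYL
  set δ₀ : ℝ := D * Real.log L / L with hδ₀
  have hδ₀0 : 0 ≤ δ₀ := by
    have := Real.log_nonneg hL1
    positivity
  have hδ1 : ∀ w ∈ Z χ T, |w.re| ≤ δ₀ := by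
    intro w hw
    have hw' := (mem_Z r (by omega) χ hχ T w).1 hw
    exact hG.zf w hw'.1 (by linarith [hw'.2])
  have hN : ∑ w ∈ Z χ T, mu χ w ≤ C * L ^ 2 := by
    refine le_trans ?_ (hZ r hrr₂ χ hχ)
    refine Finset.sum_le_sum_of_subset_of_nonneg ?_ (fun w _ _ => mu_nonneg r χ w)
    intro w hw
    rw [mem_Z r (by omega) χ hχ] at hw ⊢
    exact ⟨hw.1, by linarith [hw.2]⟩
  have hu' := abs_le.mp hu
  have hsθ : Real.sqrt θ ≤ 1 / 10 := by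
    rw [Real.sqrt_le_left (by norm_num)]
    linarith
  have hsθ0 : 0 ≤ Real.sqrt θ := Real.sqrt_nonneg θ
  have hsθ2 : Real.sqrt θ ^ 2 = θ := Real.sq_sqrt hθ.le
  set p : ℝ := 2 * Real.sqrt θ * L with hp
  have hp0 : 0 ≤ p := by positivity
  have hp2 : p ^ 2 = 4 * θ * L ^ 2 := by
    rw [hp, mul_pow, mul_pow, hsθ2]
    ring
  have hpL : p ≤ L := by
    rw [hp]
    calc 2 * Real.sqrt θ * L ≤ 1 * L := mul_le_mul_of_nonneg_right (by linarith) hL0.le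
      _ = L := one_mul L
  have hθL : 0 ≤ θ * L ^ 2 := by positivity
  obtain ⟨g1, g2⟩ := good_PU r hr3 χ ε θ D (T₀ + 2) (u - h) (u + h) hε hε1 hG hθ.le (by linarith)
    (by linarith) (by linarith)
  obtain ⟨g3, -⟩ := good_PU r hr3 χ ε θ D (T₀ + 2) (u - h - 2 * η) (u + h + 2 * η) hε hε1 hG hθ.le
    (by linarith) (by linarith) (by linarith)
  have hb1 : u + h - (u - h) ≤ 4 := by linarith
  have hb3' : u + h + 2 * η - (u - h - 2 * η) ≤ 4 := by linarith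
  have e1 : (u + h - (u - h)) * (θ * L ^ 2) ≤ 4 * θ * L ^ 2 :=
    (mul_le_mul_of_nonneg_right hb1 hθL).trans (le_of_eq (by ring))
  have e3 : (u + h + 2 * η - (u - h - 2 * η)) * (θ * L ^ 2) ≤ 4 * θ * L ^ 2 :=
    (mul_le_mul_of_nonneg_right hb3' hθL).trans (le_of_eq (by ring))
  have hp1' : ‖PU χ W (u - h) (u + h) 0‖ ≤ p := by
    rw [← pow_le_pow_iff_left₀ (norm_nonneg _) hp0 two_ne_zero]
    rw [hp2]
    exact g1.trans e1
  have hp2' : ‖PU χ W (u - h - 2 * η) (u + h + 2 * η) 0‖ ≤ p := by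
    rw [← pow_le_pow_iff_left₀ (norm_nonneg _) hp0 two_ne_zero]
    rw [hp2]
    exact g3.trans e3
  have hP1 : ∫ t in (-A)..A, ‖PU χ W (u - h) (u + h) t‖ ^ 2 ≤ 4 * θ * L ^ 2 :=
    (g2 (-A) A (by linarith) (by linarith) le_rfl).trans e1
  have hP2 : ∫ t in (-Y)..(-A), ‖PU χ W (u - h) (u + h) t‖ ^ 2 ≤ 4 * θ * L ^ 2 :=
    (g2 (-Y) (-A) (by linarith) (by linarith) (by linarith)).trans e1
  have hQ : L ^ 2 * ∫ t in A..Y, ‖kap W (u - h) (u + h) t‖ ^ 2 ≤ 1 := by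
    have ht := kap_tail W (u - h) (u + h) A Y (by linarith) (by linarith) hA0 hAY
    rw [hAsq] at ht
    have hE : 0 < Real.exp (-(L / W ^ 2)) := Real.exp_pos _
    have h1 : (u + h - (u - h)) ^ 2 * Y * Real.exp (-(L / W ^ 2)) ≤
        4 * L ^ 2 * Real.exp (-(L / W ^ 2)) := by
      apply mul_le_mul_of_nonneg_right _ hE.le
      have h2 : (u + h - (u - h)) ^ 2 ≤ 4 := by
        have h3 : u + h - (u - h) = 2 * h := by ring
        rw [h3]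
        have h4 := pow_le_pow_left₀ (by linarith : 0 ≤ 2 * h) (by linarith : 2 * h ≤ 2) 2
        exact h4.trans (by norm_num)
      exact mul_le_mul h2 hYL hY0.le (by norm_num)
    calc L ^ 2 * ∫ t in A..Y, ‖kap W (u - h) (u + h) t‖ ^ 2
        ≤ L ^ 2 * (4 * L ^ 2 * Real.exp (-(L / W ^ 2))) :=
          mul_le_mul_of_nonneg_left (ht.trans h1) (by positivity)
      _ = 4 * (L ^ 4 * Real.exp (-(L / W ^ 2))) := by ring
      _ ≤ 1 := by linarith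
  have hs1' : L * (C * L ^ 2) * Real.exp (-(W ^ 2 * η ^ 2 / 2) + δ₀ * Y) ≤ 1 := by
    refine le_trans ?_ hs1
    apply mul_le_mul_of_nonneg_left _ (by positivity)
    apply Real.exp_le_exp.mpr
    have := mul_le_mul_of_nonneg_left hY2 hδ₀0
    linarith
  have hGl := G_lower r hr3 χ hχ T W C₀ (L ^ (2 - ε)) (T₀ + 2) u h η δ₀ (C * L ^ 2) Y p hW1 hY0 hY2
    hh.le hh1 hη.le (by linarith) hδ₀0 hδ1 hWδ hN hEFT hC₀.le (by linarith) hp1' hp2' hpL hs1' hs2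
  have hsp := spike r χ T W C₀ (L ^ (2 - ε)) (T₀ + 2) u h κ A Y (4 * θ * L ^ 2) (by linarith) hA0
    hAY hY0 hY2 hh.le hκ hC₀.le hEFT (by linarith) hP1
  have hou := outer r χ T W C₀ (L ^ (2 - ε)) (T₀ + 2) u h κ A Y (4 * θ * L ^ 2) 1 (by linarith) hA0
    hAY hY0 hY2 hh.le hκ hC₀.le hEFT (by linarith) hP2 hQ
  have hcont : Continuous (fun t : ℝ => (1 - t / Y) * ‖Gu χ T W (u - h) (u + h) t‖ ^ 2) := by
    have := C7C_Gu_cont χ T W (u - h) (u + h)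
    fun_prop
  have hadd := intervalIntegral.integral_add_adjacent_intervals
    (hcont.intervalIntegrable (μ := volume) 0 A) (hcont.intervalIntegrable (μ := volume) A Y)
  rw [← hadd] at hGl
  refine hf L Y A p (4 * θ * L ^ 2)
    (∫ t in A..Y, (1 - t / Y) * ‖PU χ W (u - h) (u + h) t‖ ^ 2) _ _ hLL₀ (by linarith) hA0 hAY hp0
    hp2.le le_rfl ?_ hGl hsp hou
  apply intervalIntegral.integral_nonneg hAY
  intro t ht
  have : 0 ≤ 1 - t / Y := by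
    rw [sub_nonneg, div_le_one hY0]
    exact ht.2
  positivity

end Pool.Agent.SK
end

section

set_option autoImplicit false

/-! Task LD: the chain. -/

namespace Pool.Agent.SD

open Complex MeasureTheory
open Pool.Agent.SK
open Pool.Agent.SO (prim NN)

/-- LD. PROOF. As `chain` in SK/C7C.lean (copy it), with `chain_final2`, `G_lower2` in place of `chain_final`, `G_lower`; the height `T` of
the explicit formula is in `[L, L + 1]` and `L ≥ T₀ + 2 ≥ |u| + h + η` (take `r` larger), so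
`NU (GZ χ T) (h + η) u = NU (GZ χ (T₀ + 2)) (h + η) u` by `band_eq`. `NU` is a cast natural number, so nonnegative. -/
theorem chain2 (ε δ h T₀ : ℝ) (hε : 0 < ε) (hε1 : ε ≤ 1) (hδ : 0 < δ) (hh : 0 < h) (hh1 : h ≤ 1)
    (hT : 0 < T₀) : ∃ η θ : ℝ, 0 < η ∧ η ≤ 1 / 2 ∧ η ≤ δ * h ∧ 0 < θ ∧ ∀ D : ℝ, 0 < D → ∃ r₀ : ℕ, 3 ≤ r₀ ∧
      ∀ (r : ℕ) [NeZero r], r₀ ≤ r →
      ∀ χ ∈ prim r, Good χ ε θ D (T₀ + 2) → ∀ u : ℝ, |u| ≤ T₀ → ∀ Y : ℝ, Real.log r / 2 ≤ Y →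
      Y ≤ Real.log r ^ (2 - ε) →
      h / (2 * Real.pi) * (2 * (Real.log r * Y) - Real.log r ^ 2) - Y / 2 * NU (GZ χ (T₀ + 2)) (h + η) u -
          δ * (Real.log r * Y) ≤
        ∫ t in (Real.log r ^ (1 / 2 : ℝ))..Y,
          (1 - t / Y) * ‖PU χ (Real.log r ^ (1 / 2 - ε / 4 : ℝ)) (u - h) (u + h) t‖ ^ 2 := by
  obtain ⟨η, κ, θ, hη, hη1, hηδ, hκ, hκ1, hθ, hθ1, hfin⟩ := chain_final2 h δ hh hh1 hδ
  refine ⟨η, θ, hη, hη1, hηδ, hθ, fun D hD => ?_⟩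
  obtain ⟨C₀, hC₀, r₁, hr₁, hEF⟩ := EFp_holds ε (T₀ + 2) hε hε1 (by linarith)
  obtain ⟨C, hC, r₂, hr₂, hZ⟩ := Z_count
  obtain ⟨L₁, hL₁, hn₁⟩ := chain_numeric ε D C η 1 hε hε1 hD (by linarith) hη one_pos
  obtain ⟨L₂, hL₂, hn₂⟩ := chain_numeric ε D C η (1 / 4) hε hε1 hD (by linarith) hη (by norm_num)
  obtain ⟨L₀, hL₀, hf⟩ := hfin C₀ hC₀.le
  set M : ℝ := max (max (max L₁ L₂) (max L₀ 4)) (T₀ + 2) with hM
  refine ⟨max (max r₁ r₂) (max 3 ⌈Real.exp M⌉₊), ?_, ?_⟩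
  · exact le_trans (le_max_left _ _) (le_max_right _ _)
  intro r _ hr χ hχ hG u hu Y hY1 hY2
  have hrr₁ : r₁ ≤ r := le_trans (le_trans (le_max_left _ _) (le_max_left _ _)) hr
  have hrr₂ : r₂ ≤ r := le_trans (le_trans (le_max_right _ _) (le_max_left _ _)) hr
  have hr3 : 3 ≤ r := le_trans (le_trans (le_max_left _ _) (le_max_right _ _)) hr
  have hrM : ⌈Real.exp M⌉₊ ≤ r := le_trans (le_trans (le_max_right _ _) (le_max_right _ _)) hr
  have hrM' : Real.exp M ≤ (r : ℝ) := le_trans (Nat.le_ceil _) (by exact_mod_cast hrM)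
  obtain ⟨T, hT1, hT2, hEFT⟩ := hEF r hrr₁ χ hχ
  set L : ℝ := Real.log r with hL
  have hML : M ≤ L := by
    rw [hL, Real.le_log_iff_exp_le (by positivity)]
    exact hrM'
  have hML' : max (max L₁ L₂) (max L₀ 4) ≤ L := le_trans (le_max_left _ _) hML
  have hLT : T₀ + 2 ≤ L := le_trans (le_max_right _ _) hML
  have hLL₁ : L₁ ≤ L := le_trans (le_trans (le_max_left _ _) (le_max_left _ _)) hML'
  have hLL₂ : L₂ ≤ L := le_trans (le_trans (le_max_right _ _) (le_max_left _ _)) hML'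
  have hLL₀ : L₀ ≤ L := le_trans (le_trans (le_max_left _ _) (le_max_right _ _)) hML'
  have hL4 : 4 ≤ L := le_trans (le_trans (le_max_right _ _) (le_max_right _ _)) hML'
  have hL0 : 0 < L := by linarith
  have hL1 : 1 ≤ L := by linarith
  obtain ⟨hW1, hWδ, hs1, hs2, -⟩ := hn₁ L hLL₁
  obtain ⟨-, -, -, -, hq⟩ := hn₂ L hLL₂
  set W : ℝ := L ^ (1 / 2 - ε / 4 : ℝ) with hW
  set A : ℝ := L ^ (1 / 2 : ℝ) with hA
  have hA0 : 0 ≤ A := by positivity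
  have hAsq : A ^ 2 = L := by
    rw [hA, ← Real.rpow_natCast, ← Real.rpow_mul hL0.le]
    norm_num
  have hA2 : 2 ≤ A := C7C_two_le hL4
  have hAL : A ≤ L / 2 := by
    have h := mul_le_mul_of_nonneg_left hA2 hA0
    rw [← sq, hAsq] at h
    linarith
  have hAY : A ≤ Y := by linarith
  have hY0 : 0 < Y := by linarith
  have hYL : Y ≤ L ^ 2 := by
    refine hY2.trans ?_
    rw [← Real.rpow_natCast L 2]
    apply Real.rpow_le_rpow_of_exponent_le hL1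
    push_cast
    linarith
  have hAL2 : A ≤ L ^ 2 := hAY.trans hYL
  set δ₀ : ℝ := D * Real.log L / L with hδ₀
  have hδ₀0 : 0 ≤ δ₀ := by
    have := Real.log_nonneg hL1
    positivity
  have hδ1 : ∀ w ∈ Z χ T, |w.re| ≤ δ₀ := by
    intro w hw
    have hw' := (mem_Z r (by omega) χ hχ T w).1 hw
    exact hG.zf w hw'.1 (by linarith [hw'.2])
  have hN : ∑ w ∈ Z χ T, mu χ w ≤ C * L ^ 2 := by
    refine le_trans ?_ (hZ r hrr₂ χ hχ)
    refine Finset.sum_le_sum_of_subset_of_nonneg ?_ (fun w _ _ => mu_nonneg r χ w)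
    intro w hw
    rw [mem_Z r (by omega) χ hχ] at hw ⊢
    exact ⟨hw.1, by linarith [hw.2]⟩
  have hu' := abs_le.mp hu
  have hsθ : Real.sqrt θ ≤ 1 / 10 := by
    rw [Real.sqrt_le_left (by norm_num)]
    linarith
  have hsθ0 : 0 ≤ Real.sqrt θ := Real.sqrt_nonneg θ
  have hsθ2 : Real.sqrt θ ^ 2 = θ := Real.sq_sqrt hθ.le
  set p : ℝ := 2 * Real.sqrt θ * L with hp
  have hp0 : 0 ≤ p := by positivity
  have hp2 : p ^ 2 = 4 * θ * L ^ 2 := by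
    rw [hp, mul_pow, mul_pow, hsθ2]
    ring
  have hpL : p ≤ L := by
    rw [hp]
    calc 2 * Real.sqrt θ * L ≤ 1 * L := mul_le_mul_of_nonneg_right (by linarith) hL0.le
      _ = L := one_mul L
  have hθL : 0 ≤ θ * L ^ 2 := by positivity
  obtain ⟨g1, g2⟩ := good_PU r hr3 χ ε θ D (T₀ + 2) (u - h) (u + h) hε hε1 hG hθ.le (by linarith)
    (by linarith) (by linarith)
  obtain ⟨g3, -⟩ := good_PU r hr3 χ ε θ D (T₀ + 2) (u - h - 2 * η) (u + h + 2 * η) hε hε1 hG hθ.le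
    (by linarith) (by linarith) (by linarith)
  have hb1 : u + h - (u - h) ≤ 4 := by linarith
  have hb3' : u + h + 2 * η - (u - h - 2 * η) ≤ 4 := by linarith
  have e1 : (u + h - (u - h)) * (θ * L ^ 2) ≤ 4 * θ * L ^ 2 :=
    (mul_le_mul_of_nonneg_right hb1 hθL).trans (le_of_eq (by ring))
  have e3 : (u + h + 2 * η - (u - h - 2 * η)) * (θ * L ^ 2) ≤ 4 * θ * L ^ 2 :=
    (mul_le_mul_of_nonneg_right hb3' hθL).trans (le_of_eq (by ring))
  have hp1' : ‖PU χ W (u - h) (u + h) 0‖ ≤ p := by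
    rw [← pow_le_pow_iff_left₀ (norm_nonneg _) hp0 two_ne_zero]
    rw [hp2]
    exact g1.trans e1
  have hp2' : ‖PU χ W (u - h - 2 * η) (u + h + 2 * η) 0‖ ≤ p := by
    rw [← pow_le_pow_iff_left₀ (norm_nonneg _) hp0 two_ne_zero]
    rw [hp2]
    exact g3.trans e3
  have hP1 : ∫ t in (-A)..A, ‖PU χ W (u - h) (u + h) t‖ ^ 2 ≤ 4 * θ * L ^ 2 :=
    (g2 (-A) A (by linarith) (by linarith) le_rfl).trans e1
  have hP2 : ∫ t in (-Y)..(-A), ‖PU χ W (u - h) (u + h) t‖ ^ 2 ≤ 4 * θ * L ^ 2 :=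
    (g2 (-Y) (-A) (by linarith) (by linarith) (by linarith)).trans e1
  have hQ : L ^ 2 * ∫ t in A..Y, ‖kap W (u - h) (u + h) t‖ ^ 2 ≤ 1 := by
    have ht := kap_tail W (u - h) (u + h) A Y (by linarith) (by linarith) hA0 hAY
    rw [hAsq] at ht
    have hE : 0 < Real.exp (-(L / W ^ 2)) := Real.exp_pos _
    have h1 : (u + h - (u - h)) ^ 2 * Y * Real.exp (-(L / W ^ 2)) ≤
        4 * L ^ 2 * Real.exp (-(L / W ^ 2)) := by
      apply mul_le_mul_of_nonneg_right _ hE.le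
      have h2 : (u + h - (u - h)) ^ 2 ≤ 4 := by
        have h3 : u + h - (u - h) = 2 * h := by ring
        rw [h3]
        have h4 := pow_le_pow_left₀ (by linarith : 0 ≤ 2 * h) (by linarith : 2 * h ≤ 2) 2
        exact h4.trans (by norm_num)
      exact mul_le_mul h2 hYL hY0.le (by norm_num)
    calc L ^ 2 * ∫ t in A..Y, ‖kap W (u - h) (u + h) t‖ ^ 2
        ≤ L ^ 2 * (4 * L ^ 2 * Real.exp (-(L / W ^ 2))) :=
          mul_le_mul_of_nonneg_left (ht.trans h1) (by positivity)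
      _ = 4 * (L ^ 4 * Real.exp (-(L / W ^ 2))) := by ring
      _ ≤ 1 := by linarith
  have hs1' : L * (C * L ^ 2) * Real.exp (-(W ^ 2 * η ^ 2 / 2) + δ₀ * Y) ≤ 1 := by
    refine le_trans ?_ hs1
    apply mul_le_mul_of_nonneg_left _ (by positivity)
    apply Real.exp_le_exp.mpr
    have := mul_le_mul_of_nonneg_left hY2 hδ₀0
    linarith
  have hGl := G_lower2 r hr3 χ hχ T W C₀ (L ^ (2 - ε)) (T₀ + 2) u h η δ₀ (C * L ^ 2) Y p hW1 hY0 hY2
    hh.le hh1 hη.le (by linarith) hδ₀0 hδ1 hWδ hN hEFT hC₀.le (by linarith) hp1' hp2' hpL hs1' hs2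
  have hsp := spike r χ T W C₀ (L ^ (2 - ε)) (T₀ + 2) u h κ A Y (4 * θ * L ^ 2) (by linarith) hA0
    hAY hY0 hY2 hh.le hκ hC₀.le hEFT (by linarith) hP1
  have hou := outer r χ T W C₀ (L ^ (2 - ε)) (T₀ + 2) u h κ A Y (4 * θ * L ^ 2) 1 (by linarith) hA0
    hAY hY0 hY2 hh.le hκ hC₀.le hEFT (by linarith) hP2 hQ
  have hcont : Continuous (fun t : ℝ => (1 - t / Y) * ‖Gu χ T W (u - h) (u + h) t‖ ^ 2) := by
    have := C7C_Gu_cont χ T W (u - h) (u + h)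
    fun_prop
  have hadd := intervalIntegral.integral_add_adjacent_intervals
    (hcont.intervalIntegrable (μ := volume) 0 A) (hcont.intervalIntegrable (μ := volume) A Y)
  rw [← hadd] at hGl
  rw [band_eq r (by omega) χ hχ (T₀ + 2) T (h + η) u (by linarith) (by linarith)]
  refine hf L Y A p (4 * θ * L ^ 2)
    (∫ t in A..Y, (1 - t / Y) * ‖PU χ W (u - h) (u + h) t‖ ^ 2) _ _ (NU (GZ χ T) (h + η) u) hLL₀
    (by linarith) hA0 hAY hp0 hp2.le le_rfl ?_ (Nat.cast_nonneg _) hGl hsp hou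
  apply intervalIntegral.integral_nonneg hAY
  intro t ht
  have : 0 ≤ 1 - t / Y := by
    rw [sub_nonneg, div_le_one hY0]
    exact ht.2
  positivity

end Pool.Agent.SD
end
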