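import Pool.Agent.Lib.MP_9cfc0a_nt.Mg.G011
import Pool.Agent.Lib.MP_9cfc0a_nt.Mg.G017
import Pool.Agent.Lib.MP_9cfc0a_nt.Mg.G012
import Pool.Agent.Lib.MP_9cfc0a_nt.Mg.G013
import Pool.Agent.Lib.MP_9cfc0a_nt.SD.Defs

section

set_option autoImplicit false

/-! Part A: mean square of `PX` over the primitive characters. -/

namespace Pool.Agent.SK

open Complex MeasureTheory
open Pool.Agent.EM (psiC)
open Pool.Agent.SO (prim NN)

/-- Gaussian integral over a shifted line -/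
theorem gauss_shift (W a c : ℝ) (hW : 0 < W) (hc : 0 < c) :
    Integrable (fun v : ℝ => Real.exp (-((a - v) ^ 2 / (c * W ^ 2)))) ∧
    ∫ v : ℝ, Real.exp (-((a - v) ^ 2 / (c * W ^ 2))) = Real.sqrt (Real.pi * c) * W := by
  have h := integrable_exp_neg_mul_sq (b := 1 / (c * W ^ 2)) (by positivity)
  have e : ∀ v : ℝ, Real.exp (-((a - v) ^ 2 / (c * W ^ 2))) = Real.exp (-(1 / (c * W ^ 2)) * (a - v) ^ 2) := by
    intro v; congr 1; ring
  constructor
  · refine (h.comp_sub_left a).congr (Filter.Eventually.of_forall fun v => ?_)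
    exact (e v).symm
  · simp only [e]
    have h2 := integral_sub_left_eq_self (μ := volume) (fun v : ℝ => Real.exp (-(1 / (c * W ^ 2)) * v ^ 2)) a
    rw [h2, integral_gaussian]
    have : Real.pi / (1 / (c * W ^ 2)) = (Real.pi * c) * W ^ 2 := by field_simp
    rw [this, Real.sqrt_mul (by positivity), Real.sqrt_sq hW.le]

private theorem exp_lin_le (W y : ℝ) (hW : 0 < W) :
    |y| * Real.exp (-(y ^ 2 / (8 * W ^ 2))) ≤ 4 * W * Real.exp (-(y ^ 2 / (16 * W ^ 2))) := by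
  have e1 : Real.exp (-(y ^ 2 / (8 * W ^ 2))) = Real.exp (-(y ^ 2 / (16 * W ^ 2))) * Real.exp (-(y ^ 2 / (16 * W ^ 2))) := by
    rw [← Real.exp_add]; congr 1; field_simp; ring
  have h1 : |y| * Real.exp (-(y ^ 2 / (16 * W ^ 2))) ≤ 4 * W := by
    rw [Real.exp_neg, ← div_eq_mul_inv, div_le_iff₀ (Real.exp_pos _)]
    have h2 := Real.add_one_le_exp (y ^ 2 / (16 * W ^ 2))
    have h3 : |y| ≤ 4 * W * (y ^ 2 / (16 * W ^ 2) + 1) := by
      have e2 : 4 * W * (y ^ 2 / (16 * W ^ 2) + 1) = (y ^ 2 + 16 * W ^ 2) / (4 * W) := by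
        field_simp
        norm_num
      rw [e2, le_div_iff₀ (by positivity)]
      have := sq_nonneg (|y| - 4 * W)
      have h4 : |y| ^ 2 = y ^ 2 := sq_abs y
      nlinarith [abs_nonneg y]
    exact h3.trans (by gcongr)
  rw [e1, ← mul_assoc]
  gcongr

/-- the pointwise majorant -/
theorem mean_majorant : ∃ C : ℝ, 1 ≤ C ∧ ∀ (r : ℕ) [NeZero r] (W W' : ℝ), 1 ≤ W → W ≤ W' →
    W' ≤ 7 / 16 * Real.log r → 32 * W ^ 2 ≤ 7 / 8 * Real.log r → ∀ x t v : ℝ, t ≤ W' → 0 < v →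
    ∑ χ ∈ prim r, ‖ff χ v‖ ^ 2 * ‖gk W x (t - v)‖ ≤
      C * (2 + |x|) * NN r * W' * Real.exp (-((min t 0) ^ 2 / (8 * W ^ 2))) *
        Real.exp (-((max t 0 - v) ^ 2 / (16 * W ^ 2))) := by
  obtain ⟨C, hC, h⟩ := ff_mean
  refine ⟨(C + 36) * 6, by linarith, ?_⟩
  intro r _ W W' hW hWW hW' hW2 x t v ht hv
  have hW0 : 0 < W := by linarith
  have hNN := NN_nonneg r
  rw [← Finset.sum_mul]
  have hM : (∑ χ ∈ prim r, ‖ff χ v‖ ^ 2) * Real.exp (-((t - v) ^ 2 / (4 * W ^ 2))) ≤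
      (C + 36) * NN r * (1 + v) * Real.exp (-((t - v) ^ 2 / (8 * W ^ 2))) := by
    by_cases hv2 : v ≤ 7 / 8 * Real.log r
    · have h1 := h r v hv.le hv2
      have h2 : Real.exp (-((t - v) ^ 2 / (4 * W ^ 2))) ≤ Real.exp (-((t - v) ^ 2 / (8 * W ^ 2))) := by
        apply Real.exp_le_exp.2
        have : (t - v) ^ 2 / (8 * W ^ 2) ≤ (t - v) ^ 2 / (4 * W ^ 2) := by
          gcongr; norm_num
        linarith
      calc (∑ χ ∈ prim r, ‖ff χ v‖ ^ 2) * Real.exp (-((t - v) ^ 2 / (4 * W ^ 2)))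
          ≤ (C * NN r * (1 + v)) * Real.exp (-((t - v) ^ 2 / (8 * W ^ 2))) := by gcongr
        _ ≤ _ := by gcongr; linarith
    · rw [not_le] at hv2
      have h1 : ∑ χ ∈ prim r, ‖ff χ v‖ ^ 2 ≤ 36 * NN r * Real.exp v := by
        have h3 : ∀ χ ∈ prim r, ‖ff χ v‖ ^ 2 ≤ 36 * Real.exp v := by
          intro χ _
          have h4 := ff_le χ v
          have h5 : (6 * Real.exp (v / 2)) ^ 2 = 36 * Real.exp v := by
            rw [mul_pow, ← Real.exp_nat_mul]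
            congr 1
            · norm_num
            · congr 1; push_cast; ring
          rw [← h5]; gcongr
        refine (Finset.sum_le_sum h3).trans ?_
        rw [Finset.sum_const, nsmul_eq_mul]
        have h6 : ((prim r).card : ℝ) ≤ NN r := by
          unfold NN
          have : 0 ≤ (r : ℝ) ^ (9 / 10 : ℝ) := by positivity
          linarith
        have := Real.exp_pos v
        nlinarith
      have h2 : v ≤ (t - v) ^ 2 / (8 * W ^ 2) := by
        rw [le_div_iff₀ (by positivity)]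
        have h3 : v / 2 ≤ v - t := by linarith
        have h4 : (v / 2) ^ 2 ≤ (t - v) ^ 2 := by
          rw [show (t - v) ^ 2 = (v - t) ^ 2 by ring]; gcongr
        have h5 : 32 * W ^ 2 ≤ v := by linarith
        nlinarith
      have h7 : Real.exp v * Real.exp (-((t - v) ^ 2 / (4 * W ^ 2))) ≤ Real.exp (-((t - v) ^ 2 / (8 * W ^ 2))) := by
        rw [← Real.exp_add]
        apply Real.exp_le_exp.2
        have : (t - v) ^ 2 / (4 * W ^ 2) = (t - v) ^ 2 / (8 * W ^ 2) + (t - v) ^ 2 / (8 * W ^ 2) := by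
          field_simp; ring
        linarith
      calc (∑ χ ∈ prim r, ‖ff χ v‖ ^ 2) * Real.exp (-((t - v) ^ 2 / (4 * W ^ 2)))
          ≤ (36 * NN r * Real.exp v) * Real.exp (-((t - v) ^ 2 / (4 * W ^ 2))) := by gcongr
        _ = 36 * NN r * (Real.exp v * Real.exp (-((t - v) ^ 2 / (4 * W ^ 2)))) := by ring
        _ ≤ 36 * NN r * Real.exp (-((t - v) ^ 2 / (8 * W ^ 2))) := by gcongr
        _ ≤ (C + 36) * NN r * (1 + v) * Real.exp (-((t - v) ^ 2 / (8 * W ^ 2))) := by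
            refine mul_le_mul_of_nonneg_right ?_ (Real.exp_pos _).le
            nlinarith [mul_nonneg hNN hv.le, mul_nonneg (by linarith : 0 ≤ C) hNN,
              mul_nonneg (mul_nonneg (by linarith : 0 ≤ C) hNN) hv.le]
  -- splitting of the Gaussian
  have hsplit : Real.exp (-((t - v) ^ 2 / (8 * W ^ 2))) ≤
      Real.exp (-((min t 0) ^ 2 / (8 * W ^ 2))) * Real.exp (-((max t 0 - v) ^ 2 / (8 * W ^ 2))) := by
    rw [← Real.exp_add]
    apply Real.exp_le_exp.2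
    have : (min t 0) ^ 2 + (max t 0 - v) ^ 2 ≤ (t - v) ^ 2 := by
      rcases le_total t 0 with h0 | h0
      · rw [min_eq_left h0, max_eq_right h0]; nlinarith
      · rw [min_eq_right h0, max_eq_left h0]; nlinarith
    have h2 : ((min t 0) ^ 2 + (max t 0 - v) ^ 2) / (8 * W ^ 2) ≤ (t - v) ^ 2 / (8 * W ^ 2) := by gcongr
    rw [add_div] at h2
    linarith
  have hlin : (1 + v) * Real.exp (-((max t 0 - v) ^ 2 / (8 * W ^ 2))) ≤
      6 * W' * Real.exp (-((max t 0 - v) ^ 2 / (16 * W ^ 2))) := by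
    have h1 : 1 + v ≤ 1 + max t 0 + |max t 0 - v| := by
      have := neg_abs_le (max t 0 - v)
      linarith
    have h2 := exp_lin_le W (max t 0 - v) hW0
    have h3 : Real.exp (-((max t 0 - v) ^ 2 / (8 * W ^ 2))) ≤ Real.exp (-((max t 0 - v) ^ 2 / (16 * W ^ 2))) := by
      apply Real.exp_le_exp.2
      have : (max t 0 - v) ^ 2 / (16 * W ^ 2) ≤ (max t 0 - v) ^ 2 / (8 * W ^ 2) := by
        gcongr; norm_num
      linarith
    have h4 : max t 0 ≤ W' := max_le ht (by linarith)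
    have h5 : 0 ≤ max t 0 := le_max_right _ _
    calc (1 + v) * Real.exp (-((max t 0 - v) ^ 2 / (8 * W ^ 2)))
        ≤ (1 + max t 0 + |max t 0 - v|) * Real.exp (-((max t 0 - v) ^ 2 / (8 * W ^ 2))) := by gcongr
      _ = (1 + max t 0) * Real.exp (-((max t 0 - v) ^ 2 / (8 * W ^ 2))) +
          |max t 0 - v| * Real.exp (-((max t 0 - v) ^ 2 / (8 * W ^ 2))) := by ring
      _ ≤ (1 + max t 0) * Real.exp (-((max t 0 - v) ^ 2 / (16 * W ^ 2))) +
          4 * W * Real.exp (-((max t 0 - v) ^ 2 / (16 * W ^ 2))) := by gcongr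
      _ = (1 + max t 0 + 4 * W) * Real.exp (-((max t 0 - v) ^ 2 / (16 * W ^ 2))) := by ring
      _ ≤ 6 * W' * Real.exp (-((max t 0 - v) ^ 2 / (16 * W ^ 2))) := by gcongr; linarith
  have hS : 0 ≤ ∑ χ ∈ prim r, ‖ff χ v‖ ^ 2 := Finset.sum_nonneg fun _ _ => by positivity
  calc (∑ χ ∈ prim r, ‖ff χ v‖ ^ 2) * ‖gk W x (t - v)‖
      ≤ (∑ χ ∈ prim r, ‖ff χ v‖ ^ 2) * ((2 + |x|) * Real.exp (-((t - v) ^ 2 / (4 * W ^ 2)))) := by
        have := gk_le W x (t - v) hW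
        gcongr
    _ = (2 + |x|) * ((∑ χ ∈ prim r, ‖ff χ v‖ ^ 2) * Real.exp (-((t - v) ^ 2 / (4 * W ^ 2)))) := by ring
    _ ≤ (2 + |x|) * ((C + 36) * NN r * (1 + v) * Real.exp (-((t - v) ^ 2 / (8 * W ^ 2)))) := by gcongr
    _ ≤ (2 + |x|) * ((C + 36) * NN r * (1 + v) * (Real.exp (-((min t 0) ^ 2 / (8 * W ^ 2))) *
          Real.exp (-((max t 0 - v) ^ 2 / (8 * W ^ 2))))) := by gcongr
    _ = (2 + |x|) * ((C + 36) * NN r * Real.exp (-((min t 0) ^ 2 / (8 * W ^ 2))) *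
          ((1 + v) * Real.exp (-((max t 0 - v) ^ 2 / (8 * W ^ 2))))) := by ring
    _ ≤ (2 + |x|) * ((C + 36) * NN r * Real.exp (-((min t 0) ^ 2 / (8 * W ^ 2))) *
          (6 * W' * Real.exp (-((max t 0 - v) ^ 2 / (16 * W ^ 2))))) := by gcongr
    _ = _ := by ring

theorem sq_integrable {q : ℕ} (χ : DirichletCharacter ℂ q) (W x t : ℝ) (hW : 1 ≤ W) :
    IntegrableOn (fun v => ‖ff χ v‖ ^ 2 * ‖gk W x (t - v)‖) (Set.Ioi (0 : ℝ)) := by
  have hW0 : 0 < W := by linarith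
  have h1 : Continuous (fun v : ℝ => gk W x (t - v)) :=
    (gk_continuous W hW).comp (by fun_prop : Continuous fun v : ℝ => (x, t - v))
  refine Integrable.mono' (((gauss_integrable (1 / (8 * W ^ 2)) 1 (by positivity)).const_mul
    (36 * ((2 + |x|) * Real.exp (|t| ^ 2)))).integrableOn)
    ((((ff_measurable χ).norm.pow_const 2).mul h1.norm.measurable).aestronglyMeasurable)
    (Filter.Eventually.of_forall fun v => ?_)
  rw [Real.norm_of_nonneg (by positivity)]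
  have h2 := ff_le χ v
  have h3 := gk_shift_le W x t v |x| |t| hW le_rfl le_rfl
  have h5 : (6 * Real.exp (v / 2)) ^ 2 = 36 * Real.exp (1 * v) := by
    rw [mul_pow, ← Real.exp_nat_mul]
    congr 1
    · norm_num
    · congr 1; push_cast; ring
  calc ‖ff χ v‖ ^ 2 * ‖gk W x (t - v)‖ ≤ (6 * Real.exp (v / 2)) ^ 2 *
        ((2 + |x|) * Real.exp (|t| ^ 2) * Real.exp (-(1 / (8 * W ^ 2) * v ^ 2))) := by gcongr
    _ = _ := by rw [h5]; ring

theorem gk_norm_integral (W x t : ℝ) (hW : 1 ≤ W) :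
    IntegrableOn (fun v => ‖gk W x (t - v)‖) (Set.Ioi (0 : ℝ)) ∧
    ∫ v in Set.Ioi (0 : ℝ), ‖gk W x (t - v)‖ ≤ 4 * (2 + |x|) * W := by
  have hW0 : 0 < W := by linarith
  obtain ⟨g1, g2⟩ := gauss_shift W t 4 hW0 (by norm_num)
  have h1 : Continuous (fun v : ℝ => gk W x (t - v)) :=
    (gk_continuous W hW).comp (by fun_prop : Continuous fun v : ℝ => (x, t - v))
  have hi : IntegrableOn (fun v => ‖gk W x (t - v)‖) (Set.Ioi (0 : ℝ)) := by
    refine Integrable.mono' ((g1.const_mul (2 + |x|)).integrableOn) h1.norm.aestronglyMeasurable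
      (Filter.Eventually.of_forall fun v => ?_)
    rw [norm_norm]
    exact gk_le W x (t - v) hW
  refine ⟨hi, ?_⟩
  calc ∫ v in Set.Ioi (0 : ℝ), ‖gk W x (t - v)‖
      ≤ ∫ v in Set.Ioi (0 : ℝ), (2 + |x|) * Real.exp (-((t - v) ^ 2 / (4 * W ^ 2))) :=
        setIntegral_mono hi ((g1.const_mul (2 + |x|)).integrableOn) fun v => gk_le W x (t - v) hW
    _ ≤ ∫ v : ℝ, (2 + |x|) * Real.exp (-((t - v) ^ 2 / (4 * W ^ 2))) :=
        setIntegral_le_integral (g1.const_mul (2 + |x|)) (Filter.Eventually.of_forall fun v => by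
          show 0 ≤ (2 + |x|) * Real.exp (-((t - v) ^ 2 / (4 * W ^ 2)))
          positivity)
    _ = (2 + |x|) * (Real.sqrt (Real.pi * 4) * W) := by rw [integral_const_mul, g2]
    _ ≤ (2 + |x|) * (4 * W) := by
        have : Real.sqrt (Real.pi * 4) ≤ 4 := by
          rw [Real.sqrt_le_left (by norm_num)]
          linarith [Real.pi_lt_four]
        gcongr
    _ = _ := by ring

/-- mean square of `PX` -/
theorem PX_mean : ∃ C : ℝ, 1 ≤ C ∧ ∀ (r : ℕ) [NeZero r] (W W' : ℝ), 1 ≤ W → W ≤ W' →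
    W' ≤ 7 / 16 * Real.log r → 32 * W ^ 2 ≤ 7 / 8 * Real.log r → ∀ x t : ℝ, t ≤ W' →
    ∑ χ ∈ prim r, ‖PX χ W x t‖ ^ 2 ≤
      C * (2 + |x|) ^ 2 * NN r * W ^ 2 * W' * Real.exp (-((min t 0) ^ 2 / (8 * W ^ 2))) := by
  obtain ⟨C, hC, h⟩ := mean_majorant
  refine ⟨32 * C, by linarith, ?_⟩
  intro r _ W W' hW hWW hW' hW2 x t ht
  have hW0 : 0 < W := by linarith
  have hNN := NN_nonneg r
  obtain ⟨k1, k2⟩ := gk_norm_integral W x t hW
  obtain ⟨g1, g2⟩ := gauss_shift W (max t 0) 16 hW0 (by norm_num)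
  have hcs : ∀ χ ∈ prim r, ‖PX χ W x t‖ ^ 2 ≤ (4 * (2 + |x|) * W) *
      ∫ v in Set.Ioi (0 : ℝ), ‖ff χ v‖ ^ 2 * ‖gk W x (t - v)‖ := by
    intro χ _
    unfold PX
    exact cs_integral (volume.restrict (Set.Ioi (0 : ℝ))) (ff χ) (fun v => gk W x (t - v)) _ _
      (by positivity) (PX_integrable χ W x t hW) k1 (sq_integrable χ W x t hW) k2 le_rfl
  refine (Finset.sum_le_sum hcs).trans ?_
  rw [← Finset.mul_sum, ← integral_finsetSum _ (fun χ _ => sq_integrable χ W x t hW)]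
  set Q := C * (2 + |x|) * NN r * W' * Real.exp (-((min t 0) ^ 2 / (8 * W ^ 2))) with hQ
  have hQ0 : 0 ≤ Q := by
    have : 0 ≤ W' := by linarith
    positivity
  have hI : ∫ v in Set.Ioi (0 : ℝ), ∑ χ ∈ prim r, ‖ff χ v‖ ^ 2 * ‖gk W x (t - v)‖ ≤ Q * (8 * W) := by
    calc ∫ v in Set.Ioi (0 : ℝ), ∑ χ ∈ prim r, ‖ff χ v‖ ^ 2 * ‖gk W x (t - v)‖
        ≤ ∫ v in Set.Ioi (0 : ℝ), Q * Real.exp (-((max t 0 - v) ^ 2 / (16 * W ^ 2))) := by
          refine setIntegral_mono_on (integrable_finsetSum _ fun χ _ => sq_integrable χ W x t hW)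
            ((g1.const_mul Q).integrableOn) measurableSet_Ioi fun v hv => ?_
          exact h r W W' hW hWW hW' hW2 x t v ht hv
      _ ≤ ∫ v : ℝ, Q * Real.exp (-((max t 0 - v) ^ 2 / (16 * W ^ 2))) :=
          setIntegral_le_integral (g1.const_mul Q) (Filter.Eventually.of_forall fun v => by
            show 0 ≤ Q * Real.exp (-((max t 0 - v) ^ 2 / (16 * W ^ 2)))
            positivity)
      _ = Q * (Real.sqrt (Real.pi * 16) * W) := by rw [integral_const_mul, g2]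
      _ ≤ Q * (8 * W) := by
          have : Real.sqrt (Real.pi * 16) ≤ 8 := by
            rw [Real.sqrt_le_left (by norm_num)]
            linarith [Real.pi_lt_four]
          gcongr
  calc 4 * (2 + |x|) * W * ∫ v in Set.Ioi (0 : ℝ), ∑ χ ∈ prim r, ‖ff χ v‖ ^ 2 * ‖gk W x (t - v)‖
      ≤ 4 * (2 + |x|) * W * (Q * (8 * W)) := by gcongr
    _ = _ := by rw [hQ]; ring

end Pool.Agent.SK
end

section

set_option autoImplicit false

/-! Part A: `few_bad`. -/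

namespace Pool.Agent.SK

open Complex MeasureTheory
open Pool.Agent.EM (psiC)
open Pool.Agent.SO (prim NN)

/-- a zero of `Lam` is a zero of the `L`-function in the critical strip -/
theorem Lam_zero {r : ℕ} [NeZero r] (hr : 2 ≤ r) (χ : DirichletCharacter ℂ r) (hχ : χ.IsPrimitive)
    (hχ1 : χ ≠ 1) (w : ℂ) (h : Lam χ w = 0) :
    χ.LFunction (1 / 2 + w) = 0 ∧ 0 < (1 / 2 + w).re ∧ (1 / 2 + w).re < 1 := by
  have hne : r ≠ 1 := by omega
  have hχi1 : χ⁻¹ ≠ 1 := fun h => hχ1 (inv_eq_one.mp h)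
  have hlf : ∀ (ψ : DirichletCharacter ℂ r) (s : ℂ), ψ.completedLFunction s = 0 → ψ.LFunction s = 0 := by
    intro ψ s hs
    rw [ψ.LFunction_eq_completed_div_gammaFactor s (Or.inr hne), hs, zero_div]
  have hL := hlf χ _ h
  have hlt : (1 / 2 + w).re < 1 := by
    by_contra hcon
    rw [not_lt] at hcon
    exact DirichletCharacter.LFunction_ne_zero_of_one_le_re χ (Or.inl hχ1) hcon hL
  refine ⟨hL, ?_, hlt⟩
  by_contra hcon
  rw [not_lt] at hcon
  have hroot : DirichletCharacter.rootNumber χ ≠ 0 := by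
    intro h0
    have h1 := hχ.completedLFunction_one_sub (-1)
    rw [h0, mul_zero, zero_mul] at h1
    have h2 := hlf χ _ h1
    exact DirichletCharacter.LFunction_ne_zero_of_one_le_re χ (Or.inl hχ1) (by norm_num) h2
  have h1 := hχ.completedLFunction_one_sub (1 / 2 - w)
  have e1 : (1 : ℂ) - (1 / 2 - w) = 1 / 2 + w := by ring
  rw [e1] at h1
  unfold Lam at h
  rw [h] at h1
  have hr0 : (r : ℂ) ≠ 0 := by exact_mod_cast NeZero.ne r
  have h3 : χ⁻¹.completedLFunction (1 / 2 - w) = 0 := by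
    rcases mul_eq_zero.1 h1.symm with h4 | h4
    · rcases mul_eq_zero.1 h4 with h5 | h5
      · exact absurd h5 (by
          rw [Complex.cpow_def_of_ne_zero hr0]; exact Complex.exp_ne_zero _)
      · exact absurd h5 hroot
    · exact h4
  have h4 := hlf χ⁻¹ _ h3
  refine DirichletCharacter.LFunction_ne_zero_of_one_le_re χ⁻¹ (Or.inl hχi1) ?_ h4
  rw [Complex.add_re] at hcon
  rw [Complex.sub_re]
  norm_num at hcon ⊢
  linarith

/-- the Gaussian cut-off in `t` -/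
private theorem int_min_le (W W' M : ℝ) (hW : 1 ≤ W) (hWW : W ≤ W') (hM : 0 ≤ M) :
    ∫ t in (-M)..W', Real.exp (-((min t 0) ^ 2 / (8 * W ^ 2))) ≤ 8 * W' := by
  have hW0 : 0 < W := by linarith
  have hc : Continuous (fun t : ℝ => Real.exp (-((min t 0) ^ 2 / (8 * W ^ 2)))) := by fun_prop
  obtain ⟨g1, g2⟩ := gauss_shift W 0 8 hW0 (by norm_num)
  rw [← intervalIntegral.integral_add_adjacent_intervals (hc.intervalIntegrable (-M) 0) (hc.intervalIntegrable 0 W')]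
  have h1 : ∫ t in (-M)..0, Real.exp (-((min t 0) ^ 2 / (8 * W ^ 2))) ≤ 6 * W' := by
    have e1 : ∫ t in (-M)..0, Real.exp (-((min t 0) ^ 2 / (8 * W ^ 2))) =
        ∫ t in (-M)..0, Real.exp (-((0 - t) ^ 2 / (8 * W ^ 2))) := by
      refine intervalIntegral.integral_congr fun t ht => ?_
      rw [Set.uIcc_of_le (by linarith)] at ht
      show Real.exp (-((min t 0) ^ 2 / (8 * W ^ 2))) = Real.exp (-((0 - t) ^ 2 / (8 * W ^ 2)))
      rw [min_eq_left ht.2, zero_sub, neg_sq]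
    rw [e1, intervalIntegral.integral_of_le (by linarith)]
    calc ∫ t in Set.Ioc (-M) 0, Real.exp (-((0 - t) ^ 2 / (8 * W ^ 2)))
        ≤ ∫ t : ℝ, Real.exp (-((0 - t) ^ 2 / (8 * W ^ 2))) :=
          setIntegral_le_integral g1 (Filter.Eventually.of_forall fun v => (Real.exp_pos _).le)
      _ = Real.sqrt (Real.pi * 8) * W := g2
      _ ≤ 6 * W' := by
          have : Real.sqrt (Real.pi * 8) ≤ 6 := by
            rw [Real.sqrt_le_left (by norm_num)]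
            linarith [Real.pi_lt_four]
          gcongr
  have h2 : ∫ t in (0 : ℝ)..W', Real.exp (-((min t 0) ^ 2 / (8 * W ^ 2))) ≤ W' := by
    calc ∫ t in (0 : ℝ)..W', Real.exp (-((min t 0) ^ 2 / (8 * W ^ 2)))
        ≤ ∫ t in (0 : ℝ)..W', (1 : ℝ) := by
          refine intervalIntegral.integral_mono_on (by linarith) (hc.intervalIntegrable _ _)
            (by simp) fun t _ => ?_
          apply Real.exp_le_one_iff.2
          have : 0 ≤ (min t 0) ^ 2 / (8 * W ^ 2) := by positivity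
          linarith
      _ = W' := by simp
  linarith

/-- sums of double integrals -/
private theorem sum_double {ι : Type*} (P : Finset ι) (F : ι → ℝ × ℝ → ℝ) (hF : ∀ i, Continuous (F i))
    (g : ℝ → ℝ) (hg : Continuous g) (M W' T₀ K B : ℝ) (hM : -M ≤ W') (hT : 0 ≤ T₀) (hK : 0 ≤ K)
    (hgB : ∫ t in (-M)..W', g t ≤ B)
    (h : ∀ x t : ℝ, |x| ≤ T₀ → t ≤ W' → ∑ i ∈ P, F i (x, t) ≤ K * g t) :
    ∑ i ∈ P, ∫ x in (-T₀)..T₀, ∫ t in (-M)..W', F i (x, t) ≤ 2 * T₀ * (K * B) := by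
  have hin : ∀ (i : ι) (x : ℝ), Continuous (fun t : ℝ => F i (x, t)) :=
    fun i x => (hF i).comp (by fun_prop : Continuous fun t : ℝ => (x, t))
  have hout : ∀ i : ι, Continuous (fun x : ℝ => ∫ t in (-M)..W', F i (x, t)) :=
    fun i => intervalIntegral.continuous_parametric_intervalIntegral_of_continuous'
      (f := fun x t => F i (x, t)) (hF i) _ _
  rw [← intervalIntegral.integral_finsetSum fun i _ => (hout i).intervalIntegrable _ _]
  have h1 : ∀ x ∈ Set.Icc (-T₀) T₀, ∑ i ∈ P, ∫ t in (-M)..W', F i (x, t) ≤ K * B := by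
    intro x hx
    have hxT : |x| ≤ T₀ := abs_le.2 ⟨hx.1, hx.2⟩
    rw [← intervalIntegral.integral_finsetSum fun i _ => (hin i x).intervalIntegrable _ _]
    calc ∫ t in (-M)..W', ∑ i ∈ P, F i (x, t) ≤ ∫ t in (-M)..W', K * g t :=
          intervalIntegral.integral_mono_on hM
            ((continuous_finsetSum _ fun i _ => hin i x).intervalIntegrable _ _)
            ((continuous_const.mul hg).intervalIntegrable _ _) fun t ht => h x t hxT ht.2
      _ = K * ∫ t in (-M)..W', g t := by rw [intervalIntegral.integral_const_mul]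
      _ ≤ K * B := mul_le_mul_of_nonneg_left hgB hK
  calc ∫ x in (-T₀)..T₀, ∑ i ∈ P, ∫ t in (-M)..W', F i (x, t)
      ≤ ∫ x in (-T₀)..T₀, K * B :=
        intervalIntegral.integral_mono_on (by linarith)
          ((continuous_finsetSum _ fun i _ => hout i).intervalIntegrable _ _) (by simp) h1
    _ = 2 * T₀ * (K * B) := by rw [intervalIntegral.integral_const, smul_eq_mul]; ring

private theorem sum_single {ι : Type*} (P : Finset ι) (F : ι → ℝ → ℝ) (hF : ∀ i, Continuous (F i))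
    (T₀ K : ℝ) (hT : 0 ≤ T₀) (h : ∀ x : ℝ, |x| ≤ T₀ → ∑ i ∈ P, F i x ≤ K) :
    ∑ i ∈ P, ∫ x in (-T₀)..T₀, F i x ≤ 2 * T₀ * K := by
  rw [← intervalIntegral.integral_finsetSum fun i _ => (hF i).intervalIntegrable _ _]
  calc ∫ x in (-T₀)..T₀, ∑ i ∈ P, F i x
      ≤ ∫ x in (-T₀)..T₀, K :=
        intervalIntegral.integral_mono_on (by linarith)
          ((continuous_finsetSum _ fun i _ => hF i).intervalIntegrable _ _) (by simp)
          fun x hx => h x (abs_le.2 ⟨hx.1, hx.2⟩)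
    _ = 2 * T₀ * K := by rw [intervalIntegral.integral_const, smul_eq_mul]; ring

private theorem comp_pair (F : ℝ × ℝ → ℝ) (hF : Continuous F) (t : ℝ) : Continuous (fun x => F (x, t)) :=
  hF.comp (by fun_prop)

/-- mean value of the integral over `x` and `t` -/
theorem PX_mean_double : ∃ C : ℝ, 1 ≤ C ∧ ∀ (r : ℕ) [NeZero r] (W W' : ℝ), 1 ≤ W → W ≤ W' →
    W' ≤ 7 / 16 * Real.log r → 32 * W ^ 2 ≤ 7 / 8 * Real.log r → ∀ M T₀ : ℝ, 0 ≤ M → 0 < T₀ →
    (∑ χ ∈ prim r, ∫ x in (-T₀)..T₀, ∫ t in (-M)..W', ‖PX χ W x t‖ ^ 2 ≤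
      C * (2 + T₀) ^ 3 * NN r * W ^ 2 * W' ^ 2) ∧
    (∑ χ ∈ prim r, ∫ x in (-T₀)..T₀, ‖PX χ W x 0‖ ^ 2 ≤
      C * (2 + T₀) ^ 3 * NN r * W ^ 2 * W' ^ 2) := by
  obtain ⟨C, hC, h⟩ := PX_mean
  refine ⟨16 * C, by linarith, ?_⟩
  intro r _ W W' hW hWW hW' hW2 M T₀ hM hT
  have hNN := NN_nonneg r
  have hW0 : 0 < W := by linarith
  have hW'0 : 1 ≤ W' := by linarith
  have hjc : ∀ χ : DirichletCharacter ℂ r, Continuous (fun p : ℝ × ℝ => ‖PX χ W p.1 p.2‖ ^ 2) :=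
    fun χ => (PX_cont_ge χ W hW).norm.pow 2
  have hxt : ∀ (χ : DirichletCharacter ℂ r) (t : ℝ), Continuous (fun x : ℝ => ‖PX χ W x t‖ ^ 2) :=
    fun χ t => comp_pair _ (hjc χ) t
  have hx0 : ∀ χ : DirichletCharacter ℂ r, Continuous (fun x : ℝ => ‖PX χ W x 0‖ ^ 2) :=
    fun χ => hxt χ 0
  set K := C * (2 + T₀) ^ 2 * NN r * W ^ 2 * W' with hK
  have hK0 : 0 ≤ K := by positivity
  have hmaj : ∀ x t : ℝ, |x| ≤ T₀ → t ≤ W' → ∑ χ ∈ prim r, ‖PX χ W x t‖ ^ 2 ≤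
      K * Real.exp (-((min t 0) ^ 2 / (8 * W ^ 2))) := by
    intro x t hx ht
    refine (h r W W' hW hWW hW' hW2 x t ht).trans ?_
    refine mul_le_mul_of_nonneg_right ?_ (Real.exp_pos _).le
    rw [hK]
    have h3 : (2 + |x|) ^ 2 ≤ (2 + T₀) ^ 2 := by
      have := abs_nonneg x
      gcongr
    have h4 : 0 ≤ NN r * W ^ 2 * W' := by positivity
    have h5 := mul_le_mul_of_nonneg_left h3 (by linarith : 0 ≤ C)
    have h6 := mul_le_mul_of_nonneg_right h5 h4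
    linarith
  constructor
  · have h1 := sum_double (prim r) (fun χ p => ‖PX χ W p.1 p.2‖ ^ 2) hjc
      (fun t => Real.exp (-((min t 0) ^ 2 / (8 * W ^ 2)))) (by fun_prop) M W' T₀ K (8 * W')
      (by linarith) hT.le hK0 (int_min_le W W' M hW hWW hM) hmaj
    refine h1.trans ?_
    have h2 : 2 * T₀ * (K * (8 * W')) ≤ 2 * (2 + T₀) * (K * (8 * W')) := by
      have : 0 ≤ K * (8 * W') := by positivity
      nlinarith
    refine h2.trans (le_of_eq ?_)
    rw [hK]; ring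
  · have h1 := sum_single (prim r) (fun χ x => ‖PX χ W x 0‖ ^ 2) hx0 T₀ K hT.le (fun x hx => by
      refine (hmaj x 0 hx (by linarith)).trans ?_
      have : Real.exp (-((min (0 : ℝ) 0) ^ 2 / (8 * W ^ 2))) = 1 := by
        rw [min_self]; simp
      rw [this, mul_one])
    refine h1.trans ?_
    have h2 : 2 * T₀ * K ≤ 2 * (2 + T₀) * (K * (8 * W')) := by
      have h3 : K ≤ K * (8 * W') := by nlinarith
      have h4 : 0 ≤ K * (8 * W') := by positivity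
      nlinarith
    refine h2.trans (le_of_eq ?_)
    rw [hK]; ring

/-- (A) few bad characters. -/
theorem few_bad (ε θ T₀ : ℝ) (hε : 0 < ε) (hε1 : ε ≤ 1) (hθ : 0 < θ) (hT : 0 < T₀) :
    ∃ D : ℝ, 0 < D ∧ ∃ r₀ : ℕ, 3 ≤ r₀ ∧ ∀ (r : ℕ) [NeZero r], r₀ ≤ r →
      ∀ S : Finset (DirichletCharacter ℂ r), S ⊆ prim r → (∀ χ ∈ S, ¬ Good χ ε θ D T₀) →
      (S.card : ℝ) ≤ θ * NN r := by
  classical
  obtain ⟨A, C, hC, hgood⟩ := good_chars
  obtain ⟨r₁, hr₁, h1⟩ := hgood (θ / 3) (by positivity)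
  obtain ⟨C₂, hC₂, h2⟩ := PX_mean_double
  -- numerical conditions
  have hev : ∀ᶠ L : ℝ in Filter.atTop, 4 ≤ L ∧ L ^ (1 / 2 : ℝ) ≤ 7 / 16 * L ∧
      32 * (L ^ (1 / 2 - ε / 4 : ℝ)) ^ 2 ≤ 7 / 8 * L ∧
      C₂ * (2 + T₀) ^ 3 * L ^ (-(ε / 2)) ≤ θ / 3 * θ := by
    have e1 : ∀ᶠ L : ℝ in Filter.atTop, (4 : ℝ) ≤ L := Filter.eventually_ge_atTop _
    have e2 : ∀ᶠ L : ℝ in Filter.atTop, (3 : ℝ) ≤ L ^ (1 / 2 : ℝ) :=
      (tendsto_rpow_atTop (by norm_num : (0 : ℝ) < 1 / 2)).eventually_ge_atTop _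
    have e3 : ∀ᶠ L : ℝ in Filter.atTop, (40 : ℝ) ≤ L ^ (ε / 2 : ℝ) :=
      (tendsto_rpow_atTop (by positivity : (0 : ℝ) < ε / 2)).eventually_ge_atTop _
    have e4 : ∀ᶠ L : ℝ in Filter.atTop, C₂ * (2 + T₀) ^ 3 * L ^ (-(ε / 2)) ≤ θ / 3 * θ := by
      have : Filter.Tendsto (fun L : ℝ => C₂ * (2 + T₀) ^ 3 * L ^ (-(ε / 2))) Filter.atTop
          (nhds (C₂ * (2 + T₀) ^ 3 * 0)) :=
        (tendsto_rpow_neg_atTop (by positivity : (0 : ℝ) < ε / 2)).const_mul _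
      rw [mul_zero] at this
      exact this.eventually_le_const (by positivity)
    filter_upwards [e1, e2, e3, e4] with L e1 e2 e3 e4
    have hL0 : 0 < L := by linarith
    refine ⟨e1, ?_, ?_, e4⟩
    · have h3 : L = L ^ (1 / 2 : ℝ) * L ^ (1 / 2 : ℝ) := by
        rw [← Real.rpow_add hL0]; norm_num
      have h4 : 0 < L ^ (1 / 2 : ℝ) := by positivity
      nlinarith
    · have h3 : (L ^ (1 / 2 - ε / 4 : ℝ)) ^ 2 * L ^ (ε / 2 : ℝ) = L := by
        rw [← Real.rpow_natCast (L ^ (1 / 2 - ε / 4 : ℝ)) 2, ← Real.rpow_mul hL0.le, ← Real.rpow_add hL0]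
        have : (1 / 2 - ε / 4) * ((2 : ℕ) : ℝ) + ε / 2 = 1 := by push_cast; ring
        rw [this, Real.rpow_one]
      have h4 : 0 < (L ^ (1 / 2 - ε / 4 : ℝ)) ^ 2 := by positivity
      nlinarith
  obtain ⟨L₀, hL₀⟩ := Filter.eventually_atTop.1 hev
  refine ⟨3 * C, by linarith, max r₁ ⌈Real.exp L₀⌉₊, hr₁.trans (le_max_left _ _), ?_⟩
  intro r _ hr S hS hbad
  have hr1 : r₁ ≤ r := (le_max_left _ _).trans hr
  have hr3 : 3 ≤ r := hr₁.trans hr1
  have hr0 : (3 : ℝ) ≤ r := by exact_mod_cast hr3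
  have hLL : L₀ ≤ Real.log r := by
    rw [Real.le_log_iff_exp_le (by linarith)]
    exact (Nat.le_ceil _).trans (by exact_mod_cast (le_max_right _ _).trans hr)
  obtain ⟨c1, c2, c3, c4⟩ := hL₀ _ hLL
  obtain ⟨S₀, hS₀, hcard, hprop⟩ := h1 r hr1
  set L := Real.log r with hL
  have hL0 : 0 < L := by linarith
  have hNN := NN_nonneg r
  set W := L ^ (1 / 2 - ε / 4 : ℝ) with hW
  set W' := L ^ (1 / 2 : ℝ) with hW'
  have hW1 : 1 ≤ W := Real.one_le_rpow (by linarith) (by linarith)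
  have hWW : W ≤ W' := Real.rpow_le_rpow_of_exponent_le (by linarith) (by linarith)
  obtain ⟨m1, m2⟩ := h2 r W W' hW1 hWW c2 c3 (L ^ 2) T₀ (by positivity) hT
  have hWWe : W ^ 2 * W' ^ 2 = L ^ 2 * L ^ (-(ε / 2)) := by
    rw [hW, hW', ← Real.rpow_natCast (L ^ (1 / 2 - ε / 4 : ℝ)) 2, ← Real.rpow_natCast (L ^ (1 / 2 : ℝ)) 2,
      ← Real.rpow_natCast L 2, ← Real.rpow_mul hL0.le, ← Real.rpow_mul hL0.le, ← Real.rpow_add hL0,
      ← Real.rpow_add hL0]
    congr 1; push_cast; ring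
  have hbound : C₂ * (2 + T₀) ^ 3 * NN r * W ^ 2 * W' ^ 2 ≤ (θ / 3 * NN r) * (θ * L ^ 2) := by
    calc C₂ * (2 + T₀) ^ 3 * NN r * W ^ 2 * W' ^ 2 = C₂ * (2 + T₀) ^ 3 * NN r * (W ^ 2 * W' ^ 2) := by ring
      _ = (C₂ * (2 + T₀) ^ 3 * L ^ (-(ε / 2))) * (NN r * L ^ 2) := by rw [hWWe]; ring
      _ ≤ (θ / 3 * θ) * (NN r * L ^ 2) := by gcongr
      _ = _ := by ring
  -- the three exceptional sets
  set X₂ : DirichletCharacter ℂ r → ℝ := fun χ => ∫ x in (-T₀)..T₀, ∫ t in (-(L ^ 2))..W', ‖PX χ W x t‖ ^ 2 with hX₂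
  set X₃ : DirichletCharacter ℂ r → ℝ := fun χ => ∫ x in (-T₀)..T₀, ‖PX χ W x 0‖ ^ 2 with hX₃
  have hX₂0 : ∀ χ, 0 ≤ X₂ χ := by
    intro χ
    refine intervalIntegral.integral_nonneg (by linarith) fun x _ => ?_
    refine intervalIntegral.integral_nonneg ?_ fun t _ => by positivity
    have : 0 ≤ L ^ 2 := by positivity
    linarith
  have hX₃0 : ∀ χ, 0 ≤ X₃ χ := fun χ =>
    intervalIntegral.integral_nonneg (by linarith) fun x _ => by positivity
  have markov : ∀ X : DirichletCharacter ℂ r → ℝ, (∀ χ, 0 ≤ X χ) →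
      ∑ χ ∈ prim r, X χ ≤ (θ / 3 * NN r) * (θ * L ^ 2) →
      (((prim r).filter fun χ => θ * L ^ 2 < X χ).card : ℝ) ≤ θ / 3 * NN r := by
    intro X hX hsum
    have hpos : 0 < θ * L ^ 2 := by positivity
    have h5 : (((prim r).filter fun χ => θ * L ^ 2 < X χ).card : ℝ) * (θ * L ^ 2) ≤
        (θ / 3 * NN r) * (θ * L ^ 2) := by
      calc (((prim r).filter fun χ => θ * L ^ 2 < X χ).card : ℝ) * (θ * L ^ 2)
          = ∑ χ ∈ (prim r).filter (fun χ => θ * L ^ 2 < X χ), θ * L ^ 2 := by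
            rw [Finset.sum_const, nsmul_eq_mul]
        _ ≤ ∑ χ ∈ (prim r).filter (fun χ => θ * L ^ 2 < X χ), X χ :=
            Finset.sum_le_sum fun χ hχ => (Finset.mem_filter.1 hχ).2.le
        _ ≤ ∑ χ ∈ prim r, X χ := Finset.sum_le_sum_of_subset_of_nonneg (Finset.filter_subset _ _)
            fun χ _ _ => hX χ
        _ ≤ _ := hsum
    exact le_of_mul_le_mul_right h5 hpos
  have k2 := markov X₂ hX₂0 (m1.trans hbound)
  have k3 := markov X₃ hX₃0 (m2.trans hbound)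
  have k1 : (((prim r) \ S₀).card : ℝ) ≤ θ / 3 * NN r := by
    have h5 : ((prim r) \ S₀).card = (prim r).card - S₀.card := Finset.card_sdiff_of_subset hS₀
    have h6 : S₀.card ≤ (prim r).card := Finset.card_le_card hS₀
    rw [h5, Nat.cast_sub h6]
    exact hcard
  have hsub : S ⊆ ((prim r) \ S₀) ∪ (((prim r).filter fun χ => θ * L ^ 2 < X₂ χ) ∪
      ((prim r).filter fun χ => θ * L ^ 2 < X₃ χ)) := by
    intro χ hχ
    by_contra hcon
    rw [Finset.mem_union, Finset.mem_union, not_or, not_or] at hcon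
    obtain ⟨n1, n2, n3⟩ := hcon
    have hp : χ ∈ prim r := hS hχ
    have hin : χ ∈ S₀ := by
      by_contra h7
      exact n1 (Finset.mem_sdiff.2 ⟨hp, h7⟩)
    have g2 : X₂ χ ≤ θ * L ^ 2 := by
      by_contra h7
      rw [not_le] at h7
      exact n2 (Finset.mem_filter.2 ⟨hp, h7⟩)
    have g3 : X₃ χ ≤ θ * L ^ 2 := by
      by_contra h7
      rw [not_le] at h7
      exact n3 (Finset.mem_filter.2 ⟨hp, h7⟩)
    refine hbad χ hχ ⟨?_, g2, g3⟩
    intro w hw him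
    obtain ⟨z1, z2, z3⟩ := Lam_zero (by omega) χ (prim_isPrimitive hp) (ZF_prim_ne_one (by omega) hp) w hw
    have z4 := (hprop χ hin).1 _ z1 z2
    have e5 : (1 / 2 + w).re - 1 / 2 = w.re := by
      rw [Complex.add_re]; norm_num
    have e6 : (1 / 2 + w).im = w.im := by
      rw [Complex.add_im]; norm_num
    rw [e5, e6] at z4
    rw [le_div_iff₀ hL0]
    refine z4.trans ?_
    have e7 : Real.log (2 + |w.im|) ≤ 2 * Real.log L := by
      have : 2 * Real.log L = Real.log (L ^ 2) := by rw [Real.log_pow]; norm_num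
      rw [this]
      apply Real.log_le_log (by positivity)
      nlinarith
    have e8 : 0 ≤ Real.log L := Real.log_nonneg (by linarith)
    nlinarith
  calc (S.card : ℝ) ≤ (((prim r) \ S₀).card : ℝ) + ((((prim r).filter fun χ => θ * L ^ 2 < X₂ χ).card : ℝ) +
      (((prim r).filter fun χ => θ * L ^ 2 < X₃ χ).card : ℝ)) := by
        exact_mod_cast (Finset.card_le_card hsub).trans ((Finset.card_union_le _ _).trans
          (Nat.add_le_add_left (Finset.card_union_le _ _) _))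
    _ ≤ θ / 3 * NN r + (θ / 3 * NN r + θ / 3 * NN r) := add_le_add k1 (add_le_add k2 k3)
    _ = θ * NN r := by ring

end Pool.Agent.SK
end

section

set_option autoImplicit false

namespace Pool.Agent.SK

open Complex MeasureTheory
open Pool.Agent.SO (prim NN)

private theorem M1A_gen (F : ℝ × ℝ → ℂ) (hF : Continuous F) (h : ℝ) :
    Continuous (fun p : ℝ × ℝ => ∫ y in (-h)..h, F (p.1 + y, p.2)) := by
  have h2 : Continuous (fun z : (ℝ × ℝ) × ℝ => (z.1.1 + z.2, z.1.2)) := by fun_prop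
  have h3 : Continuous (fun z : (ℝ × ℝ) × ℝ => F (z.1.1 + z.2, z.1.2)) := hF.comp h2
  exact intervalIntegral.continuous_parametric_intervalIntegral_of_continuous'
    (f := fun (p : ℝ × ℝ) (y : ℝ) => F (p.1 + y, p.2)) h3 (-h) h

/-- M1a. PROOF. `PU χ W (u-h) (u+h) t = (1/2π) ∫_{-h}^{h} PX χ W (u + y) t dy` (`intervalIntegral.integral_comp_add_left`),
`PX_continuous` and `intervalIntegral.continuous_parametric_intervalIntegral_of_continuous'`. -/
theorem PU_continuous₂ (q : ℕ) (χ : DirichletCharacter ℂ q) (W h : ℝ) (hW : 0 < W) :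
    Continuous (fun p : ℝ × ℝ => PU χ W (p.1 - h) (p.1 + h) p.2) := by
  have h0 := M1A_gen (fun p : ℝ × ℝ => PX χ W p.1 p.2) (PX_continuous q χ W hW) h
  have h1 : (fun p : ℝ × ℝ => PU χ W (p.1 - h) (p.1 + h) p.2) =
      fun p : ℝ × ℝ => (1 / (2 * Real.pi) : ℂ) * ∫ y in (-h)..h, PX χ W (p.1 + y) p.2 := by
    funext p
    unfold PU
    rw [intervalIntegral.integral_comp_add_left (fun x => PX χ W x p.2) p.1, ← sub_eq_add_neg]
  rw [h1]
  exact continuous_const.mul h0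

private theorem M1A_gen2 (F : ℝ × ℝ → ℂ) (hF : Continuous F) (A Y : ℝ) :
    Continuous (fun u : ℝ => ∫ t in A..Y, (1 - t / Y) * ‖F (u, t)‖ ^ 2) := by
  have h2 : Continuous (fun p : ℝ × ℝ => 1 - p.2 / Y) :=
    continuous_const.sub (continuous_snd.div_const Y)
  have h3 : Continuous (fun p : ℝ × ℝ => (1 - p.2 / Y) * ‖F (p.1, p.2)‖ ^ 2) :=
    h2.mul (hF.norm.pow 2)
  exact intervalIntegral.continuous_parametric_intervalIntegral_of_continuous'
    (f := fun (u : ℝ) (t : ℝ) => (1 - t / Y) * ‖F (u, t)‖ ^ 2) h3 A Y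

/-- M1b. PROOF. `PU_continuous₂`, parametric interval integral of a continuous function. -/
theorem inner_continuous (q : ℕ) (χ : DirichletCharacter ℂ q) (W h A Y : ℝ) (hW : 0 < W) :
    Continuous (fun u : ℝ => ∫ t in A..Y, (1 - t / Y) * ‖PU χ W (u - h) (u + h) t‖ ^ 2) :=
  M1A_gen2 (fun p : ℝ × ℝ => PU χ W (p.1 - h) (p.1 + h) p.2) (PU_continuous₂ q χ W h hW) A Y

end Pool.Agent.SK
end

section

set_option autoImplicit false

/-! Task GC: the weighted sum is `O(log q)` for every character modulo `q`. -/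

namespace Pool.Agent.SD

open Complex MeasureTheory
open Pool.Agent.SK
open Pool.Agent.SO (prim NN)

private theorem GC_norm (ρ : ℂ) (h : ρ.re = 1 / 2) : 1 / 4 ≤ ‖ρ‖ ^ 2 := by
  have h1 : |ρ.re| ≤ ‖ρ‖ := Complex.abs_re_le_norm ρ
  rw [h, abs_of_pos (by norm_num)] at h1
  nlinarith

private theorem GC_FF {q : ℕ} [NeZero q] (χ : DirichletCharacter ℂ q) (ρ : ℂ) (h : ρ.re = 1 / 2)
    (h0 : χ.LFunction ρ = 0) : MC.FF q χ ρ = 0 := by
  by_cases hχ : χ = 1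
  · subst hχ
    have hne : ρ ≠ 1 := by
      intro he
      rw [he] at h
      norm_num at h
    rw [MC.FF_one_apply q ρ hne, h0, mul_zero]
  · rw [MC.FF_of_ne q χ hχ, h0]

private theorem GC_card (C₁ X₁ : ℝ) (hbox : ∀ (q : ℕ) [NeZero q] (X : ℝ), (q : ℝ) ≤ X →
    X₁ ≤ X → ∀ (χ : DirichletCharacter ℂ q) (t : ℝ), |t| ≤ X ^ 1 + 1 → ∀ S : Finset ℂ,
    (∀ ρ ∈ S, MC.FF q χ ρ = 0 ∧ 1 / 2 ≤ ρ.re ∧ |ρ.im - t| ≤ 1 / 2) →
    ∑ ρ ∈ S, TS.mu χ ρ ≤ C₁ * Real.log X) (hC₁ : 1 ≤ C₁) (T : ℝ) (hT : 0 ≤ T) (q : ℕ) [NeZero q]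
    (hX : X₁ ≤ q) (hTq : T ≤ q) (hq : 1 ≤ q)
    (χ : DirichletCharacter ℂ q) (S : Finset ℂ)
    (hS : ∀ ρ ∈ S, ρ.re = 1 / 2 ∧ |ρ.im| ≤ T ∧ χ.LFunction ρ = 0) :
    (S.card : ℝ) ≤ (2 * T + 4) * (C₁ * Real.log q) := by
  classical
  have hL0 : 0 ≤ Real.log q := Real.log_natCast_nonneg q
  have hfib : S.card = ∑ n ∈ S.image (fun ρ : ℂ => ⌊ρ.im⌋), (S.filter (fun ρ : ℂ => ⌊ρ.im⌋ = n)).card :=
    Finset.card_eq_sum_card_fiberwise (fun ρ hρ => Finset.mem_coe.2 (Finset.mem_image_of_mem _ hρ))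
  have hterm : ∀ n ∈ S.image (fun ρ : ℂ => ⌊ρ.im⌋),
      ((S.filter (fun ρ : ℂ => ⌊ρ.im⌋ = n)).card : ℝ) ≤ C₁ * Real.log q := by
    intro n hn
    obtain ⟨ρ₀, hρ₀, hρn⟩ := Finset.mem_image.1 hn
    have h1 : ∑ ρ ∈ S.filter (fun ρ : ℂ => ⌊ρ.im⌋ = n), TS.mu χ ρ ≤ C₁ * Real.log q := by
      refine hbox q q le_rfl hX χ ((n : ℝ) + 1 / 2) ?_ _ ?_
      · have h5 := (hS ρ₀ hρ₀).2.1
        have h6 := Int.floor_le ρ₀.im
        have h7 := Int.lt_floor_add_one ρ₀.im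
        rw [hρn] at h6 h7
        rw [pow_one]
        rw [abs_le] at h5 ⊢
        constructor <;> linarith
      · intro ρ hρ
        have h2 := (Finset.mem_filter.1 hρ).2
        have hρS := (Finset.mem_filter.1 hρ).1
        refine ⟨GC_FF χ ρ (hS ρ hρS).1 (hS ρ hρS).2.2, (hS ρ hρS).1.ge, ?_⟩
        have h6 := Int.floor_le ρ.im
        have h7 := Int.lt_floor_add_one ρ.im
        rw [h2] at h6 h7
        rw [abs_le]
        constructor <;> linarith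
    refine le_trans ?_ h1
    rw [Finset.card_eq_sum_ones, Nat.cast_sum]
    refine Finset.sum_le_sum fun ρ hρ => ?_
    have hρS := (Finset.mem_filter.1 hρ).1
    rw [Nat.cast_one]
    exact TS.one_le_mu χ ρ (GC_FF χ ρ (hS ρ hρS).1 (hS ρ hρS).2.2)
  have hcard : ((S.image (fun ρ : ℂ => ⌊ρ.im⌋)).card : ℝ) ≤ 2 * T + 4 := by
    have hsub : S.image (fun ρ : ℂ => ⌊ρ.im⌋) ⊆ Finset.Icc ⌊-T⌋ ⌊T⌋ := by
      intro n hn
      obtain ⟨ρ, hρ, rfl⟩ := Finset.mem_image.1 hn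
      have h5 := abs_le.mp (hS ρ hρ).2.1
      rw [Finset.mem_Icc]
      exact ⟨Int.floor_le_floor h5.1, Int.floor_le_floor h5.2⟩
    have h8 := Finset.card_le_card hsub
    rw [Int.card_Icc] at h8
    have h9 : ((⌊T⌋ + 1 - ⌊-T⌋).toNat : ℝ) ≤ 2 * T + 4 := by
      have h10 : 0 ≤ ⌊T⌋ + 1 - ⌊-T⌋ := by
        have : ⌊-T⌋ ≤ ⌊T⌋ := Int.floor_le_floor (by linarith)
        omega
      have h11 : (((⌊T⌋ + 1 - ⌊-T⌋).toNat : ℤ) : ℝ) = ((⌊T⌋ + 1 - ⌊-T⌋ : ℤ) : ℝ) := by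
        rw [Int.toNat_of_nonneg h10]
      have h12 : (((⌊T⌋ + 1 - ⌊-T⌋).toNat : ℤ) : ℝ) = ((⌊T⌋ + 1 - ⌊-T⌋).toNat : ℝ) := by
        norm_cast
      rw [← h12, h11]
      push_cast
      have h13 := Int.floor_le T
      have h14 := Int.lt_floor_add_one (-T)
      linarith
    calc ((S.image (fun ρ : ℂ => ⌊ρ.im⌋)).card : ℝ) ≤ ((⌊T⌋ + 1 - ⌊-T⌋).toNat : ℝ) := by
          exact_mod_cast h8
      _ ≤ _ := h9
  rw [hfib, Nat.cast_sum]
  have hCL : 0 ≤ C₁ * Real.log q := by positivity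
  calc ∑ n ∈ S.image (fun ρ : ℂ => ⌊ρ.im⌋), ((S.filter (fun ρ : ℂ => ⌊ρ.im⌋ = n)).card : ℝ)
      ≤ ∑ _n ∈ S.image (fun ρ : ℂ => ⌊ρ.im⌋), C₁ * Real.log q := Finset.sum_le_sum hterm
    _ = ((S.image (fun ρ : ℂ => ⌊ρ.im⌋)).card : ℝ) * (C₁ * Real.log q) := by
        rw [Finset.sum_const, nsmul_eq_mul]
    _ ≤ (2 * T + 4) * (C₁ * Real.log q) := mul_le_mul_of_nonneg_right hcard hCL

/-- GC. PROOF. If `SZ χ T` is infinite then `gL χ T = 0` (`finsum_mem_eq_zero_of_infinite`; the terms are `≠ 0`, since `Re ρ = 1/2`). Otherwise let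
`F` be its finset; each term is `≤ 4` (`‖ρ‖² ≥ (Re ρ)² = 1/4`), so `gL χ T ≤ 4 F.card`. Split `F` by `k = round (Im ρ)`, `|k| ≤ T + 1` (see
`Z4_right` in SK/Z4.lean: `Finset.card_eq_sum_card_fiberwise` or `Finset.sum_fiberwise_of_maps_to`), `|Im ρ - k| ≤ 1/2`. Each fibre has at most
`C₁ log q` elements by `TS.box_count 1` with `X = q` (`q ≥ X₁`, `|k| ≤ T + 1 ≤ q + 1`): `MC.FF q χ ρ = 0` (`MC.FF_of_ne` for `χ ≠ 1`, `MC.FF_one_apply` for
`χ = 1`, `ρ ≠ 1`), and `1 ≤ TS.mu χ ρ` (the order of the entire function `FF q χ`, not identically zero — e.g. `ZD_FF_ne` —, at a zero; compare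
`one_le_mu` in SK/Z3A.lean, or look for a lemma in TS/). At most `2 T + 4` integers `k`: `C = 4 (2T + 4) C₁`. -/
theorem gL_le (T : ℝ) (hT : 0 ≤ T) : ∃ C : ℝ, 0 < C ∧ ∃ q₀ : ℕ, 3 ≤ q₀ ∧ ∀ (q : ℕ) [NeZero q], q₀ ≤ q →
    ∀ χ : DirichletCharacter ℂ q, gL χ T ≤ C * Real.log q := by
  classical
  obtain ⟨C₁, X₁, hC₁, hbox⟩ := TS.box_count 1
  refine ⟨4 * (2 * T + 4) * C₁, by positivity, max 3 (max ⌈X₁⌉₊ ⌈T⌉₊), le_max_left _ _, ?_⟩
  intro q _ hq χ
  have hX : X₁ ≤ q := by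
    have h1 : ⌈X₁⌉₊ ≤ q := ((le_max_left _ _).trans (le_max_right _ _)).trans hq
    exact (Nat.le_ceil X₁).trans (by exact_mod_cast h1)
  have hTq : T ≤ q := by
    have h1 : ⌈T⌉₊ ≤ q := ((le_max_right _ _).trans (le_max_right _ _)).trans hq
    exact (Nat.le_ceil T).trans (by exact_mod_cast h1)
  have hq3 : 3 ≤ q := (le_max_left _ _).trans hq
  have hL0 : 0 ≤ Real.log q := Real.log_natCast_nonneg q
  unfold gL
  by_cases hfin : (SZ χ T).Finite
  · rw [finsum_mem_eq_finite_toFinset_sum _ hfin]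
    have hmem : ∀ ρ ∈ hfin.toFinset, ρ.re = 1 / 2 ∧ |ρ.im| ≤ T ∧ χ.LFunction ρ = 0 := by
      intro ρ hρ
      have h := hfin.mem_toFinset.1 hρ
      exact ⟨h.1, h.2.1, h.2.2.1⟩
    have h1 : ∑ ρ ∈ hfin.toFinset, 1 / ‖ρ‖ ^ 2 ≤ ∑ _ρ ∈ hfin.toFinset, (4 : ℝ) := by
      refine Finset.sum_le_sum fun ρ hρ => ?_
      have h2 := GC_norm ρ (hmem ρ hρ).1
      rw [div_le_iff₀ (by linarith)]
      linarith
    rw [Finset.sum_const, nsmul_eq_mul] at h1
    have h2 := GC_card C₁ X₁ hbox hC₁ T hT q hX hTq (by omega) χ hfin.toFinset hmem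
    nlinarith
  · have h0 : ∑ᶠ ρ ∈ SZ χ T, 1 / ‖ρ‖ ^ 2 = 0 := by
      refine finsum_mem_eq_zero_of_infinite ?_
      have h3 : SZ χ T ∩ Function.support (fun ρ : ℂ => 1 / ‖ρ‖ ^ 2) = SZ χ T := by
        refine Set.inter_eq_left.2 ?_
        intro ρ hρ
        rw [Function.mem_support]
        have h2 := GC_norm ρ hρ.1
        have h4 : (0 : ℝ) < 1 / ‖ρ‖ ^ 2 := by
          apply div_pos one_pos
          linarith
        exact h4.ne'
      rw [h3]
      exact hfin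
    rw [h0]
    positivity

end Pool.Agent.SD
end
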