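import Pool.Agent.Lib.MP_9cfc0a_nt.Mg.G020
import Pool.Agent.Lib.MP_9cfc0a_nt.Mg.G018
import Pool.Agent.Lib.MP_9cfc0a_nt.Mg.G011
import Pool.Agent.Lib.MP_9cfc0a_nt.Mg.G016
import Pool.Agent.Lib.MP_9cfc0a_nt.SK.M1E
import Pool.Agent.Lib.MP_9cfc0a_nt.Mg.G005
import Pool.Agent.Lib.MP_9cfc0a_nt.Mg.G019
import Pool.Agent.Lib.MP_9cfc0a_nt.SD.LE

section

set_option autoImplicit false

namespace Pool.Agent.SK

open Complex MeasureTheory
open Pool.Agent.SO (prim NN)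

theorem M2_good_mono {r : ℕ} [NeZero r] (χ : DirichletCharacter ℂ r) (ε θ θ' D T₀ : ℝ) (hθ : θ ≤ θ')
    (hG : Good χ ε θ D T₀) : Good χ ε θ' D T₀ := by
  refine ⟨hG.zf, hG.pr.trans ?_, hG.p0.trans ?_⟩
  · exact mul_le_mul_of_nonneg_right hθ (sq_nonneg _)
  · exact mul_le_mul_of_nonneg_right hθ (sq_nonneg _)

theorem M2_DD_nonneg {q : ℕ} (χ : DirichletCharacter ℂ q) (Y : ℝ) (hY : 0 < Y) : 0 ≤ DD χ Y := by
  unfold DD
  refine intervalIntegral.integral_nonneg hY.le fun t ht => ?_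
  have h7 : 0 ≤ 1 - t / Y := by
    rw [sub_nonneg, div_le_one hY]
    exact ht.2
  positivity

theorem M2_PU_cont (q : ℕ) (χ : DirichletCharacter ℂ q) (W h u : ℝ) (hW : 0 < W) :
    Continuous (fun t : ℝ => PU χ W (u - h) (u + h) t) := by
  have h1 : Continuous fun t : ℝ => ((u, t) : ℝ × ℝ) := by fun_prop
  have h2 := (PU_continuous₂ q χ W h hW).comp h1
  have e : ((fun p : ℝ × ℝ => PU χ W (p.1 - h) (p.1 + h) p.2) ∘ fun t : ℝ => ((u, t) : ℝ × ℝ)) =
      fun t : ℝ => PU χ W (u - h) (u + h) t := by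
    funext t
    rfl
  rw [e] at h2
  exact h2

/-- M2. The theorem for primitive characters.
PROOF. `h, δ, L₀` from `final_numeric ε`; `T₀` from `weight_integral δ`; `θ` from `chain ε δ h T₀`; `D, r₁` from
`few_bad ε (min θ ε) (T₀ + 2)` (a `Good` with the smaller `θ` is `Good` with `θ`: monotone in `θ`); `r₂` from
`chain .. D`; `W₀` from `plancherel_avg h δ T₀`; `choose_Y ε δ`; `r₀` large. Every `χ ∈ S` is not `Good`: suppose it is, with
`Y'` as in the hypothesis, `L = log r`, `W = L^(1/2-ε/4) ≥ W₀`; take `Y` from `choose_Y`. For `|u| ≤ T₀`, `chain` gives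
`B := (h/2π)(LY - L²) - δLY ≤ ∫_{L^(1/2)}^Y (1-t/Y)‖PU‖² ≤ ∫_0^Y (1-t/Y)‖PU‖²` (nonnegative integrand, `L^(1/2) ≤ Y`).
Multiply by `1/(1/4+u²)`, integrate over `[-T₀, T₀]` (`intervalIntegral.integral_mono_on`; `inner_continuous`; the weight is
continuous), `plancherel_avg`: `I B ≤ (2h(1+12h)+δ)(Y'/Y) DD χ Y' + 1`. `final_numeric` (`I = ∫ weight`, `weight_integral`) contradicts the hypothesis
`DD χ Y' < ...`. So `S` consists of characters which are not `Good`; `few_bad`: `S.card ≤ min θ ε * NN r ≤ ε NN r`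
(`SO.A3_NN_nonneg`). `DD χ Y' ≥ 0`: the integrand is nonnegative on `[0, Y']`. -/
theorem prim_main (ε : ℝ) (hε : 0 < ε) (hε1 : ε ≤ 1) :
    ∃ r₀ : ℕ, 3 ≤ r₀ ∧ ∀ (r : ℕ) [NeZero r], r₀ ≤ r →
      ∀ S : Finset (DirichletCharacter ℂ r), S ⊆ prim r →
      (∀ χ ∈ S, ∃ Y : ℝ, Real.log r ≤ Y ∧ Y ≤ Real.log r ^ (2 - ε) ∧
        DD χ Y < 1 / 2 * Real.log r * (Y - Real.log r) - ε * (Real.log r * Y)) →
      (S.card : ℝ) ≤ ε * NN r := by
  obtain ⟨h, δ, hh, hh1, hδ, hδ1, L₀, hL₀, hfin⟩ := final_numeric ε hε hε1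
  obtain ⟨T₀, hT₀, hw1, hw2⟩ := weight_integral δ hδ
  obtain ⟨θ, hθ, hchain⟩ := chain ε δ h T₀ hε hε1 hδ hh hh1 hT₀
  obtain ⟨D, hD, r₁, hr₁, hfew⟩ := few_bad ε (min θ ε) (T₀ + 2) hε hε1 (lt_min hθ hε) (by linarith)
  obtain ⟨r₂, hr₂, hch⟩ := hchain D hD
  obtain ⟨W₀, hW₀, hpl⟩ := plancherel_avg h δ T₀ hh hh1 hδ hT₀
  obtain ⟨L₁, hL₁, hcY⟩ := choose_Y ε δ hε hε1 hδ hδ1
  set X : ℝ := max (max L₀ L₁) (max (W₀ ^ 4) 4) with hX
  obtain ⟨r₃, hr₃⟩ := exists_nat_gt (Real.exp X)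
  refine ⟨max (max r₁ r₂) r₃, hr₁.trans ((le_max_left _ _).trans (le_max_left _ _)), ?_⟩
  intro r _ hr S hS hbad
  have hr1 : r₁ ≤ r := ((le_max_left _ _).trans (le_max_left _ _)).trans hr
  have hr2 : r₂ ≤ r := ((le_max_right _ _).trans (le_max_left _ _)).trans hr
  have hr3 : r₃ ≤ r := (le_max_right _ _).trans hr
  have hr0 : (0 : ℝ) < r := by
    have : 0 < r := by omega
    exact_mod_cast this
  have hLX : X ≤ Real.log r := by
    rw [Real.le_log_iff_exp_le hr0]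
    have h1 : (r₃ : ℝ) ≤ r := by exact_mod_cast hr3
    linarith
  have hLL0 : L₀ ≤ Real.log r := ((le_max_left _ _).trans (le_max_left _ _)).trans hLX
  have hLL1 : L₁ ≤ Real.log r := ((le_max_right _ _).trans (le_max_left _ _)).trans hLX
  have hLW : W₀ ^ 4 ≤ Real.log r := ((le_max_left _ _).trans (le_max_right _ _)).trans hLX
  have hL4 : 4 ≤ Real.log r := ((le_max_right _ _).trans (le_max_right _ _)).trans hLX
  have hres := hfew r hr1 S hS (fun χ hχ hG => ?_)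
  · refine hres.trans ?_
    exact mul_le_mul_of_nonneg_right (min_le_right _ _) (SO.A3_NN_nonneg r)
  · obtain ⟨Y', hY1, hY2, hlt⟩ := hbad χ hχ
    have hχp := hS hχ
    have hG' := M2_good_mono χ ε _ θ D (T₀ + 2) (min_le_left _ _) hG
    set L : ℝ := Real.log r with hL
    have hL0 : 0 < L := by linarith
    obtain ⟨Y, hYL, hYY', hYδ, hWY, hYW⟩ := hcY L Y' hLL1 hY1
    have hY0 : 0 < Y := by linarith
    have hY'0 : 0 < Y' := by linarith
    set W : ℝ := L ^ (1 / 2 - ε / 4 : ℝ) with hW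
    have hW0W : W₀ ≤ W := by
      have h1 : W₀ = (W₀ ^ 4) ^ (1 / 4 : ℝ) := by
        rw [← Real.rpow_natCast, ← Real.rpow_mul (by linarith)]
        norm_num
      rw [h1, hW]
      calc (W₀ ^ 4) ^ (1 / 4 : ℝ) ≤ L ^ (1 / 4 : ℝ) :=
            Real.rpow_le_rpow (by positivity) hLW (by norm_num)
        _ ≤ L ^ (1 / 2 - ε / 4 : ℝ) := Real.rpow_le_rpow_of_exponent_le (by linarith) (by linarith)
    have hW0 : 0 < W := by linarith
    have hP := hpl W Y Y' hW0W hWY hYW r χ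
    set B : ℝ := h / (2 * Real.pi) * (L * Y - L ^ 2) - δ * (L * Y) with hB
    have hA0 : 0 ≤ L ^ (1 / 2 : ℝ) := by positivity
    have hAY : L ^ (1 / 2 : ℝ) ≤ Y := by
      refine le_trans ?_ hYL
      rw [← Real.sqrt_eq_rpow, Real.sqrt_le_left (by linarith)]
      nlinarith
    have hinner : ∀ u ∈ Set.Icc (-T₀) T₀, B ≤
        ∫ t in (0 : ℝ)..Y, (1 - t / Y) * ‖PU χ W (u - h) (u + h) t‖ ^ 2 := by
      intro u hu
      have h1 := hch r hr2 χ hχp hG' u (abs_le.mpr ⟨hu.1, hu.2⟩) Y hYL (hYY'.trans hY2)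
      refine h1.trans ?_
      have hcont : Continuous fun t : ℝ => (1 - t / Y) * ‖PU χ W (u - h) (u + h) t‖ ^ 2 := by
        have h2 := M2_PU_cont r χ W h u hW0
        fun_prop
      rw [← intervalIntegral.integral_add_adjacent_intervals (a := 0) (b := L ^ (1 / 2 : ℝ)) (c := Y)
        (hcont.intervalIntegrable _ _) (hcont.intervalIntegrable _ _)]
      have h3 : 0 ≤ ∫ t in (0 : ℝ)..(L ^ (1 / 2 : ℝ)), (1 - t / Y) * ‖PU χ W (u - h) (u + h) t‖ ^ 2 := by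
        refine intervalIntegral.integral_nonneg hA0 fun t ht => ?_
        have h7 : 0 ≤ 1 - t / Y := by
          rw [sub_nonneg, div_le_one hY0]
          exact ht.2.trans hAY
        positivity
      linarith
    have hwc : Continuous fun u : ℝ => 1 / (1 / 4 + u ^ 2) := by
      refine Continuous.div continuous_const (by fun_prop) fun u => ?_
      positivity
    have hIB : (∫ u in (-T₀)..T₀, 1 / (1 / 4 + u ^ 2)) * B ≤
        ∫ u in (-T₀)..T₀, 1 / (1 / 4 + u ^ 2) *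
          ∫ t in (0 : ℝ)..Y, (1 - t / Y) * ‖PU χ W (u - h) (u + h) t‖ ^ 2 := by
      rw [← intervalIntegral.integral_mul_const]
      refine intervalIntegral.integral_mono_on (by linarith)
        ((hwc.mul continuous_const).intervalIntegrable _ _)
        ((hwc.mul (inner_continuous r χ W h 0 Y hW0)).intervalIntegrable _ _) fun u hu => ?_
      exact mul_le_mul_of_nonneg_left (hinner u hu) (by positivity)
    have hfinal := hfin L Y Y' (DD χ Y') _ hLL0 hY1 hYL hYY' hYδ (M2_DD_nonneg χ Y' hY'0) hw1 hw2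
      (hIB.trans hP)
    linarith

end Pool.Agent.SK
end

section

set_option autoImplicit false

/-! Task MA: the lower bound for primitive characters. -/

namespace Pool.Agent.SD

open Complex MeasureTheory
open Pool.Agent.SK
open Pool.Agent.SO (prim NN)

/-- MA. PROOF. As `prim_main` in SK/M2.lean (copy it). `h, δ, L₀` from `final_numeric2 ε`; `T₁` from `weight_integral δ`; the `T₀` of the
statement is `T₁ + 2`; `η, θ` from `chain2 ε δ h T₁`; given `κ`: `D, r₁` from `few_bad ε (min θ κ) (T₁ + 2)` (`M2_good_mono`), `r₂` from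
`chain2 .. D`, `W₀` from `plancherel_avg h δ T₁`, `choose_Y ε δ`. For a `Good` character `χ` with `Y'` as in the hypothesis: for `|u| ≤ T₁`
`h/(2π)(2LY - L²) - (Y/2) NU u - δLY ≤ ∫_0^Y (1-t/Y)‖PU‖²`; multiply by `1/(1/4+u²)`, integrate over `[-T₁, T₁]` (`NW_int`, `NU_eq_NW`):
`I (h/(2π)(2LY - L²) - δLY) - (Y/2) J ≤ (2h(1+12h)+δ)(Y'/Y) DD χ Y' + 1` with `J = ∫ 1/(1/4+u²) * NU (GZ χ (T₁+2)) (h+η) u`,
`J ≤ 2(h+η)(1+2(h+η)+4(h+η)²) gF (GZ χ (T₁+2))` (`wt_upper` with `m = 1`, `NU_eq_NW`, `gF_eq_gW`); `final_numeric2` (`g = gF (GZ χ (T₁ + 2))`) contradicts the hypothesis. -/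
theorem prim_lower2 (ε : ℝ) (hε : 0 < ε) (hε1 : ε ≤ 1) :
    ∃ T₀ : ℝ, 0 < T₀ ∧ ∀ κ : ℝ, 0 < κ → ∃ r₀ : ℕ, 3 ≤ r₀ ∧ ∀ (r : ℕ) [NeZero r], r₀ ≤ r →
      ∀ S : Finset (DirichletCharacter ℂ r), S ⊆ prim r →
      (∀ χ ∈ S, ∃ Y : ℝ, Real.log r ≤ Y ∧ Y ≤ Real.log r ^ (2 - ε) ∧
        DD χ Y < 1 / 2 * (2 * (Real.log r * Y) - Real.log r ^ 2) - 1 / 2 * Y * gF (GZ χ T₀) -
          ε * (Real.log r * Y)) →
      (S.card : ℝ) ≤ κ * NN r := by
  obtain ⟨h, δ, hh, hh1, hδ, hδ1, L₀, hL₀, hfin⟩ := final_numeric2 ε hε hε1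
  obtain ⟨T₁, hT₁, hw1, hw2⟩ := weight_integral δ hδ
  obtain ⟨η, θ, hη, hη1, hηδ, hθ, hchain⟩ := chain2 ε δ h T₁ hε hε1 hδ hh hh1 hT₁
  refine ⟨T₁ + 2, by linarith, ?_⟩
  intro κ hκ
  obtain ⟨D, hD, r₁, hr₁, hfew⟩ := few_bad ε (min θ κ) (T₁ + 2) hε hε1 (lt_min hθ hκ) (by linarith)
  obtain ⟨r₂, hr₂, hch⟩ := hchain D hD
  obtain ⟨W₀, hW₀, hpl⟩ := plancherel_avg h δ T₁ hh hh1 hδ hT₁
  obtain ⟨L₁, hL₁, hcY⟩ := choose_Y ε δ hε hε1 hδ hδ1
  set X : ℝ := max (max L₀ L₁) (max (W₀ ^ 4) 4) with hX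
  obtain ⟨r₃, hr₃⟩ := exists_nat_gt (Real.exp X)
  refine ⟨max (max r₁ r₂) r₃, hr₁.trans ((le_max_left _ _).trans (le_max_left _ _)), ?_⟩
  intro r _ hr S hS hbad
  have hr1 : r₁ ≤ r := ((le_max_left _ _).trans (le_max_left _ _)).trans hr
  have hr2 : r₂ ≤ r := ((le_max_right _ _).trans (le_max_left _ _)).trans hr
  have hr3 : r₃ ≤ r := (le_max_right _ _).trans hr
  have hr0 : (0 : ℝ) < r := by
    have : 0 < r := by omega
    exact_mod_cast this
  have hLX : X ≤ Real.log r := by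
    rw [Real.le_log_iff_exp_le hr0]
    have h1 : (r₃ : ℝ) ≤ r := by exact_mod_cast hr3
    linarith
  have hLL0 : L₀ ≤ Real.log r := ((le_max_left _ _).trans (le_max_left _ _)).trans hLX
  have hLL1 : L₁ ≤ Real.log r := ((le_max_right _ _).trans (le_max_left _ _)).trans hLX
  have hLW : W₀ ^ 4 ≤ Real.log r := ((le_max_left _ _).trans (le_max_right _ _)).trans hLX
  have hL4 : 4 ≤ Real.log r := ((le_max_right _ _).trans (le_max_right _ _)).trans hLX
  have hres := hfew r hr1 S hS (fun χ hχ hG => ?_)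
  · refine hres.trans ?_
    exact mul_le_mul_of_nonneg_right (min_le_right _ _) (SO.A3_NN_nonneg r)
  · obtain ⟨Y', hY1, hY2, hlt⟩ := hbad χ hχ
    have hχp := hS hχ
    have hG' := M2_good_mono χ ε _ θ D (T₁ + 2) (min_le_left _ _) hG
    set L : ℝ := Real.log r with hL
    have hL0 : 0 < L := by linarith
    obtain ⟨Y, hYL, hYY', hYδ, hWY, hYW⟩ := hcY L Y' hLL1 hY1
    have hY0 : 0 < Y := by linarith
    have hY'0 : 0 < Y' := by linarith
    set W : ℝ := L ^ (1 / 2 - ε / 4 : ℝ) with hW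
    have hW0W : W₀ ≤ W := by
      have h1 : W₀ = (W₀ ^ 4) ^ (1 / 4 : ℝ) := by
        rw [← Real.rpow_natCast, ← Real.rpow_mul (by linarith)]
        norm_num
      rw [h1, hW]
      calc (W₀ ^ 4) ^ (1 / 4 : ℝ) ≤ L ^ (1 / 4 : ℝ) :=
            Real.rpow_le_rpow (by positivity) hLW (by norm_num)
        _ ≤ L ^ (1 / 2 - ε / 4 : ℝ) := Real.rpow_le_rpow_of_exponent_le (by linarith) (by linarith)
    have hW0 : 0 < W := by linarith
    have hP := hpl W Y Y' hW0W hWY hYW r χ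
    set B : ℝ := h / (2 * Real.pi) * (2 * (L * Y) - L ^ 2) - δ * (L * Y) with hB
    have hA0 : 0 ≤ L ^ (1 / 2 : ℝ) := by positivity
    have hAY : L ^ (1 / 2 : ℝ) ≤ Y := by
      refine le_trans ?_ hYL
      rw [← Real.sqrt_eq_rpow, Real.sqrt_le_left (by linarith)]
      nlinarith
    have hinner : ∀ u ∈ Set.Icc (-T₁) T₁, B - Y / 2 * NU (GZ χ (T₁ + 2)) (h + η) u ≤
        ∫ t in (0 : ℝ)..Y, (1 - t / Y) * ‖PU χ W (u - h) (u + h) t‖ ^ 2 := by
      intro u hu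
      have h1 := hch r hr2 χ hχp hG' u (abs_le.mpr ⟨hu.1, hu.2⟩) Y hYL (hYY'.trans hY2)
      have h1' : B - Y / 2 * NU (GZ χ (T₁ + 2)) (h + η) u ≤
          ∫ t in (L ^ (1 / 2 : ℝ))..Y, (1 - t / Y) * ‖PU χ W (u - h) (u + h) t‖ ^ 2 := by
        rw [hB]
        linarith
      refine h1'.trans ?_
      have hcont : Continuous fun t : ℝ => (1 - t / Y) * ‖PU χ W (u - h) (u + h) t‖ ^ 2 := by
        have h2 := M2_PU_cont r χ W h u hW0
        fun_prop
      rw [← intervalIntegral.integral_add_adjacent_intervals (a := 0) (b := L ^ (1 / 2 : ℝ)) (c := Y)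
        (hcont.intervalIntegrable _ _) (hcont.intervalIntegrable _ _)]
      have h3 : 0 ≤ ∫ t in (0 : ℝ)..(L ^ (1 / 2 : ℝ)), (1 - t / Y) * ‖PU χ W (u - h) (u + h) t‖ ^ 2 := by
        refine intervalIntegral.integral_nonneg hA0 fun t ht => ?_
        have h7 : 0 ≤ 1 - t / Y := by
          rw [sub_nonneg, div_le_one hY0]
          exact ht.2.trans hAY
        positivity
      linarith
    have hwc : Continuous fun u : ℝ => 1 / (1 / 4 + u ^ 2) := by
      refine Continuous.div continuous_const (by fun_prop) fun u => ?_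
      positivity
    have hNint : IntervalIntegrable (fun u : ℝ => 1 / (1 / 4 + u ^ 2) * NU (GZ χ (T₁ + 2)) (h + η) u)
        volume (-T₁) T₁ := by
      have h2 := NW_int (GZ χ (T₁ + 2)) (fun _ => 1) (h + η) (-T₁) T₁
      simpa only [NU_eq_NW] using h2
    set J : ℝ := ∫ u in (-T₁)..T₁, 1 / (1 / 4 + u ^ 2) * NU (GZ χ (T₁ + 2)) (h + η) u with hJ
    have hJle : J ≤ 2 * (h + η) * (1 + 2 * (h + η) + 4 * (h + η) ^ 2) * gF (GZ χ (T₁ + 2)) := by
      have h2 := wt_upper (GZ χ (T₁ + 2)) (fun _ => 1) (h + η) T₁ (fun _ _ => zero_le_one)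
        (by linarith) hT₁.le
      rw [← gF_eq_gW] at h2
      simp only [← NU_eq_NW] at h2
      exact h2
    have hIB : (∫ u in (-T₁)..T₁, 1 / (1 / 4 + u ^ 2)) * B - Y / 2 * J ≤
        ∫ u in (-T₁)..T₁, 1 / (1 / 4 + u ^ 2) *
          ∫ t in (0 : ℝ)..Y, (1 - t / Y) * ‖PU χ W (u - h) (u + h) t‖ ^ 2 := by
      have hi1 : IntervalIntegrable (fun u : ℝ => 1 / (1 / 4 + u ^ 2) * B) volume (-T₁) T₁ :=
        (hwc.mul continuous_const).intervalIntegrable _ _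
      have hi2 : IntervalIntegrable (fun u : ℝ => Y / 2 * (1 / (1 / 4 + u ^ 2) *
          NU (GZ χ (T₁ + 2)) (h + η) u)) volume (-T₁) T₁ := hNint.const_mul _
      rw [hJ, ← intervalIntegral.integral_mul_const, ← intervalIntegral.integral_const_mul,
        ← intervalIntegral.integral_sub hi1 hi2]
      refine intervalIntegral.integral_mono_on (by linarith) (hi1.sub hi2)
        ((hwc.mul (inner_continuous r χ W h 0 Y hW0)).intervalIntegrable _ _) fun u hu => ?_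
      have h5 : 0 ≤ 1 / (1 / 4 + u ^ 2) := by positivity
      have h4 := mul_le_mul_of_nonneg_left (hinner u hu) h5
      refine le_trans (le_of_eq ?_) h4
      ring
    have hfinal := hfin L Y Y' (DD χ Y') _ (gF (GZ χ (T₁ + 2))) J η hLL0 hY1 hYL hYY' hYδ
      (M2_DD_nonneg χ Y' hY'0) hw1 hw2 (gF_nonneg _) hη hηδ hJle (hIB.trans hP)
    linarith

end Pool.Agent.SD
end

section

set_option autoImplicit false

/-! Task MB: the weighted sum over all zeros. -/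

namespace Pool.Agent.SD

open Complex MeasureTheory
open Pool.Agent.SK
open Pool.Agent.SO (prim NN)

private theorem MB_eq (T : ℝ) : (∫ u in (-T)..T, 1 / (1 / 4 + u ^ 2)) = 4 * Real.arctan (2 * T) := by
  have hd : ∀ u ∈ Set.uIcc (-T) T, HasDerivAt (fun u : ℝ => 2 * Real.arctan (2 * u)) (1 / (1 / 4 + u ^ 2)) u := by
    intro u _
    have h1 : HasDerivAt (fun u : ℝ => 2 * u) 2 u := by
      simpa using (hasDerivAt_id u).const_mul (2 : ℝ)
    have h2 := ((Real.hasDerivAt_arctan (2 * u)).comp u h1).const_mul (2 : ℝ)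
    have e : (2 : ℝ) * (1 / (1 + (2 * u) ^ 2) * 2) = 1 / (1 / 4 + u ^ 2) := by
      have p1 : (0 : ℝ) < 1 + (2 * u) ^ 2 := by positivity
      have p2 : (0 : ℝ) < 1 / 4 + u ^ 2 := by positivity
      field_simp
      ring
    rw [e] at h2
    exact h2
  have hi : IntervalIntegrable (fun u : ℝ => 1 / (1 / 4 + u ^ 2)) MeasureTheory.volume (-T) T := by
    apply Continuous.intervalIntegrable
    refine continuous_const.div (by fun_prop) ?_
    intro u
    positivity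
  rw [intervalIntegral.integral_eq_sub_of_hasDerivAt hd hi]
  have : Real.arctan (2 * -T) = - Real.arctan (2 * T) := by
    rw [show (2 : ℝ) * -T = -(2 * T) by ring, Real.arctan_neg]
  rw [this]
  ring

/-- MB1. PROOF. `∫_{-T}^{T} 1/(1/4+u²) du ≤ 2π`: it is `4 arctan (2T)` (see `M1C_eq` in SK/M1C.lean, private there: copy), `arctan < π/2`. -/
theorem weight_le (T : ℝ) (hT : 0 ≤ T) : ∫ u in (-T)..T, 1 / (1 / 4 + u ^ 2) ≤ 2 * Real.pi := by
  rw [MB_eq]
  have := Real.arctan_lt_pi_div_two (2 * T)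
  linarith

/-- MB2. PROOF. `GZ χ T ⊆ GZ χ T'` (`mem_Z`), nonnegative terms. -/
theorem gF_mono (r : ℕ) [NeZero r] (hr : 2 ≤ r) (χ : DirichletCharacter ℂ r) (hχ : χ ∈ prim r) (T T' : ℝ)
    (h : T ≤ T') : gF (GZ χ T) ≤ gF (GZ χ T') := by
  unfold gF
  refine Finset.sum_le_sum_of_subset_of_nonneg ?_ fun w _ _ => by positivity
  intro w hw
  unfold GZ at hw ⊢
  rw [Finset.mem_filter, mem_Z r hr χ hχ] at hw ⊢
  exact ⟨⟨hw.1.1, hw.1.2.trans h⟩, hw.2⟩

/-- MB3. PROOF. `Z χ T ⊆ Z χ T'` (`mem_Z`), `mu_nonneg`. -/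
theorem gW_mono (r : ℕ) [NeZero r] (hr : 2 ≤ r) (χ : DirichletCharacter ℂ r) (hχ : χ ∈ prim r) (T T' : ℝ)
    (h : T ≤ T') : gW (Z χ T) (mu χ) ≤ gW (Z χ T') (mu χ) := by
  unfold gW
  refine Finset.sum_le_sum_of_subset_of_nonneg ?_ fun w _ _ =>
    mul_nonneg (mu_nonneg r χ w) (by positivity)
  intro w hw
  rw [mem_Z r hr χ hχ] at hw ⊢
  exact ⟨hw.1, hw.2.trans h⟩

/-- MB4. PROOF. `GZ χ T` is a subset of `Z χ T` on which `mu = 1`; `mu_nonneg`. -/
theorem gF_le_gW (r : ℕ) [NeZero r] (χ : DirichletCharacter ℂ r) (T : ℝ) : gF (GZ χ T) ≤ gW (Z χ T) (mu χ) := by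
  unfold gF gW
  have h1 : ∑ w ∈ GZ χ T, 1 / (1 / 4 + w.im ^ 2) = ∑ w ∈ GZ χ T, mu χ w * (1 / (1 / 4 + w.im ^ 2)) := by
    refine Finset.sum_congr rfl fun w hw => ?_
    unfold GZ at hw
    rw [(Finset.mem_filter.1 hw).2.2, one_mul]
  rw [h1]
  refine Finset.sum_le_sum_of_subset_of_nonneg ?_ fun w _ _ =>
    mul_nonneg (mu_nonneg r χ w) (by positivity)
  unfold GZ
  exact Finset.filter_subset _ _

end Pool.Agent.SD
end

section

set_option autoImplicit false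

/-! Task MC: the weighted sum over all zeros is `(1 + o(1)) log r` for almost all primitive characters. -/

namespace Pool.Agent.SD

open Complex MeasureTheory
open Pool.Agent.SK
open Pool.Agent.SO (prim NN)

theorem MC_up (ε L g : ℝ) (hε : 0 < ε) (hε1 : ε ≤ 1) (hL : 0 ≤ L)
    (h : 2 * (ε / 100) * g ≤ (1 + 2 * (ε / 100) + 4 * (ε / 100) ^ 2) *
      ((ε / 100 / Real.pi + ε * (ε / 100) / 100) * L * (2 * Real.pi))) : g ≤ (1 + ε) * L := by
  have hpi := Real.pi_pos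
  have hpi4 : Real.pi ≤ 4 := Real.pi_le_four
  have e1 : (ε / 100 / Real.pi + ε * (ε / 100) / 100) * L * (2 * Real.pi) =
      2 * (ε / 100) * ((1 + Real.pi * ε / 100) * L) := by
    field_simp
  rw [e1] at h
  have h1 : g ≤ (1 + 2 * (ε / 100) + 4 * (ε / 100) ^ 2) * ((1 + Real.pi * ε / 100) * L) := by
    have h2 : 2 * (ε / 100) * g ≤ 2 * (ε / 100) *
        ((1 + 2 * (ε / 100) + 4 * (ε / 100) ^ 2) * ((1 + Real.pi * ε / 100) * L)) := by
      linarith
    exact le_of_mul_le_mul_left h2 (by positivity)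
  have h3 : (1 + Real.pi * ε / 100) * L ≤ (1 + 4 * ε / 100) * L := by
    apply mul_le_mul_of_nonneg_right _ hL
    have : Real.pi * ε ≤ 4 * ε := mul_le_mul_of_nonneg_right hpi4 hε.le
    linarith
  have h4 : 1 + 2 * (ε / 100) + 4 * (ε / 100) ^ 2 ≤ 1 + 3 * ε / 100 := by nlinarith
  calc g ≤ (1 + 2 * (ε / 100) + 4 * (ε / 100) ^ 2) * ((1 + Real.pi * ε / 100) * L) := h1
    _ ≤ (1 + 3 * ε / 100) * ((1 + 4 * ε / 100) * L) :=
        mul_le_mul h4 h3 (by positivity) (by positivity)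
    _ = ((1 + 3 * ε / 100) * (1 + 4 * ε / 100)) * L := by ring
    _ ≤ (1 + ε) * L := mul_le_mul_of_nonneg_right (by nlinarith) hL

theorem MC_lo (ε L g : ℝ) (hε : 0 < ε) (hε1 : ε ≤ 1) (hL : 0 ≤ L) (hg : 0 ≤ g)
    (h : (2 * Real.pi - ε / 10) * ((ε / 100 / Real.pi - ε * (ε / 100) / 100) * L) ≤
      2 * (ε / 100) * (1 + 2 * (ε / 100) + 4 * (ε / 100) ^ 2) * g) : (1 - ε) * L ≤ g := by
  have hpi := Real.pi_pos
  have hpi3 := Real.pi_gt_three
  have hpi4 : Real.pi ≤ 4 := Real.pi_le_four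
  have e1 : (2 * Real.pi - ε / 10) * ((ε / 100 / Real.pi - ε * (ε / 100) / 100) * L) =
      2 * (ε / 100) * ((1 - ε / (20 * Real.pi)) * (1 - Real.pi * ε / 100) * L) := by
    field_simp
    ring
  rw [e1] at h
  have h1 : (1 - ε / (20 * Real.pi)) * (1 - Real.pi * ε / 100) * L ≤
      (1 + 2 * (ε / 100) + 4 * (ε / 100) ^ 2) * g := by
    have h2 : 2 * (ε / 100) * ((1 - ε / (20 * Real.pi)) * (1 - Real.pi * ε / 100) * L) ≤
        2 * (ε / 100) * ((1 + 2 * (ε / 100) + 4 * (ε / 100) ^ 2) * g) := by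
      linarith
    exact le_of_mul_le_mul_left h2 (by positivity)
  have h3 : 1 - 2 * ε / 100 ≤ 1 - ε / (20 * Real.pi) := by
    have : ε / (20 * Real.pi) ≤ 2 * ε / 100 := by
      rw [div_le_div_iff₀ (by positivity) (by norm_num)]
      nlinarith
    linarith
  have h4 : 1 - 4 * ε / 100 ≤ 1 - Real.pi * ε / 100 := by
    have : Real.pi * ε ≤ 4 * ε := mul_le_mul_of_nonneg_right hpi4 hε.le
    linarith
  have h5 : (1 - 2 * ε / 100) * (1 - 4 * ε / 100) * L ≤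
      (1 - ε / (20 * Real.pi)) * (1 - Real.pi * ε / 100) * L := by
    apply mul_le_mul_of_nonneg_right _ hL
    exact mul_le_mul h3 h4 (by linarith) (by linarith)
  have h6 : (1 + 2 * (ε / 100) + 4 * (ε / 100) ^ 2) * g ≤ (1 + 3 * ε / 100) * g :=
    mul_le_mul_of_nonneg_right (by nlinarith) hg
  have h7 : (1 - ε) * (1 + 3 * ε / 100) * L ≤ (1 - 2 * ε / 100) * (1 - 4 * ε / 100) * L :=
    mul_le_mul_of_nonneg_right (by nlinarith) hL
  have h8 : (1 + 3 * ε / 100) * ((1 - ε) * L) ≤ (1 + 3 * ε / 100) * g := by linarith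
  exact le_of_mul_le_mul_left h8 (by positivity)

theorem MC_mono {F G : Finset ℂ} {m : ℂ → ℝ} {h h' u : ℝ} (hm : ∀ w, 0 ≤ m w)
    (hsub : ∀ w ∈ F, |w.im - u| ≤ h → w ∈ G ∧ |w.im - u| ≤ h') : NW F m h u ≤ NW G m h' u := by
  unfold NW
  refine Finset.sum_le_sum_of_subset_of_nonneg ?_ fun w _ _ => hm w
  intro w hw
  obtain ⟨h1, h2⟩ := Finset.mem_filter.1 hw
  exact Finset.mem_filter.2 (hsub w h1 h2)

/-- MC. PROOF. `h = ε/100`, `δ = ε h/100`, `T₁` from `weight_integral (ε/10)`; `T₀ := T₁ + 2`. Given `T ≥ T₀` and `κ`: `T₂ := T + 2`; `θ` from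
`count_both ε δ h T₂` (used for both bounds; a `Good` with `T₂ + 2`), `D, r₁` from `few_bad ε (min θ κ) (T₂ + 2)` (`M2_good_mono`), `r₂` from `count_both .. D`.
Every `χ ∈ S` is not `Good χ ε (min θ κ) D (T₂ + 2)`. Suppose it is; `L = log r`, `F = Z χ (T₂ + 2)`, `N(u) = NW F (mu χ) h u`,
`(h/π - δ) L ≤ N(u) ≤ (h/π + δ) L` for `|u| ≤ T₂`.
Upper bound: `NW (Z χ T) (mu χ) h u ≤ N(u)` (`mem_Z`, `mu_nonneg`); `wt_lower (Z χ T) (mu χ) h T₂` and `weight_le`:
`2h gW (Z χ T) ≤ (1+2h+4h²) 2π (h/π + δ) L`, so `gW ≤ (1+2h+4h²)(1 + π δ/h) L ≤ (1+ε) L`.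
Lower bound: for `|u| ≤ T₁`: `N(u) = NW (Z χ T) (mu χ) h u` as `|u| + h ≤ T₁ + 1 ≤ T` (`mem_Z`), so by `wt_upper (Z χ T) (mu χ) h T₁` and `weight_integral`:
`(2π - ε/10)(h/π - δ) L ≤ 2h(1+2h+4h²) gW (Z χ T)`, so `gW ≥ (1-ε) L`. Both contradict the hypothesis on `χ`; `few_bad` gives the count. -/
theorem prim_total (ε : ℝ) (hε : 0 < ε) (hε1 : ε ≤ 1) :
    ∃ T₀ : ℝ, 0 < T₀ ∧ ∀ T : ℝ, T₀ ≤ T → ∀ κ : ℝ, 0 < κ → ∃ r₀ : ℕ, 3 ≤ r₀ ∧ ∀ (r : ℕ) [NeZero r], r₀ ≤ r →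
      ∀ S : Finset (DirichletCharacter ℂ r), S ⊆ prim r →
      (∀ χ ∈ S, gW (Z χ T) (mu χ) < (1 - ε) * Real.log r ∨ (1 + ε) * Real.log r < gW (Z χ T) (mu χ)) →
      (S.card : ℝ) ≤ κ * NN r := by
  obtain ⟨T₁, hT₁, hw1, hw2⟩ := weight_integral (ε / 10) (by positivity)
  have hh : 0 < ε / 100 := by positivity
  have hh1 : ε / 100 ≤ 1 := by linarith
  have hδ : 0 < ε * (ε / 100) / 100 := by positivity
  have hδ1 : ε * (ε / 100) / 100 ≤ 1 := by nlinarith
  refine ⟨T₁ + 2, by linarith, fun T hT κ hκ => ?_⟩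
  have hT0 : 0 < T + 2 := by linarith
  obtain ⟨θ, hθ, hcount⟩ := count_both ε (ε * (ε / 100) / 100) (ε / 100) (T + 2) hε hε1 hδ hδ1
    hh hh1 hT0
  obtain ⟨D, hD, r₁, hr₁, hfew⟩ := few_bad ε (min θ κ) (T + 2 + 2) hε hε1 (lt_min hθ hκ)
    (by linarith)
  obtain ⟨r₂, hr₂, hc⟩ := hcount D hD
  refine ⟨max r₁ r₂, hr₁.trans (le_max_left _ _), ?_⟩
  intro r _ hr S hS hbad
  have hr1 : r₁ ≤ r := (le_max_left _ _).trans hr
  have hr2 : r₂ ≤ r := (le_max_right _ _).trans hr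
  have hr22 : 2 ≤ r := by omega
  have hres := hfew r hr1 S hS (fun χ hχ hG => ?_)
  · refine hres.trans ?_
    exact mul_le_mul_of_nonneg_right (min_le_right _ _) (SO.A3_NN_nonneg r)
  · have hχp := hS hχ
    have hG' := M2_good_mono χ ε _ θ D (T + 2 + 2) (min_le_left _ _) hG
    have hN := hc r hr2 χ hχp hG'
    have hm : ∀ w, 0 ≤ mu χ w := mu_nonneg r χ
    set L : ℝ := Real.log r with hLdef
    have hL : 0 ≤ L := Real.log_natCast_nonneg r
    have hpi := Real.pi_pos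
    have hg0 : 0 ≤ gW (Z χ T) (mu χ) :=
      Finset.sum_nonneg fun w _ => mul_nonneg (hm w) (by positivity)
    have hwc : Continuous fun u : ℝ => 1 / (1 / 4 + u ^ 2) := by
      refine Continuous.div continuous_const (by fun_prop) fun u => ?_
      positivity
    -- upper bound
    have hup : gW (Z χ T) (mu χ) ≤ (1 + ε) * L := by
      have h1 := wt_lower (Z χ T) (mu χ) (ε / 100) (T + 2) (fun w _ => hm w) hh.le
        (fun w hw => by
          have h2 := ((mem_Z r hr22 χ hχp T w).1 hw).2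
          linarith)
      have h2 : ∫ u in (-(T + 2))..(T + 2), 1 / (1 / 4 + u ^ 2) * NW (Z χ T) (mu χ) (ε / 100) u ≤
          ∫ u in (-(T + 2))..(T + 2), 1 / (1 / 4 + u ^ 2) *
            ((ε / 100 / Real.pi + ε * (ε / 100) / 100) * L) := by
        refine intervalIntegral.integral_mono_on (by linarith) (NW_int _ _ _ _ _)
          ((hwc.mul continuous_const).intervalIntegrable _ _) fun u hu => ?_
        refine mul_le_mul_of_nonneg_left ?_ (by positivity)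
        refine (MC_mono hm fun w hw hwu => ⟨?_, hwu⟩).trans (hN u (abs_le.2 ⟨hu.1, hu.2⟩)).2
        have h3 := (mem_Z r hr22 χ hχp T w).1 hw
        exact (mem_Z r hr22 χ hχp _ w).2 ⟨h3.1, by linarith [h3.2]⟩
      rw [intervalIntegral.integral_mul_const] at h2
      have h3 := weight_le (T + 2) hT0.le
      have h4 : (∫ u in (-(T + 2))..(T + 2), 1 / (1 / 4 + u ^ 2)) *
          ((ε / 100 / Real.pi + ε * (ε / 100) / 100) * L) ≤
          (ε / 100 / Real.pi + ε * (ε / 100) / 100) * L * (2 * Real.pi) := by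
        rw [mul_comm]
        exact mul_le_mul_of_nonneg_left h3 (by positivity)
      refine MC_up ε L _ hε hε1 hL (h1.trans ?_)
      exact mul_le_mul_of_nonneg_left (h2.trans h4) (by positivity)
    -- lower bound
    have hlo : (1 - ε) * L ≤ gW (Z χ T) (mu χ) := by
      have h1 := wt_upper (Z χ T) (mu χ) (ε / 100) T₁ (fun w _ => hm w) hh.le hT₁.le
      have hδπ : 0 ≤ ε / 100 / Real.pi - ε * (ε / 100) / 100 := by
        have h5 : ε * (ε / 100) / 100 ≤ ε / 100 / Real.pi := by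
          rw [div_le_div_iff₀ (by norm_num) hpi]
          have := Real.pi_le_four
          nlinarith
        linarith
      have h2 : ∫ u in (-T₁)..T₁, 1 / (1 / 4 + u ^ 2) *
            ((ε / 100 / Real.pi - ε * (ε / 100) / 100) * L) ≤
          ∫ u in (-T₁)..T₁, 1 / (1 / 4 + u ^ 2) * NW (Z χ T) (mu χ) (ε / 100) u := by
        refine intervalIntegral.integral_mono_on (by linarith)
          ((hwc.mul continuous_const).intervalIntegrable _ _) (NW_int _ _ _ _ _) fun u hu => ?_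
        refine mul_le_mul_of_nonneg_left ?_ (by positivity)
        have hu' : |u| ≤ T + 2 := abs_le.2 ⟨by linarith [hu.1], by linarith [hu.2]⟩
        refine (hN u hu').1.trans (MC_mono hm fun w hw hwu => ⟨?_, hwu⟩)
        have h3 := (mem_Z r hr22 χ hχp _ w).1 hw
        refine (mem_Z r hr22 χ hχp _ w).2 ⟨h3.1, ?_⟩
        have h4 := abs_le.1 hwu
        exact abs_le.2 ⟨by linarith [hu.1, h4.1], by linarith [hu.2, h4.2]⟩
      rw [intervalIntegral.integral_mul_const] at h2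
      refine MC_lo ε L _ hε hε1 hL hg0 ?_
      refine le_trans ?_ (h2.trans h1)
      exact mul_le_mul_of_nonneg_right hw1 (by positivity)
    rcases hbad χ hχ with h1 | h1
    · exact absurd hlo (not_le.2 h1)
    · exact absurd hup (not_le.2 h1)

end Pool.Agent.SD
end
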