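import Pool.Agent.Lib.MP_9cfc0a_nt.Mg.G021
import Pool.Agent.Lib.MP_9cfc0a_nt.Mg.G010
import Pool.Agent.Lib.MP_9cfc0a_nt.Mg.G009
import Pool.Agent.Lib.MP_9cfc0a_nt.Mg.G020

section

set_option autoImplicit false

/-! Task FF: all characters modulo `q`. -/

namespace Pool.Agent.SD

open Complex MeasureTheory
open Pool.Agent.SK MP9cfc0a.SK
open Pool.Agent.SO (prim NN)

/-- FF. PROOF. We may assume `ε ≤ 1` (see `chars_of_prim` in SK/F4.lean: for `ε > 1` use the statement for `1`; `(1-ε) log q ≤ 0 ≤ aL` then follows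
from `gL_nonneg`, `gL ≤ aL`). `ε' = ε/8`, `T₀` = max of those of `prim_lower2 ε'`, `prim_total ε'`. Given `T ≥ T₀`, `κ`:
`Bad r ψ := ∃ _ : NeZero r, (gW (Z ψ T) (mu ψ) < (1 - ε') log r ∨ (1 + ε') log r < gW (Z ψ T) (mu ψ)) ∨ ∃ Y, log r ≤ Y ∧ Y ≤ (log r)^(2-ε') ∧
DD ψ Y < (1/2)(2 (log r Y) - (log r)²) - (1/2) Y gF (GZ ψ T) - ε' (log r Y)`. A set `S` of bad primitive characters is the union of two sets; the second
alternative implies the hypothesis of `prim_lower2` (`gF_mono`, `Y ≥ 0`), so `S.card ≤ κ/8 NN + κ/8 NN` for `r ≥ r₀` (`prim_total`,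
`prim_lower2` with `κ/8`). `transfer Bad κ (ε/8)` gives `S`. For `χ ∈ S` let `r = χ.conductor ≥ q^(1-ε/8) ≥ 2` (so `NeZero`; `q ≥ 3` large), `g = gL χ T = gF (GZ χ* T)`
(`gL_eq`), `aL χ T = gW (Z χ* T) (mu χ*)` (`aL_eq`); `(1-ε/8) log q ≤ log r ≤ log q`. Not bad: `(1-ε') log r ≤ aL ≤ (1+ε') log r`, `gL ≤ aL` (`gF_le_gW`), and for
all `Y` the lower bound for `DD χ* Y`, i.e. for `En χ* y` with `Y = log y` (`DD_eq_En`, `Real.exp_log`; `(log r)^(2-ε/2) ≤ (log r)^(2-ε/8)`), and `one_char` finishes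
(`F4_large` for its two numerical hypotheses). -/
theorem chars2 (ε : ℝ) (hε : 0 < ε) : ∃ T₀ : ℝ, 0 < T₀ ∧ ∀ T : ℝ, T₀ ≤ T → ∀ κ : ℝ, 0 < κ → ∃ q₀ : ℕ, 3 ≤ q₀ ∧
    ∀ (q : ℕ) [NeZero q], q₀ ≤ q → ∃ S : Finset (DirichletCharacter ℂ q),
      (1 - κ) * (q.totient : ℝ) ≤ (S.card : ℝ) ∧ (∀ χ ∈ S, χ ≠ 1) ∧
      (∀ χ ∈ S, gL χ T ≤ aL χ T ∧ (1 - ε) * Real.log q ≤ aL χ T ∧ aL χ T ≤ (1 + ε) * Real.log q) ∧
      ∀ χ ∈ S, ∀ y : ℝ, (q : ℝ) ≤ y → Real.log y ≤ (Real.log q) ^ (2 - ε) →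
        1 / 2 * (2 * (Real.log q * Real.log y) - Real.log q ^ 2) - 1 / 2 * Real.log y * gL χ T -
          ε * (Real.log q * Real.log y) ≤ En χ y := by
  classical
  have hlog1 : ∀ q : ℕ, 3 ≤ q → 1 ≤ Real.log q := by
    intro q hq
    have hq3 : (3 : ℝ) ≤ q := by exact_mod_cast hq
    rw [Real.le_log_iff_exp_le (by linarith)]
    exact Real.exp_one_lt_d9.le.trans (by linarith)
  -- we may assume `ε ≤ 1`
  wlog hε1 : ε ≤ 1 generalizing ε with Hw
  · obtain ⟨T₀, hT₀, hall⟩ := Hw 1 one_pos le_rfl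
    push Not at hε1
    refine ⟨T₀, hT₀, fun T hT κ hκ => ?_⟩
    obtain ⟨q₀, h3, h⟩ := hall T hT κ hκ
    refine ⟨q₀, h3, fun q _ hq => ?_⟩
    obtain ⟨S, h1, h2, h4, h5⟩ := h q hq
    have hL1 := hlog1 q (h3.trans hq)
    have hq3 : (3 : ℝ) ≤ q := by exact_mod_cast h3.trans hq
    refine ⟨S, h1, h2, fun χ hχ => ?_, fun χ hχ y hy1 hy2 => ?_⟩
    · obtain ⟨a1, a2, a3⟩ := h4 χ hχ
      refine ⟨a1, ?_, ?_⟩
      · have h6 : (1 - ε) * Real.log q ≤ 0 := mul_nonpos_of_nonpos_of_nonneg (by linarith) (by linarith)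
        linarith [gL_nonneg q χ T]
      · have h6 : (1 + 1) * Real.log q ≤ (1 + ε) * Real.log q :=
          mul_le_mul_of_nonneg_right (by linarith) (by linarith)
        linarith
    · have hy3 : Real.log y ≤ (Real.log q) ^ ((2 : ℝ) - 1) :=
        hy2.trans (Real.rpow_le_rpow_of_exponent_le hL1 (by linarith))
      have h6 := h5 χ hχ y hy1 hy3
      have hLy : Real.log q ≤ Real.log y := Real.log_le_log (by linarith) hy1
      have h7 : 0 ≤ Real.log q * Real.log y := mul_nonneg (by linarith) (by linarith)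
      have h8 : 1 * (Real.log q * Real.log y) ≤ ε * (Real.log q * Real.log y) :=
        mul_le_mul_of_nonneg_right hε1.le h7
      linarith
  obtain ⟨T1, hT1, HA⟩ := prim_lower2 (ε / 8) (by positivity) (by linarith)
  obtain ⟨T2, hT2, HB⟩ := prim_total (ε / 8) (by positivity) (by linarith)
  refine ⟨max T1 T2, lt_max_of_lt_left hT1, fun T hT κ hκ => ?_⟩
  have hTT1 : T1 ≤ T := (le_max_left _ _).trans hT
  have hTT2 : T2 ≤ T := (le_max_right _ _).trans hT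
  let Bad : (r : ℕ) → DirichletCharacter ℂ r → Prop := fun r ψ => ∃ _ : NeZero r,
    (gW (Z ψ T) (mu ψ) < (1 - ε / 8) * Real.log r ∨ (1 + ε / 8) * Real.log r < gW (Z ψ T) (mu ψ)) ∨
      ∃ Y : ℝ, Real.log r ≤ Y ∧ Y ≤ Real.log r ^ (2 - ε / 8) ∧
        DD ψ Y < 1 / 2 * (2 * (Real.log r * Y) - Real.log r ^ 2) - 1 / 2 * Y * gF (GZ ψ T) -
          ε / 8 * (Real.log r * Y)
  have H : ∃ r₀ : ℕ, ∀ (r : ℕ) [NeZero r], r₀ ≤ r → ∀ S : Finset (DirichletCharacter ℂ r), S ⊆ prim r →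
      (∀ χ ∈ S, Bad r χ) → (S.card : ℝ) ≤ κ / 4 * NN r := by
    obtain ⟨r1, hr1, h1⟩ := HA (κ / 8) (by positivity)
    obtain ⟨r2, hr2, h2⟩ := HB T hTT2 (κ / 8) (by positivity)
    refine ⟨max r1 r2, fun r _ hr S hS hbad => ?_⟩
    have hr1' : r1 ≤ r := (le_max_left _ _).trans hr
    have hr2' : r2 ≤ r := (le_max_right _ _).trans hr
    have cA : ((S.filter fun ψ => gW (Z ψ T) (mu ψ) < (1 - ε / 8) * Real.log r ∨
        (1 + ε / 8) * Real.log r < gW (Z ψ T) (mu ψ)).card : ℝ) ≤ κ / 8 * NN r :=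
      h2 r hr2' _ ((Finset.filter_subset _ _).trans hS) (fun χ hχ => (Finset.mem_filter.1 hχ).2)
    have cB : ((S.filter fun ψ => ¬ (gW (Z ψ T) (mu ψ) < (1 - ε / 8) * Real.log r ∨
        (1 + ε / 8) * Real.log r < gW (Z ψ T) (mu ψ))).card : ℝ) ≤ κ / 8 * NN r := by
      refine h1 r hr1' _ ((Finset.filter_subset _ _).trans hS) (fun χ hχ => ?_)
      obtain ⟨hχS, hn⟩ := Finset.mem_filter.1 hχ
      obtain ⟨inst, hb⟩ := hbad χ hχS
      rcases hb with hb | ⟨Y, hY1, hY2, hY3⟩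
      · exact absurd hb hn
      · refine ⟨Y, hY1, hY2, hY3.trans_le ?_⟩
        have hm := gF_mono r (by omega) χ (hS hχS) T1 T hTT1
        have hY0 : 0 ≤ Y := (Real.log_natCast_nonneg r).trans hY1
        have h6 : 1 / 2 * Y * gF (GZ χ T1) ≤ 1 / 2 * Y * gF (GZ χ T) :=
          mul_le_mul_of_nonneg_left hm (by positivity)
        linarith
    have hc : ((S.filter fun ψ => gW (Z ψ T) (mu ψ) < (1 - ε / 8) * Real.log r ∨
        (1 + ε / 8) * Real.log r < gW (Z ψ T) (mu ψ)).card : ℝ) +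
        ((S.filter fun ψ => ¬ (gW (Z ψ T) (mu ψ) < (1 - ε / 8) * Real.log r ∨
        (1 + ε / 8) * Real.log r < gW (Z ψ T) (mu ψ))).card : ℝ) = (S.card : ℝ) := by
      exact_mod_cast Finset.card_filter_add_card_filter_not (s := S) (fun ψ => gW (Z ψ T) (mu ψ) < (1 - ε / 8) * Real.log r ∨
        (1 + ε / 8) * Real.log r < gW (Z ψ T) (mu ψ))
    linarith
  obtain ⟨q1, hq13, hq1⟩ := transfer Bad κ (ε / 8) hκ (by positivity) (by linarith) H
  obtain ⟨q2, hq2⟩ := F4_large (1 / 2) (272 * 64 / ε ^ 2) (by norm_num)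
  obtain ⟨q3, hq3⟩ := F4_large (ε / 2) ((1 - ε / 8) ^ (-(2 - ε / 2))) (by positivity)
  refine ⟨max q1 (max q2 q3), hq13.trans (le_max_left _ _), fun q _ hq => ?_⟩
  have hqq1 : q1 ≤ q := (le_max_left _ _).trans hq
  have hqq2 : q2 ≤ q := ((le_max_left _ _).trans (le_max_right _ _)).trans hq
  have hqq3 : q3 ≤ q := ((le_max_right _ _).trans (le_max_right _ _)).trans hq
  have hq3' : 3 ≤ q := hq13.trans hqq1
  have hq3r : (3 : ℝ) ≤ q := by exact_mod_cast hq3'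
  have hq0 : (0 : ℝ) < q := by linarith
  have hL1 := hlog1 q hq3'
  obtain ⟨S, hS1, hS2, hS3⟩ := hq1 q hqq1
  have hR1 : 1 < (q : ℝ) ^ (1 - ε / 8) := Real.one_lt_rpow (by linarith) (by linarith)
  have hcond : ∀ χ ∈ S, 2 ≤ χ.conductor := by
    intro χ hχ
    have h1 : (1 : ℝ) < (χ.conductor : ℝ) := hR1.trans_le (hS3 χ hχ).1
    exact_mod_cast h1
  have hlow : ∀ χ ∈ S, (1 - ε / 8) * Real.log q ≤ Real.log χ.conductor := by
    intro χ hχ
    have := Real.log_le_log (Real.rpow_pos_of_pos hq0 _) (hS3 χ hχ).1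
    rwa [Real.log_rpow hq0] at this
  have hupp : ∀ χ ∈ S, Real.log χ.conductor ≤ Real.log q := by
    intro χ hχ
    have h2 := hcond χ hχ
    refine Real.log_le_log (by exact_mod_cast (by omega : 0 < χ.conductor)) ?_
    exact_mod_cast Nat.le_of_dvd (Nat.pos_of_ne_zero (NeZero.ne q))
      (DirichletCharacter.conductor_dvd_level χ)
  have h16 : (16 : ℝ) ≤ Real.log q := by
    have h6 := hq2 q hqq2
    have h7 : (16 : ℝ) ≤ (Real.log q) ^ (1 / 2 : ℝ) := by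
      refine le_trans ?_ h6
      rw [le_div_iff₀ (by positivity)]
      nlinarith
    have h8 : (Real.log q) ^ (1 / 2 : ℝ) ≤ Real.log q := by
      calc (Real.log q) ^ (1 / 2 : ℝ) ≤ (Real.log q) ^ (1 : ℝ) :=
            Real.rpow_le_rpow_of_exponent_le hL1 (by norm_num)
        _ = _ := Real.rpow_one _
    linarith
  refine ⟨S, hS1, hS2, fun χ hχ => ?_, fun χ hχ y hy1 hy2 => ?_⟩
  · have h2 := hcond χ hχ
    have : NeZero χ.conductor := ⟨by omega⟩
    have hnb : ¬ ((gW (Z χ.primitiveCharacter T) (mu χ.primitiveCharacter) <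
        (1 - ε / 8) * Real.log χ.conductor ∨ (1 + ε / 8) * Real.log χ.conductor <
          gW (Z χ.primitiveCharacter T) (mu χ.primitiveCharacter)) ∨ _) :=
      fun h => (hS3 χ hχ).2 ⟨inferInstance, h⟩
    rw [not_or, not_or, not_lt, not_lt] at hnb
    obtain ⟨⟨hb1, hb2⟩, -⟩ := hnb
    rw [gL_eq q χ h2 T, aL_eq q χ h2 T]
    refine ⟨gF_le_gW χ.conductor χ.primitiveCharacter T, ?_, ?_⟩
    · refine le_trans ?_ hb1
      have h3 : (1 - ε / 8) * ((1 - ε / 8) * Real.log q) ≤ (1 - ε / 8) * Real.log χ.conductor :=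
        mul_le_mul_of_nonneg_left (hlow χ hχ) (by linarith)
      refine le_trans ?_ h3
      rw [← mul_assoc]
      exact mul_le_mul_of_nonneg_right (by nlinarith) (by linarith)
    · refine hb2.trans ?_
      have h3 : (1 + ε / 8) * Real.log χ.conductor ≤ (1 + ε / 8) * Real.log q :=
        mul_le_mul_of_nonneg_left (hupp χ hχ) (by linarith)
      refine h3.trans ?_
      exact mul_le_mul_of_nonneg_right (by linarith) (by linarith)
  · have h2 := hcond χ hχ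
    have : NeZero χ.conductor := ⟨by omega⟩
    have hnb : ¬ (_ ∨ ∃ Y : ℝ, Real.log χ.conductor ≤ Y ∧ Y ≤ Real.log χ.conductor ^ (2 - ε / 8) ∧
        DD χ.primitiveCharacter Y < 1 / 2 * (2 * (Real.log χ.conductor * Y) -
          Real.log χ.conductor ^ 2) - 1 / 2 * Y * gF (GZ χ.primitiveCharacter T) -
          ε / 8 * (Real.log χ.conductor * Y)) :=
      fun h => (hS3 χ hχ).2 ⟨inferInstance, h⟩
    rw [not_or] at hnb
    have hnb2 := hnb.2
    push Not at hnb2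
    refine one_char ε (ε / 8) hε hε1 rfl q hq3' (hq2 q hqq2) (hq3 q hqq3) χ (hS3 χ hχ).1
      (gL χ T) (gL_nonneg q χ T) ?_ y hy1 hy2
    intro y' hy'1 hy'2
    have hlr1 : 1 ≤ Real.log χ.conductor := by
      refine le_trans ?_ (hlow χ hχ)
      nlinarith
    have hc0 : (0 : ℝ) < χ.conductor := by exact_mod_cast (by omega : 0 < χ.conductor)
    have hy'0 : 0 < y' := hc0.trans_le hy'1
    have hly : Real.log χ.conductor ≤ Real.log y' := Real.log_le_log hc0 hy'1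
    have h3 := hnb2 (Real.log y') hly
      (hy'2.trans (Real.rpow_le_rpow_of_exponent_le hlr1 (by linarith)))
    rw [DD_eq_En _ _ (by linarith), Real.exp_log hy'0] at h3
    rw [gL_eq q χ h2 T]
    exact h3

end Pool.Agent.SD
end

section

set_option autoImplicit false

/-! Task FG: the variance, and the mean of the weighted sums. -/

namespace Pool.Agent.SD

open Complex MeasureTheory
open Pool.Agent.SK MP9cfc0a.SK
open Pool.Agent.EM (V)
open Pool.Agent.SO (prim NN)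

/-- The mean over the characters of the weighted sum over the simple zeros on the line, divided by `log q`. -/
noncomputable def sig (q : ℕ) [NeZero q] (T : ℝ) : ℝ :=
  (∑ χ : DirichletCharacter ℂ q, gL χ T) / ((q.totient : ℝ) * Real.log q)

/-- The sum of the energies is at most the integral of the variance. -/
theorem FG_up (q : ℕ) [NeZero q] (S : Finset (DirichletCharacter ℂ q)) (hS : ∀ χ ∈ S, χ ≠ 1) (y : ℝ) :
    ∑ χ ∈ S, En χ y ≤
      (q.totient : ℝ) * ∫ x in Set.Ioc 1 y, (1 - Real.log x / Real.log y) * (V x q / x ^ 2) := by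
  have iV := integrable_weight _ y (Pool.Agent.EM.integrable_V_window q 1 y le_rfl)
  have iχ : ∀ χ ∈ S, IntegrableOn (fun x => (1 - Real.log x / Real.log y) *
      (‖Pool.Agent.EM.psiC χ x‖ ^ 2 / x ^ 2)) (Set.Ioc 1 y) := fun χ _ =>
    integrable_weight _ y (Pool.Agent.EM.integrable_psiC_sq_window χ 1 y le_rfl)
  unfold En
  rw [← integral_finsetSum _ iχ, ← integral_const_mul]
  refine setIntegral_mono_on (integrable_finsetSum _ iχ) (iV.const_mul _) measurableSet_Ioc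
    fun x hx => ?_
  have hw := weight_mem x y hx
  have hx0 : 0 < x := by linarith [hx.1]
  have h2 := Pool.Agent.EM.variance_upper q x S hS
  rw [← Finset.mul_sum, ← Finset.sum_div]
  calc (1 - Real.log x / Real.log y) * ((∑ χ ∈ S, ‖Pool.Agent.EM.psiC χ x‖ ^ 2) / x ^ 2)
      ≤ (1 - Real.log x / Real.log y) * (((q.totient : ℝ) * V x q) / x ^ 2) := by
        refine mul_le_mul_of_nonneg_left ?_ hw.1
        exact div_le_div_of_nonneg_right h2 (by positivity)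
    _ = _ := by ring

theorem FG_nn (q : ℕ) (y : ℝ) :
    0 ≤ ∫ x in Set.Ioc 1 y, (1 - Real.log x / Real.log y) * (V x q / x ^ 2) := by
  refine setIntegral_nonneg measurableSet_Ioc fun x hx => ?_
  exact mul_nonneg (weight_mem x y hx).1 (div_nonneg (Pool.Agent.EM.V_nonneg x q) (by positivity))

/-- FG1. PROOF. `chars2 (ε/2)`, `T ≥ T₀`; `C, q₁` from `gL_le T`; apply `chars2` with `κ = min (ε/2) (ε/(2C))`. `S` as there. The sum over the
complement: `∑_{χ ∉ S} gL ≤ κ φ(q) C L ≤ (ε/2) φ(q) L` (the number of characters is `φ(q)`, see the end of `chars_of_prim` in SK/F4.lean), so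
`∑_{χ ∈ S} gL ≥ (sig - ε) φ(q) L` and, with `gL ≤ aL ≤ (1+ε/2) L` on `S`, `sig ≤ 1 + ε`. The variance: as
`variance_of_prim` in SK/F4.lean (copy it): `φ(q) ∫ V ≥ ∑_{χ ∈ S} En χ y` and
`∑_{χ ∈ S} En ≥ |S| ((1/2)(2 L Ly - L²) - (ε/2) L Ly) - (1/2) Ly ∑_{χ ∈ S} gL`, `∑_{χ ∈ S} gL ≤ ∑_χ gL = φ(q) L sig` (`gL_nonneg`);
if `Λ := (1/2)(2 L Ly - L²) - (ε/2) L Ly ≥ 0` then `|S| Λ ≥ (1-ε/2) φ(q) Λ ≥ φ(q) (Λ - (ε/2) L Ly)`; if `Λ < 0` the claim holds as its left side is `≤ 0`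
(`sig ≥ 0`) and the integral is `≥ 0`. -/
theorem var2 (ε : ℝ) (hε : 0 < ε) : ∃ T₀ : ℝ, 0 < T₀ ∧ ∀ T : ℝ, T₀ ≤ T → ∃ q₀ : ℕ, 3 ≤ q₀ ∧
    ∀ (q : ℕ) [NeZero q], q₀ ≤ q → sig q T ≤ 1 + ε ∧
      (∃ S : Finset (DirichletCharacter ℂ q), (1 - ε) * (q.totient : ℝ) ≤ (S.card : ℝ) ∧
        (∀ χ ∈ S, gL χ T ≤ aL χ T ∧ (1 - ε) * Real.log q ≤ aL χ T ∧ aL χ T ≤ (1 + ε) * Real.log q) ∧
        (sig q T - ε) * ((q.totient : ℝ) * Real.log q) ≤ ∑ χ ∈ S, gL χ T ∧
        ∀ χ ∈ S, ∀ y : ℝ, (q : ℝ) ≤ y → Real.log y ≤ (Real.log q) ^ (2 - ε) →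
          1 / 2 * (2 * (Real.log q * Real.log y) - Real.log q ^ 2) - 1 / 2 * Real.log y * gL χ T -
            ε * (Real.log q * Real.log y) ≤ En χ y) ∧
      ∀ y : ℝ, (q : ℝ) ≤ y → Real.log y ≤ (Real.log q) ^ (2 - ε) →
        1 / 2 * (2 * (Real.log q * Real.log y) - Real.log q ^ 2) - 1 / 2 * (Real.log q * Real.log y) * sig q T -
          ε * (Real.log q * Real.log y) ≤
          ∫ x in Set.Ioc 1 y, (1 - Real.log x / Real.log y) * (V x q / x ^ 2) := by
  classical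
  obtain ⟨T₀, hT₀, H⟩ := chars2 (ε / 2) (by positivity)
  refine ⟨T₀, hT₀, fun T hT => ?_⟩
  obtain ⟨C, hC, q₁, hq₁, hgL⟩ := gL_le T (hT₀.le.trans hT)
  set κ : ℝ := min (ε / 2) (ε / (2 * C)) with hκdef
  have hκ0 : 0 < κ := lt_min (by positivity) (by positivity)
  have hκ1 : κ ≤ ε / 2 := min_le_left _ _
  have hκ2 : κ * C ≤ ε / 2 := by
    have h1 : κ ≤ ε / (2 * C) := min_le_right _ _
    have h2 := mul_le_mul_of_nonneg_right h1 hC.le
    have h3 : ε / (2 * C) * C = ε / 2 := by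
      field_simp
    rwa [h3] at h2
  obtain ⟨q₂, hq₂, H2⟩ := H T hT κ hκ0
  refine ⟨max q₁ q₂, hq₁.trans (le_max_left _ _), fun q _ hq => ?_⟩
  have hqq1 : q₁ ≤ q := (le_max_left _ _).trans hq
  have hqq2 : q₂ ≤ q := (le_max_right _ _).trans hq
  have hq3 : 3 ≤ q := hq₁.trans hqq1
  have hq3r : (3 : ℝ) ≤ q := by exact_mod_cast hq3
  obtain ⟨S, hS1, hS2, hS3, hS4⟩ := H2 q hqq2
  have hφ : (0 : ℝ) < (q.totient : ℝ) := by
    exact_mod_cast Nat.totient_pos.2 (by omega)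
  have hL1 : 1 ≤ Real.log q := by
    rw [Real.le_log_iff_exp_le (by linarith)]
    exact Real.exp_one_lt_d9.le.trans (by linarith)
  have hL0 : 0 < Real.log q := by linarith
  set L := Real.log q with hLdef
  have hφL : 0 < (q.totient : ℝ) * L := mul_pos hφ hL0
  -- the number of characters
  have hcard : (Fintype.card (DirichletCharacter ℂ q) : ℝ) = (q.totient : ℝ) := by
    rw [← Nat.card_eq_fintype_card, DirichletCharacter.card_eq_totient_of_hasEnoughRootsOfUnity]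
  have hSc : (Sᶜ.card : ℝ) ≤ κ * (q.totient : ℝ) := by
    have h1 : S.card + Sᶜ.card = Fintype.card (DirichletCharacter ℂ q) := Finset.card_add_card_compl S
    have h2 : (S.card : ℝ) + (Sᶜ.card : ℝ) = (q.totient : ℝ) := by
      rw [← hcard]
      exact_mod_cast h1
    linarith
  have hSle : (S.card : ℝ) ≤ (q.totient : ℝ) := by
    rw [← hcard]
    exact_mod_cast Finset.card_le_univ S
  have hsplit : ∑ χ ∈ S, gL χ T + ∑ χ ∈ Sᶜ, gL χ T = ∑ χ : DirichletCharacter ℂ q, gL χ T :=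
    Finset.sum_add_sum_compl S _
  have hsc : ∑ χ ∈ Sᶜ, gL χ T ≤ ε / 2 * ((q.totient : ℝ) * L) := by
    have h1 : ∑ χ ∈ Sᶜ, gL χ T ≤ ∑ χ ∈ Sᶜ, C * L := Finset.sum_le_sum fun χ _ => hgL q hqq1 χ
    rw [Finset.sum_const, nsmul_eq_mul] at h1
    have h2 : (Sᶜ.card : ℝ) * (C * L) ≤ κ * (q.totient : ℝ) * (C * L) :=
      mul_le_mul_of_nonneg_right hSc (by positivity)
    have h3 : κ * (q.totient : ℝ) * (C * L) = κ * C * ((q.totient : ℝ) * L) := by ring
    have h4 : κ * C * ((q.totient : ℝ) * L) ≤ ε / 2 * ((q.totient : ℝ) * L) :=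
      mul_le_mul_of_nonneg_right hκ2 hφL.le
    linarith
  have hsig : sig q T * ((q.totient : ℝ) * L) = ∑ χ : DirichletCharacter ℂ q, gL χ T := by
    unfold sig
    exact div_mul_cancel₀ _ hφL.ne'
  have hsum0 : 0 ≤ ∑ χ : DirichletCharacter ℂ q, gL χ T := Finset.sum_nonneg fun χ _ => gL_nonneg q χ T
  have hsig0 : 0 ≤ sig q T := div_nonneg hsum0 hφL.le
  have hSgL : ∑ χ ∈ S, gL χ T ≤ ∑ χ : DirichletCharacter ℂ q, gL χ T := by
    rw [← hsplit]
    have : 0 ≤ ∑ χ ∈ Sᶜ, gL χ T := Finset.sum_nonneg fun χ _ => gL_nonneg q χ T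
    linarith
  refine ⟨?_, ⟨S, ?_, fun χ hχ => ?_, ?_, fun χ hχ y hy1 hy2 => ?_⟩, fun y hy1 hy2 => ?_⟩
  · have h1 : ∑ χ ∈ S, gL χ T ≤ (S.card : ℝ) * ((1 + ε / 2) * L) := by
      rw [← nsmul_eq_mul]
      exact Finset.sum_le_card_nsmul _ _ _ fun χ hχ => (hS3 χ hχ).1.trans (hS3 χ hχ).2.2
    have h2 : (S.card : ℝ) * ((1 + ε / 2) * L) ≤ (q.totient : ℝ) * ((1 + ε / 2) * L) :=
      mul_le_mul_of_nonneg_right hSle (by positivity)
    have h3 : sig q T * ((q.totient : ℝ) * L) ≤ (1 + ε) * ((q.totient : ℝ) * L) := by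
      rw [hsig]
      linarith
    exact le_of_mul_le_mul_right h3 hφL
  · refine le_trans (mul_le_mul_of_nonneg_right ?_ hφ.le) hS1
    linarith
  · obtain ⟨h1, h2, h3⟩ := hS3 χ hχ
    refine ⟨h1, le_trans (mul_le_mul_of_nonneg_right (by linarith) hL0.le) h2,
      h3.trans (mul_le_mul_of_nonneg_right (by linarith) hL0.le)⟩
  · rw [sub_mul, hsig]
    have h1 : 0 ≤ ε * ((q.totient : ℝ) * L) := by positivity
    linarith
  · have hLy : L ≤ Real.log y := Real.log_le_log (by linarith) hy1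
    have h1 := hS4 χ hχ y hy1 (hy2.trans (Real.rpow_le_rpow_of_exponent_le hL1 (by linarith)))
    have h2 : 0 ≤ ε * (L * Real.log y) := by
      have : 0 ≤ Real.log y := by linarith
      positivity
    linarith
  · have hLy : L ≤ Real.log y := Real.log_le_log (by linarith) hy1
    set Ly := Real.log y with hLydef
    have hLy0 : 0 < Ly := by linarith
    have hP : 0 ≤ L * Ly := by positivity
    set Λ := 1 / 2 * (2 * (L * Ly) - L ^ 2) - ε / 2 * (L * Ly) with hΛ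
    have hup := FG_up q S hS2 y
    have hVnn := FG_nn q y
    rw [← hLydef] at hup hVnn
    have hgoal : 1 / 2 * (2 * (L * Ly) - L ^ 2) - 1 / 2 * (L * Ly) * sig q T - ε * (L * Ly) =
        Λ - ε / 2 * (L * Ly) - 1 / 2 * (L * Ly) * sig q T := by
      rw [hΛ]
      ring
    rw [hgoal]
    have hs0 : 0 ≤ 1 / 2 * (L * Ly) * sig q T := by positivity
    have he0 : 0 ≤ ε / 2 * (L * Ly) := by positivity
    by_cases hneg : Λ ≤ 0
    · linarith
    · push Not at hneg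
      have hlow : (S.card : ℝ) * Λ - 1 / 2 * Ly * ∑ χ ∈ S, gL χ T ≤ ∑ χ ∈ S, En χ y := by
        have h1 : ∑ χ ∈ S, (Λ - 1 / 2 * Ly * gL χ T) ≤ ∑ χ ∈ S, En χ y := by
          refine Finset.sum_le_sum fun χ hχ => ?_
          have h2 := hS4 χ hχ y hy1 (hy2.trans (Real.rpow_le_rpow_of_exponent_le hL1 (by linarith)))
          rw [← hLydef] at h2
          linarith
        rw [Finset.sum_sub_distrib, Finset.sum_const, nsmul_eq_mul, ← Finset.mul_sum] at h1
        exact h1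
      have h4 : (1 - ε / 2) * (q.totient : ℝ) * Λ ≤ (S.card : ℝ) * Λ := by
        refine mul_le_mul_of_nonneg_right ?_ hneg.le
        refine le_trans (mul_le_mul_of_nonneg_right ?_ hφ.le) hS1
        linarith
      have h5 : 1 / 2 * Ly * ∑ χ ∈ S, gL χ T ≤ 1 / 2 * Ly * (sig q T * ((q.totient : ℝ) * L)) := by
        rw [hsig]
        exact mul_le_mul_of_nonneg_left hSgL (by positivity)
      have h7 : Λ ≤ L * Ly := by
        rw [hΛ]
        nlinarith [sq_nonneg L]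
      have h8 : ε / 2 * Λ ≤ ε / 2 * (L * Ly) := mul_le_mul_of_nonneg_left h7 (by positivity)
      have h9 : (q.totient : ℝ) * (Λ - ε / 2 * (L * Ly) - 1 / 2 * (L * Ly) * sig q T) ≤ (q.totient : ℝ) *
          ∫ x in Set.Ioc 1 y, (1 - Real.log x / Ly) * (V x q / x ^ 2) := by
        have h10 : (q.totient : ℝ) * (Λ - ε / 2 * (L * Ly) - 1 / 2 * (L * Ly) * sig q T) ≤
            (q.totient : ℝ) * ((1 - ε / 2) * Λ - 1 / 2 * (L * Ly) * sig q T) :=
          mul_le_mul_of_nonneg_left (by linarith) hφ.le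
        have h11 : (q.totient : ℝ) * ((1 - ε / 2) * Λ - 1 / 2 * (L * Ly) * sig q T) =
            (1 - ε / 2) * (q.totient : ℝ) * Λ - 1 / 2 * Ly * (sig q T * ((q.totient : ℝ) * L)) := by ring
        linarith
      exact le_of_mul_le_mul_left h9 hφ

end Pool.Agent.SD
end
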