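import Pool.Agent.Lib.MP_9cfc0a_nt.SE.Defs
import Pool.Agent.Lib.MP_9cfc0a_nt.Mg.G007

section

set_option autoImplicit false

/-! Task D1: few bad cells, `|t| ≤ T`. -/

namespace Pool.Agent.SE

open Complex MeasureTheory
open Pool.Agent.SO (prim NN pt pz MM kw moment_a moment_b left_le)

private theorem D1_mean_point : ∃ A : ℕ, ∀ T b : ℝ, 0 ≤ T → 0 ≤ b → ∃ C : ℝ, 0 ≤ C ∧ ∀ R : ℝ, 1 ≤ R → ∃ r₀ : ℕ, 2 ≤ r₀ ∧
    ∀ (r : ℕ) [NeZero r], r₀ ≤ r → ∀ t : ℝ, |t| ≤ T → ∀ w : ℂ, ‖w‖ = R + 1 →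
    ∑ χ ∈ prim r, ‖χ.LFunction (pz r t w) * MM r χ (pt r b t)‖ ^ 2 ≤
      C * Real.exp (3 * R) * (R + 2) ^ A * NN r := by
  obtain ⟨A, C₁, r₁, hC₁, h1⟩ := moment_a
  obtain ⟨C₂, hC₂, h2⟩ := left_le
  have hC₁0 : 0 ≤ C₁ := le_trans zero_le_one hC₁
  have hC₂0 : 0 ≤ C₂ := le_trans zero_le_one hC₂
  refine ⟨A, fun T b hT hb => ⟨(T + 2) ^ 2 * C₂ ^ 2 * C₁ * Real.exp (b / 4) * Real.exp (9 / 4) * (T + 2) ^ A, by positivity,
    fun R hR => ?_⟩⟩
  obtain ⟨r₂, hr₂⟩ : ∃ r₂ : ℕ, ∀ r : ℕ, r₂ ≤ r → 4 * (R + 1) ≤ Real.log r := by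
    have h3 := (Real.tendsto_log_atTop.comp tendsto_natCast_atTop_atTop).eventually_ge_atTop (4 * (R + 1))
    exact Filter.eventually_atTop.mp h3
  refine ⟨max 2 (max r₁ r₂), le_max_left _ _, ?_⟩
  intro r _ hr t ht w hw
  have hP : 0 ≤ T + 2 := by linarith
  have hr2 : 2 ≤ r := le_trans (le_max_left _ _) hr
  have hr1 : r₁ ≤ r := le_trans (le_trans (le_max_left _ _) (le_max_right _ _)) hr
  have hL : 4 * (R + 1) ≤ Real.log r := hr₂ r (le_trans (le_trans (le_max_right _ _) (le_max_right _ _)) hr)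
  obtain ⟨L, hLdef⟩ : ∃ L, L = Real.log r := ⟨_, rfl⟩
  rw [← hLdef] at hL
  have hLpos : 0 < L := by linarith
  have hx : |w.re| ≤ R + 1 := hw ▸ Complex.abs_re_le_norm w
  have hy : |w.im| ≤ R + 1 := hw ▸ Complex.abs_im_le_norm w
  obtain ⟨τ, hτdef⟩ : ∃ τ, τ = t + w.im / L := ⟨_, rfl⟩
  have hyL : |w.im / L| ≤ 1 / 4 := by
    rw [abs_div, abs_of_pos hLpos, div_le_iff₀ hLpos]
    linarith
  have hτ : |τ| ≤ T + 1 := by
    rw [hτdef]
    have := abs_add_le t (w.im / L)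
    linarith
  have hpz : pz r t w = pt r w.re τ := by
    unfold pz pt
    rw [← hLdef, hτdef]
    have hLc : (L : ℂ) ≠ 0 := by exact_mod_cast hLpos.ne'
    conv_lhs => rw [← Complex.re_add_im w]
    push_cast
    field_simp
    ring
  have hNN : 0 ≤ NN r := by unfold NN; positivity
  have hM := h1 r hr1 |w.re| b τ t (abs_nonneg _) hb
  have hB : C₁ * Real.exp ((|w.re| + b) / 4) * (1 + |τ|) ^ A * (1 + Real.log r * |τ - t|) ^ A * NN r ≤
      C₁ * (Real.exp (b / 4) * Real.exp ((R + 1) / 4)) * (T + 2) ^ A * (R + 2) ^ A * NN r := by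
    have e1 : Real.exp ((|w.re| + b) / 4) ≤ Real.exp (b / 4) * Real.exp ((R + 1) / 4) := by
      rw [← Real.exp_add]
      apply Real.exp_le_exp.mpr
      linarith
    have e2 : (1 + |τ|) ^ A ≤ (T + 2) ^ A := pow_le_pow_left₀ (by positivity) (by linarith) A
    have e3 : (1 + Real.log r * |τ - t|) ^ A ≤ (R + 2) ^ A := by
      have e4 : Real.log r * |τ - t| = |w.im| := by
        rw [hτdef, ← hLdef, add_sub_cancel_left, abs_div, abs_of_pos hLpos]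
        field_simp
      rw [e4]
      exact pow_le_pow_left₀ (by positivity) (by linarith) A
    have e5 : 0 ≤ 1 + Real.log r * |τ - t| := by
      rw [← hLdef]; positivity
    gcongr
  have hterm : ∀ χ ∈ prim r, ‖χ.LFunction (pz r t w) * MM r χ (pt r b t)‖ ^ 2 ≤
      (T + 2) ^ 2 * C₂ ^ 2 * Real.exp (2 * (R + 1)) * ‖χ.LFunction (pt r |w.re| τ) * MM r χ (pt r b t)‖ ^ 2 := by
    intro χ hχ
    have hprim : χ.IsPrimitive := by
      letI : DecidablePred fun χ : DirichletCharacter ℂ r => χ.IsPrimitive := Classical.decPred _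
      unfold prim at hχ
      exact (Finset.mem_filter.mp hχ).2
    have key : ‖χ.LFunction (pz r t w)‖ ≤ (T + 2) * C₂ * Real.exp (R + 1) * ‖χ.LFunction (pt r |w.re| τ)‖ := by
      have hexp : 1 ≤ Real.exp (R + 1) := Real.one_le_exp (by linarith)
      rcases le_or_gt 0 w.re with h0 | h0
      · rw [hpz, abs_of_nonneg h0]
        have : 1 ≤ (T + 2) * C₂ * Real.exp (R + 1) := by
          have h20 : 1 ≤ C₂ * Real.exp (R + 1) := one_le_mul_of_one_le_of_one_le hC₂ hexp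
          have h21 : 1 ≤ (T + 2) * (C₂ * Real.exp (R + 1)) := one_le_mul_of_one_le_of_one_le (by linarith) h20
          linarith
        exact le_mul_of_one_le_left (norm_nonneg _) this
      · have h3 := h2 r hr2 χ hprim |w.re| τ (abs_nonneg _) (by rw [← hLdef]; linarith)
        have h4 : -|w.re| = w.re := by rw [abs_of_neg h0, neg_neg]
        rw [h4] at h3
        rw [hpz]
        refine h3.trans ?_
        have h5 : (1 + |τ|) ^ (|w.re| / Real.log r) ≤ T + 2 := by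
          rw [← hLdef]
          have h6 : |w.re| / L ≤ 1 := by
            rw [div_le_one hLpos]; linarith
          calc (1 + |τ|) ^ (|w.re| / L) ≤ (1 + |τ|) ^ (1 : ℝ) :=
                Real.rpow_le_rpow_of_exponent_le (by linarith [abs_nonneg τ]) h6
            _ = 1 + |τ| := Real.rpow_one _
            _ ≤ T + 2 := by linarith
        have h7 : Real.exp |w.re| ≤ Real.exp (R + 1) := Real.exp_le_exp.mpr hx
        have h8 : C₂ * Real.exp |w.re| * (1 + |τ|) ^ (|w.re| / Real.log r) ≤ C₂ * Real.exp (R + 1) * (T + 2) := by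
          gcongr
        calc C₂ * Real.exp |w.re| * (1 + |τ|) ^ (|w.re| / Real.log r) * ‖χ.LFunction (pt r |w.re| τ)‖
            ≤ C₂ * Real.exp (R + 1) * (T + 2) * ‖χ.LFunction (pt r |w.re| τ)‖ := by gcongr
          _ = _ := by ring
    have hsq : Real.exp (2 * (R + 1)) = Real.exp (R + 1) ^ 2 := by
      rw [sq, ← Real.exp_add]; ring_nf
    rw [norm_mul, norm_mul, mul_pow, mul_pow, hsq]
    calc ‖χ.LFunction (pz r t w)‖ ^ 2 * ‖MM r χ (pt r b t)‖ ^ 2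
        ≤ ((T + 2) * C₂ * Real.exp (R + 1) * ‖χ.LFunction (pt r |w.re| τ)‖) ^ 2 * ‖MM r χ (pt r b t)‖ ^ 2 := by
          gcongr
      _ = _ := by ring
  calc ∑ χ ∈ prim r, ‖χ.LFunction (pz r t w) * MM r χ (pt r b t)‖ ^ 2
      ≤ ∑ χ ∈ prim r, (T + 2) ^ 2 * C₂ ^ 2 * Real.exp (2 * (R + 1)) *
          ‖χ.LFunction (pt r |w.re| τ) * MM r χ (pt r b t)‖ ^ 2 := Finset.sum_le_sum hterm
    _ = (T + 2) ^ 2 * C₂ ^ 2 * Real.exp (2 * (R + 1)) *
          ∑ χ ∈ prim r, ‖χ.LFunction (pt r |w.re| τ) * MM r χ (pt r b t)‖ ^ 2 := by rw [Finset.mul_sum]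
    _ ≤ (T + 2) ^ 2 * C₂ ^ 2 * Real.exp (2 * (R + 1)) *
          (C₁ * (Real.exp (b / 4) * Real.exp ((R + 1) / 4)) * (T + 2) ^ A * (R + 2) ^ A * NN r) := by
        have := hM.trans hB
        gcongr
    _ = (T + 2) ^ 2 * C₂ ^ 2 * C₁ * Real.exp (b / 4) * (Real.exp (2 * (R + 1)) * Real.exp ((R + 1) / 4)) * (T + 2) ^ A *
          (R + 2) ^ A * NN r := by ring
    _ ≤ (T + 2) ^ 2 * C₂ ^ 2 * C₁ * Real.exp (b / 4) * (Real.exp (9 / 4) * Real.exp (3 * R)) * (T + 2) ^ A *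
          (R + 2) ^ A * NN r := by
        have h9 : Real.exp (2 * (R + 1)) * Real.exp ((R + 1) / 4) ≤ Real.exp (9 / 4) * Real.exp (3 * R) := by
          rw [← Real.exp_add, ← Real.exp_add]
          apply Real.exp_le_exp.mpr
          linarith
        have hR2 : 0 ≤ R + 2 := by linarith
        gcongr
    _ = _ := by ring

private theorem D1_mean_circle : ∃ A : ℕ, ∀ T b : ℝ, 0 ≤ T → 0 ≤ b → ∃ C : ℝ, 0 ≤ C ∧ ∀ R : ℝ, 1 ≤ R → ∃ r₀ : ℕ, 2 ≤ r₀ ∧
    ∀ (r : ℕ) [NeZero r], r₀ ≤ r → ∀ t : ℝ, |t| ≤ T →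
    ∑ χ ∈ prim r, Real.circleAverage
      (fun w => ‖χ.LFunction (pz r t w) * MM r χ (pt r b t)‖ ^ 2) 0 (R + 1) ≤
      C * Real.exp (3 * R) * (R + 2) ^ A * NN r := by
  obtain ⟨A, hA⟩ := D1_mean_point
  refine ⟨A, fun T b hT hb => ?_⟩
  obtain ⟨C, hC, h1⟩ := hA T b hT hb
  refine ⟨C, hC, fun R hR => ?_⟩
  obtain ⟨r₀, hr₀, h2⟩ := h1 R hR
  refine ⟨r₀, hr₀, ?_⟩
  intro r _ hr t ht
  have hint : ∀ χ ∈ prim r, CircleIntegrable
      (fun w => ‖χ.LFunction (pz r t w) * MM r χ (pt r b t)‖ ^ 2) 0 (R + 1) := by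
    intro χ hχ
    have hprim : χ.IsPrimitive := by
      let : DecidablePred fun χ : DirichletCharacter ℂ r => χ.IsPrimitive := Classical.decPred _
      unfold prim at hχ
      exact (Finset.mem_filter.mp hχ).2
    have hne : χ ≠ 1 := by
      intro h3
      rw [h3, DirichletCharacter.isPrimitive_def, DirichletCharacter.conductor_one] at hprim
      omega
    have h3 : Continuous χ.LFunction := (χ.differentiable_LFunction hne).continuous
    have h4 : Continuous (fun w : ℂ => pz r t w) := by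
      unfold pz
      fun_prop
    have h5 : Continuous (fun w : ℂ => ‖χ.LFunction (pz r t w) * MM r χ (pt r b t)‖ ^ 2) :=
      (((h3.comp h4).mul continuous_const).norm).pow 2
    exact h5.continuousOn.circleIntegrable (by linarith)
  have h3 := Real.circleAverage_fun_sum (c := (0 : ℂ)) (R := R + 1) hint
  rw [← h3]
  apply Real.circleAverage_mono_on_of_le_circle
  · exact CircleIntegrable.fun_sum _ hint
  · intro w hw
    rw [mem_sphere_iff_norm, sub_zero, abs_of_nonneg (by linarith)] at hw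
    exact h2 r hr t ht w hw

private theorem D1_markov {r : ℕ} [NeZero r] (S : Finset (DirichletCharacter ℂ r)) (hS : S ⊆ prim r)
    (f : DirichletCharacter ℂ r → ℝ) (hf : ∀ χ, 0 ≤ f χ) (K M : ℝ) (hK : 0 < K)
    (h : ∀ χ ∈ S, K ≤ f χ) (hM : ∑ χ ∈ prim r, f χ ≤ M) : (S.card : ℝ) * K ≤ M := by
  calc (S.card : ℝ) * K = ∑ χ ∈ S, K := by simp
    _ ≤ ∑ χ ∈ S, f χ := Finset.sum_le_sum h
    _ ≤ ∑ χ ∈ prim r, f χ := Finset.sum_le_sum_of_subset_of_nonneg hS (fun χ _ _ => hf χ)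
    _ ≤ M := hM

private theorem D1_NN (r : ℕ) [NeZero r] : 0 ≤ NN r := by unfold NN; positivity

private theorem D1_bad_a (T b ε : ℝ) (hT : 0 ≤ T) (hb : 0 ≤ b) (hε : 0 < ε) : ∃ R₁ : ℝ, 1 ≤ R₁ ∧ ∀ R : ℝ, R₁ ≤ R →
    ∃ r₀ : ℕ, 2 ≤ r₀ ∧ ∀ (r : ℕ) [NeZero r], r₀ ≤ r → ∀ t : ℝ, |t| ≤ T →
    ∀ S : Finset (DirichletCharacter ℂ r), S ⊆ prim r →
    (∀ χ ∈ S, Real.exp (7 * R) < Real.circleAverage
      (fun w => ‖χ.LFunction (pz r t w) * MM r χ (pt r b t)‖ ^ 2) 0 (R + 1)) →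
    (S.card : ℝ) ≤ ε * NN r := by
  obtain ⟨A, hA⟩ := D1_mean_circle
  obtain ⟨C, hC, h1⟩ := hA T b hT hb
  have hlim : Filter.Tendsto (fun R : ℝ => C * Real.exp 2 * ((R + 2) ^ A * Real.exp (-(R + 2)))) Filter.atTop (nhds 0) := by
    have h2 := (Real.tendsto_pow_mul_exp_neg_atTop_nhds_zero A).comp
      (Filter.tendsto_atTop_add_const_right Filter.atTop (2 : ℝ) Filter.tendsto_id)
    have h3 := h2.const_mul (C * Real.exp 2)
    rw [mul_zero] at h3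
    exact h3
  obtain ⟨R₀, hR₀⟩ := Filter.eventually_atTop.mp (hlim.eventually (gt_mem_nhds hε))
  refine ⟨max 1 R₀, le_max_left _ _, fun R hR => ?_⟩
  have hR1 : 1 ≤ R := le_trans (le_max_left _ _) hR
  have hRe := hR₀ R (le_trans (le_max_right _ _) hR)
  obtain ⟨r₀, hr₀, h2⟩ := h1 R hR1
  refine ⟨r₀, hr₀, ?_⟩
  intro r _ hr t ht S hS hbad
  have h3 := D1_markov S hS _ (fun χ => Real.circleAverage_nonneg_of_nonneg fun x _ => by positivity)
    (Real.exp (7 * R)) _ (Real.exp_pos _) (fun χ hχ => (hbad χ hχ).le) (h2 r hr t ht)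
  have hN := D1_NN r
  have h4 : (S.card : ℝ) ≤ C * Real.exp (3 * R) * (R + 2) ^ A * NN r * Real.exp (-(7 * R)) := by
    have h5 := mul_le_mul_of_nonneg_right h3 (Real.exp_pos (-(7 * R))).le
    rw [mul_assoc, ← Real.exp_add, add_neg_cancel, Real.exp_zero, mul_one] at h5
    exact h5
  refine h4.trans ?_
  have h6 : C * Real.exp (3 * R) * (R + 2) ^ A * Real.exp (-(7 * R)) ≤ ε := by
    have h7 : Real.exp (3 * R) * Real.exp (-(7 * R)) ≤ Real.exp 2 * Real.exp (-(R + 2)) := by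
      rw [← Real.exp_add, ← Real.exp_add]
      apply Real.exp_le_exp.mpr
      linarith
    have hR2 : 0 ≤ R + 2 := by linarith
    calc C * Real.exp (3 * R) * (R + 2) ^ A * Real.exp (-(7 * R))
        = C * (R + 2) ^ A * (Real.exp (3 * R) * Real.exp (-(7 * R))) := by ring
      _ ≤ C * (R + 2) ^ A * (Real.exp 2 * Real.exp (-(R + 2))) := by gcongr
      _ = C * Real.exp 2 * ((R + 2) ^ A * Real.exp (-(R + 2))) := by ring
      _ ≤ ε := hRe.le
  calc C * Real.exp (3 * R) * (R + 2) ^ A * NN r * Real.exp (-(7 * R))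
      = C * Real.exp (3 * R) * (R + 2) ^ A * Real.exp (-(7 * R)) * NN r := by ring
    _ ≤ ε * NN r := by gcongr

private theorem D1_bad_b (T ε : ℝ) (hT : 0 ≤ T) (hε : 0 < ε) : ∃ b₀ : ℝ, 1 ≤ b₀ ∧ ∀ b : ℝ, b₀ ≤ b →
    ∃ r₀ : ℕ, 2 ≤ r₀ ∧ ∀ (r : ℕ) [NeZero r], r₀ ≤ r → ∀ t : ℝ, |t| ≤ T →
    ∀ S : Finset (DirichletCharacter ℂ r), S ⊆ prim r →
    (∀ χ ∈ S, 1 / 2 < ‖χ.LFunction (pt r b t) * MM r χ (pt r b t) - 1‖) →
    (S.card : ℝ) ≤ ε * NN r := by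
  obtain ⟨A, C, r₀, hC, h1⟩ := moment_b
  have hC0 : 0 ≤ C := le_trans zero_le_one hC
  have hlim : Filter.Tendsto (fun b : ℝ => 4 * C * (1 + T) ^ A * Real.exp (-(b / 8))) Filter.atTop (nhds 0) := by
    have h2 := Real.tendsto_exp_neg_atTop_nhds_zero.comp
      (Filter.Tendsto.atTop_div_const (show (0 : ℝ) < 8 by norm_num) Filter.tendsto_id)
    have h3 := h2.const_mul (4 * C * (1 + T) ^ A)
    rw [mul_zero] at h3
    exact h3
  obtain ⟨b₁, hb₁⟩ := Filter.eventually_atTop.mp (hlim.eventually (gt_mem_nhds hε))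
  refine ⟨max 1 b₁, le_max_left _ _, fun b hb => ⟨max 2 r₀, le_max_left _ _, ?_⟩⟩
  intro r _ hr t ht S hS hbad
  have hb1 : 1 ≤ b := le_trans (le_max_left _ _) hb
  have hbe := hb₁ b (le_trans (le_max_right _ _) hb)
  have hN := D1_NN r
  have h2 := h1 r (le_trans (le_max_right _ _) hr) b t (by linarith)
  have h3 := D1_markov S hS _ (fun χ => by positivity) (1 / 4) _ (by norm_num)
    (fun χ hχ => by
      have := hbad χ hχ
      nlinarith [this]) h2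
  have h4 : (1 + |t|) ^ A ≤ (1 + T) ^ A := pow_le_pow_left₀ (by positivity) (by linarith) A
  have h5 : C * Real.exp (-(b / 8)) * (1 + |t|) ^ A * NN r ≤ C * Real.exp (-(b / 8)) * (1 + T) ^ A * NN r := by
    gcongr
  have h6 : 4 * C * (1 + T) ^ A * Real.exp (-(b / 8)) * NN r ≤ ε * NN r := by
    have := hbe.le
    gcongr
  nlinarith [h3, h5, h6]


private theorem D1_integrable (L t : ℝ) (hL : 0 < L) :
    Integrable (fun u : ℝ => L * (1 + (L * (u - t)) ^ 2)⁻¹) := by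
  have h1 : Integrable (fun x : ℝ => (1 + x ^ 2)⁻¹) := integrable_inv_one_add_sq
  have h2 : Integrable (fun x : ℝ => (1 + (L * x) ^ 2)⁻¹) := h1.comp_mul_left' hL.ne'
  exact (h2.comp_sub_right t).const_mul L

private theorem D1_integral (L t : ℝ) (hL : 0 < L) :
    ∫ u : ℝ, L * (1 + (L * (u - t)) ^ 2)⁻¹ = Real.pi := by
  rw [integral_const_mul, integral_sub_right_eq_self (fun x : ℝ => (1 + (L * x) ^ 2)⁻¹) t,
    Measure.integral_comp_mul_left (fun x : ℝ => (1 + x ^ 2)⁻¹) L, integral_univ_inv_one_add_sq,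
    abs_of_pos (inv_pos.mpr hL), smul_eq_mul, ← mul_assoc, mul_inv_cancel₀ hL.ne', one_mul]

private theorem D1_pw (P x Y L : ℝ) (A : ℕ) (hP : 0 ≤ P) (hx : 0 ≤ x) (hY : 0 ≤ Y) (hYx : Y ≤ P * (1 + x)) (hL : 0 ≤ L) :
    Y ^ A * (1 + x) ^ A * (L / (1 + x) ^ (2 * A + 6)) ≤ P ^ A * (L * (1 + x ^ 2)⁻¹) := by
  have h1 : Y ^ A ≤ (P * (1 + x)) ^ A := pow_le_pow_left₀ hY hYx A
  have h2 : 1 + x ^ 2 ≤ (1 + x) ^ 6 := by
    have h3 : (1 + x) ^ 2 ≤ (1 + x) ^ 6 := pow_le_pow_right₀ (by linarith) (by norm_num)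
    nlinarith
  have h3 : (0 : ℝ) < 1 + x := by linarith
  calc Y ^ A * (1 + x) ^ A * (L / (1 + x) ^ (2 * A + 6))
      ≤ (P * (1 + x)) ^ A * (1 + x) ^ A * (L / (1 + x) ^ (2 * A + 6)) := by gcongr
    _ = P ^ A * (L * ((1 + x) ^ 6)⁻¹) := by
        rw [mul_pow, show 2 * A + 6 = A + A + 6 by ring, pow_add, pow_add]
        field_simp
    _ ≤ P ^ A * (L * (1 + x ^ 2)⁻¹) := by
        have h4 : ((1 + x) ^ 6)⁻¹ ≤ (1 + x ^ 2)⁻¹ := inv_anti₀ (by positivity) h2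
        gcongr

private theorem D1_bad_d : ∃ m : ℕ, 6 ≤ m ∧ ∀ T b ε : ℝ, 0 ≤ T → 0 ≤ b → 0 < ε → ∃ K : ℝ, 0 ≤ K ∧
    ∃ r₀ : ℕ, 2 ≤ r₀ ∧ ∀ (r : ℕ) [NeZero r], r₀ ≤ r → ∀ t : ℝ, |t| ≤ T →
    ∀ S : Finset (DirichletCharacter ℂ r), S ⊆ prim r →
    (∀ χ ∈ S, K < ∫ t' : ℝ, ‖χ.LFunction (pt r 0 t') * MM r χ (pt r b t)‖ ^ 2 * kw r m t t') →
    (S.card : ℝ) ≤ ε * NN r := by
  obtain ⟨A, C, r₁, hC, h1⟩ := moment_a
  have hC0 : 0 < C := lt_of_lt_of_le zero_lt_one hC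
  refine ⟨2 * A + 6, by omega, fun T b ε hT hb hε => ?_⟩
  obtain ⟨D, hD⟩ : ∃ D, D = C * Real.exp (b / 4) * (T + 2) ^ A := ⟨_, rfl⟩
  have hDpos : 0 < D := by rw [hD]; positivity
  refine ⟨D * Real.pi / ε, by positivity, max 3 r₁, le_trans (by norm_num) (le_max_left _ _), ?_⟩
  intro r _ hr t ht S hS hbad
  have hP : 0 ≤ T + 2 := by linarith
  have hr3 : 3 ≤ r := le_trans (le_max_left _ _) hr
  have hr1 : r₁ ≤ r := le_trans (le_max_right _ _) hr
  obtain ⟨L, hLdef⟩ : ∃ L, L = Real.log r := ⟨_, rfl⟩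
  have hL1 : 1 ≤ L := by
    rw [hLdef, Real.le_log_iff_exp_le (by positivity)]
    have h3 : (3 : ℝ) ≤ r := by exact_mod_cast hr3
    linarith [Real.exp_one_lt_d9]
  have hLpos : 0 < L := by linarith
  have hNN : 0 ≤ NN r := by unfold NN; positivity
  obtain ⟨f, hf⟩ : ∃ f : DirichletCharacter ℂ r → ℝ → ℝ, ∀ χ t', f χ t' =
      ‖χ.LFunction (pt r 0 t') * MM r χ (pt r b t)‖ ^ 2 * kw r (2 * A + 6) t t' := ⟨_, fun _ _ => rfl⟩
  have hkw : ∀ t', kw r (2 * A + 6) t t' = L / (1 + L * |t' - t|) ^ (2 * A + 6) := fun t' => by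
    unfold kw; rw [hLdef]
  have hkw0 : ∀ t', 0 ≤ kw r (2 * A + 6) t t' := fun t' => by rw [hkw]; positivity
  have hf0 : ∀ χ t', 0 ≤ f χ t' := fun χ t' => by
    rw [hf]; exact mul_nonneg (by positivity) (hkw0 t')
  have hsum : ∀ t', ∑ χ ∈ prim r, f χ t' ≤ D * NN r * (L * (1 + (L * (t' - t)) ^ 2)⁻¹) := by
    intro t'
    have h2 := h1 r hr1 0 b t' t le_rfl hb
    rw [zero_add, ← hLdef] at h2
    have h3 : 1 + |t'| ≤ (T + 2) * (1 + L * |t' - t|) := by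
      have h4 : |t'| ≤ |t' - t| + |t| := by
        have := abs_add_le (t' - t) t
        rwa [sub_add_cancel] at this
      have h6 : |t' - t| ≤ L * |t' - t| := le_mul_of_one_le_left (abs_nonneg _) hL1
      have h7 : 0 ≤ L * |t' - t| := by positivity
      have h8 : 0 ≤ T * (L * |t' - t|) := mul_nonneg hT h7
      nlinarith
    have h4 := D1_pw (T + 2) (L * |t' - t|) (1 + |t'|) L A hP (by positivity) (by positivity) h3 hLpos.le
    have h5 : (L * |t' - t|) ^ 2 = (L * (t' - t)) ^ 2 := by rw [mul_pow, mul_pow, sq_abs]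
    rw [h5] at h4
    calc ∑ χ ∈ prim r, f χ t' = (∑ χ ∈ prim r, ‖χ.LFunction (pt r 0 t') * MM r χ (pt r b t)‖ ^ 2) *
          kw r (2 * A + 6) t t' := by
          rw [Finset.sum_mul]; exact Finset.sum_congr rfl fun χ _ => hf χ t'
      _ ≤ (C * Real.exp (b / 4) * (1 + |t'|) ^ A * (1 + L * |t' - t|) ^ A * NN r) *
          kw r (2 * A + 6) t t' := mul_le_mul_of_nonneg_right h2 (hkw0 t')
      _ = C * Real.exp (b / 4) * NN r * ((1 + |t'|) ^ A * (1 + L * |t' - t|) ^ A *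
          (L / (1 + L * |t' - t|) ^ (2 * A + 6))) := by rw [hkw]; ring
      _ ≤ C * Real.exp (b / 4) * NN r * ((T + 2) ^ A * (L * (1 + (L * (t' - t)) ^ 2)⁻¹)) := by gcongr
      _ = D * NN r * (L * (1 + (L * (t' - t)) ^ 2)⁻¹) := by rw [hD]; ring
  have hgint : Integrable (fun t' : ℝ => D * NN r * (L * (1 + (L * (t' - t)) ^ 2)⁻¹)) :=
    (D1_integrable L t hLpos).const_mul _
  have hfc : ∀ χ, Continuous (f χ) := by
    intro χ
    have h2 : Continuous (fun t' : ℝ => χ.LFunction (pt r 0 t')) := by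
      rw [continuous_iff_continuousAt]
      intro t'
      have h3 : pt r 0 t' ≠ 1 := by
        intro h4
        have h5 := congrArg Complex.re h4
        simp [pt] at h5
      have h4 : ContinuousAt χ.LFunction (pt r 0 t') :=
        (χ.differentiableAt_LFunction (pt r 0 t') (Or.inl h3)).continuousAt
      have h5 : Continuous (fun t' : ℝ => pt r 0 t') := by
        unfold pt
        fun_prop
      exact ContinuousAt.comp' (f := fun t' : ℝ => pt r 0 t') h4 h5.continuousAt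
    have h3 : Continuous (fun t' : ℝ => kw r (2 * A + 6) t t') := by
      simp only [hkw]
      refine Continuous.div continuous_const (by fun_prop) fun t' => ?_
      positivity
    have h4 : f χ = fun t' => ‖χ.LFunction (pt r 0 t') * MM r χ (pt r b t)‖ ^ 2 * kw r (2 * A + 6) t t' :=
      funext (hf χ)
    rw [h4]
    exact (((h2.mul continuous_const).norm).pow 2).mul h3
  have hfint : ∀ χ ∈ prim r, Integrable (f χ) := by
    intro χ hχ
    refine hgint.mono' (hfc χ).aestronglyMeasurable (Filter.Eventually.of_forall fun t' => ?_)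
    rw [Real.norm_eq_abs, abs_of_nonneg (hf0 χ t')]
    exact (Finset.single_le_sum (fun ψ _ => hf0 ψ t') hχ).trans (hsum t')
  have htot : ∑ χ ∈ prim r, ∫ t' : ℝ, f χ t' ≤ D * NN r * Real.pi := by
    rw [← integral_finsetSum _ hfint]
    calc ∫ t' : ℝ, ∑ χ ∈ prim r, f χ t' ≤ ∫ t' : ℝ, D * NN r * (L * (1 + (L * (t' - t)) ^ 2)⁻¹) :=
          integral_mono (integrable_finsetSum _ hfint) hgint hsum
      _ = D * NN r * Real.pi := by rw [integral_const_mul, D1_integral L t hLpos]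
  have hfin : (S.card : ℝ) * (D * Real.pi / ε) ≤ D * NN r * Real.pi := by
    calc (S.card : ℝ) * (D * Real.pi / ε) = ∑ χ ∈ S, D * Real.pi / ε := by simp
      _ ≤ ∑ χ ∈ S, ∫ t' : ℝ, f χ t' := Finset.sum_le_sum fun χ hχ => by
          have h2 := (hbad χ hχ).le
          simp only [hf]
          exact h2
      _ ≤ ∑ χ ∈ prim r, ∫ t' : ℝ, f χ t' :=
          Finset.sum_le_sum_of_subset_of_nonneg hS fun χ _ _ => integral_nonneg (hf0 χ)
      _ ≤ _ := htot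
  have hDp : 0 < D * Real.pi / ε := by positivity
  refine le_of_mul_le_mul_right ?_ hDp
  refine hfin.trans (le_of_eq ?_)
  field_simp

/-- D1. PROOF. COPY `mean_circle` (SO/Q1b), `bad_a`, `bad_b` (SO/Q2a), `bad_d` (SO/Q2d) and `few_bad` (SO/Q3a) with `|t| ≤ T` in place of `0 ≤ t ≤ 1`
(`(1+|t|)^A ≤ (1+T)^A` in place of `≤ 2^A`; on the circle `|Im| ≤ T + (R+1)/log r`); no `bad_c`. The exponent `m = 2A + 6` of `bad_d` does not depend on `T`. -/
theorem few_bad_T : ∃ m : ℕ, 6 ≤ m ∧ ∀ T ε : ℝ, 0 ≤ T → 0 < ε → ∃ b : ℝ, 1 ≤ b ∧ ∃ R₁ : ℝ, 1 ≤ R₁ ∧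
    ∀ R : ℝ, R₁ ≤ R → ∃ K : ℝ, 0 ≤ K ∧ ∃ r₀ : ℕ, 2 ≤ r₀ ∧ ∀ (r : ℕ) [NeZero r], r₀ ≤ r →
    ∀ t : ℝ, |t| ≤ T → ∀ S : Finset (DirichletCharacter ℂ r), S ⊆ prim r →
    (∀ χ ∈ S, ¬ gd r b R K m χ t) → (S.card : ℝ) ≤ ε * NN r := by
  classical
  obtain ⟨m, hm, hd⟩ := D1_bad_d
  refine ⟨m, hm, fun T ε hT hε => ?_⟩
  have hε4 : 0 < ε / 4 := by linarith
  obtain ⟨b, hb1, hB⟩ := D1_bad_b T (ε / 4) hT hε4
  have hb0 : 0 ≤ b := by linarith
  obtain ⟨R₁, hR₁, hA⟩ := D1_bad_a T b (ε / 4) hT hb0 hε4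
  refine ⟨b, hb1, R₁, hR₁, fun R hR => ?_⟩
  obtain ⟨K, hK, r3, hr3, hD⟩ := hd T b (ε / 4) hT hb0 hε4
  obtain ⟨r0, hr0, hA'⟩ := hA R hR
  obtain ⟨r1, hr1, hB'⟩ := hB b le_rfl
  refine ⟨K, hK, max (max r0 r1) r3, le_max_of_le_left (le_max_of_le_left hr0),
    fun r _ hr t ht S hS hbad => ?_⟩
  have q0 : r0 ≤ r := le_trans (le_trans (le_max_left _ _) (le_max_left _ _)) hr
  have q1 : r1 ≤ r := le_trans (le_trans (le_max_right _ _) (le_max_left _ _)) hr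
  have q3 : r3 ≤ r := le_trans (le_max_right _ _) hr
  let Sa := S.filter (fun χ => Real.exp (7 * R) < Real.circleAverage
      (fun w => ‖χ.LFunction (pz r t w) * MM r χ (pt r b t)‖ ^ 2) 0 (R + 1))
  let Sb := S.filter (fun χ => 1 / 2 < ‖χ.LFunction (pt r b t) * MM r χ (pt r b t) - 1‖)
  let Sd := S.filter (fun χ => K < ∫ t' : ℝ,
      ‖χ.LFunction (pt r 0 t') * MM r χ (pt r b t)‖ ^ 2 * kw r m t t')
  have ca := hA' r q0 t ht Sa ((Finset.filter_subset _ _).trans hS)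
    (fun χ hχ => (Finset.mem_filter.1 hχ).2)
  have cb := hB' r q1 t ht Sb ((Finset.filter_subset _ _).trans hS)
    (fun χ hχ => (Finset.mem_filter.1 hχ).2)
  have cd := hD r q3 t ht Sd ((Finset.filter_subset _ _).trans hS)
    (fun χ hχ => (Finset.mem_filter.1 hχ).2)
  have hsub : S ⊆ (Sa ∪ Sb) ∪ Sd := by
    intro χ hχ
    have h1 := hbad χ hχ
    unfold gd at h1
    rw [not_and_or, not_and_or, not_le, not_le, not_le] at h1
    rcases h1 with h1 | h1 | h1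
    · exact Finset.mem_union_left _ (Finset.mem_union_left _ (Finset.mem_filter.2 ⟨hχ, h1⟩))
    · exact Finset.mem_union_left _ (Finset.mem_union_right _ (Finset.mem_filter.2 ⟨hχ, h1⟩))
    · exact Finset.mem_union_right _ (Finset.mem_filter.2 ⟨hχ, h1⟩)
  have hcard : (S.card : ℝ) ≤ Sa.card + Sb.card + Sd.card := by
    have h1 := Finset.card_le_card hsub
    have h2 := Finset.card_union_le (Sa ∪ Sb) Sd
    have h3 := Finset.card_union_le Sa Sb
    have h5 : S.card ≤ Sa.card + Sb.card + Sd.card := by omega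
    exact_mod_cast h5
  have hN := D1_NN r
  have hN2 : 0 ≤ ε / 4 * NN r := by positivity
  linarith

end Pool.Agent.SE
end

section

set_option autoImplicit false

/-! Task D2: most characters have few bad cells. -/

namespace Pool.Agent.SE

open Complex MeasureTheory
open Pool.Agent.SO (prim NN pt pz MM kw)

theorem D2_floor {r : ℕ} (hr : 3 ≤ r) : 1 ≤ ⌊Real.log r⌋₊ := by
  apply Nat.le_floor
  have h3 : (3 : ℝ) ≤ (r : ℝ) := by exact_mod_cast hr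
  rw [Nat.cast_one, Real.le_log_iff_exp_le (by linarith)]
  have := Real.exp_one_lt_d9
  linarith

theorem D2_abs {r : ℕ} (hr : 3 ≤ r) (T j : ℕ) (hj : j < nj r T) : |tj r T j| ≤ (T : ℝ) := by
  have hL : 1 ≤ ⌊Real.log r⌋₊ := D2_floor hr
  have hL' : (1 : ℝ) ≤ (⌊Real.log r⌋₊ : ℝ) := by exact_mod_cast hL
  have hL0 : (0 : ℝ) < (⌊Real.log r⌋₊ : ℝ) := by linarith
  have hj' : j ≤ 2 * T * ⌊Real.log r⌋₊ := by unfold nj at hj; omega
  have hj2 : (j : ℝ) ≤ 2 * (T : ℝ) * (⌊Real.log r⌋₊ : ℝ) := by exact_mod_cast hj'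
  have h1 : (j : ℝ) / (⌊Real.log r⌋₊ : ℝ) ≤ 2 * (T : ℝ) := by
    rw [div_le_iff₀ hL0]; exact hj2
  have h0 : 0 ≤ (j : ℝ) / (⌊Real.log r⌋₊ : ℝ) := by positivity
  unfold tj
  rw [abs_le]
  constructor <;> linarith

open scoped Classical in
/-- D2. PROOF. `few_bad_T` with `T` and `κ ε` gives `b`; `R = max R₁ (2b+8)`; `K, r₀`. `|tj r T j| ≤ T` for `j < nj r T = 2T⌊log r⌋+1`. Double counting:
`#S ε nj ≤ ∑_{χ ∈ S} #{bad j} = ∑_j #{χ ∈ S : bad j} ≤ nj (κ ε NN r)`, `nj ≥ 1`. -/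
theorem few_bad_cells : ∃ m : ℕ, 6 ≤ m ∧ ∀ (T : ℕ) (ε κ : ℝ), 0 < ε → 0 < κ → ∃ b R K : ℝ, 1 ≤ b ∧ 2 * b + 8 ≤ R ∧ 0 ≤ K ∧
    ∃ r₀ : ℕ, 3 ≤ r₀ ∧ ∀ (r : ℕ) [NeZero r], r₀ ≤ r → ∀ S : Finset (DirichletCharacter ℂ r), S ⊆ prim r →
    (∀ χ ∈ S, ε * (nj r T : ℝ) < (((Finset.range (nj r T)).filter (fun j => ¬ gd r b R K m χ (tj r T j))).card : ℝ)) →
    (S.card : ℝ) ≤ κ * NN r := by
  obtain ⟨m, hm, H⟩ := few_bad_T
  refine ⟨m, hm, fun T ε κ hε hκ => ?_⟩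
  obtain ⟨b, hb, R₁, hR₁, H2⟩ := H (T : ℝ) (κ * ε) (Nat.cast_nonneg T) (mul_pos hκ hε)
  obtain ⟨K, hK, r₀, hr₀, H3⟩ := H2 (max R₁ (2 * b + 8)) (le_max_left _ _)
  refine ⟨b, max R₁ (2 * b + 8), K, hb, le_max_right _ _, hK, max r₀ 3, le_max_right _ _, ?_⟩
  intro r _ hr S hS hbad
  have hr3 : 3 ≤ r := le_trans (le_max_right _ _) hr
  have hr0 : r₀ ≤ r := le_trans (le_max_left _ _) hr
  generalize max R₁ (2 * b + 8) = R at H3 hbad
  have hn1 : (1 : ℝ) ≤ (nj r T : ℝ) := by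
    have : 1 ≤ nj r T := by unfold nj; omega
    exact_mod_cast this
  have hcol : ∀ j ∈ Finset.range (nj r T),
      ((S.filter (fun χ => ¬ gd r b R K m χ (tj r T j))).card : ℝ) ≤ κ * ε * NN r := by
    intro j hj
    refine H3 r hr0 (tj r T j) (D2_abs hr3 T j (Finset.mem_range.mp hj)) _
      ((Finset.filter_subset _ _).trans hS) ?_
    intro χ hχ
    exact (Finset.mem_filter.mp hχ).2
  have hswap : ∑ χ ∈ S, (((Finset.range (nj r T)).filter (fun j => ¬ gd r b R K m χ (tj r T j))).card : ℝ)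
      = ∑ j ∈ Finset.range (nj r T), ((S.filter (fun χ => ¬ gd r b R K m χ (tj r T j))).card : ℝ) := by
    simp only [Finset.card_filter, Nat.cast_sum]
    exact Finset.sum_comm
  have hlow : (S.card : ℝ) * (ε * (nj r T : ℝ)) ≤
      ∑ χ ∈ S, (((Finset.range (nj r T)).filter (fun j => ¬ gd r b R K m χ (tj r T j))).card : ℝ) := by
    have := Finset.card_nsmul_le_sum S
      (fun χ => (((Finset.range (nj r T)).filter (fun j => ¬ gd r b R K m χ (tj r T j))).card : ℝ))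
      (ε * (nj r T : ℝ)) (fun χ hχ => (hbad χ hχ).le)
    simpa [nsmul_eq_mul] using this
  have hup : ∑ j ∈ Finset.range (nj r T), ((S.filter (fun χ => ¬ gd r b R K m χ (tj r T j))).card : ℝ)
      ≤ (nj r T : ℝ) * (κ * ε * NN r) := by
    have := Finset.sum_le_card_nsmul (Finset.range (nj r T))
      (fun j => ((S.filter (fun χ => ¬ gd r b R K m χ (tj r T j))).card : ℝ)) (κ * ε * NN r) hcol
    simpa [nsmul_eq_mul] using this
  have hfin : (S.card : ℝ) * (ε * (nj r T : ℝ)) ≤ (κ * NN r) * (ε * (nj r T : ℝ)) := by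
    calc (S.card : ℝ) * (ε * (nj r T : ℝ)) ≤ _ := hlow
      _ = _ := hswap
      _ ≤ (nj r T : ℝ) * (κ * ε * NN r) := hup
      _ = (κ * NN r) * (ε * (nj r T : ℝ)) := by ring
  exact le_of_mul_le_mul_right hfin (mul_pos hε (by linarith))

end Pool.Agent.SE
end
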