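import Pool.Agent.Lib.MP_9cfc0a_nt.SE.Defs
import Pool.Agent.Lib.MP_9cfc0a_nt.Mg.G075

section

set_option autoImplicit false

/-! Task A2: shifting vertical lines. -/

namespace Pool.Agent.SE

open Complex MeasureTheory

lemma A2_cont (F : ℂ → ℂ) (a : ℝ) (hF : ∀ t : ℝ, DifferentiableAt ℂ F ((a : ℂ) + (t : ℂ) * I)) :
    Continuous (fun t : ℝ => F ((a : ℂ) + (t : ℂ) * I)) := by
  rw [continuous_iff_continuousAt]
  intro t
  exact ContinuousAt.comp (f := fun t : ℝ => (a : ℂ) + (t : ℂ) * I) (g := F)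
    (hF t).continuousAt (by fun_prop)

lemma A2_int (g : ℝ → ℂ) (K η : ℝ) (hη : 0 < η) (hg : Continuous g)
    (hb : ∀ t : ℝ, ‖g t‖ ≤ K * Real.exp (-(η * t ^ 2))) : Integrable g := by
  have h1 : Integrable (fun t : ℝ => K * Real.exp (-(η * t ^ 2))) := by
    have h2 := (integrable_exp_neg_mul_sq hη).const_mul K
    refine h2.congr (Filter.Eventually.of_forall fun t => ?_)
    simp only [neg_mul]
  exact h1.mono' hg.aestronglyMeasurable (Filter.Eventually.of_forall hb)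

/-- A2a. PROOF. `MC.contour_shift` with `B t = K exp(-η t²)` (tends to `0`); integrability: continuity of `t ↦ F(a + it)` (differentiable, so continuous) and
`integrable_exp_neg_mul_sq`. -/
theorem shift_gauss (F : ℂ → ℂ) (a c K η : ℝ) (hac : a ≤ c) (hη : 0 < η)
    (hF : ∀ s : ℂ, a ≤ s.re → s.re ≤ c → DifferentiableAt ℂ F s)
    (hb : ∀ s : ℂ, a ≤ s.re → s.re ≤ c → ‖F s‖ ≤ K * Real.exp (-(η * s.im ^ 2))) :
    Integrable (fun t : ℝ => F ((a : ℂ) + (t : ℂ) * I)) ∧ Integrable (fun t : ℝ => F ((c : ℂ) + (t : ℂ) * I)) ∧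
    ∫ t : ℝ, F ((a : ℂ) + (t : ℂ) * I) = ∫ t : ℝ, F ((c : ℂ) + (t : ℂ) * I) := by
  have re1 : ∀ (x t : ℝ), ((x : ℂ) + (t : ℂ) * I).re = x := by intro x t; simp
  have im1 : ∀ (x t : ℝ), ((x : ℂ) + (t : ℂ) * I).im = t := by intro x t; simp
  have h1 : Integrable (fun t : ℝ => F ((a : ℂ) + (t : ℂ) * I)) := by
    refine A2_int _ K η hη (A2_cont F a fun t => hF _ (by rw [re1]) (by rw [re1]; exact hac)) fun t => ?_
    have h := hb ((a : ℂ) + (t : ℂ) * I) (by rw [re1]) (by rw [re1]; exact hac)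
    rwa [im1] at h
  have h2 : Integrable (fun t : ℝ => F ((c : ℂ) + (t : ℂ) * I)) := by
    refine A2_int _ K η hη (A2_cont F c fun t => hF _ (by rw [re1]; exact hac) (by rw [re1])) fun t => ?_
    have h := hb ((c : ℂ) + (t : ℂ) * I) (by rw [re1]; exact hac) (by rw [re1])
    rwa [im1] at h
  refine ⟨h1, h2, ?_⟩
  refine MC.contour_shift F a c hac ?_ (fun t => K * Real.exp (-(η * t ^ 2))) ?_ ?_ h1 h2
  · intro s hs
    exact (hF s hs.1 hs.2).differentiableWithinAt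
  · have h3 : Filter.Tendsto (fun t : ℝ => η * t ^ 2) Filter.atTop Filter.atTop :=
      (Filter.tendsto_pow_atTop (by norm_num)).const_mul_atTop hη
    have h4 := (Real.tendsto_exp_neg_atTop_nhds_zero.comp h3).const_mul K
    rw [mul_zero] at h4
    exact h4
  · intro s hs1 hs2
    rw [sq_abs]
    exact hb s hs1 hs2

lemma A2_half (η c : ℝ) (hη : 0 < η) (hc : 0 < c) :
    ∫ t : ℝ, Complex.exp ((η : ℂ) * ((c : ℂ) + (t : ℂ) * I) ^ 2) / ((c : ℂ) + (t : ℂ) * I) = Real.pi := by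
  have hηc : (η : ℂ) ≠ 0 := by exact_mod_cast hη.ne'
  -- the inner integral
  have h1 : ∀ t : ℝ, Complex.exp ((η : ℂ) * ((c : ℂ) + (t : ℂ) * I) ^ 2) / ((c : ℂ) + (t : ℂ) * I) =
      ∫ s : ℝ in Set.Ioi 0, Complex.exp ((η : ℂ) * ((c : ℂ) + (t : ℂ) * I) ^ 2) *
        Complex.exp (-((c : ℂ) + (t : ℂ) * I) * s) := by
    intro t
    rw [integral_const_mul, integral_exp_mul_complex_Ioi (by simp [hc])]
    simp only [ofReal_zero, mul_zero, Complex.exp_zero]
    rw [neg_div_neg_eq, mul_one_div]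
  simp_rw [h1]
  have hint : Integrable (Function.uncurry fun (t s : ℝ) =>
      Complex.exp ((η : ℂ) * ((c : ℂ) + (t : ℂ) * I) ^ 2) *
        Complex.exp (-((c : ℂ) + (t : ℂ) * I) * s))
      ((volume : Measure ℝ).prod (volume.restrict (Set.Ioi (0 : ℝ)))) := by
    have h2 : Integrable (fun p : ℝ × ℝ => (Real.exp (η * c ^ 2) * Real.exp (-η * p.1 ^ 2)) * Real.exp (-c * p.2))
        ((volume : Measure ℝ).prod (volume.restrict (Set.Ioi (0 : ℝ)))) :=
      Integrable.mul_prod ((integrable_exp_neg_mul_sq hη).const_mul _) (exp_neg_integrableOn_Ioi 0 hc)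
    refine h2.mono' ?_ (Filter.Eventually.of_forall fun p => ?_)
    · apply Continuous.aestronglyMeasurable
      unfold Function.uncurry
      fun_prop
    · unfold Function.uncurry
      rw [norm_mul, Complex.norm_exp, Complex.norm_exp, ← Real.exp_add, ← Real.exp_add,
        ← Real.exp_add]
      apply le_of_eq
      congr 1
      simp [pow_two]
      ring
  rw [integral_integral_swap hint]
  have h3 : ∀ s : ℝ, ∫ t : ℝ, Complex.exp ((η : ℂ) * ((c : ℂ) + (t : ℂ) * I) ^ 2) *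
        Complex.exp (-((c : ℂ) + (t : ℂ) * I) * s) =
      (((Real.sqrt (Real.pi / η)) * Real.exp (-(1 / (4 * η)) * s ^ 2) : ℝ) : ℂ) := by
    intro s
    have h4 : ∀ t : ℝ, Complex.exp ((η : ℂ) * ((c : ℂ) + (t : ℂ) * I) ^ 2) *
        Complex.exp (-((c : ℂ) + (t : ℂ) * I) * s) =
        Complex.exp ((-(η : ℂ)) * (t : ℂ) ^ 2 + ((2 * η * c - s) * I) * t + (η * c ^ 2 - c * s)) := by
      intro t
      rw [← Complex.exp_add]
      congr 1
      have hI : (I : ℂ) ^ 2 = -1 := I_sq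
      linear_combination (η * t ^ 2 : ℂ) * hI
    simp_rw [h4]
    rw [integral_cexp_quadratic (by simpa using hη), neg_neg]
    have h5 : ((Real.pi : ℂ) / (η : ℂ)) ^ (1 / 2 : ℂ) = ((Real.sqrt (Real.pi / η) : ℝ) : ℂ) := by
      rw [Real.sqrt_eq_rpow, Complex.ofReal_cpow (by positivity)]
      push_cast
      rfl
    rw [h5, ofReal_mul, ofReal_exp]
    congr 2
    have hI : (I : ℂ) ^ 2 = -1 := I_sq
    push_cast
    field_simp
    ring_nf
    rw [hI]
    ring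
  simp_rw [h3]
  rw [integral_complex_ofReal, integral_const_mul, integral_gaussian_Ioi]
  congr 1
  rw [← mul_div_assoc, ← Real.sqrt_mul (by positivity)]
  have h6 : Real.pi / η * (Real.pi / (1 / (4 * η))) = (2 * Real.pi) ^ 2 := by
    field_simp
    ring
  rw [h6, Real.sqrt_sq (by positivity)]
  ring

/-- A2b. The model case. PROOF. For `c > 0`: `1/(c+it) = ∫_0^∞ exp(-(c+it)s) ds`, Fubini and the Gaussian integral
(`∫ exp(η(c+it)²) exp(-(c+it)s) dt = √(π/η) exp(-s²/(4η))`: complete the square, e.g. `integral_cexp_quadratic` / `fourierIntegral_gaussian`), and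
`∫_0^∞ √(π/η) exp(-s²/(4η)) ds = π`. For `a < 0` use `(a, t) → (-a, -t)`: the integral is `-π`.
(Alternative: `∫ exp(η(c+it)²)/(c+it) dt` is independent of `c > 0` by `shift_gauss`, it equals `∫ c exp(..)../(c²+t²)`-like as `c → 0`; any proof will do.) -/
theorem gauss_pole (η a c : ℝ) (hη : 0 < η) (ha : a < 0) (hc : 0 < c) :
    (∫ t : ℝ, Complex.exp ((η : ℂ) * ((c : ℂ) + (t : ℂ) * I) ^ 2) / ((c : ℂ) + (t : ℂ) * I)) -
      (∫ t : ℝ, Complex.exp ((η : ℂ) * ((a : ℂ) + (t : ℂ) * I) ^ 2) / ((a : ℂ) + (t : ℂ) * I)) = 2 * Real.pi := by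
  rw [A2_half η c hη hc]
  have h1 := A2_half η (-a) hη (by linarith)
  rw [← integral_neg_eq_self] at h1
  have h2 : ∫ t : ℝ, Complex.exp ((η : ℂ) * ((a : ℂ) + (t : ℂ) * I) ^ 2) / ((a : ℂ) + (t : ℂ) * I) =
      -(Real.pi : ℂ) := by
    rw [← h1, ← integral_neg]
    congr 1
    funext t
    push_cast
    rw [show (-(a : ℂ) + -(t : ℂ) * I) = -((a : ℂ) + (t : ℂ) * I) by ring, neg_sq, div_neg, neg_neg]
  rw [h2]
  ring

lemma A2_norm (η x t : ℝ) : ‖Complex.exp ((η : ℂ) * ((x : ℂ) + (t : ℂ) * I) ^ 2)‖ =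
    Real.exp (η * x ^ 2) * Real.exp (-(η * t ^ 2)) := by
  rw [Complex.norm_exp, ← Real.exp_add]
  congr 1
  simp [pow_two]
  ring

lemma A2_E (η x : ℝ) (hη : 0 < η) (hx : x ≠ 0) :
    Integrable (fun t : ℝ => Complex.exp ((η : ℂ) * ((x : ℂ) + (t : ℂ) * I) ^ 2) / ((x : ℂ) + (t : ℂ) * I)) := by
  have hne : ∀ t : ℝ, (x : ℂ) + (t : ℂ) * I ≠ 0 := by
    intro t h
    have := congrArg Complex.re h
    simp at this
    exact hx this
  have hlow : ∀ t : ℝ, |x| ≤ ‖(x : ℂ) + (t : ℂ) * I‖ := by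
    intro t
    have := Complex.abs_re_le_norm ((x : ℂ) + (t : ℂ) * I)
    simpa using this
  refine A2_int _ (Real.exp (η * x ^ 2) / |x|) η hη ?_ fun t => ?_
  · apply Continuous.div _ _ hne
    · fun_prop
    · fun_prop
  · rw [norm_div, A2_norm, div_mul_eq_mul_div]
    exact div_le_div_of_nonneg_left (by positivity) (abs_pos.mpr hx) (hlow t)

/-- A2c. PROOF. Let `G = F - F(0) exp((η/2) s²)`; `G(0) = 0`, so `G(s)/s = dslope G 0 s` for `s ≠ 0`, differentiable in the strip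
(`DifferentiableAt` of `dslope` at points `≠ 0` and at `0`: `dslope` of a function analytic at `0`; or `DifferentiableOn.dslope`-type lemmas on the open strip, or
`(differentiableOn_dslope ..)`), `‖G(s)/s‖ ≤ K' exp(-(η/2) s.im²)` in the strip (for `‖s‖ ≥ min(-a,c)` from the hypothesis and
`‖exp((η/2)s²)‖ = exp((η/2)(s.re² - s.im²))`; for `‖s‖` small by continuity on a compact set). `shift_gauss` for `G(s)/s`, and `gauss_pole` with `η/2`. -/
theorem shift_pole (F : ℂ → ℂ) (a c K η : ℝ) (ha : a < 0) (hc : 0 < c) (hη : 0 < η)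
    (hF : ∀ s : ℂ, a ≤ s.re → s.re ≤ c → DifferentiableAt ℂ F s)
    (hb : ∀ s : ℂ, a ≤ s.re → s.re ≤ c → ‖F s‖ ≤ K * Real.exp (-(η * s.im ^ 2))) :
    (∫ t : ℝ, F ((c : ℂ) + (t : ℂ) * I) / ((c : ℂ) + (t : ℂ) * I)) -
      (∫ t : ℝ, F ((a : ℂ) + (t : ℂ) * I) / ((a : ℂ) + (t : ℂ) * I)) = 2 * Real.pi * F 0 := by
  set η' : ℝ := η / 2 with hη'
  have hη'0 : 0 < η' := by positivity
  set G : ℂ → ℂ := fun s => F s - F 0 * Complex.exp ((η' : ℂ) * s ^ 2) with hG
  have hG0 : G 0 = 0 := by simp [hG]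
  have hGd : ∀ s : ℂ, a ≤ s.re → s.re ≤ c → DifferentiableAt ℂ G s := by
    intro s h1 h2
    exact (hF s h1 h2).sub (by fun_prop)
  set H : ℂ → ℂ := dslope G 0 with hH
  have hHs : ∀ s : ℂ, s ≠ 0 → H s = G s / s := by
    intro s hs
    rw [hH, dslope_of_ne _ hs, slope_def_field, hG0, sub_zero, sub_zero]
  have hHd : ∀ s : ℂ, a ≤ s.re → s.re ≤ c → DifferentiableAt ℂ H s := by
    intro s h1 h2
    by_cases hs : s = 0
    · subst hs
      have ho : IsOpen {s : ℂ | a < s.re ∧ s.re < c} :=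
        (isOpen_lt continuous_const Complex.continuous_re).inter
          (isOpen_lt Complex.continuous_re continuous_const)
      have hmem : {s : ℂ | a < s.re ∧ s.re < c} ∈ nhds (0 : ℂ) :=
        ho.mem_nhds ⟨by simpa using ha, by simpa using hc⟩
      have hd : DifferentiableOn ℂ G {s : ℂ | a < s.re ∧ s.re < c} := fun s hs =>
        (hGd s hs.1.le hs.2.le).differentiableWithinAt
      exact ((Complex.differentiableOn_dslope hmem).mpr hd).differentiableAt hmem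
    · exact (differentiableAt_dslope_of_ne hs).mpr (hGd s h1 h2)
  set δ : ℝ := min (-a) c with hδ
  have hδ0 : 0 < δ := lt_min (by linarith) hc
  -- near zero
  obtain ⟨K2, hK2⟩ : ∃ K2 : ℝ, ∀ s ∈ Metric.closedBall (0 : ℂ) δ, ‖H s‖ ≤ K2 := by
    apply (isCompact_closedBall (0 : ℂ) δ).exists_bound_of_continuousOn
    intro s hs
    have h1 : ‖s‖ ≤ δ := by simpa using hs
    have h2 := Complex.abs_re_le_norm s
    have h3 := abs_le.mp (h2.trans h1)
    have h4 : δ ≤ -a := min_le_left _ _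
    have h5 : δ ≤ c := min_le_right _ _
    exact (hHd s (by linarith [h3.1]) (by linarith [h3.2])).continuousAt.continuousWithinAt
  set M : ℝ := max (-a) c with hM
  set K1 : ℝ := (|K| + ‖F 0‖ * Real.exp (η' * M ^ 2)) / δ with hK1
  have hK1n : 0 ≤ K1 := by positivity
  have hK2n : 0 ≤ K2 := (norm_nonneg _).trans (hK2 0 (by simp [hδ0.le]))
  have hbound : ∀ s : ℂ, a ≤ s.re → s.re ≤ c →
      ‖H s‖ ≤ (K1 + K2 * Real.exp (η' * δ ^ 2)) * Real.exp (-(η' * s.im ^ 2)) := by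
    intro s h1 h2
    have e1 : 0 ≤ Real.exp (-(η' * s.im ^ 2)) := (Real.exp_pos _).le
    by_cases hs : ‖s‖ ≤ δ
    · have h3 := hK2 s (by simpa using hs)
      have h4 : 1 ≤ Real.exp (η' * δ ^ 2) * Real.exp (-(η' * s.im ^ 2)) := by
        rw [← Real.exp_add]
        apply Real.one_le_exp
        have h5 := Complex.abs_im_le_norm s
        have h6 : s.im ^ 2 ≤ δ ^ 2 := by
          rw [← sq_abs s.im]
          exact pow_le_pow_left₀ (abs_nonneg _) (h5.trans hs) 2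
        nlinarith
      calc ‖H s‖ ≤ K2 * 1 := by rw [mul_one]; exact h3
        _ ≤ K2 * (Real.exp (η' * δ ^ 2) * Real.exp (-(η' * s.im ^ 2))) :=
            mul_le_mul_of_nonneg_left h4 hK2n
        _ ≤ (K1 + K2 * Real.exp (η' * δ ^ 2)) * Real.exp (-(η' * s.im ^ 2)) := by
            rw [add_mul, mul_assoc]
            exact le_add_of_nonneg_left (mul_nonneg hK1n e1)
    · push Not at hs
      have hs0 : s ≠ 0 := fun h => by rw [h, norm_zero] at hs; linarith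
      rw [hHs s hs0, norm_div]
      have h3 : ‖G s‖ ≤ (|K| + ‖F 0‖ * Real.exp (η' * M ^ 2)) * Real.exp (-(η' * s.im ^ 2)) := by
        have h4 : ‖G s‖ ≤ ‖F s‖ + ‖F 0‖ * ‖Complex.exp ((η' : ℂ) * s ^ 2)‖ := by
          rw [← norm_mul]
          exact norm_sub_le _ _
        have h5 : ‖Complex.exp ((η' : ℂ) * s ^ 2)‖ =
            Real.exp (η' * s.re ^ 2) * Real.exp (-(η' * s.im ^ 2)) := by
          have h6 := A2_norm η' s.re s.im
          rwa [Complex.re_add_im] at h6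
        have h6 : ‖F s‖ ≤ |K| * Real.exp (-(η' * s.im ^ 2)) := by
          refine (hb s h1 h2).trans ?_
          have h7 : Real.exp (-(η * s.im ^ 2)) ≤ Real.exp (-(η' * s.im ^ 2)) := by
            apply Real.exp_le_exp.mpr
            have h8 : 0 ≤ s.im ^ 2 := sq_nonneg _
            rw [hη']
            nlinarith
          calc K * Real.exp (-(η * s.im ^ 2)) ≤ |K| * Real.exp (-(η * s.im ^ 2)) :=
                mul_le_mul_of_nonneg_right (le_abs_self K) (Real.exp_pos _).le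
            _ ≤ |K| * Real.exp (-(η' * s.im ^ 2)) := mul_le_mul_of_nonneg_left h7 (abs_nonneg K)
        have h7 : Real.exp (η' * s.re ^ 2) ≤ Real.exp (η' * M ^ 2) := by
          apply Real.exp_le_exp.mpr
          have h8 : |s.re| ≤ M := abs_le.mpr ⟨by linarith [le_max_left (-a) c], by linarith [le_max_right (-a) c]⟩
          have h9 : s.re ^ 2 ≤ M ^ 2 := by
            rw [← sq_abs s.re]
            exact pow_le_pow_left₀ (abs_nonneg _) h8 2
          exact mul_le_mul_of_nonneg_left h9 hη'0.le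
        rw [h5] at h4
        calc ‖G s‖ ≤ ‖F s‖ + ‖F 0‖ * (Real.exp (η' * s.re ^ 2) * Real.exp (-(η' * s.im ^ 2))) := h4
          _ ≤ |K| * Real.exp (-(η' * s.im ^ 2)) +
              ‖F 0‖ * (Real.exp (η' * M ^ 2) * Real.exp (-(η' * s.im ^ 2))) := by
              apply add_le_add h6
              apply mul_le_mul_of_nonneg_left _ (norm_nonneg _)
              exact mul_le_mul_of_nonneg_right h7 e1
          _ = _ := by ring
      calc ‖G s‖ / ‖s‖ ≤ ((|K| + ‖F 0‖ * Real.exp (η' * M ^ 2)) * Real.exp (-(η' * s.im ^ 2))) / δ := by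
            apply div_le_div₀ (by positivity) h3 hδ0 hs.le
        _ = K1 * Real.exp (-(η' * s.im ^ 2)) := by rw [hK1]; ring
        _ ≤ (K1 + K2 * Real.exp (η' * δ ^ 2)) * Real.exp (-(η' * s.im ^ 2)) := by
            apply mul_le_mul_of_nonneg_right _ e1
            exact le_add_of_nonneg_right (by positivity)
  obtain ⟨i1, i2, i3⟩ := shift_gauss H a c _ η' (by linarith) hη'0 hHd hbound
  have hsplit : ∀ x : ℝ, x ≠ 0 → Integrable (fun t : ℝ => H ((x : ℂ) + (t : ℂ) * I)) →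
      ∫ t : ℝ, F ((x : ℂ) + (t : ℂ) * I) / ((x : ℂ) + (t : ℂ) * I) =
      (∫ t : ℝ, H ((x : ℂ) + (t : ℂ) * I)) +
      F 0 * ∫ t : ℝ, Complex.exp ((η' : ℂ) * ((x : ℂ) + (t : ℂ) * I) ^ 2) / ((x : ℂ) + (t : ℂ) * I) := by
    intro x hx hi
    have hne : ∀ t : ℝ, (x : ℂ) + (t : ℂ) * I ≠ 0 := by
      intro t h
      have := congrArg Complex.re h
      simp at this
      exact hx this
    rw [← integral_const_mul, ← integral_add hi ((A2_E η' x hη'0 hx).const_mul _)]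
    congr 1
    funext t
    rw [hHs _ (hne t)]
    have := hne t
    simp only [hG]
    field_simp
    ring
  rw [hsplit c hc.ne' i2, hsplit a ha.ne i1, i3]
  have hgp := gauss_pole η' a c hη'0 ha hc
  linear_combination F 0 * hgp

end Pool.Agent.SE
end

section

set_option autoImplicit false

/-! Task A3: the kernel. -/

namespace Pool.Agent.SE

open Complex MeasureTheory

/-- A3a. PROOF. `dslope` of an entire function: `Differentiable` (e.g. `differentiableOn_dslope` on `univ`). -/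
theorem shc_diff : Differentiable ℂ shc := by
  have h : DifferentiableOn ℂ (dslope Complex.sinh 0) Set.univ :=
    (Complex.differentiableOn_dslope (Filter.univ_mem)).2 Complex.differentiable_sinh.differentiableOn
  exact differentiableOn_univ.1 h

theorem A3_shc_of_ne {ζ : ℂ} (h : ζ ≠ 0) : shc ζ = Complex.sinh ζ / ζ := by
  unfold shc
  rw [dslope_of_ne _ h, slope_def_field]
  simp

theorem shc_zero : shc 0 = 1 := by
  unfold shc
  rw [dslope_same]
  simp

theorem A3_cosh_le (w : ℂ) : ‖Complex.cosh w‖ ≤ Real.exp |w.re| := by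
  have h1 : Complex.cosh w = (Complex.exp w + Complex.exp (-w)) / 2 := rfl
  rw [h1, norm_div]
  have h2 : ‖Complex.exp w + Complex.exp (-w)‖ ≤ Real.exp |w.re| + Real.exp |w.re| := by
    refine (norm_add_le _ _).trans (add_le_add ?_ ?_)
    · rw [Complex.norm_exp]
      exact Real.exp_le_exp.2 (le_abs_self _)
    · rw [Complex.norm_exp]
      refine Real.exp_le_exp.2 ?_
      rw [Complex.neg_re]
      exact neg_le_abs _
  have h3 : ‖(2 : ℂ)‖ = 2 := by simp
  rw [h3]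
  linarith

/-- A3b. PROOF. `shc ζ = ∫_0^1 cosh(ζ s) ds` (for `ζ ≠ 0`: `sinh(ζ s)/ζ` is a primitive; for `ζ = 0` both are `1`), `‖cosh(ζ s)‖ ≤ cosh(ζ.re s) ≤ exp |ζ.re|`. -/
theorem shc_le (ζ : ℂ) : ‖shc ζ‖ ≤ Real.exp |ζ.re| := by
  rcases eq_or_ne ζ 0 with h | h
  · subst h
    rw [shc_zero]
    simp
  · rw [A3_shc_of_ne h, norm_div, div_le_iff₀ (norm_pos_iff.2 h)]
    have hconv : Convex ℝ {w : ℂ | |w.re| ≤ |ζ.re|} := by
      have h1 : {w : ℂ | |w.re| ≤ |ζ.re|} = Complex.reCLM ⁻¹' (Set.Icc (-|ζ.re|) |ζ.re|) := by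
        ext w
        simp [abs_le]
      rw [h1]
      exact (convex_Icc _ _).linear_preimage Complex.reCLM.toLinearMap
    have h2 := hconv.norm_image_sub_le_of_norm_deriv_le (𝕜 := ℂ) (f := Complex.sinh)
      (C := Real.exp |ζ.re|) (x := 0) (y := ζ)
      (fun w _ => Complex.differentiable_sinh w)
      (fun w hw => by
        rw [Complex.deriv_sinh]
        exact (A3_cosh_le w).trans (Real.exp_le_exp.2 hw))
      (by simp) (by simp)
    simpa using h2

/-- A3c. PROOF. `shc(iy) = sin y/y`; `≤ 1` by `shc_le`, and `≤ 1/|y|`; so `≤ min(1, 1/|y|) ≤ 2/(1+|y|)`. -/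
theorem shc_im (y : ℝ) : ‖shc ((y : ℂ) * I)‖ ≤ 2 / (1 + |y|) := by
  have hpos : 0 < 1 + |y| := by positivity
  rcases le_or_gt |y| 1 with h | h
  · have h1 := shc_le ((y : ℂ) * I)
    have h2 : ((y : ℂ) * I).re = 0 := by simp
    rw [h2, abs_zero, Real.exp_zero] at h1
    refine h1.trans ?_
    rw [le_div_iff₀ hpos]
    linarith
  · have hy : y ≠ 0 := by
      intro h0
      rw [h0, abs_zero] at h
      linarith
    have hne : (y : ℂ) * I ≠ 0 := mul_ne_zero (by exact_mod_cast hy) I_ne_zero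
    rw [A3_shc_of_ne hne, Complex.sinh_mul_I, norm_div, norm_mul, norm_mul]
    have h3 : ‖Complex.sin (y : ℂ)‖ ≤ 1 := by
      rw [← Complex.ofReal_sin, Complex.norm_real, Real.norm_eq_abs]
      exact Real.abs_sin_le_one y
    have h4 : ‖(y : ℂ)‖ = |y| := by rw [Complex.norm_real, Real.norm_eq_abs]
    rw [h4, Complex.norm_I, mul_one, mul_one]
    have hyp : 0 < |y| := by linarith
    rw [div_le_div_iff₀ hyp hpos]
    nlinarith [norm_nonneg (Complex.sin (y : ℂ))]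

theorem Ek_diff (σ v : ℝ) (m : ℕ) : Differentiable ℂ (Ek σ v m) := by
  unfold Ek
  have h1 : Differentiable ℂ (fun ζ : ℂ => shc ((v : ℂ) * ζ)) :=
    shc_diff.comp (differentiable_id.const_mul (v : ℂ))
  have h2 : Differentiable ℂ (fun ζ : ℂ => Complex.exp (((σ ^ 2 / 2 : ℝ) : ℂ) * ζ ^ 2)) := by
    fun_prop
  exact h2.mul (h1.pow m)

theorem Ek_zero (σ v : ℝ) (m : ℕ) : Ek σ v m 0 = 1 := by
  unfold Ek
  simp [shc_zero]

/-- A3d. PROOF. `‖exp(z)‖ = exp(z.re)`, `(ζ²).re = ζ.re² - ζ.im²`; `shc_le`, power `m`. -/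
theorem Ek_le (σ v : ℝ) (hv : 0 ≤ v) (m : ℕ) (ζ : ℂ) :
    ‖Ek σ v m ζ‖ ≤ Real.exp (σ ^ 2 / 2 * (ζ.re ^ 2 - ζ.im ^ 2) + m * v * |ζ.re|) := by
  unfold Ek
  rw [norm_mul, norm_pow, Complex.norm_exp, Real.exp_add]
  have h1 : (((σ ^ 2 / 2 : ℝ) : ℂ) * ζ ^ 2).re = σ ^ 2 / 2 * (ζ.re ^ 2 - ζ.im ^ 2) := by
    rw [Complex.re_ofReal_mul, pow_two ζ, Complex.mul_re]
    ring
  rw [h1]
  refine mul_le_mul_of_nonneg_left ?_ (Real.exp_pos _).le
  have h2 := shc_le ((v : ℂ) * ζ)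
  rw [Complex.re_ofReal_mul, abs_mul, abs_of_nonneg hv] at h2
  calc ‖shc ((v : ℂ) * ζ)‖ ^ m ≤ (Real.exp (v * |ζ.re|)) ^ m :=
        pow_le_pow_left₀ (norm_nonneg _) h2 m
    _ = Real.exp (m * v * |ζ.re|) := by
        rw [← Real.exp_nat_mul]
        ring_nf

/-- A3e. PROOF. `‖exp(-σ²y²/2)‖ ≤ 1`, `shc_im`. -/
theorem Ek_im (σ v : ℝ) (hv : 0 ≤ v) (m : ℕ) (y : ℝ) : ‖Ek σ v m ((y : ℂ) * I)‖ ≤ (2 / (1 + v * |y|)) ^ m := by
  unfold Ek
  rw [norm_mul, norm_pow, Complex.norm_exp]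
  have h1 : (((σ ^ 2 / 2 : ℝ) : ℂ) * ((y : ℂ) * I) ^ 2).re = -(σ ^ 2 / 2 * y ^ 2) := by
    rw [mul_pow, Complex.I_sq, Complex.re_ofReal_mul]
    have h0 : ((y : ℂ) ^ 2 * (-1)) = ((-(y ^ 2) : ℝ) : ℂ) := by push_cast; ring
    rw [h0, Complex.ofReal_re]
    ring
  rw [h1]
  have h2 : Real.exp (-(σ ^ 2 / 2 * y ^ 2)) ≤ 1 := by
    rw [Real.exp_le_one_iff]
    have : 0 ≤ σ ^ 2 / 2 * y ^ 2 := by positivity
    linarith
  have h3 := shc_im (v * y)
  have h4 : (v : ℂ) * ((y : ℂ) * I) = ((v * y : ℝ) : ℂ) * I := by push_cast; ring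
  rw [h4]
  rw [abs_mul, abs_of_nonneg hv] at h3
  have h5 : ‖shc (((v * y : ℝ) : ℂ) * I)‖ ^ m ≤ (2 / (1 + v * |y|)) ^ m :=
    pow_le_pow_left₀ (norm_nonneg _) h3 m
  calc Real.exp (-(σ ^ 2 / 2 * y ^ 2)) * ‖shc (((v * y : ℝ) : ℂ) * I)‖ ^ m
      ≤ 1 * ‖shc (((v * y : ℝ) : ℂ) * I)‖ ^ m :=
        mul_le_mul_of_nonneg_right h2 (by positivity)
    _ ≤ (2 / (1 + v * |y|)) ^ m := by rw [one_mul]; exact h5

theorem A3_gauss_one (σ γ a : ℝ) (hσ : 0 < σ) :
    Integrable (fun t : ℝ => Real.exp (a * (t - γ)) * Real.exp (-(σ ^ 2 / 2 * (t - γ) ^ 2))) ∧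
    ∫ t : ℝ, Real.exp (a * (t - γ)) * Real.exp (-(σ ^ 2 / 2 * (t - γ) ^ 2)) =
      Real.exp (a ^ 2 / (2 * σ ^ 2)) * (Real.sqrt (2 * Real.pi) / σ) := by
  have hb : 0 < σ ^ 2 / 2 := by positivity
  have hfun : (fun t : ℝ => Real.exp (a * (t - γ)) * Real.exp (-(σ ^ 2 / 2 * (t - γ) ^ 2)))
      = fun t : ℝ => Real.exp (a ^ 2 / (2 * σ ^ 2)) *
          (fun s : ℝ => Real.exp (-(σ ^ 2 / 2) * s ^ 2)) (t - (γ + a / σ ^ 2)) := by
    funext t
    rw [← Real.exp_add]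
    simp only
    rw [← Real.exp_add]
    congr 1
    field_simp
    ring
  have hint : Integrable (fun s : ℝ => Real.exp (-(σ ^ 2 / 2) * s ^ 2)) :=
    integrable_exp_neg_mul_sq hb
  constructor
  · rw [hfun]
    exact (hint.comp_sub_right (γ + a / σ ^ 2)).const_mul _
  · rw [hfun, integral_const_mul,
      integral_sub_right_eq_self (fun s : ℝ => Real.exp (-(σ ^ 2 / 2) * s ^ 2)) (γ + a / σ ^ 2),
      integral_gaussian]
    congr 1
    have h1 : Real.pi / (σ ^ 2 / 2) = 2 * Real.pi / σ ^ 2 := by field_simp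
    rw [h1, Real.sqrt_div (by positivity), Real.sqrt_sq hσ.le]

/-- A3f. PROOF. `3|t| ≤ 3|γ| + 3|t-γ|`, `exp(3|y|) ≤ exp(3y) + exp(-3y)`, `∫ exp(3y - σ²y²/2) dy = exp(9/(2σ²)) √(2π)/σ` (complete the square,
`integral_gaussian`). -/
theorem gauss_int (σ γ : ℝ) (hσ : 0 < σ) :
    Integrable (fun t : ℝ => Real.exp (3 * |t|) * Real.exp (-(σ ^ 2 / 2 * (t - γ) ^ 2))) ∧
    ∫ t : ℝ, Real.exp (3 * |t|) * Real.exp (-(σ ^ 2 / 2 * (t - γ) ^ 2)) ≤
      Real.exp (3 * |γ|) * (2 * Real.exp (9 / (2 * σ ^ 2)) * (Real.sqrt (2 * Real.pi) / σ)) := by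
  obtain ⟨i1, e1⟩ := A3_gauss_one σ γ 3 hσ
  obtain ⟨i2, e2⟩ := A3_gauss_one σ γ (-3) hσ
  have hle : ∀ t : ℝ, Real.exp (3 * |t|) * Real.exp (-(σ ^ 2 / 2 * (t - γ) ^ 2)) ≤
      Real.exp (3 * |γ|) * (Real.exp (3 * (t - γ)) * Real.exp (-(σ ^ 2 / 2 * (t - γ) ^ 2)) +
        Real.exp (-3 * (t - γ)) * Real.exp (-(σ ^ 2 / 2 * (t - γ) ^ 2))) := by
    intro t
    rw [← add_mul, ← mul_assoc]
    refine mul_le_mul_of_nonneg_right ?_ (Real.exp_pos _).le
    have h1 : |t| ≤ |γ| + |t - γ| := by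
      have := abs_add_le γ (t - γ)
      simpa using this
    have h2 : Real.exp (3 * |t|) ≤ Real.exp (3 * |γ|) * Real.exp (3 * |t - γ|) := by
      rw [← Real.exp_add]
      exact Real.exp_le_exp.2 (by linarith)
    refine h2.trans (mul_le_mul_of_nonneg_left ?_ (Real.exp_pos _).le)
    rcases abs_cases (t - γ) with ⟨h, _⟩ | ⟨h, _⟩
    · rw [h]
      linarith [Real.exp_pos (-3 * (t - γ))]
    · rw [h]
      have h3 : 3 * -(t - γ) = -3 * (t - γ) := by ring
      rw [h3]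
      linarith [Real.exp_pos (3 * (t - γ))]
  have hint : Integrable (fun t : ℝ => Real.exp (3 * |γ|) *
      (Real.exp (3 * (t - γ)) * Real.exp (-(σ ^ 2 / 2 * (t - γ) ^ 2)) +
        Real.exp (-3 * (t - γ)) * Real.exp (-(σ ^ 2 / 2 * (t - γ) ^ 2)))) :=
    (i1.add i2).const_mul _
  have hI : Integrable (fun t : ℝ => Real.exp (3 * |t|) * Real.exp (-(σ ^ 2 / 2 * (t - γ) ^ 2))) := by
    refine hint.mono' ?_ ?_
    · exact Continuous.aestronglyMeasurable (by fun_prop)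
    · refine Filter.Eventually.of_forall fun t => ?_
      rw [Real.norm_of_nonneg (by positivity)]
      exact hle t
  refine ⟨hI, ?_⟩
  calc ∫ t : ℝ, Real.exp (3 * |t|) * Real.exp (-(σ ^ 2 / 2 * (t - γ) ^ 2))
      ≤ ∫ t : ℝ, Real.exp (3 * |γ|) *
          (Real.exp (3 * (t - γ)) * Real.exp (-(σ ^ 2 / 2 * (t - γ) ^ 2)) +
          Real.exp (-3 * (t - γ)) * Real.exp (-(σ ^ 2 / 2 * (t - γ) ^ 2))) :=
        integral_mono hI hint hle
    _ = Real.exp (3 * |γ|) * (2 * Real.exp (9 / (2 * σ ^ 2)) * (Real.sqrt (2 * Real.pi) / σ)) := by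
        rw [integral_const_mul, integral_add i1 i2, e1, e2]
        norm_num
        ring

end Pool.Agent.SE
end
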