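import Pool.Agent.Lib.MP_9cfc0a_nt.SE.Defs
import Pool.Agent.Lib.MP_9cfc0a_nt.EMLfun
import Pool.Agent.Lib.MP_9cfc0a_nt.Mg.G011
import Pool.Agent.Lib.MP_9cfc0a_nt.Mg.G004
import Pool.Agent.Lib.MP_9cfc0a_nt.Mg.G050
import Pool.Agent.Lib.MP_9cfc0a_nt.Mg.G015

section

set_option autoImplicit false

/-! Task A1: growth of `L(s, χ)` in the left half plane. -/

namespace Pool.Agent.SE

open Complex MeasureTheory
open Pool.Agent.SK Pool.Agent.SD
open Pool.Agent.SO (prim NN pt pz MM kw)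

/-- A1a. PROOF. `Γ(y) = Γ(y+2)/(y(y+1)) ≤ (4/3) Γ(y+2)` for `y ≥ 1/2`; `Γ(y+2) ≤ Γ(⌈y⌉₊+2) = (⌈y⌉₊+1)! ≤ (y+2)^(y+2)` (`Real.Gamma` is
increasing on `[2, ∞)`: `Real.Gamma_strictMonoOn_Ici`; `n! ≤ n^n`, `⌈y⌉₊ + 1 ≤ y + 2`). -/
theorem Gamma_le (y : ℝ) (hy : 1 / 2 ≤ y) : Real.Gamma y ≤ 2 * (y + 2) ^ (y + 2) := by
  have h1 : Real.Gamma (y + 2) = (y + 1) * (y * Real.Gamma y) := by
    rw [show y + 2 = (y + 1) + 1 by ring, Real.Gamma_add_one (by linarith),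
      Real.Gamma_add_one (by linarith)]
  set n := ⌈y⌉₊ with hn
  have hn1 : y ≤ n := Nat.le_ceil y
  have hn2 : (n : ℝ) < y + 1 := Nat.ceil_lt_add_one (by linarith)
  have h2 : Real.Gamma (y + 2) ≤ Real.Gamma ((n : ℝ) + 2) :=
    Real.Gamma_strictMonoOn_Ici.monotoneOn (Set.mem_Ici.mpr (by linarith))
      (Set.mem_Ici.mpr (by linarith)) (by linarith)
  have h3 : Real.Gamma ((n : ℝ) + 2) = ((n + 1).factorial : ℝ) := by
    have := Real.Gamma_nat_eq_factorial (n + 1)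
    rw [← this]; congr 1; push_cast; ring
  have h4 : ((n + 1).factorial : ℝ) ≤ ((n : ℝ) + 1) ^ (n + 1) := by
    have := Nat.factorial_le_pow (n + 1)
    exact_mod_cast this
  have h5 : ((n : ℝ) + 1) ^ (n + 1) ≤ (y + 2) ^ (y + 2) := by
    rw [← Real.rpow_natCast]
    have hb1 : (1 : ℝ) ≤ y + 2 := by linarith
    calc ((n : ℝ) + 1) ^ (((n + 1 : ℕ) : ℝ)) ≤ (y + 2) ^ (((n + 1 : ℕ) : ℝ)) :=
          Real.rpow_le_rpow (by positivity) (by linarith) (by positivity)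
      _ ≤ (y + 2) ^ (y + 2) :=
          Real.rpow_le_rpow_of_exponent_le hb1 (by push_cast; linarith)
  have h6 : (y + 1) * (y * Real.Gamma y) ≤ (y + 2) ^ (y + 2) := by
    rw [← h1]
    exact h2.trans (h3.le.trans (h4.trans h5))
  have h7 : 0 < Real.Gamma y := Real.Gamma_pos_of_pos (by linarith)
  have h8 : (3 / 4 : ℝ) ≤ (y + 1) * y := by nlinarith
  have h9 : (3 / 4 : ℝ) * Real.Gamma y ≤ (y + 1) * (y * Real.Gamma y) := by
    rw [← mul_assoc]
    exact mul_le_mul_of_nonneg_right h8 h7.le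
  have h10 : 0 ≤ (y + 2) ^ (y + 2) := by positivity
  linarith

theorem A1_isPrim {r : ℕ} [NeZero r] {χ : DirichletCharacter ℂ r} (h : χ ∈ prim r) :
    χ.IsPrimitive := by
  unfold prim at h
  simp at h
  exact h

theorem A1_root {r : ℕ} [NeZero r] (hr : 2 ≤ r) (χ : DirichletCharacter ℂ r)
    (hχ : χ.IsPrimitive) : ‖DirichletCharacter.rootNumber χ‖ = 1 := by
  have hne := prim_ne_one hr χ hχ
  have hr0 : (0 : ℝ) < r := by exact_mod_cast (by omega : 0 < r)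
  have h1 := Lam_neg hr χ hχ ((3 / 2 : ℝ) : ℂ)
  have h2 := Lam_neg hr χ hχ (((-(3 / 2) : ℝ)) : ℂ)
  rw [Complex.conj_ofReal] at h1 h2
  have e1 : -((((-(3 / 2) : ℝ)) : ℂ)) = ((3 / 2 : ℝ) : ℂ) := by push_cast; ring
  have e2 : -(((3 / 2 : ℝ) : ℂ)) = (((-(3 / 2) : ℝ)) : ℂ) := by push_cast; ring
  rw [e1] at h2
  rw [e2] at h1
  have n1 := congrArg norm h1
  have n2 := congrArg norm h2
  rw [norm_mul, norm_mul, Complex.norm_conj] at n1 n2
  have f1 : ∀ x : ℝ, ‖(r : ℂ) ^ (x : ℂ)‖ = (r : ℝ) ^ x := by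
    intro x
    rw [show (r : ℂ) = ((r : ℝ) : ℂ) by norm_num, Complex.norm_cpow_eq_rpow_re_of_pos hr0]
    simp
  rw [f1] at n1 n2
  have hL : 0 < ‖Lam χ ((3 / 2 : ℝ) : ℂ)‖ := by
    rw [norm_pos_iff]
    unfold Lam
    have e3 : (1 / 2 + ((3 / 2 : ℝ) : ℂ)) = 2 := by push_cast; norm_num
    rw [e3, EM.U5_comp hne (by norm_num)]
    refine mul_ne_zero (EM.U5_gamma_ne _ (by norm_num)) ?_
    exact DirichletCharacter.LFunction_ne_zero_of_one_le_re _ (Or.inl hne) (by norm_num)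
  have hrr : (r : ℝ) ^ (-(3 / 2) : ℝ) * (r : ℝ) ^ (3 / 2 : ℝ) = 1 := by
    rw [← Real.rpow_add hr0]; simp
  set w := ‖DirichletCharacter.rootNumber χ‖ with hw
  set A := ‖Lam χ ((3 / 2 : ℝ) : ℂ)‖ with hA
  have h3 : A = w ^ 2 * A := by
    calc A = (r : ℝ) ^ (-(3 / 2) : ℝ) * w * ‖Lam χ (((-(3 / 2) : ℝ)) : ℂ)‖ := n2
      _ = (r : ℝ) ^ (-(3 / 2) : ℝ) * w * ((r : ℝ) ^ (3 / 2 : ℝ) * w * A) := by rw [n1]
      _ = ((r : ℝ) ^ (-(3 / 2) : ℝ) * (r : ℝ) ^ (3 / 2 : ℝ)) * w ^ 2 * A := by ring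
      _ = w ^ 2 * A := by rw [hrr, one_mul]
  have h4 : w ^ 2 = 1 := by
    have h5 : (w ^ 2 - 1) * A = 0 := by linarith
    rcases mul_eq_zero.mp h5 with h6 | h6
    · linarith
    · exact absurd h6 hL.ne'
  have hw0 : 0 ≤ w := norm_nonneg _
  nlinarith

/-- the functional equation with the gamma quotient evaluated -/
theorem A1_funct {r : ℕ} [NeZero r] (hr : 2 ≤ r) (χ : DirichletCharacter ℂ r)
    (hχ : χ.IsPrimitive) (s : ℂ) (hs : 1 / 2 ≤ s.re) :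
    ‖χ.LFunction (1 - s)‖ ≤ (r : ℝ) ^ (s.re - 1 / 2) * ‖χ⁻¹.LFunction s‖ *
      (‖Gammaℂ s‖ * Real.exp (Real.pi * |s.im| / 2)) := by
  have hne := prim_ne_one hr χ hχ
  have hr0 : (0 : ℝ) < r := by exact_mod_cast (by omega : 0 < r)
  have hsn : ∀ n : ℕ, s ≠ -n := by
    intro n h
    rw [h] at hs
    simp at hs
    have : (0 : ℝ) ≤ n := Nat.cast_nonneg n
    linarith
  have hs0 : 0 < s.re := by linarith
  have him : |((Real.pi : ℂ) * s / 2).im| = Real.pi * |s.im| / 2 := by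
    have : ((Real.pi : ℂ) * s / 2).im = Real.pi * s.im / 2 := by
      rw [show (Real.pi : ℂ) * s / 2 = ((Real.pi / 2 : ℝ) : ℂ) * s by push_cast; ring,
        Complex.im_ofReal_mul]
      ring
    rw [this, abs_div, abs_mul, abs_of_pos Real.pi_pos, abs_of_pos (by norm_num : (0 : ℝ) < 2)]
  have hq : ∃ T : ℂ, ‖T‖ ≤ Real.exp (Real.pi * |s.im| / 2) ∧
      DirichletCharacter.gammaFactor χ s * (DirichletCharacter.gammaFactor χ (1 - s))⁻¹
        = Gammaℂ s * T := by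
    rcases χ.even_or_odd with h | h
    · refine ⟨Complex.cos (Real.pi * s / 2), ?_, ?_⟩
      · rw [← him]
        have : Complex.cos (Real.pi * s / 2) = Complex.sin (Real.pi * s / 2 + Real.pi / 2) := by
          rw [Complex.sin_add_pi_div_two]
        rw [this]
        refine (sin_norm_le _).trans (le_of_eq ?_)
        congr 2
        simp
      · rw [h.gammaFactor_def, h.gammaFactor_def, inv_Gammaℝ_one_sub hsn]
        have := Gammaℝ_ne_zero_of_re_pos hs0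
        field_simp
    · refine ⟨Complex.sin (Real.pi * s / 2), ?_, ?_⟩
      · rw [← him]
        exact sin_norm_le _
      · rw [h.gammaFactor_def, h.gammaFactor_def,
          show (1 - s + 1 : ℂ) = 2 - s by ring, inv_Gammaℝ_two_sub hsn]
        have := Gammaℝ_ne_zero_of_re_pos (s := s + 1) (by simp; linarith)
        field_simp
  obtain ⟨T, hT1, hT2⟩ := hq
  have h1 := hχ.completedLFunction_one_sub s
  rw [EM.U5_comp (EM.U5_inv_ne hne) hs0, EM.U5_gamma_inv] at h1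
  have h2 := χ.LFunction_eq_completed_div_gammaFactor (1 - s) (Or.inr (EM.U5_level_ne hne))
  have h3 : χ.LFunction (1 - s) = (r : ℂ) ^ (s - 1 / 2) * DirichletCharacter.rootNumber χ
      * χ⁻¹.LFunction s * (Gammaℂ s * T) := by
    rw [h2, h1, ← hT2]; ring
  have h4 : ‖(r : ℂ) ^ (s - 1 / 2)‖ = (r : ℝ) ^ (s.re - 1 / 2) := by
    rw [show (r : ℂ) = ((r : ℝ) : ℂ) by norm_num, Complex.norm_cpow_eq_rpow_re_of_pos hr0]
    simp
  rw [h3, norm_mul, norm_mul, norm_mul, norm_mul, h4, A1_root hr χ hχ, mul_one]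
  gcongr

/-- A1b. Growth to the left. PROOF. Put `s' = 1 - s`, `σ' = s'.re ≥ 1/2`, `t = |s.im|`. Functional equation
(`DirichletCharacter.IsPrimitive.completedLFunction_one_sub`, `LFunction_eq_completed_div_gammaFactor`, `gammaFactor`), with
`Complex.inv_Gammaℝ_one_sub` (even) resp. `Complex.inv_Gammaℝ_two_sub` (odd):
`L(1 - s', χ) = r^(s'-1/2) ε L(s', χ⁻¹) Gammaℂ(s') cos(π s'/2)` resp. `sin(π s'/2)`, `|ε| = 1` (`rootNumber`; see SK/SymA.lean), `Gammaℂ s' = 2 (2π)^(-s') Γ(s')`,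
`‖Γ(s')‖ ≤ Γ(σ')` (`Complex.norm_Gamma_le`-like: integral representation, or see Mathlib/the library), `‖cos(π s'/2)‖ ≤ exp(π t/2)`, the same for `sin`, and
`‖L(s', χ⁻¹)‖ ≤ 20(2r+1)‖s'‖` (`EM.L_growth`), `‖s'‖ ≤ σ' + t ≤ (σ'+1) exp t`. With `σ' = 1 - s.re`, `σ' + 2 = 3 - s.re`: everything is at most
`(C r (3/2 - s.re))^(9/2 - s.re) exp(3 |s.im|)` for a large `C` (`3/2 - s.re ≥ 1`, `σ' + 2 ≤ 3 (3/2 - s.re)`, `r^(σ'-1/2) (2r+1) ≤ 3 r^(σ'+1/2) ≤ 3 r^(9/2 - s.re)`,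
`(σ'+2)^(σ'+2)(σ'+1) ≤ (σ'+2)^(σ'+3) ≤ (3(3/2 - s.re))^(9/2-s.re)` as `σ' + 3 = 4 - s.re`). -/
theorem L_left : ∃ C : ℝ, 1 ≤ C ∧ ∀ (r : ℕ) [NeZero r], 2 ≤ r → ∀ χ ∈ prim r, ∀ s : ℂ, s.re ≤ 1 / 2 →
    ‖χ.LFunction s‖ ≤ (C * r * (3 / 2 - s.re)) ^ (9 / 2 - s.re) * Real.exp (3 * |s.im|) := by
  refine ⟨720, by norm_num, fun r _ hr χ hχ' s hs => ?_⟩
  have hχ : χ.IsPrimitive := A1_isPrim hχ'
  have hne := prim_ne_one hr χ hχ
  have hr1 : (2 : ℝ) ≤ r := by exact_mod_cast hr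
  have hr0 : (0 : ℝ) < r := by linarith
  set s' : ℂ := 1 - s with hs'
  have hre : s'.re = 1 - s.re := by rw [hs']; simp
  have himm : |s'.im| = |s.im| := by rw [hs']; simp
  have hge : 1 / 2 ≤ s'.re := by rw [hre]; linarith
  have h1 := A1_funct hr χ hχ s' hge
  have e1 : 1 - s' = s := by rw [hs']; ring
  rw [e1] at h1
  set x := s'.re with hx
  set t := |s.im| with ht
  have ht0 : 0 ≤ t := abs_nonneg _
  rw [himm] at h1
  have hL := EM.L_growth r χ⁻¹ (EM.U5_inv_ne hne) s' (by linarith)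
  have hns : ‖s'‖ ≤ (x + 2) * Real.exp t := by
    have h2 := Complex.norm_le_abs_re_add_abs_im s'
    rw [himm, abs_of_nonneg (by linarith : (0 : ℝ) ≤ s'.re)] at h2
    have h3 : 1 + t ≤ Real.exp t := by linarith [Real.add_one_le_exp t]
    nlinarith
  have hG : ‖Gammaℂ s'‖ ≤ 4 * (x + 2) ^ (x + 2) := by
    rw [Gammaℂ_def, norm_mul, norm_mul, Complex.norm_ofNat]
    have h2 : ‖(2 * (Real.pi : ℂ)) ^ (-s')‖ ≤ 1 := by
      rw [show (2 * (Real.pi : ℂ)) = ((2 * Real.pi : ℝ) : ℂ) by push_cast; ring,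
        Complex.norm_cpow_eq_rpow_re_of_pos (by positivity)]
      apply Real.rpow_le_one_of_one_le_of_nonpos
      · linarith [Real.pi_gt_three]
      · rw [Complex.neg_re]; linarith
    have h3 := Gamma_norm_le s' (by linarith)
    have h4 := Gamma_le x hge
    have h5 : 0 ≤ ‖Gamma s'‖ := norm_nonneg _
    calc 2 * ‖(2 * (Real.pi : ℂ)) ^ (-s')‖ * ‖Gamma s'‖ ≤ 2 * 1 * ‖Gamma s'‖ := by gcongr
      _ ≤ 2 * 1 * (2 * (x + 2) ^ (x + 2)) := by gcongr; exact h3.trans h4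
      _ = 4 * (x + 2) ^ (x + 2) := by ring
  have hE : 9 / 2 - s.re = x + 7 / 2 := by linarith
  have hB : 3 / 2 - s.re = x + 1 / 2 := by linarith
  rw [hE, hB]
  have hexp : Real.exp t * Real.exp (Real.pi * t / 2) ≤ Real.exp (3 * t) := by
    rw [← Real.exp_add]
    apply Real.exp_le_exp.mpr
    nlinarith [Real.pi_lt_d2]
  have hr2 : (2 * (r : ℝ) + 1) ≤ 3 * r := by linarith
  have hx2 : (1 : ℝ) ≤ x + 2 := by linarith
  have p1 : (r : ℝ) ^ (x - 1 / 2) * (3 * r) ≤ 3 * (r : ℝ) ^ (x + 7 / 2) := by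
    have : (r : ℝ) ^ (x - 1 / 2) * r = (r : ℝ) ^ (x + 1 / 2) := by
      rw [← Real.rpow_add_one hr0.ne']; congr 1; ring
    have h2 : (r : ℝ) ^ (x + 1 / 2) ≤ (r : ℝ) ^ (x + 7 / 2) :=
      Real.rpow_le_rpow_of_exponent_le (by linarith) (by linarith)
    nlinarith
  have p2 : (x + 2) * (x + 2) ^ (x + 2) ≤ (x + 2) ^ (x + 7 / 2) := by
    have : (x + 2) * (x + 2) ^ (x + 2) = (x + 2) ^ (x + 2 + 1) := by
      rw [Real.rpow_add_one (by linarith)]; ring
    rw [this]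
    exact Real.rpow_le_rpow_of_exponent_le hx2 (by linarith)
  have p3 : (240 : ℝ) * ((r : ℝ) ^ (x + 7 / 2) * (x + 2) ^ (x + 7 / 2))
      ≤ (720 * r * (x + 1 / 2)) ^ (x + 7 / 2) := by
    rw [← Real.mul_rpow hr0.le (by linarith)]
    have h2 : (240 : ℝ) ≤ 240 ^ (x + 7 / 2) := by
      calc (240 : ℝ) = 240 ^ (1 : ℝ) := by rw [Real.rpow_one]
        _ ≤ 240 ^ (x + 7 / 2) := Real.rpow_le_rpow_of_exponent_le (by norm_num) (by linarith)
    have h3 : 0 ≤ (r * (x + 2)) ^ (x + 7 / 2) := by positivity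
    calc (240 : ℝ) * (r * (x + 2)) ^ (x + 7 / 2)
        ≤ 240 ^ (x + 7 / 2) * (r * (x + 2)) ^ (x + 7 / 2) := by gcongr
      _ = (240 * (r * (x + 2))) ^ (x + 7 / 2) :=
          (Real.mul_rpow (by norm_num) (by positivity)).symm
      _ ≤ (720 * r * (x + 1 / 2)) ^ (x + 7 / 2) := by
          apply Real.rpow_le_rpow (by positivity) _ (by linarith)
          nlinarith
  calc ‖χ.LFunction s‖ ≤ (r : ℝ) ^ (x - 1 / 2) * ‖χ⁻¹.LFunction s'‖ *
      (‖Gammaℂ s'‖ * Real.exp (Real.pi * t / 2)) := h1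
    _ ≤ (r : ℝ) ^ (x - 1 / 2) * (20 * (3 * r) * ((x + 2) * Real.exp t)) *
      ((4 * (x + 2) ^ (x + 2)) * Real.exp (Real.pi * t / 2)) := by
        have : ‖χ⁻¹.LFunction s'‖ ≤ 20 * (3 * r) * ((x + 2) * Real.exp t) := by
          refine hL.trans ?_
          gcongr
        gcongr
    _ = 80 * ((r : ℝ) ^ (x - 1 / 2) * (3 * r)) * ((x + 2) * (x + 2) ^ (x + 2)) *
        (Real.exp t * Real.exp (Real.pi * t / 2)) := by ring
    _ ≤ 80 * (3 * (r : ℝ) ^ (x + 7 / 2)) * (x + 2) ^ (x + 7 / 2) * Real.exp (3 * t) := by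
        gcongr
    _ = 240 * ((r : ℝ) ^ (x + 7 / 2) * (x + 2) ^ (x + 7 / 2)) * Real.exp (3 * t) := by ring
    _ ≤ (720 * r * (x + 1 / 2)) ^ (x + 7 / 2) * Real.exp (3 * t) := by gcongr

/-- A1c. The derivative on `Re s = 1/4`. PROOF. Cauchy (`Complex.norm_deriv_le_of_forall_mem_sphere_norm_le`) on the circle of radius `1/8`: there
`1/8 ≤ Re ≤ 3/8`, `L_left` gives `‖L‖ ≤ (C r (11/8))^(35/8) exp(3|t| + 3/8)`. (`r^(35/8) ≤ r^5`.) -/
theorem L_deriv_left : ∃ C : ℝ, 1 ≤ C ∧ ∀ (r : ℕ) [NeZero r], 2 ≤ r → ∀ χ ∈ prim r, ∀ t : ℝ,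
    ‖deriv χ.LFunction (1 / 4 + (t : ℂ) * I)‖ ≤ C * (r : ℝ) ^ 5 * Real.exp (3 * |t|) := by
  obtain ⟨C, hC1, hC⟩ := L_left
  refine ⟨8 * ((11 / 8 * C) ^ 5 * Real.exp (3 / 8)), ?_, fun r _ hr χ hχ t => ?_⟩
  · have h1 : 1 ≤ (11 / 8 * C) ^ 5 := one_le_pow₀ (by linarith)
    have h2 : 1 ≤ Real.exp (3 / 8) := Real.one_le_exp (by norm_num)
    nlinarith
  have hne := prim_ne_one hr χ (A1_isPrim hχ)
  have hr1 : (2 : ℝ) ≤ r := by exact_mod_cast hr
  have hsph : ∀ z ∈ Metric.sphere (1 / 4 + (t : ℂ) * I) (1 / 8),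
      ‖χ.LFunction z‖ ≤ (11 / 8 * C) ^ 5 * (r : ℝ) ^ 5 * (Real.exp (3 * |t|) * Real.exp (3 / 8)) := by
    intro z hz
    rw [mem_sphere_iff_norm] at hz
    have h1 := Complex.abs_re_le_norm (z - (1 / 4 + (t : ℂ) * I))
    have h2 := Complex.abs_im_le_norm (z - (1 / 4 + (t : ℂ) * I))
    rw [hz] at h1 h2
    have e1 : (z - (1 / 4 + (t : ℂ) * I)).re = z.re - 1 / 4 := by simp
    have e2 : (z - (1 / 4 + (t : ℂ) * I)).im = z.im - t := by simp
    rw [e1, abs_le] at h1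
    rw [e2] at h2
    have h3 := hC r hr χ hχ z (by linarith)
    refine h3.trans ?_
    have hb : C * r * (3 / 2 - z.re) ≤ 11 / 8 * C * r := by
      have : 0 < C * r := by positivity
      nlinarith
    have hb1 : 1 ≤ C * r * (3 / 2 - z.re) := by
      have : 2 ≤ C * r := by nlinarith
      nlinarith
    have h4 : (C * r * (3 / 2 - z.re)) ^ (9 / 2 - z.re) ≤ (11 / 8 * C) ^ 5 * (r : ℝ) ^ 5 := by
      calc (C * r * (3 / 2 - z.re)) ^ (9 / 2 - z.re)
          ≤ (C * r * (3 / 2 - z.re)) ^ ((5 : ℕ) : ℝ) :=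
            Real.rpow_le_rpow_of_exponent_le hb1 (by push_cast; linarith)
        _ = (C * r * (3 / 2 - z.re)) ^ 5 := Real.rpow_natCast _ _
        _ ≤ (11 / 8 * C * r) ^ 5 := pow_le_pow_left₀ (by linarith) hb 5
        _ = _ := by rw [mul_pow]
    have h5 : Real.exp (3 * |z.im|) ≤ Real.exp (3 * |t|) * Real.exp (3 / 8) := by
      rw [← Real.exp_add]
      apply Real.exp_le_exp.mpr
      have h6 : |z.im| ≤ |t| + 1 / 8 := by
        have := abs_add_le (z.im - t) t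
        rw [sub_add_cancel] at this
        linarith
      linarith
    gcongr
  have hd : Differentiable ℂ χ.LFunction := DirichletCharacter.differentiable_LFunction hne
  have h := Complex.norm_deriv_le_of_forall_mem_sphere_norm_le (by norm_num : (0 : ℝ) < 1 / 8)
    hd.diffContOnCl hsph
  refine h.trans (le_of_eq ?_)
  ring

/-- A1d. Qualitative growth in a strip. PROOF. `L_left` for `Re s ≤ 1/2` (`3/2 - s.re ≤ 3/2 - a`, exponent `≤ 9/2 - a`), `EM.L_growth` for `Re s ≥ 1/2`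
(`‖s‖ ≤ |s.re| + |s.im| ≤ (|c| + 1) exp |s.im|`). -/
theorem L_strip (r : ℕ) [NeZero r] (hr : 2 ≤ r) (χ : DirichletCharacter ℂ r) (hχ : χ ∈ prim r) (a c : ℝ) :
    ∃ K : ℝ, 0 ≤ K ∧ ∀ s : ℂ, a ≤ s.re → s.re ≤ c → ‖χ.LFunction s‖ ≤ K * Real.exp (3 * |s.im|) := by
  obtain ⟨C, hC1, hC⟩ := L_left
  have hr1 : (2 : ℝ) ≤ r := by exact_mod_cast hr
  refine ⟨|(C * r * (3 / 2 - a)) ^ (9 / 2 - a)| + 20 * (2 * r + 1) * (|c| + 1), by positivity,
    fun s h1 h2 => ?_⟩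
  have hK2 : 0 ≤ 20 * (2 * (r : ℝ) + 1) * (|c| + 1) := by positivity
  have he := Real.exp_pos (3 * |s.im|)
  rcases le_total s.re (1 / 2) with h | h
  · have hb1 : 1 ≤ C * r * (3 / 2 - s.re) := by
      have : 2 ≤ C * r := by nlinarith
      nlinarith
    have hb : C * r * (3 / 2 - s.re) ≤ C * r * (3 / 2 - a) := by
      have : 0 < C * r := by positivity
      nlinarith
    have h3 : (C * r * (3 / 2 - s.re)) ^ (9 / 2 - s.re) ≤ (C * r * (3 / 2 - a)) ^ (9 / 2 - a) := by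
      calc _ ≤ (C * r * (3 / 2 - s.re)) ^ (9 / 2 - a) :=
            Real.rpow_le_rpow_of_exponent_le hb1 (by linarith)
        _ ≤ _ := Real.rpow_le_rpow (by linarith) hb (by linarith)
    refine (hC r hr χ hχ s h).trans ?_
    apply mul_le_mul_of_nonneg_right _ he.le
    exact h3.trans ((le_abs_self _).trans (by linarith))
  · have hne := prim_ne_one hr χ (A1_isPrim hχ)
    have h3 := EM.L_growth r χ hne s (by linarith)
    have h4 := Complex.norm_le_abs_re_add_abs_im s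
    rw [abs_of_nonneg (by linarith : (0 : ℝ) ≤ s.re)] at h4
    have h5 : s.re ≤ |c| := h2.trans (le_abs_self c)
    have h6 : ‖s‖ ≤ (|c| + 1) * Real.exp (3 * |s.im|) := by
      have h7 : 1 + 3 * |s.im| ≤ Real.exp (3 * |s.im|) := by
        linarith [Real.add_one_le_exp (3 * |s.im|)]
      have h8 : 0 ≤ |s.im| := abs_nonneg _
      have h9 : 0 ≤ |c| := abs_nonneg _
      nlinarith
    calc ‖χ.LFunction s‖ ≤ 20 * (2 * r + 1) * ‖s‖ := h3
      _ ≤ 20 * (2 * r + 1) * ((|c| + 1) * Real.exp (3 * |s.im|)) := by gcongr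
      _ = 20 * (2 * r + 1) * (|c| + 1) * Real.exp (3 * |s.im|) := by ring
      _ ≤ _ := by
        apply mul_le_mul_of_nonneg_right _ he.le
        have := abs_nonneg ((C * r * (3 / 2 - a)) ^ (9 / 2 - a))
        linarith

/-- A1e. PROOF. Cauchy on circles of radius `1` and `L_strip`. -/
theorem L_deriv_strip (r : ℕ) [NeZero r] (hr : 2 ≤ r) (χ : DirichletCharacter ℂ r) (hχ : χ ∈ prim r) (a c : ℝ) :
    ∃ K : ℝ, 0 ≤ K ∧ ∀ s : ℂ, a ≤ s.re → s.re ≤ c → ‖deriv χ.LFunction s‖ ≤ K * Real.exp (3 * |s.im|) := by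
  obtain ⟨K, hK, h⟩ := L_strip r hr χ hχ (a - 1) (c + 1)
  refine ⟨K * Real.exp 3, by positivity, fun s h1 h2 => ?_⟩
  have hne := prim_ne_one hr χ (A1_isPrim hχ)
  have hsph : ∀ z ∈ Metric.sphere s 1, ‖χ.LFunction z‖ ≤ K * Real.exp 3 * Real.exp (3 * |s.im|) := by
    intro z hz
    rw [mem_sphere_iff_norm] at hz
    have h3 := Complex.abs_re_le_norm (z - s)
    have h4 := Complex.abs_im_le_norm (z - s)
    rw [hz, Complex.sub_re, abs_le] at h3
    rw [hz, Complex.sub_im] at h4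
    refine (h z (by linarith) (by linarith)).trans ?_
    rw [mul_assoc, ← Real.exp_add]
    apply mul_le_mul_of_nonneg_left _ hK
    apply Real.exp_le_exp.mpr
    have := abs_add_le (z.im - s.im) s.im
    rw [sub_add_cancel] at this
    linarith
  have hd : Differentiable ℂ χ.LFunction := DirichletCharacter.differentiable_LFunction hne
  have h5 := Complex.norm_deriv_le_of_forall_mem_sphere_norm_le one_pos hd.diffContOnCl hsph
  rwa [div_one] at h5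

end Pool.Agent.SE
end

section

set_option autoImplicit false

/-! Task A5: the transform `hh`. -/

namespace Pool.Agent.SE

open Complex MeasureTheory
open Pool.Agent.SK Pool.Agent.SD
open Pool.Agent.SO (prim NN pt pz MM kw)

/-- A5a. PROOF. `DirichletCharacter.differentiable_LFunction` (`χ ≠ 1` by `prim_spec`), `dslope` of an entire function is entire, `Ek_diff`. -/
theorem hh_diff (r : ℕ) [NeZero r] (hr : 2 ≤ r) (χ : DirichletCharacter ℂ r) (hχ : χ ∈ prim r) (m : ℕ) (U γ : ℝ) :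
    Differentiable ℂ (hh χ m U γ) := by
  obtain ⟨hp, hne⟩ := prim_spec r hr χ hχ
  have h1 : Differentiable ℂ (fun z : ℂ => χ.LFunction (1 / 2 + z)) := by
    have h0 : Differentiable ℂ χ.LFunction := DirichletCharacter.differentiable_LFunction hne
    exact h0.comp ((differentiable_const (1 / 2 : ℂ)).add differentiable_id)
  have h2 : Differentiable ℂ (dslope (fun z : ℂ => χ.LFunction (1 / 2 + z)) ((γ : ℂ) * I)) := by
    rw [← differentiableOn_univ]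
    exact (Complex.differentiableOn_dslope Filter.univ_mem).2 h1.differentiableOn
  have h3 : Differentiable ℂ (fun z : ℂ => Ek (sg r U) (vl r m U) m (z - (γ : ℂ) * I)) :=
    (Ek_diff _ _ _).comp (differentiable_id.sub (differentiable_const ((γ : ℂ) * I)))
  exact h2.mul h3

/-- A5b. PROOF. `dslope_of_ne`, `slope`, `L(1/2+iγ) = 0`. -/
theorem hh_of_ne (r : ℕ) [NeZero r] (χ : DirichletCharacter ℂ r) (m : ℕ) (U γ : ℝ) (h0 : χ.LFunction (1 / 2 + (γ : ℂ) * I) = 0)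
    (z : ℂ) (hz : z ≠ (γ : ℂ) * I) :
    hh χ m U γ z = χ.LFunction (1 / 2 + z) / (z - (γ : ℂ) * I) * Ek (sg r U) (vl r m U) m (z - (γ : ℂ) * I) := by
  unfold hh
  rw [dslope_of_ne _ hz, slope_def_field, h0, sub_zero]

theorem A5_num (s t g : ℝ) (hs : 0 < s) :
    3 * |t| + -(s ^ 2 / 2 * (t - g) ^ 2) ≤ s ^ 2 / 2 * g ^ 2 + 18 / s ^ 2 + -(s ^ 2 / 8 * t ^ 2) := by
  have h1 : t ^ 2 / 2 - g ^ 2 ≤ (t - g) ^ 2 := by nlinarith [sq_nonneg (t - 2 * g)]
  have h2 : s ^ 2 / 2 * (t ^ 2 / 2 - g ^ 2) ≤ s ^ 2 / 2 * (t - g) ^ 2 :=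
    mul_le_mul_of_nonneg_left h1 (by positivity)
  have h3 : 3 * |t| ≤ s ^ 2 / 8 * t ^ 2 + 18 / s ^ 2 := by
    have h4 : s ^ 2 / 8 * t ^ 2 + 18 / s ^ 2 - 3 * |t| = (s ^ 2 * |t| - 12) ^ 2 / (8 * s ^ 2) := by
      rw [← sq_abs t]
      field_simp
      ring
    have h5 : 0 ≤ (s ^ 2 * |t| - 12) ^ 2 / (8 * s ^ 2) := by positivity
    linarith
  nlinarith

theorem A5_far (r : ℕ) [NeZero r] (hr : 2 ≤ r) (χ : DirichletCharacter ℂ r) (hχ : χ ∈ prim r) (m : ℕ) (U γ : ℝ)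
    (hσ : 0 < sg r U) (hv : 0 ≤ vl r m U) (h0 : χ.LFunction (1 / 2 + (γ : ℂ) * I) = 0) (a c : ℝ) :
    ∃ K : ℝ, 0 ≤ K ∧ ∀ z : ℂ, a ≤ z.re → z.re ≤ c → 1 ≤ ‖z - (γ : ℂ) * I‖ →
      ‖hh χ m U γ z‖ ≤ K * Real.exp (-(sg r U ^ 2 / 8 * z.im ^ 2)) := by
  obtain ⟨K0, hK0, hK⟩ := L_strip r hr χ hχ (1 / 2 + a) (1 / 2 + c)
  refine ⟨K0 * Real.exp (sg r U ^ 2 / 2 * (max |a| |c|) ^ 2 + m * vl r m U * (max |a| |c|) +
    (sg r U ^ 2 / 2 * γ ^ 2 + 18 / sg r U ^ 2)), by positivity, ?_⟩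
  intro z hz1 hz2 hz3
  have hne : z ≠ (γ : ℂ) * I := by
    rintro rfl
    rw [sub_self, norm_zero] at hz3
    linarith
  rw [hh_of_ne r χ m U γ h0 z hne, norm_mul, norm_div]
  have hre : (1 / 2 + z).re = 1 / 2 + z.re := by
    rw [Complex.add_re]
    norm_num
  have him : (1 / 2 + z).im = z.im := by
    rw [Complex.add_im]
    norm_num
  have h1 : ‖χ.LFunction (1 / 2 + z)‖ ≤ K0 * Real.exp (3 * |z.im|) := by
    have h2 := hK (1 / 2 + z) (by rw [hre]; linarith) (by rw [hre]; linarith)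
    rwa [him] at h2
  have h3 : ‖χ.LFunction (1 / 2 + z)‖ / ‖z - (γ : ℂ) * I‖ ≤ K0 * Real.exp (3 * |z.im|) :=
    (div_le_self (norm_nonneg _) hz3).trans h1
  have hre2 : (z - (γ : ℂ) * I).re = z.re := by
    simp
  have him2 : (z - (γ : ℂ) * I).im = z.im - γ := by
    simp
  have h4 := Ek_le (sg r U) (vl r m U) hv m (z - (γ : ℂ) * I)
  rw [hre2, him2] at h4
  have hX : |z.re| ≤ max |a| |c| := abs_le_max_abs_abs hz1 hz2
  have hX0 : 0 ≤ max |a| |c| := (abs_nonneg a).trans (le_max_left _ _)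
  have h5 : sg r U ^ 2 / 2 * (z.re ^ 2 - (z.im - γ) ^ 2) + m * vl r m U * |z.re| ≤
      sg r U ^ 2 / 2 * (max |a| |c|) ^ 2 + m * vl r m U * (max |a| |c|) +
        -(sg r U ^ 2 / 2 * (z.im - γ) ^ 2) := by
    have h6 : z.re ^ 2 ≤ (max |a| |c|) ^ 2 := by
      rw [← sq_abs z.re]
      exact pow_le_pow_left₀ (abs_nonneg _) hX 2
    have h7 : sg r U ^ 2 / 2 * z.re ^ 2 ≤ sg r U ^ 2 / 2 * (max |a| |c|) ^ 2 :=
      mul_le_mul_of_nonneg_left h6 (by positivity)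
    have h8 : m * vl r m U * |z.re| ≤ m * vl r m U * (max |a| |c|) :=
      mul_le_mul_of_nonneg_left hX (mul_nonneg (Nat.cast_nonneg m) hv)
    linarith
  have h9 := A5_num (sg r U) z.im γ hσ
  calc ‖χ.LFunction (1 / 2 + z)‖ / ‖z - (γ : ℂ) * I‖ * ‖Ek (sg r U) (vl r m U) m (z - (γ : ℂ) * I)‖
      ≤ K0 * Real.exp (3 * |z.im|) * Real.exp (sg r U ^ 2 / 2 * (z.re ^ 2 - (z.im - γ) ^ 2) +
          m * vl r m U * |z.re|) := mul_le_mul h3 h4 (norm_nonneg _) (by positivity)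
    _ = K0 * Real.exp (3 * |z.im| + (sg r U ^ 2 / 2 * (z.re ^ 2 - (z.im - γ) ^ 2) +
          m * vl r m U * |z.re|)) := by rw [Real.exp_add (3 * |z.im|), mul_assoc]
    _ ≤ K0 * Real.exp (sg r U ^ 2 / 2 * (max |a| |c|) ^ 2 + m * vl r m U * (max |a| |c|) +
          (sg r U ^ 2 / 2 * γ ^ 2 + 18 / sg r U ^ 2) + -(sg r U ^ 2 / 8 * z.im ^ 2)) := by
        refine mul_le_mul_of_nonneg_left (Real.exp_le_exp.2 ?_) hK0
        linarith
    _ = _ := by rw [Real.exp_add _ (-(sg r U ^ 2 / 8 * z.im ^ 2)), ← mul_assoc K0]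

theorem A5_near (r : ℕ) [NeZero r] (hr : 2 ≤ r) (χ : DirichletCharacter ℂ r) (hχ : χ ∈ prim r) (m : ℕ) (U γ η : ℝ)
    (hη : 0 < η) :
    ∃ K : ℝ, 0 ≤ K ∧ ∀ z : ℂ, ‖z - (γ : ℂ) * I‖ ≤ 1 → ‖hh χ m U γ z‖ ≤ K * Real.exp (-(η * z.im ^ 2)) := by
  have hcont : ContinuousOn (hh χ m U γ) (Metric.closedBall ((γ : ℂ) * I) 1) :=
    (hh_diff r hr χ hχ m U γ).continuous.continuousOn
  obtain ⟨K2, hK2⟩ := (isCompact_closedBall ((γ : ℂ) * I) 1).exists_bound_of_continuousOn hcont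
  refine ⟨|K2| * Real.exp (η * (|γ| + 1) ^ 2), by positivity, ?_⟩
  intro z hz
  have h1 : ‖hh χ m U γ z‖ ≤ |K2| := by
    refine (hK2 z ?_).trans (le_abs_self _)
    rw [Metric.mem_closedBall, dist_eq_norm]
    exact hz
  have him2 : (z - (γ : ℂ) * I).im = z.im - γ := by
    simp
  have h2 : |z.im - γ| ≤ 1 := by
    rw [← him2]
    exact (Complex.abs_im_le_norm _).trans hz
  have h3 : |z.im| ≤ |γ| + 1 := by
    have h4 : |z.im| ≤ |z.im - γ| + |γ| := by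
      have h5 := abs_add_le (z.im - γ) γ
      rwa [sub_add_cancel] at h5
    linarith
  have h4 : z.im ^ 2 ≤ (|γ| + 1) ^ 2 := by
    rw [← sq_abs z.im]
    exact pow_le_pow_left₀ (abs_nonneg _) h3 2
  have h5 : (1 : ℝ) ≤ Real.exp (η * (|γ| + 1) ^ 2) * Real.exp (-(η * z.im ^ 2)) := by
    rw [← Real.exp_add]
    refine Real.one_le_exp ?_
    have := mul_le_mul_of_nonneg_left h4 hη.le
    linarith
  calc ‖hh χ m U γ z‖ ≤ |K2| * 1 := by rw [mul_one]; exact h1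
    _ ≤ |K2| * (Real.exp (η * (|γ| + 1) ^ 2) * Real.exp (-(η * z.im ^ 2))) :=
        mul_le_mul_of_nonneg_left h5 (abs_nonneg _)
    _ = _ := by ring

/-- A5c. Gaussian decay in strips (qualitative). PROOF. For `‖z - iγ‖ ≥ 1`: `hh_of_ne`, `L_strip`, `Ek_le` with `σ > 0`:
`exp(3|t|) exp(σ²(x² - (t-γ)²)/2) ≤ K exp(-(σ²/8) t²)`. For `‖z - iγ‖ ≤ 1`: continuous on a compact set, so bounded; adjust the constant. -/
theorem hh_strip (r : ℕ) [NeZero r] (hr : 2 ≤ r) (χ : DirichletCharacter ℂ r) (hχ : χ ∈ prim r) (m : ℕ) (U γ : ℝ)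
    (hσ : 0 < sg r U) (hv : 0 ≤ vl r m U) (h0 : χ.LFunction (1 / 2 + (γ : ℂ) * I) = 0) (a c : ℝ) :
    ∃ K η : ℝ, 0 ≤ K ∧ 0 < η ∧ ∀ z : ℂ, a ≤ z.re → z.re ≤ c → ‖hh χ m U γ z‖ ≤ K * Real.exp (-(η * z.im ^ 2)) := by
  have hη : 0 < sg r U ^ 2 / 8 := by positivity
  obtain ⟨K1, hK1, h1⟩ := A5_far r hr χ hχ m U γ hσ hv h0 a c
  obtain ⟨K2, hK2, h2⟩ := A5_near r hr χ hχ m U γ (sg r U ^ 2 / 8) hη
  refine ⟨K1 + K2, sg r U ^ 2 / 8, add_nonneg hK1 hK2, hη, ?_⟩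
  intro z hz1 hz2
  have hE : 0 ≤ Real.exp (-(sg r U ^ 2 / 8 * z.im ^ 2)) := (Real.exp_pos _).le
  rcases le_total 1 ‖z - (γ : ℂ) * I‖ with h | h
  · have h3 := h1 z hz1 hz2 h
    have h4 := mul_nonneg hK2 hE
    rw [add_mul]
    linarith
  · have h3 := h2 z h
    have h4 := mul_nonneg hK1 hE
    rw [add_mul]
    linarith

theorem A5_exp (z : ℂ) (v R : ℝ) (hz : |z.re| ≤ R) : ‖Complex.exp (z * v)‖ ≤ Real.exp (|v| * R) := by
  rw [Complex.norm_exp]
  refine Real.exp_le_exp.2 ?_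
  have h1 : (z * (v : ℂ)).re = z.re * v := by
    simp
  rw [h1]
  have h2 : z.re * v ≤ |z.re| * |v| := by
    rw [← abs_mul]
    exact le_abs_self _
  have h3 : |z.re| * |v| ≤ R * |v| := mul_le_mul_of_nonneg_right hz (abs_nonneg _)
  linarith

theorem A5_shift (r : ℕ) [NeZero r] (hr : 2 ≤ r) (χ : DirichletCharacter ℂ r) (hχ : χ ∈ prim r) (m : ℕ) (U γ : ℝ)
    (hσ : 0 < sg r U) (hv : 0 ≤ vl r m U) (h0 : χ.LFunction (1 / 2 + (γ : ℂ) * I) = 0) (a c v : ℝ) (hac : a ≤ c) :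
    ∫ t : ℝ, hh χ m U γ ((a : ℂ) + (t : ℂ) * I) * Complex.exp (((a : ℂ) + (t : ℂ) * I) * v) =
      ∫ t : ℝ, hh χ m U γ ((c : ℂ) + (t : ℂ) * I) * Complex.exp (((c : ℂ) + (t : ℂ) * I) * v) := by
  obtain ⟨K, η, hK, hη, hb⟩ := hh_strip r hr χ hχ m U γ hσ hv h0 a c
  have hd : Differentiable ℂ (fun z : ℂ => hh χ m U γ z * Complex.exp (z * v)) :=
    (hh_diff r hr χ hχ m U γ).mul ((differentiable_id.mul (differentiable_const (v : ℂ))).cexp)
  have hbb : ∀ s : ℂ, a ≤ s.re → s.re ≤ c → ‖hh χ m U γ s * Complex.exp (s * v)‖ ≤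
      K * Real.exp (|v| * max |a| |c|) * Real.exp (-(η * s.im ^ 2)) := by
    intro s hs1 hs2
    rw [norm_mul]
    have h1 := hb s hs1 hs2
    have h2 := A5_exp s v (max |a| |c|) (abs_le_max_abs_abs hs1 hs2)
    calc ‖hh χ m U γ s‖ * ‖Complex.exp (s * v)‖
        ≤ K * Real.exp (-(η * s.im ^ 2)) * Real.exp (|v| * max |a| |c|) :=
          mul_le_mul h1 h2 (norm_nonneg _) (mul_nonneg hK (Real.exp_pos _).le)
      _ = _ := by ring
  exact (shift_gauss (fun z : ℂ => hh χ m U γ z * Complex.exp (z * v)) a c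
    (K * Real.exp (|v| * max |a| |c|)) η hac hη (fun s _ _ => hd s) hbb).2.2

/-- A5d. The test function as an integral over any vertical line. PROOF. `shift_gauss` for `F z = hh z * exp(v z)` between `0` and `c`
(`hh_strip`; `‖exp(v z)‖ ≤ exp(|v| |c|)`). -/
theorem hk_line (r : ℕ) [NeZero r] (hr : 2 ≤ r) (χ : DirichletCharacter ℂ r) (hχ : χ ∈ prim r) (m : ℕ) (U γ : ℝ)
    (hσ : 0 < sg r U) (hv : 0 ≤ vl r m U) (h0 : χ.LFunction (1 / 2 + (γ : ℂ) * I) = 0) (c v : ℝ) :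
    hk χ m U γ v = (1 / (2 * Real.pi) : ℂ) *
      ∫ t : ℝ, hh χ m U γ ((c : ℂ) + (t : ℂ) * I) * Complex.exp (((c : ℂ) + (t : ℂ) * I) * v) := by
  have h1 : hk χ m U γ v = (1 / (2 * Real.pi) : ℂ) *
      ∫ t : ℝ, hh χ m U γ (((0 : ℝ) : ℂ) + (t : ℂ) * I) * Complex.exp ((((0 : ℝ) : ℂ) + (t : ℂ) * I) * v) := by
    unfold hk
    congr 1
    refine integral_congr_ae (Filter.Eventually.of_forall fun t => ?_)
    have h2 : ((0 : ℝ) : ℂ) + (t : ℂ) * I = (t : ℂ) * I := by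
      rw [Complex.ofReal_zero, zero_add]
    have h3 : (t : ℂ) * I * (v : ℂ) = (t : ℂ) * v * I := by ring
    show hh χ m U γ ((t : ℂ) * I) * Complex.exp ((t : ℂ) * v * I) =
      hh χ m U γ (((0 : ℝ) : ℂ) + (t : ℂ) * I) * Complex.exp ((((0 : ℝ) : ℂ) + (t : ℂ) * I) * v)
    rw [h2, h3]
  rw [h1]
  congr 1
  rcases le_total 0 c with h | h
  · exact A5_shift r hr χ hχ m U γ hσ hv h0 0 c v h
  · exact (A5_shift r hr χ hχ m U γ hσ hv h0 c 0 v h).symm

end Pool.Agent.SE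
end

section

set_option autoImplicit false

/-! Task A10: continuity and Plancherel for the test functions. -/

namespace Pool.Agent.SE

open Complex MeasureTheory
open Pool.Agent.SK Pool.Agent.SD
open Pool.Agent.SO (prim NN pt pz MM kw)

theorem A10_bd (r : ℕ) [NeZero r] (hr : 2 ≤ r) (χ : DirichletCharacter ℂ r) (hχ : χ ∈ prim r) (m : ℕ) (U γ : ℝ)
    (hσ : 0 < sg r U) (hv : 0 ≤ vl r m U) (h0 : χ.LFunction (1 / 2 + (γ : ℂ) * I) = 0) :
    ∃ K η : ℝ, 0 ≤ K ∧ 0 < η ∧ ∀ t : ℝ, ‖hh χ m U γ ((t : ℂ) * I)‖ ≤ K * Real.exp (-η * t ^ 2) := by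
  obtain ⟨K, η, hK, hη, h⟩ := hh_strip r hr χ hχ m U γ hσ hv h0 0 0
  refine ⟨K, η, hK, hη, fun t => ?_⟩
  have h1 := h ((t : ℂ) * I) (by simp) (by simp)
  have h2 : ((t : ℂ) * I).im = t := by simp
  rw [h2] at h1
  rw [neg_mul]
  exact h1

theorem A10_cont (r : ℕ) [NeZero r] (hr : 2 ≤ r) (χ : DirichletCharacter ℂ r) (hχ : χ ∈ prim r) (m : ℕ) (U γ : ℝ) :
    Continuous (fun t : ℝ => hh χ m U γ ((t : ℂ) * I)) := by
  have h1 := (hh_diff r hr χ hχ m U γ).continuous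
  exact h1.comp (by fun_prop)

theorem A10_int (r : ℕ) [NeZero r] (hr : 2 ≤ r) (χ : DirichletCharacter ℂ r) (hχ : χ ∈ prim r) (m : ℕ) (U γ : ℝ)
    (hσ : 0 < sg r U) (hv : 0 ≤ vl r m U) (h0 : χ.LFunction (1 / 2 + (γ : ℂ) * I) = 0) :
    Integrable (fun t : ℝ => hh χ m U γ ((t : ℂ) * I)) := by
  obtain ⟨K, η, hK, hη, h⟩ := A10_bd r hr χ hχ m U γ hσ hv h0
  exact ((integrable_exp_neg_mul_sq hη).const_mul K).mono'
    (A10_cont r hr χ hχ m U γ).aestronglyMeasurable (Filter.Eventually.of_forall h)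

theorem A10_norm_exp (t v : ℝ) : ‖Complex.exp ((t : ℂ) * v * I)‖ = 1 := by
  have h : (t : ℂ) * v * I = ((t * v : ℝ) : ℂ) * I := by push_cast; ring
  rw [h, Complex.norm_exp_ofReal_mul_I]

/-- A10a. PROOF. Continuity of a parametric integral with dominated integrand (`hh_strip` with `a = c = 0`), bounded by `∫ ‖hh(it)‖`. -/
theorem hk_cont (r : ℕ) [NeZero r] (hr : 2 ≤ r) (χ : DirichletCharacter ℂ r) (hχ : χ ∈ prim r) (m : ℕ) (U γ : ℝ)
    (hσ : 0 < sg r U) (hv : 0 ≤ vl r m U) (h0 : χ.LFunction (1 / 2 + (γ : ℂ) * I) = 0) : Continuous (hk χ m U γ) := by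
  have hc := A10_cont r hr χ hχ m U γ
  have h1 : Continuous (fun v : ℝ => ∫ t : ℝ, hh χ m U γ ((t : ℂ) * I) * Complex.exp ((t : ℂ) * v * I)) := by
    refine MeasureTheory.continuous_of_dominated (bound := fun t => ‖hh χ m U γ ((t : ℂ) * I)‖) ?_ ?_ ?_ ?_
    · intro v
      exact (hc.mul (by fun_prop)).aestronglyMeasurable
    · intro v
      refine Filter.Eventually.of_forall fun t => ?_
      rw [norm_mul, A10_norm_exp, mul_one]
    · exact (A10_int r hr χ hχ m U γ hσ hv h0).norm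
    · refine Filter.Eventually.of_forall fun t => ?_
      fun_prop
  have h2 : hk χ m U γ = fun v : ℝ => (1 / (2 * Real.pi) : ℂ) *
      ∫ t : ℝ, hh χ m U γ ((t : ℂ) * I) * Complex.exp ((t : ℂ) * v * I) := by
    funext v; rfl
  rw [h2]
  exact continuous_const.mul h1

/-- A10b. Bessel/Plancherel. PROOF. `K t = ∑ c_j hh_j(it)` is continuous with Gaussian decay (`hh_strip`), so integrable and square integrable;
`∑ c_j hk_j v = (1/2π) ∫ K t exp(itv) dt`; `SK.E.plancherel` at `-v`: `∫_ℝ ‖∑ c_j hk_j‖² = (1/4π²)(2π) ∫ ‖K‖²`; restrict to `[-V, V]`, `1/(2π) ≤ 1`. -/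
theorem plancherel_hk (r : ℕ) [NeZero r] (hr : 2 ≤ r) (χ : DirichletCharacter ℂ r) (hχ : χ ∈ prim r) (m : ℕ) (U V : ℝ)
    (hV : 0 ≤ V) (hσ : 0 < sg r U) (hv : 0 ≤ vl r m U) (J : Finset ℕ) (γ : ℕ → ℝ)
    (h0 : ∀ j ∈ J, χ.LFunction (1 / 2 + (γ j : ℂ) * I) = 0) (c : ℕ → ℂ) :
    Integrable (fun t : ℝ => ‖∑ j ∈ J, c j * hh χ m U (γ j) ((t : ℂ) * I)‖ ^ 2) ∧
    ∫ v in (-V)..V, ‖∑ j ∈ J, c j * hk χ m U (γ j) v‖ ^ 2 ≤ ∫ t : ℝ, ‖∑ j ∈ J, c j * hh χ m U (γ j) ((t : ℂ) * I)‖ ^ 2 := by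
  set g : ℝ → ℂ := fun t => ∑ j ∈ J, c j * hh χ m U (γ j) ((t : ℂ) * I) with hg
  have hgc : Continuous g := by
    rw [hg]
    exact continuous_finsetSum _ fun j _ => continuous_const.mul (A10_cont r hr χ hχ m U (γ j))
  have hgi : Integrable g := by
    rw [hg]
    exact integrable_finsetSum _ fun j hj => (A10_int r hr χ hχ m U (γ j) hσ hv (h0 j hj)).const_mul (c j)
  -- a bound
  have hB : ∃ B : ℝ, 0 ≤ B ∧ ∀ t, ‖g t‖ ≤ B := by
    have h1 : ∀ j : ℕ, ∃ K : ℝ, 0 ≤ K ∧ (j ∈ J → ∀ t : ℝ, ‖hh χ m U (γ j) ((t : ℂ) * I)‖ ≤ K) := by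
      intro j
      by_cases hj : j ∈ J
      · obtain ⟨K, η, hK, hη, h⟩ := A10_bd r hr χ hχ m U (γ j) hσ hv (h0 j hj)
        refine ⟨K, hK, fun _ t => (h t).trans ?_⟩
        have h2 : Real.exp (-η * t ^ 2) ≤ 1 := by
          rw [Real.exp_le_one_iff]
          have : 0 ≤ η * t ^ 2 := by positivity
          linarith
        calc K * Real.exp (-η * t ^ 2) ≤ K * 1 := mul_le_mul_of_nonneg_left h2 hK
          _ = K := mul_one K
      · exact ⟨0, le_refl 0, fun h => absurd h hj⟩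
    choose K hK0 hK using h1
    refine ⟨∑ j ∈ J, ‖c j‖ * K j, Finset.sum_nonneg fun j _ => mul_nonneg (norm_nonneg _) (hK0 j), fun t => ?_⟩
    rw [hg]
    refine (norm_sum_le _ _).trans (Finset.sum_le_sum fun j hj => ?_)
    rw [norm_mul]
    exact mul_le_mul_of_nonneg_left (hK j hj t) (norm_nonneg _)
  obtain ⟨B, hB0, hB⟩ := hB
  have hg2 : Integrable (fun t => ‖g t‖ ^ 2) := by
    refine (hgi.norm.const_mul B).mono' (hgc.norm.pow 2).aestronglyMeasurable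
      (Filter.Eventually.of_forall fun t => ?_)
    rw [Real.norm_eq_abs, abs_of_nonneg (by positivity), sq]
    exact mul_le_mul_of_nonneg_right (hB t) (norm_nonneg _)
  refine ⟨hg2, ?_⟩
  obtain ⟨hP1, hP2⟩ := Pool.Agent.SK.E.plancherel g hgi hg2
  set G : ℝ → ℂ := fun t => ∫ u : ℝ, g u * Complex.exp (-((t : ℂ) * u * I)) with hG
  have hsum : ∀ v : ℝ, ∑ j ∈ J, c j * hk χ m U (γ j) v = (1 / (2 * Real.pi) : ℂ) * G (-v) := by
    intro v
    have h1 : G (-v) = ∑ j ∈ J, c j * ∫ t : ℝ, hh χ m U (γ j) ((t : ℂ) * I) * Complex.exp ((t : ℂ) * v * I) := by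
      rw [hG]
      have h2 : ∀ u : ℝ, g u * Complex.exp (-(((-v : ℝ) : ℂ) * u * I))
          = ∑ j ∈ J, c j * (hh χ m U (γ j) ((u : ℂ) * I) * Complex.exp ((u : ℂ) * v * I)) := by
        intro u
        rw [hg]
        simp only
        rw [Finset.sum_mul]
        refine Finset.sum_congr rfl fun j _ => ?_
        have h3 : -(((-v : ℝ) : ℂ) * u * I) = (u : ℂ) * v * I := by push_cast; ring
        rw [h3, mul_assoc]
      simp only [h2]
      rw [integral_finsetSum]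
      · refine Finset.sum_congr rfl fun j _ => ?_
        exact integral_const_mul _ _
      · intro j hj
        refine Integrable.const_mul ?_ _
        refine (A10_int r hr χ hχ m U (γ j) hσ hv (h0 j hj)).norm.mono'
          ((A10_cont r hr χ hχ m U (γ j)).mul (by fun_prop)).aestronglyMeasurable
          (Filter.Eventually.of_forall fun t => ?_)
        rw [norm_mul, A10_norm_exp, mul_one]
    rw [h1, Finset.mul_sum]
    refine Finset.sum_congr rfl fun j _ => ?_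
    unfold hk
    ring
  have hnorm : ∀ v : ℝ, ‖∑ j ∈ J, c j * hk χ m U (γ j) v‖ ^ 2 = (1 / (2 * Real.pi)) ^ 2 * ‖G (-v)‖ ^ 2 := by
    intro v
    rw [hsum v, norm_mul, mul_pow]
    congr 2
    rw [norm_div, norm_one, norm_mul, Complex.norm_ofNat, Complex.norm_real, Real.norm_eq_abs,
      abs_of_pos Real.pi_pos]
  simp only [hnorm]
  have hGn : Integrable (fun v : ℝ => (1 / (2 * Real.pi)) ^ 2 * ‖G (-v)‖ ^ 2) :=
    (hP1.comp_neg).const_mul _
  rw [intervalIntegral.integral_of_le (by linarith)]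
  refine (setIntegral_le_integral hGn (Filter.Eventually.of_forall fun v => by positivity)).trans ?_
  rw [integral_const_mul, MeasureTheory.integral_neg_eq_self (fun v : ℝ => ‖G v‖ ^ 2), hP2]
  have hI : 0 ≤ ∫ u : ℝ, ‖g u‖ ^ 2 := integral_nonneg fun u => by positivity
  have hpi : (1 : ℝ) ≤ 2 * Real.pi := by
    have := Real.pi_gt_three
    linarith
  have h3 : (1 / (2 * Real.pi)) ^ 2 * (2 * Real.pi * ∫ u : ℝ, ‖g u‖ ^ 2) = (1 / (2 * Real.pi)) * ∫ u : ℝ, ‖g u‖ ^ 2 := by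
    have : (2 * Real.pi : ℝ) ≠ 0 := by positivity
    field_simp
  rw [h3]
  have h4 : 1 / (2 * Real.pi) ≤ (1 : ℝ) := by
    rw [div_le_one (by positivity)]
    exact hpi
  calc (1 / (2 * Real.pi)) * ∫ u : ℝ, ‖g u‖ ^ 2 ≤ 1 * ∫ u : ℝ, ‖g u‖ ^ 2 := mul_le_mul_of_nonneg_right h4 hI
    _ = ∫ u : ℝ, ‖g u‖ ^ 2 := one_mul _

end Pool.Agent.SE
end

section

set_option autoImplicit false

/-! Task A7: the pairing as a vertical integral (Fubini). -/

namespace Pool.Agent.SE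

open Complex MeasureTheory
open Pool.Agent.SK Pool.Agent.SD
open Pool.Agent.SO (prim NN pt pz MM kw)

theorem A7_cont (r : ℕ) [NeZero r] (hr : 2 ≤ r) (χ : DirichletCharacter ℂ r) (hχ : χ ∈ prim r) (m : ℕ) (U γ : ℝ) :
    Continuous (fun t : ℝ => hh χ m U γ (1 + (t : ℂ) * I)) :=
  (hh_diff r hr χ hχ m U γ).continuous.comp (by fun_prop)

theorem A7_hh_int (r : ℕ) [NeZero r] (hr : 2 ≤ r) (χ : DirichletCharacter ℂ r) (hχ : χ ∈ prim r) (m : ℕ) (U γ : ℝ)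
    (hσ : 0 < sg r U) (hv : 0 ≤ vl r m U) (h0 : χ.LFunction (1 / 2 + (γ : ℂ) * I) = 0) :
    Integrable (fun t : ℝ => hh χ m U γ (1 + (t : ℂ) * I)) := by
  obtain ⟨K, η, hK, hη, hb⟩ := hh_strip r hr χ hχ m U γ hσ hv h0 1 1
  refine Integrable.mono' ((integrable_exp_neg_mul_sq hη).const_mul K)
    (A7_cont r hr χ hχ m U γ).aestronglyMeasurable (Filter.Eventually.of_forall fun t => ?_)
  have h := hb (1 + (t : ℂ) * I) (by simp) (by simp)
  have e : (1 + (t : ℂ) * I).im = t := by simp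
  rw [e] at h
  simpa [neg_mul] using h

theorem A7_hk (r : ℕ) [NeZero r] (hr : 2 ≤ r) (χ : DirichletCharacter ℂ r) (hχ : χ ∈ prim r) (m : ℕ) (U γ : ℝ)
    (hσ : 0 < sg r U) (hv : 0 ≤ vl r m U) (h0 : χ.LFunction (1 / 2 + (γ : ℂ) * I) = 0) (v : ℝ) :
    hk χ m U γ v = (1 / (2 * Real.pi) : ℂ) *
      ∫ t : ℝ, hh χ m U γ (1 + (t : ℂ) * I) * Complex.exp ((1 + (t : ℂ) * I) * v) := by
  have h := hk_line r hr χ hχ m U γ hσ hv h0 1 v
  simpa using h

theorem A7_norm_exp (x t v : ℝ) : ‖Complex.exp (((x : ℂ) + (t : ℂ) * I) * v)‖ = Real.exp (x * v) := by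
  rw [Complex.norm_exp]
  congr 1
  simp

theorem A7_pi : ‖(1 / (2 * Real.pi) : ℂ)‖ = 1 / (2 * Real.pi) := by
  have hpi := Real.pi_pos
  have e : (1 / (2 * Real.pi) : ℂ) = ((1 / (2 * Real.pi) : ℝ) : ℂ) := by push_cast; ring
  rw [e, Complex.norm_real, Real.norm_of_nonneg (by positivity)]

theorem A7_hk_le (r : ℕ) [NeZero r] (hr : 2 ≤ r) (χ : DirichletCharacter ℂ r) (hχ : χ ∈ prim r) (m : ℕ) (U γ : ℝ)
    (hσ : 0 < sg r U) (hv : 0 ≤ vl r m U) (h0 : χ.LFunction (1 / 2 + (γ : ℂ) * I) = 0) :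
    ∃ C : ℝ, 0 ≤ C ∧ ∀ v : ℝ, ‖hk χ m U γ v‖ ≤ C * Real.exp v := by
  have hpi := Real.pi_pos
  refine ⟨1 / (2 * Real.pi) * ∫ t : ℝ, ‖hh χ m U γ (1 + (t : ℂ) * I)‖,
    mul_nonneg (by positivity) (integral_nonneg fun _ => norm_nonneg _), fun v => ?_⟩
  rw [A7_hk r hr χ hχ m U γ hσ hv h0 v, norm_mul, A7_pi, mul_assoc]
  refine mul_le_mul_of_nonneg_left ?_ (by positivity)
  refine (norm_integral_le_integral_norm _).trans (le_of_eq ?_)
  rw [← integral_mul_const]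
  refine integral_congr_ae (Filter.Eventually.of_forall fun t => ?_)
  have e := A7_norm_exp 1 t v
  simp only [Complex.ofReal_one, one_mul] at e
  show ‖hh χ m U γ (1 + (t : ℂ) * I) * Complex.exp ((1 + (t : ℂ) * I) * v)‖ = _
  rw [norm_mul, e]

/-- A7a. One prime power. PROOF. `∫_{v ≤ a} exp(v/2) hk v dv` with `hk_line` (`c = 1`) and Fubini
(`‖hh(1+it)‖` integrable by `hh_strip`/`shift_gauss`, `exp(3v/2)` integrable on `(-∞, a]`):
`∫_{v ≤ a} exp(v/2) exp((1+it)v) dv = exp((3/2+it)a)/(3/2+it)`. -/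
theorem pair_one (r : ℕ) [NeZero r] (hr : 2 ≤ r) (χ : DirichletCharacter ℂ r) (hχ : χ ∈ prim r) (m : ℕ) (U γ : ℝ)
    (hσ : 0 < sg r U) (hv : 0 ≤ vl r m U) (h0 : χ.LFunction (1 / 2 + (γ : ℂ) * I) = 0) (a : ℝ) :
    IntegrableOn (fun v : ℝ => Complex.exp ((v : ℂ) / 2) * hk χ m U γ v) (Set.Iic a) ∧
    ∫ v in Set.Iic a, Complex.exp ((v : ℂ) / 2) * hk χ m U γ v =
      (1 / (2 * Real.pi) : ℂ) * ∫ t : ℝ, hh χ m U γ (1 + (t : ℂ) * I) * Complex.exp ((3 / 2 + (t : ℂ) * I) * a) /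
        (3 / 2 + (t : ℂ) * I) := by
  have hHint := A7_hh_int r hr χ hχ m U γ hσ hv h0
  have hHc := A7_cont r hr χ hχ m U γ
  have hE : Integrable (fun v : ℝ => Real.exp (3 / 2 * v)) (volume.restrict (Set.Iic a)) :=
    integrableOn_exp_mul_Iic (by norm_num) a
  have hnorm : ∀ v t : ℝ, ‖Complex.exp ((3 / 2 + (t : ℂ) * I) * v)‖ = Real.exp (3 / 2 * v) := by
    intro v t
    have e := A7_norm_exp (3 / 2) t v
    push_cast at e
    exact e
  have hprod : Integrable (Function.uncurry fun (v t : ℝ) => hh χ m U γ (1 + (t : ℂ) * I) *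
      Complex.exp ((3 / 2 + (t : ℂ) * I) * v)) ((volume.restrict (Set.Iic a)).prod volume) := by
    refine Integrable.mono' (g := fun p : ℝ × ℝ => Real.exp (3 / 2 * p.1) * ‖hh χ m U γ (1 + (p.2 : ℂ) * I)‖)
      (hE.mul_prod hHint.norm) ?_ ?_
    · refine Continuous.aestronglyMeasurable ?_
      have h1 : Continuous fun p : ℝ × ℝ => hh χ m U γ (1 + (p.2 : ℂ) * I) := hHc.comp continuous_snd
      have h2 : Continuous fun p : ℝ × ℝ => Complex.exp ((3 / 2 + (p.2 : ℂ) * I) * p.1) := by fun_prop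
      exact h1.mul h2
    · refine Filter.Eventually.of_forall fun p => ?_
      show ‖hh χ m U γ (1 + (p.2 : ℂ) * I) * Complex.exp ((3 / 2 + (p.2 : ℂ) * I) * p.1)‖ ≤ _
      rw [norm_mul, hnorm, mul_comm]
  have e1 : ∀ v : ℝ, Complex.exp ((v : ℂ) / 2) * hk χ m U γ v = (1 / (2 * Real.pi) : ℂ) *
      ∫ t : ℝ, hh χ m U γ (1 + (t : ℂ) * I) * Complex.exp ((3 / 2 + (t : ℂ) * I) * v) := by
    intro v
    rw [A7_hk r hr χ hχ m U γ hσ hv h0 v, mul_left_comm, ← integral_const_mul]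
    congr 1
    refine integral_congr_ae (Filter.Eventually.of_forall fun t => ?_)
    show Complex.exp ((v : ℂ) / 2) * (hh χ m U γ (1 + (t : ℂ) * I) * Complex.exp ((1 + (t : ℂ) * I) * v)) = _
    rw [mul_left_comm, ← Complex.exp_add]
    congr 2
    ring
  refine ⟨?_, ?_⟩
  · unfold IntegrableOn
    simp_rw [e1]
    exact hprod.integral_prod_left.const_mul _
  · simp_rw [e1]
    rw [integral_const_mul, integral_integral_swap hprod]
    congr 1
    refine integral_congr_ae (Filter.Eventually.of_forall fun t => ?_)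
    show ∫ v in Set.Iic a, hh χ m U γ (1 + (t : ℂ) * I) * Complex.exp ((3 / 2 + (t : ℂ) * I) * v) = _
    rw [integral_const_mul, integral_exp_mul_complex_Iic (by simp) a]
    ring

/-- coefficients -/
noncomputable def A7_c {r : ℕ} (χ : DirichletCharacter ℂ r) (n : ℕ) : ℂ :=
  χ n * ((ArithmeticFunction.vonMangoldt n : ℝ) : ℂ)

theorem A7_c_zero {r : ℕ} (χ : DirichletCharacter ℂ r) : A7_c χ 0 = 0 := by
  unfold A7_c
  simp

/-- the summable majorant -/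
noncomputable def A7_w (n : ℕ) : ℝ :=
  ‖LSeries.term (fun n : ℕ => ((ArithmeticFunction.vonMangoldt n : ℝ) : ℂ)) (3 / 2 : ℂ) n‖

theorem A7_w_summable : Summable A7_w :=
  (ArithmeticFunction.LSeriesSummable_vonMangoldt (s := (3 / 2 : ℂ)) (by norm_num)).norm

theorem A7_w_nonneg (n : ℕ) : 0 ≤ A7_w n := norm_nonneg _

/-- `‖c_n‖ exp(3/2 (U - log n)) ≤ exp(3/2 U) w_n` -/
theorem A7_c_exp {r : ℕ} (χ : DirichletCharacter ℂ r) (U : ℝ) (n : ℕ) :
    ‖A7_c χ n‖ * Real.exp (3 / 2 * (U - Real.log n)) ≤ Real.exp (3 / 2 * U) * A7_w n := by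
  rcases Nat.eq_zero_or_pos n with rfl | hn
  · rw [A7_c_zero, norm_zero, zero_mul]
    exact mul_nonneg (Real.exp_pos _).le (A7_w_nonneg _)
  · have hn0 : (0 : ℝ) < n := by exact_mod_cast hn
    have e1 : Real.exp (3 / 2 * (U - Real.log n)) = Real.exp (3 / 2 * U) / (n : ℝ) ^ (3 / 2 : ℝ) := by
      rw [mul_sub, Real.exp_sub, Real.rpow_def_of_pos hn0, mul_comm (Real.log n)]
    have e2 : A7_w n = ArithmeticFunction.vonMangoldt n / (n : ℝ) ^ (3 / 2 : ℝ) := by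
      unfold A7_w
      rw [LSeries.norm_term_eq, if_neg hn.ne', Complex.norm_real,
        Real.norm_of_nonneg ArithmeticFunction.vonMangoldt_nonneg]
      have e3 : ((3 / 2 : ℂ)).re = 3 / 2 := by norm_num
      rw [e3]
    rw [e1, e2]
    have h1 : ‖A7_c χ n‖ ≤ ArithmeticFunction.vonMangoldt n := by
      unfold A7_c
      rw [norm_mul, Complex.norm_real, Real.norm_of_nonneg ArithmeticFunction.vonMangoldt_nonneg]
      exact mul_le_of_le_one_left ArithmeticFunction.vonMangoldt_nonneg (χ.norm_le_one _)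
    have hp : 0 < (n : ℝ) ^ (3 / 2 : ℝ) := Real.rpow_pos_of_pos hn0 _
    have h2 : 0 ≤ Real.exp (3 / 2 * U) / (n : ℝ) ^ (3 / 2 : ℝ) := by positivity
    calc ‖A7_c χ n‖ * (Real.exp (3 / 2 * U) / (n : ℝ) ^ (3 / 2 : ℝ))
        ≤ ArithmeticFunction.vonMangoldt n * (Real.exp (3 / 2 * U) / (n : ℝ) ^ (3 / 2 : ℝ)) :=
          mul_le_mul_of_nonneg_right h1 h2
      _ = _ := by ring

/-- `ψ(e^(U-v), χ)` as a sum over all `n` -/
theorem A7_psi {r : ℕ} (χ : DirichletCharacter ℂ r) (U v : ℝ) :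
    ∑' n : ℕ, (Set.Iic (U - Real.log n)).indicator (fun _ : ℝ => A7_c χ n) v = Pool.Agent.EM.psiC χ (Real.exp (U - v)) := by
  unfold Pool.Agent.EM.psiC
  rw [tsum_eq_sum (s := Finset.Icc 1 ⌊Real.exp (U - v)⌋₊)]
  · refine Finset.sum_congr rfl fun n hn => ?_
    rw [Finset.mem_Icc] at hn
    have hn0 : (0 : ℝ) < n := by exact_mod_cast hn.1
    have h1 : (n : ℝ) ≤ Real.exp (U - v) := (Nat.le_floor_iff (Real.exp_pos _).le).mp hn.2
    have h2 : Real.log n ≤ U - v := by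
      rw [← Real.log_exp (U - v)]
      exact Real.log_le_log hn0 h1
    rw [Set.indicator_of_mem (by show v ≤ U - Real.log n; linarith)]
    rfl
  · intro n hn
    rw [Finset.mem_Icc, not_and_or, not_le, not_le] at hn
    rcases hn with hn | hn
    · have : n = 0 := by omega
      subst this
      rw [A7_c_zero]
      simp
    · have h1 : Real.exp (U - v) < n := (Nat.floor_lt (Real.exp_pos _).le).mp hn
      have h2 : U - v < Real.log n := by
        rw [← Real.log_exp (U - v)]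
        exact Real.log_lt_log (Real.exp_pos _) h1
      rw [Set.indicator_of_notMem (by show ¬ v ≤ U - Real.log n; linarith)]

theorem A7_finsupp {r : ℕ} (χ : DirichletCharacter ℂ r) (U v : ℝ) (g : ℂ) :
    ∑' n : ℕ, (Set.Iic (U - Real.log n)).indicator (fun _ : ℝ => A7_c χ n * g) v =
      Pool.Agent.EM.psiC χ (Real.exp (U - v)) * g := by
  rw [← A7_psi, ← tsum_mul_right]
  refine tsum_congr fun n => ?_
  by_cases h : v ∈ Set.Iic (U - Real.log n)
  · rw [Set.indicator_of_mem h, Set.indicator_of_mem h]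
  · rw [Set.indicator_of_notMem h, Set.indicator_of_notMem h, zero_mul]

theorem A7_series {r : ℕ} [NeZero r] (χ : DirichletCharacter ℂ r) (s : ℂ) (hs : 1 < s.re) (g : ℂ) :
    ∑' n : ℕ, A7_c χ n * Complex.exp (-(s * Real.log n)) * g = -deriv χ.LFunction s / χ.LFunction s * g := by
  rw [tsum_mul_right]
  congr 1
  have h1 := DirichletCharacter.LSeries_twist_vonMangoldt_eq χ hs
  rw [χ.deriv_LFunction_eq_deriv_LSeries hs, χ.LFunction_eq_LSeries hs]
  have h4 : LSeries (fun n : ℕ => χ n * ((ArithmeticFunction.vonMangoldt n : ℝ) : ℂ)) s =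
      -deriv (LSeries fun n : ℕ => χ n) s / LSeries (fun n : ℕ => χ n) s := h1
  rw [← h4]
  unfold LSeries
  refine tsum_congr fun n => ?_
  rcases Nat.eq_zero_or_pos n with rfl | hn
  · rw [A7_c_zero]
    simp
  · have hn0 : (n : ℂ) ≠ 0 := by exact_mod_cast hn.ne'
    rw [LSeries.term_of_ne_zero hn.ne', Complex.cpow_def_of_ne_zero hn0, Complex.exp_neg, div_eq_mul_inv,
      Complex.natCast_log, mul_comm s]
    rfl

/-- A7b. PROOF. `ff χ (U - v) = exp(-(U-v)/2) ∑_{n ≥ 1, log n ≤ U - v} Λ(n) χ(n)` (`psiC` is a sum over `n ≤ exp(U - v)`): a sum over `n` of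
`Λ(n) χ(n) exp(-U/2) exp(v/2) 1_{v ≤ U - log n}`. `integral_tsum`/`hasSum_integral_of_summable_integral_norm` with
`∫_{v ≤ U - log n} exp(v/2) ‖hk v‖ dv ≤ C n^(-3/2)` (`‖hk v‖ ≤ C exp v` by `hk_line` with `c = 1`), `∑ Λ(n) n^(-3/2) < ∞`; `pair_one` with
`a = U - log n`: `exp(-U/2) exp((3/2+it)(U - log n)) = exp((1+it)U) n^(-(3/2+it))`; then exchange sum and `t`-integral again,
`∑ Λ(n)χ(n) n^(-s) = -L'(s)/L(s)` at `s = 3/2 + it` (Mathlib: `DirichletCharacter.LSeries_..vonMangoldt..`/`deriv_LFunction_div..`, see the uses in the library,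
e.g. `grep -rn LSeries_twist_vonMangoldt_eq`), `L(s) ≠ 0`, and `hh_of_ne` at `z = 1 + it`: the integrand becomes `Ph χ m U γ (1 + it)`. -/
theorem pair_line (r : ℕ) [NeZero r] (hr : 2 ≤ r) (χ : DirichletCharacter ℂ r) (hχ : χ ∈ prim r) (m : ℕ) (U γ : ℝ)
    (hσ : 0 < sg r U) (hv : 0 ≤ vl r m U) (h0 : χ.LFunction (1 / 2 + (γ : ℂ) * I) = 0) :
    ∫ v : ℝ, ff χ (U - v) * hk χ m U γ v = (1 / (2 * Real.pi) : ℂ) * ∫ t : ℝ, Ph χ m U γ (1 + (t : ℂ) * I) := by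
  have hpi := Real.pi_pos
  obtain ⟨C, hC, hle⟩ := A7_hk_le r hr χ hχ m U γ hσ hv h0
  have hHint := A7_hh_int r hr χ hχ m U γ hσ hv h0
  have hHc := A7_cont r hr χ hχ m U γ
  -- the first exchange
  set F : ℕ → ℝ → ℂ := fun n => (Set.Iic (U - Real.log n)).indicator
    (fun v => A7_c χ n * ((Real.exp (-U / 2) : ℝ) : ℂ) * (Complex.exp ((v : ℂ) / 2) * hk χ m U γ v)) with hF
  have hFint : ∀ n, Integrable (F n) := by
    intro n
    have h := (pair_one r hr χ hχ m U γ hσ hv h0 (U - Real.log n)).1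
    exact (integrable_indicator_iff measurableSet_Iic).mpr (Integrable.const_mul h _)
  have hFI : ∀ n, ∫ v, F n v = A7_c χ n * ((Real.exp (-U / 2) : ℝ) : ℂ) * ((1 / (2 * Real.pi) : ℂ) *
      ∫ t : ℝ, hh χ m U γ (1 + (t : ℂ) * I) * Complex.exp ((3 / 2 + (t : ℂ) * I) * ((U - Real.log n : ℝ) : ℂ)) /
        (3 / 2 + (t : ℂ) * I)) := by
    intro n
    rw [hF]
    show ∫ v, (Set.Iic (U - Real.log n)).indicator _ v = _
    rw [integral_indicator measurableSet_Iic, integral_const_mul,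
      (pair_one r hr χ hχ m U γ hσ hv h0 (U - Real.log n)).2]
  have hFn : ∀ n, ∫ v, ‖F n v‖ ≤ (Real.exp (-U / 2) * C * (2 / 3) * Real.exp (3 / 2 * U)) * A7_w n := by
    intro n
    have e1 : ∀ v, ‖F n v‖ = (Set.Iic (U - Real.log n)).indicator
        (fun v => ‖A7_c χ n‖ * Real.exp (-U / 2) * ‖Complex.exp ((v : ℂ) / 2) * hk χ m U γ v‖) v := by
      intro v
      rw [hF]
      show ‖(Set.Iic (U - Real.log n)).indicator _ v‖ = _
      rw [norm_indicator_eq_indicator_norm]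
      congr 1
      funext v
      rw [norm_mul, norm_mul, Complex.norm_real, Real.norm_of_nonneg (Real.exp_pos _).le]
    simp_rw [e1]
    rw [integral_indicator measurableSet_Iic, integral_const_mul]
    have hint := (pair_one r hr χ hχ m U γ hσ hv h0 (U - Real.log n)).1
    have h2 : ∫ v in Set.Iic (U - Real.log n), ‖Complex.exp ((v : ℂ) / 2) * hk χ m U γ v‖ ≤
        ∫ v in Set.Iic (U - Real.log n), C * Real.exp (3 / 2 * v) := by
      refine integral_mono hint.norm ((integrableOn_exp_mul_Iic (by norm_num) _).const_mul C) fun v => ?_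
      show ‖Complex.exp ((v : ℂ) / 2) * hk χ m U γ v‖ ≤ C * Real.exp (3 / 2 * v)
      have e3 : ‖Complex.exp ((v : ℂ) / 2)‖ = Real.exp (v / 2) := by
        rw [Complex.norm_exp]
        congr 1
        simp
      rw [norm_mul, e3]
      calc Real.exp (v / 2) * ‖hk χ m U γ v‖ ≤ Real.exp (v / 2) * (C * Real.exp v) :=
            mul_le_mul_of_nonneg_left (hle v) (Real.exp_pos _).le
        _ = C * Real.exp (3 / 2 * v) := by
            rw [mul_left_comm, ← Real.exp_add]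
            congr 2
            ring
    rw [integral_const_mul, integral_exp_mul_Iic (by norm_num)] at h2
    have h3 : 0 ≤ ‖A7_c χ n‖ * Real.exp (-U / 2) := by positivity
    have h4 := A7_c_exp χ U n
    calc ‖A7_c χ n‖ * Real.exp (-U / 2) * ∫ v in Set.Iic (U - Real.log n), ‖Complex.exp ((v : ℂ) / 2) * hk χ m U γ v‖
        ≤ ‖A7_c χ n‖ * Real.exp (-U / 2) * (C * (Real.exp (3 / 2 * (U - Real.log n)) / (3 / 2))) :=
          mul_le_mul_of_nonneg_left h2 h3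
      _ = Real.exp (-U / 2) * C * (2 / 3) * (‖A7_c χ n‖ * Real.exp (3 / 2 * (U - Real.log n))) := by ring
      _ ≤ Real.exp (-U / 2) * C * (2 / 3) * (Real.exp (3 / 2 * U) * A7_w n) :=
          mul_le_mul_of_nonneg_left h4 (by positivity)
      _ = _ := by ring
  have hFs : Summable fun n => ∫ v, ‖F n v‖ :=
    Summable.of_nonneg_of_le (fun n => integral_nonneg fun _ => norm_nonneg _) hFn (A7_w_summable.mul_left _)
  have hsum1 := hasSum_integral_of_summable_integral_norm hFint hFs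
  have e5 : ∀ v, ∑' n, F n v = ff χ (U - v) * hk χ m U γ v := by
    intro v
    have h := A7_finsupp χ U v (((Real.exp (-U / 2) : ℝ) : ℂ) * (Complex.exp ((v : ℂ) / 2) * hk χ m U γ v))
    have e6 : ∀ n, F n v = (Set.Iic (U - Real.log n)).indicator (fun _ : ℝ => A7_c χ n *
        (((Real.exp (-U / 2) : ℝ) : ℂ) * (Complex.exp ((v : ℂ) / 2) * hk χ m U γ v))) v := by
      intro n
      rw [hF]
      show (Set.Iic (U - Real.log n)).indicator _ v = _
      by_cases hm : v ∈ Set.Iic (U - Real.log n)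
      · rw [Set.indicator_of_mem hm, Set.indicator_of_mem hm, mul_assoc]
      · rw [Set.indicator_of_notMem hm, Set.indicator_of_notMem hm]
    simp_rw [e6]
    rw [h]
    unfold ff
    rw [mul_assoc]
    congr 1
    rw [← mul_assoc]
    congr 1
    rw [Complex.ofReal_exp, Complex.ofReal_exp, ← Complex.exp_add]
    congr 1
    push_cast
    ring
  simp_rw [e5] at hsum1
  -- the second exchange
  set G : ℕ → ℝ → ℂ := fun n t => A7_c χ n * ((Real.exp (-U / 2) : ℝ) : ℂ) * (hh χ m U γ (1 + (t : ℂ) * I) *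
    Complex.exp ((3 / 2 + (t : ℂ) * I) * ((U - Real.log n : ℝ) : ℂ)) / (3 / 2 + (t : ℂ) * I)) with hG
  have hden : ∀ t : ℝ, (3 / 2 + (t : ℂ) * I) ≠ 0 := by
    intro t h
    have := congrArg Complex.re h
    norm_num at this
  have hdenn : ∀ t : ℝ, 3 / 2 ≤ ‖(3 / 2 + (t : ℂ) * I)‖ := by
    intro t
    have h := Complex.abs_re_le_norm (3 / 2 + (t : ℂ) * I)
    have e : (3 / 2 + (t : ℂ) * I).re = 3 / 2 := by simp
    rw [e, abs_of_nonneg (by norm_num)] at h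
    exact h
  have hGle : ∀ n t, ‖G n t‖ ≤ (Real.exp (-U / 2) * (2 / 3) * Real.exp (3 / 2 * U) * A7_w n) * ‖hh χ m U γ (1 + (t : ℂ) * I)‖ := by
    intro n t
    rw [hG]
    show ‖A7_c χ n * ((Real.exp (-U / 2) : ℝ) : ℂ) * (hh χ m U γ (1 + (t : ℂ) * I) *
      Complex.exp ((3 / 2 + (t : ℂ) * I) * ((U - Real.log n : ℝ) : ℂ)) / (3 / 2 + (t : ℂ) * I))‖ ≤ _
    have e7 : ‖Complex.exp ((3 / 2 + (t : ℂ) * I) * ((U - Real.log n : ℝ) : ℂ))‖ = Real.exp (3 / 2 * (U - Real.log n)) := by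
      have e := A7_norm_exp (3 / 2) t (U - Real.log n)
      rw [show (((3 / 2 : ℝ) : ℂ)) = 3 / 2 by push_cast; ring] at e
      exact e
    rw [norm_mul, norm_mul, norm_div, norm_mul, e7, Complex.norm_real, Real.norm_of_nonneg (Real.exp_pos _).le]
    have h4 := A7_c_exp χ U n
    have h5 : ‖hh χ m U γ (1 + (t : ℂ) * I)‖ * Real.exp (3 / 2 * (U - Real.log n)) / ‖(3 / 2 + (t : ℂ) * I)‖ ≤
        ‖hh χ m U γ (1 + (t : ℂ) * I)‖ * Real.exp (3 / 2 * (U - Real.log n)) / (3 / 2) :=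
      div_le_div_of_nonneg_left (by positivity) (by norm_num) (hdenn t)
    calc ‖A7_c χ n‖ * Real.exp (-U / 2) * (‖hh χ m U γ (1 + (t : ℂ) * I)‖ * Real.exp (3 / 2 * (U - Real.log n)) /
          ‖(3 / 2 + (t : ℂ) * I)‖)
        ≤ ‖A7_c χ n‖ * Real.exp (-U / 2) * (‖hh χ m U γ (1 + (t : ℂ) * I)‖ * Real.exp (3 / 2 * (U - Real.log n)) / (3 / 2)) :=
          mul_le_mul_of_nonneg_left h5 (by positivity)
      _ = (Real.exp (-U / 2) * (2 / 3) * ‖hh χ m U γ (1 + (t : ℂ) * I)‖) *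
          (‖A7_c χ n‖ * Real.exp (3 / 2 * (U - Real.log n))) := by ring
      _ ≤ (Real.exp (-U / 2) * (2 / 3) * ‖hh χ m U γ (1 + (t : ℂ) * I)‖) * (Real.exp (3 / 2 * U) * A7_w n) :=
          mul_le_mul_of_nonneg_left h4 (by positivity)
      _ = _ := by ring
  have hGint : ∀ n, Integrable (G n) := by
    intro n
    refine Integrable.mono' (hHint.norm.const_mul _) ?_ (Filter.Eventually.of_forall fun t => hGle n t)
    refine Continuous.aestronglyMeasurable ?_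
    rw [hG]
    refine continuous_const.mul (Continuous.div (hHc.mul ?_) (by fun_prop) hden)
    fun_prop
  have hGs : Summable fun n => ∫ t, ‖G n t‖ := by
    refine Summable.of_nonneg_of_le (fun n => integral_nonneg fun _ => norm_nonneg _) (fun n => ?_)
      (A7_w_summable.mul_left (Real.exp (-U / 2) * (2 / 3) * Real.exp (3 / 2 * U) *
        ∫ t : ℝ, ‖hh χ m U γ (1 + (t : ℂ) * I)‖))
    have h := integral_mono (hGint n).norm (hHint.norm.const_mul _) (fun t => hGle n t)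
    rw [integral_const_mul] at h
    calc ∫ t, ‖G n t‖ ≤ _ := h
      _ = _ := by ring
  have hsum2 := hasSum_integral_of_summable_integral_norm hGint hGs
  have e8 : ∀ t, ∑' n, G n t = Ph χ m U γ (1 + (t : ℂ) * I) := by
    intro t
    have hs : 1 < (3 / 2 + (t : ℂ) * I).re := by
      have e : (3 / 2 + (t : ℂ) * I).re = 3 / 2 := by simp
      rw [e]
      norm_num
    have h := A7_series χ (3 / 2 + (t : ℂ) * I) hs (Complex.exp ((1 + (t : ℂ) * I) * U) *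
      hh χ m U γ (1 + (t : ℂ) * I) / (3 / 2 + (t : ℂ) * I))
    have e9 : ∀ n, G n t = A7_c χ n * Complex.exp (-((3 / 2 + (t : ℂ) * I) * Real.log n)) *
        (Complex.exp ((1 + (t : ℂ) * I) * U) * hh χ m U γ (1 + (t : ℂ) * I) / (3 / 2 + (t : ℂ) * I)) := by
      intro n
      rw [hG]
      show A7_c χ n * ((Real.exp (-U / 2) : ℝ) : ℂ) * (hh χ m U γ (1 + (t : ℂ) * I) *
        Complex.exp ((3 / 2 + (t : ℂ) * I) * ((U - Real.log n : ℝ) : ℂ)) / (3 / 2 + (t : ℂ) * I)) = _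
      have e10 : ((Real.exp (-U / 2) : ℝ) : ℂ) * Complex.exp ((3 / 2 + (t : ℂ) * I) * ((U - Real.log n : ℝ) : ℂ)) =
          Complex.exp (-((3 / 2 + (t : ℂ) * I) * Real.log n)) * Complex.exp ((1 + (t : ℂ) * I) * U) := by
        rw [Complex.ofReal_exp, ← Complex.exp_add, ← Complex.exp_add]
        congr 1
        push_cast
        ring
      calc A7_c χ n * ((Real.exp (-U / 2) : ℝ) : ℂ) * (hh χ m U γ (1 + (t : ℂ) * I) *
            Complex.exp ((3 / 2 + (t : ℂ) * I) * ((U - Real.log n : ℝ) : ℂ)) / (3 / 2 + (t : ℂ) * I))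
          = A7_c χ n * (((Real.exp (-U / 2) : ℝ) : ℂ) *
            Complex.exp ((3 / 2 + (t : ℂ) * I) * ((U - Real.log n : ℝ) : ℂ))) *
            (hh χ m U γ (1 + (t : ℂ) * I) / (3 / 2 + (t : ℂ) * I)) := by ring
        _ = _ := by rw [e10]; ring
    simp_rw [e9]
    rw [h]
    have hz : (1 + (t : ℂ) * I) ≠ (γ : ℂ) * I := by
      intro hh'
      have := congrArg Complex.re hh'
      norm_num at this
    have hL : χ.LFunction (3 / 2 + (t : ℂ) * I) ≠ 0 := by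
      refine DirichletCharacter.LFunction_ne_zero_of_one_le_re χ (Or.inr ?_) hs.le
      intro h1
      rw [h1] at hs
      norm_num at hs
    rw [hh_of_ne r χ m U γ h0 _ hz]
    unfold Ph
    have e11 : (1 / 2 + (1 + (t : ℂ) * I)) = 3 / 2 + (t : ℂ) * I := by ring
    rw [e11, mul_comm ((U : ℂ)) (1 + (t : ℂ) * I)]
    have hz' : (1 + (t : ℂ) * I) - (γ : ℂ) * I ≠ 0 := sub_ne_zero.mpr hz
    have hd := hden t
    generalize χ.LFunction (3 / 2 + (t : ℂ) * I) = L0 at hL ⊢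
    generalize deriv χ.LFunction (3 / 2 + (t : ℂ) * I) = L1
    generalize Ek (sg r U) (vl r m U) m (1 + (t : ℂ) * I - (γ : ℂ) * I) = E0
    generalize Complex.exp ((1 + (t : ℂ) * I) * U) = E1
    generalize (3 / 2 + (t : ℂ) * I) = s0 at hd ⊢
    generalize (1 + (t : ℂ) * I - (γ : ℂ) * I) = z0 at hz' ⊢
    field_simp
  simp_rw [e8] at hsum2
  -- conclusion
  have e12 : ∀ n, ∫ v, F n v = (1 / (2 * Real.pi) : ℂ) * ∫ t, G n t := by
    intro n
    rw [hFI n, hG]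
    show _ = (1 / (2 * Real.pi) : ℂ) * ∫ t : ℝ, A7_c χ n * ((Real.exp (-U / 2) : ℝ) : ℂ) * (hh χ m U γ (1 + (t : ℂ) * I) *
      Complex.exp ((3 / 2 + (t : ℂ) * I) * ((U - Real.log n : ℝ) : ℂ)) / (3 / 2 + (t : ℂ) * I))
    rw [integral_const_mul]
    ring
  simp_rw [e12] at hsum1
  exact hsum1.unique (hsum2.mul_left _)

end Pool.Agent.SE
end
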