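import Pool.Agent.Lib.MP_9cfc0a_nt.SE.A4
import Pool.Agent.Lib.MP_9cfc0a_nt.Mg.G049
import Pool.Agent.Lib.MP_9cfc0a_nt.EMKey

section

set_option autoImplicit false

/-! Task A6: the test function is tiny outside the window. -/

namespace Pool.Agent.SE

open Complex MeasureTheory
open Pool.Agent.SK Pool.Agent.SD
open Pool.Agent.SO (prim NN pt pz MM kw)

/-- the size of `L` on the two lines -/
private theorem A6_L {C₁ C : ℝ} (hC1 : 1 ≤ C₁) (hCC : C₁ ≤ C) (hC100 : 100 ≤ C)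
    (hL : ∀ (r : ℕ) [NeZero r], 2 ≤ r → ∀ χ ∈ prim r, ∀ s : ℂ, s.re ≤ 1 / 2 →
      ‖χ.LFunction s‖ ≤ (C₁ * r * (3 / 2 - s.re)) ^ (9 / 2 - s.re) * Real.exp (3 * |s.im|))
    (r : ℕ) [NeZero r] (hr : 2 ≤ r) (χ : DirichletCharacter ℂ r) (hχ : χ ∈ prim r)
    {x c : ℝ} (hx : 1 ≤ x) (hc : c = x ∨ c = -x) (t : ℝ) :
    ‖χ.LFunction (1 / 2 + ((c : ℂ) + (t : ℂ) * I))‖ ≤
      (C * r * (x + 1)) ^ (x + 4) * Real.exp (3 * |t|) := by
  have hr1 : (2 : ℝ) ≤ r := by exact_mod_cast hr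
  have hre : (1 / 2 + ((c : ℂ) + (t : ℂ) * I)).re = 1 / 2 + c := by simp
  have him : (1 / 2 + ((c : ℂ) + (t : ℂ) * I)).im = t := by simp
  have hbase : 1 ≤ C * r * (x + 1) := by
    have h1 : 1 ≤ C * r := by nlinarith
    nlinarith
  rcases hc with hc | hc
  · -- the right line
    have h1 := EM.L_growth r χ (prim_spec r hr χ hχ).2 (1 / 2 + ((c : ℂ) + (t : ℂ) * I))
      (by rw [hre, hc]; linarith)
    refine h1.trans ?_
    have h2 : ‖(1 / 2 + ((c : ℂ) + (t : ℂ) * I))‖ ≤ (x + 1) * Real.exp (3 * |t|) := by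
      have h3 := Complex.norm_le_abs_re_add_abs_im (1 / 2 + ((c : ℂ) + (t : ℂ) * I))
      have h6 : |1 / 2 + c| = 1 / 2 + x := by rw [hc]; exact abs_of_pos (by linarith)
      rw [hre, him, h6] at h3
      have h4 : 3 * |t| + 1 ≤ Real.exp (3 * |t|) := Real.add_one_le_exp _
      have h5 : 0 ≤ |t| := abs_nonneg t
      nlinarith [mul_nonneg (by linarith : (0 : ℝ) ≤ x) h5]
    have h3 : 20 * (2 * (r : ℝ) + 1) ≤ C * r := by nlinarith
    calc 20 * (2 * (r : ℝ) + 1) * ‖(1 / 2 + ((c : ℂ) + (t : ℂ) * I))‖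
        ≤ (C * r) * ((x + 1) * Real.exp (3 * |t|)) :=
          mul_le_mul h3 h2 (norm_nonneg _) (by positivity)
      _ = (C * r * (x + 1)) ^ (1 : ℝ) * Real.exp (3 * |t|) := by rw [Real.rpow_one]; ring
      _ ≤ (C * r * (x + 1)) ^ (x + 4) * Real.exp (3 * |t|) := by
          refine mul_le_mul_of_nonneg_right ?_ (Real.exp_pos _).le
          exact Real.rpow_le_rpow_of_exponent_le hbase (by linarith)
  · -- the left line
    have h1 := hL r hr χ hχ (1 / 2 + ((c : ℂ) + (t : ℂ) * I)) (by rw [hre, hc]; linarith)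
    rw [hre, him] at h1
    have e1 : (3 / 2 - (1 / 2 + c) : ℝ) = x + 1 := by rw [hc]; ring
    have e2 : (9 / 2 - (1 / 2 + c) : ℝ) = x + 4 := by rw [hc]; ring
    rw [e1, e2] at h1
    refine h1.trans ?_
    refine mul_le_mul_of_nonneg_right ?_ (Real.exp_pos _).le
    refine Real.rpow_le_rpow (by positivity) ?_ (by linarith)
    refine mul_le_mul_of_nonneg_right ?_ (by linarith)
    exact mul_le_mul_of_nonneg_right hCC (by linarith)

/-- A6. PROOF. `C` = max of the constant of `L_left` and `100`, `r₀` from `regime C T m`; `x = 16U/V ≥ 1`, `σ = sg`, `w = vl`.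
Left (`v ≥ 0`): `hk_line` with `c = -x`: `‖hk v‖ ≤ (1/2π) exp(-xv) ∫ ‖hh(-x+it)‖`; by `hh_of_ne`, `‖-x+it-iγ‖ ≥ x ≥ 1`, `L_left` at `s = 1/2 - x + it`
(`3/2 - s.re = x + 1`, `9/2 - s.re = x + 4`) and `Ek_le`: `‖hh(-x+it)‖ ≤ (C r (x+1))^(x+4) exp(3|t|) exp(σ²x²/2 + m w x) exp(-σ²(t-γ)²/2)`,
`σ²x²/2 + m w x = 8U + 16U/100`; `gauss_int` (`|γ| ≤ T`) and (4) of `regime`: the integral is at most `exp(17U/2)`.
Right (`v ≤ 0`): `c = x`, `‖L(1/2+x+it)‖ ≤ 20(2r+1)‖s‖ ≤ ..` (`EM.L_growth`) or `≤ 3`; bounded by the same expression: `20(2r+1)(|t| + x + 1/2) ≤ 100 r (x+1) exp(|t|) ≤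
(C r (x+1))^(x+4) exp(3|t|)`. `1/(2π) ≤ 1`. -/
theorem hk_bound (T : ℝ) (hT : 0 ≤ T) (m : ℕ) (hm : 1 ≤ m) : ∃ r₀ : ℕ, 3 ≤ r₀ ∧ ∀ (r : ℕ) [NeZero r], r₀ ≤ r →
    ∀ χ ∈ prim r, ∀ γ : ℝ, |γ| ≤ T → χ.LFunction (1 / 2 + (γ : ℂ) * I) = 0 → ∀ U : ℝ, 4000 * Real.log r ≤ U → ∀ v : ℝ,
    ‖hk χ m U γ v‖ ≤ Real.exp (17 / 2 * U - 16 * U / VV r U * |v|) := by
  obtain ⟨C₁, hC1, hL⟩ := L_left
  obtain ⟨C, hC⟩ : ∃ C : ℝ, C = max C₁ 100 := ⟨_, rfl⟩
  have hCC : C₁ ≤ C := hC ▸ le_max_left _ _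
  have hC100 : 100 ≤ C := hC ▸ le_max_right _ _
  obtain ⟨r₀, hr₀, hreg⟩ := regime C T (by linarith) hT m hm
  refine ⟨r₀, hr₀, ?_⟩
  intro r _ hr χ hχ γ hγ h0 U hU v
  obtain ⟨hV, hVU, ⟨e1, e2, hσ, hw⟩, h4, -, -, -, hU1⟩ := hreg r hr U hU
  have hr2 : 2 ≤ r := by omega
  obtain ⟨x, hx⟩ : ∃ x : ℝ, x = 16 * U / VV r U := ⟨_, rfl⟩
  obtain ⟨σ, hσe⟩ : ∃ σ : ℝ, σ = sg r U := ⟨_, rfl⟩
  obtain ⟨w, hwe⟩ : ∃ w : ℝ, w = vl r m U := ⟨_, rfl⟩
  rw [← hx] at e1 e2 h4 ⊢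
  rw [← hσe] at e1 hσ h4
  rw [← hwe] at e2 hw
  have hx1 : 1 ≤ x := by
    rw [hx, le_div_iff₀ (by linarith)]
    linarith
  obtain ⟨c, hc, hcv⟩ : ∃ c : ℝ, (c = x ∨ c = -x) ∧ c * v = -(x * |v|) := by
    rcases le_total 0 v with h | h
    · exact ⟨-x, Or.inr rfl, by rw [abs_of_nonneg h]; ring⟩
    · exact ⟨x, Or.inl rfl, by rw [abs_of_nonpos h]; ring⟩
  have hcabs : |c| = x := by
    rcases hc with h | h
    · rw [h, abs_of_nonneg (by linarith)]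
    · rw [h, abs_neg, abs_of_nonneg (by linarith)]
  have hc2 : c ^ 2 = x ^ 2 := by rw [← sq_abs, hcabs]
  obtain ⟨D, hD⟩ : ∃ D : ℝ, D = (C * r * (x + 1)) ^ (x + 4) * Real.exp (8 * U + 16 * U / 100) :=
    ⟨_, rfl⟩
  have hr2' : (2 : ℝ) ≤ r := by exact_mod_cast hr2
  have hb0 : 0 ≤ C * r * (x + 1) := by positivity
  have hD0 : 0 ≤ D := by
    rw [hD]
    exact mul_nonneg (Real.rpow_nonneg hb0 _) (Real.exp_pos _).le
  have hpt : ∀ t : ℝ, ‖hh χ m U γ ((c : ℂ) + (t : ℂ) * I)‖ ≤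
      D * (Real.exp (3 * |t|) * Real.exp (-(σ ^ 2 / 2 * (t - γ) ^ 2))) := by
    intro t
    have hne : (c : ℂ) + (t : ℂ) * I ≠ (γ : ℂ) * I := by
      intro h
      have h1 := congrArg Complex.re h
      simp at h1
      rw [h1, abs_zero] at hcabs
      linarith
    rw [hh_of_ne r χ m U γ h0 _ hne, norm_mul, norm_div, ← hσe, ← hwe]
    have h1 := A6_L hC1 hCC hC100 hL r hr2 χ hχ hx1 hc t
    have hre : ((c : ℂ) + (t : ℂ) * I - (γ : ℂ) * I).re = c := by simp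
    have him : ((c : ℂ) + (t : ℂ) * I - (γ : ℂ) * I).im = t - γ := by simp
    have h2 : 1 ≤ ‖(c : ℂ) + (t : ℂ) * I - (γ : ℂ) * I‖ := by
      have h3 := Complex.abs_re_le_norm ((c : ℂ) + (t : ℂ) * I - (γ : ℂ) * I)
      rw [hre, hcabs] at h3
      linarith
    have h3 := Ek_le σ w hw.le m ((c : ℂ) + (t : ℂ) * I - (γ : ℂ) * I)
    rw [hre, him, hcabs, hc2] at h3
    have e3 : σ ^ 2 / 2 * (x ^ 2 - (t - γ) ^ 2) + m * w * x =
        (8 * U + 16 * U / 100) + -(σ ^ 2 / 2 * (t - γ) ^ 2) := by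
      have : σ ^ 2 / 2 * (x ^ 2 - (t - γ) ^ 2) = σ ^ 2 / 2 * x ^ 2 - σ ^ 2 / 2 * (t - γ) ^ 2 := by
        ring
      rw [this, e1, e2]
      ring
    rw [e3, Real.exp_add] at h3
    have h5 : ‖χ.LFunction (1 / 2 + ((c : ℂ) + (t : ℂ) * I))‖ /
        ‖(c : ℂ) + (t : ℂ) * I - (γ : ℂ) * I‖ ≤ (C * r * (x + 1)) ^ (x + 4) *
          Real.exp (3 * |t|) :=
      (div_le_self (norm_nonneg _) h2).trans h1
    calc _ ≤ ((C * r * (x + 1)) ^ (x + 4) * Real.exp (3 * |t|)) *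
          (Real.exp (8 * U + 16 * U / 100) * Real.exp (-(σ ^ 2 / 2 * (t - γ) ^ 2))) :=
          mul_le_mul h5 h3 (norm_nonneg _)
            (mul_nonneg (Real.rpow_nonneg hb0 _) (Real.exp_pos _).le)
      _ = _ := by rw [hD]; ring
  obtain ⟨hgi, hgl⟩ := gauss_int σ γ hσ
  rw [hk_line r hr2 χ hχ m U γ (hσe ▸ hσ) (hwe ▸ hw.le) h0 c v, norm_mul]
  have h6 : ‖∫ t : ℝ, hh χ m U γ ((c : ℂ) + (t : ℂ) * I) *
      Complex.exp (((c : ℂ) + (t : ℂ) * I) * v)‖ ≤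
      ∫ t : ℝ, (D * Real.exp (c * v)) *
        (Real.exp (3 * |t|) * Real.exp (-(σ ^ 2 / 2 * (t - γ) ^ 2))) := by
    refine norm_integral_le_of_norm_le (hgi.const_mul _) (Filter.Eventually.of_forall fun t => ?_)
    rw [norm_mul, Complex.norm_exp]
    have h7 : (((c : ℂ) + (t : ℂ) * I) * v).re = c * v := by simp
    rw [h7]
    calc _ ≤ D * (Real.exp (3 * |t|) * Real.exp (-(σ ^ 2 / 2 * (t - γ) ^ 2))) *
          Real.exp (c * v) := mul_le_mul_of_nonneg_right (hpt t) (Real.exp_pos _).le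
      _ = _ := by ring
  rw [integral_const_mul] at h6
  have h8 : ‖(1 / (2 * Real.pi) : ℂ)‖ ≤ 1 := by
    have h9 : (1 / (2 * Real.pi) : ℂ) = ((1 / (2 * Real.pi) : ℝ) : ℂ) := by push_cast; ring
    rw [h9, Complex.norm_real, Real.norm_eq_abs, abs_of_pos (by positivity)]
    rw [div_le_one (by positivity)]
    linarith [Real.pi_gt_three]
  have h10 : ∫ t : ℝ, Real.exp (3 * |t|) * Real.exp (-(σ ^ 2 / 2 * (t - γ) ^ 2)) ≤
      Real.exp (3 * T) * (2 * Real.exp (9 / (2 * σ ^ 2)) * (Real.sqrt (2 * Real.pi) / σ)) := by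
    refine hgl.trans ?_
    refine mul_le_mul_of_nonneg_right ?_ (by positivity)
    exact Real.exp_le_exp.2 (by linarith)
  have h11 : D * (Real.exp (3 * T) * (2 * Real.exp (9 / (2 * σ ^ 2)) *
      (Real.sqrt (2 * Real.pi) / σ))) ≤ Real.exp (17 / 2 * U) := by
    rw [hD]
    exact h4
  calc _ ≤ 1 * (D * Real.exp (c * v) *
        ∫ t : ℝ, Real.exp (3 * |t|) * Real.exp (-(σ ^ 2 / 2 * (t - γ) ^ 2))) :=
        mul_le_mul h8 h6 (norm_nonneg _) zero_le_one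
    _ ≤ 1 * (D * Real.exp (c * v) *
        (Real.exp (3 * T) * (2 * Real.exp (9 / (2 * σ ^ 2)) * (Real.sqrt (2 * Real.pi) / σ)))) := by
        refine mul_le_mul_of_nonneg_left ?_ zero_le_one
        exact mul_le_mul_of_nonneg_left h10 (mul_nonneg hD0 (Real.exp_pos _).le)
    _ = (D * (Real.exp (3 * T) * (2 * Real.exp (9 / (2 * σ ^ 2)) *
        (Real.sqrt (2 * Real.pi) / σ)))) * Real.exp (c * v) := by ring
    _ ≤ Real.exp (17 / 2 * U) * Real.exp (c * v) :=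
        mul_le_mul_of_nonneg_right h11 (Real.exp_pos _).le
    _ = Real.exp (17 / 2 * U - x * |v|) := by
        rw [← Real.exp_add, hcv]
        congr 1

end Pool.Agent.SE
end

section

set_option autoImplicit false

/-! Task A8: the residue at the zero. -/

namespace Pool.Agent.SE

open Complex MeasureTheory
open Pool.Agent.SK Pool.Agent.SD
open Pool.Agent.SO (prim NN pt pz MM kw)

/-- the numerator without the pole -/
private noncomputable def A8_F {r : ℕ} [NeZero r] (χ : DirichletCharacter ℂ r) (m : ℕ) (U γ : ℝ) (ζ : ℂ) : ℂ :=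
  -(deriv χ.LFunction (1 / 2 + (ζ + (γ : ℂ) * I))) * Ek (sg r U) (vl r m U) m ζ *
    Complex.exp ((U : ℂ) * (ζ + (γ : ℂ) * I)) / (1 / 2 + (ζ + (γ : ℂ) * I))

private lemma A8_Ph_eq {r : ℕ} [NeZero r] (χ : DirichletCharacter ℂ r) (m : ℕ) (U γ : ℝ) (ζ : ℂ) :
    Ph χ m U γ (ζ + (γ : ℂ) * I) = A8_F χ m U γ ζ / ζ := by
  unfold Ph A8_F
  rw [add_sub_cancel_right, div_div, mul_comm ζ]

private lemma A8_shift_line {r : ℕ} [NeZero r] (χ : DirichletCharacter ℂ r) (m : ℕ) (U γ : ℝ) (c : ℂ) :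
    ∫ t : ℝ, Ph χ m U γ (c + (t : ℂ) * I) = ∫ t : ℝ, A8_F χ m U γ (c + (t : ℂ) * I) / (c + (t : ℂ) * I) := by
  rw [← integral_add_right_eq_self (fun t : ℝ => Ph χ m U γ (c + (t : ℂ) * I)) γ]
  apply integral_congr_ae
  filter_upwards with t
  rw [← A8_Ph_eq]
  congr 1
  push_cast
  ring

private lemma A8_den (γ : ℝ) (ζ : ℂ) (h : -1 / 4 ≤ ζ.re) : 1 / 4 ≤ ‖1 / 2 + (ζ + (γ : ℂ) * I)‖ := by
  have h1 : (1 / 2 + (ζ + (γ : ℂ) * I)).re = 1 / 2 + ζ.re := by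
    simp
  have h2 := Complex.abs_re_le_norm (1 / 2 + (ζ + (γ : ℂ) * I))
  rw [h1] at h2
  have h3 := le_abs_self (1 / 2 + ζ.re)
  linarith

private lemma A8_F_bound (r : ℕ) [NeZero r] (hr : 2 ≤ r) (χ : DirichletCharacter ℂ r) (hχ : χ ∈ prim r) (m : ℕ) (U γ : ℝ)
    (hσ : 0 < sg r U) (hv : 0 ≤ vl r m U) : ∃ K : ℝ, ∀ ζ : ℂ, -1 / 4 ≤ ζ.re → ζ.re ≤ 1 →
      ‖A8_F χ m U γ ζ‖ ≤ K * Real.exp (-(sg r U ^ 2 / 4 * ζ.im ^ 2)) := by
  obtain ⟨K0, hK0, hL⟩ := L_deriv_strip r hr χ hχ (1 / 4) (3 / 2)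
  obtain ⟨σ, hσd⟩ : ∃ σ, σ = sg r U := ⟨_, rfl⟩
  rw [← hσd] at hσ ⊢
  refine ⟨K0 * Real.exp (3 * |γ| + 9 / σ ^ 2) * Real.exp (σ ^ 2 / 2 + m * vl r m U) * Real.exp |U| * 4, ?_⟩
  intro ζ h1 h2
  have hre : |ζ.re| ≤ 1 := abs_le.mpr ⟨by linarith, h2⟩
  have hre2 : ζ.re ^ 2 ≤ 1 := by
    rw [← sq_abs]
    have := abs_nonneg ζ.re
    nlinarith
  have e1 := hL (1 / 2 + (ζ + (γ : ℂ) * I)) (by simp; linarith) (by simp; linarith)
  have e2 := Ek_le σ (vl r m U) hv m ζ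
  have e3 : ‖Complex.exp ((U : ℂ) * (ζ + (γ : ℂ) * I))‖ ≤ Real.exp |U| := by
    rw [Complex.norm_exp]
    apply Real.exp_le_exp.mpr
    have h3 : ((U : ℂ) * (ζ + (γ : ℂ) * I)).re = U * ζ.re := by
      simp
    rw [h3]
    calc U * ζ.re ≤ |U * ζ.re| := le_abs_self _
      _ = |U| * |ζ.re| := abs_mul _ _
      _ ≤ |U| * 1 := mul_le_mul_of_nonneg_left hre (abs_nonneg _)
      _ = |U| := mul_one _
  have e4 := A8_den γ ζ h1
  have e5 : (1 / 2 + (ζ + (γ : ℂ) * I)).im = ζ.im + γ := by simp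
  rw [e5] at e1
  unfold A8_F
  rw [norm_div, norm_mul, norm_mul, norm_neg, ← hσd]
  have e6 : Real.exp (3 * |ζ.im + γ|) * Real.exp (σ ^ 2 / 2 * (ζ.re ^ 2 - ζ.im ^ 2) + m * vl r m U * |ζ.re|) ≤
      Real.exp (3 * |γ| + 9 / σ ^ 2) * Real.exp (σ ^ 2 / 2 + m * vl r m U) * Real.exp (-(σ ^ 2 / 4 * ζ.im ^ 2)) := by
    rw [← Real.exp_add, ← Real.exp_add, ← Real.exp_add]
    apply Real.exp_le_exp.mpr
    have h3 := abs_add_le ζ.im γ
    have h4 : 3 * |ζ.im| ≤ σ ^ 2 / 4 * ζ.im ^ 2 + 9 / σ ^ 2 := by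
      have h5 : 0 ≤ (σ * |ζ.im| / 2 - 3 / σ) ^ 2 := sq_nonneg _
      have h6 : (σ * |ζ.im| / 2 - 3 / σ) ^ 2 = σ ^ 2 / 4 * |ζ.im| ^ 2 + 9 / σ ^ 2 - 3 * |ζ.im| := by
        field_simp
        ring
      rw [h6, sq_abs] at h5
      linarith
    have h7 : m * vl r m U * |ζ.re| ≤ m * vl r m U := by
      have : 0 ≤ m * vl r m U := by positivity
      calc m * vl r m U * |ζ.re| ≤ m * vl r m U * 1 := mul_le_mul_of_nonneg_left hre this
        _ = _ := mul_one _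
    have h8 : σ ^ 2 / 2 * ζ.re ^ 2 ≤ σ ^ 2 / 2 := by
      have : 0 ≤ σ ^ 2 / 2 := by positivity
      calc σ ^ 2 / 2 * ζ.re ^ 2 ≤ σ ^ 2 / 2 * 1 := mul_le_mul_of_nonneg_left hre2 this
        _ = _ := mul_one _
    nlinarith
  have e7 : ‖deriv χ.LFunction (1 / 2 + (ζ + (γ : ℂ) * I))‖ * ‖Ek σ (vl r m U) m ζ‖ ≤
      K0 * (Real.exp (3 * |γ| + 9 / σ ^ 2) * Real.exp (σ ^ 2 / 2 + m * vl r m U) *
        Real.exp (-(σ ^ 2 / 4 * ζ.im ^ 2))) := by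
    calc ‖deriv χ.LFunction (1 / 2 + (ζ + (γ : ℂ) * I))‖ * ‖Ek σ (vl r m U) m ζ‖
        ≤ (K0 * Real.exp (3 * |ζ.im + γ|)) *
          Real.exp (σ ^ 2 / 2 * (ζ.re ^ 2 - ζ.im ^ 2) + m * vl r m U * |ζ.re|) := by
          apply mul_le_mul e1 e2 (norm_nonneg _) (by positivity)
      _ = K0 * (Real.exp (3 * |ζ.im + γ|) *
          Real.exp (σ ^ 2 / 2 * (ζ.re ^ 2 - ζ.im ^ 2) + m * vl r m U * |ζ.re|)) := by ring
      _ ≤ _ := mul_le_mul_of_nonneg_left e6 hK0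
  have e8 : 0 < ‖1 / 2 + (ζ + (γ : ℂ) * I)‖ := lt_of_lt_of_le (by norm_num) e4
  rw [div_le_iff₀ e8]
  have e9 : 0 ≤ K0 * (Real.exp (3 * |γ| + 9 / σ ^ 2) * Real.exp (σ ^ 2 / 2 + m * vl r m U) *
        Real.exp (-(σ ^ 2 / 4 * ζ.im ^ 2))) := by positivity
  calc ‖deriv χ.LFunction (1 / 2 + (ζ + (γ : ℂ) * I))‖ * ‖Ek σ (vl r m U) m ζ‖ *
        ‖Complex.exp ((U : ℂ) * (ζ + (γ : ℂ) * I))‖
      ≤ (K0 * (Real.exp (3 * |γ| + 9 / σ ^ 2) * Real.exp (σ ^ 2 / 2 + m * vl r m U) *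
        Real.exp (-(σ ^ 2 / 4 * ζ.im ^ 2)))) * Real.exp |U| := mul_le_mul e7 e3 (norm_nonneg _) e9
    _ = (K0 * (Real.exp (3 * |γ| + 9 / σ ^ 2) * Real.exp (σ ^ 2 / 2 + m * vl r m U) *
        Real.exp (-(σ ^ 2 / 4 * ζ.im ^ 2)))) * Real.exp |U| * (4 * (1 / 4)) := by ring
    _ ≤ (K0 * (Real.exp (3 * |γ| + 9 / σ ^ 2) * Real.exp (σ ^ 2 / 2 + m * vl r m U) *
        Real.exp (-(σ ^ 2 / 4 * ζ.im ^ 2)))) * Real.exp |U| * (4 * ‖1 / 2 + (ζ + (γ : ℂ) * I)‖) := by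
        apply mul_le_mul_of_nonneg_left _ (by positivity)
        linarith
    _ = _ := by ring

private lemma A8_F_diff (r : ℕ) [NeZero r] (hr : 2 ≤ r) (χ : DirichletCharacter ℂ r) (hχ : χ ∈ prim r) (m : ℕ) (U γ : ℝ)
    (ζ : ℂ) (h : -1 / 4 ≤ ζ.re) : DifferentiableAt ℂ (A8_F χ m U γ) ζ := by
  have hne : χ ≠ 1 := (prim_spec r hr χ hχ).2
  have h1 : Differentiable ℂ χ.LFunction := DirichletCharacter.differentiable_LFunction hne
  have h2 : Differentiable ℂ (deriv χ.LFunction) := by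
    intro z
    exact (h1.contDiff.differentiable_deriv_two) z
  have h3 : (1 / 2 + (ζ + (γ : ℂ) * I)) ≠ 0 := by
    intro h0
    have := A8_den γ ζ h
    rw [h0, norm_zero] at this
    linarith
  unfold A8_F
  have h4 : DifferentiableAt ℂ (fun ζ : ℂ => deriv χ.LFunction (1 / 2 + (ζ + (γ : ℂ) * I))) ζ := by
    have : DifferentiableAt ℂ (fun ζ : ℂ => (1 / 2 + (ζ + (γ : ℂ) * I))) ζ := by fun_prop
    exact (h2 _).comp ζ this
  have h5 : DifferentiableAt ℂ (fun ζ : ℂ => Ek (sg r U) (vl r m U) m ζ) ζ := Ek_diff _ _ _ ζ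
  have h6 : DifferentiableAt ℂ (fun ζ : ℂ => Complex.exp ((U : ℂ) * (ζ + (γ : ℂ) * I))) ζ := by fun_prop
  have h7 : DifferentiableAt ℂ (fun ζ : ℂ => (1 / 2 + (ζ + (γ : ℂ) * I))) ζ := by fun_prop
  exact ((h4.neg.mul h5).mul h6).div h7 h3

/-- A8a. PROOF. `F ζ = -L'(1/2+ζ+iγ) Ek ζ exp(U(ζ+iγ))/(1/2+ζ+iγ)`; in the strip `-1/4 ≤ ζ.re ≤ 1` the denominator does not vanish (`re ≥ 1/4`);
`L_deriv_strip`, `Ek_le`: Gaussian decay. `shift_pole` with `a = -1/4`, `c = 1`: `∫ Ph(1 + it) = ∫ F(1+i(t-γ))/(1+i(t-γ))` (translate `t` by `γ`: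
`integral_sub_right_eq_self`), `F 0 = -L'(ρ) exp(iUγ)/ρ` (`Ek_zero`). -/
theorem Ph_shift (r : ℕ) [NeZero r] (hr : 2 ≤ r) (χ : DirichletCharacter ℂ r) (hχ : χ ∈ prim r) (m : ℕ) (U γ : ℝ)
    (hσ : 0 < sg r U) (hv : 0 ≤ vl r m U) :
    ∫ t : ℝ, Ph χ m U γ (1 + (t : ℂ) * I) =
      (∫ t : ℝ, Ph χ m U γ (-1 / 4 + (t : ℂ) * I)) -
        2 * Real.pi * (deriv χ.LFunction (1 / 2 + (γ : ℂ) * I) * Complex.exp ((U : ℂ) * ((γ : ℂ) * I)) / (1 / 2 + (γ : ℂ) * I)) := by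
  obtain ⟨K, hK⟩ := A8_F_bound r hr χ hχ m U γ hσ hv
  have hmain := shift_pole (A8_F χ m U γ) (-1 / 4) 1 K (sg r U ^ 2 / 4) (by norm_num) (by norm_num) (by positivity)
    (fun s h1 _ => A8_F_diff r hr χ hχ m U γ s h1) hK
  have h0 : A8_F χ m U γ 0 = -(deriv χ.LFunction (1 / 2 + (γ : ℂ) * I) *
      Complex.exp ((U : ℂ) * ((γ : ℂ) * I)) / (1 / 2 + (γ : ℂ) * I)) := by
    unfold A8_F
    rw [Ek_zero, zero_add]
    ring
  have hc1 : (((1 : ℝ) : ℂ)) = 1 := by norm_num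
  have hc2 : (((-1 / 4 : ℝ) : ℂ)) = -1 / 4 := by push_cast; ring
  rw [hc1, hc2] at hmain
  rw [A8_shift_line, A8_shift_line]
  rw [h0] at hmain
  linear_combination hmain

/-- A8b. PROOF. `‖Ph(-1/4+it)‖ ≤ 16 ‖L'(1/4+it)‖ ‖Ek‖ exp(-U/4)` (`‖-1/4+it-iγ‖ ≥ 1/4`, `‖1/4+it‖ ≥ 1/4`), `L_deriv_left`, `Ek_le`
(`ζ.re = -1/4`: `σ²/32 + m vl/4 - σ²(t-γ)²/2`), `gauss_int`, (5) of `regime (16 C) T m`. -/
theorem Ph_left (T : ℝ) (hT : 0 ≤ T) (m : ℕ) (hm : 1 ≤ m) : ∃ r₀ : ℕ, 3 ≤ r₀ ∧ ∀ (r : ℕ) [NeZero r], r₀ ≤ r →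
    ∀ χ ∈ prim r, ∀ γ : ℝ, |γ| ≤ T → ∀ U : ℝ, 4000 * Real.log r ≤ U →
    ‖∫ t : ℝ, Ph χ m U γ (-1 / 4 + (t : ℂ) * I)‖ ≤ Real.exp (-(U / 8)) := by
  obtain ⟨C1, hC1, hL⟩ := L_deriv_left
  obtain ⟨r₀, hr₀, hreg⟩ := regime (16 * C1) T (by linarith) hT m hm
  refine ⟨r₀, hr₀, ?_⟩
  intro r _ hr χ hχ γ hγ U hU
  obtain ⟨-, -, ⟨-, -, hσ, hv⟩, -, h5, -⟩ := hreg r hr U hU
  obtain ⟨σ, hσd⟩ : ∃ σ, σ = sg r U := ⟨_, rfl⟩
  obtain ⟨w, hwd⟩ : ∃ w, w = vl r m U := ⟨_, rfl⟩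
  rw [← hσd] at hσ h5
  rw [← hwd] at hv h5
  obtain ⟨A, hA⟩ : ∃ A, A = 16 * C1 * (r : ℝ) ^ 5 * Real.exp (-(U / 4) + σ ^ 2 / 32 + m * w / 4) := ⟨_, rfl⟩
  have hA0 : 0 ≤ A := by rw [hA]; positivity
  obtain ⟨hgi, hgb⟩ := gauss_int σ γ hσ
  have hpt : ∀ t : ℝ, ‖Ph χ m U γ (-1 / 4 + (t : ℂ) * I)‖ ≤
      A * (Real.exp (3 * |t|) * Real.exp (-(σ ^ 2 / 2 * (t - γ) ^ 2))) := by
    intro t
    have e1 := hL r (by omega) χ hχ t
    have e2 := Ek_le σ w hv.le m (-1 / 4 + (t : ℂ) * I - (γ : ℂ) * I)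
    have r1 : (-1 / 4 + (t : ℂ) * I - (γ : ℂ) * I).re = -1 / 4 := by
      simp only [Complex.sub_re, Complex.add_re, Complex.mul_re, Complex.ofReal_re, Complex.I_re,
        Complex.ofReal_im, Complex.I_im, mul_zero, mul_one, sub_zero]
      norm_num
    have r2 : (-1 / 4 + (t : ℂ) * I - (γ : ℂ) * I).im = t - γ := by
      simp only [Complex.sub_im, Complex.add_im, Complex.mul_im, Complex.ofReal_re, Complex.I_re,
        Complex.ofReal_im, Complex.I_im, mul_zero, mul_one, add_zero]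
      norm_num
    rw [r1, r2] at e2
    have e3 : 1 / 4 ≤ ‖(-1 / 4 + (t : ℂ) * I - (γ : ℂ) * I)‖ := by
      have := Complex.abs_re_le_norm (-1 / 4 + (t : ℂ) * I - (γ : ℂ) * I)
      rw [r1] at this
      have h6 : |(-1 / 4 : ℝ)| = 1 / 4 := by norm_num [abs_of_neg]
      rw [h6] at this
      exact this
    have e4 : (1 / 2 + (-1 / 4 + (t : ℂ) * I)) = 1 / 4 + (t : ℂ) * I := by ring
    have e5 : 1 / 4 ≤ ‖(1 / 4 + (t : ℂ) * I)‖ := by
      have := Complex.abs_re_le_norm (1 / 4 + (t : ℂ) * I)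
      have r3 : (1 / 4 + (t : ℂ) * I).re = 1 / 4 := by
        simp only [Complex.add_re, Complex.mul_re, Complex.ofReal_re, Complex.I_re,
          Complex.ofReal_im, Complex.I_im, mul_zero, mul_one, sub_zero]
        norm_num
      rw [r3] at this
      have h6 : |(1 / 4 : ℝ)| = 1 / 4 := by norm_num
      rw [h6] at this
      exact this
    have e6 : ‖Complex.exp ((U : ℂ) * (-1 / 4 + (t : ℂ) * I))‖ = Real.exp (-(U / 4)) := by
      rw [Complex.norm_exp]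
      congr 1
      simp only [Complex.add_re, Complex.add_im, Complex.mul_re, Complex.mul_im, Complex.ofReal_re, Complex.I_re,
        Complex.ofReal_im, Complex.I_im, mul_zero, mul_one, sub_zero, zero_mul, add_zero]
      norm_num
      ring
    unfold Ph
    rw [e4, norm_div, norm_mul, norm_mul, norm_neg, norm_mul, ← hσd, ← hwd, e6]
    have e7 : 0 < ‖(-1 / 4 + (t : ℂ) * I - (γ : ℂ) * I)‖ * ‖(1 / 4 + (t : ℂ) * I)‖ := by
      apply mul_pos <;> linarith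
    have e8 : 1 / 16 ≤ ‖(-1 / 4 + (t : ℂ) * I - (γ : ℂ) * I)‖ * ‖(1 / 4 + (t : ℂ) * I)‖ := by
      calc (1 : ℝ) / 16 = 1 / 4 * (1 / 4) := by norm_num
        _ ≤ _ := mul_le_mul e3 e5 (by norm_num) (by linarith)
    rw [div_le_iff₀ e7]
    have e9 : Real.exp (σ ^ 2 / 2 * ((-1 / 4) ^ 2 - (t - γ) ^ 2) + m * w * |(-1 / 4 : ℝ)|) * Real.exp (-(U / 4)) =
        Real.exp (-(U / 4) + σ ^ 2 / 32 + m * w / 4) * Real.exp (-(σ ^ 2 / 2 * (t - γ) ^ 2)) := by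
      rw [← Real.exp_add, ← Real.exp_add]
      congr 1
      have h6 : |(-1 / 4 : ℝ)| = 1 / 4 := by norm_num [abs_of_neg]
      rw [h6]
      ring
    calc ‖deriv χ.LFunction (1 / 4 + (t : ℂ) * I)‖ * ‖Ek σ w m (-1 / 4 + (t : ℂ) * I - (γ : ℂ) * I)‖ * Real.exp (-(U / 4))
        ≤ (C1 * (r : ℝ) ^ 5 * Real.exp (3 * |t|)) *
          Real.exp (σ ^ 2 / 2 * ((-1 / 4) ^ 2 - (t - γ) ^ 2) + m * w * |(-1 / 4 : ℝ)|) * Real.exp (-(U / 4)) := by
          apply mul_le_mul_of_nonneg_right _ (Real.exp_pos _).le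
          exact mul_le_mul e1 e2 (norm_nonneg _) (by positivity)
      _ = (C1 * (r : ℝ) ^ 5 * Real.exp (3 * |t|)) *
          (Real.exp (σ ^ 2 / 2 * ((-1 / 4) ^ 2 - (t - γ) ^ 2) + m * w * |(-1 / 4 : ℝ)|) * Real.exp (-(U / 4))) := by ring
      _ = A * (Real.exp (3 * |t|) * Real.exp (-(σ ^ 2 / 2 * (t - γ) ^ 2))) * (1 / 16) := by
          rw [e9, hA]
          ring
      _ ≤ _ := by
          apply mul_le_mul_of_nonneg_left e8
          positivity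
  have h1 := norm_integral_le_of_norm_le (hgi.const_mul A) (Filter.Eventually.of_forall hpt)
  refine h1.trans ?_
  rw [integral_const_mul]
  refine (mul_le_mul_of_nonneg_left hgb hA0).trans ?_
  refine le_trans ?_ h5
  rw [hA]
  have h6 : Real.exp (3 * |γ|) ≤ Real.exp (3 * T) := Real.exp_le_exp.mpr (by linarith)
  have h7 : 0 ≤ 2 * Real.exp (9 / (2 * σ ^ 2)) * (Real.sqrt (2 * Real.pi) / σ) := by positivity
  apply mul_le_mul_of_nonneg_left _ (by positivity)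
  exact mul_le_mul_of_nonneg_right h6 h7

end Pool.Agent.SE
end

section

set_option autoImplicit false

/-! Task A9: the pairing in the window. -/

namespace Pool.Agent.SE

open Complex MeasureTheory
open Pool.Agent.SK Pool.Agent.SD
open Pool.Agent.SO (prim NN pt pz MM kw)

/-- A9a. Chebyshev. PROOF. `‖psiC χ x‖ ≤ ψ(x) ≤ C x` (`Chebyshev.psi_le..` as used in the library, e.g. SD/VB, SK), `psiC = 0` for `x < 1`. -/
theorem ff_le : ∃ C : ℝ, 1 ≤ C ∧ ∀ (r : ℕ) (χ : DirichletCharacter ℂ r) (u : ℝ), ‖ff χ u‖ ≤ C * Real.exp (|u| / 2) := by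
  refine ⟨6, by norm_num, fun r χ u => ?_⟩
  unfold ff
  rw [norm_mul, Complex.norm_real, Real.norm_eq_abs, abs_of_pos (Real.exp_pos _)]
  have h1 := Pool.Agent.EM.psiC_le r χ (Real.exp u) (Real.exp_pos u).le
  have h2 : Real.exp u * Real.exp (-u / 2) = Real.exp (u / 2) := by
    rw [← Real.exp_add]; congr 1; ring
  calc ‖Pool.Agent.EM.psiC χ (Real.exp u)‖ * Real.exp (-u / 2)
      ≤ (6 * Real.exp u) * Real.exp (-u / 2) := mul_le_mul_of_nonneg_right h1 (Real.exp_pos _).le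
    _ = 6 * Real.exp (u / 2) := by rw [mul_assoc, h2]
    _ ≤ 6 * Real.exp (|u| / 2) := by
        have : u ≤ |u| := le_abs_self u
        have h3 : Real.exp (u / 2) ≤ Real.exp (|u| / 2) := Real.exp_le_exp.mpr (by linarith)
        linarith

/-- A9b. `ff` is measurable, and square integrable on bounded intervals (piecewise smooth). -/
theorem ff_meas (r : ℕ) (χ : DirichletCharacter ℂ r) : Measurable (ff χ) := by
  unfold ff
  refine Measurable.mul ((Pool.Agent.EM.psiC_measurable χ).comp Real.measurable_exp) ?_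
  have h : Continuous (fun v : ℝ => ((Real.exp (-v / 2) : ℝ) : ℂ)) := by fun_prop
  exact h.measurable

/-- The tail of an integrand bounded by `D exp(-a|v|)`. -/
lemma A9_tail (F : ℝ → ℂ) (D a V : ℝ) (ha : 1 ≤ a) (hV : 0 ≤ V) (hD : 0 ≤ D)
    (hFm : AEStronglyMeasurable F volume) (hF : ∀ v : ℝ, ‖F v‖ ≤ D * Real.exp (-(a * |v|))) :
    Integrable F ∧ ‖(∫ v : ℝ, F v) - ∫ v in (-V)..V, F v‖ ≤ 2 * D * Real.exp (-(a * V)) := by
  have ha0 : 0 < a := by linarith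
  have hIoi : ∀ c : ℝ, 0 ≤ c → IntegrableOn F (Set.Ioi c) ∧
      ‖∫ v in Set.Ioi c, F v‖ ≤ D * Real.exp (-(a * c)) := by
    intro c hc
    have hint : IntegrableOn (fun v : ℝ => D * Real.exp (-a * v)) (Set.Ioi c) :=
      (integrableOn_exp_mul_Ioi (by linarith) c).const_mul D
    have hb : ∀ᵐ v ∂(volume.restrict (Set.Ioi c)), ‖F v‖ ≤ D * Real.exp (-a * v) := by
      refine (ae_restrict_iff' measurableSet_Ioi).mpr (Filter.Eventually.of_forall fun v hv => ?_)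
      have hv0 : 0 < v := lt_of_le_of_lt hc hv
      have := hF v
      rw [abs_of_pos hv0] at this
      rwa [show -a * v = -(a * v) by ring]
    refine ⟨Integrable.mono' hint hFm.restrict hb, ?_⟩
    refine (norm_integral_le_of_norm_le hint hb).trans ?_
    rw [MeasureTheory.integral_const_mul, integral_exp_mul_Ioi (by linarith : -a < 0) c]
    refine mul_le_mul_of_nonneg_left ?_ hD
    rw [show -a * c = -(a * c) by ring, neg_div_neg_eq]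
    rw [div_le_iff₀ ha0]
    have := Real.exp_pos (-(a * c))
    nlinarith
  have hIic : ∀ c : ℝ, 0 ≤ c → IntegrableOn F (Set.Iic (-c)) ∧
      ‖∫ v in Set.Iic (-c), F v‖ ≤ D * Real.exp (-(a * c)) := by
    intro c hc
    have hint : IntegrableOn (fun v : ℝ => D * Real.exp (a * v)) (Set.Iic (-c)) :=
      (integrableOn_exp_mul_Iic ha0 (-c)).const_mul D
    have hb : ∀ᵐ v ∂(volume.restrict (Set.Iic (-c))), ‖F v‖ ≤ D * Real.exp (a * v) := by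
      refine (ae_restrict_iff' measurableSet_Iic).mpr (Filter.Eventually.of_forall fun v hv => ?_)
      have hv0 : v ≤ 0 := le_trans hv (by linarith)
      have := hF v
      rw [abs_of_nonpos hv0] at this
      rwa [show a * v = -(a * -v) by ring]
    refine ⟨Integrable.mono' hint hFm.restrict hb, ?_⟩
    refine (norm_integral_le_of_norm_le hint hb).trans ?_
    rw [MeasureTheory.integral_const_mul, integral_exp_mul_Iic ha0 (-c)]
    refine mul_le_mul_of_nonneg_left ?_ hD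
    rw [show a * -c = -(a * c) by ring, div_le_iff₀ ha0]
    have := Real.exp_pos (-(a * c))
    nlinarith
  have hI : Integrable F := by
    have h1 := (hIoi 0 le_rfl).1
    have h2 := (hIic 0 le_rfl).1
    rw [neg_zero] at h2
    have h3 := h2.union h1
    rwa [Set.Iic_union_Ioi, integrableOn_univ] at h3
  refine ⟨hI, ?_⟩
  have e1 : ∫ v : ℝ, F v = (∫ v in Set.Iic (-V), F v) + ∫ v in Set.Ioi (-V), F v := by
    rw [← MeasureTheory.setIntegral_univ, ← Set.Iic_union_Ioi (a := -V)]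
    exact MeasureTheory.setIntegral_union (Set.Iic_disjoint_Ioi le_rfl) measurableSet_Ioi
      hI.integrableOn hI.integrableOn
  have e2 : ∫ v in Set.Ioi (-V), F v = (∫ v in (-V)..V, F v) + ∫ v in Set.Ioi V, F v := by
    rw [intervalIntegral.integral_of_le (by linarith : -V ≤ V),
      ← Set.Ioc_union_Ioi_eq_Ioi (by linarith : -V ≤ V)]
    exact MeasureTheory.setIntegral_union (Set.Ioc_disjoint_Ioi le_rfl) measurableSet_Ioi
      hI.integrableOn hI.integrableOn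
  have e3 : (∫ v : ℝ, F v) - ∫ v in (-V)..V, F v =
      (∫ v in Set.Iic (-V), F v) + ∫ v in Set.Ioi V, F v := by
    rw [e1, e2]; ring
  rw [e3]
  refine (norm_add_le _ _).trans ?_
  have h1 := (hIoi V hV).2
  have h2 := (hIic V hV).2
  linarith

/-- A9. PROOF. `pair_line`, `Ph_shift`, `Ph_left`: `‖∫ ff(U-v) hk v dv + L'(ρ) exp(iUγ)/ρ‖ ≤ exp(-U/8)`. The part `|v| > V` of the integral:
`‖ff(U-v)‖ ≤ C exp((U+|v|)/2)`, `hk_bound`: at most `C ∫_{|v|>V} exp(U/2 + 17U/2 + |v|/2 - (16U/V)|v|) dv = 2C exp(9U) exp(-(16U/V - 1/2)V)/(16U/V - 1/2)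
≤ C exp(9U - 16U + V/2) ≤ C exp(-6U)` (`16U/V ≥ 32`, `V ≤ U/2`). The numbers: (6) of `regime`. (`∫_{-V}^{V}` + complement = `∫`.) -/
theorem pairing (T : ℝ) (hT : 0 ≤ T) (m : ℕ) (hm : 1 ≤ m) : ∃ r₀ : ℕ, 3 ≤ r₀ ∧ ∀ (r : ℕ) [NeZero r], r₀ ≤ r →
    ∀ χ ∈ prim r, ∀ γ : ℝ, |γ| ≤ T → χ.LFunction (1 / 2 + (γ : ℂ) * I) = 0 → ∀ U : ℝ, 4000 * Real.log r ≤ U →
    ‖(∫ v in (-(VV r U))..(VV r U), ff χ (U - v) * hk χ m U γ v) +
      deriv χ.LFunction (1 / 2 + (γ : ℂ) * I) * Complex.exp ((U : ℂ) * ((γ : ℂ) * I)) / (1 / 2 + (γ : ℂ) * I)‖ ≤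
      Real.exp (-(U / 10)) := by
  obtain ⟨C, hC1, hff⟩ := ff_le
  obtain ⟨r1, hr1, H1⟩ := hk_bound T hT m hm
  obtain ⟨r2, hr2, H2⟩ := Ph_left T hT m hm
  obtain ⟨r3, hr3, H3⟩ := regime (2 * C) T (by linarith) hT m hm
  refine ⟨max r1 (max r2 r3), le_trans hr1 (le_max_left _ _), ?_⟩
  intro r _ hr χ hχ γ hγ h0 U hU
  have hra : r1 ≤ r := le_trans (le_max_left _ _) hr
  have hrb : r2 ≤ r := le_trans (le_trans (le_max_left _ _) (le_max_right _ _)) hr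
  have hrc : r3 ≤ r := le_trans (le_trans (le_max_right _ _) (le_max_right _ _)) hr
  obtain ⟨hV1, hVU, ⟨-, -, hσ, hv⟩, -, -, ⟨h6a, h6b⟩, -, hU1⟩ := H3 r hrc U hU
  have hkb := H1 r hra χ hχ γ hγ h0 U hU
  have hP := H2 r hrb χ hχ γ hγ U hU
  have hr2' : 2 ≤ r := by omega
  have hpl := pair_line r hr2' χ hχ m U γ hσ hv.le h0
  have hps := Ph_shift r hr2' χ hχ m U γ hσ hv.le
  have hkc := hk_cont r hr2' χ hχ m U γ hσ hv.le h0
  set V := VV r U with hVdef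
  set E : ℂ := deriv χ.LFunction (1 / 2 + (γ : ℂ) * I) * Complex.exp ((U : ℂ) * ((γ : ℂ) * I)) / (1 / 2 + (γ : ℂ) * I) with hE
  have hV0 : 0 < V := by linarith
  have hU0 : 0 < U := by linarith
  have hx : 32 ≤ 16 * U / V := by
    rw [le_div_iff₀ hV0]; linarith
  have hFm : AEStronglyMeasurable (fun v : ℝ => ff χ (U - v) * hk χ m U γ v) volume := by
    refine (Measurable.mul ((ff_meas r χ).comp (measurable_const.sub measurable_id)) hkc.measurable).aestronglyMeasurable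
  have hF : ∀ v : ℝ, ‖ff χ (U - v) * hk χ m U γ v‖ ≤
      (C * Real.exp (9 * U)) * Real.exp (-((16 * U / V - 1 / 2) * |v|)) := by
    intro v
    rw [norm_mul]
    have h1 := hff r χ (U - v)
    have h2 := hkb v
    have h3 : |U - v| ≤ U + |v| := by
      have := abs_sub U v
      rwa [abs_of_pos hU0] at this
    have h4 : Real.exp (|U - v| / 2) ≤ Real.exp ((U + |v|) / 2) := Real.exp_le_exp.mpr (by linarith)
    calc ‖ff χ (U - v)‖ * ‖hk χ m U γ v‖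
        ≤ (C * Real.exp ((U + |v|) / 2)) * Real.exp (17 / 2 * U - 16 * U / V * |v|) := by
          refine mul_le_mul (h1.trans ?_) h2 (norm_nonneg _) (by positivity)
          exact mul_le_mul_of_nonneg_left h4 (by linarith)
      _ = (C * Real.exp (9 * U)) * Real.exp (-((16 * U / V - 1 / 2) * |v|)) := by
          rw [mul_assoc, mul_assoc, ← Real.exp_add, ← Real.exp_add]
          congr 2
          ring
  obtain ⟨-, htail⟩ := A9_tail (fun v : ℝ => ff χ (U - v) * hk χ m U γ v) (C * Real.exp (9 * U))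
    (16 * U / V - 1 / 2) V (by linarith) hV0.le (by positivity) hFm hF
  have ht2 : 2 * (C * Real.exp (9 * U)) * Real.exp (-((16 * U / V - 1 / 2) * V)) ≤
      2 * C * Real.exp (-(6 * U)) := by
    have e1 : (16 * U / V - 1 / 2) * V = 16 * U - V / 2 := by
      field_simp
    rw [e1]
    have e2 : 2 * (C * Real.exp (9 * U)) * Real.exp (-(16 * U - V / 2)) =
        2 * C * Real.exp (9 * U + -(16 * U - V / 2)) := by
      rw [Real.exp_add]; ring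
    rw [e2]
    refine mul_le_mul_of_nonneg_left (Real.exp_le_exp.mpr ?_) (by linarith)
    linarith
  have hfull : ‖(∫ v : ℝ, ff χ (U - v) * hk χ m U γ v) + E‖ ≤ Real.exp (-(U / 8)) := by
    rw [hpl, hps]
    have e1 : ∀ J E' : ℂ, (1 / (2 * Real.pi) : ℂ) * (J - 2 * Real.pi * E') + E' =
        (1 / (2 * Real.pi) : ℂ) * J := by
      intro J E'
      have hpi : (Real.pi : ℂ) ≠ 0 := by exact_mod_cast Real.pi_ne_zero
      field_simp
      ring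
    rw [e1, norm_mul]
    have e2 : ‖(1 / (2 * Real.pi) : ℂ)‖ ≤ 1 := by
      rw [norm_div, norm_one, norm_mul, Complex.norm_real, Real.norm_eq_abs, abs_of_pos Real.pi_pos,
        Complex.norm_ofNat, div_le_one (by positivity)]
      linarith [Real.pi_gt_three]
    calc ‖(1 / (2 * Real.pi) : ℂ)‖ * ‖∫ t : ℝ, Ph χ m U γ (-1 / 4 + (t : ℂ) * I)‖
        ≤ 1 * Real.exp (-(U / 8)) := mul_le_mul e2 hP (norm_nonneg _) zero_le_one
      _ = Real.exp (-(U / 8)) := one_mul _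
  have e3 : (∫ v in (-V)..V, ff χ (U - v) * hk χ m U γ v) + E =
      ((∫ v : ℝ, ff χ (U - v) * hk χ m U γ v) + E) -
        ((∫ v : ℝ, ff χ (U - v) * hk χ m U γ v) - ∫ v in (-V)..V, ff χ (U - v) * hk χ m U γ v) := by
    ring
  rw [e3]
  refine (norm_sub_le _ _).trans ?_
  linarith

end Pool.Agent.SE
end
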