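import Mathlib
import Pool.Agent.Lib.MP_9cfc0a_nt.Mg.G012

section

set_option autoImplicit false

/-! Task B1: the derivative at an isolated zero. -/

namespace Pool.Agent.SE

open Complex MeasureTheory

/-- B1a. Subharmonicity on circles. -/
theorem log_le_circleAverage (G : ℂ → ℂ) (hG : Differentiable ℂ G) (c : ℂ) (ρ : ℝ) (hρ : 0 < ρ) (h0 : G c ≠ 0) :
    Real.log ‖G c‖ ≤ Real.circleAverage (fun z => Real.log ‖G z‖) c ρ := by
  have hA : AnalyticOnNhd ℂ G (Metric.closedBall c |ρ|) := fun z _ =>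
    hG.analyticAt z
  rw [AnalyticOnNhd.circleAverage_log_norm hρ.ne' hA h0]
  have hs : 0 ≤ ∑ᶠ u, (MeromorphicOn.divisor G (Metric.closedBall c |ρ|) u : ℝ) * Real.log (ρ * ‖c - u‖⁻¹) := by
    apply finsum_nonneg
    intro u
    by_cases hu : u ∈ Metric.closedBall c |ρ|
    · apply mul_nonneg
      · have := MeromorphicOn.AnalyticOnNhd.divisor_nonneg hA u
        exact_mod_cast this
      · by_cases hcu : u = c
        · subst hcu
          simp
        · apply Real.log_nonneg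
          have h1 : 0 < ‖c - u‖ := norm_pos_iff.mpr (sub_ne_zero.mpr (Ne.symm hcu))
          rw [← div_eq_mul_inv, one_le_div h1]
          rw [Metric.mem_closedBall, dist_comm, dist_eq_norm, abs_of_pos hρ] at hu
          exact hu
    · rw [Function.locallyFinsuppWithin.apply_eq_zero_of_notMem _ hu]
      simp
  linarith

/-- B1b. Without zeros: equality. -/
theorem log_eq_circleAverage (G : ℂ → ℂ) (hG : Differentiable ℂ G) (c : ℂ) (ρ ε : ℝ) (hρ : 0 < ρ) (hρε : ρ < ε)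
    (h0 : ∀ z, ‖z - c‖ < ε → G z ≠ 0) :
    Real.circleAverage (fun z => Real.log ‖G z‖) c ρ = Real.log ‖G c‖ := by
  apply AnalyticOnNhd.circleAverage_log_norm_of_ne_zero (fun z _ => hG.analyticAt z)
  intro u hu
  apply h0
  rw [Metric.mem_closedBall, dist_eq_norm, abs_of_pos hρ] at hu
  linarith

theorem B1_inner (g : ℂ → ℝ) (p : ℂ) (ρ : ℝ) (hρ : 0 < ρ) (hint : CircleIntegrable g p ρ)
    (hn : ∀ z, ‖z - p‖ = ρ → 0 ≤ g z) :
    ∫⁻ θ in Set.Ioo (-Real.pi) Real.pi, ENNReal.ofReal (g (circleMap p ρ θ)) =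
      ENNReal.ofReal (2 * Real.pi * Real.circleAverage g p ρ) := by
  have hper : Function.Periodic (fun θ => g (circleMap p ρ θ)) (2 * Real.pi) := fun x => by
    simp [periodic_circleMap p ρ x]
  have hi : IntervalIntegrable (fun θ => g (circleMap p ρ θ)) volume (-Real.pi) Real.pi :=
    hper.intervalIntegrable₀ (by positivity) hint _ _
  have hle : -Real.pi ≤ Real.pi := by linarith [Real.pi_pos]
  have hi2 : IntegrableOn (fun θ => g (circleMap p ρ θ)) (Set.Ioo (-Real.pi) Real.pi) := by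
    rw [intervalIntegrable_iff_integrableOn_Ioo_of_le hle] at hi
    exact hi
  rw [← ofReal_integral_eq_lintegral_ofReal hi2]
  · congr 1
    rw [← integral_Ioc_eq_integral_Ioo, ← intervalIntegral.integral_of_le hle]
    have h2 := hper.intervalIntegral_add_eq (-Real.pi) 0
    have e1 : -Real.pi + 2 * Real.pi = Real.pi := by ring
    rw [e1, zero_add] at h2
    rw [h2, Real.circleAverage_def, smul_eq_mul]
    field_simp
  · refine Filter.Eventually.of_forall ?_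
    intro θ
    apply hn
    simp [circleMap, abs_of_pos hρ]

theorem B1_polar (g : ℂ → ℝ) (hg : Measurable g) (p : ℂ) (R : ℝ)
    (hint : ∀ ρ, 0 < ρ → ρ < R → CircleIntegrable g p ρ) (hn : ∀ z, ‖z - p‖ < R → 0 ≤ g z) :
    ∫⁻ z in Metric.ball p R, ENNReal.ofReal (g z) =
      ∫⁻ ρ in Set.Ioo 0 R, ENNReal.ofReal ρ * ENNReal.ofReal (2 * Real.pi * Real.circleAverage g p ρ) := by
  set F : ℂ → ENNReal := (Metric.ball p R).indicator (fun z => ENNReal.ofReal (g z)) with hF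
  have hFm : Measurable F := (hg.ennreal_ofReal).indicator Metric.isOpen_ball.measurableSet
  rw [← lintegral_indicator Metric.isOpen_ball.measurableSet]
  change ∫⁻ z, F z = _
  rw [← lintegral_add_left_eq_self F p, ← Complex.lintegral_comp_polarCoord_symm, polarCoord_target,
    Measure.volume_eq_prod, setLIntegral_prod]
  · rw [← lintegral_indicator measurableSet_Ioi, ← lintegral_indicator measurableSet_Ioo]
    apply lintegral_congr
    intro ρ
    by_cases h0 : 0 < ρ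
    · by_cases h1 : ρ < R
      · rw [Set.indicator_of_mem (show ρ ∈ Set.Ioi 0 from h0), Set.indicator_of_mem (show ρ ∈ Set.Ioo 0 R from ⟨h0, h1⟩)]
        rw [← B1_inner g p ρ h0 (hint ρ h0 h1) (fun z hz => hn z (by rw [hz]; exact h1))]
        rw [← lintegral_const_mul]
        · apply lintegral_congr
          intro θ
          rw [smul_eq_mul]
          congr 1
          have e : p + Complex.polarCoord.symm (ρ, θ) = circleMap p ρ θ := by
            rw [Complex.polarCoord_symm_apply, circleMap, Complex.exp_mul_I]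
            push_cast
            ring
          rw [e, hF, Set.indicator_of_mem]
          rw [Metric.mem_ball, dist_eq_norm]
          simp [circleMap, abs_of_pos h0, h1]
        · exact (hg.comp (continuous_circleMap p ρ).measurable).ennreal_ofReal
      · rw [Set.indicator_of_mem (show ρ ∈ Set.Ioi 0 from h0), Set.indicator_of_notMem (fun h => h1 h.2)]
        rw [← lintegral_zero]
        apply lintegral_congr
        intro θ
        rw [hF, Set.indicator_of_notMem, smul_zero]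
        rw [Metric.mem_ball, dist_eq_norm, add_sub_cancel_left, Complex.norm_polarCoord_symm, abs_of_pos h0]
        exact h1
    · rw [Set.indicator_of_notMem (show ρ ∉ Set.Ioi 0 from h0), Set.indicator_of_notMem (fun h => h0 h.1)]
  · apply Measurable.aemeasurable
    simp only [smul_eq_mul]
    apply Measurable.mul
    · exact (measurable_fst).ennreal_ofReal
    · apply hFm.comp
      apply Measurable.const_add
      have : (fun a : ℝ × ℝ => Complex.polarCoord.symm a) = fun a : ℝ × ℝ => (a.1 : ℂ) * (Real.cos a.2 + Real.sin a.2 * Complex.I) := by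
        funext a
        exact Complex.polarCoord_symm_apply a
      change Measurable (fun a : ℝ × ℝ => Complex.polarCoord.symm a)
      rw [this]
      fun_prop

theorem B1_lin (R a : ℝ) (hR : 0 ≤ R) :
    ∫⁻ ρ in Set.Ioo 0 R, ENNReal.ofReal ρ * ENNReal.ofReal a = ENNReal.ofReal (R ^ 2 / 2 * a) := by
  rw [lintegral_mul_const _ (by fun_prop)]
  have h1 : ∫⁻ ρ in Set.Ioo 0 R, ENNReal.ofReal ρ = ENNReal.ofReal (R ^ 2 / 2) := by
    rw [← ofReal_integral_eq_lintegral_ofReal]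
    · congr 1
      rw [← integral_Ioc_eq_integral_Ioo, ← intervalIntegral.integral_of_le hR, integral_id]
      ring
    · rw [← IntegrableOn, ← intervalIntegrable_iff_integrableOn_Ioo_of_le hR]
      exact intervalIntegral.intervalIntegrable_id
    · rw [Filter.EventuallyLE, ae_restrict_iff' measurableSet_Ioo]
      exact Filter.Eventually.of_forall (fun x hx => hx.1.le)
  rw [h1, ← ENNReal.ofReal_mul (by positivity)]

theorem B1_two0 (G : ℂ → ℂ) (hG : Differentiable ℂ G) (c w : ℂ) (ϱ ε : ℝ) (hε : 0 < ε) (hcw : ‖w - c‖ + ε ≤ ϱ)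
    (hM : ∀ z, ‖z - c‖ ≤ ϱ → ‖G z‖ ≤ 1) (hc : G c ≠ 0) (h0 : ∀ z, ‖z - w‖ < ε → G z ≠ 0) :
    ε ^ 2 * (- Real.log ‖G w‖) ≤ ϱ ^ 2 * (- Real.log ‖G c‖) := by
  have hϱ : 0 < ϱ := by
    have := norm_nonneg (w - c)
    linarith
  set g : ℂ → ℝ := fun z => - Real.log ‖G z‖ with hg
  have hgm : Measurable g := by
    have : Measurable fun z => ‖G z‖ := hG.continuous.norm.measurable
    exact (Real.measurable_log.comp this).neg
  have hgi : ∀ (p : ℂ) (ρ : ℝ), CircleIntegrable g p ρ := by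
    intro p ρ
    have h1 : CircleIntegrable (fun z => Real.log ‖G z‖) p ρ :=
      MeromorphicOn.circleIntegrable_log_norm (fun z _ => (hG.analyticAt z).meromorphicAt)
    exact h1.neg
  have hga : ∀ (p : ℂ) (ρ : ℝ), Real.circleAverage g p ρ = - Real.circleAverage (fun z => Real.log ‖G z‖) p ρ := by
    intro p ρ
    rw [Real.circleAverage_def, Real.circleAverage_def]
    simp [hg]
  have hgn : ∀ z, ‖z - c‖ ≤ ϱ → 0 ≤ g z := by
    intro z hz
    have := Real.log_nonpos (norm_nonneg (G z)) (hM z hz)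
    simp only [hg]
    linarith
  have hsub : ∀ z, ‖z - w‖ < ε → ‖z - c‖ ≤ ϱ := by
    intro z hz
    have : z - c = (z - w) + (w - c) := by ring
    rw [this]
    have := norm_add_le (z - w) (w - c)
    linarith
  have hgc : 0 ≤ g c := hgn c (by simp [hϱ.le])
  have hgw : 0 ≤ g w := hgn w (hsub w (by simp [hε]))
  have h1 : ∫⁻ z in Metric.ball w ε, ENNReal.ofReal (g z) = ENNReal.ofReal (ε ^ 2 / 2 * (2 * Real.pi * g w)) := by
    rw [B1_polar g hgm w ε (fun ρ _ _ => hgi w ρ) (fun z hz => hgn z (hsub z hz)), ← B1_lin ε _ hε.le]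
    apply setLIntegral_congr_fun measurableSet_Ioo
    intro ρ hρ
    simp only
    rw [hga, log_eq_circleAverage G hG w ρ ε hρ.1 hρ.2 h0]
  have h2 : ∫⁻ z in Metric.ball c ϱ, ENNReal.ofReal (g z) ≤ ENNReal.ofReal (ϱ ^ 2 / 2 * (2 * Real.pi * g c)) := by
    rw [B1_polar g hgm c ϱ (fun ρ _ _ => hgi c ρ) (fun z hz => hgn z hz.le), ← B1_lin ϱ _ hϱ.le]
    apply setLIntegral_mono' measurableSet_Ioo
    intro ρ hρ
    apply mul_le_mul_right
    apply ENNReal.ofReal_le_ofReal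
    apply mul_le_mul_of_nonneg_left _ (by positivity)
    rw [hga]
    have := log_le_circleAverage G hG c ρ hρ.1 hc
    simp only [hg]
    linarith
  have h3 : ∫⁻ z in Metric.ball w ε, ENNReal.ofReal (g z) ≤ ∫⁻ z in Metric.ball c ϱ, ENNReal.ofReal (g z) := by
    apply lintegral_mono_set
    apply Metric.ball_subset_ball'
    rw [dist_eq_norm]
    linarith
  have h4 := (h1.symm.le.trans h3).trans h2
  rw [ENNReal.ofReal_le_ofReal_iff (by positivity)] at h4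
  have hpi := Real.pi_pos
  have h5 : Real.pi * (ε ^ 2 * g w) ≤ Real.pi * (ϱ ^ 2 * g c) := by nlinarith
  exact le_of_mul_le_mul_left h5 hpi

/-- B1c. Comparison of two centres. -/
theorem two_centres (G : ℂ → ℂ) (hG : Differentiable ℂ G) (c w : ℂ) (ϱ ε M : ℝ) (hε : 0 < ε) (hcw : ‖w - c‖ + ε ≤ ϱ)
    (hM : ∀ z, ‖z - c‖ ≤ ϱ → ‖G z‖ ≤ Real.exp M) (hc : G c ≠ 0) (h0 : ∀ z, ‖z - w‖ < ε → G z ≠ 0) :
    ε ^ 2 * (M - Real.log ‖G w‖) ≤ ϱ ^ 2 * (M - Real.log ‖G c‖) := by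
  have he : Real.exp (-M) ≠ 0 := (Real.exp_pos _).ne'
  have hn : ∀ z, ‖((Real.exp (-M) : ℝ) : ℂ) * G z‖ = Real.exp (-M) * ‖G z‖ := by
    intro z
    rw [norm_mul, Complex.norm_real, Real.norm_eq_abs, abs_of_pos (Real.exp_pos _)]
  have hl : ∀ z, G z ≠ 0 → - Real.log ‖((Real.exp (-M) : ℝ) : ℂ) * G z‖ = M - Real.log ‖G z‖ := by
    intro z hz
    rw [hn z, Real.log_mul he (norm_ne_zero_iff.mpr hz), Real.log_exp]
    ring
  have h := B1_two0 (fun z => ((Real.exp (-M) : ℝ) : ℂ) * G z) (hG.const_mul _) c w ϱ ε hε hcw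
    (fun z hz => by
      rw [hn z]
      have h1 := hM z hz
      calc Real.exp (-M) * ‖G z‖ ≤ Real.exp (-M) * Real.exp M := mul_le_mul_of_nonneg_left h1 (Real.exp_pos _).le
        _ = 1 := by rw [← Real.exp_add]; simp)
    (mul_ne_zero (by exact_mod_cast he) hc)
    (fun z hz => mul_ne_zero (by exact_mod_cast he) (h0 z hz))
  rwa [hl w (h0 w (by simp [hε])), hl c hc] at h

/-- B1d. -/
theorem local_iso (b R K ε₁ : ℝ) (hb : 1 ≤ b) (hR : 2 * b + 8 ≤ R) (hK : 1 ≤ K) (hε : 0 < ε₁) (hε1 : ε₁ ≤ 1) :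
    ∃ c : ℝ, 0 < c ∧ ∀ F : ℂ → ℂ, Differentiable ℂ F → (∀ z, ‖z‖ ≤ R → ‖F z‖ ≤ K) → 1 / 2 ≤ ‖F b‖ →
      ∀ w₀ : ℂ, ‖w₀‖ ≤ 2 → F w₀ = 0 → deriv F w₀ ≠ 0 → (∀ w, ‖w - w₀‖ < ε₁ → F w = 0 → w = w₀) → c ≤ ‖deriv F w₀‖ := by
  refine ⟨Real.exp (Real.log K - ((R - b) / ε₁) ^ 2 * (Real.log K + Real.log (2 * (b + 2)))), Real.exp_pos _, ?_⟩
  intro F hF hFK hFb w₀ hw hFw hd hiso
  have hbn : ‖(b : ℂ)‖ = b := by rw [Complex.norm_real, Real.norm_eq_abs, abs_of_pos (by linarith)]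
  set G : ℂ → ℂ := dslope F w₀ with hGdef
  have hG : Differentiable ℂ G := by
    rw [← differentiableOn_univ, hGdef, Complex.differentiableOn_dslope Filter.univ_mem]
    exact hF.differentiableOn
  have hGw : G w₀ = deriv F w₀ := dslope_same F w₀
  have hGz : ∀ z, z ≠ w₀ → G z = F z / (z - w₀) := by
    intro z hz
    rw [hGdef, dslope_of_ne F hz, slope_def_field, hFw, sub_zero]
  have hR0 : 0 < R := by linarith
  have hGb : ∀ z, ‖z‖ ≤ R → ‖G z‖ ≤ K := by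
    intro z hz
    have hcl : z ∈ closure (Metric.ball (0 : ℂ) R) := by
      rw [closure_ball _ hR0.ne', Metric.mem_closedBall, dist_zero_right]
      exact hz
    refine Complex.norm_le_of_forall_mem_frontier_norm_le Metric.isBounded_ball hG.diffContOnCl ?_ hcl
    intro y hy
    rw [frontier_ball _ hR0.ne', Metric.mem_sphere, dist_zero_right] at hy
    have hyw : R - 2 ≤ ‖y - w₀‖ := by
      have := norm_sub_norm_le y w₀
      linarith
    have hy0 : y ≠ w₀ := by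
      rintro rfl
      linarith
    rw [hGz y hy0, norm_div]
    have h1 : ‖F y‖ ≤ K := hFK y hy.le
    have h2 : (1 : ℝ) ≤ ‖y - w₀‖ := by linarith
    calc ‖F y‖ / ‖y - w₀‖ ≤ ‖F y‖ := div_le_self (norm_nonneg _) h2
      _ ≤ K := h1
  have hbw : (b : ℂ) ≠ w₀ := by
    rintro h
    rw [h, hFw, norm_zero] at hFb
    norm_num at hFb
  have hFb0 : F b ≠ 0 := by
    intro h
    rw [h, norm_zero] at hFb
    norm_num at hFb
  have hwb : ‖w₀ - (b : ℂ)‖ ≤ 2 + b := by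
    have := norm_sub_le w₀ (b : ℂ)
    rw [hbn] at this
    linarith
  have hGc : G b ≠ 0 := by
    rw [hGz b hbw]
    exact div_ne_zero hFb0 (sub_ne_zero.mpr hbw)
  have hmain := two_centres G hG (b : ℂ) w₀ (R - b) ε₁ (Real.log K) hε (by linarith)
    (fun z hz => by
      rw [Real.exp_log (by linarith)]
      apply hGb
      have : z = (z - b) + b := by ring
      rw [this]
      have := norm_add_le (z - b) (b : ℂ)
      rw [hbn] at this
      linarith) hGc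
    (fun z hz => by
      by_cases h : z = w₀
      · rw [h, hGw]
        exact hd
      · rw [hGz z h]
        apply div_ne_zero
        · intro h2
          exact h (hiso z hz h2)
        · exact sub_ne_zero.mpr h)
  have hGbn : 1 / (2 * (b + 2)) ≤ ‖G b‖ := by
    rw [hGz b hbw, norm_div]
    have h1 : 0 < ‖(b : ℂ) - w₀‖ := norm_pos_iff.mpr (sub_ne_zero.mpr hbw)
    rw [le_div_iff₀ h1]
    have h2 : ‖(b : ℂ) - w₀‖ ≤ b + 2 := by rw [norm_sub_rev]; linarith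
    calc 1 / (2 * (b + 2)) * ‖(b : ℂ) - w₀‖ ≤ 1 / (2 * (b + 2)) * (b + 2) :=
          mul_le_mul_of_nonneg_left h2 (by positivity)
      _ = 1 / 2 := by field_simp
      _ ≤ ‖F b‖ := hFb
  have hlog : - Real.log (2 * (b + 2)) ≤ Real.log ‖G b‖ := by
    rw [← Real.log_inv, ← one_div]
    exact Real.log_le_log (by positivity) hGbn
  rw [hGw] at hmain
  have hdn : 0 < ‖deriv F w₀‖ := norm_pos_iff.mpr hd
  rw [← Real.le_log_iff_exp_le hdn]
  have h1 : ε₁ ^ 2 * (Real.log K - Real.log ‖deriv F w₀‖) ≤ (R - b) ^ 2 * (Real.log K + Real.log (2 * (b + 2))) := by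
    refine hmain.trans (mul_le_mul_of_nonneg_left ?_ (sq_nonneg _))
    linarith
  have h2 : Real.log K - Real.log ‖deriv F w₀‖ ≤ (R - b) ^ 2 * (Real.log K + Real.log (2 * (b + 2))) / ε₁ ^ 2 := by
    rw [le_div_iff₀ (by positivity)]
    linarith
  have h3 : ((R - b) / ε₁) ^ 2 * (Real.log K + Real.log (2 * (b + 2))) =
      (R - b) ^ 2 * (Real.log K + Real.log (2 * (b + 2))) / ε₁ ^ 2 := by
    rw [div_pow]
    ring
  rw [h3]
  linarith

end Pool.Agent.SE
end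

section

set_option autoImplicit false

/-! Task C1: the key inequality with two projections, with close pairs. -/

namespace Pool.Agent.SE

open Complex MeasureTheory intervalIntegral
open Pool.Agent.SD
open scoped ComplexConjugate

/-- C1a. PROOF. `a_i = ∫ conj(e_i) exp(zs)`, `a'_i = ∫ conj(e_i) exp(z's)`. The last hypothesis with `g = conj(exp(z's))` gives `∑ ‖a'_i‖² = ∫ ‖exp(z's)‖² ≥ Y`
(`z'.re ≥ 0`). The Bessel hypothesis with `g = conj(exp(zs) - exp(z's))`: `∑ ‖a_i - a'_i‖² ≤ ∫ ‖exp(zs) - exp(z's)‖² ≤ (2κ)² Y`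
(`‖exp(zs)‖ = 1`, `‖1 - exp((z'-z)s)‖ ≤ exp(κ) - 1 ≤ 2κ` on `[0, Y]`, `Complex.norm_exp_sub_one_le`-like). Finally
`‖a‖² ≥ (1 - 2κ)‖a'‖² - (1/(2κ))‖a - a'‖²` (for `κ = 0` directly), sum: `≥ (1-2κ) Y - 2κ Y ≥ Y (1 - 8κ)`. -/
theorem close_trace (Y κ : ℝ) (hY : 0 < Y) (hκ0 : 0 ≤ κ) (hκ1 : κ ≤ 1 / 2) (r : ℕ) (e : Fin r → ℝ → ℂ)
    (he : ∀ i, Continuous (e i))
    (hb : ∀ g : ℝ → ℂ, Continuous g → ∑ i, ‖∫ s in (0 : ℝ)..Y, g s * e i s‖ ^ 2 ≤ ∫ s in (0 : ℝ)..Y, ‖g s‖ ^ 2)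
    (z z' : ℂ) (hz : z.re = 0) (hz' : 0 ≤ z'.re) (hcl : ‖z' - z‖ * Y ≤ κ)
    (hs : ∀ g : ℝ → ℂ, Continuous g →
      ∑ i, (∫ s in (0 : ℝ)..Y, g s * e i s) * (∫ s in (0 : ℝ)..Y, conj (e i s) * exp (z' * s)) =
        ∫ s in (0 : ℝ)..Y, g s * exp (z' * s)) :
    Y * (1 - 8 * κ) ≤ ∑ i, ‖∫ s in (0 : ℝ)..Y, conj (e i s) * exp (z * s)‖ ^ 2 := by
  have hconj : ∀ (g : ℝ → ℂ) (i : Fin r), (∫ s in (0 : ℝ)..Y, conj (g s) * e i s) =
      conj (∫ s in (0 : ℝ)..Y, conj (e i s) * g s) := by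
    intro g i
    rw [← intervalIntegral.intervalIntegral_conj]
    refine integral_congr fun s _ => ?_
    change conj (g s) * e i s = conj (conj (e i s) * g s)
    rw [map_mul, Complex.conj_conj, mul_comm]
  have hcz : ∀ w : ℂ, Continuous fun s : ℝ => exp (w * s) := fun w => by fun_prop
  -- the trace at z'
  have h1 : Y ≤ ∑ i, ‖∫ s in (0 : ℝ)..Y, conj (e i s) * exp (z' * s)‖ ^ 2 := by
    have h2 := hs (fun s => conj (exp (z' * s))) (Complex.continuous_conj.comp (hcz z'))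
    have h3 : ∀ i : Fin r, (∫ s in (0 : ℝ)..Y, conj (exp (z' * s)) * e i s) *
        (∫ s in (0 : ℝ)..Y, conj (e i s) * exp (z' * s)) =
        ((‖∫ s in (0 : ℝ)..Y, conj (e i s) * exp (z' * s)‖ ^ 2 : ℝ) : ℂ) := by
      intro i
      rw [hconj (fun s => exp (z' * s)) i, Complex.conj_mul']
      push_cast
      rfl
    rw [Finset.sum_congr rfl fun i _ => h3 i, ← Complex.ofReal_sum] at h2
    have h4 : (∫ s in (0 : ℝ)..Y, conj (exp (z' * s)) * exp (z' * s)) =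
        ((∫ s in (0 : ℝ)..Y, ‖exp (z' * s)‖ ^ 2 : ℝ) : ℂ) := by
      rw [← intervalIntegral.integral_ofReal]
      refine integral_congr fun s _ => ?_
      change conj (exp (z' * s)) * exp (z' * s) = ((‖exp (z' * s)‖ ^ 2 : ℝ) : ℂ)
      rw [Complex.conj_mul']
      push_cast
      rfl
    rw [h4] at h2
    have h5 : ∑ i, ‖∫ s in (0 : ℝ)..Y, conj (e i s) * exp (z' * s)‖ ^ 2 =
        ∫ s in (0 : ℝ)..Y, ‖exp (z' * s)‖ ^ 2 := Complex.ofReal_injective h2
    rw [h5]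
    have h6 : (∫ _s in (0 : ℝ)..Y, (1 : ℝ)) ≤ ∫ s in (0 : ℝ)..Y, ‖exp (z' * s)‖ ^ 2 := by
      refine intervalIntegral.integral_mono_on hY.le (by simp)
        (((hcz z').norm.pow 2).intervalIntegrable _ _) fun s hs => ?_
      rw [Complex.norm_exp]
      have h7 : (z' * (s : ℂ)).re = z'.re * s := by simp
      rw [h7]
      exact one_le_pow₀ (Real.one_le_exp (mul_nonneg hz' hs.1))
    rw [intervalIntegral.integral_const, smul_eq_mul, mul_one, sub_zero] at h6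
    exact h6
  -- the difference
  have h2 : ∑ i, ‖(∫ s in (0 : ℝ)..Y, conj (e i s) * exp (z * s)) -
      ∫ s in (0 : ℝ)..Y, conj (e i s) * exp (z' * s)‖ ^ 2 ≤ (2 * κ) ^ 2 * Y := by
    have h3 := hb (fun s => conj (exp (z * s) - exp (z' * s)))
      (Complex.continuous_conj.comp ((hcz z).sub (hcz z')))
    have h4 : ∀ i : Fin r, ‖∫ s in (0 : ℝ)..Y, conj (exp (z * s) - exp (z' * s)) * e i s‖ ^ 2 =
        ‖(∫ s in (0 : ℝ)..Y, conj (e i s) * exp (z * s)) -
          ∫ s in (0 : ℝ)..Y, conj (e i s) * exp (z' * s)‖ ^ 2 := by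
      intro i
      rw [hconj (fun s => exp (z * s) - exp (z' * s)) i, RCLike.norm_conj]
      have hce : Continuous fun s : ℝ => conj (e i s) := Complex.continuous_conj.comp (he i)
      have hsub : (∫ s in (0 : ℝ)..Y, (conj (e i s) * exp (z * s) - conj (e i s) * exp (z' * s))) =
          (∫ s in (0 : ℝ)..Y, conj (e i s) * exp (z * s)) -
            ∫ s in (0 : ℝ)..Y, conj (e i s) * exp (z' * s) :=
        intervalIntegral.integral_sub ((hce.mul (hcz z)).intervalIntegrable _ _)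
          ((hce.mul (hcz z')).intervalIntegrable _ _)
      rw [← hsub]
      congr 2
      refine integral_congr fun s _ => ?_
      change conj (e i s) * (exp (z * s) - exp (z' * s)) =
        conj (e i s) * exp (z * s) - conj (e i s) * exp (z' * s)
      ring
    rw [Finset.sum_congr rfl fun i _ => h4 i] at h3
    refine h3.trans ?_
    have h5 : (∫ s in (0 : ℝ)..Y, ‖conj (exp (z * s) - exp (z' * s))‖ ^ 2) ≤
        ∫ _s in (0 : ℝ)..Y, (2 * κ) ^ 2 := by
      refine intervalIntegral.integral_mono_on hY.le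
        (((Complex.continuous_conj.comp ((hcz z).sub (hcz z'))).norm.pow 2).intervalIntegrable _ _)
        (by simp) fun s hs => ?_
      rw [RCLike.norm_conj]
      have h6 : exp (z * s) - exp (z' * s) = -(exp (z * s) * (exp ((z' - z) * s) - 1)) := by
        rw [mul_sub, ← Complex.exp_add, mul_one]
        have h7 : z * s + (z' - z) * s = z' * s := by ring
        rw [h7]
        ring
      have h8 : ‖exp (z * s)‖ = 1 := by
        rw [Complex.norm_exp]
        have h9 : (z * (s : ℂ)).re = 0 := by simp [hz]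
        rw [h9, Real.exp_zero]
      have h10 : ‖(z' - z) * (s : ℂ)‖ ≤ κ := by
        rw [norm_mul, Complex.norm_real, Real.norm_of_nonneg hs.1]
        exact (mul_le_mul_of_nonneg_left hs.2 (norm_nonneg _)).trans hcl
      have h11 := Complex.norm_exp_sub_one_le (h10.trans (by linarith : κ ≤ 1))
      rw [h6, norm_neg, norm_mul, h8, one_mul]
      exact pow_le_pow_left₀ (norm_nonneg _) (h11.trans (by linarith)) 2
    refine h5.trans (le_of_eq ?_)
    rw [intervalIntegral.integral_const, smul_eq_mul, sub_zero, mul_comm]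
  -- the conclusion
  obtain ⟨a, ha⟩ : ∃ a : Fin r → ℂ, a = fun i => ∫ s in (0 : ℝ)..Y, conj (e i s) * exp (z * s) :=
    ⟨_, rfl⟩
  obtain ⟨b, hbdef⟩ : ∃ b : Fin r → ℂ,
    b = fun i => ∫ s in (0 : ℝ)..Y, conj (e i s) * exp (z' * s) := ⟨_, rfl⟩
  have ha' : ∀ i, ∫ s in (0 : ℝ)..Y, conj (e i s) * exp (z * s) = a i := fun i => by rw [ha]
  have hb' : ∀ i, ∫ s in (0 : ℝ)..Y, conj (e i s) * exp (z' * s) = b i := fun i => by rw [hbdef]
  simp only [ha', hb'] at h1 h2 ⊢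
  have h3 : ∀ i, ‖b i‖ ^ 2 - 2 * (‖b i‖ * ‖a i - b i‖) ≤ ‖a i‖ ^ 2 := by
    intro i
    have h4 : ‖b i‖ ≤ ‖a i‖ + ‖a i - b i‖ := by
      have h5 : b i = a i - (a i - b i) := by ring
      calc ‖b i‖ = ‖a i - (a i - b i)‖ := by rw [← h5]
        _ ≤ _ := norm_sub_le _ _
    rcases le_total ‖b i‖ ‖a i - b i‖ with h6 | h6
    · have h7 : ‖b i‖ ^ 2 ≤ ‖b i‖ * ‖a i - b i‖ := by
        rw [sq]
        exact mul_le_mul_of_nonneg_left h6 (norm_nonneg _)
      have h8 : 0 ≤ ‖b i‖ * ‖a i - b i‖ := by positivity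
      have h9 : 0 ≤ ‖a i‖ ^ 2 := by positivity
      linarith
    · have h7 : (‖b i‖ - ‖a i - b i‖) ^ 2 ≤ ‖a i‖ ^ 2 :=
        pow_le_pow_left₀ (by linarith) (by linarith) 2
      nlinarith [sq_nonneg ‖a i - b i‖]
  rcases hκ0.eq_or_lt with hκ | hκ
  · rw [← hκ] at h2 ⊢
    have h4 : ∀ i, ‖a i - b i‖ ^ 2 = 0 := by
      have h5 : ∑ i, ‖a i - b i‖ ^ 2 = 0 := by
        refine le_antisymm (h2.trans (le_of_eq (by ring))) (Finset.sum_nonneg fun i _ => sq_nonneg _)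
      intro i
      exact (Finset.sum_eq_zero_iff_of_nonneg fun i _ => sq_nonneg _).mp h5 i (Finset.mem_univ i)
    have h6 : ∀ i, ‖a i‖ ^ 2 = ‖b i‖ ^ 2 := by
      intro i
      have h7 : a i - b i = 0 := by
        rw [← norm_eq_zero]
        exact pow_eq_zero_iff (two_ne_zero) |>.mp (h4 i)
      rw [sub_eq_zero.mp h7]
    rw [Finset.sum_congr rfl fun i _ => h6 i]
    linarith
  · have h4 : ∀ i, (1 - 2 * κ) * ‖b i‖ ^ 2 - 1 / (2 * κ) * ‖a i - b i‖ ^ 2 ≤ ‖a i‖ ^ 2 := by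
      intro i
      refine le_trans ?_ (h3 i)
      have h5 : 0 ≤ (2 * κ * ‖b i‖ - ‖a i - b i‖) ^ 2 / (2 * κ) := by positivity
      have h6 : (2 * κ * ‖b i‖ - ‖a i - b i‖) ^ 2 / (2 * κ) =
          2 * κ * ‖b i‖ ^ 2 - 2 * (‖b i‖ * ‖a i - b i‖) + 1 / (2 * κ) * ‖a i - b i‖ ^ 2 := by
        field_simp
        ring
      linarith
    have h5 := Finset.sum_le_sum (s := Finset.univ) fun i _ => h4 i
    rw [Finset.sum_sub_distrib, ← Finset.mul_sum, ← Finset.mul_sum] at h5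
    have h6 : 1 / (2 * κ) * ∑ i, ‖a i - b i‖ ^ 2 ≤ 2 * κ * Y := by
      calc 1 / (2 * κ) * ∑ i, ‖a i - b i‖ ^ 2 ≤ 1 / (2 * κ) * ((2 * κ) ^ 2 * Y) :=
            mul_le_mul_of_nonneg_left h2 (by positivity)
        _ = 2 * κ * Y := by
            field_simp
    have h7 : (1 - 2 * κ) * Y ≤ (1 - 2 * κ) * ∑ i, ‖b i‖ ^ 2 :=
      mul_le_mul_of_nonneg_left h1 (by linarith)
    have h8 : 0 ≤ κ * Y := by positivity
    linarith

/-- C1. PROOF. As `key2` in SD/KD.lean (copy it): `key_basis` for `A = S0.filter (0 ≤ re)` (`r₁ ≤ #A`) and for `B = D.filter (0 ≤ re)` (`r₂ ≤ #B`),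
`KD_sum`, `two_systems`. First trace: for `z ∈ S0` `IJ_trace` gives `Y c z`; for `z ∈ S \ S0` (`z.re = 0`, `0 ≤ (c z).re ≤ 1`): `IJ_line` and `close_trace`
(`z' ∈ D` or `-conj z'`, whichever has `re ≥ 0`, is in `D.filter (0 ≤ re) ⊆ A`, `‖-conj z' - z‖ = ‖z' - z‖` as `z.re = 0`): at least `Y (c z).re - 8κY`. Second trace: `z ∈ D`:
`Y c z`; `z ∈ S0 \ D`: `≥ 0`; `z ∈ S \ S0`: at least `Y (c z).re - 8κY`. -/
theorem key3 (Y η κ : ℝ) (hY : 0 < Y) (hκ0 : 0 ≤ κ) (hκ1 : κ ≤ 1 / 2) (S S0 D : Finset ℂ) (h0S : S0 ⊆ S) (hD0 : D ⊆ S0)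
    (h0 : ∀ z ∈ S0, -(conj z) ∈ S0) (hD : ∀ z ∈ D, -(conj z) ∈ D) (hre : ∀ z ∈ S, z ∉ D → z.re = 0)
    (hcl : ∀ z ∈ S, z ∉ S0 → ∃ z' ∈ D, ‖z' - z‖ * Y ≤ κ)
    (c : ℂ → ℂ) (hc : ∀ z ∈ S, z ∉ D → 0 ≤ (c z).re) (hc1 : ∀ z ∈ S, z ∉ S0 → (c z).re ≤ 1)
    (G : ℝ → ℂ) (hG : Continuous G)
    (hE : ∀ t : ℝ, |t| ≤ Y → ‖G t - ∑ z ∈ S, c z * exp (z * t)‖ ≤ η)
    (hsym : ∀ t, 0 ≤ t → t ≤ Y → ‖G (-t)‖ = ‖G t‖) :
    Y / 2 * (2 * (∑ z ∈ S, c z).re + 2 * ((∑ z ∈ D, c z).re + (∑ z ∈ S \ S0, c z).re) -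
        ((S0.filter (fun z => 0 ≤ z.re)).card : ℝ) - 3 * ((D.filter (fun z => 0 ≤ z.re)).card : ℝ) -
        (4 * η + 32 * κ) * (S.card : ℝ)) ≤
      ∫ t in (0 : ℝ)..Y, (1 - t / Y) * ‖G t‖ ^ 2 := by
  classical
  have hη : 0 ≤ η := (norm_nonneg _).trans (hE 0 (by rw [abs_zero]; exact hY.le))
  obtain ⟨r₁, e, hr1, he, he1, heb, hes⟩ := key_basis Y hY (S0.filter (fun z => 0 ≤ z.re))
  obtain ⟨r₂, f, hr2, hf, hf1, hfb, hfs⟩ := key_basis Y hY (D.filter (fun z => 0 ≤ z.re))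
  have hmem : ∀ T : Finset ℂ, (∀ z ∈ T, -(conj z) ∈ T) → ∀ z ∈ T,
      z ∈ T.filter (fun z => 0 ≤ z.re) ∨ -(conj z) ∈ T.filter (fun z => 0 ≤ z.re) := by
    intro T hT z hz
    rcases le_or_gt 0 z.re with h | h
    · exact Or.inl (Finset.mem_filter.2 ⟨hz, h⟩)
    · refine Or.inr (Finset.mem_filter.2 ⟨hT z hz, ?_⟩)
      rw [Complex.neg_re, Complex.conj_re]
      linarith
  have hnD : ∀ z, z ∉ S0 → z ∉ D := fun z hz h => hz (hD0 h)
  -- the near point
  have hnear : ∀ z ∈ S, z ∉ S0 → ∃ z' ∈ D.filter (fun z => 0 ≤ z.re), ‖z' - z‖ * Y ≤ κ := by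
    intro z hz hz0
    obtain ⟨z', hz'D, hz'⟩ := hcl z hz hz0
    rcases hmem D hD z' hz'D with h | h
    · exact ⟨z', h, hz'⟩
    · refine ⟨-(conj z'), h, ?_⟩
      have hzc : conj z = -z := by
        apply Complex.ext <;> simp [hre z hz (hnD z hz0)]
      have h3 : -(conj z') - z = -(conj (z' - z)) := by
        rw [map_sub, hzc]
        ring
      rw [h3, norm_neg, RCLike.norm_conj]
      exact hz'
  have h1 := KD_sum Y η hY S c G hG hE r₁ e he he1
  have h2 := KD_sum Y η hY S c G hG hE r₂ f hf hf1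
  -- the traces
  have hline : ∀ (r : ℕ) (e : Fin r → ℝ → ℂ), ∀ z, z.re = 0 →
      (c z * ∑ i, (∫ s in (0 : ℝ)..Y, exp (-z * s) * e i s) *
        (∫ s in (0 : ℝ)..Y, conj (e i s) * exp (z * s))).re =
      (∑ i, ‖∫ s in (0 : ℝ)..Y, conj (e i s) * exp (z * s)‖ ^ 2) * (c z).re := by
    intro r e z hz
    have h8 : ∑ i, (∫ s in (0 : ℝ)..Y, exp (-z * s) * e i s) *
        (∫ s in (0 : ℝ)..Y, conj (e i s) * exp (z * s)) =
        ((∑ i, ‖∫ s in (0 : ℝ)..Y, conj (e i s) * exp (z * s)‖ ^ 2 : ℝ) : ℂ) := by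
      rw [Complex.ofReal_sum]
      exact Finset.sum_congr rfl fun i _ => IJ_line Y (e i) z hz
    rw [h8, mul_comm, Complex.re_ofReal_mul]
  have hout : ∀ (r : ℕ) (e : Fin r → ℝ → ℂ), (∀ i, Continuous (e i)) →
      (∀ g : ℝ → ℂ, Continuous g →
        ∑ i, ‖∫ s in (0 : ℝ)..Y, g s * e i s‖ ^ 2 ≤ ∫ s in (0 : ℝ)..Y, ‖g s‖ ^ 2) →
      (∀ z' ∈ D.filter (fun z => 0 ≤ z.re), ∀ g : ℝ → ℂ, Continuous g →
        ∑ i, (∫ s in (0 : ℝ)..Y, g s * e i s) * (∫ s in (0 : ℝ)..Y, conj (e i s) * exp (z' * s)) =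
          ∫ s in (0 : ℝ)..Y, g s * exp (z' * s)) →
      Y * (∑ z ∈ S \ S0, c z).re - 8 * κ * Y * (S.card : ℝ) ≤
        (∑ z ∈ S \ S0, c z * ∑ i, (∫ s in (0 : ℝ)..Y, exp (-z * s) * e i s) *
          (∫ s in (0 : ℝ)..Y, conj (e i s) * exp (z * s))).re := by
    intro r e he heb hes
    have h3 : ∀ z ∈ S \ S0, Y * (c z).re - 8 * κ * Y ≤
        (c z * ∑ i, (∫ s in (0 : ℝ)..Y, exp (-z * s) * e i s) *
          (∫ s in (0 : ℝ)..Y, conj (e i s) * exp (z * s))).re := by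
      intro z hz
      obtain ⟨hzS, hz0⟩ := Finset.mem_sdiff.1 hz
      obtain ⟨z', hz', hzz'⟩ := hnear z hzS hz0
      have hzre := hre z hzS (hnD z hz0)
      rw [hline r e z hzre]
      have h4 := close_trace Y κ hY hκ0 hκ1 r e he heb z z' hzre (Finset.mem_filter.1 hz').2 hzz'
        (hes z' hz')
      have h5 := hc z hzS (hnD z hz0)
      have h6 := hc1 z hzS hz0
      have h7 := mul_le_mul_of_nonneg_right h4 h5
      have h8 : κ * Y * (c z).re ≤ κ * Y * 1 :=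
        mul_le_mul_of_nonneg_left h6 (mul_nonneg hκ0 hY.le)
      linarith
    have h4 := Finset.sum_le_sum h3
    rw [← Complex.re_sum, Finset.sum_sub_distrib, ← Finset.mul_sum, ← Complex.re_sum,
      Finset.sum_const, nsmul_eq_mul] at h4
    have h5 : ((S \ S0).card : ℝ) ≤ (S.card : ℝ) := by
      exact_mod_cast Finset.card_le_card Finset.sdiff_subset
    have h6 : ((S \ S0).card : ℝ) * (8 * κ * Y) ≤ (S.card : ℝ) * (8 * κ * Y) :=
      mul_le_mul_of_nonneg_right h5 (by positivity)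
    linarith
  have htr : ∀ (T : Finset ℂ), (∀ z ∈ T, -(conj z) ∈ T) → ∀ (r : ℕ) (e : Fin r → ℝ → ℂ),
      (∀ z ∈ T.filter (fun z => 0 ≤ z.re), ∀ g : ℝ → ℂ, Continuous g →
        ∑ i, (∫ s in (0 : ℝ)..Y, g s * e i s) * (∫ s in (0 : ℝ)..Y, conj (e i s) * exp (z * s)) =
          ∫ s in (0 : ℝ)..Y, g s * exp (z * s)) →
      (∑ z ∈ T, c z * ∑ i, (∫ s in (0 : ℝ)..Y, exp (-z * s) * e i s) *
        (∫ s in (0 : ℝ)..Y, conj (e i s) * exp (z * s))).re = Y * (∑ z ∈ T, c z).re := by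
    intro T hT r e hes
    have h4 : ∑ z ∈ T, c z * ∑ i, (∫ s in (0 : ℝ)..Y, exp (-z * s) * e i s) *
        (∫ s in (0 : ℝ)..Y, conj (e i s) * exp (z * s)) = (Y : ℂ) * ∑ z ∈ T, c z := by
      rw [Finset.mul_sum]
      refine Finset.sum_congr rfl fun z hz => ?_
      rw [IJ_trace Y hY _ r e hes z (hmem T hT z hz), mul_comm]
    rw [h4, Complex.re_ofReal_mul]
  have hsub : D.filter (fun z => 0 ≤ z.re) ⊆ S0.filter (fun z => 0 ≤ z.re) :=
    Finset.filter_subset_filter _ hD0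
  -- the first trace
  have h3 : Y * (∑ z ∈ S, c z).re - 8 * κ * Y * (S.card : ℝ) ≤
      (∑ z ∈ S, c z * ∑ i, (∫ s in (0 : ℝ)..Y, exp (-z * s) * e i s) *
        (∫ s in (0 : ℝ)..Y, conj (e i s) * exp (z * s))).re := by
    rw [← Finset.sum_sdiff h0S, ← Finset.sum_sdiff h0S, Complex.add_re, Complex.add_re,
      htr S0 h0 r₁ e hes]
    have h4 := hout r₁ e he heb fun z' hz' => hes z' (hsub hz')
    linarith
  -- the second trace
  have h5 : Y * ((∑ z ∈ D, c z).re + (∑ z ∈ S \ S0, c z).re) - 8 * κ * Y * (S.card : ℝ) ≤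
      (∑ z ∈ S, c z * ∑ i, (∫ s in (0 : ℝ)..Y, exp (-z * s) * f i s) *
        (∫ s in (0 : ℝ)..Y, conj (f i s) * exp (z * s))).re := by
    rw [← Finset.sum_sdiff h0S, Complex.add_re, ← Finset.sum_sdiff hD0, Complex.add_re,
      htr D hD r₂ f hfs]
    have h4 := hout r₂ f hf hfb hfs
    have h7 : 0 ≤ (∑ z ∈ S0 \ D, c z * ∑ i, (∫ s in (0 : ℝ)..Y, exp (-z * s) * f i s) *
        (∫ s in (0 : ℝ)..Y, conj (f i s) * exp (z * s))).re := by
      rw [Complex.re_sum]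
      refine Finset.sum_nonneg fun z hz => ?_
      obtain ⟨hzS, hzD⟩ := Finset.mem_sdiff.1 hz
      rw [hline r₂ f z (hre z (h0S hzS) hzD)]
      exact mul_nonneg (Finset.sum_nonneg fun i _ => sq_nonneg _) (hc z (h0S hzS) hzD)
    linarith
  have h9 := two_systems Y hY G hG hsym r₁ r₂ e f he hf he1 hf1 heb hfb
  have hr1' : (r₁ : ℝ) ≤ ((S0.filter (fun z => 0 ≤ z.re)).card : ℝ) := by exact_mod_cast hr1
  have hr2' : (r₂ : ℝ) ≤ ((D.filter (fun z => 0 ≤ z.re)).card : ℝ) := by exact_mod_cast hr2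
  have hAS : ((S0.filter (fun z => 0 ≤ z.re)).card : ℝ) ≤ (S.card : ℝ) := by
    exact_mod_cast (Finset.card_filter_le _ _).trans (Finset.card_le_card h0S)
  have hBS : ((D.filter (fun z => 0 ≤ z.re)).card : ℝ) ≤ (S.card : ℝ) := by
    exact_mod_cast (Finset.card_filter_le _ _).trans (Finset.card_le_card (hD0.trans h0S))
  set a := ∑ i, (∫ s in (0 : ℝ)..Y, conj (e i s) * KG Y G (e i) s).re
  set b := ∑ i, (∫ s in (0 : ℝ)..Y, conj (f i s) * KG Y G (f i) s).re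
  set X := ∫ t in (0 : ℝ)..Y, (1 - t / Y) * ‖G t‖ ^ 2
  set CS := (∑ z ∈ S, c z).re
  set CD := (∑ z ∈ D, c z).re
  set CO := (∑ z ∈ S \ S0, c z).re
  have h10 : a + b - Y / 2 * ((r₁ : ℝ) + 3 * (r₂ : ℝ)) ≤ X := by
    have h11 : 2 * Y * (a + b - Y / 2 * ((r₁ : ℝ) + 3 * (r₂ : ℝ))) ≤ 2 * Y * X := by
      refine le_trans (le_of_eq ?_) h9
      ring
    exact le_of_mul_le_mul_left h11 (by linarith)
  have hηY : 0 ≤ η * Y := mul_nonneg hη hY.le
  have h12 : (r₁ : ℝ) * (η * Y) ≤ (S.card : ℝ) * (η * Y) :=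
    mul_le_mul_of_nonneg_right (hr1'.trans hAS) hηY
  have h13 : (r₂ : ℝ) * (η * Y) ≤ (S.card : ℝ) * (η * Y) :=
    mul_le_mul_of_nonneg_right (hr2'.trans hBS) hηY
  have h14 : Y / 2 * (r₁ : ℝ) ≤ Y / 2 * ((S0.filter (fun z => 0 ≤ z.re)).card : ℝ) :=
    mul_le_mul_of_nonneg_left hr1' (by linarith)
  have h15 : Y / 2 * (r₂ : ℝ) ≤ Y / 2 * ((D.filter (fun z => 0 ≤ z.re)).card : ℝ) :=
    mul_le_mul_of_nonneg_left hr2' (by linarith)
  linarith [h1, h2, h3, h5, h10, h12, h13, h14, h15]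

end Pool.Agent.SE
end

section

set_option autoImplicit false

/-! Task C2: the key inequality with the isolated zeros. -/

namespace Pool.Agent.SE

open Complex MeasureTheory intervalIntegral
open Pool.Agent.SD
open scoped ComplexConjugate

/-- C2a. PROOF. Take `C ⊆ N` maximal (`Finset.exists_maximal` on the filtered powerset) with: distinct elements of `C` have distance `> 2d`, and every element of `C` has
distance `> 2d` to every element of `D`. For `z ∈ N \ C` maximality gives `z' ∈ C ∪ D` with `‖z' - z‖ ≤ 2d`. For `x ∈ C` choose `n(x) ∈ N ∪ D`, `n(x) ≠ x`,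
`‖n(x) - x‖ < d` (hypothesis); it is not in `D` and not in `C`, so in `N \ C`; `n` is injective on `C` (`‖x - x'‖ < 2d`). So `#C ≤ #(N \ C)`. -/
theorem choose_C (N D : Finset ℂ) (d : ℝ) (hd : 0 < d)
    (hN : ∀ z ∈ N, ∃ w ∈ N ∪ D, w ≠ z ∧ ‖w - z‖ < d) :
    ∃ C ⊆ N, 2 * C.card ≤ N.card ∧ ∀ z ∈ N, z ∉ C → ∃ z' ∈ C ∪ D, ‖z' - z‖ ≤ 2 * d := by
  classical
  obtain ⟨P, hP⟩ : ∃ P : Finset ℂ → Prop, P = fun C =>
      (∀ x ∈ C, ∀ y ∈ C, x ≠ y → 2 * d < ‖x - y‖) ∧ (∀ x ∈ C, ∀ y ∈ D, 2 * d < ‖x - y‖) := ⟨_, rfl⟩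
  obtain ⟨C, hC, hmax⟩ := Finset.exists_max_image (N.powerset.filter P) Finset.card
    ⟨∅, by rw [Finset.mem_filter, hP]; exact ⟨Finset.empty_mem_powerset N, by simp, by simp⟩⟩
  rw [Finset.mem_filter, Finset.mem_powerset, hP] at hC
  obtain ⟨hCN, hCC, hCD⟩ := hC
  refine ⟨C, hCN, ?_, ?_⟩
  · have hex : ∀ x : ℂ, ∃ w : ℂ, x ∈ C → (w ∈ N \ C ∧ ‖w - x‖ < d) := by
      intro x
      by_cases hx : x ∈ C
      · obtain ⟨w, hw, hwx, hwd⟩ := hN x (hCN hx)
        refine ⟨w, fun _ => ⟨?_, hwd⟩⟩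
        have hwD : w ∉ D := by
          intro h
          have h1 := hCD x hx w h
          rw [norm_sub_rev] at h1
          linarith
        have hwC : w ∉ C := by
          intro h
          have h1 := hCC w h x hx hwx
          linarith
        rw [Finset.mem_union] at hw
        rw [Finset.mem_sdiff]
        exact ⟨hw.resolve_right hwD, hwC⟩
      · exact ⟨0, fun h => absurd h hx⟩
    choose n hn using hex
    have h1 : C.card ≤ (N \ C).card := by
      apply Finset.card_le_card_of_injOn n (fun x hx => (hn x hx).1)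
      intro x hx y hy hxy
      by_contra hne
      have h2 := hCC x hx y hy hne
      have h3 := (hn x hx).2
      have h4 := (hn y hy).2
      rw [hxy] at h3
      have h5 : ‖x - y‖ ≤ ‖x - n y‖ + ‖n y - y‖ := by
        have h6 : x - y = (x - n y) + (n y - y) := by ring
        rw [h6]
        exact norm_add_le _ _
      rw [norm_sub_rev x (n y)] at h5
      linarith
    have h2 := Finset.card_sdiff_add_card_eq_card hCN
    omega
  · intro z hz hzC
    by_contra hcon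
    push Not at hcon
    have hins : insert z C ∈ N.powerset.filter P := by
      rw [Finset.mem_filter, Finset.mem_powerset, hP]
      refine ⟨Finset.insert_subset hz hCN, ?_, ?_⟩
      · intro x hx y hy hxy
        rw [Finset.mem_insert] at hx hy
        rcases hx with rfl | hx
        · rcases hy with rfl | hy
          · exact absurd rfl hxy
          · rw [norm_sub_rev]
            exact hcon y (Finset.mem_union_left _ hy)
        · rcases hy with rfl | hy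
          · exact hcon x (Finset.mem_union_left _ hx)
          · exact hCC x hx y hy hxy
      · intro x hx y hy
        rw [Finset.mem_insert] at hx
        rcases hx with rfl | hx
        · rw [norm_sub_rev]
          exact hcon y (Finset.mem_union_right _ hy)
        · exact hCD x hx y hy
    have h1 := hmax _ hins
    rw [Finset.card_insert_of_notMem hzC] at h1
    omega

open scoped Classical in
/-- C2. PROOF. `I` = the set in the statement, `D₀ = {z ∈ S : ¬(z.re = 0 ∧ m z = 1)}`, `N = S \ (I ∪ D₀)` (good, with a neighbour in `S`; the neighbour of `z ∈ N` is in `D₀`, or good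
and then not in `I` because `z` is near it, so in `N`). `choose_C` gives `C`; `key3` with `S0 = I ∪ C ∪ D₀`, `D = D₀ ∪ C` (elements on the line are fixed by
`z ↦ -conj z`; `D₀` is symmetric by `hms`). `D ∪ (S \ S0) = S \ I` (disjoint), so the bracket is at least
`4 Re ∑_S c - 2 Re ∑_I c - #I - 4 #C - 4 #D₀⁺ - ..`, `Re c ≤ 1` on `I`, `4 #C ≤ 2 #N`, `4 #D₀⁺ ≤ 2 ∑_{D₀} m` (see `count2` in SD/KE.lean: pairs `z, -conj z`), and
`∑_S m = #I + #N + ∑_{D₀} m`: at least `4 Re ∑ c - 2 ∑_S m - #I - ..`. -/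
theorem key_iso (Y η κ d : ℝ) (hY : 0 < Y) (hd : 0 < d) (hκ : 2 * d * Y ≤ κ) (hκ1 : κ ≤ 1 / 2)
    (S : Finset ℂ) (hS : ∀ z ∈ S, -(conj z) ∈ S)
    (m : ℂ → ℝ) (hm : ∀ z ∈ S, m z = 1 ∨ 2 ≤ m z) (hms : ∀ z, m (-(conj z)) = m z)
    (c : ℂ → ℂ) (hc : ∀ z ∈ S, z.re = 0 → m z = 1 → 0 ≤ (c z).re ∧ (c z).re ≤ 1)
    (G : ℝ → ℂ) (hG : Continuous G)
    (hE : ∀ t : ℝ, |t| ≤ Y → ‖G t - ∑ z ∈ S, c z * exp (z * t)‖ ≤ η)
    (hsym : ∀ t, 0 ≤ t → t ≤ Y → ‖G (-t)‖ = ‖G t‖) :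
    Y / 2 * (2 * (2 * (∑ z ∈ S, c z).re - ∑ z ∈ S, m z) -
        ((S.filter (fun z => z.re = 0 ∧ m z = 1 ∧ ∀ w ∈ S, w ≠ z → d ≤ ‖w - z‖)).card : ℝ) -
        (4 * η + 32 * κ) * (S.card : ℝ)) ≤
      ∫ t in (0 : ℝ)..Y, (1 - t / Y) * ‖G t‖ ^ 2 := by
  have hκ0 : 0 ≤ κ := le_trans (by positivity) hκ
  have hre' : ∀ z : ℂ, (-(conj z)).re = -z.re := fun z => by simp
  have hfix : ∀ z : ℂ, z.re = 0 → -(conj z) = z := fun z h => by
    apply Complex.ext
    · simp [h]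
    · simp
  have hcount := count2 S hS m hm hms
  obtain ⟨Gd, hGd⟩ : ∃ Gd, Gd = S.filter (fun z => z.re = 0 ∧ m z = 1) := ⟨_, rfl⟩
  obtain ⟨D0, hD0⟩ : ∃ D0, D0 = S.filter (fun z => ¬ (z.re = 0 ∧ m z = 1)) := ⟨_, rfl⟩
  obtain ⟨J, hJ⟩ : ∃ J, J = S.filter
      (fun z => z.re = 0 ∧ m z = 1 ∧ ∀ w ∈ S, w ≠ z → d ≤ ‖w - z‖) := ⟨_, rfl⟩
  rw [← hJ]
  rw [← hGd, ← hD0] at hcount
  have mG : ∀ z, z ∈ Gd ↔ z ∈ S ∧ (z.re = 0 ∧ m z = 1) := fun z => by rw [hGd, Finset.mem_filter]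
  have mD : ∀ z, z ∈ D0 ↔ z ∈ S ∧ ¬ (z.re = 0 ∧ m z = 1) := fun z => by
    rw [hD0, Finset.mem_filter]
  have mJ : ∀ z, z ∈ J ↔ z ∈ S ∧ (z.re = 0 ∧ m z = 1 ∧ ∀ w ∈ S, w ≠ z → d ≤ ‖w - z‖) := fun z => by
    rw [hJ, Finset.mem_filter]
  clear hGd hD0 hJ
  have hJG : J ⊆ Gd := fun z hz => by
    rw [mJ] at hz
    rw [mG]
    exact ⟨hz.1, hz.2.1, hz.2.2.1⟩
  have hJS : J ⊆ S := fun z hz => ((mJ z).1 hz).1
  have hGS : Gd ⊆ S := fun z hz => ((mG z).1 hz).1
  have hDS : D0 ⊆ S := fun z hz => ((mD z).1 hz).1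
  obtain ⟨C, hCN, hC2, hCmax⟩ := choose_C (Gd \ J) D0 d hd (by
    intro z hz
    rw [Finset.mem_sdiff] at hz
    obtain ⟨hzG, hzJ⟩ := hz
    have hzG' := (mG z).1 hzG
    have hex : ∃ w ∈ S, w ≠ z ∧ ‖w - z‖ < d := by
      by_contra hcon
      push Not at hcon
      exact hzJ ((mJ z).2 ⟨hzG'.1, hzG'.2.1, hzG'.2.2, hcon⟩)
    obtain ⟨w, hwS, hwz, hwd⟩ := hex
    refine ⟨w, ?_, hwz, hwd⟩
    rw [Finset.mem_union, Finset.mem_sdiff]
    by_cases hg : w.re = 0 ∧ m w = 1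
    · left
      refine ⟨(mG w).2 ⟨hwS, hg⟩, fun hwJ => ?_⟩
      have h1 := ((mJ w).1 hwJ).2.2.2 z hzG'.1 hwz.symm
      rw [norm_sub_rev] at h1
      linarith
    · right
      exact (mD w).2 ⟨hwS, hg⟩)
  have hCG : C ⊆ Gd := fun z hz => (Finset.mem_sdiff.1 (hCN hz)).1
  have hCJ : ∀ z ∈ C, z ∉ J := fun z hz => (Finset.mem_sdiff.1 (hCN hz)).2
  have hCS : C ⊆ S := hCG.trans hGS
  have hDsym : ∀ z ∈ D0, -(conj z) ∈ D0 := by
    intro z hz
    have h1 := (mD z).1 hz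
    refine (mD _).2 ⟨hS z h1.1, fun h => h1.2 ⟨?_, ?_⟩⟩
    · have h0 := h.1
      rw [hre' z] at h0
      linarith
    · rw [← hms z]
      exact h.2
  have hgood : ∀ z ∈ S, z ∉ D0 → z.re = 0 ∧ m z = 1 := by
    intro z hz hzD
    by_contra h
    exact hzD ((mD z).2 ⟨hz, h⟩)
  -- membership in the two sets
  have m0 : ∀ z, z ∈ J ∪ C ∪ D0 ↔ (z ∈ J ∨ z ∈ C) ∨ z ∈ D0 := fun z => by
    rw [Finset.mem_union, Finset.mem_union]
  have m1 : ∀ z, z ∈ D0 ∪ C ↔ z ∈ D0 ∨ z ∈ C := fun z => by rw [Finset.mem_union]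
  have h0S : J ∪ C ∪ D0 ⊆ S := Finset.union_subset (Finset.union_subset hJS hCS) hDS
  have hD0S : D0 ∪ C ⊆ J ∪ C ∪ D0 := by
    intro z hz
    rw [m1] at hz
    rw [m0]
    rcases hz with h | h
    · exact Or.inr h
    · exact Or.inl (Or.inr h)
  have hk := key3 Y η κ hY hκ0 hκ1 S (J ∪ C ∪ D0) (D0 ∪ C) h0S hD0S
    (by
      intro z hz
      rw [m0] at hz ⊢
      rcases hz with (h | h) | h
      · rw [hfix z ((mJ z).1 h).2.1]
        exact Or.inl (Or.inl h)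
      · rw [hfix z ((mG z).1 (hCG h)).2.1]
        exact Or.inl (Or.inr h)
      · exact Or.inr (hDsym z h))
    (by
      intro z hz
      rw [m1] at hz ⊢
      rcases hz with h | h
      · exact Or.inl (hDsym z h)
      · rw [hfix z ((mG z).1 (hCG h)).2.1]
        exact Or.inr h)
    (by
      intro z hz hzD
      exact (hgood z hz fun h => hzD ((m1 z).2 (Or.inl h))).1)
    (by
      intro z hz hz0
      have hzD : z ∉ D0 := fun h => hz0 ((m0 z).2 (Or.inr h))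
      have hzJ : z ∉ J := fun h => hz0 ((m0 z).2 (Or.inl (Or.inl h)))
      have hzC : z ∉ C := fun h => hz0 ((m0 z).2 (Or.inl (Or.inr h)))
      obtain ⟨z', hz', hle⟩ := hCmax z
        (Finset.mem_sdiff.2 ⟨(mG z).2 ⟨hz, hgood z hz hzD⟩, hzJ⟩) hzC
      refine ⟨z', ?_, ?_⟩
      · rw [Finset.mem_union] at hz' ⊢
        exact hz'.symm
      · exact (mul_le_mul_of_nonneg_right hle hY.le).trans hκ)
    c
    (by
      intro z hz hzD
      have h1 := hgood z hz fun h => hzD ((m1 z).2 (Or.inl h))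
      exact (hc z hz h1.1 h1.2).1)
    (by
      intro z hz hz0
      have h1 := hgood z hz fun h => hz0 ((m0 z).2 (Or.inr h))
      exact (hc z hz h1.1 h1.2).2)
    G hG hE hsym
  refine le_trans (mul_le_mul_of_nonneg_left ?_ (by linarith)) hk
  -- the sums
  have hdisj : Disjoint (D0 ∪ C) (S \ (J ∪ C ∪ D0)) :=
    Finset.disjoint_sdiff.mono_left hD0S
  have hun : (D0 ∪ C) ∪ (S \ (J ∪ C ∪ D0)) = S \ J := by
    ext z
    rw [Finset.mem_union, Finset.mem_sdiff, Finset.mem_sdiff, m1, m0]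
    constructor
    · rintro ((h | h) | h)
      · refine ⟨hDS h, fun hzJ => ?_⟩
        exact ((mD z).1 h).2 ((mG z).1 (hJG hzJ)).2
      · exact ⟨hCS h, hCJ z h⟩
      · exact ⟨h.1, fun hzJ => h.2 (Or.inl (Or.inl hzJ))⟩
    · rintro ⟨hzS, hzJ⟩
      by_cases h1 : z ∈ D0
      · exact Or.inl (Or.inl h1)
      · by_cases h2 : z ∈ C
        · exact Or.inl (Or.inr h2)
        · refine Or.inr ⟨hzS, ?_⟩
          rintro ((h | h) | h)
          · exact hzJ h
          · exact h2 h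
          · exact h1 h
  have hs1 : (∑ z ∈ D0 ∪ C, c z).re + (∑ z ∈ S \ (J ∪ C ∪ D0), c z).re = (∑ z ∈ S \ J, c z).re := by
    rw [← Complex.add_re, ← Finset.sum_union hdisj, hun]
  have hs2 : (∑ z ∈ S \ J, c z).re + (∑ z ∈ J, c z).re = (∑ z ∈ S, c z).re := by
    rw [← Complex.add_re, Finset.sum_sdiff hJS]
  have hs3 : (∑ z ∈ J, c z).re ≤ (J.card : ℝ) := by
    rw [Complex.re_sum]
    refine (Finset.sum_le_card_nsmul _ _ 1 ?_).trans ?_
    · intro z hz
      have h1 := (mJ z).1 hz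
      exact (hc z h1.1 h1.2.1 h1.2.2.1).2
    · rw [nsmul_eq_mul, mul_one]
  -- the cardinalities
  have hn1 : (((J ∪ C ∪ D0).filter (fun z => 0 ≤ z.re)).card : ℝ) ≤
      (J.card : ℝ) + (C.card : ℝ) + ((D0.filter (fun z => 0 ≤ z.re)).card : ℝ) := by
    have h1 : ((J ∪ C ∪ D0).filter (fun z => 0 ≤ z.re)).card ≤
        J.card + C.card + (D0.filter (fun z => 0 ≤ z.re)).card := by
      rw [Finset.filter_union]
      refine (Finset.card_union_le _ _).trans ?_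
      apply Nat.add_le_add_right
      exact (Finset.card_filter_le _ _).trans (Finset.card_union_le _ _)
    exact_mod_cast h1
  have hn2 : (((D0 ∪ C).filter (fun z => 0 ≤ z.re)).card : ℝ) ≤
      ((D0.filter (fun z => 0 ≤ z.re)).card : ℝ) + (C.card : ℝ) := by
    have h1 : ((D0 ∪ C).filter (fun z => 0 ≤ z.re)).card ≤
        (D0.filter (fun z => 0 ≤ z.re)).card + C.card := by
      rw [Finset.filter_union]
      refine (Finset.card_union_le _ _).trans ?_
      apply Nat.add_le_add_left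
      exact Finset.card_filter_le _ _
    exact_mod_cast h1
  have hn3 : (Gd.card : ℝ) + ((D0.filter (fun z => 0 ≤ z.re)).card : ℝ) ≤
      ((S.filter (fun z => 0 ≤ z.re)).card : ℝ) := by
    have h1 : Disjoint Gd (D0.filter (fun z => 0 ≤ z.re)) := by
      rw [Finset.disjoint_left]
      intro z hz hz'
      exact ((mD z).1 (Finset.mem_filter.1 hz').1).2 ((mG z).1 hz).2
    have h2 : Gd ∪ D0.filter (fun z => 0 ≤ z.re) ⊆ S.filter (fun z => 0 ≤ z.re) := by
      intro z hz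
      rw [Finset.mem_union] at hz
      rw [Finset.mem_filter]
      rcases hz with h | h
      · exact ⟨hGS h, le_of_eq ((mG z).1 h).2.1.symm⟩
      · rw [Finset.mem_filter] at h
        exact ⟨hDS h.1, h.2⟩
    have h3 := Finset.card_le_card h2
    rw [Finset.card_union_of_disjoint h1] at h3
    exact_mod_cast h3
  have hn4 : ((Gd \ J).card : ℝ) + (J.card : ℝ) = (Gd.card : ℝ) := by
    exact_mod_cast Finset.card_sdiff_add_card_eq_card hJG
  have hn5 : 2 * (C.card : ℝ) ≤ ((Gd \ J).card : ℝ) := by exact_mod_cast hC2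
  rw [hs1]
  linarith

end Pool.Agent.SE
end
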