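import Pool.Agent.Lib.MP_9cfc0a_nt.SE.Defs
import Pool.Agent.Lib.MP_9cfc0a_nt.Mg.G052
import Pool.Agent.Lib.MP_9cfc0a_nt.Mg.G004
import Pool.Agent.Lib.MP_9cfc0a_nt.Mg.G002
import Pool.Agent.Lib.MP_9cfc0a_nt.Mg.G011
import Pool.Agent.Lib.MP_9cfc0a_nt.Mg.G009
import Pool.Agent.Lib.MP_9cfc0a_nt.SK.F2

section

set_option autoImplicit false

/-! Task B2: good cells. -/

namespace Pool.Agent.SE

open Complex MeasureTheory
open Pool.Agent.SK Pool.Agent.SD
open Pool.Agent.SO (prim NN pt pz MM kw)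

theorem B2_log (r : ℕ) (hr : 3 ≤ r) : 1 ≤ Real.log r := by
  have hr0 : (0 : ℝ) < r := by exact_mod_cast (by omega : 0 < r)
  rw [Real.le_log_iff_exp_le hr0]
  have h1 := Real.exp_one_lt_d9
  have h2 : (3 : ℝ) ≤ r := by exact_mod_cast hr
  linarith

theorem B2_ne_one (r : ℕ) [NeZero r] (hr : 2 ≤ r) (χ : DirichletCharacter ℂ r) (hχ : χ ∈ prim r) : χ ≠ 1 :=
  (SK.prim_spec r hr χ hχ).2

theorem B2_entire (r : ℕ) [NeZero r] (hr : 2 ≤ r) (χ : DirichletCharacter ℂ r) (hχ : χ ∈ prim r) (c : ℂ) (t : ℝ) :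
    Differentiable ℂ (fun z : ℂ => χ.LFunction (pz r t z) * c) := fun z =>
  (SO.deriv_L_pz r hr χ (B2_ne_one r hr χ hχ) c t z).differentiableAt

theorem B2_pz (r : ℕ) (hr : 3 ≤ r) (t γ : ℝ) :
    pz r t ((((γ - t) * Real.log r : ℝ) : ℂ) * I) = 1 / 2 + (γ : ℂ) * I := by
  have h1 := B2_log r hr
  have h2 : (Real.log r : ℂ) ≠ 0 := by
    exact_mod_cast (by linarith : Real.log r ≠ 0)
  unfold pz
  rw [Complex.ofReal_mul, Complex.ofReal_sub]
  field_simp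
  ring

theorem B2_norm (r : ℕ) (hr : 3 ≤ r) (t γ B : ℝ) (h : |γ - t| ≤ B / Real.log r) :
    ‖(((γ - t) * Real.log r : ℝ) : ℂ) * I‖ ≤ B := by
  have h1 := B2_log r hr
  rw [norm_mul, Complex.norm_I, mul_one, Complex.norm_real, Real.norm_eq_abs, abs_mul, abs_of_pos (show (0 : ℝ) < Real.log r by linarith)]
  rwa [le_div_iff₀ (by linarith)] at h

/-- maximum principle for the difference quotient -/
theorem B2_dslope (F : ℂ → ℂ) (hF : Differentiable ℂ F) (R K : ℝ) (hR : 3 ≤ R) (hK : ∀ z, ‖z‖ ≤ R → ‖F z‖ ≤ K)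
    (w₀ : ℂ) (hw : ‖w₀‖ ≤ 2) (h0 : F w₀ = 0) (z : ℂ) (hz : ‖z‖ ≤ R) : ‖dslope F w₀ z‖ ≤ K := by
  have hd : Differentiable ℂ (dslope F w₀) := by
    rw [← differentiableOn_univ]
    exact (Complex.differentiableOn_dslope Filter.univ_mem).2 hF.differentiableOn
  have hR0 : R ≠ 0 := by linarith
  have hK0 : 0 ≤ K := (norm_nonneg _).trans (hK 0 (by rw [norm_zero]; linarith))
  refine Complex.norm_le_of_forall_mem_frontier_norm_le (U := Metric.ball (0 : ℂ) R) Metric.isBounded_ball hd.diffContOnCl ?_ ?_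
  · intro y hy
    rw [frontier_ball _ hR0, mem_sphere_zero_iff_norm] at hy
    have h1 : R - 2 ≤ ‖y - w₀‖ := by
      have := norm_sub_norm_le y w₀
      linarith
    have hne : y ≠ w₀ := by
      rintro rfl
      rw [sub_self, norm_zero] at h1
      linarith
    rw [dslope_of_ne _ hne, slope_def_field, h0, sub_zero, norm_div, div_le_iff₀ (by linarith)]
    have h2 := hK y hy.le
    nlinarith [norm_nonneg (F y)]
  · rw [closure_ball _ hR0, mem_closedBall_zero_iff]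
    exact hz

/-- B2a. PROOF. `SO.sq_le_circleAverage` as in SO/R2.lean, item (1): `‖F z‖² ≤ (R+1) exp(7R) ≤ exp(8R)` on `‖z‖ ≤ R`. -/
theorem cell_le (r : ℕ) [NeZero r] (hr : 2 ≤ r) (χ : DirichletCharacter ℂ r) (hχ : χ ∈ prim r) (b R K : ℝ) (hR : 1 ≤ R) (m : ℕ)
    (t : ℝ) (h : gd r b R K m χ t) (z : ℂ) (hz : ‖z‖ ≤ R) :
    ‖χ.LFunction (pz r t z) * MM r χ (pt r b t)‖ ≤ Real.exp (4 * R) := by
  have hf := B2_entire r hr χ hχ (MM r χ (pt r b t)) t
  have h1 := SO.sq_le_circleAverage _ hf R (Real.exp (7 * R)) hR h.1 z hz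
  have h2 : R + 1 ≤ Real.exp R := Real.add_one_le_exp R
  have h3 : (R + 1) * Real.exp (7 * R) ≤ Real.exp (4 * R) ^ 2 := by
    calc (R + 1) * Real.exp (7 * R) ≤ Real.exp R * Real.exp (7 * R) := by gcongr
      _ = Real.exp (4 * R) ^ 2 := by
          rw [← Real.exp_add, ← Real.exp_nat_mul]; congr 1; push_cast; ring
  exact (pow_le_pow_iff_left₀ (norm_nonneg _) (Real.exp_pos _).le (by norm_num)).mp (h1.trans h3)

/-- B2b. PROOF. `F z = L(pz r t z) M`, `ℓ = log r ≥ 1`, `w₀ = (γ - t) ℓ i`, `‖w₀‖ ≤ 2`, `F w₀ = 0`. For `z = (t' - t) ℓ i`, `‖z‖ ≤ 4 ≤ R`: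
`dslope (L(1/2+·)) (iγ) (it') * M = ℓ * dslope F w₀ z` (`1/2 + it' = pz r t z`; for `t' ≠ γ` both are `F z/(i(t'-γ))`, for `t' = γ` derivatives,
`SO.deriv_L_pz`). Maximum principle for `dslope F w₀` on `‖z‖ ≤ R`: on `‖z‖ = R` it is at most `exp(4R)/(R-2) ≤ exp(4R)`. -/
theorem cell_upper (r : ℕ) [NeZero r] (hr : 3 ≤ r) (χ : DirichletCharacter ℂ r) (hχ : χ ∈ prim r) (b R K : ℝ) (hR : 8 ≤ R) (m : ℕ)
    (t : ℝ) (h : gd r b R K m χ t) (γ : ℝ) (hγ : |γ - t| ≤ 2 / Real.log r) (h0 : χ.LFunction (1 / 2 + (γ : ℂ) * I) = 0)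
    (t' : ℝ) (ht' : |t' - t| ≤ 4 / Real.log r) :
    ‖dslope (fun z : ℂ => χ.LFunction (1 / 2 + z)) ((γ : ℂ) * I) ((t' : ℂ) * I)‖ * ‖MM r χ (pt r b t)‖ ≤ Real.exp (4 * R) * Real.log r := by
  have hℓ := B2_log r hr
  have hℓ0 : (0 : ℝ) < Real.log r := by linarith
  have hℓc : (Real.log r : ℂ) ≠ 0 := by exact_mod_cast hℓ0.ne'
  have hχ1 := B2_ne_one r (by omega) χ hχ
  set m0 : ℂ := MM r χ (pt r b t) with hm0
  set F : ℂ → ℂ := fun z => χ.LFunction (pz r t z) * m0 with hF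
  have hFe : Differentiable ℂ F := B2_entire r (by omega) χ hχ m0 t
  have hFK : ∀ z, ‖z‖ ≤ R → ‖F z‖ ≤ Real.exp (4 * R) := fun z hz =>
    cell_le r (by omega) χ hχ b R K (by linarith) m t h z hz
  have hF0 : F ((((γ - t) * Real.log r : ℝ) : ℂ) * I) = 0 := by
    show χ.LFunction (pz r t ((((γ - t) * Real.log r : ℝ) : ℂ) * I)) * m0 = 0
    rw [B2_pz r hr, h0, zero_mul]
  have hb := B2_dslope F hFe R (Real.exp (4 * R)) (by linarith) hFK _ (B2_norm r hr t γ 2 hγ) hF0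
    ((((t' - t) * Real.log r : ℝ) : ℂ) * I) ((B2_norm r hr t t' 4 ht').trans (by linarith))
  have key : dslope (fun z : ℂ => χ.LFunction (1 / 2 + z)) ((γ : ℂ) * I) ((t' : ℂ) * I) * m0 =
      (Real.log r : ℂ) * dslope F ((((γ - t) * Real.log r : ℝ) : ℂ) * I) ((((t' - t) * Real.log r : ℝ) : ℂ) * I) := by
    by_cases hne : t' = γ
    · subst hne
      rw [dslope_same, dslope_same]
      have h1 : HasDerivAt F (deriv χ.LFunction (pz r t ((((t' - t) * Real.log r : ℝ) : ℂ) * I)) * m0 / (Real.log r : ℂ)) _ :=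
        SO.deriv_L_pz r (by omega) χ hχ1 m0 t ((((t' - t) * Real.log r : ℝ) : ℂ) * I)
      have h2 : deriv (fun z : ℂ => χ.LFunction (1 / 2 + z)) ((t' : ℂ) * I) = deriv χ.LFunction (1 / 2 + (t' : ℂ) * I) := by
        rw [deriv_comp_const_add]
      rw [h1.deriv, h2, B2_pz r hr]
      field_simp
    · have hne1 : ((t' : ℂ) * I) ≠ ((γ : ℂ) * I) := by
        intro h1
        exact hne (by exact_mod_cast mul_right_cancel₀ I_ne_zero h1)
      have hd : ((t' : ℂ) - (γ : ℂ)) ≠ 0 := by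
        rw [sub_ne_zero]
        exact_mod_cast hne
      have hne2 : ((((t' - t) * Real.log r : ℝ) : ℂ) * I) ≠ ((((γ - t) * Real.log r : ℝ) : ℂ) * I) := by
        intro h1
        have h2 := mul_right_cancel₀ I_ne_zero h1
        have h3 : (t' - t) * Real.log r = (γ - t) * Real.log r := by exact_mod_cast h2
        exact hne (by linarith [mul_right_cancel₀ hℓ0.ne' h3])
      rw [dslope_of_ne _ hne1, dslope_of_ne _ hne2, slope_def_field, slope_def_field, hF0]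
      show (χ.LFunction (1 / 2 + (t' : ℂ) * I) - χ.LFunction (1 / 2 + (γ : ℂ) * I)) / ((t' : ℂ) * I - (γ : ℂ) * I) * m0 =
        (Real.log r : ℂ) * ((χ.LFunction (pz r t ((((t' - t) * Real.log r : ℝ) : ℂ) * I)) * m0 - 0) /
          ((((t' - t) * Real.log r : ℝ) : ℂ) * I - (((γ - t) * Real.log r : ℝ) : ℂ) * I))
      rw [B2_pz r hr, h0, sub_zero, sub_zero]
      have h4 : ((((t' - t) * Real.log r : ℝ) : ℂ) * I - (((γ - t) * Real.log r : ℝ) : ℂ) * I) =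
          (Real.log r : ℂ) * (((t' : ℂ) - γ) * I) := by push_cast; ring
      have h5 : ((t' : ℂ) * I - (γ : ℂ) * I) = ((t' : ℂ) - γ) * I := by ring
      rw [h4, h5]
      field_simp [I_ne_zero]
  rw [← norm_mul, key, norm_mul, Complex.norm_real, Real.norm_of_nonneg hℓ0.le, mul_comm]
  exact mul_le_mul_of_nonneg_right hb hℓ0.le

/-- B2c. PROOF. `local_iso b R (exp(4R)) ε₁` for `F z = L(pz r t z) M` (`cell_le`; `‖F b‖ ≥ 1/2` from `‖LM - 1‖ ≤ 1/2`, `SO.pz_real`),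
`deriv F w₀ = L'(1/2+iγ) M/log r` (`SO.deriv_L_pz`), zeros: `F w = 0` iff `L(pz r t w) = 0` (`M ≠ 0` as `F b ≠ 0`), `pz r t w - (1/2+iγ) = (w - w₀)/log r`. -/
theorem cell_lower (b R ε₁ : ℝ) (hb : 1 ≤ b) (hR : 2 * b + 8 ≤ R) (hε : 0 < ε₁) (hε1 : ε₁ ≤ 1) :
    ∃ c : ℝ, 0 < c ∧ ∀ (r : ℕ) [NeZero r], 3 ≤ r → ∀ χ ∈ prim r, ∀ (K : ℝ) (m : ℕ) (t : ℝ), gd r b R K m χ t →
      ∀ γ : ℝ, |γ - t| ≤ 2 / Real.log r → χ.LFunction (1 / 2 + (γ : ℂ) * I) = 0 → deriv χ.LFunction (1 / 2 + (γ : ℂ) * I) ≠ 0 →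
      (∀ s : ℂ, χ.LFunction s = 0 → ‖s - (1 / 2 + (γ : ℂ) * I)‖ < ε₁ / Real.log r → s = 1 / 2 + (γ : ℂ) * I) →
      c * Real.log r ≤ ‖deriv χ.LFunction (1 / 2 + (γ : ℂ) * I)‖ * ‖MM r χ (pt r b t)‖ := by
  obtain ⟨c, hc, hiso⟩ := local_iso b R (Real.exp (4 * R)) ε₁ hb hR (Real.one_le_exp (by linarith)) hε hε1
  refine ⟨c, hc, ?_⟩
  intro r _ hr χ hχ K m t h γ hγ h0 hd hz
  have hℓ := B2_log r hr
  have hℓ0 : (0 : ℝ) < Real.log r := by linarith
  have hℓc : (Real.log r : ℂ) ≠ 0 := by exact_mod_cast hℓ0.ne'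
  have hχ1 := B2_ne_one r (by omega) χ hχ
  set m0 : ℂ := MM r χ (pt r b t) with hm0
  set F : ℂ → ℂ := fun z => χ.LFunction (pz r t z) * m0 with hF
  have hFe : Differentiable ℂ F := B2_entire r (by omega) χ hχ m0 t
  have hFK : ∀ z, ‖z‖ ≤ R → ‖F z‖ ≤ Real.exp (4 * R) := fun z hz =>
    cell_le r (by omega) χ hχ b R K (by linarith) m t h z hz
  have hFb : 1 / 2 ≤ ‖F (b : ℂ)‖ := by
    have h2 : F (b : ℂ) = χ.LFunction (pt r b t) * m0 := by
      show χ.LFunction (pz r t (b : ℂ)) * m0 = _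
      rw [SO.pz_real]
    have h3 : ‖χ.LFunction (pt r b t) * m0 - 1‖ ≤ 1 / 2 := h.2.1
    have h1 : ‖(1 : ℂ)‖ ≤ ‖χ.LFunction (pt r b t) * m0 - 1‖ + ‖χ.LFunction (pt r b t) * m0‖ := by
      calc ‖(1 : ℂ)‖ = ‖-(χ.LFunction (pt r b t) * m0 - 1) + χ.LFunction (pt r b t) * m0‖ := by congr 1; ring
        _ ≤ ‖-(χ.LFunction (pt r b t) * m0 - 1)‖ + ‖χ.LFunction (pt r b t) * m0‖ := norm_add_le _ _
        _ = _ := by rw [norm_neg]
    rw [norm_one] at h1
    rw [h2]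
    linarith
  have hm00 : m0 ≠ 0 := by
    intro h1
    have h2 : F (b : ℂ) = 0 := by
      show χ.LFunction (pz r t (b : ℂ)) * m0 = 0
      rw [h1, mul_zero]
    rw [h2, norm_zero] at hFb
    norm_num at hFb
  have hw := B2_norm r hr t γ 2 hγ
  have hpz := B2_pz r hr t γ
  set w₀ : ℂ := (((γ - t) * Real.log r : ℝ) : ℂ) * I with hw₀
  have hF0 : F w₀ = 0 := by
    show χ.LFunction (pz r t w₀) * m0 = 0
    rw [hpz, h0, zero_mul]
  have hder : deriv F w₀ = deriv χ.LFunction (1 / 2 + (γ : ℂ) * I) * m0 / (Real.log r : ℂ) := by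
    have h1 : HasDerivAt F (deriv χ.LFunction (pz r t w₀) * m0 / (Real.log r : ℂ)) w₀ :=
      SO.deriv_L_pz r (by omega) χ hχ1 m0 t w₀
    rw [h1.deriv, hpz]
  have hmain := hiso F hFe hFK hFb w₀ hw hF0 (by rw [hder]; exact div_ne_zero (mul_ne_zero hd hm00) hℓc) (by
    intro w hww hFw
    have h1 : χ.LFunction (pz r t w) = 0 := by
      have h2 : χ.LFunction (pz r t w) * m0 = 0 := hFw
      exact (mul_eq_zero.mp h2).resolve_right hm00
    have h3 : pz r t w - (1 / 2 + (γ : ℂ) * I) = (w - w₀) / (Real.log r : ℂ) := by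
      rw [← hpz]
      unfold pz
      ring
    have h4 : pz r t w = 1 / 2 + (γ : ℂ) * I := by
      apply hz _ h1
      rw [h3, norm_div, Complex.norm_real, Real.norm_of_nonneg hℓ0.le]
      exact div_lt_div_of_pos_right hww hℓ0
    rw [h4, sub_self] at h3
    have h5 : w - w₀ = 0 := by
      rcases div_eq_zero_iff.mp h3.symm with h6 | h6
      · exact h6
      · exact absurd h6 hℓc
    exact sub_eq_zero.mp h5)
  rw [hder, norm_div, norm_mul, Complex.norm_real, Real.norm_of_nonneg hℓ0.le, le_div_iff₀ hℓ0] at hmain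
  exact hmain

end Pool.Agent.SE
end

section

set_option autoImplicit false

/-! Task D6: from the primitive character to the character. -/

namespace Pool.Agent.SE

open Complex MeasureTheory
open Pool.Agent.SK Pool.Agent.SD
open Pool.Agent.EM (psiC V)
open Pool.Agent.SO (prim NN pt pz MM kw)

/-- D6a. PROOF. `x = exp u` (as in `DD_eq_En`, SK/F6.lean): `‖psiC χ x‖²/x² dx = ‖ff χ u‖² du`. -/
theorem window_eq {q : ℕ} (χ : DirichletCharacter ℂ q) (a b : ℝ) (hab : a ≤ b) :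
    ∫ u in a..b, ‖ff χ u‖ ^ 2 = ∫ x in Set.Ioc (Real.exp a) (Real.exp b), ‖psiC χ x‖ ^ 2 / x ^ 2 := by
  have h1 : Real.exp '' Set.Ioc a b = Set.Ioc (Real.exp a) (Real.exp b) := by
    ext x
    constructor
    · rintro ⟨t, ht, rfl⟩
      exact ⟨Real.exp_lt_exp.2 ht.1, Real.exp_le_exp.2 ht.2⟩
    · intro hx
      have hx0 : 0 < x := (Real.exp_pos a).trans hx.1
      refine ⟨Real.log x, ⟨(Real.lt_log_iff_exp_lt hx0).2 hx.1, ?_⟩, Real.exp_log hx0⟩
      rw [Real.log_le_iff_le_exp hx0]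
      exact hx.2
  have h2 := integral_image_eq_integral_abs_deriv_smul (s := Set.Ioc a b) (f := Real.exp)
    (f' := Real.exp) measurableSet_Ioc (fun x _ => (Real.hasDerivAt_exp x).hasDerivWithinAt)
    Real.exp_injective.injOn (fun x => ‖psiC χ x‖ ^ 2 / x ^ 2)
  rw [h1] at h2
  rw [h2, intervalIntegral.integral_of_le hab]
  refine setIntegral_congr_fun measurableSet_Ioc fun t _ => ?_
  have h3 : ‖ff χ t‖ ^ 2 = ‖psiC χ (Real.exp t)‖ ^ 2 * Real.exp (-t) := by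
    unfold ff
    rw [norm_mul, Complex.norm_real, Real.norm_of_nonneg (Real.exp_pos _).le, mul_pow,
      ← Real.exp_nat_mul]
    congr 2
    push_cast
    ring
  have h5 : Real.exp t ≠ 0 := (Real.exp_pos t).ne'
  simp only [h3, smul_eq_mul, abs_of_pos (Real.exp_pos t)]
  rw [Real.exp_neg]
  field_simp

/-- D6b. From the primitive character to the character. PROOF. `‖psiC χ‖² ≥ (1/2)‖psiC χ*‖² - ‖psiC χ* - psiC χ‖²`, `diff_energy` (SK/F2.lean) bounds the last part. -/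
theorem window_induced : ∃ C : ℝ, 0 < C ∧ ∀ (q : ℕ) [NeZero q], 3 ≤ q → ∀ (χ : DirichletCharacter ℂ q) (a b : ℝ), 0 ≤ a → a ≤ b →
    1 / 2 * (∫ x in Set.Ioc (Real.exp a) (Real.exp b), ‖psiC χ.primitiveCharacter x‖ ^ 2 / x ^ 2) - C * (Real.log q) ^ (3 / 2 : ℝ) ≤
      ∫ x in Set.Ioc (Real.exp a) (Real.exp b), ‖psiC χ x‖ ^ 2 / x ^ 2 := by
  refine ⟨272, by norm_num, fun q _ hq χ a b ha hab => ?_⟩
  have hX : 1 ≤ Real.exp a := Real.one_le_exp ha
  have i1 := Pool.Agent.EM.integrable_psiC_sq_window χ.primitiveCharacter (Real.exp a) (Real.exp b) hX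
  have i2 := Pool.Agent.EM.integrable_psiC_sq_window χ (Real.exp a) (Real.exp b) hX
  have i3 := MP9cfc0a.SK.F2_int χ.primitiveCharacter χ (Real.exp a) (Real.exp b) hX
  have i4 := MP9cfc0a.SK.F2_int χ.primitiveCharacter χ 1 (Real.exp b) le_rfl
  have h1 := MP9cfc0a.SK.diff_energy q hq χ (Real.exp b)
  have h2 : ∫ x in Set.Ioc (Real.exp a) (Real.exp b), ‖psiC χ.primitiveCharacter x - psiC χ x‖ ^ 2 / x ^ 2 ≤
      ∫ x in Set.Ioc 1 (Real.exp b), ‖psiC χ.primitiveCharacter x - psiC χ x‖ ^ 2 / x ^ 2 := by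
    have hg0 : ∀ x : ℝ, 0 ≤ ‖psiC χ.primitiveCharacter x - psiC χ x‖ ^ 2 / x ^ 2 := fun x => by positivity
    refine setIntegral_mono_set i4 (Filter.Eventually.of_forall hg0) ?_
    exact (Set.Ioc_subset_Ioc_left hX).eventuallyLE
  have h3 : 1 / 2 * (∫ x in Set.Ioc (Real.exp a) (Real.exp b), ‖psiC χ.primitiveCharacter x‖ ^ 2 / x ^ 2) -
      (∫ x in Set.Ioc (Real.exp a) (Real.exp b), ‖psiC χ.primitiveCharacter x - psiC χ x‖ ^ 2 / x ^ 2) ≤
      ∫ x in Set.Ioc (Real.exp a) (Real.exp b), ‖psiC χ x‖ ^ 2 / x ^ 2 := by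
    rw [← integral_const_mul, ← integral_sub (i1.const_mul _) i3]
    refine setIntegral_mono_on ((i1.const_mul _).sub i3) i2 measurableSet_Ioc fun x hx => ?_
    have hx0 : 0 < x := (Real.exp_pos a).trans hx.1
    have hAB : ‖psiC χ.primitiveCharacter x‖ ≤ ‖psiC χ x‖ + ‖psiC χ.primitiveCharacter x - psiC χ x‖ := by
      have h4 : psiC χ.primitiveCharacter x = psiC χ x + (psiC χ.primitiveCharacter x - psiC χ x) := by
        ring
      calc ‖psiC χ.primitiveCharacter x‖ = ‖psiC χ x + (psiC χ.primitiveCharacter x - psiC χ x)‖ := by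
            rw [← h4]
        _ ≤ _ := norm_add_le _ _
    have hA0 : 0 ≤ ‖psiC χ.primitiveCharacter x‖ := norm_nonneg _
    have h5 : 1 / 2 * ‖psiC χ.primitiveCharacter x‖ ^ 2 - ‖psiC χ.primitiveCharacter x - psiC χ x‖ ^ 2 ≤
        ‖psiC χ x‖ ^ 2 := by
      have h6 := pow_le_pow_left₀ hA0 hAB 2
      nlinarith [sq_nonneg (‖psiC χ x‖ - ‖psiC χ.primitiveCharacter x - psiC χ x‖)]
    calc 1 / 2 * (‖psiC χ.primitiveCharacter x‖ ^ 2 / x ^ 2) -
          ‖psiC χ.primitiveCharacter x - psiC χ x‖ ^ 2 / x ^ 2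
        = (1 / 2 * ‖psiC χ.primitiveCharacter x‖ ^ 2 - ‖psiC χ.primitiveCharacter x - psiC χ x‖ ^ 2) / x ^ 2 := by
          ring
      _ ≤ ‖psiC χ x‖ ^ 2 / x ^ 2 := div_le_div_of_nonneg_right h5 (by positivity)
  linarith

/-- Growth: `4000 log U ≤ U` for large `U`. -/
theorem D6_grow : ∃ U₀ : ℝ, ∀ U : ℝ, U₀ ≤ U → 4000 * Real.log U ≤ U := by
  have h1 := Real.isLittleO_log_id_atTop.bound (c := 1 / 4000) (by norm_num)
  obtain ⟨U₁, h2⟩ := h1.exists_forall_of_atTop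
  refine ⟨max U₁ 1, fun U hU => ?_⟩
  have h3 := h2 U ((le_max_left _ _).trans hU)
  have h4 : 1 ≤ U := (le_max_right _ _).trans hU
  have h5 : Real.log U ≤ ‖Real.log U‖ := Real.le_norm_self _
  have h6 : ‖id U‖ = U := by
    rw [id, Real.norm_of_nonneg (by linarith)]
  rw [h6] at h3
  linarith

/-- `log q` is large. -/
theorem D6_logq (K : ℝ) : ∃ q₀ : ℕ, ∀ q : ℕ, q₀ ≤ q → K ≤ Real.log q := by
  have h1 : Filter.Tendsto (fun q : ℕ => Real.log (q : ℝ)) Filter.atTop Filter.atTop :=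
    Real.tendsto_log_atTop.comp tendsto_natCast_atTop_atTop
  obtain ⟨q₀, hq₀⟩ := (h1.eventually_ge_atTop K).exists_forall_of_atTop
  exact ⟨q₀, hq₀⟩

/-- The error of `window_induced` is small. -/
theorem D6_err (C c L W : ℝ) (hc : 0 < c) (hL : 1 ≤ L) (hL2 : (C / (125 * c)) ^ 2 ≤ L)
    (hW : 1000 * L ≤ W) : C * L ^ (3 / 2 : ℝ) ≤ c / 8 * L * W := by
  have hL0 : 0 < L := by linarith
  have h1 : L ^ (3 / 2 : ℝ) = L * Real.sqrt L := by
    rw [Real.sqrt_eq_rpow]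
    nth_rewrite 2 [← Real.rpow_one L]
    rw [← Real.rpow_add hL0]
    norm_num
  have h2 : C / (125 * c) ≤ Real.sqrt L := Real.le_sqrt_of_sq_le hL2
  have h3 : C ≤ 125 * c * Real.sqrt L := by
    rw [div_le_iff₀ (by positivity)] at h2
    linarith
  have h4 : Real.sqrt L * Real.sqrt L = L := Real.mul_self_sqrt hL0.le
  rw [h1]
  have h5 : C * (L * Real.sqrt L) ≤ 125 * c * Real.sqrt L * (L * Real.sqrt L) :=
    mul_le_mul_of_nonneg_right h3 (by positivity)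
  have h6 : 125 * c * Real.sqrt L * (L * Real.sqrt L) = 125 * c * L * (Real.sqrt L * Real.sqrt L) := by ring
  rw [h6, h4] at h5
  have h7 : c / 8 * L * (1000 * L) ≤ c / 8 * L * W := mul_le_mul_of_nonneg_left hW (by positivity)
  linarith

/-- One character, from the window of its primitive character. -/
theorem D6_one (c C : ℝ) (hc : 0 < c)
    (hind : ∀ (q : ℕ) [NeZero q], 3 ≤ q → ∀ (χ : DirichletCharacter ℂ q) (a b : ℝ), 0 ≤ a → a ≤ b →
      1 / 2 * (∫ x in Set.Ioc (Real.exp a) (Real.exp b), ‖psiC χ.primitiveCharacter x‖ ^ 2 / x ^ 2) - C * (Real.log q) ^ (3 / 2 : ℝ) ≤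
        ∫ x in Set.Ioc (Real.exp a) (Real.exp b), ‖psiC χ x‖ ^ 2 / x ^ 2)
    (q r : ℕ) [NeZero q] (hq : 3 ≤ q) (χ : DirichletCharacter ℂ q)
    (hrq : (q : ℝ) ^ (9 / 10 : ℝ) ≤ (r : ℝ)) (hrle : r ≤ q) (U : ℝ) (hU1 : 1 ≤ U)
    (hL : 1 ≤ Real.log q) (hL2 : (C / (125 * c)) ^ 2 ≤ Real.log q)
    (hUW : 2000 * Real.log (q * U) ≤ U)
    (hwin : c * Real.log r * VV r U ≤ ∫ u in (U - VV r U)..(U + VV r U), ‖ff χ.primitiveCharacter u‖ ^ 2) :
    c / 4 * Real.log q * (1000 * Real.log (q * U)) ≤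
      ∫ x in Set.Ioc (Real.exp (U - 1000 * Real.log (q * U))) (Real.exp (U + 1000 * Real.log (q * U))),
        ‖psiC χ x‖ ^ 2 / x ^ 2 := by
  have hq3 : (3 : ℝ) ≤ q := by exact_mod_cast hq
  have hq0 : (0 : ℝ) < q := by linarith
  have hU0 : 0 < U := by linarith
  have hrpos : (0 : ℝ) < r := lt_of_lt_of_le (Real.rpow_pos_of_pos hq0 _) hrq
  have hrler : (r : ℝ) ≤ q := by exact_mod_cast hrle
  have hlU : 0 ≤ Real.log U := Real.log_nonneg hU1
  have hlr : 9 / 10 * Real.log q ≤ Real.log r := by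
    rw [← Real.log_rpow hq0]
    exact Real.log_le_log (Real.rpow_pos_of_pos hq0 _) hrq
  have hlrq : Real.log r ≤ Real.log q := Real.log_le_log hrpos hrler
  have e1 : Real.log (q * U) = Real.log q + Real.log U := Real.log_mul hq0.ne' hU0.ne'
  have e2 : Real.log (r * U) = Real.log r + Real.log U := Real.log_mul hrpos.ne' hU0.ne'
  set L := Real.log q with hLdef
  set W := 1000 * Real.log (q * U) with hWdef
  have hWL : 1000 * L ≤ W := by
    rw [hWdef, e1]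
    linarith
  have hVW : VV r U ≤ W := by
    unfold VV
    rw [hWdef, e1, e2]
    linarith
  have hWV : 9 / 10 * W ≤ VV r U := by
    unfold VV
    rw [hWdef, e1, e2]
    linarith
  have hW0 : 0 < W := by linarith
  have hV0 : 0 ≤ VV r U := by linarith
  have hUW0 : 0 ≤ U - W := by
    have : 2000 * Real.log (q * U) = 2 * W := by rw [hWdef]; ring
    linarith
  -- the window of the primitive character, in `x`
  have h1 := window_eq χ.primitiveCharacter (U - VV r U) (U + VV r U) (by linarith)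
  have h2 : (∫ x in Set.Ioc (Real.exp (U - VV r U)) (Real.exp (U + VV r U)), ‖psiC χ.primitiveCharacter x‖ ^ 2 / x ^ 2) ≤
      ∫ x in Set.Ioc (Real.exp (U - W)) (Real.exp (U + W)), ‖psiC χ.primitiveCharacter x‖ ^ 2 / x ^ 2 := by
    have hg0 : ∀ x : ℝ, 0 ≤ ‖psiC χ.primitiveCharacter x‖ ^ 2 / x ^ 2 := fun x => by positivity
    refine setIntegral_mono_set (Pool.Agent.EM.integrable_psiC_sq_window _ _ _ (Real.one_le_exp hUW0))
      (Filter.Eventually.of_forall hg0) ?_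
    refine (Set.Ioc_subset_Ioc ?_ ?_).eventuallyLE
    · exact Real.exp_le_exp.2 (by linarith)
    · exact Real.exp_le_exp.2 (by linarith)
  have h3 := hind q hq χ (U - W) (U + W) hUW0 (by linarith)
  have h4 : c * (9 / 10 * L) * (9 / 10 * W) ≤ c * Real.log r * VV r U := by
    refine mul_le_mul (mul_le_mul_of_nonneg_left hlr hc.le) hWV (by positivity) ?_
    have : 0 ≤ Real.log r := by linarith
    positivity
  have h5 := D6_err C c L W hc hL hL2 hWL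
  have h6 : 0 ≤ c * L * W := by positivity
  rw [h1] at hwin
  have h7 : c / 4 * L * W ≤ 1 / 2 * (c * (9 / 10 * L) * (9 / 10 * W)) - c / 8 * L * W := by nlinarith
  linarith

end Pool.Agent.SE
end
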