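import Pool.Agent.Lib.MP_9cfc0a_nt.Mg.G050
import Pool.Agent.Lib.MP_9cfc0a_nt.SE.A4
import Pool.Agent.Lib.MP_9cfc0a_nt.Mg.G049
import Pool.Agent.Lib.MP_9cfc0a_nt.Mg.G053
import Pool.Agent.Lib.MP_9cfc0a_nt.Mg.G002
import Pool.Agent.Lib.MP_9cfc0a_nt.Mg.G008
import Pool.Agent.Lib.MP_9cfc0a_nt.Mg.G051
import Pool.Agent.Lib.MP_9cfc0a_nt.SE.D3
import Pool.Agent.Lib.MP_9cfc0a_nt.Mg.G004

section

set_option autoImplicit false

/-! Task D4: the norm of the test function. -/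

namespace Pool.Agent.SE

open Complex MeasureTheory
open Pool.Agent.SK Pool.Agent.SD
open Pool.Agent.SO (prim NN pt pz MM kw)

private theorem D4_int (v γ : ℝ) (hv : 0 < v) :
    Integrable (fun t : ℝ => (1 + (v * (t - γ)) ^ 2)⁻¹) ∧
      ∫ t : ℝ, (1 + (v * (t - γ)) ^ 2)⁻¹ = Real.pi / v := by
  have h1 : Integrable (fun x : ℝ => (1 + x ^ 2)⁻¹) := integrable_inv_one_add_sq
  have h2 : Integrable (fun x : ℝ => (1 + (v * x) ^ 2)⁻¹) := h1.comp_mul_left' hv.ne'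
  refine ⟨h2.comp_sub_right γ, ?_⟩
  have e1 : ∫ t : ℝ, (1 + (v * (t - γ)) ^ 2)⁻¹ = ∫ t : ℝ, (1 + (v * t) ^ 2)⁻¹ :=
    integral_sub_right_eq_self (fun t : ℝ => (1 + (v * t) ^ 2)⁻¹) γ
  have e2 : ∫ t : ℝ, (1 + (v * t) ^ 2)⁻¹ = |v⁻¹| • ∫ t : ℝ, (1 + t ^ 2)⁻¹ :=
    Measure.integral_comp_mul_left (fun t : ℝ => (1 + t ^ 2)⁻¹) v
  rw [e1, e2, integral_univ_inv_one_add_sq, abs_of_pos (inv_pos.2 hv), smul_eq_mul]
  ring

/-- the kernel near the cell -/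
private theorem D4_near {m : ℕ} (hm : 1 ≤ m) {a : ℝ} (ha : 0 ≤ a) :
    ((2 / (1 + a)) ^ m) ^ 2 ≤ 4 ^ m * (1 + a ^ 2)⁻¹ := by
  have h1 : 0 < 1 + a := by linarith
  have e : ((2 / (1 + a)) ^ m) ^ 2 = 4 ^ m * ((1 / (1 + a)) ^ 2) ^ m := by
    rw [← pow_mul, mul_comm m 2, pow_mul, ← mul_pow]
    congr 1
    field_simp
    norm_num
  rw [e]
  refine mul_le_mul_of_nonneg_left ?_ (by positivity)
  have h2 : 0 ≤ (1 / (1 + a)) ^ 2 := by positivity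
  have h3 : (1 / (1 + a)) ^ 2 ≤ 1 := by
    rw [div_pow, one_pow, div_le_one (by positivity)]
    nlinarith
  calc ((1 / (1 + a)) ^ 2) ^ m ≤ ((1 / (1 + a)) ^ 2) ^ 1 :=
        pow_le_pow_of_le_one h2 h3 hm
    _ = 1 / (1 + a) ^ 2 := by rw [pow_one, div_pow, one_pow]
    _ ≤ 1 / (1 + a ^ 2) := one_div_le_one_div_of_le (by positivity) (by nlinarith)
    _ = (1 + a ^ 2)⁻¹ := one_div _

/-- the kernel far from the cell -/
private theorem D4_far {m : ℕ} (hm : 2 ≤ m) {ℓ V y a : ℝ} (hℓ : 0 < ℓ) (hV : 1000 * ℓ ≤ V)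
    (hy : 4 ≤ ℓ * y) (ha : V / (100 * m) * (y / 2) ≤ a) :
    ((2 / (1 + a)) ^ m) ^ 2 * (1 + ℓ * y) ^ 2 ≤
      4 ^ m * (250 * m * (m / 4) ^ (2 * m - 1)) * (ℓ / V) * (1 / (1 + ℓ * y) ^ m) := by
  have hm0 : (0 : ℝ) < m := by exact_mod_cast (by omega : 0 < m)
  have hV0 : 0 < V := by linarith
  have hy0 : 0 < y := by
    by_contra h
    push Not at h
    nlinarith
  obtain ⟨u, hu⟩ : ∃ u : ℝ, u = 1 + ℓ * y := ⟨_, rfl⟩
  rw [← hu]
  have hu5 : 5 ≤ u := by linarith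
  have hu0 : 0 < u := by linarith
  have hu1 : u ≤ 5 / 4 * (ℓ * y) := by linarith
  have ha1 : V / ℓ * u / (250 * m) ≤ a := by
    refine le_trans ?_ ha
    rw [div_mul_div_comm, div_mul_eq_mul_div, div_div, div_le_div_iff₀ (by positivity) (by positivity)]
    have h1 : V * u ≤ V * (5 / 4 * (ℓ * y)) := mul_le_mul_of_nonneg_left hu1 hV0.le
    nlinarith
  have ha2 : 4 * u / m ≤ a := by
    refine le_trans ?_ ha1
    rw [div_le_div_iff₀ hm0 (by positivity)]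
    have h1 : 1000 ≤ V / ℓ := by rwa [le_div_iff₀ hℓ]
    nlinarith [mul_pos hm0 hu0, mul_le_mul_of_nonneg_right h1 (mul_pos hm0 hu0).le]
  have ha0 : 0 < a := lt_of_lt_of_le (by positivity) ha1
  have e1 : ((2 / (1 + a)) ^ m) ^ 2 = 4 ^ m * (1 / (1 + a) ^ (2 * m)) := by
    rw [← pow_mul, mul_comm m 2, div_pow, pow_mul (2 : ℝ)]
    norm_num
    ring
  have h2 : (V / ℓ * u / (250 * m)) * (4 * u / m) ^ (2 * m - 1) ≤ (1 + a) ^ (2 * m) := by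
    have h3 : (1 + a) ^ (2 * m) = (1 + a) * (1 + a) ^ (2 * m - 1) := by
      rw [← pow_succ']
      congr 1
      omega
    rw [h3]
    exact mul_le_mul (by linarith) (pow_le_pow_left₀ (by positivity) (by linarith) _)
      (by positivity) (by linarith)
  have h4 : 0 < (V / ℓ * u / (250 * m)) * (4 * u / m) ^ (2 * m - 1) := by positivity
  have h5 : 1 / (1 + a) ^ (2 * m) ≤ 1 / ((V / ℓ * u / (250 * m)) * (4 * u / m) ^ (2 * m - 1)) :=
    one_div_le_one_div_of_le h4 h2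
  have e2 : 1 / ((V / ℓ * u / (250 * m)) * (4 * u / m) ^ (2 * m - 1)) =
      (250 * m * (m / 4) ^ (2 * m - 1)) * (ℓ / V) * (1 / u ^ (2 * m)) := by
    have h6 : u ^ (2 * m) = u * u ^ (2 * m - 1) := by
      rw [← pow_succ']
      congr 1
      omega
    rw [h6, mul_div_assoc 4 u, div_pow (m : ℝ) 4, mul_pow, div_pow u]
    field_simp
  have h7 : 1 / u ^ (2 * m) * u ^ 2 ≤ 1 / u ^ m := by
    have h8 : u ^ (2 * m) = u ^ 2 * u ^ (2 * m - 2) := by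
      rw [← pow_add]
      congr 1
      omega
    have h9 : 1 / u ^ (2 * m) * u ^ 2 = 1 / u ^ (2 * m - 2) := by
      rw [h8]
      field_simp
    rw [h9]
    exact one_div_le_one_div_of_le (by positivity)
      (pow_le_pow_right₀ (by linarith) (by omega))
  rw [e1]
  have hK : 0 ≤ 4 ^ m * (250 * m * ((m : ℝ) / 4) ^ (2 * m - 1)) * (ℓ / V) := by positivity
  calc 4 ^ m * (1 / (1 + a) ^ (2 * m)) * u ^ 2
      ≤ 4 ^ m * ((250 * m * (m / 4) ^ (2 * m - 1)) * (ℓ / V) * (1 / u ^ (2 * m))) * u ^ 2 := by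
        refine mul_le_mul_of_nonneg_right ?_ (by positivity)
        refine mul_le_mul_of_nonneg_left ?_ (by positivity)
        rw [← e2]
        exact h5
    _ = 4 ^ m * (250 * m * (m / 4) ^ (2 * m - 1)) * (ℓ / V) * (1 / u ^ (2 * m) * u ^ 2) := by ring
    _ ≤ _ := mul_le_mul_of_nonneg_left h7 hK

private theorem D4_log {r : ℕ} (hr : 3 ≤ r) : 1 ≤ Real.log r := by
  have h3 : (3 : ℝ) ≤ r := by exact_mod_cast hr
  have h1 : Real.exp 1 ≤ r := le_trans (by have := Real.exp_one_lt_d9; linarith) h3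
  rw [Real.le_log_iff_exp_le (by linarith)]
  exact h1

/-- D4a. One zero. PROOF. `ℓ = log r`, `V = VV r U ≥ 1000 ℓ` (`regime`), `v = vl = V/(100m)`. Near, `|t'-t| ≤ 4/ℓ`: `cell_upper`, `Ek_im`:
`‖hh(it')‖ ‖M‖ ≤ exp(4R) ℓ (2/(1+v|t'-γ|))^m`, `(1+ℓ|t'-t|)² ≤ 25`, `(2/(1+v|y|))^(2m) ≤ 4^m/(1+v|y|)²`, `∫ dy/(1+v|y|)² = 2/v = 200m/V`. Far, `|t'-t| ≥ 4/ℓ`:
`|t'-γ| ≥ |t'-t|/2 =: |y|/2 ≥ 2/ℓ`; `hh_of_ne`: `‖hh(it')‖ ≤ ‖L(1/2+it')‖ (ℓ/2) (2/(1+v|y|/2))^m`; `v|y|/2 ≥ (V/ℓ)(ℓ|y|)/(200m)` with `V/ℓ ≥ 1000`, so with `a = min 1 (5/m)`: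
`(1+v|y|/2)^(2m) ≥ (V/ℓ)(1/(50m)) (a(1+ℓ|y|))^(2m-1)`, and `2m - 1 - 2 ≥ m`: the square times `(1+ℓ|y|)²` is at most `C ℓ² (ℓ/V) ‖L(1/2+it')‖² (1+ℓ|y|)^(-m)`;
times `‖M‖²`: `C ℓ² (1/V) ‖L M‖² kw r m t t'`, whose integral is `≤ C ℓ² K/V` by `gd` (`SO.int_L` for integrability). -/
theorem one_norm (m : ℕ) (hm : 6 ≤ m) (R K : ℝ) (hR : 8 ≤ R) (hK : 0 ≤ K) (T : ℝ) (hT : 0 ≤ T) : ∃ C : ℝ, 0 < C ∧ ∃ r₀ : ℕ, 3 ≤ r₀ ∧
    ∀ (r : ℕ) [NeZero r], r₀ ≤ r → ∀ χ ∈ prim r, ∀ b t : ℝ, gd r b R K m χ t → ∀ γ : ℝ, |γ| ≤ T → |γ - t| ≤ 2 / Real.log r →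
    χ.LFunction (1 / 2 + (γ : ℂ) * I) = 0 → ∀ U : ℝ, 4000 * Real.log r ≤ U →
    Integrable (fun t' : ℝ => (‖hh χ m U γ ((t' : ℂ) * I)‖ * ‖MM r χ (pt r b t)‖) ^ 2 * (1 + Real.log r * |t' - t|) ^ 2) ∧
    ∫ t' : ℝ, (‖hh χ m U γ ((t' : ℂ) * I)‖ * ‖MM r χ (pt r b t)‖) ^ 2 * (1 + Real.log r * |t' - t|) ^ 2 ≤
      C * (Real.log r) ^ 2 / VV r U := by
  obtain ⟨r₀, hr₀, hreg⟩ := regime 1 T le_rfl hT m (by omega)
  obtain ⟨A₁, hA₁⟩ : ∃ A : ℝ, A = Real.exp (4 * R) ^ 2 * 25 * 4 ^ m := ⟨_, rfl⟩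
  obtain ⟨A₂, hA₂⟩ : ∃ A : ℝ, A = 1 / 4 * (4 ^ m * (250 * m * ((m : ℝ) / 4) ^ (2 * m - 1))) := ⟨_, rfl⟩
  have hA₁0 : 0 < A₁ := by rw [hA₁]; positivity
  have hA₂0 : 0 ≤ A₂ := by rw [hA₂]; positivity
  have hm0 : (0 : ℝ) < m := by exact_mod_cast (by omega : 0 < m)
  refine ⟨A₁ * (Real.pi * (100 * m)) + A₂ * K, by positivity, r₀, hr₀, ?_⟩
  intro r _ hr χ hχ b t hgd γ hγ hγt h0 U hU
  obtain ⟨hV, hVU, ⟨-, -, hσ, hw⟩, -, -, -, hlV, hU1⟩ := hreg r hr U hU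
  have hr3 : 3 ≤ r := by omega
  have hℓ1 := D4_log hr3
  obtain ⟨ℓ, hℓ⟩ : ∃ ℓ : ℝ, ℓ = Real.log r := ⟨_, rfl⟩
  obtain ⟨V, hVe⟩ : ∃ V : ℝ, V = VV r U := ⟨_, rfl⟩
  obtain ⟨v, hve⟩ : ∃ v : ℝ, v = vl r m U := ⟨_, rfl⟩
  obtain ⟨M, hM⟩ : ∃ M : ℂ, M = MM r χ (pt r b t) := ⟨_, rfl⟩
  have hvV : v = V / (100 * m) := by rw [hve, hVe]; rfl
  have hχ1 := (prim_spec r (by omega) χ hχ).2
  have hint := SO.int_L r (by omega) χ hχ1 M t m (by omega)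
  have hK4 : ∫ t' : ℝ, ‖χ.LFunction (pt r 0 t') * M‖ ^ 2 * kw r m t t' ≤ K := by
    rw [hM]
    exact hgd.2.2
  rw [← hℓ] at hℓ1 hγt hlV
  rw [← hVe] at hV hlV
  rw [← hve] at hw
  obtain ⟨hi1, hi2⟩ := D4_int v γ hw
  have hV0 : 0 < V := by linarith
  have hℓ0 : 0 < ℓ := by linarith
  have hpt : ∀ t' : ℝ, (‖hh χ m U γ ((t' : ℂ) * I)‖ * ‖M‖) ^ 2 * (1 + ℓ * |t' - t|) ^ 2 ≤
      A₁ * ℓ ^ 2 * (1 + (v * (t' - γ)) ^ 2)⁻¹ +
        A₂ * (ℓ ^ 2 / V) * (‖χ.LFunction (pt r 0 t') * M‖ ^ 2 * kw r m t t') := by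
    intro t'
    have hsub : (t' : ℂ) * I - (γ : ℂ) * I = ((t' - γ : ℝ) : ℂ) * I := by push_cast; ring
    have hE := Ek_im (sg r U) v hw.le m (t' - γ)
    have hn1 : 0 ≤ A₁ * ℓ ^ 2 * (1 + (v * (t' - γ)) ^ 2)⁻¹ := by positivity
    have hkw : 0 ≤ kw r m t t' := by
      unfold kw
      rw [← hℓ]
      positivity
    have hn2 : 0 ≤ A₂ * (ℓ ^ 2 / V) * (‖χ.LFunction (pt r 0 t') * M‖ ^ 2 * kw r m t t') := by
      positivity
    rcases le_or_gt |t' - t| (4 / ℓ) with hnear | hfar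
    · -- near
      have h1 := cell_upper r hr3 χ hχ b R K hR m t hgd γ (hℓ ▸ hγt) h0 t' (hℓ ▸ hnear)
      rw [← hM, ← hℓ] at h1
      have h2 : ‖hh χ m U γ ((t' : ℂ) * I)‖ * ‖M‖ ≤
          (Real.exp (4 * R) * ℓ) * (2 / (1 + v * |t' - γ|)) ^ m := by
        unfold hh
        rw [norm_mul, hsub, ← hve]
        calc _ = (‖dslope (fun z : ℂ => χ.LFunction (1 / 2 + z)) ((γ : ℂ) * I) ((t' : ℂ) * I)‖ *
              ‖M‖) * ‖Ek (sg r U) v m (((t' - γ : ℝ) : ℂ) * I)‖ := by ring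
          _ ≤ _ := mul_le_mul h1 hE (norm_nonneg _) (by positivity)
      have h3 : (‖hh χ m U γ ((t' : ℂ) * I)‖ * ‖M‖) ^ 2 ≤
          ((Real.exp (4 * R) * ℓ) * (2 / (1 + v * |t' - γ|)) ^ m) ^ 2 :=
        pow_le_pow_left₀ (by positivity) h2 2
      have h4 : (1 + ℓ * |t' - t|) ^ 2 ≤ 25 := by
        have h5 : ℓ * |t' - t| ≤ 4 := by
          rw [le_div_iff₀ hℓ0] at hnear
          linarith
        have h6 : 0 ≤ ℓ * |t' - t| := by positivity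
        nlinarith
      have h5 := D4_near (m := m) (by omega) (a := v * |t' - γ|) (by positivity)
      have e5 : (v * |t' - γ|) ^ 2 = (v * (t' - γ)) ^ 2 := by
        rw [mul_pow, mul_pow, sq_abs]
      rw [e5] at h5
      calc _ ≤ ((Real.exp (4 * R) * ℓ) * (2 / (1 + v * |t' - γ|)) ^ m) ^ 2 * 25 :=
            mul_le_mul h3 h4 (by positivity) (by positivity)
        _ = Real.exp (4 * R) ^ 2 * ℓ ^ 2 * 25 * ((2 / (1 + v * |t' - γ|)) ^ m) ^ 2 := by ring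
        _ ≤ Real.exp (4 * R) ^ 2 * ℓ ^ 2 * 25 * (4 ^ m * (1 + (v * (t' - γ)) ^ 2)⁻¹) :=
            mul_le_mul_of_nonneg_left h5 (by positivity)
        _ = A₁ * ℓ ^ 2 * (1 + (v * (t' - γ)) ^ 2)⁻¹ := by rw [hA₁]; ring
        _ ≤ _ := by linarith
    · -- far
      have hy4 : 4 ≤ ℓ * |t' - t| := by
        have h1 := (div_lt_iff₀ hℓ0).1 hfar
        linarith
      have hγ2 : |t' - t| / 2 ≤ |t' - γ| := by
        have h1 : |t' - t| ≤ |t' - γ| + |γ - t| := abs_sub_le t' γ t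
        have h2 : 2 / ℓ = (4 / ℓ) / 2 := by ring
        rw [h2] at hγt
        linarith
      have hy0 : 0 < |t' - t| := lt_trans (by positivity) hfar
      have hg0 : 0 < |t' - γ| := by linarith
      have hne : (t' : ℂ) * I ≠ (γ : ℂ) * I := by
        intro h
        have h1 := congrArg Complex.im h
        simp at h1
        rw [h1, sub_self, abs_zero] at hg0
        exact lt_irrefl _ hg0
      have hptr : (1 / 2 + (t' : ℂ) * I) = pt r 0 t' := by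
        unfold pt
        simp
      have h1 : ‖hh χ m U γ ((t' : ℂ) * I)‖ ≤
          ‖χ.LFunction (pt r 0 t')‖ * (ℓ / 2) * (2 / (1 + v * |t' - γ|)) ^ m := by
        rw [hh_of_ne r χ m U γ h0 _ hne, norm_mul, norm_div, hsub, ← hve, hptr]
        refine mul_le_mul ?_ hE (norm_nonneg _) (by positivity)
        rw [div_eq_mul_inv]
        refine mul_le_mul_of_nonneg_left ?_ (norm_nonneg _)
        rw [norm_mul, Complex.norm_I, mul_one, Complex.norm_real, Real.norm_eq_abs]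
        rw [inv_le_comm₀ hg0 (by positivity)]
        have h3 : (ℓ / 2)⁻¹ = 2 / ℓ := by rw [inv_div]
        rw [h3]
        have h4 : 2 / ℓ = (4 / ℓ) / 2 := by ring
        rw [h4]
        linarith
      have h2 : (‖hh χ m U γ ((t' : ℂ) * I)‖ * ‖M‖) ^ 2 ≤
          (‖χ.LFunction (pt r 0 t')‖ * (ℓ / 2) * (2 / (1 + v * |t' - γ|)) ^ m * ‖M‖) ^ 2 :=
        pow_le_pow_left₀ (by positivity) (mul_le_mul_of_nonneg_right h1 (norm_nonneg _)) 2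
      have h3 := D4_far (m := m) (by omega) (ℓ := ℓ) (V := V) (y := |t' - t|)
        (a := v * |t' - γ|) hℓ0 (by linarith) hy4
        (by rw [← hvV]; exact mul_le_mul_of_nonneg_left hγ2 hw.le)
      calc _ ≤ (‖χ.LFunction (pt r 0 t')‖ * (ℓ / 2) * (2 / (1 + v * |t' - γ|)) ^ m * ‖M‖) ^ 2 *
            (1 + ℓ * |t' - t|) ^ 2 := mul_le_mul_of_nonneg_right h2 (by positivity)
        _ = (‖χ.LFunction (pt r 0 t')‖ * ‖M‖) ^ 2 * (ℓ ^ 2 / 4) *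
            (((2 / (1 + v * |t' - γ|)) ^ m) ^ 2 * (1 + ℓ * |t' - t|) ^ 2) := by ring
        _ ≤ (‖χ.LFunction (pt r 0 t')‖ * ‖M‖) ^ 2 * (ℓ ^ 2 / 4) *
            (4 ^ m * (250 * m * ((m : ℝ) / 4) ^ (2 * m - 1)) * (ℓ / V) *
              (1 / (1 + ℓ * |t' - t|) ^ m)) :=
            mul_le_mul_of_nonneg_left h3 (by positivity)
        _ = A₂ * (ℓ ^ 2 / V) * (‖χ.LFunction (pt r 0 t') * M‖ ^ 2 * kw r m t t') := by
            rw [hA₂, norm_mul]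
            unfold kw
            rw [← hℓ]
            ring
        _ ≤ _ := by linarith
  rw [← hℓ, ← hVe, ← hM]
  have hgi : Integrable (fun t' : ℝ => A₁ * ℓ ^ 2 * (1 + (v * (t' - γ)) ^ 2)⁻¹ +
        A₂ * (ℓ ^ 2 / V) * (‖χ.LFunction (pt r 0 t') * M‖ ^ 2 * kw r m t t')) :=
    (hi1.const_mul _).add (hint.const_mul _)
  have hcont : Continuous (fun t' : ℝ =>
      (‖hh χ m U γ ((t' : ℂ) * I)‖ * ‖M‖) ^ 2 * (1 + ℓ * |t' - t|) ^ 2) := by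
    have h1 : Continuous (hh χ m U γ) := (hh_diff r (by omega) χ hχ m U γ).continuous
    have h2 : Continuous (fun t' : ℝ => hh χ m U γ ((t' : ℂ) * I)) := h1.comp (by fun_prop)
    fun_prop
  have hInt : Integrable (fun t' : ℝ =>
      (‖hh χ m U γ ((t' : ℂ) * I)‖ * ‖M‖) ^ 2 * (1 + ℓ * |t' - t|) ^ 2) := by
    refine hgi.mono' hcont.aestronglyMeasurable (Filter.Eventually.of_forall fun t' => ?_)
    rw [Real.norm_of_nonneg (by positivity)]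
    exact hpt t'
  refine ⟨hInt, ?_⟩
  calc _ ≤ ∫ t' : ℝ, (A₁ * ℓ ^ 2 * (1 + (v * (t' - γ)) ^ 2)⁻¹ +
        A₂ * (ℓ ^ 2 / V) * (‖χ.LFunction (pt r 0 t') * M‖ ^ 2 * kw r m t t')) :=
        integral_mono hInt hgi hpt
    _ = A₁ * ℓ ^ 2 * (Real.pi / v) + A₂ * (ℓ ^ 2 / V) *
        ∫ t' : ℝ, ‖χ.LFunction (pt r 0 t') * M‖ ^ 2 * kw r m t t' := by
        rw [integral_add (hi1.const_mul _) (hint.const_mul _), integral_const_mul,
          integral_const_mul, hi2]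
    _ ≤ A₁ * ℓ ^ 2 * (Real.pi / v) + A₂ * (ℓ ^ 2 / V) * K := by
        gcongr
    _ = (A₁ * (Real.pi * (100 * m)) + A₂ * K) * ℓ ^ 2 / V := by
        rw [hvV]
        field_simp

/-- D4b. PROOF. Cauchy-Schwarz with the weights `w_j = (1+ℓ|t'-t_j|)^(-2)`: `‖∑ c_j hh_j‖² ≤ (∑ w_j) ∑ (‖hh_j‖ ‖M_j‖)² / w_j`, `∑_j w_j ≤ C` (`SO.sum_inv_sq`:
`ℓ|t' - t_j| ≥ |J(t'+T) - j|`, `J = ⌊ℓ⌋₊`), `one_norm`, `#J ≤ nj ≤ 2Tℓ + 1 ≤ (2T+1) ℓ`. -/
theorem all_norm (m : ℕ) (hm : 6 ≤ m) (R K : ℝ) (hR : 8 ≤ R) (hK : 0 ≤ K) (T : ℕ) : ∃ C : ℝ, 0 < C ∧ ∃ r₀ : ℕ, 3 ≤ r₀ ∧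
    ∀ (r : ℕ) [NeZero r], r₀ ≤ r → ∀ χ ∈ prim r, ∀ (b : ℝ) (J : Finset ℕ) (γ : ℕ → ℝ), J ⊆ Finset.range (nj r T) →
    (∀ j ∈ J, gd r b R K m χ (tj r T j) ∧ |γ j| ≤ T ∧ |γ j - tj r T j| ≤ 2 / Real.log r ∧ χ.LFunction (1 / 2 + (γ j : ℂ) * I) = 0) →
    ∀ U : ℝ, 4000 * Real.log r ≤ U → ∀ c : ℕ → ℂ, (∀ j ∈ J, ‖c j‖ = ‖MM r χ (pt r b (tj r T j))‖) →
    ∫ t : ℝ, ‖∑ j ∈ J, c j * hh χ m U (γ j) ((t : ℂ) * I)‖ ^ 2 ≤ C * (Real.log r) ^ 3 / VV r U := by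
  obtain ⟨C₀, hC₀, r₀, hr₀, hone⟩ := one_norm m hm R K hR hK T (Nat.cast_nonneg T)
  obtain ⟨C₁, hC₁, hsum⟩ := SO.sum_inv_sq
  obtain ⟨r₁, hr₁, hreg⟩ := regime 1 T le_rfl (Nat.cast_nonneg T) m (by omega)
  refine ⟨C₁ * ((2 * T + 1) * C₀), by positivity, max r₀ r₁, le_trans hr₀ (le_max_left _ _), ?_⟩
  intro r _ hr χ hχ b J γ hJ hj U hU c hc
  have hrr0 : r₀ ≤ r := le_trans (le_max_left _ _) hr
  have hrr1 : r₁ ≤ r := le_trans (le_max_right _ _) hr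
  obtain ⟨hV, -⟩ := hreg r hrr1 U hU
  have hV0 : 0 < VV r U := by linarith
  have hr3 : 3 ≤ r := by omega
  have hℓ1 := D4_log hr3
  have hℓ0 : 0 < Real.log r := by linarith
  have hJ1 : 1 ≤ ⌊Real.log r⌋₊ := Nat.one_le_floor_iff _ |>.2 hℓ1
  have hJL : (⌊Real.log r⌋₊ : ℝ) ≤ Real.log r := Nat.floor_le (by linarith)
  have hJ0 : (0 : ℝ) < (⌊Real.log r⌋₊ : ℝ) := by exact_mod_cast hJ1
  have hone' := fun j (h : j ∈ J) => hone r hrr0 χ hχ b (tj r T j) (hj j h).1 (γ j) (hj j h).2.1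
    (hj j h).2.2.1 (hj j h).2.2.2 U hU
  -- the sum of the weights
  have hw : ∀ t : ℝ, ∑ j ∈ J, (1 / (1 + Real.log r * |t - tj r T j|)) ^ 2 ≤ C₁ := by
    intro t
    refine le_trans ?_ (hsum (⌊Real.log r⌋₊ * (t + T)) (nj r T))
    refine le_trans (Finset.sum_le_sum_of_subset_of_nonneg hJ fun _ _ _ => by positivity) ?_
    refine Finset.sum_le_sum fun j _ => ?_
    rw [div_pow, one_pow]
    refine one_div_le_one_div_of_le (by positivity) ?_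
    refine pow_le_pow_left₀ (by positivity) ?_ 2
    have e : (⌊Real.log r⌋₊ : ℝ) * (t + T) - j = (⌊Real.log r⌋₊ : ℝ) * (t - tj r T j) := by
      unfold tj
      field_simp
      ring
    rw [e, abs_mul, abs_of_pos hJ0]
    have := mul_le_mul_of_nonneg_right hJL (abs_nonneg (t - tj r T j))
    linarith
  have hpt : ∀ t : ℝ, ‖∑ j ∈ J, c j * hh χ m U (γ j) ((t : ℂ) * I)‖ ^ 2 ≤
      C₁ * ∑ j ∈ J, (‖hh χ m U (γ j) ((t : ℂ) * I)‖ * ‖MM r χ (pt r b (tj r T j))‖) ^ 2 *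
        (1 + Real.log r * |t - tj r T j|) ^ 2 := by
    intro t
    have h1 : ‖∑ j ∈ J, c j * hh χ m U (γ j) ((t : ℂ) * I)‖ ≤
        ∑ j ∈ J, (1 / (1 + Real.log r * |t - tj r T j|)) *
          ((‖hh χ m U (γ j) ((t : ℂ) * I)‖ * ‖MM r χ (pt r b (tj r T j))‖) *
            (1 + Real.log r * |t - tj r T j|)) := by
      refine (norm_sum_le _ _).trans (le_of_eq (Finset.sum_congr rfl fun j h => ?_))
      rw [norm_mul, hc j h]
      have h2 : (0 : ℝ) < 1 + Real.log r * |t - tj r T j| := by positivity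
      field_simp
    have h2 := Finset.sum_mul_sq_le_sq_mul_sq J
      (fun j => 1 / (1 + Real.log r * |t - tj r T j|))
      (fun j => (‖hh χ m U (γ j) ((t : ℂ) * I)‖ * ‖MM r χ (pt r b (tj r T j))‖) *
            (1 + Real.log r * |t - tj r T j|))
    refine (pow_le_pow_left₀ (norm_nonneg _) h1 2).trans (h2.trans ?_)
    have e3 : ∑ j ∈ J, ((‖hh χ m U (γ j) ((t : ℂ) * I)‖ * ‖MM r χ (pt r b (tj r T j))‖) *
            (1 + Real.log r * |t - tj r T j|)) ^ 2 =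
        ∑ j ∈ J, (‖hh χ m U (γ j) ((t : ℂ) * I)‖ * ‖MM r χ (pt r b (tj r T j))‖) ^ 2 *
        (1 + Real.log r * |t - tj r T j|) ^ 2 :=
      Finset.sum_congr rfl fun j _ => mul_pow _ _ 2
    rw [e3]
    exact mul_le_mul_of_nonneg_right (hw t)
      (Finset.sum_nonneg fun j _ => by positivity)
  have hgi : Integrable (fun t : ℝ => C₁ * ∑ j ∈ J, (‖hh χ m U (γ j) ((t : ℂ) * I)‖ *
      ‖MM r χ (pt r b (tj r T j))‖) ^ 2 * (1 + Real.log r * |t - tj r T j|) ^ 2) :=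
    (integrable_finsetSum J fun j h => (hone' j h).1).const_mul _
  have hcard : (J.card : ℝ) ≤ (2 * T + 1) * Real.log r := by
    have h1 : J.card ≤ nj r T := by
      have := Finset.card_le_card hJ
      rwa [Finset.card_range] at this
    have h2 : (J.card : ℝ) ≤ 2 * T * (⌊Real.log r⌋₊ : ℝ) + 1 := by
      have h3 : (J.card : ℝ) ≤ (nj r T : ℝ) := by exact_mod_cast h1
      unfold nj at h3
      push_cast at h3
      exact h3
    have h4 : (2 * (T : ℝ)) * (⌊Real.log r⌋₊ : ℝ) ≤ (2 * T) * Real.log r :=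
      mul_le_mul_of_nonneg_left hJL (by positivity)
    linarith
  calc _ ≤ ∫ t : ℝ, C₁ * ∑ j ∈ J, (‖hh χ m U (γ j) ((t : ℂ) * I)‖ *
      ‖MM r χ (pt r b (tj r T j))‖) ^ 2 * (1 + Real.log r * |t - tj r T j|) ^ 2 :=
        integral_mono_of_nonneg (Filter.Eventually.of_forall fun t => by positivity) hgi
          (Filter.Eventually.of_forall hpt)
    _ = C₁ * ∑ j ∈ J, ∫ t : ℝ, (‖hh χ m U (γ j) ((t : ℂ) * I)‖ *
      ‖MM r χ (pt r b (tj r T j))‖) ^ 2 * (1 + Real.log r * |t - tj r T j|) ^ 2 := by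
        rw [integral_const_mul, integral_finsetSum J fun j h => (hone' j h).1]
    _ ≤ C₁ * ∑ _j ∈ J, C₀ * (Real.log r) ^ 2 / VV r U := by
        refine mul_le_mul_of_nonneg_left ?_ hC₁.le
        exact Finset.sum_le_sum fun j h => (hone' j h).2
    _ = C₁ * (J.card * (C₀ * (Real.log r) ^ 2 / VV r U)) := by
        rw [Finset.sum_const, nsmul_eq_mul]
    _ ≤ C₁ * (((2 * T + 1) * Real.log r) * (C₀ * (Real.log r) ^ 2 / VV r U)) := by
        refine mul_le_mul_of_nonneg_left ?_ hC₁.le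
        exact mul_le_mul_of_nonneg_right hcard (by positivity)
    _ = C₁ * ((2 * T + 1) * C₀) * (Real.log r) ^ 3 / VV r U := by ring

end Pool.Agent.SE
end

section

set_option autoImplicit false

/-! Task D5: the window for one primitive character. -/

namespace Pool.Agent.SE

open Complex MeasureTheory
open Pool.Agent.SK Pool.Agent.SD
open Pool.Agent.SO (prim NN pt pz MM kw)

/-- Cauchy-Schwarz on an interval. -/
theorem D5_cs (f g : ℝ → ℂ) (a b : ℝ) (hab : a ≤ b)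
    (hf2 : IntervalIntegrable (fun v => ‖f v‖ ^ 2) volume a b)
    (hg2 : IntervalIntegrable (fun v => ‖g v‖ ^ 2) volume a b)
    (hfg : IntervalIntegrable (fun v => f v * g v) volume a b) :
    ‖∫ v in a..b, f v * g v‖ ^ 2 ≤ (∫ v in a..b, ‖f v‖ ^ 2) * ∫ v in a..b, ‖g v‖ ^ 2 := by
  have hfg' : IntervalIntegrable (fun v => ‖f v‖ * ‖g v‖) volume a b := by
    refine hfg.norm.congr (fun v _ => ?_)
    exact norm_mul _ _
  set P := ∫ v in a..b, ‖f v‖ * ‖g v‖ with hP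
  set F := ∫ v in a..b, ‖f v‖ ^ 2 with hF
  set G := ∫ v in a..b, ‖g v‖ ^ 2 with hG
  have h1 : ‖∫ v in a..b, f v * g v‖ ≤ P := by
    refine (intervalIntegral.norm_integral_le_integral_norm hab).trans (le_of_eq ?_)
    exact intervalIntegral.integral_congr (fun v _ => norm_mul _ _)
  have h2 : ∀ x : ℝ, 0 ≤ F * (x * x) + (-(2 * P)) * x + G := by
    intro x
    have h3 : 0 ≤ ∫ v in a..b, (x * ‖f v‖ - ‖g v‖) ^ 2 :=
      intervalIntegral.integral_nonneg hab (fun v _ => sq_nonneg _)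
    have h4 : ∫ v in a..b, (x * ‖f v‖ - ‖g v‖) ^ 2 = F * (x * x) + (-(2 * P)) * x + G := by
      have h5 : ∀ v, (x * ‖f v‖ - ‖g v‖) ^ 2 =
          (x * x) * ‖f v‖ ^ 2 + (-(2 * x)) * (‖f v‖ * ‖g v‖) + ‖g v‖ ^ 2 := fun v => by ring
      simp_rw [h5]
      rw [intervalIntegral.integral_add ((hf2.const_mul _).add (hfg'.const_mul _)) hg2,
        intervalIntegral.integral_add (hf2.const_mul _) (hfg'.const_mul _),
        intervalIntegral.integral_const_mul, intervalIntegral.integral_const_mul, ← hP, ← hF, ← hG]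
      ring
    linarith
  have h3 := discrim_le_zero h2
  unfold discrim at h3
  have h4 : P ^ 2 ≤ F * G := by nlinarith
  exact (pow_le_pow_left₀ (norm_nonneg _) h1 2).trans h4

theorem D5_phase (z : ℂ) : ∃ u : ℂ, ‖u‖ = 1 ∧ u * z = ((‖z‖ : ℝ) : ℂ) := by
  by_cases hz : z = 0
  · exact ⟨1, norm_one, by rw [hz]; simp⟩
  · have hn : ‖z‖ ≠ 0 := norm_ne_zero_iff.2 hz
    have hnC : ((‖z‖ : ℝ) : ℂ) ≠ 0 := by exact_mod_cast hn
    refine ⟨(starRingEnd ℂ) z / ((‖z‖ : ℝ) : ℂ), ?_, ?_⟩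
    · rw [norm_div, Complex.norm_real, norm_norm, Complex.norm_conj, div_self hn]
    · rw [div_mul_eq_mul_div, mul_comm, Complex.mul_conj, Complex.normSq_eq_norm_sq, div_eq_iff hnC]
      push_cast
      ring

theorem D5_nj (r T : ℕ) (hr : 1 ≤ r) (hl : 0 ≤ Real.log r) : (nj r T : ℝ) ≤ (2 * T + 1) * r := by
  unfold nj
  have h1 : ((⌊Real.log r⌋₊ : ℕ) : ℝ) ≤ Real.log r := Nat.floor_le hl
  have hr1 : (1 : ℝ) ≤ r := by exact_mod_cast hr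
  have h2 : Real.log r ≤ r := (Real.log_le_sub_one_of_pos (by linarith)).trans (by linarith)
  have h3 : (0 : ℝ) ≤ T := by positivity
  push_cast
  nlinarith

theorem D5_int (r : ℕ) [NeZero r] (χ : DirichletCharacter ℂ r) (U V : ℝ) (hV : 0 ≤ V) (g : ℝ → ℂ) (hg : Continuous g) :
    IntervalIntegrable (fun v => ff χ (U - v) * g v) volume (-V) V := by
  obtain ⟨C, hC, hff⟩ := ff_le
  have hm : Measurable (fun v => ff χ (U - v)) := (ff_meas r χ).comp (measurable_const.sub measurable_id)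
  rw [intervalIntegrable_iff_integrableOn_Ioc_of_le (by linarith)]
  obtain ⟨B, hB⟩ := isCompact_Icc.exists_bound_of_continuousOn (s := Set.Icc (-V) V) hg.continuousOn
  refine Measure.integrableOn_of_bounded (M := C * Real.exp ((|U| + V) / 2) * B) (by simp) ?_ ?_
  · exact (hm.mul hg.measurable).aestronglyMeasurable
  · rw [ae_restrict_iff' measurableSet_Ioc]
    refine Filter.Eventually.of_forall fun v hv => ?_
    rw [norm_mul]
    have h1 : |v| ≤ V := abs_le.2 ⟨hv.1.le, hv.2⟩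
    have h2 : |U - v| ≤ |U| + V := (abs_sub _ _).trans (by linarith)
    have h3 : ‖ff χ (U - v)‖ ≤ C * Real.exp ((|U| + V) / 2) := (hff r χ (U - v)).trans (by gcongr)
    have h4 := hB v ⟨hv.1.le, hv.2⟩
    exact mul_le_mul h3 h4 (norm_nonneg _) (by positivity)

theorem D5_int2 (r : ℕ) [NeZero r] (χ : DirichletCharacter ℂ r) (U V : ℝ) (hV : 0 ≤ V) :
    IntervalIntegrable (fun v => ‖ff χ (U - v)‖ ^ 2) volume (-V) V := by
  obtain ⟨C, hC, hff⟩ := ff_le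
  have hm : Measurable (fun v => ff χ (U - v)) := (ff_meas r χ).comp (measurable_const.sub measurable_id)
  rw [intervalIntegrable_iff_integrableOn_Ioc_of_le (by linarith)]
  refine Measure.integrableOn_of_bounded (M := (C * Real.exp ((|U| + V) / 2)) ^ 2) (by simp) ?_ ?_
  · exact (hm.norm.pow_const 2).aestronglyMeasurable
  · rw [ae_restrict_iff' measurableSet_Ioc]
    refine Filter.Eventually.of_forall fun v hv => ?_
    have h1 : |v| ≤ V := abs_le.2 ⟨hv.1.le, hv.2⟩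
    have h2 : |U - v| ≤ |U| + V := (abs_sub _ _).trans (by linarith)
    have h3 : ‖ff χ (U - v)‖ ≤ C * Real.exp ((|U| + V) / 2) := (hff r χ (U - v)).trans (by gcongr)
    rw [norm_pow, norm_norm]
    exact pow_le_pow_left₀ (norm_nonneg _) h3 2

open scoped Classical in
/-- D5. PROOF. `select` gives `J, γ`, `#J ≥ c₂ ℓ` (`ℓ = log r`, `c₂ = c₁ε₁/20`). `M_j = MM r χ (pt r b t_j)`, `ρ_j = 1/2 + iγ_j`, `A_j = L'(ρ_j) exp(iUγ_j)/ρ_j`;
`c_j = M_j * u_j`, `‖u_j‖ = 1`, with `c_j A_j = ‖M_j‖‖A_j‖` (`u_j = conj(M_j A_j)/‖M_j A_j‖`; `M_j A_j ≠ 0` by `cell_lower`). `pairing T m` for every `j` times `c_j`, summed: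
`‖∫_{-V}^{V} ff(U-v) ∑ c_j hk_j(v) dv + ∑ ‖M_j‖‖A_j‖‖ ≤ ∑ ‖M_j‖ exp(-U/10) ≤ nj r exp(-U/10) ≤ 1` (`‖M_j‖ ≤ r^(1/8) ≤ r`: `SO.MM_le`), and
`∑ ‖M_j‖‖A_j‖ ≥ #J c ℓ/(T+1) ≥ c₃ ℓ²` (`cell_lower`, `‖ρ_j‖ ≤ T + 1`). So `c₃ ℓ²/2 ≤ ‖∫‖ ≤ (∫_{-V}^{V} ‖ff(U-v)‖²)^(1/2) (∫_{-V}^{V} ‖∑ c_j hk_j‖²)^(1/2)`
(Cauchy-Schwarz; `ff_meas`, `ff_le`, `hk_cont`), the second factor is `≤ (C ℓ³/V)^(1/2)` by `plancherel_hk`, `all_norm`. Square: `∫ ‖ff(U-v)‖² ≥ (c₃²/(4C)) ℓ V`.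
Substitute `u = U - v`. -/
theorem prim_window (T : ℕ) (hT : 1 ≤ T) (ε₁ c₁ : ℝ) (hε : 0 < ε₁) (hε1 : ε₁ ≤ 1) (hc : 0 < c₁) (hc1 : c₁ ≤ 1) (b R K : ℝ)
    (hb : 1 ≤ b) (hR : 2 * b + 8 ≤ R) (hK : 0 ≤ K) (m : ℕ) (hm : 6 ≤ m) : ∃ c : ℝ, 0 < c ∧ ∃ r₀ : ℕ, 3 ≤ r₀ ∧
    ∀ (r : ℕ) [NeZero r], r₀ ≤ r → ∀ χ ∈ prim r,
      c₁ * Real.log r ≤ gF (IZ χ (T : ℝ) (ε₁ / Real.log r)) →
      (((Finset.range (nj r T)).filter (fun j => ¬ gd r b R K m χ (tj r T j))).card : ℝ) ≤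
        c₁ * ε₁ / (100 * (T + 1)) * (nj r T : ℝ) →
      ∀ U : ℝ, 4000 * Real.log r ≤ U →
        c * Real.log r * VV r U ≤ ∫ u in (U - VV r U)..(U + VV r U), ‖ff χ u‖ ^ 2 := by
  obtain ⟨c₀, hc₀, hlow⟩ := cell_lower b R ε₁ hb hR hε hε1
  obtain ⟨C, hC, r₁, hr₁, hnorm⟩ := all_norm m hm R K (by linarith) hK T
  obtain ⟨r₂, hr₂, hpair⟩ := pairing (T : ℝ) (by positivity) m (by omega)
  obtain ⟨r₃, hr₃, hreg⟩ := regime 1 (T : ℝ) le_rfl (by positivity) m (by omega)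
  have hT0 : (0 : ℝ) ≤ T := by positivity
  set c₃ : ℝ := c₁ * ε₁ / 20 * (c₀ / (T + 1)) with hc₃
  have hc₃0 : 0 < c₃ := by positivity
  set r₄ : ℕ := ⌈Real.exp (4 + 2 / c₃)⌉₊ with hr₄
  refine ⟨c₃ ^ 2 / (4 * C), by positivity, max r₁ (max r₂ (max r₃ (max r₄ (2 * T + 1)))),
    le_trans hr₁ (le_max_left _ _), ?_⟩
  intro r _ hr χ hχ hg hbad U hU
  have hra : r₁ ≤ r := le_trans (le_max_left _ _) hr
  have hr' : max r₂ (max r₃ (max r₄ (2 * T + 1))) ≤ r := le_trans (le_max_right _ _) hr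
  have hrb : r₂ ≤ r := le_trans (le_max_left _ _) hr'
  have hr'' : max r₃ (max r₄ (2 * T + 1)) ≤ r := le_trans (le_max_right _ _) hr'
  have hrc : r₃ ≤ r := le_trans (le_max_left _ _) hr''
  have hr''' : max r₄ (2 * T + 1) ≤ r := le_trans (le_max_right _ _) hr''
  have hrd : r₄ ≤ r := le_trans (le_max_left _ _) hr'''
  have hre : 2 * T + 1 ≤ r := le_trans (le_max_right _ _) hr'''
  have hr3 : 3 ≤ r := hr₁.trans hra
  have hr0 : (0 : ℝ) < r := by exact_mod_cast (by omega : 0 < r)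
  have hexp : Real.exp (4 + 2 / c₃) ≤ r := (Nat.le_ceil _).trans (by exact_mod_cast hrd)
  have hexp4 : Real.exp 4 ≤ r := by
    refine le_trans (Real.exp_le_exp.2 ?_) hexp
    have : 0 ≤ 2 / c₃ := by positivity
    linarith
  have hl : 4 + 2 / c₃ ≤ Real.log r := by
    rw [Real.le_log_iff_exp_le hr0]
    exact hexp
  set l := Real.log r with hldef
  have h2c : 0 ≤ 2 / c₃ := by positivity
  have hl4 : 4 ≤ l := by linarith
  have hl0 : 0 < l := by linarith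
  have hbig : 2 ≤ c₃ * l ^ 2 := by
    have h1 : 2 / c₃ ≤ l := by linarith
    have h2 : 2 ≤ c₃ * l := by
      rw [div_le_iff₀ hc₃0] at h1
      linarith
    nlinarith
  obtain ⟨hV1, hV2, ⟨-, -, hsg, hvl⟩, -, -, -, hlV, hU1⟩ := hreg r hrc U hU
  set V := VV r U with hVdef
  have hV0 : 0 < V := by linarith
  obtain ⟨J, γ, hJ, hJg, hcard⟩ := select T hT ε₁ c₁ hε hε1 hc hc1 r hexp4 χ hχ b R K m hg hbad
  set M : ℕ → ℂ := fun j => MM r χ (pt r b (tj r T j)) with hM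
  set A : ℕ → ℂ := fun j => deriv χ.LFunction (1 / 2 + (γ j : ℂ) * I) * Complex.exp ((U : ℂ) * ((γ j : ℂ) * I)) /
    (1 / 2 + (γ j : ℂ) * I) with hA
  choose u hu1 hu2 using fun j => D5_phase (M j * A j)
  -- the lower bound of the main term
  have hlowj : ∀ j ∈ J, c₀ / (T + 1) * l ≤ ‖M j * A j‖ := by
    intro j hj
    obtain ⟨hgdj, hγT, hγt, h0, h1, hiso⟩ := hJg j hj
    have h2 := hlow r hr3 χ hχ K m (tj r T j) hgdj (γ j) hγt h0 h1 hiso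
    have h3 : ‖Complex.exp ((U : ℂ) * ((γ j : ℂ) * I))‖ = 1 := by
      rw [← mul_assoc, ← Complex.ofReal_mul]
      exact Complex.norm_exp_ofReal_mul_I _
    have h4 : ‖(1 / 2 + (γ j : ℂ) * I : ℂ)‖ ≤ T + 1 := by
      refine (norm_add_le _ _).trans ?_
      rw [norm_mul, Complex.norm_I, Complex.norm_real, Real.norm_eq_abs]
      have : ‖(1 / 2 : ℂ)‖ = 1 / 2 := by norm_num
      rw [this]
      linarith
    have h5 : 0 < ‖(1 / 2 + (γ j : ℂ) * I : ℂ)‖ := by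
      rw [norm_pos_iff]
      intro h
      have := congrArg Complex.re h
      simp at this
    have h6 : ‖M j * A j‖ = (‖deriv χ.LFunction (1 / 2 + (γ j : ℂ) * I)‖ * ‖M j‖) / ‖(1 / 2 + (γ j : ℂ) * I : ℂ)‖ := by
      rw [hA, norm_mul, norm_div, norm_mul, h3]
      ring
    rw [h6, le_div_iff₀ h5]
    calc c₀ / (T + 1) * l * ‖(1 / 2 + (γ j : ℂ) * I : ℂ)‖ ≤ c₀ / (T + 1) * l * (T + 1) := by gcongr
      _ = c₀ * l := by field_simp
      _ ≤ _ := h2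
  have hmain : c₃ * l ^ 2 ≤ ∑ j ∈ J, ‖M j * A j‖ := by
    have h1 : (J.card : ℝ) * (c₀ / (T + 1) * l) ≤ ∑ j ∈ J, ‖M j * A j‖ := by
      rw [← nsmul_eq_mul]
      exact Finset.card_nsmul_le_sum _ _ _ hlowj
    refine le_trans ?_ h1
    have h2 : 0 ≤ c₀ / (T + 1) * l := by positivity
    calc c₃ * l ^ 2 = (c₁ * ε₁ / 20 * l) * (c₀ / (T + 1) * l) := by rw [hc₃]; ring
      _ ≤ _ := mul_le_mul_of_nonneg_right hcard h2
  -- the coefficients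
  set cc : ℕ → ℂ := fun j => M j * u j with hcc
  have hccn : ∀ j, ‖cc j‖ = ‖M j‖ := fun j => by
    rw [hcc]
    simp only [norm_mul, hu1 j, mul_one]
  have hccA : ∀ j, cc j * A j = ((‖M j * A j‖ : ℝ) : ℂ) := fun j => by
    rw [← hu2 j]
    simp only [hcc]
    ring
  have hcont : ∀ j ∈ J, Continuous (hk χ m U (γ j)) := by
    intro j hj
    obtain ⟨hgdj, hγT, hγt, h0, h1, hiso⟩ := hJg j hj
    exact hk_cont r (by omega) χ hχ m U (γ j) hsg hvl.le h0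
  set H : ℝ → ℂ := fun v => ∑ j ∈ J, cc j * hk χ m U (γ j) v with hH
  have hHc : Continuous H := by
    refine continuous_finsetSum _ fun j hj => ?_
    exact continuous_const.mul (hcont j hj)
  have hint : ∀ j ∈ J, IntervalIntegrable (fun v => ff χ (U - v) * hk χ m U (γ j) v) volume (-V) V :=
    fun j hj => D5_int r χ U V hV0.le _ (hcont j hj)
  have hS : ∫ v in (-V)..V, ff χ (U - v) * H v =
      ∑ j ∈ J, cc j * ∫ v in (-V)..V, ff χ (U - v) * hk χ m U (γ j) v := by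
    have h1 : ∀ v, ff χ (U - v) * H v = ∑ j ∈ J, cc j * (ff χ (U - v) * hk χ m U (γ j) v) := by
      intro v
      rw [hH]
      simp only
      rw [Finset.mul_sum]
      exact Finset.sum_congr rfl fun j _ => by ring
    simp_rw [h1]
    rw [intervalIntegral.integral_finsetSum (fun j hj => (hint j hj).const_mul _)]
    exact Finset.sum_congr rfl fun j _ => intervalIntegral.integral_const_mul _ _
  -- the error
  have hMle : ∀ j, ‖M j‖ ≤ r := by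
    intro j
    have h1 : 0 ≤ (pt r b (tj r T j)).re := by
      unfold Pool.Agent.SO.pt
      have h2 : ((b : ℂ) / (Real.log r : ℂ)) = ((b / Real.log r : ℝ) : ℂ) := by push_cast; rfl
      rw [h2, Complex.add_re, Complex.add_re, Complex.ofReal_re, Complex.re_ofReal_mul, Complex.I_re]
      have h3 : 0 ≤ b / Real.log r := by positivity
      have h4 : (1 / 2 : ℂ).re = 1 / 2 := by norm_num
      rw [h4]
      linarith
    refine (Pool.Agent.SO.MM_le r (by omega) χ _ h1).trans ?_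
    have h2 : (1 : ℝ) ≤ r := by exact_mod_cast (by omega : 1 ≤ r)
    calc (r : ℝ) ^ (1 / 8 : ℝ) ≤ (r : ℝ) ^ (1 : ℝ) := Real.rpow_le_rpow_of_exponent_le h2 (by norm_num)
      _ = r := Real.rpow_one _
  have herr : ‖(∫ v in (-V)..V, ff χ (U - v) * H v) + ((∑ j ∈ J, ‖M j * A j‖ : ℝ) : ℂ)‖ ≤ 1 := by
    have h1 : (∫ v in (-V)..V, ff χ (U - v) * H v) + ((∑ j ∈ J, ‖M j * A j‖ : ℝ) : ℂ) =
        ∑ j ∈ J, cc j * ((∫ v in (-V)..V, ff χ (U - v) * hk χ m U (γ j) v) + A j) := by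
      rw [hS]
      push_cast
      rw [← Finset.sum_add_distrib]
      refine Finset.sum_congr rfl fun j _ => ?_
      rw [mul_add, hccA j]
    rw [h1]
    have h2 : ∀ j ∈ J, ‖cc j * ((∫ v in (-V)..V, ff χ (U - v) * hk χ m U (γ j) v) + A j)‖ ≤ r * Real.exp (-(U / 10)) := by
      intro j hj
      obtain ⟨hgdj, hγT, hγt, h0, h1, hiso⟩ := hJg j hj
      rw [norm_mul, hccn j]
      exact mul_le_mul (hMle j) (hpair r hrb χ hχ (γ j) hγT h0 U hU) (norm_nonneg _) hr0.le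
    refine (norm_sum_le _ _).trans ((Finset.sum_le_sum h2).trans ?_)
    rw [Finset.sum_const, nsmul_eq_mul]
    have h3 : (J.card : ℝ) ≤ (2 * T + 1) * r := by
      refine le_trans ?_ (D5_nj r T (by omega) hl0.le)
      have := Finset.card_le_card hJ
      rw [Finset.card_range] at this
      exact_mod_cast this
    have h4 : Real.exp (-(U / 10)) ≤ 1 / (r : ℝ) ^ 3 := by
      have h5 : -(U / 10) ≤ -(3 * l) := by linarith
      refine (Real.exp_le_exp.2 h5).trans (le_of_eq ?_)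
      rw [Real.exp_neg, one_div]
      congr 1
      have h6 : (3 : ℝ) * l = ((3 : ℕ) : ℝ) * l := by norm_num
      rw [h6, Real.exp_nat_mul, hldef, Real.exp_log hr0]
    have h5 : ((2 * T + 1 : ℕ) : ℝ) ≤ r := by exact_mod_cast hre
    push_cast at h5
    calc (J.card : ℝ) * (r * Real.exp (-(U / 10))) ≤ (r * r) * (r * (1 / (r : ℝ) ^ 3)) := by
          have h6 : (J.card : ℝ) ≤ r * r := h3.trans (by gcongr)
          gcongr
      _ = 1 := by field_simp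
  have hSlow : c₃ * l ^ 2 / 2 ≤ ‖∫ v in (-V)..V, ff χ (U - v) * H v‖ := by
    have h1 : ‖((∑ j ∈ J, ‖M j * A j‖ : ℝ) : ℂ)‖ = ∑ j ∈ J, ‖M j * A j‖ := by
      rw [Complex.norm_real, Real.norm_eq_abs, abs_of_nonneg (Finset.sum_nonneg fun _ _ => norm_nonneg _)]
    have h2 : ‖((∑ j ∈ J, ‖M j * A j‖ : ℝ) : ℂ)‖ ≤
        ‖(∫ v in (-V)..V, ff χ (U - v) * H v) + ((∑ j ∈ J, ‖M j * A j‖ : ℝ) : ℂ)‖ +
        ‖∫ v in (-V)..V, ff χ (U - v) * H v‖ := by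
      have := norm_sub_le ((∫ v in (-V)..V, ff χ (U - v) * H v) + ((∑ j ∈ J, ‖M j * A j‖ : ℝ) : ℂ))
        (∫ v in (-V)..V, ff χ (U - v) * H v)
      rwa [add_sub_cancel_left] at this
    rw [h1] at h2
    linarith
  -- the norm
  have hHn : ∫ v in (-V)..V, ‖H v‖ ^ 2 ≤ C * l ^ 3 / V := by
    have h1 := (plancherel_hk r (by omega) χ hχ m U V hV0.le hsg hvl.le J γ (fun j hj => (hJg j hj).2.2.2.1) cc).2
    refine h1.trans ?_
    exact hnorm r hra χ hχ b J γ hJ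
      (fun j hj => ⟨(hJg j hj).1, (hJg j hj).2.1, (hJg j hj).2.2.1, (hJg j hj).2.2.2.1⟩) U hU cc
      (fun j _ => hccn j)
  have hF0 : 0 ≤ ∫ v in (-V)..V, ‖ff χ (U - v)‖ ^ 2 :=
    intervalIntegral.integral_nonneg (by linarith) (fun v _ => by positivity)
  have hcs := D5_cs (fun v => ff χ (U - v)) H (-V) V (by linarith) (D5_int2 r χ U V hV0.le)
    ((hHc.norm.pow 2).intervalIntegrable _ _) (D5_int r χ U V hV0.le H hHc)
  have hsub : ∫ u in (U - V)..(U + V), ‖ff χ u‖ ^ 2 = ∫ v in (-V)..V, ‖ff χ (U - v)‖ ^ 2 := by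
    rw [intervalIntegral.integral_comp_sub_left (fun u => ‖ff χ u‖ ^ 2) U, sub_neg_eq_add]
  rw [hsub]
  set F := ∫ v in (-V)..V, ‖ff χ (U - v)‖ ^ 2 with hF
  have h7 : (c₃ * l ^ 2 / 2) ^ 2 ≤ F * (C * l ^ 3 / V) := by
    refine (pow_le_pow_left₀ (by positivity) hSlow 2).trans (hcs.trans ?_)
    exact mul_le_mul_of_nonneg_left hHn hF0
  have h8 : c₃ ^ 2 / (4 * C) * l * V = (c₃ * l ^ 2 / 2) ^ 2 * (V / (C * l ^ 3)) := by
    field_simp
    ring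
  have h9 : F * (C * l ^ 3 / V) * (V / (C * l ^ 3)) = F := by
    field_simp
  rw [h8]
  calc (c₃ * l ^ 2 / 2) ^ 2 * (V / (C * l ^ 3)) ≤ F * (C * l ^ 3 / V) * (V / (C * l ^ 3)) := by gcongr
    _ = F := h9

end Pool.Agent.SE
end
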