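import Pool.Agent.Lib.MP_9cfc0a_nt.SE.C3
import Pool.Agent.Lib.MP_9cfc0a_nt.Mg.G018
import Pool.Agent.Lib.MP_9cfc0a_nt.SD.LE

section

set_option autoImplicit false

/-! Task C4: the chain with isolated zeros. -/

namespace Pool.Agent.SE

open Complex MeasureTheory
open Pool.Agent.SK Pool.Agent.SD
open Pool.Agent.SO (prim NN)

private theorem C4_good_mono {r : ℕ} [NeZero r] (χ : DirichletCharacter ℂ r) (ε θ θ' D T₀ : ℝ) (hθ : θ ≤ θ')
    (hG : Good χ ε θ D T₀) : Good χ ε θ' D T₀ := by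
  refine ⟨hG.zf, hG.pr.trans ?_, hG.p0.trans ?_⟩
  · exact mul_le_mul_of_nonneg_right hθ (sq_nonneg _)
  · exact mul_le_mul_of_nonneg_right hθ (sq_nonneg _)

/-- C4. PROOF. As `chain2` in SD/LD.lean (COPY it). `chain_final2 h (δ/4)` gives `η ≤ (δ/4) h`, `κ, θ₁`. `count_both ε (η/8) (h+η) T₀` and
`count_both ε (η/8) (h+η/2) T₀` (`h + η ≤ 1`) give `θ₂, θ₃`; `θ = min`. (`Good` with a smaller `θ` implies `Good` with a larger one: `M2_good_mono`.) `ε₁ = min 1 (δ/4096)`-like. For `d = ε₁/log r`,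
`Y ≤ 2 log r`: `κ' = 4 ε₁ ≥ 2 d Y`, `κ' ≤ 1/2`, `d ≤ η/2` for `r` large. `G_lower3` with `κ'`; `chain_final2` is applied with
`N := isoN χ T (h+η) u d + 32 κ' (3 L + C₀ + 4)` (`≥ 0`). The term `(Y/2) 32 κ' (3L + C₀ + 4) ≤ (δ/4) L Y` (`L` large) and, by `isoN_le` and `count_both`
(`NW (h+η) ≤ ((h+η)/π + η/8) L`, `NW (h+η/2) ≥ ((h+η/2)/π - η/8) L`; `NW_band_eq`, `IZ_band_eq` to change the height `T` to `T₀ + 2`):
`isoN ≤ NU (IZ χ (T₀+2) d) (h+η) u + η L`, `(Y/2) η L ≤ (δ/4) L Y`. `Y ≤ 2 log r ≤ (log r)^(2-ε)` needs `ε ≤ 1/2` and `r` large. -/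
theorem chain3 (ε δ h T₀ : ℝ) (hε : 0 < ε) (hε1 : ε ≤ 1 / 2) (hδ : 0 < δ) (hδ1 : δ ≤ 1) (hh : 0 < h) (hh1 : h ≤ 1 / 2)
    (hT : 0 < T₀) : ∃ η θ ε₁ : ℝ, 0 < η ∧ η ≤ 1 / 2 ∧ η ≤ δ * h ∧ 0 < θ ∧ 0 < ε₁ ∧ ε₁ ≤ 1 ∧ ∀ D : ℝ, 0 < D → ∃ r₀ : ℕ, 3 ≤ r₀ ∧
      ∀ (r : ℕ) [NeZero r], r₀ ≤ r →
      ∀ χ ∈ prim r, Good χ ε θ D (T₀ + 2) → ∀ u : ℝ, |u| ≤ T₀ → ∀ Y : ℝ, Real.log r / 2 ≤ Y →
      Y ≤ 2 * Real.log r →
      h / (2 * Real.pi) * (2 * (Real.log r * Y) - Real.log r ^ 2) -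
          Y / 2 * NU (IZ χ (T₀ + 2) (ε₁ / Real.log r)) (h + η) u - δ * (Real.log r * Y) ≤
        ∫ t in (Real.log r ^ (1 / 2 : ℝ))..Y,
          (1 - t / Y) * ‖PU χ (Real.log r ^ (1 / 2 - ε / 4 : ℝ)) (u - h) (u + h) t‖ ^ 2 := by
  have hε1' : ε ≤ 1 := by linarith
  have hh1' : h ≤ 1 := by linarith
  obtain ⟨η, κ, θ, hη, hη1, hηδ, hκ, hκ1, hθ, hθ1, hfin⟩ :=
    chain_final2 h (δ / 4) hh hh1' (by positivity)
  have hηδ4 : η ≤ δ / 8 := by
    calc η ≤ δ / 4 * h := hηδ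
      _ ≤ δ / 4 * (1 / 2) := mul_le_mul_of_nonneg_left hh1 (by positivity)
      _ = δ / 8 := by ring
  obtain ⟨θ₂, hθ₂, hcb₂⟩ := count_both ε (η / 8) (h + η) T₀ hε hε1' (by positivity) (by linarith)
    (by linarith) (by linarith) hT
  obtain ⟨θ₃, hθ₃, hcb₃⟩ := count_both ε (η / 8) (h + η / 2) T₀ hε hε1' (by positivity) (by linarith)
    (by linarith) (by linarith) hT
  refine ⟨η, min θ (min θ₂ θ₃), δ / 4096, hη, hη1, ?_, lt_min hθ (lt_min hθ₂ hθ₃), by positivity,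
    by linarith, fun D hD => ?_⟩
  · calc η ≤ δ / 4 * h := hηδ
      _ ≤ δ * h := mul_le_mul_of_nonneg_right (by linarith) hh.le
  obtain ⟨C₀, hC₀, r₁, hr₁, hEF⟩ := EFp_holds ε (T₀ + 2) hε hε1' (by linarith)
  obtain ⟨C, hC, r₂, hr₂, hZ⟩ := Z_count
  obtain ⟨r₃, hr₃, hc₂⟩ := hcb₂ D hD
  obtain ⟨r₄, hr₄, hc₃⟩ := hcb₃ D hD
  obtain ⟨L₁, hL₁, hn₁⟩ := chain_numeric ε D C η 1 hε hε1' hD (by linarith) hη one_pos
  obtain ⟨L₂, hL₂, hn₂⟩ := chain_numeric ε D C η (1 / 4) hε hε1' hD (by linarith) hη (by norm_num)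
  obtain ⟨L₀, hL₀, hf⟩ := hfin C₀ hC₀.le
  set M : ℝ := max (max (max (max L₁ L₂) (max L₀ 4)) (T₀ + 2)) (max (C₀ + 4) (δ / η)) with hM
  refine ⟨max (max (max r₁ r₂) (max 3 ⌈Real.exp M⌉₊)) (max r₃ r₄), ?_, ?_⟩
  · exact le_trans (le_trans (le_max_left _ _) (le_max_right _ _)) (le_max_left _ _)
  intro r _ hr χ hχ hG0 u hu Y hY1 hY2L
  have hG : Good χ ε θ D (T₀ + 2) := C4_good_mono χ ε _ θ D (T₀ + 2) (min_le_left _ _) hG0
  have hrr₃ : r₃ ≤ r := le_trans (le_trans (le_max_left _ _) (le_max_right _ _)) hr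
  have hrr₄ : r₄ ≤ r := le_trans (le_trans (le_max_right _ _) (le_max_right _ _)) hr
  have hcU := (hc₂ r hrr₃ χ hχ (C4_good_mono χ ε _ θ₂ D (T₀ + 2)
    ((min_le_right _ _).trans (min_le_left _ _)) hG0) u hu).2
  have hcL := (hc₃ r hrr₄ χ hχ (C4_good_mono χ ε _ θ₃ D (T₀ + 2)
    ((min_le_right _ _).trans (min_le_right _ _)) hG0) u hu).1
  replace hr := le_trans (le_max_left _ _) hr
  have hrr₁ : r₁ ≤ r := le_trans (le_trans (le_max_left _ _) (le_max_left _ _)) hr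
  have hrr₂ : r₂ ≤ r := le_trans (le_trans (le_max_right _ _) (le_max_left _ _)) hr
  have hr3 : 3 ≤ r := le_trans (le_trans (le_max_left _ _) (le_max_right _ _)) hr
  have hrM : ⌈Real.exp M⌉₊ ≤ r := le_trans (le_trans (le_max_right _ _) (le_max_right _ _)) hr
  have hrM' : Real.exp M ≤ (r : ℝ) := le_trans (Nat.le_ceil _) (by exact_mod_cast hrM)
  obtain ⟨T, hT1, hT2, hEFT⟩ := hEF r hrr₁ χ hχ
  set L : ℝ := Real.log r with hL
  have hML : M ≤ L := by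
    rw [hL, Real.le_log_iff_exp_le (by positivity)]
    exact hrM'
  have hML0 : max (max (max L₁ L₂) (max L₀ 4)) (T₀ + 2) ≤ L := le_trans (le_max_left _ _) hML
  have hML' : max (max L₁ L₂) (max L₀ 4) ≤ L := le_trans (le_max_left _ _) hML0
  have hLT : T₀ + 2 ≤ L := le_trans (le_max_right _ _) hML0
  have hLC : C₀ + 4 ≤ L := le_trans (le_trans (le_max_left _ _) (le_max_right _ _)) hML
  have hLη : δ / η ≤ L := le_trans (le_trans (le_max_right _ _) (le_max_right _ _)) hML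
  have hLL₁ : L₁ ≤ L := le_trans (le_trans (le_max_left _ _) (le_max_left _ _)) hML'
  have hLL₂ : L₂ ≤ L := le_trans (le_trans (le_max_right _ _) (le_max_left _ _)) hML'
  have hLL₀ : L₀ ≤ L := le_trans (le_trans (le_max_left _ _) (le_max_right _ _)) hML'
  have hL4 : 4 ≤ L := le_trans (le_trans (le_max_right _ _) (le_max_right _ _)) hML'
  have hL0 : 0 < L := by linarith
  have hL1 : 1 ≤ L := by linarith
  have hY2 : Y ≤ L ^ (2 - ε) := by
    have h1 : L ^ (3 / 2 : ℝ) ≤ L ^ (2 - ε) := Real.rpow_le_rpow_of_exponent_le hL1 (by linarith)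
    have h2 : L ^ (3 / 2 : ℝ) = L * L ^ (1 / 2 : ℝ) := by
      rw [show (3 / 2 : ℝ) = 1 + 1 / 2 by norm_num, Real.rpow_add hL0, Real.rpow_one]
    have h3 : 2 ≤ L ^ (1 / 2 : ℝ) := C7C_two_le hL4
    have h4 : L * 2 ≤ L * L ^ (1 / 2 : ℝ) := mul_le_mul_of_nonneg_left h3 hL0.le
    rw [h2] at h1
    linarith
  obtain ⟨hW1, hWδ, hs1, hs2, -⟩ := hn₁ L hLL₁
  obtain ⟨-, -, -, -, hq⟩ := hn₂ L hLL₂
  set W : ℝ := L ^ (1 / 2 - ε / 4 : ℝ) with hW
  set A : ℝ := L ^ (1 / 2 : ℝ) with hA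
  have hA0 : 0 ≤ A := by positivity
  have hAsq : A ^ 2 = L := by
    rw [hA, ← Real.rpow_natCast, ← Real.rpow_mul hL0.le]
    norm_num
  have hA2 : 2 ≤ A := C7C_two_le hL4
  have hAL : A ≤ L / 2 := by
    have h := mul_le_mul_of_nonneg_left hA2 hA0
    rw [← sq, hAsq] at h
    linarith
  have hAY : A ≤ Y := by linarith
  have hY0 : 0 < Y := by linarith
  have hYL : Y ≤ L ^ 2 := by
    refine hY2.trans ?_
    rw [← Real.rpow_natCast L 2]
    apply Real.rpow_le_rpow_of_exponent_le hL1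
    push_cast
    linarith
  have hAL2 : A ≤ L ^ 2 := hAY.trans hYL
  set δ₀ : ℝ := D * Real.log L / L with hδ₀
  have hδ₀0 : 0 ≤ δ₀ := by
    have := Real.log_nonneg hL1
    positivity
  have hδ1 : ∀ w ∈ Z χ T, |w.re| ≤ δ₀ := by
    intro w hw
    have hw' := (mem_Z r (by omega) χ hχ T w).1 hw
    exact hG.zf w hw'.1 (by linarith [hw'.2])
  have hN : ∑ w ∈ Z χ T, mu χ w ≤ C * L ^ 2 := by
    refine le_trans ?_ (hZ r hrr₂ χ hχ)
    refine Finset.sum_le_sum_of_subset_of_nonneg ?_ (fun w _ _ => mu_nonneg r χ w)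
    intro w hw
    rw [mem_Z r (by omega) χ hχ] at hw ⊢
    exact ⟨hw.1, by linarith [hw.2]⟩
  have hu' := abs_le.mp hu
  have hsθ : Real.sqrt θ ≤ 1 / 10 := by
    rw [Real.sqrt_le_left (by norm_num)]
    linarith
  have hsθ0 : 0 ≤ Real.sqrt θ := Real.sqrt_nonneg θ
  have hsθ2 : Real.sqrt θ ^ 2 = θ := Real.sq_sqrt hθ.le
  set p : ℝ := 2 * Real.sqrt θ * L with hp
  have hp0 : 0 ≤ p := by positivity
  have hp2 : p ^ 2 = 4 * θ * L ^ 2 := by
    rw [hp, mul_pow, mul_pow, hsθ2]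
    ring
  have hpL : p ≤ L := by
    rw [hp]
    calc 2 * Real.sqrt θ * L ≤ 1 * L := mul_le_mul_of_nonneg_right (by linarith) hL0.le
      _ = L := one_mul L
  have hθL : 0 ≤ θ * L ^ 2 := by positivity
  obtain ⟨g1, g2⟩ := good_PU r hr3 χ ε θ D (T₀ + 2) (u - h) (u + h) hε hε1' hG hθ.le (by linarith)
    (by linarith) (by linarith)
  obtain ⟨g3, -⟩ := good_PU r hr3 χ ε θ D (T₀ + 2) (u - h - 2 * η) (u + h + 2 * η) hε hε1' hG hθ.le
    (by linarith) (by linarith) (by linarith)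
  have hb1 : u + h - (u - h) ≤ 4 := by linarith
  have hb3' : u + h + 2 * η - (u - h - 2 * η) ≤ 4 := by linarith
  have e1 : (u + h - (u - h)) * (θ * L ^ 2) ≤ 4 * θ * L ^ 2 :=
    (mul_le_mul_of_nonneg_right hb1 hθL).trans (le_of_eq (by ring))
  have e3 : (u + h + 2 * η - (u - h - 2 * η)) * (θ * L ^ 2) ≤ 4 * θ * L ^ 2 :=
    (mul_le_mul_of_nonneg_right hb3' hθL).trans (le_of_eq (by ring))
  have hp1' : ‖PU χ W (u - h) (u + h) 0‖ ≤ p := by
    rw [← pow_le_pow_iff_left₀ (norm_nonneg _) hp0 two_ne_zero]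
    rw [hp2]
    exact g1.trans e1
  have hp2' : ‖PU χ W (u - h - 2 * η) (u + h + 2 * η) 0‖ ≤ p := by
    rw [← pow_le_pow_iff_left₀ (norm_nonneg _) hp0 two_ne_zero]
    rw [hp2]
    exact g3.trans e3
  have hP1 : ∫ t in (-A)..A, ‖PU χ W (u - h) (u + h) t‖ ^ 2 ≤ 4 * θ * L ^ 2 :=
    (g2 (-A) A (by linarith) (by linarith) le_rfl).trans e1
  have hP2 : ∫ t in (-Y)..(-A), ‖PU χ W (u - h) (u + h) t‖ ^ 2 ≤ 4 * θ * L ^ 2 :=
    (g2 (-Y) (-A) (by linarith) (by linarith) (by linarith)).trans e1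
  have hQ : L ^ 2 * ∫ t in A..Y, ‖kap W (u - h) (u + h) t‖ ^ 2 ≤ 1 := by
    have ht := kap_tail W (u - h) (u + h) A Y (by linarith) (by linarith) hA0 hAY
    rw [hAsq] at ht
    have hE : 0 < Real.exp (-(L / W ^ 2)) := Real.exp_pos _
    have h1 : (u + h - (u - h)) ^ 2 * Y * Real.exp (-(L / W ^ 2)) ≤
        4 * L ^ 2 * Real.exp (-(L / W ^ 2)) := by
      apply mul_le_mul_of_nonneg_right _ hE.le
      have h2 : (u + h - (u - h)) ^ 2 ≤ 4 := by
        have h3 : u + h - (u - h) = 2 * h := by ring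
        rw [h3]
        have h4 := pow_le_pow_left₀ (by linarith : 0 ≤ 2 * h) (by linarith : 2 * h ≤ 2) 2
        exact h4.trans (by norm_num)
      exact mul_le_mul h2 hYL hY0.le (by norm_num)
    calc L ^ 2 * ∫ t in A..Y, ‖kap W (u - h) (u + h) t‖ ^ 2
        ≤ L ^ 2 * (4 * L ^ 2 * Real.exp (-(L / W ^ 2))) :=
          mul_le_mul_of_nonneg_left (ht.trans h1) (by positivity)
      _ = 4 * (L ^ 4 * Real.exp (-(L / W ^ 2))) := by ring
      _ ≤ 1 := by linarith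
  have hs1' : L * (C * L ^ 2) * Real.exp (-(W ^ 2 * η ^ 2 / 2) + δ₀ * Y) ≤ 1 := by
    refine le_trans ?_ hs1
    apply mul_le_mul_of_nonneg_left _ (by positivity)
    apply Real.exp_le_exp.mpr
    have := mul_le_mul_of_nonneg_left hY2 hδ₀0
    linarith
  set d : ℝ := δ / 4096 / L with hd
  have hd0 : 0 < d := by positivity
  have hdL : d * L = δ / 4096 := by
    rw [hd]
    field_simp
  have hd1 : d ≤ 1 := by
    rw [hd, div_le_one hL0]
    linarith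
  have hκd : 2 * d * Y ≤ 4 * (δ / 4096) := by
    have h1 : 2 * d * Y ≤ 2 * d * (2 * L) := mul_le_mul_of_nonneg_left hY2L (by positivity)
    have h2 : 2 * d * (2 * L) = 4 * (d * L) := by ring
    rw [h2, hdL] at h1
    exact h1
  have hdη : d ≤ η / 2 := by
    rw [div_le_iff₀ hη] at hLη
    rw [hd, div_le_iff₀ hL0]
    have h1 : η / 2 * L = L * η / 2 := by ring
    rw [h1]
    linarith only [hLη, hδ]
  have hGl := G_lower3 r hr3 χ hχ T W C₀ (L ^ (2 - ε)) (T₀ + 2) u h η δ₀ (C * L ^ 2) Y p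
    (4 * (δ / 4096)) d hW1 hY0 hY2
    hh.le hh1' hη.le (by linarith) hδ₀0 hδ1 hWδ hN hEFT hC₀.le (by linarith) hp1' hp2' hpL hs1' hs2
    hd0 hκd (by linarith)
  have hsp := spike r χ T W C₀ (L ^ (2 - ε)) (T₀ + 2) u h κ A Y (4 * θ * L ^ 2) (by linarith) hA0
    hAY hY0 hY2 hh.le hκ hC₀.le hEFT (by linarith) hP1
  have hou := outer r χ T W C₀ (L ^ (2 - ε)) (T₀ + 2) u h κ A Y (4 * θ * L ^ 2) 1 (by linarith) hA0
    hAY hY0 hY2 hh.le hκ hC₀.le hEFT (by linarith) hP2 hQ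
  have hcont : Continuous (fun t : ℝ => (1 - t / Y) * ‖Gu χ T W (u - h) (u + h) t‖ ^ 2) := by
    have := C7C_Gu_cont χ T W (u - h) (u + h)
    fun_prop
  have hadd := intervalIntegral.integral_add_adjacent_intervals
    (hcont.intervalIntegrable (μ := volume) 0 A) (hcont.intervalIntegrable (μ := volume) A Y)
  rw [← hadd] at hGl
  have hIZ := isoN_le r (by omega) χ hχ T h η u d hh.le hη.le hdη (by linarith)
  rw [IZ_band_eq r (by omega) χ hχ T (T₀ + 2) (h + η) u d (by linarith) (by linarith),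
    NW_band_eq r (by omega) χ hχ T (T₀ + 2) (h + η) u (by linarith) (by linarith),
    NW_band_eq r (by omega) χ hχ T (T₀ + 2) (h + η / 2) u (by linarith) (by linarith)] at hIZ
  have hmain := hf L Y A p (4 * θ * L ^ 2)
    (∫ t in A..Y, (1 - t / Y) * ‖PU χ W (u - h) (u + h) t‖ ^ 2)
    (∫ t in (0 : ℝ)..A, (1 - t / Y) * ‖Gu χ T W (u - h) (u + h) t‖ ^ 2)
    (∫ t in A..Y, (1 - t / Y) * ‖Gu χ T W (u - h) (u + h) t‖ ^ 2)
    (isoN χ T (h + η) u d + 32 * (4 * (δ / 4096)) * (3 * L + C₀ + 4)) hLL₀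
    (by linarith) hA0 hAY hp0 hp2.le le_rfl ?_ ?_ ?_ hsp hou
  · have hiso : isoN χ T (h + η) u d ≤ NU (IZ χ (T₀ + 2) d) (h + η) u + η * L := by
      have h1 : (h + η) / Real.pi - (h + η / 2) / Real.pi = η * (1 / (2 * Real.pi)) := by
        field_simp
        ring
      have h2 : 1 / (2 * Real.pi) ≤ 1 / 2 := by
        apply one_div_le_one_div_of_le (by norm_num)
        linarith [Real.pi_gt_three]
      have h3 : η * (1 / (2 * Real.pi)) ≤ η * (1 / 2) := mul_le_mul_of_nonneg_left h2 hη.le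
      have h4 : ((h + η) / Real.pi + η / 8) * L - ((h + η / 2) / Real.pi - η / 8) * L ≤ η * L := by
        rw [← sub_mul]
        apply mul_le_mul_of_nonneg_right _ hL0.le
        linarith
      linarith
    have h5 : Y / 2 * isoN χ T (h + η) u d ≤
        Y / 2 * NU (IZ χ (T₀ + 2) d) (h + η) u + δ / 16 * (L * Y) := by
      have h6 := mul_le_mul_of_nonneg_left hiso (by positivity : 0 ≤ Y / 2)
      have h7 : η * (L * Y) ≤ δ / 8 * (L * Y) :=
        mul_le_mul_of_nonneg_right hηδ4 (by positivity)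
      have h8 : Y / 2 * (NU (IZ χ (T₀ + 2) d) (h + η) u + η * L) =
        Y / 2 * NU (IZ χ (T₀ + 2) d) (h + η) u + 1 / 2 * (η * (L * Y)) := by ring
      rw [h8] at h6
      linarith
    have h9 : Y / 2 * (32 * (4 * (δ / 4096)) * (3 * L + C₀ + 4)) ≤ δ / 16 * (L * Y) := by
      have h10 : 3 * L + C₀ + 4 ≤ 4 * L := by linarith
      have h11 := mul_le_mul_of_nonneg_left h10 (by positivity : 0 ≤ Y / 2 * (32 * (4 * (δ / 4096))))
      have h12 : Y / 2 * (32 * (4 * (δ / 4096))) * (4 * L) = δ / 16 * (L * Y) := by ring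
      rw [h12] at h11
      linarith
    have hLY : 0 ≤ δ * (L * Y) := by positivity
    rw [mul_add] at hmain
    linarith
  · apply intervalIntegral.integral_nonneg hAY
    intro t ht
    have : 0 ≤ 1 - t / Y := by
      rw [sub_nonneg, div_le_one hY0]
      exact ht.2
    positivity
  · have h1 : 0 ≤ isoN χ T (h + η) u d := by
      unfold isoN
      exact Nat.cast_nonneg _
    positivity
  · refine le_trans (le_of_eq ?_) hGl
    ring

end Pool.Agent.SE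
end

section

set_option autoImplicit false

/-! Task C4: the chain with isolated zeros, `Y` up to `B log r`. -/

namespace Pool.Agent.SG

open Complex MeasureTheory
open Pool.Agent.SK Pool.Agent.SD Pool.Agent.SE
open Pool.Agent.SO (prim NN)

private theorem C4_good_mono {r : ℕ} [NeZero r] (χ : DirichletCharacter ℂ r) (ε θ θ' D T₀ : ℝ) (hθ : θ ≤ θ')
    (hG : Good χ ε θ D T₀) : Good χ ε θ' D T₀ := by
  refine ⟨hG.zf, hG.pr.trans ?_, hG.p0.trans ?_⟩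
  · exact mul_le_mul_of_nonneg_right hθ (sq_nonneg _)
  · exact mul_le_mul_of_nonneg_right hθ (sq_nonneg _)

/-- C4. PROOF. COPY the proof of `chain3` in SE/C4.lean (private helpers prefixed `C4_`). Changes: `ε₁ = δ/4096 * (2/B)` (`≤ δ/4096` as `B ≥ 2`) and `d = ε₁/L`; `hκd : 2 * d * Y ≤ 4 * (δ/4096)` as `2 d (B L) = 4 (δ/4096)`;
`hY2 : Y ≤ L^(2-ε)` needs `B ≤ L^(1/2)`: put `B^2` into the maximum `M`. -/
theorem chainB (B : ℝ) (hB : 2 ≤ B) (ε δ h T₀ : ℝ) (hε : 0 < ε) (hε1 : ε ≤ 1 / 2) (hδ : 0 < δ) (hδ1 : δ ≤ 1) (hh : 0 < h) (hh1 : h ≤ 1 / 2)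
    (hT : 0 < T₀) : ∃ η θ ε₁ : ℝ, 0 < η ∧ η ≤ 1 / 2 ∧ η ≤ δ * h ∧ 0 < θ ∧ 0 < ε₁ ∧ ε₁ ≤ 1 ∧ ∀ D : ℝ, 0 < D → ∃ r₀ : ℕ, 3 ≤ r₀ ∧
      ∀ (r : ℕ) [NeZero r], r₀ ≤ r →
      ∀ χ ∈ prim r, Good χ ε θ D (T₀ + 2) → ∀ u : ℝ, |u| ≤ T₀ → ∀ Y : ℝ, Real.log r / 2 ≤ Y →
      Y ≤ B * Real.log r →
      h / (2 * Real.pi) * (2 * (Real.log r * Y) - Real.log r ^ 2) -
          Y / 2 * NU (IZ χ (T₀ + 2) (ε₁ / Real.log r)) (h + η) u - δ * (Real.log r * Y) ≤
        ∫ t in (Real.log r ^ (1 / 2 : ℝ))..Y,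
          (1 - t / Y) * ‖PU χ (Real.log r ^ (1 / 2 - ε / 4 : ℝ)) (u - h) (u + h) t‖ ^ 2 := by
  have hε1' : ε ≤ 1 := by linarith
  have hh1' : h ≤ 1 := by linarith
  obtain ⟨η, κ, θ, hη, hη1, hηδ, hκ, hκ1, hθ, hθ1, hfin⟩ :=
    chain_final2 h (δ / 4) hh hh1' (by positivity)
  have hηδ4 : η ≤ δ / 8 := by
    calc η ≤ δ / 4 * h := hηδ
      _ ≤ δ / 4 * (1 / 2) := mul_le_mul_of_nonneg_left hh1 (by positivity)
      _ = δ / 8 := by ring
  obtain ⟨θ₂, hθ₂, hcb₂⟩ := count_both ε (η / 8) (h + η) T₀ hε hε1' (by positivity) (by linarith)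
    (by linarith) (by linarith) hT
  obtain ⟨θ₃, hθ₃, hcb₃⟩ := count_both ε (η / 8) (h + η / 2) T₀ hε hε1' (by positivity) (by linarith)
    (by linarith) (by linarith) hT
  have hB0 : 0 < B := by linarith
  have he0 : 0 < δ / 4096 * (2 / B) := by positivity
  have he1 : δ / 4096 * (2 / B) ≤ δ / 4096 := by
    have h1 : 2 / B ≤ 1 := by
      rw [div_le_one hB0]
      exact hB
    calc δ / 4096 * (2 / B) ≤ δ / 4096 * 1 := mul_le_mul_of_nonneg_left h1 (by positivity)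
      _ = δ / 4096 := mul_one _
  refine ⟨η, min θ (min θ₂ θ₃), δ / 4096 * (2 / B), hη, hη1, ?_, lt_min hθ (lt_min hθ₂ hθ₃), he0,
    by linarith, fun D hD => ?_⟩
  · calc η ≤ δ / 4 * h := hηδ
      _ ≤ δ * h := mul_le_mul_of_nonneg_right (by linarith) hh.le
  obtain ⟨C₀, hC₀, r₁, hr₁, hEF⟩ := EFp_holds ε (T₀ + 2) hε hε1' (by linarith)
  obtain ⟨C, hC, r₂, hr₂, hZ⟩ := Z_count
  obtain ⟨r₃, hr₃, hc₂⟩ := hcb₂ D hD
  obtain ⟨r₄, hr₄, hc₃⟩ := hcb₃ D hD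
  obtain ⟨L₁, hL₁, hn₁⟩ := chain_numeric ε D C η 1 hε hε1' hD (by linarith) hη one_pos
  obtain ⟨L₂, hL₂, hn₂⟩ := chain_numeric ε D C η (1 / 4) hε hε1' hD (by linarith) hη (by norm_num)
  obtain ⟨L₀, hL₀, hf⟩ := hfin C₀ hC₀.le
  set M₁ : ℝ := max (max (max (max L₁ L₂) (max L₀ 4)) (T₀ + 2)) (max (C₀ + 4) (δ / η)) with hM₁
  set M : ℝ := max M₁ (B ^ 2) with hM
  refine ⟨max (max (max r₁ r₂) (max 3 ⌈Real.exp M⌉₊)) (max r₃ r₄), ?_, ?_⟩
  · exact le_trans (le_trans (le_max_left _ _) (le_max_right _ _)) (le_max_left _ _)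
  intro r _ hr χ hχ hG0 u hu Y hY1 hY2L
  have hG : Good χ ε θ D (T₀ + 2) := C4_good_mono χ ε _ θ D (T₀ + 2) (min_le_left _ _) hG0
  have hrr₃ : r₃ ≤ r := le_trans (le_trans (le_max_left _ _) (le_max_right _ _)) hr
  have hrr₄ : r₄ ≤ r := le_trans (le_trans (le_max_right _ _) (le_max_right _ _)) hr
  have hcU := (hc₂ r hrr₃ χ hχ (C4_good_mono χ ε _ θ₂ D (T₀ + 2)
    ((min_le_right _ _).trans (min_le_left _ _)) hG0) u hu).2
  have hcL := (hc₃ r hrr₄ χ hχ (C4_good_mono χ ε _ θ₃ D (T₀ + 2)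
    ((min_le_right _ _).trans (min_le_right _ _)) hG0) u hu).1
  replace hr := le_trans (le_max_left _ _) hr
  have hrr₁ : r₁ ≤ r := le_trans (le_trans (le_max_left _ _) (le_max_left _ _)) hr
  have hrr₂ : r₂ ≤ r := le_trans (le_trans (le_max_right _ _) (le_max_left _ _)) hr
  have hr3 : 3 ≤ r := le_trans (le_trans (le_max_left _ _) (le_max_right _ _)) hr
  have hrM : ⌈Real.exp M⌉₊ ≤ r := le_trans (le_trans (le_max_right _ _) (le_max_right _ _)) hr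
  have hrM' : Real.exp M ≤ (r : ℝ) := le_trans (Nat.le_ceil _) (by exact_mod_cast hrM)
  obtain ⟨T, hT1, hT2, hEFT⟩ := hEF r hrr₁ χ hχ
  set L : ℝ := Real.log r with hL
  have hML : M ≤ L := by
    rw [hL, Real.le_log_iff_exp_le (by positivity)]
    exact hrM'
  have hM1L : M₁ ≤ L := le_trans (le_max_left _ _) hML
  have hBL : B ^ 2 ≤ L := le_trans (le_max_right _ _) hML
  have hML0 : max (max (max L₁ L₂) (max L₀ 4)) (T₀ + 2) ≤ L := le_trans (le_max_left _ _) hM1L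
  have hML' : max (max L₁ L₂) (max L₀ 4) ≤ L := le_trans (le_max_left _ _) hML0
  have hLT : T₀ + 2 ≤ L := le_trans (le_max_right _ _) hML0
  have hLC : C₀ + 4 ≤ L := le_trans (le_trans (le_max_left _ _) (le_max_right _ _)) hM1L
  have hLη : δ / η ≤ L := le_trans (le_trans (le_max_right _ _) (le_max_right _ _)) hM1L
  have hLL₁ : L₁ ≤ L := le_trans (le_trans (le_max_left _ _) (le_max_left _ _)) hML'
  have hLL₂ : L₂ ≤ L := le_trans (le_trans (le_max_right _ _) (le_max_left _ _)) hML'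
  have hLL₀ : L₀ ≤ L := le_trans (le_trans (le_max_left _ _) (le_max_right _ _)) hML'
  have hL4 : 4 ≤ L := le_trans (le_trans (le_max_right _ _) (le_max_right _ _)) hML'
  have hL0 : 0 < L := by linarith
  have hL1 : 1 ≤ L := by linarith
  have hY2 : Y ≤ L ^ (2 - ε) := by
    have h1 : L ^ (3 / 2 : ℝ) ≤ L ^ (2 - ε) := Real.rpow_le_rpow_of_exponent_le hL1 (by linarith)
    have h2 : L ^ (3 / 2 : ℝ) = L * L ^ (1 / 2 : ℝ) := by
      rw [show (3 / 2 : ℝ) = 1 + 1 / 2 by norm_num, Real.rpow_add hL0, Real.rpow_one]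
    have h3 : B ≤ L ^ (1 / 2 : ℝ) := by
      rw [← Real.sqrt_eq_rpow]
      exact Real.le_sqrt_of_sq_le hBL
    have h4 : L * B ≤ L * L ^ (1 / 2 : ℝ) := mul_le_mul_of_nonneg_left h3 hL0.le
    rw [h2] at h1
    linarith
  obtain ⟨hW1, hWδ, hs1, hs2, -⟩ := hn₁ L hLL₁
  obtain ⟨-, -, -, -, hq⟩ := hn₂ L hLL₂
  set W : ℝ := L ^ (1 / 2 - ε / 4 : ℝ) with hW
  set A : ℝ := L ^ (1 / 2 : ℝ) with hA
  have hA0 : 0 ≤ A := by positivity
  have hAsq : A ^ 2 = L := by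
    rw [hA, ← Real.rpow_natCast, ← Real.rpow_mul hL0.le]
    norm_num
  have hA2 : 2 ≤ A := C7C_two_le hL4
  have hAL : A ≤ L / 2 := by
    have h := mul_le_mul_of_nonneg_left hA2 hA0
    rw [← sq, hAsq] at h
    linarith
  have hAY : A ≤ Y := by linarith
  have hY0 : 0 < Y := by linarith
  have hYL : Y ≤ L ^ 2 := by
    refine hY2.trans ?_
    rw [← Real.rpow_natCast L 2]
    apply Real.rpow_le_rpow_of_exponent_le hL1
    push_cast
    linarith
  have hAL2 : A ≤ L ^ 2 := hAY.trans hYL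
  set δ₀ : ℝ := D * Real.log L / L with hδ₀
  have hδ₀0 : 0 ≤ δ₀ := by
    have := Real.log_nonneg hL1
    positivity
  have hδ1 : ∀ w ∈ Z χ T, |w.re| ≤ δ₀ := by
    intro w hw
    have hw' := (mem_Z r (by omega) χ hχ T w).1 hw
    exact hG.zf w hw'.1 (by linarith [hw'.2])
  have hN : ∑ w ∈ Z χ T, mu χ w ≤ C * L ^ 2 := by
    refine le_trans ?_ (hZ r hrr₂ χ hχ)
    refine Finset.sum_le_sum_of_subset_of_nonneg ?_ (fun w _ _ => mu_nonneg r χ w)
    intro w hw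
    rw [mem_Z r (by omega) χ hχ] at hw ⊢
    exact ⟨hw.1, by linarith [hw.2]⟩
  have hu' := abs_le.mp hu
  have hsθ : Real.sqrt θ ≤ 1 / 10 := by
    rw [Real.sqrt_le_left (by norm_num)]
    linarith
  have hsθ0 : 0 ≤ Real.sqrt θ := Real.sqrt_nonneg θ
  have hsθ2 : Real.sqrt θ ^ 2 = θ := Real.sq_sqrt hθ.le
  set p : ℝ := 2 * Real.sqrt θ * L with hp
  have hp0 : 0 ≤ p := by positivity
  have hp2 : p ^ 2 = 4 * θ * L ^ 2 := by
    rw [hp, mul_pow, mul_pow, hsθ2]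
    ring
  have hpL : p ≤ L := by
    rw [hp]
    calc 2 * Real.sqrt θ * L ≤ 1 * L := mul_le_mul_of_nonneg_right (by linarith) hL0.le
      _ = L := one_mul L
  have hθL : 0 ≤ θ * L ^ 2 := by positivity
  obtain ⟨g1, g2⟩ := good_PU r hr3 χ ε θ D (T₀ + 2) (u - h) (u + h) hε hε1' hG hθ.le (by linarith)
    (by linarith) (by linarith)
  obtain ⟨g3, -⟩ := good_PU r hr3 χ ε θ D (T₀ + 2) (u - h - 2 * η) (u + h + 2 * η) hε hε1' hG hθ.le
    (by linarith) (by linarith) (by linarith)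
  have hb1 : u + h - (u - h) ≤ 4 := by linarith
  have hb3' : u + h + 2 * η - (u - h - 2 * η) ≤ 4 := by linarith
  have e1 : (u + h - (u - h)) * (θ * L ^ 2) ≤ 4 * θ * L ^ 2 :=
    (mul_le_mul_of_nonneg_right hb1 hθL).trans (le_of_eq (by ring))
  have e3 : (u + h + 2 * η - (u - h - 2 * η)) * (θ * L ^ 2) ≤ 4 * θ * L ^ 2 :=
    (mul_le_mul_of_nonneg_right hb3' hθL).trans (le_of_eq (by ring))
  have hp1' : ‖PU χ W (u - h) (u + h) 0‖ ≤ p := by
    rw [← pow_le_pow_iff_left₀ (norm_nonneg _) hp0 two_ne_zero]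
    rw [hp2]
    exact g1.trans e1
  have hp2' : ‖PU χ W (u - h - 2 * η) (u + h + 2 * η) 0‖ ≤ p := by
    rw [← pow_le_pow_iff_left₀ (norm_nonneg _) hp0 two_ne_zero]
    rw [hp2]
    exact g3.trans e3
  have hP1 : ∫ t in (-A)..A, ‖PU χ W (u - h) (u + h) t‖ ^ 2 ≤ 4 * θ * L ^ 2 :=
    (g2 (-A) A (by linarith) (by linarith) le_rfl).trans e1
  have hP2 : ∫ t in (-Y)..(-A), ‖PU χ W (u - h) (u + h) t‖ ^ 2 ≤ 4 * θ * L ^ 2 :=
    (g2 (-Y) (-A) (by linarith) (by linarith) (by linarith)).trans e1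
  have hQ : L ^ 2 * ∫ t in A..Y, ‖kap W (u - h) (u + h) t‖ ^ 2 ≤ 1 := by
    have ht := kap_tail W (u - h) (u + h) A Y (by linarith) (by linarith) hA0 hAY
    rw [hAsq] at ht
    have hE : 0 < Real.exp (-(L / W ^ 2)) := Real.exp_pos _
    have h1 : (u + h - (u - h)) ^ 2 * Y * Real.exp (-(L / W ^ 2)) ≤
        4 * L ^ 2 * Real.exp (-(L / W ^ 2)) := by
      apply mul_le_mul_of_nonneg_right _ hE.le
      have h2 : (u + h - (u - h)) ^ 2 ≤ 4 := by
        have h3 : u + h - (u - h) = 2 * h := by ring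
        rw [h3]
        have h4 := pow_le_pow_left₀ (by linarith : 0 ≤ 2 * h) (by linarith : 2 * h ≤ 2) 2
        exact h4.trans (by norm_num)
      exact mul_le_mul h2 hYL hY0.le (by norm_num)
    calc L ^ 2 * ∫ t in A..Y, ‖kap W (u - h) (u + h) t‖ ^ 2
        ≤ L ^ 2 * (4 * L ^ 2 * Real.exp (-(L / W ^ 2))) :=
          mul_le_mul_of_nonneg_left (ht.trans h1) (by positivity)
      _ = 4 * (L ^ 4 * Real.exp (-(L / W ^ 2))) := by ring
      _ ≤ 1 := by linarith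
  have hs1' : L * (C * L ^ 2) * Real.exp (-(W ^ 2 * η ^ 2 / 2) + δ₀ * Y) ≤ 1 := by
    refine le_trans ?_ hs1
    apply mul_le_mul_of_nonneg_left _ (by positivity)
    apply Real.exp_le_exp.mpr
    have := mul_le_mul_of_nonneg_left hY2 hδ₀0
    linarith
  set d : ℝ := δ / 4096 * (2 / B) / L with hd
  have hd0 : 0 < d := by positivity
  have hdL : d * L = δ / 4096 * (2 / B) := by
    rw [hd]
    exact div_mul_cancel₀ _ hL0.ne'
  have hd1 : d ≤ 1 := by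
    rw [hd, div_le_one hL0]
    linarith
  have hκd : 2 * d * Y ≤ 4 * (δ / 4096) := by
    have h1 : 2 * d * Y ≤ 2 * d * (B * L) := mul_le_mul_of_nonneg_left hY2L (by positivity)
    have h2 : 2 * d * (B * L) = 2 * B * (d * L) := by ring
    have h3 : 2 * B * (δ / 4096 * (2 / B)) = 4 * (δ / 4096) := by
      field_simp
      ring
    rw [h2, hdL, h3] at h1
    exact h1
  have hdη : d ≤ η / 2 := by
    rw [div_le_iff₀ hη] at hLη
    rw [hd, div_le_iff₀ hL0]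
    have h1 : η / 2 * L = L * η / 2 := by ring
    rw [h1]
    linarith only [hLη, hδ, he1]
  have hGl := G_lower3 r hr3 χ hχ T W C₀ (L ^ (2 - ε)) (T₀ + 2) u h η δ₀ (C * L ^ 2) Y p
    (4 * (δ / 4096)) d hW1 hY0 hY2
    hh.le hh1' hη.le (by linarith) hδ₀0 hδ1 hWδ hN hEFT hC₀.le (by linarith) hp1' hp2' hpL hs1' hs2
    hd0 hκd (by linarith)
  have hsp := spike r χ T W C₀ (L ^ (2 - ε)) (T₀ + 2) u h κ A Y (4 * θ * L ^ 2) (by linarith) hA0
    hAY hY0 hY2 hh.le hκ hC₀.le hEFT (by linarith) hP1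
  have hou := outer r χ T W C₀ (L ^ (2 - ε)) (T₀ + 2) u h κ A Y (4 * θ * L ^ 2) 1 (by linarith) hA0
    hAY hY0 hY2 hh.le hκ hC₀.le hEFT (by linarith) hP2 hQ
  have hcont : Continuous (fun t : ℝ => (1 - t / Y) * ‖Gu χ T W (u - h) (u + h) t‖ ^ 2) := by
    have := C7C_Gu_cont χ T W (u - h) (u + h)
    fun_prop
  have hadd := intervalIntegral.integral_add_adjacent_intervals
    (hcont.intervalIntegrable (μ := volume) 0 A) (hcont.intervalIntegrable (μ := volume) A Y)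
  rw [← hadd] at hGl
  have hIZ := isoN_le r (by omega) χ hχ T h η u d hh.le hη.le hdη (by linarith)
  rw [IZ_band_eq r (by omega) χ hχ T (T₀ + 2) (h + η) u d (by linarith) (by linarith),
    NW_band_eq r (by omega) χ hχ T (T₀ + 2) (h + η) u (by linarith) (by linarith),
    NW_band_eq r (by omega) χ hχ T (T₀ + 2) (h + η / 2) u (by linarith) (by linarith)] at hIZ
  have hmain := hf L Y A p (4 * θ * L ^ 2)
    (∫ t in A..Y, (1 - t / Y) * ‖PU χ W (u - h) (u + h) t‖ ^ 2)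
    (∫ t in (0 : ℝ)..A, (1 - t / Y) * ‖Gu χ T W (u - h) (u + h) t‖ ^ 2)
    (∫ t in A..Y, (1 - t / Y) * ‖Gu χ T W (u - h) (u + h) t‖ ^ 2)
    (isoN χ T (h + η) u d + 32 * (4 * (δ / 4096)) * (3 * L + C₀ + 4)) hLL₀
    (by linarith) hA0 hAY hp0 hp2.le le_rfl ?_ ?_ ?_ hsp hou
  · have hiso : isoN χ T (h + η) u d ≤ NU (IZ χ (T₀ + 2) d) (h + η) u + η * L := by
      have h1 : (h + η) / Real.pi - (h + η / 2) / Real.pi = η * (1 / (2 * Real.pi)) := by
        field_simp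
        ring
      have h2 : 1 / (2 * Real.pi) ≤ 1 / 2 := by
        apply one_div_le_one_div_of_le (by norm_num)
        linarith [Real.pi_gt_three]
      have h3 : η * (1 / (2 * Real.pi)) ≤ η * (1 / 2) := mul_le_mul_of_nonneg_left h2 hη.le
      have h4 : ((h + η) / Real.pi + η / 8) * L - ((h + η / 2) / Real.pi - η / 8) * L ≤ η * L := by
        rw [← sub_mul]
        apply mul_le_mul_of_nonneg_right _ hL0.le
        linarith
      linarith
    have h5 : Y / 2 * isoN χ T (h + η) u d ≤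
        Y / 2 * NU (IZ χ (T₀ + 2) d) (h + η) u + δ / 16 * (L * Y) := by
      have h6 := mul_le_mul_of_nonneg_left hiso (by positivity : 0 ≤ Y / 2)
      have h7 : η * (L * Y) ≤ δ / 8 * (L * Y) :=
        mul_le_mul_of_nonneg_right hηδ4 (by positivity)
      have h8 : Y / 2 * (NU (IZ χ (T₀ + 2) d) (h + η) u + η * L) =
        Y / 2 * NU (IZ χ (T₀ + 2) d) (h + η) u + 1 / 2 * (η * (L * Y)) := by ring
      rw [h8] at h6
      linarith
    have h9 : Y / 2 * (32 * (4 * (δ / 4096)) * (3 * L + C₀ + 4)) ≤ δ / 16 * (L * Y) := by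
      have h10 : 3 * L + C₀ + 4 ≤ 4 * L := by linarith
      have h11 := mul_le_mul_of_nonneg_left h10 (by positivity : 0 ≤ Y / 2 * (32 * (4 * (δ / 4096))))
      have h12 : Y / 2 * (32 * (4 * (δ / 4096))) * (4 * L) = δ / 16 * (L * Y) := by ring
      rw [h12] at h11
      linarith
    have hLY : 0 ≤ δ * (L * Y) := by positivity
    rw [mul_add] at hmain
    linarith
  · apply intervalIntegral.integral_nonneg hAY
    intro t ht
    have : 0 ≤ 1 - t / Y := by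
      rw [sub_nonneg, div_le_one hY0]
      exact ht.2
    positivity
  · have h1 : 0 ≤ isoN χ T (h + η) u d := by
      unfold isoN
      exact Nat.cast_nonneg _
    positivity
  · refine le_trans (le_of_eq ?_) hGl
    ring

end Pool.Agent.SG
end
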