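import Pool.Agent.Lib.MP_9cfc0a_nt.Mg.G055
import Pool.Agent.Lib.MP_9cfc0a_nt.Mg.G021
import Pool.Agent.Lib.MP_9cfc0a_nt.Mg.G010
import Pool.Agent.Lib.MP_9cfc0a_nt.Mg.G009
import Pool.Agent.Lib.MP_9cfc0a_nt.Mg.G022
import Pool.Agent.Lib.MP_9cfc0a_nt.Mg.G015

section

set_option autoImplicit false

/-! Task C5: primitive characters. -/

namespace Pool.Agent.SE

open Complex MeasureTheory
open Pool.Agent.SK Pool.Agent.SD
open Pool.Agent.SO (prim NN)

theorem C5_core (ε h δ L Y Y' D I g J η p : ℝ) (hε : 0 < ε) (hε1 : ε ≤ 1) (hh : h = ε / 100)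
    (hδ : δ = ε ^ 2 / 100000) (hp3 : 3 < p) (hp4 : p < 3.15) (hL : 10 / ε ≤ L) (hLY' : L ≤ Y')
    (hLY : L / 2 ≤ Y) (hYY' : Y ≤ Y') (hY1 : (1 - δ) * Y' ≤ Y) (hD : 0 ≤ D)
    (hI1 : 2 * p - δ ≤ I) (hI2 : I ≤ 2 * p) (hg : 0 ≤ g) (hη : 0 < η) (hη1 : η ≤ δ * h)
    (hJ : J ≤ 2 * (h + η) * (1 + 2 * (h + η) + 4 * (h + η) ^ 2) * g)
    (hmain : I * (h / (2 * p) * (2 * (L * Y) - L ^ 2) - δ * (L * Y)) - Y / 2 * J ≤
      (2 * h * (1 + 12 * h) + δ) * (Y' / Y) * D + 1) :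
    1 / 2 * (2 * (L * Y') - L ^ 2) - 1 / 2 * Y' * g - ε * (L * Y') ≤ D := by
  have hL0 : 0 < L := lt_of_lt_of_le (by positivity) hL
  have hL1 : 10 ≤ ε * L := by
    rw [div_le_iff₀ hε] at hL
    linarith
  have hY0 : 0 < Y := by linarith
  have hY'0 : 0 < Y' := by linarith
  have hh0 : 0 < h := by rw [hh]; positivity
  have hh1 : h ≤ 1 / 100 := by rw [hh]; linarith
  have hδ0 : 0 < δ := by rw [hδ]; positivity
  have hε2 : ε ^ 2 ≤ ε := by
    have := mul_le_mul_of_nonneg_right hε1 hε.le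
    rw [sq]
    linarith
  have hδ1 : δ ≤ h / 1000 := by
    rw [hδ, hh]
    linarith
  have hp0 : 0 < p := by linarith
  obtain ⟨P, hP⟩ : ∃ P, P = L * Y' := ⟨_, rfl⟩
  obtain ⟨Q, hQ⟩ : ∃ Q, Q = L * Y := ⟨_, rfl⟩
  rw [← hP]
  rw [← hQ] at hmain
  have hP0 : 0 < P := by rw [hP]; positivity
  have hQ0 : 0 < Q := by rw [hQ]; positivity
  have hQP : Q ≤ P := by
    rw [hP, hQ]; exact mul_le_mul_of_nonneg_left hYY' hL0.le
  have hQP2 : (1 - δ) * P ≤ Q := by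
    rw [hP, hQ]
    have := mul_le_mul_of_nonneg_left hY1 hL0.le
    linarith
  have hLP : L ^ 2 ≤ P := by
    rw [hP, sq]
    exact mul_le_mul_of_nonneg_left hLY' hL0.le
  have hQL : L ^ 2 ≤ 2 * Q := by
    rw [hQ, sq]
    have := mul_le_mul_of_nonneg_left hLY hL0.le
    linarith
  have hL2 : 0 ≤ L ^ 2 := sq_nonneg L
  have hGP : 0 ≤ Y' * g := by positivity
  by_cases hg2 : 2 * L ≤ g
  · have h1 : 2 * P ≤ Y' * g := by
      have := mul_le_mul_of_nonneg_left hg2 hY'0.le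
      rw [hP]
      linarith
    have h2 : 0 ≤ ε * P := by positivity
    linarith
  · rw [not_le] at hg2
    have hG : Y' * g ≤ 2 * P := by
      have := mul_le_mul_of_nonneg_left hg2.le hY'0.le
      rw [hP]
      linarith
    -- the bound of `J`
    have hJ2 : J ≤ 2 * h * (1 + 5 * h) * g := by
      refine hJ.trans (mul_le_mul_of_nonneg_right ?_ hg)
      have e0 : η ≤ h ^ 2 / 1000 := by
        have := mul_le_mul_of_nonneg_right hδ1 hh0.le
        have e : h / 1000 * h = h ^ 2 / 1000 := by ring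
        linarith
      have e0' : h ^ 2 / 1000 ≤ h / 1000 := by
        have f1 := mul_le_mul_of_nonneg_right hh1 hh0.le
        rw [sq]
        linarith
      obtain ⟨a, ha⟩ : ∃ a, a = h + η := ⟨_, rfl⟩
      rw [← ha]
      have e1 : a ≤ h * (1 + h / 1000) := by
        have e : h * (1 + h / 1000) = h + h ^ 2 / 1000 := by ring
        rw [ha, e]
        linarith
      have e2 : 0 < a := by rw [ha]; positivity
      have e3 : a ≤ 1.001 * h := by rw [ha]; linarith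
      have e4 : a ≤ 0.02 := by linarith
      have e5 : 1 + 2 * a + 4 * a ^ 2 ≤ 1 + 3 * h := by
        have f1 : a ^ 2 ≤ 0.02 * a := by
          rw [sq]
          exact mul_le_mul_of_nonneg_right e4 e2.le
        linarith
      have e6 : 2 * a * (1 + 2 * a + 4 * a ^ 2) ≤ 2 * (h * (1 + h / 1000)) * (1 + 3 * h) := by
        refine mul_le_mul (by linarith) e5 (by positivity) (by positivity)
      refine e6.trans ?_
      have e7 : 2 * h * (1 + 5 * h) - 2 * (h * (1 + h / 1000)) * (1 + 3 * h) =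
          h ^ 2 * (4 - 2 / 1000 - 6 / 1000 * h) := by ring
      have e8 : 0 ≤ h ^ 2 * (4 - 2 / 1000 - 6 / 1000 * h) := by
        refine mul_nonneg (sq_nonneg h) (by linarith)
      linarith
    have hJ3 : Y / 2 * J ≤ h * (Y' * g) + 10 * h ^ 2 * P := by
      have e1 : Y / 2 * J ≤ Y / 2 * (2 * h * (1 + 5 * h) * g) :=
        mul_le_mul_of_nonneg_left hJ2 (by positivity)
      have e2 : Y / 2 * (2 * h * (1 + 5 * h) * g) = h * (1 + 5 * h) * (Y * g) := by ring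
      have e3 : Y * g ≤ Y' * g := mul_le_mul_of_nonneg_right hYY' hg
      have e4 : h * (1 + 5 * h) * (Y * g) ≤ h * (1 + 5 * h) * (Y' * g) :=
        mul_le_mul_of_nonneg_left e3 (by positivity)
      have e5 : 5 * h ^ 2 * (Y' * g) ≤ 5 * h ^ 2 * (2 * P) :=
        mul_le_mul_of_nonneg_left hG (by positivity)
      have e6 : h * (1 + 5 * h) * (Y' * g) = h * (Y' * g) + 5 * h ^ 2 * (Y' * g) := by ring
      linarith
    -- the bound of the main term
    have hδP : 0 ≤ δ * P := by positivity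
    have hIB : h * (2 * P - L ^ 2) - 9 * (δ * P) ≤ I * (h / (2 * p) * (2 * Q - L ^ 2) - δ * Q) := by
      obtain ⟨b, hb⟩ : ∃ b, b = h / (2 * p) * (2 * Q - L ^ 2) := ⟨_, rfl⟩
      rw [← hb]
      have e1 : 2 * p * b = h * (2 * Q - L ^ 2) := by
        rw [hb]
        field_simp
      have e2 : 0 ≤ b := by
        rw [hb]
        refine mul_nonneg (by positivity) (by linarith)
      have e3 : b ≤ P := by
        have f1 : 0 ≤ 2 * Q - L ^ 2 := by linarith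
        have f2 : h * (2 * Q - L ^ 2) ≤ 1 * (2 * Q - L ^ 2) :=
          mul_le_mul_of_nonneg_right (by linarith) f1
        have f3 : 2 * p * b ≤ 2 * P := by
          rw [e1]
          linarith
        have f4 : 2 * b ≤ 2 * p * b := by
          refine mul_le_mul_of_nonneg_right (by linarith) e2
        linarith
      have e4 : (2 * p - δ) * b ≤ I * b := mul_le_mul_of_nonneg_right hI1 e2
      have e5 : δ * b ≤ δ * P := mul_le_mul_of_nonneg_left e3 hδ0.le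
      have e6 : I * (δ * Q) ≤ 6.3 * (δ * P) := by
        have f1 : I ≤ 6.3 := by linarith
        have f2 : I * (δ * Q) ≤ 6.3 * (δ * Q) := mul_le_mul_of_nonneg_right f1 (by positivity)
        have f3 : δ * Q ≤ δ * P := mul_le_mul_of_nonneg_left hQP hδ0.le
        linarith
      have e7 : h * (2 * P - L ^ 2) ≤ h * (2 * Q - L ^ 2) + δ * P := by
        have f1 : P - Q ≤ δ * P := by linarith
        have f2 : 2 * h * (P - Q) ≤ 2 * h * (δ * P) := mul_le_mul_of_nonneg_left f1 (by positivity)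
        have f3 : 2 * h * (δ * P) ≤ 1 * (δ * P) := mul_le_mul_of_nonneg_right (by linarith) hδP
        linarith
      have e8 : I * (b - δ * Q) = I * b - I * (δ * Q) := by ring
      have e9 : (2 * p - δ) * b = 2 * p * b - δ * b := by ring
      rw [e8]
      linarith
    obtain ⟨K, hK⟩ : ∃ K, K = 2 * h * (1 + 12 * h) + δ := ⟨_, rfl⟩
    rw [← hK] at hmain
    have hK0 : 0 < K := by rw [hK]; positivity
    obtain ⟨R, hR⟩ : ∃ R, R = h * (2 * P - L ^ 2) - 9 * (δ * P) - h * (Y' * g) - 10 * h ^ 2 * P - 1 :=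
      ⟨_, rfl⟩
    have h1 : R ≤ K * (Y' / Y) * D := by
      rw [hR]
      linarith
    have h3 : Y' / Y * (1 - δ) ≤ 1 := by
      rw [div_mul_eq_mul_div, div_le_one hY0]
      linarith
    have hδ2 : δ ≤ 1 := by linarith
    have h4 : (1 - δ) * R ≤ K * D := by
      calc (1 - δ) * R ≤ (1 - δ) * (K * (Y' / Y) * D) :=
            mul_le_mul_of_nonneg_left h1 (by linarith)
        _ = (Y' / Y * (1 - δ)) * (K * D) := by ring
        _ ≤ 1 * (K * D) := mul_le_mul_of_nonneg_right h3 (by positivity)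
        _ = K * D := one_mul _
    have h5 : R - δ * P ≤ K * D := by
      have e1 : R ≤ P := by
        have f1 : h * (2 * P - L ^ 2) ≤ h * (2 * P) := mul_le_mul_of_nonneg_left (by linarith) hh0.le
        have f2 : h * (2 * P) ≤ P := by
          have := mul_le_mul_of_nonneg_right hh1 hP0.le
          linarith
        have f3 : 0 ≤ h * (Y' * g) := by positivity
        have f4 : 0 ≤ 10 * h ^ 2 * P := by positivity
        rw [hR]
        linarith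
      have e2 : δ * R ≤ δ * P := mul_le_mul_of_nonneg_left e1 hδ0.le
      have e3 : (1 - δ) * R = R - δ * R := by ring
      linarith
    have h6 : K * (1 / 2 * (2 * P - L ^ 2) - 1 / 2 * Y' * g - ε * P) ≤
        h * (2 * P - L ^ 2) - h * (Y' * g) + (24 * h ^ 2 + δ - 2 * h * ε) * P := by
      have e1 : K * (1 / 2 * (2 * P - L ^ 2) - 1 / 2 * Y' * g - ε * P) =
          h * (2 * P - L ^ 2) - h * (Y' * g) + (12 * h ^ 2 + δ / 2) * (2 * P - L ^ 2 - Y' * g) -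
            K * (ε * P) := by
        rw [hK]; ring
      have e2 : (12 * h ^ 2 + δ / 2) * (2 * P - L ^ 2 - Y' * g) ≤ (12 * h ^ 2 + δ / 2) * (2 * P) :=
        mul_le_mul_of_nonneg_left (by linarith) (by positivity)
      have e3 : 2 * h * (ε * P) ≤ K * (ε * P) := by
        refine mul_le_mul_of_nonneg_right ?_ (by positivity)
        rw [hK]
        have f1 : 0 ≤ 24 * h ^ 2 := by positivity
        have f2 : 2 * h * (1 + 12 * h) = 2 * h + 24 * h ^ 2 := by ring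
        linarith
      rw [e1]
      linarith
    have h8 : 1 ≤ (2 * h * ε - 34 * h ^ 2 - 11 * δ) * P := by
      have e1 : ε ^ 2 / 100 ≤ 2 * h * ε - 34 * h ^ 2 - 11 * δ := by
        rw [hh, hδ]
        have f1 : 0 ≤ ε ^ 2 := sq_nonneg ε
        have f2 : 2 * (ε / 100) * ε - 34 * (ε / 100) ^ 2 - 11 * (ε ^ 2 / 100000) =
            ε ^ 2 * (1 / 50 - 34 / 10000 - 11 / 100000) := by ring
        rw [f2]
        linarith
      have e2 : 100 ≤ ε ^ 2 * P := by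
        have f1 : 100 ≤ (ε * L) ^ 2 := by
          have := mul_le_mul hL1 hL1 (by norm_num) (by positivity)
          rw [sq]
          linarith
        have f2 : ε ^ 2 * L ^ 2 ≤ ε ^ 2 * P := mul_le_mul_of_nonneg_left hLP (by positivity)
        have f3 : (ε * L) ^ 2 = ε ^ 2 * L ^ 2 := by ring
        linarith
      have e3 := mul_le_mul_of_nonneg_right e1 hP0.le
      linarith
    have h9 : K * (1 / 2 * (2 * P - L ^ 2) - 1 / 2 * Y' * g - ε * P) ≤ K * D := by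
      have e1 : (24 * h ^ 2 + δ - 2 * h * ε) * P =
          -((2 * h * ε - 34 * h ^ 2 - 11 * δ) * P) - 10 * h ^ 2 * P - 10 * (δ * P) := by ring
      rw [e1] at h6
      rw [hR] at h5
      linarith
    exact le_of_mul_le_mul_left h9 hK0

/-- C5a. PROOF. As `final_numeric2` in SD/NA.lean, whose proof gives `h = ε/100` (if `NA_core` is private, copy it into a helper or apply `final_numeric2` with `min ε (1/2)`..). -/
theorem final_numeric3 (ε : ℝ) (hε : 0 < ε) (hε1 : ε ≤ 1) : ∃ h δ : ℝ, 0 < h ∧ h ≤ 1 / 2 ∧ 0 < δ ∧ δ ≤ 1 / 2 ∧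
    ∃ L₀ : ℝ, 1 ≤ L₀ ∧ ∀ L Y Y' D I g J η : ℝ, L₀ ≤ L → L ≤ Y' → L / 2 ≤ Y → Y ≤ Y' → (1 - δ) * Y' ≤ Y → 0 ≤ D →
      2 * Real.pi - δ ≤ I → I ≤ 2 * Real.pi → 0 ≤ g → 0 < η → η ≤ δ * h →
      J ≤ 2 * (h + η) * (1 + 2 * (h + η) + 4 * (h + η) ^ 2) * g →
      I * (h / (2 * Real.pi) * (2 * (L * Y) - L ^ 2) - δ * (L * Y)) - Y / 2 * J ≤
        (2 * h * (1 + 12 * h) + δ) * (Y' / Y) * D + 1 →
      1 / 2 * (2 * (L * Y') - L ^ 2) - 1 / 2 * Y' * g - ε * (L * Y') ≤ D := by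
  refine ⟨ε / 100, ε ^ 2 / 100000, by positivity, by linarith, by positivity, ?_, 10 / ε, ?_, ?_⟩
  · have : ε ^ 2 ≤ 1 := pow_le_one₀ hε.le hε1
    linarith
  · rw [le_div_iff₀ hε]; linarith
  · intro L Y Y' D I g J η h1 h2 h3 h4 h5 h6 h7 h8 h9 h10 h11 h12 h13
    exact C5_core ε (ε / 100) (ε ^ 2 / 100000) L Y Y' D I g J η Real.pi hε hε1 rfl rfl
      Real.pi_gt_three Real.pi_lt_d2 h1 h2 h3 h4 h5 h6 h7 h8 h9 h10 h11 h12 h13

/-- C5b. `gF (IZ χ T d)` is monotone in `T`. As `gF_mono` in SD/MB.lean. -/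
theorem gI_mono (r : ℕ) [NeZero r] (hr : 2 ≤ r) (χ : DirichletCharacter ℂ r) (hχ : χ ∈ prim r) (T T' d : ℝ)
    (h : T ≤ T') : gF (IZ χ T d) ≤ gF (IZ χ T' d) := by
  classical
  unfold gF
  refine Finset.sum_le_sum_of_subset_of_nonneg ?_ fun w _ _ => by positivity
  intro w hw
  unfold IZ GZ at hw ⊢
  rw [Finset.mem_filter, Finset.mem_filter, mem_Z r hr χ hχ] at hw ⊢
  exact ⟨⟨⟨hw.1.1.1, hw.1.1.2.trans h⟩, hw.1.2⟩, hw.2⟩

/-- C5c. PROOF. `IZ ⊆ GZ` and `gF_le_gW`. -/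
theorem gI_le (r : ℕ) [NeZero r] (χ : DirichletCharacter ℂ r) (T d : ℝ) : gF (IZ χ T d) ≤ gW (Z χ T) (mu χ) := by
  classical
  refine le_trans ?_ (gF_le_gW r χ T)
  unfold gF
  refine Finset.sum_le_sum_of_subset_of_nonneg ?_ fun w _ _ => by positivity
  unfold IZ
  exact Finset.filter_subset _ _

theorem C5_iso (ε : ℝ) (hε : 0 < ε) (hε1 : ε ≤ 1 / 2) :
    ∃ T₀ ε₁ : ℝ, 0 < T₀ ∧ 0 < ε₁ ∧ ε₁ ≤ 1 ∧ ∀ T : ℝ, T₀ ≤ T → ∀ κ : ℝ, 0 < κ → ∃ r₀ : ℕ, 3 ≤ r₀ ∧ ∀ (r : ℕ) [NeZero r], r₀ ≤ r →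
      ∀ S : Finset (DirichletCharacter ℂ r), S ⊆ prim r →
      (∀ χ ∈ S, ∃ Y : ℝ, Real.log r ≤ Y ∧ Y ≤ 3 / 2 * Real.log r ∧
        DD χ Y < 1 / 2 * (2 * (Real.log r * Y) - Real.log r ^ 2) - 1 / 2 * Y * gF (IZ χ T (ε₁ / Real.log r)) -
          ε * (Real.log r * Y)) →
      (S.card : ℝ) ≤ κ * NN r := by
  obtain ⟨h, δ, hh, hh1, hδ, hδ1, L₀, hL₀, hfin⟩ := final_numeric3 ε hε (by linarith)
  obtain ⟨T₁, hT₁, hw1, hw2⟩ := weight_integral δ hδ
  obtain ⟨η, θ, ε₁, hη, hη1, hηδ, hθ, hε₁, hε₁1, hchain⟩ :=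
    chain3 ε δ h T₁ hε hε1 hδ (by linarith) hh hh1 hT₁
  refine ⟨T₁ + 2, ε₁, by linarith, hε₁, hε₁1, ?_⟩
  intro T hT κ hκ
  obtain ⟨D, hD, r₁, hr₁, hfew⟩ := few_bad ε (min θ κ) (T₁ + 2) hε (by linarith) (lt_min hθ hκ) (by linarith)
  obtain ⟨r₂, hr₂, hch⟩ := hchain D hD
  obtain ⟨W₀, hW₀, hpl⟩ := plancherel_avg h δ T₁ hh (by linarith) hδ hT₁
  obtain ⟨L₁, hL₁, hcY⟩ := choose_Y ε δ hε (by linarith) hδ hδ1
  set X : ℝ := max (max L₀ L₁) (max (W₀ ^ 4) 4) with hX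
  obtain ⟨r₃, hr₃⟩ := exists_nat_gt (Real.exp X)
  refine ⟨max (max r₁ r₂) r₃, hr₁.trans ((le_max_left _ _).trans (le_max_left _ _)), ?_⟩
  intro r _ hr S hS hbad
  have hr1 : r₁ ≤ r := ((le_max_left _ _).trans (le_max_left _ _)).trans hr
  have hr2 : r₂ ≤ r := ((le_max_right _ _).trans (le_max_left _ _)).trans hr
  have hr3 : r₃ ≤ r := (le_max_right _ _).trans hr
  have hr0 : (0 : ℝ) < r := by
    have : 0 < r := by omega
    exact_mod_cast this
  have hLX : X ≤ Real.log r := by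
    rw [Real.le_log_iff_exp_le hr0]
    have h1 : (r₃ : ℝ) ≤ r := by exact_mod_cast hr3
    linarith
  have hLL0 : L₀ ≤ Real.log r := ((le_max_left _ _).trans (le_max_left _ _)).trans hLX
  have hLL1 : L₁ ≤ Real.log r := ((le_max_right _ _).trans (le_max_left _ _)).trans hLX
  have hLW : W₀ ^ 4 ≤ Real.log r := ((le_max_left _ _).trans (le_max_right _ _)).trans hLX
  have hL4 : 4 ≤ Real.log r := ((le_max_right _ _).trans (le_max_right _ _)).trans hLX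
  have hres := hfew r hr1 S hS (fun χ hχ hG => ?_)
  · refine hres.trans ?_
    exact mul_le_mul_of_nonneg_right (min_le_right _ _) (SO.A3_NN_nonneg r)
  · obtain ⟨Y', hY1, hY2, hlt⟩ := hbad χ hχ
    have hχp := hS hχ
    have hG' := M2_good_mono χ ε _ θ D (T₁ + 2) (min_le_left _ _) hG
    set L : ℝ := Real.log r with hL
    have hL0 : 0 < L := by linarith
    obtain ⟨Y, hYL, hYY', hYδ, hWY, hYW⟩ := hcY L Y' hLL1 hY1
    have hY0 : 0 < Y := by linarith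
    have hY'0 : 0 < Y' := by linarith
    set W : ℝ := L ^ (1 / 2 - ε / 4 : ℝ) with hW
    have hW0W : W₀ ≤ W := by
      have h1 : W₀ = (W₀ ^ 4) ^ (1 / 4 : ℝ) := by
        rw [← Real.rpow_natCast, ← Real.rpow_mul (by linarith)]
        norm_num
      rw [h1, hW]
      calc (W₀ ^ 4) ^ (1 / 4 : ℝ) ≤ L ^ (1 / 4 : ℝ) :=
            Real.rpow_le_rpow (by positivity) hLW (by norm_num)
        _ ≤ L ^ (1 / 2 - ε / 4 : ℝ) := Real.rpow_le_rpow_of_exponent_le (by linarith) (by linarith)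
    have hW0 : 0 < W := by linarith
    have hP := hpl W Y Y' hW0W hWY hYW r χ
    set B : ℝ := h / (2 * Real.pi) * (2 * (L * Y) - L ^ 2) - δ * (L * Y) with hB
    have hA0 : 0 ≤ L ^ (1 / 2 : ℝ) := by positivity
    have hAY : L ^ (1 / 2 : ℝ) ≤ Y := by
      refine le_trans ?_ hYL
      rw [← Real.sqrt_eq_rpow, Real.sqrt_le_left (by linarith)]
      nlinarith
    have hinner : ∀ u ∈ Set.Icc (-T₁) T₁, B - Y / 2 * NU (IZ χ (T₁ + 2) (ε₁ / L)) (h + η) u ≤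
        ∫ t in (0 : ℝ)..Y, (1 - t / Y) * ‖PU χ W (u - h) (u + h) t‖ ^ 2 := by
      intro u hu
      have h1 := hch r hr2 χ hχp hG' u (abs_le.mpr ⟨hu.1, hu.2⟩) Y hYL (by linarith)
      have h1' : B - Y / 2 * NU (IZ χ (T₁ + 2) (ε₁ / L)) (h + η) u ≤
          ∫ t in (L ^ (1 / 2 : ℝ))..Y, (1 - t / Y) * ‖PU χ W (u - h) (u + h) t‖ ^ 2 := by
        rw [hB]
        linarith
      refine h1'.trans ?_
      have hcont : Continuous fun t : ℝ => (1 - t / Y) * ‖PU χ W (u - h) (u + h) t‖ ^ 2 := by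
        have h2 := M2_PU_cont r χ W h u hW0
        fun_prop
      rw [← intervalIntegral.integral_add_adjacent_intervals (a := 0) (b := L ^ (1 / 2 : ℝ)) (c := Y)
        (hcont.intervalIntegrable _ _) (hcont.intervalIntegrable _ _)]
      have h3 : 0 ≤ ∫ t in (0 : ℝ)..(L ^ (1 / 2 : ℝ)), (1 - t / Y) * ‖PU χ W (u - h) (u + h) t‖ ^ 2 := by
        refine intervalIntegral.integral_nonneg hA0 fun t ht => ?_
        have h7 : 0 ≤ 1 - t / Y := by
          rw [sub_nonneg, div_le_one hY0]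
          exact ht.2.trans hAY
        positivity
      linarith
    have hwc : Continuous fun u : ℝ => 1 / (1 / 4 + u ^ 2) := by
      refine Continuous.div continuous_const (by fun_prop) fun u => ?_
      positivity
    have hNint : IntervalIntegrable (fun u : ℝ => 1 / (1 / 4 + u ^ 2) * NU (IZ χ (T₁ + 2) (ε₁ / L)) (h + η) u)
        volume (-T₁) T₁ := by
      have h2 := NW_int (IZ χ (T₁ + 2) (ε₁ / L)) (fun _ => 1) (h + η) (-T₁) T₁
      simpa only [NU_eq_NW] using h2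
    set J : ℝ := ∫ u in (-T₁)..T₁, 1 / (1 / 4 + u ^ 2) * NU (IZ χ (T₁ + 2) (ε₁ / L)) (h + η) u with hJ
    have hJle : J ≤ 2 * (h + η) * (1 + 2 * (h + η) + 4 * (h + η) ^ 2) * gF (IZ χ (T₁ + 2) (ε₁ / L)) := by
      have h2 := wt_upper (IZ χ (T₁ + 2) (ε₁ / L)) (fun _ => 1) (h + η) T₁ (fun _ _ => zero_le_one)
        (by linarith) hT₁.le
      rw [← gF_eq_gW] at h2
      simp only [← NU_eq_NW] at h2
      exact h2
    have hIB : (∫ u in (-T₁)..T₁, 1 / (1 / 4 + u ^ 2)) * B - Y / 2 * J ≤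
        ∫ u in (-T₁)..T₁, 1 / (1 / 4 + u ^ 2) *
          ∫ t in (0 : ℝ)..Y, (1 - t / Y) * ‖PU χ W (u - h) (u + h) t‖ ^ 2 := by
      have hi1 : IntervalIntegrable (fun u : ℝ => 1 / (1 / 4 + u ^ 2) * B) volume (-T₁) T₁ :=
        (hwc.mul continuous_const).intervalIntegrable _ _
      have hi2 : IntervalIntegrable (fun u : ℝ => Y / 2 * (1 / (1 / 4 + u ^ 2) *
          NU (IZ χ (T₁ + 2) (ε₁ / L)) (h + η) u)) volume (-T₁) T₁ := hNint.const_mul _
      rw [hJ, ← intervalIntegral.integral_mul_const, ← intervalIntegral.integral_const_mul,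
        ← intervalIntegral.integral_sub hi1 hi2]
      refine intervalIntegral.integral_mono_on (by linarith) (hi1.sub hi2)
        ((hwc.mul (inner_continuous r χ W h 0 Y hW0)).intervalIntegrable _ _) fun u hu => ?_
      have h5 : 0 ≤ 1 / (1 / 4 + u ^ 2) := by positivity
      have h4 := mul_le_mul_of_nonneg_left (hinner u hu) h5
      refine le_trans (le_of_eq ?_) h4
      ring
    have hfinal := hfin L Y Y' (DD χ Y') _ (gF (IZ χ (T₁ + 2) (ε₁ / L))) J η hLL0 hY1 hYL hYY' hYδ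
      (M2_DD_nonneg χ Y' hY'0) hw1 hw2 (gF_nonneg _) hη hηδ hJle (hIB.trans hP)
    have hmono := gI_mono r (by omega) χ hχp (T₁ + 2) T (ε₁ / L) hT
    have hm2 : 1 / 2 * Y' * gF (IZ χ (T₁ + 2) (ε₁ / L)) ≤ 1 / 2 * Y' * gF (IZ χ T (ε₁ / L)) :=
      mul_le_mul_of_nonneg_left hmono (by positivity)
    linarith

/-- C5d. PROOF. As `prim_lower2` in SD/MA.lean (COPY it) with `chain3`, `final_numeric3`, `IZ χ (T₁+2) (ε₁/log r)` for `GZ χ (T₁+2)`; `Y' ≤ (3/2) log r`, so the `Y` of `choose_Y`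
is `≤ 2 log r`. (`chain3` needs `ε ≤ 1/2`: for `ε > 1/2` use the statement for `1/2`.) Then `T ≥ T₀` by `gI_mono`. -/
theorem prim_iso (ε : ℝ) (hε : 0 < ε) (hε1 : ε ≤ 1) :
    ∃ T₀ ε₁ : ℝ, 0 < T₀ ∧ 0 < ε₁ ∧ ε₁ ≤ 1 ∧ ∀ T : ℝ, T₀ ≤ T → ∀ κ : ℝ, 0 < κ → ∃ r₀ : ℕ, 3 ≤ r₀ ∧ ∀ (r : ℕ) [NeZero r], r₀ ≤ r →
      ∀ S : Finset (DirichletCharacter ℂ r), S ⊆ prim r →
      (∀ χ ∈ S, ∃ Y : ℝ, Real.log r ≤ Y ∧ Y ≤ 3 / 2 * Real.log r ∧
        DD χ Y < 1 / 2 * (2 * (Real.log r * Y) - Real.log r ^ 2) - 1 / 2 * Y * gF (IZ χ T (ε₁ / Real.log r)) -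
          ε * (Real.log r * Y)) →
      (S.card : ℝ) ≤ κ * NN r := by
  rcases le_total ε (1 / 2) with h | h
  · exact C5_iso ε hε h
  · obtain ⟨T₀, ε₁, hT₀, hε₁, hε₁1, H⟩ := C5_iso (1 / 2) (by norm_num) le_rfl
    refine ⟨T₀, ε₁, hT₀, hε₁, hε₁1, ?_⟩
    intro T hT κ hκ
    obtain ⟨r₀, hr₀, H2⟩ := H T hT κ hκ
    refine ⟨r₀, hr₀, ?_⟩
    intro r _ hr S hS hbad
    refine H2 r hr S hS fun χ hχ => ?_
    obtain ⟨Y, hY1, hY2, hY3⟩ := hbad χ hχ
    refine ⟨Y, hY1, hY2, ?_⟩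
    have hr1 : (1 : ℝ) ≤ r := by
      have : 1 ≤ r := by omega
      exact_mod_cast this
    have hL : 0 ≤ Real.log r := Real.log_nonneg hr1
    have hP : 0 ≤ Real.log r * Y := mul_nonneg hL (hL.trans hY1)
    have h2 : 1 / 2 * (Real.log r * Y) ≤ ε * (Real.log r * Y) := mul_le_mul_of_nonneg_right h hP
    linarith

end Pool.Agent.SE
end

section

set_option autoImplicit false

/-! Task C6: two thirds of the characters have many isolated zeros. -/

namespace Pool.Agent.SE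

open Complex MeasureTheory
open Pool.Agent.SK Pool.Agent.SD MP9cfc0a.SK
open Pool.Agent.SO (prim NN)
open Pool.Agent.EM (V)

/-- One character, from the primitive character to the character (`one_char` of SD/FE.lean for one `y`). -/
theorem C6_one_char (ε δ : ℝ) (hε : 0 < ε) (hε1 : ε ≤ 1) (hδ : δ = ε / 8) (q : ℕ) [NeZero q] (hq : 3 ≤ q)
    (hL : 272 * 64 / ε ^ 2 ≤ (Real.log q) ^ (1 / 2 : ℝ))
    (χ : DirichletCharacter ℂ q) (hr : (q : ℝ) ^ (1 - δ) ≤ (χ.conductor : ℝ)) (g : ℝ) (hg : 0 ≤ g)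
    (y : ℝ) (hy1 : (q : ℝ) ≤ y)
    (h1 : 1 / 2 * (2 * (Real.log χ.conductor * Real.log y) - Real.log χ.conductor ^ 2) - 1 / 2 * Real.log y * g -
        ε / 8 * (Real.log χ.conductor * Real.log y) ≤ En χ.primitiveCharacter y) :
    1 / 2 * (2 * (Real.log q * Real.log y) - Real.log q ^ 2) - 1 / 2 * Real.log y * g -
      ε * (Real.log q * Real.log y) ≤ En χ y := by
  have hq3 : (3 : ℝ) ≤ q := by exact_mod_cast hq
  have hq0 : (0 : ℝ) < q := by linarith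
  set L := Real.log q with hLdef
  have hL1 : 1 ≤ L := by
    rw [hLdef, Real.le_log_iff_exp_le hq0]
    exact Real.exp_one_lt_d9.le.trans (by linarith)
  have hδ0 : 0 < δ := by rw [hδ]; positivity
  have hδ1 : δ ≤ 1 / 8 := by rw [hδ]; linarith
  have hrq : (χ.conductor : ℝ) ≤ q := by
    exact_mod_cast Nat.le_of_dvd (Nat.pos_of_ne_zero (NeZero.ne q))
      (DirichletCharacter.conductor_dvd_level χ)
  set r : ℝ := (χ.conductor : ℝ) with hrdef
  have hr0 : 0 < r := lt_of_lt_of_le (Real.rpow_pos_of_pos hq0 _) hr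
  have hlr : (1 - δ) * L ≤ Real.log r := by
    have := Real.log_le_log (Real.rpow_pos_of_pos hq0 _) hr
    rwa [Real.log_rpow hq0] at this
  have hlr0 : 0 < Real.log r := by nlinarith
  have hlrL : Real.log r ≤ L := Real.log_le_log hr0 hrq
  have hy0 : 0 < y := by linarith
  have hLy : L ≤ Real.log y := Real.log_le_log hq0 hy1
  have h2 := En_induced q hq χ y (ε / 8) (by positivity) (by linarith)
  set Ly := Real.log y with hLydef
  set Lr := Real.log r with hLrdef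
  have h5 : 272 / (ε / 8) * L ^ (3 / 2 : ℝ) ≤ ε / 8 * L * Ly := by
    have h6 : L ^ (3 / 2 : ℝ) * L ^ (1 / 2 : ℝ) = L * L := by
      rw [← Real.rpow_add (by linarith)]
      norm_num
      ring
    have hp3 : 0 < L ^ (3 / 2 : ℝ) := Real.rpow_pos_of_pos (by linarith) _
    have h7 : 272 * 64 / ε ^ 2 * L ^ (3 / 2 : ℝ) ≤ L * L := by
      rw [← h6, mul_comm]
      exact mul_le_mul_of_nonneg_left hL hp3.le
    have h8 : 272 / (ε / 8) * L ^ (3 / 2 : ℝ) = ε / 8 * (272 * 64 / ε ^ 2 * L ^ (3 / 2 : ℝ)) := by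
      field_simp
      ring
    rw [h8]
    have h9 : ε / 8 * (272 * 64 / ε ^ 2 * L ^ (3 / 2 : ℝ)) ≤ ε / 8 * (L * L) :=
      mul_le_mul_of_nonneg_left h7 (by positivity)
    have h10 : ε / 8 * (L * L) ≤ ε / 8 * L * Ly := by
      have : 0 ≤ ε / 8 * L := by positivity
      nlinarith
    linarith
  have hEn0 := En_nonneg χ.primitiveCharacter y
  have hL0 : 0 ≤ L := by linarith
  have hLy0 : 0 ≤ Ly := by linarith
  have hP : 0 ≤ L * Ly := mul_nonneg hL0 hLy0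
  have h15 : Lr * Ly ≤ L * Ly := mul_le_mul_of_nonneg_right hlrL hLy0
  have hgL : 0 ≤ Ly * g := mul_nonneg hLy0 hg
  have hLr2 : 0 ≤ Lr ^ 2 := sq_nonneg _
  have hLrLy : 0 ≤ Lr * Ly := mul_nonneg hlr0.le hLy0
  set X := 1 / 2 * (2 * (Lr * Ly) - Lr ^ 2) - 1 / 2 * Ly * g - ε / 8 * (Lr * Ly) with hX
  have h18 : 0 ≤ ε / 8 * (Lr * Ly) := mul_nonneg (by positivity) hLrLy
  have h19 : ε / 8 * (Lr * Ly) ≤ ε / 8 * (L * Ly) := mul_le_mul_of_nonneg_left h15 (by positivity)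
  have hXle : X ≤ L * Ly := by
    rw [hX]
    linarith
  have h20 : X - ε / 8 * (L * Ly) ≤ (1 - ε / 8) * En χ.primitiveCharacter y := by
    rcases le_or_gt 0 X with h0 | h0
    · have h21 : (1 - ε / 8) * X ≤ (1 - ε / 8) * En χ.primitiveCharacter y :=
        mul_le_mul_of_nonneg_left h1 (by linarith)
      have h22 : ε / 8 * X ≤ ε / 8 * (L * Ly) := mul_le_mul_of_nonneg_left hXle (by positivity)
      linarith
    · have h21 : 0 ≤ (1 - ε / 8) * En χ.primitiveCharacter y := mul_nonneg (by linarith) hEn0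
      have h22 : 0 ≤ ε / 8 * (L * Ly) := mul_nonneg (by positivity) hP
      linarith
  have h23 : 2 * (L * Ly) - L ^ 2 - 2 * δ * (L * Ly) ≤ 2 * (Lr * Ly) - Lr ^ 2 := by
    have h24 : 0 ≤ (Lr - (1 - δ) * L) * (2 * Ly - Lr - (1 - δ) * L) := by
      apply mul_nonneg (by linarith)
      have : (1 - δ) * L ≤ L := by nlinarith
      linarith
    have h25 : ((1 - δ) * L) ^ 2 ≤ L ^ 2 := by
      apply pow_le_pow_left₀ (by nlinarith)
      nlinarith
    nlinarith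
  have e7 : ε / 8 * L * Ly = ε / 8 * (L * Ly) := by ring
  have e8 : 2 * δ * (L * Ly) = ε / 4 * (L * Ly) := by rw [hδ]; ring
  have e9 : 0 ≤ ε * (L * Ly) := mul_nonneg hε.le hP
  rw [hX] at h20
  linarith

/-- C6a. PROOF. As `chars2` in SD/FF.lean (COPY it) with `Bad r ψ := ∃ _ : NeZero r, (1 + ε/8) log r < gW (Z ψ T) (mu ψ) ∨ ∃ Y, log r ≤ Y ∧ Y ≤ (3/2) log r ∧ DD ψ Y < ..`,
`prim_iso (ε/8)`, `prim_total (ε/8)`, `transfer Bad κ (ε/8)`. For `χ ∈ S`, `r = χ.conductor`, `q^(1-ε/8) ≤ r ≤ q` and `Y = log q` (`≤ (3/2) log r` as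
`1/(1 - 1/8) ≤ 3/2`): `DD_eq_En` and (as in `one_char`, or by it restricted) `En χ q ≥ En χ* q - small`. NOTE `one_char` in SD/FE.lean asks for the lower bound for all `y` up to
`(log r)^(2-ε/2)`; here only `y = q` is needed: COPY its proof for `y = q` (file-prefixed helper). -/
theorem chars_iso (ε : ℝ) (hε : 0 < ε) (hε1 : ε ≤ 1) : ∃ T₀ ε₁ : ℝ, 0 < T₀ ∧ 0 < ε₁ ∧ ε₁ ≤ 1 ∧ ∀ T : ℝ, T₀ ≤ T → ∀ κ : ℝ, 0 < κ →
    ∃ q₀ : ℕ, 3 ≤ q₀ ∧ ∀ (q : ℕ) [NeZero q], q₀ ≤ q → ∃ S : Finset (DirichletCharacter ℂ q),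
      (1 - κ) * (q.totient : ℝ) ≤ (S.card : ℝ) ∧ (∀ χ ∈ S, χ ≠ 1) ∧
      ∀ χ ∈ S, (q : ℝ) ^ (1 - ε / 8) ≤ (χ.conductor : ℝ) ∧ ∃ _ : NeZero χ.conductor,
        gF (IZ χ.primitiveCharacter T (ε₁ / Real.log χ.conductor)) ≤ (1 + ε) * Real.log q ∧
        1 / 2 * Real.log q ^ 2 - 1 / 2 * Real.log q * gF (IZ χ.primitiveCharacter T (ε₁ / Real.log χ.conductor)) -
          ε * Real.log q ^ 2 ≤ En χ q := by
  classical
  have hlog1 : ∀ q : ℕ, 3 ≤ q → 1 ≤ Real.log q := by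
    intro q hq
    have hq3 : (3 : ℝ) ≤ q := by exact_mod_cast hq
    rw [Real.le_log_iff_exp_le (by linarith)]
    exact Real.exp_one_lt_d9.le.trans (by linarith)
  obtain ⟨T1, ε₁, hT1, hε₁, hε₁1, HA⟩ := prim_iso (ε / 8) (by positivity) (by linarith)
  obtain ⟨T2, hT2, HB⟩ := prim_total (ε / 8) (by positivity) (by linarith)
  refine ⟨max T1 T2, ε₁, lt_max_of_lt_left hT1, hε₁, hε₁1, fun T hT κ hκ => ?_⟩
  have hTT1 : T1 ≤ T := (le_max_left _ _).trans hT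
  have hTT2 : T2 ≤ T := (le_max_right _ _).trans hT
  let Bad : (r : ℕ) → DirichletCharacter ℂ r → Prop := fun r ψ => ∃ _ : NeZero r,
    (gW (Z ψ T) (mu ψ) < (1 - ε / 8) * Real.log r ∨ (1 + ε / 8) * Real.log r < gW (Z ψ T) (mu ψ)) ∨
      ∃ Y : ℝ, Real.log r ≤ Y ∧ Y ≤ 3 / 2 * Real.log r ∧
        DD ψ Y < 1 / 2 * (2 * (Real.log r * Y) - Real.log r ^ 2) - 1 / 2 * Y * gF (IZ ψ T (ε₁ / Real.log r)) -
          ε / 8 * (Real.log r * Y)
  have H : ∃ r₀ : ℕ, ∀ (r : ℕ) [NeZero r], r₀ ≤ r → ∀ S : Finset (DirichletCharacter ℂ r), S ⊆ prim r →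
      (∀ χ ∈ S, Bad r χ) → (S.card : ℝ) ≤ κ / 4 * NN r := by
    obtain ⟨r1, hr1, h1⟩ := HA T hTT1 (κ / 8) (by positivity)
    obtain ⟨r2, hr2, h2⟩ := HB T hTT2 (κ / 8) (by positivity)
    refine ⟨max r1 r2, fun r _ hr S hS hbad => ?_⟩
    have hr1' : r1 ≤ r := (le_max_left _ _).trans hr
    have hr2' : r2 ≤ r := (le_max_right _ _).trans hr
    have cA : ((S.filter fun ψ => gW (Z ψ T) (mu ψ) < (1 - ε / 8) * Real.log r ∨
        (1 + ε / 8) * Real.log r < gW (Z ψ T) (mu ψ)).card : ℝ) ≤ κ / 8 * NN r :=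
      h2 r hr2' _ ((Finset.filter_subset _ _).trans hS) (fun χ hχ => (Finset.mem_filter.1 hχ).2)
    have cB : ((S.filter fun ψ => ¬ (gW (Z ψ T) (mu ψ) < (1 - ε / 8) * Real.log r ∨
        (1 + ε / 8) * Real.log r < gW (Z ψ T) (mu ψ))).card : ℝ) ≤ κ / 8 * NN r := by
      refine h1 r hr1' _ ((Finset.filter_subset _ _).trans hS) (fun χ hχ => ?_)
      obtain ⟨hχS, hn⟩ := Finset.mem_filter.1 hχ
      obtain ⟨inst, hb⟩ := hbad χ hχS
      rcases hb with hb | ⟨Y, hY1, hY2, hY3⟩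
      · exact absurd hb hn
      · exact ⟨Y, hY1, hY2, hY3⟩
    have hc : ((S.filter fun ψ => gW (Z ψ T) (mu ψ) < (1 - ε / 8) * Real.log r ∨
        (1 + ε / 8) * Real.log r < gW (Z ψ T) (mu ψ)).card : ℝ) +
        ((S.filter fun ψ => ¬ (gW (Z ψ T) (mu ψ) < (1 - ε / 8) * Real.log r ∨
        (1 + ε / 8) * Real.log r < gW (Z ψ T) (mu ψ))).card : ℝ) = (S.card : ℝ) := by
      exact_mod_cast Finset.card_filter_add_card_filter_not (s := S) (fun ψ => gW (Z ψ T) (mu ψ) < (1 - ε / 8) * Real.log r ∨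
        (1 + ε / 8) * Real.log r < gW (Z ψ T) (mu ψ))
    linarith
  obtain ⟨q1, hq13, hq1⟩ := transfer Bad κ (ε / 8) hκ (by positivity) (by linarith) H
  obtain ⟨q2, hq2⟩ := F4_large (1 / 2) (272 * 64 / ε ^ 2) (by norm_num)
  refine ⟨max q1 q2, hq13.trans (le_max_left _ _), fun q _ hq => ?_⟩
  have hqq1 : q1 ≤ q := (le_max_left _ _).trans hq
  have hqq2 : q2 ≤ q := (le_max_right _ _).trans hq
  have hq3' : 3 ≤ q := hq13.trans hqq1
  have hq3r : (3 : ℝ) ≤ q := by exact_mod_cast hq3'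
  have hq0 : (0 : ℝ) < q := by linarith
  have hL1 := hlog1 q hq3'
  obtain ⟨S, hS1, hS2, hS3⟩ := hq1 q hqq1
  have hR1 : 1 < (q : ℝ) ^ (1 - ε / 8) := Real.one_lt_rpow (by linarith) (by linarith)
  refine ⟨S, hS1, hS2, fun χ hχ => ⟨(hS3 χ hχ).1, ?_⟩⟩
  have h2 : 2 ≤ χ.conductor := by
    have h1 : (1 : ℝ) < (χ.conductor : ℝ) := hR1.trans_le (hS3 χ hχ).1
    exact_mod_cast h1
  have hlow : (1 - ε / 8) * Real.log q ≤ Real.log χ.conductor := by
    have := Real.log_le_log (Real.rpow_pos_of_pos hq0 _) (hS3 χ hχ).1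
    rwa [Real.log_rpow hq0] at this
  have hc0 : (0 : ℝ) < χ.conductor := by exact_mod_cast (by omega : 0 < χ.conductor)
  have hupp : Real.log χ.conductor ≤ Real.log q := by
    refine Real.log_le_log hc0 ?_
    exact_mod_cast Nat.le_of_dvd (Nat.pos_of_ne_zero (NeZero.ne q))
      (DirichletCharacter.conductor_dvd_level χ)
  have hne : NeZero χ.conductor := ⟨by omega⟩
  refine ⟨hne, ?_⟩
  have hnb : ¬ ((gW (Z χ.primitiveCharacter T) (mu χ.primitiveCharacter) <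
      (1 - ε / 8) * Real.log χ.conductor ∨ (1 + ε / 8) * Real.log χ.conductor <
        gW (Z χ.primitiveCharacter T) (mu χ.primitiveCharacter)) ∨
      ∃ Y : ℝ, Real.log χ.conductor ≤ Y ∧ Y ≤ 3 / 2 * Real.log χ.conductor ∧
        DD χ.primitiveCharacter Y < 1 / 2 * (2 * (Real.log χ.conductor * Y) -
          Real.log χ.conductor ^ 2) - 1 / 2 * Y * gF (IZ χ.primitiveCharacter T (ε₁ / Real.log χ.conductor)) -
          ε / 8 * (Real.log χ.conductor * Y)) :=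
    fun h => (hS3 χ hχ).2 ⟨hne, h⟩
  rw [not_or, not_or, not_lt, not_lt] at hnb
  obtain ⟨⟨hb1, hb2⟩, hb3⟩ := hnb
  push Not at hb3
  constructor
  · refine (gI_le χ.conductor χ.primitiveCharacter T _).trans (hb2.trans ?_)
    have h3 : (1 + ε / 8) * Real.log χ.conductor ≤ (1 + ε / 8) * Real.log q :=
      mul_le_mul_of_nonneg_left hupp (by linarith)
    refine h3.trans ?_
    exact mul_le_mul_of_nonneg_right (by linarith) (by linarith)
  · have h3 := hb3 (Real.log q) hupp (by nlinarith)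
    rw [DD_eq_En _ _ (by linarith), Real.exp_log hq0] at h3
    have hg0 : 0 ≤ gF (IZ χ.primitiveCharacter T (ε₁ / Real.log χ.conductor)) := by
      unfold gF
      exact Finset.sum_nonneg fun w _ => by positivity
    have h4 := C6_one_char ε (ε / 8) hε hε1 rfl q hq3' (hq2 q hqq2) χ (hS3 χ hχ).1
      _ hg0 q le_rfl h3
    refine le_trans (le_of_eq ?_) h4
    ring

end Pool.Agent.SE
end

section

set_option autoImplicit false

/-! Task C5: primitive characters, `Y` up to `B log r`. -/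

namespace Pool.Agent.SG

open Complex MeasureTheory
open Pool.Agent.SK Pool.Agent.SD Pool.Agent.SE
open Pool.Agent.SO (prim NN)

private theorem C5_isoB (B : ℝ) (hB : 2 ≤ B) (ε : ℝ) (hε : 0 < ε) (hε1 : ε ≤ 1 / 2) :
    ∃ T₀ ε₁ : ℝ, 0 < T₀ ∧ 0 < ε₁ ∧ ε₁ ≤ 1 ∧ ∀ T : ℝ, T₀ ≤ T → ∀ κ : ℝ, 0 < κ → ∃ r₀ : ℕ, 3 ≤ r₀ ∧ ∀ (r : ℕ) [NeZero r], r₀ ≤ r →
      ∀ S : Finset (DirichletCharacter ℂ r), S ⊆ prim r →
      (∀ χ ∈ S, ∃ Y : ℝ, Real.log r ≤ Y ∧ Y ≤ B * Real.log r ∧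
        DD χ Y < 1 / 2 * (2 * (Real.log r * Y) - Real.log r ^ 2) - 1 / 2 * Y * gF (IZ χ T (ε₁ / Real.log r)) -
          ε * (Real.log r * Y)) →
      (S.card : ℝ) ≤ κ * NN r := by
  obtain ⟨h, δ, hh, hh1, hδ, hδ1, L₀, hL₀, hfin⟩ := final_numeric3 ε hε (by linarith)
  obtain ⟨T₁, hT₁, hw1, hw2⟩ := weight_integral δ hδ
  obtain ⟨η, θ, ε₁, hη, hη1, hηδ, hθ, hε₁, hε₁1, hchain⟩ :=
    chainB B hB ε δ h T₁ hε hε1 hδ (by linarith) hh hh1 hT₁
  refine ⟨T₁ + 2, ε₁, by linarith, hε₁, hε₁1, ?_⟩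
  intro T hT κ hκ
  obtain ⟨D, hD, r₁, hr₁, hfew⟩ := few_bad ε (min θ κ) (T₁ + 2) hε (by linarith) (lt_min hθ hκ) (by linarith)
  obtain ⟨r₂, hr₂, hch⟩ := hchain D hD
  obtain ⟨W₀, hW₀, hpl⟩ := plancherel_avg h δ T₁ hh (by linarith) hδ hT₁
  obtain ⟨L₁, hL₁, hcY⟩ := choose_Y ε δ hε (by linarith) hδ hδ1
  set X : ℝ := max (max L₀ L₁) (max (W₀ ^ 4) 4) with hX
  obtain ⟨r₃, hr₃⟩ := exists_nat_gt (Real.exp X)
  refine ⟨max (max r₁ r₂) r₃, hr₁.trans ((le_max_left _ _).trans (le_max_left _ _)), ?_⟩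
  intro r _ hr S hS hbad
  have hr1 : r₁ ≤ r := ((le_max_left _ _).trans (le_max_left _ _)).trans hr
  have hr2 : r₂ ≤ r := ((le_max_right _ _).trans (le_max_left _ _)).trans hr
  have hr3 : r₃ ≤ r := (le_max_right _ _).trans hr
  have hr0 : (0 : ℝ) < r := by
    have : 0 < r := by omega
    exact_mod_cast this
  have hLX : X ≤ Real.log r := by
    rw [Real.le_log_iff_exp_le hr0]
    have h1 : (r₃ : ℝ) ≤ r := by exact_mod_cast hr3
    linarith
  have hLL0 : L₀ ≤ Real.log r := ((le_max_left _ _).trans (le_max_left _ _)).trans hLX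
  have hLL1 : L₁ ≤ Real.log r := ((le_max_right _ _).trans (le_max_left _ _)).trans hLX
  have hLW : W₀ ^ 4 ≤ Real.log r := ((le_max_left _ _).trans (le_max_right _ _)).trans hLX
  have hL4 : 4 ≤ Real.log r := ((le_max_right _ _).trans (le_max_right _ _)).trans hLX
  have hres := hfew r hr1 S hS (fun χ hχ hG => ?_)
  · refine hres.trans ?_
    exact mul_le_mul_of_nonneg_right (min_le_right _ _) (SO.A3_NN_nonneg r)
  · obtain ⟨Y', hY1, hY2, hlt⟩ := hbad χ hχ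
    have hχp := hS hχ
    have hG' := M2_good_mono χ ε _ θ D (T₁ + 2) (min_le_left _ _) hG
    set L : ℝ := Real.log r with hL
    have hL0 : 0 < L := by linarith
    obtain ⟨Y, hYL, hYY', hYδ, hWY, hYW⟩ := hcY L Y' hLL1 hY1
    have hY0 : 0 < Y := by linarith
    have hY'0 : 0 < Y' := by linarith
    set W : ℝ := L ^ (1 / 2 - ε / 4 : ℝ) with hW
    have hW0W : W₀ ≤ W := by
      have h1 : W₀ = (W₀ ^ 4) ^ (1 / 4 : ℝ) := by
        rw [← Real.rpow_natCast, ← Real.rpow_mul (by linarith)]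
        norm_num
      rw [h1, hW]
      calc (W₀ ^ 4) ^ (1 / 4 : ℝ) ≤ L ^ (1 / 4 : ℝ) :=
            Real.rpow_le_rpow (by positivity) hLW (by norm_num)
        _ ≤ L ^ (1 / 2 - ε / 4 : ℝ) := Real.rpow_le_rpow_of_exponent_le (by linarith) (by linarith)
    have hW0 : 0 < W := by linarith
    have hP := hpl W Y Y' hW0W hWY hYW r χ
    set B₁ : ℝ := h / (2 * Real.pi) * (2 * (L * Y) - L ^ 2) - δ * (L * Y) with hB₁
    have hA0 : 0 ≤ L ^ (1 / 2 : ℝ) := by positivity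
    have hAY : L ^ (1 / 2 : ℝ) ≤ Y := by
      refine le_trans ?_ hYL
      rw [← Real.sqrt_eq_rpow, Real.sqrt_le_left (by linarith)]
      nlinarith
    have hinner : ∀ u ∈ Set.Icc (-T₁) T₁, B₁ - Y / 2 * NU (IZ χ (T₁ + 2) (ε₁ / L)) (h + η) u ≤
        ∫ t in (0 : ℝ)..Y, (1 - t / Y) * ‖PU χ W (u - h) (u + h) t‖ ^ 2 := by
      intro u hu
      have h1 := hch r hr2 χ hχp hG' u (abs_le.mpr ⟨hu.1, hu.2⟩) Y hYL (by linarith)
      have h1' : B₁ - Y / 2 * NU (IZ χ (T₁ + 2) (ε₁ / L)) (h + η) u ≤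
          ∫ t in (L ^ (1 / 2 : ℝ))..Y, (1 - t / Y) * ‖PU χ W (u - h) (u + h) t‖ ^ 2 := by
        rw [hB₁]
        linarith
      refine h1'.trans ?_
      have hcont : Continuous fun t : ℝ => (1 - t / Y) * ‖PU χ W (u - h) (u + h) t‖ ^ 2 := by
        have h2 := M2_PU_cont r χ W h u hW0
        fun_prop
      rw [← intervalIntegral.integral_add_adjacent_intervals (a := 0) (b := L ^ (1 / 2 : ℝ)) (c := Y)
        (hcont.intervalIntegrable _ _) (hcont.intervalIntegrable _ _)]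
      have h3 : 0 ≤ ∫ t in (0 : ℝ)..(L ^ (1 / 2 : ℝ)), (1 - t / Y) * ‖PU χ W (u - h) (u + h) t‖ ^ 2 := by
        refine intervalIntegral.integral_nonneg hA0 fun t ht => ?_
        have h7 : 0 ≤ 1 - t / Y := by
          rw [sub_nonneg, div_le_one hY0]
          exact ht.2.trans hAY
        positivity
      linarith
    have hwc : Continuous fun u : ℝ => 1 / (1 / 4 + u ^ 2) := by
      refine Continuous.div continuous_const (by fun_prop) fun u => ?_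
      positivity
    have hNint : IntervalIntegrable (fun u : ℝ => 1 / (1 / 4 + u ^ 2) * NU (IZ χ (T₁ + 2) (ε₁ / L)) (h + η) u)
        volume (-T₁) T₁ := by
      have h2 := NW_int (IZ χ (T₁ + 2) (ε₁ / L)) (fun _ => 1) (h + η) (-T₁) T₁
      simpa only [NU_eq_NW] using h2
    set J : ℝ := ∫ u in (-T₁)..T₁, 1 / (1 / 4 + u ^ 2) * NU (IZ χ (T₁ + 2) (ε₁ / L)) (h + η) u with hJ
    have hJle : J ≤ 2 * (h + η) * (1 + 2 * (h + η) + 4 * (h + η) ^ 2) * gF (IZ χ (T₁ + 2) (ε₁ / L)) := by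
      have h2 := wt_upper (IZ χ (T₁ + 2) (ε₁ / L)) (fun _ => 1) (h + η) T₁ (fun _ _ => zero_le_one)
        (by linarith) hT₁.le
      rw [← gF_eq_gW] at h2
      simp only [← NU_eq_NW] at h2
      exact h2
    have hIB : (∫ u in (-T₁)..T₁, 1 / (1 / 4 + u ^ 2)) * B₁ - Y / 2 * J ≤
        ∫ u in (-T₁)..T₁, 1 / (1 / 4 + u ^ 2) *
          ∫ t in (0 : ℝ)..Y, (1 - t / Y) * ‖PU χ W (u - h) (u + h) t‖ ^ 2 := by
      have hi1 : IntervalIntegrable (fun u : ℝ => 1 / (1 / 4 + u ^ 2) * B₁) volume (-T₁) T₁ :=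
        (hwc.mul continuous_const).intervalIntegrable _ _
      have hi2 : IntervalIntegrable (fun u : ℝ => Y / 2 * (1 / (1 / 4 + u ^ 2) *
          NU (IZ χ (T₁ + 2) (ε₁ / L)) (h + η) u)) volume (-T₁) T₁ := hNint.const_mul _
      rw [hJ, ← intervalIntegral.integral_mul_const, ← intervalIntegral.integral_const_mul,
        ← intervalIntegral.integral_sub hi1 hi2]
      refine intervalIntegral.integral_mono_on (by linarith) (hi1.sub hi2)
        ((hwc.mul (inner_continuous r χ W h 0 Y hW0)).intervalIntegrable _ _) fun u hu => ?_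
      have h5 : 0 ≤ 1 / (1 / 4 + u ^ 2) := by positivity
      have h4 := mul_le_mul_of_nonneg_left (hinner u hu) h5
      refine le_trans (le_of_eq ?_) h4
      ring
    have hfinal := hfin L Y Y' (DD χ Y') _ (gF (IZ χ (T₁ + 2) (ε₁ / L))) J η hLL0 hY1 hYL hYY' hYδ
      (M2_DD_nonneg χ Y' hY'0) hw1 hw2 (gF_nonneg _) hη hηδ hJle (hIB.trans hP)
    have hmono := gI_mono r (by omega) χ hχp (T₁ + 2) T (ε₁ / L) hT
    have hm2 : 1 / 2 * Y' * gF (IZ χ (T₁ + 2) (ε₁ / L)) ≤ 1 / 2 * Y' * gF (IZ χ T (ε₁ / L)) :=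
      mul_le_mul_of_nonneg_left hmono (by positivity)
    linarith

/-- C5. PROOF. COPY the proofs of `C5_iso` and `prim_iso` in SE/C5.lean with `chainB B` for `chain3` (`Y ≤ Y' ≤ B log r`), and `B` for `3 / 2`. (`final_numeric3`, `gI_mono` etc. of SE are used as they are.) -/
theorem prim_isoB (B : ℝ) (hB : 2 ≤ B) (ε : ℝ) (hε : 0 < ε) (hε1 : ε ≤ 1) :
    ∃ T₀ ε₁ : ℝ, 0 < T₀ ∧ 0 < ε₁ ∧ ε₁ ≤ 1 ∧ ∀ T : ℝ, T₀ ≤ T → ∀ κ : ℝ, 0 < κ → ∃ r₀ : ℕ, 3 ≤ r₀ ∧ ∀ (r : ℕ) [NeZero r], r₀ ≤ r →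
      ∀ S : Finset (DirichletCharacter ℂ r), S ⊆ prim r →
      (∀ χ ∈ S, ∃ Y : ℝ, Real.log r ≤ Y ∧ Y ≤ B * Real.log r ∧
        DD χ Y < 1 / 2 * (2 * (Real.log r * Y) - Real.log r ^ 2) - 1 / 2 * Y * gF (IZ χ T (ε₁ / Real.log r)) -
          ε * (Real.log r * Y)) →
      (S.card : ℝ) ≤ κ * NN r := by
  rcases le_total ε (1 / 2) with h | h
  · exact C5_isoB B hB ε hε h
  · obtain ⟨T₀, ε₁, hT₀, hε₁, hε₁1, H⟩ := C5_isoB B hB (1 / 2) (by norm_num) le_rfl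
    refine ⟨T₀, ε₁, hT₀, hε₁, hε₁1, ?_⟩
    intro T hT κ hκ
    obtain ⟨r₀, hr₀, H2⟩ := H T hT κ hκ
    refine ⟨r₀, hr₀, ?_⟩
    intro r _ hr S hS hbad
    refine H2 r hr S hS fun χ hχ => ?_
    obtain ⟨Y, hY1, hY2, hY3⟩ := hbad χ hχ
    refine ⟨Y, hY1, hY2, ?_⟩
    have hr1 : (1 : ℝ) ≤ r := by
      have : 1 ≤ r := by omega
      exact_mod_cast this
    have hL : 0 ≤ Real.log r := Real.log_nonneg hr1
    have hP : 0 ≤ Real.log r * Y := mul_nonneg hL (hL.trans hY1)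
    have h2 : 1 / 2 * (Real.log r * Y) ≤ ε * (Real.log r * Y) := mul_le_mul_of_nonneg_right h hP
    linarith

end Pool.Agent.SG
end
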