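import Pool.Agent.Lib.MP_9cfc0a_nt.Mg.G015
import Pool.Agent.Lib.MP_9cfc0a_nt.SW.Defs

section

set_option autoImplicit false

/-! Task VA: the variance `V_c`. -/

namespace Pool.Agent.SW

open Complex MeasureTheory
open Pool.Agent.EM (psiC V psi)

theorem om_nonneg {q : ℕ} (c : ℕ) (χ : DirichletCharacter ℂ q) : 0 ≤ om c χ := by
  unfold om
  positivity

/-- VA1. PROOF. `‖χ c‖ ≤ 1` (`DirichletCharacter.norm_le_one`). -/
theorem om_le {q : ℕ} (c : ℕ) (χ : DirichletCharacter ℂ q) : om c χ ≤ 2 := by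
  unfold om
  have h1 : ‖χ (c : ZMod q)‖ ≤ 1 := DirichletCharacter.norm_le_one χ _
  have h2 : ‖1 - χ (c : ZMod q)‖ ≤ 2 := by
    calc ‖1 - χ (c : ZMod q)‖ ≤ ‖(1 : ℂ)‖ + ‖χ (c : ZMod q)‖ := norm_sub_le _ _
      _ ≤ 1 + 1 := by rw [norm_one]; linarith
      _ = 2 := by norm_num
  have h3 : ‖1 - χ (c : ZMod q)‖ ^ 2 ≤ 2 ^ 2 := pow_le_pow_left₀ (norm_nonneg _) h2 2
  linarith

private lemma VA_unit {q c : ℕ} (hc : Nat.Coprime c q) (χ : DirichletCharacter ℂ q) :
    ‖χ (c : ZMod q)‖ = 1 := by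
  have h := χ.unit_norm_eq_one (ZMod.unitOfCoprime c hc)
  rwa [ZMod.coe_unitOfCoprime] at h

/-- VA2. PROOF. `c` is a unit mod `q`, so `‖χ c‖ = 1` and `om c χ = 1 - Re (χ c)`; `∑ χ, χ c = 0` for `(c : ZMod q) ≠ 1` (`DirichletCharacter.sum_characters_eq_zero` or
`DirichletCharacter.sum_characters_eq`), the number of characters is `φ(q)` (`DirichletCharacter.card_eq_totient_of_hasEnoughRootsOfUnity`). -/
theorem om_sum (q : ℕ) [NeZero q] (c : ℕ) (hc : Nat.Coprime c q) (hc1 : ¬ c % q = 1 % q) :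
    ∑ χ : DirichletCharacter ℂ q, om c χ = (q.totient : ℝ) := by
  have h1 : ∀ χ : DirichletCharacter ℂ q, om c χ = 1 - (χ (c : ZMod q)).re := by
    intro χ
    unfold om
    have h2 := VA_unit hc χ
    have h3 : ‖χ (c : ZMod q)‖ ^ 2 = 1 := by rw [h2]; norm_num
    rw [← Complex.normSq_eq_norm_sq, Complex.normSq_apply] at h3 ⊢
    simp only [Complex.sub_re, Complex.sub_im, Complex.one_re, Complex.one_im]
    nlinarith
  have h2 : ((c : ℕ) : ZMod q) ≠ 1 := by
    intro h
    apply hc1
    have h3 : ((c : ℕ) : ZMod q) = ((1 : ℕ) : ZMod q) := by rw [h, Nat.cast_one]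
    exact (ZMod.natCast_eq_natCast_iff' c 1 q).1 h3
  have h3 : ∑ χ : DirichletCharacter ℂ q, χ (c : ZMod q) = 0 :=
    DirichletCharacter.sum_characters_eq_zero ℂ h2
  have h4 : ∑ χ : DirichletCharacter ℂ q, (χ (c : ZMod q)).re = 0 := by
    rw [← Complex.re_sum, h3, Complex.zero_re]
  rw [Finset.sum_congr rfl fun χ _ => h1 χ, Finset.sum_sub_distrib, h4, sub_zero,
    Finset.sum_const, nsmul_eq_mul, mul_one, Finset.card_univ, ← Nat.card_eq_fintype_card,
    DirichletCharacter.card_eq_totient_of_hasEnoughRootsOfUnity ℂ q]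

/-- Sum over the reduced residues. -/
private lemma VA_sum (q : ℕ) [NeZero q] (G : ZMod q → ℝ) :
    ∑ a ∈ (Finset.Icc 1 q).filter (fun a => Nat.Coprime a q), G (a : ZMod q) =
      ∑ b : ZMod q, (open scoped Classical in if IsUnit b then G b else 0) := by
  classical
  rw [Finset.sum_filter]
  refine Finset.sum_bij (fun a _ => (a : ZMod q)) (fun _ _ => Finset.mem_univ _) ?_ ?_ ?_
  · intro a ha b hb hab
    rw [Finset.mem_Icc] at ha hb
    rw [ZMod.natCast_eq_natCast_iff'] at hab
    rcases Nat.lt_or_ge a q with h1 | h1 <;> rcases Nat.lt_or_ge b q with h2 | h2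
    · rwa [Nat.mod_eq_of_lt h1, Nat.mod_eq_of_lt h2] at hab
    · have : b = q := le_antisymm hb.2 h2
      rw [this, Nat.mod_self, Nat.mod_eq_of_lt h1] at hab
      omega
    · have : a = q := le_antisymm ha.2 h1
      rw [this, Nat.mod_self, Nat.mod_eq_of_lt h2] at hab
      omega
    · omega
  · intro b _
    by_cases hb : b.val = 0
    · refine ⟨q, Finset.mem_Icc.mpr ⟨Nat.one_le_iff_ne_zero.mpr (NeZero.ne q), le_rfl⟩, ?_⟩
      rw [ZMod.natCast_self]
      exact ((ZMod.val_eq_zero b).mp hb).symm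
    · exact ⟨b.val, Finset.mem_Icc.mpr ⟨Nat.one_le_iff_ne_zero.mpr hb, (ZMod.val_lt b).le⟩,
        ZMod.natCast_zmod_val b⟩
  · intro a _
    by_cases h : Nat.Coprime a q
    · rw [if_pos h, if_pos ((ZMod.isUnit_iff_coprime a q).2 h)]
    · rw [if_neg h, if_neg (fun h' => h ((ZMod.isUnit_iff_coprime a q).1 h'))]

private lemma VA_psiC (q : ℕ) [NeZero q] (χ : DirichletCharacter ℂ q) (x : ℝ) :
    psiC χ x = ∑ b : ZMod q, χ b * ((psi x q b.val : ℝ) : ℂ) := by
  classical
  unfold psiC
  rw [← Finset.sum_fiberwise (Finset.Icc 1 ⌊x⌋₊) (fun n : ℕ => (n : ZMod q))]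
  apply Finset.sum_congr rfl
  intro b _
  unfold psi
  rw [Complex.ofReal_sum, Finset.mul_sum]
  have hf : (Finset.Icc 1 ⌊x⌋₊).filter (fun n : ℕ => (n : ZMod q) = b) =
      (Finset.Icc 1 ⌊x⌋₊).filter (fun n => n % q = b.val % q) := by
    ext n
    simp only [Finset.mem_filter, and_congr_right_iff]
    intro _
    rw [← ZMod.natCast_eq_natCast_iff', ZMod.natCast_zmod_val]
  rw [hf]
  apply Finset.sum_congr rfl
  intro n hn
  rw [← hf, Finset.mem_filter] at hn
  rw [hn.2]

private lemma VA_psi_mul (x : ℝ) (q : ℕ) [NeZero q] (c a : ℕ) :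
    psi x q (c * a) = psi x q ((c : ZMod q) * (a : ZMod q)).val := by
  rw [Pool.Agent.EM.X1_psi x q (c * a), Nat.cast_mul]

/-- VA3. PROOF. Orthogonality, see `X1_orth` and `variance_upper` in EMChars.lean: with `w b = psi x q b.val - psi x q (c b).val` for the units `b` of `ZMod q` (and `0` otherwise) `∑_b χ(b) w(b) = (1 - χ(c)⁻¹) psiC χ x`
up to the terms `n` not prime to `q`, on which `χ` vanishes, and `‖1 - χ(c)⁻¹‖ = ‖1 - χ c‖` as `‖χ c‖ = 1`. -/
theorem Vc_eq (q : ℕ) [NeZero q] (c : ℕ) (hc : Nat.Coprime c q) (x : ℝ) :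
    ∑ χ : DirichletCharacter ℂ q, om c χ * ‖psiC χ x‖ ^ 2 = (q.totient : ℝ) * Vc x q c := by
  classical
  set G : ZMod q → ℝ := fun b => psi x q b.val - psi x q ((c : ZMod q) * b).val with hG
  set w : ZMod q → ℝ := fun b => if IsUnit b then G b else 0 with hw
  set u : (ZMod q)ˣ := ZMod.unitOfCoprime c hc with hu
  have huc : (u : ZMod q) = (c : ZMod q) := ZMod.coe_unitOfCoprime c hc
  have hV : Vc x q c = 1 / 2 * ∑ b, w b ^ 2 := by
    unfold Vc
    congr 1
    have h1 := VA_sum q (fun b => G b ^ 2)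
    have h2 : ∀ a ∈ (Finset.Icc 1 q).filter (fun a => Nat.Coprime a q),
        (psi x q a - psi x q (c * a)) ^ 2 = G (a : ZMod q) ^ 2 := by
      intro a _
      rw [VA_psi_mul, Pool.Agent.EM.X1_psi x q a]
    rw [Finset.sum_congr rfl h2, h1]
    refine Finset.sum_congr rfl fun b _ => ?_
    by_cases hb : IsUnit b
    · simp only [hw]
      rw [if_pos hb, if_pos hb]
    · simp only [hw]
      rw [if_neg hb, if_neg hb]
      norm_num
  have hpsi : ∀ χ : DirichletCharacter ℂ q,
      ∑ b, χ b * (w b : ℂ) = (1 - χ ((u⁻¹ : (ZMod q)ˣ) : ZMod q)) * psiC χ x := by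
    intro χ
    have h1 : ∑ b, χ b * (w b : ℂ) = ∑ b, χ b * ((G b : ℝ) : ℂ) := by
      apply Finset.sum_congr rfl
      intro b _
      by_cases hb : IsUnit b
      · simp only [hw]
        rw [if_pos hb]
      · rw [MulChar.map_nonunit χ hb, zero_mul, zero_mul]
    have h2 : ∑ b : ZMod q, χ b * ((psi x q ((c : ZMod q) * b).val : ℝ) : ℂ) =
        χ ((u⁻¹ : (ZMod q)ˣ) : ZMod q) * psiC χ x := by
      rw [VA_psiC, Finset.mul_sum]
      rw [← Equiv.sum_comp (Units.mulLeft u) (fun b : ZMod q =>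
        χ ((u⁻¹ : (ZMod q)ˣ) : ZMod q) * (χ b * ((psi x q b.val : ℝ) : ℂ)))]
      apply Finset.sum_congr rfl
      intro b _
      simp only [Units.mulLeft_apply]
      rw [← mul_assoc, ← map_mul, Units.inv_mul_cancel_left, huc]
    rw [h1]
    have h3 : ∑ b, χ b * ((G b : ℝ) : ℂ) = ∑ b : ZMod q, χ b * ((psi x q b.val : ℝ) : ℂ) -
        ∑ b : ZMod q, χ b * ((psi x q ((c : ZMod q) * b).val : ℝ) : ℂ) := by
      rw [← Finset.sum_sub_distrib]
      apply Finset.sum_congr rfl
      intro b _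
      simp only [hG, Complex.ofReal_sub]
      ring
    rw [h3, h2, ← VA_psiC]
    ring
  have hnorm : ∀ χ : DirichletCharacter ℂ q,
      om c χ * ‖psiC χ x‖ ^ 2 = 1 / 2 * ‖∑ b, χ b * (w b : ℂ)‖ ^ 2 := by
    intro χ
    rw [hpsi χ, norm_mul, mul_pow]
    have h1 : ‖χ (u : ZMod q)‖ = 1 := χ.unit_norm_eq_one u
    have h2 : 1 - χ (u : ZMod q) = -(χ (u : ZMod q) * (1 - χ ((u⁻¹ : (ZMod q)ˣ) : ZMod q))) := by
      have h3 : χ (u : ZMod q) * χ ((u⁻¹ : (ZMod q)ˣ) : ZMod q) = 1 := by
        rw [← map_mul, Units.mul_inv, map_one]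
      rw [mul_sub, h3]
      ring
    have h4 : ‖1 - χ (c : ZMod q)‖ = ‖1 - χ ((u⁻¹ : (ZMod q)ˣ) : ZMod q)‖ := by
      rw [← huc, h2, norm_neg, norm_mul, h1, one_mul]
    unfold om
    rw [h4]
    ring
  rw [Finset.sum_congr rfl fun χ _ => hnorm χ, ← Finset.mul_sum,
    Pool.Agent.EM.X1_orth q w (fun b hb => by simp only [hw]; rw [if_neg hb]), hV]
  ring

theorem Vc_nonneg (x : ℝ) (q c : ℕ) : 0 ≤ Vc x q c := by
  unfold Vc
  exact mul_nonneg (by norm_num) (Finset.sum_nonneg fun _ _ => sq_nonneg _)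

/-- VA4. PROOF. As `integrable_V_window` in EMFinal.lean, or by `Vc_eq` and `integrable_psiC_sq_window`. -/
theorem integrable_Vc_window (q : ℕ) [NeZero q] (c : ℕ) (hc : Nat.Coprime c q) (X Y : ℝ) (hX : 1 ≤ X) :
    IntegrableOn (fun x => Vc x q c / x ^ 2) (Set.Ioc X Y) := by
  have hφ : (0 : ℝ) < (q.totient : ℝ) := by
    exact_mod_cast Nat.totient_pos.mpr (Nat.pos_of_ne_zero (NeZero.ne q))
  have h1 : (fun x : ℝ => Vc x q c / x ^ 2) = fun x : ℝ =>
      ∑ χ : DirichletCharacter ℂ q, (om c χ / (q.totient : ℝ)) * (‖psiC χ x‖ ^ 2 / x ^ 2) := by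
    funext x
    have h2 := Vc_eq q c hc x
    have h3 : Vc x q c = (∑ χ : DirichletCharacter ℂ q, om c χ * ‖psiC χ x‖ ^ 2) / (q.totient : ℝ) := by
      rw [h2]
      field_simp
    rw [h3, Finset.sum_div, Finset.sum_div]
    refine Finset.sum_congr rfl fun χ _ => ?_
    ring
  rw [h1]
  exact integrable_finsetSum _ fun χ _ =>
    (Pool.Agent.EM.integrable_psiC_sq_window χ X Y hX).const_mul _

private lemma VA_psi (q : ℕ) (hq : 2 ≤ q) (x : ℝ) (hxq : x ≤ q) (a : ℕ)
    (ha : a ∈ (Finset.Icc 1 q).filter (fun a => Nat.Coprime a q)) :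
    psi x q a = if a ≤ ⌊x⌋₊ then ArithmeticFunction.vonMangoldt a else 0 := by
  rw [Finset.mem_filter, Finset.mem_Icc] at ha
  obtain ⟨⟨ha1, ha2⟩, hc⟩ := ha
  have haq : a < q := by
    rcases Nat.lt_or_ge a q with h | h
    · exact h
    · exfalso
      have : a = q := le_antisymm ha2 h
      rw [this, Nat.coprime_self] at hc
      omega
  have hfl : ⌊x⌋₊ ≤ q := by
    have := Nat.floor_le_floor hxq
    rwa [Nat.floor_natCast] at this
  unfold psi
  have key : ∀ n ∈ Finset.Icc 1 ⌊x⌋₊, (n % q = a % q ↔ n = a) := by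
    intro n hn
    rw [Finset.mem_Icc] at hn
    rw [Nat.mod_eq_of_lt haq]
    constructor
    · intro h
      rcases Nat.lt_or_ge n q with h1 | h1
      · rwa [Nat.mod_eq_of_lt h1] at h
      · have : n = q := le_antisymm (hn.2.trans hfl) h1
        rw [this, Nat.mod_self] at h
        omega
    · intro h
      rw [h, Nat.mod_eq_of_lt haq]
  rw [Finset.filter_congr key, Finset.sum_filter]
  split_ifs with h
  · rw [Finset.sum_ite_eq' (Finset.Icc 1 ⌊x⌋₊) a]
    rw [if_pos (Finset.mem_Icc.mpr ⟨ha1, h⟩)]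
  · rw [Finset.sum_ite_eq' (Finset.Icc 1 ⌊x⌋₊) a]
    rw [if_neg (fun h' => h (Finset.mem_Icc.mp h').2)]

/-- The sum of the squares. -/
private lemma VA_sq (q : ℕ) (hq : 2 ≤ q) (x : ℝ) (hx : 1 ≤ x) (hxq : x ≤ q) :
    ∑ a ∈ (Finset.Icc 1 q).filter (fun a => Nat.Coprime a q), psi x q a ^ 2 ≤
      Chebyshev.psi x * Real.log x := by
  have hfl1 : ∀ a : ℕ, a ≤ ⌊x⌋₊ → (a : ℝ) ≤ x := fun a ha =>
    (Nat.cast_le.mpr ha).trans (Nat.floor_le (by linarith))
  have hterm : ∀ a ∈ (Finset.Icc 1 q).filter (fun a => Nat.Coprime a q),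
      psi x q a ^ 2 ≤
        (if a ≤ ⌊x⌋₊ then ArithmeticFunction.vonMangoldt a * Real.log x else 0) := by
    intro a ha
    rw [VA_psi q hq x hxq a ha]
    have ha1 : 1 ≤ a := (Finset.mem_Icc.mp (Finset.mem_filter.mp ha).1).1
    split_ifs with h
    · have h0 : 0 ≤ ArithmeticFunction.vonMangoldt a := ArithmeticFunction.vonMangoldt_nonneg
      have h1 : ArithmeticFunction.vonMangoldt a ≤ Real.log x := by
        refine ArithmeticFunction.vonMangoldt_le_log.trans ?_
        apply Real.log_le_log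
        · exact_mod_cast ha1
        · exact hfl1 a h
      rw [sq]
      exact mul_le_mul_of_nonneg_left h1 h0
    · norm_num
  refine (Finset.sum_le_sum hterm).trans ?_
  rw [← Finset.sum_filter]
  unfold Chebyshev.psi
  rw [Finset.sum_mul]
  apply Finset.sum_le_sum_of_subset_of_nonneg
  · intro a ha
    rw [Finset.mem_filter, Finset.mem_filter, Finset.mem_Icc] at ha
    rw [Finset.mem_Ioc]
    exact ⟨by omega, ha.2⟩
  · intro a _ _
    exact mul_nonneg ArithmeticFunction.vonMangoldt_nonneg (Real.log_nonneg hx)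

/-- The permutation `a ↦ c a`. -/
private lemma VA_perm (q : ℕ) [NeZero q] (c : ℕ) (hc : Nat.Coprime c q) (x : ℝ) :
    ∑ a ∈ (Finset.Icc 1 q).filter (fun a => Nat.Coprime a q), psi x q (c * a) ^ 2 =
      ∑ a ∈ (Finset.Icc 1 q).filter (fun a => Nat.Coprime a q), psi x q a ^ 2 := by
  classical
  set u : (ZMod q)ˣ := ZMod.unitOfCoprime c hc with hu
  have huc : (u : ZMod q) = (c : ZMod q) := ZMod.coe_unitOfCoprime c hc
  have h1 := VA_sum q (fun b => psi x q ((c : ZMod q) * b).val ^ 2)
  have h2 := VA_sum q (fun b => psi x q b.val ^ 2)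
  rw [Finset.sum_congr rfl fun a _ => by rw [VA_psi_mul], h1,
    Finset.sum_congr rfl fun a (_ : a ∈ (Finset.Icc 1 q).filter (fun a => Nat.Coprime a q)) => by
      rw [Pool.Agent.EM.X1_psi x q a], h2]
  rw [← Equiv.sum_comp (Units.mulLeft u) (fun b : ZMod q =>
    (open scoped Classical in if IsUnit b then psi x q b.val ^ 2 else 0))]
  apply Finset.sum_congr rfl
  intro b _
  simp only [Units.mulLeft_apply]
  by_cases hb : IsUnit b
  · rw [if_pos hb, if_pos ((Units.isUnit_units_mul u b).2 hb), huc]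
  · rw [if_neg hb, if_neg (fun h => hb ((Units.isUnit_units_mul u b).1 h))]

/-- VA5. PROOF. `V_c = (1/2) ∑_a (ψ_a - ψ_{ca})² = ∑_a ψ_a² - ∑_a ψ_a ψ_{ca} ≤ ∑_a ψ_a²` (`a ↦ c a` permutes the reduced residues; `ψ ≥ 0`), and `∑_a ψ_a² ≤ log x ψ(x)` for `x ≤ q` as in the proof of `V_le` in
SD/VC.lean (copy its private lemmas). -/
theorem Vc_le (q : ℕ) [NeZero q] (hq : 2 ≤ q) (c : ℕ) (hc : Nat.Coprime c q) (x : ℝ) (hx : 1 ≤ x) (hxq : x ≤ q) :
    Vc x q c ≤ Chebyshev.psi x * Real.log x := by
  have h1 := VA_sq q hq x hx hxq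
  have h2 := VA_perm q c hc x
  have h3 : ∑ a ∈ (Finset.Icc 1 q).filter (fun a => Nat.Coprime a q),
      (psi x q a - psi x q (c * a)) ^ 2 ≤
      ∑ a ∈ (Finset.Icc 1 q).filter (fun a => Nat.Coprime a q), psi x q a ^ 2 +
      ∑ a ∈ (Finset.Icc 1 q).filter (fun a => Nat.Coprime a q), psi x q (c * a) ^ 2 := by
    rw [← Finset.sum_add_distrib]
    refine Finset.sum_le_sum fun a _ => ?_
    have h4 := mul_nonneg (Pool.Agent.EM.psi_nonneg x q a) (Pool.Agent.EM.psi_nonneg x q (c * a))
    nlinarith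
  unfold Vc
  linarith

end Pool.Agent.SW
end

section

set_option autoImplicit false

/-! Task KB: the kernel. -/

namespace Pool.Agent.SW

open MeasureTheory

theorem kk_nonneg (w s t : ℝ) : 0 ≤ kk w s t := by
  unfold kk
  positivity

theorem kk_continuous (w s : ℝ) : Continuous (fun t => kk w s t) := by
  unfold kk
  fun_prop

theorem kk_le (w s t : ℝ) (hw : 0 ≤ w) (ht : 0 ≤ t) : kk w s t ≤ 6 * w := by
  unfold kk
  have h1 : max 0 (w - t) ≤ w := max_le hw (by linarith)
  have h2 : max 0 (w - |t - s|) ≤ w := max_le hw (by linarith [abs_nonneg (t - s)])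
  linarith

/-- PROOF. `|t - s| = s - t ≥ w - t`, so `w - |t - s| ≤ t ≤ A`. -/
theorem kk_spike (w s t A : ℝ) (hws : w ≤ s) (ht : 0 ≤ t) (htA : t ≤ A) (hAw : A ≤ w) :
    kk w s t ≤ 4 * w + 2 * A := by
  unfold kk
  have h1 : max 0 (w - t) ≤ w := max_le (by linarith) (by linarith)
  have h2 : max 0 (w - |t - s|) ≤ A := by
    refine max_le (by linarith) ?_
    have := neg_abs_le (t - s)
    linarith
  linarith

/-- Outside of the blocks. -/
theorem kk_zero (w s t : ℝ) (hw : 0 ≤ w) (hs : 0 ≤ s) (ht : s + w ≤ t) : kk w s t = 0 := by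
  unfold kk
  have h1 : max 0 (w - t) = 0 := max_eq_left (by linarith)
  have h2 : max 0 (w - |t - s|) = 0 := by
    refine max_eq_left ?_
    have := le_abs_self (t - s)
    linarith
  rw [h1, h2]
  ring

/-- PROOF. `∫_0^(s+w) max 0 (w-t) g = ∫_0^w (w-t) g` (split at `w`; the integrand vanishes on `[w, s+w]`), `∫_0^(s+w) max 0 (w-|t-s|) g =
∫_(s-w)^(s+w) (w-|t-s|) g` (split at `s - w ≥ 0`); `intervalIntegral.integral_add_adjacent_intervals`, `intervalIntegral.integral_congr`. -/
theorem kk_int (w s : ℝ) (hw : 0 ≤ w) (hws : w ≤ s) (g : ℝ → ℝ) (hg : Continuous g) :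
    ∫ t in (0 : ℝ)..(s + w), kk w s t * g t =
      4 * (∫ t in (0 : ℝ)..w, (w - t) * g t) + 2 * ∫ t in (s - w)..(s + w), (w - |t - s|) * g t := by
  have i1 : ∀ a b : ℝ, IntervalIntegrable (fun t => max 0 (w - t) * g t) volume a b := fun a b =>
    ((by fun_prop : Continuous (fun t => max 0 (w - t) * g t))).intervalIntegrable a b
  have i2 : ∀ a b : ℝ, IntervalIntegrable (fun t => max 0 (w - |t - s|) * g t) volume a b := fun a b =>
    ((by fun_prop : Continuous (fun t => max 0 (w - |t - s|) * g t))).intervalIntegrable a b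
  have e1 : ∫ t in (0 : ℝ)..(s + w), kk w s t * g t =
      4 * (∫ t in (0 : ℝ)..(s + w), max 0 (w - t) * g t) +
        2 * ∫ t in (0 : ℝ)..(s + w), max 0 (w - |t - s|) * g t := by
    rw [← intervalIntegral.integral_const_mul, ← intervalIntegral.integral_const_mul,
      ← intervalIntegral.integral_add ((i1 _ _).const_mul _) ((i2 _ _).const_mul _)]
    refine intervalIntegral.integral_congr fun t _ => ?_
    show kk w s t * g t = 4 * (max 0 (w - t) * g t) + 2 * (max 0 (w - |t - s|) * g t)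
    unfold kk
    ring
  have e2 : ∫ t in (0 : ℝ)..(s + w), max 0 (w - t) * g t = ∫ t in (0 : ℝ)..w, (w - t) * g t := by
    rw [← intervalIntegral.integral_add_adjacent_intervals (i1 0 w) (i1 w (s + w))]
    have h1 : ∫ t in w..(s + w), max 0 (w - t) * g t = 0 := by
      rw [intervalIntegral.integral_congr (g := fun _ => (0 : ℝ))]
      · simp
      · intro t ht
        rw [Set.uIcc_of_le (by linarith)] at ht
        show max 0 (w - t) * g t = 0
        rw [max_eq_left (by linarith [ht.1])]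
        ring
    rw [h1, add_zero]
    refine intervalIntegral.integral_congr fun t ht => ?_
    rw [Set.uIcc_of_le hw] at ht
    show max 0 (w - t) * g t = (w - t) * g t
    rw [max_eq_right (by linarith [ht.2])]
  have e3 : ∫ t in (0 : ℝ)..(s + w), max 0 (w - |t - s|) * g t =
      ∫ t in (s - w)..(s + w), (w - |t - s|) * g t := by
    rw [← intervalIntegral.integral_add_adjacent_intervals (i2 0 (s - w)) (i2 (s - w) (s + w))]
    have h1 : ∫ t in (0 : ℝ)..(s - w), max 0 (w - |t - s|) * g t = 0 := by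
      rw [intervalIntegral.integral_congr (g := fun _ => (0 : ℝ))]
      · simp
      · intro t ht
        rw [Set.uIcc_of_le (by linarith)] at ht
        show max 0 (w - |t - s|) * g t = 0
        rw [max_eq_left (by linarith [ht.2, neg_abs_le (t - s)])]
        ring
    rw [h1, zero_add]
    refine intervalIntegral.integral_congr fun t ht => ?_
    rw [Set.uIcc_of_le (by linarith)] at ht
    show max 0 (w - |t - s|) * g t = (w - |t - s|) * g t
    rw [max_eq_right]
    have : |t - s| ≤ w := abs_le.2 ⟨by linarith [ht.1], by linarith [ht.2]⟩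
    linarith
  rw [e1, e2, e3]

/-- The same for a function of `x` that is integrable: `x = e^t`.
PROOF. `kk w s (log x) = 4 max 0 (w - log x) + 2 max 0 (w - |log x - s|)`; on `Ioc 1 (e^(s+w))` the first summand vanishes off `Ioc 1 (e^w)`, the second
off `Ioc (e^(s-w)) (e^(s+w))` (as `log x ≥ s - w` iff `x ≥ e^(s-w)`). The products with the integrable `F x/x²` are integrable (bounded, measurable
weights): `Integrable.bdd_mul`, see `integrable_weight` in SK/F2.lean. Use `setIntegral_indicator`-type lemmas or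
`setIntegral_union` with `Set.Ioc_union_Ioc_eq_Ioc`. -/
theorem BE_split (F : ℝ → ℝ) (w s : ℝ) (hw : 0 ≤ w) (hws : w ≤ s)
    (hF : IntegrableOn (fun x => F x / x ^ 2) (Set.Ioc 1 (Real.exp (s + w)))) :
    BE F w s = 4 * NE F w + 2 * FE F w s := by
  have hb : ∀ (φ : ℝ → ℝ), Measurable φ → (∀ x, 1 < x → 0 ≤ φ x ∧ φ x ≤ w) →
      IntegrableOn (fun x => φ x * (F x / x ^ 2)) (Set.Ioc 1 (Real.exp (s + w))) := by
    intro φ hφ hφ2
    refine Integrable.bdd_mul (c := w) hF hφ.aestronglyMeasurable ?_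
    refine (ae_restrict_iff' measurableSet_Ioc).mpr (Filter.Eventually.of_forall fun x hx => ?_)
    have h := hφ2 x hx.1
    rw [Real.norm_of_nonneg h.1]
    exact h.2
  have hlog : ∀ x : ℝ, 1 < x → 0 ≤ Real.log x := fun x hx => Real.log_nonneg hx.le
  have i1 := hb (fun x => max 0 (w - Real.log x)) (by fun_prop) (fun x hx =>
    ⟨le_max_left _ _, max_le hw (by linarith [hlog x hx])⟩)
  have i2 := hb (fun x => max 0 (w - |Real.log x - s|)) (by fun_prop) (fun x hx =>
    ⟨le_max_left _ _, max_le hw (by linarith [abs_nonneg (Real.log x - s)])⟩)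
  have e1 : BE F w s = 4 * (∫ x in Set.Ioc 1 (Real.exp (s + w)), max 0 (w - Real.log x) * (F x / x ^ 2)) +
      2 * ∫ x in Set.Ioc 1 (Real.exp (s + w)), max 0 (w - |Real.log x - s|) * (F x / x ^ 2) := by
    unfold BE
    rw [← integral_const_mul, ← integral_const_mul, ← integral_add (i1.const_mul _) (i2.const_mul _)]
    refine integral_congr_ae (Filter.Eventually.of_forall fun x => ?_)
    show kk w s (Real.log x) * (F x / x ^ 2) = _
    unfold kk
    ring
  have h1w : (1 : ℝ) ≤ Real.exp w := Real.one_le_exp hw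
  have hws' : Real.exp w ≤ Real.exp (s + w) := Real.exp_le_exp.2 (by linarith)
  have e2 : ∫ x in Set.Ioc 1 (Real.exp (s + w)), max 0 (w - Real.log x) * (F x / x ^ 2) = NE F w := by
    rw [← Set.Ioc_union_Ioc_eq_Ioc h1w hws', setIntegral_union]
    · have h1 : ∫ x in Set.Ioc (Real.exp w) (Real.exp (s + w)), max 0 (w - Real.log x) * (F x / x ^ 2) = 0 := by
        rw [setIntegral_congr_fun measurableSet_Ioc (g := fun _ => (0 : ℝ))]
        · simp
        · intro x hx
          show max 0 (w - Real.log x) * (F x / x ^ 2) = 0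
          have hx0 : 0 < x := lt_trans (Real.exp_pos _) hx.1
          have h2 : w ≤ Real.log x := (Real.le_log_iff_exp_le hx0).2 hx.1.le
          rw [max_eq_left (by linarith)]
          ring
      rw [h1, add_zero]
      unfold NE
      refine setIntegral_congr_fun measurableSet_Ioc fun x hx => ?_
      show max 0 (w - Real.log x) * (F x / x ^ 2) = (w - Real.log x) * (F x / x ^ 2)
      have hx0 : 0 < x := lt_trans one_pos hx.1
      have h2 : Real.log x ≤ w := (Real.log_le_iff_le_exp hx0).2 hx.2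
      rw [max_eq_right (by linarith)]
    · rw [Set.disjoint_left]
      intro x hx hx'
      exact absurd hx.2 (not_le.2 hx'.1)
    · exact measurableSet_Ioc
    · exact i1.mono_set (Set.Ioc_subset_Ioc_right hws')
    · exact i1.mono_set (Set.Ioc_subset_Ioc_left h1w)
  have h1s : (1 : ℝ) ≤ Real.exp (s - w) := Real.one_le_exp (by linarith)
  have hss : Real.exp (s - w) ≤ Real.exp (s + w) := Real.exp_le_exp.2 (by linarith)
  have e3 : ∫ x in Set.Ioc 1 (Real.exp (s + w)), max 0 (w - |Real.log x - s|) * (F x / x ^ 2) = FE F w s := by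
    rw [← Set.Ioc_union_Ioc_eq_Ioc h1s hss, setIntegral_union]
    · have h1 : ∫ x in Set.Ioc 1 (Real.exp (s - w)), max 0 (w - |Real.log x - s|) * (F x / x ^ 2) = 0 := by
        rw [setIntegral_congr_fun measurableSet_Ioc (g := fun _ => (0 : ℝ))]
        · simp
        · intro x hx
          show max 0 (w - |Real.log x - s|) * (F x / x ^ 2) = 0
          have hx0 : 0 < x := lt_trans one_pos hx.1
          have h2 : Real.log x ≤ s - w := (Real.log_le_iff_le_exp hx0).2 hx.2
          rw [max_eq_left (by linarith [neg_abs_le (Real.log x - s)])]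
          ring
      rw [h1, zero_add]
      unfold FE
      refine setIntegral_congr_fun measurableSet_Ioc fun x hx => ?_
      show max 0 (w - |Real.log x - s|) * (F x / x ^ 2) = (w - |Real.log x - s|) * (F x / x ^ 2)
      have hx0 : 0 < x := lt_trans (Real.exp_pos _) hx.1
      have h2 : Real.log x ≤ s + w := (Real.log_le_iff_le_exp hx0).2 hx.2
      have h3 : s - w ≤ Real.log x := (Real.le_log_iff_exp_le hx0).2 hx.1.le
      have h4 : |Real.log x - s| ≤ w := abs_le.2 ⟨by linarith, by linarith⟩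
      rw [max_eq_right (by linarith)]
    · rw [Set.disjoint_left]
      intro x hx hx'
      exact absurd hx.2 (not_le.2 hx'.1)
    · exact measurableSet_Ioc
    · exact i2.mono_set (Set.Ioc_subset_Ioc_right hss)
    · exact i2.mono_set (Set.Ioc_subset_Ioc_left h1s)
  rw [e1, e2, e3]

theorem NE_nonneg (F : ℝ → ℝ) (w : ℝ) (hF : ∀ x, 0 ≤ F x) : 0 ≤ NE F w := by
  unfold NE
  refine setIntegral_nonneg measurableSet_Ioc fun x hx => ?_
  have hx0 : 0 < x := lt_trans one_pos hx.1
  have h2 : Real.log x ≤ w := (Real.log_le_iff_le_exp hx0).2 hx.2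
  exact mul_nonneg (by linarith) (div_nonneg (hF x) (by positivity))

theorem FE_nonneg (F : ℝ → ℝ) (w s : ℝ) (hF : ∀ x, 0 ≤ F x) : 0 ≤ FE F w s := by
  unfold FE
  refine setIntegral_nonneg measurableSet_Ioc fun x hx => ?_
  have hx0 : 0 < x := lt_trans (Real.exp_pos _) hx.1
  have h2 : Real.log x ≤ s + w := (Real.log_le_iff_le_exp hx0).2 hx.2
  have h3 : s - w ≤ Real.log x := (Real.le_log_iff_exp_le hx0).2 hx.1.le
  have h4 : |Real.log x - s| ≤ w := abs_le.2 ⟨by linarith, by linarith⟩
  exact mul_nonneg (by linarith) (div_nonneg (hF x) (by positivity))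

theorem TB_nonneg {q : ℕ} (χ : DirichletCharacter ℂ q) (w s : ℝ) (hw : 0 ≤ s + w) : 0 ≤ TB χ w s := by
  unfold TB
  refine intervalIntegral.integral_nonneg hw fun t _ => ?_
  exact mul_nonneg (kk_nonneg w s t) (by positivity)

end Pool.Agent.SW
end

section

set_option autoImplicit false

/-! Task H2: averaging the short windows. -/

namespace Pool.Agent.SF

open MeasureTheory
open Pool.Agent.SW

theorem H2_tent (L y a b : ℝ) (hL : 0 < L) : ∫ s in Set.Icc a b, max 0 (L - |y - s|) ≤ L ^ 2 := by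
  have hφ : (fun s : ℝ => max 0 (L - |y - s|)) = (Set.Icc (y - L) (y + L)).indicator (fun s => L - |y - s|) := by
    funext s
    by_cases h : s ∈ Set.Icc (y - L) (y + L)
    · rw [Set.indicator_of_mem h, max_eq_right]
      have h1 : |y - s| ≤ L := abs_le.2 ⟨by linarith [h.2], by linarith [h.1]⟩
      linarith
    · rw [Set.indicator_of_notMem h, max_eq_left]
      by_contra h1
      have h2 : |y - s| ≤ L := by linarith [not_le.1 h1]
      rw [abs_le] at h2
      exact h ⟨by linarith [h2.2], by linarith [h2.1]⟩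
  have hint : Integrable (fun s : ℝ => max 0 (L - |y - s|)) := by
    rw [hφ, integrable_indicator_iff measurableSet_Icc]
    exact (by fun_prop : Continuous fun s : ℝ => L - |y - s|).continuousOn.integrableOn_compact isCompact_Icc
  have h1 : ∫ s in Set.Icc a b, max 0 (L - |y - s|) ≤ ∫ s : ℝ, max 0 (L - |y - s|) :=
    setIntegral_le_integral hint (Filter.Eventually.of_forall fun s => le_max_left _ _)
  refine h1.trans (le_of_eq ?_)
  rw [hφ, integral_indicator measurableSet_Icc, integral_Icc_eq_integral_Ioc,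
    ← intervalIntegral.integral_of_le (by linarith)]
  have hii : ∀ u v : ℝ, IntervalIntegrable (fun s : ℝ => L - |y - s|) volume u v := fun u v =>
    (by fun_prop : Continuous fun s : ℝ => L - |y - s|).intervalIntegrable u v
  rw [← intervalIntegral.integral_add_adjacent_intervals (hii (y - L) y) (hii y (y + L))]
  have e1 : ∫ s in (y - L)..y, (L - |y - s|) = ∫ s in (y - L)..y, ((L - y) + s) := by
    refine intervalIntegral.integral_congr fun s hs => ?_
    rw [Set.uIcc_of_le (by linarith)] at hs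
    show L - |y - s| = _
    rw [abs_of_nonneg (by linarith [hs.2])]
    ring
  have e2 : ∫ s in y..(y + L), (L - |y - s|) = ∫ s in y..(y + L), ((L + y) - s) := by
    refine intervalIntegral.integral_congr fun s hs => ?_
    rw [Set.uIcc_of_le (by linarith)] at hs
    show L - |y - s| = _
    rw [abs_of_nonpos (by linarith [hs.1])]
    ring
  have e3 : ∫ s in (y - L)..y, ((L - y) + s) = L ^ 2 / 2 := by
    rw [intervalIntegral.integral_add intervalIntegrable_const intervalIntegral.intervalIntegrable_id,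
      intervalIntegral.integral_const, integral_id, smul_eq_mul]
    ring
  have e4 : ∫ s in y..(y + L), ((L + y) - s) = L ^ 2 / 2 := by
    rw [intervalIntegral.integral_sub intervalIntegrable_const intervalIntegral.intervalIntegrable_id,
      intervalIntegral.integral_const, integral_id, smul_eq_mul]
    ring
  rw [e1, e2, e3, e4]
  ring

/-- H2. -/
theorem avg_window (F : ℝ → ℝ) (hF : ∀ x, 0 ≤ F x) (hFm : Measurable F) (L α β A : ℝ) (hL : 0 < L) (hA : 0 ≤ A) (hα : 0 ≤ α) (hαβ : α ≤ β)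
    (hI : IntegrableOn (fun x => F x / x ^ 2) (Set.Ioc (Real.exp α) (Real.exp β)))
    (h : ∀ s : ℝ, α + L ≤ s → s ≤ β - L → A * L ^ 2 ≤ FE F L s) :
    (β - α - 2 * L) * A ≤ ∫ x in Set.Ioc (Real.exp α) (Real.exp β), F x / x ^ 2 := by
  have hG0 : ∀ x : ℝ, 0 ≤ F x / x ^ 2 := fun x => div_nonneg (hF x) (sq_nonneg x)
  rcases lt_or_ge (β - α) (2 * L) with hlt | hge
  · refine le_trans (mul_nonpos_of_nonpos_of_nonneg (by linarith) hA) ?_
    exact integral_nonneg fun x => hG0 x
  set G : ℝ → ℝ := fun x => F x / x ^ 2 with hG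
  have hGm : Measurable G := hFm.div (measurable_id.pow_const 2)
  set I : Set ℝ := Set.Ioc (Real.exp α) (Real.exp β) with hIdef
  set J : Set ℝ := Set.Icc (α + L) (β - L) with hJ
  -- the kernel
  have hFE : ∀ s ∈ J, FE F L s = ∫ x in I, max 0 (L - |Real.log x - s|) * G x := by
    intro s hs
    have hsub : Set.Ioc (Real.exp (s - L)) (Real.exp (s + L)) ⊆ I :=
      Set.Ioc_subset_Ioc (Real.exp_le_exp.2 (by linarith [hs.1])) (Real.exp_le_exp.2 (by linarith [hs.2]))
    have e1 : ∫ x in I, max 0 (L - |Real.log x - s|) * G x =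
        ∫ x in Set.Ioc (Real.exp (s - L)) (Real.exp (s + L)), max 0 (L - |Real.log x - s|) * G x := by
      refine setIntegral_eq_of_subset_of_forall_sdiff_eq_zero measurableSet_Ioc hsub fun x hx => ?_
      have hx0 : 0 < x := (Real.exp_pos _).trans hx.1.1
      have h1 : L - |Real.log x - s| ≤ 0 := by
        have h2 := hx.2
        rw [Set.mem_Ioc, not_and_or, not_lt, not_le] at h2
        rcases h2 with h2 | h2
        · have h3 : Real.log x ≤ s - L := by rw [← Real.log_exp (s - L)]; exact Real.log_le_log hx0 h2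
          have h4 := neg_abs_le (Real.log x - s)
          linarith
        · have h3 : s + L ≤ Real.log x := by
            rw [← Real.log_exp (s + L)]; exact Real.log_le_log (Real.exp_pos _) h2.le
          have h4 := le_abs_self (Real.log x - s)
          linarith
      rw [max_eq_left h1, zero_mul]
    rw [e1]
    unfold FE
    refine setIntegral_congr_fun measurableSet_Ioc fun x hx => ?_
    have hx0 : 0 < x := (Real.exp_pos _).trans hx.1
    have h3 : s - L ≤ Real.log x := by
      rw [← Real.log_exp (s - L)]; exact Real.log_le_log (Real.exp_pos _) hx.1.le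
    have h4 : Real.log x ≤ s + L := by rw [← Real.log_exp (s + L)]; exact Real.log_le_log hx0 hx.2
    have h5 : |Real.log x - s| ≤ L := abs_le.2 ⟨by linarith, by linarith⟩
    show (L - |Real.log x - s|) * (F x / x ^ 2) = max 0 (L - |Real.log x - s|) * G x
    rw [max_eq_right (by linarith)]
  have hJfin : volume J ≠ ⊤ := by rw [hJ, Real.volume_Icc]; exact ENNReal.ofReal_ne_top
  have hconst : Integrable (fun _ : ℝ => L) (volume.restrict J) := integrableOn_const hJfin
  have hprod : Integrable (Function.uncurry fun (s x : ℝ) => max 0 (L - |Real.log x - s|) * G x)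
      ((volume.restrict J).prod (volume.restrict I)) := by
    refine Integrable.mono' (hconst.mul_prod hI) ?_ (Filter.Eventually.of_forall fun p => ?_)
    · refine Measurable.aestronglyMeasurable ?_
      refine Measurable.mul ?_ (hGm.comp measurable_snd)
      exact measurable_const.max (measurable_const.sub
        (((Real.measurable_log.comp measurable_snd).sub measurable_fst).abs))
    · show ‖max 0 (L - |Real.log p.2 - p.1|) * G p.2‖ ≤ L * (F p.2 / p.2 ^ 2)
      rw [Real.norm_of_nonneg (mul_nonneg (le_max_left _ _) (hG0 _))]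
      refine mul_le_mul_of_nonneg_right (max_le hL.le ?_) (hG0 _)
      linarith [abs_nonneg (Real.log p.2 - p.1)]
  have h1 : ∫ s in J, A * L ^ 2 ≤ ∫ s in J, ∫ x in I, max 0 (L - |Real.log x - s|) * G x := by
    refine setIntegral_mono_on (integrableOn_const hJfin) hprod.integral_prod_left measurableSet_Icc fun s hs => ?_
    rw [← hFE s hs]
    exact h s hs.1 hs.2
  rw [setIntegral_const, hJ, Real.volume_real_Icc_of_le (by linarith), smul_eq_mul, ← hJ,
    integral_integral_swap hprod] at h1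
  have h2 : ∫ x in I, ∫ s in J, max 0 (L - |Real.log x - s|) * G x ≤ ∫ x in I, L ^ 2 * G x := by
    refine integral_mono hprod.integral_prod_right (hI.const_mul _) fun x => ?_
    show ∫ s in J, max 0 (L - |Real.log x - s|) * G x ≤ L ^ 2 * G x
    rw [integral_mul_const]
    exact mul_le_mul_of_nonneg_right (H2_tent L (Real.log x) _ _ hL) (hG0 _)
  rw [integral_const_mul] at h2
  have h3 : L ^ 2 * ((β - α - 2 * L) * A) ≤ L ^ 2 * ∫ x in I, G x := by
    calc L ^ 2 * ((β - α - 2 * L) * A) = (β - L - (α + L)) * (A * L ^ 2) := by ring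
      _ ≤ _ := h1.trans h2
  exact le_of_mul_le_mul_left h3 (by positivity)

end Pool.Agent.SF
end
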