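import Pool.Agent.Lib.MP_9cfc0a_nt.Mg.G010
import Pool.Agent.Lib.MP_9cfc0a_nt.Mg.G014
import Pool.Agent.Lib.MP_9cfc0a_nt.SF.Defs
import Pool.Agent.Lib.MP_9cfc0a_nt.Mg.G049
import Pool.Agent.Lib.MP_9cfc0a_nt.Mg.G051

section

set_option autoImplicit false

/-! Task EN: the explicit formula in the longer range, and numbers. -/

namespace Pool.Agent.SW

open Complex MeasureTheory
open Pool.Agent.SK
open Pool.Agent.SO (prim NN)

/-- EN1. The explicit formula for `|t| ≤ (log r)²`, `W = (log r)^(1/4)`. PROOF. As `EFp_holds` in SK/EFb.lean with `ε = 1` (copy it), but with `A := L²`: the last step is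
`W²/2 + |t| - W² L²/16 ≤ -L` for `|t| ≤ L²`, as `W² = L^(1/2) ≥ 64` for large `L` (`L ≥ 4096`): `W² L²/16 - W²/2 ≥ W² L²/32 ≥ 2 L² ≥ L² + L`. -/
theorem EFp_holds2 (T₁ : ℝ) (hT₁ : 0 < T₁) :
    ∃ C₀ : ℝ, 0 < C₀ ∧ ∃ r₀ : ℕ, 3 ≤ r₀ ∧ ∀ (r : ℕ) [NeZero r], r₀ ≤ r →
      ∀ χ ∈ prim r, ∃ T : ℝ, Real.log r ≤ T ∧ T ≤ Real.log r + 1 ∧
        EFp χ T (Real.log r ^ (1 / 2 - 1 / 4 : ℝ)) C₀ (Real.log r ^ 2) T₁ := by
  obtain ⟨C, hC, hEF⟩ := EF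
  refine ⟨(C * (1 + T₁) + 1) * (2 * T₁), by positivity, ?_⟩
  -- the threshold
  set X : ℝ := max (2 * T₁) (max (96 * C) 4096) with hX
  obtain ⟨r₀, hr₀⟩ := exists_nat_gt (Real.exp X)
  refine ⟨max r₀ 3, le_max_right _ _, ?_⟩
  intro r _ hr χ hχ
  have hr3 : 3 ≤ r := (le_max_right _ _).trans hr
  have hr0 : (0 : ℝ) < r := by
    have : 0 < r := by omega
    exact_mod_cast this
  have hLX : X ≤ Real.log r := by
    rw [Real.le_log_iff_exp_le hr0]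
    have h1 : (r₀ : ℝ) ≤ r := by exact_mod_cast (le_max_left _ _).trans hr
    linarith
  set L : ℝ := Real.log r with hL
  have hL1 : 2 * T₁ ≤ L := (le_max_left _ _).trans hLX
  have hL2 : 96 * C ≤ L := ((le_max_left _ _).trans (le_max_right _ _)).trans hLX
  have hL3 : 4096 ≤ L := ((le_max_right _ _).trans (le_max_right _ _)).trans hLX
  have hL0 : 0 < L := by linarith
  obtain ⟨T, hT0, hT1, hT⟩ := hEF r hr3 χ hχ L (by linarith)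
  refine ⟨T, hT0, hT1, ?_⟩
  set W : ℝ := L ^ (1 / 2 - 1 / 4 : ℝ) with hW
  have hW1 : 1 ≤ W := Real.one_le_rpow (by linarith) (by norm_num)
  have hWL : W ≤ L := by
    calc W ≤ L ^ (1 : ℝ) := Real.rpow_le_rpow_of_exponent_le (by linarith) (by norm_num)
      _ = L := Real.rpow_one L
  refine EFp_of χ T W (C * (1 + T₁) + 1) _ T₁ (by linarith) hT₁ (by positivity) ?_
  intro x t hx ht
  refine (hT W x t hW1 (by linarith)).trans ?_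
  have h1 : C * (1 + |x|) ≤ C * (1 + T₁) := by gcongr
  suffices h2 : C * W * (L + L) ^ 2 * Real.exp (W ^ 2 / 2 + |t| - W ^ 2 * L ^ 2 / 16) ≤ 1 by linarith
  have hW64 : 64 ≤ W ^ 2 := by
    have e1 : W ^ 2 = L ^ (1 / 2 : ℝ) := by
      rw [hW, ← Real.rpow_natCast, ← Real.rpow_mul hL0.le]
      norm_num
    rw [e1, ← Real.sqrt_eq_rpow]
    rw [show (64 : ℝ) = Real.sqrt 4096 by
      rw [show (4096 : ℝ) = 64 ^ 2 by norm_num]
      exact (Real.sqrt_sq (by norm_num)).symm]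
    exact Real.sqrt_le_sqrt hL3
  have h3 : W ^ 2 / 2 + |t| - W ^ 2 * L ^ 2 / 16 ≤ -L := by
    have hLL : 4096 * L ≤ L ^ 2 := by nlinarith
    have h5 : 0 ≤ (W ^ 2 - 64) * (L ^ 2 / 16 - 1 / 2) := by
      refine mul_nonneg (by linarith) ?_
      linarith
    nlinarith
  have h4 : L ^ 4 / 24 ≤ Real.exp L := by
    have := Real.pow_div_factorial_le_exp L hL0.le 4
    have h5 : (Nat.factorial 4 : ℝ) = 24 := by norm_num [Nat.factorial]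
    rwa [h5] at this
  have hexp : Real.exp L * Real.exp (-L) = 1 := by
    rw [← Real.exp_add, add_neg_cancel, Real.exp_zero]
  calc C * W * (L + L) ^ 2 * Real.exp (W ^ 2 / 2 + |t| - W ^ 2 * L ^ 2 / 16)
      ≤ C * L * (L + L) ^ 2 * Real.exp (-L) := by gcongr
    _ = (96 * C) * (L ^ 3 / 24) * Real.exp (-L) := by ring
    _ ≤ L * (L ^ 3 / 24) * Real.exp (-L) := by gcongr
    _ = (L ^ 4 / 24) * Real.exp (-L) := by ring
    _ ≤ Real.exp L * Real.exp (-L) := by gcongr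
    _ = 1 := hexp

/-- EN2. PROOF. All but the third item are in `chain_numeric 1 D C η κ` (SK/C6A.lean). The third: `W² = L^(1/2)`, `D log L/L L^(3/2-β) = D log L L^(1/2-β) ≤ (η²/4) L^(1/2)` for large `L`, and
`C L³ exp(-(η²/4) L^(1/2)) ≤ κ` for large `L`; see the proof of `chain_numeric`. -/
theorem chain_numeric2 (β D C η κ : ℝ) (hβ : 0 < β) (hβ1 : β ≤ 1 / 2) (hD : 0 < D) (hC : 0 < C) (hη : 0 < η)
    (hκ : 0 < κ) : ∃ L₀ : ℝ, 1 ≤ L₀ ∧ ∀ L : ℝ, L₀ ≤ L →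
      1 ≤ L ^ (1 / 2 - 1 / 4 : ℝ) ∧
      (L ^ (1 / 2 - 1 / 4 : ℝ)) ^ 2 * (D * Real.log L / L) ≤ 1 ∧
      L * (C * L ^ 2) * Real.exp (-((L ^ (1 / 2 - 1 / 4 : ℝ)) ^ 2 * η ^ 2 / 2) +
        D * Real.log L / L * L ^ (3 / 2 - β)) ≤ κ ∧
      C * L ^ 2 * Real.exp (-((L ^ (1 / 2 - 1 / 4 : ℝ)) ^ 2 / 2)) ≤ κ ∧
      L ^ 4 * Real.exp (-(L / (L ^ (1 / 2 - 1 / 4 : ℝ)) ^ 2)) ≤ κ := by
  obtain ⟨L₁, hL₁, hnum⟩ := chain_numeric 1 D C η κ one_pos le_rfl hD hC hη hκ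
  have hlog : ∀ᶠ L : ℝ in Filter.atTop, D * (Real.log L * L ^ (-β)) ≤ η ^ 2 / 4 := by
    have h := (isLittleO_log_rpow_atTop hβ).tendsto_div_nhds_zero
    have h2 : Filter.Tendsto (fun L : ℝ => D * (Real.log L / L ^ β)) Filter.atTop (nhds (D * 0)) :=
      h.const_mul D
    rw [mul_zero] at h2
    have h4 : (0 : ℝ) < η ^ 2 / 4 := by positivity
    filter_upwards [h2.eventually (gt_mem_nhds h4), Filter.eventually_gt_atTop (0 : ℝ)] with L hL hL0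
    rw [Real.rpow_neg hL0.le, ← div_eq_mul_inv]
    exact hL.le
  have e3 : ∀ᶠ L : ℝ in Filter.atTop, C * (L ^ (3 : ℝ) * Real.exp (-(η ^ 2 / 4 * L ^ (1 / 2 : ℝ)))) < κ := by
    have h := (C6A_decay 3 (η ^ 2 / 4) (1 / 2) (by positivity) (by norm_num)).const_mul C
    rw [mul_zero] at h
    exact h.eventually (gt_mem_nhds hκ)
  obtain ⟨L₀, hL₀⟩ := Filter.eventually_atTop.1 (hlog.and e3)
  refine ⟨max L₀ L₁, hL₁.trans (le_max_right _ _), ?_⟩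
  intro L hL
  obtain ⟨b1, b2, b3, b4, b5⟩ := hnum L (le_trans (le_max_right _ _) hL)
  obtain ⟨a2, a3⟩ := hL₀ L (le_trans (le_max_left _ _) hL)
  have hL1 : 1 ≤ L := le_trans (hL₁.trans (le_max_right _ _)) hL
  have hLp : 0 < L := by linarith
  refine ⟨b1, b2, ?_, b4, b5⟩
  have hW : (L ^ (1 / 2 - 1 / 4 : ℝ)) ^ 2 = L ^ (1 / 2 : ℝ) := by
    rw [← Real.rpow_natCast, ← Real.rpow_mul hLp.le]
    norm_num
  have hW0 : 0 ≤ L ^ (1 / 2 : ℝ) := (Real.rpow_pos_of_pos hLp _).le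
  rw [hW]
  have h1 : D * Real.log L / L * L ^ (3 / 2 - β) = D * (Real.log L * L ^ (-β)) * L ^ (1 / 2 : ℝ) := by
    have h2 : L ^ (3 / 2 - β) = L * (L ^ (-β) * L ^ (1 / 2 : ℝ)) := by
      rw [← Real.rpow_add hLp]
      nth_rewrite 2 [← Real.rpow_one L]
      rw [← Real.rpow_add hLp]
      congr 1
      ring
    rw [h2]
    field_simp
  have h3 : D * Real.log L / L * L ^ (3 / 2 - β) ≤ η ^ 2 / 4 * L ^ (1 / 2 : ℝ) := by
    rw [h1]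
    exact mul_le_mul_of_nonneg_right a2 hW0
  have h4 : -(L ^ (1 / 2 : ℝ) * η ^ 2 / 2) + D * Real.log L / L * L ^ (3 / 2 - β) ≤
      -(η ^ 2 / 4 * L ^ (1 / 2 : ℝ)) := by
    linarith
  have h6 : L ^ (3 : ℝ) = L ^ 3 := by
    rw [← Real.rpow_natCast]; norm_num
  calc L * (C * L ^ 2) * Real.exp (-(L ^ (1 / 2 : ℝ) * η ^ 2 / 2) + D * Real.log L / L * L ^ (3 / 2 - β))
      ≤ L * (C * L ^ 2) * Real.exp (-(η ^ 2 / 4 * L ^ (1 / 2 : ℝ))) :=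
        mul_le_mul_of_nonneg_left (Real.exp_le_exp.2 h4) (by positivity)
    _ = C * (L ^ (3 : ℝ) * Real.exp (-(η ^ 2 / 4 * L ^ (1 / 2 : ℝ)))) := by rw [h6]; ring
    _ ≤ κ := a3.le

/-- EN3. PROOF. `2 L^(1/4) √Y ≤ 2 L^(1/4) L^(3/4 - β/2) = 2 L^(1-β/2) ≤ δ L` for `L^(β/2) ≥ 2/δ`. -/
theorem choose_R (β δ : ℝ) (hβ : 0 < β) (hβ1 : β ≤ 1 / 2) (hδ : 0 < δ) : ∃ L₀ : ℝ, 1 ≤ L₀ ∧
    ∀ L Y : ℝ, L₀ ≤ L → 0 ≤ Y → Y ≤ L ^ (3 / 2 - β) → 2 * L ^ (1 / 2 - 1 / 4 : ℝ) * Real.sqrt Y ≤ δ * L := by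
  have e : ∀ᶠ L : ℝ in Filter.atTop, 2 / δ ≤ L ^ (β / 2) :=
    (tendsto_rpow_atTop (by positivity : (0 : ℝ) < β / 2)).eventually_ge_atTop _
  obtain ⟨L₀, hL₀⟩ := Filter.eventually_atTop.1 e
  refine ⟨max L₀ 1, le_max_right _ _, ?_⟩
  intro L Y hL hY0 hY
  have hL1 : 1 ≤ L := le_trans (le_max_right _ _) hL
  have hLp : 0 < L := by linarith
  have h1 := hL₀ L (le_trans (le_max_left _ _) hL)
  have h2 : Real.sqrt Y ≤ L ^ (3 / 4 - β / 2) := by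
    refine (Real.sqrt_le_sqrt hY).trans (le_of_eq ?_)
    rw [Real.sqrt_eq_rpow, ← Real.rpow_mul hLp.le]
    congr 1
    ring
  have h3 : L ^ (1 / 2 - 1 / 4 : ℝ) * L ^ (3 / 4 - β / 2) * L ^ (β / 2) = L := by
    rw [← Real.rpow_add hLp, ← Real.rpow_add hLp]
    nth_rewrite 2 [← Real.rpow_one L]
    congr 1
    ring
  have h4 : (2 : ℝ) ≤ δ * L ^ (β / 2) := by
    rw [div_le_iff₀ hδ] at h1
    linarith
  have h5 : 0 ≤ L ^ (1 / 2 - 1 / 4 : ℝ) := (Real.rpow_pos_of_pos hLp _).le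
  have h6 : 0 ≤ L ^ (1 / 2 - 1 / 4 : ℝ) * L ^ (3 / 4 - β / 2) :=
    mul_nonneg h5 (Real.rpow_pos_of_pos hLp _).le
  calc 2 * L ^ (1 / 2 - 1 / 4 : ℝ) * Real.sqrt Y
      ≤ 2 * L ^ (1 / 2 - 1 / 4 : ℝ) * L ^ (3 / 4 - β / 2) :=
        mul_le_mul_of_nonneg_left h2 (by positivity)
    _ = L ^ (1 / 2 - 1 / 4 : ℝ) * L ^ (3 / 4 - β / 2) * 2 := by ring
    _ ≤ L ^ (1 / 2 - 1 / 4 : ℝ) * L ^ (3 / 4 - β / 2) * (δ * L ^ (β / 2)) :=
        mul_le_mul_of_nonneg_left h4 h6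
    _ = δ * (L ^ (1 / 2 - 1 / 4 : ℝ) * L ^ (3 / 4 - β / 2) * L ^ (β / 2)) := by ring
    _ = δ * L := by rw [h3]

end Pool.Agent.SW
end

section

set_option autoImplicit false

/-! Task F3: the transform `hb = hh * shc`. As SE/A5.lean (COPY). -/

namespace Pool.Agent.SF

open Complex MeasureTheory
open Pool.Agent.SK Pool.Agent.SD Pool.Agent.SE
open Pool.Agent.SO (prim NN pt pz MM kw)

/-- F3a. PROOF. `hh_diff`, `shc_diff`. -/
theorem hb_diff (r : ℕ) [NeZero r] (hr : 2 ≤ r) (χ : DirichletCharacter ℂ r) (hχ : χ ∈ prim r) (m : ℕ) (B U γ : ℝ) :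
    Differentiable ℂ (hb χ m B U γ) := by
  have h1 : Differentiable ℂ (fun z : ℂ => shc ((B : ℂ) * (z - (γ : ℂ) * I))) :=
    shc_diff.comp ((differentiable_const (B : ℂ)).mul
      (differentiable_id.sub (differentiable_const ((γ : ℂ) * I))))
  exact (hh_diff r hr χ hχ m U γ).mul h1

theorem F3_shc (B γ X : ℝ) (z : ℂ) (hz : |z.re| ≤ X) :
    ‖shc ((B : ℂ) * (z - (γ : ℂ) * I))‖ ≤ Real.exp (|B| * X) := by
  refine (shc_le _).trans (Real.exp_le_exp.2 ?_)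
  have h1 : ((B : ℂ) * (z - (γ : ℂ) * I)).re = B * z.re := by simp
  rw [h1, abs_mul]
  exact mul_le_mul_of_nonneg_left hz (abs_nonneg _)

/-- F3b. PROOF. `hh_strip` and `‖shc (B (z - iγ))‖ ≤ exp(|B| |z.re|) ≤ exp(|B| (|a| + |c|))` (`shc_le`). -/
theorem hb_strip (r : ℕ) [NeZero r] (hr : 2 ≤ r) (χ : DirichletCharacter ℂ r) (hχ : χ ∈ prim r) (m : ℕ) (B U γ : ℝ)
    (hσ : 0 < sg r U) (hv : 0 ≤ vl r m U) (h0 : χ.LFunction (1 / 2 + (γ : ℂ) * I) = 0) (a c : ℝ) :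
    ∃ K η : ℝ, 0 ≤ K ∧ 0 < η ∧ ∀ z : ℂ, a ≤ z.re → z.re ≤ c → ‖hb χ m B U γ z‖ ≤ K * Real.exp (-(η * z.im ^ 2)) := by
  obtain ⟨K, η, hK, hη, h1⟩ := hh_strip r hr χ hχ m U γ hσ hv h0 a c
  refine ⟨K * Real.exp (|B| * max |a| |c|), η, mul_nonneg hK (Real.exp_pos _).le, hη, ?_⟩
  intro z hz1 hz2
  have h2 := F3_shc B γ (max |a| |c|) z (abs_le_max_abs_abs hz1 hz2)
  unfold hb
  rw [norm_mul]
  calc ‖hh χ m U γ z‖ * ‖shc ((B : ℂ) * (z - (γ : ℂ) * I))‖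
      ≤ K * Real.exp (-(η * z.im ^ 2)) * Real.exp (|B| * max |a| |c|) :=
        mul_le_mul (h1 z hz1 hz2) h2 (norm_nonneg _) (mul_nonneg hK (Real.exp_pos _).le)
    _ = _ := by ring

theorem F3_shift (r : ℕ) [NeZero r] (hr : 2 ≤ r) (χ : DirichletCharacter ℂ r) (hχ : χ ∈ prim r) (m : ℕ) (B U γ : ℝ)
    (hσ : 0 < sg r U) (hv : 0 ≤ vl r m U) (h0 : χ.LFunction (1 / 2 + (γ : ℂ) * I) = 0) (a c v : ℝ) (hac : a ≤ c) :
    ∫ t : ℝ, hb χ m B U γ ((a : ℂ) + (t : ℂ) * I) * Complex.exp (((a : ℂ) + (t : ℂ) * I) * v) =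
      ∫ t : ℝ, hb χ m B U γ ((c : ℂ) + (t : ℂ) * I) * Complex.exp (((c : ℂ) + (t : ℂ) * I) * v) := by
  obtain ⟨K, η, hK, hη, hb'⟩ := hb_strip r hr χ hχ m B U γ hσ hv h0 a c
  have hd : Differentiable ℂ (fun z : ℂ => hb χ m B U γ z * Complex.exp (z * v)) :=
    (hb_diff r hr χ hχ m B U γ).mul ((differentiable_id.mul (differentiable_const (v : ℂ))).cexp)
  have hbb : ∀ s : ℂ, a ≤ s.re → s.re ≤ c → ‖hb χ m B U γ s * Complex.exp (s * v)‖ ≤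
      K * Real.exp (|v| * max |a| |c|) * Real.exp (-(η * s.im ^ 2)) := by
    intro s hs1 hs2
    rw [norm_mul]
    have h1 := hb' s hs1 hs2
    have h2 := A5_exp s v (max |a| |c|) (abs_le_max_abs_abs hs1 hs2)
    calc ‖hb χ m B U γ s‖ * ‖Complex.exp (s * v)‖
        ≤ K * Real.exp (-(η * s.im ^ 2)) * Real.exp (|v| * max |a| |c|) :=
          mul_le_mul h1 h2 (norm_nonneg _) (mul_nonneg hK (Real.exp_pos _).le)
      _ = _ := by ring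
  exact (shift_gauss (fun z : ℂ => hb χ m B U γ z * Complex.exp (z * v)) a c
    (K * Real.exp (|v| * max |a| |c|)) η hac hη (fun s _ _ => hd s) hbb).2.2

/-- F3c. As `hk_line`. -/
theorem hkb_line (r : ℕ) [NeZero r] (hr : 2 ≤ r) (χ : DirichletCharacter ℂ r) (hχ : χ ∈ prim r) (m : ℕ) (B U γ : ℝ)
    (hσ : 0 < sg r U) (hv : 0 ≤ vl r m U) (h0 : χ.LFunction (1 / 2 + (γ : ℂ) * I) = 0) (c v : ℝ) :
    hkb χ m B U γ v = (1 / (2 * Real.pi) : ℂ) *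
      ∫ t : ℝ, hb χ m B U γ ((c : ℂ) + (t : ℂ) * I) * Complex.exp (((c : ℂ) + (t : ℂ) * I) * v) := by
  have h1 : hkb χ m B U γ v = (1 / (2 * Real.pi) : ℂ) *
      ∫ t : ℝ, hb χ m B U γ (((0 : ℝ) : ℂ) + (t : ℂ) * I) * Complex.exp ((((0 : ℝ) : ℂ) + (t : ℂ) * I) * v) := by
    unfold hkb
    congr 1
    refine integral_congr_ae (Filter.Eventually.of_forall fun t => ?_)
    have h2 : ((0 : ℝ) : ℂ) + (t : ℂ) * I = (t : ℂ) * I := by
      rw [Complex.ofReal_zero, zero_add]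
    have h3 : (t : ℂ) * I * (v : ℂ) = (t : ℂ) * v * I := by ring
    show hb χ m B U γ ((t : ℂ) * I) * Complex.exp ((t : ℂ) * v * I) =
      hb χ m B U γ (((0 : ℝ) : ℂ) + (t : ℂ) * I) * Complex.exp ((((0 : ℝ) : ℂ) + (t : ℂ) * I) * v)
    rw [h2, h3]
  rw [h1]
  congr 1
  rcases le_total 0 c with h | h
  · exact F3_shift r hr χ hχ m B U γ hσ hv h0 0 c v h
  · exact (F3_shift r hr χ hχ m B U γ hσ hv h0 c 0 v h).symm

end Pool.Agent.SF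
end

section

set_option autoImplicit false

/-! Task F4: the test function is tiny outside the window. -/

namespace Pool.Agent.SF

open Complex MeasureTheory
open Pool.Agent.SK Pool.Agent.SD Pool.Agent.SE
open Pool.Agent.SO (prim NN pt pz MM kw)

/-- the size of `L` on the two lines -/
private theorem F4_L {C₁ C : ℝ} (hC1 : 1 ≤ C₁) (hCC : C₁ ≤ C) (hC100 : 100 ≤ C)
    (hL : ∀ (r : ℕ) [NeZero r], 2 ≤ r → ∀ χ ∈ prim r, ∀ s : ℂ, s.re ≤ 1 / 2 →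
      ‖χ.LFunction s‖ ≤ (C₁ * r * (3 / 2 - s.re)) ^ (9 / 2 - s.re) * Real.exp (3 * |s.im|))
    (r : ℕ) [NeZero r] (hr : 2 ≤ r) (χ : DirichletCharacter ℂ r) (hχ : χ ∈ prim r)
    {x c : ℝ} (hx : 1 ≤ x) (hc : c = x ∨ c = -x) (t : ℝ) :
    ‖χ.LFunction (1 / 2 + ((c : ℂ) + (t : ℂ) * I))‖ ≤
      (C * r * (x + 1)) ^ (x + 4) * Real.exp (3 * |t|) := by
  have hr1 : (2 : ℝ) ≤ r := by exact_mod_cast hr
  have hre : (1 / 2 + ((c : ℂ) + (t : ℂ) * I)).re = 1 / 2 + c := by simp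
  have him : (1 / 2 + ((c : ℂ) + (t : ℂ) * I)).im = t := by simp
  have hbase : 1 ≤ C * r * (x + 1) := by
    have h1 : 1 ≤ C * r := by nlinarith
    nlinarith
  rcases hc with hc | hc
  · -- the right line
    have h1 := EM.L_growth r χ (prim_spec r hr χ hχ).2 (1 / 2 + ((c : ℂ) + (t : ℂ) * I))
      (by rw [hre, hc]; linarith)
    refine h1.trans ?_
    have h2 : ‖(1 / 2 + ((c : ℂ) + (t : ℂ) * I))‖ ≤ (x + 1) * Real.exp (3 * |t|) := by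
      have h3 := Complex.norm_le_abs_re_add_abs_im (1 / 2 + ((c : ℂ) + (t : ℂ) * I))
      have h6 : |1 / 2 + c| = 1 / 2 + x := by rw [hc]; exact abs_of_pos (by linarith)
      rw [hre, him, h6] at h3
      have h4 : 3 * |t| + 1 ≤ Real.exp (3 * |t|) := Real.add_one_le_exp _
      have h5 : 0 ≤ |t| := abs_nonneg t
      nlinarith [mul_nonneg (by linarith : (0 : ℝ) ≤ x) h5]
    have h3 : 20 * (2 * (r : ℝ) + 1) ≤ C * r := by nlinarith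
    calc 20 * (2 * (r : ℝ) + 1) * ‖(1 / 2 + ((c : ℂ) + (t : ℂ) * I))‖
        ≤ (C * r) * ((x + 1) * Real.exp (3 * |t|)) :=
          mul_le_mul h3 h2 (norm_nonneg _) (by positivity)
      _ = (C * r * (x + 1)) ^ (1 : ℝ) * Real.exp (3 * |t|) := by rw [Real.rpow_one]; ring
      _ ≤ (C * r * (x + 1)) ^ (x + 4) * Real.exp (3 * |t|) := by
          refine mul_le_mul_of_nonneg_right ?_ (Real.exp_pos _).le
          exact Real.rpow_le_rpow_of_exponent_le hbase (by linarith)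
  · -- the left line
    have h1 := hL r hr χ hχ (1 / 2 + ((c : ℂ) + (t : ℂ) * I)) (by rw [hre, hc]; linarith)
    rw [hre, him] at h1
    have e1 : (3 / 2 - (1 / 2 + c) : ℝ) = x + 1 := by rw [hc]; ring
    have e2 : (9 / 2 - (1 / 2 + c) : ℝ) = x + 4 := by rw [hc]; ring
    rw [e1, e2] at h1
    refine h1.trans ?_
    refine mul_le_mul_of_nonneg_right ?_ (Real.exp_pos _).le
    refine Real.rpow_le_rpow (by positivity) ?_ (by linarith)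
    refine mul_le_mul_of_nonneg_right ?_ (by linarith)
    exact mul_le_mul_of_nonneg_right hCC (by linarith)

/-- F4. PROOF. As `hk_bound` in SE/A6.lean (COPY), with the additional factor `‖shc (B (∓x + i(t-γ)))‖ ≤ exp(B x)` (`shc_le`), `x = 16U/V`. -/
theorem hkb_bound (T : ℝ) (hT : 0 ≤ T) (m : ℕ) (hm : 1 ≤ m) : ∃ r₀ : ℕ, 3 ≤ r₀ ∧ ∀ (r : ℕ) [NeZero r], r₀ ≤ r →
    ∀ χ ∈ prim r, ∀ γ : ℝ, |γ| ≤ T → χ.LFunction (1 / 2 + (γ : ℂ) * I) = 0 → ∀ U : ℝ, 4000 * Real.log r ≤ U → ∀ B : ℝ, 0 ≤ B → ∀ v : ℝ,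
    ‖hkb χ m B U γ v‖ ≤ Real.exp (17 / 2 * U + 16 * U / VV r U * (B - |v|)) := by
  obtain ⟨C₁, hC1, hL⟩ := L_left
  obtain ⟨C, hC⟩ : ∃ C : ℝ, C = max C₁ 100 := ⟨_, rfl⟩
  have hCC : C₁ ≤ C := hC ▸ le_max_left _ _
  have hC100 : 100 ≤ C := hC ▸ le_max_right _ _
  obtain ⟨r₀, hr₀, hreg⟩ := regime C T (by linarith) hT m hm
  refine ⟨r₀, hr₀, ?_⟩
  intro r _ hr χ hχ γ hγ h0 U hU B hB v
  obtain ⟨hV, hVU, ⟨e1, e2, hσ, hw⟩, h4, -, -, -, hU1⟩ := hreg r hr U hU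
  have hr2 : 2 ≤ r := by omega
  obtain ⟨x, hx⟩ : ∃ x : ℝ, x = 16 * U / VV r U := ⟨_, rfl⟩
  obtain ⟨σ, hσe⟩ : ∃ σ : ℝ, σ = sg r U := ⟨_, rfl⟩
  obtain ⟨w, hwe⟩ : ∃ w : ℝ, w = vl r m U := ⟨_, rfl⟩
  rw [← hx] at e1 e2 h4 ⊢
  rw [← hσe] at e1 hσ h4
  rw [← hwe] at e2 hw
  have hx1 : 1 ≤ x := by
    rw [hx, le_div_iff₀ (by linarith)]
    linarith
  obtain ⟨c, hc, hcv⟩ : ∃ c : ℝ, (c = x ∨ c = -x) ∧ c * v = -(x * |v|) := by
    rcases le_total 0 v with h | h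
    · exact ⟨-x, Or.inr rfl, by rw [abs_of_nonneg h]; ring⟩
    · exact ⟨x, Or.inl rfl, by rw [abs_of_nonpos h]; ring⟩
  have hcabs : |c| = x := by
    rcases hc with h | h
    · rw [h, abs_of_nonneg (by linarith)]
    · rw [h, abs_neg, abs_of_nonneg (by linarith)]
  have hc2 : c ^ 2 = x ^ 2 := by rw [← sq_abs, hcabs]
  obtain ⟨D, hD⟩ : ∃ D : ℝ, D = (C * r * (x + 1)) ^ (x + 4) * Real.exp (8 * U + 16 * U / 100) :=
    ⟨_, rfl⟩
  have hr2' : (2 : ℝ) ≤ r := by exact_mod_cast hr2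
  have hb0 : 0 ≤ C * r * (x + 1) := by positivity
  have hD0 : 0 ≤ D := by
    rw [hD]
    exact mul_nonneg (Real.rpow_nonneg hb0 _) (Real.exp_pos _).le
  obtain ⟨E, hE⟩ : ∃ E : ℝ, E = Real.exp (B * x) := ⟨_, rfl⟩
  have hE0 : 0 < E := hE ▸ Real.exp_pos _
  have hpt0 : ∀ t : ℝ, ‖hh χ m U γ ((c : ℂ) + (t : ℂ) * I)‖ ≤
      D * (Real.exp (3 * |t|) * Real.exp (-(σ ^ 2 / 2 * (t - γ) ^ 2))) := by
    intro t
    have hne : (c : ℂ) + (t : ℂ) * I ≠ (γ : ℂ) * I := by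
      intro h
      have h1 := congrArg Complex.re h
      simp at h1
      rw [h1, abs_zero] at hcabs
      linarith
    rw [hh_of_ne r χ m U γ h0 _ hne, norm_mul, norm_div, ← hσe, ← hwe]
    have h1 := F4_L hC1 hCC hC100 hL r hr2 χ hχ hx1 hc t
    have hre : ((c : ℂ) + (t : ℂ) * I - (γ : ℂ) * I).re = c := by simp
    have him : ((c : ℂ) + (t : ℂ) * I - (γ : ℂ) * I).im = t - γ := by simp
    have h2 : 1 ≤ ‖(c : ℂ) + (t : ℂ) * I - (γ : ℂ) * I‖ := by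
      have h3 := Complex.abs_re_le_norm ((c : ℂ) + (t : ℂ) * I - (γ : ℂ) * I)
      rw [hre, hcabs] at h3
      linarith
    have h3 := Ek_le σ w hw.le m ((c : ℂ) + (t : ℂ) * I - (γ : ℂ) * I)
    rw [hre, him, hcabs, hc2] at h3
    have e3 : σ ^ 2 / 2 * (x ^ 2 - (t - γ) ^ 2) + m * w * x =
        (8 * U + 16 * U / 100) + -(σ ^ 2 / 2 * (t - γ) ^ 2) := by
      have : σ ^ 2 / 2 * (x ^ 2 - (t - γ) ^ 2) = σ ^ 2 / 2 * x ^ 2 - σ ^ 2 / 2 * (t - γ) ^ 2 := by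
        ring
      rw [this, e1, e2]
      ring
    rw [e3, Real.exp_add] at h3
    have h5 : ‖χ.LFunction (1 / 2 + ((c : ℂ) + (t : ℂ) * I))‖ /
        ‖(c : ℂ) + (t : ℂ) * I - (γ : ℂ) * I‖ ≤ (C * r * (x + 1)) ^ (x + 4) *
          Real.exp (3 * |t|) :=
      (div_le_self (norm_nonneg _) h2).trans h1
    calc _ ≤ ((C * r * (x + 1)) ^ (x + 4) * Real.exp (3 * |t|)) *
          (Real.exp (8 * U + 16 * U / 100) * Real.exp (-(σ ^ 2 / 2 * (t - γ) ^ 2))) :=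
          mul_le_mul h5 h3 (norm_nonneg _)
            (mul_nonneg (Real.rpow_nonneg hb0 _) (Real.exp_pos _).le)
      _ = _ := by rw [hD]; ring
  have hpt : ∀ t : ℝ, ‖hb χ m B U γ ((c : ℂ) + (t : ℂ) * I)‖ ≤
      (D * E) * (Real.exp (3 * |t|) * Real.exp (-(σ ^ 2 / 2 * (t - γ) ^ 2))) := by
    intro t
    have h1 := hpt0 t
    have h2 : ‖shc ((B : ℂ) * ((c : ℂ) + (t : ℂ) * I - (γ : ℂ) * I))‖ ≤ E := by
      refine (shc_le _).trans (le_of_eq ?_)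
      have h3 : ((B : ℂ) * ((c : ℂ) + (t : ℂ) * I - (γ : ℂ) * I)).re = B * c := by simp
      rw [h3, abs_mul, hcabs, abs_of_nonneg hB, hE]
    unfold hb
    rw [norm_mul]
    calc _ ≤ (D * (Real.exp (3 * |t|) * Real.exp (-(σ ^ 2 / 2 * (t - γ) ^ 2)))) * E :=
          mul_le_mul h1 h2 (norm_nonneg _) (mul_nonneg hD0 (by positivity))
      _ = _ := by ring
  obtain ⟨hgi, hgl⟩ := gauss_int σ γ hσ
  rw [hkb_line r hr2 χ hχ m B U γ (hσe ▸ hσ) (hwe ▸ hw.le) h0 c v, norm_mul]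
  have h6 : ‖∫ t : ℝ, hb χ m B U γ ((c : ℂ) + (t : ℂ) * I) *
      Complex.exp (((c : ℂ) + (t : ℂ) * I) * v)‖ ≤
      ∫ t : ℝ, ((D * E) * Real.exp (c * v)) *
        (Real.exp (3 * |t|) * Real.exp (-(σ ^ 2 / 2 * (t - γ) ^ 2))) := by
    refine norm_integral_le_of_norm_le (hgi.const_mul _) (Filter.Eventually.of_forall fun t => ?_)
    rw [norm_mul, Complex.norm_exp]
    have h7 : (((c : ℂ) + (t : ℂ) * I) * v).re = c * v := by simp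
    rw [h7]
    calc _ ≤ (D * E) * (Real.exp (3 * |t|) * Real.exp (-(σ ^ 2 / 2 * (t - γ) ^ 2))) *
          Real.exp (c * v) := mul_le_mul_of_nonneg_right (hpt t) (Real.exp_pos _).le
      _ = _ := by ring
  rw [integral_const_mul] at h6
  have h8 : ‖(1 / (2 * Real.pi) : ℂ)‖ ≤ 1 := by
    have h9 : (1 / (2 * Real.pi) : ℂ) = ((1 / (2 * Real.pi) : ℝ) : ℂ) := by push_cast; ring
    rw [h9, Complex.norm_real, Real.norm_eq_abs, abs_of_pos (by positivity)]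
    rw [div_le_one (by positivity)]
    linarith [Real.pi_gt_three]
  have h10 : ∫ t : ℝ, Real.exp (3 * |t|) * Real.exp (-(σ ^ 2 / 2 * (t - γ) ^ 2)) ≤
      Real.exp (3 * T) * (2 * Real.exp (9 / (2 * σ ^ 2)) * (Real.sqrt (2 * Real.pi) / σ)) := by
    refine hgl.trans ?_
    refine mul_le_mul_of_nonneg_right ?_ (by positivity)
    exact Real.exp_le_exp.2 (by linarith)
  have h11 : D * (Real.exp (3 * T) * (2 * Real.exp (9 / (2 * σ ^ 2)) *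
      (Real.sqrt (2 * Real.pi) / σ))) ≤ Real.exp (17 / 2 * U) := by
    rw [hD]
    exact h4
  calc _ ≤ 1 * ((D * E) * Real.exp (c * v) *
        ∫ t : ℝ, Real.exp (3 * |t|) * Real.exp (-(σ ^ 2 / 2 * (t - γ) ^ 2))) :=
        mul_le_mul h8 h6 (norm_nonneg _) zero_le_one
    _ ≤ 1 * ((D * E) * Real.exp (c * v) *
        (Real.exp (3 * T) * (2 * Real.exp (9 / (2 * σ ^ 2)) * (Real.sqrt (2 * Real.pi) / σ)))) := by
        refine mul_le_mul_of_nonneg_left ?_ zero_le_one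
        exact mul_le_mul_of_nonneg_left h10
          (mul_nonneg (mul_nonneg hD0 hE0.le) (Real.exp_pos _).le)
    _ = (D * (Real.exp (3 * T) * (2 * Real.exp (9 / (2 * σ ^ 2)) *
        (Real.sqrt (2 * Real.pi) / σ)))) * (E * Real.exp (c * v)) := by ring
    _ ≤ Real.exp (17 / 2 * U) * (E * Real.exp (c * v)) :=
        mul_le_mul_of_nonneg_right h11 (mul_nonneg hE0.le (Real.exp_pos _).le)
    _ = Real.exp (17 / 2 * U + x * (B - |v|)) := by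
        rw [hE, ← Real.exp_add, ← Real.exp_add, hcv]
        congr 1
        ring

end Pool.Agent.SF
end
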