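import Mathlib

section

set_option autoImplicit false

/-! Task PC: the kernel of two blocks as a superposition of intervals. -/

namespace Pool.Agent.SW

open MeasureTheory

theorem PC_gen (F : ℝ → ENNReal) (hF : Measurable F) (w : ℝ) (S : Set (ℝ × ℝ))
    (hS : MeasurableSet S) :
    ∫⁻ y in Set.Ioc 0 w, ∫⁻ t in {t | (y, t) ∈ S}, F t =
      ∫⁻ t, volume ({y | (y, t) ∈ S} ∩ Set.Ioc 0 w) * F t := by
  have hmeas : Measurable (Function.uncurry fun (y t : ℝ) =>
      S.indicator (fun q : ℝ × ℝ => F q.2) (y, t)) := by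
    have h0 : Measurable (S.indicator (fun q : ℝ × ℝ => F q.2)) :=
      (hF.comp measurable_snd).indicator hS
    exact h0
  have h1 : ∀ y : ℝ, ∫⁻ t in {t | (y, t) ∈ S}, F t =
      ∫⁻ t, S.indicator (fun q : ℝ × ℝ => F q.2) (y, t) := by
    intro y
    have e1 : (fun t => S.indicator (fun q : ℝ × ℝ => F q.2) (y, t)) =
        ({t | (y, t) ∈ S} : Set ℝ).indicator F := by
      funext t
      by_cases h : (y, t) ∈ S
      · rw [Set.indicator_of_mem h, Set.indicator_of_mem (by exact h)]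
      · rw [Set.indicator_of_notMem h, Set.indicator_of_notMem (by exact h)]
    have hm : MeasurableSet {t | (y, t) ∈ S} := measurable_prodMk_left hS
    rw [e1]
    exact (lintegral_indicator hm F).symm
  have h2 : ∀ t : ℝ, ∫⁻ y in Set.Ioc 0 w, S.indicator (fun q : ℝ × ℝ => F q.2) (y, t) =
      volume ({y | (y, t) ∈ S} ∩ Set.Ioc 0 w) * F t := by
    intro t
    have e1 : (fun y => S.indicator (fun q : ℝ × ℝ => F q.2) (y, t)) =
        ({y | (y, t) ∈ S} : Set ℝ).indicator (fun _ => F t) := by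
      funext y
      by_cases h : (y, t) ∈ S
      · rw [Set.indicator_of_mem h, Set.indicator_of_mem (by exact h)]
      · rw [Set.indicator_of_notMem h, Set.indicator_of_notMem (by exact h)]
    have hm : MeasurableSet {y | (y, t) ∈ S} := measurable_prodMk_right hS
    rw [e1, lintegral_indicator hm, Measure.restrict_restrict hm, lintegral_const,
      Measure.restrict_apply_univ, mul_comm]
  calc ∫⁻ y in Set.Ioc 0 w, ∫⁻ t in {t | (y, t) ∈ S}, F t
      = ∫⁻ y in Set.Ioc 0 w, ∫⁻ t, S.indicator (fun q : ℝ × ℝ => F q.2) (y, t) :=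
        lintegral_congr fun y => h1 y
    _ = ∫⁻ t, ∫⁻ y in Set.Ioc 0 w, S.indicator (fun q : ℝ × ℝ => F q.2) (y, t) :=
        lintegral_lintegral_swap hmeas.aemeasurable
    _ = _ := lintegral_congr fun t => h2 t

theorem PC_le (F : ℝ → ENNReal) (hF : Measurable F) (w u : ℝ) (k : ℝ → ℝ) (S : Set (ℝ × ℝ))
    (hS : MeasurableSet S)
    (h0 : ∀ t y, (y, t) ∈ S → y ∈ Set.Ioc 0 w → t ∈ Set.Ioc 0 u)
    (h1 : ∀ t ∈ Set.Ioc 0 u, volume ({y | (y, t) ∈ S} ∩ Set.Ioc 0 w) ≤ ENNReal.ofReal (k t)) :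
    ∫⁻ y in Set.Ioc 0 w, ∫⁻ t in {t | (y, t) ∈ S}, F t ≤
      ∫⁻ t in Set.Ioc 0 u, ENNReal.ofReal (k t) * F t := by
  rw [PC_gen F hF w S hS, ← lintegral_indicator measurableSet_Ioc]
  refine lintegral_mono fun t => ?_
  by_cases ht : t ∈ Set.Ioc 0 u
  · rw [Set.indicator_of_mem ht]
    exact mul_le_mul' (h1 t ht) le_rfl
  · rw [Set.indicator_of_notMem ht]
    have e : ({y | (y, t) ∈ S} ∩ Set.Ioc 0 w) = ∅ := by
      ext y
      simp only [Set.mem_inter_iff, Set.mem_empty_iff_false, iff_false]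
      rintro ⟨h2, h3⟩
      exact ht (h0 t y h2 h3)
    simp only [e, measure_empty, zero_mul, le_refl]

theorem PC_eq (F : ℝ → ENNReal) (hF : Measurable F) (w u : ℝ) (k : ℝ → ℝ) (S : Set (ℝ × ℝ))
    (hS : MeasurableSet S)
    (h0 : ∀ t y, (y, t) ∈ S → y ∈ Set.Ioc 0 w → t ∈ Set.Ioc 0 u)
    (h1 : ∀ t ∈ Set.Ioc 0 u, volume ({y | (y, t) ∈ S} ∩ Set.Ioc 0 w) = ENNReal.ofReal (k t)) :
    ∫⁻ y in Set.Ioc 0 w, ∫⁻ t in {t | (y, t) ∈ S}, F t =
      ∫⁻ t in Set.Ioc 0 u, ENNReal.ofReal (k t) * F t := by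
  rw [PC_gen F hF w S hS, ← lintegral_indicator measurableSet_Ioc]
  refine lintegral_congr fun t => ?_
  by_cases ht : t ∈ Set.Ioc 0 u
  · rw [Set.indicator_of_mem ht, h1 t ht]
  · rw [Set.indicator_of_notMem ht]
    have e : ({y | (y, t) ∈ S} ∩ Set.Ioc 0 w) = ∅ := by
      ext y
      simp only [Set.mem_inter_iff, Set.mem_empty_iff_false, iff_false]
      rintro ⟨h2, h3⟩
      exact ht (h0 t y h2 h3)
    simp only [e, measure_empty, zero_mul]

theorem PC_vol {A : Set ℝ} (a b : ℝ) (h : A ⊆ Set.Icc a b) : volume A ≤ ENNReal.ofReal (b - a) := by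
  rw [← Real.volume_Icc]
  exact measure_mono h

/-- PC1. PROOF. Tonelli, as `layer_cake` in SK/E6a.lean: `w - t` is the measure of `{y ∈ (0, w] : t ≤ y}` for `0 < t ≤ w`. -/
theorem near_layer (F : ℝ → ENNReal) (hF : Measurable F) (w : ℝ) (hw : 0 < w) :
    ∫⁻ y in Set.Ioc 0 w, ∫⁻ t in Set.Ioc 0 y, F t = ∫⁻ t in Set.Ioc 0 w, ENNReal.ofReal (w - t) * F t := by
  have hS : MeasurableSet {q : ℝ × ℝ | 0 < q.2 ∧ q.2 ≤ q.1} :=
    (measurableSet_lt measurable_const measurable_snd).inter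
      (measurableSet_le measurable_snd measurable_fst)
  have h := PC_eq F hF w w (fun t => w - t) _ hS
    (by
      rintro t y ⟨h1, h2⟩ ⟨h3, h4⟩
      exact ⟨h1, h2.trans h4⟩)
    (by
      intro t ht
      have e : ({y | (y, t) ∈ {q : ℝ × ℝ | 0 < q.2 ∧ q.2 ≤ q.1}} ∩ Set.Ioc 0 w) = Set.Icc t w := by
        ext y
        constructor
        · rintro ⟨⟨h1, h2⟩, h3, h4⟩
          exact ⟨h2, h4⟩
        · rintro ⟨h1, h2⟩
          exact ⟨⟨ht.1, h1⟩, lt_of_lt_of_le ht.1 h1, h2⟩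
      rw [e, Real.volume_Icc])
  exact h

/-- PC2. PROOF. Tonelli: the measure of `{y ∈ (0, w] : t ≤ y + R}` is at most `max 0 (w + R - t)` for `t > 0`. -/
theorem near_shift (F : ℝ → ENNReal) (hF : Measurable F) (w s R : ℝ) (hw : 0 < w) (hR : 0 ≤ R) (hws : w ≤ s) :
    ∫⁻ y in Set.Ioc 0 w, ∫⁻ t in Set.Ioc 0 (y + R), F t ≤
      ∫⁻ t in Set.Ioc 0 (s + w + R), ENNReal.ofReal (max 0 (w + R - t)) * F t := by
  have hS : MeasurableSet {q : ℝ × ℝ | 0 < q.2 ∧ q.2 ≤ q.1 + R} :=
    (measurableSet_lt measurable_const measurable_snd).inter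
      (measurableSet_le measurable_snd (measurable_fst.add_const R))
  have h := PC_le F hF w (s + w + R) (fun t => max 0 (w + R - t)) _ hS
    (by
      rintro t y ⟨h1, h2⟩ ⟨h3, h4⟩
      have h2' : t ≤ y + R := h2
      exact ⟨h1, by linarith⟩)
    (by
      intro t ht
      rcases le_total t R with htR | htR
      · refine (PC_vol 0 w ?_).trans (ENNReal.ofReal_le_ofReal ?_)
        · rintro y ⟨_, h3, h4⟩
          exact ⟨h3.le, h4⟩
        · exact le_trans (by linarith) (le_max_right _ _)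
      · refine (PC_vol (t - R) w ?_).trans (ENNReal.ofReal_le_ofReal ?_)
        · rintro y ⟨⟨_, h2⟩, h3, h4⟩
          have h2' : t ≤ y + R := h2
          exact ⟨by linarith, h4⟩
        · exact le_trans (by linarith) (le_max_right _ _))
  exact h

/-- PC3. PROOF. Tonelli: for real `t` the measure of `{τ ∈ (0, w] : s - w + τ < t ≤ s + τ}` is `max 0 (w - |t - s|)`. -/
theorem far_layer (F : ℝ → ENNReal) (hF : Measurable F) (w s : ℝ) (hw : 0 < w) (hws : w ≤ s) :
    ∫⁻ τ in Set.Ioc 0 w, ∫⁻ t in Set.Ioc (s - w + τ) (s + τ), F t =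
      ∫⁻ t in Set.Ioc 0 (s + w), ENNReal.ofReal (max 0 (w - |t - s|)) * F t := by
  have hS : MeasurableSet {q : ℝ × ℝ | s - w + q.1 < q.2 ∧ q.2 ≤ s + q.1} :=
    (measurableSet_lt (measurable_fst.const_add (s - w)) measurable_snd).inter
      (measurableSet_le measurable_snd (measurable_fst.const_add s))
  have h := PC_eq F hF w (s + w) (fun t => max 0 (w - |t - s|)) _ hS
    (by
      rintro t y ⟨h1, h2⟩ ⟨h3, h4⟩
      have h1' : s - w + y < t := h1
      have h2' : t ≤ s + y := h2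
      exact ⟨by linarith, by linarith⟩)
    (by
      intro t ht
      rcases lt_or_ge t s with hts | hts
      · have e : ({y | (y, t) ∈ {q : ℝ × ℝ | s - w + q.1 < q.2 ∧ q.2 ≤ s + q.1}} ∩ Set.Ioc 0 w) =
            Set.Ioo 0 (t - s + w) := by
          ext y
          constructor
          · rintro ⟨⟨h1, h2⟩, h3, h4⟩
            have h1' : s - w + y < t := h1
            exact ⟨h3, by linarith⟩
          · rintro ⟨h1, h2⟩
            refine ⟨⟨?_, ?_⟩, h1, by linarith⟩
            · show s - w + y < t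
              linarith
            · show t ≤ s + y
              linarith
        rw [e, Real.volume_Ioo, abs_of_neg (by linarith)]
        rcases le_total 0 (w - -(t - s)) with h5 | h5
        · rw [max_eq_right h5]; congr 1; ring
        · rw [max_eq_left h5, ENNReal.ofReal_zero, ENNReal.ofReal_eq_zero]; linarith
      · rcases eq_or_lt_of_le hts with hts' | hts'
        · subst hts'
          have e : ({y | (y, s) ∈ {q : ℝ × ℝ | s - w + q.1 < q.2 ∧ q.2 ≤ s + q.1}} ∩ Set.Ioc 0 w) =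
              Set.Ioo 0 w := by
            ext y
            constructor
            · rintro ⟨⟨h1, h2⟩, h3, h4⟩
              have h1' : s - w + y < s := h1
              exact ⟨h3, by linarith⟩
            · rintro ⟨h1, h2⟩
              refine ⟨⟨?_, ?_⟩, h1, h2.le⟩
              · show s - w + y < s
                linarith
              · show s ≤ s + y
                linarith
          rw [e, Real.volume_Ioo, sub_self, abs_zero, sub_zero, max_eq_right hw.le]
        · have e : ({y | (y, t) ∈ {q : ℝ × ℝ | s - w + q.1 < q.2 ∧ q.2 ≤ s + q.1}} ∩ Set.Ioc 0 w) =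
              Set.Icc (t - s) w := by
            ext y
            constructor
            · rintro ⟨⟨h1, h2⟩, h3, h4⟩
              have h2' : t ≤ s + y := h2
              exact ⟨by linarith, h4⟩
            · rintro ⟨h1, h2⟩
              refine ⟨⟨?_, ?_⟩, by linarith, h2⟩
              · show s - w + y < t
                linarith
              · show t ≤ s + y
                linarith
          rw [e, Real.volume_Icc, abs_of_pos (by linarith)]
          rcases le_total 0 (w - (t - s)) with h5 | h5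
          · rw [max_eq_right h5]
          · rw [max_eq_left h5, ENNReal.ofReal_zero, ENNReal.ofReal_eq_zero]; linarith)
  exact h

/-- PC4. PROOF. Tonelli: for `t > 0` the set `{τ ∈ (0, w] : s - w + τ - R < t ≤ s + τ + R}` is contained in `(0, w] ∩ [t - s - R, t - s + w + R)`, of measure at most
`max 0 (w + R - |t - s|)`, and `t ≤ s + w + R` if it is not empty. -/
theorem far_shift (F : ℝ → ENNReal) (hF : Measurable F) (w s R : ℝ) (hw : 0 < w) (hR : 0 ≤ R) (hws : w ≤ s) :
    ∫⁻ τ in Set.Ioc 0 w, ∫⁻ t in Set.Ioc (max 0 (s - w + τ - R)) (s + τ + R), F t ≤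
      ∫⁻ t in Set.Ioc 0 (s + w + R), ENNReal.ofReal (max 0 (w + R - |t - s|)) * F t := by
  have hS : MeasurableSet {q : ℝ × ℝ | max 0 (s - w + q.1 - R) < q.2 ∧ q.2 ≤ s + q.1 + R} :=
    (measurableSet_lt (measurable_const.max ((measurable_fst.const_add (s - w)).sub_const R))
      measurable_snd).inter
      (measurableSet_le measurable_snd ((measurable_fst.const_add s).add_const R))
  have h := PC_le F hF w (s + w + R) (fun t => max 0 (w + R - |t - s|)) _ hS
    (by
      rintro t y ⟨h1, h2⟩ ⟨h3, h4⟩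
      have h1' : max 0 (s - w + y - R) < t := h1
      have h2' : t ≤ s + y + R := h2
      exact ⟨lt_of_le_of_lt (le_max_left _ _) h1', by linarith⟩)
    (by
      intro t ht
      rcases le_total |t - s| R with htR | htR
      · refine (PC_vol 0 w ?_).trans (ENNReal.ofReal_le_ofReal ?_)
        · rintro y ⟨_, h3, h4⟩
          exact ⟨h3.le, h4⟩
        · exact le_trans (by linarith) (le_max_right _ _)
      · rcases le_total s t with hst | hst
        · rw [abs_of_nonneg (by linarith)] at htR ⊢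
          refine (PC_vol (t - s - R) w ?_).trans (ENNReal.ofReal_le_ofReal ?_)
          · rintro y ⟨⟨_, h2⟩, h3, h4⟩
            have h2' : t ≤ s + y + R := h2
            exact ⟨by linarith, h4⟩
          · exact le_trans (by linarith) (le_max_right _ _)
        · rw [abs_of_nonpos (by linarith)] at htR ⊢
          refine (PC_vol 0 (t - s + w + R) ?_).trans (ENNReal.ofReal_le_ofReal ?_)
          · rintro y ⟨⟨h1, _⟩, h3, h4⟩
            have h1' : max 0 (s - w + y - R) < t := h1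
            have h5 := lt_of_le_of_lt (le_max_right _ _) h1'
            exact ⟨h3.le, by linarith⟩
          · exact le_trans (by linarith) (le_max_right _ _))
  exact h

end Pool.Agent.SW
end

section

set_option autoImplicit false

/-! Task G3: separated points. -/

namespace Pool.Agent.SF

lemma G3_tele (ε₁ : ℝ) (hε : 0 < ε₁) (hε1 : ε₁ ≤ 1) (M : ℕ) :
    ∑ m ∈ Finset.range M, 1 / (1 + (m : ℝ) * ε₁) ^ 2 ≤ 2 / ε₁ * (1 - 1 / (1 + (M : ℝ) * ε₁)) := by
  induction M with
  | zero => simp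
  | succ M ih =>
    rw [Finset.sum_range_succ]
    have h0 : (0 : ℝ) ≤ (M : ℝ) * ε₁ := by positivity
    have h1 : (0 : ℝ) < 1 + (M : ℝ) * ε₁ := by linarith
    have h2 : (0 : ℝ) < 1 + ((M + 1 : ℕ) : ℝ) * ε₁ := by push_cast; nlinarith
    have key : 1 / (1 + (M : ℝ) * ε₁) ^ 2 ≤
        2 / ε₁ * (1 / (1 + (M : ℝ) * ε₁) - 1 / (1 + ((M + 1 : ℕ) : ℝ) * ε₁)) := by
      have e : 2 / ε₁ * (1 / (1 + (M : ℝ) * ε₁) - 1 / (1 + ((M + 1 : ℕ) : ℝ) * ε₁)) =
          2 / ((1 + (M : ℝ) * ε₁) * (1 + ((M + 1 : ℕ) : ℝ) * ε₁)) := by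
        rw [div_sub_div _ _ h1.ne' h2.ne', div_mul_div_comm, div_eq_div_iff (by positivity)
          (by positivity)]
        push_cast
        ring
      rw [e, div_le_div_iff₀ (by positivity) (by positivity)]
      push_cast
      nlinarith
    calc _ ≤ 2 / ε₁ * (1 - 1 / (1 + (M : ℝ) * ε₁)) +
        2 / ε₁ * (1 / (1 + (M : ℝ) * ε₁) - 1 / (1 + ((M + 1 : ℕ) : ℝ) * ε₁)) := add_le_add ih key
      _ = _ := by ring

lemma G3_le (ε₁ : ℝ) (hε : 0 < ε₁) (hε1 : ε₁ ≤ 1) (M : ℕ) :
    ∑ m ∈ Finset.range M, 1 / (1 + (m : ℝ) * ε₁) ^ 2 ≤ 2 / ε₁ := by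
  refine (G3_tele ε₁ hε hε1 M).trans ?_
  have h1 : (0 : ℝ) < 1 + (M : ℝ) * ε₁ := by positivity
  have h2 : (0 : ℝ) ≤ 1 / (1 + (M : ℝ) * ε₁) := by positivity
  have h3 : (0 : ℝ) < 2 / ε₁ := by positivity
  nlinarith

/-- G3. PROOF. Points `a ≥ x`: order them; the `n`-th (from `0`) has `a - x ≥ n ε₁`. Or count: for every `n` at most two points have `n ε₁ ≤ |x - a| < (n+1) ε₁`
(one on each side, as two in a half-open interval of length `ε₁` would be closer than `ε₁`), so the sum is at most `2 ∑_{n ≥ 0} (1 + n ε₁)^(-2)`, and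
`(1 + n ε₁)^(-2) ≤ (1/ε₁)(1/(1+(n-1)ε₁) - 1/(1+n ε₁))` for `n ≥ 1` telescopes: `≤ 2 (1 + 1/ε₁) ≤ 8/ε₁`. -/
theorem sep_sum (A : Finset ℝ) (ε₁ x : ℝ) (hε : 0 < ε₁) (hε1 : ε₁ ≤ 1) (hA : ∀ a ∈ A, ∀ b ∈ A, a ≠ b → ε₁ ≤ |a - b|) :
    ∑ a ∈ A, 1 / (1 + |x - a|) ^ 2 ≤ 8 / ε₁ := by
  classical
  let n : ℝ → ℕ := fun a => ⌊|x - a| / ε₁⌋₊
  let f : ℝ → Bool × ℕ := fun a => (decide (x ≤ a), n a)
  let g : Bool × ℕ → ℝ := fun p => 1 / (1 + (p.2 : ℝ) * ε₁) ^ 2
  have hn1 : ∀ a, (n a : ℝ) * ε₁ ≤ |x - a| := by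
    intro a
    have h1 : (n a : ℝ) ≤ |x - a| / ε₁ := Nat.floor_le (by positivity)
    rwa [le_div_iff₀ hε] at h1
  have hn2 : ∀ a, |x - a| < ((n a : ℝ) + 1) * ε₁ := by
    intro a
    have h1 : |x - a| / ε₁ < (n a : ℝ) + 1 := Nat.lt_floor_add_one _
    rwa [div_lt_iff₀ hε] at h1
  have hinj : ∀ a ∈ A, ∀ b ∈ A, f a = f b → a = b := by
    intro a ha b hb hab
    by_contra hne
    have h1 := hA a ha b hb hne
    have hs : decide (x ≤ a) = decide (x ≤ b) := congrArg Prod.fst hab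
    have hc : n a = n b := congrArg Prod.snd hab
    have ha1 := hn1 a
    have ha2 := hn2 a
    have hb1 := hn1 b
    have hb2 := hn2 b
    rw [hc] at ha1 ha2
    have hs' : x ≤ a ↔ x ≤ b := by simpa using hs
    have h3 : |a - b| < ε₁ := by
      by_cases hxa : x ≤ a
      · have hxb := hs'.1 hxa
        rw [abs_of_nonpos (by linarith)] at ha1 ha2 hb1 hb2
        rw [abs_lt]
        constructor <;> nlinarith
      · have hxb : ¬ x ≤ b := fun h => hxa (hs'.2 h)
        push Not at hxa hxb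
        rw [abs_of_pos (by linarith)] at ha1 ha2 hb1 hb2
        rw [abs_lt]
        constructor <;> nlinarith
    linarith
  have hstep : ∑ a ∈ A, 1 / (1 + |x - a|) ^ 2 ≤ ∑ a ∈ A, g (f a) := by
    apply Finset.sum_le_sum
    intro a _
    show 1 / (1 + |x - a|) ^ 2 ≤ 1 / (1 + (n a : ℝ) * ε₁) ^ 2
    have h0 : (0 : ℝ) ≤ (n a : ℝ) * ε₁ := by positivity
    apply one_div_le_one_div_of_le (by positivity)
    apply pow_le_pow_left₀ (by linarith)
    linarith [hn1 a]
  have himg : ∑ a ∈ A, g (f a) = ∑ p ∈ A.image f, g p := (Finset.sum_image hinj).symm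
  have hsub : A.image f ⊆ (Finset.univ : Finset Bool) ×ˢ Finset.range (A.sup n + 1) := by
    intro p hp
    obtain ⟨a, ha, rfl⟩ := Finset.mem_image.1 hp
    refine Finset.mem_product.2 ⟨Finset.mem_univ _, Finset.mem_range.2 ?_⟩
    have : n a ≤ A.sup n := Finset.le_sup ha
    exact Nat.lt_succ_of_le this
  have hle : ∑ p ∈ A.image f, g p ≤
      ∑ p ∈ (Finset.univ : Finset Bool) ×ˢ Finset.range (A.sup n + 1), g p := by
    apply Finset.sum_le_sum_of_subset_of_nonneg hsub
    intro p _ _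
    show (0 : ℝ) ≤ 1 / (1 + (p.2 : ℝ) * ε₁) ^ 2
    positivity
  have hprod : ∑ p ∈ (Finset.univ : Finset Bool) ×ˢ Finset.range (A.sup n + 1), g p =
      2 * ∑ m ∈ Finset.range (A.sup n + 1), 1 / (1 + (m : ℝ) * ε₁) ^ 2 := by
    rw [Finset.sum_product]
    simp only [g]
    rw [Finset.sum_const, Finset.card_univ, Fintype.card_bool, nsmul_eq_mul]
    norm_num
  have hfin := G3_le ε₁ hε hε1 (A.sup n + 1)
  have h8 : (8 : ℝ) / ε₁ = 4 * (2 / ε₁) := by ring
  have hpos : (0 : ℝ) < 2 / ε₁ := by positivity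
  rw [himg] at hstep
  rw [hprod] at hle
  linarith

end Pool.Agent.SF
end
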