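import Pool.Agent.Lib.MP_9cfc0a_nt.Mg.G009
import Pool.Agent.Lib.MP_9cfc0a_nt.Mg.G057
import Pool.Agent.Lib.MP_9cfc0a_nt.SF.Defs
import Pool.Agent.Lib.MP_9cfc0a_nt.Mg.G050
import Pool.Agent.Lib.MP_9cfc0a_nt.Mg.G015

section

set_option autoImplicit false

/-! Task TA: the substitution, and the passage from the primitive character to the character. -/

namespace Pool.Agent.SW

open Complex MeasureTheory
open Pool.Agent.SK MP9cfc0a.SK
open Pool.Agent.EM (psiC V psi)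

/-- TA1. The substitution `x = e^t`. PROOF. As `DD_eq_En` in SK/F6.lean (copy it). -/
theorem TB_eq_BE {q : ℕ} (χ : DirichletCharacter ℂ q) (w s : ℝ) (hws : 0 ≤ s + w) :
    TB χ w s = BE (fun x => ‖psiC χ x‖ ^ 2) w s := by
  have h1 : Real.exp '' Set.Ioc 0 (s + w) = Set.Ioc 1 (Real.exp (s + w)) := by
    ext x
    constructor
    · rintro ⟨t, ht, rfl⟩
      exact ⟨Real.one_lt_exp_iff.2 ht.1, Real.exp_le_exp.2 ht.2⟩
    · intro hx
      have hx0 : 0 < x := by linarith [hx.1]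
      refine ⟨Real.log x, ⟨Real.log_pos hx.1, ?_⟩, Real.exp_log hx0⟩
      rw [Real.log_le_iff_le_exp hx0]
      exact hx.2
  have h2 := integral_image_eq_integral_abs_deriv_smul (s := Set.Ioc 0 (s + w)) (f := Real.exp)
    (f' := Real.exp) measurableSet_Ioc (fun x _ => (Real.hasDerivAt_exp x).hasDerivWithinAt)
    Real.exp_injective.injOn (fun x => kk w s (Real.log x) * (‖psiC χ x‖ ^ 2 / x ^ 2))
  rw [h1] at h2
  unfold TB BE
  rw [h2, intervalIntegral.integral_of_le hws]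
  refine setIntegral_congr_fun measurableSet_Ioc fun t _ => ?_
  have h3 : ‖ff χ t‖ ^ 2 = ‖psiC χ (Real.exp t)‖ ^ 2 * Real.exp (-t) := by
    unfold ff
    rw [norm_mul, Complex.norm_real, Real.norm_of_nonneg (Real.exp_pos _).le, mul_pow,
      ← Real.exp_nat_mul]
    congr 2
    push_cast
    ring
  have h4 : Real.exp t * Real.exp (-t) = 1 := by rw [← Real.exp_add]; simp
  have h5 : Real.exp t ≠ 0 := (Real.exp_pos t).ne'
  simp only [h3, smul_eq_mul, Real.log_exp, abs_of_pos (Real.exp_pos t)]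
  rw [Real.exp_neg]
  field_simp

private theorem TA_weight (w s x : ℝ) (hw : 0 ≤ w) (hx : x ∈ Set.Ioc 1 (Real.exp (s + w))) :
    0 ≤ kk w s (Real.log x) ∧ kk w s (Real.log x) ≤ 6 * w :=
  ⟨kk_nonneg _ _ _, kk_le w s _ hw (Real.log_nonneg hx.1.le)⟩

private theorem TA_integrable (g : ℝ → ℝ) (w s : ℝ) (hw : 0 ≤ w)
    (hg : IntegrableOn g (Set.Ioc 1 (Real.exp (s + w)))) :
    IntegrableOn (fun x => kk w s (Real.log x) * g x) (Set.Ioc 1 (Real.exp (s + w))) := by
  refine Integrable.bdd_mul (c := 6 * w) hg ?_ ?_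
  · have : Measurable (fun x : ℝ => kk w s (Real.log x)) :=
      (kk_continuous w s).measurable.comp Real.measurable_log
    exact this.aestronglyMeasurable
  · refine (ae_restrict_iff' measurableSet_Ioc).mpr (Filter.Eventually.of_forall fun x hx => ?_)
    have h := TA_weight w s x hw hx
    rw [Real.norm_of_nonneg h.1]
    exact h.2

/-- TA2. PROOF. As `En_induced` in SK/F2.lean (copy it) for `BE` (`TB_eq_BE`): the weight `kk w s (log x)` is in `[0, 6 w]` for `x ≥ 1` (`kk_nonneg`, `kk_le`), the products with the integrable functions are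
integrable (`Integrable.bdd_mul`, see `integrable_weight` there), pointwise `(1 - η) A² - (1/η) D² ≤ B²` (`hkey` there), and `diff_energy q hq χ (exp (s + w))`. -/
theorem TB_induced (q : ℕ) [NeZero q] (hq : 3 ≤ q) (χ : DirichletCharacter ℂ q) (w s η : ℝ) (hw : 0 < w)
    (hws : w ≤ s) (hη : 0 < η) (hη1 : η ≤ 1) :
    (1 - η) * TB χ.primitiveCharacter w s - 6 * w * (272 / η * (Real.log q) ^ (3 / 2 : ℝ)) ≤ TB χ w s := by
  rw [TB_eq_BE _ w s (by linarith), TB_eq_BE _ w s (by linarith)]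
  have i1 := Pool.Agent.EM.integrable_psiC_sq_window χ.primitiveCharacter 1 (Real.exp (s + w)) le_rfl
  have i2 := Pool.Agent.EM.integrable_psiC_sq_window χ 1 (Real.exp (s + w)) le_rfl
  have i3 := F2_int χ.primitiveCharacter χ 1 (Real.exp (s + w)) le_rfl
  have j1 := TA_integrable _ w s hw.le i1
  have j2 := TA_integrable _ w s hw.le i2
  have h1 := diff_energy q hq χ (Real.exp (s + w))
  have h2 : (1 - η) * BE (fun x => ‖psiC χ.primitiveCharacter x‖ ^ 2) w s - 6 * w * (1 / η) *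
      (∫ x in Set.Ioc 1 (Real.exp (s + w)),
        ‖psiC χ.primitiveCharacter x - psiC χ x‖ ^ 2 / x ^ 2) ≤
      BE (fun x => ‖psiC χ x‖ ^ 2) w s := by
    unfold BE
    rw [← integral_const_mul, ← integral_const_mul, ← integral_sub (j1.const_mul _) (i3.const_mul _)]
    refine setIntegral_mono_on ((j1.const_mul _).sub (i3.const_mul _)) j2 measurableSet_Ioc
      fun x hx => ?_
    have hk := TA_weight w s x hw.le hx
    set k := kk w s (Real.log x)
    set A := ‖psiC χ.primitiveCharacter x‖ with hA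
    set B := ‖psiC χ x‖ with hB
    set D := ‖psiC χ.primitiveCharacter x - psiC χ x‖ with hD
    have hA0 : 0 ≤ A := norm_nonneg _
    have hB0 : 0 ≤ B := norm_nonneg _
    have hD0 : 0 ≤ D := norm_nonneg _
    have hAB : A ≤ B + D := by
      have : psiC χ.primitiveCharacter x = psiC χ x + (psiC χ.primitiveCharacter x - psiC χ x) := by
        ring
      rw [hA, this]
      exact norm_add_le _ _
    have hkey : (1 - η) * A ^ 2 - 1 / η * D ^ 2 ≤ B ^ 2 := by
      have h3 : η * ((1 - η) * A ^ 2) ≤ η * B ^ 2 + D ^ 2 := by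
        have h4 : A ^ 2 ≤ (B + D) ^ 2 := pow_le_pow_left₀ hA0 hAB 2
        have h5 : η * ((1 - η) * A ^ 2) ≤ η * ((1 - η) * (B + D) ^ 2) := by
          have : 0 ≤ η * (1 - η) := mul_nonneg hη.le (by linarith)
          nlinarith
        nlinarith [sq_nonneg (η * B - (1 - η) * D)]
      rw [sub_le_iff_le_add]
      have h6 : (1 - η) * A ^ 2 ≤ (η * B ^ 2 + D ^ 2) / η := by
        rw [le_div_iff₀ hη]
        linarith
      calc (1 - η) * A ^ 2 ≤ (η * B ^ 2 + D ^ 2) / η := h6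
        _ = _ := by field_simp
    have hx0 : 0 < x ^ 2 := by
      have := hx.1
      positivity
    show (1 - η) * (k * (A ^ 2 / x ^ 2)) - 6 * w * (1 / η) * (D ^ 2 / x ^ 2) ≤ k * (B ^ 2 / x ^ 2)
    have h7 : k * ((1 - η) * A ^ 2 - 1 / η * D ^ 2) ≤ k * B ^ 2 :=
      mul_le_mul_of_nonneg_left hkey hk.1
    have h8 : (1 - η) * (k * A ^ 2) - 6 * w * (1 / η * D ^ 2) ≤ k * B ^ 2 := by
      have h9 : k * (1 / η * D ^ 2) ≤ 6 * w * (1 / η * D ^ 2) :=
        mul_le_mul_of_nonneg_right hk.2 (by positivity)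
      have h10 : k * ((1 - η) * A ^ 2 - 1 / η * D ^ 2) =
          (1 - η) * (k * A ^ 2) - k * (1 / η * D ^ 2) := by ring
      linarith
    calc (1 - η) * (k * (A ^ 2 / x ^ 2)) - 6 * w * (1 / η) * (D ^ 2 / x ^ 2)
        = ((1 - η) * (k * A ^ 2) - 6 * w * (1 / η * D ^ 2)) / x ^ 2 := by ring
      _ ≤ (k * B ^ 2) / x ^ 2 := div_le_div_of_nonneg_right h8 hx0.le
      _ = _ := by ring
  have h3 : 6 * w * (1 / η) * (∫ x in Set.Ioc 1 (Real.exp (s + w)),
      ‖psiC χ.primitiveCharacter x - psiC χ x‖ ^ 2 / x ^ 2) ≤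
      6 * w * (272 / η * (Real.log q) ^ (3 / 2 : ℝ)) := by
    calc 6 * w * (1 / η) * (∫ x in Set.Ioc 1 (Real.exp (s + w)),
          ‖psiC χ.primitiveCharacter x - psiC χ x‖ ^ 2 / x ^ 2)
        ≤ 6 * w * (1 / η) * (272 * (Real.log q) ^ (3 / 2 : ℝ)) :=
          mul_le_mul_of_nonneg_left h1 (by positivity)
      _ = _ := by ring
  linarith

end Pool.Agent.SW
end

section

set_option autoImplicit false

/-! Task F1: the box factor. -/

namespace Pool.Agent.SF

open Complex MeasureTheory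
open Pool.Agent.SE

/-- F1a. PROOF. `shc (i y) = sin y / y`, `|sin y| ≤ 1` (see `shc_im` in SE/A3.lean). -/
theorem shc_far (B y : ℝ) (hB : 0 < B) (hy : y ≠ 0) : ‖shc ((B : ℂ) * ((y : ℂ) * I))‖ ≤ 1 / (B * |y|) := by
  have hBy : B * y ≠ 0 := mul_ne_zero hB.ne' hy
  have h4 : (B : ℂ) * ((y : ℂ) * I) = ((B * y : ℝ) : ℂ) * I := by push_cast; ring
  have hne : ((B * y : ℝ) : ℂ) * I ≠ 0 := mul_ne_zero (by exact_mod_cast hBy) I_ne_zero
  rw [h4, A3_shc_of_ne hne, Complex.sinh_mul_I, norm_div, norm_mul, norm_mul]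
  have h3 : ‖Complex.sin ((B * y : ℝ) : ℂ)‖ ≤ 1 := by
    rw [← Complex.ofReal_sin, Complex.norm_real, Real.norm_eq_abs]
    exact Real.abs_sin_le_one _
  have h5 : ‖((B * y : ℝ) : ℂ)‖ = B * |y| := by
    rw [Complex.norm_real, Real.norm_eq_abs, abs_mul, abs_of_pos hB]
  rw [h5, Complex.norm_I, mul_one, mul_one]
  have hpos : 0 < B * |y| := mul_pos hB (abs_pos.2 hy)
  exact div_le_div_of_nonneg_right h3 hpos.le

/-- F1b. PROOF. `shc_le`: the real part is `0`. -/
theorem shc_one (B y : ℝ) : ‖shc ((B : ℂ) * ((y : ℂ) * I))‖ ≤ 1 := by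
  have h1 := shc_le ((B : ℂ) * ((y : ℂ) * I))
  have h2 : ((B : ℂ) * ((y : ℂ) * I)).re = 0 := by simp
  rw [h2, abs_zero, Real.exp_zero] at h1
  exact h1

theorem F1_transform (B : ℝ) (hB : 0 < B) (t : ℝ) :
    ∫ u : ℝ, (Set.Ioc (-B) B).indicator (fun _ : ℝ => (1 / (2 * B) : ℂ)) u *
      Complex.exp (-((t : ℂ) * u * I)) = shc ((B : ℂ) * ((t : ℂ) * I)) := by
  have hBc : (B : ℂ) ≠ 0 := by exact_mod_cast hB.ne'
  have h1 : (fun u : ℝ => (Set.Ioc (-B) B).indicator (fun _ : ℝ => (1 / (2 * B) : ℂ)) u *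
      Complex.exp (-((t : ℂ) * u * I))) =
      (Set.Ioc (-B) B).indicator (fun u : ℝ => (1 / (2 * B) : ℂ) * Complex.exp (-((t : ℂ) * u * I))) := by
    funext u
    by_cases hu : u ∈ Set.Ioc (-B) B
    · rw [Set.indicator_of_mem hu, Set.indicator_of_mem hu]
    · rw [Set.indicator_of_notMem hu, Set.indicator_of_notMem hu, zero_mul]
  rw [h1, integral_indicator measurableSet_Ioc, ← intervalIntegral.integral_of_le (by linarith),
    intervalIntegral.integral_const_mul]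
  rcases eq_or_ne t 0 with h | h
  · subst h
    have h2 : (fun u : ℝ => Complex.exp (-(((0 : ℝ) : ℂ) * u * I))) = fun _ : ℝ => (1 : ℂ) := by
      funext u
      simp
    rw [h2, intervalIntegral.integral_const]
    have h3 : (B : ℂ) * (((0 : ℝ) : ℂ) * I) = 0 := by simp
    rw [h3, shc_zero]
    simp only [Complex.real_smul, mul_one]
    push_cast
    field_simp
    ring
  · have htc : (t : ℂ) ≠ 0 := by exact_mod_cast h
    have hc : -((t : ℂ) * I) ≠ 0 := neg_ne_zero.2 (mul_ne_zero htc I_ne_zero)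
    have h2 : (fun u : ℝ => Complex.exp (-((t : ℂ) * u * I))) =
        fun u : ℝ => Complex.exp (-((t : ℂ) * I) * (u : ℂ)) := by
      funext u
      congr 1
      ring
    rw [h2, integral_exp_mul_complex hc]
    have hne : (B : ℂ) * ((t : ℂ) * I) ≠ 0 := mul_ne_zero hBc (mul_ne_zero htc I_ne_zero)
    rw [A3_shc_of_ne hne]
    have h3 : Complex.sinh ((B : ℂ) * ((t : ℂ) * I)) =
        (Complex.exp ((B : ℂ) * ((t : ℂ) * I)) - Complex.exp (-((B : ℂ) * ((t : ℂ) * I)))) / 2 := rfl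
    rw [h3]
    have e1 : -((t : ℂ) * I) * ((B : ℝ) : ℂ) = -((B : ℂ) * ((t : ℂ) * I)) := by ring
    have e2 : -((t : ℂ) * I) * ((-B : ℝ) : ℂ) = (B : ℂ) * ((t : ℂ) * I) := by push_cast; ring
    rw [e1, e2]
    have hI := I_ne_zero
    field_simp
    ring

/-- F1c. -/
theorem shc_l2 (B : ℝ) (hB : 0 < B) : Integrable (fun y : ℝ => ‖shc ((B : ℂ) * ((y : ℂ) * I))‖ ^ 2) ∧
    ∫ y : ℝ, ‖shc ((B : ℂ) * ((y : ℂ) * I))‖ ^ 2 ≤ Real.pi / B := by
  have hi1 : Integrable ((Set.Ioc (-B) B).indicator (fun _ : ℝ => (1 / (2 * B) : ℂ))) := by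
    rw [integrable_indicator_iff measurableSet_Ioc]
    exact integrableOn_const (by simp) enorm_ne_top
  have hsq : (fun u : ℝ => ‖(Set.Ioc (-B) B).indicator (fun _ : ℝ => (1 / (2 * B) : ℂ)) u‖ ^ 2) =
      (Set.Ioc (-B) B).indicator (fun _ : ℝ => (1 / (2 * B)) ^ 2) := by
    funext u
    by_cases hu : u ∈ Set.Ioc (-B) B
    · rw [Set.indicator_of_mem hu, Set.indicator_of_mem hu]
      have : ‖(1 / (2 * B) : ℂ)‖ = 1 / (2 * B) := by
        rw [norm_div, norm_mul, Complex.norm_real, Real.norm_of_nonneg hB.le]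
        simp
      rw [this]
    · rw [Set.indicator_of_notMem hu, Set.indicator_of_notMem hu]
      simp
  have hi2 : Integrable (fun u : ℝ => ‖(Set.Ioc (-B) B).indicator (fun _ : ℝ => (1 / (2 * B) : ℂ)) u‖ ^ 2) := by
    rw [hsq, integrable_indicator_iff measurableSet_Ioc]
    exact integrableOn_const (by simp) enorm_ne_top
  obtain ⟨h1, h2⟩ := Pool.Agent.SK.E.plancherel _ hi1 hi2
  have h3 : (fun t : ℝ => ‖∫ u : ℝ, (Set.Ioc (-B) B).indicator (fun _ : ℝ => (1 / (2 * B) : ℂ)) u *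
      Complex.exp (-((t : ℂ) * u * I))‖ ^ 2) = fun t : ℝ => ‖shc ((B : ℂ) * ((t : ℂ) * I))‖ ^ 2 := by
    funext t
    rw [F1_transform B hB t]
  rw [h3] at h1 h2
  refine ⟨h1, le_of_eq ?_⟩
  rw [h2, hsq, integral_indicator measurableSet_Ioc, setIntegral_const]
  have hv : volume.real (Set.Ioc (-B) B) = 2 * B := by
    rw [Real.volume_real_Ioc_of_le (by linarith)]
    ring
  rw [hv, smul_eq_mul]
  field_simp

/-- F1d. -/
theorem Ek_one (σ v : ℝ) (m : ℕ) (y : ℝ) : ‖Ek σ v m ((y : ℂ) * I)‖ ≤ 1 := by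
  unfold Ek
  rw [norm_mul, norm_pow, Complex.norm_exp]
  have h1 : (((σ ^ 2 / 2 : ℝ) : ℂ) * ((y : ℂ) * I) ^ 2).re = -(σ ^ 2 / 2 * y ^ 2) := by
    rw [mul_pow, Complex.I_sq, Complex.re_ofReal_mul]
    have h0 : ((y : ℂ) ^ 2 * (-1)) = ((-(y ^ 2) : ℝ) : ℂ) := by push_cast; ring
    rw [h0, Complex.ofReal_re]
    ring
  rw [h1]
  have h2 : Real.exp (-(σ ^ 2 / 2 * y ^ 2)) ≤ 1 := by
    rw [Real.exp_le_one_iff]
    have : 0 ≤ σ ^ 2 / 2 * y ^ 2 := by positivity
    linarith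
  have h3 : ‖shc ((v : ℂ) * ((y : ℂ) * I))‖ ^ m ≤ 1 :=
    pow_le_one₀ (norm_nonneg _) (shc_one v y)
  exact mul_le_one₀ h2 (by positivity) h3

end Pool.Agent.SF
end
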