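import Pool.Agent.Lib.MP_9cfc0a_nt.Mg.G022
import Pool.Agent.Lib.MP_9cfc0a_nt.SW.MA2
import Pool.Agent.Lib.MP_9cfc0a_nt.SW.TC2
import Pool.Agent.Lib.MP_9cfc0a_nt.SD.AA
import Pool.Agent.Lib.MP_9cfc0a_nt.Mg.G057

section

set_option autoImplicit false

/-! Task TD2: all characters modulo `q`. -/

namespace Pool.Agent.SW

open Complex MeasureTheory
open Pool.Agent.SK Pool.Agent.SD MP9cfc0a.SK
open Pool.Agent.SO (prim NN)

/-- TD2. PROOF. As `chars2` in SD/FF.lean (or `chars3` in TD.lean): `T₀` = max of those of `prim_lower4 (ε/8) (β/2)` and `chars2 ε`. Given `T, κ`: `chars2 ε`, `κ/2` gives `S₁` (with `gL χ T ≤ aL χ T ≤ (1+ε) log q`, `χ ≠ 1`).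
`Bad r ψ := ∃ _ : NeZero r, ∃ w s, 0 < w ∧ w ≤ s ∧ s + w ≤ (log r)^(3/2 - β/2) ∧ TB ψ w s < 8 w² log r - 4 w² gF (GZ ψ T) - 2 w (log r)² - (ε/8) w² log r`; `transfer Bad (κ/2) δ` (SD/FD.lean), `δ = ε/64`, with `H` from `prim_lower4` with
`κ/8` (`gF_mono` for `T₀ ≤ T`) gives `S₂`. `S = S₁ ∩ S₂`. `one_char4` with `g = gL χ T = gF (GZ χ* T)` (`gL_eq`, `gL_nonneg`); `F4_large (1/2) _`, `F4_large (β/2) _` for its numerical hypotheses. -/
theorem chars4 (ε β : ℝ) (hε : 0 < ε) (hε1 : ε ≤ 1) (hβ : 0 < β) (hβ1 : β ≤ 1 / 2) : ∃ T₀ : ℝ, 0 < T₀ ∧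
    ∀ T : ℝ, T₀ ≤ T → ∀ κ : ℝ, 0 < κ →
    ∃ q₀ : ℕ, 3 ≤ q₀ ∧ ∀ (q : ℕ) [NeZero q], q₀ ≤ q → ∃ S : Finset (DirichletCharacter ℂ q),
      (1 - κ) * (q.totient : ℝ) ≤ (S.card : ℝ) ∧ (∀ χ ∈ S, χ ≠ 1) ∧
      (∀ χ ∈ S, gL χ T ≤ (1 + ε) * Real.log q) ∧
      ∀ χ ∈ S, ∀ w s : ℝ, 0 < w → w ≤ s → s + w ≤ Real.log q ^ (3 / 2 - β) →
        8 * (w ^ 2 * Real.log q) - 4 * (w ^ 2 * gL χ T) - 2 * (w * Real.log q ^ 2) - ε * (w ^ 2 * Real.log q) ≤
          TB χ w s := by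
  classical
  obtain ⟨T1, hT1, HA⟩ := prim_lower4 (ε / 8) (β / 2) (by positivity) (by linarith) (by positivity) (by linarith)
  obtain ⟨T2, hT2, HB⟩ := chars2 ε hε
  refine ⟨max T1 T2, lt_max_of_lt_left hT1, fun T hT κ hκ => ?_⟩
  have hTT1 : T1 ≤ T := (le_max_left _ _).trans hT
  have hTT2 : T2 ≤ T := (le_max_right _ _).trans hT
  obtain ⟨qa, hqa3, hqa⟩ := HB T hTT2 (κ / 2) (by positivity)
  let Bad : (r : ℕ) → DirichletCharacter ℂ r → Prop := fun r ψ => ∃ _ : NeZero r,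
    ∃ w s : ℝ, 0 < w ∧ w ≤ s ∧ s + w ≤ Real.log r ^ (3 / 2 - β / 2) ∧
      TB ψ w s < 8 * (w ^ 2 * Real.log r) - 4 * (w ^ 2 * gF (GZ ψ T)) - 2 * (w * Real.log r ^ 2) -
        ε / 8 * (w ^ 2 * Real.log r)
  have H : ∃ r₀ : ℕ, ∀ (r : ℕ) [NeZero r], r₀ ≤ r → ∀ S : Finset (DirichletCharacter ℂ r), S ⊆ prim r →
      (∀ χ ∈ S, Bad r χ) → (S.card : ℝ) ≤ κ / 2 / 4 * NN r := by
    obtain ⟨r1, hr13, h1⟩ := HA (κ / 2 / 4) (by positivity)
    refine ⟨r1, fun r _ hr S hS hbad => ?_⟩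
    refine h1 r hr S hS fun χ hχ => ?_
    obtain ⟨inst, w, s, hw, hws, hs, hb⟩ := hbad χ hχ
    refine ⟨w, s, hw, hws, hs, hb.trans_le ?_⟩
    have hm := gF_mono r (by omega) χ (hS hχ) T1 T hTT1
    have h6 : w ^ 2 * gF (GZ χ T1) ≤ w ^ 2 * gF (GZ χ T) :=
      mul_le_mul_of_nonneg_left hm (by positivity)
    linarith
  have hδ0 : 0 < ε / 64 := by positivity
  have hδ1 : ε / 64 ≤ 1 / 2 := by linarith
  obtain ⟨q1, hq13, hq1⟩ := transfer Bad (κ / 2) (ε / 64) (by positivity) hδ0 hδ1 H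
  obtain ⟨q2, hq2⟩ := F4_large (1 / 2) (1632 * 2048 / ε ^ 2) (by norm_num)
  obtain ⟨q3, hq3⟩ := F4_large (β / 2) ((1 - ε / 64) ^ (-(3 / 2 - β / 2))) (by positivity)
  refine ⟨max qa (max q1 (max q2 q3)), hqa3.trans (le_max_left _ _), fun q _ hq => ?_⟩
  have hqqa : qa ≤ q := (le_max_left _ _).trans hq
  have hqq1 : q1 ≤ q := ((le_max_left _ _).trans (le_max_right _ _)).trans hq
  have hqq23 : max q2 q3 ≤ q := ((le_max_right _ _).trans (le_max_right _ _)).trans hq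
  have hqq2 : q2 ≤ q := (le_max_left _ _).trans hqq23
  have hqq3 : q3 ≤ q := (le_max_right _ _).trans hqq23
  have hq3' : 3 ≤ q := hqa3.trans hqqa
  have hq3r : (3 : ℝ) ≤ q := by exact_mod_cast hq3'
  obtain ⟨S1, hS11, hS12, hS13, -⟩ := hqa q hqqa
  obtain ⟨S2, hS21, hS22, hS23⟩ := hq1 q hqq1
  have hR1 : 1 < (q : ℝ) ^ (1 - ε / 64) := Real.one_lt_rpow (by linarith) (by linarith)
  refine ⟨S1 ∩ S2, ?_, fun χ hχ => hS12 χ (Finset.mem_inter.1 hχ).1, fun χ hχ => ?_, fun χ hχ w s hw hws hs => ?_⟩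
  · have hcard : ((S1 ∩ S2).card : ℝ) + ((S1 ∪ S2).card : ℝ) = (S1.card : ℝ) + (S2.card : ℝ) := by
      exact_mod_cast Finset.card_inter_add_card_union S1 S2
    have hun : ((S1 ∪ S2).card : ℝ) ≤ (q.totient : ℝ) := by
      have h1 : (S1 ∪ S2).card ≤ Fintype.card (DirichletCharacter ℂ q) := Finset.card_le_univ _
      have h2 : Fintype.card (DirichletCharacter ℂ q) = q.totient := by
        rw [← Nat.card_eq_fintype_card]
        exact DirichletCharacter.card_eq_totient_of_hasEnoughRootsOfUnity ℂ q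
      rw [h2] at h1
      exact_mod_cast h1
    linarith
  · obtain ⟨a1, a2, a3⟩ := hS13 χ (Finset.mem_inter.1 hχ).1
    exact a1.trans a3
  · have hχ2 := (Finset.mem_inter.1 hχ).2
    have hcr := (hS23 χ hχ2).1
    have h2 : 2 ≤ χ.conductor := by
      have h1 : (1 : ℝ) < (χ.conductor : ℝ) := hR1.trans_le hcr
      exact_mod_cast h1
    have : NeZero χ.conductor := ⟨by omega⟩
    have hnb : ¬ ∃ w s : ℝ, 0 < w ∧ w ≤ s ∧ s + w ≤ Real.log χ.conductor ^ (3 / 2 - β / 2) ∧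
        TB χ.primitiveCharacter w s < 8 * (w ^ 2 * Real.log χ.conductor) -
          4 * (w ^ 2 * gF (GZ χ.primitiveCharacter T)) - 2 * (w * Real.log χ.conductor ^ 2) -
          ε / 8 * (w ^ 2 * Real.log χ.conductor) :=
      fun h => (hS23 χ hχ2).2 ⟨inferInstance, h⟩
    push Not at hnb
    refine one_char4 ε β (ε / 64) hε hε1 hβ hβ1 rfl q hq3' (hq2 q hqq2) (hq3 q hqq3) χ hcr
      (gL χ T) (gL_nonneg q χ T) ?_ w s hw hws hs
    intro w' s' hw' hws' hs'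
    rw [gL_eq q χ h2 T]
    exact hnb w' s' hw' hws' hs'

end Pool.Agent.SW
end

section

set_option autoImplicit false

/-! Task VB2: the sums over the characters. -/

namespace Pool.Agent.SW

open Complex MeasureTheory
open Pool.Agent.SK Pool.Agent.SD MP9cfc0a.SK
open Pool.Agent.EM (psiC V psi)

theorem VB2_int (g : ℝ → ℝ) (w s y : ℝ) (hw : 0 ≤ w) (hg : IntegrableOn g (Set.Ioc 1 y)) :
    IntegrableOn (fun x => kk w s (Real.log x) * g x) (Set.Ioc 1 y) := by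
  refine Integrable.bdd_mul (c := 6 * w) hg ?_ ?_
  · exact ((kk_continuous w s).measurable.comp Real.measurable_log).aestronglyMeasurable
  · refine (ae_restrict_iff' measurableSet_Ioc).mpr (Filter.Eventually.of_forall fun x hx => ?_)
    rw [Real.norm_of_nonneg (kk_nonneg _ _ _)]
    exact kk_le w s _ hw (Real.log_nonneg hx.1.le)

theorem VB2_nn (F : ℝ → ℝ) (hF : ∀ x, 0 ≤ F x) (w s : ℝ) : 0 ≤ BE F w s := by
  unfold BE
  refine setIntegral_nonneg measurableSet_Ioc fun x _ => ?_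
  exact mul_nonneg (kk_nonneg _ _ _) (div_nonneg (hF x) (by positivity))

theorem VB2_up (q : ℕ) [NeZero q] (S : Finset (DirichletCharacter ℂ q))
    (m : DirichletCharacter ℂ q → ℝ) (F : ℝ → ℝ)
    (h : ∀ x, ∑ χ ∈ S, m χ * ‖psiC χ x‖ ^ 2 ≤ (q.totient : ℝ) * F x) (w s : ℝ) (hw : 0 ≤ w)
    (hs : 0 ≤ s) (hF : IntegrableOn (fun x => F x / x ^ 2) (Set.Ioc 1 (Real.exp (s + w)))) :
    ∑ χ ∈ S, m χ * TB χ w s ≤ (q.totient : ℝ) * BE F w s := by
  have iF := VB2_int _ w s _ hw hF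
  have iχ : ∀ χ ∈ S, IntegrableOn (fun x => m χ * (kk w s (Real.log x) *
      (‖psiC χ x‖ ^ 2 / x ^ 2))) (Set.Ioc 1 (Real.exp (s + w))) := fun χ _ =>
    (VB2_int _ w s _ hw (Pool.Agent.EM.integrable_psiC_sq_window χ 1 _ le_rfl)).const_mul _
  have e1 : ∀ χ ∈ S, m χ * TB χ w s = ∫ x in Set.Ioc 1 (Real.exp (s + w)),
      m χ * (kk w s (Real.log x) * (‖psiC χ x‖ ^ 2 / x ^ 2)) := by
    intro χ _
    rw [TB_eq_BE χ w s (by linarith), integral_const_mul]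
    rfl
  rw [Finset.sum_congr rfl e1, ← integral_finsetSum _ iχ]
  unfold BE
  rw [← integral_const_mul]
  refine setIntegral_mono_on (integrable_finsetSum _ iχ) (iF.const_mul _) measurableSet_Ioc
    fun x hx => ?_
  have hx0 : 0 < x := by linarith [hx.1]
  have h3 : ∑ χ ∈ S, m χ * (kk w s (Real.log x) * (‖psiC χ x‖ ^ 2 / x ^ 2)) =
      kk w s (Real.log x) * ((∑ χ ∈ S, m χ * ‖psiC χ x‖ ^ 2) / x ^ 2) := by
    rw [Finset.sum_div, Finset.mul_sum]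
    refine Finset.sum_congr rfl fun χ _ => ?_
    ring
  rw [h3]
  calc kk w s (Real.log x) * ((∑ χ ∈ S, m χ * ‖psiC χ x‖ ^ 2) / x ^ 2)
      ≤ kk w s (Real.log x) * (((q.totient : ℝ) * F x) / x ^ 2) := by
        refine mul_le_mul_of_nonneg_left ?_ (kk_nonneg _ _ _)
        exact div_le_div_of_nonneg_right (h x) (by positivity)
    _ = _ := by ring

/-- VB1. PROOF. As `FG_up` in SD/FG.lean (copy it): `TB_eq_BE`, `variance_upper`, `0 ≤ kk`, integrability as in TA. -/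
theorem V_up (q : ℕ) [NeZero q] (S : Finset (DirichletCharacter ℂ q)) (hS : ∀ χ ∈ S, χ ≠ 1) (w s : ℝ)
    (hw : 0 ≤ w) (hs : 0 ≤ s) : ∑ χ ∈ S, TB χ w s ≤ (q.totient : ℝ) * BE (fun x => V x q) w s := by
  have h := VB2_up q S (fun _ => 1) (fun x => V x q) (fun x => by
    simp only [one_mul]
    exact Pool.Agent.EM.variance_upper q x S hS) w s hw hs
    (Pool.Agent.EM.integrable_V_window q 1 _ le_rfl)
  simpa only [one_mul] using h

/-- VB2. PROOF. The same with `Vc_eq` (`om_nonneg`: the sum over `S` is at most the sum over all characters). -/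
theorem Vc_up (q : ℕ) [NeZero q] (S : Finset (DirichletCharacter ℂ q)) (c : ℕ) (hc : Nat.Coprime c q) (w s : ℝ)
    (hw : 0 ≤ w) (hs : 0 ≤ s) : ∑ χ ∈ S, om c χ * TB χ w s ≤ (q.totient : ℝ) * BE (fun x => Vc x q c) w s := by
  refine VB2_up q S (om c) (fun x => Vc x q c) (fun x => ?_) w s hw hs
    (integrable_Vc_window q c hc 1 _ le_rfl)
  rw [← Vc_eq q c hc x]
  exact Finset.sum_le_univ_sum_of_nonneg fun χ => mul_nonneg (om_nonneg c χ) (by positivity)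

/-- VB3. PROOF. `e = min ε 1/100`; `chars4 e β` and `SD.main e`, with `κ = e`; `S` from `chars4`. `L = log q`.
(V) `Λ := 8 w² L - 2 w L² - e w² L ≤ 8 w² L`; `φ BE V ≥ ∑_{χ ∈ S} TB χ ≥ |S| Λ - 4 w² ∑_{χ ∈ S} gL χ T`, `∑_{χ ∈ S} gL ≤ ∑_χ gL = sig φ L`; if `Λ ≥ 0` then `|S| Λ ≥ (1 - e) φ Λ ≥ φ (Λ - 8 e w² L)`; if `Λ < 0` the claim holds as
`BE V ≥ 0` and `sig ≥ 0`. See `var2` in SD/FG.lean.
(V_c) `Λ := 4 w² L - 4 e w² L - 2 w L² - e w² L`; `om TB χ ≥ om Λ` (`gL ≤ (1+e) L`), `∑_{χ ∈ S} om ≥ φ - 2 |S^c| ≥ (1 - 2e) φ` and `≤ φ` (`om_sum`, `om_le`, `om_nonneg`); `Λ ≤ 4 w² L`. -/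
theorem blocks4 (ε β : ℝ) (hε : 0 < ε) (hβ : 0 < β) (hβ1 : β ≤ 1 / 2) : ∃ T₀ : ℝ, 0 < T₀ ∧ ∀ T : ℝ, T₀ ≤ T →
    ∃ q₀ : ℕ, 3 ≤ q₀ ∧
    ∀ (q : ℕ) [NeZero q], q₀ ≤ q → (0 ≤ sig q T ∧ 2 / 3 - ε ≤ sig q T ∧ sig q T ≤ 1 + ε) ∧
      (∃ S : Finset (DirichletCharacter ℂ q), (1 - ε) * (q.totient : ℝ) ≤ (S.card : ℝ) ∧ (∀ χ ∈ S, χ ≠ 1) ∧
        ∀ χ ∈ S, ∀ w s : ℝ, 0 < w → w ≤ s → s + w ≤ Real.log q ^ (3 / 2 - β) →
          4 * (w ^ 2 * Real.log q) - 2 * (w * Real.log q ^ 2) - ε * (w ^ 2 * Real.log q) ≤ TB χ w s) ∧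
      (∀ w s : ℝ, 0 < w → w ≤ s → s + w ≤ Real.log q ^ (3 / 2 - β) →
        8 * (w ^ 2 * Real.log q) - 4 * (w ^ 2 * (sig q T * Real.log q)) - 2 * (w * Real.log q ^ 2) -
          ε * (w ^ 2 * Real.log q) ≤ BE (fun x => V x q) w s) ∧
      ∀ c : ℕ, Nat.Coprime c q → ¬ c % q = 1 % q → ∀ w s : ℝ, 0 < w → w ≤ s → s + w ≤ Real.log q ^ (3 / 2 - β) →
        4 * (w ^ 2 * Real.log q) - 2 * (w * Real.log q ^ 2) - ε * (w ^ 2 * Real.log q) ≤
          BE (fun x => Vc x q c) w s := by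
  classical
  set e : ℝ := min ε 1 / 100 with hedef
  have hm0 : 0 < min ε 1 := lt_min hε one_pos
  have he : 0 < e := by positivity
  have heB : 100 * e ≤ ε := by
    have h1 : 100 * e = min ε 1 := by
      rw [hedef]
      field_simp
    rw [h1]
    exact min_le_left _ _
  have heB1 : 100 * e ≤ 1 := by
    have h1 : 100 * e = min ε 1 := by
      rw [hedef]
      field_simp
    rw [h1]
    exact min_le_right _ _
  obtain ⟨T₁, hT₁, H1⟩ := chars4 e β he (by linarith) hβ hβ1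
  obtain ⟨T₂, hT₂, H2⟩ := Pool.Agent.SD.main e he
  refine ⟨max T₁ T₂, lt_max_of_lt_left hT₁, fun T hT => ?_⟩
  obtain ⟨q₁, hq₁, K1⟩ := H1 T ((le_max_left _ _).trans hT) e he
  obtain ⟨q₂, hq₂, K2⟩ := H2 T ((le_max_right _ _).trans hT)
  refine ⟨max q₁ q₂, hq₁.trans (le_max_left _ _), fun q _ hq => ?_⟩
  have hqq1 : q₁ ≤ q := (le_max_left _ _).trans hq
  have hqq2 : q₂ ≤ q := (le_max_right _ _).trans hq
  have hq3 : 3 ≤ q := hq₁.trans hqq1
  have hq3r : (3 : ℝ) ≤ q := by exact_mod_cast hq3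
  obtain ⟨S, hS1, hS2, hS3, hS4⟩ := K1 q hqq1
  obtain ⟨⟨hsa, hsb⟩, -, -⟩ := K2 q hqq2
  clear K1 K2 H1 H2
  have hφ : (0 : ℝ) < (q.totient : ℝ) := by
    exact_mod_cast Nat.totient_pos.2 (by omega)
  have hL1 : 1 ≤ Real.log q := by
    rw [Real.le_log_iff_exp_le (by linarith)]
    exact Real.exp_one_lt_d9.le.trans (by linarith)
  have hL0 : 0 < Real.log q := by linarith
  set L := Real.log q with hLdef
  have hφL : 0 < (q.totient : ℝ) * L := mul_pos hφ hL0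
  have hcard : (Fintype.card (DirichletCharacter ℂ q) : ℝ) = (q.totient : ℝ) := by
    rw [← Nat.card_eq_fintype_card, DirichletCharacter.card_eq_totient_of_hasEnoughRootsOfUnity]
  have hSc : (Sᶜ.card : ℝ) ≤ e * (q.totient : ℝ) := by
    have h1 : S.card + Sᶜ.card = Fintype.card (DirichletCharacter ℂ q) := Finset.card_add_card_compl S
    have h2 : (S.card : ℝ) + (Sᶜ.card : ℝ) = (q.totient : ℝ) := by
      rw [← hcard]
      exact_mod_cast h1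
    linarith
  have hsig : sig q T * ((q.totient : ℝ) * L) = ∑ χ : DirichletCharacter ℂ q, gL χ T := by
    unfold sig
    exact div_mul_cancel₀ _ hφL.ne'
  have hsum0 : 0 ≤ ∑ χ : DirichletCharacter ℂ q, gL χ T := Finset.sum_nonneg fun χ _ => gL_nonneg q χ T
  have hsig0 : 0 ≤ sig q T := div_nonneg hsum0 hφL.le
  have hSgL : ∑ χ ∈ S, gL χ T ≤ ∑ χ : DirichletCharacter ℂ q, gL χ T :=
    Finset.sum_le_univ_sum_of_nonneg fun χ => gL_nonneg q χ T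
  have hX0 : ∀ w : ℝ, 0 ≤ e * (w ^ 2 * L) := fun w => by positivity
  have hX1 : ∀ w : ℝ, 100 * (e * (w ^ 2 * L)) ≤ ε * (w ^ 2 * L) := fun w => by
    have h1 : 100 * e * (w ^ 2 * L) ≤ ε * (w ^ 2 * L) :=
      mul_le_mul_of_nonneg_right heB (by positivity)
    linarith
  have hlow : ∀ χ ∈ S, ∀ w s : ℝ, 0 < w → w ≤ s → s + w ≤ L ^ (3 / 2 - β) →
      4 * (w ^ 2 * L) - 4 * (e * (w ^ 2 * L)) - 2 * (w * L ^ 2) - e * (w ^ 2 * L) ≤ TB χ w s := by
    intro χ hχ w s hw hws hs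
    have h1 := hS4 χ hχ w s hw hws hs
    have h2 : w ^ 2 * gL χ T ≤ w ^ 2 * ((1 + e) * L) :=
      mul_le_mul_of_nonneg_left (hS3 χ hχ) (by positivity)
    have h3 : w ^ 2 * ((1 + e) * L) = w ^ 2 * L + e * (w ^ 2 * L) := by ring
    linarith
  refine ⟨⟨hsig0, by linarith, by linarith⟩, ⟨S, ?_, hS2, fun χ hχ w s hw hws hs => ?_⟩,
    fun w s hw hws hs => ?_, fun c hc hc1 w s hw hws hs => ?_⟩
  · refine le_trans (mul_le_mul_of_nonneg_right ?_ hφ.le) hS1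
    linarith
  · have h1 := hlow χ hχ w s hw hws hs
    have h2 := hX0 w
    have h3 := hX1 w
    linarith
  · have hx0 := hX0 w
    have hx1 := hX1 w
    have hup := V_up q S hS2 w s hw.le (by linarith)
    have hnn : 0 ≤ BE (fun x => V x q) w s := VB2_nn _ (fun x => Pool.Agent.EM.V_nonneg x q) w s
    set Λ := 8 * (w ^ 2 * L) - 2 * (w * L ^ 2) - e * (w ^ 2 * L) with hΛ
    have hs0 : 0 ≤ 4 * (w ^ 2 * (sig q T * L)) := by positivity
    by_cases hneg : Λ ≤ 0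
    · linarith
    · push Not at hneg
      have h1 : (S.card : ℝ) * Λ - 4 * w ^ 2 * ∑ χ ∈ S, gL χ T ≤ ∑ χ ∈ S, TB χ w s := by
        have h2 : ∑ χ ∈ S, (Λ - 4 * w ^ 2 * gL χ T) ≤ ∑ χ ∈ S, TB χ w s := by
          refine Finset.sum_le_sum fun χ hχ => ?_
          have h3 := hS4 χ hχ w s hw hws hs
          linarith
        rw [Finset.sum_sub_distrib, Finset.sum_const, nsmul_eq_mul, ← Finset.mul_sum] at h2
        exact h2
      have h4 : (1 - e) * (q.totient : ℝ) * Λ ≤ (S.card : ℝ) * Λ :=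
        mul_le_mul_of_nonneg_right hS1 hneg.le
      have h5 : 4 * w ^ 2 * ∑ χ ∈ S, gL χ T ≤ 4 * w ^ 2 * (sig q T * ((q.totient : ℝ) * L)) := by
        rw [hsig]
        exact mul_le_mul_of_nonneg_left hSgL (by positivity)
      have h7 : Λ ≤ 8 * (w ^ 2 * L) := by
        have : 0 ≤ w * L ^ 2 := by positivity
        linarith
      have h8 : e * Λ ≤ 8 * (e * (w ^ 2 * L)) := by
        have := mul_le_mul_of_nonneg_left h7 he.le
        linarith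
      have h9 : (q.totient : ℝ) * ((1 - e) * Λ - 4 * (w ^ 2 * (sig q T * L))) ≤
          (q.totient : ℝ) * BE (fun x => V x q) w s := by
        have e1 : (q.totient : ℝ) * ((1 - e) * Λ - 4 * (w ^ 2 * (sig q T * L))) =
            (1 - e) * (q.totient : ℝ) * Λ - 4 * w ^ 2 * (sig q T * ((q.totient : ℝ) * L)) := by ring
        linarith
      have h10 := le_of_mul_le_mul_left h9 hφ
      linarith
  · have hx0 := hX0 w
    have hx1 := hX1 w
    have hup := Vc_up q S c hc w s hw.le (by linarith)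
    have hnn : 0 ≤ BE (fun x => Vc x q c) w s := VB2_nn _ (fun x => Vc_nonneg x q c) w s
    set Λ := 4 * (w ^ 2 * L) - 4 * (e * (w ^ 2 * L)) - 2 * (w * L ^ 2) - e * (w ^ 2 * L) with hΛ
    by_cases hneg : Λ ≤ 0
    · linarith
    · push Not at hneg
      have h1 : (∑ χ ∈ S, om c χ) * Λ ≤ ∑ χ ∈ S, om c χ * TB χ w s := by
        rw [Finset.sum_mul]
        refine Finset.sum_le_sum fun χ hχ => ?_
        exact mul_le_mul_of_nonneg_left (hlow χ hχ w s hw hws hs) (om_nonneg c χ)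
      have h2 : ∑ χ ∈ S, om c χ + ∑ χ ∈ Sᶜ, om c χ = (q.totient : ℝ) := by
        rw [Finset.sum_add_sum_compl, om_sum q c hc hc1]
      have h3 : ∑ χ ∈ Sᶜ, om c χ ≤ (Sᶜ.card : ℝ) * 2 := by
        rw [← nsmul_eq_mul]
        exact Finset.sum_le_card_nsmul _ _ _ fun χ _ => om_le c χ
      have h4 : (1 - 2 * e) * (q.totient : ℝ) ≤ ∑ χ ∈ S, om c χ := by linarith
      have h5 : (1 - 2 * e) * (q.totient : ℝ) * Λ ≤ (∑ χ ∈ S, om c χ) * Λ :=
        mul_le_mul_of_nonneg_right h4 hneg.le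
      have h7 : Λ ≤ 4 * (w ^ 2 * L) := by
        have : 0 ≤ w * L ^ 2 := by positivity
        linarith
      have h8 : e * Λ ≤ 4 * (e * (w ^ 2 * L)) := by
        have := mul_le_mul_of_nonneg_left h7 he.le
        linarith
      have h9 : (q.totient : ℝ) * ((1 - 2 * e) * Λ) ≤
          (q.totient : ℝ) * BE (fun x => Vc x q c) w s := by
        have e1 : (q.totient : ℝ) * ((1 - 2 * e) * Λ) = (1 - 2 * e) * (q.totient : ℝ) * Λ := by ring
        linarith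
      have h10 := le_of_mul_le_mul_left h9 hφ
      linarith

end Pool.Agent.SW
end
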