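import Pool.Agent.Lib.MP_9cfc0a_nt.Mg.G056
import Pool.Agent.Lib.MP_9cfc0a_nt.SW.FN2
import Pool.Agent.Lib.MP_9cfc0a_nt.Mg.G048
import Pool.Agent.Lib.MP_9cfc0a_nt.Mg.G054
import Pool.Agent.Lib.MP_9cfc0a_nt.Mg.G053
import Pool.Agent.Lib.MP_9cfc0a_nt.Mg.G009
import Pool.Agent.Lib.MP_9cfc0a_nt.Mg.G057

section

set_option autoImplicit false

/-! Task E1: two thirds of the characters have many isolated zeros AND a large energy in every window up to `e^((log q)^(5/4))`. -/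

namespace Pool.Agent.SE

open Complex MeasureTheory
open Pool.Agent.SK Pool.Agent.SD Pool.Agent.SW MP9cfc0a.SK
open Pool.Agent.SO (prim NN)
open Pool.Agent.EM (V psiC)

/-- `NE` is `log q` times `En`. -/
theorem NE_eq_En {q : ℕ} (χ : DirichletCharacter ℂ q) (hq : 3 ≤ q) :
    NE (fun x => ‖psiC χ x‖ ^ 2) (Real.log q) = Real.log q * En χ q := by
  have h3 : (3 : ℝ) ≤ q := by exact_mod_cast hq
  have hq0 : (0 : ℝ) < q := by linarith
  have hL : 0 < Real.log q := Real.log_pos (by linarith)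
  unfold NE En
  rw [Real.exp_log hq0, ← integral_const_mul]
  refine setIntegral_congr_fun measurableSet_Ioc fun x _ => ?_
  simp only
  field_simp

theorem both_share (ε : ℝ) (hε : 0 < ε) (hε1 : ε ≤ 1) : ∃ (T : ℕ) (ε₁ : ℝ), 1 ≤ T ∧ 0 < ε₁ ∧ ε₁ ≤ 1 ∧ ∃ q₀ : ℕ, 3 ≤ q₀ ∧
    ∀ (q : ℕ) [NeZero q], q₀ ≤ q → ∃ S : Finset (DirichletCharacter ℂ q),
      (2 / 3 - ε) * (q.totient : ℝ) ≤ (S.card : ℝ) ∧ (∀ χ ∈ S, χ ≠ 1) ∧
      ∀ χ ∈ S, (q : ℝ) ^ (9 / 10 : ℝ) ≤ (χ.conductor : ℝ) ∧ (∃ _ : NeZero χ.conductor,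
        ε / 10 * Real.log q ≤ gF (IZ χ.primitiveCharacter (T : ℝ) (ε₁ / Real.log χ.conductor))) ∧
      ∀ s : ℝ, Real.log q ≤ s → s + Real.log q ≤ Real.log q ^ (5 / 4 : ℝ) →
        ε / 10 * Real.log q ^ 3 ≤ FE (fun x => ‖psiC χ x‖ ^ 2) (Real.log q) s := by
  classical
  obtain ⟨T₀, ε₁, hT₀, hε₁, hε₁1, H₁⟩ := chars_iso (ε / 40) (by positivity) (by linarith)
  obtain ⟨T₂, hT₂, H₂⟩ := blocks4 (ε / 40) (1 / 4) (by positivity) (by norm_num) (by norm_num)
  obtain ⟨C, hC, hV⟩ := V_initial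
  have hTle : T₀ ≤ ((max 1 ⌈T₀⌉₊ : ℕ) : ℝ) := by
    refine (Nat.le_ceil T₀).trans ?_
    exact_mod_cast le_max_right _ _
  obtain ⟨q₁, hq₁, G₁⟩ := H₁ ((max 1 ⌈T₀⌉₊ : ℕ) : ℝ) hTle (ε / 40) (by positivity)
  obtain ⟨q₂, hq₂, G₂⟩ := H₂ T₂ le_rfl
  obtain ⟨q₃, hq₃⟩ : ∃ q₃ : ℕ, ∀ q : ℕ, q₃ ≤ q → 100 * C / ε ≤ Real.log q := by
    have h1 : Filter.Tendsto (fun q : ℕ => Real.log (q : ℝ)) Filter.atTop Filter.atTop :=
      Real.tendsto_log_atTop.comp tendsto_natCast_atTop_atTop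
    exact (h1.eventually_ge_atTop _).exists_forall_of_atTop
  refine ⟨max 1 ⌈T₀⌉₊, ε₁, le_max_left _ _, hε₁, hε₁1, max q₁ (max q₂ q₃), hq₁.trans (le_max_left _ _), fun q _ hq => ?_⟩
  have hqq1 : q₁ ≤ q := (le_max_left _ _).trans hq
  have hqq2 : q₂ ≤ q := ((le_max_left _ _).trans (le_max_right _ _)).trans hq
  have hqq3 : q₃ ≤ q := ((le_max_right _ _).trans (le_max_right _ _)).trans hq
  have hq3 : 3 ≤ q := hq₁.trans hqq1
  have h3 : (3 : ℝ) ≤ q := by exact_mod_cast hq3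
  have hq0 : (0 : ℝ) < q := by linarith
  have hL1 : 1 ≤ Real.log q := by
    rw [Real.le_log_iff_exp_le hq0]
    exact Real.exp_one_lt_d9.le.trans (by linarith)
  obtain ⟨S₁, hS₁c, hS₁1, hS₁⟩ := G₁ q hqq1
  obtain ⟨-, ⟨S₂, hS₂c, -, hS₂⟩, -, -⟩ := G₂ q hqq2
  have hCL : C * Real.log q ≤ ε / 100 * Real.log q ^ 2 := by
    have h4 := hq₃ q hqq3
    rw [div_le_iff₀ hε] at h4
    have h5 : 0 ≤ Real.log q := by linarith
    nlinarith
  set L := Real.log q with hLdef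
  have hL0 : 0 < L := by linarith
  have hφ0 : (0 : ℝ) < (q.totient : ℝ) := by
    exact_mod_cast Nat.totient_pos.2 (by omega)
  have hcard : (Fintype.card (DirichletCharacter ℂ q) : ℝ) = (q.totient : ℝ) := by
    rw [← Nat.card_eq_fintype_card, DirichletCharacter.card_eq_totient_of_hasEnoughRootsOfUnity]
  set P : DirichletCharacter ℂ q → Prop := fun χ => En χ q ≤ (1 / 2 - ε / 10) * L ^ 2 with hP
  set B := (S₁ ∩ S₂).filter (fun χ => ¬ P χ) with hB
  have hBc : (B.card : ℝ) ≤ (1 / 3 + ε / 4) * (q.totient : ℝ) := by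
    have h1 : (B.card : ℝ) * ((1 / 2 - ε / 10) * L ^ 2) ≤ ∑ χ ∈ B, En χ q := by
      rw [← nsmul_eq_mul]
      refine Finset.card_nsmul_le_sum _ _ _ fun χ hχ => ?_
      have h2 := (Finset.mem_filter.1 hχ).2
      rw [hP] at h2
      exact (not_le.1 h2).le
    have h2 := FG_up q B (fun χ hχ => hS₁1 χ (Finset.mem_inter.1 (Finset.mem_filter.1 hχ).1).1) q
    have h4 := hV q hq3 L le_rfl
    rw [← hLdef] at h2 h4
    have h5 : L ^ 2 / 2 - L ^ 3 / (3 * L) = L ^ 2 / 6 := by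
      field_simp
      ring
    have h6 : ∫ x in Set.Ioc (1 : ℝ) q, (1 - Real.log x / L) * (V x q / x ^ 2) ≤ (1 / 6 + ε / 100) * L ^ 2 := by
      linarith
    have h7 : (B.card : ℝ) * ((1 / 2 - ε / 10) * L ^ 2) ≤ (q.totient : ℝ) * ((1 / 6 + ε / 100) * L ^ 2) :=
      (h1.trans h2).trans (mul_le_mul_of_nonneg_left h6 hφ0.le)
    have h8 : (B.card : ℝ) * (1 / 2 - ε / 10) ≤ (q.totient : ℝ) * (1 / 6 + ε / 100) := by
      have hL2 : 0 < L ^ 2 := by positivity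
      refine le_of_mul_le_mul_right ?_ hL2
      calc (B.card : ℝ) * (1 / 2 - ε / 10) * L ^ 2 = (B.card : ℝ) * ((1 / 2 - ε / 10) * L ^ 2) := by ring
        _ ≤ _ := h7
        _ = _ := by ring
    have h9 : (1 / 6 + ε / 100) ≤ (1 / 3 + ε / 4) * (1 / 2 - ε / 10) := by nlinarith
    have h10 : (0 : ℝ) < 1 / 2 - ε / 10 := by linarith
    refine le_of_mul_le_mul_right ?_ h10
    calc (B.card : ℝ) * (1 / 2 - ε / 10) ≤ (q.totient : ℝ) * (1 / 6 + ε / 100) := h8
      _ ≤ (q.totient : ℝ) * ((1 / 3 + ε / 4) * (1 / 2 - ε / 10)) := mul_le_mul_of_nonneg_left h9 hφ0.le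
      _ = _ := by ring
  refine ⟨(S₁ ∩ S₂).filter P, ?_, fun χ hχ => hS₁1 χ (Finset.mem_inter.1 (Finset.mem_filter.1 hχ).1).1, fun χ hχ => ?_⟩
  · have h1 : ((S₁ ∪ S₂).card : ℝ) + ((S₁ ∩ S₂).card : ℝ) = (S₁.card : ℝ) + (S₂.card : ℝ) := by
      exact_mod_cast Finset.card_union_add_card_inter S₁ S₂
    have h2 : ((S₁ ∪ S₂).card : ℝ) ≤ (q.totient : ℝ) := by
      rw [← hcard]
      exact_mod_cast Finset.card_le_univ (S₁ ∪ S₂)
    have h4 : (((S₁ ∩ S₂).filter P).card : ℝ) + (B.card : ℝ) = ((S₁ ∩ S₂).card : ℝ) := by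
      rw [hB]
      exact_mod_cast Finset.card_filter_add_card_filter_not (s := S₁ ∩ S₂) P
    nlinarith
  · obtain ⟨hχ1, hχP⟩ := Finset.mem_filter.1 hχ
    rw [hP] at hχP
    obtain ⟨hχS1, hχS2⟩ := Finset.mem_inter.1 hχ1
    obtain ⟨hr, hne, -, hg⟩ := hS₁ χ hχS1
    refine ⟨?_, ⟨hne, ?_⟩, fun s hs1 hs2 => ?_⟩
    · refine le_trans ?_ hr
      exact Real.rpow_le_rpow_of_exponent_le (by linarith) (by linarith)
    · have h4 : 1 / 2 * L ^ 2 - 1 / 2 * L * gF (IZ χ.primitiveCharacter ((max 1 ⌈T₀⌉₊ : ℕ) : ℝ) (ε₁ / Real.log χ.conductor)) -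
          ε / 40 * L ^ 2 ≤ (1 / 2 - ε / 10) * L ^ 2 := hg.trans hχP
      have h5 : (ε / 10 - ε / 40) * L * L ≤ 1 / 2 * gF (IZ χ.primitiveCharacter ((max 1 ⌈T₀⌉₊ : ℕ) : ℝ) (ε₁ / Real.log χ.conductor)) * L := by
        nlinarith
      have h6 := le_of_mul_le_mul_right h5 hL0
      have h7 : 0 ≤ ε * L := by positivity
      linarith
    · have h4 := hS₂ χ hχS2 L s hL0 hs1 (by
        have e : (3 / 2 - 1 / 4 : ℝ) = 5 / 4 := by norm_num
        rw [e]
        exact hs2)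
      have h5 := TB_eq_BE χ L s (by linarith)
      have h6 := BE_split (fun x => ‖psiC χ x‖ ^ 2) L s hL0.le hs1
        (Pool.Agent.EM.integrable_psiC_sq_window χ 1 (Real.exp (s + L)) le_rfl)
      have h7 := NE_eq_En χ hq3
      rw [← hLdef] at h7
      have h8 : L * En χ q ≤ L * ((1 / 2 - ε / 10) * L ^ 2) := mul_le_mul_of_nonneg_left hχP hL0.le
      have h9 : 0 ≤ ε * L ^ 3 := by positivity
      have e1 : L ^ 2 * L = L ^ 3 := by ring
      have e2 : L * L ^ 2 = L ^ 3 := by ring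
      have e3 : L * ((1 / 2 - ε / 10) * L ^ 2) = (1 / 2 - ε / 10) * L ^ 3 := by ring
      rw [e1, e2] at h4
      rw [e3] at h8
      linarith

end Pool.Agent.SE
end

section

set_option autoImplicit false

/-! Task E2: every scale `X ≥ q`. -/

namespace Pool.Agent.SE

open Complex MeasureTheory
open Pool.Agent.SK Pool.Agent.SD Pool.Agent.SW
open Pool.Agent.EM (psiC V integrable_psiC_sq_window integrable_V_window)
open Pool.Agent.SO (prim NN pt pz MM kw)

/-- The lower end `max(1, X/Q)` of the window. -/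
noncomputable def lo (q : ℕ) (U : ℝ) : ℝ := max 1 (Real.exp (U - 1000 * Real.log (q * U)))

/-- The upper end `XQ` of the window. -/
noncomputable def up (q : ℕ) (U : ℝ) : ℝ := Real.exp (U + 1000 * Real.log (q * U))

/-- `log U ≤ (log q)^(5/4)`-type growth: `4001 L ≤ L^(5/4)` and `log (4000 L) ≤ L` for large `L`. -/
theorem E2_grow : ∃ L₀ : ℝ, ∀ L : ℝ, L₀ ≤ L → 4001 * L ≤ L ^ (5 / 4 : ℝ) ∧ Real.log (4000 * L) ≤ L := by
  refine ⟨4001 ^ 4, fun L hL => ?_⟩
  have hL0 : 0 < L := by linarith [(by norm_num : (0 : ℝ) < 4001 ^ 4)]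
  constructor
  · have h1 : L ^ (5 / 4 : ℝ) = L ^ (1 / 4 : ℝ) * L := by
      nth_rewrite 3 [← Real.rpow_one L]
      rw [← Real.rpow_add hL0]
      norm_num
    have h2 : (4001 : ℝ) ≤ L ^ (1 / 4 : ℝ) := by
      have h3 : (4001 : ℝ) = ((4001 : ℝ) ^ 4) ^ (1 / 4 : ℝ) := by
        rw [← Real.rpow_natCast, ← Real.rpow_mul (by norm_num)]
        norm_num
      rw [h3]
      exact Real.rpow_le_rpow (by positivity) hL (by norm_num)
    rw [h1]
    exact mul_le_mul_of_nonneg_right h2 hL0.le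
  · have h1 : Real.log (4000 * L) = Real.log 4000 + Real.log L := Real.log_mul (by norm_num) hL0.ne'
    have h2 : Real.log L ≤ L / 2 := by
      have h3 : Real.log L = 2 * Real.log (Real.sqrt L) := by
        rw [Real.log_sqrt hL0.le]
        ring
      have h4 : Real.log (Real.sqrt L) ≤ Real.sqrt L - 1 := Real.log_le_sub_one_of_pos (Real.sqrt_pos.2 hL0)
      have h5 : Real.sqrt L * Real.sqrt L = L := Real.mul_self_sqrt hL0.le
      nlinarith [sq_nonneg (Real.sqrt L - 2), Real.sqrt_nonneg L]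
    have h3 : Real.log (4000 : ℝ) ≤ 4000 - 1 := Real.log_le_sub_one_of_pos (by norm_num)
    have h4 : (4001 : ℝ) ^ 4 ≤ L := hL
    have h5 : (8000 : ℝ) ≤ 4001 ^ 4 := by norm_num
    linarith

/-- The window of EveryWindow is contained in the window. -/
theorem E2_near (q : ℕ) [NeZero q] (hq : 3 ≤ q) (χ : DirichletCharacter ℂ q) (c U : ℝ) (hc : 0 < c) (hU : Real.log q ≤ U)
    (hU2 : U ≤ 4000 * Real.log q) (hL : 1 ≤ Real.log q) (hl : Real.log (4000 * Real.log q) ≤ Real.log q)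
    (h : c * Real.log q ^ 3 ≤ FE (fun x => ‖psiC χ x‖ ^ 2) (Real.log q) U) :
    c / 2000 * Real.log q * (1000 * Real.log (q * U)) ≤ ∫ x in Set.Ioc (lo q U) (up q U), ‖psiC χ x‖ ^ 2 / x ^ 2 := by
  have h3 : (3 : ℝ) ≤ q := by exact_mod_cast hq
  have hq0 : (0 : ℝ) < q := by linarith
  have hU0 : 0 < U := by linarith
  have e1 : Real.log (q * U) = Real.log q + Real.log U := Real.log_mul hq0.ne' hU0.ne'
  have h4 : Real.log U ≤ Real.log q := (Real.log_le_log hU0 hU2).trans hl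
  have h5 : 0 ≤ Real.log U := Real.log_nonneg (by linarith)
  set L := Real.log q with hLdef
  have hL0 : 0 < L := by linarith
  have hb1 : up q U = Real.exp (U + 1000 * Real.log (q * U)) := rfl
  have ha1 : lo q U ≤ Real.exp (U - L) := by
    unfold lo
    refine max_le (Real.one_le_exp (by linarith)) (Real.exp_le_exp.2 ?_)
    rw [e1]
    linarith
  have hlo : 1 ≤ lo q U := le_max_left _ _
  have hex1 : 1 ≤ Real.exp (U - L) := Real.one_le_exp (by linarith)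
  have iA := integrable_psiC_sq_window χ (lo q U) (up q U) hlo
  have iB := integrable_psiC_sq_window χ (Real.exp (U - L)) (Real.exp (U + L)) hex1
  have h6 : FE (fun x => ‖psiC χ x‖ ^ 2) L U ≤
      L * ∫ x in Set.Ioc (Real.exp (U - L)) (Real.exp (U + L)), ‖psiC χ x‖ ^ 2 / x ^ 2 := by
    unfold FE
    rw [← integral_const_mul]
    refine setIntegral_mono_on ?_ (iB.const_mul _) measurableSet_Ioc fun x hx => ?_
    · refine Integrable.bdd_mul (c := L) iB ?_ ?_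
      · have : Measurable (fun x : ℝ => L - |Real.log x - U|) := by fun_prop
        exact this.aestronglyMeasurable
      · refine (ae_restrict_iff' measurableSet_Ioc).mpr (Filter.Eventually.of_forall fun x hx => ?_)
        have hx0 : 0 < x := (Real.exp_pos _).trans hx.1
        have h7 : |Real.log x - U| ≤ L := by
          rw [abs_le]
          have h8 := (Real.lt_log_iff_exp_lt hx0).2 hx.1
          have h9 := (Real.log_le_iff_le_exp hx0).2 hx.2
          constructor <;> linarith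
        rw [Real.norm_of_nonneg (by linarith)]
        linarith [abs_nonneg (Real.log x - U)]
    · refine mul_le_mul_of_nonneg_right ?_ (by positivity)
      linarith [abs_nonneg (Real.log x - U)]
  have h7 : ∫ x in Set.Ioc (Real.exp (U - L)) (Real.exp (U + L)), ‖psiC χ x‖ ^ 2 / x ^ 2 ≤
      ∫ x in Set.Ioc (lo q U) (up q U), ‖psiC χ x‖ ^ 2 / x ^ 2 := by
    have hg0 : ∀ x : ℝ, 0 ≤ ‖psiC χ x‖ ^ 2 / x ^ 2 := fun x => by positivity
    refine setIntegral_mono_set iA (Filter.Eventually.of_forall hg0) ?_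
    refine (Set.Ioc_subset_Ioc ha1 ?_).eventuallyLE
    rw [hb1]
    refine Real.exp_le_exp.2 ?_
    rw [e1]
    linarith
  have h8 : c * L ^ 2 * L ≤ (∫ x in Set.Ioc (lo q U) (up q U), ‖psiC χ x‖ ^ 2 / x ^ 2) * L := by
    have e3 : c * L ^ 2 * L = c * L ^ 3 := by ring
    rw [e3]
    calc c * L ^ 3 ≤ _ := h
      _ ≤ _ := h6
      _ ≤ L * ∫ x in Set.Ioc (lo q U) (up q U), ‖psiC χ x‖ ^ 2 / x ^ 2 := mul_le_mul_of_nonneg_left h7 hL0.le
      _ = _ := mul_comm _ _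
  have h9 := le_of_mul_le_mul_right h8 hL0
  refine le_trans ?_ h9
  rw [e1]
  have h10 : c / 2000 * L * (1000 * (L + Real.log U)) ≤ c / 2000 * L * (1000 * (L + L)) := by
    have : 0 ≤ c / 2000 * L := by positivity
    exact mul_le_mul_of_nonneg_left (by linarith) this
  refine h10.trans (le_of_eq ?_)
  ring

/-- E2. ONE set of two thirds of the characters, every `X ≥ q` (`U = log X`). -/
theorem scale_all (ε : ℝ) (hε : 0 < ε) (hε1 : ε ≤ 1) : ∃ c : ℝ, 0 < c ∧ ∃ q₀ : ℕ, 3 ≤ q₀ ∧ ∀ (q : ℕ) [NeZero q], q₀ ≤ q →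
    ∃ S : Finset (DirichletCharacter ℂ q), (2 / 3 - ε) * (q.totient : ℝ) ≤ (S.card : ℝ) ∧ (∀ χ ∈ S, χ ≠ 1) ∧
      ∀ χ ∈ S, ∀ U : ℝ, Real.log q ≤ U →
        c * Real.log q * (1000 * Real.log (q * U)) ≤ ∫ x in Set.Ioc (lo q U) (up q U), ‖psiC χ x‖ ^ 2 / x ^ 2 := by
  classical
  obtain ⟨T, ε₁, hT, hε₁, hε₁1, q₁, hq₁, hshare⟩ := both_share (ε / 2) (by positivity) (by linarith)
  obtain ⟨m, hm, hfew⟩ := few_bad_cells
  have hc₁ : 0 < ε / 20 := by positivity
  have hT0 : (0 : ℝ) ≤ (T : ℝ) := Nat.cast_nonneg _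
  obtain ⟨b, R, K, hb, hR, hK, r₁, hr₁, hcells⟩ := hfew T (ε / 20 * ε₁ / (100 * (T + 1))) (ε / 8)
    (by positivity) (by positivity)
  obtain ⟨c, hc, r₂, hr₂, hwin⟩ := prim_window T hT ε₁ (ε / 20) hε₁ hε₁1 hc₁ (by linarith) b R K hb hR hK m hm
  obtain ⟨C, hC, hind⟩ := window_induced
  obtain ⟨q₂, hq₂, htr⟩ := transfer
    (fun r ψ => ∃ _ : NeZero r, ε / 20 * ε₁ / (100 * (T + 1)) * (nj r T : ℝ) <
      (((Finset.range (nj r T)).filter (fun j => ¬ gd r b R K m ψ (tj r T j))).card : ℝ))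
    (ε / 2) (1 / 10) (by positivity) (by norm_num) (by norm_num)
    ⟨r₁, fun r _ hr S hS hbad => by
      have h1 := hcells r hr S hS fun χ hχ => by
        obtain ⟨_, h2⟩ := hbad χ hχ
        exact h2
      linarith⟩
  obtain ⟨q₃, hq₃⟩ := Pool.Agent.SO.A3_large (9 / 10) r₂ (by norm_num)
  obtain ⟨U₀, hU₀⟩ := D6_grow
  obtain ⟨L₀, hL₀⟩ := E2_grow
  obtain ⟨q₄, hq₄⟩ := D6_logq (max (max 1 (U₀ / 4000)) (max L₀ ((C / (125 * c)) ^ 2)))
  have hc6 : 0 < min (c / 4) (ε / 40000) := lt_min (by positivity) (by positivity)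
  refine ⟨min (c / 4) (ε / 40000), hc6, max (max q₁ q₂) (max q₃ q₄), hq₁.trans ((le_max_left _ _).trans (le_max_left _ _)),
    fun q _ hq => ?_⟩
  have hqq1 : q₁ ≤ q := by omega
  have hqq2 : q₂ ≤ q := by omega
  have hqq3 : q₃ ≤ q := by omega
  have hqq4 : q₄ ≤ q := by omega
  have hq3 : 3 ≤ q := hq₁.trans hqq1
  have hq3r : (3 : ℝ) ≤ q := by exact_mod_cast hq3
  have hq0 : (0 : ℝ) < q := by linarith
  obtain ⟨S₁, hS₁c, hS₁1, hS₁⟩ := hshare q hqq1
  obtain ⟨S₂, hS₂c, -, hS₂⟩ := htr q hqq2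
  have hlogs := hq₄ q hqq4
  have hL1 : 1 ≤ Real.log q := (le_max_left _ _).trans ((le_max_left _ _).trans hlogs)
  have hLU : U₀ / 4000 ≤ Real.log q := (le_max_right _ _).trans ((le_max_left _ _).trans hlogs)
  have hLC : (C / (125 * c)) ^ 2 ≤ Real.log q := (le_max_right _ _).trans ((le_max_right _ _).trans hlogs)
  obtain ⟨hgr1, hgr2⟩ := hL₀ (Real.log q) ((le_max_left _ _).trans ((le_max_right _ _).trans hlogs))
  have hcard : (Fintype.card (DirichletCharacter ℂ q) : ℝ) = (q.totient : ℝ) := by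
    rw [← Nat.card_eq_fintype_card, DirichletCharacter.card_eq_totient_of_hasEnoughRootsOfUnity]
  refine ⟨S₁ ∩ S₂, ?_, fun χ hχ => hS₁1 χ (Finset.mem_inter.1 hχ).1, fun χ hχ U hU => ?_⟩
  · have h1 : ((S₁ ∪ S₂).card : ℝ) + ((S₁ ∩ S₂).card : ℝ) = (S₁.card : ℝ) + (S₂.card : ℝ) := by
      exact_mod_cast Finset.card_union_add_card_inter S₁ S₂
    have h2 : ((S₁ ∪ S₂).card : ℝ) ≤ (q.totient : ℝ) := by
      rw [← hcard]
      exact_mod_cast Finset.card_le_univ (S₁ ∪ S₂)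
    linarith
  · have hU1 : 1 ≤ U := by linarith
    have hlqU : 0 ≤ Real.log (q * U) := Real.log_nonneg (by nlinarith)
    obtain ⟨hχ1, hχ2⟩ := Finset.mem_inter.1 hχ
    obtain ⟨hr1, ⟨hne, hg⟩, hfe⟩ := hS₁ χ hχ1
    rcases le_total U (4000 * Real.log q) with hUl | hUl
    · have h1 := hfe U hU (by linarith)
      have h2 := E2_near q hq3 χ (ε / 2 / 10) U (by positivity) hU hUl hL1 hgr2 h1
      refine le_trans ?_ h2
      have h3 : min (c / 4) (ε / 40000) ≤ ε / 2 / 10 / 2000 := (min_le_right _ _).trans (by linarith)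
      have h4 : 0 ≤ Real.log q := by linarith
      gcongr
    have hUU₀ : U₀ ≤ U := by linarith
    have hgr := hU₀ U hUU₀
    have hUW : 2000 * Real.log (q * U) ≤ U := by
      rw [Real.log_mul hq0.ne' (by linarith)]
      linarith
    obtain ⟨-, hnb⟩ := hS₂ χ hχ2
    have hrle : χ.conductor ≤ q := Nat.le_of_dvd (by omega) χ.conductor_dvd_level
    have hrler : (χ.conductor : ℝ) ≤ q := by exact_mod_cast hrle
    have hrpos : (0 : ℝ) < (χ.conductor : ℝ) := lt_of_lt_of_le (Real.rpow_pos_of_pos hq0 _) hr1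
    have hlrq : Real.log χ.conductor ≤ Real.log q := Real.log_le_log hrpos hrler
    have hrr₂ : r₂ ≤ χ.conductor := by
      have h5 : (r₂ : ℝ) ≤ (χ.conductor : ℝ) := (hq₃ q hqq3).trans hr1
      exact_mod_cast h5
    have hprim : χ.primitiveCharacter ∈ prim χ.conductor := by
      rw [Pool.Agent.SO.A3_mem_prim]
      exact χ.primitiveCharacter_isPrimitive
    have hg' : ε / 20 * Real.log χ.conductor ≤
        gF (IZ χ.primitiveCharacter (T : ℝ) (ε₁ / Real.log χ.conductor)) := by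
      have h6 : ε / 20 * Real.log χ.conductor ≤ ε / 20 * Real.log q :=
        mul_le_mul_of_nonneg_left hlrq hc₁.le
      have h7 : ε / 2 / 10 * Real.log q = ε / 20 * Real.log q := by ring
      linarith
    have hb' : (((Finset.range (nj χ.conductor T)).filter
        (fun j => ¬ gd χ.conductor b R K m χ.primitiveCharacter (tj χ.conductor T j))).card : ℝ) ≤
        ε / 20 * ε₁ / (100 * (T + 1)) * (nj χ.conductor T : ℝ) := by
      by_contra h8
      exact hnb ⟨hne, not_le.1 h8⟩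
    have hw := hwin χ.conductor hrr₂ χ.primitiveCharacter hprim hg' hb' U (by linarith)
    have h1 := D6_one c C hc hind q χ.conductor hq3 χ hr1 hrle U hU1 hL1 hLC hUW hw
    have e1 : lo q U = Real.exp (U - 1000 * Real.log (q * U)) := by
      unfold lo
      exact max_eq_right (Real.one_le_exp (by linarith))
    rw [e1]
    refine le_trans ?_ h1
    have h3 : min (c / 4) (ε / 40000) ≤ c / 4 := min_le_left _ _
    have h4 : 0 ≤ Real.log q := by linarith
    gcongr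

/-- E3. The variance. -/
theorem all_V : ∃ c : ℝ, 0 < c ∧ ∃ q₀ : ℕ, 3 ≤ q₀ ∧ ∀ q : ℕ, q₀ ≤ q → ∀ U : ℝ, Real.log q ≤ U →
        c * Real.log q * (1000 * Real.log (q * U)) ≤ ∫ x in Set.Ioc (lo q U) (up q U), V x q / x ^ 2 := by
  obtain ⟨c, hc, q₀, hq₀, h⟩ := scale_all (1 / 6) (by norm_num) (by norm_num)
  refine ⟨c / 2, by positivity, q₀, hq₀, fun q hq U hU => ?_⟩
  have hq3 : 3 ≤ q := hq₀.trans hq
  have : NeZero q := ⟨by omega⟩
  have hq3r : (3 : ℝ) ≤ q := by exact_mod_cast hq3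
  have hL1 : 1 ≤ Real.log q := by
    rw [Real.le_log_iff_exp_le (by linarith)]
    exact Real.exp_one_lt_d9.le.trans (by linarith)
  obtain ⟨S, hSc, hS1, hS⟩ := h q hq
  have hU1 : 1 ≤ U := by linarith
  have hlq : 0 ≤ Real.log (q * U) := by
    refine Real.log_nonneg ?_
    nlinarith
  have hX : 1 ≤ lo q U := le_max_left _ _
  have hφ : (0 : ℝ) < (q.totient : ℝ) := by
    exact_mod_cast Nat.totient_pos.2 (by omega)
  have iV := integrable_V_window q (lo q U) (up q U) hX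
  have iχ : ∀ χ ∈ S, IntegrableOn (fun x => ‖psiC χ x‖ ^ 2 / x ^ 2)
      (Set.Ioc (lo q U) (up q U)) := fun χ _ =>
    integrable_psiC_sq_window χ (lo q U) (up q U) hX
  have hup : ∑ χ ∈ S, ∫ x in Set.Ioc (lo q U) (up q U), ‖psiC χ x‖ ^ 2 / x ^ 2 ≤
      (q.totient : ℝ) * ∫ x in Set.Ioc (lo q U) (up q U), V x q / x ^ 2 := by
    rw [← integral_finsetSum _ iχ, ← integral_const_mul]
    refine setIntegral_mono_on (integrable_finsetSum _ iχ) (iV.const_mul _) measurableSet_Ioc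
      fun x hx => ?_
    have hx0 : 0 < x := by linarith [hx.1]
    have h2 := Pool.Agent.EM.variance_upper q x S hS1
    rw [← Finset.sum_div, ← mul_div_assoc]
    exact div_le_div_of_nonneg_right h2 (by positivity)
  have hlow : (S.card : ℝ) * (c * Real.log q * (1000 * Real.log (q * U))) ≤
      ∑ χ ∈ S, ∫ x in Set.Ioc (lo q U) (up q U), ‖psiC χ x‖ ^ 2 / x ^ 2 := by
    rw [← nsmul_eq_mul]
    exact Finset.card_nsmul_le_sum _ _ _ fun χ hχ => hS χ hχ U hU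
  have h3 : 0 ≤ c * Real.log q * (1000 * Real.log (q * U)) := by
    have : 0 ≤ Real.log q := by linarith
    positivity
  have h4 : 1 / 2 * (q.totient : ℝ) * (c * Real.log q * (1000 * Real.log (q * U))) ≤
      (S.card : ℝ) * (c * Real.log q * (1000 * Real.log (q * U))) := by
    refine mul_le_mul_of_nonneg_right ?_ h3
    linarith
  have h5 : (q.totient : ℝ) * (c / 2 * Real.log q * (1000 * Real.log (q * U))) ≤
      (q.totient : ℝ) * ∫ x in Set.Ioc (lo q U) (up q U), V x q / x ^ 2 := by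
    have h6 : (q.totient : ℝ) * (c / 2 * Real.log q * (1000 * Real.log (q * U))) =
        1 / 2 * (q.totient : ℝ) * (c * Real.log q * (1000 * Real.log (q * U))) := by
      ring
    linarith
  exact le_of_mul_le_mul_left h5 hφ

/-- E4. Two thirds are more than one half: the race variance of EVERY ratio. -/
theorem all_Vc : ∃ c : ℝ, 0 < c ∧ ∃ q₀ : ℕ, 3 ≤ q₀ ∧ ∀ (q : ℕ) [NeZero q], q₀ ≤ q → ∀ g : ℕ, Nat.Coprime g q → ¬ g % q = 1 % q →
      ∀ U : ℝ, Real.log q ≤ U →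
        c * Real.log q * (1000 * Real.log (q * U)) ≤
          ∫ x in Set.Ioc (lo q U) (up q U), Vc x q g / x ^ 2 := by
  classical
  obtain ⟨c, hc, q₀, hq₀, H⟩ := scale_all (1 / 12) (by norm_num) (by norm_num)
  refine ⟨c / 6, by positivity, q₀, hq₀, fun q _ hq g hg hg1 U hU => ?_⟩
  obtain ⟨S, hS1, hS2, hS3⟩ := H q hq
  have hS4 := fun χ hχ => hS3 χ hχ U hU
  have hq3 : 3 ≤ q := hq₀.trans hq
  have h3 : (3 : ℝ) ≤ q := by exact_mod_cast hq3
  have hφ : (0 : ℝ) < (q.totient : ℝ) := by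
    exact_mod_cast Nat.totient_pos.mpr (by omega)
  have hlq : 0 < Real.log q := Real.log_pos (by linarith)
  have hU0 : 0 < U := by linarith
  set a := lo q U with ha
  set b := up q U with hb
  have ha1 : 1 ≤ a := le_max_left _ _
  have hlqU : 0 ≤ Real.log (q * U) := by
    have h4 : 1 ≤ Real.log q := by
      rw [Real.le_log_iff_exp_le (by linarith)]
      exact Real.exp_one_lt_d9.le.trans (by linarith)
    exact Real.log_nonneg (by nlinarith)
  set E : ℝ := c * Real.log q * (1000 * Real.log (q * U)) with hE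
  have hE0 : 0 ≤ E := by positivity
  have hI : ∀ χ : DirichletCharacter ℂ q, IntegrableOn (fun x => om g χ * (‖psiC χ x‖ ^ 2 / x ^ 2)) (Set.Ioc a b) :=
    fun χ => (integrable_psiC_sq_window χ a b ha1).const_mul _
  have h1 : (q.totient : ℝ) * ∫ x in Set.Ioc a b, Vc x q g / x ^ 2 =
      ∑ χ : DirichletCharacter ℂ q, om g χ * ∫ x in Set.Ioc a b, ‖psiC χ x‖ ^ 2 / x ^ 2 := by
    rw [← integral_const_mul]
    have e : ∀ x : ℝ, (q.totient : ℝ) * (Vc x q g / x ^ 2) = ∑ χ : DirichletCharacter ℂ q, om g χ * (‖psiC χ x‖ ^ 2 / x ^ 2) := by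
      intro x
      rw [← mul_div_assoc, ← Vc_eq q g hg x, Finset.sum_div]
      exact Finset.sum_congr rfl fun χ _ => by ring
    simp_rw [e]
    rw [integral_finsetSum _ fun χ _ => hI χ]
    exact Finset.sum_congr rfl fun χ _ => integral_const_mul _ _
  have hnn : ∀ χ : DirichletCharacter ℂ q, 0 ≤ ∫ x in Set.Ioc a b, ‖psiC χ x‖ ^ 2 / x ^ 2 := fun χ =>
    setIntegral_nonneg measurableSet_Ioc fun x _ => by positivity
  have h2 : (∑ χ ∈ S, om g χ) * E ≤ (q.totient : ℝ) * ∫ x in Set.Ioc a b, Vc x q g / x ^ 2 := by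
    rw [h1, Finset.sum_mul]
    calc ∑ χ ∈ S, om g χ * E ≤ ∑ χ ∈ S, om g χ * ∫ x in Set.Ioc a b, ‖psiC χ x‖ ^ 2 / x ^ 2 :=
          Finset.sum_le_sum fun χ hχ => mul_le_mul_of_nonneg_left (hS4 χ hχ) (om_nonneg g χ)
      _ ≤ _ := Finset.sum_le_univ_sum_of_nonneg fun χ => mul_nonneg (om_nonneg g χ) (hnn χ)
  have hcard : ((Finset.univ : Finset (DirichletCharacter ℂ q)).card : ℝ) = (q.totient : ℝ) := by
    rw [Finset.card_univ, ← Nat.card_eq_fintype_card, DirichletCharacter.card_eq_totient_of_hasEnoughRootsOfUnity]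
  have h3' : (q.totient : ℝ) / 6 ≤ ∑ χ ∈ S, om g χ := by
    have h4 := om_sum q g hg hg1
    have h5 := Finset.sum_add_sum_compl S (fun χ => om g χ)
    have h6 : ∑ χ ∈ Sᶜ, om g χ ≤ 2 * (Sᶜ.card : ℝ) := by
      calc ∑ χ ∈ Sᶜ, om g χ ≤ ∑ _χ ∈ Sᶜ, (2 : ℝ) := Finset.sum_le_sum fun χ _ => om_le g χ
        _ = 2 * (Sᶜ.card : ℝ) := by rw [Finset.sum_const, nsmul_eq_mul, mul_comm]
    have h7 : (Sᶜ.card : ℝ) = (q.totient : ℝ) - (S.card : ℝ) := by
      rw [Finset.card_compl, Nat.cast_sub (Finset.card_le_univ S), ← Finset.card_univ, hcard]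
    rw [h4] at h5
    linarith
  have h8 : (q.totient : ℝ) / 6 * E ≤ (q.totient : ℝ) * ∫ x in Set.Ioc a b, Vc x q g / x ^ 2 :=
    (mul_le_mul_of_nonneg_right h3' hE0).trans h2
  have h9 : (q.totient : ℝ) * (E / 6) ≤ (q.totient : ℝ) * ∫ x in Set.Ioc a b, Vc x q g / x ^ 2 := by
    refine le_trans (le_of_eq ?_) h8
    ring
  have h10 := le_of_mul_le_mul_left h9 hφ
  refine le_trans (le_of_eq ?_) h10
  rw [hE]
  ring

end Pool.Agent.SE
end
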