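import Pool.Agent.Lib.MP_9cfc0a_nt.Mg.G058
import Pool.Agent.Lib.MP_9cfc0a_nt.Mg.G049
import Pool.Agent.Lib.MP_9cfc0a_nt.SF.Defs
import Pool.Agent.Lib.MP_9cfc0a_nt.SE.A4
import Pool.Agent.Lib.MP_9cfc0a_nt.Mg.G051

section

set_option autoImplicit false

/-! Task F5: the pairing as a vertical integral. -/

namespace Pool.Agent.SF

open Complex MeasureTheory
open Pool.Agent.SK Pool.Agent.SD Pool.Agent.SE
open Pool.Agent.SO (prim NN pt pz MM kw)

theorem F5_cont (r : ℕ) [NeZero r] (hr : 2 ≤ r) (χ : DirichletCharacter ℂ r) (hχ : χ ∈ prim r) (m : ℕ) (B U γ : ℝ) :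
    Continuous (fun t : ℝ => hb χ m B U γ (1 + (t : ℂ) * I)) :=
  (hb_diff r hr χ hχ m B U γ).continuous.comp (by fun_prop)

theorem F5_hb_int (r : ℕ) [NeZero r] (hr : 2 ≤ r) (χ : DirichletCharacter ℂ r) (hχ : χ ∈ prim r) (m : ℕ) (B U γ : ℝ)
    (hσ : 0 < sg r U) (hv : 0 ≤ vl r m U) (h0 : χ.LFunction (1 / 2 + (γ : ℂ) * I) = 0) :
    Integrable (fun t : ℝ => hb χ m B U γ (1 + (t : ℂ) * I)) := by
  obtain ⟨K, η, hK, hη, hb⟩ := hb_strip r hr χ hχ m B U γ hσ hv h0 1 1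
  refine Integrable.mono' ((integrable_exp_neg_mul_sq hη).const_mul K)
    (F5_cont r hr χ hχ m B U γ).aestronglyMeasurable (Filter.Eventually.of_forall fun t => ?_)
  have h := hb (1 + (t : ℂ) * I) (by simp) (by simp)
  have e : (1 + (t : ℂ) * I).im = t := by simp
  rw [e] at h
  simpa [neg_mul] using h

theorem F5_hkb (r : ℕ) [NeZero r] (hr : 2 ≤ r) (χ : DirichletCharacter ℂ r) (hχ : χ ∈ prim r) (m : ℕ) (B U γ : ℝ)
    (hσ : 0 < sg r U) (hv : 0 ≤ vl r m U) (h0 : χ.LFunction (1 / 2 + (γ : ℂ) * I) = 0) (v : ℝ) :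
    hkb χ m B U γ v = (1 / (2 * Real.pi) : ℂ) *
      ∫ t : ℝ, hb χ m B U γ (1 + (t : ℂ) * I) * Complex.exp ((1 + (t : ℂ) * I) * v) := by
  have h := hkb_line r hr χ hχ m B U γ hσ hv h0 1 v
  simpa using h

theorem F5_hkb_le (r : ℕ) [NeZero r] (hr : 2 ≤ r) (χ : DirichletCharacter ℂ r) (hχ : χ ∈ prim r) (m : ℕ) (B U γ : ℝ)
    (hσ : 0 < sg r U) (hv : 0 ≤ vl r m U) (h0 : χ.LFunction (1 / 2 + (γ : ℂ) * I) = 0) :
    ∃ C : ℝ, 0 ≤ C ∧ ∀ v : ℝ, ‖hkb χ m B U γ v‖ ≤ C * Real.exp v := by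
  have hpi := Real.pi_pos
  refine ⟨1 / (2 * Real.pi) * ∫ t : ℝ, ‖hb χ m B U γ (1 + (t : ℂ) * I)‖,
    mul_nonneg (by positivity) (integral_nonneg fun _ => norm_nonneg _), fun v => ?_⟩
  rw [F5_hkb r hr χ hχ m B U γ hσ hv h0 v, norm_mul, A7_pi, mul_assoc]
  refine mul_le_mul_of_nonneg_left ?_ (by positivity)
  refine (norm_integral_le_integral_norm _).trans (le_of_eq ?_)
  rw [← integral_mul_const]
  refine integral_congr_ae (Filter.Eventually.of_forall fun t => ?_)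
  have e := A7_norm_exp 1 t v
  simp only [Complex.ofReal_one, one_mul] at e
  show ‖hb χ m B U γ (1 + (t : ℂ) * I) * Complex.exp ((1 + (t : ℂ) * I) * v)‖ = _
  rw [norm_mul, e]

/-- A7a. One prime power. PROOF. `∫_{v ≤ a} exp(v/2) hk v dv` with `hk_line` (`c = 1`) and Fubini
(`‖hh(1+it)‖` integrable by `hh_strip`/`shift_gauss`, `exp(3v/2)` integrable on `(-∞, a]`):
`∫_{v ≤ a} exp(v/2) exp((1+it)v) dv = exp((3/2+it)a)/(3/2+it)`. -/
theorem F5_pair_one (r : ℕ) [NeZero r] (hr : 2 ≤ r) (χ : DirichletCharacter ℂ r) (hχ : χ ∈ prim r) (m : ℕ) (B U γ : ℝ)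
    (hσ : 0 < sg r U) (hv : 0 ≤ vl r m U) (h0 : χ.LFunction (1 / 2 + (γ : ℂ) * I) = 0) (a : ℝ) :
    IntegrableOn (fun v : ℝ => Complex.exp ((v : ℂ) / 2) * hkb χ m B U γ v) (Set.Iic a) ∧
    ∫ v in Set.Iic a, Complex.exp ((v : ℂ) / 2) * hkb χ m B U γ v =
      (1 / (2 * Real.pi) : ℂ) * ∫ t : ℝ, hb χ m B U γ (1 + (t : ℂ) * I) * Complex.exp ((3 / 2 + (t : ℂ) * I) * a) /
        (3 / 2 + (t : ℂ) * I) := by
  have hHint := F5_hb_int r hr χ hχ m B U γ hσ hv h0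
  have hHc := F5_cont r hr χ hχ m B U γ
  have hE : Integrable (fun v : ℝ => Real.exp (3 / 2 * v)) (volume.restrict (Set.Iic a)) :=
    integrableOn_exp_mul_Iic (by norm_num) a
  have hnorm : ∀ v t : ℝ, ‖Complex.exp ((3 / 2 + (t : ℂ) * I) * v)‖ = Real.exp (3 / 2 * v) := by
    intro v t
    have e := A7_norm_exp (3 / 2) t v
    push_cast at e
    exact e
  have hprod : Integrable (Function.uncurry fun (v t : ℝ) => hb χ m B U γ (1 + (t : ℂ) * I) *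
      Complex.exp ((3 / 2 + (t : ℂ) * I) * v)) ((volume.restrict (Set.Iic a)).prod volume) := by
    refine Integrable.mono' (g := fun p : ℝ × ℝ => Real.exp (3 / 2 * p.1) * ‖hb χ m B U γ (1 + (p.2 : ℂ) * I)‖)
      (hE.mul_prod hHint.norm) ?_ ?_
    · refine Continuous.aestronglyMeasurable ?_
      have h1 : Continuous fun p : ℝ × ℝ => hb χ m B U γ (1 + (p.2 : ℂ) * I) := hHc.comp continuous_snd
      have h2 : Continuous fun p : ℝ × ℝ => Complex.exp ((3 / 2 + (p.2 : ℂ) * I) * p.1) := by fun_prop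
      exact h1.mul h2
    · refine Filter.Eventually.of_forall fun p => ?_
      show ‖hb χ m B U γ (1 + (p.2 : ℂ) * I) * Complex.exp ((3 / 2 + (p.2 : ℂ) * I) * p.1)‖ ≤ _
      rw [norm_mul, hnorm, mul_comm]
  have e1 : ∀ v : ℝ, Complex.exp ((v : ℂ) / 2) * hkb χ m B U γ v = (1 / (2 * Real.pi) : ℂ) *
      ∫ t : ℝ, hb χ m B U γ (1 + (t : ℂ) * I) * Complex.exp ((3 / 2 + (t : ℂ) * I) * v) := by
    intro v
    rw [F5_hkb r hr χ hχ m B U γ hσ hv h0 v, mul_left_comm, ← integral_const_mul]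
    congr 1
    refine integral_congr_ae (Filter.Eventually.of_forall fun t => ?_)
    show Complex.exp ((v : ℂ) / 2) * (hb χ m B U γ (1 + (t : ℂ) * I) * Complex.exp ((1 + (t : ℂ) * I) * v)) = _
    rw [mul_left_comm, ← Complex.exp_add]
    congr 2
    ring
  refine ⟨?_, ?_⟩
  · unfold IntegrableOn
    simp_rw [e1]
    exact hprod.integral_prod_left.const_mul _
  · simp_rw [e1]
    rw [integral_const_mul, integral_integral_swap hprod]
    congr 1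
    refine integral_congr_ae (Filter.Eventually.of_forall fun t => ?_)
    show ∫ v in Set.Iic a, hb χ m B U γ (1 + (t : ℂ) * I) * Complex.exp ((3 / 2 + (t : ℂ) * I) * v) = _
    rw [integral_const_mul, integral_exp_mul_complex_Iic (by simp) a]
    ring

/-- A7b. PROOF. `ff χ (U - v) = exp(-(U-v)/2) ∑_{n ≥ 1, log n ≤ U - v} Λ(n) χ(n)` (`psiC` is a sum over `n ≤ exp(U - v)`): a sum over `n` of
`Λ(n) χ(n) exp(-U/2) exp(v/2) 1_{v ≤ U - log n}`. `integral_tsum`/`hasSum_integral_of_summable_integral_norm` with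
`∫_{v ≤ U - log n} exp(v/2) ‖hk v‖ dv ≤ C n^(-3/2)` (`‖hk v‖ ≤ C exp v` by `hk_line` with `c = 1`), `∑ Λ(n) n^(-3/2) < ∞`; `F5_pair_one` with
`a = U - log n`: `exp(-U/2) exp((3/2+it)(U - log n)) = exp((1+it)U) n^(-(3/2+it))`; then exchange sum and `t`-integral again,
`∑ Λ(n)χ(n) n^(-s) = -L'(s)/L(s)` at `s = 3/2 + it` (Mathlib: `DirichletCharacter.LSeries_..vonMangoldt..`/`deriv_LFunction_div..`, see the uses in the library,
e.g. `grep -rn LSeries_twist_vonMangoldt_eq`), `L(s) ≠ 0`, and `hh_of_ne` at `z = 1 + it`: the integrand becomes `Phb χ m B U γ (1 + it)`. -/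
theorem pair_lineb (r : ℕ) [NeZero r] (hr : 2 ≤ r) (χ : DirichletCharacter ℂ r) (hχ : χ ∈ prim r) (m : ℕ) (B U γ : ℝ)
    (hσ : 0 < sg r U) (hv : 0 ≤ vl r m U) (h0 : χ.LFunction (1 / 2 + (γ : ℂ) * I) = 0) :
    ∫ v : ℝ, ff χ (U - v) * hkb χ m B U γ v = (1 / (2 * Real.pi) : ℂ) * ∫ t : ℝ, Phb χ m B U γ (1 + (t : ℂ) * I) := by
  have hpi := Real.pi_pos
  obtain ⟨C, hC, hle⟩ := F5_hkb_le r hr χ hχ m B U γ hσ hv h0
  have hHint := F5_hb_int r hr χ hχ m B U γ hσ hv h0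
  have hHc := F5_cont r hr χ hχ m B U γ
  -- the first exchange
  set F : ℕ → ℝ → ℂ := fun n => (Set.Iic (U - Real.log n)).indicator
    (fun v => A7_c χ n * ((Real.exp (-U / 2) : ℝ) : ℂ) * (Complex.exp ((v : ℂ) / 2) * hkb χ m B U γ v)) with hF
  have hFint : ∀ n, Integrable (F n) := by
    intro n
    have h := (F5_pair_one r hr χ hχ m B U γ hσ hv h0 (U - Real.log n)).1
    exact (integrable_indicator_iff measurableSet_Iic).mpr (Integrable.const_mul h _)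
  have hFI : ∀ n, ∫ v, F n v = A7_c χ n * ((Real.exp (-U / 2) : ℝ) : ℂ) * ((1 / (2 * Real.pi) : ℂ) *
      ∫ t : ℝ, hb χ m B U γ (1 + (t : ℂ) * I) * Complex.exp ((3 / 2 + (t : ℂ) * I) * ((U - Real.log n : ℝ) : ℂ)) /
        (3 / 2 + (t : ℂ) * I)) := by
    intro n
    rw [hF]
    show ∫ v, (Set.Iic (U - Real.log n)).indicator _ v = _
    rw [integral_indicator measurableSet_Iic, integral_const_mul,
      (F5_pair_one r hr χ hχ m B U γ hσ hv h0 (U - Real.log n)).2]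
  have hFn : ∀ n, ∫ v, ‖F n v‖ ≤ (Real.exp (-U / 2) * C * (2 / 3) * Real.exp (3 / 2 * U)) * A7_w n := by
    intro n
    have e1 : ∀ v, ‖F n v‖ = (Set.Iic (U - Real.log n)).indicator
        (fun v => ‖A7_c χ n‖ * Real.exp (-U / 2) * ‖Complex.exp ((v : ℂ) / 2) * hkb χ m B U γ v‖) v := by
      intro v
      rw [hF]
      show ‖(Set.Iic (U - Real.log n)).indicator _ v‖ = _
      rw [norm_indicator_eq_indicator_norm]
      congr 1
      funext v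
      rw [norm_mul, norm_mul, Complex.norm_real, Real.norm_of_nonneg (Real.exp_pos _).le]
    simp_rw [e1]
    rw [integral_indicator measurableSet_Iic, integral_const_mul]
    have hint := (F5_pair_one r hr χ hχ m B U γ hσ hv h0 (U - Real.log n)).1
    have h2 : ∫ v in Set.Iic (U - Real.log n), ‖Complex.exp ((v : ℂ) / 2) * hkb χ m B U γ v‖ ≤
        ∫ v in Set.Iic (U - Real.log n), C * Real.exp (3 / 2 * v) := by
      refine integral_mono hint.norm ((integrableOn_exp_mul_Iic (by norm_num) _).const_mul C) fun v => ?_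
      show ‖Complex.exp ((v : ℂ) / 2) * hkb χ m B U γ v‖ ≤ C * Real.exp (3 / 2 * v)
      have e3 : ‖Complex.exp ((v : ℂ) / 2)‖ = Real.exp (v / 2) := by
        rw [Complex.norm_exp]
        congr 1
        simp
      rw [norm_mul, e3]
      calc Real.exp (v / 2) * ‖hkb χ m B U γ v‖ ≤ Real.exp (v / 2) * (C * Real.exp v) :=
            mul_le_mul_of_nonneg_left (hle v) (Real.exp_pos _).le
        _ = C * Real.exp (3 / 2 * v) := by
            rw [mul_left_comm, ← Real.exp_add]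
            congr 2
            ring
    rw [integral_const_mul, integral_exp_mul_Iic (by norm_num)] at h2
    have h3 : 0 ≤ ‖A7_c χ n‖ * Real.exp (-U / 2) := by positivity
    have h4 := A7_c_exp χ U n
    calc ‖A7_c χ n‖ * Real.exp (-U / 2) * ∫ v in Set.Iic (U - Real.log n), ‖Complex.exp ((v : ℂ) / 2) * hkb χ m B U γ v‖
        ≤ ‖A7_c χ n‖ * Real.exp (-U / 2) * (C * (Real.exp (3 / 2 * (U - Real.log n)) / (3 / 2))) :=
          mul_le_mul_of_nonneg_left h2 h3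
      _ = Real.exp (-U / 2) * C * (2 / 3) * (‖A7_c χ n‖ * Real.exp (3 / 2 * (U - Real.log n))) := by ring
      _ ≤ Real.exp (-U / 2) * C * (2 / 3) * (Real.exp (3 / 2 * U) * A7_w n) :=
          mul_le_mul_of_nonneg_left h4 (by positivity)
      _ = _ := by ring
  have hFs : Summable fun n => ∫ v, ‖F n v‖ :=
    Summable.of_nonneg_of_le (fun n => integral_nonneg fun _ => norm_nonneg _) hFn (A7_w_summable.mul_left _)
  have hsum1 := hasSum_integral_of_summable_integral_norm hFint hFs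
  have e5 : ∀ v, ∑' n, F n v = ff χ (U - v) * hkb χ m B U γ v := by
    intro v
    have h := A7_finsupp χ U v (((Real.exp (-U / 2) : ℝ) : ℂ) * (Complex.exp ((v : ℂ) / 2) * hkb χ m B U γ v))
    have e6 : ∀ n, F n v = (Set.Iic (U - Real.log n)).indicator (fun _ : ℝ => A7_c χ n *
        (((Real.exp (-U / 2) : ℝ) : ℂ) * (Complex.exp ((v : ℂ) / 2) * hkb χ m B U γ v))) v := by
      intro n
      rw [hF]
      show (Set.Iic (U - Real.log n)).indicator _ v = _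
      by_cases hm : v ∈ Set.Iic (U - Real.log n)
      · rw [Set.indicator_of_mem hm, Set.indicator_of_mem hm, mul_assoc]
      · rw [Set.indicator_of_notMem hm, Set.indicator_of_notMem hm]
    simp_rw [e6]
    rw [h]
    unfold ff
    rw [mul_assoc]
    congr 1
    rw [← mul_assoc]
    congr 1
    rw [Complex.ofReal_exp, Complex.ofReal_exp, ← Complex.exp_add]
    congr 1
    push_cast
    ring
  simp_rw [e5] at hsum1
  -- the second exchange
  set G : ℕ → ℝ → ℂ := fun n t => A7_c χ n * ((Real.exp (-U / 2) : ℝ) : ℂ) * (hb χ m B U γ (1 + (t : ℂ) * I) *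
    Complex.exp ((3 / 2 + (t : ℂ) * I) * ((U - Real.log n : ℝ) : ℂ)) / (3 / 2 + (t : ℂ) * I)) with hG
  have hden : ∀ t : ℝ, (3 / 2 + (t : ℂ) * I) ≠ 0 := by
    intro t h
    have := congrArg Complex.re h
    norm_num at this
  have hdenn : ∀ t : ℝ, 3 / 2 ≤ ‖(3 / 2 + (t : ℂ) * I)‖ := by
    intro t
    have h := Complex.abs_re_le_norm (3 / 2 + (t : ℂ) * I)
    have e : (3 / 2 + (t : ℂ) * I).re = 3 / 2 := by simp
    rw [e, abs_of_nonneg (by norm_num)] at h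
    exact h
  have hGle : ∀ n t, ‖G n t‖ ≤ (Real.exp (-U / 2) * (2 / 3) * Real.exp (3 / 2 * U) * A7_w n) * ‖hb χ m B U γ (1 + (t : ℂ) * I)‖ := by
    intro n t
    rw [hG]
    show ‖A7_c χ n * ((Real.exp (-U / 2) : ℝ) : ℂ) * (hb χ m B U γ (1 + (t : ℂ) * I) *
      Complex.exp ((3 / 2 + (t : ℂ) * I) * ((U - Real.log n : ℝ) : ℂ)) / (3 / 2 + (t : ℂ) * I))‖ ≤ _
    have e7 : ‖Complex.exp ((3 / 2 + (t : ℂ) * I) * ((U - Real.log n : ℝ) : ℂ))‖ = Real.exp (3 / 2 * (U - Real.log n)) := by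
      have e := A7_norm_exp (3 / 2) t (U - Real.log n)
      rw [show (((3 / 2 : ℝ) : ℂ)) = 3 / 2 by push_cast; ring] at e
      exact e
    rw [norm_mul, norm_mul, norm_div, norm_mul, e7, Complex.norm_real, Real.norm_of_nonneg (Real.exp_pos _).le]
    have h4 := A7_c_exp χ U n
    have h5 : ‖hb χ m B U γ (1 + (t : ℂ) * I)‖ * Real.exp (3 / 2 * (U - Real.log n)) / ‖(3 / 2 + (t : ℂ) * I)‖ ≤
        ‖hb χ m B U γ (1 + (t : ℂ) * I)‖ * Real.exp (3 / 2 * (U - Real.log n)) / (3 / 2) :=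
      div_le_div_of_nonneg_left (by positivity) (by norm_num) (hdenn t)
    calc ‖A7_c χ n‖ * Real.exp (-U / 2) * (‖hb χ m B U γ (1 + (t : ℂ) * I)‖ * Real.exp (3 / 2 * (U - Real.log n)) /
          ‖(3 / 2 + (t : ℂ) * I)‖)
        ≤ ‖A7_c χ n‖ * Real.exp (-U / 2) * (‖hb χ m B U γ (1 + (t : ℂ) * I)‖ * Real.exp (3 / 2 * (U - Real.log n)) / (3 / 2)) :=
          mul_le_mul_of_nonneg_left h5 (by positivity)
      _ = (Real.exp (-U / 2) * (2 / 3) * ‖hb χ m B U γ (1 + (t : ℂ) * I)‖) *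
          (‖A7_c χ n‖ * Real.exp (3 / 2 * (U - Real.log n))) := by ring
      _ ≤ (Real.exp (-U / 2) * (2 / 3) * ‖hb χ m B U γ (1 + (t : ℂ) * I)‖) * (Real.exp (3 / 2 * U) * A7_w n) :=
          mul_le_mul_of_nonneg_left h4 (by positivity)
      _ = _ := by ring
  have hGint : ∀ n, Integrable (G n) := by
    intro n
    refine Integrable.mono' (hHint.norm.const_mul _) ?_ (Filter.Eventually.of_forall fun t => hGle n t)
    refine Continuous.aestronglyMeasurable ?_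
    rw [hG]
    refine continuous_const.mul (Continuous.div (hHc.mul ?_) (by fun_prop) hden)
    fun_prop
  have hGs : Summable fun n => ∫ t, ‖G n t‖ := by
    refine Summable.of_nonneg_of_le (fun n => integral_nonneg fun _ => norm_nonneg _) (fun n => ?_)
      (A7_w_summable.mul_left (Real.exp (-U / 2) * (2 / 3) * Real.exp (3 / 2 * U) *
        ∫ t : ℝ, ‖hb χ m B U γ (1 + (t : ℂ) * I)‖))
    have h := integral_mono (hGint n).norm (hHint.norm.const_mul _) (fun t => hGle n t)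
    rw [integral_const_mul] at h
    calc ∫ t, ‖G n t‖ ≤ _ := h
      _ = _ := by ring
  have hsum2 := hasSum_integral_of_summable_integral_norm hGint hGs
  have e8 : ∀ t, ∑' n, G n t = Phb χ m B U γ (1 + (t : ℂ) * I) := by
    intro t
    have hs : 1 < (3 / 2 + (t : ℂ) * I).re := by
      have e : (3 / 2 + (t : ℂ) * I).re = 3 / 2 := by simp
      rw [e]
      norm_num
    have h := A7_series χ (3 / 2 + (t : ℂ) * I) hs (Complex.exp ((1 + (t : ℂ) * I) * U) *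
      hb χ m B U γ (1 + (t : ℂ) * I) / (3 / 2 + (t : ℂ) * I))
    have e9 : ∀ n, G n t = A7_c χ n * Complex.exp (-((3 / 2 + (t : ℂ) * I) * Real.log n)) *
        (Complex.exp ((1 + (t : ℂ) * I) * U) * hb χ m B U γ (1 + (t : ℂ) * I) / (3 / 2 + (t : ℂ) * I)) := by
      intro n
      rw [hG]
      show A7_c χ n * ((Real.exp (-U / 2) : ℝ) : ℂ) * (hb χ m B U γ (1 + (t : ℂ) * I) *
        Complex.exp ((3 / 2 + (t : ℂ) * I) * ((U - Real.log n : ℝ) : ℂ)) / (3 / 2 + (t : ℂ) * I)) = _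
      have e10 : ((Real.exp (-U / 2) : ℝ) : ℂ) * Complex.exp ((3 / 2 + (t : ℂ) * I) * ((U - Real.log n : ℝ) : ℂ)) =
          Complex.exp (-((3 / 2 + (t : ℂ) * I) * Real.log n)) * Complex.exp ((1 + (t : ℂ) * I) * U) := by
        rw [Complex.ofReal_exp, ← Complex.exp_add, ← Complex.exp_add]
        congr 1
        push_cast
        ring
      calc A7_c χ n * ((Real.exp (-U / 2) : ℝ) : ℂ) * (hb χ m B U γ (1 + (t : ℂ) * I) *
            Complex.exp ((3 / 2 + (t : ℂ) * I) * ((U - Real.log n : ℝ) : ℂ)) / (3 / 2 + (t : ℂ) * I))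
          = A7_c χ n * (((Real.exp (-U / 2) : ℝ) : ℂ) *
            Complex.exp ((3 / 2 + (t : ℂ) * I) * ((U - Real.log n : ℝ) : ℂ))) *
            (hb χ m B U γ (1 + (t : ℂ) * I) / (3 / 2 + (t : ℂ) * I)) := by ring
        _ = _ := by rw [e10]; ring
    simp_rw [e9]
    rw [h]
    have hz : (1 + (t : ℂ) * I) ≠ (γ : ℂ) * I := by
      intro hh'
      have := congrArg Complex.re hh'
      norm_num at this
    have hL : χ.LFunction (3 / 2 + (t : ℂ) * I) ≠ 0 := by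
      refine DirichletCharacter.LFunction_ne_zero_of_one_le_re χ (Or.inr ?_) hs.le
      intro h1
      rw [h1] at hs
      norm_num at hs
    unfold Phb hb
    rw [hh_of_ne r χ m U γ h0 _ hz]
    unfold Ph
    have e11 : (1 / 2 + (1 + (t : ℂ) * I)) = 3 / 2 + (t : ℂ) * I := by ring
    rw [e11, mul_comm ((U : ℂ)) (1 + (t : ℂ) * I)]
    have hz' : (1 + (t : ℂ) * I) - (γ : ℂ) * I ≠ 0 := sub_ne_zero.mpr hz
    have hd := hden t
    generalize χ.LFunction (3 / 2 + (t : ℂ) * I) = L0 at hL ⊢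
    generalize deriv χ.LFunction (3 / 2 + (t : ℂ) * I) = L1
    generalize Ek (sg r U) (vl r m U) m (1 + (t : ℂ) * I - (γ : ℂ) * I) = E0
    generalize Complex.exp ((1 + (t : ℂ) * I) * U) = E1
    generalize (3 / 2 + (t : ℂ) * I) = s0 at hd ⊢
    generalize shc ((B : ℂ) * (1 + (t : ℂ) * I - (γ : ℂ) * I)) = S0
    generalize (1 + (t : ℂ) * I - (γ : ℂ) * I) = z0 at hz' ⊢
    field_simp
  simp_rw [e8] at hsum2
  -- conclusion
  have e12 : ∀ n, ∫ v, F n v = (1 / (2 * Real.pi) : ℂ) * ∫ t, G n t := by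
    intro n
    rw [hFI n, hG]
    show _ = (1 / (2 * Real.pi) : ℂ) * ∫ t : ℝ, A7_c χ n * ((Real.exp (-U / 2) : ℝ) : ℂ) * (hb χ m B U γ (1 + (t : ℂ) * I) *
      Complex.exp ((3 / 2 + (t : ℂ) * I) * ((U - Real.log n : ℝ) : ℂ)) / (3 / 2 + (t : ℂ) * I))
    rw [integral_const_mul]
    ring
  simp_rw [e12] at hsum1
  exact hsum1.unique (hsum2.mul_left _)

end Pool.Agent.SF
end

section

set_option autoImplicit false

/-! Task F2: the numbers. -/

namespace Pool.Agent.SF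

open Filter Pool.Agent.SE

private theorem F2_log (δ : ℝ) (hδ : 0 < δ) : ∃ U₀ : ℝ, ∀ U : ℝ, U₀ ≤ U → Real.log U ≤ δ * U := by
  have h := Real.isLittleO_log_id_atTop.def hδ
  have h2 : ∀ᶠ U : ℝ in atTop, Real.log U ≤ δ * U := by
    filter_upwards [h, eventually_ge_atTop (0 : ℝ)] with U h1 h0
    simp only [id] at h1
    rw [Real.norm_eq_abs, Real.norm_eq_abs, abs_of_nonneg h0] at h1
    exact (le_abs_self _).trans h1
  obtain ⟨U₀, hU⟩ := eventually_atTop.1 h2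
  exact ⟨U₀, hU⟩

/-- F2. The regime `U ≥ 8000 (N+1) log r`. PROOF. `regime C T m` (SE/A4.lean) gives everything for `N = 0` (`8000 (N+1) log r ≥ 4000 log r`);
`VN = (N+1) 1000 (log r + log U) ≤ U/8 + 1000 (N+1) log U ≤ U/4` for `U` large (`log U = o(U)`; `U ≥ 8000 log r₀`); so `BN/4 ≤ U/16` and (5) of `regime`
(`≤ exp(-U/8)`) times `exp(BN/4)` is `≤ exp(-U/16)`. The last items: `C exp(-6U) ≤ (1/2) exp(-U/20)`, `exp(-U/16) ≤ (1/2) exp(-U/20)`, and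
`C r⁴ exp(-U/20) ≤ 1` as `log r ≤ U/8000`. -/
theorem regimeN (C T : ℝ) (hC : 1 ≤ C) (hT : 0 ≤ T) (m N : ℕ) (hm : 1 ≤ m) : ∃ r₀ : ℕ, 3 ≤ r₀ ∧ ∀ r : ℕ, r₀ ≤ r → ∀ U : ℝ,
    8000 * ((N : ℝ) + 1) * Real.log r ≤ U →
    4000 * Real.log r ≤ U ∧ VN r N U ≤ U / 4 ∧ 0 ≤ BN r N U ∧ 1000 ≤ VV r U ∧
    (C * (r : ℝ) ^ 5 * Real.exp (-(U / 4) + sg r U ^ 2 / 32 + m * vl r m U / 4 + BN r N U / 4) *
      (Real.exp (3 * T) * (2 * Real.exp (9 / (2 * sg r U ^ 2)) * (Real.sqrt (2 * Real.pi) / sg r U))) ≤ Real.exp (-(U / 16))) ∧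
    (C * Real.exp (-(6 * U)) ≤ 1 / 2 * Real.exp (-(U / 20)) ∧ Real.exp (-(U / 16)) ≤ 1 / 2 * Real.exp (-(U / 20))) ∧
    C * (r : ℝ) ^ 4 * Real.exp (-(U / 20)) ≤ 1 := by
  obtain ⟨r₁, hr₁, hreg⟩ := regime C T hC hT m hm
  have hN : (0 : ℝ) ≤ (N : ℝ) := Nat.cast_nonneg N
  have hN1 : (0 : ℝ) < (N : ℝ) + 1 := by linarith
  obtain ⟨U₀, hU₀⟩ := F2_log (1 / (8000 * ((N : ℝ) + 1))) (by positivity)
  set U₁ : ℝ := max U₀ (1000 * Real.log C) with hU₁
  refine ⟨max r₁ ⌈Real.exp (U₁ / 4000)⌉₊, hr₁.trans (le_max_left _ _), ?_⟩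
  intro r hr U hU
  have hr1 : r₁ ≤ r := (le_max_left _ _).trans hr
  have hr3 : (3 : ℝ) ≤ r := by exact_mod_cast hr₁.trans hr1
  have hrpos : (0 : ℝ) < r := by linarith
  have hlogr0 : 0 ≤ Real.log r := Real.log_nonneg (by linarith)
  have h4000 : 4000 * Real.log r ≤ U := by
    have h1 : 0 ≤ (N : ℝ) * Real.log r := mul_nonneg hN hlogr0
    nlinarith
  have hU1 : U₁ ≤ U := by
    have h1 : Real.exp (U₁ / 4000) ≤ r := (Nat.le_ceil _).trans (by exact_mod_cast (le_max_right _ _).trans hr)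
    have h2 : U₁ / 4000 ≤ Real.log r := by
      rw [← Real.log_exp (U₁ / 4000)]
      exact Real.log_le_log (Real.exp_pos _) h1
    linarith
  have hUU0 : U₀ ≤ U := (le_max_left _ _).trans hU1
  have hUC : 1000 * Real.log C ≤ U := (le_max_right _ _).trans hU1
  obtain ⟨hV1000, -, -, -, h5, ⟨h6, -⟩, -, hU1000⟩ := hreg r hr1 U h4000
  have hUpos : 0 < U := by linarith
  have hlogU := hU₀ U hUU0
  have hW : Real.log (r * U) = Real.log r + Real.log U := Real.log_mul (by positivity) (by positivity)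
  have hVN : VN r N U ≤ U / 4 := by
    have e1 : VN r N U = 1000 * (((N : ℝ) + 1) * Real.log r) + 1000 * (((N : ℝ) + 1) * Real.log U) := by
      rw [VN, VV, hW]; ring
    have e2 : ((N : ℝ) + 1) * Real.log U ≤ U / 8000 := by
      calc ((N : ℝ) + 1) * Real.log U ≤ ((N : ℝ) + 1) * (1 / (8000 * ((N : ℝ) + 1)) * U) :=
            mul_le_mul_of_nonneg_left hlogU hN1.le
        _ = U / 8000 := by field_simp
    rw [e1]; linarith
  have hBN0 : 0 ≤ BN r N U := by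
    rw [BN]; exact mul_nonneg hN (by linarith)
  have hBN : BN r N U ≤ U / 4 := by
    refine le_trans ?_ hVN
    rw [BN, VN]; linarith
  have hE3pos : 0 ≤ Real.exp (3 * T) * (2 * Real.exp (9 / (2 * sg r U ^ 2)) * (Real.sqrt (2 * Real.pi) / sg r U)) := by
    have : 0 < sg r U := by
      rw [sg]; exact div_pos (by linarith) (by positivity)
    positivity
  refine ⟨h4000, hVN, hBN0, hV1000, ?_, ⟨?_, ?_⟩, ?_⟩
  · have e1 : C * (r : ℝ) ^ 5 * Real.exp (-(U / 4) + sg r U ^ 2 / 32 + m * vl r m U / 4 + BN r N U / 4) *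
        (Real.exp (3 * T) * (2 * Real.exp (9 / (2 * sg r U ^ 2)) * (Real.sqrt (2 * Real.pi) / sg r U))) =
        (C * (r : ℝ) ^ 5 * Real.exp (-(U / 4) + sg r U ^ 2 / 32 + m * vl r m U / 4) *
        (Real.exp (3 * T) * (2 * Real.exp (9 / (2 * sg r U ^ 2)) * (Real.sqrt (2 * Real.pi) / sg r U)))) *
        Real.exp (BN r N U / 4) := by
      rw [Real.exp_add _ (BN r N U / 4)]; ring
    rw [e1]
    calc _ ≤ Real.exp (-(U / 8)) * Real.exp (U / 16) :=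
          mul_le_mul h5 (Real.exp_le_exp.2 (by linarith)) (Real.exp_pos _).le (Real.exp_pos _).le
      _ = Real.exp (-(U / 16)) := by rw [← Real.exp_add]; congr 1; ring
  · refine h6.trans ?_
    apply mul_le_mul_of_nonneg_left _ (by norm_num)
    exact Real.exp_le_exp.2 (by linarith)
  · have h1 : (2 : ℝ) ≤ Real.exp (U / 80) := by
      have := Real.add_one_le_exp (U / 80)
      linarith
    have h2 : Real.exp (-(U / 20)) = Real.exp (-(U / 16)) * Real.exp (U / 80) := by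
      rw [← Real.exp_add]; congr 1; ring
    rw [h2]
    nlinarith [Real.exp_pos (-(U / 16))]
  · have h1 : C ≤ Real.exp (U / 1000) := by
      rw [← Real.exp_log (show (0 : ℝ) < C by linarith)]
      exact Real.exp_le_exp.2 (by linarith)
    have h2 : (r : ℝ) ^ 4 ≤ Real.exp (U / 1000) := by
      have : (r : ℝ) ^ 4 = Real.exp (4 * Real.log r) := by
        rw [show (4 : ℝ) * Real.log r = ((4 : ℕ) : ℝ) * Real.log r by norm_num, Real.exp_nat_mul, Real.exp_log hrpos]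
      rw [this]
      exact Real.exp_le_exp.2 (by linarith)
    calc C * (r : ℝ) ^ 4 * Real.exp (-(U / 20))
        ≤ Real.exp (U / 1000) * Real.exp (U / 1000) * Real.exp (-(U / 20)) := by
          apply mul_le_mul_of_nonneg_right _ (Real.exp_pos _).le
          exact mul_le_mul h1 h2 (by positivity) (by positivity)
      _ = Real.exp (U / 1000 + U / 1000 + -(U / 20)) := by simp only [Real.exp_add]
      _ ≤ 1 := by
          rw [← Real.exp_zero]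
          exact Real.exp_le_exp.2 (by linarith)

end Pool.Agent.SF
end

section

set_option autoImplicit false

/-! Task F6: the residue at the zero. -/

namespace Pool.Agent.SF

open Complex MeasureTheory
open Pool.Agent.SK Pool.Agent.SD Pool.Agent.SE
open Pool.Agent.SO (prim NN pt pz MM kw)

/-- the numerator without the pole (old) -/
private noncomputable def F6_F0 {r : ℕ} [NeZero r] (χ : DirichletCharacter ℂ r) (m : ℕ) (U γ : ℝ) (ζ : ℂ) : ℂ :=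
  -(deriv χ.LFunction (1 / 2 + (ζ + (γ : ℂ) * I))) * Ek (sg r U) (vl r m U) m ζ *
    Complex.exp ((U : ℂ) * (ζ + (γ : ℂ) * I)) / (1 / 2 + (ζ + (γ : ℂ) * I))

/-- the numerator without the pole -/
private noncomputable def F6_F {r : ℕ} [NeZero r] (χ : DirichletCharacter ℂ r) (m : ℕ) (B U γ : ℝ) (ζ : ℂ) : ℂ :=
  F6_F0 χ m U γ ζ * shc ((B : ℂ) * ζ)

private lemma F6_Phb_eq {r : ℕ} [NeZero r] (χ : DirichletCharacter ℂ r) (m : ℕ) (B U γ : ℝ) (ζ : ℂ) :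
    Phb χ m B U γ (ζ + (γ : ℂ) * I) = F6_F χ m B U γ ζ / ζ := by
  have h1 : Ph χ m U γ (ζ + (γ : ℂ) * I) = F6_F0 χ m U γ ζ / ζ := by
    unfold Ph F6_F0
    rw [add_sub_cancel_right, div_div, mul_comm ζ]
  unfold Phb F6_F
  rw [h1, add_sub_cancel_right, div_mul_eq_mul_div]

private lemma F6_shift_line {r : ℕ} [NeZero r] (χ : DirichletCharacter ℂ r) (m : ℕ) (B U γ : ℝ) (c : ℂ) :
    ∫ t : ℝ, Phb χ m B U γ (c + (t : ℂ) * I) = ∫ t : ℝ, F6_F χ m B U γ (c + (t : ℂ) * I) / (c + (t : ℂ) * I) := by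
  rw [← integral_add_right_eq_self (fun t : ℝ => Phb χ m B U γ (c + (t : ℂ) * I)) γ]
  apply integral_congr_ae
  filter_upwards with t
  rw [← F6_Phb_eq]
  congr 1
  push_cast
  ring

private lemma F6_den (γ : ℝ) (ζ : ℂ) (h : -1 / 4 ≤ ζ.re) : 1 / 4 ≤ ‖1 / 2 + (ζ + (γ : ℂ) * I)‖ := by
  have h1 : (1 / 2 + (ζ + (γ : ℂ) * I)).re = 1 / 2 + ζ.re := by
    simp
  have h2 := Complex.abs_re_le_norm (1 / 2 + (ζ + (γ : ℂ) * I))
  rw [h1] at h2
  have h3 := le_abs_self (1 / 2 + ζ.re)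
  linarith

private lemma F6_F0_bound (r : ℕ) [NeZero r] (hr : 2 ≤ r) (χ : DirichletCharacter ℂ r) (hχ : χ ∈ prim r) (m : ℕ) (U γ : ℝ)
    (hσ : 0 < sg r U) (hv : 0 ≤ vl r m U) : ∃ K : ℝ, ∀ ζ : ℂ, -1 / 4 ≤ ζ.re → ζ.re ≤ 1 →
      ‖F6_F0 χ m U γ ζ‖ ≤ K * Real.exp (-(sg r U ^ 2 / 4 * ζ.im ^ 2)) := by
  obtain ⟨K0, hK0, hL⟩ := L_deriv_strip r hr χ hχ (1 / 4) (3 / 2)
  obtain ⟨σ, hσd⟩ : ∃ σ, σ = sg r U := ⟨_, rfl⟩
  rw [← hσd] at hσ ⊢
  refine ⟨K0 * Real.exp (3 * |γ| + 9 / σ ^ 2) * Real.exp (σ ^ 2 / 2 + m * vl r m U) * Real.exp |U| * 4, ?_⟩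
  intro ζ h1 h2
  have hre : |ζ.re| ≤ 1 := abs_le.mpr ⟨by linarith, h2⟩
  have hre2 : ζ.re ^ 2 ≤ 1 := by
    rw [← sq_abs]
    have := abs_nonneg ζ.re
    nlinarith
  have e1 := hL (1 / 2 + (ζ + (γ : ℂ) * I)) (by simp; linarith) (by simp; linarith)
  have e2 := Ek_le σ (vl r m U) hv m ζ
  have e3 : ‖Complex.exp ((U : ℂ) * (ζ + (γ : ℂ) * I))‖ ≤ Real.exp |U| := by
    rw [Complex.norm_exp]
    apply Real.exp_le_exp.mpr
    have h3 : ((U : ℂ) * (ζ + (γ : ℂ) * I)).re = U * ζ.re := by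
      simp
    rw [h3]
    calc U * ζ.re ≤ |U * ζ.re| := le_abs_self _
      _ = |U| * |ζ.re| := abs_mul _ _
      _ ≤ |U| * 1 := mul_le_mul_of_nonneg_left hre (abs_nonneg _)
      _ = |U| := mul_one _
  have e4 := F6_den γ ζ h1
  have e5 : (1 / 2 + (ζ + (γ : ℂ) * I)).im = ζ.im + γ := by simp
  rw [e5] at e1
  unfold F6_F0
  rw [norm_div, norm_mul, norm_mul, norm_neg, ← hσd]
  have e6 : Real.exp (3 * |ζ.im + γ|) * Real.exp (σ ^ 2 / 2 * (ζ.re ^ 2 - ζ.im ^ 2) + m * vl r m U * |ζ.re|) ≤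
      Real.exp (3 * |γ| + 9 / σ ^ 2) * Real.exp (σ ^ 2 / 2 + m * vl r m U) * Real.exp (-(σ ^ 2 / 4 * ζ.im ^ 2)) := by
    rw [← Real.exp_add, ← Real.exp_add, ← Real.exp_add]
    apply Real.exp_le_exp.mpr
    have h3 := abs_add_le ζ.im γ
    have h4 : 3 * |ζ.im| ≤ σ ^ 2 / 4 * ζ.im ^ 2 + 9 / σ ^ 2 := by
      have h5 : 0 ≤ (σ * |ζ.im| / 2 - 3 / σ) ^ 2 := sq_nonneg _
      have h6 : (σ * |ζ.im| / 2 - 3 / σ) ^ 2 = σ ^ 2 / 4 * |ζ.im| ^ 2 + 9 / σ ^ 2 - 3 * |ζ.im| := by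
        field_simp
        ring
      rw [h6, sq_abs] at h5
      linarith
    have h7 : m * vl r m U * |ζ.re| ≤ m * vl r m U := by
      have : 0 ≤ m * vl r m U := by positivity
      calc m * vl r m U * |ζ.re| ≤ m * vl r m U * 1 := mul_le_mul_of_nonneg_left hre this
        _ = _ := mul_one _
    have h8 : σ ^ 2 / 2 * ζ.re ^ 2 ≤ σ ^ 2 / 2 := by
      have : 0 ≤ σ ^ 2 / 2 := by positivity
      calc σ ^ 2 / 2 * ζ.re ^ 2 ≤ σ ^ 2 / 2 * 1 := mul_le_mul_of_nonneg_left hre2 this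
        _ = _ := mul_one _
    nlinarith
  have e7 : ‖deriv χ.LFunction (1 / 2 + (ζ + (γ : ℂ) * I))‖ * ‖Ek σ (vl r m U) m ζ‖ ≤
      K0 * (Real.exp (3 * |γ| + 9 / σ ^ 2) * Real.exp (σ ^ 2 / 2 + m * vl r m U) *
        Real.exp (-(σ ^ 2 / 4 * ζ.im ^ 2))) := by
    calc ‖deriv χ.LFunction (1 / 2 + (ζ + (γ : ℂ) * I))‖ * ‖Ek σ (vl r m U) m ζ‖
        ≤ (K0 * Real.exp (3 * |ζ.im + γ|)) *
          Real.exp (σ ^ 2 / 2 * (ζ.re ^ 2 - ζ.im ^ 2) + m * vl r m U * |ζ.re|) := by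
          apply mul_le_mul e1 e2 (norm_nonneg _) (by positivity)
      _ = K0 * (Real.exp (3 * |ζ.im + γ|) *
          Real.exp (σ ^ 2 / 2 * (ζ.re ^ 2 - ζ.im ^ 2) + m * vl r m U * |ζ.re|)) := by ring
      _ ≤ _ := mul_le_mul_of_nonneg_left e6 hK0
  have e8 : 0 < ‖1 / 2 + (ζ + (γ : ℂ) * I)‖ := lt_of_lt_of_le (by norm_num) e4
  rw [div_le_iff₀ e8]
  have e9 : 0 ≤ K0 * (Real.exp (3 * |γ| + 9 / σ ^ 2) * Real.exp (σ ^ 2 / 2 + m * vl r m U) *
        Real.exp (-(σ ^ 2 / 4 * ζ.im ^ 2))) := by positivity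
  calc ‖deriv χ.LFunction (1 / 2 + (ζ + (γ : ℂ) * I))‖ * ‖Ek σ (vl r m U) m ζ‖ *
        ‖Complex.exp ((U : ℂ) * (ζ + (γ : ℂ) * I))‖
      ≤ (K0 * (Real.exp (3 * |γ| + 9 / σ ^ 2) * Real.exp (σ ^ 2 / 2 + m * vl r m U) *
        Real.exp (-(σ ^ 2 / 4 * ζ.im ^ 2)))) * Real.exp |U| := mul_le_mul e7 e3 (norm_nonneg _) e9
    _ = (K0 * (Real.exp (3 * |γ| + 9 / σ ^ 2) * Real.exp (σ ^ 2 / 2 + m * vl r m U) *
        Real.exp (-(σ ^ 2 / 4 * ζ.im ^ 2)))) * Real.exp |U| * (4 * (1 / 4)) := by ring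
    _ ≤ (K0 * (Real.exp (3 * |γ| + 9 / σ ^ 2) * Real.exp (σ ^ 2 / 2 + m * vl r m U) *
        Real.exp (-(σ ^ 2 / 4 * ζ.im ^ 2)))) * Real.exp |U| * (4 * ‖1 / 2 + (ζ + (γ : ℂ) * I)‖) := by
        apply mul_le_mul_of_nonneg_left _ (by positivity)
        linarith
    _ = _ := by ring

private lemma F6_F0_diff (r : ℕ) [NeZero r] (hr : 2 ≤ r) (χ : DirichletCharacter ℂ r) (hχ : χ ∈ prim r) (m : ℕ) (U γ : ℝ)
    (ζ : ℂ) (h : -1 / 4 ≤ ζ.re) : DifferentiableAt ℂ (F6_F0 χ m U γ) ζ := by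
  have hne : χ ≠ 1 := (prim_spec r hr χ hχ).2
  have h1 : Differentiable ℂ χ.LFunction := DirichletCharacter.differentiable_LFunction hne
  have h2 : Differentiable ℂ (deriv χ.LFunction) := by
    intro z
    exact (h1.contDiff.differentiable_deriv_two) z
  have h3 : (1 / 2 + (ζ + (γ : ℂ) * I)) ≠ 0 := by
    intro h0
    have := F6_den γ ζ h
    rw [h0, norm_zero] at this
    linarith
  unfold F6_F0
  have h4 : DifferentiableAt ℂ (fun ζ : ℂ => deriv χ.LFunction (1 / 2 + (ζ + (γ : ℂ) * I))) ζ := by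
    have : DifferentiableAt ℂ (fun ζ : ℂ => (1 / 2 + (ζ + (γ : ℂ) * I))) ζ := by fun_prop
    exact (h2 _).comp ζ this
  have h5 : DifferentiableAt ℂ (fun ζ : ℂ => Ek (sg r U) (vl r m U) m ζ) ζ := Ek_diff _ _ _ ζ
  have h6 : DifferentiableAt ℂ (fun ζ : ℂ => Complex.exp ((U : ℂ) * (ζ + (γ : ℂ) * I))) ζ := by fun_prop
  have h7 : DifferentiableAt ℂ (fun ζ : ℂ => (1 / 2 + (ζ + (γ : ℂ) * I))) ζ := by fun_prop
  exact ((h4.neg.mul h5).mul h6).div h7 h3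

private lemma F6_shc_le (B : ℝ) (ζ : ℂ) : ‖shc ((B : ℂ) * ζ)‖ ≤ Real.exp (|B| * |ζ.re|) := by
  have h := shc_le ((B : ℂ) * ζ)
  have h1 : ((B : ℂ) * ζ).re = B * ζ.re := by simp
  rw [h1, abs_mul] at h
  exact h

private lemma F6_F_bound (r : ℕ) [NeZero r] (hr : 2 ≤ r) (χ : DirichletCharacter ℂ r) (hχ : χ ∈ prim r) (m : ℕ) (B U γ : ℝ)
    (hσ : 0 < sg r U) (hv : 0 ≤ vl r m U) : ∃ K : ℝ, ∀ ζ : ℂ, -1 / 4 ≤ ζ.re → ζ.re ≤ 1 →
      ‖F6_F χ m B U γ ζ‖ ≤ K * Real.exp (-(sg r U ^ 2 / 4 * ζ.im ^ 2)) := by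
  obtain ⟨K, hK⟩ := F6_F0_bound r hr χ hχ m U γ hσ hv
  refine ⟨K * Real.exp |B|, ?_⟩
  intro ζ h1 h2
  have h3 := hK ζ h1 h2
  have h4 := F6_shc_le B ζ
  have hre : |ζ.re| ≤ 1 := abs_le.mpr ⟨by linarith, h2⟩
  have h5 : Real.exp (|B| * |ζ.re|) ≤ Real.exp |B| := by
    apply Real.exp_le_exp.mpr
    calc |B| * |ζ.re| ≤ |B| * 1 := mul_le_mul_of_nonneg_left hre (abs_nonneg _)
      _ = |B| := mul_one _
  have h6 : 0 ≤ K * Real.exp (-(sg r U ^ 2 / 4 * ζ.im ^ 2)) := (norm_nonneg _).trans h3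
  unfold F6_F
  rw [norm_mul]
  calc ‖F6_F0 χ m U γ ζ‖ * ‖shc ((B : ℂ) * ζ)‖
      ≤ (K * Real.exp (-(sg r U ^ 2 / 4 * ζ.im ^ 2))) * Real.exp |B| :=
        mul_le_mul h3 (h4.trans h5) (norm_nonneg _) h6
    _ = _ := by ring

private lemma F6_F_diff (r : ℕ) [NeZero r] (hr : 2 ≤ r) (χ : DirichletCharacter ℂ r) (hχ : χ ∈ prim r) (m : ℕ) (B U γ : ℝ)
    (ζ : ℂ) (h : -1 / 4 ≤ ζ.re) : DifferentiableAt ℂ (F6_F χ m B U γ) ζ := by
  have h1 := F6_F0_diff r hr χ hχ m U γ ζ h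
  have h2 : DifferentiableAt ℂ (fun ζ : ℂ => shc ((B : ℂ) * ζ)) ζ := by
    have h3 : DifferentiableAt ℂ (fun ζ : ℂ => (B : ℂ) * ζ) ζ := by fun_prop
    exact (shc_diff ((B : ℂ) * ζ)).comp ζ h3
  exact h1.mul h2

/-- F6a. PROOF. As `Ph_shift` in SE/A8.lean (COPY; `shc 0 = 1`). -/
theorem Phb_shift (r : ℕ) [NeZero r] (hr : 2 ≤ r) (χ : DirichletCharacter ℂ r) (hχ : χ ∈ prim r) (m : ℕ) (B U γ : ℝ)
    (hσ : 0 < sg r U) (hv : 0 ≤ vl r m U) :
    ∫ t : ℝ, Phb χ m B U γ (1 + (t : ℂ) * I) =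
      (∫ t : ℝ, Phb χ m B U γ (-1 / 4 + (t : ℂ) * I)) -
        2 * Real.pi * (deriv χ.LFunction (1 / 2 + (γ : ℂ) * I) * Complex.exp ((U : ℂ) * ((γ : ℂ) * I)) / (1 / 2 + (γ : ℂ) * I)) := by
  obtain ⟨K, hK⟩ := F6_F_bound r hr χ hχ m B U γ hσ hv
  have hmain := shift_pole (F6_F χ m B U γ) (-1 / 4) 1 K (sg r U ^ 2 / 4) (by norm_num) (by norm_num) (by positivity)
    (fun s h1 _ => F6_F_diff r hr χ hχ m B U γ s h1) hK
  have h0 : F6_F χ m B U γ 0 = -(deriv χ.LFunction (1 / 2 + (γ : ℂ) * I) *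
      Complex.exp ((U : ℂ) * ((γ : ℂ) * I)) / (1 / 2 + (γ : ℂ) * I)) := by
    unfold F6_F F6_F0
    rw [Ek_zero, mul_zero, shc_zero, zero_add]
    ring
  have hc1 : (((1 : ℝ) : ℂ)) = 1 := by norm_num
  have hc2 : (((-1 / 4 : ℝ) : ℂ)) = -1 / 4 := by push_cast; ring
  rw [hc1, hc2] at hmain
  rw [F6_shift_line, F6_shift_line]
  rw [h0] at hmain
  linear_combination hmain

/-- F6b. PROOF. As `Ph_left` (COPY): the additional factor is `exp(B/4)`; (5) of `regimeN (16 C) T m N`. -/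
theorem Phb_left (T : ℝ) (hT : 0 ≤ T) (m N : ℕ) (hm : 1 ≤ m) : ∃ r₀ : ℕ, 3 ≤ r₀ ∧ ∀ (r : ℕ) [NeZero r], r₀ ≤ r →
    ∀ χ ∈ prim r, ∀ γ : ℝ, |γ| ≤ T → ∀ U : ℝ, 8000 * ((N : ℝ) + 1) * Real.log r ≤ U →
    ‖∫ t : ℝ, Phb χ m (BN r N U) U γ (-1 / 4 + (t : ℂ) * I)‖ ≤ Real.exp (-(U / 16)) := by
  obtain ⟨C1, hC1, hL⟩ := L_deriv_left
  obtain ⟨r₁, hr₁, hreg₁⟩ := regime (16 * C1) T (by linarith) hT m hm
  obtain ⟨r₀, hr₀, hreg⟩ := regimeN (16 * C1) T (by linarith) hT m N hm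
  refine ⟨max r₀ r₁, le_max_of_le_left hr₀, ?_⟩
  intro r _ hr χ hχ γ hγ U hU
  have hr0 : r₀ ≤ r := (le_max_left _ _).trans hr
  have hr1 : r₁ ≤ r := (le_max_right _ _).trans hr
  obtain ⟨hU4, -, hB, -, h5, -, -⟩ := hreg r hr0 U hU
  obtain ⟨-, -, ⟨-, -, hσ, hv⟩, -, -, -⟩ := hreg₁ r hr1 U hU4
  obtain ⟨σ, hσd⟩ : ∃ σ, σ = sg r U := ⟨_, rfl⟩
  obtain ⟨w, hwd⟩ : ∃ w, w = vl r m U := ⟨_, rfl⟩
  obtain ⟨B, hBd⟩ : ∃ B, B = BN r N U := ⟨_, rfl⟩
  rw [← hσd] at hσ h5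
  rw [← hwd] at hv h5
  rw [← hBd] at hB h5 ⊢
  obtain ⟨A, hA⟩ : ∃ A, A = 16 * C1 * (r : ℝ) ^ 5 * Real.exp (-(U / 4) + σ ^ 2 / 32 + m * w / 4 + B / 4) := ⟨_, rfl⟩
  have hA0 : 0 ≤ A := by rw [hA]; positivity
  obtain ⟨hgi, hgb⟩ := gauss_int σ γ hσ
  have hpt : ∀ t : ℝ, ‖Phb χ m B U γ (-1 / 4 + (t : ℂ) * I)‖ ≤
      A * (Real.exp (3 * |t|) * Real.exp (-(σ ^ 2 / 2 * (t - γ) ^ 2))) := by
    intro t
    have e1 := hL r (by omega) χ hχ t
    have e2 := Ek_le σ w hv.le m (-1 / 4 + (t : ℂ) * I - (γ : ℂ) * I)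
    have r1 : (-1 / 4 + (t : ℂ) * I - (γ : ℂ) * I).re = -1 / 4 := by
      simp only [Complex.sub_re, Complex.add_re, Complex.mul_re, Complex.ofReal_re, Complex.I_re,
        Complex.ofReal_im, Complex.I_im, mul_zero, mul_one, sub_zero]
      norm_num
    have r2 : (-1 / 4 + (t : ℂ) * I - (γ : ℂ) * I).im = t - γ := by
      simp only [Complex.sub_im, Complex.add_im, Complex.mul_im, Complex.ofReal_re, Complex.I_re,
        Complex.ofReal_im, Complex.I_im, mul_zero, mul_one, add_zero]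
      norm_num
    rw [r1, r2] at e2
    have e3 : 1 / 4 ≤ ‖(-1 / 4 + (t : ℂ) * I - (γ : ℂ) * I)‖ := by
      have := Complex.abs_re_le_norm (-1 / 4 + (t : ℂ) * I - (γ : ℂ) * I)
      rw [r1] at this
      have h6 : |(-1 / 4 : ℝ)| = 1 / 4 := by norm_num [abs_of_neg]
      rw [h6] at this
      exact this
    have e4 : (1 / 2 + (-1 / 4 + (t : ℂ) * I)) = 1 / 4 + (t : ℂ) * I := by ring
    have e5 : 1 / 4 ≤ ‖(1 / 4 + (t : ℂ) * I)‖ := by
      have := Complex.abs_re_le_norm (1 / 4 + (t : ℂ) * I)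
      have r3 : (1 / 4 + (t : ℂ) * I).re = 1 / 4 := by
        simp only [Complex.add_re, Complex.mul_re, Complex.ofReal_re, Complex.I_re,
          Complex.ofReal_im, Complex.I_im, mul_zero, mul_one, sub_zero]
        norm_num
      rw [r3] at this
      have h6 : |(1 / 4 : ℝ)| = 1 / 4 := by norm_num
      rw [h6] at this
      exact this
    have e6 : ‖Complex.exp ((U : ℂ) * (-1 / 4 + (t : ℂ) * I))‖ = Real.exp (-(U / 4)) := by
      rw [Complex.norm_exp]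
      congr 1
      simp only [Complex.add_re, Complex.add_im, Complex.mul_re, Complex.mul_im, Complex.ofReal_re, Complex.I_re,
        Complex.ofReal_im, Complex.I_im, mul_zero, mul_one, sub_zero, zero_mul, add_zero]
      norm_num
      ring
    have e10 : ‖shc ((B : ℂ) * (-1 / 4 + (t : ℂ) * I - (γ : ℂ) * I))‖ ≤ Real.exp (B / 4) := by
      have h7 := F6_shc_le B (-1 / 4 + (t : ℂ) * I - (γ : ℂ) * I)
      rw [r1] at h7
      have h6 : |(-1 / 4 : ℝ)| = 1 / 4 := by norm_num [abs_of_neg]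
      rw [h6, abs_of_nonneg hB] at h7
      have h8 : B * (1 / 4) = B / 4 := by ring
      rw [h8] at h7
      exact h7
    unfold Phb Ph
    rw [e4, norm_mul, norm_div, norm_mul, norm_mul, norm_neg, norm_mul, ← hσd, ← hwd, e6]
    have e7 : 0 < ‖(-1 / 4 + (t : ℂ) * I - (γ : ℂ) * I)‖ * ‖(1 / 4 + (t : ℂ) * I)‖ := by
      apply mul_pos <;> linarith
    have e8 : 1 / 16 ≤ ‖(-1 / 4 + (t : ℂ) * I - (γ : ℂ) * I)‖ * ‖(1 / 4 + (t : ℂ) * I)‖ := by
      calc (1 : ℝ) / 16 = 1 / 4 * (1 / 4) := by norm_num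
        _ ≤ _ := mul_le_mul e3 e5 (by norm_num) (by linarith)
    have e9 : Real.exp (σ ^ 2 / 2 * ((-1 / 4) ^ 2 - (t - γ) ^ 2) + m * w * |(-1 / 4 : ℝ)|) * Real.exp (-(U / 4)) *
        Real.exp (B / 4) =
        Real.exp (-(U / 4) + σ ^ 2 / 32 + m * w / 4 + B / 4) * Real.exp (-(σ ^ 2 / 2 * (t - γ) ^ 2)) := by
      rw [← Real.exp_add, ← Real.exp_add, ← Real.exp_add]
      congr 1
      have h6 : |(-1 / 4 : ℝ)| = 1 / 4 := by norm_num [abs_of_neg]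
      rw [h6]
      ring
    rw [div_mul_eq_mul_div, div_le_iff₀ e7]
    calc ‖deriv χ.LFunction (1 / 4 + (t : ℂ) * I)‖ * ‖Ek σ w m (-1 / 4 + (t : ℂ) * I - (γ : ℂ) * I)‖ * Real.exp (-(U / 4)) *
          ‖shc ((B : ℂ) * (-1 / 4 + (t : ℂ) * I - (γ : ℂ) * I))‖
        ≤ (C1 * (r : ℝ) ^ 5 * Real.exp (3 * |t|)) *
          Real.exp (σ ^ 2 / 2 * ((-1 / 4) ^ 2 - (t - γ) ^ 2) + m * w * |(-1 / 4 : ℝ)|) * Real.exp (-(U / 4)) *
          Real.exp (B / 4) := by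
          apply mul_le_mul _ e10 (norm_nonneg _) (by positivity)
          apply mul_le_mul_of_nonneg_right _ (Real.exp_pos _).le
          exact mul_le_mul e1 e2 (norm_nonneg _) (by positivity)
      _ = (C1 * (r : ℝ) ^ 5 * Real.exp (3 * |t|)) *
          (Real.exp (σ ^ 2 / 2 * ((-1 / 4) ^ 2 - (t - γ) ^ 2) + m * w * |(-1 / 4 : ℝ)|) * Real.exp (-(U / 4)) *
          Real.exp (B / 4)) := by ring
      _ = A * (Real.exp (3 * |t|) * Real.exp (-(σ ^ 2 / 2 * (t - γ) ^ 2))) * (1 / 16) := by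
          rw [e9, hA]
          ring
      _ ≤ _ := by
          apply mul_le_mul_of_nonneg_left e8
          positivity
  have h1 := norm_integral_le_of_norm_le (hgi.const_mul A) (Filter.Eventually.of_forall hpt)
  refine h1.trans ?_
  rw [integral_const_mul]
  refine (mul_le_mul_of_nonneg_left hgb hA0).trans ?_
  refine le_trans ?_ h5
  rw [hA]
  have h6 : Real.exp (3 * |γ|) ≤ Real.exp (3 * T) := Real.exp_le_exp.mpr (by linarith)
  have h7 : 0 ≤ 2 * Real.exp (9 / (2 * σ ^ 2)) * (Real.sqrt (2 * Real.pi) / σ) := by positivity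
  apply mul_le_mul_of_nonneg_left _ (by positivity)
  exact mul_le_mul_of_nonneg_right h6 h7

end Pool.Agent.SF
end
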