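import Pool.Agent.Lib.MP_9cfc0a_nt.SF.Defs
import Pool.Agent.Lib.MP_9cfc0a_nt.Mg.G053
import Pool.Agent.Lib.MP_9cfc0a_nt.SE.D3

section

set_option autoImplicit false

/-! Task G1: the quotient near the zero. -/

namespace Pool.Agent.SF

open Complex MeasureTheory
open Pool.Agent.SK Pool.Agent.SD Pool.Agent.SE
open Pool.Agent.SO (prim NN pt pz MM kw)

/-- The difference quotient in the variable of the cell. -/
theorem G1_key (r : ℕ) [NeZero r] (hr : 3 ≤ r) (χ : DirichletCharacter ℂ r) (hχ : χ ∈ prim r) (m0 : ℂ) (t γ t' : ℝ)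
    (h0 : χ.LFunction (1 / 2 + (γ : ℂ) * I) = 0) :
    dslope (fun z : ℂ => χ.LFunction (1 / 2 + z)) ((γ : ℂ) * I) ((t' : ℂ) * I) * m0 =
      (Real.log r : ℂ) * dslope (fun z => χ.LFunction (pz r t z) * m0) ((((γ - t) * Real.log r : ℝ) : ℂ) * I)
        ((((t' - t) * Real.log r : ℝ) : ℂ) * I) := by
  have hℓ := B2_log r hr
  have hℓ0 : (0 : ℝ) < Real.log r := by linarith
  have hℓc : (Real.log r : ℂ) ≠ 0 := by exact_mod_cast hℓ0.ne'
  have hχ1 := B2_ne_one r (by omega) χ hχ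
  set F : ℂ → ℂ := fun z => χ.LFunction (pz r t z) * m0 with hF
  have hF0 : F ((((γ - t) * Real.log r : ℝ) : ℂ) * I) = 0 := by
    show χ.LFunction (pz r t ((((γ - t) * Real.log r : ℝ) : ℂ) * I)) * m0 = 0
    rw [B2_pz r hr, h0, zero_mul]
  by_cases hne : t' = γ
  · subst hne
    rw [dslope_same, dslope_same]
    have h1 : HasDerivAt F (deriv χ.LFunction (pz r t ((((t' - t) * Real.log r : ℝ) : ℂ) * I)) * m0 / (Real.log r : ℂ)) _ :=
      SO.deriv_L_pz r (by omega) χ hχ1 m0 t ((((t' - t) * Real.log r : ℝ) : ℂ) * I)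
    have h2 : deriv (fun z : ℂ => χ.LFunction (1 / 2 + z)) ((t' : ℂ) * I) = deriv χ.LFunction (1 / 2 + (t' : ℂ) * I) := by
      rw [deriv_comp_const_add]
    rw [h1.deriv, h2, B2_pz r hr]
    field_simp
  · have hne1 : ((t' : ℂ) * I) ≠ ((γ : ℂ) * I) := by
      intro h1
      exact hne (by exact_mod_cast mul_right_cancel₀ I_ne_zero h1)
    have hd : ((t' : ℂ) - (γ : ℂ)) ≠ 0 := by
      rw [sub_ne_zero]
      exact_mod_cast hne
    have hne2 : ((((t' - t) * Real.log r : ℝ) : ℂ) * I) ≠ ((((γ - t) * Real.log r : ℝ) : ℂ) * I) := by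
      intro h1
      have h2 := mul_right_cancel₀ I_ne_zero h1
      have h3 : (t' - t) * Real.log r = (γ - t) * Real.log r := by exact_mod_cast h2
      exact hne (by linarith [mul_right_cancel₀ hℓ0.ne' h3])
    rw [dslope_of_ne _ hne1, dslope_of_ne _ hne2, slope_def_field, slope_def_field, hF0]
    show (χ.LFunction (1 / 2 + (t' : ℂ) * I) - χ.LFunction (1 / 2 + (γ : ℂ) * I)) / ((t' : ℂ) * I - (γ : ℂ) * I) * m0 =
      (Real.log r : ℂ) * ((χ.LFunction (pz r t ((((t' - t) * Real.log r : ℝ) : ℂ) * I)) * m0 - 0) /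
        ((((t' - t) * Real.log r : ℝ) : ℂ) * I - (((γ - t) * Real.log r : ℝ) : ℂ) * I))
    rw [B2_pz r hr, h0, sub_zero, sub_zero]
    have h4 : ((((t' - t) * Real.log r : ℝ) : ℂ) * I - (((γ - t) * Real.log r : ℝ) : ℂ) * I) =
        (Real.log r : ℂ) * (((t' : ℂ) - γ) * I) := by push_cast; ring
    have h5 : ((t' : ℂ) * I - (γ : ℂ) * I) = ((t' : ℂ) - γ) * I := by ring
    rw [h4, h5]
    field_simp [I_ne_zero]

/-- A bounded entire function near a point. -/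
theorem G1_lip (g : ℂ → ℂ) (hg : Differentiable ℂ g) (K R : ℝ) (hR : 4 ≤ R) (hK : ∀ z, ‖z‖ ≤ R → ‖g z‖ ≤ K) (w₀ : ℂ)
    (hw : ‖w₀‖ ≤ 2) (z : ℂ) (hz : ‖z - w₀‖ ≤ 1) : ‖g z - g w₀‖ ≤ K * ‖z - w₀‖ := by
  have hder : ∀ y ∈ Metric.closedBall w₀ 1, ‖deriv g y‖ ≤ K := by
    intro y hy
    rw [Metric.mem_closedBall, dist_eq_norm] at hy
    have h1 := Complex.norm_deriv_le_of_forall_mem_sphere_norm_le (f := g) (c := y) (R := 1) (C := K) one_pos
      hg.diffContOnCl (fun x hx => by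
        rw [mem_sphere_iff_norm] at hx
        refine hK x ?_
        calc ‖x‖ = ‖(x - y) + (y - w₀) + w₀‖ := by congr 1; ring
          _ ≤ ‖x - y‖ + ‖y - w₀‖ + ‖w₀‖ := (norm_add_le _ _).trans (add_le_add_left (norm_add_le _ _) _)
          _ ≤ R := by rw [hx]; linarith)
    simpa using h1
  exact Convex.norm_image_sub_le_of_norm_deriv_le (fun y _ => hg y) hder (convex_closedBall w₀ 1)
    (Metric.mem_closedBall_self zero_le_one) (by rw [Metric.mem_closedBall, dist_eq_norm]; exact hz)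

/-- G1. -/
theorem cell_near (b R ε₁ : ℝ) (hb1 : 1 ≤ b) (hR : 2 * b + 8 ≤ R) (hε : 0 < ε₁) (hε1 : ε₁ ≤ 1) :
    ∃ C : ℝ, 0 < C ∧ ∀ (r : ℕ) [NeZero r], 3 ≤ r → ∀ χ ∈ prim r, ∀ (K : ℝ) (m : ℕ) (t : ℝ), gd r b R K m χ t →
      ∀ γ : ℝ, |γ - t| ≤ 2 / Real.log r → χ.LFunction (1 / 2 + (γ : ℂ) * I) = 0 → deriv χ.LFunction (1 / 2 + (γ : ℂ) * I) ≠ 0 →
      (∀ s : ℂ, χ.LFunction s = 0 → ‖s - (1 / 2 + (γ : ℂ) * I)‖ < ε₁ / Real.log r → s = 1 / 2 + (γ : ℂ) * I) →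
      ∀ ξ : ℝ, |ξ - γ| ≤ 1 / Real.log r →
      ‖dslope (fun z : ℂ => χ.LFunction (1 / 2 + z)) ((γ : ℂ) * I) ((ξ : ℂ) * I) / deriv χ.LFunction (1 / 2 + (γ : ℂ) * I) - 1‖ ≤
        C * (Real.log r * |ξ - γ|) := by
  obtain ⟨c, hc, hlow⟩ := cell_lower b R ε₁ hb1 hR hε hε1
  refine ⟨Real.exp (4 * R) / c, by positivity, ?_⟩
  intro r _ hr χ hχ K m t h γ hγ h0 hd hz ξ hξ
  have hl := hlow r hr χ hχ K m t h γ hγ h0 hd hz
  have hℓ := B2_log r hr
  have hℓ0 : (0 : ℝ) < Real.log r := by linarith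
  have hℓc : (Real.log r : ℂ) ≠ 0 := by exact_mod_cast hℓ0.ne'
  have hχ1 := B2_ne_one r (by omega) χ hχ
  have hk1 := G1_key r hr χ hχ (MM r χ (pt r b t)) t γ ξ h0
  have hk2 := G1_key r hr χ hχ (MM r χ (pt r b t)) t γ γ h0
  have hFe : Differentiable ℂ (fun z => χ.LFunction (pz r t z) * MM r χ (pt r b t)) := B2_entire r (by omega) χ hχ _ t
  have hFK : ∀ z, ‖z‖ ≤ R → ‖χ.LFunction (pz r t z) * MM r χ (pt r b t)‖ ≤ Real.exp (4 * R) := fun z hz =>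
    cell_le r (by omega) χ hχ b R K (by linarith) m t h z hz
  have hF0 : (fun z => χ.LFunction (pz r t z) * MM r χ (pt r b t)) ((((γ - t) * Real.log r : ℝ) : ℂ) * I) = 0 := by
    show χ.LFunction (pz r t ((((γ - t) * Real.log r : ℝ) : ℂ) * I)) * MM r χ (pt r b t) = 0
    rw [B2_pz r hr, h0, zero_mul]
  have hw := B2_norm r hr t γ 2 hγ
  have hzw : ‖(((ξ - t) * Real.log r : ℝ) : ℂ) * I - (((γ - t) * Real.log r : ℝ) : ℂ) * I‖ = Real.log r * |ξ - γ| := by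
    rw [← sub_mul, norm_mul, Complex.norm_I, mul_one, ← Complex.ofReal_sub, Complex.norm_real, Real.norm_eq_abs]
    have e : (ξ - t) * Real.log r - (γ - t) * Real.log r = Real.log r * (ξ - γ) := by ring
    rw [e, abs_mul, abs_of_pos hℓ0]
  set F : ℂ → ℂ := fun z => χ.LFunction (pz r t z) * MM r χ (pt r b t) with hF
  set m0 : ℂ := MM r χ (pt r b t) with hm0
  set w₀ : ℂ := (((γ - t) * Real.log r : ℝ) : ℂ) * I with hw₀
  set z₀ : ℂ := (((ξ - t) * Real.log r : ℝ) : ℂ) * I with hz₀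
  have hgd : Differentiable ℂ (dslope F w₀) := by
    rw [← differentiableOn_univ]
    exact (Complex.differentiableOn_dslope Filter.univ_mem).2 hFe.differentiableOn
  have hlip := G1_lip (dslope F w₀) hgd (Real.exp (4 * R)) R (by linarith)
    (fun z hz => B2_dslope F hFe R _ (by linarith) hFK w₀ hw hF0 z hz) w₀ hw z₀ (by
      rw [hzw]
      rw [le_div_iff₀ hℓ0] at hξ
      linarith)
  rw [hzw] at hlip
  have hL : dslope (fun z : ℂ => χ.LFunction (1 / 2 + z)) ((γ : ℂ) * I) ((γ : ℂ) * I) =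
      deriv χ.LFunction (1 / 2 + (γ : ℂ) * I) := by
    rw [dslope_same, deriv_comp_const_add]
  rw [hL] at hk2
  have h5 : 0 < ‖deriv χ.LFunction (1 / 2 + (γ : ℂ) * I)‖ * ‖m0‖ := lt_of_lt_of_le (by positivity) hl
  have hm00 : m0 ≠ 0 := by
    intro h1
    rw [h1, norm_zero, mul_zero] at h5
    exact lt_irrefl _ h5
  set D₀ : ℂ := deriv χ.LFunction (1 / 2 + (γ : ℂ) * I) with hD₀
  set D₁ : ℂ := dslope (fun z : ℂ => χ.LFunction (1 / 2 + z)) ((γ : ℂ) * I) ((ξ : ℂ) * I) with hD₁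
  have e1 : D₁ / D₀ - 1 = (Real.log r : ℂ) * (dslope F w₀ z₀ - dslope F w₀ w₀) / (D₀ * m0) := by
    rw [mul_sub, ← hk1, ← hk2]
    field_simp
  rw [e1, norm_div, norm_mul, norm_mul, Complex.norm_real, Real.norm_of_nonneg hℓ0.le, div_le_iff₀ h5]
  calc Real.log r * ‖dslope F w₀ z₀ - dslope F w₀ w₀‖ ≤ Real.log r * (Real.exp (4 * R) * (Real.log r * |ξ - γ|)) :=
        mul_le_mul_of_nonneg_left hlip hℓ0.le
    _ = Real.exp (4 * R) / c * (Real.log r * |ξ - γ|) * (c * Real.log r) := by field_simp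
    _ ≤ Real.exp (4 * R) / c * (Real.log r * |ξ - γ|) * (‖D₀‖ * ‖m0‖) := by gcongr

end Pool.Agent.SF
end

section

set_option autoImplicit false

/-! Task G5: all isolated zeros of the good cells. -/

namespace Pool.Agent.SF

open Complex MeasureTheory
open Pool.Agent.SK Pool.Agent.SD Pool.Agent.SE
open Pool.Agent.SO (prim NN pt pz MM kw)

open scoped Classical in
/-- G5. PROOF. As `select` in SE/D3.lean (see there: cell map `j(w) = ⌊(w.im + T) ⌊ℓ⌋₊⌋₊ < nj r T`, at most `3/ε₁` elements of `IZ` per cell, `okz_of_IZ`). `J` = the `w ∈ IZ` with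
good cell `j(w)`, `t w = tj r T (j w)`. The sum over the others is at most `4 #(IZ \ J) ≤ 4 (3/ε₁) #bad ≤ (12/ε₁) (ε ε₁/(100 (T+1))) (2 T ℓ + 1) ≤ ε ℓ` (`1/(1/4+γ²) ≤ 4`). -/
theorem select_all (T : ℕ) (hT : 1 ≤ T) (ε₁ ε : ℝ) (hε : 0 < ε₁) (hε1 : ε₁ ≤ 1) (he : 0 < ε) (r : ℕ) [NeZero r]
    (hr : Real.exp 4 ≤ r) (χ : DirichletCharacter ℂ r) (hχ : χ ∈ prim r) (b R K : ℝ) (m : ℕ)
    (hb : (((Finset.range (nj r T)).filter (fun j => ¬ gd r b R K m χ (tj r T j))).card : ℝ) ≤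
      ε * ε₁ / (100 * (T + 1)) * (nj r T : ℝ)) :
    ∃ (J : Finset ℂ) (t : ℂ → ℝ), J ⊆ IZ χ (T : ℝ) (ε₁ / Real.log r) ∧
      (∀ w ∈ J, w.re = 0 ∧ gd r b R K m χ (t w) ∧ okz r χ T ε₁ (t w) w.im) ∧
      gF (IZ χ (T : ℝ) (ε₁ / Real.log r)) - ε * Real.log r ≤ gF J := by
  have hr0 : (0 : ℝ) < r := lt_of_lt_of_le (Real.exp_pos 4) hr
  have hl4 : 4 ≤ Real.log r := (Real.le_log_iff_exp_le hr0).2 hr
  have hr3 : 3 ≤ r := by
    have h1 : (4 : ℝ) + 1 ≤ Real.exp 4 := Real.add_one_le_exp 4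
    have h2 : (3 : ℝ) ≤ r := by linarith
    exact_mod_cast h2
  obtain ⟨ℓ, hℓ⟩ : ∃ ℓ : ℝ, ℓ = Real.log r := ⟨_, rfl⟩
  rw [← hℓ] at hl4 ⊢
  obtain ⟨N, hN⟩ : ∃ N : ℕ, N = ⌊ℓ⌋₊ := ⟨_, rfl⟩
  have hN1 : (N : ℝ) ≤ ℓ := by rw [hN]; exact Nat.floor_le (by linarith)
  have hN2 : ℓ < N + 1 := by rw [hN]; exact Nat.lt_floor_add_one ℓ
  have hN0 : (0 : ℝ) < N := by linarith
  have hNℓ : 1 / (N : ℝ) ≤ 2 / ℓ := by
    rw [div_le_div_iff₀ hN0 (by linarith)]
    linarith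
  have hTR : (1 : ℝ) ≤ T := by exact_mod_cast hT
  obtain ⟨F, hF⟩ : ∃ F : Finset ℂ, F = IZ χ (T : ℝ) (ε₁ / ℓ) := ⟨_, rfl⟩
  have hFmem : ∀ w ∈ F, w.re = 0 ∧ |w.im| ≤ T ∧ Lam χ w = 0 ∧ iso χ (ε₁ / ℓ) w := by
    intro w hw
    rw [hF] at hw
    unfold IZ at hw
    rw [Finset.mem_filter] at hw
    obtain ⟨h1, h2⟩ := hw
    unfold GZ at h1
    rw [Finset.mem_filter] at h1
    have h3 := (mem_Z r (by omega) χ hχ T w).1 h1.1
    exact ⟨h1.2.1, h3.2, h3.1, h2⟩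
  -- the cells
  obtain ⟨jm, hjm⟩ : ∃ jm : ℂ → ℕ, jm = fun w : ℂ => ⌊(w.im + (T : ℝ)) * (N : ℝ)⌋₊ :=
    ⟨_, rfl⟩
  have hjm' : ∀ w : ℂ, jm w = ⌊(w.im + (T : ℝ)) * (N : ℝ)⌋₊ := fun w => by rw [hjm]
  have htj : ∀ j, tj r T j = -(T : ℝ) + (j : ℝ) / N := by
    intro j
    unfold tj
    rw [← hℓ, ← hN]
  have hnj : nj r T = 2 * T * N + 1 := by
    unfold nj
    rw [← hℓ, ← hN]
  have hpos : ∀ w ∈ F, 0 ≤ (w.im + T) * N := by
    intro w hw
    have h1 := abs_le.1 (hFmem w hw).2.1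
    exact mul_nonneg (by linarith [h1.1]) hN0.le
  have hlt : ∀ w ∈ F, jm w < nj r T := by
    intro w hw
    rw [hjm', hnj]
    have h1 := abs_le.1 (hFmem w hw).2.1
    have h2 : (w.im + T) * N ≤ ((2 * T * N : ℕ) : ℝ) := by
      push_cast
      exact mul_le_mul_of_nonneg_right (by linarith [h1.2]) hN0.le
    have h3 := Nat.floor_le_floor h2
    rw [Nat.floor_natCast] at h3
    omega
  have hnear : ∀ w ∈ F, 0 ≤ w.im - tj r T (jm w) ∧ w.im - tj r T (jm w) < 1 / N := by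
    intro w hw
    rw [htj]
    have h1 : ((jm w : ℕ) : ℝ) ≤ (w.im + T) * N := by
      rw [hjm']
      exact Nat.floor_le (hpos w hw)
    have h2 : (w.im + T) * N < (jm w : ℝ) + 1 := by
      rw [hjm']
      exact Nat.lt_floor_add_one _
    have h3 : (jm w : ℝ) / N ≤ w.im + T := by
      rw [div_le_iff₀ hN0]
      exact h1
    have h4 : w.im + T < (jm w : ℝ) / N + 1 / N := by
      rw [← add_div, lt_div_iff₀ hN0]
      exact h2
    constructor
    · linarith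
    · linarith
  -- the fibres
  obtain ⟨Q, hQ⟩ : ∃ Q : ℕ, Q = ⌊2 / ε₁⌋₊ + 1 := ⟨_, rfl⟩
  have hQ3 : (Q : ℝ) ≤ 3 / ε₁ := by
    have h1 : ((⌊2 / ε₁⌋₊ : ℕ) : ℝ) ≤ 2 / ε₁ := Nat.floor_le (by positivity)
    have h2 : 1 ≤ 1 / ε₁ := by
      rw [le_div_iff₀ hε]
      linarith
    have h3 : (3 : ℝ) / ε₁ = 2 / ε₁ + 1 / ε₁ := by ring
    rw [hQ, h3]
    push_cast
    linarith
  have hℓε : 0 < ℓ / ε₁ := by
    have : 0 < ℓ := by linarith
    positivity
  have hfib : ∀ j, (F.filter (fun w => jm w = j)).card ≤ Q := by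
    intro j
    have hmaps : ∀ w ∈ F.filter (fun w => jm w = j), ⌊(w.im - tj r T j) * (ℓ / ε₁)⌋₊ ∈ Finset.range Q := by
      intro w hw
      rw [Finset.mem_filter] at hw
      obtain ⟨hwF, hwj⟩ := hw
      have h1 := hnear w hwF
      rw [hwj] at h1
      rw [Finset.mem_range, hQ, Nat.lt_succ_iff]
      refine Nat.floor_le_floor ?_
      have h2 : (w.im - tj r T j) * (ℓ / ε₁) ≤ (2 / ℓ) * (ℓ / ε₁) :=
        mul_le_mul_of_nonneg_right (h1.2.le.trans hNℓ) hℓε.le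
      refine h2.trans (le_of_eq ?_)
      have : ℓ ≠ 0 := by linarith
      field_simp
    have hinj : Set.InjOn (fun w : ℂ => ⌊(w.im - tj r T j) * (ℓ / ε₁)⌋₊) (F.filter (fun w => jm w = j)) := by
      intro w hw w' hw' heq
      rw [Finset.mem_coe, Finset.mem_filter] at hw hw'
      obtain ⟨hwF, hwj⟩ := hw
      obtain ⟨hwF', hwj'⟩ := hw'
      have h1 := hnear w hwF
      have h1' := hnear w' hwF'
      rw [hwj] at h1
      rw [hwj'] at h1'
      have h2 : 0 ≤ (w.im - tj r T j) * (ℓ / ε₁) := mul_nonneg h1.1 hℓε.le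
      have h2' : 0 ≤ (w'.im - tj r T j) * (ℓ / ε₁) := mul_nonneg h1'.1 hℓε.le
      have h3 := Nat.floor_le h2
      have h4 := Nat.lt_floor_add_one ((w.im - tj r T j) * (ℓ / ε₁))
      have h3' := Nat.floor_le h2'
      have h4' := Nat.lt_floor_add_one ((w'.im - tj r T j) * (ℓ / ε₁))
      simp only at heq
      rw [← heq] at h3' h4'
      have h5 : |(w'.im - w.im) * (ℓ / ε₁)| < 1 := by
        rw [abs_lt]
        constructor
        · nlinarith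
        · nlinarith
      have h6 : |w'.im - w.im| < ε₁ / ℓ := by
        rw [abs_mul, abs_of_pos hℓε] at h5
        rw [lt_div_iff₀ (by linarith)]
        have h7 : |w'.im - w.im| * (ℓ / ε₁) * ε₁ < 1 * ε₁ := mul_lt_mul_of_pos_right h5 hε
        have h8 : |w'.im - w.im| * (ℓ / ε₁) * ε₁ = |w'.im - w.im| * ℓ := by
          field_simp
        linarith
      obtain ⟨a1, -, -, a4⟩ := hFmem w hwF
      obtain ⟨b1, -, b3, -⟩ := hFmem w' hwF'
      by_contra hne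
      have h7 := a4 w' b3 (fun h => hne h.symm)
      have h8 : ‖w' - w‖ ≤ |w'.im - w.im| := by
        have h9 := Complex.norm_le_abs_re_add_abs_im (w' - w)
        rw [Complex.sub_re, Complex.sub_im, a1, b1, sub_zero, abs_zero, zero_add] at h9
        exact h9
      linarith
    have := Finset.card_le_card_of_injOn _ hmaps hinj
    rwa [Finset.card_range] at this
  -- the zeros in the good cells
  obtain ⟨J, hJ⟩ : ∃ J : Finset ℂ, J = F.filter (fun w => gd r b R K m χ (tj r T (jm w))) := ⟨_, rfl⟩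
  obtain ⟨B, hB⟩ : ∃ B : Finset ℂ, B = F.filter (fun w => ¬ gd r b R K m χ (tj r T (jm w))) := ⟨_, rfl⟩
  have hBc : (B.card : ℝ) ≤ (Q : ℝ) * ((B.image jm).card : ℝ) := by
    have h1 : ∀ j ∈ B.image jm, (B.filter (fun w => jm w = j)).card ≤ Q := by
      intro j _
      refine (Finset.card_le_card ?_).trans (hfib j)
      rw [hB]
      exact Finset.filter_subset_filter _ (Finset.filter_subset _ _)
    have := Finset.card_le_mul_card_image B Q h1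
    exact_mod_cast this
  have hbad : ((B.image jm).card : ℝ) ≤ ε * ε₁ * ℓ / 50 := by
    have h1 : (B.image jm).card ≤
        ((Finset.range (nj r T)).filter (fun j => ¬ gd r b R K m χ (tj r T j))).card := by
      refine Finset.card_le_card ?_
      intro j hj
      obtain ⟨w, hw, rfl⟩ := Finset.mem_image.1 hj
      rw [hB, Finset.mem_filter] at hw
      exact Finset.mem_filter.2 ⟨Finset.mem_range.2 (hlt w hw.1), hw.2⟩
    have h2 : (nj r T : ℝ) ≤ 2 * (T + 1) * ℓ := by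
      rw [hnj]
      push_cast
      nlinarith
    calc ((B.image jm).card : ℝ)
        ≤ (((Finset.range (nj r T)).filter (fun j => ¬ gd r b R K m χ (tj r T j))).card : ℝ) := by
          exact_mod_cast h1
      _ ≤ ε * ε₁ / (100 * (T + 1)) * (nj r T : ℝ) := hb
      _ ≤ ε * ε₁ / (100 * (T + 1)) * (2 * (T + 1) * ℓ) := by gcongr
      _ = ε * ε₁ * ℓ / 50 := by
          have : (T : ℝ) + 1 ≠ 0 := by positivity
          field_simp
          ring
  have hBsum : ∑ w ∈ B, 1 / (1 / 4 + w.im ^ 2) ≤ ε * ℓ := by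
    have h1 : ∑ w ∈ B, 1 / (1 / 4 + w.im ^ 2) ≤ 4 * (B.card : ℝ) := by
      calc ∑ w ∈ B, 1 / (1 / 4 + w.im ^ 2) ≤ ∑ w ∈ B, (4 : ℝ) := by
            refine Finset.sum_le_sum fun w _ => ?_
            rw [div_le_iff₀ (by positivity)]
            nlinarith [sq_nonneg w.im]
        _ = 4 * (B.card : ℝ) := by rw [Finset.sum_const, nsmul_eq_mul]; ring
    have h2 : (B.card : ℝ) ≤ 3 / ε₁ * (ε * ε₁ * ℓ / 50) :=
      hBc.trans (mul_le_mul hQ3 hbad (Nat.cast_nonneg _) (by positivity))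
    have h3 : 3 / ε₁ * (ε * ε₁ * ℓ / 50) = 3 * (ε * ℓ) / 50 := by
      field_simp
    have h4 : 0 ≤ ε * ℓ := mul_nonneg he.le (by linarith)
    rw [h3] at h2
    linarith
  have hsplit : gF F = gF J + ∑ w ∈ B, 1 / (1 / 4 + w.im ^ 2) := by
    unfold gF
    rw [hJ, hB]
    exact (Finset.sum_filter_add_sum_filter_not F _ _).symm
  refine ⟨J, fun w => tj r T (jm w), ?_, ?_, ?_⟩
  · rw [← hF, hJ]
    exact Finset.filter_subset _ _
  · intro w hw
    rw [hJ, Finset.mem_filter] at hw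
    have h1 := hnear w hw.1
    refine ⟨(hFmem w hw.1).1, hw.2, okz_of_IZ r hr3 χ hχ T ε₁ (tj r T (jm w)) ?_ w ?_ ?_⟩
    · rw [← hℓ, div_le_iff₀ (by linarith)]
      linarith
    · rw [← hℓ, ← hF]
      exact hw.1
    · rw [← hℓ, abs_of_nonneg h1.1]
      exact h1.2.le.trans hNℓ
  · rw [← hF, hsplit]
    linarith

end Pool.Agent.SF
end

section

set_option autoImplicit false

/-! Task H1: from the primitive character to the character, sharp. -/

namespace Pool.Agent.SF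

open Complex MeasureTheory
open Pool.Agent.SK Pool.Agent.SD Pool.Agent.SE
open Pool.Agent.EM (psiC V)

/-- Pointwise: `‖a‖² ≥ (1-κ)‖b‖² - (1/κ)‖b - a‖²`. -/
private theorem H1_pt (κ A B D : ℝ) (hκ0 : 0 < κ) (hκ1 : κ ≤ 1) (hA0 : 0 ≤ A) (hAB : A ≤ B + D) :
    (1 - κ) * A ^ 2 - 1 / κ * D ^ 2 ≤ B ^ 2 := by
  have h6 := pow_le_pow_left₀ hA0 hAB 2
  have h7 : (1 - κ) * A ^ 2 ≤ (1 - κ) * (B + D) ^ 2 := mul_le_mul_of_nonneg_left h6 (by linarith)
  have h8 : 0 ≤ ((κ * B - (1 - κ) * D) ^ 2 + κ * D ^ 2) / κ := by positivity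
  have h9 : ((κ * B - (1 - κ) * D) ^ 2 + κ * D ^ 2) / κ = B ^ 2 + 1 / κ * D ^ 2 - (1 - κ) * (B + D) ^ 2 := by
    field_simp
    ring
  linarith

/-- H1. PROOF. As `window_induced` in SE/D6.lean (COPY): `‖a‖² ≥ (1-κ)‖b‖² - (1/κ)‖b - a‖²` instead of `(1/2)‖b‖² - ‖b-a‖²`. (`C = 272`.) -/
theorem window_inducedN : ∃ C : ℝ, 0 < C ∧ ∀ κ : ℝ, 0 < κ → κ ≤ 1 → ∀ (q : ℕ) [NeZero q], 3 ≤ q → ∀ (χ : DirichletCharacter ℂ q) (a b : ℝ),
    0 ≤ a → a ≤ b →
    (1 - κ) * (∫ x in Set.Ioc (Real.exp a) (Real.exp b), ‖psiC χ.primitiveCharacter x‖ ^ 2 / x ^ 2) - C / κ * (Real.log q) ^ (3 / 2 : ℝ) ≤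
      ∫ x in Set.Ioc (Real.exp a) (Real.exp b), ‖psiC χ x‖ ^ 2 / x ^ 2 := by
  refine ⟨272, by norm_num, fun κ hκ0 hκ1 q _ hq χ a b ha hab => ?_⟩
  have hX : 1 ≤ Real.exp a := Real.one_le_exp ha
  have i1 := Pool.Agent.EM.integrable_psiC_sq_window χ.primitiveCharacter (Real.exp a) (Real.exp b) hX
  have i2 := Pool.Agent.EM.integrable_psiC_sq_window χ (Real.exp a) (Real.exp b) hX
  have i3 := MP9cfc0a.SK.F2_int χ.primitiveCharacter χ (Real.exp a) (Real.exp b) hX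
  have i4 := MP9cfc0a.SK.F2_int χ.primitiveCharacter χ 1 (Real.exp b) le_rfl
  have h1 := MP9cfc0a.SK.diff_energy q hq χ (Real.exp b)
  have h2 : ∫ x in Set.Ioc (Real.exp a) (Real.exp b), ‖psiC χ.primitiveCharacter x - psiC χ x‖ ^ 2 / x ^ 2 ≤
      ∫ x in Set.Ioc 1 (Real.exp b), ‖psiC χ.primitiveCharacter x - psiC χ x‖ ^ 2 / x ^ 2 := by
    have hg0 : ∀ x : ℝ, 0 ≤ ‖psiC χ.primitiveCharacter x - psiC χ x‖ ^ 2 / x ^ 2 := fun x => by positivity
    refine setIntegral_mono_set i4 (Filter.Eventually.of_forall hg0) ?_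
    exact (Set.Ioc_subset_Ioc_left hX).eventuallyLE
  have h3 : (1 - κ) * (∫ x in Set.Ioc (Real.exp a) (Real.exp b), ‖psiC χ.primitiveCharacter x‖ ^ 2 / x ^ 2) -
      1 / κ * (∫ x in Set.Ioc (Real.exp a) (Real.exp b), ‖psiC χ.primitiveCharacter x - psiC χ x‖ ^ 2 / x ^ 2) ≤
      ∫ x in Set.Ioc (Real.exp a) (Real.exp b), ‖psiC χ x‖ ^ 2 / x ^ 2 := by
    rw [← integral_const_mul, ← integral_const_mul, ← integral_sub (i1.const_mul _) (i3.const_mul _)]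
    refine setIntegral_mono_on ((i1.const_mul _).sub (i3.const_mul _)) i2 measurableSet_Ioc fun x hx => ?_
    have hx0 : 0 < x := (Real.exp_pos a).trans hx.1
    have hAB : ‖psiC χ.primitiveCharacter x‖ ≤ ‖psiC χ x‖ + ‖psiC χ.primitiveCharacter x - psiC χ x‖ := by
      have h4 : psiC χ.primitiveCharacter x = psiC χ x + (psiC χ.primitiveCharacter x - psiC χ x) := by
        ring
      calc ‖psiC χ.primitiveCharacter x‖ = ‖psiC χ x + (psiC χ.primitiveCharacter x - psiC χ x)‖ := by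
            rw [← h4]
        _ ≤ _ := norm_add_le _ _
    have h5 := H1_pt κ ‖psiC χ.primitiveCharacter x‖ ‖psiC χ x‖
      ‖psiC χ.primitiveCharacter x - psiC χ x‖ hκ0 hκ1 (norm_nonneg _) hAB
    calc (1 - κ) * (‖psiC χ.primitiveCharacter x‖ ^ 2 / x ^ 2) -
          1 / κ * (‖psiC χ.primitiveCharacter x - psiC χ x‖ ^ 2 / x ^ 2)
        = ((1 - κ) * ‖psiC χ.primitiveCharacter x‖ ^ 2 -
            1 / κ * ‖psiC χ.primitiveCharacter x - psiC χ x‖ ^ 2) / x ^ 2 := by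
          ring
      _ ≤ ‖psiC χ x‖ ^ 2 / x ^ 2 := div_le_div_of_nonneg_right h5 (by positivity)
  have h6 : 1 / κ * (∫ x in Set.Ioc (Real.exp a) (Real.exp b), ‖psiC χ.primitiveCharacter x - psiC χ x‖ ^ 2 / x ^ 2) ≤
      1 / κ * (272 * (Real.log q) ^ (3 / 2 : ℝ)) :=
    mul_le_mul_of_nonneg_left (h2.trans h1) (by positivity)
  have h7 : 1 / κ * (272 * (Real.log q) ^ (3 / 2 : ℝ)) = 272 / κ * (Real.log q) ^ (3 / 2 : ℝ) := by ring
  linarith

end Pool.Agent.SF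
end
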