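import Pool.Agent.Lib.MP_9cfc0a_nt.Mg.G060
import Pool.Agent.Lib.MP_9cfc0a_nt.Mg.G065
import Pool.Agent.Lib.MP_9cfc0a_nt.Mg.G054
import Pool.Agent.Lib.MP_9cfc0a_nt.Mg.G059
import Pool.Agent.Lib.MP_9cfc0a_nt.Mg.G058

section

set_option autoImplicit false

/-! Task G2: the rest is small. -/

namespace Pool.Agent.SF

open Complex MeasureTheory
open Pool.Agent.SK Pool.Agent.SD Pool.Agent.SE
open Pool.Agent.SO (prim NN pt pz MM kw)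

theorem G2_log {r : ℕ} (hr : 3 ≤ r) : 1 ≤ Real.log r := by
  have h3 : (3 : ℝ) ≤ r := by exact_mod_cast hr
  have h1 : Real.exp 1 ≤ r := le_trans (by have := Real.exp_one_lt_d9; linarith) h3
  rw [Real.le_log_iff_exp_le (by linarith)]
  exact h1

/-- The near part. -/
theorem G2_near {r : ℕ} [NeZero r] (χ : DirichletCharacter ℂ r) (m : ℕ) (B U γ a ξ C₂ ℓ : ℝ) (hB : 0 < B) (hC : 0 ≤ C₂)
    (hℓ : 0 ≤ ℓ) (hξ : |ξ - γ| ≤ a)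
    (hn : ‖dslope (fun z : ℂ => χ.LFunction (1 / 2 + z)) ((γ : ℂ) * I) ((ξ : ℂ) * I) /
      deriv χ.LFunction (1 / 2 + (γ : ℂ) * I) - 1‖ ≤ C₂ * (ℓ * |ξ - γ|)) :
    ‖rest χ m B U γ a ξ‖ ≤ C₂ * ℓ / B := by
  have e0 : (ξ : ℂ) * I - (γ : ℂ) * I = ((ξ - γ : ℝ) : ℂ) * I := by push_cast; ring
  have e1 : rest χ m B U γ a ξ = (dslope (fun z : ℂ => χ.LFunction (1 / 2 + z)) ((γ : ℂ) * I) ((ξ : ℂ) * I) /
      deriv χ.LFunction (1 / 2 + (γ : ℂ) * I) - 1) *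
      (Ek (sg r U) (vl r m U) m (((ξ - γ : ℝ) : ℂ) * I) * shc ((B : ℂ) * (((ξ - γ : ℝ) : ℂ) * I))) := by
    unfold rest hb hh Eb
    rw [if_pos hξ, e0]
    ring
  rw [e1, norm_mul, norm_mul]
  rcases eq_or_ne (ξ - γ) 0 with h | h
  · rw [h, abs_zero, mul_zero, mul_zero] at hn
    have h2 := le_antisymm hn (norm_nonneg _)
    rw [h2, zero_mul]
    positivity
  · have h1 := Ek_one (sg r U) (vl r m U) m (ξ - γ)
    have h2 := shc_far B (ξ - γ) hB h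
    have h3 : 0 < |ξ - γ| := abs_pos.2 h
    calc _ ≤ (C₂ * (ℓ * |ξ - γ|)) * (1 * (1 / (B * |ξ - γ|))) := by
          refine mul_le_mul hn (mul_le_mul h1 h2 (norm_nonneg _) zero_le_one) (by positivity) (by positivity)
      _ = C₂ * ℓ / B := by field_simp

/-- The far part. -/
theorem G2_far {r : ℕ} [NeZero r] (χ : DirichletCharacter ℂ r) (m : ℕ) (B U γ a ξ c ℓ : ℝ) (M : ℂ) (hB : 0 < B) (ha : 0 < a)
    (hc : 0 < c) (hℓ : 0 < ℓ) (hξ : ¬ |ξ - γ| ≤ a)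
    (hl : c * ℓ ≤ ‖deriv χ.LFunction (1 / 2 + (γ : ℂ) * I)‖ * ‖M‖) :
    ‖rest χ m B U γ a ξ‖ ≤ 1 / (B * a * (c * ℓ)) * (‖hh χ m U γ ((ξ : ℂ) * I)‖ * ‖M‖) := by
  have e0 : (ξ : ℂ) * I - (γ : ℂ) * I = ((ξ - γ : ℝ) : ℂ) * I := by push_cast; ring
  have hξ' : a < |ξ - γ| := not_le.1 hξ
  have h3 : 0 < |ξ - γ| := ha.trans hξ'
  have h4 : ξ - γ ≠ 0 := abs_pos.1 h3
  have h5 : 0 < ‖deriv χ.LFunction (1 / 2 + (γ : ℂ) * I)‖ * ‖M‖ := lt_of_lt_of_le (by positivity) hl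
  have h6 : 0 < ‖deriv χ.LFunction (1 / 2 + (γ : ℂ) * I)‖ := pos_of_mul_pos_left h5 (norm_nonneg _)
  unfold rest hb
  rw [if_neg hξ, sub_zero, norm_div, norm_mul, e0]
  have h2 := shc_far B (ξ - γ) hB h4
  have h7 : ‖shc ((B : ℂ) * (((ξ - γ : ℝ) : ℂ) * I))‖ ≤ 1 / (B * a) :=
    h2.trans (one_div_le_one_div_of_le (by positivity) (by gcongr))
  have h8 : 1 / ‖deriv χ.LFunction (1 / 2 + (γ : ℂ) * I)‖ ≤ ‖M‖ / (c * ℓ) := by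
    rw [div_le_div_iff₀ h6 (by positivity)]
    linarith
  calc _ = ‖hh χ m U γ ((ξ : ℂ) * I)‖ * ‖shc ((B : ℂ) * (((ξ - γ : ℝ) : ℂ) * I))‖ *
        (1 / ‖deriv χ.LFunction (1 / 2 + (γ : ℂ) * I)‖) := by ring
    _ ≤ ‖hh χ m U γ ((ξ : ℂ) * I)‖ * (1 / (B * a)) * (‖M‖ / (c * ℓ)) := by
        refine mul_le_mul (mul_le_mul_of_nonneg_left h7 (norm_nonneg _)) h8 (by positivity) (by positivity)
    _ = _ := by field_simp

/-- Measurability. -/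
theorem G2_meas (r : ℕ) [NeZero r] (hr : 2 ≤ r) (χ : DirichletCharacter ℂ r) (hχ : χ ∈ prim r) (m : ℕ) (B U γ a : ℝ) :
    Measurable (fun ξ : ℝ => rest χ m B U γ a ξ) := by
  unfold rest
  have h1 : Continuous fun ξ : ℝ => hb χ m B U γ ((ξ : ℂ) * I) := by
    unfold hb
    exact ((hh_diff r hr χ hχ m U γ).continuous.comp (by fun_prop)).mul (shc_diff.continuous.comp (by fun_prop))
  have h2 : Continuous fun ξ : ℝ => Eb (sg r U) (vl r m U) B m (((ξ - γ : ℝ) : ℂ) * I) := by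
    unfold Eb
    exact ((Ek_diff _ _ _).continuous.comp (by fun_prop)).mul (shc_diff.continuous.comp (by fun_prop))
  refine (h1.measurable.div_const _).sub (Measurable.ite ?_ h2.measurable measurable_const)
  exact (isClosed_le (by fun_prop : Continuous fun ξ : ℝ => |ξ - γ|) continuous_const).measurableSet

/-- G2. -/
theorem rest_norm (m : ℕ) (hm : 6 ≤ m) (b R K T ε₁ : ℝ) (hb1 : 1 ≤ b) (hR : 2 * b + 8 ≤ R) (hK : 0 ≤ K) (hT : 0 ≤ T)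
    (hε : 0 < ε₁) (hε1 : ε₁ ≤ 1) (η : ℝ) (hη : 0 < η) : ∃ N₀ : ℕ, 1 ≤ N₀ ∧ ∀ N : ℕ, N₀ ≤ N → ∃ r₀ : ℕ, 3 ≤ r₀ ∧
    ∀ (r : ℕ) [NeZero r], r₀ ≤ r → ∀ χ ∈ prim r, ∀ t : ℝ, gd r b R K m χ t → ∀ γ : ℝ, okz r χ T ε₁ t γ → ∀ U : ℝ, 4000 * Real.log r ≤ U →
    Integrable (fun ξ : ℝ => ‖rest χ m (BN r N U) U γ (ε₁ / 4 / Real.log r) ξ‖ ^ 2 * (1 + Real.log r * |ξ - t|) ^ 2) ∧
    ∫ ξ : ℝ, ‖rest χ m (BN r N U) U γ (ε₁ / 4 / Real.log r) ξ‖ ^ 2 * (1 + Real.log r * |ξ - t|) ^ 2 ≤ η / BN r N U := by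
  obtain ⟨r₁, hr₁, hreg⟩ := regime 1 T le_rfl hT m (by omega)
  obtain ⟨C₁, hC₁, r₂, hr₂, hone⟩ := one_norm m hm R K (by linarith) hK T hT
  obtain ⟨c, hc, hlow⟩ := cell_lower b R ε₁ hb1 hR hε hε1
  obtain ⟨C₂, hC₂, hnear⟩ := cell_near b R ε₁ hb1 hR hε hε1
  obtain ⟨A, hA⟩ : ∃ A : ℝ, A = 8 * C₂ ^ 2 * ε₁ / 1000 + 16 * C₁ / (10 ^ 6 * ε₁ ^ 2 * c ^ 2) := ⟨_, rfl⟩
  have hA0 : 0 < A := by rw [hA]; positivity
  refine ⟨max 1 ⌈A / η⌉₊, le_max_left _ _, fun N hN => ⟨max r₁ r₂, hr₁.trans (le_max_left _ _), ?_⟩⟩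
  intro r _ hr χ hχ t hgd γ hok U hU
  have hr3 : 3 ≤ r := hr₁.trans ((le_max_left _ _).trans hr)
  have hN1 : 1 ≤ N := (le_max_left _ _).trans hN
  have hNA : A / η ≤ N := (Nat.le_ceil _).trans (by exact_mod_cast (le_max_right _ _).trans hN)
  have hN0 : (0 : ℝ) < N := by exact_mod_cast hN1
  obtain ⟨hV, hVU, ⟨-, -, hσ, hw⟩, -, -, -, hlV, hU1⟩ := hreg r ((le_max_left _ _).trans hr) U hU
  obtain ⟨hγT, hγt, h0, hd, hiso⟩ := hok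
  obtain ⟨hint, hle⟩ := hone r ((le_max_right _ _).trans hr) χ hχ b t hgd γ hγT hγt h0 U hU
  have hl := hlow r hr3 χ hχ K m t hgd γ hγt h0 hd hiso
  have hnr := hnear r hr3 χ hχ K m t hgd γ hγt h0 hd hiso
  have hℓ1 := G2_log hr3
  set ℓ : ℝ := Real.log r with hℓ
  set V : ℝ := VV r U with hVdef
  set M : ℂ := MM r χ (pt r b t) with hM
  obtain ⟨B, hB⟩ : ∃ B : ℝ, B = BN r N U := ⟨_, rfl⟩
  have hBV : B = N * V := by rw [hB, BN]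
  have hℓ0 : 0 < ℓ := by linarith
  have hV0 : 0 < V := by linarith
  have hB0 : 0 < B := by rw [hBV]; positivity
  obtain ⟨a, ha⟩ : ∃ a : ℝ, a = ε₁ / 4 / ℓ := ⟨_, rfl⟩
  have ha0 : 0 < a := by rw [ha]; positivity
  have haℓ : a * ℓ = ε₁ / 4 := by rw [ha]; field_simp
  rw [← hB, ← ha]
  obtain ⟨D, hD⟩ : ∃ D : ℝ, D = (1 / (B * a * (c * ℓ))) ^ 2 := ⟨_, rfl⟩
  have hD0 : 0 ≤ D := by rw [hD]; positivity
  set g₁ : ℝ → ℝ := (Set.Icc (γ - a) (γ + a)).indicator (fun _ => 16 * (C₂ * ℓ / B) ^ 2) with hg₁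
  set g₂ : ℝ → ℝ := fun ξ => (‖hh χ m U γ ((ξ : ℂ) * I)‖ * ‖M‖) ^ 2 * (1 + ℓ * |ξ - t|) ^ 2 with hg₂
  have hg₁int : Integrable g₁ := by
    rw [hg₁, integrable_indicator_iff measurableSet_Icc]
    exact integrableOn_const (by rw [Real.volume_Icc]; exact ENNReal.ofReal_ne_top)
  have hg₁v : ∫ ξ, g₁ ξ = 16 * (C₂ * ℓ / B) ^ 2 * (2 * a) := by
    rw [hg₁, integral_indicator measurableSet_Icc, setIntegral_const, Real.volume_real_Icc_of_le (by linarith), smul_eq_mul]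
    ring
  have hpt : ∀ ξ : ℝ, ‖rest χ m B U γ a ξ‖ ^ 2 * (1 + ℓ * |ξ - t|) ^ 2 ≤ g₁ ξ + D * g₂ ξ := by
    intro ξ
    by_cases hξ : |ξ - γ| ≤ a
    · have h1 : g₁ ξ = 16 * (C₂ * ℓ / B) ^ 2 := by
        rw [hg₁, Set.indicator_of_mem]
        rw [abs_le] at hξ
        exact ⟨by linarith [hξ.1], by linarith [hξ.2]⟩
      have h2 : |ξ - γ| ≤ 1 / ℓ := by
        refine hξ.trans ?_
        rw [ha]
        gcongr
        linarith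
      have h3 := G2_near χ m B U γ a ξ C₂ ℓ hB0 hC₂.le hℓ0.le hξ (hnr ξ h2)
      have h4 : 1 + ℓ * |ξ - t| ≤ 4 := by
        have h5 : |ξ - t| ≤ a + 2 / ℓ := by
          calc |ξ - t| = |(ξ - γ) + (γ - t)| := by congr 1; ring
            _ ≤ |ξ - γ| + |γ - t| := abs_add_le _ _
            _ ≤ _ := add_le_add hξ hγt
        have h6 : ℓ * |ξ - t| ≤ ℓ * (a + 2 / ℓ) := mul_le_mul_of_nonneg_left h5 hℓ0.le
        have h7 : ℓ * (a + 2 / ℓ) = ε₁ / 4 + 2 := by rw [← haℓ]; field_simp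
        linarith
      have h8 : 0 ≤ D * g₂ ξ := by rw [hg₂]; positivity
      have h9 : ‖rest χ m B U γ a ξ‖ ^ 2 * (1 + ℓ * |ξ - t|) ^ 2 ≤ (C₂ * ℓ / B) ^ 2 * 4 ^ 2 := by
        have h10 : 0 ≤ 1 + ℓ * |ξ - t| := by positivity
        gcongr
      rw [h1]
      linarith
    · have h1 : g₁ ξ = 0 := by
        rw [hg₁, Set.indicator_of_notMem]
        intro h
        exact hξ (abs_le.2 ⟨by linarith [h.1], by linarith [h.2]⟩)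
      have h3 := G2_far χ m B U γ a ξ c ℓ M hB0 ha0 hc hℓ0 hξ hl
      rw [h1, zero_add, hD, hg₂]
      show _ ≤ (1 / (B * a * (c * ℓ))) ^ 2 * ((‖hh χ m U γ ((ξ : ℂ) * I)‖ * ‖M‖) ^ 2 * (1 + ℓ * |ξ - t|) ^ 2)
      calc ‖rest χ m B U γ a ξ‖ ^ 2 * (1 + ℓ * |ξ - t|) ^ 2
          ≤ (1 / (B * a * (c * ℓ)) * (‖hh χ m U γ ((ξ : ℂ) * I)‖ * ‖M‖)) ^ 2 * (1 + ℓ * |ξ - t|) ^ 2 := by gcongr
        _ = _ := by ring
  have hgint : Integrable (fun ξ => g₁ ξ + D * g₂ ξ) := hg₁int.add (hint.const_mul D)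
  have hfint : Integrable (fun ξ : ℝ => ‖rest χ m B U γ a ξ‖ ^ 2 * (1 + ℓ * |ξ - t|) ^ 2) := by
    refine hgint.mono' ?_ (Filter.Eventually.of_forall fun ξ => ?_)
    · have h1 := G2_meas r (by omega) χ hχ m B U γ a
      exact ((h1.norm.pow_const 2).mul (by fun_prop : Measurable fun ξ : ℝ => (1 + ℓ * |ξ - t|) ^ 2)).aestronglyMeasurable
    · rw [Real.norm_of_nonneg (by positivity)]
      exact hpt ξ
  refine ⟨hfint, ?_⟩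
  have h1 := integral_mono hfint hgint hpt
  rw [integral_add hg₁int (hint.const_mul D), integral_const_mul, hg₁v] at h1
  refine h1.trans ?_
  have h2 : D * ∫ ξ, g₂ ξ ≤ D * (C₁ * ℓ ^ 2 / V) := mul_le_mul_of_nonneg_left hle hD0
  have h3 : 16 * (C₂ * ℓ / B) ^ 2 * (2 * a) ≤ 8 * C₂ ^ 2 * ε₁ / 1000 / N / B := by
    have e1 : 16 * (C₂ * ℓ / B) ^ 2 * (2 * a) = 32 * C₂ ^ 2 * (a * ℓ) * ℓ / (B * B) := by
      field_simp
      ring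
    rw [e1, haℓ]
    have e2 : 32 * C₂ ^ 2 * (ε₁ / 4) * ℓ / (B * B) ≤ 32 * C₂ ^ 2 * (ε₁ / 4) * (V / 1000) / (B * B) := by gcongr
    refine e2.trans (le_of_eq ?_)
    nth_rewrite 2 [hBV]
    field_simp
    ring
  have h4 : D * (C₁ * ℓ ^ 2 / V) ≤ 16 * C₁ / (10 ^ 6 * ε₁ ^ 2 * c ^ 2) / N / B := by
    have e1 : D * (C₁ * ℓ ^ 2 / V) = C₁ * (ℓ ^ 2 / (a * ℓ) ^ 2) / (c ^ 2 * V * (B * B)) := by
      rw [hD]
      field_simp
    rw [e1, haℓ]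
    have e2 : ℓ ^ 2 / (ε₁ / 4) ^ 2 ≤ (V / 1000) ^ 2 / (ε₁ / 4) ^ 2 := by gcongr
    have e3 : C₁ * (ℓ ^ 2 / (ε₁ / 4) ^ 2) / (c ^ 2 * V * (B * B)) ≤
        C₁ * ((V / 1000) ^ 2 / (ε₁ / 4) ^ 2) / (c ^ 2 * V * (B * B)) := by gcongr
    refine e3.trans (le_of_eq ?_)
    nth_rewrite 2 [hBV]
    field_simp
    ring
  calc 16 * (C₂ * ℓ / B) ^ 2 * (2 * a) + D * ∫ ξ, g₂ ξ
      ≤ 8 * C₂ ^ 2 * ε₁ / 1000 / N / B + 16 * C₁ / (10 ^ 6 * ε₁ ^ 2 * c ^ 2) / N / B := add_le_add h3 (h2.trans h4)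
    _ = A / N / B := by rw [hA]; ring
    _ ≤ η / B := by
        gcongr
        rw [div_le_iff₀ hN0]
        rw [div_le_iff₀ hη] at hNA
        linarith

end Pool.Agent.SF
end

section

set_option autoImplicit false

/-! Task G4: the norm of the test function. -/

namespace Pool.Agent.SF

open Complex MeasureTheory
open Pool.Agent.SK Pool.Agent.SD Pool.Agent.SE
open Pool.Agent.SO (prim NN pt pz MM kw)

theorem G4_sep {r : ℕ} [NeZero r] {χ : DirichletCharacter ℂ r} {T ε₁ : ℝ} {J : Finset ℂ}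
    {t : ℂ → ℝ} (hJ : ∀ w ∈ J, w.re = 0 ∧ okz r χ T ε₁ (t w) w.im) {w w' : ℂ} (hw : w ∈ J)
    (hw' : w' ∈ J) (hne : w ≠ w') : ε₁ / Real.log r ≤ |w.im - w'.im| := by
  by_contra hlt
  push Not at hlt
  apply hne
  obtain ⟨h0, h1⟩ := hJ w hw
  obtain ⟨h0', h1'⟩ := hJ w' hw'
  have h2 := h1'.2.2.2.2 (1 / 2 + (w.im : ℂ) * I) h1.2.2.1 (by
    have e : (1 / 2 + (w.im : ℂ) * I) - (1 / 2 + (w'.im : ℂ) * I) =
        ((w.im - w'.im : ℝ) : ℂ) * I := by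
      push_cast
      ring
    rw [e, norm_mul, Complex.norm_I, mul_one, Complex.norm_real, Real.norm_eq_abs]
    exact hlt)
  have h3 : w.im = w'.im := by
    have := congrArg Complex.im h2
    simpa using this
  exact Complex.ext (h0.trans h0'.symm) h3

theorem G4_A (J : Finset ℂ) (c e : ℂ → ℂ) (s : ℂ → ℝ) (hs : ∀ w ∈ J, ‖e w‖ ≤ s w)
    (hd : ∀ w ∈ J, ∀ w' ∈ J, w ≠ w' → e w = 0 ∨ e w' = 0) :
    ‖∑ w ∈ J, c w * e w‖ ^ 2 ≤ ∑ w ∈ J, ‖c w‖ ^ 2 * s w ^ 2 := by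
  have hnn : ∀ w ∈ J, 0 ≤ ‖c w‖ ^ 2 * s w ^ 2 := fun w _ => by positivity
  by_cases h : ∃ w ∈ J, e w ≠ 0
  · obtain ⟨w, hw, hne⟩ := h
    rw [Finset.sum_eq_single_of_mem w hw (fun w' hw' hne' => by
      rcases hd w' hw' w hw hne' with h1 | h1
      · rw [h1, mul_zero]
      · exact absurd h1 hne)]
    rw [norm_mul, mul_pow]
    refine le_trans ?_ (Finset.single_le_sum (f := fun w => ‖c w‖ ^ 2 * s w ^ 2) hnn hw)
    exact mul_le_mul_of_nonneg_left (pow_le_pow_left₀ (norm_nonneg _) (hs w hw) 2) (by positivity)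
  · push Not at h
    rw [Finset.sum_eq_zero (fun w hw => by rw [h w hw, mul_zero]), norm_zero]
    have := Finset.sum_nonneg hnn
    simpa using this

theorem G4_R (J : Finset ℂ) (c q : ℂ → ℂ) (p : ℂ → ℝ) (W : ℝ) (hp : ∀ w ∈ J, 0 < p w)
    (hW : ∑ w ∈ J, 1 / p w ^ 2 ≤ W) :
    ‖∑ w ∈ J, c w * q w‖ ^ 2 ≤ W * ∑ w ∈ J, ‖c w‖ ^ 2 * (‖q w‖ ^ 2 * p w ^ 2) := by
  have h1 : ‖∑ w ∈ J, c w * q w‖ ≤ ∑ w ∈ J, (1 / p w) * (‖c w‖ * (‖q w‖ * p w)) := by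
    refine (norm_sum_le _ _).trans (Finset.sum_le_sum fun w hw => ?_)
    rw [norm_mul]
    have hpw := (hp w hw).ne'
    have e : 1 / p w * (‖c w‖ * (‖q w‖ * p w)) = ‖c w‖ * ‖q w‖ := by field_simp
    rw [e]
  have h2 : (∑ w ∈ J, (1 / p w) * (‖c w‖ * (‖q w‖ * p w))) ^ 2 ≤
      (∑ w ∈ J, (1 / p w) ^ 2) * ∑ w ∈ J, (‖c w‖ * (‖q w‖ * p w)) ^ 2 :=
    Finset.sum_mul_sq_le_sq_mul_sq _ _ _
  have h3 := (pow_le_pow_left₀ (norm_nonneg _) h1 2).trans h2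
  have e1 : ∑ w ∈ J, (1 / p w) ^ 2 = ∑ w ∈ J, 1 / p w ^ 2 :=
    Finset.sum_congr rfl fun w _ => one_div_pow _ _
  have e2 : ∑ w ∈ J, (‖c w‖ * (‖q w‖ * p w)) ^ 2 = ∑ w ∈ J, ‖c w‖ ^ 2 * (‖q w‖ ^ 2 * p w ^ 2) :=
    Finset.sum_congr rfl fun w _ => by ring
  rw [e1, e2] at h3
  refine h3.trans (mul_le_mul_of_nonneg_right hW (Finset.sum_nonneg fun w _ => by positivity))

theorem G4_add (θ : ℝ) (hθ : 0 < θ) (x y : ℂ) :
    ‖x + y‖ ^ 2 ≤ (1 + θ) * ‖x‖ ^ 2 + (1 + 1 / θ) * ‖y‖ ^ 2 := by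
  have h2 : ‖x + y‖ ^ 2 ≤ (‖x‖ + ‖y‖) ^ 2 := pow_le_pow_left₀ (norm_nonneg _) (norm_add_le x y) 2
  have h3 : 0 ≤ (θ * ‖x‖ - ‖y‖) ^ 2 / θ := by positivity
  have h4 : (1 + θ) * ‖x‖ ^ 2 + (1 + 1 / θ) * ‖y‖ ^ 2 - (‖x‖ + ‖y‖) ^ 2 =
      (θ * ‖x‖ - ‖y‖) ^ 2 / θ := by
    field_simp
    ring
  linarith

theorem G4_W (ε₁ ξ l : ℝ) (hε : 0 < ε₁) (hε1 : ε₁ ≤ 1) (hl : 0 < l) (J : Finset ℂ) (t : ℂ → ℝ)
    (hsep : ∀ w ∈ J, ∀ w' ∈ J, w ≠ w' → ε₁ / l ≤ |w.im - w'.im|)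
    (ht : ∀ w ∈ J, |w.im - t w| ≤ 2 / l) :
    ∑ w ∈ J, 1 / (1 + l * |ξ - t w|) ^ 2 ≤ 72 / ε₁ := by
  classical
  have hinj : Set.InjOn (fun w : ℂ => l * w.im) (J : Set ℂ) := by
    intro w hw w' hw' h
    by_contra hne
    have h1 := hsep w hw w' hw' hne
    have h2 : w.im = w'.im := mul_left_cancel₀ hl.ne' h
    rw [h2, sub_self, abs_zero] at h1
    have := div_pos hε hl
    linarith
  have h1 := sep_sum (J.image fun w : ℂ => l * w.im) ε₁ (l * ξ) hε hε1 (by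
    intro a ha b hb hab
    obtain ⟨w, hw, rfl⟩ := Finset.mem_image.1 ha
    obtain ⟨w', hw', rfl⟩ := Finset.mem_image.1 hb
    have hne : w ≠ w' := fun h => hab (by rw [h])
    have h2 := hsep w hw w' hw' hne
    rw [← mul_sub, abs_mul, abs_of_pos hl]
    rw [div_le_iff₀ hl] at h2
    linarith)
  rw [Finset.sum_image hinj] at h1
  have h2 : ∑ w ∈ J, 1 / (1 + l * |ξ - t w|) ^ 2 ≤
      ∑ w ∈ J, 9 * (1 / (1 + |l * ξ - l * w.im|) ^ 2) := by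
    refine Finset.sum_le_sum fun w hw => ?_
    have h3 := ht w hw
    have h4 : |l * ξ - l * w.im| = l * |ξ - w.im| := by rw [← mul_sub, abs_mul, abs_of_pos hl]
    have h5 : |ξ - w.im| ≤ |ξ - t w| + 2 / l := by
      have := abs_sub_le ξ (t w) w.im
      rw [abs_sub_comm (t w) w.im] at this
      linarith
    have h6 : l * |ξ - w.im| ≤ l * |ξ - t w| + 2 := by
      have h60 := mul_le_mul_of_nonneg_left h5 hl.le
      have e : l * (|ξ - t w| + 2 / l) = l * |ξ - t w| + 2 := by field_simp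
      linarith
    have h70 : 0 ≤ l * |ξ - t w| := by positivity
    have h7 : 1 + l * |ξ - w.im| ≤ 3 * (1 + l * |ξ - t w|) := by linarith
    rw [h4]
    have p1 : 0 < 1 + l * |ξ - t w| := by positivity
    have p2 : 0 < 1 + l * |ξ - w.im| := by positivity
    have h8 := pow_le_pow_left₀ p2.le h7 2
    rw [mul_one_div, div_le_div_iff₀ (by positivity) (by positivity)]
    linarith [mul_pow 3 (1 + l * |ξ - t w|) 2]
  refine h2.trans ?_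
  rw [← Finset.mul_sum]
  have h3 := mul_le_mul_of_nonneg_left h1 (by norm_num : (0 : ℝ) ≤ 9)
  refine h3.trans (le_of_eq ?_)
  ring

/-- G4. PROOF. `ℓ = log r`, `B = BN r N U`, `a = (ε₁/4)/ℓ`, `γ_w = w.im`. The `γ_w`, `w ∈ J`, are pairwise at distance `≥ ε₁/ℓ` (isolation in `okz`, `w = i w.im`), so the intervals
`|ξ - γ_w| ≤ a` are disjoint. The sum is `A ξ + R ξ`, `A = ∑ c_w (if |ξ-γ_w| ≤ a then Eb(i(ξ-γ_w)) else 0)`, `R = ∑ c_w rest_w`. At most one term of `A` is nonzero: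
`‖A‖² ≤ ∑ ‖c_w‖² ‖shc(B i(ξ-γ_w))‖²` (`Ek_one`), `∫ ‖A‖² ≤ (π/B) ∑ ‖c_w‖²` (`shc_l2`, translation). Cauchy-Schwarz with weights `(1+ℓ|ξ-t_w|)²`:
`‖R‖² ≤ (∑_w (1+ℓ|ξ-t_w|)^(-2)) ∑ ‖c_w‖² ‖rest_w‖² (1+ℓ|ξ-t_w|)²`, the first sum is `≤ 9 · 8/ε₁ = 72/ε₁` (`1 + ℓ|ξ-γ_w| ≤ 3 (1+ℓ|ξ-t_w|)` as `|γ_w-t_w| ≤ 2/ℓ`; `sep_sum` for the `ℓ γ_w`),
so `∫ ‖R‖² ≤ (72/ε₁)(η₁/B) ∑ ‖c_w‖²` (`rest_norm` with `η₁`). `‖A+R‖² ≤ (1+θ)‖A‖² + (1+1/θ)‖R‖²` with `θ = η/2`, `η₁` small: total `≤ (1+η)(π/B) ∑ ‖c_w‖²`. -/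
theorem sum_norm (m : ℕ) (hm : 6 ≤ m) (b R K T ε₁ : ℝ) (hb1 : 1 ≤ b) (hR : 2 * b + 8 ≤ R) (hK : 0 ≤ K) (hT : 0 ≤ T)
    (hε : 0 < ε₁) (hε1 : ε₁ ≤ 1) (η : ℝ) (hη : 0 < η) : ∃ N₀ : ℕ, 1 ≤ N₀ ∧ ∀ N : ℕ, N₀ ≤ N → ∃ r₀ : ℕ, 3 ≤ r₀ ∧
    ∀ (r : ℕ) [NeZero r], r₀ ≤ r → ∀ χ ∈ prim r, ∀ (J : Finset ℂ) (t : ℂ → ℝ),
    (∀ w ∈ J, w.re = 0 ∧ gd r b R K m χ (t w) ∧ okz r χ T ε₁ (t w) w.im) → ∀ U : ℝ, 4000 * Real.log r ≤ U → ∀ c : ℂ → ℂ,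
    ∫ ξ : ℝ, ‖∑ w ∈ J, c w * (hb χ m (BN r N U) U w.im ((ξ : ℂ) * I) / deriv χ.LFunction (1 / 2 + (w.im : ℂ) * I))‖ ^ 2 ≤
      (1 + η) * (Real.pi / BN r N U) * ∑ w ∈ J, ‖c w‖ ^ 2 := by
  classical
  obtain ⟨η₁, hη₁⟩ : ∃ η₁ : ℝ, η₁ = η / 2 * Real.pi * ε₁ / (72 * (1 + 1 / (η / 2))) := ⟨_, rfl⟩
  have hpi := Real.pi_pos
  have hη₁0 : 0 < η₁ := by rw [hη₁]; positivity
  obtain ⟨N₀, hN₀, hN⟩ := rest_norm m hm b R K T ε₁ hb1 hR hK hT hε hε1 η₁ hη₁0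
  refine ⟨N₀, hN₀, fun N hNN => ?_⟩
  obtain ⟨r₁, hr₁, hrest⟩ := hN N hNN
  obtain ⟨r₂, hr₂, hreg⟩ := regime 1 T le_rfl hT m (by omega)
  refine ⟨max r₁ r₂, hr₁.trans (le_max_left _ _), ?_⟩
  intro r _ hr χ hχ J t hJ U hU c
  have hr1 := (le_max_left _ _).trans hr
  have hr2 := (le_max_right _ _).trans hr
  obtain ⟨hV, -⟩ := hreg r hr2 U hU
  have hNpos : (1 : ℝ) ≤ N := by exact_mod_cast hN₀.trans hNN
  have hr3 : (3 : ℝ) ≤ r := by exact_mod_cast hr₁.trans hr1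
  have hl : 0 < Real.log r := Real.log_pos (by linarith)
  obtain ⟨B, hB⟩ : ∃ B, B = BN r N U := ⟨_, rfl⟩
  have hBpos : 0 < B := by
    rw [hB]
    unfold BN
    have : 0 < VV r U := by linarith
    have : (0 : ℝ) < N := by linarith
    positivity
  obtain ⟨a, ha⟩ : ∃ a : ℝ, a = ε₁ / 4 / Real.log r := ⟨_, rfl⟩
  have hrest' : ∀ w ∈ J, Integrable (fun ξ : ℝ => ‖rest χ m B U w.im a ξ‖ ^ 2 * (1 + Real.log r * |ξ - t w|) ^ 2) ∧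
      ∫ ξ : ℝ, ‖rest χ m B U w.im a ξ‖ ^ 2 * (1 + Real.log r * |ξ - t w|) ^ 2 ≤ η₁ / B := by
    intro w hw
    rw [hB, ha]
    exact hrest r hr1 χ hχ (t w) (hJ w hw).2.1 w.im (hJ w hw).2.2 U hU
  rw [← hB]
  have hsep : ∀ w ∈ J, ∀ w' ∈ J, w ≠ w' → ε₁ / Real.log r ≤ |w.im - w'.im| :=
    fun w hw w' hw' hne => G4_sep (fun w hw => ⟨(hJ w hw).1, (hJ w hw).2.2⟩) hw hw' hne
  obtain ⟨θ, hθ⟩ : ∃ θ : ℝ, θ = η / 2 := ⟨_, rfl⟩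
  have hθ0 : 0 < θ := by rw [hθ]; linarith
  obtain ⟨f1, hf1⟩ : ∃ f1 : ℂ → ℝ → ℝ, f1 = fun w ξ =>
    ‖c w‖ ^ 2 * ‖shc ((B : ℂ) * (((ξ - w.im : ℝ) : ℂ) * I))‖ ^ 2 := ⟨_, rfl⟩
  obtain ⟨f2, hf2⟩ : ∃ f2 : ℂ → ℝ → ℝ, f2 = fun w ξ =>
    ‖c w‖ ^ 2 * (‖rest χ m B U w.im a ξ‖ ^ 2 * (1 + Real.log r * |ξ - t w|) ^ 2) := ⟨_, rfl⟩
  have hpt : ∀ ξ : ℝ, ‖∑ w ∈ J, c w * (hb χ m B U w.im ((ξ : ℂ) * I) / deriv χ.LFunction (1 / 2 + (w.im : ℂ) * I))‖ ^ 2 ≤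
      (1 + θ) * ∑ w ∈ J, f1 w ξ + (1 + 1 / θ) * (72 / ε₁) * ∑ w ∈ J, f2 w ξ := by
    intro ξ
    obtain ⟨e, he⟩ : ∃ e : ℂ → ℂ, e = fun w =>
      if |ξ - w.im| ≤ a then Eb (sg r U) (vl r m U) B m (((ξ - w.im : ℝ) : ℂ) * I) else 0 := ⟨_, rfl⟩
    have hsplit : ∑ w ∈ J, c w * (hb χ m B U w.im ((ξ : ℂ) * I) / deriv χ.LFunction (1 / 2 + (w.im : ℂ) * I)) =
        ∑ w ∈ J, c w * e w + ∑ w ∈ J, c w * rest χ m B U w.im a ξ := by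
      rw [← Finset.sum_add_distrib]
      refine Finset.sum_congr rfl fun w _ => ?_
      rw [← mul_add]
      congr 1
      rw [he]
      unfold rest
      ring
    rw [hsplit]
    refine (G4_add θ hθ0 _ _).trans ?_
    have hA : ‖∑ w ∈ J, c w * e w‖ ^ 2 ≤ ∑ w ∈ J, f1 w ξ := by
      rw [hf1]
      refine G4_A J c e (fun w => ‖shc ((B : ℂ) * (((ξ - w.im : ℝ) : ℂ) * I))‖) ?_ ?_
      · intro w _
        rw [he]
        dsimp only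
        split_ifs
        · unfold Eb
          rw [norm_mul]
          have h1 := Ek_one (sg r U) (vl r m U) m (ξ - w.im)
          exact mul_le_of_le_one_left (norm_nonneg _) h1
        · rw [norm_zero]
          exact norm_nonneg _
      · intro w hw w' hw' hne
        by_contra hcon
        push Not at hcon
        have h1 : |ξ - w.im| ≤ a := by
          by_contra hn
          apply hcon.1
          rw [he]
          dsimp only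
          rw [if_neg hn]
        have h2 : |ξ - w'.im| ≤ a := by
          by_contra hn
          apply hcon.2
          rw [he]
          dsimp only
          rw [if_neg hn]
        have h3 := hsep w hw w' hw' hne
        have h4 : |w.im - w'.im| ≤ |ξ - w.im| + |ξ - w'.im| := by
          have := abs_sub_le w.im ξ w'.im
          rw [abs_sub_comm w.im ξ] at this
          exact this
        have h5 : 4 * a = ε₁ / Real.log r := by rw [ha]; ring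
        have h6 : 0 < ε₁ / Real.log r := div_pos hε hl
        linarith
    have hRr : ‖∑ w ∈ J, c w * rest χ m B U w.im a ξ‖ ^ 2 ≤ 72 / ε₁ * ∑ w ∈ J, f2 w ξ := by
      rw [hf2]
      exact G4_R J c (fun w => rest χ m B U w.im a ξ) (fun w => 1 + Real.log r * |ξ - t w|) (72 / ε₁)
        (fun w _ => by positivity)
        (G4_W ε₁ ξ (Real.log r) hε hε1 hl J t hsep fun w hw => (hJ w hw).2.2.2.1)
    have h1 := mul_le_mul_of_nonneg_left hA (by positivity : 0 ≤ 1 + θ)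
    have h2 := mul_le_mul_of_nonneg_left hRr (by positivity : 0 ≤ 1 + 1 / θ)
    linarith
  have hI1 : ∀ w ∈ J, Integrable (f1 w) := by
    intro w _
    rw [hf1]
    exact ((shc_l2 B hBpos).1.comp_sub_right w.im).const_mul _
  have hI2 : ∀ w ∈ J, Integrable (f2 w) := by
    intro w hw
    rw [hf2]
    exact (hrest' w hw).1.const_mul _
  have hS1 : Integrable fun ξ => ∑ w ∈ J, f1 w ξ := integrable_finsetSum _ hI1
  have hS2 : Integrable fun ξ => ∑ w ∈ J, f2 w ξ := integrable_finsetSum _ hI2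
  have hint := integral_mono_of_nonneg (μ := volume) (Filter.Eventually.of_forall fun ξ => by positivity)
    ((hS1.const_mul (1 + θ)).add (hS2.const_mul ((1 + 1 / θ) * (72 / ε₁))))
    (Filter.Eventually.of_forall hpt)
  refine hint.trans ?_
  have hadd : ∫ ξ : ℝ, ((fun ξ => (1 + θ) * ∑ w ∈ J, f1 w ξ) + fun ξ => (1 + 1 / θ) * (72 / ε₁) * ∑ w ∈ J, f2 w ξ) ξ =
      (1 + θ) * (∑ w ∈ J, ∫ ξ, f1 w ξ) + (1 + 1 / θ) * (72 / ε₁) * (∑ w ∈ J, ∫ ξ, f2 w ξ) := by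
    rw [← integral_finsetSum _ hI1, ← integral_finsetSum _ hI2, ← integral_const_mul,
      ← integral_const_mul]
    exact integral_add (hS1.const_mul _) (hS2.const_mul _)
  rw [hadd]
  have hb1 : ∑ w ∈ J, ∫ ξ, f1 w ξ ≤ Real.pi / B * ∑ w ∈ J, ‖c w‖ ^ 2 := by
    rw [Finset.mul_sum]
    refine Finset.sum_le_sum fun w _ => ?_
    rw [hf1]
    dsimp only
    rw [integral_const_mul, integral_sub_right_eq_self
      (fun y : ℝ => ‖shc ((B : ℂ) * ((y : ℂ) * I))‖ ^ 2) w.im, mul_comm]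
    exact mul_le_mul_of_nonneg_right (shc_l2 B hBpos).2 (by positivity)
  have hb2 : ∑ w ∈ J, ∫ ξ, f2 w ξ ≤ η₁ / B * ∑ w ∈ J, ‖c w‖ ^ 2 := by
    rw [Finset.mul_sum]
    refine Finset.sum_le_sum fun w hw => ?_
    rw [hf2]
    dsimp only
    rw [integral_const_mul, mul_comm]
    exact mul_le_mul_of_nonneg_right (hrest' w hw).2 (by positivity)
  obtain ⟨S, hS⟩ : ∃ S : ℝ, S = ∑ w ∈ J, ‖c w‖ ^ 2 := ⟨_, rfl⟩
  have hS0 : 0 ≤ S := by rw [hS]; positivity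
  rw [← hS] at hb1 hb2 ⊢
  have h1 := mul_le_mul_of_nonneg_left hb1 (by positivity : 0 ≤ 1 + θ)
  have h2 := mul_le_mul_of_nonneg_left hb2 (by positivity : 0 ≤ (1 + 1 / θ) * (72 / ε₁))
  have h3 : (1 + 1 / θ) * (72 / ε₁) * (η₁ / B * S) = θ * (Real.pi / B * S) := by
    rw [hη₁, ← hθ]
    have : (1 + 1 / θ) ≠ 0 := by positivity
    field_simp
  have h4 : (1 + η) * (Real.pi / B) * S = (1 + θ) * (Real.pi / B * S) + θ * (Real.pi / B * S) := by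
    rw [hθ]
    ring
  linarith

end Pool.Agent.SF
end
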