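import Pool.Agent.Lib.MP_9cfc0a_nt.SF.G6
import Pool.Agent.Lib.MP_9cfc0a_nt.Mg.G065
import Pool.Agent.Lib.MP_9cfc0a_nt.Mg.G056
import Pool.Agent.Lib.MP_9cfc0a_nt.Mg.G048

section

set_option autoImplicit false

/-! Task H3: all characters, large `X`. -/

namespace Pool.Agent.SF

open Complex MeasureTheory
open Pool.Agent.SK Pool.Agent.SD Pool.Agent.SE MP9cfc0a.SK
open Pool.Agent.EM (psiC V)
open Pool.Agent.SO (prim NN pt pz MM kw)

/-- Growth: `M log U ≤ U` for large `U`. -/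
theorem H3_grow (M : ℝ) (hM : 0 < M) : ∃ U₀ : ℝ, ∀ U : ℝ, U₀ ≤ U → M * Real.log U ≤ U := by
  have h1 := Real.isLittleO_log_id_atTop.bound (c := 1 / M) (by positivity)
  obtain ⟨U₁, h2⟩ := h1.exists_forall_of_atTop
  refine ⟨max U₁ 1, fun U hU => ?_⟩
  have h3 := h2 U ((le_max_left _ _).trans hU)
  have h4 : 1 ≤ U := (le_max_right _ _).trans hU
  have h5 : Real.log U ≤ ‖Real.log U‖ := Real.le_norm_self _
  have h6 : ‖id U‖ = U := by
    rw [id, Real.norm_of_nonneg (by linarith)]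
  rw [h6] at h3
  have h7 : Real.log U ≤ 1 / M * U := h5.trans h3
  calc M * Real.log U ≤ M * (1 / M * U) := mul_le_mul_of_nonneg_left h7 hM.le
    _ = U := by field_simp

/-- The error of `window_inducedN` is small. -/
theorem H3_err (D η L W : ℝ) (hη : 0 < η) (hL : 1 ≤ L) (hL2 : (D / η) ^ 2 ≤ L)
    (hW : L ≤ W) : D * L ^ (3 / 2 : ℝ) ≤ η * L * W := by
  have hL0 : 0 < L := by linarith
  have h1 : L ^ (3 / 2 : ℝ) = L * Real.sqrt L := by
    rw [Real.sqrt_eq_rpow]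
    nth_rewrite 2 [← Real.rpow_one L]
    rw [← Real.rpow_add hL0]
    norm_num
  have h2 : D / η ≤ Real.sqrt L := Real.le_sqrt_of_sq_le hL2
  have h3 : D ≤ η * Real.sqrt L := by
    rw [div_le_iff₀ hη] at h2
    linarith
  have h4 : Real.sqrt L * Real.sqrt L = L := Real.mul_self_sqrt hL0.le
  rw [h1]
  have h5 : D * (L * Real.sqrt L) ≤ η * Real.sqrt L * (L * Real.sqrt L) :=
    mul_le_mul_of_nonneg_right h3 (by positivity)
  have h6 : η * Real.sqrt L * (L * Real.sqrt L) = η * L * (Real.sqrt L * Real.sqrt L) := by ring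
  rw [h6, h4] at h5
  have h7 : η * L * L ≤ η * L * W := mul_le_mul_of_nonneg_left hW (by positivity)
  linarith

/-- One character, from the window of its primitive character. -/
theorem H3_one (ε e C g : ℝ) (hε : 0 < ε) (hε1 : ε ≤ 1 / 2) (he : e = ε / 16) (hC : 0 < C)
    (hind : ∀ κ : ℝ, 0 < κ → κ ≤ 1 → ∀ (q : ℕ) [NeZero q], 3 ≤ q → ∀ (χ : DirichletCharacter ℂ q) (a b : ℝ),
      0 ≤ a → a ≤ b →
      (1 - κ) * (∫ x in Set.Ioc (Real.exp a) (Real.exp b), ‖psiC χ.primitiveCharacter x‖ ^ 2 / x ^ 2) - C / κ * (Real.log q) ^ (3 / 2 : ℝ) ≤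
        ∫ x in Set.Ioc (Real.exp a) (Real.exp b), ‖psiC χ x‖ ^ 2 / x ^ 2)
    (q r N : ℕ) [NeZero q] (hq : 3 ≤ q) (χ : DirichletCharacter ℂ q)
    (hrq : (q : ℝ) ^ (1 - e / 8) ≤ (r : ℝ)) (hrle : r ≤ q) (U : ℝ) (hU1 : 1 ≤ U)
    (hL : 1 ≤ Real.log q) (hL2 : (C / e / (ε / 4)) ^ 2 ≤ Real.log q)
    (hUW : ((N : ℝ) + 1) * (1000 * Real.log (q * U)) ≤ U)
    (hg : 1 / 2 * Real.log q ^ 2 - 1 / 2 * Real.log q * g - e * Real.log q ^ 2 ≤ En χ q)
    (hwin : 2 * VN r N U * ((1 - e) * (g - e * Real.log r)) ≤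
      ∫ u in (U - VN r N U)..(U + VN r N U), ‖ff χ.primitiveCharacter u‖ ^ 2) :
    (1 - ε) * (2 * (((N : ℝ) + 1) * (1000 * Real.log (q * U)))) * (Real.log q - 2 * En χ q / Real.log q - ε * Real.log q) ≤
      ∫ x in Set.Ioc (Real.exp (U - ((N : ℝ) + 1) * (1000 * Real.log (q * U)))) (Real.exp (U + ((N : ℝ) + 1) * (1000 * Real.log (q * U)))),
        ‖psiC χ x‖ ^ 2 / x ^ 2 := by
  have hq3 : (3 : ℝ) ≤ q := by exact_mod_cast hq
  have hq0 : (0 : ℝ) < q := by linarith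
  have hU0 : 0 < U := by linarith
  have he0 : 0 < e := by rw [he]; positivity
  have he1 : e ≤ 1 / 32 := by rw [he]; linarith
  have hrpos : (0 : ℝ) < r := lt_of_lt_of_le (Real.rpow_pos_of_pos hq0 _) hrq
  have hrler : (r : ℝ) ≤ q := by exact_mod_cast hrle
  have hlU : 0 ≤ Real.log U := Real.log_nonneg hU1
  have hlr : (1 - e / 8) * Real.log q ≤ Real.log r := by
    rw [← Real.log_rpow hq0]
    exact Real.log_le_log (Real.rpow_pos_of_pos hq0 _) hrq
  have hlrq : Real.log r ≤ Real.log q := Real.log_le_log hrpos hrler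
  have e1 : Real.log (q * U) = Real.log q + Real.log U := Real.log_mul hq0.ne' hU0.ne'
  have e2 : Real.log (r * U) = Real.log r + Real.log U := Real.log_mul hrpos.ne' hU0.ne'
  have hN0 : (0 : ℝ) ≤ (N : ℝ) := Nat.cast_nonneg N
  have hVdef : VN r N U = ((N : ℝ) + 1) * (1000 * (Real.log r + Real.log U)) := by
    unfold VN VV
    rw [e2]
  have hInn : 0 ≤ ∫ x in Set.Ioc (Real.exp (U - ((N : ℝ) + 1) * (1000 * Real.log (q * U)))) (Real.exp (U + ((N : ℝ) + 1) * (1000 * Real.log (q * U)))),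
        ‖psiC χ x‖ ^ 2 / x ^ 2 :=
    setIntegral_nonneg measurableSet_Ioc fun x _ => by positivity
  set L := Real.log q with hLdef
  set W := ((N : ℝ) + 1) * (1000 * Real.log (q * U)) with hWdef
  have hL0 : 0 < L := by linarith
  have hWe : W = ((N : ℝ) + 1) * (1000 * (L + Real.log U)) := by rw [hWdef, e1]
  have hWL : 1000 * L ≤ W := by
    rw [hWe]
    nlinarith
  have hVW : VN r N U ≤ W := by
    rw [hVdef, hWe]
    refine mul_le_mul_of_nonneg_left ?_ (by linarith)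
    linarith
  have hWV : (1 - e) * W ≤ VN r N U := by
    rw [hVdef, hWe]
    have h1 : (1 - e) * (1000 * (L + Real.log U)) ≤ 1000 * (Real.log r + Real.log U) := by nlinarith
    calc (1 - e) * (((N : ℝ) + 1) * (1000 * (L + Real.log U))) = ((N : ℝ) + 1) * ((1 - e) * (1000 * (L + Real.log U))) := by ring
      _ ≤ _ := mul_le_mul_of_nonneg_left h1 (by linarith)
  have hW0 : 0 < W := by linarith
  have hV0 : 0 ≤ VN r N U := le_trans (mul_nonneg (by linarith) hW0.le) hWV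
  have hUW0 : 0 ≤ U - W := by linarith
  set A := L - 2 * En χ q / L - ε * L with hA
  rcases le_or_gt A 0 with hA0 | hA0
  · refine le_trans ?_ hInn
    refine mul_nonpos_of_nonneg_of_nonpos ?_ hA0
    exact mul_nonneg (by linarith) (by linarith)
  have hgA : A + (ε - 3 * e) * L ≤ g - e * Real.log r := by
    have h1 : L - 2 * En χ q / L - 2 * e * L ≤ g := by
      have h2 : 2 * En χ q / L = En χ q * (2 / L) := by ring
      have h3 : (1 / 2 * L ^ 2 - 1 / 2 * L * g - e * L ^ 2) * (2 / L) ≤ En χ q * (2 / L) :=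
        mul_le_mul_of_nonneg_right hg (by positivity)
      have h4 : (1 / 2 * L ^ 2 - 1 / 2 * L * g - e * L ^ 2) * (2 / L) = L - g - 2 * e * L := by
        field_simp
      rw [h4] at h3
      rw [h2]
      linarith
    have h5 : e * Real.log r ≤ e * L := mul_le_mul_of_nonneg_left hlrq he0.le
    rw [hA]
    linarith
  have hεe : 0 ≤ (ε - 3 * e) * L := by
    have : 0 ≤ ε - 3 * e := by rw [he]; linarith
    positivity
  -- the window of the primitive character, in `x`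
  have h1 := window_eq χ.primitiveCharacter (U - VN r N U) (U + VN r N U) (by linarith)
  have h2 : (∫ x in Set.Ioc (Real.exp (U - VN r N U)) (Real.exp (U + VN r N U)), ‖psiC χ.primitiveCharacter x‖ ^ 2 / x ^ 2) ≤
      ∫ x in Set.Ioc (Real.exp (U - W)) (Real.exp (U + W)), ‖psiC χ.primitiveCharacter x‖ ^ 2 / x ^ 2 := by
    have hg0 : ∀ x : ℝ, 0 ≤ ‖psiC χ.primitiveCharacter x‖ ^ 2 / x ^ 2 := fun x => by positivity
    refine setIntegral_mono_set (Pool.Agent.EM.integrable_psiC_sq_window _ _ _ (Real.one_le_exp hUW0))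
      (Filter.Eventually.of_forall hg0) ?_
    refine (Set.Ioc_subset_Ioc ?_ ?_).eventuallyLE
    · exact Real.exp_le_exp.2 (by linarith)
    · exact Real.exp_le_exp.2 (by linarith)
  have h3 := hind e he0 (by linarith) q hq χ (U - W) (U + W) hUW0 (by linarith)
  rw [h1] at hwin
  have h4 : 2 * ((1 - e) * W) * ((1 - e) * (A + (ε - 3 * e) * L)) ≤ 2 * VN r N U * ((1 - e) * (g - e * Real.log r)) := by
    refine mul_le_mul (by linarith) (mul_le_mul_of_nonneg_left hgA (by linarith)) ?_ (by linarith)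
    exact mul_nonneg (by linarith) (by linarith)
  have h5 : (1 - e) * (2 * ((1 - e) * W) * ((1 - e) * (A + (ε - 3 * e) * L))) ≤
      (1 - e) * (∫ x in Set.Ioc (Real.exp (U - W)) (Real.exp (U + W)), ‖psiC χ.primitiveCharacter x‖ ^ 2 / x ^ 2) :=
    mul_le_mul_of_nonneg_left (h4.trans (hwin.trans h2)) (by linarith)
  have h6 := H3_err (C / e) (ε / 4) L W (by positivity) hL hL2 (by linarith)
  have h7 : (1 - 3 * e) * (2 * W * (A + (ε - 3 * e) * L)) ≤ (1 - e) * (2 * ((1 - e) * W) * ((1 - e) * (A + (ε - 3 * e) * L))) := by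
    have h8 : (1 - 3 * e) ≤ (1 - e) ^ 3 := by nlinarith [sq_nonneg e]
    have h9 : 0 ≤ 2 * W * (A + (ε - 3 * e) * L) := by positivity
    calc (1 - 3 * e) * (2 * W * (A + (ε - 3 * e) * L)) ≤ (1 - e) ^ 3 * (2 * W * (A + (ε - 3 * e) * L)) :=
          mul_le_mul_of_nonneg_right h8 h9
      _ = _ := by ring
  have h10 : ε / 4 * L * W ≤ (1 - 3 * e) * (2 * W * ((ε - 3 * e) * L)) := by
    have h11 : ε / 4 ≤ (1 - 3 * e) * (2 * (ε - 3 * e)) := by
      rw [he]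
      nlinarith
    have h12 : 0 ≤ L * W := by positivity
    calc ε / 4 * L * W = ε / 4 * (L * W) := by ring
      _ ≤ (1 - 3 * e) * (2 * (ε - 3 * e)) * (L * W) := mul_le_mul_of_nonneg_right h11 h12
      _ = _ := by ring
  have h13 : (1 - ε) * (2 * W) * A ≤ (1 - 3 * e) * (2 * W * A) := by
    have h14 : 1 - ε ≤ 1 - 3 * e := by rw [he]; linarith
    have h15 : 0 ≤ 2 * W * A := by positivity
    calc (1 - ε) * (2 * W) * A = (1 - ε) * (2 * W * A) := by ring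
      _ ≤ _ := mul_le_mul_of_nonneg_right h14 h15
  have h16 : (1 - 3 * e) * (2 * W * (A + (ε - 3 * e) * L)) = (1 - 3 * e) * (2 * W * A) + (1 - 3 * e) * (2 * W * ((ε - 3 * e) * L)) := by ring
  linarith

/-- H3. PROOF. As `scale_all` in SE/E2.lean (and `D6_one` in SE/D6.lean). `κ` BEFORE `N₀` (`b R K` depend on `κ`). `e = ε/16`. -/
theorem chars_far (ε : ℝ) (hε : 0 < ε) (hε1 : ε ≤ 1 / 2) (κ : ℝ) (hκ : 0 < κ) : ∃ N₀ : ℕ, 1 ≤ N₀ ∧ ∀ N : ℕ, N₀ ≤ N → ∃ q₀ : ℕ, 3 ≤ q₀ ∧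
    ∀ (q : ℕ) [NeZero q], q₀ ≤ q → ∃ S : Finset (DirichletCharacter ℂ q),
      (1 - κ) * (q.totient : ℝ) ≤ (S.card : ℝ) ∧ (∀ χ ∈ S, χ ≠ 1) ∧
      ∀ χ ∈ S, ∀ U : ℝ, 8000 * ((N : ℝ) + 1) * Real.log q ≤ U →
        (1 - ε) * (2 * (((N : ℝ) + 1) * (1000 * Real.log (q * U)))) * (Real.log q - 2 * En χ q / Real.log q - ε * Real.log q) ≤
          ∫ x in Set.Ioc (Real.exp (U - ((N : ℝ) + 1) * (1000 * Real.log (q * U)))) (Real.exp (U + ((N : ℝ) + 1) * (1000 * Real.log (q * U)))),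
            ‖psiC χ x‖ ^ 2 / x ^ 2 := by
  classical
  obtain ⟨e, he⟩ : ∃ e : ℝ, e = ε / 16 := ⟨_, rfl⟩
  have he0 : 0 < e := by rw [he]; positivity
  have he1 : e ≤ 1 / 32 := by rw [he]; linarith
  obtain ⟨T₀, ε₁, hT₀, hε₁, hε₁1, H₁⟩ := chars_iso e he0 (by linarith)
  obtain ⟨m, hm, hfew⟩ := few_bad_cells
  obtain ⟨T, hTdef⟩ : ∃ T : ℕ, T = max 1 ⌈T₀⌉₊ := ⟨_, rfl⟩
  have hT : 1 ≤ T := by rw [hTdef]; exact le_max_left _ _
  have hTle : T₀ ≤ (T : ℝ) := by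
    refine (Nat.le_ceil T₀).trans ?_
    rw [hTdef]
    exact_mod_cast le_max_right _ _
  have hT0 : (0 : ℝ) ≤ (T : ℝ) := Nat.cast_nonneg _
  obtain ⟨b, R, K, hb, hR, hK, r₁, hr₁, hcells⟩ := hfew T (e / 2 * ε₁ / (100 * (T + 1))) (κ / 8)
    (by positivity) (by positivity)
  obtain ⟨N₀, hN₀, hwinN⟩ := prim_windowN T hT ε₁ e hε₁ hε₁1 he0 (by linarith) b R K hb hR hK m hm
  obtain ⟨C, hC, hind⟩ := window_inducedN
  refine ⟨N₀, hN₀, fun N hN => ?_⟩
  obtain ⟨r₂, hr₂, hwin⟩ := hwinN N hN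
  obtain ⟨q₁, hq₁, G₁⟩ := H₁ (T : ℝ) hTle (κ / 2) (by positivity)
  obtain ⟨q₂, hq₂, htr⟩ := transfer
    (fun r ψ => ∃ _ : NeZero r, e / 2 * ε₁ / (100 * (T + 1)) * (nj r T : ℝ) <
      (((Finset.range (nj r T)).filter (fun j => ¬ gd r b R K m ψ (tj r T j))).card : ℝ))
    (κ / 2) (1 / 10) (by positivity) (by norm_num) (by norm_num)
    ⟨r₁, fun r _ hr S hS hbad => by
      have h1 := hcells r hr S hS fun χ hχ => by
        obtain ⟨_, h2⟩ := hbad χ hχ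
        exact h2
      linarith⟩
  obtain ⟨q₃, hq₃⟩ := Pool.Agent.SO.A3_large (1 - e / 8) r₂ (by linarith)
  have hN1 : (0 : ℝ) < (N : ℝ) + 1 := by positivity
  obtain ⟨U₀, hU₀⟩ := H3_grow (((N : ℝ) + 1) * 2000) (by positivity)
  obtain ⟨q₄, hq₄⟩ := D6_logq (max (max 1 U₀) ((C / e / (ε / 4)) ^ 2))
  refine ⟨max (max q₁ q₂) (max q₃ q₄), hq₁.trans ((le_max_left _ _).trans (le_max_left _ _)),
    fun q _ hq => ?_⟩
  have hqq1 : q₁ ≤ q := by omega
  have hqq2 : q₂ ≤ q := by omega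
  have hqq3 : q₃ ≤ q := by omega
  have hqq4 : q₄ ≤ q := by omega
  have hq3 : 3 ≤ q := hq₁.trans hqq1
  have hq3r : (3 : ℝ) ≤ q := by exact_mod_cast hq3
  have hq0 : (0 : ℝ) < q := by linarith
  obtain ⟨S₁, hS₁c, hS₁1, hS₁⟩ := G₁ q hqq1
  obtain ⟨S₂, hS₂c, -, hS₂⟩ := htr q hqq2
  have hlogs := hq₄ q hqq4
  have hL1 : 1 ≤ Real.log q := (le_max_left _ _).trans ((le_max_left _ _).trans hlogs)
  have hLU : U₀ ≤ Real.log q := (le_max_right _ _).trans ((le_max_left _ _).trans hlogs)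
  have hLC : (C / e / (ε / 4)) ^ 2 ≤ Real.log q := (le_max_right _ _).trans hlogs
  have hcard : (Fintype.card (DirichletCharacter ℂ q) : ℝ) = (q.totient : ℝ) := by
    rw [← Nat.card_eq_fintype_card, DirichletCharacter.card_eq_totient_of_hasEnoughRootsOfUnity]
  refine ⟨S₁ ∩ S₂, ?_, fun χ hχ => hS₁1 χ (Finset.mem_inter.1 hχ).1, fun χ hχ U hU => ?_⟩
  · have h1 : ((S₁ ∪ S₂).card : ℝ) + ((S₁ ∩ S₂).card : ℝ) = (S₁.card : ℝ) + (S₂.card : ℝ) := by
      exact_mod_cast Finset.card_union_add_card_inter S₁ S₂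
    have h2 : ((S₁ ∪ S₂).card : ℝ) ≤ (q.totient : ℝ) := by
      rw [← hcard]
      exact_mod_cast Finset.card_le_univ (S₁ ∪ S₂)
    linarith
  · obtain ⟨hχ1, hχ2⟩ := Finset.mem_inter.1 hχ
    obtain ⟨hr1, hne, -, hg⟩ := hS₁ χ hχ1
    obtain ⟨-, hnb⟩ := hS₂ χ hχ2
    have hN0 : (0 : ℝ) ≤ (N : ℝ) := Nat.cast_nonneg N
    have h8L : Real.log q ≤ 8000 * ((N : ℝ) + 1) * Real.log q := by nlinarith
    have hU1 : 1 ≤ U := by linarith
    have hU₀U : U₀ ≤ U := by linarith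
    have hgr := hU₀ U hU₀U
    have hUW : ((N : ℝ) + 1) * (1000 * Real.log (q * U)) ≤ U := by
      rw [Real.log_mul hq0.ne' (by linarith)]
      nlinarith
    have hrle : χ.conductor ≤ q := Nat.le_of_dvd (by omega) χ.conductor_dvd_level
    have hrler : (χ.conductor : ℝ) ≤ q := by exact_mod_cast hrle
    have hrpos : (0 : ℝ) < (χ.conductor : ℝ) := lt_of_lt_of_le (Real.rpow_pos_of_pos hq0 _) hr1
    have hlrq : Real.log χ.conductor ≤ Real.log q := Real.log_le_log hrpos hrler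
    have hrr₂ : r₂ ≤ χ.conductor := by
      have h5 : (r₂ : ℝ) ≤ (χ.conductor : ℝ) := (hq₃ q hqq3).trans hr1
      exact_mod_cast h5
    have hprim : χ.primitiveCharacter ∈ prim χ.conductor := by
      rw [Pool.Agent.SO.A3_mem_prim]
      exact χ.primitiveCharacter_isPrimitive
    have hb' : (((Finset.range (nj χ.conductor T)).filter
        (fun j => ¬ gd χ.conductor b R K m χ.primitiveCharacter (tj χ.conductor T j))).card : ℝ) ≤
        e / 2 * ε₁ / (100 * (T + 1)) * (nj χ.conductor T : ℝ) := by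
      by_contra h8
      exact hnb ⟨hne, not_le.1 h8⟩
    have hUr : 8000 * ((N : ℝ) + 1) * Real.log χ.conductor ≤ U := by
      refine le_trans ?_ hU
      exact mul_le_mul_of_nonneg_left hlrq (by positivity)
    have hw := hwin χ.conductor hrr₂ χ.primitiveCharacter hprim hb' U hUr
    exact H3_one ε e C _ hε hε1 he hC hind q χ.conductor N hq3 χ hr1 hrle U hU1 hL1 hLC hUW hg hw

end Pool.Agent.SF
end

section

set_option autoImplicit false

/-! Task C6: all characters, `y` up to `q^B`. -/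

namespace Pool.Agent.SG

open Complex MeasureTheory
open Pool.Agent.SK Pool.Agent.SD Pool.Agent.SE MP9cfc0a.SK
open Pool.Agent.SO (prim NN)
open Pool.Agent.EM (V)

/-- C6. PROOF. COPY the proof of `chars_iso` in SE/C6.lean: `Bad r ψ := ∃ _ : NeZero r, ∃ Y, log r ≤ Y ∧ Y ≤ 2 B log r ∧ DD ψ Y < ..` (the alternative with `gW` is not needed), `prim_isoB (2 * B) _ (ε/8)`,
`transfer Bad κ (ε/8)`. For `χ ∈ S`, `q ≤ y`, `Y = log y ≤ B log q ≤ 2 B log r` (`log r ≥ (1 - ε/8) log q ≥ (1/2) log q`): `DD_eq_En` and `C6_one_char` (stated for every `y ≥ q`). -/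
theorem chars_isoB (B : ℝ) (hB : 1 ≤ B) (ε : ℝ) (hε : 0 < ε) (hε1 : ε ≤ 1) : ∃ T₀ ε₁ : ℝ, 0 < T₀ ∧ 0 < ε₁ ∧ ε₁ ≤ 1 ∧ ∀ T : ℝ, T₀ ≤ T → ∀ κ : ℝ, 0 < κ →
    ∃ q₀ : ℕ, 3 ≤ q₀ ∧ ∀ (q : ℕ) [NeZero q], q₀ ≤ q → ∃ S : Finset (DirichletCharacter ℂ q),
      (1 - κ) * (q.totient : ℝ) ≤ (S.card : ℝ) ∧ (∀ χ ∈ S, χ ≠ 1) ∧
      ∀ χ ∈ S, (q : ℝ) ^ (1 - ε / 8) ≤ (χ.conductor : ℝ) ∧ ∃ _ : NeZero χ.conductor,
        ∀ y : ℝ, (q : ℝ) ≤ y → Real.log y ≤ B * Real.log q →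
        1 / 2 * (2 * (Real.log q * Real.log y) - Real.log q ^ 2) -
          1 / 2 * Real.log y * gF (IZ χ.primitiveCharacter T (ε₁ / Real.log χ.conductor)) -
          ε * (Real.log q * Real.log y) ≤ En χ y := by
  classical
  have hlog1 : ∀ q : ℕ, 3 ≤ q → 1 ≤ Real.log q := by
    intro q hq
    have hq3 : (3 : ℝ) ≤ q := by exact_mod_cast hq
    rw [Real.le_log_iff_exp_le (by linarith)]
    exact Real.exp_one_lt_d9.le.trans (by linarith)
  obtain ⟨T1, ε₁, hT1, hε₁, hε₁1, HA⟩ := prim_isoB (2 * B) (by linarith) (ε / 8) (by positivity) (by linarith)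
  refine ⟨T1, ε₁, hT1, hε₁, hε₁1, fun T hT κ hκ => ?_⟩
  let Bad : (r : ℕ) → DirichletCharacter ℂ r → Prop := fun r ψ => ∃ _ : NeZero r,
      ∃ Y : ℝ, Real.log r ≤ Y ∧ Y ≤ 2 * B * Real.log r ∧
        DD ψ Y < 1 / 2 * (2 * (Real.log r * Y) - Real.log r ^ 2) - 1 / 2 * Y * gF (IZ ψ T (ε₁ / Real.log r)) -
          ε / 8 * (Real.log r * Y)
  have H : ∃ r₀ : ℕ, ∀ (r : ℕ) [NeZero r], r₀ ≤ r → ∀ S : Finset (DirichletCharacter ℂ r), S ⊆ prim r →
      (∀ χ ∈ S, Bad r χ) → (S.card : ℝ) ≤ κ / 4 * NN r := by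
    obtain ⟨r1, hr1, h1⟩ := HA T hT (κ / 4) (by positivity)
    refine ⟨r1, fun r _ hr S hS hbad => h1 r hr S hS fun χ hχ => ?_⟩
    obtain ⟨inst, hb⟩ := hbad χ hχ
    exact hb
  obtain ⟨q1, hq13, hq1⟩ := transfer Bad κ (ε / 8) hκ (by positivity) (by linarith) H
  obtain ⟨q2, hq2⟩ := F4_large (1 / 2) (272 * 64 / ε ^ 2) (by norm_num)
  refine ⟨max q1 q2, hq13.trans (le_max_left _ _), fun q _ hq => ?_⟩
  have hqq1 : q1 ≤ q := (le_max_left _ _).trans hq
  have hqq2 : q2 ≤ q := (le_max_right _ _).trans hq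
  have hq3' : 3 ≤ q := hq13.trans hqq1
  have hq3r : (3 : ℝ) ≤ q := by exact_mod_cast hq3'
  have hq0 : (0 : ℝ) < q := by linarith
  have hL1 := hlog1 q hq3'
  obtain ⟨S, hS1, hS2, hS3⟩ := hq1 q hqq1
  have hR1 : 1 < (q : ℝ) ^ (1 - ε / 8) := Real.one_lt_rpow (by linarith) (by linarith)
  refine ⟨S, hS1, hS2, fun χ hχ => ⟨(hS3 χ hχ).1, ?_⟩⟩
  have h2 : 2 ≤ χ.conductor := by
    have h1 : (1 : ℝ) < (χ.conductor : ℝ) := hR1.trans_le (hS3 χ hχ).1
    exact_mod_cast h1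
  have hlow : (1 - ε / 8) * Real.log q ≤ Real.log χ.conductor := by
    have := Real.log_le_log (Real.rpow_pos_of_pos hq0 _) (hS3 χ hχ).1
    rwa [Real.log_rpow hq0] at this
  have hc0 : (0 : ℝ) < χ.conductor := by exact_mod_cast (by omega : 0 < χ.conductor)
  have hupp : Real.log χ.conductor ≤ Real.log q := by
    refine Real.log_le_log hc0 ?_
    exact_mod_cast Nat.le_of_dvd (Nat.pos_of_ne_zero (NeZero.ne q))
      (DirichletCharacter.conductor_dvd_level χ)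
  have hne : NeZero χ.conductor := ⟨by omega⟩
  refine ⟨hne, ?_⟩
  have hnb : ¬ ∃ Y : ℝ, Real.log χ.conductor ≤ Y ∧ Y ≤ 2 * B * Real.log χ.conductor ∧
        DD χ.primitiveCharacter Y < 1 / 2 * (2 * (Real.log χ.conductor * Y) -
          Real.log χ.conductor ^ 2) - 1 / 2 * Y * gF (IZ χ.primitiveCharacter T (ε₁ / Real.log χ.conductor)) -
          ε / 8 * (Real.log χ.conductor * Y) :=
    fun h => (hS3 χ hχ).2 ⟨hne, h⟩
  push Not at hnb
  intro y hy hyB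
  have hy0 : 0 < y := by linarith
  have hLy : Real.log q ≤ Real.log y := Real.log_le_log hq0 hy
  have h3 := hnb (Real.log y) (hupp.trans hLy) (by
    have h5 : 1 / 2 * Real.log q ≤ Real.log χ.conductor := by nlinarith
    have h6 : B * Real.log q ≤ B * (2 * Real.log χ.conductor) := mul_le_mul_of_nonneg_left (by linarith) (by linarith)
    linarith)
  rw [DD_eq_En _ _ (by linarith), Real.exp_log hy0] at h3
  have hg0 : 0 ≤ gF (IZ χ.primitiveCharacter T (ε₁ / Real.log χ.conductor)) := by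
    unfold gF
    exact Finset.sum_nonneg fun w _ => by positivity
  exact C6_one_char ε (ε / 8) hε hε1 rfl q hq3' (hq2 q hqq2) χ (hS3 χ hχ).1
      _ hg0 y hy h3

end Pool.Agent.SG
end

section

set_option autoImplicit false

/-! Task H3: all characters, large `X`, near scale `Y`. -/

namespace Pool.Agent.SG

open Complex MeasureTheory
open Pool.Agent.SK Pool.Agent.SD Pool.Agent.SE Pool.Agent.SF MP9cfc0a.SK
open Pool.Agent.EM (psiC V)
open Pool.Agent.SO (prim NN pt pz MM kw)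

/-- One character, from the window of its primitive character. -/
private theorem H3B_one (ε e C g Y En0 : ℝ) (hε : 0 < ε) (hε1 : ε ≤ 1 / 2) (he : e = ε / 16) (hC : 0 < C)
    (hind : ∀ κ : ℝ, 0 < κ → κ ≤ 1 → ∀ (q : ℕ) [NeZero q], 3 ≤ q → ∀ (χ : DirichletCharacter ℂ q) (a b : ℝ),
      0 ≤ a → a ≤ b →
      (1 - κ) * (∫ x in Set.Ioc (Real.exp a) (Real.exp b), ‖psiC χ.primitiveCharacter x‖ ^ 2 / x ^ 2) - C / κ * (Real.log q) ^ (3 / 2 : ℝ) ≤
        ∫ x in Set.Ioc (Real.exp a) (Real.exp b), ‖psiC χ x‖ ^ 2 / x ^ 2)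
    (q r N : ℕ) [NeZero q] (hq : 3 ≤ q) (χ : DirichletCharacter ℂ q)
    (hrq : (q : ℝ) ^ (1 - e / 8) ≤ (r : ℝ)) (hrle : r ≤ q) (U : ℝ) (hU1 : 1 ≤ U)
    (hL : 1 ≤ Real.log q) (hL2 : (C / e / (ε / 4)) ^ 2 ≤ Real.log q)
    (hUW : ((N : ℝ) + 1) * (1000 * Real.log (q * U)) ≤ U)
    (hY : 0 < Y)
    (hg : 1 / 2 * (2 * (Real.log q * Y) - Real.log q ^ 2) - 1 / 2 * Y * g - e * (Real.log q * Y) ≤ En0)
    (hwin : 2 * VN r N U * ((1 - e) * (g - e * Real.log r)) ≤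
      ∫ u in (U - VN r N U)..(U + VN r N U), ‖ff χ.primitiveCharacter u‖ ^ 2) :
    (1 - ε) * (2 * (((N : ℝ) + 1) * (1000 * Real.log (q * U)))) * (2 * Real.log q - Real.log q ^ 2 / Y - 2 * En0 / Y - ε * Real.log q) ≤
      ∫ x in Set.Ioc (Real.exp (U - ((N : ℝ) + 1) * (1000 * Real.log (q * U)))) (Real.exp (U + ((N : ℝ) + 1) * (1000 * Real.log (q * U)))),
        ‖psiC χ x‖ ^ 2 / x ^ 2 := by
  have hq3 : (3 : ℝ) ≤ q := by exact_mod_cast hq
  have hq0 : (0 : ℝ) < q := by linarith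
  have hU0 : 0 < U := by linarith
  have he0 : 0 < e := by rw [he]; positivity
  have he1 : e ≤ 1 / 32 := by rw [he]; linarith
  have hrpos : (0 : ℝ) < r := lt_of_lt_of_le (Real.rpow_pos_of_pos hq0 _) hrq
  have hrler : (r : ℝ) ≤ q := by exact_mod_cast hrle
  have hlU : 0 ≤ Real.log U := Real.log_nonneg hU1
  have hlr : (1 - e / 8) * Real.log q ≤ Real.log r := by
    rw [← Real.log_rpow hq0]
    exact Real.log_le_log (Real.rpow_pos_of_pos hq0 _) hrq
  have hlrq : Real.log r ≤ Real.log q := Real.log_le_log hrpos hrler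
  have e1 : Real.log (q * U) = Real.log q + Real.log U := Real.log_mul hq0.ne' hU0.ne'
  have e2 : Real.log (r * U) = Real.log r + Real.log U := Real.log_mul hrpos.ne' hU0.ne'
  have hN0 : (0 : ℝ) ≤ (N : ℝ) := Nat.cast_nonneg N
  have hVdef : VN r N U = ((N : ℝ) + 1) * (1000 * (Real.log r + Real.log U)) := by
    unfold VN VV
    rw [e2]
  have hInn : 0 ≤ ∫ x in Set.Ioc (Real.exp (U - ((N : ℝ) + 1) * (1000 * Real.log (q * U)))) (Real.exp (U + ((N : ℝ) + 1) * (1000 * Real.log (q * U)))),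
        ‖psiC χ x‖ ^ 2 / x ^ 2 :=
    setIntegral_nonneg measurableSet_Ioc fun x _ => by positivity
  set L := Real.log q with hLdef
  set W := ((N : ℝ) + 1) * (1000 * Real.log (q * U)) with hWdef
  have hL0 : 0 < L := by linarith
  have hWe : W = ((N : ℝ) + 1) * (1000 * (L + Real.log U)) := by rw [hWdef, e1]
  have hWL : 1000 * L ≤ W := by
    rw [hWe]
    nlinarith
  have hVW : VN r N U ≤ W := by
    rw [hVdef, hWe]
    refine mul_le_mul_of_nonneg_left ?_ (by linarith)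
    linarith
  have hWV : (1 - e) * W ≤ VN r N U := by
    rw [hVdef, hWe]
    have h1 : (1 - e) * (1000 * (L + Real.log U)) ≤ 1000 * (Real.log r + Real.log U) := by nlinarith
    calc (1 - e) * (((N : ℝ) + 1) * (1000 * (L + Real.log U))) = ((N : ℝ) + 1) * ((1 - e) * (1000 * (L + Real.log U))) := by ring
      _ ≤ _ := mul_le_mul_of_nonneg_left h1 (by linarith)
  have hW0 : 0 < W := by linarith
  have hV0 : 0 ≤ VN r N U := le_trans (mul_nonneg (by linarith) hW0.le) hWV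
  have hUW0 : 0 ≤ U - W := by linarith
  set A := 2 * L - L ^ 2 / Y - 2 * En0 / Y - ε * L with hA
  rcases le_or_gt A 0 with hA0 | hA0
  · refine le_trans ?_ hInn
    refine mul_nonpos_of_nonneg_of_nonpos ?_ hA0
    exact mul_nonneg (by linarith) (by linarith)
  have hgA : A + (ε - 3 * e) * L ≤ g - e * Real.log r := by
    have h1 : 2 * L - L ^ 2 / Y - 2 * En0 / Y - 2 * e * L ≤ g := by
      have h2 : 2 * En0 / Y = En0 * (2 / Y) := by ring
      have h3 : (1 / 2 * (2 * (L * Y) - L ^ 2) - 1 / 2 * Y * g - e * (L * Y)) * (2 / Y) ≤ En0 * (2 / Y) :=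
        mul_le_mul_of_nonneg_right hg (by positivity)
      have h4 : (1 / 2 * (2 * (L * Y) - L ^ 2) - 1 / 2 * Y * g - e * (L * Y)) * (2 / Y) = 2 * L - L ^ 2 / Y - g - 2 * e * L := by
        field_simp
      rw [h4] at h3
      rw [h2]
      linarith
    have h5 : e * Real.log r ≤ e * L := mul_le_mul_of_nonneg_left hlrq he0.le
    rw [hA]
    linarith
  have hεe : 0 ≤ (ε - 3 * e) * L := by
    have : 0 ≤ ε - 3 * e := by rw [he]; linarith
    positivity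
  -- the window of the primitive character, in `x`
  have h1 := window_eq χ.primitiveCharacter (U - VN r N U) (U + VN r N U) (by linarith)
  have h2 : (∫ x in Set.Ioc (Real.exp (U - VN r N U)) (Real.exp (U + VN r N U)), ‖psiC χ.primitiveCharacter x‖ ^ 2 / x ^ 2) ≤
      ∫ x in Set.Ioc (Real.exp (U - W)) (Real.exp (U + W)), ‖psiC χ.primitiveCharacter x‖ ^ 2 / x ^ 2 := by
    have hg0 : ∀ x : ℝ, 0 ≤ ‖psiC χ.primitiveCharacter x‖ ^ 2 / x ^ 2 := fun x => by positivity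
    refine setIntegral_mono_set (Pool.Agent.EM.integrable_psiC_sq_window _ _ _ (Real.one_le_exp hUW0))
      (Filter.Eventually.of_forall hg0) ?_
    refine (Set.Ioc_subset_Ioc ?_ ?_).eventuallyLE
    · exact Real.exp_le_exp.2 (by linarith)
    · exact Real.exp_le_exp.2 (by linarith)
  have h3 := hind e he0 (by linarith) q hq χ (U - W) (U + W) hUW0 (by linarith)
  rw [h1] at hwin
  have h4 : 2 * ((1 - e) * W) * ((1 - e) * (A + (ε - 3 * e) * L)) ≤ 2 * VN r N U * ((1 - e) * (g - e * Real.log r)) := by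
    refine mul_le_mul (by linarith) (mul_le_mul_of_nonneg_left hgA (by linarith)) ?_ (by linarith)
    exact mul_nonneg (by linarith) (by linarith)
  have h5 : (1 - e) * (2 * ((1 - e) * W) * ((1 - e) * (A + (ε - 3 * e) * L))) ≤
      (1 - e) * (∫ x in Set.Ioc (Real.exp (U - W)) (Real.exp (U + W)), ‖psiC χ.primitiveCharacter x‖ ^ 2 / x ^ 2) :=
    mul_le_mul_of_nonneg_left (h4.trans (hwin.trans h2)) (by linarith)
  have h6 := H3_err (C / e) (ε / 4) L W (by positivity) hL hL2 (by linarith)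
  have h7 : (1 - 3 * e) * (2 * W * (A + (ε - 3 * e) * L)) ≤ (1 - e) * (2 * ((1 - e) * W) * ((1 - e) * (A + (ε - 3 * e) * L))) := by
    have h8 : (1 - 3 * e) ≤ (1 - e) ^ 3 := by nlinarith [sq_nonneg e]
    have h9 : 0 ≤ 2 * W * (A + (ε - 3 * e) * L) := by positivity
    calc (1 - 3 * e) * (2 * W * (A + (ε - 3 * e) * L)) ≤ (1 - e) ^ 3 * (2 * W * (A + (ε - 3 * e) * L)) :=
          mul_le_mul_of_nonneg_right h8 h9
      _ = _ := by ring
  have h10 : ε / 4 * L * W ≤ (1 - 3 * e) * (2 * W * ((ε - 3 * e) * L)) := by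
    have h11 : ε / 4 ≤ (1 - 3 * e) * (2 * (ε - 3 * e)) := by
      rw [he]
      nlinarith
    have h12 : 0 ≤ L * W := by positivity
    calc ε / 4 * L * W = ε / 4 * (L * W) := by ring
      _ ≤ (1 - 3 * e) * (2 * (ε - 3 * e)) * (L * W) := mul_le_mul_of_nonneg_right h11 h12
      _ = _ := by ring
  have h13 : (1 - ε) * (2 * W) * A ≤ (1 - 3 * e) * (2 * W * A) := by
    have h14 : 1 - ε ≤ 1 - 3 * e := by rw [he]; linarith
    have h15 : 0 ≤ 2 * W * A := by positivity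
    calc (1 - ε) * (2 * W) * A = (1 - ε) * (2 * W * A) := by ring
      _ ≤ _ := mul_le_mul_of_nonneg_right h14 h15
  have h16 : (1 - 3 * e) * (2 * W * (A + (ε - 3 * e) * L)) = (1 - 3 * e) * (2 * W * A) + (1 - 3 * e) * (2 * W * ((ε - 3 * e) * L)) := by ring
  linarith

/-- H3. PROOF. COPY `H3_one` and `chars_far` of SF/H3.lean. With `chars_isoB B _ e` and `y = exp Y`: `g ≥ 2 L - L²/Y - 2 En χ y/Y - 2 e L` (multiply by `2/Y`), `A := 2 L - L²/Y - 2 En χ y/Y - ε L`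
in place of `L - 2 En/L - ε L`; the rest of the computation is the same (`S` and `N₀` do not depend on `Y`). -/
theorem chars_farB (B : ℝ) (hB : 1 ≤ B) (ε : ℝ) (hε : 0 < ε) (hε1 : ε ≤ 1 / 2) (κ : ℝ) (hκ : 0 < κ) : ∃ N₀ : ℕ, 1 ≤ N₀ ∧ ∀ N : ℕ, N₀ ≤ N →
    ∃ q₀ : ℕ, 3 ≤ q₀ ∧ ∀ (q : ℕ) [NeZero q], q₀ ≤ q → ∃ S : Finset (DirichletCharacter ℂ q),
      (1 - κ) * (q.totient : ℝ) ≤ (S.card : ℝ) ∧ (∀ χ ∈ S, χ ≠ 1) ∧
      ∀ χ ∈ S, ∀ U : ℝ, 8000 * ((N : ℝ) + 1) * Real.log q ≤ U → ∀ Y : ℝ, Real.log q ≤ Y → Y ≤ B * Real.log q →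
        (1 - ε) * (2 * (((N : ℝ) + 1) * (1000 * Real.log (q * U)))) *
            (2 * Real.log q - Real.log q ^ 2 / Y - 2 * En χ (Real.exp Y) / Y - ε * Real.log q) ≤
          ∫ x in Set.Ioc (Real.exp (U - ((N : ℝ) + 1) * (1000 * Real.log (q * U)))) (Real.exp (U + ((N : ℝ) + 1) * (1000 * Real.log (q * U)))),
            ‖psiC χ x‖ ^ 2 / x ^ 2 := by
  classical
  obtain ⟨e, he⟩ : ∃ e : ℝ, e = ε / 16 := ⟨_, rfl⟩
  have he0 : 0 < e := by rw [he]; positivity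
  have he1 : e ≤ 1 / 32 := by rw [he]; linarith
  obtain ⟨T₀, ε₁, hT₀, hε₁, hε₁1, H₁⟩ := chars_isoB B hB e he0 (by linarith)
  obtain ⟨m, hm, hfew⟩ := few_bad_cells
  obtain ⟨T, hTdef⟩ : ∃ T : ℕ, T = max 1 ⌈T₀⌉₊ := ⟨_, rfl⟩
  have hT : 1 ≤ T := by rw [hTdef]; exact le_max_left _ _
  have hTle : T₀ ≤ (T : ℝ) := by
    refine (Nat.le_ceil T₀).trans ?_
    rw [hTdef]
    exact_mod_cast le_max_right _ _
  have hT0 : (0 : ℝ) ≤ (T : ℝ) := Nat.cast_nonneg _
  obtain ⟨b, R, K, hb, hR, hK, r₁, hr₁, hcells⟩ := hfew T (e / 2 * ε₁ / (100 * (T + 1))) (κ / 8)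
    (by positivity) (by positivity)
  obtain ⟨N₀, hN₀, hwinN⟩ := prim_windowN T hT ε₁ e hε₁ hε₁1 he0 (by linarith) b R K hb hR hK m hm
  obtain ⟨C, hC, hind⟩ := window_inducedN
  refine ⟨N₀, hN₀, fun N hN => ?_⟩
  obtain ⟨r₂, hr₂, hwin⟩ := hwinN N hN
  obtain ⟨q₁, hq₁, G₁⟩ := H₁ (T : ℝ) hTle (κ / 2) (by positivity)
  obtain ⟨q₂, hq₂, htr⟩ := transfer
    (fun r ψ => ∃ _ : NeZero r, e / 2 * ε₁ / (100 * (T + 1)) * (nj r T : ℝ) <
      (((Finset.range (nj r T)).filter (fun j => ¬ gd r b R K m ψ (tj r T j))).card : ℝ))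
    (κ / 2) (1 / 10) (by positivity) (by norm_num) (by norm_num)
    ⟨r₁, fun r _ hr S hS hbad => by
      have h1 := hcells r hr S hS fun χ hχ => by
        obtain ⟨_, h2⟩ := hbad χ hχ
        exact h2
      linarith⟩
  obtain ⟨q₃, hq₃⟩ := Pool.Agent.SO.A3_large (1 - e / 8) r₂ (by linarith)
  have hN1 : (0 : ℝ) < (N : ℝ) + 1 := by positivity
  obtain ⟨U₀, hU₀⟩ := H3_grow (((N : ℝ) + 1) * 2000) (by positivity)
  obtain ⟨q₄, hq₄⟩ := D6_logq (max (max 1 U₀) ((C / e / (ε / 4)) ^ 2))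
  refine ⟨max (max q₁ q₂) (max q₃ q₄), hq₁.trans ((le_max_left _ _).trans (le_max_left _ _)),
    fun q _ hq => ?_⟩
  have hqq1 : q₁ ≤ q := by omega
  have hqq2 : q₂ ≤ q := by omega
  have hqq3 : q₃ ≤ q := by omega
  have hqq4 : q₄ ≤ q := by omega
  have hq3 : 3 ≤ q := hq₁.trans hqq1
  have hq3r : (3 : ℝ) ≤ q := by exact_mod_cast hq3
  have hq0 : (0 : ℝ) < q := by linarith
  obtain ⟨S₁, hS₁c, hS₁1, hS₁⟩ := G₁ q hqq1
  obtain ⟨S₂, hS₂c, -, hS₂⟩ := htr q hqq2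
  have hlogs := hq₄ q hqq4
  have hL1 : 1 ≤ Real.log q := (le_max_left _ _).trans ((le_max_left _ _).trans hlogs)
  have hLU : U₀ ≤ Real.log q := (le_max_right _ _).trans ((le_max_left _ _).trans hlogs)
  have hLC : (C / e / (ε / 4)) ^ 2 ≤ Real.log q := (le_max_right _ _).trans hlogs
  have hcard : (Fintype.card (DirichletCharacter ℂ q) : ℝ) = (q.totient : ℝ) := by
    rw [← Nat.card_eq_fintype_card, DirichletCharacter.card_eq_totient_of_hasEnoughRootsOfUnity]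
  refine ⟨S₁ ∩ S₂, ?_, fun χ hχ => hS₁1 χ (Finset.mem_inter.1 hχ).1, fun χ hχ U hU Y hY1 hY2 => ?_⟩
  · have h1 : ((S₁ ∪ S₂).card : ℝ) + ((S₁ ∩ S₂).card : ℝ) = (S₁.card : ℝ) + (S₂.card : ℝ) := by
      exact_mod_cast Finset.card_union_add_card_inter S₁ S₂
    have h2 : ((S₁ ∪ S₂).card : ℝ) ≤ (q.totient : ℝ) := by
      rw [← hcard]
      exact_mod_cast Finset.card_le_univ (S₁ ∪ S₂)
    linarith
  · obtain ⟨hχ1, hχ2⟩ := Finset.mem_inter.1 hχ
    obtain ⟨hr1, hne, hgy⟩ := hS₁ χ hχ1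
    obtain ⟨-, hnb⟩ := hS₂ χ hχ2
    have hN0 : (0 : ℝ) ≤ (N : ℝ) := Nat.cast_nonneg N
    have h8L : Real.log q ≤ 8000 * ((N : ℝ) + 1) * Real.log q := by nlinarith
    have hU1 : 1 ≤ U := by linarith
    have hU₀U : U₀ ≤ U := by linarith
    have hgr := hU₀ U hU₀U
    have hUW : ((N : ℝ) + 1) * (1000 * Real.log (q * U)) ≤ U := by
      rw [Real.log_mul hq0.ne' (by linarith)]
      nlinarith
    have hrle : χ.conductor ≤ q := Nat.le_of_dvd (by omega) χ.conductor_dvd_level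
    have hrler : (χ.conductor : ℝ) ≤ q := by exact_mod_cast hrle
    have hrpos : (0 : ℝ) < (χ.conductor : ℝ) := lt_of_lt_of_le (Real.rpow_pos_of_pos hq0 _) hr1
    have hlrq : Real.log χ.conductor ≤ Real.log q := Real.log_le_log hrpos hrler
    have hrr₂ : r₂ ≤ χ.conductor := by
      have h5 : (r₂ : ℝ) ≤ (χ.conductor : ℝ) := (hq₃ q hqq3).trans hr1
      exact_mod_cast h5
    have hprim : χ.primitiveCharacter ∈ prim χ.conductor := by
      rw [Pool.Agent.SO.A3_mem_prim]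
      exact χ.primitiveCharacter_isPrimitive
    have hb' : (((Finset.range (nj χ.conductor T)).filter
        (fun j => ¬ gd χ.conductor b R K m χ.primitiveCharacter (tj χ.conductor T j))).card : ℝ) ≤
        e / 2 * ε₁ / (100 * (T + 1)) * (nj χ.conductor T : ℝ) := by
      by_contra h8
      exact hnb ⟨hne, not_le.1 h8⟩
    have hUr : 8000 * ((N : ℝ) + 1) * Real.log χ.conductor ≤ U := by
      refine le_trans ?_ hU
      exact mul_le_mul_of_nonneg_left hlrq (by positivity)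
    have hw := hwin χ.conductor hrr₂ χ.primitiveCharacter hprim hb' U hUr
    have hY0 : 0 < Y := by linarith
    have hqY : (q : ℝ) ≤ Real.exp Y := by
      rw [← Real.log_le_iff_le_exp hq0]
      exact hY1
    have hlY : Real.log (Real.exp Y) = Y := Real.log_exp Y
    have hg := hgy (Real.exp Y) hqY (by rw [hlY]; exact hY2)
    rw [hlY] at hg
    exact H3B_one ε e C _ Y _ hε hε1 he hC hind q χ.conductor N hq3 χ hr1 hrle U hU1 hL1 hLC hUW hY0 hg hw

end Pool.Agent.SG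
end
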