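import Pool.Agent.Lib.MP_9cfc0a_nt.Mg.G057
import Pool.Agent.Lib.MP_9cfc0a_nt.Mg.G067
import Pool.Agent.Lib.MP_9cfc0a_nt.Mg.G062

section

set_option autoImplicit false

/-! Task H4: all characters, every `X ≥ q`. -/

namespace Pool.Agent.SF

open Complex MeasureTheory
open Pool.Agent.SK Pool.Agent.SD Pool.Agent.SE Pool.Agent.SW MP9cfc0a.SK
open Pool.Agent.EM (psiC V)
open Pool.Agent.SO (prim NN pt pz MM kw)

/-- `log x ≤ x/M` for large `x`. -/
theorem H4_log (M : ℝ) (hM : 0 < M) : ∃ x₀ : ℝ, ∀ x : ℝ, x₀ ≤ x → Real.log x ≤ x / M := by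
  have h := Real.isLittleO_log_id_atTop.def (c := 1 / M) (by positivity)
  obtain ⟨x₀, hx₀⟩ := Filter.eventually_atTop.1 h
  refine ⟨max x₀ 0, fun x hx => ?_⟩
  have h1 := hx₀ x ((le_max_left _ _).trans hx)
  have h2 : 0 ≤ x := (le_max_right _ _).trans hx
  rw [id, Real.norm_of_nonneg h2] at h1
  calc Real.log x ≤ ‖Real.log x‖ := Real.le_norm_self _
    _ ≤ 1 / M * x := h1
    _ = x / M := by ring

/-- `M L ≤ L^(5/4)` for `L ≥ M^4`. -/
theorem H4_pow (M L : ℝ) (hM : 0 < M) (hL : M ^ 4 ≤ L) : M * L ≤ L ^ (5 / 4 : ℝ) := by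
  have hL0 : 0 < L := lt_of_lt_of_le (by positivity) hL
  have h1 : L ^ (5 / 4 : ℝ) = L ^ (1 / 4 : ℝ) * L := by
    nth_rewrite 3 [← Real.rpow_one L]
    rw [← Real.rpow_add hL0]
    norm_num
  have h2 : M ≤ L ^ (1 / 4 : ℝ) := by
    have h3 : M = (M ^ 4) ^ (1 / 4 : ℝ) := by
      rw [← Real.rpow_natCast, ← Real.rpow_mul hM.le]
      norm_num
    calc M = (M ^ 4) ^ (1 / 4 : ℝ) := h3
      _ ≤ L ^ (1 / 4 : ℝ) := Real.rpow_le_rpow (by positivity) hL (by norm_num)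
  rw [h1]
  exact mul_le_mul_of_nonneg_right h2 hL0.le

theorem H4_loN (q N : ℕ) (U : ℝ) :
    loN q N U = Real.exp (max 0 (U - ((N : ℝ) + 1) * (1000 * Real.log (q * U)))) := by
  unfold loN
  rw [Real.exp_monotone.map_max, Real.exp_zero]

theorem H4_lenN (q N : ℕ) (U : ℝ) :
    lenN q N U = U + ((N : ℝ) + 1) * (1000 * Real.log (q * U)) -
      max 0 (U - ((N : ℝ) + 1) * (1000 * Real.log (q * U))) := by
  unfold lenN
  rw [H4_loN, Real.log_exp]
  unfold upN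
  rw [Real.log_exp]

theorem H4_W (q N : ℕ) (hq : 3 ≤ q) (U : ℝ) (hU : Real.log q ≤ U) :
    1 ≤ Real.log q ∧ 1000 * Real.log q ≤ ((N : ℝ) + 1) * (1000 * Real.log (q * U)) ∧
      1000 * (N : ℝ) * Real.log q ≤ ((N : ℝ) + 1) * (1000 * Real.log (q * U)) := by
  have h3 : (3 : ℝ) ≤ q := by exact_mod_cast hq
  have hq0 : (0 : ℝ) < q := by linarith
  have hL1 : 1 ≤ Real.log q := by
    rw [Real.le_log_iff_exp_le hq0]
    exact Real.exp_one_lt_d9.le.trans (by linarith)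
  have hU0 : 0 < U := by linarith
  have e1 : Real.log (q * U) = Real.log q + Real.log U := Real.log_mul hq0.ne' hU0.ne'
  have h5 : 0 ≤ Real.log U := Real.log_nonneg (by linarith)
  have hN : (0 : ℝ) ≤ N := Nat.cast_nonneg _
  rw [e1]
  have h6 : 0 ≤ (N : ℝ) * Real.log q := by positivity
  have h7 : 0 ≤ ((N : ℝ) + 1) * Real.log U := by positivity
  refine ⟨hL1, ?_, ?_⟩
  · nlinarith
  · nlinarith

/-- H4b. PROOF. `loN = exp(max 0 (U - W))`, `upN = exp(U + W)`, `W = (N+1) 1000 log(qU) ≥ 0`. -/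
theorem lenN_pos (q N : ℕ) (hq : 3 ≤ q) (U : ℝ) (hU : Real.log q ≤ U) :
    1 ≤ loN q N U ∧ loN q N U ≤ upN q N U ∧ Real.log q ≤ lenN q N U := by
  obtain ⟨h1, h2, -⟩ := H4_W q N hq U hU
  have h3 : max 0 (U - ((N : ℝ) + 1) * (1000 * Real.log (q * U))) ≤ U := max_le (by linarith) (by linarith)
  refine ⟨le_max_left _ _, ?_, ?_⟩
  · rw [H4_loN]
    unfold upN
    exact Real.exp_le_exp.2 (by linarith)
  · rw [H4_lenN]
    linarith

/-- H4. PROOF. `S₁` of `chars_far` (`κ/2`), `S₂` of `blocks4 (ε/2) (1/4)` (SW/VB2.lean, `κ/2`: use `blocks4 (min (ε/2) (κ/2)) (1/4)`), `S = S₁ ∩ S₂`. `L = log q`, `W = (N+1) 1000 log(qU)`.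
`U ≥ 8000 (N+1) L`: `loN = exp(U - W)` (`W ≤ U/4` for `q` large), `lenN = 2W`, `chars_far`. `L ≤ U ≤ 8000 (N+1) L`: `A = L - 2 En/L - ε L`; if `A ≤ 0` trivial; otherwise `avg_window` with
`F = ‖psiC χ‖²`, `α = log loN = max 0 (U - W)`, `β = U + W`: for `s ∈ [α + L, β - L]`, `s + L ≤ U + W ≤ L^(5/4)` (`q` large), `blocks4`, `TB_eq_BE`, `BE_split`, `NE_eq_En` (SE/E1.lean):
`(2 - ε/2) L³ ≤ 4 L En + 2 FE`, so `FE ≥ L² (L - 2 En/L - (ε/4) L) ≥ A L²`; `lenN - 2L ≥ (1-ε) lenN` as `lenN ≥ W ≥ 1000 (N+1) L ≥ (2/ε) L` for `N ≥ 1/ε`. -/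
theorem chars_all (ε : ℝ) (hε : 0 < ε) (hε1 : ε ≤ 1 / 2) (κ : ℝ) (hκ : 0 < κ) : ∃ N₀ : ℕ, 1 ≤ N₀ ∧ ∀ N : ℕ, N₀ ≤ N → ∃ q₀ : ℕ, 3 ≤ q₀ ∧
    ∀ (q : ℕ) [NeZero q], q₀ ≤ q → ∃ S : Finset (DirichletCharacter ℂ q),
      (1 - κ) * (q.totient : ℝ) ≤ (S.card : ℝ) ∧ (∀ χ ∈ S, χ ≠ 1) ∧
      ∀ χ ∈ S, ∀ U : ℝ, Real.log q ≤ U →
        (1 - ε) * lenN q N U * (Real.log q - 2 * En χ q / Real.log q - ε * Real.log q) ≤
          ∫ x in Set.Ioc (loN q N U) (upN q N U), ‖psiC χ x‖ ^ 2 / x ^ 2 := by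
  classical
  obtain ⟨N₁, hN₁, H₁⟩ := chars_far ε hε hε1 (κ / 2) (by positivity)
  refine ⟨max N₁ ⌈1 / ε⌉₊, hN₁.trans (le_max_left _ _), fun N hN => ?_⟩
  have hN1 : N₁ ≤ N := (le_max_left _ _).trans hN
  have hNε : 1 ≤ ε * (N : ℝ) := by
    have h1 : (1 / ε) ≤ (N : ℝ) := (Nat.le_ceil _).trans (by exact_mod_cast (le_max_right _ _).trans hN)
    rw [div_le_iff₀ hε] at h1
    linarith
  obtain ⟨q₁, hq₁, G₁⟩ := H₁ N hN1
  have he0 : 0 < min (ε / 2) (κ / 2) := lt_min (by positivity) (by positivity)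
  obtain ⟨T₂, hT₂, H₂⟩ := blocks4 (min (ε / 2) (κ / 2)) (1 / 4) he0 (by norm_num) (by norm_num)
  obtain ⟨q₂, hq₂, G₂⟩ := H₂ T₂ le_rfl
  have hN0 : (0 : ℝ) ≤ N := Nat.cast_nonneg _
  have hM : (0 : ℝ) < 10000 * ((N : ℝ) + 1) := by positivity
  obtain ⟨x₀, hx₀⟩ := H4_log (10000 * ((N : ℝ) + 1)) hM
  obtain ⟨q₃, hq₃⟩ := D6_logq (max x₀ ((10000 * ((N : ℝ) + 1)) ^ 4))
  refine ⟨max q₁ (max q₂ q₃), hq₁.trans (le_max_left _ _), fun q _ hq => ?_⟩
  have hqq1 : q₁ ≤ q := by omega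
  have hqq2 : q₂ ≤ q := by omega
  have hqq3 : q₃ ≤ q := by omega
  have hq3 : 3 ≤ q := hq₁.trans hqq1
  have h3 : (3 : ℝ) ≤ q := by exact_mod_cast hq3
  have hq0 : (0 : ℝ) < q := by linarith
  have hlogs := hq₃ q hqq3
  have hLx : x₀ ≤ Real.log q := (le_max_left _ _).trans hlogs
  have hLM : (10000 * ((N : ℝ) + 1)) ^ 4 ≤ Real.log q := (le_max_right _ _).trans hlogs
  obtain ⟨S₁, hS₁c, hS₁1, hS₁⟩ := G₁ q hqq1
  obtain ⟨-, ⟨S₂, hS₂c, -, hS₂⟩, -, -⟩ := G₂ q hqq2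
  have hcard : (Fintype.card (DirichletCharacter ℂ q) : ℝ) = (q.totient : ℝ) := by
    rw [← Nat.card_eq_fintype_card, DirichletCharacter.card_eq_totient_of_hasEnoughRootsOfUnity]
  have hφ0 : (0 : ℝ) < (q.totient : ℝ) := by
    exact_mod_cast Nat.totient_pos.2 (by omega)
  refine ⟨S₁ ∩ S₂, ?_, fun χ hχ => hS₁1 χ (Finset.mem_inter.1 hχ).1, fun χ hχ U hU => ?_⟩
  · have h1 : ((S₁ ∪ S₂).card : ℝ) + ((S₁ ∩ S₂).card : ℝ) = (S₁.card : ℝ) + (S₂.card : ℝ) := by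
      exact_mod_cast Finset.card_union_add_card_inter S₁ S₂
    have h2 : ((S₁ ∪ S₂).card : ℝ) ≤ (q.totient : ℝ) := by
      rw [← hcard]
      exact_mod_cast Finset.card_le_univ (S₁ ∪ S₂)
    have h4 : min (ε / 2) (κ / 2) * (q.totient : ℝ) ≤ κ / 2 * (q.totient : ℝ) :=
      mul_le_mul_of_nonneg_right (min_le_right _ _) hφ0.le
    nlinarith
  obtain ⟨hχ1, hχ2⟩ := Finset.mem_inter.1 hχ
  obtain ⟨hL1, hW1, hW2⟩ := H4_W q N hq3 U hU
  obtain ⟨hlo1, hloup, hlen⟩ := lenN_pos q N hq3 U hU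
  have hfar := hS₁ χ hχ1
  have hnear := hS₂ χ hχ2
  have hU1 : 1 ≤ U := by linarith
  have hU0 : 0 < U := by linarith
  have e1 : Real.log (q * U) = Real.log q + Real.log U := Real.log_mul hq0.ne' hU0.ne'
  have hlU0 : 0 ≤ Real.log U := Real.log_nonneg hU1
  have hNE := NE_eq_En χ hq3
  have hnn : 0 ≤ ∫ x in Set.Ioc (loN q N U) (upN q N U), ‖psiC χ x‖ ^ 2 / x ^ 2 :=
    setIntegral_nonneg measurableSet_Ioc fun x _ => by positivity
  rcases le_total (8000 * ((N : ℝ) + 1) * Real.log q) U with hUf | hUn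
  · -- far
    have h4 := hfar U hUf
    have h5 : Real.log U ≤ U / (10000 * ((N : ℝ) + 1)) := hx₀ U (hLx.trans hU)
    rw [le_div_iff₀ hM] at h5
    have h6 : ((N : ℝ) + 1) * (1000 * Real.log (q * U)) ≤ U := by
      rw [e1]
      nlinarith
    have h7 : max 0 (U - ((N : ℝ) + 1) * (1000 * Real.log (q * U))) =
        U - ((N : ℝ) + 1) * (1000 * Real.log (q * U)) := max_eq_right (by linarith)
    have h8 : lenN q N U = 2 * (((N : ℝ) + 1) * (1000 * Real.log (q * U))) := by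
      rw [H4_lenN, h7]
      ring
    have h9 : loN q N U = Real.exp (U - ((N : ℝ) + 1) * (1000 * Real.log (q * U))) := by
      rw [H4_loN, h7]
    rw [h8, h9]
    exact h4
  · -- near
    by_cases hA : Real.log q - 2 * En χ q / Real.log q - ε * Real.log q ≤ 0
    · refine le_trans ?_ hnn
      have h4 : 0 ≤ (1 - ε) * lenN q N U := mul_nonneg (by linarith) (by linarith)
      exact mul_nonpos_of_nonneg_of_nonpos h4 hA
    push Not at hA
    have hlen' := H4_lenN q N U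
    have hlo' := H4_loN q N U
    have hmaxU : max 0 (U - ((N : ℝ) + 1) * (1000 * Real.log (q * U))) ≤ U := max_le (by linarith) (by linarith)
    have hmax0 : 0 ≤ max 0 (U - ((N : ℝ) + 1) * (1000 * Real.log (q * U))) := le_max_left _ _
    have hWle : U + ((N : ℝ) + 1) * (1000 * Real.log (q * U)) ≤ 10000 * ((N : ℝ) + 1) * Real.log q := by
      have h4 : Real.log U ≤ Real.log q := by
        have h5 : Real.log (10000 * ((N : ℝ) + 1) * Real.log q) ≤
            10000 * ((N : ℝ) + 1) * Real.log q / (10000 * ((N : ℝ) + 1)) := by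
          refine hx₀ _ (hLx.trans ?_)
          have h6 : 0 ≤ (10000 * (N : ℝ) + 9999) * Real.log q := by positivity
          linarith
        rw [mul_div_cancel_left₀ _ hM.ne'] at h5
        refine (Real.log_le_log hU0 ?_).trans h5
        have h6 : 0 ≤ 2000 * ((N : ℝ) + 1) * Real.log q := by positivity
        linarith
      rw [e1]
      have h5 : ((N : ℝ) + 1) * (1000 * (Real.log q + Real.log U)) ≤
          ((N : ℝ) + 1) * (1000 * (Real.log q + Real.log q)) :=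
        mul_le_mul_of_nonneg_left (by linarith) (by positivity)
      linarith
    have hpow := H4_pow (10000 * ((N : ℝ) + 1)) (Real.log q) hM hLM
    set W : ℝ := ((N : ℝ) + 1) * (1000 * Real.log (q * U)) with hW
    set L : ℝ := Real.log q with hLdef
    have hL0 : 0 < L := by linarith
    set α : ℝ := max 0 (U - W) with hα
    have hup' : upN q N U = Real.exp (U + W) := rfl
    have hexα : 1 ≤ Real.exp α := Real.one_le_exp hmax0
    have hav := avg_window (fun x => ‖psiC χ x‖ ^ 2) (fun x => by positivity)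
      ((Pool.Agent.EM.psiC_measurable χ).norm.pow_const 2) L α (U + W)
      (L - 2 * En χ q / L - ε * L) hL0 hA.le hmax0 (by linarith)
      (Pool.Agent.EM.integrable_psiC_sq_window χ (Real.exp α) (Real.exp (U + W)) hexα)
      (fun s hs1 hs2 => by
        have h4 := hnear L s hL0 (by linarith) (by
          have e : (3 / 2 - 1 / 4 : ℝ) = 5 / 4 := by norm_num
          rw [e]
          linarith)
        have h5 := TB_eq_BE χ L s (by linarith)
        have h6 := BE_split (fun x => ‖psiC χ x‖ ^ 2) L s hL0.le (by linarith)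
          (Pool.Agent.EM.integrable_psiC_sq_window χ 1 (Real.exp (s + L)) le_rfl)
        have h8 : min (ε / 2) (κ / 2) * (L ^ 2 * L) ≤ ε / 2 * (L ^ 2 * L) :=
          mul_le_mul_of_nonneg_right (min_le_left _ _) (by positivity)
        have h9 : 0 ≤ ε * L ^ 3 := by positivity
        have e2 : (L - 2 * En χ q / L - ε * L) * L ^ 2 = L ^ 3 - 2 * (L * En χ q) - ε * L ^ 3 := by
          field_simp
        rw [e2]
        have e3 : L ^ 2 * L = L ^ 3 := by ring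
        have e4 : L * L ^ 2 = L ^ 3 := by ring
        rw [e3] at h8
        rw [e3, e4] at h4
        linarith)
    rw [hlen', hlo', hup']
    refine le_trans ?_ hav
    refine mul_le_mul_of_nonneg_right ?_ hA.le
    have h10 : W ≤ U + W - α := by linarith
    have h11 : 2 * L ≤ ε * W := by
      have h12 : ε * (1000 * (N : ℝ) * L) ≤ ε * W := mul_le_mul_of_nonneg_left hW2 hε.le
      have h13 : 1000 * L * 1 ≤ 1000 * L * (ε * N) := mul_le_mul_of_nonneg_left hNε (by linarith)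
      have h14 : ε * (1000 * (N : ℝ) * L) = 1000 * L * (ε * N) := by ring
      linarith
    have h15 : ε * W ≤ ε * (U + W - α) := mul_le_mul_of_nonneg_left h10 hε.le
    linarith

end Pool.Agent.SF
end

section

set_option autoImplicit false

/-! Task H4: all characters, every `X ≥ q`, near scale `Y`. -/

namespace Pool.Agent.SG

open Complex MeasureTheory
open Pool.Agent.SK Pool.Agent.SD Pool.Agent.SE Pool.Agent.SF Pool.Agent.SW MP9cfc0a.SK
open Pool.Agent.EM (psiC V)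
open Pool.Agent.SO (prim NN pt pz MM kw)

/-- `NE = Y En`. PROOF. As `NE_eq_En` in SE/E1.lean (`En χ y = ∫_(1,y] (1 - log x/log y) ‖psiC χ x‖²/x²`, `y = exp Y`). -/
theorem NE_eq_En_Y {q : ℕ} (χ : DirichletCharacter ℂ q) (Y : ℝ) (hY : 0 < Y) :
    NE (fun x => ‖psiC χ x‖ ^ 2) Y = Y * En χ (Real.exp Y) := by
  unfold NE En
  rw [Real.log_exp, ← integral_const_mul]
  refine setIntegral_congr_fun measurableSet_Ioc fun x _ => ?_
  simp only
  field_simp

/-- H4. PROOF. COPY `chars_all` of SF/H4.lean: `chars_farB B`, `N₀ = max N₁ ⌈B/ε⌉₊`. Near range: windows of half length `w = Y` (`blocks4` holds for all `0 < w ≤ s`, `s + w ≤ L^(5/4)`): for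
`s ∈ [α + Y, β - Y]`: `(4 Y² L - 2 Y L² - (ε/2) Y² L) ≤ TB = BE = 4 NE + 2 FE`, `NE = Y En χ (exp Y)`, so `FE ≥ Y² (2 L - L²/Y - 2 En/Y - (ε/4) L) ≥ A Y²`; `avg_window` with `L := Y`:
`(lenN - 2 Y) A ≤ ∫`, and `2 Y ≤ 2 B L ≤ ε lenN` as `lenN ≥ 1000 N L`. `L = log q`. -/
theorem chars_allB (B : ℝ) (hB : 1 ≤ B) (ε : ℝ) (hε : 0 < ε) (hε1 : ε ≤ 1 / 2) (κ : ℝ) (hκ : 0 < κ) : ∃ N₀ : ℕ, 1 ≤ N₀ ∧ ∀ N : ℕ, N₀ ≤ N →
    ∃ q₀ : ℕ, 3 ≤ q₀ ∧ ∀ (q : ℕ) [NeZero q], q₀ ≤ q → ∃ S : Finset (DirichletCharacter ℂ q),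
      (1 - κ) * (q.totient : ℝ) ≤ (S.card : ℝ) ∧ (∀ χ ∈ S, χ ≠ 1) ∧
      ∀ χ ∈ S, ∀ U : ℝ, Real.log q ≤ U → ∀ Y : ℝ, Real.log q ≤ Y → Y ≤ B * Real.log q →
        (1 - ε) * lenN q N U * (2 * Real.log q - Real.log q ^ 2 / Y - 2 * En χ (Real.exp Y) / Y - ε * Real.log q) ≤
          ∫ x in Set.Ioc (loN q N U) (upN q N U), ‖psiC χ x‖ ^ 2 / x ^ 2 := by
  classical
  obtain ⟨N₁, hN₁, H₁⟩ := chars_farB B hB ε hε hε1 (κ / 2) (by positivity)
  refine ⟨max N₁ ⌈B / ε⌉₊, hN₁.trans (le_max_left _ _), fun N hN => ?_⟩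
  have hN1 : N₁ ≤ N := (le_max_left _ _).trans hN
  have hNε : B ≤ ε * (N : ℝ) := by
    have h1 : (B / ε) ≤ (N : ℝ) := (Nat.le_ceil _).trans (by exact_mod_cast (le_max_right _ _).trans hN)
    rw [div_le_iff₀ hε] at h1
    linarith
  obtain ⟨q₁, hq₁, G₁⟩ := H₁ N hN1
  have he0 : 0 < min (ε / 2) (κ / 2) := lt_min (by positivity) (by positivity)
  obtain ⟨T₂, hT₂, H₂⟩ := blocks4 (min (ε / 2) (κ / 2)) (1 / 4) he0 (by norm_num) (by norm_num)
  obtain ⟨q₂, hq₂, G₂⟩ := H₂ T₂ le_rfl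
  have hN0 : (0 : ℝ) ≤ N := Nat.cast_nonneg _
  have hM : (0 : ℝ) < 10000 * ((N : ℝ) + 1) := by positivity
  obtain ⟨x₀, hx₀⟩ := H4_log (10000 * ((N : ℝ) + 1)) hM
  obtain ⟨q₃, hq₃⟩ := D6_logq (max x₀ ((10000 * ((N : ℝ) + 1)) ^ 4))
  refine ⟨max q₁ (max q₂ q₃), hq₁.trans (le_max_left _ _), fun q _ hq => ?_⟩
  have hqq1 : q₁ ≤ q := by omega
  have hqq2 : q₂ ≤ q := by omega
  have hqq3 : q₃ ≤ q := by omega
  have hq3 : 3 ≤ q := hq₁.trans hqq1
  have h3 : (3 : ℝ) ≤ q := by exact_mod_cast hq3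
  have hq0 : (0 : ℝ) < q := by linarith
  have hlogs := hq₃ q hqq3
  have hLx : x₀ ≤ Real.log q := (le_max_left _ _).trans hlogs
  have hLM : (10000 * ((N : ℝ) + 1)) ^ 4 ≤ Real.log q := (le_max_right _ _).trans hlogs
  obtain ⟨S₁, hS₁c, hS₁1, hS₁⟩ := G₁ q hqq1
  obtain ⟨-, ⟨S₂, hS₂c, -, hS₂⟩, -, -⟩ := G₂ q hqq2
  have hcard : (Fintype.card (DirichletCharacter ℂ q) : ℝ) = (q.totient : ℝ) := by
    rw [← Nat.card_eq_fintype_card, DirichletCharacter.card_eq_totient_of_hasEnoughRootsOfUnity]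
  have hφ0 : (0 : ℝ) < (q.totient : ℝ) := by
    exact_mod_cast Nat.totient_pos.2 (by omega)
  refine ⟨S₁ ∩ S₂, ?_, fun χ hχ => hS₁1 χ (Finset.mem_inter.1 hχ).1, fun χ hχ U hU Y hY1 hY2 => ?_⟩
  · have h1 : ((S₁ ∪ S₂).card : ℝ) + ((S₁ ∩ S₂).card : ℝ) = (S₁.card : ℝ) + (S₂.card : ℝ) := by
      exact_mod_cast Finset.card_union_add_card_inter S₁ S₂
    have h2 : ((S₁ ∪ S₂).card : ℝ) ≤ (q.totient : ℝ) := by
      rw [← hcard]
      exact_mod_cast Finset.card_le_univ (S₁ ∪ S₂)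
    have h4 : min (ε / 2) (κ / 2) * (q.totient : ℝ) ≤ κ / 2 * (q.totient : ℝ) :=
      mul_le_mul_of_nonneg_right (min_le_right _ _) hφ0.le
    nlinarith
  obtain ⟨hχ1, hχ2⟩ := Finset.mem_inter.1 hχ
  obtain ⟨hL1, hW1, hW2⟩ := H4_W q N hq3 U hU
  obtain ⟨hlo1, hloup, hlen⟩ := lenN_pos q N hq3 U hU
  have hfar := hS₁ χ hχ1
  have hnear := hS₂ χ hχ2
  have hU1 : 1 ≤ U := by linarith
  have hU0 : 0 < U := by linarith
  have hY0 : 0 < Y := by linarith
  have e1 : Real.log (q * U) = Real.log q + Real.log U := Real.log_mul hq0.ne' hU0.ne'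
  have hlU0 : 0 ≤ Real.log U := Real.log_nonneg hU1
  have hNE := NE_eq_En_Y χ Y hY0
  have hnn : 0 ≤ ∫ x in Set.Ioc (loN q N U) (upN q N U), ‖psiC χ x‖ ^ 2 / x ^ 2 :=
    setIntegral_nonneg measurableSet_Ioc fun x _ => by positivity
  rcases le_total (8000 * ((N : ℝ) + 1) * Real.log q) U with hUf | hUn
  · -- far
    have h4 := hfar U hUf Y hY1 hY2
    have h5 : Real.log U ≤ U / (10000 * ((N : ℝ) + 1)) := hx₀ U (hLx.trans hU)
    rw [le_div_iff₀ hM] at h5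
    have h6 : ((N : ℝ) + 1) * (1000 * Real.log (q * U)) ≤ U := by
      rw [e1]
      nlinarith
    have h7 : max 0 (U - ((N : ℝ) + 1) * (1000 * Real.log (q * U))) =
        U - ((N : ℝ) + 1) * (1000 * Real.log (q * U)) := max_eq_right (by linarith)
    have h8 : lenN q N U = 2 * (((N : ℝ) + 1) * (1000 * Real.log (q * U))) := by
      rw [H4_lenN, h7]
      ring
    have h9 : loN q N U = Real.exp (U - ((N : ℝ) + 1) * (1000 * Real.log (q * U))) := by
      rw [H4_loN, h7]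
    rw [h8, h9]
    exact h4
  · -- near
    by_cases hA : 2 * Real.log q - Real.log q ^ 2 / Y - 2 * En χ (Real.exp Y) / Y - ε * Real.log q ≤ 0
    · refine le_trans ?_ hnn
      have h4 : 0 ≤ (1 - ε) * lenN q N U := mul_nonneg (by linarith) (by linarith)
      exact mul_nonpos_of_nonneg_of_nonpos h4 hA
    push Not at hA
    have hlen' := H4_lenN q N U
    have hlo' := H4_loN q N U
    have hmaxU : max 0 (U - ((N : ℝ) + 1) * (1000 * Real.log (q * U))) ≤ U := max_le (by linarith) (by linarith)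
    have hmax0 : 0 ≤ max 0 (U - ((N : ℝ) + 1) * (1000 * Real.log (q * U))) := le_max_left _ _
    have hWle : U + ((N : ℝ) + 1) * (1000 * Real.log (q * U)) ≤ 10000 * ((N : ℝ) + 1) * Real.log q := by
      have h4 : Real.log U ≤ Real.log q := by
        have h5 : Real.log (10000 * ((N : ℝ) + 1) * Real.log q) ≤
            10000 * ((N : ℝ) + 1) * Real.log q / (10000 * ((N : ℝ) + 1)) := by
          refine hx₀ _ (hLx.trans ?_)
          have h6 : 0 ≤ (10000 * (N : ℝ) + 9999) * Real.log q := by positivity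
          linarith
        rw [mul_div_cancel_left₀ _ hM.ne'] at h5
        refine (Real.log_le_log hU0 ?_).trans h5
        have h6 : 0 ≤ 2000 * ((N : ℝ) + 1) * Real.log q := by positivity
        linarith
      rw [e1]
      have h5 : ((N : ℝ) + 1) * (1000 * (Real.log q + Real.log U)) ≤
          ((N : ℝ) + 1) * (1000 * (Real.log q + Real.log q)) :=
        mul_le_mul_of_nonneg_left (by linarith) (by positivity)
      linarith
    have hpow := H4_pow (10000 * ((N : ℝ) + 1)) (Real.log q) hM hLM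
    set W : ℝ := ((N : ℝ) + 1) * (1000 * Real.log (q * U)) with hW
    set L : ℝ := Real.log q with hLdef
    have hL0 : 0 < L := by linarith
    set α : ℝ := max 0 (U - W) with hα
    have hup' : upN q N U = Real.exp (U + W) := rfl
    have hexα : 1 ≤ Real.exp α := Real.one_le_exp hmax0
    set E : ℝ := En χ (Real.exp Y) with hE
    have hav := avg_window (fun x => ‖psiC χ x‖ ^ 2) (fun x => by positivity)
      ((Pool.Agent.EM.psiC_measurable χ).norm.pow_const 2) Y α (U + W)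
      (2 * L - L ^ 2 / Y - 2 * E / Y - ε * L) hY0 hA.le hmax0 (by linarith)
      (Pool.Agent.EM.integrable_psiC_sq_window χ (Real.exp α) (Real.exp (U + W)) hexα)
      (fun s hs1 hs2 => by
        have h4 := hnear Y s hY0 (by linarith) (by
          have e : (3 / 2 - 1 / 4 : ℝ) = 5 / 4 := by norm_num
          rw [e]
          linarith)
        have h5 := TB_eq_BE χ Y s (by linarith)
        have h6 := BE_split (fun x => ‖psiC χ x‖ ^ 2) Y s hY0.le (by linarith)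
          (Pool.Agent.EM.integrable_psiC_sq_window χ 1 (Real.exp (s + Y)) le_rfl)
        have h8 : min (ε / 2) (κ / 2) * (Y ^ 2 * L) ≤ ε / 2 * (Y ^ 2 * L) :=
          mul_le_mul_of_nonneg_right (min_le_left _ _) (by positivity)
        have h9 : 0 ≤ ε * (Y ^ 2 * L) := by positivity
        have e2 : (2 * L - L ^ 2 / Y - 2 * E / Y - ε * L) * Y ^ 2 =
            2 * (Y ^ 2 * L) - Y * L ^ 2 - 2 * (Y * E) - ε * (Y ^ 2 * L) := by
          field_simp
        rw [e2]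
        rw [h5, h6, hNE] at h4
        linarith)
    rw [hlen', hlo', hup']
    refine le_trans ?_ hav
    refine mul_le_mul_of_nonneg_right ?_ hA.le
    have h10 : W ≤ U + W - α := by linarith
    have h11 : 2 * Y ≤ ε * W := by
      have h12 : ε * (1000 * (N : ℝ) * L) ≤ ε * W := mul_le_mul_of_nonneg_left hW2 hε.le
      have h13 : L * B ≤ L * (ε * N) := mul_le_mul_of_nonneg_left hNε hL0.le
      have h14 : ε * (1000 * (N : ℝ) * L) = 1000 * (L * (ε * N)) := by ring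
      have h16 : 0 ≤ B * L := by positivity
      linarith
    have h15 : ε * W ≤ ε * (U + W - α) := mul_le_mul_of_nonneg_left h10 hε.le
    linarith

end Pool.Agent.SG
end
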