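import Pool.Agent.Lib.MP_9cfc0a_nt.Mg.G071
import Pool.Agent.Lib.MP_9cfc0a_nt.TS.Defs2
import Pool.Agent.Lib.MP_9cfc0a_nt.Mg.G072
import Pool.Agent.Lib.MP_9cfc0a_nt.Mg.G069

section

/-!
# Un: bound where L(s, χ) has no zeros with Re > θ near height t
-/

set_option autoImplicit false

namespace Pool.Agent.TS

open Complex Metric Set MeasureTheory
open Pool.Agent.EM

/-- Un. PROOF. `B = √(ε log X)`, `c = 1 + ε`, `a = θ + ε ≤ c`, `h = 3/ε`; `MM_near` gives the constant `C₁` and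
`M = C₁ ((X (|t|+6))^(ε/4)/(1+|t|))`, `line_bound` the constant `C₀`, `near_numeric ε C₀ C₁` the constants
`C`, `X₁`. By `Ft_eq`, `‖Ft‖ ≤ B ‖∫_ℝ Psi(c + y i) dy‖` (`√(2π) ≥ 1`), and
`∫_ℝ = ∫_{Icc (t-h) (t+h)} + ∫_{R}`, `R = (Icc (t-h) (t+h))ᶜ` (`integral_add_compl`, integrable by `Ft_eq`), on
`R`: `h ≤ |y - t|`. By `rect_bound` for `Psi χ B x t` (`Psi_differentiableAt`: `Re s ≥ a > 1/2` so `s ≠ 0`; if
`FF s = 0` then, as `Re s > θ`, `6/ε < |Im s - t| ≤ h = 3/ε`, a contradiction) the first integral is at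
most left side + two horizontal sides. LEFT: `line_bound` with `R := Icc (t-h) (t+h)`, `h := 0`,
`u := a`. HORIZONTAL: `horizontal_bound` with `y = t - h` and `y = t + h` (`|y - t| = h`).
FAR: `line_bound` with `R`, `h`, `u := c`. The sum is the left side of `near_numeric`. -/
lemma Ft_near (ε : ℝ) (hε : 0 < ε) (hε1 : ε ≤ 1 / 4) : ∃ C X₁ : ℝ, 0 ≤ C ∧
    ∀ (q : ℕ) [NeZero q] (X x t θ : ℝ), (q : ℝ) ≤ X → X₁ ≤ X → 1 ≤ x → x ≤ X → |t| ≤ X →
    1 / 2 ≤ θ → θ ≤ 1 → ∀ χ : DirichletCharacter ℂ q,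
    (∀ z : ℂ, MC.FF q χ z = 0 → θ < z.re → 6 / ε < |z.im - t|) →
    ‖Ft χ (Real.sqrt (ε * Real.log X)) x t‖
      ≤ C * X ^ (3 * ε) * x ^ (θ - 1 / 2) / (1 + |t|) := by
  obtain ⟨C₀, hC₀, hline⟩ := line_bound
  obtain ⟨C₁, hC₁, hMM⟩ := MM_near ε hε hε1
  obtain ⟨C, X₁, hC, hX₁, hnum⟩ := near_numeric ε C₀ C₁ hε hε1 (by linarith) hC₁
  refine ⟨C, X₁, hC, ?_⟩
  intro q _ X x t θ hq hX hx hxX ht hθ hθ1 χ hz
  have hX1 : 1 ≤ X := hX₁.trans hX
  have hX0 : 0 < X := by linarith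
  have hx0 : 0 < x := by linarith
  obtain ⟨hM1, hM2⟩ := hMM q X t θ hq hθ hθ1 χ hz
  obtain ⟨hB1, hfin⟩ := hnum X x t θ (Real.sqrt (ε * Real.log X))
    (C₁ * ((X * (|t| + 6)) ^ (ε / 4) / (1 + |t|))) hX hx hxX ht hθ hθ1 rfl rfl
  refine le_trans ?_ hfin
  set B := Real.sqrt (ε * Real.log X) with hB
  set M := C₁ * ((X * (|t| + 6)) ^ (ε / 4) / (1 + |t|)) with hM
  have ht0 : 0 ≤ |t| := abs_nonneg t
  have hM0 : 0 ≤ M := by positivity
  set h := 3 / ε with hh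
  have hh0 : 0 < h := by positivity
  obtain ⟨hInt, hFt⟩ := Ft_eq χ B x t (1 + ε) (by linarith) hx0 (by linarith)
  set G : ℂ → ℂ := Psi χ B x t with hG
  -- the transform
  have h2π : 1 ≤ Real.sqrt (2 * Real.pi) := by
    rw [Real.one_le_sqrt]
    have := Real.pi_gt_three
    linarith
  have h1 : ‖Ft χ B x t‖ ≤ B * ‖∫ y : ℝ, G (((1 + ε : ℝ) : ℂ) + y * I)‖ := by
    rw [hFt, norm_mul, Complex.norm_real, Real.norm_of_nonneg (by positivity)]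
    gcongr
    exact div_le_self (by linarith) h2π
  have hsplit : (∫ y in Icc (t - h) (t + h), G (((1 + ε : ℝ) : ℂ) + y * I)) +
      ∫ y in (Icc (t - h) (t + h))ᶜ, G (((1 + ε : ℝ) : ℂ) + y * I)
      = ∫ y : ℝ, G (((1 + ε : ℝ) : ℂ) + y * I) :=
    integral_add_compl measurableSet_Icc hInt
  have hrect := rect_bound G (θ + ε) (1 + ε) t h (by linarith) hh0.le (by
    intro s hs1 hs2 hs3
    apply Psi_differentiableAt χ B x t hx0 s
    · intro h0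
      rw [h0] at hs1
      simp only [Complex.zero_re] at hs1
      linarith
    · intro h0
      have h4 := hz s h0 (by linarith)
      have h5 : 3 / ε < 6 / ε := by
        apply div_lt_div_of_pos_right _ hε
        norm_num
      linarith)
  -- left side
  have hleft := hline q χ B x t (θ + ε) 0 M (Icc (t - h) (t + h)) measurableSet_Icc hB1 hx
    (by rw [abs_le]; constructor <;> linarith) le_rfl hM0 (fun y _ => abs_nonneg _)
    (fun y hy => by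
      apply hM1 (θ + ε) y le_rfl (by linarith)
      rw [abs_le]
      constructor
      · linarith [hy.1]
      · linarith [hy.2])
  -- far part
  have hfar := hline q χ B x t (1 + ε) h M (Icc (t - h) (t + h))ᶜ measurableSet_Icc.compl hB1 hx
    (by rw [abs_le]; constructor <;> linarith) hh0.le hM0
    (fun y hy => by
      by_contra hlt
      apply hy
      rw [not_le, abs_lt] at hlt
      exact ⟨by linarith [hlt.1], by linarith [hlt.2]⟩)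
    (fun y _ => hM2 y)
  -- horizontal sides
  have hho1 := horizontal_bound χ B x t (θ + ε) (1 + ε) h M (t - h) hx (by linarith)
    (by linarith) (by linarith) hM0 (by
      rw [sub_sub_cancel_left, abs_neg, abs_of_pos hh0])
    (fun u hu1 hu2 => by
      have := hM1 u (t - h) hu1 hu2 (by rw [sub_sub_cancel_left, abs_neg, abs_of_pos hh0])
      exact this)
  have hho2 := horizontal_bound χ B x t (θ + ε) (1 + ε) h M (t + h) hx (by linarith)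
    (by linarith) (by linarith) hM0 (by
      rw [add_sub_cancel_left, abs_of_pos hh0])
    (fun u hu1 hu2 => by
      have := hM1 u (t + h) hu1 hu2 (by rw [add_sub_cancel_left, abs_of_pos hh0])
      exact this)
  have hB0 : 0 ≤ B := by linarith
  calc ‖Ft χ B x t‖ ≤ B * ‖∫ y : ℝ, G (((1 + ε : ℝ) : ℂ) + y * I)‖ := h1
    _ ≤ B * (‖∫ y in Icc (t - h) (t + h), G (((1 + ε : ℝ) : ℂ) + y * I)‖ +
          ‖∫ y in (Icc (t - h) (t + h))ᶜ, G (((1 + ε : ℝ) : ℂ) + y * I)‖) := by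
        rw [← hsplit]
        gcongr
        exact norm_add_le _ _
    _ ≤ B * ((‖∫ y in Icc (t - h) (t + h), G (((θ + ε : ℝ) : ℂ) + y * I)‖
          + ‖∫ u in (θ + ε)..(1 + ε), G ((u : ℂ) + ((t - h : ℝ) : ℂ) * I)‖
          + ‖∫ u in (θ + ε)..(1 + ε), G ((u : ℂ) + ((t + h : ℝ) : ℂ) * I)‖) +
          ‖∫ y in (Icc (t - h) (t + h))ᶜ, G (((1 + ε : ℝ) : ℂ) + y * I)‖) := by
        gcongr
    _ = B * ‖∫ y in Icc (t - h) (t + h), G (((θ + ε : ℝ) : ℂ) + y * I)‖ +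
          B * ‖∫ y in (Icc (t - h) (t + h))ᶜ, G (((1 + ε : ℝ) : ℂ) + y * I)‖ +
          (B * ‖∫ u in (θ + ε)..(1 + ε), G ((u : ℂ) + ((t - h : ℝ) : ℂ) * I)‖
          + B * ‖∫ u in (θ + ε)..(1 + ε), G ((u : ℂ) + ((t + h : ℝ) : ℂ) * I)‖) := by ring
    _ ≤ C₀ * M * Real.exp (B ^ 2 / 2) * x ^ ((θ + ε) - 1 / 2) *
            Real.exp (-(B ^ 2 * 0 ^ 2 / 4)) +
          C₀ * M * Real.exp (B ^ 2 / 2) * x ^ ((1 + ε) - 1 / 2) *
            Real.exp (-(B ^ 2 * h ^ 2 / 4)) +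
          (B * (M * (1 + h) ^ 2 * Real.exp (B ^ 2 / 2 - B ^ 2 * h ^ 2 / 2) *
            x ^ ((1 + ε) - 1 / 2)) +
          B * (M * (1 + h) ^ 2 * Real.exp (B ^ 2 / 2 - B ^ 2 * h ^ 2 / 2) *
            x ^ ((1 + ε) - 1 / 2))) := by
        gcongr
    _ = C₀ * M * Real.exp (B ^ 2 / 2) * x ^ ((θ + ε) - 1 / 2) *
            Real.exp (-(B ^ 2 * 0 ^ 2 / 4)) +
          C₀ * M * Real.exp (B ^ 2 / 2) * x ^ ((1 + ε) - 1 / 2) *
            Real.exp (-(B ^ 2 * h ^ 2 / 4)) +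
          2 * (B * (M * (1 + h) ^ 2 * Real.exp (B ^ 2 / 2 - B ^ 2 * h ^ 2 / 2) *
            x ^ ((1 + ε) - 1 / 2))) := by ring

end Pool.Agent.TS
end

section

/-!
# Uo: the square of the transform by the zeros
-/

set_option autoImplicit false

namespace Pool.Agent.TS

open Complex Metric Set MeasureTheory
open Pool.Agent.EM

/-- Uo. PROOF. `X₁ ≥ 12/ε`, so `|t| + 6/ε ≤ X`. Let `S = (Zf χ (1/2) X).filter (|Im ρ - t| ≤ 6/ε)`. If no
`ρ ∈ S` has `Re ρ > 1/2`, take `θ = 1/2`; otherwise let `θ = Re ρ₁` be the maximum of `Re ρ` over `S`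
(`Finset.exists_max_image`; `θ < 1` by `Zf_re_lt`). Every zero `z` with `Re z > θ ≥ 1/2` has
`|Im z - t| > 6/ε` (otherwise `|Im z| ≤ X` and `z ∈ S`). `Ft_near` squared:
`C² X^(6ε) x^(2θ-1)/(1+|t|)²`, and `x^(2θ-1) = 1` or one of the terms of the sum (the terms are
nonnegative). -/
lemma Ft_sq_near (ε : ℝ) (hε : 0 < ε) (hε1 : ε ≤ 1 / 4) : ∃ C X₁ : ℝ, 0 ≤ C ∧
    ∀ (q : ℕ) [NeZero q] (X x t : ℝ), (q : ℝ) ≤ X → X₁ ≤ X → 1 ≤ x → x ≤ X → |t| ≤ X / 2 →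
    ∀ χ : DirichletCharacter ℂ q,
    ‖Ft χ (Real.sqrt (ε * Real.log X)) x t‖ ^ 2
      ≤ C * X ^ (6 * ε) * ((1 + ∑ ρ ∈ (Zf χ (1 / 2) X).filter (fun ρ => |ρ.im - t| ≤ 6 / ε),
          x ^ (2 * ρ.re - 1)) / (1 + |t|) ^ 2) := by
  obtain ⟨C₀, X₀, hC₀, h⟩ := Ft_near ε hε hε1
  refine ⟨C₀ ^ 2, max X₀ (12 / ε), sq_nonneg _, ?_⟩
  intro q _ X x t hqX hX₁ hx1 hxX ht χ
  have hX₀ : X₀ ≤ X := le_trans (le_max_left _ _) hX₁
  have hX12 : 12 / ε ≤ X := le_trans (le_max_right _ _) hX₁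
  have h6 : 6 / ε ≤ X / 2 := by
    have e : 12 / ε = 2 * (6 / ε) := by ring
    rw [e] at hX12
    linarith
  have hXpos : 0 < X := by linarith
  have hx0 : 0 < x := by linarith
  have ht' : |t| ≤ X := by linarith
  set S := (Zf χ (1 / 2) X).filter (fun ρ => |ρ.im - t| ≤ 6 / ε) with hS
  have hnn : ∀ ρ ∈ S, 0 ≤ x ^ (2 * ρ.re - 1) := fun ρ _ => Real.rpow_nonneg hx0.le _
  -- the abscissa
  have hθ : ∃ θ : ℝ, 1 / 2 ≤ θ ∧ θ ≤ 1 ∧ (∀ ρ ∈ S, ρ.re ≤ θ) ∧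
      x ^ (2 * θ - 1) ≤ 1 + ∑ ρ ∈ S, x ^ (2 * ρ.re - 1) := by
    rcases S.eq_empty_or_nonempty with he | hne
    · refine ⟨1 / 2, le_refl _, by norm_num, ?_, ?_⟩
      · intro ρ hρ
        rw [he] at hρ
        simp at hρ
      · rw [he]
        norm_num
    · obtain ⟨ρ₁, hρ₁, hmax⟩ := S.exists_max_image (fun ρ => ρ.re) hne
      have hm := (Finset.mem_filter.mp hρ₁).1
      rw [mem_Zf] at hm
      refine ⟨ρ₁.re, hm.2.1, (Zf_re_lt χ ρ₁ hm.1).le, hmax, ?_⟩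
      have h1 := Finset.single_le_sum hnn hρ₁
      linarith
  obtain ⟨θ, hθ1, hθ2, hθ3, hθ4⟩ := hθ
  have hz : ∀ z : ℂ, MC.FF q χ z = 0 → θ < z.re → 6 / ε < |z.im - t| := by
    intro z hz hre
    by_contra hcon
    have hcon' := not_lt.mp hcon
    have him : |z.im| ≤ X := by
      have : |z.im| ≤ |z.im - t| + |t| := by
        have := abs_add_le (z.im - t) t
        simpa using this
      linarith
    have hmem : z ∈ S := by
      rw [hS, Finset.mem_filter, mem_Zf]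
      exact ⟨⟨hz, by linarith, him⟩, hcon'⟩
    have := hθ3 z hmem
    linarith
  have key := h q X x t θ hqX hX₀ hx1 hxX ht' hθ1 hθ2 χ hz
  have hden : 0 < 1 + |t| := by positivity
  have hsq : ‖Ft χ (Real.sqrt (ε * Real.log X)) x t‖ ^ 2
      ≤ (C₀ * X ^ (3 * ε) * x ^ (θ - 1 / 2) / (1 + |t|)) ^ 2 :=
    pow_le_pow_left₀ (norm_nonneg _) key 2
  have hXe : (X ^ (3 * ε)) ^ 2 = X ^ (6 * ε) := by
    rw [← Real.rpow_natCast, ← Real.rpow_mul hXpos.le]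
    congr 1
    push_cast
    ring
  have hxe : (x ^ (θ - 1 / 2)) ^ 2 = x ^ (2 * θ - 1) := by
    rw [← Real.rpow_natCast, ← Real.rpow_mul hx0.le]
    congr 1
    push_cast
    ring
  calc ‖Ft χ (Real.sqrt (ε * Real.log X)) x t‖ ^ 2
      ≤ (C₀ * X ^ (3 * ε) * x ^ (θ - 1 / 2) / (1 + |t|)) ^ 2 := hsq
    _ = C₀ ^ 2 * X ^ (6 * ε) * (x ^ (2 * θ - 1) / (1 + |t|) ^ 2) := by
        rw [← hXe, ← hxe]
        field_simp
    _ ≤ _ := by
        apply mul_le_mul_of_nonneg_left _ (by positivity)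
        apply div_le_div_of_nonneg_right hθ4 (by positivity)

end Pool.Agent.TS
end

section

/-!
# Us: the integral over |t| ≤ X/2
-/

set_option autoImplicit false

namespace Pool.Agent.TS

open Complex Metric Set MeasureTheory
open Pool.Agent.EM

/-- Us. PROOF. `Ft_sq_near` pointwise on `{t | |t| ≤ X/2}`, then enlarge the set to the whole line (the
bound is nonnegative) and `int_filter_sum` with `H = 6/ε`, `S = Zf χ (1/2) X`,
`w ρ = x^(2 Re ρ - 1)` (`mem_Zf`, `Zf_re_lt`). Integrability of `‖Ft‖²`: `plancherel_upper`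
(`B = √(ε log X) ≥ 1` for `X` large). -/
lemma near_int (ε : ℝ) (hε : 0 < ε) (hε1 : ε ≤ 1 / 4) : ∃ C X₁ : ℝ, 0 ≤ C ∧
    ∀ (q : ℕ) [NeZero q] (X x : ℝ), (q : ℝ) ≤ X → X₁ ≤ X → 1 ≤ x → x ≤ X →
    ∀ χ : DirichletCharacter ℂ q,
    ∫ t in {t : ℝ | |t| ≤ X / 2}, ‖Ft χ (Real.sqrt (ε * Real.log X)) x t‖ ^ 2
      ≤ C * X ^ (6 * ε) * (1 + ∑ ρ ∈ Zf χ (1 / 2) X, x ^ (2 * ρ.re - 1) / ‖ρ‖ ^ 2) := by
  obtain ⟨C₁, X₁, hC₁, hnear⟩ := Ft_sq_near ε hε hε1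
  obtain ⟨C₂, hC₂, hsum⟩ := int_filter_sum (6 / ε) (by positivity)
  refine ⟨C₁ * C₂, max X₁ 1, by positivity, ?_⟩
  intro q _ X x hq hX hx hxX χ
  have hX1 : 1 ≤ X := le_trans (le_max_right _ _) hX
  have hXX : X₁ ≤ X := le_trans (le_max_left _ _) hX
  have hX0 : 0 < X := by linarith
  have hx0 : 0 < x := by linarith
  obtain ⟨hI, hIle⟩ := hsum (Zf χ (1 / 2) X) (fun ρ => x ^ (2 * ρ.re - 1))
    (fun ρ _ => by positivity)
    (fun ρ hρ => by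
      rw [mem_Zf] at hρ
      exact ⟨hρ.2.1, (Zf_re_lt χ ρ hρ.1).le⟩)
  set K := C₁ * X ^ (6 * ε) with hK
  have hK0 : 0 ≤ K := by positivity
  set F : ℝ → ℝ := fun t => (1 + ∑ ρ ∈ (Zf χ (1 / 2) X).filter (fun ρ => |ρ.im - t| ≤ 6 / ε),
    x ^ (2 * ρ.re - 1)) / (1 + |t|) ^ 2 with hF
  have hF0 : ∀ t, 0 ≤ F t := by
    intro t
    have ht0 : 0 ≤ |t| := abs_nonneg t
    simp only [hF]
    apply div_nonneg _ (by positivity)
    have := Finset.sum_nonneg (s := (Zf χ (1 / 2) X).filter (fun ρ => |ρ.im - t| ≤ 6 / ε))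
      (f := fun ρ => x ^ (2 * ρ.re - 1)) (fun ρ _ => by positivity)
    linarith
  have hmeas : MeasurableSet {t : ℝ | |t| ≤ X / 2} := measurableSet_le (by fun_prop) (by fun_prop)
  have hmono : ∫ t in {t : ℝ | |t| ≤ X / 2}, ‖Ft χ (Real.sqrt (ε * Real.log X)) x t‖ ^ 2
      ≤ ∫ t in {t : ℝ | |t| ≤ X / 2}, K * F t := by
    apply integral_mono_of_nonneg
    · exact Filter.Eventually.of_forall (fun t => by positivity)
    · exact (hI.const_mul K).integrableOn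
    · rw [Filter.EventuallyLE, ae_restrict_iff' hmeas]
      exact Filter.Eventually.of_forall (fun t ht => hnear q X x t hq hXX hx hxX ht χ)
  refine hmono.trans ?_
  have henl : ∫ t in {t : ℝ | |t| ≤ X / 2}, K * F t ≤ ∫ t : ℝ, K * F t :=
    setIntegral_le_integral (hI.const_mul K)
      (Filter.Eventually.of_forall (fun t => mul_nonneg hK0 (hF0 t)))
  refine henl.trans ?_
  rw [integral_const_mul]
  calc K * ∫ t : ℝ, F t
      ≤ K * (C₂ * (1 + ∑ ρ ∈ Zf χ (1 / 2) X, x ^ (2 * ρ.re - 1) / ‖ρ‖ ^ 2)) := by gcongr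
    _ = C₁ * C₂ * X ^ (6 * ε) *
          (1 + ∑ ρ ∈ Zf χ (1 / 2) X, x ^ (2 * ρ.re - 1) / ‖ρ‖ ^ 2) := by
        rw [hK]
        ring

end Pool.Agent.TS
end

section

/-!
# Ur: the upper bound for one character
-/

set_option autoImplicit false

namespace Pool.Agent.TS

open Complex Metric Set MeasureTheory
open Pool.Agent.EM

/-- Ur. PROOF. `ε₁ = min (ε/20) (1/4)`, `B = √(ε₁ log X) ≥ 1` for `X` large. `plancherel_upper`; the integral
over `t` is the sum of those over `|t| ≤ X/2` and over its complement `X/2 < |t|`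
(`integral_add_compl`, integrable), so `near_int` and `far_int`: `≤ (C + C') X^(6ε₁) (1 + ∑) ≤ X^ε (1 + ∑)` for
`X` large. -/
lemma char_upper (ε : ℝ) (hε : 0 < ε) : ∃ X₁ : ℝ,
    ∀ (q : ℕ) [NeZero q] (X x : ℝ), (q : ℝ) ≤ X → X₁ ≤ X → 1 ≤ x → x ≤ X →
    ∀ χ : DirichletCharacter ℂ q,
    ∫ y in Ioc x (2 * x), ‖gC χ y‖ ^ 2 * y ^ (-2 : ℝ)
      ≤ X ^ ε * (1 + ∑ ρ ∈ Zf χ (1 / 2) X, x ^ (2 * ρ.re - 1) / ‖ρ‖ ^ 2) := by
  obtain ⟨δ, hδ⟩ : ∃ δ : ℝ, δ = min (ε / 20) (1 / 4) := ⟨_, rfl⟩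
  have hδ0 : 0 < δ := by
    rw [hδ]
    exact lt_min (by positivity) (by norm_num)
  have hδ1 : δ ≤ 1 / 4 := by
    rw [hδ]
    exact min_le_right _ _
  have hδε : δ ≤ ε / 20 := by
    rw [hδ]
    exact min_le_left _ _
  obtain ⟨C₁, Y₁, hC₁, hnear⟩ := near_int δ hδ0 hδ1
  obtain ⟨C₂, Y₂, hC₂, hfar⟩ := far_int δ hδ0 hδ1
  refine ⟨max (max Y₁ Y₂) (max (Real.exp (1 / δ)) ((C₁ + C₂) ^ (1 / δ))), ?_⟩
  intro q _ X x hq hX hx hxX χ
  have hY₁ : Y₁ ≤ X := ((le_max_left _ _).trans (le_max_left _ _)).trans hX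
  have hY₂ : Y₂ ≤ X := ((le_max_right _ _).trans (le_max_left _ _)).trans hX
  have hexp : Real.exp (1 / δ) ≤ X := ((le_max_left _ _).trans (le_max_right _ _)).trans hX
  have hCX : (C₁ + C₂) ^ (1 / δ) ≤ X := ((le_max_right _ _).trans (le_max_right _ _)).trans hX
  have hX1 : 1 ≤ X := hx.trans hxX
  have hXp : 0 < X := by linarith
  have hB : 1 ≤ Real.sqrt (δ * Real.log X) := by
    rw [Real.one_le_sqrt]
    have h1 : 1 / δ ≤ Real.log X := (Real.le_log_iff_exp_le hXp).2 hexp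
    have h2 := mul_le_mul_of_nonneg_left h1 hδ0.le
    rwa [mul_one_div_cancel hδ0.ne'] at h2
  have hCX' : C₁ + C₂ ≤ X ^ δ := by
    have h1 := Real.rpow_le_rpow (Real.rpow_nonneg (add_nonneg hC₁ hC₂) _) hCX hδ0.le
    rwa [← Real.rpow_mul (add_nonneg hC₁ hC₂), one_div_mul_cancel hδ0.ne', Real.rpow_one] at h1
  obtain ⟨hint, hpl⟩ := plancherel_upper χ (Real.sqrt (δ * Real.log X)) x hB hx
  have hms : MeasurableSet {t : ℝ | |t| ≤ X / 2} := measurableSet_le (by fun_prop) (by fun_prop)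
  have hsplit := integral_add_compl hms hint
  have hcompl : {t : ℝ | |t| ≤ X / 2}ᶜ = {t : ℝ | X / 2 < |t|} := by
    ext t
    simp only [mem_compl_iff, mem_setOf_eq, not_le]
  rw [hcompl] at hsplit
  have h1 := hnear q X x hq hY₁ hx hxX χ
  have h2 := hfar q X x hq hY₂ hx hxX χ
  obtain ⟨S, hS⟩ : ∃ S : ℝ, S = ∑ ρ ∈ Zf χ (1 / 2) X, x ^ (2 * ρ.re - 1) / ‖ρ‖ ^ 2 := ⟨_, rfl⟩
  rw [← hS] at h1 ⊢
  have hS0 : 0 ≤ S := by
    rw [hS]
    refine Finset.sum_nonneg fun ρ _ => ?_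
    have h3 : 0 ≤ x ^ (2 * ρ.re - 1) := Real.rpow_nonneg (by linarith) _
    positivity
  have h4 : X ^ (5 * δ) ≤ X ^ (6 * δ) * (1 + S) := by
    have h5 : X ^ (5 * δ) ≤ X ^ (6 * δ) :=
      Real.rpow_le_rpow_of_exponent_le hX1 (by linarith)
    have h6 : 0 ≤ X ^ (6 * δ) := Real.rpow_nonneg hXp.le _
    nlinarith [mul_nonneg h6 hS0]
  calc ∫ y in Ioc x (2 * x), ‖gC χ y‖ ^ 2 * y ^ (-2 : ℝ)
      ≤ ∫ t : ℝ, ‖Ft χ (Real.sqrt (δ * Real.log X)) x t‖ ^ 2 := hpl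
    _ ≤ C₁ * X ^ (6 * δ) * (1 + S) + C₂ * X ^ (5 * δ) := by
        rw [← hsplit]
        exact add_le_add h1 h2
    _ ≤ C₁ * X ^ (6 * δ) * (1 + S) + C₂ * (X ^ (6 * δ) * (1 + S)) :=
        add_le_add le_rfl (mul_le_mul_of_nonneg_left h4 hC₂)
    _ = (C₁ + C₂) * (X ^ (6 * δ) * (1 + S)) := by ring
    _ ≤ X ^ δ * (X ^ (6 * δ) * (1 + S)) := by
        refine mul_le_mul_of_nonneg_right hCX' ?_
        have h6 : 0 ≤ X ^ (6 * δ) := Real.rpow_nonneg hXp.le _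
        exact mul_nonneg h6 (by linarith)
    _ = X ^ (7 * δ) * (1 + S) := by
        rw [← mul_assoc, ← Real.rpow_add hXp]
        congr 2
        ring
    _ ≤ X ^ ε * (1 + S) := by
        refine mul_le_mul_of_nonneg_right ?_ (by linarith)
        exact Real.rpow_le_rpow_of_exponent_le hX1 (by linarith)

end Pool.Agent.TS
end
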